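import Pool.Agent.H63.PU.C161.Cert
import Pool.Agent.H63.PU.Fast

namespace Pool.Agent.H63.PU.C161

open Pool.Agent.H63.PU Pool.Agent.H63.PU.Short

set_option maxRecDepth 20000

theorem k01_0 : allFrom (Fast.checkOne W cert) 8 256 = true := by decide +kernel

theorem k01_1 : allFrom (Fast.checkOne W cert) 8 264 = true := by decide +kernel

theorem k01_2 : allFrom (Fast.checkOne W cert) 8 272 = true := by decide +kernel

theorem k01_3 : allFrom (Fast.checkOne W cert) 8 280 = true := by decide +kernel

theorem k01_4 : allFrom (Fast.checkOne W cert) 8 288 = true := by decide +kernel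

theorem k01_5 : allFrom (Fast.checkOne W cert) 8 296 = true := by decide +kernel

theorem k01_6 : allFrom (Fast.checkOne W cert) 8 304 = true := by decide +kernel

theorem k01_7 : allFrom (Fast.checkOne W cert) 8 312 = true := by decide +kernel

theorem k01_8 : allFrom (Fast.checkOne W cert) 8 320 = true := by decide +kernel

theorem k01_9 : allFrom (Fast.checkOne W cert) 8 328 = true := by decide +kernel

theorem k01_10 : allFrom (Fast.checkOne W cert) 8 336 = true := by decide +kernel

theorem k01_11 : allFrom (Fast.checkOne W cert) 8 344 = true := by decide +kernel

theorem k01_12 : allFrom (Fast.checkOne W cert) 8 352 = true := by decide +kernel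

theorem k01_13 : allFrom (Fast.checkOne W cert) 8 360 = true := by decide +kernel

theorem k01_14 : allFrom (Fast.checkOne W cert) 8 368 = true := by decide +kernel

theorem k01_15 : allFrom (Fast.checkOne W cert) 8 376 = true := by decide +kernel

theorem k01_16 : allFrom (Fast.checkOne W cert) 8 384 = true := by decide +kernel

theorem k01_17 : allFrom (Fast.checkOne W cert) 8 392 = true := by decide +kernel

theorem k01_18 : allFrom (Fast.checkOne W cert) 8 400 = true := by decide +kernel

theorem k01_19 : allFrom (Fast.checkOne W cert) 8 408 = true := by decide +kernel

theorem k01_20 : allFrom (Fast.checkOne W cert) 8 416 = true := by decide +kernel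

theorem k01_21 : allFrom (Fast.checkOne W cert) 8 424 = true := by decide +kernel

theorem k01_22 : allFrom (Fast.checkOne W cert) 8 432 = true := by decide +kernel

theorem k01_23 : allFrom (Fast.checkOne W cert) 8 440 = true := by decide +kernel

theorem k01_24 : allFrom (Fast.checkOne W cert) 8 448 = true := by decide +kernel

theorem k01_25 : allFrom (Fast.checkOne W cert) 8 456 = true := by decide +kernel

theorem k01_26 : allFrom (Fast.checkOne W cert) 8 464 = true := by decide +kernel

theorem k01_27 : allFrom (Fast.checkOne W cert) 8 472 = true := by decide +kernel

theorem k01_28 : allFrom (Fast.checkOne W cert) 8 480 = true := by decide +kernel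

theorem k01_29 : allFrom (Fast.checkOne W cert) 8 488 = true := by decide +kernel

theorem k01_30 : allFrom (Fast.checkOne W cert) 8 496 = true := by decide +kernel

theorem k01_31 : allFrom (Fast.checkOne W cert) 8 504 = true := by decide +kernel

end Pool.Agent.H63.PU.C161
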