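import Pool.Agent.H63.PU.C161.Cert
import Pool.Agent.H63.PU.Fast

namespace Pool.Agent.H63.PU.C161

open Pool.Agent.H63.PU Pool.Agent.H63.PU.Short

set_option maxRecDepth 20000

theorem k02_0 : allFrom (Fast.checkOne W cert) 8 512 = true := by decide +kernel

theorem k02_1 : allFrom (Fast.checkOne W cert) 8 520 = true := by decide +kernel

theorem k02_2 : allFrom (Fast.checkOne W cert) 8 528 = true := by decide +kernel

theorem k02_3 : allFrom (Fast.checkOne W cert) 8 536 = true := by decide +kernel

theorem k02_4 : allFrom (Fast.checkOne W cert) 8 544 = true := by decide +kernel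

theorem k02_5 : allFrom (Fast.checkOne W cert) 8 552 = true := by decide +kernel

theorem k02_6 : allFrom (Fast.checkOne W cert) 8 560 = true := by decide +kernel

theorem k02_7 : allFrom (Fast.checkOne W cert) 8 568 = true := by decide +kernel

theorem k02_8 : allFrom (Fast.checkOne W cert) 8 576 = true := by decide +kernel

theorem k02_9 : allFrom (Fast.checkOne W cert) 8 584 = true := by decide +kernel

theorem k02_10 : allFrom (Fast.checkOne W cert) 8 592 = true := by decide +kernel

theorem k02_11 : allFrom (Fast.checkOne W cert) 8 600 = true := by decide +kernel

theorem k02_12 : allFrom (Fast.checkOne W cert) 8 608 = true := by decide +kernel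

theorem k02_13 : allFrom (Fast.checkOne W cert) 8 616 = true := by decide +kernel

theorem k02_14 : allFrom (Fast.checkOne W cert) 8 624 = true := by decide +kernel

theorem k02_15 : allFrom (Fast.checkOne W cert) 8 632 = true := by decide +kernel

theorem k02_16 : allFrom (Fast.checkOne W cert) 8 640 = true := by decide +kernel

theorem k02_17 : allFrom (Fast.checkOne W cert) 8 648 = true := by decide +kernel

theorem k02_18 : allFrom (Fast.checkOne W cert) 8 656 = true := by decide +kernel

theorem k02_19 : allFrom (Fast.checkOne W cert) 8 664 = true := by decide +kernel

theorem k02_20 : allFrom (Fast.checkOne W cert) 8 672 = true := by decide +kernel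

theorem k02_21 : allFrom (Fast.checkOne W cert) 8 680 = true := by decide +kernel

theorem k02_22 : allFrom (Fast.checkOne W cert) 8 688 = true := by decide +kernel

theorem k02_23 : allFrom (Fast.checkOne W cert) 8 696 = true := by decide +kernel

theorem k02_24 : allFrom (Fast.checkOne W cert) 8 704 = true := by decide +kernel

theorem k02_25 : allFrom (Fast.checkOne W cert) 8 712 = true := by decide +kernel

theorem k02_26 : allFrom (Fast.checkOne W cert) 8 720 = true := by decide +kernel

theorem k02_27 : allFrom (Fast.checkOne W cert) 8 728 = true := by decide +kernel

theorem k02_28 : allFrom (Fast.checkOne W cert) 8 736 = true := by decide +kernel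

theorem k02_29 : allFrom (Fast.checkOne W cert) 8 744 = true := by decide +kernel

theorem k02_30 : allFrom (Fast.checkOne W cert) 8 752 = true := by decide +kernel

theorem k02_31 : allFrom (Fast.checkOne W cert) 8 760 = true := by decide +kernel

end Pool.Agent.H63.PU.C161
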