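import Pool.Agent.H63.PU.C161.Cert
import Pool.Agent.H63.PU.Fast

namespace Pool.Agent.H63.PU.C161

open Pool.Agent.H63.PU Pool.Agent.H63.PU.Short

set_option maxRecDepth 20000

theorem k03_0 : allFrom (Fast.checkOne W cert) 8 768 = true := by decide +kernel

theorem k03_1 : allFrom (Fast.checkOne W cert) 8 776 = true := by decide +kernel

theorem k03_2 : allFrom (Fast.checkOne W cert) 8 784 = true := by decide +kernel

theorem k03_3 : allFrom (Fast.checkOne W cert) 8 792 = true := by decide +kernel

theorem k03_4 : allFrom (Fast.checkOne W cert) 8 800 = true := by decide +kernel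

theorem k03_5 : allFrom (Fast.checkOne W cert) 8 808 = true := by decide +kernel

theorem k03_6 : allFrom (Fast.checkOne W cert) 8 816 = true := by decide +kernel

theorem k03_7 : allFrom (Fast.checkOne W cert) 8 824 = true := by decide +kernel

theorem k03_8 : allFrom (Fast.checkOne W cert) 8 832 = true := by decide +kernel

theorem k03_9 : allFrom (Fast.checkOne W cert) 8 840 = true := by decide +kernel

theorem k03_10 : allFrom (Fast.checkOne W cert) 8 848 = true := by decide +kernel

theorem k03_11 : allFrom (Fast.checkOne W cert) 8 856 = true := by decide +kernel

theorem k03_12 : allFrom (Fast.checkOne W cert) 8 864 = true := by decide +kernel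

theorem k03_13 : allFrom (Fast.checkOne W cert) 8 872 = true := by decide +kernel

theorem k03_14 : allFrom (Fast.checkOne W cert) 8 880 = true := by decide +kernel

theorem k03_15 : allFrom (Fast.checkOne W cert) 8 888 = true := by decide +kernel

theorem k03_16 : allFrom (Fast.checkOne W cert) 8 896 = true := by decide +kernel

theorem k03_17 : allFrom (Fast.checkOne W cert) 8 904 = true := by decide +kernel

theorem k03_18 : allFrom (Fast.checkOne W cert) 8 912 = true := by decide +kernel

theorem k03_19 : allFrom (Fast.checkOne W cert) 8 920 = true := by decide +kernel

theorem k03_20 : allFrom (Fast.checkOne W cert) 8 928 = true := by decide +kernel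

theorem k03_21 : allFrom (Fast.checkOne W cert) 8 936 = true := by decide +kernel

theorem k03_22 : allFrom (Fast.checkOne W cert) 8 944 = true := by decide +kernel

theorem k03_23 : allFrom (Fast.checkOne W cert) 8 952 = true := by decide +kernel

theorem k03_24 : allFrom (Fast.checkOne W cert) 8 960 = true := by decide +kernel

theorem k03_25 : allFrom (Fast.checkOne W cert) 8 968 = true := by decide +kernel

theorem k03_26 : allFrom (Fast.checkOne W cert) 8 976 = true := by decide +kernel

theorem k03_27 : allFrom (Fast.checkOne W cert) 8 984 = true := by decide +kernel

theorem k03_28 : allFrom (Fast.checkOne W cert) 8 992 = true := by decide +kernel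

theorem k03_29 : allFrom (Fast.checkOne W cert) 8 1000 = true := by decide +kernel

theorem k03_30 : allFrom (Fast.checkOne W cert) 8 1008 = true := by decide +kernel

theorem k03_31 : allFrom (Fast.checkOne W cert) 8 1016 = true := by decide +kernel

end Pool.Agent.H63.PU.C161
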