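import Pool.Agent.H63.PU.C161.Cert
import Pool.Agent.H63.PU.Fast

namespace Pool.Agent.H63.PU.C161

open Pool.Agent.H63.PU Pool.Agent.H63.PU.Short

set_option maxRecDepth 20000

theorem k04_0 : allFrom (Fast.checkOne W cert) 8 1024 = true := by decide +kernel

theorem k04_1 : allFrom (Fast.checkOne W cert) 8 1032 = true := by decide +kernel

theorem k04_2 : allFrom (Fast.checkOne W cert) 8 1040 = true := by decide +kernel

theorem k04_3 : allFrom (Fast.checkOne W cert) 8 1048 = true := by decide +kernel

theorem k04_4 : allFrom (Fast.checkOne W cert) 8 1056 = true := by decide +kernel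

theorem k04_5 : allFrom (Fast.checkOne W cert) 8 1064 = true := by decide +kernel

theorem k04_6 : allFrom (Fast.checkOne W cert) 8 1072 = true := by decide +kernel

theorem k04_7 : allFrom (Fast.checkOne W cert) 8 1080 = true := by decide +kernel

theorem k04_8 : allFrom (Fast.checkOne W cert) 8 1088 = true := by decide +kernel

theorem k04_9 : allFrom (Fast.checkOne W cert) 8 1096 = true := by decide +kernel

theorem k04_10 : allFrom (Fast.checkOne W cert) 8 1104 = true := by decide +kernel

theorem k04_11 : allFrom (Fast.checkOne W cert) 8 1112 = true := by decide +kernel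

theorem k04_12 : allFrom (Fast.checkOne W cert) 8 1120 = true := by decide +kernel

theorem k04_13 : allFrom (Fast.checkOne W cert) 8 1128 = true := by decide +kernel

theorem k04_14 : allFrom (Fast.checkOne W cert) 8 1136 = true := by decide +kernel

theorem k04_15 : allFrom (Fast.checkOne W cert) 8 1144 = true := by decide +kernel

theorem k04_16 : allFrom (Fast.checkOne W cert) 8 1152 = true := by decide +kernel

theorem k04_17 : allFrom (Fast.checkOne W cert) 8 1160 = true := by decide +kernel

theorem k04_18 : allFrom (Fast.checkOne W cert) 8 1168 = true := by decide +kernel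

theorem k04_19 : allFrom (Fast.checkOne W cert) 8 1176 = true := by decide +kernel

theorem k04_20 : allFrom (Fast.checkOne W cert) 8 1184 = true := by decide +kernel

theorem k04_21 : allFrom (Fast.checkOne W cert) 8 1192 = true := by decide +kernel

theorem k04_22 : allFrom (Fast.checkOne W cert) 8 1200 = true := by decide +kernel

theorem k04_23 : allFrom (Fast.checkOne W cert) 8 1208 = true := by decide +kernel

theorem k04_24 : allFrom (Fast.checkOne W cert) 8 1216 = true := by decide +kernel

theorem k04_25 : allFrom (Fast.checkOne W cert) 8 1224 = true := by decide +kernel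

theorem k04_26 : allFrom (Fast.checkOne W cert) 8 1232 = true := by decide +kernel

theorem k04_27 : allFrom (Fast.checkOne W cert) 8 1240 = true := by decide +kernel

theorem k04_28 : allFrom (Fast.checkOne W cert) 8 1248 = true := by decide +kernel

theorem k04_29 : allFrom (Fast.checkOne W cert) 8 1256 = true := by decide +kernel

theorem k04_30 : allFrom (Fast.checkOne W cert) 8 1264 = true := by decide +kernel

theorem k04_31 : allFrom (Fast.checkOne W cert) 8 1272 = true := by decide +kernel

end Pool.Agent.H63.PU.C161
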