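import Pool.Agent.H63.PU.C161.Cert
import Pool.Agent.H63.PU.Fast

namespace Pool.Agent.H63.PU.C161

open Pool.Agent.H63.PU Pool.Agent.H63.PU.Short

set_option maxRecDepth 20000

theorem k05_0 : allFrom (Fast.checkOne W cert) 8 1280 = true := by decide +kernel

theorem k05_1 : allFrom (Fast.checkOne W cert) 8 1288 = true := by decide +kernel

theorem k05_2 : allFrom (Fast.checkOne W cert) 8 1296 = true := by decide +kernel

theorem k05_3 : allFrom (Fast.checkOne W cert) 8 1304 = true := by decide +kernel

theorem k05_4 : allFrom (Fast.checkOne W cert) 8 1312 = true := by decide +kernel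

theorem k05_5 : allFrom (Fast.checkOne W cert) 8 1320 = true := by decide +kernel

theorem k05_6 : allFrom (Fast.checkOne W cert) 8 1328 = true := by decide +kernel

theorem k05_7 : allFrom (Fast.checkOne W cert) 8 1336 = true := by decide +kernel

theorem k05_8 : allFrom (Fast.checkOne W cert) 8 1344 = true := by decide +kernel

theorem k05_9 : allFrom (Fast.checkOne W cert) 8 1352 = true := by decide +kernel

theorem k05_10 : allFrom (Fast.checkOne W cert) 8 1360 = true := by decide +kernel

theorem k05_11 : allFrom (Fast.checkOne W cert) 8 1368 = true := by decide +kernel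

theorem k05_12 : allFrom (Fast.checkOne W cert) 8 1376 = true := by decide +kernel

theorem k05_13 : allFrom (Fast.checkOne W cert) 8 1384 = true := by decide +kernel

theorem k05_14 : allFrom (Fast.checkOne W cert) 8 1392 = true := by decide +kernel

theorem k05_15 : allFrom (Fast.checkOne W cert) 8 1400 = true := by decide +kernel

theorem k05_16 : allFrom (Fast.checkOne W cert) 8 1408 = true := by decide +kernel

theorem k05_17 : allFrom (Fast.checkOne W cert) 8 1416 = true := by decide +kernel

theorem k05_18 : allFrom (Fast.checkOne W cert) 8 1424 = true := by decide +kernel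

theorem k05_19 : allFrom (Fast.checkOne W cert) 8 1432 = true := by decide +kernel

theorem k05_20 : allFrom (Fast.checkOne W cert) 8 1440 = true := by decide +kernel

theorem k05_21 : allFrom (Fast.checkOne W cert) 8 1448 = true := by decide +kernel

theorem k05_22 : allFrom (Fast.checkOne W cert) 8 1456 = true := by decide +kernel

theorem k05_23 : allFrom (Fast.checkOne W cert) 8 1464 = true := by decide +kernel

theorem k05_24 : allFrom (Fast.checkOne W cert) 8 1472 = true := by decide +kernel

theorem k05_25 : allFrom (Fast.checkOne W cert) 8 1480 = true := by decide +kernel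

theorem k05_26 : allFrom (Fast.checkOne W cert) 8 1488 = true := by decide +kernel

theorem k05_27 : allFrom (Fast.checkOne W cert) 8 1496 = true := by decide +kernel

theorem k05_28 : allFrom (Fast.checkOne W cert) 8 1504 = true := by decide +kernel

theorem k05_29 : allFrom (Fast.checkOne W cert) 8 1512 = true := by decide +kernel

theorem k05_30 : allFrom (Fast.checkOne W cert) 8 1520 = true := by decide +kernel

theorem k05_31 : allFrom (Fast.checkOne W cert) 8 1528 = true := by decide +kernel

end Pool.Agent.H63.PU.C161
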