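import Pool.Agent.H63.PU.C161.Cert
import Pool.Agent.H63.PU.Fast

namespace Pool.Agent.H63.PU.C161

open Pool.Agent.H63.PU Pool.Agent.H63.PU.Short

set_option maxRecDepth 20000

theorem k06_0 : allFrom (Fast.checkOne W cert) 8 1536 = true := by decide +kernel

theorem k06_1 : allFrom (Fast.checkOne W cert) 8 1544 = true := by decide +kernel

theorem k06_2 : allFrom (Fast.checkOne W cert) 8 1552 = true := by decide +kernel

theorem k06_3 : allFrom (Fast.checkOne W cert) 8 1560 = true := by decide +kernel

theorem k06_4 : allFrom (Fast.checkOne W cert) 8 1568 = true := by decide +kernel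

theorem k06_5 : allFrom (Fast.checkOne W cert) 8 1576 = true := by decide +kernel

theorem k06_6 : allFrom (Fast.checkOne W cert) 8 1584 = true := by decide +kernel

theorem k06_7 : allFrom (Fast.checkOne W cert) 8 1592 = true := by decide +kernel

theorem k06_8 : allFrom (Fast.checkOne W cert) 8 1600 = true := by decide +kernel

theorem k06_9 : allFrom (Fast.checkOne W cert) 8 1608 = true := by decide +kernel

theorem k06_10 : allFrom (Fast.checkOne W cert) 8 1616 = true := by decide +kernel

theorem k06_11 : allFrom (Fast.checkOne W cert) 8 1624 = true := by decide +kernel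

theorem k06_12 : allFrom (Fast.checkOne W cert) 8 1632 = true := by decide +kernel

theorem k06_13 : allFrom (Fast.checkOne W cert) 8 1640 = true := by decide +kernel

theorem k06_14 : allFrom (Fast.checkOne W cert) 8 1648 = true := by decide +kernel

theorem k06_15 : allFrom (Fast.checkOne W cert) 8 1656 = true := by decide +kernel

theorem k06_16 : allFrom (Fast.checkOne W cert) 8 1664 = true := by decide +kernel

theorem k06_17 : allFrom (Fast.checkOne W cert) 8 1672 = true := by decide +kernel

theorem k06_18 : allFrom (Fast.checkOne W cert) 8 1680 = true := by decide +kernel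

theorem k06_19 : allFrom (Fast.checkOne W cert) 8 1688 = true := by decide +kernel

theorem k06_20 : allFrom (Fast.checkOne W cert) 8 1696 = true := by decide +kernel

theorem k06_21 : allFrom (Fast.checkOne W cert) 8 1704 = true := by decide +kernel

theorem k06_22 : allFrom (Fast.checkOne W cert) 8 1712 = true := by decide +kernel

theorem k06_23 : allFrom (Fast.checkOne W cert) 8 1720 = true := by decide +kernel

theorem k06_24 : allFrom (Fast.checkOne W cert) 8 1728 = true := by decide +kernel

theorem k06_25 : allFrom (Fast.checkOne W cert) 8 1736 = true := by decide +kernel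

theorem k06_26 : allFrom (Fast.checkOne W cert) 8 1744 = true := by decide +kernel

theorem k06_27 : allFrom (Fast.checkOne W cert) 8 1752 = true := by decide +kernel

theorem k06_28 : allFrom (Fast.checkOne W cert) 8 1760 = true := by decide +kernel

theorem k06_29 : allFrom (Fast.checkOne W cert) 8 1768 = true := by decide +kernel

theorem k06_30 : allFrom (Fast.checkOne W cert) 8 1776 = true := by decide +kernel

theorem k06_31 : allFrom (Fast.checkOne W cert) 8 1784 = true := by decide +kernel

end Pool.Agent.H63.PU.C161
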