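import Pool.Agent.H63.PU.C161.Cert
import Pool.Agent.H63.PU.Fast

namespace Pool.Agent.H63.PU.C161

open Pool.Agent.H63.PU Pool.Agent.H63.PU.Short

set_option maxRecDepth 20000

theorem k07_0 : allFrom (Fast.checkOne W cert) 8 1792 = true := by decide +kernel

theorem k07_1 : allFrom (Fast.checkOne W cert) 8 1800 = true := by decide +kernel

theorem k07_2 : allFrom (Fast.checkOne W cert) 8 1808 = true := by decide +kernel

theorem k07_3 : allFrom (Fast.checkOne W cert) 8 1816 = true := by decide +kernel

theorem k07_4 : allFrom (Fast.checkOne W cert) 8 1824 = true := by decide +kernel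

theorem k07_5 : allFrom (Fast.checkOne W cert) 8 1832 = true := by decide +kernel

theorem k07_6 : allFrom (Fast.checkOne W cert) 8 1840 = true := by decide +kernel

theorem k07_7 : allFrom (Fast.checkOne W cert) 8 1848 = true := by decide +kernel

theorem k07_8 : allFrom (Fast.checkOne W cert) 8 1856 = true := by decide +kernel

theorem k07_9 : allFrom (Fast.checkOne W cert) 8 1864 = true := by decide +kernel

theorem k07_10 : allFrom (Fast.checkOne W cert) 8 1872 = true := by decide +kernel

theorem k07_11 : allFrom (Fast.checkOne W cert) 8 1880 = true := by decide +kernel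

theorem k07_12 : allFrom (Fast.checkOne W cert) 8 1888 = true := by decide +kernel

theorem k07_13 : allFrom (Fast.checkOne W cert) 8 1896 = true := by decide +kernel

theorem k07_14 : allFrom (Fast.checkOne W cert) 8 1904 = true := by decide +kernel

theorem k07_15 : allFrom (Fast.checkOne W cert) 8 1912 = true := by decide +kernel

theorem k07_16 : allFrom (Fast.checkOne W cert) 8 1920 = true := by decide +kernel

theorem k07_17 : allFrom (Fast.checkOne W cert) 8 1928 = true := by decide +kernel

theorem k07_18 : allFrom (Fast.checkOne W cert) 8 1936 = true := by decide +kernel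

theorem k07_19 : allFrom (Fast.checkOne W cert) 8 1944 = true := by decide +kernel

theorem k07_20 : allFrom (Fast.checkOne W cert) 8 1952 = true := by decide +kernel

theorem k07_21 : allFrom (Fast.checkOne W cert) 8 1960 = true := by decide +kernel

theorem k07_22 : allFrom (Fast.checkOne W cert) 8 1968 = true := by decide +kernel

theorem k07_23 : allFrom (Fast.checkOne W cert) 8 1976 = true := by decide +kernel

theorem k07_24 : allFrom (Fast.checkOne W cert) 8 1984 = true := by decide +kernel

theorem k07_25 : allFrom (Fast.checkOne W cert) 8 1992 = true := by decide +kernel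

theorem k07_26 : allFrom (Fast.checkOne W cert) 8 2000 = true := by decide +kernel

theorem k07_27 : allFrom (Fast.checkOne W cert) 8 2008 = true := by decide +kernel

theorem k07_28 : allFrom (Fast.checkOne W cert) 8 2016 = true := by decide +kernel

theorem k07_29 : allFrom (Fast.checkOne W cert) 8 2024 = true := by decide +kernel

theorem k07_30 : allFrom (Fast.checkOne W cert) 8 2032 = true := by decide +kernel

theorem k07_31 : allFrom (Fast.checkOne W cert) 8 2040 = true := by decide +kernel

end Pool.Agent.H63.PU.C161
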