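import Pool.Agent.H63.PU.C161.Cert
import Pool.Agent.H63.PU.Fast

namespace Pool.Agent.H63.PU.C161

open Pool.Agent.H63.PU Pool.Agent.H63.PU.Short

set_option maxRecDepth 20000

theorem k08_0 : allFrom (Fast.checkOne W cert) 8 2048 = true := by decide +kernel

theorem k08_1 : allFrom (Fast.checkOne W cert) 8 2056 = true := by decide +kernel

theorem k08_2 : allFrom (Fast.checkOne W cert) 8 2064 = true := by decide +kernel

theorem k08_3 : allFrom (Fast.checkOne W cert) 8 2072 = true := by decide +kernel

theorem k08_4 : allFrom (Fast.checkOne W cert) 8 2080 = true := by decide +kernel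

theorem k08_5 : allFrom (Fast.checkOne W cert) 8 2088 = true := by decide +kernel

theorem k08_6 : allFrom (Fast.checkOne W cert) 8 2096 = true := by decide +kernel

theorem k08_7 : allFrom (Fast.checkOne W cert) 8 2104 = true := by decide +kernel

theorem k08_8 : allFrom (Fast.checkOne W cert) 8 2112 = true := by decide +kernel

theorem k08_9 : allFrom (Fast.checkOne W cert) 8 2120 = true := by decide +kernel

theorem k08_10 : allFrom (Fast.checkOne W cert) 8 2128 = true := by decide +kernel

theorem k08_11 : allFrom (Fast.checkOne W cert) 8 2136 = true := by decide +kernel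

theorem k08_12 : allFrom (Fast.checkOne W cert) 8 2144 = true := by decide +kernel

theorem k08_13 : allFrom (Fast.checkOne W cert) 8 2152 = true := by decide +kernel

theorem k08_14 : allFrom (Fast.checkOne W cert) 8 2160 = true := by decide +kernel

theorem k08_15 : allFrom (Fast.checkOne W cert) 8 2168 = true := by decide +kernel

theorem k08_16 : allFrom (Fast.checkOne W cert) 8 2176 = true := by decide +kernel

theorem k08_17 : allFrom (Fast.checkOne W cert) 8 2184 = true := by decide +kernel

theorem k08_18 : allFrom (Fast.checkOne W cert) 8 2192 = true := by decide +kernel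

theorem k08_19 : allFrom (Fast.checkOne W cert) 8 2200 = true := by decide +kernel

theorem k08_20 : allFrom (Fast.checkOne W cert) 8 2208 = true := by decide +kernel

theorem k08_21 : allFrom (Fast.checkOne W cert) 8 2216 = true := by decide +kernel

theorem k08_22 : allFrom (Fast.checkOne W cert) 8 2224 = true := by decide +kernel

theorem k08_23 : allFrom (Fast.checkOne W cert) 8 2232 = true := by decide +kernel

theorem k08_24 : allFrom (Fast.checkOne W cert) 8 2240 = true := by decide +kernel

theorem k08_25 : allFrom (Fast.checkOne W cert) 8 2248 = true := by decide +kernel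

theorem k08_26 : allFrom (Fast.checkOne W cert) 8 2256 = true := by decide +kernel

theorem k08_27 : allFrom (Fast.checkOne W cert) 8 2264 = true := by decide +kernel

theorem k08_28 : allFrom (Fast.checkOne W cert) 8 2272 = true := by decide +kernel

theorem k08_29 : allFrom (Fast.checkOne W cert) 8 2280 = true := by decide +kernel

theorem k08_30 : allFrom (Fast.checkOne W cert) 8 2288 = true := by decide +kernel

theorem k08_31 : allFrom (Fast.checkOne W cert) 8 2296 = true := by decide +kernel

end Pool.Agent.H63.PU.C161
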