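import Pool.Agent.H63.PU.C161.Cert
import Pool.Agent.H63.PU.Fast

namespace Pool.Agent.H63.PU.C161

open Pool.Agent.H63.PU Pool.Agent.H63.PU.Short

set_option maxRecDepth 20000

theorem k09_0 : allFrom (Fast.checkOne W cert) 8 2304 = true := by decide +kernel

theorem k09_1 : allFrom (Fast.checkOne W cert) 8 2312 = true := by decide +kernel

theorem k09_2 : allFrom (Fast.checkOne W cert) 8 2320 = true := by decide +kernel

theorem k09_3 : allFrom (Fast.checkOne W cert) 8 2328 = true := by decide +kernel

theorem k09_4 : allFrom (Fast.checkOne W cert) 8 2336 = true := by decide +kernel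

theorem k09_5 : allFrom (Fast.checkOne W cert) 8 2344 = true := by decide +kernel

theorem k09_6 : allFrom (Fast.checkOne W cert) 8 2352 = true := by decide +kernel

theorem k09_7 : allFrom (Fast.checkOne W cert) 8 2360 = true := by decide +kernel

theorem k09_8 : allFrom (Fast.checkOne W cert) 8 2368 = true := by decide +kernel

theorem k09_9 : allFrom (Fast.checkOne W cert) 8 2376 = true := by decide +kernel

theorem k09_10 : allFrom (Fast.checkOne W cert) 8 2384 = true := by decide +kernel

theorem k09_11 : allFrom (Fast.checkOne W cert) 8 2392 = true := by decide +kernel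

theorem k09_12 : allFrom (Fast.checkOne W cert) 8 2400 = true := by decide +kernel

theorem k09_13 : allFrom (Fast.checkOne W cert) 8 2408 = true := by decide +kernel

theorem k09_14 : allFrom (Fast.checkOne W cert) 8 2416 = true := by decide +kernel

theorem k09_15 : allFrom (Fast.checkOne W cert) 8 2424 = true := by decide +kernel

theorem k09_16 : allFrom (Fast.checkOne W cert) 8 2432 = true := by decide +kernel

theorem k09_17 : allFrom (Fast.checkOne W cert) 8 2440 = true := by decide +kernel

theorem k09_18 : allFrom (Fast.checkOne W cert) 8 2448 = true := by decide +kernel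

theorem k09_19 : allFrom (Fast.checkOne W cert) 8 2456 = true := by decide +kernel

theorem k09_20 : allFrom (Fast.checkOne W cert) 8 2464 = true := by decide +kernel

theorem k09_21 : allFrom (Fast.checkOne W cert) 8 2472 = true := by decide +kernel

theorem k09_22 : allFrom (Fast.checkOne W cert) 8 2480 = true := by decide +kernel

theorem k09_23 : allFrom (Fast.checkOne W cert) 8 2488 = true := by decide +kernel

theorem k09_24 : allFrom (Fast.checkOne W cert) 8 2496 = true := by decide +kernel

theorem k09_25 : allFrom (Fast.checkOne W cert) 8 2504 = true := by decide +kernel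

theorem k09_26 : allFrom (Fast.checkOne W cert) 8 2512 = true := by decide +kernel

theorem k09_27 : allFrom (Fast.checkOne W cert) 8 2520 = true := by decide +kernel

theorem k09_28 : allFrom (Fast.checkOne W cert) 8 2528 = true := by decide +kernel

theorem k09_29 : allFrom (Fast.checkOne W cert) 8 2536 = true := by decide +kernel

theorem k09_30 : allFrom (Fast.checkOne W cert) 8 2544 = true := by decide +kernel

theorem k09_31 : allFrom (Fast.checkOne W cert) 8 2552 = true := by decide +kernel

end Pool.Agent.H63.PU.C161
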