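import Pool.Agent.H63.PU.C161.Cert
import Pool.Agent.H63.PU.Fast

namespace Pool.Agent.H63.PU.C161

open Pool.Agent.H63.PU Pool.Agent.H63.PU.Short

set_option maxRecDepth 20000

theorem k10_0 : allFrom (Fast.checkOne W cert) 8 2560 = true := by decide +kernel

theorem k10_1 : allFrom (Fast.checkOne W cert) 8 2568 = true := by decide +kernel

theorem k10_2 : allFrom (Fast.checkOne W cert) 8 2576 = true := by decide +kernel

theorem k10_3 : allFrom (Fast.checkOne W cert) 8 2584 = true := by decide +kernel

theorem k10_4 : allFrom (Fast.checkOne W cert) 8 2592 = true := by decide +kernel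

theorem k10_5 : allFrom (Fast.checkOne W cert) 8 2600 = true := by decide +kernel

theorem k10_6 : allFrom (Fast.checkOne W cert) 8 2608 = true := by decide +kernel

theorem k10_7 : allFrom (Fast.checkOne W cert) 8 2616 = true := by decide +kernel

theorem k10_8 : allFrom (Fast.checkOne W cert) 8 2624 = true := by decide +kernel

theorem k10_9 : allFrom (Fast.checkOne W cert) 8 2632 = true := by decide +kernel

theorem k10_10 : allFrom (Fast.checkOne W cert) 8 2640 = true := by decide +kernel

theorem k10_11 : allFrom (Fast.checkOne W cert) 8 2648 = true := by decide +kernel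

theorem k10_12 : allFrom (Fast.checkOne W cert) 8 2656 = true := by decide +kernel

theorem k10_13 : allFrom (Fast.checkOne W cert) 8 2664 = true := by decide +kernel

theorem k10_14 : allFrom (Fast.checkOne W cert) 8 2672 = true := by decide +kernel

theorem k10_15 : allFrom (Fast.checkOne W cert) 8 2680 = true := by decide +kernel

theorem k10_16 : allFrom (Fast.checkOne W cert) 8 2688 = true := by decide +kernel

theorem k10_17 : allFrom (Fast.checkOne W cert) 8 2696 = true := by decide +kernel

theorem k10_18 : allFrom (Fast.checkOne W cert) 8 2704 = true := by decide +kernel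

theorem k10_19 : allFrom (Fast.checkOne W cert) 8 2712 = true := by decide +kernel

theorem k10_20 : allFrom (Fast.checkOne W cert) 8 2720 = true := by decide +kernel

theorem k10_21 : allFrom (Fast.checkOne W cert) 8 2728 = true := by decide +kernel

theorem k10_22 : allFrom (Fast.checkOne W cert) 8 2736 = true := by decide +kernel

theorem k10_23 : allFrom (Fast.checkOne W cert) 8 2744 = true := by decide +kernel

theorem k10_24 : allFrom (Fast.checkOne W cert) 8 2752 = true := by decide +kernel

theorem k10_25 : allFrom (Fast.checkOne W cert) 8 2760 = true := by decide +kernel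

theorem k10_26 : allFrom (Fast.checkOne W cert) 8 2768 = true := by decide +kernel

theorem k10_27 : allFrom (Fast.checkOne W cert) 8 2776 = true := by decide +kernel

theorem k10_28 : allFrom (Fast.checkOne W cert) 8 2784 = true := by decide +kernel

theorem k10_29 : allFrom (Fast.checkOne W cert) 8 2792 = true := by decide +kernel

theorem k10_30 : allFrom (Fast.checkOne W cert) 8 2800 = true := by decide +kernel

theorem k10_31 : allFrom (Fast.checkOne W cert) 8 2808 = true := by decide +kernel

end Pool.Agent.H63.PU.C161
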