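import Pool.Agent.H63.PU.C161.Cert
import Pool.Agent.H63.PU.Fast

namespace Pool.Agent.H63.PU.C161

open Pool.Agent.H63.PU Pool.Agent.H63.PU.Short

set_option maxRecDepth 20000

theorem k11_0 : allFrom (Fast.checkOne W cert) 8 2816 = true := by decide +kernel

theorem k11_1 : allFrom (Fast.checkOne W cert) 8 2824 = true := by decide +kernel

theorem k11_2 : allFrom (Fast.checkOne W cert) 8 2832 = true := by decide +kernel

theorem k11_3 : allFrom (Fast.checkOne W cert) 8 2840 = true := by decide +kernel

theorem k11_4 : allFrom (Fast.checkOne W cert) 8 2848 = true := by decide +kernel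

theorem k11_5 : allFrom (Fast.checkOne W cert) 8 2856 = true := by decide +kernel

theorem k11_6 : allFrom (Fast.checkOne W cert) 8 2864 = true := by decide +kernel

theorem k11_7 : allFrom (Fast.checkOne W cert) 8 2872 = true := by decide +kernel

theorem k11_8 : allFrom (Fast.checkOne W cert) 8 2880 = true := by decide +kernel

theorem k11_9 : allFrom (Fast.checkOne W cert) 8 2888 = true := by decide +kernel

theorem k11_10 : allFrom (Fast.checkOne W cert) 8 2896 = true := by decide +kernel

theorem k11_11 : allFrom (Fast.checkOne W cert) 8 2904 = true := by decide +kernel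

theorem k11_12 : allFrom (Fast.checkOne W cert) 8 2912 = true := by decide +kernel

theorem k11_13 : allFrom (Fast.checkOne W cert) 8 2920 = true := by decide +kernel

theorem k11_14 : allFrom (Fast.checkOne W cert) 8 2928 = true := by decide +kernel

theorem k11_15 : allFrom (Fast.checkOne W cert) 8 2936 = true := by decide +kernel

theorem k11_16 : allFrom (Fast.checkOne W cert) 8 2944 = true := by decide +kernel

theorem k11_17 : allFrom (Fast.checkOne W cert) 8 2952 = true := by decide +kernel

theorem k11_18 : allFrom (Fast.checkOne W cert) 8 2960 = true := by decide +kernel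

theorem k11_19 : allFrom (Fast.checkOne W cert) 8 2968 = true := by decide +kernel

theorem k11_20 : allFrom (Fast.checkOne W cert) 8 2976 = true := by decide +kernel

theorem k11_21 : allFrom (Fast.checkOne W cert) 8 2984 = true := by decide +kernel

theorem k11_22 : allFrom (Fast.checkOne W cert) 8 2992 = true := by decide +kernel

theorem k11_23 : allFrom (Fast.checkOne W cert) 8 3000 = true := by decide +kernel

theorem k11_24 : allFrom (Fast.checkOne W cert) 8 3008 = true := by decide +kernel

theorem k11_25 : allFrom (Fast.checkOne W cert) 8 3016 = true := by decide +kernel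

theorem k11_26 : allFrom (Fast.checkOne W cert) 8 3024 = true := by decide +kernel

theorem k11_27 : allFrom (Fast.checkOne W cert) 8 3032 = true := by decide +kernel

theorem k11_28 : allFrom (Fast.checkOne W cert) 8 3040 = true := by decide +kernel

theorem k11_29 : allFrom (Fast.checkOne W cert) 8 3048 = true := by decide +kernel

theorem k11_30 : allFrom (Fast.checkOne W cert) 8 3056 = true := by decide +kernel

theorem k11_31 : allFrom (Fast.checkOne W cert) 8 3064 = true := by decide +kernel

end Pool.Agent.H63.PU.C161
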