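import Pool.Agent.H63.PU.C161.Cert
import Pool.Agent.H63.PU.Fast

namespace Pool.Agent.H63.PU.C161

open Pool.Agent.H63.PU Pool.Agent.H63.PU.Short

set_option maxRecDepth 20000

theorem k12_0 : allFrom (Fast.checkOne W cert) 8 3072 = true := by decide +kernel

theorem k12_1 : allFrom (Fast.checkOne W cert) 8 3080 = true := by decide +kernel

theorem k12_2 : allFrom (Fast.checkOne W cert) 8 3088 = true := by decide +kernel

theorem k12_3 : allFrom (Fast.checkOne W cert) 8 3096 = true := by decide +kernel

theorem k12_4 : allFrom (Fast.checkOne W cert) 8 3104 = true := by decide +kernel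

theorem k12_5 : allFrom (Fast.checkOne W cert) 8 3112 = true := by decide +kernel

theorem k12_6 : allFrom (Fast.checkOne W cert) 8 3120 = true := by decide +kernel

theorem k12_7 : allFrom (Fast.checkOne W cert) 8 3128 = true := by decide +kernel

theorem k12_8 : allFrom (Fast.checkOne W cert) 8 3136 = true := by decide +kernel

theorem k12_9 : allFrom (Fast.checkOne W cert) 8 3144 = true := by decide +kernel

theorem k12_10 : allFrom (Fast.checkOne W cert) 8 3152 = true := by decide +kernel

theorem k12_11 : allFrom (Fast.checkOne W cert) 8 3160 = true := by decide +kernel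

theorem k12_12 : allFrom (Fast.checkOne W cert) 8 3168 = true := by decide +kernel

theorem k12_13 : allFrom (Fast.checkOne W cert) 8 3176 = true := by decide +kernel

theorem k12_14 : allFrom (Fast.checkOne W cert) 8 3184 = true := by decide +kernel

theorem k12_15 : allFrom (Fast.checkOne W cert) 8 3192 = true := by decide +kernel

theorem k12_16 : allFrom (Fast.checkOne W cert) 8 3200 = true := by decide +kernel

theorem k12_17 : allFrom (Fast.checkOne W cert) 8 3208 = true := by decide +kernel

theorem k12_18 : allFrom (Fast.checkOne W cert) 8 3216 = true := by decide +kernel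

theorem k12_19 : allFrom (Fast.checkOne W cert) 8 3224 = true := by decide +kernel

theorem k12_20 : allFrom (Fast.checkOne W cert) 8 3232 = true := by decide +kernel

theorem k12_21 : allFrom (Fast.checkOne W cert) 8 3240 = true := by decide +kernel

theorem k12_22 : allFrom (Fast.checkOne W cert) 8 3248 = true := by decide +kernel

theorem k12_23 : allFrom (Fast.checkOne W cert) 8 3256 = true := by decide +kernel

theorem k12_24 : allFrom (Fast.checkOne W cert) 8 3264 = true := by decide +kernel

theorem k12_25 : allFrom (Fast.checkOne W cert) 8 3272 = true := by decide +kernel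

theorem k12_26 : allFrom (Fast.checkOne W cert) 8 3280 = true := by decide +kernel

theorem k12_27 : allFrom (Fast.checkOne W cert) 8 3288 = true := by decide +kernel

theorem k12_28 : allFrom (Fast.checkOne W cert) 8 3296 = true := by decide +kernel

theorem k12_29 : allFrom (Fast.checkOne W cert) 8 3304 = true := by decide +kernel

theorem k12_30 : allFrom (Fast.checkOne W cert) 8 3312 = true := by decide +kernel

theorem k12_31 : allFrom (Fast.checkOne W cert) 8 3320 = true := by decide +kernel

end Pool.Agent.H63.PU.C161
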