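import Pool.Agent.H63.PU.C161.Cert
import Pool.Agent.H63.PU.Fast

namespace Pool.Agent.H63.PU.C161

open Pool.Agent.H63.PU Pool.Agent.H63.PU.Short

set_option maxRecDepth 20000

theorem k13_0 : allFrom (Fast.checkOne W cert) 8 3328 = true := by decide +kernel

theorem k13_1 : allFrom (Fast.checkOne W cert) 8 3336 = true := by decide +kernel

theorem k13_2 : allFrom (Fast.checkOne W cert) 8 3344 = true := by decide +kernel

theorem k13_3 : allFrom (Fast.checkOne W cert) 8 3352 = true := by decide +kernel

theorem k13_4 : allFrom (Fast.checkOne W cert) 8 3360 = true := by decide +kernel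

theorem k13_5 : allFrom (Fast.checkOne W cert) 8 3368 = true := by decide +kernel

theorem k13_6 : allFrom (Fast.checkOne W cert) 8 3376 = true := by decide +kernel

theorem k13_7 : allFrom (Fast.checkOne W cert) 8 3384 = true := by decide +kernel

theorem k13_8 : allFrom (Fast.checkOne W cert) 8 3392 = true := by decide +kernel

theorem k13_9 : allFrom (Fast.checkOne W cert) 8 3400 = true := by decide +kernel

theorem k13_10 : allFrom (Fast.checkOne W cert) 8 3408 = true := by decide +kernel

theorem k13_11 : allFrom (Fast.checkOne W cert) 8 3416 = true := by decide +kernel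

theorem k13_12 : allFrom (Fast.checkOne W cert) 8 3424 = true := by decide +kernel

theorem k13_13 : allFrom (Fast.checkOne W cert) 8 3432 = true := by decide +kernel

theorem k13_14 : allFrom (Fast.checkOne W cert) 8 3440 = true := by decide +kernel

theorem k13_15 : allFrom (Fast.checkOne W cert) 8 3448 = true := by decide +kernel

theorem k13_16 : allFrom (Fast.checkOne W cert) 8 3456 = true := by decide +kernel

theorem k13_17 : allFrom (Fast.checkOne W cert) 8 3464 = true := by decide +kernel

theorem k13_18 : allFrom (Fast.checkOne W cert) 8 3472 = true := by decide +kernel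

theorem k13_19 : allFrom (Fast.checkOne W cert) 8 3480 = true := by decide +kernel

theorem k13_20 : allFrom (Fast.checkOne W cert) 8 3488 = true := by decide +kernel

theorem k13_21 : allFrom (Fast.checkOne W cert) 8 3496 = true := by decide +kernel

theorem k13_22 : allFrom (Fast.checkOne W cert) 8 3504 = true := by decide +kernel

theorem k13_23 : allFrom (Fast.checkOne W cert) 8 3512 = true := by decide +kernel

theorem k13_24 : allFrom (Fast.checkOne W cert) 8 3520 = true := by decide +kernel

theorem k13_25 : allFrom (Fast.checkOne W cert) 8 3528 = true := by decide +kernel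

theorem k13_26 : allFrom (Fast.checkOne W cert) 8 3536 = true := by decide +kernel

theorem k13_27 : allFrom (Fast.checkOne W cert) 8 3544 = true := by decide +kernel

theorem k13_28 : allFrom (Fast.checkOne W cert) 8 3552 = true := by decide +kernel

theorem k13_29 : allFrom (Fast.checkOne W cert) 8 3560 = true := by decide +kernel

theorem k13_30 : allFrom (Fast.checkOne W cert) 8 3568 = true := by decide +kernel

theorem k13_31 : allFrom (Fast.checkOne W cert) 8 3576 = true := by decide +kernel

end Pool.Agent.H63.PU.C161
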