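import Pool.Agent.H63.PU.C161.Cert
import Pool.Agent.H63.PU.Fast

namespace Pool.Agent.H63.PU.C161

open Pool.Agent.H63.PU Pool.Agent.H63.PU.Short

set_option maxRecDepth 20000

theorem k14_0 : allFrom (Fast.checkOne W cert) 8 3584 = true := by decide +kernel

theorem k14_1 : allFrom (Fast.checkOne W cert) 8 3592 = true := by decide +kernel

theorem k14_2 : allFrom (Fast.checkOne W cert) 8 3600 = true := by decide +kernel

theorem k14_3 : allFrom (Fast.checkOne W cert) 8 3608 = true := by decide +kernel

theorem k14_4 : allFrom (Fast.checkOne W cert) 8 3616 = true := by decide +kernel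

theorem k14_5 : allFrom (Fast.checkOne W cert) 8 3624 = true := by decide +kernel

theorem k14_6 : allFrom (Fast.checkOne W cert) 8 3632 = true := by decide +kernel

theorem k14_7 : allFrom (Fast.checkOne W cert) 8 3640 = true := by decide +kernel

theorem k14_8 : allFrom (Fast.checkOne W cert) 8 3648 = true := by decide +kernel

theorem k14_9 : allFrom (Fast.checkOne W cert) 8 3656 = true := by decide +kernel

theorem k14_10 : allFrom (Fast.checkOne W cert) 8 3664 = true := by decide +kernel

theorem k14_11 : allFrom (Fast.checkOne W cert) 8 3672 = true := by decide +kernel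

theorem k14_12 : allFrom (Fast.checkOne W cert) 8 3680 = true := by decide +kernel

theorem k14_13 : allFrom (Fast.checkOne W cert) 8 3688 = true := by decide +kernel

theorem k14_14 : allFrom (Fast.checkOne W cert) 8 3696 = true := by decide +kernel

theorem k14_15 : allFrom (Fast.checkOne W cert) 8 3704 = true := by decide +kernel

theorem k14_16 : allFrom (Fast.checkOne W cert) 8 3712 = true := by decide +kernel

theorem k14_17 : allFrom (Fast.checkOne W cert) 8 3720 = true := by decide +kernel

theorem k14_18 : allFrom (Fast.checkOne W cert) 8 3728 = true := by decide +kernel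

theorem k14_19 : allFrom (Fast.checkOne W cert) 8 3736 = true := by decide +kernel

theorem k14_20 : allFrom (Fast.checkOne W cert) 8 3744 = true := by decide +kernel

theorem k14_21 : allFrom (Fast.checkOne W cert) 8 3752 = true := by decide +kernel

theorem k14_22 : allFrom (Fast.checkOne W cert) 8 3760 = true := by decide +kernel

theorem k14_23 : allFrom (Fast.checkOne W cert) 8 3768 = true := by decide +kernel

theorem k14_24 : allFrom (Fast.checkOne W cert) 8 3776 = true := by decide +kernel

theorem k14_25 : allFrom (Fast.checkOne W cert) 8 3784 = true := by decide +kernel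

theorem k14_26 : allFrom (Fast.checkOne W cert) 8 3792 = true := by decide +kernel

theorem k14_27 : allFrom (Fast.checkOne W cert) 8 3800 = true := by decide +kernel

theorem k14_28 : allFrom (Fast.checkOne W cert) 8 3808 = true := by decide +kernel

theorem k14_29 : allFrom (Fast.checkOne W cert) 8 3816 = true := by decide +kernel

theorem k14_30 : allFrom (Fast.checkOne W cert) 8 3824 = true := by decide +kernel

theorem k14_31 : allFrom (Fast.checkOne W cert) 8 3832 = true := by decide +kernel

end Pool.Agent.H63.PU.C161
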