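import Pool.Agent.H63.PU.C161.Cert
import Pool.Agent.H63.PU.Fast

namespace Pool.Agent.H63.PU.C161

open Pool.Agent.H63.PU Pool.Agent.H63.PU.Short

set_option maxRecDepth 20000

theorem k15_0 : allFrom (Fast.checkOne W cert) 8 3840 = true := by decide +kernel

theorem k15_1 : allFrom (Fast.checkOne W cert) 8 3848 = true := by decide +kernel

theorem k15_2 : allFrom (Fast.checkOne W cert) 8 3856 = true := by decide +kernel

theorem k15_3 : allFrom (Fast.checkOne W cert) 8 3864 = true := by decide +kernel

theorem k15_4 : allFrom (Fast.checkOne W cert) 8 3872 = true := by decide +kernel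

theorem k15_5 : allFrom (Fast.checkOne W cert) 8 3880 = true := by decide +kernel

theorem k15_6 : allFrom (Fast.checkOne W cert) 8 3888 = true := by decide +kernel

theorem k15_7 : allFrom (Fast.checkOne W cert) 8 3896 = true := by decide +kernel

theorem k15_8 : allFrom (Fast.checkOne W cert) 8 3904 = true := by decide +kernel

theorem k15_9 : allFrom (Fast.checkOne W cert) 8 3912 = true := by decide +kernel

theorem k15_10 : allFrom (Fast.checkOne W cert) 8 3920 = true := by decide +kernel

theorem k15_11 : allFrom (Fast.checkOne W cert) 8 3928 = true := by decide +kernel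

theorem k15_12 : allFrom (Fast.checkOne W cert) 8 3936 = true := by decide +kernel

theorem k15_13 : allFrom (Fast.checkOne W cert) 8 3944 = true := by decide +kernel

theorem k15_14 : allFrom (Fast.checkOne W cert) 8 3952 = true := by decide +kernel

theorem k15_15 : allFrom (Fast.checkOne W cert) 8 3960 = true := by decide +kernel

theorem k15_16 : allFrom (Fast.checkOne W cert) 8 3968 = true := by decide +kernel

theorem k15_17 : allFrom (Fast.checkOne W cert) 8 3976 = true := by decide +kernel

theorem k15_18 : allFrom (Fast.checkOne W cert) 8 3984 = true := by decide +kernel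

theorem k15_19 : allFrom (Fast.checkOne W cert) 8 3992 = true := by decide +kernel

theorem k15_20 : allFrom (Fast.checkOne W cert) 8 4000 = true := by decide +kernel

theorem k15_21 : allFrom (Fast.checkOne W cert) 8 4008 = true := by decide +kernel

theorem k15_22 : allFrom (Fast.checkOne W cert) 8 4016 = true := by decide +kernel

theorem k15_23 : allFrom (Fast.checkOne W cert) 8 4024 = true := by decide +kernel

theorem k15_24 : allFrom (Fast.checkOne W cert) 8 4032 = true := by decide +kernel

theorem k15_25 : allFrom (Fast.checkOne W cert) 8 4040 = true := by decide +kernel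

theorem k15_26 : allFrom (Fast.checkOne W cert) 8 4048 = true := by decide +kernel

theorem k15_27 : allFrom (Fast.checkOne W cert) 8 4056 = true := by decide +kernel

theorem k15_28 : allFrom (Fast.checkOne W cert) 8 4064 = true := by decide +kernel

theorem k15_29 : allFrom (Fast.checkOne W cert) 8 4072 = true := by decide +kernel

theorem k15_30 : allFrom (Fast.checkOne W cert) 8 4080 = true := by decide +kernel

theorem k15_31 : allFrom (Fast.checkOne W cert) 8 4088 = true := by decide +kernel

end Pool.Agent.H63.PU.C161
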