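import Pool.Agent.H63.PU.C161.Cert
import Pool.Agent.H63.PU.Fast

namespace Pool.Agent.H63.PU.C161

open Pool.Agent.H63.PU Pool.Agent.H63.PU.Short

set_option maxRecDepth 20000

theorem k17_0 : allFrom (Fast.checkOne W cert) 8 4352 = true := by decide +kernel

theorem k17_1 : allFrom (Fast.checkOne W cert) 8 4360 = true := by decide +kernel

theorem k17_2 : allFrom (Fast.checkOne W cert) 8 4368 = true := by decide +kernel

theorem k17_3 : allFrom (Fast.checkOne W cert) 8 4376 = true := by decide +kernel

theorem k17_4 : allFrom (Fast.checkOne W cert) 8 4384 = true := by decide +kernel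

theorem k17_5 : allFrom (Fast.checkOne W cert) 8 4392 = true := by decide +kernel

theorem k17_6 : allFrom (Fast.checkOne W cert) 8 4400 = true := by decide +kernel

theorem k17_7 : allFrom (Fast.checkOne W cert) 8 4408 = true := by decide +kernel

theorem k17_8 : allFrom (Fast.checkOne W cert) 8 4416 = true := by decide +kernel

theorem k17_9 : allFrom (Fast.checkOne W cert) 8 4424 = true := by decide +kernel

theorem k17_10 : allFrom (Fast.checkOne W cert) 8 4432 = true := by decide +kernel

theorem k17_11 : allFrom (Fast.checkOne W cert) 8 4440 = true := by decide +kernel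

theorem k17_12 : allFrom (Fast.checkOne W cert) 8 4448 = true := by decide +kernel

theorem k17_13 : allFrom (Fast.checkOne W cert) 8 4456 = true := by decide +kernel

theorem k17_14 : allFrom (Fast.checkOne W cert) 8 4464 = true := by decide +kernel

theorem k17_15 : allFrom (Fast.checkOne W cert) 8 4472 = true := by decide +kernel

theorem k17_16 : allFrom (Fast.checkOne W cert) 8 4480 = true := by decide +kernel

theorem k17_17 : allFrom (Fast.checkOne W cert) 8 4488 = true := by decide +kernel

theorem k17_18 : allFrom (Fast.checkOne W cert) 8 4496 = true := by decide +kernel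

theorem k17_19 : allFrom (Fast.checkOne W cert) 8 4504 = true := by decide +kernel

theorem k17_20 : allFrom (Fast.checkOne W cert) 8 4512 = true := by decide +kernel

theorem k17_21 : allFrom (Fast.checkOne W cert) 8 4520 = true := by decide +kernel

theorem k17_22 : allFrom (Fast.checkOne W cert) 8 4528 = true := by decide +kernel

theorem k17_23 : allFrom (Fast.checkOne W cert) 8 4536 = true := by decide +kernel

theorem k17_24 : allFrom (Fast.checkOne W cert) 8 4544 = true := by decide +kernel

theorem k17_25 : allFrom (Fast.checkOne W cert) 8 4552 = true := by decide +kernel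

theorem k17_26 : allFrom (Fast.checkOne W cert) 8 4560 = true := by decide +kernel

theorem k17_27 : allFrom (Fast.checkOne W cert) 8 4568 = true := by decide +kernel

theorem k17_28 : allFrom (Fast.checkOne W cert) 8 4576 = true := by decide +kernel

theorem k17_29 : allFrom (Fast.checkOne W cert) 8 4584 = true := by decide +kernel

theorem k17_30 : allFrom (Fast.checkOne W cert) 8 4592 = true := by decide +kernel

theorem k17_31 : allFrom (Fast.checkOne W cert) 8 4600 = true := by decide +kernel

end Pool.Agent.H63.PU.C161
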