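import Pool.Agent.H63.PU.C161.Cert
import Pool.Agent.H63.PU.Fast

namespace Pool.Agent.H63.PU.C161

open Pool.Agent.H63.PU Pool.Agent.H63.PU.Short

set_option maxRecDepth 20000

theorem k18_0 : allFrom (Fast.checkOne W cert) 8 4608 = true := by decide +kernel

theorem k18_1 : allFrom (Fast.checkOne W cert) 8 4616 = true := by decide +kernel

theorem k18_2 : allFrom (Fast.checkOne W cert) 8 4624 = true := by decide +kernel

theorem k18_3 : allFrom (Fast.checkOne W cert) 8 4632 = true := by decide +kernel

theorem k18_4 : allFrom (Fast.checkOne W cert) 8 4640 = true := by decide +kernel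

theorem k18_5 : allFrom (Fast.checkOne W cert) 8 4648 = true := by decide +kernel

theorem k18_6 : allFrom (Fast.checkOne W cert) 8 4656 = true := by decide +kernel

theorem k18_7 : allFrom (Fast.checkOne W cert) 8 4664 = true := by decide +kernel

theorem k18_8 : allFrom (Fast.checkOne W cert) 8 4672 = true := by decide +kernel

theorem k18_9 : allFrom (Fast.checkOne W cert) 8 4680 = true := by decide +kernel

theorem k18_10 : allFrom (Fast.checkOne W cert) 8 4688 = true := by decide +kernel

theorem k18_11 : allFrom (Fast.checkOne W cert) 8 4696 = true := by decide +kernel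

theorem k18_12 : allFrom (Fast.checkOne W cert) 8 4704 = true := by decide +kernel

theorem k18_13 : allFrom (Fast.checkOne W cert) 8 4712 = true := by decide +kernel

theorem k18_14 : allFrom (Fast.checkOne W cert) 8 4720 = true := by decide +kernel

theorem k18_15 : allFrom (Fast.checkOne W cert) 8 4728 = true := by decide +kernel

theorem k18_16 : allFrom (Fast.checkOne W cert) 8 4736 = true := by decide +kernel

theorem k18_17 : allFrom (Fast.checkOne W cert) 8 4744 = true := by decide +kernel

theorem k18_18 : allFrom (Fast.checkOne W cert) 8 4752 = true := by decide +kernel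

theorem k18_19 : allFrom (Fast.checkOne W cert) 8 4760 = true := by decide +kernel

theorem k18_20 : allFrom (Fast.checkOne W cert) 8 4768 = true := by decide +kernel

theorem k18_21 : allFrom (Fast.checkOne W cert) 8 4776 = true := by decide +kernel

theorem k18_22 : allFrom (Fast.checkOne W cert) 8 4784 = true := by decide +kernel

theorem k18_23 : allFrom (Fast.checkOne W cert) 8 4792 = true := by decide +kernel

theorem k18_24 : allFrom (Fast.checkOne W cert) 8 4800 = true := by decide +kernel

theorem k18_25 : allFrom (Fast.checkOne W cert) 8 4808 = true := by decide +kernel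

theorem k18_26 : allFrom (Fast.checkOne W cert) 8 4816 = true := by decide +kernel

theorem k18_27 : allFrom (Fast.checkOne W cert) 8 4824 = true := by decide +kernel

theorem k18_28 : allFrom (Fast.checkOne W cert) 8 4832 = true := by decide +kernel

theorem k18_29 : allFrom (Fast.checkOne W cert) 8 4840 = true := by decide +kernel

theorem k18_30 : allFrom (Fast.checkOne W cert) 8 4848 = true := by decide +kernel

theorem k18_31 : allFrom (Fast.checkOne W cert) 8 4856 = true := by decide +kernel

end Pool.Agent.H63.PU.C161
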