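import Pool.Agent.H63.PU.C161.Cert
import Pool.Agent.H63.PU.Fast

namespace Pool.Agent.H63.PU.C161

open Pool.Agent.H63.PU Pool.Agent.H63.PU.Short

set_option maxRecDepth 20000

theorem k19_0 : allFrom (Fast.checkOne W cert) 8 4864 = true := by decide +kernel

theorem k19_1 : allFrom (Fast.checkOne W cert) 8 4872 = true := by decide +kernel

theorem k19_2 : allFrom (Fast.checkOne W cert) 8 4880 = true := by decide +kernel

theorem k19_3 : allFrom (Fast.checkOne W cert) 8 4888 = true := by decide +kernel

theorem k19_4 : allFrom (Fast.checkOne W cert) 8 4896 = true := by decide +kernel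

theorem k19_5 : allFrom (Fast.checkOne W cert) 8 4904 = true := by decide +kernel

theorem k19_6 : allFrom (Fast.checkOne W cert) 8 4912 = true := by decide +kernel

theorem k19_7 : allFrom (Fast.checkOne W cert) 8 4920 = true := by decide +kernel

theorem k19_8 : allFrom (Fast.checkOne W cert) 8 4928 = true := by decide +kernel

theorem k19_9 : allFrom (Fast.checkOne W cert) 8 4936 = true := by decide +kernel

theorem k19_10 : allFrom (Fast.checkOne W cert) 8 4944 = true := by decide +kernel

theorem k19_11 : allFrom (Fast.checkOne W cert) 8 4952 = true := by decide +kernel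

theorem k19_12 : allFrom (Fast.checkOne W cert) 8 4960 = true := by decide +kernel

theorem k19_13 : allFrom (Fast.checkOne W cert) 8 4968 = true := by decide +kernel

theorem k19_14 : allFrom (Fast.checkOne W cert) 8 4976 = true := by decide +kernel

theorem k19_15 : allFrom (Fast.checkOne W cert) 8 4984 = true := by decide +kernel

theorem k19_16 : allFrom (Fast.checkOne W cert) 3 4992 = true := by decide +kernel

end Pool.Agent.H63.PU.C161
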