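import Pool.Agent.H63.PU.C161.K00
import Pool.Agent.H63.PU.C161.K01
import Pool.Agent.H63.PU.C161.K02
import Pool.Agent.H63.PU.C161.K03
import Pool.Agent.H63.PU.C161.K04
import Pool.Agent.H63.PU.C161.K05
import Pool.Agent.H63.PU.C161.K06
import Pool.Agent.H63.PU.C161.K07
import Pool.Agent.H63.PU.C161.K08
import Pool.Agent.H63.PU.C161.K09
import Pool.Agent.H63.PU.C161.K10
import Pool.Agent.H63.PU.C161.K11
import Pool.Agent.H63.PU.C161.K12
import Pool.Agent.H63.PU.C161.K13
import Pool.Agent.H63.PU.C161.K14
import Pool.Agent.H63.PU.C161.K15
import Pool.Agent.H63.PU.C161.K16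
import Pool.Agent.H63.PU.C161.K17
import Pool.Agent.H63.PU.C161.K18
import Pool.Agent.H63.PU.C161.K19

namespace Pool.Agent.H63.PU.C161

open Pool.Agent.H63.PU Pool.Agent.H63.PU.Short

theorem all0 : ∀ i, 0 ≤ i → i < 256 → Fast.checkOne W cert i = true := by
  intro i h0 hi
  by_cases h0 : i < 8
  · exact allFrom_spec k00_0 (by omega) h0
  by_cases h8 : i < 16
  · exact allFrom_spec k00_1 (by omega) h8
  by_cases h16 : i < 24
  · exact allFrom_spec k00_2 (by omega) h16
  by_cases h24 : i < 32
  · exact allFrom_spec k00_3 (by omega) h24
  by_cases h32 : i < 40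
  · exact allFrom_spec k00_4 (by omega) h32
  by_cases h40 : i < 48
  · exact allFrom_spec k00_5 (by omega) h40
  by_cases h48 : i < 56
  · exact allFrom_spec k00_6 (by omega) h48
  by_cases h56 : i < 64
  · exact allFrom_spec k00_7 (by omega) h56
  by_cases h64 : i < 72
  · exact allFrom_spec k00_8 (by omega) h64
  by_cases h72 : i < 80
  · exact allFrom_spec k00_9 (by omega) h72
  by_cases h80 : i < 88
  · exact allFrom_spec k00_10 (by omega) h80
  by_cases h88 : i < 96
  · exact allFrom_spec k00_11 (by omega) h88
  by_cases h96 : i < 104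
  · exact allFrom_spec k00_12 (by omega) h96
  by_cases h104 : i < 112
  · exact allFrom_spec k00_13 (by omega) h104
  by_cases h112 : i < 120
  · exact allFrom_spec k00_14 (by omega) h112
  by_cases h120 : i < 128
  · exact allFrom_spec k00_15 (by omega) h120
  by_cases h128 : i < 136
  · exact allFrom_spec k00_16 (by omega) h128
  by_cases h136 : i < 144
  · exact allFrom_spec k00_17 (by omega) h136
  by_cases h144 : i < 152
  · exact allFrom_spec k00_18 (by omega) h144
  by_cases h152 : i < 160
  · exact allFrom_spec k00_19 (by omega) h152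
  by_cases h160 : i < 168
  · exact allFrom_spec k00_20 (by omega) h160
  by_cases h168 : i < 176
  · exact allFrom_spec k00_21 (by omega) h168
  by_cases h176 : i < 184
  · exact allFrom_spec k00_22 (by omega) h176
  by_cases h184 : i < 192
  · exact allFrom_spec k00_23 (by omega) h184
  by_cases h192 : i < 200
  · exact allFrom_spec k00_24 (by omega) h192
  by_cases h200 : i < 208
  · exact allFrom_spec k00_25 (by omega) h200
  by_cases h208 : i < 216
  · exact allFrom_spec k00_26 (by omega) h208
  by_cases h216 : i < 224
  · exact allFrom_spec k00_27 (by omega) h216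
  by_cases h224 : i < 232
  · exact allFrom_spec k00_28 (by omega) h224
  by_cases h232 : i < 240
  · exact allFrom_spec k00_29 (by omega) h232
  by_cases h240 : i < 248
  · exact allFrom_spec k00_30 (by omega) h240
  exact allFrom_spec k00_31 (by omega) hi

theorem all1 : ∀ i, 256 ≤ i → i < 512 → Fast.checkOne W cert i = true := by
  intro i h0 hi
  by_cases h256 : i < 264
  · exact allFrom_spec k01_0 (by omega) h256
  by_cases h264 : i < 272
  · exact allFrom_spec k01_1 (by omega) h264
  by_cases h272 : i < 280
  · exact allFrom_spec k01_2 (by omega) h272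
  by_cases h280 : i < 288
  · exact allFrom_spec k01_3 (by omega) h280
  by_cases h288 : i < 296
  · exact allFrom_spec k01_4 (by omega) h288
  by_cases h296 : i < 304
  · exact allFrom_spec k01_5 (by omega) h296
  by_cases h304 : i < 312
  · exact allFrom_spec k01_6 (by omega) h304
  by_cases h312 : i < 320
  · exact allFrom_spec k01_7 (by omega) h312
  by_cases h320 : i < 328
  · exact allFrom_spec k01_8 (by omega) h320
  by_cases h328 : i < 336
  · exact allFrom_spec k01_9 (by omega) h328
  by_cases h336 : i < 344
  · exact allFrom_spec k01_10 (by omega) h336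
  by_cases h344 : i < 352
  · exact allFrom_spec k01_11 (by omega) h344
  by_cases h352 : i < 360
  · exact allFrom_spec k01_12 (by omega) h352
  by_cases h360 : i < 368
  · exact allFrom_spec k01_13 (by omega) h360
  by_cases h368 : i < 376
  · exact allFrom_spec k01_14 (by omega) h368
  by_cases h376 : i < 384
  · exact allFrom_spec k01_15 (by omega) h376
  by_cases h384 : i < 392
  · exact allFrom_spec k01_16 (by omega) h384
  by_cases h392 : i < 400
  · exact allFrom_spec k01_17 (by omega) h392
  by_cases h400 : i < 408
  · exact allFrom_spec k01_18 (by omega) h400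
  by_cases h408 : i < 416
  · exact allFrom_spec k01_19 (by omega) h408
  by_cases h416 : i < 424
  · exact allFrom_spec k01_20 (by omega) h416
  by_cases h424 : i < 432
  · exact allFrom_spec k01_21 (by omega) h424
  by_cases h432 : i < 440
  · exact allFrom_spec k01_22 (by omega) h432
  by_cases h440 : i < 448
  · exact allFrom_spec k01_23 (by omega) h440
  by_cases h448 : i < 456
  · exact allFrom_spec k01_24 (by omega) h448
  by_cases h456 : i < 464
  · exact allFrom_spec k01_25 (by omega) h456
  by_cases h464 : i < 472
  · exact allFrom_spec k01_26 (by omega) h464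
  by_cases h472 : i < 480
  · exact allFrom_spec k01_27 (by omega) h472
  by_cases h480 : i < 488
  · exact allFrom_spec k01_28 (by omega) h480
  by_cases h488 : i < 496
  · exact allFrom_spec k01_29 (by omega) h488
  by_cases h496 : i < 504
  · exact allFrom_spec k01_30 (by omega) h496
  exact allFrom_spec k01_31 (by omega) hi

theorem all2 : ∀ i, 512 ≤ i → i < 768 → Fast.checkOne W cert i = true := by
  intro i h0 hi
  by_cases h512 : i < 520
  · exact allFrom_spec k02_0 (by omega) h512
  by_cases h520 : i < 528
  · exact allFrom_spec k02_1 (by omega) h520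
  by_cases h528 : i < 536
  · exact allFrom_spec k02_2 (by omega) h528
  by_cases h536 : i < 544
  · exact allFrom_spec k02_3 (by omega) h536
  by_cases h544 : i < 552
  · exact allFrom_spec k02_4 (by omega) h544
  by_cases h552 : i < 560
  · exact allFrom_spec k02_5 (by omega) h552
  by_cases h560 : i < 568
  · exact allFrom_spec k02_6 (by omega) h560
  by_cases h568 : i < 576
  · exact allFrom_spec k02_7 (by omega) h568
  by_cases h576 : i < 584
  · exact allFrom_spec k02_8 (by omega) h576
  by_cases h584 : i < 592
  · exact allFrom_spec k02_9 (by omega) h584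
  by_cases h592 : i < 600
  · exact allFrom_spec k02_10 (by omega) h592
  by_cases h600 : i < 608
  · exact allFrom_spec k02_11 (by omega) h600
  by_cases h608 : i < 616
  · exact allFrom_spec k02_12 (by omega) h608
  by_cases h616 : i < 624
  · exact allFrom_spec k02_13 (by omega) h616
  by_cases h624 : i < 632
  · exact allFrom_spec k02_14 (by omega) h624
  by_cases h632 : i < 640
  · exact allFrom_spec k02_15 (by omega) h632
  by_cases h640 : i < 648
  · exact allFrom_spec k02_16 (by omega) h640
  by_cases h648 : i < 656
  · exact allFrom_spec k02_17 (by omega) h648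
  by_cases h656 : i < 664
  · exact allFrom_spec k02_18 (by omega) h656
  by_cases h664 : i < 672
  · exact allFrom_spec k02_19 (by omega) h664
  by_cases h672 : i < 680
  · exact allFrom_spec k02_20 (by omega) h672
  by_cases h680 : i < 688
  · exact allFrom_spec k02_21 (by omega) h680
  by_cases h688 : i < 696
  · exact allFrom_spec k02_22 (by omega) h688
  by_cases h696 : i < 704
  · exact allFrom_spec k02_23 (by omega) h696
  by_cases h704 : i < 712
  · exact allFrom_spec k02_24 (by omega) h704
  by_cases h712 : i < 720
  · exact allFrom_spec k02_25 (by omega) h712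
  by_cases h720 : i < 728
  · exact allFrom_spec k02_26 (by omega) h720
  by_cases h728 : i < 736
  · exact allFrom_spec k02_27 (by omega) h728
  by_cases h736 : i < 744
  · exact allFrom_spec k02_28 (by omega) h736
  by_cases h744 : i < 752
  · exact allFrom_spec k02_29 (by omega) h744
  by_cases h752 : i < 760
  · exact allFrom_spec k02_30 (by omega) h752
  exact allFrom_spec k02_31 (by omega) hi

theorem all3 : ∀ i, 768 ≤ i → i < 1024 → Fast.checkOne W cert i = true := by
  intro i h0 hi
  by_cases h768 : i < 776
  · exact allFrom_spec k03_0 (by omega) h768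
  by_cases h776 : i < 784
  · exact allFrom_spec k03_1 (by omega) h776
  by_cases h784 : i < 792
  · exact allFrom_spec k03_2 (by omega) h784
  by_cases h792 : i < 800
  · exact allFrom_spec k03_3 (by omega) h792
  by_cases h800 : i < 808
  · exact allFrom_spec k03_4 (by omega) h800
  by_cases h808 : i < 816
  · exact allFrom_spec k03_5 (by omega) h808
  by_cases h816 : i < 824
  · exact allFrom_spec k03_6 (by omega) h816
  by_cases h824 : i < 832
  · exact allFrom_spec k03_7 (by omega) h824
  by_cases h832 : i < 840
  · exact allFrom_spec k03_8 (by omega) h832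
  by_cases h840 : i < 848
  · exact allFrom_spec k03_9 (by omega) h840
  by_cases h848 : i < 856
  · exact allFrom_spec k03_10 (by omega) h848
  by_cases h856 : i < 864
  · exact allFrom_spec k03_11 (by omega) h856
  by_cases h864 : i < 872
  · exact allFrom_spec k03_12 (by omega) h864
  by_cases h872 : i < 880
  · exact allFrom_spec k03_13 (by omega) h872
  by_cases h880 : i < 888
  · exact allFrom_spec k03_14 (by omega) h880
  by_cases h888 : i < 896
  · exact allFrom_spec k03_15 (by omega) h888
  by_cases h896 : i < 904
  · exact allFrom_spec k03_16 (by omega) h896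
  by_cases h904 : i < 912
  · exact allFrom_spec k03_17 (by omega) h904
  by_cases h912 : i < 920
  · exact allFrom_spec k03_18 (by omega) h912
  by_cases h920 : i < 928
  · exact allFrom_spec k03_19 (by omega) h920
  by_cases h928 : i < 936
  · exact allFrom_spec k03_20 (by omega) h928
  by_cases h936 : i < 944
  · exact allFrom_spec k03_21 (by omega) h936
  by_cases h944 : i < 952
  · exact allFrom_spec k03_22 (by omega) h944
  by_cases h952 : i < 960
  · exact allFrom_spec k03_23 (by omega) h952
  by_cases h960 : i < 968
  · exact allFrom_spec k03_24 (by omega) h960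
  by_cases h968 : i < 976
  · exact allFrom_spec k03_25 (by omega) h968
  by_cases h976 : i < 984
  · exact allFrom_spec k03_26 (by omega) h976
  by_cases h984 : i < 992
  · exact allFrom_spec k03_27 (by omega) h984
  by_cases h992 : i < 1000
  · exact allFrom_spec k03_28 (by omega) h992
  by_cases h1000 : i < 1008
  · exact allFrom_spec k03_29 (by omega) h1000
  by_cases h1008 : i < 1016
  · exact allFrom_spec k03_30 (by omega) h1008
  exact allFrom_spec k03_31 (by omega) hi

theorem all4 : ∀ i, 1024 ≤ i → i < 1280 → Fast.checkOne W cert i = true := by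
  intro i h0 hi
  by_cases h1024 : i < 1032
  · exact allFrom_spec k04_0 (by omega) h1024
  by_cases h1032 : i < 1040
  · exact allFrom_spec k04_1 (by omega) h1032
  by_cases h1040 : i < 1048
  · exact allFrom_spec k04_2 (by omega) h1040
  by_cases h1048 : i < 1056
  · exact allFrom_spec k04_3 (by omega) h1048
  by_cases h1056 : i < 1064
  · exact allFrom_spec k04_4 (by omega) h1056
  by_cases h1064 : i < 1072
  · exact allFrom_spec k04_5 (by omega) h1064
  by_cases h1072 : i < 1080
  · exact allFrom_spec k04_6 (by omega) h1072
  by_cases h1080 : i < 1088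
  · exact allFrom_spec k04_7 (by omega) h1080
  by_cases h1088 : i < 1096
  · exact allFrom_spec k04_8 (by omega) h1088
  by_cases h1096 : i < 1104
  · exact allFrom_spec k04_9 (by omega) h1096
  by_cases h1104 : i < 1112
  · exact allFrom_spec k04_10 (by omega) h1104
  by_cases h1112 : i < 1120
  · exact allFrom_spec k04_11 (by omega) h1112
  by_cases h1120 : i < 1128
  · exact allFrom_spec k04_12 (by omega) h1120
  by_cases h1128 : i < 1136
  · exact allFrom_spec k04_13 (by omega) h1128
  by_cases h1136 : i < 1144
  · exact allFrom_spec k04_14 (by omega) h1136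
  by_cases h1144 : i < 1152
  · exact allFrom_spec k04_15 (by omega) h1144
  by_cases h1152 : i < 1160
  · exact allFrom_spec k04_16 (by omega) h1152
  by_cases h1160 : i < 1168
  · exact allFrom_spec k04_17 (by omega) h1160
  by_cases h1168 : i < 1176
  · exact allFrom_spec k04_18 (by omega) h1168
  by_cases h1176 : i < 1184
  · exact allFrom_spec k04_19 (by omega) h1176
  by_cases h1184 : i < 1192
  · exact allFrom_spec k04_20 (by omega) h1184
  by_cases h1192 : i < 1200
  · exact allFrom_spec k04_21 (by omega) h1192
  by_cases h1200 : i < 1208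
  · exact allFrom_spec k04_22 (by omega) h1200
  by_cases h1208 : i < 1216
  · exact allFrom_spec k04_23 (by omega) h1208
  by_cases h1216 : i < 1224
  · exact allFrom_spec k04_24 (by omega) h1216
  by_cases h1224 : i < 1232
  · exact allFrom_spec k04_25 (by omega) h1224
  by_cases h1232 : i < 1240
  · exact allFrom_spec k04_26 (by omega) h1232
  by_cases h1240 : i < 1248
  · exact allFrom_spec k04_27 (by omega) h1240
  by_cases h1248 : i < 1256
  · exact allFrom_spec k04_28 (by omega) h1248
  by_cases h1256 : i < 1264
  · exact allFrom_spec k04_29 (by omega) h1256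
  by_cases h1264 : i < 1272
  · exact allFrom_spec k04_30 (by omega) h1264
  exact allFrom_spec k04_31 (by omega) hi

theorem all5 : ∀ i, 1280 ≤ i → i < 1536 → Fast.checkOne W cert i = true := by
  intro i h0 hi
  by_cases h1280 : i < 1288
  · exact allFrom_spec k05_0 (by omega) h1280
  by_cases h1288 : i < 1296
  · exact allFrom_spec k05_1 (by omega) h1288
  by_cases h1296 : i < 1304
  · exact allFrom_spec k05_2 (by omega) h1296
  by_cases h1304 : i < 1312
  · exact allFrom_spec k05_3 (by omega) h1304
  by_cases h1312 : i < 1320
  · exact allFrom_spec k05_4 (by omega) h1312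
  by_cases h1320 : i < 1328
  · exact allFrom_spec k05_5 (by omega) h1320
  by_cases h1328 : i < 1336
  · exact allFrom_spec k05_6 (by omega) h1328
  by_cases h1336 : i < 1344
  · exact allFrom_spec k05_7 (by omega) h1336
  by_cases h1344 : i < 1352
  · exact allFrom_spec k05_8 (by omega) h1344
  by_cases h1352 : i < 1360
  · exact allFrom_spec k05_9 (by omega) h1352
  by_cases h1360 : i < 1368
  · exact allFrom_spec k05_10 (by omega) h1360
  by_cases h1368 : i < 1376
  · exact allFrom_spec k05_11 (by omega) h1368
  by_cases h1376 : i < 1384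
  · exact allFrom_spec k05_12 (by omega) h1376
  by_cases h1384 : i < 1392
  · exact allFrom_spec k05_13 (by omega) h1384
  by_cases h1392 : i < 1400
  · exact allFrom_spec k05_14 (by omega) h1392
  by_cases h1400 : i < 1408
  · exact allFrom_spec k05_15 (by omega) h1400
  by_cases h1408 : i < 1416
  · exact allFrom_spec k05_16 (by omega) h1408
  by_cases h1416 : i < 1424
  · exact allFrom_spec k05_17 (by omega) h1416
  by_cases h1424 : i < 1432
  · exact allFrom_spec k05_18 (by omega) h1424
  by_cases h1432 : i < 1440
  · exact allFrom_spec k05_19 (by omega) h1432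
  by_cases h1440 : i < 1448
  · exact allFrom_spec k05_20 (by omega) h1440
  by_cases h1448 : i < 1456
  · exact allFrom_spec k05_21 (by omega) h1448
  by_cases h1456 : i < 1464
  · exact allFrom_spec k05_22 (by omega) h1456
  by_cases h1464 : i < 1472
  · exact allFrom_spec k05_23 (by omega) h1464
  by_cases h1472 : i < 1480
  · exact allFrom_spec k05_24 (by omega) h1472
  by_cases h1480 : i < 1488
  · exact allFrom_spec k05_25 (by omega) h1480
  by_cases h1488 : i < 1496
  · exact allFrom_spec k05_26 (by omega) h1488
  by_cases h1496 : i < 1504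
  · exact allFrom_spec k05_27 (by omega) h1496
  by_cases h1504 : i < 1512
  · exact allFrom_spec k05_28 (by omega) h1504
  by_cases h1512 : i < 1520
  · exact allFrom_spec k05_29 (by omega) h1512
  by_cases h1520 : i < 1528
  · exact allFrom_spec k05_30 (by omega) h1520
  exact allFrom_spec k05_31 (by omega) hi

theorem all6 : ∀ i, 1536 ≤ i → i < 1792 → Fast.checkOne W cert i = true := by
  intro i h0 hi
  by_cases h1536 : i < 1544
  · exact allFrom_spec k06_0 (by omega) h1536
  by_cases h1544 : i < 1552
  · exact allFrom_spec k06_1 (by omega) h1544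
  by_cases h1552 : i < 1560
  · exact allFrom_spec k06_2 (by omega) h1552
  by_cases h1560 : i < 1568
  · exact allFrom_spec k06_3 (by omega) h1560
  by_cases h1568 : i < 1576
  · exact allFrom_spec k06_4 (by omega) h1568
  by_cases h1576 : i < 1584
  · exact allFrom_spec k06_5 (by omega) h1576
  by_cases h1584 : i < 1592
  · exact allFrom_spec k06_6 (by omega) h1584
  by_cases h1592 : i < 1600
  · exact allFrom_spec k06_7 (by omega) h1592
  by_cases h1600 : i < 1608
  · exact allFrom_spec k06_8 (by omega) h1600
  by_cases h1608 : i < 1616
  · exact allFrom_spec k06_9 (by omega) h1608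
  by_cases h1616 : i < 1624
  · exact allFrom_spec k06_10 (by omega) h1616
  by_cases h1624 : i < 1632
  · exact allFrom_spec k06_11 (by omega) h1624
  by_cases h1632 : i < 1640
  · exact allFrom_spec k06_12 (by omega) h1632
  by_cases h1640 : i < 1648
  · exact allFrom_spec k06_13 (by omega) h1640
  by_cases h1648 : i < 1656
  · exact allFrom_spec k06_14 (by omega) h1648
  by_cases h1656 : i < 1664
  · exact allFrom_spec k06_15 (by omega) h1656
  by_cases h1664 : i < 1672
  · exact allFrom_spec k06_16 (by omega) h1664
  by_cases h1672 : i < 1680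
  · exact allFrom_spec k06_17 (by omega) h1672
  by_cases h1680 : i < 1688
  · exact allFrom_spec k06_18 (by omega) h1680
  by_cases h1688 : i < 1696
  · exact allFrom_spec k06_19 (by omega) h1688
  by_cases h1696 : i < 1704
  · exact allFrom_spec k06_20 (by omega) h1696
  by_cases h1704 : i < 1712
  · exact allFrom_spec k06_21 (by omega) h1704
  by_cases h1712 : i < 1720
  · exact allFrom_spec k06_22 (by omega) h1712
  by_cases h1720 : i < 1728
  · exact allFrom_spec k06_23 (by omega) h1720
  by_cases h1728 : i < 1736
  · exact allFrom_spec k06_24 (by omega) h1728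
  by_cases h1736 : i < 1744
  · exact allFrom_spec k06_25 (by omega) h1736
  by_cases h1744 : i < 1752
  · exact allFrom_spec k06_26 (by omega) h1744
  by_cases h1752 : i < 1760
  · exact allFrom_spec k06_27 (by omega) h1752
  by_cases h1760 : i < 1768
  · exact allFrom_spec k06_28 (by omega) h1760
  by_cases h1768 : i < 1776
  · exact allFrom_spec k06_29 (by omega) h1768
  by_cases h1776 : i < 1784
  · exact allFrom_spec k06_30 (by omega) h1776
  exact allFrom_spec k06_31 (by omega) hi

theorem all7 : ∀ i, 1792 ≤ i → i < 2048 → Fast.checkOne W cert i = true := by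
  intro i h0 hi
  by_cases h1792 : i < 1800
  · exact allFrom_spec k07_0 (by omega) h1792
  by_cases h1800 : i < 1808
  · exact allFrom_spec k07_1 (by omega) h1800
  by_cases h1808 : i < 1816
  · exact allFrom_spec k07_2 (by omega) h1808
  by_cases h1816 : i < 1824
  · exact allFrom_spec k07_3 (by omega) h1816
  by_cases h1824 : i < 1832
  · exact allFrom_spec k07_4 (by omega) h1824
  by_cases h1832 : i < 1840
  · exact allFrom_spec k07_5 (by omega) h1832
  by_cases h1840 : i < 1848
  · exact allFrom_spec k07_6 (by omega) h1840
  by_cases h1848 : i < 1856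
  · exact allFrom_spec k07_7 (by omega) h1848
  by_cases h1856 : i < 1864
  · exact allFrom_spec k07_8 (by omega) h1856
  by_cases h1864 : i < 1872
  · exact allFrom_spec k07_9 (by omega) h1864
  by_cases h1872 : i < 1880
  · exact allFrom_spec k07_10 (by omega) h1872
  by_cases h1880 : i < 1888
  · exact allFrom_spec k07_11 (by omega) h1880
  by_cases h1888 : i < 1896
  · exact allFrom_spec k07_12 (by omega) h1888
  by_cases h1896 : i < 1904
  · exact allFrom_spec k07_13 (by omega) h1896
  by_cases h1904 : i < 1912
  · exact allFrom_spec k07_14 (by omega) h1904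
  by_cases h1912 : i < 1920
  · exact allFrom_spec k07_15 (by omega) h1912
  by_cases h1920 : i < 1928
  · exact allFrom_spec k07_16 (by omega) h1920
  by_cases h1928 : i < 1936
  · exact allFrom_spec k07_17 (by omega) h1928
  by_cases h1936 : i < 1944
  · exact allFrom_spec k07_18 (by omega) h1936
  by_cases h1944 : i < 1952
  · exact allFrom_spec k07_19 (by omega) h1944
  by_cases h1952 : i < 1960
  · exact allFrom_spec k07_20 (by omega) h1952
  by_cases h1960 : i < 1968
  · exact allFrom_spec k07_21 (by omega) h1960
  by_cases h1968 : i < 1976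
  · exact allFrom_spec k07_22 (by omega) h1968
  by_cases h1976 : i < 1984
  · exact allFrom_spec k07_23 (by omega) h1976
  by_cases h1984 : i < 1992
  · exact allFrom_spec k07_24 (by omega) h1984
  by_cases h1992 : i < 2000
  · exact allFrom_spec k07_25 (by omega) h1992
  by_cases h2000 : i < 2008
  · exact allFrom_spec k07_26 (by omega) h2000
  by_cases h2008 : i < 2016
  · exact allFrom_spec k07_27 (by omega) h2008
  by_cases h2016 : i < 2024
  · exact allFrom_spec k07_28 (by omega) h2016
  by_cases h2024 : i < 2032
  · exact allFrom_spec k07_29 (by omega) h2024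
  by_cases h2032 : i < 2040
  · exact allFrom_spec k07_30 (by omega) h2032
  exact allFrom_spec k07_31 (by omega) hi

theorem all8 : ∀ i, 2048 ≤ i → i < 2304 → Fast.checkOne W cert i = true := by
  intro i h0 hi
  by_cases h2048 : i < 2056
  · exact allFrom_spec k08_0 (by omega) h2048
  by_cases h2056 : i < 2064
  · exact allFrom_spec k08_1 (by omega) h2056
  by_cases h2064 : i < 2072
  · exact allFrom_spec k08_2 (by omega) h2064
  by_cases h2072 : i < 2080
  · exact allFrom_spec k08_3 (by omega) h2072
  by_cases h2080 : i < 2088
  · exact allFrom_spec k08_4 (by omega) h2080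
  by_cases h2088 : i < 2096
  · exact allFrom_spec k08_5 (by omega) h2088
  by_cases h2096 : i < 2104
  · exact allFrom_spec k08_6 (by omega) h2096
  by_cases h2104 : i < 2112
  · exact allFrom_spec k08_7 (by omega) h2104
  by_cases h2112 : i < 2120
  · exact allFrom_spec k08_8 (by omega) h2112
  by_cases h2120 : i < 2128
  · exact allFrom_spec k08_9 (by omega) h2120
  by_cases h2128 : i < 2136
  · exact allFrom_spec k08_10 (by omega) h2128
  by_cases h2136 : i < 2144
  · exact allFrom_spec k08_11 (by omega) h2136
  by_cases h2144 : i < 2152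
  · exact allFrom_spec k08_12 (by omega) h2144
  by_cases h2152 : i < 2160
  · exact allFrom_spec k08_13 (by omega) h2152
  by_cases h2160 : i < 2168
  · exact allFrom_spec k08_14 (by omega) h2160
  by_cases h2168 : i < 2176
  · exact allFrom_spec k08_15 (by omega) h2168
  by_cases h2176 : i < 2184
  · exact allFrom_spec k08_16 (by omega) h2176
  by_cases h2184 : i < 2192
  · exact allFrom_spec k08_17 (by omega) h2184
  by_cases h2192 : i < 2200
  · exact allFrom_spec k08_18 (by omega) h2192
  by_cases h2200 : i < 2208
  · exact allFrom_spec k08_19 (by omega) h2200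
  by_cases h2208 : i < 2216
  · exact allFrom_spec k08_20 (by omega) h2208
  by_cases h2216 : i < 2224
  · exact allFrom_spec k08_21 (by omega) h2216
  by_cases h2224 : i < 2232
  · exact allFrom_spec k08_22 (by omega) h2224
  by_cases h2232 : i < 2240
  · exact allFrom_spec k08_23 (by omega) h2232
  by_cases h2240 : i < 2248
  · exact allFrom_spec k08_24 (by omega) h2240
  by_cases h2248 : i < 2256
  · exact allFrom_spec k08_25 (by omega) h2248
  by_cases h2256 : i < 2264
  · exact allFrom_spec k08_26 (by omega) h2256
  by_cases h2264 : i < 2272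
  · exact allFrom_spec k08_27 (by omega) h2264
  by_cases h2272 : i < 2280
  · exact allFrom_spec k08_28 (by omega) h2272
  by_cases h2280 : i < 2288
  · exact allFrom_spec k08_29 (by omega) h2280
  by_cases h2288 : i < 2296
  · exact allFrom_spec k08_30 (by omega) h2288
  exact allFrom_spec k08_31 (by omega) hi

theorem all9 : ∀ i, 2304 ≤ i → i < 2560 → Fast.checkOne W cert i = true := by
  intro i h0 hi
  by_cases h2304 : i < 2312
  · exact allFrom_spec k09_0 (by omega) h2304
  by_cases h2312 : i < 2320
  · exact allFrom_spec k09_1 (by omega) h2312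
  by_cases h2320 : i < 2328
  · exact allFrom_spec k09_2 (by omega) h2320
  by_cases h2328 : i < 2336
  · exact allFrom_spec k09_3 (by omega) h2328
  by_cases h2336 : i < 2344
  · exact allFrom_spec k09_4 (by omega) h2336
  by_cases h2344 : i < 2352
  · exact allFrom_spec k09_5 (by omega) h2344
  by_cases h2352 : i < 2360
  · exact allFrom_spec k09_6 (by omega) h2352
  by_cases h2360 : i < 2368
  · exact allFrom_spec k09_7 (by omega) h2360
  by_cases h2368 : i < 2376
  · exact allFrom_spec k09_8 (by omega) h2368
  by_cases h2376 : i < 2384
  · exact allFrom_spec k09_9 (by omega) h2376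
  by_cases h2384 : i < 2392
  · exact allFrom_spec k09_10 (by omega) h2384
  by_cases h2392 : i < 2400
  · exact allFrom_spec k09_11 (by omega) h2392
  by_cases h2400 : i < 2408
  · exact allFrom_spec k09_12 (by omega) h2400
  by_cases h2408 : i < 2416
  · exact allFrom_spec k09_13 (by omega) h2408
  by_cases h2416 : i < 2424
  · exact allFrom_spec k09_14 (by omega) h2416
  by_cases h2424 : i < 2432
  · exact allFrom_spec k09_15 (by omega) h2424
  by_cases h2432 : i < 2440
  · exact allFrom_spec k09_16 (by omega) h2432
  by_cases h2440 : i < 2448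
  · exact allFrom_spec k09_17 (by omega) h2440
  by_cases h2448 : i < 2456
  · exact allFrom_spec k09_18 (by omega) h2448
  by_cases h2456 : i < 2464
  · exact allFrom_spec k09_19 (by omega) h2456
  by_cases h2464 : i < 2472
  · exact allFrom_spec k09_20 (by omega) h2464
  by_cases h2472 : i < 2480
  · exact allFrom_spec k09_21 (by omega) h2472
  by_cases h2480 : i < 2488
  · exact allFrom_spec k09_22 (by omega) h2480
  by_cases h2488 : i < 2496
  · exact allFrom_spec k09_23 (by omega) h2488
  by_cases h2496 : i < 2504
  · exact allFrom_spec k09_24 (by omega) h2496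
  by_cases h2504 : i < 2512
  · exact allFrom_spec k09_25 (by omega) h2504
  by_cases h2512 : i < 2520
  · exact allFrom_spec k09_26 (by omega) h2512
  by_cases h2520 : i < 2528
  · exact allFrom_spec k09_27 (by omega) h2520
  by_cases h2528 : i < 2536
  · exact allFrom_spec k09_28 (by omega) h2528
  by_cases h2536 : i < 2544
  · exact allFrom_spec k09_29 (by omega) h2536
  by_cases h2544 : i < 2552
  · exact allFrom_spec k09_30 (by omega) h2544
  exact allFrom_spec k09_31 (by omega) hi

theorem all10 : ∀ i, 2560 ≤ i → i < 2816 → Fast.checkOne W cert i = true := by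
  intro i h0 hi
  by_cases h2560 : i < 2568
  · exact allFrom_spec k10_0 (by omega) h2560
  by_cases h2568 : i < 2576
  · exact allFrom_spec k10_1 (by omega) h2568
  by_cases h2576 : i < 2584
  · exact allFrom_spec k10_2 (by omega) h2576
  by_cases h2584 : i < 2592
  · exact allFrom_spec k10_3 (by omega) h2584
  by_cases h2592 : i < 2600
  · exact allFrom_spec k10_4 (by omega) h2592
  by_cases h2600 : i < 2608
  · exact allFrom_spec k10_5 (by omega) h2600
  by_cases h2608 : i < 2616
  · exact allFrom_spec k10_6 (by omega) h2608
  by_cases h2616 : i < 2624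
  · exact allFrom_spec k10_7 (by omega) h2616
  by_cases h2624 : i < 2632
  · exact allFrom_spec k10_8 (by omega) h2624
  by_cases h2632 : i < 2640
  · exact allFrom_spec k10_9 (by omega) h2632
  by_cases h2640 : i < 2648
  · exact allFrom_spec k10_10 (by omega) h2640
  by_cases h2648 : i < 2656
  · exact allFrom_spec k10_11 (by omega) h2648
  by_cases h2656 : i < 2664
  · exact allFrom_spec k10_12 (by omega) h2656
  by_cases h2664 : i < 2672
  · exact allFrom_spec k10_13 (by omega) h2664
  by_cases h2672 : i < 2680
  · exact allFrom_spec k10_14 (by omega) h2672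
  by_cases h2680 : i < 2688
  · exact allFrom_spec k10_15 (by omega) h2680
  by_cases h2688 : i < 2696
  · exact allFrom_spec k10_16 (by omega) h2688
  by_cases h2696 : i < 2704
  · exact allFrom_spec k10_17 (by omega) h2696
  by_cases h2704 : i < 2712
  · exact allFrom_spec k10_18 (by omega) h2704
  by_cases h2712 : i < 2720
  · exact allFrom_spec k10_19 (by omega) h2712
  by_cases h2720 : i < 2728
  · exact allFrom_spec k10_20 (by omega) h2720
  by_cases h2728 : i < 2736
  · exact allFrom_spec k10_21 (by omega) h2728
  by_cases h2736 : i < 2744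
  · exact allFrom_spec k10_22 (by omega) h2736
  by_cases h2744 : i < 2752
  · exact allFrom_spec k10_23 (by omega) h2744
  by_cases h2752 : i < 2760
  · exact allFrom_spec k10_24 (by omega) h2752
  by_cases h2760 : i < 2768
  · exact allFrom_spec k10_25 (by omega) h2760
  by_cases h2768 : i < 2776
  · exact allFrom_spec k10_26 (by omega) h2768
  by_cases h2776 : i < 2784
  · exact allFrom_spec k10_27 (by omega) h2776
  by_cases h2784 : i < 2792
  · exact allFrom_spec k10_28 (by omega) h2784
  by_cases h2792 : i < 2800
  · exact allFrom_spec k10_29 (by omega) h2792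
  by_cases h2800 : i < 2808
  · exact allFrom_spec k10_30 (by omega) h2800
  exact allFrom_spec k10_31 (by omega) hi

theorem all11 : ∀ i, 2816 ≤ i → i < 3072 → Fast.checkOne W cert i = true := by
  intro i h0 hi
  by_cases h2816 : i < 2824
  · exact allFrom_spec k11_0 (by omega) h2816
  by_cases h2824 : i < 2832
  · exact allFrom_spec k11_1 (by omega) h2824
  by_cases h2832 : i < 2840
  · exact allFrom_spec k11_2 (by omega) h2832
  by_cases h2840 : i < 2848
  · exact allFrom_spec k11_3 (by omega) h2840
  by_cases h2848 : i < 2856
  · exact allFrom_spec k11_4 (by omega) h2848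
  by_cases h2856 : i < 2864
  · exact allFrom_spec k11_5 (by omega) h2856
  by_cases h2864 : i < 2872
  · exact allFrom_spec k11_6 (by omega) h2864
  by_cases h2872 : i < 2880
  · exact allFrom_spec k11_7 (by omega) h2872
  by_cases h2880 : i < 2888
  · exact allFrom_spec k11_8 (by omega) h2880
  by_cases h2888 : i < 2896
  · exact allFrom_spec k11_9 (by omega) h2888
  by_cases h2896 : i < 2904
  · exact allFrom_spec k11_10 (by omega) h2896
  by_cases h2904 : i < 2912
  · exact allFrom_spec k11_11 (by omega) h2904
  by_cases h2912 : i < 2920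
  · exact allFrom_spec k11_12 (by omega) h2912
  by_cases h2920 : i < 2928
  · exact allFrom_spec k11_13 (by omega) h2920
  by_cases h2928 : i < 2936
  · exact allFrom_spec k11_14 (by omega) h2928
  by_cases h2936 : i < 2944
  · exact allFrom_spec k11_15 (by omega) h2936
  by_cases h2944 : i < 2952
  · exact allFrom_spec k11_16 (by omega) h2944
  by_cases h2952 : i < 2960
  · exact allFrom_spec k11_17 (by omega) h2952
  by_cases h2960 : i < 2968
  · exact allFrom_spec k11_18 (by omega) h2960
  by_cases h2968 : i < 2976
  · exact allFrom_spec k11_19 (by omega) h2968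
  by_cases h2976 : i < 2984
  · exact allFrom_spec k11_20 (by omega) h2976
  by_cases h2984 : i < 2992
  · exact allFrom_spec k11_21 (by omega) h2984
  by_cases h2992 : i < 3000
  · exact allFrom_spec k11_22 (by omega) h2992
  by_cases h3000 : i < 3008
  · exact allFrom_spec k11_23 (by omega) h3000
  by_cases h3008 : i < 3016
  · exact allFrom_spec k11_24 (by omega) h3008
  by_cases h3016 : i < 3024
  · exact allFrom_spec k11_25 (by omega) h3016
  by_cases h3024 : i < 3032
  · exact allFrom_spec k11_26 (by omega) h3024
  by_cases h3032 : i < 3040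
  · exact allFrom_spec k11_27 (by omega) h3032
  by_cases h3040 : i < 3048
  · exact allFrom_spec k11_28 (by omega) h3040
  by_cases h3048 : i < 3056
  · exact allFrom_spec k11_29 (by omega) h3048
  by_cases h3056 : i < 3064
  · exact allFrom_spec k11_30 (by omega) h3056
  exact allFrom_spec k11_31 (by omega) hi

theorem all12 : ∀ i, 3072 ≤ i → i < 3328 → Fast.checkOne W cert i = true := by
  intro i h0 hi
  by_cases h3072 : i < 3080
  · exact allFrom_spec k12_0 (by omega) h3072
  by_cases h3080 : i < 3088
  · exact allFrom_spec k12_1 (by omega) h3080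
  by_cases h3088 : i < 3096
  · exact allFrom_spec k12_2 (by omega) h3088
  by_cases h3096 : i < 3104
  · exact allFrom_spec k12_3 (by omega) h3096
  by_cases h3104 : i < 3112
  · exact allFrom_spec k12_4 (by omega) h3104
  by_cases h3112 : i < 3120
  · exact allFrom_spec k12_5 (by omega) h3112
  by_cases h3120 : i < 3128
  · exact allFrom_spec k12_6 (by omega) h3120
  by_cases h3128 : i < 3136
  · exact allFrom_spec k12_7 (by omega) h3128
  by_cases h3136 : i < 3144
  · exact allFrom_spec k12_8 (by omega) h3136
  by_cases h3144 : i < 3152
  · exact allFrom_spec k12_9 (by omega) h3144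
  by_cases h3152 : i < 3160
  · exact allFrom_spec k12_10 (by omega) h3152
  by_cases h3160 : i < 3168
  · exact allFrom_spec k12_11 (by omega) h3160
  by_cases h3168 : i < 3176
  · exact allFrom_spec k12_12 (by omega) h3168
  by_cases h3176 : i < 3184
  · exact allFrom_spec k12_13 (by omega) h3176
  by_cases h3184 : i < 3192
  · exact allFrom_spec k12_14 (by omega) h3184
  by_cases h3192 : i < 3200
  · exact allFrom_spec k12_15 (by omega) h3192
  by_cases h3200 : i < 3208
  · exact allFrom_spec k12_16 (by omega) h3200
  by_cases h3208 : i < 3216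
  · exact allFrom_spec k12_17 (by omega) h3208
  by_cases h3216 : i < 3224
  · exact allFrom_spec k12_18 (by omega) h3216
  by_cases h3224 : i < 3232
  · exact allFrom_spec k12_19 (by omega) h3224
  by_cases h3232 : i < 3240
  · exact allFrom_spec k12_20 (by omega) h3232
  by_cases h3240 : i < 3248
  · exact allFrom_spec k12_21 (by omega) h3240
  by_cases h3248 : i < 3256
  · exact allFrom_spec k12_22 (by omega) h3248
  by_cases h3256 : i < 3264
  · exact allFrom_spec k12_23 (by omega) h3256
  by_cases h3264 : i < 3272
  · exact allFrom_spec k12_24 (by omega) h3264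
  by_cases h3272 : i < 3280
  · exact allFrom_spec k12_25 (by omega) h3272
  by_cases h3280 : i < 3288
  · exact allFrom_spec k12_26 (by omega) h3280
  by_cases h3288 : i < 3296
  · exact allFrom_spec k12_27 (by omega) h3288
  by_cases h3296 : i < 3304
  · exact allFrom_spec k12_28 (by omega) h3296
  by_cases h3304 : i < 3312
  · exact allFrom_spec k12_29 (by omega) h3304
  by_cases h3312 : i < 3320
  · exact allFrom_spec k12_30 (by omega) h3312
  exact allFrom_spec k12_31 (by omega) hi

theorem all13 : ∀ i, 3328 ≤ i → i < 3584 → Fast.checkOne W cert i = true := by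
  intro i h0 hi
  by_cases h3328 : i < 3336
  · exact allFrom_spec k13_0 (by omega) h3328
  by_cases h3336 : i < 3344
  · exact allFrom_spec k13_1 (by omega) h3336
  by_cases h3344 : i < 3352
  · exact allFrom_spec k13_2 (by omega) h3344
  by_cases h3352 : i < 3360
  · exact allFrom_spec k13_3 (by omega) h3352
  by_cases h3360 : i < 3368
  · exact allFrom_spec k13_4 (by omega) h3360
  by_cases h3368 : i < 3376
  · exact allFrom_spec k13_5 (by omega) h3368
  by_cases h3376 : i < 3384
  · exact allFrom_spec k13_6 (by omega) h3376
  by_cases h3384 : i < 3392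
  · exact allFrom_spec k13_7 (by omega) h3384
  by_cases h3392 : i < 3400
  · exact allFrom_spec k13_8 (by omega) h3392
  by_cases h3400 : i < 3408
  · exact allFrom_spec k13_9 (by omega) h3400
  by_cases h3408 : i < 3416
  · exact allFrom_spec k13_10 (by omega) h3408
  by_cases h3416 : i < 3424
  · exact allFrom_spec k13_11 (by omega) h3416
  by_cases h3424 : i < 3432
  · exact allFrom_spec k13_12 (by omega) h3424
  by_cases h3432 : i < 3440
  · exact allFrom_spec k13_13 (by omega) h3432
  by_cases h3440 : i < 3448
  · exact allFrom_spec k13_14 (by omega) h3440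
  by_cases h3448 : i < 3456
  · exact allFrom_spec k13_15 (by omega) h3448
  by_cases h3456 : i < 3464
  · exact allFrom_spec k13_16 (by omega) h3456
  by_cases h3464 : i < 3472
  · exact allFrom_spec k13_17 (by omega) h3464
  by_cases h3472 : i < 3480
  · exact allFrom_spec k13_18 (by omega) h3472
  by_cases h3480 : i < 3488
  · exact allFrom_spec k13_19 (by omega) h3480
  by_cases h3488 : i < 3496
  · exact allFrom_spec k13_20 (by omega) h3488
  by_cases h3496 : i < 3504
  · exact allFrom_spec k13_21 (by omega) h3496
  by_cases h3504 : i < 3512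
  · exact allFrom_spec k13_22 (by omega) h3504
  by_cases h3512 : i < 3520
  · exact allFrom_spec k13_23 (by omega) h3512
  by_cases h3520 : i < 3528
  · exact allFrom_spec k13_24 (by omega) h3520
  by_cases h3528 : i < 3536
  · exact allFrom_spec k13_25 (by omega) h3528
  by_cases h3536 : i < 3544
  · exact allFrom_spec k13_26 (by omega) h3536
  by_cases h3544 : i < 3552
  · exact allFrom_spec k13_27 (by omega) h3544
  by_cases h3552 : i < 3560
  · exact allFrom_spec k13_28 (by omega) h3552
  by_cases h3560 : i < 3568
  · exact allFrom_spec k13_29 (by omega) h3560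
  by_cases h3568 : i < 3576
  · exact allFrom_spec k13_30 (by omega) h3568
  exact allFrom_spec k13_31 (by omega) hi

theorem all14 : ∀ i, 3584 ≤ i → i < 3840 → Fast.checkOne W cert i = true := by
  intro i h0 hi
  by_cases h3584 : i < 3592
  · exact allFrom_spec k14_0 (by omega) h3584
  by_cases h3592 : i < 3600
  · exact allFrom_spec k14_1 (by omega) h3592
  by_cases h3600 : i < 3608
  · exact allFrom_spec k14_2 (by omega) h3600
  by_cases h3608 : i < 3616
  · exact allFrom_spec k14_3 (by omega) h3608
  by_cases h3616 : i < 3624
  · exact allFrom_spec k14_4 (by omega) h3616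
  by_cases h3624 : i < 3632
  · exact allFrom_spec k14_5 (by omega) h3624
  by_cases h3632 : i < 3640
  · exact allFrom_spec k14_6 (by omega) h3632
  by_cases h3640 : i < 3648
  · exact allFrom_spec k14_7 (by omega) h3640
  by_cases h3648 : i < 3656
  · exact allFrom_spec k14_8 (by omega) h3648
  by_cases h3656 : i < 3664
  · exact allFrom_spec k14_9 (by omega) h3656
  by_cases h3664 : i < 3672
  · exact allFrom_spec k14_10 (by omega) h3664
  by_cases h3672 : i < 3680
  · exact allFrom_spec k14_11 (by omega) h3672
  by_cases h3680 : i < 3688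
  · exact allFrom_spec k14_12 (by omega) h3680
  by_cases h3688 : i < 3696
  · exact allFrom_spec k14_13 (by omega) h3688
  by_cases h3696 : i < 3704
  · exact allFrom_spec k14_14 (by omega) h3696
  by_cases h3704 : i < 3712
  · exact allFrom_spec k14_15 (by omega) h3704
  by_cases h3712 : i < 3720
  · exact allFrom_spec k14_16 (by omega) h3712
  by_cases h3720 : i < 3728
  · exact allFrom_spec k14_17 (by omega) h3720
  by_cases h3728 : i < 3736
  · exact allFrom_spec k14_18 (by omega) h3728
  by_cases h3736 : i < 3744
  · exact allFrom_spec k14_19 (by omega) h3736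
  by_cases h3744 : i < 3752
  · exact allFrom_spec k14_20 (by omega) h3744
  by_cases h3752 : i < 3760
  · exact allFrom_spec k14_21 (by omega) h3752
  by_cases h3760 : i < 3768
  · exact allFrom_spec k14_22 (by omega) h3760
  by_cases h3768 : i < 3776
  · exact allFrom_spec k14_23 (by omega) h3768
  by_cases h3776 : i < 3784
  · exact allFrom_spec k14_24 (by omega) h3776
  by_cases h3784 : i < 3792
  · exact allFrom_spec k14_25 (by omega) h3784
  by_cases h3792 : i < 3800
  · exact allFrom_spec k14_26 (by omega) h3792
  by_cases h3800 : i < 3808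
  · exact allFrom_spec k14_27 (by omega) h3800
  by_cases h3808 : i < 3816
  · exact allFrom_spec k14_28 (by omega) h3808
  by_cases h3816 : i < 3824
  · exact allFrom_spec k14_29 (by omega) h3816
  by_cases h3824 : i < 3832
  · exact allFrom_spec k14_30 (by omega) h3824
  exact allFrom_spec k14_31 (by omega) hi

theorem all15 : ∀ i, 3840 ≤ i → i < 4096 → Fast.checkOne W cert i = true := by
  intro i h0 hi
  by_cases h3840 : i < 3848
  · exact allFrom_spec k15_0 (by omega) h3840
  by_cases h3848 : i < 3856
  · exact allFrom_spec k15_1 (by omega) h3848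
  by_cases h3856 : i < 3864
  · exact allFrom_spec k15_2 (by omega) h3856
  by_cases h3864 : i < 3872
  · exact allFrom_spec k15_3 (by omega) h3864
  by_cases h3872 : i < 3880
  · exact allFrom_spec k15_4 (by omega) h3872
  by_cases h3880 : i < 3888
  · exact allFrom_spec k15_5 (by omega) h3880
  by_cases h3888 : i < 3896
  · exact allFrom_spec k15_6 (by omega) h3888
  by_cases h3896 : i < 3904
  · exact allFrom_spec k15_7 (by omega) h3896
  by_cases h3904 : i < 3912
  · exact allFrom_spec k15_8 (by omega) h3904
  by_cases h3912 : i < 3920
  · exact allFrom_spec k15_9 (by omega) h3912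
  by_cases h3920 : i < 3928
  · exact allFrom_spec k15_10 (by omega) h3920
  by_cases h3928 : i < 3936
  · exact allFrom_spec k15_11 (by omega) h3928
  by_cases h3936 : i < 3944
  · exact allFrom_spec k15_12 (by omega) h3936
  by_cases h3944 : i < 3952
  · exact allFrom_spec k15_13 (by omega) h3944
  by_cases h3952 : i < 3960
  · exact allFrom_spec k15_14 (by omega) h3952
  by_cases h3960 : i < 3968
  · exact allFrom_spec k15_15 (by omega) h3960
  by_cases h3968 : i < 3976
  · exact allFrom_spec k15_16 (by omega) h3968
  by_cases h3976 : i < 3984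
  · exact allFrom_spec k15_17 (by omega) h3976
  by_cases h3984 : i < 3992
  · exact allFrom_spec k15_18 (by omega) h3984
  by_cases h3992 : i < 4000
  · exact allFrom_spec k15_19 (by omega) h3992
  by_cases h4000 : i < 4008
  · exact allFrom_spec k15_20 (by omega) h4000
  by_cases h4008 : i < 4016
  · exact allFrom_spec k15_21 (by omega) h4008
  by_cases h4016 : i < 4024
  · exact allFrom_spec k15_22 (by omega) h4016
  by_cases h4024 : i < 4032
  · exact allFrom_spec k15_23 (by omega) h4024
  by_cases h4032 : i < 4040
  · exact allFrom_spec k15_24 (by omega) h4032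
  by_cases h4040 : i < 4048
  · exact allFrom_spec k15_25 (by omega) h4040
  by_cases h4048 : i < 4056
  · exact allFrom_spec k15_26 (by omega) h4048
  by_cases h4056 : i < 4064
  · exact allFrom_spec k15_27 (by omega) h4056
  by_cases h4064 : i < 4072
  · exact allFrom_spec k15_28 (by omega) h4064
  by_cases h4072 : i < 4080
  · exact allFrom_spec k15_29 (by omega) h4072
  by_cases h4080 : i < 4088
  · exact allFrom_spec k15_30 (by omega) h4080
  exact allFrom_spec k15_31 (by omega) hi

theorem all16 : ∀ i, 4096 ≤ i → i < 4352 → Fast.checkOne W cert i = true := by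
  intro i h0 hi
  by_cases h4096 : i < 4104
  · exact allFrom_spec k16_0 (by omega) h4096
  by_cases h4104 : i < 4112
  · exact allFrom_spec k16_1 (by omega) h4104
  by_cases h4112 : i < 4120
  · exact allFrom_spec k16_2 (by omega) h4112
  by_cases h4120 : i < 4128
  · exact allFrom_spec k16_3 (by omega) h4120
  by_cases h4128 : i < 4136
  · exact allFrom_spec k16_4 (by omega) h4128
  by_cases h4136 : i < 4144
  · exact allFrom_spec k16_5 (by omega) h4136
  by_cases h4144 : i < 4152
  · exact allFrom_spec k16_6 (by omega) h4144
  by_cases h4152 : i < 4160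
  · exact allFrom_spec k16_7 (by omega) h4152
  by_cases h4160 : i < 4168
  · exact allFrom_spec k16_8 (by omega) h4160
  by_cases h4168 : i < 4176
  · exact allFrom_spec k16_9 (by omega) h4168
  by_cases h4176 : i < 4184
  · exact allFrom_spec k16_10 (by omega) h4176
  by_cases h4184 : i < 4192
  · exact allFrom_spec k16_11 (by omega) h4184
  by_cases h4192 : i < 4200
  · exact allFrom_spec k16_12 (by omega) h4192
  by_cases h4200 : i < 4208
  · exact allFrom_spec k16_13 (by omega) h4200
  by_cases h4208 : i < 4216
  · exact allFrom_spec k16_14 (by omega) h4208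
  by_cases h4216 : i < 4224
  · exact allFrom_spec k16_15 (by omega) h4216
  by_cases h4224 : i < 4232
  · exact allFrom_spec k16_16 (by omega) h4224
  by_cases h4232 : i < 4240
  · exact allFrom_spec k16_17 (by omega) h4232
  by_cases h4240 : i < 4248
  · exact allFrom_spec k16_18 (by omega) h4240
  by_cases h4248 : i < 4256
  · exact allFrom_spec k16_19 (by omega) h4248
  by_cases h4256 : i < 4264
  · exact allFrom_spec k16_20 (by omega) h4256
  by_cases h4264 : i < 4272
  · exact allFrom_spec k16_21 (by omega) h4264
  by_cases h4272 : i < 4280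
  · exact allFrom_spec k16_22 (by omega) h4272
  by_cases h4280 : i < 4288
  · exact allFrom_spec k16_23 (by omega) h4280
  by_cases h4288 : i < 4296
  · exact allFrom_spec k16_24 (by omega) h4288
  by_cases h4296 : i < 4304
  · exact allFrom_spec k16_25 (by omega) h4296
  by_cases h4304 : i < 4312
  · exact allFrom_spec k16_26 (by omega) h4304
  by_cases h4312 : i < 4320
  · exact allFrom_spec k16_27 (by omega) h4312
  by_cases h4320 : i < 4328
  · exact allFrom_spec k16_28 (by omega) h4320
  by_cases h4328 : i < 4336
  · exact allFrom_spec k16_29 (by omega) h4328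
  by_cases h4336 : i < 4344
  · exact allFrom_spec k16_30 (by omega) h4336
  exact allFrom_spec k16_31 (by omega) hi

theorem all17 : ∀ i, 4352 ≤ i → i < 4608 → Fast.checkOne W cert i = true := by
  intro i h0 hi
  by_cases h4352 : i < 4360
  · exact allFrom_spec k17_0 (by omega) h4352
  by_cases h4360 : i < 4368
  · exact allFrom_spec k17_1 (by omega) h4360
  by_cases h4368 : i < 4376
  · exact allFrom_spec k17_2 (by omega) h4368
  by_cases h4376 : i < 4384
  · exact allFrom_spec k17_3 (by omega) h4376
  by_cases h4384 : i < 4392
  · exact allFrom_spec k17_4 (by omega) h4384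
  by_cases h4392 : i < 4400
  · exact allFrom_spec k17_5 (by omega) h4392
  by_cases h4400 : i < 4408
  · exact allFrom_spec k17_6 (by omega) h4400
  by_cases h4408 : i < 4416
  · exact allFrom_spec k17_7 (by omega) h4408
  by_cases h4416 : i < 4424
  · exact allFrom_spec k17_8 (by omega) h4416
  by_cases h4424 : i < 4432
  · exact allFrom_spec k17_9 (by omega) h4424
  by_cases h4432 : i < 4440
  · exact allFrom_spec k17_10 (by omega) h4432
  by_cases h4440 : i < 4448
  · exact allFrom_spec k17_11 (by omega) h4440
  by_cases h4448 : i < 4456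
  · exact allFrom_spec k17_12 (by omega) h4448
  by_cases h4456 : i < 4464
  · exact allFrom_spec k17_13 (by omega) h4456
  by_cases h4464 : i < 4472
  · exact allFrom_spec k17_14 (by omega) h4464
  by_cases h4472 : i < 4480
  · exact allFrom_spec k17_15 (by omega) h4472
  by_cases h4480 : i < 4488
  · exact allFrom_spec k17_16 (by omega) h4480
  by_cases h4488 : i < 4496
  · exact allFrom_spec k17_17 (by omega) h4488
  by_cases h4496 : i < 4504
  · exact allFrom_spec k17_18 (by omega) h4496
  by_cases h4504 : i < 4512
  · exact allFrom_spec k17_19 (by omega) h4504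
  by_cases h4512 : i < 4520
  · exact allFrom_spec k17_20 (by omega) h4512
  by_cases h4520 : i < 4528
  · exact allFrom_spec k17_21 (by omega) h4520
  by_cases h4528 : i < 4536
  · exact allFrom_spec k17_22 (by omega) h4528
  by_cases h4536 : i < 4544
  · exact allFrom_spec k17_23 (by omega) h4536
  by_cases h4544 : i < 4552
  · exact allFrom_spec k17_24 (by omega) h4544
  by_cases h4552 : i < 4560
  · exact allFrom_spec k17_25 (by omega) h4552
  by_cases h4560 : i < 4568
  · exact allFrom_spec k17_26 (by omega) h4560
  by_cases h4568 : i < 4576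
  · exact allFrom_spec k17_27 (by omega) h4568
  by_cases h4576 : i < 4584
  · exact allFrom_spec k17_28 (by omega) h4576
  by_cases h4584 : i < 4592
  · exact allFrom_spec k17_29 (by omega) h4584
  by_cases h4592 : i < 4600
  · exact allFrom_spec k17_30 (by omega) h4592
  exact allFrom_spec k17_31 (by omega) hi

theorem all18 : ∀ i, 4608 ≤ i → i < 4864 → Fast.checkOne W cert i = true := by
  intro i h0 hi
  by_cases h4608 : i < 4616
  · exact allFrom_spec k18_0 (by omega) h4608
  by_cases h4616 : i < 4624
  · exact allFrom_spec k18_1 (by omega) h4616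
  by_cases h4624 : i < 4632
  · exact allFrom_spec k18_2 (by omega) h4624
  by_cases h4632 : i < 4640
  · exact allFrom_spec k18_3 (by omega) h4632
  by_cases h4640 : i < 4648
  · exact allFrom_spec k18_4 (by omega) h4640
  by_cases h4648 : i < 4656
  · exact allFrom_spec k18_5 (by omega) h4648
  by_cases h4656 : i < 4664
  · exact allFrom_spec k18_6 (by omega) h4656
  by_cases h4664 : i < 4672
  · exact allFrom_spec k18_7 (by omega) h4664
  by_cases h4672 : i < 4680
  · exact allFrom_spec k18_8 (by omega) h4672
  by_cases h4680 : i < 4688
  · exact allFrom_spec k18_9 (by omega) h4680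
  by_cases h4688 : i < 4696
  · exact allFrom_spec k18_10 (by omega) h4688
  by_cases h4696 : i < 4704
  · exact allFrom_spec k18_11 (by omega) h4696
  by_cases h4704 : i < 4712
  · exact allFrom_spec k18_12 (by omega) h4704
  by_cases h4712 : i < 4720
  · exact allFrom_spec k18_13 (by omega) h4712
  by_cases h4720 : i < 4728
  · exact allFrom_spec k18_14 (by omega) h4720
  by_cases h4728 : i < 4736
  · exact allFrom_spec k18_15 (by omega) h4728
  by_cases h4736 : i < 4744
  · exact allFrom_spec k18_16 (by omega) h4736
  by_cases h4744 : i < 4752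
  · exact allFrom_spec k18_17 (by omega) h4744
  by_cases h4752 : i < 4760
  · exact allFrom_spec k18_18 (by omega) h4752
  by_cases h4760 : i < 4768
  · exact allFrom_spec k18_19 (by omega) h4760
  by_cases h4768 : i < 4776
  · exact allFrom_spec k18_20 (by omega) h4768
  by_cases h4776 : i < 4784
  · exact allFrom_spec k18_21 (by omega) h4776
  by_cases h4784 : i < 4792
  · exact allFrom_spec k18_22 (by omega) h4784
  by_cases h4792 : i < 4800
  · exact allFrom_spec k18_23 (by omega) h4792
  by_cases h4800 : i < 4808
  · exact allFrom_spec k18_24 (by omega) h4800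
  by_cases h4808 : i < 4816
  · exact allFrom_spec k18_25 (by omega) h4808
  by_cases h4816 : i < 4824
  · exact allFrom_spec k18_26 (by omega) h4816
  by_cases h4824 : i < 4832
  · exact allFrom_spec k18_27 (by omega) h4824
  by_cases h4832 : i < 4840
  · exact allFrom_spec k18_28 (by omega) h4832
  by_cases h4840 : i < 4848
  · exact allFrom_spec k18_29 (by omega) h4840
  by_cases h4848 : i < 4856
  · exact allFrom_spec k18_30 (by omega) h4848
  exact allFrom_spec k18_31 (by omega) hi

theorem all19 : ∀ i, 4864 ≤ i → i < 4995 → Fast.checkOne W cert i = true := by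
  intro i h0 hi
  by_cases h4864 : i < 4872
  · exact allFrom_spec k19_0 (by omega) h4864
  by_cases h4872 : i < 4880
  · exact allFrom_spec k19_1 (by omega) h4872
  by_cases h4880 : i < 4888
  · exact allFrom_spec k19_2 (by omega) h4880
  by_cases h4888 : i < 4896
  · exact allFrom_spec k19_3 (by omega) h4888
  by_cases h4896 : i < 4904
  · exact allFrom_spec k19_4 (by omega) h4896
  by_cases h4904 : i < 4912
  · exact allFrom_spec k19_5 (by omega) h4904
  by_cases h4912 : i < 4920
  · exact allFrom_spec k19_6 (by omega) h4912
  by_cases h4920 : i < 4928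
  · exact allFrom_spec k19_7 (by omega) h4920
  by_cases h4928 : i < 4936
  · exact allFrom_spec k19_8 (by omega) h4928
  by_cases h4936 : i < 4944
  · exact allFrom_spec k19_9 (by omega) h4936
  by_cases h4944 : i < 4952
  · exact allFrom_spec k19_10 (by omega) h4944
  by_cases h4952 : i < 4960
  · exact allFrom_spec k19_11 (by omega) h4952
  by_cases h4960 : i < 4968
  · exact allFrom_spec k19_12 (by omega) h4960
  by_cases h4968 : i < 4976
  · exact allFrom_spec k19_13 (by omega) h4968
  by_cases h4976 : i < 4984
  · exact allFrom_spec k19_14 (by omega) h4976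
  by_cases h4984 : i < 4992
  · exact allFrom_spec k19_15 (by omega) h4984
  exact allFrom_spec k19_16 (by omega) hi

theorem all : ∀ i < 4995, Ck3.checkOne W cert i = true := by
  intro i hi
  rw [← Fast.checkOne_eq]
  by_cases h0 : i < 256
  · exact all0 i (by omega) h0
  by_cases h1 : i < 512
  · exact all1 i (by omega) h1
  by_cases h2 : i < 768
  · exact all2 i (by omega) h2
  by_cases h3 : i < 1024
  · exact all3 i (by omega) h3
  by_cases h4 : i < 1280
  · exact all4 i (by omega) h4
  by_cases h5 : i < 1536
  · exact all5 i (by omega) h5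
  by_cases h6 : i < 1792
  · exact all6 i (by omega) h6
  by_cases h7 : i < 2048
  · exact all7 i (by omega) h7
  by_cases h8 : i < 2304
  · exact all8 i (by omega) h8
  by_cases h9 : i < 2560
  · exact all9 i (by omega) h9
  by_cases h10 : i < 2816
  · exact all10 i (by omega) h10
  by_cases h11 : i < 3072
  · exact all11 i (by omega) h11
  by_cases h12 : i < 3328
  · exact all12 i (by omega) h12
  by_cases h13 : i < 3584
  · exact all13 i (by omega) h13
  by_cases h14 : i < 3840
  · exact all14 i (by omega) h14
  by_cases h15 : i < 4096
  · exact all15 i (by omega) h15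
  by_cases h16 : i < 4352
  · exact all16 i (by omega) h16
  by_cases h17 : i < 4608
  · exact all17 i (by omega) h17
  by_cases h18 : i < 4864
  · exact all18 i (by omega) h18
  exact all19 i (by omega) hi

theorem root_s : (cert 4994).1 = [.tok .s 0 0, .gap] := rfl
theorem root_p : (cert 4034).1 = [.tok .p 0 0, .gap] := rfl

theorem solved (k : Kd) : Solved W [.tok k 0 0, .gap] := by
  have key := Ck3.chk W cert 4995 ⟨by decide, by decide, by decide⟩ all
  cases k with
  | s => rw [← root_s]; exact key _ (by decide)
  | p => rw [← root_p]; exact key _ (by decide)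
  | m =>
    have h := key 4034 (by decide)
    rw [root_p] at h
    exact Mir.solved_mir h

end Pool.Agent.H63.PU.C161
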