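import Pool.Agent.H63.PU.Ck3

/-! Certificate data, machine generated. -/

namespace Pool.Agent.H63.PU.C161

open Pool.Agent.H63.PU Pool.Agent.H63.PU.Ck3 Pool.Agent.H63.PU.Short

set_option maxRecDepth 20000

def d01_0 : List (List Item × Qry × List Rf) := [
([p 2 1, p 3 2, g, p 5 3, s 0 4, g, p 0 5, g, s 4 0, g, s 1 0, g], .top 2, [.r 255 [1, 2, 3, 4, 5] [1, 1, 1, 1], .r 212 [1, 2, 3, 4] [1, 3, 1, 1], .r 121 [1, 2, 3] [1, 6, 1], .r 112 [1, 2] [8, 1]]),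
([p 1 0, p 2 1, g, p 4 2, s 0 3, g, p 0 4, g, s 3 0, g], .hi 0, [.r 70 [5, 1, 2] [1, 1, 6], .l [0, 2], .l [3, 2], .l [1, 3, 2, 2, 1], .r 239 [5, 1, 2, 4] [1, 1, 1, 3], .l [0, 5], .l [6, 5], .y [0, 6, 3, 1], .r 217 [5, 1, 2, 3, 4] [1, 1, 1, 1, 1], .l [0, 7], .l [8, 7], .r 256 [5, 1, 2, 3, 4] [1, 1, 1, 1, 1], .l [0, 9], .l [10, 9]]),
([p 2 1, p 3 2, g, p 5 3, s 0 4, g, p 0 5, g, m 4 0, g, s 1 0, g], .lo 4, [.l [3, 5, 2], .l [3, 5, 2], .l [1, 5, 4, 10, 8, 2, 7], .r 224 [1, 2, 3, 6, 5] [1, 1, 1, 3, 1], .l [6, 1, 7, 4, 4, 2, 7], .l [12, 11, 11, 10, 10, 8, 1], .l [2, 8, 3, 8, 4, 1, 1, 0, 3], .l [1, 8, 3, 4, 2, 7, 5, 2, 5], .l [12, 11, 11, 10, 10, 8, 3], .y [4, 8], .l [2, 8, 3, 8, 4, 1, 1, 0, 3], .l [1, 8, 3, 4, 2,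 7, 5, 2, 5], .l [12, 11, 11, 10, 10, 8, 5], .l [10, 9, 9, 8, 8, 6, 5], .l [2, 8, 3, 10, 6, 1, 1, 0, 5], .l [0, 9, 11, 5, 7, 6, 8, 3, 6, 0, 3], .l [10, 9, 9, 8, 8, 6, 7]]),
([p 1 0, p 2 1, g, p 4 2, s 0 3, g, p 0 4, g, m 3 0, g], .hi 0, [.l [4, 5, 1, 2, 8, 3, 6, 0, 3], .l [0, 2], .l [3, 2], .l [0, 3, 5, 4, 6, 3, 4, 0, 1], .l [1, 3, 2, 4, 8, 6, 1], .l [0, 5], .l [6, 5], .y [0, 6, 3, 1], .l [1, 3, 2, 6, 8, 4, 1], .l [0, 7], .l [8, 7], .r 258 [5, 1, 2, 3, 4] [1, 1, 1, 1, 1], .l [0, 9], .l [10, 9]]),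
([p 2 1, p 3 2, g, p 6 3, s 0 4, g, m 0 5, g, m 5 0, s 4 0, g, p 0 6, g, s 1 0, g], .hi 8, [.l [9, 13, 8, 8, 4, 11, 1, 8, 2, 8, 3], .l [0, 14, 11, 6, 6, 4, 8, 5, 8, 2, 3, 1, 5], .l [3, 9], .l [4, 8, 0, 7, 9, 8, 8, 6, 7, 5, 1, 3, 3], .l [9, 13, 6, 6, 4, 11, 1, 8, 2, 8, 1], .l [3, 13, 12, 12, 10, 11, 8, 3, 3, 1, 5, 6, 3], .l [6, 9], .y [6, 8], .l [7, 13, 8, 8, 6, 11, 1, 6, 2, 8, 1], .l [0, 14, 6, 1, 9, 4, 1, 5, 7, 4, 5, 1, 4], .l [8, 9], .l [7, 13, 8, 8, 6, 11, 1, 8, 4, 8, 5], .l [3, 13, 12, 12, 10, 11, 6, 2, 4, 7, 3, 1, 2], .l [7, 13, 8, 8, 6, 11, 1, 8, 8, 5, 1, 6, 3], .l [3, 11, 10, 10, 8, 9, 4, 2, 2, 5, 3, 1, 2], .l [7, 11, 6, 6, 4, 11, 3, 8, 2, 8, 1], .l [6, 11, 7, 7, 5, 12, 3, 8, 3, 7, 1, 5, 5], .l [15, 14,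 14, 13, 13, 11, 4, 8, 7, 7, 5, 7, 3], .l [7, 11, 6, 6, 4, 9, 1, 6, 2, 6, 7], .l [2, 3, 1, 11, 4, 11, 2, 0, 5], .l [7, 11, 6, 6, 4, 9, 1, 6, 9, 2, 5]]),
([p 2 1, p 3 2, g, p 5 3, s 0 4, g, m 0 0, s 4 0, g, p 0 5, g, s 1 0, g], .lo 6, [.l [6, 8, 4, 6, 4, 9], .l [8, 4], .l [5, 11, 10, 10, 6, 6, 5, 2, 5], .l [8, 1, 10, 5, 5, 3, 8], .l [8, 1], .r 260 [1, 2, 3, 4, 6, 5] [1, 1, 1, 1, 1, 1], .y [6], .c, .l [4, 6, 7, 9, 6, 6, 4, 7], .l [9, 2], .l [6, 8], .l [13, 12, 12, 11, 11, 9, 2, 5], .l [11, 4], .l [6, 10], .l [11, 10, 10, 9, 9, 7, 2, 5], .l [11, 10, 10, 9, 9, 7, 2, 7], .l [13, 6], .l [6, 12]]),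
([p 2 1, p 3 2, g, p 6 3, s 0 4, g, p 5 0, g, p 0 5, s 4 0, g, p 0 6, g, s 1 0, g], .lo 8, [.l [9, 13, 8, 8, 4, 11, 1, 8, 2, 8, 3], .l [3, 9], .l [0, 14, 11, 6, 6, 4, 8, 5, 8, 2, 3, 1, 5], .l [9, 13, 6, 6, 4, 11, 1, 8, 2, 8, 1], .l [6, 9], .l [3, 13, 12, 12, 10, 11, 8, 3, 3, 1, 5, 6, 3], .y [6, 8], .l [7, 13, 8, 8, 6, 11, 1, 6, 2, 8, 1], .l [8, 9], .l [0, 14, 6, 1, 9, 4, 1, 5, 7, 4, 5, 1, 4], .l [7, 11, 6, 6, 4, 9, 1, 6, 2, 6, 3], .l [7, 13, 8, 8, 6, 11, 1, 8, 4, 8, 5], .l [7, 13, 8, 8, 6, 11, 1, 8, 8, 5, 1, 6, 3], .l [3, 13, 12, 12, 10, 11, 6, 2, 4, 7, 3, 1, 2], .l [7, 11, 6, 6, 4, 11, 3, 8, 2, 8, 1], .l [15, 14, 14, 13, 13, 11, 4, 8, 7, 7, 5, 7, 3], .l [6, 11, 7, 7, 5, 12, 3, 8, 3, 7, 1, 5, 5], .l [7, 11, 6,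 6, 4, 9, 1, 6, 7, 0, 3], .l [7, 11, 6, 6, 4, 9, 1, 6, 2, 6, 7], .l [7, 11, 6, 6, 4, 9, 1, 6, 9, 2, 5], .l [2, 3, 1, 11, 4, 11, 2, 0, 5]]),
([p 2 1, p 3 2, g, p 5 3, s 0 4, g, p 0 0, s 4 0, g, p 0 5, g, s 1 0, g], .hi 6, [.l [6, 8, 4, 6, 4, 9], .l [5, 11, 10, 10, 6, 6, 5, 2, 5], .l [8, 4], .l [3, 9, 8, 8, 6, 6, 5, 2, 1], .l [8, 1, 10, 5, 5, 3, 8], .r 262 [1, 2, 3, 4, 6, 5] [1, 1, 1, 1, 1, 1], .l [8, 1], .y [6], .l [4, 6, 7, 9, 6, 6, 4, 7], .l [6, 8], .l [9, 2], .l [6, 8], .l [13, 12, 12, 11, 11, 9, 2, 5], .l [6, 10], .l [11, 4], .l [11, 10, 10, 9, 9, 7, 2, 7], .l [6, 12], .l [13, 6]]),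
([p 2 1, p 3 2, g, p 6 3, s 0 4, g, p 5 0, g, s 0 5, g, s 4 0, g, p 0 6, g, s 1 0, g], .lo 4, [.l [3, 5, 2], .l [3, 5, 2], .l [12, 5, 13, 6, 1, 5, 2], .l [12, 7, 13, 4, 9, 1, 9, 5, 2, 7], .l [6, 1, 13, 10, 10, 8, 11], .l [16, 15, 15, 14, 14, 12, 1], .l [6, 1, 11, 8, 8, 6, 9], .l [8, 3, 13, 8, 11, 6, 1, 2, 6, 7], .l [8, 3, 13, 8, 8, 6, 11], .l [16, 15, 15, 14, 14, 12, 3], .l [10, 5, 13, 6, 11, 1, 6, 2, 6, 7], .l [10, 5, 13, 6, 6, 4, 11], .l [16, 15, 15, 14, 14, 12, 5], .y [4, 10], .l [10, 5, 13, 6, 11, 1, 6, 2, 6, 7], .l [12, 7, 13, 4, 4, 2, 11], .l [16, 15, 15, 14, 14, 12, 7], .l [10, 5, 11, 4, 9, 1, 9, 5, 2, 7], .l [10, 5, 11, 4, 9, 1, 9, 5, 2, 7], .l [16, 15, 15, 14, 14, 12, 9], .l [14, 13, 13, 12, 12, 10,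 9], .l [10, 5, 11, 4, 9, 1, 11, 7, 2, 3], .l [1, 3, 2, 12, 14, 4, 1], .l [14, 13, 13, 12, 12, 10, 11]]),
([p 2 1, p 3 2, g, p 5 3, s 0 4, g, s 0 0, s 4 0, g, p 0 5, g, s 1 0, g], .hi 6, [.l [6, 8, 4, 6, 4, 9], .l [6, 8, 4, 6, 4, 9], .l [13, 12, 12, 11, 11, 7, 2, 7], .l [4, 6, 5, 7, 6, 6, 4, 5], .l [13, 12, 12, 11, 11, 9, 4, 1], .r 264 [1, 2, 3, 4, 6, 5] [1, 1, 1, 0, 1, 1, 1], .l [8, 1, 10, 5, 5, 3, 8], .y [6], .l [4, 6, 7, 9, 6, 6, 4, 7], .l [4, 6, 7, 9, 6, 6, 4, 7], .l [9, 2, 3, 9, 4, 4, 2, 7], .l [4, 6, 7, 7, 4, 4, 2, 5], .l [13, 12, 12, 11, 11, 9, 2, 5], .l [13, 12, 12, 11, 11, 9, 2, 5], .l [4, 9, 7, 10, 5, 2, 6, 7], .l [11, 10, 10, 9, 9, 7, 2, 7], .l [11, 10, 10, 9, 9, 7, 2, 7], .l [4, 9, 7, 12, 7, 2, 8,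 3]]),
([p 2 1, p 3 2, g, p 5 3, s 0 4, g, s 4 0, g, p 0 5, g, s 1 0, g], .bot 5, [.c, .r 265 [1, 2, 3, 4, 5] [1, 1, 1, 1, 1], .r 263 [1, 2, 3, 4, 5] [1, 1, 1, 1, 1], .r 261 [1, 2, 3, 4, 5] [1, 1, 1, 1, 1]]),
([p 1 0, p 2 1, g, p 4 2, s 0 3, g, s 3 0, g, p 0 4, g], .hi 0, [.r 70 [5, 1, 2] [1, 1, 6], .l [0, 2], .l [3, 2], .l [1, 3, 2, 2, 1], .r 214 [5, 1, 2, 3, 4] [1, 1, 1, 1, 1], .l [0, 5], .l [6, 5], .r 213 [5, 1, 2, 3, 4] [1, 1, 1, 1, 1], .l [0, 7], .l [8, 7], .y [0, 8, 3, 1], .r 266 [5, 1, 2, 3, 4] [1, 1, 1, 1, 1], .l [0, 9], .l [10, 9]]),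
([p 1 0, p 2 1, g, p 0 2, s 0 3, g, p 3 0, g], .hi 0, [.l [6, 3, 5, 2, 5], .l [0, 2], .l [3, 2], .y [0, 3, 1], .l [1, 3, 2, 2, 1], .l [6, 5, 5, 4, 4, 2, 3], .l [0, 5], .l [6, 5], .l [8, 7, 7, 6, 6, 4, 1], .l [0, 7], .l [8, 7]]),
([p 1 0, p 2 1, g, p 3 0, g, p 0 2, s 0 3, g], .hi 0, [.l [5, 0, 7, 2, 3], .l [0, 2], .l [3, 2], .l [0, 4, 1, 5, 2], .l [0, 4], .l [5, 4], .y [0, 5, 1], .l [1, 5, 4, 4, 3], .l [1, 5, 4, 6, 4, 2, 3], .l [0, 7], .l [8, 7]]),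
([p 1 0, p 2 1, g, p 3 2, s 0 0, g, p 0 3, g], .hi 4, [.l [3, 5, 2], .r 269 [1, 2, 4] [1, 1, 3], .l [3, 5, 2], .y [4], .r 267 [1, 2, 4, 3] [1, 1, 1, 1], .r 268 [1, 2, 4] [1, 1, 3], .r 205 [2, 4, 3] [1, 0, 1, 1, 1], .r 268 [1, 2, 4] [1, 1, 1], .r 257 [1, 2, 4, 3] [1, 1, 1, 1], .r 268 [1, 2, 4] [1, 3, 1], .r 259 [1, 2, 4, 3] [1, 1, 1, 1]]),
([p 1 0, p 2 1, g, p 0 2, p 3 0, g, s 0 3, g], .hi 0, [.l [6, 3, 5, 2, 5], .l [0, 2], .l [3, 2], .y [0, 3, 1], .l [6, 5, 5, 4, 4, 2, 3], .l [0, 5], .l [6, 5], .l [1, 3, 2, 4, 4, 2, 1], .l [8, 7, 7, 6, 6, 4, 1], .l [0, 7], .l [8, 7]]),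
([p 2 1, p 3 2, g, p 4 3, p 5 4, g, p 0 0, p 6 5, g, p 0 6, g, s 1 0, g], .hi 6, [.l [6, 9, 8, 8, 7, 7, 3, 8, 3, 4, 1], .l [6, 9, 8, 8, 7, 7, 3, 8, 3, 4, 1], .l [8, 4], .l [8, 1, 8, 4, 4, 3, 3, 1, 6], .l [6, 9, 6, 6, 5, 5, 3, 8, 3, 4, 1], .l [8, 1], .y [6], .l [9, 2, 4, 3, 9, 5, 5, 4, 4, 2, 5], .l [6, 8], .l [9, 2], .l [6, 8], .l [0, 6, 10, 5, 0, 1, 5, 3, 1, 2, 5], .l [6, 10], .l [11, 4], .l [0, 6, 12, 7, 0, 1, 7, 5, 1, 4, 1], .l [6, 12], .l [13, 6]]),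
([p 1 0, p 2 1, g, p 3 2, p 4 3, g, p 0 0, p 5 4, g, p 0 5, g], .hi 0, [.r 70 [6, 1, 2] [1, 1, 7], .l [0, 2], .l [3, 2], .l [1, 3, 2, 4, 7, 5, 1], .l [0, 5], .l [6, 5], .l [0, 5], .l [1, 3, 2, 7, 9, 7, 7, 4, 1], .l [0, 8], .l [9, 8], .y [0, 9, 7, 4, 3, 1], .r 272 [6, 1, 2, 3, 4, 5] [1, 1, 1, 1, 1], .l [0, 10], .l [11, 10]]),
([p 2 1, p 3 2, g, p 4 3, p 5 4, g, p 0 0, p 6 5, g, s 0 6, g, s 1 0, g], .hi 6, [.l [8, 4, 6, 4, 4, 3, 6, 2, 2, 0, 3], .l [6, 9, 8, 8, 7, 7, 3, 8, 3, 4, 1], .l [8, 4], .l [8, 1, 8, 4, 4, 3, 3, 1, 6], .l [6, 9, 6, 6, 5, 5, 3, 8, 3, 4, 1], .l [8, 1], .y [6], .l [9, 2, 9], .l [6, 8], .l [9, 2], .l [9, 2, 1], .l [11, 4, 1], .l [6, 10], .l [11, 4], .l [13, 6, 1], .l [6, 12], .l [13, 6]]),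
([p 2 1, p 3 2, g, p 4 3, p 6 4, g, s 5 0, g, s 0 5, p 7 6, g, s 0 7, g, s 1 0, g], .lo 8, [.l [3, 9, 10, 6, 2], .l [3, 9, 10, 6, 2], .l [9, 11, 7, 7, 6, 6, 2, 2, 1, 4, 1, 2, 3], .l [6, 9, 14, 10, 10, 9, 11, 6, 1, 3, 6, 3], .l [7, 11, 7, 7, 6, 6, 4, 4, 3, 1, 4, 2, 3], .l [9, 11, 5, 5, 4, 4, 2, 2, 1, 4, 1, 2, 3], .y [6, 8], .l [6, 9, 14, 10, 10, 9, 11, 6, 1, 3, 6, 3], .l [10, 1, 10, 4, 4, 3, 3, 1, 8], .l [7, 11, 7, 7, 6, 6, 4, 9, 3, 4, 0, 6, 1], .l [11, 2, 11, 13, 11, 11, 10, 10, 8, 5], .l [5, 9, 7, 7, 6, 6, 4, 4, 3, 1, 4, 2, 3], .l [8, 1, 8, 4, 4, 3, 3, 1, 1, 0, 5, 1, 1], .l [7, 9, 5, 7, 2, 7, 1, 5, 9, 6, 1, 3, 4, 1], .l [5, 9, 7, 7, 6, 6, 4, 4, 3, 1, 6, 4, 1], .l [8, 1, 8, 4, 4, 3, 3, 1, 3, 6, 4, 0, 1], .l [1,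 3, 2, 11, 11, 6, 7, 3, 1], .l [13, 12, 12, 11, 13, 6, 1, 3, 8, 5], .l [5, 9, 7, 7, 6, 6, 4, 4, 3, 1, 8, 6, 1], .l [8, 1, 8, 4, 4, 3, 3, 1, 3, 8, 6, 0, 1]]),
([p 2 1, p 3 2, g, p 4 3, p 6 4, g, p 5 0, g, s 0 5, g, p 0 6, g, s 1 0, g], .hi 6, [.l [7, 12, 10, 10, 9, 9, 5, 8, 1, 5, 3, 4, 1], .l [7, 12, 10, 10, 9, 9, 5, 8, 1, 5, 3, 4, 1], .l [8, 4], .l [8, 1, 11, 7, 7, 6, 6, 4, 7], .l [7, 12, 8, 8, 7, 7, 5, 8, 1, 5, 3, 4, 1], .l [8, 1], .l [8, 1, 11, 7, 7, 6, 6, 4, 7], .l [6, 7], .l [8, 1], .y [6, 8], .l [10, 3, 11, 5, 5, 4, 4, 2, 7], .l [6, 9], .l [10, 3], .l [6, 9], .l [5, 10, 8, 8, 7, 7, 5, 8, 1, 5, 3, 4, 1], .l [6, 11], .l [12, 5], .l [2, 3, 1, 10, 5, 1, 5, 1, 3, 6, 2, 0, 1], .l [6, 13], .l [14, 7]]),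
([p 2 1, p 3 2, g, p 4 3, p 6 4, g, s 0 5, p 7 6, g, s 0 7, g, s 5 0, g, s 1 0, g], .lo 6, [.l [3, 7, 8, 6, 2], .l [3, 7, 8, 6, 2], .l [7, 9, 7, 7, 6, 6, 2, 2, 1, 6, 3, 4, 1], .l [7, 9, 5, 7, 2, 7, 1, 5, 9, 6, 1, 3, 4, 1], .l [8, 1, 8, 4, 4, 3, 3, 1, 8], .l [7, 9, 5, 5, 4, 4, 2, 2, 1, 6, 3, 4, 1], .l [9, 2, 9, 13, 11, 11, 10, 10, 8, 3], .l [9, 2, 9], .l [5, 7, 5, 5, 4, 4, 2, 2, 1, 6, 3, 4, 1], .l [11, 4, 1, 11, 7, 9, 7, 7, 6, 6, 4, 5], .l [11, 4, 1], .l [5, 7, 5, 5, 4, 4, 2, 2, 1, 6, 1, 4, 1], .y [6, 11], .l [11, 4, 1, 11, 7, 9, 7, 7, 6, 6, 4, 5], .l [11, 4, 1, 11, 7, 9, 7, 7, 6, 6, 4, 5], .l [3, 4, 3, 3, 1, 8, 4, 1, 3, 6, 2, 0, 1], .l [1, 3, 2, 11, 1, 4, 1, 8, 4, 6, 4, 1], .l [11, 4, 1, 13, 9, 11, 9, 9, 8, 8,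 6, 1], .l [11, 4, 1, 13, 9, 11, 9, 9, 8, 8, 6, 1], .l [3, 4, 3, 3, 1, 9, 1, 4, 1, 3, 6, 2, 0, 1]]),
([p 2 1, p 3 2, g, p 4 3, p 5 4, g, s 0 0, p 6 5, g, s 0 6, g, s 1 0, g], .hi 6, [.l [3, 7, 8, 6, 2], .l [1, 5, 4, 11, 9, 4, 5, 3, 6], .l [3, 7, 8, 6, 2], .r 275 [1, 2, 3, 4, 7, 5, 6] [1, 1, 1, 1, 1, 1], .r 276 [1, 2, 3, 4, 7, 5] [1, 1, 1, 0, 3, 1], .l [8, 1, 8, 4, 4, 3, 3, 1, 6], .y [6], .l [9, 2, 9, 11, 9, 9, 8, 8, 6, 3], .l [13, 12, 12, 11, 11, 9, 2, 4, 8, 5, 6, 0, 1], .l [9, 2, 9], .l [9, 2, 1], .r 277 [1, 2, 3, 4, 7, 5, 6] [1, 1, 1, 1, 1, 1], .l [6, 10, 4, 11, 3, 9, 3, 8, 5, 1, 5, 1, 3], .l [11, 4, 1], .l [11, 10, 10, 9, 11, 6, 1, 3, 6, 3], .l [3, 4, 3, 3, 1, 7, 4, 7, 2, 0, 3], .l [13, 6, 1]]),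
([p 2 1, p 3 2, g, p 4 3, p 5 4, g, m 0 0, p 6 5, g, s 0 6, g, s 1 0, g], .lo 6, [.l [8, 4, 6, 4, 4, 3, 6, 2, 2, 0, 3], .l [8, 4], .l [6, 9, 8, 8, 7, 7, 3, 8, 3, 4, 1], .l [8, 1, 8, 4, 4, 3, 3, 1, 6], .l [8, 1], .l [6, 9, 6, 6, 5, 5, 3, 8, 3, 4, 1], .y [6], .l [9, 2, 9], .l [9, 2], .l [6, 8], .l [11, 4, 1], .l [11, 4], .l [6, 10], .l [11, 10, 10, 9, 9, 7, 2, 6, 6, 1, 2, 0, 1], .l [13, 6, 1], .l [13, 6], .l [6, 12]]),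
([p 2 1, p 3 2, g, p 4 3, p 5 4, g, p 6 5, g, s 0 6, g, s 1 0, g], .bot 5, [.l [9, 8, 8, 7, 7, 5, 5, 4, 1], .r 278 [1, 2, 3, 4, 5, 6] [1, 1, 1, 1, 1], .r 274 [1, 2, 3, 4, 5, 6] [1, 1, 1, 1, 1], .r 279 [1, 2, 3, 4, 5, 6] [1, 1, 1, 1, 1]]),
([p 1 0, p 2 1, g, p 3 2, p 4 3, g, p 5 4, g, s 0 5, g], .hi 0, [.l [7, 4, 5, 2, 2, 1, 4, 2, 2, 0, 1], .l [0, 2], .l [3, 2], .l [1, 3, 2, 4, 6, 4, 1], .l [0, 5], .l [6, 5], .l [1, 3, 2, 6, 8, 6, 6, 4, 1], .l [0, 7], .l [8, 7], .y [0, 8, 6, 4, 3, 1], .r 280 [6, 1, 2, 3, 4, 5] [1, 1, 1, 1, 1], .l [0, 9], .l [10, 9]]),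
([p 2 1, p 3 2, g, p 4 3, p 6 4, g, s 0 5, g, p 5 6, g, s 1 0, g], .lo 6, [.l [3, 7, 7, 7, 7, 5, 2], .l [3, 7, 7, 7, 7, 5, 2], .l [1, 5, 4, 10, 1, 1, 6, 4, 4, 2, 3], .l [5, 10, 8, 8, 7, 7, 5, 6, 3, 1, 1, 2, 1], .l [8, 1, 9, 5, 5, 4, 4, 2, 5], .l [5, 10, 8, 8, 7, 7, 5, 6, 3, 1, 1, 2, 1], .l [2, 8, 1, 10, 4, 7, 5, 6, 2, 4, 2, 0, 1], .l [8, 1, 9, 5, 5, 4, 4, 2, 5], .l [6, 9, 1, 7, 7, 5, 5, 4, 4, 2, 3], .l [5, 8, 6, 6, 5, 5, 3, 6, 1, 3, 1, 2, 1], .l [5, 8, 6, 6, 5, 7, 3, 7, 2, 4, 4, 2, 1], .l [5, 8, 6, 6, 5, 5, 3, 6, 1, 3, 1, 2, 1], .y [0, 10, 6, 8, 4, 3, 1], .l [3, 4, 3, 3, 1, 6, 3, 6, 2, 0, 1, 1, 1], .l [1, 3, 2, 8, 1, 1, 8, 6, 6, 4, 1], .l [2, 3, 1, 8, 3, 1, 3, 1, 1, 4, 2, 0, 1]]),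
([p 1 0, p 2 1, g, p 3 2, p 5 3, g, s 0 4, g, p 4 5, g], .hi 0, [.l [7, 4, 5, 2, 2, 1, 6, 4, 4, 2, 1], .l [0, 2], .l [3, 2], .l [1, 3, 2, 4, 8, 6, 1], .l [0, 5], .l [6, 5], .y [0, 6, 8, 4, 3, 1], .l [1, 3, 2, 6, 8, 4, 1], .l [0, 7], .l [8, 7], .r 282 [6, 1, 2, 3, 4, 5] [1, 1, 1, 1, 1], .l [0, 9], .l [10, 9]]),
([p 1 0, p 2 1, g, p 3 2, p 4 3, g, p 0 0, p 0 4, g], .lo 7, [.y [0, 7, 4, 3, 1], .l [3, 8, 8, 5, 2], .l [3, 8], .l [2, 5, 3, 3, 2, 6], .r 283 [1, 2, 3, 5, 4] [1, 1, 2, 1], .l [6, 8], .l [5, 9, 7, 7, 6, 6, 4, 4, 3, 2], .c, .r 281 [1, 2, 3, 4, 5] [1, 2, 1, 1], .r 273 [1, 2, 3, 4, 5] [1, 1, 1, 1], .l [6, 7, 4, 4, 3, 3, 1, 1, 0, 3]]),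
([p 2 1, p 3 2, p 4 3, p 5 4, p 6 5, p 7 6, m 0 0, g, p 0 7, g, s 1 0, g], .lo 6, [.y [6], .l [8, 1, 9, 6, 6, 5, 5, 4, 4, 3, 3, 2, 4], .l [8, 1], .l [6, 7], .l [1, 6, 9, 5, 1, 9, 2, 5, 7, 5, 2], .l [10, 3], .l [6, 9], .l [0, 9, 6, 7, 6, 8, 5, 1, 2, 5, 2, 0, 2], .l [1, 6, 11, 7, 1, 4, 6, 2, 4, 6, 3], .l [12, 5], .l [6, 11]]),
([p 2 1, p 3 2, p 4 3, p 5 4, p 6 5, p 7 6, p 0 7, g, s 1 0, g], .lo 6, [.l [10, 9, 9, 8, 8, 7, 7, 6, 6, 5, 5, 4, 1], .l [1, 4, 9, 7, 1, 2, 7, 5, 1, 5, 3, 1, 2, 2, 1], .l [5, 6, 5, 5, 4, 4, 3, 3, 2, 2, 1, 1, 0, 1], .y [0, 8, 6, 5, 4, 3, 2, 1], .l [8, 7, 7, 6, 6, 5, 5, 4, 4, 3, 3, 2, 3], .l [0, 7, 9, 7, 7, 6, 6, 5, 5, 4, 4, 3, 0], .l [4, 5, 4, 4, 3, 3, 2, 2, 1, 3, 1, 4, 2, 0, 1]]),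
([p 2 1, p 3 2, p 4 3, p 5 4, p 6 5, g, p 0 6, s 0 7, g, m 7 0, g, s 1 0, g], .lo 7, [.l [6, 8, 5], .l [6, 8, 5], .l [4, 8, 7, 7, 6, 6, 5, 5, 4, 8, 6, 2, 5], .l [13, 12, 12, 11, 11, 10, 10, 9, 9, 8, 8, 6, 1], .l [4, 6, 5, 5, 4, 4, 3, 6, 1, 7, 5, 2, 5], .l [13, 12, 12, 11, 11, 10, 10, 9, 9, 8, 8, 6, 1], .y [7, 9], .l [13, 12, 12, 11, 11, 10, 10, 9, 9, 8, 8, 6, 3], .l [4, 6, 5, 5, 4, 4, 3, 6, 1, 7, 5, 2, 5], .l [13, 12, 12, 11, 11, 10, 10, 9, 9, 8, 8, 6, 3], .l [11, 10, 10, 9, 9, 8, 8, 7, 7, 6, 6, 4, 3], .l [11, 10, 10, 9, 9, 8, 8, 7, 7, 6, 6, 4, 5], .l [4, 6, 5, 5, 4, 4, 3, 3, 2, 6, 8, 4, 1], .l [11, 10, 10, 9, 9, 8, 8, 7, 7, 6, 6, 4, 5]]),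
([p 2 1, p 3 2, p 4 3, p 5 4, p 6 5, g, p 0 6, s 0 0, g, s 1 0, g], .hi 7, [.l [6, 8, 5], .l [4, 8, 7, 7, 6, 6, 5, 5, 4, 6, 4, 2, 3], .l [6, 8, 5], .l [4, 6, 5, 5, 4, 4, 3, 3, 2, 4, 2, 0, 1], .y [7], .l [11, 10, 10, 9, 9, 8, 8, 7, 7, 6, 6, 4, 1], .l [11, 10, 10, 9, 9, 8, 8, 7, 7, 6, 6, 4, 1], .r 287 [1, 2, 3, 4, 5, 6, 7] [1, 1, 1, 1], .l [9, 8, 8, 7, 7, 6, 6, 5, 5, 4, 4, 2, 3], .l [9, 8, 8, 7, 7, 6, 6, 5, 5, 4, 4, 2, 3], .l [4, 6, 5, 5, 4, 4, 3, 3, 2, 4, 6, 4, 1]]),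
([p 2 1, p 3 2, p 4 3, p 5 4, p 6 5, p 7 6, p 0 0, g, p 0 7, g, s 1 0, g], .hi 6, [.y [6], .l [8, 1, 9, 6, 6, 5, 5, 4, 4, 3, 3, 2, 4], .l [6, 7], .l [8, 1], .l [6, 7], .l [1, 6, 9, 5, 1, 9, 2, 5, 7, 5, 2], .l [6, 9], .l [10, 3], .l [1, 6, 11, 7, 1, 4, 6, 2, 4, 6, 3], .l [6, 11], .l [12, 5]]),
([p 2 1, p 3 2, p 4 3, p 5 4, p 6 5, p 7 6, g, p 0 7, g, s 1 0, g], .top 6, [.r 286 [1, 2, 3, 4, 5, 6, 7] [1, 1], .r 288 [1, 2, 3, 4, 5, 6] [0, 3, 1], .r 289 [1, 2, 3, 4, 5, 6, 7] [1, 1, 1], .r 285 [1, 2, 3, 4, 5, 6, 7] [1, 1, 1]]),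
([p 2 1, p 3 2, p 4 3, p 5 4, p 6 5, p 0 6, g, s 1 0, g], .lo 5, [.l [9, 8, 8, 7, 7, 6, 6, 5, 5, 4, 1], .r 290 [1, 2, 3, 4, 5, 6, 7] [1, 1, 1], .l [4, 5, 4, 4, 3, 3, 2, 2, 1, 1, 0, 1], .y [0, 7, 5, 4, 3, 2, 1], .l [7, 6, 6, 5, 5, 4, 4, 3, 3, 2, 3], .l [0, 6, 8, 6, 6, 5, 5, 4, 4, 3, 0], .l [3, 4, 3, 3, 2, 2, 1, 3, 1, 4, 2, 0, 1]]),
([p 2 1, p 3 2, s 0 0, g, p 4 3, p 5 4, g, p 6 5, g, p 0 6, g, s 1 0, g], .hi 2, [.y [2], .l [13, 12, 12, 11, 1, 10, 6, 6, 5, 5, 3, 3, 1], .l [3, 6, 3, 3, 2, 2, 9], .l [4, 1, 5, 2, 10], .l [2, 6, 8, 6, 2], .l [1, 4, 3, 3, 2, 4, 6, 4, 7], .l [1, 7, 4, 12, 6, 9, 6], .l [2, 8, 10, 8, 8, 6, 2], .l [1, 4, 3, 3, 2, 6, 8, 6, 6, 4, 5], .l [6, 2, 8, 4, 0, 6, 3, 7, 3, 0, 5], .l [1, 4, 3, 3, 2,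 6, 6, 4, 4, 2, 3], .l [1, 6, 13, 7, 1, 10, 8, 1, 7, 2, 3, 5, 3], .l [13, 12, 12, 11, 8], .l [0, 6, 11, 6, 0, 1, 7, 5, 1, 4, 5], .l [0, 10, 8, 11, 2, 0, 6, 6, 5, 5, 3, 3, 1], .l [11, 10, 10, 9, 10], .l [0, 10, 12, 3, 0]]),
([p 2 1, p 3 2, g, p 4 3, p 5 4, p 6 5, p 0 6, g, s 1 0, g], .top 2, [.r 291 [1, 2, 3, 4, 5, 6] [1, 1], .r 292 [1, 2, 3, 4, 5, 6] [1, 0, 0, 1, 1], .r 121 [1, 2, 3] [1, 4, 1], .r 112 [1, 2] [6, 1]]),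
([p 1 0, p 2 1, g, p 3 2, p 4 3, p 5 4, p 0 5, g], .hi 0, [.r 70 [6, 1, 2] [1, 1, 4], .l [0, 2], .l [3, 2], .y [0, 6, 5, 4, 3, 1], .r 293 [6, 1, 2, 3, 4, 5] [1, 1, 1], .l [0, 7], .l [8, 7]]),
([p 2 1, p 3 2, g, p 4 3, p 5 4, g, p 7 5, p 0 6, g, p 0 7, g, s 1 0, g, s 6 0, g], .lo 7, [.l [3, 8, 10, 9, 9, 7, 2], .l [3, 8], .l [1, 5, 4, 11, 9, 5, 7, 6, 6, 4, 5], .l [6, 8, 5], .l [6, 8], .l [5, 8, 6, 6, 5, 5, 3, 3, 2, 3], .l [13, 12, 12, 11, 11, 9, 9, 8, 8, 6, 1], .l [1, 7, 14, 10, 2, 7, 9, 3, 5, 8, 5], .l [6, 11, 10, 10, 8, 8, 7, 7, 5, 5, 4, 1], .l [13, 12, 12, 11, 11, 9, 9, 8, 8, 6, 3], .l [1, 7, 14, 10, 2, 7, 9, 3, 7, 8, 3], .l [6, 9, 8, 8, 6, 6, 5, 5, 3, 3, 2, 3], .l [1, 3, 2, 9, 9, 5, 7, 6, 6, 4, 1], .l [11,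 10, 10, 9, 9, 7, 7, 6, 6, 4, 5], .l [1, 3, 2, 9, 11, 7, 9, 8, 8, 6, 1], .l [5, 6, 4, 4, 3, 3, 1, 6, 3, 6, 2, 0, 1], .y [7, 13], .l [11, 10, 10, 9, 9, 7, 7, 6, 6, 4, 7], .l [1, 3, 2, 9, 13, 9, 11, 10, 10, 8, 1], .l [5, 6, 4, 4, 3, 3, 1, 6, 3, 8, 4, 0, 3]]),
([p 2 1, p 3 2, g, p 4 3, p 5 4, p 6 5, p 0 0, g, p 0 6, g, s 1 0, g], .hi 6, [.l [5, 8, 5, 7, 5, 8, 3, 5, 2], .l [5, 8, 5, 7, 5, 8, 3, 5, 2], .l [8, 4], .y [6], .l [8, 1, 9, 6, 6, 5, 5, 4, 4, 2, 5], .l [6, 7], .l [8, 1], .l [6, 7], .l [3, 10, 3, 6, 10, 1, 7, 2, 4, 5, 2], .l [6, 9], .l [10, 3], .r 295 [1, 2, 3, 4, 5, 7, 6] [1, 0, 1, 1, 1, 1], .l [6, 11], .l [12, 5]]),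
([p 1 0, p 2 1, g, p 3 2, p 4 3, p 5 4, p 0 0, g, p 0 5, g], .hi 0, [.r 70 [6, 1, 2] [1, 1, 6], .l [0, 2], .l [3, 2], .l [0, 5], .l [1, 3, 2, 6, 8, 5, 5, 4, 1], .l [0, 7], .l [8, 7], .y [0, 8, 5, 4, 3, 1], .r 296 [6, 1, 2, 3, 4, 5] [1, 1, 1, 1], .l [0, 9], .l [10, 9]]),
([p 2 1, p 3 2, g, p 4 3, p 5 4, p 6 5, s 0 0, g, p 0 6, g, s 1 0, g], .hi 6, [.l [3, 7, 9, 8, 8, 7, 2], .l [1, 5, 4, 10, 8, 4, 6, 5, 5, 4, 5], .l [3, 7, 9, 8, 8, 7, 2], .y [6], .l [12, 11, 11, 10, 10, 8, 8, 7, 7, 6, 1, 5, 1], .l [12, 11, 11, 10, 10, 8, 8, 7, 7, 6, 1], .l [8, 1, 9, 6, 6, 5, 5, 4, 4, 2, 5], .l [10, 9, 9, 8, 8, 6, 6, 5, 5, 4, 1], .l [5, 1, 9, 4, 11, 4, 1, 5, 1, 6, 3, 0, 3], .l [12, 11, 11, 10, 10, 8, 8, 7, 7, 6, 3], .l [3, 10, 3,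 6, 10, 1, 7, 2, 4, 5, 2], .l [0, 9, 6, 7, 6, 6, 5, 5, 4, 6, 2, 0, 1], .l [10, 9, 9, 8, 8, 6, 6, 5, 5, 4, 5], .l [1, 3, 2, 8, 10, 6, 8, 7, 7, 6, 1]]),
([p 1 0, p 2 1, g, p 3 2, p 4 3, p 5 4, s 0 0, g, p 0 5, g], .hi 0, [.r 70 [6, 1, 2] [1, 1, 6], .l [0, 2], .l [3, 2], .l [1, 3, 2, 4, 6, 5, 5, 4, 1], .l [1, 3, 2, 6, 8, 5, 5, 4, 1], .l [0, 7], .l [8, 7], .y [0, 8, 5, 4, 3, 1], .r 298 [6, 1, 2, 3, 4, 5] [1, 1, 1, 1], .l [0, 9], .l [10, 9]]),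
([p 2 1, p 3 2, g, p 4 3, p 5 4, p 7 5, m 0 6, g, p 0 7, g, m 6 0, g, s 1 0, g], .lo 6, [.l [1, 8, 4, 1, 6, 11, 7, 1, 5, 6, 1], .l [8, 4], .l [5, 8, 5, 3, 6, 10, 8, 3], .l [8, 1, 9, 6, 6, 5, 5, 4, 4, 2, 7], .l [8, 1], .l [6, 7], .l [4, 5, 4, 4, 3, 8, 3, 4, 2, 7, 5, 2, 5], .l [10, 3], .l [6, 9], .y [6, 10], .l [1, 6, 11, 8, 2, 11, 1, 4, 8, 6, 3], .l [12, 5], .l [6, 11], .l [0, 6, 11, 6, 0, 2, 7, 7, 6, 3, 6, 2, 2, 0, 1], .l [1, 6, 13, 10, 2, 7, 9, 3, 7, 8, 3], .l [14, 7], .l [6, 13]]),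
([p 2 1, p 3 2, g, p 4 3, p 5 4, p 6 5, m 0 0, g, p 0 6, g, s 1 0, g], .hi 6, [.l [3, 7, 9, 8, 8, 7, 2], .l [1, 5, 4, 10, 8, 4, 6, 5, 5, 4, 5], .l [3, 7], .y [6], .l [12, 11, 11, 10, 10, 8, 8, 7, 7, 6, 1], .l [5, 10, 9, 9, 8, 8, 7, 7, 5, 5, 4, 1], .l [1, 3, 2, 5, 9, 7, 7, 6, 1, 3, 4, 1], .l [5, 8, 7, 7, 6, 6, 5, 5, 3, 3, 2, 1], .l [12, 11, 11, 10, 10, 8, 8, 7, 7, 6, 3], .l [5, 8, 7, 7, 6, 6, 5, 5, 3, 3, 2, 3], .r 300 [1, 2, 3, 4, 5, 7, 6] [1, 1, 1, 1, 1], .l [10, 9, 9, 8, 8, 6, 6, 5, 5, 4, 5], .l [4, 5, 4, 4, 3, 3, 1, 6, 3, 6, 2, 0, 1], .l [1, 3, 2, 8, 10, 6, 8, 7, 7, 6, 1]]),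
([p 1 0, p 2 1, g, p 3 2, p 4 3, p 5 4, m 0 0, g, p 0 5, g], .hi 0, [.r 70 [6, 1, 2] [1, 1, 6], .l [0, 2], .l [3, 2], .l [6, 5], .l [1, 3, 2, 6, 8, 5, 5, 4, 1], .l [0, 7], .l [8, 7], .y [0, 8, 5, 4, 3, 1], .r 301 [6, 1, 2, 3, 4, 5] [1, 1, 1, 1], .l [0, 9], .l [10, 9]]),
([p 1 0, p 2 1, g, p 3 2, p 4 3, p 5 4, g, p 0 5, g], .top 6, [.r 294 [1, 2, 3, 4, 5] [1, 1], .r 299 [1, 2, 3, 4, 5] [1, 1, 1], .r 297 [1, 2, 3, 4, 5] [1, 1, 1], .r 302 [1, 2, 3, 4, 5] [1, 1, 1]]),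
([p 1 0, p 2 1, g, p 3 2, p 4 3, p 0 4, g], .lo 5, [.y [0, 5, 4, 3, 1], .l [3, 6, 6, 5, 2], .l [3, 6], .l [2, 5, 3, 3, 2, 4], .r 281 [1, 2, 3, 4, 5] [1, 0, 1, 1], .r 303 [1, 2, 3, 4, 5] [1, 1, 1], .l [4, 5, 4, 4, 3, 3, 1, 1, 0, 1]]),
([p 2 1, p 3 2, g, p 4 3, p 5 4, g, m 0 0, p 6 5, g, p 0 6, g, s 1 0, g], .lo 6, [.l [6, 9, 8, 8, 7, 7, 3, 8, 3, 4, 1], .l [8, 4], .l [6, 9, 8, 8, 7, 7, 3, 8, 3, 4, 1], .l [8, 1, 8, 4, 4, 3, 3, 1, 6], .l [8, 1], .l [6, 9, 6, 6, 5, 5, 3, 8, 3, 4, 1], .y [6], .l [9, 2, 4, 3, 9, 5, 5, 4, 4, 2, 5], .l [9, 2], .l [6, 8], .l [0, 6, 10, 5, 0, 1, 5, 3, 1, 2, 5], .l [11, 4], .l [6, 10], .l [0, 6, 10, 5, 0, 1, 5, 3, 6, 2, 3], .l [0, 6, 12, 7, 0, 1, 7, 5, 1, 4, 1], .l [13, 6], .l [6, 12]]),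
([p 1 0, p 2 1, g, p 3 2, p 4 3, g, m 0 0, p 5 4, g, p 0 5, g], .hi 0, [.r 70 [6, 1, 2] [1, 1, 7], .l [0, 2], .l [3, 2], .l [1, 3, 2, 4, 7, 5, 1], .l [0, 5], .l [6, 5], .l [6, 5], .l [1, 3, 2, 7, 9, 7, 7, 4, 1], .l [0, 8], .l [9, 8], .y [0, 9, 7, 4, 3, 1], .r 305 [6, 1, 2, 3, 4, 5] [1, 1, 1, 1, 1], .l [0, 10], .l [11, 10]]),
([p 1 0, p 2 1, g, p 3 2, p 4 3, g, m 0 0, p 0 4, g], .lo 7, [.y [0, 7, 4, 3, 1], .l [3, 8, 8, 5, 2], .l [3, 8], .l [2, 5, 3, 3, 2, 6], .r 283 [1, 2, 3, 5, 4] [1, 1, 2, 1], .l [6, 8], .l [5, 9, 7, 7, 6, 6, 4, 4, 3, 2], .l [5, 7, 5, 5, 4, 4, 2, 2, 1, 0], .r 281 [1, 2, 3, 4, 5] [1, 2, 1, 1], .r 306 [1, 2, 3, 4, 5] [1, 1, 1, 1], .l [6, 7, 4, 4, 3, 3, 1, 1, 0, 3]]),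
([p 2 1, p 3 2, g, p 4 3, p 5 4, g, s 0 0, p 6 5, g, p 7 6, g, p 0 7, g, s 1 0, g], .hi 6, [.l [3, 7, 8, 6, 2], .l [1, 5, 4, 13, 11, 4, 5, 3, 8], .l [3, 7, 8, 6, 2], .l [11, 13, 12, 12, 10, 1, 9, 5, 5, 4, 4, 2, 5], .l [6, 9, 6, 6, 5, 5, 3, 10, 5, 6, 3], .l [8, 1, 8, 4, 4, 3, 3, 1, 8], .y [6], .l [4, 7, 6, 6, 5, 5, 3, 10, 5, 6, 3, 3, 1], .l [0, 14, 5, 6, 3], .l [9, 2, 4, 3, 9, 5, 5, 4, 4, 2, 7], .l [11, 4, 6, 5, 5, 3, 10, 6, 6, 4, 4, 2, 5], .l [0, 6, 10, 5, 0, 1, 5, 3, 1, 2, 7], .l [11, 4, 6, 5, 5, 3, 10, 6, 6, 4, 4, 2, 5], .l [0, 6, 10, 5, 0, 1, 5, 3, 1, 2, 5], .l [0, 6, 12, 7, 0, 1, 7, 5, 1, 4, 7, 5, 1], .l [0, 6, 12, 7, 0, 1, 7, 5, 1, 4, 7], .l [1, 6, 4, 15, 9, 12, 10, 5, 6, 8, 5], .l [0, 8, 9, 7, 12, 7, 0,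 1, 7, 5, 1, 4, 1], .l [0, 6, 14, 9, 0, 1, 9, 7, 1, 6, 1], .l [1, 3, 2, 11, 13, 6, 7, 5, 1]]),
([p 2 1, p 3 2, g, p 4 3, p 6 4, g, s 0 5, p 7 6, g, p 8 7, g, s 0 8, g, s 5 0, g, s 1 0, g], .hi 15, [.l [8, 14, 9, 14, 14, 2, 3, 9, 5, 1, 6, 1], .l [6, 9, 8, 8, 7, 7, 3, 12, 12, 4, 6, 4, 7], .l [0, 8, 14, 7, 0, 1, 9, 7, 1, 6, 9, 9, 1], .l [1, 3, 2, 15, 15, 4, 7, 5, 1], .l [1, 3, 2, 15, 15, 4, 7, 5, 1], .l [0, 6, 16, 11, 0, 3, 11, 7, 1, 8, 3, 9, 7], .l [0, 6, 14, 9, 0, 1, 9, 7, 10, 2, 7], .l [0, 16, 16, 8, 10, 8, 11, 6, 0, 2, 6, 3], .l [0, 16, 16, 8, 10, 8, 11, 6, 0, 2, 6, 3], .l [9, 16, 16, 8, 8, 7, 7, 5, 5, 4, 4, 1, 4, 2, 5], .l [0, 16, 16, 10, 12, 10, 10, 8, 9, 4, 0, 2, 4, 1], .l [0, 16, 16, 10, 12, 10, 10, 8, 9,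 4, 0, 2, 4, 1], .l [0, 6, 14, 9, 0, 1, 9, 7, 1, 6, 9, 9, 3], .y [0, 15, 11, 9, 7, 4, 3, 1], .l [0, 16, 7, 1, 14, 10, 12, 8, 9, 4, 0, 2, 4, 1], .l [3, 4, 3, 3, 1, 13, 13, 9, 6, 9, 2, 0, 5], .l [0, 16, 7, 1, 14, 10, 12, 8, 9, 4, 0, 2, 4, 1], .l [1, 3, 2, 15, 7, 1, 13, 7, 11, 9, 9, 6, 1], .l [0, 6, 12, 7, 0, 1, 7, 5, 1, 4, 9, 9, 7], .l [1, 3, 2, 15, 7, 1, 13, 7, 11, 9, 9, 6, 1], .l [8, 9, 7, 7, 4, 4, 3, 3, 1, 8, 10, 1, 2, 0, 3], .l [0, 6, 12, 7, 0, 1, 7, 5, 1, 4, 7, 7, 7], .l [5, 7, 5, 5, 4, 4, 2, 9, 11, 1, 3, 1, 6]]),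
([p 2 1, p 3 2, g, p 4 3, p 5 4, g, s 0 0, p 6 5, g, p 7 6, g, s 0 7, g, s 1 0, g], .hi 6, [.l [3, 7, 8, 6, 2], .l [1, 5, 4, 13, 11, 4, 5, 3, 8], .l [3, 7, 8, 6, 2], .l [10, 11, 9, 1, 8, 4, 4, 3, 3, 1, 1, 0, 3], .l [6, 9, 6, 6, 5, 5, 3, 10, 5, 6, 3], .l [8, 1, 8, 4, 4, 3, 3, 1, 8], .y [6], .l [15, 14, 14, 13, 13, 11, 2, 4, 10, 7, 8, 0, 3], .l [0, 14, 5, 6, 3], .l [9, 2, 4, 3, 9, 5, 5, 4, 4, 2, 7], .l [6, 10, 1, 10, 8, 4, 4, 3, 3, 1, 1, 0, 3], .l [0, 6, 10, 5, 0, 1, 5, 3, 1, 2, 7], .l [11, 4, 6, 5, 5, 3, 10, 6, 6, 4, 4, 2, 5], .l [13, 12, 12, 11, 11, 9, 2, 6, 6, 4, 6, 3, 4, 0, 1], .r 309 [1, 2, 3, 4, 8, 5, 6, 7] [1, 1, 1, 1, 1, 1, 1], .l [0, 6, 12, 7, 0, 1, 7, 5, 1, 4, 7], .l [4, 7, 6, 6, 5, 5, 3, 10, 5, 1, 3,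 4, 1], .l [3, 4, 3, 3, 1, 9, 6, 9, 2, 0, 5, 5, 3], .l [0, 6, 14, 9, 0, 1, 9, 7, 1, 6, 1], .l [1, 3, 2, 11, 13, 6, 7, 5, 1]]),
([p 2 1, p 3 2, g, p 4 3, p 5 4, g, p 7 5, g, s 0 6, g, p 6 7, g, s 1 0, g], .lo 8, [.l [3, 9, 9, 9, 9, 7, 7, 5, 2], .l [3, 9, 9, 9, 9, 7, 7, 5, 2], .l [1, 5, 4, 12, 1, 1, 8, 6, 6, 4, 4, 2, 3], .l [9, 12, 10, 10, 6, 6, 5, 5, 3, 6, 1, 3, 1, 2, 1], .l [10, 3, 5, 3, 10, 6, 6, 4, 4, 2, 5], .l [9, 12, 10, 10, 6, 6, 5, 5, 3, 6, 1, 3, 1, 2, 1], .l [7, 12, 10, 10, 8, 8, 7, 7, 5, 6, 3, 1, 1, 2, 1], .l [10, 1, 11, 7, 7, 5, 5, 4, 4, 2, 5], .l [7, 12, 10, 10, 8, 8, 7, 7, 5, 6, 3, 1, 1, 2, 1], .l [10, 1, 11, 7, 7, 5, 5, 4, 4, 2, 5, 3, 1], .l [10, 1, 11, 7, 7, 5, 5, 4, 4, 2, 5], .l [8, 11, 1, 9, 9,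 7, 7, 5, 5, 4, 4, 2, 3], .l [7, 10, 8, 8, 6, 6, 5, 5, 3, 6, 1, 3, 1, 2, 1], .l [7, 10, 8, 8, 6, 6, 5, 7, 3, 7, 2, 4, 4, 2, 1], .l [7, 10, 8, 8, 6, 6, 5, 5, 3, 6, 1, 3, 1, 2, 1], .y [0, 12, 8, 10, 6, 4, 3, 1], .l [1, 3, 2, 10, 12, 8, 8, 8, 8, 6, 6, 4, 1], .l [1, 3, 2, 10, 1, 1, 10, 8, 8, 6, 6, 4, 1], .l [3, 4, 3, 3, 1, 8, 3, 1, 3, 1, 1, 4, 2, 0, 1]]),
([p 2 1, p 3 2, g, p 4 3, p 6 4, g, s 0 5, g, p 7 6, g, p 5 7, g, s 1 0, g], .lo 6, [.l [3, 7, 7, 9, 9, 7, 7, 5, 2], .l [3, 7, 7, 9, 9, 7, 7, 5, 2], .l [1, 5, 4, 12, 10, 4, 4, 6, 6, 4, 4, 2, 3], .l [5, 10, 8, 8, 7, 7, 5, 8, 1, 3, 1, 4, 1], .l [8, 1, 9, 5, 5, 4, 4, 2, 7], .l [5, 10, 8, 8, 7, 7, 5, 8, 1, 3, 1, 4, 1], .l [8, 1, 9, 5, 5, 4, 4, 2, 7, 3, 1, 3, 1], .l [8,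 1, 9, 5, 5, 4, 4, 2, 7], .l [6, 11, 3, 9, 9, 1, 1, 5, 5, 4, 4, 2, 3], .l [10, 3, 5, 3, 10, 6, 6, 4, 4, 2, 5, 3, 1], .l [10, 3, 5, 3, 10, 6, 6, 4, 4, 2, 5], .l [6, 11, 1, 9, 7, 5, 5, 4, 4, 2, 5], .l [6, 11, 1, 9, 7, 5, 5, 4, 4, 2, 5, 3, 1], .l [5, 8, 6, 6, 5, 9, 5, 1, 5, 6, 3, 1, 1, 2, 1], .l [6, 11, 1, 9, 7, 5, 5, 4, 4, 2, 5], .y [0, 12, 6, 10, 8, 4, 3, 1], .l [6, 13, 3, 11, 7, 5, 5, 4, 4, 2, 3, 1, 3], .l [0, 11, 1, 3, 11, 7, 9, 1, 4, 0, 2, 4, 1], .l [6, 13, 3, 11, 7, 5, 5, 4, 4, 2, 3]]),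
([p 2 1, p 3 2, g, p 4 3, p 5 4, g, s 0 0, p 6 5, g, p 0 6, g, s 1 0, g], .lo 9, [.l [3, 10, 10, 8, 8, 5, 2], .l [3, 10], .l [1, 5, 4, 11, 9, 7, 7, 5, 5, 2, 5], .r 312 [1, 2, 3, 4, 7, 5, 6] [1, 1, 2, 1, 1, 1], .l [6, 10], .l [5, 9, 7, 7, 6, 6, 4, 4, 3, 4], .l [0, 10, 1, 2, 1], .r 311 [1, 2, 3, 4, 5, 7, 6] [1, 2, 1, 1, 1, 1], .l [9, 10], .l [8, 11, 9, 9, 6, 6, 5, 5, 3, 3, 2, 1], .r 310 [1, 2, 3, 4, 5, 6, 7] [1, 1, 1, 1, 1, 1], .r 308 [1, 2, 3, 4, 5, 6, 7] [1, 1, 1, 1, 1, 1], .l [8, 9, 7, 7, 4, 4, 3, 3, 1, 1, 0, 3], .y [0, 11, 9, 7, 4, 3, 1], .l [1, 3, 2, 9, 11, 9, 9, 7, 7, 4, 1], .l [1, 3, 2, 9, 11, 9, 9, 7, 7, 4, 1], .l [6, 7, 4, 4, 3, 3, 1, 6, 1, 6, 2, 0, 3]]),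
([p 1 0, p 2 1, g, p 3 2, p 4 3, g, s 0 0, p 5 4, g, p 0 5, g], .hi 0, [.r 70 [6, 1, 2] [1, 1, 7], .l [0, 2], .l [3, 2], .l [1, 3, 2, 4, 7, 5, 1], .l [0, 5], .l [6, 5], .l [1, 3, 2, 4, 5, 3, 1], .l [1, 3, 2, 7, 9, 7, 7, 4, 1], .l [0, 8], .l [9, 8], .y [0, 9, 7, 4, 3, 1], .r 313 [6, 1, 2, 3, 4, 5] [1, 1, 1, 1, 1], .l [0, 10], .l [11, 10]]),
([p 1 0, p 2 1, g, p 3 2, p 4 3, g, s 0 0, p 0 4, g], .lo 7, [.y [0, 7, 4, 3, 1], .l [3, 8, 8, 5, 2], .l [3, 8], .l [2, 5, 3, 3, 2, 6], .r 283 [1, 2, 3, 5, 4] [1, 1, 2, 1], .l [6, 8], .l [5, 9, 7, 7, 6, 6, 4, 4, 3, 2], .c, .r 281 [1, 2, 3, 4, 5] [1, 2, 1, 1], .r 314 [1, 2, 3, 4, 5] [1, 1, 1, 1], .l [6, 7, 4, 4, 3, 3, 1, 1, 0, 3]]),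
([p 1 0, p 2 1, g, p 3 2, p 4 3, g, p 0 4, g], .bot 5, [.r 304 [1, 2, 3, 4] [1, 1], .r 315 [1, 2, 3, 4] [1, 1, 1], .r 284 [1, 2, 3, 4] [1, 1, 1], .r 307 [1, 2, 3, 4] [1, 1, 1]]),
([p 1 0, p 2 1, g, p 3 2, p 0 3, g], .lo 4, [.y [0, 4, 3, 1], .l [3, 5, 2], .l [3, 5], .l [2, 5, 3, 3, 2, 3], .r 271 [1, 2, 4] [1, 1, 1], .r 316 [1, 2, 3, 4] [1, 1, 1], .l [3, 4, 3, 3, 1, 1, 0, 1]]),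
([p 2 1, p 4 2, g, p 3 0, g, p 5 3, g, p 7 4, p 6 5, g, p 0 6, g, p 0 7, g, s 1 0, g], .hi 3, [.l [5, 1, 8, 4, 13], .l [6, 3, 8, 3, 5, 3, 7, 3, 4, 8, 3, 6, 0, 3], .l [5, 1], .l [5, 1, 6, 4, 6, 4, 11], .l [3, 4], .l [5, 1], .l [7, 3, 3, 1, 6, 2, 11], .l [3, 6], .l [7, 3], .l [3, 9, 11, 9, 4], .l [3, 9], .l [10, 6], .y [3, 10, 8, 5], .l [12, 8, 8, 6, 6, 3, 3, 1, 8, 4, 4, 2, 5], .l [3, 11], .l [12, 8], .l [3, 11], .l [2, 14, 10, 3, 11, 12, 9, 7, 7, 8, 1], .l [3, 13], .l [14, 10], .l [12, 8, 9, 7, 7, 4, 5, 1, 9, 6, 7, 4, 1], .l [3, 15], .l [16, 12]]),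
([p 2 1, p 3 2, g, p 4 0, g, p 6 3, p 5 4, g, p 0 5, g, p 0 6, g, s 1 0, g], .hi 3, [.l [5, 1, 6, 2, 11], .r 318 [1, 2, 7, 3, 4, 5, 6] [1, 1, 1, 1, 1, 1, 1], .l [5, 1], .l [5, 1, 6, 2, 11], .l [3, 4], .l [5, 1], .l [3, 7, 9, 7, 2], .l [3, 7], .l [8, 4], .y [3, 8, 6], .l [10, 6, 6, 3, 3, 1, 8, 4, 4, 2, 5], .l [3, 9], .l [10, 6], .l [3, 9], .l [2, 5, 3, 12, 1, 9, 1, 8, 5], .l [3, 11], .l [12, 8], .l [10, 6, 7, 4, 5, 1, 9, 6, 7, 4, 1], .l [3, 13], .l [14, 10]])]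

def d01_1 : List (List Item × Qry × List Rf) := [
([p 2 1, p 3 2, g, p 5 3, p 4 0, g, p 0 4, g, p 0 5, g, s 1 0, g], .hi 4, [.l [0, 6, 2, 11, 5, 9, 5, 2, 0, 2, 3], .r 319 [1, 2, 3, 6, 4, 5] [1, 1, 1, 1, 1, 1], .l [6, 2], .l [6, 1, 7, 5, 7, 6, 6, 4, 5], .l [4, 5], .l [6, 1], .y [4, 6], .l [8, 3, 3, 1, 8, 4, 4, 2, 5], .l [4, 7], .l [8, 3], .l [4, 7], .l [4, 9, 5, 10, 2, 4, 1, 6, 1, 2, 3], .l [4, 9], .l [10, 5], .l [8, 3, 5, 1, 9, 6, 7, 4, 1], .l [4, 11], .l [12, 7]]),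
([p 2 1, p 3 2, g, p 5 3, p 7 4, g, p 6 5, g, p 0 6, g, p 0 7, g, s 1 0, g, s 4 0, g], .hi 14, [.l [0, 13, 10, 13, 2, 0, 8, 8, 5, 5, 3, 5, 3], .l [0, 13, 10, 13, 2, 0, 8], .l [16, 12, 2, 10, 1, 11, 2], .l [2, 3, 1, 12, 7, 12, 2, 0, 7, 7, 5, 3, 1], .l [1, 3, 2, 12, 14, 6, 12, 10, 1], .l [6, 15, 15, 1, 7, 4, 4, 2, 9], .l [8, 15, 15, 3, 4, 2, 9, 7, 5, 4, 4, 2, 5], .l [1, 3, 2, 12, 14, 8, 10, 8, 10, 8, 1], .l [8, 15, 15, 3, 4, 2, 7, 4, 4, 2, 7], .l [1, 3, 2, 10, 12, 8, 8, 6, 8, 6, 1], .l [1, 10, 15, 15, 5, 6, 4, 4, 2, 7, 5, 2, 5], .l [1, 3, 2, 12, 14, 10, 12, 6, 1], .l [1, 10, 15, 15, 5, 6, 4, 4, 2, 7, 5, 2, 5], .y [4, 14, 10], .l [2, 12, 14, 5, 1, 2, 12, 7, 10, 0, 7, 5, 1], .l [3, 6, 5, 5, 3, 10, 1, 10, 10, 7, 1,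 6, 1], .l [2, 12, 14, 5, 1, 2, 12, 7, 10, 0, 7], .l [5, 10, 8, 4, 3, 7, 11, 7, 1, 2, 8, 3, 6, 0, 3], .l [15, 3, 13, 13, 12, 13, 10, 7, 8, 8, 1], .l [5, 10, 8, 4, 3, 7, 11, 7, 1, 2, 8, 3, 6, 0, 3], .l [6, 8, 7, 7, 4, 5, 9, 11, 1, 7, 5, 2, 5], .l [14, 9, 10, 8, 8, 6, 6, 1, 9, 4, 7, 4, 1], .l [4, 13, 15, 1, 7, 4, 4, 2, 9]]),
([p 2 1, p 3 2, g, p 5 3, p 6 4, g, p 0 5, g, p 0 6, g, s 1 0, g, s 4 0, g], .lo 6, [.l [3, 7, 9, 7, 2], .l [3, 7], .l [1, 5, 4, 10, 8, 4, 6, 4, 5], .l [3, 8, 7, 7, 5, 8, 5, 1, 1, 4, 1], .l [6, 7], .l [3, 8, 7, 7, 5, 8, 5, 1, 1, 4, 1], .l [0, 11, 5, 1, 5, 1, 5, 1, 3, 6, 2, 0, 1], .r 321 [1, 2, 3, 4, 5, 7, 6] [1, 1, 1, 1, 1, 1, 1], .l [5, 6, 3, 3, 1, 1, 0, 3], .l [5, 6, 3, 4, 10, 1, 6, 2, 7,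 4, 4, 0, 1], .l [10, 5, 7, 5, 5, 1, 9, 6, 7, 4, 1], .l [5, 6, 3, 3, 1, 1, 0, 5], .y [0, 10, 6, 3, 1], .l [1, 3, 2, 8, 10, 6, 8, 6, 1], .l [1, 3, 2, 8, 10, 6, 8, 6, 1], .l [2, 3, 1, 8, 3, 8, 2, 0, 5], .l [1, 3, 2, 8, 10, 6, 8, 6, 1], .l [1, 3, 2, 8, 12, 8, 10, 8, 1], .l [1, 3, 2, 8, 12, 8, 10, 8, 1], .l [2, 3, 1, 8, 3, 10, 4, 0, 7]]),
([p 2 1, p 3 2, g, p 4 0, g, p 5 3, p 6 4, g, p 0 5, g, p 7 6, g, p 8 7, g, p 0 8, g, s 1 0, g], .lo 14, [.l [3, 15, 15, 13, 13, 11, 11, 7, 4], .l [3, 15], .l [1, 7, 6, 16, 14, 12, 12, 10, 10, 8, 8, 4, 7], .y [3, 14, 12, 10, 6], .l [5, 15, 15, 13, 13, 11, 11, 7, 2], .l [5, 15], .l [0, 17, 12, 10, 10, 8, 8, 6, 6, 2, 4, 3, 7, 3, 1, 3, 1, 3], .l [15, 16, 14, 14, 12, 12, 6, 10, 9, 9,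 5, 8, 1, 5, 3, 4, 1], .l [8, 15], .l [1, 5, 4, 16, 9, 7, 7, 5, 5, 3, 5, 1, 5, 1, 5, 1, 3, 3], .l [9, 12, 8, 10, 9, 9, 5, 12, 5, 7, 1, 8, 5], .l [10, 15], .l [5, 8, 7, 7, 3, 14, 7, 5, 5, 3, 3, 1, 3, 5, 1, 4, 1], .l [11, 14, 12, 12, 8, 10, 9, 9, 5, 10, 3, 5, 1, 6, 3], .l [12, 15], .l [8, 10, 7, 9, 8, 8, 4, 13, 5, 3, 3, 1, 7, 5, 1, 3, 1, 3], .l [13, 16, 14, 14, 12, 12, 8, 10, 9, 9, 5, 8, 1, 3, 1, 4, 1], .l [14, 15], .l [10, 12, 11, 11, 7, 9, 8, 8, 4, 11, 3, 1, 7, 5, 1, 3, 1, 3], .l [13, 14, 12, 12, 10, 10, 6, 8, 7, 7, 3, 8, 3, 5, 1, 4, 1], .l [14, 16, 15, 15, 13, 13, 11, 11, 7, 9, 8, 8, 4, 7, 1, 3, 1, 3], .l [12, 14, 13, 13, 11, 11, 7, 9, 8, 8, 4, 9, 7, 5, 1, 3, 1, 3], .l [1, 5, 4, 14, 14, 12, 12, 10, 10, 8, 8,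 4, 3], .l [13, 14, 12, 12, 10, 10, 6, 8, 7, 7, 3, 6, 1, 3, 1, 2, 3], .l [1, 5, 4, 14, 16, 14, 14, 12, 12, 10, 10, 6, 3], .l [11, 12, 10, 10, 6, 6, 3, 5, 3, 8, 1, 8, 4, 2, 5]]),
([p 2 1, p 3 2, g, p 4 0, g, p 5 3, p 6 4, g, p 0 5, g, p 7 6, g, p 0 7, g, s 1 0, g], .lo 12, [.l [3, 13, 13, 11, 11, 7, 4], .l [3, 13], .l [1, 7, 6, 14, 12, 10, 10, 8, 8, 4, 7], .y [3, 12, 10, 6], .l [5, 13, 13, 11, 11, 7, 2], .l [5, 13], .l [1, 7, 6, 14, 10, 8, 8, 6, 6, 2, 7], .l [13, 14, 12, 12, 6, 10, 9, 9, 5, 8, 1, 5, 3, 4, 1], .l [8, 13], .l [5, 10, 9, 9, 5, 12, 9, 7, 7, 5, 1, 5, 3, 4, 1], .l [9, 12, 8, 10, 9, 9, 5, 10, 3, 5, 1, 6, 3], .l [10, 13], .l [5, 8, 7, 7, 3, 12, 5, 3, 3, 1, 3, 5, 1, 4, 1], .l [11, 14, 12, 12, 8, 10, 9,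 9, 5, 8, 1, 3, 1, 4, 1], .l [12, 13], .l [9, 10, 6, 8, 7, 7, 3, 10, 3, 1, 3, 5, 1, 4, 1], .l [11, 12, 10, 10, 6, 8, 7, 7, 3, 8, 3, 5, 1, 4, 1], .r 323 [1, 2, 3, 4, 5, 6, 7, 8] [1, 1, 1, 1, 1, 1, 1, 1], .l [11, 12, 10, 10, 6, 6, 3, 5, 3, 3, 2, 5], .l [1, 5, 4, 12, 12, 10, 10, 8, 8, 4, 3], .l [11, 12, 10, 10, 6, 8, 7, 7, 3, 6, 1, 3, 1, 2, 3], .l [1, 5, 4, 12, 14, 12, 12, 10, 10, 6, 3], .l [9, 10, 6, 6, 3, 5, 3, 8, 1, 8, 4, 2, 5]]),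
([p 2 1, p 3 2, g, p 4 0, g, p 5 3, p 6 4, g, p 0 5, g, p 0 6, g, s 1 0, g], .lo 10, [.l [3, 11, 11, 7, 4], .l [3, 11], .l [1, 7, 6, 12, 10, 8, 8, 4, 7], .y [3, 10, 6], .l [5, 11, 11, 7, 2], .l [5, 11], .l [1, 7, 6, 12, 8, 6, 6, 2, 7], .l [11, 12, 6, 10, 9, 9, 5, 8, 1, 5, 3, 4, 1], .l [8, 11], .l [5, 10, 9, 9, 5, 10, 7, 5, 1, 5, 3, 4, 1], .l [9, 12, 8, 10, 9, 9, 5, 8, 1, 3, 1, 4, 1], .l [10, 11], .l [5, 8, 7, 7, 3, 10, 3, 1, 3, 5, 1, 4, 1], .l [9, 10, 6, 8, 7, 7, 3, 8, 3, 5, 1, 4, 1], .r 324 [1, 2, 3, 4, 5, 6, 7] [1, 1, 1, 1, 1, 1, 1], .l [9, 10, 6, 6, 3, 5, 3, 3, 2, 5], .l [1, 5, 4, 10, 10, 8, 8, 4, 3], .l [9, 10, 6, 8, 7, 7, 3, 6, 1, 3, 1, 2, 3], .l [1, 5, 4, 10, 12, 10, 10, 6, 3], .l [5, 6, 3, 5, 3, 8, 1,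 8, 4, 2, 5]]),
([p 2 1, p 3 2, g, p 4 3, p 5 0, g, p 0 4, g, p 0 5, g, s 1 0, g], .hi 4, [.l [1, 6, 2, 11, 6, 8, 3], .r 325 [1, 2, 3, 6, 4, 5] [1, 1, 1, 1, 1, 1], .l [6, 2], .l [6, 1, 7, 4, 4, 2, 7], .l [4, 5], .l [6, 1], .l [4, 5], .l [1, 8, 3, 4, 2, 7, 5, 2, 5], .l [4, 7], .l [8, 3], .y [4, 8], .l [3, 6, 5, 5, 3, 8, 1, 5, 1, 4, 1], .l [4, 9], .l [10, 5], .r 322 [1, 2, 3, 6, 4, 5] [1, 1, 1, 1, 1, 1], .l [4, 11], .l [12, 7]]),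
([p 2 1, p 3 2, g, p 4 3, p 0 0, g, p 0 4, g, s 1 0, g], .lo 4, [.l [3, 5, 2], .l [3, 5], .l [1, 5, 4, 8, 6, 2, 5], .y [4], .l [10, 9, 9, 8, 8, 6, 1], .r 320 [1, 2, 3, 5, 4] [1, 1, 1, 1, 1], .l [3, 8, 7, 7, 5, 5, 4, 1], .l [10, 9, 9, 8, 8, 6, 3], .r 326 [1, 2, 3, 4, 5] [1, 1, 1, 1, 1], .l [3, 6, 5, 5, 3, 3, 2, 3], .l [1, 3, 2, 6, 6, 2, 1], .l [8, 7, 7, 6, 6, 4, 5], .l [1, 3, 2, 6, 8, 4, 1], .l [2, 3, 1, 6, 3, 6, 2, 0, 1]]),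
([p 1 0, p 2 1, g, p 3 2, p 0 0, g, p 0 3, g], .hi 0, [.r 70 [4, 1, 2] [1, 1, 4], .l [0, 2], .l [3, 2], .l [0, 3], .r 238 [4, 1, 2, 3] [1, 1, 1, 1], .l [0, 5], .l [6, 5], .y [0, 6, 3, 1], .r 327 [4, 1, 2, 3] [1, 1, 1, 1], .l [0, 7], .l [8, 7]]),
([p 1 0, p 2 1, g, p 3 2, g, p 0 3, g], .top 4, [.r 317 [1, 2, 3] [1, 1], .r 270 [1, 2, 3] [1, 1, 1], .r 328 [1, 2, 3] [1, 1, 1], .r 204 [1, 2] [1, 3]]),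
([p 0 0, p 2 0, g, s 0 1, g, p 1 2, g], .hi 0, [.y [0], .r 75 [3, 2] [1, 3, 1], .l [0, 2], .l [3, 2], .r 75 [3, 2] [1, 1, 1], .r 75 [3, 2] [3, 1, 1], .l [0, 4], .l [5, 4], .r 174 [3, 1, 2] [1, 1, 1, 1], .l [0, 6], .l [7, 6]]),
([p 1 0, p 2 1, g, p 0 2, g], .lo 3, [.y [0, 3, 1], .r 330 [3, 2] [1, 1, 1], .l [3, 4], .l [2, 5, 3, 3, 2, 1], .r 184 [1, 2, 3] [1, 1, 1], .r 329 [1, 2, 3] [1, 1, 1], .l [2, 3, 1, 1, 0, 1]]),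
([p 0 0, p 1 0, g, p 0 1, g], .hi 1, [.r 331 [2, 1] [1, 1], .r 0 [2, 1] [1, 1, 1], .l [1, 2], .l [3, 1], .y [1, 3], .r 62 [2, 1] [1, 1, 1], .l [1, 4], .l [5, 3]]),
([p 0 0, p 1 0, g, m 0 1, g], .hi 0, [.y [0], .l [3, 2, 3], .l [0, 2], .l [3, 2], .l [3, 2], .l [5, 4, 1], .l [0, 4], .l [5, 4]]),
([p 0 0, p 0 0, g], .lo 1, [.c, .y [1], .r 110 [1] [1, 1], .r 332 [1] [1, 1], .r 333 [1] [1, 1]]),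
([p 0 0, m 0 1, g, s 1 0, g], .hi 0, [.y [0], .l [1, 0], .l [3, 2, 3], .l [0, 2], .l [3, 2], .l [5, 4, 1], .l [0, 4], .l [5, 4]]),
([p 4 1, m 3 2, g, s 1 3, g, p 8 4, g, m 2 5, g, m 5 6, g, m 6 7, g, m 7 0, g, p 0 8, g], .hi 13, [.l [2, 7, 4, 12, 12, 10, 10, 8, 8, 6, 6, 4, 1], .l [0, 4, 1, 12, 12, 10, 10, 8, 8, 6, 8, 6, 6, 4, 4, 3, 3, 1], .l [3, 14], .l [4, 7, 2, 12, 12, 10, 10, 8, 8, 6, 6, 2, 3], .l [0, 2, 8, 6, 6, 5, 5, 1, 3, 7, 7, 5, 5, 3, 5, 3, 3, 1], .l [5, 14], .l [6, 17, 15, 7, 3, 4, 6, 4, 4, 1, 8, 6, 3], .l [0, 2, 8, 6, 6, 5, 5, 3, 11, 7, 7, 5, 5, 3, 3, 1, 3, 1], .l [7, 14], .l [8, 11, 9, 15, 13, 7, 3, 4, 6, 4, 4, 1, 6, 4, 1], .l [0, 2, 6, 4, 4, 3, 3, 1, 11, 9, 9, 5, 5, 3, 3, 1, 3, 1], .l [9, 14], .l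 [10, 13, 11, 11, 9, 13, 11, 11, 6, 3, 3, 1, 1, 2, 3], .l [0, 2, 6, 4, 4, 3, 3, 1, 11, 9, 9, 7, 7, 3, 3, 1, 3, 1], .l [11, 14], .l [12, 15, 13, 13, 11, 11, 9, 11, 9, 9, 4, 1, 1, 2, 3], .l [0, 2, 6, 4, 4, 3, 3, 1, 11, 9, 9, 7, 7, 5, 5, 1, 3, 1], .l [13, 14], .l [12, 13, 11, 11, 9, 13, 9, 11, 7, 8, 1, 5, 3, 4, 1], .l [8, 17, 13, 5, 13, 5, 1, 11, 1, 2, 4, 2, 3], .l [0, 2, 6, 4, 4, 3, 3, 1, 11, 9, 9, 7, 7, 5, 5, 3, 3, 1], .y [0, 3, 1, 7, 9, 11, 13, 15, 5], .l [12, 13, 11, 11, 9, 11, 7, 9, 5, 6, 1, 3, 1, 2, 3], .l [0, 2, 6, 4, 4, 3, 3, 1, 9, 7, 7, 5, 5, 3, 3, 1, 1, 1], .l [0, 2, 6, 4, 4, 3, 3, 1, 9, 7, 7, 5, 5, 3, 3, 1, 3, 1]]),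
([p 4 1, m 3 2, g, s 1 3, g, p 7 4, g, m 2 5, g, m 5 6, g, m 6 0, g, p 0 7, g], .hi 11, [.l [2, 7, 4, 10, 10, 8, 8, 6, 6, 4, 1], .l [1, 4, 1, 10, 10, 8, 8, 6, 8, 6, 6, 3, 4, 0, 1], .l [3, 12], .l [4, 7, 2, 10, 10, 8, 8, 6, 6, 2, 3], .l [4, 7, 2, 10], .l [5, 12], .l [6, 15, 13, 7, 3, 4, 6, 4, 4, 1, 6, 4, 1], .l [6, 9, 3, 7, 6, 9], .l [7, 12], .l [8, 11, 9, 13, 11, 11, 6, 3, 3, 1, 1, 2, 3], .l [8, 11, 9, 9, 3, 7, 6, 7], .l [9, 12], .l [10, 13, 11, 11, 9, 11, 9, 9, 4, 1, 1, 2, 3], .l [8, 15, 11, 5, 11, 5, 1, 1, 7, 4], .l [11, 12], .l [10, 11, 9, 13, 9, 11, 7, 8, 1, 5, 3, 4, 1], .l [8, 15, 11, 5, 11, 5, 1, 9, 1, 2, 6, 4, 1], .r 336 [1, 2, 3, 4, 5, 6, 8, 7] [1, 1, 1, 1, 1, 1, 1, 1], .y [0, 3, 1, 7, 9, 11, 13, 5],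 .l [10, 11, 9, 11, 7, 9, 5, 6, 1, 3, 1, 2, 3], .l [10, 11, 9, 9, 7, 7, 1, 5, 4, 7], .l [8, 13, 9, 11, 7, 8, 10, 4, 8, 5, 1, 4, 1]]),
([p 4 1, m 3 2, g, s 1 3, g, p 6 4, g, m 2 5, g, m 5 0, g, p 0 6, g], .hi 9, [.l [2, 7, 4, 8, 8, 6, 6, 4, 1], .l [1, 4, 1, 8, 8, 6, 8, 6, 6, 3, 4, 0, 1], .l [3, 10], .l [4, 7, 2, 8, 8, 6, 6, 2, 3], .l [4, 7, 2, 8], .l [5, 10], .l [6, 13, 11, 11, 6, 3, 3, 1, 1, 2, 3], .l [6, 9, 3, 7, 6, 7], .l [7, 10], .l [8, 11, 9, 11, 9, 9, 4, 1, 1, 2, 3], .l [8, 11, 9, 9, 3, 7, 6, 1], .l [9, 10], .l [8, 13, 9, 11, 7, 8, 1, 5, 3, 4, 1], .l [8, 9, 7, 7, 1, 5, 4, 5], .r 337 [1, 2, 3, 4, 5, 7, 6] [1, 1, 1, 1, 1, 1, 1], .y [0, 3, 1, 7, 9, 11, 5], .l [8, 11, 7, 9, 5, 6, 1, 3, 1, 2, 3], .l [8, 9, 7,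 7, 1, 5, 4, 7], .l [8, 11, 7, 9, 5, 6, 1, 3, 6, 2, 3]]),
([p 4 1, m 3 2, g, s 1 3, g, p 5 4, g, m 2 0, g, p 0 5, g], .hi 7, [.l [2, 7, 4, 6, 6, 4, 1], .l [1, 4, 1, 6, 8, 6, 6, 3, 4, 0, 1], .l [3, 8], .l [4, 7, 2, 6, 6, 2, 3], .l [4, 7, 2, 6], .l [5, 8], .l [6, 11, 9, 9, 4, 1, 1, 2, 3], .l [6, 9, 3, 7, 6, 1], .l [7, 8], .l [8, 11, 7, 7, 2, 6, 6, 2, 3], .l [6, 7, 1, 5, 4, 5], .r 338 [1, 2, 3, 4, 6, 5] [1, 1, 1, 1, 1, 1], .y [0, 3, 1, 7, 9, 5], .l [4, 7, 3, 4, 8, 6, 6, 3, 4, 0, 1], .l [6, 7, 1, 5, 4, 7], .l [4, 7, 3, 4, 8, 6, 6, 3, 4, 0, 1]]),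
([p 4 1, m 3 2, g, s 1 3, g, p 5 4, g, p 6 5, g, p 7 6, g, p 8 7, g, p 0 8, g, m 2 0, g], .lo 13, [.l [2, 7, 4, 12, 12, 10, 10, 8, 8, 6, 8, 6, 1], .l [3, 14], .l [0, 4, 1, 12, 12, 10, 10, 8, 8, 6, 6, 4, 4, 2, 2, 1, 3, 1], .l [4, 7, 2, 12, 12, 10, 10, 8, 8, 6, 8, 4, 5], .l [5, 14], .l [0, 2, 16, 14, 14, 13, 13, 9, 9, 7, 7, 5, 5, 3, 3, 1, 3, 1], .l [6, 9, 7, 7, 2, 10, 10, 8, 8, 6, 8, 4, 5], .l [7, 14], .l [0, 2, 16, 14, 14, 13, 13, 11, 11, 7, 7, 5, 5, 3, 3, 1, 3, 1], .l [8, 11, 9, 9, 7, 7, 2, 8, 8, 6, 8, 4, 5], .l [9, 14], .l [0, 2, 16, 14, 14, 13, 13, 11, 11, 9, 9, 5, 5, 3, 3, 1, 3, 1], .l [10, 13, 11, 11, 9, 9, 7, 7, 2, 6, 8, 4, 5], .l [11, 14], .l [0, 2, 16, 14, 14, 13, 13, 11, 11, 9, 9, 7, 7, 3, 3, 1, 3, 1],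 .l [14, 15, 11, 11, 9, 9, 7, 7, 5, 5, 0, 4, 6, 2, 3], .l [13, 14], .l [0, 2, 16, 14, 14, 13, 13, 11, 11, 9, 9, 7, 7, 5, 5, 1, 3, 1], .l [12, 13, 11, 11, 9, 9, 7, 7, 5, 5, 0, 4, 6, 2, 3], .l [0, 2, 16, 14, 14, 13, 13, 11, 11, 9, 9, 7, 7, 5, 5, 3, 3, 1], .l [12, 13, 11, 11, 9, 9, 7, 7, 5, 5, 0, 4], .y [0, 3, 1, 15, 13, 11, 9, 7, 5], .l [4, 15, 11, 12, 14, 10, 10, 8, 8, 6, 6, 4, 6, 3, 4, 0, 1], .l [0, 2, 14, 12, 12, 11, 11, 9, 9, 7, 7, 5, 5, 3, 3, 1, 3, 1], .l [0, 2, 14, 12, 12, 11, 11, 9, 9, 7, 7, 5, 5, 3, 3, 1, 1, 1]]),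
([p 4 1, m 3 2, g, s 1 3, g, p 5 4, g, p 6 5, g, p 7 6, g, p 0 7, g, m 2 0, g], .lo 11, [.l [2, 7, 4, 10, 10, 8, 8, 6, 8, 6, 1], .l [3, 12], .l [2, 7, 4, 10], .l [4, 7, 2, 10, 10, 8, 8, 6, 8, 4, 5], .l [5, 12], .l [4, 7, 2, 10], .l [6, 9, 7, 7, 2, 8, 8, 6, 8, 4, 5], .l [7, 12], .l [6, 9, 7, 7, 2, 8], .l [8, 11, 9, 9, 7, 7, 2, 6, 8, 4, 5], .l [9, 12], .l [4, 15, 11, 12, 7, 3, 3, 1, 8, 4, 1, 4, 2, 0, 1], .l [12, 13, 9, 9, 7, 7, 5, 5, 0, 4, 6, 2, 3], .l [11, 12], .l [6, 7, 5, 13, 9, 10, 5, 1, 8, 4, 1, 4, 2, 0, 1], .l [10, 11, 9, 9, 7, 7, 5, 5, 0, 4, 6, 2, 3], .r 340 [1, 2, 3, 4, 5, 6, 7, 8] [1, 1, 1, 1, 1, 1, 1, 1], .l [10, 11, 9, 9, 7, 7, 5, 5, 0, 4], .y [0, 3, 1, 13, 11, 9, 7, 5], .l [4, 13, 9, 10, 12, 8, 8, 6,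 6, 4, 6, 3, 4, 0, 1], .l [4, 13, 9, 10, 12, 8, 8, 6, 6, 4, 6, 3, 4, 0, 1], .l [8, 9, 7, 7, 5, 9, 5, 6, 3, 6, 2, 0, 3]]),
([p 4 1, m 3 2, g, s 1 3, g, p 5 4, g, p 6 5, g, p 0 6, g, m 2 0, g], .lo 9, [.l [2, 7, 4, 8, 8, 6, 8, 6, 1], .l [3, 10], .l [2, 7, 4, 8], .l [4, 7, 2, 8, 8, 6, 8, 4, 5], .l [5, 10], .l [4, 7, 2, 8], .l [6, 9, 7, 7, 2, 6, 8, 4, 5], .l [7, 10], .l [6, 9, 7, 7, 2, 6], .l [10, 11, 7, 7, 5, 5, 0, 4, 6, 2, 3], .l [9, 10], .l [4, 13, 9, 10, 5, 1, 8, 4, 1, 4, 2, 0, 1], .l [8, 9, 7, 7, 5, 5, 0, 4, 6, 2, 3], .r 341 [1, 2, 3, 4, 5, 6, 7] [1, 1, 1, 1, 1, 1, 1], .l [8, 9, 7, 7, 5, 5, 0, 4], .y [0, 3, 1, 11, 9, 7, 5], .l [4, 11, 7, 8, 10, 6, 6, 4, 6, 3, 4, 0, 1], .l [4, 11, 7, 8, 10, 6, 6, 4, 6, 3, 4, 0,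 1], .l [6, 7, 5, 9, 5, 6, 3, 6, 2, 0, 3]]),
([p 4 1, m 3 2, g, s 1 3, g, p 5 4, g, p 0 5, g, m 2 0, g], .lo 7, [.l [2, 7, 4, 6, 8, 6, 1], .l [3, 8], .l [2, 7, 4, 6], .l [4, 7, 2, 6, 8, 4, 5], .l [5, 8], .l [4, 7, 2, 6], .l [8, 9, 5, 5, 0, 4, 6, 2, 3], .l [7, 8], .l [6, 9, 7, 7, 2, 1], .l [6, 7, 5, 5, 0, 4, 6, 2, 3], .r 342 [1, 2, 3, 4, 5, 6] [1, 1, 1, 1, 1, 1], .l [6, 7, 5, 5, 0, 4], .y [0, 3, 1, 9, 7, 5], .l [4, 9, 5, 6, 3, 6, 2, 0, 3], .l [4, 9, 5, 6, 8, 4, 6, 3, 4, 0, 1], .l [4, 9, 5, 6, 3, 6, 2, 0, 3]]),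
([p 4 1, m 3 2, g, s 1 3, g, p 0 4, g, m 2 0, g], .lo 5, [.l [6, 7, 0, 2, 6, 4, 1], .l [3, 6], .l [2, 7, 4, 3], .l [6, 7, 0, 4, 6, 2, 3], .l [5, 6], .l [4, 7, 2, 1], .l [4, 5, 0, 4, 6, 2, 3], .r 343 [1, 2, 3, 4, 5] [1, 1, 1, 1, 1], .l [4, 5, 0, 4], .y [0, 3, 1, 7, 5], .l [4, 5, 0, 6, 3, 4, 1], .r 339 [1, 2, 3, 4, 5] [1, 1, 1, 1, 1], .l [4, 5, 0, 6]]),
([p 3 1, m 8 2, g, p 4 3, g, p 5 4, g, p 6 5, g, p 7 6, g, p 0 7, g, s 1 8, g, m 2 0, g], .lo 11, [.l [2, 5, 2, 10, 10, 8, 8, 6, 6, 4, 8, 6, 3], .l [3, 12], .l [0, 14, 11, 9, 9, 7, 7, 5, 5, 3, 3, 1, 1, 2, 2, 1, 3, 1], .l [4, 7, 5, 5, 2, 8, 8, 6, 6, 4, 8, 6, 3], .l [5, 12], .l [0, 14, 9, 7, 7, 5, 5, 3, 3, 1, 3, 1, 6, 2, 2, 1, 3, 1], .l [6, 9, 7, 7, 5, 5, 2, 6, 6,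 4, 8, 6, 3], .l [7, 12], .l [1, 14, 7, 5, 5, 3, 3, 1, 3, 1, 6, 0, 2, 1, 5, 3, 3, 1], .l [8, 11, 9, 9, 7, 7, 5, 5, 2, 4, 8, 6, 3], .l [9, 12], .l [1, 14, 5, 3, 3, 1, 3, 1, 8, 0, 2, 1, 7, 5, 5, 3, 3, 1], .l [10, 13, 11, 11, 9, 9, 7, 7, 5, 9, 7, 4, 6, 1, 4, 2, 1], .l [11, 12], .l [1, 14, 3, 1, 3, 1, 10, 0, 2, 1, 9, 7, 7, 5, 5, 3, 3, 1], .l [10, 11, 9, 9, 7, 7, 5, 5, 3, 3, 0, 2, 6, 4, 1], .l [1, 14, 14, 0, 2, 1, 13, 11, 11, 9, 9, 7, 7, 5, 5, 3, 3, 1], .l [1, 14, 3, 1, 12, 0, 2, 1, 11, 9, 9, 7, 7, 5, 5, 3, 3, 1], .l [10, 11, 9, 9, 7, 7, 5, 5, 3, 3, 0, 4, 6, 2, 3], .l [0, 12, 14, 12, 12, 10, 10, 8, 8, 6, 6, 4, 6, 4, 4, 3, 3, 1], .l [4, 17, 13, 8, 1, 8, 2, 10, 5, 1, 3, 5, 6, 0, 3], .y [0, 13, 1, 15, 11, 9, 7, 5, 3],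 .l [10, 11, 9, 9, 7, 7, 5, 5, 3, 7, 5, 2, 4, 1, 2, 0, 1], .l [0, 12, 16, 14, 14, 12, 12, 10, 10, 8, 8, 6, 4, 2, 2, 1, 3, 1], .l [1, 12, 12, 0, 2, 1, 11, 9, 9, 7, 7, 5, 5, 3, 3, 1, 1, 1]]),
([p 3 1, m 7 2, g, p 4 3, g, p 5 4, g, p 6 5, g, p 0 6, g, s 1 7, g, m 2 0, g], .lo 9, [.l [2, 5, 2, 8, 8, 6, 6, 4, 8, 6, 3], .l [3, 10], .l [0, 12, 9, 7, 7, 5, 5, 3, 3, 1, 6, 2, 3], .l [4, 7, 5, 5, 2, 6, 6, 4, 8, 6, 3], .l [5, 10], .l [2, 15, 13, 10, 7, 5, 5, 3, 3, 1, 6, 1, 2, 0, 1], .l [6, 9, 7, 7, 5, 5, 2, 4, 8, 6, 3], .l [7, 10], .l [4, 5, 3, 13, 11, 8, 5, 3, 3, 1, 6, 1, 2, 0, 1], .l [8, 11, 9, 9, 7, 7, 5, 9, 7, 4, 6, 1, 4, 2, 1], .l [9, 10], .l [6, 7, 5, 5, 3, 11, 9, 6, 3, 1, 6, 1, 2, 0, 1], .l [8, 9, 7, 7, 5, 5, 3, 3,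 0, 2, 6, 4, 1], .r 345 [1, 2, 3, 4, 5, 6, 8, 7] [1, 1, 1, 1, 1, 1, 1, 1], .l [8, 9, 7, 7, 5, 5, 3, 3, 0, 2], .l [8, 9, 7, 7, 5, 5, 3, 3, 0, 4, 6, 2, 3], .l [2, 15, 13, 8, 10, 8, 8, 6, 6, 4, 6, 3, 4, 0, 1], .l [4, 15, 11, 6, 10, 3, 4, 8, 1, 3, 6, 0, 3], .y [0, 11, 1, 13, 9, 7, 5, 3], .l [8, 9, 7, 7, 5, 5, 3, 7, 5, 2, 4, 1, 2, 0, 1], .l [11, 9, 10, 8, 8, 6, 6, 4, 4, 2, 6, 3, 4, 0, 1], .l [6, 7, 5, 5, 3, 9, 7, 4, 1, 6, 4, 0, 3]]),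
([p 3 1, m 6 2, g, p 4 3, g, p 5 4, g, p 0 5, g, s 1 6, g, m 2 0, g], .lo 7, [.l [2, 5, 2, 6, 6, 4, 8, 6, 3], .l [3, 8], .l [0, 10, 7, 5, 5, 3, 3, 1, 6, 2, 3], .l [4, 7, 5, 5, 2, 4, 8, 6, 3], .l [5, 8], .l [2, 13, 11, 8, 5, 3, 3, 1, 6, 1, 2, 0, 1], .l [6, 9, 7, 7, 5, 9, 7, 4, 6, 1, 4, 2, 1], .l [7, 8], .l [4, 5, 3, 11, 9, 6, 3, 1, 6, 1, 2, 0, 1], .l [6, 7, 5, 5, 3, 3, 0, 2, 6, 4, 1], .r 346 [1, 2, 3, 4, 5, 7, 6] [1, 1, 1, 1, 1, 1, 1], .l [6, 7, 5, 5, 3, 3, 0, 2], .l [6, 7, 5, 5, 3, 3, 0, 4, 6, 2, 3], .l [2, 13, 11, 6, 8, 6, 6, 4, 6, 3, 4, 0, 1], .l [4, 5, 3, 11, 9, 4, 1, 4, 2, 0, 1], .y [0, 9, 1, 11, 7, 5, 3], .l [6, 7, 5, 5, 3, 7, 5, 2, 4, 1, 2, 0, 1], .l [9, 7, 8, 6, 6, 4, 4, 2, 6, 3, 4, 0, 1], .l [4, 5, 3,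 9, 7, 4, 1, 6, 4, 0, 3]]),
([p 3 1, m 5 2, g, p 4 3, g, p 0 4, g, s 1 5, g, m 2 0, g], .lo 5, [.l [2, 5, 2, 4, 8, 6, 3], .l [3, 6], .l [0, 8, 5, 3, 3, 1, 6, 2, 3], .l [4, 7, 5, 9, 7, 4, 6, 1, 4, 2, 1], .l [5, 6], .l [2, 11, 9, 6, 3, 1, 6, 1, 2, 0, 1], .l [4, 5, 3, 3, 0, 2, 6, 4, 1], .r 347 [1, 2, 3, 4, 6, 5] [1, 1, 1, 1, 1, 1], .l [4, 5, 3, 3, 0, 2], .l [4, 5, 3, 3, 0, 4, 6, 2, 3], .l [2, 11, 9, 4, 6, 4, 6, 3, 4, 0, 1], .l [2, 11, 9, 4, 1, 4, 2, 0, 1], .y [0, 7, 1, 9, 5, 3], .l [4, 5, 3, 7, 5, 2, 4, 1, 2, 0, 1], .l [7, 5, 6, 4, 4, 2, 6, 3, 4, 0, 1], .l [2, 9, 7, 4, 1, 6, 4, 0, 3]]),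
([p 3 1, m 4 2, g, p 0 3, g, s 1 4, g, m 2 0, g], .lo 3, [.l [2, 9, 7, 4, 6, 1, 4, 2, 1], .l [3, 4], .l [0, 6, 3, 1, 6, 2, 3], .l [2, 3, 0, 2, 6, 4, 1], .r 348 [1, 2, 3, 5, 4] [1, 1, 1, 1, 1], .l [2, 3, 0, 2], .l [2, 3, 0, 4, 6, 2, 3], .l [2, 9, 7, 2, 6, 3, 4, 0, 1], .l [2, 3, 0, 4], .y [0, 5, 1, 7, 3], .l [2, 7, 5, 2, 4, 1, 2, 0, 1], .l [5, 3, 4, 2, 6, 3, 4, 0, 1], .l [2, 3, 0, 6]]),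
([p 0 1, m 3 2, g, s 1 3, g, m 2 0, g], .lo 0, [.l [2], .r 349 [1, 2, 4, 3] [1, 1, 1, 1], .l [2], .l [4], .r 344 [1, 2, 3, 4] [1, 1, 1, 1], .l [4], .y [0, 3, 1, 5], .l [6], .l [3, 1, 6, 3, 4, 0, 1], .l [6]]),
([p 0 1, m 0 2, g, s 1 0, g, m 2 0, g], .lo 1, [.l [3, 1, 6, 4, 1], .l [3, 1], .l [1, 2], .r 350 [1, 2, 3] [1, 1, 1], .l [5, 3, 6, 2, 3], .l [5, 3], .l [1, 4], .y [1, 5], .l [7, 5, 1, 4, 1], .l [7, 5], .l [1, 6]]),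
([p 3 1, m 6 2, g, p 0 3, g, m 0 4, g, m 2 0, m 4 5, g, m 5 0, g, s 1 0, g, s 0 6, g], .hi 7, [.l [2, 5, 2, 6, 6, 2, 9], .l [1, 15, 12, 5, 5, 12, 1], .l [3, 8], .l [1, 13, 10, 3, 3, 10, 1], .l [1, 15, 6, 0, 13, 7, 1, 9, 5, 1, 5, 6, 3], .l [1, 15, 10, 3, 3, 12, 3], .l [5, 8], .l [5, 6], .l [1, 15, 8, 1, 1, 12, 5, 1, 7, 7, 5, 3, 1], .l [1, 15, 8, 1, 1, 12, 5], .l [7, 8], .l [1, 15, 8, 2, 4, 2, 10], .l [1, 15, 8, 2, 4, 2, 10], .l [1, 15, 8, 0, 13, 5, 1, 9, 1, 8, 5], .l [6, 10, 5, 14, 5, 9, 3, 9, 2, 6, 4, 6, 3], .l [6, 7, 1, 3, 2, 9], .l [7, 12, 11, 11, 5, 10, 1, 7, 10, 6, 1, 2, 5], .l [0, 11, 4, 11, 4, 2, 8], .l [0, 11, 4, 11, 4, 2, 8], .l [1, 15, 8, 0, 13, 7, 3, 9, 5, 1, 5, 6, 3], .y [1, 7, 14], .l [0, 11, 4, 13,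 6, 2, 10], .l [0, 11, 4, 13, 6, 2, 10], .l [14, 12, 6, 14, 12, 5, 11, 2, 3]]),
([p 3 1, m 0 2, g, p 4 3, g, p 5 4, g, p 0 5, g, m 2 6, m 6 7, g, m 7 8, g, m 8 0, g, s 1 0, g], .lo 7, [.l [2, 5, 2, 6, 6, 4, 6, 4, 11], .l [3, 8], .l [0, 17, 14, 5, 5, 3, 3, 1, 1, 9, 6], .l [4, 7, 5, 5, 2, 4, 6, 4, 11], .l [5, 8], .l [0, 17, 12, 3, 14, 8, 8, 7, 7, 5, 9, 5, 1, 5, 3, 1, 1, 3], .l [6, 11, 5, 16, 7, 11, 3, 12, 1], .l [7, 8], .l [0, 17, 10, 1, 14, 10, 10, 9, 9, 7, 3, 7, 3, 7, 1, 5, 3, 1], .l [6, 7, 5, 5, 3, 3, 0, 2, 4, 2, 9], .l [5, 11, 6, 16, 6, 12, 5, 12, 1, 11, 1, 7, 7, 5, 5, 3, 1, 3], .l [0, 17, 10, 1, 14, 10, 10, 9, 9, 7, 7, 5, 7, 5, 5, 3, 3, 3], .l [6, 7, 5, 5, 3, 3, 0, 5, 7, 5, 5, 4, 4, 2, 5], .l [10, 12, 8, 10,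 4, 15, 7, 11, 3, 11, 1, 9, 1, 5, 5, 3, 3, 1], .l [0, 17, 10, 4, 6, 4, 4, 3, 11, 7, 7, 5, 7, 5, 5, 3, 3, 3], .l [6, 7, 5, 5, 3, 3, 0, 7, 9, 7, 7, 5, 5, 4, 4, 2, 3], .l [9, 14, 11, 7, 11, 13, 9, 11, 9, 9, 7, 7, 4, 0, 4, 5, 3, 1], .l [0, 17, 10, 6, 8, 6, 6, 4, 4, 3, 9, 5, 7, 5, 5, 3, 3, 3], .l [0, 15, 8, 6, 6, 4, 4, 2, 2, 1, 7, 5, 5, 3, 3, 1, 1, 1], .l [6, 9, 3, 16, 9, 13, 3, 12, 7], .l [5, 9, 4, 16, 8, 12, 3, 12, 1, 11, 1, 7, 7, 5, 5, 3, 1, 3], .l [5, 9, 4, 16, 8, 12, 3, 12, 1, 11, 3, 9, 7, 5, 5, 3, 3, 1], .y [0, 16, 7, 5, 3], .l [6, 9, 3, 14, 7, 11, 3, 10, 11], .l [6, 9, 3, 14, 7, 11, 14, 2, 9], .l [0, 15, 8, 15, 4, 2, 10]]),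
([p 3 1, m 8 2, g, p 4 3, g, p 0 4, g, m 2 5, m 5 6, g, m 6 7, g, m 7 0, g, s 1 0, g, s 0 8, g], .lo 5, [.l [2, 5, 2, 4, 6, 4, 11], .l [3, 6], .l [0, 15, 12, 3, 3, 1, 1, 9, 6], .l [6, 7, 3, 3, 0, 2, 4, 2, 9], .l [5, 6], .l [1, 17, 12, 1, 3, 14, 3], .l [4, 5, 3, 3, 0, 2, 4, 2, 9], .r 353 [1, 2, 3, 4, 9, 5, 6, 7] [1, 1, 1, 1, 1, 1, 1, 3], .l [1, 17, 12, 1, 3, 14, 3], .l [4, 5, 3, 3, 0, 5, 7, 5, 5, 4, 4, 2, 5], .l [4, 1, 6, 3, 13, 8, 11, 7, 5, 7, 1, 6, 3], .l [1, 17, 12, 4, 6, 4, 12], .l [4, 5, 3, 3, 0, 7, 9, 7, 7, 5, 5, 4, 4, 2, 3], .l [8, 2, 12, 8, 3, 9, 2, 10, 7, 3, 6, 1], .l [1, 17, 12, 6, 8, 6, 6, 4, 10], .l [1, 15, 10, 6, 6, 4, 4, 2, 8], .l [4, 7, 3, 14, 9, 11, 1, 12, 4, 10, 8, 0, 5], .l [8, 14, 10, 10, 8,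 8, 5, 6, 11, 6, 2, 8, 3], .l [4, 5, 3, 3, 0, 9], .y [0, 14, 5, 3], .l [0, 13, 8, 13, 4, 2, 8], .l [1, 9, 16, 11, 5, 12, 10, 5, 7, 3, 5, 6, 7], .l [0, 13, 8, 13, 4, 2, 8], .l [0, 13, 8, 15, 6, 2, 10], .l [1, 9, 18, 13, 5, 14, 12, 5, 9, 5, 7, 8, 3], .l [0, 13, 8, 15, 6, 2, 10]]),
([p 3 1, m 7 2, g, p 0 3, g, m 2 4, m 4 5, g, m 5 6, g, m 6 0, g, s 1 0, g, s 0 7, g], .lo 3, [.l [4, 5, 0, 2, 4, 2, 9], .l [3, 4], .l [0, 13, 10, 1, 1, 9, 6], .l [2, 3, 0, 2, 4, 2, 9], .r 354 [1, 2, 3, 8, 4, 5, 6, 7] [1, 1, 1, 1, 1, 1, 1, 1], .l [1, 15, 12, 1, 3, 12, 1], .l [2, 3, 0, 5, 7, 5, 5, 4, 4, 2, 5], .l [3, 8, 7, 7, 4, 11, 6, 8, 5], .l [1, 15, 12, 4, 6, 4, 10], .l [2, 3, 0, 7, 9, 7, 7, 5, 5, 4, 4, 2, 3], .l [6, 10, 6, 6, 3, 4,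 11, 8, 2, 8, 1], .l [1, 15, 12, 6, 8, 6, 6, 4, 8], .l [1, 13, 10, 6, 6, 4, 4, 2, 6], .l [0, 13, 3, 9, 6, 1, 6, 1, 7, 4, 1], .l [0, 13, 3, 9, 6, 1, 6, 1, 7, 4, 1], .l [2, 3, 0, 9], .y [0, 12, 3], .l [8, 10, 9, 13, 8, 8, 5, 6, 9, 4, 2, 6, 1], .l [6, 14, 10, 10, 7, 8, 11, 4, 2, 8, 1], .l [2, 3, 0, 11], .l [14, 12, 6, 7, 6, 13, 8, 1, 9, 4, 5, 7, 5], .l [7, 16, 11, 1, 3, 13, 9, 1, 10, 3], .l [2, 3, 0, 13]]),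
([p 3 1, m 6 2, g, p 0 3, g, m 2 4, m 4 5, g, m 5 0, g, s 1 0, g, s 0 6, g], .hi 8, [.l [2, 5, 2, 7, 7, 5, 5, 4, 4, 2, 3], .l [1, 13, 10, 6, 6, 4, 8], .l [3, 9], .l [1, 11, 8, 4, 4, 2, 6], .l [5, 9, 9, 7, 2], .l [1, 13, 8, 4, 4, 2, 8], .l [5, 9], .l [0, 11, 3, 1, 6, 0, 7, 4, 1], .l [7, 10, 8, 8, 7, 7, 3, 5, 4, 1], .l [8, 9], .l [1, 13, 5, 1, 10, 6, 8, 6, 7, 5, 1, 3, 3], .l [7, 8, 6, 6, 5, 5, 1, 3, 2, 3], .r 355 [1, 2, 3, 4, 5, 7, 6] [1, 1, 1, 1, 1, 1, 1], .l [1, 5, 4, 8, 10, 8, 8, 6, 7, 5, 1, 3, 3], .l [5, 6, 5, 5, 1, 6, 1, 6, 4, 2, 3], .l [1, 5, 4, 8, 10, 8, 8, 6, 7], .y [1, 5, 6, 8, 12], .l [1, 11, 13, 9, 9, 7, 4], .l [1, 11, 3, 11, 6, 4, 7], .l [1, 11, 13, 9, 9, 7, 4]]),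
([p 3 1, m 5 2, g, p 0 3, g, m 2 0, m 0 4, g, m 4 0, g, s 1 0, g, s 0 5, g], .lo 6, [.l [1, 8, 4, 1, 4, 7, 5, 2, 5], .l [8, 4], .l [5, 8, 5, 7, 4, 9, 4, 6, 3], .l [1, 8, 2, 11, 4, 8, 5], .l [8, 2], .r 352 [1, 2, 3, 6, 4, 5] [1, 1, 1, 1, 1, 1, 1], .r 356 [1, 2, 3, 6, 4, 5] [1, 1, 1, 1, 1, 1], .l [1, 8, 1, 9, 7, 4, 7], .l [8, 1], .l [6, 7], .y [6, 8], .l [1, 6, 9, 6, 1, 4, 5, 2, 5], .l [10, 3], .l [6, 9], .l [0, 12, 10, 4, 6, 3, 7, 2, 3], .l [1, 6, 11, 8, 1, 4, 7, 4, 1], .l [12, 5], .l [6, 11], .l [1, 6, 13, 10, 1, 4, 9, 6, 1], .l [14, 7], .l [6, 13]]),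
([p 0 1, m 4 2, g, m 2 0, m 0 3, g, m 3 0, g, s 1 0, g, s 0 4, g], .lo 0, [.l [2], .r 357 [1, 2, 5, 3, 4] [1, 1, 1, 1, 1, 1], .l [2], .l [2], .l [5], .l [1, 6, 4, 9, 4, 6, 3], .l [5], .l [5], .l [7], .l [4, 8, 3, 4, 9, 6, 2, 6, 1], .l [7], .y [0, 8], .l [9], .l [4, 10, 5, 6, 9, 4, 2, 6, 1], .l [9], .l [11], .l [10, 8, 11, 1, 4, 2, 6], .l [11]]),
([p 0 1, m 3 2, g, m 2 0, m 0 0, g, s 1 0, g, s 0 3, g], .hi 4, [.l [3], .l [3, 5, 2], .l [1, 9, 6, 2, 6], .l [3, 5], .y [4], .l [10, 8, 8, 6, 1], .l [10, 8, 8, 6, 1], .r 358 [1, 2, 4, 3] [1, 1, 1, 1, 1], .l [10, 8, 8, 6, 3], .l [10, 8, 8, 6, 3], .l [1, 3, 2, 4, 6, 4, 5], .l [1, 7, 7, 3, 2], .l [8, 6, 6, 4, 7], .l [1, 7, 3, 8, 4, 2, 3], .l [1, 7, 9, 5, 2]]),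
([p 3 1, m 8 2, g, p 4 3, g, p 5 4, g, p 7 5, g, m 2 0, m 0 6, g, m 6 0, g, p 0 7, g, s 1 8, g], .hi 9, [.l [2, 5, 2, 8, 8, 2, 13], .l [1, 17, 14, 7, 12, 10, 10, 8, 8, 6, 6, 6, 7, 0, 4], .l [3, 10], .l [4, 7, 5, 5, 2, 6, 6, 2, 11], .l [1, 17, 12, 5, 10, 8, 8, 6, 11, 0, 8], .l [5, 10], .l [6, 9, 7, 7, 5, 5, 2, 4, 4, 2, 9], .l [1, 17, 10, 3, 8, 6, 13, 0, 10], .l [7, 10], .l [8, 16, 14, 14, 12, 12, 10, 10, 7, 1, 1, 6, 7], .l [1, 17, 8, 1, 15, 0, 12], .l [9, 10], .l [1, 15, 15, 0, 2, 1, 7, 5, 5, 3, 3, 1, 7, 5, 5, 3, 3, 1], .l [8, 16, 14, 14, 12, 12, 10, 10, 7, 2, 4, 2, 4], .l [1, 17, 8, 2, 4, 2, 12], .l [1, 17, 17, 0, 2, 1, 7, 5, 5, 3, 3, 1, 9, 7, 7, 3, 5, 3], .l [13, 16, 9, 9, 7, 7, 5, 5, 2, 4, 4, 2, 7], .l [1,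 17, 8, 4, 8, 1, 13, 0, 8], .l [10, 12, 11, 15, 12, 12, 10, 10, 8, 10, 8, 9, 1, 3, 1, 5, 5, 1], .y [0, 16, 1, 9, 14, 7, 5, 3], .l [6, 10, 15, 13, 9, 12, 5, 12, 3, 9, 10, 6, 1, 4, 5], .l [8, 9, 1, 3, 2, 13], .l [10, 12, 11, 15, 14, 12, 10, 12, 6, 11, 1, 5, 9, 7, 1, 5, 3, 3], .l [0, 15, 6, 15, 4, 2, 12], .l [0, 15, 6, 15, 4, 2, 12], .l [10, 12, 11, 13, 10, 10, 8, 8, 6, 8, 6, 7, 9, 7, 7, 1, 5, 3]]),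
([p 3 1, m 7 2, g, p 4 3, g, p 5 4, g, p 0 5, g, m 2 0, m 0 6, g, m 6 0, g, s 1 7, g], .lo 7, [.l [2, 5, 2, 6, 6, 4, 6, 4, 9], .l [3, 8], .l [0, 15, 12, 5, 5, 3, 3, 1, 1, 7, 4], .l [4, 7, 5, 5, 2, 4, 6, 4, 9], .l [5, 8], .l [1, 15, 10, 3, 3, 1, 8, 6, 9, 0, 6], .l [6, 11, 5, 14, 5, 9, 3, 10, 1], .l [7, 8], .l [1, 15, 8, 1, 8, 6, 11, 0, 8], .l [6, 7, 5, 5, 3, 3, 0, 2, 4, 2, 7], .l [6, 11, 5, 14, 5, 11, 12, 8, 1, 6, 7], .l [1, 15, 8, 1, 13, 0, 8], .y [0, 14, 1, 9, 7, 5, 3], .l [6, 9, 3, 14, 7, 11, 3, 10, 3], .l [7, 12, 11, 11, 9, 9, 7, 7, 4, 9, 4, 6, 3], .l [1, 15, 8, 4, 6, 4, 10], .l [1, 13, 6, 4, 4, 2, 8], .l [6, 9, 3, 14, 7, 11, 3, 10, 5], .r 360 [1, 2, 3, 4, 5, 6, 8, 7] [1, 1, 1, 1, 1, 1, 1, 1], .l [6, 7, 5,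 5, 3, 3, 0, 7], .l [6, 9, 3, 12, 5, 9, 3, 8, 9], .l [2, 9, 7, 12, 14, 6, 6, 4, 6, 3, 4, 0, 1], .l [0, 13, 6, 13, 4, 2, 8]]),
([p 3 1, m 8 2, g, p 4 3, g, p 7 4, g, m 2 5, m 5 6, g, m 6 0, g, p 0 7, g, s 1 8, g], .hi 10, [.l [2, 5, 2, 9, 9, 7, 7, 6, 6, 2, 7], .l [0, 15, 12, 8, 8, 6, 6, 5, 7, 5, 5, 3, 3, 4, 4, 3, 3, 1], .l [3, 11], .l [4, 7, 5, 5, 2, 7, 7, 5, 5, 4, 4, 2, 5], .l [0, 15, 10, 6, 6, 4, 4, 3, 9, 5, 7, 3, 3, 5, 1, 3, 3, 1], .l [5, 11], .l [6, 14, 12, 12, 10, 10, 7, 4, 4, 2, 4], .l [0, 15, 8, 4, 4, 2, 6, 1, 9, 3, 7, 5, 3, 1, 3, 3, 3, 1], .l [7, 11], .l [9, 12, 10, 10, 9, 11, 9, 9, 7, 7, 4, 1, 1, 2, 3], .l [1, 15, 5, 1, 8, 4, 1, 5, 3, 8, 2, 1, 3, 5, 5, 1, 3, 1], .l [10, 11], .l [9, 10, 8, 12, 9, 9, 7,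 9, 7, 8, 1, 5, 3, 4, 1], .l [1, 15, 5, 1, 8, 4, 6, 4, 8], .l [1, 15, 15, 0, 2, 1, 5, 3, 3, 1, 9, 7, 7, 5, 5, 3, 3, 1], .y [0, 14, 1, 7, 8, 10, 12, 5, 3], .l [9, 10, 8, 10, 7, 7, 5, 7, 5, 8, 3, 5, 1, 4, 1], .l [1, 15, 5, 3, 13, 0, 2, 1, 5, 3, 3, 1, 7, 5, 5, 3, 3, 1], .l [1, 15, 15, 0, 2, 1, 5, 3, 3, 1, 7, 5, 5, 3, 3, 1, 3, 1], .l [9, 10, 8, 10, 7, 7, 5, 7, 5, 6, 1, 3, 1, 2, 3], .l [0, 13, 3, 13, 4, 2, 2, 1, 5, 3, 3, 1, 1, 3, 1, 3, 1, 1], .l [0, 13, 15, 11, 11, 9, 9, 8, 10, 8, 8, 6, 4, 2, 2, 1, 3, 1]]),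
([p 0 1, m 7 2, g, m 0 3, g, m 3 4, g, m 4 5, g, m 2 0, m 5 6, g, m 6 0, g, s 1 7, g], .lo 0, [.l [2], .l [6, 11, 5, 14, 5, 11, 12, 8, 1, 6, 7], .l [2], .l [4], .l [9, 12, 11, 11, 9, 9, 5, 7, 4, 9, 4, 6, 3], .l [4], .l [6], .l [4, 11, 7, 14, 5, 11, 1, 10, 7], .l [6], .l [8], .l [3, 9, 5, 1, 6, 9, 4, 11, 4, 6, 3], .l [8], .y [0, 14, 1, 9], .l [11], .l [3, 12, 8, 1, 9, 11, 6, 8], .l [11], .l [11], .l [13], .l [4, 10, 7, 14, 5, 10, 12, 0, 7, 3, 1, 4, 5], .l [13], .l [15], .l [14, 12, 15, 1, 2, 0, 4], .l [15]]),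
([p 0 1, m 6 2, g, m 0 3, g, m 3 4, g, m 2 0, m 4 5, g, m 5 0, g, s 1 6, g], .lo 3, [.l [5, 1, 8, 4, 11], .l [5, 1], .r 363 [1, 2, 7, 3, 4, 5, 6] [1, 1, 1, 1, 1, 1, 1], .l [5, 1, 6, 4, 6, 4, 9], .l [5, 1], .l [3, 4], .l [7, 3, 3, 1, 6, 2, 9], .l [7, 3], .l [3, 6], .l [3, 6], .l [3, 9, 11, 9, 4], .l [10, 6], .l [3, 9], .y [3, 5, 8, 10], .l [1, 13, 1, 8, 8, 6, 9, 0, 6], .l [12, 8], .l [3, 11], .l [12, 10, 1, 11, 2, 0, 4], .l [14, 10], .l [3, 13]]),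
([p 0 1, m 5 2, g, m 0 3, g, m 2 0, m 3 4, g, m 4 0, g, s 1 5, g], .lo 3, [.l [5, 1, 6, 2, 9], .l [5, 1], .r 364 [1, 2, 6, 3, 4, 5] [1, 1, 1, 1, 1, 1], .l [5, 1, 6, 2, 9], .l [5, 1], .l [3, 4], .l [3, 4], .l [3, 7, 9, 7, 2], .l [8, 4], .l [3, 7], .y [3, 6, 8], .l [1, 11, 1, 6, 9, 0, 6], .l [10, 6], .l [3, 9], .l [10, 8, 1, 9, 2, 0, 4], .l [12, 8], .l [3, 11]]),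
([p 3 1, m 7 2, g, p 4 3, g, p 6 4, g, m 2 0, m 0 5, g, m 5 0, g, p 0 6, g, s 1 7, g], .lo 8, [.l [1, 10, 6, 1, 6, 9, 7, 4, 9], .l [10, 6], .l [5, 10, 7, 9, 6, 1, 4, 7, 5, 2], .l [10, 4, 6, 4, 11, 6, 1, 8, 3], .l [10, 4], .l [9, 14, 11, 13, 7, 12, 1, 9, 10, 4, 1, 2, 5], .l [10, 2, 13, 8, 3, 10, 3], .l [10, 2], .r 365 [1, 2, 8, 5, 7] [5, 1, 1, 3, 1], .r 362 [1, 2, 3, 4, 8, 5, 6, 7] [1, 1, 1, 1, 1, 1, 1], .l [10, 1, 11, 9, 11, 8, 8, 6, 8, 6, 7], .l [10, 1], .l [8, 9], .y [8, 10], .l [12, 3, 3, 1, 12, 6, 6, 4, 6, 4, 7], .l [12, 3], .l [8, 11], .l [1, 15, 1, 5, 8, 4, 1, 5, 7, 5, 8, 0, 5], .l [14, 5], .l [8, 13], .l [1, 8, 15, 10, 1, 4, 11, 8, 3], .l [16, 7], .l [8, 15]]),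
([p 3 1, m 6 2, g, p 4 3, g, p 0 4, g, m 2 0, m 0 5, g, m 5 0, g, s 1 6, g], .lo 5, [.l [2, 5, 2, 4, 6, 4, 9], .l [3, 6], .l [0, 13, 10, 3, 3, 1, 1, 7, 4], .l [6, 7, 3, 3, 0, 2, 4, 2, 7], .l [5, 6], .l [1, 13, 8, 1, 8, 6, 9, 0, 6], .l [4, 5, 3, 3, 0, 2, 4, 2, 7], .r 361 [1, 2, 3, 4, 7, 5, 6] [1, 1, 1, 1, 1, 1, 1], .l [1, 13, 8, 1, 11, 0, 6], .y [0, 12, 1, 7, 5, 3], .l [1, 13, 8, 4, 6, 4, 8], .l [5, 10, 9, 9, 7, 7, 4, 9, 4, 6, 3], .l [1, 13, 8, 4, 6, 4, 8], .l [1, 11, 6, 4, 4, 2, 6], .l [8, 3, 11, 4, 11, 6, 4, 9, 0, 6, 3], .r 366 [1, 2, 3, 4, 5, 7, 6] [1, 1, 1, 1, 1, 1, 1], .l [4, 5, 3, 3, 0, 7], .l [0, 11, 6, 11, 4, 2, 6], .l [2, 7, 5, 10, 12, 4, 6, 3, 4, 0, 1], .l [0, 11, 6, 11, 4, 2, 6]]),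
([p 3 1, m 7 2, g, p 6 3, g, m 2 4, m 4 5, g, m 5 0, g, p 0 6, g, s 1 7, g], .hi 8, [.l [2, 5, 2, 7, 7, 5, 5, 4, 4, 2, 5], .l [0, 13, 10, 6, 6, 4, 6, 3, 3, 6, 1], .l [3, 9], .l [4, 12, 10, 10, 7, 4, 4, 2, 4], .l [1, 13, 8, 4, 4, 2, 8], .l [5, 9], .l [7, 10, 8, 8, 7, 9, 7, 7, 4, 1, 1, 2, 3], .l [0, 13, 5, 1, 8, 4, 1, 5, 1, 6, 3], .l [8, 9], .l [7, 8, 6, 10, 7, 9, 7, 8, 1, 5, 3, 4, 1], .l [1, 13, 5, 1, 8, 4, 6, 4, 6], .l [0, 13, 3, 9, 6, 1, 6, 1, 7, 4, 1], .y [0, 12, 1, 5, 6, 8, 10, 3], .l [7, 8, 6, 8, 5, 7, 5, 8, 3, 5, 1, 4, 1], .l [4, 10, 8, 8, 5, 0, 5, 8, 1, 4, 6, 3, 4, 0, 1], .l [7, 2, 9, 5, 1, 7, 3, 8, 4, 5], .l [7, 8, 6, 8, 5, 7, 5, 6, 1, 3, 1, 2, 3], .l [2, 5, 3, 10, 3, 10, 2, 0, 5], .l [1, 11, 13, 9, 9,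 7, 4]]),
([p 3 1, m 6 2, g, p 5 3, g, m 2 0, m 0 4, g, m 4 0, g, p 0 5, g, s 1 6, g], .lo 6, [.l [1, 8, 4, 1, 4, 7, 5, 2, 7], .l [8, 4], .l [5, 8, 5, 7, 4, 11, 6, 8, 5], .l [8, 2, 11, 6, 1, 8, 3], .l [8, 2], .r 365 [1, 2, 7, 4, 6] [3, 1, 1, 3, 1], .r 368 [1, 2, 3, 7, 4, 5, 6] [1, 1, 1, 1, 1, 1], .l [8, 1, 9, 7, 9, 6, 8, 6, 7], .l [8, 1], .l [6, 7], .y [6, 8], .l [10, 3, 3, 1, 10, 4, 6, 4, 7], .l [10, 3], .l [6, 9], .l [0, 13, 1, 5, 8, 4, 1, 5, 1, 6, 3], .l [12, 5], .l [6, 11], .l [1, 6, 13, 10, 1, 4, 9, 6, 3], .l [14, 7], .l [6, 13]]),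
([p 3 1, m 5 2, g, p 0 3, g, m 2 0, m 0 4, g, m 4 0, g, s 1 5, g], .lo 3, [.l [4, 5, 0, 2, 4, 2, 7], .l [3, 4], .l [0, 11, 8, 1, 1, 7, 4], .l [2, 3, 0, 2, 4, 2, 7], .r 367 [1, 2, 3, 6, 4, 5] [1, 1, 1, 1, 1, 1], .l [1, 11, 8, 1, 9, 0, 4], .y [0, 10, 1, 5, 3], .l [1, 11, 8, 4, 6, 4, 6], .l [3, 8, 7, 7, 4, 9, 4, 6, 3], .l [1, 11, 8, 4, 6, 4, 6], .l [1, 9, 6, 4, 4, 2, 4], .l [6, 3, 9, 4, 9, 9, 0, 4, 1], .r 369 [1, 2, 3, 4, 6, 5] [1, 1, 1, 1, 1, 1], .l [2, 3, 0, 7], .l [10, 8, 9, 7, 9, 1, 2, 0, 4], .l [10, 8, 9, 7, 9, 1, 2, 0, 4], .l [2, 3, 0, 9]]),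
([p 3 1, m 4 2, g, p 0 3, g, m 2 0, m 0 0, g, s 1 4, g], .hi 6, [.l [3, 7, 4], .l [1, 9, 6, 4, 6], .l [3, 7], .l [1, 7, 4, 2, 4], .l [5, 7, 2], .l [1, 9, 4, 2, 6], .l [5, 7], .y [6], .l [10, 9, 9, 6, 8, 6, 1], .l [10, 9, 9, 6, 8, 6, 1], .r 370 [1, 2, 3, 5, 4] [1, 1, 1, 1, 1], .l [8, 7, 7, 4, 6, 4, 5], .l [8, 7, 7, 4, 6, 4, 5], .l [1, 7, 9, 7, 4]]),
([p 6 1, m 7 2, g, m 2 3, m 3 4, g, m 4 5, g, m 5 0, g, p 0 6, g, s 1 7, g], .hi 8, [.l [2, 12, 9, 6, 6, 4, 4, 2, 4], .l [0, 13, 10, 6, 6, 4, 4, 2, 4, 6, 1], .l [3, 9], .l [5, 8, 6, 6, 5, 9, 6, 3, 3, 1, 1, 2, 3], .l [0, 13, 7, 3, 5, 9, 9, 8, 8, 6, 1], .l [6, 9], .l [7, 10, 8, 8, 6, 6, 5, 7, 4, 1, 1, 2, 3], .l [1, 13, 5, 1, 3, 8, 9, 0, 6], .l [8, 9], .l [9, 12, 2, 9,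 9, 7, 7, 5, 5, 4, 4, 2, 3], .l [1, 13, 5, 1, 3, 8, 9, 0, 6], .l [7, 10, 4, 12, 3, 8, 10, 0, 5, 3, 1, 2, 3], .y [0, 12, 1, 3, 4, 6, 8, 10], .l [2, 10, 7, 0, 7, 10, 1, 6, 6, 4, 6, 3, 4, 0, 1], .l [2, 10, 7, 0, 7, 10, 1, 6, 6, 4, 6, 3, 4, 0, 1], .l [1, 13, 7, 1, 4, 9, 10, 0, 7, 3, 4, 0, 1], .l [1, 11, 13, 9, 9, 7, 7, 5, 2], .l [7, 8, 6, 6, 4, 4, 3, 3, 1, 3, 2, 5], .l [1, 11, 13, 9, 9, 7, 7, 5, 2]]),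
([p 5 1, m 6 2, g, m 2 0, m 0 3, g, m 3 4, g, m 4 0, g, p 0 5, g, s 1 6, g], .lo 4, [.l [6, 2, 11, 5, 6, 9, 9, 0, 6], .l [6, 2], .r 365 [1, 2, 7, 3, 6] [1, 1, 1, 5, 1], .r 372 [1, 2, 7, 3, 4, 5, 6] [1, 1, 1, 1, 1, 1], .l [1, 6, 1, 7, 5, 2, 9], .l [6, 1], .l [4, 5], .l [1, 13, 5, 7, 11, 0, 7, 6, 6, 4, 5], .l [8, 3], .l [4, 7], .y [4, 6, 8], .l [1, 13, 3, 7, 11, 0, 5, 4, 4, 2, 5], .l [10, 5], .l [4, 9], .l [1, 13, 1, 7, 5, 8, 9, 0, 6], .l [12, 7], .l [4, 11], .l [4, 13, 9, 7, 9, 1, 3, 8, 5], .l [14, 9], .l [4, 13]]),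
([p 4 1, m 5 2, g, m 2 0, m 0 3, g, m 3 0, g, p 0 4, g, s 1 5, g], .hi 6, [.l [2, 10, 7, 4, 4, 2, 4], .l [0, 11, 8, 4, 4, 2, 4, 6, 1], .l [3, 7], .y [4, 6], .l [1, 11, 3, 6, 5, 1, 6, 7, 0, 4, 1], .l [1, 11, 5, 1, 3, 6, 7, 0, 4], .l [6, 7], .l [0, 11, 5, 1, 3, 7, 7, 6, 6, 4, 1], .l [0, 11, 5, 1, 3, 7, 7, 6, 6, 4, 1], .r 373 [1, 2, 3, 6, 4, 5] [1, 1, 1, 1, 1, 1], .l [0, 9, 3, 1, 1, 5, 5, 4, 4, 2, 1], .l [1, 11, 5, 6, 5, 1, 6, 7, 0, 4, 1], .l [5, 6, 4, 6, 2, 6], .l [1, 11, 5, 6, 5, 1, 6, 7, 0, 4, 1], .l [1, 9, 3, 4, 3, 1, 4, 5, 0, 2, 3], .l [5, 6, 4, 6, 2, 8], .l [1, 9, 11, 7, 7, 5, 2]]),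
([p 3 1, m 4 2, g, m 2 0, m 0 0, g, p 0 3, g, s 1 4, g], .hi 4, [.l [1, 9, 9, 0, 7, 6, 6, 2, 3], .l [0, 9, 6, 2, 4, 6, 1], .l [3, 5], .y [4], .l [1, 9, 9, 0, 7, 6, 6, 4, 1], .l [1, 9, 5, 1, 3, 5, 6, 0, 3], .r 374 [1, 2, 5, 3, 4] [1, 1, 1, 1, 1], .l [1, 7, 3, 1, 1, 3, 4, 0, 1], .l [1, 9, 9, 0, 5, 4, 4, 2, 3], .l [1, 9, 9, 0, 5, 4, 4, 2, 3], .l [1, 9, 3, 0, 6, 7, 0, 4, 1], .l [1, 7, 7, 0, 5, 4, 4, 2, 3], .l [1, 7, 7, 0, 5, 4, 4, 2, 3], .l [1, 7, 9, 5, 2]]),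
([p 0 1, m 3 2, g, m 2 0, m 0 0, g, s 1 3, g], .lo 0, [.l [2], .r 371 [1, 2, 4, 3] [1, 1, 1, 1], .l [2], .y [0, 6, 1, 3], .l [3], .l [5], .r 375 [1, 2, 4, 3] [1, 1, 1, 1], .l [5], .l [7], .l [6, 4, 7, 1, 2, 0, 2], .l [7]]),
([p 8 1, m 7 2, g, m 2 0, m 0 3, g, m 3 4, g, m 4 5, g, m 5 6, g, m 6 0, g, s 0 7, g, s 1 0, g, p 0 8, g], .hi 12, [.l [2, 20, 17, 10, 10, 8, 8, 6, 6, 4, 4, 2, 8], .l [1, 15, 12, 10, 10, 8, 8, 6, 6, 4, 4, 2, 4], .l [3, 13], .y [4, 6, 8, 10, 12], .l [5, 20, 14, 7, 7, 5, 5, 3, 10, 4, 8, 9, 4], .l [5, 8, 6, 18, 14, 7], .l [6, 13], .l [7, 10, 8, 18, 12, 5, 5, 3, 10, 4, 8, 9, 4], .l [7, 10, 8, 8, 6, 16, 12, 5], .l [8, 13], .l [9, 12, 10, 10, 8, 16, 10, 3, 10, 4, 8, 9, 4], .l [9, 12, 10, 10, 8,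 8, 6, 14, 10, 3], .l [10, 13], .l [13, 14, 10, 10, 8, 8, 6, 14, 8, 1, 8, 4, 6, 7, 4], .l [11, 14, 12, 12, 10, 10, 8, 8, 6, 12, 8, 1], .l [12, 13], .l [11, 12, 10, 10, 8, 8, 6, 14, 8, 1, 8, 4, 6, 7, 4], .l [11, 12, 10, 10, 8, 8, 6, 6, 4, 12, 8, 1], .l [7, 20, 12, 3, 13, 4, 9, 14, 4, 11, 12, 3, 7, 1, 4, 0, 5], .l [1, 13, 13, 11, 11, 9, 9, 7, 7, 5, 5, 3, 2], .l [1, 13, 15, 13, 13, 11, 11, 9, 9, 7, 7, 5, 2], .l [1, 13, 1, 13, 4, 2, 13], .l [1, 13, 15, 13, 13, 11, 11, 9, 9, 7, 7, 5, 2], .l [1, 13, 17, 15, 15, 13, 13, 11, 11, 9, 9, 7, 2], .l [1, 13, 1, 15, 6, 2, 3], .l [1, 13, 17, 15, 15, 13, 13, 11, 11, 9, 9, 7, 2], .l [1, 13, 1, 15, 6, 2, 3], .l [1, 13, 19, 17, 17, 15, 15, 13, 13, 11, 11, 9, 2], .l [1, 13, 1, 17,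 8, 2, 3], .l [1, 13, 19, 17, 17, 15, 15, 13, 13, 11, 11, 9, 2]]),
([p 7 1, m 6 2, g, m 2 0, m 0 3, g, m 3 4, g, m 4 5, g, m 5 0, g, s 0 6, g, s 1 0, g, p 0 7, g], .hi 10, [.l [2, 18, 15, 8, 8, 6, 6, 4, 4, 2, 8], .l [1, 13, 10, 8, 8, 6, 6, 4, 4, 2, 4], .l [3, 11], .y [4, 6, 8, 10], .l [5, 18, 12, 5, 5, 3, 10, 4, 8, 9, 4], .l [5, 8, 6, 16, 12, 5], .l [6, 11], .l [7, 10, 8, 16, 10, 3, 10, 4, 8, 9, 4], .l [7, 10, 8, 8, 6, 14, 10, 3], .l [8, 11], .l [11, 12, 8, 8, 6, 14, 8, 1, 8, 4, 6, 7, 4], .l [9, 12, 10, 10, 8, 8, 6, 12, 8, 1], .l [10, 11], .l [9, 10, 8, 8, 6, 14, 8, 1, 8, 4, 6, 7, 4], .l [9, 10, 8, 8, 6, 6, 4, 12, 8, 1], .r 377 [1, 2, 3, 4, 5, 8, 6, 7] [1, 1, 1, 1, 1, 1, 1, 1, 1], .l [1, 11, 11, 9, 9, 7, 7, 5,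 5, 3, 2], .l [1, 11, 13, 11, 11, 9, 9, 7, 7, 5, 2], .l [1, 11, 1, 11, 4, 2, 11], .l [1, 11, 13, 11, 11, 9, 9, 7, 7, 5, 2], .l [1, 11, 15, 13, 13, 11, 11, 9, 9, 7, 2], .l [1, 11, 1, 13, 6, 2, 3], .l [1, 11, 15, 13, 13, 11, 11, 9, 9, 7, 2], .l [1, 11, 1, 13, 6, 2, 3], .l [1, 11, 17, 15, 15, 13, 13, 11, 11, 9, 2], .l [1, 11, 1, 15, 8, 2, 3], .l [1, 11, 17, 15, 15, 13, 13, 11, 11, 9, 2]]),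
([p 6 1, m 5 2, g, m 2 0, m 0 3, g, m 3 4, g, m 4 0, g, s 0 5, g, s 1 0, g, p 0 6, g], .hi 8, [.l [2, 16, 13, 6, 6, 4, 4, 2, 8], .l [1, 11, 8, 6, 6, 4, 4, 2, 4], .l [3, 9], .y [4, 6, 8], .l [5, 16, 10, 3, 10, 4, 8, 9, 4], .l [5, 8, 6, 14, 10, 3], .l [6, 9], .l [9, 10, 6, 14, 8, 1, 8, 4, 6, 7, 4], .l [7, 10, 8, 8, 6, 12, 8, 1], .l [8, 9], .l [7, 8, 6, 14, 8, 1, 8, 4, 6, 7, 4], .l [7, 8, 6, 6, 4, 12, 8, 1], .r 378 [1, 2, 3, 4, 7, 5, 6] [1, 1, 1, 1, 1, 1, 1, 1], .l [1, 9, 9, 7, 7, 5, 5, 3, 2], .l [1, 9, 11, 9, 9, 7, 7, 5, 2], .l [1, 9, 1, 9, 4, 2, 9], .l [1, 9, 11, 9, 9, 7, 7, 5, 2], .l [1, 9, 13, 11, 11, 9, 9, 7, 2], .l [1, 9, 1, 11, 6, 2, 3], .l [1, 9, 13, 11, 11, 9, 9, 7, 2], .l [1, 9, 1, 11, 6, 2, 3], .l [1,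 9, 15, 13, 13, 11, 11, 9, 2], .l [1, 9, 1, 13, 8, 2, 3], .l [1, 9, 15, 13, 13, 11, 11, 9, 2]]),
([p 6 1, m 5 2, g, m 2 0, m 0 3, g, s 4 0, g, m 3 4, g, s 0 5, g, s 1 0, g, p 0 6, g], .lo 4, [.l [7, 16, 8, 1, 13, 2, 4, 2, 9], .l [6, 2], .l [7, 10, 8, 8, 5, 13, 10, 1, 3, 8, 1], .l [5, 8, 6, 6, 5, 11, 8, 1, 1, 6, 1], .l [1, 6, 1, 9, 7, 2, 9], .l [6, 1], .l [4, 5], .y [4, 8, 6], .l [1, 8, 3, 9, 5, 2, 9], .l [8, 3], .l [4, 7], .l [4, 9, 6, 14, 12, 3, 4, 10, 1], .l [10, 5], .l [4, 9], .l [4, 11, 8, 14, 12, 3, 6, 10, 1], .l [12, 7], .l [4, 11], .l [4, 11, 8, 12, 10, 3, 6, 8, 1], .l [4, 13, 10, 14, 12, 3, 8, 10, 7], .l [14, 9], .l [4, 13], .l [10, 8, 2, 13, 10, 1, 1, 9, 6, 1], .l [16, 11], .l [4, 15]]),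
([p 5 1, m 4 2, g, m 2 0, m 0 3, g, m 3 0, g, s 0 4, g, s 1 0, g, p 0 5, g], .hi 6, [.l [2, 14, 11, 4, 4, 2, 8], .l [1, 9, 6, 4, 4, 2, 4], .l [3, 7], .y [4, 6], .r 380 [1, 2, 3, 6, 4, 5] [1, 1, 1, 1, 1, 1, 1], .l [5, 8, 6, 12, 8, 1], .l [6, 7], .l [5, 14, 8, 1, 8, 4, 6, 7, 4], .l [5, 6, 4, 12, 8, 1], .r 379 [1, 2, 3, 6, 4, 5] [1, 1, 1, 1, 1, 1, 1], .l [1, 7, 7, 5, 5, 3, 2], .l [1, 7, 9, 7, 7, 5, 2], .l [1, 7, 1, 7, 4, 2, 7], .l [1, 7, 9, 7, 7, 5, 2], .l [1, 7, 11, 9, 9, 7, 2], .l [1, 7, 1, 9, 6, 2, 3], .l [1, 7, 11, 9, 9, 7, 2], .l [1, 7, 1, 9, 6, 2, 3], .l [1, 7, 13, 11, 11, 9, 2], .l [1, 7, 1, 11, 8, 2, 3], .l [1, 7, 13, 11, 11, 9, 2]]),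
([p 0 1, m 4 2, g, m 2 0, m 0 3, g, m 3 0, g, s 0 4, g, s 1 0, g], .lo 0, [.l [2], .l [0, 11, 1, 8, 1, 7, 4], .l [2], .l [2], .l [5], .l [1, 6, 4, 11, 6, 8, 5], .l [5], .l [5], .l [7], .l [4, 8, 3, 4, 7, 4, 2, 4, 5], .l [7], .l [9], .l [8, 6, 9, 1, 9, 7, 4], .l [9], .y [0, 10], .l [11], .r 381 [1, 2, 3, 4, 5] [1, 1, 1, 1, 1, 1], .l [11]]),
([p 0 1, m 3 2, g, m 2 0, m 0 0, g, s 0 3, g, s 1 0, g], .hi 4, [.l [3], .l [3, 5, 2], .l [1, 7, 4, 2, 4], .l [3, 5], .y [4], .l [8, 6, 6, 4, 1], .l [8, 6, 6, 4, 1], .r 382 [1, 2, 4, 3] [1, 1, 1, 1, 1], .l [1, 5, 5, 3, 2], .l [6, 4, 4, 2, 5], .l [1, 5, 1, 6, 4, 2, 5], .l [1, 5, 7, 5, 2], .l [6, 4, 4, 2, 7], .l [1, 5, 1, 8, 6, 2, 3], .l [1, 5, 9, 7, 2]])]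

def d01_2 : List (List Item × Qry × List Rf) := [
([p 0 1, m 0 2, g, m 2 0, m 0 0, g, s 1 0, g], .lo 1, [.l [3, 1, 4, 2, 5], .l [3, 1], .l [1, 2], .y [1, 3], .l [1, 3], .r 383 [1, 2, 3] [1, 1, 1, 1], .l [6, 4], .l [1, 5], .r 376 [1, 2, 3] [1, 1, 1], .r 359 [1, 2, 3] [1, 1, 1, 1], .l [8, 6], .l [1, 7]]),
([p 0 0, m 0 1, g, m 1 0, m 0 0, g], .hi 0, [.y [0], .l [1, 0], .r 351 [2, 1] [1, 1, 2], .l [0, 2], .l [3, 2], .l [4, 3], .r 384 [2, 1] [1, 1, 1], .l [0, 5], .l [6, 5]]),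
([p 3 1, m 6 2, g, p 0 3, g, p 4 0, g, m 2 0, p 5 4, g, p 0 5, g, s 1 0, g, s 0 6, g], .hi 7, [.l [2, 5, 2, 6, 6, 2, 9], .l [1, 15, 12, 5, 5, 12, 1], .l [3, 8], .l [1, 13, 10, 3, 3, 10, 1], .l [1, 15, 6, 0, 13, 7, 1, 9, 5, 1, 5, 6, 3], .l [1, 15, 10, 3, 3, 12, 3], .l [5, 8], .l [1, 15, 8, 1, 1, 12, 5, 1, 7, 7, 5, 3, 1], .l [1, 15, 8, 1, 1, 12, 5], .l [7, 8], .l [1, 15, 8, 2, 4, 2, 10], .l [1, 15, 8, 2, 4, 2, 10], .l [1, 15, 8, 0, 13, 5, 1, 9, 1, 8, 5], .l [1, 13, 6, 2, 2, 0, 8], .l [6, 10, 5, 14, 5, 9, 3, 9, 2, 6, 4, 6, 3], .l [6, 7, 1, 3, 2, 9], .l [7, 12, 11, 11, 5, 10, 1, 7, 10, 6, 1, 2, 5], .l [0, 11, 4, 11, 4, 2, 8], .l [0, 11, 4, 11, 4, 2, 8], .l [1, 15, 8, 0, 13, 7, 3, 9, 5, 1, 5, 6, 3], .y [1, 7, 14],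 .l [0, 11, 4, 13, 6, 2, 10], .l [0, 11, 4, 13, 6, 2, 10], .l [14, 12, 6, 14, 12, 5, 11, 2, 3]]),
([p 3 1, m 5 2, g, p 0 3, g, m 2 0, p 4 0, g, p 0 4, g, s 1 0, g, s 0 5, g], .hi 6, [.l [1, 8, 4, 1, 4, 7, 5, 2, 5], .l [5, 8, 5, 7, 4, 9, 4, 6, 3], .l [8, 4], .l [3, 6, 5, 5, 2, 7, 4, 4, 1], .l [1, 8, 2, 11, 4, 8, 5], .r 386 [1, 2, 3, 6, 4, 5] [1, 1, 1, 1, 1, 1, 1], .l [8, 2], .l [1, 8, 1, 9, 7, 4, 7], .l [6, 7], .l [8, 1], .y [6, 8], .l [1, 6, 9, 6, 1, 4, 5, 2, 5], .l [6, 9], .l [10, 3], .l [1, 6, 11, 8, 1, 4, 7, 4, 1], .l [6, 11], .l [12, 5], .l [0, 12, 10, 4, 8, 5, 7, 0, 3], .l [1, 6, 13, 10, 1, 4, 9, 6, 1], .l [6, 13], .l [14, 7]]),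
([p 0 1, m 4 2, g, m 2 0, p 3 0, g, p 0 3, g, s 1 0, g, s 0 4, g], .lo 0, [.l [2], .r 387 [1, 2, 5, 3, 4] [1, 1, 1, 1, 1, 1], .l [2], .l [2], .l [1, 4, 2, 7, 4, 4, 1], .l [5], .l [1, 6, 4, 9, 4, 6, 3], .l [5], .l [7], .l [4, 8, 3, 4, 9, 6, 2, 6, 1], .l [7], .y [0, 8], .l [9], .l [4, 10, 5, 6, 9, 4, 2, 6, 1], .l [9], .l [11], .l [10, 8, 11, 1, 4, 2, 6], .l [11]]),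
([p 0 1, m 3 2, g, m 2 0, p 0 0, g, s 1 0, g, s 0 3, g], .lo 4, [.l [3, 5, 2], .l [3, 5], .l [1, 9, 6, 2, 6], .l [1, 7, 4, 0, 4], .y [4], .l [10, 8, 8, 6, 1], .r 388 [1, 2, 4, 3] [1, 1, 1, 1, 1], .l [10, 8, 8, 6, 1], .l [1, 3, 2, 4, 4, 2, 3], .l [10, 8, 8, 6, 3], .l [1, 3, 2, 4, 6, 4, 5], .l [10, 8, 8, 6, 3], .l [8, 6, 6, 4, 7], .l [1, 7, 9, 5, 2], .l [1, 7, 3, 8, 4, 2, 3]]),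
([p 0 1, m 7 2, g, p 3 0, g, p 4 3, g, p 5 4, g, m 2 0, p 6 5, g, p 0 6, g, s 1 7, g], .lo 0, [.l [2], .l [6, 11, 5, 14, 5, 11, 12, 8, 1, 6, 7], .l [2], .l [7, 10, 9, 9, 7, 7, 5, 5, 2, 7, 4, 4, 1], .l [4], .l [9, 12, 11, 11, 9, 9, 5, 7, 4, 9, 4, 6, 3], .l [4], .l [6], .l [4, 11, 7, 14, 5, 11, 1, 10, 7], .l [6], .l [8], .l [3, 9, 5, 1, 6, 9, 4, 11, 4, 6, 3], .l [8], .y [0, 14, 1, 9], .l [11], .l [3, 12, 8, 1, 9, 11, 6, 8], .l [11], .l [13], .l [4, 10, 7, 14, 5, 10, 12, 0, 7, 3, 1, 4, 5], .l [13], .l [15], .l [14, 12, 15, 1, 2, 0, 4], .l [15]]),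
([p 0 1, m 6 2, g, p 3 0, g, p 4 3, g, m 2 0, p 5 4, g, p 0 5, g, s 1 6, g], .hi 3, [.l [5, 8, 7, 7, 5, 5, 2, 7, 4, 4, 1], .l [5, 1, 8, 4, 11], .r 390 [1, 2, 7, 3, 4, 5, 6] [1, 1, 1, 1, 1, 1, 1], .l [5, 1], .l [5, 1, 6, 4, 6, 4, 9], .l [3, 4], .l [5, 1], .l [7, 3, 3, 1, 6, 2, 9], .l [3, 6], .l [7, 3], .l [3, 9, 11, 9, 4], .l [3, 9], .l [10, 6], .y [3, 10, 8, 5], .l [1, 13, 1, 8, 8, 6, 9, 0, 6], .l [3, 11], .l [12, 8], .l [12, 10, 1, 11, 2, 0, 4], .l [3, 13], .l [14, 10]]),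
([p 0 1, m 5 2, g, p 3 0, g, m 2 0, p 4 3, g, p 0 4, g, s 1 5, g], .hi 3, [.l [3, 6, 5, 5, 2, 7, 4, 4, 1], .l [5, 1, 6, 2, 9], .r 391 [1, 2, 6, 3, 4, 5] [1, 1, 1, 1, 1, 1], .l [5, 1], .l [5, 1, 6, 2, 9], .l [3, 4], .l [5, 1], .l [3, 7, 9, 7, 2], .l [3, 7], .l [8, 4], .y [3, 8, 6], .l [1, 11, 1, 6, 9, 0, 6], .l [3, 9], .l [10, 6], .l [10, 8, 1, 9, 2, 0, 4], .l [3, 11], .l [12, 8]]),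
([p 0 1, m 4 2, g, m 2 0, p 3 0, g, p 0 3, g, s 1 4, g], .hi 4, [.l [1, 4, 2, 7, 4, 4, 1], .l [1, 6, 2, 9, 4, 6, 3], .r 392 [1, 2, 5, 3, 4] [1, 1, 1, 1, 1], .l [6, 2], .l [1, 6, 1, 7, 5, 2, 5], .l [4, 5], .l [6, 1], .y [4, 6], .l [4, 7, 4, 7, 1, 3, 6, 0, 3], .l [4, 7], .l [8, 3], .l [4, 9, 5, 3, 5, 1, 3, 4, 1], .l [4, 9], .l [10, 5]]),
([p 0 1, m 3 2, g, m 2 0, p 0 0, g, s 1 3, g], .lo 4, [.l [3, 5, 2], .l [3, 5], .l [1, 7, 4, 2, 4], .l [1, 5, 2, 0, 2], .y [4], .l [8, 6, 6, 4, 1], .r 393 [1, 2, 4, 3] [1, 1, 1, 1], .l [8, 6, 6, 4, 1], .l [6, 4, 4, 2, 5], .l [1, 5, 7, 5, 2], .l [6, 4, 4, 2, 5]]),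
([p 6 1, m 5 2, g, m 2 3, p 4 0, g, m 3 0, g, p 0 4, g, s 0 5, g, s 1 0, g, p 0 6, g], .hi 4, [.l [0, 6, 2, 13, 7, 11, 9, 11, 5, 2, 7], .l [1, 11, 6, 0, 9, 10, 8, 5, 1, 4, 1], .l [6, 2], .l [6, 1, 7, 4, 4, 2, 9], .l [4, 5], .l [6, 1], .l [1, 8, 3, 4, 2, 7, 5, 2, 7], .l [4, 7], .l [8, 3], .y [4, 8], .l [2, 16, 13, 0, 13, 1, 5, 9, 1, 8, 5], .l [4, 9], .l [10, 5], .l [10, 5, 6, 4, 11, 3, 7, 2, 2, 0, 5], .l [2, 16, 13, 0, 13, 1, 3, 9, 1, 8, 5], .l [4, 11], .l [12, 7], .l [2, 16, 13, 0, 13, 3, 1, 9, 1, 8, 5], .l [4, 13], .l [14, 9], .l [4, 13], .l [3, 6, 5, 15, 11, 1, 11, 4, 1, 2, 5], .l [4, 15], .l [16, 11]]),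
([p 6 1, m 5 2, g, m 2 3, p 4 0, g, p 0 4, g, s 0 5, g, s 1 0, g, p 0 6, g, s 3 0, g], .hi 4, [.l [6, 2, 13, 7, 13, 1, 4, 2, 9], .l [4, 12, 14, 8, 4, 6, 3, 10, 6, 8, 5], .l [6, 2], .l [1, 6, 1, 7, 5, 2, 7], .l [4, 5], .l [6, 1], .y [4, 6], .l [2, 4, 6, 12, 7, 11, 3, 10, 7], .l [4, 7], .l [8, 3], .l [8, 3, 11, 3, 7, 2, 2, 0, 5], .l [2, 4, 8, 12, 5, 11, 5, 10, 7], .l [4, 9], .l [10, 5], .l [2, 4, 10, 12, 3, 11, 7, 10, 7], .l [4, 11], .l [12, 7], .l [4, 11], .l [0, 14, 9, 10, 13, 10, 8, 10, 7], .l [4, 13], .l [14, 9], .l [2, 16, 11, 7, 11, 2, 4, 2, 8], .l [4, 15], .l [16, 11]]),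
([p 5 1, m 4 2, g, m 2 0, p 3 0, g, p 0 3, g, s 0 4, g, s 1 0, g, p 0 5, g], .hi 3, [.l [2, 14, 11, 1, 1, 10, 1], .l [1, 9, 6, 1, 1, 6, 7], .l [3, 4], .l [2, 14, 11, 2, 4, 2, 8], .l [1, 9, 6, 2, 4, 2, 4], .r 395 [1, 2, 6, 3, 4, 5] [1, 1, 1, 1, 1, 1, 1], .l [1, 7, 4, 2, 2, 0, 2], .l [7, 14, 6, 8, 8, 6, 1], .l [2, 3, 1, 13, 12, 5], .l [4, 8, 6, 13, 10, 1, 2, 8], .y [1, 3, 8], .l [9, 14, 4, 6, 6, 4, 1], .l [2, 3, 1, 13, 12, 7], .l [4, 10, 8, 13, 10, 1, 4, 8], .l [11, 14, 2, 4, 4, 2, 9], .l [0, 9, 6, 9, 11, 9, 6], .l [4, 12, 10, 13, 10, 1, 6, 8], .l [0, 9, 6, 9, 9, 7, 6], .r 396 [1, 2, 6, 3, 4, 5] [1, 1, 1, 1, 1, 1, 1], .l [2, 3, 1, 11, 10, 11], .l [8, 6, 2, 12, 10, 1, 9, 6, 1]]),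
([p 0 1, m 4 2, g, m 2 0, p 3 0, g, p 0 3, g, s 0 4, g, s 1 0, g], .lo 0, [.l [2], .l [0, 11, 1, 8, 1, 7, 4], .l [2], .l [2], .l [1, 4, 2, 9, 6, 6, 3], .l [5], .l [1, 6, 4, 11, 6, 8, 5], .l [5], .l [7], .l [4, 8, 3, 4, 7, 4, 2, 4, 5], .l [7], .l [9], .l [8, 6, 9, 1, 9, 7, 4], .l [9], .y [0, 10], .l [11], .r 397 [1, 2, 3, 4, 5] [1, 1, 1, 1, 1, 1], .l [11]]),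
([p 0 1, m 3 2, g, m 2 0, p 0 0, g, s 0 3, g, s 1 0, g], .lo 4, [.l [3, 5, 2], .l [3, 5], .l [1, 7, 4, 2, 4], .l [1, 5, 2, 0, 2], .y [4], .l [8, 6, 6, 4, 1], .r 398 [1, 2, 4, 3] [1, 1, 1, 1, 1], .l [8, 6, 6, 4, 1], .l [6, 4, 4, 2, 5], .l [1, 5, 7, 5, 2], .l [1, 5, 1, 6, 4, 2, 5], .l [1, 3, 2, 6, 6, 2, 3], .l [6, 4, 4, 2, 7], .l [1, 5, 9, 7, 2], .l [1, 5, 1, 8, 6, 2, 3]]),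
([p 0 0, m 2 1, g, m 1 0, p 0 0, g, s 0 2, g], .hi 0, [.y [0], .l [8, 6, 1, 5, 2], .l [0, 2], .l [3, 2], .l [0, 3], .r 389 [3, 1, 2] [1, 1, 1, 1], .l [0, 5], .l [6, 5], .r 394 [3, 1, 2] [1, 1, 1], .r 399 [3, 1, 2] [1, 1, 1, 1], .l [0, 7], .l [8, 7]]),
([p 0 0, m 2 1, g, s 0 2, g, m 1 0, g], .hi 0, [.y [0], .l [5, 3, 6, 2, 3], .l [0, 2], .l [3, 2], .r 350 [3, 1, 2] [1, 1, 1], .l [3, 1, 6, 4, 1], .l [0, 4], .l [5, 4], .l [3, 1, 4, 2, 3], .l [0, 6], .l [7, 6]]),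
([p 0 0, m 0 1, g, m 1 0, p 0 0, g], .lo 1, [.l [1, 0], .r 401 [1, 2] [1, 1, 2], .l [3, 1], .l [1, 2], .y [1, 3], .l [4, 2], .r 400 [1, 2] [1, 1, 1], .l [6, 4], .l [1, 5]]),
([p 0 0, m 0 1, g, m 1 0], .hi 0, [.y [0], .l [1, 0], .r 351 [2, 1] [1, 1, 0], .l [0, 2], .l [3, 2]]),
([p 4 1, m 5 2, g, m 2 0, s 0 3, g, m 3 0, g, p 0 4, g, s 0 5, g, s 1 0, g], .lo 4, [.l [2, 10, 7, 2, 6], .l [3, 5, 2], .l [2, 10, 7, 2, 6], .l [2, 8, 5, 0, 4], .l [6, 1, 9, 3, 4, 7, 4, 2, 4, 5], .l [1, 6, 1, 7, 5, 2, 9], .l [12, 10, 10, 8, 1], .y [4, 6], .l [4, 7, 11, 6, 7, 2, 7, 2, 4, 5], .l [1, 6, 1, 7, 5, 2, 9], .l [12, 10, 10, 8, 3], .l [0, 13, 1, 10, 4, 1, 4, 7, 4, 1], .l [1, 6, 1, 9, 7, 2, 9], .l [12, 10, 10, 8, 5], .l [1, 9, 11,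 5, 2, 9], .l [1, 9, 11, 5, 2], .l [10, 8, 8, 6, 9], .l [1, 9, 11, 5, 2, 3], .l [1, 9, 13, 7, 2, 3], .l [1, 9, 13, 7, 2], .l [10, 8, 8, 6, 11]]),
([p 4 1, m 5 2, g, m 2 0, s 0 3, g, p 0 4, g, s 3 0, g, s 0 5, g, s 1 0, g], .lo 4, [.l [2, 8, 5, 2, 4], .l [3, 5, 2], .l [2, 8, 5, 2, 4], .l [2, 6, 3, 0, 2], .l [0, 13, 1, 10, 4, 1, 4, 7, 4, 1], .l [0, 13, 1, 10, 4, 1, 4, 7, 4, 1], .l [12, 10, 10, 8, 1], .l [1, 11, 1, 5, 1, 6, 9, 2, 6, 1], .l [1, 6, 4, 13, 8, 10, 7], .l [12, 10, 10, 8, 3], .y [4, 8], .l [1, 11, 1, 5, 1, 6, 9, 2, 6, 1], .l [1, 6, 4, 13, 8, 10, 5], .l [12, 10, 10, 8, 5], .l [1, 9, 11, 5, 2, 9], .l [1, 9, 1, 3, 9, 5, 2, 7], .l [10, 8, 8, 6, 9], .l [1, 9, 11, 5, 2, 3], .l [1, 9, 13, 7, 2, 3], .l [1, 9,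 1, 3, 11, 7, 2, 3], .l [10, 8, 8, 6, 11]]),
([p 4 1, m 5 2, g, m 2 0, s 0 3, g, s 3 0, g, p 0 4, g, s 0 5, g, s 1 0, g], .lo 4, [.l [2, 10, 7, 2, 6], .l [3, 5, 2], .l [2, 10, 7, 2, 6], .l [2, 8, 5, 0, 4], .l [0, 13, 1, 10, 4, 1, 6, 7, 2, 3], .l [4, 7, 11, 6, 7, 2, 7, 2, 4, 5], .l [12, 10, 10, 8, 1], .y [4, 6], .l [0, 13, 1, 10, 4, 1, 6, 7, 2, 3], .l [6, 1, 9, 3, 4, 7, 4, 2, 4, 5], .l [12, 10, 10, 8, 3], .l [0, 13, 1, 10, 4, 1, 4, 7, 4, 1], .l [1, 8, 6, 13, 6, 10, 7], .l [12, 10, 10, 8, 5], .l [1, 9, 11, 5, 2, 9], .l [1, 9, 3, 3, 9, 5, 2, 7], .l [10, 8, 8, 6, 9], .l [1, 9, 11, 5, 2, 3], .l [1, 9, 13, 7, 2, 3], .l [1, 9, 3, 3, 11, 7, 2, 3], .l [10, 8, 8, 6, 11]]),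
([p 3 1, m 4 2, g, m 2 0, s 0 0, g, p 0 3, g, s 0 4, g, s 1 0, g], .hi 4, [.l [2, 8, 5, 2, 4], .l [2, 8, 5, 2, 4], .l [3, 5, 2], .y [4], .r 406 [1, 2, 5, 3, 4] [1, 1, 1, 1, 1, 1], .l [10, 8, 8, 6, 1], .r 404 [1, 2, 5, 3, 4] [1, 1, 1, 1, 1, 1], .l [8, 6, 6, 4, 1], .r 405 [1, 2, 5, 3, 4] [1, 1, 1, 1, 1, 1], .l [10, 8, 8, 6, 3], .l [1, 6, 4, 11, 6, 8, 5], .l [8, 6, 6, 4, 3], .l [1, 7, 9, 5, 2, 7], .l [8, 6, 6, 4, 7], .l [1, 7, 9, 5, 2], .l [1, 7, 11, 7, 2, 3], .l [8, 6, 6, 4, 9], .l [1, 7, 11, 7, 2]]),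
([p 6 1, m 5 2, g, m 2 0, s 4 3, g, s 3 0, g, p 0 4, g, s 0 5, g, s 1 0, g, p 0 6, g], .hi 3, [.l [2, 16, 13, 1, 1, 12, 1], .l [1, 11, 8, 1, 1, 8, 9], .l [3, 4], .l [5, 16, 10, 12, 12, 10, 1], .l [2, 3, 1, 15, 14, 3], .l [2, 8, 3, 8, 4, 1, 11, 10, 3], .l [7, 16, 8, 10, 10, 8, 1], .l [2, 3, 1, 15, 14, 5], .l [5, 8, 5, 14, 11, 2, 10], .l [2, 3, 1, 13, 12, 5], .l [9, 16, 6, 8, 8, 6, 1], .l [2, 3, 1, 15, 14, 7], .l [5, 10, 7, 14, 11, 4, 10], .y [1, 3, 10], .l [11, 16, 4, 6, 6, 4, 1], .l [2, 3, 1, 15, 14, 9], .l [5, 12, 9, 14, 11, 6, 10], .l [13, 16, 2, 4, 4, 2, 11], .l [0, 11, 8, 11, 13, 11, 8], .l [5, 14, 11, 14, 11, 8, 10], .l [0, 11, 8, 11, 11, 9, 8], .l [1, 9, 6, 13, 3, 4, 10, 1], .l [2, 3, 1, 13, 12, 13], .l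 [8, 3, 15, 10, 10, 8, 3]]),
([p 5 1, m 4 2, g, m 2 0, s 0 3, g, s 3 0, g, s 0 4, g, s 1 0, g, p 0 5, g], .lo 4, [.l [2, 14, 11, 2, 10], .l [3, 5, 2], .l [2, 14, 11, 2, 10], .l [2, 12, 9, 0, 8], .l [4, 7, 4, 7, 4, 2, 4, 5], .l [6, 1, 13, 7, 8, 4, 6, 7, 4, 1], .l [10, 8, 8, 6, 1], .y [4, 6], .l [4, 7, 4, 7, 4, 2, 4, 5], .r 408 [1, 2, 3, 6, 4, 5] [1, 1, 1, 1, 1, 1, 1], .l [10, 8, 8, 6, 3], .l [1, 7, 9, 5, 2, 7], .l [1, 7, 1, 1, 7, 5, 2, 5], .l [8, 6, 6, 4, 7], .l [1, 7, 9, 5, 2, 3], .l [1, 7, 11, 7, 2, 3], .l [1, 7, 1, 1, 9, 7, 2, 3], .l [8, 6, 6, 4, 9], .l [1, 7, 13, 9, 2, 3], .l [1, 7, 1, 1, 11, 9, 2, 3], .l [8, 6, 6, 4, 11]]),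
([p 6 1, m 5 2, g, m 2 0, s 4 3, g, s 0 4, g, m 3 0, g, s 0 5, g, s 1 0, g, p 0 6, g], .hi 3, [.l [2, 16, 13, 1, 1, 12, 1], .l [1, 11, 8, 1, 1, 8, 9], .l [3, 4], .l [5, 16, 10, 12, 12, 10, 1], .l [2, 3, 1, 15, 14, 3], .l [2, 8, 3, 8, 4, 1, 11, 10, 3], .l [5, 14, 8, 10, 10, 8, 1], .l [7, 16, 8, 10, 10, 8, 1], .l [2, 3, 1, 15, 14, 5], .l [5, 8, 5, 14, 11, 2, 10], .l [9, 16, 6, 8, 8, 6, 1], .l [2, 3, 1, 15, 14, 7], .l [5, 10, 7, 14, 11, 4, 10], .y [1, 3, 10], .l [11, 16, 4, 6, 6, 4, 1], .l [2, 3, 1, 15, 14, 9], .l [5, 12, 9, 14, 11, 6, 10], .l [13, 16, 2, 4, 4, 2, 11], .l [0, 11, 8, 11, 13, 11, 8], .l [5, 14, 11, 14, 11, 8, 10], .l [0, 11, 8, 11, 11, 9, 8], .l [1, 9, 6, 13, 3, 4, 10, 1], .l [2, 3, 1, 13, 12, 13],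 .l [8, 3, 15, 10, 10, 8, 3]]),
([p 5 1, m 4 2, g, m 2 0, s 0 3, g, m 3 0, g, s 0 4, g, s 1 0, g, p 0 5, g], .lo 4, [.l [2, 14, 11, 2, 10], .l [3, 5, 2], .l [2, 14, 11, 2, 10], .l [2, 12, 9, 0, 8], .r 410 [1, 2, 3, 6, 4, 5] [1, 1, 1, 1, 1, 1, 1], .l [1, 6, 1, 7, 5, 2, 7], .l [10, 8, 8, 6, 1], .y [4, 6], .l [6, 1, 13, 7, 8, 4, 6, 7, 4, 1], .l [1, 6, 1, 7, 5, 2, 7], .l [10, 8, 8, 6, 3], .l [1, 7, 9, 5, 2, 7], .l [1, 7, 9, 5, 2], .l [8, 6, 6, 4, 7], .l [1, 7, 9, 5, 2, 3], .l [1, 7, 11, 7, 2, 3], .l [1, 7, 11, 7, 2], .l [8, 6, 6, 4, 9], .l [1, 7, 13, 9, 2, 3], .l [1, 7, 13, 9, 2], .l [8, 6, 6, 4, 11]]),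
([p 4 1, m 3 2, g, m 2 0, s 0 0, g, s 0 3, g, s 1 0, g, p 0 4, g], .hi 4, [.l [2, 12, 9, 2, 8], .l [2, 12, 9, 2, 8], .l [3, 5, 2], .y [4], .r 409 [1, 2, 5, 3, 4] [1, 1, 1, 1, 1, 1], .l [8, 6, 6, 4, 1], .r 411 [1, 2, 5, 3, 4] [1, 1, 1, 1, 1, 1], .l [6, 4, 4, 2, 1], .l [1, 5, 7, 5, 2, 5], .l [6, 4, 4, 2, 5], .l [1, 5, 7, 5, 2], .l [1, 5, 9, 7, 2, 3], .l [6, 4, 4, 2, 7], .l [1, 5, 9, 7, 2], .l [6, 4, 4, 2, 7], .l [1, 5, 11, 9, 2, 3], .l [6, 4, 4, 2, 9], .l [1, 5, 11, 9, 2]]),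
([p 0 1, m 3 2, g, m 2 0, s 0 0, g, s 0 3, g, s 1 0, g], .lo 0, [.l [2], .l [0, 9, 1, 6, 1, 5, 2], .l [2], .l [2], .l [3], .l [5], .r 407 [1, 2, 4, 3] [1, 1, 1, 1, 1], .l [5], .l [7], .l [6, 4, 7, 1, 7, 5, 2], .l [7], .y [0, 8], .l [9], .r 412 [1, 2, 3, 4] [1, 1, 1, 1, 1], .l [9]]),
([p 0 1, m 3 2, m 0 0, g, m 2 0, g, s 1 3, g], .lo 2, [.y [2], .l [4, 1, 5, 2, 4], .l [4, 1], .l [2, 3], .l [2, 3], .l [1, 7, 1, 3, 5, 0, 2], .l [6, 3], .l [2, 5], .l [6, 4, 0, 6, 2, 0, 1], .l [8, 5], .l [2, 7]]),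
([p 0 1, m 5 2, s 0 3, g, s 3 0, g, m 2 0, s 0 4, g, m 4 0, g, s 1 5, g], .lo 7, [.l [4, 8, 4], .l [4, 8, 4], .l [13, 11, 3, 10, 4, 7], .l [4, 6, 2], .l [6, 8, 2], .l [6, 8, 2], .l [1, 12, 6, 2, 9], .l [1, 10, 4, 0, 7], .l [13, 11, 1, 10, 6, 1], .l [1, 9, 1, 10, 8, 5, 8], .l [13, 11, 1, 10, 6, 1], .y [7, 9], .l [13, 11, 1, 10, 6, 3], .l [1, 9, 1, 10, 8, 5, 8], .l [13, 11, 1, 10, 6, 3], .l [11, 9, 1, 8, 4, 9], .l [1, 10, 12, 8, 5], .l [11, 9, 1, 8, 4, 9]]),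
([p 0 1, m 4 2, s 0 3, g, s 3 0, g, m 2 0, s 0 0, g, s 1 4, g], .hi 7, [.l [6], .l [2, 6, 4], .l [4, 8, 4], .l [11, 9, 3, 8, 2, 5], .l [4, 8, 4], .l [6, 8, 2], .l [1, 10, 4, 2, 7], .l [6, 8, 2], .y [7], .l [11, 9, 1, 8, 4, 1], .l [11, 9, 1, 8, 4, 1], .r 415 [1, 2, 3, 5, 4] [1, 1, 1, 1, 1], .l [9, 7, 1, 6, 2, 7], .l [9, 7, 1, 6, 2, 7], .l [1, 8, 10, 8, 5]]),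
([p 0 1, m 4 2, s 0 3, g, m 2 0, g, m 3 0, g, s 1 4, g], .lo 0, [.l [3], .l [6, 1, 8, 3, 7, 7, 0, 4, 3], .l [3], .y [0, 8, 1, 4], .l [5], .l [1, 9, 5, 2, 6, 1, 6, 0, 1], .l [5], .l [5], .l [7], .l [2, 8, 5, 9, 2, 4, 2, 0, 3], .l [7], .l [9], .l [8, 6, 6, 3, 8, 1, 4, 2, 3], .l [9]]),
([p 0 1, m 4 2, s 0 3, g, m 2 0, g, s 3 0, g, s 1 4, g], .lo 2, [.l [2, 7, 3, 5, 6, 6, 0, 1], .l [4, 1, 5, 2, 6], .l [2, 7, 3, 5, 6, 6, 0, 1], .l [2, 5, 1, 3, 4, 4, 0, 1], .l [6, 3, 7, 3, 6, 6, 0, 3], .l [6, 3, 7, 3, 6, 6, 0, 3], .l [10, 8, 3], .y [2, 6], .l [6, 3, 7, 3, 6, 6, 0, 3], .l [6, 3, 7, 3, 6, 6, 0, 3], .l [10, 8, 5], .l [8, 6, 8, 2, 0, 3], .l [6, 3, 9, 5, 2, 2, 0, 3], .l [8, 6, 8]]),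
([p 0 1, m 4 2, s 0 3, g, m 2 0, g, s 1 4, g, m 3 0, g], .lo 0, [.l [3], .l [8, 6, 7, 4, 8, 1, 4, 0, 3], .l [3], .y [0, 6, 1, 4], .l [5], .l [8, 6, 7, 2, 8, 1, 6, 0, 1], .l [5], .l [7], .l [6, 4, 7, 1, 2, 0, 1], .l [7], .l [7], .l [9], .l [6, 5, 0, 4, 8, 3, 6, 2, 3], .l [9]]),
([p 0 1, m 3 2, s 0 0, g, m 2 0, s 0 0, g, s 1 3, g], .hi 2, [.l [1], .y [2], .r 416 [1, 2, 4, 3] [1, 1, 1, 1], .l [9, 7, 1], .l [4, 1, 5, 2, 6], .l [2, 4, 2], .r 418 [1, 2, 4, 3] [1, 2, 1, 1], .l [9, 7, 4], .r 417 [1, 2, 4, 3] [1, 2, 1, 1], .l [7, 5, 7, 2, 0, 2], .l [7, 5, 7], .r 419 [1, 2, 4, 3] [1, 2, 1, 1]]),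
([p 4 1, m 5 2, m 2 3, g, p 0 4, g, m 3 0, g, s 1 5, g], .lo 4, [.l [3, 8, 6, 7, 7, 0, 3, 2, 1], .l [4, 5], .l [0, 9, 5, 1, 1, 5, 5, 4, 1], .l [3, 4, 0, 3, 5, 3, 4], .l [4, 8, 5, 8, 1, 3, 6, 0, 3], .l [0, 9, 5, 1, 5, 1, 3, 4, 1], .y [0, 8, 1, 2, 6, 4], .l [3, 6, 4, 7, 7, 0, 1, 0, 3], .l [1, 9, 5, 0, 6, 3, 1, 3, 4, 0, 1], .l [3, 4, 0, 5], .l [3, 6, 4, 5, 5, 0, 1, 0, 3], .l [8, 6, 6, 5, 6, 4, 6, 1, 2, 0, 1], .l [3, 4, 0, 7]]),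
([p 3 1, m 4 2, m 2 0, g, p 0 3, g, s 1 4, g], .hi 2, [.l [1, 7, 7, 0, 5, 4, 1], .l [0, 7, 5, 1, 3, 4, 1], .l [2, 6, 3, 7, 2, 4, 2, 0, 1], .y [0, 6, 1, 2, 4], .l [1, 7, 7, 0, 3, 2, 3], .l [1, 7, 7, 0, 3, 2, 3], .r 421 [1, 2, 5, 3, 4] [1, 1, 1, 1], .l [1, 5, 5, 0, 3, 2, 3], .l [1, 5, 5, 0, 3, 2, 3], .l [6, 4, 5, 2, 6, 1, 4, 0, 1]]),
([p 0 1, m 3 2, m 2 0, g, s 1 3, g], .lo 0, [.y [0, 4, 1, 2], .l [3], .r 422 [1, 2, 4, 3] [1, 1, 1], .l [3], .l [5], .l [4, 2, 5, 1, 2, 0, 1], .l [5]]),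
([p 3 1, m 6 2, p 4 3, g, p 5 4, g, m 2 0, g, p 0 5, g, s 1 6, g], .hi 6, [.l [3, 6, 4, 9, 9, 0, 3, 2, 3], .l [1, 11, 7, 3, 3, 7, 1, 0, 3], .l [4, 7], .l [5, 10, 8, 8, 6, 7, 7, 0, 5, 4, 1], .l [1, 11, 5, 1, 9, 0, 6], .l [6, 7], .l [5, 6, 1, 2, 1, 4, 6, 4, 4, 2, 3], .l [1, 11, 5, 1, 5, 1, 3, 5, 1, 0, 1], .l [6, 10, 7, 7, 5, 8, 1, 3, 1, 3, 4, 0, 1], .y [0, 10, 1, 6, 8, 4, 2], .l [5, 8, 6, 6, 4, 7, 7, 0, 3, 2, 3], .l [5, 6, 1, 2, 1, 6], .l [6, 10, 9, 9, 4, 8, 1, 4, 2, 4, 4, 0, 1], .l [5, 8, 6, 6, 4, 5, 5, 0, 3, 2, 3], .l [0, 9, 3, 9, 3, 1, 6], .l [10, 8, 9, 8, 8, 6, 6, 2, 6, 1, 4, 0, 1]]),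
([p 3 1, m 5 2, p 4 3, g, p 0 4, g, m 2 0, g, s 1 5, g], .lo 4, [.l [3, 6, 4, 7, 7, 0, 3, 2, 1], .l [4, 5], .l [1, 9, 5, 1, 5, 3, 6, 0, 3], .l [3, 4, 2, 7, 7, 0, 1, 0, 1], .l [3, 8, 5, 1, 5, 6, 6, 3, 4, 0, 1], .l [1, 9, 5, 1, 3, 5, 1, 0, 1], .y [0, 8, 1, 6, 4, 2], .l [3, 4, 2, 7, 7, 0, 1, 0, 3], .r 424 [1, 2, 3, 4, 6, 5] [1, 1, 1, 1, 1], .l [3, 4, 2, 7, 7, 0, 1, 0, 3], .l [3, 4, 2, 5, 5, 0, 1, 0, 3], .l [0, 7, 9, 5, 7, 4, 4, 3, 4, 0, 1], .l [0, 7, 3, 7, 3, 1, 2]]),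
([p 3 1, m 4 2, p 0 3, g, m 2 0, s 0 0, g, s 1 4, g], .lo 2, [.l [1, 8, 8, 0, 1, 0, 1], .r 425 [1, 2, 3, 5, 4] [1, 1, 2, 1], .l [1, 8, 6, 1, 7, 0, 2], .y [0, 7, 1, 4, 2], .l [1, 6, 6, 0, 1, 0, 2], .l [1, 8, 8, 0, 1, 0, 4], .l [4, 1, 7, 4, 6, 6, 0, 3, 2], .l [1, 8, 8, 0, 1, 0, 4], .l [1, 6, 6, 0, 1, 0, 4], .l [7, 5, 6, 5, 7, 1, 2, 0, 2], .l [1, 6, 6, 0, 1, 0, 4]]),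
([p 0 1, m 3 2, p 0 0, g, m 2 0, s 0 0, g, s 1 3, g], .hi 2, [.r 426 [1, 2, 4, 3] [1, 1, 1], .y [2], .l [4, 1, 5, 2, 6], .l [2, 3], .l [4, 1], .l [2, 4, 2], .l [1, 8, 1, 4, 6, 0, 3], .l [2, 6], .l [7, 4], .l [7, 5, 0, 7, 2, 0, 2], .l [2, 8], .l [9, 6]]),
([p 0 1, m 3 2, g, m 2 0, s 0 0, g, s 1 3, g], .top 2, [.r 423 [1, 2, 3] [2, 1], .r 420 [1, 2, 3] [1, 1, 1], .r 427 [1, 2, 3] [1, 1, 1], .r 414 [1, 2, 3] [1, 2, 1]]),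
([p 0 1, m 5 2, g, m 2 0, s 4 3, g, s 3 0, g, s 1 0, g, p 0 4, g, s 0 5, g], .lo 0, [.l [2], .l [3, 5, 2, 8, 10, 6, 3], .l [2], .l [2], .l [5], .l [14, 12, 13, 8, 3, 6, 8], .l [5], .l [5], .l [7], .l [14, 12, 4, 1, 11, 6, 3, 7, 2, 3], .l [7], .y [0, 8], .l [9], .l [14, 12, 4, 1, 11, 4, 1, 7, 4, 1], .l [9], .l [11], .l [6, 1, 11, 5, 6, 9, 6, 4, 6, 3], .l [11], .l [13], .l [12, 10, 13, 1, 6, 4, 8], .l [13]]),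
([p 0 1, m 4 2, g, m 2 0, s 0 3, g, s 3 0, g, s 1 0, g, s 0 4, g], .lo 4, [.l [3, 5, 2], .l [3, 5, 2], .l [1, 11, 3, 3, 6, 2, 6, 1], .l [1, 9, 3, 3, 4, 0, 4, 1], .l [4, 7, 4, 9, 6, 2, 6, 1], .l [12, 10, 4, 1, 6, 7, 2, 3], .l [12, 10, 10, 8, 1], .y [4, 6], .l [4, 7, 4, 9, 6, 2, 6, 1], .l [12, 10, 6, 3, 6, 7, 4, 1], .l [12, 10, 10, 8, 3], .l [4, 7, 4, 7, 4, 2, 4, 1], .l [4, 9, 6, 9, 6, 4, 6, 3], .r 429 [1, 2, 3, 5, 4] [1, 1, 1, 1, 1, 1], .l [12, 10, 10, 8, 5], .l [1, 9, 11, 5, 2, 7], .l [1, 9, 3, 3, 9, 5, 2, 5], .l [10, 8, 8, 6, 9]]),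
([p 4 1, m 0 2, g, m 2 0, s 5 3, g, s 1 0, g, p 0 4, g, s 3 0, g, p 0 5, g], .hi 3, [.y [1, 3], .l [2, 10, 7, 1, 1, 6, 1], .l [2, 5, 3, 9, 8, 1], .l [3, 4], .l [5, 10, 4, 6, 6, 4, 1], .l [2, 3, 1, 9, 8, 3], .l [2, 12, 7, 12, 4, 1, 6, 1, 4, 5], .l [7, 10, 2, 4, 4, 2, 5], .l [0, 5, 2, 5, 7, 5, 2], .l [0, 5, 7, 4, 9, 3, 9, 5, 2, 5], .l [0, 5, 2, 5, 5, 3, 2], .l [2, 8, 5, 7, 9, 2, 6, 1], .l [2, 3, 1, 7, 6, 7], .l [2, 12, 7, 3, 7, 2, 9, 7, 4], .l [2, 8, 5, 9, 11, 2, 6], .l [2, 3, 1, 7, 6, 9], .l [9, 12, 5, 10, 7, 2, 6], .l [2, 3, 1, 7, 6, 9], .l [2, 8, 5, 11, 5, 10, 5], .l [2, 3, 1, 7, 6, 11], .l [9, 14, 7, 12, 9, 4, 8]]),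
([p 0 1, m 5 2, g, m 2 0, s 4 3, g, s 1 0, g, s 3 0, g, p 0 4, g, s 0 5, g], .lo 0, [.l [2], .l [3, 5, 2, 6, 10, 8, 3], .l [2], .l [2], .l [5], .l [14, 12, 13, 8, 1, 6, 8], .l [5], .y [0, 6], .l [7], .r 431 [1, 2, 3, 6, 4] [1, 1, 1, 1, 1, 3], .l [7], .l [7], .l [9], .l [14, 12, 6, 3, 11, 4, 1, 5, 2, 5], .l [9], .l [11], .l [8, 3, 11, 3, 4, 9, 6, 2, 6, 1], .l [11], .l [13], .l [12, 10, 13, 1, 8, 6, 8], .l [13]]),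
([p 0 1, m 4 2, g, m 2 0, s 0 3, g, s 1 0, g, s 3 0, g, s 0 4, g], .lo 4, [.l [3, 5, 2], .l [3, 5, 2], .l [1, 11, 1, 3, 6, 2, 6, 1], .l [1, 9, 1, 3, 4, 0, 4, 1], .l [4, 9, 6, 9, 6, 4, 6, 3], .l [12, 10, 4, 1, 4, 7, 4, 1], .l [12, 10, 10, 8, 1], .l [10, 8, 2, 4, 1, 5, 2, 3], .l [4, 9, 6, 9, 4, 2, 6, 1], .l [12, 10, 2, 6, 3, 7, 2, 3], .l [12, 10, 10, 8, 3], .y [4, 8], .l [4, 9, 6, 9, 4, 2, 6, 1], .r 432 [1, 2, 3, 5, 4] [1, 1, 1, 1, 1, 1], .l [12, 10, 10, 8, 5], .l [1, 9, 11, 5, 2, 5], .l [1, 9, 1, 3, 9, 5, 2, 5], .l [10, 8, 8, 6, 9]]),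
([p 5 1, m 6 2, g, m 2 3, s 0 4, g, m 3 0, g, s 1 0, g, p 0 5, g, m 4 0, g, s 0 6, g], .lo 4, [.l [2, 12, 9, 2, 8], .l [3, 5, 2], .l [2, 12, 9, 2, 8], .l [5, 8, 5, 10, 7, 2, 6], .l [6, 1, 7, 4, 4, 2, 5], .l [3, 8, 7, 11, 8, 1, 3, 6, 1], .l [3, 6, 5, 9, 6, 1, 1, 4, 1], .l [2, 8, 3, 12, 8, 1, 5, 4, 7], .l [1, 8, 3, 4, 2, 11, 9, 2, 3], .l [7, 12, 4, 7, 9, 8, 8, 6, 1], .l [7, 10, 2, 5, 7, 6, 6, 4, 1], .l [2, 10, 5, 12, 6, 1, 3, 2, 7], .l [0, 7, 9, 5, 7, 6, 10, 5, 1, 6, 3], .l [9, 12, 2, 5, 7, 6, 6, 4, 5], .l [2, 12, 7, 12, 4, 1, 6, 1, 4, 5], .l [1, 12, 7, 8, 6, 11, 5, 2, 7], .l [16, 14, 14, 12, 7], .y [4, 12], .l [2, 12, 7, 12, 4, 1, 6, 1, 4, 5], .l [1, 12, 7, 8, 6, 11, 5, 2, 7], .l [12, 7, 11, 5, 1, 10, 1, 6, 6,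 4, 1], .l [1, 13, 15, 5, 2, 7], .l [1, 13, 15, 5, 2], .l [12, 7, 11, 5, 1, 12, 3, 8, 8, 6, 1]]),
([p 4 1, m 5 2, g, m 2 0, s 0 3, g, s 1 0, g, p 0 4, g, m 3 0, g, s 0 5, g], .hi 3, [.l [2, 10, 7, 1, 1, 6, 1], .l [1, 13, 10, 1, 1, 10, 5], .l [3, 4], .l [2, 8, 5, 0, 4], .l [5, 10, 4, 6, 6, 4, 1], .l [2, 3, 1, 9, 8, 3], .r 434 [1, 2, 6, 3, 4, 5] [1, 1, 1, 1, 1, 1, 1], .l [7, 10, 2, 4, 4, 2, 5], .l [0, 5, 2, 5, 7, 5, 2], .l [2, 10, 7, 0, 7, 3, 8, 2, 5], .l [0, 5, 2, 5, 5, 3, 2], .l [2, 8, 5, 7, 9, 2, 6], .l [2, 3, 1, 7, 6, 7], .l [12, 7, 8, 2, 6, 7, 2], .l [2, 8, 5, 9, 3, 8, 5], .l [2, 3, 1, 7, 6, 9], .l [10, 5, 9, 5, 9, 6, 6, 4, 1], .y [1, 3, 12], .l [2, 8, 5, 11, 5, 10, 7], .l [2, 3, 1, 7, 6, 11], .l [10, 5, 9,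 5, 11, 8, 8, 6, 1]]),
([p 4 1, m 5 2, g, m 2 0, s 0 3, g, s 1 0, g, m 3 0, g, p 0 4, g, s 0 5, g], .lo 4, [.l [2, 12, 9, 2, 8], .l [3, 5, 2], .l [2, 12, 9, 2, 8], .l [2, 10, 7, 0, 6], .l [6, 1, 11, 5, 6, 9, 6, 4, 6, 3], .l [1, 6, 1, 9, 7, 2, 3], .l [14, 12, 12, 10, 1], .l [1, 10, 8, 4, 1, 4, 2, 4, 1], .l [8, 3, 11, 3, 4, 9, 6, 2, 6, 1], .l [1, 8, 3, 9, 5, 2, 5], .l [14, 12, 12, 10, 3], .y [4, 8], .l [4, 9, 13, 6, 7, 2, 9, 4, 6, 3], .l [1, 8, 3, 9, 5, 2, 5], .l [14, 12, 12, 10, 5], .l [14, 12, 2, 8, 5, 9, 2, 5], .l [1, 8, 3, 11, 7, 2, 7], .l [14, 12, 12, 10, 7], .l [1, 11, 13, 5, 2, 5], .l [1, 11, 13, 5, 2], .l [12, 10, 10, 8, 11]]),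
([p 0 1, m 4 2, g, m 2 0, s 0 3, g, s 1 0, g, m 3 0, g, s 0 4, g], .lo 0, [.l [2], .l [3, 5, 2, 6, 8, 6, 3], .l [2], .l [2], .l [5], .l [12, 10, 11, 6, 1, 4, 6], .l [5], .y [0, 6], .l [7], .r 435 [1, 2, 3, 5, 4] [1, 1, 1, 1, 1, 1], .l [7], .l [7], .l [9], .r 436 [1, 2, 3, 5, 4] [1, 1, 1, 1, 1, 1], .l [9], .l [11], .l [10, 8, 11, 1, 6, 4, 6], .l [11]]),
([p 0 1, m 4 2, g, m 2 0, s 0 3, g, m 3 0, g, s 1 0, g, s 0 4, g], .lo 4, [.l [3, 5, 2], .l [3, 5, 2], .l [1, 11, 8, 2, 8], .l [1, 9, 6, 0, 6], .l [12, 10, 6, 3, 6, 7, 4, 1], .l [1, 6, 1, 7, 5, 2, 5], .l [12, 10, 10, 8, 1], .y [4, 6], .l [12, 10, 4, 1, 6, 7, 2, 3], .l [1, 6, 1, 7, 5, 2, 5], .l [12, 10, 10, 8, 3], .l [1, 6, 1, 7, 5, 2, 3], .l [12, 10, 4, 1, 4, 7,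 4, 1], .l [1, 6, 1, 9, 7, 2, 3], .l [12, 10, 10, 8, 5], .l [1, 9, 11, 5, 2, 7], .l [1, 9, 11, 5, 2], .l [10, 8, 8, 6, 9]]),
([p 0 1, m 3 2, g, m 2 0, s 0 0, g, s 1 0, g, s 0 3, g], .hi 4, [.l [3], .l [3, 5, 2], .l [1, 9, 6, 2, 6], .l [3, 5, 2], .y [4], .r 430 [1, 2, 4, 3] [1, 1, 1, 1, 1], .l [10, 8, 8, 6, 1], .r 438 [1, 2, 4, 3] [1, 1, 1, 1, 1], .r 433 [1, 2, 4, 3] [1, 1, 1, 1, 1], .l [10, 8, 8, 6, 3], .r 437 [1, 2, 4, 3] [1, 1, 1, 1, 1], .l [8, 6, 6, 4, 3], .l [1, 7, 9, 5, 2, 5], .l [8, 6, 6, 4, 7], .l [1, 7, 9, 5, 2]]),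
([p 0 0, m 2 1, g, m 1 0, s 0 0, g, s 0 2, g], .hi 0, [.y [0], .l [8, 6, 1, 5, 2], .l [0, 2], .l [3, 2], .l [1, 3, 2, 2, 3], .r 439 [3, 1, 2] [1, 1, 1, 1], .l [0, 5], .l [6, 5], .r 428 [3, 1, 2] [1, 1, 1], .r 413 [3, 1, 2] [1, 1, 1, 1], .l [0, 7], .l [8, 7]]),
([p 0 0, m 0 1, g, m 1 0, s 0 0, g], .lo 1, [.l [1, 0], .r 401 [1, 2] [1, 1, 2], .l [3, 1], .l [1, 2], .y [1, 3], .l [1, 3, 2], .r 440 [1, 2] [1, 1, 1], .l [6, 4], .l [1, 5]]),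
([p 0 0, m 0 1, g, m 1 0, g], .top 4, [.r 403 [1] [1], .r 441 [1] [1, 1], .r 402 [1] [1, 1], .r 385 [1] [1, 1]]),
([p 0 0, m 0 1, g, p 1 0, g], .lo 0, [.y [0], .l [2], .l [0, 3, 2, 3], .l [2], .l [0, 3, 2, 1], .l [4], .l [0, 5, 4, 1], .l [4]]),
([p 0 0, m 0 0, g], .hi 1, [.l [0], .y [1], .r 335 [1] [1, 1], .r 443 [1] [1, 1], .r 442 [1] [1, 1]]),
([p 3 1, s 0 2, g, p 0 3, s 0 4, g, s 2 0, g, m 0 0, s 4 0, g, s 1 0, g], .lo 8, [.l [8, 6, 7, 3, 7, 1], .l [10, 6], .l [6, 10, 6], .l [8, 6, 7, 5, 7, 4], .l [10, 3], .l [7, 1, 5, 6, 3, 7, 4, 7], .l [11, 10, 4, 6, 1, 8, 4, 1], .l [6, 4, 5, 3, 7, 1], .l [10, 1], .l [13, 12, 4, 6, 10, 5, 2, 7], .y [8], .c, .l [6, 4, 5, 3, 5, 6], .l [11, 2], .l [8, 10], .l [6, 4, 5, 3, 5,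 6], .l [6, 4, 5, 3, 5, 8], .l [13, 4], .l [8, 12]]),
([p 3 1, s 0 2, g, p 0 3, s 0 4, g, s 2 0, g, p 0 0, s 4 0, g, s 1 0, g], .hi 8, [.l [4, 8, 4, 8], .l [8, 6, 7, 3, 7, 1], .l [6, 10, 6], .l [10, 6], .l [4, 8, 6], .l [4, 8, 7], .l [8, 6, 7, 5, 7, 4], .l [7, 1, 5, 6, 3, 7, 4, 7], .l [10, 3], .l [6, 4, 5, 3, 7, 1], .l [13, 12, 4, 6, 10, 5, 2, 7], .l [10, 1], .y [8], .l [6, 4, 5, 3, 5, 6], .l [8, 10], .l [11, 2], .l [6, 4, 5, 3, 5, 8], .l [8, 12], .l [13, 4]]),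
([p 3 1, s 0 2, g, p 0 3, s 0 4, g, s 2 0, g, p 6 0, g, m 0 5, g, s 5 6, s 4 0, g, s 1 0, g], .lo 1, [.l [17, 16, 1, 15, 11, 8], .l [8, 6, 7, 3, 11, 6, 8, 11], .l [2, 5, 2, 2, 14], .l [1, 7, 16, 9, 13, 9, 1, 9, 7, 4, 1], .l [6, 4, 5, 3, 11, 6, 8, 11], .l [17, 16, 4], .y [1, 6], .l [1, 7, 16, 9, 13, 9, 1, 9, 7, 4, 1], .l [6, 4, 7, 2, 13, 1, 8, 11], .l [6, 4, 5, 3, 11, 6, 8, 11], .l [6, 4, 7, 2, 0, 4, 8, 5], .l [17, 16, 8, 1, 10, 13, 7, 4, 9], .l [6, 4, 9, 4, 0, 6, 10, 5], .l [6, 4, 5, 3, 11, 4, 8, 11], .l [17, 16, 10, 3, 10, 13, 9, 6, 1], .l [6, 4, 11, 6, 0, 8, 10, 5], .l [6, 4, 5, 3, 11, 2, 8, 11], .l [0, 14, 4, 1, 4, 2, 8, 1, 8, 3], .l [1, 5, 16, 11, 8, 4, 1, 4, 2, 8, 1], .l [11, 15, 4, 6, 5, 11, 1, 9, 4, 9],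 .l [17, 16, 13], .l [15, 14, 13], .l [15, 14, 15, 8, 3, 6, 9, 6, 1], .l [0, 14, 8, 11, 14, 2, 11, 1], .l [15, 14, 15]])]

def d01_3 : List (List Item × Qry × List Rf) := [
([p 3 1, s 0 2, g, p 0 3, s 0 4, g, s 2 0, g, m 0 5, g, p 6 0, g, s 5 6, s 4 0, g, s 1 0, g], .lo 1, [.l [17, 16, 1, 15, 11, 8], .l [8, 6, 7, 3, 11, 6, 8, 11], .l [2, 5, 2, 2, 14], .l [1, 7, 16, 9, 13, 9, 1, 9, 7, 4, 1], .l [6, 4, 5, 3, 11, 6, 8, 11], .l [17, 16, 4], .y [1, 6], .l [1, 7, 16, 9, 13, 9, 1, 9, 7, 4, 1], .l [6, 4, 7, 2, 13, 1, 8, 11], .l [6, 4, 5, 3, 11, 6, 8, 11], .l [17, 16, 8, 1, 10, 13, 7, 4, 9], .l [6, 4, 9, 4, 0, 6, 10, 5], .l [6, 4, 5, 3, 11, 4, 8, 11], .l [6, 4, 9, 4, 0, 6, 8, 3], .l [17, 16, 10, 3, 10, 13, 9, 6, 1], .l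 [6, 4, 11, 6, 0, 8, 10, 3], .l [6, 4, 5, 3, 11, 2, 8, 11], .l [0, 14, 4, 1, 4, 2, 8, 1, 8, 3], .l [1, 5, 16, 11, 8, 4, 1, 4, 2, 8, 1], .l [11, 15, 4, 6, 5, 11, 1, 9, 4, 9], .l [17, 16, 13], .l [15, 14, 13], .l [15, 14, 15, 8, 3, 6, 9, 6, 1], .l [0, 14, 8, 11, 14, 2, 11, 1], .l [15, 14, 15]]),
([p 3 1, s 0 2, g, p 0 3, s 0 4, g, s 2 0, g, p 5 0, g, s 0 5, s 4 0, g, s 1 0, g], .lo 10, [.l [15, 14, 14, 9, 6, 9], .l [15, 14, 14, 9, 6, 9], .l [8, 6, 7, 3, 9, 3], .l [15, 14, 14, 11, 8, 5], .l [8, 6, 7, 5, 9, 6], .l [15, 14, 6, 1, 8, 11, 5, 2, 7], .l [13, 12, 12, 9, 6, 3], .l [15, 14, 14, 11, 8, 3], .l [6, 4, 5, 3, 9, 3], .r 448 [1, 2, 3, 4, 6, 5] [1, 1, 1, 1, 1, 1, 1], .y [8, 10], .l [15, 14, 14, 11, 8, 1], .l [6,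 4, 5, 3, 9, 1], .r 447 [1, 2, 3, 4, 6, 5] [1, 1, 1, 1, 1, 1, 1], .c, .l [15, 14, 14, 11, 6, 7], .l [1, 5, 12, 2, 9, 1], .l [6, 4, 5, 3, 7, 8], .l [13, 12, 12, 9, 6, 7], .l [13, 12, 12, 9, 6, 11], .l [1, 5, 14, 4, 11, 1], .l [6, 4, 5, 3, 7, 10]]),
([p 3 1, s 0 2, g, p 0 3, s 0 4, g, p 5 0, g, s 2 0, g, s 0 5, s 4 0, g, s 1 0, g], .lo 10, [.l [15, 14, 14, 9, 6, 9], .l [15, 14, 14, 9, 6, 9], .l [10, 8, 9, 5, 9, 1], .l [15, 14, 14, 11, 8, 5], .l [10, 8, 9, 7, 9, 6], .l [15, 14, 8, 3, 8, 11, 7, 4, 1], .y [6, 10], .l [15, 14, 14, 11, 8, 3], .l [10, 8, 9, 7, 9, 4], .l [15, 14, 8, 3, 8, 11, 7, 4, 1], .l [13, 12, 12, 9, 6, 1], .l [15, 14, 14, 11, 8, 1], .l [8, 6, 7, 5, 9, 1], .l [15, 14, 6, 1, 8, 11, 5, 2, 7], .c, .l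 [15, 14, 14, 11, 6, 7], .l [1, 7, 12, 2, 7, 1], .l [8, 6, 7, 5, 7, 8], .l [13, 12, 12, 9, 6, 7], .l [13, 12, 12, 9, 6, 11], .l [1, 7, 14, 4, 9, 1], .l [8, 6, 7, 5, 7, 10]]),
([p 3 1, s 0 2, g, p 0 3, s 0 4, g, s 2 0, g, s 0 0, s 4 0, g, s 1 0, g], .hi 8, [.l [6, 4, 5, 3, 5, 2], .l [13, 12, 12, 7, 4, 7], .l [8, 6, 7, 3, 7, 1], .l [13, 12, 12, 7, 4, 7], .l [6, 4, 5, 3, 5, 1], .l [6, 4, 5, 3, 5, 4], .l [13, 12, 12, 9, 6, 3], .r 450 [1, 2, 3, 4, 5] [1, 1, 1, 1, 1, 1], .l [8, 6, 7, 5, 7, 4], .l [13, 12, 12, 9, 6, 1], .r 449 [1, 2, 3, 4, 5] [1, 1, 1, 1, 1, 1], .l [6, 4, 5, 3, 7, 1], .y [8], .l [13, 12, 12, 9, 4, 5], .l [6, 4, 5, 3, 5, 6], .l [1, 5, 10, 2, 7, 1], .l [11, 10, 10, 7, 4, 9], .l [6, 4, 5, 3, 5, 8], .l [1,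 5, 12, 4, 9, 1]]),
([p 3 1, s 0 2, g, p 0 3, s 0 4, g, s 2 0, g, s 4 0, g, s 1 0, g], .bot 7, [.l [9, 8, 8, 5, 2, 5], .r 451 [1, 2, 3, 4] [1, 1, 1, 1, 1], .r 446 [1, 2, 3, 4] [1, 1, 1, 1, 1], .r 445 [1, 2, 3, 4] [1, 1, 1, 1, 1]]),
([p 2 0, s 0 1, g, p 0 2, s 0 3, g, s 1 0, g, s 3 0, g], .hi 0, [.c, .l [3, 2, 6, 8, 6, 1], .l [0, 2], .l [3, 2], .y [0, 3], .l [0, 3, 2], .l [0, 5, 9, 7, 2, 3], .l [0, 5], .l [6, 5], .l [0, 7, 9, 5, 2, 5], .l [0, 7], .l [8, 7], .r 452 [4, 1, 2, 3] [1, 1, 1, 1, 1], .l [0, 9], .l [10, 9]]),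
([p 0 0, s 0 1, g, p 1 0, g], .hi 0, [.y [0], .c, .l [3, 2, 3], .l [0, 2], .l [3, 2], .l [5, 4, 1], .l [0, 4], .l [5, 4]]),
([p 3 1, s 0 2, g, p 4 3, g, s 0 4, s 1 0, g, m 2 0, g], .lo 1, [.l [2, 5, 2, 2, 4, 3], .l [3, 1, 9, 7, 4], .l [2, 5, 2, 2, 4], .l [5, 3, 4, 2, 7, 5, 2, 1], .l [5, 3, 4, 2, 7, 5, 2], .l [8, 7, 3], .l [6, 5, 4], .l [10, 8, 9, 7, 7, 5, 4, 1], .l [8, 6, 7, 5, 7, 2, 3], .l [6, 5, 6], .y [1, 8], .l [8, 6, 7, 5, 5, 3, 2, 3], .l [8, 6, 7, 5, 7, 2, 3], .l [6, 5, 8]]),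
([p 3 1, s 0 2, g, p 0 3, g, p 5 0, g, s 0 4, g, s 4 5, s 1 0, g, m 2 0, g], .lo 1, [.l [2, 5, 2, 2, 8, 1], .l [3, 1, 13, 11, 8], .l [2, 5, 2, 2, 8], .l [5, 3, 4, 2, 11, 9, 6, 1], .l [5, 3, 4, 2, 11, 9, 6], .l [12, 11, 3], .l [5, 3, 4, 2, 9, 7, 4], .l [7, 5, 6, 4, 11, 7, 4, 1], .l [7, 5, 6, 4, 11, 7, 4], .l [12, 11, 5], .l [9, 7, 8, 6, 11, 5, 2, 5], .l [9, 7, 8, 6, 11, 5, 2], .l [12, 11, 7], .l [10, 9, 8], .l [11, 4, 1, 4, 2, 6, 6, 3], .l [12, 10, 11, 9, 11, 2, 3], .l [10, 9, 10], .y [1, 12], .l [1, 13, 8, 3, 6, 9, 6, 1], .l [12, 10, 11, 9, 11, 2, 3], .l [10, 9, 12]]),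
([p 4 1, g, p 3 2, g, s 2 0, g, p 0 3, p 5 0, g, p 0 4, g, p 0 0, s 1 5, g], .hi 11, [.l [0, 13, 10], .l [0, 13, 6, 11, 4, 1, 10, 2, 7], .l [13, 10], .l [0, 13, 8], .l [6, 3, 10, 4, 10, 1, 3, 6, 7], .l [13, 8], .l [0, 13, 6], .l [4, 1, 1, 9, 6, 8, 4, 8, 1], .l [13, 6], .l [4, 1, 1, 7, 4, 6, 4, 6, 1], .l [0, 13, 3], .l [2, 6, 5, 10, 8, 8, 9, 6, 8, 6, 1], .l [13, 3], .l [2, 6, 5, 8, 6, 6, 7, 6, 6, 4, 1], .l [0, 13, 1], .l [4, 1, 8, 4, 8, 2, 6, 8, 3], .l [13, 1], .y [11], .l [0, 11, 12], .l [11, 13], .l [14, 2]]),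
([p 4 1, g, p 3 2, g, s 2 0, g, p 0 3, p 5 0, g, p 0 4, g, m 0 0, s 1 5, g], .lo 11, [.l [0, 13, 10], .l [13, 10], .l [0, 13, 6, 11, 4, 1, 10, 2, 7], .l [0, 13, 8], .l [13, 8], .l [6, 3, 10, 4, 10, 1, 3, 6, 7], .l [0, 11, 6], .l [0, 13, 6], .l [13, 6], .l [4, 1, 1, 9, 6, 8, 4, 8, 1], .l [11, 3], .l [0, 13, 3], .l [13, 3], .l [2, 6, 5, 10, 8, 8, 9, 6, 8, 6, 1], .l [0, 13, 1], .l [13, 1], .l [4, 1, 8, 4, 8, 2, 6, 8, 3], .y [11], .l [0, 11, 12], .l [14, 2], .l [11, 13]]),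
([p 5 1, g, p 3 0, g, s 0 2, g, m 2 0, g, p 4 3, p 7 4, g, p 0 5, g, s 6 0, g, s 0 6, s 1 7, g], .hi 6, [.l [7, 13, 5, 6, 15, 11, 3], .l [0, 17, 1, 16, 10, 10, 9, 9, 3, 1, 5, 7, 3], .l [2, 7], .l [7, 13, 5, 8, 1, 4, 12], .l [3, 10, 8, 12, 10, 3], .l [4, 7], .y [4, 6], .l [7, 13, 5, 10, 3, 6, 12], .l [5, 10, 6, 12, 10, 1], .l [6, 7], .l [7, 13, 5, 10, 3, 6, 12], .l [5, 10, 6, 12, 10, 1], .l [17, 1, 8, 9, 8, 12, 10, 12, 9, 7, 9, 9, 7], .l [5, 13, 7, 4, 6, 13, 1, 12, 4, 5], .l [0, 17, 1, 10, 4, 6, 12, 12, 4, 4, 3, 9, 5], .l [8, 9, 8, 10, 8, 10, 4, 12, 1, 5, 9, 9, 5], .l [0, 15, 1, 8, 4, 4, 10, 10, 2, 2, 1, 7, 5], .l [5, 11, 5, 10, 3, 6, 12], .l [5, 8, 4, 10, 8, 9], .l [6, 1, 10, 4, 10, 1, 3, 6, 10], .l [5, 11, 5,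 12, 5, 8, 12], .l [5, 8, 4, 10, 8, 11], .l [6, 1, 10, 4, 12, 3, 5, 8, 10], .l [5, 11, 5, 12, 5, 8, 10], .l [5, 11, 5, 15, 8, 11, 3], .l [0, 15, 1, 8, 14, 1, 7, 5, 8, 8, 7, 7, 5], .l [6, 1, 10, 4, 15, 6, 8, 11, 6]]),
([p 5 1, g, p 3 2, g, s 2 0, g, p 4 3, p 7 4, g, p 0 5, g, s 6 0, g, s 0 6, s 1 7, g], .hi 4, [.l [6, 3, 1, 1, 8, 4, 6, 4, 8, 1], .l [5, 11, 5, 6, 13, 9, 3], .l [4, 5, 5, 1, 8, 4, 6, 4, 8], .l [5, 11, 5, 8, 1, 4, 10, 1], .l [5, 11, 5, 8, 1, 4, 10], .l [6, 1, 10, 4, 8, 1, 1, 4, 8], .l [5, 11, 5, 8, 1, 4, 10, 1], .l [5, 11, 5, 8, 1, 4, 10], .r 459 [1, 8, 3, 4, 5, 6, 7] [1, 1, 1, 1, 1, 1, 1, 1], .l [9, 4, 4, 4, 4, 2, 10, 1], .l [2, 3, 3, 6, 4, 11, 1, 10, 2, 3], .l [2, 3, 8, 4, 4, 2, 10], .y [0, 14, 7,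 6, 2, 4, 9], .l [3, 9, 5, 8, 1, 4, 10, 1], .l [3, 9, 5, 8, 1, 4, 10], .l [2, 3, 10, 6, 6, 4, 10], .l [3, 9, 5, 10, 3, 6, 10, 5], .l [3, 9, 5, 10, 3, 6, 10], .l [2, 3, 12, 8, 8, 6, 10], .l [3, 9, 5, 10, 3, 6, 8, 3], .l [16, 11, 11, 11, 11, 9, 6, 1], .l [3, 9, 5, 13, 6, 9, 3], .l [2, 3, 15, 11, 11, 9, 6]]),
([p 5 1, g, s 6 0, g, p 3 2, g, s 2 0, g, p 4 3, p 7 4, g, p 0 5, g, s 0 6, s 1 7, g], .lo 13, [.l [8, 1, 3, 12, 6, 11, 3, 10, 2, 7], .l [0, 15, 12], .l [13, 4, 7, 5, 13, 3, 1, 8, 1, 1, 7, 7, 5], .y [2, 13], .l [8, 1, 3, 12, 6, 11, 3, 10, 2, 7], .l [0, 15, 10], .l [3, 13, 9, 12, 6, 9, 8, 10, 5, 3, 7, 7, 5], .l [5, 13, 7, 12, 1, 6, 10, 5], .l [0, 15, 8], .l [5, 13, 7, 12, 1, 6, 10], .l [5, 11, 5, 10, 1, 6, 8,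 3], .l [7, 13, 5, 12, 3, 8, 10, 5], .l [0, 15, 6], .l [7, 13, 5, 12, 3, 8, 10], .l [6, 1, 12, 6, 6, 11, 8, 10, 8, 3], .l [0, 15, 3], .l [0, 15, 12, 10, 12, 1, 8, 10, 8, 8, 7, 7, 3], .l [6, 1, 3, 12, 8, 11, 3, 10, 2, 7], .l [0, 15, 1], .l [6, 1, 10, 4, 10, 2, 8, 10, 3, 1, 7, 7, 5], .l [13, 15, 8, 1, 11, 5, 2, 7], .l [16, 2, 14], .l [0, 13, 14]]),
([p 5 1, g, p 3 2, g, s 2 0, g, p 4 3, p 6 4, g, p 0 5, g, s 0 0, s 1 6, g], .hi 11, [.r 461 [1, 2, 3, 4, 5, 7, 6] [1, 1, 1, 1, 1, 1, 1], .l [11, 4, 7, 5, 11, 3, 1, 6, 1, 1, 5, 5, 3], .l [0, 13, 10], .l [13, 8, 10, 6, 10, 7], .l [3, 11, 7, 10, 1, 4, 8], .l [0, 13, 8], .l [13, 6, 10, 8, 10, 7], .l [5, 11, 5, 10, 3, 6, 8], .l [0, 13, 6], .l [4, 1, 10, 6, 6, 9, 6, 8, 6,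 1], .l [2, 11, 8, 8, 11, 8, 10, 8, 3], .l [0, 13, 3], .l [2, 9, 6, 6, 9, 8, 8, 6, 3], .r 460 [1, 2, 3, 4, 5, 7, 6] [1, 1, 1, 1, 1, 1, 1], .l [4, 1, 8, 4, 8, 2, 6, 8, 3, 1, 5, 5, 3], .l [0, 13, 1], .y [11], .l [11, 13, 6, 1, 9, 5, 2, 5], .l [0, 11, 12], .l [14, 2, 12]]),
([p 8 1, g, p 3 2, g, s 2 0, g, p 4 3, p 9 0, g, p 5 4, g, p 6 5, g, p 7 6, g, p 0 7, g, p 0 8, g, s 1 9, g], .lo 15, [.l [16, 17, 15, 15, 13, 13, 11, 11, 8, 11, 3, 4, 10, 6, 1], .l [2, 16], .l [0, 20, 18, 14, 14, 12, 12, 10, 10, 8, 10, 10, 10, 8, 6, 5, 5, 1], .l [16, 17, 15, 15, 13, 13, 11, 11, 8, 11, 3, 6, 1, 4, 7], .l [4, 16], .l [0, 20, 16, 12, 12, 10, 10, 8, 8, 6, 8, 10, 10, 6, 4, 3, 7, 3], .y [2, 4, 15, 13, 11, 9, 6], .l [16, 17, 15, 15,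 13, 13, 11, 11, 8, 11, 3, 8, 3, 6, 7], .l [6, 16], .l [0, 20, 14, 10, 10, 8, 8, 6, 6, 4, 6, 10, 10, 4, 2, 1, 7, 5], .l [7, 14], .l [8, 11, 8, 17, 11, 8, 8, 6, 6, 4, 4, 1, 8, 1, 1, 4, 5], .l [9, 16], .l [5, 19, 13, 0, 14, 11, 7, 7, 5, 5, 3, 3, 1, 1, 4, 7, 7, 1], .l [10, 13, 11, 11, 8, 15, 9, 6, 6, 4, 4, 1, 8, 1, 1, 4, 5], .l [11, 16], .l [0, 20, 9, 5, 5, 3, 5, 14, 12, 1, 3, 1, 10, 6, 8, 7, 7, 3], .l [12, 15, 13, 13, 11, 11, 8, 13, 7, 4, 4, 1, 8, 1, 1, 4, 5], .l [13, 16], .l [6, 9, 8, 18, 12, 17, 3, 13, 13, 11, 11, 7, 7, 5, 9, 7, 5, 1], .l [14, 17, 15, 15, 13, 13, 11, 11, 8, 11, 5, 1, 8, 1, 1, 4, 5], .l [15, 16], .l [6, 9, 8, 18, 12, 17, 3, 13, 13, 11, 11, 9, 9, 5, 9, 7, 5, 1], .l [14, 15, 13, 13, 11, 11, 9, 9,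 6, 11, 5, 2, 4, 8, 8, 2, 3], .l [6, 9, 8, 18, 12, 17, 3, 13, 13, 11, 11, 9, 9, 7, 7, 5, 7, 5], .l [6, 9, 8, 8, 4, 16, 14, 15, 5, 1, 13, 9, 11, 9, 9, 7, 7, 3], .l [14, 15, 13, 13, 11, 11, 9, 9, 6, 9, 3, 8, 3, 6, 7], .l [4, 1, 16, 12, 18, 5, 7, 3, 5, 12, 7], .l [6, 9, 8, 16, 10, 17, 5, 13, 13, 11, 11, 9, 9, 7, 9, 7, 5, 3], .l [14, 15, 13, 13, 11, 11, 9, 9, 6, 9, 3, 10, 5, 8, 3], .l [6, 9, 8, 8, 4, 14, 12, 13, 15, 11, 11, 9, 9, 7, 7, 3, 7, 5], .l [0, 18, 3, 18, 1, 14, 7, 13, 7, 13, 3, 9, 9, 5, 1, 7, 3, 5]]),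
([p 7 1, g, p 3 2, g, s 2 0, g, p 4 3, p 8 0, g, p 5 4, g, p 6 5, g, p 0 6, g, p 0 7, g, s 1 8, g], .lo 13, [.l [14, 15, 13, 13, 11, 11, 8, 11, 3, 4, 10, 6, 1], .l [2, 14], .l [1, 17, 15, 12], .l [14, 15, 13, 13, 11, 11, 8, 11, 3, 6, 1, 4, 7], .l [4, 14], .l [3, 8, 6, 16, 14, 11], .y [2, 4, 13, 11, 9, 6], .l [14, 15, 13, 13, 11, 11, 8, 11, 3, 8, 3, 6, 7], .l [6, 14], .l [5, 8, 4, 16, 14, 11], .l [7, 12], .l [8, 11, 8, 15, 9, 6, 6, 4, 4, 1, 8, 1, 1, 4, 5], .l [9, 14], .l [8, 11, 8, 8, 4, 14, 12, 9], .l [10, 13, 11, 11, 8, 13, 7, 4, 4, 1, 8, 1, 1, 4, 5], .l [11, 14], .l [10, 13, 11, 11, 8, 8, 4, 12, 10, 7], .l [12, 15, 13, 13, 11, 11, 8, 11, 5, 1, 8, 1, 1, 4, 5], .l [13, 14], .l [12, 15, 13, 13, 11, 11, 8, 8, 4,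 10, 8, 1], .l [12, 13, 11, 11, 9, 9, 6, 11, 5, 2, 4, 8, 8, 2, 3], .r 463 [1, 2, 3, 4, 5, 6, 9, 7, 8] [1, 1, 1, 1, 1, 1, 1, 1, 1, 1], .l [12, 13, 11, 11, 9, 9, 6, 6, 2, 10, 8, 5], .l [12, 13, 11, 11, 9, 9, 6, 9, 3, 8, 3, 6, 7], .l [4, 1, 14, 10, 16, 5, 7, 3, 5, 10, 5], .l [12, 13, 11, 11, 9, 9, 6, 6, 2, 8, 6, 7], .l [12, 13, 11, 11, 9, 9, 6, 9, 3, 10, 5, 8, 3], .l [16, 19, 15, 15, 13, 13, 11, 11, 8, 11, 5, 2, 5], .l [12, 13, 11, 11, 9, 9, 6, 6, 2, 8, 6, 9]]),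
([p 6 1, g, p 3 2, g, s 2 0, g, p 4 3, p 7 0, g, p 5 4, g, p 0 5, g, p 0 6, g, s 1 7, g], .lo 11, [.l [12, 13, 11, 11, 8, 11, 3, 4, 10, 6, 1], .l [2, 12], .l [1, 15, 13, 10], .l [12, 13, 11, 11, 8, 11, 3, 6, 1, 4, 7], .l [4, 12], .l [3, 8, 6, 14, 12, 9], .y [2, 4, 11, 9, 6], .l [12, 13, 11, 11, 8, 11, 3, 8, 3, 6, 7], .l [6, 12], .l [5, 8, 4, 14, 12, 9], .l [7, 10], .l [8, 11, 8, 13, 7, 4, 4, 1, 8, 1, 1, 4, 5], .l [9, 12], .l [8, 11, 8, 8, 4, 12, 10, 7], .l [10, 13, 11, 11, 8, 11, 5, 1, 8, 1, 1, 4, 5], .l [11, 12], .l [10, 13, 11, 11, 8, 8, 4, 10, 8, 1], .l [10, 11, 9, 9, 6, 11, 5, 2, 4, 8, 8, 2, 3], .r 464 [1, 2, 3, 4, 5, 8, 6, 7] [1, 1, 1, 1, 1, 1, 1, 1, 1], .l [10, 11, 9, 9, 6, 6, 2, 10, 8, 5], .l [10, 11,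 9, 9, 6, 9, 3, 8, 3, 6, 7], .l [4, 1, 12, 8, 14, 5, 7, 3, 5, 8, 3], .l [10, 11, 9, 9, 6, 6, 2, 8, 6, 7], .l [10, 11, 9, 9, 6, 9, 3, 10, 5, 8, 3], .l [14, 17, 13, 13, 11, 11, 8, 11, 5, 2, 5], .l [10, 11, 9, 9, 6, 6, 2, 8, 6, 9]]),
([p 5 1, g, p 3 2, g, s 2 0, g, p 4 3, p 6 0, g, p 0 4, g, p 0 5, g, s 1 6, g], .lo 9, [.l [10, 11, 8, 11, 3, 4, 10, 6, 1], .l [2, 10], .l [1, 13, 11, 8], .l [10, 11, 8, 11, 3, 6, 1, 4, 7], .l [4, 10], .l [3, 8, 6, 12, 10, 7], .y [2, 4, 9, 6], .l [10, 11, 8, 11, 3, 8, 3, 6, 7], .l [6, 10], .l [5, 8, 4, 12, 10, 7], .l [7, 8], .l [10, 11, 6, 11, 5, 2, 4, 8, 8, 2, 3], .l [9, 10], .l [8, 11, 8, 8, 4, 10, 8, 1], .l [8, 9, 6, 11, 5, 2, 4, 8, 8, 2, 3], .r 465 [1, 2, 3, 4, 7, 5, 6] [1, 1, 1,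 1, 1, 1, 1, 1], .l [8, 9, 6, 6, 2, 10, 8, 5], .l [8, 9, 6, 9, 3, 8, 3, 6, 7], .l [4, 1, 10, 6, 12, 5, 7, 3, 5, 6, 1], .l [8, 9, 6, 6, 2, 8, 6, 7], .l [8, 9, 6, 9, 3, 10, 5, 8, 3], .l [12, 15, 11, 11, 8, 11, 5, 2, 5], .l [8, 9, 6, 6, 2, 8, 6, 9]]),
([p 3 1, g, p 2 0, g, p 4 2, p 9 0, g, p 0 3, g, p 5 4, g, p 6 5, g, p 7 6, g, p 8 7, g, p 0 8, g, s 1 9, g], .lo 17, [.l [18, 19, 17, 17, 15, 15, 13, 13, 11, 11, 6, 9, 3, 4, 8, 4, 1], .l [2, 18], .l [0, 20, 18, 16, 16, 14, 14, 12, 12, 10, 10, 8, 8, 3, 3, 1, 5, 5], .y [2, 17, 15, 13, 11, 9, 4], .l [3, 9, 5, 16, 9, 12, 15], .l [4, 18], .l [0, 20, 16, 14, 14, 12, 12, 10, 10, 8, 8, 6, 6, 1, 6, 4, 2, 5], .l [5, 16], .l [7, 18, 18, 16, 16, 14, 16, 8, 10, 1, 10, 3, 6, 8,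 1, 4, 1], .l [7, 18], .l [0, 20, 13, 11, 11, 9, 9, 7, 7, 5, 5, 3, 6, 2, 4, 6, 6, 2], .l [8, 11, 6, 9, 5, 14, 7, 10, 13], .l [9, 18], .l [4, 11, 10, 6, 2, 17, 11, 9, 9, 7, 7, 5, 5, 3, 3, 1, 3, 1], .l [10, 13, 11, 11, 6, 9, 5, 12, 5, 8, 11], .l [11, 18], .l [0, 20, 9, 7, 7, 5, 5, 3, 3, 1, 3, 1, 10, 4, 8, 7, 7, 5], .l [12, 15, 13, 13, 11, 11, 6, 9, 5, 10, 3, 6, 9], .l [13, 18], .l [12, 15, 13, 13, 11, 11, 6, 6, 4, 8, 6, 9], .l [14, 17, 15, 15, 13, 13, 11, 11, 6, 9, 5, 8, 1, 4, 7], .l [15, 18], .l [14, 17, 15, 15, 13, 13, 11, 11, 6, 6, 4, 8, 6, 7], .l [18, 19, 15, 15, 13, 13, 11, 11, 9, 9, 4, 7, 3, 6, 1, 4, 5], .l [17, 18], .l [16, 19, 17, 17, 15, 15, 13, 13, 11, 11, 6, 6, 4, 8, 6, 1], .l [16, 17, 15, 15, 13, 13,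 11, 11, 9, 9, 4, 7, 3, 6, 1, 4, 5], .l [20, 16, 17, 16, 18, 15, 13, 11, 11, 9, 9, 7, 7, 5, 5, 3, 3, 1], .l [16, 17, 15, 15, 13, 13, 11, 11, 9, 9, 4, 4, 2, 6, 4, 5], .l [16, 17, 15, 15, 13, 13, 11, 11, 9, 9, 4, 7, 3, 8, 3, 6, 3], .l [0, 18, 20, 18, 18, 16, 16, 14, 14, 12, 12, 10, 8, 4, 8, 7, 7, 5], .l [16, 17, 15, 15, 13, 13, 11, 11, 9, 9, 4, 4, 2, 6, 4, 7]]),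
([p 3 1, g, p 2 0, g, p 4 2, p 8 0, g, p 0 3, g, p 5 4, g, p 6 5, g, p 7 6, g, p 0 7, g, s 1 8, g], .lo 15, [.l [16, 17, 15, 15, 13, 13, 11, 11, 6, 9, 3, 4, 8, 4, 1], .l [2, 16], .l [1, 9, 7, 14], .y [2, 15, 13, 11, 9, 4], .l [3, 9, 5, 14, 7, 10, 13], .l [4, 16], .l [3, 6, 4, 8, 6, 13], .l [5, 14], .l [7, 16, 16, 14, 16, 8, 10, 1, 10, 3, 6, 8, 1, 4, 1], .l [7, 16], .l [3, 9, 5, 0, 6, 3, 12, 12, 10, 10, 8, 8, 6, 6, 4, 5, 5, 1], .l [8, 11, 6, 9, 5, 12, 5, 8, 11], .l [9, 16], .l [8, 11, 6, 6, 4, 8, 6, 11], .l [10, 13, 11, 11, 6, 9, 5, 10, 3, 6, 9], .l [11, 16], .l [10, 13, 11, 11, 6, 6, 4, 8, 6, 9], .l [12, 15, 13, 13, 11, 11, 6, 9, 5, 8, 1, 4, 7], .l [13, 16], .l [12, 15, 13, 13, 11, 11, 6, 6, 4, 8, 6, 7], .l [16,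 17, 13, 13, 11, 11, 9, 9, 4, 7, 3, 6, 1, 4, 5], .l [15, 16], .l [14, 17, 15, 15, 13, 13, 11, 11, 6, 6, 4, 8, 6, 1], .l [14, 15, 13, 13, 11, 11, 9, 9, 4, 7, 3, 6, 1, 4, 5], .r 467 [1, 2, 3, 4, 5, 6, 7, 9, 8] [1, 1, 1, 1, 1, 1, 1, 1, 1, 1], .l [14, 15, 13, 13, 11, 11, 9, 9, 4, 4, 2, 6, 4, 5], .l [14, 15, 13, 13, 11, 11, 9, 9, 4, 7, 3, 8, 3, 6, 3], .l [16, 19, 17, 17, 15, 15, 13, 13, 11, 11, 6, 9, 5, 2, 5], .l [14, 15, 13, 13, 11, 11, 9, 9, 4, 4, 2, 6, 4, 7]]),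
([p 3 1, g, p 2 0, g, p 4 2, p 7 0, g, p 0 3, g, p 5 4, g, p 6 5, g, p 0 6, g, s 1 7, g], .lo 13, [.l [14, 15, 13, 13, 11, 11, 6, 9, 3, 4, 8, 4, 1], .l [2, 14], .l [1, 9, 7, 12], .y [2, 13, 11, 9, 4], .l [3, 9, 5, 12, 5, 8, 11], .l [4, 14], .l [3, 6, 4, 8, 6, 11], .l [5, 12], .l [7, 14, 16, 8, 10, 1, 10, 3, 6, 8, 1, 4, 1], .l [7, 14], .l [6, 9, 2, 12], .l [8, 11, 6, 9, 5, 10, 3, 6, 9], .l [9, 14], .l [8, 11, 6, 6, 4, 8, 6, 9], .l [10, 13, 11, 11, 6, 9, 5, 8, 1, 4, 7], .l [11, 14], .l [10, 13, 11, 11, 6, 6, 4, 8, 6, 7], .l [14, 15, 11, 11, 9, 9, 4, 7, 3, 6, 1, 4, 5], .l [13, 14], .l [12, 15, 13, 13, 11, 11, 6, 6, 4, 8, 6, 1], .l [12, 13, 11, 11, 9, 9, 4, 7, 3, 6, 1, 4, 5], .r 468 [1, 2, 3, 4, 5, 6, 8, 7] [1, 1,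 1, 1, 1, 1, 1, 1, 1], .l [12, 13, 11, 11, 9, 9, 4, 4, 2, 6, 4, 5], .l [12, 13, 11, 11, 9, 9, 4, 7, 3, 8, 3, 6, 3], .l [14, 17, 15, 15, 13, 13, 11, 11, 6, 9, 5, 2, 5], .l [12, 13, 11, 11, 9, 9, 4, 4, 2, 6, 4, 7]]),
([p 3 1, g, p 2 0, g, p 4 2, p 6 0, g, p 0 3, g, p 5 4, g, p 0 5, g, s 1 6, g], .lo 11, [.l [12, 13, 11, 11, 6, 9, 3, 4, 8, 4, 1], .l [2, 12], .l [1, 9, 7, 10], .y [2, 11, 9, 4], .l [3, 9, 5, 10, 3, 6, 9], .l [4, 12], .l [3, 6, 4, 8, 6, 9], .l [5, 10], .l [12, 13, 11, 11, 4, 9, 5, 2, 4, 6, 6, 2, 3], .l [7, 12], .l [6, 9, 2, 10], .l [8, 11, 6, 9, 5, 8, 1, 4, 7], .l [9, 12], .l [8, 11, 6, 6, 4, 8, 6, 7], .l [12, 13, 9, 9, 4, 7, 3, 6, 1, 4, 5], .l [11, 12], .l [10, 13, 11, 11, 6, 6, 4, 8, 6, 1], .l [10,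 11, 9, 9, 4, 7, 3, 6, 1, 4, 5], .r 469 [1, 2, 3, 4, 5, 7, 6] [1, 1, 1, 1, 1, 1, 1, 1], .l [10, 11, 9, 9, 4, 4, 2, 6, 4, 5], .l [10, 11, 9, 9, 4, 7, 3, 8, 3, 6, 3], .l [12, 15, 13, 13, 11, 11, 6, 9, 5, 2, 5], .l [10, 11, 9, 9, 4, 4, 2, 6, 4, 7]]),
([p 3 1, g, p 2 0, g, p 4 2, p 5 0, g, p 0 3, g, p 0 4, g, s 1 5, g], .lo 9, [.l [10, 11, 6, 9, 3, 4, 8, 4, 1], .l [2, 10], .l [1, 9, 7, 8], .y [2, 9, 4], .l [3, 9, 5, 8, 1, 4, 7], .l [4, 10], .l [3, 6, 4, 8, 6, 7], .l [5, 8], .l [10, 11, 4, 9, 5, 2, 4, 6, 6, 2, 3], .l [7, 10], .l [6, 9, 2, 8], .l [10, 11, 4, 7, 3, 6, 1, 4, 5], .l [9, 10], .l [8, 11, 6, 6, 4, 8, 6, 1], .l [8, 9, 4, 7, 3, 6, 1, 4, 5], .r 470 [1, 2, 3, 4, 6, 5] [1, 1, 1, 1, 1, 1, 1], .l [8, 9, 4, 4, 2,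 6, 4, 5], .l [8, 9, 4, 7, 3, 8, 3, 6, 3], .l [10, 13, 11, 11, 6, 9, 5, 2, 5], .l [8, 9, 4, 4, 2, 6, 4, 7]]),
([p 4 1, g, p 3 2, g, s 2 0, g, p 0 3, p 5 0, g, p 0 4, g, s 0 0, s 1 5, g], .lo 6, [.l [7, 11, 3, 4, 11, 7, 1], .l [2, 7], .l [1, 11, 9, 5], .l [7, 11, 3, 6, 1, 4, 8], .l [4, 7], .l [3, 8, 6, 10, 8, 3], .y [2, 4, 6], .l [7, 11, 3, 8, 3, 6, 8], .l [6, 7], .l [5, 8, 4, 10, 8, 1], .r 462 [1, 2, 3, 6, 4, 5] [1, 1, 1, 1, 1, 1], .l [5, 11, 5, 2, 4, 9, 9, 2, 3], .r 466 [1, 2, 3, 6, 4, 5] [1, 1, 1, 1, 1, 2, 1], .l [5, 6, 2, 10, 8, 5], .l [5, 9, 3, 8, 3, 6, 8], .r 471 [1, 3, 4, 6, 5] [1, 3, 1, 1, 2, 1], .l [5, 6, 2, 8, 6, 7], .l [5, 9, 3, 8, 3, 6, 6], .l [5, 9, 3, 11, 6, 9, 3], .l [11, 14, 8, 11, 5, 2, 5], .l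 [5, 6, 2, 8, 6, 10]]),
([p 4 1, g, p 3 2, g, s 2 0, g, p 0 3, p 5 0, g, p 0 4, g, s 1 5, g], .bot 10, [.l [0, 9, 8], .r 472 [1, 2, 3, 4, 5] [1, 1, 1, 1, 1, 1], .r 457 [1, 2, 3, 4, 5] [1, 1, 1, 1, 1, 1], .r 458 [1, 2, 3, 4, 5] [1, 1, 1, 1, 1, 1]]),
([p 5 1, s 3 2, g, s 0 3, g, m 2 0, s 0 4, g, p 0 5, g, s 1 0, g, m 4 0, g], .lo 6, [.l [2, 10, 7, 4, 6, 7], .l [3, 7, 4], .l [2, 10, 7, 4, 6], .l [4, 10, 5, 2, 4, 7], .l [5, 7, 2], .l [4, 10, 5, 2, 4], .l [4, 8, 3, 0, 2], .l [3, 1, 7, 1, 11, 9, 2, 5], .l [8, 1, 13, 11, 3], .l [5, 3, 9, 4, 1], .l [3, 1, 7, 4, 9, 4, 6, 3], .l [10, 3, 9, 7, 11, 9, 3], .l [5, 3, 7, 2, 6], .l [0, 9, 11, 7, 3, 6, 1, 6, 4, 1], .l [3, 1, 7, 4, 7, 2, 4, 5], .l [12, 5, 11, 9, 11, 7, 3], .l [5,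 3, 7, 2, 8], .y [6, 12], .l [0, 9, 13, 9, 3, 8, 1, 8, 4, 1], .l [12, 5, 11, 9, 11, 7, 3], .l [5, 3, 7, 2, 10]]),
([p 5 1, s 3 2, g, s 0 3, g, m 2 0, s 0 4, g, m 4 0, g, p 0 5, g, s 1 0, g], .lo 6, [.l [2, 12, 9, 4, 8, 9], .l [3, 7, 4], .l [2, 12, 9, 4, 8], .l [4, 12, 7, 2, 6, 9], .l [5, 7, 2], .l [4, 12, 7, 2, 6], .l [4, 10, 5, 0, 4], .l [3, 1, 7, 1, 7, 5, 2, 7], .l [8, 1, 9, 7, 3], .l [5, 3, 11, 6, 1], .y [6, 8], .l [3, 1, 11, 8, 11, 2, 8, 3], .l [8, 1, 9, 7, 3], .l [5, 3, 11, 6, 3], .l [3, 1, 9, 6, 11, 4, 8, 5], .l [8, 1, 11, 9, 3], .l [5, 3, 9, 4, 8], .l [0, 11, 11, 5, 3, 6, 1, 6, 4, 1], .l [0, 11, 13, 7, 3, 8, 1, 8, 4, 1], .l [8, 1, 13, 11, 3], .l [5, 3, 9, 4, 10]]),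
([p 4 1, s 3 2, g, s 0 3, g, m 2 0, s 0 0, g, p 0 4, g, s 1 0, g], .hi 6, [.l [2, 10, 7, 4, 6, 7], .l [2, 10, 7, 4, 6], .l [3, 7, 4], .l [2, 8, 5, 2, 4, 5], .l [4, 10, 5, 2, 4, 7], .l [4, 10, 5, 2, 4], .l [5, 7, 2], .y [6], .l [3, 1, 9, 6, 9, 2, 6, 1], .l [5, 3, 9, 4, 1], .r 475 [1, 2, 3, 5, 4] [1, 1, 1, 1, 1, 1], .l [5, 3, 7, 2, 1], .l [3, 1, 7, 4, 9, 4, 6, 3], .l [5, 3, 7, 2, 6], .l [3, 1, 7, 4, 9, 4, 6, 3], .l [3, 1, 7, 4, 7, 2, 4, 5], .l [5, 3, 7, 2, 8], .r 474 [1, 2, 3, 5, 4] [1, 1, 1, 1, 1, 1]]),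
([p 5 1, s 4 2, g, m 2 0, s 0 3, g, m 3 0, g, s 0 4, g, p 0 5, g, s 1 0, g], .lo 4, [.l [2, 12, 9, 2, 8, 9], .l [3, 5, 2], .l [2, 12, 9, 2, 8], .l [2, 10, 7, 0, 6], .l [3, 1, 11, 8, 1, 5, 6, 7], .l [6, 1, 7, 5, 1], .l [3, 1, 11, 8, 1], .y [4, 6], .l [3, 1, 11, 8, 3, 5, 6, 7], .l [6, 1, 7, 5, 1], .l [3, 1, 11, 8, 3], .l [1, 7, 9, 5, 2, 9], .l [6, 1, 9, 7, 1], .l [3, 1, 11, 8, 5], .l [1, 7, 11, 7, 2, 9], .l [6, 1, 11, 9, 1], .l [3, 1, 9, 6, 8], .l [0, 11, 11, 3, 1, 4, 1, 6, 4, 1], .l [0, 11, 13, 5, 1, 6, 1, 8, 4, 1], .l [6, 1, 13, 11, 1], .l [3, 1, 9, 6, 10]]),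
([p 4 1, s 3 2, g, m 2 0, s 0 0, g, s 0 3, g, p 0 4, g, s 1 0, g], .hi 4, [.l [2, 10, 7, 2, 6, 7], .l [2, 10, 7, 2, 6], .l [3, 5, 2], .y [4], .l [3, 1, 9, 6, 1, 3, 4, 5], .l [3, 1, 9, 6, 1], .r 477 [1, 2, 5, 3, 4] [1, 1, 1, 1, 1, 1], .l [3, 1, 7, 4, 1, 1, 2, 3], .l [1, 5, 7, 5, 2, 7], .l [3, 1, 9, 6, 3], .l [1, 5, 7, 5, 2, 7], .l [3, 1, 7, 4, 3], .l [1, 5, 9, 7, 2, 7], .l [3, 1, 7, 4, 6], .l [1, 5, 9, 7, 2, 7], .l [1, 5, 11, 9, 2, 5], .l [3, 1, 7, 4, 8], .l [1, 5, 11, 9, 2, 5]]),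
([p 4 1, s 5 2, g, m 2 0, s 0 3, g, p 0 4, g, m 3 0, g, s 0 5, g, s 1 0, g], .lo 4, [.l [2, 8, 5, 2, 4, 9], .l [3, 5, 2], .l [2, 8, 5, 2, 4], .l [2, 6, 3, 0, 2], .l [3, 1, 7, 4, 1, 10, 6, 3], .l [6, 1, 9, 7, 1], .l [3, 1, 7, 4, 1], .l [3, 1, 5, 2, 4, 8, 6, 7], .l [8, 3, 7, 5, 7, 5, 1], .l [3, 1, 5, 2, 4], .y [4, 8], .l [3, 1, 5, 2, 6, 8, 4, 7], .l [8, 3, 7, 5, 7, 5, 1], .l [3, 1, 5, 2, 6], .l [1, 9, 11, 5, 2, 9], .l [8, 3, 7, 5, 9, 7, 1], .l [3, 1, 5, 2, 8], .l [1, 9, 11, 5, 2, 3], .l [1, 9, 13, 7, 2, 3], .l [8, 3, 7, 5, 11, 9, 1], .l [3, 1, 5, 2, 10]]),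
([p 4 1, s 5 2, g, m 2 0, s 0 3, g, m 3 0, g, p 0 4, g, s 0 5, g, s 1 0, g], .lo 4, [.l [2, 10, 7, 2, 6, 9], .l [3, 5, 2], .l [2, 10, 7, 2, 6], .l [2, 8, 5, 0, 4], .l [3, 1, 9, 6, 1, 10, 4, 1], .l [6, 1, 7, 5, 1], .l [3, 1, 9, 6, 1], .y [4, 6], .l [3, 1, 9, 6, 3, 10, 4, 1], .l [6, 1, 7, 5, 1], .l [3, 1, 9, 6, 3], .l [0, 13, 3, 7, 3, 9, 4, 6, 4, 1], .l [6, 1, 9, 7, 1], .l [3, 1, 7, 4, 6], .l [0, 13, 1, 7, 3, 9, 4, 6, 4, 1], .l [6, 1, 11, 9, 1], .l [3, 1, 7, 4, 8], .l [0, 11, 11, 3, 1, 4, 1, 4, 2, 3], .l [0, 11, 13, 5, 1, 6, 1, 6, 2, 5], .l [6, 1, 13, 11, 1], .l [3, 1, 7, 4, 10]]),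
([p 3 1, s 4 2, g, m 2 0, s 0 0, g, p 0 3, g, s 0 4, g, s 1 0, g], .hi 4, [.l [2, 8, 5, 2, 4, 7], .l [2, 8, 5, 2, 4], .l [3, 5, 2], .y [4], .l [3, 1, 7, 4, 1, 8, 4, 1], .l [3, 1, 7, 4, 1], .r 480 [1, 2, 5, 3, 4] [1, 1, 1, 1, 1, 1], .l [3, 1, 5, 2, 1], .l [3, 1, 5, 2, 4, 6, 4, 5], .l [3, 1, 5, 2, 4], .r 479 [1, 2, 5, 3, 4] [1, 1, 1, 1, 1, 1], .l [3, 1, 5, 2, 4, 4, 2, 3], .l [1, 7, 9, 5, 2, 7], .l [3, 1, 5, 2, 6], .l [1, 7, 9, 5, 2, 7], .l [1, 7, 11, 7, 2, 3], .l [3, 1, 5, 2, 8], .l [1, 7, 11, 7, 2, 3]]),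
([p 4 1, s 5 2, g, m 2 0, s 0 3, g, p 0 4, g, s 1 0, g, m 3 0, g, s 0 5, g], .lo 4, [.l [2, 8, 5, 2, 4, 5], .l [3, 5, 2], .l [2, 8, 5, 2, 4], .l [2, 6, 3, 0, 2], .l [3, 1, 7, 4, 1, 6, 2, 7], .l [6, 1, 11, 9, 1], .l [3, 1, 7, 4, 1], .l [3, 1, 5, 2, 4, 10, 8, 3], .l [8, 3, 7, 5, 9, 7, 1], .l [3, 1, 5, 2, 4], .l [0, 7, 9, 5, 1, 4, 1, 4, 2, 3], .l [3, 1, 5, 2, 6, 1, 2, 7], .l [10, 5, 9, 7, 9, 5, 1], .l [3, 1, 5, 2, 6], .y [4, 10], .l [0, 7, 11, 7, 1, 6, 1, 6, 2, 5], .l [10, 5, 9, 7, 9, 5, 1], .l [3, 1, 5, 2, 8], .l [0, 7, 13, 9, 1, 8, 3, 8, 2, 5], .l [10, 5, 9, 7, 11, 7, 1], .l [3, 1, 5, 2, 10]]),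
([p 4 1, s 5 2, g, m 2 0, s 0 3, g, m 3 0, g, p 0 4, g, s 1 0, g, s 0 5, g], .lo 4, [.l [2, 10, 7, 2, 6, 7], .l [3, 5, 2], .l [2, 10, 7, 2, 6], .l [2, 8, 5, 0, 4], .l [3, 1, 9, 6, 1, 8, 2, 7], .l [6, 1, 7, 5, 1], .l [3, 1, 9, 6, 1], .y [4, 6], .l [3, 1, 9, 6, 3, 8, 2, 7], .l [6, 1, 7, 5, 1], .l [3, 1, 9, 6, 3], .l [3, 1, 7, 4, 6, 10, 8, 5], .l [6, 1, 9, 7, 1], .l [3, 1, 7, 4, 6], .l [0, 9, 9, 3, 1, 4, 1, 4, 2, 3], .l [0, 9, 11, 5, 1, 6, 1, 6, 2, 5], .l [6, 1, 11, 9, 1], .l [3, 1, 7, 4, 8], .l [0, 9, 13, 7, 1, 8, 1, 8, 2, 3], .l [6, 1, 13, 11, 1], .l [3, 1, 7, 4, 10]]),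
([p 3 1, s 4 2, g, m 2 0, s 0 0, g, p 0 3, g, s 1 0, g, s 0 4, g], .hi 4, [.l [2, 8, 5, 2, 4, 5], .l [2, 8, 5, 2, 4], .l [3, 5, 2], .y [4], .l [3, 1, 7, 4, 1, 6, 2, 5], .l [3, 1, 7, 4, 1], .r 483 [1, 2, 5, 3, 4] [1, 1, 1, 1, 1, 1], .l [3, 1, 5, 2, 1], .l [3, 1, 5, 2, 4, 8, 6, 3], .l [3, 1, 5, 2, 4], .l [12, 10, 11, 6, 3, 4, 6, 3], .l [3, 1, 5, 2, 6, 1, 2, 5], .l [3, 1, 5, 2, 6], .r 482 [1, 2, 5, 3, 4] [1, 1, 1, 1, 1, 1], .l [3, 1, 5, 2, 6, 6, 2, 3], .l [1, 9, 11, 5, 2, 7], .l [3, 1, 5, 2, 8], .l [1, 9, 11, 5, 2, 7]]),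
([p 3 1, s 0 2, g, m 2 0, s 0 0, g, p 0 3, g, s 1 0, g], .lo 1, [.r 476 [1, 2, 4, 3] [1, 1, 1, 1, 1], .l [3, 1, 4, 2, 7], .l [2, 8, 5, 5, 6], .y [1, 3], .l [0, 6, 5, 2, 1], .r 478 [1, 2, 4, 3] [1, 1, 1, 1, 1], .l [3, 1, 5, 3, 6], .l [5, 8, 2, 2, 6], .r 481 [1, 2, 3, 4] [1, 1, 1, 1, 1], .l [3, 1, 7, 5, 6], .l [10, 9, 6], .l [8, 7, 6], .r 484 [1, 2, 3, 4] [1, 1, 1, 1, 1], .l [3, 1, 9, 7, 4], .l [8, 7, 8]]),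
([p 5 1, s 0 2, g, m 2 0, m 0 3, g, m 3 4, g, p 0 5, g, m 4 6, g, m 6 0, g, s 1 0, g], .lo 1, [.l [3, 1, 9, 6, 9, 10, 9, 9, 4, 4, 2, 4, 5], .l [3, 1, 4, 2, 13], .l [2, 10, 7, 7, 12], .y [1, 3], .l [0, 10, 9, 4, 6, 4, 1], .l [3, 1, 5, 3, 12], .l [0, 10, 9, 4, 6, 4, 1], .l [0, 10, 9, 6, 10, 8, 8, 6, 1], .l [3, 1, 7, 5, 12], .l [0, 10, 9, 6, 10, 8, 8, 6, 1], .l [0, 8, 7, 8, 10, 6, 6, 4, 1], .l [3, 1, 9, 7, 12], .l [0, 8, 7, 8, 10, 6, 6, 4, 1], .l [0, 8, 7, 10, 12, 10, 10, 6, 6, 4, 1], .l [3, 1, 11, 9, 12], .l [0, 8, 7, 10, 12, 10, 10, 6, 6, 4, 1], .l [0, 8, 7, 10, 10, 8, 8, 4, 4, 2, 1], .l [5, 14, 9, 13, 1, 11, 1, 10, 7, 7, 5, 3, 1], .l [3, 1, 13, 11, 12], .l [16, 15, 12], .l [14, 13, 12], .l [10, 12, 11, 11, 7,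 7, 5, 1, 6, 3, 6, 2, 5], .l [3, 1, 15, 13, 10], .l [14, 13, 14]]),
([p 5 1, s 0 2, g, m 2 0, m 0 3, g, m 3 4, g, p 0 5, g, m 4 0, g, s 1 0, g], .hi 10, [.l [0, 8, 7, 8, 8, 4, 4, 2, 1], .l [2, 10, 7, 9, 9, 4, 4, 2, 4], .l [0, 13, 10, 8, 8, 4, 4, 2, 5], .l [3, 11], .y [4, 6, 10], .l [5, 8, 6, 1, 7, 4, 6], .l [5, 8, 6, 1, 7, 4, 6], .l [6, 11], .l [7, 10, 2, 9, 9, 7, 7, 5, 1], .l [7, 10, 2, 9], .l [8, 11], .l [7, 8, 0, 7], .l [9, 12, 8, 8, 6, 1, 7, 4, 1], .l [9, 12, 8, 8, 6, 1, 7, 4, 1], .l [10, 11], .l [9, 10, 6, 6, 4, 1, 5, 2, 4], .l [9, 10, 6, 6, 4, 1, 5, 2, 4], .r 486 [1, 2, 3, 4, 5, 6] [1, 1, 1, 1, 1, 1, 1], .l [9, 10, 6, 6, 4, 1, 5, 2, 6], .l [9, 10, 6, 6, 4, 1, 5, 2, 6], .l [0, 11, 13, 11, 11, 7, 7, 5, 1]]),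
([p 6 1, s 0 2, g, m 2 0, m 0 3, g, m 3 4, g, m 4 5, g, m 5 0, g, p 0 6, g, s 1 0, g], .lo 1, [.l [3, 1, 13, 10, 6, 7, 6, 6, 4, 4, 2, 4, 5], .l [3, 1, 4, 2, 13], .l [2, 14, 11, 11, 12], .y [1, 3], .l [0, 14, 13, 4, 6, 4, 1], .l [3, 1, 5, 3, 12], .l [0, 14, 13, 4, 6, 4, 1], .l [0, 14, 13, 6, 8, 6, 6, 4, 1], .l [3, 1, 7, 5, 12], .l [0, 14, 13, 6, 8, 6, 6, 4, 1], .l [0, 14, 13, 8, 10, 8, 8, 6, 6, 4, 1], .l [3, 1, 9, 7, 12], .l [0, 14, 13, 8, 10, 8, 8, 6, 6, 4, 1], .l [0, 12, 11, 8, 8, 6, 6, 4, 4, 2, 1], .l [6, 8, 7, 13, 7, 1, 9, 1, 4, 2, 7, 3, 1], .l [3, 1, 11, 9, 12], .l [4, 14, 9, 1, 11, 1, 4, 2, 9], .l [0, 15, 5, 2, 13, 8, 10, 8, 8, 6, 6, 4, 1], .l [3, 1, 13, 11, 12], .l [16, 15, 12], .l [14, 13, 12], .l [4,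 12, 7, 8, 13, 6, 2, 10, 5, 7, 5, 5, 3], .l [3, 1, 15, 13, 10], .l [14, 13, 14]]),
([p 6 1, s 0 2, g, m 2 0, m 0 3, g, m 3 4, g, m 4 5, g, p 0 6, g, m 5 0, g, s 1 0, g], .lo 1, [.l [3, 1, 11, 8, 6, 10, 9, 9, 7, 7, 5, 2, 5], .l [3, 1, 4, 2, 13], .l [2, 12, 9, 9, 12], .y [1, 3], .l [0, 12, 11, 4, 6, 4, 1], .l [3, 1, 5, 3, 12], .l [0, 12, 11, 4, 6, 4, 1], .l [0, 12, 11, 6, 8, 6, 6, 4, 1], .l [3, 1, 7, 5, 12], .l [0, 12, 11, 6, 8, 6, 6, 4, 1], .l [0, 12, 11, 8, 12, 10, 10, 8, 8, 6, 1], .l [3, 1, 9, 7, 12], .l [0, 12, 11, 8, 12, 10, 10, 8, 8, 6, 1], .l [0, 10, 9, 10, 12, 8, 8, 6, 6, 4, 1], .l [3, 1, 11, 9, 12], .l [0, 10, 9, 10, 12, 8, 8, 6, 6, 4, 1], .l [0, 10, 9, 10, 10, 6, 6, 4, 4, 2, 1], .l [7, 8, 6, 12, 7, 11,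 1, 9, 1, 8, 5, 3, 1], .l [3, 1, 13, 11, 12], .l [16, 15, 12], .l [14, 13, 12], .l [0, 13, 10, 7, 11, 12, 10, 6, 6, 4, 4, 2, 5], .l [3, 1, 15, 13, 10], .l [14, 13, 14]]),
([p 5 1, s 0 2, g, m 2 0, m 0 3, g, m 3 4, g, m 4 0, g, p 0 5, g, s 1 0, g], .hi 8, [.l [0, 10, 9, 6, 6, 4, 4, 2, 1], .l [2, 12, 9, 6, 6, 4, 4, 2, 4], .l [0, 13, 10, 6, 6, 4, 4, 2, 5], .l [3, 9], .y [4, 6, 8], .l [5, 8, 6, 1, 9, 6, 3], .l [5, 8, 6, 1, 9, 6, 3], .l [6, 9], .l [7, 10, 8, 8, 6, 1, 7, 4, 1], .l [7, 10, 8, 8, 6, 1, 7, 4, 1], .l [8, 9], .l [7, 8, 6, 6, 4, 1, 7, 4, 1], .l [7, 8, 6, 6, 4, 1, 7, 4, 1], .r 488 [1, 2, 3, 4, 6, 5] [1, 1, 1, 1, 1, 1, 1], .l [7, 8, 6, 6, 4, 1, 5, 2, 1], .l [7, 8, 6, 6, 4, 1, 5, 2, 4], .l [7, 8, 6, 6, 4, 1,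 5, 2, 4], .r 489 [1, 2, 3, 4, 6, 5] [1, 1, 1, 1, 1, 1, 1], .l [7, 8, 6, 6, 4, 1, 5, 2, 6], .l [7, 8, 6, 6, 4, 1, 5, 2, 6], .l [0, 11, 13, 9, 9, 7, 7, 5, 1]]),
([p 4 1, s 0 2, g, m 2 0, m 0 3, g, m 3 0, g, p 0 4, g, s 1 0, g], .hi 6, [.l [0, 8, 7, 4, 4, 2, 1], .l [2, 10, 7, 4, 4, 2, 4], .l [0, 11, 8, 4, 4, 2, 5], .l [3, 7], .y [4, 6], .l [5, 8, 6, 1, 7, 4, 1], .l [5, 8, 6, 1, 7, 4, 1], .l [6, 7], .l [5, 6, 4, 1, 7, 4, 1], .l [5, 6, 4, 1, 7, 4, 1], .r 490 [1, 2, 3, 5, 4] [1, 1, 1, 1, 1, 1], .l [5, 6, 4, 1, 5, 2, 1], .l [5, 6, 4, 1, 5, 2, 4], .l [5, 6, 4, 1, 5, 2, 4], .r 487 [1, 2, 3, 5, 4] [1, 1, 1, 1, 1, 1], .l [5, 6, 4, 1, 5, 2, 6], .l [5, 6, 4, 1, 5, 2, 6], .l [0, 9, 11, 7, 7, 5, 1]]),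
([p 3 1, s 0 2, g, m 2 0, m 0 0, g, p 0 3, g, s 1 0, g], .hi 4, [.l [0, 6, 5, 2, 1], .l [2, 8, 5, 2, 4], .l [0, 9, 6, 2, 5], .l [3, 5], .y [4], .l [3, 1, 7, 4, 1], .l [3, 1, 7, 4, 1], .r 491 [1, 2, 4, 3] [1, 1, 1, 1, 1], .l [3, 1, 5, 2, 1], .l [3, 1, 5, 2, 4], .l [3, 1, 5, 2, 4], .l [1, 6, 4, 9, 4, 6, 3], .l [3, 1, 5, 2, 6], .l [3, 1, 5, 2, 6], .l [0, 7, 9, 5, 1]]),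
([p 6 1, s 0 2, g, s 3 0, g, m 2 3, p 4 0, g, p 5 4, g, p 0 5, g, p 0 6, g, s 1 0, g], .hi 6, [.l [5, 3, 5, 1, 10], .l [6, 8, 4, 12, 9, 2, 4, 2, 6, 7], .l [6, 8, 4, 12, 9, 2, 4, 2, 6], .l [8, 4], .l [8, 2, 13, 5, 13, 7, 4, 9], .l [2, 14, 11, 3, 4, 2, 4, 5, 4, 4, 2, 4, 5], .l [8, 2], .l [8, 1, 9, 7, 3], .l [6, 7], .l [8, 1], .l [4, 6, 8, 12, 5, 7, 9, 2, 6, 7], .l [6, 9], .l [10, 3], .y [6, 10, 8], .l [4, 6, 10, 12, 3, 5, 7, 2, 4, 7], .l [6, 11], .l [12, 5], .l [6, 11], .l [2, 12, 9, 1, 11, 8, 11, 5, 2, 7], .l [6, 13], .l [14, 7], .l [0, 13, 10, 1, 13, 10, 5, 6, 8, 5], .l [6, 15], .l [16, 9]]),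
([p 6 1, s 0 2, g, m 2 3, p 4 0, g, m 3 0, g, p 5 4, g, p 0 5, g, p 0 6, g, s 1 0, g], .lo 1, [.l [3, 1, 13, 10, 6, 7, 6, 6, 2, 6, 7, 5, 3], .l [3, 1, 4, 2, 13], .l [2, 14, 11, 11, 12], .l [3, 1, 3, 1, 10], .l [0, 14, 13, 4, 8, 6, 1], .l [3, 1, 5, 3, 12], .l [0, 14, 13, 4, 8, 6, 1], .y [1, 3, 6], .l [0, 14, 13, 6, 8, 4, 1], .l [3, 1, 7, 5, 12], .l [0, 14, 13, 6, 8, 4, 1], .l [0, 14, 13, 8, 10, 8, 8, 4, 1], .l [3, 1, 9, 7, 12], .l [0, 14, 13, 8, 10, 8, 8, 4, 1], .l [3, 1, 13, 10, 11, 8, 10, 8, 8, 6, 1, 2, 5], .l [3, 1, 11, 9, 12], .l [4, 14, 9, 3, 11, 1, 4, 2, 9], .l [3, 1, 11, 8, 9, 6, 8, 6, 6, 4, 8, 6, 3], .l [3, 1, 13, 11, 12], .l [16, 15, 12], .l [14, 13, 12], .l [3, 1, 11, 8, 9, 6, 8, 6, 6, 4, 6, 4, 5], .l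 [3, 1, 15, 13, 10], .l [14, 13, 14]]),
([p 5 1, s 0 2, g, m 2 0, p 3 0, g, p 4 3, g, p 0 4, g, p 0 5, g, s 1 0, g], .hi 3, [.y [1, 3], .r 493 [1, 2, 6, 3, 4, 5] [1, 1, 1, 1, 1, 1, 1], .l [2, 12, 9, 1], .l [3, 4], .l [2, 12, 9, 2, 4, 2, 6], .l [0, 13, 10, 2, 4, 2, 7], .r 494 [1, 2, 6, 3, 4, 5] [1, 1, 1, 1, 1, 1, 1], .l [2, 12, 9, 4, 6, 4, 4, 2, 4], .l [0, 13, 10, 4, 6, 4, 4, 2, 5], .l [4, 8, 6, 11, 8, 1, 2, 6, 7], .l [0, 11, 8, 4, 4, 2, 2, 0, 3], .l [5, 10, 7, 3, 6, 3, 7, 2, 4], .l [0, 13, 10, 6, 8, 9, 6], .l [4, 10, 8, 11, 8, 1, 4, 6, 7], .l [0, 11, 8, 6, 6, 7, 6], .l [5, 12, 9, 3, 8, 5, 1, 5, 2], .l [2, 10, 7, 9], .l [5, 12, 9, 3, 8, 5, 1, 5, 2], .l [5, 14, 11, 3, 10, 7, 1, 7, 4], .l [2, 10, 7, 11], .l [5, 14,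 11, 3, 10, 7, 1, 7, 4]]),
([p 4 1, s 0 2, g, m 2 0, p 3 0, g, p 5 3, g, p 0 4, g, p 6 5, g, p 0 6, g, s 1 0, g], .lo 1, [.l [3, 1, 9, 6, 9, 10, 9, 9, 4, 4, 2, 4, 5], .l [3, 1, 4, 2, 13], .l [2, 10, 7, 7, 12], .y [1, 3], .l [3, 1, 3, 1, 10], .l [0, 10, 9, 4, 6, 4, 1], .l [3, 1, 5, 3, 12], .l [0, 10, 9, 4, 6, 4, 1], .l [0, 10, 9, 6, 10, 8, 8, 6, 1], .l [3, 1, 7, 5, 12], .l [0, 10, 9, 6, 10, 8, 8, 6, 1], .l [0, 8, 7, 8, 10, 6, 6, 4, 1], .l [3, 1, 9, 7, 12], .l [0, 8, 7, 8, 10, 6, 6, 4, 1], .l [0, 8, 7, 10, 12, 10, 10, 6, 6, 4, 1], .l [3, 1, 11, 9, 12], .l [0, 8, 7, 10, 12, 10, 10, 6, 6, 4, 1], .l [5, 14, 9, 13, 1, 11, 1, 10, 7, 7, 5, 3, 1], .l [3, 1, 13, 11, 12], .l [16, 15, 12], .l [14, 13, 12], .l [10, 12, 11,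 11, 7, 7, 5, 1, 6, 3, 6, 2, 5], .l [3, 1, 15, 13, 10], .l [14, 13, 14]]),
([p 4 1, s 0 2, g, m 2 0, p 3 0, g, p 5 3, g, p 0 4, g, p 0 5, g, s 1 0, g], .lo 10, [.l [2, 10, 7, 9, 9, 4, 4, 2, 4], .l [3, 11], .l [0, 13, 10, 8, 8, 4, 4, 2, 5], .l [0, 11, 8, 6, 6, 2, 2, 0, 3], .y [4, 10, 6], .l [5, 8, 6, 1, 7, 4, 6], .l [6, 11], .l [5, 8, 6, 1, 7, 4, 6], .l [7, 10, 2, 9, 9, 7, 7, 5, 1], .l [8, 11], .l [7, 10, 2, 9], .l [9, 12, 8, 8, 6, 1, 7, 4, 1], .l [10, 11], .l [9, 12, 8, 8, 6, 1, 7, 4, 1], .l [9, 10, 6, 6, 4, 1, 5, 2, 4], .r 496 [1, 2, 3, 4, 5, 6] [1, 1, 1, 1, 1, 1, 1], .l [9, 10, 6, 6, 4, 1, 5, 2, 4], .l [0, 11, 11, 9, 9, 5, 5, 3, 1], .l [9, 10, 6, 6, 4, 1, 5, 2, 6], .l [0, 11, 13, 11, 11, 7, 7, 5, 1], .l [9,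 10, 6, 6, 4, 1, 5, 2, 6]]),
([p 4 1, s 0 2, g, m 2 0, p 3 0, g, p 0 3, g, p 0 4, g, s 1 0, g], .lo 6, [.l [2, 10, 7, 4, 4, 2, 4], .l [3, 7], .l [0, 11, 8, 4, 4, 2, 5], .l [0, 9, 6, 2, 2, 0, 3], .y [4, 6], .l [5, 8, 6, 1, 7, 4, 1], .l [6, 7], .l [5, 8, 6, 1, 7, 4, 1], .l [5, 6, 4, 1, 7, 4, 1], .r 495 [1, 2, 3, 5, 4] [1, 1, 1, 1, 1, 1], .l [5, 6, 4, 1, 7, 4, 1], .l [5, 6, 4, 1, 5, 2, 4], .r 497 [1, 2, 3, 4, 5] [1, 1, 1, 1, 1, 1], .l [5, 6, 4, 1, 5, 2, 4], .l [0, 9, 9, 5, 5, 3, 1], .l [5, 6, 4, 1, 5, 2, 6], .l [0, 9, 11, 7, 7, 5, 1], .l [5, 6, 4, 1, 5, 2, 6]]),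
([p 3 1, s 0 2, g, m 2 0, p 0 0, g, p 0 3, g, s 1 0, g], .lo 4, [.l [2, 8, 5, 2, 4], .l [3, 5], .l [0, 9, 6, 2, 5], .l [0, 7, 4, 0, 3], .y [4], .l [3, 1, 7, 4, 1], .r 498 [1, 2, 4, 3] [1, 1, 1, 1, 1], .l [3, 1, 7, 4, 1], .l [3, 1, 5, 2, 4], .l [1, 6, 4, 9, 4, 6, 3], .l [3, 1, 5, 2, 4], .l [0, 7, 7, 3, 1], .l [3, 1, 5, 2, 6], .l [0, 7, 9, 5, 1], .l [3, 1, 5, 2, 6]]),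
([p 2 0, g, s 0 1, g, m 1 0, p 3 2, g, p 4 3, g, p 5 4, g, p 6 5, g, p 7 6, g, p 8 7, g, p 0 8, g], .hi 4, [.l [5, 7, 1, 2, 6, 4, 1], .l [1, 7, 5, 3], .l [2, 5], .y [2, 4], .l [5, 7, 1, 4, 6, 2, 3], .l [3, 7, 3, 1], .l [4, 5], .l [3, 5, 1, 4, 6, 2, 3], .l [3, 5, 1, 4], .l [15, 17, 16, 16, 14, 14, 12, 12, 10, 10, 6, 1, 5, 1, 5, 1, 5, 1], .l [3, 5, 1, 6, 8, 6, 6, 2, 3], .l [3, 5, 1, 6], .l [15, 17, 16, 16, 14, 14, 12, 12, 8, 8, 6, 1, 5, 1, 5, 1, 5, 1], .l [3, 5, 1, 8, 10, 8, 8, 6, 6, 2, 3], .l [3, 5, 1, 8], .l [6, 11, 8, 4, 7, 3, 6, 0, 3], .l [3, 5, 1, 10, 12, 10, 10, 8, 8, 6, 6, 2, 3], .l [3, 5, 1, 10], .l [6, 13, 10, 4, 9, 5, 8, 0, 5], .l [3, 5, 1, 12, 14, 12, 12, 10, 10, 8, 8, 6, 6, 2, 3], .l [3, 5, 1, 12],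 .l [5, 15, 13, 5, 12, 7, 1, 9, 11, 5, 5, 3, 7, 5, 5, 3, 5, 1], .l [3, 5, 1, 14, 16, 14, 14, 12, 12, 10, 10, 8, 8, 6, 6, 2, 3], .l [3, 5, 1, 14], .l [4, 1, 4, 0, 14, 11, 13, 11, 11, 9, 9, 7, 7, 5, 5, 3, 5, 1], .l [3, 5, 1, 14], .l [3, 5, 1, 16, 13, 14, 11], .l [3, 5, 1, 16], .l [4, 1, 4, 0, 16, 13, 15, 13, 13, 11, 11, 9, 9, 7, 7, 5, 5, 3]]),
([p 2 0, g, s 0 1, g, m 1 0, p 3 2, g, p 4 3, g, p 5 4, g, p 6 5, g, p 7 6, g, p 0 7, g], .lo 15, [.y [0, 15, 13, 11, 9, 7, 5], .l [1, 7, 5, 14, 14, 12, 12, 10, 10, 8, 8, 6, 6, 4, 1], .l [2, 16], .l [1, 7, 5, 14], .l [3, 7, 3, 14, 14, 12, 12, 10, 10, 8, 8, 6, 6, 2, 3], .l [4, 16], .l [3, 7, 3, 14], .l [3, 5, 1, 12], .l [6, 9, 7, 1, 6, 2, 11], .l [7, 16], .l [6, 9, 7, 1, 6,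 2, 11], .l [8, 11, 9, 9, 7, 1, 6, 2, 9], .l [9, 16], .l [8, 11, 9, 9, 7, 1, 6, 2, 9], .l [10, 13, 11, 11, 9, 9, 7, 1, 6, 2, 7], .l [11, 16], .l [10, 13, 11, 11, 9, 9, 7, 1, 6, 2, 7], .l [12, 15, 13, 13, 11, 11, 9, 9, 7, 1, 6, 2, 5], .l [13, 16], .l [12, 15, 13, 13, 11, 11, 9, 9, 7, 1, 6, 2, 5], .l [14, 17, 15, 15, 13, 13, 11, 11, 9, 9, 7, 1, 6, 2, 1], .l [15, 16], .l [14, 17, 15, 15, 13, 13, 11, 11, 9, 9, 7, 1, 6, 2, 1], .l [14, 15, 13, 13, 11, 11, 9, 9, 7, 7, 5, 1, 4, 0, 3], .r 500 [1, 2, 3, 4, 5, 6, 7, 8] [1, 1, 1, 1, 1, 1, 1, 1, 1], .l [14, 15, 13, 13, 11, 11, 9, 9, 7, 7, 5, 1, 4, 0, 3]]),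
([p 2 0, g, s 0 1, g, m 1 0, p 3 2, g, p 4 3, g, p 5 4, g, p 6 5, g, p 0 6, g], .lo 13, [.y [0, 13, 11, 9, 7, 5], .l [1, 7, 5, 12, 12, 10, 10, 8, 8, 6, 6, 4, 1], .l [2, 14], .l [1, 7, 5, 12], .l [3, 7, 3, 12, 12, 10, 10, 8, 8, 6, 6, 2, 3], .l [4, 14], .l [3, 7, 3, 12], .l [3, 5, 1, 10], .l [6, 9, 7, 1, 6, 2, 9], .l [7, 14], .l [6, 9, 7, 1, 6, 2, 9], .l [8, 11, 9, 9, 7, 1, 6, 2, 7], .l [9, 14], .l [8, 11, 9, 9, 7, 1, 6, 2, 7], .l [10, 13, 11, 11, 9, 9, 7, 1, 6, 2, 5], .l [11, 14], .l [10, 13, 11, 11, 9, 9, 7, 1, 6, 2, 5], .l [12, 15, 13, 13, 11, 11, 9, 9, 7, 1, 6, 2, 1], .l [13, 14], .l [12, 15, 13, 13, 11, 11, 9, 9, 7, 1, 6, 2, 1], .l [12, 13, 11, 11, 9, 9, 7, 7, 5, 1, 4, 0, 3], .r 501 [1, 2, 3, 4, 5, 6, 7] [1,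 1, 1, 1, 1, 1, 1, 1], .l [12, 13, 11, 11, 9, 9, 7, 7, 5, 1, 4, 0, 3]]),
([p 2 0, g, s 0 1, g, m 1 0, p 3 2, g, p 4 3, g, p 5 4, g, p 0 5, g], .lo 11, [.y [0, 11, 9, 7, 5], .l [1, 7, 5, 10, 10, 8, 8, 6, 6, 4, 1], .l [2, 12], .l [1, 7, 5, 10], .l [3, 7, 3, 10, 10, 8, 8, 6, 6, 2, 3], .l [4, 12], .l [3, 7, 3, 10], .l [3, 5, 1, 8], .l [6, 9, 7, 1, 6, 2, 7], .l [7, 12], .l [6, 9, 7, 1, 6, 2, 7], .l [8, 11, 9, 9, 7, 1, 6, 2, 5], .l [9, 12], .l [8, 11, 9, 9, 7, 1, 6, 2, 5], .l [10, 13, 11, 11, 9, 9, 7, 1, 6, 2, 1], .l [11, 12], .l [10, 13, 11, 11, 9, 9, 7, 1, 6, 2, 1], .l [10, 11, 9, 9, 7, 7, 5, 1, 4, 0, 3], .r 502 [1, 2, 3, 4, 5, 6] [1, 1, 1, 1, 1, 1, 1], .l [10, 11, 9, 9, 7, 7, 5, 1, 4, 0, 3]]),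
([p 2 0, g, s 0 1, g, m 1 0, p 3 2, g, p 4 3, g, p 0 4, g], .lo 9, [.y [0, 9, 7, 5], .l [1, 7, 5, 8, 8, 6, 6, 4, 1], .l [2, 10], .l [1, 7, 5, 8], .l [3, 7, 3, 8, 8, 6, 6, 2, 3], .l [4, 10], .l [3, 7, 3, 8], .l [3, 5, 1, 6], .l [6, 9, 7, 1, 6, 2, 5], .l [7, 10], .l [6, 9, 7, 1, 6, 2, 5], .l [8, 11, 9, 9, 7, 1, 6, 2, 1], .l [9, 10], .l [8, 11, 9, 9, 7, 1, 6, 2, 1], .l [8, 9, 7, 7, 5, 1, 4, 0, 3], .r 503 [1, 2, 3, 4, 5] [1, 1, 1, 1, 1, 1], .l [8, 9, 7, 7, 5, 1, 4, 0, 3]]),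
([p 2 0, g, s 0 1, g, m 1 0, p 3 2, g, p 0 3, g], .lo 7, [.y [0, 7, 5], .l [1, 7, 5, 6, 6, 4, 1], .l [2, 8], .l [1, 7, 5, 6], .l [3, 7, 3, 6, 6, 2, 3], .l [4, 8], .l [3, 7, 3, 6], .l [3, 5, 1, 4], .l [6, 9, 7, 1, 6, 2, 1], .l [7, 8], .l [6, 9, 7, 1, 6, 2, 1], .l [6, 7, 5, 1, 4, 0, 3], .r 504 [1, 2, 3, 4] [1, 1, 1, 1, 1], .l [6, 7, 5, 1, 4, 0, 3]]),
([p 2 0, g, s 0 1, g, m 1 0, p 0 2, g], .lo 5, [.y [0, 5], .l [1, 7, 5, 4, 1], .l [2, 6], .l [1, 7, 5, 4], .l [3, 7, 3, 2, 3], .l [4, 6], .l [3, 7, 3, 2], .l [3, 5, 1, 0], .l [4, 1, 4, 0, 3], .r 505 [1, 2, 3] [1, 1, 1, 1], .l [4, 1, 4, 0, 3]]),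
([p 3 1, s 0 2, g, m 2 0, g, p 0 3, g, s 1 0, g], .top 4, [.r 506 [2, 3] [0, 1, 3], .r 485 [1, 2, 3] [1, 1, 1, 1], .r 499 [1, 2, 3] [1, 1, 1, 1], .r 492 [1, 2, 3] [1, 1, 1, 1]]),
([p 5 1, s 4 2, g, s 0 3, g, s 3 4, s 1 0, g, m 2 0, g, p 6 5, g, p 7 6, g, p 0 7, g], .hi 6, [.l [2, 12, 9, 4, 8, 3], .l [2, 12, 9, 4, 8, 3], .l [6, 12, 5, 5, 3, 4, 2, 4, 2, 3], .l [2, 10, 7, 2, 6, 3], .l [4, 12, 7, 2, 6, 3], .l [4, 12, 7, 2, 6, 3], .l [6, 12, 5, 5, 3, 4, 2, 6, 4, 1], .l [5, 3, 11, 6, 1, 3, 4, 1], .l [4, 12, 7, 7, 5, 6, 2, 4, 2, 3], .l [1, 4, 7, 1, 7, 4, 4, 1], .l [0, 5, 1, 8, 3, 8, 4, 5], .l [9, 12, 2, 7, 3, 10, 5, 3, 4, 8, 7, 7, 5], .l [0, 5, 1, 8, 3, 8, 4, 5], .l [0, 5, 3, 10, 5, 1, 4, 1], .l [11, 14, 12, 12, 2,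 7, 3, 8, 4, 8, 7, 7, 5], .l [0, 5, 3, 10, 5, 1, 4, 1], .l [0, 5, 3, 12, 7, 1, 6, 3], .l [0, 5, 3, 12, 0, 7, 1, 6, 3, 3, 1, 7, 5], .l [0, 5, 3, 6, 2, 10, 9, 9, 3, 3, 1, 7, 5], .y [0, 6, 14, 12, 10], .l [0, 5, 3, 14, 9, 1, 8, 5], .l [0, 5, 3, 14, 0, 9, 1, 8, 5, 5, 3, 3, 1], .l [0, 5, 3, 6, 2, 12, 11, 11, 5, 5, 3, 3, 1]]),
([p 5 1, s 4 2, g, s 0 3, g, s 3 4, s 1 0, g, m 2 0, g, p 6 5, g, p 0 6, g], .lo 12, [.l [0, 7, 1, 3, 10, 10, 8, 8, 4, 1], .l [3, 13], .l [0, 7, 1, 3, 10, 10, 8, 8, 4, 1], .l [4, 10, 6, 3, 6, 8, 4, 7], .l [5, 13], .l [4, 12, 7, 11], .y [0, 6, 12, 10], .l [7, 2, 4, 8, 3, 3, 4, 6, 4, 5], .l [8, 13], .l [7, 12, 4, 11], .l [7, 10, 2, 9], .l [9, 4, 6, 1, 4, 4, 1, 6, 2, 5], .l [10, 13], .l [9, 12, 2,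 11], .l [11, 6, 8, 12, 8, 8, 2, 1, 7, 4, 4, 1], .l [12, 13], .l [11, 14, 12, 12, 2, 1], .l [11, 6, 8, 10, 6, 6, 0, 7, 1, 4, 4, 1], .r 508 [1, 2, 3, 4, 5, 6, 7] [1, 1, 1, 1, 1, 1, 1], .l [11, 12, 10, 10, 0, 9]]),
([p 5 1, s 4 2, g, s 0 3, g, s 3 4, s 1 0, g, m 2 0, g, p 0 5, g], .lo 10, [.l [0, 7, 1, 3, 8, 8, 4, 1], .l [3, 11], .l [0, 7, 1, 3, 8, 8, 4, 1], .l [4, 10, 6, 3, 6, 8, 4, 3], .l [5, 11], .l [4, 12, 7, 6], .y [0, 6, 10], .l [7, 2, 4, 8, 3, 3, 4, 6, 4, 3], .l [8, 11], .l [7, 12, 4, 3], .l [7, 10, 2, 1], .l [9, 4, 6, 1, 4, 4, 1, 6, 2, 1], .l [10, 11], .l [9, 12, 2, 1], .l [9, 4, 6, 1, 4, 4, 1, 4, 0, 3], .r 509 [1, 2, 3, 4, 5, 6] [1, 1, 1, 1, 1, 1], .l [9, 10, 0, 9]]),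
([p 4 1, s 0 2, g, s 0 3, g, s 3 0, s 1 0, g, m 2 0, g, p 0 4, g], .hi 5, [.r 510 [1, 2, 3, 5, 4] [1, 1, 1, 1, 1], .l [2, 12, 9, 3, 6, 7, 4, 1], .l [2, 12, 9, 3, 6, 7, 4, 1], .l [0, 7, 3], .y [3, 5], .l [2, 12, 9, 3, 6, 7, 4, 1], .l [2, 12, 9, 3, 6, 7, 4, 1], .l [0, 7, 1], .l [2, 10, 8, 3, 4, 8, 6, 1], .l [0, 5, 6], .l [8, 2, 6], .l [10, 4, 8, 5], .l [0, 5, 8], .l [3, 4, 9, 4, 6, 3], .l [0, 5, 8], .l [12, 6, 10, 7], .l [0, 5, 10], .l [3, 4, 11, 6, 8, 5]])]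

def D01 : List (List (List Item × Qry × List Rf)) := [d01_0, d01_1, d01_2, d01_3]

end Pool.Agent.H63.PU.C161
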