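import Pool.Agent.H63.PU.Ck3

/-! Certificate data, machine generated. -/

namespace Pool.Agent.H63.PU.C161

open Pool.Agent.H63.PU Pool.Agent.H63.PU.Ck3 Pool.Agent.H63.PU.Short

set_option maxRecDepth 20000

def d02_0 : List (List Item × Qry × List Rf) := [
([p 6 1, s 5 2, g, s 0 3, g, m 3 4, g, s 4 5, s 1 0, g, m 2 0, g, p 0 6, g], .hi 8, [.l [2, 14, 11, 6, 10, 3], .l [2, 14, 11, 6, 10, 3], .l [8, 14, 5, 5, 3, 4, 2, 4, 2, 5], .l [2, 12, 9, 4, 8, 3], .l [4, 14, 9, 4, 8, 3], .l [4, 14, 9, 4, 8, 3], .l [8, 14, 5, 5, 3, 4, 2, 6, 4, 5], .l [6, 14, 7, 2, 6, 3], .l [6, 14, 7, 2, 10], .l [7, 9, 6], .l [7, 5, 13, 6, 1, 3, 4, 1], .l [6, 14, 7, 7, 5, 6, 2, 4, 2, 5], .l [6, 14, 7, 7, 5, 6, 2, 8, 1, 3, 4, 1], .l [0, 7, 5, 10, 3, 10,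 6, 7], .l [8, 11, 8, 1, 6, 2, 6, 1], .l [0, 7, 5, 10, 3, 10, 6, 7], .y [0, 8, 12], .l [0, 7, 5, 12, 5, 1, 4, 1], .l [8, 13, 10, 1, 6, 2, 8, 3], .l [0, 7, 5, 12, 5, 1, 4, 1]]),
([p 6 1, s 5 2, g, m 0 3, g, m 3 4, g, s 4 5, s 1 0, g, m 2 0, g, p 0 6, g], .hi 8, [.l [2, 14, 11, 6, 10, 3], .l [0, 9, 7, 10, 2, 4, 1, 9, 5, 7, 5, 3, 1], .l [0, 9, 7, 8, 6, 8, 2, 4, 1, 7, 3, 5, 3], .l [0, 7, 5, 6, 4, 4, 2, 4, 2, 2, 1, 3, 1], .l [4, 7, 5, 12, 9, 4, 8, 3], .l [0, 9, 7, 10, 2, 4, 1, 9, 5, 5, 3, 5, 3], .l [0, 9, 7, 8, 4, 6, 4, 6, 4, 4, 1, 5, 1], .l [6, 14, 7, 2, 6, 3], .l [0, 9, 7, 10, 2, 6, 3, 1, 3, 5, 3, 5, 3], .l [0, 9, 7, 8, 2, 8, 6, 6, 3, 3, 1, 5, 1], .l [7, 5, 13, 6, 1, 3, 4, 1], .l [0, 7, 5, 6, 6, 8, 2, 4, 1, 7, 3, 5, 3], .l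 [0, 7, 5, 8, 1, 4, 1, 6, 4, 4, 1, 5, 1], .l [0, 7, 5, 10, 3, 10, 6, 7], .l [7, 5, 13, 6, 3, 8, 1, 2, 7, 5, 1, 4, 1], .l [0, 7, 5, 8, 2, 4, 1, 9, 5, 7, 5, 3, 1], .y [0, 8, 12], .l [0, 7, 5, 12, 5, 1, 4, 1], .l [0, 7, 5, 8, 2, 4, 1, 7, 3, 5, 3, 1, 3], .l [0, 7, 5, 8, 2, 4, 1, 7, 3, 5, 3, 5, 3]]),
([p 5 1, s 4 2, g, m 0 3, g, s 3 4, s 1 0, g, m 2 0, g, p 0 5, g], .lo 3, [.r 512 [1, 2, 6, 3, 4, 5] [1, 1, 1, 1, 1, 1], .l [5, 1], .r 513 [1, 2, 6, 3, 4, 5] [1, 1, 1, 1, 1, 1], .l [5, 1, 9, 5, 2, 5], .l [5, 1], .l [3, 4], .l [3, 5, 4], .l [8, 4, 4, 2, 4, 1], .l [8, 4], .l [3, 7], .y [1, 8, 3, 5], .l [10, 6, 6, 4, 6, 1], .l [10, 6], .l [3, 9], .l [12, 8, 8, 6, 8, 1], .l [12, 8], .l [3, 11]]),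
([p 4 1, s 0 2, g, m 0 3, g, s 3 0, s 1 0, g, m 2 0, g, p 0 4, g], .hi 5, [.r 514 [1, 2, 3, 5, 4] [1, 1, 1, 1, 1], .l [2, 12, 9, 3, 6, 7, 4, 1], .l [2, 12, 9, 3, 6, 7, 4, 1], .l [0, 7, 3], .y [3, 5], .l [2, 12, 9, 3, 6, 7, 4, 1], .l [2, 12, 9, 3, 6, 7, 4, 1], .l [0, 7, 1], .l [2, 10, 8, 3, 4, 8, 6, 1], .l [0, 5, 6], .l [8, 2, 6], .l [10, 4, 8, 5], .l [0, 5, 8], .l [10, 4, 8], .l [0, 5, 8], .l [12, 6, 10, 7], .l [0, 5, 10], .l [12, 6, 10]]),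
([p 4 1, s 0 2, g, s 3 0, s 1 0, g, s 0 3, g, m 2 0, g, p 0 4, g], .lo 1, [.l [0, 5, 6, 10, 8, 1], .l [3, 1, 9, 7, 2], .l [0, 5, 6, 10, 8, 1], .l [0, 3, 4, 8, 6, 1], .l [1, 3, 4, 8, 5, 6, 0, 1], .l [0, 3, 6, 10, 6, 7], .l [6, 4, 9, 4, 5], .l [0, 3, 6, 10, 6, 7], .l [0, 3, 4, 10, 8, 3], .l [8, 6, 9, 2, 5], .l [0, 3, 4, 10, 8, 3], .y [1, 8], .l [0, 3, 4, 10, 8, 5], .l [8, 6, 9, 2, 5], .l [0, 3, 4, 10, 8, 5], .l [0, 3, 4, 8, 6, 7], .l [8, 6, 11, 4, 7], .l [0, 3, 4, 8, 6, 7]]),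
([p 3 1, s 0 2, g, s 0 0, s 1 0, g, m 2 0, g, p 0 3, g], .lo 3, [.r 511 [1, 2, 4, 3] [1, 1, 1, 1, 1], .l [0, 5, 1], .r 515 [1, 2, 4, 3] [1, 1, 1, 1, 1], .y [3], .c, .r 516 [1, 2, 4, 3] [1, 1, 1, 1, 1], .l [6, 2, 4], .l [0, 3, 4], .l [0, 3, 4], .l [8, 4, 6, 3], .l [8, 4, 6], .l [0, 3, 6], .l [10, 6, 8, 5], .l [10, 6, 8], .l [0, 3, 8]]),
([p 0 1, s 0 2, g, p 0 0, s 1 0, g, m 2 0, g], .hi 3, [.l [0, 3, 2], .l [0, 3, 1], .l [0, 5, 1], .l [3, 8, 5, 2, 5], .l [5, 1], .y [3], .l [0, 3, 4], .l [3, 5], .l [6, 2], .l [0, 3, 6], .l [3, 7], .l [8, 4]]),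
([p 0 1, s 0 2, g, m 0 0, s 1 0, g, m 2 0, g], .lo 3, [.l [0, 5, 1], .l [5, 1], .l [3, 8, 5, 2, 5], .y [3], .c, .l [0, 3, 4], .l [6, 2], .l [3, 5], .l [3, 5], .l [0, 3, 6], .l [8, 4], .l [3, 7]]),
([p 3 1, s 0 2, g, s 1 0, g, m 2 0, g, p 0 3, g], .bot 2, [.l [4, 2, 2], .r 517 [1, 2, 3] [1, 1, 1, 1], .r 518 [1, 2] [1, 1, 3], .r 519 [1, 2] [1, 1, 3]]),
([p 6 1, s 0 2, g, m 2 0, m 0 3, g, m 3 4, g, m 4 5, g, m 5 0, g, s 1 0, g, p 0 6, g], .lo 1, [.l [3, 1, 15, 12, 6, 7, 6, 6, 4, 4, 2, 6, 1], .l [3, 1, 4, 2, 11], .l [2, 16, 13, 13, 1], .y [1, 3], .l [0, 16, 15, 4, 6, 4, 1], .l [3, 1, 5, 3, 10], .l [0, 16, 15, 4, 6, 4, 1], .l [0, 16, 15, 6, 8, 6, 6, 4, 1], .l [3, 1, 7, 5, 10], .l [0, 16, 15, 6, 8, 6, 6, 4, 1], .l [0, 16, 15,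 8, 10, 8, 8, 6, 6, 4, 1], .l [3, 1, 9, 7, 10], .l [0, 16, 15, 8, 10, 8, 8, 6, 6, 4, 1], .l [0, 14, 13, 8, 8, 6, 6, 4, 4, 2, 1], .l [8, 10, 9, 9, 7, 7, 5, 1, 10, 7, 3, 6, 1], .l [3, 1, 11, 9, 10], .l [4, 16, 11, 1, 13, 1, 6, 4, 1], .l [11, 14, 2, 2, 1], .l [8, 10, 9, 9, 7, 7, 5, 1, 10, 7, 5, 6, 3], .l [3, 1, 13, 11, 8], .l [4, 16, 11, 1, 13, 1, 4, 2, 3], .l [8, 10, 9, 9, 7, 11, 5, 1, 7, 1, 8, 6, 1], .l [3, 1, 15, 13, 8], .l [12, 11, 14]]),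
([p 5 1, s 0 2, g, m 2 0, m 0 3, g, m 3 4, g, m 4 0, g, s 1 0, g, p 0 5, g], .hi 8, [.l [0, 12, 11, 6, 6, 4, 4, 2, 1], .l [2, 14, 11, 6, 6, 4, 4, 2, 6], .l [0, 11, 8, 6, 6, 4, 4, 2, 3], .l [3, 9], .y [4, 6, 8], .l [5, 8, 6, 1, 11, 8, 3], .l [5, 8, 6, 1, 11, 8, 3], .l [6, 9], .l [7, 10, 8, 8, 6, 1, 9, 6, 1], .l [7, 10, 8, 8, 6, 1, 9, 6, 1], .l [8, 9], .l [7, 8, 6, 6, 4, 1, 9, 6, 1], .l [7, 8, 6, 6, 4, 1, 9, 6, 1], .r 521 [1, 2, 3, 4, 6, 5] [1, 1, 1, 1, 1, 1, 1], .l [7, 8, 6, 6, 4, 1, 9, 6, 3], .l [7, 8, 6, 6, 4, 1, 9, 6, 3], .l [0, 9, 11, 9, 9, 7, 7, 5, 1], .l [7, 8, 6, 6, 4, 1, 7, 4, 3], .l [7, 8, 6, 6, 4, 1, 7, 4, 6], .l [7, 8, 6, 6, 4, 1, 7, 4, 6], .l [0, 9, 13, 11, 11, 9, 9, 7, 1]]),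
([p 4 1, s 0 2, g, m 2 0, m 0 3, g, m 3 0, g, s 1 0, g, p 0 4, g], .hi 6, [.l [0, 10, 9, 4, 4, 2, 1], .l [2, 12, 9, 4, 4, 2, 6], .l [0, 9, 6, 4, 4, 2, 3], .l [3, 7], .y [4, 6], .l [5, 8, 6, 1, 9, 6, 1], .l [5, 8, 6, 1, 9, 6, 1], .l [6, 7], .l [5, 6, 4, 1, 9, 6, 1], .l [5, 6, 4, 1, 9, 6, 1], .r 522 [1, 2, 3, 5, 4] [1, 1, 1, 1, 1, 1], .l [5, 6, 4, 1, 9, 6, 3], .l [5, 6, 4, 1, 9, 6, 3], .l [0, 7, 9, 7, 7, 5, 1], .l [5, 6, 4, 1, 7, 4, 3], .l [5, 6, 4, 1, 7, 4, 6], .l [5, 6, 4, 1, 7, 4, 6], .l [0, 7, 11, 9, 9, 7, 1]]),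
([p 3 1, s 0 2, g, m 2 0, m 0 0, g, s 1 0, g, p 0 3, g], .hi 4, [.l [0, 8, 7, 2, 1], .l [2, 10, 7, 2, 6], .l [0, 7, 4, 2, 3], .l [3, 5], .y [4], .l [3, 1, 9, 6, 1], .l [3, 1, 9, 6, 1], .r 523 [1, 2, 4, 3] [1, 1, 1, 1, 1], .l [3, 1, 9, 6, 3], .l [3, 1, 9, 6, 3], .l [0, 5, 7, 5, 1], .l [3, 1, 7, 4, 3], .l [3, 1, 7, 4, 6], .l [3, 1, 7, 4, 6], .l [0, 5, 9, 7, 1]]),
([p 6 1, s 0 2, g, m 2 0, p 3 0, g, p 4 3, g, p 5 4, g, p 0 5, g, s 1 0, g, p 0 6, g], .lo 1, [.l [3, 1, 15, 12, 6, 7, 6, 6, 4, 4, 2, 6, 1], .l [3, 1, 4, 2, 11], .l [2, 16, 13, 13, 1], .y [1, 3], .l [3, 1, 3, 1, 8], .l [0, 16, 15, 4, 6, 4, 1], .l [3, 1, 5, 3, 10], .l [0, 16, 15, 4, 6, 4, 1], .l [0, 16, 15, 6, 8, 6, 6, 4, 1], .l [3, 1, 7, 5, 10], .l [0, 16, 15, 6,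 8, 6, 6, 4, 1], .l [0, 16, 15, 8, 10, 8, 8, 6, 6, 4, 1], .l [3, 1, 9, 7, 10], .l [0, 16, 15, 8, 10, 8, 8, 6, 6, 4, 1], .l [8, 10, 9, 9, 7, 7, 5, 1, 10, 7, 3, 6, 1], .l [3, 1, 11, 9, 10], .l [4, 16, 11, 1, 13, 1, 6, 4, 1], .l [11, 14, 2, 2, 1], .l [8, 10, 9, 9, 7, 7, 5, 1, 10, 7, 5, 6, 3], .l [3, 1, 13, 11, 8], .l [4, 16, 11, 1, 13, 1, 4, 2, 3], .l [8, 10, 9, 9, 7, 11, 5, 1, 7, 1, 8, 6, 1], .l [3, 1, 15, 13, 8], .l [12, 11, 14]]),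
([p 5 1, s 0 2, g, m 2 0, p 3 0, g, p 4 3, g, p 0 4, g, s 1 0, g, p 0 5, g], .lo 8, [.l [2, 14, 11, 6, 6, 4, 4, 2, 6], .l [3, 9], .l [0, 11, 8, 6, 6, 4, 4, 2, 3], .l [0, 9, 6, 4, 4, 2, 2, 0, 1], .y [4, 8, 6], .l [5, 8, 6, 1, 11, 8, 3], .l [6, 9], .l [5, 8, 6, 1, 11, 8, 3], .l [7, 10, 8, 8, 6, 1, 9, 6, 1], .l [8, 9], .l [7, 10, 8, 8, 6, 1, 9, 6, 1], .l [7, 8, 6, 6, 4, 1, 9, 6, 1], .r 525 [1, 2, 3, 4, 6, 5] [1, 1, 1, 1, 1, 1, 1], .l [7, 8, 6, 6, 4, 1, 9, 6, 1], .l [0, 9, 9, 7, 7, 5, 5, 3, 1], .l [7, 8, 6, 6, 4, 1, 9, 6, 3], .l [0, 9, 11, 9, 9, 7, 7, 5, 1], .l [7, 8, 6, 6, 4, 1, 9, 6, 3], .l [7, 8, 6, 6, 4, 1, 7, 4, 6], .l [0, 9, 13, 11, 11, 9, 9, 7, 1], .l [7, 8, 6, 6, 4, 1, 7, 4, 6]]),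
([p 4 1, s 0 2, g, m 2 0, p 3 0, g, p 0 3, g, s 1 0, g, p 0 4, g], .lo 6, [.l [2, 12, 9, 4, 4, 2, 6], .l [3, 7], .l [0, 9, 6, 4, 4, 2, 3], .l [0, 7, 4, 2, 2, 0, 1], .y [4, 6], .l [5, 8, 6, 1, 9, 6, 1], .l [6, 7], .l [5, 8, 6, 1, 9, 6, 1], .l [5, 6, 4, 1, 9, 6, 1], .r 526 [1, 2, 3, 5, 4] [1, 1, 1, 1, 1, 1], .l [5, 6, 4, 1, 9, 6, 1], .l [0, 7, 7, 5, 5, 3, 1], .l [5, 6, 4, 1, 9, 6, 3], .l [0, 7, 9, 7, 7, 5, 1], .l [5, 6, 4, 1, 9, 6, 3], .l [5, 6, 4, 1, 7, 4, 6], .l [0, 7, 11, 9, 9, 7, 1], .l [5, 6, 4, 1, 7, 4, 6]]),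
([p 3 1, s 0 2, g, m 2 0, p 0 0, g, s 1 0, g, p 0 3, g], .lo 4, [.l [2, 10, 7, 2, 6], .l [3, 5], .l [0, 7, 4, 2, 3], .l [0, 5, 2, 0, 1], .y [4], .l [3, 1, 9, 6, 1], .r 527 [1, 2, 4, 3] [1, 1, 1, 1, 1], .l [3, 1, 9, 6, 1], .l [0, 5, 5, 3, 1], .l [3, 1, 9, 6, 3], .l [0, 5, 7, 5, 1], .l [3, 1, 9, 6, 3], .l [3, 1, 7, 4, 6], .l [0, 5, 9, 7, 1], .l [3, 1, 7, 4, 6]]),
([p 5 1, s 4 2, g, m 2 0, s 0 3, g, m 3 0, g, s 0 4, g, s 1 0, g, p 0 5, g], .lo 4, [.l [2, 14, 11, 2, 10, 1], .l [3, 5, 2], .l [2, 14, 11, 2, 10], .l [2, 12, 9, 0, 8], .l [3, 1, 13, 10, 1, 5, 8, 1], .l [6, 1, 7, 5, 1], .l [3, 1, 13, 10, 1], .y [4, 6], .l [3, 1, 13, 10, 3, 5, 8, 1], .l [6, 1, 7, 5, 1], .l [3, 1, 13, 10, 3], .l [1, 7, 9, 5, 2, 7], .l [6, 1, 9, 7,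 1], .l [3, 1, 13, 10, 5], .l [0, 9, 9, 3, 1, 4, 1, 6, 4, 1], .l [0, 9, 11, 5, 1, 6, 1, 8, 4, 1], .l [6, 1, 11, 9, 1], .l [3, 1, 13, 10, 7], .l [1, 7, 13, 9, 2, 3], .l [6, 1, 13, 11, 1], .l [3, 1, 11, 8, 10]]),
([p 4 1, s 3 2, g, m 2 0, s 0 0, g, s 0 3, g, s 1 0, g, p 0 4, g], .hi 4, [.l [2, 12, 9, 2, 8, 1], .l [2, 12, 9, 2, 8], .l [3, 5, 2], .y [4], .l [3, 1, 11, 8, 1, 3, 6, 1], .l [3, 1, 11, 8, 1], .r 529 [1, 2, 5, 3, 4] [1, 1, 1, 1, 1, 1], .l [3, 1, 9, 6, 1, 1, 4, 1], .l [1, 5, 7, 5, 2, 5], .l [3, 1, 11, 8, 3], .l [1, 5, 7, 5, 2, 5], .l [1, 5, 9, 7, 2, 3], .l [3, 1, 11, 8, 5], .l [1, 5, 9, 7, 2, 3], .l [3, 1, 9, 6, 5], .l [1, 5, 11, 9, 2, 3], .l [3, 1, 9, 6, 8], .l [1, 5, 11, 9, 2, 3]]),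
([p 4 1, s 3 2, g, m 2 0, g, s 0 3, g, s 1 0, g, p 0 4, g], .top 4, [.l [0, 8, 7, 2, 1], .r 530 [1, 2, 3, 4] [1, 1, 1, 1, 1], .r 528 [1, 2, 4] [1, 3, 1, 1], .r 524 [1, 2, 4] [1, 3, 1, 1]]),
([p 4 1, s 5 2, g, m 2 0, s 0 3, g, s 1 0, g, p 0 4, g, m 3 0, g, s 0 5, g], .lo 4, [.l [2, 10, 7, 2, 6, 1], .l [3, 5, 2], .l [2, 10, 7, 2, 6], .l [2, 8, 5, 0, 4], .l [5, 10, 4, 7, 1, 10, 8, 1], .l [6, 1, 11, 9, 1], .l [3, 1, 9, 6, 1], .l [6, 1, 9, 7, 1, 4, 1, 4, 2, 3], .l [7, 10, 2, 5, 1, 10, 8, 3], .l [8, 3, 11, 7, 1], .l [3, 1, 9, 6, 3], .l [3, 1, 7, 4, 6, 10, 8, 1], .l [10, 5, 9, 5, 9, 7, 1], .l [3, 1, 7, 4, 6], .y [4, 10], .l [3, 1, 7, 4, 8, 10, 6, 1], .l [10, 5, 9, 5, 9, 7, 1], .l [3, 1, 7, 4, 8], .l [1, 11, 13, 5, 2, 5], .l [10,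 5, 9, 5, 11, 9, 1], .l [3, 1, 7, 4, 10]]),
([p 4 1, s 5 2, g, m 2 0, s 0 3, g, s 1 0, g, m 3 0, g, p 0 4, g, s 0 5, g], .lo 4, [.l [2, 12, 9, 2, 8, 3], .l [3, 5, 2], .l [2, 12, 9, 2, 8], .l [2, 10, 7, 0, 6], .l [5, 12, 6, 9, 1, 10, 8, 3], .l [6, 1, 9, 7, 1], .l [3, 1, 11, 8, 1], .l [0, 5, 5, 3, 1, 4, 1, 4, 2, 3], .l [0, 5, 7, 5, 1, 6, 1, 6, 2, 5], .l [8, 3, 9, 5, 1], .l [3, 1, 11, 8, 3], .y [4, 8], .l [0, 5, 9, 7, 1, 6, 1, 6, 2, 5], .l [8, 3, 9, 5, 1], .l [3, 1, 11, 8, 5], .l [3, 1, 9, 6, 8, 10, 8, 3], .l [8, 3, 11, 7, 1], .l [3, 1, 9, 6, 8], .l [1, 11, 13, 5, 2, 5], .l [8, 3, 13, 9, 1], .l [3, 1, 9, 6, 10]]),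
([p 4 1, s 5 2, g, m 2 0, s 0 3, g, m 3 0, g, s 1 0, g, p 0 4, g, s 0 5, g], .lo 4, [.l [2, 12, 9, 2, 8, 1], .l [3, 5, 2], .l [2, 12, 9, 2, 8], .l [2, 10, 7, 0, 6], .l [5, 12, 6, 9, 1, 10, 8, 1], .l [6, 1, 7, 5, 1], .l [3, 1, 11, 8, 1], .y [4, 6], .l [4, 7, 13, 8, 9, 2, 9, 2, 6, 1], .l [6, 1, 7, 5, 1], .l [3, 1, 11, 8, 3], .l [0, 7, 7, 3, 1, 4, 1, 4, 2, 3], .l [0, 7, 9, 5, 1, 6, 1, 6, 2, 5], .l [6, 1, 9, 7, 1], .l [3, 1, 11, 8, 5], .l [3, 1, 9, 6, 8, 10, 8, 1], .l [6, 1, 11, 9, 1], .l [3, 1, 9, 6, 8], .l [1, 11, 13, 5, 2, 7], .l [6, 1, 13, 11, 1], .l [3, 1, 9, 6, 10]]),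
([p 3 1, s 4 2, g, m 2 0, s 0 0, g, s 1 0, g, p 0 3, g, s 0 4, g], .hi 4, [.l [2, 10, 7, 2, 6, 1], .l [2, 10, 7, 2, 6], .l [3, 5, 2], .y [4], .l [5, 10, 4, 7, 1, 8, 6, 1], .l [3, 1, 9, 6, 1], .r 534 [1, 2, 5, 3, 4] [1, 1, 1, 1, 1, 1], .l [7, 10, 2, 5, 1, 8, 6, 3], .l [3, 1, 9, 6, 3], .r 533 [1, 2, 5, 3, 4] [1, 1, 1, 1, 1, 1], .l [3, 1, 7, 4, 3], .l [3, 1, 7, 4, 6, 8, 6, 1], .l [3, 1, 7, 4, 6], .r 532 [1, 2, 5, 3, 4] [1, 1, 1, 1, 1, 1], .l [3, 1, 7, 4, 6, 6, 4, 1], .l [1, 9, 11, 5, 2, 5], .l [3, 1, 7, 4, 8], .l [1, 9, 11, 5, 2, 5]]),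
([p 3 1, s 4 2, g, m 2 0, g, s 1 0, g, p 0 3, g, s 0 4, g], .top 4, [.l [0, 3, 1], .r 535 [1, 2, 3, 4] [1, 1, 1, 1, 1], .r 528 [1, 2, 3] [1, 1, 1, 3], .r 524 [1, 2, 3] [1, 1, 1, 3]]),
([p 5 1, s 4 2, g, m 2 0, s 0 3, g, m 3 0, g, s 1 0, g, s 0 4, g, p 0 5, g], .lo 4, [.l [2, 14, 11, 2, 10, 3], .l [3, 5, 2], .l [2, 14, 11, 2, 10], .l [2, 12, 9, 0, 8], .l [3, 1, 13, 10, 1, 7, 8, 5], .l [6, 1, 7, 5, 1], .l [3, 1, 13, 10, 1], .y [4, 6], .l [3, 1, 13, 10, 3, 7, 8, 5], .l [6, 1, 7, 5, 1], .l [3, 1, 13, 10, 3], .l [0, 7, 7, 3, 1, 4, 1, 6, 4, 1], .l [0, 7, 9, 5, 1, 6, 1, 8, 4, 1], .l [6, 1, 9, 7, 1], .l [3, 1, 13, 10, 5], .l [0, 7, 11, 7, 1, 8, 1, 8, 2, 3], .l [6, 1, 11, 9, 1], .l [3, 1, 13, 10, 7], .l [1, 9, 13, 7, 2, 9], .l [6,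 1, 13, 11, 1], .l [3, 1, 11, 8, 10]]),
([p 4 1, s 3 2, g, m 2 0, s 0 0, g, s 1 0, g, s 0 3, g, p 0 4, g], .hi 4, [.l [2, 12, 9, 2, 8, 3], .l [2, 12, 9, 2, 8], .l [3, 5, 2], .y [4], .l [3, 1, 11, 8, 1, 5, 6, 3], .l [3, 1, 11, 8, 1], .r 537 [1, 2, 5, 3, 4] [1, 1, 1, 1, 1, 1], .l [3, 1, 11, 8, 3, 5, 6, 1], .l [3, 1, 11, 8, 3], .l [9, 12, 2, 2, 6, 8, 6, 1], .l [3, 1, 9, 6, 3, 3, 4, 1], .l [1, 7, 9, 5, 2, 5], .l [3, 1, 11, 8, 5], .l [1, 7, 9, 5, 2, 5], .l [3, 1, 9, 6, 5], .l [1, 7, 11, 7, 2, 7], .l [3, 1, 9, 6, 8], .l [1, 7, 11, 7, 2, 7]]),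
([p 4 1, s 3 2, g, m 2 0, g, s 1 0, g, s 0 3, g, p 0 4, g], .top 4, [.l [0, 3, 1], .r 538 [1, 2, 3, 4] [1, 1, 1, 1, 1], .r 528 [1, 2, 4] [1, 1, 3, 1], .r 524 [1, 2, 4] [1, 1, 3, 1]]),
([p 5 1, s 3 2, g, s 0 3, g, m 2 0, s 0 4, g, m 4 0, g, s 1 0, g, p 0 5, g], .lo 6, [.l [2, 14, 11, 4, 10, 1], .l [3, 7, 4], .l [2, 14, 11, 4, 10], .l [4, 14, 9, 2, 8, 1], .l [5, 7, 2], .l [4, 14, 9, 2, 8], .l [4, 12, 7, 0, 6], .l [3, 1, 7, 1, 7, 5, 2, 5], .l [8, 1, 9, 7, 3], .l [5, 3, 13, 8, 1], .y [6, 8], .l [6, 9, 6, 1, 11, 8, 1, 2, 6, 1], .l [8, 1, 9, 7, 3], .l [5, 3, 13, 8, 3], .l [0, 9, 9, 5, 3, 6, 1, 6, 4, 1], .l [0, 9, 11, 7, 3, 8, 1, 8, 4, 1], .l [8, 1, 11, 9, 3], .l [5, 3, 13, 8, 5], .l [3, 1, 7, 1, 11, 9, 2, 3], .l [8, 1, 13, 11,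 3], .l [5, 3, 11, 6, 10]]),
([p 6 1, s 3 2, g, s 0 3, s 0 4, g, m 4 0, g, m 2 0, s 0 5, g, s 5 0, g, s 1 0, g, p 0 6, g], .lo 4, [.l [2, 17, 14, 2, 13, 1], .l [3, 5, 2, 12], .l [2, 17, 14, 2, 13, 1], .l [3, 1, 16, 13, 1, 5, 12, 1], .l [6, 1, 7, 5, 1, 6, 4, 9], .l [3, 1, 16, 13, 1, 5, 12, 1], .y [4, 6], .l [3, 1, 16, 13, 3, 5, 12, 1], .l [6, 1, 7, 5, 1, 6, 4, 9], .l [3, 1, 16, 13, 3, 5, 12, 1], .l [3, 1, 14, 11, 3, 3, 10, 1], .l [10, 17, 6, 9, 1, 12, 10, 1], .l [6, 1, 10, 8, 1, 4, 2, 9], .l [10, 17, 6, 9, 1, 12, 10, 1], .l [10, 15, 4, 7, 1, 10, 8, 1], .l [12, 17, 4, 7, 1, 10, 8, 1], .l [6, 1, 12, 10, 1, 4, 2, 9], .l [12, 17, 4, 7, 1, 10, 8, 1], .l [12, 15, 2, 5, 1, 8, 6, 1], .l [14, 17, 2, 5, 1, 8, 6, 11], .l [6, 1, 14,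 12, 1, 4, 2, 7], .l [14, 17, 2, 5, 1, 8, 6, 11], .l [3, 1, 16, 12, 3, 13, 4, 10, 6, 7], .l [6, 1, 16, 14, 1, 4, 2, 7], .l [3, 1, 14, 11, 13, 1, 8, 1]]),
([p 7 1, s 3 2, g, s 0 3, s 0 4, g, m 2 0, s 0 5, g, m 4 0, g, s 5 0, g, m 0 6, g, m 6 0, s 1 0, g, p 0 7, g], .lo 4, [.l [2, 20, 17, 2, 16, 1], .l [3, 5, 2, 15], .l [2, 20, 17, 2, 16, 1], .l [3, 1, 19, 16, 1, 3, 15, 1], .l [6, 1, 10, 8, 1, 4, 2, 12], .l [3, 1, 19, 16, 1, 3, 15, 1], .l [3, 1, 17, 14, 1, 1, 13, 1], .l [8, 20, 11, 14, 1, 15, 13, 1], .l [9, 4, 10, 5, 1, 1, 6, 7], .l [8, 20, 11, 14, 1, 15, 13, 1], .y [4, 9], .l [10, 20, 9, 12, 1, 13, 11, 1], .l [9, 4, 10, 5, 1, 1, 6, 7], .l [10, 20, 9, 12, 1, 13, 11, 1], .l [10, 18, 7, 10, 1, 11, 9, 1], .l [12, 20, 7, 10, 1,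 11, 9, 1], .l [9, 4, 12, 7, 1, 1, 8, 3], .l [12, 20, 7, 10, 1, 11, 9, 1], .l [14, 17, 15, 19, 6, 9, 1, 10, 8, 1], .l [9, 4, 14, 9, 1, 1, 10, 5], .l [14, 17, 15, 19, 6, 9, 1, 10, 8, 1], .l [14, 15, 13, 17, 4, 7, 1, 8, 6, 1], .l [15, 18, 2, 5, 1, 6, 4, 1], .l [17, 20, 2, 5, 1, 6, 4, 14], .l [9, 4, 17, 12, 1, 1, 13, 8], .l [17, 20, 2, 5, 1, 6, 4, 14], .l [3, 1, 19, 15, 1, 16, 4, 1, 2, 8], .l [9, 4, 19, 14, 1, 1, 15, 10], .l [3, 1, 17, 14, 16, 1, 13, 3]]),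
([p 6 1, s 3 2, g, s 0 3, s 0 0, g, m 2 0, s 0 4, g, s 4 0, g, m 0 5, g, m 5 0, s 1 0, g, p 0 6, g], .hi 4, [.l [2, 18, 15, 2, 14, 1], .l [2, 18, 15, 2, 14, 1], .l [3, 5, 2, 13], .c, .y [4], .l [3, 1, 17, 14, 1, 3, 13, 1], .l [3, 1, 17, 14, 1, 3, 13, 1], .r 541 [1, 2, 3, 7, 4, 6] [1, 1, 1, 1, 4, 1, 1], .l [3, 1, 15, 12, 2, 11], .l [8, 18, 9, 12, 1, 13, 11, 1], .l [8, 18, 9, 12, 1, 13, 11, 1], .r 542 [1, 2, 3, 7, 4, 5, 6] [1, 1, 1, 1, 1, 1, 1, 1], .l [10, 18, 7, 10, 1, 11, 9, 1], .l [10, 18, 7, 10, 1, 11, 9, 1], .l [8, 11, 6, 1, 15, 12, 4, 11], .l [3, 1, 10, 6, 1, 7, 9, 7], .l [12, 15, 13, 17, 6, 9, 1, 10, 8, 1], .l [12, 15, 13, 17, 6, 9, 1, 10, 8, 1], .l [3, 1, 12, 8, 1, 9, 11, 7], .l [15, 18, 2, 5, 1, 6, 4, 12], .l [15,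 18, 2, 5, 1, 6, 4, 12], .l [8, 16, 11, 1, 15, 12, 9, 11], .l [15, 16, 0, 3, 1, 4, 2, 10], .l [11, 18, 10, 1, 11, 9, 2, 13], .l [3, 1, 15, 12, 14, 1, 11, 1], .l [11, 18, 10, 1, 11, 9, 2, 13]]),
([p 7 1, s 3 2, g, p 4 0, g, s 0 3, p 5 4, g, p 0 5, g, m 2 0, s 0 6, g, s 6 0, g, s 1 0, g, p 0 7, g], .lo 8, [.l [2, 19, 16, 6, 6, 4, 13, 1], .l [3, 9], .l [1, 6, 3, 7, 7, 5, 14, 12, 3, 1, 3, 10, 1], .y [3, 8, 6], .l [4, 8, 6, 17, 14, 4, 4, 2, 11, 1], .l [5, 9], .l [4, 8, 6, 17, 14, 4], .l [7, 10, 8, 3, 16, 11, 1, 3, 10, 1], .l [8, 9], .l [4, 6, 4, 17, 14, 14, 1, 10, 1, 10, 8, 10, 8], .l [7, 8, 6, 3, 16, 11, 1, 3, 10, 1], .l [5, 3, 18, 13, 6, 13, 1, 14, 7, 7, 5, 5, 3], .l [4, 6, 4, 17, 14, 14, 1, 10, 1, 11, 7, 1], .l [4, 6, 4, 15,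 12, 12, 1, 8, 1, 9, 7, 1], .l [12, 19, 6, 13, 13, 11, 3, 12, 8, 1], .l [5, 3, 18, 13, 4, 13, 1, 14, 5, 5, 3, 7, 3], .l [5, 3, 18, 13, 4, 13, 1, 5, 8, 8, 6, 3], .l [10, 17, 6, 1, 1, 11, 11, 9, 3, 10, 6, 1], .l [14, 19, 4, 11, 11, 9, 3, 10, 6, 1], .l [5, 3, 18, 13, 4, 13, 1, 14, 5, 5, 3, 9, 5], .l [5, 3, 18, 13, 4, 13, 1, 3, 8, 8, 6, 1], .l [0, 14, 14, 7, 7, 5, 3, 6, 2, 4, 3, 9, 5], .l [16, 19, 2, 9, 9, 7, 3, 8, 4, 11], .l [0, 14, 16, 9, 9, 7, 3, 8, 4, 6, 3, 11, 5], .l [0, 14, 6, 14, 16, 14, 9], .l [7, 8, 6, 3, 14, 9, 13, 3, 10, 1], .l [4, 6, 4, 15, 12, 12, 1, 13, 4, 4, 2, 4, 3], .l [5, 3, 16, 11, 4, 11, 1, 12, 5, 5, 3, 3, 9]]),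
([p 7 1, s 3 2, g, s 0 3, p 4 0, g, p 0 4, g, m 2 0, s 0 5, g, s 5 0, g, m 0 6, g, m 6 0, s 1 0, g, p 0 7, g], .hi 4, [.l [6, 2, 14, 10, 12, 8, 1, 10, 12, 7], .r 544 [1, 2, 3, 8, 4, 5, 7] [1, 1, 1, 1, 1, 4, 1, 1], .l [6, 2], .l [4, 0, 9, 15, 8, 1, 9, 7, 9, 1], .l [6, 1, 7, 5, 1, 6, 4, 12], .l [4, 5], .l [6, 1], .y [4, 6], .l [12, 4, 6, 18, 7, 13, 4, 4, 2, 12], .l [4, 7], .l [8, 3], .l [4, 8, 4], .l [4, 10, 12, 10, 4, 13], .l [4, 10], .l [11, 6], .l [13, 8, 11, 7, 1, 17, 6, 8, 11, 1], .l [4, 12], .l [13, 8], .l [13, 8], .l [3, 1, 14, 10, 3, 11, 13, 9], .l [4, 14], .l [15, 10], .l [18, 13, 13, 11, 18, 1, 8, 6, 14, 1], .l [4, 17], .l [18, 13], .l [4, 17], .l [3, 1, 19, 15, 3, 16, 4, 13, 9, 10], .l [4, 19], .l [20, 15]]),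
([p 6 1, s 3 2, g, s 0 3, p 0 0, g, m 2 0, s 0 4, g, s 4 0, g, m 0 5, g, m 5 0, s 1 0, g, p 0 6, g], .lo 4, [.l [2, 18, 15, 2, 14, 1], .l [3, 5], .l [2, 18, 15, 2], .y [4], .l [3, 1, 17, 14, 1, 3, 13, 1], .r 545 [1, 2, 3, 7, 4, 5, 6] [1, 1, 1, 1, 1, 1, 1, 1], .l [2, 18, 15, 15, 1, 13, 1, 13, 9, 1], .l [2, 16, 13, 13, 1, 11, 1, 11, 9, 1], .l [8, 18, 9, 12, 1, 13, 11, 1], .l [10, 18, 7, 13, 15, 12, 1, 13, 11, 1], .l [3, 1, 5, 3, 16, 15, 5], .l [6, 16, 9, 1, 1, 10, 1, 11, 9, 1], .l [10, 18, 7, 10, 1, 11, 9, 1], .l [6, 11, 8, 1, 16, 13, 1, 5, 11, 1], .l [3, 1, 5, 3, 16, 15, 7], .l [12, 15, 13, 17, 6, 9, 1, 10, 8, 1], .l [6, 13, 10, 1, 16, 13, 1, 7, 11, 1], .l [3, 1, 5, 3, 16, 15, 9], .l [3, 1, 5, 3, 14, 13, 9], .l [3, 1, 15,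 12, 2, 12, 1, 1, 8, 1], .l [15, 18, 2, 5, 1, 6, 4, 12], .l [3, 1, 17, 14, 2, 14, 3, 1, 9, 1], .l [0, 13, 9, 14, 16, 14, 9], .l [3, 1, 15, 12, 14, 1, 11, 1], .l [8, 16, 7, 13, 15, 12, 1, 13, 11, 1], .l [3, 1, 5, 3, 14, 13, 14]]),
([p 7 1, s 4 2, g, m 0 3, g, s 0 4, m 3 5, g, m 5 0, g, m 2 0, s 0 6, g, s 6 0, g, s 1 0, g, p 0 7, g], .hi 8, [.l [2, 19, 16, 6, 6, 4, 13, 1], .l [1, 6, 3, 7, 7, 5, 14, 12, 3, 1, 3, 10, 1], .l [3, 9], .y [3, 6, 8], .l [4, 8, 6, 17, 14, 4, 4, 2, 11, 1], .l [4, 8, 6, 17, 14, 4], .l [5, 9], .l [4, 6, 4, 15, 12, 2, 2, 0, 9], .l [7, 10, 8, 3, 16, 11, 1, 3, 10, 1], .l [4, 6, 4, 17, 14, 14, 1, 10, 1, 10, 8, 10, 8], .l [8, 9], .l [7, 8, 6, 3, 16, 11, 1, 3, 10, 1], .l [4, 6, 4, 17, 14, 14, 1, 10, 1, 11,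 7, 1], .l [5, 3, 18, 13, 6, 13, 1, 14, 7, 7, 5, 5, 3], .l [7, 8, 6, 3, 14, 9, 2, 8], .l [12, 19, 6, 13, 13, 11, 3, 12, 8, 1], .l [5, 3, 18, 13, 4, 13, 1, 5, 8, 8, 6, 3], .l [5, 3, 18, 13, 4, 13, 1, 14, 5, 5, 3, 7, 3], .l [14, 19, 4, 11, 11, 9, 3, 10, 6, 1], .l [5, 3, 18, 13, 4, 13, 1, 3, 8, 8, 6, 1], .l [5, 3, 18, 13, 4, 13, 1, 14, 5, 5, 3, 9, 5], .l [16, 19, 2, 9, 9, 7, 3, 8, 4, 11], .l [0, 14, 6, 14, 16, 14, 9], .l [0, 14, 16, 9, 9, 7, 3, 8, 4, 6, 3, 11, 5], .l [0, 14, 6, 14, 14, 12, 9], .l [7, 8, 6, 3, 14, 9, 13, 3, 10, 1], .l [5, 3, 16, 11, 4, 11, 1, 12, 5, 5, 3, 3, 9], .l [4, 6, 4, 15, 12, 12, 1, 13, 4, 4, 2, 4, 3]]),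
([p 7 1, s 3 2, g, s 0 3, m 0 4, g, m 4 0, g, m 2 0, s 0 5, g, s 5 0, g, m 0 6, g, m 6 0, s 1 0, g, p 0 7, g], .lo 4, [.l [6, 2, 14, 10, 12, 8, 1, 10, 12, 7], .l [6, 2], .r 547 [1, 2, 8, 3, 4, 5, 7] [1, 1, 1, 1, 1, 4, 1, 1], .l [6, 1, 7, 5, 1, 6, 4, 12], .l [6, 1], .l [4, 5], .y [4, 6], .l [12, 4, 6, 18, 7, 13, 4, 4, 2, 12], .l [8, 3], .l [4, 7], .l [4, 7], .l [4, 10, 12, 10, 4, 13], .l [11, 6], .l [4, 10], .l [2, 18, 15, 15, 1, 6, 11, 11, 9, 11, 9, 6], .l [13, 8, 11, 7, 1, 17, 6, 8, 11, 1], .l [13, 8], .l [4, 12], .l [3, 1, 14, 10, 3, 11, 13, 9], .l [15, 10], .l [4, 14], .l [4, 14], .l [2, 18, 15, 15, 1, 1, 12, 12, 10, 12, 10, 1], .l [18, 13, 13, 11, 18, 1, 8, 6, 14, 1], .l [18, 13], .l [4, 17], .l [3, 1, 19, 15, 3, 16,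 4, 13, 9, 10], .l [20, 15], .l [4, 19]]),
([p 6 1, s 3 2, g, s 0 3, m 0 0, g, m 2 0, s 0 4, g, s 4 0, g, m 0 5, g, m 5 0, s 1 0, g, p 0 6, g], .hi 4, [.l [2, 18, 15, 2, 14, 1], .l [2, 18, 15, 2], .l [3, 5], .c, .y [4], .l [3, 1, 17, 14, 1, 3, 13, 1], .l [2, 18, 15, 15, 1, 13, 1, 13, 9, 1], .r 548 [1, 2, 3, 7, 4, 5, 6] [1, 1, 1, 1, 1, 1, 1, 1], .l [3, 1, 15, 12, 2, 11], .l [8, 18, 9, 12, 1, 13, 11, 1], .l [3, 1, 5, 3, 16, 15, 5], .l [10, 18, 7, 13, 15, 12, 1, 13, 11, 1], .l [10, 18, 7, 10, 1, 11, 9, 1], .l [3, 1, 5, 3, 16, 15, 7], .l [6, 11, 8, 1, 16, 13, 1, 5, 11, 1], .l [6, 11, 8, 1, 14, 11, 1, 5, 9, 1], .l [12, 15, 13, 17, 6, 9, 1, 10, 8, 1], .l [3, 1, 5, 3, 16, 15, 9], .l [6, 13, 10, 1, 16, 13, 1, 7, 11, 1], .l [15,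 18, 2, 5, 1, 6, 4, 12], .l [0, 13, 9, 14, 16, 14, 9], .l [3, 1, 17, 14, 2, 14, 3, 1, 9, 1], .l [0, 13, 9, 14, 14, 12, 9], .l [3, 1, 15, 12, 14, 1, 11, 1], .l [3, 1, 5, 3, 14, 13, 14], .l [8, 16, 7, 13, 15, 12, 1, 13, 11, 1]]),
([p 5 1, s 3 2, g, s 0 3, m 2 0, s 0 4, g, s 4 0, g, s 1 0, g, p 0 5, g], .hi 4, [.l [2, 13, 10, 2, 9, 1], .l [2, 13, 10, 2], .l [3, 5], .c, .l [3, 1, 10, 7, 0, 6], .l [6, 13, 6, 9, 1, 8, 6, 1], .l [3, 1, 3, 1, 11, 10, 3], .l [8, 13, 4, 8, 10, 9, 1, 8, 6, 1], .l [8, 13, 4, 7, 1, 6, 4, 1], .l [3, 1, 3, 1, 11, 10, 5], .l [4, 9, 8, 1, 11, 8, 1, 3, 6, 1], .l [10, 13, 2, 5, 1, 4, 2, 7], .l [0, 8, 4, 9, 11, 9, 6], .l [3, 1, 12, 9, 0, 9, 3, 1, 6, 1], .l [0, 8, 4, 9, 9, 7, 6], .l [3, 1, 10, 7, 9, 1, 8, 1],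 .l [3, 1, 3, 1, 9, 8, 9], .l [6, 11, 4, 8, 10, 9, 1, 8, 6, 1]]),
([p 6 1, s 3 2, g, s 0 3, g, m 2 0, s 0 4, g, s 4 0, g, m 0 5, g, m 5 0, s 1 0, g, p 0 6, g], .top 4, [.r 550 [1, 2, 3, 4, 6] [1, 1, 4, 1, 1], .r 543 [1, 2, 3, 4, 5, 6] [1, 1, 1, 1, 1, 1, 1], .r 546 [1, 2, 3, 4, 5, 6] [1, 1, 1, 1, 1, 1, 1], .r 549 [1, 2, 3, 4, 5, 6] [1, 1, 1, 1, 1, 1, 1]]),
([p 5 1, s 3 2, g, s 0 3, g, m 2 0, s 0 0, g, m 0 4, g, m 4 0, s 1 0, g, p 0 5, g], .hi 6, [.l [2, 15, 12, 4, 11, 1], .l [2, 15, 12, 4, 11], .l [3, 7, 4], .l [2, 13, 10, 2, 9, 1], .l [4, 15, 10, 2, 9, 1], .l [4, 15, 10, 2, 9], .l [5, 7, 2], .y [6], .r 551 [1, 2, 3, 6, 4, 5] [1, 1, 1, 1, 1, 1, 1], .l [5, 3, 14, 9, 1], .r 540 [1, 2, 3, 6, 5] [1, 1, 1, 4, 1, 1], .r 540 [1,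 2, 3, 6, 5] [1, 1, 1, 2, 1, 1], .l [9, 13, 7, 1, 13, 10, 5, 9, 6, 3], .l [5, 3, 14, 9, 3], .r 540 [1, 2, 3, 6, 5] [1, 1, 3, 2, 1, 1], .l [3, 1, 7, 11, 8, 2, 4, 7], .l [5, 3, 14, 9, 6], .l [3, 1, 7, 11, 8, 2, 4, 7], .l [5, 3, 12, 7, 6], .l [3, 1, 7, 13, 10, 2, 4, 9], .l [5, 3, 12, 7, 11], .l [3, 1, 7, 13, 10, 2, 4, 9]]),
([p 5 1, s 3 2, g, s 0 3, g, m 2 0, g, m 0 4, g, m 4 0, s 1 0, g, p 0 5, g], .top 6, [.r 523 [1, 2, 4, 5] [3, 1, 0, 1, 1], .r 552 [1, 2, 3, 4, 5] [1, 1, 1, 1, 1, 1], .r 528 [1, 2, 5] [3, 4, 1, 1], .r 524 [1, 2, 5] [3, 4, 1, 1]]),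
([p 5 1, s 3 2, g, s 0 3, g, m 0 4, g, m 2 0, s 0 0, g, m 4 0, s 1 0, g, p 0 5, g], .hi 8, [.l [2, 15, 12, 6, 11, 1], .l [2, 15, 12, 6, 11], .l [3, 9, 6], .l [2, 13, 10, 4, 9, 1], .l [4, 15, 10, 4, 9, 1], .l [4, 15, 10, 4, 9], .l [5, 9, 4], .l [5, 7, 2], .l [6, 12, 10, 14, 9, 2, 8, 1], .l [6, 12, 10, 14, 9, 2, 8], .l [7, 9, 2], .y [8], .l [9, 12, 7, 14, 9, 4, 8, 1], .l [7, 5, 14, 7, 1], .r 540 [1, 2, 3, 6, 5] [1, 3, 1, 2, 1, 1], .l [13, 4, 7, 5, 9, 1], .l [7, 5, 14, 7, 4], .l [13, 4, 7, 5, 9], .l [7, 5, 12, 5, 4], .l [15, 6, 9, 7, 11, 1], .l [7, 5, 12, 5, 11], .l [15, 6, 9, 7, 11]]),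
([p 5 1, s 3 2, g, s 0 3, g, m 0 4, g, m 2 0, g, m 4 0, s 1 0, g, p 0 5, g], .top 8, [.r 524 [1, 2, 5] [5, 0, 1, 1], .r 554 [1, 2, 3, 4, 5] [1, 1, 1, 1, 1, 1], .r 528 [1, 2, 5] [5, 2, 1, 1], .r 524 [1, 2, 5] [5, 2, 1, 1]]),
([p 5 1, s 3 2, g, s 0 3, g, m 2 4, s 0 0, g, m 4 0, s 1 0, g, p 0 5, g], .hi 6, [.l [2, 13, 10, 4, 9, 1], .l [2, 13, 10, 4, 9], .l [3, 7, 4], .l [2, 11, 8, 2, 7, 1], .l [4, 13, 8, 2, 7, 1], .l [4, 13, 8, 2, 7], .l [5, 7, 2], .y [6], .l [7, 10, 7, 12, 7, 2, 6, 1], .l [5, 3, 12, 7, 1], .r 540 [1, 2, 3, 6, 5] [1, 1, 1, 2, 1, 1], .l [11, 4, 5, 3, 7, 1], .l [5, 3, 12, 7, 4], .l [11, 4, 5, 3, 7], .l [5, 3, 10, 5, 4], .l [13, 6, 7, 5, 9, 1], .l [5, 3, 10, 5, 9], .l [13, 6, 7, 5, 9]]),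
([p 5 1, s 3 2, g, s 0 3, g, m 2 4, g, m 4 0, s 1 0, g, p 0 5, g], .top 6, [.r 524 [1, 2, 5] [3, 0, 1, 1], .r 556 [1, 2, 3, 4, 5] [1, 1, 1, 1, 1], .r 528 [1, 2, 5] [3, 2, 1, 1], .r 524 [1, 2, 5] [3, 2, 1, 1]]),
([p 4 1, s 3 2, g, s 0 3, g, m 2 0, g, m 0 0, s 1 0, g, p 0 4, g], .lo 7, [.l [0, 9, 5], .l [9, 5], .l [5, 3, 6, 2, 6, 1], .l [0, 9, 3], .l [9, 3], .r 555 [1, 2, 3, 5, 4] [1, 1, 1, 1, 1, 1], .r 557 [1, 2, 3, 5, 4] [1, 1, 1, 1, 1], .l [0, 9, 1], .l [9, 1], .r 553 [1, 2, 3, 5, 4] [1, 1, 1, 1, 1, 1], .y [7], .c, .l [0, 7, 8], .l [10, 2], .l [7, 9], .l [0, 7, 10], .l [12, 4], .l [7, 11]]),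
([p 5 1, s 2 0, g, s 0 2, g, m 0 3, g, p 4 0, g, s 3 4, s 1 0, g, p 0 5, g], .hi 10, [.l [4, 14, 9, 9, 1, 4, 1, 4, 2, 5], .l [10, 14, 3, 11, 1, 9, 4], .l [6, 14, 7, 3, 6, 1, 8, 6, 1], .l [2, 12, 9, 9, 1, 4, 1, 4, 2, 3], .l [2, 14, 11, 11, 1, 4, 1, 4, 2, 3], .l [10, 14, 3, 11, 1, 9, 6], .l [2, 14, 11, 11, 1, 4, 1, 4, 2, 3], .l [5, 9, 8], .l [2, 14, 11, 11, 1, 4, 1, 6, 4, 1], .l [6, 14, 7, 4, 10], .l [7, 11, 8], .l [9, 11, 8, 1, 6, 8, 6, 1], .l [8, 14, 5, 2, 8], .l [9, 11, 6], .l [2, 14, 11, 11, 3, 6, 1, 6, 4, 1], .l [8, 14, 5, 11, 1, 9, 1], .l [2, 14, 11, 11, 3, 6, 1, 6, 4, 1], .y [0, 10, 12], .l [2, 12, 9, 9, 1, 4, 1, 4, 2, 5], .l [8, 12, 3, 9, 1, 7, 8], .l [4, 12, 7, 3, 6, 1, 10, 8, 1]]),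
([p 5 1, s 2 0, g, s 0 2, g, p 4 0, g, m 0 3, g, s 3 4, s 1 0, g, p 0 5, g], .hi 10, [.l [4, 14, 9, 9, 1, 4, 1, 4, 2, 5], .l [10, 14, 3, 11, 1, 9, 4], .l [6, 14, 7, 3, 6, 1, 8, 6, 1], .l [2, 12, 9, 9, 1, 4, 1, 4, 2, 3], .l [2, 14, 11, 11, 1, 4, 1, 4, 2, 3], .l [10, 14, 3, 11, 1, 9, 6], .l [2, 14, 11, 11, 1, 4, 1, 4, 2, 3], .l [2, 14, 11, 11, 1, 4, 1, 6, 4, 1], .l [6, 14, 7, 4, 10], .l [7, 11, 8], .l [7, 9, 8], .l [9, 11, 8, 1, 6, 8, 6, 1], .l [8, 14, 5, 2, 10], .l [9, 11, 8], .l [2, 14, 11, 11, 3, 6, 1, 6, 4, 1], .l [8, 14, 5, 11, 1, 9, 1], .l [2, 14, 11, 11, 3, 6, 1, 6, 4, 1], .y [0, 10, 12], .l [2, 12, 9, 9, 1, 4, 1, 4, 2, 5], .l [8, 12, 3, 9, 1, 7, 8], .l [4, 12, 7, 3, 6, 1, 10, 8, 1]]),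
([p 5 1, s 3 2, g, s 0 3, g, m 2 0, g, m 0 4, g, s 4 0, s 1 0, g, p 0 5, g], .hi 9, [.l [5, 3, 6, 2, 8, 3], .l [5, 3, 6, 2, 8, 3], .l [0, 11, 7], .l [3, 1, 4, 2, 6, 3], .l [3, 1, 6, 4, 8, 5], .r 560 [1, 3, 4, 6, 5] [1, 1, 3, 1, 1, 1], .l [0, 11, 5], .l [3, 1, 4, 2, 8, 3], .r 560 [1, 3, 4, 6, 5] [1, 3, 1, 1, 1, 1], .l [0, 11, 3], .y [7, 9], .l [3, 1, 4, 2, 8, 1], .r 559 [1, 3, 4, 6, 5] [1, 3, 1, 1, 1, 1], .l [0, 11, 1], .l [0, 9, 10, 12, 10, 1], .l [0, 9, 10], .l [12, 2, 10], .l [0, 9, 10], .l [3, 1, 4, 2, 6, 9], .l [0, 9, 12], .l [14, 4, 12]]),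
([p 5 1, s 3 2, g, s 0 3, g, m 0 4, g, m 2 0, g, s 4 0, s 1 0, g, p 0 5, g], .hi 9, [.l [5, 3, 8, 4, 8, 1], .l [5, 3, 8, 4, 8, 1], .l [0, 11, 7], .l [3, 1, 6, 4, 6, 1], .l [3, 1, 8, 6, 8, 5], .r 560 [1, 3, 4, 6, 5] [1, 1, 1, 3, 1, 1], .l [0, 11, 5], .y [5, 9], .l [3, 1, 8, 6, 8, 3], .r 559 [1, 3, 4, 6, 5] [1, 1, 1, 3, 1, 1], .l [0, 11, 3], .l [3, 1, 6, 4, 8, 1], .r 559 [1, 3, 4, 6, 5] [1, 1, 3, 1, 1, 1], .l [0, 11, 1], .l [0, 9, 10, 12, 10, 1], .l [0, 9, 10], .l [12, 2, 10], .l [0, 9, 10], .l [3, 1, 6, 4, 6, 9], .l [0, 9, 12], .l [14, 4, 12]]),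
([p 5 1, s 3 2, g, s 0 3, g, m 2 4, g, s 4 0, s 1 0, g, p 0 5, g], .hi 7, [.l [5, 3, 6, 2, 6, 1], .l [5, 3, 6, 2, 6, 1], .l [0, 9, 5], .y [1, 5, 7, 3], .l [3, 1, 6, 4, 6, 3], .r 560 [1, 3, 4, 6, 5] [1, 1, 1, 1, 1, 1], .l [0, 9, 3], .l [3, 1, 4, 2, 6, 1], .r 559 [1, 3, 4, 6, 5] [1, 1, 1, 1, 1, 1], .l [0, 9, 1], .l [0, 7, 8, 10, 8, 1], .l [0, 7, 8], .l [10, 2, 8], .l [0, 7, 8], .l [3, 1, 4, 2, 4, 7], .l [0, 7, 10], .l [12, 4, 10]]),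
([p 4 1, s 3 2, g, s 0 3, g, m 2 0, g, s 0 0, s 1 0, g, p 0 4, g], .lo 7, [.l [5, 3, 6, 2, 6, 1], .l [0, 9, 5], .l [5, 3, 6, 2, 6, 1], .l [3, 1, 6, 4, 6, 3], .l [0, 9, 3], .r 562 [1, 2, 3, 5, 4] [1, 1, 1, 1, 1, 1], .r 563 [1, 2, 3, 5, 4] [1, 1, 1, 1, 1], .l [3, 1, 4, 2, 6, 1], .l [0, 9, 1], .r 561 [1, 2, 3, 5, 4] [1, 1, 1, 1, 1, 1], .y [7], .c, .l [0, 7, 8, 10, 8, 1], .l [10, 2, 8], .l [0, 7, 8], .l [3, 1, 4, 2, 4, 7], .l [12, 4, 10], .l [0, 7, 10]]),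
([p 5 1, s 3 2, g, s 0 3, g, p 4 0, g, m 2 0, s 0 0, g, p 0 4, s 1 0, g, p 0 5, g], .hi 8, [.l [2, 15, 12, 6, 11, 1], .l [2, 15, 12, 6, 11], .l [3, 9, 6], .l [2, 13, 10, 4, 9, 1], .l [4, 15, 10, 4, 9, 1], .l [4, 15, 10, 4, 9], .l [5, 9, 4], .l [6, 12, 10, 14, 9, 2, 8, 1], .l [6, 12, 10, 14, 9, 2, 8], .l [7, 9, 2], .y [8], .l [9, 12, 7, 14, 9, 4, 8, 1], .l [7, 5, 14, 7, 1], .r 540 [1, 2, 3, 6, 5] [1, 3, 1, 2, 1, 1], .l [7, 5, 12, 5, 1], .l [13, 4, 7, 5, 9, 1], .l [7, 5, 14, 7, 4], .l [13, 4, 7, 5, 9], .l [7, 5, 12, 5, 4], .l [15, 6, 9, 7, 11, 1], .l [7, 5, 12, 5, 11], .l [15, 6, 9, 7, 11]]),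
([p 5 1, s 3 2, g, s 0 3, g, p 4 0, g, m 2 0, g, p 0 4, s 1 0, g, p 0 5, g], .top 8, [.r 528 [1, 2, 5] [5, 0, 1, 1], .r 565 [1, 2, 3, 4, 5] [1, 1, 1, 1, 1, 1], .r 528 [1, 2, 5] [5, 2, 1, 1], .r 524 [1, 2, 5] [5, 2, 1, 1]]),
([p 7 1, s 3 2, g, s 0 3, s 0 4, g, m 2 0, s 0 5, g, m 4 0, g, s 5 0, g, p 6 0, g, p 0 6, s 1 0, g, p 0 7, g], .lo 4, [.l [2, 20, 17, 2, 16, 1], .l [3, 5, 2, 15], .l [2, 20, 17, 2, 16, 1], .l [3, 1, 19, 16, 1, 3, 15, 1], .l [6, 1, 10, 8, 1, 4, 2, 12], .l [3, 1, 19, 16, 1, 3, 15, 1], .l [3, 1, 17, 14, 1, 1, 13, 1], .l [8, 20, 11, 14, 1, 15, 13, 1], .l [9, 4, 10, 5, 1, 1, 6, 7], .l [8, 20, 11, 14, 1, 15, 13, 1], .y [4, 9], .l [10, 20, 9, 12, 1, 13, 11, 1], .l [9, 4, 10, 5, 1, 1, 6, 7], .l [10, 20, 9, 12,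 1, 13, 11, 1], .l [10, 18, 7, 10, 1, 11, 9, 1], .l [12, 20, 7, 10, 1, 11, 9, 1], .l [9, 4, 12, 7, 1, 1, 8, 3], .l [12, 20, 7, 10, 1, 11, 9, 1], .l [9, 4, 12, 7, 1, 1, 8, 3], .l [14, 17, 15, 19, 6, 9, 1, 10, 8, 1], .l [9, 4, 14, 9, 1, 1, 10, 5], .l [14, 17, 15, 19, 6, 9, 1, 10, 8, 1], .l [15, 18, 2, 5, 1, 6, 4, 1], .l [17, 20, 2, 5, 1, 6, 4, 14], .l [9, 4, 17, 12, 1, 1, 13, 8], .l [17, 20, 2, 5, 1, 6, 4, 14], .l [3, 1, 19, 15, 1, 16, 4, 1, 2, 8], .l [9, 4, 19, 14, 1, 1, 15, 10], .l [3, 1, 17, 14, 16, 1, 13, 3]]),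
([p 6 1, s 3 2, g, s 0 3, s 0 0, g, m 2 0, s 0 4, g, s 4 0, g, p 5 0, g, p 0 5, s 1 0, g, p 0 6, g], .hi 4, [.l [2, 18, 15, 2, 14, 1], .l [2, 18, 15, 2, 14, 1], .l [3, 5, 2, 13], .c, .y [4], .l [3, 1, 17, 14, 1, 3, 13, 1], .l [3, 1, 17, 14, 1, 3, 13, 1], .r 541 [1, 2, 3, 7, 4, 6] [1, 1, 1, 1, 4, 1, 1], .l [3, 1, 15, 12, 2, 11], .l [8, 18, 9, 12, 1, 13, 11, 1], .l [8, 18, 9, 12, 1, 13, 11, 1], .r 567 [1, 2, 3, 7, 4, 5, 6] [1, 1, 1, 1, 1, 1, 1, 1], .l [10, 18, 7, 10, 1, 11, 9, 1], .l [10, 18, 7, 10, 1, 11, 9, 1], .l [8, 11, 6, 1, 15, 12, 4, 11], .l [12, 15, 13, 17, 6, 9, 1, 10, 8, 1], .l [12, 15, 13, 17, 6, 9, 1, 10, 8, 1], .l [3, 1, 12, 8, 1, 9, 11, 7], .l [12, 13, 11, 15, 4, 7, 1, 8, 6, 1], .l [15, 18, 2, 5, 1, 6, 4, 12],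 .l [15, 18, 2, 5, 1, 6, 4, 12], .l [8, 16, 11, 1, 15, 12, 9, 11], .l [15, 16, 0, 3, 1, 4, 2, 10], .l [11, 18, 10, 1, 11, 9, 2, 13], .l [3, 1, 15, 12, 14, 1, 11, 1], .l [11, 18, 10, 1, 11, 9, 2, 13]]),
([p 7 1, s 3 2, g, s 0 3, m 0 4, g, m 4 0, g, m 2 0, s 0 5, g, s 5 0, g, p 6 0, g, p 0 6, s 1 0, g, p 0 7, g], .lo 4, [.l [6, 2, 14, 10, 12, 8, 1, 10, 12, 7], .l [6, 2], .r 547 [1, 2, 8, 3, 4, 5, 7] [1, 1, 1, 1, 1, 4, 1, 1], .l [6, 1, 7, 5, 1, 6, 4, 12], .l [6, 1], .l [4, 5], .y [4, 6], .l [12, 4, 6, 18, 7, 13, 4, 4, 2, 12], .l [8, 3], .l [4, 7], .l [4, 7], .l [4, 10, 12, 10, 4, 13], .l [11, 6], .l [4, 10], .l [2, 18, 15, 15, 1, 6, 11, 11, 9, 11, 9, 6], .l [13, 8, 11, 7, 1, 17, 6, 8, 11, 1], .l [13, 8], .l [4, 12], .l [13,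 8], .l [3, 1, 14, 10, 3, 11, 13, 9], .l [15, 10], .l [4, 14], .l [2, 18, 15, 15, 1, 1, 12, 12, 10, 12, 10, 1], .l [18, 13, 13, 11, 18, 1, 8, 6, 14, 1], .l [18, 13], .l [4, 17], .l [3, 1, 19, 15, 3, 16, 4, 13, 9, 10], .l [20, 15], .l [4, 19]]),
([p 6 1, s 3 2, g, s 0 3, m 0 0, g, m 2 0, s 0 4, g, s 4 0, g, p 5 0, g, p 0 5, s 1 0, g, p 0 6, g], .hi 4, [.l [2, 18, 15, 2, 14, 1], .l [2, 18, 15, 2], .l [3, 5], .c, .y [4], .l [3, 1, 17, 14, 1, 3, 13, 1], .l [2, 18, 15, 15, 1, 13, 1, 13, 9, 1], .r 569 [1, 2, 3, 7, 4, 5, 6] [1, 1, 1, 1, 1, 1, 1, 1], .l [3, 1, 15, 12, 2, 11], .l [8, 18, 9, 12, 1, 13, 11, 1], .l [3, 1, 5, 3, 16, 15, 5], .l [10, 18, 7, 13, 15, 12, 1, 13, 11, 1], .l [10, 18, 7, 10, 1, 11, 9, 1], .l [3, 1, 5, 3, 16,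 15, 7], .l [6, 11, 8, 1, 16, 13, 1, 5, 11, 1], .l [12, 15, 13, 17, 6, 9, 1, 10, 8, 1], .l [3, 1, 5, 3, 16, 15, 9], .l [6, 13, 10, 1, 16, 13, 1, 7, 11, 1], .l [3, 1, 5, 3, 14, 13, 9], .l [15, 18, 2, 5, 1, 6, 4, 12], .l [0, 13, 9, 14, 16, 14, 9], .l [3, 1, 17, 14, 2, 14, 3, 1, 9, 1], .l [0, 13, 9, 14, 14, 12, 9], .l [3, 1, 15, 12, 14, 1, 11, 1], .l [3, 1, 5, 3, 14, 13, 14], .l [8, 16, 7, 13, 15, 12, 1, 13, 11, 1]]),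
([p 7 1, s 3 2, g, s 0 3, p 4 0, g, p 0 4, g, m 2 0, s 0 5, g, s 5 0, g, p 6 0, g, p 0 6, s 1 0, g, p 0 7, g], .hi 4, [.l [6, 2, 14, 10, 12, 8, 1, 10, 12, 7], .r 544 [1, 2, 3, 8, 4, 5, 7] [1, 1, 1, 1, 1, 4, 1, 1], .l [6, 2], .l [4, 0, 9, 15, 8, 1, 9, 7, 9, 1], .l [6, 1, 7, 5, 1, 6, 4, 12], .l [4, 5], .l [6, 1], .y [4, 6], .l [12, 4, 6, 18, 7, 13, 4, 4, 2, 12], .l [4, 7], .l [8, 3], .l [4, 8, 4], .l [4, 10, 12, 10, 4, 13], .l [4, 10], .l [11, 6], .l [13, 8, 11, 7, 1, 17, 6, 8, 11, 1], .l [4, 12], .l [13, 8], .l [3, 1, 14, 10, 3, 11, 13, 9], .l [4, 14], .l [15, 10], .l [4, 14], .l [18, 13, 13, 11, 18, 1, 8, 6, 14, 1], .l [4, 17], .l [18, 13], .l [4, 17], .l [3, 1, 19, 15, 3, 16, 4, 13, 9, 10], .l [4, 19], .l [20, 15]]),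
([p 6 1, s 3 2, g, s 0 3, p 0 0, g, m 2 0, s 0 4, g, s 4 0, g, p 5 0, g, p 0 5, s 1 0, g, p 0 6, g], .lo 4, [.l [2, 18, 15, 2, 14, 1], .l [3, 5], .l [2, 18, 15, 2], .y [4], .l [3, 1, 17, 14, 1, 3, 13, 1], .r 571 [1, 2, 3, 7, 4, 5, 6] [1, 1, 1, 1, 1, 1, 1, 1], .l [2, 18, 15, 15, 1, 13, 1, 13, 9, 1], .l [2, 16, 13, 13, 1, 11, 1, 11, 9, 1], .l [8, 18, 9, 12, 1, 13, 11, 1], .l [10, 18, 7, 13, 15, 12, 1, 13, 11, 1], .l [3, 1, 5, 3, 16, 15, 5], .l [6, 16, 9, 1, 1, 10, 1, 11, 9, 1], .l [10, 18, 7, 10, 1, 11, 9, 1], .l [6, 11, 8, 1, 16, 13, 1, 5, 11, 1], .l [3, 1, 5, 3, 16, 15, 7], .l [6, 11, 8, 1, 14, 11, 1, 5, 9, 1], .l [12, 15, 13, 17, 6, 9, 1, 10, 8, 1], .l [6, 13, 10, 1, 16, 13, 1, 7, 11, 1], .l [3, 1, 5, 3, 16, 15, 9], .l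 [3, 1, 15, 12, 2, 12, 1, 1, 8, 1], .l [15, 18, 2, 5, 1, 6, 4, 12], .l [3, 1, 17, 14, 2, 14, 3, 1, 9, 1], .l [0, 13, 9, 14, 16, 14, 9], .l [3, 1, 15, 12, 14, 1, 11, 1], .l [8, 16, 7, 13, 15, 12, 1, 13, 11, 1], .l [3, 1, 5, 3, 14, 13, 14]]),
([p 6 1, s 3 2, g, s 0 3, g, m 2 0, s 0 4, g, s 4 0, g, p 5 0, g, p 0 5, s 1 0, g, p 0 6, g], .top 4, [.r 550 [1, 2, 3, 4, 6] [1, 1, 4, 1, 1], .r 568 [1, 2, 3, 4, 5, 6] [1, 1, 1, 1, 1, 1, 1], .r 572 [1, 2, 3, 4, 5, 6] [1, 1, 1, 1, 1, 1, 1], .r 570 [1, 2, 3, 4, 5, 6] [1, 1, 1, 1, 1, 1, 1]]),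
([p 5 1, s 3 2, g, s 0 3, g, m 2 0, s 0 0, g, p 4 0, g, p 0 4, s 1 0, g, p 0 5, g], .hi 6, [.l [2, 15, 12, 4, 11, 1], .l [2, 15, 12, 4, 11], .l [3, 7, 4], .l [2, 13, 10, 2, 9, 1], .l [4, 15, 10, 2, 9, 1], .l [4, 15, 10, 2, 9], .l [5, 7, 2], .y [6], .r 573 [1, 2, 3, 6, 4, 5] [1, 1, 1, 1, 1, 1, 1], .l [5, 3, 14, 9, 1], .r 540 [1, 2, 3, 6, 5] [1, 1, 1, 4, 1, 1], .l [9, 13, 7, 1, 13, 10, 5, 9, 6, 3], .l [5, 3, 14, 9, 3], .r 540 [1, 2, 3, 6, 5] [1, 1, 3, 2, 1, 1], .l [5, 3, 12, 7, 3], .l [3, 1, 7, 11, 8, 2, 4, 7], .l [5, 3, 14, 9, 6], .l [3, 1, 7, 11, 8, 2, 4, 7], .l [5, 3, 12, 7, 6], .l [3, 1, 7, 13, 10, 2, 4, 9], .l [5, 3, 12, 7, 11], .l [3, 1, 7, 13, 10, 2, 4, 9]]),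
([p 5 1, s 3 2, g, s 0 3, g, m 2 0, g, p 4 0, g, p 0 4, s 1 0, g, p 0 5, g], .top 6, [.r 527 [1, 2, 4, 5] [3, 1, 0, 1, 1], .r 574 [1, 2, 3, 4, 5] [1, 1, 1, 1, 1, 1], .r 528 [1, 2, 5] [3, 4, 1, 1], .r 524 [1, 2, 5] [3, 4, 1, 1]])]

def d02_1 : List (List Item × Qry × List Rf) := [
([p 4 1, s 3 2, g, s 0 3, g, m 2 0, g, p 0 0, s 1 0, g, p 0 4, g], .hi 7, [.l [0, 9, 5], .l [5, 3, 6, 2, 6, 1], .l [9, 5], .l [0, 7, 3], .l [0, 9, 3], .r 566 [1, 2, 3, 5, 4] [1, 1, 1, 1, 1, 1], .l [9, 3], .l [0, 9, 1], .r 575 [1, 2, 3, 5, 4] [1, 1, 1, 1, 1, 1], .l [9, 1], .y [7], .l [0, 7, 8], .l [7, 9], .l [10, 2], .l [7, 9], .l [0, 7, 10], .l [7, 11], .l [12, 4]]),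
([p 4 1, s 3 2, g, s 0 3, g, m 2 0, g, s 1 0, g, p 0 4, g], .bot 6, [.l [0, 5, 3], .r 564 [1, 2, 3, 4] [1, 1, 1, 1, 1], .r 576 [1, 2, 3, 4] [1, 1, 1, 1, 1], .r 558 [1, 2, 3, 4] [1, 1, 1, 1, 1]]),
([p 3 1, s 0 2, g, m 2 0, g, s 1 0, g, p 0 3, g], .lo 1, [.r 577 [1, 2, 4, 3] [1, 1, 1, 1, 1], .l [3, 1, 4, 2, 3], .l [2, 9, 6, 6, 1], .y [1, 3], .r 531 [1, 2, 4, 3] [1, 1, 1, 1, 1], .l [3, 1, 4, 2, 3], .l [4, 9, 4, 4, 1], .l [4, 7, 2, 2, 1], .r 539 [1, 2, 4, 3] [1, 1, 1, 1, 1], .l [3, 1, 6, 4, 1], .l [5, 4, 5], .r 536 [1, 2, 3, 4] [1, 1, 1, 1, 1], .l [3, 1, 8, 6, 1], .l [5, 4, 7]]),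
([p 6 1, s 0 0, g, p 2 0, g, p 3 2, g, p 4 3, g, p 5 4, p 7 0, g, p 0 5, g, p 0 6, g, s 1 7, g], .hi 1, [.y [1], .l [11, 14, 13, 13, 11, 11, 9, 11, 4, 10, 1, 6, 8, 6, 1], .l [2, 16, 13, 13, 14], .r 507 [1, 8, 6] [1, 12, 1, 1], .l [11, 14, 13, 13, 11, 11, 9, 11, 4, 10, 3, 6, 8, 6, 1], .l [4, 7, 5, 14, 11, 11, 12], .l [5, 3, 15, 10, 13, 11, 11, 9, 9, 7, 8], .l [11, 14, 13, 13, 11, 11, 7, 11, 6, 10, 1, 6, 8, 4, 5], .l [6, 9, 7, 7, 5, 12, 9, 9, 10], .l [7, 5, 15, 8, 11, 9, 9, 7, 10], .l [11, 14, 13, 13, 9, 9, 7, 11, 6, 10, 1, 6, 8, 4, 5], .l [8, 11, 9, 9, 7, 7, 5, 11, 8, 8, 9], .l [9, 7, 15, 6, 9, 7, 12], .l [9, 14, 13, 13, 11, 11, 9, 11, 6, 10, 1, 4, 8, 6, 3], .l [11, 14, 11, 11, 9, 9, 7, 7, 5, 9, 6, 6, 7], .l [9, 14, 13,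 13, 11, 11, 9, 11, 6, 10, 1, 4, 8, 6, 3], .l [11, 12, 9, 9, 7, 7, 5, 5, 3, 7, 4, 4, 5], .l [9, 12, 11, 11, 9, 9, 7, 11, 6, 10, 1, 6, 8, 4, 5], .l [13, 16, 2, 2, 14], .l [9, 12, 11, 11, 9, 9, 7, 11, 6, 10, 1, 6, 8, 4, 5], .l [13, 14, 0, 0, 12], .l [9, 12, 11, 11, 9, 9, 7, 9, 4, 10, 3, 6, 8, 6, 1], .l [18, 17, 14], .l [9, 12, 11, 11, 9, 9, 7, 9, 4, 10, 3, 6, 8, 6, 1], .l [9, 12, 11, 11, 9, 9, 7, 9, 4, 8, 1, 4, 6, 4, 5], .l [9, 12, 11, 11, 9, 9, 7, 9, 4, 8, 1, 4, 6, 4, 5], .l [7, 9, 8, 17, 11, 8, 8, 2, 11]]),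
([p 6 1, g, p 2 0, g, p 3 2, g, p 4 3, g, p 5 4, p 7 0, g, p 0 5, g, p 0 6, g, s 1 7, g], .top 1, [.l [7, 10, 9, 9, 7, 9, 4, 8, 1, 4, 6, 4, 1], .r 579 [1, 2, 3, 4, 5, 6, 7] [1, 1, 1, 1, 1, 1, 1, 1], .r 334 [] [16], .r 444 [] [16]]),
([p 5 1, s 0 0, g, p 2 0, g, p 3 2, g, p 4 3, p 6 4, g, p 0 5, g, s 1 6, g], .hi 1, [.y [1], .l [9, 10, 9, 9, 7, 9, 2, 8, 1, 6, 6, 4, 1], .l [2, 12, 9, 9, 10], .r 507 [1, 7, 5] [1, 8, 1, 1], .l [9, 10, 9, 9, 7, 9, 2, 8, 3, 6, 6, 4, 1], .l [4, 7, 5, 10, 7, 7, 8], .l [5, 3, 11, 6, 9, 7, 7, 5, 6], .l [9, 10, 9, 9, 5, 9, 4, 8, 1, 6, 6, 2, 3], .l [6, 9, 7, 7, 5, 9, 6, 6, 7], .l [7, 5, 11, 4, 7, 5, 8], .l [7, 8, 7, 7, 5, 9, 4, 8, 1, 6, 6, 2, 3], .l [9, 12, 2, 2, 10], .l [7, 8, 7, 7, 5, 9, 4, 8, 1,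 6, 6, 2, 3], .l [9, 10, 0, 0, 8], .l [7, 8, 7, 7, 5, 7, 2, 8, 3, 6, 6, 4, 1], .l [14, 13, 10], .l [7, 8, 7, 7, 5, 7, 2, 8, 3, 6, 6, 4, 1], .l [7, 8, 7, 7, 5, 7, 2, 6, 1, 4, 4, 2, 3], .l [7, 8, 7, 7, 5, 7, 2, 6, 1, 4, 4, 2, 3], .l [5, 7, 6, 13, 9, 6, 6, 2, 7]]),
([p 5 1, g, p 2 0, g, p 3 2, g, p 4 3, p 6 4, g, p 0 5, g, s 1 6, g], .top 1, [.l [5, 6, 5, 7, 2, 6, 1, 4, 4, 2, 1], .r 581 [1, 2, 3, 4, 5, 6] [1, 1, 1, 1, 1, 1], .r 334 [] [12], .r 444 [] [12]]),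
([p 5 1, g, p 2 0, g, p 3 2, g, p 4 3, g, p 0 4, p 6 0, g, p 0 5, g, s 1 6, g], .lo 8, [.l [9, 13, 3, 4, 12, 8, 5], .l [2, 9], .l [1, 13, 11, 7], .y [2, 8, 6, 4], .l [9, 13, 3, 6, 8, 6, 10, 6, 3], .l [4, 9], .l [3, 6, 4, 11, 9, 5], .l [9, 13, 3, 8, 10, 8, 8, 6, 8, 4, 1], .l [6, 9], .l [5, 8, 6, 6, 4, 9, 7, 3], .l [9, 13, 3, 10, 1, 8, 9], .l [8, 9], .l [7, 10, 8, 8, 6, 6, 4, 8, 6, 1], .r 582 [1, 3, 4, 7, 5, 6] [3, 1, 1, 1, 1, 1], .l [7, 13, 5, 2, 4, 10, 10, 2, 7], .r 580 [1, 2, 3, 4, 7, 5, 6] [1, 1, 1, 1, 1, 1, 1, 1], .l [7, 8, 6, 6, 4, 4, 2, 8, 6, 3], .l [7, 11, 3, 10, 1, 8, 9], .r 471 [1, 4, 5, 7, 6] [5, 1, 1, 1, 1, 1], .l [7, 8, 6, 6, 4, 4, 2, 6, 4, 5], .l [7, 11, 3, 12, 3, 10, 7], .l [12, 15, 10, 13, 5, 2, 9], .l [7,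 8, 6, 6, 4, 4, 2, 6, 4, 7]]),
([p 4 1, g, p 2 0, g, p 3 2, g, p 0 3, p 5 0, g, p 0 4, g, s 1 5, g], .hi 2, [.l [4, 1, 10, 6, 8, 6, 6, 4, 5], .r 583 [1, 6, 2, 3, 4, 5] [1, 1, 1, 1, 1, 1, 1], .l [4, 1], .l [4, 1, 10, 6, 1, 6, 8, 4, 1], .l [2, 3], .l [4, 1], .l [6, 3, 10, 4, 8, 6, 7], .l [2, 5], .l [6, 3], .y [2, 6, 4], .l [9, 6, 6, 4, 4, 2, 7], .l [2, 8], .l [9, 6], .l [2, 8], .l [11, 8, 8, 6, 6, 4, 7], .l [2, 10], .l [11, 8], .l [13, 10, 10, 8, 8, 6, 3], .l [2, 12], .l [13, 10]]),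
([p 3 1, g, p 2 0, g, p 0 2, p 4 0, g, p 0 3, g, s 1 4, g], .hi 2, [.l [4, 1, 8, 4, 6, 4, 5], .r 584 [1, 5, 2, 3, 4] [1, 1, 1, 1, 1, 1], .l [4, 1], .r 473 [1, 5, 2, 3, 4] [1, 1, 1, 1, 1, 1], .l [2, 3], .l [4, 1], .y [2, 4], .l [7, 4, 4, 2, 7], .l [2, 6], .l [7, 4], .l [2, 6], .l [9, 6, 6, 4, 7], .l [2, 8], .l [9, 6], .l [11, 8, 8, 6, 3], .l [2, 10], .l [11, 8]]),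
([p 2 1, g, p 0 0, p 3 0, g, p 0 2, g, s 1 3, g], .hi 2, [.l [0, 8, 8, 4, 1], .r 585 [1, 4, 2, 3] [1, 1, 1, 1, 1], .l [4, 1], .y [2], .l [0, 8, 8, 2, 3], .l [2, 4], .l [5, 2], .l [2, 4], .l [0, 8, 8, 2, 5], .l [2, 6], .l [7, 4], .l [0, 6, 6, 2, 5], .l [2, 8], .l [9, 6]]),
([p 4 1, g, m 0 2, g, m 2 3, p 9 0, g, p 0 4, g, m 3 5, g, m 5 6, g, m 6 7, g, m 7 8, g, m 8 0, g, s 1 9, g], .hi 17, [.l [18, 19, 17, 17, 15, 15, 13, 13, 11, 11, 6, 9, 3, 4, 8, 4, 1], .l [0, 20, 18, 16, 16, 14, 14, 12, 12, 10, 10, 8, 8, 3, 3, 1, 5, 5], .l [2, 18], .y [2, 4, 9, 11, 13, 15, 17], .l [3, 9, 5, 16, 9, 12, 15], .l [0, 20, 16, 14, 14, 12, 12, 10, 10, 8, 8, 6, 6, 1, 6, 4, 2, 5], .l [4, 18], .l [7, 18, 18, 16, 16, 14, 16, 8, 10, 1, 10, 3, 6, 8,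 1, 4, 1], .l [0, 20, 13, 11, 11, 9, 9, 7, 7, 5, 5, 3, 6, 2, 4, 6, 6, 2], .l [7, 18], .l [0, 18, 11, 9, 9, 7, 7, 5, 5, 3, 3, 1, 4, 2, 2, 4, 4, 0], .l [8, 11, 6, 9, 5, 14, 7, 10, 13], .l [4, 11, 10, 6, 2, 17, 11, 9, 9, 7, 7, 5, 5, 3, 3, 1, 3, 1], .l [9, 18], .l [10, 13, 11, 11, 6, 9, 5, 12, 5, 8, 11], .l [0, 20, 9, 7, 7, 5, 5, 3, 3, 1, 3, 1, 10, 4, 8, 7, 7, 5], .l [11, 18], .l [12, 15, 13, 13, 11, 11, 6, 9, 5, 10, 3, 6, 9], .l [12, 15, 13, 13, 11, 11, 6, 6, 4, 8, 6, 9], .l [13, 18], .l [14, 17, 15, 15, 13, 13, 11, 11, 6, 9, 5, 8, 1, 4, 7], .l [14, 17, 15, 15, 13, 13, 11, 11, 6, 6, 4, 8, 6, 7], .l [15, 18], .l [18, 19, 15, 15, 13, 13, 11, 11, 9, 9, 4, 7, 3, 6, 1, 4, 5], .l [16, 19, 17, 17, 15, 15, 13, 13, 11, 11, 6, 6, 4,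 8, 6, 1], .l [17, 18], .l [16, 17, 15, 15, 13, 13, 11, 11, 9, 9, 4, 7, 3, 6, 1, 4, 5], .l [16, 17, 15, 15, 13, 13, 11, 11, 9, 9, 4, 4, 2, 6, 4, 5], .l [20, 16, 17, 16, 18, 15, 13, 11, 11, 9, 9, 7, 7, 5, 5, 3, 3, 1], .l [16, 17, 15, 15, 13, 13, 11, 11, 9, 9, 4, 7, 3, 8, 3, 6, 3], .l [16, 17, 15, 15, 13, 13, 11, 11, 9, 9, 4, 4, 2, 6, 4, 7], .l [0, 18, 20, 18, 18, 16, 16, 14, 14, 12, 12, 10, 8, 4, 8, 7, 7, 5]]),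
([p 4 1, g, m 0 2, g, m 2 3, p 8 0, g, p 0 4, g, m 3 5, g, m 5 6, g, m 6 7, g, m 7 0, g, s 1 8, g], .hi 15, [.l [16, 17, 15, 15, 13, 13, 11, 11, 6, 9, 3, 4, 8, 4, 1], .l [1, 9, 7, 14], .l [2, 16], .y [2, 4, 9, 11, 13, 15], .l [3, 9, 5, 14, 7, 10, 13], .l [3, 6, 4, 8, 6, 13], .l [4, 16], .l [7, 16, 16, 14, 16, 8, 10, 1, 10, 3, 6, 8, 1, 4, 1], .l [3, 9, 5, 0, 6, 3, 12, 12, 10, 10, 8, 8, 6, 6, 4, 5, 5, 1], .l [7, 16], .l [3, 7, 3, 0, 4, 1, 10, 10, 8, 8, 6, 6, 4, 4, 2, 3, 3, 1], .l [8, 11, 6, 9, 5, 12, 5, 8, 11], .l [8, 11, 6, 6, 4, 8, 6, 11], .l [9, 16], .l [10, 13, 11, 11, 6, 9, 5, 10, 3, 6, 9], .l [10, 13, 11, 11, 6, 6, 4, 8, 6, 9], .l [11, 16], .l [12, 15, 13, 13, 11, 11, 6, 9, 5, 8, 1, 4, 7], .l [12, 15, 13, 13, 11, 11,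 6, 6, 4, 8, 6, 7], .l [13, 16], .l [16, 17, 13, 13, 11, 11, 9, 9, 4, 7, 3, 6, 1, 4, 5], .l [14, 17, 15, 15, 13, 13, 11, 11, 6, 6, 4, 8, 6, 1], .l [15, 16], .l [14, 15, 13, 13, 11, 11, 9, 9, 4, 7, 3, 6, 1, 4, 5], .l [14, 15, 13, 13, 11, 11, 9, 9, 4, 4, 2, 6, 4, 5], .r 587 [1, 2, 3, 4, 5, 6, 7, 9, 8] [1, 1, 1, 1, 1, 1, 1, 1, 1, 1], .l [14, 15, 13, 13, 11, 11, 9, 9, 4, 7, 3, 8, 3, 6, 3], .l [14, 15, 13, 13, 11, 11, 9, 9, 4, 4, 2, 6, 4, 7], .l [16, 19, 17, 17, 15, 15, 13, 13, 11, 11, 6, 9, 5, 2, 5]]),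
([p 4 1, g, m 0 2, g, m 2 3, p 7 0, g, p 0 4, g, m 3 5, g, m 5 6, g, m 6 0, g, s 1 7, g], .hi 13, [.l [14, 15, 13, 13, 11, 11, 6, 9, 3, 4, 8, 4, 1], .l [1, 9, 7, 12], .l [2, 14], .y [2, 4, 9, 11, 13], .l [3, 9, 5, 12, 5, 8, 11], .l [3, 6, 4, 8, 6, 11], .l [4, 14], .l [7, 14, 16, 8, 10, 1, 10, 3, 6, 8, 1, 4, 1], .l [6, 9, 2, 12], .l [7, 14], .l [6, 7, 0, 10], .l [8, 11, 6, 9, 5, 10, 3, 6, 9], .l [8, 11, 6, 6, 4, 8, 6, 9], .l [9, 14], .l [10, 13, 11, 11, 6, 9, 5, 8, 1, 4, 7], .l [10, 13, 11, 11, 6, 6, 4, 8, 6, 7], .l [11, 14], .l [14, 15, 11, 11, 9, 9, 4, 7, 3, 6, 1, 4, 5], .l [12, 15, 13, 13, 11, 11, 6, 6, 4, 8, 6, 1], .l [13, 14], .l [12, 13, 11, 11, 9, 9, 4, 7, 3, 6, 1, 4, 5], .l [12, 13, 11, 11, 9, 9, 4, 4, 2, 6, 4, 5],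 .r 588 [1, 2, 3, 4, 5, 6, 8, 7] [1, 1, 1, 1, 1, 1, 1, 1, 1], .l [12, 13, 11, 11, 9, 9, 4, 7, 3, 8, 3, 6, 3], .l [12, 13, 11, 11, 9, 9, 4, 4, 2, 6, 4, 7], .l [14, 17, 15, 15, 13, 13, 11, 11, 6, 9, 5, 2, 5]]),
([p 4 1, g, m 0 2, g, m 2 3, p 6 0, g, p 0 4, g, m 3 5, g, m 5 0, g, s 1 6, g], .hi 11, [.l [12, 13, 11, 11, 6, 9, 3, 4, 8, 4, 1], .l [1, 9, 7, 10], .l [2, 12], .y [2, 4, 9, 11], .l [3, 9, 5, 10, 3, 6, 9], .l [3, 6, 4, 8, 6, 9], .l [4, 12], .l [12, 13, 11, 11, 4, 9, 5, 2, 4, 6, 6, 2, 3], .l [6, 9, 2, 10], .l [7, 12], .l [6, 7, 0, 8], .l [8, 11, 6, 9, 5, 8, 1, 4, 7], .l [8, 11, 6, 6, 4, 8, 6, 7], .l [9, 12], .l [12, 13, 9, 9, 4, 7, 3, 6, 1, 4, 5], .l [10, 13, 11, 11, 6, 6, 4, 8, 6, 1], .l [11, 12], .l [10, 11, 9, 9,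 4, 7, 3, 6, 1, 4, 5], .l [10, 11, 9, 9, 4, 4, 2, 6, 4, 5], .r 589 [1, 2, 3, 4, 5, 7, 6] [1, 1, 1, 1, 1, 1, 1, 1], .l [10, 11, 9, 9, 4, 7, 3, 8, 3, 6, 3], .l [10, 11, 9, 9, 4, 4, 2, 6, 4, 7], .l [12, 15, 13, 13, 11, 11, 6, 9, 5, 2, 5]]),
([p 4 1, g, m 0 2, g, m 2 3, p 5 0, g, p 0 4, g, m 3 0, g, s 1 5, g], .hi 9, [.l [10, 11, 6, 9, 3, 4, 8, 4, 1], .l [1, 9, 7, 8], .l [2, 10], .y [2, 4, 9], .l [3, 9, 5, 8, 1, 4, 7], .l [3, 6, 4, 8, 6, 7], .l [4, 10], .l [10, 11, 4, 9, 5, 2, 4, 6, 6, 2, 3], .l [6, 9, 2, 8], .l [7, 10], .l [6, 7, 0, 6], .l [10, 11, 4, 7, 3, 6, 1, 4, 5], .l [8, 11, 6, 6, 4, 8, 6, 1], .l [9, 10], .l [8, 9, 4, 7, 3, 6, 1, 4, 5], .l [8, 9, 4, 4, 2, 6, 4, 5], .r 590 [1, 2, 3, 4, 6, 5] [1, 1, 1, 1, 1, 1, 1], .l [8,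 9, 4, 7, 3, 8, 3, 6, 3], .l [8, 9, 4, 4, 2, 6, 4, 7], .l [10, 13, 11, 11, 6, 9, 5, 2, 5]]),
([p 8 1, g, m 3 2, g, s 0 3, g, m 2 4, p 9 0, g, m 4 5, g, m 5 6, g, m 6 7, g, m 7 0, g, p 0 8, g, s 1 9, g], .hi 15, [.l [16, 17, 15, 15, 13, 13, 11, 11, 8, 11, 3, 4, 10, 6, 1], .l [0, 20, 18, 14, 14, 12, 12, 10, 10, 8, 10, 10, 10, 8, 6, 5, 5, 1], .l [2, 16], .l [16, 17, 15, 15, 13, 13, 11, 11, 8, 11, 3, 6, 1, 4, 7], .l [0, 20, 16, 12, 12, 10, 10, 8, 8, 6, 8, 10, 10, 6, 4, 3, 7, 3], .l [4, 16], .y [2, 6, 9, 11, 13, 15, 4], .l [16, 17, 15, 15, 13, 13, 11, 11, 8, 11, 3, 8, 3, 6, 7], .l [0, 20, 14, 10, 10, 8, 8, 6, 6, 4, 6, 10, 10, 4, 2, 1, 7, 5], .l [6, 16], .l [8, 11, 8, 17, 11, 8, 8, 6, 6, 4, 4, 1, 8, 1, 1, 4, 5], .l [5, 19, 13,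 0, 14, 11, 7, 7, 5, 5, 3, 3, 1, 1, 4, 7, 7, 1], .l [9, 16], .l [10, 13, 11, 11, 8, 15, 9, 6, 6, 4, 4, 1, 8, 1, 1, 4, 5], .l [0, 20, 9, 5, 5, 3, 5, 14, 12, 1, 3, 1, 10, 6, 8, 7, 7, 3], .l [11, 16], .l [12, 15, 13, 13, 11, 11, 8, 13, 7, 4, 4, 1, 8, 1, 1, 4, 5], .l [6, 9, 8, 18, 12, 17, 3, 13, 13, 11, 11, 7, 7, 5, 9, 7, 5, 1], .l [13, 16], .l [14, 17, 15, 15, 13, 13, 11, 11, 8, 11, 5, 1, 8, 1, 1, 4, 5], .l [6, 9, 8, 18, 12, 17, 3, 13, 13, 11, 11, 9, 9, 5, 9, 7, 5, 1], .l [15, 16], .l [14, 15, 13, 13, 11, 11, 9, 9, 6, 11, 5, 2, 4, 8, 8, 2, 3], .l [6, 9, 8, 8, 4, 16, 14, 15, 5, 1, 13, 9, 11, 9, 9, 7, 7, 3], .l [6, 9, 8, 18, 12, 17, 3, 13, 13, 11, 11, 9, 9, 7, 7, 5, 7, 5], .l [6, 9, 8, 8, 4, 14, 12, 13, 3, 1, 11, 9, 9, 7, 7,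 5, 5, 1], .l [14, 15, 13, 13, 11, 11, 9, 9, 6, 9, 3, 8, 3, 6, 7], .l [6, 9, 8, 16, 10, 17, 5, 13, 13, 11, 11, 9, 9, 7, 9, 7, 5, 3], .l [4, 1, 16, 12, 18, 5, 7, 3, 5, 12, 7], .l [14, 15, 13, 13, 11, 11, 9, 9, 6, 9, 3, 10, 5, 8, 3], .l [0, 18, 3, 18, 1, 14, 7, 13, 7, 13, 3, 9, 9, 5, 1, 7, 3, 5], .l [6, 9, 8, 8, 4, 14, 12, 13, 15, 11, 11, 9, 9, 7, 7, 3, 7, 5]]),
([p 7 1, g, m 3 2, g, s 0 3, g, m 2 4, p 8 0, g, m 4 5, g, m 5 6, g, m 6 0, g, p 0 7, g, s 1 8, g], .hi 13, [.l [14, 15, 13, 13, 11, 11, 8, 11, 3, 4, 10, 6, 1], .l [1, 17, 15, 12], .l [2, 14], .l [14, 15, 13, 13, 11, 11, 8, 11, 3, 6, 1, 4, 7], .l [3, 8, 6, 16, 14, 11], .l [4, 14], .y [2, 6, 9, 11, 13, 4], .l [14, 15, 13, 13, 11, 11, 8, 11, 3, 8, 3, 6, 7], .l [5, 8,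 4, 16, 14, 11], .l [6, 14], .l [8, 11, 8, 15, 9, 6, 6, 4, 4, 1, 8, 1, 1, 4, 5], .l [8, 11, 8, 8, 4, 14, 12, 9], .l [9, 14], .l [10, 13, 11, 11, 8, 13, 7, 4, 4, 1, 8, 1, 1, 4, 5], .l [10, 13, 11, 11, 8, 8, 4, 12, 10, 7], .l [11, 14], .l [12, 15, 13, 13, 11, 11, 8, 11, 5, 1, 8, 1, 1, 4, 5], .l [12, 15, 13, 13, 11, 11, 8, 8, 4, 10, 8, 1], .l [13, 14], .l [12, 13, 11, 11, 9, 9, 6, 11, 5, 2, 4, 8, 8, 2, 3], .l [12, 13, 11, 11, 9, 9, 6, 6, 2, 10, 8, 5], .r 592 [1, 2, 3, 4, 5, 6, 9, 7, 8] [1, 1, 1, 1, 1, 1, 1, 1, 1, 1], .l [12, 13, 11, 11, 9, 9, 6, 6, 2, 8, 6, 5], .l [12, 13, 11, 11, 9, 9, 6, 9, 3, 8, 3, 6, 7], .l [12, 13, 11, 11, 9, 9, 6, 6, 2, 8, 6, 7], .l [4, 1, 14, 10, 16, 5, 7, 3, 5, 10, 5], .l [12, 13, 11, 11, 9, 9, 6, 9,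 3, 10, 5, 8, 3], .l [12, 13, 11, 11, 9, 9, 6, 6, 2, 8, 6, 9], .l [16, 19, 15, 15, 13, 13, 11, 11, 8, 11, 5, 2, 5]]),
([p 6 1, g, m 3 2, g, s 0 3, g, m 2 4, p 7 0, g, m 4 5, g, m 5 0, g, p 0 6, g, s 1 7, g], .hi 11, [.l [12, 13, 11, 11, 8, 11, 3, 4, 10, 6, 1], .l [1, 15, 13, 10], .l [2, 12], .l [12, 13, 11, 11, 8, 11, 3, 6, 1, 4, 7], .l [3, 8, 6, 14, 12, 9], .l [4, 12], .y [2, 6, 9, 11, 4], .l [12, 13, 11, 11, 8, 11, 3, 8, 3, 6, 7], .l [5, 8, 4, 14, 12, 9], .l [6, 12], .l [8, 11, 8, 13, 7, 4, 4, 1, 8, 1, 1, 4, 5], .l [8, 11, 8, 8, 4, 12, 10, 7], .l [9, 12], .l [10, 13, 11, 11, 8, 11, 5, 1, 8, 1, 1, 4, 5], .l [10, 13, 11, 11, 8, 8, 4, 10, 8, 1], .l [11, 12], .l [10, 11, 9, 9, 6, 11, 5, 2, 4, 8, 8, 2, 3], .l [10, 11, 9, 9,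 6, 6, 2, 10, 8, 5], .r 593 [1, 2, 3, 4, 5, 8, 6, 7] [1, 1, 1, 1, 1, 1, 1, 1, 1], .l [10, 11, 9, 9, 6, 6, 2, 8, 6, 5], .l [10, 11, 9, 9, 6, 9, 3, 8, 3, 6, 7], .l [10, 11, 9, 9, 6, 6, 2, 8, 6, 7], .l [4, 1, 12, 8, 14, 5, 7, 3, 5, 8, 3], .l [10, 11, 9, 9, 6, 9, 3, 10, 5, 8, 3], .l [10, 11, 9, 9, 6, 6, 2, 8, 6, 9], .l [14, 17, 13, 13, 11, 11, 8, 11, 5, 2, 5]]),
([p 5 1, g, m 3 2, g, s 0 3, g, m 2 4, p 6 0, g, m 4 0, g, p 0 5, g, s 1 6, g], .hi 9, [.l [10, 11, 8, 11, 3, 4, 10, 6, 1], .l [1, 13, 11, 8], .l [2, 10], .l [10, 11, 8, 11, 3, 6, 1, 4, 7], .l [3, 8, 6, 12, 10, 7], .l [4, 10], .y [2, 6, 9, 4], .l [10, 11, 8, 11, 3, 8, 3, 6, 7], .l [5, 8, 4, 12, 10, 7], .l [6, 10], .l [10, 11, 6, 11, 5, 2, 4, 8, 8, 2, 3], .l [8, 11, 8,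 8, 4, 10, 8, 1], .l [9, 10], .l [8, 9, 6, 11, 5, 2, 4, 8, 8, 2, 3], .l [8, 9, 6, 6, 2, 10, 8, 5], .r 594 [1, 2, 3, 4, 7, 5, 6] [1, 1, 1, 1, 1, 1, 1, 1], .l [8, 9, 6, 6, 2, 8, 6, 5], .l [8, 9, 6, 9, 3, 8, 3, 6, 7], .l [8, 9, 6, 6, 2, 8, 6, 7], .l [4, 1, 10, 6, 12, 5, 7, 3, 5, 6, 1], .l [8, 9, 6, 9, 3, 10, 5, 8, 3], .l [8, 9, 6, 6, 2, 8, 6, 9], .l [12, 15, 11, 11, 8, 11, 5, 2, 5]]),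
([p 6 1, s 0 0, g, m 0 2, g, m 2 3, g, m 3 4, g, m 4 5, p 7 0, g, m 5 0, g, p 0 6, g, s 1 7, g], .hi 1, [.y [1], .l [11, 14, 13, 13, 11, 11, 9, 11, 4, 10, 1, 6, 8, 6, 1], .l [2, 16, 13, 13, 14], .r 507 [1, 8, 6] [1, 12, 1, 1], .l [3, 1, 13, 10, 11, 9, 9, 7, 7, 5, 6], .l [11, 14, 13, 13, 11, 11, 9, 11, 4, 10, 3, 6, 8, 6, 1], .l [4, 7, 5, 14, 11, 11, 12], .l [5, 3, 15, 10, 13, 11, 11, 9, 9, 7, 8], .l [11, 14, 13, 13, 11, 11, 7, 11, 6, 10, 1, 6, 8, 4, 5], .l [6, 9, 7, 7, 5, 12, 9, 9, 10], .l [7, 5, 15, 8, 11, 9, 9, 7, 10], .l [11, 14, 13, 13, 9, 9, 7, 11, 6, 10, 1, 6, 8, 4, 5], .l [8, 11, 9, 9, 7, 7, 5, 11, 8, 8, 9], .l [9, 7, 15, 6, 9, 7, 12], .l [9, 14, 13, 13, 11, 11, 9, 11, 6, 10, 1, 4, 8, 6, 3], .l [11, 14, 11, 11, 9,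 9, 7, 7, 5, 9, 6, 6, 7], .l [9, 14, 13, 13, 11, 11, 9, 11, 6, 10, 1, 4, 8, 6, 3], .l [9, 12, 11, 11, 9, 9, 7, 11, 6, 10, 1, 6, 8, 4, 5], .l [13, 16, 2, 2, 14], .l [9, 12, 11, 11, 9, 9, 7, 11, 6, 10, 1, 6, 8, 4, 5], .l [13, 14, 0, 0, 12], .l [9, 12, 11, 11, 9, 9, 7, 9, 4, 10, 3, 6, 8, 6, 1], .l [18, 17, 14], .l [9, 12, 11, 11, 9, 9, 7, 9, 4, 10, 3, 6, 8, 6, 1], .l [9, 12, 11, 11, 9, 9, 7, 9, 4, 8, 1, 4, 6, 4, 5], .l [9, 12, 11, 11, 9, 9, 7, 9, 4, 8, 1, 4, 6, 4, 5], .l [7, 9, 8, 17, 11, 8, 8, 2, 11]]),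
([p 6 1, g, m 0 2, g, m 2 3, g, m 3 4, g, m 4 5, p 7 0, g, m 5 0, g, p 0 6, g, s 1 7, g], .top 1, [.l [7, 10, 9, 9, 7, 9, 4, 8, 1, 4, 6, 4, 1], .r 596 [1, 2, 3, 4, 5, 6, 7] [1, 1, 1, 1, 1, 1, 1, 1], .r 334 [] [16], .r 444 [] [16]]),
([p 5 1, g, m 0 2, g, m 2 3, g, m 3 4, p 6 0, g, m 4 0, g, p 0 5, g, s 1 6, g], .lo 2, [.l [4, 1, 12, 8, 10, 8, 8, 6, 7], .l [4, 1], .r 597 [1, 7, 2, 3, 4, 5, 6] [1, 1, 1, 1, 1, 1, 1, 1], .l [4, 1, 12, 8, 1, 8, 10, 4, 1], .l [4, 1], .l [2, 3], .l [6, 3, 12, 6, 10, 8, 9], .l [6, 3], .l [2, 5], .l [7, 4], .l [9, 6, 6, 4, 4, 2, 9], .l [9, 6], .l [2, 8], .y [2, 4, 6, 9], .l [11, 8, 8, 6, 6, 4, 9], .l [11, 8], .l [2, 10], .l [13, 10, 10, 8, 8, 6, 9], .l [13, 10], .l [2, 12], .l [15, 12, 12, 10, 10,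 8, 5], .l [15, 12], .l [2, 14]]),
([p 4 1, g, m 0 2, g, m 2 3, p 5 0, g, m 3 0, g, p 0 4, g, s 1 5, g], .lo 2, [.l [4, 1, 10, 6, 8, 6, 7], .l [4, 1], .r 598 [1, 6, 2, 3, 4, 5] [1, 1, 1, 1, 1, 1, 1], .r 595 [1, 2, 6, 3, 4, 5] [1, 1, 1, 1, 1, 1, 1], .l [4, 1], .l [2, 3], .l [5, 2], .l [7, 4, 4, 2, 9], .l [7, 4], .l [2, 6], .y [2, 4, 7], .l [9, 6, 6, 4, 9], .l [9, 6], .l [2, 8], .l [11, 8, 8, 6, 9], .l [11, 8], .l [2, 10], .l [13, 10, 10, 8, 5], .l [13, 10], .l [2, 12]]),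
([p 3 1, g, m 0 2, g, m 2 0, p 4 0, g, p 0 3, g, s 1 4, g], .hi 4, [.l [5, 9, 3, 4, 8, 4, 1], .l [1, 9, 7, 3], .l [2, 5], .y [2, 4], .l [5, 9, 3, 6, 1, 4, 5], .l [3, 6, 4, 8, 6, 1], .l [4, 5], .l [3, 9, 5, 2, 4, 6, 6, 2, 3], .l [3, 4, 2, 8, 6, 3], .r 599 [1, 2, 5, 3, 4] [1, 1, 1, 1, 1, 1], .l [3, 4, 2, 6, 4, 3], .l [3, 7, 3, 6, 1, 4, 5], .l [3, 4, 2, 6, 4, 5], .r 591 [1, 2, 5, 3, 4] [1, 1, 1, 1, 1, 1], .l [3, 7, 3, 8, 3, 6, 3], .l [3, 4, 2, 6, 4, 7], .l [8, 11, 6, 9, 5, 2, 5]]),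
([p 2 1, g, m 0 0, p 3 0, g, p 0 2, g, s 1 3, g], .lo 2, [.l [0, 8, 8, 4, 1], .l [4, 1], .r 600 [1, 4, 2, 3] [1, 1, 1, 1, 1], .y [2], .l [3, 0], .l [0, 8, 8, 2, 3], .l [5, 2], .l [2, 4], .l [0, 8, 8, 2, 5], .l [7, 4], .l [2, 6], .l [0, 6, 6, 2, 5], .l [9, 6], .l [2, 8]]),
([p 0 1, s 0 2, p 3 0, g, s 2 0, g, s 1 3, g], .lo 1, [.l [2, 0, 4], .l [4, 2, 6, 6, 2, 3], .l [4, 2, 6], .l [0, 7, 7, 1, 2], .y [1, 4], .l [4, 2, 6, 6, 2, 3], .l [6, 4, 6], .l [0, 7, 7, 1, 4], .l [4, 2, 4, 4, 2, 3], .l [8, 6, 3], .l [0, 5, 5, 1, 4]]),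
([p 0 1, s 0 2, p 3 0, g, s 1 3, g, s 2 0, g], .lo 1, [.l [2, 0, 2], .l [4, 2, 4, 4, 2, 3], .l [4, 2, 4], .l [0, 5, 5, 1, 2], .l [6, 4, 1, 1, 2, 3], .l [6, 4, 1], .l [0, 3, 3, 1, 2], .y [1, 6], .l [6, 4, 1, 1, 2, 3], .l [6, 4, 1, 6, 2, 3], .l [0, 3, 3, 1, 4]]),
([p 0 1, s 0 0, p 2 0, g, s 1 2, g], .hi 1, [.l [0], .y [1], .r 602 [1, 3, 2] [1, 1, 1], .l [0, 5, 5, 1, 2], .l [4, 2, 4], .r 603 [1, 3, 2] [1, 1, 1], .l [0, 3, 3, 1, 2], .l [6, 4, 1]]),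
([p 0 1, s 0 2, g, s 3 0, p 4 0, g, s 2 3, g, s 1 4, g], .hi 3, [.l [2], .y [1, 6, 3], .l [10, 9, 6, 4, 1, 4, 2, 3], .l [10, 9, 6, 4, 1, 4, 2, 3], .l [0, 9, 9, 5, 1], .l [6, 2, 8, 8, 4, 5], .l [0, 9, 9, 3, 4], .l [6, 2, 8], .l [8, 4, 8, 8, 6, 3], .l [0, 9, 9, 3, 6], .l [8, 4, 8], .l [10, 6, 3, 3, 6, 3], .l [0, 7, 7, 3, 6], .l [10, 6, 3]]),
([p 0 1, s 3 0, g, s 2 0, p 4 0, g, s 0 2, g, p 0 3, g, s 1 4, g], .hi 1, [.l [0], .l [3, 1, 9, 7, 8, 8, 2, 3], .l [8, 2, 10, 10, 6, 1], .l [3, 1, 9, 7, 8], .l [8, 4, 10, 10, 6, 3], .l [12, 11, 4], .l [6, 4, 9, 4, 8], .r 605 [1, 5, 2, 4] [1, 1, 3, 1], .l [6, 2, 10, 10, 4, 5], .l [6, 2, 10, 10, 4, 5], .l [8, 6, 9, 2, 8], .y [1, 8], .l [6, 2, 10, 10, 4, 7], .l [6, 2, 10, 10, 4, 7], .l [8,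 6, 9, 2, 8], .l [6, 2, 8, 8, 4, 7], .l [6, 2, 8, 8, 4, 7], .l [8, 6, 11, 4, 1]]),
([p 0 1, s 4 0, g, s 2 0, p 3 0, g, s 0 2, g, s 1 3, g, p 0 4, g], .hi 1, [.l [0], .l [3, 1, 11, 9, 6, 6, 2, 3], .l [8, 2, 8, 8, 6, 1], .l [3, 1, 11, 9, 6], .l [8, 4, 8, 8, 6, 3], .l [10, 9, 4], .l [6, 4, 11, 6, 3], .r 605 [1, 5, 2, 3] [1, 1, 1, 3], .l [6, 2, 8, 8, 4, 5], .l [6, 2, 8, 8, 4, 5], .l [8, 6, 11, 4, 1], .l [6, 2, 6, 6, 4, 5], .l [6, 2, 6, 6, 4, 5], .l [10, 8, 11, 2, 3], .y [1, 10], .l [6, 2, 6, 6, 4, 7], .l [6, 2, 6, 6, 4, 7], .l [10, 8, 11, 2, 3]]),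
([p 0 1, s 2 0, g, p 0 2, g, s 3 0, p 4 0, g, s 0 3, g, s 1 4, g], .hi 1, [.l [0], .l [3, 1, 4, 2, 8, 8, 4, 5], .l [10, 2, 10, 10, 8, 1], .l [3, 1, 4, 2, 8], .y [1, 3], .l [10, 2, 10, 10, 8, 3], .l [10, 2, 10, 10, 8, 3], .l [3, 1, 4, 2, 8], .l [10, 4, 10, 10, 8, 5], .l [12, 11, 6], .l [3, 1, 7, 5, 8], .l [3, 1, 7, 5, 6, 6, 2, 3], .l [8, 2, 10, 10, 6, 7], .l [8, 2, 10, 10, 6, 7], .l [3, 1, 9, 7, 8], .l [8, 2, 8, 8, 6, 7], .l [8, 2, 8, 8, 6, 7], .l [3, 1, 11, 9, 6]]),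
([p 0 1, s 0 0, g, s 2 0, p 3 0, g, s 0 2, g, s 1 3, g], .lo 1, [.y [1], .l [8, 2, 8, 8, 6, 1], .r 608 [1, 4, 2, 3] [1, 1, 1, 1, 1], .l [8, 2, 8, 8, 6, 1], .l [6, 2, 6, 6, 4, 1], .l [6, 2, 6, 6, 4, 3], .l [8, 4, 8, 8, 6, 3], .l [8, 4, 8, 8, 6, 3], .l [10, 9, 4], .l [6, 2, 8, 8, 4, 5], .r 606 [1, 2, 4, 3] [1, 1, 1, 1, 1], .l [6, 2, 8, 8, 4, 5], .l [6, 2, 6, 6, 4, 5], .r 607 [1, 2, 3, 4] [1, 1, 1, 1, 1], .l [6, 2, 6, 6, 4, 5]]),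
([p 0 1, g, s 2 0, p 3 0, g, s 0 2, g, s 1 3, g], .top 1, [.r 604 [1, 3] [3, 1], .r 609 [1, 2, 3] [1, 1, 1, 1], .r 334 [] [8], .r 444 [] [8]]),
([p 0 1, s 2 0, g, p 0 2, g, s 4 0, p 3 0, g, s 1 3, g, s 0 4, g], .hi 1, [.l [0], .l [3, 1, 4, 2, 6, 6, 4, 5], .l [10, 9, 1], .l [3, 1, 4, 2, 6], .y [1, 3], .l [12, 4, 1, 1, 8, 3], .l [10, 9, 3], .l [3, 1, 4, 2, 6], .l [12, 6, 3, 3, 8, 5], .l [10, 9, 6], .l [3, 1, 7, 5, 6], .l [12, 6, 1, 1, 8, 5], .l [8, 7, 8], .l [3, 1, 9, 7, 4], .l [3, 1, 9, 7, 4, 4, 2, 3], .l [10, 4, 1, 1, 6, 7], .l [8, 7, 10], .l [3, 1, 11, 9, 4]]),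
([p 0 1, s 0 0, g, s 3 0, p 2 0, g, s 1 2, g, s 0 3, g], .lo 1, [.y [1], .l [10, 4, 1, 1, 6, 1], .r 611 [1, 4, 2, 3] [1, 1, 1, 1, 1], .l [8, 7, 1], .l [8, 4, 1, 1, 4, 1], .l [8, 4, 1, 1, 4, 3], .l [10, 6, 3, 3, 6, 3], .l [10, 6, 3, 3, 6, 3], .l [8, 7, 4], .l [10, 6, 1, 1, 6, 3], .l [10, 6, 1, 1, 6, 3], .l [6, 5, 6], .l [8, 4, 1, 1, 4, 5], .l [8, 4, 1, 8, 2, 5], .l [6, 5, 8]]),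
([p 0 1, g, s 3 0, p 2 0, g, s 1 2, g, s 0 3, g], .top 1, [.r 604 [1, 2] [1, 3], .r 612 [1, 2, 3] [1, 1, 1, 1], .r 334 [] [8], .r 444 [] [8]]),
([p 0 1, s 3 0, g, s 0 2, p 4 0, g, s 2 3, g, s 1 4, g], .lo 3, [.y [1, 3, 6], .l [10, 9, 6, 4, 1, 4, 2, 3], .l [0, 9, 9, 5, 1], .l [10, 9, 6, 4, 1, 4, 2, 3], .l [4, 0, 6], .l [6, 2, 8, 8, 4, 5], .l [6, 2, 8], .l [0, 9, 9, 3, 4], .l [8, 4, 8, 8, 6, 3], .l [8, 4, 8], .l [0, 9, 9, 3, 6], .l [10, 6, 3, 3, 6, 3], .l [10, 6, 3], .l [0, 7, 7, 3, 6]]),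
([p 0 1, s 0 2, g, s 0 3, p 4 0, g, s 3 0, g, s 1 4, g, m 2 0, g], .lo 1, [.l [3, 1, 11, 9, 6, 6, 2, 3], .l [3, 1, 11, 9, 6], .l [8, 2, 8, 8, 6, 1], .l [4, 2, 9, 6, 3], .l [8, 4, 8, 8, 6, 3], .l [6, 4, 11, 6, 3], .l [10, 9, 4], .r 614 [1, 3, 5, 4] [1, 1, 1, 3], .l [6, 2, 8, 8, 4, 5], .l [8, 6, 11, 4, 1], .l [6, 2, 8, 8, 4, 5], .l [6, 2, 6, 6, 4, 5], .l [10, 8, 11, 2, 3], .l [6, 2, 6, 6, 4, 5], .y [1, 10], .l [6, 2, 6, 6, 4, 7], .l [10, 8, 11, 2, 3], .l [6, 2, 6, 6, 4, 7]]),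
([p 0 1, s 0 2, g, m 2 0, g, s 0 3, p 4 0, g, s 3 0, g, s 1 4, g], .lo 1, [.l [3, 1, 4, 2, 8, 8, 4, 5], .l [3, 1, 4, 2, 8], .l [10, 2, 10, 10, 8, 1], .y [1, 3], .l [10, 2, 10, 10, 8, 3], .l [3, 1, 4, 2, 8], .l [10, 2, 10, 10, 8, 3], .l [3, 1, 5, 3, 6], .l [10, 4, 10, 10, 8, 5], .l [3, 1, 7, 5, 8], .l [12, 11, 6], .l [3, 1, 7, 5, 6, 6, 2, 3], .l [8, 2, 10, 10, 6, 7], .l [3, 1, 9, 7, 8], .l [8, 2, 10, 10, 6, 7], .l [8, 2, 8, 8, 6, 7], .l [3, 1, 11, 9, 6], .l [8, 2, 8, 8, 6, 7]]),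
([p 0 1, s 0 2, g, s 0 3, p 4 0, g, s 3 0, g, m 2 0, g, s 1 4, g], .lo 1, [.l [3, 1, 9, 7, 8, 8, 2, 3], .l [3, 1, 9, 7, 8], .l [8, 2, 10, 10, 6, 1], .l [4, 2, 7, 4, 6], .l [8, 4, 10, 10, 6, 3], .l [6, 4, 9, 4, 8], .l [12, 11, 4], .r 614 [1, 3, 5, 4] [1, 1, 3, 1], .l [6, 2, 10, 10, 4, 5], .l [8, 6, 9, 2, 8], .l [6, 2, 10, 10, 4, 5], .y [1, 8], .l [6, 2, 10, 10, 4, 7], .l [8, 6, 9, 2, 8], .l [6, 2, 10, 10, 4, 7], .l [6, 2, 8, 8, 4, 7], .l [8, 6, 11, 4, 1], .l [6, 2, 8, 8, 4, 7]]),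
([p 0 1, s 0 0, g, s 0 2, p 3 0, g, s 2 0, g, s 1 3, g], .hi 1, [.l [0], .y [1], .l [8, 2, 8, 8, 6, 1], .l [8, 2, 8, 8, 6, 1], .r 616 [1, 4, 2, 3] [1, 1, 1, 1, 1], .l [6, 2, 6, 6, 4, 1], .l [8, 4, 8, 8, 6, 3], .l [10, 9, 4], .l [8, 4, 8, 8, 6, 3], .l [6, 2, 8, 8, 4, 5], .l [6, 2, 8, 8, 4, 5], .r 617 [1, 4, 2, 3] [1, 1, 1, 1, 1], .l [6, 2, 6, 6, 4, 5], .l [6, 2, 6, 6, 4, 5], .r 615 [1, 4, 2, 3] [1, 1, 1, 1, 1]]),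
([p 0 1, g, s 0 2, p 3 0, g, s 2 0, g, s 1 3, g], .top 1, [.r 602 [1, 2, 3] [1, 1, 1], .r 618 [1, 2, 3] [1, 1, 1, 1], .r 334 [] [8], .r 444 [] [8]]),
([p 7 1, g, s 0 2, p 3 0, g, p 4 3, g, p 5 4, g, p 0 5, g, s 6 0, g, s 2 6, p 8 0, g, p 0 7, g, s 1 8, g], .hi 3, [.l [12, 18, 5, 1, 9, 2, 15, 8, 12, 9], .l [0, 19, 19, 15, 10, 12, 11, 11, 9, 9, 7, 7, 5], .l [5, 2], .l [0, 17, 17, 13, 10, 10, 9, 9, 7, 7, 5, 5, 3], .l [5, 1, 17, 12, 1, 13, 4, 13], .l [3, 4], .l [5, 1], .l [0, 19, 12, 14, 17, 11, 8, 13], .l [3, 6], .l [7, 3], .l [0, 19, 10, 14, 17, 9, 6, 13], .l [3, 8], .l [9, 5], .y [3, 9, 7, 5], .l [0, 19, 8, 14, 17, 7, 4, 13], .l [3, 10], .l [11, 7], .l [0, 19, 6, 14, 17, 5, 2, 13], .l [3, 12], .l [13, 9], .l [3, 15, 4, 1,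 17, 6, 6, 1, 6, 2, 10, 5], .l [3, 15], .l [16, 12], .l [3, 15], .l [3, 17, 6, 1, 4, 10, 1, 11, 4, 11], .l [3, 17], .l [18, 14], .l [3, 19, 8, 1, 4, 12, 1, 13, 4, 5], .l [3, 19], .l [20, 16]]),
([p 6 1, g, s 0 2, p 3 0, g, p 4 3, g, p 0 4, g, s 5 0, g, s 2 5, p 7 0, g, p 0 6, g, s 1 7, g], .lo 7, [.l [2, 8, 8, 6, 6, 4, 7, 10, 4, 8, 6, 7], .l [2, 8], .l [1, 16, 14, 6], .y [3, 7, 5], .l [4, 16, 11, 3, 3, 1, 1, 9, 4, 9], .l [5, 8], .l [4, 7, 5, 14, 11, 3], .l [6, 9, 7, 14, 9, 1, 1, 9, 4, 9], .l [7, 8], .l [6, 9, 7, 7, 5, 12, 9, 1], .l [8, 16, 7, 13, 13, 11, 11, 9, 4, 9], .r 620 [1, 2, 3, 4, 8, 5, 6, 7] [1, 1, 1, 1, 1, 1, 1, 1, 1], .l [6, 7, 5, 5, 3, 12, 9, 1], .l [8, 14, 5, 11, 11, 9, 9, 7, 4, 7], .l [10, 16, 5, 11, 11, 9,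 9, 7, 4, 9], .l [12, 16, 3, 11, 13, 11, 11, 9, 9, 7, 4, 7], .l [6, 7, 5, 5, 3, 12, 9, 3], .l [0, 15, 15, 11, 11, 6, 6, 4, 4, 2, 5, 7, 3], .l [10, 16, 5, 13, 10, 8, 8, 6, 6, 4, 6, 7], .l [0, 17, 17, 11, 13, 8, 8, 6, 6, 4, 7, 9, 3], .l [4, 5, 3, 8, 3, 9, 11, 6, 3], .l [10, 14, 3, 11, 13, 11, 11, 9, 9, 7, 4, 7], .l [10, 14, 3, 11, 13, 11, 11, 9, 9, 7, 4, 7], .l [6, 7, 5, 5, 3, 10, 7, 10], .l [10, 14, 3, 11, 15, 13, 13, 11, 11, 9, 4, 5], .l [10, 14, 3, 11, 15, 13, 13, 11, 11, 9, 4, 5], .l [6, 7, 5, 5, 3, 10, 7, 12]]),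
([p 5 1, g, s 0 2, p 3 0, g, p 0 3, g, s 4 0, g, s 2 4, p 6 0, g, p 0 5, g, s 1 6, g], .lo 5, [.l [2, 6, 6, 4, 7, 10, 4, 8, 6, 7], .l [2, 6], .l [1, 14, 12, 4], .y [3, 5], .l [4, 14, 9, 1, 1, 9, 4, 9], .l [5, 6], .l [4, 7, 5, 12, 9, 1], .l [6, 14, 7, 11, 11, 9, 4, 9], .r 621 [1, 2, 3, 7, 4, 5, 6] [1, 1, 1, 1, 1, 1, 1, 1], .l [4, 5, 3, 12, 9, 1], .l [6, 12, 5, 9, 9, 7, 4, 7], .l [8, 14, 5, 9, 9, 7, 4, 9], .l [10, 14, 3, 9, 11, 9, 9, 7, 4, 7], .l [4, 5, 3, 12, 9, 3], .l [8, 12, 3, 9, 1, 6, 9, 2, 4, 1], .l [8, 14, 5, 11, 8, 6, 6, 4, 6, 7], .l [8, 14, 5, 11, 1, 6, 11, 2, 6, 1], .l [2, 8, 3, 9, 11, 6, 3], .l [8, 12, 3, 9, 11, 9, 9, 7, 4, 7], .l [8, 12, 3, 9, 11, 9, 9, 7, 4, 7], .l [4, 5, 3, 10, 7, 10], .l [8, 12, 3, 9, 13, 11,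 11, 9, 4, 5], .l [8, 12, 3, 9, 13, 11, 11, 9, 4, 5], .l [4, 5, 3, 10, 7, 12]]),
([p 4 1, g, s 0 2, p 0 0, g, s 3 0, g, s 2 3, p 5 0, g, p 0 4, g, s 1 5, g], .lo 3, [.l [0, 13, 13, 9, 4, 5], .l [2, 4], .l [1, 12, 10, 2], .y [3], .l [0, 13, 13, 9, 6, 1], .r 622 [1, 2, 6, 3, 4, 5] [1, 1, 1, 1, 1, 1, 1], .l [0, 13, 13, 9, 6, 1], .l [0, 11, 11, 7, 4, 1], .l [0, 13, 13, 9, 6, 3], .l [8, 12, 3, 7, 9, 7, 4, 7], .l [0, 13, 13, 9, 6, 3], .l [0, 11, 4, 7, 5, 8, 2, 3], .l [0, 13, 13, 7, 4, 7], .l [0, 13, 6, 9, 5, 10, 2, 5], .l [0, 13, 13, 7, 4, 7], .l [0, 13, 13, 7, 4, 9], .l [6, 10, 3, 7, 9, 7, 4, 7], .l [0, 13, 13, 7, 4, 9], .l [0, 11, 11, 7, 4, 9], .l [6, 10, 3, 7, 11, 9, 4, 5], .l [0, 11, 11, 7, 4, 9]]),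
([p 7 1, g, m 0 2, g, s 0 3, m 2 4, g, m 4 5, g, m 5 0, g, s 6 0, g, s 3 6, p 8 0, g, p 0 7, g, s 1 8, g], .hi 9, [.l [2, 10, 10, 8, 8, 6, 9, 12, 6, 10, 6, 9], .l [0, 19, 19, 15, 8, 10, 9, 9, 7, 7, 5, 7, 1], .l [2, 10], .y [2, 5, 7, 9], .l [0, 19, 8, 13, 15, 12, 15, 9, 6, 11], .l [0, 19, 19, 15, 8, 12, 11, 11, 9, 9, 7, 7, 1], .l [4, 10], .l [0, 17, 17, 13, 8, 10, 9, 9, 7, 7, 5, 5, 1], .l [6, 18, 11, 3, 3, 1, 1, 11, 6, 11], .l [0, 19, 19, 15, 10, 12, 11, 11, 7, 7, 5, 7, 1], .l [7, 10], .l [8, 11, 9, 16, 9, 1, 1, 11, 6, 11], .l [0, 19, 19, 15, 10, 12, 11, 11, 9, 9, 5, 7, 1], .l [9, 10], .l [10, 18, 7, 15, 15, 13, 13, 11, 6, 11], .l [8, 9, 7, 7, 5, 5, 2, 13, 11, 3], .l [0, 19, 19, 15, 10, 12, 11, 11, 9, 9, 7, 7, 5], .l [12,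 18, 5, 13, 13, 11, 11, 9, 6, 11], .l [8, 9, 7, 7, 5, 5, 2, 13, 11, 5], .l [0, 19, 19, 15, 10, 12, 11, 11, 9, 9, 7, 7, 3], .l [12, 18, 5, 15, 12, 10, 10, 8, 8, 6, 8, 9], .l [0, 19, 10, 6, 8, 15, 15, 6, 10, 12, 11, 11, 9], .l [0, 19, 19, 13, 8, 10, 9, 9, 7, 7, 5, 9, 3], .l [0, 17, 8, 6, 6, 13, 13, 4, 8, 10, 9, 9, 7], .l [12, 16, 3, 13, 15, 13, 13, 11, 11, 9, 6, 9], .l [0, 19, 10, 8, 17, 13, 8, 10, 9, 9, 7, 7, 5], .l [0, 19, 19, 13, 8, 10, 9, 9, 7, 7, 5, 11, 5], .l [12, 16, 3, 13, 17, 15, 15, 13, 13, 11, 6, 7], .l [0, 17, 17, 13, 8, 10, 9, 9, 7, 7, 5, 5, 9], .l [0, 17, 17, 13, 8, 10, 9, 9, 7, 7, 5, 11, 5]]),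
([p 6 1, g, m 0 2, g, s 0 3, m 2 4, g, m 4 0, g, s 5 0, g, s 3 5, p 7 0, g, p 0 6, g, s 1 7, g], .hi 7, [.l [2, 8, 8, 6, 9, 12, 6, 10, 6, 9], .l [1, 16, 14, 6], .l [2, 8], .y [2, 5, 7], .l [4, 8, 8, 6, 9, 12, 4, 10, 8, 9], .l [3, 7, 5, 14, 12, 4], .l [4, 8], .l [3, 5, 3, 12, 10, 2, 2, 0, 3], .l [6, 16, 9, 1, 1, 11, 6, 11], .l [6, 9, 7, 7, 4, 13, 11, 1], .l [7, 8], .l [8, 16, 7, 13, 13, 11, 6, 11], .l [6, 7, 5, 5, 2, 13, 11, 3], .r 624 [1, 2, 3, 4, 8, 5, 6, 7] [1, 1, 1, 1, 1, 1, 1, 1, 1], .l [10, 16, 5, 11, 11, 9, 6, 11], .l [6, 7, 5, 5, 2, 13, 11, 5], .l [12, 16, 3, 11, 13, 11, 11, 9, 6, 9], .l [10, 16, 5, 13, 10, 8, 8, 6, 8, 9], .l [0, 17, 10, 6, 8, 13, 13, 6, 8, 10, 9, 9, 5], .l [11, 6, 8, 7, 7, 5, 12, 4, 11, 5, 7, 9,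 7], .l [0, 15, 8, 6, 6, 11, 11, 4, 6, 8, 7, 7, 5], .l [10, 14, 3, 11, 13, 11, 11, 9, 6, 9], .l [4, 10, 3, 13, 9, 2, 7, 5, 8], .l [10, 14, 3, 11, 13, 11, 11, 9, 6, 9], .l [10, 14, 3, 11, 15, 13, 13, 11, 6, 7], .l [4, 10, 3, 15, 11, 2, 7, 5, 10], .l [10, 14, 3, 11, 15, 13, 13, 11, 6, 7]]),
([p 5 1, g, s 0 2, m 0 3, g, m 3 0, g, s 4 0, g, s 2 4, p 6 0, g, p 0 5, g, s 1 6, g], .lo 3, [.l [8, 14, 5, 1, 9, 2, 11, 4, 8, 5], .l [5, 2], .r 625 [1, 7, 2, 3, 4, 5, 6] [1, 1, 1, 1, 1, 1, 1, 1], .l [5, 1, 13, 8, 1, 9, 4, 9], .l [5, 1], .l [3, 4], .y [3, 5], .l [0, 15, 8, 10, 13, 7, 4, 9], .l [7, 3], .l [3, 6], .l [0, 13, 4, 4, 4, 6, 9, 3, 0, 5], .l [0, 15, 6, 10, 13, 5, 2, 9], .l [9, 5], .l [3, 8], .l [10, 6], .l [3, 11, 4, 1, 13, 6,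 6, 1, 6, 2, 6, 1], .l [12, 8], .l [3, 11], .l [3, 13, 6, 1, 4, 6, 1, 7, 4, 7], .l [14, 10], .l [3, 13], .l [3, 15, 8, 1, 4, 8, 1, 9, 4, 5], .l [16, 12], .l [3, 15]]),
([p 4 1, g, s 0 2, m 0 0, g, s 3 0, g, s 2 3, p 5 0, g, p 0 4, g, s 1 5, g], .hi 3, [.l [0, 13, 13, 9, 4, 5], .l [1, 12, 10, 2], .l [2, 4], .c, .y [3], .l [0, 13, 13, 9, 6, 1], .l [0, 13, 13, 9, 6, 1], .r 626 [1, 2, 6, 3, 4, 5] [1, 1, 1, 1, 1, 1, 1], .l [0, 13, 13, 9, 6, 3], .l [0, 13, 13, 9, 6, 3], .l [8, 12, 3, 7, 9, 7, 4, 7], .l [0, 13, 13, 7, 4, 7], .l [0, 13, 13, 7, 4, 7], .l [0, 13, 6, 9, 5, 10, 2, 5], .l [0, 11, 11, 7, 4, 7], .l [0, 13, 13, 7, 4, 9], .l [0, 13, 13, 7, 4, 9], .l [6, 10, 3, 7, 9, 7, 4, 7], .l [0, 11, 11, 7, 4, 9], .l [0, 11, 11, 7, 4,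 9], .l [6, 10, 3, 7, 11, 9, 4, 5]]),
([p 5 1, g, s 0 2, s 0 3, g, m 3 0, g, s 4 0, g, s 2 4, p 6 0, g, p 0 5, g, s 1 6, g], .lo 3, [.l [0, 15, 15, 11, 6, 7], .l [0, 15, 15, 11, 6, 7], .l [7, 1, 4, 2, 7, 3, 10, 10, 6, 3], .l [0, 15, 15, 11, 8, 1], .l [5, 1, 13, 8, 1, 9, 4, 9], .l [0, 15, 15, 11, 8, 1], .y [3, 5], .l [0, 15, 15, 11, 8, 3], .l [5, 1, 13, 8, 1, 9, 4, 9], .l [0, 15, 15, 11, 8, 3], .l [0, 13, 13, 9, 6, 3], .l [0, 15, 15, 11, 8, 5], .l [5, 1, 13, 8, 3, 9, 4, 9], .l [0, 15, 15, 11, 8, 5], .l [0, 13, 4, 9, 7, 1, 8, 4, 1, 6, 4, 1], .l [0, 15, 15, 9, 6, 9], .l [0, 15, 6, 11, 7, 1, 10, 6, 1, 8, 4, 1], .l [0, 15, 15, 9, 6, 9], .l [0, 15, 15, 9, 6, 11], .l [0, 15, 6, 11, 5, 12, 2, 9], .l [0, 15, 15, 9, 6, 11], .l [0,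 13, 13, 9, 6, 11], .l [5, 1, 15, 13, 5, 3, 8, 8, 4, 1], .l [0, 13, 13, 9, 6, 11]]),
([p 4 1, g, s 0 2, s 0 0, g, s 3 0, g, s 2 3, p 5 0, g, p 0 4, g, s 1 5, g], .hi 3, [.l [0, 13, 13, 9, 4, 5], .l [8, 12, 3, 9, 4, 2, 6, 7], .l [0, 13, 13, 9, 4, 5], .c, .y [3], .l [0, 13, 13, 9, 6, 1], .l [0, 13, 13, 9, 6, 1], .r 628 [1, 2, 6, 3, 4, 5] [1, 1, 1, 1, 1, 1, 1], .l [0, 13, 13, 9, 6, 3], .l [0, 13, 13, 9, 6, 3], .l [0, 13, 4, 6, 11, 5, 2, 7], .l [0, 13, 13, 7, 4, 7], .l [0, 13, 13, 7, 4, 7], .l [0, 13, 6, 9, 5, 10, 2, 5], .l [0, 11, 11, 7, 4, 7], .l [0, 13, 13, 7, 4, 9], .l [0, 13, 13, 7, 4, 9], .l [0, 13, 6, 9, 3, 10, 2, 7], .l [0, 11, 11, 7, 4, 9], .l [0, 11, 11, 7, 4, 9], .l [6, 10, 3, 7, 11, 9, 4, 5]]),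
([p 4 1, g, s 0 2, g, s 3 0, g, s 2 3, p 5 0, g, p 0 4, g, s 1 5, g], .top 3, [.l [0, 9, 9, 5, 2, 1], .r 629 [1, 2, 3, 4, 5] [1, 1, 1, 1, 1, 1], .r 623 [1, 2, 3, 4, 5] [1, 1, 1, 1, 1, 1], .r 627 [1, 2, 3, 4, 5] [1, 1, 1, 1, 1, 1]]),
([p 0 1, s 0 2, g, m 2 0, g, s 0 3, p 4 0, g, s 1 4, g, s 3 0, g], .lo 1, [.l [3, 1, 4, 2, 6, 6, 4, 5], .l [3, 1, 4, 2, 6], .l [10, 9, 1], .y [1, 3], .l [12, 4, 1, 1, 8, 3], .l [3, 1, 4, 2, 6], .l [10, 9, 3], .l [3, 1, 5, 3, 4], .l [12, 6, 3, 3, 8, 5], .l [3, 1, 7, 5, 6], .l [10, 9, 6], .l [12, 6, 1, 1, 8, 5], .l [3, 1, 9, 7, 4], .l [8, 7, 8], .l [3, 1, 9, 7, 4, 4, 2, 3], .l [10, 4, 1, 1, 6, 7], .l [3, 1, 11, 9, 4], .l [8, 7, 10]]),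
([p 0 1, s 0 0, g, s 0 2, p 3 0, g, s 1 3, g, s 2 0, g], .hi 1, [.l [0], .y [1], .l [10, 4, 1, 1, 6, 1], .l [8, 7, 1], .r 631 [1, 4, 2, 3] [1, 1, 1, 1, 1], .l [8, 4, 1, 1, 4, 1], .l [10, 6, 3, 3, 6, 3], .l [8, 7, 4], .l [10, 6, 3, 3, 6, 3], .l [10, 6, 1, 1, 6, 3], .l [6, 5, 6], .l [10, 6, 1, 1, 6, 3], .l [8, 4, 1, 1, 4, 5], .l [6, 5, 8], .l [8, 4, 1, 8, 2, 5]]),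
([p 0 1, g, s 0 2, p 3 0, g, s 1 3, g, s 2 0, g], .top 1, [.r 604 [1, 3] [1, 3], .r 632 [1, 2, 3] [1, 1, 1, 1], .r 334 [] [8], .r 444 [] [8]]),
([p 5 1, g, m 0 2, g, s 2 0, p 4 0, g, s 0 3, g, s 3 4, p 6 0, g, p 0 5, g, s 1 6, g], .hi 4, [.l [6, 3, 13, 7, 3, 10, 1, 10, 4, 1], .l [5, 14, 8, 11, 1, 9, 3], .l [3, 14, 10, 1, 11, 9, 3], .y [2, 4], .l [10, 14, 3, 11, 4, 1, 4, 2, 6, 7], .l [5, 14, 8, 11, 1, 9, 3], .l [6, 1, 13, 7, 3], .l [0, 15, 15, 11, 1, 3, 4, 1], .l [3, 14, 10, 11, 8, 9, 4], .l [1, 14, 12, 1, 4, 2, 5], .l [8, 12, 3, 7, 8, 8, 6, 7], .l [3, 14, 10, 11, 6, 9, 6, 9], .l [3, 14, 10, 11, 6, 9, 6], .l [1, 14, 12, 1, 6, 4, 5], .l [0, 15, 3, 9, 3, 10, 1, 10, 4, 1], .l [3, 14, 10, 11, 3, 9, 3], .l [1, 14, 12, 1, 9, 7,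 3], .l [3, 12, 8, 9, 1, 7, 3], .l [0, 15, 1, 9, 3, 10, 1, 10, 4, 1], .l [3, 12, 8, 11, 1, 9, 3], .l [1, 12, 10, 1, 11, 9, 3], .l [6, 12, 5, 1, 13, 4, 10, 7], .l [3, 12, 8, 13, 3, 11, 3], .l [1, 12, 10, 1, 13, 11, 3]]),
([p 5 1, s 0 0, g, s 4 0, p 3 0, g, s 0 2, g, s 2 3, p 6 0, g, m 0 4, g, p 0 5, g, s 1 6, g], .hi 1, [.y [1], .l [12, 1, 16, 16, 11, 1, 13, 2, 8, 3], .l [2, 15, 12, 12, 13], .l [5, 12, 4, 1, 8, 1, 10, 7, 2, 8], .l [3, 12, 6, 8, 12, 11, 2, 11], .l [5, 15, 9, 9, 13], .l [0, 16, 13, 9, 14, 12, 1, 8, 9, 3], .l [0, 14, 8, 1, 6, 10, 4, 4, 2, 5], .l [3, 12, 4, 8, 12, 11, 4, 11], .l [7, 15, 7, 7, 13], .l [0, 16, 10, 3, 8, 12, 4, 6, 4, 7], .l [10, 15, 4, 4, 13, 13, 11, 1], .l [10, 15, 4, 4, 13], .l [0, 16, 13, 9,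 11, 12, 1, 11, 7, 1], .l [2, 13, 10, 7, 12, 2, 3, 1, 7, 1], .l [12, 15, 2, 2, 13, 13, 9, 1], .l [12, 15, 2, 2, 13], .l [2, 15, 12, 7, 14, 2, 3, 1, 9, 1], .l [12, 13, 0, 0, 11], .l [17, 16, 13, 3, 9, 3], .l [17, 16, 13], .l [0, 16, 10, 1, 6, 12, 4, 6, 4, 7], .l [15, 14, 15, 5, 11, 3], .l [15, 14, 15], .l [10, 13, 2, 4, 14, 12, 9, 9, 7, 1]]),
([p 4 1, s 0 0, g, s 0 0, p 3 0, g, s 0 2, g, s 2 3, p 5 0, g, p 0 4, g, s 1 5, g], .lo 3, [.l [7, 11, 3, 8, 10, 2, 7, 1], .l [9, 13, 3, 10, 12, 2, 9, 1], .l [5, 1, 12, 7, 3], .r 634 [1, 6, 2, 3, 4, 5] [2, 1, 1, 1, 1, 1, 1], .y [3], .l [4, 0, 6], .l [0, 14, 14, 10, 1, 3, 4, 1], .l [6, 2, 8], .l [9, 13, 3, 6, 7], .l [8, 4, 8, 1, 12, 12, 8, 1], .l [8, 4, 8], .l [9, 13, 3, 6, 9], .l [7,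 11, 3, 6, 4], .l [7, 13, 5, 10, 12, 2, 9, 4], .l [7, 13, 5, 8, 4], .r 635 [1, 2, 3, 6, 4, 5] [1, 1, 1, 1, 1, 1, 1], .l [5, 11, 5, 1, 10, 2, 7, 8], .l [13, 9, 3], .l [7, 11, 3, 6, 9], .l [5, 11, 5, 1, 12, 4, 9, 6], .l [15, 11, 3], .l [7, 11, 3, 6, 11]]),
([p 5 0, g, p 1 0, g, p 2 1, g, p 0 2, p 4 0, g, s 0 3, g, s 3 4, p 6 0, g, p 0 5, g, s 0 6, g], .lo 6, [.l [0, 5], .l [10, 2, 6, 14, 5, 1, 9, 2, 6, 9], .l [2, 7], .l [1, 16, 14, 5], .y [2, 6, 4], .l [10, 2, 4, 14, 5, 1, 11, 2, 8, 9], .l [4, 7], .l [3, 6, 4, 14, 12, 3], .l [7, 16, 8, 13, 1, 11, 3], .l [6, 7], .l [5, 8, 6, 6, 4, 13, 11, 1], .l [10, 14, 3, 11, 4, 5, 4, 4, 2, 6, 7, 3, 1], .l [5, 16, 10, 2, 6, 4, 11], .l [7, 16, 8, 1, 12, 15, 7, 4, 11], .l [5, 6, 4, 4, 2, 13,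 11, 3], .l [5, 16, 10, 4, 6, 2, 11], .l [8, 11, 8, 14, 8, 4, 4, 2, 9], .l [5, 6, 4, 4, 2, 13, 11, 5], .l [8, 12, 9, 12, 6, 1, 1, 2, 7], .l [10, 14, 9, 14, 8, 3, 10], .l [8, 14, 11, 14, 8, 1, 1, 4, 9], .l [5, 6, 4, 4, 2, 13, 11, 8], .l [5, 14, 8, 13, 1, 11, 3], .l [10, 16, 11, 11, 9, 9, 7, 5, 3, 8, 1, 6, 7], .l [5, 6, 4, 4, 2, 11, 9, 10], .l [5, 14, 8, 15, 3, 13, 3], .l [10, 14, 3, 11, 1, 10, 11, 13, 9, 9, 7, 7, 5], .l [5, 6, 4, 4, 2, 11, 9, 12]]),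
([p 4 0, g, p 1 0, g, p 0 1, p 3 0, g, s 0 2, g, s 2 3, p 5 0, g, p 0 4, g, s 0 5, g], .hi 2, [.l [4, 1, 13, 9, 11, 9, 3], .r 637 [6, 1, 2, 3, 4, 5] [1, 1, 1, 1, 1, 1, 1, 1], .l [4, 1], .l [8, 14, 5, 1, 8, 1, 11, 5, 2, 7], .l [2, 3], .l [4, 1], .y [2, 4], .l [7, 4, 4, 2, 7], .l [2, 6], .l [7, 4], .l [7, 4, 4, 2, 5], .l [9, 6, 6, 4, 7], .l [2, 8], .l [9, 6], .l [12, 9, 9, 7, 3], .l [2, 11], .l [12, 9], .l [2, 11], .l [14, 11, 11, 9, 3], .l [2, 13], .l [14, 11], .l [14, 11, 11, 9, 3], .l [16, 13, 13, 11, 3], .l [2, 15], .l [16, 13]]),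
([p 3 0, g, p 0 0, p 2 0, g, s 0 1, g, s 1 2, p 4 0, g, p 0 3, g, s 0 4, g], .hi 2, [.l [4, 1, 11, 7, 3], .r 638 [5, 1, 2, 3, 4] [1, 1, 1, 1, 1, 1, 1], .l [4, 1], .y [2], .l [5, 2, 7], .l [2, 4], .l [5, 2], .l [4, 10, 5, 1, 1, 6, 5], .l [7, 4, 7], .l [2, 6], .l [7, 4], .l [6, 12, 5, 7, 3], .l [2, 9], .l [10, 7], .l [2, 9], .l [6, 10, 3, 5, 8], .l [2, 11], .l [12, 9], .l [6, 10, 3, 5, 8], .l [6, 10, 3, 5, 10], .l [2, 13], .l [14, 11]])]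

def d02_2 : List (List Item × Qry × List Rf) := [
([p 5 0, g, m 0 1, g, m 1 2, g, m 2 0, p 4 0, g, s 0 3, g, s 3 4, p 6 0, g, p 0 5, g, s 0 6, g], .hi 6, [.l [10, 2, 6, 14, 5, 1, 9, 2, 6, 9], .l [1, 16, 14, 5], .l [2, 7], .y [2, 4, 6], .l [10, 2, 4, 14, 5, 1, 11, 2, 8, 9], .l [3, 6, 4, 14, 12, 3], .l [4, 7], .l [7, 16, 8, 13, 1, 11, 3], .l [5, 8, 6, 6, 4, 13, 11, 1], .l [6, 7], .l [5, 16, 10, 2, 6, 4, 11], .l [5, 6, 4, 4, 2, 13, 11, 3], .l [7, 16, 8, 1, 12, 15, 7, 4, 11], .l [2, 14, 11, 1, 11, 13, 9, 1, 4, 2, 2, 0, 1], .l [5, 16, 10, 4, 6, 2, 11], .l [5, 6, 4, 4, 2, 13, 11, 5], .l [8, 11, 8, 14, 8, 4, 4, 2, 9], .l [10, 14, 9, 14, 8, 3, 10], .l [5, 6, 4, 4, 2, 13, 11, 8], .l [8, 14, 11, 14, 8, 1, 1, 4, 9], .l [5, 6, 4,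 4, 2, 11, 9, 8], .l [5, 14, 8, 13, 1, 11, 3], .l [5, 6, 4, 4, 2, 11, 9, 10], .l [10, 16, 11, 11, 9, 9, 7, 5, 3, 8, 1, 6, 7], .l [5, 14, 8, 13, 1, 11, 3], .l [5, 14, 8, 15, 3, 13, 3], .l [5, 6, 4, 4, 2, 11, 9, 12], .l [10, 14, 3, 11, 1, 10, 11, 13, 9, 9, 7, 7, 5]]),
([p 4 0, g, m 0 1, g, m 1 0, p 3 0, g, s 0 2, g, s 2 3, p 5 0, g, p 0 4, g, s 0 5, g], .lo 2, [.l [2, 1], .l [4, 1, 13, 9, 11, 9, 3], .l [4, 1], .r 640 [6, 1, 2, 3, 4, 5] [1, 1, 1, 1, 1, 1, 1, 1], .l [8, 14, 5, 1, 8, 1, 11, 5, 2, 7], .l [4, 1], .l [2, 3], .y [2, 4], .l [5, 2], .l [7, 4, 4, 2, 7], .l [7, 4], .l [2, 6], .l [9, 6, 6, 4, 7], .l [9, 6], .l [2, 8], .l [10, 7], .l [12, 9, 9, 7, 3], .l [12, 9], .l [2, 11], .l [14, 11, 11, 9, 3], .l [14, 11], .l [2, 13],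 .l [16, 13, 13, 11, 3], .l [16, 13], .l [2, 15]]),
([p 3 0, g, m 0 0, p 2 0, g, s 0 1, g, s 1 2, p 4 0, g, p 0 3, g, s 0 4, g], .lo 2, [.l [2, 1], .l [4, 1, 11, 7, 3], .l [4, 1], .r 641 [5, 1, 2, 3, 4] [1, 1, 1, 1, 1, 1, 1], .y [2], .l [3, 0], .l [5, 2, 7], .l [5, 2], .l [2, 4], .l [7, 4, 7], .l [7, 4], .l [2, 6], .l [8, 5], .l [6, 12, 5, 7, 3], .l [10, 7], .l [2, 9], .l [6, 10, 3, 5, 8], .l [12, 9], .l [2, 11], .l [6, 10, 3, 5, 10], .l [14, 11], .l [2, 13]]),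
([p 4 1, s 0 0, p 3 0, g, s 0 2, g, s 2 3, p 5 0, g, p 0 4, g, s 1 5, g], .hi 1, [.y [1], .l [0, 12, 12, 8, 1, 3, 4, 1], .l [3, 11, 7, 7, 9], .l [4, 2, 6], .l [5, 9, 3, 4, 5, 5, 3, 4], .l [6, 4, 6, 1, 10, 10, 6, 1], .l [5, 11, 5, 5, 9], .l [6, 4, 6], .l [8, 11, 2, 2, 9, 9, 7, 1], .l [8, 11, 2, 2, 9], .l [5, 11, 5, 6, 2], .l [8, 9, 0, 0, 7], .l [3, 9, 5, 1, 8, 2, 5, 6], .l [5, 9, 3, 4, 7], .l [11, 9, 3], .l [3, 9, 5, 1, 10, 4, 7, 4], .l [5, 9, 3, 4, 9], .l [13, 11, 3]]),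
([p 4 1, s 0 0, g, p 3 0, g, s 0 2, g, s 2 3, p 5 0, g, p 0 4, g, s 1 5, g], .bot 2, [.r 643 [1, 2, 3, 4, 5] [1, 1, 1, 1, 1], .r 636 [1, 2, 3, 4, 5] [1, 1, 1, 1, 1, 1], .r 639 [2, 3, 4, 5] [2, 1, 1, 1, 1, 1], .r 642 [2, 3, 4, 5] [2, 1, 1, 1, 1, 1]]),
([p 4 1, g, p 3 0, g, s 0 2, g, s 2 3, p 5 0, g, p 0 4, g, s 1 5, g], .top 1, [.l [4, 8, 3, 3, 6], .r 644 [1, 2, 3, 4, 5] [1, 1, 1, 1, 1, 1], .r 334 [] [12], .r 444 [] [12]]),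
([p 6 1, g, s 0 2, p 3 0, g, p 4 3, g, p 0 4, g, p 5 0, g, s 2 5, p 7 0, g, p 0 6, g, s 1 7, g], .hi 3, [.l [10, 16, 5, 1, 9, 2, 13, 6, 10, 7], .l [12, 16, 3, 13, 6, 11, 12, 8, 5, 5, 3, 3, 1], .l [5, 2], .l [5, 11, 7, 3, 8, 11, 4, 9, 0, 6, 7, 3, 1], .l [5, 1, 15, 10, 1, 11, 4, 11], .l [3, 4], .l [5, 1], .l [0, 17, 10, 12, 15, 9, 6, 11], .l [3, 6], .l [7, 3], .y [3, 7, 5], .l [0, 17, 8, 12, 15, 7, 4, 11], .l [3, 8], .l [9, 5], .l [0, 17, 6, 12, 15, 5, 2, 11], .l [3, 10], .l [11, 7], .l [3, 13, 4, 1, 15, 6, 6, 1, 6, 2, 8, 3], .l [3, 13], .l [14, 10], .l [3, 13], .l [3, 15, 6, 1, 4, 8, 1, 9, 4, 9], .l [3, 15], .l [16, 12], .l [3, 17, 8, 1, 4, 10, 1, 11, 4, 5], .l [3, 17], .l [18, 14]]),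
([p 5 1, g, s 0 2, p 3 0, g, p 0 3, g, p 4 0, g, s 2 4, p 6 0, g, p 0 5, g, s 1 6, g], .lo 5, [.l [2, 6, 15, 10, 1, 11, 6, 3], .l [2, 6], .l [1, 14, 12, 4], .y [3, 5], .l [4, 14, 9, 1, 1, 9, 4, 9], .l [5, 6], .l [4, 7, 5, 12, 9, 1], .l [6, 14, 7, 11, 11, 9, 4, 9], .r 646 [1, 2, 3, 7, 4, 5, 6] [1, 1, 1, 1, 1, 1, 1, 1], .l [4, 5, 3, 12, 9, 1], .l [8, 12, 3, 9, 9, 7, 7, 5, 4], .l [8, 14, 5, 9, 9, 7, 4, 9], .l [10, 14, 3, 9, 11, 9, 9, 7, 4], .l [2, 10, 10, 6, 1, 6, 10, 6, 1], .l [0, 13, 13, 9, 9, 4, 4, 2, 5, 5, 3, 5, 3], .l [8, 14, 5, 11, 8, 6, 6, 4, 6, 7], .l [0, 15, 15, 9, 11, 6, 6, 4, 7, 7, 5, 7, 3], .l [2, 8, 3, 9, 11, 6, 3], .l [8, 12, 3, 9, 11, 9, 9, 7, 4, 7], .l [8, 12, 3, 9, 11, 9, 9, 7, 4], .l [4, 5, 3, 10, 7, 10],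 .l [8, 12, 3, 9, 13, 11, 11, 9, 4, 5], .l [8, 12, 3, 9, 13, 11, 11, 9, 4], .l [4, 5, 3, 10, 7, 12]]),
([p 4 1, g, s 0 2, p 0 0, g, p 3 0, g, s 2 3, p 5 0, g, p 0 4, g, s 1 5, g], .lo 3, [.l [0, 13, 13, 9, 4, 5], .l [2, 4], .l [1, 12, 10, 2], .y [3], .l [0, 13, 13, 9, 6, 1], .r 647 [1, 2, 6, 3, 4, 5] [1, 1, 1, 1, 1, 1, 1], .l [0, 13, 13, 9, 6, 1], .l [6, 10, 3, 7, 7, 5, 4], .l [0, 13, 13, 9, 6, 3], .l [8, 12, 3, 7, 9, 7, 4], .l [0, 13, 13, 9, 6, 3], .l [0, 11, 4, 7, 5, 8, 2, 3], .l [0, 13, 13, 7, 4, 7], .l [0, 13, 6, 9, 5, 10, 2, 5], .l [0, 13, 13, 7, 4, 7], .l [0, 13, 13, 7, 4, 9], .l [6, 10, 3, 7, 9, 7, 4], .l [0, 13, 13, 7, 4, 9], .l [0, 11, 11, 7, 4, 9], .l [6, 10, 3, 7, 11, 9, 4], .l [0, 11, 11, 7, 4, 9]]),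
([p 6 1, g, m 0 2, g, s 0 3, m 2 4, g, m 4 0, g, p 5 0, g, s 3 5, p 7 0, g, p 0 6, g, s 1 7, g], .hi 7, [.l [2, 8, 17, 10, 1, 13, 8, 3], .l [0, 17, 17, 13, 6, 8, 7, 7, 5, 7, 1, 5, 1], .l [2, 8], .y [2, 5, 7], .l [4, 8, 17, 12, 3, 13, 6, 3], .l [0, 17, 17, 13, 6, 10, 9, 9, 7, 7, 1, 5, 1], .l [4, 8], .l [0, 15, 15, 11, 6, 8, 7, 7, 5, 5, 1, 3, 1], .l [6, 16, 9, 1, 1, 11, 6, 11], .l [0, 17, 17, 13, 8, 10, 9, 9, 5, 7, 1, 5, 1], .l [7, 8], .l [8, 16, 7, 13, 13, 11, 6, 11], .l [6, 7, 5, 5, 2, 13, 11, 3], .l [12, 16, 3, 13, 6, 11, 12, 8, 5, 5, 3, 3, 1], .l [10, 16, 5, 11, 11, 9, 6, 11], .l [4, 12, 12, 8, 1, 8, 6, 2, 10, 8, 3], .l [9, 16, 6, 1, 11, 11, 9, 6, 11, 1, 3, 5, 3], .l [4, 10, 3, 11, 7, 2, 7, 2, 10, 3, 4, 1], .l [0, 17,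 10, 6, 8, 13, 13, 6, 8, 10, 9, 9, 5], .l [0, 17, 17, 11, 6, 8, 7, 7, 5, 9, 3, 7, 1], .l [0, 15, 8, 6, 6, 11, 11, 4, 6, 8, 7, 7, 5], .l [4, 10, 3, 13, 9, 2, 9, 4, 10, 1, 2, 5], .l [4, 10, 3, 13, 9, 2, 7, 5, 8], .l [0, 17, 17, 11, 6, 8, 7, 7, 5, 11, 5, 9, 1], .l [10, 14, 3, 11, 15, 13, 13, 11, 6, 7], .l [4, 10, 3, 15, 11, 2, 7, 5, 10], .l [0, 15, 15, 11, 6, 8, 7, 7, 5, 11, 5, 9, 1]]),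
([p 5 1, g, s 0 2, m 0 3, g, m 3 0, g, p 4 0, g, s 2 4, p 6 0, g, p 0 5, g, s 1 6, g], .lo 3, [.l [8, 14, 5, 1, 9, 2, 11, 4, 8, 5], .l [5, 2], .r 649 [1, 7, 2, 3, 4, 5, 6] [1, 1, 1, 1, 1, 1, 1, 1], .l [5, 1, 13, 8, 1, 9, 4, 9], .l [5, 1], .l [3, 4], .y [3, 5], .l [0, 15, 8, 10, 13, 7, 4, 9], .l [7, 3], .l [3, 6], .l [7, 3], .l [0, 15, 6, 10, 13, 5, 2, 9], .l [9, 5], .l [3, 8], .l [10, 6], .l [3, 11, 4, 1, 13, 6, 6, 1, 6, 2, 6, 1], .l [12, 8], .l [3, 11], .l [3, 13, 6, 1, 4, 6, 1, 7, 4, 7], .l [14, 10], .l [3, 13], .l [3, 15, 8, 1, 4, 8, 1, 9, 4, 5], .l [16, 12], .l [3, 15]]),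
([p 4 1, g, s 0 2, m 0 0, g, p 3 0, g, s 2 3, p 5 0, g, p 0 4, g, s 1 5, g], .hi 3, [.l [0, 13, 13, 9, 4, 5], .l [1, 12, 10, 2], .l [2, 4], .c, .y [3], .l [0, 13, 13, 9, 6, 1], .l [0, 13, 13, 9, 6, 1], .r 650 [1, 2, 6, 3, 4, 5] [1, 1, 1, 1, 1, 1, 1], .l [0, 13, 13, 9, 6, 3], .l [0, 13, 13, 9, 6, 3], .l [8, 12, 3, 7, 9, 7, 4], .l [0, 13, 13, 7, 4, 7], .l [0, 13, 13, 7, 4, 7], .l [0, 13, 6, 9, 5, 10, 2, 5], .l [0, 11, 11, 7, 4, 7], .l [0, 13, 13, 7, 4, 9], .l [0, 13, 13, 7, 4, 9], .l [6, 10, 3, 7, 9, 7, 4], .l [0, 11, 11, 7, 4, 9], .l [0, 11, 11, 7, 4, 9], .l [6, 10, 3, 7, 11, 9, 4]]),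
([p 5 1, g, s 0 2, s 0 3, g, m 3 0, g, p 4 0, g, s 2 4, p 6 0, g, p 0 5, g, s 1 6, g], .lo 3, [.l [0, 15, 15, 11, 6, 7], .l [0, 15, 15, 11, 6, 7], .l [8, 14, 5, 1, 11, 1, 4, 2, 6, 7], .l [0, 15, 15, 11, 8, 1], .l [5, 1, 13, 8, 1, 9, 4, 9], .l [0, 15, 15, 11, 8, 1], .y [3, 5], .l [0, 15, 15, 11, 8, 3], .l [5, 1, 13, 8, 1, 9, 4, 9], .l [0, 15, 15, 11, 8, 3], .l [5, 1, 11, 6, 1, 7, 4, 7], .l [0, 15, 15, 11, 8, 5], .l [5, 1, 13, 8, 3, 9, 4, 9], .l [0, 15, 15, 11, 8, 5], .l [0, 13, 4, 9, 7, 1, 8, 4, 1, 6, 4, 1], .l [0, 15, 15, 9, 6, 9], .l [0, 15, 6, 11, 7, 1, 10, 6, 1, 8, 4, 1], .l [0, 15, 15, 9, 6, 9], .l [0, 15, 15, 9, 6, 11], .l [0, 15, 6, 11, 5, 12, 2, 9], .l [0, 15, 15, 9, 6, 11], .l [0, 13, 13, 9, 6, 11], .l [6, 12, 5,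 1, 9, 1, 11, 9, 4, 5], .l [0, 13, 13, 9, 6, 11]]),
([p 4 1, g, s 0 2, s 0 0, g, p 3 0, g, s 2 3, p 5 0, g, p 0 4, g, s 1 5, g], .hi 3, [.l [0, 13, 13, 9, 4, 5], .l [8, 12, 3, 9, 4, 2, 6, 7], .l [0, 13, 13, 9, 4, 5], .c, .y [3], .l [0, 13, 13, 9, 6, 1], .l [0, 13, 13, 9, 6, 1], .r 652 [1, 2, 6, 3, 4, 5] [1, 1, 1, 1, 1, 1, 1], .l [0, 13, 13, 9, 6, 3], .l [0, 13, 13, 9, 6, 3], .l [8, 12, 3, 7, 9, 7, 4, 7], .l [0, 13, 13, 7, 4, 7], .l [0, 13, 13, 7, 4, 7], .l [0, 13, 6, 9, 5, 10, 2, 5], .l [0, 11, 11, 7, 4, 7], .l [0, 13, 13, 7, 4, 9], .l [0, 13, 13, 7, 4, 9], .l [0, 13, 6, 9, 3, 10, 2, 7], .l [0, 11, 11, 7, 4, 9], .l [0, 11, 11, 7, 4, 9], .l [6, 10, 3, 7, 11, 9, 4, 5]]),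
([p 4 1, g, s 0 2, g, p 3 0, g, s 2 3, p 5 0, g, p 0 4, g, s 1 5, g], .top 3, [.l [0, 9, 9, 5, 2, 1], .r 653 [1, 2, 3, 4, 5] [1, 1, 1, 1, 1, 1], .r 648 [1, 2, 3, 4, 5] [1, 1, 1, 1, 1, 1], .r 651 [1, 2, 3, 4, 5] [1, 1, 1, 1, 1, 1]]),
([p 7 1, g, s 6 0, m 0 2, g, m 2 3, g, m 3 4, g, m 4 0, g, s 0 5, g, s 5 6, p 8 0, g, p 0 7, g, s 1 8, g], .lo 3, [.l [12, 18, 5, 1, 9, 2, 15, 8, 12, 9], .l [5, 2], .l [0, 19, 19, 15, 10, 12, 11, 11, 9, 9, 7, 7, 5], .l [0, 17, 17, 13, 10, 10, 9, 9, 7, 7, 5, 5, 3], .l [5, 1, 17, 12, 1, 13, 4, 13], .l [5, 1], .l [3, 4], .l [0, 19, 12, 14, 17, 11, 8, 13], .l [7, 3], .l [3, 6], .l [0, 19, 10, 14, 17, 9, 6, 13], .l [9, 5], .l [3, 8], .y [3, 5, 7, 9], .l [0, 19, 8, 14, 17, 7, 4, 13], .l [11, 7], .l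 [3, 10], .l [0, 19, 6, 14, 17, 5, 2, 13], .l [13, 9], .l [3, 12], .l [14, 10], .l [3, 15, 4, 1, 17, 6, 6, 1, 6, 2, 10, 5], .l [16, 12], .l [3, 15], .l [3, 17, 6, 1, 4, 10, 1, 11, 4, 11], .l [18, 14], .l [3, 17], .l [3, 19, 8, 1, 4, 12, 1, 13, 4, 5], .l [20, 16], .l [3, 19]]),
([p 6 1, g, s 5 0, m 0 2, g, m 2 3, g, m 3 0, g, s 0 4, g, s 4 5, p 7 0, g, p 0 6, g, s 1 7, g], .hi 7, [.l [2, 8, 8, 6, 6, 4, 7, 10, 4, 8, 6, 7], .l [1, 16, 14, 6], .l [2, 8], .y [3, 5, 7], .l [4, 16, 11, 3, 3, 1, 1, 9, 4, 9], .l [4, 7, 5, 14, 11, 3], .l [5, 8], .l [6, 9, 7, 14, 9, 1, 1, 9, 4, 9], .l [6, 9, 7, 7, 5, 12, 9, 1], .l [7, 8], .l [8, 16, 7, 13, 13, 11, 11, 9, 4, 9], .l [6, 7, 5, 5, 3, 12, 9, 1], .r 655 [1, 2, 3, 8, 4, 5, 6, 7] [1, 1, 1,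 1, 1, 1, 1, 1, 1], .l [8, 14, 5, 11, 11, 9, 9, 7, 4, 7], .l [10, 16, 5, 11, 11, 9, 9, 7, 4, 9], .l [6, 7, 5, 5, 3, 12, 9, 3], .l [12, 16, 3, 11, 13, 11, 11, 9, 9, 7, 4, 7], .l [10, 16, 5, 13, 10, 8, 8, 6, 6, 4, 6, 7], .l [4, 5, 3, 8, 3, 9, 11, 6, 3], .l [0, 17, 17, 11, 13, 8, 8, 6, 6, 4, 7, 9, 3], .l [4, 5, 3, 8, 3, 9, 9, 4, 3], .l [10, 14, 3, 11, 13, 11, 11, 9, 9, 7, 4, 7], .l [6, 7, 5, 5, 3, 10, 7, 10], .l [10, 14, 3, 11, 13, 11, 11, 9, 9, 7, 4, 7], .l [10, 14, 3, 11, 15, 13, 13, 11, 11, 9, 4, 5], .l [6, 7, 5, 5, 3, 10, 7, 12], .l [10, 14, 3, 11, 15, 13, 13, 11, 11, 9, 4, 5]]),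
([p 5 1, g, s 4 0, m 0 2, g, m 2 0, g, s 0 3, g, s 3 4, p 6 0, g, p 0 5, g, s 1 6, g], .hi 5, [.l [2, 6, 6, 4, 7, 10, 4, 8, 6, 7], .l [1, 14, 12, 4], .l [2, 6], .y [3, 5], .l [4, 14, 9, 1, 1, 9, 4, 9], .l [4, 7, 5, 12, 9, 1], .l [5, 6], .l [6, 14, 7, 11, 11, 9, 4, 9], .l [4, 5, 3, 12, 9, 1], .r 656 [1, 2, 7, 3, 4, 5, 6] [1, 1, 1, 1, 1, 1, 1, 1], .l [6, 12, 5, 9, 9, 7, 4, 7], .l [8, 14, 5, 9, 9, 7, 4, 9], .l [4, 5, 3, 12, 9, 3], .l [10, 14, 3, 9, 11, 9, 9, 7, 4, 7], .l [8, 14, 5, 11, 8, 6, 6, 4, 6, 7], .l [2, 8, 3, 9, 11, 6, 3], .l [8, 14, 5, 11, 1, 6, 11, 2, 6, 1], .l [2, 8, 3, 9, 9, 4, 3], .l [8, 12, 3, 9, 11, 9, 9, 7, 4, 7], .l [4, 5, 3, 10, 7, 10], .l [8, 12, 3, 9, 11, 9, 9, 7, 4, 7], .l [8, 12, 3, 9, 13, 11, 11, 9,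 4, 5], .l [4, 5, 3, 10, 7, 12], .l [8, 12, 3, 9, 13, 11, 11, 9, 4, 5]]),
([p 4 1, g, s 3 0, m 0 0, g, s 0 2, g, s 2 3, p 5 0, g, p 0 4, g, s 1 5, g], .hi 3, [.l [0, 13, 13, 9, 4, 5], .l [1, 12, 10, 2], .l [2, 4], .y [3], .l [0, 13, 13, 9, 6, 1], .l [0, 13, 13, 9, 6, 1], .r 657 [1, 6, 2, 3, 4, 5] [1, 1, 1, 1, 1, 1, 1], .l [0, 11, 11, 7, 4, 1], .l [0, 13, 13, 9, 6, 3], .l [0, 13, 13, 9, 6, 3], .l [8, 12, 3, 7, 9, 7, 4, 7], .l [0, 13, 13, 7, 4, 7], .l [0, 13, 13, 7, 4, 7], .l [0, 13, 6, 9, 5, 10, 2, 5], .l [0, 11, 11, 7, 4, 7], .l [0, 13, 13, 7, 4, 9], .l [0, 13, 13, 7, 4, 9], .l [6, 10, 3, 7, 9, 7, 4, 7], .l [0, 11, 11, 7, 4, 9], .l [0, 11, 11, 7, 4, 9], .l [6, 10, 3, 7, 11, 9, 4, 5]]),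
([p 5 1, g, s 4 0, s 0 2, g, m 2 0, g, s 0 3, g, s 3 4, p 6 0, g, p 0 5, g, s 1 6, g], .lo 3, [.l [0, 15, 15, 11, 6, 7], .l [0, 15, 15, 11, 6, 7], .l [7, 1, 4, 2, 7, 3, 10, 10, 6, 3], .c, .l [0, 15, 15, 11, 8, 1], .l [5, 1, 13, 8, 1, 9, 4, 9], .l [0, 15, 15, 11, 8, 1], .y [3, 5], .l [0, 15, 15, 11, 8, 3], .l [5, 1, 13, 8, 1, 9, 4, 9], .l [0, 15, 15, 11, 8, 3], .l [0, 15, 15, 11, 8, 5], .l [5, 1, 13, 8, 3, 9, 4, 9], .l [0, 15, 15, 11, 8, 5], .l [0, 13, 4, 9, 7, 1, 8, 4, 1, 6, 4, 1], .l [0, 15, 15, 9, 6, 9], .l [0, 15, 6, 11, 7, 1, 10, 6, 1, 8, 4, 1], .l [0, 15, 15, 9, 6, 9], .l [0, 15, 15, 9, 6, 11], .l [0, 15, 6, 11, 5, 12, 2, 9], .l [0, 15, 15, 9, 6, 11], .l [0, 13, 13, 9, 6, 11], .l [5, 1, 15, 13, 5, 3, 8, 8, 4, 1], .l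 [0, 13, 13, 9, 6, 11]]),
([p 4 1, g, s 3 0, s 0 0, g, s 0 2, g, s 2 3, p 5 0, g, p 0 4, g, s 1 5, g], .hi 3, [.l [0, 13, 13, 9, 4, 5], .l [8, 12, 3, 9, 4, 2, 6, 7], .l [0, 13, 13, 9, 4, 5], .y [3], .l [0, 13, 13, 9, 6, 1], .l [0, 13, 13, 9, 6, 1], .r 659 [1, 6, 2, 3, 4, 5] [1, 1, 1, 1, 1, 1, 1], .l [0, 11, 11, 7, 4, 1], .l [0, 13, 13, 9, 6, 3], .l [0, 13, 13, 9, 6, 3], .l [0, 13, 4, 6, 11, 5, 2, 7], .l [0, 13, 13, 7, 4, 7], .l [0, 13, 13, 7, 4, 7], .l [0, 13, 6, 9, 5, 10, 2, 5], .l [0, 11, 11, 7, 4, 7], .l [0, 13, 13, 7, 4, 9], .l [0, 13, 13, 7, 4, 9], .l [0, 13, 6, 9, 3, 10, 2, 7], .l [0, 11, 11, 7, 4, 9], .l [0, 11, 11, 7, 4, 9], .l [6, 10, 3, 7, 11, 9, 4, 5]]),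
([p 7 1, g, p 2 0, g, s 6 0, p 3 2, g, p 4 3, g, p 0 4, g, s 0 5, g, s 5 6, p 8 0, g, p 0 7, g, s 1 8, g], .lo 9, [.l [2, 10, 10, 8, 8, 6, 9, 12, 6, 10, 6, 9], .l [2, 10], .l [0, 19, 19, 15, 1, 12, 8, 8, 6, 6, 4, 4, 1], .y [2, 9, 7, 5], .l [0, 19, 8, 13, 15, 12, 15, 9, 6, 11], .l [4, 10], .l [0, 19, 19, 15, 1, 10, 6, 6, 4, 4, 2, 6, 3], .l [0, 17, 17, 13, 8, 10, 9, 9, 7, 7, 5, 5, 1], .l [6, 18, 11, 3, 3, 1, 1, 11, 6, 11], .l [7, 10], .l [0, 19, 19, 15, 10, 12, 11, 11, 7, 7, 5, 7, 1], .l [8, 11, 9, 16, 9, 1, 1, 11, 6, 11], .l [9, 10], .l [0, 19, 19, 15, 10, 12, 11, 11, 9, 9, 5, 7, 1], .l [10, 18, 7, 15, 15, 13, 13, 11, 6, 11], .l [0, 19, 19, 15, 10, 12, 11, 11, 9, 9, 7, 7, 5], .l [8, 9, 7, 7, 5, 5, 2, 13, 11, 3], .l [12,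 18, 5, 13, 13, 11, 11, 9, 6, 11], .l [0, 19, 19, 15, 10, 12, 11, 11, 9, 9, 7, 7, 3], .l [8, 9, 7, 7, 5, 5, 2, 13, 11, 5], .l [0, 17, 17, 13, 1, 12, 8, 8, 6, 6, 4, 4, 1], .l [12, 18, 5, 15, 12, 10, 10, 8, 8, 6, 8, 9], .l [0, 19, 19, 13, 1, 14, 10, 10, 8, 8, 6, 6, 3], .l [0, 19, 10, 6, 8, 15, 15, 6, 10, 12, 11, 11, 9], .l [12, 16, 3, 13, 15, 13, 13, 11, 11, 9, 6, 9], .l [0, 19, 19, 13, 1, 16, 12, 12, 10, 10, 8, 8, 5], .l [0, 19, 10, 8, 17, 13, 8, 10, 9, 9, 7, 7, 5], .l [12, 16, 3, 13, 17, 15, 15, 13, 13, 11, 6, 7], .l [0, 17, 17, 13, 1, 16, 12, 12, 10, 10, 8, 8, 5], .l [0, 17, 17, 13, 8, 10, 9, 9, 7, 7, 5, 5, 9]]),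
([p 6 1, g, p 2 0, g, s 5 0, p 3 2, g, p 0 3, g, s 0 4, g, s 4 5, p 7 0, g, p 0 6, g, s 1 7, g], .lo 7, [.l [2, 8, 8, 6, 9, 12, 6, 10, 6, 9], .l [2, 8], .l [1, 16, 14, 6], .y [2, 7, 5], .l [4, 8, 8, 6, 9, 12, 4, 10, 8, 9], .l [4, 8], .l [3, 7, 5, 14, 12, 4], .l [3, 5, 3, 12, 10, 6, 3, 4, 3], .l [6, 16, 9, 1, 1, 11, 6, 11], .l [7, 8], .l [6, 9, 7, 7, 4, 13, 11, 1], .l [8, 16, 7, 13, 13, 11, 6, 11], .r 661 [1, 2, 3, 8, 4, 5, 6, 7] [1, 1, 1, 1, 1, 1, 1, 1, 1], .l [6, 7, 5, 5, 2, 13, 11, 3], .l [10, 16, 5, 11, 11, 9, 6, 11], .l [12, 16, 3, 11, 13, 11, 11, 9, 6, 9], .l [6, 7, 5, 5, 2, 13, 11, 5], .l [11, 1, 11, 7, 7, 5, 9, 4, 9, 3, 7, 7, 3], .l [10, 16, 5, 13, 10, 8, 8, 6, 8, 9], .l [11, 1, 13, 9, 9, 7, 11, 6, 11, 3, 7, 9, 5],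 .l [0, 17, 10, 6, 8, 13, 13, 6, 8, 10, 9, 9, 5], .l [10, 14, 3, 11, 13, 11, 11, 9, 6, 9], .l [10, 14, 3, 11, 13, 11, 11, 9, 6, 9], .l [4, 10, 3, 13, 9, 2, 7, 5, 8], .l [10, 14, 3, 11, 15, 13, 13, 11, 6, 7], .l [10, 14, 3, 11, 15, 13, 13, 11, 6, 7], .l [4, 10, 3, 15, 11, 2, 7, 5, 10]]),
([p 5 1, g, s 4 0, p 2 0, g, p 0 2, g, s 0 3, g, s 3 4, p 6 0, g, p 0 5, g, s 1 6, g], .hi 3, [.l [8, 14, 5, 1, 9, 2, 11, 4, 8, 5], .r 662 [1, 7, 2, 3, 4, 5, 6] [1, 1, 1, 1, 1, 1, 1, 1], .l [5, 2], .l [5, 1, 13, 8, 1, 9, 4, 9], .l [3, 4], .l [5, 1], .y [3, 5], .l [0, 15, 8, 10, 13, 7, 4, 9], .l [3, 6], .l [7, 3], .l [0, 13, 4, 4, 4, 6, 9, 3, 0, 5], .l [0, 15, 6, 10, 13, 5, 2, 9], .l [3, 8], .l [9, 5], .l [3, 11, 4, 1, 13, 6, 6, 1, 6, 2, 6,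 1], .l [3, 11], .l [12, 8], .l [3, 11], .l [3, 13, 6, 1, 4, 6, 1, 7, 4, 7], .l [3, 13], .l [14, 10], .l [3, 15, 8, 1, 4, 8, 1, 9, 4, 5], .l [3, 15], .l [16, 12]]),
([p 4 1, g, s 3 0, p 0 0, g, s 0 2, g, s 2 3, p 5 0, g, p 0 4, g, s 1 5, g], .lo 3, [.l [0, 13, 13, 9, 4, 5], .l [2, 4], .l [1, 12, 10, 2], .c, .y [3], .l [0, 13, 13, 9, 6, 1], .r 663 [1, 6, 2, 3, 4, 5] [1, 1, 1, 1, 1, 1, 1], .l [0, 13, 13, 9, 6, 1], .l [0, 13, 13, 9, 6, 3], .l [8, 12, 3, 7, 9, 7, 4, 7], .l [0, 13, 13, 9, 6, 3], .l [0, 11, 4, 7, 5, 8, 2, 3], .l [0, 13, 13, 7, 4, 7], .l [0, 13, 6, 9, 5, 10, 2, 5], .l [0, 13, 13, 7, 4, 7], .l [0, 13, 13, 7, 4, 9], .l [6, 10, 3, 7, 9, 7, 4, 7], .l [0, 13, 13, 7, 4, 9], .l [0, 11, 11, 7, 4, 9], .l [6, 10, 3, 7, 11,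 9, 4, 5], .l [0, 11, 11, 7, 4, 9]]),
([p 4 1, g, s 3 0, g, s 0 2, g, s 2 3, p 5 0, g, p 0 4, g, s 1 5, g], .top 3, [.l [0, 9, 9, 5, 2, 1], .r 660 [1, 2, 3, 4, 5] [1, 1, 1, 1, 1, 1], .r 664 [1, 2, 3, 4, 5] [1, 1, 1, 1, 1, 1], .r 658 [1, 2, 3, 4, 5] [1, 1, 1, 1, 1, 1]]),
([p 3 1, g, s 0 2, g, s 2 0, p 4 0, g, p 0 3, g, s 1 4, g], .hi 4, [.r 665 [1, 2, 5, 3, 4] [1, 1, 1, 1, 1, 1], .r 645 [1, 2, 5, 3, 4] [1, 1, 1, 1, 1, 1], .l [0, 10, 10, 6, 3], .y [2, 4], .r 630 [1, 2, 5, 3, 4] [1, 1, 1, 1, 1, 1], .r 654 [1, 2, 5, 3, 4] [1, 1, 1, 1, 1, 1], .l [0, 10, 10, 6, 1], .r 619 [1, 5, 4] [3, 1, 3, 1], .l [0, 10, 10, 4, 5], .l [7, 2, 9], .l [0, 8, 8, 4, 5], .r 619 [1, 5, 4] [3, 3, 1, 1], .l [0, 10, 10, 4, 7], .l [9, 4, 9], .r 633 [1,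 5, 4] [3, 3, 1, 1], .l [0, 8, 8, 4, 7], .l [11, 6, 3]]),
([p 6 1, g, p 2 0, g, s 5 0, p 3 2, g, p 0 3, g, m 0 4, g, s 4 5, p 7 0, g, p 0 6, g, s 1 7, g], .lo 7, [.l [2, 8, 17, 10, 1, 13, 8, 3], .l [2, 8], .l [0, 17, 17, 13, 6, 8, 7, 7, 5, 7, 1, 5, 1], .y [2, 7, 5], .l [4, 8, 17, 12, 3, 13, 6, 3], .l [4, 8], .l [0, 17, 17, 13, 6, 10, 9, 9, 7, 7, 1, 5, 1], .l [0, 15, 15, 11, 6, 8, 7, 7, 5, 5, 1, 3, 1], .l [6, 16, 9, 1, 1, 11, 6, 11], .l [7, 8], .l [0, 17, 17, 13, 8, 10, 9, 9, 5, 7, 1, 5, 1], .l [8, 16, 7, 13, 13, 11, 6, 11], .l [12, 16, 3, 13, 6, 11, 12, 8, 5, 5, 3, 3, 1], .l [6, 7, 5, 5, 2, 13, 11, 3], .l [10, 16, 5, 11, 11, 9, 6, 11], .l [9, 16, 6, 1, 11, 11, 9, 6, 11, 1, 3, 5, 3], .l [4, 12, 12, 8, 1, 8, 6, 2, 10, 8, 3],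 .l [0, 15, 15, 11, 6, 8, 7, 7, 5, 7, 1, 5, 1], .l [4, 10, 3, 11, 7, 2, 7, 2, 10, 3, 4, 1], .l [0, 17, 17, 11, 6, 8, 7, 7, 5, 9, 3, 7, 1], .l [0, 17, 10, 6, 8, 13, 13, 6, 8, 10, 9, 9, 5], .l [4, 10, 3, 13, 9, 2, 9, 4, 10, 1, 2, 5], .l [0, 17, 17, 11, 6, 8, 7, 7, 5, 11, 5, 9, 1], .l [4, 10, 3, 13, 9, 2, 7, 5, 8], .l [10, 14, 3, 11, 15, 13, 13, 11, 6, 7], .l [0, 15, 15, 11, 6, 8, 7, 7, 5, 11, 5, 9, 1], .l [4, 10, 3, 15, 11, 2, 7, 5, 10]]),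
([p 5 1, g, s 4 0, p 2 0, g, p 0 2, g, m 0 3, g, s 3 4, p 6 0, g, p 0 5, g, s 1 6, g], .hi 3, [.l [8, 14, 5, 1, 9, 2, 11, 4, 8, 5], .r 667 [1, 7, 2, 3, 4, 5, 6] [1, 1, 1, 1, 1, 1, 1, 1], .l [5, 2], .l [5, 1, 13, 8, 1, 9, 4, 9], .l [3, 4], .l [5, 1], .y [3, 5], .l [0, 15, 8, 10, 13, 7, 4, 9], .l [3, 6], .l [7, 3], .l [7, 3], .l [0, 15, 6, 10, 13, 5, 2, 9], .l [3, 8], .l [9, 5], .l [3, 11, 4, 1, 13, 6, 6, 1, 6, 2, 6, 1], .l [3, 11], .l [12, 8], .l [3, 11], .l [3, 13, 6, 1, 4, 6, 1, 7, 4, 7], .l [3, 13], .l [14, 10], .l [3, 15, 8, 1, 4, 8, 1, 9, 4, 5], .l [3, 15], .l [16, 12]]),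
([p 4 1, g, s 3 0, p 0 0, g, m 0 2, g, s 2 3, p 5 0, g, p 0 4, g, s 1 5, g], .lo 3, [.l [0, 13, 13, 9, 4, 5], .l [2, 4], .l [1, 12, 10, 2], .c, .y [3], .l [0, 13, 13, 9, 6, 1], .r 668 [1, 6, 2, 3, 4, 5] [1, 1, 1, 1, 1, 1, 1], .l [0, 13, 13, 9, 6, 1], .l [0, 13, 13, 9, 6, 3], .l [8, 12, 3, 7, 9, 7, 4], .l [0, 13, 13, 9, 6, 3], .l [0, 11, 4, 7, 5, 8, 2, 3], .l [0, 13, 13, 7, 4, 7], .l [0, 13, 6, 9, 5, 10, 2, 5], .l [0, 13, 13, 7, 4, 7], .l [0, 13, 13, 7, 4, 9], .l [6, 10, 3, 7, 9, 7, 4], .l [0, 13, 13, 7, 4, 9], .l [0, 11, 11, 7, 4, 9], .l [6, 10, 3, 7, 11, 9, 4], .l [0, 11, 11, 7, 4, 9]]),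
([p 5 1, g, s 4 0, s 0 2, g, m 2 0, g, m 0 3, g, s 3 4, p 6 0, g, p 0 5, g, s 1 6, g], .lo 3, [.l [0, 15, 15, 11, 6, 7], .l [0, 15, 15, 11, 6, 7], .l [8, 14, 5, 1, 11, 1, 4, 2, 6, 7], .c, .l [0, 15, 15, 11, 8, 1], .l [5, 1, 13, 8, 1, 9, 4, 9], .l [0, 15, 15, 11, 8, 1], .y [3, 5], .l [0, 15, 15, 11, 8, 3], .l [5, 1, 13, 8, 1, 9, 4, 9], .l [0, 15, 15, 11, 8, 3], .l [0, 15, 15, 11, 8, 5], .l [5, 1, 13, 8, 3, 9, 4, 9], .l [0, 15, 15, 11, 8, 5], .l [0, 13, 4, 9, 7, 1, 8, 4, 1, 6, 4, 1], .l [0, 15, 15, 9, 6, 9], .l [0, 15, 6, 11, 7, 1, 10, 6, 1, 8, 4, 1], .l [0, 15, 15, 9, 6, 9], .l [0, 15, 15, 9, 6, 11], .l [0, 15, 6, 11, 5, 12, 2, 9], .l [0, 15, 15, 9, 6, 11], .l [0, 13, 13, 9, 6, 11], .l [6, 12, 5, 1, 9, 1, 11, 9, 4, 5], .l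 [0, 13, 13, 9, 6, 11]]),
([p 4 1, g, s 3 0, s 0 0, g, m 0 2, g, s 2 3, p 5 0, g, p 0 4, g, s 1 5, g], .hi 3, [.l [0, 13, 13, 9, 4, 5], .l [8, 12, 3, 9, 4, 2, 6, 7], .l [0, 13, 13, 9, 4, 5], .y [3], .l [0, 13, 13, 9, 6, 1], .l [0, 13, 13, 9, 6, 1], .r 670 [1, 6, 2, 3, 4, 5] [1, 1, 1, 1, 1, 1, 1], .l [6, 10, 3, 7, 7, 5, 4, 5], .l [0, 13, 13, 9, 6, 3], .l [0, 13, 13, 9, 6, 3], .l [8, 12, 3, 7, 9, 7, 4, 7], .l [0, 13, 13, 7, 4, 7], .l [0, 13, 13, 7, 4, 7], .l [0, 13, 6, 9, 5, 10, 2, 5], .l [0, 11, 11, 7, 4, 7], .l [0, 13, 13, 7, 4, 9], .l [0, 13, 13, 7, 4, 9], .l [0, 13, 6, 9, 3, 10, 2, 7], .l [0, 11, 11, 7, 4, 9], .l [0, 11, 11, 7, 4, 9], .l [6, 10, 3, 7, 11, 9, 4, 5]]),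
([p 6 1, g, s 5 0, m 0 2, g, m 2 3, g, m 3 0, g, m 0 4, g, s 4 5, p 7 0, g, p 0 6, g, s 1 7, g], .lo 3, [.l [10, 16, 5, 1, 9, 2, 13, 6, 10, 7], .l [5, 2], .l [12, 16, 3, 13, 6, 11, 12, 8, 5, 5, 3, 3, 1], .l [5, 11, 7, 3, 8, 11, 4, 9, 0, 6, 7, 3, 1], .l [5, 1, 15, 10, 1, 11, 4, 11], .l [5, 1], .l [3, 4], .l [0, 17, 10, 12, 15, 9, 6, 11], .l [7, 3], .l [3, 6], .y [3, 5, 7], .l [0, 17, 8, 12, 15, 7, 4, 11], .l [9, 5], .l [3, 8], .l [0, 17, 6, 12, 15, 5, 2, 11], .l [11, 7], .l [3, 10], .l [12, 8], .l [3, 13, 4, 1, 15, 6, 6, 1, 6, 2, 8, 3], .l [14, 10], .l [3, 13], .l [3, 15, 6, 1, 4, 8, 1, 9, 4, 9], .l [16, 12], .l [3, 15], .l [3, 17, 8, 1, 4, 10, 1, 11, 4, 5], .l [18, 14], .l [3, 17]]),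
([p 5 1, g, s 4 0, m 0 2, g, m 2 0, g, m 0 3, g, s 3 4, p 6 0, g, p 0 5, g, s 1 6, g], .hi 5, [.l [2, 6, 15, 10, 1, 11, 6, 3], .l [1, 14, 12, 4], .l [2, 6], .y [3, 5], .l [4, 14, 9, 1, 1, 9, 4, 9], .l [4, 7, 5, 12, 9, 1], .l [5, 6], .l [6, 14, 7, 11, 11, 9, 4, 9], .l [4, 5, 3, 12, 9, 1], .r 672 [1, 2, 7, 3, 4, 5, 6] [1, 1, 1, 1, 1, 1, 1, 1], .l [8, 12, 3, 9, 9, 7, 7, 5, 4], .l [8, 14, 5, 9, 9, 7, 4, 9], .l [2, 10, 10, 6, 1, 6, 10, 6, 1], .l [10, 14, 3, 9, 11, 9, 9, 7, 4], .l [8, 14, 5, 11, 8, 6, 6, 4, 6, 7], .l [2, 8, 3, 9, 11, 6, 3], .l [0, 15, 15, 9, 11, 6, 6, 4, 7, 7, 5, 7, 3], .l [2, 8, 3, 9, 9, 4, 3], .l [8, 12, 3, 9, 11, 9, 9, 7, 4, 7], .l [4, 5, 3, 10, 7, 10], .l [8, 12, 3, 9, 11, 9, 9, 7, 4], .l [8, 12, 3, 9, 13,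 11, 11, 9, 4, 5], .l [4, 5, 3, 10, 7, 12], .l [8, 12, 3, 9, 13, 11, 11, 9, 4]]),
([p 4 1, g, s 3 0, m 0 0, g, m 0 2, g, s 2 3, p 5 0, g, p 0 4, g, s 1 5, g], .hi 3, [.l [0, 13, 13, 9, 4, 5], .l [1, 12, 10, 2], .l [2, 4], .y [3], .l [0, 13, 13, 9, 6, 1], .l [0, 13, 13, 9, 6, 1], .r 673 [1, 6, 2, 3, 4, 5] [1, 1, 1, 1, 1, 1, 1], .l [6, 10, 3, 7, 7, 5, 4], .l [0, 13, 13, 9, 6, 3], .l [0, 13, 13, 9, 6, 3], .l [8, 12, 3, 7, 9, 7, 4], .l [0, 13, 13, 7, 4, 7], .l [0, 13, 13, 7, 4, 7], .l [0, 13, 6, 9, 5, 10, 2, 5], .l [0, 11, 11, 7, 4, 7], .l [0, 13, 13, 7, 4, 9], .l [0, 13, 13, 7, 4, 9], .l [6, 10, 3, 7, 9, 7, 4], .l [0, 11, 11, 7, 4, 9], .l [0, 11, 11, 7, 4, 9], .l [6, 10, 3, 7, 11, 9, 4]]),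
([p 4 1, g, s 3 0, g, m 0 2, g, s 2 3, p 5 0, g, p 0 4, g, s 1 5, g], .top 3, [.l [0, 9, 9, 5, 2, 1], .r 671 [1, 2, 3, 4, 5] [1, 1, 1, 1, 1, 1], .r 669 [1, 2, 3, 4, 5] [1, 1, 1, 1, 1, 1], .r 674 [1, 2, 3, 4, 5] [1, 1, 1, 1, 1, 1]]),
([p 0 1, s 0 0, m 0 2, g, s 3 0, g, s 2 3, p 4 0, g, s 1 4, g], .hi 1, [.l [0], .y [1], .l [2, 0, 4], .l [0, 10, 10, 8, 1, 3, 4, 1], .l [11, 10, 2], .l [4, 2, 6], .l [6, 4, 6, 1, 8, 8, 6, 1], .l [11, 10, 4], .l [6, 4, 6], .l [11, 10, 7, 4, 1, 4, 2, 5], .l [11, 10, 7], .l [9, 7, 3], .l [9, 8, 9, 6, 1, 6, 4, 1], .l [9, 8, 9], .l [11, 9, 3]]),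
([p 5 1, s 0 0, g, s 4 0, m 0 2, g, s 3 0, g, s 2 3, p 6 0, g, m 0 4, g, p 0 5, g, s 1 6, g], .hi 1, [.y [1], .l [12, 1, 16, 16, 11, 1, 13, 2, 8, 3], .l [2, 15, 12, 12, 13], .l [5, 12, 4, 1, 8, 1, 10, 7, 2, 8], .l [0, 14, 11, 7, 12, 10, 1, 6, 7, 3], .l [3, 12, 6, 8, 12, 11, 2, 11], .l [5, 15, 9, 9, 13], .l [0, 16, 13, 9, 14, 12, 1, 8, 9, 3], .l [3, 12, 4, 8, 12, 11, 4, 11], .l [7, 15, 7, 7, 13], .l [0, 16, 10, 3, 8, 12, 4, 6, 4, 7], .l [10, 15, 4, 4, 13, 13, 11, 1], .l [10, 15, 4, 4, 13], .l [0, 16, 13, 9, 11, 12, 1, 11, 7, 1], .l [2, 13, 10, 7, 12, 2, 3, 1, 7, 1], .l [12, 15, 2, 2, 13, 13, 9, 1], .l [12, 15, 2, 2, 13], .l [2, 15, 12, 7, 14, 2, 3, 1, 9, 1], .l [12, 13, 0, 0, 11], .l [17, 16, 13, 3, 9, 3], .l [17, 16, 13],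 .l [0, 16, 10, 1, 6, 12, 4, 6, 4, 7], .l [15, 14, 15, 5, 11, 3], .l [15, 14, 15], .l [10, 13, 2, 4, 14, 12, 9, 9, 7, 1]]),
([p 5 1, g, m 0 2, g, s 2 0, m 0 3, g, s 4 0, g, s 3 4, p 6 0, g, p 0 5, g, s 1 6, g], .hi 4, [.l [6, 3, 13, 7, 3, 10, 1, 10, 4, 1], .l [5, 14, 8, 11, 1, 9, 3], .l [3, 14, 10, 1, 11, 9, 3], .y [2, 4], .l [10, 14, 3, 9, 1, 12, 4, 1], .l [5, 14, 8, 11, 1, 9, 3], .l [6, 1, 13, 7, 3], .l [1, 12, 10, 1, 2, 0, 3], .l [0, 15, 15, 11, 1, 3, 4, 1], .l [3, 14, 10, 11, 8, 9, 4], .l [1, 14, 12, 1, 4, 2, 5], .l [3, 14, 10, 11, 6, 9, 6, 9], .l [3, 14, 10, 11, 6, 9, 6], .l [1, 14, 12, 1, 6, 4, 5], .l [0, 15, 3, 9, 3, 10, 1, 10, 4, 1], .l [3, 14, 10, 11, 3, 9, 3], .l [1, 14, 12, 1, 9, 7, 3], .l [3, 12, 8, 9, 1, 7,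 3], .l [0, 15, 1, 9, 3, 10, 1, 10, 4, 1], .l [3, 12, 8, 11, 1, 9, 3], .l [1, 12, 10, 1, 11, 9, 3], .l [6, 12, 5, 1, 13, 4, 10, 7], .l [3, 12, 8, 13, 3, 11, 3], .l [1, 12, 10, 1, 13, 11, 3]]),
([p 4 1, s 0 0, g, s 0 0, m 0 2, g, s 3 0, g, s 2 3, p 5 0, g, p 0 4, g, s 1 5, g], .lo 3, [.l [7, 11, 3, 6, 1, 9, 4, 1], .l [9, 13, 3, 8, 1, 11, 4, 1], .l [5, 1, 12, 7, 3], .r 678 [1, 6, 2, 3, 4, 5] [2, 1, 1, 1, 1, 1, 1], .y [3], .l [0, 14, 14, 10, 1, 3, 4, 1], .l [6, 2, 8], .l [9, 13, 3, 6, 7], .l [7, 11, 3, 6, 7, 7, 5, 6], .l [8, 4, 8, 1, 12, 12, 8, 1], .l [8, 4, 8], .l [9, 13, 3, 6, 9], .l [7, 11, 3, 6, 4], .l [7, 13, 5, 8, 4, 11, 4, 1], .l [7, 13, 5, 8, 4], .r 677 [1, 2, 3, 6, 4, 5] [1, 1, 1, 1, 1, 1, 1], .l [5, 11, 5, 1, 10,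 2, 7, 8], .l [13, 9, 3], .l [7, 11, 3, 6, 9], .l [5, 11, 5, 1, 12, 4, 9, 6], .l [15, 11, 3], .l [7, 11, 3, 6, 11]]),
([p 5 0, g, m 0 1, g, m 1 2, g, m 2 0, m 0 3, g, s 4 0, g, s 3 4, p 6 0, g, p 0 5, g, s 0 6, g], .hi 6, [.l [10, 2, 6, 14, 5, 1, 9, 2, 6, 9], .l [1, 16, 14, 5], .l [2, 7], .y [2, 4, 6], .l [10, 2, 4, 14, 5, 1, 11, 2, 8, 9], .l [3, 6, 4, 14, 12, 3], .l [4, 7], .l [7, 16, 8, 13, 1, 11, 3], .l [5, 8, 6, 6, 4, 13, 11, 1], .l [6, 7], .l [10, 14, 3, 9, 9, 8, 8, 6, 6, 4, 8, 4, 1], .l [5, 16, 10, 2, 6, 4, 11], .l [5, 6, 4, 4, 2, 13, 11, 3], .l [7, 16, 8, 1, 12, 15, 7, 4, 11], .l [5, 16, 10, 4, 6, 2, 11], .l [5, 6, 4, 4, 2, 13, 11, 5], .l [8, 11, 8, 14, 8, 4, 4, 2, 9], .l [10, 14, 9, 14, 8, 3, 10], .l [5, 6, 4, 4,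 2, 13, 11, 8], .l [8, 14, 11, 14, 8, 1, 1, 4, 9], .l [5, 6, 4, 4, 2, 11, 9, 8], .l [5, 14, 8, 13, 1, 11, 3], .l [5, 6, 4, 4, 2, 11, 9, 10], .l [10, 16, 11, 11, 9, 9, 7, 5, 3, 8, 1, 6, 7], .l [5, 14, 8, 13, 1, 11, 3], .l [5, 14, 8, 15, 3, 13, 3], .l [5, 6, 4, 4, 2, 11, 9, 12], .l [10, 14, 3, 11, 1, 10, 11, 13, 9, 9, 7, 7, 5]]),
([p 4 0, g, m 0 1, g, m 1 0, m 0 2, g, s 3 0, g, s 2 3, p 5 0, g, p 0 4, g, s 0 5, g], .lo 2, [.l [2, 1], .l [4, 1, 13, 9, 11, 9, 3], .l [4, 1], .r 680 [6, 1, 2, 3, 4, 5] [1, 1, 1, 1, 1, 1, 1, 1], .l [8, 14, 5, 1, 8, 1, 11, 5, 2, 7], .l [4, 1], .l [2, 3], .y [2, 4], .l [7, 4, 4, 2, 7], .l [7, 4], .l [2, 6], .l [7, 8, 3, 6, 6, 4, 3], .l [9, 6, 6, 4, 7], .l [9, 6], .l [2, 8], .l [10, 7], .l [12, 9,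 9, 7, 3], .l [12, 9], .l [2, 11], .l [14, 11, 11, 9, 3], .l [14, 11], .l [2, 13], .l [16, 13, 13, 11, 3], .l [16, 13], .l [2, 15]]),
([p 3 0, g, m 0 0, m 0 1, g, s 2 0, g, s 1 2, p 4 0, g, p 0 3, g, s 0 4, g], .lo 2, [.l [2, 1], .l [4, 1, 11, 7, 3], .l [4, 1], .r 681 [5, 1, 2, 3, 4] [1, 1, 1, 1, 1, 1, 1], .y [2], .l [5, 2, 7], .l [5, 2], .l [2, 4], .l [4, 10, 5, 1, 1, 6, 5], .l [7, 4, 7], .l [7, 4], .l [2, 6], .l [8, 5], .l [6, 12, 5, 7, 3], .l [10, 7], .l [2, 9], .l [6, 10, 3, 5, 8], .l [12, 9], .l [2, 11], .l [6, 10, 3, 5, 10], .l [14, 11], .l [2, 13]]),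
([p 5 0, g, p 1 0, g, p 2 1, g, p 0 2, m 0 3, g, s 4 0, g, s 3 4, p 6 0, g, p 0 5, g, s 0 6, g], .lo 6, [.l [0, 5], .l [10, 2, 6, 14, 5, 1, 9, 2, 6, 9], .l [2, 7], .l [1, 16, 14, 5], .y [2, 6, 4], .l [10, 2, 4, 14, 5, 1, 11, 2, 8, 9], .l [4, 7], .l [3, 6, 4, 14, 12, 3], .l [7, 16, 8, 13, 1, 11, 3], .l [6, 7], .l [5, 8, 6, 6, 4, 13, 11, 1], .l [5, 16, 10, 2, 6, 4, 11], .l [7, 16, 8, 1, 12, 15, 7, 4, 11], .l [5, 6, 4, 4, 2, 13, 11, 3], .l [2, 14, 11, 1, 11, 13, 9, 1, 4, 2, 2, 0, 1], .l [5, 16, 10, 4, 6, 2, 11], .l [8, 11, 8, 14, 8, 4, 4, 2, 9], .l [5, 6, 4, 4, 2, 13, 11, 5], .l [8, 12, 9, 12, 6, 1, 1, 2, 7], .l [10, 14, 9, 14, 8, 3, 10], .l [8, 14, 11, 14, 8, 1, 1, 4, 9], .l [5, 6, 4, 4, 2, 13, 11, 8], .l [5, 14, 8, 13, 1,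 11, 3], .l [10, 16, 11, 11, 9, 9, 7, 5, 3, 8, 1, 6, 7], .l [5, 6, 4, 4, 2, 11, 9, 10], .l [5, 14, 8, 15, 3, 13, 3], .l [10, 14, 3, 11, 1, 10, 11, 13, 9, 9, 7, 7, 5], .l [5, 6, 4, 4, 2, 11, 9, 12]]),
([p 4 0, g, p 1 0, g, p 0 1, m 0 2, g, s 3 0, g, s 2 3, p 5 0, g, p 0 4, g, s 0 5, g], .hi 2, [.l [4, 1, 13, 9, 11, 9, 3], .r 683 [6, 1, 2, 3, 4, 5] [1, 1, 1, 1, 1, 1, 1, 1], .l [4, 1], .l [8, 14, 5, 1, 8, 1, 11, 5, 2, 7], .l [2, 3], .l [4, 1], .y [2, 4], .l [5, 2], .l [7, 4, 4, 2, 7], .l [2, 6], .l [7, 4], .l [9, 6, 6, 4, 7], .l [2, 8], .l [9, 6], .l [12, 9, 9, 7, 3], .l [2, 11], .l [12, 9], .l [2, 11], .l [14, 11, 11, 9, 3], .l [2, 13], .l [14, 11], .l [14, 11, 11, 9, 3], .l [16, 13, 13, 11, 3], .l [2, 15], .l [16, 13]]),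
([p 3 0, g, p 0 0, m 0 1, g, s 2 0, g, s 1 2, p 4 0, g, p 0 3, g, s 0 4, g], .hi 2, [.l [4, 1, 11, 7, 3], .r 684 [5, 1, 2, 3, 4] [1, 1, 1, 1, 1, 1, 1], .l [4, 1], .y [2], .l [3, 0], .l [5, 2, 7], .l [2, 4], .l [5, 2], .l [7, 4, 7], .l [2, 6], .l [7, 4], .l [6, 12, 5, 7, 3], .l [2, 9], .l [10, 7], .l [2, 9], .l [6, 10, 3, 5, 8], .l [2, 11], .l [12, 9], .l [6, 10, 3, 5, 8], .l [6, 10, 3, 5, 10], .l [2, 13], .l [14, 11]]),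
([p 4 1, s 0 0, g, m 0 2, g, s 3 0, g, s 2 3, p 5 0, g, p 0 4, g, s 1 5, g], .bot 2, [.r 676 [1, 2, 3, 5] [1, 1, 3, 1], .r 679 [1, 2, 3, 4, 5] [1, 1, 1, 1, 1, 1], .r 685 [2, 3, 4, 5] [2, 1, 1, 1, 1, 1], .r 682 [2, 3, 4, 5] [2, 1, 1, 1, 1, 1]]),
([p 4 1, g, m 0 2, g, s 3 0, g, s 2 3, p 5 0, g, p 0 4, g, s 1 5, g], .top 1, [.l [4, 8, 3, 3, 6], .r 686 [1, 2, 3, 4, 5] [1, 1, 1, 1, 1, 1], .r 334 [] [12], .r 444 [] [12]]),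
([p 3 1, g, m 0 2, g, s 2 0, p 4 0, g, p 0 3, g, s 1 4, g], .hi 4, [.r 675 [1, 2, 5, 3, 4] [1, 1, 1, 1, 1, 1], .l [5, 9, 3, 6, 1, 4, 5], .l [0, 10, 10, 6, 3], .y [2, 4], .r 687 [1, 2, 5, 3, 4] [1, 1, 1, 1, 1, 1], .l [5, 9, 3, 6, 1, 4, 5], .l [0, 10, 10, 6, 1], .r 619 [1, 5, 4] [3, 1, 3, 1], .l [0, 10, 10, 4, 5], .l [1, 9, 7, 1, 4, 2, 5], .l [0, 8, 8, 4, 5], .r 619 [1, 5, 4] [3, 3, 1, 1], .l [0, 10, 10, 4, 7], .l [1, 7, 5, 1, 6, 4, 5], .r 633 [1, 5, 4] [3, 3, 1, 1], .l [0, 8, 8, 4, 7], .l [1, 7, 5, 1, 8, 6, 3]]),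
([p 2 1, g, s 0 0, p 3 0, g, p 0 2, g, s 1 3, g], .lo 2, [.r 666 [1, 4, 2, 3] [1, 1, 1, 1, 1], .l [0, 8, 8, 4, 1], .r 688 [1, 4, 2, 3] [1, 1, 1, 1, 1], .y [2], .l [3, 0, 5], .r 610 [1, 4, 3] [1, 1, 3, 1], .l [5, 2, 7], .l [0, 8, 8, 2, 3], .r 610 [1, 4, 3] [1, 3, 1, 1], .l [7, 4, 7], .l [0, 8, 8, 2, 5], .r 613 [1, 3, 4] [1, 3, 1, 1], .l [9, 6, 3], .l [0, 6, 6, 2, 5]]),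
([p 2 1, g, p 3 0, g, p 0 2, g, s 1 3, g], .bot 1, [.l [5, 4, 3], .r 689 [1, 2, 3] [1, 1, 1, 1], .r 586 [1, 2, 3] [1, 1, 1, 1], .r 601 [1, 2, 3] [1, 1, 1, 1]]),
([p 4 1, s 3 2, g, s 0 3, g, p 0 4, g, p 6 0, g, m 0 5, g, s 5 6, s 1 0, g, m 2 0, g], .hi 12, [.l [14, 13, 3, 12, 6, 12, 3, 8, 1, 8, 6, 3], .l [8, 14, 8, 12, 9, 3, 6, 7, 4, 1], .l [14, 13, 3, 12, 6, 12, 3, 8, 1, 8, 6, 3], .l [12, 11, 1, 10, 6, 10, 1, 6, 1, 6, 4, 1], .l [14, 13, 1, 12, 6, 12, 1, 8, 1, 8, 6, 1], .r 690 [1, 4, 7] [4, 1, 6, 3], .l [14, 13, 1, 12, 6, 12, 1, 8, 1, 8, 6, 1], .y [0, 12, 5], .l [14, 13, 1, 12, 8, 12, 1, 6, 1, 6, 4, 5], .l [10, 7, 7, 12, 8, 12, 8, 3, 4, 8, 6, 1], .l [14, 13, 1, 12, 8, 12, 1, 6, 1, 6, 4, 5], .l [14, 13, 1, 7, 10, 7], .l [10,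 3, 11, 12, 9, 1, 5, 6, 6, 1], .l [9, 13, 10], .l [9, 11, 10], .l [11, 13, 10, 1, 8, 10, 8, 1], .l [14, 13, 1, 12, 8, 12, 1, 8, 3, 8, 4, 5], .l [11, 13, 10], .l [12, 11, 1, 10, 6, 12, 3, 8, 1, 8, 6, 3], .l [16, 14, 15, 11, 6, 9, 10, 4, 1, 4, 2, 3], .l [12, 11, 1, 10, 6, 12, 3, 8, 1, 8, 6, 3], .l [12, 11, 1, 10, 6, 10, 1, 6, 1, 6, 4, 5], .l [12, 11, 1, 10, 6, 10, 1, 6, 1, 6, 4, 5], .l [0, 11, 15, 3, 8, 4, 5]]),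
([p 3 1, s 0 2, g, p 0 3, g, p 5 0, g, m 0 4, g, s 4 5, s 1 0, g, m 2 0, g], .lo 1, [.r 691 [1, 2, 6, 3, 4, 5] [1, 1, 1, 1, 1, 1, 1], .l [3, 1, 13, 11, 8], .l [2, 5, 2, 2, 8], .l [10, 5, 7, 12, 4, 1, 6, 1, 4, 5], .l [5, 3, 4, 2, 11, 9, 6], .l [12, 11, 3], .l [5, 3, 4, 2, 9, 7, 4], .l [1, 6, 1, 8, 11, 7, 4, 7], .l [7, 5, 6, 4, 11, 7, 4], .l [12, 11, 5], .l [1, 8, 3, 8, 11, 9, 6, 1], .l [9, 7, 8, 6, 11, 5, 2], .l [12, 11, 7], .l [10, 9, 8], .l [11, 4, 1, 4, 2, 6, 6, 3], .l [12, 10, 11, 9, 11, 2, 3], .l [10, 9, 10], .y [1, 12], .l [1, 13, 8, 3, 6, 9, 6, 1], .l [12, 10, 11, 9, 11, 2, 3], .l [10, 9, 12]]),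
([p 4 1, s 3 2, g, s 0 3, g, p 0 4, g, m 0 5, g, p 6 0, g, s 5 6, s 1 0, g, m 2 0, g], .hi 12, [.l [14, 13, 3, 12, 6, 12, 3, 8, 1, 8, 6, 3], .l [8, 14, 8, 12, 9, 3, 6, 7, 4, 1], .l [14, 13, 3, 12, 6, 12, 3, 8, 1, 8, 6, 3], .l [12, 11, 1, 10, 6, 10, 1, 6, 1, 6, 4, 1], .l [14, 13, 1, 12, 6, 12, 1, 8, 1, 8, 6, 1], .r 690 [1, 4, 7] [4, 1, 6, 3], .l [14, 13, 1, 12, 6, 12, 1, 8, 1, 8, 6, 1], .y [0, 12, 5], .l [14, 13, 1, 12, 8, 12, 1, 6, 1, 6, 4, 5], .l [10, 7, 7, 12, 8, 12, 8, 3, 4, 8, 6, 1], .l [14, 13, 1, 12, 8, 12, 1, 6, 1, 6, 4, 5], .l [7, 11, 10], .l [14, 13, 1, 7, 10, 7], .l [10, 3, 11, 12, 9, 1, 5, 6, 6, 1], .l [9, 13, 10], .l [11, 13, 10, 1, 8, 10, 8, 1], .l [14, 13, 1, 12, 8, 12, 1, 8, 3, 8, 4, 5], .l [11, 13, 8], .l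 [12, 11, 1, 10, 6, 12, 3, 8, 1, 8, 6, 3], .l [16, 14, 15, 11, 6, 9, 10, 4, 1, 4, 2, 3], .l [12, 11, 1, 10, 6, 12, 3, 8, 1, 8, 6, 3], .l [12, 11, 1, 10, 6, 10, 1, 6, 1, 6, 4, 5], .l [12, 11, 1, 10, 6, 10, 1, 6, 1, 6, 4, 5], .l [0, 11, 15, 3, 8, 4, 5]]),
([p 3 1, s 0 2, g, p 0 3, g, m 0 4, g, p 5 0, g, s 4 5, s 1 0, g, m 2 0, g], .lo 1, [.r 693 [1, 2, 6, 3, 4, 5] [1, 1, 1, 1, 1, 1, 1], .l [3, 1, 13, 11, 8], .l [2, 5, 2, 2, 8], .l [10, 5, 7, 12, 4, 1, 6, 1, 4, 5], .l [5, 3, 4, 2, 11, 9, 6], .l [12, 11, 3], .l [1, 6, 1, 8, 11, 7, 4, 7], .l [7, 5, 6, 4, 11, 7, 4], .l [12, 11, 5], .l [7, 5, 6, 4, 9, 5, 2], .l [1, 8, 3, 8, 11, 9, 6, 1], .l [9, 7, 8, 6, 11, 5, 2], .l [12, 11, 7], .l [10, 9, 8], .l [11, 4, 1, 4, 2, 6, 6, 3], .l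 [12, 10, 11, 9, 11, 2, 3], .l [10, 9, 10], .y [1, 12], .l [1, 13, 8, 3, 6, 9, 6, 1], .l [12, 10, 11, 9, 11, 2, 3], .l [10, 9, 12]]),
([p 3 1, s 0 2, g, p 0 3, g, s 0 4, g, p 5 0, g, s 4 5, s 1 0, g, m 2 0, g], .lo 1, [.l [2, 5, 2, 2, 8, 3], .l [3, 1, 13, 11, 8], .l [2, 5, 2, 2, 8], .l [5, 3, 4, 2, 11, 9, 6, 3], .l [5, 3, 4, 2, 11, 9, 6], .l [12, 11, 3], .l [7, 5, 6, 4, 11, 7, 4, 7], .l [7, 5, 6, 4, 11, 7, 4], .l [12, 11, 5], .l [7, 5, 6, 4, 9, 5, 2], .l [9, 7, 8, 6, 11, 5, 2, 7], .l [9, 7, 8, 6, 11, 5, 2], .l [12, 11, 7], .l [10, 9, 8], .l [11, 4, 1, 4, 2, 6, 6, 3], .l [12, 10, 11, 9, 11, 2, 3], .l [10, 9, 10], .y [1, 12], .l [1, 13, 6, 1, 4, 9, 6, 1], .l [12, 10, 11, 9, 11, 2, 3], .l [10, 9, 12]]),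
([p 3 1, s 0 2, g, p 0 3, g, p 4 0, g, s 0 4, s 1 0, g, m 2 0, g], .lo 7, [.l [0, 9, 5, 10, 2, 7], .l [0, 9, 5], .l [2, 5, 2, 6, 9, 5, 2, 5], .r 695 [1, 2, 3, 5, 4] [1, 1, 1, 1, 1, 1], .l [0, 9, 3], .r 694 [1, 2, 3, 5, 4] [1, 1, 1, 1, 1, 1], .y [5, 7], .r 456 [1, 2, 3, 5, 4] [1, 1, 1, 1, 1, 1], .l [0, 9, 1], .r 692 [1, 2, 3, 5, 4] [1, 1, 1, 1, 1, 1], .c, .l [4, 12, 8, 3, 4, 8, 6, 1], .l [10, 2, 8], .l [0, 7, 8], .l [0, 7, 8], .l [12, 4, 10, 7], .l [12, 4, 10], .l [0, 7, 10]]),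
([p 3 1, s 0 2, g, p 4 0, g, p 0 3, g, s 0 4, s 1 0, g, m 2 0, g], .lo 1, [.l [2, 7, 4, 4, 6, 3], .l [3, 1, 11, 9, 6], .l [2, 7, 4, 4, 6], .l [3, 1, 9, 7, 4], .l [12, 10, 11, 5, 9, 7, 2, 3], .l [5, 3, 11, 7, 4], .l [4, 7, 2, 2, 6], .l [7, 5, 6, 2, 9, 7, 4, 1], .l [7, 5, 6, 2, 9, 7, 4], .l [10, 9, 5], .l [8, 7, 6], .l [12, 10, 11, 7, 9, 7, 4, 1], .l [10, 8, 9, 5, 9, 4, 5], .l [8, 7, 8], .y [1, 10], .l [10, 8, 9, 5, 7, 5, 2, 5], .l [10, 8, 9, 5, 9, 4, 5], .l [8, 7, 10]]),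
([p 3 1, s 0 2, g, p 0 3, g, s 0 4, s 1 0, g, s 4 0, g, m 2 0, g], .lo 1, [.l [0, 7, 8, 6, 4, 1], .l [3, 1, 11, 9, 4], .l [0, 7, 8, 6, 4, 1], .l [0, 7, 8, 4, 2, 3], .l [5, 3, 4, 2, 9, 7, 2], .l [0, 7, 8, 4, 2, 3], .l [6, 5, 4], .l [0, 5, 8, 6, 2, 3], .l [8, 6, 7, 5, 9, 4, 5], .l [0, 5, 8, 6, 2, 3], .l [0, 5, 6, 6, 3, 6, 2, 3], .l [0, 5, 6, 4, 2, 5], .l [10, 8, 9, 7, 9, 2, 5], .l [0, 5, 6, 4, 2, 5], .y [1, 10], .l [0, 5, 6, 4, 2, 7], .l [10, 8, 9, 7, 9, 2, 5], .l [0, 5, 6, 4, 2, 7]]),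
([p 3 1, s 6 2, g, p 0 3, g, s 4 0, g, s 0 4, s 1 0, g, m 2 0, p 5 0, g, p 0 5, g, s 0 6, g], .hi 11, [.l [1, 13, 9, 1, 9, 12, 10, 7, 4, 1], .l [8, 13, 7, 9, 6, 8, 10, 5, 7, 4], .l [13, 9], .l [6, 11, 7, 7, 4, 6, 8, 5, 5, 2], .l [12, 10, 12, 8, 4, 5, 11, 3, 4, 1], .l [4, 17, 13, 5, 1, 11, 4, 11, 4, 9], .l [13, 7], .l [13, 5, 7, 5, 9, 6], .l [0, 9, 3, 11, 14, 9, 13, 7, 1, 5, 2, 7], .l [13, 5], .l [5, 6, 10, 3, 7, 10], .l [0, 7, 1, 11, 2, 7, 2, 4], .l [12, 4, 11, 6, 1, 10, 2, 12, 7, 1, 8, 3], .l [13, 2], .l [13, 1, 14, 12, 8], .l [11, 12], .l [13, 1], .y [11, 13], .l [1, 11, 14, 6, 1, 4, 10, 7, 4, 1], .l [11, 14], .l [15, 3], .l [0, 15, 13, 9, 11, 3, 10, 0, 6], .l [1, 11, 16, 8, 1, 4, 12, 9, 6, 1], .l [11, 16], .l [17, 5]]),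
([p 3 1, s 5 2, g, p 0 3, g, s 4 0, g, s 0 4, s 1 0, g, m 2 0, p 0 0, g, s 0 5, g], .lo 11, [.l [2, 5, 2, 10, 6], .l [3, 12], .l [0, 9, 1, 5, 9, 2], .l [5, 12, 7], .l [5, 12], .l [0, 9, 1, 3, 9, 2], .l [0, 7, 1, 1, 7, 2], .l [7, 12, 5], .l [7, 12], .l [0, 9, 2, 11, 2], .l [0, 7, 1, 6, 7, 5], .l [10, 12, 2], .l [10, 12], .l [0, 3, 2, 13, 4, 2, 10], .l [0, 3, 2, 11, 2, 0, 8], .y [11], .l [15, 13, 6, 12, 4, 1], .r 699 [1, 2, 3, 4, 6, 5] [1, 1, 1, 1, 1, 1, 1], .l [15, 13, 13, 4, 1], .l [1, 12, 14, 12, 9, 6], .l [0, 3, 2, 11, 13, 11, 8], .l [1, 12, 1, 13, 11, 9, 6, 1]]),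
([p 3 1, s 6 2, g, p 0 3, g, s 4 0, g, s 0 4, s 1 0, g, m 2 0, m 0 5, g, m 5 0, g, s 0 6, g], .lo 11, [.l [1, 13, 9, 1, 9, 12, 10, 7, 4, 1], .l [13, 9], .l [8, 13, 7, 9, 6, 8, 10, 5, 7, 4], .l [12, 10, 12, 8, 4, 5, 11, 3, 4, 1], .l [13, 7], .l [4, 17, 13, 5, 1, 11, 4, 11, 4, 9], .l [4, 15, 11, 3, 1, 9, 4, 9, 2, 7], .l [13, 5, 7, 5, 9, 6], .l [13, 5], .l [0, 9, 3, 11, 14, 9, 13, 7, 1, 5, 2, 7], .l [0, 7, 1, 9, 2, 5, 2, 8], .l [0, 7, 1, 11, 2, 7, 2, 4], .l [13, 2], .l [12, 4, 11, 6, 1, 10, 2, 12, 7, 1, 8, 3], .l [10, 2, 9, 6, 1, 8, 2, 10, 7, 1, 6, 1], .l [13, 1, 14, 12, 8], .l [13, 1], .l [11, 12], .y [11, 13], .l [1, 11, 14, 6, 1, 4, 10, 7, 4, 1], .l [15, 3], .l [11, 14], .l [1, 11, 16, 8, 1, 4, 12, 9, 6, 1], .l [17, 5],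 .l [11, 16]]),
([p 3 1, s 5 2, g, p 0 3, g, s 4 0, g, s 0 4, s 1 0, g, m 2 0, m 0 0, g, s 0 5, g], .hi 11, [.l [2, 5, 2, 10, 6], .l [0, 9, 1, 5, 9, 2], .l [3, 12], .l [0, 7, 1, 3, 7, 2], .l [5, 12, 7], .l [0, 9, 1, 3, 9, 2], .l [5, 12], .l [7, 12, 5], .l [0, 9, 2, 11, 2], .l [7, 12], .l [0, 7, 9], .l [10, 12, 2], .l [0, 3, 2, 13, 4, 2, 10], .l [10, 12], .y [11], .l [15, 13, 6, 12, 4, 1], .l [15, 13, 13, 4, 1], .r 701 [1, 2, 3, 4, 6, 5] [1, 1, 1, 1, 1, 1, 1], .l [0, 3, 2, 11, 11, 9, 8], .l [1, 12, 14, 12, 9, 6], .l [1, 12, 1, 13, 11, 9, 6, 1], .l [0, 3, 2, 11, 13, 11, 8]]),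
([p 0 1, s 4 2, g, s 1 0, g, m 2 0, s 0 3, g, m 3 0, g, s 0 4, g], .lo 6, [.l [3, 7, 4, 1], .l [3, 7, 4], .l [10, 1, 6, 4, 5], .l [3, 5, 2, 3], .l [5, 7, 2, 3], .l [5, 7, 2], .l [10, 1, 4, 2, 5], .l [8, 1, 2, 0, 3], .l [8, 1, 9, 7, 3, 1, 2, 5], .l [8, 1, 9, 7, 3], .l [12, 10, 1, 9, 6, 1], .y [6, 8], .l [8, 1, 4, 5, 2, 5], .l [8, 1, 9, 7, 3], .l [8, 1, 4, 5, 8, 1, 4, 5], .l [1, 9, 11, 7, 4, 1], .l [8, 1, 11, 9, 3], .l [8, 1, 4, 5, 2, 7]])]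

def d02_3 : List (List Item × Qry × List Rf) := [
([p 0 1, s 4 2, g, s 3 0, g, s 0 3, s 1 0, g, m 2 0, s 0 0, g, s 0 4, g], .hi 9, [.l [8], .l [3, 10, 7, 4], .l [0, 7, 1, 3, 7, 2], .l [3, 10, 7], .l [5, 10, 5, 2], .l [1, 12, 7, 5, 9, 6], .l [5, 10, 5], .l [0, 5, 7, 2], .l [8, 10, 2, 6], .l [1, 12, 4, 2, 9, 4], .l [8, 10, 2], .y [9], .l [13, 11, 4, 10, 4, 1], .l [13, 11, 4, 10, 4, 1], .r 703 [1, 2, 5, 4] [4, 1, 1, 1, 1], .l [1, 10, 10, 8, 7, 4], .l [1, 10, 12, 10, 7, 4], .l [11, 9, 4, 8, 2, 8], .l [1, 10, 12, 10, 7, 4]]),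
([p 3 1, s 5 2, g, p 0 3, g, s 4 0, g, s 0 4, s 1 0, g, m 2 0, g, s 0 5, g], .top 11, [.l [0, 3, 2, 9, 8], .r 704 [1, 2, 4, 5] [3, 1, 1, 1, 1], .r 700 [1, 2, 3, 4, 5] [1, 1, 1, 1, 1, 1], .r 702 [1, 2, 3, 4, 5] [1, 1, 1, 1, 1, 1]]),
([p 3 1, s 6 2, g, p 0 3, g, s 4 0, g, s 0 4, s 1 0, p 5 0, g, p 0 5, g, s 0 6, g, m 2 0, g], .lo 11, [.l [2, 5, 2, 10, 10, 8, 5], .l [3, 12], .l [2, 5, 2, 10], .l [10, 9, 13, 9, 7, 7, 5, 6], .l [5, 12], .l [0, 9, 1, 3, 9, 5, 2, 8], .l [0, 7, 1, 1, 7, 5, 2, 6], .l [10, 9, 13, 7, 5, 5, 3, 6], .l [7, 12], .l [5, 8, 1, 10, 10, 8, 5, 8], .l [8, 7, 11, 4, 2, 2, 0, 5], .y [9, 11], .l [10, 5, 1, 15, 7, 11, 7, 5, 8, 1], .l [11, 12], .l [8, 15, 7, 13, 1, 9, 1, 12, 8, 1, 4, 7], .l [8, 17, 9, 15, 1, 11,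 1, 7, 10, 3], .l [10, 17, 7, 1, 14, 12, 1, 11, 4], .l [8, 15, 7, 13, 1, 9, 1, 5, 8, 3], .l [8, 7, 11, 13, 11, 11, 9, 4], .l [8, 7, 11, 13, 11, 11, 9, 4], .l [1, 12, 1, 12, 14, 12, 6, 1], .l [1, 12, 1, 12, 12, 10, 6, 1], .l [8, 7, 11, 15, 13, 13, 11, 4], .l [8, 7, 11, 15, 13, 13, 11, 4], .l [10, 11, 9, 7, 7, 4, 11, 4, 10]]),
([p 3 1, s 5 2, g, p 0 3, g, s 4 0, g, s 0 4, s 1 0, p 0 0, g, s 0 5, g, m 2 0, g], .lo 9, [.l [2, 5, 2, 8, 5], .l [3, 10], .l [2, 5, 2, 8], .l [13, 11, 12, 10, 12, 2, 4, 8], .l [5, 10], .l [0, 9, 1, 3, 7, 3, 2, 7], .l [0, 7, 1, 1, 5, 3, 2, 5], .l [13, 11, 12, 10, 12, 2, 4, 6], .l [7, 10], .l [5, 8, 1, 8, 5, 8], .c, .y [9], .l [13, 11, 12, 10, 12, 2, 6, 1], .r 706 [1, 2, 3, 4, 6, 5] [1, 1, 1, 1, 1, 1,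 1], .l [13, 11, 12, 10, 12, 2, 6, 1], .l [11, 9, 10, 8, 12, 4, 6, 3], .l [8, 7, 9, 11, 9, 4], .l [1, 10, 1, 11, 13, 11, 6, 1], .l [1, 10, 1, 11, 11, 9, 6, 1], .l [11, 9, 10, 8, 10, 2, 4, 8], .l [8, 7, 9, 13, 11, 4], .l [11, 9, 10, 8, 10, 2, 4, 8]]),
([p 2 1, s 5 0, g, p 0 2, g, s 3 0, g, s 0 3, s 1 0, s 0 4, g, s 0 5, g, p 4 0, g], .hi 8, [.l [10, 9, 11, 2, 8, 1, 6, 9], .l [10, 9, 11, 9, 6, 1], .l [3, 9, 1, 8, 2, 9], .y [0, 8, 3], .l [12, 2, 11, 11, 8, 1, 6, 9], .l [10, 9, 11, 7, 4, 1], .l [5, 9, 1, 8, 4, 9], .l [12, 2, 11, 11, 8, 3, 6, 9], .l [10, 9, 11, 5, 2, 4], .l [10, 2, 4, 2, 6, 8], .c, .c, .l [11, 2, 13, 3, 10, 1], .l [12, 4, 11, 11, 8, 5, 6, 9], .l [0, 7, 1, 9, 2, 10], .l [8, 7, 9, 9, 6, 1], .l [13, 4, 13, 1, 8,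 1], .l [8, 7, 9, 2, 10, 3, 8, 9], .l [0, 7, 1, 11, 4, 10], .l [15, 6, 3, 5, 12, 7], .l [8, 14, 3, 5, 11, 1], .l [0, 7, 1, 13, 6, 3]]),
([p 3 1, s 5 2, g, p 0 3, g, s 4 0, g, s 0 4, s 1 0, s 0 0, g, s 0 5, g, m 2 0, g], .hi 9, [.l [2, 5, 2, 8, 5, 8], .l [2, 5, 2, 8, 5], .l [13, 11, 14, 2, 4, 10], .l [2, 3, 0, 6, 5], .l [13, 11, 12, 10, 12, 2, 4, 8], .l [10, 9, 11, 7, 5, 6], .l [13, 11, 12, 10, 12, 2, 4, 8], .l [13, 11, 12, 10, 12, 2, 4, 6], .l [10, 9, 11, 5, 3, 6], .l [13, 11, 12, 10, 12, 2, 4, 6], .l [0, 7, 7, 3, 2, 7], .y [9], .l [13, 11, 12, 10, 12, 2, 6, 1], .l [13, 11, 12, 10, 12, 2, 6, 1], .l [11, 1, 14, 4, 10, 1], .l [11, 9, 10, 8, 10, 2, 4, 1], .l [11, 9, 10, 8, 12, 4, 6, 3], .r 708 [1, 3, 4, 6, 5] [1, 1, 1, 1, 1,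 3], .l [11, 9, 10, 8, 12, 4, 6, 3], .l [11, 9, 10, 8, 10, 2, 4, 8], .l [11, 9, 10, 8, 10, 2, 4, 8], .l [0, 7, 1, 13, 5, 9, 2, 4]]),
([p 3 1, s 6 2, g, p 0 3, g, s 4 0, g, s 0 4, s 1 0, m 0 5, g, m 5 0, g, s 0 6, g, m 2 0, g], .hi 11, [.l [2, 5, 2, 10, 10, 8, 5], .l [2, 5, 2, 10], .l [3, 12], .l [2, 3, 0, 8], .l [10, 9, 13, 9, 7, 7, 5, 6], .l [0, 9, 1, 3, 9, 5, 2, 8], .l [5, 12], .l [10, 9, 13, 7, 5, 5, 3, 6], .l [5, 8, 1, 10, 10, 8, 5, 8], .l [7, 12], .l [0, 7, 9], .y [9, 11], .l [10, 5, 1, 15, 7, 11, 7, 5, 8, 1], .l [8, 15, 7, 13, 1, 9, 1, 12, 8, 1, 4, 7], .l [11, 12], .l [8, 17, 9, 15, 1, 11, 1, 7, 10, 3], .l [8, 15, 7, 13, 1, 9, 1, 5, 8, 3], .l [10, 17, 7, 1, 14, 12, 1, 11, 4], .l [8, 7, 11, 11, 9, 9, 7, 4], .l [8, 7,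 11, 13, 11, 11, 9, 4], .l [1, 12, 1, 12, 14, 12, 6, 1], .l [8, 7, 11, 13, 11, 11, 9, 4], .l [8, 7, 11, 15, 13, 13, 11, 4], .l [10, 11, 9, 7, 7, 4, 11, 4, 10], .l [8, 7, 11, 15, 13, 13, 11, 4]]),
([p 3 1, s 5 2, g, p 0 3, g, s 4 0, g, s 0 4, s 1 0, m 0 0, g, s 0 5, g, m 2 0, g], .hi 9, [.l [2, 5, 2, 8, 5], .l [2, 5, 2, 8], .l [3, 10], .l [2, 3, 0, 6], .l [13, 11, 12, 10, 12, 2, 4, 8], .l [0, 9, 1, 3, 7, 3, 2, 7], .l [5, 10], .l [13, 11, 12, 10, 12, 2, 4, 6], .l [5, 8, 1, 8, 5, 8], .l [7, 10], .l [0, 7, 7], .y [9], .l [13, 11, 12, 10, 12, 2, 6, 1], .l [13, 11, 12, 10, 12, 2, 6, 1], .r 710 [1, 2, 3, 4, 6, 5] [1, 1, 1, 1, 1, 1, 1], .l [8, 7, 9, 9, 7, 4], .l [11, 9, 10, 8, 12, 4, 6, 3], .l [1, 10, 1, 11, 13, 11, 6, 1], .l [8,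 7, 9, 11, 9, 4], .l [11, 9, 10, 8, 10, 2, 4, 8], .l [11, 9, 10, 8, 10, 2, 4, 8], .l [8, 7, 9, 13, 11, 4]]),
([p 3 1, s 5 2, g, p 0 3, g, s 4 0, g, s 0 4, s 1 0, g, s 0 5, g, m 2 0, g], .top 9, [.l [8, 7, 7, 4], .r 709 [1, 2, 3, 4, 5] [1, 1, 1, 1, 1, 1], .r 707 [1, 2, 3, 4, 5] [1, 1, 1, 1, 1, 1], .r 711 [1, 2, 3, 4, 5] [1, 1, 1, 1, 1, 1]]),
([p 3 1, s 0 2, g, p 0 3, g, s 4 0, g, s 0 4, s 1 0, g, m 2 0, g], .lo 1, [.l [2, 5, 2, 2, 6, 1], .l [3, 1, 11, 9, 6], .l [2, 5, 2, 2, 6], .l [5, 3, 4, 2, 9, 7, 4, 1], .l [5, 3, 4, 2, 9, 7, 4], .l [10, 9, 3], .l [0, 7, 1, 1, 3, 6, 2, 3], .l [7, 5, 6, 4, 9, 5, 2, 5], .l [7, 5, 6, 4, 9, 5, 2], .l [10, 9, 5], .l [8, 7, 6], .r 712 [1, 2, 3, 4, 5] [1, 1, 1, 1, 1, 1], .l [10, 8, 9, 7, 9, 2,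 3], .l [8, 7, 8], .y [1, 10], .r 705 [1, 2, 3, 4, 5] [1, 1, 1, 1, 1, 1], .l [10, 8, 9, 7, 9, 2, 3], .l [8, 7, 10]]),
([p 3 1, s 0 2, g, p 0 3, g, s 0 0, s 1 0, g, m 2 0, g], .hi 5, [.l [0, 5, 3, 6, 2, 3], .l [0, 7, 3, 8, 2, 5], .r 697 [1, 2, 3, 4] [1, 1, 1, 1, 1], .l [0, 7, 3], .r 455 [1, 2, 3, 4] [1, 1, 1, 1], .r 713 [1, 2, 3, 4] [1, 1, 1, 1, 1], .r 696 [1, 2, 3, 4] [1, 1, 1, 1, 1], .l [0, 7, 1], .y [5], .r 698 [1, 2, 3, 4] [1, 1, 1, 1, 1], .l [0, 5, 6], .l [8, 2, 6], .l [10, 4, 8, 5], .l [0, 5, 8], .l [10, 4, 8]]),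
([p 3 1, s 0 2, g, p 0 3, g, s 1 0, g, m 2 0, g], .bot 4, [.l [0, 3, 2], .r 714 [1, 2, 3] [1, 1, 1, 1], .r 518 [1, 2] [3, 1, 1], .r 519 [1, 2] [3, 1, 1]]),
([p 4 1, s 7 2, g, s 5 3, g, m 3 0, g, p 0 4, g, m 2 0, p 6 5, g, p 0 6, g, s 0 7, g, s 1 0, g], .hi 5, [.l [2, 12, 6, 3, 7, 4, 4, 1, 7, 5, 2, 7], .l [0, 17, 14, 3, 5, 13, 6], .l [3, 6], .l [4, 7, 5, 10, 4, 1, 5, 1, 7, 5, 2, 7], .l [0, 17, 12, 1, 3, 13, 8], .l [5, 6], .l [4, 9, 4, 1, 9, 2, 7, 4, 7, 2, 4, 7], .l [0, 17, 12, 1, 3, 13, 8], .l [5, 1, 11, 9, 9, 4, 1, 4, 7, 5, 2], .l [0, 15, 10, 1, 1, 11, 8], .l [8, 12, 6, 10, 7, 4, 9, 7, 4, 9], .l [4, 7, 2, 6], .l [0, 12, 8, 3, 9, 12, 7, 1, 8, 6, 3, 4, 5], .l [4, 7, 2, 9, 11, 9, 3], .l [0, 17, 12, 6, 8, 6, 11], .l [5, 1,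 6, 1, 9, 4, 4, 1, 7, 5, 1], .y [3, 5, 12, 10], .l [5, 1, 9, 7, 7, 9, 6, 1, 4, 5, 2, 7], .l [4, 7, 2, 11], .l [10, 6, 6, 4, 7, 5, 9, 6, 1, 6, 1], .l [5, 1, 9, 7, 7, 9, 6, 1, 4, 5, 2, 5], .l [5, 1, 9, 7, 7, 11, 8, 1, 4, 7, 4, 7], .l [4, 7, 2, 13], .l [5, 1, 13, 9, 5, 10, 7, 1, 3, 6, 1, 7, 1], .l [5, 1, 9, 7, 7, 13, 10, 1, 4, 9, 6, 3], .l [4, 7, 2, 15], .l [5, 1, 13, 9, 5, 10, 7, 1, 3, 6, 1, 9, 3]]),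
([p 3 1, s 6 2, g, s 4 0, g, p 0 3, g, m 2 0, p 5 4, g, p 0 5, g, s 0 6, g, s 1 0, g], .hi 3, [.l [2, 10, 4, 1, 5, 1, 7, 5, 2, 7], .l [10, 4, 6, 1, 9, 7, 3], .l [4, 10, 4, 6, 10, 5, 7, 4, 1, 2, 4, 5], .l [4, 7, 2, 4, 7, 2, 11, 6, 8, 5], .l [10, 6, 9, 5, 7, 4, 7, 2, 4], .r 716 [1, 2, 7, 3, 4, 5, 6] [1, 1, 1, 1, 1, 1, 1, 1], .l [8, 4, 7, 5, 5, 2, 5, 2, 2], .l [7, 3, 9, 5, 2, 5, 7, 5, 1, 6, 4, 5], .l [9, 7, 13, 5, 12, 1, 9, 5, 7, 1, 6, 3], .l [7, 3, 9, 5, 2, 5, 7, 5, 1], .l [3, 9, 11, 9, 4, 11], .l [2, 5, 2, 7, 9, 7, 1], .l [8, 4, 7, 5, 7, 4, 7, 2, 4], .y [3, 10, 8], .l [8, 4, 4, 9, 13, 9, 6, 10, 8, 3], .l [8, 4, 4, 9, 13, 9, 6, 10, 8, 3], .l [8, 4, 7, 5, 9, 6, 1, 6, 1], .l [0, 13, 1, 10, 6, 4, 4, 6, 3, 5, 0, 1], .l [2, 8,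 4, 1, 3, 9, 1, 3, 1, 5, 2, 5], .l [2, 8, 4, 1, 3, 9, 1, 3, 1, 5, 2, 5], .l [8, 4, 7, 5, 11, 8, 1, 8, 3], .l [2, 8, 4, 1, 3, 11, 3, 5, 1, 7, 2, 3], .l [8, 4, 7, 5, 9, 4, 8, 2, 8, 3, 6, 1], .l [8, 4, 7, 5, 13, 10, 1, 10, 5]]),
([p 3 1, s 6 2, g, p 0 3, g, p 4 0, g, m 2 0, p 5 4, g, p 0 5, g, s 0 6, g, s 1 0, g], .lo 10, [.l [2, 5, 2, 9, 9, 7, 3], .l [3, 11], .l [0, 15, 12, 8, 8, 6, 9], .l [5, 11, 11, 9, 4], .l [5, 11], .l [0, 15, 10, 6, 6, 4, 9], .y [5, 10, 8], .l [7, 11, 11, 9, 2], .l [7, 11], .l [0, 15, 8, 4, 4, 2, 9], .l [0, 13, 6, 2, 2, 0, 7], .l [9, 12, 10, 5, 11, 5, 10, 1, 8, 1], .l [10, 11], .l [0, 15, 1, 12, 1, 11, 6, 8, 7, 7, 3, 5, 1], .l [9, 10, 8, 5, 11, 5, 10, 1, 8, 1], .l [0, 15, 1, 12, 1, 11, 6, 8, 7, 7, 5,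 5, 3], .l [0, 15, 5, 1, 3, 10, 1, 9, 4, 1], .l [1, 11, 13, 11, 11, 9, 6, 9], .l [0, 3, 2, 10, 12, 10, 10, 8, 5], .l [0, 15, 3, 12, 1, 11, 6, 8, 7, 7, 5, 5, 3], .l [0, 13, 13, 9, 9, 7, 5], .l [0, 13, 15, 11, 11, 9, 5, 1, 4, 7], .l [0, 13, 15, 11, 11, 9, 5], .l [0, 13, 1, 10, 1, 9, 4, 6, 5, 5, 3, 3, 5]]),
([p 3 1, s 5 2, g, p 0 3, g, m 2 0, p 4 0, g, p 0 4, g, s 0 5, g, s 1 0, g], .hi 6, [.r 717 [1, 2, 3, 6, 4, 5] [1, 1, 1, 1, 1, 1, 1], .l [5, 8, 5, 7, 4, 11, 6, 8, 5], .l [8, 4], .l [3, 6, 5, 5, 2, 9, 6, 6, 3], .l [7, 5, 7, 3, 9, 7, 8, 5, 6, 3], .r 718 [1, 2, 3, 6, 4, 5] [1, 1, 1, 1, 1, 1, 1], .l [8, 2], .l [8, 1, 9, 7, 3], .l [6, 7], .l [8, 1], .y [6, 8], .l [6, 9, 13, 9, 6, 10, 8, 3], .l [6, 9], .l [10, 3], .l [0, 11, 1,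 8, 4, 6, 3, 5, 0, 1], .l [0, 13, 3, 10, 4, 6, 3, 7, 2, 3], .l [6, 11], .l [12, 5], .l [5, 3, 13, 7, 3, 7, 2, 4, 2, 5], .l [6, 13], .l [14, 7]]),
([p 3 1, s 4 2, g, p 0 3, g, m 2 0, p 0 0, g, s 0 4, g, s 1 0, g], .lo 6, [.l [2, 5, 2, 5, 1], .l [3, 7], .l [0, 11, 8, 4, 7], .l [5, 7, 2], .l [5, 7], .l [0, 11, 6, 2, 7], .l [0, 9, 4, 0, 5], .y [6], .l [0, 11, 1, 8, 1, 7, 4, 1], .r 719 [1, 2, 3, 5, 4] [1, 1, 1, 1, 1, 1], .l [10, 8, 8, 4, 1], .l [0, 11, 3, 8, 1, 7, 4, 1], .l [0, 3, 2, 6, 8, 6, 3], .l [8, 6, 6, 2, 7], .l [0, 9, 9, 5, 3], .l [0, 9, 1, 6, 1, 5, 2, 5], .l [0, 9, 11, 7, 3], .l [8, 6, 6, 2, 9]]),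
([p 3 1, s 6 2, g, p 4 3, g, p 0 4, g, m 2 0, s 7 5, g, m 5 0, g, s 0 6, g, m 0 7, g, s 1 0, g], .lo 5, [.l [0, 17, 14, 3, 3, 1, 1, 11, 8, 5], .l [3, 6], .l [0, 17, 14, 3, 3, 1, 1, 11, 8], .l [4, 7, 5, 8, 12, 9, 2, 1, 4, 7, 4, 7], .l [5, 6], .l [4, 7, 5, 5, 2, 1], .l [0, 17, 12, 1, 8, 12, 1, 11, 4, 7], .l [0, 10, 15, 8, 2, 5, 7, 3, 5, 8, 3, 1, 3], .l [4, 5, 3, 3, 0, 2], .l [4, 5, 3, 3, 0, 2], .l [0, 17, 12, 4, 6, 4, 11, 1, 10, 5], .l [4, 5, 3, 12, 10, 10, 6, 10, 2, 0, 5, 1, 5], .l [4, 5, 3, 3, 0, 5], .l [4, 5, 3, 3, 0, 5], .l [8, 15, 1, 6, 14, 4, 8, 1, 4, 7], .l [0, 8, 15, 10, 2, 7, 9, 3, 5, 8, 3, 1, 3], .l [4, 5, 3, 3, 0, 7], .l [18, 17, 10, 6, 10, 1, 6, 9], .l [18, 17, 10, 12, 5, 5, 3, 12, 8, 10, 8, 3], .l [4, 5, 3, 3,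 0, 9], .l [4, 5, 3, 8, 1, 14, 8, 1, 8, 0, 1, 3, 6, 1], .l [13, 16, 7, 7, 5, 5, 2, 5, 1], .l [4, 5, 3, 3, 0, 11], .y [0, 16, 5, 3], .l [0, 15, 10, 15, 4, 2, 5, 3, 10, 6, 4, 5], .l [13, 18, 9, 9, 7, 7, 4, 7, 1], .l [0, 15, 10, 15, 4, 2, 5, 3, 10, 6, 4, 5]]),
([p 3 1, s 5 2, g, p 0 3, g, m 2 0, s 6 4, g, m 4 0, g, s 0 5, g, m 0 6, g, s 1 0, g], .lo 3, [.l [0, 15, 12, 1, 1, 11, 8, 5], .l [3, 4], .l [0, 15, 12, 1, 1, 11, 8], .l [0, 15, 12, 1, 6, 1, 4, 9, 6, 3], .r 721 [1, 2, 3, 7, 4, 5, 6] [1, 1, 1, 1, 1, 1, 1, 1], .l [2, 3, 0, 2], .l [2, 3, 0, 2], .l [0, 15, 12, 4, 6, 4, 9, 1, 3, 5, 6, 1], .l [2, 6, 12, 1, 5, 7, 0, 4, 1, 5, 2, 5], .l [2, 3, 0, 5], .l [2, 3, 0, 5], .l [6, 13, 1, 6, 12, 4, 6, 1, 2, 5], .l [6, 13, 1, 6, 12, 4,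 6, 1, 2, 5], .l [2, 3, 0, 7], .l [16, 15, 8, 6, 8, 1, 4, 7], .l [16, 15, 8, 10, 3, 12, 8, 10, 8, 3], .l [2, 3, 0, 9], .l [2, 8, 1, 14, 8, 1, 8, 0, 1, 3, 6, 1], .l [11, 14, 5, 5, 2, 5, 1], .l [2, 3, 0, 11], .y [0, 14, 3], .l [8, 1, 9, 2, 10, 6, 10, 3, 6, 1], .l [11, 16, 7, 7, 4, 7, 1], .l [2, 3, 0, 13]]),
([p 3 1, s 5 2, g, p 0 3, g, m 2 0, s 0 4, g, m 4 0, g, s 0 5, g, s 1 0, g], .lo 6, [.l [3, 7, 4, 11], .l [3, 7, 4], .l [2, 5, 2, 5, 1], .l [5, 7, 2, 11], .l [5, 7, 2], .l [10, 1, 4, 2, 5], .l [8, 1, 2, 0, 3], .l [0, 13, 1, 10, 1, 9, 6, 1], .l [8, 1, 9, 7, 3], .l [0, 13, 1, 10, 1, 9, 6, 1], .y [6, 8], .l [0, 13, 1, 10, 1, 9, 6, 3], .l [8, 1, 9, 7, 3], .l [0, 13, 1, 10, 1, 9, 6, 3], .l [0, 13, 3, 10, 1, 9, 6, 3], .l [8,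 1, 11, 9, 3], .r 722 [1, 2, 3, 4, 5, 6] [1, 1, 1, 1, 1, 1, 1], .l [0, 11, 11, 5, 3, 1, 2, 5], .l [0, 11, 1, 8, 1, 7, 4, 7], .l [8, 1, 13, 11, 3], .l [0, 11, 1, 8, 1, 7, 4, 7]]),
([p 3 1, s 7 2, g, p 4 3, g, p 0 4, g, m 2 0, s 6 5, g, p 0 6, g, s 0 7, g, p 5 0, g, s 1 0, g], .lo 5, [.l [0, 17, 14, 3, 3, 1, 1, 11, 8, 5], .l [3, 6], .l [0, 17, 14, 3, 3, 1, 1, 11, 8], .l [4, 7, 5, 8, 12, 9, 2, 1, 4, 7, 4, 7], .l [5, 6], .l [4, 7, 5, 5, 2, 1], .l [0, 17, 12, 1, 8, 12, 1, 11, 4, 7], .l [0, 10, 15, 8, 2, 5, 7, 3, 5, 8, 3, 1, 3], .l [4, 5, 3, 3, 0, 2], .l [4, 5, 3, 3, 0, 2], .l [0, 17, 12, 4, 6, 4, 11, 1, 10, 5], .l [4, 5, 3, 12, 10, 10, 6, 10, 2, 0, 5, 1, 5], .l [4, 5, 3, 3, 0, 5], .l [8, 15, 1, 6, 14, 4, 8, 1, 4, 7], .l [0, 8,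 15, 10, 2, 7, 9, 3, 5, 8, 3, 1, 3], .l [4, 5, 3, 3, 0, 7], .l [18, 17, 10, 6, 10, 1, 6, 9], .l [18, 17, 10, 12, 5, 5, 3, 12, 8, 10, 8, 3], .l [4, 5, 3, 3, 0, 9], .l [13, 14, 5, 5, 3, 3, 0, 3, 1], .l [4, 5, 3, 8, 1, 14, 8, 1, 8, 0, 1, 3, 6, 1], .l [13, 16, 7, 7, 5, 5, 2, 5, 1], .l [4, 5, 3, 3, 0, 11], .y [0, 16, 5, 3], .l [0, 15, 10, 15, 4, 2, 5, 3, 10, 6, 4, 5], .l [13, 18, 9, 9, 7, 7, 4, 7, 1], .l [0, 15, 10, 15, 4, 2, 5, 3, 10, 6, 4, 5]]),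
([p 3 1, s 6 2, g, p 0 3, g, m 2 0, s 5 4, g, p 0 5, g, s 0 6, g, p 4 0, g, s 1 0, g], .lo 3, [.l [0, 15, 12, 1, 1, 11, 8, 5], .l [3, 4], .l [0, 15, 12, 1, 1, 11, 8], .l [0, 15, 12, 1, 6, 1, 4, 9, 6, 3], .r 724 [1, 2, 3, 7, 4, 5, 6] [1, 1, 1, 1, 1, 1, 1, 1], .l [2, 3, 0, 2], .l [2, 3, 0, 2], .l [0, 15, 12, 4, 6, 4, 9, 1, 3, 5, 6, 1], .l [2, 6, 12, 1, 5, 7, 0, 4, 1, 5, 2, 5], .l [2, 3, 0, 5], .l [6, 13, 1, 6, 12, 4, 6, 1, 2, 5], .l [6, 13, 1, 6, 12, 4, 6, 1, 2, 5], .l [2, 3, 0, 7], .l [16, 15, 8, 6, 8, 1, 4, 7], .l [16, 15, 8, 10, 3, 12, 8, 10, 8, 3], .l [2, 3, 0, 9], .l [11, 12, 3, 3, 0, 3, 1], .l [2, 8, 1, 14, 8, 1, 8, 0, 1, 3, 6, 1], .l [11, 14, 5, 5, 2, 5, 1], .l [2, 3, 0, 11], .y [0, 14, 3], .l [8, 1, 9, 2, 10, 6, 10,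 3, 6, 1], .l [11, 16, 7, 7, 4, 7, 1], .l [2, 3, 0, 13]]),
([p 3 1, s 5 2, g, p 0 3, g, m 2 0, s 0 4, g, s 0 5, g, p 4 0, g, s 1 0, g], .lo 6, [.l [3, 7, 4, 11], .l [3, 7, 4], .l [2, 5, 2, 5, 1], .l [5, 7, 2, 11], .l [5, 7, 2], .l [0, 13, 1, 3, 6, 2, 7, 1, 6, 3], .l [0, 11, 1, 3, 4, 0, 5, 1, 4, 1], .l [0, 13, 3, 10, 1, 9, 6, 1], .r 725 [1, 2, 3, 4, 6, 5] [1, 1, 1, 1, 1, 1, 1], .l [6, 11, 3, 9, 3], .l [0, 13, 5, 10, 1, 9, 6, 3], .l [0, 13, 5, 10, 1, 9, 6, 3], .l [6, 11, 1, 9, 3], .y [6, 10], .l [0, 13, 5, 10, 1, 9, 6, 1], .l [0, 13, 5, 10, 1, 9, 6, 1], .l [6, 11, 1, 9, 3], .l [0, 11, 1, 3, 9, 5, 3, 1, 2, 3], .l [0, 11, 3, 8, 1, 7, 4, 7], .l [0, 11, 1, 3, 11, 7, 3, 1, 2, 5], .l [6, 13, 3, 11, 3]]),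
([p 3 1, s 4 2, g, p 0 3, g, m 2 0, s 0 0, g, s 0 4, g, s 1 0, g], .hi 6, [.l [3, 7, 4, 9], .l [2, 5, 2, 5, 1], .l [3, 7, 4], .l [2, 3, 0, 3, 1], .l [5, 7, 2, 9], .l [0, 11, 6, 2, 7, 1, 6, 3], .l [5, 7, 2], .y [6], .l [0, 11, 1, 8, 1, 7, 4, 1], .l [0, 11, 1, 8, 1, 7, 4, 1], .r 723 [1, 2, 3, 5, 4] [1, 1, 1, 1, 1, 1], .l [0, 9, 1, 6, 1, 5, 2, 1], .l [0, 11, 3, 8, 1, 7, 4, 1], .r 726 [1, 2, 3, 5, 4] [1, 1, 1, 1, 1, 1], .l [0, 11, 3, 8, 1, 7, 4, 1], .l [0, 9, 1, 6, 1, 5, 2, 5], .l [0, 9, 1, 6, 1, 5, 2, 5], .l [0, 9, 11, 7, 3, 1, 2, 5]]),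
([p 3 1, s 6 2, g, p 0 3, g, m 2 0, m 0 4, g, m 4 5, g, s 0 6, g, p 5 0, g, s 1 0, g], .lo 6, [.l [16, 15, 10, 1, 10, 12, 6, 2, 6, 3, 4, 5], .l [8, 4], .l [9, 10, 8, 8, 3, 5, 2, 8], .l [7, 5, 7, 3, 9, 7, 10, 5, 3, 5, 6, 3], .l [8, 2], .l [0, 15, 3, 12, 1, 11, 6, 8, 7, 7, 5, 5, 3], .l [0, 13, 3, 10, 1, 9, 6, 6, 5, 5, 3, 3, 1], .l [8, 1, 9, 7, 3], .l [8, 1], .l [6, 7], .l [6, 9, 15, 11, 6, 12, 10, 3], .l [10, 3], .l [6, 9], .l [0, 15, 5, 12, 4, 8, 5, 9, 2, 5], .l [12, 5], .l [6, 11], .y [6, 8, 12], .l [1, 9, 1, 9, 7, 9, 1, 7, 4, 7], .l [14, 7], .l [6, 13], .l [6, 13, 13, 5, 8, 1, 8, 6, 2, 1, 3, 1, 3], .l [1, 9, 1, 9, 7, 11, 3, 9, 4, 5], .l [16, 9], .l [6, 15]]),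
([p 3 1, s 6 2, g, p 0 3, g, m 2 0, m 0 4, g, m 4 5, g, m 5 0, g, s 0 6, g, s 1 0, g], .hi 10, [.l [2, 5, 2, 9, 9, 7, 7, 5, 1], .l [0, 15, 12, 8, 8, 6, 6, 4, 7], .l [3, 11], .l [0, 13, 10, 6, 6, 4, 4, 2, 5], .l [5, 11, 11, 9, 9, 7, 2], .l [0, 15, 10, 6, 6, 4, 4, 2, 7], .l [5, 11], .y [6, 8, 10], .l [7, 10, 8, 3, 11, 7, 10, 1, 8, 3], .l [0, 15, 1, 12, 1, 11, 6, 3, 5, 6, 1, 3, 1], .l [8, 11], .l [9, 12, 10, 10, 8, 3, 9, 5, 8, 1, 6, 1], .l [6, 8, 7, 3, 4, 2, 10, 8, 9, 5, 1, 5, 3], .l [10, 11], .l [9, 10, 8, 8, 6, 3, 9, 5, 8, 1, 6, 1], .l [0, 15, 5, 1, 3, 10, 1, 9, 4, 1, 3, 4, 1], .l [10, 12, 11, 11, 9, 9, 7, 3, 4, 2, 6, 4, 5], .l [0, 3, 2, 10, 10, 8, 8, 6, 6, 4, 3], .l [1, 11, 13, 11, 11, 9, 9, 7, 4, 7], .l [1, 11, 15, 4,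 6, 1, 3, 10, 10, 8, 8, 6, 1], .l [0, 3, 2, 10, 12, 10, 10, 8, 8, 6, 3], .l [0, 13, 15, 11, 11, 9, 9, 7, 3, 1, 2, 5], .l [0, 13, 3, 13, 4, 2, 8, 10, 0, 8, 8, 6, 3], .l [0, 13, 15, 11, 11, 9, 9, 7, 3]]),
([p 3 1, s 5 2, g, p 0 3, g, m 2 0, m 0 4, g, m 4 0, g, s 0 5, g, s 1 0, g], .hi 8, [.l [2, 5, 2, 7, 7, 5, 1], .l [0, 13, 10, 6, 6, 4, 7], .l [3, 9], .l [0, 11, 8, 4, 4, 2, 5], .l [5, 9, 9, 7, 2], .l [0, 13, 8, 4, 4, 2, 7], .l [5, 9], .y [6, 8], .l [7, 10, 8, 3, 9, 5, 8, 1, 6, 1], .l [0, 13, 5, 1, 8, 0, 9, 6, 3], .l [8, 9], .l [7, 8, 6, 3, 9, 5, 8, 1, 6, 1], .l [0, 13, 5, 1, 3, 8, 1, 7, 4, 1], .r 729 [1, 2, 3, 4, 6, 5] [1, 1, 1, 1, 1, 1, 1], .l [0, 3, 2, 8, 8, 6, 6, 4, 3], .l [1, 9, 11, 9, 9, 7, 4, 7], .r 728 [1, 2, 3, 4,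 6, 5] [1, 1, 1, 1, 1, 1, 1], .l [0, 3, 2, 8, 10, 8, 8, 6, 3], .l [0, 11, 13, 9, 9, 7, 3, 1, 2, 5], .l [0, 11, 3, 11, 9, 6, 1, 5, 2, 5], .l [0, 11, 13, 9, 9, 7, 3]]),
([p 3 1, s 4 2, g, p 0 3, g, m 2 0, m 0 0, g, s 0 4, g, s 1 0, g], .hi 6, [.l [2, 5, 2, 5, 1], .l [0, 11, 8, 4, 7], .l [3, 7], .l [0, 9, 6, 2, 5], .l [5, 7, 2], .l [0, 11, 6, 2, 7], .l [5, 7], .y [6], .l [0, 11, 1, 8, 1, 7, 4, 1], .l [10, 8, 8, 4, 1], .r 730 [1, 2, 3, 5, 4] [1, 1, 1, 1, 1, 1], .l [0, 3, 2, 6, 6, 4, 3], .l [0, 11, 3, 8, 1, 7, 4, 1], .l [8, 6, 6, 2, 7], .l [0, 3, 2, 6, 8, 6, 3], .l [0, 9, 1, 6, 1, 5, 2, 5], .l [8, 6, 6, 2, 9], .l [0, 9, 11, 7, 3]]),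
([p 3 1, s 4 2, g, p 0 3, g, m 2 0, g, s 0 4, g, s 1 0, g], .top 6, [.l [0, 3, 2, 4, 3], .r 727 [1, 2, 3, 4] [1, 1, 1, 1, 1], .r 720 [1, 2, 3, 4] [1, 1, 1, 1, 1], .r 731 [1, 2, 3, 4] [1, 1, 1, 1, 1]]),
([p 5 1, s 4 2, m 0 3, g, m 3 0, g, s 0 4, g, p 0 5, g, m 2 0, g, s 1 0, g], .lo 2, [.l [4, 1, 9, 5, 9, 2, 6], .l [4, 1], .l [2, 3], .y [2, 4], .l [6, 3, 9, 3, 9, 4, 1], .l [6, 3], .l [2, 5], .l [8, 5, 9, 1, 9, 6, 3], .l [8, 5], .l [2, 7], .l [10, 7, 9, 3, 9, 6, 8, 4, 2, 3], .l [10, 7], .l [2, 9], .l [2, 9], .l [0, 13, 1, 9, 5, 9, 6, 3, 4, 1], .l [12, 9], .l [2, 11], .l [12, 9, 11, 5, 1, 2, 6], .l [14, 11, 13, 7, 1, 4, 8], .l [14, 11], .l [2, 13]]),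
([p 4 1, s 3 2, m 0 0, g, s 0 3, g, p 0 4, g, m 2 0, g, s 1 0, g], .hi 2, [.y [2], .l [6, 4, 1, 8, 4, 7], .l [0, 11, 9, 1, 5, 8, 1], .r 733 [1, 2, 5, 3, 4] [1, 1, 1, 1, 1, 1], .l [3, 6, 2, 3, 2], .l [10, 8, 3], .l [0, 11, 9, 3, 5, 8, 1], .l [0, 11, 7, 8, 5, 1, 6, 3], .l [0, 9, 7, 3, 3, 6, 1], .l [10, 8, 5], .l [1, 6, 4, 6], .l [12, 11, 2, 10, 5, 1, 6, 3], .l [8, 6, 8], .l [1, 6, 4, 8], .l [12, 11, 11, 5, 1, 8, 5], .l [8, 6, 10], .l [1, 6, 4, 10], .l [10, 9, 9, 3, 10, 2, 7]]),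
([p 5 1, s 4 2, s 0 3, g, s 0 4, g, p 0 5, g, m 2 0, p 6 0, g, p 0 6, g, s 1 0, g, s 3 0, g], .hi 9, [.l [0, 12, 8, 9, 11, 7, 9, 6, 2, 4, 6, 1], .l [11, 6, 10, 6, 8, 2, 8, 2, 4, 9], .l [6, 11, 8, 5, 1, 12, 10, 5, 7, 5, 2, 7], .l [11, 6], .l [0, 12, 8, 9, 11, 7, 4, 1, 3, 0], .l [4, 2, 10, 4, 1, 4, 9, 7, 2, 7], .l [8, 11, 8, 10, 4, 12, 7, 9, 3], .l [11, 4], .l [6, 9, 8, 8, 2, 10, 7, 7, 1], .l [11, 2, 16, 7, 13, 9], .l [7, 3, 9, 3, 12, 6, 10, 6, 11, 7, 2, 7], .l [11, 2], .l [11, 1, 12, 10, 6], .l [9, 10], .l [11, 1], .y [9, 11], .l [0, 9, 12, 9, 5, 2, 6, 7, 2, 9], .l [9, 12], .l [13, 3], .l [0, 9, 14, 11, 5, 2, 6, 9, 4, 9], .l [9, 14], .l [15, 5], .l [0, 9, 16, 13, 5, 2, 6, 11, 6, 3], .l [9, 16], .l [17, 7]]),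
([p 5 1, s 4 2, s 0 3, g, s 0 4, g, p 0 5, g, m 2 0, p 0 0, g, s 1 0, g, s 3 0, g], .lo 9, [.l [3, 8, 4, 8, 2], .l [4, 10], .l [0, 12, 8, 6, 8], .l [5, 8, 2, 8, 4], .l [6, 10], .l [0, 12, 6, 4, 8], .l [8, 10, 2], .l [8, 10], .l [0, 12, 4, 2, 8], .l [0, 10, 2, 0, 6], .y [9], .l [13, 12, 2, 11, 6, 8, 6, 1], .r 735 [1, 2, 3, 4, 5, 6] [1, 1, 1, 1, 1, 1, 1], .l [13, 12, 2, 11, 6, 8, 6, 1], .l [0, 10, 10, 8, 6], .l [11, 10, 2, 9, 4, 6, 4, 7], .l [0, 10, 12, 10, 6], .l [3, 6, 2, 2, 7, 1, 8, 6, 2, 7], .l [2, 12, 12, 8, 6, 8], .l [11, 10, 2, 9, 4, 6, 4, 9], .l [0, 10, 14, 12, 6], .l [3, 6, 2, 2, 7, 1, 10, 8, 2, 5]]),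
([p 5 1, s 4 2, s 0 3, g, s 0 4, g, p 0 5, g, m 2 0, m 0 6, g, s 7 0, g, m 6 7, g, s 1 0, g, s 3 0, g], .hi 11, [.l [2, 10, 10, 10, 10, 8, 6, 8], .l [3, 8, 4, 10, 10, 10, 10, 8, 2, 10], .l [3, 8, 4, 10, 10, 10, 10, 8, 2], .l [4, 12, 12, 12, 12, 10, 6], .l [3, 6, 2, 8, 8, 8, 8, 6, 2, 8], .l [5, 8, 2, 10, 10, 10, 10, 8, 4, 10], .l [5, 8, 2, 10, 10, 10, 10, 8, 4], .l [6, 12, 12, 12, 12, 10, 4], .l [5, 6, 0, 8, 8, 8, 8, 6, 4], .l [8, 12, 12, 12, 12, 10, 2, 10], .l [0, 16, 1, 1, 6, 4, 4, 2, 8, 10], .l [8, 12, 12, 12, 12, 10, 2], .y [9, 13, 11], .l [13, 1, 14, 10, 6, 14], .l [12, 15, 11, 6, 8, 11, 1, 9, 2], .l [13, 1, 14, 10, 6], .l [13, 1, 14, 10, 6, 14], .l [11, 14, 1, 12, 12, 10, 6], .l [13, 1, 14, 10, 6], .l [4, 2, 10, 13,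 8, 1, 6, 7, 2, 9], .l [0, 11, 14, 9, 5, 2, 6, 7, 2, 11], .l [19, 16, 12, 3, 12, 14, 7, 3], .l [0, 14, 16, 12, 12, 12, 12, 10, 6, 4, 6, 3], .l [0, 11, 16, 11, 5, 2, 6, 9, 4, 11], .l [0, 14, 1, 1, 14, 12, 12, 10, 6, 10], .l [0, 14, 18, 14, 14, 14, 14, 12, 6, 4, 6, 3], .l [0, 11, 18, 13, 5, 2, 6, 11, 6, 3], .l [0, 14, 1, 1, 16, 14, 14, 12, 6, 8]]),
([p 5 1, s 4 2, s 0 3, g, s 0 4, g, p 0 5, g, m 2 0, m 0 6, g, m 6 0, g, s 1 0, g, s 3 0, g], .hi 11, [.l [1, 6, 4, 9, 9, 7, 1], .l [3, 8, 4, 10, 10, 8, 2], .l [0, 14, 10, 8, 8, 6, 8], .l [4, 12], .l [0, 6, 5, 2, 2, 7, 7, 5, 4], .l [5, 8, 2, 10, 10, 8, 4], .l [0, 14, 8, 6, 6, 4, 8], .l [6, 12], .l [0, 12, 6, 4, 4, 2, 6], .l [8, 12, 12, 10, 2], .l [0, 14, 6, 4, 4, 2, 8], .l [8, 12],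 .y [9, 11], .r 737 [1, 2, 3, 4, 5, 6, 7] [1, 1, 1, 1, 1, 1, 1, 1], .l [0, 14, 3, 1, 6, 0, 10, 7, 1], .l [11, 12], .l [8, 6, 15, 5, 1, 6, 2, 4, 2, 5], .l [1, 6, 4, 15, 5, 1, 11, 2, 6, 8, 6, 1], .l [10, 17, 8, 2, 14, 11, 1, 11, 2, 4, 2, 5], .l [0, 12, 14, 12, 12, 10, 6, 10], .l [3, 6, 2, 2, 9, 1, 9, 6, 2, 9], .l [0, 12, 14, 12, 12, 10, 6], .l [0, 12, 16, 14, 14, 12, 6, 8], .l [3, 6, 2, 2, 9, 1, 11, 8, 2, 5], .l [0, 12, 16, 14, 14, 12, 6]]),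
([p 5 1, s 4 2, s 0 3, g, s 0 4, g, p 0 5, g, m 2 0, m 0 0, g, s 1 0, g, s 3 0, g], .hi 9, [.l [1, 6, 4, 7, 1], .l [3, 8, 4, 8, 2], .l [0, 12, 8, 6, 8], .l [4, 10], .l [0, 6, 5, 2, 2, 5, 4], .l [5, 8, 2, 8, 4], .l [0, 12, 6, 4, 8], .l [6, 10], .l [0, 10, 4, 2, 6], .l [8, 10, 2], .l [0, 12, 4, 2, 8], .l [8, 10], .y [9], .l [13, 12, 2, 11, 6, 8, 6, 1], .l [13, 12, 2, 11, 6, 8, 6, 1], .r 738 [1, 2, 3, 4, 5, 6] [1, 1, 1, 1, 1, 1, 1], .l [11, 10, 2, 9, 4, 6, 4, 7], .l [3, 6, 2, 2, 7, 1, 8, 6, 2, 7], .l [0, 10, 12, 10, 6], .l [11, 10, 2, 9, 4, 6, 4, 9], .l [3, 6, 2, 2, 7, 1, 10, 8, 2, 5], .l [0, 10, 14, 12, 6]]),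
([p 4 1, s 3 2, g, s 0 3, g, p 0 4, g, m 2 0, s 0 5, g, m 5 0, g, s 1 0, g], .lo 8, [.l [3, 9, 6, 11], .l [3, 9, 6], .l [2, 7, 4, 7, 1], .l [5, 9, 4, 11], .l [5, 9, 4], .l [4, 7, 2, 7, 3], .l [7, 9, 2, 11], .l [7, 9, 2], .l [12, 1, 4, 2, 7], .l [10, 1, 2, 0, 5], .l [14, 13, 1, 12, 8, 10, 8, 1], .l [10, 1, 11, 9, 5], .l [14, 13, 1, 12, 8, 10, 8, 1], .y [8, 10], .l [14, 13, 1, 12, 8, 10, 8, 3], .l [10, 1, 11, 9, 5], .l [14, 13, 1, 12, 8, 10, 8, 3], .l [12, 11, 1, 10, 6, 8, 6, 3], .l [12, 11, 1, 10, 6, 8, 6, 7], .l [10, 1, 13, 11, 5], .l [12, 11, 1, 10, 6, 8, 6, 7]]),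
([p 4 1, s 3 2, g, s 0 3, g, p 0 4, g, m 2 0, s 0 0, g, s 1 0, g], .hi 8, [.l [3, 9, 6, 9], .l [2, 7, 4, 7, 1], .l [3, 9, 6], .l [3, 7, 4, 7], .l [5, 9, 4, 9], .l [4, 7, 2, 7, 3], .l [5, 9, 4], .l [4, 5, 0, 5, 3], .l [7, 9, 2, 9], .l [0, 11, 4, 2, 7, 3, 6, 3], .l [7, 9, 2], .y [8], .l [12, 11, 1, 10, 6, 8, 6, 1], .l [12, 11, 1, 10, 6, 8, 6, 1], .r 740 [1, 2, 3, 4, 5] [1, 1, 1, 1, 1, 1], .l [10, 9, 1, 8, 4, 6, 4, 5], .l [10, 9, 1, 8, 4, 6, 4, 5], .l [0, 9, 11, 9, 5, 3, 4, 1]]),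
([p 5 1, s 4 2, s 0 3, g, s 0 4, g, p 0 5, g, m 2 0, g, s 1 0, g, s 3 0, g], .top 9, [.l [0, 8, 6], .r 741 [1, 2, 4, 5] [2, 1, 1, 1, 3], .r 736 [1, 2, 3, 4, 5] [1, 1, 1, 1, 1, 1], .r 739 [1, 2, 3, 4, 5] [1, 1, 1, 1, 1, 1]]),
([p 5 1, s 4 2, s 0 3, g, s 0 4, g, p 0 5, g, m 2 0, g, s 1 0, g, m 3 0, g], .lo 2, [.l [6, 4, 1, 8, 4, 7], .l [4, 1, 9, 6, 8, 10, 8, 3], .l [6, 4, 1, 8, 4, 7], .l [0, 11, 7, 8, 5, 1, 6, 3], .l [0, 11, 7, 8, 5, 1, 6, 3], .l [10, 8, 3], .l [8, 5, 13, 7, 10, 1, 7, 1, 6, 3], .l [8, 5, 13, 7, 10, 1, 7, 1, 6, 3], .l [10, 8, 5], .l [8, 6, 5], .l [10, 7, 13, 5, 10, 3, 8, 1], .l [10, 7, 9, 5, 11, 7, 8], .l [8, 6, 8], .l [8, 6, 8, 8, 6, 3], .l [12, 9, 13, 3, 10, 3, 8, 3], .l [12, 9, 11, 7, 11, 5, 8], .l [8,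 6, 10], .y [2, 12], .l [12, 9, 13, 3, 10, 3, 8, 3], .l [12, 9, 11, 7, 11, 5, 8], .l [8, 6, 12]]),
([p 5 1, s 4 2, s 0 3, g, s 0 4, g, p 0 5, g, m 2 0, g, m 3 0, g, s 1 0, g], .lo 2, [.l [6, 4, 1, 8, 4, 9], .l [12, 9, 11, 5, 1, 2, 6], .l [6, 4, 1, 8, 4, 9], .l [0, 13, 9, 10, 7, 1, 8, 5], .l [0, 13, 9, 10, 7, 1, 8, 5], .l [10, 8, 3], .l [8, 5, 11, 5, 8, 1, 5, 1, 4, 5], .l [8, 5, 11, 5, 8, 1, 5, 1, 4, 5], .l [10, 8, 5], .l [8, 6, 5], .l [10, 7, 11, 3, 8, 3, 6, 7], .l [10, 7, 9, 5, 9, 5, 6], .l [8, 6, 8], .y [2, 10], .l [0, 13, 1, 9, 3, 9, 6, 1, 4, 1], .l [10, 7, 9, 5, 9, 5, 6], .l [8, 6, 10], .l [8, 6, 10, 10, 6, 3], .l [10, 7, 9, 5, 7, 2, 6, 1, 2, 5], .l [10, 7, 9, 5, 11, 7, 8], .l [8, 6, 12]]),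
([p 5 1, s 4 2, s 0 3, g, m 3 0, g, s 0 4, g, p 0 5, g, m 2 0, g, s 1 0, g], .lo 2, [.l [8, 6, 1, 10, 4, 9], .l [4, 1, 9, 5, 9, 2, 6], .l [8, 6, 1, 10, 4, 9], .y [2, 4], .l [5, 10, 4, 5, 2, 6, 1, 6, 2, 5], .l [4, 1, 9, 5, 9, 2, 6], .l [5, 10, 4, 5, 2, 6, 1, 6, 2, 5], .l [0, 13, 7, 10, 7, 1, 8, 5], .l [0, 13, 7, 10, 7, 1, 8, 5], .l [12, 10, 5], .l [10, 7, 9, 3, 9, 6, 8, 4, 2, 3], .l [10, 7, 9, 3, 9, 6, 8, 4, 2, 3], .l [12, 10, 7], .l [10, 8, 7], .l [0, 13, 1, 9, 5, 9, 6, 3, 4, 1], .l [12, 9, 11, 5, 1, 2, 6], .l [10, 8, 10], .l [10, 8, 10, 10, 8, 3], .l [4, 1, 7, 3, 7, 2, 8, 3, 4, 1], .l [4, 1, 9, 6, 8, 10, 8, 3], .l [10, 8, 12]]),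
([p 4 1, s 3 2, s 0 0, g, s 0 3, g, p 0 4, g, m 2 0, g, s 1 0, g], .hi 2, [.y [2], .l [6, 4, 1, 8, 4, 7], .l [6, 4, 1, 8, 4, 7], .r 745 [1, 2, 5, 3, 4] [1, 1, 1, 1, 1, 1], .l [4, 2, 1, 6, 4, 5], .l [0, 11, 7, 8, 5, 1, 6, 3], .l [10, 8, 3], .l [0, 11, 7, 8, 5, 1, 6, 3], .l [8, 6, 3], .l [12, 11, 2, 10, 5, 1, 6, 3], .l [10, 8, 5], .l [12, 11, 2, 10, 5, 1, 6, 3], .l [8, 6, 8, 10, 8, 3], .l [8, 6, 8], .r 744 [1, 2, 5, 3, 4] [1, 1, 1, 1, 1, 1], .r 742 [1, 2, 5, 3, 4] [1, 1, 1, 1, 1, 1], .l [8, 6, 10], .r 743 [1, 2, 5, 3, 4] [1, 1, 1, 1, 1, 1]]),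
([p 5 1, s 0 2, p 4 3, g, p 0 4, g, p 0 5, g, s 3 0, g, m 2 0, g, s 1 0, g], .lo 1, [.l [0, 13, 9, 10, 7, 1, 8, 3], .l [4, 2, 11, 8, 11], .l [3, 6, 4, 6, 4, 4, 9], .l [10, 7, 9, 3, 9, 6, 8, 4, 2, 3], .l [6, 4, 11, 6, 11], .l [5, 8, 2, 2, 10], .l [10, 7, 9, 5, 9, 4, 8, 6, 2, 3], .l [8, 6, 7, 2, 10, 8, 9], .l [14, 13, 6], .l [8, 5, 9, 2, 3, 0, 5], .l [8, 5, 7, 3, 9, 6, 8, 6, 4, 1], .l [10, 8, 9, 4, 10, 6, 9], .l [14, 13, 8], .y [1, 10], .l [2, 7, 13, 7, 4, 10, 3, 8, 2, 5], .l [10, 8, 9, 4, 10, 6, 9], .l [14, 13, 10], .l [12, 11, 10], .l [8, 5, 7, 3, 7, 4, 6, 4, 2, 5], .l [10, 8, 9, 4, 12, 8, 5], .l [12, 11, 12]]),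
([p 4 1, s 0 2, p 3 0, g, p 0 3, g, p 0 4, g, m 2 0, g, s 1 0, g], .hi 2, [.l [2, 0, 7, 6, 7], .l [4, 1, 7, 3, 7, 2, 4], .l [2, 3], .l [4, 1], .y [2, 4], .l [6, 3, 7, 1, 7, 4, 1], .l [2, 5], .l [6, 3], .l [2, 5], .r 747 [1, 2, 5, 3, 4] [1, 1, 1, 1, 1, 1], .l [2, 7], .l [8, 5], .l [10, 7, 9, 5, 1, 2, 4], .l [2, 9], .l [10, 7], .l [12, 9, 11, 7, 1, 4, 6], .l [2, 11], .l [12, 9]]),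
([p 4 1, s 3 2, p 0 0, g, s 0 3, g, p 0 4, g, m 2 0, g, s 1 0, g], .lo 2, [.y [2], .l [6, 4, 1, 8, 4, 7], .r 748 [1, 2, 5, 4] [1, 3, 1, 1, 1], .l [0, 11, 9, 1, 5, 8, 1], .l [10, 8, 3], .l [0, 11, 7, 8, 5, 1, 6, 3], .l [0, 11, 9, 3, 5, 8, 1], .l [10, 8, 5], .l [12, 11, 2, 10, 5, 1, 6, 3], .l [1, 6, 4, 6], .l [1, 6, 4, 6], .l [8, 6, 8], .l [12, 11, 11, 5, 1, 8, 5], .l [1, 6, 4, 8], .l [8, 6, 8], .l [8, 6, 10], .l [10, 9, 9, 3, 10, 2, 7], .l [1, 6, 4, 10]]),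
([p 4 1, s 3 2, g, s 0 3, g, p 0 4, g, m 2 0, g, s 1 0, g], .top 2, [.c, .r 746 [1, 2, 3, 4] [1, 1, 1, 1, 1], .r 749 [1, 2, 3, 4] [1, 1, 1, 1, 1], .r 734 [1, 2, 3, 4] [1, 1, 1, 1, 1]]),
([p 3 1, s 4 2, g, p 0 3, g, s 0 4, s 6 5, g, m 5 0, g, m 2 0, g, m 0 6, g, s 1 0, g], .lo 5, [.l [16, 15, 5, 8, 1, 12, 5, 1, 7, 5, 6, 1], .l [7, 5, 11, 5, 12, 1, 9, 3, 5, 1, 6, 3], .l [16, 15, 5, 8, 1, 8, 5, 10, 6, 8, 6, 1], .l [16, 15, 5, 8, 1, 12, 7, 3, 7, 3, 6, 1], .l [0, 15, 8, 12, 3, 10, 5, 7, 8, 1], .l [0, 15, 10, 1, 6, 10, 1, 9, 4, 5], .l [8, 2, 12, 14, 8, 3], .l [8, 2, 12], .l [16, 15, 3, 8, 3, 8, 3, 6, 2, 5], .l [14, 13, 3, 6, 1, 6, 3, 4, 0, 3], .l [10, 4, 12, 14, 10, 3], .l [10, 4, 12], .l [8, 1, 2, 7, 13, 11, 4, 7], .y [1, 10,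 5], .l [10, 8, 11, 7, 10, 1, 3, 1, 2, 7], .l [12, 6, 12], .l [5, 3, 7, 1, 3, 7, 3, 4, 6, 4, 2, 5], .l [1, 4, 13, 8, 5, 10, 1, 6, 1, 6, 2, 5], .l [1, 4, 13, 8, 5, 10, 1, 6, 1, 6, 2, 5], .l [0, 15, 10, 12, 3, 10, 5, 7, 8, 1], .l [5, 13, 1, 5, 11, 4, 6, 2, 4, 1, 2, 3], .l [0, 13, 8, 13, 4, 2, 10, 5], .l [1, 4, 15, 10, 5, 12, 1, 8, 1, 8, 2, 3], .l [0, 13, 8, 13, 4, 2, 10, 5]]),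
([p 3 1, s 4 2, g, p 0 3, g, s 0 4, s 0 5, g, m 5 0, g, m 2 0, g, s 1 0, g], .lo 6, [.l [2, 5, 2, 5, 1, 8, 6, 7], .l [3, 7, 4, 11], .l [2, 5, 2, 5, 1, 8, 6, 7], .l [7, 5, 11, 5, 10, 1, 8, 5], .l [5, 7, 2, 11], .l [10, 1, 4, 2, 5, 6, 4, 6, 2, 5], .l [5, 3, 11, 7, 10, 1, 8, 1], .l [8, 1, 9, 7, 3, 4, 2, 6, 4, 5], .l [5, 3, 11, 7, 10, 1, 8, 1], .y [6, 8], .l [5, 3, 11, 7, 10, 1, 8, 3], .l [8, 1, 9, 7, 3, 4, 2, 6, 4, 5], .l [5, 3, 11, 7, 10, 1, 8, 3], .l [5, 3, 9, 5, 8, 1, 6, 3], .l [5, 3, 9, 5, 10, 3, 8, 5], .l [5, 3, 9, 5, 10, 3, 8, 5], .r 751 [1, 2, 3, 4, 5, 6] [1, 1, 1, 1, 1, 1, 1], .l [0, 11, 11, 5, 3, 8, 4, 5], .l [5, 3, 9, 5, 8, 1, 6, 7], .l [8, 1, 13, 11, 3, 4, 2, 4, 2, 3], .l [5, 3, 9, 5, 8, 1, 6, 7]]),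
([p 3 1, s 5 2, g, p 0 3, g, p 6 0, g, m 0 4, g, s 4 5, s 0 6, g, m 2 0, g, s 1 0, g], .hi 5, [.l [6, 7, 3, 5, 2, 7, 3, 8, 4, 7], .l [6, 7, 3, 5, 2, 7, 3, 8, 4, 7], .l [7, 3], .l [4, 5, 3, 3, 0, 5, 3, 6, 2, 5], .l [8, 1, 10, 3, 12, 5, 1, 3, 5, 1, 6, 1], .l [8, 1, 10, 3, 12, 5, 1, 3, 5, 1, 6, 1], .l [7, 1], .l [7, 1, 1, 9, 4, 11], .l [5, 6], .l [7, 1], .l [7, 1], .l [9, 3, 3, 9, 2, 11], .l [5, 8], .l [9, 3], .y [5, 10], .l [5, 11, 2, 5, 12, 10, 2, 5], .l [5, 11], .l [12, 6], .l [5, 13, 4, 7, 12, 10, 4, 7], .l [5, 13], .l [14, 8], .l [5, 15, 6, 9, 3, 1, 6, 9], .l [5, 15], .l [16, 10]]),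
([p 3 1, s 4 2, g, p 0 3, g, p 5 0, g, s 0 4, s 0 5, g, m 2 0, g, s 1 0, g], .lo 7, [.l [2, 5, 2, 6, 1, 5, 2, 7], .l [3, 8, 1, 7, 1, 8, 6, 7], .l [2, 5, 2, 6, 1, 5, 2, 7], .l [5, 8, 1, 7, 3, 4, 2, 6, 4, 5], .l [5, 8, 1, 7, 3, 4, 2, 6, 4, 5], .l [14, 13, 7, 1, 6, 3], .l [12, 11, 5, 1, 4, 3], .l [14, 13, 7, 3, 6, 3], .l [14, 13, 7, 3, 6, 3], .r 753 [1, 2, 3, 6, 4, 5] [1, 1, 1, 1, 1, 1, 1], .l [14, 13, 5, 1, 4, 5], .l [14, 13, 5, 8, 2, 5], .l [14, 13, 5, 1, 4, 5], .y [1, 10, 7], .l [14, 13, 5, 1, 4, 7], .l [14, 13, 5, 10, 4, 7], .l [14, 13, 5, 1, 4, 7], .l [1, 6, 11, 4, 8, 4, 0, 3], .l [0, 11, 6, 2, 10, 4, 2, 7], .l [12, 11, 5, 12, 6, 9], .l [0, 11, 6, 2, 10, 4, 2, 7]]),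
([p 3 1, s 4 2, g, p 0 3, g, s 0 4, s 6 5, g, p 0 6, g, m 2 0, g, p 5 0, g, s 1 0, g], .lo 5, [.l [16, 15, 5, 8, 1, 12, 5, 1, 7, 5, 6, 1], .l [7, 5, 11, 5, 12, 1, 9, 3, 5, 1, 6, 3], .l [16, 15, 5, 8, 1, 8, 5, 10, 6, 8, 6, 1], .l [16, 15, 5, 8, 1, 12, 7, 3, 7, 3, 6, 1], .l [0, 15, 8, 12, 3, 10, 5, 7, 8, 1], .l [0, 15, 10, 1, 6, 10, 1, 9, 4, 5], .l [8, 2, 12, 14, 8, 3], .l [8, 2, 12], .l [16, 15, 3, 8, 3, 8, 3, 6, 2, 5], .l [10, 4, 12, 14, 10, 3], .l [10, 4, 12], .l [8, 1, 2, 7, 13, 11, 4, 7], .y [1, 10, 5], .l [10, 8, 11, 7, 10, 1, 3, 1, 2, 7], .l [12, 6, 12], .l [5, 3, 7, 1, 3, 7, 3, 4, 6, 4, 2, 5], .l [1, 4, 11, 6, 5, 8, 1, 4, 1, 4, 2, 3], .l [1, 4, 13, 8, 5, 10, 1, 6, 1, 6, 2, 5], .l [1, 4, 13, 8, 5, 10, 1, 6, 1, 6, 2,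 5], .l [0, 15, 10, 12, 3, 10, 5, 7, 8, 1], .l [5, 13, 1, 5, 11, 4, 6, 2, 4, 1, 2, 3], .l [0, 13, 8, 13, 4, 2, 10, 5], .l [1, 4, 15, 10, 5, 12, 1, 8, 1, 8, 2, 3], .l [0, 13, 8, 13, 4, 2, 10, 5]]),
([p 3 1, s 4 2, g, p 0 3, g, s 0 4, s 0 5, g, m 2 0, g, p 5 0, g, s 1 0, g], .lo 6, [.l [2, 5, 2, 5, 1, 6, 4, 7], .l [3, 7, 4, 11], .l [2, 5, 2, 5, 1, 6, 4, 7], .l [5, 7, 2, 11, 1, 3], .l [5, 7, 2, 11], .l [0, 13, 1, 3, 6, 2, 7, 1, 6, 3], .l [5, 3, 9, 5, 10, 3, 8, 1], .r 755 [1, 2, 3, 4, 5, 6] [1, 1, 1, 1, 1, 1, 1], .l [5, 3, 9, 5, 10, 3, 8, 1], .l [5, 3, 7, 3, 8, 3, 6, 1], .l [5, 3, 7, 3, 10, 5, 8, 5], .l [5, 3, 7, 3, 10, 5, 8, 5], .l [6, 11, 1, 9, 3, 4, 2, 4, 2, 5], .y [6, 10], .l [5, 3, 7, 3, 10, 5, 8, 3], .l [5, 3, 7, 3, 10,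 5, 8, 3], .l [6, 11, 1, 9, 3, 4, 2, 4, 2, 5], .l [0, 11, 1, 3, 9, 5, 3, 1, 2, 3], .l [5, 3, 7, 3, 8, 3, 6, 7], .l [0, 11, 1, 3, 11, 7, 3, 1, 2, 5], .l [5, 3, 7, 3, 8, 3, 6, 7]]),
([p 3 1, s 4 2, g, p 0 3, g, s 0 4, s 0 0, g, m 2 0, g, s 1 0, g], .hi 6, [.l [2, 5, 2, 5, 1, 6, 4, 5], .l [2, 5, 2, 5, 1, 6, 4, 5], .l [3, 7, 4, 9], .l [2, 3, 0, 3, 1, 4, 2, 3], .l [7, 5, 9, 3, 8, 1, 6, 3], .r 754 [1, 2, 3, 4, 5] [1, 1, 1, 1, 1, 1], .l [5, 7, 2, 9], .c, .y [6], .l [5, 3, 9, 5, 8, 1, 6, 1], .l [5, 3, 9, 5, 8, 1, 6, 1], .r 752 [1, 2, 3, 4, 5] [1, 1, 1, 1, 1, 1], .l [5, 3, 7, 3, 8, 3, 6, 3], .r 756 [1, 2, 3, 4, 5] [1, 1, 1, 1, 1, 1], .l [5, 3, 7, 3, 8, 3, 6, 3], .l [5, 3, 7, 3, 6, 1, 4, 5], .l [5, 3, 7, 3, 6, 1, 4, 5], .l [0, 9,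 11, 7, 3, 8, 4, 5]]),
([p 2 1, s 3 0, g, p 0 2, g, p 4 0, g, s 0 3, m 0 4, g, s 1 0, g], .lo 7, [.y [1, 7], .l [2, 5, 2, 6, 1, 5, 2, 5], .l [0, 11, 4, 2, 5], .l [0, 5, 4, 7, 1, 6, 1], .l [12, 11, 7, 1, 6, 3], .l [0, 11, 4, 2, 3], .l [0, 3, 2, 7, 1, 6, 3], .l [0, 9, 4, 2, 1], .l [12, 11, 7, 3, 6, 3], .l [0, 11, 6, 4, 1], .l [6, 1, 8, 3, 5, 4, 1], .l [12, 11, 5, 1, 4, 5], .l [0, 3, 2, 5, 8, 2, 5], .l [0, 11, 6, 2, 3], .l [10, 9, 5, 1, 4, 5], .l [0, 9, 4, 2, 8, 4, 2, 5], .l [0, 3, 2, 5, 10, 4, 7], .l [0, 9, 4, 2, 8]]),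
([p 3 1, s 4 2, g, p 0 3, g, p 6 0, g, s 0 4, m 0 5, g, m 5 6, g, m 2 0, g, s 1 0, g], .lo 7, [.l [2, 5, 2, 6, 1, 7, 7, 5, 2, 7], .l [0, 15, 8, 4, 4, 2, 7], .l [0, 5, 4, 7, 1, 8, 8, 6, 1], .l [5, 8, 1, 9, 9, 7, 3, 4, 2, 6, 4, 5], .l [0, 15, 8, 4, 4, 2, 5], .l [0, 15, 8, 4, 4, 2, 9, 1, 8, 6, 5, 5, 1], .l [0, 13, 8, 4, 4, 2, 1], .l [16, 15, 7, 3, 8, 8, 6, 3], .l [0, 15, 10, 6, 6, 4, 1], .l [0, 15, 10, 6, 6, 4, 9, 1, 8, 2, 1, 5, 3], .l [16, 15, 5, 1, 8, 8, 4, 5], .l [0, 15, 10, 6, 6, 2, 9, 1, 8, 4, 3, 5, 1], .l [0, 15, 10, 6, 6, 2, 3], .l [16, 15, 5, 1, 6, 6, 4, 5], .l [0, 15, 10, 4, 4, 2, 9, 1, 8, 4, 3, 5, 1], .l [0, 15, 10, 4, 4, 2, 3], .y [1, 12, 7], .l [16, 15, 5, 1, 6, 6, 4, 7], .l [0, 15, 10, 4, 4, 2, 9, 1, 8, 6, 5,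 5, 1], .l [0, 15, 10, 4, 4, 2, 5], .l [0, 13, 8, 4, 4, 2, 7, 1, 6, 6, 5, 5, 1], .l [0, 13, 8, 4, 4, 2, 10, 4, 2, 7], .l [0, 13, 8, 4, 4, 2, 7, 1, 6, 8, 7, 7, 3], .l [0, 13, 8, 4, 4, 2, 10]]),
([p 3 1, s 4 2, g, p 0 3, g, s 0 4, m 0 5, g, m 5 6, g, m 6 0, g, m 2 0, g, s 1 0, g], .lo 5, [.l [9, 2, 4, 8, 4, 1, 9, 7, 8, 5, 6, 3], .l [10, 12, 11, 11, 9, 5, 10, 4, 9, 3, 7, 5, 1], .l [10, 12, 11, 11, 9, 5, 10, 4, 9, 3, 7, 3, 3], .l [9, 2, 6, 8, 2, 3, 7, 5, 2, 6, 4, 5], .l [10, 12, 11, 11, 9, 5, 3, 3, 4, 2, 6, 4, 5], .l [10, 12, 11, 11, 9, 5, 10, 4, 9, 1, 7, 5, 1], .l [5, 7, 15, 12, 3, 5, 10, 5], .l [5, 3, 13, 9, 12, 1, 10, 8, 5, 7, 5, 5, 3], .l [0, 15, 7, 8, 5], .l [5, 9, 11, 9, 13, 10, 3, 5, 8, 3], .l [1, 4, 9, 4, 7, 1, 8, 3,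 3, 1, 6, 2, 5], .l [5, 9, 11, 9, 13, 10, 3, 5, 8, 3], .l [5, 9, 9, 7, 11, 8, 3, 3, 6, 3], .l [7, 12, 9, 5, 8, 5, 9, 3, 8, 1, 6, 3], .l [8, 10, 9, 9, 7, 3, 10, 6, 9, 1, 7, 5, 1], .l [7, 2, 4, 6, 2, 7, 3, 4, 1], .y [1, 12, 5], .l [7, 2, 4, 6, 2, 9, 5, 6, 3, 1, 4, 5], .l [8, 10, 9, 9, 7, 3, 8, 4, 9, 3, 7, 3, 3], .l [8, 10, 9, 9, 7, 3, 4, 2, 6, 4, 7, 1, 1], .l [8, 10, 9, 9, 7, 3, 8, 4, 7, 1, 5, 5, 1], .l [7, 2, 4, 6, 2, 11, 7, 8, 5, 1, 6, 3], .l [8, 10, 9, 9, 7, 3, 8, 4, 7, 1, 5, 7, 3], .l [8, 10, 9, 9, 7, 3, 8, 4, 7, 1, 5, 3, 5]]),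
([p 3 1, s 4 2, g, p 0 3, g, s 0 4, m 0 5, g, m 5 0, g, m 2 0, g, s 1 0, g], .hi 8, [.l [2, 5, 2, 7, 7, 5, 1, 6, 4, 5], .l [0, 13, 10, 6, 6, 4, 7, 5, 6, 1], .l [3, 9], .l [0, 11, 8, 4, 4, 2, 5, 3, 4, 1], .l [5, 9, 9, 7, 2, 9], .r 759 [1, 2, 3, 4, 5, 6] [1, 1, 1, 1, 1, 1, 1], .l [5, 9], .l [0, 11, 3, 4, 3], .y [6, 8], .l [7, 10, 8, 3, 9, 5, 8, 1, 6, 1], .l [7, 10, 8, 3, 9, 5, 8, 1, 6, 1], .l [8, 9], .l [7, 8, 6, 3, 9, 5, 8, 1, 6, 1], .l [7, 8, 6, 3, 9, 5, 8, 1, 6, 1], .r 760 [1, 2, 3, 4, 5, 6] [1, 1, 1, 1, 1, 1, 1], .l [7, 8, 6, 3, 7, 3, 8, 3, 6, 3], .l [7, 10, 3, 11, 3, 9, 3, 8, 1], .l [7, 8, 6, 3, 7, 3, 8, 3, 6, 3], .l [7, 8, 6, 3, 7, 3, 6, 1, 4, 5], .l [0, 11, 3, 11, 4, 2, 6], .l [0, 11, 13, 9, 9, 7, 3, 8, 4, 5]]),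
([p 3 1, s 4 2, g, p 0 3, g, s 0 4, m 0 0, g, m 2 0, g, s 1 0, g], .hi 6, [.l [2, 5, 2, 5, 1, 6, 4, 5], .l [0, 11, 8, 4, 7, 5, 6, 1], .l [3, 7], .l [0, 9, 6, 2, 5, 3, 4, 1], .l [5, 7, 2, 9], .r 758 [1, 3, 4, 5] [1, 1, 1, 3, 1], .l [5, 7], .c, .y [6], .l [5, 3, 9, 5, 8, 1, 6, 1], .l [5, 3, 9, 5, 8, 1, 6, 1], .r 761 [1, 2, 3, 4, 5] [1, 1, 1, 1, 1, 1], .l [5, 3, 7, 3, 8, 3, 6, 3], .l [0, 8, 6, 1, 5, 2, 5], .l [5, 3, 7, 3, 8, 3, 6, 3], .l [5, 3, 7, 3, 6, 1, 4, 5], .l [0, 9, 3, 10, 4, 2, 5], .l [0, 9, 11, 7, 3, 8, 4, 5]]),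
([p 2 1, s 4 0, g, p 0 2, g, m 0 3, g, s 0 4, p 3 0, g, s 1 0, g], .lo 7, [.y [1, 7], .l [2, 5, 2, 6, 1, 5, 2, 5], .l [0, 11, 4, 2, 5], .l [0, 5, 4, 7, 1, 6, 1], .l [12, 11, 7, 1, 6, 3], .l [0, 11, 4, 2, 3], .l [0, 3, 2, 7, 1, 6, 3], .l [12, 11, 7, 3, 6, 3], .l [0, 11, 6, 4, 1], .l [6, 1, 8, 3, 5, 4, 1], .l [0, 3, 2, 5, 6, 0, 3], .l [12, 11, 5, 1, 4, 5], .l [0, 3, 2, 5, 8, 2, 5], .l [0, 11, 6, 2, 3], .l [10, 9, 5, 1, 4, 5], .l [0, 9, 4, 2, 8, 4, 2, 5], .l [0, 3, 2, 5, 10, 4, 7], .l [0, 9, 4, 2, 8]]),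
([p 3 1, s 4 2, g, p 0 3, g, s 0 4, p 5 0, g, p 6 5, g, p 0 6, g, m 2 0, g, s 1 0, g], .lo 5, [.l [9, 2, 4, 8, 4, 1, 9, 7, 8, 5, 6, 3], .l [10, 12, 11, 11, 9, 5, 10, 4, 9, 3, 7, 5, 1], .l [10, 12, 11, 11, 9, 5, 10, 4, 9, 3, 7, 3, 3], .l [9, 2, 6, 8, 2, 3, 7, 5, 2, 6, 4, 5], .l [10, 12, 11, 11, 9, 5, 3, 3, 4, 2, 6, 4, 5], .l [10, 12, 11, 11, 9, 5, 10, 4, 9, 1, 7, 5, 1], .l [5, 3, 11, 7, 10, 1, 8, 6, 5, 5, 3, 3, 1], .l [5, 7, 15, 12, 3, 5, 10, 5], .l [5, 3, 13, 9, 12, 1, 10, 8, 5, 7, 5, 5, 3], .l [0, 15, 7, 8, 5], .l [5, 9, 11, 9, 13, 10, 3, 5, 8, 3], .l [1, 4, 9, 4, 7, 1, 8, 3, 3, 1, 6, 2, 5], .l [5, 9, 11, 9, 13, 10, 3, 5, 8, 3], .l [7, 12, 9, 5, 8, 5, 9, 3, 8, 1, 6, 3], .l [8, 10, 9, 9, 7, 3, 10, 6, 9, 1, 7, 5, 1], .l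 [7, 2, 4, 6, 2, 7, 3, 4, 1], .y [1, 12, 5], .l [7, 2, 4, 6, 2, 9, 5, 6, 3, 1, 4, 5], .l [8, 10, 9, 9, 7, 3, 8, 4, 9, 3, 7, 3, 3], .l [8, 10, 9, 9, 7, 3, 4, 2, 6, 4, 7, 1, 1], .l [8, 10, 9, 9, 7, 3, 8, 4, 7, 1, 5, 5, 1], .l [7, 2, 4, 6, 2, 11, 7, 8, 5, 1, 6, 3], .l [8, 10, 9, 9, 7, 3, 8, 4, 7, 1, 5, 7, 3], .l [8, 10, 9, 9, 7, 3, 8, 4, 7, 1, 5, 3, 5]]),
([p 3 1, s 5 2, g, p 0 3, g, m 0 4, g, s 0 5, p 6 0, g, p 4 6, g, m 2 0, g, s 1 0, g], .lo 7, [.l [2, 5, 2, 6, 1, 7, 7, 5, 2, 7], .l [0, 15, 8, 4, 4, 2, 7], .l [0, 5, 4, 7, 1, 8, 8, 6, 1], .l [5, 8, 1, 9, 9, 7, 3, 4, 2, 6, 4, 5], .l [0, 15, 8, 4, 4, 2, 5], .l [0, 15, 8, 4, 4, 2, 9, 1, 8, 6, 5, 5, 1], .l [16, 15, 7, 3, 8, 8, 6, 3], .l [0, 15, 10, 6, 6, 4, 1], .l [0, 15, 10,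 6, 6, 4, 9, 1, 8, 2, 1, 5, 3], .l [0, 13, 8, 4, 4, 2, 7, 1, 6, 2, 1, 3, 1], .l [16, 15, 5, 1, 8, 8, 4, 5], .l [0, 15, 10, 6, 6, 2, 9, 1, 8, 4, 3, 5, 1], .l [0, 15, 10, 6, 6, 2, 3], .l [16, 15, 5, 1, 6, 6, 4, 5], .l [0, 15, 10, 4, 4, 2, 9, 1, 8, 4, 3, 5, 1], .l [0, 15, 10, 4, 4, 2, 3], .y [1, 12, 7], .l [16, 15, 5, 1, 6, 6, 4, 7], .l [0, 15, 10, 4, 4, 2, 9, 1, 8, 6, 5, 5, 1], .l [0, 15, 10, 4, 4, 2, 5], .l [0, 13, 8, 4, 4, 2, 7, 1, 6, 6, 5, 5, 1], .l [0, 13, 8, 4, 4, 2, 10, 4, 2, 7], .l [0, 13, 8, 4, 4, 2, 7, 1, 6, 8, 7, 7, 3], .l [0, 13, 8, 4, 4, 2, 10]]),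
([p 3 1, s 4 2, g, p 0 3, g, s 0 4, p 5 0, g, p 0 5, g, m 2 0, g, s 1 0, g], .lo 8, [.l [2, 5, 2, 7, 7, 5, 1, 6, 4, 5], .l [3, 9], .l [0, 13, 10, 6, 6, 4, 7, 5, 6, 1], .l [5, 9, 9, 7, 2, 9], .l [5, 9], .r 765 [1, 2, 3, 6, 4, 5] [1, 1, 1, 1, 1, 1, 1], .y [6, 8], .l [7, 10, 8, 3, 9, 5, 8, 1, 6, 1], .l [8, 9], .l [7, 10, 8, 3, 9, 5, 8, 1, 6, 1], .l [7, 8, 6, 3, 9, 5, 8, 1, 6, 1], .r 764 [1, 2, 3, 4, 5, 6] [1, 1, 1, 1, 1, 1, 1], .l [7, 8, 6, 3, 9, 5, 8, 1, 6, 1], .l [7, 8, 6, 3, 7, 3, 6, 1, 4, 1], .l [7, 8, 6, 3, 7, 3, 8, 3, 6, 3], .l [7, 8, 6, 3, 7, 3, 8, 3, 6, 3], .l [7, 10, 3, 11, 3, 9, 3, 8, 1], .l [0, 11, 11, 7, 7, 5, 3, 6, 2, 3], .l [7, 8, 6, 3, 7, 3, 6, 1, 4, 5], .l [0, 11, 13, 9, 9, 7, 3, 8, 4, 5], .l [0, 11, 3, 11,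 4, 2, 6]]),
([p 3 1, s 4 2, g, p 0 3, g, s 0 4, p 0 0, g, m 2 0, g, s 1 0, g], .lo 6, [.l [2, 5, 2, 5, 1, 6, 4, 5], .l [3, 7], .l [0, 11, 8, 4, 7, 5, 6, 1], .l [5, 7, 2, 9], .l [5, 7], .r 763 [1, 3, 5, 4] [1, 1, 1, 3, 1], .y [6], .l [5, 3, 9, 5, 8, 1, 6, 1], .r 766 [1, 2, 3, 4, 5] [1, 1, 1, 1, 1, 1], .l [5, 3, 9, 5, 8, 1, 6, 1], .l [5, 3, 7, 3, 6, 1, 4, 1], .l [5, 3, 7, 3, 8, 3, 6, 3], .l [5, 3, 7, 3, 8, 3, 6, 3], .l [0, 8, 6, 1, 5, 2, 5], .l [0, 9, 9, 5, 3, 6, 2, 3], .l [5, 3, 7, 3, 6, 1, 4, 5], .l [0, 9, 11, 7, 3, 8, 4, 5], .l [0, 9, 3, 10, 4, 2, 5]])]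

def D02 : List (List (List Item × Qry × List Rf)) := [d02_0, d02_1, d02_2, d02_3]

end Pool.Agent.H63.PU.C161
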