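import Pool.Agent.H63.PU.Ck3

/-! Certificate data, machine generated. -/

namespace Pool.Agent.H63.PU.C161

open Pool.Agent.H63.PU Pool.Agent.H63.PU.Ck3 Pool.Agent.H63.PU.Short

set_option maxRecDepth 20000

def d03_0 : List (List Item × Qry × List Rf) := [
([p 3 1, s 4 2, g, p 0 3, g, s 0 4, m 2 0, g, s 1 0, g], .hi 6, [.l [2, 5, 2, 5, 1, 4, 2, 3], .l [0, 9, 6, 4, 5, 3, 4, 1], .l [3, 7], .l [0, 7, 4, 2, 3, 1, 2, 1], .l [5, 7, 2, 7], .r 758 [1, 3, 4, 5] [1, 1, 1, 1, 1], .l [5, 7], .c, .l [5, 3, 5, 1, 6, 3, 4, 1], .l [0, 6, 4, 1, 3, 0, 3], .l [5, 3, 5, 1, 6, 3, 4, 1], .l [5, 3, 5, 1, 4, 1, 2, 3], .l [0, 7, 1, 8, 4, 2, 5], .l [0, 7, 9, 7, 3, 6, 2, 3]]),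
([p 3 1, s 4 2, g, p 0 3, g, s 0 4, g, m 2 0, g, s 1 0, g], .top 6, [.r 768 [1, 2, 3, 4] [1, 1, 1, 1], .r 757 [1, 2, 3, 4] [1, 1, 1, 1, 1], .r 767 [1, 2, 3, 4] [1, 1, 1, 1, 1], .r 762 [1, 2, 3, 4] [1, 1, 1, 1, 1]]),
([p 3 1, s 5 2, g, p 0 3, g, p 4 0, g, m 2 0, g, s 0 4, s 1 0, g, s 0 5, g], .lo 9, [.l [0, 11, 7, 1, 8, 9], .l [0, 11, 7], .l [2, 5, 2, 8, 11, 5, 2, 5], .l [0, 11, 5, 3, 7, 1, 6, 7], .l [0, 11, 5], .l [13, 6, 3, 6, 2, 8, 8, 5], .y [5, 9], .l [0, 11, 3, 1, 7, 1, 6, 7], .l [0, 11, 3], .l [13, 6, 3, 6, 2, 8, 8, 5], .l [11, 4, 1, 4, 2, 6, 6, 3], .l [7, 5, 6, 4, 11, 7, 4, 1], .l [0, 11, 1], .l [13, 4, 1, 6, 4, 8, 8, 5], .c, .l [0, 9, 10, 4, 2, 9], .l [12, 2, 10], .l [0, 9, 10], .l [0, 9, 12, 6, 2, 3], .l [14,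 4, 12], .l [0, 9, 12]]),
([p 3 1, s 5 2, g, p 0 3, g, m 2 0, g, p 4 0, g, s 0 4, s 1 0, g, s 0 5, g], .lo 9, [.l [0, 11, 7, 1, 8, 9], .l [0, 11, 7], .l [2, 5, 2, 8, 11, 5, 2, 7], .l [0, 11, 5, 1, 7, 1, 6, 7], .l [0, 11, 5], .l [13, 4, 1, 6, 4, 8, 8, 5], .l [11, 4, 1, 4, 2, 6, 6, 3], .l [5, 3, 4, 2, 11, 9, 6, 3], .l [0, 11, 3], .l [13, 4, 1, 4, 2, 8, 8, 5], .y [7, 9], .l [5, 3, 4, 2, 11, 9, 6, 1], .l [0, 11, 1], .l [13, 4, 1, 4, 2, 8, 8, 5], .c, .l [0, 9, 10, 4, 2, 9], .l [12, 2, 10], .l [0, 9, 10], .l [0, 9, 12, 6, 2, 3], .l [14, 4, 12], .l [0, 9, 12]]),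
([p 3 1, s 4 2, g, p 0 3, g, m 2 0, g, s 0 0, s 1 0, g, s 0 4, g], .hi 7, [.l [0, 9, 5, 1, 6, 7], .l [7, 5, 6, 2, 9, 7, 4, 1], .l [0, 9, 5], .l [5, 3, 4, 2, 7, 5, 2, 1], .l [0, 9, 3, 1, 5, 1, 4, 5], .r 770 [1, 2, 3, 5, 4] [1, 1, 1, 1, 1, 1], .l [0, 9, 3], .l [5, 3, 4, 2, 9, 7, 4, 1], .r 771 [1, 2, 3, 5, 4] [1, 1, 1, 1, 1, 1], .l [0, 9, 1], .y [7], .l [0, 7, 8, 4, 2, 7], .l [0, 7, 8], .l [10, 2, 8], .l [0, 7, 8, 6, 3, 6, 2, 3], .l [0, 7, 10, 6, 2, 3], .l [0, 7, 10], .l [12, 4, 10]]),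
([p 3 1, s 6 2, g, p 0 3, g, m 2 0, g, p 4 0, g, p 5 4, g, p 7 5, s 1 0, g, s 0 6, g, s 0 7, g], .hi 12, [.l [1, 15, 2, 15, 8, 6, 11, 1, 10, 1], .l [1, 15, 2, 15, 8, 6, 11, 1, 10, 1], .l [14, 13, 14, 2, 14, 5, 11, 1, 10, 1], .y [0, 12, 3], .l [1, 15, 2, 15, 8, 6, 11, 1, 10, 3], .l [1, 15, 2, 15, 8, 6, 11, 1, 10, 3], .l [14, 13, 14, 4, 5, 4, 4, 2, 5, 1, 7, 3, 1], .l [1, 15, 2, 15, 6, 4, 11, 1, 10, 5], .l [1, 15, 2, 15, 6, 4, 11, 1, 10, 5], .l [15, 4, 5, 4, 4, 2, 10, 10, 7, 1, 7, 1, 3], .l [14, 4, 6, 4, 4, 2, 8], .l [14, 13, 14, 6, 4, 4, 9, 1, 9, 7, 3, 3, 1], .l [14, 4, 6, 4, 4, 2, 8], .l [11, 13, 10], .l [5, 3, 4, 2, 13, 11, 8, 8, 5, 7, 5, 5, 3], .l [11, 13, 10], .l [1, 15, 4, 15, 6, 4, 11, 3, 10, 7], .l [1, 15, 4, 15,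 6, 4, 11, 3, 10, 7], .l [15, 6, 7, 6, 6, 4, 10, 10, 7, 1, 7, 3, 1], .l [13, 4, 5, 4, 4, 2, 8, 8, 5, 1, 5, 5, 3], .l [1, 13, 2, 15, 8, 4, 11, 1, 10, 5], .l [1, 13, 2, 15, 8, 4, 11, 1, 10, 5], .l [13, 4, 5, 4, 4, 2, 8, 8, 5, 1, 5, 7, 5], .l [1, 13, 2, 13, 6, 4, 9, 10, 0, 7], .l [1, 13, 2, 13, 6, 4, 9, 1, 8, 9], .l [1, 13, 2, 13, 6, 4, 9, 1, 8, 9], .l [1, 13, 2, 13, 6, 4, 9, 12, 2, 9]]),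
([p 3 1, s 6 2, g, p 0 3, g, m 2 0, g, p 4 0, g, p 5 4, g, p 0 5, s 1 0, g, s 0 6, g], .lo 11, [.l [2, 5, 2, 10, 13, 5, 2, 9], .l [3, 12], .l [2, 5, 2, 10], .l [15, 2, 8, 1, 10, 6, 2, 8, 8, 3], .l [5, 12], .l [7, 5, 6, 4, 13, 9, 6, 10, 9, 9, 7, 7, 5], .l [5, 3, 4, 2, 11, 9, 6, 8, 7, 7, 5, 5, 3], .l [5, 3, 4, 2, 4, 8, 11, 5, 2, 7], .l [7, 12], .l [14, 13, 14, 8, 5, 5, 3, 3, 1, 3, 5, 1, 5], .y [7, 11, 9], .l [5, 3, 4, 2, 6, 8, 11, 7, 4, 7], .l [9, 12], .l [14, 13, 14, 6, 3, 3, 1, 5, 3, 1, 5, 1, 5], .l [15, 4, 1, 4, 2, 10, 10, 7], .l [11, 12], .l [15, 4, 1, 4, 2, 10, 10, 7], .l [5, 3, 4, 2, 11, 9, 6, 6, 5, 5, 3, 3, 1], .l [10, 16, 6, 1, 12, 9, 10, 5], .l [5, 3, 4, 2, 13, 11, 6, 8, 7, 7, 5, 5, 3], .l [8, 9, 7, 14, 8, 3,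 0, 4, 8, 6, 1, 7, 3], .r 773 [1, 2, 3, 4, 5, 6, 7] [1, 1, 1, 1, 1, 1, 1, 1], .l [1, 13, 15, 12, 7, 2, 8, 10, 7, 7, 5, 1, 5], .l [8, 9, 7, 12, 6, 10, 3, 6, 9, 4, 2, 6, 3]]),
([p 3 1, s 6 2, g, p 0 3, g, p 4 0, g, m 2 0, g, p 5 4, g, p 7 5, s 1 0, g, s 0 6, g, s 0 7, g], .hi 7, [.l [1, 15, 17, 14, 3, 7, 1, 7, 1, 6, 8, 3], .l [2, 5, 2, 6], .l [3, 8], .l [2, 3, 0, 4], .l [1, 15, 17, 14, 7, 3, 3, 8, 10, 5], .l [16, 14, 14, 6, 8, 6, 8, 3, 1, 4, 7, 7, 5], .l [5, 8], .l [15, 8, 1, 8, 4, 4, 2, 8, 8, 5], .l [0, 3, 2, 14, 8, 1, 8, 4, 4, 2, 5, 1, 5], .l [7, 8], .l [15, 8, 1, 8, 4, 4, 2, 8, 8, 5], .l [0, 3, 2, 14, 8, 1, 8, 4, 6, 8, 6, 2, 3], .l [16, 14, 14, 8, 8, 6, 8, 6, 6, 4, 7, 7, 5], .l [12, 16, 4, 1, 10, 1, 10, 4, 8, 1, 3,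 1, 2, 5], .l [14, 13, 14, 8, 3, 5, 3, 7, 3, 5, 7, 3, 1], .l [16, 14, 14, 8, 10, 8, 6, 4, 6, 4, 7, 7, 5], .l [1, 15, 17, 12, 3, 13, 7, 1, 9, 4, 6, 7], .l [0, 11, 4, 12, 4, 2, 9], .l [0, 11, 9, 1, 9, 4, 6, 4, 8, 5, 1, 4, 5], .y [1, 7, 14], .l [10, 14, 4, 1, 10, 1, 10, 4, 8, 1, 3, 1, 2, 5], .l [0, 11, 4, 14, 6, 2, 11], .l [0, 11, 9, 1, 9, 4, 6, 4, 10, 7, 1, 6, 1], .l [0, 11, 4, 14, 6, 2, 11, 5, 3, 3, 1, 7, 5], .l [1, 13, 15, 12, 3, 13, 7, 1, 9, 4, 6, 7], .l [0, 11, 4, 16, 8, 2, 13], .l [0, 11, 9, 1, 9, 4, 6, 4, 12, 9, 1, 8, 3]]),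
([p 3 1, s 6 2, g, p 0 3, g, p 4 0, g, m 2 0, g, p 5 4, g, p 0 5, s 1 0, g, s 0 6, g], .lo 11, [.l [2, 5, 2, 10, 13, 5, 2, 9], .l [3, 12], .l [2, 5, 2, 10], .l [15, 2, 8, 3, 10, 6, 2, 8, 8, 3], .l [5, 12], .l [14, 13, 14, 10, 7, 7, 5, 5, 1, 3, 7, 1, 1], .y [5, 11, 9], .l [15, 2, 6, 1, 10, 8, 2, 8, 8, 5], .l [7, 12], .l [14, 13, 14, 8, 5, 5, 3, 7, 3, 5, 7, 3, 1], .l [12, 11, 12, 6, 3, 3, 1, 5, 3, 3, 5, 3, 1], .l [7, 5, 6, 4, 6, 8, 11, 5, 2, 7], .l [9, 12], .l [14, 13, 14, 6, 3, 3, 1, 7, 5, 1, 5, 3, 5], .l [15, 4, 1, 4, 2, 10, 10, 7], .l [11, 12], .l [15, 4, 1, 4, 2, 10, 10, 7], .l [7, 5, 6, 4, 11, 7, 4, 4, 3, 3, 1, 5, 3], .l [10, 16, 6, 1, 12, 9, 10, 5], .l [7, 5, 6, 4, 13, 9, 4, 6, 5, 5, 3, 7, 3], .l [0, 11, 3, 6, 4,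 4, 2, 5, 1, 4, 7, 1, 3], .r 775 [1, 2, 3, 4, 5, 6, 7] [1, 1, 1, 1, 1, 1, 1, 1], .l [7, 5, 6, 4, 11, 7, 4, 10, 9, 9, 7, 7, 1], .l [8, 9, 5, 7, 3, 7, 0, 10, 8, 4, 7]]),
([p 3 1, s 7 2, g, p 4 3, g, m 2 0, g, p 0 4, g, s 5 0, g, p 6 5, g, p 0 6, s 1 0, g, s 0 7, g], .hi 5, [.l [6, 9, 7, 7, 2, 4, 8, 1, 11, 4, 9, 7, 2, 3], .l [2, 5, 2, 4], .l [3, 6], .l [6, 9, 5, 5, 2, 4, 8, 1, 11, 4, 9, 7, 2, 3], .l [4, 9, 7, 7, 4, 1], .l [5, 6], .l [4, 9, 7, 7, 4, 1, 8, 1, 6, 2, 6, 1], .l [4, 9, 7, 7, 4, 1], .l [5, 3, 4, 2, 6, 3, 4, 2, 6, 10, 5, 2, 7], .l [4, 7, 5, 5, 2, 1], .l [4, 7, 5, 5, 2, 4, 8, 1, 11, 4, 9, 7, 2, 3], .l [4, 7, 5, 5, 2, 4], .l [5, 3, 4, 2, 4, 1, 4, 1, 6, 1, 3, 6, 3], .l [18, 16, 17, 15, 15, 11, 13, 9, 11, 9, 9, 7,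 2, 3], .l [4, 7, 5, 5, 2, 6], .l [18, 16, 17, 15, 15, 11, 13, 9, 11, 9, 9, 7, 2, 3], .l [4, 7, 5, 5, 2, 8, 13, 7, 4, 9], .l [4, 7, 5, 5, 2, 8], .l [18, 16, 16, 12, 12, 4, 6, 4, 11, 11, 9, 9, 7], .l [4, 7, 5, 5, 2, 8], .l [2, 11, 1, 5, 12, 6, 0, 7, 1, 2, 4, 7], .l [0, 13, 8, 14, 4, 2, 11], .l [1, 11, 1, 15, 9, 11, 9, 11, 6, 8, 5, 7, 5], .y [1, 5, 16], .l [2, 11, 1, 5, 14, 8, 0, 9, 1, 4, 6, 3], .l [0, 13, 8, 16, 6, 2, 13], .l [1, 11, 1, 17, 11, 13, 11, 13, 8, 10, 5, 9, 7]]),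
([p 3 1, s 7 2, g, p 4 3, g, p 0 4, g, m 2 0, g, s 5 0, g, p 6 5, g, p 0 6, s 1 0, g, s 0 7, g], .lo 5, [.l [6, 13, 1, 7, 14, 4, 10, 1, 10, 3, 6, 4, 0, 1], .l [3, 6], .l [0, 15, 12, 3, 3, 1, 1, 10, 7], .l [4, 13, 1, 9, 14, 4, 8, 1, 10, 5, 6, 4, 2, 1], .l [5, 6], .l [4, 7, 5, 5, 2, 1], .l [4, 13, 1, 9, 14, 4, 10, 3, 10, 3, 4, 2, 0, 3], .l [17, 2, 3, 2, 14, 14, 11, 11, 9, 9, 7, 1, 7], .l [4, 5, 3, 3, 0, 2], .l [4, 5, 3, 3, 0, 2], .l [4, 5, 3, 3, 0, 4, 8, 1, 11, 6, 9, 5, 2, 5], .l [4, 13, 1, 9, 14, 4, 10, 1, 10, 3, 4, 2, 0, 3], .l [4, 5, 3, 3, 0, 4], .l [4, 5, 3, 3, 0, 4, 6, 1, 1, 6, 5], .l [4, 13, 3, 9, 14, 4, 10, 1, 10, 3, 6, 4, 0, 1], .l [18, 16, 17, 15, 15, 13, 13, 7, 9, 7, 7, 5, 2, 5], .l [4, 5, 3, 3, 0, 6], .l [4,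 5, 3, 3, 0, 8, 13, 5, 2, 9], .l [18, 16, 16, 10, 12, 6, 8, 6, 11, 11, 9, 9, 3], .l [4, 5, 3, 3, 0, 8], .y [0, 14, 5, 3], .l [2, 11, 1, 5, 12, 6, 0, 9, 3, 4, 6, 7], .l [7, 5, 6, 4, 8, 1, 11, 4, 9, 7, 4, 7], .l [0, 13, 8, 14, 4, 2, 9], .l [2, 11, 1, 5, 14, 8, 0, 11, 3, 6, 8, 5], .l [2, 11, 1, 16, 10, 14, 8, 10, 7, 3, 5, 8, 0, 3], .l [0, 13, 8, 16, 6, 2, 11]]),
([p 3 1, s 6 2, g, p 0 3, g, m 2 0, g, s 4 0, g, p 5 4, g, p 0 5, s 1 0, g, s 0 6, g], .lo 3, [.l [11, 1, 7, 1, 8, 6, 11, 5, 2, 5], .l [3, 4], .l [0, 13, 10, 1, 1, 10, 7], .l [11, 1, 7, 1, 13, 5, 2, 5], .r 778 [1, 2, 3, 7, 4, 5, 6] [1, 1, 1, 1, 1, 1, 1, 1], .l [2, 3, 0, 2], .l [2, 3, 0, 2], .l [2, 3, 0, 4, 8, 1, 11, 6, 9, 5, 2, 5], .r 777 [1, 2, 3, 7, 4, 5, 6] [1,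 1, 1, 1, 1, 1, 1, 1], .l [2, 3, 0, 4], .l [2, 3, 0, 4, 6, 1, 1, 6, 5], .l [16, 14, 15, 13, 13, 7, 9, 7, 7, 5, 2, 5], .l [16, 14, 15, 13, 13, 7, 9, 7, 7, 5, 2, 5], .l [2, 3, 0, 6], .l [2, 3, 0, 8, 13, 5, 2, 9], .l [16, 14, 15, 13, 13, 5, 7, 5, 2, 7], .l [2, 3, 0, 8], .y [0, 12, 3], .l [5, 3, 8, 1, 11, 4, 9, 7, 4, 7], .l [5, 3, 8, 1, 11, 4, 9, 7, 4, 7], .l [2, 3, 0, 11], .l [5, 3, 8, 1, 13, 6, 11, 9, 6, 3], .l [5, 3, 8, 1, 13, 6, 11, 9, 6, 3], .l [2, 3, 0, 13]]),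
([p 3 1, s 5 2, g, p 0 3, g, m 2 0, g, p 4 0, g, p 0 4, s 1 0, g, s 0 5, g], .hi 7, [.l [14, 12, 13, 9, 11, 7, 7, 5, 2, 5], .l [14, 12, 13, 9, 11, 7, 7, 5, 2, 5], .l [9, 5], .l [12, 10, 11, 9, 9, 5, 5, 3, 2, 3], .l [7, 5, 8, 4, 2, 4, 9, 5, 2, 5], .r 776 [1, 2, 3, 6, 4, 5] [1, 1, 1, 1, 1, 1, 1], .l [9, 3], .r 779 [1, 2, 3, 6, 4, 5] [1, 1, 1, 1, 1, 1, 1], .r 774 [1, 2, 3, 6, 4, 5] [1, 1, 1, 1, 1, 1, 1], .l [9, 1], .l [9, 1, 13, 5, 2, 9], .l [7, 8], .l [9, 1], .y [7, 9], .l [12, 4, 4, 2, 8], .l [7, 11], .l [12, 4], .l [12, 4, 4, 2, 8], .l [14, 6, 6, 4, 10], .l [7, 13], .l [14, 6]]),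
([p 3 1, s 7 2, g, p 0 3, g, p 4 0, g, p 6 4, g, m 2 5, g, p 0 6, s 1 0, g, s 0 7, g, s 5 0, g], .hi 12, [.l [14, 13, 14, 4, 14, 1, 12, 4, 2, 7], .l [11, 9, 10, 6, 8, 9, 3], .l [0, 13, 11, 3, 11, 12, 9, 10, 7, 7, 5, 3, 1], .y [0, 12, 3], .l [14, 13, 14, 4, 14, 1, 12, 4, 2, 5], .l [0, 13, 11, 1, 11, 12, 9, 10, 7, 7, 5, 3, 1], .l [5, 13, 7, 13, 4, 6, 8, 6, 1], .l [14, 6, 8, 6, 6, 2, 8], .l [0, 13, 11, 1, 11, 12, 9, 10, 7, 5, 3, 5, 3], .l [14, 6, 8, 6, 6, 2, 8], .l [9, 13, 10], .l [0, 13, 11, 1, 11, 12, 9, 10, 5, 5, 3, 1, 3], .l [9, 13, 10], .l [11, 13, 8], .l [14, 13, 14, 4, 2, 2, 9, 5, 9, 3, 5, 5, 3], .l [11, 13, 8], .l [12, 11, 12, 2, 0, 0, 7, 5, 7, 1, 3, 3, 1], .l [12, 11, 14, 6, 14, 1, 12, 6, 4, 1], .l [0, 11, 9,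 1, 9, 12, 1, 1, 7, 8, 5, 5, 3], .l [0, 11, 9, 1, 9, 12, 9, 10, 7, 7, 5, 3, 1], .l [0, 11, 9, 1, 9, 10, 7, 8, 5, 5, 3, 5, 3], .l [12, 11, 12, 4, 14, 3, 12, 4, 2, 7], .l [0, 11, 1, 11, 13, 6, 2, 9, 1, 8, 3, 5, 3], .l [0, 11, 9, 1, 9, 10, 7, 8, 5, 5, 3, 7, 5], .l [12, 11, 12, 4, 12, 1, 10, 4, 2, 9], .l [0, 11, 1, 11, 15, 8, 2, 11, 1, 10, 3, 7, 5], .l [0, 11, 9, 1, 9, 10, 7, 8, 5, 5, 3, 9, 7]]),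
([p 3 1, s 6 2, g, p 0 3, g, p 4 0, g, p 5 4, g, m 2 0, g, p 0 5, s 1 0, g, s 0 6, g], .hi 9, [.l [2, 5, 2, 8, 13, 7, 4, 9], .l [2, 5, 2, 8], .l [3, 10], .l [2, 3, 0, 6], .l [11, 9, 3, 7, 13, 5, 2, 9], .l [14, 13, 14, 10, 5, 7, 5, 5, 3, 1, 7, 1, 1], .l [5, 10], .l [11, 9, 5, 7, 13, 5, 2, 9], .l [1, 15, 8, 3, 3, 11, 5, 1, 6, 6, 4, 2, 1], .l [7, 10], .l [15, 6, 1, 6, 2, 10, 10, 7], .l [15, 6, 1, 6, 2, 10, 10, 7], .l [9, 10], .l [15, 6, 1, 6, 2, 10, 10, 7], .l [1, 15, 6, 1, 6, 2, 4, 10, 5, 1, 5, 3, 1], .l [0, 13, 3, 6, 2, 9, 5, 7, 3, 6, 7, 3, 3], .l [1, 13, 4, 1, 4, 2, 2, 8, 5, 1, 5, 3, 1], .l [8, 16, 8, 3, 12, 7, 8, 3], .l [0, 11, 2, 12, 4, 2, 9], .l [0, 11, 9, 1, 9, 12, 9, 10, 7, 7, 5, 3, 5], .y [1, 9, 14], .r 781 [1,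 2, 3, 4, 7, 5, 6] [1, 1, 1, 1, 1, 1, 1, 1], .l [0, 11, 2, 14, 6, 2, 11], .l [9, 7, 8, 6, 11, 5, 2, 10, 5, 9, 7, 7, 5]]),
([p 3 1, s 5 2, g, p 0 3, g, p 4 0, g, m 2 0, g, p 0 4, s 1 0, g, s 0 5, g], .hi 5, [.l [7, 3, 6, 4, 6, 2, 6, 1], .l [14, 12, 13, 9, 11, 9, 9, 5, 2, 5], .l [7, 3], .l [12, 10, 11, 9, 9, 7, 7, 3, 2, 3], .l [7, 1, 8, 2, 8, 1], .r 782 [1, 2, 3, 6, 4, 5] [1, 1, 1, 1, 1, 1, 1], .l [7, 1], .l [7, 1, 13, 7, 4, 9], .l [5, 6], .l [7, 1], .l [9, 3, 13, 5, 2, 7], .l [5, 8], .l [9, 3], .y [5, 9], .l [12, 6, 6, 2, 8], .l [5, 11], .l [12, 6], .l [12, 6, 6, 2, 8], .l [14, 8, 8, 4, 10], .l [5, 13], .l [14, 8]]),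
([p 3 1, s 4 2, g, p 0 3, g, m 2 0, g, p 0 0, s 1 0, g, s 0 4, g], .hi 7, [.l [0, 9, 5], .l [12, 10, 11, 7, 9, 5, 2, 5], .l [9, 5], .l [10, 8, 9, 7, 7, 3, 2, 3], .l [0, 9, 3], .r 783 [1, 2, 3, 5, 4] [1, 1, 1, 1, 1, 1], .l [9, 3], .l [0, 9, 1], .r 780 [1, 2, 3, 5, 4] [1, 1, 1, 1, 1, 1], .l [9, 1], .y [7], .l [0, 7, 8], .l [7, 9], .l [10, 2], .l [0, 7, 8], .l [0, 7, 10], .l [7, 11], .l [12, 4]]),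
([p 3 1, s 6 2, g, p 0 3, g, m 2 4, g, m 4 0, s 1 5, g, s 5 6, g], .lo 3, [.l [1, 11, 8, 1, 3, 7, 1, 6, 4, 3], .l [3, 4], .l [0, 9, 6, 1, 1, 6, 3], .l [1, 11, 8, 1, 3, 7, 1, 6, 4, 3], .l [12, 10, 10, 4, 4, 2, 7, 5, 5, 5, 3, 3, 1], .l [1, 11, 8, 1, 3, 7, 1, 6, 4, 3], .l [2, 3, 0, 4, 9, 5, 2, 5], .l [10, 9, 9, 6, 6, 2, 4, 2, 5], .l [2, 3, 0, 4], .y [0, 8, 10, 1, 5, 7, 3], .l [5, 3, 4, 2, 7, 4, 5, 3, 4, 4, 2, 1], .l [5, 3, 4, 2, 7, 4, 5, 3, 4, 4, 2, 1], .l [2, 3, 0, 7], .l [5, 3, 4, 2, 9, 6, 7, 5, 1, 1, 2, 1], .l [5, 3, 4, 2, 9, 6, 7, 5, 1, 1, 2, 1], .l [0, 3, 2, 8, 6, 8, 1, 4, 4, 2, 3, 1, 1]]),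
([p 3 1, s 7 2, g, p 0 3, g, m 2 4, g, m 4 5, s 1 6, g, s 6 0, g, s 0 7, g, m 5 0, g], .lo 3, [.l [12, 1, 15, 12, 5, 1, 6, 4, 6, 2, 6, 1], .l [3, 4], .l [0, 9, 6, 1, 1, 6, 3], .l [12, 1, 15, 12, 5, 1, 8, 2, 8, 3], .l [7, 5, 6, 4, 4, 2, 7, 1, 9, 6, 1, 6, 3], .l [2, 3, 0, 2], .l [2, 3, 0, 4, 11, 7, 2, 7], .l [10, 9, 9, 6, 6, 2, 4, 2, 5], .l [2, 3, 0, 4], .l [5, 3, 4, 2, 2, 5, 9, 4, 6, 1], .l [11, 16, 11, 14, 10, 10, 7, 4, 8], .l [2, 3, 0, 7], .y [0, 8, 10, 3], .l [5, 3, 4, 2, 2, 7, 9, 2, 4, 1], .l [14, 12, 13, 11, 11, 2, 11, 3, 3, 1, 1, 6, 3], .l [2, 3, 0, 9], .l [2, 3, 0, 11, 13, 6, 11, 7, 2, 7], .l [8, 7, 10, 12, 3, 8, 4, 6, 4, 4, 2, 3], .l [1, 11, 15, 10, 3, 6, 8, 3, 3, 4, 5, 3, 3], .l [1, 11, 13, 8, 3, 6, 6, 1, 1,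 2, 3, 1, 1], .l [5, 3, 4, 2, 13, 10, 11, 9, 1, 8, 2, 6, 4, 1], .l [5, 3, 4, 2, 13, 10, 11, 9, 1, 8, 2, 6, 4], .l [2, 3, 0, 13]]),
([p 3 1, s 6 2, g, p 0 3, g, m 2 4, g, m 4 0, s 1 5, g, s 5 0, g, s 0 6, g], .hi 7, [.l [1, 13, 4, 8, 3, 9, 2, 7], .l [2, 5, 2, 6], .l [3, 8], .l [2, 3, 0, 4], .l [1, 13, 4, 6, 1, 9, 4, 7], .l [10, 9, 12, 8, 3, 4, 6, 1, 4, 1], .l [5, 8], .l [10, 9, 12, 6, 1, 6, 4, 1], .l [10, 9, 12, 6, 1, 6, 4, 1], .l [7, 8], .l [6, 14, 8, 1, 10, 7, 8, 1], .l [4, 5, 1, 5, 0, 6, 4, 2, 3], .l [6, 12, 3, 5, 1, 8, 5, 6, 1], .l [6, 14, 8, 1, 10, 5, 8, 3], .l [4, 5, 1, 5, 0, 8, 6, 2, 5], .l [10, 1, 11, 8, 11, 5, 2, 7], .y [1, 5, 7, 12], .l [1, 11, 4, 11, 6, 4, 7, 3, 6, 3], .l [1, 11, 4, 11, 6, 4, 7, 3, 6, 3], .r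 786 [1, 2, 3, 4, 7, 5, 6] [1, 1, 1, 1, 1, 1, 1]]),
([p 3 1, s 5 2, g, p 0 3, g, m 2 4, g, m 4 0, s 1 0, g, s 0 5, g], .hi 8, [.l [10, 6, 3, 6, 9, 2, 6, 3], .l [7, 5, 6, 2, 4, 5, 1], .l [3, 9, 3, 9, 2, 6, 6, 4, 1], .y [0, 8, 3], .l [7, 5, 9, 5, 2, 5, 7, 2, 4, 1], .l [7, 10, 7, 9, 5, 2, 3], .l [5, 9, 3, 9, 4, 6, 6, 4, 1], .l [7, 9, 6], .l [10, 9, 9, 6, 1, 6, 4, 2, 3], .l [7, 9, 6], .r 787 [1, 2, 3, 4, 6, 5] [1, 1, 1, 1, 1, 1], .l [8, 7, 7, 4, 6, 4, 4, 2, 3], .l [8, 7, 7, 4, 1, 4, 6, 4, 1], .r 785 [1, 2, 3, 4, 6, 5] [1, 1, 1, 1, 1], .l [5, 3, 7, 9, 6, 2, 4, 2, 4, 1], .l [8, 7, 7, 4, 6, 4, 4, 2, 5], .l [8, 7, 7, 4, 1, 4, 8, 6, 1]]),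
([p 3 1, s 7 2, g, p 0 3, g, m 0 4, g, m 4 5, g, m 2 6, g, m 5 0, s 1 0, g, s 0 7, g, s 6 0, g], .hi 12, [.l [14, 13, 14, 4, 14, 1, 12, 4, 2, 7], .l [11, 9, 10, 6, 8, 9, 3], .l [0, 13, 11, 3, 11, 12, 9, 10, 7, 7, 5, 3, 1], .y [0, 12, 3], .l [14, 13, 14, 4, 14, 1, 12, 4, 2, 5], .l [0, 13, 11, 1, 11, 12, 9, 10, 7, 7, 5, 3, 1], .l [5, 13, 7, 13, 4, 6, 8, 6, 1], .l [12, 6, 6, 4, 4, 0, 6], .l [14, 6, 8, 6, 6, 2, 8], .l [0, 13, 11, 1, 11, 12, 9, 10, 7, 5, 3, 5, 3], .l [14, 6, 8, 6, 6, 2, 8], .l [9, 13, 10], .l [0, 13, 11, 1, 11, 12, 9, 10, 5, 5, 3, 1, 3], .l [9, 13, 10], .l [11, 13, 8], .l [14, 13, 14, 4, 2, 2, 9, 5, 9, 3, 5, 5, 3], .l [11, 13, 8], .l [12, 11, 14, 6, 14, 1, 12, 6, 4, 1], .l [0, 11, 9, 1, 9, 12, 1, 1, 7, 8,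 5, 5, 3], .l [0, 11, 9, 1, 9, 12, 9, 10, 7, 7, 5, 3, 1], .l [0, 11, 9, 1, 9, 10, 7, 8, 5, 5, 3, 5, 3], .l [12, 11, 12, 4, 14, 3, 12, 4, 2, 7], .l [0, 11, 1, 11, 13, 6, 2, 9, 1, 8, 3, 5, 3], .l [0, 11, 9, 1, 9, 10, 7, 8, 5, 5, 3, 7, 5], .l [12, 11, 12, 4, 12, 1, 10, 4, 2, 9], .l [0, 11, 1, 11, 15, 8, 2, 11, 1, 10, 3, 7, 5], .l [0, 11, 9, 1, 9, 10, 7, 8, 5, 5, 3, 9, 7]]),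
([p 3 1, s 6 2, g, p 0 3, g, m 0 4, g, m 4 5, g, m 2 0, g, m 5 0, s 1 0, g, s 0 6, g], .hi 9, [.l [2, 5, 2, 8, 13, 7, 4, 9], .l [2, 5, 2, 8], .l [3, 10], .l [2, 3, 0, 6], .l [11, 9, 3, 7, 13, 5, 2, 9], .l [14, 13, 14, 10, 5, 7, 5, 5, 3, 1, 7, 1, 1], .l [5, 10], .l [5, 8], .l [11, 9, 5, 7, 13, 5, 2, 9], .l [1, 15, 8, 3, 3, 11, 5, 1, 6, 6, 4, 2, 1], .l [7, 10], .l [15, 6, 1, 6, 2, 10, 10, 7], .l [15, 6, 1, 6, 2, 10, 10, 7], .l [9, 10], .l [15, 6, 1, 6, 2, 10, 10, 7], .l [1, 15, 6, 1, 6, 2, 4, 10, 5, 1, 5, 3, 1], .l [0, 13, 3, 6, 2, 9, 5, 7, 3, 6, 7, 3, 3], .l [8, 16, 8, 3, 12, 7, 8, 3], .l [0, 11, 2, 12, 4, 2, 9], .l [0, 11, 9, 1, 9, 12, 9, 10, 7, 7, 5, 3, 5], .y [1, 9, 14], .r 789 [1, 2, 3, 4, 5, 7, 6] [1, 1, 1, 1, 1,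 1, 1, 1], .l [0, 11, 2, 14, 6, 2, 11], .l [9, 7, 8, 6, 11, 5, 2, 10, 5, 9, 7, 7, 5]]),
([p 3 1, s 5 2, g, p 0 3, g, m 0 4, g, m 2 0, g, m 4 0, s 1 0, g, s 0 5, g], .lo 5, [.l [7, 3, 6, 4, 6, 2, 6, 1], .l [7, 3], .l [14, 12, 13, 9, 11, 9, 9, 5, 2, 5], .l [7, 1, 8, 2, 8, 1], .l [7, 1], .r 790 [1, 2, 3, 6, 4, 5] [1, 1, 1, 1, 1, 1, 1], .l [7, 1, 13, 7, 4, 9], .l [7, 1], .l [5, 6], .l [5, 6], .l [9, 3, 13, 5, 2, 7], .l [9, 3], .l [5, 8], .y [5, 9], .l [5, 9, 8], .l [12, 6, 6, 2, 8], .l [12, 6], .l [5, 11], .l [14, 8, 8, 4, 10], .l [14, 8], .l [5, 13]]),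
([p 3 1, s 7 2, g, p 4 3, g, p 0 4, g, m 2 0, g, s 0 5, g, m 5 6, g, m 6 0, s 1 0, g, s 0 7, g], .lo 5, [.l [6, 13, 1, 7, 14, 4, 10, 1, 10, 3, 6, 4, 0, 1], .l [3, 6], .l [0, 15, 12, 3, 3, 1, 1, 10, 7], .l [4, 13, 1, 9, 14, 4, 8, 1, 10, 5, 6, 4, 2, 1], .l [5, 6], .l [4, 7, 5, 5, 2, 1], .l [4, 13, 1, 9, 14, 4, 10, 3, 10, 3, 4, 2, 0, 3], .l [17, 2, 3, 2, 14, 14, 11, 11, 9, 9, 7, 1, 7], .l [4, 5, 3, 3, 0, 2], .l [4, 5, 3, 3, 0, 2], .l [4, 5, 3, 3, 0, 4, 8, 1, 11, 6, 9, 5, 2, 5], .l [4, 13, 1, 9, 14, 4, 10, 1, 10, 3, 4, 2, 0, 3], .l [4, 5, 3, 3, 0, 4], .l [4, 13, 3, 9, 14, 4, 10, 1, 10, 3, 6, 4, 0, 1], .l [18, 16, 17, 15, 15, 13, 13, 7, 9, 7, 7, 5, 2, 5], .l [4, 5, 3, 3, 0, 6], .l [4, 5, 3, 3, 0, 8, 13, 5, 2, 9], .l [18,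 16, 16, 10, 12, 6, 8, 6, 11, 11, 9, 9, 3], .l [4, 5, 3, 3, 0, 8], .l [4, 5, 3, 3, 0, 8], .y [0, 14, 5, 3], .l [2, 11, 1, 5, 12, 6, 0, 9, 3, 4, 6, 7], .l [7, 5, 6, 4, 8, 1, 11, 4, 9, 7, 4, 7], .l [0, 13, 8, 14, 4, 2, 9], .l [2, 11, 1, 5, 14, 8, 0, 11, 3, 6, 8, 5], .l [2, 11, 1, 16, 10, 14, 8, 10, 7, 3, 5, 8, 0, 3], .l [0, 13, 8, 16, 6, 2, 11]]),
([p 3 1, s 7 2, g, p 4 3, g, m 2 0, g, p 0 4, g, s 0 5, g, m 5 6, g, m 6 0, s 1 0, g, s 0 7, g], .hi 5, [.l [6, 9, 7, 7, 2, 4, 8, 1, 11, 4, 9, 7, 2, 3], .l [2, 5, 2, 4], .l [3, 6], .l [6, 9, 5, 5, 2, 4, 8, 1, 11, 4, 9, 7, 2, 3], .l [4, 9, 7, 7, 4, 1], .l [5, 6], .l [4, 9, 7, 7, 4, 1, 8, 1, 6, 2, 6, 1], .l [4, 9, 7, 7, 4, 1], .l [5, 3, 4, 2, 6, 3, 4, 2, 6, 10, 5, 2, 7], .l [4,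 7, 5, 5, 2, 1], .l [4, 7, 5, 5, 2, 4, 8, 1, 11, 4, 9, 7, 2, 3], .l [4, 7, 5, 5, 2, 4], .l [5, 3, 4, 2, 4, 1, 4, 1, 6, 1, 3, 6, 3], .l [4, 7, 5, 5, 2, 4, 6, 1, 3, 6, 3], .l [18, 16, 17, 15, 15, 11, 13, 9, 11, 9, 9, 7, 2, 3], .l [4, 7, 5, 5, 2, 6], .l [18, 16, 17, 15, 15, 11, 13, 9, 11, 9, 9, 7, 2, 3], .l [4, 7, 5, 5, 2, 8, 13, 7, 4, 9], .l [4, 7, 5, 5, 2, 8], .l [18, 16, 16, 12, 12, 4, 6, 4, 11, 11, 9, 9, 7], .l [2, 11, 1, 5, 12, 6, 0, 7, 1, 2, 4, 7], .l [0, 13, 8, 14, 4, 2, 11], .l [1, 11, 1, 15, 9, 11, 9, 11, 6, 8, 5, 7, 5], .y [1, 5, 16], .l [2, 11, 1, 5, 14, 8, 0, 9, 1, 4, 6, 3], .l [0, 13, 8, 16, 6, 2, 13], .l [1, 11, 1, 17, 11, 13, 11, 13, 8, 10, 5, 9, 7]]),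
([p 3 1, s 6 2, g, p 0 3, g, m 2 0, g, s 0 4, g, m 4 5, g, m 5 0, s 1 0, g, s 0 6, g], .lo 3, [.l [11, 1, 7, 1, 8, 6, 11, 5, 2, 5], .l [3, 4], .l [0, 13, 10, 1, 1, 10, 7], .l [11, 1, 7, 1, 13, 5, 2, 5], .r 792 [1, 2, 3, 7, 4, 5, 6] [1, 1, 1, 1, 1, 1, 1, 1], .l [2, 3, 0, 2], .l [2, 3, 0, 2], .l [2, 3, 0, 4, 8, 1, 11, 6, 9, 5, 2, 5], .r 793 [1, 2, 3, 7, 4, 5, 6] [1, 1, 1, 1, 1, 1, 1, 1], .l [2, 3, 0, 4], .l [16, 14, 15, 13, 13, 7, 9, 7, 7, 5, 2, 5], .l [16, 14, 15, 13, 13, 7, 9, 7, 7, 5, 2, 5], .l [2, 3, 0, 6], .l [2, 3, 0, 8, 13, 5, 2, 9], .l [16, 14, 15, 13, 13, 5, 7, 5, 2, 7], .l [2, 3, 0, 8], .l [2, 3, 0, 8], .y [0, 12, 3], .l [5, 3, 8, 1, 11, 4, 9, 7, 4, 7], .l [5, 3, 8, 1, 11, 4, 9, 7, 4, 7], .l [2, 3, 0, 11], .l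 [5, 3, 8, 1, 13, 6, 11, 9, 6, 3], .l [5, 3, 8, 1, 13, 6, 11, 9, 6, 3], .l [2, 3, 0, 13]]),
([p 3 1, s 7 2, g, p 0 3, g, m 0 4, g, m 2 0, g, m 4 5, g, m 5 6, s 1 0, g, s 0 7, g, s 6 0, g], .hi 7, [.l [1, 15, 17, 14, 3, 7, 1, 7, 1, 6, 8, 3], .l [2, 5, 2, 6], .l [3, 8], .l [2, 3, 0, 4], .l [1, 15, 17, 14, 7, 3, 3, 8, 10, 5], .l [16, 14, 14, 6, 8, 6, 8, 3, 1, 4, 7, 7, 5], .l [5, 8], .l [5, 6], .l [15, 8, 1, 8, 4, 4, 2, 8, 8, 5], .l [0, 3, 2, 14, 8, 1, 8, 4, 4, 2, 5, 1, 5], .l [7, 8], .l [15, 8, 1, 8, 4, 4, 2, 8, 8, 5], .l [0, 3, 2, 14, 8, 1, 8, 4, 6, 8, 6, 2, 3], .l [16, 14, 14, 8, 8, 6, 8, 6, 6, 4, 7, 7, 5], .l [12, 16, 4, 1, 10, 1, 10, 4, 8, 1, 3, 1, 2, 5], .l [14, 13, 14, 8, 3, 5, 3, 7, 3, 5, 7, 3, 1], .l [16, 14, 14,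 8, 10, 8, 6, 4, 6, 4, 7, 7, 5], .l [1, 15, 17, 12, 3, 13, 7, 1, 9, 4, 6, 7], .l [0, 11, 4, 12, 4, 2, 9], .l [0, 11, 9, 1, 9, 4, 6, 4, 8, 5, 1, 4, 5], .y [1, 7, 14], .l [10, 14, 4, 1, 10, 1, 10, 4, 8, 1, 3, 1, 2, 5], .l [0, 11, 4, 14, 6, 2, 11], .l [0, 11, 9, 1, 9, 4, 6, 4, 10, 7, 1, 6, 1], .l [1, 13, 15, 12, 3, 13, 7, 1, 9, 4, 6, 7], .l [0, 11, 4, 16, 8, 2, 13], .l [0, 11, 9, 1, 9, 4, 6, 4, 12, 9, 1, 8, 3]]),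
([p 3 1, s 6 2, g, p 0 3, g, m 0 4, g, m 2 0, g, m 4 5, g, m 5 0, s 1 0, g, s 0 6, g], .hi 11, [.l [2, 5, 2, 10, 13, 5, 2, 9], .l [2, 5, 2, 10], .l [3, 12], .l [2, 3, 0, 8], .l [15, 2, 8, 3, 10, 6, 2, 8, 8, 3], .l [14, 13, 14, 10, 7, 7, 5, 5, 1, 3, 7, 1, 1], .l [5, 12], .y [5, 9, 11], .l [15, 2, 6, 1, 10, 8, 2, 8, 8, 5], .l [14, 13, 14, 8, 5, 5, 3, 7, 3, 5, 7, 3, 1], .l [7, 12], .l [7, 5, 6, 4, 6, 8, 11, 5, 2, 7], .l [14, 13, 14, 6, 3, 3, 1, 7, 5, 1, 5, 3, 5], .l [9, 12], .l [15, 4, 1, 4, 2, 10, 10, 7], .l [15, 4, 1, 4, 2, 10, 10, 7], .l [11, 12], .l [10, 16, 6, 1, 12, 9, 10, 5], .l [0, 11, 3, 6, 4, 4, 2, 5, 1, 4, 7, 1, 3], .l [7, 5, 6, 4, 13, 9, 4, 6, 5, 5, 3, 7, 3], .l [10, 14, 4, 1, 10, 7, 8, 5], .r 795 [1, 2, 3,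 4, 5, 7, 6] [1, 1, 1, 1, 1, 1, 1, 1], .l [8, 9, 5, 7, 3, 7, 0, 10, 8, 4, 7], .l [7, 5, 6, 4, 11, 7, 4, 10, 9, 9, 7, 7, 1]]),
([p 3 1, s 7 2, g, p 0 3, g, m 2 4, g, m 4 5, g, m 5 6, s 1 0, g, s 0 7, g, s 6 0, g], .hi 10, [.l [1, 13, 2, 13, 8, 6, 9, 1, 8, 1], .l [1, 13, 2, 13, 8, 6, 9, 1, 8, 1], .l [14, 12, 13, 9, 8, 6, 6, 4, 4, 2, 5, 1, 3], .y [0, 10, 3], .l [1, 13, 2, 13, 8, 6, 9, 1, 8, 3], .l [1, 13, 2, 13, 8, 6, 9, 1, 8, 3], .l [14, 12, 12, 6, 6, 4, 4, 2, 7, 3, 5, 5, 1], .l [12, 4, 6, 4, 4, 2, 6], .l [1, 13, 2, 13, 6, 4, 9, 1, 8, 5], .l [12, 4, 6, 4, 4, 2, 6], .l [9, 11, 8], .l [5, 3, 4, 2, 11, 9, 6, 6, 3, 5, 3, 5, 1], .l [9, 11, 8], .l [1, 13, 4, 13, 6, 4, 9, 3, 8, 5], .l [14, 12, 12, 8, 8, 6, 6, 4, 7, 5, 5, 5, 3],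 .l [0, 9, 3, 4, 2, 9, 1, 4, 2, 6, 2, 0, 3], .l [12, 10, 10, 6, 6, 4, 4, 2, 5, 3, 3, 3, 1], .l [1, 11, 2, 13, 8, 4, 9, 1, 8, 5], .l [12, 10, 11, 9, 8, 6, 6, 4, 4, 2, 5, 1, 3], .l [8, 9, 7, 7, 5, 5, 1, 4, 8, 3, 6, 2, 5], .l [1, 11, 2, 11, 6, 4, 7, 1, 6, 7], .l [12, 10, 11, 9, 8, 6, 6, 4, 4, 2, 7, 3, 5], .l [0, 9, 13, 12, 12, 10, 10, 8, 10, 5, 8, 2, 3]]),
([p 3 1, s 6 2, g, p 0 3, g, m 2 4, g, m 4 5, g, m 5 0, s 1 0, g, s 0 6, g], .hi 9, [.l [2, 5, 2, 8, 11, 5, 2, 7], .l [2, 5, 2, 8], .l [3, 10], .l [2, 3, 0, 6], .l [13, 2, 6, 1, 8, 6, 2, 6, 6, 3], .l [12, 11, 12, 8, 5, 5, 3, 3, 1, 1, 5, 1, 1], .l [5, 10], .l [5, 3, 4, 2, 4, 6, 9, 5, 2, 5], .l [12, 11, 12, 6, 3, 3, 1, 5, 3, 1, 3, 1, 3], .l [7, 10], .l [13, 4, 1, 4, 2,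 8, 8, 5], .l [13, 4, 1, 4, 2, 8, 8, 5], .l [9, 10], .l [8, 14, 6, 1, 10, 7, 8, 3], .l [0, 9, 3, 4, 2, 2, 0, 3, 1, 2, 5, 1, 3], .l [5, 3, 4, 2, 11, 9, 4, 6, 5, 5, 3, 5, 1], .y [1, 5, 7, 9, 12], .r 797 [1, 2, 3, 4, 5, 7, 6] [1, 1, 1, 1, 1, 1, 1], .l [6, 7, 5, 5, 1, 5, 0, 8, 6, 2, 5], .l [5, 3, 4, 2, 9, 7, 4, 8, 7, 7, 5, 5, 1]]),
([p 3 1, s 7 2, g, p 0 3, g, m 2 0, g, m 0 4, g, m 4 5, g, m 5 6, s 1 0, g, s 0 7, g, s 6 0, g], .hi 12, [.l [1, 15, 2, 15, 8, 6, 11, 1, 10, 1], .l [1, 15, 2, 15, 8, 6, 11, 1, 10, 1], .l [14, 13, 14, 2, 14, 5, 11, 1, 10, 1], .y [0, 12, 3], .l [1, 15, 2, 15, 8, 6, 11, 1, 10, 3], .l [1, 15, 2, 15, 8, 6, 11, 1, 10, 3], .l [14, 13, 14, 4, 5, 4, 4, 2, 5, 1, 7, 3, 1], .l [1, 15, 2, 15, 6, 4, 11, 1,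 10, 5], .l [1, 15, 2, 15, 6, 4, 11, 1, 10, 5], .l [15, 4, 5, 4, 4, 2, 10, 10, 7, 1, 7, 1, 3], .l [12, 4, 4, 2, 2, 0, 6], .l [14, 4, 6, 4, 4, 2, 8], .l [14, 13, 14, 6, 4, 4, 9, 1, 9, 7, 3, 3, 1], .l [14, 4, 6, 4, 4, 2, 8], .l [11, 13, 10], .l [5, 3, 4, 2, 13, 11, 8, 8, 5, 7, 5, 5, 3], .l [11, 13, 10], .l [1, 15, 4, 15, 6, 4, 11, 3, 10, 7], .l [1, 15, 4, 15, 6, 4, 11, 3, 10, 7], .l [15, 6, 7, 6, 6, 4, 10, 10, 7, 1, 7, 3, 1], .l [13, 4, 5, 4, 4, 2, 8, 8, 5, 1, 5, 5, 3], .l [1, 13, 2, 15, 8, 4, 11, 1, 10, 5], .l [1, 13, 2, 15, 8, 4, 11, 1, 10, 5], .l [13, 4, 5, 4, 4, 2, 8, 8, 5, 1, 5, 7, 5], .l [1, 13, 2, 13, 6, 4, 9, 1, 8, 9], .l [1, 13, 2, 13, 6, 4, 9, 1, 8, 9], .l [1, 13, 2, 13, 6, 4, 9, 12, 2, 9]]),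
([p 3 1, s 6 2, g, p 0 3, g, m 2 0, g, m 0 4, g, m 4 5, g, m 5 0, s 1 0, g, s 0 6, g], .hi 11, [.l [2, 5, 2, 10, 13, 5, 2, 9], .l [2, 5, 2, 10], .l [3, 12], .l [2, 3, 0, 8], .l [15, 2, 8, 1, 10, 6, 2, 8, 8, 3], .l [7, 5, 6, 4, 13, 9, 6, 10, 9, 9, 7, 7, 5], .l [5, 12], .l [5, 3, 4, 2, 4, 8, 11, 5, 2, 7], .l [14, 13, 14, 8, 5, 5, 3, 3, 1, 3, 5, 1, 5], .l [7, 12], .y [7, 9, 11], .l [5, 3, 4, 2, 6, 8, 11, 7, 4, 7], .l [14, 13, 14, 6, 3, 3, 1, 5, 3, 1, 5, 1, 5], .l [9, 12], .l [15, 4, 1, 4, 2, 10, 10, 7], .l [15, 4, 1, 4, 2, 10, 10, 7], .l [11, 12], .l [10, 16, 6, 1, 12, 9, 10, 5], .l [8, 9, 7, 14, 8, 3, 0, 4, 8, 6, 1, 7, 3], .l [5, 3, 4, 2, 13, 11, 6, 8, 7, 7, 5, 5, 3], .l [1, 13, 13, 10, 7, 2, 8, 8, 5, 5, 3, 1, 3], .r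 799 [1, 2, 3, 4, 5, 7, 6] [1, 1, 1, 1, 1, 1, 1, 1], .l [8, 9, 7, 12, 6, 10, 3, 6, 9, 4, 2, 6, 3], .l [1, 13, 15, 12, 7, 2, 8, 10, 7, 7, 5, 1, 5]]),
([p 3 1, s 5 2, g, p 0 3, g, m 2 0, g, m 0 4, g, m 4 0, s 1 0, g, s 0 5, g], .lo 7, [.l [14, 12, 13, 9, 11, 7, 7, 5, 2, 5], .l [9, 5], .l [14, 12, 13, 9, 11, 7, 7, 5, 2, 5], .l [7, 5, 8, 4, 2, 4, 9, 5, 2, 5], .l [9, 3], .r 796 [1, 2, 3, 6, 4, 5] [1, 1, 1, 1, 1, 1, 1], .r 798 [1, 2, 3, 6, 4, 5] [1, 1, 1, 1, 1, 1], .r 794 [1, 2, 3, 6, 4, 5] [1, 1, 1, 1, 1, 1, 1], .l [9, 1], .r 800 [1, 2, 3, 6, 4, 5] [1, 1, 1, 1, 1, 1, 1], .l [9, 1, 13, 5, 2, 9], .l [9, 1], .l [7, 8], .y [7, 9], .l [7, 9, 8], .l [12, 4, 4, 2, 8], .l [12, 4], .l [7, 11], .l [14, 6, 6, 4, 10], .l [14, 6], .l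 [7, 13]]),
([p 3 1, s 4 2, g, p 0 3, g, m 2 0, g, m 0 0, s 1 0, g, s 0 4, g], .lo 7, [.l [0, 9, 5], .l [9, 5], .l [12, 10, 11, 7, 9, 5, 2, 5], .l [0, 9, 3], .l [9, 3], .r 791 [1, 2, 3, 5, 4] [1, 1, 1, 1, 1, 1], .r 788 [1, 2, 3, 5, 4] [1, 1, 1, 1, 1], .l [0, 9, 1], .l [9, 1], .r 801 [1, 2, 3, 5, 4] [1, 1, 1, 1, 1, 1], .y [7], .c, .l [0, 7, 8], .l [10, 2], .l [7, 9], .l [0, 7, 10], .l [12, 4], .l [7, 11]]),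
([p 3 1, s 4 2, g, p 0 3, g, m 2 0, g, s 1 0, g, s 0 4, g], .bot 6, [.l [0, 5, 3], .r 772 [1, 2, 3, 4] [1, 1, 1, 1, 1], .r 784 [1, 2, 3, 4] [1, 1, 1, 1, 1], .r 802 [1, 2, 3, 4] [1, 1, 1, 1, 1]]),
([p 3 1, s 0 2, g, p 0 3, g, m 2 0, g, s 1 0, g], .lo 1, [.r 750 [1, 2, 4, 3] [1, 1, 1, 1, 1], .l [3, 1, 6, 4, 5], .l [2, 5, 2, 2, 5], .r 769 [1, 2, 3, 4] [1, 1, 1, 1, 1], .l [5, 3, 4, 2, 4, 2, 3], .l [9, 8, 3], .y [1, 5], .r 732 [1, 2, 3, 4] [1, 1, 1, 1, 1], .l [5, 3, 4, 2, 4, 2, 3], .l [9, 8, 5], .l [7, 6, 5], .r 803 [1, 2, 3, 4] [1, 1, 1, 1, 1], .l [5, 3, 4, 2, 6, 4, 1], .l [7, 6, 7]]),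
([p 4 1, s 3 0, g, p 2 0, g, s 0 2, s 1 0, g, s 0 3, g, p 0 4, g], .lo 5, [.l [7, 10, 2, 2, 6, 3], .l [9, 12, 2, 2, 8, 3], .l [0, 7, 3], .l [2, 12, 9, 3, 6, 7, 4, 1], .y [3, 5], .l [9, 12, 2, 2, 8, 1], .l [0, 7, 1], .l [2, 12, 9, 3, 6, 7, 4, 1], .c, .l [0, 5, 6, 10, 8, 5], .l [8, 2, 6], .l [0, 5, 6], .l [0, 5, 8, 10, 6, 7], .l [10, 4, 8], .l [0, 5, 8], .l [7, 10, 2, 2, 6, 7], .l [12, 6, 10], .l [0, 5, 10]]),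
([p 4 1, s 3 2, g, s 0 0, s 1 0, g, s 0 3, g, p 0 4, g, m 2 0, g], .hi 3, [.l [7, 10, 2, 2, 6, 1], .r 805 [1, 5, 3, 4] [1, 1, 1, 1, 3], .l [0, 5, 1], .y [3], .l [0, 3, 4, 8, 6, 3], .l [0, 3, 4], .l [6, 2, 4], .l [5, 10, 5, 7, 5, 1, 4, 1], .l [0, 3, 6, 8, 4, 5], .l [0, 3, 6], .l [8, 4, 6], .l [0, 3, 6], .l [5, 8, 2, 2, 4, 5], .l [0, 3, 8], .l [10, 6, 8], .l [5, 8, 2, 2, 4, 7], .l [0, 3, 10], .l [12, 8, 10]]),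
([p 0 1, s 3 2, g, p 4 0, g, s 0 3, g, s 0 4, s 1 0, g, m 2 0, g], .lo 7, [.l [7, 5, 11, 5, 2, 7], .l [0, 9, 5], .l [1, 6, 3, 6, 9, 7, 4, 1], .y [3, 7], .l [7, 5, 11, 5, 2, 5], .l [0, 9, 3], .l [1, 6, 3, 6, 9, 7, 4, 1], .l [5, 3, 11, 7, 4, 1], .l [0, 9, 1], .l [1, 4, 1, 6, 9, 5, 2, 5], .c, .l [5, 3, 11, 7, 2, 3], .l [10, 2, 8], .l [0, 7, 8], .l [0, 7, 8], .l [5, 3, 9, 5, 2, 7], .l [12, 4, 10], .l [0, 7, 10]]),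
([p 6 1, s 2 0, g, s 4 2, g, m 0 3, g, s 3 4, s 1 5, g, p 5 0, g, p 0 6, g], .hi 10, [.l [0, 9, 3, 8, 8, 8, 2, 6, 1, 6, 2, 3], .l [0, 9, 3, 8, 8, 8, 2, 6, 1, 6, 2, 3], .l [12, 8], .l [2, 14, 11, 11, 3, 8, 6, 6, 4, 5], .l [2, 14, 11, 11, 3, 8, 6, 6, 4, 5], .l [12, 6], .l [10, 4], .l [2, 14, 11, 11, 3, 6, 4, 4, 2, 5], .l [2, 14, 11, 11, 3, 6, 4, 4, 2, 5], .l [12, 4], .l [0, 7, 3, 10, 1, 8, 1, 6, 1, 6, 4, 1], .l [11, 4, 6, 10, 6, 10, 4, 7, 4, 6, 4, 1], .l [12, 1], .l [0, 7, 3, 6, 6, 8, 1, 8, 6, 1], .l [10, 11], .l [12, 1], .y [0, 8, 10, 12], .l [2, 12, 9, 9, 3, 10, 8, 8, 6, 3], .l [10, 13], .l [14, 3]]),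
([p 6 1, s 3 2, g, s 4 3, g, s 0 4, s 1 5, g, p 5 0, g, p 0 6, g, m 2 0, g], .lo 5, [.l [5, 3, 13, 9, 2, 9], .l [0, 7, 3], .l [8, 7, 3, 1, 3, 10, 8, 8, 6, 1], .l [3, 1, 13, 11, 4, 1], .l [0, 7, 1], .r 808 [1, 3, 7, 4, 5, 6] [1, 1, 1, 1, 1, 3], .l [0, 5, 6, 10, 8, 1], .l [3, 4, 7, 2, 4, 1], .l [0, 5, 6], .l [3, 4, 7, 2, 4, 1], .l [0, 5, 8, 1, 1, 8, 6, 1], .l [3, 4, 9, 4, 6, 1], .l [0, 5, 8], .l [3, 1, 13, 11, 2, 7], .l [3, 4, 11, 6, 8, 1], .l [0, 5, 10], .y [1, 12, 5, 3], .l [3, 1, 11, 9, 2, 9], .l [3, 4, 13, 8, 10, 1], .l [0, 5, 12]]),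
([p 5 1, s 3 2, g, s 4 3, g, s 0 4, s 1 0, g, p 0 5, g, m 2 0, g], .hi 6, [.l [3, 7, 1, 6, 2, 3], .l [8, 7, 3, 1, 4, 1], .l [3, 7, 1, 6, 2, 3], .l [2, 10, 7, 7, 1, 4, 2, 3], .l [2, 10, 7, 7, 1, 4, 2, 3], .l [3, 1, 9, 6, 7, 3, 4, 6, 4, 1], .c, .l [0, 5, 1, 6, 1, 6, 4, 1], .r 809 [1, 2, 3, 4, 6, 5] [1, 1, 1, 1, 1, 1], .l [0, 5, 1, 6, 1, 6, 4, 1], .y [0, 6, 8], .l [1, 2, 9, 3, 7, 5, 7, 2, 4, 1], .l [3, 1, 7, 4, 5, 3, 4, 6, 4, 1], .l [2, 8, 5, 5, 1, 6, 4, 1], .l [2, 8, 5, 5, 1, 8, 6, 1], .l [6, 11, 8, 1, 6, 4, 6, 1], .l [2, 8, 5, 5, 1, 8, 6, 1]]),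
([p 5 1, s 3 2, g, s 0 3, g, p 4 0, g, s 0 4, s 1 0, g, p 0 5, g, m 2 0, g], .lo 7, [.l [5, 3, 13, 9, 4, 9], .l [0, 9, 5], .l [1, 4, 1, 6, 11, 7, 2, 7], .l [3, 1, 13, 11, 6, 3], .l [0, 9, 3], .r 559 [1, 3, 6, 4, 5] [1, 1, 1, 1, 1, 3], .y [5, 7], .l [3, 1, 13, 11, 6, 1], .l [0, 9, 1], .r 560 [1, 3, 6, 4, 5] [1, 1, 1, 1, 1, 3], .c, .l [0, 7, 8, 10, 8, 1], .l [10, 2, 8], .l [0, 7, 8], .l [3, 1, 13, 11, 4, 7], .l [12, 4, 10], .l [0, 7, 10], .l [0, 7, 10], .l [3, 1, 11, 9, 4, 9], .l [14, 6, 12], .l [0, 7, 12]]),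
([p 4 1, s 3 2, g, s 0 3, g, s 0 0, s 1 0, g, p 0 4, g, m 2 0, g], .hi 5, [.l [5, 3, 11, 7, 2, 7], .r 807 [1, 2, 3, 5] [1, 1, 1, 3, 1], .l [0, 7, 3], .r 810 [1, 2, 3, 5, 4] [1, 1, 1, 1, 1], .l [3, 1, 11, 9, 4, 1], .r 811 [1, 2, 3, 5, 4] [1, 1, 1, 1, 1, 1], .l [0, 7, 1], .y [5], .l [0, 5, 6, 8, 6, 1], .l [0, 5, 6], .l [8, 2, 6], .l [0, 5, 6], .l [3, 1, 11, 9, 2, 5], .l [0, 5, 8], .l [10, 4, 8], .l [3, 1, 9, 7, 2, 7], .l [0, 5, 10], .l [12, 6, 10]]),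
([p 0 1, s 4 0, g, s 0 2, s 1 3, g, p 3 0, g, s 2 4, g], .lo 3, [.y [1, 3, 8], .l [6, 5, 8, 6, 1, 6, 4, 1], .l [0, 5, 1], .l [6, 5, 8, 6, 1, 6, 4, 1], .l [6, 2, 4, 7, 3, 1], .l [4, 7, 3, 6, 3], .l [0, 3, 4], .l [6, 2, 4], .l [8, 4, 6, 7, 1, 1], .l [8, 4, 6], .l [0, 3, 6], .l [10, 6, 8, 3, 3, 1], .l [10, 6, 8], .l [0, 3, 8]]),
([p 4 1, s 5 2, g, s 0 3, s 1 0, g, p 0 4, g, s 3 5, g, m 2 0, g], .hi 4, [.l [2, 8, 5, 2, 6, 6, 4, 1], .l [10, 8, 11, 2, 5, 1, 3, 6, 2, 3], .l [5, 9, 9, 3, 7, 2, 4, 6, 4, 1], .c, .l [6, 1, 11, 6, 8, 3], .r 813 [1, 3, 6, 5] [1, 1, 3, 3], .l [0, 3, 8, 10, 3, 6, 1, 6, 4, 1], .y [0, 4, 6], .l [3, 9, 9, 1, 5, 2, 4, 6, 4, 1], .l [0, 3, 8, 1, 3, 6, 1, 6, 4, 1], .l [8, 3, 7, 5, 9, 4, 6], .l [3, 7, 7,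 1, 5, 2, 4, 6, 4, 1], .l [3, 7, 7, 1, 5, 2, 4, 6, 4, 1], .l [10, 5, 9, 7, 9, 2, 4], .l [8, 4, 10, 6, 1, 4, 2, 5], .l [8, 4, 10, 6, 1, 4, 2, 5], .l [8, 6, 9, 2, 5, 1, 3, 6, 2, 3]]),
([p 5 1, s 6 2, g, m 0 3, g, s 3 0, s 1 0, g, m 0 4, g, p 0 5, g, m 4 0, g, s 0 6, g, m 2 0, g], .hi 5, [.l [6, 12, 5, 9, 11, 4, 11, 3, 11, 7, 4, 7], .l [4, 12, 7, 1, 15, 7, 10, 6, 8, 9, 4, 1], .l [0, 7, 3], .y [3, 5], .l [4, 12, 7, 1, 15, 7, 10, 6, 8, 9, 4, 1], .l [4, 12, 7, 1, 15, 7, 10, 6, 8, 9, 4, 1], .l [0, 7, 1], .l [0, 5, 6, 10, 8, 11], .l [0, 5, 6], .l [8, 2, 6], .l [8, 2, 6], .l [0, 5, 8, 10, 6, 11], .l [0, 5, 8], .l [10, 4, 8], .l [0, 5, 8], .l [0, 5, 10, 12, 8, 10, 8, 9], .l [0, 5, 10], .l [12, 6, 10], .l [14, 8, 12, 13, 11, 1],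 .l [0, 5, 12], .l [14, 8, 12], .r 814 [1, 2, 7, 5, 6] [3, 3, 3, 1, 1], .l [16, 10, 14, 5, 3, 1], .l [0, 5, 14], .l [16, 10, 14], .l [18, 12, 16, 7, 1, 5], .l [0, 5, 16], .l [18, 12, 16]]),
([p 4 1, s 6 2, g, m 0 3, g, s 3 0, s 1 0, g, p 0 4, m 0 5, g, m 5 0, g, s 0 6, g, m 2 0, g], .lo 9, [.l [11, 7, 16, 6, 0, 8, 5], .l [11, 7], .l [8, 11, 5, 16, 14, 7, 9, 4, 1], .l [11, 5, 7, 5, 7, 10], .l [11, 5], .l [8, 11, 7, 16, 12, 5, 7, 4, 1], .l [9, 3, 7], .l [0, 5, 8, 2, 11, 7, 11, 3, 0, 3], .l [11, 2, 16, 6, 0, 13, 10], .l [11, 2], .r 815 [1, 2, 3, 7, 4, 6] [1, 1, 1, 1, 0, 3, 1, 1], .l [2, 11, 1, 11, 9, 5, 1], .l [11, 1], .l [9, 10], .y [9, 11], .l [13, 3, 9, 1, 10, 5, 1], .l [13, 3], .l [9, 12], .l [15, 5, 11, 1, 12, 7, 3],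 .l [15, 5], .l [9, 14], .l [9, 14], .l [17, 7, 13, 1, 14, 9, 5], .l [17, 7], .l [9, 16]]),
([p 4 1, s 5 2, g, m 0 3, g, s 3 0, s 1 0, g, p 0 4, m 0 0, g, s 0 5, g, m 2 0, g], .hi 9, [.l [3, 10, 6], .l [1, 12, 9, 7, 8], .l [3, 10], .l [3, 8], .l [5, 10, 4], .l [1, 12, 7, 5, 8], .l [5, 10], .l [8, 10, 1], .l [1, 12, 4, 2, 8], .l [8, 10], .l [1, 10, 2, 0, 6], .y [9], .l [13, 11, 12, 5, 1, 11, 7, 1], .l [13, 11, 12, 5, 1], .r 816 [1, 2, 3, 4, 6, 5] [1, 1, 1, 1, 1, 1, 1], .l [1, 10, 10, 8, 6], .l [15, 13, 14, 7, 3], .l [11, 9, 10, 3, 9], .l [1, 10, 12, 10, 6], .l [13, 11, 12, 5, 11], .l [11, 9, 10, 3, 11], .l [1, 10, 14, 12, 6]]),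
([p 6 1, s 8 2, g, s 0 3, g, s 3 0, s 1 4, g, m 0 5, g, p 0 6, g, m 5 7, g, m 7 0, g, s 0 8, g, m 2 0, g, s 4 0, g], .lo 8, [.l [10, 6, 11, 1, 11, 6, 15, 6, 12, 1], .l [10, 6], .l [18, 16, 17, 6, 8, 6, 6, 4, 13, 11, 3, 8, 6], .l [10, 4, 11, 1, 11, 4, 15, 6, 12, 3], .l [10, 4], .l [18, 16, 17, 6, 8, 6, 6, 4, 13, 11, 3, 6, 4], .l [3, 4, 7, 2, 4, 11], .l [10, 1, 11, 1, 11, 1, 15, 6, 10, 1], .l [10, 1], .l [9, 20, 11, 15, 1, 14, 16, 1, 13, 1, 12, 9], .l [10, 1, 13, 11, 17, 10, 14, 1], .l [10, 1], .l [8, 9], .l [12, 3, 11, 9, 11, 9, 15, 8, 12, 1], .l [12, 3], .l [8, 11], .l [14, 5, 5, 1, 13, 11, 15, 6, 10, 1], .l [14, 5], .l [8, 13], .y [8, 12, 14], .l [16, 7, 7, 3, 3, 1, 15, 4, 8, 1], .l [16, 7], .l [8, 15], .l [18, 9,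 9, 5, 5, 3, 15, 2, 6, 1], .l [18, 9], .l [8, 17], .l [8, 17], .l [7, 20, 11, 1, 10, 7, 5, 8, 12, 1], .l [20, 11], .l [8, 19], .l [7, 20, 11, 1, 10, 7, 5, 8, 12, 1], .l [7, 22, 13, 1, 12, 9, 5, 10, 14, 1], .l [22, 13], .l [8, 21]]),
([p 5 1, s 7 2, g, s 0 3, g, s 3 0, s 1 4, g, p 0 5, m 0 6, g, m 6 0, g, s 0 7, g, m 2 0, g, s 4 0, g], .lo 9, [.l [11, 7, 16, 6, 0, 8, 5], .l [11, 7], .l [8, 11, 5, 14, 12, 7, 1, 8, 4, 1], .l [11, 5, 16, 6, 0, 10, 7], .l [11, 5], .l [8, 11, 7, 16, 12, 5, 7, 4, 1], .l [3, 4, 8, 3, 5, 8], .l [11, 2, 10, 8, 14, 6, 10, 1], .l [11, 2], .r 818 [1, 2, 3, 4, 8, 5, 6, 7] [1, 1, 1, 1, 0, 1, 1, 1, 1, 1], .l [5, 1, 10, 1, 10, 8, 2, 12], .l [11, 1], .l [9, 10], .y [9, 11], .l [13, 3, 3, 1, 15, 4, 8,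 1], .l [13, 3], .l [9, 12], .l [15, 5, 5, 3, 15, 2, 6, 1], .l [15, 5], .l [9, 14], .l [9, 14], .l [19, 12, 6, 15, 11, 4, 6, 13, 7, 12, 2, 5], .l [17, 7], .l [9, 16], .l [9, 16, 13, 5, 13, 7, 1, 11, 6, 10, 8, 1], .l [17, 10, 18, 15, 7, 12, 7, 11, 12, 1], .l [19, 9], .l [9, 18]]),
([p 5 1, s 6 2, g, s 0 3, g, s 3 0, s 1 4, g, p 0 5, m 0 0, g, s 0 6, g, m 2 0, g, s 4 0, g], .hi 9, [.l [3, 10, 6], .l [1, 12, 9, 7, 8], .l [3, 10], .l [3, 8, 4], .l [5, 10, 4], .l [1, 12, 7, 5, 8], .l [5, 10], .l [8, 10, 1], .l [1, 12, 4, 2, 8], .l [8, 10], .l [1, 10, 2, 0, 6], .y [9], .l [13, 11, 12, 5, 1, 11, 7, 1], .l [13, 11, 12, 5, 1], .r 819 [1, 2, 3, 4, 5, 7, 6] [1, 1, 1, 1, 1, 1, 1, 1], .l [1, 10, 10, 8, 6], .l [15, 13, 14, 7, 3],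 .l [1, 10, 1, 11, 13, 11, 4, 1], .l [1, 10, 12, 10, 6], .l [13, 11, 12, 5, 11], .l [11, 9, 10, 3, 11], .l [1, 10, 14, 12, 6], .l [13, 11, 12, 5, 13], .l [11, 9, 10, 3, 13], .l [1, 10, 16, 14, 6]]),
([p 4 1, s 5 2, g, s 0 3, g, s 3 0, s 1 0, g, p 0 4, m 0 0, g, s 0 5, g, m 2 0, g], .hi 6, [.l [7, 1, 9, 2, 4, 12, 10, 1], .l [8, 7, 11, 9, 4, 1], .l [3, 7, 1, 6, 2, 8], .l [2, 8, 5, 2, 1, 8, 3, 8, 4, 1], .l [4, 10, 5, 2, 6, 12, 10, 1], .l [8, 7, 11, 7, 2, 6], .l [5, 7, 4, 8, 5, 10, 3, 10, 6, 1], .l [8, 1, 14, 7, 11, 1], .l [15, 13, 4, 12, 1, 6, 9, 1], .l [0, 5, 1, 6, 1, 6, 4, 7], .y [0, 6, 8], .l [0, 5, 1, 7, 2, 7, 3, 7, 3, 0], .l [5, 1, 7, 2, 8, 12, 6, 1], .l [13, 11, 12, 5, 12, 7, 1, 8, 6, 1], .l [0, 5, 1, 9, 4, 9, 3,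 9, 5, 2], .l [6, 5, 9, 9, 4, 1], .l [5, 1, 7, 2, 10, 12, 4, 1], .l [0, 5, 1, 4, 9, 1, 6, 9, 2, 4], .l [6, 5, 9, 11, 6, 1], .r 820 [1, 2, 3, 6, 4, 5] [1, 1, 1, 1, 1, 1, 1], .l [6, 14, 3, 7, 11, 1], .l [6, 5, 9, 13, 8, 1]]),
([p 3 1, s 4 2, g, s 0 0, s 1 0, g, p 0 3, m 0 0, g, s 0 4, g, m 2 0, g], .lo 3, [.r 821 [1, 2, 5, 3, 4] [1, 1, 1, 1, 1, 1], .l [0, 5, 1], .r 817 [1, 2, 5, 3, 4] [1, 1, 1, 1, 1, 1], .y [3], .c, .l [0, 3, 4, 6, 4, 7], .l [6, 2, 4], .l [0, 3, 4], .l [0, 3, 5], .l [13, 11, 7, 5, 9, 1], .l [9, 5, 7], .l [0, 3, 7], .l [13, 11, 9, 7, 9, 3], .l [11, 7, 9], .l [0, 3, 9], .l [0, 3, 9], .l [13, 9, 11, 5, 1, 3], .l [13, 9, 11], .l [0, 3, 11]]),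
([p 3 1, s 5 2, g, s 1 0, g, p 0 3, s 0 4, g, m 4 0, g, s 0 5, g, m 2 0, g], .lo 6, [.l [3, 7, 3], .l [3, 7, 3], .l [5, 4, 10, 8, 4, 1], .l [3, 5, 1], .l [5, 7, 1], .l [5, 7, 1], .l [3, 2, 10, 6, 2, 5], .l [12, 10, 11, 7, 1, 10, 4, 1], .l [3, 2, 7, 1, 8, 6, 1], .l [12, 10, 11, 7, 1, 10, 4, 1], .y [6, 8], .l [12, 10, 11, 7, 3, 10, 4, 1], .l [3, 2, 7, 1, 8, 6, 1], .l [12, 10, 11, 7, 3, 10, 4, 1], .l [1, 9, 11, 7, 3, 8, 1, 8, 4, 1], .l [1, 9, 11, 7, 3, 8, 1, 8, 4, 1], .l [14, 12, 13, 9, 5], .l [12, 10, 11, 7, 5], .l [3, 2, 8, 12, 8, 1], .l [3, 2, 8, 12, 8, 1], .l [12, 10, 11, 7, 10]]),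
([p 3 1, s 4 2, g, s 1 0, g, p 0 3, s 0 0, g, s 0 4, g, m 2 0, g], .hi 6, [.l [3, 7, 3], .l [5, 4, 8, 6, 4, 1], .l [3, 7, 3], .l [5, 7, 1], .l [3, 2, 8, 4, 2, 3], .l [5, 7, 1], .l [3, 2, 6, 2, 0, 1], .y [6], .l [10, 8, 9, 5, 1, 8, 4, 1], .l [10, 8, 9, 5, 1, 8, 4, 1], .r 823 [1, 2, 3, 5, 4] [1, 1, 1, 1, 1, 1], .l [8, 6, 7, 3, 1, 6, 4, 1], .l [3, 2, 6, 8, 6, 1], .l [12, 10, 11, 7, 3], .l [3, 2, 6, 8, 6, 1], .l [3, 2, 6, 10, 8, 1], .l [10, 8, 9, 5, 8], .l [3, 2, 6, 10, 8, 1]]),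
([p 4 1, s 6 2, g, p 3 0, g, s 0 3, s 1 0, g, p 5 4, g, p 0 5, g, s 0 6, g, m 2 0, g], .lo 5, [.l [6, 10, 3, 5, 9, 6, 9, 1, 9, 7, 4, 1], .l [0, 7, 3], .l [4, 10, 5, 1, 13, 7, 8, 4, 6, 7, 4, 1], .y [3, 5], .l [4, 10, 5, 1, 13, 7, 8, 4, 6, 7, 4, 1], .l [0, 7, 1], .l [4, 10, 5, 1, 13, 7, 8, 4, 6, 7, 4, 1], .c, .l [0, 5, 6, 8, 6, 9], .l [8, 2, 6], .l [0, 5, 6], .l [0, 5, 8, 10, 8, 8, 6, 7], .l [10, 4, 8], .l [0, 5, 8], .l [12, 6, 10, 11, 9, 1], .l [12, 6, 10], .l [0, 5, 10], .l [14, 8, 12, 5, 3, 1], .l [14, 8, 12], .l [0, 5, 12], .l [0, 5, 12], .l [16, 10, 14, 7, 1, 5], .l [16, 10, 14], .l [0, 5, 14]]),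
([p 4 1, s 6 2, g, p 3 0, g, s 0 3, s 1 0, g, p 5 0, g, p 0 4, g, p 0 5, g, s 0 6, g, m 2 0, g], .lo 5, [.l [6, 12, 5, 7, 11, 6, 11, 1, 11, 9, 6, 1], .l [0, 7, 3], .l [4, 12, 7, 1, 15, 7, 10, 6, 8, 9, 4, 1], .y [3, 5], .l [4, 12, 7, 1, 15, 7, 10, 6, 8, 9, 4, 1], .l [0, 7, 1], .l [4, 12, 7, 1, 15, 7, 10, 6, 8, 9, 4, 1], .c, .l [0, 5, 6, 10, 8, 11], .l [8, 2, 6], .l [0, 5, 6], .l [8, 2, 6], .l [0, 5, 8, 10, 6, 11], .l [10, 4, 8], .l [0, 5, 8], .l [0, 5, 10, 12, 8, 10, 8, 9], .l [12, 6, 10], .l [0, 5, 10], .l [14, 8, 12, 13, 11, 1], .l [14, 8, 12], .l [0, 5, 12], .l [16, 10, 14, 5, 3, 1], .l [16, 10, 14], .l [0, 5, 14], .l [0, 5, 14], .l [18, 12, 16, 7, 1, 5], .l [18, 12, 16], .l [0, 5, 16]]),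
([p 4 1, s 6 2, g, p 3 0, g, s 0 3, s 1 0, g, p 0 4, p 5 0, g, p 0 5, g, s 0 6, g, m 2 0, g], .hi 9, [.l [11, 7, 16, 6, 0, 8, 5], .l [8, 11, 5, 16, 14, 7, 9, 4, 1], .l [11, 7], .l [11, 5, 7, 5, 7, 10], .l [8, 11, 7, 16, 12, 5, 7, 4, 1], .l [11, 5], .l [9, 3, 7], .l [11, 2, 16, 6, 0, 13, 10], .r 826 [1, 2, 3, 4, 7, 6] [1, 1, 1, 1, 0, 3, 1, 1], .l [11, 2], .r 825 [1, 2, 3, 4, 7, 6] [1, 1, 1, 0, 3, 1, 1], .l [2, 11, 1, 11, 9, 5, 1], .l [9, 10], .l [11, 1], .y [9, 11], .l [13, 3, 9, 1, 10, 5, 1], .l [9, 12], .l [13, 3], .l [13, 11, 7, 9, 12, 2, 10, 7, 8], .l [15, 5, 11, 1, 12, 7, 3], .l [9, 14], .l [15, 5], .l [17, 7, 13, 1, 14, 9, 5], .l [9, 16], .l [17, 7]]),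
([p 4 1, s 7 2, g, s 3 0, g, s 0 3, s 1 0, g, p 5 4, p 6 5, g, p 0 6, g, s 0 7, g, m 2 0, g], .lo 11, [.l [3, 12, 12, 10, 6], .l [3, 12], .l [0, 7, 1, 3, 9, 9, 7, 7, 6, 6, 4, 5], .l [0, 5, 1, 1, 7, 7, 5, 5, 4, 4, 2, 3], .l [5, 12, 12, 10, 4], .l [5, 12], .l [1, 14, 9, 7, 7, 5, 8], .y [0, 6, 11, 9, 8], .l [8, 12, 12, 10, 1], .l [8, 12], .l [1, 14, 6, 4, 4, 2, 8], .l [12, 13, 9, 9, 8, 8, 0, 7, 11, 4, 8, 1], .l [11, 12], .l [10, 13, 11, 11, 10, 10, 2, 1], .l [10, 11, 9, 9, 8, 8, 0, 7, 11, 4, 8, 1], .l [15, 13, 14, 7, 7, 6, 6, 4, 4, 2, 9, 7, 1], .l [10, 11, 9, 9, 8, 8, 0, 7], .l [6, 5, 11, 13, 11, 11, 9, 1], .l [1, 12, 14, 12, 12, 10, 6], .l [1, 12, 1, 12, 14, 12, 4, 1], .l [1, 12, 1, 12, 12, 10, 4, 1], .l [6, 5, 11, 15,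 13, 13, 11, 1], .l [1, 12, 16, 14, 14, 12, 6], .l [10, 11, 9, 9, 8, 8, 0, 11]]),
([p 5 1, s 8 2, g, s 3 0, g, s 0 3, s 1 4, g, p 6 0, g, p 0 5, g, p 7 6, g, p 0 7, g, s 0 8, g, m 2 0, g, s 4 0, g], .hi 8, [.l [10, 6, 11, 1, 11, 6, 15, 6, 12, 1], .l [18, 16, 17, 6, 8, 6, 6, 4, 13, 11, 3, 8, 6], .l [10, 6], .l [10, 4, 11, 1, 11, 4, 15, 6, 12, 3], .l [18, 16, 17, 6, 8, 6, 6, 4, 13, 11, 3, 6, 4], .l [10, 4], .l [3, 4, 7, 2, 4, 11], .l [10, 1, 11, 1, 11, 1, 15, 6, 10, 1], .l [9, 20, 11, 15, 1, 14, 16, 1, 13, 1, 12, 9], .l [10, 1], .l [10, 1, 13, 11, 17, 10, 14, 1], .l [8, 9], .l [10, 1], .l [8, 9], .l [12, 3, 11, 9, 11, 9, 15, 8, 12, 1], .l [8, 11], .l [12, 3], .l [14, 5, 5, 1, 13, 11, 15, 6, 10, 1], .l [8, 13], .l [14,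 5], .y [8, 14, 12], .l [16, 7, 7, 3, 3, 1, 15, 4, 8, 1], .l [8, 15], .l [16, 7], .l [16, 14, 15, 6, 8, 6, 6, 4, 11, 9, 3, 8, 6], .l [18, 9, 9, 5, 5, 3, 15, 2, 6, 1], .l [8, 17], .l [18, 9], .l [7, 20, 11, 1, 10, 7, 5, 8, 12, 1], .l [8, 19], .l [20, 11], .l [7, 22, 13, 1, 12, 9, 5, 10, 14, 1], .l [8, 21], .l [22, 13]]),
([p 5 1, s 7 2, g, s 3 0, g, s 0 3, s 1 4, g, p 0 5, p 6 0, g, p 0 6, g, s 0 7, g, m 2 0, g, s 4 0, g], .hi 9, [.l [11, 7, 16, 6, 0, 8, 5], .l [8, 11, 5, 14, 12, 7, 1, 8, 4, 1], .l [11, 7], .l [11, 5, 16, 6, 0, 10, 7], .l [8, 11, 7, 16, 12, 5, 7, 4, 1], .l [11, 5], .l [3, 4, 8, 3, 5, 8], .l [11, 2, 10, 8, 14, 6, 10, 1], .r 829 [1, 2, 3, 4, 5, 8, 6, 7] [1, 1, 1, 1, 0, 1, 1, 1, 1, 1], .l [11, 2], .r 828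 [1, 2, 3, 5, 8, 6, 7] [1, 1, 1, 1, 1, 1, 3], .l [5, 1, 10, 1, 10, 8, 2, 12], .l [9, 10], .l [11, 1], .y [9, 11], .l [13, 3, 3, 1, 15, 4, 8, 1], .l [9, 12], .l [13, 3], .l [13, 11, 7, 9, 12, 2, 10, 7, 8], .l [15, 5, 5, 3, 15, 2, 6, 1], .l [9, 14], .l [15, 5], .l [19, 12, 6, 15, 11, 4, 6, 13, 7, 12, 2, 5], .l [9, 16], .l [17, 7], .l [17, 10, 18, 15, 7, 12, 7, 11, 12, 1], .l [9, 18], .l [19, 9]]),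
([p 4 1, s 6 2, g, s 3 0, g, s 0 3, s 1 0, g, p 0 4, p 5 0, g, p 0 5, g, s 0 6, g, m 2 0, g], .hi 6, [.l [7, 1, 9, 2, 4, 14, 12, 1], .l [8, 7, 13, 11, 4, 1], .l [3, 7, 1, 6, 2, 10], .l [4, 10, 5, 2, 6, 14, 12, 1], .l [8, 7, 13, 9, 2, 8], .l [5, 7, 4, 8, 5, 12, 5, 12, 6, 1], .c, .l [8, 1, 16, 9, 13, 1], .l [17, 15, 4, 14, 1, 8, 11, 1], .l [0, 5, 1, 6, 1, 6, 4, 9], .y [0, 6, 8], .l [6, 10, 4, 9, 1, 10, 4, 1], .l [0, 5, 1, 4, 7, 9, 7, 4], .l [0, 5, 1, 9, 4, 11, 5, 8, 4, 10, 8, 5], .l [0, 5, 1, 4, 7, 7, 5, 4], .l [5, 1, 7, 2, 10, 14, 6, 1], .l [15, 13, 14, 7, 14, 7, 1, 8, 6, 1], .l [0, 5, 1, 11, 6, 11, 3, 11, 7, 4], .l [6, 5, 11, 11, 4, 1], .l [5, 1, 7, 2, 12, 14, 4, 1], .l [0, 5, 1, 4, 11, 1, 8, 11, 2, 6], .l [6, 5, 11,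 13, 6, 1], .r 830 [1, 2, 3, 7, 4, 5, 6] [1, 1, 1, 1, 1, 1, 1, 1], .l [6, 16, 3, 9, 13, 1], .l [6, 5, 11, 15, 8, 1]])]

def d03_1 : List (List Item × Qry × List Rf) := [
([p 3 1, s 5 2, g, s 0 0, s 1 0, g, p 0 3, p 4 0, g, p 0 4, g, s 0 5, g, m 2 0, g], .hi 3, [.r 831 [1, 2, 6, 3, 4, 5] [1, 1, 1, 1, 1, 1, 1], .r 827 [1, 2, 6, 3, 4, 5] [1, 1, 1, 1, 1, 1, 1], .l [0, 5, 1], .y [3], .l [0, 3, 4, 6, 4, 9], .l [0, 3, 4], .l [6, 2, 4], .l [0, 3, 4], .l [3, 8, 10, 8, 2], .l [0, 3, 7], .l [9, 5, 7], .l [0, 3, 7], .l [15, 13, 9, 7, 11, 1], .l [0, 3, 9], .l [11, 7, 9], .r 814 [1, 2, 6, 3, 5] [1, 1, 4, 1, 1], .l [15, 13, 11, 9, 11, 3], .l [0, 3, 11], .l [13, 9, 11], .l [15, 11, 13, 5, 1, 3], .l [0, 3, 13], .l [15, 11, 13]]),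
([p 3 1, s 4 2, g, s 0 0, s 1 0, g, p 0 3, p 0 0, g, s 0 4, g, m 2 0, g], .lo 7, [.l [3, 8, 4], .l [3, 8], .l [1, 10, 7, 5, 6], .l [0, 3, 5], .l [0, 3, 3, 5, 4], .l [6, 8, 1], .l [6, 8], .l [1, 10, 4, 2, 6], .y [7], .l [11, 9, 10, 5, 1, 9, 5, 1], .r 832 [1, 2, 3, 5, 4] [1, 1, 1, 1, 1, 1], .l [11, 9, 10, 5, 1], .l [13, 11, 12, 7, 3], .l [1, 8, 10, 8, 4], .l [9, 7, 8, 3, 7], .l [9, 7, 8, 3, 7], .l [11, 9, 10, 5, 9], .l [1, 8, 12, 10, 4], .l [9, 7, 8, 3, 9]]),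
([p 3 1, s 4 2, g, s 0 0, s 1 0, g, p 0 3, g, s 0 4, g, m 2 0, g], .top 7, [.l [1, 6, 4], .r 824 [1, 2, 3, 4] [2, 1, 1, 1, 1], .r 833 [1, 2, 3, 4] [1, 1, 1, 1, 1], .r 822 [1, 2, 3, 4] [1, 1, 1, 1, 1]]),
([p 0 1, s 4 2, g, p 3 0, g, s 0 3, s 1 0, g, m 2 0, g, s 0 4, g], .lo 5, [.l [1, 11, 6, 1, 4, 7, 4, 1], .l [0, 7, 3], .l [1, 11, 8, 3, 6, 7, 4, 1], .y [3, 5], .l [1, 11, 8, 3, 6, 7, 4, 1], .l [0, 7, 1], .l [1, 11, 8, 3, 6, 7, 4, 1], .c, .l [8, 2, 6, 9, 7, 1], .l [8, 2, 6], .l [0, 5, 6], .l [0, 5, 6], .l [10, 4, 8, 9, 3, 7], .l [10, 4, 8], .l [0, 5, 8], .l [12, 6, 10, 5, 3, 1], .l [12, 6, 10], .l [0, 5, 10]]),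
([p 4 1, s 7 2, g, s 3 0, g, s 0 3, s 1 0, g, p 0 4, g, m 2 0, p 5 0, g, p 6 5, g, p 0 6, g, s 0 7, g], .hi 6, [.l [7, 1, 9, 2, 4, 8, 6, 1], .l [8, 7, 17, 15, 4, 1], .l [3, 7, 1, 6, 2, 14], .l [4, 10, 5, 2, 6, 8, 6, 1], .l [8, 7, 17, 13, 2, 12], .l [7, 3, 9, 2, 6, 8, 4, 1], .c, .l [8, 1, 11, 4, 8, 1], .l [19, 17, 4, 16, 6, 10, 14, 1], .l [0, 5, 1, 6, 1, 6, 4, 12], .y [0, 6, 8], .l [5, 1, 7, 2, 6, 8, 4, 1], .l [0, 5, 1, 11, 3, 6, 11, 7, 2, 7], .l [10, 3, 9, 7, 9, 2, 6], .l [5, 1, 7, 2, 9, 11, 9, 3], .l [0, 5, 1, 4, 9, 11, 9, 5], .l [10, 8, 9, 2, 17, 15, 1, 8, 6, 1], .l [5, 1, 7, 2, 11, 13, 11, 11, 9, 3], .l [0, 5, 1, 4, 11, 13, 11, 11, 9, 5], .l [10, 8, 9, 2, 17, 15, 1, 10, 8, 1], .l [0, 5, 1, 4, 11, 11, 9, 9, 7, 5],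 .l [12, 17, 10, 1, 5, 12, 9, 3, 9, 2], .l [1, 18, 1, 10, 3, 15, 4, 1], .l [6, 5, 11, 16, 9, 1, 4, 11, 9, 3, 8, 9], .l [6, 5, 15, 15, 4, 1], .l [12, 19, 12, 1, 5, 14, 11, 3, 11, 2], .l [0, 5, 1, 4, 15, 1, 12, 3, 11, 6], .l [6, 5, 15, 17, 6, 1]]),
([p 4 1, s 6 2, g, s 3 0, g, s 0 3, s 1 0, g, p 0 4, g, m 2 0, p 5 0, g, p 0 5, g, s 0 6, g], .lo 13, [.l [2, 10, 7, 12, 12, 10, 1], .l [3, 14], .l [0, 7, 1, 3, 11, 11, 9, 4], .l [0, 5, 1, 1, 9, 9, 7, 4], .l [4, 10, 5, 12, 12, 10, 3], .l [5, 14], .l [0, 7, 2, 13, 13, 11, 4], .l [0, 5, 1, 4, 9, 9, 7, 5], .l [7, 10, 2, 12, 12, 10, 6], .l [8, 14], .l [0, 10, 9, 15, 8, 6, 6, 4, 10], .l [10, 14, 14, 12, 2], .l [10, 14], .l [0, 8, 7, 15, 6, 4, 4, 2, 10], .l [0, 8, 7, 13, 4, 2, 2,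 0, 8], .y [11, 13], .l [12, 15, 13, 8, 14, 5, 8, 1, 6, 1], .l [13, 14], .l [11, 17, 6, 10, 1, 7, 1, 1, 10, 7], .l [12, 13, 11, 8, 14, 5, 8, 1, 6, 1], .r 836 [1, 2, 3, 4, 5, 7, 6] [1, 1, 1, 1, 1, 1, 1, 1], .l [3, 17, 14, 2, 14, 5, 1, 3, 4, 1], .l [1, 14, 16, 14, 14, 12, 9, 4], .l [0, 8, 7, 13, 15, 13, 13, 11, 8], .l [1, 14, 1, 14, 11, 9, 4, 1]]),
([p 4 1, s 5 2, g, s 3 0, g, s 0 3, s 1 0, g, p 0 4, g, m 2 0, p 0 0, g, s 0 5, g], .lo 11, [.l [2, 10, 7, 10, 1], .l [3, 12], .l [0, 7, 1, 3, 9, 4], .l [0, 5, 1, 1, 7, 4], .l [4, 10, 5, 10, 3], .l [5, 12], .l [0, 7, 2, 11, 4], .l [0, 5, 1, 4, 7, 5], .l [7, 10, 2, 10, 6], .l [8, 12], .l [0, 10, 9, 13, 6, 4, 10], .l [10, 12, 2], .l [10, 12], .l [0, 8, 7, 13, 4, 2, 10], .l [0,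 8, 7, 11, 2, 0, 8], .y [11], .l [10, 8, 14, 5, 8, 1, 6, 1], .r 837 [1, 2, 3, 4, 6, 5] [1, 1, 1, 1, 1, 1, 1], .l [15, 13, 13, 4, 1], .l [1, 12, 14, 12, 9, 4], .l [0, 8, 7, 11, 13, 11, 8], .l [1, 12, 1, 13, 11, 9, 4, 1]]),
([p 4 1, s 7 2, g, s 3 0, g, s 0 3, s 1 0, g, p 0 4, g, m 2 0, m 0 5, g, m 5 6, g, m 6 0, g, s 0 7, g], .hi 6, [.l [7, 1, 9, 2, 4, 8, 6, 1], .l [8, 7, 17, 15, 4, 1], .l [3, 7, 1, 6, 2, 14], .l [4, 10, 5, 2, 6, 8, 6, 1], .l [8, 7, 17, 13, 2, 12], .l [7, 3, 9, 2, 6, 8, 4, 1], .c, .l [8, 1, 11, 4, 8, 1], .l [19, 17, 4, 16, 6, 10, 14, 1], .l [0, 5, 1, 6, 1, 6, 4, 12], .y [0, 6, 8], .l [5, 1, 7, 2, 6, 8, 4, 1], .l [0, 5, 1, 11, 3, 6, 11, 7, 2, 7], .l [10, 3, 9, 7, 9, 2, 6], .l [10, 8, 9, 2, 15, 13, 1, 6,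 4, 1], .l [5, 1, 7, 2, 9, 11, 9, 3], .l [0, 5, 1, 4, 9, 11, 9, 5], .l [10, 8, 9, 2, 17, 15, 1, 8, 6, 1], .l [5, 1, 7, 2, 11, 13, 11, 11, 9, 3], .l [0, 5, 1, 4, 11, 13, 11, 11, 9, 5], .l [10, 8, 9, 2, 17, 15, 1, 10, 8, 1], .l [12, 17, 10, 1, 5, 12, 9, 3, 9, 2], .l [1, 18, 1, 10, 3, 15, 4, 1], .l [6, 5, 11, 16, 9, 1, 4, 11, 9, 3, 8, 9], .l [6, 5, 15, 15, 4, 1], .l [12, 19, 12, 1, 5, 14, 11, 3, 11, 2], .l [0, 5, 1, 4, 15, 1, 12, 3, 11, 6], .l [6, 5, 15, 17, 6, 1]]),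
([p 4 1, s 6 2, g, s 3 0, g, s 0 3, s 1 0, g, p 0 4, g, m 2 0, m 0 5, g, m 5 0, g, s 0 6, g], .hi 13, [.l [2, 10, 7, 12, 12, 10, 1], .l [0, 7, 1, 3, 11, 11, 9, 4], .l [3, 14], .l [4, 10, 5, 12, 12, 10, 3], .l [0, 7, 2, 13, 13, 11, 4], .l [5, 14], .l [0, 5, 11], .l [7, 10, 2, 12, 12, 10, 6], .l [0, 10, 9, 15, 8, 6, 6, 4, 10], .l [8, 14], .l [0, 8, 7, 13, 6, 4, 4, 2, 8], .l [10, 14, 14, 12, 2], .l [0, 8, 7, 15, 6, 4, 4, 2, 10], .l [10, 14], .y [11, 13], .l [12, 15, 13, 8, 14, 5, 8, 1, 6, 1], .l [11, 17, 6, 10, 1, 7, 1, 1, 10, 7], .l [13, 14], .l [12, 13, 11, 8, 14, 5, 8, 1, 6, 1], .l [3, 17, 14, 2, 14, 5, 1, 3, 4, 1], .r 839 [1, 2, 3, 4, 5, 7, 6] [1, 1, 1, 1, 1, 1, 1, 1], .l [0, 8, 7, 13, 13, 11, 11, 9, 8], .l [1, 14,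 16, 14, 14, 12, 9, 4], .l [1, 14, 1, 14, 11, 9, 4, 1], .l [0, 8, 7, 13, 15, 13, 13, 11, 8]]),
([p 4 1, s 5 2, g, s 3 0, g, s 0 3, s 1 0, g, p 0 4, g, m 2 0, m 0 0, g, s 0 5, g], .hi 11, [.l [2, 10, 7, 10, 1], .l [0, 7, 1, 3, 9, 4], .l [3, 12], .l [4, 10, 5, 10, 3], .l [0, 7, 2, 11, 4], .l [5, 12], .l [0, 5, 9], .l [7, 10, 2, 10, 6], .l [0, 10, 9, 13, 6, 4, 10], .l [8, 12], .l [0, 8, 7, 11, 4, 2, 8], .l [10, 12, 2], .l [0, 8, 7, 13, 4, 2, 10], .l [10, 12], .y [11], .l [10, 8, 14, 5, 8, 1, 6, 1], .l [15, 13, 13, 4, 1], .r 840 [1, 2, 3, 4, 6, 5] [1, 1, 1, 1, 1, 1, 1], .l [0, 8, 7, 11, 11, 9, 8], .l [1, 12, 14, 12, 9, 4], .l [1, 12, 1, 13, 11, 9, 4, 1], .l [0, 8, 7, 11, 13, 11, 8]]),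
([p 4 1, s 5 2, g, s 3 0, g, s 0 3, s 1 0, g, p 0 4, g, m 2 0, g, s 0 5, g], .top 11, [.l [0, 8, 7, 9, 8], .r 704 [1, 2, 3, 5] [1, 1, 3, 1, 1], .r 838 [1, 2, 3, 4, 5] [1, 1, 1, 1, 1, 1], .r 841 [1, 2, 3, 4, 5] [1, 1, 1, 1, 1, 1]]),
([p 3 1, s 4 2, g, s 0 0, s 1 0, g, p 0 3, g, m 2 0, g, s 0 4, g], .hi 3, [.r 842 [1, 2, 5, 3, 4] [1, 1, 1, 1, 1, 1], .r 835 [1, 2, 5, 4] [1, 1, 3, 1, 1], .l [0, 5, 1], .y [3], .l [0, 3, 4, 6, 4, 7], .l [0, 3, 4], .l [6, 2, 4], .l [0, 3, 4], .l [10, 8, 6, 4, 6, 7], .l [0, 3, 6], .l [8, 4, 6], .l [10, 6, 8, 9, 5, 7], .l [0, 3, 8], .l [10, 6, 8], .l [10, 6, 8, 3], .l [12, 8, 10, 5], .l [0, 3, 10], .l [12, 8, 10]]),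
([p 6 1, s 4 2, g, s 0 3, g, s 3 4, s 1 5, g, p 5 0, g, p 0 6, g, m 2 0, g], .hi 8, [.l [6, 12, 5, 5, 3, 6, 4, 4, 2, 3], .l [9, 10, 3, 10, 7, 4, 6, 1], .l [10, 6], .l [7, 10, 2, 7, 1, 1, 4, 4, 2, 1], .l [6, 12, 5, 5, 3, 8, 6, 6, 4, 1], .l [9, 10, 5, 10, 5, 2, 4, 1], .l [10, 4], .l [1, 4, 9, 1, 11, 6, 6, 3], .l [9, 4, 6, 8, 4, 10, 7, 7, 3, 6, 0, 3], .l [10, 1], .l [1, 4, 9, 1, 11, 6, 6, 3], .l [8, 9], .l [10, 1], .y [0, 6, 8, 10], .l [1, 4, 11, 3, 7, 5, 9, 4, 4, 1], .l [8, 11], .l [12, 3], .l [4, 10, 5, 5, 3, 10, 8, 8, 6, 1], .l [8, 13], .l [14, 5]]),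
([p 5 1, s 4 2, g, s 0 3, g, s 3 4, s 1 0, g, p 0 5, g, m 2 0, g], .hi 6, [.l [2, 10, 7, 4, 6, 1], .l [2, 10, 7, 4, 6, 1], .l [6, 10, 3, 3, 1, 4, 2, 3], .l [2, 8, 5, 2, 4, 1], .l [4, 10, 5, 2, 4, 1], .l [4, 10, 5, 2, 4, 1], .l [6, 10, 3, 3, 1, 6, 4, 1], .l [1, 4, 7, 1, 9, 6, 6, 3], .r 844 [1, 2, 3, 4, 6, 5] [1, 1, 1, 1, 1, 1], .l [1, 4, 7, 1, 9, 6, 6, 3], .y [0, 6, 8], .l [5, 3, 7, 2, 6, 8, 4, 1], .l [5, 3, 7, 2, 6, 8, 4, 1], .l [4, 8, 3, 3, 1, 6, 4, 1], .l [4, 8, 3, 5, 9, 4, 6, 1], .l [10, 8, 4, 7, 5, 6, 2, 4, 2, 3], .l [4, 8, 3, 3, 1, 8, 6, 1]]),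
([p 6 1, s 5 2, g, m 0 3, g, m 3 4, g, s 4 5, s 1 0, g, p 0 6, g, m 2 0, g], .hi 8, [.l [2, 12, 9, 6, 8, 1], .l [2, 12, 9, 6, 8, 1], .l [3, 9, 6, 10, 9, 9, 1, 5, 1, 7, 5, 5, 1], .l [0, 7, 5, 6, 4, 4, 2, 6, 4, 4, 3, 3, 1], .l [4, 7, 5, 10, 7, 4, 6, 1], .l [4, 7, 5, 10, 7, 4, 6, 1], .l [0, 9, 7, 8, 4, 6, 4, 8, 6, 6, 3, 5, 3], .l [6, 12, 5, 2, 4, 1], .l [0, 9, 7, 12, 4, 6, 5, 7, 3, 1, 3, 5, 3], .l [0, 9, 7, 8, 2, 10, 8, 8, 5, 5, 3, 5, 3], .l [10, 1, 13, 4, 10, 5], .l [7, 5, 11, 4, 1, 1, 5, 1, 8, 6, 1, 5, 1], .l [0, 7, 5, 8, 1, 4, 1, 8, 6, 6, 3, 5, 3], .y [0, 8, 10], .l [7, 5, 9, 2, 8, 10, 4, 1], .l [0, 7, 5, 6, 8, 10, 2, 4, 1, 7, 3, 5, 3], .l [0, 7, 5, 10, 3, 3, 1, 5, 1, 7, 5, 5, 1], .l [6, 10, 3, 7, 7, 5, 9, 4, 6, 1],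 .l [0, 7, 7, 12, 7, 1, 3, 8, 3, 1, 3, 3, 1], .l [0, 7, 5, 12, 5, 8, 1, 1, 3, 1, 3, 5, 3]]),
([p 6 1, s 4 2, g, m 0 3, g, s 3 4, s 1 5, g, p 5 0, g, p 0 6, g, m 2 0, g], .hi 8, [.l [6, 12, 5, 5, 3, 6, 4, 4, 2, 3], .l [0, 7, 5, 6, 6, 10, 4, 8, 7, 7, 5, 3, 1], .l [10, 6], .l [8, 4], .l [6, 12, 5, 5, 3, 8, 6, 6, 4, 1], .l [0, 7, 5, 6, 6, 10, 4, 6, 5, 5, 3, 5, 3], .l [10, 4], .l [10, 1, 13, 4, 8, 3], .l [6, 9, 3, 8, 3, 7, 1, 5, 1, 7, 5, 3, 1], .l [10, 1], .l [5, 3, 11, 6, 1, 3, 1, 6, 1, 6, 4, 1], .l [8, 9], .l [10, 1], .y [0, 6, 8, 10], .l [0, 5, 3, 4, 4, 8, 3, 6, 1, 6, 4, 1], .l [8, 11], .l [12, 3], .l [4, 10, 5, 5, 3, 10, 8, 8, 6, 1], .l [8, 13], .l [14, 5]]),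
([p 6 1, s 5 2, g, s 0 3, g, m 3 4, g, s 4 5, s 1 0, g, p 0 6, g, m 2 0, g], .hi 8, [.l [2, 12, 9, 6, 8, 1], .l [2, 12, 9, 6, 8, 1], .l [8, 12, 3, 3, 1, 4, 2, 5], .l [2, 10, 7, 4, 6, 1], .l [4, 12, 7, 4, 6, 1], .l [4, 12, 7, 4, 6, 1], .l [8, 12, 3, 3, 1, 6, 4, 5], .l [6, 12, 5, 2, 4, 1], .l [6, 12, 5, 2, 8], .l [7, 9, 6], .l [10, 1, 13, 4, 10, 5], .r 847 [1, 2, 4, 5, 7, 6] [3, 1, 1, 1, 1, 1], .l [10, 1, 13, 4, 10], .y [0, 8, 10], .l [7, 5, 9, 2, 8, 10, 4, 1], .l [7, 5, 9, 2, 8, 10, 4, 1], .l [0, 7, 5, 10, 3, 6, 1, 8, 6, 1], .l [6, 10, 3, 7, 11, 4, 6, 1], .l [0, 7, 5, 6, 10, 7, 1, 3, 6, 1], .l [6, 10, 3, 3, 1, 10, 8, 3]]),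
([p 5 1, s 4 2, g, m 0 3, g, s 3 4, s 1 0, g, p 0 5, g, m 2 0, g], .lo 3, [.r 848 [1, 2, 6, 3, 4, 5] [1, 1, 1, 1, 1, 1], .l [5, 1], .r 846 [1, 2, 6, 3, 4, 5] [1, 1, 1, 1, 1, 1], .l [5, 1, 11, 7, 2, 7], .l [5, 1], .l [3, 4], .l [3, 5, 4], .l [7, 2, 4, 8, 2, 5, 7, 4, 4, 1], .l [8, 4], .l [3, 7], .l [10, 6, 6, 4, 6, 1], .l [10, 6], .l [3, 9], .y [1, 10, 3, 5], .l [12, 8, 8, 6, 8, 1], .l [12, 8], .l [3, 11]]),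
([p 4 1, s 3 2, g, s 0 3, s 1 0, g, p 0 4, g, m 2 0, g], .lo 3, [.r 845 [1, 2, 5, 3, 4] [1, 1, 1, 1, 1], .l [0, 5, 1], .r 849 [1, 2, 5, 3, 4] [1, 1, 1, 1, 1], .c, .l [0, 3, 4, 6, 4, 1], .l [6, 2, 4], .l [0, 3, 4], .l [8, 4, 6, 1], .l [8, 4, 6], .l [0, 3, 6], .y [1, 8, 3], .l [10, 6, 8, 1], .l [1, 2, 9, 6, 6, 1], .l [0, 3, 8]]),
([p 3 1, s 0 2, g, s 0 0, s 1 0, g, p 0 3, g, m 2 0, g], .lo 1, [.r 812 [1, 2, 4, 3] [1, 1, 1, 1, 1], .l [3, 1, 9, 7, 2], .l [2, 8, 5, 5, 1], .r 850 [1, 2, 4, 3] [1, 1, 1, 1], .l [3, 6, 2, 2, 1], .r 806 [1, 2, 4, 3] [1, 1, 1, 1, 1], .l [6, 4, 9, 4, 5], .l [4, 3, 4], .r 834 [1, 2, 3, 4] [1, 1, 1, 1, 1], .l [8, 6, 7, 2, 7, 5, 1], .l [4, 3, 6], .y [1, 8], .r 843 [1, 2, 3, 4] [1, 1, 1, 1, 1], .l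 [8, 6, 7, 2, 7, 5, 1], .l [4, 3, 8]]),
([p 3 1, s 0 2, g, s 1 0, g, p 0 3, g, m 2 0, g], .bot 2, [.l [6, 4, 4], .r 851 [1, 2, 3] [1, 1, 1, 1], .r 518 [1, 2] [1, 3, 1], .r 519 [1, 2] [1, 3, 1]]),
([p 2 0, s 0 1, g, p 0 2, g, m 1 0, g], .hi 0, [.c, .r 852 [3, 1, 2] [1, 1, 1, 1], .l [0, 2], .l [3, 2], .y [0, 3], .r 715 [3, 1, 2] [1, 1, 1, 1], .l [0, 4], .l [5, 4], .r 804 [3, 1, 2] [1, 1, 1, 1], .l [0, 6], .l [7, 6]]),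
([p 2 0, s 0 1, g, m 1 0, g, p 0 2, g], .hi 0, [.c, .r 520 [3, 1, 2] [1, 1, 1, 1], .l [0, 2], .l [3, 2], .r 578 [3, 1, 2] [1, 1, 1, 1], .l [0, 4], .l [5, 4], .y [0, 5], .r 507 [3, 1, 2] [1, 1, 1, 1], .l [0, 6], .l [7, 6]]),
([p 8 1, g, s 1 0, g, p 2 0, g, p 3 2, g, p 4 3, g, p 6 4, g, s 0 5, g, p 7 6, g, p 9 7, p 5 8, g, p 0 9, g], .hi 4, [.l [6, 3, 18, 12, 14, 12, 12, 10, 10, 8, 8, 4, 4, 2, 3], .l [4, 3, 18, 14, 16, 14, 14, 12, 12, 10, 10, 8, 8, 4, 4, 2, 3], .l [6, 3], .l [6, 1, 18, 12, 16, 14, 14, 12, 12, 10, 10, 6, 6, 4, 5], .l [13, 16, 14, 14, 12, 12, 10, 10, 8, 8, 6, 9, 5, 4, 8, 7, 7, 5], .l [6, 1], .l [6, 1, 18, 12, 1, 14, 16, 11, 14, 1, 10, 8, 9], .l [4, 5], .l [6, 1], .l [8, 3, 18, 10, 16, 14, 14, 12, 12, 8,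 8, 6, 7], .l [4, 7], .l [8, 3], .l [10, 5, 5, 3, 16, 8, 14, 12, 12, 8, 8, 6, 7], .l [4, 9], .l [10, 5], .l [12, 7, 7, 5, 5, 3, 14, 6, 12, 8, 8, 6, 7], .l [4, 11], .l [12, 7], .l [12, 7, 7, 5, 5, 3, 3, 1, 7, 5, 5, 6, 5], .l [14, 9, 9, 7, 7, 5, 14, 4, 12, 10, 10, 8, 5], .l [4, 13], .l [14, 9], .l [16, 11, 11, 9, 9, 7, 7, 5, 12, 2, 8, 6, 7], .l [4, 15], .l [16, 11], .l [19, 14, 14, 12, 12, 10, 10, 8, 8, 4, 4, 2, 3], .l [4, 18], .l [19, 14], .y [4, 19, 16, 14, 10, 8, 6], .l [21, 16, 16, 14, 14, 12, 12, 10, 10, 6, 6, 4, 5], .l [4, 20], .l [21, 16]]),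
([p 7 1, g, s 1 0, g, p 2 0, g, p 3 2, g, p 5 3, g, s 0 4, g, p 6 5, g, p 8 6, p 4 7, g, p 0 8, g], .hi 4, [.l [6, 3, 16, 10, 12, 10, 10, 8, 8, 4, 4, 2, 3], .l [4, 3, 16, 12, 14, 12, 12, 10, 10, 8, 8, 4, 4, 2, 3], .l [6, 3], .l [6, 1, 16, 10, 14, 12, 12, 10, 10, 6, 6, 4, 5], .r 855 [1, 9, 2, 3, 4, 5, 6, 7, 8] [1, 1, 1, 1, 1, 1, 1, 1, 1, 1], .l [6, 1], .l [6, 1, 16, 10, 1, 12, 14, 9, 12, 1, 8, 6, 7], .l [4, 5], .l [6, 1], .l [8, 3, 16, 8, 14, 12, 12, 8, 8, 6, 7], .l [4, 7], .l [8, 3], .l [10, 5, 5, 3, 14, 6, 12, 8, 8, 6, 7], .l [4, 9], .l [10, 5], .l [10, 5, 5, 3, 3, 1, 7, 5, 5, 6, 5], .l [12, 7, 7, 5, 14, 4, 12, 10, 10, 8, 5], .l [4, 11], .l [12, 7], .l [14, 9, 9, 7, 7, 5, 12, 2, 8, 6, 7], .l [4, 13], .l [14, 9], .l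 [17, 12, 12, 10, 10, 8, 8, 4, 4, 2, 3], .l [4, 16], .l [17, 12], .y [4, 17, 14, 12, 8, 6], .l [19, 14, 14, 12, 12, 10, 10, 6, 6, 4, 5], .l [4, 18], .l [19, 14]]),
([p 6 1, g, s 1 0, g, p 2 0, g, p 4 2, g, s 0 3, g, p 5 4, g, p 7 5, p 3 6, g, p 0 7, g], .hi 4, [.l [6, 3, 14, 8, 10, 8, 8, 4, 4, 2, 3], .l [4, 3, 14, 10, 12, 10, 10, 8, 8, 4, 4, 2, 3], .l [6, 3], .l [6, 1, 14, 8, 12, 10, 10, 6, 6, 4, 5], .r 856 [1, 8, 2, 3, 4, 5, 6, 7] [1, 1, 1, 1, 1, 1, 1, 1, 1], .l [6, 1], .l [6, 1, 14, 8, 1, 10, 12, 7, 10, 1, 6, 4, 5], .l [4, 5], .l [6, 1], .l [8, 3, 14, 6, 12, 8, 8, 6, 7], .l [4, 7], .l [8, 3], .l [8, 3, 3, 1, 7, 5, 5, 6, 5], .l [10, 5, 14, 4, 12, 10, 10, 8, 5], .l [4, 9], .l [10, 5], .l [12, 7, 7, 5, 12, 2, 8, 6, 7],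 .l [4, 11], .l [12, 7], .l [15, 10, 10, 8, 8, 4, 4, 2, 3], .l [4, 14], .l [15, 10], .y [4, 15, 12, 10, 6], .l [17, 12, 12, 10, 10, 6, 6, 4, 5], .l [4, 16], .l [17, 12]]),
([p 6 1, g, s 1 0, g, p 2 0, g, p 4 2, g, s 0 3, g, p 5 4, g, p 0 5, p 3 6, g], .lo 12, [.l [13, 15, 1, 2, 10, 8, 9], .l [2, 13], .l [1, 15, 13, 11], .l [11, 13, 1, 2, 8, 6, 7], .l [13, 15, 1, 4, 10, 6, 9], .l [4, 13], .l [3, 15, 11, 9], .y [4, 12, 10, 6], .l [13, 15, 1, 6, 8, 6, 8, 4, 7], .l [6, 13], .l [5, 8, 6, 13, 9, 7], .l [13, 15, 1, 8, 10, 2, 9], .l [8, 13], .l [7, 12, 10, 10, 8, 11, 7, 5], .l [7, 10, 12, 13, 3, 2, 9], .l [10, 13], .l [9, 12, 8, 8, 6, 11, 7, 5], .l [13, 15, 1, 12, 1, 10, 7], .l [12, 13], .l [11, 14, 12, 12, 8, 8, 6, 10, 6, 1],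 .l [11, 13, 1, 12, 1, 10, 7], .r 857 [1, 2, 3, 4, 5, 6, 7] [1, 1, 1, 1, 1, 1, 1, 1], .l [11, 12, 10, 10, 6, 6, 4, 8, 4, 7]]),
([p 5 1, g, s 1 0, g, p 3 0, g, s 0 2, g, p 4 3, g, p 0 4, p 2 5, g], .hi 4, [.l [6, 3, 12, 6, 8, 4, 4, 2, 3], .l [4, 3, 12, 8, 10, 8, 8, 4, 4, 2, 3], .l [6, 3], .l [6, 1, 12, 6, 10, 6, 6, 4, 5], .r 858 [1, 6, 2, 3, 4, 5] [1, 1, 1, 1, 1, 1, 1], .l [6, 1], .l [6, 1, 12, 6, 3, 8, 6, 2, 5], .l [4, 5], .l [6, 1], .l [6, 1, 7, 5, 5, 6, 5], .l [8, 3, 9, 5, 7, 8, 5], .l [4, 7], .l [8, 3], .l [10, 5, 12, 2, 8, 6, 7], .l [4, 9], .l [10, 5], .y [4, 10, 8], .l [13, 8, 8, 4, 4, 2, 3], .l [4, 12], .l [13, 8]]),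
([p 6 1, g, s 1 0, g, s 0 2, g, p 4 3, g, s 3 0, g, p 5 4, g, p 7 5, p 2 6, g, p 0 7, g], .hi 8, [.l [2, 9, 11, 9, 9, 1, 7, 8, 1, 7, 3, 7, 1], .l [1, 15, 13, 7, 9, 7, 7, 1, 5, 6, 1], .l [2, 9, 11, 9, 9, 1, 10, 6, 8, 2, 3], .l [4, 9, 11, 9, 9, 1, 7, 8, 1, 7, 1, 7, 1], .l [3, 15, 11, 5, 7, 5, 5, 1, 3, 4, 1], .l [4, 9, 11, 9, 9, 1, 10, 4, 8, 4, 5], .l [3, 13, 9, 3, 5, 3, 3, 1, 1, 2, 1], .l [6, 9, 11, 9, 9, 1, 10, 2, 8, 6, 3, 7, 1], .l [9, 12, 10, 13, 5, 10, 12, 5, 8, 1, 8, 6, 3], .l [6, 9, 11, 9, 9, 1, 10, 2, 8, 6, 3], .l [10, 1, 14, 4, 12, 1, 1, 8, 8, 6, 3, 7, 1], .l [9, 15, 5, 12, 1, 8, 8, 6, 3], .l [10, 1, 14, 4, 12, 1, 1, 8, 8, 6, 3], .l [9, 15, 5, 12, 1, 8, 8, 6, 3, 9, 3, 3, 1], .l [9, 15, 5, 12, 1, 8, 8, 6, 3], .l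 [2, 1, 7, 1, 9, 7, 7, 1, 8, 4, 6, 2, 3], .l [12, 3, 3, 3, 12, 2, 10, 8, 3, 9, 1, 3, 1], .l [3, 6, 6, 6, 8, 11, 5, 4, 7], .l [6, 7, 11, 3, 12, 2, 10, 8, 3], .l [15, 6, 6, 6, 6, 4, 10, 7, 1, 6, 3, 7, 1], .l [7, 13, 5, 12, 1, 8, 8, 6, 3], .l [6, 7, 14, 6, 6, 4, 4, 2, 3], .y [6, 8, 15, 12, 10], .l [17, 8, 8, 8, 8, 6, 12, 9, 3, 8, 3, 7, 1], .l [7, 13, 5, 14, 3, 10, 10, 8, 3], .l [6, 7, 16, 8, 8, 6, 6, 4, 5]]),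
([p 5 1, g, s 1 0, g, s 0 2, g, p 3 0, g, p 4 3, g, p 6 4, p 2 5, g, p 7 6, g, p 8 7, g, p 9 8, g, p 0 9, g], .hi 6, [.l [8, 5, 12, 4, 6, 4, 4, 2, 3], .l [4, 3, 12, 8, 10, 6, 6, 4, 4, 2, 3], .l [8, 5], .l [8, 3, 12, 4, 8, 6, 6, 4, 5], .l [5, 13, 7, 14, 3, 10, 13, 4, 9, 4, 11, 6, 6, 1, 3, 1, 7, 5], .l [8, 3], .l [6, 1, 10, 4, 8, 6, 6, 4, 3], .l [8, 1, 12, 4, 10, 8, 8, 6, 3], .l [9, 19, 15, 6, 16, 18, 15, 8, 2, 10, 7, 9, 10, 3, 3, 1, 1, 5], .l [8, 1], .r 860 [1, 2, 10, 3, 4, 5, 6] [1, 1, 1, 1, 1, 1, 1, 7], .l [6, 7], .l [8, 1], .l [10, 3, 12, 2, 10, 8, 3], .l [6, 9], .l [10, 3], .l [13, 6, 6, 4, 4, 2, 3], .l [6, 12], .l [13, 6], .l [15, 8, 8, 6, 6, 4, 5], .l [6, 14], .l [15, 8], .l [17, 10, 10, 8, 8, 6, 7], .l [6, 16],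 .l [17, 10], .l [19, 12, 12, 10, 10, 8, 9], .l [6, 18], .l [19, 12], .y [6, 19, 17, 15, 13, 10, 8], .l [21, 14, 14, 12, 12, 10, 11], .l [6, 20], .l [21, 14]]),
([p 5 1, g, s 1 0, g, s 0 2, g, p 3 0, g, p 4 3, g, p 6 4, p 2 5, g, p 7 6, g, p 8 7, g, p 0 8, g], .lo 17, [.l [18, 14, 16, 17, 13, 13, 11, 11, 8, 9, 1, 8, 1, 6, 1], .l [2, 18], .l [1, 13, 11, 16], .l [16, 17, 15, 15, 13, 13, 10, 11, 1, 2, 4, 2, 5], .l [18, 19, 17, 17, 15, 15, 12, 13, 1, 4, 6, 2, 7], .l [4, 18], .l [3, 13, 9, 16], .l [3, 6, 17, 17, 15, 15, 13, 13, 10, 11, 3, 2, 7], .l [6, 18], .l [5, 13, 7, 16], .y [6, 17, 15, 13, 10, 8], .l [7, 13, 5, 16, 5, 12, 12, 10, 3], .l [8, 18], .l [7, 10, 8, 11, 5, 14], .l [9, 13, 3, 16, 5, 12, 3], .l [10, 18], .l [9,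 12, 10, 10, 8, 10, 4, 13], .l [12, 15, 12, 13, 3, 14, 3, 10, 3], .l [13, 18], .l [12, 15, 12, 12, 10, 10, 8, 10, 4, 11], .l [14, 17, 15, 15, 12, 13, 3, 12, 1, 8, 3], .l [15, 18], .l [14, 17, 15, 15, 12, 12, 10, 10, 8, 10, 4, 9], .l [18, 19, 15, 15, 13, 13, 10, 11, 1, 10, 1, 8, 3], .l [17, 18], .l [16, 19, 17, 17, 15, 15, 12, 12, 10, 10, 8, 10, 4, 1], .l [16, 17, 15, 15, 13, 13, 10, 11, 1, 10, 1, 8, 3], .r 861 [1, 2, 3, 4, 5, 6, 7, 8, 9] [1, 1, 1, 1, 1, 1, 1, 1, 1, 1], .l [16, 17, 15, 15, 13, 13, 10, 10, 8, 8, 6, 8, 2, 7]]),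
([p 5 1, g, s 1 0, g, s 0 2, g, p 3 0, g, p 4 3, g, p 6 4, p 2 5, g, p 7 6, g, p 0 7, g], .lo 15, [.l [16, 12, 14, 15, 11, 11, 8, 9, 1, 8, 1, 6, 1], .l [2, 16], .l [1, 13, 11, 14], .l [14, 15, 13, 13, 10, 11, 1, 2, 4, 2, 5], .l [16, 17, 15, 15, 12, 13, 1, 4, 6, 2, 7], .l [4, 16], .l [3, 13, 9, 14], .l [3, 6, 15, 15, 13, 13, 10, 11, 3, 2, 7], .l [6, 16], .l [5, 13, 7, 14], .y [6, 15, 13, 10, 8], .l [7, 13, 5, 14, 3, 10, 10, 8, 3], .l [8, 16], .l [7, 10, 8, 11, 5, 12], .l [9, 13, 3, 14, 3, 10, 3], .l [10, 16], .l [9, 12, 10, 10, 8, 10, 4, 11], .l [12, 15, 12, 13, 3, 12, 1, 8, 3], .l [13, 16], .l [12, 15, 12, 12, 10, 10, 8, 10, 4, 9], .l [16, 17, 13, 13, 10, 11, 1, 10, 1, 8, 3], .l [15, 16], .l [14, 17, 15, 15, 12, 12,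 10, 10, 8, 10, 4, 1], .l [14, 15, 13, 13, 10, 11, 1, 10, 1, 8, 3], .r 862 [1, 2, 3, 4, 5, 6, 7, 8] [1, 1, 1, 1, 1, 1, 1, 1, 1], .l [14, 15, 13, 13, 10, 10, 8, 8, 6, 8, 2, 7]]),
([p 5 1, g, s 1 0, g, s 0 2, g, p 3 0, g, p 4 3, g, p 6 4, p 2 5, g, p 0 6, g], .lo 13, [.l [14, 15, 12, 13, 1, 2, 6, 4, 7], .l [2, 14], .l [1, 13, 11, 12], .l [12, 13, 10, 11, 1, 2, 4, 2, 5], .l [14, 15, 12, 13, 1, 4, 6, 2, 7], .l [4, 14], .l [3, 13, 9, 12], .l [3, 6, 13, 13, 10, 11, 3, 2, 7], .l [6, 14], .l [5, 13, 7, 12], .y [6, 13, 10, 8], .l [7, 13, 5, 12, 1, 8, 8, 6, 3], .l [8, 14], .l [7, 10, 8, 11, 5, 10], .l [9, 13, 3, 12, 1, 8, 3], .l [10, 14], .l [9, 12, 10, 10, 8, 10, 4, 9], .l [14, 15, 10, 11, 1, 10, 1, 8, 3], .l [13, 14], .l [12,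 15, 12, 12, 10, 10, 8, 10, 4, 1], .l [12, 13, 10, 11, 1, 10, 1, 8, 3], .r 863 [1, 2, 3, 4, 5, 6, 7] [1, 1, 1, 1, 1, 1, 1, 1], .l [12, 13, 10, 10, 8, 8, 6, 8, 2, 7]]),
([p 5 1, g, s 1 0, g, s 0 2, g, p 3 0, g, p 4 3, g, p 0 4, p 2 5, g], .lo 10, [.l [11, 13, 1, 2, 6, 4, 7], .l [2, 11], .l [1, 13, 11, 9], .l [9, 11, 1, 2, 4, 2, 5], .l [11, 13, 1, 4, 6, 2, 7], .l [4, 11], .l [3, 13, 9, 7], .l [3, 6, 10, 11, 3, 2, 7], .l [6, 11], .l [5, 13, 7, 5], .y [6, 10, 8], .l [3, 8, 10, 11, 5, 4, 7], .l [8, 11], .l [7, 10, 8, 11, 5, 3], .l [11, 13, 1, 10, 1, 8, 3], .l [10, 11], .l [9, 12, 10, 10, 8, 10, 4, 1], .l [9, 11, 1, 10, 1, 8, 3], .r 864 [1, 2, 3, 4, 5, 6] [1, 1, 1, 1, 1, 1, 1], .l [9, 10, 8, 8, 6, 8, 2, 7]]),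
([p 5 1, s 0 0, g, s 1 0, g, s 0 2, g, p 4 3, g, s 3 0, g, p 0 4, p 2 5, g], .hi 1, [.y [1], .l [11, 1, 13, 2, 7, 4, 1, 6, 2, 5], .l [2, 14, 11, 11, 8], .r 578 [1, 6, 5] [1, 1, 8, 1], .l [11, 1, 7, 8, 5, 10, 2, 6, 4, 5], .l [3, 2, 3], .l [11, 1, 7, 8, 5, 10, 2, 6, 4, 5], .l [0, 2, 8, 1, 9, 3, 4, 4, 2, 3], .l [11, 1, 7, 8, 3, 10, 2, 8, 6, 1], .l [3, 2, 5], .l [11, 1, 7, 8, 3, 10, 2, 8, 6, 1], .l [0, 2, 10, 3, 11, 3, 8, 1, 4, 1], .l [3, 2, 7], .l [9, 7, 13, 4, 7, 3, 6], .l [10, 14, 3, 3, 4, 10, 1, 1, 4, 1], .l [3, 2, 9], .l [11, 9, 13, 2, 7, 5, 6], .l [3, 2, 9], .l [0, 2, 8, 1, 9, 3, 8, 1, 4, 1], .l [3, 2, 12], .l [9, 1, 13, 5, 6, 8, 4, 7]]),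
([p 4 1, s 0 0, g, s 1 0, g, s 0 2, g, p 3 0, g, p 0 3, p 2 4, g], .hi 7, [.l [7, 5, 9, 2, 3, 1, 2], .l [9, 5, 11, 2, 5, 3, 4], .l [5, 4, 11, 6, 8, 4, 4, 2, 3], .l [9, 5], .l [9, 3, 11, 2, 7, 5, 6], .r 859 [1, 2, 5, 3, 4] [2, 1, 1, 1, 1, 1], .l [9, 3], .l [7, 1, 1, 7, 6], .l [9, 1, 11, 2, 9, 7, 4], .r 865 [1, 2, 5, 3, 4] [2, 1, 1, 1, 1, 1], .l [9, 1], .r 866 [1, 2, 5, 3, 4] [1, 1, 1, 1, 1, 1], .l [7, 8], .l [9, 1], .y [7, 9], .l [12, 4, 4, 2, 3], .l [7, 11], .l [12, 4]]),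
([p 3 1, s 0 0, g, s 1 0, g, s 0 2, g, p 0 0, p 2 3, g], .hi 7, [.l [4, 8, 3, 2, 2], .l [6, 10, 3, 2, 4], .l [5, 4, 9, 4, 6, 2, 3], .l [9, 5], .l [6, 10, 3, 2, 6], .l [6, 10, 3, 2, 6], .l [9, 3], .l [4, 8, 3, 2, 1], .l [4, 10, 5, 4, 1], .r 867 [1, 2, 4, 3] [1, 1, 1, 1, 1], .l [9, 1], .y [7], .l [4, 8, 3, 2, 6], .l [7, 9], .l [10, 2]]),
([p 3 1, g, s 1 0, p 0 2, p 0 3, g, s 2 0, g], .lo 3, [.l [4, 3, 5, 1, 2], .l [2, 4], .l [1, 6, 4, 2], .c, .l [2, 1, 3, 1, 2], .l [2, 1, 7, 4, 0, 4, 1], .l [2, 1, 3, 1, 2], .y [3, 6], .l [2, 1, 3, 1, 4], .l [6, 2, 5, 4, 6, 4, 1], .l [2, 1, 3, 1, 4]]),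
([p 4 1, g, s 1 0, m 0 2, g, m 2 0, g, p 0 3, p 0 4, g, s 3 0, g], .lo 8, [.l [1, 10, 8, 7, 8], .l [2, 9], .l [0, 3, 1, 7, 8], .y [0, 2, 8], .l [4, 7, 5, 1, 7, 5, 4], .l [5, 9], .l [4, 7, 5, 1, 7, 5, 4], .l [4, 5, 3, 1, 5, 3, 2], .l [6, 10, 3, 2, 8], .l [7, 9], .l [3, 10, 6, 1, 7, 1, 4, 2, 5], .l [12, 4, 1], .l [3, 8, 4, 1, 5, 1, 6, 4, 5], .l [7, 8, 0, 8], .l [10, 2, 1], .l [10, 2, 10], .l [3, 8, 4, 1, 5, 1, 8, 6, 3], .l [7, 8, 0, 10]]),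
([p 3 1, g, s 1 0, m 0 0, g, p 0 2, p 0 3, g, s 2 0, g], .hi 3, [.l [4, 3, 7, 3, 4], .l [1, 8, 6, 2], .l [2, 4], .y [3], .l [2, 1, 7, 5, 1], .l [2, 1, 7, 5, 1], .r 870 [1, 4, 2, 3] [1, 1, 1, 1, 1], .l [2, 1, 5, 3, 1], .l [2, 1, 5, 3, 2], .l [2, 1, 5, 3, 4], .l [2, 1, 5, 3, 4], .l [2, 1, 9, 4, 0, 6, 3], .l [2, 1, 5, 3, 6], .l [2, 1, 5, 3, 6], .l [8, 2, 7, 6, 8, 4, 1]]),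
([p 4 1, g, s 1 0, s 5 2, g, m 2 0, g, p 0 3, p 6 4, g, s 3 5, g, p 0 6, g], .hi 2, [.l [7, 1, 11, 9, 1, 6, 2, 4, 1, 6, 4, 1], .l [3, 10, 6, 7, 11, 9, 6], .l [4, 1, 9, 5, 8, 10, 6, 8, 1, 5, 1, 5, 3], .l [7, 3, 11, 7, 8, 6, 6, 8, 4, 5], .l [2, 1, 9, 7, 8, 10, 8, 8, 3, 7, 5, 5, 1], .l [11, 14, 12, 12, 2, 4, 1, 7, 3, 5, 3, 5, 3], .l [12, 8, 11, 4, 2, 5, 2, 3, 4, 6, 4, 1], .l [2, 1, 9, 7, 8, 10, 8, 8, 5, 7, 3, 5, 1], .l [11, 14, 12, 12, 2, 4, 1, 5, 1, 7, 5, 3, 1], .l [2, 1, 7, 5, 6, 8, 6, 6, 5, 5, 1, 3, 1], .l [5, 1, 11, 9, 6, 4, 4, 8, 6, 3], .l [0, 1, 1, 8, 12, 10, 7], .l [0, 1, 9, 7, 8, 10, 6, 8, 1, 5, 1, 5, 3], .l [5, 1, 2, 9, 6, 7, 1, 8, 4, 5], .l [0, 1, 1, 10, 12, 8, 9], .l [0, 1, 11, 9, 6, 10, 8, 8, 1, 5, 1, 5, 3],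 .y [0, 2, 12, 8], .l [5, 1, 7, 2, 11, 6, 1, 1, 6, 3], .l [9, 12, 10, 10, 2, 4, 1, 5, 1, 5, 3, 1, 3], .l [0, 1, 13, 11, 6, 8, 6, 8, 1, 5, 1, 5, 3]]),
([p 4 1, g, s 1 0, s 0 2, g, m 2 0, g, p 0 3, p 5 4, g, s 3 0, g, p 0 5, g], .lo 3, [.l [4, 3, 9, 5, 6, 10, 8, 5], .l [4, 3, 9, 5, 6], .l [4, 10, 5, 6, 12, 10, 7], .c, .l [4, 10, 5, 7, 1, 10, 8, 5], .l [5, 1, 6, 4, 1], .l [2, 1, 9, 7, 1], .y [3, 5], .l [6, 10, 3, 5, 1, 10, 8, 5], .l [5, 1, 6, 4, 1], .l [2, 1, 9, 7, 3], .l [2, 1, 7, 5, 6, 10, 8, 5], .l [5, 1, 9, 7, 1], .l [2, 1, 7, 5, 6], .r 872 [1, 2, 3, 4, 6, 5] [1, 1, 1, 1, 1, 1], .l [2, 1, 7, 5, 8, 10, 6, 7], .l [5, 1, 11, 9, 1], .l [2, 1, 7, 5, 8], .l [2, 1, 7, 5, 10, 3, 4, 1], .l [5, 1, 13, 11, 1], .l [2, 1, 7, 5,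 10]]),
([p 3 1, g, s 1 0, s 0 0, g, p 0 2, p 4 3, g, s 2 0, g, p 0 4, g], .hi 3, [.l [4, 3, 7, 3, 4, 8, 6, 3], .l [4, 8, 3, 4, 10, 8, 5], .l [4, 3, 7, 3, 4], .y [3], .l [4, 8, 3, 5, 1, 8, 6, 3], .l [2, 1, 7, 5, 1], .r 873 [1, 5, 2, 3, 4] [1, 1, 1, 1, 1, 1], .l [2, 1, 5, 3, 1], .l [2, 1, 5, 3, 4, 8, 6, 3], .l [2, 1, 5, 3, 4], .l [8, 4, 7, 4, 9, 4, 1], .l [2, 1, 5, 3, 6, 8, 4, 5], .l [2, 1, 5, 3, 6], .l [10, 6, 9, 6, 9, 2, 6], .l [2, 1, 5, 3, 6], .l [2, 1, 5, 3, 8, 3, 4, 1], .l [2, 1, 5, 3, 8], .l [5, 7, 11, 5, 9, 0, 4]]),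
([p 4 1, g, s 1 0, p 2 0, g, p 0 2, g, p 0 3, p 0 4, g, s 3 0, g], .lo 8, [.l [1, 10, 8, 7, 8], .l [2, 9], .l [0, 3, 1, 7, 8], .y [0, 2, 8], .l [3, 7], .l [4, 7, 5, 1, 7, 5, 4], .l [5, 9], .l [4, 7, 5, 1, 7, 5, 4], .l [6, 10, 3, 2, 8], .l [7, 9], .l [3, 10, 6, 1, 7, 1, 4, 2, 5], .l [12, 4, 1], .l [3, 8, 4, 1, 5, 1, 6, 4, 5], .l [7, 8, 0, 8], .l [10, 2, 1], .l [10, 2, 10], .l [3, 8, 4, 1, 5, 1, 8, 6, 3], .l [7, 8, 0, 10]]),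
([p 3 1, g, s 1 0, p 0 0, g, p 0 2, p 0 3, g, s 2 0, g], .lo 3, [.l [4, 3, 7, 3, 4], .l [2, 4], .l [1, 8, 6, 2], .c, .y [3], .l [2, 1, 7, 5, 1], .r 875 [1, 4, 2, 3] [1, 1, 1, 1, 1], .l [2, 1, 7, 5, 1], .l [2, 1, 5, 3, 4], .l [2, 1, 9, 4, 0, 6, 3], .l [2, 1, 5, 3, 4], .l [2, 1, 5, 3, 4], .l [2, 1, 5, 3, 6], .l [8, 2, 7, 6, 8, 4, 1], .l [2, 1, 5, 3, 6]]),
([p 3 1, g, s 1 0, g, p 0 2, p 4 3, g, s 2 0, g, p 0 4, g], .top 3, [.r 869 [1, 2, 3] [1, 1, 3], .r 874 [1, 2, 3, 4] [1, 1, 1, 1, 1], .r 876 [1, 2, 3] [1, 1, 1, 3], .r 871 [1, 2, 3] [1, 1, 1, 3]]),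
([p 3 1, g, s 1 0, g, p 0 2, p 4 3, g, p 5 4, p 6 5, g, p 7 6, g, p 8 7, g, p 9 8, g, p 0 9, g, s 2 0, g], .lo 16, [.l [1, 7, 5, 15, 15, 13, 13, 11, 11, 9, 9, 7, 7, 6, 6, 4, 5], .l [2, 17], .l [0, 3, 1, 15, 15, 13, 13, 11, 11, 9, 9, 7, 7, 6, 6, 4, 5], .y [0, 2, 16, 14, 12, 10, 8, 7, 5], .l [3, 7, 3, 15, 15, 13, 13, 11, 11, 9, 9, 7, 7, 6, 6, 2, 5], .l [4, 17], .l [3, 7, 3, 15], .l [7, 17, 17, 15, 15, 13, 13, 11, 11, 9, 6], .l [7, 17], .l [5, 9, 8, 18, 12, 10, 10, 8, 8, 6, 6, 4, 4, 2, 3], .l [0, 10, 17, 12, 4, 6, 11, 8, 13], .l [10, 17], .l [8, 12, 11, 11, 10, 10, 8, 15, 9, 7, 7, 5, 5, 3, 3, 1, 1, 1], .l [0, 12, 17, 10, 4, 6, 11, 11, 9, 6, 11], .l [12, 17], .l [10, 14, 13, 13, 11, 11, 10, 10, 8, 13, 7, 5, 5, 3, 3, 1,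 1, 1], .l [0, 14, 17, 8, 4, 6, 11, 11, 9, 9, 7, 4, 9], .l [14, 17], .l [12, 16, 15, 15, 13, 13, 11, 11, 10, 10, 8, 11, 5, 3, 3, 1, 1, 1], .l [15, 18, 16, 16, 14, 14, 12, 12, 10, 10, 9, 9, 7, 8, 6, 1, 4, 2, 1], .l [16, 17], .l [14, 18, 17, 17, 15, 15, 13, 13, 11, 11, 10, 10, 8, 9, 3, 1, 1, 1], .l [15, 16, 14, 14, 12, 12, 10, 10, 8, 8, 7, 7, 5, 8, 6, 1, 2, 0, 1], .l [20, 15, 19, 18, 18, 16, 16, 15, 15, 13, 13, 11, 11, 9, 9, 7, 7, 5], .l [15, 16, 14, 14, 12, 12, 10, 10, 8, 8, 7, 7, 5, 5, 0, 5], .l [5, 7, 6, 16, 16, 14, 14, 12, 12, 10, 10, 8, 8, 6, 1], .l [5, 7, 6, 16, 18, 16, 16, 14, 14, 12, 12, 10, 10, 8, 1], .l [5, 7, 6, 16, 18, 16, 16, 14, 14, 12, 12, 10, 10, 8, 1], .l [13, 14, 12, 12, 10, 10, 8, 8, 7, 7, 5, 8, 1, 8,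 6, 0, 5]]),
([p 3 1, g, s 1 0, g, p 0 2, p 4 3, g, p 5 4, p 6 5, g, p 7 6, g, p 8 7, g, p 0 8, g, s 2 0, g], .lo 14, [.l [1, 7, 5, 13, 13, 11, 11, 9, 9, 7, 7, 6, 6, 4, 5], .l [2, 15], .l [0, 3, 1, 13, 13, 11, 11, 9, 9, 7, 7, 6, 6, 4, 5], .y [0, 2, 14, 12, 10, 8, 7, 5], .l [3, 7, 3, 13, 13, 11, 11, 9, 9, 7, 7, 6, 6, 2, 5], .l [4, 15], .l [3, 7, 3, 13], .l [7, 15, 15, 13, 13, 11, 11, 9, 6], .l [7, 15], .l [5, 9, 8, 16, 10, 8, 8, 6, 6, 4, 4, 2, 3], .l [0, 10, 15, 10, 4, 6, 9, 6, 11], .l [10, 15], .l [9, 12, 10, 10, 9, 9, 7, 7, 2, 9], .l [0, 12, 15, 8, 4, 6, 9, 9, 7, 4, 9], .l [12, 15], .l [11, 14, 12, 12, 10, 10, 9, 9, 7, 7, 2, 7], .l [13, 16, 14, 14, 12, 12, 10, 10, 9, 9, 7, 8, 6, 1, 4, 2, 1], .l [14, 15], .l [13, 16,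 14, 14, 12, 12, 10, 10, 9, 9, 7, 7, 2, 1], .l [13, 14, 12, 12, 10, 10, 8, 8, 7, 7, 5, 8, 6, 1, 2, 0, 1], .r 878 [1, 2, 3, 4, 5, 6, 7, 8, 9] [1, 1, 1, 1, 1, 1, 1, 1, 1], .l [13, 14, 12, 12, 10, 10, 8, 8, 7, 7, 5, 5, 0, 5], .l [5, 7, 6, 14, 14, 12, 12, 10, 10, 8, 8, 6, 1], .l [5, 7, 6, 14, 16, 14, 14, 12, 12, 10, 10, 8, 1], .l [5, 7, 6, 14, 16, 14, 14, 12, 12, 10, 10, 8, 1], .l [11, 12, 10, 10, 8, 8, 7, 7, 5, 8, 1, 8, 6, 0, 5]]),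
([p 3 1, g, s 1 0, g, p 0 2, p 4 3, g, p 5 4, p 6 5, g, p 7 6, g, p 0 7, g, s 2 0, g], .lo 12, [.l [1, 7, 5, 11, 11, 9, 9, 7, 7, 6, 6, 4, 5], .l [2, 13], .l [0, 3, 1, 11, 11, 9, 9, 7, 7, 6, 6, 4, 5], .y [0, 2, 12, 10, 8, 7, 5], .l [3, 7, 3, 11, 11, 9, 9, 7, 7, 6, 6, 2, 5], .l [4, 13], .l [3, 7, 3, 11], .l [7, 13, 13, 11, 11, 9, 6], .l [7, 13], .l [5, 9, 8, 14, 8, 6, 6, 4, 4, 2, 3], .l [0, 10, 13, 8, 4, 6, 7, 4, 9], .l [10, 13], .l [9, 12, 10, 10, 9, 9, 7, 7, 2, 7], .l [11, 14, 12, 12, 10, 10, 9, 9, 7, 8, 6, 1, 4, 2, 1], .l [12, 13], .l [11, 14, 12, 12, 10, 10, 9, 9, 7, 7, 2, 1], .l [11, 12, 10, 10, 8, 8, 7, 7, 5, 8, 6, 1, 2, 0, 1], .r 879 [1, 2, 3, 4, 5, 6, 7, 8] [1, 1, 1, 1, 1, 1, 1, 1], .l [11, 12, 10, 10, 8, 8, 7,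 7, 5, 5, 0, 5], .l [5, 7, 6, 12, 12, 10, 10, 8, 8, 6, 1], .l [5, 7, 6, 12, 14, 12, 12, 10, 10, 8, 1], .l [5, 7, 6, 12, 14, 12, 12, 10, 10, 8, 1], .l [9, 10, 8, 8, 7, 7, 5, 8, 1, 8, 6, 0, 5]]),
([p 3 1, g, s 1 0, g, p 0 2, p 4 3, g, p 5 4, p 6 5, g, p 0 6, g, s 2 0, g], .lo 10, [.l [1, 7, 5, 9, 9, 7, 7, 6, 6, 4, 5], .l [2, 11], .l [0, 3, 1, 9, 9, 7, 7, 6, 6, 4, 5], .y [0, 2, 10, 8, 7, 5], .l [3, 7, 3, 9, 9, 7, 7, 6, 6, 2, 5], .l [4, 11], .l [3, 7, 3, 9], .l [7, 11, 11, 9, 6], .l [7, 11], .l [5, 9, 8, 12, 6, 4, 4, 2, 3], .l [9, 12, 10, 10, 9, 9, 7, 8, 6, 1, 4, 2, 1], .l [10, 11], .l [9, 12, 10, 10, 9, 9, 7, 7, 2, 1], .l [9, 10, 8, 8, 7, 7, 5, 8, 6, 1, 2, 0, 1], .r 880 [1, 2, 3, 4, 5, 6, 7] [1, 1, 1, 1, 1, 1, 1], .l [9,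 10, 8, 8, 7, 7, 5, 5, 0, 5], .l [5, 7, 6, 10, 10, 8, 8, 6, 1], .l [5, 7, 6, 10, 12, 10, 10, 8, 1], .l [5, 7, 6, 10, 12, 10, 10, 8, 1], .l [7, 8, 7, 7, 5, 8, 1, 8, 6, 0, 5]]),
([p 5 1, g, s 2 0, g, p 3 2, g, p 0 3, s 1 4, g, m 4 0, g, p 0 5, g], .lo 6, [.l [1, 13, 11, 5, 8, 1, 8, 6, 3], .l [2, 7], .l [1, 13, 11, 5], .y [2, 6, 4], .l [3, 13, 9, 3, 6, 1, 6, 4, 1], .l [4, 7], .l [3, 13, 9, 3], .l [5, 11, 1, 5, 3, 6, 8, 4, 1], .l [6, 7], .l [5, 8, 6, 12, 8, 1], .l [5, 11, 3, 5, 1, 6, 8, 2, 3], .l [5, 11, 3, 5, 1, 6, 8, 2, 3], .l [5, 6, 4, 12, 8, 3], .l [5, 6, 4, 10, 6, 3], .l [5, 9, 1, 3, 1, 4, 8, 4, 1], .l [4, 1, 8, 1, 8, 5, 1, 4, 1], .l [5, 6, 4, 12, 8, 5], .l [5, 9, 1, 3, 1, 4, 6, 2, 5], .l [4, 1, 8, 1, 10, 7, 1, 6, 3],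 .l [5, 6, 4, 10, 6, 9]]),
([p 5 1, g, p 2 0, g, p 4 2, s 1 3, g, m 3 0, g, p 0 4, g, p 0 5, g], .hi 7, [.l [2, 8, 10, 7, 8, 4, 1, 2, 3], .l [1, 13, 11, 6], .l [2, 8], .l [8, 11, 8, 11, 5, 8, 1, 4, 5], .l [3, 6, 4, 12, 10, 5], .l [4, 8], .l [5, 4, 12, 7, 8, 2, 6, 1, 6, 2, 3], .l [5, 4, 12, 7, 8, 2, 6, 1, 6, 2, 3], .l [7, 8], .l [6, 11, 8, 11, 7, 1, 6, 1, 4, 2, 3], .l [6, 11, 8, 8, 6, 10, 8, 1], .l [1, 7, 1, 9, 6, 7, 2, 7, 2, 4, 1], .l [6, 9, 6, 6, 4, 8, 6, 1], .l [6, 9, 6, 11, 7, 4, 6, 4, 5], .l [6, 9, 6, 6, 4, 10, 8, 5], .l [7, 1, 8, 5, 8, 1, 4, 2, 3], .y [0, 5, 7, 11], .l [6, 9, 6, 9, 5, 8, 1, 4, 5], .l [6, 9, 6, 6, 4, 8, 6, 7], .l [7, 1, 8, 5, 10, 3, 6, 2, 5]]),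
([p 8 1, g, s 2 0, g, p 3 2, g, p 4 3, g, p 5 4, g, p 6 5, g, p 0 6, s 1 7, g, m 7 0, g, p 0 8, g], .lo 12, [.l [1, 19, 17, 11, 14, 1, 14, 12, 9], .l [2, 13], .l [1, 19, 17, 11], .y [2, 12, 10, 8, 6, 4], .l [3, 19, 15, 9, 12, 1, 12, 10, 7], .l [4, 13], .l [3, 19, 15, 9], .l [5, 8, 6, 17, 13, 7, 10, 1, 10, 8, 5], .l [6, 13], .l [5, 8, 6, 17, 13, 7], .l [7, 10, 8, 8, 6, 15, 11, 5, 8, 1, 8, 6, 3], .l [8, 13], .l [7, 10, 8, 8, 6, 15, 11, 5], .l [9, 12, 10, 10, 8, 8, 6, 13, 9, 3, 6, 1, 6, 4, 1], .l [10, 13], .l [9, 12, 10, 10, 8, 8, 6, 13, 9, 3], .l [11, 17, 1, 5, 3, 12, 12, 10, 10, 8, 8, 6, 8, 4, 1], .l [12, 13], .l [11, 14, 12, 12, 10, 10, 8, 8, 6, 12, 8, 1], .l [11, 17, 3, 5, 1, 12, 12, 10, 10, 8, 8, 6, 8, 2, 3], .l [11,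 17, 3, 5, 1, 12, 12, 10, 10, 8, 8, 6, 8, 2, 3], .l [11, 12, 10, 10, 8, 8, 6, 6, 4, 12, 8, 3], .l [11, 12, 10, 10, 8, 8, 6, 6, 4, 10, 6, 3], .l [11, 15, 1, 3, 1, 10, 10, 8, 8, 6, 6, 4, 8, 4, 1], .r 883 [1, 6, 7, 9, 8] [9, 1, 1, 1, 1, 1], .l [11, 12, 10, 10, 8, 8, 6, 6, 4, 12, 8, 5], .l [11, 15, 1, 3, 1, 10, 10, 8, 8, 6, 6, 4, 6, 2, 5], .l [4, 1, 16, 12, 14, 12, 12, 10, 10, 8, 4, 1, 8, 5, 1, 4, 1], .l [11, 12, 10, 10, 8, 8, 6, 6, 4, 10, 6, 9]]),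
([p 8 1, g, p 2 0, g, p 3 2, g, p 4 3, g, p 5 4, g, p 6 5, g, p 0 6, s 1 7, g, m 7 0, g, p 0 8, g], .lo 12, [.l [1, 19, 17, 11, 14, 1, 14, 12, 9], .l [2, 13], .l [0, 14, 12, 11, 11, 9, 9, 7, 7, 5, 5, 3, 3, 1, 5, 1, 5, 3], .y [2, 12, 10, 8, 6, 4], .l [3, 6, 4, 17, 15, 9, 12, 1, 12, 10, 7], .l [4, 13], .l [0, 14, 10, 9, 9, 7, 7, 5, 5, 3, 3, 1, 3, 1, 5, 1, 5, 3], .l [5, 8, 6, 6, 4, 15, 13, 7, 10, 1, 10, 8, 5], .l [6, 13], .l [5, 8, 6, 6, 4, 15, 13, 7], .l [7, 10, 8, 8, 6, 6, 4, 13, 11, 5, 8, 1, 8, 6, 3], .l [8, 13], .l [7, 10, 8, 8, 6, 6, 4, 13, 11, 5], .l [9, 12, 10, 10, 8, 8, 6, 6, 4, 11, 9, 3, 6, 1, 6, 4, 1], .l [10, 13], .l [9, 12, 10, 10, 8, 8, 6, 6, 4, 11, 9, 3], .l [11, 17, 1, 5, 3, 12, 12, 10, 10, 8, 8, 6, 6, 4,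 6, 4, 1], .l [12, 13], .l [11, 14, 12, 12, 10, 10, 8, 8, 6, 6, 4, 10, 8, 1], .l [11, 17, 3, 5, 1, 12, 12, 10, 10, 8, 8, 6, 6, 4, 6, 2, 3], .l [0, 12, 14, 13, 13, 11, 11, 9, 9, 7, 7, 5, 5, 3, 5, 3, 5, 1], .l [11, 12, 10, 10, 8, 8, 6, 6, 4, 4, 2, 10, 8, 3], .l [11, 12, 10, 10, 8, 8, 6, 6, 4, 4, 2, 8, 6, 3], .l [11, 15, 1, 3, 1, 10, 10, 8, 8, 6, 6, 4, 4, 2, 6, 4, 1], .l [0, 12, 16, 15, 15, 13, 13, 11, 11, 9, 9, 7, 7, 5, 3, 1, 5, 3], .l [11, 12, 10, 10, 8, 8, 6, 6, 4, 4, 2, 10, 8, 5], .l [11, 15, 1, 3, 1, 10, 10, 8, 8, 6, 6, 4, 4, 2, 4, 2, 3], .l [0, 12, 18, 17, 17, 15, 15, 13, 13, 11, 11, 9, 9, 7, 3, 1, 3, 1], .l [11, 12, 10, 10, 8, 8, 6, 6, 4, 4, 2, 8, 6, 7]]),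
([p 7 1, g, p 2 0, g, p 3 2, g, p 4 3, g, p 5 4, g, p 0 5, s 1 6, g, m 6 0, g, p 0 7, g], .hi 2, [.r 884 [1, 8, 2, 3, 4, 5, 6, 7] [1, 1, 1, 1, 1, 1, 1, 1, 1], .r 885 [1, 8, 2, 3, 4, 5, 6, 7] [1, 1, 1, 1, 1, 1, 1, 1, 1], .l [4, 1], .l [1, 4, 1, 11, 8, 13, 4, 10, 10, 8, 8, 6, 6, 4, 1], .l [2, 3], .l [4, 1], .l [15, 1, 8, 10, 14, 1, 12, 6, 6, 4, 4, 2, 5], .l [2, 5], .l [6, 3], .l [2, 7, 9, 7, 10, 6, 3, 6, 8, 6, 3], .l [2, 7], .l [8, 5], .l [2, 9, 14, 1, 14, 7, 7, 10, 7], .l [2, 9], .l [10, 7], .y [2, 10, 8, 6, 4], .l [13, 10, 10, 8, 8, 6, 6, 4, 4, 2, 3], .l [2, 12], .l [13, 10], .l [15, 12, 12, 10, 10, 8, 8, 6, 6, 4, 5], .l [2, 14], .l [15, 12], .l [2, 14], .l [17, 14, 14, 12, 12, 10, 10, 8, 8, 6, 7], .l [2, 16], .l [17,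 14]]),
([p 7 1, g, s 2 0, g, p 3 2, g, p 4 3, g, p 5 4, g, p 0 5, s 1 6, g, m 6 0, g, p 0 7, g], .lo 10, [.l [1, 17, 15, 9, 12, 1, 12, 10, 7], .l [2, 11], .l [1, 17, 15, 9], .y [2, 10, 8, 6, 4], .l [3, 17, 13, 7, 10, 1, 10, 8, 5], .l [4, 11], .l [3, 17, 13, 7], .l [5, 8, 6, 15, 11, 5, 8, 1, 8, 6, 3], .l [6, 11], .l [5, 8, 6, 15, 11, 5], .l [7, 10, 8, 8, 6, 13, 9, 3, 6, 1, 6, 4, 1], .l [8, 11], .l [7, 10, 8, 8, 6, 13, 9, 3], .l [9, 15, 1, 5, 3, 10, 10, 8, 8, 6, 8, 4, 1], .l [10, 11], .l [9, 12, 10, 10, 8, 8, 6, 12, 8, 1], .l [9, 15, 3, 5, 1, 10, 10, 8, 8, 6, 8, 2, 3], .l [9, 15, 3, 5, 1, 10, 10, 8, 8, 6, 8, 2, 3], .l [9, 10, 8, 8, 6, 6, 4, 12, 8, 3], .l [9, 10, 8, 8, 6, 6, 4, 10, 6, 3], .l [9, 13, 1, 3, 1, 8, 8, 6, 6,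 4, 8, 4, 1], .r 883 [1, 5, 6, 8, 7] [7, 1, 1, 1, 1, 1], .l [9, 10, 8, 8, 6, 6, 4, 12, 8, 5], .l [9, 13, 1, 3, 1, 8, 8, 6, 6, 4, 6, 2, 5], .l [4, 1, 14, 10, 12, 10, 10, 8, 4, 1, 8, 5, 1, 4, 1], .l [9, 10, 8, 8, 6, 6, 4, 10, 6, 9]]),
([p 6 1, g, p 2 0, g, p 3 2, g, p 4 3, g, p 0 4, s 1 5, g, m 5 0, g, p 0 6, g], .hi 2, [.r 887 [1, 7, 2, 3, 4, 5, 6] [1, 1, 1, 1, 1, 1, 1, 1], .r 886 [1, 7, 2, 3, 4, 5, 6] [1, 1, 1, 1, 1, 1, 1, 1], .l [4, 1], .l [1, 4, 1, 9, 6, 11, 4, 8, 8, 6, 6, 4, 1], .l [2, 3], .l [4, 1], .l [2, 5, 10, 6, 3, 6, 8, 6, 3], .l [2, 5], .l [6, 3], .l [2, 7, 12, 1, 12, 5, 5, 8, 5], .l [2, 7], .l [8, 5], .y [2, 8, 6, 4], .l [11, 8, 8, 6, 6, 4, 4, 2, 3], .l [2, 10], .l [11, 8], .l [13, 10, 10, 8, 8, 6, 6, 4, 5],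 .l [2, 12], .l [13, 10], .l [2, 12], .l [15, 12, 12, 10, 10, 8, 8, 6, 7], .l [2, 14], .l [15, 12]]),
([p 6 1, g, s 2 0, g, p 3 2, g, p 4 3, g, p 0 4, s 1 5, g, m 5 0, g, p 0 6, g], .lo 8, [.l [1, 15, 13, 7, 10, 1, 10, 8, 5], .l [2, 9], .l [1, 15, 13, 7], .y [2, 8, 6, 4], .l [3, 15, 11, 5, 8, 1, 8, 6, 3], .l [4, 9], .l [3, 15, 11, 5], .l [5, 8, 6, 13, 9, 3, 6, 1, 6, 4, 1], .l [6, 9], .l [5, 8, 6, 13, 9, 3], .l [7, 13, 1, 5, 3, 8, 8, 6, 8, 4, 1], .l [8, 9], .l [7, 10, 8, 8, 6, 12, 8, 1], .l [7, 13, 3, 5, 1, 8, 8, 6, 8, 2, 3], .l [7, 13, 3, 5, 1, 8, 8, 6, 8, 2, 3], .l [7, 8, 6, 6, 4, 12, 8, 3], .l [7, 8, 6, 6, 4, 10, 6, 3], .l [7, 11, 1, 3, 1, 6, 6, 4, 8, 4, 1], .r 883 [1, 4, 5, 7, 6] [5, 1, 1, 1, 1, 1], .l [7, 8, 6, 6,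 4, 12, 8, 5], .l [7, 11, 1, 3, 1, 6, 6, 4, 6, 2, 5], .l [4, 1, 12, 8, 10, 8, 4, 1, 8, 5, 1, 4, 1], .l [7, 8, 6, 6, 4, 10, 6, 9]]),
([p 5 1, g, p 2 0, g, p 3 2, g, p 0 3, s 1 4, g, m 4 0, g, p 0 5, g], .hi 2, [.r 889 [1, 6, 2, 3, 4, 5] [1, 1, 1, 1, 1, 1, 1], .r 888 [1, 6, 2, 3, 4, 5] [1, 1, 1, 1, 1, 1, 1], .l [4, 1], .l [1, 4, 1, 7, 4, 9, 4, 6, 6, 4, 1], .l [2, 3], .l [4, 1], .l [2, 5, 10, 1, 10, 3, 3, 6, 3], .l [2, 5], .l [6, 3], .y [2, 6, 4], .l [9, 6, 6, 4, 4, 2, 3], .l [2, 8], .l [9, 6], .l [11, 8, 8, 6, 6, 4, 5], .l [2, 10], .l [11, 8], .l [2, 10], .l [13, 10, 10, 8, 8, 6, 7], .l [2, 12], .l [13, 10]]),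
([p 4 1, g, p 2 0, g, p 0 2, s 1 3, g, m 3 0, g, p 0 4, g], .hi 2, [.r 882 [1, 5, 2, 3, 4] [1, 1, 1, 1, 1, 1], .r 890 [1, 5, 2, 3, 4] [1, 1, 1, 1, 1, 1], .l [4, 1], .l [4, 1, 8, 1, 4, 2, 3], .l [2, 3], .l [4, 1], .y [2, 4], .l [7, 4, 4, 2, 3], .l [2, 6], .l [7, 4], .l [9, 6, 6, 4, 5], .l [2, 8], .l [9, 6], .l [2, 8], .l [11, 8, 8, 6, 7], .l [2, 10], .l [11, 8]]),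
([p 3 1, g, p 0 0, s 1 2, g, m 2 0, g, p 0 3, g], .hi 2, [.l [0, 4, 1], .r 891 [1, 4, 2, 3] [1, 1, 1, 1, 1], .l [4, 1], .y [2], .l [0, 2, 3], .l [2, 4], .l [5, 2], .l [0, 2, 5], .l [2, 6], .l [7, 4], .l [2, 6], .l [0, 2, 7], .l [2, 8], .l [9, 6]]),
([p 4 1, s 0 0, g, s 0 2, s 1 3, g, m 3 0, g, p 0 4, g, s 2 0, g], .hi 1, [.y [1], .l [8, 1, 9, 1, 9, 2, 6, 1], .l [0, 5, 7, 1, 8, 6, 1], .r 578 [1, 5, 4] [1, 2, 3, 3], .l [10, 6, 8, 1], .l [4, 3, 4, 6, 4, 7], .l [4, 3, 4], .l [0, 3, 7, 3, 8, 4, 5], .l [7, 10, 2, 2, 4, 7], .l [0, 3, 5, 1, 8, 6, 3], .l [12, 8, 10, 5], .l [0, 3, 5, 1, 6, 4, 3], .l [6, 1, 7, 1, 9, 4, 6, 3], .l [0, 3, 5, 1, 6, 4, 5], .l [12, 8, 10, 3], .l [10, 6, 8, 9, 3, 1], .l [0, 3, 5, 1, 6, 4, 7], .l [6,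 1, 11, 6, 8]]),
([p 0 1, s 0 2, s 1 0, g, s 2 0, g], .lo 1, [.c, .l [4, 2, 2, 3], .l [4, 2, 2], .l [0, 1, 2], .y [1, 4], .l [4, 2, 2, 3], .l [6, 4, 4], .l [0, 1, 4]]),
([p 4 1, g, s 0 2, s 1 3, g, m 3 0, g, p 0 4, g, s 2 0, g], .top 1, [.r 894 [1, 2] [5, 1], .r 893 [1, 2, 3, 4] [1, 1, 1, 1, 1], .r 334 [] [10], .r 444 [] [10]])]

def d03_2 : List (List Item × Qry × List Rf) := [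
([p 3 1, s 0 0, g, s 0 2, s 1 0, g, s 2 0, g, p 0 3, g], .hi 1, [.y [1], .l [0, 5, 6, 8, 6, 1], .l [0, 5, 6, 8, 6, 1], .r 578 [1, 4, 3] [1, 2, 3, 1], .l [0, 3, 4, 6, 4, 1], .l [0, 3, 6, 8, 4, 5], .l [0, 3, 6, 8, 4, 5], .l [8, 4, 6, 3], .l [0, 3, 4, 8, 6, 3], .l [0, 3, 4, 8, 6, 3], .r 517 [1, 4, 3] [1, 3, 1, 1], .l [0, 3, 4, 6, 4, 3], .l [0, 3, 4, 6, 4, 5], .l [0, 3, 4, 6, 4, 5], .r 851 [1, 4, 3] [1, 3, 1, 1]]),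
([p 3 1, g, s 0 2, s 1 0, g, s 2 0, g, p 0 3, g], .top 1, [.r 894 [1, 2] [1, 3], .r 896 [1, 2, 3] [1, 1, 1, 1], .r 334 [] [8], .r 444 [] [8]]),
([p 6 1, g, p 2 0, g, s 0 2, s 1 3, g, m 3 0, m 0 4, g, m 4 5, g, m 5 0, g, p 0 6, g], .lo 4, [.l [0, 6, 3, 8, 13, 9, 5, 10, 1, 7, 1, 3, 5], .l [0, 6, 3], .l [1, 16, 14, 3, 6, 1, 12, 10, 1], .y [2, 4], .l [1, 16, 14, 3, 9, 10, 9, 9, 7, 1, 8, 6, 1], .l [0, 6, 1], .l [1, 16, 14, 3, 6, 1, 12, 10, 1], .l [1, 12, 13, 12, 12, 10, 3, 7, 3, 4, 8, 6, 1], .l [7, 2, 5], .l [0, 4, 5], .l [0, 4, 5], .l [0, 4, 8, 10, 8, 1], .l [10, 5, 8], .l [0, 4, 8], .l [0, 4, 10, 12, 10, 10, 8, 1], .l [12, 7, 10], .l [0, 4, 10], .l [0, 4, 10], .l [0, 4, 12, 14, 5, 10, 11, 10, 10, 8, 1, 5, 1], .l [14, 9,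 12], .l [0, 4, 12], .l [1, 14, 12, 1, 7, 8, 7, 7, 5, 1, 6, 4, 5], .l [16, 11, 14], .l [0, 4, 14]]),
([p 5 1, g, p 2 0, g, s 0 2, s 1 3, g, m 3 0, m 0 4, g, m 4 0, g, p 0 5, g], .hi 10, [.l [1, 14, 12, 9, 9, 7, 1], .l [0, 6, 4, 10, 10, 8, 1], .l [2, 11], .l [3, 14, 10, 7, 7, 5, 1], .l [0, 6, 2, 10, 10, 8, 1], .l [4, 11], .l [0, 4, 8], .l [6, 14, 7, 4, 4, 2, 8], .l [3, 14, 10, 11, 8, 4, 4, 2, 5], .l [7, 11], .y [8, 10], .l [9, 12, 10, 1, 1, 5, 10, 4, 1], .l [9, 12, 10, 1, 1, 5, 10, 4, 1], .l [10, 11], .l [9, 10, 8, 1, 1, 5, 10, 4, 1], .l [9, 10, 8, 1, 1, 5, 10, 4, 1], .r 898 [1, 2, 3, 4, 6, 5] [1, 1, 1, 1, 1, 1, 1], .l [9, 10, 8, 1, 1, 5, 8, 2, 1], .l [9, 10, 8, 1, 1, 5, 8, 2, 7], .l [9, 10, 8, 1, 1, 5, 8, 2, 7], .l [3,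 12, 8, 9, 11, 7, 7, 5, 1]]),
([p 4 1, g, p 2 0, g, s 0 2, s 1 3, g, m 3 0, m 0 0, g, p 0 4, g], .hi 8, [.l [1, 12, 10, 7, 1], .l [0, 6, 4, 8, 1], .l [2, 9], .l [3, 12, 8, 5, 1], .l [0, 6, 2, 8, 1], .l [4, 9], .l [0, 4, 6], .l [5, 4, 11, 6, 6, 2, 3], .l [3, 12, 8, 9, 6, 2, 5], .l [7, 9], .y [8], .l [5, 4, 11, 6, 6, 4, 1], .l [5, 4, 11, 6, 6, 4, 1], .r 899 [1, 2, 3, 5, 4] [1, 1, 1, 1, 1, 1], .l [5, 4, 9, 4, 4, 2, 1], .l [5, 4, 9, 4, 4, 2, 7], .l [5, 4, 9, 4, 4, 2, 7], .l [3, 10, 6, 7, 9, 5, 1]]),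
([p 5 1, g, s 4 0, s 1 2, g, m 2 0, s 0 3, g, m 3 0, g, s 0 4, g, p 0 5, g], .lo 6, [.l [1, 14, 12, 5, 1, 10, 8, 5], .l [2, 7, 1], .l [1, 14, 12, 5, 1], .l [0, 2, 4, 1], .l [4, 14, 9, 2, 10, 3], .l [3, 2, 13, 10, 10, 6, 7], .l [4, 14, 9, 2, 10], .l [4, 12, 7, 0, 8], .l [5, 1, 13, 8, 1, 7, 8, 5], .l [8, 1, 9, 7, 1], .l [3, 2, 13, 10, 10, 8, 1], .y [6, 8], .l [5, 1, 13, 8, 3, 7, 8, 5], .l [8, 1, 9, 7, 1], .l [3, 2, 13, 10, 10, 8, 3], .l [5, 1, 13, 8, 5, 7, 8, 1], .l [8, 1, 11, 9, 1], .l [3, 2, 13, 10, 10, 8, 5], .l [0, 2, 8, 12, 8, 1], .l [8, 1, 13, 11, 1], .l [3, 2, 11, 8, 8, 6, 9]]),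
([p 4 1, g, s 3 0, s 1 2, g, m 2 0, s 0 0, g, s 0 3, g, p 0 4, g], .hi 6, [.l [1, 12, 10, 5, 1, 8, 6, 3], .l [1, 12, 10, 5, 1], .l [2, 7, 1], .l [4, 12, 7, 2, 8, 3], .l [4, 12, 7, 2, 8], .l [3, 2, 11, 8, 8, 4, 5], .y [6], .l [5, 1, 11, 6, 1, 5, 6, 3], .l [3, 2, 11, 8, 8, 6, 1], .r 901 [1, 2, 5, 3, 4] [1, 1, 1, 1, 1, 1], .l [0, 2, 6, 6, 4, 1], .l [5, 1, 11, 6, 3, 5, 6, 1], .l [3, 2, 11, 8, 8, 6, 3], .l [0, 2, 6, 8, 6, 1], .l [3, 2, 9, 6, 6, 4, 3], .l [0, 2, 6, 10, 8, 1], .l [3, 2, 9, 6, 6, 4, 7], .l [0, 2, 6, 10, 8, 1]]),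
([p 5 1, g, s 0 2, g, s 2 0, s 1 3, g, m 3 0, s 0 4, g, m 4 0, g, p 0 5, g], .lo 8, [.l [1, 14, 12, 7, 1, 10, 8, 1], .l [2, 9, 1], .l [1, 14, 12, 7, 1], .l [3, 14, 10, 5, 1, 8, 6, 7], .l [4, 9, 1], .l [3, 14, 10, 5, 1], .l [0, 4, 6, 1], .l [6, 14, 7, 2, 10, 1], .l [5, 4, 13, 8, 8, 4, 5], .l [6, 14, 7, 2, 10], .l [6, 12, 5, 0, 8], .l [7, 1, 13, 6, 1, 5, 8, 1], .l [10, 1, 11, 9, 1], .l [5, 4, 13, 8, 8, 6, 1], .y [8, 10], .l [7, 1, 13, 6, 3, 5, 8, 1], .l [10, 1, 11, 9, 1], .l [5, 4, 13, 8, 8, 6, 3], .l [8, 13, 10, 4, 6, 9, 6, 1], .l [10, 1, 13, 11, 1], .l [5, 4, 11, 6, 6, 4, 9]]),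
([p 5 1, g, s 0 2, g, p 3 0, g, s 2 3, s 1 4, g, m 4 0, s 0 0, g, p 0 5, g], .hi 10, [.l [1, 14, 12, 9, 1, 10, 8, 3], .l [1, 14, 12, 9, 1], .l [2, 11, 1], .l [1, 12, 10, 7, 1, 8, 6, 3], .l [3, 14, 10, 7, 1, 8, 6, 7], .l [3, 14, 10, 7, 1], .l [4, 11, 1], .l [5, 14, 8, 5, 1, 6, 4, 5], .l [5, 14, 8, 5, 1], .l [6, 11, 1], .l [8, 14, 5, 2, 10, 3], .l [8, 14, 5, 2, 10], .l [7, 6, 13, 6, 6, 2, 3], .y [10], .l [9, 1, 13, 4, 1, 3, 8, 3], .l [7, 6, 13, 6, 6, 4, 1], .r 903 [1, 2, 4, 6, 5] [1, 3, 1, 1, 1, 1], .l [7, 6, 11, 4, 4, 2, 1], .l [5, 12, 6, 7, 11, 7, 1, 8, 6, 1], .l [7, 6, 11, 4, 4, 2, 9], .l [5, 12, 6, 7, 11, 7, 1, 8, 6, 1]]),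
([p 5 1, g, s 3 0, s 1 2, g, s 0 3, g, m 2 0, s 0 4, g, m 4 0, g, p 0 5, g], .lo 8, [.l [0, 4, 5, 12, 10, 10, 4, 7], .l [0, 4, 5, 12, 10, 10, 4, 7], .l [1, 14, 12, 7, 3], .l [0, 2, 6, 3], .l [0, 2, 5, 12, 8, 8, 4, 7], .l [3, 2, 13, 10, 10, 4, 7], .l [0, 2, 5, 12, 8, 8, 4, 7], .l [0, 2, 3, 12, 10, 10, 4, 5], .l [0, 2, 3, 12, 10, 10, 4, 5], .l [6, 14, 7, 2, 8], .l [6, 12, 5, 0, 6], .l [0, 2, 3, 12, 10, 10, 6, 1], .l [10, 1, 11, 9, 3], .l [0, 2, 3, 12, 10, 10, 6, 1], .y [8, 10], .l [0, 2, 3, 12, 10, 10, 6, 3], .l [10, 1, 11, 9, 3], .l [0, 2, 3, 12, 10, 10, 6, 3], .l [0, 2, 3, 10, 8, 8, 4, 7], .l [10, 1, 13, 11, 3], .l [0, 2, 3, 10, 8, 8, 4, 7]]),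
([p 5 1, g, p 2 0, g, s 4 2, s 1 3, g, s 0 4, g, m 3 0, s 0 0, g, p 0 5, g], .hi 10, [.l [0, 6, 7, 12, 10, 10, 2, 7], .l [1, 14, 12, 9, 3], .l [0, 6, 7, 12, 10, 10, 2, 7], .l [0, 6, 7, 12, 10, 10, 2, 5], .l [3, 14, 10, 7, 3], .l [0, 6, 7, 12, 10, 10, 2, 5], .l [0, 4, 7, 12, 8, 8, 2, 7], .l [0, 4, 7, 12, 8, 8, 2, 7], .l [5, 4, 13, 8, 8, 2, 5], .l [0, 4, 5, 10, 8, 8, 2, 3], .l [0, 4, 5, 12, 10, 10, 2, 3], .l [8, 14, 5, 2, 8], .l [0, 4, 5, 12, 10, 10, 2, 3], .y [10], .l [0, 4, 5, 12, 10, 10, 4, 1], .l [0, 4, 5, 12, 10, 10, 4, 1], .r 905 [1, 3, 4, 6, 5] [3, 1, 1, 1, 1, 1], .l [0, 4, 5, 10, 8, 8, 2, 1], .l [0, 4, 5, 10, 8, 8, 2, 7], .l [0, 4, 5, 10, 8, 8, 2, 7], .l [3, 12, 8, 9, 11, 7, 3, 8, 4, 5]]),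
([p 5 1, g, p 3 0, g, s 0 2, g, s 2 3, s 1 4, g, m 4 0, s 0 0, g, p 0 5, g], .hi 10, [.l [1, 14, 12, 9, 1, 10, 8, 1], .l [1, 14, 12, 9, 1], .l [2, 11, 1], .l [3, 14, 10, 7, 1, 8, 6, 1], .l [3, 14, 10, 7, 1], .l [4, 11, 1], .l [3, 12, 8, 5, 1, 6, 4, 1], .l [5, 14, 8, 5, 1, 6, 4, 7], .l [5, 14, 8, 5, 1], .l [6, 11, 1], .l [8, 14, 5, 2, 10, 1], .l [8, 14, 5, 2, 10], .l [7, 6, 13, 6, 6, 2, 3], .y [10], .l [9, 1, 13, 4, 1, 3, 8, 1], .l [7, 6, 13, 6, 6, 4, 1], .r 903 [1, 2, 4, 6, 5] [3, 1, 1, 1, 1, 1], .l [7, 6, 11, 4, 4, 2, 1], .l [5, 12, 6, 9, 11, 5, 1, 6, 4, 5], .l [7, 6, 11, 4, 4, 2, 9], .l [5, 12, 6, 9, 11, 5, 1, 6, 4, 5]]),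
([p 4 1, g, s 5 0, s 1 2, g, m 2 0, s 0 3, g, m 3 0, g, p 0 4, g, s 0 5, g], .lo 6, [.l [1, 12, 10, 5, 1, 8, 6, 7], .l [2, 7, 1], .l [1, 12, 10, 5, 1], .l [0, 2, 4, 1], .l [4, 12, 7, 2, 8, 9], .l [3, 2, 11, 8, 8, 4, 5], .l [4, 12, 7, 2, 8], .l [4, 10, 5, 0, 6], .l [5, 1, 11, 6, 1, 5, 6, 7], .l [8, 1, 9, 7, 1], .l [3, 2, 11, 8, 8, 6, 1], .y [6, 8], .l [5, 1, 11, 6, 3, 5, 6, 7], .l [8, 1, 9, 7, 1], .l [3, 2, 11, 8, 8, 6, 3], .l [6, 11, 5, 6, 10, 6, 4, 1], .l [8, 1, 11, 9, 1], .l [3, 2, 9, 6, 6, 4, 7], .l [0, 2, 10, 12, 6, 1], .l [8, 1, 13, 11, 1], .l [3, 2, 9, 6, 6, 4, 9]]),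
([p 4 1, g, p 2 0, g, s 5 2, s 1 3, g, m 3 0, s 0 0, g, p 0 4, g, s 0 5, g], .hi 8, [.l [1, 12, 10, 7, 1, 8, 6, 7], .l [1, 12, 10, 7, 1], .l [2, 9, 1], .l [3, 12, 8, 5, 1, 6, 4, 7], .l [3, 12, 8, 5, 1], .l [4, 9, 1], .l [6, 12, 5, 2, 8, 9], .l [6, 12, 5, 2, 8], .l [5, 4, 11, 6, 6, 2, 3], .y [8], .l [7, 1, 11, 4, 1, 3, 6, 7], .l [5, 4, 11, 6, 6, 4, 1], .r 908 [1, 3, 6, 4, 5] [3, 1, 1, 1, 1, 1], .l [5, 4, 9, 4, 4, 2, 1], .l [3, 10, 6, 7, 9, 5, 1, 6, 4, 5], .l [5, 4, 9, 4, 4, 2, 7], .l [3, 10, 6, 7, 9, 5, 1, 6, 4, 5], .l [0, 4, 10, 10, 6, 1], .l [0, 4, 10, 12, 8, 1], .l [5, 4, 9, 4, 4, 2, 9], .l [0, 4, 10, 12, 8, 1]]),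
([p 4 1, g, p 2 0, g, s 0 2, s 1 3, g, m 3 0, s 0 0, g, p 0 4, g], .lo 4, [.r 904 [1, 5, 2, 3, 4] [1, 1, 1, 1, 1, 1], .l [0, 6, 3], .l [1, 12, 10, 3, 6, 1, 8, 6, 1], .y [2, 4], .r 907 [1, 5, 2, 3, 4] [1, 1, 1, 1, 1, 1], .l [0, 6, 1], .l [1, 12, 10, 3, 6, 1, 8, 6, 1], .r 906 [1, 2, 3, 5, 4] [1, 1, 1, 1, 1, 1], .l [7, 2, 5], .l [0, 4, 5], .l [0, 4, 5], .l [0, 4, 6, 1], .r 902 [1, 3, 5, 4] [3, 1, 1, 1, 1], .l [10, 5, 8], .l [0, 4, 8], .r 909 [1, 2, 3, 4, 5] [1, 1, 1, 1, 1, 1], .l [12, 7, 10], .l [0, 4, 10]]),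
([p 6 1, g, p 2 0, g, s 0 2, s 1 3, g, m 3 0, p 4 0, g, p 5 4, g, p 0 5, g, p 0 6, g], .lo 4, [.l [0, 6, 3, 8, 13, 9, 5, 10, 1, 7, 1, 3, 5], .l [0, 6, 3], .l [1, 16, 14, 3, 6, 1, 12, 10, 1], .y [2, 4], .l [1, 16, 14, 3, 9, 10, 9, 9, 7, 1, 8, 6, 1], .l [0, 6, 1], .l [1, 16, 14, 3, 6, 1, 12, 10, 1], .l [1, 12, 13, 12, 12, 10, 3, 7, 3, 4, 8, 6, 1], .l [7, 2, 5], .l [0, 4, 5], .l [0, 4, 5], .l [8, 3, 6], .l [0, 4, 8, 10, 8, 1], .l [10, 5, 8], .l [0, 4, 8], .l [0, 4, 10, 12, 10, 10, 8, 1], .l [12, 7, 10], .l [0, 4, 10], .l [0, 4, 12, 14, 5, 10, 11, 10, 10, 8, 1, 5, 1], .l [14, 9, 12], .l [0, 4, 12], .l [1, 14, 12, 1, 7, 8, 7, 7, 5, 1, 6, 4, 5], .l [16, 11, 14], .l [0, 4, 14]]),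
([p 5 1, g, p 2 0, g, s 0 2, s 1 3, g, m 3 0, p 4 0, g, p 0 4, g, p 0 5, g], .lo 10, [.l [1, 14, 12, 9, 9, 7, 1], .l [2, 11], .l [0, 6, 4, 10, 10, 8, 1], .l [2, 9], .l [3, 14, 10, 7, 7, 5, 1], .l [4, 11], .l [0, 6, 2, 10, 10, 8, 1], .l [6, 14, 7, 4, 4, 2, 8], .l [7, 11], .l [3, 14, 10, 11, 8, 4, 4, 2, 5], .l [3, 12, 8, 9, 6, 2, 2, 0, 3], .y [8, 10], .l [9, 12, 10, 1, 1, 5, 10, 4, 1], .l [10, 11], .l [9, 12, 10, 1, 1, 5, 10, 4, 1], .l [9, 10, 8, 1, 1, 5, 10, 4, 1], .r 911 [1, 2, 3, 4, 6, 5] [1, 1, 1, 1, 1, 1, 1], .l [9, 10, 8, 1, 1, 5, 10, 4, 1], .l [9, 10, 8, 1, 1, 5, 8, 2, 7], .l [3, 12, 8, 9, 11, 7, 7, 5, 1], .l [9, 10, 8, 1, 1, 5, 8, 2, 7]]),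
([p 4 1, g, p 2 0, g, s 0 2, s 1 3, g, m 3 0, p 0 0, g, p 0 4, g], .lo 8, [.l [1, 12, 10, 7, 1], .l [2, 9], .l [0, 6, 4, 8, 1], .l [2, 7], .l [3, 12, 8, 5, 1], .l [4, 9], .l [0, 6, 2, 8, 1], .l [5, 4, 11, 6, 6, 2, 3], .l [7, 9], .l [3, 12, 8, 9, 6, 2, 5], .l [3, 10, 6, 7, 4, 0, 3], .y [8], .l [5, 4, 11, 6, 6, 4, 1], .r 912 [1, 2, 3, 5, 4] [1, 1, 1, 1, 1, 1], .l [5, 4, 11, 6, 6, 4, 1], .l [5, 4, 9, 4, 4, 2, 7], .l [3, 10, 6, 7, 9, 5, 1], .l [5, 4, 9, 4, 4, 2, 7]]),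
([p 4 1, g, p 2 0, g, s 0 2, s 1 3, g, m 3 0, g, p 0 4, g], .top 8, [.r 506 [3, 4] [4, 1, 1], .r 910 [1, 2, 3, 4] [1, 1, 1, 1, 1], .r 913 [1, 2, 3, 4] [1, 1, 1, 1, 1], .r 900 [1, 2, 3, 4] [1, 1, 1, 1, 1]]),
([p 4 1, s 2 0, g, s 0 2, g, s 1 0, m 0 3, g, p 0 4, g, m 3 5, g, m 5 6, g, m 6 0, g], .lo 6, [.l [6, 4, 7, 1, 7, 4, 4], .l [8, 4, 9, 1, 9, 4, 6], .l [8, 4], .l [14, 16, 15, 15, 13, 13, 9, 6, 3, 7, 5, 7, 3], .l [8, 2, 9, 1, 9, 2, 6], .l [8, 2], .l [12, 14, 13, 13, 9, 6, 1, 9, 3, 5, 3, 7, 3], .l [10, 12, 11, 11, 7, 4, 1, 7, 3, 3, 1, 5, 3], .l [8, 1, 11, 9, 4], .l [8, 1], .l [6, 7], .l [10, 3, 9, 7, 9, 7, 4], .l [10, 3], .l [6, 9], .l [2, 12, 5, 1, 7, 7, 4, 1], .l [12, 5], .l [6, 11], .l [2, 14, 7, 1, 9, 9, 6, 3],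 .l [14, 7], .l [6, 13], .y [6, 10, 12, 14], .l [2, 16, 9, 1, 11, 11, 8, 5], .l [16, 9], .l [6, 15]]),
([p 4 1, s 2 0, g, s 0 2, g, s 1 0, m 0 3, g, p 0 4, g, m 3 5, g, m 5 0, g], .hi 12, [.l [13, 14, 12, 12, 8, 6, 3, 8, 2, 5], .l [2, 10, 7, 11], .l [3, 13], .l [11, 12, 10, 10, 6, 4, 1, 6, 2, 3], .l [13, 14, 12, 12, 8, 6, 1, 8, 2, 3], .l [4, 10, 5, 11], .l [5, 13], .y [6, 10, 12], .l [7, 10, 2, 11, 11, 9, 9, 7, 4], .l [7, 10, 2, 11], .l [8, 13], .l [7, 8, 0, 9], .l [9, 12, 8, 4, 1, 8, 4, 7], .l [9, 12, 8, 4, 1, 8, 4, 7], .l [10, 13], .l [11, 14, 12, 12, 8, 4, 1, 8, 4, 1], .l [11, 14, 12, 12, 8, 4, 1, 8, 4, 1], .l [12, 13], .l [11, 12, 10, 10, 6, 4, 1, 6, 2, 5], .l [11, 12, 10, 10, 6, 4, 1, 6, 2, 5], .r 915 [1, 2, 3,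 4, 5, 6] [1, 1, 1, 1, 1, 1, 1]]),
([p 4 1, s 2 0, g, s 0 2, g, s 1 0, m 0 3, g, p 0 4, g, m 3 0, g], .hi 10, [.l [11, 12, 8, 6, 3, 8, 2, 5], .l [2, 10, 7, 9], .l [3, 11], .l [9, 10, 6, 4, 1, 6, 2, 3], .l [11, 12, 8, 6, 1, 8, 2, 3], .l [4, 10, 5, 9], .l [5, 11], .y [6, 10], .l [7, 10, 2, 9, 9, 7, 4], .l [7, 10, 2, 9], .l [8, 11], .l [7, 8, 0, 7], .l [9, 12, 8, 4, 1, 8, 4, 1], .l [9, 12, 8, 4, 1, 8, 4, 1], .l [10, 11], .l [9, 10, 6, 4, 1, 6, 2, 5], .l [9, 10, 6, 4, 1, 6, 2, 5], .r 916 [1, 2, 3, 4, 5] [1, 1, 1, 1, 1, 1]]),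
([p 6 1, s 2 0, g, s 0 2, g, s 1 0, m 0 3, g, m 3 4, g, m 4 5, g, m 5 0, g, p 0 6, g], .hi 12, [.l [13, 14, 12, 12, 10, 10, 8, 6, 3, 8, 2, 5], .l [0, 6, 3, 11, 11, 9, 9, 7, 7, 5, 7, 6, 1], .l [3, 13], .l [10, 12, 11, 11, 9, 11, 3, 1, 7, 4, 1, 1, 3], .l [13, 14, 12, 12, 10, 10, 8, 6, 1, 8, 2, 3], .l [0, 6, 1, 11, 11, 9, 9, 7, 7, 5, 7, 6, 1], .l [5, 13], .y [6, 8, 10, 12], .l [7, 10, 8, 4, 1, 12, 8, 5], .l [6, 16, 9, 3, 13, 4, 1, 5, 7, 1, 7, 1, 5], .l [8, 13], .l [9, 12, 10, 10, 8, 4, 1, 10, 6, 3], .l [6, 16, 9, 1, 13, 4, 1, 9, 3, 3, 1, 1, 5], .l [10, 13], .l [11, 14, 12, 12, 10, 10, 8, 4, 1, 8, 4, 1], .l [8, 10, 9, 15, 7, 1, 11, 4, 1, 7, 1, 1, 5], .l [12, 13], .l [11, 12, 10, 10, 8, 8, 6, 4, 1, 8, 4, 1], .l [10, 12,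 11, 11, 9, 13, 5, 1, 9, 4, 1, 5, 5], .l [12, 14, 13, 13, 11, 11, 9, 9, 7, 4, 1, 7, 3], .l [10, 12, 11, 11, 9, 11, 3, 1, 7, 4, 1, 3, 3], .l [11, 12, 10, 10, 8, 8, 6, 4, 1, 6, 2, 5], .l [8, 10, 9, 13, 5, 1, 9, 4, 1, 5, 7, 1, 5], .l [12, 16, 15, 15, 13, 13, 11, 11, 9, 4, 1, 5, 1]]),
([p 6 1, s 2 0, g, s 0 2, g, s 1 0, m 0 3, g, m 3 4, g, m 4 5, g, p 0 6, g, m 5 0, g], .lo 12, [.l [5, 4, 10], .l [13, 16, 14, 14, 12, 12, 10, 6, 3, 6, 0, 3], .l [3, 13], .l [0, 6, 3, 11, 13, 11, 11, 9, 9, 7, 5, 4, 1], .l [13, 16, 14, 14, 12, 12, 10, 6, 1, 6, 0, 1], .l [5, 13], .l [0, 6, 1, 11, 13, 11, 11, 9, 9, 7, 5, 4, 1], .y [0, 5, 12], .l [7, 10, 8, 4, 1, 10, 6, 5], .l [8, 13], .l [2, 14, 11, 11, 6, 5, 12, 10, 10, 8, 8, 4, 5], .l [9, 12,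 10, 10, 8, 4, 1, 8, 4, 3], .l [10, 13], .l [2, 14, 11, 11, 4, 3, 12, 10, 10, 6, 6, 4, 5], .l [11, 16, 14, 14, 12, 12, 10, 4, 1, 6, 2, 1], .l [12, 13], .l [2, 14, 11, 11, 2, 1, 12, 8, 8, 6, 6, 4, 5], .l [11, 12, 0, 11, 13, 11, 11, 9, 9, 7, 4], .l [12, 14, 13, 15, 13, 13, 11, 11, 9, 4, 1, 5, 1], .l [8, 10, 9, 11, 3, 1, 7, 4, 1, 3, 5, 7, 5], .l [8, 10, 9, 11, 3, 1, 7, 4, 1, 3, 5, 5, 3], .l [11, 14, 12, 12, 10, 10, 8, 4, 1, 4, 0, 5], .l [12, 14, 11, 11, 9, 11, 3, 1, 7, 4, 1, 7, 3], .l [11, 12, 0, 13]]),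
([p 5 1, s 2 0, g, s 0 2, g, s 1 0, m 0 3, g, m 3 4, g, m 4 0, g, p 0 5, g], .hi 10, [.l [11, 12, 10, 10, 8, 6, 3, 8, 2, 5], .l [2, 14, 11, 8], .l [3, 11], .l [9, 10, 8, 8, 6, 4, 1, 6, 2, 3], .l [11, 12, 10, 10, 8, 6, 1, 8, 2, 3], .l [4, 14, 9, 6], .l [5, 11], .y [6, 8, 10], .l [7, 10, 8, 4, 1, 10, 6, 3], .l [7, 10, 8, 4, 1, 10, 6, 3], .l [8, 11], .l [9, 12, 10, 10, 8, 4, 1, 8, 4, 1], .l [9, 12, 10, 10, 8, 4, 1, 8, 4, 1], .l [10, 11], .l [9, 10, 8, 8, 6, 4, 1, 8, 4, 1], .l [9, 10, 8, 8, 6, 4, 1, 8, 4, 1], .r 918 [1, 2, 3, 4, 6, 5] [1, 1, 1, 1, 1, 1, 1], .l [9, 10, 8, 8, 6, 4, 1, 6, 2, 1], .l [9, 10, 8, 8, 6, 4, 1, 6, 2, 5], .l [9, 10, 8, 8, 6, 4, 1, 6, 2, 5], .r 919 [1, 2, 3, 4, 6, 5] [1, 1, 1, 1, 1, 1, 1]]),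
([p 5 1, s 2 0, g, s 0 2, g, s 1 0, m 0 3, g, m 3 4, g, p 0 5, g, m 4 6, g, m 6 0, g], .lo 10, [.l [5, 4, 8], .l [11, 14, 12, 12, 10, 6, 3, 6, 0, 3], .l [3, 11], .l [2, 12, 9, 8], .l [11, 14, 12, 12, 10, 6, 1, 6, 0, 1], .l [5, 11], .l [4, 12, 7, 6], .y [0, 5, 10], .l [7, 10, 8, 4, 1, 8, 4, 3], .l [8, 11], .l [2, 12, 9, 9, 4, 3, 10, 8, 8, 4, 5, 7, 5], .l [9, 14, 12, 12, 10, 4, 1, 6, 2, 1], .l [10, 11], .l [2, 12, 9, 9, 2, 1, 10, 6, 6, 4, 5, 7, 5], .l [9, 10, 0, 9, 11, 9, 9, 7, 4], .l [10, 14, 11, 9, 11, 13, 11, 11, 9, 4, 1, 5, 1], .l [9, 10, 0, 9], .l [9, 10, 0, 11, 13, 11, 11, 9, 9, 7, 4], .l [12, 16, 15, 13, 11, 13, 11, 11, 9, 4, 1, 5, 1], .l [6, 10, 3, 1, 7, 4, 1, 3, 7, 9, 7, 7, 5], .l [6, 10, 3, 1, 7, 4, 1, 3, 7,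 7, 5, 5, 3], .l [9, 12, 10, 10, 8, 4, 1, 4, 0, 7], .l [12, 14, 13, 13, 9, 11, 3, 1, 7, 4, 1, 7, 3], .l [9, 10, 0, 13]]),
([p 5 1, s 2 0, g, s 0 2, g, s 1 0, m 0 3, g, m 3 4, g, p 0 5, g, m 4 0, g], .hi 12, [.l [13, 14, 10, 10, 8, 6, 3, 8, 2, 5], .l [2, 12, 9, 11], .l [3, 13], .l [11, 12, 8, 8, 6, 4, 1, 6, 2, 3], .l [13, 14, 10, 10, 8, 6, 1, 8, 2, 3], .l [4, 12, 7, 11], .l [5, 13], .y [6, 8, 12], .l [7, 10, 8, 4, 1, 8, 4, 7], .l [7, 10, 8, 4, 1, 8, 4, 7], .l [8, 13], .l [9, 12, 2, 11, 11, 9, 9, 7, 4], .l [9, 12, 2, 11], .l [10, 13], .l [9, 10, 0, 9], .l [11, 14, 10, 10, 8, 4, 1, 8, 4, 1], .l [11, 14, 10, 10, 8, 4, 1, 8, 4, 1], .l [12, 13], .l [11, 12, 8, 8, 6, 4, 1, 6, 2, 5], .l [11, 12, 8, 8, 6, 4, 1, 6, 2, 5], .r 921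 [1, 2, 3, 4, 5, 6] [1, 1, 1, 1, 1, 1, 1]]),
([p 4 1, s 2 0, g, s 0 2, g, s 1 0, m 0 3, g, m 3 0, g, p 0 4, g], .hi 8, [.l [9, 10, 8, 6, 3, 8, 2, 5], .l [2, 12, 9, 6], .l [3, 9], .l [7, 8, 6, 4, 1, 6, 2, 3], .l [9, 10, 8, 6, 1, 8, 2, 3], .l [4, 12, 7, 4], .l [5, 9], .y [6, 8], .l [7, 10, 8, 4, 1, 8, 4, 1], .l [7, 10, 8, 4, 1, 8, 4, 1], .l [8, 9], .l [7, 8, 6, 4, 1, 8, 4, 1], .l [7, 8, 6, 4, 1, 8, 4, 1], .r 920 [1, 2, 3, 5, 4] [1, 1, 1, 1, 1, 1], .l [7, 8, 6, 4, 1, 6, 2, 1], .l [7, 8, 6, 4, 1, 6, 2, 5], .l [7, 8, 6, 4, 1, 6, 2, 5], .r 922 [1, 2, 3, 5, 4] [1, 1, 1, 1, 1, 1]]),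
([p 3 1, s 2 0, g, s 0 2, g, s 1 0, m 0 0, g, p 0 3, g], .hi 6, [.l [4, 10, 5, 5, 2, 5], .l [2, 10, 7, 4], .l [3, 7], .l [2, 8, 5, 5, 2, 3], .l [2, 10, 7, 7, 2, 3], .l [4, 10, 5, 2], .l [5, 7], .y [6], .l [2, 10, 7, 7, 4, 1], .l [2, 10, 7, 7, 4, 1], .r 923 [1, 2, 4, 3] [1, 1, 1, 1, 1], .l [2, 8, 5, 5, 2, 1], .l [2, 8, 5, 5, 2, 5], .l [2, 8, 5, 5, 2, 5], .r 917 [1, 2, 4, 3] [1, 1, 1, 1, 1]]),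
([p 4 1, s 2 0, g, s 0 2, g, s 1 0, s 0 3, g, p 0 4, g, m 3 0, g], .lo 6, [.l [6, 4, 7, 1, 7, 4, 4, 1], .l [4, 10, 5, 5, 2, 5], .l [7, 6, 9, 2, 5], .l [4, 10, 5, 5, 2, 5], .l [2, 10, 7, 7, 2, 3], .l [2, 10, 7, 7, 2, 3], .l [12, 3, 6, 2, 8], .c, .l [2, 10, 7, 7, 4, 1], .l [8, 1, 11, 9, 4], .l [2, 10, 7, 7, 4, 1], .l [2, 8, 5, 5, 2, 5], .l [10, 3, 9, 7, 9, 7, 4], .l [2, 8, 5, 5, 2, 5], .y [6, 10], .l [2, 8, 5, 5, 2, 7], .l [10, 3, 9, 7, 9, 7, 4], .l [2, 8, 5, 5, 2, 7]]),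
([p 4 1, s 0 2, g, p 3 0, g, s 0 3, s 1 0, g, s 2 0, g, p 0 4, g], .lo 5, [.l [9, 12, 2, 2, 8, 3], .l [0, 7, 3], .l [2, 12, 9, 3, 6, 7, 4, 1], .y [3, 5], .l [9, 12, 2, 2, 8, 1], .l [0, 7, 1], .l [2, 12, 9, 3, 6, 7, 4, 1], .c, .l [0, 5, 6, 10, 8, 5], .l [8, 2, 6], .l [0, 5, 6], .l [2, 8, 6, 3, 4, 6, 4, 1], .l [0, 5, 8, 10, 6, 7], .l [10, 4, 8], .l [0, 5, 8], .l [7, 10, 2, 2, 6, 7], .l [12, 6, 10], .l [0, 5, 10]]),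
([p 3 1, s 0 2, g, s 0 0, s 1 0, g, s 2 0, g, p 0 3, g], .hi 3, [.l [5, 8, 2, 2, 4, 1], .l [7, 10, 2, 2, 6, 1], .r 926 [1, 2, 4, 3] [1, 1, 1, 1, 1], .l [0, 5, 1], .y [3], .l [0, 3, 4, 8, 6, 3], .l [0, 3, 4], .l [6, 2, 4], .l [0, 3, 6, 8, 4, 5], .l [0, 3, 6], .l [8, 4, 6], .l [0, 3, 6], .l [5, 8, 2, 2, 4, 5], .l [0, 3, 8], .l [10, 6, 8]]),
([p 6 1, s 0 2, g, p 3 0, g, p 4 3, g, p 5 4, s 1 0, g, p 0 5, g, s 2 0, g, p 0 6, g], .hi 8, [.l [7, 10, 9, 9, 7, 7, 5, 9, 6, 6, 5], .l [8, 14, 6, 1, 10, 3, 7, 8, 2, 8, 6, 3], .l [10, 9, 12, 10, 6, 8, 7, 7, 5, 5, 3, 7, 5], .l [4, 14, 10, 5, 7, 6, 6, 4, 8, 5, 8, 2, 5], .l [10, 4, 6, 4, 4, 2, 4], .l [10, 9, 12, 8, 4, 6, 5, 5, 3, 9, 7, 3, 1], .l [0, 9, 11, 10, 10, 8, 8, 4, 6, 3, 8, 4,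 1], .l [6, 16, 9, 2, 12], .l [6, 16, 9, 2, 12], .l [0, 9, 11, 10, 10, 6, 6, 4, 6, 3, 8, 4, 1], .l [9, 12, 9, 14, 7, 2, 10], .l [8, 7, 12, 5, 1, 5, 1, 11, 7, 9, 7, 7, 5], .l [0, 7, 11, 10, 10, 8, 8, 6, 4, 1, 8, 6, 3], .l [8, 7, 10, 3, 1, 3, 1, 9, 7, 7, 5, 5, 3], .l [6, 12, 3, 5, 1, 8, 8, 6, 10, 4, 5], .l [13, 16, 2, 2, 8, 10, 9, 9, 7, 7, 5, 3, 5], .l [0, 7, 9, 8, 8, 6, 6, 4, 6, 3, 8, 4, 1], .l [6, 14, 5, 7, 1, 10, 10, 8, 10, 2, 5], .l [8, 13, 13, 10, 8, 11, 5, 2, 7, 7, 5, 7, 3], .l [0, 7, 9, 8, 8, 6, 6, 4, 8, 5, 8, 2, 3], .y [0, 8, 14], .l [6, 16, 7, 9, 1, 12, 5, 10, 1], .l [11, 14, 2, 2, 8, 10, 9, 9, 7, 7, 5, 3, 5], .l [8, 7, 10, 14, 10, 12, 11, 11, 9, 9, 7, 5, 1]]),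
([p 4 1, g, m 3 0, m 0 2, g, s 1 3, g, m 2 0, g, p 5 4, g, p 6 5, g, p 7 6, g, p 8 7, g, p 0 8, g], .hi 2, [.l [3, 11, 7, 8, 5, 6, 3], .l [1, 11, 9, 1], .l [2, 3], .l [12, 7, 8, 11, 8, 5, 8, 2, 6, 6, 4, 6, 2, 3, 5, 3, 3, 1], .l [1, 11, 9, 2, 6, 4, 1], .l [1, 11, 9, 2], .l [14, 7, 10, 13, 8, 5, 8, 2, 6, 8, 6, 8, 4, 5, 7, 5, 5, 1], .l [1, 11, 9, 4, 6, 2, 3], .l [1, 11, 9, 4], .l [5, 4, 10, 5, 8, 6, 12, 13, 12, 12, 10, 10, 8, 8, 3, 3, 4, 1], .l [1, 11, 9, 6, 3, 4, 1], .l [1, 11, 9, 6], .l [5, 4, 10, 5, 8, 4, 1, 2, 3], .l [1, 9, 7, 8, 5, 6, 3], .l [1, 9, 7, 8], .l [5, 4, 8, 3, 8, 1, 8, 3, 3, 4, 1], .l [1, 9, 7, 10, 7, 8, 5], .l [1, 9, 7, 10], .l [0, 4, 12, 9, 3, 8, 10, 7, 9, 5, 7, 1, 7, 3, 5, 1, 5, 3], .l [1, 9, 7, 12,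 9, 10, 7], .l [1, 9, 7, 12], .l [0, 4, 14, 11, 3, 10, 12, 9, 9, 7, 7, 5, 7, 5, 5, 1, 5, 3], .l [1, 9, 7, 14, 11, 12, 9], .l [1, 9, 7, 14], .l [0, 4, 6, 4, 14, 13, 13, 11, 11, 7, 7, 5, 5, 3, 3, 1, 5, 3], .y [0, 5, 2, 17, 15, 13, 11, 9], .l [1, 9, 7, 16, 13, 14, 11], .l [1, 9, 7, 16], .l [0, 4, 6, 4, 16, 15, 15, 13, 13, 9, 9, 7, 7, 5, 5, 3, 3, 1]]),
([p 4 1, g, m 3 0, m 0 2, g, s 1 3, g, m 2 0, g, p 5 4, g, p 6 5, g, p 7 6, g, p 0 7, g], .lo 15, [.l [1, 11, 9, 14, 9, 10, 7], .l [2, 16], .l [1, 11, 9, 14], .y [0, 5, 2, 15, 13, 11, 9], .l [4, 9, 7, 4, 4, 1, 6, 4, 9], .l [5, 16], .l [4, 9, 7, 4, 4, 1, 6, 4, 9], .l [6, 9, 5, 6, 6, 1, 6, 4, 9], .l [7, 16], .l [6, 9, 5, 6, 6, 1, 6, 4, 9], .l [6, 7, 3, 4, 4, 1, 4, 2, 7], .l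 [8, 3, 6, 9, 2, 12, 12, 10, 10, 8, 8, 1, 1, 4, 1], .l [9, 16], .l [8, 11, 2, 14], .l [10, 5, 8, 11, 6, 6, 2, 10, 10, 8, 8, 1, 1, 4, 1], .l [11, 16], .l [10, 13, 11, 11, 2, 12], .l [12, 7, 10, 13, 8, 8, 6, 6, 2, 8, 8, 1, 1, 4, 1], .l [13, 16], .l [12, 15, 13, 13, 11, 11, 2, 10], .l [14, 9, 12, 15, 10, 10, 8, 8, 6, 6, 2, 1, 1, 4, 1], .l [15, 16], .l [14, 17, 15, 15, 13, 13, 11, 11, 2, 1], .l [14, 15, 13, 13, 11, 11, 9, 3, 4, 1, 6, 0, 5], .r 929 [1, 2, 3, 4, 5, 6, 7, 8] [1, 1, 1, 1, 1, 1, 1, 1, 1], .l [14, 15, 13, 13, 11, 11, 9, 9, 0, 8]]),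
([p 4 1, g, m 3 0, m 0 2, g, s 1 3, g, m 2 0, g, p 5 4, g, p 6 5, g, p 0 6, g], .lo 13, [.l [1, 11, 9, 12, 7, 8, 5], .l [2, 14], .l [1, 11, 9, 12], .y [0, 5, 2, 13, 11, 9], .l [4, 9, 7, 4, 4, 1, 6, 4, 7], .l [5, 14], .l [4, 9, 7, 4, 4, 1, 6, 4, 7], .l [6, 9, 5, 6, 6, 1, 6, 4, 7], .l [7, 14], .l [6, 9, 5, 6, 6, 1, 6, 4, 7], .l [6, 7, 3, 4, 4, 1, 4, 2, 5], .l [8, 3, 6, 9, 2, 10, 10, 8, 8, 1, 1, 4, 1], .l [9, 14], .l [8, 11, 2, 12], .l [10, 5, 8, 11, 6, 6, 2, 8, 8, 1, 1, 4, 1], .l [11, 14], .l [10, 13, 11, 11, 2, 10], .l [12, 7, 10, 13, 8, 8, 6, 6, 2, 1, 1, 4, 1], .l [13, 14], .l [12, 15, 13, 13, 11, 11, 2, 1], .l [12, 13, 11, 11, 9, 3, 4, 1, 6, 0, 5], .r 930 [1, 2, 3, 4, 5, 6, 7] [1, 1, 1, 1, 1, 1, 1, 1], .l [12, 13,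 11, 11, 9, 9, 0, 8]]),
([p 4 1, g, m 3 0, m 0 2, g, s 1 3, g, m 2 0, g, p 5 4, g, p 0 5, g], .lo 11, [.l [1, 11, 9, 10, 5, 6, 3], .l [2, 12], .l [1, 11, 9, 10], .y [0, 5, 2, 11, 9], .l [4, 9, 7, 4, 4, 1, 6, 4, 5], .l [5, 12], .l [4, 9, 7, 4, 4, 1, 6, 4, 5], .l [6, 9, 5, 6, 6, 1, 6, 4, 5], .l [7, 12], .l [6, 9, 5, 6, 6, 1, 6, 4, 5], .l [6, 7, 3, 4, 4, 1, 4, 2, 3], .l [8, 3, 6, 9, 2, 8, 8, 1, 1, 4, 1], .l [9, 12], .l [8, 11, 2, 10], .l [10, 5, 8, 11, 6, 6, 2, 1, 1, 4, 1], .l [11, 12], .l [10, 13, 11, 11, 2, 1], .l [10, 11, 9, 3, 4, 1, 6, 0, 5], .r 931 [1, 2, 3, 4, 5, 6] [1, 1, 1, 1, 1, 1, 1], .l [10, 11, 9, 9, 0, 8]]),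
([p 4 1, g, m 3 0, m 0 2, g, s 1 3, g, m 2 0, g, p 0 4, g], .lo 9, [.l [1, 11, 9, 8, 3, 4, 1], .l [2, 10], .l [1, 11, 9, 8], .y [0, 5, 2, 9], .l [4, 9, 7, 4, 4, 1, 6, 4, 3], .l [5, 10], .l [4, 9, 7, 4, 4, 1, 6, 4, 3], .l [6, 9, 5, 6, 6, 1, 6, 4, 3], .l [7, 10], .l [6, 9, 5, 6, 6, 1, 6, 4, 3], .l [6, 7, 3, 4, 4, 1, 4, 2, 1], .l [8, 3, 6, 9, 2, 1, 1, 4, 1], .l [9, 10], .l [8, 11, 2, 1], .l [8, 3, 4, 1, 6, 0, 5], .r 932 [1, 2, 3, 4, 5] [1, 1, 1, 1, 1, 1], .l [8, 9, 0, 8]]),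
([p 8 1, g, m 4 0, m 0 2, g, m 2 3, g, s 1 4, g, m 3 5, g, m 5 6, g, m 6 7, g, m 7 0, g, p 0 8, g], .hi 2, [.l [8, 11, 9, 4, 1, 15, 10, 12, 9], .l [1, 19, 17, 1], .l [2, 3], .l [0, 6, 8, 6, 6, 4, 4, 3, 3, 1, 9, 7, 7, 5, 5, 3, 3, 1], .l [1, 19, 17, 2, 4, 2, 3], .l [1, 19, 17, 2], .l [0, 8, 10, 8, 8, 4, 6, 5, 5, 3, 11, 7, 9, 7, 7, 5, 5, 3], .l [1, 19, 17, 4, 8, 6, 6, 4, 1], .l [1, 19, 17, 4], .l [0, 8, 10, 6, 6, 4, 6, 5, 5, 3, 11, 7, 9, 7, 7, 5, 5, 3], .l [1, 19, 17, 6, 8, 4, 4, 2, 3], .l [1, 19, 17, 6], .l [2, 6, 10, 8, 4, 1, 14, 12, 12, 9, 11, 9, 9, 7, 7, 5, 5, 3], .l [1, 19, 17, 8, 10, 8, 8, 4, 4, 2, 3], .l [1, 19, 17, 8], .l [0, 6, 8, 6, 6, 4, 6, 5, 5, 3, 11, 7, 9, 7, 7, 5, 5, 3], .l [1, 19, 17, 10, 12, 10, 10, 8,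 8, 4, 4, 2, 3], .l [1, 19, 17, 10], .l [4, 13, 10, 2, 9, 5, 5, 5, 12, 6, 9], .l [1, 19, 17, 12, 14, 12, 12, 10, 10, 8, 8, 4, 4, 2, 3], .l [1, 19, 17, 12], .l [0, 6, 14, 9, 9, 7, 1, 9, 11, 5, 11, 3, 9, 1, 7, 5, 5, 3], .l [4, 17, 14, 2, 13, 9, 9, 9, 12, 2, 9], .l [1, 19, 17, 14], .l [4, 17, 14, 2, 13, 9, 9, 9, 12, 2, 9], .y [0, 7, 2, 17], .l [4, 19, 16, 2, 15, 11, 1, 12, 3], .l [1, 17, 15, 16], .l [4, 19, 16, 2, 15, 11, 1, 12, 3]]),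
([p 7 1, g, m 4 0, m 0 2, g, m 2 3, g, s 1 4, g, m 3 5, g, m 5 6, g, m 6 0, g, p 0 7, g], .hi 13, [.l [1, 17, 15, 12, 12, 10, 10, 8, 8, 4, 4, 2, 3], .l [1, 17, 15, 12], .l [2, 14], .y [3, 5, 9, 11, 13], .l [4, 7, 5, 6, 6, 1, 12, 10, 7], .l [0, 8, 3, 12, 12, 10, 10, 8, 10, 8, 8, 6, 1], .l [5, 14], .l [6, 11, 9, 9, 7, 4, 4, 1, 10, 8, 5], .l [6, 11, 9, 9, 7, 4, 4, 1, 10, 8, 5], .l [7, 14], .l [8, 11, 7, 7, 5, 6, 6, 1, 10, 8, 5], .l [8, 11, 7, 7, 5, 6, 6, 1, 10, 8, 5], .l [9, 14], .l [10, 13, 11, 11, 7, 7, 5, 6, 6, 1, 8, 6, 3], .l [10, 13, 11, 11, 7, 7, 5, 6, 6, 1, 8, 6, 3], .l [11, 14], .l [12, 15, 13, 13, 11, 11, 7, 7, 5, 6, 6, 1, 6, 4, 1], .l [12, 15, 13, 13, 11, 11, 7, 7, 5, 6, 6, 1, 6, 4, 1], .l [13, 14], .l [12, 13,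 11, 11, 9, 9, 5, 5, 3, 4, 4, 1, 6, 4, 1], .l [12, 13, 11, 11, 9, 9, 5, 5, 3, 4, 4, 1, 6, 4, 1], .r 934 [1, 2, 3, 4, 5, 6, 8, 7] [1, 1, 1, 1, 1, 1, 1, 1, 1], .l [12, 13, 11, 11, 9, 9, 5, 5, 3, 4, 4, 1, 4, 2, 1], .l [12, 13, 11, 11, 9, 9, 5, 5, 3, 4, 4, 1, 4, 2, 3], .l [7, 6, 14, 7, 9, 7, 7, 5, 5, 3, 3, 6, 4, 2, 3], .l [7, 6, 14, 7, 9, 7, 7, 5, 5, 3, 8, 4, 4, 2, 3]]),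
([p 6 1, g, m 4 0, m 0 2, g, m 2 3, g, s 1 4, g, m 3 5, g, m 5 0, g, p 0 6, g], .hi 11, [.l [1, 15, 13, 10, 10, 8, 8, 4, 4, 2, 3], .l [1, 15, 13, 10], .l [2, 12], .y [3, 5, 9, 11], .l [4, 7, 5, 6, 6, 1, 10, 8, 5], .l [0, 8, 3, 10, 10, 8, 10, 8, 8, 6, 1], .l [5, 12], .l [6, 11, 9, 9, 7, 4, 4, 1, 8, 6, 3], .l [6, 11, 9, 9, 7, 4, 4, 1, 8, 6, 3], .l [7, 12], .l [8, 11, 7, 7, 5, 6, 6, 1, 8, 6, 3], .l [8, 11, 7, 7, 5, 6, 6, 1, 8, 6, 3], .l [9, 12], .l [10, 13, 11, 11, 7, 7, 5, 6, 6, 1, 6, 4, 1], .l [10, 13, 11, 11, 7, 7, 5, 6, 6, 1, 6, 4, 1], .l [11, 12], .l [10, 11, 9, 9, 5, 5, 3, 4, 4, 1, 6, 4, 1], .l [10, 11, 9, 9, 5, 5, 3, 4, 4, 1, 6, 4, 1], .r 935 [1, 2, 3, 4, 5, 7, 6] [1, 1, 1, 1, 1, 1, 1, 1], .l [10, 11, 9, 9, 5, 5,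 3, 4, 4, 1, 4, 2, 1], .l [10, 11, 9, 9, 5, 5, 3, 4, 4, 1, 4, 2, 3], .l [7, 6, 12, 5, 7, 5, 5, 3, 3, 6, 4, 2, 3], .l [7, 6, 12, 5, 7, 5, 5, 3, 8, 4, 4, 2, 3]]),
([p 5 1, g, m 4 0, m 0 2, g, m 2 3, g, s 1 4, g, m 3 0, g, p 0 5, g], .hi 9, [.l [1, 13, 11, 8, 8, 4, 4, 2, 3], .l [1, 13, 11, 8], .l [2, 10], .y [3, 5, 9], .l [4, 7, 5, 6, 6, 1, 8, 6, 3], .l [0, 8, 3, 8, 10, 8, 8, 6, 1], .l [5, 10], .l [6, 11, 9, 9, 7, 4, 4, 1, 6, 4, 1], .l [6, 11, 9, 9, 7, 4, 4, 1, 6, 4, 1], .l [7, 10], .l [8, 11, 7, 7, 5, 6, 6, 1, 6, 4, 1], .l [8, 11, 7, 7, 5, 6, 6, 1, 6, 4, 1], .l [9, 10], .l [8, 9, 5, 5, 3, 4, 4, 1, 6, 4, 1], .l [8, 9, 5, 5, 3, 4, 4, 1, 6, 4, 1], .r 936 [1, 2, 3, 4, 6, 5] [1, 1, 1, 1, 1, 1, 1], .l [8, 9, 5, 5, 3, 4, 4, 1,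 4, 2, 1], .l [8, 9, 5, 5, 3, 4, 4, 1, 4, 2, 3], .l [7, 6, 10, 3, 5, 3, 3, 6, 4, 2, 3], .l [7, 6, 10, 3, 5, 3, 8, 4, 4, 2, 3]]),
([p 6 1, s 0 0, g, m 5 0, m 0 2, g, m 2 3, g, m 3 4, g, m 4 0, g, s 1 5, g, p 0 6, g], .hi 1, [.y [1], .l [10, 12, 11, 11, 9, 9, 7, 8, 8, 4, 1, 7, 3], .l [2, 16, 13, 13, 1], .r 578 [1, 7, 6] [1, 10, 1, 1], .l [12, 8, 13, 1, 4, 2, 9], .l [8, 10, 9, 15, 7, 1, 9, 4, 4, 2, 7, 3, 1], .l [0, 16, 15, 4, 6, 4, 9], .l [14, 10, 15, 1, 4, 2, 9], .l [6, 10, 9, 15, 9, 3, 11, 4, 4, 2, 5, 1, 5], .l [0, 16, 15, 6, 8, 6, 6, 4, 7], .l [4, 16, 11, 1, 13, 4, 4, 2, 7], .l [0, 16, 15, 8, 10, 8, 8, 6, 6, 4, 5, 7, 1], .l [0, 16, 15, 8, 10, 8, 8, 6, 6, 4, 5], .l [4, 16, 11, 1, 13, 4, 4, 2, 5], .l [8, 10, 9, 9, 7, 13,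 7, 1, 9, 4, 4, 2, 3], .l [3, 13, 13, 2, 10], .l [4, 16, 11, 1, 13, 4, 4, 2, 3], .l [8, 10, 9, 9, 7, 13, 7, 1, 9, 6, 6, 2, 3], .l [3, 11, 11, 2, 10], .l [4, 16, 11, 1, 13, 6, 6, 2, 3], .l [3, 11, 11, 2, 10], .l [6, 8, 7, 13, 7, 1, 9, 4, 4, 2, 7, 3, 1], .l [3, 11, 11, 2, 12], .l [5, 16, 11, 1, 13, 5, 5, 9, 1, 8, 3]]),
([p 6 1, g, m 5 0, m 0 2, g, m 2 3, g, m 3 4, g, m 4 0, g, s 1 5, g, p 0 6, g], .top 1, [.r 444 [] [12], .r 938 [1, 2, 3, 4, 5, 6] [1, 1, 1, 1, 1, 1, 1], .r 334 [] [14], .r 444 [] [14]]),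
([p 8 1, g, m 5 0, m 0 2, g, m 2 3, g, m 3 4, g, s 1 5, g, m 4 6, g, m 6 7, g, m 7 0, g, p 0 8, g], .hi 2, [.l [10, 13, 11, 11, 9, 4, 1, 13, 8, 10, 7], .l [1, 19, 17, 1], .l [2, 3], .l [0, 8, 10, 8, 8, 6, 6, 4, 4, 3, 3, 1, 7, 5, 5, 3, 3, 1], .l [1, 19, 17, 2, 4, 2, 5], .l [1, 19, 17, 2], .l [0, 10, 12, 10, 10, 8, 8, 4, 6, 5, 5, 3, 9, 5, 7, 5, 5, 3], .l [1, 19, 17, 4, 6, 4, 4, 2, 3], .l [1, 19, 17, 4], .l [0, 10, 12, 10, 10, 6, 6, 4, 6, 5, 5, 3, 9, 5, 7, 5, 5, 3], .l [1, 19, 17, 6, 10, 8, 8, 6, 6, 4, 1], .l [1, 19, 17, 6], .l [0, 10, 12, 8, 8, 6, 6, 4, 6, 5, 5, 3, 9, 5, 7, 5, 5, 3], .l [1, 19, 17, 8, 10, 6, 6, 4, 4, 2, 3], .l [1, 19, 17, 8], .l [2, 8, 12, 10, 10, 8, 4, 1, 12, 10, 10, 7, 9, 7, 7, 5, 5, 3], .l [1, 19,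 17, 10, 12, 10, 10, 6, 6, 4, 4, 2, 3], .l [1, 19, 17, 10], .l [0, 8, 10, 8, 8, 6, 6, 4, 6, 5, 5, 3, 9, 5, 7, 5, 5, 3], .l [1, 19, 17, 12, 14, 12, 12, 10, 10, 6, 6, 4, 4, 2, 3], .l [1, 19, 17, 12], .l [3, 19, 15, 1, 16, 11, 5, 9, 11, 5, 5, 3, 7, 5, 3, 1, 1, 3], .l [4, 17, 14, 2, 13, 7, 7, 9, 12, 2, 9], .l [1, 19, 17, 14], .l [3, 17, 15, 3, 14, 7, 9, 7, 7, 5, 11, 3, 3, 5, 1, 5, 3, 3], .y [0, 9, 2, 17], .l [4, 19, 16, 2, 15, 9, 9, 11, 1, 10, 1], .l [1, 17, 15, 16], .l [3, 19, 17, 3, 16, 9, 11, 9, 9, 7, 7, 5, 7, 5, 1, 3, 1, 3]]),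
([p 7 1, g, m 5 0, m 0 2, g, m 2 3, g, m 3 4, g, s 1 5, g, m 4 6, g, m 6 0, g, p 0 7, g], .hi 13, [.l [1, 17, 15, 12, 12, 10, 10, 6, 6, 4, 4, 2, 3], .l [1, 17, 15, 12], .l [2, 14], .y [3, 5, 7, 11, 13], .l [4, 7, 5, 8, 8, 1, 12, 10, 7], .l [0, 10, 5, 12, 12, 10, 12, 10, 10, 8, 3], .l [5, 14], .l [6, 9, 7, 7, 5, 6, 6, 1, 10, 8, 5], .l [0, 10, 3, 12, 14, 10, 12, 5, 1, 3, 5, 1, 3, 4, 1], .l [7, 14], .l [8, 13, 11, 11, 9, 9, 7, 4, 4, 1, 8, 6, 3], .l [8, 13, 11, 11, 9, 9, 7, 4, 4, 1, 8, 6, 3], .l [9, 14], .l [10, 13, 9, 9, 7, 7, 5, 6, 6, 1, 8, 6, 3], .l [10, 13, 9, 9, 7, 7, 5, 6, 6, 1, 8, 6, 3], .l [11, 14], .l [12, 15, 13, 13, 9, 9, 7, 7, 5, 6, 6, 1, 6, 4, 1], .l [12, 15, 13, 13, 9, 9, 7, 7, 5, 6, 6, 1, 6, 4, 1], .l [13,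 14], .l [12, 13, 11, 11, 7, 7, 5, 5, 3, 4, 4, 1, 6, 4, 1], .l [12, 13, 11, 11, 7, 7, 5, 5, 3, 4, 4, 1, 6, 4, 1], .r 940 [1, 2, 3, 4, 5, 6, 8, 7] [1, 1, 1, 1, 1, 1, 1, 1, 1], .l [12, 13, 11, 11, 7, 7, 5, 5, 3, 4, 4, 1, 4, 2, 1], .l [12, 13, 11, 11, 7, 7, 5, 5, 3, 4, 4, 1, 4, 2, 3], .l [12, 13, 11, 11, 7, 7, 5, 5, 3, 4, 4, 1, 4, 2, 3], .l [9, 8, 14, 5, 7, 5, 5, 3, 10, 6, 6, 4, 4, 2, 3]]),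
([p 6 1, g, m 5 0, m 0 2, g, m 2 3, g, m 3 4, g, s 1 5, g, m 4 0, g, p 0 6, g], .hi 11, [.l [1, 15, 13, 10, 10, 6, 6, 4, 4, 2, 3], .l [1, 15, 13, 10], .l [2, 12], .y [3, 5, 7, 11], .l [4, 7, 5, 8, 8, 1, 10, 8, 5], .l [0, 10, 5, 10, 12, 10, 10, 8, 3], .l [5, 12], .l [6, 9, 7, 7, 5, 6, 6, 1, 8, 6, 3], .l [4, 5, 3, 8, 3, 8, 8, 1, 6, 1, 6, 4, 1], .l [7, 12], .l [8, 13, 11, 11, 9, 9, 7, 4, 4, 1, 6, 4, 1], .l [8, 13, 11, 11, 9, 9, 7, 4, 4, 1, 6, 4, 1], .l [9, 12], .l [10, 13, 9, 9, 7, 7, 5, 6, 6, 1, 6, 4, 1], .l [10, 13, 9, 9, 7, 7, 5, 6, 6, 1, 6, 4, 1], .l [11, 12], .l [10, 11, 7, 7, 5, 5, 3, 4, 4, 1, 6, 4, 1], .l [10, 11, 7, 7, 5, 5, 3, 4, 4, 1, 6, 4, 1], .r 941 [1, 2, 3, 4, 5, 7, 6] [1, 1, 1, 1, 1, 1, 1, 1], .l [10, 11,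 7, 7, 5, 5, 3, 4, 4, 1, 4, 2, 1], .l [10, 11, 7, 7, 5, 5, 3, 4, 4, 1, 4, 2, 3], .l [10, 11, 7, 7, 5, 5, 3, 4, 4, 1, 4, 2, 3], .l [9, 8, 12, 3, 5, 3, 10, 6, 6, 4, 4, 2, 3]]),
([p 5 1, g, m 4 0, m 0 2, g, m 2 3, g, m 3 0, g, s 1 4, g, p 0 5, g], .hi 7, [.l [1, 13, 11, 6, 6, 4, 4, 2, 3], .l [1, 13, 11, 6], .l [2, 8], .y [3, 5, 7], .l [4, 7, 5, 8, 8, 1, 8, 6, 3], .l [2, 10, 5, 3, 3, 1, 6, 1, 6, 4, 1], .l [5, 8], .l [6, 9, 7, 7, 5, 6, 6, 1, 6, 4, 1], .l [4, 5, 3, 8, 3, 1, 6, 1, 6, 4, 1], .l [7, 8], .l [6, 7, 5, 5, 3, 6, 6, 1, 6, 4, 1], .l [6, 7, 5, 5, 3, 6, 6, 1, 6, 4, 1], .r 939 [1, 2, 3, 6, 4, 5] [1, 1, 1, 1, 1, 1, 1], .l [6, 7, 5, 5, 3, 4, 4, 1, 6, 4, 1], .l [4, 5, 3, 6, 1, 6, 8, 4, 1], .r 942 [1, 2, 3, 6, 4, 5] [1, 1,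 1, 1, 1, 1, 1], .l [4, 5, 3, 6, 1, 6, 6, 2, 1], .l [6, 7, 5, 5, 3, 4, 4, 1, 4, 2, 3], .l [6, 7, 5, 5, 3, 4, 4, 1, 4, 2, 3], .l [9, 8, 10, 1, 10, 6, 6, 4, 4, 2, 3]]),
([p 4 1, g, m 3 0, m 0 2, g, m 2 0, g, s 1 3, g, p 0 4, g], .hi 5, [.l [1, 11, 9, 4, 4, 2, 3], .l [1, 11, 9, 4], .l [2, 6], .y [3, 5], .l [4, 7, 5, 6, 6, 1, 6, 4, 1], .l [2, 8, 3, 1, 6, 1, 6, 4, 1], .l [5, 6], .l [4, 5, 3, 6, 6, 1, 6, 4, 1], .l [4, 5, 3, 6, 6, 1, 6, 4, 1], .r 943 [1, 2, 5, 3, 4] [1, 1, 1, 1, 1, 1], .l [4, 5, 3, 4, 4, 1, 6, 4, 1], .l [0, 6, 1, 6, 8, 6, 6, 4, 1], .r 937 [1, 2, 5, 3, 4] [1, 1, 1, 1, 1, 1], .l [0, 6, 1, 6, 6, 4, 4, 2, 1], .l [4, 5, 3, 4, 4, 1, 4, 2, 3], .l [4, 5, 3, 4, 4, 1, 4, 2, 3], .l [7, 6, 8, 1, 8, 4, 4, 2, 3]]),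
([p 3 1, g, m 2 0, m 0 0, g, s 1 2, g, p 0 3, g], .hi 3, [.l [1, 9, 7, 2, 3], .l [1, 9, 7, 2], .l [2, 4], .y [3], .l [2, 6, 6, 1, 6, 4, 1], .l [2, 6, 6, 1, 6, 4, 1], .r 944 [1, 4, 2, 3] [1, 1, 1, 1, 1], .l [2, 4, 4, 1, 6, 4, 1], .l [2, 4, 4, 1, 6, 4, 1], .r 933 [1, 4, 2, 3] [1, 1, 1, 1, 1], .l [2, 4, 4, 1, 4, 2, 1], .l [2, 4, 4, 1, 4, 2, 3], .l [2, 4, 4, 1, 4, 2, 3], .l [5, 4, 6, 1, 6, 2, 3]]),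
([p 8 1, g, m 3 0, p 2 0, g, p 4 2, g, s 1 3, g, p 5 4, g, p 6 5, g, p 7 6, g, p 0 7, g, p 0 8, g], .hi 2, [.l [8, 11, 9, 4, 1, 15, 10, 12, 9], .l [1, 19, 17, 1], .l [2, 3], .l [1, 19, 17, 2, 4, 2, 3], .l [1, 19, 17, 2], .l [0, 8, 10, 8, 8, 4, 6, 5, 5, 3, 11, 7, 9, 7, 7, 5, 5, 3], .l [1, 19, 17, 4, 8, 6, 6, 4, 1], .l [1, 19, 17, 4], .l [0, 8, 10, 6, 6, 4, 6, 5, 5, 3, 11, 7, 9, 7, 7, 5, 5, 3], .l [1, 19, 17, 6, 8, 4, 4, 2, 3], .l [1, 19, 17, 6], .l [2, 6, 10, 8, 4, 1, 14, 12, 12, 9, 11, 9, 9, 7, 7, 5, 5, 3], .l [1, 19, 17, 8, 10, 8, 8, 4, 4, 2, 3], .l [1, 19, 17, 8], .l [0, 6, 8, 6, 6, 4, 6, 5, 5, 3, 11, 7, 9, 7, 7, 5, 5, 3], .l [1, 19, 17, 10, 12, 10, 10, 8, 8, 4, 4, 2, 3], .l [1, 19, 17, 10], .l [4, 13, 10, 2, 9, 5,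 5, 5, 12, 6, 9], .l [1, 19, 17, 12, 14, 12, 12, 10, 10, 8, 8, 4, 4, 2, 3], .l [1, 19, 17, 12], .l [0, 6, 14, 9, 9, 7, 1, 9, 11, 5, 11, 3, 9, 1, 7, 5, 5, 3], .l [1, 17, 15, 12], .l [4, 17, 14, 2, 13, 9, 9, 9, 12, 2, 9], .l [1, 19, 17, 14], .l [4, 17, 14, 2, 13, 9, 9, 9, 12, 2, 9], .y [0, 7, 2, 17], .l [4, 19, 16, 2, 15, 11, 1, 12, 3], .l [1, 17, 15, 16], .l [4, 19, 16, 2, 15, 11, 1, 12, 3]]),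
([p 7 1, g, m 3 0, p 2 0, g, p 4 2, g, s 1 3, g, p 5 4, g, p 6 5, g, p 0 6, g, p 0 7, g], .lo 13, [.l [1, 17, 15, 12, 12, 10, 10, 8, 8, 4, 4, 2, 3], .l [2, 14], .l [1, 17, 15, 12], .l [1, 15, 13, 10], .y [3, 13, 11, 9, 5], .l [4, 7, 5, 6, 6, 1, 12, 10, 7], .l [5, 14], .l [0, 8, 3, 12, 12, 10, 10, 8, 10, 8, 8, 6, 1], .l [6, 11, 9, 9, 7, 4, 4, 1, 10, 8, 5], .l [7, 14], .l [6, 11, 9, 9, 7, 4, 4, 1, 10, 8, 5], .l [8, 11, 7, 7, 5, 6, 6, 1, 10, 8, 5], .l [9, 14], .l [8, 11, 7, 7, 5, 6, 6, 1, 10, 8, 5], .l [10, 13, 11, 11, 7, 7, 5, 6, 6, 1, 8, 6, 3], .l [11, 14], .l [10, 13, 11, 11, 7, 7, 5, 6, 6, 1, 8, 6, 3], .l [12, 15, 13, 13, 11, 11, 7, 7, 5, 6, 6, 1, 6, 4, 1], .l [13, 14], .l [12, 15, 13, 13, 11, 11, 7, 7, 5, 6, 6, 1,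 6, 4, 1], .l [12, 13, 11, 11, 9, 9, 5, 5, 3, 4, 4, 1, 6, 4, 1], .r 946 [1, 2, 3, 4, 5, 6, 8, 7] [1, 1, 1, 1, 1, 1, 1, 1, 1], .l [12, 13, 11, 11, 9, 9, 5, 5, 3, 4, 4, 1, 6, 4, 1], .l [12, 13, 11, 11, 9, 9, 5, 5, 3, 4, 4, 1, 4, 2, 3], .l [7, 6, 14, 7, 9, 7, 7, 5, 5, 3, 8, 4, 4, 2, 3], .l [7, 6, 14, 7, 9, 7, 7, 5, 5, 3, 3, 6, 4, 2, 3]]),
([p 6 1, g, m 3 0, p 2 0, g, p 4 2, g, s 1 3, g, p 5 4, g, p 0 5, g, p 0 6, g], .lo 11, [.l [1, 15, 13, 10, 10, 8, 8, 4, 4, 2, 3], .l [2, 12], .l [1, 15, 13, 10], .l [1, 13, 11, 8], .y [3, 11, 9, 5], .l [4, 7, 5, 6, 6, 1, 10, 8, 5], .l [5, 12], .l [0, 8, 3, 10, 10, 8, 10, 8, 8, 6, 1], .l [6, 11, 9, 9, 7, 4, 4, 1, 8, 6, 3], .l [7, 12], .l [6, 11, 9, 9, 7, 4, 4, 1, 8, 6, 3], .l [8, 11, 7,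 7, 5, 6, 6, 1, 8, 6, 3], .l [9, 12], .l [8, 11, 7, 7, 5, 6, 6, 1, 8, 6, 3], .l [10, 13, 11, 11, 7, 7, 5, 6, 6, 1, 6, 4, 1], .l [11, 12], .l [10, 13, 11, 11, 7, 7, 5, 6, 6, 1, 6, 4, 1], .l [10, 11, 9, 9, 5, 5, 3, 4, 4, 1, 6, 4, 1], .r 947 [1, 2, 3, 4, 5, 7, 6] [1, 1, 1, 1, 1, 1, 1, 1], .l [10, 11, 9, 9, 5, 5, 3, 4, 4, 1, 6, 4, 1], .l [10, 11, 9, 9, 5, 5, 3, 4, 4, 1, 4, 2, 3], .l [7, 6, 12, 5, 7, 5, 5, 3, 8, 4, 4, 2, 3], .l [7, 6, 12, 5, 7, 5, 5, 3, 3, 6, 4, 2, 3]]),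
([p 5 1, g, m 3 0, p 2 0, g, p 4 2, g, s 1 3, g, p 0 4, g, p 0 5, g], .lo 9, [.l [1, 13, 11, 8, 8, 4, 4, 2, 3], .l [2, 10], .l [1, 13, 11, 8], .l [1, 11, 9, 6], .y [3, 9, 5], .l [4, 7, 5, 6, 6, 1, 8, 6, 3], .l [5, 10], .l [0, 8, 3, 8, 10, 8, 8, 6, 1], .l [6, 11, 9, 9, 7, 4, 4, 1, 6, 4, 1], .l [7, 10], .l [6, 11, 9, 9, 7, 4, 4, 1, 6, 4, 1], .l [8, 11, 7, 7, 5, 6, 6, 1, 6, 4, 1], .l [9, 10], .l [8, 11, 7, 7, 5, 6, 6, 1, 6, 4, 1], .l [8, 9, 5, 5, 3, 4, 4, 1, 6, 4, 1], .r 948 [1, 2, 3, 4, 6, 5] [1, 1, 1, 1, 1, 1, 1], .l [8, 9, 5, 5, 3, 4, 4, 1, 6, 4, 1], .l [8, 9, 5, 5, 3, 4, 4, 1, 4, 2, 3], .l [7, 6, 10, 3, 5, 3, 8, 4, 4, 2, 3], .l [7, 6, 10, 3, 5, 3, 3, 6, 4, 2, 3]]),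
([p 6 1, s 0 0, g, m 5 0, p 2 0, g, p 3 2, g, p 4 3, g, p 0 4, g, s 1 5, g, p 0 6, g], .hi 1, [.y [1], .l [10, 12, 11, 11, 9, 9, 7, 8, 8, 4, 1, 7, 3], .l [2, 16, 13, 13, 1], .r 578 [1, 7, 6] [1, 10, 1, 1], .l [8, 10, 9, 15, 7, 1, 9, 4, 4, 2, 7, 3, 1], .l [0, 16, 15, 4, 6, 4, 9], .l [14, 10, 15, 1, 4, 2, 9], .l [6, 10, 9, 15, 9, 3, 11, 4, 4, 2, 5, 1, 5], .l [0, 16, 15, 6, 8, 6, 6, 4, 7], .l [4, 16, 11, 1, 13, 4, 4, 2, 7], .l [0, 16, 15, 8, 10, 8, 8, 6, 6, 4, 5, 7, 1], .l [0, 16, 15, 8, 10, 8, 8, 6, 6, 4, 5], .l [4, 16, 11, 1, 13, 4, 4, 2, 5], .l [0, 14, 13, 8, 8, 6, 6, 4, 4, 2, 3], .l [8, 10, 9, 9, 7, 13, 7, 1, 9, 4, 4, 2, 3], .l [3, 13, 13, 2, 10], .l [4, 16, 11, 1, 13, 4, 4, 2, 3], .l [8, 10, 9, 9, 7, 13, 7, 1, 9,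 6, 6, 2, 3], .l [3, 11, 11, 2, 10], .l [4, 16, 11, 1, 13, 6, 6, 2, 3], .l [3, 11, 11, 2, 10], .l [6, 8, 7, 13, 7, 1, 9, 4, 4, 2, 7, 3, 1], .l [3, 11, 11, 2, 12], .l [5, 16, 11, 1, 13, 5, 5, 9, 1, 8, 3]]),
([p 6 1, g, m 5 0, p 2 0, g, p 3 2, g, p 4 3, g, p 0 4, g, s 1 5, g, p 0 6, g], .top 1, [.r 444 [] [12], .r 950 [1, 2, 3, 4, 5, 6] [1, 1, 1, 1, 1, 1, 1], .r 334 [] [14], .r 444 [] [14]]),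
([p 8 1, g, m 4 0, p 2 0, g, p 3 2, g, p 5 3, g, s 1 4, g, p 6 5, g, p 7 6, g, p 0 7, g, p 0 8, g], .hi 2, [.l [10, 13, 11, 11, 9, 4, 1, 13, 8, 10, 7], .l [1, 19, 17, 1], .l [2, 3], .l [1, 19, 17, 2, 4, 2, 5], .l [1, 19, 17, 2], .l [0, 10, 12, 10, 10, 8, 8, 4, 6, 5, 5, 3, 9, 5, 7, 5, 5, 3], .l [1, 19, 17, 4, 6, 4, 4, 2, 3], .l [1, 19, 17, 4], .l [0, 10, 12, 10, 10, 6, 6, 4, 6, 5, 5, 3, 9, 5, 7, 5, 5, 3], .l [1, 19, 17, 6, 10, 8, 8, 6, 6, 4, 1], .l [1, 19, 17, 6], .l [0, 10, 12, 8, 8, 6, 6, 4, 6, 5, 5, 3, 9, 5, 7, 5, 5, 3], .l [1, 19, 17, 8, 10, 6, 6, 4, 4, 2, 3], .l [1, 19, 17, 8], .l [2, 8, 12, 10, 10, 8, 4, 1, 12, 10, 10, 7, 9, 7, 7, 5, 5, 3], .l [1, 19, 17, 10, 12, 10, 10, 6, 6, 4, 4, 2, 3], .l [1, 19, 17, 10], .l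 [0, 8, 10, 8, 8, 6, 6, 4, 6, 5, 5, 3, 9, 5, 7, 5, 5, 3], .l [1, 19, 17, 12, 14, 12, 12, 10, 10, 6, 6, 4, 4, 2, 3], .l [1, 19, 17, 12], .l [3, 19, 15, 1, 16, 11, 5, 9, 11, 5, 5, 3, 7, 5, 3, 1, 1, 3], .l [1, 17, 15, 12], .l [4, 17, 14, 2, 13, 7, 7, 9, 12, 2, 9], .l [1, 19, 17, 14], .l [3, 17, 15, 3, 14, 7, 9, 7, 7, 5, 11, 3, 3, 5, 1, 5, 3, 3], .y [0, 9, 2, 17], .l [4, 19, 16, 2, 15, 9, 9, 11, 1, 10, 1], .l [1, 17, 15, 16], .l [3, 19, 17, 3, 16, 9, 11, 9, 9, 7, 7, 5, 7, 5, 1, 3, 1, 3]]),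
([p 7 1, g, m 4 0, p 2 0, g, p 3 2, g, p 5 3, g, s 1 4, g, p 6 5, g, p 0 6, g, p 0 7, g], .lo 13, [.l [1, 17, 15, 12, 12, 10, 10, 6, 6, 4, 4, 2, 3], .l [2, 14], .l [1, 17, 15, 12], .l [1, 15, 13, 10], .y [3, 13, 11, 7, 5], .l [4, 7, 5, 8, 8, 1, 12, 10, 7], .l [5, 14], .l [0, 10, 5, 12, 12, 10, 12, 10, 10, 8, 3], .l [6, 9, 7, 7, 5, 6, 6, 1, 10, 8, 5], .l [7, 14], .l [0, 10, 3, 12, 14, 10, 12, 5, 1, 3, 5, 1, 3, 4, 1], .l [8, 13, 11, 11, 9, 9, 7, 4, 4, 1, 8, 6, 3], .l [9, 14], .l [8, 13, 11, 11, 9, 9, 7, 4, 4, 1, 8, 6, 3], .l [10, 13, 9, 9, 7, 7, 5, 6, 6, 1, 8, 6, 3], .l [11, 14], .l [10, 13, 9, 9, 7, 7, 5, 6, 6, 1, 8, 6, 3], .l [12, 15, 13, 13, 9, 9, 7, 7, 5, 6, 6, 1, 6, 4, 1], .l [13, 14], .l [12, 15, 13, 13, 9, 9, 7,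 7, 5, 6, 6, 1, 6, 4, 1], .l [12, 13, 11, 11, 7, 7, 5, 5, 3, 4, 4, 1, 6, 4, 1], .r 952 [1, 2, 3, 4, 5, 6, 8, 7] [1, 1, 1, 1, 1, 1, 1, 1, 1], .l [12, 13, 11, 11, 7, 7, 5, 5, 3, 4, 4, 1, 6, 4, 1], .l [12, 13, 11, 11, 7, 7, 5, 5, 3, 4, 4, 1, 4, 2, 3], .l [9, 8, 14, 5, 7, 5, 5, 3, 10, 6, 6, 4, 4, 2, 3], .l [12, 13, 11, 11, 7, 7, 5, 5, 3, 4, 4, 1, 4, 2, 3]]),
([p 6 1, g, m 4 0, p 2 0, g, p 3 2, g, p 5 3, g, s 1 4, g, p 0 5, g, p 0 6, g], .lo 11, [.l [1, 15, 13, 10, 10, 6, 6, 4, 4, 2, 3], .l [2, 12], .l [1, 15, 13, 10], .l [1, 13, 11, 8], .y [3, 11, 7, 5], .l [4, 7, 5, 8, 8, 1, 10, 8, 5], .l [5, 12], .l [0, 10, 5, 10, 12, 10, 10, 8, 3], .l [6, 9, 7, 7, 5, 6, 6, 1, 8, 6, 3], .l [7, 12], .l [4, 5, 3, 8, 3, 8, 8, 1, 6, 1, 6,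 4, 1], .l [8, 13, 11, 11, 9, 9, 7, 4, 4, 1, 6, 4, 1], .l [9, 12], .l [8, 13, 11, 11, 9, 9, 7, 4, 4, 1, 6, 4, 1], .l [10, 13, 9, 9, 7, 7, 5, 6, 6, 1, 6, 4, 1], .l [11, 12], .l [10, 13, 9, 9, 7, 7, 5, 6, 6, 1, 6, 4, 1], .l [10, 11, 7, 7, 5, 5, 3, 4, 4, 1, 6, 4, 1], .r 953 [1, 2, 3, 4, 5, 7, 6] [1, 1, 1, 1, 1, 1, 1, 1], .l [10, 11, 7, 7, 5, 5, 3, 4, 4, 1, 6, 4, 1], .l [10, 11, 7, 7, 5, 5, 3, 4, 4, 1, 4, 2, 3], .l [9, 8, 12, 3, 5, 3, 10, 6, 6, 4, 4, 2, 3], .l [10, 11, 7, 7, 5, 5, 3, 4, 4, 1, 4, 2, 3]]),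
([p 5 1, g, m 4 0, p 2 0, g, p 3 2, g, p 0 3, g, s 1 4, g, p 0 5, g], .lo 7, [.l [1, 13, 11, 6, 6, 4, 4, 2, 3], .l [2, 8], .l [1, 13, 11, 6], .l [1, 11, 9, 4], .y [3, 7, 5], .l [4, 7, 5, 8, 8, 1, 8, 6, 3], .l [5, 8], .l [2, 10, 5, 3, 3, 1, 6, 1, 6, 4, 1], .l [6, 9, 7, 7, 5, 6, 6, 1, 6, 4, 1], .l [7, 8], .l [4, 5, 3, 8, 3, 1, 6, 1, 6, 4, 1], .l [6, 7, 5, 5, 3, 6, 6, 1, 6, 4, 1], .r 951 [1, 2, 3, 6, 4, 5] [1, 1, 1, 1, 1, 1, 1], .l [6, 7, 5, 5, 3, 6, 6, 1, 6, 4, 1], .l [6, 7, 5, 5, 3, 4, 4, 1, 6, 4, 1], .r 954 [1, 2, 3, 4, 6, 5] [1, 1, 1, 1, 1, 1, 1], .l [4, 5, 3, 6, 1, 6, 8, 4, 1], .l [6, 7, 5, 5, 3, 4, 4, 1, 4, 2, 3], .l [9, 8, 10, 1, 10, 6, 6, 4, 4, 2, 3], .l [6, 7, 5, 5, 3, 4, 4, 1, 4, 2, 3]]),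
([p 4 1, g, m 3 0, p 2 0, g, p 0 2, g, s 1 3, g, p 0 4, g], .lo 5, [.l [1, 11, 9, 4, 4, 2, 3], .l [2, 6], .l [1, 11, 9, 4], .l [1, 9, 7, 2], .y [3, 5], .l [4, 7, 5, 6, 6, 1, 6, 4, 1], .l [5, 6], .l [2, 8, 3, 1, 6, 1, 6, 4, 1], .l [4, 5, 3, 6, 6, 1, 6, 4, 1], .r 955 [1, 2, 5, 3, 4] [1, 1, 1, 1, 1, 1], .l [4, 5, 3, 6, 6, 1, 6, 4, 1], .l [4, 5, 3, 4, 4, 1, 6, 4, 1], .r 949 [1, 2, 3, 5, 4] [1, 1, 1, 1, 1, 1], .l [0, 6, 1, 6, 8, 6, 6, 4, 1], .l [4, 5, 3, 4, 4, 1, 4, 2, 3], .l [7, 6, 8, 1, 8, 4, 4, 2, 3], .l [4, 5, 3, 4, 4, 1, 4, 2, 3]]),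
([p 5 1, g, p 2 0, g, m 3 0, p 4 2, g, s 1 3, g, p 0 4, g, p 6 5, g, p 7 6, g, p 8 7, g, p 0 8, g], .hi 4, [.l [5, 7, 5, 11, 7, 8, 5, 6, 3], .l [1, 13, 11, 3], .l [2, 5], .l [5, 7, 3, 11, 9, 2, 6, 4, 1], .l [3, 7, 5, 11, 9, 1], .l [4, 5], .l [3, 5, 3, 11, 9, 2, 6, 4, 1], .l [3, 5, 3, 11, 9, 2], .l [15, 6, 10, 7, 13, 11, 11, 9, 11, 1, 5, 3, 9, 5, 7, 5, 3, 1], .l [3, 5, 3, 11, 9, 4, 6, 2, 3], .l [3, 5, 3, 11, 9, 4], .l [7, 6, 16, 10, 12, 7, 1, 9, 13, 7, 7, 5, 1, 7, 1, 3, 1, 3], .l [3, 5, 3, 9, 7, 4], .l [3, 5, 3, 11, 9, 6, 3, 4, 1], .l [3, 5, 3, 11, 9, 6], .l [7, 6, 12, 5, 8, 4, 1, 2, 3], .l [3, 5, 3, 9, 7, 8, 5, 6, 3], .l [3, 5, 3, 9, 7, 8], .l [0, 6, 12, 9, 5, 8, 10, 7, 9, 5, 1, 5, 7, 3, 5, 1, 5, 3], .l [3, 5, 3, 9,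 7, 10, 7, 8, 5], .l [0, 6, 2, 12, 14, 12, 12, 10, 10, 6, 8, 4, 6, 1, 7, 3, 3, 1], .l [0, 6, 8, 6, 12, 11, 11, 7, 1, 7, 9, 5, 5, 3, 5, 1, 5, 3], .l [3, 5, 3, 9, 7, 12, 9, 10, 7], .l [3, 5, 3, 9, 7, 12], .l [0, 6, 8, 6, 6, 3, 5, 3, 5, 1, 9, 7, 7, 3, 3, 1, 5, 3], .y [0, 7, 4, 17, 15, 13, 11], .l [3, 5, 3, 9, 7, 14, 11, 12, 9], .l [3, 5, 3, 9, 7, 14], .l [0, 6, 8, 6, 6, 3, 5, 3, 5, 1, 11, 9, 9, 5, 5, 3, 3, 1]]),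
([p 5 1, g, p 2 0, g, m 3 0, p 4 2, g, s 1 3, g, p 0 4, g, p 6 5, g, p 7 6, g, p 0 7, g], .lo 15, [.l [1, 13, 11, 14, 7, 8, 5], .l [2, 16], .l [1, 13, 11, 14], .l [2, 14], .l [3, 7, 5, 11, 9, 12, 7, 8, 5], .l [4, 16], .l [3, 7, 5, 11, 9, 12], .y [0, 7, 4, 15, 13, 11], .l [6, 11, 9, 6, 6, 3, 8, 4, 9], .l [7, 16], .l [6, 11, 9, 6, 6, 3, 8, 4, 9], .l [8, 11, 7, 8, 8, 3, 8, 4, 9], .l [9, 16], .l [8, 11, 7, 8, 8, 3, 8, 4, 9], .l [10, 3, 8, 11, 2, 12, 12, 10, 10, 1, 1, 4, 1], .l [11, 16], .l [10, 13, 2, 14], .l [12, 5, 10, 13, 6, 6, 2, 10, 10, 1, 1, 4, 1], .l [13, 16], .l [12, 15, 13, 13, 2, 12], .l [14, 7, 12, 15, 8, 8, 6, 6, 2, 1, 1, 4, 1], .l [15, 16], .l [14, 17, 15, 15, 13, 13, 2, 1], .l [14, 15, 13, 13, 11, 3, 4, 1,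 8, 0, 7], .r 957 [1, 2, 3, 4, 5, 6, 7, 8] [1, 1, 1, 1, 1, 1, 1, 1, 1], .l [14, 15, 13, 13, 11, 11, 0, 10]]),
([p 5 1, g, p 2 0, g, m 3 0, p 4 2, g, s 1 3, g, p 0 4, g, p 6 5, g, p 0 6, g], .lo 13, [.l [1, 13, 11, 12, 5, 6, 3], .l [2, 14], .l [1, 13, 11, 12], .l [2, 12], .l [3, 7, 5, 11, 9, 10, 5, 6, 3], .l [4, 14], .l [3, 7, 5, 11, 9, 10], .y [0, 7, 4, 13, 11], .l [6, 11, 9, 6, 6, 3, 8, 4, 7], .l [7, 14], .l [6, 11, 9, 6, 6, 3, 8, 4, 7], .l [8, 11, 7, 8, 8, 3, 8, 4, 7], .l [9, 14], .l [8, 11, 7, 8, 8, 3, 8, 4, 7], .l [10, 3, 8, 11, 2, 10, 10, 1, 1, 4, 1], .l [11, 14], .l [10, 13, 2, 12], .l [12, 5, 10, 13, 6, 6, 2, 1, 1, 4, 1], .l [13, 14], .l [12, 15, 13, 13, 2, 1], .l [12, 13, 11, 3, 4, 1, 8, 0, 7], .r 958 [1, 2,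 3, 4, 5, 6, 7] [1, 1, 1, 1, 1, 1, 1, 1], .l [12, 13, 11, 11, 0, 10]])]

def d03_3 : List (List Item × Qry × List Rf) := [
([p 5 1, g, p 2 0, g, m 3 0, p 4 2, g, s 1 3, g, p 0 4, g, p 0 5, g], .lo 11, [.l [1, 13, 11, 10, 3, 4, 1], .l [2, 12], .l [1, 13, 11, 10], .l [2, 10], .l [3, 7, 5, 11, 9, 8, 3, 4, 1], .l [4, 12], .l [3, 7, 5, 11, 9, 8], .y [0, 7, 4, 11], .l [6, 11, 9, 6, 6, 3, 8, 4, 3], .l [7, 12], .l [6, 11, 9, 6, 6, 3, 8, 4, 3], .l [8, 11, 7, 8, 8, 3, 8, 4, 3], .l [9, 12], .l [8, 11, 7, 8, 8, 3, 8, 4, 3], .l [10, 3, 8, 11, 2, 1, 1, 4, 1], .l [11, 12], .l [10, 13, 2, 1], .l [10, 3, 4, 1, 8, 0, 7], .r 959 [1, 2, 3, 4, 5, 6] [1, 1, 1, 1, 1, 1, 1], .l [10, 11, 0, 10]]),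
([p 4 1, g, m 2 0, p 3 0, g, s 1 2, g, p 0 3, g, p 0 4, g], .hi 3, [.l [5, 2, 10, 5, 1, 6, 3], .r 960 [1, 5, 2, 3, 4] [1, 1, 1, 1, 1, 1], .l [5, 2], .l [5, 1, 8, 6, 3], .l [3, 4], .l [5, 1], .l [7, 3, 8, 4, 5], .l [3, 6], .l [7, 3], .y [3, 7], .l [9, 5, 1, 6, 8, 1, 1, 4, 1], .l [3, 8], .l [9, 5], .l [3, 8], .l [11, 7, 1, 6, 3], .l [3, 10], .l [11, 7]]),
([p 3 1, g, m 2 0, p 0 0, g, s 1 2, g, p 0 3, g], .lo 3, [.l [1, 9, 7, 2, 3], .l [2, 4], .l [1, 9, 7, 2], .l [1, 7, 5, 0], .y [3], .l [2, 6, 6, 1, 6, 4, 1], .r 956 [1, 4, 2, 3] [1, 1, 1, 1, 1], .l [2, 6, 6, 1, 6, 4, 1], .l [2, 4, 4, 1, 6, 4, 1], .r 961 [1, 2, 4, 3] [1, 1, 1, 1, 1], .l [2, 4, 4, 1, 6, 4, 1], .l [2, 4, 4, 1, 4, 2, 3], .l [5, 4, 6, 1, 6, 2, 3], .l [2, 4,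 4, 1, 4, 2, 3]]),
([p 5 1, s 0 2, g, m 4 0, s 0 3, g, m 3 0, g, s 1 4, g, s 2 0, g, p 0 5, g], .lo 4, [.l [10, 9, 10, 1, 4, 5], .l [3, 5, 8], .l [2, 14, 11, 2, 5], .l [2, 12, 9, 0, 3], .l [5, 14, 8, 11, 6, 6, 2, 3], .l [6, 1, 7, 5, 6], .l [3, 9, 9, 2, 11, 8, 1], .y [4, 6], .l [7, 14, 6, 9, 6, 6, 2, 3], .l [6, 1, 7, 5, 6], .l [3, 9, 9, 2, 11, 8, 3], .l [8, 7, 10, 3, 6, 3], .l [6, 1, 9, 7, 4], .l [3, 7, 7, 2, 11, 8, 3], .l [9, 12, 2, 5, 8, 8, 2, 3], .l [8, 7, 8, 1, 4, 7], .l [6, 1, 11, 9, 4], .l [3, 7, 7, 2, 11, 8, 5], .l [8, 7, 8, 1, 4, 9], .l [6, 1, 13, 11, 4], .l [3, 7, 7, 2, 9, 6, 9]]),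
([p 4 1, s 0 2, g, m 3 0, s 0 0, g, s 1 3, g, s 2 0, g, p 0 4, g], .hi 4, [.l [6, 5, 2, 3], .l [8, 7, 8, 1, 2, 3], .l [2, 12, 9, 2, 3], .l [3, 5, 6], .y [4], .l [5, 12, 6, 9, 6, 6, 2, 3], .l [3, 7, 7, 2, 9, 6, 1], .r 963 [1, 2, 5, 3, 4] [1, 1, 1, 1, 1, 1], .l [6, 5, 8, 3, 4, 1], .l [3, 5, 5, 2, 9, 6, 1], .l [6, 5, 8, 3, 4, 1], .l [6, 5, 6, 1, 2, 5], .l [3, 5, 5, 2, 9, 6, 3], .l [6, 5, 6, 8, 4, 5], .l [3, 5, 5, 2, 7, 4, 3], .l [6, 5, 6, 1, 2, 7], .l [3, 5, 5, 2, 7, 4, 7], .l [6, 5, 6, 10, 6, 7]]),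
([p 4 1, s 0 2, g, m 3 0, g, s 1 3, g, s 2 0, g, p 0 4, g], .top 4, [.c, .r 964 [1, 2, 3, 4] [1, 1, 1, 1, 1], .r 962 [1, 3, 4] [2, 1, 3, 1], .r 945 [1, 3, 4] [2, 1, 3, 1]]),
([p 6 1, s 0 2, g, s 3 0, g, p 4 3, g, p 5 4, s 1 0, g, p 0 5, g, s 2 0, g, p 0 6, g], .hi 8, [.l [5, 1, 13, 8, 11, 9, 6, 5], .l [7, 1, 15, 8, 13, 11, 8, 4, 2, 5], .l [7, 1, 15, 8, 13, 11, 8], .r 965 [1, 2, 7, 6] [1, 6, 3, 1, 1], .l [7, 3, 15, 8, 11, 9, 10, 6, 2, 7], .l [8, 14, 6, 1, 10, 1, 7, 10, 2, 7], .l [7, 3, 15, 8, 11, 9, 10], .l [6, 16, 9, 2, 12], .l [6, 16, 9, 2, 12], .l [5, 1, 15, 10, 13, 9, 10], .l [5, 1, 15, 10, 13, 11, 1, 10, 6, 8, 4, 5], .l [5, 1, 15, 10, 13, 11, 1], .l [5, 1, 9, 1, 9, 6, 1, 6, 1], .l [5, 1, 13, 8, 11, 9, 1], .l [5,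 1, 15, 10, 13, 11, 3, 5, 6, 3], .l [5, 1, 15, 10, 13, 11, 3], .l [6, 12, 3, 5, 1, 8, 12, 4, 5], .l [6, 14, 5, 7, 1, 10, 12, 2, 5], .l [5, 1, 15, 10, 13, 11, 5], .l [6, 14, 5, 7, 1, 10, 12, 2, 5], .y [0, 8, 14], .l [5, 1, 13, 8, 11, 9, 10, 6, 2, 7], .l [5, 1, 13, 8, 11, 9, 10], .l [6, 16, 7, 9, 1, 12, 5, 10, 1]]),
([p 6 1, s 3 2, g, p 4 3, g, p 5 4, s 1 0, g, p 0 5, g, s 2 0, g, p 0 6, g], .hi 6, [.l [5, 3, 13, 8, 9, 7, 8, 4, 2, 5], .l [8, 7, 10, 8, 4, 6, 5, 5, 3, 3, 3, 5, 3], .l [5, 3, 13, 8, 9, 7, 8], .l [4, 14, 9, 2, 10], .l [4, 14, 9, 2, 10], .l [0, 7, 9, 8, 8, 4, 6, 3, 8, 4, 5], .l [3, 1, 13, 10, 11, 9, 1, 8, 4, 6, 2, 3], .l [3, 1, 13, 10, 11, 9, 1], .l [11, 14, 2, 2, 6, 10, 9, 9, 7, 5, 1, 5, 1], .l [3, 1, 11, 8,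 9, 7, 1], .l [3, 1, 13, 10, 11, 9, 3, 5, 6, 3], .l [3, 1, 13, 10, 11, 9, 3], .l [0, 5, 7, 6, 6, 4, 6, 3, 8, 4, 5], .l [4, 12, 5, 7, 1, 8, 10, 2, 5], .l [3, 1, 13, 10, 11, 9, 5], .l [0, 5, 7, 6, 6, 4, 8, 5, 8, 2, 5], .y [0, 6, 12], .l [3, 1, 11, 8, 9, 7, 8, 4, 2, 5], .l [3, 1, 11, 8, 9, 7, 8], .l [6, 5, 8, 12, 8, 10, 9, 9, 7, 5, 1, 5, 1]]),
([p 5 1, s 0 2, g, p 3 0, g, p 4 3, s 1 0, g, p 0 4, g, s 2 0, g, p 0 5, g], .hi 3, [.r 967 [1, 2, 6, 3, 4, 5] [1, 1, 1, 1, 1, 1], .r 966 [1, 2, 6, 3, 4, 5] [1, 1, 1, 1, 1, 1, 1], .r 928 [1, 2, 6, 3, 4, 5] [1, 1, 1, 1, 1, 1, 1], .l [5, 1], .l [5, 1, 11, 7, 2, 7], .l [3, 4], .l [5, 1], .l [8, 4, 4, 2, 4], .l [3, 7], .l [8, 4], .y [3, 8, 5], .l [10, 6, 6, 4, 6], .l [3, 9], .l [10, 6],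 .l [12, 8, 8, 6, 8], .l [3, 11], .l [12, 8], .l [3, 11], .l [14, 10, 10, 8, 10], .l [3, 13], .l [14, 10]]),
([p 4 1, s 0 2, g, p 3 0, g, p 5 3, s 1 0, g, s 2 0, g, p 0 4, g, p 6 5, g, p 0 6, g], .lo 10, [.l [11, 14, 9, 12, 6, 3, 8, 6, 0, 3], .l [3, 11], .l [2, 12, 9, 8], .l [3, 9], .l [4, 10, 6, 3, 6, 8, 4, 3], .l [5, 11], .l [0, 7, 2, 10, 12, 3, 1, 6, 7, 5, 1, 7, 5], .y [0, 6, 10], .l [11, 14, 7, 12, 8, 3, 8, 6, 0, 1], .l [8, 11], .l [7, 12, 4, 3], .l [7, 12, 9, 7, 2, 2, 6, 4, 5, 7, 5, 5, 3], .l [9, 14, 9, 12, 8, 5, 8, 6, 2, 1], .l [10, 11], .l [6, 5, 6, 12, 9, 9, 7, 9, 3, 5, 1, 7, 3], .l [9, 10, 0, 9, 11, 6, 9, 5, 2, 5], .l [7, 14, 11, 1, 6, 2, 2, 8, 3, 1, 5, 7, 3], .l [7, 14, 11, 7, 2, 2, 8, 2, 7, 9, 3, 5, 1], .l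 [9, 10, 0, 11, 13, 11, 11, 6, 9, 5, 2, 5], .l [6, 5, 6, 10, 7, 7, 5, 7, 3, 7, 3, 7, 1], .l [4, 10, 5, 0, 7, 2, 9, 11, 9, 9, 7, 4, 1], .l [9, 12, 7, 10, 6, 3, 6, 4, 0, 7], .l [6, 5, 6, 10, 7, 7, 5, 7, 3, 9, 5, 7, 3], .l [9, 10, 0, 13]]),
([p 4 1, s 0 2, g, p 3 0, g, p 5 3, s 1 0, g, s 2 0, g, p 0 4, g, p 0 5, g], .lo 12, [.l [2, 12, 9, 11, 11, 3, 6, 7, 4, 1], .l [3, 13], .l [2, 12, 9, 11], .y [3, 12, 5], .l [4, 10, 6, 3, 6, 8, 4, 7], .l [5, 13], .l [4, 7, 5, 11, 8, 10], .l [11, 12, 5, 10, 5, 0, 6], .l [13, 14, 5, 10, 6, 1, 6, 8, 2, 3], .l [8, 13], .l [7, 12, 4, 11], .l [11, 12, 5, 8, 4, 1, 4, 6, 2, 3], .l [9, 12, 2, 11, 11, 6, 9, 5, 2, 5], .l [10, 13], .l [9, 12, 2, 11], .l [11, 14, 7, 10, 6, 3, 6, 8, 4, 1], .l [12,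 13], .l [11, 14, 7, 7, 5, 11, 8, 1], .l [11, 12, 5, 8, 4, 1, 4, 6, 2, 5], .r 969 [1, 2, 3, 4, 5, 6] [1, 1, 1, 1, 1, 1, 1], .l [11, 12, 5, 5, 3, 9, 6, 8]]),
([p 6 1, s 0 2, g, p 3 0, g, p 4 3, s 1 0, g, s 2 0, g, p 5 4, g, p 0 5, g, p 0 6, g], .lo 12, [.l [2, 16, 13, 10, 10, 8, 8, 3, 6, 7, 4, 1], .l [3, 13], .l [0, 7, 11, 10, 10, 8, 1, 8, 8, 6, 8, 4, 5], .y [3, 12, 10, 5], .l [4, 10, 6, 3, 6, 12, 8, 5], .l [5, 13], .l [0, 7, 2, 12, 12, 10, 12, 8, 9, 7, 1, 3, 1], .l [6, 5, 6, 8, 5, 5, 3, 9, 3, 5, 3, 3, 1], .l [7, 12, 9, 14, 9, 6, 8, 6, 9], .l [8, 13], .l [4, 16, 11, 0, 13, 10, 5, 5, 3, 3, 7, 2, 3], .l [6, 5, 6, 6, 8, 8, 6, 6, 3, 3, 1, 5, 1], .l [9, 12, 7, 10, 6, 3, 6, 10, 6, 3], .l [10, 13], .l [4, 16, 11, 0, 13, 8, 3,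 3, 1, 1, 7, 4, 1], .l [11, 14, 12, 12, 7, 10, 6, 3, 6, 8, 4, 1], .l [12, 13], .l [6, 5, 6, 8, 5, 5, 3, 11, 5, 7, 3, 5, 1], .l [11, 12, 10, 10, 5, 8, 4, 1, 4, 8, 4, 1], .l [6, 5, 6, 8, 5, 5, 3, 11, 5, 7, 5, 5, 3], .l [11, 12, 10, 10, 5, 5, 3, 11, 8, 5], .l [11, 12, 10, 10, 5, 8, 4, 1, 4, 6, 2, 5], .l [6, 5, 6, 8, 5, 5, 3, 9, 3, 5, 3, 7, 3], .l [6, 5, 6, 8, 5, 5, 3, 9, 3, 5, 3, 3, 5]]),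
([p 5 1, s 0 2, g, p 3 0, g, p 4 3, s 1 0, g, s 2 0, g, p 6 4, g, p 0 5, g, p 0 6, g], .hi 6, [.l [5, 10, 9, 9, 7, 9, 6, 6, 5], .l [8, 7, 8, 10, 7, 10, 1, 6, 4, 5], .l [8, 7, 8, 10, 7, 3, 6, 10, 9, 9, 5, 3, 1], .l [8, 7, 8, 10, 7, 7, 5, 9, 1, 7, 5, 7, 5], .l [4, 14, 9, 2, 10], .l [4, 14, 9, 2, 10], .l [5, 7, 4], .l [7, 12, 9, 12, 7, 4, 8], .l [6, 5, 8, 3, 1, 9, 5, 5, 3, 7, 1, 7, 3], .l [6, 5, 8, 10, 5, 5, 3, 9, 3, 3, 1, 7, 3], .l [9, 12, 7, 12, 7, 2, 8], .l [6, 5, 6, 10, 7, 7, 5, 9, 1, 5, 3, 7, 5], .l [0, 5, 9, 3, 12, 8, 9, 11, 7, 7, 5, 5, 3], .l [4, 12, 5, 7, 1, 8, 10, 2, 3], .l [6, 5, 6, 8, 5, 8, 11, 7, 8, 2, 4, 2, 5], .l [0, 5, 9, 8, 10, 5, 10, 4, 7, 5, 3, 7, 3], .y [0, 6, 12], .l [13, 16, 12, 12, 7, 12, 7, 2, 8],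 .l [5, 12, 6, 12, 1, 6, 12, 5, 7, 1, 3, 6, 1], .l [6, 5, 6, 8, 5, 5, 3, 7, 1, 7, 5, 7, 5], .l [5, 12, 6, 12, 1, 6, 10, 3, 5, 1, 1, 4, 1], .l [4, 16, 9, 11, 1, 12, 5, 10, 3], .l [1, 7, 9, 6, 7, 3, 7, 3, 8, 3, 6, 2, 5], .l [6, 5, 6, 8, 5, 5, 3, 7, 1, 9, 7, 5, 3]]),
([p 5 1, s 0 2, g, p 3 0, g, p 4 3, s 1 0, g, s 2 0, g, p 0 4, g, p 0 5, g], .lo 10, [.l [2, 14, 11, 8, 8, 3, 6, 7, 4, 1], .l [3, 11], .l [2, 14, 11, 8], .y [3, 10, 5], .l [4, 10, 6, 3, 6, 10, 6, 3], .l [5, 11], .l [4, 7, 5, 13, 10, 7], .l [6, 5, 6, 8, 5, 8, 1, 2, 0, 3], .l [11, 12, 5, 10, 6, 1, 6, 8, 2, 3], .l [8, 11], .l [7, 12, 9, 9, 7, 11, 8, 3], .l [9, 10, 5, 8, 4, 1, 4, 6, 2, 3], .l [9, 12, 7, 10, 6, 3, 6, 8, 4, 1], .l [10, 11], .l [9, 12, 7, 7, 5, 11,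 8, 1], .l [9, 10, 5, 8, 4, 1, 4, 8, 4, 1], .r 971 [1, 2, 3, 4, 6, 5] [1, 1, 1, 1, 1, 1, 1], .l [9, 10, 5, 5, 3, 11, 8, 5], .l [9, 10, 5, 8, 4, 1, 4, 6, 2, 5], .r 972 [1, 2, 3, 4, 5, 6] [1, 1, 1, 1, 1, 1, 1], .l [9, 10, 5, 5, 3, 9, 6, 8]]),
([p 4 1, s 0 2, g, p 3 0, g, p 0 3, s 1 0, g, s 2 0, g, p 0 4, g], .lo 5, [.l [2, 12, 9, 3, 6, 7, 4, 1], .l [3, 6], .l [2, 12, 9, 3], .y [3, 5], .l [4, 10, 6, 3, 6, 8, 4, 1], .l [5, 6], .l [4, 7, 5, 11, 8, 1], .l [4, 10, 5, 0, 6], .l [4, 10, 6, 1, 6, 8, 2, 3], .r 968 [1, 2, 3, 5, 4] [1, 1, 1, 1, 1, 1], .l [4, 5, 3, 11, 8, 3], .l [4, 8, 4, 1, 4, 6, 2, 3], .l [4, 8, 4, 1, 4, 8, 4, 1], .r 973 [1, 2, 3, 5, 4] [1, 1, 1, 1, 1, 1], .l [4, 5, 3, 11, 8, 5], .l [4, 8, 4, 1, 4, 6, 2, 5], .r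 970 [1, 2, 3, 4, 5] [1, 1, 1, 1, 1, 1], .l [4, 5, 3, 9, 6, 8]]),
([p 3 1, s 0 2, g, p 0 0, s 1 0, g, s 2 0, g, p 0 3, g], .hi 3, [.l [0, 3, 1], .l [0, 5, 1], .r 974 [1, 2, 4, 3] [1, 1, 1, 1, 1], .l [5, 1], .y [3], .l [0, 3, 4], .l [3, 5], .l [6, 2], .l [0, 3, 6], .l [3, 7], .l [8, 4], .l [3, 7], .l [0, 3, 8], .l [3, 9], .l [10, 6]]),
([p 6 1, s 0 2, g, m 0 3, g, m 3 4, g, m 4 5, s 1 0, g, m 5 0, g, s 2 0, g, p 0 6, g], .hi 8, [.l [7, 10, 9, 9, 7, 7, 5, 9, 6, 6, 5], .l [8, 14, 6, 1, 10, 3, 7, 8, 2, 8, 6, 3], .l [10, 9, 12, 10, 6, 8, 7, 7, 5, 5, 3, 7, 5], .l [4, 14, 10, 5, 7, 6, 6, 4, 8, 5, 8, 2, 5], .l [0, 7, 9, 8, 8, 6, 6, 4, 4, 1, 6, 4, 1], .l [10, 4, 6, 4, 4, 2, 4], .l [10, 9, 12, 8, 4, 6, 5, 5, 3, 9, 7, 3, 1], .l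 [0, 9, 11, 10, 10, 8, 8, 4, 6, 3, 8, 4, 1], .l [6, 16, 9, 2, 12], .l [6, 16, 9, 2, 12], .l [0, 9, 11, 10, 10, 6, 6, 4, 6, 3, 8, 4, 1], .l [9, 12, 9, 14, 7, 2, 10], .l [8, 7, 12, 5, 1, 5, 1, 11, 7, 9, 7, 7, 5], .l [0, 7, 11, 10, 10, 8, 8, 6, 4, 1, 8, 6, 3], .l [6, 12, 3, 5, 1, 8, 8, 6, 10, 4, 5], .l [13, 16, 2, 2, 8, 10, 9, 9, 7, 7, 5, 3, 5], .l [0, 7, 9, 8, 8, 6, 6, 4, 6, 3, 8, 4, 1], .l [6, 14, 5, 7, 1, 10, 10, 8, 10, 2, 5], .l [8, 13, 13, 10, 8, 11, 5, 2, 7, 7, 5, 7, 3], .l [0, 7, 9, 8, 8, 6, 6, 4, 8, 5, 8, 2, 3], .y [0, 8, 14], .l [6, 16, 7, 9, 1, 12, 5, 10, 1], .l [11, 14, 2, 2, 8, 10, 9, 9, 7, 7, 5, 3, 5], .l [8, 7, 10, 14, 10, 12, 11, 11, 9, 9, 7, 5, 1]]),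
([p 6 1, s 0 2, g, s 0 3, g, m 3 4, g, m 4 5, s 1 0, g, m 5 0, g, s 2 0, g, p 0 6, g], .hi 8, [.l [5, 1, 13, 8, 11, 9, 6, 5], .l [7, 1, 15, 8, 13, 11, 8, 4, 2, 5], .l [7, 1, 15, 8, 13, 11, 8], .r 965 [1, 2, 7, 6] [1, 6, 3, 1, 1], .l [5, 1, 13, 8, 11, 9, 8], .l [7, 3, 15, 8, 11, 9, 10, 6, 2, 7], .l [8, 14, 6, 1, 10, 1, 7, 10, 2, 7], .l [7, 3, 15, 8, 11, 9, 10], .l [6, 16, 9, 2, 12], .l [6, 16, 9, 2, 12], .l [5, 1, 15, 10, 13, 9, 10], .l [5, 1, 15, 10, 13, 11, 1, 10, 6, 8, 4, 5], .l [5, 1, 15, 10, 13, 11, 1], .l [5, 1, 9, 1, 9, 6, 1, 6, 1], .l [5, 1, 15, 10, 13, 11, 3, 5, 6, 3], .l [5, 1, 15, 10, 13, 11, 3], .l [6, 12, 3, 5, 1, 8, 12, 4, 5], .l [6, 14, 5, 7, 1, 10, 12, 2, 5], .l [5, 1, 15, 10, 13, 11, 5], .l [6, 14, 5,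 7, 1, 10, 12, 2, 5], .y [0, 8, 14], .l [5, 1, 13, 8, 11, 9, 10, 6, 2, 7], .l [5, 1, 13, 8, 11, 9, 10], .l [6, 16, 7, 9, 1, 12, 5, 10, 1]]),
([p 5 1, s 0 2, g, m 0 3, g, m 3 4, s 1 0, g, m 4 0, g, s 2 0, g, p 0 5, g], .lo 3, [.r 977 [1, 2, 6, 3, 4, 5] [1, 1, 1, 1, 1, 1, 1], .l [5, 1], .r 976 [1, 2, 6, 3, 4, 5] [1, 1, 1, 1, 1, 1, 1], .l [5, 1, 11, 7, 2, 7], .l [5, 1], .l [3, 4], .l [3, 5, 4], .l [8, 4, 4, 2, 4], .l [8, 4], .l [3, 7], .y [3, 5, 8], .l [10, 6, 6, 4, 6], .l [10, 6], .l [3, 9], .l [10, 6, 6, 4, 6], .l [12, 8, 8, 6, 8], .l [12, 8], .l [3, 11], .l [14, 10, 10, 8, 10], .l [14, 10], .l [3, 13]]),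
([p 5 1, s 0 2, g, m 0 3, g, m 3 4, s 1 0, g, s 2 0, g, p 0 5, g, m 4 6, g, m 6 0, g], .lo 10, [.l [11, 14, 9, 12, 6, 3, 8, 6, 0, 3], .l [3, 11], .l [2, 12, 9, 8], .l [4, 10, 6, 3, 6, 8, 4, 3], .l [5, 11], .l [0, 7, 2, 10, 12, 3, 1, 6, 7, 5, 1, 7, 5], .y [0, 6, 10], .l [11, 14, 7, 12, 8, 3, 8, 6, 0, 1], .l [8, 11], .l [7, 12, 4, 3], .l [7, 12, 9, 7, 2, 2, 6, 4, 5, 7, 5, 5, 3], .l [9, 14, 9, 12, 8, 5, 8, 6, 2, 1], .l [10, 11], .l [6, 5, 6, 12, 9, 9, 7, 9, 3, 5, 1, 7, 3], .l [9, 10, 0, 9, 11, 6, 9, 5, 2, 5], .l [7, 14, 11, 1, 6, 2, 2, 8, 3, 1, 5, 7, 3], .l [7, 14, 11, 7, 2, 2, 8, 2, 7, 9, 3, 5, 1], .l [9, 10, 0, 11, 13, 11, 11, 6, 9, 5, 2, 5], .l [6, 5, 6, 10, 7, 7, 5, 7, 3, 7, 3, 7, 1], .l [4, 10, 5, 0, 7, 2, 9, 11,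 9, 9, 7, 4, 1], .l [4, 10, 5, 0, 7, 2, 9, 9, 7, 7, 5, 4, 1], .l [9, 12, 7, 10, 6, 3, 6, 4, 0, 7], .l [6, 5, 6, 10, 7, 7, 5, 7, 3, 9, 5, 7, 3], .l [9, 10, 0, 13]]),
([p 5 1, s 0 2, g, m 0 3, g, m 3 4, s 1 0, g, s 2 0, g, p 0 5, g, m 4 0, g], .hi 12, [.l [6, 5, 10], .l [2, 12, 9, 11, 11, 3, 6, 7, 4, 1], .l [2, 12, 9, 11], .l [3, 13], .y [3, 5, 12], .l [4, 10, 6, 3, 6, 8, 4, 7], .l [4, 7, 5, 11, 8, 10], .l [5, 13], .l [13, 14, 5, 10, 6, 1, 6, 8, 2, 3], .l [7, 12, 4, 11], .l [8, 13], .l [9, 12, 2, 11, 11, 6, 9, 5, 2, 5], .l [9, 12, 2, 11], .l [10, 13], .l [9, 10, 0, 9], .l [11, 14, 7, 10, 6, 3, 6, 8, 4, 1], .l [11, 14, 7, 7, 5, 11, 8, 1], .l [12, 13], .l [11, 12, 5, 8, 4, 1, 4, 6, 2, 5], .l [11, 12, 5, 5, 3, 9, 6, 8], .r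 979 [1, 2, 3, 4, 5, 6] [1, 1, 1, 1, 1, 1, 1]]),
([p 6 1, s 0 2, g, m 0 3, g, m 3 4, g, m 4 5, s 1 0, g, s 2 0, g, m 5 0, g, p 0 6, g], .hi 12, [.l [8, 7, 10], .l [2, 16, 13, 10, 10, 5, 8, 9, 6, 3], .l [0, 9, 13, 12, 12, 10, 10, 8, 1, 6, 8, 4, 5], .l [3, 13], .y [3, 5, 7, 12], .l [4, 7, 5, 14, 11, 8, 8, 3, 6, 7, 4, 1], .l [0, 9, 4, 12, 14, 10, 11, 9, 3, 3, 1, 3, 1], .l [5, 13], .l [6, 12, 6, 3, 8, 8, 6, 10, 6, 3], .l [0, 9, 2, 12, 14, 10, 11, 7, 1, 3, 1, 5, 3], .l [7, 13], .l [13, 14, 7, 12, 6, 1, 8, 8, 6, 8, 2, 3], .l [6, 16, 9, 0, 13, 10, 3, 3, 9, 4, 5, 7, 3], .l [10, 13], .l [11, 14, 9, 12, 6, 3, 8, 8, 6, 8, 4, 1], .l [6, 16, 9, 0, 13, 8, 1, 1, 9, 6, 3, 7, 5], .l [12, 13], .l [11, 12, 7, 10, 4, 1, 6, 6, 4, 8, 4, 1],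 .l [11, 12, 7, 7, 5, 5, 3, 11, 8, 5], .l [8, 7, 8, 10, 7, 7, 5, 5, 3, 9, 3, 5, 3], .l [11, 12, 7, 7, 5, 5, 3, 9, 6, 5], .l [11, 12, 7, 10, 4, 1, 6, 6, 4, 6, 2, 5], .l [8, 7, 8, 10, 7, 7, 5, 5, 3, 7, 1, 3, 5], .l [8, 7, 8, 10, 7, 7, 5, 5, 3, 7, 1, 7, 3]]),
([p 6 1, s 0 0, g, p 4 0, g, m 0 2, g, m 2 3, s 1 4, g, m 3 5, g, m 5 0, g, p 0 6, g], .hi 1, [.y [1], .l [11, 12, 9, 14, 5, 0, 11, 1, 8, 1, 7, 4, 1], .l [2, 16, 13, 13, 5], .r 578 [1, 7, 6] [1, 6, 5, 1], .l [2, 16, 13, 6, 8, 7, 3, 10, 5, 7, 5, 5, 3], .l [4, 16, 11, 11, 5], .l [8, 16, 7, 0, 13, 3, 10, 1, 9, 4, 1], .l [2, 14, 11, 4, 1, 2, 0, 8, 5], .l [6, 9, 7, 15, 10, 10, 5, 7, 5, 5, 3, 1, 5], .l [6, 9, 7, 15, 10, 10, 5], .l [2, 16, 13, 6, 1, 4, 2, 10, 5], .l [8, 7,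 8, 10, 7, 3, 6, 8, 7, 7, 3, 7, 5], .l [8, 7, 8], .l [5, 10, 5, 2, 7], .l [8, 7, 10, 12, 10, 6, 4, 8, 7, 7, 5, 7, 5], .l [8, 7, 10], .l [5, 12, 7, 2, 9], .l [6, 14, 8, 1, 10, 1, 7, 10, 2, 7], .l [8, 7, 12], .l [5, 14, 9, 2, 11], .l [8, 7, 12], .l [6, 14, 7, 0, 11, 1, 8, 1, 7, 2, 7, 3, 1], .l [8, 7, 14], .l [5, 16, 11, 2, 13]]),
([p 6 1, s 0 0, g, p 4 0, g, m 0 2, g, m 2 3, s 1 4, g, m 3 5, g, p 0 6, g, m 5 0, g], .hi 1, [.y [1], .l [2, 14, 11, 11, 3, 4, 2, 6, 4, 8, 7, 7, 5], .l [2, 14, 11, 11, 3], .r 578 [1, 7, 6] [1, 6, 3, 3], .l [1, 4, 9, 5, 11, 5, 6, 2, 10, 7, 1, 6, 3], .l [4, 14, 9, 9, 3], .l [8, 14, 5, 0, 11, 3, 8, 1, 7, 4, 1], .l [2, 12, 9, 4, 1, 2, 0, 6, 3], .l [2, 14, 11, 6, 2, 10, 3, 7, 5, 9, 3, 5, 1], .l [6,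 9, 7, 13, 8, 8, 3], .l [2, 14, 11, 6, 1, 4, 2, 8, 3], .l [8, 7, 8, 10, 7, 3, 6, 10, 9, 9, 5, 3, 1], .l [8, 7, 8], .l [5, 10, 5, 2, 7], .l [8, 7, 10, 14, 12, 6, 4, 10, 9, 9, 7, 5, 3], .l [8, 7, 10], .l [5, 12, 7, 2, 9], .l [8, 7, 10], .l [8, 7, 12, 14, 10, 6, 4, 8, 7, 7, 5, 7, 5], .l [8, 7, 12], .l [5, 14, 9, 2, 11], .l [6, 16, 10, 1, 12, 1, 9, 1, 8, 5], .l [8, 7, 14], .l [5, 16, 11, 2, 13]]),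
([p 5 1, s 0 0, g, p 4 0, g, m 0 2, g, m 2 3, s 1 4, g, m 3 0, g, p 0 5, g], .hi 10, [.l [8, 7, 8], .l [3, 11, 11, 8, 9, 5, 1, 4, 5], .l [2, 14, 11, 8], .l [3, 11], .l [2, 5, 10, 10, 7, 10, 5, 2, 6], .l [4, 14, 9, 6], .l [5, 11], .y [5, 7, 10], .l [11, 12, 9, 12, 3, 9, 1, 7, 4], .l [6, 9, 7, 13, 8, 5], .l [7, 11], .l [11, 12, 7, 8, 4, 10, 7, 4, 6, 2, 3], .l [9, 12, 9, 9, 7, 11, 6, 1], .l [10, 11], .l [9, 10, 7, 8, 4, 10, 7, 4, 6, 2, 3], .l [9, 10, 7, 7, 5, 11, 6, 3], .r 982 [1, 2, 3, 4, 6, 5] [1, 1, 1, 1, 1, 1, 1], .l [9, 10, 7, 7, 5, 9, 4, 3], .l [9, 10, 7, 10, 3, 9, 1, 7, 4], .l [9, 10, 7, 7, 5, 9, 4, 8], .r 983 [1, 2, 3, 4, 6, 5] [1, 1, 1, 1, 1, 1, 1]]),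
([p 6 1, s 0 2, g, s 0 3, g, m 3 4, g, m 4 5, s 1 0, g, s 2 0, g, m 5 0, g, p 0 6, g], .hi 8, [.l [5, 1, 13, 8, 11, 9, 6, 5], .l [7, 1, 15, 8, 13, 11, 8, 6, 4, 5], .l [7, 1, 15, 8, 13, 11, 8], .l [10, 9, 10, 12, 9, 12, 1, 6, 4, 7], .l [5, 1, 13, 8, 11, 9, 8], .l [7, 3, 15, 8, 11, 9, 10, 8, 4, 7], .r 984 [1, 4, 5, 7, 6] [3, 1, 1, 3, 1, 1], .l [7, 3, 15, 8, 11, 9, 10], .l [6, 16, 9, 2, 12], .l [6, 16, 9, 2, 12], .l [5, 1, 15, 10, 13, 9, 10], .l [5, 1, 15, 10, 13, 11, 1, 10, 4, 8, 6, 3], .l [5, 1, 15, 10, 13, 11, 1], .l [5, 1, 9, 1, 11, 8, 1, 8, 3], .l [5, 1, 15, 10, 13, 11, 3, 10, 4, 6, 4, 5], .l [5, 1, 15, 10, 13, 11, 3], .l [5, 1, 11, 3, 11, 6, 1, 6, 1], .l [6, 14, 5, 7, 1, 10, 12, 2, 3], .l [5, 1, 15, 10, 13, 11, 5],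 .l [6, 14, 5, 7, 1, 10, 12, 2, 3], .y [0, 8, 14], .l [5, 1, 13, 8, 11, 9, 10, 8, 4, 7], .l [5, 1, 13, 8, 11, 9, 10], .l [8, 7, 8, 10, 7, 10, 1, 10, 8, 5]]),
([p 5 1, s 0 2, g, m 0 3, g, m 3 4, s 1 0, g, s 2 0, g, m 4 0, g, p 0 5, g], .lo 3, [.r 985 [1, 2, 6, 3, 4, 5] [1, 1, 1, 1, 1, 1, 1], .l [5, 1], .r 981 [1, 2, 6, 3, 4, 5] [1, 1, 1, 1, 1, 1, 1], .l [5, 1, 9, 5, 2, 5], .l [5, 1], .l [3, 4], .l [3, 5, 4], .l [8, 4, 4, 2, 4], .l [8, 4], .l [3, 7], .l [8, 4, 4, 2, 4], .l [10, 6, 6, 4, 6], .l [10, 6], .l [3, 9], .y [3, 5, 10], .l [12, 8, 8, 6, 8], .l [12, 8], .l [3, 11], .l [14, 10, 10, 8, 10], .l [14, 10], .l [3, 13]]),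
([p 4 1, s 0 2, g, m 0 3, g, m 3 0, s 1 0, g, s 2 0, g, p 0 4, g], .hi 5, [.l [4, 5, 3, 9, 6, 6, 3], .l [2, 12, 9, 3, 6, 7, 4, 1], .l [2, 12, 9, 3], .l [3, 6], .y [3, 5], .l [4, 10, 6, 3, 6, 8, 4, 1], .l [4, 7, 5, 11, 8, 1], .l [5, 6], .l [4, 10, 6, 1, 6, 8, 2, 3], .l [4, 5, 3, 11, 8, 3], .r 978 [1, 2, 3, 5, 4] [1, 1, 1, 1, 1, 1], .l [4, 8, 4, 1, 4, 8, 4, 1], .l [4, 5, 3, 11, 8, 5], .r 986 [1, 2, 3, 5, 4] [1, 1, 1, 1, 1, 1], .l [4, 5, 3, 9, 6, 5], .l [4, 8, 4, 1, 4, 6, 2, 5], .l [4, 5, 3, 9, 6, 8], .r 980 [1, 2, 3, 5, 4] [1, 1, 1, 1, 1, 1]]),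
([p 3 1, s 0 2, g, m 0 0, s 1 0, g, s 2 0, g, p 0 3, g], .lo 3, [.l [0, 5, 1], .l [5, 1], .r 987 [1, 2, 4, 3] [1, 1, 1, 1, 1], .y [3], .c, .l [0, 3, 4], .l [6, 2], .l [3, 5], .l [0, 3, 4], .l [0, 3, 6], .l [8, 4], .l [3, 7], .l [0, 3, 8], .l [10, 6], .l [3, 9]]),
([p 3 1, s 0 2, g, s 1 0, g, s 2 0, g, p 0 3, g], .bot 2, [.r 894 [1, 2] [1, 3], .r 927 [1, 2, 3] [1, 1, 1, 1], .r 975 [1, 2, 3] [1, 1, 1, 1], .r 988 [1, 2, 3] [1, 1, 1, 1]]),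
([p 4 1, s 2 0, g, s 0 2, g, s 1 0, s 0 3, g, m 3 0, g, p 0 4, g], .lo 6, [.r 989 [1, 5, 4] [3, 0, 3, 1], .l [4, 12, 7, 7, 4, 7], .l [7, 6, 11, 4, 7], .l [4, 12, 7, 7, 4, 7], .l [2, 12, 9, 9, 4, 5], .l [2, 12, 9, 9, 4, 5], .l [10, 1, 4, 2, 6], .c, .l [2, 12, 9, 9, 6, 1], .l [8, 1, 9, 7, 4], .l [2, 12, 9, 9, 6, 1], .y [6, 8], .l [2, 12, 9, 9, 6, 3], .l [8, 1, 9, 7, 4], .l [2, 12, 9, 9, 6, 3], .l [2, 10, 7, 7, 4, 7], .l [8, 1, 11, 9, 4], .l [2, 10, 7, 7, 4, 7]]),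
([p 5 1, s 2 0, g, s 0 2, g, p 3 0, g, p 4 3, g, s 1 0, s 0 4, g, p 6 5, g, p 7 6, g, p 0 7, g], .hi 9, [.l [2, 14, 11, 7, 10, 2, 7, 11, 5, 1, 7, 9, 5], .l [2, 14, 11, 7, 10, 2, 7], .l [11, 10, 2, 9, 12, 2, 9], .l [2, 12, 9, 5, 8, 2, 5, 9, 5, 1, 5, 7, 5], .l [4, 14, 9, 5, 8, 2, 5, 11, 7, 1, 7, 9, 7], .l [4, 14, 9, 5, 8, 2, 5], .l [11, 10, 1, 3, 7, 10, 2, 7], .l [8, 14, 5, 2, 10, 12, 5, 1, 8, 10, 5, 5, 3], .l [6, 9, 7, 12, 7, 3, 6, 2, 3], .l [8, 9, 5, 12, 7, 4, 1], .l [8, 14, 5, 1, 4, 2, 9, 11, 3, 1, 7, 9, 3], .l [8, 14, 5, 1, 4, 2, 9], .l [6, 7, 5, 12, 7, 4, 1], .c, .l [11, 14, 2, 10, 13, 4, 4, 2, 9, 9, 7, 9, 3], .l [6, 7, 5, 12, 7, 2, 3], .l [0, 8, 11, 2, 8], .l [6, 12, 5, 2, 10, 12, 5, 1, 8, 10, 5, 5, 3], .l [6, 7,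 5, 10, 5, 2, 8], .l [0, 8, 13, 4, 10], .l [0, 8, 1, 7, 12, 7, 1, 3, 8, 1], .l [6, 7, 5, 10, 5, 2, 10], .l [0, 8, 15, 6, 12], .y [0, 9, 16, 14, 12], .l [0, 8, 1, 7, 14, 9, 1, 3, 10, 1], .l [6, 7, 5, 10, 5, 2, 12], .l [0, 8, 17, 8, 14]]),
([p 4 1, s 2 0, g, s 0 2, g, p 3 0, g, s 1 0, s 0 3, g, p 5 4, g, p 6 5, g, p 7 6, g, p 0 7, g], .hi 5, [.l [15, 8, 2, 12, 3, 12, 6, 3, 8, 10, 6, 1], .l [15, 8, 2, 12, 3, 12, 6, 3, 8, 10, 6, 1], .l [7, 3], .l [13, 8, 2, 10, 1, 10, 6, 3, 6, 8, 6, 1], .l [15, 8, 2, 12, 1, 12, 6, 3, 6, 10, 8, 1], .r 991 [1, 2, 8, 3, 4, 5, 6] [1, 1, 1, 1, 1, 1, 1, 3], .l [7, 1], .l [9, 8, 1, 5, 1, 8, 2, 5], .l [5, 6], .l [7, 1], .y [5, 8], .l [4, 5, 8, 10, 2, 7, 4, 1], .l [5, 9], .l [10, 4], .l [4, 5, 10,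 12, 10, 10, 2, 7, 4, 1], .l [5, 11], .l [12, 6], .l [4, 5, 12, 14, 12, 12, 10, 10, 2, 7, 4, 1], .l [5, 13], .l [14, 8], .l [4, 5, 14, 16, 14, 14, 12, 12, 10, 10, 2, 7, 4], .l [5, 15], .l [16, 10], .l [5, 15], .l [17, 12, 2, 14, 1, 11, 12, 9], .l [5, 17], .l [18, 12]]),
([p 4 1, s 2 0, g, s 0 2, g, p 3 0, g, s 1 0, s 0 3, g, p 5 4, g, p 6 5, g, p 0 6, g], .lo 14, [.l [7, 6, 12], .l [15, 8, 2, 12, 3, 12, 6, 6, 4, 4, 0, 5], .l [3, 15], .l [2, 12, 9, 13], .l [15, 8, 2, 12, 1, 12, 6, 6, 4, 4, 0, 3], .l [5, 15], .l [4, 12, 7, 13], .l [5, 13], .l [4, 7, 14, 14, 12, 12, 10, 10, 2, 7, 4, 1], .l [7, 15], .l [6, 12, 5, 13], .y [0, 7, 14, 12, 10], .l [9, 4, 2, 6, 1, 8, 2, 9], .l [10, 15], .l [9, 12, 2, 13], .l [11, 6, 2, 8, 1,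 10, 6, 6, 2, 7], .l [12, 15], .l [11, 14, 12, 12, 2, 11], .l [13, 8, 2, 10, 1, 12, 8, 8, 6, 6, 2, 1], .l [14, 15], .l [13, 16, 14, 14, 12, 12, 2, 1], .l [13, 8, 2, 10, 1, 10, 6, 6, 4, 4, 0, 5], .r 992 [1, 2, 3, 4, 5, 6, 7] [1, 1, 1, 1, 1, 1, 1, 1], .l [13, 14, 12, 12, 10, 10, 0, 9]]),
([p 4 1, s 2 0, g, s 0 2, g, p 3 0, g, s 1 0, s 0 3, g, p 5 4, g, p 0 5, g], .lo 12, [.l [7, 6, 10], .l [13, 6, 2, 10, 3, 10, 4, 4, 0, 5], .l [3, 13], .l [2, 12, 9, 11], .l [13, 6, 2, 10, 1, 10, 4, 4, 0, 3], .l [5, 13], .l [4, 12, 7, 11], .l [5, 11], .l [4, 7, 12, 12, 10, 10, 2, 7, 4, 1], .l [7, 13], .l [6, 12, 5, 11], .y [0, 7, 12, 10], .l [9, 4, 2, 6, 1, 8, 2, 7], .l [10, 13], .l [9, 12, 2, 11], .l [11, 6, 2, 8, 1, 10, 6, 6, 2, 1], .l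 [12, 13], .l [11, 14, 12, 12, 2, 1], .l [11, 6, 2, 8, 1, 8, 4, 4, 0, 5], .r 993 [1, 2, 3, 4, 5, 6] [1, 1, 1, 1, 1, 1, 1], .l [11, 12, 10, 10, 0, 9]]),
([p 4 1, s 2 0, g, s 0 2, g, p 3 0, g, s 1 0, s 0 3, g, p 0 4, g], .lo 10, [.l [7, 6, 8], .l [11, 4, 2, 8, 3, 8, 0, 5], .l [3, 11], .l [2, 12, 9, 8], .l [11, 4, 2, 8, 1, 8, 0, 3], .l [5, 11], .l [4, 12, 7, 6], .l [5, 9], .l [4, 7, 10, 10, 2, 7, 4, 1], .l [7, 11], .l [6, 12, 5, 4], .y [0, 7, 10], .l [9, 4, 2, 6, 1, 8, 2, 1], .l [10, 11], .l [9, 12, 2, 1], .l [9, 4, 2, 6, 1, 6, 0, 5], .r 994 [1, 2, 3, 4, 5] [1, 1, 1, 1, 1, 1], .l [9, 10, 0, 9]]),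
([p 3 1, s 2 0, g, s 0 2, g, s 1 0, s 0 0, g, p 0 3, g], .hi 6, [.l [4, 10, 5, 5, 2, 5], .l [4, 10, 5, 5, 2, 5], .l [7, 6, 9, 2, 5], .l [2, 8, 5, 5, 2, 3], .l [2, 10, 7, 7, 2, 3], .r 995 [1, 2, 4, 3] [1, 1, 1, 1, 1], .l [2, 10, 7, 7, 2, 3], .y [6], .l [2, 10, 7, 7, 4, 1], .l [2, 10, 7, 7, 4, 1], .r 990 [1, 2, 4, 3] [1, 1, 1, 1, 1], .l [2, 8, 5, 5, 2, 1], .l [2, 8, 5, 5, 2, 5], .l [2, 8, 5, 5, 2, 5], .r 925 [1, 2, 4, 3] [1, 1, 1, 1, 1]]),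
([p 2 1, g, s 1 0, p 3 2, g, p 4 3, g, p 5 4, g, p 6 5, g, p 7 6, g, p 8 7, g, p 0 8, g], .lo 15, [.l [16, 17, 15, 15, 13, 13, 11, 11, 9, 9, 7, 7, 5, 3, 4, 0, 1], .l [2, 16], .l [0, 3, 1, 14, 14, 12, 12, 10, 10, 8, 8, 6, 6, 4, 4, 2, 2, 1], .y [0, 2, 15, 13, 11, 9, 7, 5, 3], .l [4, 7, 5, 1, 4, 2, 11], .l [5, 16], .l [4, 7, 5, 1, 4, 2, 11], .l [6, 9, 7, 7, 5, 1, 4, 2, 9], .l [7, 16], .l [6, 9, 7, 7, 5, 1, 4, 2, 9], .l [8, 11, 9, 9, 7, 7, 5, 1, 4, 2, 7], .l [9, 16], .l [8, 11, 9, 9, 7, 7, 5, 1, 4, 2, 7], .l [10, 13, 11, 11, 9, 9, 7, 7, 5, 1, 4, 2, 5], .l [11, 16], .l [10, 13, 11, 11, 9, 9, 7, 7, 5, 1, 4, 2, 5], .l [12, 15, 13, 13, 11, 11, 9, 9, 7, 7, 5, 1, 4, 2, 3], .l [13, 16], .l [12, 15, 13, 13, 11, 11, 9, 9, 7, 7,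 5, 1, 4, 2, 3], .l [14, 17, 15, 15, 13, 13, 11, 11, 9, 9, 7, 7, 5, 1, 4, 2, 1], .l [15, 16], .l [14, 17, 15, 15, 13, 13, 11, 11, 9, 9, 7, 7, 5, 1, 4, 2, 1], .l [14, 15, 13, 13, 11, 11, 9, 9, 7, 7, 5, 5, 3, 1, 2, 0, 1], .l [15, 17, 16, 16, 14, 14, 12, 12, 10, 10, 8, 8, 6, 6, 4, 1, 3, 1], .l [14, 15, 13, 13, 11, 11, 9, 9, 7, 7, 5, 5, 3, 1, 2, 0, 1]]),
([p 2 1, g, s 1 0, p 3 2, g, p 4 3, g, p 5 4, g, p 6 5, g, p 7 6, g, p 0 7, g], .lo 13, [.l [14, 15, 13, 13, 11, 11, 9, 9, 7, 7, 5, 3, 4, 0, 1], .l [2, 14], .l [1, 5, 3, 12], .y [0, 2, 13, 11, 9, 7, 5, 3], .l [4, 7, 5, 1, 4, 2, 9], .l [5, 14], .l [4, 7, 5, 1, 4, 2, 9], .l [6, 9, 7, 7, 5, 1, 4, 2, 7], .l [7, 14], .l [6, 9, 7, 7, 5, 1, 4, 2, 7], .l [8, 11, 9, 9, 7, 7, 5, 1,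 4, 2, 5], .l [9, 14], .l [8, 11, 9, 9, 7, 7, 5, 1, 4, 2, 5], .l [10, 13, 11, 11, 9, 9, 7, 7, 5, 1, 4, 2, 3], .l [11, 14], .l [10, 13, 11, 11, 9, 9, 7, 7, 5, 1, 4, 2, 3], .l [12, 15, 13, 13, 11, 11, 9, 9, 7, 7, 5, 1, 4, 2, 1], .l [13, 14], .l [12, 15, 13, 13, 11, 11, 9, 9, 7, 7, 5, 1, 4, 2, 1], .l [12, 13, 11, 11, 9, 9, 7, 7, 5, 5, 3, 1, 2, 0, 1], .r 997 [1, 2, 3, 4, 5, 6, 7, 8] [1, 1, 1, 1, 1, 1, 1, 1], .l [12, 13, 11, 11, 9, 9, 7, 7, 5, 5, 3, 1, 2, 0, 1]]),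
([p 2 1, g, s 1 0, p 3 2, g, p 4 3, g, p 5 4, g, p 6 5, g, p 0 6, g], .lo 11, [.l [12, 13, 11, 11, 9, 9, 7, 7, 5, 3, 4, 0, 1], .l [2, 12], .l [1, 5, 3, 10], .y [0, 2, 11, 9, 7, 5, 3], .l [4, 7, 5, 1, 4, 2, 7], .l [5, 12], .l [4, 7, 5, 1, 4, 2, 7], .l [6, 9, 7, 7, 5, 1, 4, 2, 5], .l [7, 12], .l [6, 9, 7, 7, 5, 1, 4, 2, 5], .l [8, 11, 9, 9, 7, 7, 5, 1, 4, 2, 3], .l [9, 12], .l [8, 11, 9, 9, 7, 7, 5, 1, 4, 2, 3], .l [10, 13, 11, 11, 9, 9, 7, 7, 5, 1, 4, 2, 1], .l [11, 12], .l [10, 13, 11, 11, 9, 9, 7, 7, 5, 1, 4, 2, 1], .l [10, 11, 9, 9, 7, 7, 5, 5, 3, 1, 2, 0, 1], .r 998 [1, 2, 3, 4, 5, 6, 7] [1, 1, 1, 1, 1, 1, 1], .l [10, 11, 9, 9, 7, 7, 5, 5, 3, 1, 2, 0, 1]]),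
([p 2 1, g, s 1 0, p 3 2, g, p 4 3, g, p 5 4, g, p 0 5, g], .lo 9, [.l [10, 11, 9, 9, 7, 7, 5, 3, 4, 0, 1], .l [2, 10], .l [1, 5, 3, 8], .y [0, 2, 9, 7, 5, 3], .l [4, 7, 5, 1, 4, 2, 5], .l [5, 10], .l [4, 7, 5, 1, 4, 2, 5], .l [6, 9, 7, 7, 5, 1, 4, 2, 3], .l [7, 10], .l [6, 9, 7, 7, 5, 1, 4, 2, 3], .l [8, 11, 9, 9, 7, 7, 5, 1, 4, 2, 1], .l [9, 10], .l [8, 11, 9, 9, 7, 7, 5, 1, 4, 2, 1], .l [8, 9, 7, 7, 5, 5, 3, 1, 2, 0, 1], .r 999 [1, 2, 3, 4, 5, 6] [1, 1, 1, 1, 1, 1], .l [8, 9, 7, 7, 5, 5, 3, 1, 2, 0, 1]]),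
([p 2 1, g, s 1 0, p 3 2, g, p 4 3, g, p 0 4, g], .lo 7, [.l [8, 9, 7, 7, 5, 3, 4, 0, 1], .l [2, 8], .l [1, 5, 3, 6], .y [0, 2, 7, 5, 3], .l [4, 7, 5, 1, 4, 2, 3], .l [5, 8], .l [4, 7, 5, 1, 4, 2, 3], .l [6, 9, 7, 7, 5, 1, 4, 2, 1], .l [7, 8], .l [6, 9, 7, 7, 5, 1, 4, 2, 1], .l [6, 7, 5, 5, 3, 1, 2, 0, 1], .r 1000 [1, 2, 3, 4, 5] [1, 1, 1, 1, 1], .l [6, 7, 5, 5, 3, 1, 2, 0, 1]]),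
([p 2 1, g, s 1 0, p 3 2, g, p 0 3, g], .lo 5, [.l [6, 7, 5, 3, 4, 0, 1], .l [2, 6], .l [1, 5, 3, 4], .y [0, 2, 5, 3], .l [4, 7, 5, 1, 4, 2, 1], .l [5, 6], .l [4, 7, 5, 1, 4, 2, 1], .l [4, 5, 3, 1, 2, 0, 1], .r 1001 [1, 2, 3, 4] [1, 1, 1, 1], .l [4, 5, 3, 1, 2, 0, 1]]),
([p 2 1, g, s 1 0, p 0 2, g], .lo 3, [.l [4, 3, 4, 0, 1], .l [2, 4], .l [1, 5, 3, 2], .c, .l [2, 1, 2, 0, 1], .r 1002 [1, 2, 3] [1, 1, 1], .l [2, 1, 2, 0, 1]]),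
([p 4 1, s 2 0, g, s 0 2, g, p 3 0, g, s 1 0, p 5 3, g, p 0 4, g, p 6 5, g, p 0 6, g], .lo 10, [.l [7, 6, 8], .l [11, 14, 12, 8, 3, 8, 0, 5], .l [3, 11], .l [2, 12, 9, 8], .l [11, 14, 12, 8, 1, 8, 0, 3], .l [5, 11], .l [0, 8, 3, 9, 11, 9, 9, 3, 1, 6, 1, 7, 3], .l [5, 9], .l [11, 14, 12, 8, 1, 8, 0, 1], .l [7, 11], .l [6, 10, 8, 10, 5, 4], .y [0, 7, 10], .l [9, 14, 12, 6, 1, 8, 2, 1], .l [10, 11], .l [2, 12, 9, 9, 4, 6, 5, 9, 3, 7, 1, 7, 3], .l [9, 10, 0, 9, 11, 9, 6], .l [10, 14, 11, 6, 1, 7, 9, 11, 9, 7, 1, 7, 3], .l [9, 10, 0, 9], .l [9, 10, 0, 11, 13, 11, 11, 9, 6], .l [2, 10, 7, 7, 2, 4, 3, 7, 3, 7, 1, 7, 3], .l [5, 10, 4, 2, 7, 4, 9, 11, 9, 9, 7, 4, 1], .l [9, 12, 10, 6, 1, 6, 0, 9], .l [2, 10, 7, 7, 2, 4, 3, 7,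 3, 9, 3, 5, 3], .l [9, 10, 0, 13]]),
([p 4 1, s 2 0, g, s 0 2, g, p 3 0, g, s 1 0, p 5 3, g, p 0 4, g, p 0 5, g], .lo 12, [.l [7, 6, 10], .l [13, 14, 10, 8, 3, 10, 2, 7], .l [3, 13], .l [2, 12, 9, 11], .l [13, 14, 10, 8, 1, 10, 2, 5], .l [5, 13], .l [4, 12, 7, 11], .y [5, 12, 8], .l [6, 12, 5, 11, 1, 6, 9, 2, 6], .l [7, 13], .l [6, 10, 8, 10, 5, 9], .l [6, 10, 3, 9, 1, 6, 7, 0, 4], .l [9, 12, 2, 11, 11, 9, 6], .l [10, 13], .l [9, 12, 2, 11], .l [11, 14, 10, 6, 1, 10, 4, 1], .l [12, 13], .l [11, 14, 10, 6, 1, 10, 4, 1], .l [11, 12, 8, 6, 1, 8, 2, 7], .r 1004 [1, 2, 3, 4, 5, 6] [1, 1, 1, 1, 1, 1, 1], .l [11, 12, 8, 6, 1, 8, 2, 7]]),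
([p 4 1, s 2 0, g, p 3 0, g, s 0 2, g, s 1 0, p 5 3, g, p 0 4, g, p 0 5, g], .hi 1, [.l [7, 5, 11, 4, 7, 4, 9, 4, 6, 3], .l [2, 12, 9, 9, 2], .r 531 [1, 6, 2, 4] [1, 3, 1, 2, 3], .l [5, 3, 11, 6, 9, 4, 9, 4, 6, 3], .l [4, 10, 8, 10, 7, 7, 2], .l [5, 3, 11, 6, 9, 4, 9, 4, 6], .y [1, 5], .l [5, 3, 11, 6, 9, 4, 9, 4, 6, 3], .l [5, 3, 11, 6, 9, 4, 9, 4, 6, 3], .l [7, 5, 11, 4, 9, 6, 9, 2, 6], .l [5, 3, 11, 6, 9, 6, 9, 2, 4, 5], .l [7, 6, 8], .l [5, 3, 11, 6, 9, 6, 9, 2, 4, 5], .l [7, 6, 8], .l [5, 3, 9, 4, 7, 4, 9, 4, 6, 3], .l [7, 6, 10], .l [5, 3, 9, 4, 7, 4, 9, 4, 6, 3], .l [7, 6, 10], .l [5, 3, 9, 4, 7, 4, 7, 2, 4, 5], .l [5, 3, 9, 4, 7, 4, 7, 2, 4, 5], .l [7, 14, 7, 12, 3, 9, 1, 8, 5]]),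
([p 3 1, s 2 0, g, s 0 2, g, s 1 0, p 4 0, g, p 0 3, g, p 0 4, g], .hi 6, [.l [8, 4, 9, 1, 9, 4, 6], .r 1006 [1, 2, 5, 3, 4] [1, 1, 1, 1, 1, 1], .l [8, 4], .l [6, 2, 7, 1, 7, 2, 4], .l [8, 2, 9, 1, 9, 2, 6], .r 1005 [1, 2, 5, 3, 4] [1, 1, 1, 1, 1, 1], .l [8, 2], .l [8, 1, 11, 9, 4], .l [6, 7], .l [8, 1], .l [6, 7], .l [10, 3, 9, 7, 9, 7, 4], .l [6, 9], .l [10, 3], .y [6, 10], .l [2, 12, 5, 1, 7, 7, 4, 1], .l [6, 11], .l [12, 5]]),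
([p 4 1, s 2 0, g, s 0 2, g, s 1 0, p 3 0, g, p 5 3, g, p 0 4, g, p 6 5, g, p 0 6, g], .lo 10, [.l [5, 4, 8], .l [11, 14, 12, 12, 10, 6, 3, 6, 0, 3], .l [3, 11], .l [2, 12, 9, 8], .l [11, 14, 12, 12, 10, 6, 1, 6, 0, 1], .l [5, 11], .l [4, 12, 7, 6], .y [0, 5, 10], .l [6, 9], .l [7, 10, 8, 4, 1, 8, 4, 3], .l [8, 11], .l [2, 12, 9, 9, 4, 3, 10, 8, 8, 4, 5, 7, 5], .l [9, 14, 12, 12, 10, 4, 1, 6, 2, 1], .l [10, 11], .l [2, 12, 9, 9, 2, 1, 10, 6, 6, 4, 5, 7, 5], .l [9, 10, 0, 9, 11, 9, 9, 7, 4], .l [10, 14, 11, 9, 11, 13, 11, 11, 9, 4, 1, 5, 1], .l [9, 10, 0, 9], .l [9, 10, 0, 11, 13, 11, 11, 9, 9, 7, 4], .l [12, 16, 15, 13, 11, 13, 11, 11, 9, 4, 1, 5, 1], .l [6, 10, 3, 1, 7, 4, 1, 3, 7, 9, 7, 7, 5], .l [9, 12, 10, 10, 8,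 4, 1, 4, 0, 7], .l [12, 14, 13, 13, 9, 11, 3, 1, 7, 4, 1, 7, 3], .l [9, 10, 0, 13]]),
([p 4 1, s 2 0, g, s 0 2, g, s 1 0, p 3 0, g, p 5 3, g, p 0 4, g, p 0 5, g], .lo 12, [.l [5, 4, 10], .l [13, 14, 10, 10, 8, 6, 3, 8, 2, 5], .l [3, 13], .l [2, 12, 9, 11], .l [13, 14, 10, 10, 8, 6, 1, 8, 2, 3], .l [5, 13], .l [4, 12, 7, 11], .l [7, 2, 10, 4, 9, 7, 8, 0, 5], .y [6, 12, 8], .l [7, 10, 8, 4, 1, 8, 4, 7], .l [8, 13], .l [7, 10, 8, 4, 1, 8, 4, 7], .l [9, 12, 2, 11, 11, 9, 9, 7, 4], .l [10, 13], .l [9, 12, 2, 11], .l [11, 14, 10, 10, 8, 4, 1, 8, 4, 1], .l [12, 13], .l [11, 14, 10, 10, 8, 4, 1, 8, 4, 1], .l [11, 12, 8, 8, 6, 4, 1, 6, 2, 5], .r 1008 [1, 2, 3, 4, 5, 6] [1, 1, 1, 1, 1, 1, 1], .l [11, 12, 8, 8, 6, 4, 1, 6, 2,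 5]]),
([p 5 1, s 2 0, g, s 0 2, g, s 1 3, p 4 0, g, p 3 4, g, p 6 5, g, p 0 6, g], .hi 6, [.l [8, 4, 11, 3, 7, 3, 6, 1, 2, 1], .l [9, 10, 8, 10, 2, 8, 3, 6, 6, 4, 1, 5, 1], .l [8, 4], .l [0, 4, 9, 10, 9, 1, 2, 1, 6, 4, 1, 3, 1], .l [9, 12, 2, 8, 11, 4, 9, 6, 7, 0, 4], .l [2, 12, 9, 9, 4, 6, 5, 5, 3, 3, 1, 5, 3], .l [8, 2], .l [8, 1, 9, 7, 4], .l [6, 7], .l [8, 1], .l [0, 4, 9, 3, 9, 4, 1, 6, 2, 1], .l [6, 9], .l [10, 3], .l [7, 8, 6, 4, 1, 8, 3, 4, 0, 1], .l [6, 11], .l [12, 5], .y [0, 5, 8, 6, 12, 10], .l [7, 8, 6, 4, 1, 10, 5, 6, 0, 3], .l [6, 13], .l [14, 7]]),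
([p 5 1, s 2 0, g, s 0 2, g, s 1 3, p 4 0, g, p 3 4, g, p 0 5, g], .lo 10, [.l [5, 4, 8], .l [0, 6, 3, 9, 1, 2, 1], .l [3, 11], .l [0, 6, 3, 9, 1, 2, 1], .l [0, 6, 1, 9, 1, 2, 1], .l [5, 11], .l [0, 6, 1, 9, 1, 2, 1], .y [0, 5, 8, 6, 10], .l [7, 10, 8, 4, 1, 8, 4, 3], .l [8, 11], .l [7, 10, 8, 4, 1, 8, 4, 3], .l [9, 1, 2, 1, 1, 4, 1, 6, 2, 1], .l [10, 11], .l [9, 12, 2, 1], .l [7, 10, 2, 6, 4, 7, 2, 0, 4], .r 1010 [1, 2, 3, 4, 5, 6] [1, 1, 1, 1, 1, 1], .l [7, 10, 2, 6, 4, 7, 2, 0, 4]]),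
([p 5 1, s 2 0, g, s 0 2, g, s 1 0, p 3 0, g, p 4 3, g, p 6 4, g, p 0 5, g, p 0 6, g], .lo 12, [.l [5, 4, 10], .l [13, 16, 14, 14, 12, 12, 10, 6, 3, 6, 0, 3], .l [3, 13], .l [0, 6, 3, 11, 13, 11, 11, 9, 9, 7, 5, 4, 1], .l [13, 16, 14, 14, 12, 12, 10, 6, 1, 6, 0, 1], .l [5, 13], .l [0, 6, 1, 11, 13, 11, 11, 9, 9, 7, 5, 4, 1], .y [0, 5, 12], .l [6, 11], .l [7, 10, 8, 4, 1, 10, 6, 5], .l [8, 13], .l [2, 14, 11, 11, 6, 5, 12, 10, 10, 8, 8, 4, 5], .l [9, 12, 10, 10, 8, 4, 1, 8, 4, 3], .l [10, 13], .l [2, 14, 11, 11, 4, 3, 12, 10, 10, 6, 6, 4, 5], .l [11, 16, 14, 14, 12, 12, 10, 4, 1, 6, 2, 1], .l [12, 13], .l [2, 14, 11, 11, 2, 1, 12, 8, 8, 6, 6, 4, 5], .l [11, 12, 0, 11, 13, 11, 11, 9, 9, 7, 4], .l [12, 14, 13, 15, 13,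 13, 11, 11, 9, 4, 1, 5, 1], .l [8, 10, 9, 11, 3, 1, 7, 4, 1, 3, 5, 7, 5], .l [11, 14, 12, 12, 10, 10, 8, 4, 1, 4, 0, 5], .l [12, 14, 11, 11, 9, 11, 3, 1, 7, 4, 1, 7, 3], .l [11, 12, 0, 13]]),
([p 6 1, g, s 2 0, g, s 0 2, g, s 1 3, p 4 0, g, p 5 4, g, p 3 5, g, p 0 6, g], .lo 13, [.l [14, 6, 4, 4, 2, 2, 0, 7, 8, 0, 5], .l [2, 14], .l [1, 15, 13, 12], .l [10, 11, 9, 6, 1, 9, 2, 4, 3, 3, 1, 3, 1], .l [14, 6, 4, 4, 2, 2, 0, 7, 8, 0, 3], .l [4, 14], .l [3, 15, 11, 10], .l [14, 6, 4, 4, 2, 2, 0, 7, 8, 0, 1], .l [6, 14], .l [5, 15, 9, 8], .y [0, 6, 11, 9, 7, 13], .l [8, 11, 9, 5, 12, 6, 5], .l [9, 14], .l [5, 15, 9, 6, 3, 6, 6, 4, 1], .l [10, 13, 11, 11, 9, 5, 10, 4, 3], .l [11, 14], .l [10, 13, 11, 11, 9, 5, 10, 4, 3], .l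 [12, 6, 4, 4, 2, 2, 0, 5, 8, 2, 1], .l [13, 14], .l [12, 15, 2, 1], .l [10, 11, 9, 11, 2, 7, 5, 8, 2, 0, 5], .l [10, 11, 9, 6, 1, 9, 2, 4, 3, 3, 1, 5, 3], .l [10, 11, 9, 11, 2, 7, 5, 8, 2, 0, 5]]),
([p 6 1, s 2 0, g, s 0 2, g, s 1 0, p 3 0, g, p 4 3, g, p 5 4, g, p 0 5, g, p 0 6, g], .lo 12, [.l [5, 4, 10], .l [13, 14, 12, 12, 10, 10, 8, 6, 3, 8, 2, 5], .l [3, 13], .l [0, 6, 3, 11, 11, 9, 9, 7, 7, 5, 7, 6, 1], .l [13, 14, 12, 12, 10, 10, 8, 6, 1, 8, 2, 3], .l [5, 13], .l [0, 6, 1, 11, 11, 9, 9, 7, 7, 5, 7, 6, 1], .l [0, 4, 9, 10, 9, 9, 7, 9, 6, 1, 3, 4, 3], .y [6, 12, 10, 8], .l [7, 10, 8, 4, 1, 12, 8, 5], .l [8, 13], .l [6, 16, 9, 3, 13, 4, 1, 5, 7, 1, 7, 1, 5], .l [9, 12, 10, 10, 8, 4, 1, 10, 6, 3], .l [10, 13], .l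 [6, 16, 9, 1, 13, 4, 1, 9, 3, 3, 1, 1, 5], .l [11, 14, 12, 12, 10, 10, 8, 4, 1, 8, 4, 1], .l [12, 13], .l [8, 10, 9, 15, 7, 1, 11, 4, 1, 7, 1, 1, 5], .l [11, 12, 10, 10, 8, 8, 6, 4, 1, 8, 4, 1], .l [12, 14, 13, 13, 11, 11, 9, 9, 7, 4, 1, 7, 3], .l [10, 12, 11, 11, 9, 13, 5, 1, 9, 4, 1, 5, 5], .l [11, 12, 10, 10, 8, 8, 6, 4, 1, 6, 2, 5], .l [12, 16, 15, 15, 13, 13, 11, 11, 9, 4, 1, 5, 1], .l [8, 10, 9, 13, 5, 1, 9, 4, 1, 5, 7, 1, 5]]),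
([p 5 1, s 2 0, g, s 0 2, g, s 1 0, p 3 0, g, p 4 3, g, p 0 4, g, p 0 5, g], .lo 10, [.l [5, 4, 8], .l [11, 12, 10, 10, 8, 6, 3, 8, 2, 5], .l [3, 11], .l [2, 14, 11, 8], .l [11, 12, 10, 10, 8, 6, 1, 8, 2, 3], .l [5, 11], .l [4, 14, 9, 6], .r 1013 [1, 2, 6, 3, 4, 5] [0, 1, 1, 1, 1, 1, 1], .y [6, 10, 8], .l [7, 10, 8, 4, 1, 10, 6, 3], .l [8, 11], .l [7, 10, 8, 4, 1, 10, 6, 3], .l [9, 12, 10, 10, 8, 4, 1, 8, 4, 1], .l [10, 11], .l [9, 12, 10, 10, 8, 4, 1, 8, 4, 1], .l [9, 10, 8, 8, 6, 4, 1, 8, 4, 1], .r 1014 [1, 2, 3, 4, 6, 5] [1, 1, 1, 1, 1, 1, 1], .l [9, 10, 8, 8, 6, 4, 1, 8, 4, 1], .l [9, 10, 8, 8, 6, 4, 1, 6, 2, 5], .r 1012 [1, 2, 3, 4, 5, 6] [1, 1, 1, 1, 1, 1, 1], .l [9, 10, 8, 8, 6, 4, 1, 6, 2, 5]]),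
([p 4 1, s 2 0, g, s 0 2, g, s 1 0, p 3 0, g, p 0 3, g, p 0 4, g], .lo 8, [.l [5, 4, 6], .l [9, 10, 8, 6, 3, 8, 2, 5], .l [3, 9], .l [2, 12, 9, 6], .l [9, 10, 8, 6, 1, 8, 2, 3], .l [5, 9], .l [4, 12, 7, 4], .r 1011 [1, 2, 5, 3, 4] [1, 1, 1, 1, 1], .y [6, 8], .l [7, 10, 8, 4, 1, 8, 4, 1], .l [8, 9], .l [7, 10, 8, 4, 1, 8, 4, 1], .l [7, 8, 6, 4, 1, 8, 4, 1], .r 1015 [1, 2, 3, 5, 4] [1, 1, 1, 1, 1, 1], .l [7, 8, 6, 4, 1, 8, 4, 1], .l [7, 8, 6, 4, 1, 6, 2, 5], .r 1009 [1, 2, 3, 4, 5] [1, 1, 1, 1, 1, 1], .l [7, 8, 6, 4, 1, 6, 2, 5]]),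
([p 3 1, s 2 0, g, s 0 2, g, s 1 0, p 0 0, g, p 0 3, g], .lo 6, [.l [5, 4, 4], .l [4, 10, 5, 5, 2, 5], .l [3, 7], .l [2, 10, 7, 4], .l [2, 10, 7, 7, 2, 3], .l [5, 7], .l [4, 10, 5, 2], .c, .y [6], .l [2, 10, 7, 7, 4, 1], .r 1016 [1, 2, 4, 3] [1, 1, 1, 1, 1], .l [2, 10, 7, 7, 4, 1], .l [2, 8, 5, 5, 2, 5], .r 1007 [1, 2, 3, 4] [1, 1, 1, 1, 1], .l [2, 8, 5, 5, 2, 5]]),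
([p 3 1, s 2 0, g, s 0 2, g, s 1 0, g, p 0 3, g], .top 6, [.r 1003 [1, 3] [4, 1], .r 996 [1, 2, 3] [1, 1, 1, 1], .r 1017 [1, 2, 3] [1, 1, 1, 1], .r 924 [1, 2, 3] [1, 1, 1, 1]]),
([p 5 1, s 0 2, g, s 2 0, g, s 1 0, m 0 3, g, m 3 4, g, p 0 5, g, m 4 6, g, m 6 0, g], .lo 10, [.l [11, 14, 12, 12, 10, 6, 3, 6, 0, 3], .l [3, 11], .l [2, 12, 9, 8], .l [9, 12, 10, 10, 8, 4, 1, 4, 0, 1], .l [11, 14, 12, 12, 10, 6, 1, 6, 0, 1], .l [5, 11], .l [4, 12, 7, 6], .y [0, 5, 10], .l [7, 10, 8, 4, 1, 8, 4, 3], .l [8, 11], .l [2, 12, 9, 9, 4, 3, 10, 8, 8, 4, 5, 7, 5], .l [9, 14, 12, 12, 10, 4, 1, 6, 2, 1], .l [10, 11], .l [2, 12, 9, 9, 2, 1, 10, 6, 6, 4, 5, 7, 5], .l [9, 10, 0, 9, 11, 9, 9, 7, 4], .l [10, 14, 11, 9, 11, 13, 11, 11, 9,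 4, 1, 5, 1], .l [9, 10, 0, 9], .l [9, 10, 0, 11, 13, 11, 11, 9, 9, 7, 4], .l [12, 16, 15, 13, 11, 13, 11, 11, 9, 4, 1, 5, 1], .l [6, 10, 3, 1, 7, 4, 1, 3, 7, 9, 7, 7, 5], .l [6, 10, 3, 1, 7, 4, 1, 3, 7, 7, 5, 5, 3], .l [9, 12, 10, 10, 8, 4, 1, 4, 0, 7], .l [12, 14, 13, 13, 9, 11, 3, 1, 7, 4, 1, 7, 3], .l [9, 10, 0, 13]]),
([p 5 1, s 0 2, g, s 2 0, g, s 1 0, m 0 3, g, m 3 4, g, p 0 5, g, m 4 0, g], .hi 12, [.l [5, 4, 10], .l [13, 14, 10, 10, 8, 6, 3, 8, 2, 5], .l [2, 12, 9, 11], .l [3, 13], .l [13, 14, 10, 10, 8, 6, 1, 8, 2, 3], .l [4, 12, 7, 11], .l [5, 13], .y [6, 8, 12], .l [7, 10, 8, 4, 1, 8, 4, 7], .l [7, 10, 8, 4, 1, 8, 4, 7], .l [8, 13], .l [9, 12, 2, 11, 11, 9, 9, 7, 4], .l [9, 12, 2, 11], .l [10, 13], .l [9,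 10, 0, 9], .l [11, 14, 10, 10, 8, 4, 1, 8, 4, 1], .l [11, 14, 10, 10, 8, 4, 1, 8, 4, 1], .l [12, 13], .l [11, 12, 8, 8, 6, 4, 1, 6, 2, 5], .l [11, 12, 8, 8, 6, 4, 1, 6, 2, 5], .r 1019 [1, 2, 3, 4, 5, 6] [1, 1, 1, 1, 1, 1, 1]]),
([p 6 1, s 0 2, g, s 2 0, g, s 1 0, m 0 3, g, m 3 4, g, m 4 5, g, m 5 0, g, p 0 6, g], .hi 12, [.l [5, 4, 10], .l [13, 14, 12, 12, 10, 10, 8, 6, 3, 8, 2, 5], .l [0, 6, 3, 11, 11, 9, 9, 7, 7, 5, 7, 6, 1], .l [3, 13], .l [13, 14, 12, 12, 10, 10, 8, 6, 1, 8, 2, 3], .l [0, 6, 1, 11, 11, 9, 9, 7, 7, 5, 7, 6, 1], .l [5, 13], .y [6, 8, 10, 12], .l [7, 10, 8, 4, 1, 12, 8, 5], .l [6, 16, 9, 3, 13, 4, 1, 5, 7, 1, 7, 1, 5], .l [8, 13], .l [9, 12, 10, 10, 8, 4, 1, 10, 6, 3], .l [6, 16, 9, 1, 13, 4, 1, 9,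 3, 3, 1, 1, 5], .l [10, 13], .l [11, 14, 12, 12, 10, 10, 8, 4, 1, 8, 4, 1], .l [8, 10, 9, 15, 7, 1, 11, 4, 1, 7, 1, 1, 5], .l [12, 13], .l [11, 12, 10, 10, 8, 8, 6, 4, 1, 8, 4, 1], .l [10, 12, 11, 11, 9, 13, 5, 1, 9, 4, 1, 5, 5], .l [12, 14, 13, 13, 11, 11, 9, 9, 7, 4, 1, 7, 3], .l [10, 12, 11, 11, 9, 11, 3, 1, 7, 4, 1, 3, 3], .l [11, 12, 10, 10, 8, 8, 6, 4, 1, 6, 2, 5], .l [8, 10, 9, 13, 5, 1, 9, 4, 1, 5, 7, 1, 5], .l [12, 16, 15, 15, 13, 13, 11, 11, 9, 4, 1, 5, 1]]),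
([p 6 1, s 0 2, g, s 2 0, g, s 1 0, m 0 3, g, m 3 4, g, m 4 5, g, p 0 6, g, m 5 0, g], .lo 12, [.l [13, 16, 14, 14, 12, 12, 10, 6, 3, 6, 0, 3], .l [3, 13], .l [0, 6, 3, 11, 13, 11, 11, 9, 9, 7, 5, 4, 1], .l [11, 14, 12, 12, 10, 10, 8, 4, 1, 4, 0, 1], .l [13, 16, 14, 14, 12, 12, 10, 6, 1, 6, 0, 1], .l [5, 13], .l [0, 6, 1, 11, 13, 11, 11, 9, 9, 7, 5, 4, 1], .y [0, 5, 12], .l [7, 10, 8, 4, 1, 10, 6, 5], .l [8, 13], .l [2, 14, 11, 11, 6, 5, 12, 10, 10, 8, 8, 4, 5], .l [9, 12, 10, 10, 8, 4, 1, 8, 4, 3], .l [10, 13], .l [2, 14, 11, 11, 4, 3, 12, 10, 10, 6, 6, 4, 5], .l [11, 16, 14, 14, 12, 12, 10, 4, 1, 6, 2, 1], .l [12, 13], .l [2, 14, 11, 11, 2, 1, 12, 8, 8, 6, 6, 4, 5], .l [11, 12, 0, 11, 13, 11, 11, 9, 9, 7, 4], .l [12,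 14, 13, 15, 13, 13, 11, 11, 9, 4, 1, 5, 1], .l [8, 10, 9, 11, 3, 1, 7, 4, 1, 3, 5, 7, 5], .l [8, 10, 9, 11, 3, 1, 7, 4, 1, 3, 5, 5, 3], .l [11, 14, 12, 12, 10, 10, 8, 4, 1, 4, 0, 5], .l [12, 14, 11, 11, 9, 11, 3, 1, 7, 4, 1, 7, 3], .l [11, 12, 0, 13]]),
([p 5 1, s 0 2, g, s 2 0, g, s 1 0, m 0 3, g, m 3 4, g, m 4 0, g, p 0 5, g], .hi 10, [.l [5, 4, 8], .l [11, 12, 10, 10, 8, 6, 3, 8, 2, 5], .l [2, 14, 11, 8], .l [3, 11], .l [11, 12, 10, 10, 8, 6, 1, 8, 2, 3], .l [4, 14, 9, 6], .l [5, 11], .y [6, 8, 10], .l [7, 10, 8, 4, 1, 10, 6, 3], .l [7, 10, 8, 4, 1, 10, 6, 3], .l [8, 11], .l [9, 12, 10, 10, 8, 4, 1, 8, 4, 1], .l [9, 12, 10, 10, 8, 4, 1, 8, 4, 1], .l [10, 11], .l [9, 10, 8, 8, 6, 4, 1, 8, 4, 1], .l [9, 10, 8, 8, 6,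 4, 1, 8, 4, 1], .r 1021 [1, 2, 3, 4, 6, 5] [1, 1, 1, 1, 1, 1, 1], .l [9, 10, 8, 8, 6, 4, 1, 6, 2, 1], .l [9, 10, 8, 8, 6, 4, 1, 6, 2, 5], .l [9, 10, 8, 8, 6, 4, 1, 6, 2, 5], .r 1022 [1, 2, 3, 4, 6, 5] [1, 1, 1, 1, 1, 1, 1]])]

def D03 : List (List (List Item × Qry × List Rf)) := [d03_0, d03_1, d03_2, d03_3]

end Pool.Agent.H63.PU.C161
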