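import Pool.Agent.H63.PU.Ck3

/-! Certificate data, machine generated. -/

namespace Pool.Agent.H63.PU.C161

open Pool.Agent.H63.PU Pool.Agent.H63.PU.Ck3 Pool.Agent.H63.PU.Short

set_option maxRecDepth 20000

def d04_0 : List (List Item × Qry × List Rf) := [
([p 4 1, s 0 2, g, s 2 0, g, s 1 0, m 0 3, g, m 3 0, g, p 0 4, g], .hi 8, [.l [5, 4, 6], .l [9, 10, 8, 6, 3, 8, 2, 5], .l [2, 12, 9, 6], .l [3, 9], .l [9, 10, 8, 6, 1, 8, 2, 3], .l [4, 12, 7, 4], .l [5, 9], .y [6, 8], .l [7, 10, 8, 4, 1, 8, 4, 1], .l [7, 10, 8, 4, 1, 8, 4, 1], .l [8, 9], .l [7, 8, 6, 4, 1, 8, 4, 1], .l [7, 8, 6, 4, 1, 8, 4, 1], .r 1023 [1, 2, 3, 5, 4] [1, 1, 1, 1, 1, 1], .l [7, 8, 6, 4, 1, 6, 2, 1], .l [7, 8, 6, 4, 1, 6, 2, 5], .l [7, 8, 6, 4, 1, 6,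 2, 5], .r 1020 [1, 2, 3, 5, 4] [1, 1, 1, 1, 1, 1]]),
([p 4 1, s 0 2, g, s 2 0, g, s 1 0, m 0 3, g, p 0 4, g, m 3 5, g, m 5 6, g, m 6 0, g], .lo 6, [.l [8, 4, 9, 1, 9, 4, 6], .l [8, 4], .l [14, 16, 15, 15, 13, 13, 9, 6, 3, 7, 5, 7, 3], .l [6, 2, 7, 1, 7, 2, 4], .l [8, 2, 9, 1, 9, 2, 6], .l [8, 2], .l [12, 14, 13, 13, 9, 6, 1, 9, 3, 5, 3, 7, 3], .l [10, 12, 11, 11, 7, 4, 1, 7, 3, 3, 1, 5, 3], .l [8, 1, 11, 9, 4], .l [8, 1], .l [6, 7], .l [10, 3, 9, 7, 9, 7, 4], .l [10, 3], .l [6, 9], .l [2, 12, 5, 1, 7, 7, 4, 1], .l [12, 5], .l [6, 11], .l [2, 14, 7, 1, 9, 9, 6, 3], .l [14, 7], .l [6, 13], .y [6, 10, 12, 14], .l [2, 16, 9, 1, 11, 11, 8, 5], .l [16, 9], .l [6, 15]]),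
([p 4 1, s 0 2, g, s 2 0, g, s 1 0, m 0 3, g, p 0 4, g, m 3 5, g, m 5 0, g], .hi 12, [.l [5, 4, 10], .l [13, 14, 12, 12, 8, 6, 3, 8, 2, 5], .l [2, 10, 7, 11], .l [3, 13], .l [13, 14, 12, 12, 8, 6, 1, 8, 2, 3], .l [4, 10, 5, 11], .l [5, 13], .y [6, 10, 12], .l [7, 10, 2, 11, 11, 9, 9, 7, 4], .l [7, 10, 2, 11], .l [8, 13], .l [7, 8, 0, 9], .l [9, 12, 8, 4, 1, 8, 4, 7], .l [9, 12, 8, 4, 1, 8, 4, 7], .l [10, 13], .l [11, 14, 12, 12, 8, 4, 1, 8, 4, 1], .l [11, 14, 12, 12, 8, 4, 1, 8, 4, 1], .l [12, 13], .l [11, 12, 10, 10, 6, 4, 1, 6, 2, 5], .l [11, 12, 10, 10, 6, 4, 1, 6, 2, 5], .r 1025 [1, 2, 3, 4, 5, 6] [1, 1, 1, 1, 1, 1, 1]]),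
([p 4 1, s 0 2, g, s 2 0, g, s 1 0, m 0 3, g, p 0 4, g, m 3 0, g], .hi 10, [.l [5, 4, 8], .l [11, 12, 8, 6, 3, 8, 2, 5], .l [2, 10, 7, 9], .l [3, 11], .l [11, 12, 8, 6, 1, 8, 2, 3], .l [4, 10, 5, 9], .l [5, 11], .y [6, 10], .l [7, 10, 2, 9, 9, 7, 4], .l [7, 10, 2, 9], .l [8, 11], .l [7, 8, 0, 7], .l [9, 12, 8, 4, 1, 8, 4, 1], .l [9, 12, 8, 4, 1, 8, 4, 1], .l [10, 11], .l [9, 10, 6, 4, 1, 6, 2, 5], .l [9, 10, 6, 4, 1, 6, 2, 5], .r 1026 [1, 2, 3, 4, 5] [1, 1, 1, 1, 1, 1]]),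
([p 3 1, s 0 2, g, s 2 0, g, s 1 0, m 0 0, g, p 0 3, g], .hi 6, [.l [5, 4, 4], .l [4, 10, 5, 5, 2, 5], .l [2, 10, 7, 4], .l [3, 7], .l [2, 10, 7, 7, 2, 3], .l [4, 10, 5, 2], .l [5, 7], .y [6], .l [2, 10, 7, 7, 4, 1], .l [2, 10, 7, 7, 4, 1], .r 1024 [1, 2, 4, 3] [1, 1, 1, 1, 1], .l [2, 8, 5, 5, 2, 1], .l [2, 8, 5, 5, 2, 5], .l [2, 8, 5, 5, 2, 5], .r 1027 [1, 2, 4, 3] [1, 1, 1, 1, 1]]),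
([p 5 1, s 0 2, g, s 2 0, g, s 1 3, p 4 0, g, p 3 4, g, p 6 5, g, p 0 6, g], .hi 6, [.l [2, 10, 7, 7, 4, 6, 5, 5, 3, 3, 1, 3, 1], .l [8, 4, 11, 3, 7, 3, 6, 1, 2, 1], .l [9, 10, 8, 10, 2, 8, 3, 6, 6, 4, 1, 5, 1], .l [8, 4], .l [9, 12, 2, 8, 11, 4, 9, 6, 7, 0, 4], .l [2, 12, 9, 9, 4, 6, 5, 5, 3, 3, 1, 5, 3], .l [8, 2], .l [8, 1, 9, 7, 4], .l [6, 7], .l [8, 1], .l [0, 4, 9, 3, 9, 4, 1, 6, 2, 1], .l [6, 9], .l [10, 3], .l [7, 8, 6, 4, 1, 8, 3, 4, 0, 1], .l [6, 11], .l [12, 5], .y [0, 5, 8, 6, 12, 10], .l [7, 8, 6, 4, 1, 10, 5, 6, 0, 3], .l [6, 13], .l [14, 7]]),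
([p 5 1, s 0 2, g, s 2 0, g, s 1 3, p 4 0, g, p 3 4, g, p 0 5, g], .lo 10, [.l [0, 6, 3, 9, 1, 2, 1], .l [3, 11], .l [0, 6, 3, 9, 1, 2, 1], .l [0, 4, 1, 7, 1, 2, 1], .l [0, 6, 1, 9, 1, 2, 1], .l [5, 11], .l [0, 6, 1, 9, 1, 2, 1], .y [0, 5, 8, 6, 10], .l [7, 10, 8, 4, 1, 8, 4, 3], .l [8, 11], .l [7, 10, 8, 4, 1, 8, 4, 3], .l [9, 1, 2, 1, 1, 4, 1, 6, 2, 1], .l [10, 11], .l [9, 12, 2, 1], .l [7, 10, 2, 6, 4, 7, 2, 0, 4], .r 1029 [1, 2, 3, 4, 5, 6] [1, 1, 1, 1, 1, 1], .l [7, 10, 2, 6, 4, 7, 2, 0, 4]]),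
([p 5 1, s 0 2, g, s 2 0, g, s 1 0, p 3 0, g, p 4 3, g, p 6 4, g, p 0 5, g, p 0 6, g], .lo 12, [.l [13, 16, 14, 14, 12, 12, 10, 6, 3, 6, 0, 3], .l [3, 13], .l [0, 6, 3, 11, 13, 11, 11, 9, 9, 7, 5, 4, 1], .l [11, 14, 12, 12, 10, 10, 8, 4, 1, 4, 0, 1], .l [13, 16, 14, 14, 12, 12, 10, 6, 1, 6, 0, 1], .l [5, 13], .l [0, 6, 1, 11, 13, 11, 11, 9, 9, 7, 5, 4, 1], .y [0, 5, 12], .l [6, 11], .l [7, 10, 8, 4, 1, 10, 6, 5], .l [8, 13], .l [2, 14, 11, 11, 6, 5, 12, 10, 10, 8, 8, 4, 5], .l [9, 12, 10, 10, 8, 4, 1, 8, 4, 3], .l [10, 13], .l [2, 14, 11, 11, 4, 3, 12, 10, 10, 6, 6, 4, 5], .l [11, 16, 14, 14, 12, 12, 10, 4, 1, 6, 2, 1], .l [12, 13], .l [2, 14, 11, 11, 2, 1, 12, 8, 8, 6, 6, 4, 5], .l [11, 12, 0, 11, 13, 11, 11, 9, 9, 7,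 4], .l [12, 14, 13, 15, 13, 13, 11, 11, 9, 4, 1, 5, 1], .l [8, 10, 9, 11, 3, 1, 7, 4, 1, 3, 5, 7, 5], .l [11, 14, 12, 12, 10, 10, 8, 4, 1, 4, 0, 5], .l [12, 14, 11, 11, 9, 11, 3, 1, 7, 4, 1, 7, 3], .l [11, 12, 0, 13]]),
([p 6 1, s 0 2, g, s 2 0, g, s 1 0, p 3 0, g, p 4 3, g, p 5 4, g, p 0 5, g, p 0 6, g], .lo 12, [.l [13, 14, 12, 12, 10, 10, 8, 6, 3, 8, 2, 5], .l [3, 13], .l [0, 6, 3, 11, 11, 9, 9, 7, 7, 5, 7, 6, 1], .l [10, 12, 11, 11, 9, 11, 3, 1, 7, 4, 1, 1, 3], .l [13, 14, 12, 12, 10, 10, 8, 6, 1, 8, 2, 3], .l [5, 13], .l [0, 6, 1, 11, 11, 9, 9, 7, 7, 5, 7, 6, 1], .l [0, 4, 9, 10, 9, 9, 7, 9, 6, 1, 3, 4, 3], .y [6, 12, 10, 8], .l [7, 10, 8, 4, 1, 12, 8, 5], .l [8, 13], .l [6, 16, 9, 3, 13, 4, 1, 5, 7, 1, 7, 1, 5],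 .l [9, 12, 10, 10, 8, 4, 1, 10, 6, 3], .l [10, 13], .l [6, 16, 9, 1, 13, 4, 1, 9, 3, 3, 1, 1, 5], .l [11, 14, 12, 12, 10, 10, 8, 4, 1, 8, 4, 1], .l [12, 13], .l [8, 10, 9, 15, 7, 1, 11, 4, 1, 7, 1, 1, 5], .l [11, 12, 10, 10, 8, 8, 6, 4, 1, 8, 4, 1], .l [12, 14, 13, 13, 11, 11, 9, 9, 7, 4, 1, 7, 3], .l [10, 12, 11, 11, 9, 13, 5, 1, 9, 4, 1, 5, 5], .l [11, 12, 10, 10, 8, 8, 6, 4, 1, 6, 2, 5], .l [12, 16, 15, 15, 13, 13, 11, 11, 9, 4, 1, 5, 1], .l [8, 10, 9, 13, 5, 1, 9, 4, 1, 5, 7, 1, 5]]),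
([p 6 1, g, s 0 2, g, s 2 0, g, s 1 3, p 4 0, g, p 5 4, g, p 3 5, g, p 0 6, g], .lo 13, [.l [14, 6, 4, 4, 2, 2, 0, 7, 8, 0, 5], .l [2, 14], .l [1, 15, 13, 12], .l [14, 6, 4, 4, 2, 2, 0, 7, 8, 0, 3], .l [4, 14], .l [3, 15, 11, 10], .l [10, 11, 9, 6, 1, 9, 2, 4, 3, 3, 1, 1, 1], .l [14, 6, 4, 4, 2, 2, 0, 7, 8, 0, 1], .l [6, 14], .l [5, 15, 9, 8], .y [0, 6, 11, 9, 7, 13], .l [8, 11, 9, 5, 12, 6, 5], .l [9, 14], .l [5, 15, 9, 6, 3, 6, 6, 4, 1], .l [10, 13, 11, 11, 9, 5, 10, 4, 3], .l [11, 14], .l [10, 13, 11, 11, 9, 5, 10, 4, 3], .l [12, 6, 4, 4, 2, 2, 0, 5, 8, 2, 1], .l [13, 14], .l [12, 15, 2, 1], .l [10, 11, 9, 11, 2, 7, 5, 8, 2, 0, 5], .l [10, 11, 9, 6, 1, 9, 2, 4, 3, 3, 1, 5, 3], .l [10, 11, 9, 11, 2, 7, 5, 8, 2, 0, 5]]),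
([p 5 1, s 0 2, g, s 2 0, g, s 1 0, p 3 0, g, p 4 3, g, p 0 4, g, p 0 5, g], .lo 10, [.l [11, 12, 10, 10, 8, 6, 3, 8, 2, 5], .l [3, 11], .l [2, 14, 11, 8], .l [9, 10, 8, 8, 6, 4, 1, 6, 2, 3], .l [11, 12, 10, 10, 8, 6, 1, 8, 2, 3], .l [5, 11], .l [4, 14, 9, 6], .r 1033 [1, 2, 6, 3, 4, 5] [0, 1, 1, 1, 1, 1, 1], .y [6, 10, 8], .l [7, 10, 8, 4, 1, 10, 6, 3], .l [8, 11], .l [7, 10, 8, 4, 1, 10, 6, 3], .l [9, 12, 10, 10, 8, 4, 1, 8, 4, 1], .l [10, 11], .l [9, 12, 10, 10, 8, 4, 1, 8, 4, 1], .l [9, 10, 8, 8, 6, 4, 1, 8, 4, 1], .r 1032 [1, 2, 3, 4, 6, 5] [1, 1, 1, 1, 1, 1, 1], .l [9, 10, 8, 8, 6, 4, 1, 8, 4, 1], .l [9, 10, 8, 8, 6, 4, 1, 6, 2, 5], .r 1031 [1, 2, 3, 4, 5, 6] [1, 1, 1, 1, 1, 1, 1], .l [9, 10, 8, 8, 6, 4, 1, 6, 2,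 5]]),
([p 4 1, s 0 2, g, s 2 0, g, s 1 0, p 3 0, g, p 5 3, g, p 0 4, g, p 6 5, g, p 0 6, g], .lo 10, [.l [11, 14, 12, 12, 10, 6, 3, 6, 0, 3], .l [3, 11], .l [2, 12, 9, 8], .l [9, 12, 10, 10, 8, 4, 1, 4, 0, 1], .l [11, 14, 12, 12, 10, 6, 1, 6, 0, 1], .l [5, 11], .l [4, 12, 7, 6], .y [0, 5, 10], .l [6, 9], .l [7, 10, 8, 4, 1, 8, 4, 3], .l [8, 11], .l [2, 12, 9, 9, 4, 3, 10, 8, 8, 4, 5, 7, 5], .l [9, 14, 12, 12, 10, 4, 1, 6, 2, 1], .l [10, 11], .l [2, 12, 9, 9, 2, 1, 10, 6, 6, 4, 5, 7, 5], .l [9, 10, 0, 9, 11, 9, 9, 7, 4], .l [10, 14, 11, 9, 11, 13, 11, 11, 9, 4, 1, 5, 1], .l [9, 10, 0, 9], .l [9, 10, 0, 11, 13, 11, 11, 9, 9, 7, 4], .l [12, 16, 15, 13, 11, 13, 11, 11, 9, 4, 1, 5, 1], .l [6, 10, 3, 1, 7, 4, 1, 3, 7, 9, 7,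 7, 5], .l [9, 12, 10, 10, 8, 4, 1, 4, 0, 7], .l [12, 14, 13, 13, 9, 11, 3, 1, 7, 4, 1, 7, 3], .l [9, 10, 0, 13]]),
([p 4 1, s 0 2, g, s 2 0, g, s 1 0, p 3 0, g, p 5 3, g, p 0 4, g, p 0 5, g], .lo 12, [.l [13, 14, 10, 10, 8, 6, 3, 8, 2, 5], .l [3, 13], .l [2, 12, 9, 11], .l [11, 12, 8, 8, 6, 4, 1, 6, 2, 3], .l [13, 14, 10, 10, 8, 6, 1, 8, 2, 3], .l [5, 13], .l [4, 12, 7, 11], .l [7, 2, 10, 4, 9, 7, 8, 0, 5], .y [6, 12, 8], .l [7, 10, 8, 4, 1, 8, 4, 7], .l [8, 13], .l [7, 10, 8, 4, 1, 8, 4, 7], .l [9, 12, 2, 11, 11, 9, 9, 7, 4], .l [10, 13], .l [9, 12, 2, 11], .l [11, 14, 10, 10, 8, 4, 1, 8, 4, 1], .l [12, 13], .l [11, 14, 10, 10, 8, 4, 1, 8, 4, 1], .l [11, 12, 8, 8, 6, 4, 1, 6, 2, 5], .r 1035 [1, 2, 3, 4, 5, 6] [1, 1,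 1, 1, 1, 1, 1], .l [11, 12, 8, 8, 6, 4, 1, 6, 2, 5]]),
([p 4 1, s 0 2, g, s 2 0, g, s 1 0, p 3 0, g, p 0 3, g, p 0 4, g], .lo 8, [.l [9, 10, 8, 6, 3, 8, 2, 5], .l [3, 9], .l [2, 12, 9, 6], .l [7, 8, 6, 4, 1, 6, 2, 3], .l [9, 10, 8, 6, 1, 8, 2, 3], .l [5, 9], .l [4, 12, 7, 4], .r 1030 [1, 2, 5, 3, 4] [1, 1, 1, 1, 1], .y [6, 8], .l [7, 10, 8, 4, 1, 8, 4, 1], .l [8, 9], .l [7, 10, 8, 4, 1, 8, 4, 1], .l [7, 8, 6, 4, 1, 8, 4, 1], .r 1034 [1, 2, 3, 5, 4] [1, 1, 1, 1, 1, 1], .l [7, 8, 6, 4, 1, 8, 4, 1], .l [7, 8, 6, 4, 1, 6, 2, 5], .r 1036 [1, 2, 3, 4, 5] [1, 1, 1, 1, 1, 1], .l [7, 8, 6, 4, 1, 6, 2, 5]]),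
([p 4 1, s 0 2, g, s 2 0, g, p 3 0, g, s 1 0, p 5 3, g, p 0 4, g, p 6 5, g, p 0 6, g], .lo 10, [.l [11, 14, 12, 8, 3, 8, 0, 5], .l [3, 11], .l [2, 12, 9, 8], .l [9, 12, 10, 6, 1, 6, 0, 3], .l [11, 14, 12, 8, 1, 8, 0, 3], .l [5, 11], .l [0, 8, 3, 9, 11, 9, 9, 3, 1, 6, 1, 7, 3], .l [5, 9], .l [11, 14, 12, 8, 1, 8, 0, 1], .l [7, 11], .l [6, 10, 8, 10, 5, 4], .y [0, 7, 10], .l [9, 14, 12, 6, 1, 8, 2, 1], .l [10, 11], .l [2, 12, 9, 9, 4, 6, 5, 9, 3, 7, 1, 7, 3], .l [9, 10, 0, 9, 11, 9, 6], .l [10, 14, 11, 6, 1, 7, 9, 11, 9, 7, 1, 7, 3], .l [9, 10, 0, 9], .l [9, 10, 0, 11, 13, 11, 11, 9, 6], .l [2, 10, 7, 7, 2, 4, 3, 7, 3, 7, 1, 7, 3], .l [5, 10, 4, 2, 7, 4, 9, 11, 9, 9, 7, 4, 1], .l [9, 12, 10, 6, 1, 6, 0, 9], .l [2, 10, 7,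 7, 2, 4, 3, 7, 3, 9, 3, 5, 3], .l [9, 10, 0, 13]]),
([p 4 1, s 0 2, g, s 2 0, g, p 3 0, g, s 1 0, p 5 3, g, p 0 4, g, p 0 5, g], .lo 12, [.l [13, 14, 10, 8, 3, 10, 2, 7], .l [3, 13], .l [2, 12, 9, 11], .l [11, 12, 8, 6, 1, 8, 2, 5], .l [13, 14, 10, 8, 1, 10, 2, 5], .l [5, 13], .l [4, 12, 7, 11], .y [5, 12, 8], .l [6, 12, 5, 11, 1, 6, 9, 2, 6], .l [7, 13], .l [6, 10, 8, 10, 5, 9], .l [6, 10, 3, 9, 1, 6, 7, 0, 4], .l [9, 12, 2, 11, 11, 9, 6], .l [10, 13], .l [9, 12, 2, 11], .l [11, 14, 10, 6, 1, 10, 4, 1], .l [12, 13], .l [11, 14, 10, 6, 1, 10, 4, 1], .l [11, 12, 8, 6, 1, 8, 2, 7], .r 1038 [1, 2, 3, 4, 5, 6] [1, 1, 1, 1, 1, 1, 1], .l [11, 12, 8, 6, 1, 8, 2, 7]]),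
([p 5 1, s 3 2, g, p 0 3, g, p 4 0, g, s 2 0, g, s 1 0, p 6 4, g, p 0 5, g, p 0 6, g], .lo 12, [.l [13, 16, 14, 10, 7, 10, 0, 3], .l [3, 13], .l [0, 10, 7, 11, 11, 8, 5], .l [13, 16, 14, 10, 7, 10, 0, 5], .l [5, 13], .l [0, 10, 5, 11, 11, 8, 3, 8, 2, 6, 1, 6, 2], .l [5, 11], .l [13, 16, 14, 10, 7, 10, 0, 7], .l [7, 13], .l [6, 12, 10, 12, 7, 6], .l [6, 10, 8, 10, 5, 5, 2, 6, 1, 3, 1, 5, 1], .l [13, 16, 14, 10, 5, 10, 0, 1], .l [9, 13], .l [8, 12, 8, 12, 7, 6], .y [0, 9, 12], .l [11, 16, 14, 8, 5, 10, 2, 1], .l [12, 13], .l [6, 10, 8, 12, 7, 7, 4, 8, 1, 5, 1, 7, 1], .l [11, 12, 0, 11, 13, 11, 8], .l [6, 10, 8, 10, 5, 5, 2, 6, 1, 7, 3, 7, 5], .l [6, 12, 5, 5, 7, 1, 4, 6, 1, 6, 8, 6, 3], .l [11, 14, 12, 8, 5, 8, 0, 9], .l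 [6, 10, 8, 10, 5, 5, 2, 6, 1, 9, 5, 3, 1], .l [7, 5, 5, 3, 10, 4, 8, 5, 8, 2, 5, 5, 5]]),
([p 4 1, s 0 2, g, p 3 0, g, s 2 0, g, s 1 0, p 5 3, g, p 0 4, g, p 0 5, g], .lo 1, [.l [7, 5, 11, 4, 7, 4, 9, 4, 6, 3], .r 1040 [1, 2, 6, 3, 4, 5] [1, 1, 1, 1, 1, 1, 1], .l [2, 12, 9, 9, 2], .l [3, 1, 9, 6, 7, 2, 7, 4, 4], .l [5, 3, 11, 6, 9, 4, 9, 4, 6, 3], .l [5, 3, 11, 6, 9, 4, 9, 4, 6], .l [4, 10, 8, 10, 7, 7, 2], .y [1, 5], .l [5, 3, 11, 6, 9, 4, 9, 4, 6, 3], .l [7, 5, 11, 4, 9, 6, 9, 2, 6], .l [5, 3, 11, 6, 9, 4, 9, 4, 6, 3], .l [5, 3, 9, 4, 7, 4, 7, 2, 4, 3], .l [5, 3, 11, 6, 9, 6, 9, 2, 4, 5], .l [5, 3, 11, 6, 9, 6, 9, 2, 4, 5], .l [7, 6, 8], .l [5, 3, 9, 4, 7, 4, 9, 4, 6, 3], .l [5, 3, 9, 4, 7, 4, 9, 4, 6, 3], .l [7, 6,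 10], .l [5, 3, 9, 4, 7, 4, 7, 2, 4, 5], .l [7, 14, 7, 12, 3, 9, 1, 8, 5], .l [5, 3, 9, 4, 7, 4, 7, 2, 4, 5]]),
([p 3 1, s 0 2, g, s 2 0, g, s 1 0, p 4 0, g, p 0 3, g, p 0 4, g], .hi 6, [.l [6, 4, 7, 1, 7, 4, 4], .l [8, 4, 9, 1, 9, 4, 6], .r 1041 [1, 2, 5, 3, 4] [1, 1, 1, 1, 1, 1], .l [8, 4], .l [8, 2, 9, 1, 9, 2, 6], .r 1039 [1, 2, 5, 3, 4] [1, 1, 1, 1, 1, 1], .l [8, 2], .l [8, 1, 11, 9, 4], .l [6, 7], .l [8, 1], .l [6, 7], .l [10, 3, 9, 7, 9, 7, 4], .l [6, 9], .l [10, 3], .y [6, 10], .l [2, 12, 5, 1, 7, 7, 4, 1], .l [6, 11], .l [12, 5]]),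
([p 3 1, s 0 2, g, s 2 0, g, s 1 0, p 0 0, g, p 0 3, g], .lo 6, [.l [4, 10, 5, 5, 2, 5], .l [3, 7], .l [2, 10, 7, 4], .l [2, 8, 5, 5, 2, 3], .l [2, 10, 7, 7, 2, 3], .l [5, 7], .l [4, 10, 5, 2], .c, .y [6], .l [2, 10, 7, 7, 4, 1], .r 1037 [1, 2, 4, 3] [1, 1, 1, 1, 1], .l [2, 10, 7, 7, 4, 1], .l [2, 8, 5, 5, 2, 5], .r 1042 [1, 2, 3, 4] [1, 1, 1, 1, 1], .l [2, 8, 5, 5, 2, 5]]),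
([p 5 1, s 0 2, g, s 2 0, g, m 0 3, g, m 3 4, g, s 1 0, s 4 0, g, p 6 5, g, p 7 6, g, p 0 7, g], .hi 9, [.l [0, 12, 11, 7, 10, 2, 7, 9, 3, 1, 5, 7, 3], .l [2, 14, 11, 7, 10, 2, 7, 11, 5, 1, 7, 9, 5], .l [2, 14, 11, 7, 10, 2, 7], .l [11, 10, 2, 9, 12, 2, 9], .l [4, 14, 9, 5, 8, 2, 5, 11, 7, 1, 7, 9, 7], .l [4, 14, 9, 5, 8, 2, 5], .l [11, 10, 1, 3, 7, 10, 2, 7], .l [6, 7, 5, 10, 5, 2, 1], .l [8, 14, 5, 2, 10, 12, 5, 1, 8, 10, 5, 5, 3], .l [6, 9, 7, 12, 7, 3, 6, 2, 3], .l [8, 9, 5, 12, 7, 4, 1], .l [8, 14, 5, 1, 4, 2, 9, 11, 3, 1, 7, 9, 3], .l [8, 14, 5, 1, 4, 2, 9], .l [6, 7, 5, 12, 7, 4, 1], .l [11, 14, 2, 10, 13, 4, 4, 2, 9, 9, 7, 9, 3], .l [6, 7, 5, 12, 7, 2, 3], .l [0, 8, 11, 2, 8], .l [6, 12, 5, 2, 10, 12, 5, 1, 8,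 10, 5, 5, 3], .l [6, 7, 5, 10, 5, 2, 8], .l [0, 8, 13, 4, 10], .l [0, 8, 1, 7, 12, 7, 1, 3, 8, 1], .l [6, 7, 5, 10, 5, 2, 10], .l [0, 8, 15, 6, 12], .y [0, 9, 16, 14, 12], .l [0, 8, 1, 7, 14, 9, 1, 3, 10, 1], .l [6, 7, 5, 10, 5, 2, 12], .l [0, 8, 17, 8, 14]]),
([p 4 1, s 0 2, g, s 2 0, g, m 0 3, g, s 1 0, s 3 0, g, p 5 4, g, p 6 5, g, p 7 6, g, p 0 7, g], .lo 5, [.l [15, 8, 2, 12, 3, 12, 6, 3, 8, 10, 6, 1], .l [7, 3], .l [15, 8, 2, 12, 3, 12, 6, 3, 8, 10, 6, 1], .l [13, 8, 2, 10, 1, 10, 6, 3, 6, 8, 6, 1], .l [15, 8, 2, 12, 1, 12, 6, 3, 6, 10, 8, 1], .l [7, 1], .r 1044 [1, 2, 8, 3, 4, 5, 6] [1, 1, 1, 1, 1, 1, 1, 3], .l [9, 8, 1, 5, 1, 8, 2, 5], .l [7, 1], .l [5, 6], .l [4, 10, 5, 2, 1], .y [5, 8], .l [4, 5, 8, 10, 2, 7,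 4, 1], .l [10, 4], .l [5, 9], .l [4, 5, 10, 12, 10, 10, 2, 7, 4, 1], .l [12, 6], .l [5, 11], .l [4, 5, 12, 14, 12, 12, 10, 10, 2, 7, 4, 1], .l [14, 8], .l [5, 13], .l [4, 5, 14, 16, 14, 14, 12, 12, 10, 10, 2, 7, 4], .l [16, 10], .l [5, 15], .l [17, 12, 2, 14, 1, 11, 12, 9], .l [18, 12], .l [5, 17]]),
([p 4 1, s 0 2, g, s 2 0, g, m 0 3, g, s 1 0, s 3 0, g, p 5 4, g, p 6 5, g, p 0 6, g], .lo 14, [.l [15, 8, 2, 12, 3, 12, 6, 6, 4, 4, 0, 5], .l [3, 15], .l [2, 12, 9, 13], .l [13, 8, 2, 10, 1, 10, 6, 6, 4, 4, 0, 3], .l [15, 8, 2, 12, 1, 12, 6, 6, 4, 4, 0, 3], .l [5, 15], .l [4, 12, 7, 13], .l [4, 7, 14, 14, 12, 12, 10, 10, 2, 7, 4, 1], .l [7, 15], .l [6, 12, 5, 13], .y [0, 7, 14, 12, 10], .l [2, 10, 7, 7, 2, 9], .l [9, 4,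 2, 6, 1, 8, 2, 9], .l [10, 15], .l [9, 12, 2, 13], .l [11, 6, 2, 8, 1, 10, 6, 6, 2, 7], .l [12, 15], .l [11, 14, 12, 12, 2, 11], .l [13, 8, 2, 10, 1, 12, 8, 8, 6, 6, 2, 1], .l [14, 15], .l [13, 16, 14, 14, 12, 12, 2, 1], .l [13, 8, 2, 10, 1, 10, 6, 6, 4, 4, 0, 5], .r 1045 [1, 2, 3, 4, 5, 6, 7] [1, 1, 1, 1, 1, 1, 1, 1], .l [13, 14, 12, 12, 10, 10, 0, 9]]),
([p 4 1, s 0 2, g, s 2 0, g, m 0 3, g, s 1 0, s 3 0, g, p 5 4, g, p 0 5, g], .lo 12, [.l [13, 6, 2, 10, 3, 10, 4, 4, 0, 5], .l [3, 13], .l [2, 12, 9, 11], .l [11, 6, 2, 8, 1, 8, 4, 4, 0, 3], .l [13, 6, 2, 10, 1, 10, 4, 4, 0, 3], .l [5, 13], .l [4, 12, 7, 11], .l [4, 7, 12, 12, 10, 10, 2, 7, 4, 1], .l [7, 13], .l [6, 12, 5, 11], .y [0, 7, 12, 10], .l [2, 10, 7, 7, 2,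 7], .l [9, 4, 2, 6, 1, 8, 2, 7], .l [10, 13], .l [9, 12, 2, 11], .l [11, 6, 2, 8, 1, 10, 6, 6, 2, 1], .l [12, 13], .l [11, 14, 12, 12, 2, 1], .l [11, 6, 2, 8, 1, 8, 4, 4, 0, 5], .r 1046 [1, 2, 3, 4, 5, 6] [1, 1, 1, 1, 1, 1, 1], .l [11, 12, 10, 10, 0, 9]]),
([p 4 1, s 0 2, g, s 2 0, g, m 0 3, g, s 1 0, s 3 0, g, p 0 4, g], .lo 10, [.l [11, 4, 2, 8, 3, 8, 0, 5], .l [3, 11], .l [2, 12, 9, 8], .l [9, 4, 2, 6, 1, 6, 0, 3], .l [11, 4, 2, 8, 1, 8, 0, 3], .l [5, 11], .l [4, 12, 7, 6], .l [4, 7, 10, 10, 2, 7, 4, 1], .l [7, 11], .l [6, 12, 5, 4], .y [0, 7, 10], .l [2, 10, 7, 7, 2, 1], .l [9, 4, 2, 6, 1, 8, 2, 1], .l [10, 11], .l [9, 12, 2, 1], .l [9, 4, 2, 6, 1, 6, 0, 5], .r 1047 [1, 2, 3, 4, 5] [1, 1, 1, 1, 1, 1], .l [9, 10, 0,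 9]]),
([p 3 1, s 0 2, g, s 2 0, g, s 1 0, s 4 0, g, p 0 3, g, p 0 4, g], .hi 6, [.l [6, 4, 7, 1, 7, 4, 4, 1], .l [4, 10, 5, 5, 2, 5], .l [4, 10, 5, 5, 2, 5], .l [7, 6, 9, 2, 5], .l [2, 10, 7, 7, 2, 3], .l [12, 3, 6, 2, 8], .l [2, 10, 7, 7, 2, 3], .l [2, 10, 7, 7, 4, 1], .l [2, 10, 7, 7, 4, 1], .l [8, 1, 11, 9, 4], .l [2, 8, 5, 5, 2, 1], .l [2, 8, 5, 5, 2, 5], .l [2, 8, 5, 5, 2, 5], .l [10, 3, 9, 7, 9, 7, 4], .y [6, 10], .l [2, 8, 5, 5, 2, 7], .l [2, 8, 5, 5, 2, 7], .l [10, 3, 9, 7, 9, 7, 4]]),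
([p 5 1, s 3 2, g, s 2 0, g, s 1 0, s 4 3, g, p 0 4, g, p 0 5, g], .hi 5, [.l [0, 6, 9, 1, 9, 6, 6, 3], .l [7, 6, 3, 1, 3, 8, 4, 5], .l [0, 6, 9, 1, 9, 6, 6, 3], .l [0, 6, 9, 1, 9, 6, 6, 1], .l [8, 6, 11, 3, 5, 1, 6, 3, 4, 1], .l [0, 6, 9, 1, 9, 6, 6, 1], .l [1, 5, 6, 10, 7, 8, 2, 4, 2, 3], .l [1, 5, 6, 10, 7, 8, 2, 4, 2, 3], .l [8, 2, 5, 10, 3, 4, 2, 4, 2, 3], .l [1, 5, 6, 8, 5, 6, 2, 2, 0, 1], .l [10, 4, 7, 10, 1, 6, 4, 5], .l [1, 5, 8, 6, 2, 5], .l [10, 4, 7, 10, 1, 6, 4, 5], .y [0, 5, 10], .l [0, 4, 7, 1, 7, 4, 4, 5], .l [0, 4, 7, 1, 7, 4, 4, 5], .l [0, 4, 11, 6, 6, 1]]),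
([p 4 1, s 0 2, g, s 2 0, g, s 1 0, s 3 0, g, p 0 3, g, p 0 4, g], .hi 6, [.r 1050 [1, 2, 5, 3, 4] [1, 1, 1, 1, 1], .l [4, 12, 7, 7, 4, 7], .l [4, 12, 7, 7, 4, 7], .l [7, 6, 11, 4, 7], .l [2, 12, 9, 9, 4, 5], .l [10, 1, 4, 2, 6], .l [2, 12, 9, 9, 4, 5], .l [2, 12, 9, 9, 6, 1], .l [2, 12, 9, 9, 6, 1], .l [8, 1, 9, 7, 4], .y [6, 8], .l [2, 12, 9, 9, 6, 3], .l [2, 12, 9, 9, 6, 3], .l [8, 1, 9, 7, 4], .l [2, 10, 7, 7, 4, 3], .l [2, 10, 7, 7, 4, 7], .l [2, 10, 7, 7, 4, 7], .l [8, 1, 11, 9, 4]]),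
([p 3 1, s 0 2, g, s 2 0, g, s 1 0, s 0 0, g, p 0 3, g], .lo 6, [.l [4, 10, 5, 5, 2, 5], .l [7, 6, 9, 2, 5], .l [4, 10, 5, 5, 2, 5], .l [2, 8, 5, 5, 2, 3], .l [2, 10, 7, 7, 2, 3], .l [2, 10, 7, 7, 2, 3], .r 1048 [1, 2, 4, 3] [1, 1, 1, 1, 1], .c, .y [6], .l [2, 10, 7, 7, 4, 1], .r 1051 [1, 2, 4, 3] [1, 1, 1, 1, 1], .l [2, 10, 7, 7, 4, 1], .l [2, 8, 5, 5, 2, 5], .r 1049 [1, 2, 3, 4] [1, 1, 1, 1, 1], .l [2, 8, 5, 5, 2, 5]]),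
([p 3 1, s 0 2, g, s 2 0, g, s 1 0, g, p 0 3, g], .top 6, [.r 1003 [1, 3] [4, 1], .r 1052 [1, 2, 3] [1, 1, 1, 1], .r 1043 [1, 2, 3] [1, 1, 1, 1], .r 1028 [1, 2, 3] [1, 1, 1, 1]]),
([p 4 1, s 0 0, g, s 2 0, g, s 0 2, s 1 3, g, m 3 0, g, p 0 4, g], .hi 1, [.y [1], .l [0, 7, 1, 8, 1, 8, 6, 1], .l [0, 7, 1, 8, 1, 8, 6, 1], .r 578 [1, 5, 4] [1, 4, 3, 1], .l [0, 7, 3, 8, 1, 8, 6, 3], .l [0, 7, 9, 1, 10, 8, 3], .l [0, 7, 3, 8, 1, 8, 6, 3], .r 1053 [1, 5, 4] [3, 0, 3, 1], .l [0, 5, 1, 8, 3, 8, 4, 5], .l [6, 5, 6], .l [0, 5, 1, 8, 3, 8, 4, 5], .l [0, 5, 1, 6, 1, 8, 6, 3], .l [0, 5, 1, 6, 1, 8, 6, 3], .l [8, 1, 9, 2, 6], .l [0, 5, 1, 6, 1, 6, 4, 3], .l [0, 5, 1, 6, 1, 6, 4, 5], .l [0, 5, 1, 6, 1, 6, 4, 5], .l [8, 1, 11, 4, 8]]),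
([p 4 1, g, s 2 0, g, s 0 2, s 1 3, g, m 3 0, g, p 0 4, g], .top 1, [.r 1018 [1, 2, 4] [1, 0, 3, 1], .r 1054 [1, 2, 3, 4] [1, 1, 1, 1, 1], .r 334 [] [10], .r 444 [] [10]]),
([p 3 1, g, s 0 0, s 1 2, g, m 2 0, g, p 0 3, g], .hi 2, [.r 1055 [1, 4, 2, 3] [1, 1, 1, 1, 1], .r 914 [1, 4, 2, 3] [1, 1, 1, 1, 1], .l [0, 4, 1], .y [2], .r 897 [1, 4, 3] [1, 1, 3, 1], .l [0, 2, 3], .l [5, 2, 3], .r 897 [1, 4, 3] [1, 3, 1, 1], .l [0, 2, 5], .l [7, 4, 5], .l [0, 2, 5], .r 895 [1, 4, 2, 3] [1, 1, 1, 1, 1], .l [0, 2, 7], .l [9, 6, 7]]),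
([p 8 1, g, m 0 2, g, m 2 3, g, m 3 4, g, m 4 5, g, m 5 6, g, m 6 0, s 1 7, g, m 7 0, g, p 0 8, g], .hi 12, [.l [1, 19, 17, 11, 14, 1, 14, 12, 9], .l [0, 14, 12, 11, 11, 9, 9, 7, 7, 5, 5, 3, 3, 1, 5, 1, 5, 3], .l [2, 13], .y [2, 4, 6, 8, 10, 12], .l [3, 6, 4, 17, 15, 9, 12, 1, 12, 10, 7], .l [0, 14, 10, 9, 9, 7, 7, 5, 5, 3, 3, 1, 3, 1, 5, 1, 5, 3], .l [4, 13], .l [5, 8, 6, 6, 4, 15, 13, 7, 10, 1, 10, 8, 5], .l [5, 8, 6, 6, 4, 15, 13, 7], .l [6, 13], .l [7, 10, 8, 8, 6, 6, 4, 13, 11, 5, 8, 1, 8, 6, 3], .l [7, 10, 8, 8, 6, 6, 4, 13, 11, 5], .l [8, 13], .l [9, 12, 10, 10, 8, 8, 6, 6, 4, 11, 9, 3, 6, 1, 6, 4, 1], .l [9, 12, 10, 10, 8, 8, 6, 6, 4, 11, 9, 3], .l [10, 13], .l [11, 17, 1, 5, 3, 12, 12, 10, 10, 8, 8, 6, 6, 4,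 6, 4, 1], .l [11, 14, 12, 12, 10, 10, 8, 8, 6, 6, 4, 10, 8, 1], .l [12, 13], .l [11, 17, 3, 5, 1, 12, 12, 10, 10, 8, 8, 6, 6, 4, 6, 2, 3], .l [11, 12, 10, 10, 8, 8, 6, 6, 4, 4, 2, 10, 8, 3], .l [0, 12, 14, 13, 13, 11, 11, 9, 9, 7, 7, 5, 5, 3, 5, 3, 5, 1], .l [11, 15, 1, 3, 1, 10, 10, 8, 8, 6, 6, 4, 4, 2, 6, 4, 1], .l [11, 12, 10, 10, 8, 8, 6, 6, 4, 4, 2, 10, 8, 5], .l [0, 12, 16, 15, 15, 13, 13, 11, 11, 9, 9, 7, 7, 5, 3, 1, 5, 3], .l [11, 12, 10, 10, 8, 8, 6, 6, 4, 4, 2, 8, 6, 5], .l [11, 15, 1, 3, 1, 10, 10, 8, 8, 6, 6, 4, 4, 2, 4, 2, 3], .l [11, 12, 10, 10, 8, 8, 6, 6, 4, 4, 2, 8, 6, 7], .l [0, 12, 18, 17, 17, 15, 15, 13, 13, 11, 11, 9, 9, 7, 3, 1, 3, 1]]),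
([p 5 1, g, m 0 2, g, m 2 3, s 1 4, g, m 4 0, g, m 3 0, g, p 0 5, g], .hi 7, [.l [2, 8, 10, 7, 8, 4, 1, 2, 3], .l [1, 13, 11, 6], .l [2, 8], .l [2, 6], .l [8, 11, 8, 11, 5, 8, 1, 4, 5], .l [3, 6, 4, 12, 10, 5], .l [4, 8], .l [5, 4, 12, 7, 8, 2, 6, 1, 6, 2, 3], .l [5, 4, 12, 7, 8, 2, 6, 1, 6, 2, 3], .l [7, 8], .l [6, 11, 8, 11, 7, 1, 6, 1, 4, 2, 3], .l [6, 11, 8, 8, 6, 10, 8, 1], .l [1, 7, 1, 9, 6, 7, 2, 7, 2, 4, 1], .l [6, 9, 6, 11, 7, 4, 6, 4, 5], .l [6, 9, 6, 6, 4, 10, 8, 5], .l [7, 1, 8, 5, 8, 1, 4, 2, 3], .y [0, 5, 7, 11], .l [6, 9, 6, 9, 5, 8, 1, 4, 5], .l [6, 9, 6, 6, 4, 8, 6, 7], .l [7, 1, 8, 5, 10, 3, 6, 2, 5]]),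
([p 8 1, g, s 0 2, g, m 2 3, g, m 3 4, g, m 4 5, g, m 5 6, g, m 6 0, s 1 7, g, m 7 0, g, p 0 8, g], .hi 12, [.l [1, 19, 17, 11, 14, 1, 14, 12, 9], .l [1, 19, 17, 11], .l [2, 13], .y [2, 4, 6, 8, 10, 12], .l [3, 19, 15, 9, 12, 1, 12, 10, 7], .l [3, 19, 15, 9], .l [4, 13], .l [5, 8, 6, 17, 13, 7, 10, 1, 10, 8, 5], .l [5, 8, 6, 17, 13, 7], .l [6, 13], .l [7, 10, 8, 8, 6, 15, 11, 5, 8, 1, 8, 6, 3], .l [7, 10, 8, 8, 6, 15, 11, 5], .l [8, 13], .l [9, 12, 10, 10, 8, 8, 6, 13, 9, 3, 6, 1, 6, 4, 1], .l [9, 12, 10, 10, 8, 8, 6, 13, 9, 3], .l [10, 13], .l [11, 17, 1, 5, 3, 12, 12, 10, 10, 8, 8, 6, 8, 4, 1], .l [11, 14, 12, 12, 10, 10, 8, 8, 6, 12, 8, 1], .l [12, 13], .l [11, 17, 3, 5, 1, 12, 12, 10, 10, 8, 8, 6, 8, 2, 3], .l [11,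 12, 10, 10, 8, 8, 6, 6, 4, 12, 8, 3], .l [11, 17, 3, 5, 1, 12, 12, 10, 10, 8, 8, 6, 8, 2, 3], .l [11, 15, 1, 3, 1, 10, 10, 8, 8, 6, 6, 4, 8, 4, 1], .l [11, 12, 10, 10, 8, 8, 6, 6, 4, 12, 8, 5], .r 1058 [1, 6, 9, 7, 8] [9, 1, 1, 1, 1, 1], .l [11, 12, 10, 10, 8, 8, 6, 6, 4, 10, 6, 5], .l [11, 15, 1, 3, 1, 10, 10, 8, 8, 6, 6, 4, 6, 2, 5], .l [11, 12, 10, 10, 8, 8, 6, 6, 4, 10, 6, 9], .l [4, 1, 16, 12, 14, 12, 12, 10, 10, 8, 4, 1, 8, 5, 1, 4, 1]]),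
([p 7 1, g, m 0 2, g, m 2 3, g, m 3 4, g, m 4 5, g, m 5 0, s 1 6, g, m 6 0, g, p 0 7, g], .lo 2, [.r 1059 [1, 8, 2, 3, 4, 5, 6, 7] [1, 1, 1, 1, 1, 1, 1, 1, 1], .l [4, 1], .r 1057 [1, 8, 2, 3, 4, 5, 6, 7] [1, 1, 1, 1, 1, 1, 1, 1, 1], .l [1, 4, 1, 11, 8, 13, 4, 10, 10, 8, 8, 6, 6, 4, 1], .l [4, 1], .l [2, 3], .l [15, 1, 8, 10, 14, 1, 12, 6, 6, 4, 4, 2, 5], .l [6, 3], .l [2, 5], .l [2, 7, 9, 7, 10, 6, 3, 6, 8, 6, 3], .l [8, 5], .l [2, 7], .l [2, 9, 14, 1, 14, 7, 7, 10, 7], .l [10, 7], .l [2, 9], .y [2, 4, 6, 8, 10], .l [13, 10, 10, 8, 8, 6, 6, 4, 4, 2, 3], .l [13, 10], .l [2, 12], .l [2, 12], .l [15, 12, 12, 10, 10, 8, 8, 6, 6, 4, 5], .l [15, 12], .l [2, 14], .l [17, 14, 14, 12, 12, 10, 10, 8, 8, 6, 7], .l [17, 14], .l [2,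 16]]),
([p 7 1, g, s 0 2, g, m 2 3, g, m 3 4, g, m 4 5, g, m 5 0, s 1 6, g, m 6 0, g, p 0 7, g], .hi 10, [.l [1, 17, 15, 9, 12, 1, 12, 10, 7], .l [1, 17, 15, 9], .l [2, 11], .y [2, 4, 6, 8, 10], .l [3, 17, 13, 7, 10, 1, 10, 8, 5], .l [3, 17, 13, 7], .l [4, 11], .l [5, 8, 6, 15, 11, 5, 8, 1, 8, 6, 3], .l [5, 8, 6, 15, 11, 5], .l [6, 11], .l [7, 10, 8, 8, 6, 13, 9, 3, 6, 1, 6, 4, 1], .l [7, 10, 8, 8, 6, 13, 9, 3], .l [8, 11], .l [9, 15, 1, 5, 3, 10, 10, 8, 8, 6, 8, 4, 1], .l [9, 12, 10, 10, 8, 8, 6, 12, 8, 1], .l [10, 11], .l [9, 15, 3, 5, 1, 10, 10, 8, 8, 6, 8, 2, 3], .l [9, 10, 8, 8, 6, 6, 4, 12, 8, 3], .l [9, 15, 3, 5, 1, 10, 10, 8, 8, 6, 8, 2, 3], .l [9, 13, 1, 3, 1, 8, 8, 6, 6, 4, 8, 4, 1], .l [9, 10, 8, 8, 6, 6, 4,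 12, 8, 5], .r 1058 [1, 5, 8, 6, 7] [7, 1, 1, 1, 1, 1], .l [9, 10, 8, 8, 6, 6, 4, 10, 6, 5], .l [9, 13, 1, 3, 1, 8, 8, 6, 6, 4, 6, 2, 5], .l [9, 10, 8, 8, 6, 6, 4, 10, 6, 9], .l [4, 1, 14, 10, 12, 10, 10, 8, 4, 1, 8, 5, 1, 4, 1]]),
([p 6 1, g, m 0 2, g, m 2 3, g, m 3 4, g, m 4 0, s 1 5, g, m 5 0, g, p 0 6, g], .lo 2, [.r 1061 [1, 7, 2, 3, 4, 5, 6] [1, 1, 1, 1, 1, 1, 1, 1], .l [4, 1], .r 1060 [1, 7, 2, 3, 4, 5, 6] [1, 1, 1, 1, 1, 1, 1, 1], .l [1, 4, 1, 9, 6, 11, 4, 8, 8, 6, 6, 4, 1], .l [4, 1], .l [2, 3], .l [2, 5, 10, 6, 3, 6, 8, 6, 3], .l [6, 3], .l [2, 5], .l [2, 7, 12, 1, 12, 5, 5, 8, 5], .l [8, 5], .l [2, 7], .y [2, 4, 6, 8], .l [11, 8, 8, 6, 6, 4, 4, 2, 3], .l [11, 8], .l [2, 10], .l [2, 10], .l [13, 10, 10, 8, 8,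 6, 6, 4, 5], .l [13, 10], .l [2, 12], .l [15, 12, 12, 10, 10, 8, 8, 6, 7], .l [15, 12], .l [2, 14]]),
([p 6 1, g, s 0 2, g, m 2 3, g, m 3 4, g, m 4 0, s 1 5, g, m 5 0, g, p 0 6, g], .hi 8, [.l [1, 15, 13, 7, 10, 1, 10, 8, 5], .l [1, 15, 13, 7], .l [2, 9], .y [2, 4, 6, 8], .l [3, 15, 11, 5, 8, 1, 8, 6, 3], .l [3, 15, 11, 5], .l [4, 9], .l [5, 8, 6, 13, 9, 3, 6, 1, 6, 4, 1], .l [5, 8, 6, 13, 9, 3], .l [6, 9], .l [7, 13, 1, 5, 3, 8, 8, 6, 8, 4, 1], .l [7, 10, 8, 8, 6, 12, 8, 1], .l [8, 9], .l [7, 13, 3, 5, 1, 8, 8, 6, 8, 2, 3], .l [7, 8, 6, 6, 4, 12, 8, 3], .l [7, 13, 3, 5, 1, 8, 8, 6, 8, 2, 3], .l [7, 11, 1, 3, 1, 6, 6, 4, 8, 4, 1], .l [7, 8, 6, 6, 4, 12, 8, 5], .r 1058 [1, 4, 7, 5, 6] [5, 1, 1, 1, 1, 1], .l [7, 8, 6, 6,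 4, 10, 6, 5], .l [7, 11, 1, 3, 1, 6, 6, 4, 6, 2, 5], .l [7, 8, 6, 6, 4, 10, 6, 9], .l [4, 1, 12, 8, 10, 8, 4, 1, 8, 5, 1, 4, 1]]),
([p 5 1, g, m 0 2, g, m 2 3, g, m 3 0, s 1 4, g, m 4 0, g, p 0 5, g], .lo 2, [.r 1063 [1, 6, 2, 3, 4, 5] [1, 1, 1, 1, 1, 1, 1], .l [4, 1], .r 1062 [1, 6, 2, 3, 4, 5] [1, 1, 1, 1, 1, 1, 1], .l [1, 4, 1, 7, 4, 9, 4, 6, 6, 4, 1], .l [4, 1], .l [2, 3], .l [2, 5, 10, 1, 10, 3, 3, 6, 3], .l [6, 3], .l [2, 5], .y [2, 4, 6], .l [9, 6, 6, 4, 4, 2, 3], .l [9, 6], .l [2, 8], .l [2, 8], .l [11, 8, 8, 6, 6, 4, 5], .l [11, 8], .l [2, 10], .l [13, 10, 10, 8, 8, 6, 7], .l [13, 10], .l [2, 12]]),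
([p 5 1, g, s 0 2, g, m 2 3, g, m 3 0, s 1 4, g, m 4 0, g, p 0 5, g], .hi 6, [.l [1, 13, 11, 5, 8, 1, 8, 6, 3], .l [1, 13, 11, 5], .l [2, 7], .y [2, 4, 6], .l [3, 13, 9, 3, 6, 1, 6, 4, 1], .l [3, 13, 9, 3], .l [4, 7], .l [5, 11, 1, 5, 3, 6, 8, 4, 1], .l [5, 8, 6, 12, 8, 1], .l [6, 7], .l [5, 11, 3, 5, 1, 6, 8, 2, 3], .l [5, 6, 4, 12, 8, 3], .l [5, 11, 3, 5, 1, 6, 8, 2, 3], .l [5, 9, 1, 3, 1, 4, 8, 4, 1], .l [5, 6, 4, 12, 8, 5], .l [4, 1, 8, 1, 8, 5, 1, 4, 1], .l [5, 6, 4, 10, 6, 5], .l [5, 9, 1, 3, 1, 4, 6, 2, 5], .l [5, 6, 4, 10, 6, 9], .l [4, 1, 8, 1, 10, 7, 1, 6, 3]]),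
([p 4 1, g, m 0 2, g, m 2 0, s 1 3, g, m 3 0, g, p 0 4, g], .lo 2, [.r 1065 [1, 5, 2, 3, 4] [1, 1, 1, 1, 1, 1], .l [4, 1], .r 1064 [1, 5, 2, 3, 4] [1, 1, 1, 1, 1, 1], .l [4, 1, 8, 1, 4, 2, 3], .l [4, 1], .l [2, 3], .y [2, 4], .l [7, 4, 4, 2, 3], .l [7, 4], .l [2, 6], .l [2, 6], .l [9, 6, 6, 4, 5], .l [9, 6], .l [2, 8], .l [11, 8, 8, 6, 7], .l [11, 8], .l [2, 10]]),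
([p 3 1, g, m 0 0, s 1 2, g, m 2 0, g, p 0 3, g], .lo 2, [.l [0, 4, 1], .l [4, 1], .r 1066 [1, 4, 2, 3] [1, 1, 1, 1, 1], .y [2], .l [0, 2, 3], .l [5, 2], .l [2, 4], .l [2, 4], .l [0, 2, 5], .l [7, 4], .l [2, 6], .l [0, 2, 7], .l [9, 6], .l [2, 8]]),
([p 3 1, g, s 1 2, g, m 2 0, g, p 0 3, g], .bot 1, [.c, .r 1056 [1, 2, 3] [1, 1, 1, 1], .r 892 [1, 2, 3] [1, 1, 1, 1], .r 1067 [1, 2, 3] [1, 1, 1, 1]]),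
([p 3 1, g, s 1 0, g, p 0 2, p 6 3, g, p 4 0, g, p 5 4, g, p 7 5, g, p 0 6, p 0 7, g, s 2 0, g], .hi 2, [.l [12, 8, 10, 13, 5, 14, 5, 9, 10, 2, 4, 2, 5], .l [3, 7, 3, 4, 12, 10, 13], .l [4, 1, 6, 2, 4, 1, 10, 8, 11], .l [12, 15, 9, 16, 3, 7, 10, 1, 6, 3, 4, 6, 1, 4, 1], .l [3, 7, 3, 4, 12, 10, 13], .r 1068 [1, 8, 3] [1, 1, 2, 12], .l [3, 5, 1, 2, 10, 8, 11], .l [12, 13, 11, 11, 9, 11, 7, 12, 3, 8, 4, 2, 3], .l [0, 1, 1, 4, 12, 10, 13], .l [0, 1, 6, 4, 4, 1, 10, 8, 11], .l [1, 5, 3, 6, 12, 8, 13, 3, 7, 7, 5, 7, 5], .l [0, 1, 1, 6, 8, 6, 10, 8, 11], .l [0, 1, 8, 6, 6, 3, 10, 6, 11], .l [1, 5, 3, 8, 10, 8, 10, 6, 11, 3, 5, 7, 5], .l [0, 1, 1, 8, 10, 8, 8, 6, 8, 6, 9], .l [0, 1, 10, 8, 8, 5, 10, 4, 11], .l [1, 5, 3, 10, 13,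 11, 11, 9, 9, 7, 6, 4, 7], .l [0, 1, 1, 10, 12, 4, 13], .l [0, 1, 12, 10, 10, 7, 10, 2, 11], .y [0, 2, 13, 5], .l [0, 1, 1, 11, 11, 8, 8, 6, 6, 4, 6, 4, 5], .l [6, 16, 11, 8, 13, 14, 10, 6, 6, 4, 8, 5, 1, 4, 1], .l [10, 8, 14, 5, 12, 14, 12, 6, 2, 7, 1, 6, 1], .l [6, 16, 11, 8, 13, 14, 10, 6, 6, 4, 8, 5, 1, 4, 1], .l [8, 18, 11, 6, 13, 3, 1, 5, 6, 10, 5, 1, 1, 6, 3], .l [10, 13, 7, 14, 3, 7, 10, 1, 6, 3, 4, 8, 3, 6, 1], .l [8, 18, 11, 6, 13, 3, 1, 5, 6, 10, 5, 1, 1, 6, 3]]),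
([p 3 1, g, s 1 0, g, p 0 2, p 5 3, g, p 4 0, g, p 6 4, g, p 0 5, p 7 6, g, p 0 7, g, s 2 0, g], .hi 7, [.l [9, 6, 8, 3, 10, 6, 13], .l [4, 3, 6, 2, 6, 1, 8, 4, 11], .l [9, 6], .l [9, 4, 8, 5, 10, 4, 13], .l [11, 14, 13, 13, 11, 11, 6, 9, 5, 7, 1, 7, 2, 4, 5], .l [9, 4], .l [9, 12, 11, 11, 9, 9, 6, 7, 3, 5, 1, 5, 2, 2, 3], .l [9, 1, 12, 8, 15], .r 1069 [1, 2, 3, 8, 4, 5, 6] [1, 1, 1, 1, 1, 1, 3, 1], .l [9, 1], .l [9, 1, 10, 8, 10, 8, 13], .l [7, 8], .l [9, 1], .l [11, 3, 3, 1, 10, 6, 13], .l [7, 10], .l [11, 3], .l [7, 10], .l [7, 13, 15, 13, 8], .l [7, 13], .l [14, 6], .y [7, 14, 12, 9], .l [7, 15, 10, 1, 11, 9, 3, 8, 11, 1, 3, 5, 1], .l [7, 15], .l [16, 8], .l [2, 1, 11, 4, 5, 3, 3, 0, 11, 8, 2, 4, 7, 4, 1], .l [7,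 17], .l [18, 10]]),
([p 3 1, g, s 1 0, g, p 0 2, p 4 3, g, p 5 0, g, p 0 4, p 6 5, g, p 0 6, g, s 2 0, g], .hi 7, [.l [9, 6, 8, 3, 8, 4, 11], .l [4, 3, 6, 2, 6, 1, 6, 2, 9], .l [9, 6], .l [9, 4, 8, 5, 8, 2, 11], .l [9, 12, 11, 11, 6, 9, 5, 7, 1, 7, 2, 4, 5], .l [9, 4], .l [7, 10, 9, 9, 6, 7, 3, 5, 1, 5, 2, 2, 3], .l [9, 1, 10, 6, 13], .r 1070 [1, 2, 3, 7, 4, 5, 6] [1, 1, 1, 1, 1, 1, 1, 1], .l [9, 1], .l [9, 1, 10, 6, 13], .l [7, 8], .l [9, 1], .l [7, 8], .l [7, 11, 13, 11, 6], .l [7, 11], .l [12, 4], .y [7, 12, 10], .l [6, 9, 7, 14, 1, 7, 1, 6, 3], .l [7, 13], .l [14, 6], .l [7, 15, 10, 1, 4, 11, 10, 8, 1, 7, 1, 3, 5], .l [7, 15], .l [16, 8]]),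
([p 3 1, g, s 1 0, g, p 0 2, p 4 3, g, p 0 4, p 5 0, g, p 0 5, g, s 2 0, g], .hi 8, [.l [0, 10, 7, 4, 7, 9, 7, 4, 7], .l [4, 10, 7, 4, 2, 2, 5, 7, 5, 2, 5], .l [10, 7], .l [0, 10, 5, 2, 7, 9, 5, 2, 7], .l [6, 13, 9, 1, 5, 7, 4, 0, 2, 4, 1], .l [10, 5], .l [4, 11, 9, 1, 5, 7, 4, 0, 2, 4, 1], .l [5, 10, 2, 13, 4, 10, 7], .r 1071 [1, 2, 3, 4, 6, 5] [1, 1, 1, 1, 1, 1, 1], .l [10, 2], .r 881 [1, 2, 3, 4, 6, 5] [1, 1, 1, 1, 1, 1], .l [5, 10, 1, 11, 9, 6, 9], .l [8, 9], .l [10, 1], .y [8, 10], .l [0, 8, 11, 8, 4, 6, 7, 4, 7], .l [8, 11], .l [12, 3], .l [0, 8, 13, 10, 4, 6, 9, 6, 3], .l [8, 13], .l [14, 5]]),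
([p 3 1, g, s 1 0, g, p 0 2, p 4 3, g, p 0 4, p 0 0, g, s 2 0, g], .lo 8, [.l [12, 5, 11, 10, 10, 8, 5], .l [2, 9], .l [1, 7, 5, 7], .l [2, 1, 4, 2, 2, 3, 2], .l [12, 5, 11, 10, 10, 8, 3], .l [4, 9], .l [3, 7, 3, 7], .l [7, 9, 6], .l [7, 9], .l [5, 9, 8, 10, 4, 2, 3], .y [8], .l [12, 7, 11, 10, 10, 8, 1], .r 1072 [1, 2, 3, 4, 5] [1, 1, 1, 1, 1, 1], .l [12, 7, 11, 10, 10, 8, 1], .l [5, 7, 6, 8, 8, 6, 1], .l [10, 5, 9, 8, 8, 6, 7], .l [5, 7, 6, 8, 10, 8, 1], .l [10, 5, 9, 8, 8, 6, 7]]),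
([p 3 1, g, s 1 0, g, p 0 2, p 7 3, g, m 0 4, g, m 4 5, g, m 5 6, g, p 0 7, m 6 0, g, s 2 0, g], .hi 2, [.l [12, 8, 10, 13, 5, 14, 5, 9, 10, 2, 4, 2, 5], .l [3, 7, 3, 4, 12, 10, 13], .l [4, 1, 6, 2, 4, 1, 10, 8, 11], .l [12, 15, 9, 16, 3, 7, 10, 1, 6, 3, 4, 6, 1, 4, 1], .l [3, 7, 3, 4, 12, 10, 13], .r 1068 [1, 8, 3] [1, 1, 2, 12], .l [3, 5, 1, 2, 10, 8, 11], .l [12, 13, 11, 11, 9, 11, 7, 12, 3, 8, 4, 2, 3], .l [0, 1, 1, 4, 12, 10, 13], .l [0, 1, 6, 4, 4, 1, 10, 8, 11], .l [0, 1, 6, 4, 4, 1, 8, 6, 9], .l [1, 5, 3, 6, 12, 8, 13, 3, 7, 7, 5, 7, 5], .l [0, 1, 1, 6, 8, 6, 10, 8, 11], .l [0, 1, 8, 6, 6, 3, 10, 6, 11], .l [1, 5, 3, 8, 10, 8, 10, 6, 11, 3, 5, 7, 5], .l [0, 1, 1, 8, 10, 8, 8, 6, 8, 6, 9], .l [0, 1, 10, 8, 8, 5,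 10, 4, 11], .l [1, 5, 3, 10, 13, 11, 11, 9, 9, 7, 6, 4, 7], .l [0, 1, 1, 10, 12, 4, 13], .l [0, 1, 12, 10, 10, 7, 10, 2, 11], .y [0, 2, 13, 5], .l [6, 16, 11, 8, 13, 14, 10, 6, 6, 4, 8, 5, 1, 4, 1], .l [10, 8, 14, 5, 12, 14, 12, 6, 2, 7, 1, 6, 1], .l [6, 16, 11, 8, 13, 14, 10, 6, 6, 4, 8, 5, 1, 4, 1], .l [8, 18, 11, 6, 13, 3, 1, 5, 6, 10, 5, 1, 1, 6, 3], .l [10, 13, 7, 14, 3, 7, 10, 1, 6, 3, 4, 8, 3, 6, 1], .l [8, 18, 11, 6, 13, 3, 1, 5, 6, 10, 5, 1, 1, 6, 3]]),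
([p 3 1, g, s 1 0, g, p 0 2, p 6 3, g, m 0 4, g, m 4 5, g, p 0 6, m 5 7, g, m 7 0, g, s 2 0, g], .lo 7, [.l [9, 6, 8, 3, 10, 6, 13], .l [9, 6], .l [4, 3, 6, 2, 6, 1, 8, 4, 11], .l [0, 1, 6, 4, 4, 1, 6, 4, 9], .l [9, 4, 8, 5, 10, 4, 13], .l [9, 4], .l [11, 14, 13, 13, 11, 11, 6, 9, 5, 7, 1, 7, 2, 4, 5], .l [9, 1, 12, 8, 15], .l [9, 1], .r 1074 [1, 2, 3, 8, 4, 5, 6] [1, 1, 1, 1, 1, 1, 3, 1], .l [9, 1, 10, 8, 10, 8, 13], .l [9, 1], .l [7, 8], .l [11, 3, 3, 1, 10, 6, 13], .l [11, 3], .l [7, 10], .l [7, 13, 15, 13, 8], .l [14, 6], .l [7, 13], .y [7, 9, 12, 14], .l [7, 15, 10, 1, 11, 9, 3, 8, 11, 1, 3, 5, 1], .l [16, 8], .l [7, 15], .l [7, 15, 10, 1, 11, 9, 11, 2, 6], .l [2, 1, 11, 4, 5, 3, 3, 0, 11, 8, 2, 4, 7, 4, 1], .l [18,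 10], .l [7, 17]]),
([p 3 1, g, s 1 0, g, p 0 2, p 5 3, g, m 0 4, g, p 0 5, m 4 6, g, m 6 0, g, s 2 0, g], .lo 7, [.l [9, 6, 8, 3, 8, 4, 11], .l [9, 6], .l [4, 3, 6, 2, 6, 1, 6, 2, 9], .l [0, 1, 6, 4, 4, 1, 4, 2, 7], .l [9, 4, 8, 5, 8, 2, 11], .l [9, 4], .l [9, 12, 11, 11, 6, 9, 5, 7, 1, 7, 2, 4, 5], .l [9, 1, 10, 6, 13], .l [9, 1], .r 1075 [1, 2, 3, 7, 4, 5, 6] [1, 1, 1, 1, 1, 1, 1, 1], .l [9, 1, 10, 6, 13], .l [9, 1], .l [7, 8], .l [7, 11, 13, 11, 6], .l [12, 4], .l [7, 11], .y [7, 10, 12], .l [6, 9, 7, 14, 1, 7, 1, 6, 3], .l [14, 6], .l [7, 13], .l [6, 9, 7, 12, 10, 1, 10, 7, 1, 6, 3], .l [7, 15, 10, 1, 4, 11, 10, 8, 1, 7, 1, 3, 5], .l [16, 8], .l [7, 15]]),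
([p 3 1, g, s 1 0, g, p 0 2, p 4 3, g, p 0 4, m 0 5, g, m 5 0, g, s 2 0, g], .lo 8, [.l [0, 10, 7, 4, 7, 9, 7, 4, 7], .l [10, 7], .l [4, 10, 7, 4, 2, 2, 5, 7, 5, 2, 5], .l [0, 8, 5, 2, 5, 7, 5, 2, 5], .l [0, 10, 5, 2, 7, 9, 5, 2, 7], .l [10, 5], .l [6, 13, 9, 1, 5, 7, 4, 0, 2, 4, 1], .l [5, 10, 2, 13, 4, 10, 7], .l [10, 2], .r 1076 [1, 2, 3, 6, 4, 5] [1, 1, 1, 1, 1, 1, 1], .l [5, 10, 1, 11, 9, 6, 9], .l [10, 1], .l [8, 9], .y [8, 10], .l [0, 8, 11, 8, 4, 6, 7, 4, 7], .l [12, 3], .l [8, 11], .l [2, 1, 7, 9, 6, 2, 4, 5, 2], .l [0, 8, 13, 10, 4, 6, 9, 6, 3], .l [14, 5], .l [8, 13]]),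
([p 3 1, g, s 1 0, g, p 0 2, p 4 3, g, p 0 4, m 0 0, g, s 2 0, g], .hi 8, [.l [12, 5, 11, 10, 10, 8, 5], .l [1, 7, 5, 7], .l [2, 9], .l [12, 5, 11, 10, 10, 8, 3], .l [3, 7, 3, 7], .l [4, 9], .l [3, 5, 1, 5], .l [7, 9, 6], .l [5, 9, 8, 10, 4, 2, 3], .l [7, 9], .l [5, 7, 6, 8, 2, 0, 1], .y [8], .l [12, 7, 11, 10, 10, 8, 1], .l [12, 7, 11, 10, 10, 8, 1], .r 1077 [1, 2, 3, 4, 5] [1, 1, 1, 1, 1, 1], .l [10, 5, 9, 8, 8, 6, 7], .l [10, 5, 9, 8, 8, 6, 7], .l [5, 7, 6, 8, 10, 8, 1]]),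
([p 4 1, g, s 1 0, g, m 0 2, g, s 6 0, g, p 0 3, p 5 4, g, p 0 5, s 2 6, g, s 3 0, g], .lo 11, [.l [1, 11, 9, 10, 10, 8, 11], .l [2, 12], .l [0, 3, 1, 10, 10, 8, 11], .y [0, 2, 11, 9], .l [3, 11, 7, 10, 10, 6, 11], .l [4, 12], .l [3, 11, 7, 10], .l [5, 11, 5, 10, 10, 4, 11], .l [6, 12], .l [3, 11, 7, 11, 9, 8, 8, 4, 9], .l [5, 9, 3, 8, 8, 2, 9], .l [7, 11, 3, 10, 10, 2, 11], .l [8, 12], .l [3, 11, 7, 11, 7, 6, 6, 2, 9], .l [8, 15, 4, 1, 7, 1, 2, 0, 2, 3], .l [11, 12], .l [8, 15, 4, 1, 4, 2, 7], .l [10, 12, 7, 1, 5, 7, 10, 6, 1, 2, 0, 1], .l [3, 9, 5, 9, 11, 10, 10, 6, 9], .l [10, 11, 9, 9, 0, 11], .l [3, 9, 5, 9, 0, 10, 10, 4, 3], .l [8, 13, 2, 13, 10, 0, 10], .l [3, 9, 5, 9, 13, 12, 12, 8, 5], .l [8, 13, 2, 13, 10, 0,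 10]]),
([p 3 0, g, s 5 0, g, m 0 1, g, p 0 2, p 4 3, g, p 0 4, s 1 5, g, s 2 0, g], .lo 4, [.l [4, 3], .l [6, 3, 8, 2, 4, 7, 4], .l [6, 3], .l [5, 9, 3, 9, 4, 8, 10, 8, 1], .y [2, 4, 10], .l [6, 1, 8, 2, 4, 7, 4, 7], .l [6, 1], .l [5, 9, 3, 9, 2, 8, 10, 8, 3], .l [6, 1, 8, 2, 4, 7, 4, 7], .l [6, 1], .l [4, 5], .l [4, 8, 10, 8, 11], .l [9, 4], .l [4, 8], .l [3, 12, 7, 2, 6, 1, 7, 5, 2, 5], .l [12, 7], .l [4, 11], .l [7, 9, 8, 10, 10, 1, 1, 6, 1], .l [3, 14, 9, 2, 8, 3, 9, 5, 2, 5], .l [14, 9], .l [4, 13]]),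
([p 3 1, g, s 1 0, g, s 5 0, g, p 0 2, p 4 3, g, p 0 4, s 0 5, g, s 2 0, g], .lo 10, [.l [4, 3, 8, 4, 6, 7, 4, 7], .l [12, 9, 11, 4, 4, 2, 5], .l [4, 3, 8, 4, 6, 7, 4], .l [2, 1, 6, 4, 4, 5, 4], .l [2, 1, 11, 7, 4, 7, 4, 2, 4, 5], .l [12, 7, 11, 6, 6, 4, 7], .r 1079 [1, 6, 2, 3, 4, 5] [1, 1, 1, 1, 1, 1, 1], .y [4, 10], .l [2, 1, 11, 7, 4, 7, 4, 2, 4, 5], .l [12, 5, 11, 8, 8, 6, 1], .r 1080 [6, 2, 3, 4, 5] [3, 1, 1, 1, 1, 1], .l [9, 11, 8], .l [9, 11, 8], .l [2, 1, 11, 7, 2, 7, 4, 2, 4, 5], .l [2, 1, 9, 5, 2, 5, 7, 5, 2, 5], .l [2, 1, 9, 5, 2, 5, 7, 5, 2, 5], .l [10, 5, 9, 6, 6, 4, 7], .l [12, 5, 11, 10, 10, 8, 1], .l [2, 1, 9, 5, 2, 5, 9, 7, 2, 3], .l [2, 1, 9, 5, 2, 5, 9, 7, 2, 3], .l [10, 5, 9, 6, 6, 4, 9]]),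
([p 3 1, g, s 1 0, g, p 0 2, p 4 3, g, p 0 4, s 6 5, g, s 0 6, g, m 5 0, g, s 2 0, g], .lo 7, [.l [1, 7, 5, 6, 6, 4, 11], .l [2, 8], .l [0, 3, 1, 6, 6, 4, 11], .y [0, 2, 7, 5], .l [3, 7, 3, 6, 6, 2, 11], .l [4, 8], .l [3, 7, 3, 6], .l [4, 15, 8, 1, 11, 1, 2, 0, 6, 1], .l [7, 8], .l [6, 9, 7, 7, 2, 1], .l [6, 12, 3, 7, 1, 8, 6, 2, 7, 5, 2, 5], .l [6, 12, 3, 12, 8, 5, 5, 0, 7], .l [6, 7, 5, 5, 0, 7], .l [6, 10, 1, 5, 1, 6, 4, 5, 7, 2, 4, 5], .l [9, 12, 9, 12, 1, 7, 1, 8, 6, 2, 4, 5], .l [6, 7, 5, 5, 0, 9], .l [6, 7, 5, 5, 0, 9], .l [6, 10, 1, 10, 8, 5, 10, 8, 1, 2, 0, 3], .l [12, 3, 13, 8, 8, 6, 11], .l [6, 7, 5, 5, 0, 11], .l [12, 3, 4, 11, 11, 5, 4], .l [4, 13, 6, 13, 6, 0, 10], .l [12, 3, 15, 10, 10, 8, 5], .l [4, 13,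 6, 13, 6, 0, 10]]),
([p 3 1, g, s 1 0, g, p 0 2, p 4 3, g, p 0 4, s 0 5, g, m 5 0, g, s 2 0, g], .lo 8, [.l [4, 3, 6, 2, 4, 5, 2, 7], .l [14, 7, 13, 12, 12, 10, 7], .l [4, 3, 6, 2, 4, 5, 2], .l [2, 1, 4, 2, 2, 3, 2], .l [2, 1, 9, 5, 2, 5, 7, 5, 2, 5], .l [14, 7, 13, 12, 12, 10, 5], .l [7, 10, 6, 9, 5, 11, 6, 8, 3], .l [7, 9, 6], .l [7, 9, 6], .l [5, 9, 8, 12, 6, 2, 5], .r 1082 [1, 2, 3, 4, 5, 6] [1, 1, 1, 1, 1, 1, 1], .l [5, 10, 1, 11, 9, 6, 9], .l [14, 9, 13, 12, 12, 10, 1], .y [8, 10], .l [2, 1, 7, 9, 6, 2, 4, 5, 2, 5], .l [5, 10, 1, 11, 9, 6, 9], .l [14, 9, 13, 12, 12, 10, 3], .l [12, 7, 11, 10, 10, 8, 3], .l [2, 1, 7, 11, 8, 2, 4, 7, 4, 1], .l [5, 7, 6, 10, 12, 8, 1], .l [12, 7, 11, 10, 10, 8, 9]]),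
([p 3 1, g, s 1 0, g, p 0 2, p 4 3, g, p 0 4, s 6 5, g, s 5 0, g, p 0 6, g, s 2 0, g], .lo 7, [.l [1, 7, 5, 6, 6, 4, 11], .l [2, 8], .l [0, 3, 1, 6, 6, 4, 11], .y [0, 2, 7, 5], .l [3, 7, 3, 6, 6, 2, 11], .l [4, 8], .l [3, 7, 3, 6], .l [4, 15, 8, 1, 11, 1, 2, 0, 6, 1], .l [7, 8], .l [6, 9, 7, 7, 2, 1], .l [6, 12, 3, 7, 1, 8, 6, 2, 7, 5, 2, 5], .l [6, 12, 3, 12, 8, 5, 5, 0, 7], .l [6, 7, 5, 5, 0, 7], .l [6, 12, 3, 7, 1, 8, 6, 2, 2, 0, 2, 3], .l [6, 10, 1, 5, 1, 6, 4, 5, 7, 2, 4, 5], .l [9, 12, 9, 12, 1, 7, 1, 8, 6, 2, 4, 5], .l [6, 7, 5, 5, 0, 9], .l [6, 10, 1, 10, 8, 5, 10, 8, 1, 2, 0, 3], .l [12, 3, 13, 8, 8, 6, 11], .l [6, 7, 5, 5, 0, 11], .l [12, 3, 4, 11, 11, 5, 4], .l [4, 13, 6, 13, 6, 0, 10], .l [12, 3, 15, 10, 10,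 8, 5], .l [4, 13, 6, 13, 6, 0, 10]]),
([p 4 1, g, s 1 0, g, m 0 2, g, p 0 3, p 5 4, g, p 0 5, s 2 6, g, s 6 0, g, s 3 0, g], .lo 9, [.l [1, 9, 7, 8, 8, 6, 11], .l [2, 10], .l [0, 3, 1, 8, 8, 6, 11], .y [0, 2, 9, 7], .l [3, 9, 5, 8, 8, 4, 11], .l [4, 10], .l [3, 9, 5, 8], .l [5, 9, 3, 8, 8, 2, 11], .l [6, 10], .l [3, 9, 5, 9, 7, 6, 6, 2, 9], .l [6, 15, 6, 1, 9, 1, 2, 0, 4, 5], .l [9, 10], .l [6, 15, 6, 1, 6, 4, 9], .l [8, 10, 5, 8, 4, 7, 9, 2, 4, 7], .l [3, 7, 3, 7, 9, 8, 8, 4, 9], .l [8, 9, 7, 7, 0, 9], .l [8, 10, 5, 8, 4, 7, 7, 0, 2], .l [11, 14, 11, 12, 7, 10, 6, 2, 4, 7], .l [3, 7, 3, 7, 11, 10, 10, 6, 9], .l [8, 9, 7, 7, 0, 11], .l [3, 7, 3, 7, 0, 10, 10, 4, 3], .l [6, 13, 4, 13, 8, 0, 10], .l [3, 7, 3, 7, 13, 12,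 12, 8, 5], .l [6, 13, 4, 13, 8, 0, 10]]),
([p 3 1, g, s 1 0, g, p 0 2, p 4 3, g, p 0 4, s 0 5, g, s 5 0, g, s 2 0, g], .lo 8, [.l [4, 3, 6, 2, 4, 5, 2, 7], .l [10, 7, 9, 4, 4, 2, 7], .l [4, 3, 6, 2, 4, 5, 2], .l [2, 1, 4, 2, 2, 3, 2], .l [2, 1, 9, 5, 2, 5, 7, 5, 2, 5], .l [10, 5, 9, 6, 6, 4, 7], .r 1085 [1, 6, 2, 3, 4, 5] [1, 1, 1, 1, 1, 1, 1], .l [7, 9, 6], .l [7, 9, 6], .l [5, 9, 8, 12, 6, 2, 5], .l [2, 1, 7, 9, 6, 2, 4, 5, 2, 5], .l [2, 1, 7, 9, 6, 2, 4, 5, 2, 5], .l [14, 9, 13, 12, 12, 10, 1], .y [8, 10], .l [2, 1, 7, 9, 6, 2, 4, 5, 2, 5], .r 1084 [1, 2, 3, 4, 5, 6] [1, 1, 1, 1, 1, 1, 1], .l [14, 9, 13, 12, 12, 10, 3], .l [12, 7, 11, 10, 10, 8, 3], .l [2, 1, 7, 11, 8, 2, 4, 7, 4, 1], .l [5, 7, 6, 10, 12, 8, 1], .l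 [12, 7, 11, 10, 10, 8, 9]]),
([p 4 1, g, s 1 0, g, m 0 2, g, p 0 3, p 5 4, g, p 0 5, s 2 6, g, s 3 0, g, s 6 0, g], .lo 9, [.l [1, 9, 7, 8, 8, 6, 9], .l [2, 10], .l [0, 3, 1, 8, 8, 6, 9], .y [0, 2, 9, 7], .l [3, 9, 5, 8, 8, 4, 9], .l [4, 10], .l [3, 9, 5, 8], .l [5, 9, 3, 8, 8, 2, 9], .l [6, 10], .l [3, 9, 5, 9, 7, 6, 6, 2, 7], .l [6, 13, 4, 1, 7, 1, 2, 0, 2, 3], .l [9, 10], .l [6, 13, 4, 1, 4, 2, 7], .l [8, 10, 5, 8, 4, 7, 11, 4, 6, 3], .l [3, 7, 3, 7, 9, 8, 8, 4, 7], .l [8, 9, 7, 7, 0, 9], .l [3, 7, 3, 7, 0, 8, 8, 4, 3], .l [6, 11, 2, 11, 8, 0, 8], .l [3, 7, 3, 7, 11, 10, 10, 6, 3], .l [6, 11, 2, 11, 8, 0, 8], .l [6, 11, 2, 11, 8, 0, 8], .l [6, 11, 2, 13, 10, 0, 10], .l [3, 7, 3, 7, 13, 12, 12, 8, 3], .l [6, 11, 2,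 13, 10, 0, 10]])]

def d04_1 : List (List Item × Qry × List Rf) := [
([p 3 1, g, s 1 0, g, p 0 2, p 4 3, g, p 0 4, s 0 5, g, s 2 0, g, s 5 0, g], .lo 8, [.l [4, 3, 6, 2, 4, 5, 2, 5], .l [10, 7, 9, 4, 4, 2, 9], .l [4, 3, 6, 2, 4, 5, 2], .l [2, 1, 4, 2, 2, 3, 2], .l [2, 1, 9, 5, 2, 5, 9, 7, 2, 3], .l [10, 5, 9, 6, 6, 4, 9], .r 1087 [1, 6, 2, 3, 4, 5] [1, 1, 1, 1, 1, 1, 1], .l [7, 9, 6], .l [7, 9, 6], .l [5, 9, 8, 10, 4, 2, 3], .l [2, 1, 7, 11, 8, 2, 4, 7, 4, 1], .l [2, 1, 7, 11, 8, 2, 4, 7, 4, 1], .l [12, 7, 11, 10, 10, 8, 1], .l [10, 5, 9, 8, 8, 6, 1], .l [2, 1, 7, 11, 8, 2, 6, 7, 2, 3], .l [2, 1, 7, 11, 8, 2, 6, 7, 2, 3], .l [10, 5, 9, 8, 8, 6, 7], .y [8, 12], .l [2, 1, 7, 11, 8, 2, 6, 7, 2, 3], .l [5, 7, 6, 8, 12, 10,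 1], .l [10, 5, 9, 8, 8, 6, 9]]),
([p 2 0, g, p 4 1, p 3 2, g, p 5 3, s 0 4, g, s 0 5, g, s 1 0, g], .lo 6, [.l [10, 7, 9, 8, 8, 6, 5], .l [6, 8, 5, 10, 4, 4, 6, 2, 0, 1], .l [12, 7, 11, 10, 10, 8, 5], .l [3, 5, 1, 5, 5, 2, 4, 2, 5], .l [5, 7, 4], .l [5, 7, 4], .l [1, 3, 1, 5, 5, 2, 4, 2, 5], .l [7, 10, 7, 8, 5, 6, 4, 2, 2, 3], .l [4, 6, 3, 4, 2, 5, 3, 4, 1], .l [12, 9, 11, 10, 10, 8, 1], .l [4, 6, 3, 4, 2, 3, 5, 2, 2, 3], .l [4, 6, 3, 4, 2, 3, 5, 2, 2], .l [12, 9, 11, 10, 10, 8, 3], .y [2, 10, 6], .l [4, 6, 3, 4, 2, 3, 7, 4, 4, 1], .l [1, 10, 7, 0, 7, 3, 8, 4, 1], .l [10, 7, 9, 8, 8, 6, 7]]),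
([p 3 1, g, s 1 0, g, p 5 2, p 4 3, g, p 0 4, s 0 5, g, s 2 0, g], .lo 7, [.l [1, 7, 5, 6, 6, 4, 7], .l [2, 8], .l [0, 3, 1, 6, 6, 4, 7], .y [0, 2, 7, 5], .l [3, 7, 3, 6, 6, 2, 7], .l [4, 8], .l [3, 7, 3, 6], .l [4, 11, 4, 1, 7, 1, 2, 0, 2, 3], .l [7, 8], .l [4, 11, 4, 1, 4, 2, 7], .r 1089 [2, 3, 4, 5, 6] [3, 1, 1, 1, 1], .l [3, 5, 1, 5, 7, 6, 6, 2, 5], .l [6, 7, 5, 5, 0, 7], .l [3, 5, 1, 5, 0, 6, 6, 4, 3], .l [4, 9, 2, 9, 6, 0, 6], .l [3, 5, 1, 5, 9, 8, 8, 4, 1], .l [4, 9, 2, 9, 6, 0, 6]]),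
([p 2 0, g, p 4 0, g, p 0 1, p 3 2, g, p 5 3, s 0 4, g, s 0 5, g, s 1 0, g], .lo 8, [.l [12, 7, 11, 10, 10, 8, 7], .l [8, 10, 5, 12, 4, 6, 8, 2, 0, 1], .l [14, 7, 13, 12, 12, 10, 7], .l [3, 7, 3, 7, 7, 4, 6, 4, 7], .y [2, 8], .l [8, 10, 5, 12, 4, 6, 8, 2, 0, 1], .l [14, 7, 13, 12, 12, 10, 5], .l [3, 7, 3, 7, 7, 4, 6, 4, 7], .l [7, 9, 6], .l [7, 9, 6], .l [1, 5, 3, 7, 7, 4, 6, 4, 7], .l [9, 12, 9, 10, 5, 8, 6, 2, 4, 5], .l [6, 8, 3, 6, 4, 7, 3, 6, 3], .l [14, 9, 13, 12, 12, 10, 1], .l [6, 8, 3, 6, 4, 5, 7, 2, 4, 5], .l [6, 8, 3, 6, 4, 5, 7, 2, 4], .l [14, 9, 13, 12, 12, 10, 3], .l [12, 7, 11, 10, 10, 8, 3], .l [6, 8, 3, 6, 4, 5, 9, 4, 6, 3], .l [1, 12, 7, 0, 9, 5, 10, 4, 1], .l [12, 7, 11, 10, 10, 8, 9]]),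
([p 3 1, g, s 1 0, g, p 5 0, g, p 0 2, p 4 3, g, p 0 4, s 0 5, g, s 2 0, g], .lo 9, [.l [1, 9, 7, 8, 8, 6, 9], .l [2, 10], .l [0, 3, 1, 8, 8, 6, 9], .y [0, 2, 9, 7], .l [3, 9, 5, 8, 8, 4, 9], .l [4, 10], .l [3, 9, 5, 8], .l [4, 8], .l [5, 9, 3, 8, 8, 2, 9], .l [6, 10], .l [3, 9, 5, 9, 7, 6, 6, 2, 7], .l [6, 13, 4, 1, 7, 1, 2, 0, 2, 3], .l [9, 10], .l [6, 13, 4, 1, 4, 2, 7], .r 1091 [2, 3, 4, 5, 6] [3, 1, 1, 1, 1, 1], .l [3, 7, 3, 7, 9, 8, 8, 4, 7], .l [8, 9, 7, 7, 0, 9], .l [3, 7, 3, 7, 0, 8, 8, 4, 3], .l [6, 11, 2, 11, 8, 0, 8], .l [3, 7, 3, 7, 11, 10, 10, 6, 3], .l [6, 11, 2, 11, 8, 0, 8]]),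
([p 3 1, g, s 1 0, g, p 0 2, p 4 3, g, p 0 4, s 0 0, g, s 2 0, g], .hi 8, [.l [4, 3, 6, 2, 4, 5, 2, 5], .l [4, 3, 6, 2, 4, 5, 2], .l [12, 5, 11, 10, 10, 8, 5], .r 1081 [1, 2, 3, 4, 5] [1, 1, 1, 1, 1, 1], .r 1092 [1, 2, 3, 4, 5] [1, 1, 1, 1, 1, 1], .l [12, 5, 11, 10, 10, 8, 3], .r 1090 [1, 2, 3, 4, 5] [1, 1, 1, 1, 1], .l [7, 9, 6], .l [5, 9, 8, 10, 4, 2, 3], .l [7, 9, 6], .l [5, 7, 6, 8, 2, 0, 1], .y [8], .r 1086 [1, 2, 3, 4, 5] [1, 1, 1, 1, 1, 1], .l [12, 7, 11, 10, 10, 8, 1], .r 1083 [1, 2, 3, 4, 5] [1, 1, 1, 1, 1, 1], .r 1088 [1, 2, 3, 4, 5] [1, 1, 1, 1, 1, 1], .l [10, 5, 9, 8, 8, 6, 7], .l [5, 7, 6, 8, 10, 8, 1]]),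
([p 3 1, g, s 1 0, g, p 0 2, p 4 3, g, p 0 4, g, s 2 0, g], .top 8, [.l [5, 7, 6, 6, 1], .r 1093 [1, 2, 3, 4] [1, 1, 1, 1, 1], .r 1073 [1, 2, 3, 4] [1, 1, 1, 1, 1], .r 1078 [1, 2, 3, 4] [1, 1, 1, 1, 1]]),
([p 3 1, g, p 2 0, g, s 1 0, g, p 4 2, p 8 3, g, p 5 4, g, p 6 5, g, p 7 6, g, p 0 7, g, p 0 8, g], .hi 4, [.l [5, 9, 3, 4, 16, 14, 3], .l [5, 9, 3, 4, 16, 14, 3], .l [6, 5, 8, 2, 4, 2, 6, 3, 13, 7, 9, 7, 7, 5, 5, 3, 5, 3], .l [5, 9, 3, 6, 16, 12, 13], .l [5, 9, 3, 6, 1, 2, 6, 3, 13, 7, 9, 7, 7, 5, 5, 3, 5, 3], .l [0, 5, 7, 3, 5, 3, 5, 1, 5, 1, 11, 7, 9, 7, 7, 5, 5, 3], .l [5, 9, 3, 6, 16, 12, 13], .l [4, 3, 8, 4, 6, 2, 6, 3, 13, 7, 9, 7, 7, 5, 5, 3, 1, 3], .l [4, 3, 8, 4, 4, 2, 4, 2, 4, 1, 11, 7, 9, 7, 7, 5, 5, 3],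 .l [3, 7, 3, 6, 16, 12, 13], .l [3, 7, 3, 6, 1, 2, 6, 3, 13, 7, 9, 7, 7, 5, 5, 3, 5, 3], .l [0, 3, 8, 4, 4, 1, 14, 12, 1], .l [3, 7, 3, 8, 10, 8, 14, 10, 11], .l [3, 7, 3, 8, 3, 4, 8, 5, 5, 3, 11, 5, 7, 5, 5, 3, 5, 3], .l [0, 3, 10, 6, 6, 3, 4, 2, 12, 10, 1], .l [3, 7, 3, 10, 12, 10, 10, 8, 12, 8, 9], .l [3, 7, 3, 10, 5, 6, 10, 7, 7, 5, 5, 3, 9, 3, 5, 3, 5, 3], .l [0, 3, 12, 8, 8, 5, 6, 4, 4, 2, 10, 8, 1], .l [3, 7, 3, 12, 14, 12, 12, 10, 10, 8, 10, 6, 7], .l [3, 7, 3, 12, 7, 8, 12, 9, 9, 7, 7, 5, 5, 3, 7, 1, 5, 3], .l [0, 3, 5, 3, 13, 11, 11, 7, 9, 7, 7, 5, 5, 3, 7, 5, 3, 1], .l [3, 7, 3, 12, 7, 8, 10, 7, 7, 5, 5, 3, 3, 1, 5, 1, 3, 1], .l [3, 7, 3, 14, 16, 4, 5], .l [3, 7, 3, 14, 16, 4, 5], .l [0, 3, 5, 3, 15, 13, 13,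 9, 11, 9, 9, 7, 7, 5, 5, 3, 5, 3], .y [0, 4, 17, 7], .l [3, 7, 3, 16, 11, 12, 1], .l [3, 7, 3, 16, 11, 12, 1], .l [0, 3, 5, 3, 17, 15, 15, 11, 13, 11, 11, 9, 9, 7, 7, 5, 3, 1]]),
([p 3 1, g, p 2 0, g, s 1 0, g, p 4 2, p 7 3, g, p 5 4, g, p 6 5, g, p 0 6, g, p 0 7, g], .lo 13, [.l [14, 15, 13, 13, 11, 11, 8, 9, 1, 2, 8, 6, 1], .l [2, 14], .l [1, 9, 7, 12], .y [2, 13, 11, 9, 6], .l [3, 9, 5, 12, 12, 10, 10, 8, 10, 6, 7], .l [4, 14], .l [0, 5, 1, 12, 12, 10, 10, 8, 10, 8, 3], .l [3, 7, 3, 10, 10, 8, 8, 6, 8, 4, 5], .l [5, 9, 3, 12, 12, 10, 10, 8, 10, 4, 5], .l [6, 14], .l [5, 8, 4, 8, 6, 11], .l [8, 11, 8, 9, 3, 10, 10, 8, 10, 4, 5], .l [9, 14], .l [8, 11, 8, 8, 4, 8, 6, 9], .l [10, 13, 11, 11, 8, 9, 3, 8, 10, 4, 5], .l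 [11, 14], .l [10, 13, 11, 11, 8, 8, 4, 8, 6, 7], .l [14, 15, 11, 11, 9, 9, 6, 7, 1, 6, 8, 2, 3], .l [13, 14], .l [10, 17, 13, 7, 14, 5, 1, 1, 10, 7], .l [12, 13, 11, 11, 9, 9, 6, 7, 1, 6, 8, 2, 3], .r 1095 [1, 2, 3, 4, 5, 6, 8, 7] [1, 1, 1, 1, 1, 1, 1, 1, 1], .l [12, 13, 11, 11, 9, 9, 6, 6, 2, 6, 4, 5], .l [12, 13, 11, 11, 9, 9, 6, 7, 1, 8, 5, 6, 1], .l [13, 17, 16, 16, 14, 14, 12, 12, 9, 10, 4, 1, 2, 3], .l [12, 13, 11, 11, 9, 9, 6, 6, 2, 6, 4, 7]]),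
([p 3 1, g, p 2 0, g, s 1 0, g, p 4 2, p 6 3, g, p 5 4, g, p 0 5, g, p 0 6, g], .lo 11, [.l [12, 13, 11, 11, 8, 9, 1, 2, 8, 6, 1], .l [2, 12], .l [1, 9, 7, 10], .y [2, 11, 9, 6], .l [3, 9, 5, 10, 10, 8, 10, 6, 7], .l [4, 12], .l [0, 5, 1, 10, 10, 8, 10, 8, 3], .l [3, 7, 3, 8, 8, 6, 8, 4, 5], .l [5, 9, 3, 10, 10, 8, 10, 4, 5], .l [6, 12], .l [5, 8, 4, 8, 6, 9], .l [8, 11, 8, 9, 3, 8, 10, 4, 5], .l [9, 12], .l [8, 11, 8, 8, 4, 8, 6, 7], .l [12, 13, 9, 9, 6, 7, 1, 6, 8, 2, 3], .l [11, 12], .l [10, 13, 11, 11, 8, 8, 4, 8, 6, 1], .l [10, 11, 9, 9, 6, 7, 1, 6, 8, 2, 3], .r 1096 [1, 2, 3, 4, 5, 7, 6] [1, 1, 1, 1, 1, 1, 1, 1], .l [10, 11, 9, 9, 6, 6, 2, 6, 4, 5], .l [10, 11, 9, 9, 6, 7, 1, 8, 5, 6, 1], .l [11, 15, 14, 14, 12,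 12, 9, 10, 4, 1, 2, 3], .l [10, 11, 9, 9, 6, 6, 2, 6, 4, 7]]),
([p 3 1, g, p 2 0, g, s 1 0, g, p 4 2, p 5 3, g, p 0 4, g, p 0 5, g], .lo 9, [.l [10, 11, 8, 9, 1, 2, 8, 6, 1], .l [2, 10], .l [1, 9, 7, 8], .y [2, 9, 6], .l [3, 9, 5, 8, 10, 6, 7], .l [4, 10], .l [0, 5, 1, 8, 10, 8, 3], .l [3, 7, 3, 6, 8, 4, 5], .l [5, 9, 3, 8, 10, 4, 5], .l [6, 10], .l [5, 8, 4, 8, 6, 7], .l [10, 11, 6, 7, 1, 6, 8, 2, 3], .l [9, 10], .l [8, 11, 8, 8, 4, 8, 6, 1], .l [8, 9, 6, 7, 1, 6, 8, 2, 3], .r 1097 [1, 2, 3, 4, 6, 5] [1, 1, 1, 1, 1, 1, 1], .l [8, 9, 6, 6, 2, 6, 4, 5], .l [8, 9, 6, 7, 1, 8, 5, 6, 1], .l [9, 13, 12, 12, 9, 10, 4, 1, 2, 3], .l [8, 9, 6, 6, 2, 6, 4, 7]]),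
([p 3 1, g, p 2 0, g, s 1 0, g, p 0 2, p 4 3, g, p 0 4, g], .lo 6, [.l [7, 9, 1, 2, 8, 6, 1], .l [2, 7], .l [1, 9, 7, 5], .y [2, 6], .l [7, 9, 1, 4, 8, 4, 5], .l [4, 7], .l [3, 8, 6, 8, 6, 3], .l [5, 7, 1, 4, 6, 2, 3], .l [7, 9, 1, 6, 8, 2, 3], .l [6, 7], .l [5, 8, 4, 8, 6, 1], .l [5, 7, 1, 6, 8, 2, 3], .r 1098 [1, 2, 3, 5, 4] [1, 1, 1, 1, 1, 1], .l [5, 6, 2, 6, 4, 5], .l [5, 7, 1, 8, 5, 6, 1], .l [7, 11, 9, 10, 4, 1, 2, 3], .l [5, 6, 2, 6, 4, 7]]),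
([p 2 0, g, s 1 0, g, p 0 1, p 3 2, g, p 4 3, g, p 5 4, g, p 6 5, g, p 7 6, g, p 8 7, g, p 0 8, g], .lo 4, [.l [0, 3], .l [5, 7, 1, 2, 6, 4, 1], .l [2, 5], .l [1, 7, 5, 3], .y [2, 4], .l [5, 7, 1, 4, 6, 2, 3], .l [4, 5], .l [3, 7, 3, 1], .l [3, 5, 1, 4, 6, 2, 3], .l [15, 17, 16, 16, 14, 14, 12, 12, 10, 10, 6, 1, 5, 1, 5, 1, 5, 1], .l [3, 5, 1, 4], .l [3, 5, 1, 6, 8, 6, 6, 2, 3], .l [15, 17, 16, 16, 14, 14, 12, 12, 8, 8, 6, 1, 5, 1, 5, 1, 5, 1], .l [3, 5, 1, 6], .l [3, 5, 1, 8, 10, 8, 8, 6, 6, 2, 3], .l [6, 11, 8, 4, 7, 3, 6, 0, 3], .l [3, 5, 1, 8], .l [3, 5, 1, 10, 12, 10, 10, 8, 8, 6, 6, 2, 3], .l [6, 13, 10, 4, 9, 5, 8, 0, 5], .l [3, 5, 1, 10], .l [3, 5, 1, 12, 14, 12, 12, 10, 10, 8, 8, 6, 6, 2, 3], .l [5, 15, 13, 5,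 12, 7, 1, 9, 11, 5, 5, 3, 7, 5, 5, 3, 5, 1], .l [3, 5, 1, 12], .l [3, 5, 1, 14, 16, 14, 14, 12, 12, 10, 10, 8, 8, 6, 6, 2, 3], .l [4, 1, 4, 0, 14, 11, 13, 11, 11, 9, 9, 7, 7, 5, 5, 3, 5, 1], .l [3, 5, 1, 14], .l [3, 5, 1, 16, 13, 14, 11], .l [4, 1, 4, 0, 16, 13, 15, 13, 13, 11, 11, 9, 9, 7, 7, 5, 5, 3], .l [3, 5, 1, 16]]),
([p 2 0, g, s 1 0, g, p 0 1, p 3 2, g, p 4 3, g, p 5 4, g, p 6 5, g, p 7 6, g, p 0 7, g], .lo 15, [.y [0, 15, 13, 11, 9, 7, 5], .l [1, 7, 5, 14, 14, 12, 12, 10, 10, 8, 8, 6, 6, 4, 1], .l [2, 16], .l [1, 7, 5, 14], .l [1, 5, 3, 12, 12, 10, 10, 8, 8, 6, 6, 4, 4, 2, 1], .l [3, 7, 3, 14, 14, 12, 12, 10, 10, 8, 8, 6, 6, 2, 3], .l [4, 16], .l [3, 7, 3, 14], .l [6, 9, 7, 1, 6, 2, 11], .l [7, 16], .l [6, 9,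 7, 1, 6, 2, 11], .l [8, 11, 9, 9, 7, 1, 6, 2, 9], .l [9, 16], .l [8, 11, 9, 9, 7, 1, 6, 2, 9], .l [10, 13, 11, 11, 9, 9, 7, 1, 6, 2, 7], .l [11, 16], .l [10, 13, 11, 11, 9, 9, 7, 1, 6, 2, 7], .l [12, 15, 13, 13, 11, 11, 9, 9, 7, 1, 6, 2, 5], .l [13, 16], .l [12, 15, 13, 13, 11, 11, 9, 9, 7, 1, 6, 2, 5], .l [14, 17, 15, 15, 13, 13, 11, 11, 9, 9, 7, 1, 6, 2, 1], .l [15, 16], .l [14, 17, 15, 15, 13, 13, 11, 11, 9, 9, 7, 1, 6, 2, 1], .l [14, 15, 13, 13, 11, 11, 9, 9, 7, 7, 5, 1, 4, 0, 3], .r 1100 [1, 2, 3, 4, 5, 6, 7, 8] [1, 1, 1, 1, 1, 1, 1, 1, 1], .l [14, 15, 13, 13, 11, 11, 9, 9, 7, 7, 5, 1, 4, 0, 3]]),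
([p 2 0, g, s 1 0, g, p 0 1, p 3 2, g, p 4 3, g, p 5 4, g, p 6 5, g, p 0 6, g], .lo 13, [.y [0, 13, 11, 9, 7, 5], .l [1, 7, 5, 12, 12, 10, 10, 8, 8, 6, 6, 4, 1], .l [2, 14], .l [1, 7, 5, 12], .l [1, 5, 3, 10, 10, 8, 8, 6, 6, 4, 4, 2, 1], .l [3, 7, 3, 12, 12, 10, 10, 8, 8, 6, 6, 2, 3], .l [4, 14], .l [3, 7, 3, 12], .l [6, 9, 7, 1, 6, 2, 9], .l [7, 14], .l [6, 9, 7, 1, 6, 2, 9], .l [8, 11, 9, 9, 7, 1, 6, 2, 7], .l [9, 14], .l [8, 11, 9, 9, 7, 1, 6, 2, 7], .l [10, 13, 11, 11, 9, 9, 7, 1, 6, 2, 5], .l [11, 14], .l [10, 13, 11, 11, 9, 9, 7, 1, 6, 2, 5], .l [12, 15, 13, 13, 11, 11, 9, 9, 7, 1, 6, 2, 1], .l [13, 14], .l [12, 15, 13, 13, 11, 11, 9, 9, 7, 1, 6, 2, 1], .l [12, 13, 11, 11, 9, 9, 7, 7, 5, 1, 4, 0, 3], .r 1101 [1,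 2, 3, 4, 5, 6, 7] [1, 1, 1, 1, 1, 1, 1, 1], .l [12, 13, 11, 11, 9, 9, 7, 7, 5, 1, 4, 0, 3]]),
([p 2 0, g, s 1 0, g, p 0 1, p 3 2, g, p 4 3, g, p 5 4, g, p 0 5, g], .lo 11, [.y [0, 11, 9, 7, 5], .l [1, 7, 5, 10, 10, 8, 8, 6, 6, 4, 1], .l [2, 12], .l [1, 7, 5, 10], .l [1, 5, 3, 8, 8, 6, 6, 4, 4, 2, 1], .l [3, 7, 3, 10, 10, 8, 8, 6, 6, 2, 3], .l [4, 12], .l [3, 7, 3, 10], .l [6, 9, 7, 1, 6, 2, 7], .l [7, 12], .l [6, 9, 7, 1, 6, 2, 7], .l [8, 11, 9, 9, 7, 1, 6, 2, 5], .l [9, 12], .l [8, 11, 9, 9, 7, 1, 6, 2, 5], .l [10, 13, 11, 11, 9, 9, 7, 1, 6, 2, 1], .l [11, 12], .l [10, 13, 11, 11, 9, 9, 7, 1, 6, 2, 1], .l [10, 11, 9, 9, 7, 7, 5, 1, 4, 0, 3], .r 1102 [1, 2, 3, 4, 5, 6] [1, 1, 1, 1, 1, 1, 1], .l [10, 11, 9, 9, 7, 7, 5,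 1, 4, 0, 3]]),
([p 2 0, g, s 1 0, g, p 0 1, p 3 2, g, p 4 3, g, p 0 4, g], .lo 9, [.y [0, 9, 7, 5], .l [1, 7, 5, 8, 8, 6, 6, 4, 1], .l [2, 10], .l [1, 7, 5, 8], .l [1, 5, 3, 6, 6, 4, 4, 2, 1], .l [3, 7, 3, 8, 8, 6, 6, 2, 3], .l [4, 10], .l [3, 7, 3, 8], .l [6, 9, 7, 1, 6, 2, 5], .l [7, 10], .l [6, 9, 7, 1, 6, 2, 5], .l [8, 11, 9, 9, 7, 1, 6, 2, 1], .l [9, 10], .l [8, 11, 9, 9, 7, 1, 6, 2, 1], .l [8, 9, 7, 7, 5, 1, 4, 0, 3], .r 1103 [1, 2, 3, 4, 5] [1, 1, 1, 1, 1, 1], .l [8, 9, 7, 7, 5, 1, 4, 0, 3]]),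
([p 2 0, g, s 1 0, g, p 0 1, p 3 2, g, p 0 3, g], .lo 7, [.y [0, 7, 5], .l [1, 7, 5, 6, 6, 4, 1], .l [2, 8], .l [1, 7, 5, 6], .l [1, 5, 3, 4, 4, 2, 1], .l [3, 7, 3, 6, 6, 2, 3], .l [4, 8], .l [3, 7, 3, 6], .l [6, 9, 7, 1, 6, 2, 1], .l [7, 8], .l [6, 9, 7, 1, 6, 2, 1], .l [6, 7, 5, 1, 4, 0, 3], .r 1104 [1, 2, 3, 4] [1, 1, 1, 1, 1], .l [6, 7, 5, 1, 4, 0, 3]]),
([p 3 1, g, s 1 0, g, p 2 0, g, p 4 2, p 8 3, g, p 5 4, g, p 6 5, g, p 7 6, g, p 0 7, g, p 0 8, g], .lo 15, [.l [16, 17, 15, 15, 13, 13, 11, 11, 8, 9, 1, 2, 8, 6, 3], .l [2, 16], .l [0, 3, 1, 14, 14, 12, 12, 10, 10, 8, 8, 5, 6, 2, 1, 3, 5, 3], .l [14, 15, 13, 13, 11, 11, 9, 9, 6, 6, 4, 6, 2, 3, 5, 3, 3, 1], .l [16, 17, 15, 15, 13, 13, 11, 11, 8, 9, 1, 4, 8, 4, 1],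 .l [4, 16], .l [3, 9, 5, 14], .y [4, 15, 13, 11, 9, 6], .l [5, 9, 3, 14, 14, 12, 12, 10, 10, 8, 10, 4, 7], .l [6, 16], .l [5, 8, 6, 8, 4, 13], .l [8, 11, 8, 9, 3, 12, 12, 10, 10, 8, 10, 4, 7], .l [9, 16], .l [8, 11, 8, 8, 6, 8, 4, 11], .l [10, 13, 11, 11, 8, 9, 3, 10, 10, 8, 10, 4, 7], .l [11, 16], .l [10, 13, 11, 11, 8, 8, 6, 8, 4, 9], .l [12, 15, 13, 13, 11, 11, 8, 9, 3, 8, 10, 4, 7], .l [13, 16], .l [10, 19, 15, 7, 16, 7, 3, 3, 1, 1, 10, 7], .l [16, 17, 13, 13, 11, 11, 9, 9, 6, 7, 1, 6, 8, 2, 5], .l [15, 16], .l [12, 13, 11, 17, 13, 7, 14, 5, 1, 1, 10, 7], .l [14, 15, 13, 13, 11, 11, 9, 9, 6, 7, 1, 6, 8, 2, 5], .l [15, 17, 16, 16, 14, 14, 12, 12, 10, 10, 7, 8, 2, 4, 1, 6, 4, 1], .l [12, 19, 13, 7, 16, 7, 1, 7, 1, 5,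 10, 7], .l [14, 15, 13, 13, 11, 11, 9, 9, 6, 7, 1, 8, 3, 6, 3], .l [15, 19, 18, 18, 16, 16, 14, 14, 12, 12, 9, 10, 4, 1, 2, 5], .l [10, 17, 13, 7, 14, 3, 14, 10, 8, 9]]),
([p 3 1, g, s 1 0, g, p 2 0, g, p 4 2, p 7 3, g, p 5 4, g, p 6 5, g, p 0 6, g, p 0 7, g], .lo 13, [.l [14, 15, 13, 13, 11, 11, 8, 9, 1, 2, 8, 6, 3], .l [2, 14], .l [1, 9, 7, 12], .l [12, 13, 11, 11, 9, 9, 6, 7, 1, 2, 6, 4, 1], .l [14, 15, 13, 13, 11, 11, 8, 9, 1, 4, 8, 4, 1], .l [4, 14], .l [3, 9, 5, 12], .y [4, 13, 11, 9, 6], .l [5, 9, 3, 12, 12, 10, 10, 8, 10, 4, 7], .l [6, 14], .l [5, 8, 6, 8, 4, 11], .l [8, 11, 8, 9, 3, 10, 10, 8, 10, 4, 7], .l [9, 14], .l [8, 11, 8, 8, 6, 8, 4, 9], .l [10, 13, 11, 11, 8, 9, 3, 8, 10, 4, 7], .l [11, 14], .l [10,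 13, 11, 11, 8, 8, 6, 8, 4, 7], .l [14, 15, 11, 11, 9, 9, 6, 7, 1, 6, 8, 2, 5], .l [13, 14], .l [10, 17, 13, 7, 14, 5, 1, 1, 10, 7], .l [12, 13, 11, 11, 9, 9, 6, 7, 1, 6, 8, 2, 5], .r 1106 [1, 2, 3, 4, 5, 6, 8, 7] [1, 1, 1, 1, 1, 1, 1, 1, 1], .l [12, 13, 11, 11, 9, 9, 6, 6, 4, 6, 2, 5], .l [12, 13, 11, 11, 9, 9, 6, 7, 1, 8, 3, 6, 3], .l [13, 17, 16, 16, 14, 14, 12, 12, 9, 10, 4, 1, 2, 5], .l [12, 13, 11, 11, 9, 9, 6, 6, 4, 6, 2, 7]]),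
([p 3 1, g, s 1 0, g, p 2 0, g, p 4 2, p 6 3, g, p 5 4, g, p 0 5, g, p 0 6, g], .lo 11, [.l [12, 13, 11, 11, 8, 9, 1, 2, 8, 6, 3], .l [2, 12], .l [1, 9, 7, 10], .l [10, 11, 9, 9, 6, 7, 1, 2, 6, 4, 1], .l [12, 13, 11, 11, 8, 9, 1, 4, 8, 4, 1], .l [4, 12], .l [3, 9, 5, 10], .y [4, 11, 9, 6], .l [5, 9, 3, 10, 10, 8, 10, 4, 7], .l [6, 12], .l [5, 8, 6, 8, 4, 9], .l [8, 11, 8, 9, 3, 8, 10, 4, 7], .l [9, 12], .l [8, 11, 8, 8, 6, 8, 4, 7], .l [12, 13, 9, 9, 6, 7, 1, 6, 8, 2, 5], .l [11, 12], .l [10, 13, 11, 11, 8, 8, 6, 8, 4, 1], .l [10, 11, 9, 9, 6, 7, 1, 6, 8, 2, 5], .r 1107 [1, 2, 3, 4, 5, 7, 6] [1, 1, 1, 1, 1, 1, 1, 1], .l [10, 11, 9, 9, 6, 6, 4, 6, 2, 5], .l [10, 11, 9, 9, 6, 7, 1, 8, 3, 6, 3], .l [11, 15, 14, 14, 12, 12,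 9, 10, 4, 1, 2, 5], .l [10, 11, 9, 9, 6, 6, 4, 6, 2, 7]]),
([p 3 1, g, s 1 0, g, p 2 0, g, p 4 2, p 5 3, g, p 0 4, g, p 0 5, g], .lo 9, [.l [10, 11, 8, 9, 1, 2, 8, 6, 3], .l [2, 10], .l [1, 9, 7, 8], .l [8, 9, 6, 7, 1, 2, 6, 4, 1], .l [10, 11, 8, 9, 1, 4, 8, 4, 1], .l [4, 10], .l [3, 9, 5, 8], .y [4, 9, 6], .l [5, 9, 3, 8, 10, 4, 7], .l [6, 10], .l [5, 8, 6, 8, 4, 7], .l [10, 11, 6, 7, 1, 6, 8, 2, 5], .l [9, 10], .l [8, 11, 8, 8, 6, 8, 4, 1], .l [8, 9, 6, 7, 1, 6, 8, 2, 5], .r 1108 [1, 2, 3, 4, 6, 5] [1, 1, 1, 1, 1, 1, 1], .l [8, 9, 6, 6, 4, 6, 2, 5], .l [8, 9, 6, 7, 1, 8, 3, 6, 3], .l [9, 13, 12, 12, 9, 10, 4, 1, 2, 5], .l [8, 9, 6, 6, 4, 6, 2, 7]]),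
([p 3 1, g, s 1 0, g, p 2 0, g, p 0 2, p 4 3, g, p 0 4, g], .lo 6, [.l [7, 9, 1, 2, 8, 6, 3], .l [2, 7], .l [1, 9, 7, 5], .l [5, 7, 1, 2, 6, 4, 1], .l [7, 9, 1, 4, 8, 4, 1], .l [4, 7], .l [3, 9, 5, 3], .y [4, 6], .l [7, 9, 1, 6, 8, 2, 5], .l [6, 7], .l [5, 8, 6, 8, 4, 1], .l [5, 7, 1, 6, 8, 2, 5], .r 1109 [1, 2, 3, 5, 4] [1, 1, 1, 1, 1, 1], .l [5, 6, 4, 6, 2, 5], .l [5, 7, 1, 8, 3, 6, 3], .l [7, 11, 9, 10, 4, 1, 2, 5], .l [5, 6, 4, 6, 2, 7]]),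
([p 2 1, g, s 1 0, g, p 0 0, p 3 2, g, p 0 3, g], .hi 4, [.r 1105 [4, 2, 3] [1, 3, 1, 1], .r 1099 [1, 4, 2, 3] [1, 1, 1, 1, 1], .l [6, 3], .r 1105 [4, 2, 3] [3, 1, 1, 1], .r 1110 [1, 4, 2, 3] [1, 1, 1, 1, 1], .l [6, 1], .y [4], .r 877 [1, 4, 2, 3] [1, 1, 1, 1, 1], .l [4, 6], .l [7, 2], .l [4, 6], .r 1094 [1, 4, 2, 3] [1, 1, 1, 1, 1], .l [4, 8], .l [9, 4]]),
([p 8 1, g, s 0 2, g, s 1 0, g, p 3 0, g, p 4 3, g, p 5 4, g, p 6 5, g, p 7 6, g, p 9 7, p 2 8, g, p 0 9, g], .hi 6, [.l [8, 5, 18, 10, 12, 10, 10, 8, 8, 6, 6, 4, 4, 2, 5], .l [3, 8, 6, 17, 15, 14, 16, 15, 15, 13, 13, 11, 11, 9, 9, 7, 7, 5], .l [8, 5], .l [6, 3, 16, 10, 12, 10, 10, 8, 8, 6, 6, 4, 4, 2, 1], .l [8, 3, 18, 10, 14, 12, 12, 10, 10, 8, 8, 6, 6, 4, 1], .l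 [1, 19, 17, 16, 18, 17, 17, 15, 15, 13, 13, 11, 11, 9, 9, 7, 7, 3], .l [8, 3], .l [8, 1, 18, 10, 16, 14, 14, 12, 12, 10, 10, 8, 8, 6, 1], .l [1, 19, 17, 16, 18, 17, 17, 15, 15, 13, 13, 11, 11, 9, 9, 7, 7, 5], .l [8, 1], .l [8, 1, 18, 10, 1, 14, 16, 9, 10, 12, 1, 10, 7], .l [6, 7], .l [8, 1], .l [10, 3, 18, 8, 16, 14, 14, 12, 12, 10, 10, 8, 1], .l [6, 9], .l [10, 3], .l [12, 5, 5, 3, 16, 6, 14, 12, 12, 10, 10, 8, 1], .l [6, 11], .l [12, 5], .l [14, 7, 7, 5, 5, 3, 14, 4, 12, 10, 10, 8, 1], .l [6, 13], .l [14, 7], .l [16, 9, 9, 7, 7, 5, 5, 3, 12, 2, 10, 8, 1], .l [6, 15], .l [16, 9], .l [19, 12, 12, 10, 10, 8, 8, 6, 6, 4, 4, 2, 5], .l [6, 18], .l [19, 12], .y [6, 19, 16, 14, 12, 10, 8], .l [21, 14, 14, 12, 12, 10, 10, 8,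 8, 6, 6, 4, 7], .l [6, 20], .l [21, 14]]),
([p 7 1, g, s 0 2, g, s 1 0, g, p 3 0, g, p 4 3, g, p 5 4, g, p 6 5, g, p 8 6, p 2 7, g, p 0 8, g], .hi 6, [.l [8, 5, 16, 8, 10, 8, 8, 6, 6, 4, 4, 2, 5], .l [6, 5, 16, 10, 14, 12, 12, 10, 10, 8, 8, 6, 6, 4, 1], .l [8, 5], .l [6, 3, 14, 8, 10, 8, 8, 6, 6, 4, 4, 2, 1], .l [8, 3, 16, 8, 12, 10, 10, 8, 8, 6, 6, 4, 1], .l [6, 5, 16, 10, 12, 10, 10, 8, 8, 6, 6, 4, 4, 2, 3], .l [8, 3], .l [8, 1, 16, 8, 14, 12, 12, 10, 10, 8, 8, 6, 1], .r 1112 [1, 2, 9, 3, 4, 5, 6, 7, 8] [1, 1, 1, 1, 1, 1, 1, 1, 1, 1], .l [8, 1], .l [8, 1, 16, 8, 1, 12, 14, 7, 8, 10, 1, 8, 5], .l [6, 7], .l [8, 1], .l [10, 3, 16, 6, 14, 12, 12, 10, 10, 8, 1], .l [6, 9], .l [10, 3], .l [12, 5, 5, 3, 14, 4, 12, 10, 10,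 8, 1], .l [6, 11], .l [12, 5], .l [14, 7, 7, 5, 5, 3, 12, 2, 10, 8, 1], .l [6, 13], .l [14, 7], .l [17, 10, 10, 8, 8, 6, 6, 4, 4, 2, 5], .l [6, 16], .l [17, 10], .y [6, 17, 14, 12, 10, 8], .l [19, 12, 12, 10, 10, 8, 8, 6, 6, 4, 7], .l [6, 18], .l [19, 12]]),
([p 6 1, g, s 0 2, g, s 1 0, g, p 3 0, g, p 4 3, g, p 5 4, g, p 7 5, p 2 6, g, p 0 7, g], .hi 6, [.l [8, 5, 14, 6, 8, 6, 6, 4, 4, 2, 5], .l [6, 5, 14, 8, 12, 10, 10, 8, 8, 6, 6, 4, 1], .l [8, 5], .l [6, 3, 12, 6, 8, 6, 6, 4, 4, 2, 1], .l [8, 3, 14, 6, 10, 8, 8, 6, 6, 4, 1], .l [6, 5, 14, 8, 10, 8, 8, 6, 6, 4, 4, 2, 3], .l [8, 3], .l [8, 1, 14, 6, 12, 10, 10, 8, 8, 6, 1], .r 1113 [1, 2, 8, 3, 4, 5, 6, 7] [1, 1, 1, 1, 1, 1, 1, 1, 1], .l [8, 1], .l [8, 1, 14, 6, 1, 10,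 12, 5, 6, 8, 1, 6, 3], .l [6, 7], .l [8, 1], .l [10, 3, 14, 4, 12, 10, 10, 8, 1], .l [6, 9], .l [10, 3], .l [12, 5, 5, 3, 12, 2, 10, 8, 1], .l [6, 11], .l [12, 5], .l [15, 8, 8, 6, 6, 4, 4, 2, 5], .l [6, 14], .l [15, 8], .y [6, 15, 12, 10, 8], .l [17, 10, 10, 8, 8, 6, 6, 4, 7], .l [6, 16], .l [17, 10]]),
([p 5 1, g, s 0 2, g, s 1 0, g, p 3 0, g, p 4 3, g, p 6 4, p 2 5, g, p 0 6, g], .hi 6, [.l [8, 5, 12, 4, 6, 4, 4, 2, 5], .l [6, 5, 12, 6, 10, 8, 8, 6, 6, 4, 1], .l [8, 5], .l [6, 3, 10, 4, 6, 4, 4, 2, 1], .l [8, 3, 12, 4, 8, 6, 6, 4, 1], .l [6, 5, 12, 6, 8, 6, 6, 4, 4, 2, 3], .l [8, 3], .l [8, 1, 12, 4, 10, 8, 8, 6, 1], .r 1114 [1, 2, 7, 3, 4, 5, 6] [1, 1, 1, 1, 1, 1, 1, 1], .l [8, 1], .l [8, 1, 3, 5, 10, 4, 1, 4, 8,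 5, 3, 4, 1], .l [6, 7], .l [8, 1], .l [10, 3, 12, 2, 10, 8, 1], .l [6, 9], .l [10, 3], .l [13, 6, 6, 4, 4, 2, 5], .l [6, 12], .l [13, 6], .y [6, 13, 10, 8], .l [15, 8, 8, 6, 6, 4, 7], .l [6, 14], .l [15, 8]]),
([p 5 1, g, s 0 2, g, s 1 0, g, p 3 0, g, p 4 3, g, p 0 4, p 2 5, g], .lo 10, [.l [11, 13, 1, 2, 4, 2, 7], .l [2, 11], .l [1, 13, 11, 9], .l [1, 4, 10, 11, 3, 2, 7], .l [4, 11], .l [3, 13, 9, 7], .l [1, 4, 8, 9, 3, 2, 5], .l [1, 6, 10, 11, 5, 4, 7], .l [6, 11], .l [5, 13, 7, 5], .y [6, 10, 8], .l [1, 8, 10, 11, 7, 6, 7], .l [8, 11], .l [7, 10, 8, 11, 5, 3], .l [11, 13, 1, 10, 1, 8, 1], .l [10, 11], .l [9, 12, 10, 10, 8, 10, 4, 1], .l [9, 11, 1, 10, 1, 8, 1], .r 1115 [1, 2, 3, 4, 5, 6] [1, 1, 1, 1, 1, 1, 1], .l [9,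 10, 8, 8, 6, 8, 2, 7]]),
([p 5 1, s 0 0, g, s 0 2, g, s 1 0, g, p 4 3, g, s 3 0, g, p 0 4, p 2 5, g], .hi 1, [.y [1], .l [0, 6, 10, 1, 11, 7, 1, 3, 4, 5], .l [2, 14, 11, 11, 6], .r 578 [1, 6, 5] [1, 3, 6, 1], .l [0, 4, 8, 1, 9, 5, 1, 1, 2, 3], .l [0, 6, 10, 1, 11, 7, 3, 1, 4, 5], .l [4, 14, 9, 9, 6], .l [2, 5, 3, 4, 8, 1, 9, 5, 4, 5], .l [11, 1, 5, 8, 5, 10, 2, 8, 6, 3], .l [5, 4, 5], .l [11, 1, 5, 8, 5, 10, 2, 8, 6, 3], .l [0, 4, 10, 3, 11, 5, 8, 1, 2, 3], .l [5, 4, 7], .l [9, 7, 13, 4, 7, 3, 8], .l [10, 14, 3, 3, 6, 1, 4, 5], .l [5, 4, 9], .l [11, 9, 13, 2, 7, 5, 8], .l [5, 4, 9], .l [0, 4, 8, 1, 9, 5, 8, 1, 2, 3], .l [5, 4, 12], .l [2, 14, 12, 2, 6, 1, 7, 3, 2, 3]]),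
([p 4 1, s 0 0, g, s 0 2, g, s 1 0, g, p 3 0, g, p 0 3, p 2 4, g], .hi 7, [.l [7, 5, 9, 2, 3, 1, 4], .l [9, 5, 11, 2, 5, 3, 6], .l [7, 6, 11, 4, 8, 6, 6, 4, 1], .l [9, 5], .l [7, 3, 3, 7, 6], .l [9, 3, 11, 2, 7, 5, 2], .l [7, 6, 11, 4, 6, 4, 4, 2, 3], .l [9, 3], .l [9, 1, 11, 2, 9, 7, 2], .r 1116 [1, 2, 5, 3, 4] [2, 1, 1, 1, 1, 1], .l [9, 1], .r 1117 [1, 2, 5, 3, 4] [1, 1, 1, 1, 1, 1], .l [7, 8], .l [9, 1], .y [7, 9], .l [12, 4, 4, 2, 5], .l [7, 11], .l [12, 4]]),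
([p 3 1, s 0 0, g, s 0 2, g, s 1 0, g, p 0 0, p 2 3, g], .hi 7, [.l [2, 8, 5, 4, 4], .l [4, 10, 5, 4, 6], .l [4, 10, 5, 4, 6], .l [9, 5], .l [2, 8, 5, 4, 3], .l [2, 10, 7, 6, 3], .l [7, 6, 9, 2, 4, 2, 3], .l [9, 3], .l [2, 10, 7, 6, 1], .r 1118 [1, 2, 4, 3] [1, 1, 1, 1, 1], .l [9, 1], .y [7], .l [2, 8, 5, 4, 6], .l [7, 9], .l [10, 2]]),
([p 2 0, g, p 1 0, g, p 3 1, p 8 2, g, p 4 3, g, p 5 4, g, p 6 5, g, p 7 6, g, p 0 7, g, s 0 8, g], .lo 15, [.l [0, 14], .l [16, 17, 15, 15, 13, 13, 11, 11, 9, 9, 6, 7, 1, 2, 6, 4, 1], .l [2, 16], .l [1, 7, 5, 14], .y [2, 15, 13, 11, 9, 7, 4], .l [3, 7, 3, 14, 9, 10, 13], .l [4, 16], .l [3, 6, 4, 6, 4, 13], .l [6, 9, 6, 7, 3, 12, 7, 8, 11], .l [7, 16], .l [4, 9, 8, 4, 0, 15, 11, 9, 9,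 7, 7, 5, 5, 3, 3, 1, 3, 1], .l [8, 11, 9, 9, 6, 7, 3, 10, 5, 6, 9], .l [9, 16], .l [4, 7, 6, 6, 4, 2, 0, 13, 9, 7, 7, 5, 5, 3, 3, 1, 3, 1], .l [10, 13, 11, 11, 9, 9, 6, 7, 3, 8, 3, 4, 7], .l [11, 16], .l [10, 13, 11, 11, 9, 9, 6, 6, 4, 6, 4, 7], .l [12, 15, 13, 13, 11, 11, 9, 9, 6, 7, 3, 6, 1, 2, 5], .l [13, 16], .l [12, 15, 13, 13, 11, 11, 9, 9, 6, 6, 4, 6, 4, 5], .l [16, 17, 13, 13, 11, 11, 9, 9, 7, 7, 4, 5, 1, 4, 1, 2, 3], .l [15, 16], .l [14, 17, 15, 15, 13, 13, 11, 11, 9, 9, 6, 6, 4, 6, 4, 1], .l [14, 15, 13, 13, 11, 11, 9, 9, 7, 7, 4, 5, 1, 4, 1, 2, 3], .l [18, 14, 15, 14, 16, 15, 13, 11, 11, 9, 9, 7, 7, 5, 5, 3, 3, 1], .l [14, 15, 13, 13, 11, 11, 9, 9, 7, 7, 4, 4, 2, 4, 2, 3], .l [14, 15, 13, 13, 11, 11, 9, 9,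 7, 7, 4, 5, 1, 6, 3, 4, 1], .l [4, 5, 0, 15, 17, 15, 15, 13, 13, 11, 11, 9, 9, 7, 7, 5, 5, 3], .l [14, 15, 13, 13, 11, 11, 9, 9, 7, 7, 4, 4, 2, 4, 2, 5]]),
([p 2 0, g, p 1 0, g, p 3 1, p 7 2, g, p 4 3, g, p 5 4, g, p 6 5, g, p 0 6, g, s 0 7, g], .lo 13, [.l [0, 12], .l [14, 15, 13, 13, 11, 11, 9, 9, 6, 7, 1, 2, 6, 4, 1], .l [2, 14], .l [1, 7, 5, 12], .y [2, 13, 11, 9, 7, 4], .l [3, 7, 3, 12, 7, 8, 11], .l [4, 14], .l [3, 6, 4, 6, 4, 11], .l [6, 9, 6, 7, 3, 10, 5, 6, 9], .l [7, 14], .l [6, 9, 6, 6, 4, 6, 4, 9], .l [8, 11, 9, 9, 6, 7, 3, 8, 3, 4, 7], .l [9, 14], .l [8, 11, 9, 9, 6, 6, 4, 6, 4, 7], .l [10, 13, 11, 11, 9, 9, 6, 7, 3, 6, 1, 2, 5], .l [11, 14], .l [10, 13, 11, 11, 9, 9, 6, 6, 4, 6, 4, 5], .l [14, 15, 11, 11,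 9, 9, 7, 7, 4, 5, 1, 4, 1, 2, 3], .l [13, 14], .l [12, 15, 13, 13, 11, 11, 9, 9, 6, 6, 4, 6, 4, 1], .l [12, 13, 11, 11, 9, 9, 7, 7, 4, 5, 1, 4, 1, 2, 3], .r 1120 [1, 2, 3, 4, 5, 6, 8, 7] [1, 1, 1, 1, 1, 1, 1, 1, 1], .l [12, 13, 11, 11, 9, 9, 7, 7, 4, 4, 2, 4, 2, 3], .l [12, 13, 11, 11, 9, 9, 7, 7, 4, 5, 1, 6, 3, 4, 1], .l [14, 17, 15, 15, 13, 13, 11, 11, 9, 9, 6, 7, 3, 2, 3], .l [12, 13, 11, 11, 9, 9, 7, 7, 4, 4, 2, 4, 2, 5]]),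
([p 2 0, g, p 1 0, g, p 3 1, p 6 2, g, p 4 3, g, p 5 4, g, p 0 5, g, s 0 6, g], .lo 11, [.l [0, 10], .l [12, 13, 11, 11, 9, 9, 6, 7, 1, 2, 6, 4, 1], .l [2, 12], .l [1, 7, 5, 10], .y [2, 11, 9, 7, 4], .l [3, 7, 3, 10, 5, 6, 9], .l [4, 12], .l [3, 6, 4, 6, 4, 9], .l [6, 9, 6, 7, 3, 8, 3, 4, 7], .l [7, 12], .l [6, 9, 6, 6, 4, 6, 4, 7], .l [8, 11, 9, 9, 6, 7, 3, 6, 1, 2, 5], .l [9, 12], .l [8, 11, 9, 9, 6, 6, 4, 6, 4, 5], .l [12, 13, 9, 9, 7, 7, 4, 5, 1, 4, 1, 2, 3], .l [11, 12], .l [10, 13, 11, 11, 9, 9, 6, 6, 4, 6, 4, 1], .l [10, 11, 9, 9, 7, 7, 4, 5, 1, 4, 1, 2, 3], .r 1121 [1, 2, 3, 4, 5, 7, 6] [1, 1, 1, 1, 1, 1, 1, 1], .l [10, 11, 9, 9, 7, 7, 4, 4, 2, 4, 2, 3], .l [10, 11, 9, 9, 7, 7, 4, 5, 1, 6, 3, 4, 1], .l [12, 15,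 13, 13, 11, 11, 9, 9, 6, 7, 3, 2, 3], .l [10, 11, 9, 9, 7, 7, 4, 4, 2, 4, 2, 5]]),
([p 2 0, g, p 1 0, g, p 3 1, p 5 2, g, p 4 3, g, p 0 4, g, s 0 5, g], .lo 9, [.l [0, 8], .l [10, 11, 9, 9, 6, 7, 1, 2, 6, 4, 1], .l [2, 10], .l [1, 7, 5, 8], .y [2, 9, 7, 4], .l [3, 7, 3, 8, 3, 4, 7], .l [4, 10], .l [3, 6, 4, 6, 4, 7], .l [6, 9, 6, 7, 3, 6, 1, 2, 5], .l [7, 10], .l [6, 9, 6, 6, 4, 6, 4, 5], .l [10, 11, 7, 7, 4, 5, 1, 4, 1, 2, 3], .l [9, 10], .l [8, 11, 9, 9, 6, 6, 4, 6, 4, 1], .l [8, 9, 7, 7, 4, 5, 1, 4, 1, 2, 3], .r 1122 [1, 2, 3, 4, 6, 5] [1, 1, 1, 1, 1, 1, 1], .l [8, 9, 7, 7, 4, 4, 2, 4, 2, 3], .l [8, 9, 7, 7, 4, 5, 1, 6, 3, 4, 1], .l [10, 13, 11, 11, 9, 9, 6, 7, 3, 2, 3], .l [8, 9, 7, 7, 4, 4, 2, 4, 2, 5]]),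
([p 2 0, g, p 1 0, g, p 3 1, p 4 2, g, p 0 3, g, s 0 4, g], .lo 7, [.l [0, 6], .l [8, 9, 6, 7, 1, 2, 6, 4, 1], .l [2, 8], .l [1, 7, 5, 6], .y [2, 7, 4], .l [3, 7, 3, 6, 1, 2, 5], .l [4, 8], .l [3, 6, 4, 6, 4, 5], .l [8, 9, 4, 5, 1, 4, 1, 2, 3], .l [7, 8], .l [6, 9, 6, 6, 4, 6, 4, 1], .l [6, 7, 4, 5, 1, 4, 1, 2, 3], .r 1123 [1, 2, 3, 5, 4] [1, 1, 1, 1, 1, 1], .l [6, 7, 4, 4, 2, 4, 2, 3], .l [6, 7, 4, 5, 1, 6, 3, 4, 1], .l [8, 11, 9, 9, 6, 7, 3, 2, 3], .l [6, 7, 4, 4, 2, 4, 2, 5]]),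
([p 2 0, g, p 1 0, g, p 0 1, p 3 2, g, s 0 3, g], .lo 4, [.l [0, 3], .l [5, 7, 1, 2, 6, 4, 1], .l [2, 5], .l [1, 7, 5, 3], .y [2, 4], .l [5, 7, 1, 4, 1, 2, 3], .l [4, 5], .l [3, 6, 4, 6, 4, 1], .l [3, 5, 1, 4, 1, 2, 3], .r 1124 [1, 2, 4, 3] [1, 1, 1, 1, 1], .l [3, 4, 2, 4, 2, 3], .l [3, 5, 1, 6, 3, 4, 1], .l [6, 9, 6, 7, 3, 2, 3], .l [3, 4, 2, 4, 2, 5]]),
([p 1 0, g, p 0 0, p 2 1, g, s 0 2, g], .hi 2, [.l [4, 1, 4, 0, 3], .r 1125 [3, 1, 2] [1, 1, 1, 1], .l [4, 1], .y [2], .l [5, 2, 5], .l [2, 4], .l [5, 2], .l [5, 2, 1], .l [7, 4, 1], .l [2, 6], .l [7, 4]]),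
([p 2 1, s 0 0, g, s 1 0, g, p 0 0, p 0 2, g], .lo 6, [.l [3, 2, 4], .r 1119 [1, 3, 2] [1, 1, 1, 1], .l [3, 7], .l [2, 8, 5, 4], .y [0, 3, 6], .r 868 [1, 3, 2] [1, 1, 1, 1], .l [5, 7], .l [4, 8, 3, 2], .c, .r 1126 [2, 3] [4, 1, 1], .r 1111 [1, 2, 3] [2, 1, 1, 1], .l [5, 6, 0, 6]]),
([p 2 1, g, s 1 0, g, p 0 0, p 0 2, g], .top 1, [.c, .r 1127 [1, 2] [1, 1, 1], .r 334 [] [6], .r 444 [] [6]]),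
([p 2 0, g, s 1 0, g, p 0 1, p 0 2, g], .lo 5, [.y [0, 5], .l [1, 7, 5, 4, 1], .l [2, 6], .l [1, 7, 5, 4], .l [1, 5, 3, 2, 1], .l [3, 7, 3, 2, 3], .l [4, 6], .l [3, 7, 3, 2], .l [4, 1, 4, 0, 3], .r 1105 [1, 2, 3] [1, 1, 1, 1], .l [4, 1, 4, 0, 3]]),
([p 3 1, g, p 0 2, p 5 3, g, m 0 4, g, p 0 5, m 4 6, g, m 6 0, g, s 2 0, g, s 1 0, g], .lo 5, [.l [7, 4, 6, 3, 6, 2, 9], .l [7, 4], .l [6, 9, 7, 12, 8, 12, 3, 9, 1, 8, 5], .l [7, 1, 8, 4, 11], .l [7, 1], .l [6, 16, 8, 10, 1, 12, 5, 10, 5, 1, 7, 2, 3], .l [7, 1, 8, 4, 11], .l [7, 1], .l [5, 6], .l [5, 9, 11, 9, 4], .l [10, 4], .l [5, 9], .y [5, 8, 10], .l [4, 7, 5, 12, 1, 7, 1, 6, 3], .l [12, 6], .l [5, 11], .l [5, 11, 6, 11, 1, 6, 3, 5, 1, 4, 1], .l [5, 13, 8, 13, 1, 8, 8,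 6, 4, 8, 1, 6, 1], .l [14, 8], .l [5, 13], .l [5, 13, 13, 4, 4, 1, 4, 2, 7], .l [4, 7, 5, 10, 12, 3, 12, 7, 1, 6, 3, 3, 1], .l [16, 10], .l [5, 15]]),
([p 3 1, g, p 0 2, p 4 3, g, p 0 4, m 0 5, g, m 5 0, g, s 2 0, g, s 1 0, g], .lo 6, [.l [0, 8, 5, 2, 5, 7, 5, 2, 5], .l [8, 5], .l [5, 8, 4, 7, 5, 9, 4, 6, 3], .l [3, 8, 2, 11, 4, 8, 5], .l [8, 2], .r 1130 [1, 2, 3, 6, 4, 5] [1, 1, 1, 1, 1, 1, 1], .l [3, 8, 1, 9, 7, 4, 7], .l [8, 1], .l [6, 7], .y [6, 8], .l [0, 6, 9, 6, 2, 4, 5, 2, 5], .l [10, 3], .l [6, 9], .l [6, 9, 3, 9, 7, 3, 7, 4, 2, 4, 1], .l [0, 6, 11, 8, 2, 4, 7, 4, 1], .l [12, 5], .l [6, 11], .l [0, 6, 11, 8, 2, 4, 7, 4, 1], .l [0, 6, 13, 10, 2, 4, 9, 6, 1], .l [14, 7], .l [6, 13]]),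
([p 3 1, g, p 0 2, p 4 3, g, p 0 4, m 0 0, g, s 2 0, g, s 1 0, g], .hi 6, [.l [10, 5, 9, 8, 8, 6, 3], .l [1, 5, 3, 5], .l [2, 7], .l [1, 3, 1, 3], .l [5, 7, 4], .l [3, 7, 6, 8, 4, 2, 3], .l [5, 7], .l [3, 5, 4, 6, 2, 0, 1], .y [6], .l [10, 7, 9, 8, 8, 6, 1], .l [10, 7, 9, 8, 8, 6, 1], .r 1131 [1, 2, 3, 4, 5] [1, 1, 1, 1, 1, 1], .l [8, 5, 7, 6, 6, 4, 5], .l [8, 5, 7, 6, 6, 4, 5], .l [3, 5, 4, 6, 8, 6, 1], .l [8, 5, 7, 6, 6, 4, 7], .l [8, 5, 7, 6, 6, 4, 7], .l [3, 5, 4, 6, 10, 8, 1]]),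
([p 3 1, g, p 0 2, p 4 3, g, p 5 0, g, p 0 4, p 6 5, g, p 0 6, g, s 2 0, g, s 1 0, g], .hi 5, [.l [7, 4, 6, 3, 6, 2, 9], .l [6, 9, 7, 12, 8, 12, 3, 9, 1, 8, 5], .l [7, 4], .l [4, 7, 5, 10, 8, 10, 1, 7, 1, 6, 3], .l [7, 1, 8, 4, 11], .l [6, 16, 8, 10, 1, 12, 5, 10, 5, 1, 7, 2, 3], .l [7, 1], .l [7, 1, 8, 4, 11], .l [5, 6], .l [7, 1], .l [5, 6], .l [5, 9, 11, 9, 4], .l [5, 9], .l [10, 4], .y [5, 10, 8], .l [4, 7, 5, 12, 1, 7, 1, 6, 3], .l [5, 11], .l [12, 6], .l [5, 13, 8, 13, 1, 8, 8, 6, 4, 8, 1, 6, 1], .l [5, 13], .l [14, 8], .l [4, 7, 5, 10, 12, 3, 12, 7, 1, 6, 3, 3, 1], .l [5, 15], .l [16, 10]]),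
([p 3 1, g, p 0 2, p 4 3, g, p 5 4, p 6 5, g, p 7 6, g, p 8 7, g, p 0 8, g, s 2 0, g, s 1 0, g], .lo 12, [.l [1, 5, 3, 11, 11, 9, 9, 7, 7, 5, 5, 4, 4, 2, 3], .l [2, 13], .l [0, 17, 15, 11, 11, 9, 9, 7, 7, 5, 5, 4, 4, 2, 3], .l [5, 13, 13, 11, 11, 9, 9, 7, 4], .l [5, 13], .l [3, 7, 6, 14, 10, 8, 8, 6, 6, 4, 4, 2, 3], .l [0, 8, 13, 8, 2, 4, 7, 4, 9], .l [8, 13], .l [7, 10, 8, 8, 7, 7, 5, 5, 2, 7], .l [0, 10, 13, 6, 2, 4, 7, 7, 5, 2, 7], .l [10, 13], .l [9, 12, 10, 10, 8, 8, 7, 7, 5, 5, 2, 5], .l [11, 14, 12, 12, 10, 10, 8, 8, 7, 7, 5, 6, 8, 3, 6, 2, 1], .l [12, 13], .l [11, 14, 12, 12, 10, 10, 8, 8, 7, 7, 5, 5, 2, 1], .l [11, 12, 10, 10, 8, 8, 6, 6, 5, 5, 3, 6, 8, 3, 4, 0, 3], .l [4, 12, 5, 17, 8, 11, 6, 1, 7, 3, 9, 6,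 0, 6, 1], .l [11, 12, 10, 10, 8, 8, 6, 6, 5, 5, 3, 3, 0, 3], .l [3, 5, 4, 12, 12, 10, 10, 8, 8, 6, 6, 4, 1], .l [3, 5, 4, 12, 14, 12, 12, 10, 10, 8, 8, 6, 1], .l [3, 5, 4, 12, 14, 12, 12, 10, 10, 8, 8, 6, 1], .l [9, 10, 8, 8, 6, 6, 5, 5, 3, 6, 1, 6, 4, 0, 3], .y [0, 16, 12, 10, 8, 6, 5, 3], .l [0, 15, 17, 13, 13, 11, 11, 9, 9, 7, 7, 6, 6, 4, 5], .l [0, 15, 17, 13, 13, 11, 11, 9, 9, 7, 7, 6, 6, 4, 5], .l [9, 10, 8, 8, 6, 6, 5, 5, 3, 6, 1, 8, 6, 0, 5]]),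
([p 3 1, g, p 0 2, p 4 3, g, p 5 4, p 6 5, g, p 7 6, g, p 0 7, g, s 2 0, g, s 1 0, g], .lo 10, [.l [1, 5, 3, 9, 9, 7, 7, 5, 5, 4, 4, 2, 3], .l [2, 11], .l [0, 15, 13, 9, 9, 7, 7, 5, 5, 4, 4, 2, 3], .l [5, 11, 11, 9, 9, 7, 4], .l [5, 11], .l [3, 7, 6, 12, 8, 6, 6, 4, 4, 2, 3], .l [0, 8, 11, 6, 2, 4, 5, 2, 7], .l [8, 11], .l [7, 10, 8, 8, 7, 7, 5, 5, 2, 5], .l [9, 12, 10, 10, 8, 8, 7, 7, 5, 6, 8, 3, 6, 2, 1], .l [10, 11], .l [9, 12, 10, 10, 8, 8, 7, 7, 5, 5, 2, 1], .l [9, 10, 8, 8, 6, 6, 5, 5, 3, 6, 8, 3, 4, 0, 3], .r 1134 [1, 2, 3, 4, 5, 6, 7, 8] [1, 1, 1, 1, 1, 1, 1, 1], .l [9, 10, 8, 8, 6, 6, 5, 5, 3, 3, 0, 3], .l [3, 5, 4, 10, 10, 8, 8, 6, 6, 4, 1], .l [3, 5, 4, 10, 12, 10, 10, 8, 8, 6, 1], .l [3, 5, 4, 10, 12, 10,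 10, 8, 8, 6, 1], .l [7, 8, 6, 6, 5, 5, 3, 6, 1, 6, 4, 0, 3], .y [0, 14, 10, 8, 6, 5, 3], .l [0, 13, 15, 11, 11, 9, 9, 7, 7, 6, 6, 4, 5], .l [0, 13, 15, 11, 11, 9, 9, 7, 7, 6, 6, 4, 5], .l [7, 8, 6, 6, 5, 5, 3, 6, 1, 8, 6, 0, 5]]),
([p 3 1, g, p 0 2, p 4 3, g, p 5 4, p 6 5, g, p 0 6, g, s 2 0, g, s 1 0, g], .lo 8, [.l [1, 5, 3, 7, 7, 5, 5, 4, 4, 2, 3], .l [2, 9], .l [0, 13, 11, 7, 7, 5, 5, 4, 4, 2, 3], .l [5, 9, 9, 7, 4], .l [5, 9], .l [3, 7, 6, 10, 6, 4, 4, 2, 3], .l [7, 10, 8, 8, 7, 7, 5, 6, 8, 3, 6, 2, 1], .l [8, 9], .l [7, 10, 8, 8, 7, 7, 5, 5, 2, 1], .l [7, 8, 6, 6, 5, 5, 3, 6, 8, 3, 4, 0, 3], .r 1135 [1, 2, 3, 4, 5, 6, 7] [1, 1, 1, 1, 1, 1, 1], .l [7, 8, 6, 6, 5, 5, 3, 3, 0, 3], .l [3, 5, 4, 8, 8, 6, 6, 4, 1], .l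 [3, 5, 4, 8, 10, 8, 8, 6, 1], .l [3, 5, 4, 8, 10, 8, 8, 6, 1], .l [5, 6, 5, 5, 3, 6, 1, 6, 4, 0, 3], .y [0, 12, 8, 6, 5, 3], .l [3, 5, 4, 8, 12, 10, 10, 8, 1], .l [0, 11, 13, 9, 9, 7, 7, 6, 6, 4, 5], .l [5, 6, 5, 5, 3, 6, 1, 8, 6, 0, 5]]),
([p 3 1, g, p 0 2, p 4 3, g, p 0 4, p 5 0, g, p 0 5, g, s 2 0, g, s 1 0, g], .hi 6, [.l [0, 8, 5, 2, 5, 7, 5, 2, 5], .l [5, 8, 4, 7, 5, 9, 4, 6, 3], .l [8, 5], .l [3, 6, 4, 5, 3, 7, 4, 4, 1], .l [3, 8, 2, 11, 4, 8, 5], .r 1133 [1, 2, 3, 4, 6, 5] [1, 1, 1, 1, 1, 1, 1], .l [8, 2], .r 1136 [1, 2, 3, 4, 6, 5] [1, 1, 1, 1, 1, 1], .l [3, 8, 1, 9, 7, 4, 7], .l [6, 7], .l [8, 1], .y [6, 8], .l [0, 6, 9, 6, 2, 4, 5, 2, 5], .l [6, 9], .l [10, 3], .l [0, 6, 11, 8, 2, 4, 7, 4, 1], .l [6, 11], .l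 [12, 5], .l [0, 6, 13, 10, 2, 4, 9, 6, 1], .l [6, 13], .l [14, 7]]),
([p 3 1, g, p 0 2, p 4 3, g, p 0 4, p 0 0, g, s 2 0, g, s 1 0, g], .lo 6, [.l [10, 5, 9, 8, 8, 6, 3], .l [2, 7], .l [1, 5, 3, 5], .l [5, 7, 4], .l [5, 7], .l [3, 7, 6, 8, 4, 2, 3], .y [6], .l [10, 7, 9, 8, 8, 6, 1], .r 1137 [1, 2, 3, 4, 5] [1, 1, 1, 1, 1, 1], .l [10, 7, 9, 8, 8, 6, 1], .l [3, 5, 4, 6, 6, 4, 1], .l [8, 5, 7, 6, 6, 4, 5], .l [3, 5, 4, 6, 8, 6, 1], .l [8, 5, 7, 6, 6, 4, 5], .l [8, 5, 7, 6, 6, 4, 5], .l [8, 5, 7, 6, 6, 4, 7], .l [3, 5, 4, 6, 10, 8, 1], .l [8, 5, 7, 6, 6, 4, 7]]),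
([p 3 1, g, p 0 2, p 5 3, g, s 0 4, g, p 4 5, s 0 6, g, m 6 0, g, s 2 0, g, s 1 0, g], .lo 8, [.l [8, 10, 3, 6, 4, 5, 7, 2, 4, 5], .l [14, 9, 13, 12, 12, 8, 5], .l [8, 10, 3, 6, 4, 5, 7, 2, 4], .l [5, 9, 6], .l [5, 9, 6], .l [3, 9, 8, 12, 8, 4, 7], .l [7, 9, 4], .l [7, 9, 4], .l [3, 9, 8, 12, 6, 2, 7], .l [2, 13, 8, 1, 13, 3, 4, 0, 8, 1], .l [3, 10, 1, 11, 9, 6, 9], .l [14, 11, 13, 12, 12, 8, 1], .y [8, 10], .l [2, 13, 8, 1, 13, 3, 4, 0, 8, 3], .l [3, 10, 1, 11, 9, 6, 9], .l [14, 11, 13, 12, 12, 8, 3], .l [12, 9, 11, 10, 10, 6, 3], .l [2, 11, 6, 1, 13, 5, 6, 0, 8, 5], .l [3, 7, 6, 10, 12, 8, 3], .l [12, 9, 11, 10, 10, 6, 9], .l [14, 13, 13, 10, 10, 6, 5], .l [2, 11, 6, 1, 11, 3, 4, 0, 6, 7], .l [3, 7, 6, 10, 14, 10, 3],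 .l [12, 9, 11, 10, 10, 6, 11]]),
([p 3 1, g, p 0 2, p 5 3, g, s 0 4, g, p 4 5, s 0 0, g, s 2 0, g, s 1 0, g], .hi 8, [.l [4, 11, 4, 1, 11, 5, 6, 0, 6, 1], .l [4, 11, 4, 1, 11, 5, 6, 0, 6, 1], .l [12, 7, 11, 10, 10, 6, 3], .l [2, 9, 4, 1, 9, 3, 4, 0, 4, 1], .l [5, 9, 6], .l [3, 9, 8, 10, 6, 4, 5], .l [5, 9, 6], .l [5, 7, 4], .l [7, 9, 4], .l [3, 9, 8, 10, 4, 2, 5], .l [7, 9, 4], .y [8], .l [2, 11, 6, 1, 11, 3, 4, 0, 6, 1], .l [12, 9, 11, 10, 10, 6, 1], .r 1139 [1, 2, 3, 4, 5, 6] [1, 1, 1, 1, 1, 1, 1], .l [2, 9, 4, 1, 11, 5, 6, 0, 6, 3], .l [10, 7, 9, 8, 8, 4, 7], .l [3, 7, 6, 8, 10, 8, 3], .l [2, 9, 4, 1, 9, 3, 4, 0, 4, 5], .l [10, 7, 9, 8, 8, 4, 9], .l [3, 7, 6, 8, 12, 10, 3]]),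
([p 3 1, g, p 0 2, p 4 3, g, p 6 4, s 0 5, g, p 0 6, g, s 2 0, g, s 5 0, g, s 1 0, g], .lo 6, [.l [16, 15, 15, 10, 2, 11, 4, 9, 6, 1], .l [2, 7, 9, 8, 8, 6, 7], .l [1, 5, 3, 5, 7, 6, 6, 4, 5], .l [5, 7, 4], .l [5, 7, 4], .l [3, 7, 6, 10, 6, 2, 5], .l [6, 13, 7, 13, 2, 7, 4, 9, 1, 2, 6, 1], .l [8, 1, 9, 6, 6, 4, 7], .l [12, 9, 11, 10, 10, 8, 1], .l [6, 9, 3, 13, 6, 9, 6, 4, 6, 3], .l [4, 10, 3, 12, 8, 3, 3, 0, 7], .l [12, 9, 11, 10, 10, 8, 3], .l [10, 7, 9, 8, 8, 6, 3], .l [16, 15, 15, 12, 2, 6, 1, 9, 4, 1], .l [3, 5, 4, 8, 10, 6, 1], .l [10, 7, 9, 8, 8, 6, 7], .y [6, 12], .l [16, 15, 15, 12, 2, 8, 3, 9, 2, 5], .l [3, 5, 4, 8, 12, 8, 1], .l [10, 7, 9, 8, 8, 6, 9], .l [14, 13, 13, 10, 10, 8, 7], .l [14, 13, 13, 10, 2, 11,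 4, 9, 6, 1], .l [3, 5, 4, 8, 14, 10, 1], .l [10, 7, 9, 8, 8, 6, 11]]),
([p 3 1, g, p 0 2, p 4 3, g, p 6 4, s 0 5, g, p 0 6, g, s 5 0, g, s 2 0, g, s 1 0, g], .lo 6, [.l [8, 11, 3, 13, 4, 9, 6, 2, 6, 1], .l [2, 7, 9, 8, 8, 6, 9], .l [1, 5, 3, 5, 7, 6, 6, 4, 7], .l [5, 7, 4], .l [5, 7, 4], .l [3, 7, 6, 12, 8, 2, 7], .l [6, 11, 5, 13, 4, 7, 2, 9, 1, 2, 6, 1], .l [8, 1, 9, 6, 6, 4, 9], .l [14, 11, 13, 12, 12, 10, 1], .l [6, 9, 3, 13, 6, 9, 4, 2, 6, 1], .l [4, 10, 3, 10, 6, 3, 3, 0, 5], .l [14, 11, 13, 12, 12, 10, 3], .y [6, 10], .l [6, 11, 5, 13, 4, 9, 6, 2, 6, 1], .l [4, 10, 3, 10, 6, 3, 3, 0, 5], .l [14, 11, 13, 12, 12, 10, 5], .l [12, 9, 11, 10, 10, 8, 5], .l [6, 9, 3, 13, 6, 9, 6, 4, 6, 3], .l [3, 5, 4, 10, 12, 6, 1],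 .l [12, 9, 11, 10, 10, 8, 9], .l [14, 13, 13, 10, 10, 8, 7], .l [6, 9, 3, 11, 4, 7, 4, 2, 4, 7], .l [3, 5, 4, 10, 14, 8, 1], .l [12, 9, 11, 10, 10, 8, 11]]),
([p 3 1, g, s 5 0, g, p 0 2, p 4 3, g, p 6 4, s 0 5, g, p 0 6, g, s 2 0, g, s 1 0, g], .lo 8, [.l [16, 15, 15, 8, 11, 8, 3, 4, 6, 7], .l [2, 9, 11, 10, 10, 8, 9], .l [1, 7, 5, 7, 9, 8, 8, 6, 7], .y [2, 8], .l [16, 15, 15, 8, 11, 8, 3, 4, 6, 7], .l [4, 9, 11, 10, 10, 8, 9], .l [3, 7, 3, 7, 9, 8, 8, 4, 7], .l [7, 9, 6], .l [7, 9, 6], .l [5, 9, 8, 12, 6, 2, 5], .l [9, 12, 9, 10, 5, 8, 6, 2, 4, 5], .l [10, 1, 11, 8, 8, 6, 9], .l [8, 5, 7, 4, 4, 2, 5], .l [8, 11, 3, 13, 4, 9, 6, 2, 6, 1], .l [6, 12, 3, 7, 3, 7, 7, 0, 3], .l [8, 5, 7, 4, 4, 2, 7], .l [12, 7, 11, 10, 10,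 8, 3], .l [16, 15, 15, 10, 2, 6, 1, 7, 2, 7], .l [5, 7, 6, 10, 12, 8, 1], .l [8, 5, 7, 4, 4, 2, 9], .l [14, 13, 13, 8, 8, 6, 5], .l [14, 13, 13, 8, 11, 8, 3, 4, 6, 7], .l [5, 7, 6, 10, 14, 10, 1], .l [8, 5, 7, 4, 4, 2, 11]]),
([p 3 1, g, p 0 2, p 4 3, g, p 6 4, s 0 5, g, s 5 0, g, p 0 6, g, s 2 0, g, s 1 0, g], .lo 6, [.l [9, 12, 9, 10, 5, 8, 6, 2, 4, 5], .l [2, 7, 11, 10, 10, 8, 9], .l [1, 5, 3, 5, 9, 8, 8, 6, 7], .l [5, 7, 4], .l [5, 7, 4], .l [10, 1, 11, 8, 1, 7, 4], .l [16, 15, 15, 12, 4, 1, 8, 9, 2, 3], .l [8, 1, 11, 8, 8, 6, 9], .l [14, 11, 13, 12, 12, 10, 1], .y [6, 8], .l [16, 15, 15, 12, 4, 1, 8, 9, 2, 3], .l [10, 3, 11, 6, 6, 4, 9], .l [14, 11, 13, 12, 12, 10, 3], .l [6, 11, 5, 13, 4, 7, 2, 9, 1, 2, 6, 1], .l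 [16, 15, 15, 12, 8, 5, 6, 2, 6, 7, 2, 3], .l [14, 11, 13, 12, 12, 10, 5], .l [12, 9, 11, 10, 10, 8, 5], .l [6, 13, 7, 13, 2, 7, 4, 9, 1, 2, 6, 1], .l [3, 5, 4, 10, 12, 6, 1], .l [12, 9, 11, 10, 10, 8, 9], .l [14, 13, 13, 10, 10, 8, 7], .l [14, 13, 13, 10, 2, 11, 8, 9, 2, 3], .l [3, 5, 4, 10, 14, 8, 1], .l [12, 9, 11, 10, 10, 8, 11]]),
([p 3 1, g, p 0 2, p 4 3, g, p 6 4, s 0 5, g, p 0 6, g, m 5 0, g, s 2 0, g, s 1 0, g], .lo 6, [.l [6, 12, 3, 7, 3, 7, 7, 0, 3], .l [2, 7, 9, 8, 8, 6, 9], .l [1, 5, 3, 5, 7, 6, 6, 4, 7], .l [5, 7, 4], .l [5, 7, 4], .l [3, 7, 6, 12, 8, 2, 7], .l [16, 15, 15, 12, 8, 5, 6, 2, 6, 7, 2, 3], .l [8, 1, 9, 6, 6, 4, 9], .l [14, 11, 13, 12, 12, 10, 1], .l [4, 10, 3, 10, 6, 3, 3, 0, 5], .l [3, 10, 3,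 4, 2, 9, 7, 4, 7], .l [14, 11, 13, 12, 12, 10, 3], .y [6, 10], .l [4, 10, 3, 10, 6, 3, 3, 0, 5], .l [3, 10, 3, 4, 2, 9, 7, 4, 7], .l [14, 11, 13, 12, 12, 10, 5], .l [12, 9, 11, 10, 10, 8, 5], .l [4, 10, 3, 12, 8, 3, 3, 0, 7], .l [2, 11, 13, 7, 9, 8, 10, 3, 8, 0, 5], .l [12, 9, 11, 10, 10, 8, 9], .l [14, 13, 13, 10, 10, 8, 7], .l [4, 10, 3, 14, 10, 3, 3, 0, 9], .l [2, 11, 15, 9, 11, 10, 12, 3, 10, 0, 7], .l [12, 9, 11, 10, 10, 8, 11]]),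
([p 3 1, g, p 0 2, p 4 3, g, p 6 4, s 0 5, g, p 0 6, g, s 2 0, g, s 1 0, g, s 5 0, g], .lo 6, [.l [14, 13, 13, 8, 11, 8, 3, 4, 6, 7], .l [2, 7, 9, 8, 8, 6, 7], .l [1, 5, 3, 5, 7, 6, 6, 4, 5], .l [5, 7, 4], .l [5, 7, 4], .l [3, 7, 6, 10, 6, 2, 5], .l [14, 13, 13, 10, 2, 11, 8, 9, 2, 3], .l [8, 1, 9, 6, 6, 4, 7], .l [12, 9, 11, 10, 10, 8, 1], .l [6, 9, 3, 11, 4, 7, 4, 2, 4, 7], .l [4, 10, 3, 14, 10, 3, 3, 0, 9], .l [12, 9, 11, 10, 10, 8, 3], .l [10, 7, 9, 8, 8, 6, 3], .l [14, 13, 13, 10, 2, 6, 1, 7, 2, 7], .l [3, 5, 4, 8, 10, 6, 1], .l [10, 7, 9, 8, 8, 6, 7], .l [12, 11, 11, 8, 8, 6, 5], .l [12, 11, 11, 8, 11, 8, 3, 4, 6, 7], .l [3, 5, 4, 8, 12, 8, 1], .l [10, 7, 9, 8, 8, 6, 9], .y [6, 14], .l [12, 11, 11, 8, 11, 8, 3,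 4, 6, 7], .l [3, 5, 4, 8, 14, 10, 1], .l [10, 7, 9, 8, 8, 6, 11]]),
([p 3 1, g, p 0 2, p 4 3, g, p 5 4, s 0 0, g, p 0 5, g, s 2 0, g, s 1 0, g], .hi 6, [.r 1143 [1, 2, 3, 4, 6, 5] [1, 1, 1, 1, 1, 1, 1], .l [1, 5, 3, 5, 7, 6, 6, 4, 5], .l [2, 7, 9, 8, 8, 6, 7], .l [1, 3, 1, 3, 5, 4, 4, 2, 3], .l [5, 7, 4], .l [3, 7, 6, 10, 6, 2, 5], .l [5, 7, 4], .y [6], .r 1144 [1, 2, 3, 4, 6, 5] [1, 1, 1, 1, 1, 1, 1], .l [12, 9, 11, 10, 10, 8, 1], .l [8, 1, 9, 6, 6, 4, 7], .l [10, 7, 9, 8, 8, 6, 1], .r 1142 [1, 2, 3, 4, 6, 5] [1, 1, 1, 1, 1, 1, 1], .l [12, 9, 11, 10, 10, 8, 3], .r 1145 [1, 2, 3, 4, 6, 5] [1, 1, 1, 1, 1, 1, 1], .r 1141 [1, 2, 3, 4, 6, 5] [1, 1, 1, 1, 1, 1, 1], .l [10, 7, 9, 8, 8, 6, 7], .l [3, 5, 4, 8, 10, 6, 1], .r 1146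 [1, 2, 3, 4, 6, 5] [1, 1, 1, 1, 1, 1, 1], .l [10, 7, 9, 8, 8, 6, 9], .l [3, 5, 4, 8, 12, 8, 1]]),
([p 3 0, g, m 0 1, g, p 0 2, p 4 3, g, p 5 4, s 1 0, g, s 0 5, g, s 2 0, g], .hi 8, [.l [8, 10, 5, 12, 4, 6, 8, 2, 0, 1], .l [3, 7, 3, 7, 7, 4, 6, 4, 7], .l [14, 7, 13, 12, 12, 10, 7], .y [2, 8], .l [8, 10, 5, 12, 4, 6, 8, 2, 0, 1], .l [3, 7, 3, 7, 7, 4, 6, 4, 7], .l [14, 7, 13, 12, 12, 10, 5], .l [3, 5, 1, 5, 5, 2, 4, 2, 5], .l [7, 9, 6], .l [1, 5, 3, 7, 7, 4, 6, 4, 7], .l [7, 9, 6], .l [9, 12, 9, 10, 5, 8, 6, 2, 4, 5], .l [14, 9, 13, 12, 12, 10, 1], .l [6, 8, 3, 6, 4, 7, 3, 6, 3], .l [6, 8, 3, 6, 4, 5, 5, 0, 2], .l [6, 8, 3, 6, 4, 5, 7, 2, 4, 5], .l [14, 9, 13, 12, 12, 10, 3], .l [6, 8, 3, 6, 4, 5, 7, 2, 4], .l [6, 8, 3,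 6, 4, 5, 9, 4, 6, 3], .l [12, 7, 11, 10, 10, 8, 9], .l [1, 12, 7, 0, 9, 5, 10, 4, 1]]),
([p 3 1, g, p 0 2, p 4 3, g, p 5 4, s 6 0, g, s 0 5, g, p 0 6, g, s 2 0, g, s 1 0, g], .hi 6, [.l [6, 8, 3, 6, 4, 5, 7, 2, 4, 5], .l [6, 8, 3, 6, 4, 5, 7, 2, 4], .l [14, 9, 13, 12, 12, 10, 7], .l [4, 6, 3, 4, 2, 3, 5, 2, 2], .l [5, 7, 4], .l [3, 7, 6, 12, 8, 2, 7], .l [5, 7, 4], .l [0, 15, 10, 4, 8, 9, 4, 1], .l [14, 11, 13, 12, 12, 10, 1], .l [3, 8, 1, 11, 9, 4, 9], .l [14, 13, 13, 10, 6, 3, 6, 7, 4, 1], .l [0, 15, 10, 2, 8, 9, 2, 3], .l [14, 11, 13, 12, 12, 10, 3], .l [3, 10, 3, 11, 7, 4, 9], .y [6, 10], .l [0, 15, 10, 2, 8, 9, 2, 5], .l [14, 11, 13, 12, 12, 10, 5], .l [3, 10, 3, 11, 7, 4, 9], .l [0, 15, 10, 2, 6, 9, 4, 1], .l [12,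 9, 11, 10, 10, 8, 9], .l [3, 5, 4, 10, 12, 6, 1], .l [0, 13, 8, 2, 6, 7, 2, 9], .l [12, 9, 11, 10, 10, 8, 11], .l [3, 5, 4, 10, 14, 8, 1]]),
([p 2 0, g, p 0 1, p 3 2, g, p 5 3, s 4 0, g, p 0 4, g, s 0 5, g, s 1 0, g], .hi 6, [.l [10, 1, 2, 9, 11, 5, 2, 5], .l [6, 8, 3, 6, 4, 7, 3, 6, 3], .l [14, 9, 13, 12, 12, 10, 7], .l [4, 6, 3, 4, 2, 5, 3, 4, 1], .l [5, 7, 4], .l [3, 7, 6, 12, 8, 2, 7], .l [5, 7, 4], .l [10, 3, 4, 9, 11, 7, 4, 1], .l [14, 11, 13, 12, 12, 10, 1], .l [3, 8, 1, 9, 7, 4, 9], .y [6, 8], .l [8, 1, 2, 9, 11, 5, 2, 7], .l [14, 11, 13, 12, 12, 10, 3], .l [3, 8, 1, 9, 7, 4, 9], .l [4, 8, 1, 8, 6, 3, 3, 0, 3], .l [8, 1, 2, 7, 11, 7, 2, 3], .l [14, 11, 13, 12, 12, 10, 5], .l [3, 8, 1, 11, 9, 4, 9], .l [8, 1, 2,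 7, 9, 5, 2, 7], .l [12, 9, 11, 10, 10, 8, 9], .l [3, 5, 4, 10, 12, 6, 1]]),
([p 3 1, g, p 0 2, p 4 3, g, p 5 4, s 0 0, g, s 0 5, g, s 2 0, g, s 1 0, g], .lo 6, [.l [0, 13, 6, 2, 4, 5, 2, 5], .l [12, 7, 11, 10, 10, 8, 5], .r 1148 [6, 2, 3, 4, 5] [1, 1, 1, 1, 1, 3], .l [5, 7, 4], .l [5, 7, 4], .l [3, 7, 6, 10, 6, 2, 5], .y [6], .l [0, 13, 8, 4, 6, 7, 4, 1], .r 1150 [2, 3, 4, 6, 5] [1, 1, 1, 1, 1, 3], .l [12, 9, 11, 10, 10, 8, 1], .l [0, 13, 8, 2, 6, 7, 2, 3], .r 1149 [1, 2, 3, 4, 5, 6] [1, 1, 1, 1, 1, 1, 1], .l [12, 9, 11, 10, 10, 8, 3], .l [10, 7, 9, 8, 8, 6, 3], .l [0, 13, 8, 2, 4, 7, 4, 1], .l [3, 5, 4, 8, 10, 6, 1], .l [10, 7, 9, 8, 8, 6, 7], .l [12, 11, 11, 8, 8, 6, 5], .l [0, 11, 6, 2, 4, 5, 2, 7], .l [3, 5, 4, 8,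 12, 8, 1], .l [10, 7, 9, 8, 8, 6, 9]])]

def d04_2 : List (List Item × Qry × List Rf) := [
([p 3 1, g, p 0 2, p 4 3, g, p 0 4, s 0 0, g, s 2 0, g, s 1 0, g], .lo 5, [.l [1, 5, 3, 4, 4, 2, 5], .l [2, 6], .l [0, 11, 9, 4, 4, 2, 5], .r 1140 [1, 2, 3, 5, 4] [1, 1, 1, 1, 1, 1], .l [5, 6], .l [4, 7, 5, 5, 2, 1], .l [3, 5, 4, 6, 2, 0, 1], .r 1151 [1, 2, 3, 4, 5] [1, 1, 1, 1, 1, 1], .r 1147 [1, 2, 3, 4, 5] [1, 1, 1, 1, 1, 1], .l [4, 5, 3, 3, 0, 5], .l [0, 9, 4, 2, 2, 3, 2], .l [2, 7, 2, 7, 4, 0, 4], .l [2, 7, 9, 6, 9, 6, 7, 0, 2], .l [2, 7, 2, 7, 4, 0, 4], .y [0, 10, 5, 3], .l [2, 7, 2, 9, 6, 0, 6], .l [0, 9, 11, 6, 6, 4, 7], .l [2, 7, 2, 9, 6, 0, 6]]),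
([p 3 1, g, p 0 2, p 4 3, g, p 0 4, g, s 2 0, g, s 1 0, g], .top 6, [.l [3, 5, 4, 4, 1], .r 1152 [1, 2, 3, 4] [1, 1, 1, 1, 1], .r 1138 [1, 2, 3, 4] [1, 1, 1, 1, 1], .r 1132 [1, 2, 3, 4] [1, 1, 1, 1, 1]]),
([p 3 1, g, p 0 2, p 0 3, g, s 2 0, g, s 1 0, g], .lo 3, [.l [1, 5, 3, 2, 3], .l [2, 4], .l [0, 8, 6, 2, 3], .l [7, 4, 1], .r 1153 [1, 2, 3, 4] [1, 1, 1, 1, 1], .l [2, 3, 0, 3], .l [5, 2, 1], .l [5, 2, 5], .l [0, 8, 3, 4, 1], .l [2, 3, 0, 5], .y [0, 7, 3], .l [5, 2, 7], .l [0, 6, 8, 4, 5], .l [2, 3, 0, 7]]),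
([p 4 1, s 0 2, g, s 2 0, g, p 0 3, p 5 4, g, p 0 5, g, s 1 0, g, s 3 0, g], .lo 1, [.l [3, 1, 7, 4, 9, 4, 6, 8, 6, 1], .l [12, 11, 3, 10, 3, 8, 1, 8, 4, 1], .l [2, 8, 5, 5, 8], .y [1, 3], .l [3, 1, 7, 4, 9, 4, 6, 8, 6, 1], .l [3, 1, 7, 4, 9, 4, 6, 8, 6, 1], .l [4, 8, 3, 3, 8], .l [12, 11, 6, 8, 6, 9], .l [8, 6, 7, 2, 7, 4, 8], .l [0, 6, 5, 6, 8, 6, 9], .l [0, 11, 1, 8, 4, 7, 3, 1, 4, 5], .l [10, 8, 9, 4, 7, 3, 6, 1, 4, 5], .l [2, 6, 3, 3, 8, 1, 3, 1, 4, 5], .l [10, 9, 8], .l [3, 1, 5, 2, 7, 4, 6, 8, 6, 1], .l [10, 9, 1, 8, 3, 8, 1, 8, 4, 1], .l [10, 9, 10], .l [3, 1, 5, 2, 7, 4, 6, 6, 4, 1], .l [10, 9, 1, 8, 3, 6, 8, 1, 4, 1], .l [14, 12, 13, 8, 3, 6, 8, 6, 4, 1], .l [10, 9, 12]]),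
([p 4 1, s 0 2, g, p 0 3, p 5 4, g, p 0 5, g, s 1 0, g, s 2 0, g, s 3 0, g], .lo 1, [.l [3, 1, 5, 2, 7, 4, 6, 8, 6, 1], .l [3, 1, 5, 2, 7, 4, 6, 8, 6, 1], .l [2, 6, 3, 3, 6], .l [10, 9, 4, 6, 4, 9], .l [6, 4, 5, 2, 5, 2, 8], .l [0, 4, 3, 4, 6, 4, 9], .l [0, 9, 1, 6, 2, 5, 6, 4, 2, 5], .l [8, 6, 7, 4, 9, 5, 2, 8, 6, 3], .l [10, 9, 6], .l [8, 7, 6], .l [10, 8, 9, 6, 3, 4, 6, 8, 6, 1], .l [10, 8, 9, 6, 3, 4, 6, 8, 6, 1], .l [8, 7, 8], .y [1, 10], .l [10, 8, 9, 6, 3, 4, 6, 8, 6, 1], .l [10, 8, 9, 6, 9, 3, 4, 8, 4, 1], .l [8, 7, 10], .l [10, 8, 9, 6, 3, 4, 6, 6, 4, 1], .l [14, 12, 13, 10, 3, 8, 3, 1, 6, 1], .l [14, 12, 13, 10, 3, 8, 3, 1, 6, 1], .l [8, 7, 12]]),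
([p 4 1, s 0 2, g, p 0 3, p 5 4, g, p 0 5, g, s 1 0, g, s 3 0, g, s 2 0, g], .lo 1, [.l [10, 9, 1, 8, 3, 6, 8, 1, 4, 1], .l [14, 12, 13, 8, 3, 6, 8, 6, 4, 1], .l [2, 6, 3, 3, 6], .l [10, 9, 4, 6, 4, 7], .l [6, 4, 5, 2, 5, 2, 6], .l [0, 4, 3, 4, 6, 4, 7], .l [0, 9, 1, 6, 2, 5, 8, 6, 2, 3], .l [8, 6, 7, 4, 11, 7, 2, 4, 2, 5], .l [10, 9, 6], .l [8, 7, 6], .l [14, 12, 13, 10, 3, 8, 3, 1, 6, 1], .l [14, 12, 13, 10, 3, 8, 3, 1, 6, 1], .l [8, 7, 8], .l [12, 10, 11, 8, 3, 6, 1, 1, 4, 1], .l [12, 10, 11, 8, 3, 6, 8, 6, 4, 1], .l [12, 10, 11, 8, 3, 6, 8, 6, 4, 1], .l [8, 7, 10], .y [1, 12], .l [12, 10, 11, 8, 3, 6, 8, 6, 4, 1], .l [14, 12, 13, 10, 3, 8, 1, 3, 6, 1], .l [8, 7, 12]]),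
([p 4 1, s 7 2, g, p 0 3, p 5 4, g, p 6 5, g, p 0 6, g, s 2 0, g, s 1 0, g, s 3 7, g], .lo 3, [.l [4, 6, 1, 3, 5, 2, 10], .l [3, 4], .l [2, 6, 3, 1], .l [2, 4, 1, 3, 5, 2, 10], .l [4, 6, 4, 5, 2, 11, 8, 10, 10, 8, 5, 5, 3], .l [0, 13, 10, 2, 4, 2, 10], .l [2, 4, 1, 5, 7, 5, 5, 2, 8], .l [0, 13, 1, 10, 2, 9, 10, 6, 3, 8, 4, 5], .l [0, 13, 10, 4, 6, 4, 4, 2, 8], .l [0, 13, 1, 10, 2, 9, 10, 8, 5, 8, 2, 5], .l [0, 13, 1, 10, 2, 9, 10, 8, 5, 8, 2, 5], .l [2, 4, 1, 7], .y [1, 10, 3, 14], .l [0, 13, 3, 10, 2, 9, 10, 8, 5, 8, 2, 5], .l [0, 13, 10, 1, 11, 12, 10, 7, 10, 2, 7, 7, 5], .l [2, 4, 1, 9], .l [14, 10, 13, 12, 12, 10, 10, 8, 5, 1, 1, 4, 3], .l [2, 4, 1, 11, 1, 8, 10, 10, 8, 5], .l [1, 4, 2, 11, 8, 12, 12, 8, 5, 5, 3,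 7, 1], .l [2, 4, 1, 11], .l [2, 4, 1, 13, 3, 10, 7, 7, 8, 5], .l [12, 11, 12, 14, 3, 3, 1, 11, 7, 7, 5, 5, 3], .l [2, 4, 1, 13]]),
([p 4 1, s 6 2, g, p 0 3, p 5 4, g, p 0 5, g, s 2 0, g, s 1 0, g, s 3 6, g], .lo 6, [.l [2, 6, 3, 5, 5, 2, 8], .l [3, 7], .l [0, 11, 8, 4, 4, 2, 8], .l [5, 8, 6, 11, 3, 7, 4, 8, 1, 6, 2, 1], .l [6, 7], .l [5, 8, 6, 6, 2, 1], .l [5, 6, 4, 11, 3, 7, 4, 8, 1, 4, 0, 3], .r 1158 [1, 2, 3, 4, 5, 7, 6] [1, 1, 1, 1, 1, 1, 1], .l [5, 6, 4, 4, 0, 4], .l [1, 7, 7, 5, 5, 3, 6, 6, 2, 3], .l [1, 7, 9, 7, 7, 5, 8, 8, 2, 5], .l [1, 7, 9, 7, 7, 5, 8, 8, 2, 5], .l [5, 6, 4, 4, 0, 6], .y [0, 10, 6, 4], .l [1, 7, 11, 9, 9, 7, 8, 8, 2, 3], .l [0, 9, 11, 7, 7, 5, 8], .l [5, 6, 4, 4, 0, 8], .l [0, 9, 13, 9, 9, 7,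 4, 6, 4, 5], .l [0, 9, 13, 9, 9, 7, 4], .l [1, 11, 5, 11, 5, 2, 3, 1, 6]]),
([p 6 1, s 3 2, g, p 4 3, g, p 0 4, g, p 0 5, p 7 6, g, p 0 7, g, s 2 0, g, s 1 0, g, s 5 0, g], .lo 5, [.l [6, 7, 5, 8, 3, 5, 7, 4, 10], .l [3, 6], .l [0, 15, 12, 3, 6, 11, 5], .l [4, 10, 5, 1, 1, 5, 7, 4, 10], .l [5, 6], .l [1, 13, 8, 1, 4, 8, 1, 7, 5, 4, 9, 7, 3], .l [6, 10, 3, 7, 7, 5, 7, 4, 10], .l [1, 10, 8, 1, 7, 12, 7, 1, 3, 8, 9, 7, 3], .l [0, 15, 10, 1, 4, 11, 3, 1, 5, 1, 6, 7], .l [4, 5, 3, 6, 3, 5, 7, 4, 10], .l [3, 1, 7, 4, 5, 3, 5, 1, 5, 2, 8], .l [0, 15, 10, 4, 6, 4, 12], .l [4, 8, 3, 9, 3, 7, 3, 7, 1, 5, 6, 3, 4, 5], .l [1, 8, 6, 1, 5, 12, 9, 1, 3, 8, 9, 5, 1], .l [4, 5, 3, 6, 3, 7], .y [1, 12, 5, 3], .l [4, 8, 3, 11, 5, 9, 13,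 11, 4], .l [11, 14, 7, 10, 5, 5, 10, 7, 3, 5, 6, 7], .l [4, 5, 3, 6, 3, 9], .l [4, 8, 3, 11, 5, 9, 9, 6, 5], .l [4, 8, 3, 13, 1, 8, 5, 3, 8, 4, 6, 1, 2, 5], .l [11, 16, 9, 12, 7, 7, 4, 1, 6, 8, 4, 7], .l [1, 11, 6, 13, 6, 2, 3, 1, 8, 6, 3, 3, 1], .l [4, 8, 3, 13, 7, 11, 11, 9, 6], .l [4, 8, 3, 15, 3, 10, 5, 3, 10, 6, 8, 1, 2, 3], .l [11, 18, 11, 11, 9, 12, 9, 9, 11, 10, 3, 7, 5], .l [1, 11, 6, 15, 8, 2, 3, 1, 10, 8, 5, 5, 3]]),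
([p 5 1, s 3 2, g, p 0 3, g, p 0 4, p 6 5, g, p 0 6, g, s 2 0, g, s 1 0, g, s 4 0, g], .lo 3, [.l [4, 8, 3, 5, 7, 4, 10], .l [3, 4], .l [1, 11, 8, 1, 4, 6, 3, 5, 6, 3, 4, 5], .l [4, 8, 3, 5, 7, 4, 10], .r 1160 [1, 2, 3, 7, 4, 5, 6] [1, 1, 1, 1, 1, 1, 1, 1], .l [0, 13, 10, 1, 4, 9, 5], .l [2, 6, 3, 5, 7, 4, 10], .l [3, 1, 5, 2, 5, 1, 5, 2, 8], .l [0, 13, 10, 4, 6, 4, 10], .l [3, 1, 5, 2, 3, 5, 9, 4, 1, 6, 2, 5], .l [3, 1, 5, 2, 7, 3, 7, 3, 6, 1, 4, 5], .l [2, 6, 3, 7], .y [1, 10, 3], .l [10, 8, 9, 4, 9, 1, 1, 3, 6, 1, 4, 5], .l [10, 8, 9, 4, 9, 1, 1, 3, 6, 1, 4, 5], .l [2, 6, 3, 9], .l [10, 8, 9, 4, 9, 1, 1, 3, 2, 6, 4, 1], .l [2, 3, 1, 9, 1, 6, 2, 5, 6, 4, 2, 5], .l [10, 8, 9, 4, 11, 3, 3, 5, 2, 8, 6, 3], .l [2, 6, 3,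 11], .l [2, 6, 3, 11, 1, 6, 8, 8, 6, 3], .l [2, 3, 1, 9, 1, 6, 2, 5, 8, 6, 2, 3], .l [10, 8, 9, 4, 13, 5, 5, 7, 2, 4, 2, 5], .l [2, 6, 3, 13]]),
([p 4 1, s 0 2, g, p 0 3, p 5 4, g, p 0 5, g, s 2 0, g, s 1 0, g, s 3 0, g], .lo 1, [.l [0, 11, 1, 8, 4, 7, 3, 1, 4, 5], .r 1161 [1, 2, 6, 3, 4, 5] [1, 1, 1, 1, 1, 1, 1], .l [2, 6, 3, 3, 8], .l [12, 11, 4, 6, 4, 9], .l [6, 4, 5, 2, 5, 2, 8], .l [0, 4, 3, 4, 6, 4, 9], .l [8, 6, 7, 4, 7, 3, 6, 1, 4, 5], .l [8, 6, 7, 4, 7, 3, 6, 1, 4, 5], .l [12, 11, 6], .y [1, 8], .l [8, 6, 7, 4, 7, 3, 6, 1, 4, 5], .l [8, 6, 7, 4, 7, 3, 6, 1, 4, 5], .l [12, 11, 8], .l [10, 9, 8], .l [0, 9, 1, 6, 2, 5, 6, 4, 2, 5], .l [8, 6, 7, 4, 9, 5, 2, 8, 6, 3], .l [10, 9, 10], .r 1159 [1, 2, 3, 4, 5, 6] [1,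 1, 1, 1, 1, 1], .l [0, 9, 1, 6, 2, 5, 8, 6, 2, 3], .l [8, 6, 7, 4, 11, 7, 2, 4, 2, 5], .l [10, 9, 12]]),
([p 3 1, s 0 0, g, p 0 2, p 4 3, g, p 0 4, g, s 1 0, g, s 2 0, g], .hi 1, [.y [1], .r 1155 [1, 5, 2, 3, 4] [1, 1, 1, 1, 1, 1], .l [2, 6, 3, 3, 6], .r 854 [5, 3] [1, 2, 7], .l [2, 4, 1, 1, 4], .l [10, 9, 4, 6, 4, 7], .l [0, 4, 3, 4, 6, 4, 7], .l [6, 4, 5, 2, 5, 2, 6], .l [0, 4, 3, 4, 4, 2, 5], .r 1162 [1, 5, 2, 3, 4] [1, 1, 1, 1, 1, 1], .l [10, 9, 6], .r 853 [5, 3] [2, 3, 5], .r 1156 [1, 5, 2, 3, 4] [1, 1, 1, 1, 1, 1], .l [8, 7, 8], .r 715 [1, 5, 3] [2, 3, 1, 3], .r 1157 [1, 5, 2, 3, 4] [1, 1, 1, 1, 1, 1], .l [8, 7, 10], .r 715 [1, 5, 3] [2, 3, 3, 1]]),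
([p 3 1, g, p 0 2, p 4 3, g, p 0 4, g, s 1 0, g, s 2 0, g], .top 1, [.r 334 [] [8], .r 1163 [1, 2, 3, 4] [1, 1, 1, 1, 1], .r 334 [] [10], .r 444 [] [10]]),
([p 3 1, g, p 0 2, p 0 3, g, s 1 0, g, s 2 0, g], .lo 3, [.l [1, 5, 3, 2, 5], .l [2, 4], .l [0, 6, 4, 2, 5], .l [9, 6, 1], .r 1164 [1, 2, 3, 4] [1, 1, 1, 1, 1], .l [2, 3, 0, 3], .y [0, 5, 3], .l [9, 6, 3], .l [0, 4, 6, 4, 5], .l [2, 3, 0, 5], .l [7, 4, 3], .l [7, 4, 7], .l [0, 4, 8, 6, 3], .l [2, 3, 0, 7]]),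
([p 3 1, g, p 2 0, g, p 0 2, p 4 3, g, s 1 0, g, p 0 4, g], .hi 2, [.l [4, 1, 6, 2, 6, 3, 6, 2, 3], .l [2, 7, 4, 1, 4, 8, 6, 1], .l [4, 1], .l [9, 8, 3, 1, 6, 1, 6, 4, 1], .l [2, 3], .l [4, 1], .y [2, 4], .l [2, 6, 10, 8, 3], .l [2, 6], .l [7, 4], .l [2, 8, 10, 6, 3], .l [2, 8], .l [9, 6], .l [2, 8], .l [2, 10, 8, 4, 6, 4, 5], .l [2, 10], .l [11, 8]]),
([p 3 1, g, p 2 0, g, p 4 2, p 8 3, g, p 5 4, g, p 6 5, g, p 7 6, g, p 0 7, g, p 0 8, g, s 1 0, g], .lo 13, [.l [14, 15, 13, 13, 11, 11, 9, 9, 6, 7, 1, 2, 6, 4, 1], .l [2, 14], .l [0, 18, 16, 12, 12, 10, 10, 8, 8, 6, 6, 3, 4, 6, 5, 1, 3, 3], .y [2, 13, 11, 9, 7, 4], .l [3, 7, 3, 12, 12, 10, 10, 8, 8, 6, 8, 4, 5], .l [4, 14], .l [0, 18, 14, 10, 10, 8, 8, 6, 6, 4, 6, 4, 2,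 1, 5, 3, 1, 3], .l [6, 9, 6, 7, 3, 10, 10, 8, 8, 6, 8, 4, 5], .l [7, 14], .l [0, 18, 11, 7, 7, 5, 5, 3, 7, 1, 7, 1, 3, 1, 5, 3, 1, 3], .l [8, 11, 9, 9, 6, 7, 3, 8, 8, 6, 8, 4, 5], .l [9, 14], .l [0, 18, 9, 5, 5, 3, 9, 3, 7, 5, 7, 1, 3, 1, 5, 3, 1, 3], .l [10, 13, 11, 11, 9, 9, 6, 7, 3, 6, 8, 4, 5], .l [11, 14], .l [0, 18, 7, 3, 11, 5, 9, 7, 7, 5, 7, 1, 3, 1, 5, 3, 1, 3], .l [14, 15, 11, 11, 9, 9, 7, 7, 4, 5, 1, 4, 6, 2, 3], .l [13, 14], .l [10, 11, 9, 15, 11, 5, 12, 5, 1, 1, 8, 5], .l [12, 13, 11, 11, 9, 9, 7, 7, 4, 5, 1, 4, 6, 2, 3], .l [19, 18, 18, 13, 14, 12, 12, 10, 10, 8, 8, 6, 6, 4, 4, 5, 4, 1], .l [10, 17, 11, 5, 14, 7, 1, 7, 1, 5, 8, 5], .l [12, 13, 11, 11, 9, 9, 7, 7, 4, 5, 1, 6, 3, 4, 1], .l [13, 17, 16, 16,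 14, 14, 12, 12, 10, 10, 7, 8, 4, 1, 2, 3], .l [8, 15, 11, 5, 12, 3, 12, 8, 6, 7], .l [12, 13, 11, 11, 9, 9, 7, 7, 4, 5, 1, 6, 3, 4, 1], .l [12, 13, 11, 11, 9, 9, 7, 7, 4, 5, 1, 8, 5, 6, 3], .l [13, 19, 18, 18, 16, 16, 14, 14, 12, 12, 9, 10, 6, 1, 4, 5], .l [8, 15, 11, 5, 12, 3, 14, 10, 6, 9]]),
([p 3 1, g, p 2 0, g, p 4 2, p 7 3, g, p 5 4, g, p 6 5, g, p 0 6, g, p 0 7, g, s 1 0, g], .lo 11, [.l [12, 13, 11, 11, 9, 9, 6, 7, 1, 2, 6, 4, 1], .l [2, 12], .l [1, 7, 5, 10], .y [2, 11, 9, 7, 4], .l [3, 7, 3, 10, 10, 8, 8, 6, 8, 4, 5], .l [4, 12], .l [3, 6, 4, 6, 4, 9], .l [6, 9, 6, 7, 3, 8, 8, 6, 8, 4, 5], .l [7, 12], .l [6, 9, 6, 6, 4, 6, 4, 7], .l [8, 11, 9, 9, 6, 7, 3, 6, 8, 4, 5], .l [9, 12], .l [8, 11, 9, 9, 6, 6, 4, 6,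 4, 5], .l [12, 13, 9, 9, 7, 7, 4, 5, 1, 4, 6, 2, 3], .l [11, 12], .l [8, 15, 11, 5, 12, 5, 1, 1, 8, 5], .l [10, 11, 9, 9, 7, 7, 4, 5, 1, 4, 6, 2, 3], .r 1167 [1, 2, 3, 4, 5, 6, 8, 7] [1, 1, 1, 1, 1, 1, 1, 1, 1], .l [10, 11, 9, 9, 7, 7, 4, 4, 2, 4, 2, 3], .l [10, 11, 9, 9, 7, 7, 4, 5, 1, 6, 3, 4, 1], .l [11, 15, 14, 14, 12, 12, 10, 10, 7, 8, 4, 1, 2, 3], .l [10, 11, 9, 9, 7, 7, 4, 4, 2, 4, 2, 5], .l [10, 11, 9, 9, 7, 7, 4, 5, 1, 6, 3, 4, 1], .l [10, 11, 9, 9, 7, 7, 4, 5, 1, 8, 5, 6, 3], .l [11, 17, 16, 16, 14, 14, 12, 12, 9, 10, 6, 1, 4, 5], .l [10, 11, 9, 9, 7, 7, 4, 4, 2, 4, 2, 7]]),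
([p 3 1, g, p 2 0, g, p 4 2, p 6 3, g, p 5 4, g, p 0 5, g, p 0 6, g, s 1 0, g], .lo 9, [.l [10, 11, 9, 9, 6, 7, 1, 2, 6, 4, 1], .l [2, 10], .l [1, 7, 5, 8], .y [2, 9, 7, 4], .l [3, 7, 3, 8, 8, 6, 8, 4, 5], .l [4, 10], .l [3, 6, 4, 6, 4, 7], .l [6, 9, 6, 7, 3, 6, 8, 4, 5], .l [7, 10], .l [6, 9, 6, 6, 4, 6, 4, 5], .l [10, 11, 7, 7, 4, 5, 1, 4, 6, 2, 3], .l [9, 10], .l [8, 11, 9, 9, 6, 6, 4, 6, 4, 1], .l [8, 9, 7, 7, 4, 5, 1, 4, 6, 2, 3], .r 1168 [1, 2, 3, 4, 5, 7, 6] [1, 1, 1, 1, 1, 1, 1, 1], .l [8, 9, 7, 7, 4, 4, 2, 4, 2, 3], .l [8, 9, 7, 7, 4, 5, 1, 6, 3, 4, 1], .l [9, 13, 12, 12, 10, 10, 7, 8, 4, 1, 2, 3], .l [8, 9, 7, 7, 4, 4, 2, 4, 2, 5], .l [8, 9, 7, 7, 4, 5, 1, 6, 3, 4, 1], .l [8, 9, 7, 7, 4, 5, 1, 8, 5, 6, 3], .l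 [9, 15, 14, 14, 12, 12, 9, 10, 6, 1, 4, 5], .l [8, 9, 7, 7, 4, 4, 2, 4, 2, 7]]),
([p 3 1, g, p 2 0, g, p 4 2, p 5 3, g, p 0 4, g, p 0 5, g, s 1 0, g], .lo 7, [.l [8, 9, 6, 7, 1, 2, 6, 4, 1], .l [2, 8], .l [1, 7, 5, 6], .y [2, 7, 4], .l [3, 7, 3, 6, 8, 4, 5], .l [4, 8], .l [3, 6, 4, 6, 4, 5], .l [8, 9, 4, 5, 1, 4, 6, 2, 3], .l [7, 8], .l [6, 9, 6, 6, 4, 6, 4, 1], .l [6, 7, 4, 5, 1, 4, 6, 2, 3], .r 1169 [1, 2, 3, 4, 6, 5] [1, 1, 1, 1, 1, 1, 1], .l [6, 7, 4, 4, 2, 4, 2, 3], .l [6, 7, 4, 5, 1, 6, 3, 4, 1], .l [7, 11, 10, 10, 7, 8, 4, 1, 2, 3], .l [6, 7, 4, 4, 2, 4, 2, 5], .l [6, 7, 4, 5, 1, 6, 3, 4, 1], .l [6, 7, 4, 5, 1, 8, 5, 6, 3], .l [7, 13, 12, 12, 9, 10, 6, 1, 4, 5], .l [6, 7, 4, 4, 2, 4, 2, 7]]),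
([p 3 1, g, p 2 0, g, p 0 2, p 4 3, g, p 0 4, g, s 1 0, g], .lo 4, [.l [5, 7, 1, 2, 6, 4, 1], .l [2, 5], .l [1, 7, 5, 3], .y [2, 4], .l [5, 7, 1, 4, 6, 2, 3], .l [4, 5], .l [3, 6, 4, 6, 4, 1], .l [3, 5, 1, 4, 6, 2, 3], .r 1170 [1, 2, 3, 5, 4] [1, 1, 1, 1, 1, 1], .l [3, 4, 2, 4, 2, 3], .l [3, 5, 1, 6, 3, 4, 1], .l [5, 9, 7, 8, 4, 1, 2, 3], .l [3, 4, 2, 4, 2, 5], .l [3, 5, 1, 6, 3, 4, 1], .l [3, 5, 1, 8, 5, 6, 3], .l [5, 11, 9, 10, 6, 1, 4, 5], .l [3, 4, 2, 4, 2, 7]]),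
([p 5 1, s 0 0, g, s 0 2, g, p 4 3, g, s 3 0, g, p 6 4, p 2 5, g, s 1 0, g, p 0 6, g], .hi 1, [.y [1], .l [9, 1, 11, 2, 11, 8, 1, 10, 1, 4, 2, 3], .l [2, 12, 9, 9, 10], .r 854 [7, 5] [1, 8, 5], .l [7, 1, 9, 2, 9, 6, 1, 8, 1, 4, 2, 3], .l [9, 1, 11, 2, 11, 8, 3, 10, 1, 4, 2, 5], .l [4, 12, 7, 7, 10], .r 854 [7, 5] [3, 6, 5], .l [9, 3, 11, 2, 11, 8, 5, 1, 6, 3], .l [6, 11, 9, 11, 6, 6, 9], .l [7, 5, 11, 4, 7, 3, 6], .l [7, 1, 11, 4, 11, 6, 8, 4, 2, 3], .l [8, 11, 7, 11, 6, 6, 9], .l [9, 7, 11, 2, 7, 5, 6], .l [7, 1, 9, 2, 11, 8, 5, 1, 6, 3], .l [11, 16, 13, 13, 9, 13, 8, 8, 5], .l [7, 1, 11, 5, 10, 1, 6, 3], .l [7, 1, 9, 2, 9, 6, 8, 4, 2, 3], .l [12, 11, 12], .l [7, 1, 13, 7, 4, 8, 6, 7], .l [12, 11, 12], .l [7, 1, 9, 2,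 9, 6, 10, 6, 2, 5], .l [12, 11, 14], .l [7, 1, 15, 9, 4, 10, 8, 9]]),
([p 5 1, g, s 0 2, g, p 4 3, g, s 3 0, g, p 6 4, p 2 5, g, s 1 0, g, p 0 6, g], .top 1, [.l [7, 8, 0, 0, 7], .r 1172 [1, 2, 3, 4, 5, 6] [1, 1, 1, 1, 1, 1, 1], .r 334 [] [14], .r 444 [] [14]]),
([p 4 1, g, s 0 2, g, p 3 0, g, p 5 3, p 2 4, g, s 1 0, g, p 6 5, g, p 7 6, g, p 8 7, g, p 9 8, g, p 0 9, g], .hi 4, [.l [6, 3, 8, 2, 4, 2, 3], .l [16, 7, 11, 16, 10, 7, 12, 14, 10, 5, 7, 9, 11, 9, 7, 3, 7, 3], .l [6, 3], .l [4, 1, 1, 4, 3], .l [6, 1, 8, 2, 6, 4, 1], .l [18, 3, 10, 18, 9, 2, 14, 8, 4, 10, 1, 9, 1, 10, 8, 3, 7, 1], .l [6, 1], .r 1173 [1, 2, 10, 3, 4, 5] [1, 1, 1, 1, 1, 1, 9], .l [4, 5], .l [6, 1], .l [9, 4, 4, 2, 3], .l [4, 8], .l [9, 4], .l [11,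 6, 6, 4, 5], .l [4, 10], .l [11, 6], .l [13, 8, 8, 6, 7], .l [4, 12], .l [13, 8], .l [15, 10, 10, 8, 9], .l [4, 14], .l [15, 10], .l [17, 12, 12, 10, 11], .l [4, 16], .l [17, 12], .l [19, 14, 14, 12, 13], .l [4, 18], .l [19, 14], .y [4, 19, 17, 15, 13, 11, 6], .l [21, 16, 16, 14, 15], .l [4, 20], .l [21, 16]]),
([p 4 1, g, s 0 2, g, p 3 0, g, p 5 3, p 2 4, g, s 1 0, g, p 6 5, g, p 7 6, g, p 8 7, g, p 0 8, g], .lo 17, [.l [18, 19, 17, 17, 15, 15, 13, 13, 8, 9, 1, 2, 4, 2, 3], .l [2, 18], .l [1, 9, 7, 16], .l [1, 4, 17, 17, 15, 15, 13, 13, 11, 11, 6, 7, 3, 2, 3], .l [4, 18], .l [3, 9, 5, 16], .y [4, 17, 15, 13, 11, 6], .l [5, 9, 3, 16, 9, 12, 1], .l [6, 18], .l [0, 10, 4, 16, 7, 11, 1, 10, 7], .l [8, 13, 10, 11, 5, 14,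 5, 8, 1], .l [9, 18], .l [8, 13, 10, 10, 8, 10, 6, 13], .l [8, 11, 8, 9, 3, 12, 5, 8, 1], .l [10, 13, 8, 9, 3, 14, 7, 10, 1], .l [11, 18], .l [10, 13, 8, 8, 6, 8, 4, 13], .l [12, 15, 13, 13, 8, 9, 3, 12, 5, 8, 1], .l [13, 18], .l [12, 15, 13, 13, 8, 8, 6, 8, 4, 11], .l [14, 17, 15, 15, 13, 13, 8, 9, 3, 10, 3, 6, 1], .l [15, 18], .l [14, 17, 15, 15, 13, 13, 8, 8, 6, 8, 4, 9], .l [18, 19, 15, 15, 13, 13, 11, 11, 6, 7, 1, 8, 3, 6, 1], .l [17, 18], .l [16, 19, 17, 17, 15, 15, 13, 13, 8, 8, 6, 8, 4, 1], .l [16, 17, 15, 15, 13, 13, 11, 11, 6, 7, 1, 8, 3, 6, 1], .r 1174 [1, 2, 3, 4, 5, 6, 7, 8, 9] [1, 1, 1, 1, 1, 1, 1, 1, 1, 1], .l [16, 17, 15, 15, 13, 13, 11, 11, 6, 6, 4, 6, 2, 7]]),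
([p 4 1, g, s 0 2, g, p 3 0, g, p 5 3, p 2 4, g, s 1 0, g, p 6 5, g, p 7 6, g, p 0 7, g], .lo 15, [.l [16, 17, 15, 15, 13, 13, 8, 9, 1, 2, 4, 2, 3], .l [2, 16], .l [1, 9, 7, 14], .l [1, 4, 15, 15, 13, 13, 11, 11, 6, 7, 3, 2, 3], .l [4, 16], .l [3, 9, 5, 14], .y [4, 15, 13, 11, 6], .l [5, 9, 3, 14, 7, 10, 1], .l [6, 16], .l [0, 10, 4, 14, 5, 9, 1, 8, 5], .l [8, 13, 10, 11, 5, 12, 3, 6, 1], .l [9, 16], .l [8, 13, 10, 10, 8, 10, 6, 11], .l [8, 11, 8, 9, 3, 10, 3, 6, 1], .l [10, 13, 8, 9, 3, 12, 5, 8, 1], .l [11, 16], .l [10, 13, 8, 8, 6, 8, 4, 11], .l [12, 15, 13, 13, 8, 9, 3, 10, 3, 6, 1], .l [13, 16], .l [12, 15, 13, 13, 8, 8, 6, 8, 4, 9], .l [16, 17, 13, 13, 11, 11, 6, 7, 1, 8, 3, 6, 1], .l [15, 16], .l [14, 17, 15, 15,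 13, 13, 8, 8, 6, 8, 4, 1], .l [14, 15, 13, 13, 11, 11, 6, 7, 1, 8, 3, 6, 1], .r 1175 [1, 2, 3, 4, 5, 6, 7, 8] [1, 1, 1, 1, 1, 1, 1, 1, 1], .l [14, 15, 13, 13, 11, 11, 6, 6, 4, 6, 2, 7]]),
([p 4 1, g, s 0 2, g, p 3 0, g, p 5 3, p 2 4, g, s 1 0, g, p 6 5, g, p 0 6, g], .lo 13, [.l [14, 15, 13, 13, 8, 9, 1, 2, 4, 2, 3], .l [2, 14], .l [1, 9, 7, 12], .l [1, 4, 13, 13, 11, 11, 6, 7, 3, 2, 3], .l [4, 14], .l [3, 9, 5, 12], .y [4, 13, 11, 6], .l [5, 9, 3, 12, 5, 8, 1], .l [6, 14], .l [0, 10, 4, 12, 3, 7, 1, 6, 3], .l [8, 13, 10, 11, 5, 10, 1, 4, 1], .l [9, 14], .l [8, 13, 10, 10, 8, 10, 6, 9], .l [8, 11, 8, 9, 3, 8, 1, 4, 1], .l [10, 13, 8, 9, 3, 10, 3, 6, 1], .l [11, 14], .l [10, 13, 8, 8, 6, 8, 4, 9], .l [14, 15, 11, 11, 6,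 7, 1, 8, 3, 6, 1], .l [13, 14], .l [12, 15, 13, 13, 8, 8, 6, 8, 4, 1], .l [12, 13, 11, 11, 6, 7, 1, 8, 3, 6, 1], .r 1176 [1, 2, 3, 4, 5, 6, 7] [1, 1, 1, 1, 1, 1, 1, 1], .l [12, 13, 11, 11, 6, 6, 4, 6, 2, 7]]),
([p 4 1, g, s 0 2, g, p 3 0, g, p 5 3, p 2 4, g, s 1 0, g, p 0 5, g], .lo 11, [.l [12, 13, 8, 9, 1, 2, 4, 2, 3], .l [2, 12], .l [1, 9, 7, 10], .l [1, 4, 11, 11, 6, 7, 3, 2, 3], .l [4, 12], .l [3, 9, 5, 10], .y [4, 11, 6], .l [5, 9, 3, 10, 3, 6, 1], .l [6, 12], .l [0, 10, 4, 10, 1, 5, 1, 4, 1], .l [12, 13, 6, 7, 1, 6, 1, 4, 1], .l [9, 12], .l [8, 13, 10, 10, 8, 10, 6, 3], .l [10, 11, 6, 7, 1, 6, 1, 4, 1], .l [12, 13, 6, 7, 1, 8, 3, 6, 1], .l [11, 12], .l [10, 13, 8, 8, 6, 8, 4, 1], .l [10, 11, 6, 7, 1, 8, 3, 6, 1],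 .r 1177 [1, 2, 3, 4, 5, 6] [1, 1, 1, 1, 1, 1, 1], .l [10, 11, 6, 6, 4, 6, 2, 7]]),
([p 8 1, g, p 2 0, g, p 3 2, g, p 4 3, g, p 6 4, g, s 0 5, g, p 7 6, g, p 9 7, p 5 8, g, p 0 9, g, s 1 0, g], .hi 2, [.l [4, 1, 16, 12, 14, 12, 12, 10, 10, 8, 8, 4, 4, 2, 3], .l [11, 14, 12, 12, 10, 10, 8, 8, 6, 6, 4, 7, 5, 4, 6, 5, 5, 3], .l [4, 1], .l [4, 1, 16, 12, 1, 12, 14, 11, 14, 1, 10, 8, 9], .l [2, 3], .l [4, 1], .l [6, 3, 16, 10, 14, 12, 12, 10, 10, 6, 6, 4, 5], .l [2, 5], .l [6, 3], .l [8, 5, 5, 3, 14, 8, 12, 10, 10, 6, 6, 4, 5], .l [2, 7], .l [8, 5], .l [10, 7, 7, 5, 5, 3, 12, 6, 10, 6, 6, 4, 5], .l [2, 9], .l [10, 7], .l [10, 7, 7, 5, 5, 3, 3, 1, 5, 3, 3, 4, 3], .l [12, 9, 9, 7, 7, 5, 12, 4, 10, 8, 8, 6, 3], .l [2, 11], .l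 [12, 9], .l [14, 11, 11, 9, 9, 7, 7, 5, 10, 2, 6, 4, 5], .l [2, 13], .l [14, 11], .l [17, 14, 14, 12, 12, 10, 10, 8, 8, 4, 4, 2, 3], .l [2, 16], .l [17, 14], .y [2, 17, 14, 12, 8, 6, 4], .l [19, 16, 16, 14, 14, 12, 12, 10, 10, 6, 6, 4, 5], .l [2, 18], .l [19, 16], .l [21, 18, 18, 16, 16, 14, 14, 12, 12, 8, 8, 6, 7], .l [2, 20], .l [21, 18]]),
([p 7 1, g, p 2 0, g, p 3 2, g, p 5 3, g, s 0 4, g, p 6 5, g, p 8 6, p 4 7, g, p 0 8, g, s 1 0, g], .hi 2, [.l [4, 1, 14, 10, 12, 10, 10, 8, 8, 4, 4, 2, 3], .r 1179 [1, 9, 2, 3, 4, 5, 6, 7, 8] [1, 1, 1, 1, 1, 1, 1, 1, 1, 1], .l [4, 1], .l [4, 1, 14, 10, 1, 10, 12, 9, 12, 1, 8, 6, 7], .l [2, 3], .l [4, 1], .l [6, 3, 14, 8, 12, 10, 10, 6, 6, 4, 5], .l [2, 5], .l [6, 3], .l [8, 5, 5,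 3, 12, 6, 10, 6, 6, 4, 5], .l [2, 7], .l [8, 5], .l [8, 5, 5, 3, 3, 1, 5, 3, 3, 4, 3], .l [10, 7, 7, 5, 12, 4, 10, 8, 8, 6, 3], .l [2, 9], .l [10, 7], .l [12, 9, 9, 7, 7, 5, 10, 2, 6, 4, 5], .l [2, 11], .l [12, 9], .l [15, 12, 12, 10, 10, 8, 8, 4, 4, 2, 3], .l [2, 14], .l [15, 12], .y [2, 15, 12, 10, 6, 4], .l [17, 14, 14, 12, 12, 10, 10, 6, 6, 4, 5], .l [2, 16], .l [17, 14], .l [19, 16, 16, 14, 14, 12, 12, 8, 8, 6, 7], .l [2, 18], .l [19, 16]]),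
([p 6 1, g, p 2 0, g, p 4 2, g, s 0 3, g, p 5 4, g, p 7 5, p 3 6, g, p 0 7, g, s 1 0, g], .hi 2, [.l [4, 1, 12, 8, 10, 8, 8, 4, 4, 2, 3], .r 1180 [1, 8, 2, 3, 4, 5, 6, 7] [1, 1, 1, 1, 1, 1, 1, 1, 1], .l [4, 1], .l [4, 1, 12, 8, 1, 8, 10, 7, 10, 1, 6, 4, 5], .l [2, 3], .l [4, 1], .l [6, 3, 12, 6, 10, 6, 6, 4, 5], .l [2, 5], .l [6, 3], .l [6, 3, 3, 1, 5, 3, 3, 4, 3], .l [8, 5, 12, 4, 10, 8, 8, 6, 3], .l [2, 7], .l [8, 5], .l [10, 7, 7, 5, 10, 2, 6, 4, 5], .l [2, 9], .l [10, 7], .l [13, 10, 10, 8, 8, 4, 4, 2, 3], .l [2, 12], .l [13, 10], .y [2, 13, 10, 8, 4], .l [15, 12, 12, 10, 10, 6, 6, 4, 5], .l [2, 14], .l [15, 12], .l [17, 14, 14, 12, 12, 8, 8, 6, 7], .l [2, 16], .l [17, 14]]),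
([p 5 1, g, p 3 0, g, s 0 2, g, p 4 3, g, p 6 4, p 2 5, g, p 0 6, g, s 1 0, g], .hi 2, [.l [4, 1, 10, 6, 8, 4, 4, 2, 3], .r 1181 [1, 7, 2, 3, 4, 5, 6] [1, 1, 1, 1, 1, 1, 1, 1], .l [4, 1], .l [4, 1, 10, 6, 3, 6, 4, 2, 3], .l [2, 3], .l [4, 1], .l [4, 1, 5, 3, 3, 4, 3], .l [6, 3, 7, 3, 5, 6, 3], .l [2, 5], .l [6, 3], .l [8, 5, 10, 2, 6, 4, 5], .l [2, 7], .l [8, 5], .l [11, 8, 8, 4, 4, 2, 3], .l [2, 10], .l [11, 8], .y [2, 11, 8, 6], .l [13, 10, 10, 6, 6, 4, 5], .l [2, 12], .l [13, 10], .l [15, 12, 12, 8, 8, 6, 7], .l [2, 14], .l [15, 12]]),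
([p 8 1, g, p 2 0, g, p 3 2, g, p 5 3, g, s 0 4, g, p 6 5, g, p 7 6, g, p 9 7, p 4 8, g, p 0 9, g, s 1 0, g], .hi 2, [.l [4, 1, 16, 12, 14, 12, 12, 10, 10, 6, 6, 4, 4, 2, 3], .l [9, 12, 10, 10, 8, 8, 6, 6, 4, 9, 7, 6, 8, 7, 7, 5, 5, 3], .l [4, 1], .l [4, 1, 16, 12, 1, 12, 14, 11, 14, 1, 8, 6, 9], .l [2, 3], .l [4, 1], .l [6, 3, 16, 10, 14, 12, 12, 8, 8, 6, 6, 4, 5], .l [2, 5], .l [6, 3], .l [8, 5, 5, 3, 14, 8, 12, 8, 8, 6, 6, 4, 5], .l [2, 7], .l [8, 5], .l [14, 17, 16, 16, 14, 14, 12, 10, 0, 7, 9, 7, 7, 5, 5, 3, 3, 1], .l [10, 7, 7, 5, 14, 6, 12, 10, 10, 8, 8, 6, 3], .l [2, 9], .l [10, 7], .l [12, 9, 9, 7, 7, 5, 12, 4, 8, 6, 6, 4, 5], .l [2, 11], .l [12, 9], .l [14, 11, 11, 9, 9, 7, 7, 3, 10, 2, 8, 6, 1], .l [2, 13],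 .l [14, 11], .l [17, 14, 14, 12, 12, 10, 10, 6, 6, 4, 4, 2, 3], .l [2, 16], .l [17, 14], .y [2, 17, 14, 12, 10, 6, 4], .l [19, 16, 16, 14, 14, 12, 12, 8, 8, 6, 6, 4, 5], .l [2, 18], .l [19, 16], .l [21, 18, 18, 16, 16, 14, 14, 10, 10, 8, 8, 6, 7], .l [2, 20], .l [21, 18]]),
([p 7 1, g, p 2 0, g, p 4 2, g, s 0 3, g, p 5 4, g, p 6 5, g, p 8 6, p 3 7, g, p 0 8, g, s 1 0, g], .hi 2, [.l [4, 1, 14, 10, 12, 10, 10, 6, 6, 4, 4, 2, 3], .r 1183 [1, 9, 2, 3, 4, 5, 6, 7, 8] [1, 1, 1, 1, 1, 1, 1, 1, 1, 1], .l [4, 1], .l [4, 1, 14, 10, 1, 10, 12, 9, 12, 1, 6, 4, 7], .l [2, 3], .l [4, 1], .l [6, 3, 14, 8, 12, 8, 8, 6, 6, 4, 5], .l [2, 5], .l [6, 3], .l [6, 3, 3, 1, 10, 6, 1, 6, 8, 5, 8, 1, 6, 1, 1, 2, 1], .l [8, 5, 14, 6, 12, 10, 10,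 8, 8, 6, 3], .l [2, 7], .l [8, 5], .l [10, 7, 7, 5, 12, 4, 8, 6, 6, 4, 5], .l [2, 9], .l [10, 7], .l [12, 9, 9, 7, 7, 3, 10, 2, 8, 6, 1], .l [2, 11], .l [12, 9], .l [15, 12, 12, 10, 10, 6, 6, 4, 4, 2, 3], .l [2, 14], .l [15, 12], .y [2, 15, 12, 10, 8, 4], .l [17, 14, 14, 12, 12, 8, 8, 6, 6, 4, 5], .l [2, 16], .l [17, 14], .l [19, 16, 16, 14, 14, 10, 10, 8, 8, 6, 7], .l [2, 18], .l [19, 16]]),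
([p 6 1, g, p 3 0, g, s 0 2, g, p 4 3, g, p 5 4, g, p 7 5, p 2 6, g, p 0 7, g, s 1 0, g], .hi 2, [.l [4, 1, 12, 8, 10, 6, 6, 4, 4, 2, 3], .r 1184 [1, 8, 2, 3, 4, 5, 6, 7] [1, 1, 1, 1, 1, 1, 1, 1, 1], .l [4, 1], .l [4, 1, 12, 8, 3, 8, 10, 7, 10, 1, 6, 4, 5], .l [2, 3], .l [4, 1], .l [4, 1, 10, 6, 1, 6, 8, 5, 8, 1, 6, 1, 1, 2, 1], .l [3, 8, 6, 6, 1, 13, 8, 11, 9, 9, 7, 4, 3], .l [2, 5], .l [6, 3], .l [8, 5, 12, 4, 8, 6, 6, 4, 5], .l [2, 7], .l [8, 5], .l [10, 7, 7, 3, 10, 2, 8, 6, 1], .l [2, 9], .l [10, 7], .l [13, 10, 10, 6, 6, 4, 4, 2, 3], .l [2, 12], .l [13, 10], .y [2, 13, 10, 8, 6], .l [15, 12, 12, 8, 8, 6, 6, 4, 5], .l [2, 14], .l [15, 12], .l [17, 14, 14, 10, 10, 8, 8, 6, 7], .l [2, 16], .l [17, 14]]),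
([p 8 1, g, s 0 2, g, p 3 0, g, p 4 3, g, p 5 4, g, p 6 5, g, p 7 6, g, p 9 7, p 2 8, g, p 0 9, g, s 1 0, g], .hi 4, [.l [6, 3, 16, 10, 12, 10, 10, 8, 8, 6, 6, 4, 4, 2, 3], .l [3, 6, 4, 15, 13, 12, 14, 13, 13, 11, 11, 9, 9, 7, 7, 5, 5, 3], .l [6, 3], .l [4, 1, 14, 10, 12, 10, 10, 8, 8, 6, 6, 4, 4, 2, 1], .l [6, 1, 16, 10, 14, 12, 12, 10, 10, 8, 8, 6, 6, 4, 1], .l [1, 17, 15, 14, 16, 15, 15, 13, 13, 11, 11, 9, 9, 7, 7, 5, 5, 3], .l [6, 1], .l [6, 1, 16, 10, 1, 12, 14, 9, 10, 12, 1, 10, 7], .l [4, 5], .l [6, 1], .l [8, 3, 16, 8, 14, 12, 12, 10, 10, 8, 8, 6, 1], .l [4, 7], .l [8, 3], .l [10, 5, 5, 3, 14, 6, 12, 10, 10, 8, 8, 6, 1], .l [4, 9], .l [10, 5], .l [12, 7, 7, 5, 5, 3, 12, 4, 10, 8, 8, 6, 1], .l [4, 11], .l [12,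 7], .l [14, 9, 9, 7, 7, 5, 5, 3, 10, 2, 8, 6, 1], .l [4, 13], .l [14, 9], .l [17, 12, 12, 10, 10, 8, 8, 6, 6, 4, 4, 2, 3], .l [4, 16], .l [17, 12], .y [4, 17, 14, 12, 10, 8, 6], .l [19, 14, 14, 12, 12, 10, 10, 8, 8, 6, 6, 4, 5], .l [4, 18], .l [19, 14], .l [21, 16, 16, 14, 14, 12, 12, 10, 10, 8, 8, 6, 7], .l [4, 20], .l [21, 16]]),
([p 7 0, g, p 2 0, g, s 0 1, g, p 3 2, g, p 4 3, g, p 5 4, g, p 6 5, g, p 8 6, p 1 7, g, p 0 8, g], .lo 17, [.l [0, 16], .l [18, 19, 16, 17, 1, 2, 6, 4, 11], .l [2, 18], .l [1, 17, 15, 16], .y [2, 17, 14, 12, 10, 8, 6], .l [3, 17, 13, 16, 1, 10, 10, 8, 8, 6, 6, 4, 4, 2, 3], .l [4, 18], .l [3, 8, 6, 15, 13, 14], .l [5, 17, 11, 16, 3, 12, 12, 10, 10, 8, 8, 6, 6, 4, 1], .l [6, 18], .l [3, 8, 6,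 15, 13, 12, 10, 13, 13, 9, 9, 7, 7, 5, 5, 3, 3, 1], .l [7, 10, 8, 15, 9, 14, 3, 10, 10, 8, 8, 6, 6, 4, 1], .l [8, 18], .l [2, 17, 14, 3, 14, 10, 14, 1, 10, 10, 8, 8, 6, 6, 4, 1, 5, 1], .l [9, 12, 10, 10, 8, 13, 7, 12, 3, 8, 8, 6, 6, 4, 1], .l [10, 18], .l [6, 8, 7, 16, 10, 1, 10, 8, 12, 3, 8, 8, 6, 6, 4, 1, 5, 1], .l [11, 14, 12, 12, 10, 10, 8, 11, 5, 10, 3, 6, 6, 4, 1], .l [12, 18], .l [6, 17, 10, 1, 14, 10, 14, 3, 1, 5, 3, 3, 6, 6, 4, 1, 5, 1], .l [13, 17, 3, 16, 1, 12, 3], .l [14, 18], .l [4, 17, 12, 1, 12, 4, 14, 5, 1, 12, 1, 4, 2, 5, 7, 5, 5, 3], .l [18, 19, 14, 15, 1, 14, 1, 12, 3], .l [17, 18], .l [8, 10, 9, 14, 6, 1, 10, 14, 7, 3, 8, 4, 1, 4, 2, 5, 3, 1], .l [16, 17, 14, 15, 1, 14, 1, 12, 3], .l [14, 17, 16, 16,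 14, 14, 12, 12, 10, 10, 8, 8, 4, 2, 0, 3, 5, 3], .l [8, 15, 6, 1, 12, 14, 5, 3, 10, 6, 10, 3, 1, 5, 3, 3, 4, 1]]),
([p 7 1, g, s 0 2, g, p 3 0, g, p 4 3, g, p 5 4, g, p 6 5, g, p 8 6, p 2 7, g, p 0 8, g, s 1 0, g], .hi 4, [.l [6, 3, 14, 8, 10, 8, 8, 6, 6, 4, 4, 2, 3], .r 1187 [2, 9, 3, 4, 5, 6, 7, 8] [1, 1, 1, 1, 1, 1, 1, 1, 3], .l [6, 3], .l [4, 1, 12, 8, 10, 8, 8, 6, 6, 4, 4, 2, 1], .l [6, 1, 14, 8, 12, 10, 10, 8, 8, 6, 6, 4, 1], .r 1186 [1, 2, 9, 3, 4, 5, 6, 7, 8] [1, 1, 1, 1, 1, 1, 1, 1, 1, 1], .l [6, 1], .l [6, 1, 14, 8, 1, 10, 12, 7, 8, 10, 1, 8, 5], .l [4, 5], .l [6, 1], .l [8, 3, 14, 6, 12, 10, 10, 8, 8, 6, 1], .l [4, 7], .l [8, 3], .l [10, 5, 5, 3, 12, 4, 10, 8, 8, 6, 1], .l [4, 9], .l [10, 5], .l [12, 7, 7,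 5, 5, 3, 10, 2, 8, 6, 1], .l [4, 11], .l [12, 7], .l [15, 10, 10, 8, 8, 6, 6, 4, 4, 2, 3], .l [4, 14], .l [15, 10], .y [4, 15, 12, 10, 8, 6], .l [17, 12, 12, 10, 10, 8, 8, 6, 6, 4, 5], .l [4, 16], .l [17, 12], .l [19, 14, 14, 12, 12, 10, 10, 8, 8, 6, 7], .l [4, 18], .l [19, 14]]),
([p 8 1, g, p 2 0, g, p 4 2, g, s 0 3, g, p 5 4, g, p 6 5, g, p 7 6, g, p 9 7, p 3 8, g, p 0 9, g, s 1 0, g], .hi 2, [.l [4, 1, 16, 12, 14, 12, 12, 8, 8, 6, 6, 4, 4, 2, 3], .l [7, 10, 8, 8, 6, 6, 4, 11, 9, 8, 10, 9, 9, 7, 7, 5, 5, 3], .l [4, 1], .l [4, 1, 16, 12, 1, 12, 14, 11, 14, 1, 6, 4, 9], .l [2, 3], .l [4, 1], .l [6, 3, 16, 10, 14, 10, 10, 8, 8, 6, 6, 4, 5], .l [2, 5], .l [6, 3], .l [14, 17, 16, 16, 14, 14, 12, 12, 10, 8, 0, 5, 7, 5, 5,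 3, 3, 1], .l [8, 5, 16, 8, 14, 12, 12, 10, 10, 8, 8, 6, 3], .l [2, 7], .l [8, 5], .l [10, 7, 7, 5, 14, 6, 10, 8, 8, 6, 6, 4, 5], .l [2, 9], .l [10, 7], .l [12, 9, 9, 7, 7, 3, 12, 4, 10, 8, 8, 6, 1], .l [2, 11], .l [12, 9], .l [14, 11, 11, 9, 9, 5, 5, 3, 10, 2, 8, 6, 1], .l [2, 13], .l [14, 11], .l [17, 14, 14, 12, 12, 8, 8, 6, 6, 4, 4, 2, 3], .l [2, 16], .l [17, 14], .y [2, 17, 14, 12, 10, 8, 4], .l [19, 16, 16, 14, 14, 10, 10, 8, 8, 6, 6, 4, 5], .l [2, 18], .l [19, 16], .l [21, 18, 18, 16, 16, 12, 12, 10, 10, 8, 8, 6, 7], .l [2, 20], .l [21, 18]]),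
([p 7 1, g, p 3 0, g, s 0 2, g, p 4 3, g, p 5 4, g, p 6 5, g, p 8 6, p 2 7, g, p 0 8, g, s 1 0, g], .hi 2, [.l [4, 1, 14, 10, 12, 8, 8, 6, 6, 4, 4, 2, 3], .r 1189 [1, 9, 2, 3, 4, 5, 6, 7, 8] [1, 1, 1, 1, 1, 1, 1, 1, 1, 1], .l [4, 1], .l [4, 1, 14, 10, 3, 10, 12, 9, 12, 1, 6, 4, 7], .l [2, 3], .l [4, 1], .l [4, 1, 12, 8, 1, 8, 10, 7, 10, 1, 6, 1, 1, 2, 3], .l [3, 8, 6, 6, 1, 15, 10, 13, 11, 11, 9, 9, 7, 4, 3], .l [2, 5], .l [6, 3], .l [8, 5, 14, 6, 10, 8, 8, 6, 6, 4, 5], .l [2, 7], .l [8, 5], .l [10, 7, 7, 3, 12, 4, 10, 8, 8, 6, 1], .l [2, 9], .l [10, 7], .l [12, 9, 9, 5, 5, 3, 10, 2, 8, 6, 1], .l [2, 11], .l [12, 9], .l [15, 12, 12, 8, 8, 6, 6, 4, 4, 2, 3], .l [2, 14], .l [15, 12], .y [2, 15, 12, 10, 8, 6], .l [17, 14,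 14, 10, 10, 8, 8, 6, 6, 4, 5], .l [2, 16], .l [17, 14], .l [19, 16, 16, 12, 12, 10, 10, 8, 8, 6, 7], .l [2, 18], .l [19, 16]]),
([p 6 1, g, s 0 2, g, p 3 0, g, p 4 3, g, p 5 4, g, p 7 5, p 2 6, g, p 0 7, g, s 1 0, g], .hi 4, [.l [6, 3, 12, 6, 8, 6, 6, 4, 4, 2, 3], .r 1190 [1, 2, 8, 3, 4, 5, 6, 7] [1, 1, 1, 1, 1, 1, 1, 1, 1], .l [6, 3], .l [4, 1, 10, 6, 8, 6, 6, 4, 4, 2, 1], .l [6, 1, 12, 6, 10, 8, 8, 6, 6, 4, 1], .r 1188 [1, 2, 8, 3, 4, 5, 6, 7] [1, 1, 1, 1, 1, 1, 1, 1, 1], .l [6, 1], .l [6, 1, 12, 6, 1, 8, 10, 5, 6, 8, 1, 6, 3], .l [4, 5], .l [6, 1], .l [8, 3, 12, 4, 10, 8, 8, 6, 1], .l [4, 7], .l [8, 3], .l [10, 5, 5, 3, 10, 2, 8, 6, 1], .l [4, 9], .l [10, 5], .l [13, 8, 8, 6, 6, 4, 4, 2, 3], .l [4, 12], .l [13, 8],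 .y [4, 13, 10, 8, 6], .l [15, 10, 10, 8, 8, 6, 6, 4, 5], .l [4, 14], .l [15, 10], .l [17, 12, 12, 10, 10, 8, 8, 6, 7], .l [4, 16], .l [17, 12]]),
([p 5 1, g, s 0 2, g, p 3 0, g, p 4 3, g, p 6 4, p 2 5, g, p 0 6, g, s 1 0, g], .hi 4, [.l [6, 3, 10, 4, 6, 4, 4, 2, 3], .r 1185 [1, 2, 7, 3, 4, 5, 6] [1, 1, 1, 1, 1, 1, 1, 1], .l [6, 3], .l [4, 1, 8, 4, 6, 4, 4, 2, 1], .l [6, 1, 10, 4, 8, 6, 6, 4, 1], .r 1191 [1, 2, 7, 3, 4, 5, 6] [1, 1, 1, 1, 1, 1, 1, 1], .l [6, 1], .l [3, 6, 1, 13, 10, 3, 9, 3, 4, 2, 4, 2, 3], .l [4, 5], .l [6, 1], .l [8, 3, 10, 2, 8, 6, 1], .l [4, 7], .l [8, 3], .l [11, 6, 6, 4, 4, 2, 3], .l [4, 10], .l [11, 6], .y [4, 11, 8, 6], .l [13, 8, 8, 6, 6, 4, 5], .l [4, 12], .l [13, 8], .l [15, 10, 10, 8, 8, 6,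 7], .l [4, 14], .l [15, 10]]),
([p 3 0, g, s 0 1, g, p 2 0, g, p 4 2, p 1 3, g, p 6 4, g, s 0 5, g, s 5 0, g, p 0 6, g], .lo 15, [.l [0, 14], .l [16, 17, 11, 11, 8, 9, 1, 2, 4, 2, 3], .l [2, 16], .l [1, 9, 7, 14], .l [1, 4, 15, 15, 9, 9, 6, 7, 3, 2, 3], .l [4, 16], .l [3, 9, 5, 14], .y [4, 15, 9, 6], .l [5, 9, 3, 14, 7, 10, 1], .l [6, 16], .l [5, 8, 6, 8, 4, 13], .l [8, 11, 8, 9, 3, 12, 5, 8, 1], .l [9, 16], .l [8, 11, 8, 8, 6, 8, 4, 11], .l [16, 17, 9, 9, 6, 7, 1, 6, 1, 4, 1], .l [11, 16], .l [10, 17, 15, 15, 12, 12, 10, 12, 8, 5], .l [16, 17, 9, 9, 6, 7, 1, 8, 3, 6, 1], .l [13, 16], .l [12, 17, 13, 13, 10, 10, 8, 10, 6, 3], .l [12, 15, 11, 11, 8, 9, 3, 8, 1, 4, 1, 3, 3], .l [16, 17, 9, 9, 6, 7, 1, 10, 5, 8, 1], .l [15,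 16], .l [12, 17, 13, 13, 10, 11, 5, 10, 1, 4, 1, 5, 1], .l [14, 15, 9, 9, 6, 7, 1, 10, 5, 8, 1], .l [12, 15, 11, 11, 8, 9, 3, 8, 1, 4, 1, 7, 3], .l [12, 15, 11, 11, 8, 9, 3, 8, 1, 4, 1, 3, 5]]),
([p 5 1, g, s 0 2, g, s 2 3, g, p 4 0, g, p 6 4, p 3 5, g, p 7 6, g, s 1 0, g, p 0 7, g], .hi 13, [.l [15, 12, 14, 5, 6, 4, 12, 7, 10, 1, 6, 4, 5], .l [0, 14, 10, 1, 12, 1, 12, 8, 8, 5, 8, 1, 4, 2, 3], .l [3, 11, 7, 1, 12, 3, 6, 4, 10, 5, 8, 1, 4, 2, 3], .y [0, 13, 2, 4, 9], .l [15, 10, 14, 7, 8, 6, 12, 5, 10, 3, 6, 2, 5], .l [0, 14, 8, 10, 14, 10, 10, 7, 10, 4, 4, 1, 4, 2, 3], .l [1, 4, 13, 15, 13, 13, 10, 11, 5, 6, 6, 4, 5], .l [15, 14, 14, 3, 4, 2, 12, 9, 10, 6, 1, 4, 5], .l [3, 11, 7, 8, 10, 7, 3, 8, 10, 7, 1, 6, 3], .l [1,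 6, 13, 15, 13, 13, 10, 11, 7, 1, 1, 4, 5], .l [7, 11, 3, 12, 3, 8, 3, 11, 5, 5, 3, 5, 3], .l [7, 11, 3, 12, 3, 8, 3], .l [8, 14, 14, 7, 10, 2, 4, 2, 3], .l [10, 13, 10, 11, 3, 10, 1, 6, 3, 9, 3, 5, 3], .l [10, 13, 10, 11, 3, 10, 1, 6, 3], .l [0, 14, 10, 10, 14, 12, 12, 7, 10, 4, 4, 1, 4, 2, 3], .l [0, 14, 16, 12, 12, 9, 12, 4, 4, 1, 6, 4, 5], .l [14, 17, 13, 13, 10, 11, 3, 10, 1, 6, 3], .l [0, 14, 10, 10, 14, 10, 10, 7, 10, 4, 4, 1, 4, 2, 3], .r 1193 [3, 4, 5, 6, 8, 7] [3, 1, 1, 1, 1, 1, 1, 1], .l [14, 17, 13, 13, 10, 11, 3, 10, 1, 6, 3], .l [3, 9, 5, 6, 8, 5, 6, 6, 8, 1, 4, 2, 3], .l [14, 15, 11, 11, 8, 9, 1, 8, 1, 6, 3], .l [0, 12, 14, 12, 12, 9, 12, 4, 4, 1, 6, 4, 5], .l [12, 15, 13, 13, 10, 11, 3, 10, 1, 6, 3], .l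 [0, 12, 8, 8, 12, 10, 10, 7, 10, 4, 4, 1, 4, 2, 3]]),
([p 5 1, g, s 0 2, g, p 4 3, g, s 3 0, g, p 6 4, p 2 5, g, p 7 6, g, s 1 0, g, p 0 7, g], .lo 2, [.r 1194 [1, 8, 2, 4, 5, 6, 7] [1, 1, 1, 3, 1, 1, 1, 1], .l [2, 3, 14, 12, 5, 1, 10, 3, 4, 2, 4, 2, 3], .l [3, 11, 7, 8, 10, 7, 10, 1, 4, 2, 3], .l [4, 1, 10, 6, 12, 5, 6, 2, 10, 7, 1, 6, 1], .l [4, 1, 10, 6, 12, 5, 6, 2, 10, 7, 1, 6, 1], .l [8, 1, 5, 1, 8, 2, 10, 7, 1, 6, 3, 5, 3], .l [5, 11, 5, 6, 6, 4, 5], .l [6, 3, 3, 8, 5], .l [5, 11, 5, 6, 6, 4, 5], .l [5, 9, 3, 4, 4, 2, 3], .l [7, 11, 3, 4, 4, 2, 3], .l [8, 5, 5, 8, 3], .l [7, 11, 3, 4, 4, 2, 3], .l [10, 13, 10, 11, 3, 4, 4, 2, 3], .l [6, 1, 8, 2, 8, 3, 8, 1, 6, 4, 1], .l [10, 13, 10, 11, 3, 4, 4, 2, 3], .l [12,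 17, 15, 15, 12, 13, 5, 6, 6, 4, 5], .l [15, 14, 14, 5, 12, 8, 2, 8, 10, 1, 6, 4, 5], .l [12, 17, 15, 15, 12, 13, 5, 6, 6, 4, 5], .y [0, 13, 2, 9], .l [14, 17, 13, 13, 10, 11, 3, 4, 4, 2, 3], .l [15, 12, 14, 7, 3, 5, 6, 2, 10, 7, 1, 6, 1], .l [14, 17, 13, 13, 10, 11, 3, 4, 4, 2, 3], .l [13, 12, 12, 3, 10, 12, 6, 2, 4, 1, 6, 4, 5], .l [1, 17, 14, 3, 1, 4, 11, 10, 1], .l [13, 12, 12, 3, 10, 12, 6, 2, 4, 1, 6, 4, 5]]),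
([p 5 1, g, s 0 2, g, p 4 3, g, s 3 0, g, p 6 4, p 2 5, g, p 0 6, g, s 1 0, g], .lo 11, [.l [12, 13, 10, 11, 1, 2, 4, 2, 3], .l [2, 12], .l [1, 11, 9, 10], .l [1, 4, 11, 11, 8, 9, 3, 2, 3], .l [4, 12], .l [3, 11, 7, 10], .l [5, 11, 5, 10, 1, 4, 1], .l [6, 12], .l [0, 14, 8, 6, 6, 3, 6, 2, 5], .y [4, 6, 11, 8], .l [7, 11, 3, 10, 3, 6, 1], .l [8, 12], .l [0, 14, 6, 4, 4, 1, 6, 4, 5], .l [12, 13, 8, 9, 1, 8, 3, 6, 1], .l [11, 12], .l [10, 13, 10, 10, 6, 10, 6, 1], .l [10, 11, 8, 9, 1, 8, 3, 6, 1], .l [15, 14, 5, 1, 12, 5, 6, 4, 4, 2, 4, 2, 3], .l [10, 11, 8, 8, 4, 8, 4, 7], .l [10, 11, 8, 9, 1, 8, 3, 6, 1], .l [10, 11, 8, 9, 1, 10, 5, 8, 1], .r 1195 [1, 2, 3, 4, 5, 6, 7] [1, 1, 1, 1, 1, 1, 1, 1], .l [10, 11, 8, 8, 4, 8,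 4, 9]]),
([p 4 1, g, s 0 2, g, p 3 0, g, p 5 3, p 2 4, g, p 0 5, g, s 1 0, g], .hi 4, [.l [6, 3, 8, 2, 4, 2, 3], .r 1182 [1, 2, 6, 3, 4, 5] [1, 1, 1, 1, 1, 1, 1], .l [6, 3], .l [4, 1, 1, 4, 3], .l [6, 1, 8, 2, 6, 4, 1], .r 1192 [1, 2, 6, 3, 4, 5] [1, 1, 1, 1, 1, 1, 1], .l [6, 1], .r 1196 [1, 2, 6, 3, 4, 5] [1, 1, 1, 1, 1, 1, 1], .l [4, 5], .l [6, 1], .l [9, 4, 4, 2, 3], .l [4, 8], .l [9, 4], .y [4, 9, 6], .l [11, 6, 6, 4, 5], .l [4, 10], .l [11, 6], .l [13, 8, 8, 6, 7], .l [4, 12], .l [13, 8]]),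
([p 4 1, g, s 0 2, g, p 3 0, g, p 0 3, p 2 4, g, s 1 0, g], .lo 6, [.l [7, 9, 1, 2, 4, 2, 3], .l [2, 7], .l [1, 9, 7, 5], .l [1, 4, 6, 7, 3, 2, 3], .l [4, 7], .l [3, 9, 5, 3], .y [4, 6], .l [7, 9, 1, 6, 1, 4, 1], .l [6, 7], .l [0, 10, 4, 1, 4, 2, 3], .l [5, 7, 1, 6, 1, 4, 1], .r 1197 [1, 2, 3, 4, 5] [1, 1, 1, 1, 1, 1], .l [5, 6, 4, 6, 2, 5], .l [5, 7, 1, 6, 1, 4, 1], .l [5, 7, 1, 8, 3, 6, 1], .r 1178 [1, 2, 3, 4, 5] [1, 1, 1, 1, 1, 1], .l [0, 8, 2, 8, 1, 5, 1, 4, 1]]),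
([p 3 1, g, p 2 0, g, p 0 2, p 0 3, g, s 1 0, g], .lo 5, [.r 1198 [1, 4, 2, 3] [1, 1, 1, 1, 1], .l [2, 6], .l [1, 7, 5, 4], .l [2, 4], .l [3, 7, 3, 2, 3], .l [4, 6], .l [3, 6, 4, 6, 4, 3], .r 1125 [2, 3, 4] [1, 1, 1, 3], .r 1171 [1, 2, 3, 4] [1, 1, 1, 1, 1], .l [4, 5, 0, 5], .y [0, 7, 5], .r 1125 [2, 3, 4] [1, 1, 3, 1], .r 1166 [1, 2, 3, 4] [1, 1, 1, 1, 1], .l [4, 5, 0, 7]]),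
([p 2 1, g, p 0 0, p 0 2, g, s 1 0, g], .hi 2, [.r 1129 [3, 2] [1, 1, 3], .r 1199 [1, 3, 2] [1, 1, 1, 1], .l [4, 1], .y [2], .c, .r 1154 [1, 3, 2] [1, 1, 1, 1], .l [2, 4], .l [5, 2], .r 1165 [1, 3, 2] [1, 1, 1, 1], .l [2, 6], .l [7, 4]]),
([p 1 0, g, p 0 0, p 0 1, g], .hi 0, [.r 1128 [2, 1] [1, 1, 1], .l [0, 1], .l [2, 1], .l [0, 1], .y [0, 3], .r 1200 [2, 1] [1, 1, 1], .l [0, 4], .l [5, 4]]),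
([p 3 1, s 0 2, g, s 2 0, g, p 0 3, s 0 4, g, m 4 0, g, s 1 0, g], .lo 6, [.l [3, 7, 3], .l [3, 7, 3], .l [12, 11, 3, 10, 4, 7], .l [3, 5, 1], .l [5, 7, 1], .l [5, 7, 1], .l [0, 11, 6, 2, 8], .l [12, 11, 1, 10, 6, 1], .l [2, 8, 1, 8, 6, 2, 2, 5], .l [12, 11, 1, 10, 6, 1], .y [6, 8], .l [12, 11, 1, 10, 6, 3], .l [2, 8, 1, 8, 6, 2, 2, 5], .l [12, 11, 1, 10, 6, 3], .l [10, 9, 1, 8, 4, 3], .l [10, 9, 1, 8, 4, 7], .l [0, 9, 11, 7, 4], .l [10, 9, 1, 8, 4, 7]]),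
([p 3 1, s 0 2, g, s 2 0, g, p 0 3, s 0 0, g, s 1 0, g], .hi 6, [.l [1, 5, 3], .l [3, 7, 3], .l [10, 9, 3, 8, 2, 5], .l [3, 7, 3], .l [5, 7, 1], .l [0, 9, 4, 2, 6], .l [5, 7, 1], .l [0, 7, 2, 0, 4], .y [6], .l [10, 9, 1, 8, 4, 1], .l [10, 9, 1, 8, 4, 1], .r 1202 [1, 2, 3, 4] [1, 1, 1, 1, 1], .l [8, 7, 1, 6, 2, 5], .l [8, 7, 1, 6, 2, 5], .l [0, 7, 9, 7, 4]]),
([p 1 0, g, p 6 1, s 3 2, g, p 4 3, g, p 5 4, g, p 0 5, g, p 7 6, g, p 0 7, g, m 2 0, g], .lo 9, [.l [0, 8], .l [1, 7, 1, 15, 13, 2, 5], .l [2, 10], .l [1, 4, 2, 9], .l [10, 11, 9, 11, 4, 9, 3, 11, 7, 2, 7], .l [5, 10], .l [4, 13, 10, 10, 8, 5], .l [5, 1, 6, 8, 10, 5, 8, 1, 10, 8, 3], .l [7, 10], .l [5, 1, 12, 9, 10, 4, 4, 2, 4, 1, 8, 6, 1], .l [5, 1, 12, 9, 10, 6,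 6, 2, 4, 1, 8, 6, 1], .l [9, 10], .l [5, 1, 12, 9, 10, 6, 6, 2, 4, 1, 8, 6, 1], .l [8, 9, 7, 11, 6, 9, 1, 11, 9, 4, 1], .l [8, 13, 6, 9, 1, 11, 8, 9, 2, 5, 2, 7, 4, 4, 1], .l [8, 9, 7, 7, 5, 9, 6, 6, 4, 1], .l [8, 9, 7, 9, 4, 7, 1, 11, 9, 2, 3], .l [6, 11, 6, 2, 7, 11, 8, 9, 4, 1, 5, 7, 4, 4, 1], .l [8, 9, 7, 7, 5, 7, 4, 4, 2, 5], .l [8, 9, 7, 9, 4, 7, 1, 11, 9, 2, 5], .l [8, 11, 4, 7, 1, 9, 6, 7, 2, 5, 2, 7, 4, 4, 1], .l [8, 9, 7, 7, 5, 7, 4, 4, 2, 7], .y [3, 15, 9, 7, 5], .l [8, 9, 7, 9, 4, 7, 1, 9, 7, 2, 7], .l [6, 11, 6, 2, 7, 9, 6, 11, 9, 5, 2, 7, 4, 4, 1], .l [8, 9, 7, 7, 5, 7, 4, 4, 2, 9]]),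
([p 2 1, g, p 6 2, s 4 3, g, p 5 4, g, p 0 5, g, p 7 6, g, p 0 7, g, m 3 0, g, s 1 0, g], .lo 7, [.l [1, 7, 1, 13, 11, 2, 3], .l [2, 8], .l [1, 4, 2, 7], .l [8, 11, 4, 9, 3, 11, 7, 2, 7], .l [5, 8], .l [4, 11, 8, 8, 6, 3], .l [5, 1, 10, 7, 8, 2, 4, 1, 8, 6, 1], .l [7, 8], .l [5, 1, 10, 7, 8, 2, 4, 1, 8, 6, 1], .l [6, 11, 6, 9, 1, 11, 9, 4, 1], .r 1204 [2, 3, 4, 5, 8, 6, 7] [1, 1, 1, 1, 1, 1, 1, 3], .l [6, 7, 5, 9, 6, 6, 4, 1], .l [6, 9, 4, 7, 1, 11, 9, 2, 3], .l [1, 5, 1, 15, 11, 13, 11, 11, 7, 3, 5, 0, 5], .l [6, 7, 5, 7, 4, 4, 2, 5], .l [6, 9, 4, 7, 1, 11, 9, 2, 5], .l [8, 13, 11, 11, 9, 5, 2, 7, 3, 7, 3, 0, 3], .l [6, 7, 5, 7, 4, 4, 2, 7], .y [3, 13, 7, 5], .l [6, 9, 4, 7, 1, 9, 7, 2, 7], .l [6, 7, 5, 7, 4, 5, 2, 9,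 6, 6, 1], .l [6, 7, 5, 7, 4, 4, 2, 9], .l [0, 14, 14, 6, 6, 4, 4, 2, 1], .l [6, 9, 4, 7, 1, 9, 7, 2, 9], .l [0, 14, 16, 8, 8, 6, 6, 4, 1], .l [6, 7, 5, 7, 4, 4, 2, 11]]),
([p 2 1, g, p 5 2, s 4 3, g, p 0 4, g, p 6 5, g, p 0 6, g, m 3 0, g, s 1 0, g], .lo 5, [.l [2, 6, 6, 4, 1], .l [2, 6], .l [1, 4, 2, 5], .l [7, 3, 8, 3, 6, 1, 8, 6, 1], .l [5, 6], .l [4, 9, 6, 6, 4, 1], .l [0, 14, 9, 1, 7, 7, 8, 4, 4, 2, 4, 2, 3], .r 1205 [1, 2, 3, 4, 7, 5, 6] [1, 1, 1, 1, 1, 1, 1, 1], .l [4, 9, 6, 6, 4, 1], .l [5, 1, 6, 3, 6, 1, 8, 6, 1], .l [5, 1, 6, 3, 6, 1, 8, 6, 1], .l [4, 7, 4, 4, 2, 5], .l [5, 1, 6, 3, 8, 3, 4, 2, 6, 4, 1], .l [5, 1, 6, 3, 8, 3, 4, 2, 6, 4, 1], .l [4, 7, 4, 4, 2, 7], .y [3, 11, 5], .l [4, 7, 4, 5, 2, 9, 6, 6, 1],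 .l [4, 7, 4, 5, 2, 9, 6, 6, 1], .l [4, 7, 4, 4, 2, 9], .l [0, 12, 12, 4, 4, 2, 1], .l [0, 12, 14, 6, 6, 4, 1, 9, 5, 7, 5, 5, 3], .l [0, 12, 14, 6, 6, 4, 1], .l [4, 7, 4, 4, 2, 11]]),
([p 2 1, g, p 5 2, s 4 3, g, p 0 4, g, p 0 5, g, m 3 0, g, s 1 0, g], .lo 7, [.l [1, 7, 1, 9, 7, 2, 3], .l [2, 8], .l [1, 4, 2, 7], .l [8, 9, 2, 7, 3, 7, 3, 0, 3], .l [5, 8], .l [4, 9, 6, 6, 4, 3], .l [6, 9, 4, 7, 1, 7, 5, 2, 1], .l [7, 8], .l [6, 9, 4, 4, 2, 1], .l [6, 7, 2, 5, 1, 7, 5, 0, 1], .r 1206 [1, 2, 3, 4, 5, 6] [1, 1, 1, 1, 1, 1, 1], .l [6, 7, 2, 2, 0, 5], .l [6, 7, 2, 2, 0, 5], .l [6, 7, 2, 5, 1, 5, 3, 0, 3], .l [6, 7, 2, 5, 1, 9, 5, 1, 5, 0, 1], .l [6, 7, 2, 2, 0, 7], .y [0, 11, 7, 2], .l [6, 7, 2, 5, 1, 5, 3, 0, 5], .l [0, 10,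 12, 8, 10, 6, 1], .l [6, 7, 2, 2, 0, 9]]),
([p 2 1, g, p 0 2, s 4 3, g, p 0 4, g, m 3 0, g, s 1 0, g], .lo 2, [.l [1, 7, 1, 7, 5, 2, 1], .l [2, 3], .l [1, 4, 2, 1], .l [1, 7, 3, 7, 3, 0, 3], .l [1, 7, 3, 7, 3, 0, 3], .l [1, 2, 0, 3], .l [1, 5, 1, 7, 5, 0, 1], .r 1207 [1, 2, 3, 4, 5] [1, 1, 1, 1, 1, 1], .l [1, 2, 0, 5], .l [1, 2, 0, 5], .l [1, 5, 1, 5, 3, 0, 3], .l [11, 10, 4, 1, 6, 3, 6, 2, 3], .l [1, 2, 0, 7], .y [0, 9, 2], .l [1, 5, 1, 5, 3, 0, 5], .l [9, 8, 4, 1, 8, 5, 1, 4, 1], .l [1, 2, 0, 9]]),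
([p 1 0, g, p 5 1, s 7 2, g, m 2 3, g, m 3 4, g, m 4 0, g, p 6 5, g, p 0 6, g, p 0 7, g], .hi 9, [.l [1, 7, 1, 15, 13, 2, 5], .l [1, 4, 2, 9], .l [2, 10], .l [10, 11, 9, 11, 4, 9, 3, 11, 7, 2, 7], .l [4, 13, 10, 10, 8, 5], .l [5, 10], .l [5, 1, 6, 8, 10, 5, 8, 1, 10, 8, 3], .l [5, 1, 12, 9, 10, 4, 4, 2, 4, 1, 8, 6, 1], .l [7, 10], .l [5, 1, 12, 9, 10, 6, 6, 2, 4, 1, 8, 6, 1], .l [5, 1, 12, 9, 10, 6, 6, 2, 4, 1, 8, 6, 1], .l [9, 10], .l [8, 9, 7, 11, 6, 9, 1, 11, 9, 4, 1], .l [8, 9, 7, 7, 5, 9, 6, 6, 4, 1], .l [8, 13, 6, 9, 1, 11, 8, 9, 2, 5, 2, 7, 4, 4, 1], .l [8, 9, 7, 9, 4, 7, 1, 11, 9, 2, 3], .l [8, 9, 7, 7, 5, 7, 4, 4, 2, 5], .l [6, 11, 6, 2, 7, 11, 8, 9, 4, 1, 5, 7, 4, 4, 1], .l [8, 9, 7, 7, 5, 7, 4, 4, 2, 5], .l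 [8, 9, 7, 9, 4, 7, 1, 11, 9, 2, 5], .l [8, 9, 7, 7, 5, 7, 4, 4, 2, 7], .l [8, 11, 4, 7, 1, 9, 6, 7, 2, 5, 2, 7, 4, 4, 1], .y [3, 5, 7, 9, 15], .l [8, 9, 7, 9, 4, 7, 1, 9, 7, 2, 7], .l [8, 9, 7, 7, 5, 7, 4, 4, 2, 9], .l [6, 11, 6, 2, 7, 9, 6, 11, 9, 5, 2, 7, 4, 4, 1]]),
([p 2 1, g, p 5 2, s 7 3, g, m 3 4, g, m 4 0, g, p 6 5, g, p 0 6, g, p 0 7, g, s 1 0, g], .hi 7, [.l [1, 7, 1, 13, 11, 2, 3], .l [1, 4, 2, 7], .l [2, 8], .l [8, 11, 4, 9, 3, 11, 7, 2, 7], .l [4, 11, 8, 8, 6, 3], .l [5, 8], .l [5, 1, 10, 7, 8, 2, 4, 1, 8, 6, 1], .l [5, 1, 10, 7, 8, 2, 4, 1, 8, 6, 1], .l [7, 8], .l [6, 11, 6, 9, 1, 11, 9, 4, 1], .l [6, 7, 5, 9, 6, 6, 4, 1], .r 1209 [2, 3, 4, 8, 5, 6, 7] [1, 1, 1, 1, 1, 1, 1, 3], .l [6, 9, 4, 7, 1, 11, 9,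 2, 3], .l [6, 7, 5, 7, 4, 4, 2, 5], .l [1, 5, 1, 15, 11, 13, 11, 11, 7, 3, 5, 0, 5], .l [6, 7, 5, 7, 4, 4, 2, 5], .l [6, 9, 4, 7, 1, 11, 9, 2, 5], .l [6, 7, 5, 7, 4, 4, 2, 7], .l [8, 13, 11, 11, 9, 5, 2, 7, 3, 7, 3, 0, 3], .y [3, 5, 7, 13], .l [6, 9, 4, 7, 1, 9, 7, 2, 7], .l [6, 7, 5, 7, 4, 4, 2, 9], .l [6, 7, 5, 7, 4, 5, 2, 9, 6, 6, 1], .l [6, 9, 4, 7, 1, 9, 7, 2, 9], .l [6, 7, 5, 7, 4, 4, 2, 11], .l [0, 14, 16, 8, 8, 6, 6, 4, 1]]),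
([p 2 1, g, p 4 2, s 6 3, g, m 3 0, g, p 5 4, g, p 0 5, g, p 0 6, g, s 1 0, g], .hi 5, [.l [2, 6, 6, 4, 1], .l [1, 4, 2, 5], .l [2, 6], .l [7, 3, 8, 3, 6, 1, 8, 6, 1], .l [4, 9, 6, 6, 4, 1], .l [5, 6], .l [0, 14, 9, 1, 7, 7, 8, 4, 4, 2, 4, 2, 3], .l [4, 9, 6, 6, 4, 1], .r 1210 [1, 2, 3, 7, 4, 5, 6] [1, 1, 1, 1, 1, 1, 1, 1], .l [5, 1, 6, 3, 6, 1, 8, 6, 1], .l [4, 7, 4, 4, 2, 5], .l [5, 1, 6, 3, 6, 1, 8, 6, 1], .l [4, 7, 4, 4, 2, 5], .l [5, 1, 6, 3, 8, 3, 4, 2, 6, 4, 1], .l [4, 7, 4, 4, 2, 7], .l [5, 1, 6, 3, 8, 3, 4, 2, 6, 4, 1], .y [3, 5, 11], .l [4, 7, 4, 5, 2, 9, 6, 6, 1], .l [4, 7, 4, 4, 2, 9], .l [4, 7, 4, 5, 2, 9, 6, 6, 1], .l [0, 12, 14, 6, 6, 4, 1, 9, 5, 7, 5, 5, 3], .l [4, 7, 4, 4, 2, 11], .l [0, 12, 14, 6, 6,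 4, 1]]),
([p 2 1, g, p 4 2, s 5 3, g, m 3 0, g, p 0 4, g, p 0 5, g, s 1 0, g], .lo 7, [.l [1, 7, 1, 9, 7, 2, 3], .l [2, 8], .l [1, 4, 2, 7], .l [8, 9, 2, 7, 3, 7, 3, 0, 3], .l [5, 8], .l [4, 9, 6, 6, 4, 3], .l [4, 7, 4, 4, 2, 1], .l [6, 9, 4, 7, 1, 7, 5, 2, 1], .l [7, 8], .l [6, 9, 4, 4, 2, 1], .l [6, 7, 2, 5, 1, 7, 5, 0, 1], .r 1211 [1, 2, 3, 4, 6, 5] [1, 1, 1, 1, 1, 1, 1], .l [6, 7, 2, 2, 0, 5], .l [6, 7, 2, 5, 1, 5, 3, 0, 3], .l [6, 7, 2, 5, 1, 9, 5, 1, 5, 0, 1], .l [6, 7, 2, 2, 0, 7], .y [0, 11, 7, 2], .l [6, 7, 2, 5, 1, 5, 3, 0, 5], .l [0, 10, 12, 8, 10, 6, 1], .l [6, 7, 2, 2, 0, 9]]),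
([p 2 1, g, p 0 2, s 4 3, g, m 3 0, g, p 0 4, g, s 1 0, g], .lo 2, [.l [1, 7, 1, 7, 5, 2, 1], .l [2, 3], .l [1, 4, 2, 1], .l [1, 7, 3, 7, 3, 0, 3], .l [1, 7, 3, 7, 3, 0, 3], .l [1, 2, 0, 3], .l [1, 2, 0, 3], .l [1, 5, 1, 7, 5, 0, 1], .r 1212 [1, 2, 3, 5, 4] [1, 1, 1, 1, 1, 1], .l [1, 2, 0, 5], .l [1, 5, 1, 5, 3, 0, 3], .l [11, 10, 4, 1, 6, 3, 6, 2, 3], .l [1, 2, 0, 7], .y [0, 9, 2], .l [1, 5, 1, 5, 3, 0, 5], .l [9, 8, 4, 1, 8, 5, 1, 4, 1], .l [1, 2, 0, 9]]),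
([p 3 1, s 0 2, g, p 0 3, s 0 4, g, m 4 0, g, s 1 0, g, s 2 0, g], .lo 4, [.l [3, 5, 1], .l [3, 5, 1], .l [0, 9, 6, 2, 6], .l [11, 1, 9, 9, 6, 1], .r 1208 [1, 3, 4, 5] [2, 1, 1, 1, 3], .l [10, 9, 9, 6, 1], .y [4, 6], .l [11, 1, 9, 9, 6, 3], .r 1213 [1, 3, 4, 5] [2, 1, 1, 1, 3], .l [10, 9, 9, 6, 3], .l [8, 7, 7, 4, 3], .l [0, 7, 9, 5, 2, 7], .l [0, 7, 9, 5, 2], .l [8, 7, 7, 4, 7], .l [0, 7, 9, 5, 2, 3], .l [0, 7, 11, 7, 2, 3], .l [0, 7, 11, 7, 2], .l [8, 7, 7, 4, 9]]),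
([p 3 1, s 0 2, g, p 0 3, s 0 0, g, s 1 0, g, s 2 0, g], .hi 4, [.l [1, 3, 1], .l [3, 5, 1], .l [0, 7, 4, 2, 4], .l [3, 5, 1], .l [0, 5, 2, 0, 2], .y [4], .l [9, 1, 7, 7, 4, 1], .l [8, 7, 7, 4, 1], .r 1214 [1, 2, 3, 4] [1, 1, 1, 1, 1], .l [0, 5, 7, 5, 2, 5], .l [6, 5, 5, 2, 5], .l [0, 5, 7, 5, 2], .l [0, 5, 9, 7, 2, 3], .l [6, 5, 5, 2, 7], .l [0, 5, 9, 7, 2]])]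

def d04_3 : List (List Item × Qry × List Rf) := [
([p 3 1, s 0 2, g, p 0 3, s 0 4, g, p 0 0, s 4 0, g, s 2 0, g, s 1 0, g], .hi 6, [.l [4, 6, 2, 8], .l [11, 9, 10, 6, 2, 6], .l [6, 8, 4], .l [8, 4], .l [4, 6, 4], .l [4, 6, 5], .l [11, 9, 10, 8, 4, 1], .l [6, 11, 5, 11, 1, 7, 4, 7], .l [8, 1], .y [6], .l [11, 9, 10, 8, 2, 3], .l [6, 8], .l [9, 2], .l [9, 7, 8, 6, 2, 6], .l [6, 10], .l [11, 4], .l [9, 7, 8, 6, 2, 8], .l [6, 12], .l [13, 6]]),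
([p 3 1, s 0 2, g, p 0 3, s 0 4, g, m 0 0, s 4 0, g, s 2 0, g, s 1 0, g], .lo 6, [.l [11, 9, 10, 6, 2, 6], .l [8, 4], .l [6, 8, 4], .l [11, 9, 10, 8, 4, 1], .l [8, 1], .l [6, 11, 5, 11, 1, 7, 4, 7], .y [6], .c, .l [11, 9, 10, 8, 2, 3], .l [9, 2], .l [6, 8], .l [9, 7, 8, 6, 2, 3], .l [9, 7, 8, 6, 2, 6], .l [11, 4], .l [6, 10], .l [6, 10, 10, 5, 5, 2, 4, 5], .l [9, 7, 8, 6, 2, 8], .l [13, 6], .l [6, 12]]),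
([p 3 1, s 0 2, g, p 5 0, g, p 0 3, s 0 4, g, s 0 5, s 4 0, g, s 2 0, g, s 1 0, g], .lo 6, [.l [3, 7, 3], .l [3, 7, 3], .l [8, 10, 6, 1, 7, 3], .l [3, 5, 1], .l [5, 7, 1], .l [5, 7, 1], .l [0, 14, 3, 5, 8, 2, 10, 5], .l [15, 14, 5, 9, 5, 12, 4, 7], .l [0, 6, 10, 6, 4, 7, 4, 7], .l [15, 14, 14, 9, 1], .y [6, 9], .l [6, 10, 14, 9, 9, 4, 10, 3], .l [0, 14, 11, 4, 7, 5, 9, 1], .l [15, 14, 14, 9, 4], .l [6, 10, 10, 4, 5, 1, 5, 1], .l [6, 12, 14, 7, 7, 2, 8, 3], .l [6, 8, 4, 1, 8, 10, 8, 3], .l [15, 14, 14, 9, 6], .l [6, 12, 12, 5, 5, 0, 6, 3], .l [0, 12, 14, 7, 4, 10], .l [0, 12, 3, 5, 13, 7, 4, 7], .l [13, 12, 12, 7, 12]]),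
([p 3 1, s 0 2, g, p 0 3, s 6 4, g, p 5 0, g, s 7 5, s 4 0, g, p 0 6, g, p 0 7, g, s 2 0, g, s 1 0, g], .hi 9, [.l [13, 4, 10, 11, 9, 5], .l [15, 4, 10, 13, 11, 5], .l [7, 15, 4, 9, 11, 8, 1], .l [11, 7, 10, 8, 4], .l [5, 13, 4, 9, 9, 6, 1], .l [13, 8, 14, 8, 11, 15, 9, 9, 6, 1], .l [7, 17, 10, 13, 8, 1, 6, 9, 1, 4, 2, 7], .l [15, 4, 7], .l [11, 6, 14, 8, 9, 15, 9, 13, 7, 3, 8, 3], .l [19, 18, 15, 10, 3, 8, 4, 5], .l [8, 10, 7], .l [11, 1, 14, 11, 14, 7, 13, 1, 7, 4, 9], .l [15, 6, 1], .l [15, 6, 9, 15, 2, 7, 1, 8, 6, 3], .y [4, 9, 11], .l [11, 6, 14, 10, 7, 15, 13, 13, 10, 1], .l [15, 6, 3], .l [13, 3, 14, 9, 14, 7, 13, 1, 9, 6, 9], .l [13, 4, 3], .l [13, 4, 13, 17, 15, 15, 12, 5], .l [13, 4, 13], .l [13, 4, 7, 15, 4,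 7, 4, 12, 1, 5, 6, 3], .l [13, 4, 15, 17, 13, 14, 9, 1, 7, 8, 3], .l [13, 4, 15], .l [1, 14, 8, 1, 14, 11, 3, 10, 5, 1], .l [0, 16, 10, 1, 6, 4, 13, 5, 11, 1, 9, 2], .l [13, 4, 17], .l [0, 16, 10, 1, 16, 13, 3, 12, 5, 2]]),
([p 3 1, s 0 2, g, p 0 3, s 0 4, g, p 5 0, g, s 6 5, s 4 0, g, p 0 6, g, s 2 0, g, s 1 0, g], .lo 4, [.l [3, 5, 1], .l [3, 5, 1], .l [0, 16, 5, 9, 12, 2, 12, 5], .l [5, 15, 10, 14, 11, 1, 4, 2, 6, 8, 1], .l [0, 6, 1, 12, 2, 9, 2, 9], .l [17, 16, 16, 13, 1], .l [0, 6, 1, 10, 2, 7, 2, 7], .l [4, 7, 16, 12, 12, 9, 2, 11], .l [0, 8, 3, 12, 2, 7, 2, 9], .l [17, 16, 16, 13, 3], .y [4, 9], .l [4, 10, 16, 9, 9, 6, 12, 9], .r 1219 [1, 2, 3, 4, 5, 7, 6] [1, 1, 1, 1, 1, 1, 1, 1], .l [17, 16, 16, 13, 6], .l [17,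 16, 16, 13, 8, 6, 1, 4, 2, 3], .l [0, 11, 2, 5, 11, 5, 2, 9], .l [17, 16, 16, 13, 8], .l [1, 12, 6, 1, 4, 2, 3, 7, 3, 1], .l [17, 16, 16, 13, 10, 8, 1, 4, 2, 5], .l [0, 11, 2, 5, 13, 7, 2, 3], .l [17, 16, 16, 13, 10], .l [15, 14, 14, 11, 10], .l [0, 14, 16, 5, 2, 12], .l [0, 14, 5, 9, 15, 5, 2, 7], .l [15, 14, 14, 11, 14]]),
([p 3 1, s 0 2, g, p 0 3, s 0 4, g, p 5 0, g, s 0 5, s 4 0, g, s 2 0, g, s 1 0, g], .lo 8, [.l [15, 14, 14, 9, 4, 9], .l [13, 11, 12, 8, 4, 8], .l [9, 13, 4, 12, 1, 9, 6, 8, 5], .l [15, 14, 14, 11, 6, 3], .l [13, 11, 12, 10, 6, 3], .l [7, 13, 6, 12, 1, 7, 4, 8, 1], .y [6, 8], .l [15, 14, 14, 11, 6, 1], .l [13, 11, 12, 10, 6, 1], .l [7, 13, 6, 12, 1, 7, 4, 8, 1], .c, .l [15, 14, 14, 11, 4, 5], .r 1220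 [1, 2, 3, 4, 5, 6] [1, 1, 1, 1, 1, 1, 1], .l [13, 11, 12, 10, 4, 5], .l [11, 9, 10, 8, 4, 5], .l [15, 14, 14, 11, 4, 7], .l [5, 11, 6, 11, 7, 4, 8, 1], .l [11, 9, 10, 8, 4, 8], .l [13, 12, 12, 9, 4, 7], .l [13, 12, 12, 9, 4, 11], .l [5, 11, 6, 13, 9, 4, 10, 1], .l [11, 9, 10, 8, 4, 10]]),
([p 3 1, s 0 2, g, p 0 3, s 0 4, g, s 0 5, s 4 0, g, s 2 0, g, m 5 0, g, s 1 0, g], .lo 6, [.l [3, 7, 12, 4, 9, 1], .l [3, 7, 12, 4, 9, 1], .l [0, 14, 11, 4, 9, 4, 6, 8], .l [15, 14, 14, 11, 4, 1], .l [11, 9, 10, 8, 4, 1], .l [5, 11, 6, 11, 7, 4, 8, 1], .c, .l [15, 14, 14, 11, 2, 3], .l [1, 10, 12, 7, 10, 2, 7, 1], .l [11, 9, 10, 8, 2, 3], .l [9, 7, 8, 6, 2, 3], .l [15, 14, 14, 11, 2, 5], .l [1, 8, 10, 7, 10, 2, 7, 1], .l [9, 7, 8, 6,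 2, 6], .y [6, 11], .l [15, 14, 14, 11, 2, 7], .l [1, 8, 10, 7, 10, 2, 7, 1], .l [9, 7, 8, 6, 2, 8], .l [13, 12, 12, 9, 2, 7], .l [13, 12, 12, 9, 2, 11], .l [0, 12, 14, 7, 12, 4, 9, 2], .l [9, 7, 8, 6, 2, 10]]),
([p 3 1, s 0 2, g, p 5 3, s 0 4, g, s 0 5, s 4 0, g, s 2 0, g, s 1 0, g], .lo 4, [.l [3, 5, 1], .l [3, 5, 1], .l [6, 8, 6, 1, 5, 1], .l [13, 12, 3, 7, 5, 10, 4, 5], .l [0, 4, 8, 6, 4, 5, 2, 5], .l [13, 12, 12, 9, 1], .y [4, 7], .l [4, 8, 12, 7, 7, 4, 8, 3], .l [0, 12, 9, 2, 5, 3, 7, 1], .l [13, 12, 12, 9, 4], .l [4, 8, 8, 2, 3, 1, 3, 1], .l [4, 10, 12, 5, 5, 2, 6, 3], .l [4, 6, 4, 1, 6, 8, 6, 1], .l [13, 12, 12, 9, 6], .l [4, 10, 10, 3, 3, 0, 4, 3], .l [0, 10, 12, 5, 2, 8], .l [0, 10, 3, 5, 11, 5, 2, 5], .l [11,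 10, 10, 7, 10]]),
([p 3 1, s 0 2, g, p 0 3, s 0 4, g, s 0 5, s 4 0, g, s 2 0, g, s 1 0, g, m 5 0, g], .lo 6, [.l [3, 7, 14, 6, 11, 1], .l [3, 7, 14, 6, 11, 1], .l [10, 7, 4, 13, 8, 10, 6, 6], .l [13, 12, 12, 9, 4, 1], .l [11, 9, 10, 8, 4, 1], .l [5, 11, 6, 13, 9, 4, 10, 1], .c, .l [13, 12, 12, 9, 2, 3], .l [0, 12, 14, 7, 10, 2, 7, 2], .l [11, 9, 10, 8, 2, 3], .l [9, 7, 8, 6, 2, 3], .l [13, 12, 12, 9, 2, 5], .l [0, 12, 14, 7, 12, 4, 9, 2], .l [9, 7, 8, 6, 2, 6], .l [11, 10, 10, 7, 2, 5], .l [11, 10, 10, 7, 2, 9], .l [0, 10, 12, 7, 12, 4, 9, 2], .l [9, 7, 8, 6, 2, 8], .y [6, 13], .l [11, 10, 10, 7, 2, 11], .l [0, 10, 12, 7, 12, 4, 9, 2], .l [9, 7, 8, 6, 2, 10]]),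
([p 3 1, s 0 2, g, p 0 3, s 6 4, g, s 0 5, s 4 0, g, m 5 0, g, s 2 0, g, s 0 6, g, s 1 0, g], .lo 3, [.l [11, 2, 3, 6, 1, 7, 5, 8], .l [3, 4], .l [2, 5, 2, 1], .l [0, 16, 13, 2, 7, 2, 4, 10], .l [2, 11, 2, 5, 12, 6, 0, 8], .l [2, 3, 0, 4], .l [0, 14, 11, 3, 3, 0, 10, 3], .l [2, 11, 4, 5, 12, 6, 0, 6], .l [0, 16, 1, 10, 11, 6, 1, 7, 2, 8], .l [2, 3, 0, 7], .l [2, 3, 0, 7], .l [2, 9, 2, 3, 12, 8, 0, 2], .l [17, 16, 8, 2, 3, 8, 3, 12, 8, 5], .l [2, 3, 0, 9], .l [15, 14, 9, 9, 1, 11, 9, 6], .l [2, 9, 2, 3, 12, 8, 0, 4], .l [17, 16, 9, 11, 3, 13, 9, 6], .l [2, 3, 0, 11], .l [2, 9, 2, 3, 10, 6, 0, 8], .l [17, 16, 9, 13, 5, 13, 7, 8], .l [2, 3, 0, 13], .y [0, 15, 3], .l [2, 9, 2, 3, 10, 6, 0, 10], .l [15, 14, 9, 15, 7, 3, 6,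 1], .l [2, 3, 0, 15]]),
([p 3 1, s 0 2, g, p 0 3, s 7 4, g, m 0 5, g, s 5 6, s 4 0, g, p 0 7, g, m 6 0, g, s 2 0, g, s 1 0, g], .hi 9, [.l [13, 4, 10, 11, 9, 5], .l [15, 4, 10, 13, 11, 5], .l [7, 15, 4, 9, 11, 8, 1], .l [11, 7, 10, 8, 4], .l [5, 13, 4, 9, 9, 6, 1], .l [13, 8, 14, 8, 11, 15, 9, 9, 6, 1], .l [7, 17, 10, 13, 8, 1, 6, 9, 1, 4, 2, 7], .l [15, 4, 7], .l [6, 8, 7], .l [11, 6, 14, 8, 9, 15, 9, 13, 7, 3, 8, 3], .l [19, 18, 15, 10, 3, 8, 4, 5], .l [8, 10, 7], .l [11, 1, 14, 11, 14, 7, 13, 1, 7, 4, 9], .l [15, 6, 1], .l [15, 6, 9, 15, 2, 7, 1, 8, 6, 3], .y [4, 9, 11], .l [11, 6, 14, 10, 7, 15, 13, 13, 10, 1], .l [15, 6, 3], .l [13, 3, 14, 9, 14, 7, 13, 1, 9, 6, 9], .l [13, 4, 13, 17, 15, 15, 12, 5], .l [13, 4, 13],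 .l [13, 4, 7, 15, 4, 7, 4, 12, 1, 5, 6, 3], .l [13, 4, 15, 17, 13, 14, 9, 1, 7, 8, 3], .l [13, 4, 15], .l [1, 14, 8, 1, 14, 11, 3, 10, 5, 1], .l [0, 16, 10, 1, 6, 4, 13, 5, 11, 1, 9, 2], .l [13, 4, 17], .l [0, 16, 10, 1, 16, 13, 3, 12, 5, 2]]),
([p 3 1, s 0 2, g, p 0 3, s 6 4, g, s 0 5, s 4 0, g, p 0 6, g, m 5 0, g, s 2 0, g, s 1 0, g], .lo 6, [.l [3, 7, 12, 4, 9, 1], .l [3, 7, 12, 4, 9, 1], .l [0, 16, 13, 4, 9, 4, 6, 10], .l [17, 16, 16, 13, 4, 1], .l [15, 13, 14, 12, 4, 1], .r 1226 [1, 2, 3, 4, 7, 5, 6] [1, 1, 1, 1, 1, 1, 1, 1], .c, .l [17, 16, 16, 13, 2, 3], .l [0, 9, 2, 3, 9, 5, 2, 9], .l [15, 13, 14, 12, 2, 3], .l [17, 16, 16, 13, 2, 5], .l [11, 4, 12, 7, 13, 8, 12, 8, 6, 9], .l [15, 13, 14, 12, 2, 5], .y [6, 11],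 .l [17, 16, 16, 13, 2, 7], .l [11, 4, 12, 7, 13, 8, 12, 8, 6, 9], .l [15, 13, 14, 12, 2, 7], .l [13, 11, 12, 10, 2, 7], .l [17, 16, 16, 13, 2, 9], .l [1, 12, 14, 7, 12, 4, 9, 1], .l [13, 11, 12, 10, 2, 10], .l [15, 14, 14, 11, 2, 9], .l [15, 14, 14, 11, 2, 13], .l [0, 14, 16, 7, 12, 4, 9, 2], .l [13, 11, 12, 10, 2, 12]]),
([p 3 1, s 0 2, g, p 0 3, s 5 4, g, s 0 5, g, s 0 6, s 4 0, g, m 6 0, g, s 2 0, g, s 1 0, g], .lo 3, [.l [13, 2, 5, 8, 1, 9, 7, 3], .l [3, 4], .l [2, 5, 2, 1], .l [0, 16, 13, 2, 9, 2, 6, 10], .l [2, 8, 3, 11, 2, 6, 0, 6], .l [2, 3, 0, 4], .l [0, 16, 13, 4, 9, 2, 4, 10], .l [13, 2, 7, 8, 4, 11, 2, 10, 6, 2, 7], .l [2, 3, 0, 6], .l [15, 14, 14, 11, 1, 10, 5, 8, 2, 5], .l [2, 6, 1, 11, 4, 8, 0, 4], .l [5,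 11, 8, 11, 5, 2, 6, 3], .l [2, 3, 0, 9], .l [2, 3, 0, 9], .l [2, 6, 1, 9, 2, 6, 0, 6], .l [17, 16, 10, 2, 5, 10, 3, 12, 8, 3], .l [2, 3, 0, 11], .l [15, 14, 11, 11, 1, 11, 9, 1], .l [2, 6, 1, 9, 2, 6, 0, 8], .l [17, 16, 11, 13, 3, 13, 9, 1], .l [2, 3, 0, 13], .y [0, 15, 3], .l [2, 6, 1, 9, 2, 6, 0, 10], .l [12, 17, 7, 10, 1, 13, 2, 10, 4, 4, 1], .l [2, 3, 0, 15]]),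
([p 3 1, s 0 2, g, p 0 3, s 0 4, g, s 0 5, s 4 0, g, m 5 0, g, s 2 0, g, s 1 0, g], .lo 4, [.l [3, 5, 1], .l [3, 5, 1], .l [0, 14, 5, 7, 10, 2, 10, 3], .r 1228 [1, 2, 3, 4, 6, 5] [1, 1, 1, 1, 1, 1, 1], .l [0, 6, 1, 10, 2, 7, 2, 7], .l [15, 14, 14, 11, 1], .y [4, 7], .l [4, 8, 14, 9, 9, 6, 10, 7], .r 1227 [1, 2, 3, 4, 5, 6] [1, 1, 1, 1, 1, 1, 1], .l [15, 14, 14, 11, 4], .l [13, 12, 12, 9, 4], .l [9, 2, 3, 11, 4, 10, 8, 4, 7], .l [0, 9, 2, 3, 9, 5, 2, 7], .l [15, 14, 14, 11, 6], .l [7, 2, 10, 4, 9, 5, 2, 6], .r 1225 [1, 2, 3, 4, 5, 6] [1, 1, 1, 1, 1, 1, 1], .l [0, 9, 2, 3, 11, 7, 2, 3], .l [15, 14, 14, 11, 8], .l [13, 12, 12, 9, 8], .l [0, 12, 14, 5, 2, 10], .l [0, 12, 5, 7, 13, 5, 2, 7], .l [13, 12, 12, 9, 12]]),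
([p 3 1, s 0 2, g, p 0 3, s 0 4, g, s 0 0, s 4 0, g, s 2 0, g, s 1 0, g], .hi 6, [.l [11, 10, 10, 7, 2, 7], .l [13, 12, 12, 7, 2, 7], .r 1218 [1, 2, 3, 4, 5] [1, 1, 1, 1, 1, 1], .l [11, 9, 10, 6, 2, 6], .r 1223 [1, 2, 3, 4, 5] [1, 1, 1, 1, 1], .l [9, 7, 8, 6, 2, 1], .l [13, 12, 12, 9, 4, 1], .r 1221 [1, 2, 3, 4, 5] [1, 1, 1, 1, 1, 1], .l [11, 9, 10, 8, 4, 1], .y [6], .l [13, 12, 12, 9, 2, 3], .l [11, 9, 10, 8, 2, 3], .r 1229 [1, 2, 3, 4, 5] [1, 1, 1, 1, 1, 1], .l [13, 12, 12, 9, 2, 5], .l [9, 7, 8, 6, 2, 6], .r 1222 [1, 2, 3, 4, 5] [1, 1, 1, 1, 1, 1], .l [11, 10, 10, 7, 2, 9], .l [9, 7, 8, 6, 2, 8], .r 1224 [1, 2, 3, 4, 5] [1, 1, 1, 1, 1, 1]]),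
([p 3 1, s 0 2, g, p 0 3, s 0 4, g, s 4 0, g, s 2 0, g, s 1 0, g], .bot 5, [.c, .r 1230 [1, 2, 3, 4] [1, 1, 1, 1, 1], .r 1216 [1, 2, 3, 4] [1, 1, 1, 1, 1], .r 1217 [1, 2, 3, 4] [1, 1, 1, 1, 1]]),
([p 3 1, s 5 2, g, p 0 3, s 0 4, g, p 0 5, g, s 2 0, g, m 4 0, g, s 1 0, g], .lo 4, [.l [3, 5, 1], .l [3, 5, 1], .l [0, 13, 10, 2, 10], .l [8, 6, 7, 5, 1, 6, 2, 7], .l [1, 9, 11, 5, 1, 6, 1, 6, 2, 5], .l [8, 6, 7, 5, 1], .l [4, 7, 4, 7, 9, 7, 3, 1, 2, 5], .l [0, 8, 3, 11, 7, 2, 7], .l [6, 4, 5, 3, 4], .l [1, 7, 9, 5, 1, 4, 1, 4, 2, 3], .l [6, 4, 5, 3, 6, 1, 2, 7], .l [0, 10, 5, 11, 5, 2, 7], .l [6, 4, 5, 3, 6], .y [4, 10], .l [1, 7, 11, 7, 1, 6, 1, 6, 2, 5], .l [0, 10, 5, 11, 5, 2, 7], .l [6, 4, 5, 3, 8], .l [6, 4, 5, 3, 8, 8,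 2, 3], .l [0, 11, 13, 5, 2, 7], .l [0, 11, 13, 5, 2], .l [6, 4, 5, 3, 10]]),
([p 3 1, s 5 2, g, p 0 3, s 0 4, g, s 2 0, g, p 0 5, g, m 4 0, g, s 1 0, g], .lo 4, [.l [3, 5, 1], .l [3, 5, 1], .l [0, 13, 10, 2, 10], .l [8, 6, 7, 5, 1, 6, 2, 7], .l [8, 6, 9, 2, 10, 6, 1, 4, 2, 5], .l [8, 6, 7, 5, 1, 6, 2, 7], .l [6, 4, 5, 3, 1, 4, 2, 5], .l [6, 4, 9, 4, 10, 8, 3, 6, 2, 5], .l [0, 13, 7, 10, 2, 6, 3, 4, 6, 3], .l [10, 8, 9, 7, 3], .l [6, 4, 7, 2, 10, 3, 4, 7], .l [0, 10, 5, 11, 5, 2, 5], .l [8, 6, 7, 5, 6], .y [4, 10], .l [4, 11, 5, 6, 10, 8, 6, 7], .l [0, 10, 5, 11, 5, 2, 5], .l [8, 6, 7, 5, 8], .l [8, 6, 7, 5, 8, 8, 4, 1], .l [0, 11, 13, 5, 2, 5], .l [0, 11, 13, 5, 2], .l [8, 6, 7, 5, 10]]),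
([p 3 1, s 5 2, g, p 0 3, s 0 4, g, s 2 0, g, m 4 0, g, p 0 5, g, s 1 0, g], .lo 4, [.l [3, 5, 1], .l [3, 5, 1], .l [0, 13, 10, 2, 10], .l [8, 6, 7, 5, 1, 8, 4, 7], .l [1, 7, 9, 5, 1, 6, 1, 6, 2, 5], .l [8, 6, 7, 5, 1, 8, 4, 7], .l [6, 4, 5, 3, 1, 6, 4, 5], .l [1, 5, 7, 5, 1, 6, 1, 6, 2, 5], .l [1, 5, 7, 5, 1, 6, 1, 6, 2, 5], .l [12, 10, 11, 9, 3], .y [4, 8], .l [1, 5, 9, 7, 1, 6, 1, 6, 2, 5], .l [1, 5, 7, 5, 1, 6, 1, 6, 2, 5], .l [12, 10, 11, 9, 5], .l [4, 11, 5, 6, 10, 6, 4, 7], .l [0, 13, 7, 10, 2, 6, 3, 4, 6, 3], .l [10, 8, 9, 7, 8], .l [10, 8, 9, 7, 8, 8, 6, 3], .l [0, 11, 13, 5, 2, 5], .l [0, 11, 13, 5, 2], .l [10, 8, 9, 7, 10]]),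
([p 3 1, s 0 2, g, p 0 3, s 0 4, g, s 2 0, g, m 4 0, g, s 1 0, g], .lo 1, [.l [1, 7, 9, 7, 3, 1, 2, 5], .l [1, 7, 9, 7, 3, 1, 2, 5], .l [2, 5, 2, 2, 9], .l [1, 5, 9, 7, 1, 8, 6, 1], .r 1232 [1, 2, 3, 4, 5] [1, 1, 1, 1, 1, 1], .l [12, 11, 4], .y [1, 6], .l [1, 7, 9, 5, 1, 8, 6, 3], .r 1233 [1, 2, 3, 4, 5] [1, 1, 1, 1, 1, 1], .l [12, 11, 6], .l [10, 9, 6], .l [12, 11, 8, 3, 6, 8, 6, 1], .r 1234 [1, 2, 3, 4, 5] [1, 1, 1, 1, 1, 1], .l [12, 11, 8], .l [10, 9, 8], .l [0, 9, 3, 6, 9, 2, 6, 1], .l [0, 9, 3, 6, 9, 2, 6, 1], .l [10, 9, 10]]),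
([p 3 1, s 0 2, g, p 0 3, s 4 0, g, m 0 0, s 0 4, g, s 2 0, g, s 1 0, g], .lo 6, [.l [11, 9, 10, 6, 2, 6], .l [8, 4], .l [6, 8, 4], .l [4, 6, 5], .l [11, 9, 10, 8, 4, 1], .l [8, 1], .l [6, 11, 5, 11, 1, 7, 4, 7], .y [6], .l [11, 9, 10, 8, 2, 3], .l [9, 2], .l [6, 8], .l [9, 7, 8, 6, 2, 3], .l [9, 7, 8, 6, 2, 6], .l [11, 4], .l [6, 10], .l [6, 10, 10, 5, 5, 2, 4, 5], .l [9, 7, 8, 6, 2, 8], .l [13, 6], .l [6, 12]]),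
([p 3 1, s 0 2, g, p 0 3, s 4 0, g, p 0 0, s 0 4, g, s 2 0, g, s 1 0, g], .hi 6, [.l [4, 6, 2, 8], .l [11, 9, 10, 6, 2, 6], .l [6, 8, 4], .l [8, 4], .l [4, 6, 4], .l [11, 9, 10, 8, 4, 1], .l [6, 11, 5, 11, 1, 7, 4, 7], .l [8, 1], .y [6], .c, .l [11, 9, 10, 8, 2, 3], .l [6, 8], .l [9, 2], .l [9, 7, 8, 6, 2, 6], .l [6, 10], .l [11, 4], .l [9, 7, 8, 6, 2, 8], .l [6, 12], .l [13, 6]]),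
([p 3 1, s 0 2, g, p 0 3, s 6 4, g, p 5 0, g, s 7 5, s 0 6, g, m 4 0, g, p 0 7, g, s 2 0, g, s 1 0, g], .lo 9, [.l [15, 4, 10, 13, 11, 7], .l [11, 7, 10, 8, 4], .l [7, 15, 4, 9, 11, 8, 1], .l [13, 8, 14, 8, 11, 15, 9, 9, 6, 1], .l [15, 4, 7], .l [7, 17, 10, 13, 8, 1, 6, 9, 1, 4, 2, 7], .l [6, 8, 7], .l [11, 6, 14, 8, 9, 15, 9, 13, 7, 3, 8, 3], .l [8, 10, 7], .l [19, 18, 15, 10, 3, 8, 4, 5], .l [11, 1, 14, 11, 14, 7, 13, 1, 7, 4, 9], .l [15, 6, 9, 15, 2, 7, 1, 8, 6, 3], .l [15, 6, 1], .y [4, 11, 9], .l [11, 6, 14, 10, 7, 15, 13, 13, 10, 1], .l [13, 3, 14, 9, 14, 7, 13, 1, 9, 6, 9], .l [15, 6, 3], .l [13, 4, 13, 17, 15, 15, 12, 7], .l [13, 4, 7, 15, 4, 7, 4, 12, 1, 5, 6, 3], .l [13, 4, 13], .l [13, 4, 13, 13, 10, 11, 9,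 7], .l [13, 4, 15, 17, 13, 14, 9, 1, 7, 8, 5], .l [1, 14, 8, 1, 14, 11, 3, 10, 5, 1], .l [13, 4, 15], .l [13, 4, 15, 15, 11, 12], .l [0, 16, 10, 1, 6, 4, 13, 5, 11, 1, 9, 2], .l [0, 16, 10, 1, 16, 13, 3, 12, 5, 2], .l [13, 4, 17]]),
([p 3 1, s 0 2, g, p 0 3, s 6 4, g, p 5 0, g, s 0 5, s 0 6, g, m 4 0, g, s 2 0, g, s 1 0, g], .lo 8, [.l [17, 16, 16, 11, 4, 11], .l [15, 13, 14, 10, 4, 10], .l [0, 16, 13, 6, 6, 4, 8, 6, 10, 1], .l [17, 16, 16, 13, 6, 3], .l [15, 13, 14, 12, 6, 3], .l [7, 15, 8, 14, 1, 9, 6, 10, 1], .y [6, 8], .l [17, 16, 16, 13, 6, 1], .l [15, 13, 14, 12, 6, 1], .l [7, 15, 8, 14, 1, 9, 6, 10, 1], .l [17, 16, 16, 13, 4, 5], .l [0, 11, 2, 5, 11, 5, 2, 9], .l [15, 13, 14, 12, 4, 5], .l [13, 11, 12, 10, 4, 5],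 .l [17, 16, 16, 13, 4, 7], .r 1238 [1, 2, 3, 4, 5, 6, 7] [1, 1, 1, 1, 1, 1, 1, 1], .l [15, 13, 14, 12, 4, 7], .l [13, 11, 12, 10, 4, 7], .l [17, 16, 16, 13, 4, 9], .l [5, 13, 8, 13, 9, 6, 10, 1], .l [13, 11, 12, 10, 4, 10], .l [8, 14, 14, 7, 11, 6, 1, 1, 6, 1], .l [15, 14, 14, 11, 4, 13], .l [0, 14, 16, 9, 9, 7, 11, 9, 2, 9], .l [13, 11, 12, 10, 4, 12]]),
([p 3 1, s 0 2, g, p 0 3, s 5 0, g, s 0 4, s 0 5, g, s 2 0, g, m 4 0, g, s 1 0, g], .lo 6, [.l [3, 7, 12, 4, 9, 1], .l [3, 7, 12, 4, 9, 1], .l [0, 14, 11, 4, 9, 4, 6, 8], .l [9, 7, 8, 6, 2, 1], .l [15, 14, 14, 11, 4, 1], .l [11, 9, 10, 8, 4, 1], .l [5, 11, 6, 11, 7, 4, 8, 1], .l [15, 14, 14, 11, 2, 3], .l [1, 10, 12, 7, 10, 2, 7, 1], .l [11, 9, 10, 8, 2, 3], .l [9, 7,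 8, 6, 2, 3], .l [15, 14, 14, 11, 2, 5], .l [1, 8, 10, 7, 10, 2, 7, 1], .l [9, 7, 8, 6, 2, 6], .y [6, 11], .l [15, 14, 14, 11, 2, 7], .l [1, 8, 10, 7, 10, 2, 7, 1], .l [9, 7, 8, 6, 2, 8], .l [13, 12, 12, 9, 2, 7], .l [13, 12, 12, 9, 2, 11], .l [0, 12, 14, 7, 12, 4, 9, 2], .l [9, 7, 8, 6, 2, 10]]),
([p 3 1, s 0 2, g, p 0 3, s 7 4, g, m 0 5, g, s 5 6, s 0 7, g, m 4 0, g, m 6 0, g, s 2 0, g, s 1 0, g], .lo 9, [.l [15, 4, 10, 13, 11, 7], .l [11, 7, 10, 8, 4], .l [7, 15, 4, 9, 11, 8, 1], .l [13, 8, 14, 8, 11, 15, 9, 9, 6, 1], .l [15, 4, 7], .l [7, 17, 10, 13, 8, 1, 6, 9, 1, 4, 2, 7], .l [11, 6, 14, 8, 9, 15, 9, 13, 7, 3, 8, 3], .l [8, 10, 7], .l [19, 18, 15, 10, 3, 8, 4, 5], .l [11, 1, 14, 11, 14, 7, 13, 1, 7, 4, 9], .l [15,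 6, 9, 15, 2, 7, 1, 8, 6, 3], .l [15, 6, 1], .y [4, 11, 9], .l [11, 6, 14, 10, 7, 15, 13, 13, 10, 1], .l [13, 3, 14, 9, 14, 7, 13, 1, 9, 6, 9], .l [15, 6, 3], .l [13, 4, 3], .l [13, 4, 13, 17, 15, 15, 12, 7], .l [13, 4, 7, 15, 4, 7, 4, 12, 1, 5, 6, 3], .l [13, 4, 13], .l [13, 4, 13, 13, 10, 11, 9, 7], .l [13, 4, 15, 17, 13, 14, 9, 1, 7, 8, 5], .l [1, 14, 8, 1, 14, 11, 3, 10, 5, 1], .l [13, 4, 15], .l [13, 4, 15, 15, 11, 12], .l [0, 16, 10, 1, 6, 4, 13, 5, 11, 1, 9, 2], .l [0, 16, 10, 1, 16, 13, 3, 12, 5, 2], .l [13, 4, 17]]),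
([p 3 1, s 0 2, g, p 0 3, s 6 4, g, s 0 5, s 0 6, g, m 4 0, g, m 5 0, g, s 2 0, g, s 1 0, g], .lo 6, [.l [3, 7, 12, 4, 9, 1], .l [3, 7, 12, 4, 9, 1], .l [0, 16, 13, 4, 9, 4, 6, 10], .l [17, 16, 16, 13, 4, 1], .l [15, 13, 14, 12, 4, 1], .r 1241 [1, 2, 3, 4, 7, 5, 6] [1, 1, 1, 1, 1, 1, 1, 1], .l [17, 16, 16, 13, 2, 3], .l [0, 9, 2, 3, 9, 5, 2, 9], .l [15, 13, 14, 12, 2, 3], .l [13, 11, 12, 10, 2, 3], .l [17, 16, 16, 13, 2, 5], .l [11, 4, 12, 7, 13, 8, 12, 8, 6, 9], .l [15, 13, 14, 12, 2, 5], .y [6, 11], .l [17, 16, 16, 13, 2, 7], .l [11, 4, 12, 7, 13, 8, 12, 8, 6, 9], .l [15, 13, 14, 12, 2, 7], .l [13, 11, 12, 10, 2, 7], .l [17, 16, 16, 13, 2, 9], .l [1, 12, 14, 7, 12, 4, 9, 1], .l [13, 11, 12, 10, 2, 10], .l [15, 14, 14,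 11, 2, 9], .l [15, 14, 14, 11, 2, 13], .l [0, 14, 16, 7, 12, 4, 9, 2], .l [13, 11, 12, 10, 2, 12]]),
([p 3 1, s 0 2, g, p 0 3, s 5 4, g, s 0 0, s 0 5, g, m 4 0, g, s 2 0, g, s 1 0, g], .hi 6, [.l [13, 12, 12, 9, 2, 9], .l [15, 14, 14, 9, 2, 9], .l [0, 14, 11, 4, 7, 5, 9, 1], .l [13, 11, 12, 8, 2, 8], .l [0, 12, 9, 2, 5, 3, 7, 1], .l [15, 14, 14, 11, 4, 1], .r 1239 [1, 2, 3, 4, 6, 5] [1, 1, 1, 1, 1, 1, 1], .l [13, 11, 12, 10, 4, 1], .y [6], .c, .l [15, 14, 14, 11, 2, 3], .l [13, 11, 12, 10, 2, 3], .l [0, 9, 2, 3, 9, 5, 2, 7], .l [15, 14, 14, 11, 2, 5], .l [13, 11, 12, 10, 2, 5], .r 1242 [1, 2, 3, 4, 6, 5] [1, 1, 1, 1, 1, 1, 1], .l [15, 14, 14, 11, 2, 7], .l [11, 9, 10, 8, 2, 8], .r 1240 [1, 2, 3, 6, 5] [1, 1, 3, 1, 1,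 1], .l [13, 12, 12, 9, 2, 11], .l [11, 9, 10, 8, 2, 10], .l [0, 12, 14, 7, 10, 8, 2, 8]]),
([p 3 1, s 0 2, g, p 0 3, s 5 4, g, s 0 5, g, m 4 0, g, s 2 0, g, s 1 0, g], .bot 5, [.c, .r 1243 [1, 2, 3, 4, 5] [1, 1, 1, 1, 1, 1], .r 1237 [1, 2, 3, 5] [1, 1, 3, 1, 1], .r 1236 [1, 2, 3, 5] [1, 1, 3, 1, 1]]),
([p 3 1, s 0 2, g, p 0 3, s 4 0, g, s 2 0, g, m 0 0, s 0 4, g, s 1 0, g], .lo 8, [.l [8, 6, 7, 3, 7, 1], .l [10, 6], .l [6, 10, 6], .l [4, 8, 7], .l [8, 6, 7, 5, 7, 4], .l [10, 3], .l [7, 1, 5, 6, 3, 7, 4, 7], .l [11, 10, 4, 6, 1, 8, 4, 1], .l [6, 4, 5, 3, 7, 1], .l [10, 1], .l [13, 12, 4, 6, 10, 5, 2, 7], .y [8], .l [6, 4, 5, 3, 5, 6], .l [11, 2], .l [8, 10], .l [6, 4, 5, 3, 5, 6], .l [6, 4, 5, 3, 5, 8], .l [13, 4], .l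 [8, 12]]),
([p 3 1, s 0 2, g, p 0 3, s 4 0, g, s 2 0, g, p 0 0, s 0 4, g, s 1 0, g], .hi 8, [.l [4, 8, 4, 8], .l [8, 6, 7, 3, 7, 1], .l [6, 10, 6], .l [10, 6], .l [4, 8, 6], .l [8, 6, 7, 5, 7, 4], .l [7, 1, 5, 6, 3, 7, 4, 7], .l [10, 3], .l [6, 4, 5, 3, 7, 1], .l [13, 12, 4, 6, 10, 5, 2, 7], .l [10, 1], .y [8], .c, .l [6, 4, 5, 3, 5, 6], .l [8, 10], .l [11, 2], .l [6, 4, 5, 3, 5, 8], .l [8, 12], .l [13, 4]]),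
([p 3 1, s 4 2, g, p 0 3, s 6 0, g, s 0 4, g, s 2 0, g, p 5 0, g, s 0 5, s 0 6, g, s 1 0, g], .lo 12, [.l [17, 16, 16, 11, 8, 11], .l [17, 16, 16, 11, 8, 11], .l [8, 6, 7, 3, 11, 5], .l [6, 4, 5, 3, 9, 8], .l [17, 16, 16, 13, 10, 7], .l [8, 6, 7, 5, 11, 8], .l [17, 16, 6, 1, 10, 13, 5, 2, 9], .l [17, 16, 16, 13, 10, 5], .l [6, 4, 5, 3, 11, 5], .l [17, 16, 8, 1, 10, 13, 7, 4, 9], .l [6, 4, 5, 3, 9, 3, 3, 4, 7], .l [17, 16, 16, 13, 10, 3], .l [6, 4, 5, 3, 11, 3], .l [1, 7, 16, 9, 13, 9, 1, 9, 7, 4, 1], .y [10, 12], .l [17, 16, 16, 13, 10, 1], .l [6, 4, 5, 3, 11, 1], .l [1, 7, 16, 9, 13, 9, 1, 9, 7, 4, 1], .l [17, 16, 16, 13, 8, 9], .l [1, 5, 14, 2, 11, 1], .l [6, 4, 5, 3, 9, 10], .l [15, 14, 14, 11, 8, 9], .l [15, 14, 14,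 11, 8, 13], .l [1, 5, 16, 4, 13, 1], .l [6, 4, 5, 3, 9, 12]]),
([p 3 1, s 4 2, g, p 0 3, s 5 0, g, s 0 4, g, s 2 0, g, s 0 0, s 0 5, g, s 1 0, g], .hi 10, [.l [15, 14, 14, 9, 6, 9], .l [8, 6, 7, 3, 9, 3], .l [15, 14, 14, 9, 6, 9], .l [6, 4, 5, 3, 7, 3], .l [15, 14, 14, 11, 8, 5], .l [1, 9, 14, 5, 11, 1, 7, 4, 1], .l [8, 6, 7, 5, 9, 6], .l [8, 6, 7, 5, 7, 4, 4, 2, 5], .l [15, 14, 14, 11, 8, 3], .l [15, 14, 8, 3, 6, 11, 9, 6, 3], .l [6, 4, 5, 3, 9, 3], .l [15, 14, 14, 11, 8, 1], .r 1247 [1, 2, 3, 4, 6, 5] [1, 1, 1, 1, 1, 1, 1], .l [6, 4, 5, 3, 9, 1], .y [10], .c, .l [15, 14, 14, 11, 6, 7], .l [6, 4, 5, 3, 7, 8], .l [1, 5, 12, 2, 9, 1], .l [13, 12, 12, 9, 6, 11], .l [6, 4, 5, 3, 7, 10], .l [1, 5, 14, 4, 11, 1]]),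
([p 3 1, s 4 2, g, p 0 3, s 6 0, g, s 2 0, g, s 0 4, g, p 5 0, g, s 0 5, s 0 6, g, s 1 0, g], .lo 12, [.l [17, 16, 16, 11, 8, 11], .l [17, 16, 16, 11, 8, 11], .l [8, 6, 7, 3, 11, 5], .l [6, 4, 5, 3, 9, 8], .l [17, 16, 16, 13, 10, 7], .l [8, 6, 7, 5, 11, 8], .l [17, 16, 8, 3, 10, 13, 7, 4, 9], .l [8, 6, 7, 5, 9, 6, 6, 4, 7], .l [17, 16, 16, 13, 10, 5], .l [6, 4, 5, 3, 11, 5], .l [17, 16, 8, 1, 10, 13, 7, 4, 9], .l [17, 16, 16, 13, 10, 3], .l [6, 4, 5, 3, 11, 3], .l [1, 7, 16, 9, 13, 9, 1, 9, 7, 4, 1], .y [10, 12], .l [17, 16, 16, 13, 10, 1], .l [6, 4, 5, 3, 11, 1], .l [1, 7, 16, 9, 13, 9, 1, 9, 7, 4, 1], .l [17, 16, 16, 13, 8, 9], .l [1, 7, 14, 2, 9, 1], .l [6, 4, 5, 3, 9, 10], .l [15, 14, 14, 11, 8, 9], .l [15, 14, 14,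 11, 8, 13], .l [1, 7, 16, 4, 11, 1], .l [6, 4, 5, 3, 9, 12]]),
([p 3 1, s 4 2, g, p 0 3, s 5 0, g, s 2 0, g, s 0 4, g, s 0 0, s 0 5, g, s 1 0, g], .hi 10, [.l [15, 14, 14, 9, 6, 9], .l [8, 6, 7, 3, 9, 3], .l [15, 14, 14, 9, 6, 9], .l [6, 4, 5, 3, 7, 3], .l [15, 14, 14, 11, 8, 5], .l [1, 9, 14, 5, 11, 1, 7, 4, 1], .l [8, 6, 7, 5, 9, 6], .l [15, 14, 14, 11, 8, 3], .l [15, 14, 8, 3, 6, 11, 9, 6, 3], .l [6, 4, 5, 3, 9, 3], .l [6, 4, 5, 3, 7, 1, 1, 2, 5], .l [15, 14, 14, 11, 8, 1], .r 1249 [1, 2, 3, 4, 6, 5] [1, 1, 1, 1, 1, 1, 1], .l [6, 4, 5, 3, 9, 1], .y [10], .c, .l [15, 14, 14, 11, 6, 7], .l [6, 4, 5, 3, 7, 8], .l [1, 7, 12, 2, 7, 1], .l [13, 12, 12, 9, 6, 11], .l [6, 4, 5, 3, 7, 10], .l [1, 7, 14, 4, 9, 1]]),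
([p 3 1, s 0 2, g, p 0 3, s 5 4, g, m 4 0, g, s 2 0, g, s 0 0, s 0 5, g, s 1 0, g], .lo 1, [.l [15, 14, 1, 13, 9, 6], .l [10, 8, 9, 5, 9, 2, 4, 9], .l [2, 5, 2, 2, 12], .l [4, 12, 6, 8, 12, 6, 4, 9], .l [6, 4, 5, 3, 9, 2, 6, 9], .l [15, 14, 4], .l [13, 12, 4], .r 1248 [1, 2, 3, 6, 5] [1, 3, 1, 1, 1, 1], .l [1, 9, 12, 6, 1, 7, 1, 7, 2, 6], .l [15, 14, 6], .y [1, 8], .r 1250 [1, 2, 3, 6, 5] [1, 3, 1, 1, 1, 1], .l [8, 6, 9, 2, 11, 1, 4, 9], .l [8, 6, 7, 5, 9, 2, 4, 9], .l [4, 10, 6, 10, 1, 7], .l [6, 1, 12, 7, 11, 6, 4, 9], .l [1, 7, 10, 6, 1, 7, 1, 7, 2, 6], .l [15, 14, 11], .l [13, 12, 11], .l [14, 1, 12, 12, 9, 6], .l [0, 12, 4, 9, 12, 2, 9, 3], .l [13, 12, 13]]),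
([p 3 1, s 0 2, g, p 0 3, s 5 4, g, m 4 0, g, s 2 0, g, s 0 5, g, s 1 0, g], .bot 9, [.l [4, 8, 4, 8, 1, 5], .r 1251 [1, 2, 3, 4, 5] [1, 1, 1, 1, 1, 1], .r 1246 [1, 2, 3, 5] [1, 3, 1, 1, 1], .r 1245 [1, 2, 3, 5] [1, 3, 1, 1, 1]]),
([p 3 1, s 0 2, g, p 0 3, s 0 4, g, m 4 0, g, s 2 0, g, s 1 0, g], .lo 4, [.l [3, 5, 1], .l [3, 5, 1], .l [0, 11, 8, 2, 8], .r 1244 [1, 2, 3, 4, 5] [1, 1, 1, 1, 1, 1], .r 1208 [1, 3, 4, 5] [2, 1, 1, 3, 1], .l [12, 11, 11, 8, 1], .y [4, 6], .l [6, 1, 9, 4, 8, 6, 4, 5], .r 1213 [1, 3, 4, 5] [2, 1, 1, 3, 1], .l [12, 11, 11, 8, 3], .l [6, 1, 7, 2, 6, 4, 2, 3], .r 1252 [1, 2, 3, 4, 5] [1, 1, 1, 1, 1, 1], .r 1213 [1, 3, 4, 5] [2, 1, 3, 1, 1], .l [12, 11, 11, 8, 5], .l [10, 9, 9, 6, 5], .l [0, 9, 11,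 5, 2, 7], .l [0, 9, 11, 5, 2], .l [10, 9, 9, 6, 9]]),
([p 3 1, s 0 2, g, p 0 3, s 0 0, g, s 2 0, g, s 1 0, g], .hi 4, [.l [1, 3, 1], .l [3, 5, 1], .l [0, 9, 6, 2, 6], .l [3, 5, 1], .l [0, 7, 4, 0, 4], .y [4], .r 1231 [1, 2, 3, 4] [1, 1, 1, 1, 1], .l [10, 9, 9, 6, 1], .r 1253 [1, 2, 3, 4] [1, 1, 1, 1, 1], .r 453 [2, 3, 4] [1, 1, 1, 3], .l [10, 9, 9, 6, 3], .r 1235 [1, 2, 3, 4] [1, 1, 1, 1, 1], .l [0, 7, 9, 5, 2, 5], .l [8, 7, 7, 4, 7], .l [0, 7, 9, 5, 2]]),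
([p 2 1, s 0 0, g, p 0 2, s 0 0, g, s 1 0, g], .hi 1, [.y [1], .r 1203 [1, 3, 2] [1, 1, 1, 1], .l [2, 5, 2, 2, 5], .r 854 [3, 2] [1, 1, 4], .l [2, 3, 0, 0, 3], .l [1, 3, 1], .r 1254 [1, 3, 2] [1, 1, 1, 1], .l [8, 7, 4], .r 853 [3, 2] [1, 2, 3], .r 1215 [1, 3, 2] [1, 1, 1, 1], .l [6, 5, 6], .r 715 [1, 3, 2] [1, 2, 1, 1]]),
([p 1 0, s 0 0, p 0 1, s 0 0, g], .hi 0, [.c, .y [0, 2], .l [0, 2, 1], .r 1255 [2, 1] [0, 1, 1], .l [0, 4], .l [5, 4]]),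
([p 2 1, s 4 0, g, p 0 2, p 0 0, p 3 0, g, s 0 3, g, s 0 4, g, s 1 0, g], .hi 4, [.l [6, 2, 10, 5, 9, 1, 8, 1], .l [13, 12, 12, 7, 9, 8, 1], .l [6, 2], .l [11, 10, 10, 7, 7, 6, 1], .y [4], .l [7, 2, 7], .l [4, 6], .l [7, 2], .l [7, 2, 1], .l [9, 4, 1], .l [4, 8], .l [9, 4], .l [9, 4, 1], .l [11, 6, 1], .l [4, 10], .l [11, 6], .l [13, 8, 1], .l [4, 12], .l [13, 8]]),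
([p 2 1, s 5 0, g, p 0 2, p 3 0, g, p 0 0, p 4 3, g, s 0 4, g, s 0 5, g, s 1 0, g], .hi 6, [.l [8, 4, 12, 5, 11, 1, 10, 1], .l [15, 14, 14, 9, 11, 8, 1], .l [8, 4], .l [13, 12, 12, 9, 9, 6, 1], .l [8, 1, 12, 5, 11, 3, 9, 5, 8, 3], .l [5, 13, 8, 12, 9, 1, 7, 9, 2, 3], .l [8, 1], .y [6], .l [9, 2, 9], .l [6, 8], .l [9, 2], .l [9, 2, 1], .l [11, 4, 1], .l [6, 10], .l [11, 4], .l [11, 4, 1], .l [13, 6, 1], .l [6, 12], .l [13, 6], .l [15, 8, 1], .l [6, 14], .l [15, 8]]),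
([p 2 1, s 6 0, g, p 0 2, p 4 0, g, s 0 3, g, s 3 0, g, p 5 4, g, s 0 5, g, s 0 6, g, s 1 0, g], .hi 1, [.l [2, 10, 1, 10, 6, 2, 2, 11], .l [2, 5, 2, 2, 15], .l [3, 1, 9, 1, 9, 5, 1, 12, 10, 7], .l [2, 3, 0, 0, 13], .l [1, 5, 11, 9, 1], .l [0, 3, 2, 4, 10, 8, 13], .l [6, 4, 15, 10, 0, 12, 5], .l [1, 5, 9, 7, 1], .l [1, 7, 11, 7, 1], .l [0, 3, 2, 6, 10, 6, 13], .l [8, 6, 15, 8, 0, 12, 7], .l [1, 9, 11, 5, 1], .l [0, 3, 2, 8, 10, 4, 13], .l [10, 8, 15, 6, 0, 12, 9], .l [18, 17, 10, 1, 10, 14, 10, 5], .l [18, 17, 10], .l [0, 17, 1, 14, 6, 1, 6, 2, 10, 3], .l [1, 11, 11, 9, 9, 3, 1], .l [1, 15, 5, 1, 15, 2, 10, 12, 6, 1], .l [18, 17, 12], .l [18, 17, 14, 5, 1, 3, 10, 12, 10, 5], .y [1, 14], .l [1, 15, 5, 1, 15, 2, 10, 12,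 6, 1], .l [18, 17, 14], .l [14, 12, 6, 1, 13, 2, 12, 6, 2, 9], .l [16, 15, 16, 7, 1, 5, 10, 5], .l [16, 15, 16], .l [14, 12, 17, 4, 1, 7, 1, 5, 10, 5]]),
([p 2 1, s 5 0, g, p 0 2, p 3 0, g, s 6 0, p 4 3, g, s 0 4, g, s 0 5, g, s 1 0, g, m 0 6, g], .hi 1, [.l [2, 8, 16, 3, 7, 1, 10, 2, 2, 3], .l [2, 5, 2, 2, 12], .l [8, 16, 3, 7, 4, 8, 1, 8, 4, 1], .l [2, 3, 0, 0, 10], .l [1, 5, 8, 6, 1], .l [0, 3, 2, 4, 7, 5, 10], .l [6, 4, 12, 7, 0, 9, 5], .l [15, 14, 7, 1, 8, 12, 8, 3], .l [15, 14, 7], .l [6, 16, 9, 3, 10, 4, 6, 9, 5, 3, 4, 1], .l [1, 8, 8, 6, 6, 3, 1], .l [1, 12, 5, 1, 13, 2, 8, 10, 6, 1], .l [15, 14, 9], .l [6, 16, 3, 9, 11, 10, 1, 7, 3, 5, 6, 1], .y [1, 11], .l [1, 12, 5, 1, 13, 2, 8, 10, 6, 1], .l [15, 14, 11],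 .l [6, 16, 9, 1, 10, 6, 1, 4, 1, 5, 6, 1], .l [13, 12, 13, 7, 1, 5, 8, 3], .l [13, 12, 13], .l [11, 9, 14, 4, 1, 7, 1, 5, 8, 3], .l [11, 9, 14, 4, 1, 7, 1, 5, 8, 3], .l [13, 12, 15, 1, 8, 1], .l [13, 12, 15], .l [11, 9, 16, 6, 1, 9, 1, 7, 10, 3]]),
([p 2 1, s 6 0, g, p 0 2, p 3 0, g, s 5 0, p 4 3, g, s 0 4, g, s 0 5, g, s 0 6, g, s 1 0, g], .hi 6, [.l [3, 7, 8, 6, 1], .l [0, 16, 3, 6, 1, 10, 4, 8, 6, 8], .l [3, 7, 8, 6, 1], .l [0, 14, 3, 6, 1, 8, 2, 6, 4, 6], .l [10, 2, 11, 15, 12, 5, 7, 11, 6, 9], .l [5, 15, 10, 14, 11, 1, 9, 11, 2, 3], .l [8, 1, 14, 7, 13, 3, 11, 7, 10, 3], .l [9, 2, 9, 13, 10, 11, 9, 3], .l [13, 6, 3, 10, 12, 7, 3, 5, 6, 1], .l [9, 2, 9], .l [9, 2, 1], .l [10, 15, 5, 14, 11, 6, 7, 5, 9, 4, 1], .l [17,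 16, 13, 3, 6, 1], .l [11, 4, 1], .y [6, 11], .l [10, 15, 5, 14, 11, 6, 7, 5, 9, 4, 1], .l [11, 4, 1, 3, 9, 11, 8, 9, 7, 1], .l [13, 6, 1], .l [1, 12, 1, 4, 1, 9, 5, 7, 5, 1], .l [13, 11, 14, 9, 1, 6, 9, 3], .l [6, 14, 1, 7, 13, 3, 11, 7, 10, 3], .l [15, 8, 1], .l [0, 14, 16, 7, 8, 6, 2, 10], .l [0, 14, 8, 14, 9, 12, 0, 7, 2, 7], .l [17, 10, 1]]),
([p 2 1, s 5 0, g, p 0 2, p 3 0, g, s 0 0, p 4 3, g, s 0 4, g, s 0 5, g, s 1 0, g], .lo 6, [.l [1, 5, 6, 4, 1], .l [3, 7, 8, 6, 1], .l [3, 7, 8, 6, 1], .l [0, 14, 11, 4, 5, 3, 9], .l [6, 1, 10, 5, 9, 1, 7, 5, 6, 1], .r 1259 [1, 2, 6, 3, 4, 5] [1, 1, 1, 0, 1, 1, 1, 1], .l [8, 1, 12, 5, 11, 3, 9, 5, 8, 3], .l [5, 13, 8, 12, 9, 1, 7, 9, 2, 3], .y [6], .l [9, 2, 9, 11, 8, 9, 7, 3],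 .l [9, 2, 9], .l [15, 14, 11, 3, 4, 1], .r 1261 [1, 2, 3, 4, 6, 5] [1, 1, 1, 1, 1, 1, 1], .l [11, 4, 1], .l [15, 14, 11, 1, 4, 1], .l [11, 9, 12, 7, 1, 4, 7, 3], .l [13, 6, 1], .l [6, 12, 1, 5, 11, 3, 9, 5, 8, 3], .l [0, 12, 12, 5, 6, 4, 2], .l [0, 12, 14, 7, 8, 6, 2, 8], .l [15, 8, 1], .r 1260 [1, 2, 3, 4, 5, 6] [1, 1, 1, 1, 1, 1, 1]]),
([p 2 1, s 5 0, g, p 0 2, p 3 0, g, m 0 0, p 4 3, g, s 0 4, g, s 0 5, g, s 1 0, g], .lo 6, [.l [0, 12, 1, 9, 1, 9, 4, 1], .l [8, 4, 12, 5, 11, 1, 10, 1], .l [8, 4], .l [15, 14, 14, 9, 11, 8, 1], .l [6, 1], .l [8, 1, 12, 5, 11, 3, 9, 5, 8, 3], .l [8, 1], .l [5, 13, 8, 12, 9, 1, 7, 9, 2, 3], .y [6], .l [9, 2, 9], .l [9, 2], .l [6, 8], .l [11, 4, 1], .l [11, 4], .l [6, 10], .l [13, 6, 1],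 .l [13, 6], .l [6, 12], .l [13, 6, 1], .l [15, 8, 1], .l [15, 8], .l [6, 14]]),
([p 2 1, s 5 0, g, p 0 2, p 3 0, g, p 4 3, g, s 0 4, g, s 0 5, g, s 1 0, g], .bot 5, [.r 1257 [1, 2, 4, 5] [1, 1, 1, 1, 1], .r 1262 [1, 2, 3, 4, 5] [1, 1, 1, 1, 1, 1], .r 1258 [1, 2, 3, 4, 5] [1, 1, 1, 1, 1, 1], .r 1263 [1, 2, 3, 4, 5] [1, 1, 1, 1, 1, 1]]),
([p 2 1, g, s 1 0, g, p 0 2, p 4 3, p 6 4, s 0 5, g, p 0 6, g, s 5 0, g, s 3 0, g], .lo 7, [.l [2, 8, 10, 9, 9, 8, 3], .l [2, 8, 10, 9, 12], .l [1, 6, 4, 7, 9, 8, 11], .l [2, 6, 4, 5, 7, 5, 5, 4, 1], .l [4, 8, 10, 9, 9, 8, 1], .l [4, 8, 10, 9, 12], .l [3, 6, 2, 7, 9, 8, 11], .l [8, 11, 8, 12, 7, 10, 9, 2, 8, 1], .l [9, 1, 10, 7, 11], .l [15, 9, 9, 8, 1], .l [2, 1, 6, 8, 12, 5, 5, 4, 1,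 8, 4, 1], .l [2, 1, 6, 10, 7, 1, 3, 6, 8, 6, 4, 5], .l [15, 9, 9, 8, 3], .y [7, 11], .l [2, 1, 6, 10, 7, 1, 3, 6, 8, 6, 4, 5], .l [2, 1, 10, 3, 10, 6, 9, 1, 7, 7, 6, 1], .l [15, 9, 9, 8, 5], .l [13, 7, 7, 6, 5], .l [2, 1, 4, 11, 13, 7, 4, 1], .l [2, 1, 6, 8, 5, 1, 3, 4, 6, 8, 6, 3], .l [13, 7, 7, 6, 12]]),
([p 2 1, g, s 1 0, g, p 0 2, p 4 3, p 5 4, s 0 0, g, p 0 5, g, s 3 0, g], .hi 7, [.l [2, 8, 10, 9, 9, 8, 3], .l [1, 6, 4, 7, 9, 8, 9], .l [2, 8, 10, 9, 10], .l [4, 8, 10, 9, 9, 8, 1], .l [3, 6, 2, 7, 9, 8, 9], .l [4, 8, 10, 9, 10], .l [3, 4, 0, 5, 7, 6, 7], .y [7], .l [8, 11, 8, 10, 5, 8, 7, 2, 6, 1], .l [13, 7, 7, 6, 1], .l [9, 1, 10, 7, 9], .l [11, 5, 5, 4, 1], .r 1265 [1, 2, 3, 4, 6, 5] [1, 1, 1, 1, 1, 1], .l [13,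 7, 7, 6, 3], .l [11, 3, 6, 11, 9, 2, 6, 7, 2], .l [2, 1, 4, 9, 11, 7, 4, 1], .l [11, 5, 5, 4, 10], .l [5, 10, 12, 8, 5]]),
([p 2 1, s 0 0, g, p 0 2, p 3 0, g, p 5 3, g, s 0 4, g, p 0 5, g, s 1 0, g, s 4 0, g], .hi 1, [.y [1], .l [0, 13, 15, 11, 13, 11, 11, 9, 4, 1], .l [2, 5, 2, 2, 11], .r 854 [6, 2] [1, 1, 12], .l [2, 3, 0, 0, 9], .l [1, 5, 7, 5, 1], .l [0, 3, 2, 4, 6, 4, 9], .r 853 [6, 2] [1, 2, 11], .l [1, 7, 11, 9, 9, 7, 1], .l [0, 3, 2, 6, 10, 8, 8, 6, 7], .r 853 [6, 2] [1, 4, 9], .l [1, 7, 9, 7, 7, 5, 1], .l [1, 9, 11, 7, 7, 5, 1], .l [0, 3, 2, 8, 10, 6, 6, 4, 7], .r 853 [6, 2] [1, 6, 7], .l [0, 3, 2, 8, 8, 4, 4, 2, 5], .l [0, 13, 15, 9, 11, 9, 9, 7, 2, 7], .l [14, 13, 10], .l [7, 12, 5, 11, 1, 6, 11, 2, 6, 1],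 .l [0, 11, 15, 11, 13, 11, 11, 9, 2, 3], .l [12, 11, 12], .r 715 [1, 6, 2] [1, 8, 1, 3], .l [0, 11, 13, 9, 11, 9, 9, 7, 2, 7], .l [12, 11, 14], .r 715 [1, 6, 2] [1, 8, 3, 1]]),
([p 2 1, s 0 0, g, p 0 2, p 4 3, p 5 4, s 0 0, g, p 0 5, g, s 1 0, g, s 3 0, g], .hi 6, [.l [1, 5, 7, 6, 6, 5, 1], .l [3, 7, 9, 8, 8, 7, 1], .l [2, 5, 2, 6, 8, 7, 10], .l [3, 7, 9, 8, 11], .l [2, 3, 0, 4, 6, 5, 8], .y [6], .l [7, 10, 7, 11, 7, 10, 9, 2, 8, 3], .l [14, 9, 9, 8, 1], .l [8, 1, 9, 6, 10], .l [12, 7, 7, 6, 1], .l [12, 11, 13, 9, 9, 8, 3, 5, 6, 1], .l [14, 9, 9, 8, 3], .l [10, 3, 6, 12, 10, 2, 5, 8, 4], .r 1267 [1, 2, 4, 6, 5] [1, 0, 0, 1, 1, 1, 3], .l [14, 9, 9, 8, 5], .l [0, 9, 11, 7, 9, 8, 8, 7, 2], .l [12, 7, 7, 6, 11, 7, 5, 5, 2,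 5], .l [12, 7, 7, 6, 11], .l [0, 9, 13, 9, 11, 10, 10, 9, 2]]),
([p 2 1, s 0 0, g, p 0 2, p 4 3, p 5 4, s 0 0, g, p 0 5, g, s 3 0, g, s 1 0, g], .hi 6, [.l [1, 5, 7, 6, 6, 5, 1], .l [3, 7, 9, 8, 8, 7, 1], .l [2, 5, 2, 6, 8, 7, 8], .l [3, 7, 9, 8, 9], .l [2, 3, 0, 4, 6, 5, 6], .y [6], .l [7, 10, 7, 9, 5, 8, 7, 2, 6, 7], .l [12, 7, 7, 6, 1], .l [8, 1, 9, 6, 8], .l [10, 5, 5, 4, 1], .l [4, 11, 7, 12, 1, 10, 3, 7, 8, 1], .l [12, 7, 7, 6, 3], .l [10, 3, 6, 10, 8, 2, 5, 6, 2], .l [10, 5, 5, 4, 9, 11, 9, 9, 6, 1], .l [10, 5, 5, 4, 9], .l [4, 9, 11, 7, 4], .r 1267 [1, 2, 4, 6, 5] [1, 0, 0, 1, 3, 1, 1], .l [10, 5, 5, 4, 11], .l [0, 11, 13, 7, 9, 8, 8, 7, 2]]),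
([p 1 0, s 0 0, g, p 0 1, p 3 2, p 4 3, s 0 0, g, p 0 4, g, s 2 0, g], .hi 0, [.c, .r 1266 [5, 1, 2, 3, 4] [2, 1, 1, 1, 1], .l [0, 2], .l [3, 2], .y [0, 3], .l [0, 5, 7, 6, 7], .l [0, 7, 9, 6, 8], .l [0, 7], .l [8, 7], .l [0, 7], .r 1268 [5, 1, 2, 3, 4] [1, 1, 1, 1, 1], .l [0, 9], .l [10, 9], .r 1269 [5, 1, 2, 3, 4] [1, 1, 1, 1, 1], .l [0, 11], .l [12, 11]]),
([p 2 0, s 0 1, g, p 0 2, p 3 0, g, s 1 0, g, s 0 3, g], .hi 0, [.c, .l [3, 2, 6, 8, 6, 1], .l [0, 2], .l [3, 2], .y [0, 3], .l [6, 5, 5, 2, 7], .l [0, 5], .l [6, 5], .l [8, 7, 7, 4, 7], .l [0, 7], .l [8, 7], .l [0, 7, 7, 3, 2], .l [10, 9, 9, 6, 3], .l [0, 9], .l [10, 9]]),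
([p 2 0, s 0 1, g, s 1 0, g, p 0 2, p 3 0, g, s 0 3, g], .hi 0, [.c, .r 989 [4, 1, 2] [1, 1, 1, 4], .l [0, 2], .l [3, 2], .r 1053 [4, 1, 2] [1, 1, 1, 4], .l [0, 4], .l [5, 4], .y [0, 5], .l [8, 7, 1, 6, 2, 5], .l [0, 7], .l [8, 7], .l [0, 7, 7, 5, 4], .l [10, 9, 1, 8, 4, 1], .l [0, 9], .l [10, 9]]),
([p 4 0, s 1 0, g, p 0 1, m 0 2, g, m 2 3, g, p 0 4, g, m 3 5, g, m 5 6, g, m 6 7, g, m 7 8, g, m 8 0, g], .lo 3, [.l [0, 2], .y [1, 3], .l [4, 10, 5, 7, 9, 4, 4, 2, 4], .l [3, 4], .l [2, 10, 7, 1], .l [2, 10, 7, 2, 4, 2, 4], .l [16, 18, 17, 17, 15, 15, 13, 13, 9, 9, 5, 1, 8, 5, 6, 2, 6, 1], .l [2, 10, 7, 2], .l [2, 10, 7, 4, 9, 7, 7, 5, 2], .l [16, 18, 17, 17, 15, 15, 13, 13, 7, 7, 5, 1, 8, 5, 6, 2, 6, 1], .l [2, 10, 7, 4],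 .l [2, 8, 5, 7, 9, 4, 4, 2, 4], .l [16, 18, 17, 17, 15, 15, 13, 13, 7, 7, 5, 1, 6, 3, 6, 1, 6, 1], .l [2, 8, 5, 7], .l [2, 8, 5, 9, 11, 9, 9, 4, 4, 2, 4], .l [16, 18, 17, 17, 15, 15, 11, 11, 7, 7, 5, 1, 6, 3, 6, 1, 6, 1], .l [2, 8, 5, 9], .l [2, 8, 5, 11, 13, 11, 11, 9, 9, 4, 4, 2, 4], .l [9, 14, 7, 3, 8, 8, 6, 3, 7, 2, 4], .l [2, 8, 5, 11], .l [2, 8, 5, 13, 15, 13, 13, 11, 11, 9, 9, 4, 4, 2, 4], .l [6, 10, 9, 15, 12, 6, 11, 5, 1, 8, 10, 3, 8, 1, 8, 3, 3, 1], .l [2, 8, 5, 13], .l [2, 8, 5, 15, 17, 15, 15, 13, 13, 11, 11, 9, 9, 4, 4, 2, 4], .l [3, 1, 7, 4, 15, 9, 12, 10, 10, 8, 8, 6, 6, 4, 8, 3, 3, 1], .l [2, 8, 5, 15], .l [2, 8, 5, 15], .l [9, 20, 13, 3, 14, 14, 12, 9, 13, 2, 10], .l [4, 6, 5, 1, 6, 3, 16, 11, 14, 12,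 12, 10, 10, 8, 8, 6, 6, 4], .l [2, 8, 5, 17]]),
([p 4 0, s 1 0, g, p 0 1, m 0 2, g, m 2 3, g, p 0 4, g, m 3 5, g, m 5 6, g, m 6 7, g, m 7 0, g], .hi 16, [.l [2, 10, 7, 15, 15, 13, 13, 11, 11, 9, 9, 4, 4, 2, 4], .l [2, 10, 7, 15], .l [3, 17], .l [2, 8, 5, 13], .y [4, 6, 10, 12, 14, 16], .l [5, 8, 6, 1, 7, 4, 12], .l [5, 8, 6, 1, 7, 4, 12], .l [6, 17], .l [7, 10, 2, 15, 15, 13, 13, 11, 11, 9, 9, 7, 7, 5, 1], .l [7, 10, 2, 15], .l [8, 17], .l [7, 8, 0, 13], .l [9, 12, 8, 8, 6, 1, 7, 4, 10], .l [9, 12, 8, 8, 6, 1, 7, 4, 10], .l [10, 17], .l [11, 14, 12, 12, 8, 8, 6, 1, 7, 4, 8], .l [11, 14, 12, 12, 8, 8, 6, 1, 7, 4, 8], .l [12, 17], .l [13, 16, 14, 14, 12, 12, 8, 8, 6, 1, 7, 4, 6], .l [13, 16, 14, 14, 12, 12, 8, 8, 6, 1,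 7, 4, 6], .l [14, 17], .l [15, 18, 16, 16, 14, 14, 12, 12, 8, 8, 6, 1, 7, 4, 1], .l [15, 18, 16, 16, 14, 14, 12, 12, 8, 8, 6, 1, 7, 4, 1], .l [16, 17], .l [15, 16, 14, 14, 12, 12, 10, 10, 6, 6, 4, 1, 5, 2, 4], .l [15, 16, 14, 14, 12, 12, 10, 10, 6, 6, 4, 1, 5, 2, 4], .r 1273 [1, 2, 3, 4, 5, 6, 7, 8] [1, 1, 1, 1, 1, 1, 1, 1, 1]]),
([p 4 0, s 1 0, g, p 0 1, m 0 2, g, m 2 3, g, p 0 4, g, m 3 5, g, m 5 6, g, m 6 0, g], .hi 14, [.l [2, 10, 7, 13, 13, 11, 11, 9, 9, 4, 4, 2, 4], .l [2, 10, 7, 13], .l [3, 15], .l [2, 8, 5, 11], .y [4, 6, 10, 12, 14], .l [5, 8, 6, 1, 7, 4, 10], .l [5, 8, 6, 1, 7, 4, 10], .l [6, 15], .l [7, 10, 2, 13, 13, 11, 11, 9, 9, 7, 7, 5, 1], .l [7, 10, 2, 13], .l [8, 15], .l [7, 8, 0, 11], .l [9, 12, 8,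 8, 6, 1, 7, 4, 8], .l [9, 12, 8, 8, 6, 1, 7, 4, 8], .l [10, 15], .l [11, 14, 12, 12, 8, 8, 6, 1, 7, 4, 6], .l [11, 14, 12, 12, 8, 8, 6, 1, 7, 4, 6], .l [12, 15], .l [13, 16, 14, 14, 12, 12, 8, 8, 6, 1, 7, 4, 1], .l [13, 16, 14, 14, 12, 12, 8, 8, 6, 1, 7, 4, 1], .l [14, 15], .l [13, 14, 12, 12, 10, 10, 6, 6, 4, 1, 5, 2, 4], .l [13, 14, 12, 12, 10, 10, 6, 6, 4, 1, 5, 2, 4], .r 1274 [1, 2, 3, 4, 5, 6, 7] [1, 1, 1, 1, 1, 1, 1, 1]]),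
([p 4 0, s 1 0, g, p 0 1, m 0 2, g, m 2 3, g, p 0 4, g, m 3 5, g, m 5 0, g], .hi 12, [.l [2, 10, 7, 11, 11, 9, 9, 4, 4, 2, 4], .l [2, 10, 7, 11], .l [3, 13], .l [2, 8, 5, 9], .y [4, 6, 10, 12], .l [5, 8, 6, 1, 7, 4, 8], .l [5, 8, 6, 1, 7, 4, 8], .l [6, 13], .l [7, 10, 2, 11, 11, 9, 9, 7, 7, 5, 1], .l [7, 10, 2, 11], .l [8, 13], .l [7, 8, 0, 9], .l [9, 12, 8, 8, 6, 1, 7, 4, 6], .l [9, 12, 8, 8, 6, 1, 7, 4, 6], .l [10, 13], .l [11, 14, 12, 12, 8, 8, 6, 1, 7, 4, 1], .l [11, 14, 12, 12, 8, 8, 6, 1, 7, 4, 1], .l [12, 13], .l [11, 12, 10, 10, 6, 6, 4, 1, 5, 2, 4], .l [11, 12, 10, 10, 6, 6, 4, 1, 5, 2, 4], .r 1275 [1, 2, 3, 4, 5, 6] [1, 1, 1, 1, 1, 1, 1]]),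
([p 4 0, s 1 0, g, p 0 1, m 0 2, g, m 2 3, g, p 0 4, g, m 3 0, g], .hi 10, [.l [2, 10, 7, 9, 9, 4, 4, 2, 4], .l [2, 10, 7, 9], .l [3, 11], .l [2, 8, 5, 7], .y [4, 6, 10], .l [5, 8, 6, 1, 7, 4, 6], .l [5, 8, 6, 1, 7, 4, 6], .l [6, 11], .l [7, 10, 2, 9, 9, 7, 7, 5, 1], .l [7, 10, 2, 9], .l [8, 11], .l [7, 8, 0, 7], .l [9, 12, 8, 8, 6, 1, 7, 4, 1], .l [9, 12, 8, 8, 6, 1, 7, 4, 1], .l [10, 11], .l [9, 10, 6, 6, 4, 1, 5, 2, 4], .l [9, 10, 6, 6, 4, 1, 5, 2, 4], .r 1276 [1, 2, 3, 4, 5] [1, 1, 1, 1, 1, 1]]),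
([p 5 0, s 1 0, g, p 0 1, m 0 2, g, m 2 3, g, m 3 4, g, p 0 5, g, m 4 6, g, m 6 7, g, m 7 8, g, m 8 0, g], .lo 3, [.l [0, 2], .y [1, 3], .l [4, 12, 7, 9, 11, 6, 6, 4, 4, 2, 4], .l [3, 4], .l [2, 12, 9, 1], .l [2, 12, 9, 2, 4, 2, 6], .l [16, 18, 17, 17, 15, 15, 11, 11, 9, 9, 5, 1, 8, 5, 6, 2, 6, 1], .l [2, 12, 9, 2], .l [2, 12, 9, 4, 6, 4, 4, 2, 4], .l [16, 18, 17, 17, 15, 15, 11, 11, 7, 7, 5, 1, 8, 5, 6, 2, 6, 1], .l [2, 12, 9, 4], .l [2, 12, 9, 6, 11, 9, 9, 7, 7, 5, 2], .l [5, 10, 7, 3, 6, 3, 7, 2, 4], .l [2, 12, 9, 6], .l [2, 10, 7, 9, 11, 6, 6, 4, 4, 2, 4], .l [5, 12, 9, 3, 8, 5, 1, 5, 2], .l [2, 10, 7, 9], .l [2, 10, 7, 11, 13, 11, 11, 6, 6, 4, 4, 2, 4], .l [5, 14, 11, 3, 10, 7, 1, 7, 4], .l [2, 10, 7, 11], .l [2,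 10, 7, 13, 15, 13, 13, 11, 11, 6, 6, 4, 4, 2, 4], .l [5, 16, 13, 3, 12, 9, 1, 9, 6], .l [2, 10, 7, 13], .l [2, 10, 7, 15, 17, 15, 15, 13, 13, 11, 11, 6, 6, 4, 4, 2, 4], .l [3, 1, 9, 6, 15, 7, 10, 8, 8, 6, 6, 4, 10, 5, 5, 3, 3, 1], .l [2, 10, 7, 15], .l [2, 10, 7, 15], .l [5, 20, 17, 3, 16, 13, 1, 13, 10], .l [5, 20, 17, 3, 16, 13, 1, 13, 10], .l [2, 10, 7, 17]]),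
([p 5 0, s 1 0, g, p 0 1, m 0 2, g, m 2 3, g, m 3 4, g, p 0 5, g, m 4 6, g, m 6 7, g, m 7 0, g], .hi 16, [.l [2, 12, 9, 15, 15, 13, 13, 11, 11, 6, 6, 4, 4, 2, 4], .l [2, 12, 9, 15], .l [3, 17], .l [2, 10, 7, 13], .y [4, 6, 8, 12, 14, 16], .l [5, 8, 6, 1, 9, 6, 12], .l [5, 8, 6, 1, 9, 6, 12], .l [6, 17], .l [7, 10, 8, 8, 6, 1, 7, 4, 10], .l [7, 10, 8, 8, 6, 1, 7, 4, 10], .l [8, 17], .l [9, 12, 2, 15, 15, 13, 13, 11, 11, 9, 9, 7, 7, 5, 1], .l [9, 12, 2, 15], .l [10, 17], .l [9, 10, 0, 13], .l [11, 14, 10, 10, 8, 8, 6, 1, 7, 4, 8], .l [11, 14, 10, 10, 8, 8, 6, 1, 7, 4, 8], .l [12, 17], .l [13, 16, 14, 14, 10, 10, 8, 8, 6, 1, 7, 4, 6], .l [13, 16, 14, 14, 10, 10, 8, 8, 6, 1, 7, 4, 6], .l [14, 17], .l [15, 18, 16, 16, 14,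 14, 10, 10, 8, 8, 6, 1, 7, 4, 1], .l [15, 18, 16, 16, 14, 14, 10, 10, 8, 8, 6, 1, 7, 4, 1], .l [16, 17], .l [15, 16, 14, 14, 12, 12, 8, 8, 6, 6, 4, 1, 5, 2, 4], .l [15, 16, 14, 14, 12, 12, 8, 8, 6, 6, 4, 1, 5, 2, 4], .r 1278 [1, 2, 3, 4, 5, 6, 7, 8] [1, 1, 1, 1, 1, 1, 1, 1, 1]])]

def D04 : List (List (List Item × Qry × List Rf)) := [d04_0, d04_1, d04_2, d04_3]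

end Pool.Agent.H63.PU.C161
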