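import Pool.Agent.H63.PU.Ck3

/-! Certificate data, machine generated. -/

namespace Pool.Agent.H63.PU.C161

open Pool.Agent.H63.PU Pool.Agent.H63.PU.Ck3 Pool.Agent.H63.PU.Short

set_option maxRecDepth 20000

def d05_0 : List (List Item × Qry × List Rf) := [
([p 5 0, s 1 0, g, p 0 1, m 0 2, g, m 2 3, g, m 3 4, g, p 0 5, g, m 4 6, g, m 6 0, g], .hi 14, [.l [2, 12, 9, 13, 13, 11, 11, 6, 6, 4, 4, 2, 4], .l [2, 12, 9, 13], .l [3, 15], .l [2, 10, 7, 11], .y [4, 6, 8, 12, 14], .l [5, 8, 6, 1, 9, 6, 10], .l [5, 8, 6, 1, 9, 6, 10], .l [6, 15], .l [7, 10, 8, 8, 6, 1, 7, 4, 8], .l [7, 10, 8, 8, 6, 1, 7, 4, 8], .l [8, 15], .l [9, 12, 2, 13, 13, 11, 11, 9, 9, 7, 7, 5, 1], .l [9, 12, 2, 13], .l [10, 15], .l [9, 10, 0, 11], .l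 [11, 14, 10, 10, 8, 8, 6, 1, 7, 4, 6], .l [11, 14, 10, 10, 8, 8, 6, 1, 7, 4, 6], .l [12, 15], .l [13, 16, 14, 14, 10, 10, 8, 8, 6, 1, 7, 4, 1], .l [13, 16, 14, 14, 10, 10, 8, 8, 6, 1, 7, 4, 1], .l [14, 15], .l [13, 14, 12, 12, 8, 8, 6, 6, 4, 1, 5, 2, 4], .l [13, 14, 12, 12, 8, 8, 6, 6, 4, 1, 5, 2, 4], .r 1279 [1, 2, 3, 4, 5, 6, 7] [1, 1, 1, 1, 1, 1, 1, 1]]),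
([p 5 0, s 1 0, g, p 0 1, m 0 2, g, m 2 3, g, m 3 4, g, p 0 5, g, m 4 0, g], .hi 12, [.l [2, 12, 9, 11, 11, 6, 6, 4, 4, 2, 4], .l [2, 12, 9, 11], .l [3, 13], .l [2, 10, 7, 9], .y [4, 6, 8, 12], .l [5, 8, 6, 1, 9, 6, 8], .l [5, 8, 6, 1, 9, 6, 8], .l [6, 13], .l [7, 10, 8, 8, 6, 1, 7, 4, 6], .l [7, 10, 8, 8, 6, 1, 7, 4, 6], .l [8, 13], .l [9, 12, 2, 11, 11, 9, 9, 7, 7, 5, 1], .l [9, 12, 2, 11], .l [10, 13], .l [9, 10, 0, 9], .l [11, 14, 10, 10, 8, 8, 6, 1, 7, 4, 1], .l [11, 14, 10, 10, 8, 8, 6, 1, 7, 4, 1], .l [12, 13], .l [11, 12, 8, 8, 6, 6, 4, 1, 5, 2, 4], .l [11, 12, 8, 8, 6, 6, 4, 1, 5, 2, 4], .r 1280 [1, 2, 3, 4, 5, 6] [1, 1, 1, 1, 1, 1, 1]]),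
([p 6 1, s 2 0, g, s 1 0, g, p 0 2, m 0 3, g, m 3 4, g, m 4 5, g, m 5 0, g, p 0 6, g], .hi 1, [.l [0, 4, 9, 10, 9, 13, 8, 1, 3, 8, 5, 1, 5], .l [2, 16, 13, 13, 10], .l [3, 1, 6, 4, 1], .l [5, 3, 15, 10, 6, 7, 6, 6, 4, 4, 2, 4, 5], .l [3, 2, 3], .l [5, 3, 6, 2, 3], .y [1, 5], .l [5, 3, 5, 1, 2], .l [0, 16, 15, 6, 8, 6, 3], .l [0, 16, 15, 6, 8, 6, 3], .l [5, 3, 7, 3, 4], .l [0, 16, 15, 8, 10, 8, 8, 6, 3], .l [0, 16, 15, 8, 10, 8, 8, 6, 3], .l [5, 3, 9, 5, 6], .l [0, 16, 15, 10, 12, 10, 10, 8, 8, 6, 3], .l [0, 16, 15, 10, 12, 10, 10, 8, 8, 6, 3], .l [5, 3, 11, 7, 8], .l [9, 10, 8, 14, 6, 6, 8, 2, 9, 7, 1, 6, 3], .l [3, 2, 12], .l [5, 3, 13, 9, 10], .l [3, 2, 12], .l [7, 14, 6, 6, 8, 2, 9, 7, 1, 6, 7, 3, 1], .l [3,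 2, 14], .l [5, 3, 15, 11, 12]]),
([p 6 1, s 2 0, g, p 0 2, m 0 3, g, m 3 4, g, m 4 5, g, m 5 0, g, p 0 6, g, s 1 0, g], .hi 1, [.l [3, 1, 13, 10, 6, 7, 6, 6, 4, 4, 2, 4, 5], .l [2, 14, 11, 11, 12], .l [3, 1, 4, 2, 13], .y [1, 3], .l [3, 1, 3, 1, 10], .l [0, 14, 13, 4, 6, 4, 1], .l [0, 14, 13, 4, 6, 4, 1], .l [3, 1, 5, 3, 12], .l [0, 14, 13, 6, 8, 6, 6, 4, 1], .l [0, 14, 13, 6, 8, 6, 6, 4, 1], .l [3, 1, 7, 5, 12], .l [0, 14, 13, 8, 10, 8, 8, 6, 6, 4, 1], .l [0, 14, 13, 8, 10, 8, 8, 6, 6, 4, 1], .l [3, 1, 9, 7, 12], .l [6, 8, 7, 13, 7, 1, 9, 1, 4, 2, 7, 3, 1], .l [4, 14, 9, 1, 11, 1, 4, 2, 9], .l [3, 1, 11, 9, 12], .l [4, 12, 7, 1, 9, 1, 2, 0, 7], .l [0, 15, 5, 2, 13, 8, 10, 8, 8, 6, 6, 4, 1], .l [16, 15, 12], .l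 [3, 1, 13, 11, 12], .l [4, 12, 7, 8, 13, 6, 2, 10, 5, 7, 5, 5, 3], .l [14, 13, 14], .l [3, 1, 15, 13, 10]]),
([p 6 1, s 2 0, g, p 0 2, m 0 3, g, m 3 4, g, m 4 5, g, m 5 0, g, s 1 0, g, p 0 6, g], .hi 1, [.l [3, 1, 15, 12, 6, 7, 6, 6, 4, 4, 2, 6, 1], .l [2, 16, 13, 13, 1], .l [3, 1, 4, 2, 11], .y [1, 3], .l [3, 1, 3, 1, 8], .l [0, 16, 15, 4, 6, 4, 1], .l [0, 16, 15, 4, 6, 4, 1], .l [3, 1, 5, 3, 10], .l [0, 16, 15, 6, 8, 6, 6, 4, 1], .l [0, 16, 15, 6, 8, 6, 6, 4, 1], .l [3, 1, 7, 5, 10], .l [0, 16, 15, 8, 10, 8, 8, 6, 6, 4, 1], .l [0, 16, 15, 8, 10, 8, 8, 6, 6, 4, 1], .l [3, 1, 9, 7, 10], .l [8, 10, 9, 9, 7, 7, 5, 1, 10, 7, 3, 6, 1], .l [4, 16, 11, 1, 13, 1, 6, 4, 1], .l [3, 1, 11, 9, 10], .l [8, 10, 9, 9, 7, 7,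 5, 1, 10, 7, 5, 6, 3], .l [4, 16, 11, 1, 13, 1, 4, 2, 3], .l [3, 1, 13, 11, 8], .l [4, 14, 9, 1, 11, 1, 2, 0, 1], .l [8, 10, 9, 9, 7, 11, 5, 1, 7, 1, 8, 6, 1], .l [12, 11, 14], .l [3, 1, 15, 13, 8]]),
([p 5 0, s 1 0, g, p 0 1, m 0 2, g, m 2 3, g, m 3 4, g, m 4 0, g, p 0 5, g], .hi 0, [.r 1282 [6, 1, 2, 3, 4, 5] [1, 1, 1, 1, 1, 1, 1], .l [0, 2], .l [3, 2], .l [0, 2], .l [4, 3], .l [0, 5, 7, 5, 1], .l [0, 5], .l [6, 5], .l [0, 7, 9, 7, 7, 5, 1], .l [0, 7], .l [8, 7], .l [0, 9, 11, 9, 9, 7, 7, 5, 1], .l [0, 9], .l [10, 9], .r 1284 [6, 1, 2, 3, 4, 5] [1, 1, 1, 1, 1, 1, 1], .l [0, 11], .l [12, 11], .y [0, 12], .r 1283 [6, 1, 2, 3, 4, 5] [1, 1, 1, 1, 1, 1, 1], .l [0, 13], .l [14, 13]]),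
([p 4 0, s 1 0, g, p 0 1, m 0 2, g, m 2 3, g, m 3 0, g, p 0 4, g], .hi 8, [.l [2, 12, 9, 6, 6, 4, 4, 2, 4], .l [2, 12, 9, 6], .l [3, 9], .l [2, 10, 7, 4], .y [4, 6, 8], .l [5, 8, 6, 1, 9, 6, 3], .l [5, 8, 6, 1, 9, 6, 3], .l [6, 9], .l [7, 10, 8, 8, 6, 1, 7, 4, 1], .l [7, 10, 8, 8, 6, 1, 7, 4, 1], .l [8, 9], .l [7, 8, 6, 6, 4, 1, 7, 4, 1], .l [7, 8, 6, 6, 4, 1, 7, 4, 1], .r 1285 [1, 2, 3, 5, 4] [1, 1, 1, 1, 1, 1], .l [7, 8, 6, 6, 4, 1, 5, 2, 1], .l [7, 8, 6, 6, 4, 1, 5, 2, 4], .l [7, 8, 6, 6, 4, 1, 5, 2, 4], .r 1281 [1, 2, 3, 5, 4] [1, 1, 1, 1, 1, 1]]),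
([p 3 0, s 1 0, g, p 0 1, m 0 2, g, m 2 0, g, p 0 3, g], .hi 6, [.l [2, 10, 7, 4, 4, 2, 4], .l [2, 10, 7, 4], .l [3, 7], .l [2, 8, 5, 2], .y [4, 6], .l [5, 8, 6, 1, 7, 4, 1], .l [5, 8, 6, 1, 7, 4, 1], .l [6, 7], .l [5, 6, 4, 1, 7, 4, 1], .l [5, 6, 4, 1, 7, 4, 1], .r 1286 [1, 2, 4, 3] [1, 1, 1, 1, 1], .l [5, 6, 4, 1, 5, 2, 1], .l [5, 6, 4, 1, 5, 2, 4], .l [5, 6, 4, 1, 5, 2, 4], .r 1277 [1, 2, 4, 3] [1, 1, 1, 1, 1]]),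
([p 3 1, s 2 0, g, p 0 2, m 0 0, g, s 1 0, g, p 0 3, g], .hi 4, [.l [2, 10, 7, 2, 6], .l [0, 7, 4, 2, 3], .l [3, 5], .l [0, 5, 2, 0, 1], .y [4], .l [3, 1, 9, 6, 1], .l [3, 1, 9, 6, 1], .r 1287 [2, 4, 3] [1, 1, 3, 1], .l [3, 1, 9, 6, 3], .l [3, 1, 9, 6, 3], .l [0, 5, 7, 5, 1], .l [3, 1, 7, 4, 3], .l [3, 1, 7, 4, 6], .l [3, 1, 7, 4, 6], .l [0, 5, 9, 7, 1]]),
([p 3 0, s 1 0, g, p 0 1, p 2 0, g, p 4 2, g, p 0 3, g, p 5 4, g, p 6 5, g, p 7 6, g, p 8 7, g, p 0 8, g], .lo 3, [.l [0, 2], .y [1, 3], .l [4, 10, 5, 7, 9, 4, 4, 2, 4], .l [3, 4], .l [2, 10, 7, 1], .l [14, 16, 15, 15, 13, 13, 11, 11, 7, 7, 5, 1, 6, 3, 4, 2, 4, 1], .l [2, 10, 7, 2, 4, 2, 4], .l [16, 18, 17, 17, 15, 15, 13, 13, 9, 9, 5, 1, 8, 5, 6, 2, 6, 1], .l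 [2, 10, 7, 2], .l [2, 10, 7, 4, 9, 7, 7, 5, 2], .l [16, 18, 17, 17, 15, 15, 13, 13, 7, 7, 5, 1, 8, 5, 6, 2, 6, 1], .l [2, 10, 7, 4], .l [2, 8, 5, 7, 9, 4, 4, 2, 4], .l [16, 18, 17, 17, 15, 15, 13, 13, 7, 7, 5, 1, 6, 3, 6, 1, 6, 1], .l [2, 8, 5, 7], .l [2, 8, 5, 9, 11, 9, 9, 4, 4, 2, 4], .l [16, 18, 17, 17, 15, 15, 11, 11, 7, 7, 5, 1, 6, 3, 6, 1, 6, 1], .l [2, 8, 5, 9], .l [2, 8, 5, 11, 13, 11, 11, 9, 9, 4, 4, 2, 4], .l [9, 14, 7, 3, 8, 8, 6, 3, 7, 2, 4], .l [2, 8, 5, 11], .l [2, 8, 5, 13, 15, 13, 13, 11, 11, 9, 9, 4, 4, 2, 4], .l [6, 10, 9, 15, 12, 6, 11, 5, 1, 8, 10, 3, 8, 1, 8, 3, 3, 1], .l [2, 8, 5, 13], .l [2, 8, 5, 15, 17, 15, 15, 13, 13, 11, 11, 9, 9, 4, 4, 2, 4], .l [3, 1, 7, 4, 15, 9, 12, 10, 10, 8, 8,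 6, 6, 4, 8, 3, 3, 1], .l [2, 8, 5, 15], .l [9, 20, 13, 3, 14, 14, 12, 9, 13, 2, 10], .l [4, 6, 5, 1, 6, 3, 16, 11, 14, 12, 12, 10, 10, 8, 8, 6, 6, 4], .l [2, 8, 5, 17]]),
([p 3 0, s 1 0, g, p 0 1, p 2 0, g, p 4 2, g, p 0 3, g, p 5 4, g, p 6 5, g, p 7 6, g, p 0 7, g], .lo 16, [.l [0, 15], .l [0, 8, 7, 14, 14, 12, 12, 10, 10, 8, 8, 4, 4, 2, 1], .l [2, 10, 7, 15, 15, 13, 13, 11, 11, 9, 9, 4, 4, 2, 4], .l [3, 17], .l [2, 10, 7, 15], .y [4, 16, 14, 12, 10, 6], .l [5, 8, 6, 1, 7, 4, 12], .l [6, 17], .l [5, 8, 6, 1, 7, 4, 12], .l [7, 10, 2, 15, 15, 13, 13, 11, 11, 9, 9, 7, 7, 5, 1], .l [8, 17], .l [7, 10, 2, 15], .l [9, 12, 8, 8, 6, 1, 7, 4, 10], .l [10, 17], .l [9, 12, 8, 8, 6, 1, 7, 4, 10], .l [11, 14, 12, 12, 8, 8,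 6, 1, 7, 4, 8], .l [12, 17], .l [11, 14, 12, 12, 8, 8, 6, 1, 7, 4, 8], .l [13, 16, 14, 14, 12, 12, 8, 8, 6, 1, 7, 4, 6], .l [14, 17], .l [13, 16, 14, 14, 12, 12, 8, 8, 6, 1, 7, 4, 6], .l [15, 18, 16, 16, 14, 14, 12, 12, 8, 8, 6, 1, 7, 4, 1], .l [16, 17], .l [15, 18, 16, 16, 14, 14, 12, 12, 8, 8, 6, 1, 7, 4, 1], .l [15, 16, 14, 14, 12, 12, 10, 10, 6, 6, 4, 1, 5, 2, 4], .r 1289 [1, 2, 3, 4, 5, 6, 7, 8] [1, 1, 1, 1, 1, 1, 1, 1, 1], .l [15, 16, 14, 14, 12, 12, 10, 10, 6, 6, 4, 1, 5, 2, 4]]),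
([p 3 0, s 1 0, g, p 0 1, p 2 0, g, p 4 2, g, p 0 3, g, p 5 4, g, p 6 5, g, p 0 6, g], .lo 14, [.l [0, 13], .l [0, 8, 7, 12, 12, 10, 10, 8, 8, 4, 4, 2, 1], .l [2, 10, 7, 13, 13, 11, 11, 9, 9, 4, 4, 2, 4], .l [3, 15], .l [2, 10, 7, 13], .y [4, 14, 12, 10, 6], .l [5, 8, 6, 1, 7, 4, 10], .l [6, 15], .l [5, 8, 6, 1, 7, 4, 10], .l [7, 10, 2, 13, 13, 11, 11, 9, 9, 7, 7, 5, 1], .l [8, 15], .l [7, 10, 2, 13], .l [9, 12, 8, 8, 6, 1, 7, 4, 8], .l [10, 15], .l [9, 12, 8, 8, 6, 1, 7, 4, 8], .l [11, 14, 12, 12, 8, 8, 6, 1, 7, 4, 6], .l [12, 15], .l [11, 14, 12, 12, 8, 8, 6, 1, 7, 4, 6], .l [13, 16, 14, 14, 12, 12, 8, 8, 6, 1, 7, 4, 1], .l [14, 15], .l [13, 16, 14, 14, 12, 12, 8, 8, 6, 1, 7, 4, 1], .l [13, 14, 12, 12, 10, 10,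 6, 6, 4, 1, 5, 2, 4], .r 1290 [1, 2, 3, 4, 5, 6, 7] [1, 1, 1, 1, 1, 1, 1, 1], .l [13, 14, 12, 12, 10, 10, 6, 6, 4, 1, 5, 2, 4]]),
([p 3 0, s 1 0, g, p 0 1, p 2 0, g, p 4 2, g, p 0 3, g, p 5 4, g, p 0 5, g], .lo 12, [.l [0, 11], .l [0, 8, 7, 10, 10, 8, 8, 4, 4, 2, 1], .l [2, 10, 7, 11, 11, 9, 9, 4, 4, 2, 4], .l [3, 13], .l [2, 10, 7, 11], .y [4, 12, 10, 6], .l [5, 8, 6, 1, 7, 4, 8], .l [6, 13], .l [5, 8, 6, 1, 7, 4, 8], .l [7, 10, 2, 11, 11, 9, 9, 7, 7, 5, 1], .l [8, 13], .l [7, 10, 2, 11], .l [9, 12, 8, 8, 6, 1, 7, 4, 6], .l [10, 13], .l [9, 12, 8, 8, 6, 1, 7, 4, 6], .l [11, 14, 12, 12, 8, 8, 6, 1, 7, 4, 1], .l [12, 13], .l [11, 14, 12, 12, 8, 8, 6, 1, 7, 4, 1], .l [11, 12, 10, 10, 6, 6, 4, 1, 5, 2, 4], .r 1291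 [1, 2, 3, 4, 5, 6] [1, 1, 1, 1, 1, 1, 1], .l [11, 12, 10, 10, 6, 6, 4, 1, 5, 2, 4]]),
([p 3 0, s 1 0, g, p 0 1, p 2 0, g, p 4 2, g, p 0 3, g, p 0 4, g], .lo 10, [.l [0, 9], .l [0, 8, 7, 8, 8, 4, 4, 2, 1], .l [2, 10, 7, 9, 9, 4, 4, 2, 4], .l [3, 11], .l [2, 10, 7, 9], .y [4, 10, 6], .l [5, 8, 6, 1, 7, 4, 6], .l [6, 11], .l [5, 8, 6, 1, 7, 4, 6], .l [7, 10, 2, 9, 9, 7, 7, 5, 1], .l [8, 11], .l [7, 10, 2, 9], .l [9, 12, 8, 8, 6, 1, 7, 4, 1], .l [10, 11], .l [9, 12, 8, 8, 6, 1, 7, 4, 1], .l [9, 10, 6, 6, 4, 1, 5, 2, 4], .r 1292 [1, 2, 3, 4, 5] [1, 1, 1, 1, 1, 1], .l [9, 10, 6, 6, 4, 1, 5, 2, 4]]),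
([p 6 1, s 2 0, g, p 0 2, p 3 0, g, p 4 3, g, p 5 4, g, p 0 5, g, s 1 0, g, p 0 6, g], .hi 1, [.l [3, 1, 15, 12, 6, 7, 6, 6, 4, 4, 2, 6, 1], .l [2, 16, 13, 13, 1], .l [3, 1, 4, 2, 11], .y [1, 3], .l [0, 16, 15, 4, 6, 4, 1], .l [0, 16, 15, 4, 6, 4, 1], .l [3, 1, 5, 3, 10], .l [0, 16, 15, 6, 8, 6, 6, 4, 1], .l [0, 16, 15, 6, 8, 6, 6, 4, 1], .l [3, 1, 7, 5, 10], .l [0, 16, 15, 8, 10, 8, 8, 6, 6, 4, 1], .l [0, 16, 15, 8, 10, 8, 8, 6, 6, 4, 1], .l [3, 1, 9, 7, 10], .l [0, 14, 13, 8, 8, 6, 6, 4, 4, 2, 1], .l [8, 10, 9, 9, 7, 7, 5, 1, 10, 7, 3, 6, 1], .l [4, 16, 11, 1, 13, 1, 6, 4, 1], .l [3, 1, 11, 9, 10], .l [8, 10, 9, 9, 7, 7, 5, 1, 10, 7, 5, 6, 3], .l [4, 16, 11, 1, 13, 1, 4, 2, 3], .l [3, 1, 13, 11, 8], .l [4, 14,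 9, 1, 11, 1, 2, 0, 1], .l [8, 10, 9, 9, 7, 11, 5, 1, 7, 1, 8, 6, 1], .l [12, 11, 14], .l [3, 1, 15, 13, 8]]),
([p 6 1, s 2 0, g, s 1 0, g, p 0 2, p 3 0, g, p 4 3, g, p 5 4, g, p 0 5, g, p 0 6, g], .hi 1, [.l [0, 4, 9, 10, 9, 13, 8, 1, 3, 8, 5, 1, 5], .l [2, 16, 13, 13, 10], .l [3, 1, 6, 4, 1], .l [5, 3, 15, 10, 6, 7, 6, 6, 4, 4, 2, 4, 5], .l [3, 2, 3], .l [5, 3, 6, 2, 3], .y [1, 5], .l [0, 16, 15, 6, 8, 6, 3], .l [0, 16, 15, 6, 8, 6, 3], .l [5, 3, 7, 3, 4], .l [0, 16, 15, 8, 10, 8, 8, 6, 3], .l [0, 16, 15, 8, 10, 8, 8, 6, 3], .l [5, 3, 9, 5, 6], .l [0, 16, 15, 10, 12, 10, 10, 8, 8, 6, 3], .l [0, 16, 15, 10, 12, 10, 10, 8, 8, 6, 3], .l [5, 3, 11, 7, 8], .l [0, 14, 13, 10, 10, 8, 8, 6, 6, 4, 3], .l [9, 10, 8, 14,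 6, 6, 8, 2, 9, 7, 1, 6, 3], .l [3, 2, 12], .l [5, 3, 13, 9, 10], .l [3, 2, 12], .l [7, 14, 6, 6, 8, 2, 9, 7, 1, 6, 7, 3, 1], .l [3, 2, 14], .l [5, 3, 15, 11, 12]]),
([p 6 1, s 2 0, g, p 0 2, p 3 0, g, p 4 3, g, p 5 4, g, p 0 5, g, p 0 6, g, s 1 0, g], .hi 1, [.l [3, 1, 13, 10, 6, 7, 6, 6, 4, 4, 2, 4, 5], .l [2, 14, 11, 11, 12], .l [3, 1, 4, 2, 13], .y [1, 3], .l [0, 14, 13, 4, 6, 4, 1], .l [0, 14, 13, 4, 6, 4, 1], .l [3, 1, 5, 3, 12], .l [0, 14, 13, 6, 8, 6, 6, 4, 1], .l [0, 14, 13, 6, 8, 6, 6, 4, 1], .l [3, 1, 7, 5, 12], .l [0, 14, 13, 8, 10, 8, 8, 6, 6, 4, 1], .l [0, 14, 13, 8, 10, 8, 8, 6, 6, 4, 1], .l [3, 1, 9, 7, 12], .l [0, 12, 11, 8, 8, 6, 6, 4, 4, 2, 1], .l [6, 8, 7, 13, 7, 1, 9, 1, 4, 2, 7, 3, 1], .l [4,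 14, 9, 1, 11, 1, 4, 2, 9], .l [3, 1, 11, 9, 12], .l [4, 12, 7, 1, 9, 1, 2, 0, 7], .l [0, 15, 5, 2, 13, 8, 10, 8, 8, 6, 6, 4, 1], .l [16, 15, 12], .l [3, 1, 13, 11, 12], .l [4, 12, 7, 8, 13, 6, 2, 10, 5, 7, 5, 5, 3], .l [14, 13, 14], .l [3, 1, 15, 13, 10]]),
([p 5 0, s 1 0, g, p 0 1, p 2 0, g, p 3 2, g, p 4 3, g, p 0 4, g, p 0 5, g], .hi 0, [.r 1295 [6, 1, 2, 3, 4, 5] [1, 1, 1, 1, 1, 1, 1], .l [0, 2], .l [3, 2], .l [0, 2], .l [0, 5, 7, 5, 1], .l [0, 5], .l [6, 5], .l [0, 7, 9, 7, 7, 5, 1], .l [0, 7], .l [8, 7], .l [0, 9, 11, 9, 9, 7, 7, 5, 1], .l [0, 9], .l [10, 9], .l [0, 9], .r 1294 [6, 1, 2, 3, 4, 5] [1, 1, 1, 1, 1, 1, 1], .l [0, 11], .l [12, 11], .y [0, 12], .r 1296 [6, 1, 2, 3, 4, 5] [1, 1, 1, 1, 1, 1, 1],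 .l [0, 13], .l [14, 13]]),
([p 4 0, s 1 0, g, p 0 1, p 2 0, g, p 3 2, g, p 5 3, g, p 0 4, g, p 6 5, g, p 7 6, g, p 8 7, g, p 0 8, g], .lo 3, [.l [0, 2], .y [1, 3], .l [4, 12, 7, 9, 11, 6, 6, 4, 4, 2, 4], .l [3, 4], .l [2, 12, 9, 1], .l [14, 16, 15, 15, 13, 13, 9, 9, 7, 7, 5, 1, 6, 3, 4, 2, 4, 1], .l [2, 12, 9, 2, 4, 2, 6], .l [16, 18, 17, 17, 15, 15, 11, 11, 9, 9, 5, 1, 8, 5, 6, 2, 6, 1], .l [2, 12, 9, 2], .l [2, 12, 9, 4, 6, 4, 4, 2, 4], .l [16, 18, 17, 17, 15, 15, 11, 11, 7, 7, 5, 1, 8, 5, 6, 2, 6, 1], .l [2, 12, 9, 4], .l [2, 12, 9, 6, 11, 9, 9, 7, 7, 5, 2], .l [5, 10, 7, 3, 6, 3, 7, 2, 4], .l [2, 12, 9, 6], .l [2, 10, 7, 9, 11, 6, 6, 4, 4, 2, 4], .l [5, 12, 9, 3, 8, 5, 1, 5, 2], .l [2, 10, 7, 9], .l [2, 10,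 7, 11, 13, 11, 11, 6, 6, 4, 4, 2, 4], .l [5, 14, 11, 3, 10, 7, 1, 7, 4], .l [2, 10, 7, 11], .l [2, 10, 7, 13, 15, 13, 13, 11, 11, 6, 6, 4, 4, 2, 4], .l [5, 16, 13, 3, 12, 9, 1, 9, 6], .l [2, 10, 7, 13], .l [2, 10, 7, 15, 17, 15, 15, 13, 13, 11, 11, 6, 6, 4, 4, 2, 4], .l [3, 1, 9, 6, 15, 7, 10, 8, 8, 6, 6, 4, 10, 5, 5, 3, 3, 1], .l [2, 10, 7, 15], .l [5, 20, 17, 3, 16, 13, 1, 13, 10], .l [5, 20, 17, 3, 16, 13, 1, 13, 10], .l [2, 10, 7, 17]]),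
([p 4 0, s 1 0, g, p 0 1, p 2 0, g, p 3 2, g, p 5 3, g, p 0 4, g, p 6 5, g, p 7 6, g, p 0 7, g], .lo 16, [.l [0, 15], .l [0, 10, 9, 14, 14, 12, 12, 10, 10, 6, 6, 4, 4, 2, 1], .l [2, 12, 9, 15, 15, 13, 13, 11, 11, 6, 6, 4, 4, 2, 4], .l [3, 17], .l [2, 12, 9, 15], .y [4, 16, 14, 12, 8, 6], .l [5, 8, 6, 1, 9, 6, 12], .l [6, 17], .l [5, 8, 6, 1, 9, 6, 12], .l [7, 10, 8, 8, 6, 1, 7, 4, 10], .l [8, 17], .l [7, 10, 8, 8, 6, 1, 7, 4, 10], .l [9, 12, 2, 15, 15, 13, 13, 11, 11, 9, 9, 7, 7, 5, 1], .l [10, 17], .l [9, 12, 2, 15], .l [11, 14, 10, 10, 8, 8, 6, 1, 7, 4, 8], .l [12, 17], .l [11, 14, 10, 10, 8, 8, 6, 1, 7, 4, 8], .l [13, 16, 14, 14, 10, 10, 8, 8, 6, 1, 7, 4, 6], .l [14, 17], .l [13, 16, 14, 14, 10, 10, 8, 8, 6,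 1, 7, 4, 6], .l [15, 18, 16, 16, 14, 14, 10, 10, 8, 8, 6, 1, 7, 4, 1], .l [16, 17], .l [15, 18, 16, 16, 14, 14, 10, 10, 8, 8, 6, 1, 7, 4, 1], .l [15, 16, 14, 14, 12, 12, 8, 8, 6, 6, 4, 1, 5, 2, 4], .r 1298 [1, 2, 3, 4, 5, 6, 7, 8] [1, 1, 1, 1, 1, 1, 1, 1, 1], .l [15, 16, 14, 14, 12, 12, 8, 8, 6, 6, 4, 1, 5, 2, 4]]),
([p 4 0, s 1 0, g, p 0 1, p 2 0, g, p 3 2, g, p 5 3, g, p 0 4, g, p 6 5, g, p 0 6, g], .lo 14, [.l [0, 13], .l [0, 10, 9, 12, 12, 10, 10, 6, 6, 4, 4, 2, 1], .l [2, 12, 9, 13, 13, 11, 11, 6, 6, 4, 4, 2, 4], .l [3, 15], .l [2, 12, 9, 13], .y [4, 14, 12, 8, 6], .l [5, 8, 6, 1, 9, 6, 10], .l [6, 15], .l [5, 8, 6, 1, 9, 6, 10], .l [7, 10, 8, 8, 6, 1, 7, 4, 8], .l [8, 15], .l [7, 10, 8, 8, 6, 1, 7, 4, 8],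 .l [9, 12, 2, 13, 13, 11, 11, 9, 9, 7, 7, 5, 1], .l [10, 15], .l [9, 12, 2, 13], .l [11, 14, 10, 10, 8, 8, 6, 1, 7, 4, 6], .l [12, 15], .l [11, 14, 10, 10, 8, 8, 6, 1, 7, 4, 6], .l [13, 16, 14, 14, 10, 10, 8, 8, 6, 1, 7, 4, 1], .l [14, 15], .l [13, 16, 14, 14, 10, 10, 8, 8, 6, 1, 7, 4, 1], .l [13, 14, 12, 12, 8, 8, 6, 6, 4, 1, 5, 2, 4], .r 1299 [1, 2, 3, 4, 5, 6, 7] [1, 1, 1, 1, 1, 1, 1, 1], .l [13, 14, 12, 12, 8, 8, 6, 6, 4, 1, 5, 2, 4]]),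
([p 4 0, s 1 0, g, p 0 1, p 2 0, g, p 3 2, g, p 5 3, g, p 0 4, g, p 0 5, g], .lo 12, [.l [0, 11], .l [0, 10, 9, 10, 10, 6, 6, 4, 4, 2, 1], .l [2, 12, 9, 11, 11, 6, 6, 4, 4, 2, 4], .l [3, 13], .l [2, 12, 9, 11], .y [4, 12, 8, 6], .l [5, 8, 6, 1, 9, 6, 8], .l [6, 13], .l [5, 8, 6, 1, 9, 6, 8], .l [7, 10, 8, 8, 6, 1, 7, 4, 6], .l [8, 13], .l [7, 10, 8, 8, 6, 1, 7, 4, 6], .l [9, 12, 2, 11, 11, 9, 9, 7, 7, 5, 1], .l [10, 13], .l [9, 12, 2, 11], .l [11, 14, 10, 10, 8, 8, 6, 1, 7, 4, 1], .l [12, 13], .l [11, 14, 10, 10, 8, 8, 6, 1, 7, 4, 1], .l [11, 12, 8, 8, 6, 6, 4, 1, 5, 2, 4], .r 1300 [1, 2, 3, 4, 5, 6] [1, 1, 1, 1, 1, 1, 1], .l [11, 12, 8, 8, 6, 6, 4, 1, 5, 2, 4]]),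
([p 4 0, s 1 0, g, p 0 1, p 2 0, g, p 3 2, g, p 0 3, g, p 0 4, g], .lo 8, [.l [0, 7], .l [0, 10, 9, 6, 6, 4, 4, 2, 1], .l [2, 12, 9, 6, 6, 4, 4, 2, 4], .l [3, 9], .l [2, 12, 9, 6], .y [4, 8, 6], .l [5, 8, 6, 1, 9, 6, 3], .l [6, 9], .l [5, 8, 6, 1, 9, 6, 3], .l [7, 10, 8, 8, 6, 1, 7, 4, 1], .l [8, 9], .l [7, 10, 8, 8, 6, 1, 7, 4, 1], .l [7, 8, 6, 6, 4, 1, 7, 4, 1], .r 1297 [1, 2, 3, 5, 4] [1, 1, 1, 1, 1, 1], .l [7, 8, 6, 6, 4, 1, 7, 4, 1], .l [7, 8, 6, 6, 4, 1, 5, 2, 4], .r 1301 [1, 2, 3, 4, 5] [1, 1, 1, 1, 1, 1], .l [7, 8, 6, 6, 4, 1, 5, 2, 4]]),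
([p 3 0, s 1 0, g, p 0 1, p 2 0, g, p 0 2, g, p 0 3, g], .lo 6, [.l [0, 5], .l [0, 8, 7, 4, 4, 2, 1], .l [2, 10, 7, 4, 4, 2, 4], .l [3, 7], .l [2, 10, 7, 4], .y [4, 6], .l [5, 8, 6, 1, 7, 4, 1], .l [6, 7], .l [5, 8, 6, 1, 7, 4, 1], .l [5, 6, 4, 1, 7, 4, 1], .r 1302 [1, 2, 4, 3] [1, 1, 1, 1, 1], .l [5, 6, 4, 1, 7, 4, 1], .l [5, 6, 4, 1, 5, 2, 4], .r 1293 [1, 2, 3, 4] [1, 1, 1, 1, 1], .l [5, 6, 4, 1, 5, 2, 4]]),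
([p 3 1, s 2 0, g, p 0 2, p 0 0, g, s 1 0, g, p 0 3, g], .lo 4, [.l [0, 8, 7, 2, 1], .l [2, 10, 7, 2, 6], .l [3, 5], .l [0, 7, 4, 2, 3], .y [4], .l [3, 1, 9, 6, 1], .r 1303 [2, 4, 3] [1, 1, 3, 1], .l [3, 1, 9, 6, 1], .l [0, 5, 5, 3, 1], .l [3, 1, 9, 6, 3], .l [0, 5, 7, 5, 1], .l [3, 1, 9, 6, 3], .l [3, 1, 7, 4, 6], .l [0, 5, 9, 7, 1], .l [3, 1, 7, 4, 6]]),
([p 5 1, s 3 2, g, p 0 3, s 0 4, g, s 1 0, g, p 0 5, g, m 4 0, g, s 2 0, g], .lo 4, [.l [2, 10, 7, 2, 6, 1], .l [3, 5, 2], .l [2, 10, 7, 2, 6], .l [5, 10, 4, 7, 1, 10, 8, 1], .l [6, 1, 11, 9, 1], .l [3, 1, 9, 6, 1], .l [6, 1, 9, 7, 1, 4, 1, 4, 2, 3], .l [7, 10, 2, 5, 1, 10, 8, 3], .l [8, 3, 11, 7, 1], .l [3, 1, 9, 6, 3], .l [3, 1, 7, 4, 6, 10, 8, 1], .l [10,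 5, 9, 5, 9, 7, 1], .l [3, 1, 7, 4, 6], .y [4, 10], .l [3, 1, 7, 4, 8, 10, 6, 1], .l [10, 5, 9, 5, 9, 7, 1], .l [3, 1, 7, 4, 8], .l [3, 1, 7, 4, 8, 8, 4, 1], .l [1, 11, 13, 5, 2, 5], .l [10, 5, 9, 5, 11, 9, 1], .l [3, 1, 7, 4, 10]]),
([p 5 1, s 3 2, g, p 0 3, s 0 4, g, m 4 0, g, s 1 0, g, p 0 5, g, s 2 0, g], .lo 4, [.l [2, 12, 9, 2, 8, 1], .l [3, 5, 2], .l [2, 12, 9, 2, 8], .l [5, 12, 6, 9, 1, 10, 8, 1], .l [6, 1, 7, 5, 1], .l [3, 1, 11, 8, 1], .y [4, 6], .l [4, 7, 13, 8, 9, 2, 9, 2, 6, 1], .l [6, 1, 7, 5, 1], .l [3, 1, 11, 8, 3], .l [0, 7, 7, 3, 1, 4, 1, 4, 2, 3], .l [0, 7, 9, 5, 1, 6, 1, 6, 2, 5], .l [6, 1, 9, 7, 1], .l [3, 1, 11, 8, 5], .l [3, 1, 9, 6, 8, 10, 8, 1], .l [6, 1, 11, 9, 1], .l [3, 1, 9, 6, 8], .l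 [3, 1, 9, 6, 8, 8, 6, 1], .l [1, 11, 13, 5, 2, 7], .l [6, 1, 13, 11, 1], .l [3, 1, 9, 6, 10]]),
([p 5 1, s 3 2, g, p 0 3, s 0 4, g, s 1 0, g, m 4 0, g, p 0 5, g, s 2 0, g], .lo 4, [.l [2, 12, 9, 2, 8, 3], .l [3, 5, 2], .l [2, 12, 9, 2, 8], .l [5, 12, 6, 9, 1, 10, 8, 3], .l [6, 1, 9, 7, 1], .l [3, 1, 11, 8, 1], .l [0, 5, 5, 3, 1, 4, 1, 4, 2, 3], .l [0, 5, 7, 5, 1, 6, 1, 6, 2, 5], .l [8, 3, 9, 5, 1], .l [3, 1, 11, 8, 3], .y [4, 8], .l [0, 5, 9, 7, 1, 6, 1, 6, 2, 5], .l [8, 3, 9, 5, 1], .l [3, 1, 11, 8, 5], .l [3, 1, 9, 6, 8, 10, 8, 3], .l [8, 3, 11, 7, 1], .l [3, 1, 9, 6, 8], .l [3, 1, 9, 6, 8, 8, 6, 3], .l [1, 11, 13, 5, 2, 5], .l [8, 3, 13, 9, 1], .l [3, 1, 9, 6, 10]]),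
([p 4 1, s 3 2, g, p 0 3, s 0 0, g, s 1 0, g, p 0 4, g, s 2 0, g], .hi 4, [.l [2, 10, 7, 2, 6, 1], .l [2, 10, 7, 2, 6], .l [3, 5, 2], .l [2, 8, 5, 0, 4], .y [4], .l [5, 10, 4, 7, 1, 8, 6, 1], .l [3, 1, 9, 6, 1], .r 1306 [1, 2, 3, 5, 4] [1, 1, 1, 1, 1, 1], .l [7, 10, 2, 5, 1, 8, 6, 3], .l [3, 1, 9, 6, 3], .r 1307 [1, 2, 3, 5, 4] [1, 1, 1, 1, 1, 1], .l [3, 1, 7, 4, 3], .l [3, 1, 7, 4, 6, 8, 6, 1], .l [3, 1, 7, 4, 6], .r 1305 [1, 2, 3, 5, 4] [1, 1, 1, 1, 1, 1], .l [1, 9, 11, 5, 2, 5], .l [3, 1, 7, 4, 8], .l [1, 9, 11, 5, 2, 5]]),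
([p 4 1, s 3 2, g, p 0 3, g, s 1 0, g, p 0 4, g, s 2 0, g], .top 4, [.l [0, 3, 1], .r 1308 [1, 2, 3, 4] [1, 1, 1, 1, 1], .r 1304 [1, 3, 4] [1, 1, 1, 3], .r 1288 [1, 3, 4] [1, 1, 1, 3]]),
([p 3 1, s 0 2, g, s 1 0, g, p 0 3, p 4 0, g, s 0 4, g, s 2 0, g], .lo 1, [.l [12, 10, 3, 9, 6, 8, 6, 1], .r 1309 [1, 2, 5, 3] [1, 1, 1, 4, 1], .l [2, 7, 4, 4, 1], .l [2, 5, 2, 2, 1], .l [3, 2, 10, 6, 8, 1, 4, 1], .l [12, 10, 1, 9, 6, 8, 6, 1], .l [3, 2, 3], .l [6, 4, 5, 1, 4], .l [3, 2, 6, 8, 6, 1], .l [8, 6, 7, 3, 6], .l [3, 2, 6], .l [10, 8, 9, 5, 1, 8, 4, 1], .l [10, 8, 9, 5, 1], .l [3, 2, 8], .y [1, 10], .l [10, 8, 9, 5, 1, 8, 4, 1], .l [10, 8, 9, 5, 1, 8, 4, 1], .l [3, 2, 10]]),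
([p 2 0, s 0 1, g, p 0 2, p 3 0, g, s 0 3, g, s 1 0, g], .hi 0, [.c, .r 1310 [4, 1, 2, 3] [1, 1, 1, 1, 1], .l [0, 2], .l [3, 2], .y [0, 3], .l [6, 5, 5, 2, 5], .l [0, 5], .l [6, 5], .l [0, 5, 5, 3, 2], .l [8, 7, 7, 4, 1], .l [0, 7], .l [8, 7], .l [10, 9, 9, 6, 1], .l [0, 9], .l [10, 9]]),
([p 1 0, s 0 0, g, p 0 1, p 2 0, g, s 0 2, g], .hi 1, [.y [1], .r 1272 [3, 1, 2] [1, 1, 1, 1], .r 454 [3] [1, 6], .r 854 [3, 1] [1, 1, 4], .r 454 [3] [1, 4], .r 1271 [3, 1, 2] [1, 1, 1, 1], .l [1, 5, 7, 5, 1], .l [6, 4, 5, 3, 4], .l [1, 5, 5, 3, 1], .r 1311 [3, 1, 2] [1, 1, 1, 1], .l [7, 6, 7, 4, 1], .l [8, 6, 7, 5, 1]]),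
([p 1 0, g, p 0 1, p 2 0, g, s 0 2, g], .top 1, [.r 334 [] [4], .r 1312 [1, 2] [1, 1, 1], .r 334 [] [6], .r 444 [] [6]]),
([p 2 1, g, s 1 0, g, p 0 2, p 0 3, p 4 0, g, s 3 0, g, p 0 4, g], .lo 5, [.l [2, 6, 3], .l [2, 6], .l [1, 6, 4, 5], .l [0, 1, 1, 2, 1], .l [4, 6, 1], .l [4, 6], .l [3, 6, 2, 5], .l [2, 1, 7, 2, 2, 1, 6, 4, 1], .r 1313 [2, 5] [3, 2, 5], .l [2, 1, 9, 4, 4, 1, 8, 4, 1], .l [2, 1, 4, 8, 1, 6, 1], .y [5, 8], .r 1313 [2, 5] [3, 4, 3], .l [2, 1, 7, 2, 7, 4, 1], .l [2, 1, 7, 10, 7, 8, 3, 6, 1], .r 1313 [2, 5] [3, 6, 1], .l [0, 7, 12, 9, 3, 6, 7, 4, 1], .l [7, 2, 11, 6, 1, 6, 4, 6, 3]]),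
([p 1 0, g, p 0 1, p 0 2, p 3 0, g, s 2 0, g, p 0 3, g], .hi 0, [.r 1314 [4, 1, 2, 3] [1, 1, 1, 1, 1], .l [0, 1], .l [2, 1], .y [0, 2], .l [0, 2], .l [0, 5, 9, 7, 4], .l [0, 5], .l [6, 5], .l [0, 7, 9, 5, 6], .l [0, 7], .l [8, 7], .l [0, 7], .l [0, 9, 3, 4, 1], .l [0, 9], .l [10, 9]]),
([p 1 0, s 0 0, g, p 0 1, p 3 2, p 0 3, s 0 0, g, s 2 0, g], .lo 5, [.l [0, 4], .l [0, 3, 2, 3, 5], .l [2, 5, 2, 5, 7], .l [3, 6], .l [2, 5, 2, 5], .l [8, 3, 0], .l [10, 5, 2], .r 1270 [1, 2, 3, 4] [1, 1, 1, 1], .l [10, 5, 2], .y [4, 8, 5], .l [8, 3, 8], .r 1315 [1, 2, 4] [2, 2, 1, 1], .l [8, 3, 8]]),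
([p 1 0, g, p 0 1, p 3 2, p 0 3, s 0 0, g, s 2 0, g], .top 1, [.r 334 [] [6], .r 1316 [1, 2, 3] [1, 1, 1], .r 334 [] [8], .r 444 [] [8]]),
([p 1 0, s 0 0, g, p 5 1, p 3 2, p 0 3, p 4 0, g, p 0 4, g, s 2 0, g, p 0 5, g], .hi 6, [.l [10, 5, 8, 6, 10, 5, 1, 7, 5, 3, 1], .l [12, 5, 8, 6, 12, 7, 1, 9, 7, 5, 1], .l [12, 5, 8, 6, 12, 7, 1, 9, 7, 5, 1], .l [8, 4], .l [5, 12, 9, 3, 9, 2, 8, 4, 3, 5, 1], .l [8, 1, 13, 8, 9, 2, 1, 5, 1, 7, 4], .l [6, 7], .l [8, 1], .y [6, 8], .l [6, 9, 7, 13, 11, 4, 5, 9, 5], .l [6, 9], .l [10, 3], .l [6, 11, 9, 13, 11, 4, 7, 9, 3], .l [6, 11], .l [12, 5], .l [6, 11], .l [8, 12, 6, 7, 2, 12, 3, 7, 8, 4, 1], .l [6, 13], .l [14, 7]]),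
([p 1 0, g, p 0 1, p 3 2, p 4 3, p 5 0, g, p 0 4, g, p 0 5, g, s 2 0, g], .hi 5, [.l [5, 12, 9, 10, 7, 0, 9, 7, 1, 6, 3], .l [5, 7, 3, 10, 4, 7, 2, 6], .l [7, 4], .l [3, 5, 3, 8, 4, 5, 0, 4], .l [7, 1, 8, 5, 9], .l [5, 6], .l [7, 1], .l [5, 6], .l [9, 3, 10, 6, 9, 1, 7, 7, 6], .l [5, 8], .l [9, 3], .y [5, 9], .l [0, 5, 10, 7, 1, 3, 6, 8, 6, 4, 5], .l [5, 10], .l [11, 5], .l [5, 12, 7, 2, 9, 2, 6, 2, 7, 2, 3], .l [5, 12], .l [13, 7]]),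
([p 2 1, s 0 0, g, p 7 2, p 4 3, p 5 4, p 6 5, g, p 0 6, g, s 1 0, g, s 3 7, g], .lo 8, [.l [0, 3, 2, 6, 6, 4, 4, 3, 6], .l [2, 5, 2, 8, 8, 6, 6, 5, 8], .l [3, 9], .l [0, 11, 8, 6, 6, 4, 4, 3, 7], .l [7, 10, 8, 8, 7, 10, 6, 9, 8, 1, 1, 6, 3], .l [8, 9], .l [0, 11, 3, 1, 6, 9, 1, 8, 8, 7, 7, 6, 1], .l [2, 3, 0, 12, 5, 1, 3, 8, 8, 5, 5, 4, 1], .l [4, 7, 12, 8, 4, 9, 7, 10, 2, 4, 2, 6, 6, 0, 1], .l [2, 3, 0, 12, 5, 1, 3, 8, 8, 5, 5, 4, 1], .y [0, 10, 8, 6, 5, 4, 12, 3], .l [0, 9, 11, 9, 9, 7, 7, 6, 7, 6, 2, 4, 5], .l [0, 9, 11, 9, 9, 7, 7, 6, 7], .l [0, 9, 1, 9, 4, 2, 10, 5, 5, 4, 1], .l [0, 9, 13, 11, 11, 9, 9, 8, 8, 7, 2], .l [0, 9, 13, 11, 11, 9, 9, 8, 5], .l [5, 6, 5, 10, 3, 10, 6, 4, 4, 3, 3, 0, 4]]),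
([p 1 0, s 0 0, g, p 6 1, p 3 2, p 4 3, p 5 4, g, p 0 5, g, s 2 6, g], .hi 0, [.c, .l [7, 0, 6, 8, 1, 4, 8, 4, 5, 0, 5], .l [0, 2], .l [3, 2], .l [0, 7, 9, 7, 7, 6, 7], .l [0, 7], .l [8, 7], .y [0, 8, 6, 5, 4, 10, 3], .r 1320 [7, 1, 2, 3, 4, 5, 6] [1, 1, 1, 1, 1], .l [0, 9], .l [10, 9], .l [4, 9, 1, 4, 9, 1, 7, 1, 4, 5, 1], .l [0, 11], .l [12, 11]]),
([p 1 0, s 0 0, g, p 5 1, p 3 2, p 0 3, p 4 0, g, p 0 4, g, s 2 5, g], .lo 5, [.y [0, 5, 4, 10, 3], .l [0, 3, 2, 3, 7], .l [2, 5, 2, 5, 9], .l [3, 6], .l [2, 5, 2, 5], .r 1321 [1, 2, 3, 6, 4, 5] [1, 1, 1, 1], .l [12, 7, 2], .r 1319 [1, 2, 3, 6, 4] [2, 1, 1, 1, 1], .l [4, 11, 6, 2, 4, 2, 7], .l [12, 7, 4], .l [6, 10, 8, 10, 6, 2, 4, 8, 5], .l [12, 7, 4], .l [10, 5,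 10], .r 1315 [1, 2, 6] [2, 4, 1, 1], .l [10, 5, 10]]),
([p 1 0, s 0 0, g, p 0 1, p 3 2, p 0 3, p 4 0, g, p 0 4, g, s 2 0, g], .lo 3, [.y [0, 3], .l [10, 5, 8, 1, 8, 6, 4], .l [12, 5, 8, 1, 10, 8, 4], .l [3, 4], .l [2, 5, 2, 1], .l [4, 6, 4, 7, 2, 3, 0, 2], .l [2, 4, 11, 10, 0, 5, 7, 5, 6], .l [4, 8, 6, 9, 2, 5, 2, 4], .l [2, 3, 0, 6], .l [6, 10, 6, 7, 10, 7, 5, 7, 3], .l [6, 10, 6, 7, 10, 7, 5, 7, 3], .l [2, 3, 0, 8], .r 1322 [1, 2, 3, 4, 5] [1, 1, 1, 1], .l [11, 1, 5, 6, 9, 8, 4], .r 1318 [1, 2, 3, 4, 5] [1, 1, 1, 1, 1], .l [2, 3, 0, 10]]),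
([p 1 0, s 0 0, g, p 0 1, p 3 2, p 0 3, p 0 0, g, s 2 0, g], .lo 6, [.l [0, 5], .l [8, 3, 3, 2, 4], .l [10, 3, 3, 2, 4], .l [3, 7], .l [2, 5, 2, 6], .y [6], .l [10, 5, 5, 4, 1], .r 1323 [1, 2, 3, 4] [1, 1, 1, 1], .l [10, 5, 5, 4, 1], .l [4, 7, 7, 5, 4], .l [8, 3, 3, 2, 7], .l [4, 7, 9, 7, 4], .l [8, 3, 3, 2, 7]]),
([p 1 0, g, p 0 1, p 3 2, p 0 3, p 0 0, g, s 2 0, g], .top 1, [.r 334 [] [6], .r 1324 [1, 2, 3] [1, 1, 1], .r 334 [] [8], .r 444 [] [8]]),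
([p 2 0, g, m 0 1, g, p 0 2, p 4 3, g, p 0 4, m 1 0, g, s 3 0, g], .hi 8, [.l [12, 4, 4, 2, 7], .l [1, 6, 4, 8], .l [2, 9], .y [2, 8], .l [12, 4, 4, 2, 5], .l [3, 6, 2, 8], .l [4, 9], .l [3, 4, 0, 6], .l [6, 10, 5, 7, 5, 2, 5], .l [5, 11, 4, 2, 8], .l [7, 9], .l [5, 9, 2, 0, 6], .l [12, 6, 6, 4, 1], .l [7, 8, 2, 4, 2, 7], .l [5, 8, 4, 9, 2, 5, 2, 5], .l [10, 4, 4, 2, 9], .l [7, 8, 2, 4, 2, 9], .l [5, 9, 11, 9, 6]]),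
([p 1 0, g, p 0 1, p 3 2, p 4 3, m 0 0, g, p 0 4, g, s 2 0, g], .lo 5, [.l [5, 4], .l [7, 4, 10, 7, 7, 6, 2, 6, 1], .l [7, 4], .r 1326 [5, 1, 2, 3] [1, 1, 0, 3, 1], .y [5], .l [7, 1, 8, 5, 7], .l [7, 1], .l [5, 6], .l [9, 3, 6, 9, 7, 2, 4, 5, 2], .l [9, 3], .l [5, 8], .l [9, 3, 6, 3, 1, 3, 5, 3, 0], .l [11, 5, 8, 5, 3, 5, 7, 5, 2], .l [11, 5], .l [5, 10]]),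
([p 1 0, g, p 0 1, p 3 2, p 0 3, m 0 0, g, s 2 0, g], .lo 4, [.l [0, 3], .l [1, 4, 2, 4, 6], .l [2, 5], .l [1, 4, 2, 4], .l [3, 6, 2, 0, 4], .l [9, 5, 2], .r 1327 [1, 2, 3, 4] [1, 1, 1, 1], .l [9, 5, 2], .y [3, 7, 4], .l [7, 3, 7], .r 1315 [1, 2, 4] [1, 2, 1, 1], .l [7, 3, 7]]),
([p 1 0, g, p 0 1, p 3 2, p 0 3, g, s 2 0, g], .top 5, [.l [3, 4, 3], .r 1317 [1, 2, 3] [1, 1, 1], .r 1325 [1, 2, 3] [1, 1, 1], .r 1328 [1, 2, 3] [1, 1, 1]]),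
([p 2 1, g, p 4 2, p 9 3, g, s 3 0, g, p 5 4, g, p 6 5, g, p 7 6, g, p 8 7, g, p 0 8, g, p 0 9, g, s 1 0, g], .lo 15, [.l [2, 16, 16, 14, 14, 12, 12, 10, 10, 8, 10, 6, 1], .l [2, 16], .l [0, 20, 18, 14, 14, 12, 12, 10, 10, 8, 8, 6, 8, 4, 7], .l [16, 17, 15, 15, 13, 13, 11, 11, 9, 9, 2, 7, 3, 7, 3, 0, 3], .l [5, 16], .l [0, 20, 15, 11, 11, 9, 9, 7, 7, 5, 9, 1, 9, 1, 5, 3, 3, 5], .l [14, 15, 13, 13, 11, 11, 9, 9, 7, 7, 2, 2, 0, 3, 5, 3, 3, 1], .l [6, 9, 4, 7, 1, 15, 13, 2, 9], .l [7, 16], .l [0, 20, 13, 9, 9, 7, 7, 5, 5, 3, 9, 3, 9, 1, 3, 1, 1, 5], .l [8, 11, 9, 9, 4, 7, 1, 13, 11, 2, 7], .l [9, 16], .l [0, 20, 11, 7, 7, 5, 5, 3, 11, 5, 9, 7, 9, 1, 3, 1, 1, 5], .l [10, 13, 11, 11, 9, 9, 4, 7, 1, 11, 9, 2, 5], .l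 [11, 16], .l [0, 20, 9, 5, 5, 3, 13, 7, 11, 9, 9, 7, 9, 1, 3, 1, 1, 5], .l [12, 15, 13, 13, 11, 11, 9, 9, 4, 7, 1, 9, 7, 2, 3], .l [13, 16], .l [0, 20, 7, 3, 15, 9, 13, 11, 11, 9, 9, 7, 9, 1, 3, 1, 1, 5], .l [14, 17, 15, 15, 13, 13, 11, 11, 9, 9, 4, 7, 1, 7, 5, 2, 1], .l [15, 16], .l [12, 13, 11, 11, 9, 15, 9, 3, 12, 7, 1, 10, 2, 2, 0, 5], .l [14, 15, 13, 13, 11, 11, 9, 9, 7, 7, 2, 5, 1, 7, 5, 0, 1], .l [21, 20, 20, 18, 18, 13, 13, 11, 11, 9, 9, 7, 7, 5, 5, 3, 7, 5], .l [10, 19, 11, 3, 16, 9, 1, 11, 3, 9, 7, 7, 8, 1], .l [14, 15, 13, 13, 11, 11, 9, 9, 7, 7, 2, 5, 1, 5, 3, 0, 3], .l [21, 20, 20, 18, 18, 13, 13, 11, 11, 9, 9, 7, 7, 5, 9, 7, 3, 1], .l [10, 17, 9, 13, 12, 2, 12, 7, 12, 4, 2, 3], .y [0, 19, 15, 13,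 11, 9, 7, 2], .l [0, 18, 20, 16, 16, 14, 14, 12, 12, 10, 10, 8, 10, 6, 1], .l [0, 18, 20, 16, 16, 14, 14, 12, 12, 10, 10, 8, 10, 6, 1], .l [10, 17, 9, 13, 12, 2, 12, 7, 14, 6, 2, 5]]),
([p 2 1, g, p 4 2, p 8 3, g, s 3 0, g, p 5 4, g, p 6 5, g, p 7 6, g, p 0 7, g, p 0 8, g, s 1 0, g], .lo 13, [.l [2, 14, 14, 12, 12, 10, 10, 8, 10, 6, 1], .l [2, 14], .l [0, 18, 16, 12, 12, 10, 10, 8, 8, 6, 8, 4, 7], .l [14, 15, 13, 13, 11, 11, 9, 9, 2, 7, 3, 7, 3, 0, 3], .l [5, 14], .l [4, 9, 6, 6, 4, 11], .l [8, 3, 11, 4, 13, 8, 2, 8, 3, 1, 4, 6, 3], .l [6, 9, 4, 7, 1, 13, 11, 2, 7], .l [7, 14], .l [6, 9, 4, 4, 2, 11], .l [8, 11, 9, 9, 4, 7, 1, 11, 9, 2, 5], .l [9, 14], .l [8, 11, 9, 9, 4, 4, 2, 9], .l [10, 13, 11, 11, 9, 9, 4,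 7, 1, 9, 7, 2, 3], .l [11, 14], .l [8, 17, 11, 3, 14, 9, 3, 3, 1, 10, 2, 2, 0, 5], .l [12, 15, 13, 13, 11, 11, 9, 9, 4, 7, 1, 7, 5, 2, 1], .l [13, 14], .l [10, 11, 9, 15, 9, 3, 12, 7, 1, 10, 2, 2, 0, 5], .l [12, 13, 11, 11, 9, 9, 7, 7, 2, 5, 1, 7, 5, 0, 1], .r 1330 [1, 2, 3, 4, 5, 6, 7, 9, 8] [1, 1, 1, 1, 1, 1, 1, 1, 1, 1], .l [10, 17, 9, 3, 14, 9, 1, 9, 1, 7, 8, 1], .l [12, 13, 11, 11, 9, 9, 7, 7, 2, 5, 1, 5, 3, 0, 3], .l [12, 13, 11, 11, 9, 9, 7, 7, 2, 5, 1, 9, 5, 1, 5, 0, 1], .l [12, 13, 11, 11, 9, 9, 7, 7, 2, 2, 0, 7], .y [0, 17, 13, 11, 9, 7, 2], .l [0, 16, 18, 14, 14, 12, 12, 10, 10, 8, 10, 6, 1], .l [0, 16, 18, 14, 14, 12, 12, 10, 10, 8, 10, 6, 1], .l [12, 13, 11, 11, 9, 9, 7, 7, 2, 2, 0, 9]]),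
([p 2 1, g, p 4 2, p 7 3, g, s 3 0, g, p 5 4, g, p 6 5, g, p 0 6, g, p 0 7, g, s 1 0, g], .lo 11, [.l [2, 12, 12, 10, 10, 8, 10, 6, 1], .l [2, 12], .l [0, 16, 14, 10, 10, 8, 8, 6, 8, 4, 7], .l [12, 13, 11, 11, 9, 9, 2, 7, 3, 7, 3, 0, 3], .l [5, 12], .l [4, 9, 6, 6, 4, 9], .l [8, 3, 9, 2, 11, 8, 2, 6, 4, 6, 3], .l [6, 9, 4, 7, 1, 11, 9, 2, 5], .l [7, 12], .l [6, 9, 4, 4, 2, 9], .l [8, 11, 9, 9, 4, 7, 1, 9, 7, 2, 3], .l [9, 12], .l [8, 11, 9, 9, 4, 4, 2, 7], .l [10, 13, 11, 11, 9, 9, 4, 7, 1, 7, 5, 2, 1], .l [11, 12], .l [8, 15, 9, 3, 12, 7, 1, 10, 2, 2, 0, 5], .l [10, 11, 9, 9, 7, 7, 2, 5, 1, 7, 5, 0, 1], .r 1331 [1, 2, 3, 4, 5, 6, 8, 7] [1, 1, 1, 1, 1, 1, 1, 1, 1], .l [10, 11, 9, 9, 7, 7, 2, 2, 0, 5], .l [10, 11,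 9, 9, 7, 7, 2, 5, 1, 5, 3, 0, 3], .l [10, 11, 9, 9, 7, 7, 2, 5, 1, 9, 5, 1, 5, 0, 1], .l [10, 11, 9, 9, 7, 7, 2, 2, 0, 7], .y [0, 15, 11, 9, 7, 2], .l [0, 14, 16, 12, 12, 10, 10, 8, 10, 6, 1], .l [0, 14, 16, 12, 12, 10, 10, 8, 10, 6, 1], .l [10, 11, 9, 9, 7, 7, 2, 2, 0, 9]]),
([p 3 1, s 0 2, g, p 6 3, p 8 4, g, s 4 5, g, p 7 6, g, p 5 7, g, p 0 8, g, s 1 0, g, s 2 0, g], .lo 1, [.l [2, 8, 1, 12, 10, 2, 2, 9], .l [3, 1, 7, 1, 11, 9, 1], .l [2, 5, 2, 2, 13], .l [1, 5, 13, 11, 1], .l [0, 15, 7, 3, 9, 3, 9, 1, 3, 1, 1, 6, 1], .l [0, 3, 2, 4, 12, 10, 11], .l [1, 7, 13, 9, 1], .l [0, 15, 9, 5, 9, 1, 9, 1, 5, 3, 3, 6, 3], .l [0, 3, 2, 6, 12, 8, 11], .l [1, 9, 11, 9, 11, 7, 1], .l [1, 17, 11, 5, 5, 1, 3, 11, 3, 8, 1, 6,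 1], .l [0, 3, 2, 8, 10, 8, 10, 6, 9], .l [1, 11, 13, 5, 1], .l [0, 15, 9, 3, 9, 1, 9, 1, 3, 1, 1, 6, 3], .l [0, 3, 2, 10, 12, 4, 11], .l [9, 14, 5, 13, 1, 10, 1, 4, 8, 1], .l [1, 17, 9, 13, 12, 12, 10, 3, 11, 6, 8, 4, 1], .l [16, 15, 12], .l [14, 13, 12], .l [1, 17, 11, 3, 9, 13, 10, 8, 2, 6, 4, 5], .l [1, 17, 11, 3, 9, 13, 10, 8, 2, 6, 4, 5], .l [14, 13, 14], .y [1, 16], .l [1, 17, 11, 3, 9, 13, 10, 8, 2, 6, 4, 5], .l [16, 14, 15, 13, 13, 8, 8, 6, 10, 8, 10, 6, 7], .l [14, 13, 16]]),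
([p 2 1, s 0 0, g, p 5 2, p 7 3, g, s 3 4, g, p 6 5, g, p 4 6, g, p 0 7, g, s 1 0, g], .hi 1, [.y [1], .l [2, 8, 1, 12, 10, 2, 2, 9], .l [2, 5, 2, 2, 13], .l [3, 1, 7, 1, 11, 9, 1], .l [1, 5, 13, 11, 1], .l [0, 3, 2, 4, 12, 10, 11], .l [0, 15, 7, 3, 9, 3, 9, 1, 3, 1, 1, 6, 1], .l [1, 7, 13, 9, 1], .l [0, 3, 2, 6, 12, 8, 11], .l [0, 15, 9, 5, 9, 1, 9, 1, 5, 3, 3, 6, 3], .l [1, 9, 11, 9, 11, 7, 1], .l [0, 3, 2, 8, 10, 8, 10, 6, 9], .l [11, 12, 8, 8, 3, 3, 0, 4, 8, 6, 4, 2, 5], .l [1, 11, 13, 5, 1], .l [0, 3, 2, 10, 12, 4, 11], .l [0, 15, 9, 3, 9, 1, 9, 1, 3, 1, 1, 6, 3], .l [0, 3, 2, 10, 10, 2, 9], .l [9, 14, 5, 13, 1, 10, 1, 4, 8, 1], .l [16, 15, 12], .l [5, 14, 9, 13, 1, 5, 3, 10, 3, 3, 1, 1, 5], .r 1333 [1, 8,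 2, 3, 4, 5, 6, 7] [1, 1, 1, 1, 1, 1, 1, 1], .l [14, 13, 14], .l [5, 16, 11, 13, 12, 3, 5, 10, 3, 7, 1, 3, 1]]),
([p 2 1, g, p 5 2, p 7 3, g, s 3 4, g, p 6 5, g, p 4 6, g, p 0 7, g, s 1 0, g], .top 1, [.l [3, 6, 3, 3, 2, 4, 6, 4, 5], .r 1334 [1, 2, 3, 4, 5, 6, 7] [1, 1, 1, 1, 1, 1, 1], .r 334 [] [14], .r 444 [] [14]]),
([p 2 1, g, p 4 2, p 6 3, g, s 3 0, g, p 5 4, g, p 0 5, g, p 0 6, g, s 1 0, g], .lo 9, [.l [2, 10, 10, 8, 10, 6, 1], .l [2, 10], .l [0, 14, 12, 8, 8, 6, 8, 4, 7], .l [10, 11, 9, 9, 2, 7, 3, 7, 3, 0, 3], .l [5, 10], .l [4, 9, 6, 6, 4, 7], .r 1335 [1, 2, 3, 7, 4, 5, 6] [1, 1, 1, 1, 1, 1, 1], .l [6, 9, 4, 7, 1, 9, 7, 2, 3], .l [7, 10], .l [6, 9, 4, 4, 2, 7], .l [8, 11, 9, 9, 4, 7, 1, 7, 5, 2, 1], .l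 [9, 10], .l [8, 11, 9, 9, 4, 4, 2, 1], .l [8, 9, 7, 7, 2, 5, 1, 7, 5, 0, 1], .r 1332 [1, 2, 3, 4, 5, 7, 6] [1, 1, 1, 1, 1, 1, 1, 1], .l [8, 9, 7, 7, 2, 2, 0, 5], .l [8, 9, 7, 7, 2, 5, 1, 5, 3, 0, 3], .l [8, 9, 7, 7, 2, 5, 1, 9, 5, 1, 5, 0, 1], .l [8, 9, 7, 7, 2, 2, 0, 7], .y [0, 13, 9, 7, 2], .l [0, 12, 14, 10, 10, 8, 10, 6, 1], .l [0, 12, 14, 10, 10, 8, 10, 6, 1], .l [8, 9, 7, 7, 2, 2, 0, 9]]),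
([p 3 1, s 0 2, g, p 6 3, p 7 4, g, s 4 5, g, p 5 6, g, p 0 7, g, s 2 0, g, s 1 0, g], .lo 1, [.l [2, 8, 1, 10, 8, 2, 2, 9], .l [3, 1, 7, 1, 9, 7, 1], .l [2, 5, 2, 2, 13], .l [1, 5, 11, 9, 1], .l [0, 15, 12, 0, 13, 9, 3, 10, 5], .l [0, 3, 2, 4, 10, 8, 11], .l [1, 7, 11, 7, 1], .l [0, 15, 12, 0, 13, 7, 1, 10, 7], .l [0, 3, 2, 6, 10, 6, 11], .l [1, 9, 11, 5, 1], .l [7, 8, 3, 3, 0, 4, 8, 6, 6, 3, 1, 2, 5], .l [0, 3, 2, 8, 10, 4, 11], .l [0, 15, 1, 12, 4, 1, 6, 4, 8, 1], .l [0, 15, 1, 12, 4, 1, 6, 4, 8, 1], .l [16, 15, 10], .y [1, 12], .l [0, 15, 1, 12, 4, 1, 6, 4, 8, 1], .l [12, 10, 4, 1, 11, 2, 10, 6, 4, 7], .l [16, 15, 12], .l [14, 13, 12], .l [0, 13, 1, 10, 4, 1, 6, 4, 6, 7], .l [3, 16, 13, 10, 7, 1, 1, 10, 4,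 8, 8, 0, 5], .l [14, 13, 14]]),
([p 3 1, s 0 2, g, p 6 3, p 7 4, s 0 0, g, s 4 5, g, p 5 6, g, p 0 7, g, s 1 0, g, s 2 0, g], .hi 5, [.l [1, 4, 10, 9, 1], .l [3, 6, 12, 11, 1], .l [2, 5, 2, 5, 6], .l [3, 6, 7], .y [5], .l [0, 9, 4, 1, 11, 7, 2, 11], .l [6, 11, 7, 7, 4, 7, 4], .l [8, 11, 5, 9, 1, 9, 6, 2, 1], .l [16, 9, 10, 7, 10, 8, 10, 11, 8, 5], .l [7, 2, 7], .l [7, 10, 14, 10, 13, 7, 8, 1], .l [2, 11, 5, 11, 4, 0, 5], .l [7, 2, 9], .l [2, 11, 5, 11, 4, 0, 5], .l [7, 2, 9], .l [15, 14, 15, 11, 7, 9, 10, 1], .l [7, 2, 11], .l [7, 8, 14, 12, 13, 7, 8, 3], .l [0, 12, 14, 6, 12, 11, 2, 11], .l [7, 2, 13], .l [0, 12, 14, 6, 7, 6, 2, 11], .l [0, 12, 16, 8, 14, 13, 2, 3], .l [7, 2, 15], .l [0, 12, 16, 8, 9, 8, 2, 3]]),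
([p 2 1, s 0 0, g, p 5 2, p 6 3, s 0 0, g, s 3 4, g, p 4 5, g, p 0 6, g, s 1 0, g], .hi 1, [.y [1], .l [2, 9, 2, 11, 8, 2, 2, 9], .l [2, 5, 2, 2, 12], .l [3, 1, 8, 2, 10, 7, 1], .l [1, 4, 10, 9, 1], .l [1, 6, 12, 9, 1], .l [0, 3, 2, 5, 11, 8, 10], .l [0, 14, 11, 0, 12, 7, 3, 9, 4], .l [1, 8, 12, 7, 1], .l [0, 3, 2, 7, 11, 6, 10], .l [0, 14, 11, 0, 12, 5, 1, 9, 6], .l [1, 10, 12, 5, 1], .l [0, 3, 2, 9, 11, 4, 10], .l [8, 9, 3, 3, 0, 5, 9, 6, 6, 3, 1, 2, 5], .l [0, 3, 2, 9, 9, 2, 8], .r 1337 [1, 7, 2, 3, 4, 5, 6] [1, 2, 1, 1, 1, 1, 1], .l [15, 14, 11], .l [2, 7, 2, 13, 8, 9, 0, 5, 1, 6, 3, 5, 3], .r 1338 [1, 7, 2, 3, 4, 5, 6] [1, 1, 1, 1, 1, 1, 1], .l [13, 12, 13], .l [3, 15, 12, 9, 5, 1, 1, 9, 4, 8, 8, 0, 5]]),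
([p 2 1, g, p 5 2, p 6 3, s 0 0, g, s 3 4, g, p 4 5, g, p 0 6, g, s 1 0, g], .top 1, [.l [5, 2, 6, 2, 8], .r 1339 [1, 2, 3, 4, 5, 6] [1, 1, 1, 1, 1, 1], .r 334 [] [13], .r 444 [] [13]]),
([p 2 1, g, p 4 2, p 5 3, s 0 0, g, s 3 0, g, p 0 4, g, p 0 5, g, s 1 0, g], .lo 8, [.l [2, 9, 11, 6, 1], .l [2, 9], .l [0, 13, 11, 7, 9, 4, 8], .l [6, 2, 6], .l [9, 10, 2, 8, 4, 8, 3, 0, 3], .l [6, 9], .l [5, 10, 6, 6, 4, 3], .r 1340 [1, 2, 3, 6, 4, 5] [1, 1, 1, 1, 1, 1], .l [7, 10, 4, 8, 2, 8, 5, 2, 1], .l [8, 9], .l [7, 10, 4, 4, 2, 1], .l [7, 8, 2, 6, 2, 8, 5, 0, 1], .r 1336 [1, 2, 3, 4, 6, 5] [1, 2, 1, 1, 1, 1, 1], .l [7, 8, 2, 2, 0, 6], .l [7, 8, 2, 6, 2, 6, 3, 0, 5], .l [7, 8, 2, 6, 2, 10, 5, 1, 5, 0, 1], .l [7, 8, 2, 2,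 0, 8], .y [0, 12, 8, 2], .l [0, 11, 13, 9, 11, 6, 1], .l [0, 11, 13, 9, 11, 6, 1], .l [7, 8, 2, 2, 0, 10]]),
([p 2 1, g, s 1 0, g, p 0 2, p 0 3, m 0 4, g, s 3 0, g, m 4 0, g], .lo 5, [.l [2, 6, 3], .l [2, 6], .l [1, 6, 4, 5], .l [0, 1, 1, 2, 1], .l [4, 6, 1], .l [4, 6], .l [3, 6, 2, 5], .r 1313 [2, 5] [3, 2, 5], .l [2, 1, 9, 4, 4, 1, 8, 4, 1], .l [2, 1, 4, 8, 1, 6, 1], .y [5, 8], .r 1313 [2, 5] [3, 4, 3], .l [2, 1, 7, 2, 7, 4, 1], .l [2, 1, 7, 10, 7, 8, 3, 6, 1], .l [2, 1, 7, 8, 5, 6, 1, 4, 1], .r 1313 [2, 5] [3, 6, 1], .l [0, 7, 12, 9, 3, 6, 7, 4, 1], .l [7, 2, 11, 6, 1, 6, 4, 6, 3]]),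
([p 1 0, g, p 0 1, p 0 2, m 0 3, g, s 2 0, g, m 3 0, g], .hi 0, [.r 1342 [4, 1, 2, 3] [1, 1, 1, 1, 1], .l [0, 1], .l [2, 1], .y [0, 2], .l [0, 2], .l [4, 3], .l [0, 5, 9, 7, 4], .l [0, 5], .l [6, 5], .l [0, 7, 9, 5, 6], .l [0, 7], .l [8, 7], .l [0, 9, 3, 4, 1], .l [0, 9], .l [10, 9]])]

def d05_1 : List (List Item × Qry × List Rf) := [
([p 1 0, g, p 4 1, p 5 2, m 0 3, g, m 3 0, g, s 2 0, g, p 0 4, g, p 0 5, g], .lo 4, [.l [4, 3], .l [1, 10, 4, 12, 7, 2, 9], .l [6, 3], .l [6, 12, 9, 5, 9, 2, 8, 3, 8, 2, 5], .l [6, 1, 7, 5, 6], .l [6, 1], .l [4, 5], .y [4, 6], .l [4, 12, 9, 3, 9, 2, 8, 3, 8, 2, 5], .l [8, 3], .l [4, 7], .l [4, 10, 7, 3, 7, 2, 6, 3, 6, 2, 3], .l [9, 12, 4, 10, 4, 10, 5, 2, 7], .l [10, 5], .l [4, 9],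 .l [0, 12, 7, 9, 3, 11, 8, 5, 1, 6, 3], .l [12, 7], .l [4, 11], .l [2, 10, 9, 13, 9, 5, 9, 2, 4, 2, 3], .l [14, 9], .l [4, 13]]),
([p 1 0, g, p 3 1, p 4 2, m 0 0, g, s 2 0, g, p 0 3, g, p 0 4, g], .hi 4, [.l [1, 4, 2, 4, 5], .l [1, 4, 2, 4], .l [2, 5], .y [4], .l [5, 10, 6, 6, 4, 6, 3], .l [3, 10, 8, 8, 6, 1], .r 1344 [1, 2, 5, 3, 4] [1, 1, 1, 1, 1, 1], .l [6, 2, 6], .l [3, 10, 8, 8, 6, 3], .l [1, 10, 3, 11, 3, 0, 5, 2, 5], .l [3, 8, 6, 6, 4, 3], .l [6, 2, 8], .l [3, 8, 6, 6, 4, 7], .l [6, 2, 7, 3, 8, 1, 8, 4, 1], .l [3, 8, 6, 6, 4, 7], .l [6, 2, 10], .l [3, 8, 6, 6, 4, 9], .l [3, 8, 6, 7, 2, 9, 4, 6, 3]]),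
([p 1 0, g, p 4 1, p 5 2, p 3 0, g, p 0 3, g, s 2 0, g, p 0 4, g, p 0 5, g], .hi 4, [.l [1, 10, 4, 12, 7, 2, 9], .l [6, 12, 9, 5, 9, 2, 8, 3, 8, 2, 5], .l [6, 3], .l [6, 1, 7, 5, 6], .l [4, 5], .l [6, 1], .y [4, 6], .l [4, 12, 9, 3, 9, 2, 8, 3, 8, 2, 5], .l [4, 7], .l [8, 3], .l [9, 12, 4, 10, 4, 10, 5, 2, 7], .l [4, 9], .l [10, 5], .l [4, 9], .l [0, 12, 7, 9, 3, 11, 8, 5, 1, 6, 3], .l [4, 11], .l [12, 7], .l [4, 11], .l [2, 10, 9, 13, 9, 5, 9, 2, 4, 2, 3], .l [4, 13], .l [14, 9]]),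
([p 1 0, g, p 3 1, p 4 2, p 0 0, g, s 2 0, g, p 0 3, g, p 0 4, g], .lo 4, [.l [0, 3], .l [1, 4, 2, 4, 5], .l [2, 5], .l [1, 4, 2, 4], .y [4], .l [5, 10, 6, 6, 4, 6, 3], .r 1346 [1, 2, 5, 3, 4] [1, 1, 1, 1, 1, 1], .l [3, 10, 8, 8, 6, 1], .l [5, 8, 4, 4, 2, 4, 3], .l [6, 2, 6], .l [1, 10, 3, 11, 3, 0, 5, 2, 5], .l [3, 10, 8, 8, 6, 3], .l [6, 2, 8], .l [6, 2, 7, 3, 8, 1, 8, 4, 1], .l [3, 8, 6, 6, 4, 7], .l [6, 2, 10], .l [3, 8, 6, 7, 2, 9, 4, 6, 3], .l [3, 8, 6, 6, 4, 9]]),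
([p 2 1, g, p 4 2, p 5 3, g, s 3 0, g, p 0 4, g, p 0 5, g, s 1 0, g], .top 4, [.c, .r 1341 [1, 2, 3, 4, 5] [1, 1, 1, 1, 1, 1], .r 1347 [2, 3, 4, 5] [1, 1, 1, 1, 3], .r 1345 [2, 3, 4, 5] [1, 1, 1, 1, 3]]),
([p 2 1, g, p 0 2, p 4 3, g, s 3 0, g, p 0 4, g, s 1 0, g], .lo 2, [.l [1, 7, 1, 7, 5, 2, 1], .l [2, 3], .l [1, 4, 2, 1], .l [0, 10, 8, 2, 6, 4, 5], .l [1, 7, 3, 7, 3, 0, 3], .l [0, 10, 8, 2, 6, 4, 5], .l [0, 8, 6, 2, 4, 2, 3], .l [0, 10, 8, 4, 6, 2, 5], .r 1348 [1, 2, 3, 5, 4] [1, 1, 1, 1, 1, 1], .l [0, 10, 8, 4, 6, 2, 5], .l [1, 5, 1, 5, 3, 0, 3], .l [11, 10, 4, 1, 6, 3, 6, 2, 3], .l [1, 2, 0, 7], .y [0, 9, 2], .l [1, 5, 1, 5, 3, 0, 5], .l [9, 8, 4, 1, 8, 5, 1, 4, 1], .l [1, 2, 0, 9]]),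
([p 1 0, g, p 0 1, p 3 2, g, s 2 0, g, p 0 3, g], .hi 0, [.l [2, 1, 6, 1, 6, 4, 1], .l [0, 1], .l [2, 1], .y [0, 2], .l [0, 4, 8, 6, 1], .l [0, 4], .l [5, 4], .l [0, 6, 8, 4, 1], .l [0, 6], .l [7, 6], .l [0, 6], .r 1349 [4, 1, 2, 3] [1, 1, 1, 1, 1], .l [0, 8], .l [9, 8]]),
([p 2 1, g, p 0 2, p 4 3, p 5 0, g, p 0 4, g, p 0 5, g, s 1 0, g, s 3 0, g], .hi 4, [.l [6, 3, 13, 10, 2, 10, 5], .l [12, 11, 13, 8, 11, 10, 10, 6, 1, 2, 5], .l [6, 3], .l [10, 9, 11, 8, 9, 8, 8, 4, 1, 2, 3], .l [6, 1, 9, 7, 10], .l [4, 5], .l [6, 1], .l [4, 5], .l [8, 3, 4, 2, 8, 6, 9], .l [4, 7], .l [8, 3], .y [4, 8], .l [3, 10, 5, 6, 9, 4, 2, 6, 1], .l [4, 9], .l [10, 5], .l [12, 7, 9, 12, 10, 3, 7, 8, 5], .l [4, 11], .l [12, 7], .l [14, 9,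 11, 4, 2, 6, 10, 6, 3], .l [4, 13], .l [14, 9]]),
([p 2 1, g, p 0 2, p 5 3, p 4 0, g, p 0 4, g, p 0 5, g, s 1 0, g, s 3 0, g], .hi 4, [.l [6, 3, 13, 10, 2, 10, 3], .l [5, 1, 6, 2, 9, 4, 6, 3], .l [6, 3], .l [1, 4, 9, 5, 1, 6, 7, 3, 5, 0, 1], .l [6, 1, 7, 5, 10], .l [4, 5], .l [6, 1], .y [4, 6], .l [8, 3, 9, 4, 11, 6, 1], .l [4, 7], .l [8, 3], .l [4, 7], .l [4, 9, 5, 9, 1, 6, 1, 2, 5], .l [4, 9], .l [10, 5], .l [4, 11, 7, 2, 9, 10, 5, 8, 5], .l [4, 11], .l [12, 7], .l [4, 13, 9, 2, 11, 2, 8, 6, 3], .l [4, 13], .l [14, 9]]),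
([p 2 1, g, p 0 2, p 4 3, p 0 0, g, p 0 4, g, s 1 0, g, s 3 0, g], .lo 4, [.l [1, 4, 2, 4, 9], .l [2, 5], .l [0, 9, 7, 3, 8], .y [4], .l [12, 8, 1], .r 1352 [1, 2, 3, 5, 4] [1, 1, 1, 1, 1, 1], .l [12, 8, 1], .l [12, 8, 3], .r 1351 [1, 2, 3, 4, 5] [1, 1, 1, 1, 1, 1], .l [12, 8, 3], .l [0, 7, 7, 3, 6], .l [12, 8, 5], .l [0, 7, 9, 5, 8], .l [12, 8, 5], .l [10, 6, 5], .l [10, 6, 10], .l [0, 7, 11, 7, 4], .l [10, 6, 10]]),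
([p 2 1, g, p 4 0, g, s 1 0, g, p 0 2, p 5 3, p 6 4, g, p 0 5, g, p 0 6, g, s 3 0, g], .hi 4, [.l [6, 3, 11, 8, 1, 9, 3, 9, 5, 8, 1, 6, 1], .l [6, 5, 7, 1, 8, 4, 1, 4, 8, 6, 7], .l [6, 5, 8, 14, 7, 9, 1, 5, 1, 8, 1], .l [5, 10, 6, 4, 2, 6, 10, 8, 9, 7, 1, 3, 5], .l [0, 5, 9, 5, 1, 5, 7, 4, 1], .l [0, 5, 9, 5, 7, 5, 11, 8, 2, 8, 3], .l [6, 1, 9, 5, 7, 8, 4, 1, 1, 4, 6, 4, 5], .l [5, 10, 6, 4, 2, 6, 10, 8, 9], .l [6, 1, 9, 5, 3, 1, 1, 4, 8, 6, 7], .y [0, 4, 6], .l [3, 6, 2, 8, 12, 10, 11, 7, 1, 3, 7, 1, 1], .l [0, 3, 3, 7, 9, 6, 3], .l [10, 5, 5, 7, 7, 3, 5, 3, 8, 4, 7], .l [0, 3, 3, 7, 7, 4, 3], .l [3, 6, 2, 10, 12, 8, 11, 7, 1, 5, 7, 5, 3], .l [0, 3, 3, 9, 11, 7, 10], .l [12, 7, 7, 9, 9, 5, 7, 5, 6, 4, 6, 2, 5],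 .l [0, 3, 3, 9, 9, 5, 8], .l [14, 9, 2, 14, 1, 3, 1, 7, 1, 8, 3, 1, 3], .l [0, 3, 15, 8, 0, 12, 6, 4, 4, 2, 5], .l [0, 3, 13, 9, 2, 12, 1, 7, 1, 8, 3], .l [10, 12, 9, 12, 9, 12, 8, 10, 1, 6, 1, 2, 5], .l [7, 13, 6, 8, 1, 5, 6, 9, 4, 2, 6], .l [0, 3, 13, 6, 0, 10, 12, 10, 10, 8, 3]]),
([p 2 1, g, s 1 0, g, p 0 2, p 4 3, p 5 0, g, p 0 4, g, p 0 5, g, s 3 0, g], .hi 6, [.l [8, 5, 13, 8, 2, 8, 3], .r 1354 [1, 2, 3, 6, 4, 5] [1, 1, 1, 1, 1, 1, 1], .l [8, 5], .l [8, 3, 13, 10, 4, 10, 3], .l [7, 13, 3, 7, 1, 2, 6, 1, 7, 2, 3], .l [8, 3], .l [5, 11, 3, 7, 1, 2, 6, 1, 5, 0, 1], .l [8, 1, 11, 9, 10], .l [6, 7], .l [8, 1], .l [6, 7], .l [10, 3, 4, 2, 10, 8, 9], .l [6, 9], .l [10, 3], .y [6, 10], .l [12, 5, 7, 12, 10, 1, 7,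 8, 3], .l [6, 11], .l [12, 5], .l [14, 7, 9, 4, 2, 4, 10, 8, 3], .l [6, 13], .l [14, 7]]),
([p 2 1, g, s 1 0, g, p 0 2, p 4 3, p 0 0, g, p 0 4, g, s 3 0, g], .lo 6, [.l [1, 6, 4, 6, 9], .l [2, 7], .l [0, 3, 1, 5, 8], .l [0, 1, 1, 3, 6], .l [3, 6, 2, 6, 9], .l [4, 7], .l [3, 6, 2, 6], .y [6], .l [12, 6, 1], .l [2, 1, 5, 8, 6, 1, 3, 4, 5], .l [12, 6, 1], .l [12, 6, 3], .r 1355 [1, 2, 3, 4, 5] [1, 1, 1, 1, 1, 1], .l [12, 6, 3], .l [10, 4, 3], .l [10, 4, 10], .l [2, 1, 9, 4, 4, 1, 8, 4, 1], .l [10, 4, 10]]),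
([p 2 1, g, p 0 2, p 4 3, p 0 0, g, p 0 4, g, s 3 0, g, s 1 0, g], .lo 4, [.l [1, 4, 2, 4, 7], .l [2, 5], .l [0, 11, 9, 3, 6], .y [4], .l [10, 6, 1], .l [3, 9, 3, 5, 9, 6, 4, 6, 3], .l [10, 6, 1], .l [10, 6, 3], .l [3, 9, 3, 5, 9, 4, 2, 6, 1], .l [10, 6, 3], .l [8, 4, 3], .l [8, 4, 8], .l [0, 11, 3, 6, 3], .l [8, 4, 8], .l [0, 9, 9, 3, 6], .l [8, 4, 10], .l [0, 9, 11, 5, 8], .l [8, 4, 10]]),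
([p 1 0, g, p 0 1, p 3 2, p 0 0, g, p 0 3, g, s 2 0, g], .hi 0, [.r 1356 [4, 1, 2, 3] [1, 1, 1, 1, 1], .l [0, 1], .l [2, 1], .y [0, 2], .l [0, 3], .l [0, 5, 7, 4, 1], .l [0, 5], .l [6, 5], .l [0, 5], .r 1353 [4, 1, 2, 3] [1, 1, 1, 1, 1], .l [0, 7], .l [8, 7], .r 1357 [4, 1, 2, 3] [1, 1, 1, 1, 1], .l [0, 9], .l [10, 9]]),
([p 1 0, g, p 0 1, p 3 2, g, m 0 3, g, s 2 0, g], .hi 0, [.l [2, 1, 4, 6, 1, 4, 1], .l [0, 1], .l [2, 1], .y [0, 2], .l [5, 4, 4, 2, 3], .l [0, 4], .l [5, 4], .l [5, 4], .l [7, 6, 6, 4, 1], .l [0, 6], .l [7, 6], .l [9, 8, 8, 6, 1], .l [0, 8], .l [9, 8]]),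
([p 1 0, g, p 0 1, p 3 2, g, s 2 0, g, m 0 3, g], .lo 2, [.y [0, 2], .l [7, 1, 4, 1, 4, 2, 3], .l [2, 3], .l [1, 4, 2, 1], .l [4, 2, 3, 2, 5], .l [2, 5, 4, 4, 2, 5], .l [1, 2, 0, 3], .l [4, 2, 3, 2, 3], .l [6, 4, 5, 4, 5], .l [2, 7, 6, 6, 4, 5], .l [1, 2, 0, 5], .l [8, 6, 7, 6, 3], .l [2, 9, 8, 8, 6, 3], .l [1, 2, 0, 7]]),
([p 1 0, g, p 0 1, p 0 2, p 0 0, g, s 2 0, g], .lo 3, [.l [0, 2], .l [2, 4, 1], .l [2, 4], .l [1, 4, 2, 3], .r 1329 [1, 2, 3] [1, 1, 1], .r 1313 [1, 3] [1, 2, 3], .r 1358 [1, 2, 3] [1, 1, 1, 1], .r 1359 [1, 2, 3] [1, 2, 1, 1], .y [3, 6], .r 1313 [1, 3] [1, 4, 1], .r 1350 [1, 2, 3] [1, 2, 1, 1], .r 1360 [1, 2, 3] [1, 2, 1, 1]]),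
([p 3 1, g, m 0 2, g, s 1 0, g, p 0 3, p 6 4, m 2 5, g, p 0 6, g, m 5 0, g, s 4 0, g], .hi 4, [.l [6, 3, 11, 8, 1, 9, 3, 9, 5, 8, 1, 6, 1], .l [6, 5, 7, 1, 8, 4, 1, 4, 8, 6, 7], .l [6, 5, 8, 14, 7, 9, 1, 5, 1, 8, 1], .l [0, 3, 7, 5, 5, 3, 9, 6, 0, 6, 3], .l [5, 10, 6, 4, 2, 6, 10, 8, 9, 7, 1, 3, 5], .l [0, 5, 9, 5, 1, 5, 7, 4, 1], .l [0, 5, 9, 5, 7, 5, 11, 8, 2, 8, 3], .l [6, 1, 9, 5, 7, 8, 4, 1, 1, 4, 6, 4, 5], .l [5, 10, 6, 4, 2, 6, 10, 8, 9], .l [6, 1, 9, 5, 3, 1, 1, 4, 8, 6, 7], .y [0, 4, 6], .l [3, 6, 2, 8, 12, 10, 11, 7, 1, 3, 7, 1, 1], .l [0, 3, 3, 7, 9, 6, 3], .l [10, 5, 5, 7, 7, 3, 5, 3, 8, 4, 7], .l [0, 3, 3, 7, 7, 4, 3], .l [3, 6, 2, 10, 12, 8, 11, 7, 1, 5, 7, 5, 3], .l [0, 3, 3, 9, 11, 7, 10], .l [12,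 7, 7, 9, 9, 5, 7, 5, 6, 4, 6, 2, 5], .l [14, 9, 2, 14, 1, 3, 1, 7, 1, 8, 3, 1, 3], .l [0, 3, 15, 8, 0, 12, 6, 4, 4, 2, 5], .l [0, 3, 13, 9, 2, 12, 1, 7, 1, 8, 3], .l [10, 12, 9, 12, 9, 12, 8, 10, 1, 6, 1, 2, 5], .l [7, 13, 6, 8, 1, 5, 6, 9, 4, 2, 6], .l [0, 3, 13, 6, 0, 10, 12, 10, 10, 8, 3]]),
([p 2 0, g, m 0 1, g, p 0 2, p 5 3, m 1 4, g, p 0 5, g, m 4 0, g, s 3 0, g], .hi 0, [.l [7, 13, 3, 7, 1, 2, 6, 1, 7, 2, 3], .l [0, 1], .l [2, 1], .l [2, 1], .r 1362 [6, 1, 2, 3, 4, 5] [1, 1, 1, 1, 1, 1, 1], .l [0, 3], .l [4, 3], .y [0, 4], .l [0, 7, 9, 6, 3], .l [0, 7], .l [8, 7], .l [0, 7], .l [0, 9, 11, 7, 10], .l [0, 9], .l [10, 9], .l [12, 11, 13, 8, 11, 10, 10, 6, 1, 2, 5], .l [0, 11], .l [12, 11], .l [5, 11, 3, 5,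 11, 6, 4, 8, 1], .l [0, 13], .l [14, 13]]),
([p 1 0, g, p 0 1, p 4 2, m 0 3, g, p 0 4, g, m 3 0, g, s 2 0, g], .lo 4, [.l [4, 3], .l [6, 3, 11, 8, 2, 8, 3], .l [6, 3], .r 1363 [5, 1, 2, 3, 4] [1, 1, 1, 1, 1, 1], .l [6, 1, 9, 7, 8], .l [6, 1], .l [4, 5], .l [8, 3, 4, 2, 8, 6, 7], .l [8, 3], .l [4, 7], .y [4, 8], .l [10, 5, 7, 10, 8, 1, 5, 6, 3], .l [10, 5], .l [4, 9], .l [10, 5, 7, 2, 0, 2, 6, 4, 1], .l [12, 7, 9, 4, 2, 4, 8, 6, 3], .l [12, 7], .l [4, 11]]),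
([p 2 1, g, p 0 2, p 5 3, m 0 4, g, m 4 0, g, p 0 5, g, s 1 0, g, s 3 0, g], .lo 4, [.l [6, 3, 13, 10, 2, 10, 3], .l [6, 3], .l [5, 1, 6, 2, 9, 4, 6, 3], .l [6, 1, 7, 5, 10], .l [6, 1], .l [4, 5], .y [4, 6], .l [8, 3, 9, 4, 11, 6, 1], .l [8, 3], .l [4, 7], .l [4, 9, 5, 9, 1, 6, 1, 2, 5], .l [10, 5], .l [4, 9], .l [4, 9, 5, 2, 7, 8, 5, 6, 3], .l [4, 11, 7, 2, 9, 10, 5, 8, 5], .l [12, 7], .l [4, 11], .l [3, 11, 8, 10, 8, 3, 6, 6, 1], .l [4, 13, 9, 2, 11, 2, 8, 6, 3], .l [14, 9], .l [4, 13]]),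
([p 1 0, g, p 0 1, p 4 2, m 0 3, g, m 3 0, g, p 0 4, g, s 2 0, g], .hi 0, [.l [2, 1, 5, 8, 6, 1, 3, 4, 5], .l [0, 1], .l [2, 1], .y [0, 2], .l [4, 3], .l [0, 5, 7, 5, 8], .l [0, 5], .l [6, 5], .l [0, 7, 9, 4, 1], .l [0, 7], .l [8, 7], .l [0, 7], .r 1365 [5, 1, 2, 3, 4] [1, 1, 1, 1, 1, 1], .l [0, 9], .l [10, 9], .l [3, 9, 3, 5, 9, 6, 4, 6, 3], .l [0, 11], .l [12, 11]]),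
([p 1 0, g, p 0 1, p 0 2, m 0 3, g, m 3 0, g, s 2 0, g], .lo 3, [.l [0, 2], .l [2, 4, 1], .l [2, 4], .l [1, 4, 2, 3], .r 1313 [1, 4] [1, 2, 5], .r 1364 [1, 2, 3, 4] [1, 1, 1, 1, 1], .r 1359 [1, 2, 4] [1, 2, 3, 1], .r 1359 [1, 2, 4] [1, 2, 1, 1], .r 1313 [1, 4] [1, 4, 3], .r 1366 [1, 2, 3, 4] [1, 1, 1, 1, 1], .r 1359 [1, 2, 4] [1, 4, 1, 1], .y [3, 8], .r 1313 [1, 4] [1, 6, 1], .r 1350 [1, 2, 4] [1, 4, 1, 1], .r 1360 [1, 2, 4] [1, 4, 1, 1]]),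
([p 1 0, g, p 0 1, p 0 2, m 0 0, g, s 2 0, g], .hi 4, [.l [1, 4, 2, 4, 5], .l [1, 4, 2, 4], .l [2, 5], .l [1, 2, 0, 2], .r 1359 [1, 2, 3] [1, 0, 1, 1], .y [4], .l [8, 4, 1], .l [8, 4, 1], .r 1367 [1, 2, 3] [1, 1, 1, 1], .l [6, 2, 6], .l [6, 2, 6], .r 1343 [1, 2, 3] [1, 1, 1, 1]]),
([p 1 0, g, s 0 0, p 0 1, p 6 2, s 4 3, g, s 5 4, g, p 0 5, g, p 0 6, g, m 3 0, g, s 2 0, g], .hi 2, [.l [9, 1, 6, 1, 8, 3, 8, 3, 5, 7, 5, 6], .l [1, 11, 1, 11, 6, 3, 1], .l [4, 1, 10, 1, 10, 5, 0], .y [2], .c, .l [2, 6, 12, 9, 0], .l [2, 6, 12, 9, 0], .l [1, 9, 3, 11, 6, 1, 7, 9, 7, 8], .l [2, 8, 12, 7, 0], .l [2, 8, 12, 7, 0], .l [1, 5, 5, 9, 3, 9, 4, 1, 5, 7, 5, 6], .l [2, 8, 10, 5, 0], .l [2, 10, 12, 5, 0], .l [2, 10, 12, 5, 0], .l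 [11, 8, 14, 11, 7, 11, 2], .l [2, 10, 10, 3, 0], .l [1, 5, 5, 7, 1, 7, 4, 1, 5, 7, 5, 6], .l [1, 5, 5, 7, 1, 7, 4, 1, 5, 7, 5, 6], .l [7, 1, 12, 7, 10, 6, 1, 3, 5, 7, 5, 6], .l [7, 1, 14, 9, 12, 8, 1, 5, 7, 4, 2, 6], .l [1, 9, 1, 9, 4, 1, 9], .l [7, 1, 14, 9, 12, 8, 1, 5, 7, 4, 2, 6], .l [7, 1, 16, 11, 14, 10, 1, 7, 9, 4, 2, 3], .l [1, 9, 1, 9, 4, 1, 11], .l [7, 1, 16, 11, 14, 10, 1, 7, 9, 4, 2, 3]]),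
([p 2 1, g, s 0 0, p 0 2, p 6 3, s 5 4, g, s 0 5, g, p 0 6, g, m 4 0, g, s 3 0, g, s 1 0, g], .lo 7, [.l [2, 8, 10, 7, 2], .l [2, 8, 10, 7, 2], .l [0, 16, 14, 6, 8, 5, 11], .l [2, 6, 8, 5, 0], .l [4, 14, 7, 1, 8, 12, 7, 5, 9, 5], .l [4, 14, 5, 7, 1, 5, 6, 10, 5, 3, 7, 1], .l [4, 14, 7, 1, 8, 12, 7, 5, 9, 5], .l [4, 14, 7, 1, 8, 12, 7, 5, 9, 1], .r 1369 [2, 3, 4, 5, 7, 6] [1, 1, 1, 1, 1, 1, 3], .l [4, 14, 7, 1, 8, 12, 7, 5, 9, 1], .l [4, 14, 3, 5, 8, 12, 5, 3, 9, 1], .l [5, 6, 10, 3, 10, 6, 9, 5, 9, 5, 3, 6], .l [4, 14, 3, 5, 8, 12, 5, 3, 9, 1], .y [5, 11, 7], .l [4, 14, 1, 5, 8, 12, 5, 3, 9, 1], .l [6, 7, 5, 12, 14, 5, 10, 3, 10, 6, 2, 6], .l [4, 14, 1, 5, 8, 12, 5, 3, 9, 1], .l [7, 1, 10, 8, 9, 11, 5, 9, 5, 1,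 4, 1], .l [4, 12, 8, 14, 1, 9, 1, 5, 9, 1], .l [7, 1, 10, 8, 9, 13, 7, 11, 5, 1, 6, 3], .l [13, 8, 1, 1, 11, 13, 11, 11, 8, 3], .l [0, 14, 14, 6, 8, 5, 2], .l [0, 14, 7, 14, 8, 2, 11, 1, 7, 2], .l [0, 14, 16, 8, 10, 7, 2], .l [0, 14, 7, 14, 8, 2, 11, 1, 7, 2]]),
([p 2 1, g, s 0 0, p 0 2, p 5 3, s 0 4, g, p 0 5, g, m 4 0, g, s 3 0, g, s 1 0, g], .lo 5, [.l [2, 6, 8, 7, 2], .l [2, 6, 11], .l [1, 5, 3, 5, 10], .l [2, 4, 6, 5, 0], .r 1370 [1, 2, 3, 4, 6, 5] [1, 1, 1, 1, 1, 1, 1], .l [7, 1, 10, 8, 9], .l [11, 5, 6, 2, 4, 2, 8], .l [9, 3, 10, 6, 9, 5, 9, 5, 3, 6], .l [9, 3, 4, 2, 9, 7, 8], .l [13, 8, 3], .y [5, 9], .l [4, 12, 1, 5, 6, 10, 5, 3, 7, 1], .l [9, 3, 4, 2, 9, 7, 8], .l [13, 8, 5], .l [11, 6, 5], .l [11, 6,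 11, 13, 11, 11, 8, 3], .l [9, 3, 4, 2, 11, 9, 6], .l [11, 6, 11], .l [11, 6, 11, 11, 9, 9, 6, 3], .l [9, 3, 14, 10, 5, 7, 5, 5, 2, 6], .l [9, 3, 4, 2, 13, 11, 6], .l [11, 6, 13]]),
([p 5 1, g, p 2 0, g, p 3 2, g, p 6 3, s 1 4, g, p 0 5, g, m 4 0, g, p 0 6, g], .lo 9, [.l [1, 11, 9, 8, 12, 9, 10, 4, 1, 2, 5], .l [2, 10], .l [1, 11, 9, 8], .l [2, 8], .l [3, 6, 4, 9, 7, 6, 10, 7, 8, 4, 1, 2, 3], .l [4, 10], .l [3, 6, 4, 9, 7, 6], .l [5, 11, 5, 4, 4, 2, 5], .l [6, 10], .l [5, 8, 6, 6, 4, 8, 6, 5], .l [8, 15, 12, 8, 2, 1, 7, 8, 5], .l [9, 10], .l [8, 11, 2, 1], .l [7, 6, 8, 1, 12, 9, 10, 4, 1, 2, 5], .l [7, 6, 8, 1, 12, 9, 10, 4, 1, 2, 5], .l [8, 9, 0, 8], .y [0, 7, 11, 9], .l [8, 9, 0, 10, 12, 7, 10, 1, 4, 2, 5], .l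 [3, 11, 3, 13, 8, 11, 4, 9, 2, 4, 2, 4, 1], .l [8, 9, 0, 10], .l [11, 3, 12, 7, 12, 1, 6, 2, 7], .l [11, 3, 12, 7, 12, 1, 6, 2, 7], .l [8, 9, 0, 12]]),
([p 4 1, g, p 2 0, g, p 5 2, s 1 3, g, p 0 4, g, m 3 0, g, p 0 5, g], .hi 2, [.l [4, 1, 10, 3, 10, 5, 1, 4, 1], .r 1372 [1, 6, 2, 3, 4, 5] [1, 1, 1, 1, 1, 1, 1], .l [4, 1], .l [4, 1, 8, 4, 4, 1, 6, 4, 1], .l [2, 3], .l [4, 1], .l [7, 4, 4, 2, 3], .l [2, 6], .l [7, 4], .l [2, 6], .l [9, 6, 6, 4, 5], .l [2, 8], .l [9, 6], .l [11, 8, 8, 6, 7], .l [2, 10], .l [11, 8], .y [2, 11, 4], .l [13, 10, 10, 8, 9], .l [2, 12], .l [13, 10]]),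
([p 4 1, g, p 2 0, g, p 0 2, s 1 3, g, p 0 4, g, m 3 0, g], .lo 4, [.l [1, 9, 7, 3, 6, 1, 6, 4, 1], .l [2, 5], .l [1, 9, 7, 3], .y [2, 4], .l [3, 9, 5, 1, 4, 1, 6, 4, 1], .l [4, 5], .l [3, 6, 4, 8, 6, 1], .l [3, 9, 5, 2, 4, 2, 3], .l [3, 11, 5, 7, 1, 6, 1, 4, 1], .l [3, 4, 2, 8, 6, 3], .l [3, 7, 3, 6, 8, 2, 5], .l [3, 11, 5, 1, 5, 2, 4, 2, 3], .l [3, 4, 2, 6, 4, 5], .l [3, 4, 2, 6, 4, 5], .l [3, 7, 3, 8, 3, 6, 3], .r 1373 [1, 2, 3, 4, 5] [1, 1, 1, 1, 1, 1], .l [3, 4, 2, 6, 4, 7]]),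
([p 3 1, g, p 0 0, s 1 2, g, p 0 3, g, m 2 0, g], .hi 2, [.l [0, 4, 1], .r 1374 [1, 4, 2, 3] [1, 1, 1, 1, 1], .l [4, 1], .y [2], .l [0, 2, 3], .l [2, 4], .l [5, 2], .l [2, 4], .l [0, 2, 5], .l [2, 6], .l [7, 4], .l [0, 2, 7], .l [2, 8], .l [9, 6]]),
([p 5 1, s 0 2, g, p 3 0, g, s 0 3, s 1 4, g, p 0 5, g, m 4 0, g, s 2 0, g], .lo 5, [.l [0, 7, 3, 10, 3, 8, 1, 8, 4, 1], .l [0, 7, 3], .l [2, 10, 7, 3, 6, 1, 8, 6, 1], .y [3, 5], .l [6, 10, 3, 7, 11, 7, 1, 4, 2, 5], .l [0, 7, 1], .l [2, 10, 7, 3, 6, 1, 8, 6, 1], .l [0, 5, 6, 8, 6, 9], .l [6, 5, 9, 3, 10, 6, 7], .l [0, 5, 6], .l [10, 4, 8, 11, 9, 1], .l [10, 4, 8], .l [0, 5, 8], .l [0, 5, 8], .l [12, 6, 10, 11, 5, 3], .l [12, 6, 10], .l [0, 5, 10], .l [4, 8, 3, 9, 3,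 7, 4, 6, 4, 1], .l [14, 8, 12, 5, 3, 1], .l [14, 8, 12], .l [0, 5, 12]]),
([p 4 1, s 0 2, g, s 0 0, s 1 3, g, p 0 4, g, m 3 0, g, s 2 0, g], .hi 3, [.l [8, 3, 7, 5, 7, 2, 4, 1], .l [10, 3, 9, 7, 9, 2, 6, 1], .r 1376 [1, 2, 5, 3, 4] [1, 1, 1, 1, 1, 1], .l [0, 5, 1], .y [3], .l [0, 3, 4, 6, 4, 7], .l [0, 3, 4], .l [4, 3, 7, 3, 8, 4, 5], .l [0, 3, 4], .l [4, 3, 10, 3, 6, 3], .l [0, 3, 6], .l [8, 4, 6], .l [10, 6, 8, 9, 5, 3], .l [0, 3, 8], .l [10, 6, 8], .l [8, 3, 7, 5, 7, 2, 4, 5], .l [0, 3, 10], .l [12, 8, 10]]),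
([p 6 1, g, m 0 2, g, m 2 3, g, m 3 4, s 1 5, g, p 0 6, g, m 5 0, g, m 4 0, g], .lo 9, [.l [1, 11, 9, 8, 12, 9, 10, 4, 1, 2, 5], .l [2, 10], .l [1, 11, 9, 8], .l [3, 6, 4, 9, 7, 6, 10, 7, 8, 4, 1, 2, 3], .l [4, 10], .l [3, 6, 4, 9, 7, 6], .l [5, 11, 5, 4, 4, 2, 5], .l [6, 10], .l [5, 8, 6, 6, 4, 8, 6, 5], .l [8, 15, 12, 8, 2, 1, 7, 8, 5], .l [9, 10], .l [8, 11, 2, 1], .l [7, 6, 8, 1, 12, 9, 10, 4, 1, 2, 5], .l [7, 6, 8, 1, 12, 9, 10, 4, 1, 2, 5], .l [8, 9, 0, 8], .y [0, 7, 11, 9], .l [8, 9, 0, 10, 12, 7, 10, 1, 4, 2, 5], .l [3, 11, 3, 13, 8, 11, 4, 9, 2, 4, 2, 4, 1], .l [8, 9, 0, 10], .l [8, 9, 0, 10], .l [11, 3, 12, 7, 12, 1, 6, 2, 7], .l [11, 3, 12, 7, 12, 1, 6, 2, 7], .l [8, 9, 0, 12]]),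
([p 5 1, g, m 0 2, g, m 2 3, s 1 4, g, p 0 5, g, m 4 0, g, m 3 0, g], .lo 2, [.l [4, 1, 10, 3, 10, 5, 1, 4, 1], .l [4, 1], .r 1378 [1, 6, 2, 3, 4, 5] [1, 1, 1, 1, 1, 1, 1], .l [4, 1, 8, 4, 4, 1, 6, 4, 1], .l [4, 1], .l [2, 3], .l [7, 4, 4, 2, 3], .l [7, 4], .l [2, 6], .l [9, 6, 6, 4, 5], .l [9, 6], .l [2, 8], .l [2, 8], .l [11, 8, 8, 6, 7], .l [11, 8], .l [2, 10], .y [2, 4, 11], .l [13, 10, 10, 8, 9], .l [13, 10], .l [2, 12]]),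
([p 4 1, g, m 0 2, g, m 2 0, s 1 3, g, p 0 4, g, m 3 0, g], .hi 4, [.l [1, 9, 7, 3, 6, 1, 6, 4, 1], .l [1, 9, 7, 3], .l [2, 5], .y [2, 4], .l [3, 9, 5, 1, 4, 1, 6, 4, 1], .l [3, 6, 4, 8, 6, 1], .l [4, 5], .l [3, 9, 5, 2, 4, 2, 3], .l [3, 4, 2, 8, 6, 3], .l [3, 11, 5, 7, 1, 6, 1, 4, 1], .l [3, 4, 2, 6, 4, 3], .l [3, 7, 3, 6, 8, 2, 5], .l [3, 4, 2, 6, 4, 5], .l [3, 11, 5, 1, 5, 2, 4, 2, 3], .l [3, 7, 3, 8, 3, 6, 3], .l [3, 4, 2, 6, 4, 7], .r 1379 [1, 2, 5, 3, 4] [1, 1, 1, 1, 1, 1]]),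
([p 3 1, g, m 0 0, s 1 2, g, p 0 3, g, m 2 0, g], .lo 2, [.l [0, 4, 1], .l [4, 1], .r 1380 [1, 4, 2, 3] [1, 1, 1, 1, 1], .y [2], .l [0, 2, 3], .l [5, 2], .l [2, 4], .l [0, 2, 5], .l [7, 4], .l [2, 6], .l [2, 6], .l [0, 2, 7], .l [9, 6], .l [2, 8]]),
([p 4 1, s 0 2, g, s 1 3, g, p 0 4, g, m 3 0, g, s 2 0, g], .bot 2, [.r 894 [1, 2] [5, 1], .r 1377 [1, 2, 3, 4] [1, 1, 1, 1, 1], .r 1375 [1, 3, 4] [2, 1, 1, 3], .r 1381 [1, 3, 4] [2, 1, 1, 3]]),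
([p 5 1, s 0 2, g, p 3 0, g, s 0 3, s 1 4, g, p 0 5, g, s 2 0, g, m 4 0, g], .lo 5, [.l [8, 7, 10, 12, 8, 3], .l [0, 7, 3], .l [2, 10, 7, 3, 6, 1, 10, 8, 1], .y [3, 5], .l [8, 7, 10, 12, 8, 1], .l [0, 7, 1], .l [2, 10, 7, 3, 6, 1, 10, 8, 1], .l [0, 5, 6, 8, 6, 7], .l [6, 5, 9, 3, 12, 8, 9], .l [0, 5, 6], .l [6, 5, 10, 12, 6, 9], .l [10, 4, 8], .l [0, 5, 8], .l [4, 8, 3, 7, 7, 3, 1, 6, 4, 1], .l [6, 5, 8, 12, 8, 5], .l [12, 6, 10], .l [0, 5, 10], .l [0, 5, 10], .l [6, 5, 8, 10, 6, 9], .l [14, 8, 12], .l [0, 5, 12]]),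
([p 4 1, s 0 2, g, s 0 0, s 1 3, g, p 0 4, g, s 2 0, g, m 3 0, g], .hi 3, [.l [4, 3, 6, 8, 4, 1], .l [6, 5, 8, 10, 6, 1], .r 1383 [1, 2, 5, 3, 4] [1, 1, 1, 1, 1, 1], .l [0, 5, 1], .y [3], .l [0, 3, 4, 6, 4, 5], .l [0, 3, 4], .l [4, 3, 7, 3, 10, 6, 7], .l [0, 3, 4], .l [4, 3, 8, 10, 4, 7], .l [0, 3, 6], .l [8, 4, 6], .l [4, 3, 6, 10, 6, 3], .l [0, 3, 8], .l [10, 6, 8], .l [4, 3, 6, 8, 4, 7], .l [0, 3, 10], .l [12, 8, 10]]),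
([p 4 1, s 0 2, g, s 1 3, g, p 0 4, g, s 2 0, g, m 3 0, g], .bot 2, [.r 894 [1, 2] [3, 3], .r 1384 [1, 2, 3, 4] [1, 1, 1, 1, 1], .r 1375 [1, 3, 4] [2, 1, 3, 1], .r 1381 [1, 3, 4] [2, 1, 3, 1]]),
([p 3 1, s 0 0, g, s 1 2, g, p 0 3, g, m 2 0, g], .hi 1, [.y [1], .r 1053 [1, 4, 3] [1, 1, 1, 3], .l [2, 7, 4, 4, 1], .r 578 [1, 4, 3] [1, 1, 1, 3], .r 989 [1, 4, 3] [1, 1, 1, 3], .l [3, 2, 3], .l [9, 5, 8, 4, 1, 2, 3], .l [3, 2, 3], .r 1385 [1, 4, 2, 3] [1, 1, 1, 1, 1], .l [3, 2, 5], .r 852 [1, 4, 3] [1, 1, 1, 3], .r 1382 [1, 4, 2, 3] [1, 1, 1, 1, 1], .l [3, 2, 7], .l [7, 3, 6, 4, 6, 2, 3]]),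
([p 3 1, g, s 1 2, g, p 0 3, g, m 2 0, g], .top 1, [.c, .r 1386 [1, 2, 3] [1, 1, 1, 1], .r 334 [] [7], .r 444 [] [7]]),
([p 2 1, g, s 1 0, g, p 0 2, p 6 3, s 5 4, g, s 0 5, g, p 0 6, g, m 4 0, g, s 3 0, g], .hi 2, [.l [16, 8, 1, 12, 1, 12, 8, 3], .l [0, 3, 6, 14, 11, 1, 7, 10, 3], .l [14, 5, 9, 11, 1, 9, 9, 7, 2], .l [16, 8, 1, 12, 1, 12, 8, 3], .l [14, 5, 11, 1, 11, 7, 2], .l [7, 15, 10, 1, 4, 1, 8, 5, 1, 7, 2, 3], .y [0, 2, 4], .l [2, 7, 5, 5, 9, 6, 1], .l [0, 1, 1, 5, 9, 6, 1], .l [0, 1, 7, 5, 7, 3, 7, 2, 4, 6, 4, 5], .l [2, 7, 5, 5, 7, 4, 1], .l [2, 9, 7, 7, 9, 4, 1], .l [0, 1, 1, 7, 9, 4, 1], .l [0, 1, 9, 7, 11, 7, 3, 7, 2], .l [0, 1, 1, 7, 7, 2, 1], .l [1, 8, 1, 8, 5, 2, 6, 8, 6, 7], .l [0, 1, 1, 9, 11, 5,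 9, 8, 1], .l [2, 1, 13, 7, 11, 5, 9, 7, 8, 3, 6, 1], .l [2, 1, 7, 1, 9, 7, 10, 1, 5, 1, 6, 1], .l [2, 1, 4, 14, 1, 9, 5, 10, 1], .l [5, 15, 12, 1, 4, 1, 8, 5, 1, 7, 2, 3], .l [7, 5, 14, 1, 9, 2, 8, 3], .l [5, 13, 10, 1, 8, 5, 6, 9, 6, 4, 6, 3], .r 1387 [1, 7, 2] [1, 1, 11, 1]]),
([p 2 0, g, m 1 0, g, s 0 1, p 0 2, p 4 3, g, p 0 4, g, s 3 0, g], .lo 5, [.y [0, 5], .l [1, 7, 5, 4, 1], .l [2, 6], .l [1, 7, 5, 4], .l [1, 5, 3, 2], .l [6, 3, 6, 0, 3], .l [4, 6], .l [3, 7, 3, 2], .l [4, 1, 4, 0, 5], .l [5, 8, 7, 1, 10, 5, 1, 4, 1], .l [4, 1, 4, 0, 5], .l [4, 1, 4, 0, 7], .l [6, 11, 7, 9, 6, 1, 7, 2, 3], .l [4, 1, 4, 0, 7], .l [4, 1, 4, 0, 7], .l [4, 1, 4, 0, 9], .l [10, 3, 3, 1, 10, 6, 1], .l [4, 1, 4, 0, 9]]),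
([p 1 0, g, s 0 0, p 0 1, p 4 2, s 5 3, g, p 0 4, g, m 3 0, g, s 2 0, g, s 0 5, g], .hi 2, [.l [11, 3, 8, 1, 8, 5, 2, 9, 7, 4], .l [11, 3, 8, 1, 8, 5, 2], .r 1389 [6, 1, 2, 4] [1, 1, 2, 3, 3], .y [2], .c, .l [2, 6, 8, 5, 0], .l [2, 6, 8, 5, 0], .l [7, 4, 10, 7, 3, 7, 2], .l [2, 6, 6, 3, 0], .l [13, 8, 13, 3, 8, 1, 10, 1, 6, 1], .l [2, 8, 10, 6, 8, 7, 0], .l [13, 8, 13, 3, 8, 1, 10, 1, 6, 1], .l [13, 8, 13, 7, 3, 5, 4, 7], .l [13, 8, 13, 7, 3, 5, 4, 7], .l [15, 9, 12, 6, 1, 2, 5, 9, 6, 3], .l [9, 3, 6, 10, 12, 4, 9, 3, 7, 4], .l [9, 3, 6, 10, 12, 4, 9, 3, 7, 4], .l [9, 3, 14, 10, 5, 7, 3, 5, 4, 7], .l [9, 3, 6, 10, 10, 2, 7, 3, 5, 2], .l [11, 6, 11, 13, 9, 11, 10, 3], .l [14, 3, 8, 10, 12, 10, 5], .l [11, 6, 11,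 13, 9, 11, 10, 3]]),
([p 2 1, g, s 1 0, g, s 0 0, p 0 2, p 5 3, s 0 4, g, p 0 5, g, m 4 0, g, s 3 0, g], .lo 7, [.l [2, 8, 10, 9, 4], .l [2, 8, 13], .l [1, 7, 5, 7, 12], .l [2, 6, 4, 5, 7, 5, 2], .l [4, 8, 10, 9, 2], .l [4, 8, 13], .l [3, 7, 3, 7, 12], .l [4, 6, 8, 7, 0], .r 1388 [1, 2, 3, 4, 6, 5] [1, 2, 1, 1, 1, 1, 1], .l [9, 1, 12, 10, 11], .l [13, 5, 6, 2, 4, 2, 10], .l [2, 1, 10, 3, 10, 6, 9, 1, 7, 2], .l [11, 3, 4, 2, 11, 9, 10], .l [15, 8, 3], .y [7, 11], .l [2, 1, 10, 3, 10, 6, 9, 1, 7, 2], .l [11, 3, 4, 2, 11, 9, 10], .l [15, 8, 5], .l [13, 6, 5], .r 1390 [2, 3, 4, 5, 6] [3, 1, 1, 1, 1, 1], .l [11, 3, 4, 2, 13, 11, 8], .l [13, 6, 13]]),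
([p 2 1, g, s 0 0, p 0 2, p 5 3, s 6 4, g, p 0 5, g, m 4 0, g, s 1 0, g, s 0 6, g, s 3 0, g], .hi 2, [.l [1, 11, 3, 13, 9, 12, 1, 10, 3, 1], .l [11, 3, 8, 1, 8, 5, 2], .l [0, 12, 14, 8, 13, 11, 1, 7, 10, 5], .y [2], .c, .l [2, 6, 8, 5, 0], .l [2, 6, 8, 5, 0], .l [7, 4, 10, 7, 3, 7, 2], .l [2, 6, 6, 3, 0], .l [1, 11, 5, 13, 7, 12, 1, 10, 1, 6], .l [2, 8, 10, 6, 8, 7, 0], .l [1, 5, 13, 1, 7, 1, 8, 1, 4, 1, 5, 6], .l [1, 9, 3, 13, 9, 12, 1, 10, 1, 2], .l [0, 12, 14, 6, 13, 1, 9, 5, 9, 4], .l [17, 12, 9, 1, 13, 9, 3, 9, 1, 9, 6, 3], .l [1, 9, 3, 13, 9, 12, 1, 10, 1, 4], .l [1, 9, 3, 13, 9, 12, 1, 10, 1, 4], .l [4, 16, 1, 9, 10, 4, 1, 8, 1, 8, 3, 4], .l [9, 3, 6, 10, 10, 2, 9, 5, 7, 4], .l [15, 12, 16, 14, 7, 11, 12,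 5], .l [0, 10, 12, 6, 13, 1, 9, 5, 9, 4], .l [15, 12, 16, 14, 7, 11, 12, 5], .l [1, 9, 3, 11, 7, 10, 1, 8, 1, 8], .l [1, 5, 11, 1, 5, 1, 6, 1, 9, 6, 2, 3], .l [9, 3, 12, 8, 11, 13, 3, 5, 4, 9]]),
([p 1 0, g, s 0 0, p 5 1, p 4 2, s 3 0, g, s 0 3, g, p 0 4, g, s 2 0, g, p 0 5, g], .hi 2, [.l [8, 11, 8, 13, 12, 1, 11, 7, 2, 3], .l [13, 6, 1, 7, 10, 8, 1, 10, 2, 3], .l [8, 11, 8, 13, 12, 1, 11, 7, 2, 3], .y [2], .l [2, 6, 10, 7, 0], .l [2, 6, 10, 7, 0], .l [13, 8, 3, 7, 1, 12, 4, 5], .l [2, 6, 8, 5, 0], .l [2, 8, 10, 5, 0], .l [2, 8, 10, 5, 0], .l [13, 8, 1, 13, 4, 8], .l [2, 8, 8, 3, 0], .l [13, 8, 1, 7, 3, 12, 4, 9], .l [5, 15, 12, 7, 3, 11, 2, 6, 4, 5], .l [13, 8, 1, 7, 3, 12, 4, 9], .l [11, 6, 1, 5, 1, 12, 6, 3],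 .l [11, 6, 1, 5, 1, 12, 6, 3], .l [4, 10, 12, 3, 7, 12, 4, 9, 4, 5], .l [11, 6, 1, 5, 1, 10, 4, 3], .l [6, 13, 9, 12, 2, 6, 3, 7, 2, 3], .l [6, 13, 9, 12, 2, 6, 3, 7, 2, 3], .l [6, 13, 9, 9, 6, 9, 4, 10, 6, 1]]),
([p 1 0, g, s 0 0, p 5 1, p 4 2, s 3 0, g, s 0 3, g, p 0 4, g, s 2 5, g], .hi 2, [.l [4, 1, 8, 1, 8, 5, 0, 6], .l [13, 6, 1, 9, 1, 9, 6, 1], .l [4, 1, 4, 0, 10], .y [2], .l [2, 6, 10, 7, 0], .l [2, 6, 10, 7, 0], .l [7, 4, 11], .l [2, 6, 8, 5, 0], .l [2, 8, 10, 5, 0], .l [2, 8, 10, 5, 0], .l [9, 6, 11], .l [2, 8, 8, 3, 0], .l [12, 1, 8, 10, 9, 9, 8, 1], .l [12, 1, 8, 10, 9], .l [11, 8, 11], .l [6, 11, 7, 10, 2, 4, 1, 5, 2, 3], .l [6, 11, 7, 10, 2, 4, 1, 5, 2, 3], .l [13, 10, 7]]),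
([p 2 1, g, s 0 0, p 0 2, p 6 3, s 5 4, g, s 0 5, g, p 0 6, g, m 4 0, g, s 1 0, g, s 3 0, g], .lo 3, [.l [13, 5, 10, 2, 10, 7, 2], .l [2, 4], .l [1, 5, 3, 2], .c, .l [0, 14, 11, 3, 7, 4, 10], .l [2, 9, 3, 10, 5, 0, 6], .l [0, 14, 11, 3, 7, 4, 10], .l [0, 14, 11, 5, 7, 2, 10], .l [13, 7, 9, 5, 7, 3, 12, 7, 10, 5], .l [0, 14, 11, 5, 7, 2, 10], .l [2, 7, 1, 8, 5, 0, 6, 8, 6, 9], .l [4, 11, 9, 12, 8, 3, 4, 6, 3], .l [2, 3, 0, 9], .l [2, 3, 0, 9], .l [2, 7, 1, 10, 8, 13, 1, 9, 3, 9, 0, 1], .l [11, 5, 12, 4, 5, 13, 5, 11, 1], .l [2, 3, 0, 11], .y [0, 13, 3], .l [2, 7, 1, 10, 8, 13, 3, 9, 3, 9, 0, 1], .l [11, 5, 14, 6, 7, 13, 3, 11, 3], .l [2, 3, 0, 13], .r 1394 [2, 3, 5, 6, 7] [1, 1, 1, 5, 1], .l [2, 7, 1, 10, 8, 11,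 1, 7, 3, 7, 0, 7], .r 1393 [2, 3, 5, 6, 7] [1, 1, 1, 5, 1, 1], .l [2, 3, 0, 15]]),
([p 2 1, g, s 0 0, p 0 2, p 5 3, s 0 4, g, p 0 5, g, m 4 0, g, s 1 0, g, s 3 0, g], .lo 5, [.l [2, 6, 8, 7, 2], .l [2, 6, 13], .l [1, 5, 3, 5, 12], .l [2, 4, 6, 5, 0], .r 1395 [1, 2, 3, 4, 6, 5] [1, 1, 1, 1, 1, 1, 1], .l [7, 1, 10, 8, 11], .l [11, 5, 6, 2, 4, 2, 10], .l [13, 12, 8, 3, 8, 4, 9, 3, 7, 4], .l [9, 3, 4, 2, 9, 7, 10], .l [15, 10, 3], .y [5, 9], .l [13, 12, 14, 10, 5, 7, 8, 3], .l [9, 3, 4, 2, 9, 7, 10], .l [15, 10, 5], .l [13, 8, 5, 5, 9, 9, 6, 3], .r 1392 [1, 2, 3, 4, 5, 6] [1, 1, 1, 1, 1, 1, 1], .l [9, 3, 4, 2, 11, 9, 10], .l [15, 10, 7], .l [13, 8, 7], .l [13, 8, 13, 7, 5, 5, 2, 6], .l [9, 3, 4, 2, 13, 11, 8], .l [13,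 8, 13]]),
([p 1 0, g, s 0 0, p 0 1, p 4 2, s 0 3, g, p 0 4, g, m 3 0, g, s 2 0, g], .hi 0, [.r 1391 [5, 1, 2, 3, 4] [1, 1, 1, 1, 1, 1], .l [0, 1], .l [2, 1], .r 1003 [5, 1] [1, 9], .y [0, 3], .l [0, 4, 9], .l [0, 6, 8, 5, 2], .l [0, 6], .l [7, 6], .l [0, 6], .l [0, 8, 10, 6, 8, 7, 2], .l [0, 8], .l [9, 8], .r 1396 [5, 1, 2, 3, 4] [1, 1, 1, 1, 1, 1], .l [0, 10], .l [11, 10], .r 1371 [5, 1, 2, 3, 4] [1, 1, 1, 1, 1, 1], .l [0, 12], .l [13, 12]]),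
([p 1 0, g, p 4 1, p 5 2, s 0 3, g, m 3 0, g, p 0 4, g, p 0 5, g, s 2 0, g], .hi 6, [.l [2, 7, 11, 8, 1], .l [1, 4, 2, 6], .l [2, 7], .y [4, 6], .l [8, 3, 9, 3, 7, 1, 7, 4, 1], .l [5, 10, 6, 6, 4, 1], .l [6, 7], .l [14, 10, 11, 4, 8, 1, 10, 6, 1], .l [3, 13, 7, 1, 3, 8, 8, 6, 3], .l [4, 10, 7, 3, 7, 10, 7, 3, 5, 6, 1], .l [3, 11, 5, 1, 1, 6, 6, 4, 3], .l [6, 1, 7, 3, 7, 1, 7, 4, 1], .l [5, 8, 4, 4, 2, 6], .l [6, 1, 7, 3, 7, 1, 7, 4, 1], .l [5, 8, 4, 4, 2, 6], .l [5, 8, 4, 6, 3, 8, 4, 5, 2], .l [5, 8, 4, 4, 2, 8], .l [5, 8, 4, 6, 3, 8, 4, 5, 2], .l [5, 8, 4, 6, 3, 10, 6, 7, 4], .l [5, 8, 4, 4, 2, 10], .l [5, 8, 4, 6, 3, 10, 6, 7, 4]]),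
([p 1 0, g, p 0 1, p 4 2, s 0 3, g, m 3 0, g, p 0 4, g, s 2 0, g], .lo 2, [.y [0, 2], .l [1, 8, 1, 8, 5, 2, 1], .l [2, 3], .l [1, 4, 2, 1], .l [1, 8, 3, 8, 3, 0, 4], .l [1, 8, 3, 8, 3, 0, 4], .l [1, 2, 0, 4], .l [1, 2, 0, 4], .l [1, 6, 1, 8, 5, 0, 1], .r 1398 [1, 2, 3, 5, 4] [1, 1, 1, 1, 1, 1], .l [1, 2, 0, 6], .l [1, 6, 1, 6, 3, 0, 4], .l [4, 10, 7, 3, 7, 8, 5, 6, 3], .l [1, 2, 0, 8], .l [1, 6, 1, 6, 3, 0, 4], .l [1, 6, 1, 6, 3, 0, 6], .l [4, 12, 9, 3, 9, 2, 6, 4, 1], .l [1, 2, 0, 10]]),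
([p 1 0, g, s 0 0, p 0 1, p 0 2, s 0 3, g, m 3 0, g, s 2 0, g], .lo 4, [.l [0, 3], .l [2, 5, 2], .l [2, 5], .l [1, 5, 3, 4], .l [2, 3, 0], .r 1313 [1, 4] [2, 2, 5], .r 1397 [1, 2, 3, 4] [1, 1, 1, 1, 1], .r 1359 [1, 2, 4] [2, 2, 3, 1], .r 1359 [1, 2, 4] [2, 2, 1, 1], .r 1313 [1, 4] [2, 4, 3], .r 1399 [1, 2, 3, 4] [2, 1, 1, 1, 1], .r 1359 [1, 2, 4] [2, 4, 1, 1], .y [4, 9], .r 1313 [1, 4] [2, 6, 1], .r 1350 [1, 2, 4] [2, 4, 1, 1], .r 1360 [1, 2, 4] [2, 4, 1, 1]]),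
([p 1 0, g, s 0 0, p 0 1, p 4 2, s 5 3, g, p 0 4, g, p 0 5, g, s 2 0, g, s 3 0, g], .hi 2, [.l [11, 3, 8, 1, 8, 5, 2, 9, 7, 4], .l [11, 3, 8, 1, 8, 5, 2], .r 1389 [6, 1, 2, 4] [1, 1, 2, 3, 3], .y [2], .c, .l [2, 6, 8, 5, 0], .l [2, 6, 8, 5, 0], .l [7, 4, 10, 7, 3, 7, 2], .l [2, 6, 6, 3, 0], .l [13, 8, 13, 3, 8, 1, 10, 1, 6, 1], .l [2, 8, 10, 6, 8, 7, 0], .l [13, 8, 13, 3, 8, 1, 10, 1, 6, 1], .l [2, 8, 8, 4, 6, 5, 0], .l [13, 8, 13, 7, 3, 5, 4, 7], .l [13, 8, 13, 7, 3, 5, 4, 7], .l [15, 9, 12, 6, 1, 2, 5, 9, 6, 3], .l [9, 3, 6, 10, 12, 4, 9, 3, 7, 4], .l [9, 3, 6, 10, 12, 4, 9, 3, 7, 4], .l [9, 3, 14, 10, 5, 7, 3, 5, 4, 7], .l [11, 6, 11, 13, 9, 11, 10, 3], .l [14, 3, 8, 10, 12, 10, 5], .l [11, 6, 11, 13, 9, 11,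 10, 3]]),
([p 2 1, g, s 1 0, g, s 0 0, p 0 2, p 5 3, s 0 4, g, p 0 5, g, s 3 0, g, s 4 0, g], .lo 7, [.l [2, 8, 10, 9, 4], .l [2, 8, 11], .l [1, 7, 5, 7, 10], .l [2, 6, 4, 5, 7, 5, 2], .l [4, 8, 10, 9, 2], .l [4, 8, 11], .l [3, 7, 3, 7, 10], .l [4, 6, 8, 7, 0], .l [2, 1, 8, 1, 8, 5, 2, 7, 2, 6], .l [2, 1, 8, 1, 8, 5, 2], .l [13, 6, 1], .l [2, 1, 12, 6, 11, 7, 9, 1, 5, 2], .r 1401 [2, 3, 4, 5, 6] [3, 1, 1, 1, 1, 1], .l [13, 6, 3], .l [11, 4, 3], .l [6, 10, 6, 1, 10, 7, 1, 3, 5, 6], .l [6, 10, 6, 1, 10, 7, 1, 3, 5, 6], .l [11, 4, 11], .y [7, 13], .l [6, 10, 6, 1, 10, 7, 1, 3, 5, 6], .l [6, 10, 6, 1, 10, 7, 10, 2, 4, 6], .l [11, 4, 13]]),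
([p 1 0, g, p 4 1, p 5 2, s 3 0, g, p 0 3, g, p 0 4, g, p 0 5, g, s 2 0, g], .lo 6, [.l [0, 5], .l [2, 7, 11, 8, 1], .l [2, 7], .l [1, 4, 2, 6], .y [4, 6], .l [8, 3, 9, 3, 7, 1, 7, 4, 1], .l [6, 7], .l [5, 10, 6, 6, 4, 1], .l [14, 10, 11, 4, 8, 1, 10, 6, 1], .l [4, 10, 7, 3, 7, 10, 7, 3, 5, 6, 1], .l [3, 13, 7, 1, 3, 8, 8, 6, 3], .l [6, 1, 7, 3, 7, 1, 7, 4, 1], .l [6, 1, 7, 3, 7, 1, 7, 4, 1], .l [5, 8, 4, 4, 2, 6], .l [5, 8, 4, 6, 3, 8, 4, 5, 2], .l [5, 8, 4, 6, 3, 8, 4, 5, 2], .l [5, 8, 4, 4, 2, 8], .l [5, 8, 4, 10, 4, 6, 1, 6, 3], .l [5, 8, 4, 6, 3, 10, 6, 7, 4], .l [5, 8, 4, 6, 3, 10, 6, 7, 4], .l [5, 8, 4, 4, 2, 10]]),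
([p 1 0, g, p 0 1, p 4 2, s 3 0, g, p 0 3, g, p 0 4, g, s 2 0, g], .lo 2, [.y [0, 2], .l [1, 8, 1, 8, 5, 2, 1], .l [2, 3], .l [1, 4, 2, 1], .l [1, 2, 0, 2, 7], .l [1, 8, 3, 8, 3, 0, 4], .l [1, 8, 3, 8, 3, 0, 4], .l [1, 2, 0, 4], .l [1, 6, 1, 8, 5, 0, 1], .r 1403 [1, 2, 3, 5, 4] [1, 1, 1, 1, 1, 1], .l [1, 2, 0, 6], .l [1, 6, 1, 6, 3, 0, 4], .l [4, 10, 7, 3, 7, 8, 5, 6, 3], .l [1, 2, 0, 8], .l [1, 6, 1, 6, 3, 0, 4], .l [1, 6, 1, 6, 3, 0, 6], .l [4, 12, 9, 3, 9, 2, 6, 4, 1], .l [1, 2, 0, 10]]),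
([p 2 1, g, p 0 2, p 5 3, s 0 4, g, p 0 5, g, s 3 0, g, s 1 0, g, s 4 0, g], .lo 4, [.l [2, 5, 7, 6, 1], .l [2, 5, 8], .l [1, 4, 2, 4, 7], .l [12, 11, 13, 9, 5, 8, 3, 1, 6, 1], .r 1404 [2, 3, 6, 5] [1, 1, 1, 1, 5], .l [10, 6, 1], .l [0, 11, 1, 6, 10, 6, 8, 1, 4, 1], .l [8, 3, 13, 9, 4, 6, 4, 4, 2, 5], .l [10, 6, 3], .l [8, 4, 3], .l [8, 4, 8, 10, 8, 8, 6, 1], .l [0, 11, 3, 6, 10, 6, 8, 1, 4, 1], .l [8, 4, 8], .l [8, 4, 8, 8, 6, 6, 4, 1], .l [10, 9, 11, 7, 3, 6, 8, 6, 4, 1], .l [0, 9, 11, 5, 7, 6, 1], .l [8, 4, 10], .y [4, 12], .l [10, 9, 11, 7, 3, 6, 8, 6, 4, 1], .l [0, 9, 13, 7, 9, 8, 1], .l [8, 4, 12]]),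
([p 1 0, g, s 0 0, p 0 1, p 4 2, s 0 3, g, p 0 4, g, s 2 0, g, s 3 0, g], .hi 0, [.r 1402 [5, 1, 2, 3, 4] [1, 1, 1, 1, 1, 1], .l [0, 1], .l [2, 1], .r 1003 [5, 1] [1, 9], .y [0, 3], .l [0, 4, 7], .l [0, 6, 8, 5, 2], .l [0, 6], .l [7, 6], .l [0, 6], .l [11, 6, 11, 7, 5, 5, 2, 4], .l [0, 8], .l [9, 8], .r 1405 [5, 1, 2, 3, 4] [2, 1, 1, 1, 1, 1], .l [0, 10], .l [11, 10], .l [9, 4, 9, 11, 9, 9, 6, 1], .l [0, 12], .l [13, 12]]),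
([p 1 0, g, s 0 0, p 0 1, p 0 2, s 0 3, g, s 2 0, g, s 3 0, g], .lo 4, [.l [0, 3], .l [2, 5, 2], .l [2, 5], .l [1, 5, 3, 4], .l [2, 3, 0], .r 1313 [1, 4] [2, 2, 5], .r 1406 [1, 2, 3, 4] [1, 1, 1, 1, 1], .r 1359 [1, 2, 4] [2, 2, 1, 3], .y [4, 7], .r 1313 [1, 4] [2, 4, 3], .r 1350 [1, 2, 4] [2, 2, 1, 3], .r 1360 [1, 2, 4] [2, 2, 1, 3], .r 1313 [1, 4] [2, 4, 1], .r 1313 [1, 4] [2, 6, 1], .r 1350 [1, 2, 4] [2, 2, 3, 1], .r 1360 [1, 2, 4] [2, 2, 3, 1]])]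

def d05_2 : List (List Item × Qry × List Rf) := [
([p 2 1, g, s 1 0, g, p 0 2, p 5 3, s 0 4, g, p 0 5, g, s 3 0, g, m 4 0, g], .lo 6, [.l [2, 7, 9, 8, 3], .l [2, 7, 10], .l [1, 6, 4, 6, 9], .l [2, 5, 3, 4, 6, 4, 1], .l [4, 7, 9, 8, 1], .l [4, 7, 10], .l [3, 6, 2, 6, 9], .l [5, 11, 8, 1, 11, 8, 3, 4, 6, 3], .l [8, 1, 13, 11, 8], .l [12, 6, 1], .l [5, 11, 8, 1, 11, 8, 1, 4, 6, 3], .l [10, 3, 4, 2, 12, 10, 7], .l [12, 6, 3], .l [10, 4, 3], .l [5, 9, 6, 1, 9, 6, 9, 2, 4, 5], .l [12, 5, 6, 4, 12, 8, 9], .l [10, 4, 10], .y [6, 12], .l [5, 9, 6, 1, 9, 6, 1, 2, 4, 5], .l [12, 5, 6, 4, 12, 8, 9], .l [10, 4, 12]]),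
([p 2 1, g, p 0 2, p 5 3, s 0 4, g, p 0 5, g, s 3 0, g, m 4 0, g, s 1 0, g], .lo 4, [.l [2, 5, 7, 6, 1], .l [2, 5, 8], .l [1, 4, 2, 4, 7], .l [3, 9, 13, 6, 7, 2, 9, 4, 6, 3], .l [6, 1, 11, 9, 6], .l [10, 6, 1], .l [8, 3, 11, 7, 4, 10, 8, 8, 6, 3], .l [8, 3, 4, 2, 10, 8, 5], .l [10, 6, 3], .l [8, 4, 3], .l [8, 4, 8, 12, 10, 10, 8, 1], .l [10, 5, 6, 4, 10, 6, 7], .l [8, 4, 8], .y [4, 10], .l [8, 4, 10, 12, 8, 8, 6, 1], .l [10, 5, 6, 4, 10, 6, 7], .l [8, 4, 10], .l [8, 4, 10, 10, 6, 6, 4, 1], .l [0, 11, 3, 6, 10, 6, 8, 1, 4, 1], .l [10, 5, 6, 4, 12, 8, 9], .l [8, 4, 12]]),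
([p 1 0, g, p 0 1, p 4 2, s 0 3, g, p 0 4, g, s 2 0, g, m 3 0, g], .hi 0, [.r 1408 [5, 1, 2, 3, 4] [1, 1, 1, 1, 1, 1], .l [0, 1], .l [2, 1], .y [0, 2], .l [0, 3, 6], .l [0, 5, 7, 4, 1], .l [0, 5], .l [6, 5], .l [0, 5], .l [0, 7, 11, 7, 9, 8, 1], .l [0, 7], .l [8, 7], .l [0, 9, 11, 5, 7, 6, 1], .l [0, 9], .l [10, 9], .r 1409 [5, 1, 2, 3, 4] [1, 1, 1, 1, 1, 1], .l [0, 11], .l [12, 11]]),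
([p 1 0, g, p 0 1, p 0 2, s 0 3, g, s 2 0, g, m 3 0, g], .lo 3, [.l [0, 2], .l [2, 4, 1], .l [2, 4], .l [1, 4, 2, 3], .r 1313 [1, 4] [1, 2, 5], .r 1410 [1, 2, 3, 4] [1, 1, 1, 1, 1], .r 1359 [1, 2, 4] [1, 2, 1, 3], .y [3, 6], .r 1313 [1, 4] [1, 4, 3], .r 1350 [1, 2, 4] [1, 2, 1, 3], .r 1360 [1, 2, 4] [1, 2, 1, 3], .r 1360 [1, 2, 4] [1, 2, 1, 1], .r 1313 [1, 4] [1, 6, 1], .r 1350 [1, 2, 4] [1, 2, 3, 1], .r 1360 [1, 2, 4] [1, 2, 3, 1]]),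
([p 1 0, g, s 2 0, g, p 0 1, p 0 0, s 0 2, g], .lo 5, [.l [0, 4], .l [2, 6, 3], .l [2, 6], .l [1, 6, 4, 5], .l [2, 4, 1], .l [4, 6, 1], .l [4, 6], .l [2, 7, 3, 2, 3], .y [5], .r 1313 [1, 3] [3, 2, 1], .l [2, 5, 7, 6, 1], .l [6, 3, 5, 3, 4]]),
([p 2 1, g, s 0 0, p 0 2, p 5 3, s 6 4, g, p 0 5, g, p 0 6, g, s 1 0, g, s 4 0, g, s 3 0, g], .hi 2, [.l [1, 11, 3, 13, 9, 12, 1, 10, 3, 1], .l [11, 3, 8, 1, 8, 5, 2], .l [0, 12, 14, 8, 13, 11, 1, 7, 10, 5], .y [2], .c, .l [2, 6, 8, 5, 0], .l [2, 6, 8, 5, 0], .l [7, 4, 10, 7, 3, 7, 2], .l [2, 6, 6, 3, 0], .l [1, 11, 5, 13, 7, 12, 1, 10, 1, 6], .l [2, 8, 10, 6, 8, 7, 0], .l [1, 5, 13, 1, 7, 1, 8, 1, 4, 1, 5, 6], .l [2, 8, 8, 4, 6, 5, 0], .l [1, 9, 3, 13, 9, 12, 1, 10, 1, 2],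 .l [0, 12, 14, 6, 13, 1, 9, 5, 9, 4], .l [17, 12, 9, 1, 13, 9, 3, 9, 1, 9, 6, 3], .l [1, 9, 3, 13, 9, 12, 1, 10, 1, 4], .l [1, 9, 3, 13, 9, 12, 1, 10, 1, 4], .l [4, 16, 1, 9, 10, 4, 1, 8, 1, 8, 3, 4], .l [15, 12, 16, 14, 7, 11, 12, 5], .l [0, 10, 12, 6, 13, 1, 9, 5, 9, 4], .l [15, 12, 16, 14, 7, 11, 12, 5], .l [1, 9, 3, 11, 7, 10, 1, 8, 1, 8], .l [1, 5, 11, 1, 5, 1, 6, 1, 9, 6, 2, 3], .l [9, 3, 12, 8, 11, 13, 3, 5, 4, 9]]),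
([p 2 1, g, s 0 0, p 0 2, p 5 3, s 0 4, g, p 0 5, g, s 1 0, g, s 4 0, g, s 3 0, g], .lo 5, [.l [2, 6, 8, 7, 2], .l [2, 6, 13], .l [1, 5, 3, 5, 12], .l [2, 4, 6, 5, 0], .l [11, 10, 4, 10, 5, 8, 9, 3, 7, 2], .r 1404 [2, 3, 6, 5] [2, 1, 1, 5, 1], .l [15, 10, 1], .l [11, 10, 14, 10, 3, 5, 8, 3], .r 1413 [1, 2, 3, 4, 5, 6] [1, 1, 1, 1, 1, 1, 1], .l [15, 10, 3], .l [13, 8, 3, 3, 9, 9, 6, 3], .l [0, 8, 10, 6, 11, 1, 3, 1, 7, 2], .l [0, 8, 10, 6, 8, 7, 2], .l [15, 10, 5], .y [5, 11], .l [0, 8, 10, 6, 11, 1, 3, 1, 7, 2], .l [0, 8, 12, 8, 10, 9, 2], .l [15, 10, 7], .l [13, 8, 7], .l [13, 8, 13, 9, 7, 7, 4, 6], .l [0, 8, 14, 10, 12, 11, 2], .l [13, 8, 13]]),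
([p 2 1, g, p 0 2, p 5 3, s 0 4, g, p 0 5, g, s 4 0, g, s 3 0, g, s 1 0, g], .lo 4, [.l [2, 5, 7, 6, 1], .l [2, 5, 10], .l [1, 4, 2, 4, 9], .l [3, 11, 1, 5, 6, 9, 6, 4, 6, 3], .l [3, 11, 1, 5, 6, 9, 6, 4, 6, 3], .l [12, 8, 1], .l [3, 11, 1, 5, 6, 9, 4, 2, 6, 1], .l [3, 11, 1, 5, 6, 9, 4, 2, 6, 1], .l [12, 8, 3], .y [4, 8], .l [3, 11, 1, 5, 6, 9, 4, 2, 6, 1], .l [8, 3, 9, 5, 8, 5, 8, 4, 2, 5], .l [12, 8, 5], .l [10, 6, 5], .l [10, 6, 10, 12, 10, 10, 8, 3], .l [8, 3, 11, 7, 4, 10, 8, 8, 6, 3], .l [10, 6, 10], .l [10, 6, 10, 10, 8, 8, 6, 3], .l [0, 11, 1, 6, 10, 6, 8, 1, 4, 1], .l [0, 11, 13, 5, 7, 6, 1], .l [10, 6, 12]]),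
([p 2 1, g, s 1 0, g, p 0 2, p 5 3, s 0 4, g, p 0 5, g, s 4 0, g, s 3 0, g], .lo 6, [.l [2, 7, 9, 8, 3], .l [2, 7, 12], .l [1, 6, 4, 6, 11], .l [2, 5, 3, 4, 6, 4, 1], .l [4, 7, 9, 8, 1], .l [4, 7, 12], .l [3, 6, 2, 6, 11], .l [2, 1, 5, 9, 3, 7, 8, 3, 6, 1], .l [2, 1, 7, 1, 7, 4, 1], .l [14, 8, 1], .l [2, 1, 5, 7, 11, 4, 1, 8, 4, 1], .l [2, 1, 9, 3, 9, 5, 8, 1, 6, 1], .l [14, 8, 3], .y [6, 10], .l [2, 1, 5, 7, 11, 4, 1, 8, 4, 1], .l [2, 1, 9, 3, 9, 5, 8, 1, 6, 1], .l [14, 8, 5], .l [12, 6, 5], .l [2, 1, 11, 6, 10, 6, 8, 1, 4, 1], .l [5, 11, 8, 1, 11, 8, 1, 4, 6, 3], .l [12, 6, 12]]),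
([p 1 0, g, s 0 0, p 0 1, p 4 2, s 0 3, g, p 0 4, g, s 3 0, g, s 2 0, g], .hi 0, [.r 1416 [5, 1, 2, 3, 4] [1, 2, 1, 1, 1, 1], .l [0, 1], .l [2, 1], .r 1003 [5, 1] [1, 9], .y [0, 3], .l [0, 4, 9], .l [0, 6, 8, 5, 2], .l [0, 6], .l [7, 6], .l [0, 6], .r 1414 [5, 1, 2, 3, 4] [1, 1, 1, 1, 1, 1], .l [0, 8], .l [9, 8], .l [11, 10, 12, 8, 3, 5, 6, 1], .l [0, 10], .l [11, 10], .r 1415 [5, 1, 2, 3, 4] [2, 1, 1, 1, 1, 1], .l [0, 12], .l [13, 12]]),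
([p 1 0, g, s 0 0, p 0 1, p 5 2, s 6 3, g, s 3 4, g, m 4 0, g, p 0 5, g, p 0 6, g, s 2 0, g], .hi 2, [.l [9, 1, 6, 1, 8, 3, 8, 3, 5, 7, 5, 6], .l [1, 11, 1, 11, 6, 3, 1], .l [4, 1, 10, 1, 10, 5, 0], .y [2], .c, .l [2, 6, 12, 9, 0], .l [2, 6, 12, 9, 0], .l [1, 9, 3, 11, 6, 1, 7, 9, 7, 8], .l [2, 8, 12, 7, 0], .l [2, 8, 12, 7, 0], .l [1, 5, 5, 9, 3, 9, 4, 1, 5, 7, 5, 6], .l [2, 10, 12, 5, 0], .l [2, 10, 12, 5, 0], .l [11, 8, 14, 11, 7, 11, 2], .l [2, 10, 10, 3, 0], .l [1, 5, 5, 7, 1, 7, 4, 1, 5, 7, 5, 6], .l [1, 5, 5, 7, 1, 7, 4, 1, 5, 7, 5, 6], .l [7, 1, 12, 7, 10, 6, 1, 3, 5, 7, 5, 6], .l [1, 5, 5, 7, 1, 7, 4, 1, 5, 5, 3, 4], .l [7, 1, 14, 9, 12, 8, 1, 5, 7, 4, 2, 6], .l [1, 9, 1, 9, 4, 1, 9], .l [7, 1, 14, 9,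 12, 8, 1, 5, 7, 4, 2, 6], .l [7, 1, 16, 11, 14, 10, 1, 7, 9, 4, 2, 3], .l [1, 9, 1, 9, 4, 1, 11], .l [7, 1, 16, 11, 14, 10, 1, 7, 9, 4, 2, 3]]),
([p 2 1, g, s 0 0, p 0 2, p 5 3, s 6 4, g, s 4 0, g, p 0 5, g, p 0 6, g, s 3 0, g, s 1 0, g], .hi 7, [.l [2, 8, 10, 7, 2], .l [0, 16, 14, 6, 8, 5, 11], .l [2, 8, 10, 7, 2], .l [2, 6, 8, 5, 0], .l [0, 14, 11, 3, 5, 2, 10], .l [4, 14, 7, 1, 8, 12, 7, 5, 9, 1], .l [4, 14, 7, 1, 8, 12, 7, 5, 9, 1], .l [4, 14, 5, 7, 1, 5, 6, 10, 5, 3, 7, 1], .l [4, 14, 7, 1, 8, 12, 7, 5, 9, 1], .l [4, 14, 7, 1, 8, 12, 7, 5, 9, 1], .r 1418 [2, 3, 4, 7, 5, 6] [1, 1, 1, 1, 1, 1, 3], .l [4, 12, 5, 1, 6, 10, 5, 3, 7, 1], .l [4, 14, 3, 5, 8, 12, 5, 3, 9, 1], .l [4, 14, 3, 5, 8, 12, 5, 3, 9, 1], .l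 [5, 6, 10, 3, 10, 6, 9, 5, 9, 5, 3, 6], .y [5, 7, 11], .l [4, 14, 1, 5, 8, 12, 5, 3, 9, 3], .l [4, 14, 1, 5, 8, 12, 5, 3, 9, 3], .l [6, 7, 5, 12, 14, 5, 10, 3, 10, 6, 2, 6], .l [4, 12, 8, 14, 1, 9, 1, 5, 9, 1], .l [13, 8, 1, 1, 11, 13, 11, 11, 8, 3], .l [7, 1, 10, 8, 9, 13, 7, 11, 5, 1, 6, 3], .l [0, 14, 7, 14, 8, 2, 11, 1, 7, 2], .l [0, 14, 7, 14, 8, 2, 11, 1, 7, 2], .l [0, 14, 16, 8, 10, 7, 2]]),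
([p 2 1, g, s 0 0, p 0 2, p 5 3, s 0 4, g, s 4 0, g, p 0 5, g, s 3 0, g, s 1 0, g], .lo 5, [.l [2, 6, 10, 9, 2], .l [2, 6, 11], .l [1, 5, 3, 5, 10], .l [2, 4, 8, 7, 0], .l [5, 8, 12, 4, 9, 11, 9, 9, 6, 1], .r 1404 [2, 3, 6, 5] [2, 1, 3, 1, 3], .l [13, 8, 1], .y [5, 7], .l [5, 8, 12, 4, 9, 11, 9, 9, 6, 1], .r 1404 [2, 3, 6, 5] [2, 3, 1, 1, 3], .l [13, 8, 3], .l [4, 12, 1, 5, 6, 10, 7, 5, 7, 3], .r 1419 [1, 2, 3, 4, 5, 6] [1, 1, 1, 1, 1, 1, 1], .l [13, 8, 5], .l [11, 6, 5], .l [11, 6, 11, 13, 11, 11, 8, 1], .l [4, 10, 14, 7, 8, 2, 10, 5, 7, 3], .l [11, 6, 11], .l [11, 6, 11, 11, 9, 9, 6, 1], .l [13, 12, 14, 9, 5, 8, 3, 1, 6, 1], .l [0, 12, 14, 6, 10, 9, 2], .l [11, 6, 13]]),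
([p 2 1, g, s 1 0, g, p 0 2, p 5 3, s 6 4, g, s 4 0, g, p 0 5, g, p 0 6, g, s 3 0, g], .hi 2, [.l [16, 8, 1, 12, 1, 12, 8, 3], .l [0, 3, 6, 14, 11, 1, 7, 10, 3], .l [14, 5, 9, 11, 1, 9, 9, 7, 2], .l [16, 8, 1, 12, 1, 12, 8, 3], .l [14, 5, 11, 1, 11, 7, 2], .l [7, 15, 10, 1, 4, 1, 8, 5, 1, 7, 2, 3], .y [0, 2, 4], .l [2, 7, 5, 5, 9, 6, 1], .l [0, 1, 1, 5, 9, 6, 1], .l [0, 1, 7, 5, 7, 3, 7, 2, 4, 6, 4, 5], .l [2, 9, 7, 7, 9, 4, 1], .l [0, 1, 1, 7, 9, 4, 1], .l [0, 1, 9, 7, 11, 7, 3, 7, 2], .l [0, 1, 1, 7, 7, 2, 1], .l [1, 8, 1, 8, 5, 2, 6, 8, 6, 7], .l [0, 1, 1, 9, 11, 5, 9, 8, 1], .l [2, 1, 13, 7, 11, 5, 9, 7, 8, 3, 6, 1], .l [0, 1, 1, 9, 9, 3, 7, 6, 1], .l [2, 1, 7, 1, 9, 7, 10, 1, 5, 1, 6, 1], .l [2, 1, 4, 14,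 1, 9, 5, 10, 1], .l [5, 15, 12, 1, 4, 1, 8, 5, 1, 7, 2, 3], .l [7, 5, 14, 1, 9, 2, 8, 3], .l [5, 13, 10, 1, 8, 5, 6, 9, 6, 4, 6, 3], .r 1387 [1, 7, 2] [1, 1, 11, 1]]),
([p 2 1, g, s 1 0, g, p 0 2, p 5 3, s 0 4, g, s 4 0, g, p 0 5, g, s 3 0, g], .lo 6, [.l [2, 7, 11, 10, 3], .l [2, 7, 12], .l [1, 6, 4, 6, 11], .l [2, 5, 3, 4, 8, 6, 1], .l [4, 7, 11, 10, 1], .l [4, 7, 12], .l [3, 6, 2, 6, 11], .l [2, 1, 7, 1, 9, 6, 1, 3, 4, 5], .l [2, 1, 7, 1, 9, 6, 1], .l [14, 8, 1], .y [6, 8], .l [2, 1, 7, 1, 9, 6, 1, 3, 4, 5], .l [2, 1, 7, 1, 9, 6, 1, 3, 4, 5], .l [14, 8, 3], .l [2, 1, 5, 9, 3, 7, 8, 3, 6, 1], .r 1421 [1, 2, 3, 4, 5, 6] [1, 1, 1, 1, 1, 1, 1], .l [14, 8, 5], .l [12, 6, 5], .l [2, 1, 7, 1, 7, 4, 1, 6, 2, 5], .l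 [5, 11, 8, 1, 11, 8, 3, 4, 6, 3], .l [12, 6, 12]]),
([p 1 0, g, s 0 0, p 5 1, p 4 2, s 0 3, g, s 3 0, g, p 0 4, g, s 2 5, g], .hi 2, [.l [4, 1, 8, 1, 8, 5, 0, 6], .l [13, 6, 1, 9, 1, 9, 6, 1], .l [4, 1, 4, 0, 10], .y [2], .l [2, 4, 8, 7, 0], .l [2, 6, 10, 7, 0], .l [2, 6, 10, 7, 0], .l [7, 4, 11], .l [2, 8, 10, 5, 0], .l [2, 8, 10, 5, 0], .l [9, 6, 11], .l [2, 8, 8, 3, 0], .l [12, 1, 8, 10, 9, 9, 8, 1], .l [12, 1, 8, 10, 9], .l [11, 8, 11], .l [6, 11, 7, 10, 2, 4, 1, 5, 2, 3], .l [6, 11, 7, 10, 2, 4, 1, 5, 2, 3], .l [13, 10, 7]]),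
([p 1 0, g, s 0 0, p 5 1, p 4 2, s 0 3, g, s 3 0, g, p 0 4, g, s 2 0, g, p 0 5, g], .hi 2, [.l [8, 11, 8, 13, 12, 1, 11, 7, 2, 3], .l [13, 6, 1, 7, 10, 8, 1, 10, 2, 3], .l [8, 11, 8, 13, 12, 1, 11, 7, 2, 3], .y [2], .l [2, 4, 8, 7, 0], .l [2, 6, 10, 7, 0], .l [2, 6, 10, 7, 0], .l [13, 8, 3, 7, 1, 12, 4, 5], .l [2, 8, 10, 5, 0], .l [2, 8, 10, 5, 0], .l [13, 8, 1, 13, 4, 8], .l [2, 8, 8, 3, 0], .l [13, 8, 1, 7, 3, 12, 4, 9], .l [5, 15, 12, 7, 3, 11, 2, 6, 4, 5], .l [13, 8, 1, 7, 3, 12, 4, 9], .l [11, 6, 1, 5, 1, 12, 6, 3], .l [11, 6, 1, 5, 1, 12, 6, 3], .l [4, 10, 12, 3, 7, 12, 4, 9, 4, 5], .l [11, 6, 1, 5, 1, 10, 4, 3], .l [6, 13, 9, 12, 2, 6, 3, 7, 2, 3], .l [6, 13, 9, 12, 2, 6, 3, 7, 2, 3], .l [6, 13, 9, 9, 6,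 9, 4, 10, 6, 1]]),
([p 2 1, g, s 0 0, p 0 2, p 5 3, s 6 4, g, s 4 0, g, p 0 5, g, p 0 6, g, s 1 0, g, s 3 0, g], .lo 3, [.l [13, 5, 10, 2, 10, 7, 2], .l [2, 4], .l [1, 5, 3, 2], .c, .l [0, 14, 11, 3, 7, 4, 10], .l [2, 9, 3, 10, 5, 0, 6], .l [0, 14, 11, 3, 7, 4, 10], .l [0, 12, 9, 3, 5, 2, 8], .l [0, 14, 11, 5, 7, 2, 10], .l [13, 7, 9, 5, 7, 3, 12, 7, 10, 5], .l [0, 14, 11, 5, 7, 2, 10], .l [2, 7, 1, 8, 5, 0, 6, 8, 6, 9], .l [4, 11, 9, 12, 8, 3, 4, 6, 3], .l [2, 3, 0, 9], .l [2, 7, 1, 10, 8, 13, 1, 9, 3, 9, 0, 1], .l [11, 5, 12, 4, 5, 13, 5, 11, 1], .l [2, 3, 0, 11], .y [0, 13, 3], .l [2, 7, 1, 10, 8, 13, 3, 9, 3, 9, 0, 1], .l [11, 5, 14, 6, 7, 13, 3, 11, 3], .l [2, 3, 0, 13], .r 1423 [2, 3, 4, 5, 7] [1, 1, 1, 5,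 1], .l [2, 7, 1, 10, 8, 11, 1, 7, 3, 7, 0, 7], .r 1424 [2, 3, 4, 5, 7] [1, 1, 1, 5, 1, 1], .l [2, 3, 0, 15]]),
([p 2 1, g, s 0 0, p 0 2, p 5 3, s 0 4, g, s 4 0, g, p 0 5, g, s 1 0, g, s 3 0, g], .lo 5, [.l [2, 6, 10, 9, 2], .l [2, 6, 13], .l [1, 5, 3, 5, 12], .l [2, 4, 8, 7, 0], .l [5, 8, 14, 6, 11, 7, 5, 5, 2, 4], .r 1404 [2, 3, 6, 5] [2, 1, 3, 3, 1], .l [15, 10, 1], .y [5, 7], .l [5, 8, 14, 6, 11, 7, 5, 5, 2, 4], .r 1404 [2, 3, 6, 5] [2, 3, 1, 3, 1], .l [15, 10, 3], .l [13, 12, 14, 10, 5, 7, 8, 1], .r 1425 [1, 2, 3, 4, 5, 6] [1, 1, 1, 1, 1, 1, 1], .l [15, 10, 5], .l [13, 8, 5, 5, 9, 9, 6, 1], .l [11, 10, 4, 10, 5, 8, 9, 3, 7, 2], .l [0, 10, 12, 6, 10, 9, 2], .l [15, 10, 7], .l [13, 8, 7], .l [13, 8, 13, 7, 5,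 5, 2, 4], .l [0, 10, 14, 8, 12, 11, 2], .l [13, 8, 13]]),
([p 1 0, g, s 0 0, p 0 1, p 4 2, s 0 3, g, s 3 0, g, p 0 4, g, s 2 0, g], .hi 0, [.r 1422 [5, 1, 2, 3, 4] [1, 2, 1, 1, 1, 1], .l [0, 1], .l [2, 1], .r 1003 [5, 1] [1, 9], .y [0, 3], .l [0, 4, 9], .l [0, 6, 10, 7, 2], .l [0, 6], .l [7, 6], .l [0, 8, 10, 5, 2], .l [0, 8], .l [9, 8], .l [0, 8], .r 1426 [5, 1, 2, 3, 4] [1, 1, 1, 1, 1, 1], .l [0, 10], .l [11, 10], .r 1420 [5, 1, 2, 3, 4] [1, 1, 1, 1, 1, 1], .l [0, 12], .l [13, 12]]),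
([p 1 0, g, s 0 0, p 0 1, p 0 2, s 0 3, g, s 3 0, g, s 2 0, g], .lo 4, [.l [0, 3], .l [2, 5, 2], .l [2, 5], .l [1, 5, 3, 4], .l [2, 3, 0], .r 1313 [1, 4] [2, 2, 5], .r 1417 [1, 2, 3, 4] [1, 1, 1, 1, 1], .r 1359 [1, 2, 4] [2, 2, 3, 1], .r 1313 [1, 4] [2, 2, 3], .r 1313 [1, 4] [2, 4, 3], .r 1427 [1, 2, 3, 4] [1, 1, 1, 1, 1], .r 1359 [1, 2, 4] [2, 4, 1, 1], .y [4, 9], .r 1313 [1, 4] [2, 6, 1], .r 1350 [1, 2, 4] [2, 4, 1, 1], .r 1360 [1, 2, 4] [2, 4, 1, 1]]),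
([p 1 0, g, s 0 0, p 0 1, p 0 2, s 0 0, g, s 2 0, g], .hi 5, [.r 1412 [1, 3] [1, 2, 3], .l [1, 5, 3, 5, 6], .l [2, 6, 7], .r 1412 [1, 3] [1, 0, 3], .l [2, 3, 0, 3, 4], .r 1313 [1, 3] [2, 0, 3], .y [5], .r 1428 [1, 2, 3] [1, 1, 1, 1], .l [9, 4, 1], .r 1400 [1, 2, 3] [1, 1, 1, 1], .r 1407 [1, 2, 3] [1, 1, 1, 1], .l [7, 2, 7], .r 1411 [1, 2, 3] [2, 1, 1, 1]]),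
([p 1 0, g, m 5 0, p 4 1, p 3 2, g, p 0 3, g, p 0 4, g, s 2 0, g, s 0 5, g], .lo 6, [.l [0, 5], .l [1, 5, 3, 6, 6, 4, 6, 4, 7], .l [2, 7], .l [1, 5, 3, 6], .l [1, 3, 1, 4], .l [5, 10, 7, 11, 3, 5, 1, 6, 1], .l [6, 7], .l [4, 11, 5, 1, 3, 6, 8], .l [5, 10, 7, 11, 3, 7, 3, 6, 3], .l [4, 11, 3, 12, 3, 8, 1, 8, 6, 4, 5], .l [2, 13, 7, 1, 8, 4, 6, 2, 5], .l [5, 8, 5, 11, 5, 7, 1, 6, 1], .l [4, 11, 5, 2, 8, 10, 6, 1, 1, 2, 3], .l [5, 6, 4, 6, 5, 5, 2, 5], .y [4, 10, 6], .l [5, 8, 5, 11, 5, 7, 1, 6, 3], .l [9, 12, 8, 10, 7, 9, 4, 0, 2, 4, 1], .l [4, 9, 3, 9, 1, 8, 1, 4, 7], .l [5, 8, 5, 9, 3, 5, 1, 4, 7], .l [2, 11, 13, 7, 7, 5, 0], .l [2, 11, 5, 11, 4, 0, 7]]),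
([p 1 0, g, m 4 0, p 0 1, p 3 2, g, p 0 3, g, s 2 0, g, s 0 4, g], .lo 3, [.y [0, 3], .l [1, 5, 3, 2, 9], .l [2, 4], .l [1, 5, 3, 2], .l [1, 3, 1, 0], .l [2, 3, 0, 4, 6, 4, 7], .l [3, 6, 5, 10, 1, 5, 1, 4, 1], .l [2, 11, 8, 2, 4, 2, 5], .l [12, 9, 4], .r 1430 [1, 2, 3, 5, 4] [1, 1, 1, 1, 1, 1], .l [2, 3, 0, 6], .l [10, 7, 4], .l [12, 9, 6], .l [8, 3, 3, 1, 8, 4, 7], .l [2, 3, 0, 8], .l [10, 7, 10], .l [8, 3, 3, 1, 10, 6, 3], .l [2, 3, 0, 10]]),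
([p 3 1, g, m 7 2, p 6 3, g, m 2 4, g, m 4 5, g, m 5 0, g, p 0 6, g, s 0 7, g, s 1 0, g], .lo 11, [.l [1, 5, 3, 10, 10, 2, 9], .l [2, 12], .l [0, 16, 14, 10, 10, 2, 9], .l [4, 7, 4, 5, 3, 8, 8, 2, 7], .l [5, 12], .l [4, 7, 4, 5, 3, 8], .l [6, 9, 7, 7, 4, 5, 3, 6, 6, 2, 5], .l [7, 12], .l [4, 13, 11, 12, 7, 5, 5, 6, 3], .l [8, 11, 9, 9, 7, 7, 4, 5, 3, 4, 4, 2, 3], .l [9, 12], .l [6, 7, 5, 11, 9, 10, 5, 3, 3, 4, 1], .l [6, 7, 5, 9, 7, 8, 3, 1, 1, 2, 1], .l [6, 13, 9, 12, 1, 7, 12, 3, 8, 1, 1, 2, 5], .l [11, 12], .l [10, 13, 5, 5, 2, 1], .l [6, 11, 7, 12, 10, 12, 5, 9, 5, 7, 1, 3, 3, 4, 1], .l [6, 11, 7, 12, 10, 12, 5, 9, 5, 7, 1, 3, 3, 4, 1], .l [6, 11, 7, 3, 8, 1, 8, 6, 4, 5], .l [2, 12, 1, 12, 4, 0, 9], .l [2,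 12, 14, 12, 14, 5, 6, 0, 1], .l [2, 12, 1, 12, 4, 0, 9], .y [0, 15, 11, 3], .l [2, 12, 1, 14, 6, 0, 11], .l [0, 14, 16, 12, 12, 4, 11], .l [2, 12, 1, 14, 6, 0, 11]]),
([p 3 1, g, m 6 2, p 5 3, g, m 2 4, g, m 4 0, g, p 0 5, g, s 0 6, g, s 1 0, g], .hi 7, [.l [1, 5, 3, 6, 6, 4, 6, 4, 5], .l [0, 14, 12, 6, 6, 4, 6, 4, 5], .l [2, 8], .l [4, 7, 4, 5, 3, 4, 6, 4, 5], .l [2, 12, 7, 3, 3, 1, 1, 6, 2, 0, 1], .l [5, 8], .l [6, 11, 7, 10, 1, 3, 1, 4, 1], .l [6, 9, 7, 7, 4, 5, 3, 1], .l [7, 8], .l [6, 7, 5, 5, 2, 3, 1, 2, 4, 2, 3], .l [4, 11, 9, 10, 5, 1, 3, 4, 1], .r 1432 [1, 2, 3, 4, 7, 5, 6] [1, 1, 1, 1, 1, 1, 1, 1], .l [4, 9, 7, 8, 3, 1, 1, 2, 1], .l [6, 9, 5, 10, 3, 5, 1, 4, 1], .l [6, 7, 5, 5, 2, 3, 1, 4], .l [6, 7,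 5, 7, 5, 8, 6, 8, 1, 5, 1, 4, 1], .y [2, 5, 7, 11], .l [6, 9, 5, 8, 1, 3, 1, 2, 5], .l [2, 10, 3, 10, 4, 0, 5], .l [6, 9, 5, 8, 1, 3, 8, 4, 5], .l [6, 9, 5, 8, 1, 3, 1, 2, 7], .l [2, 10, 3, 12, 6, 0, 7], .l [0, 12, 14, 8, 8, 6, 8, 6, 7]]),
([p 2 1, g, m 6 0, p 3 2, g, p 4 0, g, p 0 3, p 5 4, g, p 0 5, g, s 0 6, g, s 1 0, g], .hi 5, [.l [7, 4, 6, 3, 6, 2, 9], .l [6, 9, 7, 12, 8, 12, 3, 9, 1, 8, 5], .l [7, 4], .l [7, 1, 8, 4, 11], .l [6, 16, 8, 10, 1, 12, 5, 10, 5, 1, 7, 2, 3], .l [7, 1], .l [7, 1, 8, 4, 11], .l [5, 6], .l [7, 1], .l [5, 6], .l [5, 9, 11, 9, 4], .l [5, 9], .l [10, 4], .y [5, 10, 8], .l [4, 7, 5, 12, 1, 7, 1, 6, 3], .l [5, 11], .l [12, 6], .l [5, 11, 6, 11, 1, 6, 3, 5, 1, 4, 1], .l [5, 13, 8, 13,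 1, 8, 8, 6, 4, 8, 1, 6, 1], .l [5, 13], .l [14, 8], .l [4, 7, 5, 10, 12, 3, 12, 7, 1, 6, 3, 3, 1], .l [5, 15], .l [16, 10]]),
([p 3 1, g, m 8 2, p 4 3, g, m 2 0, g, p 5 4, p 6 5, g, p 7 6, g, p 0 7, g, s 0 8, g, s 1 0, g], .hi 5, [.l [1, 5, 3, 4, 6, 4, 11], .l [0, 17, 15, 4, 6, 4, 11], .l [2, 6], .l [6, 7, 2, 3, 1, 2, 4, 2, 9], .l [2, 15, 10, 1, 1, 11, 2, 0, 6], .l [5, 6], .l [4, 5, 2, 3, 1, 2, 4, 2, 9], .l [4, 5, 2, 3, 1, 2], .l [7, 11, 18, 13, 7, 14, 8, 3, 7, 1, 7, 3, 8, 2, 4, 2, 3], .l [4, 5, 2, 3, 1, 5, 7, 5, 5, 4, 4, 2, 5], .l [3, 7, 6, 14, 10, 4, 6, 4, 7], .l [4, 7, 5, 14, 12, 14, 1, 11, 1, 10, 5], .l [4, 5, 2, 3, 1, 7, 9, 7, 7, 5, 5, 4, 4, 2, 3], .l [3, 7, 6, 14, 10, 6, 8, 6, 6, 4, 5], .l [4, 7, 5, 14, 12,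 14, 1, 11, 1, 10, 3], .l [3, 7, 6, 12, 8, 6, 6, 4, 4, 2, 3], .l [0, 17, 12, 8, 10, 11, 6, 6, 5, 5, 3, 3, 1], .l [4, 5, 2, 3, 1, 9], .l [2, 15, 3, 9, 6, 1, 6, 1, 9, 2, 0, 4, 1], .y [2, 5, 14], .l [2, 13, 8, 13, 4, 0, 8], .l [2, 13, 8, 13, 4, 0, 8], .l [2, 13, 15, 6, 15, 12, 13, 0, 6], .l [2, 13, 8, 15, 6, 0, 10], .l [2, 13, 8, 15, 6, 0, 10], .l [0, 15, 17, 6, 8, 6, 13]]),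
([p 2 1, g, m 7 0, p 3 2, g, p 4 3, p 5 4, g, p 6 5, g, p 0 6, g, s 0 7, g, s 1 0, g], .hi 2, [.l [3, 5, 1, 2, 4, 2, 9], .l [1, 5, 3, 1], .l [2, 3], .l [1, 3, 1, 2, 4, 2, 9], .l [0, 15, 13, 2, 4, 2, 9], .r 1435 [1, 8, 2, 3, 4, 5, 6, 7] [1, 1, 1, 1, 1, 1, 1, 1], .l [1, 3, 1, 5, 7, 5, 5, 4, 4, 2, 5], .l [0, 15, 13, 5, 7, 5, 5, 4, 4, 2, 5], .l [3, 8, 6, 7, 5, 11, 6, 8, 5], .l [1, 3, 1, 7, 9, 7, 7, 5, 5, 4, 4, 2, 3], .l [0, 15, 13, 7, 9, 7, 7, 5, 5, 4, 4, 2, 3], .l [4, 10, 7, 2, 7, 10, 12, 7, 8, 0, 5], .l [0, 13, 11, 7, 7, 5, 5, 3, 3, 2, 2, 0, 1], .l [4, 12, 9, 2, 9, 10, 12, 9, 10, 0, 7, 7, 5], .l [1, 3, 1, 9], .l [4, 12, 9, 2, 9, 10, 12, 9, 10, 0, 7], .y [2, 12], .l [8, 10, 9, 13, 7, 8, 6, 6, 9, 4, 2, 6, 1], .l [1,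 3, 1, 11], .l [6, 14, 9, 10, 8, 8, 11, 4, 2, 8, 1], .l [4, 16, 13, 2, 13, 3, 1, 9, 10, 0, 7, 7, 5], .l [1, 3, 1, 13], .l [4, 16, 13, 2, 13, 3, 1, 9, 10, 0, 7]]),
([p 2 1, g, m 6 0, p 3 2, g, p 4 3, p 5 4, g, p 0 5, g, s 0 6, g, s 1 0, g], .lo 8, [.l [1, 5, 3, 7, 7, 5, 5, 4, 4, 2, 3], .l [2, 9], .l [0, 13, 11, 7, 7, 5, 5, 4, 4, 2, 3], .l [0, 11, 9, 5, 5, 3, 3, 2, 2, 0, 1], .l [5, 9, 9, 7, 4], .l [5, 9], .l [3, 7, 6, 10, 6, 4, 4, 2, 3], .l [7, 10, 8, 8, 7, 7, 5, 6, 8, 3, 6, 2, 1], .l [8, 9], .l [7, 10, 8, 8, 7, 7, 5, 5, 2, 1], .l [7, 8, 6, 6, 5, 5, 3, 6, 8, 3, 4, 0, 3], .r 1436 [1, 2, 3, 4, 5, 7, 6] [1, 1, 1, 1, 1, 1, 1], .l [7, 8, 6, 6, 5, 5, 3, 3, 0, 3], .l [3, 5, 4, 8, 10, 8, 8, 6, 1], .l [3, 5, 4, 8, 10, 8, 8,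 6, 1], .l [5, 6, 5, 5, 3, 6, 1, 6, 4, 0, 3], .y [0, 12, 8, 6, 5, 3], .l [3, 5, 4, 8, 12, 10, 10, 8, 1], .l [0, 11, 13, 9, 9, 7, 7, 6, 6, 4, 5], .l [5, 6, 5, 5, 3, 6, 1, 8, 6, 0, 5]]),
([p 2 1, g, m 5 0, p 3 2, g, p 0 3, p 4 0, g, p 0 4, g, s 0 5, g, s 1 0, g], .hi 6, [.l [0, 8, 5, 2, 5, 7, 5, 2, 5], .l [5, 8, 4, 7, 5, 9, 4, 6, 3], .l [8, 5], .l [3, 8, 2, 11, 4, 8, 5], .r 1434 [1, 2, 3, 6, 4, 5] [1, 1, 1, 1, 1, 1, 1], .l [8, 2], .r 1437 [1, 2, 3, 6, 4, 5] [1, 1, 1, 1, 1, 1], .l [3, 8, 1, 9, 7, 4, 7], .l [6, 7], .l [8, 1], .y [6, 8], .l [0, 6, 9, 6, 2, 4, 5, 2, 5], .l [6, 9], .l [10, 3], .l [6, 9, 3, 9, 7, 3, 7, 4, 2, 4, 1], .l [0, 6, 11, 8, 2, 4, 7, 4, 1], .l [6, 11], .l [12, 5], .l [0, 6, 13, 10, 2, 4, 9, 6, 1],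 .l [6, 13], .l [14, 7]]),
([p 2 1, g, m 4 0, p 3 2, g, p 0 3, p 0 0, g, s 0 4, g, s 1 0, g], .lo 6, [.l [10, 5, 9, 8, 8, 6, 3], .l [2, 7], .l [1, 5, 3, 5], .l [1, 3, 1, 3], .l [5, 7, 4], .l [5, 7], .l [3, 7, 6, 8, 4, 2, 3], .y [6], .l [10, 7, 9, 8, 8, 6, 1], .r 1438 [1, 2, 3, 5, 4] [1, 1, 1, 1, 1, 1], .l [10, 7, 9, 8, 8, 6, 1], .l [8, 5, 7, 6, 6, 4, 5], .l [3, 5, 4, 6, 8, 6, 1], .l [8, 5, 7, 6, 6, 4, 5], .l [8, 5, 7, 6, 6, 4, 5], .l [8, 5, 7, 6, 6, 4, 7], .l [3, 5, 4, 6, 10, 8, 1], .l [8, 5, 7, 6, 6, 4, 7]]),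
([p 2 1, g, m 5 0, p 3 2, g, p 0 3, s 0 4, g, m 4 0, g, s 0 5, g, s 1 0, g], .lo 6, [.l [14, 13, 13, 8, 4, 1, 4, 5, 2, 5], .l [12, 7, 11, 10, 10, 8, 5], .l [5, 8, 4, 7, 5, 9, 4, 6, 3], .l [3, 6, 4, 5, 3, 7, 4, 4, 1], .l [5, 7, 4], .l [5, 7, 4], .l [3, 7, 6, 10, 6, 2, 5], .l [14, 13, 13, 10, 6, 3, 6, 7, 4, 1], .l [3, 8, 1, 9, 7, 4, 7], .l [12, 9, 11, 10, 10, 8, 1], .y [6, 8], .l [14, 13, 13, 10, 4, 1, 6, 7, 2, 3], .l [3, 8, 1, 9, 7, 4, 7], .l [12, 9, 11, 10, 10, 8, 3], .l [14, 13, 13, 10, 4, 1, 4, 7, 4, 1], .l [3, 5, 4, 8, 10, 6, 1], .l [10, 7, 9, 8, 8, 6, 7], .l [12, 11, 11, 8, 8, 6, 5], .l [12, 11, 11, 8, 4, 1, 4, 5, 2, 5], .l [3, 5, 4, 8, 12, 8, 1], .l [10, 7, 9, 8, 8, 6, 9]]),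
([p 3 1, g, m 5 2, p 4 3, g, p 0 4, s 0 0, g, s 2 0, g, s 0 5, g, s 1 0, g], .hi 6, [.l [14, 13, 13, 8, 9, 4, 1, 2, 4, 5], .l [14, 13, 13, 8, 9, 4, 9, 2, 4, 5], .l [12, 7, 11, 10, 10, 8, 5], .l [5, 7, 4], .l [3, 7, 6, 10, 6, 2, 5], .l [5, 7, 4], .l [3, 5, 4, 8, 4, 0, 3], .y [6], .l [14, 13, 13, 10, 11, 4, 1, 2, 6, 1], .l [12, 9, 11, 10, 10, 8, 1], .r 1440 [1, 3, 4, 6, 5] [1, 1, 1, 3, 1, 1], .l [14, 13, 13, 10, 11, 6, 3, 4, 6, 3], .l [12, 9, 11, 10, 10, 8, 3], .l [14, 13, 13, 10, 11, 6, 3, 4, 6, 3], .l [10, 7, 9, 8, 8, 6, 3], .l [14, 13, 13, 10, 11, 6, 1, 4, 6, 3], .l [10, 7, 9, 8, 8, 6, 7], .l [3, 5, 4, 8, 10, 6, 1], .l [12, 11, 11, 8, 9, 4, 1, 2, 4, 5], .l [10, 7, 9, 8, 8, 6, 9], .l [3, 5, 4, 8, 12, 8, 1]]),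
([p 3 1, g, m 7 2, p 4 3, g, p 5 4, s 0 0, g, p 6 5, g, p 0 6, g, s 0 7, g, m 2 0, g, s 1 0, g], .hi 6, [.l [7, 10, 9, 15, 12, 6, 11, 1, 10, 2, 3, 5, 3], .l [1, 5, 3, 5, 7, 6, 6, 4, 7], .l [2, 7, 9, 8, 8, 6, 9], .l [4, 16, 13, 14, 12, 2, 10], .l [4, 16, 13, 4, 13, 1, 12, 2, 3], .l [5, 7, 4], .y [6], .l [7, 10, 7, 14, 11, 4, 11, 1, 10, 2, 3, 5, 3], .l [5, 10, 9, 15, 12, 6, 11, 1, 10, 4, 1], .l [8, 1, 9, 6, 6, 4, 9], .l [5, 8, 7, 15, 12, 4, 11, 1, 10, 2, 3, 5, 3], .l [5, 8, 7, 15, 12, 4, 11, 1, 10, 2, 3], .l [10, 3, 4, 2, 9, 6, 6, 4, 7], .l [5, 8, 7, 13, 10, 4, 9, 1, 8, 2, 3], .l [4, 16, 13, 2, 13, 1, 3, 7, 10, 0, 7, 7, 5], .l [5, 8, 7, 15, 12, 4, 11, 1, 10, 2, 5], .l [18, 17, 17, 14, 8, 5, 6, 4, 4, 2, 9, 2, 6, 4,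 1], .l [5, 8, 7, 13, 10, 4, 9, 1, 8, 2, 5], .l [2, 11, 6, 7, 6, 10, 4, 0, 5, 5, 3, 7, 5], .l [12, 9, 11, 10, 10, 8, 9], .l [5, 8, 7, 15, 12, 4, 11, 3, 10, 2, 7], .l [4, 8, 5, 11, 4, 7, 11, 4, 0, 6, 3, 5, 3], .l [5, 8, 7, 13, 10, 4, 9, 1, 8, 2, 7], .l [3, 5, 4, 10, 14, 8, 1], .l [16, 15, 15, 12, 13, 2, 13, 2, 10, 1], .l [5, 8, 7, 13, 10, 4, 9, 1, 8, 2, 9], .l [3, 5, 4, 10, 16, 10, 1]]),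
([p 3 1, g, m 6 2, p 4 3, g, p 5 4, s 0 0, g, p 0 5, g, s 0 6, g, m 2 0, g, s 1 0, g], .lo 8, [.l [1, 5, 3, 7, 7, 4, 4, 2, 5], .l [2, 9], .l [0, 15, 13, 7, 7, 4, 4, 2, 5], .l [4, 14, 11, 4, 11, 1, 10, 2, 5], .l [5, 9], .l [0, 15, 10, 4, 11, 2, 8, 6, 1], .l [5, 8, 7, 11, 8, 4, 7, 1, 6, 2, 1], .l [7, 10, 7, 12, 9, 4, 9, 1, 8, 2, 1], .l [8, 9], .l [0, 15, 7, 1, 11, 5, 2, 7, 4, 7, 1, 6, 1], .l [7, 8, 5, 12, 9, 2, 9, 1, 8, 0, 3], .r 1442 [1, 2, 3, 4, 5, 7, 6] [1, 1, 1, 1, 1, 1, 1, 1], .l [0, 15, 7, 1, 11, 5, 9, 6, 6, 4, 1], .l [7, 8, 5, 12, 9, 2, 9, 3, 8, 0, 5], .l [7, 8, 5, 12, 9, 2, 9, 3, 8, 0, 5], .l [0, 15, 7, 3, 11, 5, 7, 4, 4, 2, 5], .l [0, 13, 5, 3, 9, 5, 5, 2, 2, 0, 3], .l [7, 8, 5, 10, 7, 2, 7, 1, 6, 0, 5],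 .l [2, 9, 13, 11, 11, 8, 11, 8, 9, 0, 2], .l [4, 5, 3, 8, 1, 10, 6, 0, 7], .y [0, 14, 8, 5, 3], .l [7, 8, 5, 10, 7, 2, 7, 1, 6, 0, 7], .l [0, 13, 15, 9, 9, 6, 6, 4, 7], .l [4, 5, 3, 8, 1, 12, 8, 0, 9]]),
([p 3 1, g, m 5 2, p 4 3, g, p 0 4, s 0 0, g, s 0 5, g, m 2 0, g, s 1 0, g], .lo 5, [.l [1, 5, 3, 4, 4, 2, 5], .l [2, 6], .l [0, 13, 11, 4, 4, 2, 5], .l [4, 12, 9, 4, 9, 1, 8, 2, 1], .l [5, 6], .l [4, 7, 5, 5, 2, 1], .l [4, 10, 7, 2, 7, 1, 6, 0, 1], .l [4, 12, 9, 2, 9, 1, 8, 0, 3], .r 1443 [1, 2, 3, 4, 6, 5] [1, 1, 1, 1, 1, 1, 1], .l [0, 13, 8, 2, 9, 2, 6, 4, 1], .l [4, 12, 9, 2, 9, 3, 8, 0, 5], .l [4, 12, 9, 2, 9, 3, 8, 0, 5], .l [0, 13, 8, 4, 9, 2, 4, 2, 5], .l [0, 11, 6, 4, 7, 2, 2, 0, 3], .l [4, 10, 7, 2, 7,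 1, 6, 0, 5], .l [2, 7, 11, 8, 11, 8, 9, 0, 2], .l [2, 7, 2, 9, 6, 0, 6], .y [0, 12, 5, 3], .l [4, 10, 7, 2, 7, 1, 6, 0, 7], .l [0, 11, 13, 6, 6, 4, 7], .l [2, 7, 2, 11, 8, 0, 8]]),
([p 1 0, g, p 3 0, g, m 5 0, p 2 1, g, p 4 2, s 0 3, g, s 0 4, g, s 0 5, g], .lo 8, [.l [12, 7, 11, 10, 10, 8, 7], .l [8, 10, 5, 12, 4, 6, 8, 2, 0, 1], .l [14, 7, 13, 12, 12, 10, 7], .l [3, 7, 3, 7, 7, 4, 6, 4, 7], .y [2, 8], .l [8, 10, 5, 12, 4, 6, 8, 2, 0, 1], .l [14, 7, 13, 12, 12, 10, 5], .l [3, 7, 3, 7, 7, 4, 6, 4, 7], .l [3, 5, 1, 5, 5, 2, 4, 2, 5], .l [7, 9, 6], .l [7, 9, 6], .l [1, 5, 3, 7, 7, 4, 6, 4, 7], .l [9, 12, 9, 10, 5, 8, 6, 2, 4, 5], .l [6, 8, 3, 6, 4, 7, 3, 6, 3], .l [14, 9, 13, 12, 12, 10, 1], .l [6, 8, 3, 6, 4, 5,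 7, 2, 4, 5], .l [6, 8, 3, 6, 4, 5, 7, 2, 4], .l [14, 9, 13, 12, 12, 10, 3], .l [6, 8, 3, 6, 4, 5, 9, 4, 6, 3], .l [1, 12, 7, 0, 9, 5, 10, 4, 1], .l [12, 7, 11, 10, 10, 8, 9]]),
([p 2 1, g, p 4 0, g, m 5 0, p 3 2, g, p 0 3, s 0 4, g, s 0 5, g, s 1 0, g], .lo 7, [.l [1, 7, 5, 6, 6, 4, 7], .l [2, 8], .l [0, 13, 11, 6, 6, 4, 7], .l [2, 6], .l [3, 7, 3, 6, 6, 2, 7], .l [4, 8], .l [0, 13, 9, 4, 4, 2, 5], .l [0, 11, 7, 2, 2, 0, 3], .l [4, 11, 4, 1, 11, 5, 6, 0, 6, 1], .l [7, 8], .l [4, 11, 4, 1, 4, 2, 5], .r 1445 [2, 3, 4, 6, 5] [1, 1, 1, 1, 1, 3], .l [1, 5, 3, 5, 7, 6, 6, 4, 5], .l [6, 7, 5, 5, 0, 7], .l [4, 9, 2, 9, 6, 0, 6], .l [1, 5, 3, 5, 9, 8, 8, 6, 3], .l [4, 9, 2, 9, 6, 0, 6], .y [0, 12, 7, 5], .l [4, 9, 2, 11,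 8, 0, 8], .l [0, 11, 13, 8, 8, 6, 9], .l [4, 9, 2, 11, 8, 0, 8]]),
([p 2 1, g, m 5 0, p 4 2, g, m 0 3, g, p 0 4, s 0 0, g, s 3 0, g, s 0 5, g, s 1 0, g], .hi 8, [.l [0, 15, 8, 4, 6, 7, 2, 7], .r 1446 [1, 2, 4, 6, 5] [1, 1, 3, 3, 1, 1], .l [14, 9, 13, 12, 12, 8, 5], .l [5, 9, 6], .l [3, 9, 8, 12, 8, 4, 7], .l [5, 9, 6], .l [5, 7, 4], .l [7, 9, 4], .l [3, 9, 8, 12, 6, 2, 7], .l [7, 9, 4], .l [3, 7, 6, 10, 4, 0, 5], .y [8], .l [0, 15, 10, 6, 8, 9, 4, 1], .l [14, 11, 13, 12, 12, 8, 1], .r 1440 [1, 2, 4, 6, 5] [1, 3, 1, 3, 1, 1], .l [0, 15, 10, 4, 8, 9, 2, 5], .l [14, 11, 13, 12, 12, 8, 3], .r 1440 [1, 2, 4, 6, 5] [1, 3, 3, 1, 1, 1], .l [12, 9, 11, 10, 10, 6, 3], .l [0, 15, 10, 4, 6, 9, 4, 1], .l [12, 9, 11, 10, 10,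 6, 9], .l [3, 7, 6, 10, 12, 8, 3], .l [0, 13, 8, 4, 6, 7, 2, 9], .l [12, 9, 11, 10, 10, 6, 11], .l [3, 7, 6, 10, 14, 10, 3]]),
([p 3 1, g, m 5 2, p 4 3, g, m 2 0, g, p 0 4, s 0 0, g, s 0 5, g, s 1 0, g], .hi 5, [.l [1, 5, 3, 4, 6, 4, 7], .l [0, 13, 11, 4, 6, 4, 7], .l [2, 6], .l [6, 7, 2, 3, 1, 2, 4, 2, 5], .l [2, 11, 6, 1, 1, 7, 2, 0, 2], .l [5, 6], .l [4, 5, 2, 3, 1, 2, 4, 2, 5], .l [4, 5, 2, 3, 1, 2], .r 1433 [1, 2, 3, 6, 4, 5] [1, 1, 1, 1, 2, 1, 1], .l [4, 5, 2, 3, 1, 2], .l [2, 9, 4, 0, 7, 2, 0, 2, 3], .r 1447 [1, 3, 6, 4, 5] [1, 1, 1, 1, 1, 1, 1], .l [4, 5, 2, 3, 1, 5], .l [4, 7, 5, 10, 8, 10, 1, 7, 1, 6, 1], .y [2, 5, 10], .l [2, 9, 4, 9, 4, 0, 4], .l [2, 9, 4, 9, 4, 0, 4], .l [2, 9, 11, 6, 11, 8, 9, 0,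 2], .l [2, 9, 4, 11, 6, 0, 6], .l [2, 9, 4, 11, 6, 0, 6], .l [0, 11, 13, 6, 8, 6, 9]]),
([p 3 1, g, m 6 2, p 4 3, g, p 5 4, s 0 0, g, s 0 5, g, s 0 6, g, s 2 0, g, s 1 0, g], .hi 6, [.l [0, 15, 8, 2, 4, 7, 4, 7], .l [6, 14, 11, 1, 3, 9, 1, 8, 0, 3], .l [12, 7, 11, 10, 10, 8, 5], .l [5, 7, 4], .l [3, 7, 6, 10, 6, 2, 5], .l [5, 7, 4], .y [6], .l [0, 15, 10, 4, 6, 9, 6, 1], .l [12, 9, 11, 10, 10, 8, 1], .r 1440 [1, 3, 4, 7, 6] [1, 1, 1, 3, 3, 1], .l [4, 12, 9, 10, 8, 2, 2, 0, 4, 1], .l [0, 15, 10, 2, 6, 9, 4, 5], .l [12, 9, 11, 10, 10, 8, 3], .l [4, 14, 11, 12, 10, 2, 4, 2, 6, 1], .l [10, 7, 9, 8, 8, 6, 3], .l [0, 15, 10, 2, 4, 9, 6, 1], .l [10, 7, 9, 8, 8, 6, 7], .l [3, 5, 4, 8, 10, 6, 1], .l [0, 15, 10, 2, 4, 9,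 6, 3], .l [10, 7, 9, 8, 8, 6, 9], .l [3, 5, 4, 8, 12, 8, 1], .l [0, 13, 8, 2, 4, 7, 4, 9], .l [10, 7, 9, 8, 8, 6, 11], .l [3, 5, 4, 8, 14, 10, 1]]),
([p 2 1, g, m 5 0, p 4 2, g, s 0 3, g, p 3 4, s 0 0, g, s 0 5, g, s 1 0, g], .hi 8, [.l [4, 11, 4, 1, 11, 5, 6, 0, 6, 1], .l [4, 11, 4, 1, 11, 5, 6, 0, 6, 1], .l [12, 7, 11, 10, 10, 6, 3], .l [5, 9, 6], .l [3, 9, 8, 10, 6, 4, 5], .l [5, 9, 6], .l [5, 7, 4], .l [7, 9, 4], .l [3, 9, 8, 10, 4, 2, 5], .l [7, 9, 4], .y [8], .l [2, 11, 6, 1, 11, 3, 4, 0, 6, 1], .l [12, 9, 11, 10, 10, 6, 1], .r 1440 [1, 2, 4, 6, 5] [1, 3, 1, 1, 1, 1], .l [10, 7, 9, 8, 8, 4, 1], .l [2, 9, 4, 1, 11, 5, 6, 0, 6, 3], .l [10, 7, 9, 8, 8, 4, 7], .l [3, 7, 6, 8, 10, 8, 3], .l [2, 9, 4, 1, 9, 3,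 4, 0, 4, 5], .l [10, 7, 9, 8, 8, 4, 9], .l [3, 7, 6, 8, 12, 10, 3]]),
([p 2 0, g, m 6 1, p 3 2, g, p 5 3, s 0 4, g, p 0 5, g, s 0 6, g, s 4 0, g, s 1 0, g], .lo 6, [.l [0, 5, 7, 6, 6, 4, 5], .l [3, 8, 12, 9, 1, 11, 4, 9, 6, 3], .l [2, 7, 9, 8, 8, 6, 7], .l [1, 5, 3, 5, 7, 6, 6, 4, 5], .l [5, 7, 4], .l [5, 7, 4], .l [3, 7, 6, 10, 6, 2, 5], .l [7, 10, 7, 14, 11, 12, 10, 2, 8, 3], .l [8, 1, 9, 6, 6, 4, 7], .l [12, 9, 11, 10, 10, 8, 1], .l [1, 6, 12, 9, 1, 11, 4, 9, 6, 1], .l [1, 6, 12, 9, 1, 11, 4, 9, 6, 1], .l [12, 9, 11, 10, 10, 8, 3], .l [1, 6, 10, 7, 1, 11, 6, 9, 6, 1], .l [3, 5, 4, 8, 10, 6, 1], .l [10, 7, 9, 8, 8, 6, 7], .y [6, 12], .l [1, 6, 12, 9, 1, 11, 6, 9, 4, 5], .l [3, 5, 4, 8, 12, 8, 1], .l [10, 7, 9,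 8, 8, 6, 9], .l [4, 12, 5, 12, 6, 3, 6, 1, 4, 2, 0, 3], .l [1, 6, 14, 11, 1, 8, 1, 9, 2, 5], .l [3, 5, 4, 8, 14, 10, 1], .l [10, 7, 9, 8, 8, 6, 11]]),
([p 3 1, g, m 7 2, p 4 3, g, p 6 4, s 0 5, g, p 0 6, g, s 5 0, g, s 0 7, g, s 2 0, g, s 1 0, g], .lo 6, [.l [8, 5, 7, 4, 5, 11, 1, 9, 2, 5], .l [2, 7, 9, 8, 8, 6, 9], .l [1, 5, 3, 5, 7, 6, 6, 4, 7], .l [5, 7, 4], .l [5, 7, 4], .l [3, 7, 6, 12, 8, 2, 7], .l [7, 10, 7, 14, 11, 12, 10, 2, 8, 1], .l [8, 1, 9, 6, 6, 4, 9], .l [14, 11, 13, 12, 12, 10, 1], .l [6, 9, 3, 15, 8, 11, 6, 4, 8, 1], .l [4, 10, 3, 10, 6, 3, 3, 0, 5], .l [14, 11, 13, 12, 12, 10, 3], .y [6, 10], .l [6, 11, 5, 15, 6, 11, 8, 4, 8, 1], .l [4, 10, 3, 10, 6, 3, 3, 0, 5], .l [14, 11, 13, 12, 12, 10, 5],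 .l [1, 6, 12, 9, 1, 11, 4, 9, 6, 1], .l [3, 5, 4, 10, 12, 6, 1], .l [12, 9, 11, 10, 10, 8, 9], .l [6, 13, 7, 13, 2, 9, 6, 9, 2, 6, 3, 4, 4, 1], .l [1, 6, 14, 11, 1, 8, 3, 9, 2, 5], .l [3, 5, 4, 10, 14, 8, 1], .l [12, 9, 11, 10, 10, 8, 11], .l [16, 15, 15, 12, 12, 10, 9], .l [1, 6, 16, 13, 1, 8, 3, 11, 4, 7], .l [3, 5, 4, 10, 16, 10, 1], .l [12, 9, 11, 10, 10, 8, 13]]),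
([p 3 1, g, m 7 2, p 4 3, g, p 6 4, s 0 5, g, p 0 6, g, s 0 7, g, s 2 0, g, s 5 0, g, s 1 0, g], .lo 6, [.l [1, 16, 7, 11, 5, 2, 7, 4, 8, 2, 6, 1], .l [2, 7, 9, 8, 8, 6, 7], .l [1, 5, 3, 5, 7, 6, 6, 4, 5], .l [5, 7, 4], .l [5, 7, 4], .l [3, 7, 6, 10, 6, 2, 5], .l [7, 10, 7, 12, 9, 10, 8, 2, 6, 1], .l [8, 1, 9, 6, 6, 4, 7], .l [12, 9, 11, 10, 10, 8, 1], .l [1, 6, 14, 11, 1, 8, 3, 9, 2, 5], .l [4, 10, 3, 14, 10, 3, 3, 0, 9], .l [12, 9, 11, 10, 10, 8, 3], .l [1, 6, 10, 7, 1, 9, 4, 7, 4, 7], .l [3, 5, 4, 8, 10, 6, 1], .l [10, 7, 9, 8, 8, 6, 7], .l [6, 11, 5, 13, 4, 9, 4, 9, 2, 6, 3, 4, 4, 1], .l [18, 17, 17, 14, 2, 8, 3, 11, 4, 1], .l [3, 5, 4, 8, 12, 8, 1], .l [10, 7, 9, 8, 8, 6, 9], .y [6, 14], .l [18, 17, 17, 14,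 2, 10, 5, 11, 2, 5], .l [3, 5, 4, 8, 14, 10, 1], .l [10, 7, 9, 8, 8, 6, 11], .l [16, 15, 15, 12, 12, 10, 9], .l [16, 15, 15, 12, 2, 13, 4, 11, 8, 3], .l [3, 5, 4, 8, 16, 12, 1], .l [10, 7, 9, 8, 8, 6, 13]]),
([p 3 1, g, m 6 2, p 4 3, g, p 5 4, s 0 0, g, p 0 5, g, s 0 6, g, s 2 0, g, s 1 0, g], .hi 6, [.l [16, 15, 15, 10, 11, 2, 11, 2, 8, 1], .l [1, 5, 3, 5, 7, 6, 6, 4, 5], .l [2, 7, 9, 8, 8, 6, 7], .l [5, 7, 4], .l [3, 7, 6, 10, 6, 2, 5], .l [5, 7, 4], .y [6], .l [7, 10, 7, 12, 9, 10, 8, 2, 6, 1], .l [12, 9, 11, 10, 10, 8, 1], .l [8, 1, 9, 6, 6, 4, 7], .l [10, 7, 9, 8, 8, 6, 1], .r 1452 [1, 2, 3, 4, 7, 5, 6] [1, 1, 1, 1, 1, 1, 1, 1], .l [12, 9, 11, 10, 10, 8, 3], .r 1440 [1, 3, 4, 7, 6] [1, 1, 3, 1, 3, 1], .l [10,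 7, 9, 8, 8, 6, 3], .r 1451 [2, 3, 4, 7, 5, 6] [1, 1, 1, 1, 1, 1, 3], .l [10, 7, 9, 8, 8, 6, 7], .l [3, 5, 4, 8, 10, 6, 1], .r 1453 [1, 2, 3, 4, 7, 5, 6] [1, 1, 1, 1, 1, 1, 1, 1], .l [10, 7, 9, 8, 8, 6, 9], .l [3, 5, 4, 8, 12, 8, 1], .l [14, 13, 13, 10, 11, 2, 11, 2, 8, 1], .l [10, 7, 9, 8, 8, 6, 11], .l [3, 5, 4, 8, 14, 10, 1]]),
([p 3 1, g, m 5 2, p 4 3, g, p 0 4, s 0 0, g, s 0 5, g, s 2 0, g, s 1 0, g], .lo 5, [.l [1, 5, 3, 4, 4, 2, 5], .l [2, 6], .l [0, 13, 11, 4, 4, 2, 5], .r 1450 [1, 3, 6, 4, 5] [1, 1, 1, 1, 3, 1], .l [5, 6], .l [4, 7, 5, 5, 2, 1], .l [3, 5, 4, 6, 2, 0, 1], .r 1449 [1, 2, 3, 4, 6, 5] [1, 1, 1, 1, 1, 1, 1], .r 1454 [1, 2, 3, 4, 6, 5] [1, 1, 1, 1, 1, 1, 1], .l [4, 5, 3, 3, 0, 5], .l [2, 7, 2,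 7, 4, 0, 4], .l [2, 7, 9, 6, 11, 8, 9, 0, 4], .l [2, 7, 2, 7, 4, 0, 4], .l [1, 3, 1, 7, 7, 2, 2, 0, 3], .l [2, 7, 2, 9, 6, 0, 6], .l [1, 3, 1, 7, 9, 4, 4, 2, 5], .l [2, 7, 2, 9, 6, 0, 6], .y [0, 12, 5, 3], .l [2, 7, 2, 11, 8, 0, 8], .l [0, 11, 13, 6, 6, 4, 7], .l [2, 7, 2, 11, 8, 0, 8]]),
([p 2 0, g, m 5 1, p 3 2, g, p 4 3, s 1 0, g, s 0 4, g, s 0 5, g], .hi 6, [.l [6, 8, 5, 10, 4, 4, 6, 2, 0, 1], .l [3, 5, 1, 5, 5, 2, 4, 2, 5], .l [12, 7, 11, 10, 10, 8, 5], .l [5, 7, 4], .l [1, 3, 1, 5, 5, 2, 4, 2, 5], .l [5, 7, 4], .l [7, 10, 7, 8, 5, 6, 4, 2, 2, 3], .l [12, 9, 11, 10, 10, 8, 1], .l [4, 6, 3, 4, 2, 5, 3, 4, 1], .l [4, 6, 3, 4, 2, 3, 3, 0, 0], .l [4, 6, 3, 4, 2, 3, 5, 2, 2, 3], .l [12, 9, 11, 10, 10, 8, 3], .l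 [4, 6, 3, 4, 2, 3, 5, 2, 2], .y [2, 6, 10], .l [4, 6, 3, 4, 2, 3, 7, 4, 4, 1], .l [10, 7, 9, 8, 8, 6, 7], .l [1, 10, 7, 0, 7, 3, 8, 4, 1]]),
([p 3 1, g, m 5 2, p 4 3, g, p 0 4, s 2 0, g, s 0 5, g, s 1 0, g], .lo 5, [.l [1, 5, 3, 4, 4, 2, 5], .l [2, 6], .l [0, 11, 9, 4, 4, 2, 5], .l [2, 9, 4, 1, 9, 3, 4, 0, 4, 1], .l [5, 6], .l [2, 9, 4, 1, 4, 2, 5], .l [1, 3, 1, 3, 3, 2, 2, 0, 1], .r 1456 [2, 3, 4, 6, 5] [1, 1, 1, 1, 3], .l [1, 3, 1, 3, 5, 4, 4, 2, 3], .l [4, 5, 3, 3, 0, 5], .l [2, 7, 2, 7, 4, 0, 4], .l [1, 3, 1, 3, 7, 6, 6, 4, 1], .l [2, 7, 2, 7, 4, 0, 4], .y [0, 10, 5, 3], .l [2, 7, 2, 9, 6, 0, 6], .l [0, 9, 11, 6, 6, 4, 7], .l [2, 7, 2, 9, 6, 0, 6]]),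
([p 3 1, g, m 5 2, p 4 3, g, p 0 4, s 0 0, g, s 0 5, g, s 1 0, g, s 2 0, g], .hi 6, [.l [12, 11, 11, 6, 11, 3, 6, 2, 6, 1], .r 1446 [1, 3, 4, 6, 5] [1, 1, 1, 1, 1, 3], .l [10, 5, 9, 8, 8, 6, 3], .l [5, 7, 4], .l [3, 7, 6, 8, 4, 2, 3], .l [5, 7, 4], .l [3, 5, 4, 6, 2, 0, 1], .y [6], .l [12, 11, 11, 8, 11, 1, 4, 2, 6, 1], .l [10, 7, 9, 8, 8, 6, 1], .r 1440 [1, 3, 4, 6, 5] [1, 1, 1, 1, 1, 3], .l [8, 5, 7, 6, 6, 4, 1], .l [12, 11, 11, 8, 11, 1, 6, 4, 6, 3], .l [8, 5, 7, 6, 6, 4, 5], .l [3, 5, 4, 6, 8, 6, 1], .l [10, 9, 9, 6, 11, 3, 6, 2, 6, 1], .l [8, 5, 7, 6, 6, 4, 7], .l [3, 5, 4, 6, 10, 8, 1], .l [10, 9, 9, 6, 9, 1, 4, 2, 4, 5], .l [8, 5, 7, 6, 6, 4, 9], .l [3, 5, 4, 6, 12, 10, 1]]),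
([p 2 1, g, m 4 0, p 3 2, g, p 0 3, s 0 0, g, s 0 4, g, s 1 0, g], .hi 2, [.l [3, 5, 1, 2, 4, 2, 5], .l [1, 5, 3, 1], .l [2, 3], .l [1, 3, 1, 2, 4, 2, 5], .l [0, 11, 9, 2, 4, 2, 5], .r 1448 [1, 5, 2, 3, 4] [1, 1, 1, 1, 1, 1], .l [0, 9, 7, 2, 2, 0, 3], .r 1457 [1, 5, 2, 3, 4] [1, 1, 1, 1, 1], .r 1441 [1, 5, 2, 3, 4] [1, 1, 1, 1, 1, 1], .l [1, 3, 1, 5], .l [12, 11, 11, 8, 9, 4, 1, 2, 4], .y [2, 8], .r 1455 [1, 5, 2, 3, 4] [1, 1, 1, 1, 1, 1], .l [1, 3, 1, 7], .r 1444 [1, 5, 2, 3, 4] [1, 1, 1, 1, 1, 1], .r 1458 [1, 5, 2, 3, 4] [1, 1, 1, 1, 1, 1], .l [1, 3, 1, 9], .l [10, 9, 9, 6, 9, 1, 4, 2, 4]]),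
([p 4 1, g, m 0 2, g, m 2 3, p 8 4, g, m 3 5, g, m 5 6, g, m 6 7, g, m 7 0, g, p 0 8, g, s 1 0, g], .hi 13, [.l [14, 15, 13, 13, 11, 11, 9, 9, 6, 7, 1, 2, 6, 4, 1], .l [0, 18, 16, 12, 12, 10, 10, 8, 8, 6, 6, 3, 4, 6, 5, 1, 3, 3], .l [2, 14], .y [2, 4, 7, 9, 11, 13], .l [3, 7, 3, 12, 12, 10, 10, 8, 8, 6, 8, 4, 5], .l [0, 18, 14, 10, 10, 8, 8, 6, 6, 4, 6, 4, 2, 1, 5, 3, 1, 3], .l [4, 14], .l [6, 9, 6, 7, 3, 10, 10, 8, 8, 6, 8, 4, 5], .l [0, 18, 11, 7, 7, 5, 5, 3, 7, 1, 7, 1, 3, 1, 5, 3, 1, 3], .l [7, 14], .l [8, 11, 9, 9, 6, 7, 3, 8, 8, 6, 8, 4, 5], .l [0, 18, 9, 5, 5, 3, 9, 3, 7, 5, 7, 1, 3, 1, 5, 3, 1, 3], .l [9, 14], .l [10, 13, 11, 11, 9, 9, 6, 7, 3, 6, 8, 4, 5], .l [0, 18, 7, 3, 11, 5, 9, 7, 7, 5, 7, 1, 3, 1,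 5, 3, 1, 3], .l [11, 14], .l [14, 15, 11, 11, 9, 9, 7, 7, 4, 5, 1, 4, 6, 2, 3], .l [10, 11, 9, 15, 11, 5, 12, 5, 1, 1, 8, 5], .l [13, 14], .l [12, 13, 11, 11, 9, 9, 7, 7, 4, 5, 1, 4, 6, 2, 3], .l [10, 17, 11, 5, 14, 7, 1, 7, 1, 5, 8, 5], .l [19, 18, 18, 13, 14, 12, 12, 10, 10, 8, 8, 6, 6, 4, 4, 5, 4, 1], .l [10, 15, 9, 5, 12, 5, 1, 5, 1, 3, 6, 5], .l [12, 13, 11, 11, 9, 9, 7, 7, 4, 5, 1, 6, 3, 4, 1], .l [8, 15, 11, 5, 12, 3, 12, 8, 6, 7], .l [13, 17, 16, 16, 14, 14, 12, 12, 10, 10, 7, 8, 4, 1, 2, 3], .l [12, 13, 11, 11, 9, 9, 7, 7, 4, 5, 1, 8, 5, 6, 3], .l [8, 15, 11, 5, 12, 3, 14, 10, 6, 9], .l [13, 19, 18, 18, 16, 16, 14, 14, 12, 12, 9, 10, 6, 1, 4, 5]]),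
([p 4 1, g, m 0 2, g, m 2 3, p 7 4, g, m 3 5, g, m 5 6, g, m 6 0, g, p 0 7, g, s 1 0, g], .hi 11, [.l [12, 13, 11, 11, 9, 9, 6, 7, 1, 2, 6, 4, 1], .l [1, 7, 5, 10], .l [2, 12], .y [2, 4, 7, 9, 11], .l [3, 7, 3, 10, 10, 8, 8, 6, 8, 4, 5], .l [3, 6, 4, 6, 4, 9], .l [4, 12], .l [6, 9, 6, 7, 3, 8, 8, 6, 8, 4, 5], .l [6, 9, 6, 6, 4, 6, 4, 7], .l [7, 12], .l [8, 11, 9, 9, 6, 7, 3, 6, 8, 4, 5], .l [8, 11, 9, 9, 6, 6, 4, 6, 4, 5], .l [9, 12], .l [12, 13, 9, 9, 7, 7, 4, 5, 1, 4, 6, 2, 3], .l [8, 15, 11, 5, 12, 5, 1, 1, 8, 5], .l [11, 12], .l [10, 11, 9, 9, 7, 7, 4, 5, 1, 4, 6, 2, 3], .l [10, 11, 9, 9, 7, 7, 4, 4, 2, 4, 2, 3], .r 1460 [1, 2, 3, 4, 5, 6, 8, 7] [1, 1, 1, 1, 1, 1, 1, 1, 1], .l [10, 11, 9, 9, 7, 7, 4, 4, 2,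 4, 2, 3], .l [10, 11, 9, 9, 7, 7, 4, 5, 1, 6, 3, 4, 1], .l [10, 11, 9, 9, 7, 7, 4, 4, 2, 4, 2, 5], .l [11, 15, 14, 14, 12, 12, 10, 10, 7, 8, 4, 1, 2, 3], .l [10, 11, 9, 9, 7, 7, 4, 5, 1, 8, 5, 6, 3], .l [10, 11, 9, 9, 7, 7, 4, 4, 2, 4, 2, 7], .l [11, 17, 16, 16, 14, 14, 12, 12, 9, 10, 6, 1, 4, 5]]),
([p 4 1, g, m 0 2, g, m 2 3, p 6 4, g, m 3 5, g, m 5 0, g, p 0 6, g, s 1 0, g], .hi 9, [.l [10, 11, 9, 9, 6, 7, 1, 2, 6, 4, 1], .l [1, 7, 5, 8], .l [2, 10], .y [2, 4, 7, 9], .l [3, 7, 3, 8, 8, 6, 8, 4, 5], .l [3, 6, 4, 6, 4, 7], .l [4, 10], .l [6, 9, 6, 7, 3, 6, 8, 4, 5], .l [6, 9, 6, 6, 4, 6, 4, 5], .l [7, 10], .l [10, 11, 7, 7, 4, 5, 1, 4, 6, 2, 3], .l [8, 11, 9, 9, 6, 6, 4, 6, 4, 1], .l [9, 10], .l [8, 9, 7, 7, 4,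 5, 1, 4, 6, 2, 3], .l [8, 9, 7, 7, 4, 4, 2, 4, 2, 3], .r 1461 [1, 2, 3, 4, 5, 7, 6] [1, 1, 1, 1, 1, 1, 1, 1], .l [8, 9, 7, 7, 4, 4, 2, 4, 2, 3], .l [8, 9, 7, 7, 4, 5, 1, 6, 3, 4, 1], .l [8, 9, 7, 7, 4, 4, 2, 4, 2, 5], .l [9, 13, 12, 12, 10, 10, 7, 8, 4, 1, 2, 3], .l [8, 9, 7, 7, 4, 5, 1, 8, 5, 6, 3], .l [8, 9, 7, 7, 4, 4, 2, 4, 2, 7], .l [9, 15, 14, 14, 12, 12, 9, 10, 6, 1, 4, 5]]),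
([p 4 1, g, m 0 2, g, m 2 3, p 5 4, g, m 3 0, g, p 0 5, g, s 1 0, g], .hi 7, [.l [8, 9, 6, 7, 1, 2, 6, 4, 1], .l [1, 7, 5, 6], .l [2, 8], .y [2, 4, 7], .l [3, 7, 3, 6, 8, 4, 5], .l [3, 6, 4, 6, 4, 5], .l [4, 8], .l [8, 9, 4, 5, 1, 4, 6, 2, 3], .l [6, 9, 6, 6, 4, 6, 4, 1], .l [7, 8], .l [6, 7, 4, 5, 1, 4, 6, 2, 3], .l [6, 7, 4, 4, 2, 4, 2, 3], .r 1462 [1, 2, 3, 4, 6, 5] [1, 1, 1, 1, 1, 1, 1], .l [6, 7, 4, 4, 2, 4, 2, 3], .l [6, 7, 4, 5, 1, 6, 3, 4, 1], .l [6, 7, 4, 4, 2, 4, 2, 5], .l [7, 11, 10, 10, 7, 8, 4, 1, 2, 3], .l [6, 7, 4, 5, 1, 8, 5, 6, 3], .l [6, 7, 4, 4, 2, 4, 2, 7], .l [7, 13, 12, 12, 9, 10, 6, 1, 4, 5]]),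
([p 3 1, g, m 0 2, g, m 2 0, p 4 3, g, p 0 4, g, s 1 0, g], .hi 4, [.l [5, 7, 1, 2, 6, 4, 1], .l [1, 7, 5, 3], .l [2, 5], .y [2, 4], .l [5, 7, 1, 4, 6, 2, 3], .l [3, 6, 4, 6, 4, 1], .l [4, 5], .l [3, 5, 1, 4, 6, 2, 3], .l [3, 4, 2, 4, 2, 3], .r 1463 [1, 2, 5, 3, 4] [1, 1, 1, 1, 1, 1], .l [3, 4, 2, 4, 2, 3], .l [3, 5, 1, 6, 3, 4, 1], .l [3, 4, 2, 4, 2, 5], .l [5, 9, 7, 8, 4, 1, 2, 3], .l [3, 5, 1, 8, 5, 6, 3], .l [3, 4, 2, 4, 2, 7], .l [5, 11, 9, 10, 6, 1, 4, 5]]),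
([p 2 1, s 0 0, g, m 6 0, p 4 2, g, m 0 3, g, p 0 4, m 3 5, g, m 5 0, g, s 0 6, g, s 1 0, g], .lo 6, [.l [6, 4, 5, 2, 5, 2, 8], .l [8, 4, 7, 4, 7, 2, 10], .l [8, 4], .l [7, 10, 8, 13, 8, 14, 3, 11, 1, 10, 7], .l [5, 8, 6, 11, 8, 12, 1, 9, 1, 8, 5], .l [8, 1, 9, 5, 12], .l [8, 1], .l [7, 17, 8, 10, 1, 14, 7, 12, 5, 1, 9, 4, 5], .l [8, 1, 9, 5, 12], .l [8, 1], .l [6, 7], .l [6, 10, 12, 10, 5], .l [11, 4], .l [6, 10], .y [6, 9, 11], .l [5, 8, 6, 13, 1, 7, 1, 6, 3], .l [13, 6], .l [6, 12], .l [6, 14, 8, 15, 1, 10, 10, 8, 6, 10, 1, 8, 3], .l [15, 8], .l [6, 14], .l [6, 14, 14, 5, 5, 1, 6, 4, 9], .l [5, 8, 6, 11, 13, 4, 13, 7, 1, 6, 3, 3, 1], .l [17, 10], .l [6, 16]]),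
([p 2 1, s 0 0, g, m 5 0, p 3 2, g, p 0 3, m 0 4, g, m 4 0, g, s 0 5, g, s 1 0, g], .lo 7, [.l [0, 7, 5, 2, 4, 6, 5, 2, 5], .l [0, 9, 5, 2, 6, 8, 5, 2, 7], .l [9, 5], .l [6, 9, 5, 8, 5, 10, 5, 7, 3], .l [4, 7, 5, 6, 3, 8, 5, 5, 1], .l [4, 9, 2, 12, 4, 9, 6], .l [9, 2], .r 1465 [1, 2, 6, 3, 4, 5] [1, 1, 1, 1, 1, 1, 1], .l [4, 9, 1, 10, 8, 5, 8], .l [9, 1], .l [7, 8], .y [7, 9], .l [0, 7, 10, 7, 3, 5, 7, 4, 7], .l [11, 3], .l [7, 10], .l [0, 7, 12, 9, 3, 5, 9, 6, 3], .l [13, 5], .l [7, 12], .l [0, 7, 12, 9, 3, 5, 9, 6, 3], .l [0, 7, 14, 11, 3, 5, 11, 8, 3], .l [15, 7], .l [7, 14]]),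
([p 2 1, s 4 0, g, m 5 0, p 3 2, g, p 0 3, g, s 1 0, g, s 0 4, g, s 0 5, g], .hi 1, [.l [3, 1, 5, 2, 7, 4, 6, 8, 6, 1], .l [2, 6, 3, 3, 6], .l [3, 1, 5, 2, 7, 4, 6, 8, 6, 1], .l [10, 9, 4, 6, 4, 9], .l [0, 4, 3, 4, 6, 4, 9], .l [6, 4, 5, 2, 5, 2, 8], .l [0, 4, 3, 4, 4, 2, 7], .l [0, 9, 1, 6, 2, 5, 6, 4, 2, 5], .l [10, 9, 6], .l [8, 6, 7, 4, 9, 5, 2, 8, 6, 3], .l [10, 8, 9, 6, 3, 4, 6, 8, 6, 1], .l [8, 7, 8], .l [10, 8, 9, 6, 3, 4, 6, 8, 6, 1], .y [1, 10], .l [10, 8, 9, 6, 3, 4, 6, 8, 6, 1], .l [8, 7, 10], .l [10, 8, 9, 6, 9, 3, 4, 8, 4, 1], .l [10, 8, 9, 6, 3, 4, 6, 6, 4, 1], .l [14, 12, 13, 10, 3, 8, 3, 1, 6, 1], .l [8, 7, 12], .l [14, 12, 13, 10, 3, 8, 3, 1, 6, 1]]),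
([p 2 1, s 5 0, g, m 4 0, p 3 2, g, p 0 3, g, s 1 0, g, s 0 4, g, p 0 5, g], .hi 1, [.l [14, 12, 13, 8, 3, 6, 8, 6, 4, 1], .l [2, 6, 3, 3, 6], .l [3, 1, 13, 11, 6], .l [1, 5, 7, 5, 8, 10, 4, 7], .l [0, 4, 3, 4, 6, 4, 7], .l [6, 4, 5, 2, 5, 2, 6], .l [0, 4, 3, 4, 4, 2, 5], .l [8, 6, 7, 4, 11, 7, 2, 4, 2, 5], .l [10, 9, 6], .l [8, 6, 7, 4, 4, 2, 10, 8, 3], .l [14, 12, 13, 10, 3, 8, 3, 1, 6, 1], .l [8, 7, 8], .l [10, 8, 9, 6, 6, 4, 10, 6, 7], .l [12, 10, 11, 8, 3, 6, 1, 1, 4, 1], .l [14, 12, 13, 10, 3, 8, 1, 3, 6, 1], .l [8, 7, 10], .l [12, 10, 11, 8, 8, 6, 10, 4, 7], .y [1, 12], .l [12, 10, 11, 8, 3, 6, 8, 6, 4, 1], .l [8, 7, 12], .l [12, 10, 11, 8, 8, 6, 10, 4, 7]]),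
([p 2 1, s 5 0, g, m 4 0, p 3 2, g, p 0 3, g, s 1 0, g, s 0 4, g, s 0 5, g], .hi 1, [.l [10, 9, 1, 8, 3, 6, 8, 1, 4, 1], .l [2, 6, 3, 3, 6], .l [14, 12, 13, 8, 3, 6, 8, 6, 4, 1], .l [10, 9, 4, 6, 4, 7], .l [0, 4, 3, 4, 6, 4, 7], .l [6, 4, 5, 2, 5, 2, 6], .l [0, 4, 3, 4, 4, 2, 5], .l [0, 9, 1, 6, 2, 5, 8, 6, 2, 3], .l [10, 9, 6], .l [8, 6, 7, 4, 11, 7, 2, 4, 2, 5], .l [14, 12, 13, 10, 3, 8, 3, 1, 6, 1], .l [8, 7, 8], .l [14, 12, 13, 10, 3, 8, 3, 1, 6, 1], .l [12, 10, 11, 8, 3, 6, 1, 1, 4, 1], .l [12, 10, 11, 8, 3, 6, 8, 6, 4, 1], .l [8, 7, 10], .l [12, 10, 11, 8, 3, 6, 8, 6, 4, 1], .y [1, 12], .l [12, 10, 11, 8, 3, 6, 8, 6, 4, 1], .l [8, 7, 12], .l [14, 12, 13, 10, 3, 8, 1, 3, 6, 1]]),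
([p 5 1, s 3 2, g, p 4 3, g, p 0 4, g, m 7 0, p 6 5, g, p 0 6, g, s 2 0, g, s 1 0, g, s 0 7, g], .lo 5, [.l [6, 7, 5, 8, 3, 5, 7, 4, 10], .l [3, 6], .l [0, 15, 12, 3, 6, 11, 5], .l [4, 10, 5, 1, 1, 5, 7, 4, 10], .l [5, 6], .l [1, 13, 8, 1, 4, 8, 1, 7, 5, 4, 9, 7, 3], .l [6, 10, 3, 7, 7, 5, 7, 4, 10], .l [1, 10, 8, 1, 7, 12, 7, 1, 3, 8, 9, 7, 3], .l [0, 15, 10, 1, 4, 11, 3, 1, 5, 1, 6, 7], .l [0, 13, 8, 1, 2, 9, 3, 1, 5, 1, 4, 5], .l [4, 5, 3, 6, 3, 5, 7, 4, 10], .l [3, 1, 7, 4, 5, 3, 5, 1, 5, 2, 8], .l [0, 15, 10, 4, 6, 4, 12], .l [4, 8, 3, 9, 3, 7, 3, 7, 1, 5, 6, 3, 4, 5], .l [1, 8, 6, 1, 5, 12, 9, 1, 3, 8, 9, 5, 1], .l [4, 5, 3, 6, 3, 7], .y [1, 12, 5, 3], .l [4, 8, 3, 11, 5, 9, 13, 11, 4], .l [11, 14, 7, 10,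 5, 5, 10, 7, 3, 5, 6, 7], .l [4, 5, 3, 6, 3, 9], .l [4, 8, 3, 11, 5, 9, 9, 6, 5], .l [4, 8, 3, 13, 1, 8, 5, 3, 8, 4, 6, 1, 2, 5], .l [11, 16, 9, 12, 7, 7, 4, 1, 6, 8, 4, 7], .l [1, 11, 6, 13, 6, 2, 3, 1, 8, 6, 3, 3, 1], .l [4, 8, 3, 15, 3, 10, 5, 3, 10, 6, 8, 1, 2, 3], .l [11, 18, 11, 11, 9, 12, 9, 9, 11, 10, 3, 7, 5], .l [1, 11, 6, 15, 8, 2, 3, 1, 10, 8, 5, 5, 3]]),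
([p 4 1, s 3 2, g, p 0 3, g, m 6 0, p 5 4, g, p 0 5, g, s 2 0, g, s 1 0, g, s 0 6, g], .lo 3, [.l [4, 8, 3, 5, 7, 4, 10], .l [3, 4], .l [1, 11, 8, 1, 4, 6, 3, 5, 6, 3, 4, 5], .l [4, 8, 3, 5, 7, 4, 10], .r 1470 [1, 2, 3, 7, 4, 5, 6] [1, 1, 1, 1, 1, 1, 1, 1], .l [0, 13, 10, 1, 4, 9, 5], .l [0, 11, 8, 1, 2, 7, 5], .l [2, 6, 3, 5, 7, 4, 10], .l [3, 1, 5, 2, 5, 1, 5, 2, 8], .l [0, 13, 10, 4, 6, 4, 10], .l [3, 1, 5, 2, 3, 5, 9, 4, 1, 6, 2, 5], .l [3, 1, 5, 2, 7, 3, 7, 3, 6, 1, 4, 5], .l [2, 6, 3, 7], .y [1, 10, 3], .l [10, 8, 9, 4, 9, 1, 1, 3, 6, 1, 4, 5], .l [10, 8, 9, 4, 9, 1, 1, 3, 6, 1, 4, 5], .l [2, 6, 3, 9], .l [10, 8, 9, 4, 9, 1, 1, 3, 2, 6, 4, 1], .l [2, 3, 1, 9, 1, 6, 2, 5, 6, 4, 2, 5], .l [10, 8, 9, 4, 11,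 3, 3, 5, 2, 8, 6, 3], .l [2, 6, 3, 11], .l [2, 3, 1, 9, 1, 6, 2, 5, 8, 6, 2, 3], .l [10, 8, 9, 4, 13, 5, 5, 7, 2, 4, 2, 5], .l [2, 6, 3, 13]])]

def d05_3 : List (List Item × Qry × List Rf) := [
([p 3 1, s 2 0, g, p 0 2, g, m 5 0, p 4 3, g, p 0 4, g, s 1 0, g, s 0 5, g], .hi 1, [.l [3, 1, 7, 4, 9, 4, 6, 8, 6, 1], .l [2, 8, 5, 5, 8], .l [3, 1, 4, 2, 8], .y [1, 3], .l [12, 11, 3, 10, 3, 8, 1, 8, 4, 1], .l [4, 8, 3, 3, 8], .l [3, 1, 4, 2, 8], .l [1, 7, 9, 7, 10, 8, 2, 5], .l [0, 6, 5, 6, 8, 6, 9], .l [3, 1, 7, 5, 8], .l [0, 6, 5, 6, 6, 4, 7], .r 1471 [1, 6, 2, 3, 4, 5] [1, 1, 1, 1, 1, 1, 1], .l [12, 11, 8], .l [3, 1, 9, 7, 8], .l [3, 1, 5, 2, 7, 4, 6, 8, 6, 1], .l [10, 9, 10], .l [3, 1, 11, 9, 6], .l [3, 1, 5, 2,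 7, 4, 6, 6, 4, 1], .l [14, 12, 13, 8, 3, 6, 8, 6, 4, 1], .l [10, 9, 12], .l [3, 1, 13, 11, 6]]),
([p 2 1, s 4 0, g, m 5 0, p 3 2, g, p 0 3, g, s 1 0, g, p 0 4, g, s 0 5, g], .hi 1, [.l [10, 9, 1, 8, 3, 8, 1, 8, 4, 1], .l [2, 6, 3, 3, 6], .l [3, 1, 11, 9, 6], .l [10, 9, 4, 6, 4, 9], .l [0, 4, 3, 4, 6, 4, 9], .l [6, 4, 5, 2, 5, 2, 8], .l [0, 4, 3, 4, 4, 2, 7], .l [8, 6, 7, 4, 9, 5, 2, 8, 6, 3], .l [10, 9, 6], .l [8, 6, 7, 4, 4, 2, 8, 6, 3], .l [10, 8, 9, 6, 9, 3, 4, 8, 4, 1], .l [8, 7, 8], .l [10, 8, 9, 6, 6, 4, 8, 4, 5], .y [1, 10], .l [10, 8, 9, 6, 3, 4, 6, 8, 6, 1], .l [8, 7, 10], .l [10, 8, 9, 6, 6, 4, 8, 4, 5], .l [10, 8, 9, 6, 3, 4, 6, 6, 4, 1], .l [14, 12, 13, 10, 3, 8, 3, 1, 6, 1], .l [8, 7, 12], .l [10,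 8, 9, 6, 6, 4, 10, 6, 7]]),
([p 4 1, s 6 2, g, m 7 3, p 5 4, g, p 0 5, g, p 0 6, g, s 3 0, g, s 1 0, g, s 2 7, g], .lo 6, [.l [2, 6, 3, 5, 5, 2, 10], .l [3, 7], .l [0, 13, 10, 4, 4, 2, 10], .l [7, 8, 4, 13, 13, 1, 3, 0, 2, 4, 2, 5], .l [6, 7], .l [5, 8, 6, 6, 2, 1], .l [5, 6, 4, 13, 13, 1, 3, 0, 2, 4, 2, 5], .l [1, 4, 2, 13, 10, 12, 12, 10, 7, 7, 5, 1, 5], .l [0, 4, 3, 14, 9, 1, 3, 10, 10, 8, 5], .l [5, 6, 4, 13, 3, 11, 3, 0, 4, 8, 4, 1], .l [1, 15, 7, 0, 13, 6, 1, 8, 6, 2, 8, 6, 3], .l [5, 6, 4, 4, 0, 6], .l [2, 4, 1, 7, 7, 3, 3, 0, 6], .l [1, 15, 12, 6, 3, 6, 11, 9, 3, 1, 6, 1], .l [2, 4, 1, 7, 9, 5, 5, 2, 8], .l [5, 6, 4, 4, 0, 8], .y [0, 12, 6, 4], .l [1, 15, 12, 6, 3, 8, 11, 7, 3, 1, 4, 5], .l [0, 11, 13,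 7, 7, 5, 10], .l [0, 11, 5, 11, 5, 3, 6], .l [3, 13, 7, 13, 5, 0, 10], .l [0, 11, 15, 9, 9, 7, 4], .l [0, 11, 5, 13, 7, 3, 8]]),
([p 3 1, s 5 2, g, m 6 0, p 4 3, g, p 0 4, g, p 0 5, g, s 1 0, g, s 2 6, g], .hi 3, [.l [4, 6, 1, 3, 5, 2, 8], .l [0, 11, 8, 1, 2, 7, 1], .l [3, 4], .l [2, 4, 1, 3, 5, 2, 8], .l [0, 11, 8, 2, 4, 2, 8], .l [1, 4, 2, 11, 8, 10, 10, 8, 3, 1, 5, 5, 3], .l [0, 9, 6, 2, 2, 0, 6], .l [7, 4, 6, 4, 7, 3, 6, 1, 4, 5], .l [2, 4, 1, 5], .l [0, 11, 8, 1, 9, 10, 6, 3, 6, 6, 6, 2, 3], .y [1, 12, 3, 8], .r 1474 [1, 2, 7, 3, 4, 5, 6] [1, 1, 1, 1, 1, 1, 1], .l [2, 4, 1, 7], .l [0, 11, 8, 1, 9, 3, 1, 5, 1, 4, 5, 5, 1], .l [2, 4, 1, 9, 1, 6, 8, 8, 6, 3], .l [2, 4, 1, 9], .l [0, 14, 12, 2, 11, 5, 3, 7, 1,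 6, 3], .l [2, 4, 1, 11, 3, 8, 5, 5, 6, 3], .l [2, 4, 1, 11], .l [10, 9, 10, 12, 3, 3, 1, 7, 5, 7, 5, 5, 3]]),
([p 2 1, s 4 0, g, m 5 0, p 3 2, g, p 0 3, g, p 0 4, g, s 1 0, g, s 0 5, g], .hi 1, [.l [10, 8, 9, 4, 7, 3, 6, 1, 4, 5], .l [2, 6, 3, 3, 8], .l [3, 1, 9, 7, 8], .l [6, 4, 9, 4, 8, 2, 6, 1, 4, 5], .l [0, 4, 3, 4, 6, 4, 9], .l [6, 4, 5, 2, 5, 2, 8], .l [0, 4, 3, 4, 4, 2, 7], .l [8, 6, 7, 4, 7, 3, 6, 1, 4, 5], .l [12, 11, 6], .l [8, 6, 7, 4, 4, 2, 6, 4, 5], .y [1, 8], .l [8, 6, 7, 4, 7, 3, 6, 1, 4, 5], .l [12, 11, 8], .l [8, 6, 7, 4, 4, 2, 6, 4, 5], .l [8, 6, 7, 4, 9, 5, 2, 8, 6, 3], .l [10, 9, 10], .l [8, 6, 7, 4, 4, 2, 8, 6, 3], .r 1475 [1, 6, 2, 3, 4, 5] [1, 1, 1, 1, 1, 1], .l [8, 6, 7, 4, 11, 7, 2, 4,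 2, 5], .l [10, 9, 12], .l [8, 6, 7, 4, 4, 2, 10, 8, 3]]),
([p 3 1, s 2 0, g, s 0 2, g, m 5 0, p 4 3, g, p 0 4, g, s 1 0, g, s 0 5, g], .hi 1, [.l [3, 1, 7, 4, 9, 4, 6, 8, 6, 1], .l [2, 8, 5, 5, 8], .l [12, 11, 3, 10, 3, 8, 1, 8, 4, 1], .y [1, 3], .l [3, 1, 7, 4, 9, 4, 6, 8, 6, 1], .l [4, 8, 3, 3, 8], .l [3, 1, 7, 4, 9, 4, 6, 8, 6, 1], .l [12, 11, 6, 8, 6, 9], .l [0, 6, 5, 6, 8, 6, 9], .l [8, 6, 7, 2, 7, 4, 8], .l [0, 6, 5, 6, 6, 4, 7], .l [0, 11, 1, 8, 4, 7, 3, 1, 4, 5], .l [2, 6, 3, 3, 8, 1, 3, 1, 4, 5], .l [10, 8, 9, 4, 7, 3, 6, 1, 4, 5], .l [3, 1, 5, 2, 7, 4, 6, 8, 6, 1], .l [10, 9, 10], .l [10, 9, 1, 8, 3, 8, 1, 8, 4, 1], .l [3, 1, 5, 2, 7, 4, 6, 6, 4, 1], .l [10, 9, 1, 8, 3, 6, 8, 1, 4, 1], .l [10, 9, 12],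 .l [14, 12, 13, 8, 3, 6, 8, 6, 4, 1]]),
([p 3 1, s 6 2, g, m 7 0, p 4 3, g, p 5 4, g, p 0 5, g, s 0 6, g, s 1 0, g, s 2 7, g], .hi 3, [.l [4, 6, 1, 3, 5, 2, 10], .l [2, 6, 3, 1], .l [3, 4], .l [2, 4, 1, 3, 5, 2, 10], .l [0, 13, 10, 2, 4, 2, 10], .l [4, 6, 4, 5, 2, 11, 8, 10, 10, 8, 5, 5, 3], .l [2, 4, 1, 5, 7, 5, 5, 2, 8], .l [0, 13, 10, 4, 6, 4, 4, 2, 8], .l [0, 13, 1, 10, 2, 9, 10, 6, 3, 8, 4, 5], .l [0, 11, 8, 4, 4, 2, 2, 0, 6], .l [0, 13, 1, 10, 2, 9, 10, 8, 5, 8, 2, 5], .l [2, 4, 1, 7], .l [0, 13, 1, 10, 2, 9, 10, 8, 5, 8, 2, 5], .y [1, 14, 3, 10], .l [0, 13, 3, 10, 2, 9, 10, 8, 5, 8, 2, 5], .l [2, 4, 1, 9], .l [0, 13, 10, 1, 11, 12, 10, 7, 10, 2, 7, 7, 5], .l [2, 4, 1, 11, 1, 8, 10, 10, 8, 5], .l [2, 4, 1,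 11], .l [1, 4, 2, 11, 8, 12, 12, 8, 5, 5, 3, 7, 1], .l [2, 4, 1, 13, 3, 10, 7, 7, 8, 5], .l [2, 4, 1, 13], .l [12, 11, 12, 14, 3, 3, 1, 11, 7, 7, 5, 5, 3]]),
([p 3 1, s 5 2, g, m 6 0, p 4 3, g, p 0 4, g, s 0 5, g, s 1 0, g, s 2 6, g], .lo 6, [.l [2, 6, 3, 5, 5, 2, 8], .l [3, 7], .l [0, 11, 8, 4, 4, 2, 8], .l [0, 9, 6, 2, 2, 0, 6], .l [5, 8, 6, 11, 3, 7, 4, 8, 1, 6, 2, 1], .l [6, 7], .l [5, 8, 6, 6, 2, 1], .l [5, 6, 4, 11, 3, 7, 4, 8, 1, 4, 0, 3], .r 1478 [1, 2, 3, 4, 7, 5, 6] [1, 1, 1, 1, 1, 1, 1], .l [5, 6, 4, 4, 0, 4], .l [1, 7, 9, 7, 7, 5, 8, 8, 2, 5], .l [1, 7, 9, 7, 7, 5, 8, 8, 2, 5], .l [5, 6, 4, 4, 0, 6], .y [0, 10, 6, 4], .l [1, 7, 11, 9, 9, 7, 8, 8, 2, 3], .l [0, 9, 11, 7, 7, 5, 8], .l [5, 6, 4, 4, 0,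 8], .l [0, 9, 13, 9, 9, 7, 4, 6, 4, 5], .l [0, 9, 13, 9, 9, 7, 4], .l [1, 11, 5, 11, 5, 2, 3, 1, 6]]),
([p 2 1, s 4 0, g, m 5 0, p 3 2, g, p 0 3, g, s 0 4, g, s 1 0, g, s 0 5, g], .hi 1, [.l [0, 11, 1, 8, 4, 7, 3, 1, 4, 5], .l [2, 6, 3, 3, 8], .r 854 [6, 2] [1, 2, 9], .l [12, 11, 4, 6, 4, 9], .l [0, 4, 3, 4, 6, 4, 9], .l [6, 4, 5, 2, 5, 2, 8], .l [0, 4, 3, 4, 4, 2, 7], .l [8, 6, 7, 4, 7, 3, 6, 1, 4, 5], .l [12, 11, 6], .l [8, 6, 7, 4, 7, 3, 6, 1, 4, 5], .y [1, 8], .l [8, 6, 7, 4, 7, 3, 6, 1, 4, 5], .l [12, 11, 8], .l [8, 6, 7, 4, 7, 3, 6, 1, 4, 5], .l [0, 9, 1, 6, 2, 5, 6, 4, 2, 5], .l [10, 9, 10], .l [8, 6, 7, 4, 9, 5, 2, 8, 6, 3], .r 1479 [1, 6, 2, 3, 4, 5] [1, 1, 1, 1, 1, 1], .l [0, 9, 1, 6, 2, 5, 8, 6, 2, 3],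 .l [10, 9, 12], .l [8, 6, 7, 4, 11, 7, 2, 4, 2, 5]]),
([p 2 1, s 0 0, g, m 4 0, p 3 2, g, p 0 3, g, s 1 0, g, s 0 4, g], .lo 1, [.y [1], .r 1477 [1, 5, 2, 3, 4] [1, 1, 1, 1, 1, 1], .r 1472 [1, 5, 2, 3, 4] [1, 1, 1, 1, 1, 1], .l [2, 6, 3, 3, 6], .l [2, 4, 1, 1, 4], .l [10, 9, 4, 6, 4, 7], .l [6, 4, 5, 2, 5, 2, 6], .l [0, 4, 3, 4, 6, 4, 7], .r 1480 [1, 2, 3, 5, 4] [1, 1, 1, 1, 1, 1], .r 1476 [1, 2, 3, 5, 4] [1, 1, 1, 1, 1, 1], .l [10, 9, 6], .l [8, 7, 6], .r 1467 [1, 2, 3, 5, 4] [1, 1, 1, 1, 1, 1], .r 1473 [1, 2, 3, 5, 4] [1, 1, 1, 1, 1, 1], .l [8, 7, 8], .r 1469 [1, 2, 3, 4, 5] [1, 1, 1, 1, 1, 1], .r 1468 [1, 2, 3, 4, 5] [1, 1, 1, 1, 1, 1], .l [8, 7, 10]]),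
([p 3 1, s 0 0, g, m 6 2, p 4 3, g, m 2 0, g, p 5 4, g, p 0 5, g, s 1 6, g], .hi 1, [.y [1], .l [8, 10, 7, 12, 12, 4, 1, 5, 1, 5, 3, 5, 1], .l [2, 6, 3, 3, 10], .l [1, 6, 4, 13, 8, 10, 2, 0, 3], .l [5, 10, 8, 8, 4, 4, 9, 7, 3, 5, 5, 5, 1], .l [0, 4, 3, 4, 8, 6, 9], .l [6, 4, 5, 2, 7, 4, 8], .l [3, 13, 13, 2, 6, 8, 4, 6, 5, 5, 1, 5, 3], .l [0, 4, 3, 6, 8, 4, 9], .l [8, 6, 7, 4, 5, 3, 5, 2, 6], .l [3, 13, 13, 2, 8, 10, 8, 8, 4, 6, 5, 5, 1], .l [0, 4, 3, 8, 10, 8, 8, 4, 7], .l [14, 10, 13, 12, 12, 8, 8, 4, 1, 6, 1, 2, 3], .l [0, 4, 3, 8, 8, 6, 6, 2, 5], .l [6, 1, 12, 6, 11, 3, 1, 8, 8, 0, 5, 5, 3], .l [3, 13, 13, 2, 10], .l [3, 13, 3, 12, 2, 8, 1, 8, 4, 0, 5], .l [4, 6, 4, 5, 2, 9, 6, 8, 2, 0, 3, 3, 1], .l [3, 11,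 11, 2, 10], .l [7, 14, 7, 1, 9, 3, 3, 5, 6, 0, 3]]),
([p 3 1, s 0 0, g, m 6 2, p 4 3, g, p 5 4, g, m 2 0, g, p 0 5, g, s 1 6, g], .hi 1, [.y [1], .l [2, 6, 3, 3, 10, 10, 0, 6, 5, 5, 1, 5, 3], .l [2, 6, 3, 3, 10], .l [1, 6, 4, 13, 8, 10, 2, 0, 5], .l [3, 13, 13, 2, 4, 6, 4, 6, 5, 5, 1, 5, 3], .l [0, 4, 3, 4, 6, 4, 9], .l [6, 4, 5, 2, 5, 2, 8], .l [3, 13, 13, 2, 6, 10, 8, 8, 6, 4, 3, 5, 1], .l [0, 4, 3, 6, 10, 8, 8, 6, 7], .l [0, 13, 10, 1, 11, 5, 1, 7, 8, 0, 5], .l [3, 13, 13, 2, 8, 10, 6, 6, 4, 6, 5, 5, 1], .l [0, 4, 3, 8, 10, 6, 6, 4, 7], .l [10, 8, 9, 6, 7, 3, 7, 1, 1, 2, 4], .l [0, 4, 3, 8, 8, 4, 4, 2, 5], .l [3, 13, 3, 12, 2, 8, 3, 8, 4, 0, 5, 1, 3], .l [3, 13, 13, 2, 10], .l [3, 13, 3, 12, 2, 8, 3, 8, 4, 0,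 5], .l [0, 11, 8, 1, 9, 10, 6, 3, 4, 0, 1, 3, 1], .l [3, 11, 11, 2, 10], .l [5, 14, 9, 1, 11, 3, 3, 7, 8, 0, 3]]),
([p 2 1, s 0 0, g, m 5 0, p 3 2, g, p 4 3, g, p 0 4, g, s 1 5, g], .hi 3, [.l [2, 4, 1, 1, 6], .l [4, 6, 1, 3, 5, 2, 6], .l [2, 6, 3, 1], .l [3, 4], .l [2, 4, 1, 3, 5, 2, 6], .l [2, 4, 1, 3], .r 1482 [1, 6, 2, 3, 4, 5] [1, 1, 1, 1, 1, 1], .l [2, 4, 1, 5, 7, 5, 5, 2, 4], .l [2, 4, 1, 5], .r 1483 [1, 6, 2, 3, 4, 5] [1, 1, 1, 1, 1, 1], .y [0, 10, 3, 8, 6, 4], .l [5, 10, 7, 3, 6, 7, 7, 4, 5, 0, 1], .l [2, 4, 1, 7], .l [5, 10, 7, 3, 6, 7, 7, 4, 5, 0, 1], .l [5, 12, 9, 3, 8, 1, 1, 4, 5, 0, 1], .l [2, 4, 1, 9], .l [5, 12, 9, 3, 8, 1, 1, 4, 5, 0, 1]]),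
([p 3 1, s 0 0, g, m 5 2, p 4 3, g, m 2 0, g, p 6 4, g, s 1 5, g, p 0 6, g], .hi 1, [.y [1], .l [2, 6, 3, 3, 8, 10, 8, 6, 0, 4, 3, 5, 1], .l [2, 6, 3, 3, 8], .l [1, 6, 4, 11, 6, 8, 2, 0, 1], .l [0, 4, 3, 4, 8, 6, 7, 9, 7, 7, 1, 5, 3], .l [0, 4, 3, 4, 8, 6, 7], .l [6, 4, 5, 2, 7, 4, 6], .l [0, 4, 3, 6, 8, 4, 7, 9, 5, 5, 1, 5, 3], .l [0, 4, 3, 6, 8, 4, 7], .l [8, 6, 7, 4, 5, 3, 5, 2, 4], .l [0, 4, 3, 8, 12, 10, 10, 6, 3, 5, 1, 5, 3], .l [0, 4, 3, 8, 12, 10, 10, 6, 3], .l [12, 8, 8, 5, 7, 5, 10, 4, 4, 1, 4, 2, 3], .l [3, 9, 9, 2, 8, 10, 8, 8, 4, 6, 5, 5, 1], .l [0, 4, 3, 10, 12, 8, 8, 4, 7], .l [10, 6, 6, 3, 5, 3, 10, 6, 6, 3, 6, 2, 3], .l [0, 4, 3, 10, 10, 6, 6, 2, 5], .l [10, 6, 6, 3, 5, 3, 8, 4, 4, 1, 4, 2, 3],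 .l [3, 9, 9, 2, 10], .l [0, 9, 11, 9, 11, 4, 6, 5, 6, 0, 3]]),
([p 2 1, s 0 0, g, m 4 0, p 3 2, g, p 5 3, g, s 1 4, g, p 0 5, g], .hi 3, [.l [2, 4, 1, 1, 4], .l [4, 6, 1, 3, 5, 2, 4], .l [2, 6, 3, 1], .l [3, 4], .l [2, 4, 1, 3, 5, 2, 4], .l [2, 4, 1, 3], .r 1485 [1, 6, 2, 3, 4, 5] [1, 1, 1, 1, 1, 1], .l [2, 4, 1, 5, 9, 7, 7, 4, 1], .l [2, 4, 1, 5], .l [10, 9, 9, 5, 6, 2, 8, 3, 6, 0, 1], .l [2, 4, 1, 7, 9, 5, 5, 2, 4], .l [2, 4, 1, 7], .l [8, 7, 7, 3, 8, 3, 4, 0, 3], .y [0, 8, 3, 10, 6, 4], .l [5, 12, 9, 3, 8, 3, 3, 4, 5, 0, 1], .l [2, 4, 1, 9], .l [5, 12, 9, 3, 8, 3, 3, 4, 5, 0, 1]]),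
([p 2 1, s 0 0, g, m 4 0, p 3 2, g, p 0 3, g, s 1 4, g], .lo 6, [.l [0, 4, 3, 4, 4, 2, 3], .l [2, 6, 3, 5, 5, 2, 4], .l [3, 7], .l [2, 6, 3, 5], .y [0, 8, 3, 6, 4], .l [5, 8, 6, 7, 7, 2, 5, 2, 1], .l [6, 7], .l [3, 9, 3, 1, 7, 2, 3, 0, 3], .l [5, 6, 4, 7, 7, 2, 3, 0, 3], .r 1484 [1, 2, 3, 5, 4] [1, 1, 1, 1, 1], .l [5, 6, 4, 7, 7, 2, 3, 0, 3], .l [5, 6, 4, 5, 5, 2, 3, 0, 3], .r 1486 [1, 2, 3, 4, 5] [1, 1, 1, 1, 1], .l [0, 7, 1, 7, 5, 3, 3, 0, 3]]),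
([p 2 1, s 0 0, g, m 0 0, p 3 2, g, p 0 3, m 0 4, g, m 4 0, g, s 1 0, g], .lo 3, [.l [1, 4, 2, 10, 7, 7, 4], .r 506 [5, 2] [2, 1, 8], .l [5, 1], .r 1464 [1, 5, 2, 3] [2, 1, 1, 4, 1], .y [3], .l [0, 12, 6, 7, 4], .l [6, 2], .l [3, 5], .l [4, 6, 5, 7, 9, 7, 1], .l [9, 5], .l [3, 8], .l [3, 8], .r 1466 [1, 2, 3, 4, 5] [1, 1, 1, 1, 1, 1], .l [11, 7], .l [3, 10], .r 1487 [1, 2, 3, 5] [1, 1, 4, 1], .r 1481 [1, 2, 3, 5] [1, 1, 4, 1, 1], .l [13, 9], .l [3, 12]]),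
([p 2 1, s 0 0, g, m 0 0, p 3 2, g, p 0 3, m 0 4, g, s 1 0, g, m 4 0, g], .lo 3, [.l [0, 8, 5, 1, 6, 8, 5, 2, 5], .l [0, 10, 5, 1, 8, 10, 5, 2, 5], .l [5, 1], .l [3, 6, 2, 2, 9, 11, 9, 6, 3], .y [3], .l [0, 10, 4, 5, 2], .l [6, 2], .l [3, 5], .l [4, 6, 5, 7, 11, 9, 1], .l [9, 5], .l [3, 8], .l [4, 6, 5, 7, 9, 7, 1], .l [4, 6, 5, 9, 11, 7, 1], .l [11, 7], .l [3, 10], .l [3, 10], .l [0, 8, 5, 1, 6, 8, 5, 2, 7], .l [13, 9], .l [3, 12]]),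
([p 2 1, s 0 0, g, m 0 0, p 3 2, g, p 0 3, m 0 0, g, s 1 0, g], .hi 7, [.l [9, 8, 5], .l [11, 10, 10, 4, 4, 2, 5], .l [2, 6, 3, 6], .l [3, 8], .l [3, 6], .l [6, 8, 5], .l [5, 8, 6, 6, 2, 6], .l [6, 8], .l [5, 6, 4, 4, 0, 4], .y [7], .l [11, 10, 10, 6, 6, 4, 1], .l [11, 10, 10, 6, 6, 4, 1], .r 1488 [1, 2, 3, 4] [1, 1, 1, 1, 1], .l [9, 8, 8, 4, 4, 2, 7], .l [9, 8, 8, 4, 4, 2, 7], .r 1489 [1, 2, 3, 4] [1, 1, 1, 1, 1]]),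
([p 2 1, g, m 0 0, p 3 2, g, p 0 3, m 0 0, g, s 1 0, g], .top 1, [.r 444 [] [7], .r 1490 [1, 2, 3] [1, 1, 1, 1], .r 334 [] [9], .r 444 [] [9]]),
([p 2 1, g, m 4 0, p 3 2, g, p 0 3, g, s 0 4, g, s 1 0, g], .top 6, [.l [3, 5, 4, 4, 1], .r 1459 [1, 2, 3, 4] [1, 1, 1, 1, 1], .r 1439 [1, 2, 3, 4] [1, 1, 1, 1, 1], .r 1491 [1, 2, 3] [1, 1, 3, 1]]),
([p 2 1, g, m 3 0, p 0 2, g, s 0 3, g, s 1 0, g], .lo 3, [.l [1, 5, 3, 2, 3], .l [2, 4], .l [0, 8, 6, 2, 3], .l [0, 6, 4, 0, 1], .l [7, 4, 1], .r 1492 [1, 2, 4, 3] [1, 1, 1, 1, 1], .l [2, 3, 0, 3], .l [5, 2, 5], .l [0, 8, 3, 4, 1], .l [2, 3, 0, 5], .y [0, 7, 3], .l [5, 2, 7], .l [0, 6, 8, 4, 5], .l [2, 3, 0, 7]]),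
([p 3 0, g, m 0 1, g, m 1 2, p 8 3, g, m 2 4, g, m 4 5, g, m 5 6, g, m 6 7, g, m 7 0, g, s 0 8, g], .hi 15, [.l [16, 17, 15, 15, 13, 13, 11, 11, 9, 9, 6, 7, 1, 2, 6, 4, 1], .l [1, 7, 5, 14], .l [2, 16], .y [2, 4, 7, 9, 11, 13, 15], .l [3, 7, 3, 14, 9, 10, 13], .l [3, 6, 4, 6, 4, 13], .l [4, 16], .l [6, 9, 6, 7, 3, 12, 7, 8, 11], .l [4, 9, 8, 4, 0, 15, 11, 9, 9, 7, 7, 5, 5, 3, 3, 1, 3, 1], .l [7, 16], .l [8, 11, 9, 9, 6, 7, 3, 10, 5, 6, 9], .l [4, 7, 6, 6, 4, 2, 0, 13, 9, 7, 7, 5, 5, 3, 3, 1, 3, 1], .l [9, 16], .l [10, 13, 11, 11, 9, 9, 6, 7, 3, 8, 3, 4, 7], .l [10, 13, 11, 11, 9, 9, 6, 6, 4, 6, 4, 7], .l [11, 16], .l [12, 15, 13, 13, 11, 11, 9, 9, 6, 7, 3, 6, 1, 2, 5], .l [12, 15, 13, 13, 11, 11, 9, 9, 6, 6, 4,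 6, 4, 5], .l [13, 16], .l [16, 17, 13, 13, 11, 11, 9, 9, 7, 7, 4, 5, 1, 4, 1, 2, 3], .l [14, 17, 15, 15, 13, 13, 11, 11, 9, 9, 6, 6, 4, 6, 4, 1], .l [15, 16], .l [14, 15, 13, 13, 11, 11, 9, 9, 7, 7, 4, 5, 1, 4, 1, 2, 3], .l [14, 15, 13, 13, 11, 11, 9, 9, 7, 7, 4, 4, 2, 4, 2, 3], .l [18, 14, 15, 14, 16, 15, 13, 11, 11, 9, 9, 7, 7, 5, 5, 3, 3, 1], .l [4, 5, 0, 15, 15, 13, 13, 11, 11, 9, 9, 7, 7, 5, 5, 3, 3, 1], .l [14, 15, 13, 13, 11, 11, 9, 9, 7, 7, 4, 5, 1, 6, 3, 4, 1], .l [14, 15, 13, 13, 11, 11, 9, 9, 7, 7, 4, 4, 2, 4, 2, 5], .l [4, 5, 0, 15, 17, 15, 15, 13, 13, 11, 11, 9, 9, 7, 7, 5, 5, 3]]),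
([p 3 0, g, m 0 1, g, m 1 2, p 7 3, g, m 2 4, g, m 4 5, g, m 5 6, g, m 6 0, g, s 0 7, g], .hi 13, [.l [14, 15, 13, 13, 11, 11, 9, 9, 6, 7, 1, 2, 6, 4, 1], .l [1, 7, 5, 12], .l [2, 14], .y [2, 4, 7, 9, 11, 13], .l [3, 7, 3, 12, 7, 8, 11], .l [3, 6, 4, 6, 4, 11], .l [4, 14], .l [6, 9, 6, 7, 3, 10, 5, 6, 9], .l [6, 9, 6, 6, 4, 6, 4, 9], .l [7, 14], .l [8, 11, 9, 9, 6, 7, 3, 8, 3, 4, 7], .l [8, 11, 9, 9, 6, 6, 4, 6, 4, 7], .l [9, 14], .l [10, 13, 11, 11, 9, 9, 6, 7, 3, 6, 1, 2, 5], .l [10, 13, 11, 11, 9, 9, 6, 6, 4, 6, 4, 5], .l [11, 14], .l [14, 15, 11, 11, 9, 9, 7, 7, 4, 5, 1, 4, 1, 2, 3], .l [12, 15, 13, 13, 11, 11, 9, 9, 6, 6, 4, 6, 4, 1], .l [13, 14], .l [12, 13, 11, 11, 9, 9, 7, 7, 4, 5, 1, 4, 1, 2, 3], .l [12,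 13, 11, 11, 9, 9, 7, 7, 4, 4, 2, 4, 2, 3], .r 1494 [1, 2, 3, 4, 5, 6, 8, 7] [1, 1, 1, 1, 1, 1, 1, 1, 1], .l [12, 13, 11, 11, 9, 9, 7, 7, 4, 5, 1, 4, 4, 0, 1], .l [12, 13, 11, 11, 9, 9, 7, 7, 4, 5, 1, 6, 3, 4, 1], .l [12, 13, 11, 11, 9, 9, 7, 7, 4, 4, 2, 4, 2, 5], .l [14, 17, 15, 15, 13, 13, 11, 11, 9, 9, 6, 7, 3, 2, 3]]),
([p 3 0, g, m 0 1, g, m 1 2, p 6 3, g, m 2 4, g, m 4 5, g, m 5 0, g, s 0 6, g], .hi 11, [.l [12, 13, 11, 11, 9, 9, 6, 7, 1, 2, 6, 4, 1], .l [1, 7, 5, 10], .l [2, 12], .y [2, 4, 7, 9, 11], .l [3, 7, 3, 10, 5, 6, 9], .l [3, 6, 4, 6, 4, 9], .l [4, 12], .l [6, 9, 6, 7, 3, 8, 3, 4, 7], .l [6, 9, 6, 6, 4, 6, 4, 7], .l [7, 12], .l [8, 11, 9, 9, 6, 7, 3, 6, 1, 2, 5], .l [8, 11, 9, 9, 6, 6, 4, 6, 4, 5],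 .l [9, 12], .l [12, 13, 9, 9, 7, 7, 4, 5, 1, 4, 1, 2, 3], .l [10, 13, 11, 11, 9, 9, 6, 6, 4, 6, 4, 1], .l [11, 12], .l [10, 11, 9, 9, 7, 7, 4, 5, 1, 4, 1, 2, 3], .l [10, 11, 9, 9, 7, 7, 4, 4, 2, 4, 2, 3], .r 1495 [1, 2, 3, 4, 5, 7, 6] [1, 1, 1, 1, 1, 1, 1, 1], .l [10, 11, 9, 9, 7, 7, 4, 5, 1, 4, 4, 0, 1], .l [10, 11, 9, 9, 7, 7, 4, 5, 1, 6, 3, 4, 1], .l [10, 11, 9, 9, 7, 7, 4, 4, 2, 4, 2, 5], .l [12, 15, 13, 13, 11, 11, 9, 9, 6, 7, 3, 2, 3]]),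
([p 3 0, g, m 0 1, g, m 1 2, p 5 3, g, m 2 4, g, m 4 0, g, s 0 5, g], .hi 9, [.l [10, 11, 9, 9, 6, 7, 1, 2, 6, 4, 1], .l [1, 7, 5, 8], .l [2, 10], .y [2, 4, 7, 9], .l [3, 7, 3, 8, 3, 4, 7], .l [3, 6, 4, 6, 4, 7], .l [4, 10], .l [6, 9, 6, 7, 3, 6, 1, 2, 5], .l [6, 9, 6, 6, 4, 6, 4, 5], .l [7, 10], .l [10, 11, 7, 7, 4, 5, 1, 4, 1, 2, 3], .l [8, 11, 9, 9, 6, 6, 4, 6, 4, 1], .l [9, 10], .l [8, 9, 7, 7, 4, 5, 1, 4, 1, 2, 3], .l [8, 9, 7, 7, 4, 4, 2, 4, 2, 3], .r 1496 [1, 2, 3, 4, 6, 5] [1, 1, 1, 1, 1, 1, 1], .l [8, 9, 7, 7, 4, 5, 1, 4, 4, 0, 1], .l [8, 9, 7, 7, 4, 5, 1, 6, 3, 4, 1], .l [8, 9, 7, 7, 4, 4, 2, 4, 2, 5], .l [10, 13, 11, 11, 9, 9, 6, 7, 3, 2, 3]]),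
([p 3 0, g, m 0 1, g, m 1 2, p 4 3, g, m 2 0, g, s 0 4, g], .hi 7, [.l [8, 9, 6, 7, 1, 2, 6, 4, 1], .l [1, 7, 5, 6], .l [2, 8], .y [2, 4, 7], .l [3, 7, 3, 6, 1, 2, 5], .l [3, 6, 4, 6, 4, 5], .l [4, 8], .l [8, 9, 4, 5, 1, 4, 1, 2, 3], .l [6, 9, 6, 6, 4, 6, 4, 1], .l [7, 8], .l [6, 7, 4, 5, 1, 4, 1, 2, 3], .l [6, 7, 4, 4, 2, 4, 2, 3], .r 1497 [1, 2, 3, 5, 4] [1, 1, 1, 1, 1, 1], .l [6, 7, 4, 5, 1, 4, 4, 0, 1], .l [6, 7, 4, 5, 1, 6, 3, 4, 1], .l [6, 7, 4, 4, 2, 4, 2, 5], .l [8, 11, 9, 9, 6, 7, 3, 2, 3]]),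
([p 2 0, g, m 0 1, g, m 1 0, p 3 2, g, s 0 3, g], .hi 4, [.l [5, 7, 1, 2, 6, 4, 1], .l [1, 7, 5, 3], .l [2, 5], .y [2, 4], .l [5, 7, 1, 4, 1, 2, 3], .l [3, 6, 4, 6, 4, 1], .l [4, 5], .l [3, 5, 1, 4, 1, 2, 3], .l [3, 4, 2, 4, 2, 3], .r 1498 [1, 4, 2, 3] [1, 1, 1, 1, 1], .l [3, 5, 1, 4, 4, 0, 1], .l [3, 5, 1, 6, 3, 4, 1], .l [3, 4, 2, 4, 2, 5], .l [6, 9, 6, 7, 3, 2, 3]]),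
([p 1 0, g, m 0 0, p 2 1, g, s 0 2, g], .lo 2, [.l [2, 1], .l [4, 1, 4, 0, 3], .l [4, 1], .r 1499 [3, 1, 2] [1, 1, 1, 1], .y [2], .l [5, 2, 5], .l [5, 2], .l [2, 4], .l [7, 4, 1], .l [7, 4], .l [2, 6]]),
([p 4 1, g, s 1 0, g, m 0 2, g, m 2 3, p 8 4, g, m 3 5, g, m 5 6, g, m 6 7, g, m 7 0, g, p 0 8, g], .hi 15, [.l [16, 17, 15, 15, 13, 13, 11, 11, 8, 9, 1, 2, 8, 6, 3], .l [0, 3, 1, 14, 14, 12, 12, 10, 10, 8, 8, 5, 6, 2, 1, 3, 5, 3], .l [2, 16], .l [16, 17, 15, 15, 13, 13, 11, 11, 8, 9, 1, 4, 8, 4, 1], .l [3, 9, 5, 14], .l [4, 16], .y [4, 6, 9, 11, 13, 15], .l [5, 9, 3, 14, 14, 12, 12, 10, 10, 8, 10, 4, 7], .l [5, 8, 6, 8, 4, 13], .l [6, 16], .l [8, 11, 8, 9, 3, 12, 12, 10, 10, 8, 10, 4, 7], .l [8, 11, 8, 8, 6, 8,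 4, 11], .l [9, 16], .l [10, 13, 11, 11, 8, 9, 3, 10, 10, 8, 10, 4, 7], .l [10, 13, 11, 11, 8, 8, 6, 8, 4, 9], .l [11, 16], .l [12, 15, 13, 13, 11, 11, 8, 9, 3, 8, 10, 4, 7], .l [10, 19, 15, 7, 16, 7, 3, 3, 1, 1, 10, 7], .l [13, 16], .l [16, 17, 13, 13, 11, 11, 9, 9, 6, 7, 1, 6, 8, 2, 5], .l [12, 13, 11, 17, 13, 7, 14, 5, 1, 1, 10, 7], .l [15, 16], .l [14, 15, 13, 13, 11, 11, 9, 9, 6, 7, 1, 6, 8, 2, 5], .l [12, 19, 13, 7, 16, 7, 1, 7, 1, 5, 10, 7], .l [15, 17, 16, 16, 14, 14, 12, 12, 10, 10, 7, 8, 2, 4, 1, 6, 4, 1], .l [12, 17, 11, 7, 14, 5, 1, 5, 1, 3, 8, 7], .l [14, 15, 13, 13, 11, 11, 9, 9, 6, 7, 1, 8, 3, 6, 3], .l [10, 17, 13, 7, 14, 3, 14, 10, 8, 9], .l [15, 19, 18, 18, 16, 16, 14, 14, 12, 12, 9, 10, 4, 1,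 2, 5]]),
([p 4 1, g, s 1 0, g, m 0 2, g, m 2 3, p 7 4, g, m 3 5, g, m 5 6, g, m 6 0, g, p 0 7, g], .hi 13, [.l [14, 15, 13, 13, 11, 11, 8, 9, 1, 2, 8, 6, 3], .l [1, 9, 7, 12], .l [2, 14], .l [14, 15, 13, 13, 11, 11, 8, 9, 1, 4, 8, 4, 1], .l [3, 9, 5, 12], .l [4, 14], .y [4, 6, 9, 11, 13], .l [5, 9, 3, 12, 12, 10, 10, 8, 10, 4, 7], .l [5, 8, 6, 8, 4, 11], .l [6, 14], .l [8, 11, 8, 9, 3, 10, 10, 8, 10, 4, 7], .l [8, 11, 8, 8, 6, 8, 4, 9], .l [9, 14], .l [10, 13, 11, 11, 8, 9, 3, 8, 10, 4, 7], .l [10, 13, 11, 11, 8, 8, 6, 8, 4, 7], .l [11, 14], .l [14, 15, 11, 11, 9, 9, 6, 7, 1, 6, 8, 2, 5], .l [10, 17, 13, 7, 14, 5, 1, 1, 10, 7], .l [13, 14], .l [12, 13, 11, 11, 9, 9, 6, 7, 1, 6, 8, 2, 5], .l [12, 13, 11, 11, 9,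 9, 6, 6, 4, 6, 2, 5], .r 1501 [1, 2, 3, 4, 5, 6, 8, 7] [1, 1, 1, 1, 1, 1, 1, 1, 1], .l [12, 13, 11, 11, 9, 9, 6, 6, 4, 6, 2, 5], .l [12, 13, 11, 11, 9, 9, 6, 7, 1, 8, 3, 6, 3], .l [12, 13, 11, 11, 9, 9, 6, 6, 4, 6, 2, 7], .l [13, 17, 16, 16, 14, 14, 12, 12, 9, 10, 4, 1, 2, 5]]),
([p 4 1, g, s 1 0, g, m 0 2, g, m 2 3, p 6 4, g, m 3 5, g, m 5 0, g, p 0 6, g], .hi 11, [.l [12, 13, 11, 11, 8, 9, 1, 2, 8, 6, 3], .l [1, 9, 7, 10], .l [2, 12], .l [12, 13, 11, 11, 8, 9, 1, 4, 8, 4, 1], .l [3, 9, 5, 10], .l [4, 12], .y [4, 6, 9, 11], .l [5, 9, 3, 10, 10, 8, 10, 4, 7], .l [5, 8, 6, 8, 4, 9], .l [6, 12], .l [8, 11, 8, 9, 3, 8, 10, 4, 7], .l [8, 11, 8, 8, 6, 8, 4, 7], .l [9, 12], .l [12, 13, 9, 9, 6, 7, 1, 6, 8, 2, 5], .l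 [10, 13, 11, 11, 8, 8, 6, 8, 4, 1], .l [11, 12], .l [10, 11, 9, 9, 6, 7, 1, 6, 8, 2, 5], .l [10, 11, 9, 9, 6, 6, 4, 6, 2, 5], .r 1502 [1, 2, 3, 4, 5, 7, 6] [1, 1, 1, 1, 1, 1, 1, 1], .l [10, 11, 9, 9, 6, 6, 4, 6, 2, 5], .l [10, 11, 9, 9, 6, 7, 1, 8, 3, 6, 3], .l [10, 11, 9, 9, 6, 6, 4, 6, 2, 7], .l [11, 15, 14, 14, 12, 12, 9, 10, 4, 1, 2, 5]]),
([p 4 1, g, s 1 0, g, m 0 2, g, m 2 3, p 5 4, g, m 3 0, g, p 0 5, g], .hi 9, [.l [10, 11, 8, 9, 1, 2, 8, 6, 3], .l [1, 9, 7, 8], .l [2, 10], .l [10, 11, 8, 9, 1, 4, 8, 4, 1], .l [3, 9, 5, 8], .l [4, 10], .y [4, 6, 9], .l [5, 9, 3, 8, 10, 4, 7], .l [5, 8, 6, 8, 4, 7], .l [6, 10], .l [10, 11, 6, 7, 1, 6, 8, 2, 5], .l [8, 11, 8, 8, 6, 8, 4, 1], .l [9, 10], .l [8, 9, 6, 7, 1,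 6, 8, 2, 5], .l [8, 9, 6, 6, 4, 6, 2, 5], .r 1503 [1, 2, 3, 4, 6, 5] [1, 1, 1, 1, 1, 1, 1], .l [8, 9, 6, 6, 4, 6, 2, 5], .l [8, 9, 6, 7, 1, 8, 3, 6, 3], .l [8, 9, 6, 6, 4, 6, 2, 7], .l [9, 13, 12, 12, 9, 10, 4, 1, 2, 5]]),
([p 3 1, g, s 1 0, g, m 0 2, g, m 2 0, p 4 3, g, p 0 4, g], .hi 6, [.l [7, 9, 1, 2, 8, 6, 3], .l [1, 9, 7, 5], .l [2, 7], .l [7, 9, 1, 4, 8, 4, 1], .l [3, 9, 5, 3], .l [4, 7], .y [4, 6], .l [7, 9, 1, 6, 8, 2, 5], .l [5, 8, 6, 8, 4, 1], .l [6, 7], .l [5, 7, 1, 6, 8, 2, 5], .l [5, 6, 4, 6, 2, 5], .r 1504 [1, 2, 5, 3, 4] [1, 1, 1, 1, 1, 1], .l [5, 6, 4, 6, 2, 5], .l [5, 7, 1, 8, 3, 6, 3], .l [5, 6, 4, 6, 2, 7], .l [7, 11, 9, 10, 4, 1, 2, 5]]),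
([p 2 1, g, s 1 0, m 3 0, p 0 2, g, s 0 3, g], .hi 3, [.l [4, 3, 5, 1, 2], .l [1, 6, 4, 2], .l [2, 4], .l [2, 1, 3, 1, 0], .l [2, 1, 3, 1, 2], .l [2, 1, 3, 1, 2], .l [2, 1, 7, 4, 0, 4, 1], .y [3, 6], .l [2, 1, 3, 1, 4], .l [2, 1, 3, 1, 4], .l [6, 2, 5, 4, 6, 4, 1]]),
([p 4 1, g, s 1 0, s 3 2, g, p 0 3, g, m 5 0, p 6 4, g, s 2 5, g, p 0 6, g], .hi 2, [.l [7, 1, 11, 9, 1, 6, 2, 4, 1, 6, 4, 1], .l [3, 10, 6, 7, 11, 9, 6], .l [4, 1, 9, 5, 8, 10, 6, 8, 1, 5, 1, 5, 3], .l [7, 3, 11, 7, 8, 6, 6, 8, 4, 5], .l [2, 1, 9, 7, 8, 10, 8, 8, 3, 7, 5, 5, 1], .l [11, 14, 12, 12, 2, 4, 1, 7, 3, 5, 3, 5, 3], .l [2, 1, 7, 5, 6, 8, 6, 6, 3, 5, 3, 3, 1], .l [12, 8, 11, 4, 2, 5, 2, 3, 4, 6, 4, 1], .l [2, 1, 9, 7, 8, 10, 8, 8, 5, 7, 3,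 5, 1], .l [11, 14, 12, 12, 2, 4, 1, 5, 1, 7, 5, 3, 1], .l [5, 1, 11, 9, 6, 4, 4, 8, 6, 3], .l [0, 1, 1, 8, 12, 10, 7], .l [0, 1, 9, 7, 8, 10, 6, 8, 1, 5, 1, 5, 3], .l [5, 1, 2, 9, 6, 7, 1, 8, 4, 5], .l [0, 1, 1, 10, 12, 8, 9], .l [0, 1, 11, 9, 6, 10, 8, 8, 1, 5, 1, 5, 3], .y [0, 2, 12, 8], .l [5, 1, 7, 2, 11, 6, 1, 1, 6, 3], .l [9, 12, 10, 10, 2, 4, 1, 5, 1, 5, 3, 1, 3], .l [0, 1, 13, 11, 6, 8, 6, 8, 1, 5, 1, 5, 3]]),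
([p 3 1, g, s 1 0, s 2 0, g, p 0 2, g, m 4 0, p 5 3, g, s 0 4, g, p 0 5, g], .hi 3, [.l [4, 3, 9, 5, 6, 10, 8, 5], .l [4, 10, 5, 6, 12, 10, 7], .l [4, 3, 9, 5, 6], .l [4, 10, 5, 7, 1, 10, 8, 5], .l [2, 1, 9, 7, 1], .l [5, 1, 6, 4, 1], .y [3, 5], .l [6, 10, 3, 5, 1, 10, 8, 5], .l [2, 1, 9, 7, 3], .l [5, 1, 6, 4, 1], .l [2, 1, 7, 5, 6, 10, 8, 5], .l [2, 1, 7, 5, 6], .l [5, 1, 9, 7, 1], .r 1507 [1, 6, 2, 3, 4, 5] [1, 1, 1, 1, 1, 1], .l [2, 1, 7, 5, 8, 10, 6, 7], .l [2, 1, 7, 5, 8], .l [5, 1, 11, 9, 1], .l [2, 1, 7, 5, 8], .l [2, 1, 7, 5, 10, 3, 4, 1], .l [2, 1, 7, 5, 10], .l [5, 1, 13, 11, 1]]),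
([p 2 1, g, s 1 0, s 0 0, g, m 3 0, p 4 2, g, s 0 3, g, p 0 4, g], .lo 3, [.l [4, 3, 7, 3, 4, 8, 6, 3], .l [4, 3, 7, 3, 4], .l [4, 8, 3, 4, 10, 8, 5], .c, .y [3], .l [4, 8, 3, 5, 1, 8, 6, 3], .r 1508 [1, 5, 2, 3, 4] [1, 1, 1, 1, 1, 1], .l [2, 1, 7, 5, 1], .l [2, 1, 5, 3, 1], .l [2, 1, 5, 3, 4, 8, 6, 3], .l [8, 4, 7, 4, 9, 4, 1], .l [2, 1, 5, 3, 4], .l [2, 1, 5, 3, 6, 8, 4, 5], .l [10, 6, 9, 6, 9, 2, 6], .l [2, 1, 5, 3, 6], .l [2, 1, 5, 3, 8, 3, 4, 1], .l [5, 7, 11, 5, 9, 0, 4], .l [2, 1, 5, 3, 8]]),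
([p 3 1, g, s 1 0, m 0 2, g, m 2 0, g, m 4 0, p 0 3, g, s 0 4, g], .lo 8, [.l [1, 10, 8, 7, 8], .l [2, 9], .l [0, 3, 1, 7, 8], .y [0, 2, 8], .l [4, 7, 5, 1, 7, 5, 4], .l [5, 9], .l [4, 7, 5, 1, 7, 5, 4], .l [4, 5, 3, 1, 5, 3, 2], .l [6, 10, 3, 2, 8], .l [7, 9], .l [3, 10, 6, 1, 7, 1, 4, 2, 5], .l [3, 8, 4, 1, 5, 1, 2, 0, 3], .l [12, 4, 1], .l [3, 8, 4, 1, 5, 1, 6, 4, 5], .l [7, 8, 0, 8], .l [10, 2, 10], .l [3, 8, 4, 1, 5, 1, 8, 6, 3], .l [7, 8, 0, 10]]),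
([p 2 1, g, s 1 0, m 0 0, g, m 3 0, p 0 2, g, s 0 3, g], .hi 3, [.l [4, 3, 7, 3, 4], .l [1, 8, 6, 2], .l [2, 4], .y [3], .l [2, 1, 7, 5, 1], .l [2, 1, 7, 5, 1], .r 1510 [1, 4, 2, 3] [1, 1, 1, 1, 1], .l [2, 1, 5, 3, 2], .l [2, 1, 5, 3, 4], .l [2, 1, 5, 3, 4], .l [2, 1, 9, 4, 0, 6, 3], .l [2, 1, 5, 3, 4], .l [2, 1, 5, 3, 6], .l [2, 1, 5, 3, 6], .l [8, 2, 7, 6, 8, 4, 1]]),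
([p 3 1, g, s 1 0, p 2 0, g, p 0 2, g, m 4 0, p 0 3, g, s 0 4, g], .lo 8, [.l [1, 10, 8, 7, 8], .l [2, 9], .l [0, 3, 1, 7, 8], .y [0, 2, 8], .l [3, 7], .l [4, 7, 5, 1, 7, 5, 4], .l [5, 9], .l [4, 7, 5, 1, 7, 5, 4], .l [6, 10, 3, 2, 8], .l [7, 9], .l [3, 10, 6, 1, 7, 1, 4, 2, 5], .l [3, 8, 4, 1, 5, 1, 2, 0, 3], .l [12, 4, 1], .l [3, 8, 4, 1, 5, 1, 6, 4, 5], .l [7, 8, 0, 8], .l [10, 2, 10], .l [3, 8, 4, 1, 5, 1, 8, 6, 3], .l [7, 8, 0, 10]]),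
([p 2 1, g, s 1 0, p 0 0, g, m 3 0, p 0 2, g, s 0 3, g], .lo 3, [.l [4, 3, 7, 3, 4], .l [2, 4], .l [1, 8, 6, 2], .c, .y [3], .l [2, 1, 7, 5, 1], .r 1512 [1, 4, 2, 3] [1, 1, 1, 1, 1], .l [2, 1, 7, 5, 1], .l [2, 1, 5, 3, 1], .l [2, 1, 5, 3, 4], .l [2, 1, 9, 4, 0, 6, 3], .l [2, 1, 5, 3, 4], .l [2, 1, 5, 3, 6], .l [8, 2, 7, 6, 8, 4, 1], .l [2, 1, 5, 3, 6]]),
([p 2 1, g, s 1 0, g, m 3 0, p 4 2, g, s 0 3, g, p 0 4, g], .top 3, [.r 1506 [1, 2, 3] [1, 1, 3], .r 1509 [1, 2, 3, 4] [1, 1, 1, 1, 1], .r 1513 [1, 2, 3] [1, 1, 1, 3], .r 1511 [1, 2, 3] [1, 1, 1, 3]]),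
([p 2 1, g, s 1 0, g, m 7 0, p 5 2, g, p 3 0, g, p 4 3, g, p 6 4, g, p 0 5, p 0 6, g, s 0 7, g], .hi 2, [.l [12, 8, 10, 13, 5, 14, 5, 9, 10, 2, 4, 2, 5], .l [3, 7, 3, 4, 12, 10, 13], .l [4, 1, 6, 2, 4, 1, 10, 8, 11], .l [12, 15, 9, 16, 3, 7, 10, 1, 6, 3, 4, 6, 1, 4, 1], .l [3, 7, 3, 4, 12, 10, 13], .r 1068 [1, 8, 2] [1, 1, 2, 12], .l [12, 13, 11, 11, 9, 11, 7, 12, 3, 8, 4, 2, 3], .l [0, 1, 1, 4, 12, 10, 13], .l [0, 1, 6, 4, 4, 1, 10, 8, 11], .l [1, 5, 3, 6, 12, 8, 13, 3, 7, 7, 5, 7, 5], .l [0, 1, 1, 6, 8, 6, 10, 8, 11], .l [0, 1, 8, 6, 6, 3, 10, 6, 11], .l [1, 5, 3, 8, 10, 8, 10, 6, 11, 3, 5, 7, 5], .l [0, 1, 1, 8, 10, 8, 8, 6, 8, 6, 9], .l [0, 1, 10, 8, 8, 5, 10, 4, 11], .l [1, 5, 3, 10, 13, 11, 11, 9, 9, 7, 6,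 4, 7], .l [0, 1, 1, 10, 12, 4, 13], .l [0, 1, 12, 10, 10, 7, 10, 2, 11], .y [0, 2, 13, 5], .l [0, 1, 1, 11, 11, 8, 8, 6, 6, 4, 6, 4, 5], .l [6, 16, 11, 8, 13, 14, 10, 6, 6, 4, 8, 5, 1, 4, 1], .l [10, 8, 14, 5, 12, 14, 12, 6, 2, 7, 1, 6, 1], .l [6, 16, 11, 8, 13, 14, 10, 6, 6, 4, 8, 5, 1, 4, 1], .l [10, 8, 14, 5, 12, 12, 10, 6, 2, 7, 1, 6, 1], .l [8, 18, 11, 6, 13, 3, 1, 5, 6, 10, 5, 1, 1, 6, 3], .l [10, 13, 7, 14, 3, 7, 10, 1, 6, 3, 4, 8, 3, 6, 1], .l [8, 18, 11, 6, 13, 3, 1, 5, 6, 10, 5, 1, 1, 6, 3]]),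
([p 2 1, g, s 1 0, g, m 7 0, p 4 2, g, p 3 0, g, p 5 3, g, p 0 4, p 6 5, g, p 0 6, g, s 0 7, g], .hi 7, [.l [9, 6, 8, 3, 10, 6, 13], .l [4, 3, 6, 2, 6, 1, 8, 4, 11], .l [9, 6], .l [9, 4, 8, 5, 10, 4, 13], .l [11, 14, 13, 13, 11, 11, 6, 9, 5, 7, 1, 7, 2, 4, 5], .l [9, 4], .l [9, 1, 12, 8, 15], .r 1515 [1, 2, 8, 3, 4, 5, 7] [1, 1, 1, 1, 1, 1, 3, 1], .l [9, 1], .l [9, 1, 10, 8, 10, 8, 13], .l [7, 8], .l [9, 1], .l [11, 3, 3, 1, 10, 6, 13], .l [7, 10], .l [11, 3], .l [7, 10], .l [7, 13, 15, 13, 8], .l [7, 13], .l [14, 6], .y [7, 14, 12, 9], .l [7, 15, 10, 1, 11, 9, 3, 8, 11, 1, 3, 5, 1], .l [7, 15], .l [16, 8], .l [7, 15, 10, 1, 11, 9, 11, 2, 6], .l [2, 1, 11, 4, 5, 3, 3, 0, 11, 8, 2, 4, 7, 4, 1], .l [7, 17], .l [18,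 10]]),
([p 2 1, g, s 1 0, g, m 6 0, p 3 2, g, p 4 0, g, p 0 3, p 5 4, g, p 0 5, g, s 0 6, g], .hi 7, [.l [9, 6, 8, 3, 8, 4, 11], .l [4, 3, 6, 2, 6, 1, 6, 2, 9], .l [9, 6], .l [9, 4, 8, 5, 8, 2, 11], .l [9, 12, 11, 11, 6, 9, 5, 7, 1, 7, 2, 4, 5], .l [9, 4], .l [9, 1, 10, 6, 13], .r 1516 [1, 2, 7, 3, 4, 5, 6] [1, 1, 1, 1, 1, 1, 1, 1], .l [9, 1], .l [9, 1, 10, 6, 13], .l [7, 8], .l [9, 1], .l [7, 8], .l [7, 11, 13, 11, 6], .l [7, 11], .l [12, 4], .y [7, 12, 10], .l [6, 9, 7, 14, 1, 7, 1, 6, 3], .l [7, 13], .l [14, 6], .l [6, 9, 7, 12, 10, 1, 10, 7, 1, 6, 3], .l [7, 15, 10, 1, 4, 11, 10, 8, 1, 7, 1, 3, 5], .l [7, 15], .l [16, 8]]),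
([p 2 1, g, s 1 0, g, m 9 0, p 3 2, g, p 4 3, p 5 4, g, p 6 5, g, p 7 6, g, p 8 7, g, p 0 8, g, s 0 9, g], .lo 16, [.l [1, 7, 5, 15, 15, 13, 13, 11, 11, 9, 9, 7, 7, 6, 6, 4, 5], .l [2, 17], .l [0, 3, 1, 15, 15, 13, 13, 11, 11, 9, 9, 7, 7, 6, 6, 4, 5], .y [0, 2, 16, 14, 12, 10, 8, 7, 5], .l [3, 7, 3, 15, 15, 13, 13, 11, 11, 9, 9, 7, 7, 6, 6, 2, 5], .l [4, 17], .l [3, 7, 3, 15], .l [3, 5, 1, 13], .l [7, 17, 17, 15, 15, 13, 13, 11, 11, 9, 6], .l [7, 17], .l [5, 9, 8, 18, 12, 10, 10, 8, 8, 6, 6, 4, 4, 2, 3], .l [0, 10, 17, 12, 4, 6, 11, 8, 13], .l [10, 17], .l [8, 12, 11, 11, 10, 10, 8, 15, 9, 7, 7, 5, 5, 3, 3, 1, 1, 1], .l [0, 12, 17, 10, 4, 6, 11, 11, 9, 6, 11], .l [12, 17], .l [10, 14, 13, 13, 11, 11, 10, 10, 8,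 13, 7, 5, 5, 3, 3, 1, 1, 1], .l [0, 14, 17, 8, 4, 6, 11, 11, 9, 9, 7, 4, 9], .l [14, 17], .l [12, 16, 15, 15, 13, 13, 11, 11, 10, 10, 8, 11, 5, 3, 3, 1, 1, 1], .l [15, 18, 16, 16, 14, 14, 12, 12, 10, 10, 9, 9, 7, 8, 6, 1, 4, 2, 1], .l [16, 17], .l [14, 18, 17, 17, 15, 15, 13, 13, 11, 11, 10, 10, 8, 9, 3, 1, 1, 1], .l [15, 16, 14, 14, 12, 12, 10, 10, 8, 8, 7, 7, 5, 8, 6, 1, 2, 0, 1], .l [20, 15, 19, 18, 18, 16, 16, 15, 15, 13, 13, 11, 11, 9, 9, 7, 7, 5], .l [15, 16, 14, 14, 12, 12, 10, 10, 8, 8, 7, 7, 5, 5, 0, 5], .l [5, 7, 6, 16, 18, 16, 16, 14, 14, 12, 12, 10, 10, 8, 1], .l [5, 7, 6, 16, 18, 16, 16, 14, 14, 12, 12, 10, 10, 8, 1], .l [13, 14, 12, 12, 10, 10, 8, 8, 7, 7, 5, 8, 1, 8, 6, 0, 5]]),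
([p 2 1, g, s 1 0, g, m 8 0, p 3 2, g, p 4 3, p 5 4, g, p 6 5, g, p 7 6, g, p 0 7, g, s 0 8, g], .lo 14, [.l [1, 7, 5, 13, 13, 11, 11, 9, 9, 7, 7, 6, 6, 4, 5], .l [2, 15], .l [0, 3, 1, 13, 13, 11, 11, 9, 9, 7, 7, 6, 6, 4, 5], .y [0, 2, 14, 12, 10, 8, 7, 5], .l [3, 7, 3, 13, 13, 11, 11, 9, 9, 7, 7, 6, 6, 2, 5], .l [4, 15], .l [3, 7, 3, 13], .l [3, 5, 1, 11], .l [7, 15, 15, 13, 13, 11, 11, 9, 6], .l [7, 15], .l [5, 9, 8, 16, 10, 8, 8, 6, 6, 4, 4, 2, 3], .l [0, 10, 15, 10, 4, 6, 9, 6, 11], .l [10, 15], .l [9, 12, 10, 10, 9, 9, 7, 7, 2, 9], .l [0, 12, 15, 8, 4, 6, 9, 9, 7, 4, 9], .l [12, 15], .l [11, 14, 12, 12, 10, 10, 9, 9, 7, 7, 2, 7], .l [13, 16, 14, 14, 12, 12, 10, 10, 9, 9, 7, 8, 6, 1, 4, 2, 1], .l [14, 15],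 .l [13, 16, 14, 14, 12, 12, 10, 10, 9, 9, 7, 7, 2, 1], .l [13, 14, 12, 12, 10, 10, 8, 8, 7, 7, 5, 8, 6, 1, 2, 0, 1], .r 1518 [1, 2, 3, 4, 5, 6, 7, 9, 8] [1, 1, 1, 1, 1, 1, 1, 1, 1], .l [13, 14, 12, 12, 10, 10, 8, 8, 7, 7, 5, 5, 0, 5], .l [5, 7, 6, 14, 16, 14, 14, 12, 12, 10, 10, 8, 1], .l [5, 7, 6, 14, 16, 14, 14, 12, 12, 10, 10, 8, 1], .l [11, 12, 10, 10, 8, 8, 7, 7, 5, 8, 1, 8, 6, 0, 5]]),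
([p 2 1, g, s 1 0, g, m 7 0, p 3 2, g, p 4 3, p 5 4, g, p 6 5, g, p 0 6, g, s 0 7, g], .lo 12, [.l [1, 7, 5, 11, 11, 9, 9, 7, 7, 6, 6, 4, 5], .l [2, 13], .l [0, 3, 1, 11, 11, 9, 9, 7, 7, 6, 6, 4, 5], .y [0, 2, 12, 10, 8, 7, 5], .l [3, 7, 3, 11, 11, 9, 9, 7, 7, 6, 6, 2, 5], .l [4, 13], .l [3, 7, 3, 11], .l [3, 5, 1, 9], .l [7, 13, 13, 11, 11, 9, 6], .l [7, 13], .l [5, 9, 8, 14, 8, 6, 6, 4, 4, 2, 3], .l [0, 10, 13, 8, 4, 6, 7, 4, 9], .l [10, 13], .l [9, 12, 10, 10, 9, 9, 7, 7, 2, 7], .l [11, 14, 12, 12, 10, 10, 9, 9, 7, 8, 6, 1, 4, 2, 1], .l [12, 13], .l [11, 14, 12, 12, 10, 10, 9, 9, 7, 7, 2, 1], .l [11, 12, 10, 10, 8, 8, 7, 7, 5, 8, 6, 1, 2, 0, 1], .r 1519 [1, 2, 3, 4, 5, 6, 8, 7] [1, 1, 1, 1, 1, 1, 1, 1], .l [11,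 12, 10, 10, 8, 8, 7, 7, 5, 5, 0, 5], .l [5, 7, 6, 12, 14, 12, 12, 10, 10, 8, 1], .l [5, 7, 6, 12, 14, 12, 12, 10, 10, 8, 1], .l [9, 10, 8, 8, 7, 7, 5, 8, 1, 8, 6, 0, 5]]),
([p 2 1, g, s 1 0, g, m 6 0, p 3 2, g, p 4 3, p 5 4, g, p 0 5, g, s 0 6, g], .lo 10, [.l [1, 7, 5, 9, 9, 7, 7, 6, 6, 4, 5], .l [2, 11], .l [0, 3, 1, 9, 9, 7, 7, 6, 6, 4, 5], .y [0, 2, 10, 8, 7, 5], .l [3, 7, 3, 9, 9, 7, 7, 6, 6, 2, 5], .l [4, 11], .l [3, 7, 3, 9], .l [3, 5, 1, 7], .l [7, 11, 11, 9, 6], .l [7, 11], .l [5, 9, 8, 12, 6, 4, 4, 2, 3], .l [9, 12, 10, 10, 9, 9, 7, 8, 6, 1, 4, 2, 1], .l [10, 11], .l [9, 12, 10, 10, 9, 9, 7, 7, 2, 1], .l [9, 10, 8, 8, 7, 7, 5, 8, 6, 1, 2, 0, 1], .r 1520 [1, 2, 3, 4, 5, 7, 6] [1, 1, 1, 1, 1, 1, 1], .l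 [9, 10, 8, 8, 7, 7, 5, 5, 0, 5], .l [5, 7, 6, 10, 12, 10, 10, 8, 1], .l [5, 7, 6, 10, 12, 10, 10, 8, 1], .l [7, 8, 7, 7, 5, 8, 1, 8, 6, 0, 5]]),
([p 2 1, g, s 1 0, g, m 5 0, p 3 2, g, p 0 3, p 4 0, g, p 0 4, g, s 0 5, g], .hi 8, [.l [0, 10, 7, 4, 7, 9, 7, 4, 7], .l [4, 10, 7, 4, 2, 2, 5, 7, 5, 2, 5], .l [10, 7], .l [0, 10, 5, 2, 7, 9, 5, 2, 7], .l [6, 13, 9, 1, 5, 7, 4, 0, 2, 4, 1], .l [10, 5], .l [5, 10, 2, 13, 4, 10, 7], .r 1517 [1, 2, 3, 6, 4, 5] [1, 1, 1, 1, 1, 1, 1], .l [10, 2], .r 1521 [1, 2, 3, 6, 4, 5] [1, 1, 1, 1, 1, 1], .l [5, 10, 1, 11, 9, 6, 9], .l [8, 9], .l [10, 1], .y [8, 10], .l [0, 8, 11, 8, 4, 6, 7, 4, 7], .l [8, 11], .l [12, 3], .l [2, 1, 7, 9, 6, 2, 4, 5, 2], .l [0, 8, 13, 10, 4, 6, 9, 6, 3],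 .l [8, 13], .l [14, 5]]),
([p 2 1, g, s 1 0, g, m 4 0, p 3 2, g, p 0 3, p 0 0, g, s 0 4, g], .lo 8, [.l [12, 5, 11, 10, 10, 8, 5], .l [2, 9], .l [1, 7, 5, 7], .l [2, 1, 4, 2, 2, 3, 2], .l [12, 5, 11, 10, 10, 8, 3], .l [4, 9], .l [3, 7, 3, 7], .l [3, 5, 1, 5], .l [7, 9, 6], .l [7, 9], .l [5, 9, 8, 10, 4, 2, 3], .y [8], .l [12, 7, 11, 10, 10, 8, 1], .r 1522 [1, 2, 3, 5, 4] [1, 1, 1, 1, 1, 1], .l [12, 7, 11, 10, 10, 8, 1], .l [10, 5, 9, 8, 8, 6, 7], .l [5, 7, 6, 8, 10, 8, 1], .l [10, 5, 9, 8, 8, 6, 7]]),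
([p 3 1, g, s 1 0, s 0 0, g, m 0 2, g, s 5 0, g, m 6 0, p 4 3, g, p 0 4, s 2 5, g, s 0 6, g], .hi 3, [.l [4, 3, 11, 7, 8, 10, 8, 11], .l [4, 12, 7, 8, 12, 10, 13], .l [4, 3, 11, 7, 8], .y [3], .l [4, 12, 7, 9, 1, 10, 8, 11], .l [2, 1, 11, 9, 1], .l [3, 12, 8, 1, 9, 1, 11, 6, 1, 4, 6, 7], .l [5, 1, 9, 4, 7, 8, 4], .l [6, 12, 5, 7, 1, 10, 8, 11], .l [2, 1, 11, 9, 3], .l [7, 3, 11, 4, 9, 10, 4], .l [8, 12, 3, 5, 1, 10, 8, 11], .l [2, 1, 11, 9, 5], .l [6, 12, 5, 12, 12, 9, 11, 6, 10, 8, 6, 1], .l [2, 1, 9, 7, 8, 10, 8, 11], .l [2, 1, 9, 7, 8], .l [12, 8, 11, 4, 11, 6, 12], .l [2, 1, 9, 7, 8], .l [4, 10, 5, 10, 12, 9, 1, 10, 8, 9], .l [2, 1, 9, 7, 11], .l [4, 10, 5, 10, 12, 9, 1, 10, 8, 9], .l [4, 10, 5, 10, 2, 11,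 11, 5, 2, 1], .l [4, 10, 5, 10, 14, 11, 1, 12, 10, 5], .l [2, 1, 9, 7, 13], .l [4, 10, 5, 10, 14, 11, 1, 12, 10, 5]]),
([p 2 0, g, s 4 0, g, m 0 1, g, m 5 0, p 3 2, g, p 0 3, s 1 4, g, s 0 5, g], .lo 4, [.l [4, 3], .l [6, 3, 8, 2, 4, 7, 4], .l [6, 3], .l [5, 9, 3, 9, 4, 8, 10, 8, 1], .y [2, 4, 10], .l [6, 1, 8, 2, 4, 7, 4, 7], .l [6, 1], .l [5, 9, 3, 9, 2, 8, 10, 8, 3], .l [6, 1, 8, 2, 4, 7, 4, 7], .l [6, 1], .l [4, 5], .l [4, 5], .l [4, 8, 10, 8, 11], .l [9, 4], .l [4, 8], .l [3, 12, 7, 2, 6, 1, 7, 5, 2, 5], .l [12, 7], .l [4, 11], .l [3, 14, 9, 2, 8, 3, 9, 5, 2, 5], .l [14, 9], .l [4, 13]]),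
([p 3 1, g, s 1 0, g, m 5 2, p 4 3, g, p 0 4, s 2 0, g, s 0 5, g], .lo 7, [.l [1, 7, 5, 6, 6, 4, 7], .l [2, 8], .l [0, 3, 1, 6, 6, 4, 7], .y [0, 2, 7, 5], .l [3, 7, 3, 6, 6, 2, 7], .l [4, 8], .l [3, 7, 3, 6], .l [4, 11, 4, 1, 7, 1, 2, 0, 2, 3], .l [7, 8], .l [4, 11, 4, 1, 4, 2, 7], .l [3, 5, 1, 5, 5, 4, 4, 0, 3], .r 1456 [2, 3, 4, 6, 5] [3, 1, 1, 1, 1], .l [3, 5, 1, 5, 7, 6, 6, 2, 5], .l [6, 7, 5, 5, 0, 7], .l [4, 9, 2, 9, 6, 0, 6], .l [3, 5, 1, 5, 9, 8, 8, 4, 1], .l [4, 9, 2, 9, 6, 0, 6]]),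
([p 2 1, g, s 1 0, s 0 0, g, s 4 0, g, m 5 0, p 3 2, g, p 0 3, s 0 4, g, s 0 5, g], .lo 11, [.l [4, 3, 9, 5, 7, 9, 6, 9], .l [13, 10, 12, 4, 4, 2, 5], .l [4, 3, 9, 5, 7, 9, 6], .l [2, 1, 7, 5, 5, 7, 6], .l [4, 8, 3, 8, 8, 5, 1, 6, 4, 5], .l [2, 1, 12, 7, 4, 8, 5, 2, 6, 7], .l [13, 7, 12, 7, 7, 5, 8], .r 1524 [1, 6, 2, 3, 4, 5] [1, 1, 1, 1, 1, 1, 1], .y [5, 11], .l [2, 1, 12, 7, 4, 8, 5, 2, 6, 7], .l [13, 5, 12, 9, 9, 7, 1], .r 1525 [6, 2, 3, 4, 5] [4, 1, 1, 1, 1, 1], .r 1526 [1, 6, 2, 3, 5] [1, 4, 1, 1, 1], .l [10, 12, 9], .l [10, 12, 9], .l [2, 1, 12, 7, 2, 8, 5, 2, 6, 7], .l [2, 1, 10, 5, 2, 6, 8, 5, 2, 7], .l [2, 1, 10, 5, 2, 6, 8, 5, 2, 7], .l [11, 5, 10, 7, 7, 5, 8], .l [2, 1, 10, 5, 2, 6, 10, 7, 2, 3], .l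 [2, 1, 10, 5, 2, 6, 10, 7, 2, 3], .l [11, 5, 10, 7, 7, 5, 10]]),
([p 2 1, g, s 1 0, s 4 0, g, m 5 0, p 3 2, g, p 0 3, s 0 4, g, s 0 5, g], .lo 9, [.l [4, 3, 7, 3, 7, 7, 4, 6, 4, 5], .l [4, 3, 7, 3, 7, 7, 4, 6, 4, 5], .l [4, 3, 7, 3, 5, 7, 4], .l [11, 5, 10, 9, 9, 7, 4, 3], .y [3, 9], .l [4, 8, 3, 8, 8, 5, 1, 6, 4, 5], .l [11, 5, 10, 7, 7, 5, 1], .l [4, 8, 3, 8, 8, 5, 1, 6, 4, 5], .l [4, 6, 1, 6, 6, 3, 1, 4, 2, 3], .l [8, 10, 7], .l [8, 10, 7], .l [2, 1, 5, 3, 7, 7, 4, 6, 4, 5], .l [2, 1, 8, 5, 2, 4, 6, 5, 2, 5], .l [2, 1, 8, 5, 2, 4, 6, 5, 2, 5], .l [9, 5, 8, 5, 5, 3, 6], .l [2, 1, 8, 10, 7, 3, 7, 2, 4, 1], .l [2, 1, 8, 5, 2, 4, 8, 7, 2, 3], .l [9, 5, 8, 5, 5, 3, 8]]),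
([p 2 1, g, s 1 0, g, s 4 0, g, m 5 0, p 3 2, g, p 0 3, s 0 4, g, s 0 5, g], .top 3, [.r 1528 [1, 2, 3, 4, 5] [1, 1, 1, 1, 1], .r 1527 [1, 2, 3, 4, 5] [1, 1, 1, 1, 1, 1], .r 1513 [1, 2, 5] [1, 3, 4, 1], .r 1511 [1, 2, 5] [1, 3, 4, 1]]),
([p 2 1, g, s 1 0, g, m 6 0, p 3 2, g, p 0 3, s 5 4, g, s 4 0, g, p 0 5, g, s 0 6, g], .lo 7, [.l [1, 7, 5, 6, 6, 4, 11], .l [2, 8], .l [0, 3, 1, 6, 6, 4, 11], .y [0, 2, 7, 5], .l [3, 7, 3, 6, 6, 2, 11], .l [4, 8], .l [3, 7, 3, 6], .l [3, 5, 1, 4], .l [4, 15, 8, 1, 11, 1, 2, 0, 6, 1], .l [7, 8], .l [6, 9, 7, 7, 2, 1], .l [6, 12, 3, 7, 1, 8, 6, 2, 7, 5, 2, 5], .l [6, 12, 3, 12, 8, 5, 5, 0, 7], .l [6, 7, 5, 5, 0, 7], .l [6, 12, 3, 7, 1, 8, 6, 2, 2, 0, 2, 3], .l [6, 10, 1, 5, 1, 6,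 4, 5, 7, 2, 4, 5], .l [9, 12, 9, 12, 1, 7, 1, 8, 6, 2, 4, 5], .l [6, 7, 5, 5, 0, 9], .l [6, 10, 1, 10, 8, 5, 10, 8, 1, 2, 0, 3], .l [12, 3, 13, 8, 8, 6, 11], .l [6, 7, 5, 5, 0, 11], .l [4, 13, 6, 13, 6, 0, 10], .l [12, 3, 15, 10, 10, 8, 5], .l [4, 13, 6, 13, 6, 0, 10]]),
([p 3 1, g, s 1 0, g, m 0 2, g, m 6 0, p 4 3, g, p 0 4, s 2 5, g, s 5 0, g, s 0 6, g], .lo 9, [.l [1, 9, 7, 8, 8, 6, 11], .l [2, 10], .l [0, 3, 1, 8, 8, 6, 11], .y [0, 2, 9, 7], .l [3, 9, 5, 8, 8, 4, 11], .l [4, 10], .l [3, 9, 5, 8], .l [5, 9, 3, 8, 8, 2, 11], .l [6, 10], .l [3, 9, 5, 9, 7, 6, 6, 2, 9], .l [3, 7, 3, 7, 5, 4, 4, 0, 7], .l [6, 15, 6, 1, 9, 1, 2, 0, 4, 5], .l [9, 10], .l [6, 15, 6, 1, 6, 4, 9], .l [8, 10, 5, 8, 4, 7, 9, 2, 4, 7],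 .l [3, 7, 3, 7, 9, 8, 8, 4, 9], .l [8, 9, 7, 7, 0, 9], .l [8, 10, 5, 8, 4, 7, 7, 0, 2], .l [11, 14, 11, 12, 7, 10, 6, 2, 4, 7], .l [3, 7, 3, 7, 11, 10, 10, 6, 9], .l [8, 9, 7, 7, 0, 11], .l [6, 13, 4, 13, 8, 0, 10], .l [3, 7, 3, 7, 13, 12, 12, 8, 5], .l [6, 13, 4, 13, 8, 0, 10]]),
([p 2 1, g, s 1 0, g, m 5 0, p 3 2, g, p 0 3, s 0 4, g, s 4 0, g, s 0 5, g], .lo 8, [.l [4, 3, 6, 2, 4, 5, 2, 7], .l [10, 7, 9, 4, 4, 2, 7], .l [4, 3, 6, 2, 4, 5, 2], .l [2, 1, 4, 2, 2, 3, 2], .l [2, 1, 9, 5, 2, 5, 7, 5, 2, 5], .l [10, 5, 9, 6, 6, 4, 7], .r 1531 [1, 6, 2, 3, 4, 5] [1, 1, 1, 1, 1, 1, 1], .r 1526 [1, 6, 2, 3, 5] [1, 1, 1, 3, 1], .l [7, 9, 6], .l [7, 9, 6], .l [5, 9, 8, 12, 6, 2, 5], .l [2, 1, 7, 9, 6, 2, 4, 5, 2, 5], .l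 [2, 1, 7, 9, 6, 2, 4, 5, 2, 5], .l [14, 9, 13, 12, 12, 10, 1], .y [8, 10], .l [2, 1, 7, 9, 6, 2, 4, 5, 2, 5], .r 1530 [1, 2, 3, 4, 6, 5] [1, 1, 1, 1, 1, 1, 1], .l [14, 9, 13, 12, 12, 10, 3], .l [2, 1, 7, 11, 8, 2, 4, 7, 4, 1], .l [5, 7, 6, 10, 12, 8, 1], .l [12, 7, 11, 10, 10, 8, 9]]),
([p 2 1, g, s 1 0, g, p 4 0, g, m 5 0, p 3 2, g, p 0 3, s 0 4, g, s 0 5, g], .lo 9, [.l [1, 9, 7, 8, 8, 6, 9], .l [2, 10], .l [0, 3, 1, 8, 8, 6, 9], .y [0, 2, 9, 7], .l [3, 9, 5, 8, 8, 4, 9], .l [4, 10], .l [3, 9, 5, 8], .l [4, 8], .l [5, 9, 3, 8, 8, 2, 9], .l [6, 10], .l [3, 9, 5, 9, 7, 6, 6, 2, 7], .l [3, 7, 3, 7, 5, 4, 4, 0, 5], .l [6, 13, 4, 1, 7, 1, 2, 0, 2, 3], .l [9, 10], .l [6, 13, 4, 1, 4, 2, 7], .r 1445 [2, 3, 4, 6, 5]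 [3, 1, 1, 1, 1, 1], .l [3, 7, 3, 7, 9, 8, 8, 4, 7], .l [8, 9, 7, 7, 0, 9], .l [6, 11, 2, 11, 8, 0, 8], .l [3, 7, 3, 7, 11, 10, 10, 6, 3], .l [6, 11, 2, 11, 8, 0, 8]]),
([p 3 1, g, s 1 0, g, m 0 2, g, m 6 0, p 4 3, g, p 0 4, s 2 5, g, s 0 6, g, s 5 0, g], .lo 9, [.l [1, 9, 7, 8, 8, 6, 9], .l [2, 10], .l [0, 3, 1, 8, 8, 6, 9], .y [0, 2, 9, 7], .l [3, 9, 5, 8, 8, 4, 9], .l [4, 10], .l [3, 9, 5, 8], .l [5, 9, 3, 8, 8, 2, 9], .l [6, 10], .l [3, 9, 5, 9, 7, 6, 6, 2, 7], .l [3, 7, 3, 7, 5, 4, 4, 0, 5], .l [6, 13, 4, 1, 7, 1, 2, 0, 2, 3], .l [9, 10], .l [6, 13, 4, 1, 4, 2, 7], .l [8, 10, 5, 8, 4, 7, 11, 4, 6, 3], .l [3, 7, 3, 7, 9, 8, 8, 4, 7], .l [8, 9, 7, 7, 0, 9], .l [6, 11, 2, 11, 8, 0, 8], .l [3, 7, 3, 7, 11, 10,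 10, 6, 3], .l [6, 11, 2, 11, 8, 0, 8], .l [6, 11, 2, 11, 8, 0, 8], .l [6, 11, 2, 13, 10, 0, 10], .l [3, 7, 3, 7, 13, 12, 12, 8, 3], .l [6, 11, 2, 13, 10, 0, 10]]),
([p 2 1, g, s 1 0, g, m 5 0, p 3 2, g, p 0 3, s 0 4, g, s 0 5, g, s 4 0, g], .lo 8, [.l [4, 3, 6, 2, 4, 5, 2, 5], .l [10, 7, 9, 4, 4, 2, 9], .l [4, 3, 6, 2, 4, 5, 2], .l [2, 1, 4, 2, 2, 3, 2], .l [2, 1, 9, 5, 2, 5, 9, 7, 2, 3], .l [10, 5, 9, 6, 6, 4, 9], .r 1534 [1, 6, 2, 3, 4, 5] [1, 1, 1, 1, 1, 1, 1], .r 1526 [1, 6, 2, 3, 5] [1, 1, 1, 1, 3], .l [7, 9, 6], .l [7, 9, 6], .l [5, 9, 8, 10, 4, 2, 3], .l [2, 1, 7, 11, 8, 2, 4, 7, 4, 1], .l [2, 1, 7, 11, 8, 2, 4, 7, 4, 1], .l [12, 7, 11, 10, 10, 8, 1], .l [2, 1, 7, 11, 8, 2, 6, 7, 2, 3], .l [2, 1, 7, 11,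 8, 2, 6, 7, 2, 3], .l [10, 5, 9, 8, 8, 6, 7], .y [8, 12], .l [2, 1, 7, 11, 8, 2, 6, 7, 2, 3], .l [5, 7, 6, 8, 12, 10, 1], .l [10, 5, 9, 8, 8, 6, 9]])]

def D05 : List (List (List Item × Qry × List Rf)) := [d05_0, d05_1, d05_2, d05_3]

end Pool.Agent.H63.PU.C161
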