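import Pool.Agent.H63.PU.Ck3

/-! Certificate data, machine generated. -/

namespace Pool.Agent.H63.PU.C161

open Pool.Agent.H63.PU Pool.Agent.H63.PU.Ck3 Pool.Agent.H63.PU.Short

set_option maxRecDepth 20000

def d06_0 : List (List Item × Qry × List Rf) := [
([p 2 1, g, s 1 0, g, m 6 0, p 3 2, g, p 0 3, s 5 4, g, s 0 5, g, m 4 0, g, s 0 6, g], .lo 7, [.l [1, 7, 5, 6, 6, 4, 11], .l [2, 8], .l [0, 3, 1, 6, 6, 4, 11], .y [0, 2, 7, 5], .l [3, 7, 3, 6, 6, 2, 11], .l [4, 8], .l [3, 7, 3, 6], .l [3, 5, 1, 4], .l [4, 15, 8, 1, 11, 1, 2, 0, 6, 1], .l [7, 8], .l [6, 9, 7, 7, 2, 1], .l [6, 12, 3, 7, 1, 8, 6, 2, 7, 5, 2, 5], .l [6, 12, 3, 12, 8, 5, 5, 0, 7], .l [6, 7, 5, 5, 0, 7], .l [6, 10, 1, 5, 1, 6, 4, 5, 7, 2, 4, 5], .l [9, 12,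 9, 12, 1, 7, 1, 8, 6, 2, 4, 5], .l [6, 7, 5, 5, 0, 9], .l [6, 7, 5, 5, 0, 9], .l [6, 10, 1, 10, 8, 5, 10, 8, 1, 2, 0, 3], .l [12, 3, 13, 8, 8, 6, 11], .l [6, 7, 5, 5, 0, 11], .l [4, 13, 6, 13, 6, 0, 10], .l [12, 3, 15, 10, 10, 8, 5], .l [4, 13, 6, 13, 6, 0, 10]]),
([p 2 1, g, s 1 0, g, m 5 0, p 3 2, g, p 0 3, s 0 4, g, m 4 0, g, s 0 5, g], .lo 8, [.l [4, 3, 6, 2, 4, 5, 2, 7], .l [14, 7, 13, 12, 12, 10, 7], .l [4, 3, 6, 2, 4, 5, 2], .l [2, 1, 4, 2, 2, 3, 2], .l [2, 1, 9, 5, 2, 5, 7, 5, 2, 5], .l [14, 7, 13, 12, 12, 10, 5], .l [7, 10, 6, 9, 5, 11, 6, 8, 3], .l [5, 8, 6, 7, 3, 9, 6, 6, 1], .l [7, 9, 6], .l [7, 9, 6], .l [5, 9, 8, 12, 6, 2, 5], .r 1536 [1, 2, 3, 4, 6, 5] [1, 1, 1, 1, 1, 1, 1], .l [5, 10, 1, 11, 9, 6, 9], .l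 [14, 9, 13, 12, 12, 10, 1], .y [8, 10], .l [2, 1, 7, 9, 6, 2, 4, 5, 2, 5], .l [5, 10, 1, 11, 9, 6, 9], .l [14, 9, 13, 12, 12, 10, 3], .l [2, 1, 7, 11, 8, 2, 4, 7, 4, 1], .l [5, 7, 6, 10, 12, 8, 1], .l [12, 7, 11, 10, 10, 8, 9]]),
([p 2 1, g, s 1 0, g, m 4 0, p 3 2, g, p 0 3, s 0 0, g, s 0 4, g], .hi 8, [.l [4, 3, 6, 2, 4, 5, 2, 5], .l [4, 3, 6, 2, 4, 5, 2], .l [12, 5, 11, 10, 10, 8, 5], .r 1529 [1, 2, 3, 5, 4] [1, 1, 1, 1, 1, 1], .r 1533 [1, 2, 3, 5, 4] [1, 1, 1, 1, 1, 1], .l [12, 5, 11, 10, 10, 8, 3], .l [7, 9, 6], .l [5, 9, 8, 10, 4, 2, 3], .l [7, 9, 6], .l [5, 7, 6, 8, 2, 0, 1], .y [8], .r 1532 [1, 2, 3, 5, 4] [1, 1, 1, 1, 1, 1], .l [12, 7, 11, 10, 10, 8, 1], .r 1537 [1, 2, 3, 5, 4] [1, 1, 1, 1, 1, 1], .l [10, 5, 9, 8,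 8, 6, 1], .r 1535 [1, 2, 3, 5, 4] [1, 1, 1, 1, 1, 1], .l [10, 5, 9, 8, 8, 6, 7], .l [5, 7, 6, 8, 10, 8, 1]]),
([p 2 1, g, s 1 0, g, m 7 0, p 6 2, g, m 0 3, g, m 3 4, g, m 4 5, g, p 0 6, m 5 0, g, s 0 7, g], .hi 2, [.l [12, 8, 10, 13, 5, 14, 5, 9, 10, 2, 4, 2, 5], .l [3, 7, 3, 4, 12, 10, 13], .l [4, 1, 6, 2, 4, 1, 10, 8, 11], .l [12, 15, 9, 16, 3, 7, 10, 1, 6, 3, 4, 6, 1, 4, 1], .l [3, 7, 3, 4, 12, 10, 13], .r 1068 [1, 8, 2] [1, 1, 2, 12], .l [12, 13, 11, 11, 9, 11, 7, 12, 3, 8, 4, 2, 3], .l [0, 1, 1, 4, 12, 10, 13], .l [0, 1, 6, 4, 4, 1, 10, 8, 11], .l [0, 1, 6, 4, 4, 1, 8, 6, 9], .l [1, 5, 3, 6, 12, 8, 13, 3, 7, 7, 5, 7, 5], .l [0, 1, 1, 6, 8, 6, 10, 8, 11], .l [0, 1, 8, 6, 6, 3, 10, 6, 11], .l [1, 5, 3, 8, 10, 8, 10, 6,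 11, 3, 5, 7, 5], .l [0, 1, 1, 8, 10, 8, 8, 6, 8, 6, 9], .l [0, 1, 10, 8, 8, 5, 10, 4, 11], .l [1, 5, 3, 10, 13, 11, 11, 9, 9, 7, 6, 4, 7], .l [0, 1, 1, 10, 12, 4, 13], .l [0, 1, 12, 10, 10, 7, 10, 2, 11], .y [0, 2, 13, 5], .l [6, 16, 11, 8, 13, 14, 10, 6, 6, 4, 8, 5, 1, 4, 1], .l [10, 8, 14, 5, 12, 14, 12, 6, 2, 7, 1, 6, 1], .l [6, 16, 11, 8, 13, 14, 10, 6, 6, 4, 8, 5, 1, 4, 1], .l [10, 8, 14, 5, 12, 12, 10, 6, 2, 7, 1, 6, 1], .l [8, 18, 11, 6, 13, 3, 1, 5, 6, 10, 5, 1, 1, 6, 3], .l [10, 13, 7, 14, 3, 7, 10, 1, 6, 3, 4, 8, 3, 6, 1], .l [8, 18, 11, 6, 13, 3, 1, 5, 6, 10, 5, 1, 1, 6, 3]]),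
([p 2 1, g, s 1 0, g, m 7 0, p 5 2, g, m 0 3, g, m 3 4, g, p 0 5, m 4 6, g, m 6 0, g, s 0 7, g], .lo 7, [.l [9, 6, 8, 3, 10, 6, 13], .l [9, 6], .l [4, 3, 6, 2, 6, 1, 8, 4, 11], .l [0, 1, 6, 4, 4, 1, 6, 4, 9], .l [9, 4, 8, 5, 10, 4, 13], .l [9, 4], .l [11, 14, 13, 13, 11, 11, 6, 9, 5, 7, 1, 7, 2, 4, 5], .l [9, 12, 11, 11, 9, 9, 6, 7, 3, 5, 1, 5, 2, 2, 3], .l [9, 1, 12, 8, 15], .l [9, 1], .r 1539 [1, 2, 8, 3, 4, 5, 7] [1, 1, 1, 1, 1, 1, 3, 1], .l [9, 1, 10, 8, 10, 8, 13], .l [9, 1], .l [7, 8], .l [11, 3, 3, 1, 10, 6, 13], .l [11, 3], .l [7, 10], .l [7, 13, 15, 13, 8], .l [14, 6], .l [7, 13], .y [7, 9, 12, 14], .l [7, 15, 10, 1, 11, 9, 3, 8, 11, 1, 3, 5, 1], .l [16, 8], .l [7, 15], .l [2, 1, 11, 4, 5, 3, 3, 0, 11, 8, 2, 4,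 7, 4, 1], .l [18, 10], .l [7, 17]]),
([p 2 1, g, s 1 0, g, m 6 0, p 4 2, g, m 0 3, g, p 0 4, m 3 5, g, m 5 0, g, s 0 6, g], .lo 7, [.l [9, 6, 8, 3, 8, 4, 11], .l [9, 6], .l [4, 3, 6, 2, 6, 1, 6, 2, 9], .l [0, 1, 6, 4, 4, 1, 4, 2, 7], .l [9, 4, 8, 5, 8, 2, 11], .l [9, 4], .l [9, 12, 11, 11, 6, 9, 5, 7, 1, 7, 2, 4, 5], .l [7, 10, 9, 9, 6, 7, 3, 5, 1, 5, 2, 2, 3], .l [9, 1, 10, 6, 13], .l [9, 1], .r 1540 [1, 2, 7, 3, 4, 5, 6] [1, 1, 1, 1, 1, 1, 1, 1], .l [9, 1, 10, 6, 13], .l [9, 1], .l [7, 8], .l [7, 11, 13, 11, 6], .l [12, 4], .l [7, 11], .y [7, 10, 12], .l [6, 9, 7, 14, 1, 7, 1, 6, 3], .l [14, 6], .l [7, 13], .l [7, 15, 10, 1, 4, 11, 10, 8, 1, 7, 1, 3, 5], .l [16, 8], .l [7, 15]]),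
([p 2 1, g, s 1 0, g, m 5 0, p 3 2, g, p 0 3, m 0 4, g, m 4 0, g, s 0 5, g], .lo 8, [.l [0, 10, 7, 4, 7, 9, 7, 4, 7], .l [10, 7], .l [4, 10, 7, 4, 2, 2, 5, 7, 5, 2, 5], .l [0, 8, 5, 2, 5, 7, 5, 2, 5], .l [0, 10, 5, 2, 7, 9, 5, 2, 7], .l [10, 5], .l [6, 13, 9, 1, 5, 7, 4, 0, 2, 4, 1], .l [4, 11, 9, 1, 5, 7, 4, 0, 2, 4, 1], .l [5, 10, 2, 13, 4, 10, 7], .l [10, 2], .r 1541 [1, 2, 6, 3, 4, 5] [1, 1, 1, 1, 1, 1, 1], .l [5, 10, 1, 11, 9, 6, 9], .l [10, 1], .l [8, 9], .y [8, 10], .l [0, 8, 11, 8, 4, 6, 7, 4, 7], .l [12, 3], .l [8, 11], .l [0, 8, 13, 10, 4, 6, 9, 6, 3], .l [14, 5], .l [8, 13]]),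
([p 2 1, g, s 1 0, g, m 4 0, p 3 2, g, p 0 3, m 0 0, g, s 0 4, g], .hi 8, [.l [12, 5, 11, 10, 10, 8, 5], .l [1, 7, 5, 7], .l [2, 9], .l [12, 5, 11, 10, 10, 8, 3], .l [3, 7, 3, 7], .l [4, 9], .l [7, 9, 6], .l [5, 9, 8, 10, 4, 2, 3], .l [7, 9], .l [5, 7, 6, 8, 2, 0, 1], .y [8], .l [12, 7, 11, 10, 10, 8, 1], .l [12, 7, 11, 10, 10, 8, 1], .r 1542 [1, 2, 3, 5, 4] [1, 1, 1, 1, 1, 1], .l [5, 7, 6, 8, 8, 6, 1], .l [10, 5, 9, 8, 8, 6, 7], .l [10, 5, 9, 8, 8, 6, 7], .l [5, 7, 6, 8, 10, 8, 1]]),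
([p 2 1, g, s 1 0, g, m 4 0, p 3 2, g, p 0 3, g, s 0 4, g], .top 8, [.l [5, 7, 6, 6, 1], .r 1538 [1, 2, 3, 4] [1, 1, 1, 1, 1], .r 1523 [1, 2, 3, 4] [1, 1, 1, 1, 1], .r 1543 [1, 2, 3, 4] [1, 1, 1, 1, 1]]),
([p 4 1, g, m 0 2, g, s 1 0, g, m 2 3, p 8 4, g, m 3 5, g, m 5 6, g, m 6 7, g, m 7 0, g, p 0 8, g], .hi 4, [.l [5, 9, 3, 4, 16, 14, 3], .l [5, 9, 3, 4, 16, 14, 3], .l [6, 5, 8, 2, 4, 2, 6, 3, 13, 7, 9, 7, 7, 5, 5, 3, 5, 3], .l [0, 3, 5, 3, 3, 1, 3, 1, 3, 1, 9, 7, 7, 5, 5, 3, 3, 1], .l [5, 9, 3, 6, 16, 12, 13], .l [5, 9, 3, 6, 1, 2, 6, 3, 13, 7, 9, 7, 7, 5, 5, 3, 5, 3], .l [0, 5, 7, 3, 5, 3, 5, 1, 5, 1, 11, 7, 9, 7, 7, 5, 5, 3], .l [5, 9, 3, 6, 16, 12, 13], .l [4, 3, 8, 4, 6, 2, 6, 3, 13, 7, 9, 7, 7, 5, 5, 3, 1, 3], .l [4,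 3, 8, 4, 4, 2, 4, 2, 4, 1, 11, 7, 9, 7, 7, 5, 5, 3], .l [3, 7, 3, 6, 16, 12, 13], .l [3, 7, 3, 6, 1, 2, 6, 3, 13, 7, 9, 7, 7, 5, 5, 3, 5, 3], .l [0, 3, 8, 4, 4, 1, 14, 12, 1], .l [3, 7, 3, 8, 10, 8, 14, 10, 11], .l [3, 7, 3, 8, 3, 4, 8, 5, 5, 3, 11, 5, 7, 5, 5, 3, 5, 3], .l [0, 3, 10, 6, 6, 3, 4, 2, 12, 10, 1], .l [3, 7, 3, 10, 12, 10, 10, 8, 12, 8, 9], .l [3, 7, 3, 10, 5, 6, 10, 7, 7, 5, 5, 3, 9, 3, 5, 3, 5, 3], .l [0, 3, 12, 8, 8, 5, 6, 4, 4, 2, 10, 8, 1], .l [3, 7, 3, 12, 14, 12, 12, 10, 10, 8, 10, 6, 7], .l [3, 7, 3, 12, 7, 8, 12, 9, 9, 7, 7, 5, 5, 3, 7, 1, 5, 3], .l [0, 3, 5, 3, 13, 11, 11, 7, 9, 7, 7, 5, 5, 3, 7, 5, 3, 1], .l [3, 7, 3, 14, 16, 4, 5], .l [3, 7, 3, 14, 16, 4, 5], .l [0, 3, 5, 3, 15, 13, 13, 9, 11, 9,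 9, 7, 7, 5, 5, 3, 5, 3], .y [0, 4, 17, 7], .l [3, 7, 3, 16, 11, 12, 1], .l [3, 7, 3, 16, 11, 12, 1], .l [0, 3, 5, 3, 17, 15, 15, 11, 13, 11, 11, 9, 9, 7, 7, 5, 3, 1]]),
([p 4 1, g, m 0 2, g, s 1 0, g, m 2 3, p 7 4, g, m 3 5, g, m 5 6, g, m 6 0, g, p 0 7, g], .hi 13, [.l [14, 15, 13, 13, 11, 11, 8, 9, 1, 2, 8, 6, 1], .l [1, 9, 7, 12], .l [2, 14], .y [2, 6, 9, 11, 13], .l [3, 9, 5, 12, 12, 10, 10, 8, 10, 6, 7], .l [0, 5, 1, 12, 12, 10, 10, 8, 10, 8, 3], .l [4, 14], .l [5, 9, 3, 12, 12, 10, 10, 8, 10, 4, 5], .l [5, 8, 4, 8, 6, 11], .l [6, 14], .l [8, 11, 8, 9, 3, 10, 10, 8, 10, 4, 5], .l [8, 11, 8, 8, 4, 8, 6, 9], .l [9, 14], .l [10, 13, 11, 11, 8, 9, 3, 8, 10, 4, 5], .l [10, 13, 11, 11, 8, 8, 4, 8, 6, 7], .l [11, 14], .l [14,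 15, 11, 11, 9, 9, 6, 7, 1, 6, 8, 2, 3], .l [10, 17, 13, 7, 14, 5, 1, 1, 10, 7], .l [13, 14], .l [12, 13, 11, 11, 9, 9, 6, 7, 1, 6, 8, 2, 3], .l [12, 13, 11, 11, 9, 9, 6, 6, 2, 6, 4, 5], .r 1545 [1, 2, 3, 4, 5, 6, 8, 7] [1, 1, 1, 1, 1, 1, 1, 1, 1], .l [12, 13, 11, 11, 9, 9, 6, 6, 2, 6, 4, 5], .l [12, 13, 11, 11, 9, 9, 6, 7, 1, 8, 5, 6, 1], .l [12, 13, 11, 11, 9, 9, 6, 6, 2, 6, 4, 7], .l [13, 17, 16, 16, 14, 14, 12, 12, 9, 10, 4, 1, 2, 3]]),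
([p 4 1, g, m 0 2, g, s 1 0, g, m 2 3, p 6 4, g, m 3 5, g, m 5 0, g, p 0 6, g], .hi 11, [.l [12, 13, 11, 11, 8, 9, 1, 2, 8, 6, 1], .l [1, 9, 7, 10], .l [2, 12], .y [2, 6, 9, 11], .l [3, 9, 5, 10, 10, 8, 10, 6, 7], .l [0, 5, 1, 10, 10, 8, 10, 8, 3], .l [4, 12], .l [5, 9, 3, 10, 10, 8, 10, 4, 5], .l [5, 8, 4, 8, 6, 9], .l [6, 12], .l [8, 11, 8, 9, 3, 8, 10, 4, 5], .l [8, 11, 8, 8, 4, 8, 6, 7], .l [9, 12], .l [12, 13, 9, 9, 6, 7, 1, 6, 8, 2, 3], .l [10, 13, 11, 11, 8, 8, 4, 8, 6, 1], .l [11, 12], .l [10, 11, 9, 9, 6, 7, 1, 6, 8, 2, 3], .l [10, 11, 9, 9, 6, 6, 2, 6, 4, 5], .r 1546 [1, 2, 3, 4, 5, 7, 6] [1, 1, 1, 1, 1, 1, 1, 1], .l [10, 11, 9, 9, 6, 6, 2, 6, 4, 5], .l [10, 11, 9, 9, 6, 7, 1, 8, 5, 6, 1], .l [10, 11, 9, 9, 6,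 6, 2, 6, 4, 7], .l [11, 15, 14, 14, 12, 12, 9, 10, 4, 1, 2, 3]]),
([p 4 1, g, m 0 2, g, s 1 0, g, m 2 3, p 5 4, g, m 3 0, g, p 0 5, g], .hi 9, [.l [10, 11, 8, 9, 1, 2, 8, 6, 1], .l [1, 9, 7, 8], .l [2, 10], .y [2, 6, 9], .l [3, 9, 5, 8, 10, 6, 7], .l [0, 5, 1, 8, 10, 8, 3], .l [4, 10], .l [5, 9, 3, 8, 10, 4, 5], .l [5, 8, 4, 8, 6, 7], .l [6, 10], .l [10, 11, 6, 7, 1, 6, 8, 2, 3], .l [8, 11, 8, 8, 4, 8, 6, 1], .l [9, 10], .l [8, 9, 6, 7, 1, 6, 8, 2, 3], .l [8, 9, 6, 6, 2, 6, 4, 5], .r 1547 [1, 2, 3, 4, 6, 5] [1, 1, 1, 1, 1, 1, 1], .l [8, 9, 6, 6, 2, 6, 4, 5], .l [8, 9, 6, 7, 1, 8, 5, 6, 1], .l [8, 9, 6, 6, 2, 6, 4, 7], .l [9, 13, 12, 12, 9, 10, 4, 1, 2, 3]]),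
([p 3 1, g, m 0 2, g, s 1 0, g, m 2 0, p 4 3, g, p 0 4, g], .hi 6, [.l [7, 9, 1, 2, 8, 6, 1], .l [1, 9, 7, 5], .l [2, 7], .y [2, 6], .l [7, 9, 1, 4, 8, 4, 5], .l [3, 8, 6, 8, 6, 3], .l [4, 7], .l [7, 9, 1, 6, 8, 2, 3], .l [5, 8, 4, 8, 6, 1], .l [6, 7], .l [5, 7, 1, 6, 8, 2, 3], .l [5, 6, 2, 6, 4, 5], .r 1548 [1, 2, 5, 3, 4] [1, 1, 1, 1, 1, 1], .l [5, 6, 2, 6, 4, 5], .l [5, 7, 1, 8, 5, 6, 1], .l [5, 6, 2, 6, 4, 7], .l [7, 11, 9, 10, 4, 1, 2, 3]]),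
([p 2 1, g, s 1 0, g, m 0 0, p 3 2, g, p 0 3, g], .lo 4, [.r 506 [4, 2] [1, 3, 3], .l [6, 3], .r 1549 [1, 4, 2, 3] [1, 1, 1, 1, 1], .r 1068 [1, 4, 2] [1, 1, 0, 3], .r 506 [4, 2] [3, 1, 3], .l [6, 1], .r 1505 [1, 4, 2, 3] [1, 1, 1, 1, 1], .y [4], .r 1514 [1, 2, 4, 3] [1, 1, 1, 1, 1], .l [7, 2], .l [4, 6], .r 1544 [1, 2, 3, 4] [1, 1, 1, 1, 1], .l [9, 4], .l [4, 8]]),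
([p 9 1, g, s 1 0, g, m 0 2, g, m 2 3, g, m 3 4, g, m 4 5, g, s 0 6, g, m 5 7, g, m 7 8, p 6 9, g, m 8 0, g], .lo 4, [.l [6, 3, 18, 12, 14, 12, 12, 10, 10, 8, 8, 4, 4, 2, 3], .l [6, 3], .l [4, 3, 18, 14, 16, 14, 14, 12, 12, 10, 10, 8, 8, 4, 4, 2, 3], .l [0, 1, 3, 1, 14, 12, 12, 10, 10, 8, 8, 6, 6, 2, 2, 0, 1], .l [6, 1, 18, 12, 16, 14, 14, 12, 12, 10, 10, 6, 6, 4, 5], .l [6, 1], .l [13, 16, 14, 14, 12, 12, 10, 10, 8, 8, 6, 9, 5, 4, 8, 7, 7, 5], .l [6, 1, 18, 12, 1, 14, 16, 11, 14, 1, 10, 8, 9], .l [6, 1], .l [4, 5], .l [8, 3, 18, 10, 16, 14, 14, 12, 12, 8, 8, 6, 7], .l [8, 3], .l [4, 7], .l [10, 5, 5, 3, 16, 8, 14, 12, 12, 8, 8, 6, 7], .l [10, 5], .l [4, 9], .l [12, 7, 7, 5, 5, 3, 14, 6, 12, 8, 8, 6, 7], .l [12, 7], .l [4,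 11], .l [14, 9, 9, 7, 7, 5, 14, 4, 12, 10, 10, 8, 5], .l [14, 9], .l [4, 13], .l [16, 11, 11, 9, 9, 7, 7, 5, 12, 2, 8, 6, 7], .l [16, 11], .l [4, 15], .l [19, 14, 14, 12, 12, 10, 10, 8, 8, 4, 4, 2, 3], .l [19, 14], .l [4, 18], .y [4, 6, 8, 10, 14, 16, 19], .l [21, 16, 16, 14, 14, 12, 12, 10, 10, 6, 6, 4, 5], .l [21, 16], .l [4, 20]]),
([p 8 1, g, s 1 0, g, m 0 2, g, m 2 3, g, m 3 4, g, s 0 5, g, m 4 6, g, m 6 7, p 5 8, g, m 7 0, g], .lo 4, [.l [6, 3, 16, 10, 12, 10, 10, 8, 8, 4, 4, 2, 3], .l [6, 3], .l [4, 3, 16, 12, 14, 12, 12, 10, 10, 8, 8, 4, 4, 2, 3], .l [0, 1, 3, 1, 12, 10, 10, 8, 8, 6, 6, 2, 2, 0, 1], .l [6, 1, 16, 10, 14, 12, 12, 10, 10, 6, 6, 4, 5], .l [6, 1], .r 1551 [1, 9, 2, 3, 4, 5, 6, 7, 8] [1, 1, 1, 1, 1, 1,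 1, 1, 1, 1], .l [6, 1, 16, 10, 1, 12, 14, 9, 12, 1, 8, 6, 7], .l [6, 1], .l [4, 5], .l [8, 3, 16, 8, 14, 12, 12, 8, 8, 6, 7], .l [8, 3], .l [4, 7], .l [10, 5, 5, 3, 14, 6, 12, 8, 8, 6, 7], .l [10, 5], .l [4, 9], .l [12, 7, 7, 5, 14, 4, 12, 10, 10, 8, 5], .l [12, 7], .l [4, 11], .l [14, 9, 9, 7, 7, 5, 12, 2, 8, 6, 7], .l [14, 9], .l [4, 13], .l [17, 12, 12, 10, 10, 8, 8, 4, 4, 2, 3], .l [17, 12], .l [4, 16], .y [4, 6, 8, 12, 14, 17], .l [19, 14, 14, 12, 12, 10, 10, 6, 6, 4, 5], .l [19, 14], .l [4, 18]]),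
([p 7 1, g, s 1 0, g, m 0 2, g, m 2 3, g, s 0 4, g, m 3 5, g, m 5 6, p 4 7, g, m 6 0, g], .lo 4, [.l [6, 3, 14, 8, 10, 8, 8, 4, 4, 2, 3], .l [6, 3], .l [4, 3, 14, 10, 12, 10, 10, 8, 8, 4, 4, 2, 3], .l [0, 1, 3, 1, 10, 8, 8, 6, 6, 2, 2, 0, 1], .l [6, 1, 14, 8, 12, 10, 10, 6, 6, 4, 5], .l [6, 1], .r 1552 [1, 8, 2, 3, 4, 5, 6, 7] [1, 1, 1, 1, 1, 1, 1, 1, 1], .l [6, 1, 14, 8, 1, 10, 12, 7, 10, 1, 6, 4, 5], .l [6, 1], .l [4, 5], .l [8, 3, 14, 6, 12, 8, 8, 6, 7], .l [8, 3], .l [4, 7], .l [10, 5, 14, 4, 12, 10, 10, 8, 5], .l [10, 5], .l [4, 9], .l [12, 7, 7, 5, 12, 2, 8, 6, 7], .l [12, 7], .l [4, 11], .l [15, 10, 10, 8, 8, 4, 4, 2, 3], .l [15, 10], .l [4, 14], .y [4, 6, 10, 12, 15], .l [17, 12, 12, 10, 10, 6, 6, 4, 5], .l [17,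 12], .l [4, 16]]),
([p 6 1, g, s 1 0, g, m 0 2, g, m 2 3, g, s 0 4, g, m 3 5, g, m 5 0, p 4 6, g], .hi 12, [.l [13, 15, 1, 2, 10, 8, 9], .l [1, 15, 13, 11], .l [2, 13], .l [13, 15, 1, 4, 10, 6, 9], .l [3, 15, 11, 9], .l [4, 13], .y [4, 6, 10, 12], .l [13, 15, 1, 6, 8, 6, 8, 4, 7], .l [5, 8, 6, 13, 9, 7], .l [6, 13], .l [13, 15, 1, 8, 10, 2, 9], .l [7, 12, 10, 10, 8, 11, 7, 5], .l [8, 13], .l [11, 13, 1, 8, 8, 0, 7], .l [7, 10, 12, 13, 3, 2, 9], .l [9, 12, 8, 8, 6, 11, 7, 5], .l [10, 13], .l [13, 15, 1, 12, 1, 10, 7], .l [11, 14, 12, 12, 8, 8, 6, 10, 6, 1], .l [12, 13], .l [11, 13, 1, 12, 1, 10, 7], .l [11, 12, 10, 10, 6, 6, 4, 8, 4, 7], .r 1553 [1, 2, 3, 4, 5, 7, 6] [1, 1, 1, 1, 1, 1, 1, 1]]),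
([p 5 1, g, s 1 0, g, m 0 2, g, s 0 3, g, m 2 4, g, m 4 0, p 3 5, g], .lo 4, [.l [6, 3, 12, 6, 8, 4, 4, 2, 3], .l [6, 3], .l [4, 3, 12, 8, 10, 8, 8, 4, 4, 2, 3], .l [0, 1, 3, 1, 8, 6, 6, 2, 2, 0, 1], .l [6, 1, 12, 6, 10, 6, 6, 4, 5], .l [6, 1], .r 1554 [1, 6, 2, 3, 4, 5] [1, 1, 1, 1, 1, 1, 1], .l [6, 1, 12, 6, 3, 8, 6, 2, 5], .l [6, 1], .l [4, 5], .l [8, 3, 9, 5, 7, 8, 5], .l [8, 3], .l [4, 7], .l [10, 5, 12, 2, 8, 6, 7], .l [10, 5], .l [4, 9], .y [4, 8, 10], .l [13, 8, 8, 4, 4, 2, 3], .l [13, 8], .l [4, 12]]),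
([p 3 1, s 2 0, g, p 0 2, g, s 1 0, g, p 0 3, g], .hi 1, [.r 1053 [1, 4, 3] [1, 3, 1, 1], .l [2, 9, 6, 6, 1], .l [3, 1, 4, 2, 3], .y [1, 3], .r 1053 [1, 4, 3] [3, 1, 1, 1], .l [4, 9, 4, 4, 1], .l [3, 1, 4, 2, 3], .r 989 [1, 4, 3] [3, 1, 1, 1], .l [5, 4, 5], .l [3, 1, 6, 4, 1], .l [5, 4, 5], .r 1309 [1, 4, 2, 3] [1, 1, 1, 1, 1], .l [5, 4, 7], .l [3, 1, 8, 6, 1]]),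
([p 5 1, s 0 0, g, s 1 0, g, s 0 2, g, m 4 3, g, s 0 4, g, m 3 0, p 2 5, g], .lo 1, [.y [1], .l [11, 1, 13, 2, 7, 4, 1, 6, 2, 5], .r 1556 [1, 6, 5] [1, 1, 8, 1], .l [2, 14, 11, 11, 8], .l [2, 12, 9, 9, 8], .l [11, 1, 7, 8, 5, 10, 2, 6, 4, 5], .l [11, 1, 7, 8, 5, 10, 2, 6, 4, 5], .l [3, 2, 3], .l [11, 1, 7, 8, 3, 10, 2, 8, 6, 1], .l [11, 1, 7, 8, 3, 10, 2, 8, 6, 1], .l [3, 2, 5], .l [0, 2, 10, 3, 11, 3, 8, 1, 4, 1], .l [9, 7, 13, 4, 7, 3, 6], .l [3, 2, 7], .l [10, 14, 3, 3, 4, 10, 1, 1, 4, 1], .l [11, 9, 13, 2, 7, 5, 6], .l [3, 2, 9], .l [3, 2, 9], .l [0, 2, 8, 1, 9, 3, 8, 1, 4, 1], .l [9, 1, 13, 5, 6, 8, 4, 7], .l [3, 2, 12]]),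
([p 8 0, g, m 0 1, g, s 0 2, g, m 1 3, g, m 3 4, g, m 4 5, g, m 5 6, g, m 6 7, p 2 8, g, m 7 0, g], .hi 17, [.l [18, 19, 16, 17, 1, 2, 6, 4, 11], .l [1, 17, 15, 16], .l [2, 18], .y [2, 6, 8, 10, 12, 14, 17], .l [3, 17, 13, 16, 1, 10, 10, 8, 8, 6, 6, 4, 4, 2, 3], .l [3, 8, 6, 15, 13, 14], .l [4, 18], .l [3, 15, 11, 14, 1, 10, 10, 8, 8, 6, 6, 4, 4, 2, 3], .l [5, 17, 11, 16, 3, 12, 12, 10, 10, 8, 8, 6, 6, 4, 1], .l [3, 8, 6, 15, 13, 12, 10, 13, 13, 9, 9, 7, 7, 5, 5, 3, 3, 1], .l [6, 18], .l [7, 10, 8, 15, 9, 14, 3, 10, 10, 8, 8, 6, 6, 4, 1], .l [2, 17, 14, 3, 14, 10, 14, 1, 10, 10, 8, 8, 6, 6, 4, 1, 5, 1], .l [8, 18], .l [9, 12, 10, 10, 8, 13, 7, 12, 3, 8, 8, 6, 6, 4, 1], .l [6, 8, 7, 16, 10, 1, 10, 8, 12, 3, 8, 8, 6, 6, 4,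 1, 5, 1], .l [10, 18], .l [11, 14, 12, 12, 10, 10, 8, 11, 5, 10, 3, 6, 6, 4, 1], .l [6, 17, 10, 1, 14, 10, 14, 3, 1, 5, 3, 3, 6, 6, 4, 1, 5, 1], .l [12, 18], .l [13, 17, 3, 16, 1, 12, 3], .l [4, 17, 12, 1, 12, 4, 14, 5, 1, 12, 1, 4, 2, 5, 7, 5, 5, 3], .l [14, 18], .l [18, 19, 14, 15, 1, 14, 1, 12, 3], .l [8, 10, 9, 14, 6, 1, 10, 14, 7, 3, 8, 4, 1, 4, 2, 5, 3, 1], .l [17, 18], .l [16, 17, 14, 15, 1, 14, 1, 12, 3], .l [8, 15, 6, 1, 12, 14, 5, 3, 10, 6, 10, 3, 1, 5, 3, 3, 4, 1], .l [14, 17, 16, 16, 14, 14, 12, 12, 10, 10, 8, 8, 4, 2, 0, 3, 5, 3]]),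
([p 7 1, g, s 1 0, g, s 0 2, g, m 4 3, g, s 0 4, g, m 3 5, g, m 5 6, p 2 7, g, m 6 0, g], .lo 8, [.l [2, 9, 11, 9, 9, 1, 7, 8, 1, 7, 3, 7, 1], .l [2, 9, 11, 9, 9, 1, 10, 6, 8, 2, 3], .l [1, 15, 13, 7, 9, 7, 7, 1, 5, 6, 1], .l [1, 13, 11, 5, 7, 5, 5, 1, 6, 4, 4, 0, 1], .l [4, 9, 11, 9, 9, 1, 7, 8, 1, 7, 1, 7, 1], .l [4, 9, 11, 9, 9, 1, 10, 4, 8, 4, 5], .l [3, 15, 11, 5, 7, 5, 5, 1, 3, 4, 1], .l [6, 9, 11, 9, 9, 1, 10, 2, 8, 6, 3, 7, 1], .l [6, 9, 11, 9, 9, 1, 10, 2, 8, 6, 3], .l [9, 12, 10, 13, 5, 10, 12, 5, 8, 1, 8, 6, 3], .l [10, 1, 14, 4, 12, 1, 1, 8, 8, 6, 3, 7, 1], .l [10, 1, 14, 4, 12, 1, 1, 8, 8, 6, 3], .l [9, 15, 5, 12, 1, 8, 8, 6, 3], .l [9, 15, 5, 12, 1, 8, 8, 6, 3, 9, 3, 3, 1], .l [2, 1, 7, 1, 9, 7, 7, 1, 8, 4,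 6, 2, 3], .l [9, 15, 5, 12, 1, 8, 8, 6, 3], .l [12, 3, 3, 3, 12, 2, 10, 8, 3, 9, 1, 3, 1], .l [6, 7, 11, 3, 12, 2, 10, 8, 3], .l [3, 6, 6, 6, 8, 11, 5, 4, 7], .l [15, 6, 6, 6, 6, 4, 10, 7, 1, 6, 3, 7, 1], .l [6, 7, 14, 6, 6, 4, 4, 2, 3], .l [7, 13, 5, 12, 1, 8, 8, 6, 3], .y [6, 10, 12, 15, 8], .l [17, 8, 8, 8, 8, 6, 12, 9, 3, 8, 3, 7, 1], .l [6, 7, 16, 8, 8, 6, 6, 4, 5], .l [7, 13, 5, 14, 3, 10, 10, 8, 3]]),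
([p 6 1, g, s 1 0, g, s 0 2, g, m 0 3, g, m 3 4, g, m 4 5, p 2 6, g, m 5 7, g, m 7 8, g, m 8 9, g, m 9 0, g], .lo 6, [.l [8, 5, 12, 4, 6, 4, 4, 2, 3], .l [8, 5], .l [4, 3, 12, 8, 10, 6, 6, 4, 4, 2, 3], .l [0, 1, 5, 3, 8, 4, 4, 2, 2, 0, 1], .l [8, 3, 12, 4, 8, 6, 6, 4, 5], .l [8, 3], .l [5, 13, 7, 14, 3, 10, 13, 4, 9, 4, 11, 6, 6, 1, 3, 1, 7, 5], .l [8, 1, 12, 4, 10, 8, 8, 6, 3], .l [8, 1], .l [9, 19, 15, 6, 16, 18, 15, 8, 2, 10, 7, 9, 10, 3, 3, 1, 1, 5], .r 1559 [1, 2, 3, 10, 4, 5, 6] [1, 1, 1, 1, 1, 1, 1, 7], .l [8, 1], .l [6, 7], .l [10, 3, 12, 2, 10, 8, 3], .l [10, 3], .l [6, 9], .l [13, 6, 6, 4, 4, 2, 3], .l [13, 6], .l [6, 12], .l [15, 8, 8, 6, 6, 4, 5], .l [15, 8], .l [6, 14], .l [17, 10, 10, 8, 8, 6, 7], .l [17, 10],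 .l [6, 16], .l [19, 12, 12, 10, 10, 8, 9], .l [19, 12], .l [6, 18], .y [6, 8, 10, 13, 15, 17, 19], .l [21, 14, 14, 12, 12, 10, 11], .l [21, 14], .l [6, 20]]),
([p 6 1, g, s 1 0, g, s 0 2, g, m 0 3, g, m 3 4, g, m 4 5, p 2 6, g, m 5 7, g, m 7 8, g, m 8 0, g], .hi 17, [.l [18, 14, 16, 17, 13, 13, 11, 11, 8, 9, 1, 8, 1, 6, 1], .l [1, 13, 11, 16], .l [2, 18], .l [18, 19, 17, 17, 15, 15, 12, 13, 1, 4, 6, 2, 7], .l [3, 13, 9, 16], .l [4, 18], .l [16, 17, 15, 15, 13, 13, 10, 11, 1, 4, 4, 0, 5], .l [3, 6, 17, 17, 15, 15, 13, 13, 10, 11, 3, 2, 7], .l [5, 13, 7, 16], .l [6, 18], .y [6, 8, 10, 13, 15, 17], .l [7, 13, 5, 16, 5, 12, 12, 10, 3], .l [7, 10, 8, 11, 5, 14], .l [8, 18], .l [9, 13, 3, 16, 5, 12, 3], .l [9, 12, 10, 10, 8, 10,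 4, 13], .l [10, 18], .l [12, 15, 12, 13, 3, 14, 3, 10, 3], .l [12, 15, 12, 12, 10, 10, 8, 10, 4, 11], .l [13, 18], .l [14, 17, 15, 15, 12, 13, 3, 12, 1, 8, 3], .l [14, 17, 15, 15, 12, 12, 10, 10, 8, 10, 4, 9], .l [15, 18], .l [18, 19, 15, 15, 13, 13, 10, 11, 1, 10, 1, 8, 3], .l [16, 19, 17, 17, 15, 15, 12, 12, 10, 10, 8, 10, 4, 1], .l [17, 18], .l [16, 17, 15, 15, 13, 13, 10, 11, 1, 10, 1, 8, 3], .l [16, 17, 15, 15, 13, 13, 10, 10, 8, 8, 6, 8, 2, 7], .r 1560 [1, 2, 3, 4, 5, 6, 7, 8, 9] [1, 1, 1, 1, 1, 1, 1, 1, 1, 1]]),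
([p 6 1, g, s 1 0, g, s 0 2, g, m 0 3, g, m 3 4, g, m 4 5, p 2 6, g, m 5 7, g, m 7 0, g], .hi 15, [.l [16, 12, 14, 15, 11, 11, 8, 9, 1, 8, 1, 6, 1], .l [1, 13, 11, 14], .l [2, 16], .l [16, 17, 15, 15, 12, 13, 1, 4, 6, 2, 7], .l [3, 13, 9, 14], .l [4, 16], .l [14, 15, 13, 13, 10, 11, 1, 4, 4, 0, 5], .l [3, 6, 15, 15, 13, 13, 10, 11, 3, 2, 7], .l [5, 13, 7, 14], .l [6, 16], .y [6, 8, 10, 13, 15], .l [7, 13, 5, 14, 3, 10, 10, 8, 3], .l [7, 10, 8, 11, 5, 12], .l [8, 16], .l [9, 13, 3, 14, 3, 10, 3], .l [9, 12, 10, 10, 8, 10, 4, 11], .l [10, 16], .l [12, 15, 12, 13, 3, 12, 1, 8, 3], .l [12, 15, 12, 12, 10, 10, 8, 10, 4, 9], .l [13, 16], .l [16, 17, 13, 13, 10, 11, 1, 10, 1, 8, 3], .l [14, 17, 15, 15, 12, 12, 10, 10, 8, 10, 4,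 1], .l [15, 16], .l [14, 15, 13, 13, 10, 11, 1, 10, 1, 8, 3], .l [14, 15, 13, 13, 10, 10, 8, 8, 6, 8, 2, 7], .r 1561 [1, 2, 3, 4, 5, 6, 7, 8] [1, 1, 1, 1, 1, 1, 1, 1, 1]]),
([p 6 1, g, s 1 0, g, s 0 2, g, m 0 3, g, m 3 4, g, m 4 5, p 2 6, g, m 5 0, g], .hi 13, [.l [14, 15, 12, 13, 1, 2, 6, 4, 7], .l [1, 13, 11, 12], .l [2, 14], .l [14, 15, 12, 13, 1, 4, 6, 2, 7], .l [3, 13, 9, 12], .l [4, 14], .l [12, 13, 10, 11, 1, 4, 4, 0, 5], .l [3, 6, 13, 13, 10, 11, 3, 2, 7], .l [5, 13, 7, 12], .l [6, 14], .y [6, 8, 10, 13], .l [7, 13, 5, 12, 1, 8, 8, 6, 3], .l [7, 10, 8, 11, 5, 10], .l [8, 14], .l [9, 13, 3, 12, 1, 8, 3], .l [9, 12, 10, 10, 8, 10, 4, 9], .l [10, 14], .l [14, 15, 10, 11, 1, 10, 1, 8, 3], .l [12, 15, 12, 12, 10, 10,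 8, 10, 4, 1], .l [13, 14], .l [12, 13, 10, 11, 1, 10, 1, 8, 3], .l [12, 13, 10, 10, 8, 8, 6, 8, 2, 7], .r 1562 [1, 2, 3, 4, 5, 6, 7] [1, 1, 1, 1, 1, 1, 1, 1]]),
([p 5 1, g, s 1 0, g, s 0 2, g, m 0 3, g, m 3 4, g, m 4 0, p 2 5, g], .hi 10, [.l [11, 13, 1, 2, 6, 4, 7], .l [1, 13, 11, 9], .l [2, 11], .l [11, 13, 1, 4, 6, 2, 7], .l [3, 13, 9, 7], .l [4, 11], .l [9, 11, 1, 4, 4, 0, 5], .l [3, 6, 10, 11, 3, 2, 7], .l [5, 13, 7, 5], .l [6, 11], .y [6, 8, 10], .l [3, 8, 10, 11, 5, 4, 7], .l [7, 10, 8, 11, 5, 3], .l [8, 11], .l [11, 13, 1, 10, 1, 8, 3], .l [9, 12, 10, 10, 8, 10, 4, 1], .l [10, 11], .l [9, 11, 1, 10, 1, 8, 3], .l [9, 10, 8, 8, 6, 8, 2, 7], .r 1563 [1, 2, 3, 4, 6, 5] [1, 1, 1, 1, 1, 1, 1]]),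
([p 4 1, s 0 0, g, s 1 0, g, s 0 2, g, m 0 3, g, m 3 0, p 2 4, g], .lo 7, [.l [7, 5, 9, 2, 3, 1, 2], .l [9, 5, 11, 2, 5, 3, 4], .l [9, 5], .l [5, 4, 11, 6, 8, 4, 4, 2, 3], .l [0, 2, 6, 3, 7, 3, 3, 0, 3], .l [9, 3, 11, 2, 7, 5, 6], .l [9, 3], .r 1555 [1, 5, 2, 3, 4] [2, 1, 1, 1, 1, 1], .l [9, 1, 11, 2, 9, 7, 4], .l [9, 1], .r 1564 [1, 2, 5, 3, 4] [2, 1, 1, 1, 1, 1], .r 1557 [1, 2, 3, 5, 4] [1, 1, 1, 1, 1, 1], .l [9, 1], .l [7, 8], .y [7, 9], .l [12, 4, 4, 2, 3], .l [12, 4], .l [7, 11]]),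
([p 3 1, s 0 0, g, s 1 0, g, s 0 2, g, m 0 0, p 2 3, g], .lo 7, [.l [4, 8, 3, 2, 2], .l [6, 10, 3, 2, 4], .l [9, 5], .l [5, 4, 9, 4, 6, 2, 3], .l [3, 2, 7, 4, 4, 0, 1], .l [6, 10, 3, 2, 6], .l [9, 3], .l [6, 10, 3, 2, 6], .l [4, 10, 5, 4, 1], .l [9, 1], .r 1565 [1, 2, 4, 3] [1, 1, 1, 1, 1], .y [7], .l [4, 8, 3, 2, 6], .l [10, 2], .l [7, 9]]),
([p 9 1, g, s 0 2, g, s 1 0, g, m 0 3, g, m 3 4, g, m 4 5, g, m 5 6, g, m 6 7, g, m 7 8, p 2 9, g, m 8 0, g], .lo 6, [.l [8, 5, 18, 10, 12, 10, 10, 8, 8, 6, 6, 4, 4, 2, 5], .l [8, 5], .l [3, 8, 6, 17, 15, 14, 16, 15, 15, 13, 13, 11, 11, 9, 9, 7, 7, 5], .l [8, 3, 18, 10, 14, 12, 12, 10, 10, 8, 8, 6, 6, 4, 1], .l [8, 3], .l [1, 19, 17, 16, 18, 17, 17, 15, 15, 13, 13, 11, 11, 9, 9, 7,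 7, 3], .l [0, 3, 5, 1, 14, 12, 12, 8, 8, 6, 6, 4, 4, 2, 2, 0, 1], .l [8, 1, 18, 10, 16, 14, 14, 12, 12, 10, 10, 8, 8, 6, 1], .l [8, 1], .l [1, 19, 17, 16, 18, 17, 17, 15, 15, 13, 13, 11, 11, 9, 9, 7, 7, 5], .l [8, 1, 18, 10, 1, 14, 16, 9, 10, 12, 1, 10, 7], .l [8, 1], .l [6, 7], .l [10, 3, 18, 8, 16, 14, 14, 12, 12, 10, 10, 8, 1], .l [10, 3], .l [6, 9], .l [12, 5, 5, 3, 16, 6, 14, 12, 12, 10, 10, 8, 1], .l [12, 5], .l [6, 11], .l [14, 7, 7, 5, 5, 3, 14, 4, 12, 10, 10, 8, 1], .l [14, 7], .l [6, 13], .l [16, 9, 9, 7, 7, 5, 5, 3, 12, 2, 10, 8, 1], .l [16, 9], .l [6, 15], .l [19, 12, 12, 10, 10, 8, 8, 6, 6, 4, 4, 2, 5], .l [19, 12], .l [6, 18], .y [6, 8, 10, 12, 14, 16, 19], .l [21, 14, 14, 12, 12, 10, 10, 8, 8, 6, 6, 4, 7],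 .l [21, 14], .l [6, 20]]),
([p 8 1, g, s 0 2, g, s 1 0, g, m 0 3, g, m 3 4, g, m 4 5, g, m 5 6, g, m 6 7, p 2 8, g, m 7 0, g], .lo 6, [.l [8, 5, 16, 8, 10, 8, 8, 6, 6, 4, 4, 2, 5], .l [8, 5], .l [6, 5, 16, 10, 14, 12, 12, 10, 10, 8, 8, 6, 6, 4, 1], .l [8, 3, 16, 8, 12, 10, 10, 8, 8, 6, 6, 4, 1], .l [8, 3], .l [6, 5, 16, 10, 12, 10, 10, 8, 8, 6, 6, 4, 4, 2, 3], .l [0, 3, 5, 1, 12, 10, 10, 6, 6, 4, 4, 2, 2, 0, 1], .l [8, 1, 16, 8, 14, 12, 12, 10, 10, 8, 8, 6, 1], .l [8, 1], .r 1567 [1, 2, 9, 3, 4, 5, 6, 7, 8] [1, 1, 1, 1, 1, 1, 1, 1, 1, 1], .l [8, 1, 16, 8, 1, 12, 14, 7, 8, 10, 1, 8, 5], .l [8, 1], .l [6, 7], .l [10, 3, 16, 6, 14, 12, 12, 10, 10, 8, 1], .l [10, 3], .l [6, 9], .l [12, 5, 5, 3, 14, 4, 12, 10, 10, 8, 1], .l [12,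 5], .l [6, 11], .l [14, 7, 7, 5, 5, 3, 12, 2, 10, 8, 1], .l [14, 7], .l [6, 13], .l [17, 10, 10, 8, 8, 6, 6, 4, 4, 2, 5], .l [17, 10], .l [6, 16], .y [6, 8, 10, 12, 14, 17], .l [19, 12, 12, 10, 10, 8, 8, 6, 6, 4, 7], .l [19, 12], .l [6, 18]]),
([p 7 1, g, s 0 2, g, s 1 0, g, m 0 3, g, m 3 4, g, m 4 5, g, m 5 6, p 2 7, g, m 6 0, g], .lo 6, [.l [8, 5, 14, 6, 8, 6, 6, 4, 4, 2, 5], .l [8, 5], .l [6, 5, 14, 8, 12, 10, 10, 8, 8, 6, 6, 4, 1], .l [8, 3, 14, 6, 10, 8, 8, 6, 6, 4, 1], .l [8, 3], .l [6, 5, 14, 8, 10, 8, 8, 6, 6, 4, 4, 2, 3], .l [0, 3, 5, 1, 10, 8, 8, 4, 4, 2, 2, 0, 1], .l [8, 1, 14, 6, 12, 10, 10, 8, 8, 6, 1], .l [8, 1], .r 1568 [1, 2, 8, 3, 4, 5, 6, 7] [1, 1, 1, 1, 1, 1, 1, 1, 1], .l [8, 1, 14, 6, 1, 10, 12, 5, 6,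 8, 1, 6, 3], .l [8, 1], .l [6, 7], .l [10, 3, 14, 4, 12, 10, 10, 8, 1], .l [10, 3], .l [6, 9], .l [12, 5, 5, 3, 12, 2, 10, 8, 1], .l [12, 5], .l [6, 11], .l [15, 8, 8, 6, 6, 4, 4, 2, 5], .l [15, 8], .l [6, 14], .y [6, 8, 10, 12, 15], .l [17, 10, 10, 8, 8, 6, 6, 4, 7], .l [17, 10], .l [6, 16]]),
([p 6 1, g, s 0 2, g, s 1 0, g, m 0 3, g, m 3 4, g, m 4 5, p 2 6, g, m 5 0, g], .lo 6, [.l [8, 5, 12, 4, 6, 4, 4, 2, 5], .l [8, 5], .l [6, 5, 12, 6, 10, 8, 8, 6, 6, 4, 1], .l [8, 3, 12, 4, 8, 6, 6, 4, 1], .l [8, 3], .l [6, 5, 12, 6, 8, 6, 6, 4, 4, 2, 3], .l [0, 3, 5, 1, 8, 6, 6, 2, 2, 0, 1], .l [8, 1, 12, 4, 10, 8, 8, 6, 1], .l [8, 1], .r 1569 [1, 2, 7, 3, 4, 5, 6] [1, 1, 1, 1, 1, 1, 1, 1], .l [8, 1, 3, 5, 10, 4, 1, 4, 8, 5, 3, 4,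 1], .l [8, 1], .l [6, 7], .l [10, 3, 12, 2, 10, 8, 1], .l [10, 3], .l [6, 9], .l [13, 6, 6, 4, 4, 2, 5], .l [13, 6], .l [6, 12], .y [6, 8, 10, 13], .l [15, 8, 8, 6, 6, 4, 7], .l [15, 8], .l [6, 14]]),
([p 5 1, g, s 0 2, g, s 1 0, g, m 0 3, g, m 3 4, g, m 4 0, p 2 5, g], .hi 10, [.l [11, 13, 1, 2, 4, 2, 7], .l [1, 13, 11, 9], .l [2, 11], .l [9, 11, 1, 2, 2, 0, 5], .l [1, 4, 10, 11, 3, 2, 7], .l [3, 13, 9, 7], .l [4, 11], .l [1, 6, 10, 11, 5, 4, 7], .l [5, 13, 7, 5], .l [6, 11], .y [6, 8, 10], .l [1, 8, 10, 11, 7, 6, 7], .l [7, 10, 8, 11, 5, 3], .l [8, 11], .l [11, 13, 1, 10, 1, 8, 1], .l [9, 12, 10, 10, 8, 10, 4, 1], .l [10, 11], .l [9, 11, 1, 10, 1, 8, 1], .l [9, 10, 8, 8, 6, 8, 2, 7], .r 1570 [1, 2, 3, 4, 6, 5] [1, 1, 1,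 1, 1, 1, 1]]),
([p 5 1, s 0 0, g, s 0 2, g, s 1 0, g, m 4 3, g, s 0 4, g, m 3 0, p 2 5, g], .hi 1, [.y [1], .l [0, 6, 10, 1, 11, 7, 1, 3, 4, 5], .l [2, 14, 11, 11, 6], .r 578 [1, 6, 5] [1, 3, 6, 1], .l [0, 4, 8, 1, 9, 5, 1, 1, 2, 3], .l [0, 6, 10, 1, 11, 7, 3, 1, 4, 5], .l [4, 14, 9, 9, 6], .l [2, 5, 3, 4, 8, 1, 9, 5, 4, 5], .l [11, 1, 5, 8, 5, 10, 2, 8, 6, 3], .l [5, 4, 5], .l [11, 1, 5, 8, 5, 10, 2, 8, 6, 3], .l [0, 4, 10, 3, 11, 5, 8, 1, 2, 3], .l [5, 4, 7], .l [9, 7, 13, 4, 7, 3, 8], .l [8, 12, 3, 3, 6, 1, 4, 5], .l [10, 14, 3, 3, 6, 1, 4, 5], .l [5, 4, 9], .l [11, 9, 13, 2, 7, 5, 8], .l [0, 4, 8, 1, 9, 5, 8, 1, 2, 3], .l [5, 4, 12], .l [2, 14, 12, 2, 6, 1, 7, 3, 2, 3]]),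
([p 4 1, s 0 0, g, s 0 2, g, s 1 0, g, m 0 3, g, m 3 0, p 2 4, g], .lo 7, [.l [7, 5, 9, 2, 3, 1, 4], .l [9, 5, 11, 2, 5, 3, 6], .l [9, 5], .l [7, 6, 11, 4, 8, 6, 6, 4, 1], .l [9, 3, 11, 2, 7, 5, 2], .l [9, 3], .l [7, 6, 11, 4, 6, 4, 4, 2, 3], .l [0, 4, 6, 1, 7, 5, 5, 0, 1], .l [9, 1, 11, 2, 9, 7, 2], .l [9, 1], .r 1571 [1, 2, 5, 3, 4] [2, 1, 1, 1, 1, 1], .r 1572 [1, 2, 3, 5, 4] [1, 1, 1, 1, 1, 1], .l [9, 1], .l [7, 8], .y [7, 9], .l [12, 4, 4, 2, 5], .l [12, 4], .l [7, 11]]),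
([p 3 1, s 0 0, g, s 0 2, g, s 1 0, g, m 0 0, p 2 3, g], .lo 7, [.l [2, 8, 5, 4, 4], .l [4, 10, 5, 4, 6], .l [9, 5], .l [4, 10, 5, 4, 6], .l [2, 10, 7, 6, 3], .l [9, 3], .l [7, 6, 9, 2, 4, 2, 3], .l [2, 8, 5, 4, 1], .l [2, 10, 7, 6, 1], .l [9, 1], .r 1573 [1, 2, 4, 3] [1, 1, 1, 1, 1], .y [7], .l [2, 8, 5, 4, 6], .l [10, 2], .l [7, 9]]),
([p 2 1, s 0 0, g, s 1 0, g, m 0 0, p 0 2, g], .lo 6, [.l [3, 2, 4], .r 1574 [1, 3, 2] [1, 1, 1, 1], .l [3, 7], .l [2, 8, 5, 4], .y [0, 3, 6], .r 1566 [1, 3, 2] [1, 1, 1, 1], .l [5, 7], .l [4, 8, 3, 2], .l [4, 6, 1, 0], .r 1500 [2, 3] [4, 1, 1], .r 1550 [1, 2, 3] [2, 1, 1, 1], .l [5, 6, 0, 6]]),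
([p 2 1, g, s 1 0, g, m 0 0, p 0 2, g], .top 1, [.c, .r 1575 [1, 2] [1, 1, 1], .r 334 [] [6], .r 444 [] [6]]),
([p 2 1, s 0 0, g, m 3 0, p 0 2, g, s 1 0, g, s 0 3, g], .lo 4, [.l [0, 4, 3, 2, 5], .l [2, 6, 3, 2, 6], .l [3, 5], .l [0, 7, 4, 2, 6], .l [0, 5, 2, 0, 4], .l [10, 6, 1], .r 1481 [1, 2, 4, 3] [1, 1, 1, 1, 1], .l [3, 4, 0, 4], .y [0, 6, 4], .l [10, 6, 3], .l [0, 5, 7, 5, 6], .l [3, 4, 0, 6], .l [8, 4, 8], .l [0, 5, 9, 7, 4], .l [3, 4, 0, 8]]),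
([p 2 1, g, m 3 0, p 0 2, g, s 1 0, g, s 0 3, g], .top 1, [.r 444 [] [6], .r 1577 [1, 2, 3] [1, 1, 1, 1], .r 334 [] [8], .r 444 [] [8]]),
([p 1 0, g, m 3 0, p 0 1, g, p 0 2, g, s 2 3, g], .hi 0, [.r 1576 [4, 1] [1, 1, 5], .l [0, 1], .l [2, 1], .y [0, 3], .r 1578 [4, 1, 3] [1, 1, 3, 1], .l [0, 4], .l [5, 4], .l [0, 4], .r 1578 [4, 1, 3] [1, 3, 1, 1], .l [0, 6], .l [7, 6], .r 1493 [4, 1, 3] [1, 3, 1, 1], .l [0, 8], .l [9, 8]]),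
([p 2 0, g, m 0 1, g, m 1 0, p 5 2, p 4 3, g, p 0 4, g, p 0 5, g, s 3 0, g], .hi 0, [.l [2, 1, 7, 11, 7, 4, 9, 6, 3, 4, 1], .l [0, 1], .l [2, 1], .l [2, 1], .l [0, 3, 7, 11, 9, 3, 5, 8, 3], .l [0, 3], .l [4, 3], .l [0, 7, 9, 7, 4], .l [0, 7], .l [8, 7], .l [0, 7], .l [10, 9, 5, 11, 7, 2, 9, 4, 6, 2, 3], .l [0, 9], .l [10, 9], .y [0, 10, 5], .l [12, 11, 13, 7, 8, 4, 1, 2, 3], .l [0, 11], .l [12, 11], .l [14, 13, 5, 9, 5, 10, 2, 6, 1, 2, 5], .l [0, 13], .l [14, 13]]),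
([p 2 0, g, m 0 1, g, m 1 0, p 0 2, p 4 3, g, p 0 4, g, s 3 0, g], .lo 5, [.y [0, 5], .l [12, 3, 5, 10, 8, 1, 3, 6, 1], .l [2, 6], .l [1, 7, 5, 4], .l [3, 7, 3, 2, 3], .l [4, 6], .l [3, 6, 4, 6, 4, 3], .l [3, 4, 2, 4, 2, 1], .l [12, 5, 7, 10, 8, 1, 5, 6, 3], .l [12, 5, 7, 10, 8, 1, 5, 6, 3], .l [4, 5, 0, 6], .l [12, 5, 7, 10, 8, 3, 5, 6, 1], .r 1580 [1, 2, 3, 4, 5] [1, 1, 1, 1, 1, 1], .l [4, 5, 0, 8], .l [10, 3, 5, 8, 6, 1, 3, 4, 1], .l [10, 3, 5, 8, 6, 1, 3, 4, 5], .l [10, 3, 5, 8, 6, 1, 8, 2, 3], .l [4, 5, 0, 10]]),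
([p 2 0, g, m 4 1, p 3 2, g, p 0 3, g, s 0 4, g, s 1 0, g], .hi 0, [.r 1576 [5, 2] [1, 1, 7], .l [0, 1], .l [2, 1], .l [0, 4, 6, 4, 5], .l [0, 4], .l [5, 4], .y [0, 5, 3], .r 1578 [5, 2, 4] [1, 3, 1, 3], .l [0, 6], .l [7, 6], .l [7, 6, 6, 3, 6, 1, 2, 0, 1], .r 1492 [5, 2, 3, 4] [1, 1, 1, 1, 3], .l [0, 8], .l [9, 8], .r 1492 [5, 2, 3, 4] [1, 1, 1, 3, 1], .l [0, 10], .l [11, 10]]),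
([p 1 0, g, m 5 0, p 3 1, p 4 2, g, p 0 3, g, p 0 4, g, s 0 5, g, s 2 0, g], .hi 2, [.l [3, 5, 1, 2, 6, 4, 7], .l [1, 5, 3, 1], .l [2, 3], .l [1, 3, 1, 4, 6, 2, 7], .l [1, 3, 1, 4], .l [1, 12, 9, 0, 9, 5, 1, 6, 3], .l [1, 3, 1, 4], .l [1, 3, 1, 6, 8, 4, 6, 4, 5], .l [1, 3, 1, 6], .l [3, 8, 6, 13, 10, 4, 9, 3, 5, 6, 1], .l [1, 3, 1, 6], .l [4, 10, 7, 3, 6, 8, 6, 4, 1], .l [1, 3, 1, 8], .l [4, 10, 7, 3, 6, 8, 6, 4, 1], .y [2, 10], .r 1582 [6, 1, 3, 5] [1, 2, 3, 1, 3], .l [1, 3, 1, 10], .l [3, 12, 10, 4, 9, 1, 10, 3, 6, 2, 3], .l [13, 1, 7, 8, 6, 8, 9, 6, 3], .l [1, 3, 1, 12], .l [10, 7, 11, 9, 10, 8, 10, 6, 1, 2, 5]]),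
([p 1 0, g, m 4 0, p 0 1, p 3 2, g, p 0 3, g, s 0 4, g, s 2 0, g], .lo 3, [.y [0, 3], .l [1, 5, 3, 2, 7], .l [2, 4], .l [1, 5, 3, 2], .l [1, 3, 1, 0], .l [2, 3, 0, 4, 6, 4, 5], .r 1583 [1, 2, 5, 3, 4] [1, 1, 1, 1, 1, 1], .l [2, 9, 6, 2, 4, 2, 3], .l [10, 7, 4], .l [4, 11, 5, 2, 8, 3, 5, 6, 1], .l [2, 3, 0, 6], .l [8, 5, 8], .l [8, 3, 10, 4, 5, 8, 1, 6, 1], .l [2, 3, 0, 8], .l [8, 5, 8], .l [8, 5, 10], .l [10, 5, 5, 3, 10, 4, 7], .l [2, 3, 0, 10]]),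
([p 1 0, g, m 0 0, p 0 1, p 3 2, g, p 0 3, g, s 2 0, g], .lo 2, [.l [2, 1], .r 506 [4, 1] [1, 1, 6], .l [4, 1], .r 1581 [4, 1, 2, 3] [1, 1, 1, 1, 1], .y [2], .l [2, 5, 7, 5, 0], .l [6, 3], .l [2, 5], .r 1584 [1, 2, 3, 4] [1, 1, 1, 1, 1], .l [8, 5], .l [2, 7], .r 1579 [1, 2, 4] [1, 0, 3, 1], .r 1431 [1, 2, 3, 4] [1, 1, 1, 1, 1], .l [10, 7], .l [2, 9]]),
([p 1 0, g, m 0 0, p 0 1, p 0 2, g, s 2 0, g], .lo 4, [.l [0, 3], .l [2, 5, 2], .l [2, 5], .l [1, 5, 3, 4], .l [1, 3, 1, 2], .r 1313 [1, 3] [2, 1, 3], .r 1585 [1, 2, 3] [1, 1, 1, 1], .r 1359 [1, 2, 3] [2, 1, 1, 1], .y [4, 6], .r 1313 [1, 3] [2, 3, 1], .r 1350 [1, 2, 3] [2, 1, 1, 1], .r 1360 [1, 2, 3] [2, 1, 1, 1]]),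
([p 1 0, g, p 0 1, p 0 2, s 0 0, g, s 2 0, g], .bot 1, [.r 334 [] [5], .r 1429 [1, 2] [1, 1, 1], .r 1201 [1] [1, 5], .r 1586 [1, 2] [1, 2, 1]]),
([p 1 0, g, p 0 1, p 0 2, g, s 2 0, g], .top 4, [.c, .r 1587 [1, 2] [1, 1, 1], .r 1361 [1, 2] [1, 1, 1], .r 1368 [1, 2] [1, 1, 1]]),
([p 1 0, g, s 2 0, g, p 0 1, p 4 2, g, p 3 0, g, p 0 3, p 5 4, g, m 0 5, g], .hi 7, [.l [7, 2, 6, 4, 6, 3, 8, 2, 4, 2, 5], .l [7, 2, 6, 4, 6, 3, 8, 2, 4, 2, 5], .l [9, 6], .l [1, 9, 4, 1, 6, 3, 8, 4, 6, 2, 5], .l [7, 4, 6, 2, 6, 1, 8, 2, 6, 4, 5], .l [9, 4], .l [5, 2, 4, 2, 4, 1, 6, 2, 4, 2, 3], .l [9, 1, 11, 7, 9, 2, 9], .l [8, 1, 3, 8, 4, 10, 3, 5, 2, 7], .l [9, 1], .l [1, 9, 1, 10, 6, 2, 8, 1, 2, 6, 5], .l [7, 8], .l [9, 1], .y [7, 9], .l [12, 4,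 4, 2, 10], .l [7, 11], .l [12, 4], .l [12, 4], .l [14, 6, 6, 4, 1], .l [7, 13], .l [14, 6]]),
([p 1 0, g, s 2 0, g, p 0 1, p 3 2, g, p 0 0, p 4 3, g, m 0 4, g], .hi 7, [.l [7, 2, 6, 4, 6, 3, 6, 0, 5], .l [7, 2, 6, 4, 6, 3, 6, 0, 5], .l [9, 6], .l [7, 4, 6, 2, 6, 1, 6, 0, 5], .l [7, 4, 6, 2, 6, 1, 6, 0, 5], .l [9, 4], .l [5, 2, 4, 2, 4, 1, 4, 0, 3], .l [5, 2, 4, 2, 6, 1, 6, 0, 5], .r 1589 [1, 2, 5, 3, 4] [1, 1, 1, 1, 1, 1], .l [9, 1], .y [7], .l [10, 2, 10], .l [7, 9], .l [10, 2], .l [10, 2], .l [12, 4, 1], .l [7, 11], .l [12, 4]]),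
([p 5 0, g, s 6 0, m 0 1, g, m 1 2, g, m 2 3, g, m 3 4, g, m 4 0, g, p 0 5, p 7 6, g, p 8 7, g, m 0 8, g], .hi 2, [.l [6, 16, 13, 4, 12, 8, 1, 9, 2], .l [5, 15, 9, 15, 1, 12, 12, 10, 10, 8, 8, 6, 8, 2, 4, 1, 1, 5], .l [2, 3, 4, 13, 9, 13, 1, 10, 10, 8, 8, 6, 8, 2, 0, 5, 3, 5], .l [3, 0, 13, 12, 12, 8, 8, 6, 6, 4, 4, 2, 4, 5, 2, 3, 1, 3], .l [3, 16, 14, 5, 13, 10, 3, 10, 12, 10, 5], .l [3, 15, 11, 15, 1, 10, 10, 8, 8, 6, 10, 4, 0, 7, 3, 7, 3, 5], .l [5, 2, 15, 12, 14, 10, 10, 8, 8, 6, 6, 4, 6, 7, 2, 5, 3, 5], .l [3, 7, 5, 15, 9, 10, 14, 12, 9], .l [3, 15, 11, 15, 1, 12, 12, 8, 8, 6, 10, 4, 0, 7, 3, 7, 3, 5], .l [7, 4, 15, 10, 12, 8, 5, 9, 13, 9, 11, 9, 9, 7, 3, 5, 1, 5], .l [3, 9, 7, 15, 7, 10, 10, 8, 12, 10, 7], .l [3, 15,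 11, 15, 1, 12, 12, 10, 10, 6, 10, 4, 0, 7, 3, 7, 3, 5], .l [9, 6, 15, 8, 10, 6, 3, 7, 13, 9, 11, 9, 3, 7, 1, 7, 5, 3], .l [3, 11, 9, 15, 5, 10, 10, 8, 8, 6, 10, 8, 5], .l [1, 15, 13, 8, 10, 8, 8, 6, 6, 4, 4, 2, 7, 8, 6, 6, 0, 5], .l [3, 11, 9, 15, 5, 10, 10, 8, 8, 6, 10, 8, 5], .l [3, 13, 11, 15, 3, 10, 10, 8, 8, 6, 6, 4, 8, 6, 3], .l [3, 15, 11, 15, 1, 12, 12, 10, 10, 8, 8, 6, 8, 2, 6, 3, 3, 5], .l [3, 13, 11, 14, 12, 14, 4, 11, 11, 9, 9, 7, 9, 5, 3, 5, 1, 5], .l [3, 13, 9, 13, 1, 10, 10, 8, 8, 6, 6, 4, 6, 2, 4, 1, 1, 3], .l [2, 15, 17, 15, 10], .l [2, 15, 17, 15, 10], .l [14, 11, 15, 3, 16, 12, 13], .l [3, 14, 12, 3, 11, 14, 7, 3, 5, 10, 5], .l [3, 13, 9, 1, 10, 14, 6, 1, 2, 10, 7, 10, 2, 6, 6, 4, 3, 5], .l [14, 11, 17,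 5, 1, 4, 1], .y [2, 18, 16, 14], .l [3, 14, 12, 3, 11, 16, 3, 1, 7, 3, 5, 10, 5], .l [2, 19, 8, 3, 17, 12, 1, 12, 8, 8, 6, 6, 4, 4, 2, 4, 6, 1], .l [14, 11, 19, 7, 1, 6, 3]]),
([p 4 0, g, s 5 0, m 0 1, g, m 1 2, g, m 2 3, g, m 3 0, g, p 0 4, p 6 5, g, p 7 6, g, m 0 7, g], .hi 9, [.l [2, 10, 10, 8, 8, 6, 9, 6, 3, 5, 7, 6, 1], .l [1, 13, 11, 8], .l [2, 10], .y [3, 5, 7, 9], .l [4, 13, 8, 5, 5, 3, 3, 1, 8, 2, 5], .l [4, 7, 5, 11, 8, 5], .l [5, 10], .l [6, 9, 7, 11, 6, 3, 3, 1, 8, 2, 5], .l [6, 9, 7, 7, 5, 9, 6, 3], .l [7, 10], .l [8, 11, 9, 9, 7, 9, 4, 1, 8, 2, 5], .l [8, 11, 9, 9, 7, 7, 5, 7, 4, 1], .l [9, 10], .l [8, 9, 7, 7, 5, 5, 3, 9, 10, 8, 4, 1, 6, 0, 5], .l [8, 9, 7, 7, 5, 5, 3, 7, 4, 1], .r 1591 [1, 2, 3, 8, 4, 5,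 6, 7] [1, 1, 1, 1, 1, 1, 1, 1, 1], .l [8, 9, 7, 7, 5, 5, 3, 5, 2, 1], .l [8, 9, 7, 7, 5, 10, 11, 8, 2, 8, 1, 8, 1, 4, 5], .l [8, 9, 7, 7, 5, 5, 3, 5, 2, 6], .l [15, 16, 12, 14, 11, 11, 9, 9, 7, 7, 5, 7, 4, 7], .l [8, 9, 7, 9, 2, 12, 5, 10, 6, 10, 1, 6, 3], .l [8, 9, 7, 7, 5, 5, 3, 5, 2, 8], .l [13, 14, 12, 14, 11, 11, 9, 9, 7, 7, 5, 7, 4, 7], .l [13, 14, 12, 14, 11, 11, 9, 9, 7, 7, 5, 7, 4, 1], .l [13, 14, 12, 16, 13, 13, 11, 11, 9, 11, 6, 1, 3, 6, 3], .l [5, 11, 5, 1, 8, 6, 13, 6, 11, 8, 1, 3, 8, 5], .l [13, 14, 12, 16, 13, 13, 11, 11, 9, 9, 7, 9, 6, 1]]),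
([p 3 0, g, s 4 0, m 0 1, g, m 1 2, g, m 2 0, g, p 0 3, p 5 4, g, p 6 5, g, m 0 6, g], .hi 7, [.l [2, 8, 8, 6, 9, 6, 3, 5, 7, 6, 1], .l [1, 11, 9, 6], .l [2, 8], .y [3, 5, 7], .l [4, 11, 6, 3, 3, 1, 8, 2, 5], .l [4, 7, 5, 9, 6, 3], .l [5, 8], .l [6, 9, 7, 9, 4, 1, 8, 2, 5], .l [6, 9, 7, 7, 5, 7, 4, 1], .l [7, 8], .l [6, 7, 5, 5, 3, 9, 10, 8, 4, 1, 6, 0, 5], .l [6, 7, 5, 5, 3, 7, 4, 1], .r 1592 [1, 2, 7, 3, 4, 5, 6] [1, 1, 1, 1, 1, 1, 1, 1], .l [6, 7, 5, 5, 3, 5, 2, 1], .l [6, 7, 5, 10, 11, 8, 2, 8, 1, 8, 1, 4, 5], .l [6, 7, 5, 5, 3, 5, 2, 6], .l [13, 14, 10, 12, 9, 9, 7, 7, 5, 7, 4, 7], .l [6, 9, 2, 12, 5, 10, 6, 10, 1, 6, 3], .l [6, 7, 5, 5, 3, 5, 2, 8], .l [11, 12, 10, 12, 9, 9, 7, 7, 5, 7, 4, 7], .l [11, 12, 10, 12, 9,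 9, 7, 7, 5, 7, 4, 1], .l [11, 12, 10, 14, 11, 11, 9, 11, 6, 1, 3, 6, 3], .l [6, 7, 5, 5, 3, 5, 2, 10], .l [11, 12, 10, 14, 11, 11, 9, 9, 7, 9, 6, 1]]),
([p 2 0, g, s 3 0, m 0 1, g, m 1 0, g, p 0 2, p 4 3, g, p 5 4, g, m 0 5, g], .hi 5, [.l [2, 6, 9, 6, 3, 5, 7, 6, 1], .l [1, 9, 7, 4], .l [2, 6], .y [3, 5], .l [4, 9, 4, 1, 8, 2, 5], .l [4, 7, 5, 7, 4, 1], .l [5, 6], .l [4, 5, 3, 9, 10, 8, 4, 1, 6, 0, 5], .l [4, 5, 3, 7, 4, 1], .r 1593 [1, 6, 2, 3, 4, 5] [1, 1, 1, 1, 1, 1, 1], .l [4, 5, 3, 5, 2, 1], .l [4, 10, 11, 8, 2, 8, 1, 8, 1, 4, 5], .l [4, 5, 3, 5, 2, 6], .l [11, 12, 8, 10, 7, 7, 5, 7, 4, 7], .l [4, 5, 3, 5, 2, 8, 1, 8, 6, 0, 5], .l [4, 5, 3, 5, 2, 8], .l [9, 10, 8, 10, 7, 7, 5, 7, 4, 7], .l [9, 10, 8, 10, 7, 7, 5, 7,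 4, 1], .l [9, 10, 8, 12, 9, 11, 6, 1, 3, 6, 3], .l [4, 5, 3, 5, 2, 10], .l [9, 10, 8, 12, 9, 9, 7, 9, 6, 1]]),
([p 1 0, g, s 2 0, m 0 0, g, p 0 1, p 3 2, g, p 4 3, g, m 0 4, g], .hi 3, [.l [8, 3, 4], .l [1, 7, 5, 2], .l [2, 4], .y [3], .l [8, 5, 1], .l [2, 7, 4, 1], .r 1594 [5, 1, 2, 3, 4] [1, 1, 1, 1, 1, 1], .l [2, 5, 2, 1], .l [6, 3, 6], .l [2, 5, 2, 6], .l [9, 10, 6, 8, 5, 7, 4, 7], .l [6, 3, 8], .l [2, 5, 2, 8], .l [7, 8, 6, 8, 5, 7, 4, 7], .l [7, 8, 6, 8, 5, 7, 4, 1], .l [6, 3, 10], .l [2, 5, 2, 10], .l [7, 8, 6, 10, 7, 9, 6, 1]]),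
([p 2 0, g, s 3 0, s 0 1, g, p 0 2, p 4 3, p 5 4, g, m 0 5, g, s 1 0, g], .hi 0, [.l [2, 1, 7, 3, 10, 3, 1, 3, 4, 1], .l [0, 1], .l [2, 1], .l [3, 10, 7, 8, 4, 1], .l [8, 5, 11, 4, 7, 1, 6, 1], .l [0, 4], .l [5, 4], .y [0, 5], .l [0, 8, 10, 0, 8, 3, 8, 3, 4, 1], .l [0, 8], .l [9, 8], .l [9, 8], .l [7, 0, 8, 10, 8, 8, 3, 0, 4], .l [0, 10], .l [11, 10], .l [6, 3, 9, 4, 9, 3, 8, 1], .l [0, 12], .l [13, 12]]),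
([p 2 0, g, s 0 1, g, s 3 0, s 0 0, g, p 1 2, p 4 3, p 5 4, g, m 0 5, g], .hi 5, [.l [3, 10, 3, 7, 9, 4, 6, 5], .l [2, 10, 3, 8, 9, 3, 6], .l [10, 3, 6], .l [1, 8, 3, 4, 7, 5, 2, 1], .l [1, 10, 3, 4, 9, 7, 4, 3], .l [4, 10, 3, 8, 9, 3, 4], .l [10, 3, 4], .y [5], .l [12, 5, 3, 6, 2, 9, 4, 7], .l [10, 5, 1], .l [12, 5, 0, 3, 6, 2, 9, 4, 7], .l [8, 3, 9, 1, 10, 8, 4, 7], .l [8, 3, 9], .l [3, 11, 5, 1, 6, 3, 8], .l [3, 11, 5, 1, 6, 3, 1], .r 1596 [6, 2, 3, 4, 5] [3, 1, 1, 1, 1], .l [8, 3, 11], .l [3, 13, 7, 1, 8, 5, 1]]),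
([p 3 0, g, p 1 0, g, s 4 0, p 2 1, g, p 0 2, g, p 0 3, p 5 4, g, p 0 5, g], .hi 4, [.l [5, 12, 5, 0, 9, 11, 6, 6, 7], .l [5, 12, 5, 0, 9, 11, 6, 6, 7], .l [7, 11, 3, 5, 7, 9, 1, 4, 8, 4, 1], .l [3, 12, 5, 0, 9, 11, 6, 8, 1], .l [3, 12, 5, 0, 9, 11, 6, 8, 1], .l [5, 12, 5, 0, 7, 11, 8, 8, 1], .l [7, 2, 11, 8, 1, 8, 10, 8, 3], .l [3, 12, 7, 0, 9, 11, 8, 8, 3], .l [7, 2, 11, 8, 1, 8, 10, 8, 3], .l [3, 10, 5, 0, 7, 9, 6, 6, 3], .l [9, 4, 6, 5, 10, 6, 1, 6, 8, 6, 1], .l [3, 12, 7, 0, 9, 11, 8, 8, 5], .l [9, 4, 6, 5, 10, 6, 1, 6, 8, 6, 1], .l [3, 10, 5, 0, 7, 9, 6, 6, 5], .l [4, 11, 13, 11, 4], .l [4, 11, 13, 11, 4], .l [10, 5, 7, 6, 6, 4, 8, 5, 8, 2, 3], .y [4, 12, 10], .l [3, 10, 5, 0, 7, 9, 6, 6, 7], .l [3, 10, 5, 0, 7, 9,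 6, 6, 7], .l [10, 5, 7, 6, 6, 4, 10, 7, 3, 6, 1]]),
([p 2 0, g, s 3 0, p 1 0, g, p 0 1, g, p 0 2, p 4 3, g, p 0 4, g], .hi 3, [.l [5, 9, 3, 9, 1, 6, 8, 2, 3], .r 1598 [5, 1, 2, 3, 4] [1, 1, 1, 1, 1, 1], .l [5, 2], .l [3, 9, 5, 9, 1, 4, 8, 4, 1], .l [3, 4], .l [5, 1], .y [3, 5], .l [3, 9, 5, 9, 1, 6, 8, 2, 5], .l [3, 6], .l [7, 3], .l [3, 6], .l [3, 9, 11, 9, 3], .l [3, 9], .l [10, 6], .l [3, 9], .l [3, 7, 3, 7, 1, 4, 6, 2, 5], .l [3, 11], .l [12, 8]])]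

def d06_1 : List (List Item × Qry × List Rf) := [
([p 1 0, g, s 2 0, p 0 0, g, p 0 1, p 3 2, g, p 4 3, g, m 0 4, g], .lo 3, [.l [0, 2], .l [8, 3, 4], .l [2, 4], .l [1, 7, 5, 2], .c, .y [3], .l [8, 5, 1], .r 1599 [5, 1, 2, 3] [1, 1, 1, 1, 3], .l [2, 7, 4, 1], .l [6, 3, 6], .l [9, 10, 6, 8, 5, 7, 4, 7], .l [2, 5, 2, 6], .l [6, 3, 8], .l [7, 8, 6, 8, 5, 7, 4, 7], .l [2, 5, 2, 8], .l [6, 3, 10], .l [7, 8, 6, 10, 7, 9, 6, 1], .l [2, 5, 2, 10]]),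
([p 2 0, g, s 0 1, g, s 3 0, g, p 1 2, p 4 3, p 5 4, g, m 0 5, g], .top 5, [.l [6, 1, 2], .r 1597 [1, 2, 3, 4, 5] [1, 1, 1, 1, 1], .r 1600 [2, 3, 4, 5] [3, 1, 0, 1, 1], .r 1595 [2, 3, 4, 5] [3, 1, 0, 1, 1]]),
([p 2 0, g, s 3 1, g, p 1 2, p 4 3, p 5 4, g, m 0 5, g], .hi 0, [.l [3, 7, 2, 5, 1, 5, 2, 2, 1], .l [0, 1], .l [2, 1], .l [7, 4, 1, 4, 5, 3, 3, 2, 2, 0, 1], .l [0, 3], .l [4, 3], .l [1, 4, 2, 1, 6, 4, 4, 2, 3], .l [0, 7], .l [8, 7], .y [0, 8, 6, 5, 2, 4], .l [1, 4, 2, 1, 8, 6, 6, 4, 1], .l [0, 9], .l [10, 9]]),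
([p 1 0, g, s 2 0, g, p 0 1, p 3 2, p 4 3, g, m 0 4, g], .lo 4, [.y [0, 4], .r 1601 [5, 1, 2, 3, 4] [1, 1, 1, 1, 1], .l [2, 5], .l [1, 6, 4, 3], .r 1602 [5, 1, 2, 3, 4] [1, 1, 1, 1], .l [9, 5, 1, 2, 4, 1, 5, 2, 3], .l [4, 5], .l [3, 6, 2, 1], .l [2, 7, 3, 6, 4, 6, 4, 2, 3], .l [5, 6, 5, 7, 6, 6, 2, 5], .l [3, 4, 0, 6], .l [7, 10, 6, 6, 2, 6, 1], .l [5, 6, 5, 9, 8, 8, 4, 1], .l [3, 4, 0, 8]]),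
([p 2 0, g, s 0 1, g, s 3 0, g, p 1 2, p 5 3, g, p 4 0, g, s 0 4, p 6 5, g, m 0 6, g], .hi 9, [.l [9, 2, 10, 3, 11, 3, 8], .l [9, 2, 10, 3, 11, 3, 8], .l [11, 8], .l [7, 2, 8, 3, 6, 2, 7, 5, 1], .l [9, 2, 10, 5, 11, 3, 6], .l [9, 2, 10, 5, 11, 3, 6], .l [11, 6], .l [10, 2, 10, 6, 12, 3, 5, 2, 9], .l [13, 14, 9, 11, 8, 10, 4, 11], .l [11, 4], .l [1, 11, 1, 12, 8, 4, 3], .l [10, 1, 7, 3, 9, 2, 10, 5, 7, 2, 7], .l [11, 1], .l [1, 11, 1, 12, 8, 4, 3], .l [9, 10], .l [11, 1], .y [9, 11], .l [9, 13, 1, 14, 8, 3, 8, 4, 9], .l [9, 13], .l [14, 4], .l [14, 4], .l [16, 6, 6, 4, 1], .l [9, 15], .l [16, 6]]),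
([p 2 0, g, s 3 1, g, p 1 2, p 5 3, g, p 4 0, g, s 0 4, p 6 5, g, m 0 6, g], .lo 9, [.l [0, 8, 8, 6, 8, 6, 3], .l [2, 10, 10, 8, 10, 8, 3], .l [2, 10, 10, 8, 10, 8, 3], .l [3, 1, 9, 9, 7, 9, 7, 2, 1], .l [4, 10, 10, 8, 10, 8, 1], .l [4, 10, 10, 8, 10, 8, 1], .l [5, 1, 9, 9, 7, 9, 7, 0, 1], .l [3, 11, 3, 11, 5, 0, 1, 3, 1, 5, 1, 3, 3], .l [1, 11, 3, 11, 5, 2, 1], .l [5, 2, 4, 2, 7, 9, 1, 6, 1, 4, 5], .y [7, 9], .l [10, 6, 6, 10, 4, 4, 3, 3, 1, 4, 1, 2, 3], .l [1, 11, 1, 11, 5, 2, 1], .l [5, 2, 4, 2, 7, 9, 1, 6, 1, 4, 5], .l [12, 2, 12], .l [12, 2, 12], .l [5, 2, 4, 2, 5, 7, 1, 6, 1, 4, 5], .l [14, 4, 1], .l [14, 4, 1], .l [5, 2, 4, 2, 6, 10, 6, 1, 2, 0, 1]]),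
([p 1 0, g, s 2 0, g, p 0 1, p 4 2, g, p 3 0, g, s 0 3, p 5 4, g, m 0 5, g], .lo 4, [.y [0, 4], .r 1604 [6, 1, 2, 3, 4, 5] [1, 1, 1, 1, 1, 1, 1], .l [2, 5], .l [1, 6, 4, 3], .r 1605 [6, 1, 2, 3, 4, 5] [1, 1, 1, 1, 1, 1], .l [13, 9, 1, 2, 7, 1, 9, 2, 7], .l [4, 5], .l [3, 6, 2, 1], .l [13, 4, 1, 7, 2, 4, 9, 6, 7], .l [11, 12, 5, 7, 6, 6, 2, 9], .l [3, 4, 0, 5], .l [9, 10, 5, 7, 6, 6, 2, 7], .l [3, 9, 11, 6, 0, 8, 1, 2, 7], .l [11, 12, 5, 9, 8, 8, 4, 9], .l [3, 4, 0, 7], .l [3, 7, 9, 6, 0, 8, 1, 2, 7], .l [9, 10, 5, 11, 10, 10, 6, 9], .l [3, 4, 0, 10], .l [8, 4, 12, 3, 1, 8, 4, 8, 1], .l [9, 10, 5, 13, 12, 12, 8, 5], .l [3, 4, 0, 12]]),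
([p 2 1, s 0 0, g, s 1 0, g, p 0 2, p 4 0, g, s 3 0, g, s 0 3, p 5 4, g, m 0 5, g], .hi 1, [.y [1], .l [2, 12, 1, 12, 8, 4, 4, 1], .l [2, 7, 4, 4, 1], .r 578 [1, 6, 2] [1, 1, 1, 9], .l [4, 12, 1, 12, 8, 2, 2, 3], .l [3, 2, 3], .l [13, 2, 10, 11, 8, 10, 8, 2, 2, 7], .l [3, 2, 3], .l [1, 7, 12, 10, 3], .l [0, 5, 4, 6, 11, 9, 1], .l [3, 8, 5, 6, 11, 7, 1], .l [1, 9, 12, 8, 3], .l [0, 5, 4, 8, 11, 7, 1], .l [3, 10, 7, 8, 11, 5, 1], .l [1, 9, 10, 6, 3], .l [3, 2, 11, 13, 0, 11, 1, 10, 6, 1], .l [3, 2, 11], .l [3, 2, 9, 1, 9, 5, 1, 8, 4, 7], .l [12, 13, 1, 5, 4, 9, 1, 8, 4, 1], .l [12, 15, 3, 7, 6, 11, 1, 10, 6, 1], .l [3, 2, 13], .l [12, 15, 3, 7, 6, 11, 1, 10, 6, 1]]),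
([p 2 1, s 0 0, g, p 0 2, p 4 0, g, s 3 0, g, s 0 3, p 5 4, g, m 0 5, g, s 1 0, g], .hi 1, [.y [1], .l [2, 10, 1, 10, 6, 2, 2, 9], .l [2, 5, 2, 2, 12], .r 854 [6, 2] [1, 1, 11], .l [2, 3, 0, 0, 10], .l [1, 5, 10, 8, 1], .l [0, 3, 2, 4, 9, 7, 10], .r 853 [6, 2] [1, 2, 10], .l [1, 7, 10, 6, 1], .l [0, 3, 2, 6, 9, 5, 10], .l [0, 12, 15, 2, 12, 3, 11, 5, 2, 7], .l [1, 7, 8, 4, 1], .l [15, 14, 9, 1, 10, 12, 8, 5], .l [15, 14, 9], .l [8, 1, 10, 3, 11, 5, 9, 3, 8, 3], .l [0, 12, 3, 1, 10, 8, 8, 2, 7], .l [8, 1, 12, 5, 11, 3, 9, 5, 8, 3], .l [15, 14, 11], .l [0, 14, 5, 1, 12, 8, 10, 4, 9], .l [13, 12, 13, 5, 1, 3, 8, 5], .l [13, 12, 13], .l [10, 15, 5, 7, 6, 11, 1, 10, 6, 3]]),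
([p 2 1, s 0 0, g, s 3 0, g, p 0 2, p 5 3, g, s 4 0, g, s 0 4, p 6 5, g, s 1 0, g, m 0 6, g], .hi 1, [.y [1], .l [0, 14, 16, 0, 14, 1, 13, 9, 6, 1], .l [0, 14, 1, 15, 8, 6, 1], .r 854 [7, 2] [1, 3, 11], .l [0, 14, 16, 0, 14, 1, 13, 9, 6, 3], .l [0, 14, 1, 15, 8, 6, 3], .l [8, 4, 7, 3, 9, 1, 9, 0, 10, 5, 6, 1], .l [0, 12, 1, 13, 6, 4, 3], .l [1, 7, 12, 10, 3], .l [0, 14, 1, 15, 6, 4, 7], .l [5, 8, 3, 13, 1, 14, 8, 6, 11], .l [1, 9, 12, 8, 3], .l [0, 14, 1, 15, 6, 4, 9], .l [0, 14, 16, 0, 14, 3, 13, 7, 4, 9], .l [1, 9, 10, 6, 3], .l [0, 14, 16, 0, 12, 1, 11, 7, 4, 9], .l [15, 14, 11], .l [0, 14, 3, 15, 6, 4, 11], .l [0, 12, 16, 0, 14, 1, 13, 9, 4, 5], .l [0, 12, 1, 15, 8, 4, 5], .l [6, 2, 14, 9, 6, 1, 12, 6, 4, 9], .l [0,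 12, 14, 0, 12, 1, 11, 7, 4, 5], .l [0, 12, 14, 0, 12, 1, 11, 7, 4, 9], .l [0, 12, 1, 13, 6, 4, 13], .l [0, 12, 16, 2, 14, 1, 13, 9, 4, 5]]),
([p 1 0, s 0 0, g, s 2 0, g, p 0 1, p 4 2, g, s 3 0, g, s 0 3, p 5 4, g, m 0 5, g], .hi 0, [.c, .r 1607 [6, 1, 3, 4, 5] [1, 3, 1, 1, 1, 1], .l [0, 2], .l [3, 2], .r 1607 [6, 1, 3, 4, 5] [3, 1, 1, 1, 1, 1], .l [0, 4], .l [5, 4], .y [0, 5], .l [0, 7, 12, 10, 4], .l [0, 7], .l [8, 7], .l [0, 9, 12, 8, 4], .l [0, 9], .l [10, 9], .l [0, 9, 10, 6, 4], .r 1609 [6, 1, 2, 3, 4, 5] [1, 1, 1, 1, 1, 1, 1], .l [0, 12], .l [13, 12], .l [13, 12], .r 1608 [6, 1, 3, 4, 5] [3, 1, 1, 1, 1, 1], .l [0, 14], .l [15, 14]]),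
([p 1 0, s 0 0, g, s 2 0, g, p 0 1, p 3 2, g, s 0 0, p 4 3, g, m 0 4, g], .hi 8, [.l [1, 7, 8, 6, 3], .l [3, 9, 10, 8, 3], .l [8, 2, 7, 5, 7, 4, 7, 0, 6], .l [3, 9, 10, 8, 3], .l [5, 9, 10, 8, 1], .l [8, 4, 7, 3, 7, 1, 7, 0, 6], .l [5, 9, 10, 8, 1], .l [6, 2, 5, 3, 5, 1, 5, 0, 4], .r 1610 [1, 2, 5, 3, 4] [1, 1, 1, 1, 1, 1], .r 1606 [1, 2, 5, 3, 4] [2, 1, 1, 1, 1, 1], .l [6, 2, 5, 3, 7, 1, 7, 0, 6], .y [8], .l [11, 2, 11], .l [6, 2, 5, 3, 9, 1, 2, 7, 6], .l [11, 2, 11], .l [11, 2, 1], .l [13, 4, 1], .l [6, 2, 8, 0, 8, 5, 3, 5, 6], .l [13, 4, 1]]),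
([p 1 0, g, s 2 0, g, p 0 1, p 4 2, g, m 0 3, g, m 3 0, p 5 4, g, m 0 5, g], .lo 7, [.l [7, 6], .l [7, 2, 6, 4, 6, 3, 8, 2, 4, 2, 5], .l [9, 6], .l [7, 2, 6, 4, 6, 3, 8, 2, 4, 2, 5], .l [5, 2, 4, 2, 4, 3, 6, 2, 2, 0, 3], .l [1, 9, 4, 1, 6, 3, 8, 4, 6, 2, 5], .l [9, 4], .l [7, 4, 6, 2, 6, 1, 8, 2, 6, 4, 5], .l [9, 1, 11, 7, 9, 2, 9], .l [9, 1], .l [8, 1, 3, 8, 4, 10, 3, 5, 2, 7], .l [1, 9, 1, 10, 6, 2, 8, 1, 2, 6, 5], .l [9, 1], .l [7, 8], .y [7, 9], .l [12, 4, 4, 2, 10], .l [12, 4], .l [7, 11], .l [14, 6, 6, 4, 1], .l [14, 6], .l [7, 13]]),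
([p 1 0, g, s 2 0, g, p 0 1, p 3 2, g, m 0 0, p 4 3, g, m 0 4, g], .lo 7, [.l [7, 6], .l [7, 2, 6, 4, 6, 3, 6, 0, 5], .l [9, 6], .l [7, 2, 6, 4, 6, 3, 6, 0, 5], .l [5, 2, 4, 2, 4, 3, 4, 0, 3], .l [7, 4, 6, 2, 6, 1, 6, 0, 5], .l [9, 4], .l [7, 4, 6, 2, 6, 1, 6, 0, 5], .l [5, 2, 4, 2, 6, 1, 6, 0, 5], .l [9, 1], .r 1612 [1, 2, 5, 3, 4] [1, 1, 1, 1, 1, 1], .y [7], .l [10, 2, 10], .l [10, 2], .l [7, 9], .l [12, 4, 1], .l [12, 4], .l [7, 11]]),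
([p 1 0, s 0 0, g, s 2 0, g, p 0 1, p 3 2, g, p 4 3, g, m 0 4, g], .bot 7, [.r 1603 [1, 2, 3, 4] [2, 1, 1, 1], .r 1611 [1, 2, 3, 4] [1, 1, 1, 1, 1], .r 1590 [1, 2, 3, 4] [2, 1, 1, 1, 1], .r 1613 [1, 2, 3, 4] [2, 1, 1, 1, 1]]),
([p 2 1, s 3 0, g, s 1 0, g, p 0 2, p 0 3, g], .lo 6, [.y [1, 6], .l [3, 7, 3], .l [3, 7], .l [2, 7, 4, 6], .l [0, 2, 2, 3, 2], .l [5, 7, 1], .l [5, 7], .l [4, 7, 2, 6], .l [6, 4, 5, 1, 4], .l [3, 6, 3, 4, 6, 4, 1], .l [6, 4, 5, 1, 4]]),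
([p 3 1, s 4 2, g, s 2 0, g, p 0 3, p 5 4, g, p 0 5, m 0 6, g, m 6 0, g, s 1 0, g], .lo 9, [.l [11, 7, 4, 7, 10, 8, 4], .l [11, 7], .l [2, 5, 3, 6, 2, 8, 3, 5, 2], .l [2, 3, 1, 4, 2, 6, 3, 3, 0], .l [3, 1, 10, 5, 2, 6, 9, 6, 2, 7], .l [11, 5], .l [15, 14, 1, 13, 7, 11, 10, 10, 8, 6, 5, 5, 3], .l [3, 1, 10, 2, 12, 4, 6, 1, 6, 0, 6, 3], .l [11, 2], .l [15, 14, 1, 13, 9, 11, 10, 10, 6, 8, 7, 7, 5], .l [2, 6, 10, 1, 11, 9, 6, 2, 2, 7], .l [11, 1], .l [9, 10], .y [9, 11], .l [3, 1, 8, 10, 7, 3, 2, 1, 4, 5, 2, 5], .l [13, 3], .l [9, 12], .l [0, 9, 12, 8, 4, 1, 10, 6, 8, 4, 4, 2, 3], .l [3, 1, 8, 12, 9, 3, 6, 8, 4, 1], .l [15, 5], .l [9, 14]]),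
([p 3 1, s 4 2, g, s 2 0, g, p 0 3, p 5 4, g, p 0 5, m 0 0, g, s 1 0, g], .hi 9, [.l [13, 12, 3, 11, 5, 7, 6, 6, 4, 5], .l [2, 7, 4, 9], .l [3, 10], .l [13, 12, 1, 11, 5, 9, 8, 8, 6, 3], .l [4, 7, 2, 9], .l [5, 10], .l [4, 5, 0, 7], .l [8, 10, 7], .l [8, 0, 10, 7], .l [8, 10], .l [2, 6, 7, 6, 2, 2, 6, 2, 0, 1], .y [9], .l [13, 12, 1, 11, 7, 9, 8, 8, 6, 1], .l [13, 12, 1, 11, 7, 9, 8, 8, 6, 1], .r 1616 [1, 2, 3, 4, 5, 6] [1, 1, 1, 1, 1, 1], .l [11, 10, 1, 9, 5, 7, 6, 6, 4, 5], .l [11, 10, 1, 9, 5, 7, 6, 6, 4, 5], .l [2, 6, 7, 6, 2, 2, 6, 8, 6, 1]]),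
([p 3 1, s 4 2, g, s 2 0, g, p 0 3, p 5 4, g, p 0 5, s 0 6, g, m 6 0, g, s 1 0, g], .lo 9, [.l [15, 14, 3, 13, 7, 9, 8, 8, 6, 7], .l [11, 7, 4, 7, 10, 8, 4], .l [15, 14, 3, 13, 7, 9, 8, 8, 6, 7], .l [13, 12, 1, 11, 7, 9, 8, 8, 6, 5], .l [15, 14, 1, 13, 7, 11, 10, 10, 8, 5], .l [15, 14, 1, 13, 7, 11, 10, 10, 8, 5], .l [4, 8, 9, 8, 2, 7, 3], .l [8, 10, 7], .l [8, 10, 7], .l [0, 7, 15, 7, 2, 11, 4], .l [15, 14, 1, 13, 9, 11, 10, 10, 8, 1], .l [0, 6, 4, 12, 3, 6, 7, 4, 1], .l [15, 14, 1, 13, 9, 11, 10, 10, 8, 1], .y [9, 11], .l [15, 14, 1, 13, 9, 11, 10, 10, 8, 3], .l [0, 6, 4, 12, 3, 6, 7, 4, 1], .l [15, 14, 1, 13, 9, 11, 10, 10, 8, 3], .l [13, 12, 1, 11, 7, 9, 8, 8, 6, 3], .l [13, 12, 1, 11, 7, 9, 8, 8, 6, 7], .l [0, 6, 4,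 14, 5, 8, 9, 6, 3], .l [13, 12, 1, 11, 7, 9, 8, 8, 6, 7]]),
([p 3 1, s 4 2, g, s 2 0, g, p 0 3, p 5 4, g, p 0 5, s 0 0, g, s 1 0, g], .hi 9, [.l [13, 12, 3, 11, 5, 7, 6, 6, 4, 5], .l [13, 12, 3, 11, 5, 7, 6, 6, 4, 5], .l [3, 10, 7, 5, 7, 6, 3], .l [13, 12, 1, 11, 5, 9, 8, 8, 6, 3], .l [4, 8, 9, 8, 2, 7, 3], .l [13, 12, 1, 11, 5, 9, 8, 8, 6, 3], .l [4, 6, 7, 6, 0, 5, 3], .l [8, 10, 7], .l [0, 7, 13, 5, 2, 9, 4], .l [8, 10, 7], .l [0, 7, 11, 3, 0, 7, 4], .y [9], .l [13, 12, 1, 11, 7, 9, 8, 8, 6, 1], .l [13, 12, 1, 11, 7, 9, 8, 8, 6, 1], .r 1618 [1, 2, 3, 4, 5, 6] [1, 1, 1, 1, 1, 1], .l [11, 10, 1, 9, 5, 7, 6, 6, 4, 5], .l [11, 10, 1, 9, 5, 7, 6, 6, 4, 5], .l [2, 6, 7, 6, 2, 2, 6, 8, 6, 1]]),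
([p 3 1, s 4 2, g, s 2 0, g, p 0 3, p 5 4, g, p 0 5, p 6 0, g, p 0 6, g, s 1 0, g], .hi 9, [.l [11, 7, 4, 7, 10, 8, 4], .l [2, 5, 3, 6, 2, 8, 3, 5, 2], .l [11, 7], .l [3, 1, 10, 5, 2, 6, 9, 6, 2, 7], .l [15, 14, 1, 13, 7, 11, 10, 10, 8, 6, 5, 5, 3], .l [11, 5], .l [13, 12, 1, 11, 7, 9, 8, 8, 6, 4, 3, 3, 1], .l [3, 1, 10, 2, 12, 4, 6, 1, 6, 0, 6, 3], .l [15, 14, 1, 13, 9, 11, 10, 10, 6, 8, 7, 7, 5], .l [11, 2], .l [13, 12, 1, 11, 7, 9, 8, 8, 6, 6, 5, 5, 3], .l [2, 6, 10, 1, 11, 9, 6, 2, 2, 7], .l [9, 10], .l [11, 1], .y [9, 11], .l [3, 1, 8, 10, 7, 3, 2, 1, 4, 5, 2, 5], .l [9, 12], .l [13, 3], .l [3, 1, 8, 12, 9, 3, 6, 8, 4, 1], .l [9, 14], .l [15, 5]]),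
([p 3 1, s 4 2, g, s 2 0, g, p 0 3, p 5 4, g, p 0 5, p 0 0, g, s 1 0, g], .lo 9, [.l [13, 12, 3, 11, 5, 7, 6, 6, 4, 5], .l [3, 10], .l [2, 7, 4, 9], .l [2, 5, 2, 2, 4, 1, 1, 4, 3], .l [13, 12, 1, 11, 5, 9, 8, 8, 6, 3], .l [5, 10], .l [4, 7, 2, 9], .l [8, 10, 7], .l [8, 10], .l [8, 0, 10, 7], .y [9], .l [13, 12, 1, 11, 7, 9, 8, 8, 6, 1], .r 1620 [1, 2, 3, 4, 5, 6] [1, 1, 1, 1, 1, 1], .l [13, 12, 1, 11, 7, 9, 8, 8, 6, 1], .l [11, 10, 1, 9, 5, 7, 6, 6, 4, 1], .l [11, 10, 1, 9, 5, 7, 6, 6, 4, 5], .l [2, 6, 7, 6, 2, 2, 6, 8, 6, 1], .l [11, 10, 1, 9, 5, 7, 6, 6, 4, 5]]),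
([p 3 1, s 4 2, g, s 2 0, g, p 0 3, p 5 4, g, p 0 5, g, s 1 0, g], .top 9, [.l [2, 6, 7, 6, 2, 2, 4, 1], .r 1619 [1, 2, 3, 4, 5] [1, 1, 1, 1, 1], .r 1621 [1, 2, 3, 4, 5] [1, 1, 1, 1, 1], .r 1617 [1, 2, 3, 4, 5] [1, 1, 1, 1, 1]]),
([p 2 1, s 3 0, g, p 0 2, p 4 3, g, p 0 4, g, s 1 0, g], .hi 1, [.r 1622 [1, 5, 2, 3, 4] [1, 1, 1, 1, 1], .l [2, 5, 2, 2, 7], .l [3, 1, 5, 3, 6], .l [2, 3, 0, 0, 5], .l [1, 5, 7, 5, 1], .l [0, 3, 2, 4, 6, 4, 5], .l [4, 2, 3, 1, 3, 2, 5], .y [1, 6, 4], .l [4, 2, 7, 4, 0, 4, 1], .l [10, 9, 6], .l [4, 2, 3, 1, 5, 4, 5], .l [4, 2, 9, 6, 0, 6, 3], .l [8, 7, 8], .l [4, 2, 3, 1, 7, 6, 3]]),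
([p 2 1, s 3 0, g, p 0 2, p 0 3, g, s 1 0, g], .lo 4, [.y [1, 4], .l [3, 5, 1], .l [3, 5], .l [0, 7, 4, 2, 4], .l [4, 2, 3, 1, 2], .r 1623 [1, 2, 3, 4] [1, 1, 1, 1], .l [4, 2, 3, 1, 2], .l [0, 5, 5, 3, 2], .l [4, 2, 3, 1, 4], .l [0, 5, 7, 5, 2], .l [0, 5, 1, 6, 4, 2, 3]]),
([p 1 0, s 2 0, g, p 0 1, p 0 2, g], .hi 0, [.r 1615 [3, 1, 2] [1, 1, 1], .l [0, 2], .l [3, 2], .y [0, 3], .l [0, 3], .r 1624 [3, 1, 2] [1, 1, 1], .l [0, 5], .l [6, 5]]),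
([p 1 0, g, s 2 0, g, p 0 1, p 3 2, g, p 4 3, g, m 0 4, g], .top 1, [.r 1625 [1, 2] [1, 5], .r 1614 [1, 2, 3, 4] [1, 1, 1, 1, 1], .r 334 [] [10], .r 444 [] [10]]),
([p 1 0, g, p 0 1, p 2 0, g, p 3 2, g, m 0 3, g], .hi 3, [.r 1626 [1, 4, 2, 3] [1, 1, 1, 1, 1], .l [6, 7, 5, 5, 2, 4, 2, 3], .l [5, 2], .l [4, 5, 3, 3, 2, 2, 0, 1], .r 1588 [1, 4] [1, 1, 5], .l [3, 4], .l [5, 1], .r 1588 [1, 4] [1, 3, 3], .l [3, 6], .l [7, 3], .y [3, 7, 5], .r 1588 [1, 4] [1, 5, 1], .l [3, 8], .l [9, 5]]),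
([p 2 1, s 4 0, g, p 0 2, p 0 0, s 0 3, g, p 3 0, g, s 0 4, g, s 1 0, g], .hi 4, [.l [6, 2, 10, 5, 9, 1, 8, 1], .l [13, 12, 12, 7, 9, 8, 1], .l [6, 2], .l [11, 10, 10, 7, 7, 6, 1], .y [4], .c, .l [7, 2, 7], .l [4, 6], .l [7, 2], .l [9, 4, 1], .l [4, 8], .l [9, 4], .l [9, 4, 1], .l [11, 6, 1], .l [4, 10], .l [11, 6], .l [13, 8, 1], .l [4, 12], .l [13, 8]]),
([p 2 1, s 5 0, g, p 0 2, p 4 0, g, m 0 0, s 0 3, g, p 3 4, g, s 0 5, g, s 1 0, g], .lo 6, [.l [0, 12, 1, 9, 1, 9, 4, 1], .l [8, 4, 12, 5, 11, 1, 10, 1], .l [8, 4], .l [15, 14, 14, 9, 11, 8, 1], .l [6, 1], .l [8, 1, 12, 5, 11, 3, 7, 3, 8, 1], .l [8, 1], .l [6, 13, 7, 13, 1, 9, 1, 1, 4, 7], .y [6], .l [9, 2, 9], .l [9, 2], .l [6, 8], .l [11, 4, 1], .l [11, 4], .l [6, 10],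 .l [13, 6, 1], .l [13, 6], .l [6, 12], .l [13, 6, 1], .l [15, 8, 1], .l [15, 8], .l [6, 14]]),
([p 2 1, s 5 0, g, p 0 2, p 4 0, g, p 0 0, s 0 3, g, p 3 4, g, s 0 5, g, s 1 0, g], .hi 6, [.l [8, 4, 12, 5, 11, 1, 10, 1], .l [15, 14, 14, 9, 11, 8, 1], .l [8, 4], .l [13, 12, 12, 9, 9, 6, 1], .l [8, 1, 12, 5, 11, 3, 7, 3, 8, 1], .l [6, 13, 7, 13, 1, 9, 1, 1, 4, 7], .l [8, 1], .y [6], .c, .l [9, 2, 9], .l [6, 8], .l [9, 2], .l [11, 4, 1], .l [6, 10], .l [11, 4], .l [11, 4, 1], .l [13, 6, 1], .l [6, 12], .l [13, 6], .l [15, 8, 1], .l [6, 14], .l [15, 8]]),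
([p 2 1, s 6 0, g, p 0 2, p 5 0, g, s 3 0, g, s 0 3, s 0 4, g, p 4 5, g, s 0 6, g, s 1 0, g], .lo 8, [.l [1, 7, 10, 6, 1], .l [3, 9, 12, 8, 1], .l [3, 9, 12, 8, 1], .l [0, 16, 13, 6, 9, 5, 11], .l [8, 3, 12, 5, 11, 3, 7, 3, 8, 1], .l [5, 15, 10, 14, 11, 1, 4, 7, 9, 4, 1], .l [10, 3, 14, 5, 13, 5, 9, 3, 10, 1], .l [5, 15, 10, 14, 8, 1, 1, 4, 10, 3], .y [6, 8], .l [5, 15, 10, 14, 11, 1, 4, 7, 9, 4, 1], .l [10, 1, 14, 5, 13, 5, 9, 3, 10, 1], .l [5, 15, 10, 14, 11, 1, 4, 7, 9, 4], .l [7, 15, 8, 14, 1, 11, 3, 3, 6, 8, 3], .l [11, 2, 11], .l [12, 15, 3, 14, 8, 12, 3, 11, 4, 5], .l [5, 13, 4, 1, 6, 13, 8, 4, 10, 1], .l [13, 4, 1], .l [10, 15, 5, 14, 6, 12, 5, 11, 4, 5], .l [17, 16, 11, 4, 11, 13, 9, 3], .l [15, 6, 1], .l [8, 14,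 1, 5, 13, 5, 9, 3, 10, 1], .l [0, 14, 14, 7, 10, 6, 2], .l [0, 14, 16, 9, 12, 8, 2, 10], .l [17, 8, 1], .l [8, 16, 3, 7, 9, 8, 1, 1, 6, 3]]),
([p 2 1, s 6 0, g, p 0 2, p 5 0, g, s 0 3, s 0 4, g, s 3 0, g, p 4 5, g, s 0 6, g, s 1 0, g], .lo 6, [.l [1, 5, 10, 8, 1], .l [3, 7, 12, 10, 1], .l [3, 7, 12, 10, 1], .l [0, 16, 5, 6, 11, 4, 6, 4, 10, 3], .l [6, 1, 12, 7, 11, 1, 5, 3, 8, 3], .l [7, 15, 8, 14, 1, 11, 3, 3, 6, 8, 3], .l [8, 1, 14, 7, 13, 3, 7, 3, 10, 3], .l [5, 15, 10, 14, 10, 3, 3, 6, 10, 1], .l [9, 2, 11, 3, 14, 12, 6, 8, 6, 9], .l [9, 2, 11], .l [12, 15, 3, 14, 8, 12, 3, 11, 2, 3], .y [6, 9], .l [9, 2, 11, 3, 14, 12, 6, 8, 6, 9], .l [11, 4, 11], .l [0, 9, 2, 11, 1, 7, 9, 7, 2, 7], .l [5, 13, 6, 3, 6, 13, 10, 6, 10,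 5], .l [13, 6, 3], .l [10, 15, 5, 14, 6, 12, 5, 11, 2, 5], .l [17, 16, 11, 6, 11, 13, 9, 1], .l [15, 8, 3], .l [6, 14, 1, 7, 13, 3, 7, 3, 10, 3], .l [0, 14, 5, 6, 12, 5, 7, 5, 2, 5], .l [0, 14, 16, 7, 12, 10, 2, 10], .l [17, 10, 3], .l [6, 16, 3, 9, 11, 10, 3, 3, 8, 3]]),
([p 2 1, s 5 0, g, p 0 2, p 4 0, g, s 0 0, s 0 3, g, p 3 4, g, s 0 5, g, s 1 0, g], .hi 6, [.l [3, 7, 10, 8, 1], .l [0, 14, 11, 4, 7, 5, 9], .l [3, 7, 10, 8, 1], .l [0, 12, 9, 2, 5, 3, 7], .r 1631 [1, 2, 6, 3, 4, 5] [1, 1, 1, 1, 1, 1, 1], .l [5, 13, 8, 12, 8, 1, 1, 4, 8, 1], .l [8, 1, 12, 5, 11, 3, 7, 3, 8, 1], .y [6], .c, .r 1632 [1, 2, 6, 3, 4, 5] [1, 1, 1, 1, 1, 1, 1], .l [10, 13, 3, 12, 6, 10, 3, 9, 2, 3], .l [9, 2, 9], .l [8, 7, 12, 1, 5, 2, 6, 3],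 .l [8, 13, 5, 12, 4, 10, 5, 9, 2, 3], .l [11, 4, 1], .l [8, 11, 3, 10, 4, 8, 3, 7, 2, 3], .l [15, 14, 9, 4, 9, 11, 7, 1], .l [6, 12, 1, 5, 11, 3, 7, 3, 8, 1], .l [13, 6, 1], .l [0, 12, 14, 7, 10, 8, 2, 8], .l [6, 14, 3, 7, 9, 8, 1, 1, 6, 3], .l [15, 8, 1]]),
([p 2 1, s 5 0, g, p 0 2, p 4 0, g, s 0 3, g, p 3 4, g, s 0 5, g, s 1 0, g], .bot 5, [.r 1628 [1, 2, 3, 5] [1, 1, 1, 1, 1], .r 1633 [1, 2, 3, 4, 5] [1, 1, 1, 1, 1, 1], .r 1630 [1, 2, 3, 4, 5] [1, 1, 1, 1, 1, 1], .r 1629 [1, 2, 3, 4, 5] [1, 1, 1, 1, 1, 1]]),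
([p 2 1, s 6 0, g, p 0 2, p 3 0, g, p 4 3, p 5 4, p 0 0, g, p 0 5, g, s 0 6, g, s 1 0, g], .lo 8, [.l [0, 3, 2, 6, 8, 7, 7, 6, 6, 4, 7], .l [3, 9, 11, 10, 10, 9, 9, 7, 1], .l [3, 9], .l [0, 15, 12, 6, 8, 7, 7, 6, 6, 4, 8], .l [4, 7], .l [6, 9, 11, 10, 5], .l [6, 9], .l [6, 0, 9, 11, 10, 5], .y [8], .l [9, 12, 9, 9, 8, 11, 6, 8, 7, 2, 6, 7], .l [4, 8, 12, 10, 5, 7, 9, 6], .l [4, 14, 10, 14, 1, 11, 11, 10, 1, 9, 5, 3, 7], .l [5, 14, 9, 13, 1, 11, 11, 10, 3, 7, 8, 1], .l [6, 14, 8, 14, 1, 11, 2, 8, 11, 2, 1, 5, 1], .l [0, 15, 7, 3, 13, 7, 11, 9, 9, 8, 8, 6, 7], .l [16, 15, 10, 5, 6, 5, 5, 4, 8, 10, 6, 1], .l [0, 3, 2, 10, 12, 8, 10, 9, 9, 8, 8, 6, 7], .l [5, 12, 7, 13, 3, 11, 11, 10, 10, 7, 3, 8, 3], .l [0, 13, 13, 7, 9, 8,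 8, 7, 7, 5, 2], .l [0, 13, 15, 9, 11, 10, 10, 9, 9, 7, 2], .l [0, 13, 15, 9, 11, 10, 10, 9, 9, 7, 2], .l [0, 13, 5, 14, 7, 8, 7, 7, 5, 2, 5, 1, 5]]),
([p 2 1, s 6 0, g, p 0 2, p 3 0, g, p 4 3, p 5 4, p 0 5, g, s 0 6, g, s 1 0, g], .lo 8, [.l [0, 3, 2, 6, 6, 5, 5, 4, 4, 2, 5], .l [3, 9, 9, 8, 8, 7, 7, 5, 1], .l [3, 9], .l [0, 13, 10, 6, 6, 5, 5, 4, 4, 2, 6], .y [4, 8, 7, 6], .l [6, 9, 9, 8, 5], .l [6, 9], .l [6, 0, 9, 9, 8, 5], .l [5, 12, 7, 11, 1, 9, 9, 8, 1, 5, 6, 1], .l [6, 12, 6, 12, 1, 9, 0, 6, 9, 2, 1, 3, 1], .l [0, 13, 5, 1, 11, 7, 9, 7, 7, 6, 6, 4, 5], .l [14, 13, 8, 3, 4, 3, 3, 2, 6, 8, 4, 1], .l [0, 3, 2, 8, 10, 8, 8, 7, 7, 6, 6, 4, 5], .l [5, 10, 5, 11, 3, 9, 9, 8, 8, 7, 3, 6, 1], .l [0, 11, 11, 7, 7, 6, 6, 5,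 5, 3, 2], .l [0, 11, 13, 9, 9, 8, 8, 7, 7, 5, 2], .l [0, 11, 13, 9, 9, 8, 8, 7, 7, 5, 2], .l [0, 11, 3, 12, 7, 8, 7, 7, 5, 2, 5, 1, 5]]),
([p 2 1, s 6 0, g, p 0 2, p 3 0, g, p 4 3, p 5 4, s 0 0, g, p 0 5, g, s 0 6, g, s 1 0, g], .hi 8, [.l [3, 9, 11, 10, 10, 9, 9, 7, 1], .l [0, 15, 12, 6, 8, 7, 7, 6, 6, 4, 8], .l [3, 9, 11, 10, 10, 9, 9, 7, 1], .l [0, 13, 10, 4, 6, 5, 5, 4, 4, 2, 6], .l [6, 9, 11, 10, 5], .l [5, 14, 9, 11, 10, 3, 5, 4, 8, 9], .l [6, 9, 11, 10, 5], .y [8], .l [9, 12, 9, 9, 8, 11, 6, 8, 7, 2, 6, 7], .l [9, 12, 9, 9, 8, 11, 6, 8, 7, 2, 6, 7], .l [0, 5, 8, 11, 9, 4, 2, 5, 7, 4, 9], .l [9, 10, 7, 7, 6, 9, 4, 6, 5, 0, 4, 5], .l [5, 14, 9, 13, 1, 11, 11, 10, 3, 7, 8, 1], .l [5, 14, 9, 13, 1, 11, 11, 10, 3, 7, 8,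 1], .l [5, 12, 3, 6, 13, 3, 11, 2, 6, 9, 4], .l [5, 12, 7, 11, 1, 9, 9, 8, 3, 5, 6, 1], .l [16, 15, 10, 5, 6, 5, 5, 4, 8, 10, 6, 1], .l [16, 15, 10, 5, 6, 5, 5, 4, 8, 10, 6, 1], .l [5, 14, 5, 8, 13, 1, 11, 4, 8, 9, 4], .l [0, 13, 15, 9, 11, 10, 10, 9, 9, 7, 2, 7], .l [6, 12, 6, 12, 1, 9, 11, 1, 4, 1], .l [0, 13, 15, 9, 11, 10, 10, 9, 9, 7, 2]]),
([p 2 1, s 6 0, g, p 0 2, p 3 0, g, p 4 3, p 5 4, m 0 0, g, p 0 5, g, s 0 6, g, s 1 0, g], .hi 8, [.l [3, 9, 11, 10, 10, 9, 9, 7, 1], .l [0, 15, 12, 6, 8, 7, 7, 6, 6, 4, 8], .l [3, 9], .l [0, 13, 10, 4, 6, 5, 5, 4, 4, 2, 6], .l [6, 9, 11, 10, 5], .l [6, 0, 9, 11, 10, 5], .l [6, 9], .y [8], .l [9, 12, 9, 9, 8, 11, 6, 8, 7, 2, 6, 7], .l [4, 14, 10, 14, 1, 11, 11, 10, 1, 9, 5, 3, 7],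 .l [4, 8, 12, 10, 5, 7, 9, 6], .l [4, 12, 8, 12, 1, 9, 9, 8, 1, 7, 5, 3, 5], .l [5, 14, 9, 13, 1, 11, 11, 10, 3, 7, 8, 1], .l [0, 15, 7, 3, 13, 7, 11, 9, 9, 8, 8, 6, 7], .l [6, 14, 8, 14, 1, 11, 2, 8, 11, 2, 1, 5, 1], .l [0, 3, 2, 10, 10, 6, 8, 7, 7, 6, 6, 4, 5], .l [16, 15, 10, 5, 6, 5, 5, 4, 8, 10, 6, 1], .l [5, 12, 7, 13, 3, 11, 11, 10, 10, 7, 3, 8, 3], .l [0, 3, 2, 10, 12, 8, 10, 9, 9, 8, 8, 6, 7], .l [0, 13, 15, 9, 11, 10, 10, 9, 9, 7, 2], .l [0, 13, 5, 14, 7, 8, 7, 7, 5, 2, 5, 1, 5], .l [0, 13, 15, 9, 11, 10, 10, 9, 9, 7, 2]]),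
([p 2 1, s 6 0, g, p 0 2, p 3 0, g, p 4 3, p 5 4, g, p 0 5, g, s 0 6, g, s 1 0, g], .top 8, [.r 1636 [1, 2, 3, 4, 5, 6] [1, 1, 1, 1, 1], .r 1637 [1, 2, 3, 4, 5, 6] [1, 1, 1, 1, 1, 1], .r 1635 [1, 2, 3, 4, 5, 6] [1, 1, 1, 1, 1, 1], .r 1638 [1, 2, 3, 4, 5, 6] [1, 1, 1, 1, 1, 1]]),
([p 2 1, s 5 0, g, p 0 2, p 3 0, g, p 4 3, p 0 4, g, s 0 5, g, s 1 0, g], .lo 7, [.l [0, 3, 2, 5, 5, 4, 4, 2, 5], .l [3, 8, 8, 7, 7, 5, 1], .l [3, 8], .l [0, 12, 9, 5, 5, 4, 4, 2, 6], .y [4, 7, 6], .l [6, 8, 5], .l [6, 8], .l [6, 0, 8, 5], .l [5, 11, 6, 10, 1, 8, 1, 5, 6, 1], .r 1639 [1, 2, 3, 4, 6, 5] [1, 1, 1, 1, 1, 1], .l [5, 11, 6, 10, 1, 8, 1, 5, 6, 1], .l [13, 12, 7, 2, 3, 2, 6, 8, 4, 1], .l [1, 8, 10, 8, 8, 7, 7, 5, 1], .l [13, 12, 7, 2, 3,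 2, 6, 8, 4, 1], .l [0, 10, 10, 6, 6, 5, 5, 3, 2], .l [0, 10, 12, 8, 8, 7, 7, 5, 2], .l [0, 10, 12, 8, 8, 7, 7, 5, 2], .l [8, 2, 6, 7, 4, 2, 8]]),
([p 2 1, s 6 0, g, p 0 2, p 3 0, g, p 4 3, p 5 0, g, p 0 4, g, p 0 5, g, s 0 6, g, s 1 0, g], .hi 7, [.l [17, 16, 5, 8, 4, 15, 8, 10, 5], .l [6, 9, 5, 12, 4, 7, 2, 7], .l [9, 5], .l [4, 7, 5, 10, 4, 5, 0, 5], .l [9, 2, 14, 6, 13, 4, 2, 7], .l [11, 13, 10, 12, 11, 13, 6, 12, 1, 8, 1, 4, 7], .l [9, 2], .l [7, 11, 9, 10, 2, 14, 9, 9, 6, 10, 7], .l [7, 8], .l [9, 1], .l [7, 8], .l [11, 3, 12, 8, 0, 9, 13, 9, 9, 6, 1], .l [7, 10], .l [11, 3], .y [7, 11], .l [13, 5, 11, 13, 8, 4, 6, 7, 4, 1], .l [7, 12], .l [13, 5], .l [5, 13, 8, 12, 1, 10, 0, 5, 7, 8, 3, 1, 3], .l [15, 7, 13, 7, 2,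 9, 11, 5, 2, 7], .l [7, 14], .l [15, 7], .l [17, 9, 15, 9, 4, 11, 13, 7, 4, 9], .l [7, 16], .l [17, 9]]),
([p 2 1, s 5 0, g, p 0 2, p 3 0, g, p 4 3, p 0 0, g, p 0 4, g, s 0 5, g, s 1 0, g], .lo 7, [.l [0, 3, 2, 5, 7, 6, 6, 4, 7], .l [3, 8, 10, 9, 9, 7, 1], .l [3, 8], .l [0, 14, 11, 5, 7, 6, 6, 4, 8], .l [4, 6], .l [6, 8, 5], .l [6, 8], .l [6, 0, 8, 5], .y [7], .l [8, 11, 8, 11, 6, 8, 7, 2, 6, 7], .l [7, 11, 9, 12, 7, 2, 4, 8, 5], .l [7, 11, 9, 12, 7, 11, 9, 2, 6, 7], .l [5, 13, 8, 12, 1, 10, 3, 7, 8, 1], .r 1641 [1, 2, 3, 4, 6, 5] [1, 1, 1, 1, 1, 1, 1], .l [5, 13, 8, 12, 1, 10, 3, 7, 8, 1], .l [15, 14, 9, 4, 5, 4, 8, 10, 6, 1], .l [1, 10, 12, 8, 10, 9, 9, 7, 1], .l [15, 14, 9, 4, 5, 4, 8, 10, 6, 1], .l [0, 12, 12, 6, 8,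 7, 7, 5, 2], .l [0, 12, 14, 8, 10, 9, 9, 7, 2], .l [0, 12, 14, 8, 10, 9, 9, 7, 2], .l [10, 4, 8, 9, 6, 4, 10]]),
([p 2 1, g, s 1 0, g, p 0 2, p 4 0, g, s 0 3, g, p 0 4, m 3 0, g], .hi 10, [.l [12, 2, 4, 2, 7], .l [1, 6, 4, 10], .l [2, 11], .l [12, 2, 4, 2, 5], .l [3, 6, 2, 10], .l [4, 11], .l [3, 4, 0, 8], .l [7, 11, 8], .l [7, 0, 11, 8], .l [7, 11], .y [7, 10], .l [9, 11, 6], .l [9, 0, 11, 6], .l [9, 11], .r 1627 [2, 4, 5] [3, 3, 0, 1], .l [10, 2, 4, 2, 9], .l [10, 2, 4, 2, 9], .l [5, 10, 2, 6, 1, 9, 5, 2, 5]]),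
([p 2 1, g, p 0 2, p 4 0, g, s 0 3, g, p 0 4, m 3 0, g, s 1 0, g], .hi 8, [.l [10, 2, 4, 2, 5], .l [1, 4, 2, 8], .l [2, 9], .l [1, 2, 0, 6], .l [5, 9, 6], .l [5, 0, 9, 6], .l [5, 9], .y [5, 8], .l [7, 9, 4], .l [7, 0, 9, 4], .l [7, 9], .l [0, 6, 10, 3, 0, 4, 1], .l [8, 2, 4, 2, 7], .l [8, 2, 4, 2, 7], .l [3, 8, 2, 11, 6, 6, 4, 6, 3], .l [8, 2, 4, 2, 9], .l [8, 2, 4, 2, 9], .l [0, 9, 11, 9, 9, 6, 8, 6, 1]]),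
([p 1 0, g, p 0 1, p 3 0, g, s 0 2, g, p 0 3, m 2 0, g], .hi 0, [.r 1643 [4, 1, 2, 3] [1, 1, 1, 1, 1], .l [0, 1], .l [2, 1], .y [0, 2], .l [0, 4, 8, 6, 1], .l [0, 4], .l [5, 4], .l [0, 4, 6, 4, 1], .l [0, 6, 8, 4, 1], .l [0, 6], .l [7, 6], .l [0, 6], .r 1644 [4, 1, 2, 3] [1, 1, 1, 1, 1], .l [0, 9], .l [10, 9]]),
([p 6 1, s 0 2, g, m 0 3, g, m 3 4, g, m 4 5, g, m 5 0, s 2 0, g, p 0 6, p 8 0, g, s 0 7, g, p 7 8, g, s 1 0, g], .hi 13, [.l [5, 12, 6, 1, 9, 10, 6, 13, 5, 6, 1], .l [0, 7, 9, 8, 14, 10, 4, 10, 14, 12, 5, 2, 5], .l [0, 7, 9, 8, 14, 10, 4, 10, 14, 12, 5, 2, 5], .l [15, 11], .l [13, 9], .l [15, 9, 11, 9, 9, 7, 10, 5, 2, 7, 2, 11], .l [18, 19, 15, 15, 5, 14, 9, 13, 1, 9, 9, 7, 7, 5, 2], .l [15, 9], .l [15, 7, 9, 7,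 12, 7, 2, 9, 2, 13], .l [18, 19, 15, 15, 7, 9, 7, 12, 7, 11, 1, 7, 7, 5, 2], .l [15, 7], .l [15, 5, 14, 9, 2, 11, 2, 15], .l [11, 15, 12, 14, 12, 12, 10, 10, 8, 5, 2, 2, 11], .l [15, 5], .l [2, 15, 2, 9, 10, 9, 15, 8, 2, 11, 11, 9, 5], .l [5, 7, 6, 13, 8, 1, 9, 11, 6, 15, 6, 12, 1], .l [15, 2], .l [5, 7, 6, 11, 6, 1, 7, 9, 6, 13, 6, 10, 1], .l [9, 15, 1, 18, 16, 2, 2, 15], .l [13, 14], .l [15, 1], .y [13, 15, 17], .l [9, 17, 3, 18, 14, 2, 2, 15], .l [13, 16], .l [17, 3], .l [5, 12, 6, 18, 5, 6, 14, 14, 12, 2, 12, 8, 6, 1], .l [13, 18], .l [19, 5], .l [5, 12, 6, 20, 7, 8, 16, 16, 14, 2, 9, 5, 10, 5], .l [13, 20], .l [21, 7]]),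
([p 5 1, s 0 2, g, m 0 3, g, m 3 4, g, m 4 0, s 2 0, g, p 0 5, p 7 0, g, s 0 6, g, p 6 7, g, s 1 0, g], .lo 3, [.l [5, 1, 11, 6, 9, 7, 7, 5, 2, 11], .l [5, 1], .r 1646 [1, 2, 8, 3, 4, 5, 6, 7] [1, 1, 1, 1, 1, 1, 1, 1, 1], .l [6, 7, 3, 5, 1, 15, 12, 2, 11, 6], .l [5, 1], .l [3, 4], .l [7, 3, 11, 4, 9, 7, 2, 13], .l [7, 3], .l [3, 6], .y [3, 5, 7], .l [8, 4, 4, 2, 2, 0, 1], .l [14, 4, 9, 9, 7, 13, 8, 2, 10, 5, 10, 3, 8, 1], .l [10, 6], .l [3, 9], .l [11, 7], .l [3, 12, 16, 14, 6], .l [13, 9], .l [3, 12], .l [3, 14, 16, 12, 6], .l [15, 11], .l [3, 14], .l [17, 13, 13, 11, 14, 9, 6, 11, 2, 11], .l [17, 13], .l [3, 16], .l [17, 13, 13, 11, 14, 9, 6, 11, 2, 9], .l [19, 15, 15, 13, 16, 11, 8, 13, 2, 9], .l [19, 15], .l [3, 18]]),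
([p 4 1, s 0 2, g, m 0 3, g, m 3 0, s 2 0, g, p 0 4, p 6 0, g, s 0 5, g, p 5 6, g, s 1 0, g], .lo 3, [.l [5, 1, 9, 4, 7, 5, 2, 11], .l [5, 1], .r 1647 [1, 2, 7, 3, 4, 5, 6] [1, 1, 1, 1, 1, 1, 1, 1], .l [2, 5, 1, 15, 12, 2, 11, 6], .l [5, 1], .l [3, 4], .y [3, 5], .l [3, 5, 4], .l [12, 4, 7, 13, 8, 2, 10, 5, 10, 3, 8, 1], .l [8, 4], .l [3, 7], .l [9, 5], .l [3, 10, 14, 12, 4], .l [11, 7], .l [3, 10], .l [3, 12, 14, 10, 4], .l [13, 9], .l [3, 12], .l [15, 11, 14, 9, 6, 11, 2, 11], .l [15, 11], .l [3, 14], .l [15, 11, 14, 9, 6, 11, 2, 9], .l [17, 13, 16, 11, 8, 13, 2, 9], .l [17, 13], .l [3, 16]]),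
([p 3 1, s 0 2, g, m 0 0, s 2 0, g, p 0 3, p 5 0, g, s 0 4, g, p 4 5, g, s 1 0, g], .lo 3, [.l [5, 1, 7, 2, 2, 11], .l [5, 1], .r 1648 [1, 2, 6, 3, 4, 5] [1, 1, 1, 1, 1, 1, 1], .y [3], .c, .l [15, 14, 2, 3], .l [6, 2], .l [3, 5], .l [7, 3], .l [0, 6, 5, 2, 6, 10, 8, 9], .l [9, 5], .l [3, 8], .l [0, 6, 5, 2, 8, 10, 6, 9], .l [11, 7], .l [3, 10], .l [15, 14, 2, 10], .l [13, 9], .l [3, 12], .l [13, 12, 2, 10], .l [13, 12, 2, 12], .l [15, 11], .l [3, 14]]),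
([p 6 1, s 0 2, g, p 3 0, g, p 4 3, g, p 5 4, g, p 0 5, s 2 0, g, p 0 6, p 8 0, g, s 0 7, g, p 7 8, g, s 1 0, g], .hi 13, [.l [5, 12, 6, 1, 9, 10, 6, 13, 5, 6, 1], .l [0, 7, 9, 8, 14, 10, 4, 10, 14, 12, 5, 2, 5], .l [0, 7, 9, 8, 14, 10, 4, 10, 14, 12, 5, 2, 5], .l [15, 11], .l [15, 9, 11, 9, 9, 7, 10, 5, 2, 7, 2, 11], .l [18, 19, 15, 15, 5, 14, 9, 13, 1, 9, 9, 7, 7, 5, 2], .l [15, 9], .l [15, 7, 9, 7, 12, 7, 2, 9, 2, 13], .l [18, 19, 15, 15, 7, 9, 7, 12, 7, 11, 1, 7, 7, 5, 2], .l [15, 7], .l [15, 5, 14, 9, 2, 11, 2, 15], .l [11, 15, 12, 14, 12, 12, 10, 10, 8, 5, 2, 2, 11], .l [15, 5], .l [9, 13, 12, 12, 10, 10, 8, 8, 6, 5, 2, 2, 9], .l [2, 15, 2, 9, 10, 9, 15, 8, 2, 11, 11, 9, 5], .l [5, 7, 6, 13, 8, 1, 9, 11, 6, 15, 6,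 12, 1], .l [15, 2], .l [5, 7, 6, 11, 6, 1, 7, 9, 6, 13, 6, 10, 1], .l [9, 15, 1, 18, 16, 2, 2, 15], .l [13, 14], .l [15, 1], .y [13, 15, 17], .l [9, 17, 3, 18, 14, 2, 2, 15], .l [13, 16], .l [17, 3], .l [5, 12, 6, 18, 5, 6, 14, 14, 12, 2, 12, 8, 6, 1], .l [13, 18], .l [19, 5], .l [5, 12, 6, 20, 7, 8, 16, 16, 14, 2, 9, 5, 10, 5], .l [13, 20], .l [21, 7]]),
([p 5 1, s 0 2, g, p 3 0, g, p 4 3, g, p 0 4, s 2 0, g, p 0 5, p 7 0, g, s 0 6, g, p 6 7, g, s 1 0, g], .hi 3, [.l [3, 1, 9, 6, 7, 5, 5, 3, 2], .l [5, 1, 11, 6, 9, 7, 7, 5, 2, 11], .r 1650 [1, 2, 8, 3, 4, 5, 6, 7] [1, 1, 1, 1, 1, 1, 1, 1, 1], .l [5, 1], .l [6, 7, 3, 5, 1, 15, 12, 2, 11, 6], .l [3, 4], .l [5, 1], .l [7, 3, 11, 4, 9, 7, 2, 13], .l [3, 6], .l [7, 3], .y [3,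 7, 5], .l [14, 4, 9, 9, 7, 13, 8, 2, 10, 5, 10, 3, 8, 1], .l [3, 9], .l [10, 6], .l [3, 9], .l [3, 12, 16, 14, 6], .l [3, 12], .l [13, 9], .l [3, 12, 12, 12, 12, 10, 6], .l [3, 14, 16, 12, 6], .l [3, 14], .l [15, 11], .l [17, 13, 13, 11, 14, 9, 6, 11, 2, 11], .l [3, 16], .l [17, 13], .l [19, 15, 15, 13, 16, 11, 8, 13, 2, 9], .l [3, 18], .l [19, 15]]),
([p 4 1, s 0 2, g, p 3 0, g, p 0 3, s 2 0, g, p 0 4, p 6 0, g, s 0 5, g, p 5 6, g, s 1 0, g], .hi 3, [.l [3, 1, 7, 4, 5, 3, 2], .l [5, 1, 9, 4, 7, 5, 2, 11], .r 1651 [1, 2, 7, 3, 4, 5, 6] [1, 1, 1, 1, 1, 1, 1, 1], .l [5, 1], .l [2, 5, 1, 15, 12, 2, 11, 6], .l [3, 4], .l [5, 1], .y [3, 5], .l [12, 4, 7, 13, 8, 2, 10, 5, 10, 3, 8, 1], .l [3, 7], .l [8, 4], .l [3, 7], .l [3, 10,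 14, 12, 4], .l [3, 10], .l [11, 7], .l [3, 10, 10, 10, 10, 8, 4], .l [3, 12, 14, 10, 4], .l [3, 12], .l [13, 9], .l [15, 11, 14, 9, 6, 11, 2, 11], .l [3, 14], .l [15, 11], .l [17, 13, 16, 11, 8, 13, 2, 9], .l [3, 16], .l [17, 13]]),
([p 3 1, s 0 2, g, p 0 0, s 2 0, g, p 0 3, p 5 0, g, s 0 4, g, p 4 5, g, s 1 0, g], .hi 3, [.l [0, 6, 5, 2, 1], .l [5, 1, 7, 2, 2, 11], .r 1652 [1, 2, 6, 3, 4, 5] [1, 1, 1, 1, 1, 1, 1], .l [5, 1], .y [3], .l [15, 14, 2, 3], .l [3, 5], .l [6, 2], .l [3, 5], .l [0, 6, 5, 2, 6, 10, 8, 9], .l [3, 8], .l [9, 5], .l [0, 6, 5, 2, 6, 6, 6, 6, 4, 5], .l [0, 6, 5, 2, 8, 10, 6, 9], .l [3, 10], .l [11, 7], .l [15, 14, 2, 10], .l [3, 12], .l [13, 9], .l [13, 12, 2, 12], .l [3, 14], .l [15, 11]]),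
([p 5 1, s 4 2, g, s 0 3, s 2 0, g, p 0 4, g, m 3 0, g, p 0 5, g, s 1 0, g], .hi 4, [.l [6, 4, 7, 2, 10, 5, 6, 3], .l [6, 4, 11, 5, 9, 2, 4, 8, 6, 3], .l [6, 4, 7, 2, 10, 5, 6, 3], .c, .l [4, 2, 11, 7, 3, 6, 8, 6, 4, 1], .l [5, 12, 6, 9, 4], .l [10, 6, 7, 10, 1, 4, 1, 4, 2, 5], .y [1, 4, 6], .l [4, 2, 5, 2, 10, 5, 6, 3], .l [4, 2, 5, 2, 10, 5, 6, 3], .l [4, 2, 11, 7, 11, 3, 8, 1, 6, 3], .l [4, 2, 11, 7, 1, 6, 8, 4, 2, 3], .l [8, 4, 8], .l [10, 5, 11, 1, 11, 9, 2, 3], .l [8, 4, 8], .l [4, 2, 9, 5, 1, 4, 8, 6, 2, 3], .l [8, 4, 10], .l [4, 2, 9, 5, 9, 2, 4, 8, 6, 3], .l [4, 2, 9, 5, 1, 4, 6, 4, 2, 5], .l [8, 4, 12], .l [4, 2, 9, 5, 11, 4, 6, 4, 2, 5]]),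
([p 4 1, s 0 2, g, s 0 3, s 2 0, g, m 3 0, g, p 0 4, g, s 1 0, g], .lo 1, [.l [3, 1, 7, 2, 4, 7], .l [3, 1, 7, 2, 4, 7], .l [2, 10, 7, 7, 8], .y [1, 4], .l [1, 5, 11, 6, 8, 5], .r 1654 [1, 2, 3, 5, 4] [1, 1, 1, 1, 1, 1], .l [5, 10, 4, 4, 8], .l [5, 8, 2, 2, 6], .l [6, 2, 3, 6, 2, 7], .l [6, 2, 3, 6, 2, 7], .l [7, 10, 2, 2, 8], .l [6, 2, 3, 6, 1, 8, 6, 3], .l [6, 2, 3, 8, 4, 7], .l [12, 11, 8], .l [10, 9, 8], .l [6, 2, 3, 6, 1, 6, 4, 5], .l [6, 2, 3, 10, 6, 3], .l [10, 9, 10]]),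
([p 4 1, s 0 2, g, p 3 0, g, s 0 3, s 2 0, g, p 0 4, g, s 1 0, g], .lo 5, [.l [7, 3, 9, 2, 2, 7], .l [4, 10, 5, 1, 7, 5, 2, 5], .l [6, 10, 3, 7, 1, 5, 2, 5], .y [3, 5], .l [6, 10, 3, 7, 1, 5, 2, 5], .l [7, 1, 9, 2, 2, 7], .l [6, 10, 3, 7, 1, 5, 2, 5], .c, .l [12, 11, 4, 5, 9, 1], .l [2, 10, 7, 1, 4, 2, 4, 5], .l [12, 11, 4, 5], .l [4, 8, 3, 7, 1, 5, 2, 5], .l [2, 8, 5, 1, 7, 5, 2, 5], .l [4, 8, 3, 7, 1, 5, 2, 5], .l [10, 9, 4, 7], .l [4, 8, 3, 9, 3, 7, 2, 3], .l [2, 8, 5, 1, 9, 7, 2, 3], .l [4, 8, 3, 9, 3, 7, 2, 3]]),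
([p 3 1, s 0 2, g, s 0 0, s 2 0, g, p 0 3, p 5 0, g, s 0 4, g, p 4 5, g, s 1 0, g], .hi 3, [.l [1, 3, 2, 10], .l [5, 1, 7, 2, 2, 11], .r 1656 [1, 2, 6, 3] [1, 1, 1, 6, 1], .l [5, 1, 7, 2, 2, 11], .y [3], .l [15, 14, 2, 3, 12, 6], .l [15, 14, 2, 3], .r 1655 [1, 2, 6, 3] [1, 1, 1, 6, 1], .l [13, 12, 2, 3], .l [0, 6, 5, 2, 6, 10, 8, 9], .l [0, 6, 5, 2, 6, 10, 8, 9], .l [1, 9, 5, 7, 12, 3, 1, 1, 4, 7], .l [0, 6, 5, 2, 6, 6, 6, 6, 4, 5], .l [0, 6, 5, 2, 8, 10, 6, 9], .l [0, 6, 5, 2, 8, 10, 6, 9], .l [0, 8, 15, 6, 3, 3, 10, 5, 2, 5], .l [10, 9, 2, 11, 4, 2, 4, 1], .l [15, 14, 2, 10], .l [0, 8, 15, 6, 1, 1, 10, 5, 2, 5], .l [14, 1, 12, 2, 11, 6], .l [13, 12, 2, 12], .l [3, 8, 15, 6, 1, 1, 10, 2, 2, 5]]),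
([p 3 1, s 0 2, g, s 2 0, g, p 0 3, p 5 0, g, s 0 4, g, p 4 5, g, s 1 0, g], .bot 2, [.c, .r 1657 [1, 2, 3, 4, 5] [1, 1, 1, 1, 1, 1], .r 1653 [1, 2, 3, 4, 5] [1, 1, 1, 1, 1, 1], .r 1649 [1, 2, 3, 4, 5] [1, 1, 1, 1, 1, 1]]),
([p 3 1, s 7 2, g, p 0 3, p 5 0, g, s 6 4, g, p 4 5, g, p 0 6, g, s 2 0, g, p 0 7, g, s 1 0, g], .lo 3, [.l [12, 3, 8, 1, 9, 7, 3], .l [3, 4], .l [0, 17, 14, 1, 1, 14, 1], .l [5, 14, 9, 11, 10, 1, 1, 8, 9, 3, 1, 1, 5], .l [0, 17, 14, 2, 6, 4, 12], .l [7, 16, 9, 11, 10, 1, 1, 8, 11, 5, 1, 3, 7], .l [0, 17, 14, 2, 6, 4, 12], .l [0, 17, 14, 4, 6, 2, 12], .l [5, 8, 5, 5, 2, 6, 12, 8, 11, 1, 7, 7, 5], .l [0, 17, 14, 4, 6, 2, 12], .l [0, 17, 9, 9, 12, 4, 6, 4, 4, 2, 8, 1], .l [0, 17, 11, 1, 12, 8, 7, 9, 1,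 10, 3, 1, 5], .l [2, 3, 0, 8], .l [7, 4, 10, 7, 3, 7, 3], .l [0, 17, 11, 1, 11, 9, 11, 7, 5, 7, 1, 8, 3], .l [2, 3, 0, 10], .l [10, 3, 8, 10, 10, 1, 8, 6, 3, 3, 1, 5, 1], .l [1, 11, 5, 1, 6, 9, 2, 7, 3, 3, 1, 6, 2, 5], .l [0, 17, 11, 1, 11, 9, 11, 5, 3, 7, 3, 8, 3], .l [2, 3, 0, 12], .l [7, 4, 14, 11, 3, 11, 7], .l [5, 14, 9, 11, 10, 1, 1, 8, 11, 5, 1, 3, 7], .l [2, 3, 0, 14], .y [0, 16, 3], .l [7, 4, 16, 13, 3, 13, 9], .l [7, 8, 4, 16, 15, 15, 12, 1, 3, 1, 5, 8, 1], .l [2, 3, 0, 16]]),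
([p 3 1, s 6 2, g, p 0 3, p 5 0, g, s 0 4, g, p 4 5, g, s 2 0, g, p 0 6, g, s 1 0, g], .lo 6, [.l [3, 7, 7, 7, 7, 5, 1], .l [3, 7, 7, 7, 7, 5, 1], .l [0, 15, 5, 5, 10, 4, 4, 2, 8], .y [4, 6, 8], .l [12, 10, 6, 1, 11, 2, 10, 6, 2, 7], .l [12, 10, 6, 1, 11, 2, 10, 6, 2, 7], .l [7, 14, 7, 1, 11, 8, 9, 2, 7], .l [12, 10, 6, 1, 11, 2, 10, 6, 2, 7], .l [12, 10, 6, 1, 11, 2, 10, 6, 2, 7], .l [6, 9, 3, 14, 12, 6, 6, 4, 9], .l [6, 9, 1, 7, 9, 4, 10, 8, 4, 7], .r 1659 [1, 2, 3, 4, 5, 7, 6] [1, 1, 1, 1, 1, 1, 1, 1], .l [6, 9, 1, 7, 9, 4, 10, 8, 4, 7], .l [6, 9, 1, 7, 7, 2, 8, 6, 2, 5], .l [6, 11, 3, 9, 11, 6, 10, 6, 4, 7], .l [10, 8, 11, 6, 11, 7, 10, 1, 4, 7], .l [6, 11, 3, 9, 11, 6, 10, 6, 4, 7], .l [10, 8, 11, 2, 12, 1, 4, 4, 4,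 4, 2, 5], .l [5, 14, 7, 14, 5, 7, 11, 9, 2, 7], .l [6, 7, 9, 6, 9, 2, 10, 1, 4, 4, 2, 5], .l [0, 13, 5, 5, 11, 5, 5, 3, 2], .l [0, 13, 15, 7, 7, 7, 7, 5, 2, 5], .l [0, 13, 5, 5, 13, 7, 7, 5, 2], .l [5, 12, 7, 1, 13, 10, 11, 4, 9]]),
([p 3 1, g, s 2 0, g, s 1 0, g, p 0 2, p 4 0, g, p 0 3, p 0 4, g], .lo 10, [.l [1, 11, 9, 10, 10, 6, 3], .l [2, 11], .l [0, 5, 3, 9, 9, 6, 3], .l [1, 9, 7, 8, 8, 4, 3], .l [3, 11, 7, 10, 10, 4, 7], .l [4, 11], .l [0, 5, 1, 9, 9, 6, 3], .l [0, 3, 3, 7, 6], .l [5, 11, 5, 10, 10, 2, 5], .l [6, 11], .l [5, 11, 5, 10], .y [7, 10], .l [8, 11, 2, 10, 10, 8, 3], .l [9, 11], .l [8, 11, 2, 10], .l [9, 10, 7, 3, 8, 2, 7], .l [7, 3, 6, 9, 5, 6, 8, 6, 1], .l [9, 10, 7, 3, 8, 2, 7]]),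
([p 2 0, s 1 0, g, p 0 1, p 3 0, g, p 0 2, p 0 3, g], .hi 0, [.r 1661 [4, 1, 2, 3] [0, 1, 1, 1, 1], .l [0, 2], .l [3, 2], .l [0, 2], .l [0, 5, 8, 6, 1], .l [0, 5], .l [6, 5], .y [0, 6], .l [0, 6], .l [1, 6, 4, 8, 3, 5, 3], .l [0, 8], .l [9, 8]]),
([p 3 1, g, s 2 0, g, s 1 0, g, p 0 2, p 4 0, g, p 0 3, p 0 0, g, p 0 4, g], .lo 10, [.l [1, 11, 9, 10, 12, 8, 3], .l [2, 11], .l [0, 5, 3, 9, 11, 8, 3], .l [1, 9, 7, 8, 10, 6, 3], .l [3, 11, 7, 10, 12, 6, 9], .l [4, 11], .l [0, 5, 1, 9, 11, 8, 3], .l [0, 3, 3, 7, 6], .l [5, 11, 5, 10, 12, 4, 7], .l [6, 11], .l [5, 11, 5, 10], .l [7, 9], .l [8, 11, 2, 10, 12, 10, 3], .l [9, 11], .l [8, 11, 2, 10], .y [10], .l [9, 14, 11, 3, 12, 6, 1], .l [0, 3, 9, 12, 8, 3, 5, 8, 3], .l [9, 14,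 11, 3, 12, 6, 1], .l [9, 12, 9, 3, 10, 4, 9], .l [7, 3, 6, 11, 7, 8, 10, 6, 1], .l [9, 12, 9, 3, 10, 4, 9]])]

def d06_2 : List (List Item × Qry × List Rf) := [
([p 2 0, s 1 0, g, p 0 1, p 3 0, g, p 0 2, p 0 0, g, p 0 3, g], .hi 0, [.r 1663 [4, 1, 2, 3] [0, 1, 1, 1, 1, 1], .l [0, 2], .l [3, 2], .l [0, 2], .l [0, 5, 10, 8, 1], .l [0, 5], .l [6, 5], .y [0, 6], .l [0, 6], .l [0, 8, 10, 5, 1], .l [0, 8], .l [9, 8], .l [0, 8], .l [1, 6, 4, 10, 5, 7, 3], .l [0, 10], .l [11, 10]]),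
([p 2 0, s 1 0, g, p 0 1, p 0 0, g, p 0 2, p 0 0, g], .lo 4, [.l [0, 3], .l [0, 6, 5, 2, 1], .l [2, 8, 5, 2, 4], .l [3, 5], .l [2, 8, 5, 2], .y [4], .l [3, 1, 7, 4, 1], .r 1303 [1, 3, 2] [1, 1, 1, 2], .l [3, 1, 7, 4, 1], .r 1662 [1, 2, 3] [1, 1, 1], .l [3, 1, 5, 2, 6], .r 1664 [1, 2, 3] [1, 1, 1, 1], .l [3, 1, 5, 2, 6]]),
([p 5 1, s 3 2, g, p 0 3, s 0 4, g, p 0 5, g, m 4 0, g, s 2 0, g, s 1 0, g], .lo 4, [.l [2, 8, 5, 2, 4, 9], .l [3, 5, 2], .l [2, 8, 5, 2, 4], .l [3, 1, 7, 4, 1, 10, 6, 3], .l [6, 1, 9, 7, 1], .l [3, 1, 7, 4, 1], .l [3, 1, 5, 2, 4, 8, 6, 7], .l [8, 3, 7, 5, 7, 5, 1], .l [3, 1, 5, 2, 4], .y [4, 8], .l [3, 1, 5, 2, 6, 8, 4, 7], .l [8, 3, 7, 5, 7, 5, 1], .l [3, 1, 5, 2, 6], .l [3, 1, 5, 2, 6, 6, 2, 5], .l [1,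 9, 11, 5, 2, 9], .l [8, 3, 7, 5, 9, 7, 1], .l [3, 1, 5, 2, 8], .l [1, 9, 11, 5, 2, 3], .l [1, 9, 13, 7, 2, 3], .l [8, 3, 7, 5, 11, 9, 1], .l [3, 1, 5, 2, 10]]),
([p 5 1, s 3 2, g, p 0 3, s 0 4, g, m 4 0, g, p 0 5, g, s 2 0, g, s 1 0, g], .lo 4, [.l [2, 10, 7, 2, 6, 9], .l [3, 5, 2], .l [2, 10, 7, 2, 6], .l [3, 1, 9, 6, 1, 10, 4, 1], .l [6, 1, 7, 5, 1], .l [3, 1, 9, 6, 1], .y [4, 6], .l [3, 1, 9, 6, 3, 10, 4, 1], .l [6, 1, 7, 5, 1], .l [3, 1, 9, 6, 3], .l [0, 13, 3, 7, 3, 9, 4, 6, 4, 1], .l [6, 1, 9, 7, 1], .l [3, 1, 7, 4, 6], .l [3, 1, 7, 4, 6, 6, 4, 5], .l [0, 13, 1, 7, 3, 9, 4, 6, 4, 1], .l [6, 1, 11, 9, 1], .l [3, 1, 7, 4, 8], .l [0, 11, 11, 3, 1, 4, 1, 4, 2, 3], .l [0, 11, 13, 5, 1, 6, 1, 6, 2, 5], .l [6, 1, 13, 11,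 1], .l [3, 1, 7, 4, 10]]),
([p 4 1, s 3 2, g, p 0 3, s 0 0, g, p 0 4, g, s 2 0, g, s 1 0, g], .hi 4, [.l [2, 8, 5, 2, 4, 7], .l [2, 8, 5, 2, 4], .l [3, 5, 2], .l [2, 6, 3, 0, 2], .y [4], .l [3, 1, 7, 4, 1, 8, 4, 1], .l [3, 1, 7, 4, 1], .r 1667 [1, 2, 3, 5, 4] [1, 1, 1, 1, 1, 1], .l [3, 1, 5, 2, 1], .l [3, 1, 5, 2, 4, 6, 4, 5], .l [3, 1, 5, 2, 4], .r 1666 [1, 2, 3, 5, 4] [1, 1, 1, 1, 1, 1], .l [1, 7, 9, 5, 2, 7], .l [3, 1, 5, 2, 6], .l [1, 7, 9, 5, 2, 7], .l [1, 7, 11, 7, 2, 3], .l [3, 1, 5, 2, 8], .l [1, 7, 11, 7, 2, 3]]),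
([p 4 1, s 2 0, g, s 1 0, g, p 0 2, s 0 3, g, m 3 0, g, p 0 4, g], .lo 6, [.l [0, 10, 9, 4, 3], .l [2, 12, 9, 4, 8, 5], .l [3, 7, 4], .l [2, 12, 9, 4, 8], .l [3, 5, 2, 3], .l [4, 12, 7, 2, 6, 7], .l [5, 7, 2], .l [4, 12, 7, 2, 6], .l [10, 3, 6, 7, 4, 1], .l [8, 1, 9, 7, 3], .l [5, 3, 11, 6, 1], .y [6, 8], .l [8, 1, 4, 5, 2, 5], .l [8, 1, 9, 7, 3], .l [5, 3, 11, 6, 3], .l [8, 1, 4, 5, 2, 7], .l [8, 1, 11, 9, 3], .l [5, 3, 9, 4, 8]]),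
([p 4 1, s 2 0, g, s 1 0, g, p 0 2, s 0 3, g, p 0 4, g, m 3 0, g], .lo 6, [.l [0, 8, 7, 4, 3], .l [2, 10, 7, 4, 6, 3], .l [3, 7, 4], .l [2, 10, 7, 4, 6], .l [3, 5, 2, 3], .l [4, 10, 5, 2, 4, 5], .l [5, 7, 2], .l [4, 10, 5, 2, 4], .l [12, 5, 8, 9, 6, 3], .l [8, 1, 11, 9, 3], .l [5, 3, 9, 4, 1], .l [0, 2, 9, 3, 9, 5, 2, 5], .l [10, 3, 9, 7, 9, 7, 3], .l [5, 3, 7, 2, 6], .y [6, 10], .l [10, 3, 6, 7, 4, 7], .l [10, 3, 9, 7, 9, 7, 3], .l [5, 3, 7, 2, 8]]),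
([p 4 1, s 2 0, g, s 1 0, g, p 0 2, s 0 3, g, s 3 0, g, p 0 4, g], .hi 1, [.l [2, 12, 9, 9, 6, 8, 6, 1], .l [2, 12, 9, 9, 6], .l [3, 1, 6, 4, 1], .l [5, 3, 11, 6, 9, 2, 6, 1], .l [3, 2, 3], .l [5, 3, 6, 2, 3], .y [1, 5], .l [0, 10, 9, 4, 3], .l [1, 7, 9, 7, 4, 1], .l [3, 2, 6], .l [5, 3, 7, 3, 4], .l [5, 3, 11, 6, 1, 3, 4, 5], .l [3, 2, 8], .l [5, 3, 9, 5, 6], .l [3, 2, 8], .l [5, 3, 9, 4, 1, 6, 2, 5], .l [3, 2, 10], .l [5, 3, 11, 7, 8]]),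
([p 3 1, s 2 0, g, s 1 0, g, p 0 2, s 0 0, g, p 0 3, g], .hi 6, [.l [2, 10, 7, 4, 6, 3], .l [2, 10, 7, 4, 6], .l [3, 7, 4], .l [4, 10, 5, 2, 4, 5], .l [4, 10, 5, 2, 4], .l [5, 7, 2], .l [4, 8, 3, 0, 2], .y [6], .r 1671 [1, 2, 4, 3] [1, 1, 1, 1, 1], .l [5, 3, 9, 4, 1], .r 1669 [1, 2, 4, 3] [1, 1, 1, 1, 1], .l [5, 3, 7, 2, 1], .l [9, 6, 7, 4, 6, 3], .l [5, 3, 7, 2, 6], .r 1670 [1, 2, 4, 3] [1, 1, 1, 1, 1]]),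
([p 5 1, s 3 2, g, p 0 3, s 0 4, g, p 0 5, g, s 1 0, g, m 4 0, g, s 2 0, g], .lo 4, [.l [2, 8, 5, 2, 4, 5], .l [3, 5, 2], .l [2, 8, 5, 2, 4], .l [3, 1, 7, 4, 1, 6, 2, 7], .l [6, 1, 11, 9, 1], .l [3, 1, 7, 4, 1], .l [3, 1, 5, 2, 4, 10, 8, 3], .l [8, 3, 7, 5, 9, 7, 1], .l [3, 1, 5, 2, 4], .l [0, 7, 9, 5, 1, 4, 1, 4, 2, 3], .l [3, 1, 5, 2, 6, 1, 2, 7], .l [10, 5, 9, 7, 9, 5, 1], .l [3, 1, 5, 2, 6], .y [4, 10], .l [0, 7, 11, 7, 1, 6, 1, 6, 2, 5], .l [10, 5, 9, 7, 9, 5, 1], .l [3, 1, 5, 2, 8], .l [3, 1, 5, 2, 8, 8, 2, 3], .l [0, 7, 13, 9, 1, 8, 3, 8, 2, 5], .l [10, 5, 9, 7, 11, 7, 1], .l [3, 1, 5, 2, 10]]),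
([p 5 1, s 3 2, g, p 0 3, s 0 4, g, m 4 0, g, p 0 5, g, s 1 0, g, s 2 0, g], .lo 4, [.l [2, 10, 7, 2, 6, 7], .l [3, 5, 2], .l [2, 10, 7, 2, 6], .l [3, 1, 9, 6, 1, 8, 2, 7], .l [6, 1, 7, 5, 1], .l [3, 1, 9, 6, 1], .y [4, 6], .l [3, 1, 9, 6, 3, 8, 2, 7], .l [6, 1, 7, 5, 1], .l [3, 1, 9, 6, 3], .l [3, 1, 7, 4, 6, 10, 8, 5], .l [6, 1, 9, 7, 1], .l [3, 1, 7, 4, 6], .l [0, 9, 9, 3, 1, 4, 1, 4, 2, 3], .l [0, 9, 11, 5, 1, 6, 1, 6, 2, 5], .l [6, 1, 11, 9, 1], .l [3, 1, 7, 4, 8], .l [3, 1, 7, 4, 8, 8, 4, 5], .l [0, 9, 13, 7, 1, 8, 1, 8, 2, 3], .l [6, 1, 13, 11, 1], .l [3, 1, 7, 4, 10]]),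
([p 4 1, s 3 2, g, p 0 3, s 0 0, g, p 0 4, g, s 1 0, g, s 2 0, g], .hi 4, [.l [2, 8, 5, 2, 4, 5], .l [2, 8, 5, 2, 4], .l [3, 5, 2], .l [2, 6, 3, 0, 2], .y [4], .l [3, 1, 7, 4, 1, 6, 2, 5], .l [3, 1, 7, 4, 1], .r 1674 [1, 2, 3, 5, 4] [1, 1, 1, 1, 1, 1], .l [3, 1, 5, 2, 1], .l [3, 1, 5, 2, 4, 8, 6, 3], .l [3, 1, 5, 2, 4], .l [12, 10, 11, 6, 3, 4, 6, 3], .l [3, 1, 5, 2, 6, 1, 2, 5], .l [3, 1, 5, 2, 6], .r 1673 [1, 2, 3, 5, 4] [1, 1, 1, 1, 1, 1], .l [1, 9, 11, 5, 2, 7], .l [3, 1, 5, 2, 8], .l [1, 9, 11, 5, 2, 7]]),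
([p 3 0, s 2 1, g, p 0 2, s 0 0, g, p 0 3, g, s 1 0, g], .hi 0, [.r 1672 [4, 2, 3] [1, 1, 1, 3], .l [0, 2], .l [3, 2], .l [0, 2], .l [0, 3, 1], .r 1308 [4, 1, 2, 3] [1, 1, 1, 1, 1], .l [0, 5], .l [6, 5], .y [0, 6], .r 1675 [4, 1, 2, 3] [1, 1, 1, 1, 1], .l [0, 7], .l [8, 7], .r 1668 [4, 1, 2, 3] [1, 1, 1, 1, 1], .l [0, 9], .l [10, 9]]),
([p 4 1, g, s 2 0, g, s 1 0, g, p 0 2, m 0 3, g, p 0 4, p 0 0, g, m 3 0, g], .lo 10, [.l [1, 11, 9, 10, 12, 8, 3], .l [2, 11], .l [0, 5, 3, 9, 11, 8, 3], .l [1, 9, 7, 8, 10, 6, 3], .l [3, 11, 7, 10, 12, 6, 9], .l [4, 11], .l [0, 5, 1, 9, 11, 8, 3], .l [0, 3, 3, 7, 6], .l [5, 11, 5, 10, 12, 4, 7], .l [6, 11], .l [5, 11, 5, 10], .l [8, 11, 2, 10, 12, 10, 3], .l [9, 11], .l [8, 11, 2, 10], .y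 [10], .l [9, 14, 11, 3, 12, 6, 1], .l [0, 3, 9, 12, 8, 3, 5, 8, 3], .l [9, 14, 11, 3, 12, 6, 1], .l [9, 12, 9, 3, 10, 4, 1], .l [9, 12, 9, 3, 10, 4, 9], .l [7, 3, 6, 11, 7, 8, 10, 6, 1], .l [9, 12, 9, 3, 10, 4, 9]]),
([p 3 0, s 1 0, g, p 0 1, m 0 2, g, p 0 3, p 0 0, g, m 2 0, g], .hi 0, [.r 1677 [4, 1, 2, 3] [0, 1, 1, 1, 1, 1], .l [0, 2], .l [3, 2], .l [0, 2], .l [4, 3], .l [0, 5, 10, 8, 1], .l [0, 5], .l [6, 5], .y [0, 6], .l [0, 6], .l [0, 8, 10, 5, 1], .l [0, 8], .l [9, 8], .l [1, 6, 4, 10, 5, 7, 3], .l [0, 10], .l [11, 10]]),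
([p 2 0, s 1 0, g, p 0 1, m 0 0, g, p 0 2, p 0 0, g], .hi 4, [.l [2, 8, 5, 2, 4], .l [2, 8, 5, 2], .l [3, 5], .l [2, 6, 3, 0], .y [4], .l [3, 1, 7, 4, 1], .l [3, 1, 7, 4, 1], .r 1287 [1, 3, 2] [1, 1, 1, 2], .l [3, 1, 5, 2, 1], .l [3, 1, 5, 2, 4], .l [3, 1, 5, 2, 6], .l [3, 1, 5, 2, 6], .r 1678 [1, 3, 2] [1, 1, 1, 1]]),
([p 3 0, s 2 1, g, p 0 2, g, p 0 3, p 0 0, g, s 1 0, g], .top 4, [.r 1129 [2, 3] [0, 1, 4], .r 1676 [1, 2, 3] [1, 1, 2, 1], .r 1665 [2, 3] [1, 1, 3], .r 1679 [2, 3] [1, 1, 3]]),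
([p 0 1, s 2 0, g, p 0 0, s 1 0, g, p 0 2, g], .hi 3, [.l [0, 3, 2], .l [0, 5, 1], .l [3, 8, 5, 2, 5], .l [5, 1], .y [3], .l [0, 3, 4], .l [3, 5], .l [6, 2], .l [3, 5], .l [0, 3, 6], .l [3, 7], .l [8, 4]]),
([p 3 1, s 6 2, g, p 0 3, p 5 0, g, s 0 4, g, p 4 5, g, s 2 0, g, s 0 0, s 1 0, g, p 0 6, g], .hi 12, [.l [0, 14, 10, 1, 12, 3], .l [12, 10, 11, 7, 14, 7, 4, 1], .l [0, 14, 10], .l [10, 8, 9, 7, 12, 5, 2, 1], .l [12, 10, 11, 9, 14, 5, 2, 9], .l [12, 10, 11, 9, 3, 14, 5, 2, 10, 4, 2, 1], .l [0, 14, 7], .l [10, 8, 9, 7, 12, 5, 2, 7], .l [12, 10, 11, 9, 14, 5, 2, 7], .l [5, 12, 7, 9, 8, 3, 3, 6, 8, 3], .l [0, 14, 5], .l [12, 10, 11, 9, 14, 5, 2, 5], .l [5, 12, 7, 9, 8, 1, 1, 6, 8, 3], .l [0, 14, 3], .l [10, 8, 9, 7, 14,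 7, 4, 1], .l [13, 3, 10, 15, 4, 1, 9, 1, 3, 6, 8, 3], .l [0, 14, 1], .y [12], .l [0, 12, 13, 4, 2, 9], .l [0, 12, 13], .l [15, 2, 13], .l [0, 12, 13], .l [0, 12, 15, 6, 2, 11], .l [0, 12, 15], .l [17, 4, 15]]),
([p 0 1, s 2 0, g, m 0 0, s 1 0, g, p 0 2, g], .lo 3, [.l [0, 3, 1], .l [0, 5, 1], .l [5, 1], .l [3, 8, 5, 2, 5], .y [3], .c, .l [0, 3, 4], .l [6, 2], .l [3, 5], .l [0, 3, 6], .l [8, 4], .l [3, 7]]),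
([p 3 1, s 6 2, g, p 0 3, p 5 0, g, s 0 4, g, p 4 5, g, s 2 0, g, s 1 0, g, p 0 6, g], .bot 11, [.l [0, 10, 8, 11, 2, 8], .r 1682 [1, 2, 3, 4, 5, 6] [1, 1, 1, 1, 1, 1, 1], .r 1681 [1, 6] [10, 1, 1], .r 1683 [1, 6] [10, 1, 1]]),
([p 5 1, s 4 2, g, p 0 0, s 0 3, g, s 0 4, g, p 0 5, p 7 0, g, m 3 0, g, s 0 6, g, p 6 7, g, s 2 0, g, s 1 0, g], .hi 3, [.l [7, 13, 11, 1, 7, 2, 2, 15], .l [21, 20, 17, 3, 1, 11, 16, 10, 3, 5, 12, 7], .l [5, 1], .y [3], .c, .l [0, 10, 9, 6, 11, 7, 8, 12, 8, 13], .l [3, 5], .l [6, 2], .l [1, 16, 10, 14, 15, 1, 11, 5], .l [8, 13, 8, 11, 15, 9, 1], .l [3, 7], .l [8, 4], .l [3, 7], .l [3, 10, 16, 14, 4], .l [3, 10], .l [11, 7], .l [3, 12, 16, 12, 4], .l [3, 12], .l [13, 9], .l [3, 12, 12, 12, 12, 8,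 4], .l [3, 14, 16, 10, 4], .l [3, 14], .l [15, 11], .l [3, 16, 10, 12, 17, 7, 16, 5], .l [3, 16], .l [17, 13], .l [3, 18, 12, 14, 17, 5, 16, 7], .l [3, 18], .l [19, 15], .l [19, 18, 4, 9, 7, 16], .l [3, 20], .l [21, 17]]),
([p 5 1, s 4 2, g, m 0 0, s 0 3, g, s 0 4, g, p 0 5, p 7 0, g, m 3 0, g, s 0 6, g, p 6 7, g, s 2 0, g, s 1 0, g], .lo 3, [.l [7, 13, 11, 1, 7, 2, 2, 15], .l [5, 1], .l [21, 20, 17, 3, 1, 11, 16, 10, 3, 5, 12, 7], .y [3], .l [0, 10, 9, 6, 11, 7, 8, 12, 8, 13], .l [6, 2], .l [3, 5], .l [8, 13, 8, 11, 15, 9, 1], .l [8, 4], .l [3, 7], .l [9, 5], .l [3, 10, 16, 14, 4], .l [11, 7], .l [3, 10], .l [3, 10], .l [3, 12, 16, 12, 4], .l [13, 9], .l [3, 12], .l [3, 14, 16, 10, 4], .l [15, 11], .l [3, 14], .l [3, 16,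 10, 12, 17, 7, 16, 5], .l [17, 13], .l [3, 16], .l [1, 5, 10, 8, 13, 13, 2, 12], .l [3, 18, 12, 14, 17, 5, 16, 7], .l [19, 15], .l [3, 18], .l [1, 16, 10, 14, 15, 3, 14, 14, 12, 5], .l [19, 18, 4, 9, 7, 16], .l [21, 17], .l [3, 20]]),
([p 6 1, s 5 2, g, s 3 0, g, s 0 3, s 0 4, g, s 0 5, g, p 0 6, p 9 0, g, m 4 7, g, s 7 8, g, p 8 9, g, s 2 0, g, s 1 0, g], .lo 5, [.l [9, 2, 4, 13, 9, 10, 14, 10, 2, 2, 13], .l [9, 15, 13, 3, 9, 2, 2, 17], .l [17, 18, 22, 20, 17, 3, 1, 13, 3, 15, 6, 1], .y [3, 5], .l [9, 2, 4, 13, 9, 10, 14, 10, 2, 2, 13], .l [9, 15, 13, 1, 9, 2, 2, 17], .l [0, 22, 3, 3, 13, 15, 7, 1, 5, 11, 6, 6, 4, 10], .l [9, 15, 11, 12, 16, 12, 2, 2], .l [23, 22, 8, 21, 10, 19, 2, 15], .l [0, 12, 11, 8, 13, 9, 10, 14,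 10, 15], .l [14, 21, 7, 20, 4, 7, 16, 3, 10, 14, 5], .l [0, 22, 3, 3, 5, 1, 3, 15, 8, 4, 10, 10, 8, 10, 3], .l [10, 15, 10, 13, 17, 11, 1], .l [0, 20, 10, 1, 13, 9, 3, 10, 14, 9], .l [5, 12, 18, 16, 4], .l [0, 22, 12, 3, 15, 9, 3, 10, 16, 11], .l [3, 4, 4, 11, 17, 15, 5], .l [5, 14, 18, 14, 4], .l [13, 6, 14, 6, 16, 6, 10], .l [3, 4, 4, 13, 17, 13, 5], .l [5, 16, 18, 12, 4], .l [13, 6, 16, 8, 16, 4, 10], .l [3, 4, 4, 15, 17, 11, 5], .l [0, 22, 5, 5, 7, 1, 3, 11, 8, 8, 4, 12], .l [13, 6, 18, 10, 4, 12, 4], .l [5, 18, 10, 12, 19, 9, 18, 5], .l [0, 20, 3, 3, 5, 1, 3, 9, 6, 6, 4, 10], .l [0, 22, 5, 5, 7, 1, 5, 11, 6, 6, 4, 12], .l [13, 6, 20, 12, 4, 14, 6], .l [5, 20, 12, 14, 19, 7, 18, 7], .l [8, 13, 10, 19, 19, 4, 10, 14,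 10, 1], .l [5, 22, 5, 5, 7, 1, 3, 12, 7, 9, 7, 4, 5], .l [13, 6, 22, 14, 4, 16, 8], .l [21, 20, 6, 11, 9, 18]]),
([p 5 1, s 4 2, g, s 0 0, s 0 3, g, s 0 4, g, p 0 5, p 8 0, g, m 3 6, g, s 6 7, g, p 7 8, g, s 2 0, g, s 1 0, g], .hi 3, [.r 1687 [1, 2, 9, 3, 4, 5, 6, 7, 8] [1, 1, 1, 1, 1, 1, 1, 1, 1, 1], .l [15, 16, 20, 18, 15, 3, 1, 11, 1, 13, 6, 1], .l [7, 13, 11, 1, 7, 2, 2, 15], .y [3], .c, .l [7, 13, 9, 10, 14, 10, 2, 2], .l [0, 10, 9, 6, 11, 7, 8, 12, 8, 13], .l [21, 20, 6, 19, 10, 17, 2, 13], .l [10, 17, 7, 16, 4, 5, 12, 3, 8, 10, 3], .l [12, 19, 7, 18, 4, 7, 14, 3, 8, 12, 5], .l [8, 13, 8, 11, 15, 9, 1], .l [0, 20, 3, 3, 5, 1, 3, 13, 6, 4, 8, 8, 6, 8, 3], .l [19, 18, 4, 9, 7, 3], .l [3, 10, 16, 14, 4], .l [3, 10, 16,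 14, 4], .l [0, 20, 12, 3, 15, 9, 3, 10, 14, 9], .l [3, 12, 16, 12, 4], .l [3, 12, 16, 12, 4], .l [11, 6, 12, 4, 14, 6, 10], .l [3, 14, 16, 10, 4], .l [3, 14, 16, 10, 4], .l [11, 6, 14, 6, 14, 4, 10], .l [0, 20, 5, 5, 7, 1, 3, 11, 8, 8, 4, 10], .l [3, 16, 10, 12, 17, 7, 16, 5], .l [11, 6, 16, 8, 2, 10, 4], .l [0, 20, 5, 5, 7, 1, 5, 11, 6, 6, 4, 10], .l [3, 18, 12, 14, 17, 5, 16, 7], .l [11, 6, 18, 10, 2, 12, 6], .l [3, 20, 5, 5, 7, 1, 3, 12, 7, 9, 7, 4, 5], .l [19, 18, 4, 9, 7, 16], .l [11, 6, 20, 12, 2, 14, 8]]),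
([p 5 1, s 4 2, g, s 0 3, g, s 0 4, g, p 0 5, p 8 0, g, m 3 6, g, s 6 7, g, p 7 8, g, s 2 0, g, s 1 0, g], .bot 2, [.l [1, 14, 10, 12, 13, 3, 12, 5], .r 1688 [1, 2, 3, 4, 5, 6, 7, 8] [1, 1, 1, 1, 1, 1, 1, 1, 1], .r 1685 [1, 2, 3, 4, 5, 7, 8] [1, 1, 1, 1, 1, 1, 1, 1, 1], .r 1686 [1, 2, 3, 4, 5, 7, 8] [1, 1, 1, 1, 1, 1, 1, 1, 1]]),
([p 5 1, s 4 2, g, m 0 3, g, s 0 4, g, p 0 5, p 8 0, g, m 3 6, g, s 6 7, g, p 7 8, g, s 2 0, g, s 1 0, g], .lo 7, [.l [1, 6, 3, 6, 9, 4, 15, 8, 5, 7, 10, 3], .l [3, 8], .l [2, 9, 6, 5], .l [11, 6, 3, 10, 3, 12, 6, 8, 3], .l [5, 8], .l [4, 9, 4, 3], .l [11, 4, 1, 10, 3, 12, 4, 8, 5], .l [7, 8], .l [6, 9, 2, 1], .l [9, 16, 7, 1, 8, 5, 1, 1, 9, 4, 7, 7, 3], .l [0, 19, 12, 2, 8, 6, 14], .l [11, 18,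 7, 1, 8, 5, 1, 1, 9, 4, 7, 9, 5], .l [0, 19, 12, 2, 8, 6, 14], .l [0, 19, 12, 4, 8, 4, 14], .l [9, 18, 9, 3, 14, 12, 8, 5, 1, 1, 9, 4, 7], .l [0, 19, 12, 4, 8, 4, 14], .l [0, 19, 12, 6, 8, 2, 14], .l [11, 6, 8, 12, 5, 10, 1, 10, 6, 2, 6, 1, 4], .l [0, 19, 12, 6, 8, 2, 14], .l [0, 19, 5, 5, 7, 1, 8, 4, 10, 3, 3, 4, 8], .l [0, 19, 5, 5, 7, 1, 8, 4, 10, 3, 3, 4, 8], .l [6, 7, 0, 14], .l [9, 16, 7, 1, 8, 1, 10, 8, 9, 4, 5, 5, 5], .l [0, 19, 5, 5, 7, 1, 8, 2, 10, 3, 3, 6, 8], .l [0, 19, 5, 5, 7, 1, 8, 2, 10, 3, 3, 6, 8], .l [6, 7, 0, 16], .y [0, 18, 7], .l [0, 17, 3, 3, 5, 1, 6, 13, 1, 12, 3, 7, 3], .l [1, 15, 19, 10, 13, 9, 4, 2, 8, 12, 8, 1], .l [6, 7, 0, 18]]),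
([p 5 1, s 3 2, g, s 0 3, g, m 0 4, g, p 0 5, p 8 0, g, m 4 6, g, s 6 7, g, p 7 8, g, s 2 0, g, s 1 0, g], .lo 7, [.l [3, 8, 17, 10, 4, 13, 1, 2, 12, 8, 4, 9], .l [3, 8], .l [2, 9, 6, 5], .l [5, 8, 17, 12, 6, 13, 15, 13, 5, 12, 4, 7], .l [5, 8], .l [4, 9, 4, 3], .l [11, 4, 1, 10, 5, 12, 4, 6, 3], .l [7, 8], .l [6, 9, 2, 1], .l [9, 16, 7, 1, 10, 7, 1, 1, 9, 2, 7, 7, 1], .l [0, 19, 12, 2, 8, 6, 14], .l [11, 18, 7, 1, 10, 7, 1, 1, 9, 2, 7, 9, 3], .l [0, 19, 12, 2, 8, 6, 14], .l [0, 19, 12, 4, 8, 4, 14], .l [9, 18, 9, 3, 14, 12, 10, 7, 1, 1, 9, 2, 7], .l [0, 19, 12, 4, 8, 4, 14], .l [0, 19, 12, 6, 8, 2, 14], .l [20, 19, 16, 7, 1, 8, 4, 8, 1, 6, 4, 10, 8, 1], .l [0, 19, 12, 6, 8, 2, 14], .l [0, 19, 5, 5, 7, 1, 8, 4, 8, 1, 1,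 2, 8], .l [0, 19, 5, 5, 7, 1, 8, 4, 8, 1, 1, 2, 8], .l [6, 7, 0, 14], .l [9, 16, 7, 1, 10, 3, 10, 6, 9, 4, 5, 5, 5], .l [0, 19, 5, 5, 7, 1, 8, 2, 8, 1, 1, 4, 8], .l [0, 19, 5, 5, 7, 1, 8, 2, 8, 1, 1, 4, 8], .l [6, 7, 0, 16], .y [0, 18, 7], .l [0, 17, 3, 3, 5, 1, 6, 13, 1, 12, 3, 5, 1], .l [11, 20, 15, 7, 16, 8, 14, 7, 12], .l [6, 7, 0, 18]]),
([p 4 1, s 3 2, g, s 0 3, g, p 0 4, p 7 0, g, m 0 5, g, s 5 6, g, p 6 7, g, s 2 0, g, s 1 0, g], .lo 8, [.r 1689 [1, 2, 8, 3, 4, 5, 6, 7] [1, 1, 1, 1, 1, 1, 1, 1, 1], .l [10, 6], .r 1690 [1, 2, 8, 3, 4, 5, 6, 7] [1, 1, 1, 1, 1, 1, 1, 1, 1], .l [3, 1, 9, 4, 15, 8, 5, 7, 10, 3], .l [10, 4], .r 1691 [1, 2, 3, 8, 4, 5, 6, 7] [1, 1, 1, 1, 1, 1, 1, 1, 1], .y [6, 8, 10, 12], .l [2, 10, 1,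 12, 8, 2, 2, 11], .l [10, 1], .l [9, 16, 7, 15, 1, 12, 3, 8, 10, 3], .l [2, 10, 1, 12, 8, 2, 2, 11], .l [10, 1], .l [8, 9], .l [2, 12, 3, 12, 6, 2, 2, 11], .l [12, 3], .l [8, 11], .l [2, 8, 12, 3, 1, 1, 6, 2, 2, 9], .l [14, 5], .l [8, 13], .l [0, 15, 1, 12, 6, 10, 3, 1, 1, 4, 6, 3], .l [2, 8, 14, 1, 5, 3, 8, 2, 2, 9], .l [16, 7], .l [8, 15], .l [8, 15, 5, 1, 13, 7, 1, 6, 2, 7], .l [2, 8, 16, 3, 7, 3, 10, 2, 2, 3], .l [18, 9], .l [8, 17]]),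
([p 4 1, s 3 2, g, s 0 3, g, p 0 4, p 6 0, g, s 0 5, g, p 5 6, g, s 2 0, g, s 1 0, g], .lo 8, [.l [3, 9, 9, 9, 9, 7, 3], .l [3, 9, 9, 9, 9, 7, 3], .l [0, 15, 3, 3, 10, 6, 6, 4, 8], .l [5, 9, 9, 9, 9, 7, 1], .l [5, 9, 9, 9, 9, 7, 1], .l [0, 15, 3, 3, 8, 4, 4, 2, 8], .y [6, 8, 10], .l [2, 10, 1, 10, 6, 2, 2, 9], .l [2, 10, 1, 10, 6, 2, 2, 9], .r 1692 [1, 2, 3, 4, 7, 5, 6] [1, 1, 1, 1, 1, 1, 1, 1], .l [2, 10, 1, 10, 6, 2, 2, 9], .l [2, 10, 1, 10, 6, 2, 2, 9], .l [2, 8, 10, 1, 8, 8, 6, 2, 2, 7], .l [8, 11, 1, 9, 11, 4, 10, 8, 6, 7], .l [16, 15, 1, 10, 3, 10, 1, 10, 6, 3], .l [8, 11, 1, 9, 11, 4, 10, 8, 6, 7], .l [1, 2, 7, 9, 1, 7, 7, 2, 6, 4, 2, 3], .l [16, 15, 10, 3, 10, 8, 8, 10, 4, 1], .l [1, 11, 1, 1, 11, 9, 9, 7, 3, 1,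 2, 5], .l [8, 9, 15, 13, 8, 1, 8, 10, 4, 1], .l [0, 13, 3, 3, 11, 7, 7, 5, 4], .l [0, 13, 15, 9, 9, 9, 9, 7, 4, 1], .l [0, 13, 3, 3, 13, 9, 9, 7, 4], .l [2, 8, 14, 3, 5, 1, 8, 2, 2, 3]]),
([p 3 1, s 7 2, g, p 0 3, p 5 0, g, s 6 4, g, p 4 5, g, p 0 6, g, p 0 7, g, s 2 0, g, s 1 0, g], .lo 3, [.l [12, 3, 8, 1, 9, 7, 3], .l [3, 4], .l [0, 17, 14, 1, 1, 14, 3], .l [5, 12, 7, 9, 8, 1, 1, 6, 9, 5, 1, 1, 5], .l [0, 17, 14, 2, 6, 4, 12], .l [7, 14, 7, 9, 8, 1, 1, 6, 11, 7, 1, 3, 7], .l [0, 17, 14, 2, 6, 4, 12], .l [0, 17, 14, 4, 6, 2, 12], .l [1, 15, 9, 3, 7, 11, 12, 10, 2, 4, 2, 7], .l [0, 17, 14, 4, 6, 2, 12], .l [0, 17, 9, 9, 12, 4, 6, 4, 4, 2, 8, 3], .l [0, 17, 11, 1, 12, 8, 7, 9, 1, 10, 5, 3, 5], .l [2, 3, 0, 8], .l [7, 4,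 10, 7, 3, 7, 3], .l [0, 17, 11, 1, 11, 9, 11, 7, 5, 7, 1, 8, 5], .l [2, 3, 0, 10], .l [1, 15, 9, 1, 5, 11, 12, 10, 2, 4, 2, 7], .l [1, 15, 9, 1, 5, 11, 12, 10, 2, 4, 2, 7], .l [2, 3, 0, 12], .l [10, 3, 8, 12, 12, 1, 8, 6, 3, 3, 1, 5, 1], .l [7, 4, 14, 11, 3, 11, 7], .l [5, 12, 7, 9, 8, 1, 1, 6, 11, 7, 1, 5, 7], .l [2, 3, 0, 14], .y [0, 16, 3], .l [7, 4, 16, 13, 3, 13, 9], .l [7, 8, 4, 16, 15, 15, 12, 1, 3, 1, 3, 8, 1], .l [2, 3, 0, 16]]),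
([p 3 1, s 6 2, g, p 0 3, p 5 0, g, s 0 4, g, p 4 5, g, p 0 6, g, s 2 0, g, s 1 0, g], .lo 6, [.l [3, 7, 7, 7, 7, 5, 1], .l [3, 7, 7, 7, 7, 5, 1], .l [0, 15, 5, 5, 10, 4, 4, 2, 8], .y [4, 6, 8], .l [0, 15, 1, 12, 6, 1, 6, 2, 8, 1], .l [0, 15, 1, 12, 6, 1, 6, 2, 8, 1], .l [7, 12, 5, 1, 9, 6, 7, 2, 5], .l [0, 15, 1, 12, 6, 1, 6, 2, 8, 1], .l [0, 15, 1, 12, 6, 1, 6, 2, 8, 1], .l [6, 9, 3, 14, 12, 6, 6, 4, 9], .l [6, 9, 1, 7, 9, 4, 10, 8, 4, 7], .r 1694 [1, 2, 3, 4, 5, 7, 6] [1, 1, 1, 1, 1, 1, 1, 1], .l [6, 9, 1, 7, 9, 4, 10, 8, 4, 7], .l [6, 11, 3, 9, 11, 6, 10, 6, 4, 7], .l [5, 12, 5, 14, 7, 9, 11, 9, 4, 7], .l [6, 11, 3, 9, 11, 6, 10, 6, 4, 7], .l [6, 11, 3, 9, 9, 4, 8, 4, 2, 5], .l [16, 15, 10, 5, 10, 8, 8, 10, 6, 3], .l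 [5, 14, 7, 14, 5, 9, 11, 7, 2, 5], .l [6, 7, 15, 13, 8, 3, 8, 10, 6, 3], .l [0, 13, 5, 5, 11, 5, 5, 3, 2], .l [0, 13, 15, 7, 7, 7, 7, 5, 2, 7], .l [0, 13, 5, 5, 13, 7, 7, 5, 2], .l [5, 10, 5, 1, 13, 10, 11, 6, 9]]),
([p 3 1, s 0 2, g, p 0 3, p 5 0, g, s 0 4, g, p 4 5, g, s 2 0, g, s 1 0, g], .lo 1, [.r 1693 [1, 2, 6, 3, 4, 5] [1, 1, 1, 1, 1, 1, 1], .r 1680 [2, 6, 3] [1, 1, 5, 3], .l [2, 5, 2, 2, 11], .l [4, 2, 9, 6, 0, 6, 1], .l [1, 5, 9, 7, 1], .l [6, 4, 11, 6, 0, 8, 3], .l [0, 3, 2, 4, 8, 6, 9], .l [1, 7, 9, 5, 1], .l [8, 6, 11, 4, 0, 8, 5], .l [0, 3, 2, 6, 8, 4, 9], .r 1634 [1, 3, 4, 5, 6] [1, 1, 1, 1, 3, 1], .r 1695 [1, 2, 3, 4, 5, 6] [1, 1, 1, 1, 1, 1, 1], .l [14, 13, 8], .y [1, 10], .r 1634 [1, 3, 4, 5, 6] [1, 1, 1,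 3, 1, 1], .r 1660 [1, 2, 3, 4, 5, 6] [1, 1, 1, 1, 1, 1, 1], .l [14, 13, 10], .l [12, 11, 10], .l [1, 13, 7, 1, 3, 9, 4, 6, 4, 1], .r 1684 [1, 2, 3, 4, 5, 6] [1, 1, 1, 1, 1, 1, 1], .l [12, 11, 12]]),
([p 3 1, s 0 2, g, p 0 3, p 6 0, g, s 0 4, g, p 5 0, g, s 0 5, p 4 6, g, s 1 0, g, s 2 0, g], .lo 10, [.l [3, 11, 11, 9, 11, 7, 1], .l [3, 11, 11, 9, 11, 7, 1], .l [8, 12, 6], .l [4, 9, 12, 6, 11, 1, 6, 3], .l [0, 8, 12, 9, 11, 9, 2, 11], .l [6, 11, 14, 8, 13, 1, 6, 3], .l [8, 12, 9], .l [12, 3, 10, 15, 10, 6, 10, 3], .l [6, 12, 3], .l [15, 14, 15, 4, 11, 9, 1, 9, 6, 1, 4, 1], .y [8, 10], .l [11, 10, 16, 7, 2, 11, 7, 3, 6, 1], .l [6, 12, 1], .l [15, 14, 15, 4, 11, 9, 1, 9, 6, 1, 4, 1], .l [10, 12, 14, 11, 13, 6, 1, 3, 8, 3],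 .l [13, 2, 5], .l [6, 10, 11], .l [10, 12, 12, 9, 11, 4, 1, 1, 6, 3], .l [0, 12, 14, 11, 11, 9, 11, 7, 2, 9], .l [15, 4, 7], .l [6, 10, 13], .l [0, 12, 14, 11, 11, 9, 11, 7, 2, 3], .l [0, 12, 16, 13, 13, 11, 13, 9, 2, 3], .l [17, 6, 9], .l [6, 10, 15]]),
([p 3 1, s 0 2, g, p 0 3, p 5 0, g, s 0 4, g, s 0 0, p 4 5, g, s 1 0, g, s 2 0, g], .hi 8, [.l [1, 7, 8, 4, 1], .l [3, 9, 10, 6, 1], .l [8, 10, 4], .l [3, 9, 10, 6, 1], .l [6, 8, 4], .l [0, 8, 10, 7, 9, 7, 2, 9], .l [8, 10, 7], .l [13, 12, 13, 6, 2, 5], .l [6, 8, 7], .l [10, 1, 8, 13, 8, 4, 8, 3], .r 1697 [1, 2, 3, 4, 6, 5] [1, 1, 1, 1, 1, 1, 1], .l [6, 10, 1], .y [8], .l [13, 12, 13, 6, 2, 4, 7, 3], .l [6, 8, 9], .l [11, 2, 3], .l [0, 10, 12, 9, 10, 6, 2, 8], .l [6, 8,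 11], .l [13, 4, 5], .l [0, 10, 14, 11, 12, 8, 2, 3], .l [6, 8, 13], .l [15, 6, 7]]),
([p 3 1, s 0 2, g, p 0 3, p 6 0, g, s 0 4, g, m 0 5, g, m 5 0, p 4 6, g, s 1 0, g, s 2 0, g], .hi 10, [.l [0, 3, 2, 8, 8, 6, 8, 4, 7], .l [3, 11, 11, 9, 11, 7, 1], .l [0, 14, 11, 8, 8, 6, 8, 4, 8], .l [3, 11], .l [0, 12, 9, 6, 6, 4, 6, 2, 6], .l [6, 11, 14, 8, 13, 1, 6, 3], .l [15, 14, 15, 10, 5, 8, 9, 6, 3, 6, 0, 3], .l [6, 11], .l [0, 12, 6, 3, 6, 1, 2, 0, 1], .l [8, 11, 14, 10, 13, 1, 4, 5], .l [15, 14, 15, 8, 3, 6, 9, 6, 1, 6, 0, 1], .l [8, 11], .y [8, 10], .l [15, 14, 15, 4, 11, 9, 1, 9, 6, 1, 4, 1], .l [0, 14, 4, 1, 4, 2, 3], .l [10, 11], .l [15, 14, 15, 6, 2, 4, 9, 5], .l [15, 14, 15, 6, 2, 4, 9, 5], .l [9, 3, 9, 13, 11, 12, 6, 3,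 4, 6, 3], .l [0, 12, 2, 12, 4, 2, 12, 4, 2, 3], .l [0, 12, 2, 12, 4, 2, 12, 4, 2, 3], .l [0, 12, 14, 11, 11, 9, 11, 7, 2], .l [0, 12, 16, 13, 13, 11, 13, 9, 2], .l [13, 12, 13, 4, 13, 3, 9, 1, 10, 7], .l [0, 12, 16, 13, 13, 11, 13, 9, 2]]),
([p 3 1, s 0 2, g, p 0 3, p 5 0, g, s 0 4, g, m 0 0, p 4 5, g, s 1 0, g, s 2 0, g], .lo 8, [.l [8, 10, 4], .l [10, 6], .l [8, 10, 4], .l [8, 3], .l [8, 10, 7], .l [10, 3], .l [8, 10, 7], .l [6, 10, 1], .l [10, 1], .r 1699 [1, 2, 3, 4, 6, 5] [1, 1, 1, 1, 1, 1, 1], .y [8], .l [6, 8, 9], .l [11, 2], .l [8, 10], .l [6, 8, 9], .l [6, 8, 11], .l [13, 4], .l [8, 12], .l [6, 8, 11], .l [6, 8, 13], .l [15, 6], .l [8, 14]]),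
([p 3 1, s 0 2, g, p 0 3, p 6 0, g, s 0 4, g, p 5 0, g, p 0 5, p 4 6, g, s 1 0, g, s 2 0, g], .lo 10, [.l [3, 11, 11, 9, 11, 7, 1], .l [3, 11], .l [0, 14, 11, 8, 8, 6, 8, 4, 8], .l [4, 9], .l [6, 11, 14, 8, 13, 1, 6, 3], .l [6, 11], .l [15, 14, 15, 10, 5, 8, 9, 6, 3, 6, 0, 3], .l [8, 11, 14, 10, 13, 1, 4, 5], .l [8, 11], .l [15, 14, 15, 8, 3, 6, 9, 6, 1, 6, 0, 1], .y [8, 10], .l [15, 14, 15, 4, 11, 9, 1, 9, 6, 1, 4, 1], .l [10, 11], .l [0, 14, 4, 1, 4, 2, 3], .l [15, 14, 15, 6, 2, 4, 9, 5], .l [9, 3, 9, 13, 11, 12, 6, 3, 4, 6, 3], .l [15, 14, 15, 6, 2, 4, 9, 5], .l [0, 12, 12, 9, 9, 7, 9, 5, 2], .l [0, 12, 2, 12, 4, 2, 12, 4, 2, 3], .l [0, 12, 14, 11, 11, 9, 11, 7, 2], .l [0, 12, 2, 12, 4, 2, 12, 4, 2, 3], .l [0, 3, 2, 13,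 13, 8, 9, 3, 8, 1, 4, 1], .l [0, 12, 16, 13, 13, 11, 13, 9, 2], .l [0, 12, 16, 13, 13, 11, 13, 9, 2], .l [13, 12, 13, 4, 13, 3, 9, 1, 10, 7]]),
([p 3 1, s 0 2, g, p 0 3, p 5 0, g, s 0 4, g, p 0 0, p 4 5, g, s 1 0, g, s 2 0, g], .hi 8, [.l [6, 8, 2], .l [8, 10, 4], .l [8, 10, 4], .l [10, 6], .l [6, 8, 4], .l [8, 10, 7], .l [8, 10, 7], .l [10, 3], .l [6, 8, 7], .l [6, 10, 1], .r 1701 [1, 2, 3, 4, 6, 5] [1, 1, 1, 1, 1, 1, 1], .l [10, 1], .y [8], .l [6, 8, 9], .l [8, 10], .l [11, 2], .l [6, 8, 11], .l [8, 12], .l [13, 4], .l [6, 8, 13], .l [8, 14], .l [15, 6]]),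
([p 3 1, s 0 2, g, p 0 3, p 5 0, g, s 0 4, g, p 4 5, g, s 1 0, g, s 2 0, g], .bot 7, [.c, .r 1698 [1, 2, 3, 4, 5] [1, 1, 1, 1, 1, 1], .r 1702 [1, 2, 3, 4, 5] [1, 1, 1, 1, 1, 1], .r 1700 [1, 2, 3, 4, 5] [1, 1, 1, 1, 1, 1]]),
([p 2 1, s 0 0, g, p 0 2, p 4 0, g, s 0 3, g, p 3 4, g, s 1 0, g], .hi 1, [.y [1], .r 1658 [1, 5, 2, 3, 4] [1, 1, 1, 1, 1, 1], .l [2, 5, 2, 2, 9], .r 854 [5, 2] [1, 1, 8], .l [2, 3, 0, 0, 7], .l [1, 5, 9, 7, 1], .l [0, 3, 2, 4, 8, 6, 7], .r 853 [5, 2] [1, 2, 7], .l [1, 5, 5, 5, 5, 3, 1], .l [1, 7, 9, 5, 1], .l [0, 3, 2, 6, 8, 4, 7], .r 853 [5, 2] [1, 4, 5], .r 1696 [1, 5, 2, 3, 4] [1, 1, 1, 1, 1, 1], .l [12, 11, 8], .r 853 [5, 2] [1, 6, 3], .r 1703 [1, 5, 2, 3, 4] [1, 1, 1, 1, 1, 1], .l [10, 9, 10], .r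 715 [1, 5, 2] [1, 6, 1, 1]]),
([p 2 1, s 0 0, g, p 0 2, p 3 0, g, p 0 3, m 0 4, g, s 1 0, g, m 4 0, g], .lo 6, [.l [0, 3, 2, 4, 4, 2, 5], .l [3, 7, 7, 5, 1], .l [3, 7], .l [0, 10, 7, 4, 4, 2, 6], .y [4, 6], .l [0, 7, 11, 3, 8, 10, 2, 7, 2], .l [6, 7], .l [0, 7, 11, 3, 8, 10, 2, 7, 2], .l [0, 10, 12, 8, 10, 9, 9, 7, 2], .l [0, 10, 12, 8, 10, 9, 9, 7, 2], .l [0, 5, 11, 5, 2, 10, 8, 5, 2], .l [0, 8, 8, 5, 5, 3, 2], .l [0, 8, 10, 7, 7, 5, 2], .l [0, 8, 10, 7, 7, 5, 2], .l [0, 8, 2, 8, 5, 9, 2, 7, 2], .l [0, 8, 2, 8, 5, 7, 0, 5, 2], .l [0, 8, 10, 8, 10, 9, 9, 7, 2], .l [0, 8, 10, 8, 10, 9, 9, 7, 2], .l [9, 3, 12, 9, 5, 5, 2, 8, 1]]),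
([p 2 1, g, p 0 2, p 3 0, g, p 0 3, m 0 4, g, s 1 0, g, m 4 0, g], .top 1, [.r 334 [] [9], .r 1705 [1, 2, 3, 4] [1, 1, 1, 1, 1], .r 334 [] [11], .r 444 [] [11]]),
([p 2 1, g, p 3 0, g, p 0 2, p 4 3, g, p 0 4, m 6 5, g, s 0 6, g, m 5 0, g, s 1 0, g], .lo 7, [.l [2, 8, 8, 6, 3], .l [2, 8], .l [0, 15, 13, 6, 6, 4, 11], .y [2, 7, 5], .l [4, 8, 8, 6, 1], .l [4, 8], .l [0, 15, 11, 4, 4, 2, 11], .l [6, 12, 1, 12, 10, 7, 7, 4, 6, 4, 1], .l [7, 8], .l [6, 9, 7, 7, 4, 6, 4, 1], .l [6, 12, 3, 12, 8, 5, 5, 2, 4, 2, 5], .l [6, 12, 3, 12, 8, 5, 5, 2, 4, 2, 5], .l [6, 7, 5, 5, 2, 4, 2, 5], .l [6, 10, 1, 12, 10, 5, 5, 2, 4, 2, 3], .l [8, 12, 10, 11, 2, 13, 8, 8, 4, 8, 5], .l [6, 7, 5, 5, 2, 4, 2, 7], .l [6, 7, 5, 5, 2, 4, 2, 7], .l [6,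 10, 1, 10, 8, 5, 5, 2, 4, 2, 5], .l [16, 15, 15, 11, 13, 12, 4, 1, 6, 3, 8, 4, 5], .l [6, 7, 5, 5, 2, 4, 2, 9], .l [0, 13, 13, 6, 6, 4, 3], .l [0, 13, 15, 8, 8, 6, 3], .l [0, 13, 15, 8, 8, 6, 3], .l [6, 7, 5, 5, 2, 4, 2, 11]]),
([p 2 1, g, p 3 0, g, p 0 2, p 4 3, g, p 0 4, m 5 0, g, s 0 5, g, s 1 0, g], .hi 8, [.l [14, 13, 13, 7, 9, 8, 8, 6, 7], .l [1, 6, 4, 8], .l [2, 9], .l [14, 13, 13, 7, 11, 10, 10, 8, 5], .l [3, 6, 2, 8], .l [4, 9], .l [3, 4, 0, 6], .l [7, 9, 6], .l [6, 9, 7, 7, 4, 6, 4, 5], .l [7, 9], .l [6, 7, 5, 5, 2, 4, 2, 3], .l [14, 13, 13, 9, 11, 10, 10, 8, 1], .l [14, 13, 13, 9, 11, 10, 10, 8, 1], .l [2, 8, 11, 8, 4, 6, 7, 4, 1], .y [8, 10], .l [14, 13, 13, 9, 11, 10, 10, 8, 3], .l [14, 13, 13, 9, 11, 10, 10,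 8, 3], .r 1707 [1, 2, 3, 4, 6, 5] [1, 1, 1, 1, 1, 1, 1], .l [12, 11, 11, 7, 9, 8, 8, 6, 7], .l [12, 11, 11, 7, 9, 8, 8, 6, 7], .r 1706 [1, 2, 4, 6] [3, 1, 3, 1, 1]]),
([p 2 1, s 0 0, g, s 3 0, g, p 0 2, p 4 3, g, p 0 4, m 0 5, g, s 1 0, g, s 5 0, g], .hi 1, [.y [1], .l [13, 12, 1, 11, 5, 7, 6, 6, 4, 7], .l [2, 7, 4, 4, 10], .l [3, 1, 7, 2, 4, 9, 11, 9, 4, 5], .l [13, 12, 3, 11, 5, 9, 8, 8, 6, 7], .l [4, 7, 2, 2, 10], .l [0, 12, 5, 1, 7, 12, 8, 2, 4, 7], .l [4, 5, 0, 0, 8], .l [1, 7, 9, 7, 3], .l [0, 5, 4, 6, 8, 6, 9], .l [6, 2, 7, 2, 9, 4, 8, 3, 4, 7], .l [0, 5, 4, 6, 6, 4, 7], .l [6, 2, 8, 3, 7, 1, 6, 4, 2, 5], .l [6, 2, 10, 5, 9, 1, 8, 6, 4, 7], .l [13, 12, 9], .l [6, 2, 10, 5, 9, 1, 8, 6, 4, 7], .l [6, 2, 12, 7, 0, 9,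 6, 9], .l [11, 10, 11], .l [6, 2, 12, 7, 0, 9, 6], .l [6, 2, 14, 9, 0, 11, 8, 3], .l [11, 10, 13], .l [6, 2, 14, 9, 0, 11, 8]]),
([p 2 1, s 0 0, g, s 3 0, g, p 0 2, p 4 3, g, p 0 4, m 0 5, g, s 5 0, g, s 1 0, g], .hi 1, [.y [1], .l [15, 14, 1, 13, 7, 9, 8, 8, 6, 1], .l [2, 7, 4, 4, 12], .r 854 [6, 2] [1, 3, 9], .l [15, 14, 3, 13, 7, 11, 10, 10, 8, 1], .l [4, 7, 2, 2, 12], .r 854 [6, 2] [3, 1, 9], .l [4, 5, 0, 0, 10], .l [1, 7, 9, 7, 3], .l [0, 5, 4, 6, 8, 6, 11], .l [6, 2, 7, 2, 11, 6, 10, 3, 6, 1], .l [0, 5, 4, 6, 6, 4, 9], .l [6, 2, 8, 3, 9, 3, 8, 4, 2, 3], .l [6, 2, 10, 5, 11, 3, 10, 6, 4, 5], .l [15, 14, 9], .l [6, 2, 10, 5, 11, 3, 10, 6, 4, 5], .l [6, 2, 12, 7, 11, 1, 10, 8, 6, 1], .l [15, 14, 11], .l [6, 2, 12, 7,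 11, 1, 10, 8, 6, 1], .l [6, 2, 14, 9, 0, 11, 8, 1], .l [13, 12, 13], .l [6, 2, 14, 9, 0, 11, 8]]),
([p 2 1, s 0 0, g, s 3 0, g, p 0 2, p 4 3, g, p 0 4, m 6 5, g, s 0 6, g, m 5 0, g, s 1 0, g], .hi 1, [.y [1], .l [2, 8, 12, 1, 13, 11, 8, 4, 4, 9], .l [2, 7, 4, 4, 14], .l [3, 1, 7, 11, 1, 12, 10, 7, 3], .l [2, 13, 1, 7, 9, 12, 5, 11, 4, 4, 2, 3], .l [4, 7, 2, 2, 14], .l [5, 3, 7, 11, 1, 12, 10, 7, 1], .l [4, 5, 0, 0, 12], .l [1, 7, 9, 7, 3], .l [0, 5, 4, 6, 8, 6, 13], .l [6, 2, 7, 2, 7, 2, 5], .l [0, 5, 4, 6, 6, 4, 11], .l [6, 2, 5, 3, 2, 7, 11, 9, 2, 9], .l [17, 16, 9], .l [6, 2, 10, 5, 13, 5, 12, 6, 4, 5], .l [1, 10, 2, 9, 7, 10, 2, 7, 3], .l [6, 2, 5, 3, 2, 9, 11, 7, 2, 9], .l [17, 16, 11], .l [6, 2, 12, 7, 13, 3, 12, 8,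 6, 7], .l [6, 2, 10, 1, 14, 9, 6, 8, 4, 6, 8, 1], .l [17, 16, 13], .l [6, 2, 14, 9, 0, 11, 8], .l [11, 1, 16, 6, 3, 10, 2, 6, 4, 6, 8, 1], .l [15, 14, 15], .l [6, 2, 16, 11, 0, 13, 10]]),
([p 2 1, s 0 0, g, s 3 0, g, p 0 2, p 4 3, g, p 0 4, m 5 0, g, s 0 5, g, s 1 0, g], .hi 9, [.l [13, 12, 7], .l [2, 8, 2, 1, 4, 7, 4], .l [2, 7, 4, 9], .l [3, 10], .l [4, 8, 9, 8, 2, 7, 1], .l [4, 7, 2, 9], .l [5, 10], .l [4, 5, 0, 7], .l [8, 10, 7], .l [8, 0, 10, 7], .l [8, 10], .l [13, 12, 12, 7, 0, 8, 6, 0, 5], .r 1710 [1, 2, 3, 4, 6] [1, 1, 1, 1, 3, 1], .l [15, 14, 14, 9, 11, 10, 10, 8, 1], .l [6, 2, 8, 10, 7, 3, 5, 7, 1], .y [9, 11], .r 1710 [1, 2, 3, 4, 6] [1, 1, 1, 3, 1, 1], .l [15, 14, 14, 9, 11, 10, 10, 8, 3], .r 1711 [1, 2, 3,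 4, 6, 5] [1, 1, 1, 1, 1, 1, 1], .r 1709 [1, 2, 3, 4, 6] [1, 1, 1, 3, 1, 1], .l [13, 12, 12, 7, 9, 8, 8, 6, 9], .l [13, 12, 12, 7, 0, 8, 12, 6, 1]]),
([p 2 1, g, s 3 0, g, p 0 2, p 4 3, g, p 0 4, m 5 0, g, s 0 5, g, s 1 0, g], .top 1, [.r 1625 [2, 3] [1, 8], .r 1712 [1, 2, 3, 4, 5] [1, 1, 1, 1, 1, 1], .r 334 [] [13], .r 444 [] [13]]),
([p 2 1, g, p 3 2, p 4 3, g, p 0 4, m 6 5, g, s 0 6, g, m 5 0, g, s 1 0, g], .lo 5, [.l [2, 6, 6, 4, 1], .l [2, 6], .l [0, 13, 11, 4, 4, 2, 9], .l [4, 10, 1, 10, 8, 5, 5, 4, 4, 2, 1], .l [5, 6], .l [4, 7, 5, 5, 4, 4, 2, 1], .l [4, 10, 3, 10, 6, 3, 3, 2, 2, 0, 3], .l [4, 10, 3, 10, 6, 3, 3, 2, 2, 0, 3], .l [4, 5, 3, 3, 2, 2, 0, 3], .l [4, 8, 1, 10, 8, 3, 3, 2, 2, 0, 1], .l [6, 10, 8, 9, 2, 11,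 6, 6, 4, 6, 3], .l [4, 5, 3, 3, 2, 2, 0, 5], .l [4, 5, 3, 3, 2, 2, 0, 5], .l [4, 8, 1, 8, 6, 3, 3, 2, 2, 0, 3], .l [14, 13, 13, 11, 11, 10, 4, 1, 6, 3, 6, 2, 3], .l [4, 5, 3, 3, 2, 2, 0, 7], .y [0, 12, 5, 3, 2], .l [0, 11, 13, 6, 6, 4, 1], .l [0, 11, 13, 6, 6, 4, 1], .l [4, 5, 3, 3, 2, 2, 0, 9]]),
([p 2 1, g, p 3 2, p 4 3, g, p 0 4, m 6 5, g, m 5 0, g, s 0 6, g, s 1 0, g], .lo 5, [.l [2, 6, 6, 4, 1], .l [2, 6], .l [0, 13, 11, 4, 4, 2, 9], .l [12, 3, 6, 1, 6, 4, 1], .l [5, 6], .l [4, 7, 5, 5, 4, 4, 2, 1], .l [0, 4, 14, 9, 2, 4, 2, 8, 1], .l [2, 12, 5, 9, 11, 8, 4, 6, 7, 4, 1], .l [4, 5, 3, 3, 2, 2, 0, 3], .l [4, 5, 3, 3, 2, 2, 0, 3], .l [6, 11, 5, 11, 2, 5, 1, 8, 6, 2, 3, 1, 3], .l [6, 11, 5, 11, 1, 8, 1, 4, 4, 2, 5], .l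 [4, 5, 3, 3, 2, 2, 0, 5], .l [2, 3, 2, 9, 3, 4, 7, 2, 0, 4, 1], .l [14, 13, 13, 11, 11, 10, 6, 3, 6, 1, 6, 4, 1], .l [4, 5, 3, 3, 2, 2, 0, 7], .y [0, 12, 5, 3, 2], .l [0, 11, 13, 6, 6, 4, 1], .l [0, 11, 13, 6, 6, 4, 1], .l [4, 5, 3, 3, 2, 2, 0, 9]]),
([p 2 1, g, p 3 2, p 4 3, g, p 0 4, m 5 0, g, s 0 5, g, s 1 0, g], .hi 6, [.l [12, 11, 11, 7, 7, 6, 6, 4, 5], .l [1, 4, 2, 6], .l [2, 7], .l [5, 7, 4], .l [4, 7, 5, 5, 4, 4, 2, 3], .l [5, 7], .l [4, 5, 3, 3, 2, 2, 0, 1], .l [12, 11, 11, 9, 9, 8, 8, 6, 1], .l [12, 11, 11, 9, 9, 8, 8, 6, 1], .r 1715 [1, 2, 3, 4, 6, 5] [1, 1, 1, 1, 1, 1], .y [6, 8], .l [12, 11, 11, 9, 9, 8, 8, 6, 3], .l [12, 11, 11, 9, 9, 8, 8, 6, 3], .r 1714 [1, 2, 3, 4, 6, 5] [1, 1, 1, 1, 1, 1], .l [10, 9, 9,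 7, 7, 6, 6, 4, 5], .l [10, 9, 9, 7, 7, 6, 6, 4, 5], .r 1706 [1, 2, 4, 6] [1, 1, 3, 1, 1]]),
([p 2 1, g, p 0 2, p 3 0, g, p 0 3, m 4 0, g, s 0 4, g, s 1 0, g], .hi 3, [.r 1713 [1, 2, 5, 3, 4] [1, 1, 1, 1, 1, 1], .r 1708 [1, 2, 5, 3, 4] [1, 1, 1, 1, 1, 1], .l [5, 2], .r 1716 [1, 2, 5, 3, 4] [1, 1, 1, 1, 1], .r 1588 [2, 5] [1, 1, 8], .l [3, 4], .l [5, 1], .y [3, 5], .r 1588 [2, 5] [1, 4, 5], .l [3, 7], .l [8, 4], .l [3, 7, 9, 4, 7, 4, 1, 3, 0], .r 1588 [2, 5] [1, 6, 3], .l [3, 9], .l [10, 6], .r 1588 [2, 5] [1, 8, 1], .l [3, 11], .l [12, 8]]),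
([p 2 1, g, s 3 0, g, p 0 2, p 4 3, g, p 0 4, m 0 5, g, s 1 0, g, s 5 0, g], .top 1, [.r 1625 [2, 3] [1, 8], .r 1709 [1, 2, 3, 4, 5] [1, 1, 1, 1, 1, 1], .r 334 [] [13], .r 444 [] [13]]),
([p 2 1, g, p 0 2, p 3 0, g, p 0 3, m 0 4, g, s 1 0, g, s 4 0, g], .hi 3, [.r 1718 [1, 2, 5, 3, 4] [1, 1, 1, 1, 1, 1], .l [10, 9, 9, 5, 7, 6, 6, 4, 5], .l [5, 2], .l [8, 7, 7, 5, 5, 4, 4, 2, 3], .r 1588 [2, 5] [1, 1, 8], .l [3, 4], .l [5, 1], .y [3, 5], .l [6, 2], .l [8, 4, 4, 2, 9], .l [3, 7], .l [8, 4], .l [10, 6, 6, 4, 9], .l [3, 9], .l [10, 6], .l [12, 8, 8, 6, 3], .l [3, 11], .l [12, 8]]),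
([p 2 1, g, s 4 0, g, p 0 2, p 3 0, g, p 0 3, m 0 4, g, s 1 0, g], .hi 5, [.l [3, 7, 8, 7, 2, 6, 1], .l [12, 11, 11, 5, 9, 8, 8, 6, 3], .l [7, 4], .l [1, 7, 2, 1, 4, 6, 3], .l [12, 11, 11, 5, 7, 6, 6, 4, 5], .l [7, 2], .l [10, 9, 9, 5, 5, 4, 4, 2, 3], .l [1, 5, 8, 7, 2, 6, 1], .l [5, 6], .l [7, 1], .y [5, 7], .l [8, 2], .l [10, 4, 4, 2, 5], .l [5, 9], .l [10, 4], .l [12, 6, 6, 4, 7], .l [5, 11], .l [12, 6]]),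
([p 2 1, g, p 0 2, p 3 0, g, p 0 3, m 0 4, g, s 1 0, g, p 4 0, g], .hi 3, [.l [10, 9, 9, 5, 7, 6, 6, 4, 5], .l [10, 9, 9, 5, 7, 6, 6, 4, 5], .l [5, 2], .l [8, 7, 7, 5, 5, 4, 4, 2, 3], .l [0, 9, 1, 10, 6, 1, 6, 4, 1], .l [3, 4], .l [5, 1], .y [3, 5], .l [6, 2], .l [8, 4, 4, 2, 9], .l [3, 7], .l [8, 4], .l [10, 6, 6, 4, 9], .l [3, 9], .l [10, 6], .l [12, 8, 8, 6, 3], .l [3, 11], .l [12, 8]]),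
([p 2 1, g, p 3 2, p 4 3, g, p 0 4, m 6 5, g, m 5 0, g, s 1 0, g, s 0 6, g], .lo 5, [.l [2, 6, 6, 4, 1], .l [2, 6], .l [0, 11, 9, 4, 4, 2, 7], .l [14, 5, 8, 1, 8, 6, 3], .l [5, 6], .l [4, 7, 5, 5, 4, 4, 2, 1], .l [0, 4, 12, 7, 2, 4, 2, 6, 1], .l [2, 14, 7, 11, 5, 2, 7, 9, 5, 2, 5], .l [4, 5, 3, 3, 2, 2, 0, 3], .l [4, 5, 3, 3, 2, 2, 0, 3], .l [4, 6, 12, 1, 8, 4, 8, 5, 5, 4, 4, 0, 1], .l [12, 11, 11, 9, 9, 8, 10, 7, 8, 4, 1, 2, 3], .l [4, 5, 3, 3, 2, 2, 0, 5], .y [0, 10, 5, 3, 2], .l [0, 9, 11, 6, 6, 4, 1], .l [0, 9, 11, 6, 6, 4, 1], .l [4, 5, 3, 3, 2, 2, 0, 7], .l [0, 9, 13, 8, 8, 6, 1], .l [0, 9, 13, 8, 8, 6, 1], .l [4, 5, 3, 3, 2, 2, 0, 9]]),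
([p 2 1, g, p 0 2, p 3 0, g, p 0 3, m 5 4, g, m 4 0, g, s 1 0, g, s 0 5, g], .hi 3, [.l [5, 2, 7, 11, 8, 2, 4, 8, 3], .l [2, 8, 13, 10, 4, 6, 9, 6, 1], .l [5, 2], .r 1722 [1, 2, 6, 3, 4, 5] [1, 1, 1, 1, 1, 1], .r 1588 [2, 6] [1, 1, 10], .l [3, 4], .l [5, 1], .y [3, 5], .l [3, 7, 9, 7, 4], .l [3, 7], .l [8, 4], .r 1588 [2, 6] [1, 6, 5], .l [3, 9], .l [10, 6], .l [10, 9, 11, 8, 11, 8, 3, 4, 6, 3], .l [3, 11], .l [12, 8], .l [12, 8, 2, 6, 1, 7, 7, 5, 0], .l [6, 11, 5, 7, 11, 6, 4, 8, 5], .l [3, 13], .l [14, 10]]),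
([p 2 1, s 0 0, g, p 0 2, p 3 0, g, p 0 3, m 0 4, g, s 4 0, g, s 1 0, g], .hi 4, [.r 1625 [2, 5] [1, 8], .r 1710 [1, 2, 5, 3, 4] [1, 1, 1, 1, 1, 1], .l [13, 12, 12, 7, 9, 8, 8, 6, 1], .l [6, 2], .l [11, 10, 10, 7, 7, 6, 6, 4, 1], .r 1588 [2, 5] [2, 1, 8], .l [4, 5], .l [6, 1], .y [4, 6], .l [7, 2], .l [9, 4, 4, 2, 8], .l [4, 8], .l [9, 4], .l [11, 6, 6, 4, 1], .l [4, 10], .l [11, 6], .l [13, 8, 8, 6, 1], .l [4, 12], .l [13, 8]]),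
([p 2 1, g, p 0 2, p 3 0, g, p 0 3, m 0 4, g, s 4 0, g, s 1 0, g], .top 1, [.r 334 [] [9], .r 1724 [1, 2, 3, 4] [1, 1, 1, 1, 1], .r 334 [] [11], .r 444 [] [11]]),
([p 2 1, g, p 0 2, p 3 0, g, p 0 3, m 4 0, g, s 1 0, g, s 0 4, g], .hi 6, [.r 1720 [1, 2, 3, 5] [1, 1, 1, 1, 3], .l [1, 4, 2, 6], .l [2, 7], .l [1, 2, 0, 4], .l [5, 7, 4], .l [5, 0, 7, 4], .l [5, 7], .l [0, 7, 2, 0, 7, 6, 6, 4, 1], .r 1725 [1, 2, 3, 5] [1, 1, 1, 1, 3], .l [0, 9, 4, 1, 9, 6, 7, 4, 1], .r 1723 [1, 2, 3, 5, 4] [1, 1, 1, 1, 1, 1], .r 1719 [1, 2, 3, 5] [1, 1, 1, 1, 3], .r 1721 [1, 2, 3, 5] [1, 1, 1, 1, 3], .r 1706 [1, 2, 3, 5] [1, 1, 1, 1, 3], .y [6, 10], .r 1719 [1, 2, 3, 5] [1, 1, 1, 3, 1], .r 1721 [1, 2, 3, 5] [1, 1, 1, 3, 1], .l [0, 7, 2, 8, 6,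 9, 2, 6, 1]]),
([p 2 1, s 0 0, g, p 3 2, p 4 3, g, p 0 4, m 6 5, g, m 5 0, g, s 1 6, g], .hi 1, [.y [1], .l [0, 9, 12, 8, 4, 1, 10, 6, 6, 2, 2, 0, 1], .l [2, 5, 2, 2, 10], .l [3, 1, 8, 10, 6, 1, 9, 7, 7, 2, 2, 0, 1], .l [1, 5, 7, 5, 1], .l [0, 3, 2, 4, 6, 4, 9], .l [3, 4, 3, 8, 10, 5, 0, 3, 7, 3, 6, 2, 3], .l [0, 3, 2, 4, 4, 2, 7], .l [0, 7, 12, 8, 2, 3, 7, 5, 8, 2, 2, 0, 1], .l [7, 12, 12, 6, 7], .l [3, 9, 6, 11, 3, 8, 8, 6, 3], .l [0, 7, 12, 8, 2, 5, 7, 3, 5, 6, 3, 5, 1], .l [7, 12, 12, 6, 9], .l [3, 4, 3, 6, 10, 7, 0, 3, 7, 3, 6, 2, 3], .l [3, 4, 3, 6, 8, 5, 0, 3, 5, 1, 4, 2, 3], .l [7, 10, 10, 6, 9], .l [11, 3, 12, 2, 4, 3, 7, 3, 3, 2, 2, 0, 3]])]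

def d06_3 : List (List Item × Qry × List Rf) := [
([p 2 1, s 0 0, g, p 0 2, p 3 0, g, p 0 3, m 5 4, g, m 4 0, g, s 1 5, g], .hi 4, [.l [4, 2, 6, 8, 5, 1, 3, 5, 1], .l [6, 2, 8, 10, 7, 3, 5, 7, 1], .l [3, 9, 12, 9, 5, 7, 8, 5, 1], .l [6, 2], .r 1727 [1, 2, 6, 3, 4, 5] [1, 1, 1, 1, 1], .l [0, 9, 12, 9, 1, 10, 4, 1, 2, 5, 2], .l [4, 5], .l [6, 1], .y [4, 6], .l [4, 8, 10, 8, 5], .l [4, 8], .l [9, 4], .l [0, 12, 1, 6, 10, 7, 1, 2, 6, 3, 2], .l [4, 10], .l [11, 6], .l [0, 7, 10, 12, 4, 8, 5, 8, 2, 5, 2], .l [4, 12], .l [13, 8]]),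
([p 2 1, g, p 0 2, p 3 0, g, p 0 3, m 0 4, g, p 4 0, g, s 1 0, g], .hi 3, [.l [12, 11, 11, 7, 9, 8, 8, 6, 1], .l [12, 11, 11, 7, 9, 8, 8, 6, 1], .l [5, 2], .l [10, 9, 9, 7, 7, 6, 6, 4, 1], .l [3, 9, 12, 5, 7, 4, 7, 2, 3], .l [3, 4], .l [5, 1], .y [3, 5], .l [6, 2], .l [8, 4, 4, 2, 7], .l [3, 7], .l [8, 4], .l [10, 6, 6, 4, 1], .l [3, 9], .l [10, 6], .l [12, 8, 8, 6, 1], .l [3, 11], .l [12, 8]]),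
([p 2 1, s 0 0, g, p 0 2, p 3 0, g, p 0 3, m 4 0, g, s 1 4, g], .hi 7, [.l [7, 8, 8, 6, 5], .r 1720 [1, 2, 3, 5] [2, 1, 1, 1, 1], .l [2, 5, 2, 7], .l [3, 8], .y [0, 9, 7, 3], .l [6, 8, 5], .l [0, 10, 4, 2, 8, 5, 7, 5, 2], .l [6, 8], .l [0, 8, 2, 0, 6, 5, 5, 3, 2], .r 1724 [1, 2, 3, 5] [1, 1, 1, 1, 1], .r 1729 [1, 2, 3, 5] [2, 1, 1, 1, 1], .r 1728 [1, 2, 3, 5, 4] [1, 1, 1, 1, 1], .l [0, 8, 2, 7, 5, 8, 2, 5, 2], .r 1721 [1, 2, 3, 5] [2, 1, 1, 1, 1], .l [0, 8, 2, 7, 5, 8, 2, 5, 2]]),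
([p 2 1, g, p 0 2, p 3 0, g, p 0 3, m 4 0, g, s 1 4, g], .top 1, [.r 334 [] [7], .r 1730 [1, 2, 3, 4] [1, 1, 1, 1], .r 334 [] [9], .r 444 [] [9]]),
([p 2 1, s 0 0, g, s 1 0, g, p 0 2, p 4 0, g, s 0 3, g, p 3 4, m 0 5, g, s 5 0, g], .hi 1, [.y [1], .l [14, 4, 1, 9, 11, 6, 2, 9, 4, 1], .l [2, 7, 4, 4, 1], .r 578 [1, 6, 2] [1, 1, 1, 9], .l [13, 3, 1, 9, 10, 7, 9, 7, 2, 7], .l [3, 2, 3], .l [13, 3, 1, 9, 10, 7, 9, 7, 2, 7], .l [3, 2, 3], .l [1, 7, 11, 9, 3], .l [0, 5, 4, 6, 10, 8, 1], .l [3, 8, 5, 6, 10, 6, 1], .l [1, 7, 7, 7, 7, 5, 3], .l [1, 9, 11, 7, 3], .l [0, 5, 4, 8, 10, 6, 1], .l [3, 10, 7, 8, 10, 4, 1], .l [9, 11, 2, 6, 5, 7, 9, 2, 6, 1], .l [3, 2, 11, 4, 1, 4, 2, 9], .l [3, 2, 11], .l [9, 13, 4, 8, 7, 9, 11, 2, 8, 1],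 .l [3, 2, 13, 6, 1, 6, 4, 1], .l [3, 2, 13], .l [9, 4, 14, 6, 7, 9, 2, 9, 6, 1]]),
([p 2 1, g, s 1 0, g, p 0 2, p 4 0, g, s 0 3, g, p 3 4, m 0 5, g, s 5 0, g], .top 1, [.c, .r 1732 [1, 2, 3, 4, 5] [1, 1, 1, 1, 1, 1], .r 334 [] [13], .r 444 [] [13]]),
([p 3 1, g, s 1 2, g, s 2 0, g, p 4 3, p 5 4, g, p 7 5, m 8 6, g, p 0 7, g, s 6 0, g, s 0 8, g], .lo 12, [.l [2, 13, 13, 10, 10, 8, 5], .l [2, 13], .l [1, 8, 6, 12], .l [4, 13, 13, 10, 10, 8, 3], .l [4, 13], .l [3, 8, 4, 12], .y [0, 2, 4, 12, 9, 7, 6], .l [6, 13, 13, 10, 10, 8, 1], .l [6, 13], .l [5, 8, 2, 12], .l [9, 13, 15, 13, 8], .l [9, 13], .l [8, 11, 9, 9, 8, 8, 2, 9], .l [11, 14, 11, 12, 14, 1, 12, 9, 9, 8, 8, 2, 1], .l [12, 13], .l [11, 14, 11, 11, 9, 9, 8, 8, 2, 1],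 .l [11, 12, 9, 10, 14, 1, 12, 7, 7, 6, 6, 0, 5], .l [11, 2, 7, 11, 3, 8, 6, 6, 8, 2, 5, 2, 5], .l [11, 12, 9, 9, 7, 7, 6, 6, 0, 7], .l [8, 10, 14, 3, 1, 1, 10, 7, 7, 6, 6, 0, 5], .l [11, 12, 9, 10, 14, 3, 12, 7, 7, 6, 6, 0, 5], .l [10, 17, 9, 1, 3, 12, 8, 11, 0, 8, 6, 2, 5], .l [11, 12, 9, 9, 7, 7, 6, 6, 0, 9], .l [6, 7, 6, 9, 13, 3, 13, 2, 11, 8, 0, 8, 1], .l [2, 1, 15, 5, 6, 4, 13, 8, 8, 6, 3], .l [11, 12, 9, 9, 7, 7, 6, 6, 0, 11]]),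
([p 2 1, g, s 1 0, g, p 3 2, p 4 3, g, p 6 4, m 7 5, g, p 0 6, g, s 5 0, g, s 0 7, g], .hi 2, [.l [16, 5, 11, 13, 8, 4, 6, 9, 9, 7, 4, 1], .l [0, 3, 9, 13, 7, 1, 3, 8, 8, 6, 3], .l [16, 5, 6, 4, 9, 11, 1, 9, 9, 7, 7, 6, 6, 4, 1], .r 1734 [1, 8, 2, 3, 4, 5, 6, 7] [1, 1, 1, 1, 1, 1, 1, 1], .l [16, 5, 6, 4, 11, 1, 11, 7, 7, 6, 6, 4, 1], .l [0, 1, 3, 1, 7, 11, 1, 9, 7, 6, 6, 4, 1], .l [2, 6, 4, 4, 6, 4, 1], .l [0, 1, 1, 4, 6, 4, 1], .l [0, 1, 6, 4, 4, 2, 2, 1, 4, 8, 1, 6, 1], .l [2, 9, 7, 7, 9, 6, 6, 4, 1], .l [0, 1, 1, 7, 9, 6, 6, 4, 1], .l [0, 1, 9, 7, 7, 5, 5, 4, 4, 2, 5], .y [0, 2, 10, 7, 5, 4], .l [16, 7, 13, 9, 4, 9, 11, 7, 4, 1], .l [0, 1, 1, 9, 11, 7, 9, 8, 8, 6, 1], .l [0, 1, 11, 9, 9, 7, 7, 6, 6, 4, 5], .l [16, 7,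 13, 7, 2, 9, 11, 5, 2, 7], .l [2, 1, 7, 13, 1, 5, 1, 8, 8, 6, 1], .l [0, 1, 13, 11, 11, 9, 9, 8, 8, 6, 3], .l [14, 11, 5, 9, 9, 9, 9, 3, 3, 2, 2, 0, 3], .l [14, 5, 11, 13, 8, 4, 6, 7, 4, 1], .l [0, 1, 7, 11, 5, 11, 2, 7, 3, 8, 4, 2, 3], .l [0, 1, 15, 13, 13, 11, 11, 10, 10, 8, 3]]),
([p 2 1, s 0 0, g, s 1 0, g, p 0 2, p 3 0, g, p 5 3, m 0 4, g, s 4 0, g, s 0 5, g], .hi 1, [.y [1], .r 1053 [1, 6, 2] [1, 1, 1, 9], .l [2, 7, 4, 4, 1], .r 578 [1, 6, 2] [1, 1, 1, 9], .r 989 [1, 6, 2] [1, 1, 1, 9], .l [3, 2, 3], .r 520 [1, 6, 2] [1, 1, 1, 9], .l [3, 2, 3], .l [1, 7, 9, 7, 3], .l [0, 5, 4, 6, 8, 6, 1], .l [3, 8, 5, 6, 8, 4, 1], .l [10, 13, 10, 11, 4, 8, 7, 2, 6, 1], .l [3, 2, 9, 13, 10, 10, 8, 1], .l [3, 2, 9], .l [12, 15, 10,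 13, 6, 10, 9, 2, 8, 1], .l [3, 2, 11, 13, 8, 8, 6, 1], .l [3, 2, 11], .l [7, 4, 12, 6, 10, 12, 2, 9, 6, 1], .l [1, 12, 12, 7, 7, 5, 3], .l [10, 13, 10, 13, 6, 10, 9, 2, 8, 1], .l [3, 2, 13], .l [10, 13, 10, 13, 6, 10, 9, 2, 8, 1]]),
([p 2 1, g, s 1 0, g, p 0 2, p 3 0, g, p 5 3, m 0 4, g, s 4 0, g, s 0 5, g], .top 1, [.c, .r 1736 [1, 2, 3, 4, 5] [1, 1, 1, 1, 1, 1], .r 334 [] [13], .r 444 [] [13]]),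
([p 2 1, s 0 0, g, s 1 0, g, p 0 2, p 3 0, g, p 5 3, m 0 4, g, s 0 5, g, s 4 0, g], .hi 1, [.y [1], .r 1053 [1, 6, 2] [1, 1, 1, 9], .l [2, 7, 4, 4, 1], .r 578 [1, 6, 2] [1, 1, 1, 9], .r 989 [1, 6, 2] [1, 1, 1, 9], .l [3, 2, 3], .r 520 [1, 6, 2] [1, 1, 1, 9], .l [3, 2, 3], .l [1, 7, 9, 7, 3], .l [0, 5, 4, 6, 8, 6, 1], .l [3, 8, 5, 6, 8, 4, 1], .l [7, 9, 2, 6, 5, 7, 9, 2, 6, 1], .l [3, 2, 9, 11, 8, 8, 6, 1], .l [3, 2, 9], .l [7, 11, 4, 8, 7, 9, 11, 2, 8, 1], .l [1, 10, 10, 7, 7, 5, 3], .l [3, 2, 11, 13, 9, 11, 10, 10, 8, 1], .l [3, 2, 11], .l [7, 13, 6, 10, 9, 2, 11, 9, 6, 1], .l [7, 15, 8, 12, 11, 2, 4, 2, 8, 1], .l [3, 2, 13], .l [7, 15, 8, 12, 11, 2, 4, 2, 8, 1]]),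
([p 2 1, g, s 1 0, g, p 0 2, p 3 0, g, p 5 3, m 0 4, g, s 0 5, g, s 4 0, g], .top 1, [.c, .r 1738 [1, 2, 3, 4, 5] [1, 1, 1, 1, 1, 1], .r 334 [] [13], .r 444 [] [13]]),
([p 2 1, g, s 1 0, g, p 3 2, p 4 3, g, p 0 4, m 6 5, g, s 5 0, g, s 0 6, g], .lo 7, [.l [2, 8, 8, 6, 3], .l [2, 8], .l [1, 6, 4, 7], .y [0, 2, 7, 5, 4], .l [4, 8, 8, 6, 1], .l [4, 8], .l [3, 6, 2, 7], .r 1733 [1, 2, 7, 4, 5] [1, 1, 1, 1, 1, 3], .l [7, 8], .l [6, 9, 7, 7, 6, 6, 2, 1], .r 1739 [1, 2, 4, 5, 7] [1, 1, 1, 1, 1, 3], .r 1735 [1, 2, 3, 4, 5, 7, 6] [1, 1, 1, 1, 1, 1, 1], .l [6, 7, 5, 5, 4, 4, 0, 5], .l [6, 8, 10, 1, 8, 5, 5, 4, 4, 0, 3], .r 1737 [1, 2, 4, 5, 7] [1, 1, 1, 1, 1, 3], .l [6, 8, 12, 3, 10, 5, 5, 4, 4, 0, 3], .l [6, 7, 5, 5, 4, 4, 0, 7],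 .r 1737 [1, 2, 4, 5, 7] [1, 1, 1, 1, 3, 1], .l [2, 1, 11, 3, 11, 6, 6, 4, 1], .l [6, 7, 5, 5, 4, 4, 0, 9]]),
([p 2 1, s 0 0, g, s 3 0, g, s 1 0, g, p 0 2, p 4 3, g, p 0 4, m 0 5, g, s 5 0, g], .hi 1, [.y [1], .r 1053 [1, 6, 2] [1, 3, 1, 7], .l [2, 9, 6, 6, 1], .r 578 [1, 6, 2] [1, 3, 1, 7], .r 1053 [1, 6, 2] [3, 1, 1, 7], .l [4, 9, 4, 4, 1], .r 578 [1, 6, 2] [3, 1, 1, 7], .r 989 [1, 6, 2] [3, 1, 1, 7], .l [5, 4, 5], .r 520 [1, 6, 2] [3, 1, 1, 7], .l [5, 4, 5], .l [1, 9, 11, 9, 5], .l [0, 7, 6, 8, 10, 8, 1], .l [5, 10, 5, 8, 10, 4, 1], .l [0, 7, 6, 8, 8, 6, 1], .l [8, 4, 7, 3, 8, 5, 1, 6, 2, 5], .l [8, 4, 7, 3, 10, 7, 1, 8, 4, 7], .l [5, 4, 11], .l [8, 4, 7, 3, 10, 7, 1, 8, 4, 7], .l [8, 4, 7, 3, 12, 9, 1, 10, 6, 1], .l [5,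 4, 13], .l [8, 4, 7, 3, 12, 9, 1, 10, 6, 1]]),
([p 2 1, g, s 3 0, g, s 1 0, g, p 0 2, p 4 3, g, p 0 4, m 0 5, g, s 5 0, g], .top 1, [.l [3, 6, 3, 4, 6, 4, 1], .r 1741 [1, 2, 3, 4, 5] [1, 1, 1, 1, 1, 1], .r 334 [] [13], .r 444 [] [13]]),
([p 2 1, g, s 1 0, g, p 0 2, p 3 0, g, p 0 3, m 5 4, g, s 4 0, g, s 0 5, g], .hi 5, [.l [4, 3, 9, 11, 8, 4, 6, 7, 4, 1], .l [2, 10, 13, 10, 6, 8, 9, 6, 3], .l [7, 4], .l [2, 1, 6, 2, 11, 3, 6, 7, 4, 1], .l [4, 10, 13, 10, 6, 8, 9, 6, 1], .l [7, 2], .r 1740 [1, 2, 6, 3, 4, 5] [1, 1, 1, 1, 1, 1], .l [2, 1, 6, 1, 6, 4, 1], .l [5, 6], .l [7, 1], .y [5, 7], .l [10, 4, 4, 2, 9], .l [5, 9], .l [10, 4], .l [12, 6, 6, 4, 1], .l [5, 11], .l [12, 6], .l [8, 11, 11, 2, 2, 0, 7], .l [14, 8, 8, 6, 1],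 .l [5, 13], .l [14, 8]]),
([p 1 0, g, s 3 0, g, p 0 1, p 2 0, g, p 0 2, m 0 3, g], .lo 7, [.l [0, 6], .l [2, 8, 8, 6, 3], .l [2, 8], .l [1, 6, 4, 7], .l [2, 6, 6, 4, 1], .l [4, 8, 8, 6, 1], .l [4, 8], .l [2, 9, 5, 4, 4, 2, 3], .y [5, 7], .l [8, 6, 8, 3, 2, 4, 1], .l [7, 8], .l [8, 6, 8, 3, 2, 4, 1], .l [2, 7, 9, 8, 8, 6, 1], .l [2, 7, 9, 8, 8, 6, 1], .r 1627 [1, 2, 4] [3, 1, 2, 1]]),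
([p 2 1, g, s 1 0, g, p 0 2, p 3 0, g, p 5 3, m 6 4, g, p 0 5, g, s 0 6, g, s 4 0, g], .hi 5, [.r 1742 [1, 2, 7, 3, 4] [1, 1, 1, 1, 5, 1], .l [8, 14, 3, 14, 10, 7, 7, 2, 6, 4, 7], .l [7, 4], .l [2, 1, 6, 2, 11, 3, 4, 2, 4, 5, 2, 5], .l [8, 14, 3, 14, 10, 7, 7, 4, 6, 2, 7], .l [7, 2], .l [6, 12, 3, 12, 8, 5, 5, 4, 4, 0, 5], .l [2, 1, 6, 1, 6, 4, 1], .l [5, 6], .l [7, 1], .l [10, 4, 4, 2, 13], .l [5, 9], .l [10, 4], .y [5, 10, 7], .l [12, 6, 6, 4, 13], .l [5, 11], .l [12, 6], .l [8, 11, 11, 2, 2, 0, 9], .l [14, 8, 8, 6, 13], .l [5, 13], .l [14, 8], .l [16, 10, 10, 8, 5], .l [5, 15], .l [16, 10]]),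
([p 2 1, s 0 0, g, s 1 0, g, p 0 2, p 3 0, g, p 5 3, m 0 4, g, s 4 5, g], .hi 1, [.y [1], .r 1053 [1, 6, 2] [1, 1, 1, 7], .l [2, 7, 4, 4, 1], .r 578 [1, 6, 2] [1, 1, 1, 7], .r 989 [1, 6, 2] [1, 1, 1, 7], .l [3, 2, 3], .r 520 [1, 6, 2] [1, 1, 1, 7], .l [3, 2, 3], .l [1, 7, 9, 7, 3], .l [0, 5, 4, 6, 8, 6, 1], .l [3, 8, 5, 6, 8, 4, 1], .l [7, 9, 2, 6, 5, 7, 7, 0, 4], .l [3, 2, 9, 11, 8, 8, 6, 1], .l [3, 2, 9], .l [7, 11, 4, 8, 7, 9, 9, 0, 6], .l [7, 13, 6, 10, 9, 2, 2, 0, 6, 1], .l [3, 2, 11], .l [7, 13, 6, 10, 9, 2, 2, 0, 6]]),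
([p 2 1, g, s 1 0, g, p 0 2, p 3 0, g, p 5 3, m 0 4, g, s 4 5, g], .top 1, [.c, .r 1746 [1, 2, 3, 4, 5] [1, 1, 1, 1, 1], .r 334 [] [11], .r 444 [] [11]]),
([p 2 1, g, s 1 0, g, p 0 2, p 3 0, g, p 0 3, m 5 4, g, s 0 5, g, s 4 0, g], .lo 7, [.l [2, 8, 8, 6, 3], .l [2, 8], .l [1, 6, 4, 7], .l [0, 1, 1, 4, 4, 2, 1], .l [4, 8, 8, 6, 1], .l [4, 8], .l [3, 6, 2, 7], .y [5, 7], .r 1733 [1, 2, 6, 3, 4] [1, 1, 1, 1, 3, 1], .l [7, 8], .l [12, 1, 4, 1, 4, 2, 9], .r 1739 [1, 2, 3, 4, 6] [1, 1, 1, 1, 3, 1], .r 1745 [1, 2, 3, 4, 6, 5] [1, 1, 1, 1, 1, 1, 1], .l [2, 1, 7, 9, 1, 6, 6, 4, 1], .r 1739 [1, 2, 3, 4, 6] [1, 1, 1, 3, 1, 1], .l [2, 1, 9, 1, 9, 6, 6, 4, 1], .r 1627 [2, 3, 6] [3, 1, 4, 3], .r 1747 [1, 2, 3, 4, 6] [1, 1, 1, 3, 1],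 .r 1737 [1, 2, 3, 4, 6] [1, 1, 1, 3, 1, 1], .l [2, 1, 9, 1, 11, 8, 8, 6, 1], .r 1627 [2, 3, 6] [3, 1, 6, 1]]),
([p 2 1, g, s 1 0, g, p 0 2, p 3 0, g, p 0 3, m 5 4, g, m 4 0, g, s 0 5, g], .hi 5, [.l [7, 4, 9, 11, 8, 2, 6, 8, 1], .l [0, 3, 9, 11, 8, 4, 6, 7, 4], .l [7, 4], .l [7, 2, 9, 11, 8, 4, 6, 8, 1], .l [4, 10, 13, 10, 6, 8, 9, 6, 1], .l [7, 2], .l [2, 1, 7, 9, 6, 7, 6, 1, 3, 4, 1], .l [2, 1, 6, 1, 6, 4, 1], .l [5, 6], .l [7, 1], .y [5, 7], .l [5, 9, 11, 9, 6], .l [5, 9], .l [10, 4], .r 1588 [2, 6] [3, 6, 3], .l [5, 11], .l [12, 6], .l [2, 1, 7, 9, 5, 1, 8, 2, 2, 0, 1], .l [8, 11, 3, 7, 11, 6, 4, 8, 5], .l [5, 13], .l [14, 8]]),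
([p 2 1, g, s 3 0, g, s 1 0, g, p 0 2, p 5 3, g, m 0 4, g, p 0 5, m 4 6, g, p 6 0, g], .lo 9, [.l [9, 4, 10, 3, 1, 4, 9, 6, 8, 2, 7], .l [11, 8], .l [9, 4, 10, 3, 1, 4, 9, 6, 8, 2, 7], .l [7, 4, 8, 3, 1, 2, 7, 6, 6, 0, 5], .l [1, 11, 6, 3, 8, 3, 7, 1, 8, 2, 4, 2, 5], .l [11, 6], .l [13, 14, 11, 11, 4, 8, 4, 11], .l [0, 3, 8, 4, 6, 3, 6, 2, 3], .l [4, 3, 10, 4, 11, 5, 9, 4, 9], .l [11, 4], .l [13, 14, 11, 11, 6, 8, 2, 11], .l [4, 3, 10, 1, 10, 6, 1], .l [11, 1], .l [10, 1, 8, 10, 1, 5, 10, 5, 7, 2, 7], .l [4, 3, 10, 1, 10, 6, 1], .l [11, 1], .l [9, 10], .l [14, 4, 6, 4, 13], .l [14, 4], .l [9, 13], .y [9, 12, 14], .l [16, 6, 8, 6, 1], .l [16, 6], .l [9, 15]]),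
([p 2 1, g, s 3 0, g, s 1 0, g, p 0 2, p 4 3, g, p 0 4, m 0 5, g, p 5 0, g], .lo 10, [.l [9, 4, 8, 4, 9, 6, 8, 2, 7], .l [12, 9], .l [9, 4, 8, 4, 9, 6, 8, 2, 7], .l [7, 4, 6, 2, 7, 6, 6, 0, 5], .l [1, 12, 7, 3, 9, 4, 4, 2, 7], .l [12, 7], .l [9, 6, 8, 2, 9, 2, 8, 6, 7], .l [0, 3, 9, 5, 2, 5, 1, 6, 4, 2, 3], .l [1, 12, 5, 1, 9, 6, 6, 4, 7], .l [12, 5], .l [9, 6, 8, 2, 9, 4, 8, 4, 7], .l [12, 2, 4, 2, 11], .l [12, 2], .r 1750 [1, 2, 3, 6, 4, 5] [1, 1, 1, 1, 1, 1, 1], .l [0, 7, 4, 11, 1, 4, 5, 2, 7], .l [12, 1], .l [10, 11], .y [10, 12], .l [4, 3, 6, 8, 11, 1, 9, 6, 1], .l [14, 3], .l [10, 13]]),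
([p 3 1, g, s 1 0, g, p 2 0, g, p 4 2, g, p 0 3, p 5 4, g, p 0 5, m 7 6, g, s 0 7, g, p 6 0, g], .lo 8, [.l [4, 3, 9, 5, 14, 1, 8, 1, 8, 4, 4, 2, 7], .l [2, 9], .l [1, 10, 8, 7], .y [0, 2, 8], .l [9, 11, 9, 12, 0, 14, 11, 7, 9, 10, 7, 0, 3], .l [4, 9], .l [3, 10, 6, 5], .l [4, 7], .l [16, 1, 9, 3, 4, 2, 7, 4, 4, 2, 9], .l [6, 9], .l [5, 8, 6, 8, 4, 3], .l [16, 1, 7, 1, 7, 4, 4, 2, 11], .l [8, 9], .l [7, 10, 2, 1], .l [2, 1, 15, 1, 7, 2, 4, 2, 9, 5, 9, 3, 5], .l [5, 6, 4, 12, 6, 0, 8, 6, 1, 5, 2, 9], .l [7, 8, 0, 9], .l [13, 5, 12, 11, 5, 4, 4, 2, 11], .l [11, 14, 10, 10, 2, 15], .l [7, 8, 0, 12], .l [15, 7, 14, 13, 7, 6, 6, 4, 11], .l [11, 16, 12, 12, 4, 15], .l [7, 8, 0, 14], .l [11, 16, 12, 12, 4, 3], .l [17, 9, 16, 15,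 9, 8, 8, 6, 3], .l [11, 18, 14, 14, 6, 3], .l [7, 8, 0, 16]]),
([p 2 1, g, s 1 0, g, p 3 0, g, p 0 2, p 4 3, g, p 0 4, m 6 5, g, s 0 6, g, p 5 0, g], .hi 4, [.l [6, 3, 7, 1, 12, 1, 6, 8, 1, 4, 4, 2, 5], .l [5, 14, 1, 8, 10, 1, 7, 1, 7, 4, 4, 2, 5], .l [6, 3], .l [6, 1, 7, 1, 7, 1, 10, 1, 6, 1, 6, 2, 5], .r 1752 [1, 7, 2, 3, 4, 5, 6] [1, 1, 1, 1, 1, 1, 1, 1], .l [6, 1], .l [4, 9, 8, 8, 2, 11, 1, 6, 7, 2, 7], .l [4, 5], .l [6, 1], .l [4, 5], .l [4, 8, 10, 8, 1], .l [4, 8], .l [9, 4], .y [4, 9, 7], .l [12, 7, 7, 4, 4, 2, 11], .l [4, 11], .l [12, 7], .l [10, 11, 11, 5, 5, 2, 2, 0, 7], .l [14, 9, 9, 6, 6, 4, 11], .l [4, 13], .l [14, 9], .l [16, 11, 11, 8, 8, 6, 3], .l [4, 15], .l [16, 11]]),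
([p 2 1, g, s 1 0, g, p 3 0, g, p 0 2, p 4 3, g, p 0 4, m 0 5, g, p 5 0, g], .lo 10, [.l [12, 9, 11, 5, 7, 6, 6, 4, 7], .l [12, 9], .l [4, 3, 7, 3, 10, 4, 8, 6, 6, 4, 5], .l [0, 1, 9, 7, 7, 3, 5, 4, 4, 2, 3], .l [12, 7, 11, 7, 9, 8, 8, 6, 7], .l [12, 7], .l [6, 12, 9, 6, 9, 1, 10, 8, 6, 1], .l [10, 5], .l [12, 5, 7, 4, 4, 2, 9], .l [12, 5], .l [11, 12, 6, 8, 2, 11], .l [12, 2, 4, 2, 11], .l [12, 2], .l [11, 12, 9, 11, 9, 9, 6, 8, 4, 7], .r 1753 [1, 2, 3, 4, 5, 6] [1, 1, 1, 1, 1, 1, 1], .l [12, 1], .l [10, 11], .y [10, 12], .l [2, 1, 6, 8, 11, 1, 9, 6, 3], .l [14, 3], .l [10, 13]]),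
([p 2 1, g, s 1 0, g, p 3 2, p 4 3, g, p 0 4, m 6 5, g, s 0 6, g, p 5 0, g], .lo 7, [.l [2, 8, 8, 6, 3], .l [2, 8], .l [1, 6, 4, 7], .y [0, 2, 7, 5, 4], .l [4, 8, 8, 6, 1], .l [4, 8], .l [3, 6, 2, 7], .l [12, 1, 4, 1, 4, 2, 9], .l [7, 8], .l [6, 9, 7, 7, 6, 6, 2, 1], .l [4, 9, 7, 1, 2, 5, 2, 4, 0, 2, 5], .l [7, 10, 9, 9, 7, 7, 6, 6, 2, 7], .l [6, 7, 5, 5, 4, 4, 0, 5], .l [4, 5, 4, 9, 1, 2, 7, 4, 0, 4, 5], .l [7, 12, 11, 11, 9, 9, 8, 8, 4, 7], .l [6, 7, 5, 5, 4, 4, 0, 7], .l [7, 12, 11, 11, 9, 9, 8, 8, 4, 3], .l [4, 13, 11, 1, 2, 9, 6, 8, 0, 6, 3], .l [7, 14, 13, 13, 11, 11, 10, 10, 6, 3], .l [6, 7, 5, 5, 4, 4, 0, 9]]),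
([p 2 1, g, s 1 0, g, p 3 2, p 4 3, g, p 0 4, m 0 5, g, p 5 0, g], .lo 8, [.l [10, 7, 9, 5, 5, 4, 4, 2, 5], .l [10, 7], .l [4, 3, 5, 1, 8, 4, 6, 4, 4, 2, 3], .l [0, 1, 7, 5, 5, 3, 3, 2, 2, 0, 1], .l [10, 5, 9, 7, 7, 6, 6, 4, 5], .l [10, 5], .l [9, 10, 4, 6, 2, 9], .l [10, 2, 4, 2, 9], .l [10, 2], .l [9, 10, 7, 9, 7, 7, 6, 6, 2, 5], .r 1755 [1, 2, 3, 4, 5, 6] [1, 1, 1, 1, 1, 1], .l [10, 1], .l [8, 9], .y [8, 10], .l [2, 1, 4, 6, 9, 1, 7, 4, 1], .l [12, 3], .l [8, 11]]),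
([p 2 1, g, p 3 0, g, s 1 0, g, p 0 2, p 4 3, g, p 0 4, m 0 5, g, p 5 0, g], .lo 10, [.l [12, 9, 11, 5, 9, 8, 8, 6, 7], .l [12, 9], .l [4, 12, 9, 6, 9, 1, 10, 8, 6, 3], .l [10, 7], .l [12, 7, 9, 4, 4, 2, 9], .l [12, 7], .l [11, 12, 4, 8, 4, 11], .l [0, 3, 9, 5, 2, 5, 1, 6, 4, 2, 3], .l [12, 5, 9, 6, 6, 4, 9], .l [12, 5], .l [4, 3, 7, 3, 7, 1, 8, 2, 6, 4, 5], .l [12, 2, 4, 2, 11], .l [12, 2], .l [11, 12, 9, 11, 9, 9, 4, 8, 6, 7], .l [10, 5, 8, 5, 10, 7, 4, 4, 2, 4, 5], .l [12, 1], .l [10, 11], .y [10, 12], .l [10, 13, 7, 3, 7, 3, 7, 1, 5, 6, 1], .l [14, 3], .l [10, 13]]),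
([p 2 1, g, s 1 0, g, p 0 2, p 3 0, g, p 0 3, m 0 4, g, p 4 0, g], .hi 5, [.r 1751 [1, 2, 5, 3, 4] [1, 1, 1, 1, 1, 1], .r 1757 [1, 2, 5, 3, 4] [1, 1, 1, 1, 1, 1], .l [7, 4], .l [2, 1, 6, 2, 7, 3, 5, 2, 5], .r 1754 [1, 2, 5, 3, 4] [1, 1, 1, 1, 1, 1], .l [7, 2], .r 1756 [1, 2, 5, 3, 4] [1, 1, 1, 1, 1], .l [2, 1, 6, 1, 6, 4, 1], .l [5, 6], .l [7, 1], .y [5, 7], .l [8, 2], .l [10, 4, 4, 2, 9], .l [5, 9], .l [10, 4], .l [12, 6, 6, 4, 1], .l [5, 11], .l [12, 6]]),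
([p 2 1, g, s 1 0, g, p 0 2, p 3 0, g, p 0 3, m 4 0, g, s 0 4, g], .hi 8, [.r 1744 [2, 3, 5] [1, 3, 1, 3], .l [1, 6, 4, 8], .l [2, 9], .r 1744 [2, 3, 5] [3, 1, 1, 3], .l [3, 6, 2, 8], .l [4, 9], .l [3, 4, 0, 6], .l [7, 9, 6], .l [7, 0, 9, 6], .l [7, 9], .l [2, 1, 4, 8, 1, 2, 0, 4, 1], .r 1743 [1, 2, 3, 5, 4] [1, 1, 1, 1, 1, 1], .l [2, 1, 4, 6, 9, 1, 7, 4, 1], .r 1749 [1, 2, 3, 5, 4] [1, 1, 1, 1, 1, 1], .y [8, 10], .r 1748 [1, 2, 3, 5, 4] [1, 1, 1, 1, 1, 1], .r 1758 [1, 2, 3, 5] [1, 1, 1, 3, 1], .l [2, 1, 4, 8, 1, 9, 7, 4, 1]]),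
([p 1 0, g, p 0 1, p 2 0, g, p 0 2, m 3 0, g, s 0 3, g], .hi 0, [.r 1759 [4, 1, 2, 3] [1, 1, 1, 1, 1], .l [0, 1], .l [2, 1], .y [0, 2], .l [0, 4, 6, 4, 1], .l [0, 4], .l [5, 4], .l [0, 4], .r 1726 [4, 1, 2, 3] [1, 1, 1, 1, 1], .l [0, 7], .l [8, 7], .r 1731 [4, 1, 2, 3] [1, 1, 1, 1], .r 1717 [4, 1, 2, 3] [1, 1, 1, 1, 1], .l [0, 9], .l [10, 9]]),
([p 2 0, g, m 0 1, g, p 0 2, p 4 0, g, s 0 3, g, p 3 4, m 1 0, g], .hi 10, [.l [10, 12, 5, 7, 3, 8, 1, 6, 3], .l [1, 6, 4, 10], .l [2, 11], .y [2, 10], .l [10, 12, 3, 7, 5, 8, 1, 6, 1], .l [3, 6, 2, 10], .l [4, 11], .l [3, 4, 0, 8], .l [6, 12, 7, 9, 7, 4, 7], .l [6, 11, 9, 11, 8, 10, 8, 5], .l [7, 11], .l [6, 10, 5, 7, 5, 2, 5], .l [8, 12, 5, 7, 5, 2, 5], .l [6, 12, 7, 9, 7, 3, 1,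 2, 5], .l [9, 11], .l [8, 10, 3, 5, 3, 6, 1, 4, 5], .l [8, 10, 3, 5, 3, 6, 1, 4, 5], .l [8, 10, 3, 5, 3, 6, 8, 2, 5]]),
([p 2 0, g, m 0 1, g, p 0 2, p 3 0, g, p 4 3, m 1 0, g, s 0 4, g], .hi 8, [.l [8, 10, 5, 7, 3, 8, 1, 6, 3], .l [1, 6, 4, 8], .l [2, 9], .y [2, 8], .l [8, 10, 3, 7, 5, 8, 1, 6, 1], .l [3, 6, 2, 8], .l [4, 9], .l [3, 4, 0, 6], .l [6, 10, 5, 7, 5, 2, 5], .l [6, 9, 7, 9, 6, 8, 6, 3], .l [7, 9], .l [6, 8, 3, 5, 3, 8, 3, 6, 3], .l [7, 8, 2, 4, 2, 7], .l [6, 8, 3, 5, 3, 8, 3, 6, 3], .l [6, 8, 3, 5, 3, 6, 6, 0, 3], .l [6, 8, 3, 5, 3, 6, 1, 4, 5], .l [6, 8, 3, 5, 3, 6, 1, 4, 5], .l [6, 8, 3, 5, 3, 6, 8, 2, 5]]),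
([p 2 0, g, m 0 1, g, p 0 2, p 3 0, g, p 5 3, m 1 4, g, p 6 5, g, p 0 6, g, s 4 0, g], .hi 0, [.l [11, 1, 15, 6, 1, 2, 9, 4, 9, 4, 2, 4, 1], .l [0, 1], .l [2, 1], .l [2, 1], .l [11, 2, 9, 11, 1, 6, 10, 4, 7, 2, 7], .l [0, 3], .l [4, 3], .y [0, 4], .l [0, 6, 8, 6, 3], .l [0, 6], .l [7, 6], .l [0, 9, 11, 8, 8, 6, 3], .l [0, 9], .l [10, 9], .l [0, 11, 13, 11, 11, 8, 8, 6, 3], .l [0, 11], .l [12, 11], .l [0, 11], .l [0, 13, 15, 9, 11, 10, 10, 8, 3], .l [0, 13], .l [14, 13], .l [16, 15, 4, 6, 2, 13, 8, 10, 3], .l [0, 15], .l [16, 15]]),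
([p 2 0, g, m 0 1, g, p 0 2, p 3 0, g, p 5 3, m 1 4, g, p 0 5, g, s 4 0, g], .lo 10, [.l [0, 9], .l [2, 11, 11, 8, 8, 6, 3], .l [2, 11], .l [1, 6, 4, 10], .l [4, 11, 11, 8, 8, 6, 1], .l [4, 11], .l [3, 6, 2, 10], .y [5, 10, 7], .l [6, 10, 5, 7, 5, 8, 1, 4, 7], .l [7, 11], .l [6, 9, 7, 9, 6, 8, 6, 7], .l [11, 12, 7, 8, 3, 5, 3, 6, 1, 4, 5], .l [10, 11], .l [9, 12, 9, 9, 7, 9, 6, 8, 6, 1], .l [9, 10, 7, 8, 3, 5, 3, 6, 1, 4, 5], .r 1763 [1, 2, 3, 4, 5, 6] [1, 1, 1, 1, 1, 1, 1], .l [9, 10, 7, 7, 5, 7, 4, 6, 4, 5], .l [9, 10, 7, 8, 3, 5, 3, 6, 6, 0, 3], .l [9, 10, 7, 8, 3, 5, 3, 8, 3, 6, 3], .l [11, 14, 12, 12, 9, 10, 5, 7, 5, 2, 5], .l [9, 10, 7, 7, 5, 7, 4, 6, 4, 7]]),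
([p 2 0, g, m 0 1, g, p 0 2, p 3 0, g, p 4 3, m 1 0, g, p 0 4, g], .hi 8, [.l [2, 9, 11, 10, 10, 8, 3], .l [1, 6, 4, 8], .l [2, 9], .y [2, 8], .l [4, 9, 11, 10, 10, 8, 1], .l [3, 6, 2, 8], .l [4, 9], .l [3, 4, 0, 6], .l [6, 10, 5, 7, 5, 2, 5], .l [6, 9, 7, 9, 6, 8, 6, 3], .l [7, 9], .l [9, 12, 9, 10, 5, 7, 5, 2, 5], .l [6, 8, 3, 2, 5, 2, 6, 8, 6, 1], .l [8, 12, 10, 11, 6, 3, 4, 6], .l [6, 8, 3, 2, 5, 2, 6, 6, 4, 1], .r 1764 [1, 2, 3, 5, 4] [1, 1, 1, 1, 1, 1], .l [7, 8, 2, 4, 2, 9], .l [5, 8, 4, 11, 4, 7, 2, 7]]),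
([p 2 0, g, m 0 1, g, p 0 2, p 3 0, g, p 0 3, m 1 0, g], .lo 7, [.l [0, 6], .l [2, 8, 8, 6, 3], .l [2, 8], .l [1, 6, 4, 7], .l [4, 8, 8, 6, 1], .l [4, 8], .l [3, 6, 2, 7], .y [5, 7], .r 1761 [1, 2, 4, 3] [1, 1, 1, 1, 1], .l [7, 8], .l [6, 9, 7, 9, 6, 8, 6, 1], .l [6, 7, 5, 7, 4, 6, 4, 1], .r 1762 [1, 2, 3, 4] [1, 1, 1, 1, 1], .r 1765 [1, 2, 3, 4] [1, 1, 1, 1, 1], .l [6, 7, 5, 7, 4, 6, 4, 5]]),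
([p 3 1, s 0 2, g, p 0 3, p 6 0, g, s 0 4, g, m 4 5, g, p 0 6, m 5 7, g, m 7 0, g, s 1 0, g, s 2 0, g], .lo 1, [.l [2, 10, 1, 10, 6, 2, 2, 11], .l [3, 1, 9, 1, 9, 5, 1], .l [2, 5, 2, 2, 14], .l [4, 2, 16, 13, 0, 13, 6], .l [1, 5, 11, 9, 1], .l [6, 4, 18, 13, 0, 15, 8], .l [0, 3, 2, 4, 10, 8, 13], .l [1, 7, 11, 7, 1], .l [0, 10, 3, 11, 5, 2, 7], .l [0, 3, 2, 6, 10, 6, 13], .l [1, 9, 11, 5, 1], .l [10, 8, 18, 9, 0, 15, 12], .l [0, 3, 2, 8, 10, 4, 13], .l [1, 12, 14, 12, 12, 9, 11, 7, 1], .l [4, 13, 9, 15, 3, 8, 5], .l [0, 3, 2, 11, 13, 11, 11, 8, 10, 6, 9], .l [0, 3, 2, 11, 11, 9, 9, 6, 8, 4, 7], .l [0, 16, 1, 13, 6, 1, 6, 2, 10, 11], .l [1, 18, 5, 2, 16, 11, 13, 11, 11, 8, 10, 6, 1], .l [17, 16, 13], .l [15, 14, 13], .l [8,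 1, 16, 9, 6, 15, 6, 11, 6, 3, 7, 2], .l [8, 1, 18, 11, 16, 12, 7, 1, 7, 12, 4, 2, 7], .l [15, 14, 15], .y [1, 17], .l [8, 1, 16, 9, 6, 15, 6, 11, 6, 3, 7, 2], .l [8, 1, 16, 9, 6, 15, 6, 11, 6, 3, 7, 2], .l [15, 14, 17]]),
([p 2 1, s 0 0, g, p 0 2, p 5 0, g, s 0 3, g, m 3 4, g, p 0 5, m 4 6, g, m 6 0, g, s 1 0, g], .hi 1, [.y [1], .l [2, 10, 1, 10, 6, 2, 2, 11], .l [2, 5, 2, 2, 14], .l [3, 1, 9, 1, 9, 5, 1], .l [2, 3, 0, 0, 12], .l [1, 5, 11, 9, 1], .l [0, 3, 2, 4, 10, 8, 13], .l [0, 16, 13, 7, 1, 9, 10, 9, 2, 10, 5, 3, 1], .l [1, 5, 9, 7, 1], .l [1, 7, 11, 7, 1], .l [0, 3, 2, 6, 10, 6, 13], .l [0, 10, 3, 11, 5, 2, 7], .l [1, 9, 11, 5, 1], .l [0, 3, 2, 8, 10, 4, 13], .l [10, 13, 10, 12, 5, 13, 5, 10, 5], .l [0, 3, 2, 8, 8,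 2, 11], .l [1, 12, 14, 12, 12, 9, 11, 7, 1], .l [0, 3, 2, 11, 13, 11, 11, 8, 10, 6, 9], .l [4, 13, 9, 15, 3, 8, 5], .l [8, 1, 14, 7, 9, 8, 11, 8, 11, 5, 2, 7], .l [17, 16, 13], .l [0, 8, 1, 14, 7, 12, 8, 11, 5, 2, 7], .r 1767 [1, 7, 2, 3, 4, 5, 6] [1, 1, 1, 1, 1, 1, 1, 1], .l [15, 14, 15], .l [0, 8, 1, 16, 9, 14, 10, 13, 5, 2, 9]]),
([p 2 1, s 0 0, g, p 0 2, p 5 0, g, s 0 3, g, m 3 4, g, p 0 5, m 4 0, g, s 1 0, g], .hi 11, [.l [0, 3, 2, 9, 9, 6, 8, 4, 7], .l [3, 12, 12, 9, 11, 7, 1], .l [0, 14, 11, 9, 9, 6, 8, 4, 8], .l [3, 12], .l [0, 12, 9, 7, 7, 4, 6, 2, 6], .l [6, 12, 9], .l [6, 0, 12, 9], .l [6, 12], .y [6, 8, 11], .l [8, 12, 7], .l [8, 0, 12, 7], .l [8, 12], .l [10, 12, 5], .l [10, 0, 12, 5], .l [10, 12], .l [0, 9,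 11, 9, 11, 3, 0, 5, 2], .l [8, 1, 4, 9, 5, 2, 6, 2, 6], .l [8, 1, 4, 9, 5, 2, 6, 2, 6], .r 1768 [1, 2, 3, 4, 5, 6] [1, 1, 1, 1, 1, 1, 1], .l [0, 12, 14, 12, 12, 9, 11, 7, 2], .l [0, 12, 1, 13, 9, 1, 9, 5, 2], .l [0, 12, 14, 12, 12, 9, 11, 7, 2]]),
([p 1 0, s 0 0, g, p 0 1, p 4 0, g, s 0 2, g, m 2 3, g, p 0 4, m 3 0, g], .hi 0, [.c, .l [3, 2, 9, 1, 10, 6, 1], .l [0, 2], .l [3, 2], .y [0, 3], .l [0, 5, 11, 9, 2], .l [0, 5], .l [6, 5], .l [0, 5, 9, 7, 2], .l [0, 7, 11, 7, 2], .l [0, 7], .l [8, 7], .l [0, 9, 11, 5, 2], .l [0, 9], .l [10, 9], .l [0, 9], .r 1769 [5, 1, 2, 3, 4] [1, 1, 1, 1, 1, 1], .l [0, 12], .l [13, 12]]),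
([p 1 0, g, p 0 1, p 4 0, g, s 0 2, g, m 2 3, g, p 0 4, m 3 0, g], .top 1, [.r 334 [] [9], .r 1770 [1, 2, 3, 4] [1, 1, 1, 1, 1], .r 334 [] [11], .r 444 [] [11]]),
([p 2 0, s 0 0, g, s 3 0, g, s 0 1, g, p 0 2, p 5 3, g, m 1 4, g, p 0 5, m 4 6, g, s 6 0, g], .hi 1, [.y [1], .l [12, 4, 6, 3, 8, 1, 11, 4, 1, 5, 2, 7], .l [12, 4, 6, 3, 8, 1, 11, 4, 1, 5, 2, 7], .r 854 [7, 2] [1, 5, 9], .l [12, 4, 2, 6, 12, 8, 10, 5, 0, 7, 4, 7], .l [12, 4, 2, 6, 12, 8, 10, 5, 0, 7, 4, 7], .r 854 [7, 2] [3, 3, 9], .l [10, 4, 2, 4, 10, 8, 8, 3, 0, 5, 2, 5], .l [12, 6, 8, 3, 8, 1, 11, 4, 1, 5, 2, 7], .l [12, 6, 8, 3, 8, 1, 11, 4, 1, 5, 2, 7], .l [11, 12, 5, 7, 3, 8, 2, 10, 3, 7, 4, 7], .l [10, 4, 6, 3, 6, 1, 9, 4, 1, 5, 2, 5], .l [1, 9, 13, 11,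 5], .l [1, 9, 13, 11, 5], .l [8, 4, 9, 2, 11, 6, 9], .l [1, 11, 13, 9, 5], .l [1, 11, 13, 9, 5], .l [8, 4, 11, 4, 11, 4, 9], .l [1, 11, 11, 7, 5], .l [8, 4, 14, 7, 0, 9, 4, 11], .l [1, 14, 16, 14, 14, 11, 13, 11, 5], .l [8, 4, 14, 7, 0, 9, 4], .l [8, 4, 16, 9, 0, 11, 6, 1], .l [16, 4, 14, 15, 8, 6, 1], .l [8, 4, 16, 9, 0, 11, 6]]),
([p 2 0, s 0 0, g, s 0 1, g, p 0 2, p 4 0, g, m 1 3, g, p 0 4, m 3 5, g, s 5 0, g], .hi 6, [.r 1625 [2, 6] [3, 8], .r 1772 [1, 2, 6, 3, 4, 5] [1, 1, 1, 1, 1, 1, 1], .l [10, 4, 6, 3, 4, 9, 5, 2, 6, 2, 6], .l [8, 4], .l [6, 2, 7, 4, 2, 3, 6, 5, 5, 0, 4], .l [8, 2, 9, 4, 9, 2, 5], .l [10, 6, 12, 7, 4, 7, 1, 9, 6, 7, 1], .l [8, 2], .l [8, 4, 10, 7, 4, 7, 1, 7, 4, 5, 1], .r 1588 [2, 6] [4, 1, 8], .l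 [6, 7], .l [8, 1], .l [2, 10, 3, 10, 6, 2, 6], .l [6, 9], .l [10, 3], .y [6, 10], .l [13, 6, 6, 2, 12], .l [6, 12], .l [13, 6], .l [15, 8, 8, 4, 1], .l [6, 14], .l [15, 8]]),
([p 2 0, g, s 0 1, g, p 0 2, p 4 0, g, m 1 3, g, p 6 4, m 3 5, g, p 7 6, g, p 8 7, g, p 0 8, g, m 5 0, g], .lo 4, [.y [0, 4], .l [11, 1, 9, 3, 12, 4, 5, 2, 14, 11, 2, 10, 5], .l [2, 5], .l [1, 6, 4, 3], .l [11, 1, 7, 1, 12, 6, 7, 2, 14, 11, 4, 10, 7], .l [4, 5], .l [3, 6, 2, 1], .l [7, 4, 6, 4, 4, 3, 5, 1, 5, 1, 5, 1, 9, 5, 7, 5, 5, 3], .l [6, 16, 9, 13, 16, 11, 16, 12, 4, 6, 11], .l [9, 6, 8, 6, 6, 3, 7, 1, 7, 1, 7, 1, 11, 5, 9, 7, 7, 5], .l [3, 4, 0, 5], .l [8, 12, 10, 10, 5, 7, 5, 4, 14, 12, 3], .l [2, 15, 16, 14, 18, 16, 12, 11, 15, 11, 13, 10,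 4, 9, 5, 1, 6, 3], .l [3, 4, 0, 7], .l [3, 7, 8, 5, 0, 8, 16, 14, 3], .l [7, 4, 6, 4, 9, 4, 8, 6, 8, 1, 13, 5, 11, 9, 9, 7, 5, 3], .l [3, 4, 0, 10], .l [3, 7, 8, 5, 0, 10, 12, 10, 14, 12, 3], .l [7, 4, 6, 4, 11, 6, 10, 8, 8, 5, 3, 5, 11, 5, 9, 7, 7, 5], .l [3, 4, 0, 12], .l [3, 7, 8, 5, 0, 12, 14, 12, 12, 10, 12, 10, 3], .l [7, 4, 6, 4, 13, 8, 10, 7, 8, 6, 6, 4, 10, 6, 4, 3, 3, 1], .l [3, 4, 0, 14], .l [3, 7, 8, 5, 0, 14, 16, 8, 3], .l [7, 4, 6, 4, 15, 10, 14, 12, 10, 9, 11, 9, 9, 7, 7, 5, 7, 3], .l [3, 4, 0, 16], .l [3, 4, 0, 16], .l [11, 18, 16, 16, 13, 13, 8, 2, 11, 2, 11, 4, 2, 8, 5], .l [7, 4, 6, 4, 17, 12, 16, 14, 12, 11, 13, 11, 11, 9, 9, 7, 5, 3], .l [3, 4, 0, 18]]),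
([p 2 0, g, s 0 1, g, p 0 2, p 4 0, g, m 1 3, g, p 6 4, m 3 5, g, p 7 6, g, p 0 7, g, m 5 0, g], .lo 14, [.l [0, 13], .l [2, 15, 15, 13, 13, 10, 10, 6, 3], .l [2, 15], .l [1, 6, 4, 14], .l [4, 15, 15, 13, 13, 10, 10, 6, 1], .l [4, 15], .l [3, 6, 2, 14], .y [5, 14, 12, 9], .l [7, 15, 15, 13, 15, 13, 8], .l [7, 15], .l [7, 0, 15, 15, 13, 15, 13, 8], .l [9, 15, 15, 13, 15, 13, 6], .l [9, 15], .l [9, 0, 15, 15, 13, 15, 13, 6], .l [11, 14, 11, 12, 10, 10, 5, 7, 5, 8, 10, 4, 7], .l [12, 15], .l [11, 14, 11, 12, 10, 10, 5, 7, 5, 8, 10, 4, 7], .l [15, 16, 12, 12, 9, 10, 8, 8, 3, 5, 3, 6, 8, 2, 5], .l [14, 15], .l [15, 16, 12, 12, 9, 10, 8, 8, 3, 5, 3, 6, 8, 2, 5], .l [13, 14, 12, 12, 9, 10, 8, 8, 3, 5, 3, 6, 8, 2, 5], .r 1774 [1,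 2, 3, 4, 5, 6, 7, 8] [1, 1, 1, 1, 1, 1, 1, 1, 1], .l [13, 14, 12, 12, 9, 10, 8, 8, 3, 5, 3, 6, 8, 2, 5], .l [13, 14, 12, 12, 9, 10, 8, 8, 3, 5, 3, 6, 6, 0, 3], .l [13, 14, 12, 12, 9, 10, 8, 8, 3, 5, 3, 8, 3, 6, 3], .l [14, 18, 17, 17, 15, 15, 12, 13, 11, 11, 6, 3, 4, 6, 3], .l [13, 14, 12, 12, 9, 10, 8, 8, 3, 5, 3, 8, 3, 6, 3]]),
([p 2 0, g, s 0 1, g, p 0 2, p 4 0, g, m 1 3, g, p 6 4, m 3 5, g, p 0 6, g, m 5 0, g], .lo 12, [.l [0, 11], .l [2, 13, 13, 10, 10, 6, 3], .l [2, 13], .l [1, 6, 4, 12], .l [4, 13, 13, 10, 10, 6, 1], .l [4, 13], .l [3, 6, 2, 12], .y [5, 12, 9], .l [7, 13, 15, 13, 8], .l [7, 13], .l [7, 0, 13, 15, 13, 8], .l [9, 13, 15, 13, 6], .l [9, 13], .l [9, 0, 13, 15, 13, 6], .l [13, 14, 9, 10, 8, 8, 3, 5, 3,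 6, 8, 2, 5], .l [12, 13], .l [13, 14, 9, 10, 8, 8, 3, 5, 3, 6, 8, 2, 5], .l [11, 12, 9, 10, 8, 8, 3, 5, 3, 6, 8, 2, 5], .r 1775 [1, 2, 3, 4, 5, 6, 7] [1, 1, 1, 1, 1, 1, 1, 1], .l [11, 12, 9, 10, 8, 8, 3, 5, 3, 6, 8, 2, 5], .l [11, 12, 9, 10, 8, 8, 3, 5, 3, 6, 6, 0, 3], .l [11, 12, 9, 10, 8, 8, 3, 5, 3, 8, 3, 6, 3], .l [12, 16, 15, 15, 12, 13, 11, 11, 6, 3, 4, 6, 3], .l [11, 12, 9, 10, 8, 8, 3, 5, 3, 8, 3, 6, 3]]),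
([p 2 0, g, s 0 1, g, p 0 2, p 4 0, g, m 1 3, g, p 0 4, m 3 5, g, m 5 0, g], .lo 9, [.l [0, 8], .l [2, 10, 10, 6, 3], .l [2, 10], .l [1, 6, 4, 9], .l [4, 10, 10, 6, 1], .l [4, 10], .l [3, 6, 2, 9], .y [5, 9], .l [10, 12, 10, 10, 3, 5, 3, 6, 8, 2, 5], .l [7, 10], .l [9, 2, 10, 11, 2, 7, 4, 9, 4, 6, 3], .l [10, 12, 8, 8, 3, 5, 3, 6, 8, 2, 5], .l [9, 10], .l [10, 12, 8, 8, 3, 5, 3, 6, 8, 2, 5], .l [8, 10, 8, 8, 3, 5, 3, 6, 8, 2, 5], .r 1776 [1, 2, 3, 4, 5, 6] [1, 1, 1, 1, 1, 1, 1], .l [8, 10, 8, 8, 3, 5, 3, 6, 8, 2, 5], .l [8, 10, 8, 8, 3, 5, 3, 6, 6, 0, 3], .l [8, 10, 8, 8, 3, 5, 3, 8, 3, 6, 3], .l [10, 14, 12, 13, 11, 11, 6, 3, 4, 6, 3], .l [7, 4, 9, 1, 11, 8, 4, 8, 1]]),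
([p 1 0, g, p 0 1, p 2 0, g, p 0 2, m 0 3, g, p 3 0, g], .hi 0, [.r 1758 [4, 1, 2, 3] [1, 1, 1, 1, 1], .l [0, 1], .l [2, 1], .y [0, 2], .l [0, 4, 6, 4, 1], .l [0, 4], .l [5, 4], .l [0, 4], .l [6, 5], .r 1721 [4, 1, 2, 3] [1, 1, 1, 1, 1], .l [0, 7], .l [8, 7], .r 1729 [4, 1, 2, 3] [1, 1, 1, 1, 1], .l [0, 9], .l [10, 9]]),
([p 2 0, s 0 0, g, s 0 1, g, p 0 2, p 4 0, g, m 1 3, g, p 0 4, m 3 0, g], .hi 11, [.l [1, 10, 10, 7, 9, 7, 3], .l [3, 12, 12, 9, 11, 9, 3], .l [2, 7, 4, 11], .l [3, 12], .y [3, 8, 11], .l [5, 12, 12, 9, 11, 9, 1], .l [4, 7, 2, 11], .l [5, 12], .l [4, 5, 0, 9], .l [8, 12, 9], .l [8, 0, 12, 9], .l [8, 12], .l [10, 12, 7], .l [10, 0, 12, 7], .l [10, 12], .l [9, 11, 9, 9, 4, 6, 3, 0, 4], .r 1773 [1, 2, 3, 4,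 5] [1, 1, 1, 1, 1, 1], .r 1778 [2, 4, 5] [4, 3, 1, 1], .r 1777 [1, 2, 3, 4, 5] [2, 1, 1, 1, 1, 1]]),
([p 2 0, g, s 0 1, g, p 0 2, p 4 0, g, m 1 3, g, p 0 4, m 3 0, g], .top 1, [.r 853 [1, 2] [1, 2, 4], .r 1779 [1, 2, 3, 4] [1, 1, 1, 1, 1], .r 334 [] [11], .r 444 [] [11]]),
([p 2 0, g, m 0 1, g, p 0 2, p 4 0, g, m 1 3, g, p 0 4, m 3 5, g, s 5 0, g], .lo 9, [.l [0, 8], .l [2, 10, 10, 6, 3], .l [2, 10], .l [1, 6, 4, 9], .l [4, 10, 10, 6, 1], .l [4, 10], .l [3, 6, 2, 9], .y [5, 9], .l [10, 12, 10, 10, 3, 5, 3, 6, 1, 4, 5], .l [7, 10], .l [6, 9, 4, 6, 4, 7], .l [10, 12, 8, 8, 3, 5, 3, 6, 1, 4, 5], .l [9, 10], .l [8, 11, 7, 9, 6, 8, 6, 1], .l [8, 10, 8, 8, 3, 5, 3, 6, 1, 4, 5], .l [1, 10, 0, 11, 9, 1, 8, 5, 2, 5], .l [8, 9, 5,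 7, 4, 6, 4, 7], .l [8, 10, 8, 8, 3, 5, 3, 6, 6, 0, 3], .l [8, 10, 8, 8, 3, 5, 3, 8, 3, 6, 3], .l [11, 14, 11, 12, 10, 10, 5, 7, 5, 2, 5], .l [8, 9, 5, 7, 4, 6, 4, 9]]),
([p 2 0, g, m 0 1, g, p 0 2, p 4 0, g, m 1 3, g, p 0 4, m 3 0, g], .hi 10, [.l [2, 11, 11, 8, 10, 8, 3], .l [1, 6, 4, 10], .l [2, 11], .y [2, 7, 10], .l [4, 11, 11, 8, 10, 8, 1], .l [3, 6, 2, 10], .l [4, 11], .l [3, 4, 0, 8], .l [7, 11, 8], .l [6, 9, 4, 6, 4, 8], .l [7, 11], .l [8, 12, 10, 10, 5, 7, 5, 2, 5], .l [8, 11, 7, 9, 6, 8, 6, 7], .l [9, 11], .l [8, 9, 5, 7, 4, 6, 4, 5], .r 1781 [1, 2, 3, 4, 5] [1, 1, 1, 1, 1, 1], .l [9, 10, 7, 7, 2, 4, 2, 7], .l [7, 10, 9, 9, 4, 9, 2, 5, 2, 5]]),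
([p 2 1, g, p 0 2, p 6 0, g, m 4 3, g, s 0 4, g, m 3 5, g, p 8 6, m 5 7, g, p 0 8, g, m 7 0, g, s 1 0, g], .lo 7, [.l [2, 8, 10, 8, 10, 8, 1], .l [2, 8, 10, 8, 10, 8, 1], .l [0, 19, 17, 6, 8, 6, 8, 6, 13], .l [5, 6, 6, 1, 9, 14, 8, 10, 7, 3, 9, 2, 3], .l [9, 3, 1, 1, 11, 16, 10, 12, 7, 3, 11, 2, 5], .l [7, 8, 8, 1, 11, 16, 10, 12, 7, 3, 11, 2, 5], .l [10, 11, 7, 1, 7, 16, 13, 14, 9, 2, 7, 9, 2], .l [13, 6, 1, 7, 3, 11, 7, 11, 1, 4, 11, 8, 2, 8, 1], .l [5, 8, 10, 12, 11, 11, 9, 9, 2, 13, 8, 8, 6, 8, 3], .l [5, 8, 19, 15, 4, 15, 8, 0, 11, 3, 1, 7, 1, 6, 3], .l [7, 11, 8, 6, 8, 11, 9, 9, 2, 13, 8, 8, 6, 8, 3], .l [7, 1, 10, 8, 8, 1, 6, 8, 2, 13, 8, 8, 6, 8, 3], .l [13, 6, 1, 7, 3, 11, 7, 7, 5, 9, 1, 4, 9, 6, 2, 6, 1], .l [0,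 10, 14, 12, 12, 8, 16, 11, 4, 8, 6, 10, 1], .l [5, 6, 8, 12, 11, 11, 9, 9, 2, 13, 8, 8, 6, 8, 3], .l [0, 10, 14, 12, 12, 8, 16, 11, 4, 8, 6, 10, 1], .l [7, 13, 11, 11, 15, 13, 6], .l [7, 1, 8, 6, 11, 4, 4, 1, 11, 9, 4], .l [5, 6, 6, 11, 15, 13, 6], .l [7, 15, 13, 13, 15, 11, 6], .l [7, 1, 8, 6, 13, 6, 6, 3, 4, 2, 9, 7, 4], .l [5, 6, 6, 13, 15, 11, 6], .y [5, 9, 12, 16, 7], .l [7, 17, 10, 17, 1, 1, 1, 11, 1, 8, 11, 7, 3], .l [7, 1, 8, 6, 15, 8, 8, 5, 6, 4, 6, 9, 1, 6, 1], .l [5, 6, 6, 15, 10, 15, 1, 11, 1, 8, 11], .l [0, 17, 17, 6, 8, 6, 8, 6, 1], .l [0, 17, 10, 17, 6, 15, 3, 12, 1, 9, 11, 1, 5], .l [0, 17, 19, 8, 10, 8, 10, 8, 1], .l [0, 17, 10, 17, 6, 15, 3, 12, 1]]),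
([p 2 1, g, p 0 2, p 6 0, g, m 4 3, g, s 0 4, g, m 3 5, g, p 0 6, m 5 7, g, m 7 0, g, s 1 0, g], .lo 11, [.l [2, 12, 12, 4, 1], .l [2, 12], .l [0, 17, 15, 10, 10, 2, 13], .y [3, 11], .l [10, 5, 11, 16, 13, 14, 7, 2, 5, 9, 4], .l [5, 12], .l [10, 5, 11, 2, 8, 6, 10, 3, 7, 4], .l [0, 12, 14, 12, 12, 6, 14, 9, 2, 6, 4, 8, 1], .l [7, 12], .l [5, 8, 3, 15, 13, 8, 8, 2, 11], .l [0, 12, 14, 12, 12, 6, 14, 9, 4, 6, 2, 8, 1], .l [9, 12], .l [16, 1, 7, 3, 11, 7, 0, 7], .l [0, 12, 14, 10, 10, 6, 14, 9, 4, 6, 2, 8, 1], .l [11, 12], .l [0, 12, 14, 10, 10, 6, 14, 9, 4, 6, 2, 8, 1], .l [0, 10, 12, 10, 10, 6, 14, 9, 4, 6, 2, 8, 1], .r 1783 [1, 2, 3, 4, 5, 6, 7, 8] [1, 1, 1, 1, 1, 1, 1, 1, 1], .l [0, 7, 1, 17, 10, 1, 13, 11, 2, 4, 2, 6,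 1], .l [0, 7, 1, 15, 8, 1, 11, 9, 2, 2, 0, 4, 1], .l [18, 17, 17, 15, 7, 9, 7, 7, 3, 5, 1, 5, 3, 0, 3], .l [10, 12, 10, 10, 6, 8, 1, 12, 8, 4, 8, 5, 2, 4, 1], .l [12, 1, 15, 17, 13, 6, 1, 6, 4, 11, 4, 8, 5], .l [0, 15, 15, 10, 10, 2, 1], .l [0, 15, 17, 12, 12, 4, 1], .l [0, 15, 17, 12, 12, 4, 1], .l [0, 15, 17, 0, 12, 13, 11, 11, 7, 9, 1, 9, 7, 4, 1]]),
([p 2 1, s 0 0, g, p 0 2, p 6 0, g, m 0 3, g, m 3 4, g, m 4 0, g, m 0 5, g, p 0 6, m 5 7, g, m 7 0, g, s 1 0, g], .hi 1, [.y [1], .l [10, 16, 11, 4, 1, 6, 12, 13, 7, 4, 0, 12, 3, 6, 3], .l [2, 5, 2, 2, 18], .l [1, 10, 16, 11, 3, 6, 12, 13, 7, 1, 2, 12, 3, 6, 3], .l [2, 3, 0, 0, 16], .l [1, 5, 15, 13, 1], .l [0, 3, 2, 4, 14, 12, 17], .l [10, 16, 9, 5, 14, 15, 7, 11, 7, 14,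 3, 10, 7], .l [8, 14, 9, 5, 12, 13, 7, 11, 7, 12, 5, 8, 3], .l [1, 7, 9, 7, 13, 11, 1], .l [0, 3, 2, 6, 8, 6, 12, 10, 15], .l [10, 16, 9, 5, 14, 15, 7, 13, 9, 14, 7, 10, 3], .l [1, 9, 11, 9, 9, 7, 11, 9, 1], .l [0, 3, 2, 8, 10, 8, 8, 6, 10, 8, 13], .l [1, 10, 16, 9, 1, 4, 10, 13, 7, 4, 9, 11, 7, 2, 9], .l [1, 11, 15, 7, 1], .l [0, 3, 2, 10, 14, 6, 17], .l [7, 12, 5, 18, 8, 15, 1, 4, 14, 9, 4], .l [8, 12, 4, 2, 10, 13, 6, 3, 9, 11, 6, 8, 5], .l [1, 13, 15, 5, 1], .l [0, 3, 2, 12, 14, 4, 17], .l [8, 14, 6, 2, 12, 15, 6, 3, 11, 13, 6, 10, 7], .l [0, 3, 2, 12, 12, 2, 15], .l [1, 16, 18, 16, 16, 13, 15, 7, 1], .l [0, 3, 2, 15, 17, 15, 15, 12, 14, 6, 13], .l [4, 17, 13, 19, 3, 8, 5], .l [6, 19, 13, 19, 1, 15, 15, 13, 3, 10, 13,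 7, 1], .l [21, 20, 17], .l [6, 19, 13, 19, 1, 15, 5, 12, 15], .l [8, 14, 9, 5, 12, 13, 7, 17, 13, 10, 3, 6, 3], .l [19, 18, 19], .l [8, 14, 9, 5, 12, 13, 7, 17, 13, 10, 3, 6, 3]]),
([p 2 1, g, p 0 2, p 6 0, g, m 0 3, g, m 3 4, g, m 4 0, g, m 0 5, g, p 0 6, m 5 7, g, m 7 0, g, s 1 0, g], .top 1, [.r 334 [] [17], .r 1785 [1, 2, 3, 4, 5, 6, 7] [1, 1, 1, 1, 1, 1, 1, 1, 1], .r 334 [] [19], .r 444 [] [19]]),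
([p 2 1, g, p 0 2, p 6 0, g, m 8 3, g, m 3 4, g, m 4 5, g, p 0 6, m 5 7, g, m 7 0, g, s 1 8, g], .lo 2, [.l [18, 10, 10, 8, 8, 6, 11, 1, 4, 9, 9, 2, 6], .l [2, 3], .l [1, 4, 2, 1], .l [5, 15, 8, 14, 4, 4, 2, 6, 8, 7, 3, 7, 3, 5, 5, 1, 3, 1], .l [0, 17, 15, 2, 10, 8, 13], .l [7, 17, 8, 16, 6, 6, 4, 8, 10, 9, 3, 9, 5, 7, 7, 3, 5, 1], .l [0, 17, 15, 2, 10, 8, 13], .l [0, 17, 15, 4, 6, 4, 8, 6, 11], .l [5, 17, 6, 16, 4, 4, 2, 10, 12, 11, 11, 9, 1, 7, 5, 1, 1, 3], .l [0, 17, 15, 4, 6, 4, 8, 6, 11], .l [0, 17, 15, 6, 8, 6, 6, 4, 6, 4, 9], .l [5, 17, 17, 4, 4, 2, 6, 3, 9, 3, 7, 5, 7, 1, 3, 1, 5, 3], .l [0, 17, 15, 6, 8, 6, 6, 4, 6, 4, 9], .l [0, 17, 15, 8, 10, 2, 13], .l [5, 17, 17, 4, 4, 2, 8, 5, 5, 3, 7, 1, 7, 1, 3, 1, 5, 3],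 .l [0, 17, 15, 8, 10, 2, 13], .l [0, 17, 15, 11, 13, 11, 11, 8, 8, 6, 6, 4, 6, 4, 5], .l [5, 17, 17, 4, 4, 2, 11, 8, 8, 6, 6, 4, 6, 4, 2, 1, 5, 3], .l [0, 17, 15, 11, 13, 11, 11, 8, 8, 6, 6, 4, 6, 4, 5], .y [0, 16, 5, 7, 9, 12, 14, 2], .l [18, 17, 4, 15, 1, 10, 13, 2, 6], .l [5, 17, 17, 4, 4, 2, 13, 10, 10, 8, 8, 6, 8, 6, 4, 3, 3, 1], .l [1, 2, 0, 14], .l [16, 10, 10, 8, 8, 6, 9, 11, 8, 3, 3, 1, 5, 6, 3], .l [5, 15, 15, 4, 4, 2, 13, 10, 10, 8, 8, 6, 8, 6, 4, 3, 3, 1], .l [1, 2, 0, 16]]),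
([p 2 1, g, p 0 2, p 7 0, g, m 4 3, g, s 0 4, g, m 3 5, g, m 5 6, g, p 9 7, m 6 8, g, p 0 9, g, m 8 0, g, s 1 0, g], .lo 2, [.l [1, 9, 1, 9, 7, 11, 9, 2, 1], .l [2, 3], .l [1, 4, 2, 1], .l [0, 19, 10, 15, 10, 12, 11, 11, 7, 3, 9, 1, 3, 8, 4, 6, 2, 5], .l [0, 21, 19, 2, 12, 10, 17], .l [0, 21, 10, 17, 12, 14, 13, 13, 9, 3, 11, 1, 3, 10, 4, 8, 4, 7], .l [0, 21, 19, 2, 12, 10, 17], .l [0, 21, 19, 4, 8, 6, 10, 8, 15], .l [9, 3, 14, 8, 0, 11, 1, 5, 5, 3, 9, 5, 9, 1, 9, 5, 3, 1], .l [0, 21, 19, 4, 8, 6, 10, 8, 15], .l [0, 21, 19, 6, 8, 4, 10, 8, 15], .l [22, 21, 21, 19, 19, 12, 16, 14, 14, 12, 14, 12, 10, 9, 11, 9, 7, 5], .l [0, 21, 19, 6, 8, 4, 10, 8, 15], .l [0, 21, 19, 8, 10, 8, 8, 4, 8, 6, 13], .l [0, 21, 12, 17, 10, 12, 11,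 11, 7, 3, 11, 3, 5, 10, 6, 8, 2, 7], .l [0, 21, 19, 8, 10, 8, 8, 4, 8, 6, 13], .l [0, 21, 19, 10, 12, 2, 17], .l [0, 21, 12, 15, 14, 17, 13, 15, 12, 13, 11, 5, 8, 1, 10, 8, 6, 3], .l [0, 21, 19, 10, 12, 2, 17], .l [0, 21, 19, 13, 15, 12, 12, 2, 15], .l [5, 16, 12, 5, 13, 17, 12, 14], .l [0, 21, 19, 13, 15, 12, 12, 2, 15], .l [0, 21, 19, 15, 17, 13, 13, 10, 10, 8, 8, 4, 8, 6, 9], .l [5, 18, 14, 5, 15, 17, 10, 14], .l [0, 21, 19, 15, 17, 13, 13, 10, 10, 8, 8, 4, 8, 6, 9], .l [0, 19, 17, 15, 15, 11, 11, 8, 8, 6, 6, 2, 6, 4, 7], .l [1, 7, 1, 7, 5, 9, 7, 0, 13], .l [7, 1, 19, 14, 3, 15, 1, 8, 8, 5, 11, 7, 3, 7, 3, 7, 1, 5], .l [1, 2, 0, 18], .y [0, 20, 2], .l [1, 7, 1, 7, 5, 9, 7, 0, 15], .l [7, 1, 21, 16, 3, 17, 1, 10, 10, 7,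 13, 7, 3, 9, 5, 9, 1, 7], .l [1, 2, 0, 20]]),
([p 2 1, g, p 0 2, p 7 0, g, m 4 3, g, s 0 4, g, m 3 5, g, m 5 6, g, p 0 7, m 6 8, g, m 8 0, g, s 1 0, g], .lo 13, [.l [2, 14, 14, 4, 1], .l [2, 14], .l [0, 19, 17, 12, 12, 2, 15], .y [3, 13], .l [10, 5, 13, 14, 12, 16, 13, 14, 7, 2, 5, 9, 4], .l [5, 14], .l [10, 5, 13, 14, 12, 2, 8, 6, 10, 3, 7, 4], .l [0, 14, 16, 14, 14, 12, 12, 6, 14, 9, 2, 6, 4, 8, 1], .l [7, 14], .l [5, 8, 3, 17, 15, 10, 10, 2, 13], .l [0, 14, 16, 14, 14, 12, 12, 6, 14, 9, 4, 6, 2, 8, 1], .l [9, 14], .l [12, 3, 13, 2, 10, 8, 12, 3, 9, 6], .l [0, 14, 16, 14, 14, 10, 10, 6, 14, 9, 4, 6, 2, 8, 1], .l [11, 14], .l [18, 1, 7, 3, 13, 9, 0, 9], .l [0, 14, 16, 12, 12, 10, 10, 6, 14, 9, 4, 6, 2, 8, 1], .l [13, 14],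 .l [0, 14, 16, 12, 12, 10, 10, 6, 14, 9, 4, 6, 2, 8, 1], .l [0, 12, 14, 12, 12, 10, 10, 6, 14, 9, 4, 6, 2, 8, 1], .r 1788 [1, 2, 3, 4, 5, 6, 7, 8, 9] [1, 1, 1, 1, 1, 1, 1, 1, 1, 1], .l [0, 7, 1, 19, 12, 1, 15, 11, 2, 4, 2, 6, 1], .l [0, 7, 1, 17, 10, 1, 13, 9, 2, 2, 0, 4, 1], .l [20, 19, 19, 17, 9, 11, 9, 9, 7, 7, 3, 5, 1, 5, 3, 0, 3], .l [12, 14, 12, 12, 10, 10, 6, 8, 1, 12, 8, 4, 8, 5, 2, 4, 1], .l [14, 1, 17, 19, 15, 6, 1, 6, 4, 13, 4, 10, 7], .l [0, 17, 17, 12, 12, 2, 1], .l [0, 17, 19, 14, 14, 4, 1], .l [0, 17, 19, 14, 14, 4, 1], .l [0, 17, 4, 17, 8, 1, 10, 6, 1, 3, 6, 2, 8, 3, 6, 6, 1]]),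
([p 2 1, g, p 0 2, p 6 0, g, m 0 3, g, m 3 4, g, m 4 5, g, p 0 6, m 5 7, g, m 7 0, g, s 1 0, g], .lo 5, [.l [18, 17, 10, 12, 11, 11, 9, 9, 7, 7, 2, 9, 4, 6, 3], .l [7, 4], .l [6, 2, 6, 2, 11, 6, 8, 5], .l [5, 1], .l [7, 1, 13, 16, 8, 10, 5, 1, 11, 4, 7], .l [7, 1], .r 1786 [1, 2, 8, 3, 5, 6, 7] [1, 1, 1, 1, 1, 1, 1, 1, 1], .r 1789 [1, 2, 3, 8, 4, 5, 6, 7] [1, 1, 1, 1, 1, 1, 1, 1, 1], .l [7, 1], .l [5, 6], .l [9, 3, 13, 16, 10, 12, 5, 1, 11, 2, 7], .l [9, 3], .l [5, 8], .l [5, 10, 3, 0, 8, 11, 4, 13, 6, 6, 4, 6, 3], .l [11, 5], .l [5, 10], .l [5, 13, 15, 13, 8], .l [14, 8], .l [5, 13], .y [5, 7, 9, 12, 14], .l [5, 15, 10, 15, 1, 11, 3, 8, 11], .l [16, 10], .l [5, 15], .r 1787 [1, 2, 3, 4, 5, 6, 7, 8] [1, 1, 1, 1, 1, 1, 1,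 1], .l [2, 18, 12, 12, 10, 10, 8, 11, 4, 1, 6, 9, 5, 2, 5], .l [18, 12], .l [5, 17]]),
([p 2 1, g, p 0 2, p 5 0, g, m 8 3, g, m 3 4, g, p 0 5, m 4 6, g, m 6 7, g, m 7 0, g, s 1 8, g], .lo 2, [.l [18, 10, 10, 8, 13, 1, 4, 11, 11, 2, 8], .l [2, 3], .l [1, 4, 2, 1], .l [5, 15, 8, 14, 4, 4, 2, 8, 10, 9, 9, 7, 7, 5, 1, 3, 1, 1], .l [0, 17, 15, 2, 8, 6, 13], .l [7, 17, 8, 16, 6, 6, 4, 10, 12, 11, 11, 9, 9, 7, 1, 5, 3, 3], .l [0, 17, 15, 2, 8, 6, 13], .l [0, 17, 15, 4, 6, 4, 6, 4, 11], .l [9, 12, 11, 11, 7, 9, 6, 6, 4, 12, 9, 1, 7, 5, 6, 3, 3, 1], .l [0, 17, 15, 4, 6, 4, 6, 4, 11], .l [0, 17, 15, 6, 8, 2, 13], .l [18, 12, 15, 11, 13, 10, 5, 8, 11, 9, 6], .l [0, 17, 15, 6, 8, 2, 13], .l [0, 17, 15, 9, 11, 9, 9, 6, 6, 4, 6, 4, 7],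 .l [5, 12, 8, 3, 9, 11, 6, 8], .l [0, 17, 15, 9, 11, 9, 9, 6, 6, 4, 6, 4, 7], .l [0, 17, 15, 11, 13, 11, 11, 9, 9, 6, 6, 4, 6, 4, 5], .l [5, 17, 17, 4, 4, 2, 11, 8, 8, 6, 8, 6, 4, 3, 3, 1, 5, 3], .l [0, 17, 15, 11, 13, 11, 11, 9, 9, 6, 6, 4, 6, 4, 5], .y [0, 16, 5, 7, 10, 12, 14, 2], .l [18, 17, 4, 15, 1, 10, 13, 2, 8], .l [5, 17, 17, 4, 4, 2, 13, 10, 10, 8, 10, 8, 6, 5, 5, 3, 3, 1], .l [1, 2, 0, 14], .l [16, 10, 10, 8, 11, 13, 10, 5, 5, 3, 3, 1, 5, 6, 3], .l [5, 15, 15, 4, 4, 2, 13, 10, 10, 8, 10, 8, 6, 5, 5, 3, 3, 1], .l [1, 2, 0, 16]])]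

def D06 : List (List (List Item × Qry × List Rf)) := [d06_0, d06_1, d06_2, d06_3]

end Pool.Agent.H63.PU.C161
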