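import Pool.Agent.H63.PU.Ck3

/-! Certificate data, machine generated. -/

namespace Pool.Agent.H63.PU.C161

open Pool.Agent.H63.PU Pool.Agent.H63.PU.Ck3 Pool.Agent.H63.PU.Short

set_option maxRecDepth 20000

def d07_0 : List (List Item × Qry × List Rf) := [
([p 2 1, g, p 0 2, p 5 0, g, m 7 3, g, m 3 4, g, p 0 5, m 4 6, g, m 6 0, g, s 1 7, g], .hi 12, [.l [2, 13, 13, 11, 11, 8, 8, 6, 8, 6, 1], .l [0, 15, 13, 11, 11, 9, 9, 6, 6, 4, 6, 4, 5], .l [2, 13], .y [0, 14, 5, 7, 10, 12, 2], .l [5, 13, 13, 11, 8], .l [5, 0, 13, 13, 11, 8], .l [5, 13], .l [7, 13, 13, 11, 6], .l [5, 15, 8, 6, 6, 4, 8], .l [7, 13], .l [9, 13, 13, 11, 4], .l [5, 15, 6, 4, 4, 2, 8], .l [9, 13], .l [5, 13, 4, 2, 2, 0, 6], .l [5, 15, 3, 1, 4, 12, 4, 4, 2, 8, 1],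 .l [5, 15, 3, 1, 4, 12, 4, 4, 2, 8, 1], .l [12, 13], .l [16, 10, 15, 9, 1, 3, 11, 4, 9, 1, 5, 2, 5], .l [16, 10, 15, 9, 1, 3, 11, 4, 9, 1, 5, 2, 5], .r 1791 [1, 2, 3, 4, 5, 6, 8, 7] [1, 1, 1, 1, 1, 1, 1, 1], .l [0, 13, 15, 13, 13, 11, 11, 8, 8, 6, 8, 6, 1], .l [5, 13, 4, 12, 4, 8, 11, 7, 2, 4, 7], .l [0, 13, 15, 13, 13, 11, 11, 8, 8, 6, 8, 6, 1]]),
([p 2 1, g, p 0 2, p 5 0, g, m 0 3, g, m 3 4, g, p 0 5, m 4 6, g, m 6 0, g, s 1 0, g], .lo 5, [.l [16, 15, 8, 10, 9, 9, 7, 7, 2, 9, 4, 6, 3], .l [7, 4], .l [6, 2, 6, 2, 9, 4, 6, 3], .l [5, 1], .l [7, 1, 11, 14, 8, 10, 5, 1, 9, 2, 5], .l [7, 1], .r 1790 [1, 2, 7, 3, 4, 5, 6] [1, 1, 1, 1, 1, 1, 1, 1], .r 1784 [1, 2, 3, 7, 4, 5, 6] [1, 1, 1, 1, 1, 1, 1, 1], .l [7, 1], .l [5, 6], .l [7,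 12, 11, 11, 9, 9, 2, 11, 6, 6, 4, 6, 3], .l [9, 3], .l [5, 8], .l [5, 11, 13, 11, 6], .l [12, 6], .l [5, 11], .y [5, 7, 10, 12], .l [5, 13, 8, 13, 1, 9, 1, 6, 9], .l [14, 8], .l [5, 13], .r 1792 [1, 2, 3, 4, 5, 6, 7] [1, 1, 1, 1, 1, 1, 1], .l [2, 16, 10, 10, 8, 11, 4, 1, 6, 9, 5, 2, 5], .l [16, 10], .l [5, 15]]),
([p 2 1, g, p 0 2, p 5 0, g, m 0 3, g, m 3 4, g, p 0 5, m 4 0, g, s 1 0, g], .hi 10, [.l [2, 11, 11, 8, 8, 6, 8, 6, 1], .l [0, 13, 11, 9, 9, 6, 6, 4, 6, 4, 5], .l [2, 11], .l [0, 11, 9, 7, 7, 4, 4, 2, 4, 2, 3], .l [5, 11, 8], .l [5, 0, 11, 8], .l [5, 11], .y [5, 7, 10], .l [7, 11, 6], .l [7, 0, 11, 6], .l [7, 11], .l [9, 11, 4], .l [9, 0, 11, 4], .l [9, 11], .l [0, 8, 10, 8, 8, 6, 8, 3, 0, 4, 1], .r 1725 [1, 2, 5, 6] [1,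 5, 1, 1, 1], .r 1778 [2, 5, 6] [1, 5, 1, 3], .r 1793 [1, 2, 3, 4, 5, 6] [1, 1, 1, 1, 1, 1, 1], .l [0, 11, 13, 11, 11, 8, 8, 6, 8, 6, 1], .r 1721 [1, 2, 5, 6] [1, 5, 1, 1, 1], .l [0, 11, 13, 11, 11, 8, 8, 6, 8, 6, 1]]),
([p 3 1, s 0 2, g, s 1 0, g, p 0 3, p 6 0, g, m 0 4, g, m 4 5, g, p 0 6, m 5 0, g, s 2 0, g], .hi 13, [.l [0, 5, 4, 11, 11, 8, 8, 6, 8, 6, 1], .l [3, 14, 14, 11, 11, 9, 11, 9, 3], .l [0, 7, 6, 15, 13, 11, 11, 8, 8, 6, 8, 6, 1], .l [3, 14], .l [5, 14, 14, 11, 11, 9, 11, 9, 1], .l [0, 7, 6, 15, 11, 9, 9, 6, 6, 4, 6, 4, 5], .l [5, 14], .l [0, 5, 4, 13, 9, 7, 7, 4, 4, 2, 4, 2, 3], .l [8, 14, 11], .l [8, 0, 14, 11], .l [8, 14], .y [8, 10, 13], .l [10, 14, 9], .l [10, 0, 14, 9], .l [10, 14], .l [12, 14, 7], .l [12, 0,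 14, 7], .l [12, 14], .l [3, 2, 8, 11, 7, 1, 4, 6, 1, 6, 6, 4, 5], .l [9, 1, 7, 9, 1, 5, 10, 5, 7, 2, 7], .l [12, 13, 10, 16, 7, 1, 13, 8, 11, 4, 1], .l [7, 13, 0, 9, 2, 14, 9, 2, 4, 8, 5, 5, 1], .l [3, 2, 13, 15, 13, 13, 10, 10, 8, 10, 8, 1], .l [3, 2, 13, 15, 0, 13, 13, 10, 10, 8, 10, 8, 1], .l [0, 5, 4, 13, 15, 13, 13, 10, 10, 8, 10, 8, 1]]),
([p 2 1, s 0 0, g, s 1 0, g, p 0 2, p 5 0, g, m 0 3, g, m 3 4, g, p 0 5, m 4 0, g], .hi 1, [.y [1], .r 1053 [1, 6, 2] [1, 1, 1, 9], .l [2, 7, 4, 4, 1], .r 578 [1, 6, 2] [1, 1, 1, 9], .r 989 [1, 6, 2] [1, 1, 1, 9], .l [3, 2, 3], .l [11, 1, 6, 11, 4, 2, 7, 10, 5, 7, 2], .l [3, 2, 3], .l [1, 7, 13, 11, 3], .l [0, 5, 4, 6, 12, 10, 1], .l [3, 8, 5, 6, 12, 8, 1], .l [3, 8, 5, 6, 8, 6, 8, 6, 1],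 .l [1, 9, 11, 9, 11, 9, 3], .l [0, 5, 4, 8, 10, 8, 10, 8, 1], .l [3, 10, 7, 8, 10, 6, 10, 8, 1], .l [1, 11, 13, 7, 3], .l [0, 5, 4, 10, 12, 6, 1], .l [3, 12, 9, 10, 12, 4, 1], .l [0, 5, 4, 10, 10, 4, 1], .r 1795 [1, 6, 2, 3, 4, 5] [1, 1, 1, 1, 1, 1, 1], .l [3, 2, 13], .r 852 [1, 6, 2] [1, 1, 9, 1]]),
([p 2 1, g, s 1 0, g, p 0 2, p 5 0, g, m 0 3, g, m 3 4, g, p 0 5, m 4 0, g], .top 1, [.c, .r 1796 [1, 2, 3, 4, 5] [1, 1, 1, 1, 1, 1], .r 334 [] [13], .r 444 [] [13]]),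
([p 1 0, g, p 0 1, p 4 0, g, m 0 2, g, m 2 3, g, p 0 4, m 3 0, g], .hi 0, [.r 1797 [5, 1, 2, 3, 4] [1, 1, 1, 1, 1, 1], .l [0, 1], .l [2, 1], .y [0, 2], .l [0, 4, 10, 8, 1], .l [0, 4], .l [5, 4], .l [5, 4], .l [0, 6, 8, 6, 8, 6, 1], .l [0, 6], .l [7, 6], .l [0, 8, 10, 4, 1], .l [0, 8], .l [9, 8], .l [0, 8], .r 1794 [5, 1, 2, 3, 4] [1, 1, 1, 1, 1, 1], .l [0, 11], .l [12, 11]]),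
([p 2 1, s 0 0, g, p 0 2, p 4 0, g, m 6 3, g, p 0 4, m 3 5, g, m 5 0, g, s 1 6, g], .hi 1, [.y [1], .l [1, 8, 14, 11, 3, 7, 11, 11, 3, 4, 6, 4, 5], .l [2, 5, 2, 2, 12], .l [1, 8, 14, 11, 3, 7, 11, 11, 3, 4, 6, 4, 5], .l [2, 3, 0, 0, 10], .l [1, 5, 9, 7, 1], .l [0, 3, 2, 4, 8, 6, 11], .l [8, 14, 12, 4, 8, 10, 7, 3, 5, 7, 1], .l [1, 7, 9, 5, 1], .l [0, 3, 2, 6, 8, 4, 11], .l [8, 6, 14, 9, 2, 10, 6], .l [0, 3, 2, 6, 6, 2, 9], .l [1, 10, 12, 10, 10, 7, 9, 7, 1], .l [0, 3, 2, 9, 11, 9, 9, 6, 8, 6, 7], .l [4, 11, 7, 13, 3, 8, 5], .l [6, 14, 1, 7, 9, 8, 11, 2, 8, 6, 5, 5, 3], .l [6, 14, 14, 5, 11], .l [6, 14, 6, 13, 5, 6, 1, 8, 5, 7, 1, 6, 3], .l [6, 12, 7, 12, 1, 6, 3, 8, 8, 5, 1, 4, 1], .l [6, 12, 12, 5, 11], .l [9, 15, 6, 3, 10, 6,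 6, 2, 6, 8, 1]]),
([p 1 0, s 0 0, g, p 0 1, p 3 0, g, m 5 2, g, p 0 3, m 2 4, g, m 4 0, g, s 0 5, g], .hi 0, [.c, .l [7, 11, 2, 7, 2, 10, 5, 2, 5, 0, 7], .l [0, 2], .l [3, 2], .y [0, 3], .l [0, 5, 9, 7, 2], .l [0, 5], .l [6, 5], .l [0, 7, 9, 5, 2], .l [0, 7], .l [8, 7], .l [0, 7], .l [0, 10, 12, 10, 10, 7, 9, 7, 2], .l [0, 10], .l [11, 10], .l [3, 15, 8, 11, 4, 1, 6, 11, 7, 2, 7], .l [0, 12], .l [13, 12], .r 1799 [6, 1, 2, 3, 4, 5] [1, 1, 1, 1, 1, 1], .l [3, 13, 6, 9, 13, 10, 3, 8, 9, 4, 1], .l [0, 14], .l [15, 14]]),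
([p 1 0, s 0 0, g, p 0 1, p 3 0, g, m 4 2, g, p 0 3, m 2 0, g, s 0 4, g], .hi 9, [.l [1, 8, 8, 5, 7, 5, 1], .l [3, 10, 10, 7, 9, 7, 1], .l [2, 5, 2, 9], .l [3, 10], .l [2, 3, 0, 7], .l [6, 10, 7], .l [6, 0, 10, 7], .l [6, 10], .l [8, 10, 5], .l [6, 12, 4, 2, 7], .l [8, 10], .l [6, 10, 2, 0, 5], .l [13, 6, 8, 6, 1], .l [13, 6, 8, 6, 1], .r 1800 [1, 2, 3, 5, 4] [1, 1, 1, 1, 1, 1], .y [6, 9, 11], .l [11, 4, 6, 4, 10], .l [11, 4, 6, 4, 10], .l [6, 10, 12, 10, 5]]),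
([p 1 0, g, p 0 1, p 3 0, g, m 4 2, g, p 0 3, m 2 0, g, s 0 4, g], .top 1, [.r 334 [] [9], .r 1801 [1, 2, 3, 4] [1, 1, 1, 1, 1], .r 334 [] [11], .r 444 [] [11]]),
([p 2 1, g, p 0 2, p 5 0, g, m 4 3, g, s 0 4, g, p 0 5, m 3 0, g, s 1 0, g], .hi 10, [.l [2, 11, 11, 6, 10, 8, 1], .l [0, 13, 11, 9, 9, 4, 8, 6, 7], .l [2, 11], .l [0, 11, 9, 7, 7, 2, 6, 4, 5], .l [5, 11, 8], .l [5, 0, 11, 8], .l [5, 11], .l [7, 11, 6], .l [7, 0, 11, 6], .l [7, 11], .y [5, 10, 7], .l [9, 11, 4], .l [9, 0, 11, 4], .l [9, 11], .l [0, 8, 10, 6, 10, 5, 0, 6, 1], .r 1725 [1, 2, 5, 6] [1, 5, 1, 1, 1], .l [5, 10, 9, 9, 2, 4, 9, 1, 5, 2, 5], .l [5, 10, 9, 9, 2, 11, 6, 6, 4, 6, 3], .l [0, 11, 13, 11, 11, 6, 10, 8, 1], .l [0, 11, 1, 12, 8, 1, 8, 4, 1], .l [0, 11,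 13, 11, 11, 6, 10, 8, 1]]),
([p 1 0, g, p 0 1, p 4 0, g, m 3 2, g, s 0 3, g, p 0 4, m 2 0, g], .hi 0, [.l [2, 1, 8, 1, 8, 4, 1], .l [0, 1], .l [2, 1], .y [0, 2], .l [0, 4, 10, 8, 1], .l [0, 4], .l [5, 4], .l [0, 6, 10, 6, 1], .l [0, 6], .l [7, 6], .l [0, 6, 8, 4, 1], .l [0, 8, 10, 4, 1], .l [0, 8], .l [9, 8], .l [0, 8], .r 1803 [5, 1, 2, 3, 4] [1, 1, 1, 1, 1, 1], .l [0, 11], .l [12, 11]]),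
([p 1 0, g, p 0 1, p 3 0, g, m 0 2, g, p 0 3, m 2 0, g], .lo 5, [.l [5, 4], .r 1780 [4, 1, 2, 3] [1, 1, 1, 1, 1], .l [7, 4], .r 1782 [4, 1, 2, 3] [1, 1, 1, 1, 1], .l [5, 1], .r 1771 [1, 4, 2, 3] [1, 1, 1, 1, 1], .l [7, 1], .r 1798 [1, 4, 2, 3] [1, 1, 1, 1, 1], .r 1804 [1, 2, 4, 3] [1, 1, 1, 1, 1], .l [7, 1], .l [5, 6], .y [5, 8], .r 1802 [1, 2, 3, 4] [1, 1, 1, 1, 1], .l [10, 4], .l [5, 9]]),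
([p 2 0, g, s 0 1, g, p 3 2, p 4 3, g, p 6 4, m 1 5, g, p 7 6, g, p 8 7, g, p 0 8, g, m 5 0, g], .lo 14, [.y [0, 14, 12, 10, 7, 5, 4], .l [2, 15, 15, 13, 13, 11, 11, 8, 8, 6, 3], .l [2, 15], .l [1, 6, 4, 14], .l [4, 15, 15, 13, 13, 11, 11, 8, 8, 6, 1], .l [4, 15], .l [3, 6, 2, 14], .l [7, 15, 15, 13, 13, 11, 13, 11, 6], .l [7, 15], .l [6, 9, 7, 7, 6, 6, 2, 11], .l [9, 12, 9, 10, 5, 7, 5, 10, 10, 8, 10, 4, 7], .l [10, 15], .l [8, 5, 7, 5, 5, 4, 4, 2, 6, 3, 11, 5, 7, 5, 5, 3, 5, 1], .l [11, 14, 12, 12, 9, 10, 5, 7, 5, 8, 10, 4, 7], .l [12, 15], .l [8, 5, 7, 5, 5, 4, 4, 2, 4, 1, 11, 7, 9, 5, 5, 3, 5, 1], .l [15, 16, 12, 12, 10, 10, 7, 8, 3, 5, 3, 6, 8, 2, 5], .l [14, 15], .l [8, 5, 7, 5, 5, 4, 4, 2, 4, 1, 11, 7, 9, 7, 7, 3, 5, 1],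 .l [13, 14, 12, 12, 10, 10, 7, 8, 3, 5, 3, 6, 8, 2, 5], .l [8, 5, 7, 5, 5, 4, 4, 2, 4, 1, 11, 7, 9, 7, 7, 5, 5, 3], .l [13, 14, 12, 12, 10, 10, 7, 7, 5, 5, 4, 4, 0, 5], .l [13, 14, 12, 12, 10, 10, 7, 7, 5, 5, 4, 4, 0, 5], .l [13, 14, 12, 12, 10, 10, 7, 8, 3, 5, 3, 8, 3, 6, 3], .l [8, 5, 7, 5, 5, 4, 4, 2, 4, 1, 9, 5, 7, 5, 5, 3, 5, 1], .l [8, 5, 7, 5, 5, 4, 4, 2, 4, 1, 9, 5, 7, 5, 5, 3, 3, 3]]),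
([p 2 0, g, s 0 1, g, p 3 2, p 4 3, g, p 6 4, m 1 5, g, p 7 6, g, p 0 7, g, m 5 0, g], .lo 12, [.y [0, 12, 10, 7, 5, 4], .l [2, 13, 13, 11, 11, 8, 8, 6, 3], .l [2, 13], .l [1, 6, 4, 12], .l [4, 13, 13, 11, 11, 8, 8, 6, 1], .l [4, 13], .l [3, 6, 2, 12], .l [7, 13, 13, 11, 13, 11, 6], .l [7, 13], .l [6, 9, 7, 7, 6, 6, 2, 9], .l [9, 12, 9, 10, 5, 7, 5, 8, 10, 4, 7], .l [10, 13], .l [9, 12, 9, 9, 7, 7, 6, 6, 2, 7], .l [13, 14, 10, 10, 7, 8, 3, 5, 3, 6, 8, 2, 5], .l [12, 13], .l [11, 14, 12, 12, 9, 9, 7, 7, 6, 6, 2, 1], .l [11, 12, 10, 10, 7, 8, 3, 5, 3, 6, 8, 2, 5], .r 1806 [1, 2, 3, 4, 5, 6, 7, 8] [1, 1, 1, 1, 1, 1, 1, 1], .l [11, 12, 10, 10, 7, 7, 5, 5, 4, 4, 0, 5], .l [11, 12, 10, 10, 7, 7, 5, 5, 4, 4, 0, 5], .l [11, 12, 10, 10,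 7, 8, 3, 5, 3, 8, 3, 6, 3], .l [12, 16, 15, 15, 13, 13, 10, 11, 6, 3, 4, 6, 3], .l [11, 12, 10, 10, 7, 7, 5, 5, 4, 4, 0, 7]]),
([p 2 0, g, s 0 1, g, p 3 2, p 4 3, g, p 6 4, m 1 5, g, p 0 6, g, m 5 0, g], .lo 10, [.y [0, 10, 7, 5, 4], .l [2, 11, 11, 8, 8, 6, 3], .l [2, 11], .l [1, 6, 4, 10], .l [4, 11, 11, 8, 8, 6, 1], .l [4, 11], .l [3, 6, 2, 10], .l [7, 11, 13, 11, 6], .l [7, 11], .l [6, 9, 7, 7, 6, 6, 2, 7], .l [11, 12, 7, 8, 3, 5, 3, 6, 8, 2, 5], .l [10, 11], .l [9, 12, 9, 9, 7, 7, 6, 6, 2, 1], .l [9, 10, 7, 8, 3, 5, 3, 6, 8, 2, 5], .r 1807 [1, 2, 3, 4, 5, 6, 7] [1, 1, 1, 1, 1, 1, 1], .l [9, 10, 7, 7, 5, 5, 4, 4, 0, 5], .l [9, 10, 7, 7, 5, 5, 4, 4, 0, 5], .l [9, 10, 7, 8, 3, 5, 3, 8, 3, 6, 3], .l [10, 14, 13, 13, 10, 11, 6,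 3, 4, 6, 3], .l [9, 10, 7, 7, 5, 5, 4, 4, 0, 7]]),
([p 2 0, g, s 0 1, g, p 3 2, p 4 3, g, p 0 4, m 1 5, g, m 5 0, g], .lo 7, [.y [0, 7, 5, 4], .l [2, 8, 8, 6, 3], .l [2, 8], .l [1, 6, 4, 7], .l [4, 8, 8, 6, 1], .l [4, 8], .l [3, 6, 2, 7], .l [8, 10, 3, 5, 3, 6, 8, 2, 5], .l [7, 8], .l [6, 9, 7, 7, 6, 6, 2, 1], .l [6, 8, 3, 5, 3, 6, 8, 2, 5], .r 1808 [1, 2, 3, 4, 5, 6] [1, 1, 1, 1, 1, 1], .l [6, 7, 5, 5, 4, 4, 0, 5], .l [6, 7, 5, 5, 4, 4, 0, 5], .l [6, 8, 3, 5, 3, 8, 3, 6, 3], .l [8, 12, 10, 11, 6, 3, 4, 6, 3], .l [6, 7, 5, 5, 4, 4, 0, 7]]),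
([p 2 0, g, s 0 1, g, p 0 2, p 3 0, g, p 0 3, m 1 4, g, m 4 0, g], .hi 5, [.l [10, 5, 2, 5, 9, 7, 2], .l [2, 10, 5, 2, 7, 9, 5, 2, 5], .l [7, 4], .l [5, 2, 7, 4, 1, 3, 0], .l [7, 2, 9, 4, 1, 5, 2], .l [4, 10, 7, 4, 7, 9, 7, 4, 1], .l [7, 2], .r 1809 [1, 2, 5, 3, 4] [1, 1, 1, 1, 1], .l [7, 1, 9, 4, 9, 2, 5, 2, 5], .l [5, 6], .l [7, 1], .y [5, 7], .l [5, 9, 11, 9, 6], .l [5, 9], .l [10, 4], .l [8, 11, 8, 10, 6, 3, 4, 6, 3], .l [5, 11], .l [12, 6]]),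
([p 3 0, g, s 4 0, m 0 1, g, m 1 0, g, s 0 2, g, p 0 3, p 5 4, g, p 0 5, m 2 6, g, s 6 0, g], .lo 3, [.l [3, 2], .l [5, 11, 5, 11, 1, 8, 10, 2, 3], .l [5, 2], .l [12, 7, 9, 8, 8, 6, 8, 4, 9, 2, 8, 6, 7], .l [3, 0, 9, 8, 8, 4, 9, 3, 5, 2, 7], .l [3, 11, 7, 11, 1, 6, 10, 4, 1], .l [5, 1], .l [3, 4], .y [3, 5], .l [3, 6, 14, 5, 10, 8, 10, 4, 8, 8, 6, 7], .l [7, 3], .l [3, 6], .l [3, 11, 7, 11, 1, 8, 10, 2, 5], .l [9, 5], .l [3, 8], .l [3, 11, 13, 11, 5], .l [12, 8], .l [3, 11], .l [3, 9, 5, 9, 1, 6, 8, 2, 9], .l [15, 11], .l [3, 14], .l [1, 13, 5, 1, 10, 7, 7, 5, 8, 8, 3, 3, 1], .l [3, 9, 5, 9, 1, 6, 8, 2, 11], .l [17, 13], .l [3, 16]]),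
([p 2 0, g, s 3 0, m 0 0, g, s 0 1, g, p 0 2, p 4 3, g, p 0 4, m 1 5, g, s 5 0, g], .hi 3, [.l [10, 5, 6], .l [1, 9, 7, 2], .l [2, 4], .y [3], .l [10, 7, 1], .l [2, 9, 6, 1], .r 1811 [6, 1, 2, 3, 4, 5] [1, 1, 1, 1, 1, 1, 1], .l [8, 5, 1], .l [10, 7, 3], .l [2, 9, 6, 3], .l [13, 7, 12, 8, 0, 5, 8], .l [2, 7, 4, 3], .l [8, 5, 8], .l [2, 7, 4, 8], .l [13, 7, 9, 4, 6, 4, 11], .l [2, 7, 4, 8], .l [8, 5, 11], .l [2, 7, 4, 11], .l [8, 5, 7, 2, 11, 4, 10, 8, 9], .l [8, 5, 13], .l [2, 7, 4, 13], .l [8, 5, 7, 2, 13, 6, 12, 10, 1]]),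
([p 2 0, g, s 3 0, s 0 1, g, p 0 2, p 4 3, g, p 0 4, m 1 5, g, s 5 0, g], .lo 3, [.l [6, 3, 4], .l [1, 11, 5, 1, 8, 2, 4, 4, 2, 5], .l [8, 3, 4], .l [11, 5, 8, 2, 4], .c, .l [8, 5, 1, 6, 2, 7, 2, 6, 4, 5], .l [11, 7, 10, 6, 0, 3, 6], .l [8, 5, 1], .l [3, 7, 9, 7, 1], .l [8, 4, 7, 5, 8, 5, 6], .l [3, 7, 9, 7, 1], .l [0, 6, 3, 9, 4, 5, 2, 7], .l [9, 5, 8, 6, 8, 4, 6], .l [6, 3, 9], .y [3, 9, 11], .l [0, 6, 3, 11, 6, 7, 4, 1], .l [9, 5, 8, 6, 10, 6, 8], .l [6, 3, 11]]),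
([p 2 0, g, s 3 0, p 0 0, g, s 0 1, g, p 0 2, p 4 3, g, p 0 4, m 1 5, g, s 5 0, g], .lo 3, [.l [0, 2], .l [10, 5, 6], .l [2, 4], .l [1, 9, 7, 2], .c, .y [3], .l [10, 7, 1], .r 1599 [6, 2, 3, 4] [1, 1, 3, 1, 4], .l [2, 9, 6, 1], .l [10, 7, 3], .l [13, 7, 12, 8, 0, 5, 8], .l [2, 9, 6, 3], .l [8, 5, 8], .l [13, 7, 9, 4, 6, 4, 11], .l [2, 7, 4, 8], .l [8, 5, 11], .l [8, 5, 7, 2, 11, 4, 10, 8, 9], .l [2, 7, 4, 11], .l [8, 5, 11], .l [8, 5, 13], .l [8, 5, 7, 2, 13, 6, 12, 10, 1], .l [2, 7, 4, 13]]),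
([p 2 0, g, s 3 0, s 0 0, g, s 0 1, g, p 0 2, p 4 3, g, p 0 4, m 1 5, g, s 5 0, g], .hi 3, [.l [1, 13, 5, 1, 10, 2, 6, 6, 4, 7], .l [1, 13, 5, 1, 10, 2, 6, 6, 4, 7], .l [10, 5, 6], .y [3], .l [10, 7, 1, 8, 2, 9, 4, 8, 4, 7], .l [10, 7, 1], .l [5, 1, 12, 5, 2, 7, 10, 6, 2, 6], .l [4, 8, 5, 6, 3, 7, 3, 4, 1, 4], .l [10, 7, 3, 8, 2, 9, 2, 8, 6, 7], .l [10, 7, 3], .l [13, 7, 1, 3, 8, 4, 9, 2, 6, 7], .l [8, 5, 3], .l [3, 9, 11, 9, 3], .l [3, 9, 11, 9, 3], .l [13, 7, 2, 8, 4, 9, 2, 6], .l [3, 9, 9, 7, 3], .l [0, 8, 5, 11, 4, 5, 2, 9], .l [8, 5, 11], .l [11, 5, 10, 8, 10, 4, 8, 8, 6, 7], .l [0, 8, 5, 13, 6, 7, 4, 1], .l [8, 5, 13], .l [11, 5, 10, 8, 12, 6, 10, 10, 8, 3]]),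
([p 2 0, g, s 3 0, g, s 0 1, g, p 0 2, p 4 3, g, p 0 4, m 1 5, g, s 5 0, g], .top 3, [.r 1813 [1, 2, 3, 4, 5] [1, 1, 1, 1, 1], .r 1815 [1, 2, 3, 4, 5] [1, 1, 1, 1, 1, 1], .r 1814 [1, 2, 3, 4, 5] [1, 1, 1, 1, 1, 1], .r 1812 [1, 2, 3, 4, 5] [1, 1, 1, 1, 1, 1]]),
([p 2 0, g, s 0 1, g, p 0 2, p 3 0, g, p 0 3, m 1 4, g, s 4 0, g], .hi 5, [.r 1816 [1, 2, 5, 3, 4] [1, 1, 1, 1, 1, 1], .l [10, 5, 7, 4, 4, 2, 7], .l [7, 4], .l [5, 2, 4, 2, 5, 4, 4, 0, 3], .l [7, 2, 9, 4, 1, 5, 2], .l [10, 7, 9, 5, 7, 6, 6, 4, 5], .l [7, 2], .l [8, 5, 7, 5, 5, 4, 4, 2, 3], .r 1588 [2, 5] [3, 1, 6], .l [5, 6], .l [7, 1], .y [5, 7], .l [10, 4, 4, 2, 9], .l [5, 9], .l [10, 4], .l [12, 6, 6, 4, 1], .l [5, 11], .l [12, 6]]),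
([p 2 0, g, s 0 1, g, p 0 2, p 3 0, g, p 0 3, m 1 0, g], .hi 8, [.r 1744 [2, 3, 4] [1, 3, 1, 1], .l [1, 6, 4, 8], .l [2, 9], .y [2, 8], .r 1744 [2, 3, 4] [3, 1, 1, 1], .l [3, 6, 2, 8], .l [4, 9], .l [3, 4, 0, 6], .l [7, 9, 6], .l [7, 0, 9, 6], .l [7, 9], .l [6, 8, 3, 5, 3, 0, 3], .r 1817 [1, 2, 3, 4] [1, 1, 1, 1, 1], .r 1778 [2, 3, 4] [3, 1, 1, 1], .r 1810 [1, 2, 3, 4] [1, 1, 1, 1, 1]]),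
([p 1 0, g, p 0 1, p 2 0, g, p 0 2, m 0 0, g], .lo 6, [.l [6, 5], .r 1818 [3, 1, 2] [1, 1, 1, 1], .l [8, 5], .r 1766 [3, 1, 2] [1, 1, 1, 1], .l [6, 2], .r 1645 [1, 3, 2] [1, 1, 1, 1], .l [8, 2], .r 1805 [1, 3, 2] [1, 1, 1, 1], .y [6], .r 1760 [1, 2, 3] [1, 1, 1, 1], .l [8, 1], .l [6, 7]]),
([p 2 1, s 6 0, g, p 0 2, p 3 0, g, p 5 3, g, s 0 4, g, m 4 0, g, p 0 5, g, s 0 6, g, s 1 0, g], .hi 1, [.l [2, 12, 1, 12, 8, 8, 6, 2, 2, 9], .l [2, 5, 2, 2, 15], .l [3, 1, 11, 1, 11, 7, 7, 5, 1], .l [2, 3, 0, 0, 13], .l [1, 5, 7, 5, 1], .l [0, 3, 2, 4, 6, 4, 13], .l [6, 4, 15, 10, 0, 12, 9], .l [1, 7, 13, 11, 11, 9, 1], .l [0, 3, 2, 6, 12, 10, 10, 8, 11], .l [0, 17, 1, 14, 10, 1, 10, 4, 4, 2, 8, 3], .l [1, 7, 11, 9, 9, 7, 1], .l [1, 9, 13, 9,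 9, 7, 1], .l [0, 3, 2, 8, 12, 8, 8, 6, 11], .l [0, 12, 3, 13, 7, 7, 5, 2, 7], .l [1, 11, 13, 7, 7, 5, 1], .l [0, 3, 2, 10, 12, 6, 6, 4, 11], .l [0, 17, 1, 14, 8, 1, 10, 6, 6, 4, 8, 5], .l [0, 3, 2, 10, 10, 4, 4, 2, 9], .l [0, 17, 1, 14, 8, 1, 8, 4, 4, 2, 8, 1], .l [18, 17, 12], .l [0, 17, 1, 14, 8, 1, 8, 4, 4, 2, 8, 1], .y [1, 14], .l [0, 17, 1, 14, 8, 1, 8, 4, 4, 2, 8, 1], .l [18, 17, 14], .l [14, 12, 8, 1, 8, 4, 11, 2, 10, 4, 2, 7], .l [0, 15, 1, 12, 8, 1, 8, 4, 4, 2, 6, 7], .l [16, 15, 16], .r 715 [1, 7, 2] [1, 12, 1, 1]]),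
([p 2 1, s 5 0, g, p 0 2, p 3 0, g, p 0 3, s 0 4, g, s 0 5, g, s 1 0, g, p 4 0, g], .hi 4, [.l [6, 2, 10, 5, 9, 1, 8, 6, 4, 7], .l [13, 12, 12, 7, 9, 8, 8, 6, 9], .l [6, 2], .l [11, 10, 10, 7, 7, 6, 6, 4, 7], .l [6, 1, 10, 5, 9, 1, 6, 9], .l [4, 5], .l [6, 1], .y [4, 6], .l [4, 6, 5], .l [9, 4, 4, 2, 12], .l [4, 8], .l [9, 4], .l [9, 4, 4, 2, 10], .l [11, 6, 6, 4, 12], .l [4, 10], .l [11, 6], .l [13, 8, 8, 6, 12], .l [4, 12], .l [13, 8], .l [15, 10, 10, 8, 5], .l [4, 14], .l [15, 10]]),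
([p 2 1, s 6 0, g, p 0 2, p 3 0, g, p 5 3, s 0 4, g, p 0 5, g, m 4 0, g, s 0 6, g, s 1 0, g], .lo 7, [.l [1, 6, 8, 7, 7, 5, 1], .l [3, 8, 10, 9, 9, 7, 1], .l [3, 8, 10, 9, 9, 7, 1], .l [13, 3, 9, 5, 0, 6, 9, 5, 1], .l [4, 6, 5], .l [6, 8, 5], .l [6, 8, 5], .l [5, 15, 10, 12, 11, 2, 10, 11], .l [8, 11, 8, 13, 8, 10, 9, 2, 8, 9], .l [13, 5, 6, 2, 12, 2, 4, 3, 6, 7, 4, 7], .l [8, 11, 8, 13, 8, 10, 9, 2, 8, 9], .l [5, 15, 10, 14, 1, 12, 3, 9, 10, 1], .l [11, 3, 12, 8, 0, 9, 13, 9, 9, 6, 1], .l [5, 15, 10, 14, 1, 12, 3, 9, 10, 1], .y [7, 11], .l [5, 15, 10, 14, 1, 12, 5, 9, 10, 3], .l [11, 3, 12, 8, 0, 9, 13, 9, 9, 6, 1], .l [5, 15, 10, 14, 1, 12, 5, 9, 10, 3], .l [11, 3, 9, 11, 6, 2, 4, 5, 2, 7], .l [11, 3, 14, 10, 0, 11, 13, 7, 7,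 4, 1], .l [11, 3, 9, 11, 6, 2, 4, 5, 2, 7], .l [0, 14, 14, 6, 8, 7, 7, 5, 2], .l [0, 14, 16, 8, 10, 9, 9, 7, 2, 9], .l [0, 14, 16, 8, 10, 9, 9, 7, 2], .l [11, 3, 9, 11, 6, 2, 4, 5, 2, 9]]),
([p 2 1, s 6 0, g, p 0 2, p 3 0, g, p 5 3, s 0 4, g, p 0 5, g, s 0 6, g, m 4 0, g, s 1 0, g], .lo 7, [.l [1, 6, 8, 7, 7, 5, 1], .l [3, 8, 10, 9, 9, 7, 1], .l [3, 8, 10, 9, 9, 7, 1], .l [15, 5, 11, 5, 0, 8, 11, 5, 1], .l [4, 6, 5], .l [6, 8, 5], .l [6, 8, 5], .l [5, 13, 8, 10, 9, 2, 8, 11], .l [8, 11, 8, 11, 6, 8, 7, 2, 6, 9], .l [9, 1, 10, 7, 10, 5, 11, 3, 8, 5], .l [8, 11, 8, 11, 6, 8, 7, 2, 6, 9], .l [5, 13, 8, 14, 3, 12, 3, 7, 10, 3], .l [11, 3, 14, 10, 0, 11, 13, 7, 7, 4, 1], .l [5, 13, 8, 14, 3, 12, 3, 7, 10, 3], .l [15, 7, 13, 9, 4, 9,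 11, 7, 4, 1], .l [13, 5, 14, 8, 0, 11, 13, 7, 7, 4, 1], .l [17, 16, 9, 4, 5, 4, 8, 12, 8, 1], .y [7, 13], .l [7, 14, 3, 6, 13, 2, 9, 5, 10, 4, 2, 3], .l [13, 5, 14, 8, 0, 11, 13, 7, 7, 4, 1], .l [7, 14, 3, 6, 13, 2, 9, 5, 10, 4, 2, 3], .l [0, 14, 14, 6, 8, 7, 7, 5, 2], .l [0, 14, 16, 8, 10, 9, 9, 7, 2, 7], .l [0, 14, 16, 8, 10, 9, 9, 7, 2], .l [5, 11, 6, 12, 3, 10, 12, 4, 10, 1, 6, 1]]),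
([p 2 1, s 5 0, g, p 0 2, p 3 0, g, p 4 3, s 0 0, g, p 0 4, g, s 0 5, g, s 1 0, g], .hi 7, [.l [3, 8, 10, 9, 9, 7, 1], .l [0, 14, 11, 5, 7, 6, 6, 4, 8], .l [3, 8, 10, 9, 9, 7, 1], .l [0, 12, 9, 3, 5, 4, 4, 2, 6], .l [6, 8, 5], .l [5, 13, 8, 10, 9, 2, 8, 9], .l [6, 8, 5], .y [7], .l [8, 11, 8, 11, 6, 8, 7, 2, 6, 7], .l [8, 11, 8, 11, 6, 8, 7, 2, 6, 7], .r 1820 [1, 2, 3, 6, 4, 5] [1, 1, 0, 1, 1, 1, 1, 1], .l [8, 9, 6, 9, 4, 6, 5, 0, 4, 5], .l [5, 13, 8, 12, 1, 10, 3, 7, 8, 1], .l [5, 13, 8, 12, 1, 10, 3, 7, 8, 1], .r 1822 [1, 2, 3, 6, 4, 5] [1, 1, 1, 1, 1, 1, 1], .l [5, 11, 6, 10, 1, 8, 3, 5, 6, 1], .l [15, 14, 9, 4, 5, 4, 8, 10, 6, 1], .l [15, 14, 9, 4, 5, 4, 8, 10, 6, 1], .r 1823 [1, 2, 3, 6, 4, 5] [1, 1, 1, 1, 1, 1, 1], .l [0,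 12, 14, 8, 10, 9, 9, 7, 2, 7], .r 1821 [1, 2, 3, 6, 5] [1, 1, 3, 1, 1, 1], .l [0, 12, 14, 8, 10, 9, 9, 7, 2]]),
([p 2 1, s 5 0, g, p 0 2, p 3 0, g, p 4 3, g, p 0 4, g, s 0 5, g, s 1 0, g], .top 7, [.r 1640 [1, 2, 3, 4, 5] [1, 1, 1, 1, 1], .r 1824 [1, 2, 3, 4, 5] [1, 1, 1, 1, 1, 1], .r 1642 [1, 2, 3, 4, 5] [1, 1, 1, 1, 1, 1], .r 1819 [2, 3] [2, 1, 7]]),
([p 2 1, s 4 0, g, p 0 2, p 3 0, g, p 0 3, g, s 0 4, g, s 1 0, g], .lo 6, [.l [0, 3, 2, 4, 4, 2, 5], .l [3, 7, 7, 5, 1], .l [3, 7], .l [0, 11, 8, 4, 4, 2, 6], .y [4, 6], .r 1634 [1, 2, 5, 3, 4] [1, 1, 1, 1, 1, 1], .l [6, 7], .l [7, 6, 9, 4, 2, 4, 1], .r 1264 [1, 2, 3, 5, 4] [1, 1, 1, 1, 1, 1], .r 1825 [1, 2, 3, 5, 4] [1, 1, 1, 1, 1, 1], .r 1627 [2, 3, 5] [2, 1, 1, 5], .l [12, 11,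 6, 1, 6, 8, 4, 1], .l [1, 7, 9, 7, 7, 5, 1], .l [12, 11, 6, 1, 6, 8, 4, 1], .l [0, 9, 9, 5, 5, 3, 2], .l [0, 9, 11, 7, 7, 5, 2], .l [0, 9, 11, 7, 7, 5, 2], .r 1627 [2, 3, 5] [2, 1, 5, 1]]),
([p 3 1, s 5 2, g, p 0 3, p 4 0, g, p 6 4, g, p 0 5, g, p 0 6, g, s 2 0, g, s 1 0, g], .hi 4, [.l [6, 2, 9, 4, 0, 6, 3], .l [10, 8, 9, 5, 7, 6, 6, 4, 6, 1, 8, 4, 1], .l [6, 2], .l [8, 6, 7, 5, 5, 4, 4, 2, 4, 1, 6, 4, 1], .l [0, 15, 1, 12, 4, 1, 4, 2, 8, 3], .l [4, 5], .l [6, 1], .l [5, 10, 5, 8, 4, 9, 2, 4, 1], .l [4, 7], .l [8, 3], .l [4, 7], .l [8, 6, 9, 6, 11, 7, 10, 1, 6, 7], .l [4, 9], .l [10, 5], .y [4, 10, 6], .l [8, 6, 11, 8, 11, 7, 10, 1, 4, 7], .l [4, 11], .l [12, 7], .l [8, 6, 2, 11, 1, 4, 10, 4, 2, 7], .l [4, 13], .l [14, 9], .l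 [16, 11, 3, 12, 4, 11, 5, 10, 2, 5], .l [4, 15], .l [16, 11]]),
([p 3 1, s 5 2, g, p 0 3, p 4 0, g, p 7 4, g, p 6 5, g, p 0 6, g, s 0 7, g, s 2 0, g, s 1 0, g], .lo 3, [.l [1, 15, 12, 1, 6, 11, 12, 8, 6, 8, 6, 6, 4, 5], .l [3, 4], .l [0, 17, 14, 1, 1, 14, 7], .l [8, 6, 7, 5, 5, 4, 10, 6, 9, 1, 7, 5, 3], .l [0, 17, 14, 2, 4, 2, 12], .l [10, 8, 9, 7, 7, 4, 12, 8, 11, 1, 7, 5, 3], .l [0, 17, 14, 2, 4, 2, 12], .l [0, 17, 14, 4, 10, 8, 8, 6, 10, 7], .l [5, 8, 5, 5, 2, 10, 5, 8, 12, 10, 3, 3, 1], .l [2, 3, 0, 6], .l [0, 17, 14, 6, 8, 6, 8, 6, 6, 4, 8, 5], .l [1, 15, 9, 2, 13, 14, 7, 5, 10, 6, 8, 2, 7], .l [2, 3, 0, 8], .l [0, 17, 14, 8, 10, 4, 4, 2, 10, 5], .l [1, 15, 9, 2, 13, 14, 5, 3, 10, 4, 8, 4, 7], .l [2, 3, 0, 10], .l [0, 17,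 11, 5, 12, 4, 6, 2, 10, 3], .l [0, 17, 11, 5, 12, 4, 6, 2, 10], .l [2, 3, 0, 12], .l [1, 13, 7, 2, 11, 12, 5, 3, 8, 4, 6, 2, 5], .l [0, 17, 11, 5, 12, 2, 6, 4, 10, 3], .l [0, 17, 11, 5, 12, 2, 6, 4, 10], .l [2, 3, 0, 14], .y [0, 16, 3], .l [16, 15, 12, 10, 14, 11, 5, 9, 10, 5], .l [11, 18, 9, 9, 6, 10, 12, 8, 1, 5, 7, 9, 7], .l [2, 3, 0, 16]]),
([p 3 1, s 5 2, g, p 0 3, p 4 0, g, p 6 4, g, p 0 5, g, s 0 6, g, s 2 0, g, s 1 0, g], .lo 8, [.l [3, 9, 11, 9, 9, 7, 1], .l [3, 9], .l [2, 5, 2, 8], .l [4, 7], .l [16, 15, 12, 7, 3, 3, 8, 10, 8, 3], .l [6, 9], .l [16, 15, 12, 7, 3, 3, 8, 10, 8, 3], .l [7, 14, 7, 13, 8, 6, 6, 4, 8, 1], .l [8, 9], .l [7, 14, 7, 13, 8, 6, 6, 4, 8, 1], .l [7, 14, 7, 13, 8, 6, 6, 4, 8, 1], .r 1828 [1, 2, 3,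 4, 5, 7, 6] [1, 1, 1, 1, 1, 1, 1, 1], .l [16, 15, 12, 5, 1, 5, 1, 3, 6, 8, 6, 1], .l [7, 14, 7, 13, 10, 8, 8, 6, 8, 3], .l [16, 15, 12, 7, 3, 5, 3, 3, 6, 8, 6, 1], .l [7, 14, 7, 13, 10, 8, 8, 6, 8, 3], .y [1, 12, 8], .l [7, 12, 5, 13, 10, 6, 6, 4, 8, 1], .l [16, 15, 10, 12, 8, 1, 8, 10, 4, 1], .l [8, 6, 11, 4, 12, 1, 6, 8, 6, 6, 4, 5], .l [0, 13, 13, 7, 9, 7, 7, 5, 2], .l [0, 13, 15, 9, 11, 9, 9, 7, 2, 7], .l [0, 13, 15, 9, 11, 9, 9, 7, 2], .l [0, 13, 5, 13, 4, 2, 11]]),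
([p 3 1, s 6 2, g, p 0 3, p 4 0, g, p 5 4, g, p 0 5, g, p 0 6, g, s 2 0, g, s 1 0, g], .hi 4, [.l [6, 2, 11, 6, 0, 8, 5], .l [12, 10, 11, 7, 9, 8, 8, 6, 6, 4, 6, 4, 5], .l [6, 2], .l [10, 8, 9, 7, 7, 6, 6, 4, 4, 2, 4, 2, 3], .l [0, 15, 1, 12, 4, 1, 4, 2, 8, 1], .l [4, 5], .l [6, 1], .r 1588 [3, 7] [2, 3, 9], .l [4, 7], .l [8, 3], .y [4, 8, 6], .r 1588 [3, 7] [2, 5, 7], .l [4, 9], .l [10, 5], .l [4, 9], .l [10, 8, 11, 8, 11, 5, 10, 1, 6, 7], .l [4, 11], .l [12, 7], .l [10, 8, 2, 11, 1, 2, 10, 4, 2, 7], .l [4, 13], .l [14, 9], .l [16, 11, 5, 12, 4, 11, 5, 10, 2, 7], .l [4, 15], .l [16, 11]]),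
([p 3 1, s 5 2, g, p 0 3, p 4 0, g, p 0 4, g, p 0 5, g, s 2 0, g, s 1 0, g], .lo 6, [.l [3, 7, 7, 5, 1], .l [3, 7], .l [0, 13, 10, 4, 4, 2, 8], .y [4, 6], .r 1695 [1, 2, 3, 6, 4, 5] [1, 1, 1, 1, 1, 1, 1], .l [6, 7], .l [4, 10, 6, 12, 10, 1, 1, 4, 7], .l [14, 13, 10, 5, 1, 3, 6, 8, 6, 1], .r 1830 [1, 2, 3, 4, 6, 5] [1, 1, 1, 1, 1, 1, 1], .l [14, 13, 10, 5, 1, 3, 6, 8, 6, 1], .r 1829 [1, 2, 3, 4, 5, 6] [1, 1, 1, 1, 1, 1, 1], .r 1827 [1, 2, 3, 4, 5, 6] [1, 1, 1, 1, 1, 1, 1], .l [5, 8, 3, 11, 5, 9, 3, 8, 1], .l [1, 9, 9, 5, 5, 3, 1], .l [14, 13, 8, 3, 8, 10, 6, 3], .l [1, 9, 11, 7, 7, 5, 1], .l [14, 13, 8, 3, 8, 10, 6, 3], .l [0, 11, 11, 5, 5, 3, 2], .l [0, 11, 13, 7, 7, 5, 2], .l [0, 11, 13, 7, 7, 5, 2], .l [0, 11, 5, 11, 4, 2, 7]]),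
([p 3 1, s 4 2, g, p 0 3, p 0 0, g, p 0 4, g, s 2 0, g, s 1 0, g], .lo 4, [.l [3, 5, 1], .l [3, 5], .l [0, 11, 8, 2, 8], .y [4], .l [8, 6, 7, 5, 1], .r 1831 [1, 2, 3, 5, 4] [1, 1, 1, 1, 1, 1], .l [8, 6, 7, 5, 1], .l [6, 4, 5, 3, 4], .l [6, 4, 9, 4, 0, 6, 3], .l [6, 4, 5, 3, 4], .l [1, 7, 7, 3, 1], .l [6, 4, 5, 3, 6], .l [1, 7, 9, 5, 1], .l [6, 4, 5, 3, 6], .l [0, 9, 9, 3, 2], .l [6, 4, 5, 3, 8], .l [0, 9, 11, 5, 2], .l [0, 9, 5, 10, 4, 2, 5]]),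
([p 3 1, s 5 2, g, p 0 3, p 4 0, g, p 6 4, g, p 0 5, g, p 0 6, g, s 1 0, g, s 2 0, g], .hi 4, [.l [6, 2, 9, 4, 0, 6, 3], .l [10, 8, 9, 5, 7, 6, 6, 4, 6, 1, 6, 2, 5], .l [6, 2], .l [8, 6, 7, 5, 5, 4, 4, 2, 4, 1, 4, 2, 3], .r 1588 [3, 7] [2, 1, 11], .l [4, 5], .l [6, 1], .l [5, 10, 5, 8, 4, 9, 2, 4, 1], .l [4, 7], .l [8, 3], .l [4, 7], .l [1, 15, 5, 9, 3, 11, 6, 8, 4, 1], .l [4, 9], .l [10, 5], .y [4, 10, 6], .l [1, 15, 3, 9, 3, 11, 4, 8, 6, 1], .l [4, 11], .l [12, 7], .l [1, 15, 1, 9, 3, 11, 4, 8, 6, 1], .l [4, 13], .l [14, 9], .r 1588 [3, 7] [2, 11, 1], .l [4, 15], .l [16, 11]]),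
([p 3 1, s 6 2, g, p 0 3, p 4 0, g, p 5 4, g, p 0 5, g, p 0 6, g, s 1 0, g, s 2 0, g], .hi 4, [.l [6, 2, 11, 6, 0, 8, 5], .l [12, 10, 11, 7, 9, 8, 8, 6, 6, 4, 8, 6, 3], .l [6, 2], .l [10, 8, 9, 7, 7, 6, 6, 4, 4, 2, 6, 4, 1], .r 1588 [3, 7] [2, 1, 11], .l [4, 5], .l [6, 1], .r 1588 [3, 7] [2, 3, 9], .l [4, 7], .l [8, 3], .y [4, 8, 6], .r 1588 [3, 7] [2, 5, 7], .l [4, 9], .l [10, 5], .l [4, 9], .l [1, 15, 3, 9, 5, 11, 4, 6, 4, 1], .l [4, 11], .l [12, 7], .l [1, 15, 1, 9, 5, 11, 4, 6, 4, 1], .l [4, 13], .l [14, 9], .r 1588 [3, 7] [2, 11, 1], .l [4, 15], .l [16, 11]]),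
([p 3 1, s 5 2, g, p 0 3, p 4 0, g, p 0 4, g, p 0 5, g, s 1 0, g, s 2 0, g], .lo 6, [.l [3, 7, 7, 5, 1], .l [3, 7], .l [0, 11, 8, 4, 4, 2, 6], .y [4, 6], .l [1, 13, 7, 1, 3, 9, 4, 6, 4, 1], .l [6, 7], .l [1, 13, 7, 1, 3, 9, 4, 6, 4, 1], .l [12, 11, 12, 7, 1, 5, 6, 1], .r 1834 [1, 2, 3, 4, 6, 5] [1, 1, 1, 1, 1, 1, 1], .l [12, 11, 12, 7, 1, 5, 6, 1], .l [12, 11, 12, 7, 3, 5, 6, 3], .r 1833 [1, 2, 3, 4, 5, 6] [1, 1, 1, 1, 1, 1, 1], .l [12, 11, 12, 7, 3, 5, 6, 3], .l [0, 9, 9, 5, 5, 3, 2], .l [0, 9, 11, 7, 7, 5, 2], .l [0, 9, 11, 7, 7, 5, 2], .l [0, 9, 3, 9, 4, 2, 5], .l [1, 11, 11, 5, 5, 3, 1], .l [0, 9, 13, 9, 9, 7, 2], .l [0, 9, 13, 9, 9, 7, 2], .l [0, 9, 3, 11, 6, 2, 7]]),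
([p 3 1, s 4 2, g, p 0 3, p 0 0, g, p 0 4, g, s 1 0, g, s 2 0, g], .lo 4, [.l [3, 5, 1], .l [3, 5], .l [0, 9, 6, 2, 6], .y [4], .l [8, 6, 7, 5, 1], .r 1835 [1, 2, 3, 5, 4] [1, 1, 1, 1, 1, 1], .l [8, 6, 7, 5, 1], .l [6, 4, 5, 3, 4], .l [6, 4, 11, 6, 0, 8, 5], .l [6, 4, 5, 3, 4], .l [0, 7, 7, 3, 2], .l [6, 4, 5, 3, 6], .l [0, 7, 9, 5, 2], .l [0, 7, 3, 8, 4, 2, 3], .l [1, 9, 9, 3, 1], .l [6, 4, 5, 3, 8], .l [0, 7, 11, 7, 2], .l [0, 7, 3, 10, 6, 2, 5]]),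
([p 3 1, s 7 2, g, p 4 0, g, p 0 3, p 5 4, g, p 6 5, g, s 0 6, g, s 2 0, g, p 0 7, g, s 1 0, g], .hi 16, [.l [3, 17, 7, 1, 15, 2, 8, 12, 10, 3], .l [14, 12, 13, 7, 9, 8, 12, 6, 11, 1, 7, 9, 7], .l [14, 12, 13, 7, 9, 8, 8, 6, 10, 6, 9, 9, 3], .l [5, 17, 7, 1, 15, 4, 8, 12, 10, 1], .l [5, 8, 5, 13, 11, 14, 14, 4, 6, 4, 1, 9, 1], .l [14, 12, 13, 7, 11, 10, 10, 8, 10, 6, 9, 9, 1], .y [0, 16, 5], .l [0, 17, 17, 7, 9, 7, 4], .l [0, 17, 17, 7, 9, 7, 4], .l [14, 12, 13, 9, 11, 10, 10, 6, 10, 6, 9, 9, 3], .l [0, 17, 17, 9, 11, 9, 9, 7, 4, 7], .l [14, 12, 13, 9, 11, 10, 12, 4, 11, 1, 7, 9, 3], .l [14, 12, 13, 9, 11, 10, 10, 8, 10, 4, 9, 9, 7], .l [10, 15, 15, 9, 10, 3, 1, 1, 2, 1], .l [12, 17, 17, 11, 12, 5, 1, 3, 4, 1], .l [14, 12, 13,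 9, 11, 10, 12, 4, 11, 1, 7, 9, 5], .l [14, 12, 13, 9, 11, 10, 10, 8, 10, 4, 9, 9, 5], .l [0, 17, 9, 1, 15, 9, 13, 9, 4, 9], .l [12, 10, 11, 7, 9, 8, 8, 6, 10, 6, 9, 9, 3], .l [12, 10, 11, 7, 9, 8, 12, 6, 11, 1, 7, 9, 7], .l [12, 10, 11, 7, 9, 8, 8, 6, 8, 4, 7, 7, 3], .l [0, 17, 9, 1, 15, 7, 13, 11, 4, 5], .l [12, 10, 11, 7, 9, 8, 8, 6, 8, 4, 9, 9, 7], .l [0, 17, 9, 1, 15, 7, 13, 11, 4], .l [18, 1, 9, 1, 5, 12, 6, 11, 1, 10, 2, 5], .l [12, 10, 11, 7, 9, 8, 8, 6, 8, 4, 7, 7, 7], .l [12, 10, 11, 7, 9, 8, 8, 6, 8, 4, 7, 9, 1]]),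
([p 3 1, s 7 2, g, p 4 3, p 5 4, g, p 6 5, g, s 0 6, g, s 2 0, g, p 0 7, g, s 1 0, g], .hi 14, [.l [3, 15, 7, 1, 13, 2, 6, 10, 8, 1], .l [12, 10, 11, 7, 7, 6, 10, 4, 9, 1, 7, 7, 5], .l [12, 10, 11, 7, 7, 6, 6, 4, 8, 4, 7, 7, 1], .l [0, 15, 15, 5, 7, 5, 2], .l [0, 15, 15, 5, 7, 5, 2], .l [12, 10, 11, 9, 9, 8, 8, 4, 8, 4, 7, 7, 1], .l [0, 15, 15, 7, 9, 7, 7, 5, 2, 5], .l [12, 10, 11, 9, 9, 8, 10, 2, 9, 1, 7, 7, 1], .l [12, 10, 11, 9, 9, 8, 8, 6, 8, 2, 7, 7, 5], .y [0, 14, 8, 6, 4, 3], .l [10, 15, 15, 9, 10, 5, 1, 3, 4, 1], .l [12, 10, 11, 9, 9, 8, 10, 2, 9, 1, 7, 7, 3], .l [12, 10, 11, 9, 9, 8, 8, 6, 8, 2, 7, 7, 3], .l [0, 15, 9, 1, 13, 7, 11, 7, 2, 7], .l [10, 8, 9, 7, 7, 6, 6, 4, 8, 4, 7, 7, 1], .l [10, 8, 9, 7, 7, 6, 10, 4, 9,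 1, 7, 7, 5], .l [10, 8, 9, 7, 7, 6, 6, 4, 6, 2, 5, 5, 1], .l [0, 15, 9, 1, 13, 5, 11, 9, 2, 3], .l [10, 8, 9, 7, 7, 6, 6, 4, 6, 2, 7, 7, 5], .l [0, 15, 9, 1, 13, 5, 11, 9, 2], .l [16, 1, 9, 1, 5, 10, 4, 9, 1, 8, 2, 3], .l [10, 8, 9, 7, 7, 6, 6, 4, 6, 2, 5, 5, 5], .l [10, 8, 9, 7, 7, 6, 6, 4, 6, 2, 5, 7, 1]]),
([p 3 1, s 6 2, g, p 0 3, p 4 0, g, p 5 4, g, s 0 5, g, s 2 0, g, p 0 6, g, s 1 0, g], .hi 4, [.l [6, 2, 13, 8, 0, 10, 7], .r 1837 [1, 2, 3, 7, 4, 5, 6] [1, 1, 1, 1, 1, 1, 1, 1], .l [6, 2], .r 1838 [1, 2, 3, 7, 4, 5, 6] [1, 1, 1, 1, 1, 1, 1], .l [12, 10, 4, 1, 11, 2, 10, 4, 2, 7], .l [4, 5], .l [6, 1], .l [4, 7, 1, 7, 9, 4, 10, 8, 4, 7], .l [4, 7], .l [8, 3], .y [4, 8, 6], .l [0, 15, 9, 1, 7, 10, 2, 4, 1, 2, 6, 1], .l [4,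 9], .l [10, 5], .l [10, 8, 11, 8, 11, 5, 10, 1, 6, 7], .l [4, 11], .l [12, 7], .l [4, 11], .l [4, 13, 7, 1, 3, 6, 10, 6, 4, 7], .l [4, 13], .l [14, 9], .l [4, 15, 9, 1, 10, 6, 1, 4, 1, 5, 6, 1], .l [4, 15], .l [16, 11]]),
([p 3 1, s 6 2, g, p 0 3, p 4 0, g, p 5 4, g, p 0 5, g, s 2 0, g, p 0 6, g, s 1 0, g], .hi 4, [.l [6, 2, 13, 8, 0, 10, 7], .l [12, 10, 11, 7, 9, 8, 8, 6, 6, 4, 6, 4, 5], .l [6, 2], .l [10, 8, 9, 7, 7, 6, 6, 4, 4, 2, 4, 2, 3], .l [12, 10, 4, 1, 11, 2, 10, 4, 2, 7], .l [4, 5], .l [6, 1], .r 1588 [3, 7] [2, 3, 9], .l [4, 7], .l [8, 3], .y [4, 8, 6], .r 1588 [3, 7] [2, 5, 7], .l [4, 9], .l [10, 5], .l [10, 8, 11, 8, 11, 5, 10, 1, 6, 7], .l [4, 11], .l [12, 7], .l [4, 11], .r 1588 [3, 7] [2, 9, 3], .l [4, 13], .l [14,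 9], .r 1588 [3, 7] [2, 11, 1], .l [4, 15], .l [16, 11]]),
([p 3 1, s 5 2, g, p 0 3, p 4 0, g, p 0 4, g, s 2 0, g, p 0 5, g, s 1 0, g], .lo 6, [.l [3, 7, 7, 5, 1], .l [3, 7], .l [0, 13, 10, 4, 4, 2, 8], .y [4, 6], .r 1660 [1, 2, 3, 6, 4, 5] [1, 1, 1, 1, 1, 1, 1], .l [6, 7], .l [4, 12, 8, 12, 10, 1, 1, 6, 7], .r 1839 [1, 2, 3, 4, 6, 5] [1, 1, 1, 1, 1, 1, 1], .r 1840 [1, 2, 3, 4, 6, 5] [1, 1, 1, 1, 1, 1, 1], .l [0, 13, 7, 1, 10, 4, 8, 6, 7], .l [1, 7, 7, 5, 5, 3, 1], .l [14, 13, 6, 1, 6, 8, 6, 8, 6, 1], .l [1, 7, 9, 7, 7, 5, 1], .l [14, 13, 6, 1, 6, 8, 6, 8, 6, 1], .l [8, 6, 9, 2, 10, 1, 4, 4, 2, 5], .l [1, 7, 11, 9, 9, 7, 1], .l [8, 6, 9, 2, 10, 1, 4, 4, 2, 5], .l [0, 11, 11, 5, 5, 3, 2], .l [0, 11, 13, 7, 7, 5, 2], .l [0, 11, 13,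 7, 7, 5, 2], .l [0, 11, 5, 11, 4, 2, 5]]),
([p 3 1, s 4 2, g, p 0 3, p 0 0, g, s 2 0, g, p 0 4, g, s 1 0, g], .lo 4, [.l [3, 5, 1], .l [3, 5], .l [0, 11, 8, 2, 8], .y [4], .l [8, 6, 7, 5, 1, 6, 2, 5], .r 1841 [1, 2, 3, 5, 4] [1, 1, 1, 1, 1, 1], .l [8, 6, 7, 5, 1], .l [1, 5, 5, 3, 1], .l [10, 8, 9, 7, 3], .l [1, 5, 7, 5, 1], .l [6, 4, 5, 3, 4], .l [8, 6, 7, 5, 6], .l [1, 5, 9, 7, 1], .l [6, 4, 5, 3, 6], .l [0, 9, 9, 3, 2], .l [8, 6, 7, 5, 8], .l [0, 9, 11, 5, 2], .l [0, 9, 5, 10, 4, 2, 3]]),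
([p 3 1, s 4 2, g, s 2 0, g, p 0 3, p 5 0, g, p 0 4, g, p 0 5, p 6 0, g, p 0 6, g, s 1 0, g], .hi 6, [.l [8, 4, 9, 2, 9, 4, 7], .l [5, 3, 9, 5, 7, 3, 8, 4, 1], .l [8, 4], .l [8, 2, 9, 2, 9, 2, 7], .l [3, 7, 3, 9, 4, 7, 4, 8, 9, 8, 2, 4, 7], .l [8, 2], .l [3, 5, 1, 7, 4, 5, 2, 6, 7, 6, 2, 2, 5], .l [2, 8, 1, 10, 8, 2, 2, 11], .l [6, 7], .l [8, 1], .l [6, 7], .l [0, 10, 3, 11, 7, 4, 7], .l [6, 9], .l [10, 3], .y [6, 10], .l [6, 12, 14, 12, 9], .l [6, 12], .l [13, 6], .l [6, 12], .l [8, 6, 14, 9, 2, 8, 4], .l [6, 14], .l [15, 8], .l [8, 6, 16, 11, 2, 10, 6], .l [6, 16], .l [17, 10]]),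
([p 3 1, s 4 2, g, s 2 0, g, p 0 3, p 5 0, g, p 0 4, g, p 0 5, p 0 0, g, s 1 0, g], .lo 11, [.l [15, 14, 3, 13, 7, 9, 6, 8, 6, 7], .l [3, 12], .l [2, 7, 4, 11], .l [2, 5, 2, 2, 6, 3, 3, 6, 3], .l [15, 14, 1, 13, 7, 11, 8, 10, 8, 3], .l [5, 12], .l [4, 7, 2, 11], .l [6, 10], .l [8, 12, 9], .l [8, 12], .l [8, 0, 12, 9], .l [10, 12, 7], .l [10, 12], .l [10, 0, 12, 7], .y [11], .l [15, 14, 1, 13, 9, 11, 8, 10, 8, 1], .r 1843 [1, 2, 3, 4, 5, 6] [1, 1, 1, 1, 1, 1, 1], .l [15, 14, 1, 13, 9, 11, 8, 10, 8, 1], .l [13, 12, 1, 11, 7, 9, 6, 8, 6, 1], .l [13, 12, 1, 11, 7, 9, 6, 8, 6, 7], .l [2, 8, 9, 6, 2, 2, 8, 10, 8, 3], .l [13, 12, 1, 11, 7, 9, 6, 8, 6, 7]]),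
([p 3 1, s 4 2, g, s 2 0, g, p 0 3, p 5 0, g, p 0 4, g, p 0 5, s 0 6, g, m 6 0, g, s 1 0, g], .lo 11, [.l [17, 16, 3, 15, 9, 11, 8, 10, 8, 9], .l [13, 9, 6, 9, 12, 10, 4], .l [17, 16, 3, 15, 9, 11, 8, 10, 8, 9], .l [15, 14, 1, 13, 9, 11, 8, 10, 8, 5], .l [17, 16, 1, 15, 9, 13, 10, 12, 10, 5], .l [17, 16, 1, 15, 9, 13, 10, 12, 10, 5], .l [4, 10, 11, 8, 2, 9, 5], .l [6, 10, 9], .l [8, 12, 9], .l [8, 12, 9], .l [0, 7, 17, 9, 4, 13, 4], .l [10, 12, 7], .l [10, 12, 7], .l [0, 9, 17, 7, 2, 11, 4], .l [17, 16, 1, 15, 11, 13, 10, 12, 10, 1], .l [0, 8, 6, 14, 3, 6, 9, 6, 1], .l [17, 16, 1, 15, 11, 13, 10, 12, 10, 1], .y [11, 13], .l [17, 16, 1, 15, 11, 13, 10, 12, 10, 3], .l [0, 8, 6, 14, 3, 6, 9, 6, 1], .l [17, 16, 1, 15, 11, 13, 10, 12,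 10, 3], .l [15, 14, 1, 13, 9, 11, 8, 10, 8, 3], .l [15, 14, 1, 13, 9, 11, 8, 10, 8, 9], .l [0, 8, 6, 16, 5, 8, 11, 8, 3], .l [15, 14, 1, 13, 9, 11, 8, 10, 8, 9]]),
([p 3 1, s 4 2, g, s 2 0, g, p 0 3, p 5 0, g, p 0 4, g, p 0 5, s 0 0, g, s 1 0, g], .hi 11, [.l [15, 14, 3, 13, 7, 9, 6, 8, 6, 7], .l [15, 14, 3, 13, 7, 9, 6, 8, 6, 7], .l [3, 12, 9, 7, 9, 6, 3], .l [15, 14, 1, 13, 7, 11, 8, 10, 8, 3], .l [4, 10, 11, 8, 2, 9, 5], .l [15, 14, 1, 13, 7, 11, 8, 10, 8, 3], .l [4, 8, 9, 6, 0, 7, 5], .l [8, 12, 9], .l [0, 7, 15, 7, 4, 11, 4], .l [8, 12, 9], .l [0, 7, 13, 5, 2, 9, 4], .l [10, 12, 7], .l [0, 9, 15, 5, 2, 9, 4], .l [10, 12, 7], .l [0, 9, 13, 3, 0, 7, 4], .y [11], .l [15, 14, 1, 13, 9, 11, 8, 10, 8, 1], .l [15, 14, 1, 13, 9, 11,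 8, 10, 8, 1], .r 1845 [1, 2, 3, 4, 5, 6] [1, 1, 1, 1, 1, 1, 1], .l [13, 12, 1, 11, 7, 9, 6, 8, 6, 7], .l [13, 12, 1, 11, 7, 9, 6, 8, 6, 7], .l [2, 8, 9, 6, 2, 2, 8, 10, 8, 3]]),
([p 3 1, s 4 2, g, s 2 0, g, p 0 3, p 5 0, g, p 0 4, g, p 0 5, g, s 1 0, g], .top 11, [.l [2, 8, 9, 6, 2, 2, 6, 3], .r 1846 [1, 2, 3, 4, 5] [1, 1, 1, 1, 1, 1], .r 1844 [1, 2, 3, 4, 5] [1, 1, 1, 1, 1, 1], .r 1819 [3, 5] [4, 3, 3]]),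
([p 3 1, s 4 2, g, s 2 0, g, p 0 3, g, p 0 4, s 0 5, g, m 5 0, g, s 1 0, g], .lo 8, [.l [3, 9, 6, 11], .l [3, 9, 6], .l [2, 7, 4, 7, 1], .l [2, 5, 2, 5, 1, 6, 1, 1, 2, 3], .l [5, 9, 4, 11], .l [5, 9, 4], .l [4, 7, 2, 7, 3], .l [7, 9, 2, 11], .l [7, 9, 2], .l [12, 1, 4, 2, 7], .l [14, 13, 1, 12, 8, 10, 8, 1], .l [10, 1, 11, 9, 5], .l [14, 13, 1, 12, 8, 10, 8, 1], .y [8, 10], .l [14, 13, 1, 12, 8, 10, 8, 3], .l [10, 1, 11, 9, 5], .l [14, 13, 1, 12, 8, 10, 8, 3], .l [12, 11, 1, 10, 6, 8, 6, 3], .l [12, 11, 1, 10, 6, 8, 6, 7], .l [10, 1, 13, 11, 5], .l [12, 11, 1, 10, 6, 8, 6, 7]]),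
([p 3 1, s 4 2, g, s 2 0, g, p 0 3, g, p 0 4, s 0 0, g, s 1 0, g], .hi 8, [.l [3, 9, 6, 9], .l [2, 7, 4, 7, 1], .l [3, 9, 6], .l [5, 9, 4, 9], .l [4, 7, 2, 7, 3], .l [5, 9, 4], .l [4, 5, 0, 5, 3], .l [7, 9, 2, 9], .l [0, 11, 4, 2, 7, 3, 6, 3], .l [7, 9, 2], .l [0, 9, 2, 0, 5, 3, 4, 1], .y [8], .l [12, 11, 1, 10, 6, 8, 6, 1], .l [12, 11, 1, 10, 6, 8, 6, 1], .r 1848 [1, 2, 3, 4, 5] [1, 1, 1, 1, 1, 1], .l [10, 9, 1, 8, 4, 6, 4, 5], .l [10, 9, 1, 8, 4, 6, 4, 5], .l [0, 9, 11, 9, 5, 3, 4, 1]]),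
([p 3 1, s 5 2, g, s 2 0, g, p 0 3, p 4 0, g, p 0 4, g, p 0 5, m 0 6, g, m 6 0, g, s 1 0, g], .hi 6, [.l [8, 4, 11, 4, 0, 6, 3], .l [13, 15, 14, 10, 11, 5, 9, 8, 8, 6, 4, 2, 7], .l [8, 4], .l [8, 2, 11, 4, 0, 8, 5], .l [13, 15, 14, 10, 11, 5, 7, 6, 6, 4, 6, 4, 7], .l [8, 2], .l [11, 13, 12, 8, 9, 5, 5, 4, 4, 2, 4, 2, 5], .l [2, 8, 1, 8, 6, 2, 2, 10], .l [6, 7], .l [8, 1], .y [6, 8], .l [13, 3, 6, 14, 10, 6, 7, 3, 8], .l [6, 9], .l [10, 3], .l [6, 9], .l [11, 4], .l [6, 12, 14, 12, 4], .l [6, 12], .l [13, 6], .l [10, 8, 4, 12, 14, 9, 3, 8, 2, 5], .l [6, 14], .l [15, 8], .l [3, 1, 16, 10, 3, 13, 4, 10, 8, 1], .l [6, 16], .l [17, 10]]),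
([p 3 1, s 5 2, g, s 2 0, g, p 0 3, p 4 0, g, p 0 4, g, p 0 5, m 0 0, g, s 1 0, g], .hi 11, [.l [2, 7, 4, 11, 5], .l [0, 14, 11, 9, 10], .l [3, 12], .l [4, 7, 2, 11, 7], .l [0, 14, 9, 7, 10], .l [5, 12], .l [0, 12, 7, 5, 8], .l [8, 12, 4], .l [0, 14, 6, 4, 10], .l [8, 12], .l [0, 12, 4, 2, 8], .l [10, 12, 2], .l [0, 14, 4, 2, 10], .l [10, 12], .l [0, 12, 2, 0, 8], .y [11], .l [15, 14, 1, 13, 9, 11, 6, 1], .l [15, 14, 1, 13, 9, 11, 6, 1], .r 1850 [1, 2, 3, 4, 5, 6] [1, 1, 1, 1, 1, 1, 1], .l [13, 12, 1, 11, 7, 9, 4, 9], .l [13, 12, 1, 11, 7, 9, 4, 9], .l [0, 12, 14, 12, 8]]),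
([p 3 1, s 5 2, g, s 2 0, g, p 0 3, p 4 0, g, p 0 4, g, p 0 5, p 6 0, g, p 0 6, g, s 1 0, g], .hi 6, [.l [8, 4, 11, 4, 0, 6, 3], .l [13, 15, 14, 10, 11, 5, 9, 8, 8, 6, 4, 2, 7], .l [8, 4], .l [8, 2, 11, 4, 0, 8, 5], .l [13, 15, 14, 10, 11, 5, 7, 6, 6, 4, 6, 4, 7], .l [8, 2], .l [11, 13, 12, 8, 9, 5, 5, 4, 4, 2, 4, 2, 5], .l [2, 8, 1, 8, 6, 2, 2, 10], .l [6, 7], .l [8, 1], .y [6, 8], .l [13, 3, 6, 14, 10, 6, 7, 3, 8], .l [6, 9], .l [10, 3], .l [6, 9], .l [6, 12, 14, 12, 4], .l [6, 12], .l [13, 6], .l [6, 12], .l [10, 8, 4, 12, 14, 9, 3, 8, 2, 5], .l [6, 14], .l [15, 8], .l [3, 1, 16, 10, 3, 13, 4, 10, 8, 1], .l [6, 16], .l [17, 10]]),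
([p 3 1, s 5 2, g, s 2 0, g, p 0 3, p 4 0, g, p 0 4, g, p 0 5, p 0 0, g, s 1 0, g], .lo 11, [.l [2, 7, 4, 11, 5], .l [3, 12], .l [0, 14, 11, 9, 10], .l [0, 5, 4, 1, 1, 7, 6], .l [4, 7, 2, 11, 7], .l [5, 12], .l [0, 14, 9, 7, 10], .l [6, 10], .l [8, 12, 4], .l [8, 12], .l [0, 14, 6, 4, 10], .l [10, 12, 2], .l [10, 12], .l [0, 14, 4, 2, 10], .y [11], .l [15, 14, 1, 13, 9, 11, 6, 1], .r 1852 [1, 2, 3, 4, 5, 6] [1, 1, 1, 1, 1, 1, 1], .l [15, 14, 1, 13, 9, 11, 6, 1], .l [0, 12, 12, 10, 8], .l [13, 12, 1, 11, 7, 9, 4, 9], .l [0, 12, 14, 12, 8], .l [13, 12, 1, 11, 7, 9, 4, 9]]),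
([p 3 1, s 5 2, g, s 2 0, g, p 0 3, p 4 0, g, p 0 4, g, p 0 5, g, s 1 0, g], .top 11, [.l [0, 10, 8], .r 1849 [1, 2, 3, 5] [1, 1, 4, 1, 1], .r 1853 [1, 2, 3, 4, 5] [1, 1, 1, 1, 1, 1], .r 1851 [1, 2, 3, 4, 5] [1, 1, 1, 1, 1, 1]]),
([p 3 1, s 4 2, g, s 2 0, g, p 0 3, p 0 0, g, p 0 4, g, s 1 0, g], .lo 6, [.l [3, 7, 3], .l [3, 7], .l [0, 11, 8, 4, 8], .l [1, 2, 2, 3, 1], .l [5, 7, 1], .l [5, 7], .l [0, 11, 6, 2, 8], .y [6], .l [10, 8, 9, 5, 1], .r 1854 [1, 2, 3, 5, 4] [1, 1, 1, 1, 1, 1], .l [10, 8, 9, 5, 1], .l [8, 6, 7, 3, 6], .r 1847 [1, 2, 3, 4, 5] [1, 1, 1, 1, 1, 1], .l [8, 6, 7, 3, 6], .l [0, 9, 9, 5, 4], .l [8, 6, 7, 3, 8], .l [0, 9, 11, 7, 4], .l [0, 9, 3, 10, 6, 4, 5]])]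

def d07_1 : List (List Item × Qry × List Rf) := [
([p 2 1, s 3 0, g, p 0 2, p 0 0, g, p 0 3, g, s 1 0, g], .hi 1, [.r 1855 [1, 4, 2, 3] [1, 1, 1, 1, 1], .l [2, 5, 2, 2, 7], .l [3, 1, 7, 5, 6], .l [2, 3, 0, 0, 5], .l [0, 3, 2, 2, 5], .r 1842 [1, 4, 2, 3] [1, 1, 1, 1, 1], .l [10, 9, 4], .l [6, 4, 5, 3, 5, 2, 5], .y [1, 6], .r 1832 [1, 4, 2, 3] [1, 1, 1, 1, 1], .l [10, 9, 6], .l [6, 4, 5, 3, 5, 2, 5], .r 1836 [1, 4, 2, 3] [1, 1, 1, 1, 1], .l [8, 7, 8], .l [6, 4, 5, 3, 7, 4, 1]]),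
([p 5 1, s 3 2, g, p 0 3, s 0 4, g, m 4 0, g, s 2 0, g, p 0 5, g, s 1 0, g], .lo 4, [.l [2, 12, 9, 2, 8, 9], .l [3, 5, 2], .l [2, 12, 9, 2, 8], .l [3, 1, 11, 8, 1, 5, 6, 7], .l [6, 1, 7, 5, 1], .l [3, 1, 11, 8, 1], .y [4, 6], .l [3, 1, 11, 8, 3, 5, 6, 7], .l [6, 1, 7, 5, 1], .l [3, 1, 11, 8, 3], .l [3, 1, 9, 6, 3, 3, 4, 5], .l [1, 7, 9, 5, 2, 9], .l [6, 1, 9, 7, 1], .l [3, 1, 11, 8, 5], .l [1, 7, 11, 7, 2, 9], .l [6, 1, 11, 9, 1], .l [3, 1, 9, 6, 8], .l [0, 11, 11, 3, 1, 4, 1, 6, 4, 1], .l [0, 11, 13, 5, 1, 6, 1, 8, 4, 1], .l [6, 1, 13, 11, 1], .l [3, 1, 9, 6, 10]]),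
([p 4 1, s 3 2, g, p 0 3, s 0 0, g, s 2 0, g, p 0 4, g, s 1 0, g], .hi 4, [.l [2, 10, 7, 2, 6, 7], .l [2, 10, 7, 2, 6], .l [3, 5, 2], .l [2, 8, 5, 0, 4], .y [4], .l [3, 1, 9, 6, 1, 3, 4, 5], .l [3, 1, 9, 6, 1], .r 1857 [1, 2, 3, 5, 4] [1, 1, 1, 1, 1, 1], .l [1, 5, 7, 5, 2, 7], .l [3, 1, 9, 6, 3], .l [1, 5, 7, 5, 2, 7], .l [3, 1, 7, 4, 3], .l [1, 5, 9, 7, 2, 7], .l [3, 1, 7, 4, 6], .l [1, 5, 9, 7, 2, 7], .l [1, 5, 11, 9, 2, 5], .l [3, 1, 7, 4, 8], .l [1, 5, 11, 9, 2, 5]]),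
([p 3 0, s 2 1, g, p 0 2, s 0 0, g, s 1 0, g, p 0 3, g], .hi 0, [.r 1672 [4, 2, 3] [1, 1, 3, 1], .l [0, 2], .l [3, 2], .l [0, 2], .l [0, 3, 1], .r 1556 [4, 2, 3] [1, 2, 3, 1], .l [0, 5], .l [6, 5], .r 1556 [4, 2, 3] [1, 4, 1, 1], .l [0, 7], .l [8, 7], .y [0, 8], .r 1858 [4, 1, 2, 3] [1, 1, 1, 1, 1], .l [0, 9], .l [10, 9]]),
([p 3 0, s 2 1, g, p 0 2, m 0 0, g, s 1 0, g, p 0 3, g], .hi 4, [.l [2, 10, 7, 2, 6], .l [0, 10, 9, 6, 4, 2, 3], .l [3, 5], .l [0, 8, 7, 4, 2, 0, 1], .y [4], .l [3, 1, 9, 6, 1], .l [3, 1, 9, 6, 1], .r 1287 [2, 4, 3] [1, 1, 3, 1], .l [3, 1, 9, 6, 3], .l [3, 1, 9, 6, 3], .l [0, 10, 9, 4, 6, 4, 1], .l [3, 1, 7, 4, 3], .l [3, 1, 7, 4, 6], .l [3, 1, 7, 4, 6], .l [0, 8, 7, 4, 8, 6, 1]]),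
([p 3 0, s 2 1, g, p 0 2, p 0 0, g, s 1 0, g, p 0 3, g], .lo 4, [.l [0, 3], .l [2, 10, 7, 2, 6], .l [3, 5], .l [0, 10, 9, 6, 4, 2, 3], .y [4], .l [3, 1, 9, 6, 1], .r 1303 [2, 4, 3] [1, 1, 3, 1], .l [3, 1, 9, 6, 1], .l [0, 8, 7, 4, 4, 2, 1], .l [3, 1, 9, 6, 3], .l [0, 10, 9, 4, 6, 4, 1], .l [3, 1, 9, 6, 3], .l [3, 1, 7, 4, 6], .l [0, 8, 7, 4, 8, 6, 1], .l [3, 1, 7, 4, 6]]),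
([p 3 0, s 2 1, g, p 0 2, g, s 1 0, g, p 0 3, g], .top 4, [.l [0, 6, 5, 2, 1], .r 1859 [1, 2, 3] [1, 1, 1, 1], .r 1861 [1, 2, 3] [1, 1, 1, 1], .r 1860 [1, 2, 3] [1, 1, 1, 1]]),
([p 5 1, s 3 2, g, s 2 0, g, p 0 3, s 0 4, g, p 0 5, g, s 1 0, g, m 4 0, g], .lo 6, [.l [2, 10, 7, 4, 6, 7], .l [3, 7, 4], .l [2, 10, 7, 4, 6], .l [2, 8, 5, 2, 4, 5], .l [4, 10, 5, 2, 4, 7], .l [5, 7, 2], .l [4, 10, 5, 2, 4], .l [3, 1, 7, 1, 11, 9, 2, 5], .l [8, 1, 13, 11, 3], .l [5, 3, 9, 4, 1], .l [3, 1, 7, 4, 9, 4, 6, 3], .l [10, 3, 9, 7, 11, 9, 3], .l [5, 3, 7, 2, 6], .l [0, 9, 11, 7, 3, 6, 1, 6, 4, 1], .l [3, 1, 7, 4, 7, 2, 4, 5], .l [12, 5, 11, 9, 11, 7, 3], .l [5, 3, 7, 2, 8], .y [6, 12], .l [0, 9, 13, 9, 3, 8, 1, 8, 4, 1], .l [12, 5, 11, 9, 11, 7,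 3], .l [5, 3, 7, 2, 10]]),
([p 5 1, s 3 2, g, s 2 0, g, p 0 3, s 0 4, g, m 4 0, g, p 0 5, g, s 1 0, g], .lo 6, [.l [2, 12, 9, 4, 8, 9], .l [3, 7, 4], .l [2, 12, 9, 4, 8], .l [2, 10, 7, 2, 6, 7], .l [4, 12, 7, 2, 6, 9], .l [5, 7, 2], .l [4, 12, 7, 2, 6], .l [3, 1, 7, 1, 7, 5, 2, 7], .l [8, 1, 9, 7, 3], .l [5, 3, 11, 6, 1], .y [6, 8], .l [3, 1, 11, 8, 11, 2, 8, 3], .l [8, 1, 9, 7, 3], .l [5, 3, 11, 6, 3], .l [3, 1, 9, 6, 11, 4, 8, 5], .l [8, 1, 11, 9, 3], .l [5, 3, 9, 4, 8], .l [0, 11, 11, 5, 3, 6, 1, 6, 4, 1], .l [0, 11, 13, 7, 3, 8, 1, 8, 4, 1], .l [8, 1, 13, 11, 3], .l [5, 3, 9, 4, 10]]),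
([p 4 1, s 3 2, g, s 2 0, g, p 0 3, s 0 0, g, p 0 4, g, s 1 0, g], .hi 6, [.l [2, 10, 7, 4, 6, 7], .l [2, 10, 7, 4, 6], .l [3, 7, 4], .l [4, 10, 5, 2, 4, 7], .l [4, 10, 5, 2, 4], .l [5, 7, 2], .l [4, 8, 3, 0, 2], .y [6], .l [3, 1, 9, 6, 9, 2, 6, 1], .l [5, 3, 9, 4, 1], .r 1864 [1, 2, 3, 5, 4] [1, 1, 1, 1, 1, 1], .l [5, 3, 7, 2, 1], .l [3, 1, 7, 4, 9, 4, 6, 3], .l [5, 3, 7, 2, 6], .l [3, 1, 7, 4, 9, 4, 6, 3], .l [3, 1, 7, 4, 7, 2, 4, 5], .l [5, 3, 7, 2, 8], .r 1863 [1, 2, 3, 5, 4] [1, 1, 1, 1, 1, 1]]),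
([p 4 1, s 3 2, g, s 2 0, g, p 0 3, g, p 0 4, p 0 0, g, s 1 0, g], .top 6, [.r 1129 [3, 4] [0, 3, 4], .r 1865 [1, 2, 3, 4] [1, 1, 1, 2, 1], .r 1665 [3, 4] [3, 1, 3], .r 1679 [3, 4] [3, 1, 3]]),
([p 3 0, s 2 1, g, s 1 0, g, p 0 2, g, p 0 3, p 0 0, g], .hi 0, [.r 989 [4, 1, 3] [1, 1, 3, 2], .l [0, 2], .l [3, 2], .r 1053 [4, 1, 3] [1, 1, 3, 2], .l [0, 4], .l [5, 4], .l [0, 4], .r 1053 [4, 1, 3] [1, 3, 1, 2], .l [0, 6], .l [7, 6], .y [0, 7], .l [0, 7], .r 1866 [4, 1, 2, 3] [1, 1, 1, 1, 1], .l [0, 9], .l [10, 9]]),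
([p 2 0, s 1 0, g, p 0 1, g, p 0 2, p 0 0, g], .hi 1, [.r 1867 [3, 1, 2] [1, 1, 1, 1], .r 454 [3] [1, 6], .r 854 [3, 2] [1, 3, 2], .y [1, 3], .r 1862 [3, 1, 2] [1, 1, 1, 2], .r 454 [3] [3, 4], .r 854 [3, 2] [3, 1, 2], .r 454 [3] [3, 2], .l [1, 5, 3], .r 1680 [3, 1, 2] [1, 1, 1, 1], .r 454 [3] [6, 1], .r 853 [3, 2] [3, 2, 1]]),
([p 2 1, s 7 0, g, s 3 0, g, p 0 2, p 4 3, g, p 5 4, p 6 5, g, p 0 6, g, s 1 0, g, s 0 7, g], .lo 11, [.l [0, 5, 4, 9, 9, 7, 7, 6, 6, 4, 5], .l [3, 12, 12, 10, 10, 9, 9, 7, 3], .l [3, 12], .l [0, 14, 11, 9, 9, 7, 7, 6, 6, 4, 6], .y [3, 11, 9, 8, 6], .l [5, 12, 12, 10, 10, 9, 9, 7, 1], .l [5, 12], .l [0, 14, 9, 7, 7, 5, 5, 4, 4, 2, 6], .l [8, 12, 12, 10, 7], .l [8, 12], .l [8, 0, 12, 12, 10, 7], .l [1, 6,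 2, 14, 9, 13, 8, 1, 3, 4, 6, 3], .l [11, 12], .l [6, 2, 16, 11, 0, 13, 10, 10, 9, 9, 5, 7, 1], .l [10, 17, 7, 11, 10, 1, 10, 2, 8, 9, 2, 5], .l [6, 2, 16, 11, 0, 13, 10, 10, 9, 9, 7, 7, 5], .l [1, 16, 5, 1, 13, 9, 11, 9, 9, 8, 8, 6, 3], .l [0, 12, 12, 10, 10, 8, 8, 7, 7, 5, 4], .l [0, 12, 14, 12, 12, 10, 10, 9, 9, 7, 4], .l [0, 12, 14, 12, 12, 10, 10, 9, 9, 7, 4], .l [0, 12, 1, 12, 9, 10, 9, 9, 7, 4, 9, 3, 1], .l [0, 12, 16, 14, 14, 12, 12, 11, 11, 9, 4], .l [0, 12, 16, 14, 14, 12, 12, 11, 11, 9, 4], .l [0, 12, 16, 0, 14, 14, 12, 12, 11, 11, 9, 4, 5]]),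
([p 1 0, g, p 0 1, p 2 0, g, p 4 2, p 5 3, g, s 3 0, g, p 0 4, g, p 0 5, g], .hi 0, [.l [2, 1, 9, 1, 9, 6, 6, 4, 1], .l [0, 1], .l [2, 1], .y [0, 2], .l [0, 4, 6, 4, 1], .l [0, 4], .l [5, 4], .l [0, 7, 11, 8, 8, 6, 1], .l [0, 7], .l [8, 7], .l [0, 9, 11, 6, 6, 4, 1], .l [0, 9], .l [10, 9], .l [0, 9], .l [0, 11, 13, 7, 11, 10, 10, 8, 1], .l [0, 11], .l [12, 11], .l [0, 11], .l [6, 10, 8, 9, 2, 11, 6, 6, 4, 6, 3], .l [0, 13], .l [14, 13]]),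
([p 1 0, g, s 6 0, g, s 2 0, g, p 0 1, p 3 2, g, p 4 3, p 5 0, g, p 0 4, g, p 0 5, g, s 0 6, g], .hi 10, [.l [9, 2, 11, 4, 1, 7, 4], .l [9, 2, 11, 4, 1, 7, 4], .l [12, 9], .l [9, 2, 11, 6, 3, 7, 2], .l [9, 2, 11, 6, 3, 7, 2], .l [12, 7], .l [12, 5, 2, 5, 13, 11, 2], .l [9, 4, 17, 10, 1, 11, 8, 12, 11, 7, 5, 9, 7], .l [12, 5], .l [7, 2, 15, 10, 1, 11, 8, 10, 9, 7, 5, 7, 5], .l [7, 2, 11, 2, 13, 9, 4, 10, 1], .l [7, 2, 17, 12, 1, 13, 8, 10, 9, 7, 5, 7, 5], .l [12, 2], .r 1870 [1, 3, 7, 4, 5] [5, 1, 1, 1, 1, 3], .l [10, 11], .l [12, 1], .l [10, 11], .l [7, 2, 13, 3, 13, 9, 0, 10, 8, 4, 7], .l [10, 13], .l [14, 3], .y [10, 14], .l [7, 2, 9, 13, 10, 4, 8, 10, 1], .l [10, 15], .l [16, 5], .l [7, 2, 9, 13, 10, 4, 8, 10, 1], .l [7, 2,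 9, 15, 12, 4, 8, 12, 3], .l [10, 17], .l [18, 7]]),
([p 2 1, s 6 0, g, s 3 0, g, p 0 2, p 4 3, g, p 0 4, p 5 0, g, p 0 5, g, s 1 0, g, s 0 6, g], .lo 8, [.l [0, 5, 4, 6, 6, 4, 9], .l [3, 9, 9, 7, 3], .l [3, 9], .l [0, 14, 11, 6, 6, 4, 10], .y [3, 8, 6], .l [5, 9, 9, 7, 1], .l [5, 9], .l [0, 14, 9, 4, 4, 2, 10], .l [11, 3, 1, 16, 6, 3, 10, 2, 6, 4, 8, 1], .l [8, 9], .l [9, 8, 16, 9, 2, 9, 6], .r 1869 [1, 2, 3, 4, 7, 5, 6] [1, 1, 1, 1, 1, 1, 1], .l [7, 17, 10, 14, 13, 2, 4, 2, 10, 5], .r 1871 [2, 3, 4, 7, 5, 6] [0, 1, 1, 1, 1, 1, 3, 1], .l [15, 14, 15, 8, 2, 4, 2, 4, 6, 1], .l [15, 14, 15, 8, 4, 6, 7, 4], .l [9, 13, 11, 16, 9, 2, 4, 12, 9], .l [15, 14, 15, 8, 4, 6, 7, 4], .l [0, 12, 12, 7, 7, 5, 4], .l [0, 12, 14, 9, 9, 7, 4], .l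 [0, 12, 14, 9, 9, 7, 4], .l [6, 2, 8, 1, 12, 9, 3, 9, 3], .l [0, 12, 16, 11, 11, 9, 4], .l [0, 12, 16, 11, 11, 9, 4], .l [6, 2, 8, 1, 14, 11, 3, 11, 5]]),
([p 2 1, s 5 0, g, s 3 0, g, p 0 2, p 4 3, g, p 0 4, p 0 0, g, s 1 0, g, s 0 5, g], .lo 9, [.l [11, 10, 7], .l [2, 8, 2, 1, 4, 7, 4], .l [3, 10], .l [2, 7, 4, 9], .l [6, 2, 2, 6, 5], .l [4, 8, 9, 8, 2, 7, 1], .l [5, 10], .l [4, 7, 2, 9], .l [8, 10, 7], .l [8, 10], .l [8, 0, 10, 7], .y [9], .l [6, 2, 14, 9, 0, 11, 8, 1], .r 1872 [1, 2, 3, 4, 6, 5] [1, 1, 1, 1, 1, 1, 1], .l [6, 2, 14, 9, 0, 11, 8, 1], .l [6, 2, 12, 7, 0, 9, 6, 1], .l [6, 2, 14, 9, 0, 11, 8, 3], .l [11, 10, 10, 5, 0, 6, 10, 6, 1], .l [6, 2, 14, 9, 4, 1, 5, 1, 8, 5], .l [6, 2, 12, 7, 0, 9, 6, 9], .l [6, 2, 5, 3,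 2, 9, 11, 7, 2, 7], .l [6, 2, 12, 7, 0, 9, 6, 9]]),
([p 2 1, s 6 0, g, s 3 0, g, p 0 2, p 4 3, g, p 0 4, s 0 5, g, m 5 0, g, s 1 0, g, s 0 6, g], .lo 9, [.l [6, 2, 5, 3, 2, 5, 2, 7], .l [8, 2, 16, 9, 0, 13, 10, 7], .l [11, 7, 10, 6, 0, 7, 9, 4, 1], .l [2, 8, 2, 1, 4, 7, 4], .l [2, 6, 2, 1, 2, 5, 4], .l [8, 4, 16, 9, 0, 11, 8, 11], .l [8, 4, 16, 9, 0, 11, 8, 11], .l [4, 8, 9, 8, 2, 7, 1], .l [8, 10, 7], .l [8, 10, 7], .l [7, 17, 10, 14, 13, 2, 12, 5], .l [6, 2, 16, 11, 0, 13, 10, 1], .l [0, 6, 2, 12, 3, 6, 9, 6, 1], .l [6, 2, 16, 11, 0, 13, 10, 1], .y [9, 11], .l [6, 2, 16, 11, 0, 13, 10, 3], .l [0, 6, 2, 12, 3, 6, 9, 6, 1], .l [6, 2, 8, 10, 7, 3, 5, 7, 1], .l [6, 2, 14, 9, 0, 11, 8, 3], .l [6, 2, 16, 11, 0, 13, 10, 5], .l [0, 6,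 2, 14, 5, 8, 11, 8, 3], .l [6, 2, 8, 12, 9, 3, 5, 9, 3], .l [6, 2, 14, 9, 0, 11, 8, 11], .l [0, 6, 2, 16, 7, 10, 13, 10, 5], .l [6, 2, 8, 14, 11, 3, 5, 11, 5]]),
([p 2 1, s 5 0, g, s 3 0, g, p 0 2, p 4 3, g, p 0 4, s 0 0, g, s 1 0, g, s 0 5, g], .hi 9, [.l [8, 2, 14, 7, 0, 11, 8, 5], .l [2, 8, 2, 1, 4, 7, 4], .l [3, 10, 4, 2, 3, 2, 3], .l [8, 4, 14, 7, 0, 9, 6, 9], .l [4, 8, 9, 8, 2, 7, 1], .l [8, 4, 14, 7, 0, 9, 6, 9], .l [4, 6, 7, 6, 0, 5, 1], .l [8, 10, 7], .l [7, 15, 8, 12, 11, 2, 10, 5], .l [8, 10, 7], .l [7, 13, 6, 10, 9, 0, 8, 5], .y [9], .l [6, 2, 14, 9, 0, 11, 8, 1], .l [6, 2, 14, 9, 0, 11, 8, 1], .r 1874 [1, 2, 3, 4, 6, 5] [1, 1, 1, 1, 1, 1, 1], .l [6, 2, 14, 9, 0, 11, 8, 3], .l [6, 2, 14, 9, 0, 11, 8, 3], .l [6, 2, 14,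 9, 4, 6, 2, 9, 4, 5], .l [6, 2, 12, 7, 0, 9, 6, 3], .l [6, 2, 12, 7, 0, 9, 6, 9], .l [6, 2, 12, 7, 0, 9, 6, 9], .l [6, 2, 5, 3, 2, 9, 11, 7, 2, 7]]),
([p 2 1, s 5 0, g, s 3 0, g, p 0 2, p 4 3, g, p 0 4, g, s 1 0, g, s 0 5, g], .top 9, [.l [6, 2, 10, 5, 0, 7, 4, 5], .r 1875 [1, 2, 3, 4, 5] [1, 1, 1, 1, 1, 1], .r 1873 [1, 2, 3, 4, 5] [1, 1, 1, 1, 1, 1], .r 1819 [2, 4] [4, 1, 5]]),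
([p 2 1, s 4 0, g, s 3 0, g, p 0 2, p 0 3, g, s 1 0, g, s 0 4, g], .lo 6, [.l [0, 5, 4, 4, 5], .l [3, 7, 3], .l [3, 7], .l [0, 9, 6, 4, 6], .y [3, 6], .l [5, 7, 1], .l [5, 7], .l [0, 9, 4, 2, 6], .l [6, 2, 5, 3, 4], .r 1876 [1, 2, 3, 5, 4] [1, 1, 1, 1, 1, 1], .l [6, 2, 5, 3, 4], .l [0, 7, 7, 5, 4], .l [6, 2, 5, 3, 6], .l [0, 7, 9, 7, 4], .l [6, 2, 5, 3, 6], .l [6, 2, 5, 3, 8], .l [0, 7, 11, 9, 4], .l [6, 2, 5, 3, 8]]),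
([p 2 1, s 6 0, g, p 3 0, g, p 0 2, p 5 3, s 0 4, g, m 4 0, g, p 0 5, g, s 1 0, g, s 0 6, g], .lo 7, [.l [1, 6, 10, 9, 3], .l [3, 8, 12, 11, 3], .l [3, 8, 12, 11, 3], .l [11, 1, 12, 9, 9, 6, 1, 7, 3], .l [3, 6, 5], .l [5, 8, 5], .l [5, 8, 5], .l [11, 1, 12, 9, 2, 9, 4], .l [0, 9, 1, 12, 9, 4, 6, 8, 3], .l [0, 9, 1, 12, 9, 4, 6, 8, 3], .l [15, 14, 14, 9, 11, 10, 1], .y [7, 9], .l [16, 1, 14, 14, 9, 11, 10, 3], .l [0, 9, 1, 12, 9, 4, 6, 8, 3], .l [15, 14, 14, 9, 11, 10, 3], .l [13, 5, 6, 2, 15, 4, 1, 9, 10, 5], .l [13, 5, 6, 2, 15, 4, 1, 9, 10, 5], .l [15, 14, 14, 9, 11, 10, 5], .l [13, 12, 12, 7, 9, 8, 5], .l [0, 12, 14, 8, 12, 11, 4, 11], .l [0, 12, 14, 8, 12, 11, 4], .l [13, 12, 12, 7, 9, 8, 11], .l [0, 12, 16, 10, 14, 13, 4,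 5], .l [0, 12, 16, 10, 14, 13, 4], .l [13, 12, 12, 7, 9, 8, 13]]),
([p 2 1, s 6 0, g, p 3 0, g, p 0 2, p 5 3, s 0 4, g, p 0 5, g, m 4 0, g, s 1 0, g, s 0 6, g], .hi 1, [.l [17, 15, 11, 3, 11, 12, 9, 11, 7, 2], .l [2, 7, 4, 4, 12], .l [17, 15, 11, 3, 11, 12, 9, 11, 7, 2], .l [17, 15, 11, 3, 11, 12, 7, 11, 9, 2], .l [4, 7, 2, 2, 12], .l [17, 15, 11, 3, 11, 12, 7, 11, 9, 2], .l [4, 5, 0, 0, 10], .l [1, 6, 8, 7, 3], .l [1, 8, 10, 7, 3], .l [0, 5, 4, 7, 9, 6, 10], .l [9, 7, 12, 6, 2, 6, 2], .l [0, 5, 4, 7, 7, 4, 8], .l [0, 14, 3, 11, 14, 2, 9, 11, 10, 3], .l [15, 14, 9], .r 853 [7, 2] [3, 5, 7], .l [17, 15, 9, 3, 11, 12, 9, 11, 7, 2], .l [15, 14, 11], .r 853 [7, 2] [3, 7, 5], .l [11, 3, 14, 4, 1, 13, 9, 11, 7, 2], .l [13, 12, 13], .l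 [11, 3, 14, 4, 1, 13, 9, 11, 7, 2], .y [1, 15], .l [11, 3, 14, 4, 1, 13, 9, 11, 7, 2], .l [13, 12, 15], .l [11, 3, 14, 4, 1, 13, 9, 11, 7, 2]]),
([p 2 1, s 5 0, g, p 3 0, g, p 0 2, p 4 3, s 0 0, g, p 0 4, g, s 1 0, g, s 0 5, g], .hi 7, [.l [3, 8, 10, 9, 3], .l [0, 12, 9, 5, 7, 6, 8], .l [3, 8, 10, 9, 3], .l [5, 8, 5], .l [0, 12, 7, 3, 5, 4, 8], .l [5, 8, 5], .l [0, 10, 5, 1, 3, 2, 6], .y [7], .l [14, 1, 12, 12, 7, 9, 8, 1], .l [13, 12, 12, 7, 9, 8, 1], .r 1878 [1, 2, 3, 6, 4, 5] [1, 1, 1, 1, 1, 1, 1], .l [11, 10, 10, 5, 7, 6, 1], .l [13, 12, 13, 7, 3, 5, 6, 1], .l [13, 12, 12, 7, 9, 8, 3], .r 1879 [1, 2, 3, 6, 4, 5] [1, 1, 1, 1, 1, 1, 1], .l [0, 10, 12, 8, 10, 9, 4, 9], .l [11, 10, 10, 5, 7, 6, 9], .l [0, 10, 12, 8, 10, 9, 4],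 .l [0, 10, 12, 8, 10, 9, 4, 5], .l [0, 10, 14, 10, 12, 11, 4, 5], .l [11, 10, 10, 5, 7, 6, 11], .l [0, 10, 14, 10, 12, 11, 4]]),
([p 2 1, s 6 0, g, p 3 0, g, p 0 2, p 4 3, m 0 0, g, p 5 4, g, p 0 5, g, s 1 0, g, s 0 6, g], .hi 7, [.l [3, 8, 10, 9, 3], .l [0, 14, 11, 5, 7, 6, 10], .l [3, 8], .l [5, 8, 5], .l [0, 14, 9, 3, 5, 4, 10], .l [5, 8], .l [0, 12, 7, 1, 3, 2, 8], .y [7], .l [15, 14, 14, 9, 11, 10, 1], .l [6, 11, 10, 10, 7, 9, 6, 1], .l [0, 7, 11, 9, 4, 6, 8, 3], .l [15, 14, 14, 9, 11, 10, 3], .l [6, 9, 8, 8, 5, 7, 4, 6], .l [0, 9, 13, 12, 12, 9, 4, 6, 8, 3], .l [6, 9, 8, 8, 5, 7, 4, 6], .l [15, 14, 14, 9, 11, 10, 5], .l [6, 9, 8, 8, 5, 7, 4, 8], .l [16, 1, 14, 14, 9, 11, 10, 10, 7, 7, 5, 7, 5], .l [13, 12, 12, 7, 9, 8, 11],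 .l [6, 9, 8, 8, 5, 7, 4, 10], .l [0, 12, 14, 8, 10, 9, 4], .l [1, 14, 14, 6, 8, 7, 3], .l [13, 12, 12, 7, 9, 8, 13], .l [6, 9, 8, 8, 5, 7, 4, 12], .l [0, 12, 16, 10, 12, 11, 4]]),
([p 2 1, s 5 0, g, p 3 0, g, p 0 2, p 4 3, m 0 0, g, p 0 4, g, s 1 0, g, s 0 5, g], .lo 9, [.l [0, 5, 4, 7, 7, 4, 6], .l [3, 10, 10, 7, 3], .l [3, 10], .l [0, 12, 9, 7, 7, 4, 7], .y [3, 9, 6], .l [5, 10, 10, 7, 1], .l [5, 10], .l [0, 12, 7, 5, 5, 2, 7], .l [6, 9, 8, 8, 5, 7, 4, 1], .r 1704 [1, 2, 6, 4] [3, 2, 1, 1, 3], .l [9, 10], .l [8, 11, 8, 8, 5, 7, 4, 1], .l [13, 12, 13, 5, 1, 3, 5, 2], .r 1881 [1, 2, 3, 4, 6, 5] [1, 1, 1, 1, 1, 1, 1], .l [8, 9, 6, 6, 3, 5, 2, 6], .l [0, 10, 10, 8, 8, 5, 4], .l [0, 10, 12, 10, 10, 7, 4], .l [0, 10, 12, 10, 10, 7,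 4], .l [8, 9, 6, 6, 3, 5, 2, 8], .l [0, 10, 14, 12, 12, 9, 4], .l [0, 10, 14, 12, 12, 9, 4], .l [8, 9, 6, 6, 3, 5, 2, 10]]),
([p 2 1, s 6 0, g, p 3 0, g, p 0 2, p 4 3, p 0 0, g, p 5 4, g, p 0 5, g, s 1 0, g, s 0 6, g], .lo 7, [.l [0, 5, 4, 5, 7, 6, 9], .l [3, 8, 10, 9, 3], .l [3, 8], .l [0, 14, 11, 5, 7, 6, 10], .l [3, 6], .l [5, 8, 5], .l [5, 8], .l [0, 14, 9, 3, 5, 4, 10], .y [7], .l [15, 14, 14, 9, 11, 10, 1], .l [0, 7, 11, 9, 4, 6, 8, 3], .l [6, 11, 10, 10, 7, 9, 6, 1], .l [15, 14, 14, 9, 11, 10, 3], .l [0, 9, 13, 12, 12, 9, 4, 6, 8, 3], .l [6, 9, 8, 8, 5, 7, 4, 6], .l [15, 14, 14, 9, 11, 10, 5], .l [16, 1, 14, 14, 9, 11, 10, 10, 7, 7, 5, 7, 5], .l [6, 9, 8, 8, 5, 7, 4, 8], .l [0, 12, 12, 6, 8, 7, 4], .l [13, 12, 12, 7, 9,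 8, 11], .l [0, 12, 14, 8, 10, 9, 4], .l [6, 9, 8, 8, 5, 7, 4, 10], .l [13, 12, 12, 7, 9, 8, 13], .l [0, 12, 16, 10, 12, 11, 4], .l [6, 9, 8, 8, 5, 7, 4, 12]]),
([p 2 1, s 5 0, g, p 3 0, g, p 0 2, p 4 3, p 0 0, g, p 0 4, g, s 1 0, g, s 0 5, g], .lo 9, [.l [0, 5, 4, 7, 7, 4, 6], .l [3, 10, 10, 7, 3], .l [3, 10], .l [0, 12, 9, 7, 7, 4, 7], .y [3, 9, 6], .l [5, 10, 10, 7, 1], .l [5, 10], .l [0, 12, 7, 5, 5, 2, 7], .l [7, 8], .r 1704 [1, 2, 6, 4] [3, 2, 1, 1, 3], .l [9, 10], .l [8, 11, 8, 8, 5, 7, 4, 1], .l [13, 12, 13, 5, 1, 3, 5, 2], .r 1883 [1, 2, 3, 4, 6, 5] [1, 1, 1, 1, 1, 1, 1], .l [8, 9, 6, 6, 3, 5, 2, 6], .l [0, 10, 10, 8, 8, 5, 4], .l [0, 10, 12, 10, 10, 7, 4], .l [0, 10, 12, 10, 10, 7, 4], .l [8, 9, 6, 6, 3, 5, 2, 8], .l [0,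 10, 14, 12, 12, 9, 4], .l [0, 10, 14, 12, 12, 9, 4], .l [8, 9, 6, 6, 3, 5, 2, 10]]),
([p 2 1, s 7 0, g, p 3 0, g, p 0 2, p 4 3, p 6 4, g, s 0 5, g, p 5 6, g, s 1 0, g, s 0 7, g], .lo 5, [.l [1, 14, 9, 12, 3, 1, 8, 8, 7, 7, 3, 1, 5], .l [3, 6, 14, 10, 13, 1, 8, 1, 6, 7, 1, 4, 2, 1], .l [3, 6], .l [2, 7, 4, 3], .l [3, 4], .l [0, 14, 3, 1, 7, 1, 1, 9, 10, 8, 4, 1], .l [5, 6], .l [0, 14, 9, 1, 1, 11, 12, 10, 6, 6, 5, 5, 1], .l [0, 14, 9, 3, 7, 5, 5, 4, 8], .l [0, 14, 9, 0, 12, 13, 11, 8, 8, 7, 1, 6, 1], .l [0, 14, 9, 3, 7, 5, 5, 4, 8], .l [0, 14, 9, 5, 7, 3, 3, 2, 8], .l [0, 14, 5, 3, 5, 1, 6, 2, 4, 2, 6], .l [0, 14, 9, 5, 7, 3, 3, 2, 8], .l [8, 3, 11, 4, 12, 5, 2, 6, 3, 8, 1, 3, 1], .l [15, 14, 15, 7, 1, 9, 5, 1, 3, 7, 6, 3], .l [4,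 5, 0, 11], .y [0, 13, 5], .l [0, 12, 7, 12, 6, 9, 8, 1, 7, 1, 3, 6, 3], .l [6, 15, 13, 14, 12, 3, 10, 11, 9, 6, 9, 2, 3], .l [4, 5, 0, 13], .l [0, 12, 7, 14, 8, 11, 10, 1, 9, 1, 5, 8, 3], .l [14, 1, 12, 12, 7, 9, 8, 8, 7, 7, 3, 9, 7], .l [4, 5, 0, 15]]),
([p 2 1, s 6 0, g, p 3 0, g, p 0 2, p 4 3, p 5 4, g, p 0 5, g, s 1 0, g, s 0 6, g], .lo 9, [.l [0, 5, 4, 7, 7, 5, 5, 4, 5], .l [3, 10, 10, 8, 8, 7, 3], .l [3, 10], .l [0, 12, 9, 7, 7, 5, 5, 4, 6], .y [3, 9, 7, 6], .l [5, 10, 10, 8, 5], .l [5, 10], .l [0, 12, 7, 5, 5, 3, 3, 2, 6], .r 1885 [1, 2, 3, 4, 7, 5, 6] [1, 1, 1, 1, 1, 1, 1], .l [9, 10], .l [8, 11, 9, 9, 8, 8, 5, 7, 4, 1], .l [13, 12, 13, 5, 1, 3, 5, 7, 6, 1], .l [14, 1, 12, 12, 7, 9, 8, 8, 7, 7, 5, 5, 3], .l [8, 9, 7, 7,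 6, 6, 3, 5, 2, 4], .l [0, 10, 10, 8, 8, 6, 6, 5, 4], .l [0, 10, 12, 10, 10, 8, 8, 7, 4], .l [0, 10, 12, 10, 10, 8, 8, 7, 4], .l [8, 9, 7, 7, 6, 6, 3, 5, 2, 6], .l [0, 10, 14, 12, 12, 10, 10, 9, 4], .l [0, 10, 14, 12, 12, 10, 10, 9, 4], .l [8, 9, 7, 7, 6, 6, 3, 5, 2, 8]]),
([p 2 1, s 5 0, g, p 3 0, g, p 0 2, p 4 3, p 0 4, g, s 1 0, g, s 0 5, g], .lo 7, [.l [0, 5, 4, 5, 5, 4, 5], .l [3, 8, 8, 7, 3], .l [3, 8], .l [0, 10, 7, 5, 5, 4, 6], .y [3, 7, 6], .l [5, 8, 5], .l [5, 8], .l [0, 10, 5, 3, 3, 2, 6], .l [11, 10, 10, 5, 7, 6, 1], .r 1886 [1, 2, 3, 4, 6, 5] [1, 1, 1, 1, 1, 1], .l [6, 7, 6, 6, 3, 5, 2, 4], .l [0, 8, 8, 6, 6, 5, 4], .l [9, 8, 8, 3, 5, 4, 7], .l [0, 8, 10, 8, 8, 7, 4], .l [6, 7, 6, 6, 3, 5, 2, 6], .l [9, 8, 8, 3, 5,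 4, 9], .l [0, 8, 12, 10, 10, 9, 4], .l [6, 7, 6, 6, 3, 5, 2, 8]]),
([p 2 1, s 5 0, g, p 3 0, g, p 0 2, p 4 3, g, p 0 4, g, s 1 0, g, s 0 5, g], .top 7, [.r 1887 [1, 2, 3, 4, 5] [1, 1, 1, 1, 1], .r 1880 [1, 2, 3, 4, 5] [1, 1, 1, 1, 1, 1], .r 1884 [1, 2, 3, 4, 5] [1, 1, 1, 1, 1, 1], .r 1882 [1, 2, 3, 4, 5] [1, 1, 1, 1, 1, 1]]),
([p 2 1, s 4 0, g, p 3 0, g, p 0 2, p 0 3, g, s 1 0, g, s 0 4, g], .lo 6, [.l [0, 5, 4, 4, 5], .l [3, 7, 3], .l [3, 7], .l [0, 9, 6, 4, 6], .y [3, 6], .l [5, 7, 1], .l [5, 7], .l [0, 9, 4, 2, 6], .l [10, 9, 9, 4, 1], .r 1888 [1, 2, 3, 5, 4] [1, 1, 1, 1, 1, 1], .l [5, 6, 3, 5, 2, 4], .l [0, 7, 7, 5, 4], .l [8, 7, 7, 2, 7], .l [0, 7, 9, 7, 4], .l [5, 6, 3, 5, 2, 6], .l [8, 7, 7, 2, 9], .l [0, 7, 11, 9, 4], .l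 [5, 6, 3, 5, 2, 8]]),
([p 2 1, s 6 0, g, p 3 2, p 4 3, g, p 5 4, p 0 0, g, p 0 5, g, s 1 0, g, s 0 6, g], .lo 7, [.l [0, 3, 2, 5, 7, 6, 6, 4, 5], .l [3, 8, 10, 9, 9, 7, 1], .l [3, 8], .l [0, 12, 9, 5, 7, 6, 6, 4, 6], .l [6, 8, 5], .l [6, 8], .l [5, 8, 6, 6, 5, 5, 2, 4], .y [7], .l [13, 12, 12, 9, 9, 8, 8, 6, 1], .l [7, 11, 9, 14, 9, 2, 4, 10, 7], .l [6, 11, 10, 10, 8, 8, 7, 7, 4, 1], .l [13, 12, 12, 9, 9, 8, 8, 6, 3], .l [14, 1, 12, 12, 9, 9, 8, 8, 6, 6, 3, 5, 3], .l [6, 9, 8, 8, 6, 6, 5, 5, 2, 4], .l [0, 10, 10, 6, 8, 7, 7, 5, 2], .l [11, 10, 10, 7, 7, 6, 6, 4, 7], .l [0, 10, 12, 8, 10, 9, 9, 7, 2], .l [6, 9, 8, 8, 6, 6, 5, 5, 2, 6], .l [11, 10, 10, 7, 7, 6, 6, 4, 9], .l [0, 10, 14, 10, 12, 11, 11, 9, 2], .l [6, 9, 8, 8, 6, 6,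 5, 5, 2, 8]]),
([p 2 1, s 6 0, g, p 3 2, p 4 3, g, p 5 4, p 0 5, g, s 1 0, g, s 0 6, g], .lo 7, [.l [0, 3, 2, 5, 5, 4, 4, 2, 3], .l [3, 8, 8, 7, 7, 5, 1], .l [3, 8], .l [0, 10, 7, 5, 5, 4, 4, 2, 4], .l [6, 8, 5], .l [6, 8], .l [5, 8, 6, 6, 5, 5, 2, 4], .l [11, 10, 10, 7, 7, 6, 6, 4, 1], .l [12, 1, 10, 10, 7, 7, 6, 6, 4, 4, 3, 3, 1], .l [6, 7, 6, 6, 4, 4, 3, 3, 0, 2], .y [0, 9, 7, 6, 4, 3], .l [9, 8, 8, 5, 5, 4, 4, 2, 5], .l [0, 8, 10, 8, 8, 7, 7, 5, 2], .l [6, 7, 6, 6, 4, 4, 3, 3, 0, 4], .l [9, 8, 8, 5, 5, 4, 4, 2, 7], .l [0, 8, 12, 10, 10, 9, 9, 7, 2], .l [6, 7, 6, 6, 4, 4, 3, 3, 0, 6]]),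
([p 2 1, s 7 0, g, p 3 2, p 4 3, g, p 6 4, s 0 5, g, p 0 6, g, m 5 0, g, s 1 0, g, s 0 7, g], .lo 7, [.l [1, 6, 8, 7, 7, 5, 1], .l [3, 8, 10, 9, 9, 7, 1], .l [3, 8, 10, 9, 9, 7, 1], .l [13, 3, 9, 5, 0, 6, 9, 5, 1], .l [6, 8, 5], .l [6, 8, 5], .l [5, 17, 12, 14, 13, 2, 12, 3], .l [15, 14, 14, 11, 11, 10, 10, 8, 1, 7, 3, 5, 3], .l [13, 5, 6, 2, 14, 4, 1, 8, 9, 6], .l [15, 14, 14, 11, 11, 10, 10, 8, 1], .l [5, 11, 3, 11, 7, 4, 4, 3, 3, 0, 4], .l [5, 11, 3, 11, 7, 4, 4, 3, 3, 0, 4], .l [15, 14, 14, 11, 11, 10, 10, 8, 3], .y [7, 11], .l [11, 3, 9, 15, 10, 2, 4, 9, 6, 1], .l [5, 11, 3, 11, 7, 4, 4, 3, 3, 0, 4], .l [15, 14, 14, 11, 11, 10, 10, 8, 5], .l [13, 12, 12, 9, 9, 8, 8, 6, 5], .l [0, 12, 14, 8, 10, 9, 9, 7, 2, 9], .l [0, 12, 14,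 8, 10, 9, 9, 7, 2], .l [13, 12, 12, 9, 9, 8, 8, 6, 9], .l [0, 12, 16, 10, 12, 11, 11, 9, 2, 3], .l [0, 12, 16, 10, 12, 11, 11, 9, 2], .l [13, 12, 12, 9, 9, 8, 8, 6, 11]]),
([p 2 1, s 7 0, g, p 3 2, p 4 3, g, p 6 4, s 0 5, g, m 5 0, g, p 0 6, g, s 1 0, g, s 0 7, g], .lo 7, [.l [1, 6, 10, 9, 9, 7, 1], .l [3, 8, 12, 11, 11, 9, 1], .l [3, 8, 12, 11, 11, 9, 1], .l [0, 14, 11, 5, 9, 8, 8, 6, 8], .l [6, 8, 5], .l [6, 8, 5], .l [11, 1, 12, 9, 1, 8, 5], .l [8, 13, 10, 15, 10, 12, 11, 4, 10, 3], .l [0, 9, 1, 12, 9, 9, 7, 2, 11, 3, 5, 7, 5], .l [15, 14, 14, 11, 11, 10, 10, 8, 1], .y [7, 9], .l [15, 14, 14, 11, 11, 10, 10, 8, 3, 7, 1, 5, 1], .l [0, 9, 1, 12, 9, 9, 7, 2, 11, 3, 5, 7, 5], .l [15, 14, 14, 11, 11, 10, 10, 8, 3], .l [7, 12, 5,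 13, 2, 7, 3, 10, 6, 2, 3, 1, 5], .l [13, 5, 6, 2, 14, 4, 1, 8, 9, 6], .l [15, 14, 14, 11, 11, 10, 10, 8, 5], .l [13, 12, 12, 9, 9, 8, 8, 6, 5], .l [0, 12, 14, 8, 12, 11, 11, 9, 2, 9], .l [0, 12, 14, 8, 12, 11, 11, 9, 2], .l [13, 12, 12, 9, 9, 8, 8, 6, 9], .l [0, 12, 16, 10, 14, 13, 13, 11, 2, 3], .l [0, 12, 16, 10, 14, 13, 13, 11, 2], .l [13, 12, 12, 9, 9, 8, 8, 6, 11]]),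
([p 2 1, s 6 0, g, p 3 2, p 4 3, g, p 5 4, s 0 0, g, p 0 5, g, s 1 0, g, s 0 6, g], .hi 7, [.l [3, 8, 10, 9, 9, 7, 1], .l [0, 12, 9, 5, 7, 6, 6, 4, 6], .l [3, 8, 10, 9, 9, 7, 1], .l [6, 8, 5], .l [5, 15, 10, 12, 11, 2, 10, 3], .l [6, 8, 5], .y [7], .l [8, 11, 8, 13, 8, 10, 9, 2, 8, 3], .l [13, 12, 12, 9, 9, 8, 8, 6, 1], .r 1893 [1, 2, 3, 4, 7, 5, 6] [1, 1, 1, 1, 1, 1, 1], .l [11, 10, 10, 7, 7, 6, 6, 4, 1], .l [13, 12, 13, 8, 9, 8, 3, 5, 6, 1], .l [13, 12, 12, 9, 9, 8, 8, 6, 3], .r 1892 [1, 2, 3, 4, 7, 5, 6] [1, 1, 1, 1, 1, 1, 1], .l [0, 10, 12, 8, 10, 9, 9, 7, 2, 7], .l [11, 10, 10, 7, 7, 6, 6, 4, 7], .l [0, 10, 12, 8, 10, 9, 9, 7, 2], .l [0, 10, 12, 8, 10, 9, 9, 7, 2, 3], .l [0, 10, 14, 10, 12, 11, 11, 9, 2, 3], .l [11, 10, 10,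 7, 7, 6, 6, 4, 9], .l [0, 10, 14, 10, 12, 11, 11, 9, 2]]),
([p 2 1, s 6 0, g, p 3 2, p 4 3, g, p 5 4, g, p 0 5, g, s 1 0, g, s 0 6, g], .top 7, [.r 1891 [1, 2, 3, 4, 5, 6] [1, 1, 1, 1, 1], .r 1894 [1, 2, 3, 4, 5, 6] [1, 1, 1, 1, 1, 1], .r 1890 [1, 2, 3, 4, 5, 6] [1, 1, 1, 1, 1, 1], .r 1819 [2, 4] [2, 1, 7]]),
([p 2 1, s 5 0, g, p 3 2, p 4 3, g, p 0 4, g, s 1 0, g, s 0 5, g], .lo 6, [.l [0, 3, 2, 4, 4, 2, 3], .l [3, 7, 7, 5, 1], .l [3, 7], .l [0, 9, 6, 4, 4, 2, 4], .r 1704 [1, 2, 6, 4] [1, 1, 1, 1, 3], .l [6, 7], .l [5, 8, 6, 6, 5, 5, 2, 1], .l [10, 9, 10, 5, 1, 3, 4, 1], .r 1895 [1, 2, 3, 4, 6, 5] [1, 1, 1, 1, 1, 1], .l [5, 6, 4, 4, 3, 3, 0, 2], .y [0, 8, 6, 4, 3], .l [0, 7, 9, 7, 7, 5, 2], .l [0, 7, 9, 7, 7, 5, 2], .l [5, 6, 4,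 4, 3, 3, 0, 4], .l [0, 7, 11, 9, 9, 7, 2], .l [0, 7, 11, 9, 9, 7, 2], .l [5, 6, 4, 4, 3, 3, 0, 6]]),
([p 2 1, s 4 0, g, p 3 2, p 0 3, g, s 1 0, g, s 0 4, g], .lo 4, [.l [0, 3, 2, 2, 3], .l [3, 5, 1], .l [3, 5], .l [0, 7, 4, 2, 4], .l [8, 7, 7, 4, 1], .r 1896 [1, 2, 3, 5, 4] [1, 1, 1, 1, 1], .l [3, 4, 3, 3, 0, 2], .y [0, 6, 4, 3], .l [6, 5, 5, 2, 5], .l [0, 5, 7, 5, 2], .l [3, 4, 3, 3, 0, 4], .l [6, 5, 5, 2, 7], .l [0, 5, 9, 7, 2], .l [3, 4, 3, 3, 0, 6]]),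
([p 2 1, s 3 0, g, p 0 2, p 0 0, g, s 1 0, g, s 0 3, g], .hi 4, [.r 1877 [1, 2, 4, 3] [1, 1, 1, 1, 1], .r 1889 [1, 2, 4, 3] [1, 1, 1, 1, 1], .l [6, 2], .r 1897 [1, 2, 4, 3] [1, 1, 1, 1], .y [4], .r 1588 [2, 4] [2, 1, 5], .l [4, 5], .l [6, 1], .r 1588 [2, 4] [2, 3, 3], .l [4, 7], .l [8, 3], .r 1588 [2, 4] [2, 3, 1], .r 1588 [2, 4] [2, 5, 1], .l [4, 9], .l [10, 5]]),
([p 3 1, s 7 2, g, s 2 0, g, p 0 3, p 4 0, g, p 5 4, g, s 0 5, g, p 6 0, g, s 0 6, s 1 0, g, p 0 7, g], .lo 14, [.l [0, 16, 12, 3, 14, 11], .l [0, 16, 12], .l [1, 4, 1, 13, 16, 5, 2, 12], .l [0, 14, 10, 1, 12, 1], .l [0, 16, 10, 1, 14, 1], .l [0, 16, 10], .l [2, 7, 4, 4, 14, 11], .l [0, 14, 7], .l [2, 5, 2, 2, 14, 7], .l [0, 16, 7], .l [9, 1, 14, 9, 1, 3, 8, 10, 7, 12,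 8, 5, 4, 7], .l [2, 5, 2, 2, 14, 5], .l [0, 16, 5], .l [9, 1, 10, 5, 1, 5, 2, 10, 13, 5, 2, 9], .l [2, 5, 2, 2, 14, 3], .l [0, 16, 3], .l [1, 2, 16, 5, 3, 8, 1, 14, 2, 9, 1, 10, 6, 3], .y [12, 14], .l [2, 5, 2, 2, 14, 1], .l [0, 16, 1], .l [1, 2, 16, 5, 3, 8, 1, 14, 2, 9, 1, 10, 6, 3], .c, .l [0, 14, 15, 6, 4, 1], .l [17, 2, 15], .l [0, 14, 15], .l [0, 14, 17, 8, 4, 1], .l [19, 4, 17], .l [0, 14, 17]]),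
([p 3 1, s 6 2, g, s 2 0, g, p 0 3, p 4 0, g, p 5 4, g, s 0 5, g, s 0 0, s 1 0, g, p 0 6, g], .hi 12, [.l [0, 14, 10, 3, 12, 9], .l [9, 10, 8, 15, 8, 5, 8, 12, 8, 1], .l [0, 14, 10], .l [0, 14, 8, 1, 12, 1], .l [2, 7, 4, 4, 12, 9], .l [0, 14, 8], .l [2, 5, 2, 2, 10, 9], .l [2, 5, 2, 2, 12, 5], .l [15, 5, 1, 6, 2, 11, 1, 10, 6, 1], .l [0, 14, 5], .l [2, 5, 2, 2, 12, 3], .l [9, 1, 10, 3, 8, 14, 5, 11, 4, 7, 2, 3], .l [0, 14, 3], .l [2, 5, 2, 2, 10, 1], .l [2, 5, 2, 2, 12, 1], .r 1899 [1, 2, 3, 4, 5, 7, 6] [1, 1, 1, 1, 1, 1, 1, 1], .l [0, 14, 1], .y [12], .l [0, 12, 13, 6, 4, 1], .l [0, 12, 13], .l [15, 2, 13], .l [0, 12, 13], .l [0, 12, 15, 8, 4, 1], .l [0, 12, 15], .l [17, 4, 15]]),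
([p 3 1, s 6 2, g, s 2 0, g, p 0 3, p 4 0, g, p 5 4, g, s 0 5, s 1 0, g, p 0 6, g], .hi 6, [.l [8, 4, 7, 3, 4, 7, 2, 3, 9, 5, 2, 5], .l [15, 13, 14, 8, 12, 11, 11, 9, 9, 7, 2, 3], .l [8, 4], .l [8, 2, 14, 7, 0, 11, 8], .l [15, 13, 14, 8, 10, 9, 9, 7, 7, 5, 2, 5], .l [8, 2], .l [13, 11, 12, 8, 8, 7, 7, 5, 5, 3, 2, 3], .l [2, 8, 1, 8, 6, 2, 2, 6], .l [6, 7], .l [8, 1], .l [1, 2, 9, 3, 3, 1, 11, 5, 2, 7], .l [6, 9], .l [10, 3], .y [6, 10, 8], .l [13, 6, 6, 4, 4, 2, 8, 1], .l [6, 12], .l [13, 6], .l [6, 12], .l [15, 8, 8, 6, 6, 4, 10, 7], .l [6, 14], .l [15, 8]]),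
([p 3 1, s 6 2, g, s 2 0, g, p 0 3, p 4 0, g, p 5 4, g, s 0 5, g, s 1 0, g, p 0 6, g], .bot 11, [.r 1901 [1, 2, 3, 4, 5, 6] [1, 1, 1, 1, 1, 1], .r 1900 [1, 2, 3, 4, 5, 6] [1, 1, 1, 1, 1, 1, 1], .r 1681 [1, 6] [10, 1, 1], .r 1683 [1, 6] [10, 1, 1]]),
([p 2 1, s 5 0, g, p 0 2, p 3 0, g, p 4 3, g, s 0 4, g, s 1 0, g, p 0 5, g], .hi 1, [.r 1902 [1, 6, 2, 3, 4, 5] [1, 1, 1, 1, 1, 1, 1], .l [2, 5, 2, 2, 9], .l [3, 1, 13, 11, 8], .l [2, 3, 0, 0, 7], .l [1, 5, 7, 5, 1], .l [0, 3, 2, 4, 6, 4, 7], .l [6, 4, 5, 3, 11, 8, 5], .l [12, 11, 6, 1, 6, 8, 4, 1], .l [12, 11, 6], .l [8, 6, 7, 5, 11, 6, 3], .l [1, 7, 7, 5, 5, 3, 1], .l [10, 8, 13, 4, 1, 7, 1, 5, 6, 1], .l [12, 11, 8], .l [10, 8, 9, 7, 11, 4, 1], .l [10, 9, 10, 5, 1, 3, 4, 1], .l [10,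 9, 10], .l [12, 10, 11, 9, 11, 2, 3], .y [1, 12], .l [10, 9, 12, 7, 1, 3, 6, 3], .l [10, 9, 12], .l [12, 10, 11, 9, 11, 2, 3]]),
([p 2 1, s 6 0, g, p 3 0, g, p 0 2, p 4 3, g, p 5 4, g, p 0 5, g, s 1 0, g, p 0 6, g], .hi 1, [.l [14, 13, 1, 12, 6, 8, 7, 7, 5, 5, 3, 7, 1], .l [2, 7, 4, 4, 11], .l [3, 1, 15, 13, 10], .l [5, 3, 9, 10, 9, 9, 7, 1, 6, 1, 8, 4, 1], .l [4, 7, 2, 2, 11], .l [5, 3, 6, 1, 6, 1, 12, 8, 5], .l [4, 5, 0, 0, 9], .l [1, 7, 9, 7, 3], .l [0, 5, 4, 6, 8, 6, 9], .l [8, 6, 7, 3, 5, 4, 12, 10, 7], .l [1, 9, 11, 9, 9, 7, 3], .l [0, 5, 4, 8, 10, 8, 8, 6, 7], .l [10, 8, 9, 5, 7, 6, 6, 4, 10, 8, 5], .l [0, 5, 4, 8, 8, 6, 6, 4, 5], .l [12, 10, 11, 7, 9, 8, 8, 6, 6, 4, 8, 6, 3], .l [14, 13, 10], .l [12, 10, 11, 7, 9, 8, 8,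 6, 6, 4, 8, 6, 3], .l [14, 12, 13, 9, 11, 10, 10, 8, 8, 6, 8, 4, 5], .l [12, 11, 12], .l [14, 12, 13, 9, 11, 10, 10, 8, 8, 6, 8, 4, 5], .y [1, 14], .l [14, 12, 13, 9, 11, 10, 10, 8, 8, 6, 1, 2, 5], .l [12, 11, 14], .l [14, 12, 13, 9, 11, 10, 10, 8, 8, 6, 8, 4, 5]]),
([p 2 1, s 6 0, g, p 3 2, p 4 3, g, p 5 4, g, p 0 5, g, s 1 0, g, p 0 6, g], .hi 1, [.l [12, 11, 1, 10, 6, 6, 5, 5, 3, 3, 1, 5, 1], .l [2, 5, 2, 2, 9], .l [3, 1, 13, 11, 8], .l [1, 5, 7, 5, 1], .l [0, 3, 2, 4, 6, 4, 7], .l [6, 4, 5, 3, 3, 2, 10, 8, 5], .l [1, 7, 9, 7, 7, 5, 1], .l [0, 3, 2, 6, 8, 6, 6, 4, 5], .l [8, 6, 7, 5, 5, 4, 4, 2, 8, 6, 3], .l [0, 3, 2, 6, 6, 4, 4, 2, 3], .l [10, 8, 9, 7, 7, 6, 6, 4, 4, 2, 6, 4, 1], .l [12, 11, 8], .l [10, 8, 9, 7, 7, 6, 6, 4,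 4, 2, 6, 4, 1], .l [12, 10, 11, 9, 9, 8, 8, 6, 6, 4, 6, 2, 3], .l [10, 9, 10], .l [12, 10, 11, 9, 9, 8, 8, 6, 6, 4, 6, 2, 3], .y [1, 12], .l [12, 10, 11, 9, 9, 8, 8, 6, 6, 4, 1, 2, 3], .l [10, 9, 12], .l [12, 10, 11, 9, 9, 8, 8, 6, 6, 4, 6, 2, 3]]),
([p 2 1, s 5 0, g, p 0 2, p 3 0, g, p 4 3, g, p 0 4, g, s 1 0, g, p 0 5, g], .hi 4, [.l [6, 2, 13, 8, 0, 10, 7], .r 1904 [1, 2, 6, 3, 4, 5] [1, 1, 1, 1, 1, 1, 1], .l [6, 2], .r 1905 [1, 2, 6, 3, 4, 5] [1, 1, 1, 1, 1, 1], .r 1588 [2, 6] [2, 1, 9], .l [4, 5], .l [6, 1], .r 1588 [2, 6] [2, 3, 7], .l [4, 7], .l [8, 3], .y [4, 8, 6], .r 1588 [2, 6] [2, 5, 5], .l [4, 9], .l [10, 5], .r 1588 [2, 6] [2, 7, 3], .l [4, 11], .l [12, 7], .l [4, 11], .r 1588 [2, 6] [2, 9, 1], .l [4, 13], .l [14,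 9]]),
([p 2 1, s 4 0, g, p 0 2, p 3 0, g, p 0 3, g, s 1 0, g, p 0 4, g], .lo 6, [.l [0, 3, 2, 4, 4, 2, 3], .l [3, 7, 7, 5, 1], .l [3, 7], .l [0, 9, 6, 4, 4, 2, 4], .y [4, 6], .r 1704 [1, 2, 5, 3] [1, 1, 1, 1, 3], .l [6, 7], .l [5, 12, 7, 9, 8, 1, 1, 6, 3], .r 1903 [1, 2, 3, 5, 4] [1, 1, 1, 1, 1, 1], .r 1906 [1, 2, 3, 5, 4] [1, 1, 1, 1, 1, 1], .l [7, 12, 5, 7, 6, 8, 8, 6, 3], .l [0, 7, 7, 5, 5, 3, 2], .l [0, 7, 9, 7, 7, 5, 2], .l [0, 7, 9, 7, 7, 5, 2], .l [0, 7, 11, 2, 9, 9, 7, 2, 3], .l [0, 7, 11, 9, 9, 7, 2], .l [0, 7, 11, 9, 9, 7, 2], .r 1627 [2, 3, 5] [2, 1, 5, 1]]),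
([p 4 1, s 3 2, g, s 0 3, g, p 0 4, p 5 0, g, p 6 5, g, s 0 6, g, s 2 0, g, p 0 0, s 1 0, g], .hi 14, [.l [0, 16, 12], .l [0, 16, 6, 1, 12, 6, 10, 8, 10], .l [16, 12], .l [0, 14, 10], .l [0, 16, 10], .l [2, 7, 4, 4, 14, 11], .l [16, 10], .l [2, 5, 2, 2, 12, 11], .l [0, 16, 7], .l [1, 13, 15, 9, 11, 9, 3], .l [16, 7], .l [0, 16, 5], .l [1, 13, 10, 11, 13, 8], .l [16, 5], .l [0, 14, 3], .l [0, 16, 3], .l [1, 13, 10, 11, 13, 10], .l [16, 3], .l [0, 16, 1], .l [2, 14, 6, 1, 12, 8, 10, 6, 2, 2, 8, 1], .l [16, 1], .y [14], .l [0, 14, 15], .l [14, 16], .l [17, 2]]),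
([p 4 1, s 3 2, g, s 0 3, g, p 0 4, p 5 0, g, p 6 5, g, s 0 6, g, s 2 0, g, m 0 0, s 1 0, g], .lo 14, [.l [0, 16, 12], .l [16, 12], .l [0, 16, 6, 1, 12, 6, 10, 8, 10], .l [0, 16, 10], .l [16, 10], .l [2, 7, 4, 4, 14, 11], .l [14, 7], .l [0, 16, 7], .l [16, 7], .l [1, 13, 15, 9, 11, 9, 3], .l [0, 16, 5], .l [16, 5], .l [1, 13, 10, 11, 13, 8], .l [0, 16, 3], .l [16, 3], .l [1, 13, 10, 11, 13, 10], .l [0, 14, 1], .l [0, 16, 1], .l [16, 1], .l [2, 14, 6, 1, 12, 8, 10, 6, 2, 2, 8, 1], .y [14], .c, .l [0, 14, 15], .l [17, 2], .l [14, 16]]),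
([p 4 1, s 3 2, g, s 0 3, g, p 0 4, p 5 0, g, p 6 5, g, s 0 6, g, s 2 0, g, p 7 0, g, s 0 7, s 1 0, g], .lo 16, [.l [0, 18, 14, 3, 16, 13], .l [0, 18, 14], .l [5, 3, 13, 9, 15, 3], .l [0, 18, 12, 1, 16, 1], .l [0, 18, 12], .l [2, 7, 4, 4, 16, 13], .l [0, 16, 9], .l [2, 5, 2, 2, 16, 9], .l [0, 18, 9], .l [1, 13, 10, 11, 15, 8], .l [2, 5, 2, 2, 16, 7], .l [0, 18, 7], .l [1, 13, 10, 11, 15, 10], .l [2, 5, 2, 2, 16, 5], .l [0, 18, 5], .l [1, 13, 10, 11, 15, 12], .l [2, 5, 2, 2, 14, 3], .l [2, 5, 2, 2, 16, 3], .l [0, 18, 3], .l [7, 8, 6, 15, 5, 9, 14, 8, 1, 6, 10, 1], .y [14, 16], .l [2, 5, 2, 2, 16, 1], .l [0, 18, 1], .l [7, 8, 6, 15, 5, 9, 14, 8, 1, 6, 10, 1], .c, .l [0, 16, 17, 6, 4, 1], .l [19, 2, 17], .l [0, 16, 17]]),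
([p 4 1, s 3 2, g, s 0 3, g, p 0 4, p 5 0, g, p 6 5, g, s 0 6, g, s 2 0, g, s 0 0, s 1 0, g], .hi 14, [.l [0, 16, 12, 3, 14, 11], .l [5, 3, 13, 9, 13, 1], .l [0, 16, 12], .l [0, 14, 10, 1, 12, 1], .l [0, 16, 10, 1, 14, 1], .l [2, 7, 4, 4, 14, 11], .l [0, 16, 10], .l [2, 5, 2, 2, 12, 11], .l [2, 5, 2, 2, 14, 7], .l [1, 13, 10, 11, 13, 6], .l [0, 16, 7], .l [2, 5, 2, 2, 14, 5], .l [1, 13, 10, 11, 13, 8], .l [0, 16, 5], .l [2, 5, 2, 2, 12, 3], .l [2, 5, 2, 2, 14, 3], .l [1, 13, 10, 11, 13, 10], .l [0, 16, 3], .l [2, 5, 2, 2, 14, 1], .r 1910 [1, 2, 3, 4, 5, 6, 7] [1, 1, 1, 1, 1, 1, 1, 1], .l [0, 16, 1], .y [14], .l [0, 14, 15, 6, 4, 1], .l [0, 14, 15], .l [17, 2, 15]]),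
([p 4 1, s 3 2, g, s 0 3, g, p 0 4, p 5 0, g, p 6 5, g, s 0 6, g, s 2 0, g, s 1 0, g], .bot 13, [.l [0, 12, 10, 3, 10, 7], .r 1911 [1, 2, 3, 4, 5, 6] [1, 1, 1, 1, 1, 1, 1], .r 1908 [1, 2, 3, 4, 5, 6] [1, 1, 1, 1, 1, 1, 1], .r 1909 [1, 2, 3, 4, 5, 6] [1, 1, 1, 1, 1, 1, 1]]),
([p 3 1, s 2 0, g, s 0 2, g, p 0 3, p 4 0, g, p 5 4, g, s 0 5, g, s 1 0, g], .hi 1, [.l [1, 4, 13, 9, 10, 5, 1, 3, 4, 1], .l [2, 7, 4, 4, 11], .r 854 [6, 3] [1, 3, 8], .y [1, 3], .l [1, 4, 13, 9, 10, 5, 1, 3, 4, 1], .l [4, 7, 2, 2, 11], .r 854 [6, 3] [3, 1, 8], .l [4, 5, 0, 0, 9], .l [1, 7, 9, 7, 3], .l [0, 5, 4, 6, 8, 6, 9], .r 750 [1, 6, 2, 3] [1, 1, 2, 5, 1], .l [14, 13, 8, 1, 8, 10, 4, 1], .l [14, 13, 8], .r 750 [1, 6, 2, 3] [1, 1, 4, 3, 1], .l [1, 9, 9,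 7, 7, 5, 3], .r 1912 [1, 6, 2, 3, 4, 5] [1, 1, 1, 1, 1, 1, 1], .l [14, 13, 10], .r 750 [1, 6, 2, 3] [1, 1, 6, 1, 1], .l [12, 11, 12, 5, 1, 3, 4, 1], .l [12, 11, 12], .r 715 [1, 6, 3] [3, 6, 1, 1]]),
([p 4 1, s 3 0, g, p 2 0, g, p 0 2, s 0 3, g, p 0 4, p 5 0, g, p 6 5, g, p 0 6, g, s 1 0, g], .hi 3, [.l [5, 1, 9, 4, 7, 5, 2, 11], .l [4, 8, 4, 10, 4, 7, 9, 4, 2, 5, 7, 4, 7], .l [5, 1], .l [2, 5, 1, 15, 12, 2, 11, 6], .l [3, 4], .l [5, 1], .y [3, 5], .l [3, 5, 4], .l [12, 4, 7, 11, 6, 2, 8, 3, 10, 5, 8, 3], .l [3, 7], .l [8, 4], .l [3, 7], .l [3, 10, 12, 10, 4], .l [3, 10], .l [11, 7], .l [3, 12, 14, 12, 12, 10, 4], .l [3, 12], .l [13, 9], .l [3, 12], .l [15, 11, 14, 9, 6, 11, 2, 11], .l [3, 14], .l [15, 11], .l [17, 13, 16, 11, 8,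 13, 2, 9], .l [3, 16], .l [17, 13]]),
([p 3 1, s 2 0, g, p 0 0, s 0 2, g, p 0 3, p 4 0, g, p 5 4, g, p 0 5, g, s 1 0, g], .hi 3, [.l [5, 1, 7, 2, 2, 11], .r 1914 [1, 6, 2, 3, 4, 5] [1, 1, 1, 1, 1, 1, 1], .l [5, 1], .y [3], .c, .l [15, 14, 2, 3], .l [3, 5], .l [6, 2], .l [3, 5], .l [0, 6, 5, 2, 6, 8, 6, 9], .l [3, 8], .l [9, 5], .l [0, 6, 5, 2, 8, 10, 8, 8, 6, 7], .l [3, 10], .l [11, 7], .l [3, 10], .l [15, 14, 2, 10], .l [3, 12], .l [13, 9], .l [13, 12, 2, 12], .l [3, 14], .l [15, 11]]),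
([p 4 1, s 2 0, g, s 3 0, s 0 2, g, p 0 3, g, p 0 4, g, s 1 0, g], .hi 1, [.l [3, 1, 7, 2, 4, 7], .l [2, 10, 7, 7, 8], .l [3, 1, 7, 2, 4, 7], .y [1, 4], .l [1, 5, 11, 6, 8, 5], .l [5, 10, 4, 4, 8], .r 854 [5, 4] [4, 3, 3], .l [5, 8, 2, 2, 6], .l [6, 2, 3, 6, 2, 7], .l [7, 10, 2, 2, 8], .l [6, 2, 3, 6, 2, 7], .l [7, 8, 0, 0, 6], .l [6, 2, 3, 6, 1, 8, 6, 3], .l [12, 11, 8], .l [6, 2, 3, 8, 4, 7], .l [6, 2, 3, 6, 1, 6, 4, 5], .l [10, 9, 10], .l [6, 2, 3, 10, 6, 3]]),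
([p 3 1, s 2 0, g, s 4 0, s 0 2, g, p 0 3, g, s 1 0, g, p 0 4, g], .hi 1, [.l [3, 1, 7, 4, 9, 7, 2, 3], .l [2, 8, 5, 5, 6], .l [3, 1, 7, 4, 9, 7, 2, 3], .y [1, 4], .l [10, 9, 4, 8, 1, 8, 2, 3], .l [5, 8, 2, 2, 6], .r 854 [5, 3] [4, 1, 5], .l [5, 6, 0, 0, 4], .l [12, 8, 9, 3, 8, 3], .l [10, 9, 6], .r 750 [1, 5, 2, 3] [2, 1, 1, 1, 3], .l [12, 8, 9, 5, 8, 5], .l [8, 7, 8], .l [12, 8, 9, 5, 8, 5], .l [8, 7, 8], .l [10, 6, 7, 3, 6, 7], .l [8, 7, 10], .l [10, 6, 7, 10, 2, 5]]),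
([p 3 1, s 2 0, g, s 4 0, s 0 2, g, p 0 3, g, p 0 4, g, s 1 0, g], .hi 1, [.l [2, 10, 4, 7, 8, 3, 6, 3], .l [2, 8, 5, 5, 8], .l [3, 1, 7, 4, 7, 5, 2, 5], .y [1, 4], .l [1, 5, 11, 6, 8, 3], .l [5, 8, 2, 2, 8], .r 854 [5, 3] [4, 1, 5], .l [5, 6, 0, 0, 6], .l [0, 11, 3, 8, 4, 7, 4, 1], .l [12, 11, 6], .r 750 [1, 5, 2, 3] [2, 1, 1, 3, 1], .l [10, 9, 6], .l [8, 4, 5, 8, 2, 7], .l [12, 11, 8], .l [8, 4, 5, 8, 2, 7], .l [8, 4, 5, 10, 4, 1], .l [10, 9, 10], .l [8, 4, 5, 10, 4, 1]]),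
([p 3 1, s 2 0, g, s 0 2, g, p 0 3, p 5 0, g, s 0 4, g, p 0 5, g, m 4 0, g, s 1 0, g], .hi 1, [.l [16, 15, 3, 12, 3, 10, 1, 10, 6, 3], .l [2, 7, 4, 4, 13], .l [16, 15, 3, 12, 3, 10, 1, 10, 6, 3], .y [1, 3], .l [16, 15, 1, 12, 3, 10, 1, 10, 6, 3], .l [4, 7, 2, 2, 13], .r 854 [6, 3] [3, 1, 10], .l [4, 5, 0, 0, 11], .l [1, 7, 11, 9, 3], .l [0, 5, 4, 6, 10, 8, 11], .l [8, 6, 13, 3, 13, 7, 4, 6, 4, 7], .l [1, 7, 9, 7, 3], .l [1, 9, 11, 7, 3], .l [0, 5, 4, 8, 10, 6, 11], .l [10, 8, 13, 6, 2, 7, 3], .l [0, 5, 4, 8, 8, 4, 9], .l [1, 11, 13, 9, 11, 9, 3, 1, 2, 7], .l [16, 15, 10], .l [12, 10, 13, 6, 11, 7, 10, 1, 4, 7], .l [16, 15, 1, 10, 3, 10, 1, 10, 6, 3], .l [16, 15, 12], .l [16, 15, 1, 10, 3, 10, 1, 10, 6, 3], .l [16, 14, 10, 3, 10,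 11, 8, 10, 8, 3], .l [14, 13, 14], .l [16, 14, 10, 3, 10, 11, 8, 10, 8, 3]])]

def d07_2 : List (List Item × Qry × List Rf) := [
([p 4 1, s 3 0, g, s 9 2, s 0 3, g, p 0 4, p 6 0, g, s 0 5, p 8 6, g, s 0 7, g, p 7 8, g, s 5 0, g, s 2 0, g, s 0 9, g, s 1 0, g], .lo 12, [.l [1, 11, 11, 11, 11, 9, 9, 6, 4], .l [3, 13, 13, 13, 13, 11, 11, 8, 4], .l [3, 13, 13, 13, 13, 11, 11, 8, 4], .l [0, 23, 7, 7, 18, 10, 10, 8, 8, 5, 15], .l [6, 13, 13, 13, 13, 11, 11, 8, 1], .l [6, 13, 13, 13, 13, 11, 11, 8, 1], .l [0, 23, 7, 7, 15, 7, 7, 5, 5, 2, 15], .y [7, 12, 14, 10], .l [0, 23, 14, 4, 4, 4, 4, 2, 3, 13, 5, 11, 9, 11, 8, 1], .l [14, 4, 12, 2, 19, 5, 10, 4, 11, 7], .l [0, 23, 7, 7, 12, 4, 4, 2, 3, 13, 5, 11, 9, 11, 8, 1], .l [3, 14, 1, 15, 11,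 11, 8, 2, 2, 17], .l [0, 14, 1, 15, 11, 11, 8, 5, 2, 15], .l [0, 23, 9, 1, 11, 9, 9, 1, 15, 11, 13, 5, 13, 10, 7], .l [3, 14, 1, 15, 11, 11, 8, 2, 2, 17], .l [0, 14, 1, 15, 11, 11, 8, 5, 2, 15], .l [0, 12, 15, 1, 13, 13, 11, 11, 8, 5, 2, 13], .l [12, 15, 1, 13, 1, 12, 20, 18, 2, 17, 12, 3], .l [16, 3, 5, 3, 13, 2, 18, 9, 1, 3, 10, 7], .l [12, 15, 1, 13, 1, 12, 20, 18, 2, 17, 12, 3], .l [12, 15, 1, 13, 1, 12, 18, 16, 2, 15, 10, 3], .l [12, 17, 3, 15, 1, 14, 20, 16, 2, 15, 10, 3], .l [18, 5, 7, 5, 15, 2, 18, 9, 1, 5, 10, 5], .l [12, 17, 3, 15, 1, 14, 20, 16, 2, 15, 10, 3], .l [3, 17, 3, 3, 15, 11, 11, 9, 9, 6, 2, 2], .l [3, 17, 19, 13, 13, 13, 13, 11, 11, 8, 2, 2, 13], .l [3, 17, 3, 3, 17, 13, 13, 11, 11, 8, 2, 2], .l [12, 19, 5,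 17, 1, 16, 20, 14, 2, 13, 8, 3], .l [3, 19, 21, 13, 13, 13, 13, 11, 11, 8, 2, 2, 13], .l [3, 19, 5, 5, 19, 13, 13, 11, 11, 8, 2, 2], .l [12, 21, 7, 19, 1, 18, 20, 12, 2, 11, 6, 3], .l [12, 21, 7, 19, 1, 18, 18, 10, 2, 9, 4, 3], .l [0, 21, 23, 13, 13, 13, 13, 11, 11, 8, 5, 2], .l [0, 21, 7, 7, 21, 13, 13, 11, 11, 8, 5], .l [11, 14, 12, 13, 8, 2, 4, 17, 12, 15, 12, 13]]),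
([p 4 1, s 3 0, g, s 8 2, s 0 3, g, p 0 4, p 6 0, g, s 0 5, p 7 6, g, p 0 7, g, s 5 0, g, s 2 0, g, s 0 8, g, s 1 0, g], .lo 12, [.l [0, 6, 5, 2, 15, 13, 7, 7, 5, 5, 2, 11], .l [3, 13, 13, 11, 11, 8, 4], .l [3, 13], .l [0, 21, 18, 10, 10, 8, 9, 6, 15, 12], .l [6, 13, 13, 11, 11, 8, 1], .l [6, 13], .l [0, 21, 15, 7, 7, 5, 6, 3, 15, 2], .y [7, 12, 10], .l [0, 21, 12, 4, 4, 2, 3, 13, 5, 11, 9, 11, 8, 1], .l [9, 13], .l [3, 6, 2, 2, 19, 12, 4, 4, 2, 3], .r 1920 [1, 2, 3, 4, 5, 6, 9, 7, 8] [1, 1, 1, 1, 1, 1, 1, 1, 1, 1], .l [12, 13], .l [22, 21, 2, 17, 7, 1], .l [0, 21, 9, 1, 16, 8, 14, 12, 12, 9, 13, 10, 1], .l [11, 18, 9, 3, 14, 7, 1, 14, 5, 3, 7, 3], .l [22, 21, 2, 17, 7, 1], .l [0, 19, 7, 1, 14, 8, 12, 10, 10, 7, 11, 8, 1], .l [0,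 21, 9, 3, 16, 8, 12, 10, 10, 7, 13, 10, 1], .l [11, 2, 12, 20, 17, 2, 17, 9, 2, 8, 10, 1], .l [22, 21, 2, 17, 7, 3], .l [0, 6, 5, 2, 13, 13, 9, 9, 7, 7, 4, 11], .l [3, 15, 17, 13, 13, 11, 11, 8, 2, 2], .l [0, 6, 5, 2, 13, 15, 11, 11, 9, 9, 6, 13], .l [3, 15, 3, 15, 7, 2, 2, 16], .l [3, 17, 19, 13, 13, 11, 11, 8, 2, 2], .l [0, 6, 5, 2, 15, 17, 11, 11, 9, 9, 6, 13], .l [3, 17, 5, 17, 7, 2, 2, 16], .l [0, 19, 19, 11, 11, 9, 10, 7, 5, 2], .l [0, 19, 21, 13, 13, 11, 11, 8, 5], .l [0, 19, 21, 13, 13, 11, 12, 9, 5, 2], .l [0, 19, 7, 19, 7, 5, 2, 10]]),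
([p 4 1, s 3 0, g, s 7 2, s 0 3, g, p 0 4, p 5 0, g, s 0 0, p 6 5, g, p 0 6, g, s 2 0, g, s 0 7, g, s 1 0, g], .hi 9, [.l [3, 10, 11, 9, 4], .l [0, 19, 16, 7, 8, 6, 14], .l [3, 10, 11, 9, 4], .l [4, 8, 9, 7, 1], .l [6, 10, 11, 9, 1], .l [0, 19, 13, 4, 5, 3, 14], .l [6, 10, 11, 9, 1], .l [0, 17, 11, 2, 3, 1, 12], .l [3, 11, 1, 11, 7, 2, 2, 14], .l [0, 9, 12, 9, 5, 2, 14, 5, 6, 3], .l [0, 11, 1, 11, 7, 5, 2, 12], .y [9], .l [3, 6, 2, 2, 17, 7, 8, 5], .l [0, 19, 7, 8, 5], .l [0, 12, 2, 4, 3, 12, 8, 5, 2, 11], .l [0, 17, 5, 6, 5], .r 1921 [1, 2, 3, 4, 8, 5, 6, 7] [1, 1, 1, 1, 1, 1, 1, 1, 1], .l [0, 19, 10, 4, 14, 5, 10, 8, 12, 9, 1], .r 1919 [1, 3, 4, 8, 5] [2, 1, 1, 0, 3, 5, 1], .l [3, 13, 15, 10, 11, 9, 2, 2, 12], .l [20, 19, 2,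 11, 4, 11, 15, 9, 3], .l [3, 13, 15, 10, 11, 9, 2, 2], .l [3, 15, 15, 8, 9, 7, 2, 2], .l [3, 15, 17, 10, 11, 9, 2, 2, 12], .l [20, 19, 2, 13, 6, 13, 15, 9, 5], .l [3, 15, 17, 10, 11, 9, 2, 2], .l [0, 17, 19, 10, 11, 9, 5, 2], .l [18, 17, 2, 13, 6, 15, 10, 6, 8, 4, 9], .l [0, 17, 19, 10, 11, 9, 5]]),
([p 4 1, s 3 0, g, s 0 2, s 0 3, g, m 2 0, g, p 0 4, g, s 1 0, g], .hi 1, [.l [3, 1, 7, 2, 4, 7], .l [2, 10, 7, 7, 8], .l [3, 1, 7, 2, 4, 7], .l [1, 3, 2, 7], .y [1, 4], .l [1, 5, 11, 6, 8, 5], .l [5, 10, 4, 4, 8], .r 854 [5, 4] [4, 3, 3], .l [6, 2, 3, 6, 2, 7], .l [7, 10, 2, 2, 8], .l [6, 2, 3, 6, 2, 7], .l [7, 8, 0, 0, 6], .l [6, 2, 3, 6, 1, 8, 6, 3], .l [12, 11, 8], .l [6, 2, 3, 8, 4, 7], .l [6, 2, 3, 6, 1, 6, 4, 5], .l [10, 9, 10],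 .l [6, 2, 3, 10, 6, 3]]),
([p 4 1, s 3 0, g, s 9 2, s 0 3, g, p 0 4, p 6 0, g, s 0 5, p 8 6, g, s 0 7, g, p 7 8, g, s 5 0, g, s 0 9, g, s 2 0, g, s 1 0, g], .lo 12, [.l [1, 11, 11, 11, 11, 9, 9, 6, 4], .l [3, 13, 13, 13, 13, 11, 11, 8, 4], .l [3, 13, 13, 13, 13, 11, 11, 8, 4], .l [0, 23, 7, 7, 18, 10, 10, 8, 8, 5, 15], .l [6, 13, 13, 13, 13, 11, 11, 8, 1], .l [6, 13, 13, 13, 13, 11, 11, 8, 1], .l [0, 23, 7, 7, 15, 7, 7, 5, 5, 2, 15], .y [7, 12, 14, 10], .l [0, 23, 14, 4, 4, 4, 4, 2, 3, 13, 7, 11, 7, 11, 8, 5], .l [14, 4, 12, 2, 17, 3, 8, 4, 9, 5], .l [0, 23, 7, 7, 12, 4, 4, 2, 3, 13, 7, 11, 7, 11, 8, 5], .l [3, 14, 1, 15, 11, 11, 8, 2, 2, 17], .l [0, 14, 1, 15, 11, 11, 8, 5, 2, 13], .l [0, 23, 9, 1, 11, 9, 9, 1, 15, 9, 13, 7, 13,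 10, 1], .l [3, 14, 1, 15, 11, 11, 8, 2, 2, 17], .l [0, 14, 1, 15, 11, 11, 8, 5, 2, 13], .l [0, 12, 15, 1, 13, 13, 11, 11, 8, 5, 2, 11], .l [12, 15, 1, 13, 1, 12, 20, 18, 2, 17, 12, 3], .l [16, 3, 5, 3, 13, 2, 16, 7, 1, 3, 8, 5], .l [12, 15, 1, 13, 1, 12, 20, 18, 2, 17, 12, 3], .l [12, 15, 1, 13, 1, 12, 18, 16, 2, 15, 10, 3], .l [12, 17, 3, 15, 1, 14, 20, 16, 2, 15, 10, 3], .l [18, 5, 7, 5, 15, 2, 16, 7, 1, 5, 8, 3], .l [12, 17, 3, 15, 1, 14, 20, 16, 2, 15, 10, 3], .l [3, 17, 19, 13, 13, 13, 13, 11, 11, 8, 2, 2, 13], .l [3, 17, 3, 3, 17, 13, 13, 11, 11, 8, 2, 2], .l [12, 19, 5, 17, 1, 16, 20, 14, 2, 13, 8, 3], .l [3, 17, 19, 13, 13, 13, 13, 11, 12, 3, 1, 1, 6, 2, 2, 7], .l [3, 17, 21, 15, 15, 15, 15, 13, 13, 10, 2, 2, 13], .l [3,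 17, 3, 3, 19, 15, 15, 13, 13, 10, 2, 2], .l [12, 21, 7, 19, 1, 18, 20, 12, 2, 11, 6, 3], .l [12, 21, 7, 19, 1, 18, 18, 10, 2, 9, 4, 3], .l [0, 21, 23, 13, 13, 13, 13, 11, 11, 8, 5, 2], .l [0, 21, 7, 7, 21, 13, 13, 11, 11, 8, 5], .l [11, 14, 12, 13, 8, 2, 4, 17, 12, 15, 12, 13]]),
([p 4 1, s 3 0, g, s 8 2, s 0 3, g, p 0 4, p 6 0, g, s 0 5, p 7 6, g, p 0 7, g, s 5 0, g, s 0 8, g, s 2 0, g, s 1 0, g], .lo 12, [.l [0, 6, 5, 2, 13, 11, 7, 7, 5, 5, 2, 11], .l [3, 13, 13, 11, 11, 8, 4], .l [3, 13], .l [0, 21, 18, 10, 10, 8, 9, 6, 15, 12], .l [6, 13, 13, 11, 11, 8, 1], .l [6, 13], .l [0, 21, 15, 7, 7, 5, 6, 3, 15, 2], .y [7, 12, 10], .l [0, 21, 12, 4, 4, 2, 3, 13, 7, 11, 7, 11, 8, 5], .l [9, 13], .l [3, 6, 2, 2, 19, 12, 4, 4, 2, 3], .r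 1924 [1, 2, 3, 4, 5, 6, 9, 7, 8] [1, 1, 1, 1, 1, 1, 1, 1, 1, 1], .l [12, 13], .l [22, 21, 2, 15, 5, 1], .l [0, 21, 9, 1, 16, 10, 14, 10, 10, 7, 13, 10, 7], .l [11, 18, 9, 3, 14, 7, 1, 14, 5, 3, 7, 3], .l [22, 21, 2, 15, 5, 1], .l [0, 19, 7, 1, 14, 10, 12, 8, 8, 5, 11, 8, 5], .l [0, 21, 9, 3, 16, 10, 12, 8, 8, 5, 13, 10, 5], .l [11, 2, 12, 20, 17, 2, 17, 9, 2, 8, 10, 1], .l [22, 21, 2, 15, 5, 3], .l [3, 15, 17, 13, 13, 11, 11, 8, 2, 2], .l [0, 6, 5, 2, 13, 15, 11, 11, 9, 9, 6, 13], .l [3, 15, 3, 15, 7, 2, 2, 16], .l [0, 6, 5, 2, 15, 15, 9, 9, 7, 7, 4, 11], .l [3, 15, 19, 15, 15, 13, 13, 10, 2, 2], .l [0, 6, 5, 2, 13, 17, 13, 13, 11, 11, 8, 13], .l [3, 15, 3, 17, 9, 2, 2, 16], .l [0, 19, 19, 11, 11, 9, 10, 7, 5, 2], .l [0, 19, 21,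 13, 13, 11, 11, 8, 5], .l [0, 19, 21, 13, 13, 11, 12, 9, 5, 2], .l [0, 19, 7, 19, 7, 5, 2, 12]]),
([p 4 1, s 3 0, g, s 7 2, s 0 3, g, p 0 4, p 5 0, g, s 0 0, p 6 5, g, p 0 6, g, s 0 7, g, s 2 0, g, s 1 0, g], .hi 9, [.l [3, 10, 11, 9, 4], .l [0, 19, 16, 7, 8, 6, 14], .l [3, 10, 11, 9, 4], .l [4, 8, 9, 7, 1], .l [6, 10, 11, 9, 1], .l [0, 19, 13, 4, 5, 3, 14], .l [6, 10, 11, 9, 1], .l [0, 17, 11, 2, 3, 1, 12], .l [3, 11, 1, 11, 7, 2, 2, 14], .l [0, 9, 12, 9, 5, 2, 12, 3, 4, 1], .l [0, 11, 1, 11, 7, 5, 2, 10], .y [9], .l [3, 6, 2, 2, 17, 7, 8, 5], .l [0, 19, 7, 8, 5], .l [0, 12, 2, 4, 3, 12, 8, 5, 2, 9], .l [0, 17, 5, 6, 5], .r 1925 [1, 2, 3, 4, 8, 5, 6, 7] [1, 1, 1, 1, 1, 1, 1, 1, 1], .l [0, 19, 10, 4, 14, 7, 10, 6, 12, 9, 4], .r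 1919 [1, 3, 4, 8, 5] [2, 1, 1, 0, 3, 5, 1], .l [3, 13, 13, 8, 9, 7, 2, 2], .l [3, 13, 15, 10, 11, 9, 2, 2, 12], .l [20, 19, 2, 11, 4, 11, 15, 9, 3], .l [3, 13, 15, 10, 11, 9, 2, 2], .l [3, 13, 17, 12, 13, 11, 2, 2, 12], .l [20, 19, 2, 11, 4, 13, 15, 7, 3], .l [3, 13, 17, 12, 13, 11, 2, 2], .l [0, 17, 19, 10, 11, 9, 5, 2], .l [18, 17, 2, 13, 6, 15, 10, 6, 8, 4, 9], .l [0, 17, 19, 10, 11, 9, 5]]),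
([p 3 1, s 2 0, g, s 6 0, s 0 2, g, p 0 3, p 4 0, g, s 0 0, p 5 4, g, p 0 5, g, s 0 6, g, s 1 0, g], .hi 3, [.l [5, 1, 7, 2, 2, 14], .l [4, 8, 3, 14, 8, 12, 2, 12], .l [5, 1, 7, 2, 2, 14], .c, .l [18, 17, 2, 3, 15, 9], .l [18, 17, 2, 13, 9, 11], .r 1923 [1, 7, 2, 3] [1, 1, 1, 9, 1], .l [16, 15, 2, 11, 7, 9], .l [0, 6, 5, 2, 6, 9, 7, 12], .l [0, 6, 5, 2, 6, 9, 7, 12], .l [2, 9, 5, 6, 14, 10, 13, 3], .l [0, 6, 5, 2, 6, 7, 5, 10], .l [0, 6, 5, 2, 9, 11, 9, 9, 6, 11], .l [0, 6, 5, 2, 9, 11, 9, 9, 6, 11], .l [2, 12, 8, 9, 14, 7, 13, 6], .l [0, 6, 5, 2, 9, 9, 7, 7, 4, 9], .r 1922 [1, 7, 2, 3, 4, 5, 6] [1, 1, 1, 1, 1, 1, 1, 1], .l [2, 6, 3, 14, 1, 12, 2, 12], .l [2, 14, 10, 11, 14, 5, 13, 8], .y [3, 14], .r 1926 [1, 7, 2, 3, 4, 5, 6]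 [1, 1, 1, 1, 1, 1, 1, 1], .l [18, 17, 2, 13], .l [2, 14, 10, 11, 14, 5, 13, 8], .l [17, 1, 15, 2, 14, 9], .l [16, 15, 2, 15], .l [2, 14, 10, 11, 12, 14, 2, 9]]),
([p 4 1, s 3 0, g, m 0 2, g, s 2 0, s 0 3, g, p 0 4, g, s 1 0, g], .hi 5, [.l [7, 3, 9, 2, 2, 7], .l [6, 10, 3, 7, 1, 5, 2, 5], .l [4, 10, 5, 1, 7, 5, 2, 5], .y [3, 5], .l [6, 10, 3, 7, 1, 5, 2, 5], .l [6, 10, 3, 7, 1, 5, 2, 5], .l [7, 1, 9, 2, 2, 7], .c, .l [12, 11, 4, 5, 9, 1], .l [12, 11, 4, 5], .l [2, 10, 7, 1, 4, 2, 4, 5], .l [10, 9, 4, 5], .l [4, 8, 3, 7, 1, 5, 2, 5], .l [4, 8, 3, 7, 1, 5, 2, 5], .l [2, 8, 5, 1, 7, 5, 2, 5], .l [4, 8, 3, 9, 3, 7, 2, 3], .l [4, 8, 3, 9, 3, 7, 2, 3], .l [2, 8, 5, 1, 9, 7, 2, 3]]),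
([p 3 1, s 2 0, g, s 0 0, s 0 2, g, p 0 3, p 4 0, g, s 0 0, p 5 4, g, p 0 5, g, s 1 0, g], .lo 3, [.l [1, 3, 2, 11], .l [5, 1, 7, 2, 2, 12], .l [5, 1, 7, 2, 2, 12], .r 1928 [1, 6, 2, 3] [1, 1, 1, 7, 1], .y [3], .l [16, 15, 2, 3, 13, 7], .r 1916 [1, 2, 6, 3] [1, 1, 1, 7, 1], .l [16, 15, 2, 3], .r 1918 [1, 2, 3, 6] [1, 1, 0, 6, 1], .l [0, 6, 5, 2, 6, 9, 7, 10], .r 1918 [1, 2, 3, 6] [1, 1, 2, 6, 1], .l [0, 6, 5, 2, 6, 9, 7, 10], .l [0, 6, 5, 2, 6, 7, 5, 8], .l [0, 6, 5, 2, 9, 11, 9, 9, 6, 9], .r 1918 [1, 2, 3, 6] [1, 1, 5, 3, 1], .l [0, 6, 5, 2, 9, 11, 9, 9, 6, 9], .r 1927 [1, 2, 3, 4, 5, 6] [1, 1, 1, 1, 1, 1, 1], .r 1918 [1, 2, 3, 6] [1, 1, 7, 1, 1], .l [16, 15, 2, 11], .l [14, 13, 2, 11], .l [15, 1, 13, 2, 12, 7], .r 1917 [1, 2,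 3, 6] [1, 1, 7, 1, 1], .l [14, 13, 2, 13]]),
([p 4 1, s 3 2, g, s 0 3, g, s 5 0, g, s 2 0, g, p 0 4, p 6 5, g, p 0 0, p 7 6, g, p 0 7, g, s 1 0, g], .hi 12, [.l [12, 4, 13, 4, 13, 4, 9], .l [12, 4, 13, 4, 13, 4, 9], .l [14, 10], .l [10, 4, 9, 5, 4, 1, 9, 5, 10, 3, 4, 1], .l [12, 4, 13, 6, 13, 4, 7], .l [12, 4, 13, 6, 13, 4, 7], .l [14, 8], .l [0, 12, 6, 3, 8, 12, 8, 4, 8, 10, 8, 3], .l [0, 12, 6, 3, 8, 12, 8, 4, 8, 10, 8, 3], .l [14, 6], .l [0, 12, 6, 1, 8, 12, 8, 4, 8, 10, 8, 3], .l [3, 1, 11, 6, 1, 7, 10, 7, 8, 10, 8, 3], .l [14, 4], .l [3, 1, 9, 4, 1, 5, 8, 5, 6, 8, 6, 3], .l [2, 14, 1, 14, 10, 6, 6, 13], .l [2, 12, 14, 11, 6, 6, 14, 3, 4, 1], .l [14, 1], .y [12], .l [0, 18, 3, 4, 1], .l [12, 14], .l [15, 2], .l [12, 14], .l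 [0, 10, 4, 1, 6, 10, 6, 2, 6, 8, 6, 7], .l [12, 16], .l [17, 4], .l [0, 10, 4, 1, 6, 10, 6, 2, 6, 8, 6, 9], .l [12, 18], .l [19, 6]]),
([p 3 1, s 2 0, g, s 0 2, g, s 4 0, g, p 0 3, p 5 4, g, p 0 0, p 6 5, g, p 0 6, g, s 1 0, g], .hi 1, [.l [4, 10, 2, 8, 1, 9, 3, 5, 5, 8], .l [2, 9, 6, 6, 14], .l [4, 10, 2, 8, 1, 9, 3, 5, 5, 8], .y [1, 3], .l [4, 10, 2, 8, 1, 9, 3, 5, 5, 8], .l [4, 9, 4, 4, 14], .r 854 [7, 3] [3, 3, 9], .r 1930 [1, 7, 2, 3, 4, 5, 6] [1, 1, 1, 1, 1, 1, 1, 1], .l [6, 9, 2, 2, 14], .r 854 [7, 3] [5, 1, 9], .l [6, 7, 0, 0, 12], .l [1, 9, 12, 10, 5], .l [0, 7, 6, 8, 11, 9, 12], .l [8, 2, 9, 2, 10, 3, 8], .l [0, 7, 6, 8, 9, 7, 10], .l [1, 12, 14, 12, 12, 9, 5], .l [0, 7, 6, 11, 13, 11, 11, 8, 11], .l [8, 2, 12, 5, 0,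 9, 5], .l [0, 7, 6, 11, 11, 9, 9, 6, 9], .l [3, 1, 7, 2, 14, 9, 6, 8, 9, 3], .l [17, 16, 13], .l [8, 2, 14, 7, 0, 11, 7], .l [8, 2, 16, 9, 6, 10, 1, 3, 9, 3], .l [15, 14, 15], .l [8, 2, 16, 9, 0, 13, 9]]),
([p 3 1, s 2 0, g, s 9 0, s 0 2, g, p 4 0, g, p 0 3, p 6 4, g, s 0 5, g, p 8 6, g, s 5 7, g, p 7 8, g, s 0 9, g, s 1 0, g], .lo 8, [.l [7, 8, 0, 0, 18], .l [17, 3, 13, 6, 9, 14, 12, 5, 10, 5, 1, 9, 7], .l [3, 9], .l [2, 10, 7, 6], .l [21, 20, 2, 16, 10, 14], .l [17, 3, 10, 3, 6, 14, 12, 2, 10, 8, 1, 9, 7], .l [6, 9], .l [0, 22, 16, 3, 3, 19, 2, 3], .l [6, 7], .l [20, 12, 1, 12, 9, 15, 2, 15, 10, 5], .l [8, 9], .l [0, 22, 14, 1, 1, 19, 2, 5], .l [0, 22, 14, 2, 6, 4, 17], .l [23, 22, 2, 21, 14, 16, 15, 13, 11, 13, 9, 9, 5], .l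 [0, 22, 14, 2, 6, 4, 17], .l [0, 22, 14, 4, 6, 2, 17], .l [23, 22, 2, 21, 14, 16, 15, 13, 9, 13, 11, 11, 7], .l [0, 22, 14, 4, 6, 2, 17], .l [0, 22, 14, 6, 10, 8, 8, 4, 15], .l [23, 22, 2, 21, 14, 16, 15, 15, 11, 9, 7, 9, 5], .l [0, 22, 14, 6, 10, 8, 8, 4, 15], .l [0, 22, 14, 8, 10, 6, 6, 2, 15], .l [15, 3, 16, 9, 10, 8, 10, 12, 1, 8, 1], .l [0, 22, 14, 8, 10, 6, 6, 2, 15], .l [14, 17, 15, 17, 12, 13, 11, 6, 11, 4, 9, 6, 7], .l [23, 22, 2, 21, 14, 16, 15, 15, 11, 11, 7, 5, 3], .l [7, 8, 0, 17], .l [14, 17, 15, 19, 14, 15, 13, 6, 13, 6, 11, 6, 9], .l [23, 22, 2, 16, 18, 7], .l [7, 8, 0, 19], .y [0, 21, 8], .l [14, 17, 15, 21, 16, 17, 15, 6, 15, 8, 13, 6, 11], .l [21, 20, 2, 16, 20, 9], .l [7, 8, 0, 21]]),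
([p 4 1, s 3 0, g, s 9 2, s 0 3, g, p 5 0, g, p 0 4, p 6 5, g, p 8 6, g, s 0 7, g, p 7 8, g, s 2 0, g, s 0 9, g, s 1 0, g], .lo 13, [.l [1, 12, 12, 12, 12, 10, 10, 8, 6], .l [3, 14, 14, 14, 14, 12, 12, 10, 6], .l [3, 14, 14, 14, 14, 12, 12, 10, 6], .l [0, 22, 5, 5, 17, 11, 11, 9, 9, 7, 13], .l [6, 14, 14, 14, 14, 12, 12, 10, 3], .l [6, 14, 14, 14, 14, 12, 12, 10, 3], .l [0, 22, 5, 5, 14, 8, 8, 6, 6, 4, 13], .y [6, 13, 15, 11, 9], .l [8, 14, 14, 14, 14, 12, 12, 10, 1], .l [8, 14, 14, 14, 14, 12, 12, 10, 1], .l [0, 22, 5, 5, 12, 6, 6, 4, 4, 2, 13], .r 1932 [1, 3, 4, 5, 10, 6, 7, 8, 9] [1, 1, 1, 1, 1, 1, 1, 3, 1, 1], .l [15, 3, 13, 2, 18, 3, 7, 3, 8, 5], .l [0, 22, 5, 5, 9, 3, 15, 7, 13, 11, 13, 8, 1], .l [3, 15, 1, 16, 12, 12, 10,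 4, 4, 15], .l [0, 15, 1, 16, 12, 12, 10, 7, 2, 13], .l [0, 22, 7, 1, 9, 7, 7, 1, 13, 9, 11, 7, 11, 6, 3], .l [3, 15, 1, 16, 12, 12, 10, 4, 4, 15], .l [0, 15, 1, 16, 12, 12, 10, 7, 2, 13], .l [0, 13, 16, 1, 14, 14, 12, 12, 10, 7, 2, 11], .l [13, 16, 1, 14, 1, 12, 18, 16, 2, 15, 8, 1], .l [17, 3, 5, 3, 13, 2, 16, 7, 1, 3, 6, 3], .l [13, 16, 1, 14, 1, 12, 18, 16, 2, 15, 8, 1], .l [3, 16, 1, 1, 14, 12, 12, 10, 10, 8, 4, 4], .l [3, 16, 18, 14, 14, 14, 14, 12, 12, 10, 4, 4, 11], .l [3, 16, 1, 1, 16, 14, 14, 12, 12, 10, 4, 4], .l [13, 18, 3, 16, 1, 14, 18, 14, 2, 13, 6, 1], .l [3, 18, 20, 14, 14, 14, 14, 12, 12, 10, 4, 4, 11], .l [3, 18, 3, 3, 18, 14, 14, 12, 12, 10, 4, 4], .l [13, 20, 5, 18, 1, 16, 18, 12, 2, 11, 4, 1], .l [13, 20, 5,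 18, 1, 16, 16, 10, 2, 9, 2, 1], .l [0, 20, 22, 14, 14, 14, 14, 12, 12, 10, 7, 2], .l [0, 20, 5, 5, 20, 14, 14, 12, 12, 10, 7], .l [21, 20, 2, 16, 5, 1, 5, 3, 3, 14, 12, 8, 10, 4, 9]]),
([p 4 1, s 3 0, g, s 8 2, s 0 3, g, p 5 0, g, p 0 4, p 6 5, g, p 7 6, g, p 0 7, g, s 2 0, g, s 0 8, g, s 1 0, g], .lo 13, [.l [0, 8, 7, 2, 14, 12, 8, 8, 6, 6, 4, 9], .l [3, 14, 14, 12, 12, 10, 6], .l [3, 14], .l [0, 20, 17, 11, 11, 9, 9, 7, 13], .l [6, 14, 14, 12, 12, 10, 3], .l [6, 14], .l [0, 20, 14, 8, 8, 6, 6, 4, 13], .y [6, 13, 11, 9], .l [8, 14, 14, 12, 12, 10, 1], .l [8, 14], .l [0, 20, 12, 6, 6, 4, 4, 2, 13], .l [0, 20, 9, 3, 15, 7, 13, 11, 13, 8, 1], .l [11, 14], .l [10, 13, 11, 11, 8, 10, 4, 9], .r 1933 [1, 2, 3, 4, 5, 6, 9, 7, 8] [1, 1,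 1, 1, 1, 1, 1, 1, 1, 1], .l [13, 14], .l [12, 15, 13, 13, 11, 11, 8, 10, 4, 1], .l [0, 20, 7, 1, 15, 9, 13, 11, 11, 9, 11, 6, 1], .l [21, 20, 2, 19, 12, 14, 13, 13, 11, 11, 9, 9, 7], .l [12, 13, 11, 11, 9, 9, 6, 8, 2, 7], .l [0, 8, 7, 2, 12, 12, 10, 10, 8, 8, 6, 9], .l [3, 14, 16, 14, 14, 12, 12, 10, 4, 4], .l [0, 8, 7, 2, 12, 14, 12, 12, 10, 10, 8, 11], .l [3, 14, 1, 14, 9, 4, 4, 15], .l [3, 16, 18, 14, 14, 12, 12, 10, 4, 4], .l [0, 8, 7, 2, 14, 16, 12, 12, 10, 10, 8, 11], .l [3, 16, 3, 16, 9, 4, 4, 15], .l [0, 18, 18, 12, 12, 10, 10, 8, 7], .l [0, 18, 20, 14, 14, 12, 12, 10, 7], .l [0, 18, 20, 14, 14, 12, 12, 10, 7], .l [0, 18, 5, 18, 9, 7, 2, 11]]),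
([p 4 1, s 3 0, g, s 7 2, s 0 3, g, p 5 0, g, p 0 4, p 6 5, g, p 0 6, g, s 2 0, g, s 0 7, g, s 1 0, g], .lo 11, [.l [0, 8, 7, 2, 12, 10, 6, 6, 4, 9], .l [3, 12, 12, 10, 6], .l [3, 12], .l [0, 18, 15, 9, 9, 7, 13], .l [6, 12, 12, 10, 3], .l [6, 12], .l [0, 18, 12, 6, 6, 4, 13], .y [6, 11, 9], .l [8, 12, 12, 10, 1], .l [8, 12], .l [0, 18, 10, 4, 4, 2, 13], .l [12, 11, 2, 15, 6, 2, 6, 3], .l [11, 12], .l [10, 13, 11, 11, 8, 10, 4, 1], .l [0, 18, 7, 1, 13, 7, 11, 9, 11, 6, 1], .r 1934 [1, 2, 3, 4, 5, 6, 8, 7] [1, 1, 1, 1, 1, 1, 1, 1, 1], .l [10, 11, 9, 9, 6, 8, 2, 7], .l [0, 8, 7, 2, 10, 10, 8, 8, 6, 9], .l [3, 12, 14, 12, 12, 10, 4, 4], .l [0, 8, 7, 2, 10, 12, 10, 10, 8, 11], .l [3, 12, 1, 12, 9, 4, 4, 13], .l [3, 14, 16, 12, 12,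 10, 4, 4], .l [0, 8, 7, 2, 12, 14, 10, 10, 8, 11], .l [3, 14, 3, 14, 9, 4, 4, 13], .l [0, 16, 16, 10, 10, 8, 7], .l [0, 16, 18, 12, 12, 10, 7], .l [0, 16, 18, 12, 12, 10, 7], .l [0, 16, 5, 16, 9, 7, 2, 9]]),
([p 4 1, s 3 0, g, s 6 2, s 0 3, g, p 5 0, g, p 0 4, p 0 5, g, s 2 0, g, s 0 6, g, s 1 0, g], .lo 9, [.l [0, 8, 7, 2, 10, 8, 4, 9], .l [3, 10, 6], .l [3, 10], .l [0, 16, 13, 7, 13], .l [6, 10, 3], .l [6, 10], .l [0, 16, 10, 4, 13], .y [6, 9], .l [8, 10, 1], .l [8, 10], .l [0, 16, 8, 2, 13], .l [17, 16, 2, 15, 8, 1], .r 1935 [1, 2, 3, 4, 5, 7, 6] [1, 1, 1, 1, 1, 1, 1, 1], .l [8, 9, 6, 8, 2, 7], .l [0, 8, 7, 2, 8, 8, 6, 9], .l [17, 16, 2, 15, 8, 3], .l [0, 8, 7, 2, 8, 10, 8, 11], .l [3, 10, 1, 11, 9, 4, 4, 11], .l [17, 16, 2,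 15, 8, 5], .l [0, 8, 7, 2, 10, 12, 8, 11], .l [3, 12, 3, 13, 9, 4, 4, 11], .l [0, 14, 14, 8, 7], .l [15, 14, 2, 13, 6, 13], .l [0, 14, 16, 10, 7], .l [0, 14, 5, 15, 9, 7, 2, 7]]),
([p 4 1, s 3 0, g, s 9 2, s 0 3, g, p 5 0, g, p 0 4, p 6 5, g, p 8 6, g, s 0 7, g, p 7 8, g, s 0 9, g, s 2 0, g, s 1 0, g], .lo 13, [.l [1, 12, 12, 12, 12, 10, 10, 8, 6], .l [3, 14, 14, 14, 14, 12, 12, 10, 6], .l [3, 14, 14, 14, 14, 12, 12, 10, 6], .l [0, 22, 5, 5, 17, 11, 11, 9, 9, 7, 13], .l [6, 14, 14, 14, 14, 12, 12, 10, 3], .l [6, 14, 14, 14, 14, 12, 12, 10, 3], .l [0, 22, 5, 5, 14, 8, 8, 6, 6, 4, 13], .y [6, 13, 15, 11, 9], .l [8, 14, 14, 14, 14, 12, 12, 10, 1], .l [8, 14, 14, 14, 14, 12, 12, 10, 1], .l [0, 22, 5, 5, 12, 6, 6, 4, 4, 2, 13], .r 1932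 [1, 3, 4, 5, 10, 6, 7, 8, 9] [1, 1, 1, 1, 1, 1, 1, 1, 3, 1], .l [15, 3, 13, 2, 16, 1, 5, 3, 6, 3], .l [0, 22, 5, 5, 9, 3, 15, 9, 13, 9, 13, 8, 5], .l [3, 15, 1, 16, 12, 12, 10, 4, 4, 15], .l [0, 15, 1, 16, 12, 12, 10, 7, 2, 11], .l [0, 22, 7, 1, 9, 7, 7, 1, 13, 7, 11, 9, 11, 6, 1], .l [3, 15, 1, 16, 12, 12, 10, 4, 4, 15], .l [0, 15, 1, 16, 12, 12, 10, 7, 2, 11], .l [0, 13, 16, 1, 14, 14, 12, 12, 10, 7, 2, 9], .l [13, 16, 1, 14, 1, 12, 18, 16, 2, 15, 8, 1], .l [17, 3, 5, 3, 13, 2, 14, 5, 1, 3, 4, 1], .l [13, 16, 1, 14, 1, 12, 18, 16, 2, 15, 8, 1], .l [3, 16, 18, 14, 14, 14, 14, 12, 12, 10, 4, 4, 11], .l [3, 16, 1, 1, 16, 14, 14, 12, 12, 10, 4, 4], .l [13, 18, 3, 16, 1, 14, 18, 14, 2, 13, 6, 1], .l [3, 16, 18, 14, 14, 14, 14, 12,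 12, 10, 4, 4, 9], .l [3, 16, 20, 16, 16, 16, 16, 14, 14, 12, 4, 4, 11], .l [3, 16, 1, 1, 18, 16, 16, 14, 14, 12, 4, 4], .l [13, 20, 5, 18, 1, 16, 18, 12, 2, 11, 4, 1], .l [13, 20, 5, 18, 1, 16, 16, 10, 2, 9, 2, 1], .l [0, 20, 22, 14, 14, 14, 14, 12, 12, 10, 7, 2], .l [0, 20, 5, 5, 20, 14, 14, 12, 12, 10, 7], .l [21, 20, 2, 16, 5, 1, 5, 3, 3, 14, 12, 8, 10, 4, 9]]),
([p 4 1, s 3 0, g, s 8 2, s 0 3, g, p 5 0, g, p 0 4, p 6 5, g, p 7 6, g, p 0 7, g, s 0 8, g, s 2 0, g, s 1 0, g], .lo 13, [.l [0, 8, 7, 2, 12, 10, 8, 8, 6, 6, 4, 9], .l [3, 14, 14, 12, 12, 10, 6], .l [3, 14], .l [0, 20, 17, 11, 11, 9, 9, 7, 13], .l [6, 14, 14, 12, 12, 10, 3], .l [6, 14], .l [0, 20, 14, 8, 8, 6, 6, 4, 13], .y [6, 13, 11, 9], .l [8, 14, 14, 12, 12, 10,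 1], .l [8, 14], .l [0, 20, 12, 6, 6, 4, 4, 2, 13], .l [0, 20, 9, 3, 15, 9, 13, 9, 13, 8, 5], .l [11, 14], .l [10, 13, 11, 11, 8, 10, 4, 9], .r 1937 [1, 2, 3, 4, 5, 6, 9, 7, 8] [1, 1, 1, 1, 1, 1, 1, 1, 1, 1], .l [13, 14], .l [12, 15, 13, 13, 11, 11, 8, 10, 4, 1], .l [0, 20, 7, 1, 15, 11, 13, 9, 9, 7, 11, 6, 3], .l [21, 20, 2, 19, 12, 14, 13, 13, 11, 11, 9, 9, 7], .l [12, 13, 11, 11, 9, 9, 6, 8, 2, 7], .l [3, 14, 16, 14, 14, 12, 12, 10, 4, 4], .l [0, 8, 7, 2, 12, 14, 12, 12, 10, 10, 8, 11], .l [3, 14, 1, 14, 9, 4, 4, 15], .l [0, 8, 7, 2, 14, 14, 10, 10, 8, 8, 6, 9], .l [3, 14, 18, 16, 16, 14, 14, 12, 4, 4], .l [0, 8, 7, 2, 12, 16, 14, 14, 12, 12, 10, 11], .l [3, 14, 1, 16, 11, 4, 4, 15], .l [0, 18, 18, 12, 12, 10, 10, 8, 7], .l [0,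 18, 20, 14, 14, 12, 12, 10, 7], .l [0, 18, 20, 14, 14, 12, 12, 10, 7], .l [0, 18, 5, 18, 9, 7, 2, 13]]),
([p 4 1, s 3 0, g, s 7 2, s 0 3, g, p 5 0, g, p 0 4, p 6 5, g, p 0 6, g, s 0 7, g, s 2 0, g, s 1 0, g], .lo 11, [.l [0, 8, 7, 2, 10, 8, 6, 6, 4, 9], .l [3, 12, 12, 10, 6], .l [3, 12], .l [0, 18, 15, 9, 9, 7, 13], .l [6, 12, 12, 10, 3], .l [6, 12], .l [0, 18, 12, 6, 6, 4, 13], .y [6, 11, 9], .l [8, 12, 12, 10, 1], .l [8, 12], .l [0, 18, 10, 4, 4, 2, 13], .l [12, 11, 2, 13, 4, 2, 4, 1], .l [11, 12], .l [10, 13, 11, 11, 8, 10, 4, 1], .l [0, 18, 7, 1, 13, 9, 11, 7, 11, 6, 3], .r 1938 [1, 2, 3, 4, 5, 6, 8, 7] [1, 1, 1, 1, 1, 1, 1, 1, 1], .l [10, 11, 9, 9, 6, 8, 2, 7], .l [3, 12, 14, 12, 12, 10, 4, 4], .l [0, 8, 7, 2, 10, 12, 10,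 10, 8, 11], .l [3, 12, 1, 12, 9, 4, 4, 13], .l [0, 8, 7, 2, 12, 12, 8, 8, 6, 9], .l [3, 12, 16, 14, 14, 12, 4, 4], .l [0, 8, 7, 2, 10, 14, 12, 12, 10, 11], .l [3, 12, 1, 14, 11, 4, 4, 13], .l [0, 16, 16, 10, 10, 8, 7], .l [0, 16, 18, 12, 12, 10, 7], .l [0, 16, 18, 12, 12, 10, 7], .l [0, 16, 5, 16, 9, 7, 2, 11]]),
([p 4 1, s 3 0, g, s 6 2, s 0 3, g, p 5 0, g, p 0 4, p 0 5, g, s 0 6, g, s 2 0, g, s 1 0, g], .lo 9, [.l [0, 8, 7, 2, 8, 6, 4, 9], .l [3, 10, 6], .l [3, 10], .l [0, 16, 13, 7, 13], .l [6, 10, 3], .l [6, 10], .l [0, 16, 10, 4, 13], .y [6, 9], .l [8, 10, 1], .l [8, 10], .l [0, 16, 8, 2, 13], .l [17, 16, 2, 15, 8, 1], .r 1939 [1, 2, 3, 4, 5, 7, 6] [1, 1, 1, 1, 1, 1, 1, 1], .l [8, 9, 6, 8, 2, 7], .l [17, 16, 2, 15, 8, 3],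 .l [0, 8, 7, 2, 8, 10, 8, 11], .l [3, 10, 1, 11, 9, 4, 4, 11], .l [0, 8, 7, 2, 10, 10, 6, 9], .l [17, 16, 2, 15, 8, 5], .l [0, 8, 7, 2, 8, 12, 10, 11], .l [3, 10, 1, 13, 11, 4, 4, 11], .l [0, 14, 14, 8, 7], .l [15, 14, 2, 13, 6, 13], .l [0, 14, 16, 10, 7], .l [0, 14, 5, 15, 9, 7, 2, 9]]),
([p 3 1, s 2 0, g, s 5 0, s 0 2, g, p 4 0, g, p 0 3, p 0 4, g, s 0 5, g, s 1 0, g], .hi 3, [.l [5, 1, 9, 4, 4, 11], .l [4, 10, 5, 11, 3, 9, 4, 9], .l [5, 1, 9, 4, 4, 11], .c, .l [15, 14, 2, 3, 12, 4], .l [15, 14, 2, 10, 6, 8], .r 1923 [1, 6, 2, 3] [1, 1, 3, 4, 1], .l [15, 14, 2, 5, 8, 6], .l [15, 14, 2, 10, 4, 8], .l [5, 8, 5, 11, 5, 8, 9, 3, 8, 3], .l [13, 12, 2, 8, 2, 6], .l [0, 8, 7, 2, 6, 9], .r 1936 [1, 6, 2, 3, 4, 5] [1, 1, 1, 1, 1, 1, 1],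 .l [2, 8, 5, 11, 1, 9, 4, 9], .l [2, 11, 7, 8, 11, 7, 10, 3], .y [3, 11], .r 1940 [1, 6, 2, 3, 4, 5] [1, 1, 1, 1, 1, 1, 1], .l [15, 14, 2, 10], .l [2, 11, 7, 8, 11, 7, 10, 3], .l [14, 1, 12, 2, 11, 4], .l [13, 12, 2, 12], .l [2, 11, 7, 8, 9, 11, 2, 4]]),
([p 2 0, s 0 1, g, s 3 0, g, p 0 2, p 4 3, g, p 0 4, p 5 0, g, s 1 0, g, p 0 5, g], .hi 0, [.c, .l [8, 2, 7, 5, 4, 9, 11, 9, 2, 3], .l [0, 2], .l [3, 2], .l [8, 4, 1, 5, 9, 11, 9, 4], .l [0, 4], .l [5, 4], .y [0, 5], .l [0, 7, 9, 7, 4], .l [0, 7], .l [8, 7], .l [0, 7], .l [6, 2, 5, 3, 2, 9, 11, 7, 2, 7], .l [0, 10], .l [11, 10], .l [6, 2, 5, 3, 2, 7, 11, 9, 2, 5], .l [0, 12], .l [13, 12], .l [0, 12], .l [6, 2, 5, 3, 2, 7, 9, 7, 2, 7], .l [0, 14], .l [15, 14]]),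
([p 2 0, s 0 1, g, p 0 2, p 3 0, g, p 4 3, p 5 0, g, s 0 4, g, p 0 5, g, s 1 0, g], .hi 0, [.c, .l [7, 15, 8, 12, 11, 2, 4, 2, 8, 1], .l [0, 2], .l [3, 2], .y [0, 3], .l [0, 5, 7, 5, 2], .l [0, 5], .l [6, 5], .l [0, 8, 10, 7, 7, 5, 2], .l [0, 8], .l [9, 8], .l [0, 8, 8, 5, 5, 3, 2], .l [0, 10, 12, 8, 10, 9, 9, 7, 2], .l [0, 10], .l [11, 10], .l [0, 10], .l [5, 15, 10, 12, 11, 2, 4, 2, 8, 3], .l [0, 12], .l [13, 12], .l [5, 13, 8, 10, 9, 2, 4, 2, 6, 7], .l [0, 14], .l [15, 14]]),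
([p 2 0, g, s 0 1, g, s 3 0, g, p 0 2, p 4 3, g, p 5 4, p 6 0, g, p 0 5, g, p 0 6, g, s 1 0, g], .hi 10, [.l [9, 2, 11, 4, 1, 7, 4], .l [9, 2, 11, 4, 1, 7, 4], .l [12, 9], .l [7, 2, 9, 4, 1, 5, 2], .l [9, 2, 11, 6, 3, 7, 2], .l [9, 2, 11, 6, 3, 7, 2], .l [12, 7], .l [12, 5, 2, 5, 13, 11, 2], .l [9, 4, 17, 10, 1, 11, 8, 12, 11, 7, 5, 9, 7], .l [12, 5], .l [7, 2, 15, 10, 1, 11, 8, 10, 9, 7, 5, 7, 5], .l [7, 2, 11, 2, 13, 9, 4, 10, 1], .l [7, 2, 17, 12, 1, 13, 8, 10, 9, 7, 5, 7, 5], .l [12, 2], .r 1870 [2, 4, 7, 5, 6] [5, 1, 1, 1, 1, 3], .l [10, 11], .l [12, 1], .l [10, 11], .l [7, 2, 13, 3, 13, 9, 0, 10, 8, 4, 7], .l [10, 13], .l [14, 3], .y [10, 14], .l [7, 2, 9, 13, 10, 4, 8, 10, 1], .l [10, 15], .l [16, 5], .l [7, 2, 9, 15, 12,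 4, 8, 12, 3], .l [10, 17], .l [18, 7]]),
([p 2 0, g, s 0 1, g, s 3 0, g, p 0 2, p 4 3, g, p 5 4, g, p 6 5, m 0 0, g, p 0 6, g, s 1 0, g], .hi 12, [.l [2, 13, 15, 14, 14, 12, 12, 10, 5], .l [1, 8, 6, 12], .l [2, 13], .l [2, 11, 13, 12, 12, 10, 10, 8, 3], .l [4, 13, 15, 14, 14, 12, 12, 10, 3], .l [2, 17, 13, 9, 11, 10, 10, 8, 8, 6, 7], .l [4, 13], .l [6, 13, 15, 14, 14, 12, 12, 10, 1], .l [2, 17, 11, 7, 9, 8, 8, 6, 6, 4, 7], .l [6, 13], .l [2, 15, 9, 5, 7, 6, 6, 4, 4, 2, 5], .l [7, 2, 17, 12, 1, 13, 8, 8, 6, 7], .l [11, 13, 12, 1, 11, 8], .l [9, 13], .l [11, 13, 10], .l [11, 0, 13, 10], .l [11, 13], .y [12], .l [7, 2, 17, 12, 1, 13, 10, 10, 8, 1], .l [7, 2, 6, 4, 15, 12, 14, 10, 10, 8, 1, 7, 3], .l [12, 16, 14, 17, 8, 3, 4, 12, 12,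 10, 7], .l [7, 2, 6, 4, 13, 10, 12, 8, 8, 6, 1, 5, 3], .l [7, 2, 17, 12, 1, 13, 10, 10, 8, 3], .l [7, 2, 17, 12, 1, 13, 10, 10, 8, 3], .l [7, 2, 17, 12, 1, 13, 10, 10, 8, 8, 5, 7, 5], .l [7, 2, 15, 10, 1, 11, 8, 8, 6, 9], .l [7, 2, 15, 10, 1, 11, 8, 8, 6, 9], .l [2, 15, 17, 13, 15, 14, 14, 12, 12, 10, 3]]),
([p 2 0, g, s 0 1, g, s 3 0, g, p 0 2, p 4 3, g, p 5 4, g, p 6 5, p 0 0, g, p 0 6, g, s 1 0, g], .lo 12, [.l [0, 11], .l [2, 13, 15, 14, 14, 12, 12, 10, 5], .l [2, 13], .l [1, 8, 6, 12], .l [4, 13, 15, 14, 14, 12, 12, 10, 3], .l [4, 13], .l [2, 17, 13, 9, 11, 10, 10, 8, 8, 6, 7], .l [4, 11, 13, 12, 12, 10, 10, 8, 1], .l [6, 13, 15, 14, 14, 12, 12, 10, 1], .l [6, 13], .l [2, 17, 11, 7, 9, 8, 8, 6, 6, 4, 7], .l [7, 2, 17, 12,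 1, 13, 8, 8, 6, 7], .l [9, 13], .l [11, 13, 12, 1, 11, 8], .l [11, 13, 10], .l [11, 13], .l [11, 0, 13, 10], .y [12], .l [7, 2, 17, 12, 1, 13, 10, 10, 8, 1], .l [12, 16, 14, 17, 8, 3, 4, 12, 12, 10, 7], .l [7, 2, 6, 4, 15, 12, 14, 10, 10, 8, 1, 7, 3], .l [7, 2, 17, 12, 1, 13, 10, 10, 8, 3], .l [7, 2, 17, 12, 1, 13, 10, 10, 8, 8, 5, 7, 5], .l [7, 2, 17, 12, 1, 13, 10, 10, 8, 3], .l [2, 15, 15, 11, 13, 12, 12, 10, 10, 8, 3], .l [7, 2, 15, 10, 1, 11, 8, 8, 6, 9], .l [2, 15, 17, 13, 15, 14, 14, 12, 12, 10, 3], .l [7, 2, 15, 10, 1, 11, 8, 8, 6, 9]]),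
([p 2 0, s 0 1, g, s 3 0, g, p 0 2, p 4 3, g, p 5 4, p 7 5, s 0 0, g, s 0 6, g, p 6 7, g, s 1 0, g], .hi 10, [.l [1, 9, 13, 12, 12, 11, 11, 9, 3], .l [3, 11, 15, 14, 14, 13, 13, 11, 3], .l [2, 8, 2, 1, 4, 8, 12, 11, 4], .l [3, 11, 15, 14, 14, 13, 13, 11, 3], .l [5, 11, 15, 14, 14, 13, 13, 11, 1], .l [4, 8, 9, 8, 2, 8, 12, 11, 1], .l [5, 11, 15, 14, 14, 13, 13, 11, 1], .l [4, 6, 7, 6, 0, 6, 10, 9, 1], .l [8, 11, 15, 14, 7], .l [6, 2, 5, 3, 10, 13, 10, 10, 9, 1, 8, 2, 1], .l [8, 11, 15, 14, 7], .y [10], .l [6, 2, 17, 12, 0, 14, 11, 11, 10, 1], .l [6, 2, 17, 12, 0, 14, 11, 11, 10, 1], .l [12, 1, 17, 6, 11, 2, 8, 1, 1, 9, 4, 1], .l [6, 2, 15, 10, 0, 12, 9, 9, 8, 1], .l [6, 2, 17, 12, 0, 14, 11, 11, 10, 3], .l [6, 2, 17, 12, 0, 14,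 11, 11, 10, 3], .l [6, 2, 17, 12, 6, 9, 3, 12, 7, 7, 6, 7], .l [6, 2, 17, 12, 0, 14, 11, 11, 10, 5], .l [6, 2, 9, 13, 9, 3, 7, 9, 1], .l [0, 6, 2, 15, 5, 9, 12, 9, 2], .l [6, 2, 15, 10, 0, 12, 9, 9, 8, 11], .l [6, 2, 9, 15, 11, 3, 7, 11, 3], .l [0, 6, 2, 17, 7, 11, 14, 11, 4]]),
([p 2 0, s 0 1, g, s 3 0, g, p 0 2, p 4 3, g, p 5 4, p 7 5, g, s 0 6, g, p 6 7, g, s 1 0, g], .top 10, [.l [6, 2, 13, 8, 0, 10, 7, 7, 6, 1], .r 1947 [1, 2, 3, 4, 5, 6, 7] [1, 1, 1, 1, 1, 1, 1], .r 1946 [1, 2, 3, 4, 5, 7] [0, 1, 1, 1, 0, 3, 1, 1], .r 1945 [1, 2, 3, 4, 5, 7] [0, 1, 1, 1, 0, 3, 1, 1]]),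
([p 2 0, s 0 1, g, s 3 0, g, p 0 2, p 4 3, g, p 0 4, p 5 0, g, p 6 5, g, s 0 6, g, s 1 0, g], .hi 0, [.c, .l [12, 17, 5, 11, 10, 1, 10, 2, 8, 9, 2, 3], .l [0, 2], .l [3, 2], .l [8, 4, 16, 9, 13, 8, 1, 5, 8, 3], .l [0, 4], .l [5, 4], .y [0, 5], .l [0, 7, 9, 7, 4], .l [0, 7], .l [8, 7], .l [0, 7], .l [11, 10, 10, 5, 0, 6, 10, 6, 1], .l [0, 10], .l [11, 10], .l [6, 2, 5, 3, 14, 11, 6, 1, 6, 10, 6, 1], .l [0, 12], .l [13, 12], .l [13, 12, 13, 3, 1, 1, 5, 7, 6, 6, 4, 1], .l [10, 17, 7, 11, 10, 1, 10, 2, 8, 9, 2, 5], .l [0, 14], .l [15, 14], .l [6, 2, 5, 3, 12, 9, 12, 7, 1, 5, 6, 1], .l [0, 16], .l [17, 16]]),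
([p 2 0, s 0 1, g, s 3 0, g, p 0 2, p 4 3, g, p 0 4, p 5 0, g, p 6 5, g, s 1 0, g, s 0 6, g], .hi 0, [.c, .l [8, 2, 7, 5, 4, 11, 13, 11, 11, 9, 2, 3], .l [0, 2], .l [3, 2], .l [8, 4, 1, 5, 11, 13, 11, 11, 9, 4], .l [0, 4], .l [5, 4], .y [0, 5], .l [0, 7, 9, 7, 4], .l [0, 7], .l [8, 7], .l [0, 7], .l [11, 10, 10, 5, 0, 6, 10, 6, 1], .l [0, 10], .l [11, 10], .l [6, 2, 5, 3, 2, 11, 13, 9, 9, 7, 2, 7], .l [0, 12], .l [13, 12], .l [6, 2, 5, 3, 2, 9, 13, 11, 11, 9, 2, 5], .l [0, 14], .l [15, 14], .l [15, 14, 11, 1, 11, 11, 5, 7, 6, 6, 4, 1], .l [6, 2, 5, 3, 2, 9, 11, 9, 9, 7, 2, 7], .l [0, 16], .l [17, 16]]),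
([p 2 0, s 0 1, g, s 3 0, g, p 0 2, p 4 3, g, p 5 4, p 6 5, g, p 0 6, g, s 1 0, g], .lo 11, [.l [0, 10], .l [3, 12, 12, 10, 10, 9, 9, 7, 3], .l [3, 12], .l [1, 14, 11, 9, 9, 7, 7, 6, 6, 4, 5], .y [3, 11, 9, 8, 6], .l [5, 12, 12, 10, 10, 9, 9, 7, 1], .l [5, 12], .l [1, 14, 9, 7, 7, 5, 5, 4, 4, 2, 5], .l [8, 12, 12, 10, 7], .l [8, 12], .l [8, 0, 12, 12, 10, 7], .r 1948 [1, 2, 3, 4, 5, 7, 6] [1, 1, 1, 1, 1, 1, 1], .l [11, 12], .l [6, 2, 14, 9, 0, 11, 8, 8, 7, 7, 3, 5, 1], .r 1949 [1, 2, 3, 4, 6, 7] [1, 1, 1, 1, 1, 1, 1], .l [6, 2, 14, 9, 0, 11, 8, 8, 7, 7, 5, 5, 3], .l [0, 9, 12, 9, 2, 7, 8, 2, 4, 8, 2, 0, 3], .l [1, 12, 12, 10, 10, 8, 8, 7, 7, 5, 3], .r 1950 [1, 2, 3, 4, 6, 7] [1, 1, 1, 1, 1, 1, 1], .l [1, 12, 14, 12, 12, 10, 10,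 9, 9, 7, 3], .l [6, 2, 12, 7, 0, 9, 6, 6, 5, 5, 3, 3, 5]]),
([p 3 1, s 0 2, g, s 1 0, g, p 0 3, p 6 0, g, s 0 4, g, p 5 0, g, p 0 5, p 4 6, g, s 2 0, g], .lo 1, [.l [1, 16, 13, 14, 11, 6, 8, 3, 8, 1, 4, 1], .r 1556 [1, 7, 3] [1, 1, 1, 11], .l [2, 7, 4, 4, 1], .l [2, 5, 2, 2, 1], .l [3, 2, 15, 2, 10, 13, 1, 9, 5, 1, 4, 1], .l [5, 3, 11, 13, 8, 1, 4, 2, 10, 1, 4, 1], .l [3, 2, 3], .l [3, 6, 3, 4, 11, 9, 1], .l [1, 7, 14, 12, 3], .l [3, 8, 5, 6, 13, 9, 1], .l [0, 5, 4, 6, 13, 11, 1], .l [1, 9, 14, 10, 3], .l [3, 10, 7, 8, 13, 7, 1], .l [0, 5, 4, 8, 13, 9, 1], .l [3, 10, 7, 8, 10, 8, 10, 6, 1], .l [1, 11, 13, 11, 13, 9, 3], .l [3, 12, 9, 10, 12, 8, 12, 8, 1], .l [0, 5, 4, 10, 12, 10, 12, 8, 1], .l [15, 13, 16, 2, 13, 6, 8, 3, 10, 3,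 6, 1], .l [15, 13, 16, 2, 13, 6, 8, 3, 10, 3, 6, 1], .l [3, 2, 13], .y [1, 15], .l [15, 13, 16, 2, 13, 6, 8, 3, 10, 3, 6, 1], .l [15, 13, 16, 2, 13, 6, 8, 3, 10, 3, 6, 1], .l [3, 2, 15]]),
([p 3 1, s 0 2, g, s 1 0, g, p 0 3, p 5 0, g, s 0 4, g, p 0 0, p 4 5, g, s 2 0, g], .hi 10, [.l [8, 10, 2], .l [10, 12, 4], .l [10, 12, 4], .l [12, 8], .l [10, 12, 6], .l [10, 12, 6], .l [12, 6], .l [8, 10, 6], .l [10, 12, 9], .l [10, 12, 9], .l [12, 3], .l [8, 10, 9], .l [8, 12, 1], .r 1952 [1, 2, 3, 4, 6, 5] [1, 1, 1, 1, 1, 1, 1], .l [12, 1], .y [10], .l [8, 10, 11], .l [10, 12], .l [13, 2], .l [8, 10, 13], .l [10, 14], .l [15, 4]]),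
([p 3 1, s 0 2, g, s 1 0, g, p 0 3, p 6 0, g, s 0 4, g, m 0 5, g, m 5 0, p 4 6, g, s 2 0, g], .lo 1, [.l [1, 16, 13, 14, 11, 6, 8, 3, 8, 1, 4, 1], .r 1556 [1, 7, 3] [1, 1, 1, 11], .l [2, 7, 4, 4, 1], .l [2, 5, 2, 2, 1], .l [3, 2, 15, 2, 10, 13, 1, 9, 5, 1, 4, 1], .l [5, 3, 11, 13, 8, 1, 4, 2, 10, 1, 4, 1], .l [3, 2, 3], .l [3, 6, 3, 4, 11, 9, 1], .l [1, 7, 14, 12, 3], .l [3, 8, 5, 6, 13, 9, 1], .l [0, 5, 4, 6, 13, 11, 1], .l [1, 9, 14, 10, 3], .l [3, 10, 7, 8, 13, 7, 1], .l [0, 5, 4, 8, 13, 9, 1], .l [1, 11, 13, 11, 13, 9, 3], .l [3, 12, 9, 10, 12, 8, 12, 8, 1], .l [0, 5, 4, 10, 12, 10, 12, 8, 1], .l [0, 5, 4, 10, 10, 8, 10, 6, 1], .l [15, 13, 16, 2, 13, 6, 8, 3, 10, 3, 6, 1], .l [15, 13, 16, 2, 13, 6, 8, 3, 10, 3, 6, 1], .l [3,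 2, 13], .y [1, 15], .l [15, 13, 16, 2, 13, 6, 8, 3, 10, 3, 6, 1], .l [15, 13, 16, 2, 13, 6, 8, 3, 10, 3, 6, 1], .l [3, 2, 15]]),
([p 3 1, s 0 2, g, s 1 0, g, p 0 3, p 5 0, g, s 0 4, g, m 0 0, p 4 5, g, s 2 0, g], .lo 10, [.l [10, 12, 4], .l [12, 8], .l [10, 12, 4], .l [8, 10, 4], .l [10, 12, 6], .l [12, 6], .l [10, 12, 6], .l [10, 3], .l [10, 12, 9], .l [12, 3], .l [10, 12, 9], .l [8, 12, 1], .l [12, 1], .r 1954 [1, 2, 3, 4, 6, 5] [1, 1, 1, 1, 1, 1, 1], .y [10], .l [8, 10, 11], .l [13, 2], .l [10, 12], .l [8, 10, 11], .l [8, 10, 13], .l [15, 4], .l [10, 14]]),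
([p 3 1, s 0 2, g, s 1 0, g, p 0 3, p 6 0, g, s 0 4, g, s 0 5, g, p 4 6, s 0 7, g, m 7 0, g, s 5 0, g, s 2 0, g], .lo 13, [.l [5, 4, 11, 17, 8, 4, 10, 1], .l [5, 4, 19, 10, 3, 10, 6, 13], .l [13, 15, 4, 8, 5, 9, 13, 4, 10], .l [15, 1, 2, 7, 6, 8, 11, 9, 1, 5, 6, 9], .l [3, 2, 11, 17, 10, 6, 10, 5], .l [3, 2, 19, 10, 3, 10, 6, 11], .l [13, 15, 6, 8, 3, 9, 13, 4, 10], .l [6, 12, 11], .l [8, 14, 11], .l [8, 14, 11], .l [7, 21, 14, 18, 17, 6, 16, 1], .l [10, 14, 9], .l [10, 14, 9], .l [3, 2, 19, 12, 5, 12, 6, 7], .l [12, 14, 7], .l [12, 14, 7], .l [3, 2, 19, 12, 5, 12, 6, 9], .l [11, 10, 20, 13, 4, 13, 8, 1], .l [17, 3, 8, 3, 8, 4, 1], .l [3, 2, 19, 12, 3, 12, 8, 1], .y [13, 15], .l [11, 10, 20, 13, 4, 13, 8, 3], .l [17, 3, 8, 3, 8,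 4, 1], .l [3, 2, 19, 12, 3, 12, 8, 3], .l [0, 10, 16, 16, 12, 7, 4, 13], .l [3, 2, 9, 15, 17, 13, 6, 1], .l [19, 5, 10, 3, 10, 6, 3], .l [3, 2, 19, 12, 3, 12, 8, 5], .l [0, 10, 16, 18, 14, 7, 4, 11], .l [3, 2, 9, 15, 19, 15, 6, 1], .l [21, 7, 12, 3, 12, 8, 5], .l [3, 2, 17, 10, 3, 10, 6, 15]]),
([p 3 1, s 0 2, g, s 1 0, g, p 0 3, p 6 0, g, s 0 4, g, s 0 5, g, p 4 6, s 0 0, g, s 5 0, g, s 2 0, g], .hi 13, [.l [1, 16, 8, 3, 8, 4, 12, 1], .l [5, 4, 11, 15, 6, 4, 8, 1], .l [13, 10, 13, 6, 5, 7, 1], .l [5, 4, 17, 8, 3, 8, 4, 11], .l [3, 2, 11, 15, 8, 6, 8, 3], .l [13, 8, 13, 8, 7, 9, 1], .l [3, 2, 17, 8, 3, 8, 4, 9], .l [11, 6, 11, 8, 7, 9, 1], .l [8, 14, 11], .l [7, 19, 12, 16, 15, 6, 14, 1], .l [8, 14, 11], .l [8, 12, 9], .l [10,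 14, 9], .l [3, 2, 17, 10, 5, 10, 4, 5], .l [10, 14, 9], .l [10, 12, 7], .l [12, 14, 7], .l [3, 2, 17, 10, 5, 10, 4, 7], .l [12, 14, 7], .y [13], .l [11, 10, 18, 11, 4, 11, 6, 1], .l [3, 2, 17, 10, 3, 10, 6, 1], .r 1956 [1, 2, 3, 4, 5, 6, 7] [1, 1, 1, 1, 1, 1, 1, 1, 1], .l [3, 2, 9, 13, 15, 13, 6, 1], .l [3, 2, 17, 10, 3, 10, 6, 3], .l [0, 10, 14, 16, 14, 7, 4, 13], .l [3, 2, 9, 13, 17, 15, 6, 1], .l [3, 2, 15, 8, 3, 8, 4, 13], .l [0, 10, 14, 18, 16, 7, 4, 11]]),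
([p 3 1, g, s 0 2, g, s 1 0, g, p 0 3, p 6 0, g, s 0 4, g, s 0 5, p 4 6, p 7 0, g, p 0 7, g, s 5 0, g, s 2 0, g], .hi 13, [.l [10, 15, 6, 12, 10, 2, 14, 3, 10, 7], .l [10, 15, 6, 12, 10, 2, 14, 3, 10, 7], .l [15, 12], .l [8, 13, 6, 10, 8, 2, 12, 3, 8, 5], .l [10, 15, 8, 12, 8, 2, 14, 3, 10, 7], .l [10, 15, 8, 12, 8, 2, 14, 3, 10, 7], .l [15, 10], .l [10, 15, 10, 12, 6, 2, 14, 3, 10, 7], .l [10, 15, 10, 12, 6, 2, 14, 3, 10, 7], .l [15, 8], .l [8, 13, 10, 10, 4, 2, 12, 3, 8, 5], .l [7, 15, 5, 11, 3, 14, 8, 5, 8], .l [19, 5, 16, 19, 12, 7, 10, 11, 8, 5], .l [15, 5], .l [7, 13, 3, 9, 3, 12, 6, 3, 6], .l [7, 15, 3, 11, 3, 14, 6, 3, 8], .l [19, 5, 16, 19, 10, 5, 8, 11, 8, 3], .l [15, 3], .l [13, 1, 2], .l [4, 3, 6, 13, 1, 14, 12, 9,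 1], .l [13, 14], .l [15, 1], .y [13, 15], .l [17, 3, 7, 2, 7, 4, 1], .l [13, 16], .l [17, 3], .l [19, 5, 9, 2, 9, 6, 3], .l [13, 18], .l [19, 5], .l [21, 7, 11, 2, 11, 8, 5], .l [13, 20], .l [21, 7]]),
([p 3 1, g, s 0 2, g, s 1 0, g, p 0 3, p 6 0, g, s 0 4, g, s 0 5, p 4 6, p 0 0, g, s 5 0, g, s 2 0, g], .lo 13, [.l [17, 3, 7, 6, 12, 14, 8, 1], .l [2, 14], .l [1, 8, 6, 13], .l [17, 3, 7, 6, 10, 14, 10, 1], .l [4, 14], .l [3, 8, 4, 13], .l [15, 3, 7, 6, 8, 8, 10, 10, 6, 1], .l [17, 3, 7, 6, 8, 14, 12, 1], .l [6, 14], .l [5, 8, 2, 13], .l [7, 12], .l [9, 14, 11], .l [9, 14], .l [9, 0, 14, 11], .l [11, 14, 9], .l [11, 14], .l [11, 0, 14, 9], .y [13], .l [11, 16, 9, 3, 9, 5, 10, 1, 8, 1], .r 1958 [1, 2, 3, 4, 5, 6, 7] [1, 1, 1, 1,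 1, 1, 1, 1, 1], .l [17, 5, 9, 8, 1], .l [11, 14, 14, 12, 7], .l [11, 14, 7, 3, 7, 3, 8, 1, 6, 9], .l [11, 14, 16, 14, 7], .l [15, 3, 7, 6, 14], .l [11, 14, 7, 3, 7, 3, 8, 1, 6, 9], .l [11, 14, 7, 3, 7, 3, 8, 1, 6, 11], .l [11, 14, 18, 16, 7], .l [15, 3, 7, 6, 16]]),
([p 3 1, s 0 2, g, s 1 0, g, p 0 3, p 6 0, g, s 0 4, g, s 0 5, p 4 6, g, s 5 0, g, s 2 0, g], .top 12, [.l [10, 11, 6], .r 1957 [1, 2, 3, 4, 5, 6] [1, 1, 1, 1, 0, 1, 1, 1], .r 1959 [1, 2, 3, 4, 5, 6] [0, 1, 1, 1, 1, 1, 1, 1], .r 1819 [3, 6] [4, 4, 5]]),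
([p 3 1, s 0 2, g, s 1 0, g, p 0 3, p 6 0, g, s 0 4, g, p 5 0, g, s 0 5, p 4 6, g, s 2 0, g], .lo 12, [.l [3, 13, 13, 11, 13, 9, 3], .l [3, 13, 13, 11, 13, 9, 3], .l [10, 14, 6], .l [3, 11, 8, 10, 10, 6, 10, 6, 1], .l [5, 13, 13, 11, 13, 9, 1], .l [5, 13, 13, 11, 13, 9, 1], .l [10, 14, 8], .l [3, 2, 13, 6, 4, 5], .l [0, 10, 14, 11, 13, 11, 4, 11], .l [3, 2, 15, 6, 4, 5], .l [10, 14, 11], .l [14, 3, 12, 15, 8, 6, 8, 1], .l [8, 14, 3], .l [3, 2, 15, 4, 1, 4, 2, 3], .y [10, 12], .l [13, 12, 16, 5, 2, 9, 5, 1, 4, 1], .l [8, 14, 1], .l [3, 2, 15, 4, 1, 4, 2, 3], .l [9, 15, 2, 8, 2, 13, 6, 2, 8, 1], .l [15, 2, 5], .l [8, 12, 13], .l [3, 2, 13, 4, 1, 11, 9, 1], .l [3, 2, 13, 15, 12, 12, 10, 12, 8, 1], .l [17, 4, 7], .l [8, 12, 15]]),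
([p 3 1, s 0 2, g, s 1 0, g, p 0 3, p 5 0, g, s 0 4, g, s 0 0, p 4 5, g, s 2 0, g], .hi 10, [.l [1, 9, 10, 6, 3], .l [3, 11, 12, 8, 3], .l [10, 12, 4], .l [3, 11, 12, 8, 3], .l [5, 11, 12, 8, 1], .l [10, 12, 6], .l [5, 11, 12, 8, 1], .l [8, 10, 6], .l [0, 10, 12, 9, 11, 9, 4, 9], .l [10, 12, 9], .l [3, 2, 13, 4, 2, 3], .l [8, 10, 9], .l [12, 1, 10, 13, 6, 4, 6, 1], .r 1961 [1, 2, 3, 4, 6, 5] [1, 1, 1, 1, 1, 1, 1], .l [8, 12, 1], .y [10], .r 1960 [1, 2, 3, 4, 6, 5] [1, 1, 1, 1, 1, 1, 1], .l [8, 10, 11], .l [13, 2, 3], .l [3, 2, 11, 13, 10, 11, 7, 1], .l [8, 10, 13], .l [15, 4, 5]]),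
([p 3 1, s 0 2, g, s 1 0, g, p 0 3, p 5 0, g, s 0 4, g, p 4 5, g, s 2 0, g], .bot 9, [.c, .r 1962 [1, 2, 3, 4, 5] [1, 1, 1, 1, 1, 1], .r 1953 [1, 2, 3, 4, 5] [1, 1, 1, 1, 1, 1], .r 1955 [1, 2, 3, 4, 5] [1, 1, 1, 1, 1, 1]]),
([p 2 1, s 0 0, g, s 1 0, g, p 0 2, p 4 0, g, s 0 3, g, p 3 4, g], .hi 1, [.y [1], .r 1053 [1, 5, 2] [1, 1, 1, 6], .l [2, 7, 4, 4, 1], .r 578 [1, 5, 2] [1, 1, 1, 6], .r 989 [1, 5, 2] [1, 1, 1, 6], .l [3, 2, 3], .r 520 [1, 5, 2] [1, 1, 1, 6], .l [3, 2, 3], .l [1, 7, 11, 9, 3], .l [0, 5, 4, 6, 10, 8, 1], .l [3, 8, 5, 6, 10, 6, 1], .l [1, 7, 7, 7, 7, 5, 3], .l [1, 9, 11, 7, 3], .l [0, 5, 4, 8, 10, 6, 1], .l [3, 10, 7, 8, 10, 4, 1], .r 1963 [1, 5, 2, 3, 4] [1, 1, 1, 1, 1, 1], .l [3, 2, 10], .r 852 [1, 5, 2] [1,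 1, 6, 1]]),
([p 1 0, s 0 0, g, p 0 1, p 3 0, g, s 0 2, g, p 2 3, g], .hi 0, [.c, .r 1964 [4, 1, 2, 3] [1, 1, 1, 1, 1], .l [0, 2], .l [3, 2], .y [0, 3], .l [0, 5, 9, 7, 2], .l [0, 5], .l [6, 5], .l [0, 5, 5, 5, 5, 3, 2], .l [0, 7, 9, 5, 2], .l [0, 7], .l [8, 7], .r 1704 [4, 1, 2, 3] [1, 1, 1, 1, 1], .l [0, 9], .l [10, 9]]),
([p 2 0, s 0 1, g, s 3 0, g, p 0 2, p 4 3, g, p 0 4, p 5 0, g, p 0 5, g, s 1 0, g], .lo 8, [.l [0, 7], .l [3, 9, 9, 7, 3], .l [3, 9], .l [1, 14, 11, 6, 6, 4, 9], .y [3, 8, 6], .l [5, 9, 9, 7, 1], .l [5, 9], .l [1, 14, 9, 4, 4, 2, 9], .r 1965 [2, 6, 4] [3, 1, 1, 6], .l [8, 9], .l [9, 8, 14, 7, 2, 7, 4], .r 1951 [1, 2, 3, 4, 6, 5] [1, 1, 1, 1, 1, 1], .r 1943 [1, 2, 4, 6, 5] [3, 1, 1, 1, 1, 1], .r 1944 [1, 2, 3,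 4, 6, 5] [0, 1, 1, 1, 1, 1, 1, 1], .l [7, 15, 8, 12, 11, 2, 4, 2, 8], .l [6, 2, 8, 1, 10, 7, 3, 7, 1], .l [9, 13, 11, 14, 7, 2, 4, 10, 7], .l [6, 2, 8, 1, 10, 7, 3, 7, 1], .l [1, 12, 12, 7, 7, 5, 3], .l [6, 2, 8, 1, 12, 9, 3, 9, 3], .l [1, 12, 14, 9, 9, 7, 3], .l [6, 2, 8, 1, 12, 9, 3, 9, 3]]),
([p 2 0, s 0 1, g, s 3 0, g, p 0 2, p 4 3, g, p 0 4, p 0 0, g, s 1 0, g], .lo 9, [.l [0, 8], .l [2, 8, 2, 1, 4, 7, 4], .l [3, 10], .l [2, 7, 4, 9], .l [6, 2, 2, 6, 5], .l [4, 8, 9, 8, 2, 7, 1], .l [5, 10], .l [4, 7, 2, 9], .l [8, 10, 7], .l [8, 10], .l [8, 0, 10, 7], .y [9], .l [6, 2, 12, 7, 0, 9, 6, 1], .r 1966 [1, 2, 3, 4, 5] [1, 1, 1, 1, 1, 1], .l [6, 2, 12, 7, 0, 9, 6, 1], .l [6, 2, 10, 5, 0, 7, 4, 1], .l [6, 2, 10, 5, 0, 7, 4, 7], .r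 1942 [1, 2, 3, 4, 5] [1, 1, 1, 1, 1, 1], .l [6, 2, 10, 5, 0, 7, 4, 7]]),
([p 2 0, s 0 1, g, s 3 0, g, p 0 2, p 4 3, g, p 0 4, s 1 0, g], .hi 0, [.c, .l [8, 2, 7, 5, 4, 7, 2, 3], .l [0, 2], .l [3, 2], .l [8, 4, 1, 5, 7, 4], .l [0, 4], .l [5, 4], .y [0, 5], .l [0, 7, 9, 7, 4], .l [0, 7], .l [8, 7], .l [0, 7], .l [6, 2, 5, 3, 2, 5, 2, 5], .l [0, 10], .l [11, 10]]),
([p 2 0, s 0 1, g, s 3 0, g, p 0 2, p 4 3, g, p 0 4, s 5 0, g, s 1 0, g, p 0 5, g], .hi 0, [.c, .l [8, 2, 7, 5, 4, 9, 11, 9, 2, 3], .l [0, 2], .l [3, 2], .l [8, 4, 1, 5, 9, 11, 9, 4], .l [0, 4], .l [5, 4], .y [0, 5], .l [0, 7, 9, 7, 4], .l [0, 7], .l [8, 7], .l [0, 7], .l [6, 2, 5, 3, 2, 9, 11, 7, 2, 7], .l [0, 10], .l [11, 10], .l [6, 2, 5, 3, 2, 7, 11, 9, 2, 5], .l [0,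 12], .l [13, 12], .l [0, 12], .l [6, 2, 10, 5, 11, 3, 10, 6, 4, 5], .l [0, 14], .l [15, 14]]),
([p 1 0, s 3 0, g, p 0 1, p 2 0, g, p 4 2, g, s 0 3, g, s 0 4, g], .hi 0, [.l [3, 2, 8, 10, 8, 8, 6, 1], .l [0, 2], .l [3, 2], .y [0, 3], .l [0, 5, 7, 5, 2], .l [0, 5], .l [6, 5], .l [0, 7, 11, 9, 9, 7, 2], .l [0, 7], .l [8, 7], .l [8, 7, 6], .l [0, 9, 11, 7, 7, 5, 2], .l [0, 9], .l [10, 9], .l [0, 9, 9, 5, 5, 3, 2], .l [12, 11, 6, 1, 6, 8, 4, 1], .l [0, 11], .l [12, 11]]),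
([p 3 1, s 6 0, g, s 1 0, p 2 0, g, p 0 2, g, p 0 3, p 4 0, g, p 5 4, g, s 0 5, g, s 7 6, g, p 0 7, g], .hi 4, [.l [6, 2, 16, 11, 13, 10], .l [5, 4, 15, 17, 1, 11, 12, 11, 4, 6, 5, 5, 3], .l [6, 2], .l [6, 1, 7, 5, 2], .l [4, 5], .l [6, 1], .y [4, 6], .l [3, 2, 15, 8, 10, 15, 1, 6, 2, 11], .l [4, 7], .l [8, 3], .l [4, 7], .l [4, 10, 12, 10, 3], .l [4, 10], .l [11, 6], .l [4, 12, 1, 12, 7, 5, 2, 10], .l [4, 12], .l [13, 8], .l [4, 12, 12, 10, 10, 8, 3], .l [4, 14, 18, 1, 9, 5, 2, 5], .l [4, 14], .l [15, 10], .l [4, 16, 1, 11, 6, 7, 5, 3, 1, 9, 6, 1], .l [4, 16], .l [17, 12], .l [4, 16], .l [4, 18, 3, 13, 6, 7, 5, 3, 1, 11, 8, 1], .l [4, 18], .l [19, 14]]),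
([p 2 1, s 5 0, g, s 1 0, p 0 0, g, p 0 2, p 3 0, g, p 4 3, g, s 0 4, g, s 6 5, g, p 0 6, g], .lo 4, [.l [3, 2, 11, 13, 1, 6, 2, 3], .l [5, 4, 13, 15, 1, 8, 2, 3], .l [3, 5], .l [2, 8, 5, 2], .c, .y [4], .l [3, 2, 13, 15, 1, 8, 4, 1], .r 1971 [1, 7, 2, 3, 4, 5, 6] [1, 1, 1, 1, 1, 1, 1, 1], .l [3, 2, 13, 15, 1, 8, 4, 1], .l [8, 9, 7, 7, 4, 2, 8, 10, 1, 6, 2, 5], .l [3, 2, 13, 15, 1, 6, 2, 7], .l [10, 11, 7, 9, 6, 2, 10, 12, 1, 8, 4, 7], .l [1, 14, 10, 4, 6, 4, 9], .l [3, 2, 13, 15, 1, 6, 2, 9], .l [8, 9, 7, 9, 6, 2, 10, 12, 1, 8, 4, 7], .l [3, 2, 13, 15, 1, 6, 2, 9], .l [3, 2, 13, 15, 1, 6, 2, 11], .l [8, 9, 7, 11, 8, 2, 10, 12, 1, 10, 6, 1], .l [3, 2, 13, 15, 1, 6, 2, 11], .l [3, 2, 11, 15, 3, 8, 2, 5], .l [3, 2, 11, 15, 3, 8,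 2, 5], .l [3, 2, 5, 2, 12], .l [3, 2, 11, 13, 1, 6, 2, 11], .l [8, 9, 7, 15, 12, 2, 6, 8, 1, 10, 6, 1], .l [3, 2, 11, 13, 1, 6, 2, 11]]),
([p 3 1, s 6 0, g, s 1 0, m 0 2, g, m 2 0, g, p 0 3, p 4 0, g, p 5 4, g, s 0 5, g, s 7 6, g, p 0 7, g], .lo 4, [.l [1, 14, 16, 1, 10, 11, 10, 6, 2, 5, 3, 1, 2], .l [6, 2, 16, 11, 13, 10], .l [6, 2], .l [5, 4, 15, 17, 1, 11, 12, 11, 4, 6, 5, 5, 3], .l [0, 2, 3, 0, 5, 4, 10, 12, 1, 6, 7, 6, 1], .l [6, 1, 7, 5, 2], .l [6, 1], .l [4, 5], .y [4, 6], .l [3, 2, 15, 8, 10, 15, 1, 6, 2, 11], .l [8, 3], .l [4, 7], .l [9, 4], .l [4, 10, 12, 10, 3], .l [11, 6], .l [4, 10], .l [4, 12, 1, 12, 7, 5, 2, 10], .l [13, 8], .l [4, 12], .l [4, 14, 18, 1, 9, 5, 2, 5], .l [15, 10], .l [4, 14], .l [4, 16, 1, 11, 6,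 7, 5, 3, 1, 9, 6, 1], .l [17, 12], .l [4, 16], .l [4, 18, 3, 13, 6, 7, 5, 3, 1, 11, 8, 1], .l [19, 14], .l [4, 18]]),
([p 2 1, s 5 0, g, s 1 0, m 0 0, g, p 0 2, p 3 0, g, p 4 3, g, s 0 4, g, s 6 5, g, p 0 6, g], .hi 4, [.l [5, 4, 13, 15, 1, 8, 2, 3], .l [2, 8, 5, 2], .l [3, 5], .y [4], .l [3, 2, 13, 15, 1, 8, 4, 1], .l [3, 2, 13, 15, 1, 8, 4, 1], .r 1973 [1, 7, 2, 3, 4, 5, 6] [1, 1, 1, 1, 1, 1, 1, 1], .l [3, 2, 11, 13, 1, 6, 2, 1], .l [3, 2, 13, 15, 1, 6, 2, 7], .l [1, 14, 10, 4, 6, 4, 9], .l [10, 11, 7, 9, 6, 2, 10, 12, 1, 8, 4, 7], .l [3, 2, 13, 15, 1, 6, 2, 9], .l [3, 2, 13, 15, 1, 6, 2, 9], .l [8, 9, 7, 9, 6, 2, 10, 12, 1, 8, 4, 7], .l [3, 2, 11, 13, 1, 6, 2, 9], .l [3, 2, 13, 15, 1, 6, 2, 11], .l [3, 2, 13, 15, 1, 6, 2, 11],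 .l [8, 9, 7, 11, 8, 2, 10, 12, 1, 10, 6, 1], .l [3, 2, 11, 15, 3, 8, 2, 5], .l [3, 2, 5, 2, 12], .l [3, 2, 11, 15, 3, 8, 2, 5], .l [3, 2, 5, 2, 12], .l [3, 2, 11, 13, 1, 6, 2, 11], .l [3, 2, 11, 13, 1, 6, 2, 11], .l [8, 9, 7, 15, 12, 2, 6, 8, 1, 10, 6, 1]]),
([p 3 1, s 4 0, g, s 1 0, s 0 2, g, m 2 0, g, p 0 3, g, s 5 4, g, p 0 5, g], .lo 4, [.l [3, 2, 8, 10, 1, 8, 4, 5], .l [5, 4, 10, 12, 1, 10, 4, 5], .l [5, 4, 10, 12, 1, 10, 4, 5], .l [8, 1, 4, 2, 4], .c, .l [3, 2, 10, 12, 1, 10, 6, 1], .l [6, 1, 7, 5, 2], .l [3, 2, 10, 12, 1, 10, 6, 1], .y [4, 6], .l [3, 2, 10, 12, 1, 10, 6, 3], .l [6, 1, 7, 5, 2], .l [3, 2, 10, 12, 1, 10, 6, 3], .l [3, 2, 10, 12, 1, 8, 4, 7], .l [6, 1, 9, 7, 2], .l [3, 2, 10, 12, 1, 8, 4, 7], .l [3, 2, 8, 12,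 3, 10, 4, 7], .l [3, 2, 8, 12, 3, 10, 4, 7], .l [3, 2, 7, 4, 9], .l [3, 2, 8, 10, 1, 8, 4, 7], .l [6, 1, 13, 11, 2], .l [3, 2, 8, 10, 1, 8, 4, 7]]),
([p 2 1, s 5 0, g, s 1 0, s 0 0, g, p 0 2, p 3 0, g, p 4 3, g, s 0 4, g, s 6 5, g, p 0 6, g], .hi 4, [.l [5, 4, 13, 15, 1, 8, 2, 3], .l [17, 1, 5, 1, 11, 2, 11, 3], .l [5, 4, 13, 15, 1, 8, 2, 3], .y [4], .l [3, 2, 13, 15, 1, 8, 4, 1], .l [3, 2, 13, 15, 1, 8, 4, 1], .r 1975 [1, 7, 2, 5, 6] [1, 1, 1, 6, 1, 1], .l [3, 2, 11, 13, 1, 6, 2, 1], .l [3, 2, 13, 15, 1, 6, 2, 7], .l [3, 2, 13, 15, 1, 6, 2, 7], .l [10, 11, 7, 9, 6, 2, 10, 12, 1, 8, 4, 7], .l [3, 2, 13, 15, 1, 6, 2, 9], .l [3, 2, 13, 15, 1, 6, 2, 9], .l [8, 9, 7, 9, 6, 2, 10, 12, 1, 8, 4, 7], .l [3, 2, 11, 13, 1, 6, 2, 9], .l [3,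 2, 13, 15, 1, 6, 2, 11], .l [3, 2, 13, 15, 1, 6, 2, 11], .l [3, 2, 13, 5, 1, 13, 1, 6, 2, 7], .l [3, 2, 11, 15, 3, 8, 2, 5], .l [3, 2, 5, 2, 12], .l [3, 2, 11, 15, 3, 8, 2, 5], .l [3, 2, 5, 2, 12], .l [3, 2, 11, 13, 1, 6, 2, 11], .l [3, 2, 11, 13, 1, 6, 2, 11], .l [8, 9, 7, 15, 12, 2, 6, 8, 1, 10, 6, 1]]),
([p 2 1, s 5 0, g, s 1 0, g, p 0 2, p 3 0, g, p 4 3, g, s 0 4, g, s 6 5, g, p 0 6, g], .top 4, [.r 1003 [1, 2] [2, 10], .r 1976 [1, 2, 3, 4, 5, 6] [1, 1, 1, 1, 1, 1, 1], .r 1972 [1, 2, 3, 4, 5, 6] [1, 1, 1, 1, 1, 1, 1], .r 1974 [1, 2, 3, 4, 5, 6] [1, 1, 1, 1, 1, 1, 1]]),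
([p 1 0, s 4 0, g, p 0 1, p 2 0, g, p 3 2, g, s 0 3, g, s 5 4, g, p 0 5, g], .hi 0, [.r 1977 [6, 1, 2, 3, 4, 5] [1, 1, 1, 1, 1, 1, 1], .l [0, 2], .l [3, 2], .y [0, 3], .l [0, 5, 7, 5, 2], .l [0, 5], .l [6, 5], .l [0, 7, 9, 7, 7, 5, 2], .l [0, 7], .l [8, 7], .l [0, 7, 7, 5, 5, 3, 2], .l [10, 9, 10, 5, 1, 3, 4, 1], .l [0, 9], .l [10, 9], .r 1264 [6, 1, 2, 3, 4] [1, 1, 1, 1, 1, 3], .l [0, 11], .l [12, 11], .l [0, 11], .r 1264 [6, 1, 2, 3, 4] [1, 1, 1, 1, 3, 1], .l [0, 13], .l [14, 13]]),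
([p 1 0, s 4 0, g, p 0 1, p 2 0, g, p 3 2, g, p 0 3, g, s 5 4, g, p 6 5, g, p 0 6, g], .hi 0, [.l [3, 2, 10, 12, 1, 8, 9, 8, 8, 6, 1, 7, 3], .l [0, 2], .l [3, 2], .y [0, 3], .l [0, 5, 7, 5, 2], .l [0, 5], .l [6, 5], .l [0, 7, 9, 7, 7, 5, 2], .l [0, 7], .l [8, 7], .l [0, 7], .l [10, 9, 10, 12, 1, 6, 7, 6, 10, 5, 1, 6, 3], .l [0, 9], .l [10, 9], .l [12, 11, 8, 12, 3, 6, 11, 7, 3, 8, 5, 1, 5], .l [0, 11], .l [12, 11], .l [14, 13, 8, 3, 4, 3, 8, 1, 8, 4, 1, 7, 1], .l [0, 13], .l [14, 13], .l [0, 13], .l [16, 15, 8, 3, 4, 3, 8, 1, 10, 6, 1, 7, 3], .l [0, 15], .l [16, 15]]),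
([p 1 0, s 4 0, g, p 0 1, p 2 0, g, p 3 2, g, p 0 3, g, s 5 4, p 0 5, g], .lo 11, [.l [0, 10], .y [1, 11, 10], .l [13, 0, 8], .l [3, 12], .l [0, 5, 4, 10, 11, 0, 1], .l [4, 10], .l [1, 11, 12, 0, 5, 7, 5, 1], .l [6, 12], .l [0, 3, 2, 10, 11, 0, 4], .l [1, 11, 12, 0, 7, 9, 7, 7, 5, 1], .l [8, 12], .l [0, 3, 2, 10, 11, 0, 6], .l [13, 0, 1], .l [10, 12], .l [0, 3, 2, 10, 11, 0, 8], .l [11, 0, 11], .r 1979 [1, 2, 3, 4, 5, 6] [1, 1, 1, 1, 0, 1, 1], .l [0, 3, 2, 8, 9, 0, 8]]),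
([p 1 0, s 4 0, g, p 0 1, p 2 0, g, p 3 2, g, p 0 3, g, s 6 4, g, m 0 5, g, p 0 6, g, m 5 0, g], .hi 0, [.l [3, 2, 10, 14, 3, 10, 11, 10, 10, 8, 1, 9, 3], .l [0, 2], .l [3, 2], .y [0, 3], .l [0, 5, 7, 5, 2], .l [0, 5], .l [6, 5], .l [0, 7, 9, 7, 7, 5, 2], .l [0, 7], .l [8, 7], .l [0, 7], .l [10, 9, 10, 14, 3, 8, 9, 8, 12, 5, 1, 8, 5], .l [0, 9], .l [10, 9], .l [12, 11, 8, 14, 5, 8, 13, 7, 3, 10, 7, 1, 7], .l [0, 11], .l [12, 11], .l [12, 11], .l [14, 13, 8, 14, 5, 10, 11, 10, 10, 8, 3, 9, 3], .l [0, 13], .l [14, 13], .l [0, 13], .l [16, 15, 8, 3, 4, 3, 10, 3, 10, 4, 1, 9, 1], .l [0, 15], .l [16, 15], .l [18, 17, 8, 3, 4, 3, 10, 3, 12, 6, 1, 9, 5], .l [0, 17], .l [18, 17]]),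
([p 1 0, s 5 0, g, p 0 1, p 2 0, g, p 3 2, g, p 0 3, g, m 0 4, g, s 6 5, g, m 4 0, g, p 0 6, g], .hi 0, [.l [3, 2, 12, 14, 12, 14, 3, 10, 11, 10, 10, 8, 1], .l [0, 2], .l [3, 2], .y [0, 3], .l [0, 5, 7, 5, 2], .l [0, 5], .l [6, 5], .l [0, 7, 9, 7, 7, 5, 2], .l [0, 7], .l [8, 7], .l [0, 7], .l [0, 9, 17, 3, 5, 3, 11, 12, 11, 11, 9, 2, 5], .l [0, 9], .l [10, 9], .l [10, 9], .l [12, 11, 12, 14, 10, 14, 5, 10, 11, 10, 10, 8, 3], .l [0, 11], .l [12, 11], .l [14, 13, 10, 14, 12, 14, 5, 10, 11, 10, 10, 8, 5], .l [0, 13], .l [14, 13], .l [16, 15, 10, 12, 10, 14, 5, 10, 11, 10, 10, 8, 3], .l [0, 15], .l [16, 15], .l [0, 15], .l [18, 17, 10, 5, 6, 5, 12, 3, 8, 6, 10, 6, 3], .l [0, 17], .l [18, 17]]),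
([p 1 0, s 4 0, g, p 0 1, p 2 0, g, p 3 2, g, p 0 3, g, s 6 4, m 0 5, g, m 5 0, g, p 0 6, g], .lo 11, [.l [11, 10], .l [10, 8, 10, 1, 5, 7, 6, 9, 5, 2, 5], .l [1, 11, 16, 4, 11, 4, 9, 10, 3, 4, 9, 7, 4], .l [13, 9], .l [7, 13, 8, 3, 9, 11, 8, 3, 9, 4, 6], .l [11, 6], .l [0, 13, 6, 16, 7, 2, 9, 4, 8, 6, 9, 9, 7], .l [13, 6], .l [1, 11, 12, 6, 8, 6, 1], .l [13, 4, 6, 4, 4, 11, 8, 4, 5, 3, 6, 8, 3], .l [13, 4], .l [1, 11, 12, 8, 10, 8, 8, 6, 1], .l [13, 2, 6, 7, 6, 12, 8, 4, 5, 3, 6, 8, 3], .l [13, 2], .r 1982 [1, 2, 3, 7, 4, 6] [1, 1, 1, 1, 1, 0, 3, 1], .l [10, 8, 12, 1, 14, 10, 3, 4, 3, 6, 8, 5, 1], .l [13, 1], .l [11, 12], .y [11, 13], .l [1, 9, 1, 9, 12, 5, 1, 12, 2, 7, 9, 7, 1], .l [15, 3], .l [11, 14], .l [1, 9, 10, 14, 5, 2,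 12, 7, 9, 7, 7, 5, 1], .l [17, 5], .l [11, 16]])]

def d07_3 : List (List Item × Qry × List Rf) := [
([p 1 0, s 4 0, g, p 0 1, p 2 0, g, p 3 2, g, p 0 3, g, s 5 4, m 0 0, g, p 0 5, g], .hi 11, [.l [15, 2, 10], .l [0, 5, 4, 10, 13, 2, 3], .l [3, 12], .l [0, 3, 2, 8, 11, 2, 3], .l [1, 11, 14, 2, 7, 9, 7, 1], .l [0, 3, 2, 10, 13, 2, 6], .l [6, 12], .l [1, 11, 14, 2, 9, 11, 9, 9, 7, 1], .l [0, 3, 2, 10, 13, 2, 8], .l [8, 12], .l [0, 3, 2, 8, 11, 2, 8], .l [15, 2, 3], .l [0, 3, 2, 10, 13, 2, 10], .l [10, 12], .y [11], .l [15, 4, 1], .l [0, 3, 2, 8, 13, 4, 1], .r 1983 [1, 2, 3, 4, 6, 5] [1, 1, 1, 1, 1, 1, 1], .l [0, 3, 2, 8, 11, 2, 1], .l [13, 2, 13], .l [0, 3, 2, 8, 11, 2, 10], .r 1981 [1, 2, 3, 4, 6, 5] [1, 1, 1, 1, 0, 1, 1, 1]]),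
([p 0 0, s 1 0, g, s 3 1, s 2 0, g, s 0 2, g, p 0 3, g], .hi 0, [.y [0], .l [3, 2, 3, 8, 4, 1], .l [0, 2], .l [3, 2], .l [6, 5, 1, 8, 6, 3], .l [0, 5], .l [6, 5], .l [6, 5, 1, 6, 4, 1], .l [8, 7, 1, 8, 6, 1], .l [0, 7], .l [8, 7], .l [0, 7], .l [10, 9, 1, 6, 4, 1], .l [0, 9], .l [10, 9]]),
([p 0 0, s 2 0, g, m 0 1, g, s 3 2, s 1 0, g, p 0 3, g], .hi 0, [.y [0], .l [3, 2, 5, 8, 2, 5], .l [0, 2], .l [3, 2], .l [3, 2], .l [5, 4, 5, 8, 2, 3], .l [0, 4], .l [5, 4], .l [8, 7, 3, 8, 4, 5], .l [0, 7], .l [8, 7], .l [0, 7], .l [10, 9, 3, 6, 2, 3], .l [0, 9], .l [10, 9]]),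
([p 0 0, s 2 0, g, s 0 1, g, s 3 2, s 1 0, g, p 0 3, g], .hi 0, [.y [0], .l [3, 2, 5, 8, 2, 5], .l [0, 2], .l [3, 2], .l [3, 2, 3, 6, 2, 3], .l [5, 4, 5, 8, 2, 3], .l [0, 4], .l [5, 4], .l [3, 5, 2, 5, 7, 3], .l [0, 7], .l [8, 7], .l [0, 7], .l [10, 9, 3, 6, 2, 3], .l [0, 9], .l [10, 9]]),
([p 0 0, s 2 1, g, s 0 2, s 1 0, g], .hi 0, [.y [0], .l [1, 5, 4, 1], .l [0, 2], .l [3, 2], .l [1, 3, 2, 1], .l [1, 3, 2, 3], .l [0, 5], .l [6, 5]]),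
([p 0 0, s 1 0, g, s 2 0, g, s 3 1, s 0 2, g, p 0 3, g], .hi 0, [.y [0], .l [3, 2, 5, 8, 2, 5], .l [0, 2], .l [3, 2], .l [5, 4, 5, 8, 2, 3], .l [0, 4], .l [5, 4], .l [6, 5, 3, 6, 2, 3], .l [3, 5, 2, 5, 7, 3], .l [0, 7], .l [8, 7], .l [0, 7], .l [10, 9, 3, 6, 2, 3], .l [0, 9], .l [10, 9]]),
([p 0 0, s 1 0, g, s 3 1, s 0 2, g, s 2 0, g, p 0 3, g], .hi 0, [.y [0], .l [3, 2, 3, 8, 4, 1], .l [0, 2], .l [3, 2], .l [4, 3, 1, 6, 4, 1], .l [6, 5, 1, 8, 6, 3], .l [0, 5], .l [6, 5], .l [8, 7, 1, 8, 6, 1], .l [0, 7], .l [8, 7], .l [0, 7], .l [10, 9, 1, 6, 4, 1], .l [0, 9], .l [10, 9]]),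
([p 0 0, s 1 0, g, s 3 1, s 0 2, g, p 0 3, g, s 2 0, g], .hi 0, [.y [0], .l [3, 2, 3, 6, 2, 5], .l [0, 2], .l [3, 2], .l [4, 3, 1, 4, 2, 3], .l [6, 5, 1, 6, 4, 5], .l [0, 5], .l [6, 5], .l [0, 5], .l [8, 7, 1, 4, 2, 5], .l [0, 7], .l [8, 7], .l [10, 9, 1, 4, 2, 3], .l [0, 9], .l [10, 9]]),
([p 1 0, s 4 0, g, p 0 1, p 2 0, g, p 3 2, g, p 0 3, g, s 6 4, s 5 0, g, p 0 5, g, p 0 6, g], .hi 11, [.r 1989 [4, 7, 6] [1, 8, 3, 1], .l [2, 8, 9, 8, 8, 6, 2, 7, 3, 8, 1, 8, 3], .l [17, 4, 12], .l [2, 6, 7, 6, 6, 4, 0, 5, 3, 6, 1, 6, 3], .l [1, 11, 16, 4, 9, 11, 9, 1], .l [1, 11, 16, 4, 9, 11, 9, 1], .l [6, 12, 6, 2, 8, 14, 11, 13, 9, 5, 1, 9, 5], .l [1, 11, 16, 4, 11, 13, 11, 11, 9, 1], .l [1, 11, 16, 4, 11, 13, 11, 11, 9, 1], .l [8, 12, 4,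 2, 8, 8, 6, 12, 9, 11, 9, 5, 1], .l [1, 9, 14, 4, 11, 11, 9, 9, 7, 1], .r 1989 [4, 7, 6] [8, 1, 3, 1], .l [1, 11, 14, 1, 8, 9, 8, 8, 6, 1, 9, 6, 3], .l [17, 4, 5], .r 1990 [4, 7, 6] [8, 1, 3, 1], .l [17, 6, 1], .l [1, 9, 14, 3, 10, 11, 10, 10, 8, 1, 9, 6, 1], .y [11, 13], .r 1990 [4, 7, 6] [8, 3, 1, 1], .l [17, 6, 3], .l [1, 9, 14, 3, 10, 11, 10, 10, 8, 1, 9, 6, 1], .l [15, 4, 3], .r 1991 [4, 7, 6] [8, 3, 1, 1], .l [15, 4, 15], .l [10, 8, 16, 5, 7, 3, 9, 4, 7, 9, 5, 5, 3]]),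
([p 1 0, s 4 0, g, p 0 1, p 2 0, g, p 3 2, g, p 0 3, g, s 5 4, s 6 0, g, p 0 5, g, p 0 6, g], .hi 11, [.r 1989 [4, 7, 5] [1, 8, 1, 3], .l [17, 3, 13, 9, 10], .l [15, 2, 10], .l [15, 3, 11, 7, 8], .l [1, 11, 14, 2, 7, 9, 7, 1], .l [1, 11, 14, 2, 7, 9, 7, 1], .l [6, 12, 6, 2, 8, 12, 9, 11, 7, 11, 7, 9, 3], .l [1, 11, 14, 2, 9, 11, 9, 9, 7, 1], .l [1, 11, 14, 2, 9, 11, 9, 9, 7, 1], .l [8, 12, 4, 2, 8, 8, 6, 10, 7, 9, 7, 9, 5], .l [1, 9, 12, 2, 9, 9, 7, 7, 5, 1], .r 1989 [4, 7, 5] [8, 1, 1, 3], .l [17, 3, 6, 2, 3], .l [15, 2, 3], .r 1990 [4, 7, 5] [8, 1, 1, 3], .l [15, 4, 1], .l [10, 8, 16, 5, 7, 3, 9, 4, 7, 9, 5, 5, 3], .l [13, 2, 1], .r 1991 [4, 7, 5] [8, 1, 1, 3], .l [13, 2, 13], .l [15, 3, 16, 12, 13], .y [11, 15], .r 1991 [4,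 7, 5] [8, 1, 3, 1], .l [13, 2, 15], .l [15, 3, 16, 12, 13]]),
([p 0 0, s 1 0, g, s 2 1, s 3 0, g, p 0 2, g, s 0 3, g], .hi 0, [.y [0], .l [3, 2, 3, 6, 2, 5], .l [0, 2], .l [3, 2], .l [6, 5, 1, 6, 4, 5], .l [0, 5], .l [6, 5], .l [0, 5], .l [8, 7, 1, 4, 2, 5], .l [0, 7], .l [8, 7], .l [6, 2, 6, 6, 4, 1], .l [10, 9, 1, 4, 2, 3], .l [0, 9], .l [10, 9]]),
([p 1 0, s 4 0, g, p 0 1, p 2 0, g, p 3 2, g, p 0 3, g, s 5 4, s 0 0, g, p 0 5, g], .lo 11, [.l [13, 2, 11], .r 1988 [6, 4] [8, 3], .r 1987 [6, 4, 5] [1, 8, 1, 1], .l [15, 2, 10], .r 1986 [6, 4, 5] [1, 8, 1, 1], .l [13, 2, 7], .l [1, 11, 14, 2, 7, 9, 7, 1], .l [15, 2, 7], .l [1, 11, 14, 2, 7, 9, 7, 1], .l [1, 11, 14, 2, 9, 11, 9, 9, 7, 1], .l [15, 2, 5], .l [1, 11, 14, 2, 9, 11, 9,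 9, 7, 1], .r 1987 [6, 4, 5] [8, 1, 1, 1], .l [15, 2, 3], .r 1986 [6, 4, 5] [8, 1, 1, 1], .y [11], .r 1985 [4, 6, 5] [8, 1, 1, 1], .r 1992 [1, 2, 3, 4, 6, 5] [1, 1, 1, 1, 1, 1, 1], .l [15, 4, 1], .r 1994 [4, 5, 6] [8, 1, 1, 1], .r 1993 [1, 2, 3, 4, 5, 6] [1, 1, 1, 1, 1, 1, 1], .l [13, 2, 13]]),
([p 1 0, s 4 0, g, p 0 1, p 2 0, g, p 3 2, g, p 0 3, g, s 5 4, g, p 6 0, g, p 0 5, g, p 0 6, g], .hi 0, [.l [3, 2, 10, 14, 3, 10, 11, 10, 10, 8, 1, 9, 3], .l [0, 2], .l [3, 2], .y [0, 3], .l [0, 5, 7, 5, 2], .l [0, 5], .l [6, 5], .l [0, 7, 9, 7, 7, 5, 2], .l [0, 7], .l [8, 7], .l [0, 7], .l [10, 9, 10, 14, 3, 8, 9, 8, 12, 5, 1, 8, 5], .l [0, 9], .l [10, 9], .l [12, 11, 8, 14, 5, 8, 13, 7, 3, 10, 7, 1, 7], .l [0, 11], .l [12, 11], .l [14,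 13, 8, 14, 5, 10, 11, 10, 10, 8, 3, 9, 3], .l [0, 13], .l [14, 13], .l [0, 13], .l [16, 15, 8, 3, 4, 3, 10, 3, 10, 4, 1, 9, 1], .l [0, 15], .l [16, 15], .l [0, 15], .l [18, 17, 8, 3, 4, 3, 10, 3, 12, 6, 1, 9, 5], .l [0, 17], .l [18, 17]]),
([p 1 0, s 4 0, g, p 0 1, p 2 0, g, p 3 2, g, p 0 3, g, p 5 0, g, s 6 4, g, p 0 5, g, p 0 6, g], .hi 0, [.l [3, 2, 12, 14, 12, 14, 3, 10, 11, 10, 10, 8, 1], .l [0, 2], .l [3, 2], .y [0, 3], .l [0, 5, 7, 5, 2], .l [0, 5], .l [6, 5], .l [0, 7, 9, 7, 7, 5, 2], .l [0, 7], .l [8, 7], .l [0, 7], .l [0, 9, 17, 3, 5, 3, 11, 12, 11, 11, 9, 2, 5], .l [0, 9], .l [10, 9], .l [12, 11, 12, 14, 10, 14, 5, 10, 11, 10, 10, 8, 3], .l [0, 11], .l [12, 11], .l [14, 13, 10, 14, 12, 14, 5, 10, 11, 10, 10, 8, 5], .l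 [0, 13], .l [14, 13], .l [0, 13], .l [16, 15, 10, 12, 10, 14, 5, 10, 11, 10, 10, 8, 3], .l [0, 15], .l [16, 15], .l [0, 15], .l [18, 17, 10, 5, 6, 5, 12, 3, 8, 6, 10, 6, 3], .l [0, 17], .l [18, 17]]),
([p 1 0, s 4 0, g, p 0 1, p 2 0, g, p 3 2, g, p 0 3, g, s 6 4, p 5 0, g, p 0 5, g, p 0 6, g], .hi 11, [.l [1, 11, 16, 4, 11, 4, 9, 10, 3, 4, 9, 7, 4], .l [7, 13, 8, 3, 9, 11, 8, 3, 9, 4, 6], .l [13, 9], .l [5, 11, 8, 3, 7, 9, 8, 3, 7, 2, 4], .l [0, 13, 6, 16, 7, 2, 9, 4, 8, 6, 9, 9, 7], .l [1, 11, 12, 6, 8, 6, 1], .l [13, 6], .l [13, 4, 6, 4, 4, 11, 8, 4, 5, 3, 6, 8, 3], .l [1, 11, 12, 8, 10, 8, 8, 6, 1], .l [13, 4], .l [1, 9, 10, 8, 8, 6, 6, 4, 1], .l [13, 2, 6, 7, 6, 12, 8, 4, 5, 3, 6, 8, 3], .r 1997 [1, 2, 3, 4, 7, 6] [1, 1, 1,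 1, 1, 0, 3, 1], .l [13, 2], .l [10, 8, 12, 1, 14, 10, 3, 4, 3, 6, 8, 5, 1], .l [11, 12], .l [13, 1], .y [11, 13], .l [1, 9, 1, 9, 12, 5, 1, 12, 2, 7, 9, 7, 1], .l [11, 14], .l [15, 3], .l [11, 14], .l [1, 9, 10, 14, 5, 2, 12, 7, 9, 7, 7, 5, 1], .l [11, 16], .l [17, 5]]),
([p 1 0, s 4 0, g, p 0 1, p 2 0, g, p 3 2, g, p 0 3, g, s 5 4, p 0 0, g, p 0 5, g], .lo 11, [.l [0, 10], .l [0, 3, 2, 9, 8], .l [15, 2, 10], .l [3, 12], .l [0, 5, 4, 10, 13, 2, 3], .l [4, 10], .l [1, 11, 14, 2, 7, 9, 7, 1], .l [6, 12], .l [0, 3, 2, 10, 13, 2, 6], .l [1, 11, 14, 2, 9, 11, 9, 9, 7, 1], .l [8, 12], .l [0, 3, 2, 10, 13, 2, 8], .l [15, 2, 3], .l [10, 12], .l [0, 3, 2, 10, 13, 2, 10], .y [11], .l [15, 4, 1], .r 1998 [1, 2, 3, 4, 6, 5] [1, 1, 1, 1, 1,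 1, 1], .l [0, 3, 2, 8, 13, 4, 1], .l [13, 2, 13], .r 1996 [1, 2, 3, 4, 5, 6] [1, 1, 1, 1, 0, 1, 1, 1], .l [0, 3, 2, 8, 11, 2, 10]]),
([p 1 0, s 4 0, g, p 0 1, p 2 0, g, p 3 2, g, p 0 3, g, s 5 4, g, p 0 5, g], .top 11, [.r 1980 [1, 2, 3, 4, 5] [1, 1, 1, 1, 1], .r 1995 [1, 2, 3, 4, 5] [1, 1, 1, 1, 1, 1], .r 1999 [1, 2, 3, 4, 5] [1, 1, 1, 1, 1, 1], .r 1984 [1, 2, 3, 4, 5] [1, 1, 1, 1, 1, 1]]),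
([p 1 0, s 3 0, g, p 0 1, p 2 0, g, p 0 2, g, s 4 3, g, p 0 4, g], .lo 6, [.l [0, 5], .l [1, 7, 9, 1, 1, 6, 6, 4, 1], .l [3, 7, 7, 5, 1], .l [3, 7], .l [1, 9, 6, 4, 4, 2, 3], .y [4, 6], .r 1965 [1, 5, 2] [1, 1, 1, 5], .l [6, 7], .l [7, 6, 9, 4, 2, 4, 1], .r 1978 [1, 2, 5, 3, 4] [1, 1, 1, 1, 1, 1], .r 2000 [1, 2, 5, 3, 4] [1, 1, 1, 1, 1, 1], .r 1627 [1, 2, 5] [2, 1, 1, 5], .r 1970 [1, 2, 3, 5] [1, 1, 1, 1, 3], .l [1, 7, 9, 7, 7, 5, 1], .r 1627 [1, 2, 5] [2, 1, 3, 3], .r 1970 [1, 2, 3, 5] [1, 1, 1, 3, 1], .l [1, 7, 11, 9, 9, 7, 1], .l [10, 1, 3, 9, 7, 4, 5, 3, 4]]),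
([p 2 0, s 0 1, g, p 0 2, p 3 0, g, p 4 0, g, p 0 3, s 0 4, g, s 1 0, g], .hi 0, [.c, .l [7, 13, 6, 10, 9, 2, 8, 1], .l [0, 2], .l [3, 2], .y [0, 3], .l [0, 5, 9, 7, 2], .l [0, 5], .l [6, 5], .l [0, 7, 9, 5, 2], .l [0, 7], .l [8, 7], .l [0, 7], .l [0, 8, 8, 5, 7, 5, 2], .l [5, 13, 8, 10, 9, 2, 8, 3], .l [0, 10], .l [11, 10], .l [5, 11, 6, 8, 7, 2, 6, 7], .l [0, 12], .l [13, 12]]),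
([p 2 0, s 0 1, g, p 0 2, p 3 0, g, p 4 3, s 0 4, g, s 1 0, g], .hi 0, [.c, .l [7, 11, 4, 8, 7, 0, 6, 1], .l [0, 2], .l [3, 2], .y [0, 3], .l [0, 5, 7, 5, 2], .l [0, 5], .l [6, 5], .l [0, 6, 6, 5, 5, 3, 2], .l [5, 11, 6, 8, 7, 0, 6, 3], .l [0, 8], .l [9, 8], .l [5, 9, 4, 6, 5, 0, 4, 5], .l [0, 10], .l [11, 10]]),
([p 2 0, s 0 1, g, s 3 0, g, p 0 2, p 4 3, g, p 0 4, s 5 0, g, p 0 5, g, s 1 0, g], .hi 9, [.r 2001 [2, 4, 6, 5] [3, 1, 0, 1, 3], .l [8, 2, 14, 7, 0, 11, 8, 5], .l [2, 8, 2, 1, 4, 7, 4], .l [11, 7, 10, 6, 0, 7, 9, 4, 1], .l [8, 4, 14, 7, 0, 9, 6, 9], .l [4, 8, 9, 8, 2, 7, 1], .l [8, 4, 14, 7, 0, 9, 6, 9], .l [4, 6, 7, 6, 0, 5, 1], .l [8, 10, 7], .r 2002 [1, 2, 4, 6] [3, 1, 1, 3, 1], .l [8, 10, 7], .r 2003 [1, 2, 4, 6]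 [3, 1, 3, 1], .l [6, 2, 14, 9, 0, 11, 8, 1], .l [6, 2, 14, 9, 0, 11, 8, 1], .l [0, 6, 2, 12, 3, 6, 9, 6, 1], .y [9, 11], .l [6, 2, 14, 9, 0, 11, 8, 3], .l [6, 2, 8, 10, 7, 3, 5, 7, 1], .l [0, 6, 2, 12, 3, 6, 9, 6, 1], .l [6, 2, 12, 7, 0, 9, 6, 9], .l [6, 2, 8, 12, 9, 3, 5, 9, 3], .l [0, 6, 2, 14, 5, 8, 11, 8, 3]]),
([p 2 0, s 0 1, g, p 0 2, p 4 0, g, m 0 3, g, p 0 4, s 3 0, g, s 1 0, g], .hi 0, [.c, .l [7, 13, 6, 10, 9, 2, 8, 1], .l [0, 2], .l [3, 2], .y [0, 3], .l [0, 5, 9, 7, 2], .l [0, 5], .l [6, 5], .l [6, 5], .l [0, 7, 9, 5, 2], .l [0, 7], .l [8, 7], .l [0, 7], .l [5, 13, 8, 10, 9, 2, 8, 3], .l [0, 10], .l [11, 10], .l [5, 11, 6, 8, 7, 2, 6, 7], .l [0, 12], .l [13, 12]]),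
([p 2 0, s 0 1, g, s 3 0, g, p 0 2, p 4 3, g, p 0 4, s 0 0, g, s 1 0, g], .lo 9, [.l [6, 2, 10, 5, 0, 7, 4, 5], .l [8, 2, 12, 5, 0, 9, 6, 3], .l [3, 10, 4, 2, 3, 2, 3], .l [2, 8, 2, 1, 4, 7, 4], .l [2, 6, 2, 1, 2, 5, 4], .l [8, 4, 12, 5, 0, 7, 4, 7], .l [8, 4, 12, 5, 0, 7, 4, 7], .l [4, 8, 9, 8, 2, 7, 1], .l [8, 10, 7], .l [8, 10, 7], .r 2005 [1, 2, 5, 4] [3, 1, 1, 1, 1], .y [9], .l [6, 2, 12, 7, 0, 9, 6, 1], .r 2004 [1, 2, 3, 4, 5] [1, 1, 1, 1, 1, 1], .l [6, 2, 12, 7, 0, 9, 6, 1], .l [6, 2, 10, 5, 0, 7, 4, 1], .l [6, 2, 10, 5, 0, 7, 4, 7], .r 1969 [1, 2, 3, 4, 5] [1, 1, 1, 1, 1, 1], .l [6, 2, 10, 5, 0, 7, 4, 7]]),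
([p 2 0, s 0 1, g, s 3 0, g, p 0 2, p 4 3, g, p 0 4, g, s 1 0, g], .top 9, [.r 1968 [1, 2, 3, 4] [1, 1, 1, 1], .r 2006 [1, 2, 3, 4] [1, 1, 1, 1, 1], .r 1967 [1, 2, 3, 4] [1, 1, 1, 1, 1], .r 1819 [2, 4] [4, 1, 3]]),
([p 3 1, s 2 0, g, s 4 0, g, s 0 2, g, p 0 3, p 6 4, g, p 0 5, g, p 0 6, g, s 1 0, g, s 5 0, g], .hi 1, [.l [6, 12, 16, 1, 8, 1, 5, 9, 2, 3], .l [2, 9, 6, 6, 13], .l [7, 5, 11, 15, 1, 8, 3, 5, 8, 1], .l [6, 12, 16, 1, 8, 3, 5, 9, 2, 5], .l [4, 9, 4, 4, 13], .l [7, 5, 11, 15, 1, 8, 1, 5, 8, 1], .y [1, 5], .l [6, 12, 16, 1, 8, 3, 5, 9, 2, 5], .l [6, 9, 2, 2, 13], .l [7, 5, 11, 15, 1, 8, 1, 5, 8, 1], .l [6, 7, 0, 0, 11], .l [1, 9, 13, 11, 5], .l [0, 7, 6, 8, 12, 10, 11], .l [8, 4, 9, 2, 11, 6, 9], .l [0, 7, 6, 8, 10, 8,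 9], .l [1, 11, 13, 9, 5], .l [0, 7, 6, 10, 12, 8, 11], .l [8, 4, 11, 4, 11, 4, 9], .l [0, 7, 6, 10, 10, 6, 9], .l [4, 10, 16, 3, 7, 3, 10, 2, 2, 3], .l [16, 15, 12], .l [5, 3, 17, 7, 3, 11, 6, 8, 4, 1], .l [4, 10, 16, 1, 7, 3, 10, 2, 2, 3], .l [14, 13, 14], .l [8, 4, 15, 8, 0, 10, 5], .l [17, 3, 15, 3, 12, 3, 8, 11, 8, 3], .l [14, 13, 16], .l [8, 4, 17, 10, 0, 12, 7]]),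
([p 3 1, s 2 0, g, s 4 0, g, s 7 0, s 0 2, g, p 0 3, p 5 4, g, p 0 0, p 6 5, g, p 0 6, g, s 0 7, g, s 1 0, g], .hi 11, [.l [11, 5, 12, 4, 12, 5, 8], .l [11, 5, 12, 4, 12, 5, 8], .l [13, 9], .l [7, 11, 6, 12, 3, 12, 6, 2, 2, 13], .l [4, 18, 10, 13, 16, 5, 15, 6], .l [13, 7], .l [1, 5, 10, 4, 7, 4, 8, 3, 4, 7, 5, 6], .l [0, 13, 4, 9, 6, 11, 4, 2, 5, 9, 6, 11], .l [11, 7, 10, 3, 7, 4, 10, 3, 12, 5, 8, 3], .l [13, 4], .l [9, 5, 8, 3, 5, 2, 8, 3, 10, 3, 6, 3], .l [0, 13, 1, 13, 9, 7, 4, 12], .l [0, 11, 14, 11, 7, 4, 14, 3, 4, 1], .l [13, 1], .y [11], .l [0, 19, 5, 6, 3], .l [11, 13], .l [14, 2], .l [11, 13], .l [9, 5, 15, 4, 9, 8, 16, 10, 4, 9, 7, 10], .l [11, 15], .l [16, 4], .l [1, 9, 5, 15, 13, 5, 8, 5, 6, 8, 6, 7], .l [9, 5, 17,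 6, 11, 10, 16, 8, 4, 7, 5, 10], .l [11, 17], .l [18, 6], .r 2008 [1, 2, 3, 4, 8, 5] [1, 2, 1, 1, 0, 5, 1, 1], .l [11, 19], .l [20, 8]]),
([p 3 1, s 2 0, g, s 6 0, s 4 2, g, p 0 3, p 5 4, g, p 0 5, g, s 0 6, g, s 1 0, g], .hi 1, [.l [5, 9, 2, 6, 1, 8, 4, 4, 4, 7], .l [2, 8, 5, 5, 12], .l [1, 5, 11, 9, 2, 10], .l [4, 2, 5, 2, 6, 3, 8, 3, 4, 1], .l [5, 8, 2, 2, 12], .l [4, 2, 5, 2, 6, 3, 8, 3, 4, 1], .l [5, 6, 0, 0, 10], .l [1, 8, 10, 8, 4], .l [0, 6, 5, 2, 10, 8, 4, 6, 4, 7], .l [1, 3, 6, 2, 7, 4, 7, 2, 5], .y [1, 9, 7, 4], .l [7, 2, 10, 4, 0, 7, 4, 1, 2, 5], .l [4, 2, 5, 1, 5, 2, 8, 1, 4, 7], .l [1, 3, 6, 2, 9, 6, 0, 6, 1], .l [1, 3, 9, 9, 2, 8], .l [7, 2, 12, 6, 0, 9, 6, 3, 4, 1], .l [15, 14, 2, 8, 6, 8], .l [1, 3, 9, 11, 4, 10],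 .l [7, 2, 14, 8, 0, 11, 8, 5, 6, 1], .l [13, 12, 2, 8, 6, 10], .l [1, 3, 9, 13, 6, 3]]),
([p 3 1, s 2 0, g, s 6 0, s 0 2, g, p 0 3, p 4 0, g, p 5 0, g, p 0 4, g, s 0 5, g, s 0 6, g, s 1 0, g], .hi 3, [.l [5, 1, 7, 2, 2, 15], .l [4, 8, 3, 15, 9, 13, 2, 13], .l [5, 1, 7, 2, 2, 15], .c, .l [19, 18, 2, 3, 16, 10], .l [19, 18, 2, 14, 10, 12], .l [17, 13, 14, 7, 3, 5, 8, 11, 9, 1], .l [17, 16, 2, 12, 8, 10], .l [0, 6, 5, 2, 6, 10, 8, 13], .l [0, 6, 5, 2, 6, 10, 8, 13], .l [2, 9, 5, 6, 15, 11, 14, 3], .l [0, 6, 5, 2, 8, 10, 6, 13], .l [0, 6, 5, 2, 8, 10, 6, 13], .l [2, 11, 7, 8, 15, 9, 14, 5], .l [0, 6, 5, 2, 8, 8, 4, 11], .l [3, 12, 14, 10, 12, 10, 2, 2], .l [2, 6, 3, 15, 3, 13, 2, 13], .l [2, 13, 9, 10, 15, 7, 14, 7], .l [0, 6, 5, 2,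 10, 10, 6, 8, 6, 9], .l [0, 18, 9, 3, 13, 5, 11, 9, 11, 8, 1], .l [2, 6, 3, 15, 1, 13, 2, 13], .l [2, 15, 11, 12, 15, 5, 14, 9], .y [3, 15], .l [0, 18, 9, 3, 13, 7, 11, 7, 11, 8, 5], .l [19, 18, 2, 14], .l [2, 15, 11, 12, 15, 5, 14, 9], .l [17, 16, 2, 16, 9, 3, 7, 8, 1], .l [17, 16, 2, 16], .l [2, 15, 11, 12, 13, 15, 2, 10]]),
([p 3 1, s 2 0, g, s 7 0, s 0 2, g, p 4 3, p 5 4, g, p 0 0, p 6 5, g, p 0 6, g, s 0 7, g, s 1 0, g], .lo 9, [.l [0, 6, 5, 2, 11, 9, 4, 5, 3, 8], .l [3, 10, 11, 9, 4], .l [3, 10], .l [0, 17, 14, 7, 8, 6, 12], .l [0, 6, 5, 2, 6, 7, 5, 10], .l [6, 10, 11, 9, 1], .l [6, 10], .l [0, 17, 11, 4, 5, 3, 12], .l [10, 9, 2, 14, 7, 2, 7, 3], .l [9, 10], .l [8, 12, 10, 10, 9, 9, 3, 1], .y [9], .l [9, 8, 2, 14, 7, 3, 5,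 3, 5, 1], .l [18, 17, 2, 16, 11, 11, 10, 10, 7, 8, 6, 5, 3], .l [8, 10, 8, 8, 7, 7, 1, 6], .r 2011 [1, 2, 3, 5, 8, 7] [1, 1, 1, 0, 3, 1, 1, 1], .l [18, 17, 2, 16, 11, 11, 10, 10, 7, 7, 5, 7, 5], .l [8, 10, 8, 8, 7, 7, 1, 8], .l [3, 13, 15, 10, 11, 9, 2, 2], .l [0, 6, 5, 2, 11, 13, 8, 9, 7, 10], .l [3, 13, 4, 13, 7, 2, 2, 12], .l [0, 15, 15, 8, 9, 7, 5], .l [0, 15, 17, 10, 11, 9, 5], .l [0, 15, 17, 10, 11, 9, 5], .l [0, 15, 6, 15, 7, 5, 2, 7]]),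
([p 3 1, s 2 0, g, s 6 0, s 0 2, g, p 0 3, p 4 0, g, p 0 0, p 5 4, g, p 0 5, g, s 0 6, g, s 1 0, g], .hi 7, [.r 2009 [1, 2, 3, 7, 4, 5, 6] [1, 1, 1, 1, 1, 1, 1, 1], .l [2, 16, 10, 13, 14, 3, 13, 8], .l [9, 5], .r 2010 [1, 2, 3, 7, 4, 6] [1, 1, 2, 3, 1, 1], .r 1931 [1, 2, 3, 7, 4, 5] [2, 1, 1, 1, 1, 3, 1], .r 1941 [1, 2, 3, 7, 6] [1, 1, 1, 6, 1, 1], .l [9, 2], .r 2012 [1, 2, 3, 7, 4, 5, 6] [1, 1, 1, 1, 1, 1, 1], .l [0, 9, 1, 11, 9, 5, 2, 10], .l [7, 8], .l [9, 1], .l [7, 8], .l [15, 3, 6, 12, 2, 12, 7, 3], .l [7, 11], .l [12, 4], .y [7, 12, 10], .l [15, 1, 6, 12, 2, 12, 7, 3], .l [7, 13], .l [14, 6], .r 1588 [3, 7] [5, 6, 3], .r 1588 [3, 7] [5, 8, 3], .l [7, 15], .l [16, 8], .r 1588 [3, 7] [5, 10, 1], .l [7, 17], .l [18, 10]]),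
([p 3 1, s 2 0, g, s 0 0, s 0 2, g, p 0 3, p 4 0, g, p 0 0, p 5 4, g, p 0 5, g, s 1 0, g], .lo 3, [.l [1, 3, 2, 11], .l [5, 1, 7, 2, 2, 12], .l [5, 1, 7, 2, 2, 12], .r 1928 [1, 6, 2, 3] [1, 1, 1, 7, 1], .y [3], .l [16, 15, 2, 3, 13, 7], .r 1916 [1, 2, 6, 3] [1, 1, 1, 7, 1], .l [16, 15, 2, 3], .r 1918 [1, 2, 3, 6] [1, 1, 0, 6, 1], .l [0, 6, 5, 2, 6, 9, 7, 10], .r 1918 [1, 2, 3, 6] [1, 1, 2, 6, 1], .l [0, 6, 5, 2, 6, 9, 7, 10], .r 1918 [1, 2, 3, 6] [1, 1, 2, 4, 1], .l [0, 6, 5, 2, 9, 11, 9, 9, 6, 9], .r 1918 [1, 2, 3, 6] [1, 1, 5, 3, 1], .l [0, 6, 5, 2, 9, 11, 9, 9, 6, 9], .r 2013 [1, 2, 3, 4, 5, 6] [1, 1, 1, 1, 1, 1, 1], .r 1918 [1, 2, 3, 6] [1, 1, 7, 1, 1], .l [16, 15, 2, 11], .l [14, 13, 2, 11], .l [15, 1, 13, 2, 12, 7], .r 1917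 [1, 2, 3, 6] [1, 1, 7, 1, 1], .l [14, 13, 2, 13]]),
([p 3 1, s 2 0, g, s 6 0, s 0 2, g, p 0 3, p 5 0, g, m 0 4, g, p 0 5, g, s 4 0, g, s 0 6, g, s 1 0, g], .hi 3, [.l [5, 1, 7, 2, 2, 15], .l [4, 8, 3, 15, 9, 13, 2, 13], .l [5, 1, 7, 2, 2, 15], .c, .l [19, 18, 2, 3, 16, 10], .l [19, 18, 2, 14, 10, 12], .l [17, 13, 14, 7, 3, 5, 8, 11, 9, 1], .l [17, 16, 2, 12, 8, 10], .l [0, 6, 5, 2, 6, 10, 8, 13], .l [0, 6, 5, 2, 6, 10, 8, 13], .l [2, 9, 5, 6, 15, 11, 14, 3], .l [2, 9, 5, 6, 13, 9, 12, 3], .l [0, 6, 5, 2, 8, 10, 6, 13], .l [0, 6, 5, 2, 8, 10, 6, 13], .l [2, 11, 7, 8, 15, 9, 14, 5], .l [0, 6, 5, 2, 8, 8, 4, 11], .l [3, 12, 14, 10, 12, 10, 2, 2], .l [2, 6, 3, 15, 3, 13, 2, 13], .l [2, 13, 9, 10, 15, 7, 14, 7], .l [0, 18, 9, 3, 13,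 5, 11, 9, 11, 8, 1], .l [2, 6, 3, 15, 1, 13, 2, 13], .l [2, 15, 11, 12, 15, 5, 14, 9], .y [3, 15], .l [0, 18, 9, 3, 13, 7, 11, 7, 11, 8, 5], .l [19, 18, 2, 14], .l [2, 15, 11, 12, 15, 5, 14, 9], .l [17, 16, 2, 16, 9, 3, 7, 8, 1], .l [17, 16, 2, 16], .l [2, 15, 11, 12, 13, 15, 2, 10]]),
([p 3 1, s 2 0, g, s 7 0, s 0 2, g, p 4 3, p 5 4, g, m 0 0, p 6 5, g, p 0 6, g, s 0 7, g, s 1 0, g], .hi 9, [.l [3, 10, 11, 9, 4], .l [0, 17, 14, 7, 8, 6, 12], .l [3, 10], .l [1, 3, 12, 4, 7, 8, 6, 3], .l [6, 10, 11, 9, 1], .l [0, 17, 11, 4, 5, 3, 12], .l [6, 10], .l [10, 9, 2, 14, 7, 2, 7, 3], .l [8, 12, 10, 10, 9, 9, 3, 1], .l [9, 10], .y [9], .l [9, 8, 2, 14, 7, 3, 5, 3, 5, 1], .l [8, 10, 8, 8, 7, 7, 1, 6], .l [18, 17, 2, 16, 11, 11, 10, 10, 7,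 8, 6, 5, 3], .l [8, 10, 8, 8, 7, 7, 1, 6], .r 2015 [1, 2, 3, 8, 5, 7] [1, 1, 1, 0, 3, 1, 1, 1], .l [8, 10, 8, 8, 7, 7, 1, 8], .l [18, 17, 2, 16, 11, 11, 10, 10, 7, 7, 5, 7, 5], .l [0, 6, 5, 2, 11, 11, 6, 7, 5, 8], .l [3, 13, 15, 10, 11, 9, 2, 2], .l [3, 13, 4, 13, 7, 2, 2, 12], .l [0, 6, 5, 2, 11, 13, 8, 9, 7, 10], .l [0, 15, 17, 10, 11, 9, 5], .l [0, 15, 6, 15, 7, 5, 2, 7], .l [0, 15, 17, 10, 11, 9, 5]]),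
([p 4 1, s 3 2, g, s 0 3, g, s 5 0, g, s 2 0, g, p 0 4, p 6 5, g, m 0 0, p 7 6, g, p 0 7, g, s 1 0, g], .lo 12, [.l [12, 4, 13, 4, 13, 4, 9], .l [14, 10], .l [12, 4, 13, 4, 13, 4, 9], .l [12, 4, 13, 6, 13, 4, 7], .l [14, 8], .l [12, 4, 13, 6, 13, 4, 7], .l [10, 4, 11, 6, 11, 4, 5], .l [0, 12, 6, 3, 8, 12, 8, 4, 8, 10, 8, 3], .l [14, 6], .l [0, 12, 6, 3, 8, 12, 8, 4, 8, 10, 8, 3], .l [10, 4, 9, 5, 3, 10, 6, 7, 9, 7, 1, 1, 2, 5], .l [0, 12, 6, 1, 8, 12, 8, 4, 8, 10, 8, 3], .l [14, 4], .l [3, 1, 11, 6, 1, 7, 10, 7, 8, 10, 8, 3], .l [2, 14, 1, 14, 10, 6, 6, 13], .l [14, 1], .l [2, 12, 14, 11, 6, 6, 14, 3, 4, 1], .y [12], .l [0, 18, 3, 4, 1], .l [15, 2], .l [12, 14], .l [0, 10, 4, 1, 6, 10, 6, 2, 6, 8, 6, 7], .l [17, 4], .l [12, 16],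 .l [10, 4, 9, 5, 6, 10, 3, 6, 9, 5, 8, 8, 2, 5], .l [0, 10, 4, 1, 6, 10, 6, 2, 6, 8, 6, 9], .l [19, 6], .l [12, 18]]),
([p 3 1, s 2 0, g, s 0 2, g, s 4 0, g, p 0 3, p 5 4, g, m 0 0, p 6 5, g, p 0 6, g, s 1 0, g], .hi 1, [.l [4, 10, 2, 8, 1, 9, 3, 5, 5, 8], .l [2, 9, 6, 6, 14], .l [4, 10, 2, 8, 1, 9, 3, 5, 5, 8], .y [1, 3], .l [4, 10, 2, 8, 1, 9, 3, 5, 5, 8], .l [4, 9, 4, 4, 14], .r 854 [7, 3] [3, 3, 9], .r 2017 [1, 7, 2, 3, 4, 5, 6] [1, 1, 1, 1, 1, 1, 1, 1], .l [6, 9, 2, 2, 14], .r 854 [7, 3] [5, 1, 9], .l [6, 7, 0, 0, 12], .l [1, 9, 12, 10, 5], .l [0, 7, 6, 8, 11, 9, 12], .l [8, 2, 9, 2, 10, 3, 8], .l [8, 2, 7, 5, 3, 8, 4, 5, 7, 5, 2, 5], .l [1, 12, 14, 12, 12, 9, 5], .l [0, 7, 6, 11, 13, 11, 11, 8, 11], .l [8, 2, 12, 5, 0, 9,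 5], .l [0, 7, 6, 11, 11, 9, 9, 6, 9], .l [3, 1, 7, 2, 14, 9, 6, 8, 9, 3], .l [17, 16, 13], .l [8, 2, 14, 7, 0, 11, 7], .l [8, 2, 16, 9, 6, 10, 1, 3, 9, 3], .l [15, 14, 15], .l [8, 2, 16, 9, 0, 13, 9]]),
([p 3 1, s 2 0, g, s 4 0, g, s 0 2, g, p 0 3, p 5 4, g, m 6 0, g, p 0 5, g, s 1 0, g, s 0 6, g], .hi 1, [.l [6, 12, 16, 1, 8, 1, 5, 9, 2, 3], .l [2, 9, 6, 6, 13], .l [7, 5, 11, 15, 1, 8, 3, 5, 8, 1], .l [6, 12, 16, 1, 8, 3, 5, 9, 2, 5], .l [4, 9, 4, 4, 13], .l [7, 5, 11, 15, 1, 8, 1, 5, 8, 1], .y [1, 5], .l [6, 12, 16, 1, 8, 3, 5, 9, 2, 5], .l [6, 9, 2, 2, 13], .l [7, 5, 11, 15, 1, 8, 1, 5, 8, 1], .l [6, 7, 0, 0, 11], .l [1, 9, 13, 11, 5], .l [0, 7, 6, 8, 12, 10, 11], .l [8, 4, 9, 2, 11, 6, 9], .l [1, 11, 13, 9, 5], .l [0, 7, 6,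 10, 12, 8, 11], .l [8, 4, 11, 4, 11, 4, 9], .l [0, 7, 6, 10, 10, 6, 9], .l [4, 10, 16, 3, 7, 3, 10, 2, 2, 3], .l [16, 15, 12], .l [5, 3, 17, 7, 3, 11, 6, 8, 4, 1], .l [4, 10, 16, 1, 7, 3, 10, 2, 2, 3], .l [14, 13, 14], .l [8, 4, 15, 8, 0, 10, 5], .r 2007 [7, 3, 4, 5] [1, 3, 3, 3, 1], .l [17, 3, 15, 3, 12, 3, 8, 11, 8, 3], .l [14, 13, 16], .l [8, 4, 17, 10, 0, 12, 7]]),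
([p 3 1, s 2 0, g, s 4 0, g, s 7 0, s 0 2, g, p 0 3, p 5 4, g, m 0 0, p 6 5, g, p 0 6, g, s 0 7, g, s 1 0, g], .lo 11, [.l [9, 5, 8, 3, 5, 2, 8, 3, 10, 5, 6, 1], .l [11, 5, 12, 4, 12, 5, 8], .l [13, 9], .l [11, 5, 12, 4, 12, 5, 8], .l [9, 5, 10, 4, 10, 5, 6], .l [7, 11, 6, 12, 3, 12, 6, 2, 2, 13], .l [13, 7], .l [4, 18, 10, 13, 16, 5, 15, 6], .l [2, 11, 5, 8, 15, 9, 14, 3], .l [0, 13, 4, 9, 6, 11, 4, 2, 5, 9, 6, 11], .l [13, 4], .l [11, 7, 10, 3, 7, 4, 10, 3, 12, 5, 8, 3], .l [0, 13, 1, 13, 9, 7, 4, 12], .l [13, 1], .l [0, 11, 14, 11, 7, 4, 14, 3, 4, 1], .y [11], .l [0, 19, 5, 6, 3], .l [14, 2], .l [11, 13], .l [9, 5, 15, 4, 9, 8, 16, 10, 4, 9, 7, 10], .l [16, 4], .l [11, 15], .l [9, 5, 17, 6, 11, 10, 16, 8, 4, 7, 5, 10], .l [18,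 6], .l [11, 17], .l [11, 17, 17, 10, 4, 13], .r 2019 [1, 2, 3, 4, 5, 8] [1, 2, 1, 1, 0, 5, 1, 1], .l [20, 8], .l [11, 19]]),
([p 3 1, s 2 0, g, s 6 0, s 0 2, g, p 0 3, p 4 0, g, m 0 0, p 5 4, g, p 0 5, g, s 0 6, g, s 1 0, g], .hi 7, [.r 2020 [1, 2, 3, 7, 4, 5, 6] [1, 1, 1, 1, 1, 1, 1, 1], .l [2, 16, 10, 13, 14, 3, 13, 8], .l [9, 5], .r 2010 [1, 2, 3, 7, 4, 6] [1, 1, 2, 3, 1, 1], .r 2018 [1, 2, 3, 7, 4, 5] [2, 1, 1, 1, 1, 3, 1], .r 1941 [1, 2, 3, 7, 6] [1, 1, 1, 6, 1, 1], .l [9, 2], .r 2016 [1, 2, 3, 7, 4, 5, 6] [1, 1, 1, 1, 1, 1, 1], .l [0, 9, 1, 11, 9, 5, 2, 10], .l [7, 8], .l [9, 1], .l [9, 1], .l [15, 3, 6, 12, 2, 12, 7, 3], .l [7, 11], .l [12, 4], .y [7, 12, 10], .l [15, 1, 6, 12, 2, 12, 7, 3], .l [7, 13], .l [14, 6], .r 1588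 [3, 7] [5, 6, 3], .r 1588 [3, 7] [5, 8, 3], .l [7, 15], .l [16, 8], .r 1588 [3, 7] [5, 10, 1], .l [7, 17], .l [18, 10]]),
([p 3 1, s 2 0, g, s 0 0, s 0 2, g, p 0 3, p 4 0, g, m 0 0, p 5 4, g, p 0 5, g, s 1 0, g], .lo 3, [.l [1, 3, 2, 11], .l [5, 1, 7, 2, 2, 12], .l [5, 1, 7, 2, 2, 12], .r 1928 [1, 6, 2, 3] [1, 1, 1, 7, 1], .y [3], .l [16, 15, 2, 3, 13, 7], .r 1916 [1, 2, 6, 3] [1, 1, 1, 7, 1], .l [16, 15, 2, 3], .r 1918 [1, 2, 3, 6] [1, 1, 0, 6, 1], .l [0, 6, 5, 2, 6, 9, 7, 10], .r 1918 [1, 2, 3, 6] [1, 1, 2, 6, 1], .l [0, 6, 5, 2, 6, 9, 7, 10], .l [0, 6, 5, 2, 6, 7, 5, 8], .l [0, 6, 5, 2, 9, 11, 9, 9, 6, 9], .r 1918 [1, 2, 3, 6] [1, 1, 5, 3, 1], .l [0, 6, 5, 2, 9, 11, 9, 9, 6, 9], .r 2021 [1, 2, 3, 4, 5, 6] [1, 1, 1, 1, 1, 1,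 1], .r 1918 [1, 2, 3, 6] [1, 1, 7, 1, 1], .l [16, 15, 2, 11], .l [14, 13, 2, 11], .l [15, 1, 13, 2, 12, 7], .r 1917 [1, 2, 3, 6] [1, 1, 7, 1, 1], .l [14, 13, 2, 13]]),
([p 3 1, s 2 0, g, s 4 0, g, s 0 2, g, p 0 3, p 5 4, p 6 5, g, p 7 6, g, p 0 7, g, s 1 0, g], .hi 1, [.l [0, 10, 4, 1, 6, 8, 4, 2, 4, 6, 4, 7], .l [2, 9, 6, 6, 14], .l [7, 5, 12, 13, 12, 12, 10, 5, 1, 6, 8, 6, 1], .l [6, 11, 16, 10, 3, 5, 12, 7, 1, 9, 9, 5, 2, 5], .l [4, 9, 4, 4, 14], .l [12, 5, 9, 11, 5, 5, 4, 2, 5, 9, 7, 0, 7], .y [1, 5], .l [6, 11, 16, 10, 3, 5, 12, 7, 1, 9, 9, 5, 2, 5], .l [6, 9, 2, 2, 14], .l [5, 3, 12, 13, 12, 12, 10, 10, 9, 3, 1, 2, 7], .l [6, 7, 0, 0, 12], .l [1, 10, 12, 10, 10, 9, 5], .l [0, 7, 6, 9, 11, 9, 4], .l [5, 3, 10, 6, 13, 5, 8,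 5], .l [1, 12, 14, 12, 12, 10, 10, 9, 5], .l [0, 7, 6, 11, 13, 11, 11, 9, 4], .l [8, 4, 12, 5, 13, 5, 12, 6, 5, 5, 3, 3, 3], .l [0, 7, 6, 11, 11, 9, 9, 7, 4], .l [4, 9, 14, 7, 3, 11, 8, 1, 8, 8, 6, 2, 2, 5], .l [17, 16, 13], .l [1, 4, 8, 13, 8, 4, 11, 8, 3, 8, 8, 6, 3], .l [4, 9, 16, 9, 3, 13, 10, 1, 10, 10, 8, 2, 2, 3], .l [15, 14, 15], .l [1, 4, 8, 15, 10, 4, 13, 10, 3, 10, 10, 8, 5]]),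
([p 3 1, s 2 0, g, s 0 2, g, s 4 0, g, p 0 3, p 5 4, p 6 5, g, p 0 6, g, s 1 0, g], .hi 1, [.l [4, 10, 2, 8, 1, 8, 2, 4, 4, 7], .l [2, 9, 6, 6, 12], .l [4, 10, 2, 8, 1, 8, 2, 4, 4, 7], .y [1, 3], .l [4, 10, 2, 8, 1, 8, 2, 4, 4, 7], .l [4, 9, 4, 4, 12], .l [5, 10, 2, 7, 1, 8, 3, 4, 7, 5, 2, 5], .l [0, 10, 4, 1, 6, 8, 4, 2, 4, 6, 4, 5], .l [6, 9, 2, 2, 12], .l [0, 10, 4, 1, 6, 8, 4, 2, 4, 6, 4, 5], .l [6, 7, 0, 0, 10], .l [1, 10, 12, 10, 10, 9, 5], .l [0, 7, 6, 9, 11, 9, 2], .l [8, 2, 4, 4, 8, 3, 9, 3, 8, 5], .l [0, 7, 6, 9, 9, 7, 2], .l [3, 1, 7, 2, 13, 8, 5, 7, 8, 3], .l [15, 14, 11], .l [8, 2, 12, 5, 0, 9, 7], .l [8, 2, 14, 7, 4, 8, 1, 3, 8, 3], .l [13, 12, 13], .l [8, 2, 14, 7, 0, 11, 9]]),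
([p 3 1, s 2 0, g, s 7 0, s 0 2, g, p 0 3, p 4 0, p 5 4, g, p 6 5, g, p 0 6, g, s 0 7, g, s 1 0, g], .hi 7, [.r 2023 [1, 2, 3, 8, 4, 5, 6] [1, 2, 1, 1, 1, 3, 1], .l [2, 16, 10, 13, 14, 3, 13, 8], .l [9, 5], .l [10, 12, 11, 11, 9, 2, 6, 4, 3, 2, 5, 2, 7], .r 2024 [1, 2, 3, 8, 4, 5] [2, 1, 1, 1, 5, 1], .l [18, 17, 2, 16, 9, 11, 10, 10, 9, 9, 7, 7, 5], .l [9, 2], .l [16, 15, 2, 14, 9, 9, 8, 8, 7, 7, 5, 5, 3], .l [0, 17, 7, 8, 5], .l [7, 9], .l [10, 2], .l [15, 3, 6, 6, 5, 11, 2, 11, 6, 3], .l [7, 11], .l [12, 4], .y [7, 12, 10, 8], .l [9, 14, 5, 1, 12, 6, 2, 11, 4, 2, 4, 1], .l [7, 13], .l [14, 6], .l [14, 10, 3, 9, 6, 11, 3, 8, 11, 5, 2, 7], .r 1329 [3, 8, 4] [5, 7, 3], .l [7, 15], .l [16, 8], .r 1329 [3, 8, 4] [5, 9, 1], .l [7,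 17], .l [18, 10]]),
([p 3 1, s 2 0, g, s 7 0, s 0 2, g, p 0 3, p 4 0, g, p 5 4, g, p 6 5, g, s 0 6, g, s 0 7, g, s 1 0, g], .hi 3, [.l [5, 1, 7, 2, 2, 15], .l [4, 8, 3, 15, 9, 13, 2, 13], .l [5, 1, 7, 2, 2, 15], .c, .l [19, 18, 2, 3, 16, 10], .l [19, 18, 2, 14, 10, 12], .r 1923 [1, 8, 2, 3] [1, 1, 1, 10, 1], .l [17, 16, 2, 12, 8, 10], .l [0, 6, 5, 2, 6, 8, 6, 13], .l [0, 6, 5, 2, 6, 8, 6, 13], .l [2, 9, 5, 6, 15, 11, 14, 3], .l [0, 6, 5, 2, 8, 10, 8, 8, 6, 11], .l [0, 6, 5, 2, 8, 10, 8, 8, 6, 11], .l [2, 11, 7, 8, 15, 9, 14, 5], .l [3, 12, 14, 12, 12, 10, 10, 8, 2, 2], .l [2, 6, 3, 15, 3, 13, 2, 13], .l [2, 13, 9, 10, 15, 7, 14, 7], .l [0, 6, 5, 2, 10, 10, 8, 8, 6, 6, 4, 7], .l [0, 18, 7, 1, 13, 7, 11, 9, 9, 7, 9, 6, 1], .l [2,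 6, 3, 15, 1, 13, 2, 13], .l [2, 15, 11, 12, 15, 5, 14, 9], .y [3, 15], .l [0, 18, 7, 1, 13, 9, 11, 7, 7, 5, 9, 6, 3], .l [19, 18, 2, 14], .l [2, 15, 11, 12, 15, 5, 14, 9], .l [18, 1, 16, 2, 15, 10], .l [17, 16, 2, 16], .l [2, 15, 11, 12, 13, 15, 2, 10]]),
([p 4 1, s 3 0, g, s 8 2, s 0 3, g, p 0 4, p 5 0, p 7 5, g, s 0 6, g, p 6 7, g, s 2 0, g, s 0 8, g, s 1 0, g], .lo 10, [.l [1, 9, 9, 9, 9, 7, 7, 6, 4], .l [3, 11, 11, 11, 11, 9, 9, 8, 4], .l [3, 11, 11, 11, 11, 9, 9, 8, 4], .l [0, 19, 5, 5, 14, 8, 8, 6, 6, 5, 11], .l [6, 11, 11, 11, 11, 9, 9, 8, 1], .l [6, 11, 11, 11, 11, 9, 9, 8, 1], .l [0, 19, 5, 5, 11, 5, 5, 3, 3, 2, 11], .y [7, 10, 12, 8], .l [3, 12, 1, 13, 9, 9, 8, 2, 2, 13], .l [0, 12, 1, 13, 9, 9, 8, 5, 2, 11], .l [0, 19,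 7, 1, 9, 7, 7, 1, 11, 7, 9, 5, 9, 6, 3], .l [3, 12, 1, 13, 9, 9, 8, 2, 2, 13], .l [0, 12, 1, 13, 9, 9, 8, 5, 2, 11], .l [0, 10, 13, 1, 11, 11, 9, 9, 8, 5, 2, 9], .l [10, 13, 1, 11, 1, 10, 16, 14, 2, 13, 8, 1], .l [14, 3, 5, 3, 11, 2, 14, 7, 1, 3, 6, 3], .l [10, 13, 1, 11, 1, 10, 16, 14, 2, 13, 8, 1], .l [3, 13, 1, 1, 11, 9, 9, 7, 7, 6, 2, 2], .l [3, 13, 15, 11, 11, 11, 11, 9, 9, 8, 2, 2, 9], .l [3, 13, 1, 1, 13, 11, 11, 9, 9, 8, 2, 2], .l [10, 15, 3, 13, 1, 12, 16, 12, 2, 11, 6, 1], .l [3, 15, 17, 11, 11, 11, 11, 9, 9, 8, 2, 2, 9], .l [3, 15, 3, 3, 15, 11, 11, 9, 9, 8, 2, 2], .l [10, 17, 5, 15, 1, 14, 16, 10, 2, 9, 4, 1], .l [10, 17, 5, 15, 1, 14, 14, 8, 2, 7, 2, 1], .l [0, 17, 19, 11, 11, 11, 11, 9, 9, 8, 5, 2], .l [0, 17, 5,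 5, 17, 11, 11, 9, 9, 8, 5], .l [18, 17, 2, 13, 5, 1, 5, 3, 3, 12, 10, 6, 8, 4, 7]]),
([p 4 1, s 3 0, g, s 8 2, s 0 3, g, p 0 4, p 5 0, p 7 5, g, s 0 6, g, p 6 7, g, s 0 8, g, s 2 0, g, s 1 0, g], .lo 10, [.l [1, 9, 9, 9, 9, 7, 7, 6, 4], .l [3, 11, 11, 11, 11, 9, 9, 8, 4], .l [3, 11, 11, 11, 11, 9, 9, 8, 4], .l [0, 19, 5, 5, 14, 8, 8, 6, 6, 5, 11], .l [6, 11, 11, 11, 11, 9, 9, 8, 1], .l [6, 11, 11, 11, 11, 9, 9, 8, 1], .l [0, 19, 5, 5, 11, 5, 5, 3, 3, 2, 11], .y [7, 10, 12, 8], .l [3, 12, 1, 13, 9, 9, 8, 2, 2, 13], .l [0, 12, 1, 13, 9, 9, 8, 5, 2, 9], .l [0, 19, 7, 1, 9, 7, 7, 1, 11, 5, 9, 7, 9, 6, 1], .l [3, 12, 1, 13, 9, 9, 8, 2, 2, 13], .l [0, 12, 1, 13, 9, 9, 8, 5, 2, 9], .l [0, 10, 13, 1, 11, 11, 9, 9, 8, 5, 2, 7], .l [10,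 13, 1, 11, 1, 10, 16, 14, 2, 13, 8, 1], .l [14, 3, 5, 3, 11, 2, 12, 5, 1, 3, 4, 1], .l [10, 13, 1, 11, 1, 10, 16, 14, 2, 13, 8, 1], .l [3, 13, 15, 11, 11, 11, 11, 9, 9, 8, 2, 2, 9], .l [3, 13, 1, 1, 13, 11, 11, 9, 9, 8, 2, 2], .l [10, 15, 3, 13, 1, 12, 16, 12, 2, 11, 6, 1], .l [3, 13, 15, 11, 11, 11, 11, 9, 9, 8, 2, 2, 7], .l [3, 13, 17, 13, 13, 13, 13, 11, 11, 10, 2, 2, 9], .l [3, 13, 1, 1, 15, 13, 13, 11, 11, 10, 2, 2], .l [10, 17, 5, 15, 1, 14, 16, 10, 2, 9, 4, 1], .l [10, 17, 5, 15, 1, 14, 14, 8, 2, 7, 2, 1], .l [0, 17, 19, 11, 11, 11, 11, 9, 9, 8, 5, 2], .l [0, 17, 5, 5, 17, 11, 11, 9, 9, 8, 5], .l [18, 17, 2, 13, 5, 1, 5, 3, 3, 12, 10, 6, 8, 4, 7]]),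
([p 3 1, s 2 0, g, s 7 0, s 0 2, g, p 0 3, p 4 0, p 6 4, g, s 0 5, g, p 5 6, g, s 0 7, g, s 1 0, g], .hi 3, [.l [5, 1, 7, 2, 2, 14], .l [4, 8, 3, 14, 8, 12, 2, 12], .l [5, 1, 7, 2, 2, 14], .c, .l [18, 17, 2, 3, 15, 9], .l [18, 17, 2, 13, 9, 11], .r 1923 [1, 8, 2, 3] [1, 1, 1, 9, 1], .l [16, 15, 2, 11, 7, 9], .l [0, 6, 5, 2, 7, 11, 9, 9, 8, 11], .l [0, 6, 5, 2, 7, 11, 9, 9, 8, 11], .l [2, 10, 6, 7, 14, 9, 13, 4], .l [0, 6, 5, 2, 7, 7, 7, 7, 5, 5, 4, 7], .l [0, 6, 5, 2, 9, 11, 7, 7, 6, 11], .l [0, 6, 5, 2, 9, 11, 7, 7, 6, 11], .l [2, 12, 8, 9, 14, 7, 13, 6], .r 2027 [1, 8, 2, 3, 4, 5, 6, 7] [1, 1, 1, 1, 1, 1, 1, 1], .l [2, 6, 3, 14, 1, 12, 2, 12], .l [2, 14, 10, 11, 14, 5, 13, 8], .y [3, 14], .r 2028 [1, 8, 2, 3, 4, 5, 6, 7] [1,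 1, 1, 1, 1, 1, 1, 1], .l [18, 17, 2, 13], .l [2, 14, 10, 11, 14, 5, 13, 8], .l [17, 1, 15, 2, 14, 9], .l [16, 15, 2, 15], .l [2, 14, 10, 11, 12, 14, 2, 9]]),
([p 3 1, s 2 0, g, s 6 0, s 0 2, g, p 0 3, p 4 0, p 5 4, g, p 0 5, g, s 0 6, g, s 1 0, g], .lo 10, [.l [0, 6, 5, 2, 9, 7, 5, 5, 3, 3, 2, 5], .l [3, 11, 11, 9, 9, 8, 4], .l [3, 11], .l [0, 15, 12, 8, 8, 6, 6, 5, 9], .l [0, 6, 5, 2, 7, 7, 5, 5, 4, 7], .l [6, 11, 11, 9, 9, 8, 1], .l [6, 11], .l [0, 15, 9, 5, 5, 3, 3, 2, 9], .y [7, 10, 8], .r 2029 [1, 2, 3, 4, 7, 5, 6] [1, 1, 1, 1, 1, 1, 1], .l [10, 11], .l [16, 15, 2, 11, 3, 1], .r 2026 [1, 2, 3, 4, 5, 7, 6] [1, 1, 0, 1, 1, 1, 1, 1], .r 2025 [1, 2, 3, 4, 5, 7, 6] [1, 1, 1, 1, 1, 1, 1], .l [16, 15, 2, 11, 3, 1], .l [3, 11, 13,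 11, 11, 9, 9, 8, 2, 2], .l [0, 6, 5, 2, 9, 11, 9, 9, 7, 7, 6, 7], .l [3, 11, 1, 11, 7, 2, 2, 10], .l [0, 13, 13, 9, 9, 7, 7, 6, 5], .l [0, 13, 15, 11, 11, 9, 9, 8, 5], .l [0, 13, 15, 11, 11, 9, 9, 8, 5], .l [0, 13, 3, 13, 7, 5, 2, 8]]),
([p 3 1, s 2 0, g, s 0 0, s 0 2, g, p 0 3, p 4 0, p 5 4, g, p 0 5, g, s 1 0, g], .lo 3, [.l [1, 3, 2, 9], .l [5, 1, 7, 2, 2, 10], .l [5, 1, 7, 2, 2, 10], .r 1928 [1, 6, 2, 3] [1, 1, 1, 5, 1], .y [3], .l [14, 13, 2, 3, 11, 5], .r 1916 [1, 2, 6, 3] [1, 1, 1, 5, 1], .l [14, 13, 2, 3], .r 1918 [1, 2, 3, 6] [1, 1, 0, 4, 1], .l [0, 6, 5, 2, 7, 9, 7, 7, 6, 7], .r 1918 [1, 2, 3, 6] [1, 1, 3, 3, 1], .l [0, 6, 5, 2, 7, 9, 7, 7, 6, 7], .r 2030 [1, 2, 3, 4, 5, 6] [1, 1, 1, 1, 1, 1], .r 1918 [1, 2, 3, 6] [1,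 1, 5, 1, 1], .l [14, 13, 2, 9], .l [12, 11, 2, 9], .l [13, 1, 11, 2, 10, 5], .r 1917 [1, 2, 3, 6] [1, 1, 5, 1, 1], .l [12, 11, 2, 11]]),
([p 3 1, s 2 0, g, s 0 0, s 0 2, g, p 0 3, p 4 0, g, p 5 4, g, p 0 5, g, s 1 0, g], .bot 8, [.r 2031 [1, 2, 3, 4, 5] [1, 1, 1, 1, 1], .r 1929 [1, 2, 3, 4, 5] [1, 1, 1, 1, 1, 1], .r 2014 [1, 2, 3, 4, 5] [1, 1, 1, 1, 1, 1], .r 2022 [1, 2, 3, 4, 5] [1, 1, 1, 1, 1, 1]]),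
([p 4 1, s 3 0, g, m 0 2, g, m 2 0, s 0 3, g, p 0 4, p 5 0, g, p 6 5, g, p 0 6, g, s 1 0, g], .lo 3, [.l [3, 1, 7, 4, 5, 3, 2], .l [5, 1, 9, 4, 7, 5, 2, 11], .l [5, 1], .l [4, 8, 4, 10, 4, 7, 9, 4, 2, 5, 7, 4, 7], .l [2, 5, 1, 15, 12, 2, 11, 6], .l [5, 1], .l [3, 4], .y [3, 5], .l [12, 4, 7, 11, 6, 2, 8, 3, 10, 5, 8, 3], .l [8, 4], .l [3, 7], .l [9, 5], .l [3, 10, 12, 10, 4], .l [11, 7], .l [3, 10], .l [3, 12, 14, 12, 12, 10, 4], .l [13, 9], .l [3, 12], .l [15, 11, 14, 9, 6, 11, 2, 11], .l [15, 11], .l [3, 14], .l [15, 11, 14, 9, 6, 11, 2, 9], .l [17, 13, 16, 11, 8, 13, 2, 9], .l [17, 13], .l [3, 16]]),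
([p 3 1, s 2 0, g, m 0 0, s 0 2, g, p 0 3, p 4 0, g, p 5 4, g, p 0 5, g, s 1 0, g], .lo 3, [.l [0, 6, 5, 2, 1], .l [5, 1, 7, 2, 2, 11], .l [5, 1], .r 2033 [1, 6, 2, 3, 4, 5] [1, 1, 1, 1, 1, 1, 1], .y [3], .l [15, 14, 2, 3], .l [6, 2], .l [3, 5], .l [7, 3], .l [0, 6, 5, 2, 6, 8, 6, 9], .l [9, 5], .l [3, 8], .l [0, 6, 5, 2, 8, 10, 8, 8, 6, 7], .l [11, 7], .l [3, 10], .l [15, 14, 2, 10], .l [13, 9], .l [3, 12], .l [13, 12, 2, 10], .l [13, 12, 2, 12], .l [15, 11], .l [3, 14]]),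
([p 3 1, s 2 0, g, s 0 2, g, p 0 3, p 4 0, g, p 5 4, g, p 0 5, g, s 1 0, g], .bot 2, [.c, .r 2032 [1, 2, 3, 4, 5] [1, 1, 1, 1, 1, 1], .r 1915 [1, 2, 3, 4, 5] [1, 1, 1, 1, 1, 1], .r 2034 [1, 2, 3, 4, 5] [1, 1, 1, 1, 1, 1]]),
([p 4 1, s 3 2, g, s 0 3, g, s 2 0, g, p 0 4, p 6 0, g, m 0 5, g, p 5 6, g, s 1 0, g], .hi 8, [.l [1, 4, 15, 11, 1, 4, 10, 5, 1, 1, 6, 3], .l [11, 14, 12, 12, 5, 11, 8, 1], .l [10, 6], .l [2, 8, 4, 1, 4, 9, 3, 1, 1, 4, 4, 1], .l [2, 10, 4, 1, 6, 11, 3, 1, 1, 4, 6, 3], .l [11, 14, 12, 12, 7, 11, 6, 1], .l [10, 4], .l [1, 4, 9, 2, 7, 2, 10, 3, 1, 1, 2, 5], .l [11, 14, 12, 12, 9, 11, 4, 1], .l [10, 2], .l [9, 12, 10, 10, 9, 9, 2, 1], .l [2, 10, 1, 12, 10, 4, 4, 9], .l [8, 9], .l [10, 1], .y [8, 10, 12], .l [2,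 8, 10, 1, 10, 10, 8, 4, 4, 7], .l [8, 11], .l [12, 3], .l [2, 8, 12, 3, 1, 1, 8, 4, 4, 7], .l [8, 13], .l [14, 5], .l [2, 8, 14, 5, 1, 1, 10, 4, 4, 5], .l [8, 15], .l [16, 7]]),
([p 4 1, s 3 2, g, s 2 0, g, s 0 3, g, p 0 4, p 6 0, g, m 0 5, g, p 5 6, g, s 1 0, g], .hi 8, [.l [1, 4, 15, 11, 1, 4, 10, 5, 1, 1, 6, 3], .l [11, 14, 12, 12, 5, 11, 8, 1], .l [10, 6], .l [2, 10, 4, 1, 6, 11, 3, 1, 1, 4, 6, 3], .l [11, 14, 12, 12, 7, 11, 6, 1], .l [10, 4], .l [1, 4, 7, 2, 5, 2, 8, 3, 1, 1, 2, 3], .l [1, 4, 9, 2, 7, 2, 10, 3, 1, 1, 2, 5], .l [11, 14, 12, 12, 9, 11, 4, 1], .l [10, 2], .l [9, 12, 10, 10, 9, 9, 2, 1], .l [2, 10, 1, 12, 10, 4, 4, 9], .l [8, 9], .l [10, 1], .y [8, 10, 12], .l [2, 8, 10, 1, 10, 10, 8, 4, 4, 7], .l [8, 11], .l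 [12, 3], .l [2, 8, 12, 3, 1, 1, 8, 4, 4, 7], .l [8, 13], .l [14, 5], .l [2, 8, 14, 5, 1, 1, 10, 4, 4, 5], .l [8, 15], .l [16, 7]]),
([p 3 1, s 0 2, g, s 2 0, g, p 0 3, p 5 0, g, m 0 4, g, p 4 5, g, s 1 0, g], .lo 1, [.r 2036 [1, 2, 6, 3, 4, 5] [1, 1, 1, 1, 1, 1, 1], .r 1862 [2, 6, 3] [1, 1, 1, 8], .l [2, 7, 4, 4, 11], .y [1, 3], .r 2037 [1, 2, 6, 3, 4, 5] [1, 1, 1, 1, 1, 1, 1], .r 1867 [2, 6, 3] [1, 1, 1, 7], .l [4, 7, 2, 2, 11], .r 1622 [1, 2, 3, 6, 5] [1, 1, 3, 1, 1], .l [1, 7, 11, 9, 3], .r 1847 [1, 2, 3, 6, 5] [1, 1, 1, 3, 1, 1], .l [0, 5, 4, 6, 10, 8, 9], .l [1, 9, 11, 7, 3], .l [6, 10, 4, 12, 10, 8, 8, 6, 7], .l [0, 5, 4, 8, 10, 6, 9], .l [9, 8, 11, 4, 2, 4, 1], .l [6, 12, 6, 12, 10, 1, 1, 6, 7], .l [14, 13, 10], .l [12,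 11, 10], .l [9, 8, 13, 6, 2, 6, 3], .l [7, 14, 7, 11, 10, 1, 1, 8, 5], .l [12, 11, 12]]),
([p 2 1, s 0 0, g, p 0 2, p 4 0, g, m 0 3, g, p 3 4, g, s 1 0, g], .hi 1, [.y [1], .r 2038 [1, 5, 2, 3, 4] [1, 1, 1, 1, 1, 1], .l [2, 5, 2, 2, 9], .r 854 [5, 2] [1, 1, 8], .l [2, 3, 0, 0, 7], .l [1, 5, 9, 7, 1], .l [0, 3, 2, 4, 8, 6, 7], .r 853 [5, 2] [1, 2, 7], .l [4, 6, 2, 8, 6, 4, 4, 2, 3], .l [1, 7, 9, 5, 1], .l [0, 3, 2, 6, 8, 4, 7], .l [4, 8, 4, 10, 8, 6, 6, 4, 5], .l [7, 6, 9, 4, 2, 4, 1], .l [12, 11, 8], .l [4, 10, 6, 10, 8, 1, 1, 4, 5], .l [7, 6, 11, 6, 2, 6, 3], .l [10, 9, 10], .l [5, 12, 7, 9, 8, 1, 1, 6, 3]]),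
([p 3 1, s 2 0, g, s 0 2, g, p 0 3, p 4 0, g, p 0 4, g, s 1 0, g], .lo 8, [.l [0, 5, 4, 6, 6, 4, 5], .l [3, 9, 9, 7, 3], .l [3, 9], .l [0, 11, 8, 6, 6, 4, 6], .l [5, 9, 9, 7, 1], .l [5, 9], .l [0, 11, 6, 4, 4, 2, 6], .y [6, 8], .r 1965 [3, 5, 4] [3, 1, 1, 3], .l [8, 9], .r 2039 [1, 3, 5, 4] [3, 1, 1, 1, 1], .r 1913 [1, 2, 3, 4, 5] [1, 1, 1, 1, 1, 1], .r 2035 [1, 2, 3, 4, 5] [1, 1, 1, 1, 1, 1], .r 1627 [3, 4, 5] [4, 1, 1, 3], .l [0, 9, 9, 7, 7, 5, 4], .l [0, 9, 11, 9, 9, 7, 4], .l [0, 9, 11, 9, 9, 7, 4], .r 1627 [3, 4, 5] [4, 1, 3, 1]]),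
([p 2 1, s 0 0, g, p 0 2, p 3 0, g, p 0 3, g, s 1 0, g], .lo 1, [.y [1], .r 2040 [1, 4, 2, 3] [1, 1, 1, 1, 1], .r 1868 [4, 2] [1, 1, 5], .l [2, 5, 2, 2, 7], .r 1625 [2, 4] [1, 5], .l [1, 5, 7, 5, 1], .r 1856 [1, 2, 4] [1, 1, 3, 1], .l [0, 3, 2, 4, 6, 4, 5], .r 1826 [1, 2, 3, 4] [1, 1, 1, 1, 1], .r 1856 [1, 2, 4] [1, 3, 1, 1], .l [10, 9, 6], .l [8, 7, 6], .r 1898 [1, 2, 4] [1, 3, 1, 1], .r 1907 [1, 2, 3, 4] [1, 1, 1, 1, 1], .l [8, 7, 8]]),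
([p 2 1, g, p 0 2, p 3 0, g, p 0 3, g, s 1 0, g], .top 1, [.r 334 [] [6], .r 2041 [1, 2, 3] [1, 1, 1, 1], .r 334 [] [8], .r 444 [] [8]]),
([p 2 1, g, p 0 2, p 0 0, g, s 1 0, g], .lo 3, [.l [2, 4, 1], .l [2, 4], .l [0, 6, 4, 2, 3], .y [3], .l [7, 6, 6, 4, 1], .r 2042 [1, 2, 3] [1, 1, 1, 1], .l [7, 6, 6, 4, 1], .l [0, 4, 4, 2, 1], .l [5, 4, 4, 2, 3], .l [0, 4, 6, 4, 1], .l [5, 4, 4, 2, 3]]),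
([p 1 0, s 0 0, p 0 1, p 0 0, g], .hi 0, [.c, .y [0, 2], .l [0, 2], .r 2043 [2, 1] [1, 1, 1], .l [0, 4], .l [5, 4]]),
([p 3 1, g, p 2 0, g, s 1 0, s 0 2, g, p 0 3, p 5 0, g, s 0 4, g, s 4 0, g, p 0 5, g], .hi 4, [.l [1, 14, 1, 14, 10, 7, 3, 6, 2, 3], .l [1, 9, 7, 3, 6, 2, 3], .l [6, 5, 1, 3, 6, 2, 3], .l [1, 14, 1, 14, 10, 7, 4, 1], .l [3, 9, 5, 1, 4, 2, 3], .l [1, 9, 7, 4, 1], .c, .l [1, 14, 1, 14, 10, 7, 2, 3], .l [1, 9, 7, 2, 3], .l [0, 3, 6, 2, 3], .y [0, 4, 7], .l [4, 9, 5, 7, 13, 9, 2], .l [0, 3, 3, 8, 14, 12, 5], .l [0, 3, 9, 5, 6], .l [4, 9, 5, 7, 11, 7, 2], .l [4, 11, 7, 9, 13, 7, 2], .l [0, 3, 3, 10, 14, 10, 5], .l [0, 3, 11, 7, 8], .l [4, 13, 9, 11, 13, 5, 2], .l [0, 3, 3, 12, 14, 8, 5], .l [0, 3, 13, 9, 10], .l [0,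 3, 3, 12, 12, 6, 5], .l [1, 12, 1, 12, 8, 5, 2, 9], .l [1, 7, 5, 2, 13], .l [0, 3, 15, 11, 12]]),
([p 0 1, s 4 2, g, p 3 0, g, s 0 3, s 1 0, g, p 0 4, g, s 2 0, g], .lo 5, [.l [1, 11, 6, 1, 4, 7, 4, 1], .l [0, 7, 3], .l [1, 11, 8, 3, 6, 7, 4, 1], .y [3, 5], .l [1, 11, 8, 3, 6, 7, 4, 1], .l [0, 7, 1], .l [1, 11, 8, 3, 6, 7, 4, 1], .c, .l [8, 2, 6, 9, 7, 1], .l [8, 2, 6], .l [0, 5, 6], .l [10, 4, 8, 5], .l [10, 4, 8], .l [0, 5, 8], .l [10, 4, 8, 5], .l [12, 6, 10, 7], .l [12, 6, 10], .l [0, 5, 10]]),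
([p 4 1, s 3 0, g, p 2 0, g, s 0 2, s 1 0, g, p 0 3, g, p 0 4, g], .hi 1, [.r 1053 [1, 5, 4] [1, 4, 3, 1], .l [2, 12, 9, 9, 3], .l [3, 1, 9, 7, 4], .r 1053 [1, 5, 4] [3, 2, 3, 1], .l [4, 12, 7, 7, 3], .l [5, 3, 9, 5, 2], .r 1053 [1, 5, 4] [3, 0, 3, 1], .r 926 [1, 5, 2, 4] [1, 1, 1, 3, 1], .l [6, 5, 6], .l [8, 6, 9, 2, 3], .y [1, 8], .r 2046 [1, 5, 2, 3] [1, 1, 1, 1, 3], .l [6, 5, 8], .l [8, 6, 9, 2, 3], .l [6, 5, 8], .r 2046 [1, 5, 2, 3] [1, 1, 1, 3, 1], .l [6, 5, 10], .l [8, 6, 11, 4, 5]])]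

def D07 : List (List (List Item × Qry × List Rf)) := [d07_0, d07_1, d07_2, d07_3]

end Pool.Agent.H63.PU.C161
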