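import Pool.Agent.H63.PU.Ck3

/-! Certificate data, machine generated. -/

namespace Pool.Agent.H63.PU.C161

open Pool.Agent.H63.PU Pool.Agent.H63.PU.Ck3 Pool.Agent.H63.PU.Short

set_option maxRecDepth 20000

def d08_0 : List (List Item × Qry × List Rf) := [
([p 4 1, s 3 0, g, s 2 0, g, s 0 2, s 1 0, g, p 0 3, g, p 0 4, g], .lo 5, [.r 1053 [1, 5, 4] [3, 0, 3, 1], .l [2, 12, 9, 3, 6, 7, 4, 1], .l [0, 7, 3], .l [2, 12, 9, 3, 6, 7, 4, 1], .y [3, 5], .l [2, 12, 9, 3, 6, 7, 4, 1], .l [0, 7, 1], .l [2, 12, 9, 3, 6, 7, 4, 1], .c, .l [2, 10, 8, 3, 4, 8, 6, 1], .l [8, 2, 6], .l [0, 5, 6], .l [10, 4, 8, 5], .l [3, 4, 9, 4, 6, 3], .l [0, 5, 8], .l [12, 6, 10, 7], .l [3, 4, 11, 6, 8, 5], .l [0, 5, 10]]),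
([p 3 1, s 2 0, g, s 0 0, s 1 0, g, p 0 2, g, p 0 3, g], .hi 3, [.r 2048 [1, 4, 2, 3] [1, 1, 1, 1, 1], .r 2047 [1, 4, 2, 3] [1, 1, 1, 1, 1], .l [0, 5, 1], .y [3], .r 896 [1, 4, 3] [1, 1, 3, 1], .l [0, 3, 4], .l [6, 2, 4], .l [0, 3, 4], .l [8, 4, 6, 3], .l [0, 3, 6], .l [8, 4, 6], .l [0, 3, 6], .l [10, 6, 8, 5], .l [0, 3, 8], .l [10, 6, 8]]),
([p 3 1, s 2 0, g, s 1 0, g, p 0 2, g, p 0 3, g], .bot 2, [.l [4, 2, 2], .r 2049 [1, 2, 3] [1, 1, 1, 1], .r 1681 [1, 2] [1, 1, 3], .r 1683 [1, 2] [1, 1, 3]]),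
([p 3 1, s 0 2, g, s 1 0, s 4 0, g, p 0 3, g, s 2 4, g], .lo 1, [.l [2, 8, 5, 5, 2, 5], .r 1556 [1, 5, 3] [1, 1, 2, 3], .l [2, 8, 5, 5, 2], .l [2, 6, 3, 3, 2], .y [1, 8, 4], .l [10, 8, 9, 2, 4, 2, 4, 1], .r 2050 [1, 5, 3] [1, 2, 1, 3], .l [3, 2, 4], .l [8, 6, 7, 2, 7, 5, 2, 3], .l [8, 6, 7, 2, 7, 5, 2, 3], .l [3, 2, 6], .l [3, 2, 8, 1, 6, 4, 2, 3], .l [8, 6, 9, 2, 6, 3], .l [3, 2, 8]]),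
([p 4 1, s 0 2, g, s 1 0, s 0 3, g, p 0 4, g, s 2 0, g, m 3 0, g], .lo 4, [.l [6, 2, 7, 1, 9, 4, 6, 3], .l [5, 4, 7, 2, 3], .l [12, 5, 8, 2, 8], .c, .l [5, 8, 2, 5, 2, 5], .l [6, 1, 11, 9, 2], .l [3, 2, 7, 4, 1], .l [8, 3, 7, 5, 9, 7, 2, 3], .l [8, 3, 7, 5, 9, 7, 2], .l [3, 2, 5, 2, 5], .r 2051 [1, 2, 4, 5] [1, 1, 1, 3], .l [10, 5, 9, 7, 9, 5, 2, 5], .l [10, 5, 9, 7, 9, 5, 2], .l [3, 2, 5, 2, 7], .y [4, 10], .l [10, 5, 9, 7, 9, 5, 2, 5], .l [10, 5, 9, 7, 9, 5, 2], .l [3, 2, 5, 2, 9]]),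
([p 4 1, s 0 2, g, s 1 0, s 0 3, g, p 0 4, g, m 3 0, g, s 2 0, g], .lo 4, [.l [6, 2, 7, 1, 7, 2, 4, 5], .l [5, 4, 7, 2, 3], .l [10, 3, 6, 2, 6], .c, .l [5, 8, 2, 5, 2, 7], .l [6, 1, 9, 7, 2], .l [3, 2, 7, 4, 1], .l [8, 3, 7, 5, 7, 5, 2, 5], .l [8, 3, 7, 5, 7, 5, 2], .l [3, 2, 5, 2, 5], .y [4, 8], .l [3, 2, 10, 1, 5, 1, 4, 1], .l [8, 3, 7, 5, 7, 5, 2], .l [3, 2, 5, 2, 7], .l [8, 3, 7, 5, 7, 5, 2, 3], .l [8, 3, 7, 5, 9, 7, 2, 3], .l [8, 3, 7, 5, 9, 7, 2], .l [3, 2, 5, 2, 9]]),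
([p 3 1, s 0 0, g, s 1 0, s 0 2, g, p 0 3, g, m 2 0, g], .hi 1, [.y [1], .r 1052 [1, 4, 3] [1, 1, 1, 3], .l [2, 8, 5, 5, 2], .r 578 [1, 4, 3] [1, 1, 2, 3], .r 989 [1, 4, 3] [1, 0, 1, 3], .r 989 [1, 4, 3] [1, 2, 1, 3], .l [3, 2, 4], .r 520 [1, 4, 3] [1, 2, 1, 3], .l [3, 2, 4], .r 2052 [1, 4, 2, 3] [1, 1, 1, 1, 1], .l [3, 2, 6], .r 852 [1, 4, 3] [1, 2, 1, 3], .r 2053 [1, 4, 2, 3] [1, 1, 1, 1, 1], .l [3, 2, 8], .r 852 [1, 4, 3] [1, 2, 3, 1]]),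
([p 3 1, g, s 1 0, s 0 2, g, p 0 3, g, m 2 0, g], .top 1, [.c, .r 2054 [1, 2, 3] [1, 1, 1, 1], .r 334 [] [8], .r 444 [] [8]]),
([p 4 1, s 0 2, g, s 1 0, s 0 3, g, m 3 0, g, p 0 4, g, s 2 0, g], .lo 4, [.l [6, 2, 11, 6, 8, 5], .l [5, 4, 9, 4, 5], .l [8, 1, 4, 2, 4], .c, .l [5, 10, 4, 7, 2, 7], .l [6, 1, 7, 5, 2], .l [3, 2, 9, 6, 1], .y [4, 6], .l [7, 10, 2, 5, 2, 7], .l [6, 1, 7, 5, 2], .l [3, 2, 9, 6, 3], .l [6, 1, 9, 7, 2, 7], .l [6, 1, 9, 7, 2], .l [3, 2, 7, 4, 7], .l [6, 1, 9, 7, 2, 5], .l [6, 1, 11, 9, 2, 5], .l [6, 1, 11, 9, 2], .l [3, 2, 7, 4, 9]]),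
([p 3 1, s 0 0, g, s 1 0, s 0 2, g, m 2 0, g, p 0 3, g], .hi 1, [.y [1], .r 1052 [1, 4, 3] [1, 1, 3, 1], .l [2, 10, 7, 7, 4], .r 578 [1, 4, 3] [1, 1, 4, 1], .r 989 [1, 4, 3] [1, 0, 3, 1], .r 989 [1, 4, 3] [1, 2, 3, 1], .l [3, 2, 4], .r 520 [1, 4, 3] [1, 2, 3, 1], .r 989 [1, 4, 3] [1, 4, 1, 1], .l [3, 2, 6], .r 520 [1, 4, 3] [1, 4, 1, 1], .l [3, 2, 6], .r 2056 [1, 4, 2, 3] [1, 1, 1, 1, 1], .l [3, 2, 8], .r 852 [1, 4, 3] [1, 4, 1, 1]]),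
([p 3 1, g, s 1 0, s 0 2, g, m 2 0, g, p 0 3, g], .top 1, [.c, .r 2057 [1, 2, 3] [1, 1, 1, 1], .r 334 [] [8], .r 444 [] [8]]),
([p 2 1, g, s 1 0, s 0 0, g, p 0 2, p 4 0, g, s 0 3, g, s 3 0, g, p 0 4, g], .hi 3, [.l [4, 3, 11, 1, 11, 7, 2, 3], .r 2045 [1, 5, 2, 3, 4] [1, 1, 1, 1, 1, 1, 1], .l [4, 3, 6, 2, 3], .y [3], .l [2, 1, 11, 1, 11, 7, 4, 1], .l [2, 1, 6, 4, 1], .r 2058 [1, 5, 2] [1, 1, 1, 8], .l [2, 1, 4, 2, 1], .l [3, 7, 13, 11, 1], .l [2, 1, 4, 2, 5], .r 2055 [1, 5, 2] [1, 1, 2, 7], .l [3, 7, 11, 9, 1], .l [3, 9, 13, 9, 1], .l [2, 1, 4, 2, 7], .l [2, 1, 11, 3, 11, 5, 2, 7], .l [3, 11, 13, 7, 1], .l [2, 1, 4, 2, 9], .r 2055 [1, 5, 2] [1, 1, 6, 3], .l [2, 1, 4, 2, 9], .l [2, 1, 9, 1, 9, 5, 2, 7], .l [2, 1, 4, 2,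 11], .r 2055 [1, 5, 2] [1, 1, 8, 1]]),
([p 2 1, s 5 0, g, s 1 0, p 0 0, g, p 0 2, p 4 0, s 0 3, g, s 3 0, g, p 0 4, g, s 0 5, g], .lo 4, [.l [3, 2, 2], .l [5, 4, 7, 2, 3], .l [3, 5], .l [2, 8, 5, 2], .c, .y [4], .l [3, 2, 7, 4, 1], .l [4, 12, 1, 13, 10, 3, 1, 5, 2, 8], .l [3, 2, 7, 4, 1], .l [9, 12, 9, 9, 6, 2, 7, 4, 6, 7], .l [3, 2, 5, 2, 7], .l [7, 10, 6, 2, 7, 4, 8, 10, 8, 9], .l [1, 15, 11, 5, 9, 6, 10], .l [3, 2, 5, 2, 7], .l [3, 2, 5, 2, 9], .l [9, 12, 6, 2, 7, 4, 7, 9, 8, 9], .l [1, 15, 11, 7, 9, 4, 10], .l [3, 2, 5, 2, 11], .l [7, 14, 10, 2, 13, 1, 5, 3, 8, 1], .l [3, 2, 5, 2, 11], .l [3, 2, 5, 2, 13], .l [7, 16, 12, 2, 13, 10, 1, 3, 10, 5], .l [3, 2, 5, 2, 13]]),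
([p 2 1, s 5 0, g, s 1 0, m 0 0, g, p 0 2, p 4 0, s 0 3, g, s 3 0, g, p 0 4, g, s 0 5, g], .hi 4, [.l [5, 4, 7, 2, 3], .l [2, 8, 5, 2], .l [3, 5], .y [4], .l [3, 2, 7, 4, 1], .l [3, 2, 7, 4, 1], .l [4, 12, 1, 13, 10, 3, 1, 5, 2, 8], .l [3, 2, 5, 2, 1], .l [3, 2, 5, 2, 5], .l [3, 2, 5, 2, 7], .l [1, 15, 11, 5, 9, 6, 10], .l [7, 10, 6, 2, 7, 4, 8, 10, 8, 9], .l [3, 2, 5, 2, 9], .l [1, 15, 11, 7, 9, 4, 10], .l [9, 12, 6, 2, 7, 4, 7, 9, 8, 9], .l [1, 13, 9, 7, 7, 2, 8], .l [3, 2, 5, 2, 11], .l [3, 2, 5, 2, 11], .l [7, 14, 10, 2, 13, 1, 5, 3, 8, 1], .l [3, 2, 5, 2, 11], .l [3, 2, 5, 2, 13], .l [3, 2, 5, 2, 13], .l [7, 16, 12, 2, 13, 10, 1, 3, 10, 5]]),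
([p 2 1, s 5 0, g, s 1 0, g, p 0 2, p 4 0, s 0 3, g, s 3 0, g, p 0 4, g, s 0 5, g], .top 4, [.r 1003 [1, 2] [2, 9], .r 2059 [1, 2, 3, 4] [2, 1, 0, 1, 1, 3], .r 2060 [1, 2, 3, 4, 5] [1, 1, 1, 1, 1, 1], .r 2061 [1, 2, 3, 4, 5] [1, 1, 1, 1, 1, 1]]),
([p 2 1, s 5 0, g, s 1 0, g, p 0 2, p 4 0, g, s 0 3, g, p 0 4, g, s 0 5, g, p 3 0, g], .hi 1, [.l [2, 10, 14, 1, 3, 1, 8, 4, 4, 1], .l [2, 7, 4, 4, 1], .r 578 [1, 6, 2] [1, 1, 1, 10], .l [1, 4, 9, 13, 1, 6, 1, 3, 6, 3], .l [3, 2, 3], .r 520 [1, 6, 2] [1, 1, 1, 10], .l [3, 2, 3], .l [1, 7, 11, 9, 3], .l [0, 5, 4, 6, 10, 8, 1], .l [3, 8, 5, 6, 10, 6, 1], .l [1, 7, 9, 7, 3], .l [1, 9, 11, 7, 3], .l [0, 5, 4, 8, 10, 6, 1], .l [3, 10, 7, 8, 10, 4, 1], .l [0, 5, 4, 8, 8, 4, 1], .l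 [12, 10, 6, 13, 8, 4, 5, 3, 6, 3], .l [3, 2, 10], .l [12, 10, 6, 13, 8, 4, 5, 3, 6, 3], .y [1, 12], .l [12, 10, 6, 13, 8, 4, 5, 3, 6, 3], .l [3, 2, 12], .r 852 [1, 6, 2] [1, 1, 8, 3], .l [8, 13, 8, 2, 12, 6, 10, 1, 6, 3], .l [3, 2, 14], .l [16, 14, 6, 10, 5, 11, 6, 10, 8, 5]]),
([p 1 0, g, p 2 0, g, s 5 0, p 4 1, p 3 2, g, p 0 3, g, p 0 4, g, m 0 5, g], .hi 0, [.l [6, 13, 3, 8, 1, 3, 7, 1, 5, 0, 1], .l [0, 1], .l [2, 1], .l [4, 3, 6, 2, 6, 1, 8, 4, 7], .l [0, 3], .l [4, 3], .l [0, 7, 9, 7, 4], .l [0, 7], .l [8, 7], .l [0, 7], .l [0, 9, 11, 6, 10], .l [0, 9], .l [10, 9], .y [0, 10, 5], .l [4, 13, 1, 9, 3, 8, 5, 1, 5, 0, 1], .l [0, 11], .l [12, 11], .l [12, 11], .r 2042 [6, 1, 3] [4, 1, 5, 1], .l [0, 13], .l [14, 13]]),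
([p 1 0, g, s 4 0, p 3 1, p 2 0, g, p 0 2, g, p 0 3, g, m 0 4, g], .hi 4, [.l [6, 3, 5, 2, 7, 4, 7], .r 2064 [1, 5, 2, 3, 4] [1, 1, 1, 1, 1, 1], .l [6, 3], .l [6, 1, 7, 5, 7, 6, 7], .l [4, 5], .l [6, 1], .y [4, 6], .l [8, 3, 3, 1, 8, 4, 7], .l [4, 7], .l [8, 3], .l [4, 7], .l [11, 1, 5, 6, 2, 6, 7, 2, 3], .l [4, 9], .l [10, 5], .l [10, 5], .l [2, 4, 11, 1, 5, 1, 7, 0, 3], .l [4, 11], .l [12, 7]]),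
([p 1 0, g, p 2 0, g, s 5 0, p 3 1, p 4 2, g, p 0 3, g, p 0 4, g, m 0 5, g], .hi 0, [.l [6, 13, 9, 1, 5, 1, 6, 3, 0, 2, 3], .l [0, 1], .l [2, 1], .l [4, 3, 6, 2, 6, 1, 6, 2, 7], .l [0, 3], .l [4, 3], .l [0, 7, 9, 6, 10], .l [0, 7], .l [8, 7], .y [0, 8, 5], .l [0, 9, 11, 7, 4], .l [0, 9], .l [10, 9], .l [0, 9], .r 2042 [6, 1, 4] [4, 3, 1, 3], .l [0, 11], .l [12, 11], .l [12, 11], .l [5, 8, 7, 10, 6, 10, 3, 7, 1, 6, 3], .l [0, 13], .l [14, 13]]),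
([p 1 0, g, s 4 0, p 2 1, p 3 0, g, p 0 2, g, p 0 3, g, m 0 4, g], .hi 4, [.l [6, 3, 5, 2, 5, 2, 7], .r 2066 [1, 5, 2, 3, 4] [1, 1, 1, 1, 1, 1], .l [6, 3], .l [6, 1, 7, 4, 8], .l [4, 5], .l [6, 1], .l [4, 5], .l [1, 8, 3, 4, 2, 7, 5, 2, 5], .l [4, 7], .l [8, 3], .y [4, 8], .l [3, 6, 5, 10, 1, 5, 1, 4, 1], .l [4, 9], .l [10, 5], .l [10, 5], .r 1588 [1, 5] [2, 7, 1], .l [4, 11], .l [12, 7]]),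
([p 1 0, g, s 3 0, p 2 1, p 0 0, g, p 0 2, g, m 0 3, g], .lo 4, [.l [0, 3], .l [1, 5, 3, 4, 6, 4, 5], .l [2, 5], .l [1, 5, 3, 4], .l [1, 3, 1, 6, 3, 4, 1], .y [4], .l [5, 8, 5, 5, 2, 4, 5], .r 2065 [1, 4, 2, 3] [1, 1, 1, 1, 1], .l [3, 8, 7, 7, 4, 1], .l [9, 7, 8, 6, 3], .r 2067 [1, 2, 4, 3] [1, 1, 1, 1, 1], .l [3, 6, 5, 5, 2, 5], .l [2, 7, 3, 8, 4, 0, 3], .l [2, 7, 9, 5, 0], .l [2, 7, 3, 8, 4, 0, 3]]),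
([p 2 1, g, s 1 0, g, s 7 0, p 3 2, p 4 3, g, p 5 4, g, p 6 5, g, p 0 6, g, m 0 7, g], .lo 12, [.l [1, 7, 5, 12, 12, 10, 10, 8, 8, 6, 6, 4, 5], .l [2, 13], .l [0, 3, 1, 11, 11, 9, 9, 7, 7, 5, 5, 4, 5], .y [0, 2, 12, 10, 8, 6, 5], .l [3, 7, 3, 12, 12, 10, 10, 8, 8, 6, 6, 2, 5], .l [4, 13], .l [3, 7, 3, 12], .l [3, 5, 1, 10, 10, 8, 8, 6, 6, 4, 4, 0, 3], .l [7, 10, 8, 8, 7, 12, 10, 1, 4, 2, 5, 5, 3], .l [8, 13], .l [7, 10, 8, 8, 7, 7, 2, 9], .l [9, 12, 10, 10, 8, 8, 7, 10, 8, 1, 4, 2, 3], .l [10, 13], .l [9, 12, 10, 10, 8, 8, 7, 7, 2, 7], .l [11, 14, 12, 12, 10, 10, 8, 8, 7, 8, 6, 1, 4, 2, 1], .l [12, 13], .l [11, 14, 12, 12, 10, 10, 8, 8, 7, 7, 2, 1], .l [11, 12, 10, 10, 8, 8, 6, 6, 5, 8, 6, 1, 2, 0, 1], .l [9, 1, 7, 9,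 1, 6, 8, 2, 4, 1, 6, 4, 4, 2, 3], .l [11, 12, 10, 10, 8, 8, 6, 6, 5, 5, 0, 5], .l [4, 13, 15, 13, 13, 11, 11, 9, 9, 7, 0], .l [4, 13, 15, 13, 13, 11, 11, 9, 9, 7, 0], .l [9, 10, 8, 8, 6, 6, 5, 8, 1, 8, 6, 0, 5]]),
([p 2 1, g, s 1 0, g, s 6 0, p 3 2, p 4 3, g, p 5 4, g, p 0 5, g, m 0 6, g], .lo 10, [.l [1, 7, 5, 10, 10, 8, 8, 6, 6, 4, 5], .l [2, 11], .l [0, 3, 1, 9, 9, 7, 7, 5, 5, 4, 5], .y [0, 2, 10, 8, 6, 5], .l [3, 7, 3, 10, 10, 8, 8, 6, 6, 2, 5], .l [4, 11], .l [3, 7, 3, 10], .l [3, 5, 1, 8, 8, 6, 6, 4, 4, 0, 3], .l [7, 10, 8, 8, 7, 10, 8, 1, 4, 2, 3, 3, 1], .l [8, 11], .l [7, 10, 8, 8, 7, 7, 2, 7], .l [9, 12, 10, 10, 8, 8, 7, 8, 6, 1, 4, 2, 1], .l [10, 11], .l [9, 12, 10, 10, 8, 8, 7, 7, 2, 1], .l [9, 10, 8, 8, 6,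 6, 5, 8, 6, 1, 2, 0, 1], .r 2069 [1, 2, 3, 4, 5, 7, 6] [1, 1, 1, 1, 1, 1, 1], .l [9, 10, 8, 8, 6, 6, 5, 5, 0, 5], .l [4, 11, 13, 11, 11, 9, 9, 7, 0], .l [4, 11, 13, 11, 11, 9, 9, 7, 0], .l [7, 8, 6, 6, 5, 8, 1, 8, 6, 0, 5]]),
([p 1 0, g, s 5 0, p 2 1, p 3 2, g, p 4 3, g, p 0 4, g, m 0 5, g], .hi 0, [.r 2070 [6, 1, 2, 3, 4, 5] [1, 1, 1, 1, 1, 1], .l [0, 1], .l [2, 1], .l [0, 5, 7, 5, 2], .l [0, 5], .l [6, 5], .l [0, 7, 9, 7, 7, 5, 2], .l [0, 7], .l [8, 7], .y [0, 8, 6, 4, 3], .r 2042 [6, 1, 3] [2, 1, 3, 3], .l [0, 9], .l [10, 9], .l [10, 9], .r 2042 [6, 1, 3] [2, 1, 5, 1], .l [0, 11], .l [12, 11]]),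
([p 1 0, g, s 5 0, p 2 1, p 3 2, g, p 0 0, p 4 3, g, s 0 4, g, m 0 5, g], .hi 6, [.l [8, 5, 7, 4, 4, 3, 6, 2, 7], .l [12, 8, 11, 9, 7, 4, 1], .l [8, 5], .l [8, 1, 8, 4, 4, 3, 8], .l [6, 9, 6, 6, 5, 10, 3, 4, 1], .l [8, 1], .y [6], .l [9, 2, 9], .l [6, 8], .l [9, 2], .l [9, 2, 1], .l [11, 4, 1], .l [6, 10], .l [11, 4], .l [11, 4], .l [13, 6, 1], .l [6, 12], .l [13, 6]]),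
([p 1 0, g, s 5 0, p 2 1, p 3 2, g, m 0 0, p 4 3, g, s 0 4, g, m 0 5, g], .lo 6, [.l [6, 5], .l [8, 5, 7, 4, 4, 3, 6, 2, 7], .l [8, 5], .l [12, 8, 11, 9, 7, 4, 1], .l [6, 3, 5, 4, 4, 3, 4, 0, 3], .l [8, 1, 8, 4, 4, 3, 8], .l [8, 1], .l [6, 9, 6, 6, 5, 10, 3, 4, 1], .y [6], .l [9, 2, 9], .l [9, 2], .l [6, 8], .l [11, 4, 1], .l [11, 4], .l [6, 10], .l [13, 6, 1], .l [13, 6], .l [6, 12]]),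
([p 2 1, g, s 1 0, g, s 6 0, p 3 2, p 4 3, g, s 0 0, p 5 4, g, s 0 5, g, m 0 6, g], .hi 8, [.l [2, 9, 10, 8, 4], .l [1, 7, 5, 8, 9, 7, 7, 5, 8], .l [2, 9, 10, 8, 4], .l [4, 9, 10, 8, 2], .l [3, 7, 3, 8, 9, 7, 7, 3, 8], .l [4, 9, 10, 8, 2], .l [10, 1, 10, 6, 6, 5, 10, 8, 1, 2, 0, 3], .l [9, 5, 13, 9, 4, 9, 3], .l [10, 1, 10, 6, 6, 5, 10], .y [8], .l [5, 6, 5, 13, 11, 1, 7, 2, 6, 2, 0, 3], .l [14, 3, 4, 8, 12, 10, 5], .l [11, 2, 11], .l [11, 2, 1], .l [8, 12, 6, 1, 2, 6, 3, 5, 1, 4, 2, 5], .l [8, 12, 6, 1, 2, 6, 3, 5, 1, 4, 2, 5], .l [13, 4, 1], .l [13, 4, 1], .l [5, 15, 6, 1, 10, 1, 2, 9, 3, 8, 0, 5], .l [5, 6, 5, 11, 4, 11, 6, 0, 7], .l [15, 6, 1]]),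
([p 1 0, g, s 5 0, p 2 1, p 3 2, g, s 0 0, p 4 3, g, s 0 4, g, m 0 5, g], .hi 0, [.r 2074 [6, 1, 2, 3, 4, 5] [1, 1, 1, 1, 1, 1], .l [0, 1], .l [2, 1], .l [0, 5, 8, 6, 2], .l [0, 5], .l [6, 5], .l [0, 5, 6, 4, 2], .l [0, 8, 10, 8, 8, 5, 2], .l [0, 8], .l [9, 8], .y [0, 9, 7, 4, 3], .r 2042 [6, 1, 3] [2, 2, 3, 3], .l [0, 10], .l [11, 10], .l [11, 10], .r 2042 [6, 1, 3] [2, 2, 5, 1], .l [0, 12], .l [13, 12]]),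
([p 1 0, g, s 5 0, p 2 1, p 3 2, g, p 4 3, g, s 0 4, g, m 0 5, g], .bot 5, [.l [8, 6, 7, 5, 5, 4, 1], .r 2075 [1, 2, 3, 4, 5] [1, 1, 1, 1, 1], .r 2072 [1, 2, 3, 4, 5] [1, 1, 1, 1, 1], .r 2073 [1, 2, 3, 4, 5] [1, 1, 1, 1, 1]]),
([p 1 0, g, s 4 0, p 2 1, p 3 2, g, p 0 3, g, m 0 4, g], .lo 6, [.y [0, 6, 4, 3], .l [1, 5, 3, 6, 6, 4, 4, 2, 3], .l [2, 7], .l [1, 5, 3, 6], .l [1, 3, 1, 4, 4, 2, 2, 0, 1], .l [7, 5, 8, 4, 2, 4, 1], .l [6, 7], .l [5, 8, 6, 6, 5, 5, 2, 1], .r 2076 [1, 2, 3, 5, 4] [1, 1, 1, 1, 1], .r 2071 [1, 2, 3, 5, 4] [1, 1, 1, 1, 1], .l [5, 6, 4, 4, 3, 3, 0, 3], .l [2, 7, 9, 7, 7, 5, 0], .l [2, 7, 9, 7, 7, 5, 0], .l [3, 4, 3, 6, 1, 6, 4, 0, 3]]),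
([p 1 0, g, s 3 0, p 2 1, p 0 2, g, m 0 3, g], .lo 4, [.y [0, 4, 3], .l [1, 5, 3, 4, 4, 2, 3], .l [2, 5], .l [1, 5, 3, 4], .l [1, 3, 1, 4, 1, 2, 1], .l [7, 5, 6, 4, 1], .r 2077 [1, 2, 4, 3] [1, 1, 1, 1], .l [3, 4, 3, 3, 0, 3], .l [2, 5, 1, 6, 4, 0, 3], .l [2, 5, 7, 5, 0], .l [2, 5, 1, 6, 4, 0, 3]]),
([p 2 1, s 0 0, g, s 1 0, g, s 3 0, g, p 0 2, p 4 3, g, p 0 4, g], .hi 1, [.y [1], .r 1053 [1, 5, 2] [1, 1, 3, 4], .l [2, 9, 6, 6, 3], .r 578 [1, 5, 2] [1, 1, 3, 4], .r 989 [1, 5, 2] [1, 1, 3, 4], .l [3, 2, 3], .r 520 [1, 5, 2] [1, 1, 3, 4], .r 989 [1, 5, 2] [1, 3, 1, 4], .l [3, 2, 5], .r 520 [1, 5, 2] [1, 3, 1, 4], .l [3, 2, 5], .l [1, 9, 11, 9, 5], .l [0, 7, 6, 8, 10, 8, 3], .l [3, 10, 7, 8, 10, 6, 3], .l [0, 7, 6, 8, 8,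 6, 3], .r 2007 [5, 2, 3, 4] [3, 1, 1, 1, 1], .l [3, 2, 10], .l [8, 2, 11, 4, 0, 8, 5]]),
([p 2 1, s 0 0, g, s 3 0, g, s 1 0, g, p 0 2, p 4 3, g, p 0 4, g], .hi 1, [.y [1], .r 1053 [1, 5, 2] [1, 3, 1, 4], .l [2, 9, 6, 6, 1], .r 578 [1, 5, 2] [1, 3, 1, 4], .r 1053 [1, 5, 2] [3, 1, 1, 4], .l [4, 9, 4, 4, 1], .r 578 [1, 5, 2] [3, 1, 1, 4], .r 989 [1, 5, 2] [3, 1, 1, 4], .l [5, 4, 5], .r 520 [1, 5, 2] [3, 1, 1, 4], .l [5, 4, 5], .l [1, 9, 11, 9, 5], .l [0, 7, 6, 8, 10, 8, 1], .l [5, 10, 5, 8, 10, 4, 1], .l [0, 7, 6, 8, 8, 6, 1], .r 2007 [5, 2, 3, 4] [1, 3, 1, 1, 1], .l [5, 4, 10], .l [8, 4, 11, 4, 0, 6, 3]]),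
([p 3 1, s 0 0, g, s 1 0, g, s 0 2, p 5 3, p 4 0, g, p 0 4, g, m 2 0, g, p 0 5, g], .hi 7, [.l [3, 7, 4, 5, 7, 5, 2], .l [9, 5, 12, 3, 13, 4, 8, 3, 8], .l [5, 4, 12, 5, 9, 7, 12, 3, 6, 2, 7], .l [9, 5], .l [9, 3, 12, 3, 13, 2, 8, 5, 8], .l [4, 13, 5, 0, 7, 5, 9, 2, 9, 6, 3], .l [9, 3], .l [7, 1, 10, 8, 4, 7, 1], .l [9, 1, 14, 11, 11, 5, 1, 9, 6], .l [7, 8], .l [9, 1], .y [7, 9], .r 1588 [3, 6] [5, 3, 5], .l [7, 10], .l [11, 3], .l [13, 5, 5, 3, 13, 7, 10], .l [7, 12], .l [13, 5], .l [7, 12], .l [11, 3, 13, 7, 8, 11, 1, 9, 1], .l [7, 14], .l [15, 7]]),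
([p 3 1, g, s 1 0, g, s 0 2, p 5 3, p 4 0, g, p 0 4, g, m 2 0, g, p 0 5, g], .top 1, [.c, .r 2081 [1, 2, 3, 4, 5] [1, 1, 1, 1, 1, 1], .r 334 [] [13], .r 444 [] [13]]),
([p 2 1, g, s 1 0, g, s 4 0, p 5 2, p 3 0, g, p 0 3, g, m 0 4, g, p 0 5, g], .hi 4, [.l [5, 7, 1, 10, 12, 2, 3], .l [5, 7, 1, 10, 12, 2, 3], .l [5, 1, 3, 5, 1, 8, 10, 2, 3], .l [5, 7, 1, 10, 12, 2, 5], .l [5, 7, 1, 10, 12, 2, 5], .l [2, 1, 7, 12, 10, 1, 5, 8, 5], .l [3, 5, 1, 10, 12, 2, 7], .l [3, 5, 1, 10, 12, 2, 7], .l [11, 7, 10, 8, 11, 2, 7], .l [3, 5, 1, 8, 10, 2, 7], .l [3, 5, 1, 10, 12, 2, 9], .l [3, 5, 1, 10, 12, 2, 9], .l [11, 7, 10, 8, 11, 2, 5], .y [4, 10], .l [3, 5, 1, 8, 12, 4, 1], .l [3, 5, 1, 8, 12, 4, 1], .r 2082 [1, 6, 2, 3, 5] [1, 1, 1,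 3, 1, 1], .l [3, 5, 1, 8, 10, 2, 1], .l [3, 5, 1, 8, 10, 2, 9], .l [3, 5, 1, 8, 10, 2, 9], .l [2, 1, 5, 12, 9, 3, 9, 6, 3, 4, 1]]),
([p 2 1, g, s 1 0, g, s 3 0, p 4 2, p 0 0, g, m 0 3, g, p 0 4, g], .lo 6, [.l [1, 7, 5, 6, 10, 8, 5], .l [2, 7], .l [0, 3, 1, 5, 9, 8, 5], .l [0, 1, 1, 3, 2], .l [3, 7, 3, 6, 10, 6, 3], .l [4, 7], .l [3, 7, 3, 6], .l [3, 5, 1, 6, 8, 2, 5], .y [6], .l [9, 5, 8, 6, 1], .r 2083 [1, 2, 5, 3, 4] [1, 1, 1, 1, 1, 1], .l [5, 12, 11, 11, 6, 1], .l [9, 12, 7, 7, 2, 6, 7], .l [4, 7, 9, 7, 0], .l [5, 12, 11, 11, 6, 3], .l [4, 7, 11, 9, 0], .l [4, 7, 11, 9, 0], .l [5, 10, 9, 9, 4, 9]]),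
([p 1 0, g, s 2 0, p 3 1, p 0 0, g, m 0 2, g, p 0 3, g], .hi 0, [.r 2084 [4, 1, 2, 3] [1, 1, 1, 1, 1], .l [0, 1], .l [2, 1], .l [0, 3], .l [0, 5, 9, 6, 3], .l [0, 5], .l [6, 5], .l [6, 5], .l [0, 7, 9, 4, 6], .l [0, 7], .l [8, 7], .y [0, 8, 3], .l [0, 9, 3, 5, 2], .l [0, 9], .l [10, 9]]),
([p 4 0, g, p 1 0, g, p 2 1, g, p 3 2, g, p 0 3, s 6 0, p 5 4, g, s 0 5, g, m 0 6, g], .hi 9, [.l [4, 12, 7, 1, 9, 11, 7, 10, 7, 1, 5, 6, 1], .l [10, 12, 1, 14, 11, 12, 1], .l [11, 8, 11, 0, 10], .l [3, 12, 8, 6, 6, 12, 3, 8, 8, 6, 6, 4, 1], .l [3, 12, 8, 6, 6, 12, 3, 8, 8, 6, 6, 4, 1], .l [11, 6, 8, 6, 6, 4, 4, 2, 8], .l [5, 8, 6, 10, 6, 4, 4, 10, 3, 6, 6, 4, 1], .l [5, 8, 6, 10, 6, 4, 4, 10, 3, 6, 6, 4, 1], .l [11, 4, 6, 4, 4, 2, 10],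 .l [7, 12, 4, 2, 8], .l [7, 12, 4, 2, 8], .l [8, 10, 7], .l [7, 10, 2, 0, 6], .l [2, 10, 7, 11, 4, 10, 8, 6, 6, 4, 4, 2, 5], .l [8, 10, 1, 14, 3, 12, 9], .l [12, 2, 12], .l [8, 10, 1, 10, 10, 0, 9], .l [2, 10, 7, 13, 6, 3, 1, 8, 8, 6, 6, 4, 5], .l [8, 10, 1, 14, 1, 12, 9], .l [14, 4, 1], .y [9, 14], .l [4, 6, 5, 9, 5, 1, 5, 7, 5, 8, 1, 6, 1], .l [8, 10, 1, 14, 1, 12, 9], .l [16, 6, 1]]),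
([p 3 0, g, p 1 0, g, p 2 1, g, p 0 2, s 6 0, p 5 3, p 4 0, g, p 0 4, g, s 0 5, g, m 0 6, g], .hi 2, [.l [4, 1, 9, 5, 7, 5, 5, 3, 10], .r 2086 [7, 1, 2, 3, 5, 6] [1, 1, 1, 1, 4, 1, 1], .l [4, 1], .l [4, 1, 10, 1, 12, 5, 10, 5, 7, 5, 5, 3, 6], .l [2, 3], .l [4, 1], .l [6, 3, 9, 3, 7, 5, 12], .l [2, 5], .l [6, 3], .y [2, 6, 4], .l [2, 10, 12, 10, 5], .l [2, 10], .l [11, 8], .l [2, 10], .l [13, 10, 10, 8, 8, 6, 11], .l [2, 12], .l [13, 10], .l [2, 12, 12, 7, 11], .l [15, 12, 12, 10, 10, 8, 11], .l [2, 14], .l [15, 12], .l [15, 12], .l [17, 14, 14, 12, 12, 10, 7], .l [2, 16], .l [17, 14]]),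
([p 3 0, g, p 1 0, g, p 2 1, g, p 0 2, s 5 0, p 0 3, p 4 0, g, p 0 4, g, m 0 5, g], .lo 8, [.y [0, 8], .l [1, 10, 8, 7, 12], .l [2, 9], .l [1, 10, 8, 7], .l [2, 7], .l [3, 6, 4, 8, 6, 5, 10], .l [4, 9], .l [3, 6, 4, 8, 6, 5], .l [5, 8, 6, 6, 4, 7, 5, 4, 9], .l [6, 9], .l [5, 8, 6, 6, 4, 7, 5, 4], .c, .l [4, 8, 3, 1, 6, 7, 3, 8, 3, 4, 1], .l [7, 8, 0, 9, 11, 9, 10], .l [4, 8, 3, 1, 6, 9, 5, 10, 3, 6, 3], .l [7, 14, 6, 2, 4, 2, 3], .r 2087 [1, 2, 3, 4, 6, 5] [1, 1, 1, 1, 1, 1, 1], .r 2065 [3, 4, 6, 5] [6, 1, 1, 1, 1], .l [7, 8, 0, 11], .l [14, 1, 5, 12, 11], .r 2085 [3, 5, 6] [6, 3, 1, 1], .l [7, 8, 0, 13]]),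
([p 3 0, g, p 2 1, g, s 1 0, g, p 0 2, s 6 0, p 5 3, p 4 0, g, p 0 4, g, s 0 5, g, m 0 6, g], .hi 9, [.l [9, 11, 3, 7, 1, 10, 6, 0, 8, 1, 4, 7], .l [1, 6, 1, 9, 5, 2, 6, 8, 6, 1, 8], .l [11, 8], .l [11, 6, 8, 4, 13], .l [6, 3, 9, 3, 9, 1, 3, 5, 10], .l [11, 6], .l [11, 4, 8, 6, 13], .l [8, 11, 8, 10, 6, 8, 1, 8, 4, 1, 8], .l [11, 4], .l [6, 9, 8, 8, 4, 6, 1, 6, 4, 1, 6], .l [4, 1, 5, 3, 9, 1, 9, 7, 4], .l [9, 10], .l [11, 1], .y [9, 11], .l [13, 3, 6, 11, 8, 1, 5, 7, 10], .l [9, 12], .l [13, 3], .l [2, 8, 5, 8, 10, 5, 8, 9, 7, 8, 6, 4, 1], .l [15, 5, 8, 13, 10, 3, 7, 9, 10], .l [9, 14], .l [15, 5], .l [15, 5], .l [17, 7, 10, 15, 12, 5, 9, 11, 4], .l [9, 16], .l [17, 7]]),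
([p 3 0, g, p 2 1, g, s 1 0, g, p 0 2, s 5 0, p 0 3, p 4 0, g, p 0 4, g, m 0 5, g], .lo 8, [.y [0, 8], .l [1, 10, 8, 7, 12], .l [2, 9], .l [1, 10, 8, 7], .l [3, 8, 6, 9, 7, 6, 11], .l [4, 9], .l [2, 5, 1, 7, 11], .l [2, 3, 3, 5, 9], .l [5, 8, 4, 9, 7, 6, 11], .l [6, 9], .l [5, 8, 4, 9, 7, 6], .c, .l [4, 1, 7, 3, 1, 4, 6, 4, 7], .l [7, 8, 0, 9, 11, 9, 10], .l [4, 1, 7, 3, 1, 4, 8, 6, 9], .l [7, 14, 6, 2, 4, 2, 3], .r 2089 [1, 2, 3, 4, 6, 5] [1, 1, 1, 1, 1, 1, 1], .l [4, 1, 7, 3, 1, 4, 10, 8, 9], .l [7, 8, 0, 11], .l [14, 1, 5, 12, 11], .l [4, 1, 7, 3, 1, 4, 12, 10, 7], .l [7, 8, 0, 13]]),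
([p 2 0, g, p 1 0, g, p 0 1, s 4 0, p 0 2, p 3 0, g, p 0 3, g, m 0 4, g], .hi 2, [.l [4, 1, 7, 3, 5, 3, 8], .r 2088 [5, 1, 2, 3, 4] [1, 1, 1, 1, 1, 1], .l [4, 1], .r 2090 [5, 1, 2, 3, 4] [1, 1, 1, 1, 1, 1], .l [2, 3], .l [4, 1], .y [2, 4], .l [2, 5], .l [2, 8, 10, 8, 3], .l [2, 8], .l [9, 6], .l [2, 8], .l [11, 8, 8, 6, 9], .l [2, 10], .l [11, 8], .l [11, 8], .l [13, 10, 10, 8, 5], .l [2, 12], .l [13, 10]]),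
([p 2 0, g, p 1 0, g, p 0 1, s 3 0, p 0 2, p 0 0, g, m 0 3, g], .lo 7, [.l [0, 6], .l [2, 8, 5], .l [2, 8], .l [1, 8, 6, 7], .l [2, 6], .l [3, 8, 4, 7, 1, 3, 6], .l [4, 8], .l [3, 6, 4, 7, 5, 6], .l [5, 6, 0], .y [7], .l [10, 5, 10, 8, 1], .r 2091 [1, 2, 4, 3] [1, 1, 1, 1, 1], .l [10, 5, 10, 8, 1], .l [5, 8, 10, 8, 0], .l [5, 8, 10, 8, 0], .l [8, 3, 8, 6, 8]]),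
([p 1 0, g, p 0 0, s 2 0, p 0 1, p 0 0, g, m 0 2, g], .hi 2, [.l [4, 1, 5, 1, 6], .r 2092 [3, 1, 2] [1, 1, 1, 1], .l [4, 1], .y [2], .l [2, 3], .l [2, 4], .l [7, 4, 7], .l [2, 6], .l [7, 4], .l [7, 4], .l [9, 6, 3], .l [2, 8], .l [9, 6]]),
([p 3 0, g, p 1 0, g, s 0 1, s 5 2, p 4 3, g, s 0 4, g, m 0 5, g, s 2 0, g], .lo 4, [.l [1, 6, 4, 1, 3, 1, 4], .l [6, 3, 7, 1, 10, 1, 8, 5], .l [3, 8, 4, 1, 5, 3, 6], .l [5, 8, 2, 5, 1, 3, 6], .y [2, 4], .l [5, 8, 2, 5, 1, 3, 8, 1, 6, 3], .l [6, 1, 7, 1, 8], .l [5, 8, 2, 5, 1, 3, 6], .l [3, 6, 2, 5, 1, 3, 8, 1, 6, 3], .l [1, 6, 4, 1, 5, 3, 6], .l [3, 6, 2, 5, 1, 3, 6], .l [3, 6, 2, 7, 3, 5, 8, 1, 6, 1], .l [1, 6, 4, 1, 7, 5, 6], .l [3, 6, 2, 7, 3, 5, 6], .l [12, 7, 12, 7, 10, 1], .l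 [1, 6, 4, 1, 9, 7, 4], .l [3, 6, 2, 9, 1, 6, 3, 1, 4, 5], .l [12, 7, 6, 1, 4, 1], .l [14, 9, 6, 1, 4, 1], .l [1, 6, 4, 1, 11, 9, 4], .l [3, 6, 2, 11, 3, 8, 3, 1, 6, 1]]),
([p 2 0, g, s 0 0, s 6 1, p 5 2, p 3 0, g, p 4 3, g, s 0 4, g, s 0 5, g, m 0 6, g, s 1 0, g], .hi 2, [.l [4, 1, 5, 1, 14, 1, 12, 9], .r 2094 [7, 1, 2, 5, 6] [1, 1, 6, 1, 1, 1], .l [4, 1, 5, 1, 12], .y [2], .l [2, 6, 8, 6, 1], .l [2, 6, 8, 6, 1], .l [7, 4, 13], .l [9, 6, 15, 1, 13, 10], .l [2, 8, 1, 8, 5, 1, 12, 1, 10, 7], .l [9, 6, 13], .l [2, 8, 8, 6, 6, 4, 1], .l [11, 8, 15, 1, 13, 10], .l [12, 1, 8, 14, 1, 12, 9, 8], .l [11, 8, 13], .l [11, 8, 13, 1, 11, 6], .l [13, 10, 15, 1, 13, 6], .l [6, 11, 8, 14, 1, 12, 9, 1, 5, 3, 4, 1], .l [13, 10, 13], .l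 [13, 10, 9], .l [15, 12, 15, 5, 13, 6], .l [2, 14, 7, 1, 8, 4, 6, 2, 6, 1], .l [15, 12, 9], .l [17, 14, 11, 1, 9, 6], .l [6, 11, 8, 12, 1, 10, 11, 3, 7, 3, 6, 3], .l [17, 14, 9]]),
([p 3 0, g, m 2 1, g, s 0 2, g, m 1 0, g, s 6 0, p 0 3, p 4 0, g, p 5 4, g, p 0 5, g, m 0 6, g], .lo 9, [.y [0, 9], .l [1, 11, 9, 8, 15], .l [2, 10], .l [1, 11, 9, 8], .l [3, 8, 6, 9, 7, 6, 13], .l [4, 10], .l [2, 5, 1, 8, 14], .l [5, 8, 4, 9, 7, 6, 13], .l [6, 10], .l [5, 8, 4, 9, 7, 6], .l [5, 6, 2, 7, 5, 4], .l [7, 11, 3, 2, 15], .l [8, 10], .l [4, 1, 10, 6, 1, 6, 4, 2, 11], .c, .l [4, 1, 8, 4, 1, 4, 6, 4, 9], .l [8, 9, 0, 10, 12, 10, 13], .l [4, 1, 8, 4, 1, 4, 8, 6, 11], .l [8, 17, 8, 2, 4, 2, 5], .l [8, 9, 0, 12, 14, 12, 12, 10, 11], .l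 [4, 1, 8, 4, 1, 4, 10, 8, 11], .l [8, 17, 8, 4, 6, 4, 4, 2, 3], .l [4, 1, 5, 3, 9, 12, 8, 12, 1, 4, 6, 4, 1], .l [4, 1, 8, 4, 1, 4, 12, 10, 11], .l [8, 9, 0, 14], .l [17, 1, 7, 15, 14], .l [4, 1, 8, 4, 1, 4, 14, 12, 9], .l [8, 9, 0, 16]]),
([p 5 0, g, m 0 1, g, m 1 2, g, m 2 3, g, m 3 4, g, m 4 0, s 8 0, p 0 5, p 6 0, g, p 7 6, g, p 0 7, g, m 0 8, g], .lo 2, [.l [2, 1], .l [4, 1, 13, 9, 11, 9, 9, 7, 7, 5, 5, 3, 10], .l [4, 1], .l [17, 4, 20, 11, 12, 11, 11, 9, 9, 7, 10, 4, 1, 6, 1, 7, 4, 1], .l [17, 8, 9, 7, 7, 5, 16, 7, 1, 10, 4, 1, 6, 1, 7, 4, 1], .l [4, 1], .l [2, 3], .l [6, 3, 13, 7, 11, 9, 9, 7, 7, 5, 12], .l [6, 3], .l [2, 5], .l [8, 5, 5, 3, 11, 5, 9, 7, 7, 5, 12], .l [8, 5], .l [2, 7], .l [10, 7, 7, 5, 5, 3, 9,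 3, 7, 5, 12], .l [10, 7], .l [2, 9], .y [2, 4, 6, 8, 10], .l [11, 8, 8, 6, 6, 4, 4, 2, 2, 0, 9], .l [13, 10], .l [2, 14, 16, 14, 9], .l [15, 12], .l [2, 14], .l [2, 16, 18, 16, 16, 14, 9], .l [17, 14], .l [2, 16], .l [19, 16, 16, 14, 14, 12, 12, 10, 10, 8, 11], .l [19, 16], .l [2, 18], .l [21, 18, 18, 16, 16, 14, 14, 12, 12, 10, 7], .l [21, 18], .l [2, 20]]),
([p 4 0, g, m 0 1, g, m 1 2, g, m 2 3, g, m 3 0, s 7 0, p 0 4, p 5 0, g, p 6 5, g, p 0 6, g, m 0 7, g], .lo 2, [.l [2, 1], .l [4, 1, 11, 7, 9, 7, 7, 5, 5, 3, 10], .l [4, 1], .r 2097 [8, 1, 2, 3, 4, 5, 6, 7] [1, 1, 1, 1, 1, 1, 1, 1, 1], .l [15, 6, 7, 5, 16, 7, 1, 10, 4, 1, 6, 1, 7, 4, 1], .l [4, 1], .l [2, 3], .l [6, 3, 11, 5, 9, 7, 7, 5, 12], .l [6, 3], .l [2, 5],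 .l [8, 5, 5, 3, 9, 3, 7, 5, 12], .l [8, 5], .l [2, 7], .y [2, 4, 6, 8], .l [9, 6, 6, 4, 4, 2, 2, 0, 9], .l [11, 8], .l [2, 12, 14, 12, 7], .l [13, 10], .l [2, 12], .l [2, 14, 16, 14, 14, 12, 7], .l [15, 12], .l [2, 14], .l [17, 14, 14, 12, 12, 10, 10, 8, 11], .l [17, 14], .l [2, 16], .l [19, 16, 16, 14, 14, 12, 12, 10, 7], .l [19, 16], .l [2, 18]]),
([p 3 0, g, m 0 1, g, m 1 2, g, m 2 0, s 6 0, p 0 3, p 4 0, g, p 5 4, g, p 0 5, g, m 0 6, g], .lo 2, [.l [2, 1], .l [4, 1, 9, 5, 7, 5, 5, 3, 10], .l [4, 1], .r 2098 [7, 1, 2, 3, 4, 5, 6] [1, 1, 1, 1, 1, 1, 1, 1], .l [13, 4, 16, 7, 1, 10, 4, 1, 6, 1, 7, 4, 1], .l [4, 1], .l [2, 3], .l [6, 3, 9, 3, 7, 5, 12], .l [6, 3], .l [2, 5], .y [2, 4, 6], .l [7, 4, 4, 2, 2, 0, 9], .l [9,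 6], .l [2, 10, 12, 10, 5], .l [11, 8], .l [2, 10], .l [2, 12, 14, 12, 12, 10, 5], .l [13, 10], .l [2, 12], .l [15, 12, 12, 10, 10, 8, 11], .l [15, 12], .l [2, 14], .l [17, 14, 14, 12, 12, 10, 7], .l [17, 14], .l [2, 16]]),
([p 2 0, g, m 0 1, g, m 1 0, s 5 0, p 0 2, p 3 0, g, p 4 3, g, p 0 4, g, m 0 5, g], .lo 2, [.l [2, 1], .l [4, 1, 7, 3, 5, 3, 10], .l [4, 1], .r 2099 [6, 1, 2, 3, 4, 5] [1, 1, 1, 1, 1, 1, 1], .r 2096 [1, 6, 2, 3, 4, 5] [1, 1, 1, 0, 1, 1, 1, 1], .l [4, 1], .l [2, 3], .y [2, 4], .l [2, 4, 3], .l [7, 4], .l [2, 8, 10, 8, 3], .l [9, 6], .l [2, 8], .l [2, 10, 12, 10, 10, 8, 3], .l [11, 8], .l [2, 10], .l [13, 10, 10, 8, 11], .l [13, 10], .l [2, 12], .l [15, 12, 12, 10, 7], .l [15, 12], .l [2, 14]]),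
([p 2 0, g, m 0 1, g, m 1 0, s 5 0, p 0 2, p 3 0, g, p 4 3, g, s 0 4, g, m 0 5, g], .hi 4, [.l [14, 8, 10, 5, 1, 3, 6, 8, 6, 1], .l [1, 8, 6, 3], .l [2, 5], .y [2, 4], .l [5, 8, 2, 5, 1, 3, 10], .l [3, 6, 4, 7, 5, 1], .l [4, 5], .l [3, 4, 2, 5, 3, 2], .l [3, 6, 2, 7, 3, 5, 10], .l [3, 4, 2, 5, 3, 6], .l [10, 11, 7, 9, 6, 8, 4, 7, 1, 3, 6], .l [3, 6, 2, 9, 5, 7, 10], .l [3, 4, 2, 5, 3, 8], .l [8, 9, 7, 9, 6, 8, 4, 7, 1, 3, 6], .l [3, 6, 2, 9, 5, 7, 8], .l [3, 6, 2, 11, 7, 9, 10], .l [3, 4, 2, 5, 3, 10], .l [10, 13, 6, 8, 4, 9, 3, 5, 8], .l [12, 13, 4, 6, 2, 0, 2], .l [12, 15, 6, 8, 4, 2, 4], .l [3, 4, 2, 5, 3, 12], .l [12, 15, 6, 8, 4, 2, 4]]),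
([p 2 0, g, m 0 1, g, m 1 0, s 4 0, p 0 2, p 3 0, g, p 0 3, g, m 0 4, g], .lo 9, [.l [0, 8], .l [2, 10, 10, 8, 5], .l [2, 10], .l [1, 8, 6, 9], .l [3, 8, 4, 9, 3, 5, 8], .l [4, 10], .l [3, 6, 4, 7, 5, 8], .l [3, 4, 2, 5, 3, 6], .l [5, 8, 8, 6, 0], .y [7, 9], .l [10, 5, 12, 8, 6, 8, 1], .l [9, 10], .l [10, 5, 12, 8, 6, 8, 1], .r 2101 [1, 2, 3, 5, 4] [1, 1, 1, 1, 1, 1], .r 2100 [1, 2, 3, 5, 4] [1, 1, 1, 1, 1, 1], .r 1627 [2, 3, 5] [5, 1, 1, 3], .l [5, 10, 12, 10, 10, 8, 0], .l [5, 10, 12, 10, 10, 8, 0], .r 1627 [2, 3, 5] [5, 1, 3, 1]]),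
([p 1 0, g, m 0 0, s 3 0, p 0 1, p 2 0, g, p 0 2, g, m 0 3, g], .lo 2, [.l [2, 1], .l [4, 1, 5, 1, 8], .l [4, 1], .r 2102 [4, 1, 2, 3] [1, 1, 1, 1, 1], .y [2], .c, .l [5, 2], .l [2, 6, 8, 6, 1], .l [7, 4], .l [2, 6], .l [9, 6, 9], .l [9, 6], .l [2, 8], .l [11, 8, 5], .l [11, 8], .l [2, 10]]),
([p 2 0, g, s 6 1, p 5 2, p 3 0, g, p 4 3, g, s 0 4, g, s 0 5, g, m 0 6, g, s 1 0, g], .bot 1, [.r 2044 [2] [11], .r 2095 [1, 2, 3, 4, 5, 6] [1, 1, 1, 1, 1, 1, 1], .r 2093 [2, 6] [1, 7, 3], .r 2103 [2, 3, 6] [1, 1, 5, 3]]),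
([p 2 0, g, s 3 0, g, s 0 0, s 5 1, p 4 2, g, p 0 3, g, s 0 4, g, m 0 5, g, s 1 0, g], .hi 4, [.l [6, 3, 7, 1, 12, 1, 10, 7], .l [10, 5, 7, 5, 12, 1, 10, 7], .l [6, 3, 7, 1, 10], .l [6, 1, 7, 1, 12, 1, 10, 7], .r 2094 [6, 1, 2, 4, 5] [3, 1, 3, 1, 1, 1], .l [6, 1, 7, 1, 10], .y [4], .l [8, 3, 14, 1, 12, 9], .l [4, 7, 9, 3, 7, 1, 10, 1, 8, 5], .l [8, 3, 12], .l [4, 7, 7, 1, 5, 1, 8, 1, 6, 3], .l [10, 5, 14, 1, 12, 9], .l [8, 5, 7, 3, 9, 5, 10, 1, 8, 1], .l [10, 5, 12], .l [10, 5, 12, 1, 10, 3], .l [12, 7, 14, 1, 12, 3], .l [8, 5, 7, 3, 7, 3, 10, 1, 8, 5], .l [12, 7, 12], .l [12, 7, 6], .l [14, 9, 14, 7, 12, 3], .l [15, 1, 9, 13, 11, 1, 7, 3, 8, 3], .l [14, 9, 6], .l [16, 11, 8, 1, 6, 3], .l [8, 5, 7, 3, 7, 3, 8, 1, 6, 7],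 .l [16, 11, 6]]),
([p 1 0, g, m 0 0, s 2 0, p 0 1, p 0 0, g, m 0 2, g], .lo 5, [.l [0, 4], .l [2, 6, 3], .l [2, 6], .l [1, 6, 4, 5], .l [1, 4, 2, 3], .l [3, 4, 0], .y [5], .l [8, 5, 8, 6, 1], .r 2103 [1, 3, 2] [1, 1, 1, 1], .l [8, 5, 8, 6, 1], .l [3, 6, 8, 6, 0], .l [3, 6, 8, 6, 0], .l [6, 3, 6, 4, 6]]),
([p 2 0, g, s 3 0, g, s 5 1, p 4 2, p 0 3, g, s 0 4, g, m 0 5, g, s 1 0, g], .bot 3, [.l [5, 2, 7], .r 2105 [1, 2, 3, 4, 5] [1, 1, 0, 1, 1, 1, 1], .r 2093 [2, 5] [3, 3, 3], .r 2106 [2, 5] [3, 3, 3]]),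
([p 2 0, g, s 6 1, p 5 2, p 3 0, g, p 4 3, g, p 0 4, g, s 0 5, g, m 0 6, g, s 1 0, g], .hi 4, [.r 2107 [1, 2, 7, 5, 6] [1, 1, 5, 1, 1, 1], .l [3, 6, 4, 6, 7, 6, 6, 4, 1, 8, 1, 6, 3], .l [6, 3], .l [1, 6, 1, 6, 4, 1, 8], .l [4, 5], .l [6, 1], .l [11, 3, 5, 6, 9, 8, 3], .l [4, 7], .l [8, 3], .y [4, 8, 6], .l [11, 1, 5, 6, 9, 8, 3], .l [4, 9], .l [10, 5], .l [9, 7, 12, 1, 10, 7, 6, 6, 5, 5, 3, 3, 1], .l [13, 1, 7, 9, 10, 8, 5], .l [4, 11], .l [12, 7], .l [12, 7], .l [14, 9, 15, 3, 7, 3, 6, 1, 4, 7], .l [4, 13], .l [14, 9], .r 1588 [2, 7] [2, 11, 1], .l [4, 15], .l [16, 11]]),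
([p 2 0, g, s 5 1, p 4 2, p 3 0, g, p 0 3, g, s 0 4, g, m 0 5, g, s 1 0, g], .lo 6, [.l [0, 5], .l [2, 7, 7, 5, 2], .l [2, 7], .l [1, 5, 3, 6], .y [4, 6], .l [7, 4, 9, 6, 4, 6, 1], .l [6, 7], .l [4, 10, 8, 10, 6, 1, 1, 2, 3], .r 2104 [1, 2, 3, 6, 4, 5] [1, 1, 1, 1, 1, 1, 1], .r 2108 [1, 2, 3, 6, 4, 5] [1, 1, 1, 1, 1, 1, 1], .l [2, 11, 5, 1, 6, 2, 4, 2, 3], .l [14, 11, 4, 1, 4, 10, 8, 1], .l [2, 3, 0, 6, 8, 6, 6, 4, 5], .l [14, 11, 4, 1, 4, 10, 8, 1], .l [2, 9, 11, 7, 7, 5, 0], .l [2, 9, 11, 7, 7, 5, 0], .l [2, 9, 3, 9, 4, 0, 5], .l [2, 11, 11, 5, 5, 3, 0], .l [2, 9, 13, 9, 9, 7, 0], .l [2, 9, 13, 9, 9, 7, 0], .l [2, 9, 3, 11, 6, 0, 7]]),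
([p 2 0, g, s 6 1, p 5 2, p 3 0, g, p 4 3, g, p 0 4, g, s 0 5, g, s 1 0, g, m 0 6, g], .lo 8, [.l [0, 7], .l [2, 9, 9, 7, 7, 5, 2], .l [2, 9], .l [1, 5, 3, 8], .y [4, 8, 6], .l [14, 11, 8, 10, 12, 7, 3, 5, 6, 1], .l [6, 9], .l [14, 11, 8, 5, 3, 3, 1, 6, 8, 5, 1, 3, 3], .l [14, 11, 8, 3, 1, 8, 10, 5, 1, 3, 4, 1], .l [8, 9], .l [14, 11, 8, 3, 1, 8, 10, 5, 1, 3, 4, 1], .l [7, 14, 8, 2, 10, 5, 2, 9, 4, 2, 4, 1], .l [14, 11, 8, 3, 4, 3, 8, 10, 5, 1, 3, 4, 1], .l [2, 15, 7, 1, 10, 6, 8, 4, 4, 2, 5], .l [1, 14, 11, 6, 8, 6, 6, 4, 4, 2, 4, 5], .l [2, 3, 0, 8, 10, 8, 8, 6, 6, 4, 7], .l [7, 8, 6, 8, 5, 11, 5, 7, 1, 6, 1], .l [2, 11, 11, 7, 7, 5, 5, 3, 0], .l [2, 11, 13, 9, 9, 7, 7, 5, 0, 5], .l [2, 11, 13, 9, 9, 7, 7, 5, 0], .l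 [1, 3, 1, 14, 3, 12, 7, 9, 7, 7, 5, 5, 3], .l [2, 13, 15, 9, 9, 7, 7, 5, 0], .l [2, 13, 15, 9, 9, 7, 7, 5, 0], .l [2, 13, 5, 13, 4, 0, 9]]),
([p 2 0, g, s 5 1, p 4 2, p 3 0, g, p 0 3, g, s 0 4, g, s 1 0, g, m 0 5, g], .lo 6, [.l [0, 5], .l [2, 7, 7, 5, 2], .l [2, 7], .l [1, 5, 3, 6], .y [4, 6], .l [7, 4, 9, 6, 4, 6, 1], .l [6, 7], .l [4, 10, 8, 12, 8, 1, 1, 2, 5], .l [12, 9, 6, 8, 10, 5, 1, 3, 4, 1], .r 2110 [1, 2, 3, 6, 4, 5] [1, 1, 1, 1, 1, 1, 1], .l [12, 9, 6, 8, 10, 5, 1, 3, 4, 1], .l [12, 9, 4, 1, 4, 8, 6, 1], .l [2, 3, 0, 6, 8, 6, 6, 4, 7], .l [12, 9, 4, 1, 4, 8, 6, 1], .l [2, 9, 9, 5, 5, 3, 0], .l [2, 9, 11, 7, 7, 5, 0, 5], .l [2, 9, 11, 7, 7, 5, 0], .l [5, 8, 5, 11, 5, 7, 1, 6, 3], .l [2, 11, 13, 7, 7, 5, 0],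 .l [2, 11, 13, 7, 7, 5, 0], .l [2, 11, 5, 11, 4, 0, 7]])]

def d08_1 : List (List Item × Qry × List Rf) := [
([p 3 0, g, s 2 0, g, p 1 0, g, s 0 1, s 5 2, p 4 3, g, s 0 4, g, m 0 5, g], .lo 6, [.l [3, 8, 4, 1, 3, 1, 6], .l [3, 10, 6, 4, 6, 8, 6, 7], .l [5, 10, 4, 1, 5, 3, 8], .l [7, 10, 2, 7, 3, 5, 8], .l [6, 3, 7, 1, 8, 5, 6, 1], .l [8, 3, 9, 1, 10, 7, 8, 1], .l [5, 10, 4, 1, 7, 5, 8], .l [7, 10, 2, 7, 1, 5, 8], .y [4, 6], .l [7, 10, 2, 7, 1, 5, 8, 5, 6, 1], .l [8, 1, 9, 1, 10], .l [7, 10, 2, 7, 1, 5, 8], .l [1, 8, 6, 4, 6, 8, 6, 7], .l [3, 8, 4, 1, 7, 5, 8], .l [5, 8, 2, 7, 1, 5, 8], .l [5, 8, 2, 9, 3, 7, 8, 5, 6, 3], .l [3, 8, 4, 1, 9, 7, 8], .l [5, 8, 2, 9, 3, 7, 8], .l [1, 8, 6, 4, 10, 1, 4, 1], .l [3, 8, 4, 1, 11,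 9, 6], .l [1, 8, 6, 4, 10, 1, 4, 1]]),
([p 2 0, g, s 1 0, g, s 0 0, s 4 1, p 3 2, g, s 0 3, g, m 0 4, g], .hi 4, [.l [3, 8, 4, 2, 4, 6, 4, 5], .l [3, 8, 4, 2, 4, 6, 4, 5], .l [6, 3, 7, 1, 8], .l [6, 1, 7, 1, 8, 5, 6, 1], .r 2112 [5, 1, 2, 3, 4] [1, 1, 1, 1, 1, 1], .l [6, 1, 7, 1, 8], .y [4], .l [1, 6, 4, 2, 4, 6, 4, 5], .l [1, 6, 4, 2, 4, 6, 4, 5], .l [8, 3, 10], .l [1, 6, 4, 2, 4, 4, 2, 3], .l [5, 2, 5, 0, 4, 6, 4, 5], .l [11, 1, 5, 9, 7], .l [10, 5, 10], .l [10, 5, 4], .l [1, 6, 4, 2, 8, 1, 4, 1], .l [1, 6, 4, 2, 8, 1, 4, 1], .l [12, 7, 4]]),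
([p 2 0, g, s 1 0, g, s 4 1, p 3 2, p 0 0, g, s 0 3, g, m 0 4, g], .bot 3, [.c, .r 2113 [1, 2, 3, 4] [1, 1, 2, 1, 1], .r 2093 [2, 4] [3, 3, 1], .r 2106 [2, 4] [3, 3, 1]]),
([p 2 0, g, s 3 0, g, s 7 1, p 6 2, p 4 3, g, p 5 4, g, p 0 5, g, s 1 0, g, s 0 6, g, m 0 7, g], .lo 16, [.l [16, 15], .l [8, 3, 17, 11, 1, 12, 9], .l [18, 15], .l [8, 3, 17, 11, 1, 12, 9], .l [6, 3, 15, 11, 1, 10, 7], .l [6, 13, 17, 5, 11, 3, 9, 3, 9, 3, 0, 5], .l [18, 13], .l [14, 7, 14, 9, 15, 10, 5, 12, 3, 1, 8, 4, 7], .l [4, 17, 17, 7, 9, 7, 0], .l [18, 9], .l [4, 17, 17, 7, 9, 7, 0], .l [4, 17, 17, 9, 11, 9, 9, 7, 0], .l [18, 7], .l [4, 17, 17, 9, 11, 9, 9, 7, 0], .l [14, 9, 14, 3, 11, 14, 8, 1, 6, 4, 2, 7], .l [18, 5], .l [3, 8, 9, 8, 8, 6, 1,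 12, 3, 10, 7, 9, 7], .y [4, 12, 16], .l [13, 1, 7, 13, 4, 10, 13, 5, 2, 9], .l [18, 3], .l [12, 7, 14, 9, 2, 14, 14, 7, 9, 3, 7, 8, 3], .l [12, 7, 12, 3, 9, 14, 1, 6, 2, 9], .l [18, 1], .l [3, 8, 9, 8, 8, 6, 1, 12, 12, 10, 3, 8, 5], .l [12, 7, 12, 3, 9, 14, 1, 6, 2, 9], .l [18, 1], .l [16, 17]]),
([p 2 0, g, s 6 1, p 5 2, p 3 0, g, p 4 3, g, p 0 4, g, s 1 0, g, s 0 5, g, m 0 6, g], .hi 4, [.r 2115 [1, 2, 7, 3, 4, 5, 6] [1, 1, 1, 1, 1, 1, 1, 1], .l [13, 1, 7, 11, 10, 8, 7, 7, 5, 5, 3, 1, 5], .l [6, 3], .l [1, 6, 1, 6, 4, 1, 10], .l [4, 5], .l [6, 1], .l [8, 3, 13, 8, 12, 6, 10, 1, 6, 1], .l [4, 7], .l [8, 3], .y [4, 8, 6], .l [10, 5, 13, 6, 12, 8, 10, 1, 6, 3], .l [4, 9], .l [10, 5], .l [12, 7, 9, 13, 9, 11, 2, 6, 4, 1],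 .l [4, 11], .l [12, 7], .l [4, 11, 1, 7, 8, 6, 1, 6, 6, 4, 5, 3, 1], .l [1, 14, 9, 5, 9, 2, 4, 2, 6, 7], .l [4, 13], .l [14, 9], .l [14, 9], .l [1, 16, 11, 5, 11, 4, 6, 2, 8, 3], .l [4, 15], .l [16, 11]]),
([p 2 0, g, s 5 1, p 4 2, p 3 0, g, p 0 3, g, s 1 0, g, s 0 4, g, m 0 5, g], .lo 6, [.l [0, 5], .l [2, 7, 7, 5, 2], .l [2, 7], .l [1, 5, 3, 6], .y [4, 6], .l [7, 4, 11, 8, 4, 8, 3], .l [6, 7], .l [4, 12, 10, 12, 8, 1, 1, 4, 5], .l [10, 7, 10, 7, 1, 5, 6, 1], .r 2116 [1, 2, 3, 6, 4, 5] [1, 1, 1, 1, 1, 1, 1], .l [10, 7, 10, 7, 1, 5, 6, 1], .l [2, 7, 7, 5, 5, 3, 0], .l [2, 7, 9, 7, 7, 5, 0, 5], .l [2, 7, 9, 7, 7, 5, 0], .l [2, 13, 7, 3, 8, 2, 4, 2, 5], .l [2, 7, 11, 9, 9, 7, 0, 3], .l [2, 7, 11, 9, 9, 7, 0], .l [5, 10,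 7, 11, 3, 7, 3, 6, 1], .l [2, 11, 13, 7, 7, 5, 0], .l [2, 11, 13, 7, 7, 5, 0], .l [2, 11, 5, 11, 4, 0, 5]]),
([p 1 0, g, s 4 0, p 3 1, p 2 0, g, p 0 2, g, s 0 3, g, m 0 4, g], .hi 2, [.r 2114 [5, 1, 3, 4] [1, 1, 3, 1, 1], .l [3, 5, 1, 10, 7, 8, 1], .l [4, 1, 4, 0, 7], .l [2, 5, 7, 5, 0], .l [1, 3, 1, 10, 5, 8, 3], .l [6, 3, 8], .l [1, 3, 1, 8, 3, 6, 3], .r 2117 [5, 1, 2, 3, 4] [1, 1, 1, 1, 1, 1], .l [1, 3, 1, 10, 3, 8, 5], .l [8, 5, 8], .l [1, 3, 1, 6, 6, 0, 5], .r 2111 [5, 1, 2, 3, 4] [1, 1, 1, 1, 1, 1], .l [1, 3, 1, 10, 1, 8, 5], .l [10, 7, 4], .y [2, 10], .r 2109 [5, 1, 2, 3, 4] [1, 1, 1, 1, 1, 1], .l [1, 3, 1, 10, 1, 8, 5], .l [12, 9, 4]]),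
([p 1 0, g, s 3 0, p 2 1, p 0 0, g, s 0 2, g, m 0 3, g], .lo 4, [.l [0, 3], .l [2, 5, 2], .l [2, 5], .l [1, 5, 3, 4], .l [1, 3, 1, 6, 3, 4, 1], .y [4], .l [7, 4, 7, 6, 1], .r 2118 [1, 4, 2, 3] [1, 1, 1, 1, 1], .l [4, 8, 6, 8, 4, 2, 3], .l [5, 2, 5, 4, 5], .l [2, 3, 0, 4, 6, 4, 5], .l [5, 2, 5, 4, 5], .l [2, 7, 9, 5, 0], .l [2, 7, 9, 5, 0], .l [2, 7, 3, 8, 4, 0, 3]]),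
([p 1 0, g, s 2 0, p 0 1, p 0 0, g, m 0 2, g], .lo 3, [.y [0, 3], .l [1, 5, 3, 2, 5], .l [2, 4], .l [1, 5, 3, 2], .c, .r 2078 [1, 3, 2] [1, 1, 1], .r 2119 [1, 3, 2] [1, 1, 1, 1], .r 2068 [1, 3, 2] [1, 1, 1, 1], .l [2, 3, 0, 4], .l [7, 1, 3, 5, 4], .r 2085 [1, 2, 3] [1, 1, 1, 1], .l [2, 3, 0, 6]]),
([p 2 0, g, s 0 1, p 4 2, p 3 0, g, p 0 3, g, m 1 0, g, p 0 4, g], .hi 0, [.r 2082 [5, 1, 2, 3, 4] [1, 1, 1, 1, 1, 1], .l [0, 1], .l [2, 1], .r 1003 [5, 2] [1, 8], .l [0, 5, 7, 5, 2], .l [0, 5], .l [6, 5], .l [0, 5], .r 2042 [5, 2, 3] [2, 1, 1, 5], .l [0, 7], .l [8, 7], .l [10, 9, 9, 6, 9, 2, 3], .l [0, 9], .l [10, 9], .y [0, 10, 3], .l [12, 11, 11, 8, 4, 8, 1], .l [0, 11], .l [12, 11]]),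
([p 3 0, g, s 0 1, g, s 1 2, p 0 3, p 4 0, g, p 0 4, g, m 2 0, g], .lo 5, [.y [0, 5], .l [12, 5, 8], .l [2, 6], .l [1, 7, 5, 4], .l [12, 5, 6], .l [4, 6], .l [1, 7, 5, 3, 10, 6, 7], .l [5, 10, 8, 4, 7, 3, 6, 0, 3], .l [12, 7, 2], .l [5, 12, 10, 6, 9, 3, 8, 2, 5], .l [1, 5, 3, 1, 10, 8, 3], .l [12, 7, 4], .l [4, 1, 5, 10, 5, 1, 7, 0, 3], .l [1, 5, 3, 1, 10, 8, 5], .l [1, 5, 3, 1, 8, 6, 5], .l [10, 5, 10], .r 2121 [2, 3, 4, 5] [3, 1, 1, 1, 1], .l [1, 5, 3, 1, 8, 6, 7]]),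
([p 4 1, g, s 1 0, s 0 0, g, s 0 2, g, s 2 3, p 5 4, p 6 5, g, m 3 0, g, p 0 6, g], .hi 3, [.l [4, 3, 9, 5, 6, 8, 6, 1], .l [8, 13, 3, 8, 3, 12, 5, 7, 3, 8, 2, 5], .l [4, 3, 9, 5, 6], .y [3], .l [4, 10, 5, 7, 1, 8, 6, 1], .l [2, 1, 9, 7, 1], .r 2058 [1, 7, 4] [1, 1, 4, 6], .l [4, 8, 3, 5, 1, 6, 4, 1], .l [6, 10, 3, 5, 1, 8, 6, 3], .l [2, 1, 9, 7, 3], .l [5, 8, 12, 3, 10, 4, 1, 10, 2, 7], .l [2, 1, 7, 5, 8, 12, 10, 10, 8, 1], .l [2, 1, 7, 5, 8], .l [7, 1, 10, 6, 1, 9, 1, 9, 3, 0], .l [2, 1, 7, 5, 10, 12, 8, 8, 6, 1], .l [2, 1, 7, 5, 10], .l [13, 9, 12, 7, 7, 6, 11, 4, 8], .l [2, 1, 7, 5, 10], .l [5, 6, 10, 3, 12, 6, 1, 1, 8, 5], .l [2, 1, 7, 5, 12], .l [5, 6, 10, 3, 12, 6, 1, 1, 8, 5]]),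
([p 3 1, g, s 1 0, m 0 0, g, s 0 2, p 0 3, p 4 0, g, m 2 0, g, p 0 4, g], .hi 3, [.l [4, 3, 7, 3, 4], .l [1, 8, 6, 2], .l [2, 4], .y [3], .l [2, 1, 7, 5, 1], .l [2, 1, 7, 5, 1], .l [2, 1, 10, 3, 5, 10, 5, 2, 7], .l [2, 1, 5, 3, 1], .l [2, 1, 5, 3, 2], .l [2, 1, 5, 3, 6], .l [2, 1, 5, 3, 6], .l [11, 5, 10, 9, 6, 3, 10, 4, 1], .l [2, 1, 5, 3, 8], .l [2, 1, 5, 3, 8], .l [9, 3, 8, 7, 9, 4, 1], .l [2, 1, 5, 3, 8], .l [2, 1, 5, 3, 10], .l [2, 1, 5, 3, 10], .l [9, 3, 8, 7, 11, 6, 1]]),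
([p 3 1, g, s 1 0, p 0 0, g, s 0 2, p 0 3, p 4 0, g, m 2 0, g, p 0 4, g], .lo 3, [.l [4, 3, 7, 3, 4], .l [2, 4], .l [1, 8, 6, 2], .c, .y [3], .l [2, 1, 7, 5, 1], .l [2, 1, 10, 3, 5, 10, 5, 2, 7], .l [2, 1, 7, 5, 1], .l [9, 3, 8, 7, 4, 3, 8, 4, 1], .l [2, 1, 5, 3, 6], .l [11, 5, 10, 9, 6, 3, 10, 4, 1], .l [2, 1, 5, 3, 6], .l [2, 1, 5, 3, 6], .l [2, 1, 5, 3, 8], .l [9, 3, 8, 7, 9, 4, 1], .l [2, 1, 5, 3, 8], .l [2, 1, 5, 3, 10], .l [9, 3, 8, 7, 11, 6, 1], .l [2, 1, 5, 3, 10]]),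
([p 4 1, g, s 1 0, s 0 2, g, s 2 3, p 5 4, p 6 5, g, m 3 0, g, p 0 6, g], .lo 3, [.l [4, 3, 7, 3, 4, 6, 4, 1], .l [4, 3, 7, 3, 4], .l [4, 3, 7, 3, 1, 8, 6, 6, 3, 5, 3, 5, 1], .c, .l [3, 6, 10, 3, 8, 4, 1, 8, 2, 5], .l [2, 1, 7, 5, 3, 8, 4, 6, 1, 7, 3, 3, 1], .l [2, 1, 7, 5, 1], .l [2, 1, 5, 3, 6, 10, 8, 8, 6, 1], .l [2, 1, 5, 3, 1, 8, 6, 6, 1, 7, 3, 3, 1], .l [2, 1, 5, 3, 6], .y [3, 5, 9], .l [2, 1, 5, 3, 8, 10, 6, 6, 4, 1], .l [2, 1, 5, 3, 1, 6, 4, 6, 1, 7, 3, 3, 1], .l [2, 1, 5, 3, 8], .l [2, 1, 12, 9, 2, 9, 7, 1, 6, 3], .l [3, 4, 8, 3, 6, 5, 5, 4, 8, 6, 1, 3, 1], .l [2, 1, 5, 3, 10]]),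
([p 4 1, g, s 1 0, g, s 0 2, g, s 2 3, p 5 4, p 6 5, g, m 3 0, g, p 0 6, g], .top 3, [.r 2126 [1, 2, 3, 4, 5, 6] [1, 1, 1, 1, 1], .r 2123 [1, 2, 3, 4, 5, 6] [1, 1, 1, 1, 1, 1], .r 2125 [1, 3, 4, 6] [1, 3, 1, 1, 1], .r 2124 [1, 3, 4, 6] [1, 3, 1, 1, 1]]),
([p 4 1, s 0 0, g, s 0 2, g, s 1 0, g, s 2 3, g, p 0 4, p 5 0, g, m 3 0, g, p 0 5, g], .hi 1, [.y [1], .l [0, 6, 13, 4, 11, 6, 11, 2, 8, 1], .l [2, 11, 8, 8, 3], .r 578 [1, 6, 4] [1, 3, 3, 6], .l [0, 4, 11, 4, 9, 4, 9, 2, 6, 1], .l [0, 6, 13, 4, 9, 4, 11, 4, 8, 5], .l [4, 11, 6, 6, 3], .l [0, 6, 13, 4, 9, 4, 11, 4, 8, 5], .l [0, 4, 13, 4, 11, 6, 11, 2, 6, 7], .l [5, 4, 5], .r 520 [1, 6, 4] [3, 1, 3, 6], .l [0, 4, 13, 6, 11, 4, 11, 4, 8, 5], .l [5, 4, 7], .r 520 [1, 6,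 4] [3, 3, 1, 6], .l [5, 4, 7], .l [1, 11, 15, 13, 7], .l [0, 9, 8, 10, 14, 12, 3], .l [5, 12, 7, 10, 14, 8, 3], .l [1, 13, 15, 11, 7], .l [0, 9, 8, 12, 14, 10, 3], .l [5, 14, 9, 12, 14, 6, 3], .l [0, 9, 8, 12, 12, 8, 3], .l [0, 4, 1, 4, 9, 4, 11, 4, 8, 5], .l [5, 4, 14], .l [12, 4, 15, 4, 0, 12, 9]]),
([p 4 1, g, s 0 2, g, s 1 0, g, s 2 3, g, p 0 4, p 5 0, g, m 3 0, g, p 0 5, g], .top 1, [.r 989 [1, 2, 4] [1, 1, 1, 6], .r 2128 [1, 2, 3, 4, 5] [1, 1, 1, 1, 1, 1, 1], .r 334 [] [14], .r 444 [] [14]]),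
([p 2 0, g, s 0 1, p 3 2, p 4 0, g, p 0 3, g, m 1 0, g, p 0 4, g], .hi 4, [.l [1, 10, 5, 0, 7, 5, 8, 2, 5], .l [1, 10, 5, 0, 7, 5, 8, 2, 5], .l [6, 3], .l [4, 1, 7, 5, 6, 2, 6, 4, 1], .r 1588 [2, 5] [2, 1, 7], .l [4, 5], .l [6, 1], .l [4, 5], .l [2, 8, 3, 11, 7, 0, 7], .l [4, 7], .l [8, 3], .l [1, 10, 5, 6, 4, 9, 5, 2, 5], .l [4, 9], .l [10, 5], .y [4, 10], .l [4, 11, 7, 2, 8, 3, 1, 6, 1], .l [4, 11], .l [12, 7]]),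
([p 4 1, g, m 0 2, g, s 1 0, g, s 2 3, p 5 4, p 6 5, g, m 3 0, g, p 0 6, g], .hi 4, [.l [5, 12, 6, 8, 12, 7, 9, 7, 5, 6, 3, 5, 3], .l [5, 9, 3, 4, 8, 6, 3], .l [2, 5, 1, 5, 9, 3, 7, 1, 8, 2, 5], .l [4, 1, 6, 2, 4, 1, 6, 3, 4, 0, 1], .l [5, 9, 3, 6, 10, 5, 3, 4, 5, 7, 5, 5, 3], .l [5, 9, 3, 6, 8, 4, 5], .l [6, 1, 8, 2, 6, 3, 8, 3, 6, 2, 3], .l [5, 9, 3, 6, 10, 5, 6, 4, 1, 2, 3, 5, 3], .l [5, 9, 3, 6, 8, 4, 5], .l [0, 3, 1, 5, 9, 3, 7, 1, 8, 2, 5], .l [4, 9, 5, 7, 11, 7, 2], .l [0, 3, 3, 7, 11, 9, 4], .l [0, 3, 9, 5, 5, 2, 2, 1, 8, 6, 1], .l [4, 11, 7, 9, 11, 5, 2], .l [0, 3, 3, 9, 11, 7, 4], .l [0, 3, 11, 7, 7, 4, 4, 3, 8, 4, 1], .y [0, 4, 12, 8, 7], .l [10, 3, 13, 7, 3, 10, 5, 1, 7, 7, 3, 5, 3], .l [3, 7, 3, 12, 7, 8,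 5], .l [0, 3, 1, 3, 7, 3, 0, 4, 8, 3, 4, 0, 1]]),
([p 3 1, g, s 1 0, g, s 0 2, p 4 3, p 5 4, g, m 2 0, g, p 0 5, g], .lo 4, [.r 2129 [1, 6, 2, 3, 5] [1, 1, 1, 0, 1, 1, 1], .l [0, 3, 9, 3, 7, 3, 8, 2, 5], .r 2131 [1, 6, 2, 3, 4, 5] [1, 1, 1, 1, 1, 1], .l [3, 8, 3, 5, 8, 3, 5, 3, 4, 0, 1], .r 2127 [1, 6, 2, 3, 4, 5] [1, 1, 1, 1, 1, 1], .l [5, 10, 3, 6, 1, 9, 4, 6, 3], .l [2, 1, 9, 3, 5, 1, 8, 4, 1], .l [4, 7, 11, 9, 0], .l [8, 3, 9, 5, 10, 2, 5], .l [4, 7, 11, 9, 0], .y [4, 8], .l [4, 9, 11, 7, 0], .l [8, 3, 9, 5, 10, 2, 5], .l [4, 9, 11, 7, 0], .l [5, 12, 10, 4, 9, 3, 8, 0, 5], .l [8, 3, 11, 7, 3, 8, 3], .l [11, 7, 10, 8, 8, 7, 1, 6, 3]]),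
([p 5 1, s 4 0, g, m 0 2, g, m 2 3, s 1 0, g, s 0 4, g, p 0 5, g, m 3 6, g, m 6 0, g], .lo 10, [.l [6, 5, 6, 10, 7, 7, 5, 7, 3, 5, 1, 5, 1], .l [11, 14, 9, 12, 6, 3, 8, 6, 0, 3], .l [3, 11], .l [2, 12, 9, 8], .l [4, 10, 6, 3, 6, 8, 4, 3], .l [5, 11], .l [0, 7, 2, 10, 12, 3, 1, 6, 7, 5, 1, 7, 5], .y [0, 6, 10], .l [11, 14, 7, 12, 8, 3, 8, 6, 0, 1], .l [8, 11], .l [7, 12, 4, 3], .l [9, 14, 9, 12, 8, 5, 8, 6, 2, 1], .l [10, 11], .l [6, 5, 6, 12, 9, 9, 7, 9, 3, 5, 1, 7, 3], .l [9, 10, 0, 9, 11, 6, 9, 5, 2, 5], .l [7, 14, 11, 1, 6, 2, 2, 8, 3, 1, 5, 7, 3], .l [7, 14, 11, 7, 2, 2, 8, 2, 7, 9, 3, 5, 1], .l [9, 10, 0, 11, 13, 11, 11, 6, 9, 5, 2, 5], .l [6, 5, 6, 10, 7, 7, 5, 7, 3, 7, 3, 7, 1], .l [4, 10, 5, 0, 7, 2, 9, 11, 9,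 9, 7, 4, 1], .l [4, 10, 5, 0, 7, 2, 9, 9, 7, 7, 5, 4, 1], .l [9, 12, 7, 10, 6, 3, 6, 4, 0, 7], .l [6, 5, 6, 10, 7, 7, 5, 7, 3, 9, 5, 7, 3], .l [9, 10, 0, 13]]),
([p 5 1, s 4 0, g, m 0 2, g, m 2 3, s 1 0, g, s 0 4, g, p 0 5, g, m 3 0, g], .hi 12, [.l [2, 12, 9, 11, 11, 3, 6, 7, 4, 1], .l [2, 12, 9, 11], .l [3, 13], .y [3, 5, 12], .l [4, 10, 6, 3, 6, 8, 4, 7], .l [4, 7, 5, 11, 8, 10], .l [5, 13], .l [13, 14, 5, 10, 6, 1, 6, 8, 2, 3], .l [7, 12, 4, 11], .l [8, 13], .l [11, 12, 5, 8, 4, 1, 4, 6, 2, 3], .l [9, 12, 2, 11, 11, 6, 9, 5, 2, 5], .l [9, 12, 2, 11], .l [10, 13], .l [9, 10, 0, 9], .l [11, 14, 7, 10, 6, 3, 6, 8, 4, 1], .l [11, 14, 7, 7, 5, 11, 8, 1], .l [12, 13], .l [11, 12, 5, 8, 4, 1, 4, 6, 2, 5], .l [11, 12, 5,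 5, 3, 9, 6, 8], .r 2133 [1, 2, 3, 4, 5, 6] [1, 1, 1, 1, 1, 1, 1]]),
([p 6 1, s 4 0, g, m 0 2, g, m 2 3, s 1 0, g, s 0 4, g, m 3 5, g, m 5 0, g, p 0 6, g], .hi 12, [.l [2, 16, 13, 10, 10, 8, 8, 3, 6, 7, 4, 1], .l [0, 7, 11, 10, 10, 8, 1, 8, 8, 6, 8, 4, 5], .l [3, 13], .y [3, 5, 10, 12], .l [4, 10, 6, 3, 6, 12, 8, 5], .l [0, 7, 2, 12, 12, 10, 12, 8, 9, 7, 1, 3, 1], .l [5, 13], .l [7, 12, 9, 14, 9, 6, 8, 6, 9], .l [4, 16, 11, 0, 13, 10, 5, 5, 3, 3, 7, 2, 3], .l [8, 13], .l [6, 5, 6, 6, 8, 8, 6, 6, 3, 3, 1, 5, 1], .l [9, 12, 7, 10, 6, 3, 6, 10, 6, 3], .l [4, 16, 11, 0, 13, 8, 3, 3, 1, 1, 7, 4, 1], .l [10, 13], .l [11, 14, 12, 12, 7, 10, 6, 3, 6, 8, 4, 1], .l [6, 5, 6, 8, 5, 5, 3, 11, 5, 7, 3, 5, 1], .l [12, 13], .l [11, 12,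 10, 10, 5, 8, 4, 1, 4, 8, 4, 1], .l [11, 12, 10, 10, 5, 5, 3, 11, 8, 5], .l [6, 5, 6, 8, 5, 5, 3, 11, 5, 7, 5, 5, 3], .l [11, 12, 10, 10, 5, 5, 3, 9, 6, 5], .l [11, 12, 10, 10, 5, 8, 4, 1, 4, 6, 2, 5], .l [6, 5, 6, 8, 5, 5, 3, 9, 3, 5, 3, 3, 5], .l [6, 5, 6, 8, 5, 5, 3, 9, 3, 5, 3, 7, 3]]),
([p 6 1, s 4 0, g, m 0 2, g, m 2 3, s 1 0, g, s 0 4, g, m 3 5, g, p 0 6, g, m 5 0, g], .hi 6, [.l [8, 7, 8, 10, 7, 10, 1, 6, 4, 5], .l [8, 7, 8, 10, 7, 3, 6, 10, 9, 9, 5, 3, 1], .l [8, 7, 8, 10, 7, 7, 5, 9, 1, 7, 5, 7, 5], .l [3, 5, 4], .l [4, 14, 9, 2, 10], .l [4, 14, 9, 2, 10], .l [5, 7, 4], .l [7, 12, 9, 12, 7, 4, 8], .l [6, 5, 8, 3, 1, 9, 5, 5, 3, 7, 1, 7, 3], .l [6, 5, 8, 10, 5, 5, 3, 9, 3, 3, 1, 7, 3], .l [6, 5, 6, 8, 5, 3, 4,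 8, 7, 7, 5, 3, 1], .l [9, 12, 7, 12, 7, 2, 8], .l [6, 5, 6, 10, 7, 7, 5, 9, 1, 5, 3, 7, 5], .l [0, 5, 9, 3, 12, 8, 9, 11, 7, 7, 5, 5, 3], .l [4, 12, 5, 7, 1, 8, 10, 2, 3], .l [6, 5, 6, 8, 5, 8, 11, 7, 8, 2, 4, 2, 5], .l [0, 5, 9, 8, 10, 5, 10, 4, 7, 5, 3, 7, 3], .y [0, 6, 12], .l [13, 16, 12, 12, 7, 12, 7, 2, 8], .l [5, 12, 6, 12, 1, 6, 12, 5, 7, 1, 3, 6, 1], .l [6, 5, 6, 8, 5, 5, 3, 7, 1, 7, 5, 7, 5], .l [4, 16, 9, 11, 1, 12, 5, 10, 3], .l [1, 7, 9, 6, 7, 3, 7, 3, 8, 3, 6, 2, 5], .l [6, 5, 6, 8, 5, 5, 3, 7, 1, 9, 7, 5, 3]]),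
([p 5 1, s 4 0, g, m 0 2, g, m 2 3, s 1 0, g, s 0 4, g, m 3 0, g, p 0 5, g], .hi 10, [.l [2, 14, 11, 8, 8, 3, 6, 7, 4, 1], .l [2, 14, 11, 8], .l [3, 11], .y [3, 5, 10], .l [4, 10, 6, 3, 6, 10, 6, 3], .l [4, 7, 5, 13, 10, 7], .l [5, 11], .l [11, 12, 5, 10, 6, 1, 6, 8, 2, 3], .l [7, 12, 9, 9, 7, 11, 8, 3], .l [8, 11], .l [9, 10, 5, 8, 4, 1, 4, 6, 2, 3], .l [9, 12, 7, 10, 6, 3, 6, 8, 4, 1], .l [9, 12, 7, 7, 5, 11, 8, 1], .l [10, 11], .l [9, 10, 5, 8, 4, 1, 4, 8, 4, 1], .l [9, 10, 5, 5, 3, 11, 8, 5], .r 2135 [1, 2, 3, 4, 6, 5] [1, 1, 1, 1, 1, 1, 1], .l [9, 10, 5, 5, 3, 9, 6, 5], .l [9, 10, 5, 8, 4, 1, 4, 6, 2, 5], .l [9, 10, 5, 5, 3, 9, 6, 8], .r 2136 [1, 2, 3, 4, 6, 5] [1, 1, 1, 1, 1, 1, 1]]),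
([p 6 1, s 5 0, g, m 0 2, g, m 2 3, g, m 3 4, s 1 0, g, m 4 0, g, s 0 5, g, p 0 6, g], .hi 8, [.l [8, 14, 6, 1, 10, 3, 7, 8, 2, 8, 6, 3], .l [10, 9, 12, 10, 6, 8, 7, 7, 5, 5, 3, 7, 5], .l [4, 14, 10, 5, 7, 6, 6, 4, 8, 5, 8, 2, 5], .l [0, 7, 9, 8, 8, 6, 6, 4, 4, 1, 6, 4, 1], .l [10, 4, 6, 4, 4, 2, 4], .l [10, 9, 12, 8, 4, 6, 5, 5, 3, 9, 7, 3, 1], .l [0, 9, 11, 10, 10, 8, 8, 4, 6, 3, 8, 4, 1], .l [6, 16, 9, 2, 12], .l [6, 16, 9, 2, 12], .l [0, 9, 11, 10, 10, 6, 6, 4, 6, 3, 8, 4, 1], .l [9, 12, 9, 14, 7, 2, 10], .l [8, 7, 12, 5, 1, 5, 1, 11, 7, 9, 7, 7, 5], .l [0, 7, 11, 10, 10, 8, 8, 6, 4, 1, 8, 6, 3], .l [6, 12, 3, 5, 1, 8, 8, 6, 10, 4, 5], .l [13, 16, 2, 2, 8, 10, 9, 9, 7, 7, 5, 3, 5], .l [0, 7, 9, 8, 8, 6, 6, 4, 6, 3,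 8, 4, 1], .l [8, 7, 10, 10, 6, 8, 7, 7, 5, 5, 3, 5, 3], .l [6, 14, 5, 7, 1, 10, 10, 8, 10, 2, 5], .l [8, 13, 13, 10, 8, 11, 5, 2, 7, 7, 5, 7, 3], .l [0, 7, 9, 8, 8, 6, 6, 4, 8, 5, 8, 2, 3], .y [0, 8, 14], .l [6, 16, 7, 9, 1, 12, 5, 10, 1], .l [11, 14, 2, 2, 8, 10, 9, 9, 7, 7, 5, 3, 5], .l [8, 7, 10, 14, 10, 12, 11, 11, 9, 9, 7, 5, 1]]),
([p 0 1, s 0 2, g, m 4 0, s 0 3, g, m 3 0, g, s 1 4, g, s 2 0, g], .lo 4, [.l [10, 9, 10, 1, 4, 5], .l [3, 5, 8], .l [8, 1, 4, 2, 6], .l [6, 1, 2, 0, 4], .l [6, 1, 7, 5, 6, 6, 2, 5], .l [6, 1, 7, 5, 6], .l [10, 9, 10, 1, 6, 1], .y [4, 6], .l [10, 9, 10, 1, 6, 3], .l [6, 1, 7, 5, 6], .l [10, 9, 10, 1, 6, 3], .l [8, 7, 10, 3, 6, 3], .l [6, 1, 9, 7, 4], .l [8, 4, 8], .l [6, 1, 9, 7, 4, 4,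 2, 3], .l [8, 7, 8, 1, 4, 7], .l [6, 1, 11, 9, 4], .l [8, 7, 8, 1, 4, 7]]),
([p 4 1, s 0 0, g, m 3 0, s 0 2, g, m 2 0, g, s 1 3, g, p 0 4, g], .hi 1, [.y [1], .r 1053 [1, 5, 4] [1, 6, 1, 1], .l [2, 12, 9, 9, 1], .r 578 [1, 5, 4] [1, 6, 1, 1], .l [8, 7, 2, 5], .l [10, 9, 4, 6, 4, 5], .l [3, 9, 9, 2, 4], .l [10, 6, 11, 1, 4, 2, 5], .r 1053 [1, 5, 4] [6, 1, 1, 1], .l [3, 9, 9, 2, 6], .l [10, 6, 11, 1, 4, 2, 3], .r 2139 [1, 5, 2, 3] [1, 1, 1, 1, 3], .l [3, 7, 7, 2, 6], .l [8, 4, 11, 3, 6, 2, 3], .l [3, 7, 7, 2, 6], .r 2139 [1, 5, 2, 3] [1, 1, 1, 3, 1], .l [3, 7, 7, 2, 8], .r 852 [1, 5, 4] [6, 1, 1, 1]]),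
([p 4 1, s 3 0, g, m 2 0, s 0 0, g, s 1 2, g, s 0 3, g, p 0 4, g], .hi 4, [.l [8, 7, 8, 1, 2, 3], .l [2, 12, 9, 2, 3], .l [3, 5, 6], .y [4], .l [5, 12, 6, 9, 6, 6, 2, 3], .l [3, 7, 7, 2, 9, 6, 1], .r 2140 [1, 5, 2, 4] [1, 1, 1, 3, 1], .l [6, 5, 8, 3, 4, 1], .l [3, 5, 5, 2, 9, 6, 1], .l [6, 5, 8, 3, 4, 1], .l [7, 10, 2, 5, 6, 6, 2, 3], .l [6, 5, 6, 1, 2, 5], .l [3, 5, 5, 2, 9, 6, 3], .l [6, 5, 6, 8, 4, 5], .l [3, 5, 5, 2, 7, 4, 3], .l [6, 5, 6, 1, 2, 7], .l [3, 5, 5, 2, 7, 4, 7], .l [6, 5, 6, 10, 6, 7]]),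
([p 4 1, s 3 0, g, m 2 0, g, s 1 2, g, s 0 3, g, p 0 4, g], .top 4, [.c, .r 2141 [1, 2, 3, 4] [1, 1, 1, 1, 1], .r 962 [1, 2, 4] [2, 1, 3, 1], .r 945 [1, 2, 4] [2, 1, 3, 1]]),
([p 6 1, s 5 0, g, s 0 2, g, m 2 3, g, m 3 4, s 1 0, g, m 4 0, g, s 0 5, g, p 0 6, g], .hi 8, [.l [7, 1, 15, 8, 13, 11, 8, 4, 2, 5], .l [7, 1, 15, 8, 13, 11, 8], .r 2142 [1, 7, 5, 6] [1, 6, 3, 1, 1], .l [5, 1, 13, 8, 11, 9, 8], .l [7, 3, 15, 8, 11, 9, 10, 6, 2, 7], .l [8, 14, 6, 1, 10, 1, 7, 10, 2, 7], .l [7, 3, 15, 8, 11, 9, 10], .l [6, 16, 9, 2, 12], .l [6, 16, 9, 2, 12], .l [5, 1, 15, 10, 13, 9, 10], .l [5, 1, 15, 10, 13, 11, 1, 10, 6, 8, 4, 5], .l [5, 1, 15, 10, 13, 11, 1], .l [5, 1, 9, 1, 9, 6, 1, 6, 1], .l [5, 1, 15, 10, 13, 11, 3, 5, 6, 3],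 .l [5, 1, 15, 10, 13, 11, 3], .l [6, 12, 3, 5, 1, 8, 12, 4, 5], .l [5, 1, 13, 8, 11, 9, 3, 3, 4, 3], .l [6, 14, 5, 7, 1, 10, 12, 2, 5], .l [5, 1, 15, 10, 13, 11, 5], .l [6, 14, 5, 7, 1, 10, 12, 2, 5], .y [0, 8, 14], .l [5, 1, 13, 8, 11, 9, 10, 6, 2, 7], .l [5, 1, 13, 8, 11, 9, 10], .l [6, 16, 7, 9, 1, 12, 5, 10, 1]]),
([p 5 1, s 4 0, g, m 0 2, g, m 2 3, s 1 0, g, m 3 0, g, s 0 4, g, p 0 5, g], .lo 3, [.r 539 [1, 6, 4, 5] [1, 2, 3, 1, 1], .r 2143 [1, 6, 2, 3, 4, 5] [1, 1, 1, 1, 1, 1, 1], .l [5, 1], .r 2138 [1, 6, 2, 3, 4, 5] [1, 1, 1, 1, 1, 1, 1], .l [5, 1, 11, 7, 2, 7], .l [5, 1], .l [3, 4], .l [3, 5, 4], .l [8, 4, 4, 2, 4], .l [8, 4], .l [3, 7], .y [3, 5, 8], .l [10, 6, 6, 4, 6], .l [10, 6], .l [3, 9], .l [12, 8, 8,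 6, 8], .l [12, 8], .l [3, 11], .l [14, 10, 10, 8, 10], .l [14, 10], .l [3, 13]]),
([p 4 1, s 3 0, g, m 0 2, g, m 2 0, s 1 0, g, s 0 3, g, p 0 4, g], .hi 5, [.l [2, 12, 9, 3, 6, 7, 4, 1], .l [2, 12, 9, 3], .l [3, 6], .y [3, 5], .l [4, 10, 6, 3, 6, 8, 4, 1], .l [4, 7, 5, 11, 8, 1], .l [5, 6], .l [4, 10, 6, 1, 6, 8, 2, 3], .l [4, 5, 3, 11, 8, 3], .r 2144 [1, 2, 5, 3, 4] [1, 1, 1, 1, 1, 1], .l [4, 8, 4, 1, 4, 6, 2, 3], .l [4, 8, 4, 1, 4, 8, 4, 1], .l [4, 5, 3, 11, 8, 5], .r 2137 [1, 2, 5, 3, 4] [1, 1, 1, 1, 1, 1], .l [4, 5, 3, 9, 6, 5], .l [4, 8, 4, 1, 4, 6, 2, 5], .l [4, 5, 3, 9, 6, 8], .r 2134 [1, 2, 5, 3, 4] [1, 1, 1, 1, 1, 1]]),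
([p 3 1, s 2 0, g, m 0 0, s 1 0, g, s 0 2, g, p 0 3, g], .lo 3, [.l [0, 3, 1], .l [0, 5, 1], .l [5, 1], .r 2145 [1, 4, 2, 3] [1, 1, 1, 1, 1], .y [3], .c, .l [0, 3, 4], .l [6, 2], .l [3, 5], .l [0, 3, 6], .l [8, 4], .l [3, 7], .l [0, 3, 8], .l [10, 6], .l [3, 9]]),
([p 6 1, s 4 0, g, p 2 0, g, p 3 2, g, p 5 3, s 1 0, g, s 0 4, g, p 0 5, g, p 0 6, g], .lo 12, [.l [8, 7, 8, 10, 7, 7, 5, 5, 3, 7, 1, 5, 1], .l [2, 16, 13, 10, 10, 5, 8, 9, 6, 3], .l [3, 13], .l [0, 9, 13, 12, 12, 10, 10, 8, 1, 6, 8, 4, 5], .y [3, 12, 7, 5], .l [4, 7, 5, 14, 11, 8, 8, 3, 6, 7, 4, 1], .l [5, 13], .l [0, 9, 4, 12, 14, 10, 11, 9, 3, 3, 1, 3, 1], .l [6, 12, 6, 3, 8, 8, 6, 10, 6, 3], .l [7, 13], .l [0, 9, 2, 12, 14, 10, 11, 7, 1, 3, 1, 5, 3], .l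 [8, 7, 8, 10, 7, 7, 5, 5, 3, 7, 1, 3, 1], .l [13, 14, 7, 12, 6, 1, 8, 8, 6, 8, 2, 3], .l [10, 13], .l [6, 16, 9, 0, 13, 10, 3, 3, 9, 4, 5, 7, 3], .l [11, 14, 9, 12, 6, 3, 8, 8, 6, 8, 4, 1], .l [12, 13], .l [6, 16, 9, 0, 13, 8, 1, 1, 9, 6, 3, 7, 5], .l [11, 12, 7, 10, 4, 1, 6, 6, 4, 8, 4, 1], .l [8, 7, 8, 10, 7, 7, 5, 5, 3, 9, 3, 5, 3], .l [11, 12, 7, 7, 5, 5, 3, 11, 8, 5], .l [11, 12, 7, 10, 4, 1, 6, 6, 4, 6, 2, 5], .l [8, 7, 8, 10, 7, 7, 5, 5, 3, 7, 1, 7, 3], .l [8, 7, 8, 10, 7, 7, 5, 5, 3, 7, 1, 3, 5]]),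
([p 8 1, g, m 0 2, g, m 2 3, g, m 3 4, g, m 4 5, g, m 5 6, g, m 6 0, p 7 0, g, s 1 7, g, p 0 8, g], .lo 2, [.l [4, 1, 18, 14, 16, 14, 14, 12, 12, 10, 10, 8, 8, 6, 1], .l [4, 1], .l [17, 16, 18, 1, 14, 15, 14, 14, 12, 12, 10, 10, 8, 8, 6, 6, 4, 1], .l [1, 4, 1, 15, 12, 15, 2, 12, 12, 10, 10, 8, 8, 6, 6, 4, 1], .l [4, 1], .l [2, 3], .l [6, 3, 18, 12, 16, 14, 14, 12, 12, 10, 10, 8, 1], .l [6, 3], .l [2, 5], .l [8, 5, 5, 3, 16, 10, 14, 12, 12, 10, 10, 8, 1], .l [8, 5], .l [2, 7], .l [10, 7, 7, 5, 5, 3, 14, 8, 12, 10, 10, 8, 1], .l [10, 7], .l [2, 9], .l [12, 9, 9, 7, 7, 5, 5, 3, 12, 6, 10, 8, 1], .l [12, 9], .l [2, 11], .y [2, 4, 6, 8, 10, 12], .l [13, 10], .l [15, 12, 12, 10, 10, 8, 8, 6, 6, 4, 4, 2, 5], .l [15, 12], .l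 [2, 14], .l [17, 14, 14, 12, 12, 10, 10, 8, 8, 6, 6, 4, 1], .l [17, 14], .l [2, 16], .l [19, 16, 16, 14, 14, 12, 12, 10, 10, 8, 8, 6, 1], .l [19, 16], .l [2, 18]]),
([p 7 1, g, m 0 2, g, m 2 3, g, m 3 4, g, m 4 5, g, m 5 0, p 6 0, g, s 1 6, g, p 0 7, g], .lo 2, [.l [4, 1, 16, 12, 14, 12, 12, 10, 10, 8, 8, 6, 1], .l [4, 1], .r 2148 [1, 8, 2, 3, 4, 5, 6, 7] [1, 1, 1, 1, 1, 1, 1, 1, 1], .l [1, 4, 1, 13, 10, 13, 2, 10, 10, 8, 8, 6, 6, 4, 1], .l [4, 1], .l [2, 3], .l [6, 3, 16, 10, 14, 12, 12, 10, 10, 8, 1], .l [6, 3], .l [2, 5], .l [8, 5, 5, 3, 14, 8, 12, 10, 10, 8, 1], .l [8, 5], .l [2, 7], .l [10, 7, 7, 5, 5, 3, 12, 6, 10, 8, 1], .l [10, 7], .l [2, 9], .y [2, 4, 6, 8, 10], .l [11, 8], .l [13, 10, 10, 8, 8, 6, 6, 4, 4, 2,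 5], .l [13, 10], .l [2, 12], .l [15, 12, 12, 10, 10, 8, 8, 6, 6, 4, 1], .l [15, 12], .l [2, 14], .l [17, 14, 14, 12, 12, 10, 10, 8, 8, 6, 1], .l [17, 14], .l [2, 16]]),
([p 6 1, g, m 0 2, g, m 2 3, g, m 3 4, g, m 4 0, p 5 0, g, s 1 5, g, p 0 6, g], .lo 2, [.l [4, 1, 14, 10, 12, 10, 10, 8, 8, 6, 1], .l [4, 1], .r 2149 [1, 7, 2, 3, 4, 5, 6] [1, 1, 1, 1, 1, 1, 1, 1], .l [1, 4, 1, 11, 8, 11, 2, 8, 8, 6, 6, 4, 1], .l [4, 1], .l [2, 3], .l [6, 3, 14, 8, 12, 10, 10, 8, 1], .l [6, 3], .l [2, 5], .l [8, 5, 5, 3, 12, 6, 10, 8, 1], .l [8, 5], .l [2, 7], .y [2, 4, 6, 8], .l [9, 6], .l [11, 8, 8, 6, 6, 4, 4, 2, 5], .l [11, 8], .l [2, 10], .l [13, 10, 10, 8, 8, 6, 6, 4, 1], .l [13, 10], .l [2, 12], .l [15, 12, 12, 10, 10, 8, 8, 6,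 1], .l [15, 12], .l [2, 14]]),
([p 5 1, g, m 0 2, g, m 2 3, g, m 3 0, p 4 0, g, s 1 4, g, p 0 5, g], .lo 2, [.l [4, 1, 12, 8, 10, 8, 8, 6, 1], .l [4, 1], .r 2150 [1, 6, 2, 3, 4, 5] [1, 1, 1, 1, 1, 1, 1], .l [1, 4, 1, 9, 6, 9, 2, 6, 6, 4, 1], .l [4, 1], .l [2, 3], .l [6, 3, 12, 6, 10, 8, 1], .l [6, 3], .l [2, 5], .y [2, 4, 6], .l [7, 4], .l [9, 6, 6, 4, 4, 2, 5], .l [9, 6], .l [2, 8], .l [11, 8, 8, 6, 6, 4, 1], .l [11, 8], .l [2, 10], .l [13, 10, 10, 8, 8, 6, 1], .l [13, 10], .l [2, 12]]),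
([p 4 1, g, m 0 2, g, m 2 0, p 3 0, g, s 1 3, g, p 0 4, g], .lo 2, [.l [4, 1, 10, 6, 8, 6, 1], .l [4, 1], .r 2151 [1, 5, 2, 3, 4] [1, 1, 1, 1, 1, 1], .l [1, 4, 1, 7, 4, 7, 2, 4, 1], .l [4, 1], .l [2, 3], .y [2, 4], .l [5, 2], .l [7, 4, 4, 2, 5], .l [7, 4], .l [2, 6], .l [9, 6, 6, 4, 1], .l [9, 6], .l [2, 8], .l [11, 8, 8, 6, 1], .l [11, 8], .l [2, 10]]),
([p 3 1, g, m 0 0, p 2 0, g, s 1 2, g, p 0 3, g], .lo 2, [.l [0, 6, 6, 4, 1], .l [4, 1], .r 2152 [1, 4, 2, 3] [1, 1, 1, 1, 1], .y [2], .l [3, 0], .l [0, 6, 6, 2, 3], .l [5, 2], .l [2, 4], .l [0, 4, 4, 2, 3], .l [7, 4], .l [2, 6], .l [0, 4, 4, 2, 5], .l [9, 6], .l [2, 8]]),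
([p 5 1, s 0 2, g, p 3 0, g, s 0 3, p 4 0, g, s 1 4, g, p 0 5, g, s 2 0, g], .lo 5, [.l [3, 6, 9, 5, 10, 3, 6, 1], .l [0, 9, 9, 7, 3], .l [6, 12, 5, 9, 1, 7, 1], .y [3, 5], .l [9, 12, 2, 9, 1, 10, 4, 1], .l [0, 9, 9, 7, 1], .l [6, 12, 5, 9, 1, 7, 1], .l [2, 10, 7, 1, 2, 0, 1], .l [0, 9, 9, 5, 6, 8, 6, 7], .l [2, 12, 9, 1, 4, 2, 3], .l [0, 9, 9, 5, 6], .l [0, 7, 7, 5, 6, 8, 6, 7], .l [2, 12, 9, 1, 6, 4, 1], .l [0, 7, 7, 5, 6], .l [12, 6, 1, 1, 8, 9], .l [2, 10, 7, 1, 9, 7, 1], .l [0, 7, 7, 5, 8], .l [8, 7, 10, 8, 1, 8, 6, 1], .l [14, 8, 1, 1, 10, 5], .l [2, 10, 7, 1, 11, 9, 1], .l [0, 7, 7, 5, 10]]),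
([p 4 1, s 0 2, g, s 0 0, p 3 0, g, s 1 3, g, p 0 4, g, s 2 0, g], .hi 3, [.l [5, 8, 2, 5, 1, 6, 4, 1], .l [7, 10, 2, 7, 1, 8, 4, 1], .r 2154 [1, 2, 5, 3, 4] [1, 1, 1, 1, 1, 1], .l [0, 7, 7, 5, 1], .y [3], .l [0, 7, 7, 3, 4, 6, 4, 5], .l [0, 7, 7, 3, 4], .l [6, 2, 6], .l [0, 5, 5, 3, 4, 6, 4, 5], .l [0, 5, 5, 3, 4], .l [5, 10, 4, 7, 4], .l [0, 5, 5, 3, 4], .l [10, 6, 1, 1, 6, 7], .l [0, 5, 5, 3, 6], .l [10, 6, 1], .l [12, 8, 1, 1, 8, 3], .l [0, 5, 5, 3, 8], .l [12, 8, 1]]),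
([p 8 1, g, p 2 0, g, p 3 2, g, p 4 3, g, p 5 4, g, p 6 5, g, p 0 6, p 7 0, g, s 1 7, g, p 0 8, g], .hi 2, [.l [4, 1, 18, 14, 16, 14, 14, 12, 12, 10, 10, 8, 8, 6, 1], .l [17, 16, 18, 1, 14, 15, 14, 14, 12, 12, 10, 10, 8, 8, 6, 6, 4, 1], .l [4, 1], .l [1, 4, 1, 15, 12, 15, 2, 12, 12, 10, 10, 8, 8, 6, 6, 4, 1], .l [2, 3], .l [4, 1], .l [6, 3, 18, 12, 16, 14, 14, 12, 12, 10, 10, 8, 1], .l [2, 5], .l [6, 3], .l [8, 5, 5, 3, 16, 10, 14, 12, 12, 10, 10, 8, 1], .l [2, 7], .l [8, 5], .l [10, 7, 7, 5, 5, 3, 14, 8, 12, 10, 10, 8, 1], .l [2, 9], .l [10, 7], .l [12, 9, 9, 7, 7, 5, 5, 3, 12, 6, 10, 8, 1], .l [2, 11], .l [12, 9], .y [2, 12, 10, 8, 6, 4], .l [15, 12, 12, 10, 10, 8, 8, 6, 6, 4, 4, 2, 5], .l [2, 14], .l [15, 12], .l [17,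 14, 14, 12, 12, 10, 10, 8, 8, 6, 6, 4, 1], .l [2, 16], .l [17, 14], .l [2, 16], .l [19, 16, 16, 14, 14, 12, 12, 10, 10, 8, 8, 6, 1], .l [2, 18], .l [19, 16]]),
([p 7 1, g, p 2 0, g, p 3 2, g, p 4 3, g, p 5 4, g, p 0 5, p 6 0, g, s 1 6, g, p 0 7, g], .hi 2, [.l [4, 1, 16, 12, 14, 12, 12, 10, 10, 8, 8, 6, 1], .r 2156 [1, 8, 2, 3, 4, 5, 6, 7] [1, 1, 1, 1, 1, 1, 1, 1, 1], .l [4, 1], .l [1, 4, 1, 13, 10, 13, 2, 10, 10, 8, 8, 6, 6, 4, 1], .l [2, 3], .l [4, 1], .l [6, 3, 16, 10, 14, 12, 12, 10, 10, 8, 1], .l [2, 5], .l [6, 3], .l [8, 5, 5, 3, 14, 8, 12, 10, 10, 8, 1], .l [2, 7], .l [8, 5], .l [10, 7, 7, 5, 5, 3, 12, 6, 10, 8, 1], .l [2, 9], .l [10, 7], .y [2, 10, 8, 6, 4], .l [13, 10, 10, 8, 8, 6, 6, 4, 4, 2, 5], .l [2, 12],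 .l [13, 10], .l [15, 12, 12, 10, 10, 8, 8, 6, 6, 4, 1], .l [2, 14], .l [15, 12], .l [2, 14], .l [17, 14, 14, 12, 12, 10, 10, 8, 8, 6, 1], .l [2, 16], .l [17, 14]]),
([p 6 1, g, p 2 0, g, p 3 2, g, p 4 3, g, p 0 4, p 5 0, g, s 1 5, g, p 0 6, g], .hi 2, [.l [4, 1, 14, 10, 12, 10, 10, 8, 8, 6, 1], .r 2157 [1, 7, 2, 3, 4, 5, 6] [1, 1, 1, 1, 1, 1, 1, 1], .l [4, 1], .l [1, 4, 1, 11, 8, 11, 2, 8, 8, 6, 6, 4, 1], .l [2, 3], .l [4, 1], .l [6, 3, 14, 8, 12, 10, 10, 8, 1], .l [2, 5], .l [6, 3], .l [8, 5, 5, 3, 12, 6, 10, 8, 1], .l [2, 7], .l [8, 5], .y [2, 8, 6, 4], .l [11, 8, 8, 6, 6, 4, 4, 2, 5], .l [2, 10], .l [11, 8], .l [13, 10, 10, 8, 8, 6, 6, 4, 1], .l [2, 12], .l [13, 10], .l [2, 12], .l [15, 12, 12, 10, 10, 8, 8, 6, 1],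 .l [2, 14], .l [15, 12]]),
([p 5 1, g, p 2 0, g, p 3 2, g, p 0 3, p 4 0, g, s 1 4, g, p 0 5, g], .hi 2, [.l [4, 1, 12, 8, 10, 8, 8, 6, 1], .r 2158 [1, 6, 2, 3, 4, 5] [1, 1, 1, 1, 1, 1, 1], .l [4, 1], .l [1, 4, 1, 9, 6, 9, 2, 6, 6, 4, 1], .l [2, 3], .l [4, 1], .l [6, 3, 12, 6, 10, 8, 1], .l [2, 5], .l [6, 3], .y [2, 6, 4], .l [9, 6, 6, 4, 4, 2, 5], .l [2, 8], .l [9, 6], .l [11, 8, 8, 6, 6, 4, 1], .l [2, 10], .l [11, 8], .l [2, 10], .l [13, 10, 10, 8, 8, 6, 1], .l [2, 12], .l [13, 10]]),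
([p 4 1, g, p 2 0, g, p 0 2, p 3 0, g, s 1 3, g, p 0 4, g], .hi 2, [.l [4, 1, 10, 6, 8, 6, 1], .r 2159 [1, 5, 2, 3, 4] [1, 1, 1, 1, 1, 1], .l [4, 1], .l [1, 4, 1, 7, 4, 7, 2, 4, 1], .l [2, 3], .l [4, 1], .y [2, 4], .l [7, 4, 4, 2, 5], .l [2, 6], .l [7, 4], .l [9, 6, 6, 4, 1], .l [2, 8], .l [9, 6], .l [2, 8], .l [11, 8, 8, 6, 1], .l [2, 10], .l [11, 8]]),
([p 3 1, g, p 0 0, p 2 0, g, s 1 2, g, p 0 3, g], .hi 2, [.l [0, 6, 6, 4, 1], .r 2160 [1, 4, 2, 3] [1, 1, 1, 1, 1], .l [4, 1], .y [2], .l [0, 6, 6, 2, 3], .l [2, 4], .l [5, 2], .l [0, 4, 4, 2, 3], .l [2, 6], .l [7, 4], .l [2, 6], .l [0, 4, 4, 2, 5], .l [2, 8], .l [9, 6]]),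
([p 4 1, s 0 2, g, p 3 0, g, s 1 3, g, p 0 4, g, s 2 0, g], .bot 2, [.r 604 [1, 3] [1, 5], .r 2155 [1, 2, 3, 4] [1, 1, 1, 1, 1], .r 2161 [1, 3, 4] [2, 1, 1, 3], .r 2153 [1, 3, 4] [2, 1, 1, 3]]),
([p 3 1, s 0 0, g, p 2 0, g, s 1 2, g, p 0 3, g], .hi 1, [.y [1], .r 1053 [1, 4, 3] [1, 3, 1, 1], .l [2, 9, 6, 6, 1], .r 578 [1, 4, 3] [1, 3, 1, 1], .r 1053 [1, 4, 3] [3, 1, 1, 1], .l [4, 9, 4, 4, 1], .l [6, 9, 2, 4, 6, 4, 1], .r 989 [1, 4, 3] [3, 1, 1, 1], .l [5, 4, 5], .r 520 [1, 4, 3] [3, 1, 1, 1], .l [5, 4, 5], .r 2162 [1, 4, 2, 3] [1, 1, 1, 1, 1], .l [5, 4, 7], .l [4, 7, 2, 4, 6, 4, 1]]),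
([p 6 1, s 4 0, g, s 2 0, g, p 3 2, g, p 5 3, s 1 0, g, s 0 4, g, p 0 5, g, p 0 6, g], .hi 8, [.l [7, 1, 15, 8, 13, 11, 8, 6, 4, 5], .l [7, 1, 15, 8, 13, 11, 8], .l [10, 9, 10, 12, 9, 12, 1, 6, 4, 7], .l [7, 3, 15, 8, 11, 9, 10, 8, 4, 7], .r 2163 [1, 7, 6] [3, 4, 5, 1], .l [7, 3, 15, 8, 11, 9, 10], .l [6, 16, 9, 2, 12], .l [6, 16, 9, 2, 12], .l [5, 1, 15, 10, 13, 9, 10], .l [5, 1, 15, 10, 13, 11, 1, 10, 4, 8, 6, 3], .l [5, 1, 15, 10, 13, 11, 1], .l [5, 1, 9, 1, 11, 8, 1, 8, 3], .l [5, 1, 13, 8, 11, 9, 1, 8, 4, 6, 4, 3], .l [5, 1, 15, 10, 13, 11, 3, 10, 4, 6, 4, 5], .l [5, 1, 15, 10, 13, 11, 3], .l [5, 1, 11, 3, 11, 6, 1, 6, 1], .l [5, 1, 13, 8, 11, 9, 3], .l [6, 14, 5, 7, 1, 10, 12, 2, 3], .l [5, 1, 15, 10, 13, 11, 5],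 .l [6, 14, 5, 7, 1, 10, 12, 2, 3], .y [0, 8, 14], .l [5, 1, 13, 8, 11, 9, 10, 8, 4, 7], .l [5, 1, 13, 8, 11, 9, 10], .l [8, 7, 8, 10, 7, 10, 1, 10, 8, 5]]),
([p 5 1, s 3 0, g, p 2 0, g, p 4 2, s 1 0, g, s 0 3, g, p 0 4, g, p 0 5, g], .hi 3, [.r 2164 [1, 6, 2, 3, 4, 5] [1, 1, 1, 1, 1, 1, 1], .r 2147 [1, 6, 2, 3, 4, 5] [1, 1, 1, 1, 1, 1, 1], .l [5, 1], .l [5, 1, 9, 5, 2, 5], .l [3, 4], .l [5, 1], .l [8, 4, 4, 2, 4], .l [3, 7], .l [8, 4], .l [8, 4, 4, 2, 4], .l [10, 6, 6, 4, 6], .l [3, 9], .l [10, 6], .y [3, 10, 5], .l [12, 8, 8, 6, 8], .l [3, 11], .l [12, 8], .l [3, 11], .l [14, 10, 10, 8, 10], .l [3, 13], .l [14, 10]]),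
([p 4 1, s 3 0, g, p 2 0, g, p 5 2, s 1 0, g, s 0 3, g, p 0 4, g, p 6 5, g, p 0 6, g], .lo 10, [.l [6, 5, 6, 10, 7, 7, 5, 7, 3, 5, 1, 5, 1], .l [11, 14, 9, 12, 6, 3, 8, 6, 0, 3], .l [3, 11], .l [2, 12, 9, 8], .l [3, 9], .l [4, 10, 6, 3, 6, 8, 4, 3], .l [5, 11], .l [0, 7, 2, 10, 12, 3, 1, 6, 7, 5, 1, 7, 5], .y [0, 6, 10], .l [11, 14, 7, 12, 8, 3, 8, 6, 0, 1], .l [8, 11], .l [7, 12, 4, 3], .l [9, 14, 9, 12, 8, 5, 8, 6, 2, 1], .l [10, 11], .l [6, 5, 6, 12, 9, 9, 7, 9, 3, 5, 1, 7, 3], .l [9, 10, 0, 9, 11, 6, 9, 5, 2, 5], .l [7, 14, 11, 1, 6, 2, 2, 8, 3, 1, 5, 7, 3], .l [7, 14, 11, 7, 2, 2, 8, 2, 7, 9, 3, 5, 1], .l [9, 10, 0, 11, 13, 11, 11, 6, 9, 5, 2, 5], .l [6, 5, 6, 10, 7, 7, 5, 7, 3, 7, 3, 7, 1], .l [4, 10, 5, 0, 7, 2,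 9, 11, 9, 9, 7, 4, 1], .l [9, 12, 7, 10, 6, 3, 6, 4, 0, 7], .l [6, 5, 6, 10, 7, 7, 5, 7, 3, 9, 5, 7, 3], .l [9, 10, 0, 13]]),
([p 4 1, s 3 0, g, p 2 0, g, p 5 2, s 1 0, g, s 0 3, g, p 0 4, g, p 0 5, g], .lo 12, [.l [6, 5, 10], .l [2, 12, 9, 11, 11, 3, 6, 7, 4, 1], .l [3, 13], .l [2, 12, 9, 11], .y [3, 12, 5], .l [4, 10, 6, 3, 6, 8, 4, 7], .l [5, 13], .l [4, 7, 5, 11, 8, 10], .l [11, 12, 5, 10, 5, 0, 6], .l [13, 14, 5, 10, 6, 1, 6, 8, 2, 3], .l [8, 13], .l [7, 12, 4, 11], .l [9, 12, 2, 11, 11, 6, 9, 5, 2, 5], .l [10, 13], .l [9, 12, 2, 11], .l [11, 14, 7, 10, 6, 3, 6, 8, 4, 1], .l [12, 13], .l [11, 14, 7, 7, 5, 11, 8, 1], .l [11, 12, 5, 8, 4, 1, 4, 6, 2, 5], .r 2166 [1, 2, 3, 4, 5, 6] [1, 1, 1, 1, 1, 1, 1], .l [11, 12,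 5, 5, 3, 9, 6, 8]]),
([p 6 1, s 5 0, g, p 2 0, g, p 3 2, g, p 4 3, s 1 0, g, p 0 4, g, s 0 5, g, p 0 6, g], .hi 8, [.l [8, 14, 6, 1, 10, 3, 7, 8, 2, 8, 6, 3], .l [10, 9, 12, 10, 6, 8, 7, 7, 5, 5, 3, 7, 5], .l [4, 14, 10, 5, 7, 6, 6, 4, 8, 5, 8, 2, 5], .l [10, 4, 6, 4, 4, 2, 4], .l [10, 9, 12, 8, 4, 6, 5, 5, 3, 9, 7, 3, 1], .l [0, 9, 11, 10, 10, 8, 8, 4, 6, 3, 8, 4, 1], .l [6, 16, 9, 2, 12], .l [6, 16, 9, 2, 12], .l [0, 9, 11, 10, 10, 6, 6, 4, 6, 3, 8, 4, 1], .l [9, 12, 9, 14, 7, 2, 10], .l [8, 7, 12, 5, 1, 5, 1, 11, 7, 9, 7, 7, 5], .l [0, 7, 11, 10, 10, 8, 8, 6, 4, 1, 8, 6, 3], .l [8, 7, 10, 3, 1, 3, 1, 9, 7, 7, 5, 5, 3], .l [6, 12, 3, 5, 1, 8, 8, 6, 10, 4, 5], .l [13, 16, 2, 2, 8, 10, 9, 9, 7, 7, 5, 3, 5], .l [0, 7,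 9, 8, 8, 6, 6, 4, 6, 3, 8, 4, 1], .l [8, 7, 10, 10, 6, 8, 7, 7, 5, 5, 3, 5, 3], .l [6, 14, 5, 7, 1, 10, 10, 8, 10, 2, 5], .l [8, 13, 13, 10, 8, 11, 5, 2, 7, 7, 5, 7, 3], .l [0, 7, 9, 8, 8, 6, 6, 4, 8, 5, 8, 2, 3], .y [0, 8, 14], .l [6, 16, 7, 9, 1, 12, 5, 10, 1], .l [11, 14, 2, 2, 8, 10, 9, 9, 7, 7, 5, 3, 5], .l [8, 7, 10, 14, 10, 12, 11, 11, 9, 9, 7, 5, 1]]),
([p 6 1, s 5 0, g, s 2 0, g, p 3 2, g, p 4 3, s 1 0, g, p 0 4, g, s 0 5, g, p 0 6, g], .hi 8, [.l [7, 1, 15, 8, 13, 11, 8, 4, 2, 5], .l [7, 1, 15, 8, 13, 11, 8], .r 2142 [1, 7, 5, 6] [1, 6, 3, 1, 1], .l [7, 3, 15, 8, 11, 9, 10, 6, 2, 7], .l [8, 14, 6, 1, 10, 1, 7, 10, 2, 7], .l [7, 3, 15, 8, 11, 9, 10], .l [6, 16, 9, 2, 12], .l [6, 16, 9, 2, 12], .l [5, 1, 15, 10,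 13, 9, 10], .l [5, 1, 15, 10, 13, 11, 1, 10, 6, 8, 4, 5], .l [5, 1, 15, 10, 13, 11, 1], .l [5, 1, 9, 1, 9, 6, 1, 6, 1], .l [5, 1, 13, 8, 11, 9, 1], .l [5, 1, 15, 10, 13, 11, 3, 5, 6, 3], .l [5, 1, 15, 10, 13, 11, 3], .l [6, 12, 3, 5, 1, 8, 12, 4, 5], .l [5, 1, 13, 8, 11, 9, 3, 3, 4, 3], .l [6, 14, 5, 7, 1, 10, 12, 2, 5], .l [5, 1, 15, 10, 13, 11, 5], .l [6, 14, 5, 7, 1, 10, 12, 2, 5], .y [0, 8, 14], .l [5, 1, 13, 8, 11, 9, 10, 6, 2, 7], .l [5, 1, 13, 8, 11, 9, 10], .l [6, 16, 7, 9, 1, 12, 5, 10, 1]]),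
([p 5 1, s 4 0, g, p 2 0, g, p 3 2, s 1 0, g, p 0 3, g, s 0 4, g, p 0 5, g], .hi 3, [.r 2169 [1, 6, 2, 3, 4, 5] [1, 1, 1, 1, 1, 1, 1], .r 2168 [1, 6, 2, 3, 4, 5] [1, 1, 1, 1, 1, 1, 1], .l [5, 1], .l [5, 1, 11, 7, 2, 7], .l [3, 4], .l [5, 1], .l [8, 4, 4, 2, 4], .l [3, 7], .l [8, 4], .y [3, 8, 5], .l [10, 6, 6, 4, 6], .l [3, 9], .l [10, 6], .l [10, 6, 6, 4, 6], .l [12, 8, 8, 6, 8], .l [3, 11], .l [12, 8], .l [3, 11], .l [14, 10, 10, 8, 10], .l [3, 13], .l [14, 10]]),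
([p 4 1, s 3 0, g, p 2 0, g, p 0 2, s 1 0, g, s 0 3, g, p 0 4, g], .lo 5, [.l [4, 5, 3, 9, 6, 6, 3], .l [2, 12, 9, 3, 6, 7, 4, 1], .l [3, 6], .l [2, 12, 9, 3], .y [3, 5], .l [4, 10, 6, 3, 6, 8, 4, 1], .l [5, 6], .l [4, 7, 5, 11, 8, 1], .l [4, 10, 5, 0, 6], .l [4, 10, 6, 1, 6, 8, 2, 3], .r 2170 [1, 2, 5, 3, 4] [1, 1, 1, 1, 1, 1], .l [4, 5, 3, 11, 8, 3], .l [4, 8, 4, 1, 4, 8, 4, 1], .r 2165 [1, 2, 3, 5, 4] [1, 1, 1, 1, 1, 1], .l [4, 5, 3, 11, 8, 5], .l [4, 8, 4, 1, 4, 6, 2, 5], .r 2167 [1, 2, 3, 4, 5] [1, 1, 1, 1, 1, 1], .l [4, 5, 3, 9, 6, 8]]),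
([p 3 1, s 2 0, g, p 0 0, s 1 0, g, s 0 2, g, p 0 3, g], .hi 3, [.l [0, 5, 1], .r 2171 [1, 4, 2, 3] [1, 1, 1, 1, 1], .l [5, 1], .y [3], .l [0, 3, 4], .l [3, 5], .l [6, 2], .l [0, 3, 4], .l [0, 3, 6], .l [3, 7], .l [8, 4], .l [3, 7], .l [0, 3, 8], .l [3, 9], .l [10, 6]]),
([p 0 1, s 0 0, s 1 0, g], .hi 1, [.l [0], .y [1], .r 894 [1, 2] [1, 1], .l [0, 1, 2], .l [4, 2, 2]]),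
([p 3 1, s 2 0, g, s 0 0, s 1 0, g, s 0 2, g, p 0 3, g], .hi 3, [.l [7, 10, 2, 2, 6, 1], .r 805 [1, 4, 2, 3] [1, 1, 1, 1, 1], .l [0, 5, 1], .y [3], .l [0, 3, 4, 8, 6, 3], .l [0, 3, 4], .l [6, 2, 4], .r 896 [1, 4, 3] [1, 1, 1, 1], .l [0, 3, 6, 8, 4, 5], .l [0, 3, 6], .l [8, 4, 6], .l [0, 3, 6], .l [5, 8, 2, 2, 4, 5], .l [0, 3, 8], .l [10, 6, 8]]),
([p 3 1, s 2 0, g, s 1 0, g, s 0 2, g, p 0 3, g], .bot 2, [.r 2173 [1] [5], .r 2174 [1, 2, 3] [1, 1, 1, 1], .r 2172 [1, 2, 3] [1, 1, 1, 1], .r 2146 [1, 2, 3] [1, 1, 1, 1]])]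

def d08_2 : List (List Item × Qry × List Rf) := [
([p 5 1, s 0 2, g, m 0 3, g, p 4 0, g, s 3 4, s 1 0, g, p 0 5, g, s 2 0, g], .hi 8, [.l [6, 10, 3, 7, 1, 5, 2, 1], .l [8, 12, 3, 9, 1, 7, 4, 8, 6, 1], .l [8, 12, 3, 9, 1, 7, 4], .l [4, 12, 7, 3, 6, 1, 8, 6, 1], .l [3, 7, 6], .l [4, 12, 7, 4, 8, 10, 8, 1], .l [4, 12, 7, 4, 8], .l [5, 9, 6], .l [7, 9, 6, 1, 4, 6, 4, 7], .l [6, 12, 5, 2, 6], .l [7, 9, 4], .l [8, 7, 12, 8, 1, 8, 6, 1], .l [6, 12, 5, 9, 1, 7, 1], .l [2, 12, 9, 3, 6, 1, 6, 4, 1], .y [0, 8, 10], .l [6, 10, 3, 7, 1, 5, 6, 8, 4, 1], .l [6, 10, 3, 7, 1, 5, 6], .l [2, 10, 7, 3, 6, 1, 8, 6, 1], .l [8, 7, 10, 6, 1, 6, 4, 7], .l [6, 10, 3, 7, 1, 5, 8], .l [2, 10, 7, 3, 6, 1, 10, 8, 1]]),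
([p 5 1, s 0 2, g, p 4 0, g, m 0 3, g, s 3 4, s 1 0, g, p 0 5, g, s 2 0, g], .hi 8, [.l [6, 10, 3, 7, 1, 5, 2, 1], .l [8, 12, 3, 9, 1, 7, 4, 8, 6, 1], .l [8, 12, 3, 9, 1, 7, 4], .l [4, 12, 7, 3, 6, 1, 8, 6, 1], .l [4, 12, 7, 4, 8, 10, 8, 1], .l [4, 12, 7, 4, 8], .l [5, 9, 6], .l [5, 7, 6], .l [7, 9, 6, 1, 4, 6, 4, 7], .l [6, 12, 5, 2, 8], .l [7, 9, 6], .l [8, 7, 12, 8, 1, 8, 6, 1], .l [6, 12, 5, 9, 1, 7, 1], .l [2, 12, 9, 3, 6, 1, 6, 4, 1], .y [0, 8, 10], .l [6, 10, 3, 7, 1, 5, 6, 8, 4, 1], .l [6, 10, 3, 7, 1, 5, 6], .l [2, 10, 7, 3, 6, 1, 8, 6, 1], .l [8, 7, 10, 6, 1, 6, 4, 7], .l [6, 10, 3, 7, 1, 5, 8], .l [2, 10, 7, 3, 6, 1, 10, 8, 1]]),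
([p 5 1, s 6 2, g, s 3 0, g, p 4 3, g, s 0 4, s 1 0, g, p 0 5, g, s 2 0, g, p 0 6, g], .lo 7, [.l [7, 1, 15, 9, 2, 9], .l [0, 9, 5], .l [7, 1, 13, 7, 2, 7], .y [3, 7, 5], .l [7, 3, 15, 9, 2, 11], .l [0, 9, 3], .r 2176 [1, 2, 7, 4, 5] [3, 1, 1, 1, 1, 3], .l [5, 1, 15, 11, 4, 1], .l [0, 9, 1], .r 2177 [1, 2, 7, 4, 5] [3, 1, 1, 1, 1, 3], .c, .l [0, 7, 8, 10, 8, 9], .l [10, 2, 8], .l [0, 7, 8], .l [12, 4, 10, 11, 7, 1], .l [12, 4, 10], .l [0, 7, 10], .l [5, 1, 11, 7, 2, 5], .l [14, 6, 12, 7, 3, 1], .l [14, 6, 12], .l [0, 7, 12], .l [16, 8, 14, 7], .l [16, 8, 14], .l [0, 7, 14]]),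
([p 4 1, s 6 0, g, p 2 0, g, p 3 2, g, s 0 3, s 1 0, g, p 0 4, p 5 0, g, p 0 5, g, p 0 6, g], .hi 11, [.l [13, 9, 16, 4, 0, 6, 3], .l [8, 12, 3, 9, 11, 7, 5, 7, 9, 7, 9, 7, 1], .l [13, 9], .l [13, 7, 9, 7, 14, 4, 0, 8, 5], .l [6, 17, 11, 6, 5, 1, 5, 11, 1, 5, 1, 7, 1], .l [13, 7], .l [13, 5, 16, 4, 0, 10, 7], .l [10, 13, 9, 16, 10, 5, 12, 9, 1, 3, 7, 9, 7], .l [13, 5], .l [11, 3, 9], .l [13, 2, 16, 4, 0, 13, 10], .l [5, 12, 6, 16, 8, 11, 6, 7, 10, 6, 4, 8, 5], .l [13, 2], .l [5, 10, 4, 14, 8, 9, 4, 5, 8, 6, 4, 6, 3], .l [4, 5, 3, 11, 1, 11, 9, 5, 1], .l [11, 12], .l [13, 1], .y [11, 13], .l [15, 3, 9, 1, 12, 7, 1], .l [11, 14], .l [15, 3], .l [11, 14], .l [17, 5, 11, 1, 14, 9, 3], .l [11, 16], .l [17, 5]]),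
([p 4 1, s 6 2, g, p 3 0, g, s 0 3, s 1 0, g, p 0 4, p 5 0, g, p 0 5, g, s 2 0, g, p 0 6, g], .hi 3, [.r 2178 [1, 2, 7, 3, 4, 6] [1, 1, 1, 1, 4, 1, 1], .r 2179 [1, 7, 3, 4, 5, 6] [1, 1, 1, 1, 1, 3, 1], .l [5, 1], .l [5, 1, 14, 10, 2, 10], .l [3, 4], .l [5, 1], .y [3, 5], .l [3, 7, 14, 8, 9, 5, 12, 7, 4, 1], .l [3, 7], .l [8, 4], .l [3, 7], .l [3, 10, 12, 10, 4], .l [3, 10], .l [11, 7], .l [3, 10], .l [13, 9, 9, 7, 9, 10], .l [3, 12], .l [13, 9], .l [3, 14, 1, 10, 2, 10], .l [3, 14], .l [15, 11], .l [3, 14], .l [3, 16, 3, 12, 2, 12], .l [3, 16], .l [17, 13]]),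
([p 4 1, s 5 2, g, s 3 0, g, s 0 3, s 1 0, s 0 0, g, p 0 4, g, s 2 0, g, p 0 5, g], .hi 7, [.l [13, 11, 12, 2, 12, 10, 2, 6], .l [6, 11, 4, 8, 12, 8, 2, 8], .l [8, 7, 10, 2, 6], .l [13, 11, 12, 2, 12, 10, 2, 4], .l [6, 11, 4, 6, 12, 10, 2, 4], .l [8, 7, 10, 2, 4], .l [0, 5, 5, 7, 6, 7], .y [7], .l [8, 11, 2, 8, 5, 8], .l [6, 5, 10, 4, 1], .l [9, 1, 14, 6, 10, 1], .l [6, 5, 8, 2, 1], .l [13, 11, 12, 4, 12, 8, 2, 8], .l [6, 5, 8, 2, 8], .l [13, 11, 12, 4, 12, 8, 2, 8], .l [11, 9, 10, 2, 12, 10, 2, 6], .l [6, 5, 8, 2, 10], .l [11, 9, 14, 4, 8, 5], .l [6, 5, 8, 2, 10], .l [11, 9, 10, 2, 10, 8, 2, 8], .l [6, 5, 8, 2, 12], .r 2052 [1, 2, 6, 4] [4, 1, 1, 3, 1]]),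
([p 3 1, s 5 0, g, s 1 0, m 0 2, g, m 2 0, g, p 0 3, p 4 0, g, p 0 4, g, p 0 5, g], .hi 6, [.l [7, 8, 6, 4, 7, 2, 3], .l [2, 10, 7, 4], .l [3, 7], .y [4, 6], .l [5, 8, 6, 2, 7, 4, 1], .l [5, 8, 6, 2, 7, 4, 1], .l [6, 7], .l [5, 6, 4, 2, 7, 4, 1], .l [5, 6, 4, 2, 7, 4, 1], .l [5, 15, 10, 1, 12, 10, 1, 9, 6], .l [5, 6, 4, 2, 5, 2, 1], .l [5, 6, 4, 2, 5, 2, 6], .l [5, 6, 4, 2, 5, 2, 6], .l [6, 11, 10, 14, 9, 5, 11, 5, 1, 6, 1], .l [5, 6, 4, 2, 5, 2, 6], .l [5, 6, 4, 2, 5, 2, 8], .l [5, 6, 4, 2, 5, 2, 8], .l [9, 13, 9, 9, 7, 2, 8, 5, 10, 2, 7], .l [5, 6, 4, 2, 5, 2, 8], .l [5, 6, 4, 2, 5, 2, 10], .l [5, 6, 4, 2, 5, 2, 10], .l [9, 15, 11, 11, 9, 2, 10, 7, 1, 8, 5]]),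
([p 2 1, s 4 0, g, s 1 0, m 0 0, g, p 0 2, p 3 0, g, p 0 3, g, p 0 4, g], .hi 4, [.l [5, 4, 7, 2, 3], .l [2, 8, 5, 2], .l [3, 5], .y [4], .l [3, 2, 7, 4, 1], .l [3, 2, 7, 4, 1], .r 2182 [1, 5, 2, 3, 4] [1, 1, 1, 1, 1, 1], .l [3, 2, 5, 2, 1], .l [3, 2, 5, 2, 6], .l [3, 2, 5, 2, 6], .l [4, 13, 9, 5, 11, 5, 1, 6, 1], .l [3, 2, 5, 2, 6], .l [3, 2, 5, 2, 8], .l [3, 2, 5, 2, 8], .l [7, 11, 7, 2, 8, 5, 10, 2, 7], .l [3, 2, 5, 2, 8], .l [3, 2, 5, 2, 10], .l [3, 2, 5, 2, 10], .l [7, 13, 9, 2, 10, 7, 1, 8, 5]]),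
([p 3 1, s 4 2, g, s 1 0, m 0 0, g, p 0 3, p 0 0, g, s 2 0, g, p 0 4, g], .lo 7, [.l [3, 8, 4], .l [3, 8], .l [1, 10, 7, 5, 6], .l [0, 2, 2, 5, 4], .l [1, 8, 4, 2, 5], .l [6, 8, 1], .l [6, 8], .l [1, 10, 4, 2, 6], .y [7], .l [11, 9, 10, 5, 1, 9, 5, 2], .r 2183 [1, 3, 5, 4] [1, 1, 1, 3, 1], .l [11, 9, 10, 5, 1], .l [1, 8, 8, 6, 4], .l [13, 11, 12, 7, 3], .l [1, 8, 10, 8, 4], .l [9, 7, 8, 3, 7], .l [11, 9, 10, 5, 9], .l [1, 8, 12, 10, 4], .l [9, 7, 8, 3, 9]]),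
([p 3 1, s 5 0, g, s 1 0, p 2 0, g, p 0 2, g, p 0 3, p 4 0, g, p 0 4, g, p 0 5, g], .lo 6, [.l [3, 2, 4], .l [7, 8, 6, 4, 7, 2, 3], .l [3, 7], .l [2, 10, 7, 4], .l [3, 5, 12, 8, 1, 8, 5], .y [4, 6], .l [5, 8, 6, 2, 7, 4, 1], .l [6, 7], .l [5, 8, 6, 2, 7, 4, 1], .l [5, 6, 4, 2, 7, 4, 1], .l [5, 15, 10, 1, 12, 10, 1, 9, 6], .l [5, 6, 4, 2, 7, 4, 1], .l [6, 9, 8, 12, 7, 3, 9, 5, 1, 6, 1], .l [5, 6, 4, 2, 5, 2, 6], .l [6, 11, 10, 14, 9, 5, 11, 5, 1, 6, 1], .l [5, 6, 4, 2, 5, 2, 6], .l [5, 6, 4, 2, 5, 2, 8], .l [9, 13, 9, 9, 7, 2, 8, 5, 10, 2, 7], .l [5, 6, 4, 2, 5, 2, 8], .l [5, 6, 4, 2, 5, 2, 10], .l [9, 15, 11, 11, 9, 2, 10, 7, 1, 8, 5], .l [5, 6, 4, 2, 5, 2, 10]]),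
([p 2 1, s 4 0, g, s 1 0, p 0 0, g, p 0 2, p 3 0, g, p 0 3, g, p 0 4, g], .lo 4, [.l [3, 2, 2], .l [5, 4, 7, 2, 3], .l [3, 5], .l [2, 8, 5, 2], .c, .y [4], .l [3, 2, 7, 4, 1], .r 2185 [1, 5, 2, 3, 4] [1, 1, 1, 1, 1, 1], .l [3, 2, 7, 4, 1], .l [4, 11, 7, 3, 9, 5, 1, 6, 1], .l [3, 2, 5, 2, 6], .l [4, 13, 9, 5, 11, 5, 1, 6, 1], .l [3, 2, 5, 2, 6], .l [3, 2, 5, 2, 8], .l [7, 11, 7, 2, 8, 5, 10, 2, 7], .l [3, 2, 5, 2, 8], .l [3, 2, 5, 2, 10], .l [7, 13, 9, 2, 10, 7, 1, 8, 5], .l [3, 2, 5, 2, 10]]),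
([p 3 1, s 4 2, g, s 1 0, p 0 0, g, p 0 3, p 0 0, g, s 2 0, g, p 0 4, g], .lo 7, [.l [3, 8, 4], .l [3, 8], .l [1, 10, 7, 5, 6], .l [0, 2, 2, 5, 4], .l [4, 6], .l [6, 8, 1], .l [6, 8], .l [1, 10, 4, 2, 6], .y [7], .l [11, 9, 10, 5, 1, 9, 5, 2], .r 2186 [1, 3, 5, 4] [1, 1, 1, 3, 1], .l [11, 9, 10, 5, 1], .l [1, 8, 8, 6, 4], .l [13, 11, 12, 7, 3], .l [1, 8, 10, 8, 4], .l [9, 7, 8, 3, 7], .l [11, 9, 10, 5, 9], .l [1, 8, 12, 10, 4], .l [9, 7, 8, 3, 9]]),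
([p 4 1, s 5 2, g, s 3 0, g, s 0 3, s 1 0, g, p 0 4, p 0 0, g, s 2 0, g, p 0 5, g], .top 7, [.r 1003 [1, 4] [5, 6], .r 2181 [1, 2, 3, 4, 5] [1, 1, 1, 2, 1, 1], .r 2187 [1, 2, 4, 5] [4, 1, 1, 1, 1], .r 2184 [1, 2, 4, 5] [4, 1, 1, 1, 1]]),
([p 3 1, s 5 2, g, s 0 0, s 1 0, g, p 0 3, p 4 0, g, p 0 4, g, s 2 0, g, p 0 5, g], .hi 3, [.r 2188 [1, 2, 6, 3, 5] [1, 1, 1, 3, 1, 1], .r 2180 [1, 2, 6, 3, 4, 5] [1, 1, 1, 1, 1, 1, 1], .l [0, 5, 1], .y [3], .l [0, 3, 4, 6, 4, 9], .l [0, 3, 4], .l [6, 2, 4], .l [0, 3, 4], .l [3, 8, 10, 8, 2], .l [0, 3, 7], .l [9, 5, 7], .l [0, 3, 7], .l [15, 13, 9, 7, 11, 1], .l [0, 3, 9], .l [11, 7, 9], .l [15, 13, 11, 9, 11, 3], .l [0, 3, 11], .l [13, 9, 11], .l [0, 3, 11], .l [15, 11, 13, 3], .l [0,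 3, 13], .l [15, 11, 13]]),
([p 4 1, s 5 2, g, s 3 0, g, s 0 3, s 1 0, s 0 0, g, p 0 4, g, p 0 5, g, s 2 0, g], .hi 7, [.l [13, 11, 1, 5, 9, 10], .l [6, 11, 4, 8, 10, 6, 2, 6], .l [8, 7, 10, 2, 6], .l [13, 11, 3, 5, 9, 10], .l [6, 11, 4, 6, 10, 8, 2, 4], .l [8, 7, 10, 2, 4], .l [0, 5, 5, 7, 6, 9], .y [7], .l [8, 11, 2, 8, 5, 10], .l [6, 5, 10, 4, 1], .l [9, 1, 12, 4, 8, 1], .l [6, 5, 8, 2, 1], .l [13, 11, 12, 4, 12, 8, 2, 8], .l [6, 5, 8, 2, 8], .l [11, 3, 10, 8, 10, 2, 6, 1], .l [6, 5, 8, 2, 8], .l [11, 9, 10, 2, 12, 10, 2, 6], .l [6, 5, 8, 2, 10], .l [11, 9, 14, 4, 8, 5], .l [11, 9, 10, 2, 10, 8, 2, 8], .l [6, 5, 8, 2, 12], .r 2052 [1, 2, 6, 4] [4, 1, 3, 1, 1]]),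
([p 4 1, s 6 2, g, s 3 0, g, s 0 3, s 1 0, g, p 0 4, p 5 0, g, p 0 5, g, p 0 6, g, s 2 0, g], .top 7, [.r 1003 [1, 4] [5, 8], .r 2190 [1, 2, 3, 4, 6] [1, 1, 1, 4, 1, 1], .r 2186 [1, 4, 5, 6] [4, 1, 1, 1, 3], .r 2183 [1, 4, 5, 6] [4, 1, 1, 1, 3]]),
([p 3 1, s 5 2, g, s 0 0, s 1 0, g, p 0 3, p 4 0, g, p 0 4, g, p 0 5, g, s 2 0, g], .hi 3, [.r 2191 [1, 2, 6, 3, 4, 5] [1, 1, 1, 1, 1, 1, 1], .r 2046 [1, 2, 6, 5] [1, 1, 6, 1, 1], .l [0, 5, 1], .y [3], .l [0, 3, 4, 6, 4, 11], .l [0, 3, 4], .l [6, 2, 4], .l [0, 3, 4], .l [3, 8, 10, 8, 2], .l [0, 3, 7], .l [9, 5, 7], .l [0, 3, 7], .l [13, 11, 9, 7, 9, 10], .l [0, 3, 9], .l [11, 7, 9], .l [0, 3, 9], .l [13, 9, 11, 3], .l [0, 3, 11], .l [13, 9, 11], .l [15, 11, 13, 5], .l [0, 3,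 13], .l [15, 11, 13]]),
([p 2 1, s 4 0, g, s 0 0, s 1 0, g, p 0 2, p 3 0, g, p 0 3, g, p 0 4, g], .hi 1, [.r 1053 [1, 5, 2] [1, 2, 1, 6], .l [2, 8, 5, 5, 1], .l [3, 1, 12, 10, 2], .r 1053 [1, 5, 2] [1, 0, 1, 6], .r 927 [1, 5, 2] [1, 1, 1, 6], .l [4, 3, 4], .l [6, 4, 12, 7, 8], .l [4, 3, 4], .l [1, 8, 10, 8, 4], .l [0, 6, 5, 7, 9, 7, 1], .l [9, 7, 8, 3, 10, 7, 1], .l [0, 6, 5, 7, 7, 5, 1], .r 2189 [1, 5, 2, 3, 4] [1, 1, 1, 1, 1, 1], .l [4, 3, 9], .l [11, 9, 10, 5, 10, 5, 1], .y [1, 11], .r 2192 [1, 5, 2, 3, 4] [1, 1, 1, 1, 1, 1], .l [4, 3, 11], .l [11, 9, 10, 5, 10, 5, 1]]),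
([p 2 1, s 4 0, g, s 1 0, g, p 0 2, p 3 0, g, p 0 3, g, p 0 4, g], .bot 2, [.l [9, 7, 7], .r 2193 [1, 2, 3, 4] [1, 1, 1, 1, 1], .r 1681 [1, 4] [1, 6, 1], .r 1683 [1, 4] [1, 6, 1]]),
([p 2 1, s 3 0, g, s 1 0, g, p 4 2, p 0 0, g, p 0 3, g, p 0 4, g], .lo 6, [.l [0, 5, 4, 4, 1], .l [3, 7, 3], .l [3, 7], .l [2, 7, 4, 6], .l [0, 2, 2, 3, 2], .l [5, 7, 1], .l [5, 7], .l [4, 7, 2, 6], .y [6], .l [10, 8, 9, 5, 1], .r 2194 [1, 2, 5, 3] [1, 1, 1, 1, 3], .l [5, 12, 11, 11, 6, 1], .l [8, 6, 7, 3, 6], .l [3, 8, 5, 6, 8, 4, 1], .l [5, 12, 11, 11, 6, 3], .l [8, 6, 7, 3, 8], .l [3, 8, 5, 6, 10, 6, 1], .l [5, 10, 9, 9, 4, 8]]),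
([p 4 1, s 0 0, g, s 1 0, g, s 0 2, g, s 2 3, p 5 4, p 0 0, g, m 3 0, g, p 0 5, g], .lo 1, [.y [1], .r 1018 [1, 6, 4] [1, 1, 4, 6], .r 1556 [1, 6, 4] [1, 1, 4, 6], .l [2, 10, 7, 7, 4], .l [2, 8, 5, 5, 4], .r 2175 [1, 6, 4] [1, 1, 4, 6], .r 2050 [1, 6, 4] [1, 1, 4, 6], .l [3, 2, 3], .r 2175 [1, 6, 4] [1, 3, 2, 6], .r 2050 [1, 6, 4] [1, 3, 2, 6], .l [3, 2, 5], .r 1615 [1, 4, 6] [1, 4, 5], .l [3, 2, 9, 13, 10, 1], .r 2195 [1, 4, 6, 5] [1, 4, 1, 3, 1], .l [3, 2, 9], .l [3, 2, 9], .l [3, 2, 11, 13, 8, 1], .l [13, 11, 12, 5, 12, 6, 8], .l [3, 2, 11], .l [14, 9, 1, 9, 10, 10, 6, 2, 6, 1], .l [15, 13, 14, 7, 2, 7, 2], .l [3, 2, 13]]),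
([p 3 1, s 0 0, g, s 1 0, g, s 0 2, p 5 3, p 4 0, g, m 2 0, g, p 0 4, g, p 0 5, g], .lo 5, [.r 989 [1, 6, 3] [1, 1, 0, 8], .r 2128 [1, 6, 2, 3, 4] [1, 1, 1, 0, 1, 1, 3], .l [0, 4, 10, 3, 8, 4, 9, 2, 6], .l [0, 4, 8, 13, 11, 4, 8, 9, 2], .l [3, 2, 8, 3, 5, 1, 10, 5, 8, 2, 3], .r 2196 [1, 6, 2, 3, 5] [1, 1, 1, 1, 3, 1], .l [3, 2, 8, 14, 12, 1, 9, 10, 3], .l [3, 2, 10, 3, 5, 1, 10, 6, 1], .l [7, 1, 8, 6, 9, 2, 3], .l [5, 8, 12, 10, 0], .l [9, 3, 10, 6, 11, 2, 5], .l [5, 8, 12, 10, 0], .y [5, 9], .l [5, 10, 12, 8, 0], .l [9, 3, 10, 6, 11, 2, 5], .l [5, 10, 12, 8, 0], .l [9, 3, 12, 8, 4, 9, 3], .l [9, 3, 12, 8, 4, 9, 3], .l [12, 7, 11, 9, 12, 2, 8], .l [9, 3, 14, 10, 4, 11, 5], .l [9, 3, 14, 10, 4, 11, 5], .l [14, 9, 13, 11,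 2, 11, 4]]),
([p 3 1, g, s 1 0, g, s 0 2, p 5 3, p 4 0, g, m 2 0, g, p 0 4, g, p 0 5, g], .top 1, [.c, .r 2197 [1, 2, 3, 4, 5] [1, 1, 1, 1, 1, 1], .r 334 [] [13], .r 444 [] [13]]),
([p 3 1, g, s 1 0, g, s 0 2, p 0 3, p 4 0, g, m 2 0, g, p 0 4, g], .lo 5, [.l [10, 3, 6], .l [2, 6], .l [1, 7, 5, 4], .y [0, 2, 5], .l [10, 3, 4], .l [4, 6], .l [3, 7, 3, 2], .r 2132 [1, 2, 3, 5, 4] [1, 1, 1, 1, 1], .l [10, 5, 2], .r 2130 [2, 3, 5, 4] [3, 1, 1, 1, 1], .l [4, 5, 0, 6], .l [4, 5, 0, 6], .l [8, 3, 8], .l [8, 3, 6, 9, 2, 6, 8, 4, 1], .l [4, 5, 0, 8], .l [8, 3, 10], .r 2198 [1, 2, 3, 4, 5] [1, 1, 1, 1, 1, 1], .l [4, 5, 0, 10]]),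
([p 2 0, g, s 0 1, p 0 2, p 3 0, g, m 1 0, g, p 0 3, g], .hi 0, [.r 2199 [4, 1, 2, 3] [1, 1, 1, 1, 1], .l [0, 1], .l [2, 1], .r 1003 [4, 2] [1, 6], .y [0, 3], .l [0, 5, 9, 7, 2], .l [0, 5], .l [6, 5], .l [0, 7, 9, 5, 2], .l [0, 7], .l [8, 7], .l [0, 7], .r 2042 [4, 2, 3] [2, 3, 1, 1], .l [0, 9], .l [10, 9]]),
([p 3 0, g, s 0 1, g, s 1 2, p 0 3, p 0 0, g, m 2 0, g], .lo 6, [.l [0, 5], .l [2, 7, 4], .l [2, 7], .l [1, 7, 5, 6], .l [4, 7, 2], .l [4, 7], .l [2, 5, 9, 3, 5, 4, 5], .y [6], .l [10, 5, 9, 8, 1], .r 2122 [1, 2, 3, 4] [1, 1, 1, 1, 1], .l [2, 3, 9, 5, 7, 6, 1], .l [2, 3, 7, 3, 5, 4, 1], .l [8, 3, 7, 6, 7], .r 2200 [2, 3, 4] [3, 1, 1, 1], .l [2, 3, 7, 3, 5, 4, 5]]),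
([p 2 0, g, s 3 1, g, p 0 2, p 0 3, g, m 1 0, g], .lo 5, [.l [0, 4], .l [2, 6, 3], .l [2, 6], .l [1, 6, 4, 5], .l [4, 6, 1], .l [4, 6], .l [3, 6, 2, 5], .l [5, 2, 4, 2, 3], .l [5, 2, 8, 5, 1, 4, 1], .l [5, 2, 4, 2, 3], .y [2, 7, 5], .l [5, 2, 4, 2, 5], .l [5, 2, 6, 3, 6, 2, 3], .l [5, 2, 4, 2, 5]]),
([p 5 0, g, p 1 0, g, p 2 1, g, p 3 2, g, p 6 3, g, s 8 4, p 0 5, p 7 6, g, p 0 7, g, p 0 8, g, m 4 0, g], .hi 2, [.l [11, 14, 12, 12, 10, 10, 8, 8, 6, 10, 5, 8, 6, 9, 5, 2, 5], .l [6, 13, 6, 1, 10, 11, 2, 15, 10, 10, 1, 5, 10, 7, 3, 7, 7, 5], .l [4, 1], .l [11, 14, 12, 12, 10, 10, 8, 8, 4, 12, 9, 3, 1, 4, 2, 6, 1], .l [2, 3], .l [4, 1], .l [6, 3, 17, 5, 17, 11, 1, 13, 7, 1, 7, 10, 7], .l [2, 5], .l [6, 3], .l [2, 7, 9, 7,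 15, 5, 15, 9, 1, 11, 5, 9, 3, 8, 3], .l [2, 7], .l [8, 5], .l [10, 7, 7, 5, 15, 5, 15, 9, 5, 11, 5, 7, 1, 8, 5], .l [2, 9], .l [10, 7], .l [2, 10], .l [2, 13, 15, 13, 8], .l [2, 13], .l [14, 11], .y [2, 14, 12, 8, 6, 4], .l [20, 9, 5, 16, 16, 14, 14, 12, 12, 10, 10, 3, 8, 1, 8, 4, 1], .l [2, 15], .l [16, 13], .l [2, 15], .l [9, 12, 10, 10, 8, 8, 6, 6, 4, 4, 8, 10, 3, 8, 4, 6, 3], .l [2, 17], .l [18, 15], .l [16, 5, 17, 11, 1, 13, 7, 14, 4, 1, 6, 4, 7], .l [2, 19], .l [20, 17]]),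
([p 4 0, g, p 1 0, g, p 2 1, g, p 5 2, g, s 7 3, p 0 4, p 6 5, g, p 0 6, g, p 0 7, g, m 3 0, g], .hi 2, [.l [9, 12, 10, 10, 8, 8, 6, 10, 5, 8, 6, 9, 5, 2, 5], .r 2203 [8, 1, 2, 3, 4, 5, 6, 7] [1, 1, 1, 1, 1, 1, 1, 1, 1], .l [4, 1], .l [9, 12, 10, 10, 8, 8, 4, 12, 9, 3, 1, 4, 2, 6, 1], .l [2, 3], .l [4, 1], .l [2, 5, 15, 5, 15, 9, 1, 11, 5, 9, 3, 8, 3], .l [2, 5], .l [6, 3], .l [8, 5, 15, 5, 15, 9, 5, 11, 5, 7, 1, 8, 5], .l [2, 7], .l [8, 5], .l [2, 8], .l [2, 11, 13, 11, 6], .l [2, 11], .l [12, 9], .y [2, 12, 10, 6, 4], .l [18, 9, 5, 14, 14, 12, 12, 10, 10, 3, 8, 1, 8, 4, 1], .l [2, 13], .l [14, 11], .l [2, 13], .l [7, 10, 8, 8, 6, 6, 4, 4, 8, 10, 3, 8, 4, 6, 3], .l [2, 15], .l [16, 13], .l [14, 5, 15, 9, 1, 11, 7, 12,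 4, 1, 4, 2, 5], .l [2, 17], .l [18, 15]]),
([p 3 0, g, p 1 0, g, p 4 1, g, s 6 2, p 0 3, p 5 4, g, p 0 5, g, p 0 6, g, m 2 0, g], .hi 2, [.l [7, 10, 8, 8, 6, 10, 5, 8, 6, 9, 5, 2, 5], .r 2204 [7, 1, 2, 3, 4, 5, 6] [1, 1, 1, 1, 1, 1, 1, 1], .l [4, 1], .l [7, 10, 8, 8, 4, 12, 9, 3, 1, 4, 2, 6, 1], .l [2, 3], .l [4, 1], .l [14, 5, 9, 7, 14, 10, 1, 4, 6, 4, 7], .l [2, 5], .l [6, 3], .l [2, 6], .l [2, 9, 11, 9, 4], .l [2, 9], .l [10, 7], .y [2, 10, 8, 4], .l [16, 9, 5, 12, 12, 10, 10, 3, 8, 1, 8, 4, 1], .l [2, 11], .l [12, 9], .l [2, 11], .l [5, 8, 6, 6, 4, 4, 8, 10, 3, 8, 4, 6, 3], .l [2, 13], .l [14, 11], .l [16, 13, 13, 11, 11, 7, 9, 5, 1, 3, 7, 6, 3], .l [2, 15], .l [16, 13]]),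
([p 2 0, g, p 3 0, g, s 5 1, p 0 2, p 4 3, g, p 0 4, g, p 0 5, g, m 1 0, g], .hi 2, [.l [5, 8, 6, 10, 5, 8, 6, 9, 5, 2, 5], .r 2205 [6, 1, 2, 3, 4, 5] [1, 1, 1, 1, 1, 1, 1], .l [4, 1], .l [5, 8, 4, 12, 9, 3, 1, 4, 2, 6, 1], .l [2, 3], .l [4, 1], .l [2, 4], .l [2, 7, 9, 7, 2], .l [2, 7], .l [8, 5], .y [2, 8, 6], .l [12, 7, 13, 5, 1, 9, 3, 7, 1, 6, 1], .l [2, 9], .l [10, 7], .l [2, 9], .l [10, 5, 13, 7, 1, 9, 5, 7, 1, 6, 3], .l [2, 11], .l [12, 9], .l [14, 11, 11, 7, 9, 5, 1, 3, 7, 6, 3], .l [2, 13], .l [14, 11]]),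
([p 2 0, g, s 5 1, p 3 2, g, p 4 3, g, p 0 4, g, p 0 5, g, m 1 0, g], .hi 0, [.l [6, 11, 8, 11, 2, 5, 8, 1, 2, 0, 3], .l [0, 1], .l [2, 1], .l [0, 4, 10, 7, 10, 2, 5], .l [0, 4], .l [5, 4], .l [0, 6, 8, 6, 8, 5, 8, 2, 3], .l [0, 6], .l [7, 6], .y [0, 7, 5, 3], .l [9, 8, 8, 5, 8, 1, 8, 6, 3], .l [0, 8], .l [9, 8], .l [0, 8], .l [4, 13, 10, 2, 9, 3, 1, 5, 6, 0, 3], .l [0, 10], .l [11, 10], .l [13, 12, 12, 9, 10, 4, 1, 2, 5], .l [0, 12], .l [13, 12]]),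
([p 2 0, g, s 4 1, p 0 2, p 3 0, g, p 0 3, g, p 0 4, g, m 1 0, g], .hi 4, [.l [3, 10, 5, 8, 6, 9, 5, 2, 5], .r 2206 [1, 2, 5, 3, 4] [1, 1, 1, 1, 1, 1], .l [6, 3], .r 2207 [1, 2, 5, 3, 4] [1, 0, 1, 1, 1, 1], .l [1, 12, 9, 3, 1, 4, 2, 6, 1], .l [4, 5], .l [6, 1], .y [4, 6], .l [4, 7, 9, 3, 9, 5, 1, 6, 3], .l [4, 7], .l [8, 3], .l [4, 7], .l [4, 9, 11, 3, 9, 5, 1, 6, 3], .l [4, 9], .l [10, 5], .l [10, 7, 11, 9, 5, 1, 5, 6, 3], .l [4, 11], .l [12, 7]]),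
([p 2 0, g, s 3 1, p 0 2, p 0 0, g, p 0 3, g, m 1 0, g], .lo 4, [.l [0, 3], .l [2, 5, 2], .l [2, 5], .l [1, 5, 3, 4], .y [4], .l [8, 5, 7, 6, 1], .r 2208 [1, 2, 4, 3] [1, 1, 1, 1, 1], .l [8, 5, 7, 6, 1], .l [6, 3, 5, 4, 5], .l [6, 3, 9, 5, 1, 6, 3], .l [6, 3, 5, 4, 5], .l [6, 3, 5, 4, 5], .l [6, 3, 5, 4, 7], .l [6, 3, 7, 3, 8, 2, 5], .l [6, 3, 5, 4, 7]]),
([p 5 0, g, p 1 0, g, p 2 1, g, p 3 2, g, p 6 3, g, s 8 4, p 0 5, p 7 6, g, p 0 7, g, m 4 0, g, p 0 8, g], .hi 2, [.l [11, 14, 12, 12, 10, 10, 8, 8, 6, 10, 5, 8, 6, 9, 5, 2, 5], .l [6, 13, 6, 1, 10, 11, 2, 15, 10, 10, 1, 5, 10, 7, 3, 7, 7, 5], .l [4, 1], .l [11, 14, 12, 12, 10, 10, 8, 8, 4, 12, 9, 3, 1, 4, 2, 6, 1], .l [2, 3], .l [4, 1], .l [6, 3, 17, 5, 17, 11, 1, 13,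 7, 1, 7, 10, 7], .l [2, 5], .l [6, 3], .l [2, 7, 9, 7, 15, 5, 15, 9, 1, 11, 5, 9, 3, 8, 3], .l [2, 7], .l [8, 5], .l [10, 7, 7, 5, 15, 5, 15, 9, 5, 11, 5, 7, 1, 8, 5], .l [2, 9], .l [10, 7], .l [2, 10], .l [2, 13, 15, 13, 8], .l [2, 13], .l [14, 11], .y [2, 14, 12, 8, 6, 4], .l [20, 9, 5, 16, 16, 14, 14, 12, 12, 10, 10, 3, 8, 1, 8, 4, 1], .l [2, 15], .l [16, 13], .l [9, 12, 10, 10, 8, 8, 6, 6, 4, 4, 8, 10, 3, 8, 4, 6, 3], .l [2, 17], .l [18, 15], .l [2, 17], .l [16, 5, 17, 11, 1, 13, 7, 14, 4, 1, 6, 4, 7], .l [2, 19], .l [20, 17]]),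
([p 4 0, g, p 1 0, g, p 2 1, g, p 5 2, g, s 7 3, p 0 4, p 6 5, g, p 0 6, g, m 3 0, g, p 0 7, g], .hi 2, [.l [9, 12, 10, 10, 8, 8, 6, 10, 5, 8, 6, 9, 5, 2, 5], .r 2210 [8, 1, 2, 3, 4, 5, 6, 7] [1, 1, 1, 1, 1, 1, 1, 1, 1], .l [4, 1], .l [9, 12, 10, 10, 8, 8, 4, 12, 9, 3, 1, 4, 2, 6, 1], .l [2, 3], .l [4, 1], .l [2, 5, 15, 5, 15, 9, 1, 11, 5, 9, 3, 8, 3], .l [2, 5], .l [6, 3], .l [8, 5, 15, 5, 15, 9, 5, 11, 5, 7, 1, 8, 5], .l [2, 7], .l [8, 5], .l [2, 8], .l [2, 11, 13, 11, 6], .l [2, 11], .l [12, 9], .y [2, 12, 10, 6, 4], .l [18, 9, 5, 14, 14, 12, 12, 10, 10, 3, 8, 1, 8, 4, 1], .l [2, 13], .l [14, 11], .l [7, 10, 8, 8, 6, 6, 4, 4, 8, 10, 3, 8, 4, 6, 3], .l [2, 15], .l [16, 13], .l [2, 15], .l [14, 5, 15, 9, 1, 11, 7, 12,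 4, 1, 4, 2, 5], .l [2, 17], .l [18, 15]]),
([p 3 0, g, p 1 0, g, p 4 1, g, s 6 2, p 0 3, p 5 4, g, p 0 5, g, m 2 0, g, p 0 6, g], .hi 2, [.l [7, 10, 8, 8, 6, 10, 5, 8, 6, 9, 5, 2, 5], .r 2211 [7, 1, 2, 3, 4, 5, 6] [1, 1, 1, 1, 1, 1, 1, 1], .l [4, 1], .l [7, 10, 8, 8, 4, 12, 9, 3, 1, 4, 2, 6, 1], .l [2, 3], .l [4, 1], .l [14, 5, 9, 7, 14, 10, 1, 4, 6, 4, 7], .l [2, 5], .l [6, 3], .l [2, 6], .l [2, 9, 11, 9, 4], .l [2, 9], .l [10, 7], .y [2, 10, 8, 4], .l [16, 9, 5, 12, 12, 10, 10, 3, 8, 1, 8, 4, 1], .l [2, 11], .l [12, 9], .l [5, 8, 6, 6, 4, 4, 8, 10, 3, 8, 4, 6, 3], .l [2, 13], .l [14, 11], .l [2, 13], .l [16, 13, 13, 11, 11, 7, 9, 5, 1, 3, 7, 6, 3], .l [2, 15], .l [16, 13]]),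
([p 2 0, g, p 3 0, g, s 5 1, p 0 2, p 4 3, g, p 0 4, g, m 1 0, g, p 0 5, g], .hi 2, [.l [5, 8, 6, 10, 5, 8, 6, 9, 5, 2, 5], .r 2212 [6, 1, 2, 3, 4, 5] [1, 1, 1, 1, 1, 1, 1], .l [4, 1], .l [5, 8, 4, 12, 9, 3, 1, 4, 2, 6, 1], .l [2, 3], .l [4, 1], .l [2, 4], .l [2, 7, 9, 7, 2], .l [2, 7], .l [8, 5], .y [2, 8, 6], .l [12, 7, 13, 5, 1, 9, 3, 7, 1, 6, 1], .l [2, 9], .l [10, 7], .l [10, 5, 13, 7, 1, 9, 5, 7, 1, 6, 3], .l [2, 11], .l [12, 9], .l [2, 11], .l [14, 11, 11, 7, 9, 5, 1, 3, 7, 6, 3], .l [2, 13], .l [14, 11]]),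
([p 2 0, g, s 5 1, p 3 2, g, p 4 3, g, p 0 4, g, m 1 0, g, p 0 5, g], .hi 0, [.l [6, 11, 8, 11, 2, 5, 8, 1, 2, 0, 3], .l [0, 1], .l [2, 1], .l [0, 4, 10, 7, 10, 2, 5], .l [0, 4], .l [5, 4], .l [0, 6, 8, 6, 8, 5, 8, 2, 3], .l [0, 6], .l [7, 6], .y [0, 7, 5, 3], .l [9, 8, 8, 5, 8, 1, 8, 6, 3], .l [0, 8], .l [9, 8], .l [4, 13, 10, 2, 9, 3, 1, 5, 6, 0, 3], .l [0, 10], .l [11, 10], .l [0, 10], .l [13, 12, 12, 9, 10, 4, 1, 2, 5], .l [0, 12], .l [13, 12]]),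
([p 2 0, g, s 4 1, p 0 2, p 3 0, g, p 0 3, g, m 1 0, g, p 0 4, g], .hi 4, [.l [3, 10, 5, 8, 6, 9, 5, 2, 5], .r 2213 [1, 2, 5, 3, 4] [1, 1, 1, 1, 1, 1], .l [6, 3], .r 2214 [1, 2, 5, 3, 4] [1, 0, 1, 1, 1, 1], .l [1, 12, 9, 3, 1, 4, 2, 6, 1], .l [4, 5], .l [6, 1], .y [4, 6], .l [4, 7, 9, 3, 9, 5, 1, 6, 3], .l [4, 7], .l [8, 3], .l [4, 9, 11, 3, 9, 5, 1, 6, 3], .l [4, 9], .l [10, 5], .l [4, 9], .l [10, 7, 11, 9, 5, 1, 5, 6, 3], .l [4, 11], .l [12, 7]]),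
([p 2 0, g, s 3 1, p 0 2, p 0 0, g, m 1 0, g, p 0 3, g], .lo 4, [.l [0, 3], .l [2, 5, 2], .l [2, 5], .l [1, 5, 3, 4], .y [4], .l [8, 5, 7, 6, 1], .r 2215 [1, 2, 4, 3] [1, 1, 1, 1, 1], .l [8, 5, 7, 6, 1], .l [6, 3, 5, 4, 1], .l [6, 3, 5, 4, 5], .l [6, 3, 9, 5, 1, 6, 3], .l [6, 3, 5, 4, 5], .l [6, 3, 5, 4, 7], .l [6, 3, 7, 3, 8, 2, 5], .l [6, 3, 5, 4, 7]]),
([p 2 0, g, s 0 1, p 3 2, p 4 0, g, p 0 3, g, p 0 4, g, m 1 0, g], .hi 4, [.l [1, 12, 7, 0, 9, 7, 1, 6, 3], .l [1, 12, 7, 0, 9, 7, 1, 6, 3], .l [6, 3], .l [4, 1, 9, 7, 1, 6, 1], .r 1588 [2, 5] [2, 1, 7], .l [4, 5], .l [6, 1], .l [4, 5], .l [2, 8, 3, 9, 5, 0, 5], .l [4, 7], .l [8, 3], .y [4, 8], .r 1588 [2, 5] [2, 5, 3], .l [4, 9], .l [10, 5], .r 1588 [2, 5] [2, 7, 1],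 .l [4, 11], .l [12, 7]]),
([p 3 0, g, m 0 1, g, s 1 2, p 5 3, p 4 0, g, p 0 4, g, p 0 5, g, m 2 0, g], .hi 0, [.l [2, 1, 7, 12, 9, 5, 9, 6, 3, 4, 1], .l [0, 1], .l [2, 1], .l [2, 1], .l [0, 3, 7, 10, 8, 3, 5, 6, 1], .l [0, 3], .l [4, 3], .l [0, 7, 9, 7, 4], .l [0, 7], .l [8, 7], .l [0, 7], .l [10, 9, 5, 12, 9, 3, 9, 4, 6, 2, 3], .l [0, 9], .l [10, 9], .y [0, 10, 5], .l [12, 11, 11, 6, 9, 1, 10, 8, 1], .l [0, 11], .l [12, 11], .l [14, 13, 5, 10, 7, 11, 2, 6, 1, 2, 5], .l [0, 13], .l [14, 13]]),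
([p 3 0, g, m 0 1, g, s 1 2, p 4 3, p 0 0, g, p 0 4, g, m 2 0, g], .lo 6, [.l [0, 5], .l [2, 7, 4], .l [2, 7], .l [1, 7, 5, 6], .l [3, 7, 3, 6, 8, 4, 5], .l [4, 7], .l [3, 7, 3, 6], .y [6], .l [12, 7, 11, 10, 1], .r 2218 [1, 2, 3, 5, 4] [1, 1, 1, 1, 1, 1], .l [5, 10, 9, 9, 4, 1], .l [12, 7, 11, 10, 3], .r 2217 [2, 3, 4, 5] [3, 1, 1, 1, 1], .l [5, 8, 7, 7, 2, 7], .l [5, 8, 7, 7, 2, 7], .l [10, 5, 9, 8, 9], .r 2130 [2, 3, 4, 5] [3, 1, 1, 1, 1], .l [5, 8, 7, 7, 2, 9]]),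
([p 2 0, g, s 0 1, p 3 2, p 0 0, g, m 1 0, g, p 0 3, g], .lo 4, [.l [0, 3], .l [2, 5, 2], .l [2, 5], .l [1, 5, 3, 4], .y [4], .l [5, 10, 7, 7, 4, 6, 3], .r 2121 [1, 2, 4, 3] [1, 1, 1, 1, 1], .l [3, 10, 9, 9, 6, 1], .l [3, 8, 7, 7, 4, 1], .l [6, 3, 5, 4, 5], .r 2200 [1, 2, 4] [1, 1, 1, 3], .l [3, 10, 9, 9, 6, 3], .l [6, 3, 5, 4, 7], .r 2200 [1, 2, 4] [1, 1, 3, 1], .l [3, 8, 7, 7, 4, 7]]),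
([p 3 0, g, m 0 1, g, s 1 2, p 4 3, p 5 4, g, p 0 5, g, m 2 6, g, m 6 7, g, m 7 8, g, m 8 0, g], .lo 8, [.y [0, 8, 6, 5], .l [2, 9, 9, 7, 4], .l [2, 9], .l [1, 7, 5, 8], .l [3, 7, 3, 8, 8, 6, 6, 2, 3], .l [4, 9], .l [3, 7, 3, 8], .l [7, 10, 8, 10, 8, 9, 5, 1, 1, 2, 3], .l [8, 9], .l [7, 10, 8, 8, 7, 7, 2, 1], .l [7, 12, 8, 4, 8, 10, 8, 9, 3, 6, 1, 2, 3], .l [7, 12, 8, 9, 5, 12, 3, 10, 11, 2, 4, 5, 1, 4, 1, 6, 4, 1], .l [7, 8, 6, 6, 5, 5, 0, 5], .l [7, 8, 6, 8, 6, 7, 3, 6, 1, 2, 3], .l [10, 14, 13, 13, 7, 5, 9, 11, 7, 5, 7, 9, 7, 8, 4, 1, 2, 3], .l [7, 8, 6, 6, 5, 5, 0, 7], .l [7, 8, 6, 8, 6, 7, 3, 8, 3, 4, 5], .l [10, 5, 9, 8, 8, 7, 7, 5, 9, 3, 7, 5, 7, 1, 3, 1, 5, 3], .l [7, 8, 6, 6, 5, 5, 0, 9], .l [7, 8, 6, 8, 6, 7,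 3, 10, 5, 6, 7], .l [10, 5, 9, 8, 8, 7, 7, 5, 11, 5, 9, 7, 7, 5, 7, 1, 3, 1], .l [7, 8, 6, 6, 5, 5, 0, 11], .l [7, 8, 6, 6, 5, 5, 0, 11], .l [7, 8, 6, 8, 6, 7, 3, 12, 7, 8, 9], .l [0, 10, 5, 0, 8, 16, 10, 14, 1, 1, 7, 7, 5, 5, 3, 6, 0, 3], .l [7, 8, 6, 6, 5, 5, 0, 13]]),
([p 3 0, g, m 0 1, g, s 1 2, p 4 3, p 5 4, g, p 0 5, g, m 2 6, g, m 6 7, g, m 7 0, g], .hi 14, [.l [15, 16, 14, 14, 12, 12, 6, 7, 1, 2, 6, 4, 1], .l [1, 7, 5, 14], .l [2, 15], .y [2, 4, 10, 12, 14], .l [3, 7, 3, 14, 9, 10, 7], .l [3, 7, 3, 14], .l [4, 15], .l [7, 10, 8, 10, 8, 9, 5, 10, 3, 4, 5], .l [7, 10, 8, 8, 7, 7, 2, 11], .l [8, 15], .l [7, 8, 6, 6, 5, 5, 0, 9], .l [9, 12, 6, 7, 3, 12, 7, 8, 5], .l [5, 13, 3, 14, 8, 5, 10, 3, 11, 7, 0, 7], .l [10,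 15], .l [11, 14, 12, 12, 6, 7, 3, 10, 5, 6, 3], .l [11, 14, 12, 12, 6, 7, 3, 10, 5, 6, 3], .l [12, 15], .l [15, 16, 12, 12, 10, 10, 4, 5, 1, 8, 5, 6, 3], .l [15, 16, 12, 12, 10, 10, 4, 5, 1, 8, 5, 6, 3], .l [14, 15], .l [13, 14, 12, 12, 10, 10, 4, 5, 1, 8, 5, 6, 3], .l [13, 14, 12, 12, 10, 10, 4, 5, 1, 8, 5, 6, 3], .r 2221 [1, 2, 3, 4, 5, 6, 7, 8] [1, 1, 1, 1, 1, 1, 1, 1]]),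
([p 3 0, g, m 0 1, g, s 1 2, p 4 3, p 5 4, g, p 0 5, g, m 2 6, g, m 6 0, g], .hi 12, [.l [13, 14, 12, 12, 6, 7, 1, 2, 6, 4, 1], .l [1, 7, 5, 12], .l [2, 13], .y [2, 4, 10, 12], .l [3, 7, 3, 12, 7, 8, 5], .l [3, 7, 3, 12], .l [4, 13], .l [7, 10, 8, 10, 8, 9, 5, 8, 1, 2, 3], .l [7, 10, 8, 8, 7, 7, 2, 9], .l [8, 13], .l [7, 8, 6, 6, 5, 5, 0, 7], .l [9, 12, 6, 7, 3, 10, 5, 6, 3], .l [9, 12, 6, 7, 3, 10, 5, 6, 3], .l [10, 13], .l [13, 14, 10, 10, 4, 5, 1, 8, 5, 6, 3], .l [13, 14, 10, 10, 4, 5, 1, 8, 5, 6, 3], .l [12, 13], .l [11, 12, 10, 10, 4, 5, 1, 8, 5, 6, 3], .l [11, 12, 10, 10, 4, 5, 1, 8, 5, 6, 3], .r 2222 [1, 2, 3, 4, 5, 6, 7] [1, 1, 1, 1, 1, 1, 1]]),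
([p 3 0, g, m 0 1, g, s 1 2, p 4 3, p 5 4, g, p 0 5, g, m 2 0, g], .hi 10, [.l [11, 12, 6, 7, 1, 2, 6, 4, 1], .l [1, 7, 5, 10], .l [2, 11], .y [2, 4, 10], .l [3, 7, 3, 10, 5, 6, 3], .l [3, 7, 3, 10], .l [4, 11], .l [11, 12, 4, 5, 1, 6, 3, 4, 1], .l [7, 10, 8, 8, 7, 7, 2, 7], .l [8, 11], .l [7, 8, 6, 6, 5, 5, 0, 5], .l [11, 12, 4, 5, 1, 8, 5, 6, 3], .l [11, 12, 4, 5, 1, 8, 5, 6, 3], .l [10, 11], .l [9, 10, 4, 5, 1, 8, 5, 6, 3], .l [9, 10, 4, 5, 1, 8, 5, 6, 3], .r 2223 [1, 2, 3, 4, 5, 6] [1, 1, 1, 1, 1, 1]]),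
([p 3 0, g, m 0 1, g, s 1 2, p 4 3, p 0 4, g, m 2 0, g], .lo 6, [.y [0, 6, 5], .l [2, 7, 4], .l [2, 7], .l [1, 7, 5, 6], .l [3, 7, 3, 6, 6, 2, 3], .l [4, 7], .l [3, 7, 3, 6], .l [10, 5, 9, 8, 1], .r 2224 [1, 2, 3, 4, 5] [1, 1, 1, 1, 1], .l [5, 6, 5, 5, 0, 5], .l [5, 6, 5, 5, 0, 5], .l [8, 3, 7, 6, 7], .r 2200 [2, 3, 5] [3, 1, 1, 1], .l [5, 6, 5, 5, 0, 7]]),
([p 3 0, g, m 0 1, g, s 1 2, p 0 3, p 0 0, g, m 2 0, g], .lo 5, [.y [0, 5], .l [3, 7, 3, 1, 8, 6, 1], .l [2, 6], .l [1, 7, 5, 4], .l [1, 7, 5, 3, 8, 4, 5], .l [4, 6], .l [1, 7, 5, 3, 8, 4, 5], .r 2225 [1, 2, 3, 4] [1, 1, 1, 1], .l [1, 5, 3, 1, 8, 6, 3], .r 2219 [1, 2, 3, 4] [1, 1, 1, 1, 1], .l [1, 5, 3, 1, 8, 6, 3], .l [1, 5, 3, 1, 6, 4, 3], .l [1, 5, 3, 1, 6, 4, 5],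 .r 2220 [2, 3, 4] [3, 1, 1, 1], .l [1, 5, 3, 1, 6, 4, 5]]),
([p 2 1, g, s 1 0, g, s 3 0, g, p 0 2, p 4 3, g, p 0 4, g], .top 1, [.c, .r 2079 [1, 2, 3, 4] [1, 1, 1, 1, 1], .r 334 [] [10], .r 444 [] [10]]),
([p 2 1, g, s 3 0, g, s 1 0, g, p 0 2, p 4 3, g, p 0 4, g], .top 1, [.l [3, 6, 3, 4, 6, 4, 1], .r 2080 [1, 2, 3, 4] [1, 1, 1, 1, 1], .r 334 [] [10], .r 444 [] [10]]),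
([p 1 0, g, s 2 0, g, p 0 1, p 3 2, g, p 0 3, g], .hi 0, [.r 2227 [4, 1, 2, 3] [1, 1, 1, 1, 1], .l [0, 1], .l [2, 1], .r 2228 [4, 1, 2, 3] [1, 1, 1, 1, 1], .l [0, 3], .l [4, 3], .y [0, 4], .l [0, 6, 8, 6, 3], .l [0, 6], .l [7, 6], .l [0, 6], .r 2042 [4, 1, 3] [3, 1, 1, 1], .l [0, 8], .l [9, 8]]),
([p 2 0, g, s 4 1, p 5 2, p 3 0, g, p 0 3, g, s 0 4, g, p 0 5, g, m 1 0, g], .hi 4, [.r 2229 [2, 6, 3] [1, 2, 1, 7], .l [14, 9, 11, 9, 10, 4, 1, 4, 8, 6, 3], .l [6, 3], .l [6, 1, 11, 8, 8, 5, 10, 2, 7], .l [4, 5], .l [6, 1], .y [4, 6], .l [8, 3, 11, 6, 6, 3, 10, 4, 1], .l [4, 7], .l [8, 3], .l [2, 7, 9, 4, 5, 2, 8, 5, 1, 4, 1], .l [10, 5, 11, 4, 4, 1, 10, 6, 3], .l [4, 9], .l [10, 5], .l [4, 9], .r 1588 [2, 6] [2, 7, 3], .l [4,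 11], .l [12, 7], .l [4, 13, 7, 4, 10, 3, 5, 8, 3], .l [4, 13], .l [14, 9]]),
([p 2 0, g, s 3 1, p 4 2, p 0 0, g, s 0 3, g, p 0 4, g, m 1 0, g], .lo 4, [.l [0, 3], .l [2, 5, 2], .l [2, 5], .l [1, 5, 3, 4], .y [4], .l [12, 9, 11, 10, 1], .r 2230 [1, 2, 5, 3, 4] [1, 1, 1, 1, 1, 1], .l [3, 10, 9, 9, 6, 1], .l [12, 9, 11, 10, 3], .l [2, 5, 7, 5, 0], .l [3, 10, 9, 9, 6, 3], .l [12, 9, 11, 10, 5], .l [2, 5, 9, 7, 0], .l [3, 8, 7, 7, 4, 7], .l [3, 8, 7, 7, 4, 7], .l [10, 7, 9, 8, 9], .l [2, 5, 11, 9, 0], .l [3, 8, 7, 7, 4, 9]]),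
([p 2 0, g, p 3 0, g, s 6 1, p 5 2, p 4 3, g, p 0 4, g, p 0 5, g, s 0 6, g, m 1 0, g], .hi 0, [.l [2, 1, 13, 7, 9, 7, 12, 6, 2, 6, 3, 4, 5], .l [0, 1], .l [2, 1], .l [4, 3, 6, 2, 6, 1, 10, 5, 8, 6, 8, 4, 5], .l [0, 3], .l [4, 3], .l [0, 7, 9, 7, 4], .l [0, 7], .l [8, 7], .l [0, 7], .l [10, 9, 9, 4, 7, 6, 6, 4, 8, 5, 8, 2, 3], .l [0, 9], .l [10, 9], .y [0, 10, 5], .l [12, 11, 11, 6, 9, 8, 8, 6, 8, 3, 8, 4, 1], .l [0, 11], .l [12, 11], .l [4, 11, 11, 3, 5, 10, 7, 3, 7, 0, 1], .l [0, 13, 1, 7, 9, 7, 12, 6, 2, 6, 3, 4, 5], .l [0, 13], .l [14, 13], .l [12, 7, 9, 7, 12, 6, 2, 6, 3, 8, 1, 2, 5], .l [0, 15], .l [16, 15]]),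
([p 2 0, g, s 5 1, p 4 2, p 3 0, g, p 0 3, g, p 0 4, g, s 0 5, g, m 1 0, g], .hi 4, [.r 2229 [2, 6, 3] [1, 2, 1, 7], .r 2232 [1, 2, 6, 3, 4, 5] [1, 1, 1, 1, 1, 1, 1], .l [6, 3], .l [6, 1, 9, 6, 6, 3, 10, 4, 7], .l [4, 5], .l [6, 1], .y [4, 6], .l [8, 3, 9, 4, 4, 1, 10, 6, 1], .l [4, 7], .l [8, 3], .l [4, 7], .r 1588 [2, 6] [2, 5, 5], .l [4, 9], .l [10, 5], .l [10, 7, 1, 6, 10, 3, 6, 2, 3], .l [12, 7, 13, 3, 7, 3, 6, 1, 4, 5], .l [4, 11], .l [12, 7], .l [4, 13, 7, 2, 10, 3, 7, 8, 1], .l [4, 13], .l [14, 9]]),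
([p 2 0, g, s 4 1, p 3 2, p 0 0, g, p 0 3, g, s 0 4, g, m 1 0, g], .lo 4, [.l [0, 3], .l [2, 5, 2], .l [2, 5], .l [1, 5, 3, 4], .y [4], .l [12, 9, 11, 10, 1], .r 2233 [1, 2, 5, 3, 4] [1, 1, 1, 1, 1, 1], .l [3, 8, 7, 7, 4, 1], .l [12, 9, 11, 10, 3], .r 2217 [1, 2, 3, 5] [1, 1, 1, 3, 1], .l [3, 6, 5, 5, 2, 5], .l [12, 9, 11, 10, 5], .l [2, 7, 9, 5, 0], .l [1, 3, 1, 6, 3, 6, 8, 6, 1], .l [1, 3, 1, 6, 3, 6, 6, 4, 1], .l [10, 7, 9, 8, 9], .l [2, 7, 11, 7, 0], .l [2, 7, 3, 10, 6, 0, 5]]),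
([p 2 0, g, s 5 1, p 3 2, p 4 3, s 6 0, g, p 0 4, g, s 0 5, g, p 0 6, g, m 1 0, g], .hi 5, [.l [2, 6, 8, 7, 2], .l [1, 5, 3, 5, 7, 6, 8, 5, 8, 6, 8, 4, 5], .l [2, 6, 8, 7, 2], .l [7, 1, 8, 5, 5, 4, 6, 8, 6, 1], .l [11, 8, 10, 9, 9, 8, 1, 7, 3, 9, 7, 5, 1], .l [7, 1, 8, 5, 5, 4, 6, 8, 6, 1], .l [9, 6, 8, 7, 7, 6, 1, 5, 3, 7, 5, 3, 1], .l [3, 4, 3, 9, 1, 3, 9, 5, 0, 5], .l [11, 8, 10, 9, 9, 8, 3, 11, 5, 9, 7, 5, 3], .l [1, 3, 1, 9, 11, 5, 7, 6, 8, 3, 8, 2, 5], .l [9, 6, 8, 7, 7, 6, 3, 9, 5, 7, 5, 3, 1], .l [3, 4, 3, 10, 5, 11, 5, 0, 7], .l [15, 12, 14, 13, 13, 12, 5], .l [9, 6, 8, 7, 13, 7, 1, 10, 7, 1, 5, 7, 5], .y [5, 11], .l [8, 6, 7, 5, 5, 4, 8, 10, 6, 1], .l [15, 12, 14, 13, 13, 12, 7], .l [9, 6, 8, 7, 13, 7, 1, 10,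 7, 1, 5, 7, 5], .l [3, 9, 7, 12, 4, 8, 10, 2, 0, 5], .l [9, 6, 8, 7, 11, 5, 1, 8, 9, 3, 7, 1, 3], .l [1, 3, 1, 7, 9, 5, 7, 6, 10, 5, 1, 6, 3]]),
([p 1 0, g, p 0 1, p 3 0, g, s 2 0, g, p 0 2, g, p 0 3, g], .hi 0, [.l [2, 1, 8, 1, 8, 4, 1], .l [0, 1], .l [2, 1], .y [0, 2], .l [0, 4, 10, 8, 1], .l [0, 4], .l [5, 4], .l [0, 6, 10, 6, 1], .l [0, 6], .l [7, 6], .l [0, 6], .l [0, 8, 10, 4, 1], .l [0, 8], .l [9, 8], .l [0, 8], .r 2042 [4, 1, 3] [1, 5, 1, 1], .l [0, 10], .l [11, 10]]),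
([p 2 0, g, s 6 1, p 3 2, p 4 3, s 5 0, g, p 0 4, g, s 0 5, g, s 0 6, g, m 1 0, g], .hi 5, [.l [2, 6, 8, 7, 2], .l [5, 6, 5, 6, 9, 5, 7, 0, 1], .l [2, 6, 8, 7, 2], .l [6, 9, 6, 13, 11, 12, 10, 2, 8, 1], .l [15, 12, 14, 13, 13, 12, 1], .l [7, 1, 8, 5, 10, 8, 9, 7, 9, 2, 6, 1], .l [13, 10, 12, 11, 11, 10, 1], .l [13, 10, 2, 7, 13, 3, 9, 2, 6, 8, 4, 1], .l [15, 12, 14, 13, 13, 12, 3], .l [13, 10, 2, 7, 13, 3, 9, 2, 6, 8, 4, 1], .y [5, 9], .l [13, 10, 2, 7, 13, 3, 9, 2, 6, 8, 4, 1], .l [15, 12, 14, 13, 13, 12, 5], .l [3, 4, 3, 8, 3, 9, 5, 0, 5], .l [3, 4, 3, 9, 1, 3, 7, 3, 0, 3], .l [10, 8, 9, 7, 7, 6, 8, 10, 8, 3], .l [15, 12, 14, 13, 13, 12, 7], .l [3, 4, 3, 9, 1, 3, 9, 5, 0, 5], .l [3, 11, 9, 12, 2, 8, 10, 2, 0, 5], .l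 [13, 10, 12, 11, 11, 10, 11], .l [3, 4, 3, 9, 1, 3, 11, 7, 0, 7]]),
([p 2 0, g, s 5 1, p 3 2, p 4 3, s 6 0, g, p 0 4, g, s 0 5, g, m 1 0, g, p 0 6, g], .hi 5, [.l [2, 6, 8, 7, 2], .l [1, 5, 3, 5, 7, 6, 12, 7, 1, 8, 5, 1, 3], .l [2, 6, 8, 7, 2], .l [7, 1, 8, 5, 5, 4, 6, 10, 8, 1], .l [11, 8, 10, 9, 9, 8, 1, 7, 3, 7, 5, 7, 3], .l [7, 1, 8, 5, 5, 4, 6, 10, 8, 1], .l [9, 6, 8, 7, 7, 6, 1, 5, 3, 5, 3, 5, 3], .l [3, 4, 3, 9, 1, 3, 11, 7, 0, 7], .l [11, 8, 10, 9, 9, 8, 3, 9, 3, 7, 5, 7, 3], .l [3, 4, 3, 8, 3, 13, 9, 0, 9], .l [9, 6, 8, 7, 7, 6, 3, 7, 3, 5, 3, 5, 3], .l [3, 4, 3, 10, 5, 13, 7, 0, 9], .l [13, 10, 12, 11, 11, 10, 5], .l [1, 3, 1, 7, 9, 5, 7, 6, 10, 5, 1, 6, 3], .l [3, 4, 3, 12, 7, 13, 5, 0, 9], .l [11, 8, 10, 9,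 9, 8, 9], .l [1, 13, 7, 13, 5, 0, 10, 9, 1, 6, 1, 4, 5], .y [5, 13], .l [3, 9, 7, 10, 2, 6, 10, 4, 0, 5], .l [11, 8, 10, 9, 9, 8, 11], .l [1, 13, 7, 13, 5, 0, 10, 9, 1, 6, 1, 4, 5]]),
([p 2 0, g, s 6 1, p 3 2, p 4 3, s 5 0, g, p 0 4, g, p 0 5, g, s 0 6, g, m 1 0, g], .hi 5, [.l [2, 6, 8, 7, 2], .l [1, 5, 3, 5, 7, 6, 8, 3, 10, 4, 7], .l [2, 6, 8, 7, 2], .l [6, 9, 6, 13, 11, 12, 10, 2, 8, 1], .l [13, 10, 12, 11, 11, 10, 1, 9, 5, 7, 5, 7, 5], .l [5, 9, 7, 12, 10, 13, 2, 6, 7, 1, 7, 3, 1], .l [11, 8, 10, 9, 9, 8, 1, 7, 5, 5, 3, 5, 3], .l [3, 4, 3, 8, 3, 9, 5, 0, 5], .l [15, 12, 14, 13, 13, 12, 3], .l [3, 4, 3, 8, 3, 9, 5, 0, 5], .y [5, 9], .l [13, 10, 2, 7, 13, 3, 9, 2, 6, 8, 4, 1], .l [13, 10, 12, 11, 11, 10, 5, 11, 3, 7,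 5, 7, 3], .l [3, 4, 3, 8, 3, 9, 5, 0, 5], .l [11, 8, 10, 9, 9, 8, 5, 9, 3, 5, 3, 5, 3], .l [10, 8, 9, 7, 7, 6, 8, 10, 8, 3], .l [15, 12, 14, 13, 13, 12, 7], .l [1, 3, 1, 9, 11, 5, 7, 6, 8, 3, 8, 2, 5], .l [3, 11, 9, 12, 2, 8, 10, 2, 0, 5], .l [13, 10, 12, 11, 11, 10, 11], .l [3, 4, 3, 8, 3, 13, 9, 0, 9]])]

def d08_3 : List (List Item × Qry × List Rf) := [
([p 2 0, g, s 5 1, p 3 2, p 4 3, s 0 0, g, p 0 4, g, s 0 5, g, m 1 0, g], .lo 5, [.l [0, 4, 6, 5, 2], .l [2, 6, 8, 7, 2], .l [2, 6, 8, 7, 2], .l [5, 11, 9, 12, 2, 6, 8, 2, 0, 3], .y [5], .l [6, 9, 6, 11, 9, 10, 8, 2, 6, 1], .r 2236 [2, 6, 4] [2, 0, 1, 1, 5], .l [13, 10, 12, 11, 11, 10, 1], .r 2237 [1, 2, 3, 4, 6, 5] [1, 1, 1, 1, 1, 1], .r 2239 [1, 2, 3, 4, 6, 5] [1,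 1, 1, 1, 1, 1], .l [13, 10, 12, 11, 11, 10, 3], .l [8, 6, 7, 5, 5, 4, 6, 8, 6, 1], .r 2235 [1, 2, 3, 4, 5, 6] [1, 1, 1, 1, 1, 1], .l [13, 10, 12, 11, 11, 10, 5], .l [11, 8, 10, 9, 9, 8, 5], .l [3, 9, 7, 10, 2, 6, 8, 2, 0, 3], .r 2238 [1, 2, 3, 4, 5, 6] [1, 1, 1, 1, 1, 1], .l [11, 8, 10, 9, 9, 8, 9]]),
([p 2 0, g, s 5 1, p 3 2, p 0 3, p 4 0, g, p 0 4, g, s 0 5, g, m 1 0, g], .lo 4, [.y [0, 4, 3], .l [2, 5, 2], .l [2, 5], .l [1, 5, 3, 4], .l [4, 0, 9, 6, 8, 5, 8, 4, 0, 0, 3], .l [13, 10, 12, 11, 2], .l [4, 0, 11, 8, 10, 5, 10, 6, 0, 2, 5], .l [3, 4, 3, 9, 6, 2, 4, 2, 3], .l [13, 10, 12, 11, 4], .l [0, 5, 9, 7, 2, 4, 5, 2], .l [3, 4, 3, 3, 0, 6], .l [13, 10, 12, 11, 6], .l [2, 8, 10, 5, 0], .l [1, 3, 1, 7, 4, 7, 9, 7, 4],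 .l [1, 3, 1, 7, 4, 7, 7, 5, 4], .l [11, 8, 10, 9, 10], .l [2, 8, 12, 7, 0], .l [2, 8, 4, 11, 6, 0, 8]]),
([p 2 0, g, s 4 1, p 3 2, p 0 3, p 0 0, g, s 0 4, g, m 1 0, g], .lo 5, [.l [0, 4], .l [11, 6, 10, 9, 9, 8, 5], .l [2, 6], .l [1, 5, 3, 5], .y [5], .l [11, 8, 10, 9, 9, 8, 1], .r 2241 [1, 2, 3, 5, 4] [1, 1, 1, 1, 1], .l [9, 6, 8, 7, 7, 6, 1], .l [11, 8, 10, 9, 9, 8, 3], .l [3, 4, 3, 5, 7, 5, 0], .l [7, 4, 6, 5, 5, 4, 5], .l [7, 4, 6, 5, 5, 4, 5], .l [9, 6, 8, 7, 7, 6, 7], .l [3, 4, 3, 5, 9, 7, 0], .l [7, 4, 6, 5, 5, 4, 7]]),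
([p 2 0, g, s 5 1, p 3 2, p 4 3, m 0 0, g, p 0 4, g, s 0 5, g, m 1 0, g], .hi 5, [.l [2, 6, 8, 7, 2], .l [1, 5, 3, 5], .l [2, 6], .y [5], .l [13, 10, 12, 11, 11, 10, 1], .l [4, 9, 8, 8, 7, 7, 4, 1], .l [0, 5, 9, 7, 2, 4, 5, 2], .l [4, 7, 6, 6, 5, 5, 2, 1], .l [13, 10, 12, 11, 11, 10, 3], .l [4, 7, 6, 6, 5, 5, 2, 5], .l [4, 0, 11, 8, 10, 5, 10, 6, 0, 2, 5], .l [2, 8, 8, 4, 6, 5, 0], .l [13, 10, 12, 11, 11, 10, 5], .l [3, 4, 3, 7, 3, 8, 4, 0, 3], .l [2, 8, 10, 6, 8, 7, 0], .l [11, 8, 10, 9, 9, 8, 9], .l [3, 4, 3, 7, 3, 10, 6, 0, 5], .l [2, 8, 12, 8, 10, 9, 0]]),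
([p 2 0, g, s 5 1, p 3 2, p 4 3, g, p 0 4, g, s 0 5, g, m 1 0, g], .top 5, [.r 2242 [1, 2, 3, 5] [1, 1, 1, 1], .r 2240 [1, 2, 3, 4, 5] [1, 1, 1, 1, 1], .r 2242 [1, 2, 3, 5] [1, 3, 1, 1], .r 2243 [1, 2, 3, 4, 5] [1, 1, 1, 1, 1]]),
([p 2 0, g, s 4 1, p 3 2, p 0 3, g, s 0 4, g, m 1 0, g], .lo 4, [.y [0, 4, 3], .l [2, 5, 2], .l [2, 5], .l [1, 5, 3, 4], .l [10, 7, 9, 8, 1], .r 2244 [1, 2, 3, 5, 4] [1, 1, 1, 1, 1], .l [3, 4, 3, 3, 0, 3], .l [10, 7, 9, 8, 3], .l [2, 5, 7, 5, 0], .l [1, 3, 1, 4, 1, 4, 6, 4, 1], .l [1, 3, 1, 4, 1, 4, 4, 2, 1], .l [8, 5, 7, 6, 7], .l [2, 5, 9, 7, 0], .l [2, 5, 1, 8, 6, 0, 5]]),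
([p 2 0, g, s 3 1, p 0 2, p 0 0, g, s 0 3, g, m 1 0, g], .lo 3, [.y [0, 3], .l [10, 5, 6], .l [2, 4], .l [1, 5, 3, 2], .r 2245 [1, 2, 4, 3] [1, 1, 1, 1], .l [10, 7, 2], .r 2234 [1, 2, 4, 3] [1, 1, 1, 1, 1], .l [2, 3, 0, 4], .l [10, 7, 4], .r 2231 [1, 2, 3, 4] [1, 1, 1, 1, 1], .l [2, 3, 0, 6], .l [2, 3, 0, 6], .l [8, 5, 8], .r 2220 [1, 2, 4] [1, 3, 1, 1], .l [2, 3, 0, 8]]),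
([p 3 0, g, p 0 1, g, s 1 2, p 0 3, p 4 0, g, p 0 4, g, m 2 0, g], .lo 5, [.y [0, 5], .l [1, 7, 5, 4, 1], .l [2, 6], .l [1, 7, 5, 4], .l [2, 5, 11, 5, 8], .l [4, 6], .l [2, 5, 11, 5, 8], .l [5, 10, 8, 4, 7, 3, 6, 0, 3], .l [2, 3, 11, 7, 2], .l [5, 12, 10, 6, 9, 3, 8, 2, 5], .l [2, 3, 11, 7, 2], .l [2, 3, 11, 7, 4], .l [4, 1, 5, 10, 5, 1, 7, 0, 3], .l [2, 3, 11, 7, 4], .l [2, 3, 9, 5, 4], .l [2, 3, 9, 5, 8], .r 2121 [2, 3, 4, 5] [3, 1, 1, 1, 1], .l [2, 3, 9, 5, 8]]),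
([p 3 0, g, p 0 1, g, s 1 2, p 0 3, p 0 0, g, m 2 0, g], .lo 6, [.l [0, 5], .l [2, 7, 4], .l [2, 7], .l [1, 7, 5, 6], .l [2, 5, 9, 3, 5, 4, 5], .l [4, 7], .l [2, 5, 9, 3, 5, 4, 5], .y [6], .l [2, 3, 9, 5, 7, 6, 1], .r 2247 [1, 2, 3, 4] [1, 1, 1, 1, 1], .l [2, 3, 9, 5, 7, 6, 1], .l [2, 3, 7, 3, 5, 4, 1], .l [2, 3, 7, 3, 5, 4, 5], .r 2200 [2, 3, 4] [3, 1, 1, 1], .l [2, 3, 7, 3, 5, 4, 5]]),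
([p 2 0, g, s 5 1, p 4 2, p 3 0, g, p 0 3, g, p 0 4, g, m 1 0, g, s 0 5, g], .hi 4, [.r 2229 [2, 6, 3] [1, 2, 1, 7], .l [12, 7, 9, 7, 8, 4, 1, 8, 3, 4, 1], .l [6, 3], .l [6, 1, 9, 6, 6, 3, 8, 2, 5], .l [4, 5], .l [6, 1], .y [4, 6], .l [8, 3, 9, 4, 4, 1, 8, 4, 1], .l [4, 7], .l [8, 3], .l [4, 7], .r 1588 [2, 6] [2, 5, 5], .l [4, 9], .l [10, 5], .l [4, 11, 5, 2, 8, 3, 5, 6, 1], .l [4, 11], .l [12, 7], .l [4, 11, 5, 2, 8, 3, 5, 6, 1], .l [4, 13, 7, 2, 10, 5, 7, 8, 3], .l [4, 13], .l [14, 9]]),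
([p 2 0, g, s 4 1, p 3 2, p 0 0, g, p 0 3, g, m 1 0, g, s 0 4, g], .lo 4, [.l [0, 3], .l [2, 5, 2], .l [2, 5], .l [1, 5, 3, 4], .y [4], .l [10, 7, 9, 8, 1], .r 2249 [1, 2, 5, 3, 4] [1, 1, 1, 1, 1, 1], .l [3, 8, 7, 7, 4, 1], .l [10, 7, 9, 8, 3], .l [4, 10, 7, 3, 6, 8, 6, 4, 1], .l [1, 3, 1, 10, 7, 3, 5, 6, 1], .l [1, 3, 1, 8, 5, 3, 3, 4, 1], .l [8, 5, 7, 6, 7], .l [3, 12, 10, 4, 9, 3, 8, 2, 5], .l [3, 6, 5, 5, 2, 7], .l [8, 5, 7, 6, 9], .l [2, 9, 11, 5, 0], .l [2, 9, 5, 10, 4, 0, 5]]),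
([p 2 0, g, s 5 1, p 3 2, p 4 3, m 0 0, g, p 0 4, g, m 1 0, g, s 0 5, g], .hi 5, [.l [2, 6, 8, 7, 2], .l [1, 5, 3, 5], .l [2, 6], .y [5], .l [11, 8, 10, 9, 9, 8, 1], .l [4, 9, 8, 8, 7, 7, 4, 1], .l [0, 5, 9, 7, 2, 4, 5, 2], .l [4, 7, 6, 6, 5, 5, 2, 1], .l [11, 8, 10, 9, 9, 8, 3], .l [3, 4, 3, 11, 7, 3, 5, 8, 2, 0, 1], .l [5, 11, 7, 3, 7, 7, 6, 8, 6, 4, 1], .l [9, 6, 8, 7, 7, 6, 7], .l [4, 7, 6, 6, 5, 5, 2, 7], .l [4, 7, 6, 12, 10, 4, 9, 3, 8, 2, 5], .l [2, 10, 10, 4, 6, 5, 0], .l [9, 6, 8, 7, 7, 6, 9], .l [2, 10, 5, 11, 1, 5, 1, 6, 4, 0, 3], .l [2, 10, 12, 6, 8, 7, 0]]),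
([p 2 0, g, s 4 1, p 3 2, p 0 3, m 0 0, g, m 1 0, g, s 0 4, g], .lo 4, [.y [0, 4, 3], .l [2, 5, 2], .l [2, 5], .l [1, 5, 3, 4], .l [1, 3, 1, 7, 4, 0, 2, 4, 1], .l [9, 6, 8, 7, 2], .r 2251 [1, 2, 3, 5, 4] [1, 1, 1, 1, 1], .l [1, 3, 1, 9, 6, 2, 4, 5, 2], .l [1, 3, 1, 7, 4, 2, 2, 3, 2], .l [7, 4, 6, 5, 6], .l [3, 11, 9, 2, 9, 3, 8, 0, 5], .l [3, 4, 3, 3, 0, 6], .l [7, 4, 6, 5, 8], .l [2, 8, 10, 5, 0], .l [2, 8, 4, 9, 4, 0, 6]]),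
([p 2 0, g, s 5 1, p 3 2, p 0 3, p 4 0, g, p 0 4, g, m 1 0, g, s 0 5, g], .lo 4, [.y [0, 4, 3], .l [2, 5, 2], .l [2, 5], .l [1, 5, 3, 4], .l [4, 0, 9, 6, 8, 5, 8, 4, 0, 0, 3], .l [11, 8, 10, 9, 2], .l [5, 11, 7, 3, 7, 7, 6, 8, 6, 4, 1], .l [1, 3, 1, 11, 8, 2, 4, 2, 4, 6, 1], .l [11, 8, 10, 9, 4], .l [0, 5, 9, 7, 2, 4, 5, 2], .l [1, 3, 1, 11, 8, 4, 6, 7, 4], .l [1, 3, 1, 9, 6, 4, 4, 5, 4], .l [9, 6, 8, 7, 8], .l [0, 5, 11, 9, 2, 4, 7, 4], .l [3, 4, 3, 3, 0, 8], .l [9, 6, 8, 7, 10], .l [2, 10, 12, 5, 0], .l [2, 10, 6, 11, 4, 0, 8]]),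
([p 2 0, g, s 4 1, p 3 2, p 0 3, p 0 0, g, m 1 0, g, s 0 4, g], .lo 5, [.l [0, 4], .l [9, 4, 8, 7, 7, 6, 3], .l [2, 6], .l [1, 5, 3, 5], .y [5], .l [9, 6, 8, 7, 7, 6, 1], .r 2253 [1, 2, 3, 5, 4] [1, 1, 1, 1, 1], .l [9, 6, 8, 7, 7, 6, 1], .l [7, 4, 6, 5, 5, 4, 1], .l [7, 4, 6, 5, 5, 4, 5], .l [7, 4, 6, 5, 9, 5, 1, 6, 3], .l [7, 4, 6, 5, 5, 4, 5], .l [7, 4, 6, 5, 5, 4, 7], .l [3, 4, 3, 7, 9, 5, 0], .l [7, 4, 6, 5, 5, 4, 7]]),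
([p 2 0, g, s 5 1, p 3 2, p 4 3, s 6 0, g, p 0 4, g, m 1 0, g, s 0 5, g, p 0 6, g], .hi 5, [.l [2, 6, 8, 7, 2], .l [1, 5, 3, 5, 7, 6, 12, 7, 1, 8, 5], .l [2, 6, 8, 7, 2], .l [7, 1, 8, 5, 5, 4, 8, 10, 6, 1], .l [11, 8, 10, 9, 9, 8, 1], .l [7, 1, 8, 5, 5, 4, 8, 10, 6, 1], .l [9, 6, 8, 7, 7, 6, 1], .l [3, 4, 3, 11, 3, 5, 11, 5, 0, 7], .l [11, 8, 10, 9, 9, 8, 3], .l [1, 3, 1, 11, 13, 5, 7, 6, 8, 3, 8, 2, 5], .l [3, 4, 3, 11, 1, 5, 11, 5, 0, 7], .l [9, 6, 8, 7, 7, 6, 7], .l [1, 3, 1, 11, 13, 5, 7, 6, 10, 5, 1, 6, 3], .l [1, 3, 1, 9, 9, 3, 5, 4, 8, 5, 1, 4, 1], .l [3, 4, 3, 12, 7, 13, 5, 0, 9], .l [9, 6, 8, 7, 7, 6, 9], .l [1, 3, 1, 9, 11, 5, 7, 6, 10, 5, 1, 6, 3], .y [5, 13], .l [1, 5, 13, 7, 0, 10, 1, 4, 1, 7, 4, 1], .l [9,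 6, 8, 7, 7, 6, 11], .l [1, 3, 1, 9, 11, 5, 7, 6, 10, 5, 1, 6, 3]]),
([p 2 0, g, s 6 1, p 3 2, p 4 3, s 5 0, g, p 0 4, g, m 1 0, g, s 0 5, g, s 0 6, g], .hi 5, [.l [2, 6, 8, 7, 2], .l [5, 6, 5, 6, 11, 7, 9, 0, 3], .l [2, 6, 8, 7, 2], .l [6, 9, 6, 9, 7, 8, 6, 2, 4, 7], .l [11, 8, 10, 9, 9, 8, 1], .l [13, 7, 8, 4, 13, 3, 4, 2, 4, 5, 2, 5], .l [9, 6, 8, 7, 7, 6, 1], .l [9, 3, 6, 12, 10, 2, 6, 9, 4, 1], .l [11, 8, 10, 9, 9, 8, 3], .l [9, 3, 6, 12, 10, 2, 6, 9, 4, 1], .l [1, 5, 11, 5, 0, 8, 1, 9, 4, 7, 4, 1], .l [9, 6, 8, 7, 7, 6, 7], .l [12, 15, 4, 11, 6, 0, 8, 5, 9, 3, 0, 5], .y [5, 11], .l [1, 5, 9, 3, 0, 6, 1, 9, 6, 7, 4, 1], .l [9, 6, 8, 7, 7, 6, 9], .l [3, 4, 3, 10, 5, 11, 5, 0, 7], .l [3, 4, 3, 11, 1, 5, 9, 3, 0, 5],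 .l [1, 5, 9, 3, 0, 6, 1, 7, 4, 5, 2, 5], .l [9, 6, 8, 7, 7, 6, 11], .l [3, 4, 3, 11, 1, 5, 11, 5, 0, 7]]),
([p 2 0, g, s 6 1, p 3 2, p 4 3, s 5 0, g, p 0 4, g, p 0 5, g, m 1 0, g, s 0 6, g], .hi 5, [.l [2, 6, 8, 7, 2], .l [1, 5, 3, 5, 7, 6, 8, 3, 8, 2, 5], .l [2, 6, 8, 7, 2], .l [6, 9, 6, 11, 9, 10, 8, 2, 6, 7], .l [13, 10, 12, 11, 11, 10, 1], .l [7, 1, 10, 8, 6, 5, 9, 7, 8, 6, 1, 4, 5], .l [11, 8, 10, 9, 9, 8, 1], .l [3, 4, 3, 8, 3, 9, 5, 0, 5], .l [13, 10, 12, 11, 11, 10, 3], .l [3, 4, 3, 8, 3, 9, 5, 0, 5], .y [5, 9], .l [9, 3, 6, 12, 10, 2, 8, 9, 2, 5], .l [13, 10, 12, 11, 11, 10, 5], .l [3, 4, 3, 8, 3, 9, 5, 0, 5], .l [9, 3, 6, 12, 10, 2, 6, 9, 4, 1], .l [11, 8, 10, 9, 9, 8, 9], .l [3, 4, 3, 8, 3, 11, 7, 0, 7], .l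 [1, 3, 1, 11, 11, 3, 5, 4, 6, 3, 6, 2, 3], .l [9, 3, 6, 10, 8, 2, 6, 7, 2, 7], .l [11, 8, 10, 9, 9, 8, 11], .l [1, 3, 1, 11, 13, 5, 7, 6, 8, 3, 8, 2, 5]]),
([p 2 0, g, s 6 1, p 3 2, p 4 3, s 5 0, g, p 0 4, g, m 1 0, g, p 0 5, g, s 0 6, g], .hi 5, [.l [2, 6, 8, 7, 2], .l [1, 5, 3, 5, 7, 6, 10, 5, 1, 6, 7, 3, 5], .l [2, 6, 8, 7, 2], .l [6, 9, 6, 9, 7, 8, 6, 2, 4, 7], .l [11, 8, 10, 9, 9, 8, 1], .l [7, 1, 8, 5, 12, 10, 3, 10, 3, 5, 3, 7, 1], .l [9, 6, 8, 7, 7, 6, 1], .l [3, 4, 3, 8, 3, 11, 7, 0, 7], .l [11, 8, 10, 9, 9, 8, 3], .l [3, 4, 3, 8, 3, 11, 7, 0, 7], .l [3, 4, 3, 10, 5, 11, 5, 0, 7], .l [9, 6, 8, 7, 7, 6, 7], .l [3, 4, 3, 10, 5, 11, 5, 0, 7], .y [5, 11], .l [12, 15, 4, 11, 6, 0, 8, 5, 9, 3, 0, 5], .l [9, 6, 8, 7,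 7, 6, 9], .l [3, 4, 3, 10, 5, 11, 5, 0, 7], .l [1, 3, 1, 11, 11, 3, 5, 4, 8, 5, 1, 4, 1], .l [5, 14, 1, 9, 3, 9, 9, 8, 3, 1, 6, 1], .l [9, 6, 8, 7, 7, 6, 11], .l [1, 3, 1, 11, 13, 5, 7, 6, 10, 5, 1, 6, 3]]),
([p 2 0, g, s 5 1, p 3 2, p 4 3, s 0 0, g, p 0 4, g, m 1 0, g, s 0 5, g], .lo 5, [.l [0, 4, 6, 5, 2], .l [2, 6, 8, 7, 2], .l [2, 6, 8, 7, 2], .l [5, 11, 9, 12, 2, 6, 8, 2, 0, 3], .y [5], .l [6, 9, 6, 9, 7, 8, 6, 2, 4, 5], .r 2236 [2, 6, 4] [2, 0, 1, 1, 5], .l [11, 8, 10, 9, 9, 8, 1], .l [12, 10, 11, 9, 9, 8, 3, 5, 6, 1], .r 2257 [1, 2, 3, 4, 6, 5] [1, 1, 1, 1, 1, 1], .l [11, 8, 10, 9, 9, 8, 3], .l [9, 6, 8, 7, 7, 6, 3], .r 2256 [1, 2, 3, 4, 6, 5] [1, 1, 1, 1, 1, 1], .r 2258 [1, 2, 3, 4, 6, 5] [1, 1, 1, 1, 1, 1], .l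 [9, 6, 8, 7, 7, 6, 7], .l [3, 9, 7, 10, 2, 6, 8, 2, 0, 3], .r 2255 [1, 2, 3, 4, 5, 6] [1, 1, 1, 1, 1, 1], .l [9, 6, 8, 7, 7, 6, 9]]),
([p 2 0, g, s 4 1, p 3 2, p 0 3, s 0 0, g, m 1 0, g, s 0 4, g], .lo 4, [.y [0, 4, 3], .l [2, 5, 2], .l [2, 5], .l [1, 5, 3, 4], .l [7, 4, 6, 5, 0], .l [9, 6, 8, 7, 2], .r 2259 [1, 2, 3, 5, 4] [1, 1, 1, 1, 1], .l [1, 3, 1, 9, 6, 2, 4, 5, 2], .l [1, 3, 1, 7, 4, 2, 2, 3, 2], .l [7, 4, 6, 5, 6], .l [3, 11, 9, 2, 9, 3, 8, 0, 5], .l [3, 4, 3, 3, 0, 6], .l [7, 4, 6, 5, 8], .l [2, 8, 10, 5, 0], .l [2, 8, 4, 9, 4, 0, 6]]),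
([p 2 0, g, s 0 1, p 0 2, p 0 0, m 1 0, g], .lo 4, [.l [0, 3], .l [2, 5, 2], .l [2, 5], .l [1, 5, 3, 4], .y [4], .l [5, 2, 4, 3, 0], .l [5, 2, 4, 3, 4], .r 2200 [1, 2, 3] [1, 0, 1, 1], .l [5, 2, 4, 3, 4]]),
([p 2 0, g, s 4 1, p 3 2, p 0 3, g, m 1 0, g, s 0 4, g], .top 5, [.r 2261 [1, 2] [1, 3], .r 2260 [1, 2, 3, 4] [1, 1, 1, 1], .r 2254 [1, 2, 3, 4] [1, 1, 1, 1], .r 2252 [1, 2, 3, 4] [1, 1, 1, 1]]),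
([p 2 0, g, s 3 1, p 0 2, p 0 0, g, m 1 0, g, s 0 3, g], .lo 3, [.y [0, 3], .l [8, 3, 4], .l [2, 4], .l [1, 5, 3, 2], .r 2262 [1, 2, 4, 3] [1, 1, 1, 1], .l [8, 5, 2], .r 2250 [1, 2, 4, 3] [1, 1, 1, 1, 1], .l [2, 3, 0, 4], .l [2, 3, 0, 4], .l [6, 3, 6], .l [9, 7, 8, 6, 2, 6, 1], .l [2, 3, 0, 6], .l [6, 3, 8], .l [7, 5, 6, 4, 7, 2, 3], .l [2, 3, 0, 8]]),
([p 2 0, g, s 0 1, p 0 2, p 0 0, g, m 1 0, g], .lo 2, [.r 1003 [3, 2] [1, 4], .r 2201 [3, 1, 2] [1, 1, 1, 1], .r 2248 [3, 1, 2] [1, 1, 1, 1], .r 2226 [3, 1, 2] [1, 1, 1, 1], .r 2202 [1, 2, 3] [1, 0, 1, 1], .r 2246 [1, 2, 3] [1, 1, 1, 1], .r 2209 [1, 2, 3] [1, 1, 1, 1], .r 2120 [2, 3] [1, 1, 3], .y [2, 6], .r 2263 [1, 2, 3] [1, 1, 1, 1], .r 2216 [1, 2, 3] [1, 1, 1, 1], .r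 2120 [2, 3] [1, 3, 1]]),
([p 3 1, s 0 2, g, p 4 0, g, s 1 0, g, s 0 0, p 0 3, p 5 4, g, p 0 5, g, s 2 0, g], .hi 7, [.r 2175 [1, 6, 3] [3, 1, 0, 6], .l [8, 11, 7, 13, 9, 4, 6, 4, 1, 6], .l [8, 11, 7, 13, 9, 4, 6, 4, 1, 6], .l [3, 8, 10, 6, 1, 7, 9, 7, 4], .l [0, 6, 10, 6, 4, 7, 9, 7, 2, 7], .l [0, 6, 10, 6, 4, 7, 9, 7, 2], .l [9, 3, 10, 4, 12, 10, 5, 7, 3, 0], .l [6, 11, 7, 13, 11, 6, 8, 6, 3, 1], .l [6, 11, 7, 13, 11, 6, 8, 6, 3, 1], .l [9, 1, 10, 4, 12, 10, 3, 7, 5, 0], .y [7], .c, .l [7, 10, 12, 10, 0], .l [7, 10, 12, 10, 0], .l [11, 3, 14, 4, 7, 1, 9, 3, 8, 3], .l [7, 10, 10, 8, 0], .l [6, 9, 5, 13, 11, 4, 6, 4, 1, 4], .l [6, 9, 5, 13, 11, 4, 6, 4, 1, 4], .r 2264 [6, 3] [6, 3, 3], .l [6, 9, 5, 11, 9, 4, 6, 4, 1, 6],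 .l [6, 9, 5, 11, 9, 4, 6, 4, 1, 6], .r 2264 [6, 3] [6, 5, 1]]),
([p 2 1, s 0 0, g, p 3 0, g, s 1 0, g, s 0 0, p 0 2, p 4 3, g, p 0 4, g], .hi 1, [.y [1], .r 1053 [1, 5, 2] [1, 3, 2, 4], .l [2, 10, 7, 7, 2], .r 578 [1, 5, 2] [1, 3, 2, 4], .r 1053 [1, 5, 2] [3, 1, 2, 4], .l [4, 10, 5, 5, 2], .l [7, 11, 6, 8, 6, 7, 9, 5, 2], .r 989 [1, 5, 2] [3, 1, 2, 4], .l [5, 4, 5], .l [5, 11, 8, 4, 2, 7, 9, 7, 4], .r 989 [1, 5, 2] [3, 1, 0, 4], .l [5, 4, 6], .l [1, 10, 12, 10, 6], .l [0, 8, 7, 9, 11, 9, 2], .l [5, 9, 6, 10, 8, 5, 9, 7, 2], .l [0, 8, 7, 9, 9, 7, 2], .r 2265 [1, 5, 2, 3, 4] [1, 1, 1, 1, 1, 1], .l [5, 4, 11], .l [5, 9, 6, 12, 10, 5, 7, 5, 2]]),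
([p 6 0, g, s 0 1, g, p 5 2, m 0 3, g, m 3 4, g, s 2 0, g, s 0 5, p 1 6, g, s 4 0, g], .lo 11, [.l [3, 12, 8, 6, 7, 0, 6], .l [8, 9, 7, 8, 6, 9, 6, 8, 6, 7], .l [5, 14, 8, 6, 9, 2, 8], .l [3, 14, 10, 9, 10], .l [13, 8, 13, 0, 1, 10, 6, 10, 6, 6, 4, 5], .l [1, 14, 12, 11, 8], .l [12, 14, 1, 6, 1, 4, 1], .l [12, 14, 1, 7, 2, 5, 1, 6, 2, 5], .l [1, 14, 12, 11, 5], .l [3, 14, 10, 8, 8, 2, 4, 2, 3], .l [1, 14, 12, 11, 3, 12, 6, 6, 4, 7], .l [1, 14, 12, 11, 3], .l [12, 14, 1, 9, 4, 7, 1], .y [4, 9, 11], .l [1, 14, 12, 11, 1, 12, 6, 6, 4, 5], .l [1, 14, 12, 11, 1], .l [12, 14, 1, 11, 6, 9, 1], .l [10, 12, 1, 11, 6, 9, 1, 10, 4, 4, 2, 3], .l [3, 12, 8, 6, 11, 4, 1], .l [1, 12, 10, 9, 10], .l [10, 12, 1, 11, 6, 9, 1, 8, 2, 2,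 0, 1], .l [1, 12, 10, 9, 12, 1, 6, 6, 4, 5], .l [3, 12, 8, 6, 13, 6, 1], .l [1, 12, 10, 9, 12]]),
([p 5 0, g, p 4 1, m 0 2, g, m 2 3, g, s 1 0, g, s 0 4, p 0 5, g, s 3 0, g], .lo 10, [.y [0, 10], .r 2267 [6, 1, 2, 3, 4, 5] [1, 1, 1, 1, 1, 1, 1], .l [2, 11], .l [1, 12, 10, 9], .l [4, 7, 5, 10, 7, 6, 7], .l [5, 11], .l [2, 8, 3, 9, 9, 4, 1], .l [6, 12, 5, 4, 5], .l [7, 11], .l [4, 5, 3, 6, 1, 7, 7, 2, 7], .l [2, 6, 6, 7, 6], .l [8, 12, 3, 2, 3], .l [9, 11], .l [4, 5, 3, 10, 7, 10, 6, 2, 3], .l [11, 14, 7, 12, 7, 6, 7, 3, 6, 1], .l [4, 5, 3, 8, 5, 10, 3, 4, 1], .l [9, 10, 0, 10], .l [4, 5, 3, 8, 5, 8, 8, 4, 5], .l [4, 10, 5, 9, 2, 3, 8, 1, 4, 1], .l [4, 5, 3, 8, 5, 8, 10, 6, 7], .l [9, 10, 0, 12]]),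
([p 6 0, g, p 5 1, m 0 2, g, m 2 3, g, m 3 4, g, m 4 0, g, s 1 0, g, s 0 5, p 0 6, g], .lo 14, [.y [0, 14], .l [9, 11, 10, 15, 6, 1, 11, 2, 5, 1, 8, 4, 1], .l [2, 15], .l [1, 16, 14, 13], .l [4, 7, 5, 14, 11, 10, 11], .l [5, 15], .l [2, 12, 7, 13, 13, 8, 5], .l [6, 9, 7, 7, 5, 12, 9, 8, 9], .l [7, 15], .l [4, 5, 3, 10, 5, 11, 11, 6, 3], .l [8, 11, 9, 9, 7, 7, 5, 10, 7, 6, 7], .l [9, 15], .l [5, 16, 10, 1, 13, 11, 6, 7, 3, 8, 8, 6, 1], .l [5, 14, 8, 1, 11, 9, 4, 5, 1, 6, 6, 4, 1], .l [10, 16, 5, 4, 5], .l [11, 15], .l [10, 16, 5, 4], .l [2, 10, 10, 11, 10], .l [12, 16, 3, 2, 3], .l [13, 15], .l [12, 16, 3, 2], .l [5, 14, 8, 1, 11, 2, 3, 10, 3, 1, 1, 4, 1], .l [5, 14, 8, 1, 11, 13, 8, 9, 5, 1, 1, 6, 1], .l [13, 14, 0, 14]]),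
([p 7 0, g, s 0 1, g, p 6 2, m 0 3, g, m 3 4, g, m 4 5, g, s 2 0, g, s 0 6, p 1 7, g, s 5 0, g], .hi 11, [.l [10, 11, 9, 14, 5, 13, 2, 7, 3, 1, 6, 6, 4, 5], .l [3, 16, 12, 11, 15, 10, 10, 8, 8, 6, 7, 7, 3], .l [10, 11, 9, 9, 7, 8, 8, 3, 9, 3, 8], .l [1, 14, 12, 11, 13, 8, 8, 6, 6, 4, 5, 5, 1], .l [10, 11, 9, 9, 7, 8, 8, 1, 3, 7, 4, 6, 4, 5], .l [5, 16, 10, 8, 15, 11, 11, 9, 9, 7, 8, 8, 4], .l [10, 11, 9, 9, 7, 8, 8, 1, 9, 3, 8], .l [11, 5, 13, 2, 7, 0, 8], .l [12, 16, 3, 9, 11, 9, 6], .l [12, 16, 3, 9, 11, 9, 6], .l [13, 5, 15, 2, 9, 2, 10], .l [12, 16, 3, 11, 13, 11, 11, 9, 6], .l [12, 16, 3, 11, 13, 11, 11, 9, 6], .l [5, 16, 10, 1, 13, 6, 6, 8, 1, 8, 1, 4, 1], .l [12, 16, 3, 13, 6, 9, 1, 12, 8, 8, 6, 6, 4, 1], .l [1,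 16, 14, 13, 15, 8, 8, 6, 6, 4, 7, 7, 5], .l [7, 16, 8, 1, 13, 2, 5, 1, 10, 6, 1, 1, 1], .l [8, 9, 7, 7, 5, 6, 8, 1, 9, 3, 8, 1, 4, 1], .l [1, 16, 14, 13, 15, 8, 8, 6, 6, 4, 5, 5, 5], .l [8, 9, 7, 7, 5, 6, 8, 1, 9, 3, 8], .y [4, 11, 13], .l [8, 9, 7, 12, 5, 13, 4, 7, 1, 3, 6, 6, 4, 5], .l [1, 14, 12, 11, 15, 10, 10, 8, 8, 6, 7, 7, 3], .l [7, 9, 8, 8, 6, 7, 12, 4, 8, 5, 1, 4, 1], .l [8, 14, 5, 13, 1, 11, 13, 11, 11, 4, 1, 3, 6, 1], .l [1, 14, 12, 11, 13, 8, 8, 6, 6, 4, 5, 5, 7], .l [1, 14, 12, 11, 13, 8, 8, 6, 6, 4, 5, 9, 3]]),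
([p 6 0, g, p 5 1, m 0 2, g, m 2 3, g, m 3 4, g, s 1 0, g, s 0 5, p 0 6, g, s 4 0, g], .lo 12, [.y [0, 12], .r 2270 [7, 1, 2, 3, 4, 5, 6] [1, 1, 1, 1, 1, 1, 1, 1], .l [2, 13], .l [1, 14, 12, 11], .l [4, 7, 5, 12, 9, 8, 9], .l [5, 13], .l [2, 10, 5, 11, 11, 6, 3], .l [6, 9, 7, 7, 5, 10, 7, 6, 7], .l [7, 13], .l [4, 5, 3, 8, 3, 9, 9, 4, 1], .l [8, 14, 5, 4, 5], .l [9, 13], .l [6, 7, 5, 5, 3, 6, 1, 7, 7, 2, 7], .l [2, 8, 8, 9, 8], .l [10, 14, 3, 2, 3], .l [11, 13], .l [6, 7, 5, 5, 3, 10, 7, 10, 6, 2, 3], .l [13, 16, 9, 9, 7, 12, 7, 6, 7, 3, 6, 1], .l [6, 7, 5, 5, 3, 8, 5, 10, 3, 4, 1], .l [11, 12, 0, 12], .l [6, 7, 5, 5, 3, 8, 5, 8, 8, 4, 5], .l [6, 7, 5, 10, 5, 9, 2, 3, 8, 1, 4, 1], .l [6, 7, 5, 5, 3, 8, 5, 8, 10, 6, 7],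 .l [11, 12, 0, 14]]),
([p 5 0, g, p 4 1, m 0 2, g, m 2 3, g, m 3 0, g, s 1 0, g, s 0 4, p 0 5, g], .hi 7, [.l [1, 14, 12, 6, 6, 4, 4, 2, 3], .l [1, 14, 12, 6], .l [2, 8], .y [3, 5, 7], .l [4, 14, 9, 3, 3, 1, 1, 7, 4], .l [4, 7, 5, 12, 9, 3], .l [5, 8], .l [6, 9, 7, 12, 7, 1, 1, 7, 4], .l [6, 9, 7, 7, 5, 10, 7, 1], .l [7, 8], .l [8, 14, 5, 11, 11, 9, 9, 7, 4], .l [6, 7, 5, 5, 3, 10, 7, 1], .r 2269 [1, 2, 3, 6, 4, 5] [1, 1, 1, 1, 1, 1, 1], .l [10, 14, 3, 9, 9, 7, 7, 5, 6], .l [4, 5, 3, 6, 1, 6, 9, 5, 1], .l [6, 7, 5, 11, 8, 2, 7, 3, 8, 2, 5], .l [1, 12, 10, 8, 8, 4, 4, 2, 2, 0, 1], .l [4, 5, 3, 6, 1, 7, 7, 2, 1], .r 2271 [1, 2, 3, 6, 4, 5] [1, 1, 1, 1, 1, 1, 1], .l [6, 7, 5, 5, 3, 8, 5, 8], .l [1, 12, 10, 8, 11, 7, 7, 5,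 5, 3, 4]]),
([p 4 0, g, p 3 1, m 0 2, g, m 2 0, g, s 1 0, g, s 0 3, p 0 4, g], .hi 5, [.l [1, 12, 10, 4, 4, 2, 3], .l [1, 12, 10, 4], .l [2, 6], .y [3, 5], .l [4, 12, 7, 1, 1, 7, 4], .l [4, 7, 5, 10, 7, 1], .l [5, 6], .l [6, 12, 5, 9, 9, 7, 4], .l [4, 5, 3, 10, 7, 1], .r 2272 [1, 2, 5, 3, 4] [1, 1, 1, 1, 1, 1], .l [8, 12, 3, 7, 7, 5, 6], .l [2, 6, 1, 6, 9, 5, 1], .l [4, 11, 8, 2, 7, 3, 8, 2, 5], .l [1, 10, 8, 6, 6, 2, 2, 0, 1], .l [2, 6, 1, 7, 7, 2, 1], .r 2268 [1, 2, 5, 3, 4] [1, 1, 1, 1, 1, 1], .l [4, 5, 3, 8, 5, 8], .l [1, 10, 8, 6, 9, 5, 5, 3, 4]]),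
([p 3 0, g, p 2 1, m 0 0, g, s 1 0, g, s 0 2, p 0 3, g], .hi 3, [.l [1, 10, 8, 2, 3], .l [1, 10, 8, 2], .l [2, 4], .y [3], .l [4, 10, 5, 7, 4], .l [2, 10, 7, 1], .r 2273 [1, 4, 2, 3] [1, 1, 1, 1, 1], .l [5, 2, 5], .l [2, 10, 7, 3], .l [1, 10, 8, 6, 3, 4, 1], .l [1, 8, 6, 4, 4, 0, 1], .l [2, 8, 5, 4], .l [5, 2, 8], .l [2, 8, 5, 8], .l [1, 8, 6, 4, 7, 3, 4]]),
([p 8 0, g, p 1 0, g, p 7 1, m 0 2, g, m 2 3, g, m 3 4, g, m 4 5, g, m 5 6, g, m 6 0, g, s 0 7, p 0 8, g], .hi 15, [.l [5, 20, 14, 12, 15, 13, 13, 11, 11, 9, 9, 7, 7, 5, 5, 3, 4], .l [1, 20, 18, 14], .l [2, 16], .l [3, 20, 16, 12, 12, 10, 10, 8, 8, 6, 6, 4, 4, 2, 6], .l [3, 6, 4, 19, 17, 13], .l [4, 16], .y [5, 7, 9, 11, 13, 15], .l [3, 7, 15, 15, 13, 13, 11, 11,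 9, 12, 6, 4, 9, 5, 2], .l [3, 4, 2, 19, 17, 15, 11, 9, 9, 7, 7, 5, 5, 3, 3, 1, 3, 1], .l [7, 16], .l [3, 9, 15, 15, 13, 13, 11, 14, 8, 6, 11, 7, 7, 5, 2], .l [8, 11, 9, 9, 7, 16, 11, 7], .l [9, 16], .l [3, 11, 15, 15, 13, 16, 10, 8, 13, 9, 9, 7, 7, 5, 2], .l [10, 13, 11, 11, 9, 9, 7, 14, 9, 5], .l [11, 16], .l [3, 13, 15, 18, 12, 10, 15, 11, 11, 9, 9, 7, 7, 5, 2], .l [12, 15, 13, 13, 11, 11, 9, 9, 7, 12, 7, 3], .l [13, 16], .l [14, 17, 15, 15, 13, 13, 11, 11, 9, 11, 8, 11, 7, 1, 1, 2, 5], .l [14, 17, 15, 15, 13, 13, 11, 11, 9, 9, 7, 10, 5, 1], .l [15, 16], .l [16, 19, 6, 19, 15, 12, 12, 10, 10, 8, 8, 6, 6, 4, 4, 2, 5], .l [14, 15, 13, 13, 11, 11, 9, 9, 7, 7, 5, 10, 5, 1], .l [3, 15, 16, 15, 15, 13, 13, 11, 11, 9, 9, 7,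 7, 5, 2, 7, 5, 3], .l [3, 4, 2, 17, 15, 13, 13, 11, 11, 9, 9, 7, 7, 5, 5, 3, 3, 1], .l [7, 18, 10, 1, 15, 9, 2, 5, 8, 4, 1, 5, 9, 5, 3, 5, 1, 3], .l [3, 18, 14, 12, 17, 15, 15, 13, 13, 11, 11, 9, 9, 7, 7, 5, 2], .l [14, 15, 13, 13, 11, 11, 9, 9, 7, 7, 5, 8, 3, 8], .l [3, 4, 2, 17, 15, 13, 16, 14, 14, 12, 12, 10, 10, 8, 8, 6, 6, 4]]),
([p 7 0, g, p 1 0, g, p 6 1, m 0 2, g, m 2 3, g, m 3 4, g, m 4 5, g, m 5 0, g, s 0 6, p 0 7, g], .hi 13, [.l [5, 18, 12, 10, 13, 11, 11, 9, 9, 7, 7, 5, 5, 3, 4], .l [1, 18, 16, 12], .l [2, 14], .l [3, 18, 14, 10, 10, 8, 8, 6, 6, 4, 4, 2, 6], .l [3, 6, 4, 17, 15, 11], .l [4, 14], .y [5, 7, 9, 11, 13], .l [3, 7, 13, 13, 11, 11, 9, 12, 6, 4, 9, 5, 2], .l [6, 9, 7, 16, 11, 7], .l [7, 14], .l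 [3, 9, 13, 13, 11, 14, 8, 6, 11, 7, 7, 5, 2], .l [8, 11, 9, 9, 7, 14, 9, 5], .l [9, 14], .l [3, 11, 13, 16, 10, 8, 13, 9, 9, 7, 7, 5, 2], .l [10, 13, 11, 11, 9, 9, 7, 12, 7, 3], .l [11, 14], .l [12, 15, 13, 13, 11, 11, 9, 11, 8, 11, 7, 1, 1, 2, 5], .l [12, 15, 13, 13, 11, 11, 9, 9, 7, 10, 5, 1], .l [13, 14], .l [14, 17, 6, 17, 13, 10, 10, 8, 8, 6, 6, 4, 4, 2, 5], .l [12, 13, 11, 11, 9, 9, 7, 7, 5, 10, 5, 1], .r 2275 [1, 2, 3, 4, 5, 8, 6, 7] [1, 1, 1, 1, 1, 1, 1, 1, 1], .l [3, 16, 12, 10, 10, 8, 8, 6, 6, 4, 4, 2, 2, 0, 3], .l [12, 13, 11, 11, 9, 9, 7, 7, 5, 8, 3, 2], .l [3, 16, 12, 10, 15, 13, 13, 11, 11, 9, 9, 7, 7, 5, 2], .l [12, 13, 11, 11, 9, 9, 7, 7, 5, 8, 3, 8], .l [3, 16, 12, 10, 15, 13, 13, 11, 11, 9, 9, 7, 7,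 5, 2]]),
([p 6 0, g, p 1 0, g, p 5 1, m 0 2, g, m 2 3, g, m 3 4, g, m 4 0, g, s 0 5, p 0 6, g], .hi 11, [.l [5, 16, 10, 8, 11, 9, 9, 7, 7, 5, 5, 3, 4], .l [1, 16, 14, 10], .l [2, 12], .l [3, 16, 12, 8, 8, 6, 6, 4, 4, 2, 6], .l [3, 6, 4, 15, 13, 9], .l [4, 12], .y [5, 7, 9, 11], .l [3, 7, 11, 11, 9, 12, 6, 4, 9, 5, 2], .l [6, 9, 7, 14, 9, 5], .l [7, 12], .l [3, 9, 11, 14, 8, 6, 11, 7, 7, 5, 2], .l [8, 11, 9, 9, 7, 12, 7, 3], .l [9, 12], .l [10, 13, 11, 11, 9, 11, 8, 11, 7, 1, 1, 2, 5], .l [10, 13, 11, 11, 9, 9, 7, 10, 5, 1], .l [11, 12], .l [12, 15, 6, 15, 11, 8, 8, 6, 6, 4, 4, 2, 5], .l [10, 11, 9, 9, 7, 7, 5, 10, 5, 1], .r 2276 [1, 2, 3, 4, 7, 5, 6] [1, 1, 1, 1, 1, 1, 1, 1], .l [3, 14, 10, 8, 8, 6, 6, 4, 4, 2, 2, 0,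 3], .l [10, 11, 9, 9, 7, 7, 5, 8, 3, 2], .l [3, 14, 10, 8, 13, 11, 11, 9, 9, 7, 7, 5, 2], .l [10, 11, 9, 9, 7, 7, 5, 8, 3, 8], .l [3, 14, 10, 8, 13, 11, 11, 9, 9, 7, 7, 5, 2]]),
([p 5 0, g, p 1 0, g, p 4 1, m 0 2, g, m 2 3, g, m 3 0, g, s 0 4, p 0 5, g], .hi 9, [.l [5, 14, 8, 6, 9, 7, 7, 5, 5, 3, 4], .l [1, 14, 12, 8], .l [2, 10], .l [3, 14, 10, 6, 6, 4, 4, 2, 6], .l [3, 6, 4, 13, 11, 7], .l [4, 10], .y [5, 7, 9], .l [3, 7, 9, 12, 6, 4, 9, 5, 2], .l [6, 9, 7, 12, 7, 3], .l [7, 10], .l [8, 11, 9, 11, 8, 11, 7, 1, 1, 2, 5], .l [8, 11, 9, 9, 7, 10, 5, 1], .l [9, 10], .l [10, 13, 6, 13, 9, 6, 6, 4, 4, 2, 5], .l [8, 9, 7, 7, 5, 10, 5, 1], .r 2277 [1, 2, 3, 6, 4, 5] [1, 1, 1, 1, 1, 1, 1], .l [3, 12, 8, 6, 6, 4, 4, 2, 2, 0,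 3], .l [8, 9, 7, 7, 5, 8, 3, 2], .l [3, 12, 8, 6, 11, 9, 9, 7, 7, 5, 2], .l [8, 9, 7, 7, 5, 8, 3, 8], .l [3, 12, 8, 6, 11, 9, 9, 7, 7, 5, 2]]),
([p 4 0, g, p 1 0, g, p 3 1, m 0 2, g, m 2 0, g, s 0 3, p 0 4, g], .hi 7, [.l [5, 12, 6, 4, 7, 5, 5, 3, 4], .l [1, 12, 10, 6], .l [2, 8], .l [3, 12, 8, 4, 4, 2, 6], .l [3, 6, 4, 11, 9, 5], .l [4, 8], .y [5, 7], .l [6, 11, 8, 11, 7, 1, 1, 2, 5], .l [6, 9, 7, 10, 5, 1], .l [7, 8], .l [8, 11, 6, 11, 7, 4, 4, 2, 5], .l [6, 7, 5, 10, 5, 1], .r 2278 [1, 2, 5, 3, 4] [1, 1, 1, 1, 1, 1], .l [3, 10, 6, 4, 4, 2, 2, 0, 3], .l [6, 7, 5, 8, 3, 2], .l [3, 10, 6, 4, 9, 7, 7, 5, 2], .l [6, 7, 5, 8, 3, 8], .l [3, 10, 6, 4, 9, 7, 7, 5, 2]]),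
([p 3 0, g, p 1 0, g, p 2 1, m 0 0, g, s 0 2, p 0 3, g], .hi 5, [.l [5, 10, 4, 2, 5, 3, 4], .l [1, 10, 8, 4], .l [2, 6], .l [3, 10, 6, 2, 6], .l [3, 6, 4, 9, 7, 3], .l [4, 6], .y [5], .l [6, 9, 6, 9, 5, 2, 5], .l [4, 10, 5, 1], .r 2279 [1, 4, 2, 3] [1, 1, 1, 1, 1], .l [3, 8, 4, 2, 2, 0, 3], .l [4, 8, 3, 2], .l [3, 8, 4, 2, 7, 5, 2], .l [4, 8, 3, 8], .l [3, 8, 4, 2, 7, 5, 2]]),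
([p 6 0, g, s 0 1, g, p 5 2, m 0 3, g, m 3 4, g, s 0 5, p 1 6, g, s 4 0, g, s 2 0, g], .lo 9, [.l [3, 10, 6, 4, 5, 0, 4], .l [8, 9, 7, 13, 11, 7, 4, 6, 4, 5], .l [5, 12, 6, 4, 7, 2, 6], .l [3, 12, 8, 7, 8], .l [11, 6, 11, 0, 1, 8, 4, 8, 6, 6, 4, 5], .l [1, 12, 10, 9, 6], .l [10, 12, 1, 6, 1, 4, 1], .l [10, 12, 1, 7, 2, 5, 1, 6, 2, 7], .l [1, 12, 10, 9, 3], .l [3, 12, 8, 6, 6, 2, 4, 2, 9], .l [1, 12, 10, 9, 1, 10, 6, 6, 4, 7], .l [1, 12, 10, 9, 1], .l [10, 12, 1, 9, 4, 7, 1], .l [8, 10, 1, 9, 4, 7, 1, 8, 4, 4, 2, 5], .l [3, 10, 6, 4, 9, 4, 1], .l [1, 10, 8, 7, 8], .l [8, 10, 1, 9, 4, 7, 1, 6, 2, 2, 0, 3], .l [1, 10, 8, 7, 10, 1, 6, 6, 4, 7], .l [3, 10, 6, 4, 11, 6, 1], .l [1, 10, 8, 7, 10], .y [4, 14, 9], .l [1, 10, 8,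 7, 12, 3, 8, 8, 6, 3], .l [3, 10, 6, 4, 13, 8, 1], .l [1, 10, 8, 7, 12]]),
([p 5 0, g, p 4 1, m 0 2, g, m 2 3, g, s 0 4, p 0 5, g, s 3 0, g, s 1 0, g], .lo 8, [.y [0, 8], .r 2281 [6, 1, 2, 3, 4, 5] [1, 1, 1, 1, 1, 1, 1], .l [2, 9], .l [1, 10, 8, 7], .l [4, 7, 5, 8, 5, 4, 5], .l [5, 9], .l [2, 13, 8, 4, 10], .l [6, 10, 3, 2, 3], .l [7, 9], .l [2, 13, 6, 2, 10], .l [9, 12, 7, 10, 5, 4, 5, 3, 4, 5], .l [4, 5, 3, 6, 3, 8, 3, 4, 1], .l [3, 8, 4, 1, 5, 10, 3, 6, 7], .l [4, 5, 3, 6, 3, 6, 6, 2, 3], .l [4, 8, 3, 7, 2, 3, 6, 1, 2, 5], .l [4, 5, 3, 6, 3, 6, 8, 4, 5], .l [3, 8, 4, 1, 5, 10, 1, 6, 7], .l [2, 11, 11, 7, 6], .l [4, 5, 3, 9, 11, 7, 4, 6, 4, 5], .l [2, 11, 13, 9, 6], .l [7, 8, 0, 12]]),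
([p 6 0, g, p 5 1, m 0 2, g, m 2 3, g, m 3 4, g, m 4 0, g, s 0 5, p 0 6, g, s 1 0, g], .lo 12, [.y [0, 12], .l [7, 14, 6, 1, 11, 2, 5, 1, 8, 4, 7, 5, 1], .l [2, 13], .l [1, 14, 12, 11], .l [4, 7, 5, 12, 9, 8, 9], .l [5, 13], .l [2, 15, 10, 8, 12], .l [6, 9, 7, 7, 5, 10, 7, 6, 7], .l [7, 13], .l [2, 15, 8, 6, 12], .l [8, 11, 9, 9, 7, 7, 5, 8, 5, 4, 5], .l [9, 13], .l [2, 15, 6, 4, 12], .l [2, 13, 4, 2, 10], .l [10, 14, 3, 2, 3], .l [11, 13], .l [2, 15, 4, 2, 12], .l [3, 12, 8, 1, 9, 12, 5, 1, 3, 6, 7, 5, 1], .l [3, 12, 8, 1, 9, 12, 5, 1, 3, 6, 7], .l [3, 12, 8, 1, 9, 12, 1, 8, 9], .l [2, 13, 13, 11, 10], .l [5, 12, 6, 1, 9, 2, 3, 10, 5, 1, 1, 4, 1], .l [2, 13, 15, 13, 10], .l [11, 12, 0, 14]]),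
([p 5 0, g, p 4 1, m 0 2, g, m 2 3, g, m 3 0, g, s 0 4, p 0 5, g, s 1 0, g], .hi 7, [.l [1, 12, 10, 6, 6, 4, 4, 2, 6], .l [1, 12, 10, 6], .l [2, 8], .y [3, 5, 7], .l [4, 12, 7, 3, 3, 1, 1, 5, 6], .l [2, 13, 8, 3, 6, 7, 1], .l [5, 8], .l [6, 9, 7, 10, 5, 1, 1, 5, 6], .l [6, 9, 7, 7, 5, 8, 5, 1], .l [7, 8], .l [8, 12, 3, 9, 9, 7, 7, 5, 6], .l [4, 5, 3, 11, 6, 1, 4, 5, 1], .r 2283 [1, 2, 3, 6, 4, 5] [1, 1, 1, 1, 1, 1, 1], .l [1, 10, 8, 6, 6, 4, 4, 2, 2, 0, 3], .l [2, 11, 4, 2, 8], .l [6, 10, 3, 9, 1, 7, 9, 4, 1], .l [6, 7, 5, 5, 3, 6, 3, 6], .l [1, 10, 8, 6, 9, 7, 7, 5, 5, 3, 4], .l [6, 7, 5, 8, 3, 9, 1, 2, 6], .l [6, 7, 5, 5, 3, 6, 3, 8], .l [1, 10, 8, 6, 11, 9, 9, 7, 7, 5, 2]]),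
([p 4 0, g, p 3 1, m 0 2, g, m 2 0, g, s 0 3, p 0 4, g, s 1 0, g], .hi 5, [.l [1, 10, 8, 4, 4, 2, 6], .l [1, 10, 8, 4], .l [2, 6], .y [3, 5], .l [4, 10, 5, 1, 1, 5, 6], .l [4, 7, 5, 8, 5, 1], .l [5, 6], .l [6, 10, 3, 7, 7, 5, 6], .l [2, 11, 6, 1, 4, 5, 1], .r 2284 [1, 2, 5, 3, 4] [1, 1, 1, 1, 1, 1], .l [1, 8, 6, 4, 4, 2, 2, 0, 3], .l [2, 9, 4, 2, 6], .r 2282 [1, 2, 5, 3, 4] [1, 1, 1, 1, 1, 1], .l [4, 5, 3, 6, 3, 6], .l [1, 8, 6, 4, 7, 5, 5, 3, 4], .l [4, 8, 3, 9, 1, 2, 6], .l [4, 5, 3, 6, 3, 8], .l [1, 8, 6, 4, 9, 7, 7, 5, 2]]),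
([p 3 0, g, p 2 1, m 0 0, g, s 0 2, p 0 3, g, s 1 0, g], .hi 3, [.l [1, 8, 6, 2, 6], .l [1, 8, 6, 2], .l [2, 4], .y [3], .l [4, 8, 3, 5, 6], .l [2, 8, 5, 1], .r 2285 [1, 4, 2, 3] [1, 1, 1, 1, 1], .l [1, 6, 4, 2, 2, 0, 3], .l [2, 7, 4, 2, 5], .l [10, 7, 4], .l [2, 6, 3, 6], .l [1, 6, 4, 2, 5, 3, 4], .l [8, 5, 8], .l [2, 6, 3, 8], .l [1, 6, 4, 2, 7, 5, 2]]),
([p 4 0, g, s 1 0, g, p 3 1, m 0 2, g, m 2 0, g, s 0 3, g, p 0 4, g], .hi 7, [.l [1, 13, 11, 6, 6, 4, 1], .l [1, 13, 11, 6], .l [2, 8], .l [3, 13, 9, 4, 4, 2, 7], .l [3, 13, 9, 4], .l [4, 8], .y [5, 7], .l [6, 9, 7, 1, 10, 6, 1], .l [6, 9, 7, 1, 10, 6, 1], .l [7, 8], .l [6, 7, 5, 1, 10, 6, 1], .l [6, 7, 5, 1, 10, 6, 1], .l [6, 11, 8, 4, 7, 3, 8, 2, 5], .l [3, 11, 7,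 4, 4, 2, 2, 0, 3], .l [6, 7, 5, 1, 10, 6, 3], .l [6, 7, 5, 1, 10, 6, 3], .l [3, 13, 9, 4, 6, 4, 4, 2, 5], .l [6, 7, 5, 1, 8, 4, 3], .l [6, 7, 5, 1, 8, 4, 7], .l [6, 7, 5, 1, 8, 4, 7], .l [3, 11, 7, 4, 10, 8, 8, 6, 3]]),
([p 3 0, g, s 1 0, g, p 2 1, m 0 0, g, s 0 2, g, p 0 3, g], .hi 5, [.l [1, 11, 9, 4, 1], .l [1, 11, 9, 4], .l [2, 6], .l [3, 11, 7, 2, 7], .l [3, 11, 7, 2], .l [4, 6], .y [5], .l [4, 1, 10, 6, 1], .l [4, 1, 10, 6, 1], .r 2287 [1, 4, 2, 3] [1, 1, 1, 1, 1, 1], .l [3, 9, 5, 2, 2, 0, 3], .l [4, 1, 10, 6, 3], .l [4, 1, 10, 6, 3], .l [3, 11, 7, 2, 4, 2, 5], .l [4, 1, 8, 4, 3], .l [4, 1, 8, 4, 7], .l [4, 1, 8, 4, 7], .l [3, 9, 5, 2, 8, 6, 3]]),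
([p 2 0, g, p 1 0, m 0 0, g, s 0 1, p 0 2, g], .hi 2, [.r 2288 [3, 1, 2] [1, 1, 1, 0, 1], .r 2280 [3, 1, 2] [1, 1, 1, 1], .l [4, 1], .l [3, 0], .r 2274 [3, 1, 2] [1, 1, 1, 1], .l [2, 4], .l [5, 2], .y [2, 5], .l [2, 5], .r 2286 [3, 1, 2] [1, 1, 1, 1], .l [2, 7], .l [8, 5]]),
([p 4 0, g, s 1 0, g, p 3 1, p 2 0, g, p 0 2, g, s 0 3, g, p 0 4, g], .lo 7, [.l [0, 6], .l [1, 13, 11, 6, 6, 4, 1], .l [2, 8], .l [1, 13, 11, 6], .l [1, 11, 9, 4, 4, 2, 1], .l [3, 13, 9, 4, 4, 2, 7], .l [4, 8], .l [3, 13, 9, 4], .y [5, 7], .l [6, 9, 7, 1, 10, 6, 1], .l [7, 8], .l [6, 9, 7, 1, 10, 6, 1], .l [6, 7, 5, 1, 10, 6, 1], .l [6, 11, 8, 4, 7, 3, 8, 2, 5], .l [6, 7, 5, 1, 10, 6, 1], .l [6, 7, 5, 1, 10, 6, 3], .l [3, 13, 9, 4, 6, 4, 4, 2, 5],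 .l [6, 7, 5, 1, 10, 6, 3], .l [6, 7, 5, 1, 8, 4, 7], .l [3, 11, 7, 4, 10, 8, 8, 6, 3], .l [6, 7, 5, 1, 8, 4, 7]]),
([p 3 0, g, s 1 0, g, p 2 1, p 0 0, g, s 0 2, g, p 0 3, g], .lo 5, [.l [0, 4], .l [1, 11, 9, 4, 1], .l [2, 6], .l [1, 11, 9, 4], .l [1, 9, 7, 2, 1], .l [3, 11, 7, 2, 7], .l [4, 6], .l [3, 11, 7, 2], .y [5], .l [4, 1, 10, 6, 1], .r 2290 [1, 4, 2, 3] [1, 1, 1, 1, 1, 1], .l [4, 1, 10, 6, 1], .l [4, 1, 10, 6, 3], .l [3, 11, 7, 2, 4, 2, 5], .l [4, 1, 10, 6, 3], .l [4, 1, 8, 4, 7], .l [3, 9, 5, 2, 8, 6, 3], .l [4, 1, 8, 4, 7]]),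
([p 5 0, g, s 0 1, g, p 4 2, p 3 0, g, p 6 3, g, s 0 4, p 1 5, g, s 0 6, g, s 2 0, g], .lo 9, [.l [3, 10, 6, 4, 5, 0, 4], .l [8, 9, 7, 13, 11, 7, 4, 6, 4, 5], .l [5, 12, 6, 4, 7, 2, 6], .l [3, 12, 8, 7, 8], .l [11, 6, 11, 0, 1, 8, 4, 8, 6, 6, 4, 5], .l [1, 12, 10, 9, 6], .l [10, 12, 1, 6, 1, 4, 1], .l [1, 10, 8, 7, 3], .l [10, 12, 1, 7, 2, 5, 1, 6, 2, 7], .l [1, 12, 10, 9, 3], .l [3, 12, 8, 6, 6, 2, 4, 2, 9], .l [1, 12, 10, 9, 1, 10, 6, 6, 4, 7], .l [1, 12, 10, 9, 1], .l [10, 12, 1, 9, 4, 7, 1], .l [8, 10, 1, 9, 4, 7, 1, 8, 4, 4, 2, 5], .l [3, 10, 6, 4, 9, 4, 1], .l [1, 10, 8, 7, 8], .l [1, 10, 8, 7, 10, 1, 6, 6, 4, 7], .l [3, 10, 6, 4, 11, 6, 1], .l [1, 10, 8, 7, 10], .y [4, 14, 9], .l [1, 10, 8, 7, 12, 3, 8, 8, 6, 3],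 .l [3, 10, 6, 4, 13, 8, 1], .l [1, 10, 8, 7, 12]]),
([p 4 0, g, p 3 1, p 2 0, g, p 5 2, g, s 0 3, p 0 4, g, s 0 5, g, s 1 0, g], .lo 8, [.y [0, 8], .r 2292 [6, 1, 2, 3, 4, 5] [1, 1, 1, 1, 1, 1, 1], .l [2, 9], .l [1, 10, 8, 7], .l [3, 7], .l [4, 7, 5, 8, 5, 4, 5], .l [5, 9], .l [2, 13, 8, 4, 10], .l [6, 10, 3, 2, 3], .l [7, 9], .l [2, 13, 6, 2, 10], .l [9, 12, 7, 10, 5, 4, 5, 3, 4, 5], .l [4, 5, 3, 6, 3, 8, 3, 4, 1], .l [3, 8, 4, 1, 5, 10, 3, 6, 7], .l [4, 8, 3, 7, 2, 3, 6, 1, 2, 5], .l [4, 5, 3, 6, 3, 6, 8, 4, 5], .l [3, 8, 4, 1, 5, 10, 1, 6, 7], .l [2, 11, 11, 7, 6], .l [4, 5, 3, 9, 11, 7, 4, 6, 4, 5], .l [2, 11, 13, 9, 6], .l [7, 8, 0, 12]]),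
([p 6 0, g, p 5 1, p 2 0, g, p 3 2, g, p 4 3, g, p 0 4, g, s 0 5, p 0 6, g, s 1 0, g], .lo 12, [.y [0, 12], .l [7, 14, 6, 1, 11, 2, 5, 1, 8, 4, 7, 5, 1], .l [2, 13], .l [1, 14, 12, 11], .l [3, 11], .l [4, 7, 5, 12, 9, 8, 9], .l [5, 13], .l [2, 15, 10, 8, 12], .l [6, 9, 7, 7, 5, 10, 7, 6, 7], .l [7, 13], .l [2, 15, 8, 6, 12], .l [8, 11, 9, 9, 7, 7, 5, 8, 5, 4, 5], .l [9, 13], .l [2, 15, 6, 4, 12], .l [10, 14, 3, 2, 3], .l [11, 13], .l [2, 15, 4, 2, 12], .l [3, 12, 8, 1, 9, 12, 5, 1, 3, 6, 7, 5, 1], .l [3, 12, 8, 1, 9, 12, 5, 1, 3, 6, 7], .l [3, 12, 8, 1, 9, 12, 1, 8, 9], .l [2, 13, 13, 11, 10], .l [5, 12, 6, 1, 9, 2, 3, 10, 5, 1, 1, 4, 1], .l [2, 13, 15, 13, 10], .l [11, 12, 0, 14]]),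
([p 5 0, g, p 4 1, p 2 0, g, p 3 2, g, p 0 3, g, s 0 4, p 0 5, g, s 1 0, g], .lo 7, [.l [0, 6], .l [1, 12, 10, 6, 6, 4, 4, 2, 6], .l [2, 8], .l [1, 12, 10, 6], .y [3, 7, 5], .l [4, 12, 7, 3, 3, 1, 1, 5, 6], .l [5, 8], .l [2, 13, 8, 3, 6, 7, 1], .l [6, 9, 7, 10, 5, 1, 1, 5, 6], .l [7, 8], .l [6, 9, 7, 7, 5, 8, 5, 1], .l [8, 12, 3, 9, 9, 7, 7, 5, 6], .r 2294 [1, 2, 3, 6, 4, 5] [1, 1, 1, 1, 1, 1, 1], .l [4, 5, 3, 11, 6, 1, 4, 5, 1], .l [6, 10, 3, 9, 1, 7, 9, 4, 1], .l [1, 10, 8, 6, 9, 7, 7, 5, 5, 3, 4], .l [6, 7, 5, 5, 3, 6, 3, 6], .l [6, 10, 3, 9, 1, 7, 7, 2, 1], .l [6, 7, 5, 8, 3, 9, 1, 2, 6], .l [1, 10, 8, 6, 11, 9, 9, 7, 7, 5, 2], .l [6, 7, 5, 5, 3, 6, 3, 8]]),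
([p 4 0, g, p 3 1, p 2 0, g, p 0 2, g, s 0 3, p 0 4, g, s 1 0, g], .lo 5, [.l [0, 4], .l [1, 10, 8, 4, 4, 2, 6], .l [2, 6], .l [1, 10, 8, 4], .y [3, 5], .l [4, 10, 5, 1, 1, 5, 6], .l [5, 6], .l [4, 7, 5, 8, 5, 1], .l [6, 10, 3, 7, 7, 5, 6], .r 2295 [1, 2, 5, 3, 4] [1, 1, 1, 1, 1, 1], .l [2, 11, 6, 1, 4, 5, 1], .r 2293 [1, 2, 3, 4, 5] [1, 1, 1, 1, 1, 1], .l [1, 8, 6, 4, 7, 5, 5, 3, 4], .l [4, 5, 3, 6, 3, 6], .l [1, 8, 6, 4, 1, 5, 5, 2, 1], .l [4, 8, 3, 9, 1, 2, 6], .l [1, 8, 6, 4, 9, 7, 7, 5, 2], .l [4, 5, 3, 6, 3, 8]]),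
([p 3 0, g, p 2 1, p 0 0, g, s 0 2, p 0 3, g, s 1 0, g], .lo 3, [.l [0, 2], .l [1, 8, 6, 2, 6], .l [2, 4], .l [1, 8, 6, 2], .y [3], .l [4, 8, 3, 5, 6], .r 2296 [1, 4, 2, 3] [1, 1, 1, 1, 1], .l [2, 8, 5, 1], .l [10, 7, 4], .l [1, 6, 4, 2, 5, 3, 4], .l [2, 6, 3, 6], .l [8, 5, 4], .l [8, 5, 8], .l [1, 6, 4, 2, 7, 5, 2], .l [2, 6, 3, 8]]),
([p 5 0, g, s 0 1, g, p 4 2, p 3 0, g, p 6 3, g, s 2 0, g, s 0 4, p 1 5, g, s 0 6, g], .lo 11, [.l [3, 12, 8, 6, 7, 0, 6], .l [8, 9, 7, 8, 6, 9, 6, 8, 6, 7], .l [5, 14, 8, 6, 9, 2, 8], .l [3, 14, 10, 9, 10], .l [13, 8, 13, 0, 1, 10, 6, 10, 6, 6, 4, 5], .l [1, 14, 12, 11, 8], .l [12, 14, 1, 6, 1, 4, 1], .l [1, 12, 10, 9, 5], .l [12, 14, 1, 7, 2, 5, 1, 6, 2, 5], .l [1, 14, 12, 11, 5], .l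 [3, 14, 10, 8, 8, 2, 4, 2, 3], .l [1, 14, 12, 11, 3, 12, 6, 6, 4, 7], .l [1, 14, 12, 11, 3], .l [12, 14, 1, 9, 4, 7, 1], .y [4, 9, 11], .l [1, 14, 12, 11, 1, 12, 6, 6, 4, 5], .l [1, 14, 12, 11, 1], .l [12, 14, 1, 11, 6, 9, 1], .l [10, 12, 1, 11, 6, 9, 1, 10, 4, 4, 2, 3], .l [3, 12, 8, 6, 11, 4, 1], .l [1, 12, 10, 9, 10], .l [1, 12, 10, 9, 12, 1, 6, 6, 4, 5], .l [3, 12, 8, 6, 13, 6, 1], .l [1, 12, 10, 9, 12]]),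
([p 4 0, g, p 3 1, p 2 0, g, p 5 2, g, s 1 0, g, s 0 3, p 0 4, g, s 0 5, g], .lo 10, [.y [0, 10], .r 2298 [6, 1, 2, 3, 4, 5] [1, 1, 1, 1, 1, 1, 1], .l [2, 11], .l [1, 12, 10, 9], .l [3, 9], .l [4, 7, 5, 10, 7, 6, 7], .l [5, 11], .l [2, 8, 3, 9, 9, 4, 1], .l [6, 12, 5, 4, 5], .l [7, 11], .l [4, 5, 3, 6, 1, 7, 7, 2, 7], .l [2, 6, 6, 7, 6], .l [8, 12, 3, 2, 3], .l [9, 11], .l [4, 5, 3, 10, 7, 10, 6, 2, 3], .l [11, 14, 7, 12, 7, 6, 7, 3, 6, 1], .l [4, 5, 3, 8, 5, 10, 3, 4, 1], .l [9, 10, 0, 10], .l [4, 10, 5, 9, 2, 3, 8, 1, 4, 1], .l [4, 5, 3, 8, 5, 8, 10, 6, 7], .l [9, 10, 0, 12]]),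
([p 6 0, g, p 5 1, p 2 0, g, p 3 2, g, p 4 3, g, p 0 4, g, s 1 0, g, s 0 5, p 0 6, g], .lo 14, [.y [0, 14], .l [9, 11, 10, 15, 6, 1, 11, 2, 5, 1, 8, 4, 1], .l [2, 15], .l [1, 16, 14, 13], .l [3, 13], .l [4, 7, 5, 14, 11, 10, 11], .l [5, 15], .l [2, 12, 7, 13, 13, 8, 5], .l [6, 9, 7, 7, 5, 12, 9, 8, 9], .l [7, 15], .l [4, 5, 3, 10, 5, 11, 11, 6, 3], .l [8, 11, 9, 9, 7, 7, 5, 10, 7, 6, 7], .l [9, 15], .l [5, 16, 10, 1, 13, 11, 6, 7, 3, 8, 8, 6, 1], .l [10, 16, 5, 4, 5], .l [11, 15], .l [10, 16, 5, 4], .l [2, 10, 10, 11, 10], .l [12, 16, 3, 2, 3], .l [13, 15], .l [12, 16, 3, 2], .l [5, 14, 8, 1, 11, 2, 3, 10, 3, 1, 1, 4, 1], .l [5, 14, 8, 1, 11, 13, 8, 9, 5, 1, 1, 6, 1], .l [13, 14, 0, 14]]),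
([p 6 0, g, s 0 1, g, p 5 2, p 3 0, g, p 4 3, g, p 7 4, g, s 2 0, g, s 0 5, p 1 6, g, s 0 7, g], .hi 11, [.l [10, 11, 9, 14, 5, 13, 2, 7, 3, 1, 6, 6, 4, 5], .l [3, 16, 12, 11, 15, 10, 10, 8, 8, 6, 7, 7, 3], .l [10, 11, 9, 9, 7, 8, 8, 3, 9, 3, 8], .l [1, 14, 12, 11, 13, 8, 8, 6, 6, 4, 5, 5, 1], .l [10, 11, 9, 9, 7, 8, 8, 1, 3, 7, 4, 6, 4, 5], .l [5, 16, 10, 8, 15, 11, 11, 9, 9, 7, 8, 8, 4], .l [10, 11, 9, 9, 7, 8, 8, 1, 9, 3, 8], .l [12, 16, 3, 9, 11, 9, 6], .l [12, 16, 3, 9, 11, 9, 6], .l [13, 5, 15, 2, 9, 2, 10], .l [12, 16, 3, 11, 13, 11, 11, 9, 6], .l [12, 16, 3, 11, 13, 11, 11, 9, 6], .l [5, 16, 10, 1, 13, 6, 6, 8, 1, 8, 1, 4, 1], .l [12, 16, 3, 13, 6, 9, 1, 12, 8, 8, 6, 6, 4, 1], .l [1, 16, 14, 13, 15, 8, 8, 6, 6,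 4, 7, 7, 5], .l [7, 16, 8, 1, 13, 2, 5, 1, 10, 6, 1, 1, 1], .l [8, 9, 7, 7, 5, 6, 8, 1, 9, 3, 8, 1, 4, 1], .l [1, 16, 14, 13, 15, 8, 8, 6, 6, 4, 5, 5, 5], .l [8, 9, 7, 7, 5, 6, 8, 1, 9, 3, 8], .y [4, 11, 13], .l [8, 9, 7, 12, 5, 13, 4, 7, 1, 3, 6, 6, 4, 5], .l [1, 14, 12, 11, 15, 10, 10, 8, 8, 6, 7, 7, 3], .l [7, 9, 8, 8, 6, 7, 12, 4, 8, 5, 1, 4, 1], .l [10, 14, 3, 13, 13, 11, 11, 9, 9, 7, 6], .l [8, 14, 5, 13, 1, 11, 13, 11, 11, 4, 1, 3, 6, 1], .l [1, 14, 12, 11, 13, 8, 8, 6, 6, 4, 5, 5, 7], .l [1, 14, 12, 11, 13, 8, 8, 6, 6, 4, 5, 9, 3]]),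
([p 5 0, g, p 4 1, p 2 0, g, p 3 2, g, p 6 3, g, s 1 0, g, s 0 4, p 0 5, g, s 0 6, g], .lo 12, [.y [0, 12], .r 2301 [7, 1, 2, 3, 4, 5, 6] [1, 1, 1, 1, 1, 1, 1, 1], .l [2, 13], .l [1, 14, 12, 11], .l [3, 11], .l [4, 7, 5, 12, 9, 8, 9], .l [5, 13], .l [2, 10, 5, 11, 11, 6, 3], .l [6, 9, 7, 7, 5, 10, 7, 6, 7], .l [7, 13], .l [4, 5, 3, 8, 3, 9, 9, 4, 1], .l [8, 14, 5, 4, 5], .l [9, 13], .l [6, 7, 5, 5, 3, 6, 1, 7, 7, 2, 7], .l [2, 8, 8, 9, 8], .l [10, 14, 3, 2, 3], .l [11, 13], .l [6, 7, 5, 5, 3, 10, 7, 10, 6, 2, 3], .l [13, 16, 9, 9, 7, 12, 7, 6, 7, 3, 6, 1], .l [6, 7, 5, 5, 3, 8, 5, 10, 3, 4, 1], .l [11, 12, 0, 12], .l [6, 7, 5, 10, 5, 9, 2, 3, 8, 1, 4, 1], .l [6, 7, 5, 5, 3, 8, 5, 8, 10, 6, 7], .l [11, 12, 0, 14]]),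
([p 5 0, g, p 4 1, p 2 0, g, p 3 2, g, p 0 3, g, s 1 0, g, s 0 4, p 0 5, g], .lo 7, [.l [0, 6], .l [1, 14, 12, 6, 6, 4, 4, 2, 3], .l [2, 8], .l [1, 14, 12, 6], .y [3, 7, 5], .l [4, 14, 9, 3, 3, 1, 1, 7, 4], .l [5, 8], .l [4, 7, 5, 12, 9, 3], .l [6, 9, 7, 12, 7, 1, 1, 7, 4], .l [7, 8], .l [6, 9, 7, 7, 5, 10, 7, 1], .l [8, 14, 5, 11, 11, 9, 9, 7, 4], .r 2300 [1, 2, 3, 6, 4, 5] [1, 1, 1, 1, 1, 1, 1], .l [6, 7, 5, 5, 3, 10, 7, 1], .l [8, 12, 3, 9, 9, 7, 7, 5, 4], .l [10, 14, 3, 9, 9, 7, 7, 5, 6], .l [6, 7, 5, 11, 8, 2, 7, 3, 8, 2, 5], .l [4, 5, 3, 6, 1, 6, 9, 5, 1], .r 2302 [1, 2, 3, 4, 5, 6] [1, 1, 1, 1, 1, 1, 1], .l [1, 12, 10, 8, 11, 7, 7, 5, 5, 3, 4], .l [6, 7, 5, 5, 3, 8, 5, 8]])]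

def D08 : List (List (List Item × Qry × List Rf)) := [d08_0, d08_1, d08_2, d08_3]

end Pool.Agent.H63.PU.C161
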