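import Pool.Agent.H63.PU.Ck3

/-! Certificate data, machine generated. -/

namespace Pool.Agent.H63.PU.C161

open Pool.Agent.H63.PU Pool.Agent.H63.PU.Ck3 Pool.Agent.H63.PU.Short

set_option maxRecDepth 20000

def d09_0 : List (List Item × Qry × List Rf) := [
([p 4 0, g, p 3 1, p 2 0, g, p 0 2, g, s 1 0, g, s 0 3, p 0 4, g], .lo 5, [.l [0, 4], .l [1, 12, 10, 4, 4, 2, 3], .l [2, 6], .l [1, 12, 10, 4], .y [3, 5], .l [4, 12, 7, 1, 1, 7, 4], .l [5, 6], .l [4, 7, 5, 10, 7, 1], .l [6, 12, 5, 9, 9, 7, 4], .r 2303 [1, 2, 5, 3, 4] [1, 1, 1, 1, 1, 1], .l [4, 5, 3, 10, 7, 1], .l [6, 10, 3, 7, 7, 5, 4], .l [8, 12, 3, 7, 7, 5, 6], .l [4, 11, 8, 2, 7, 3, 8, 2, 5], .l [2, 6, 1, 6, 9, 5, 1], .r 2299 [1, 2, 3, 4, 5] [1, 1, 1, 1, 1, 1],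 .l [1, 10, 8, 6, 9, 5, 5, 3, 4], .l [4, 5, 3, 8, 5, 8]]),
([p 3 0, g, p 2 1, p 0 0, g, s 1 0, g, s 0 2, p 0 3, g], .lo 3, [.l [0, 2], .l [1, 10, 8, 2, 3], .l [2, 4], .l [1, 10, 8, 2], .y [3], .l [4, 10, 5, 7, 4], .r 2304 [1, 4, 2, 3] [1, 1, 1, 1, 1], .l [2, 10, 7, 1], .l [4, 8, 3, 5, 4], .l [5, 2, 5], .l [1, 10, 8, 6, 3, 4, 1], .l [2, 10, 7, 3], .l [5, 2, 8], .l [1, 8, 6, 4, 7, 3, 4], .l [2, 8, 5, 8]]),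
([p 8 0, g, p 1 0, g, p 7 1, p 2 0, g, p 3 2, g, p 4 3, g, p 5 4, g, p 6 5, g, p 0 6, g, s 0 7, p 0 8, g], .lo 15, [.l [0, 14], .l [5, 20, 14, 12, 15, 13, 13, 11, 11, 9, 9, 7, 7, 5, 5, 3, 4], .l [2, 16], .l [1, 20, 18, 14], .l [2, 14], .l [3, 20, 16, 12, 12, 10, 10, 8, 8, 6, 6, 4, 4, 2, 6], .l [4, 16], .l [3, 6, 4, 19, 17, 13], .y [5, 15, 13, 11, 9, 7], .l [3, 7, 15, 15, 13, 13, 11, 11, 9, 12, 6, 4, 9, 5, 2], .l [7, 16], .l [3, 4, 2, 19, 17, 15, 11, 9, 9, 7, 7, 5, 5, 3, 3, 1, 3, 1], .l [3, 9, 15, 15, 13, 13, 11, 14, 8, 6, 11, 7, 7, 5, 2], .l [9, 16], .l [8, 11, 9, 9, 7, 16, 11, 7], .l [3, 11, 15, 15, 13, 16, 10, 8, 13, 9, 9, 7, 7, 5, 2], .l [11, 16], .l [10, 13, 11, 11, 9, 9, 7, 14, 9, 5], .l [3, 13, 15, 18, 12, 10,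 15, 11, 11, 9, 9, 7, 7, 5, 2], .l [13, 16], .l [12, 15, 13, 13, 11, 11, 9, 9, 7, 12, 7, 3], .l [14, 17, 15, 15, 13, 13, 11, 11, 9, 11, 8, 11, 7, 1, 1, 2, 5], .l [15, 16], .l [14, 17, 15, 15, 13, 13, 11, 11, 9, 9, 7, 10, 5, 1], .l [16, 19, 6, 19, 15, 12, 12, 10, 10, 8, 8, 6, 6, 4, 4, 2, 5], .l [3, 15, 16, 15, 15, 13, 13, 11, 11, 9, 9, 7, 7, 5, 2, 7, 5, 3], .l [14, 15, 13, 13, 11, 11, 9, 9, 7, 7, 5, 10, 5, 1], .l [3, 18, 14, 12, 17, 15, 15, 13, 13, 11, 11, 9, 9, 7, 7, 5, 2], .l [3, 4, 2, 17, 15, 13, 16, 14, 14, 12, 12, 10, 10, 8, 8, 6, 6, 4], .l [14, 15, 13, 13, 11, 11, 9, 9, 7, 7, 5, 8, 3, 8]]),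
([p 7 0, g, p 1 0, g, p 6 1, p 2 0, g, p 3 2, g, p 4 3, g, p 5 4, g, p 0 5, g, s 0 6, p 0 7, g], .lo 13, [.l [0, 12], .l [5, 18, 12, 10, 13, 11, 11, 9, 9, 7, 7, 5, 5, 3, 4], .l [2, 14], .l [1, 18, 16, 12], .l [2, 12], .l [3, 18, 14, 10, 10, 8, 8, 6, 6, 4, 4, 2, 6], .l [4, 14], .l [3, 6, 4, 17, 15, 11], .y [5, 13, 11, 9, 7], .l [3, 7, 13, 13, 11, 11, 9, 12, 6, 4, 9, 5, 2], .l [7, 14], .l [6, 9, 7, 16, 11, 7], .l [3, 9, 13, 13, 11, 14, 8, 6, 11, 7, 7, 5, 2], .l [9, 14], .l [8, 11, 9, 9, 7, 14, 9, 5], .l [3, 11, 13, 16, 10, 8, 13, 9, 9, 7, 7, 5, 2], .l [11, 14], .l [10, 13, 11, 11, 9, 9, 7, 12, 7, 3], .l [12, 15, 13, 13, 11, 11, 9, 11, 8, 11, 7, 1, 1, 2, 5], .l [13, 14], .l [12, 15, 13, 13, 11, 11, 9, 9, 7, 10, 5, 1], .l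 [14, 17, 6, 17, 13, 10, 10, 8, 8, 6, 6, 4, 4, 2, 5], .r 2306 [1, 2, 3, 4, 5, 8, 6, 7] [1, 1, 1, 1, 1, 1, 1, 1, 1], .l [12, 13, 11, 11, 9, 9, 7, 7, 5, 10, 5, 1], .l [3, 16, 12, 10, 15, 13, 13, 11, 11, 9, 9, 7, 7, 5, 2], .l [3, 16, 12, 10, 15, 13, 13, 11, 11, 9, 9, 7, 7, 5, 2], .l [12, 13, 11, 11, 9, 9, 7, 7, 5, 8, 3, 8]]),
([p 6 0, g, p 1 0, g, p 5 1, p 2 0, g, p 3 2, g, p 4 3, g, p 0 4, g, s 0 5, p 0 6, g], .lo 11, [.l [0, 10], .l [5, 16, 10, 8, 11, 9, 9, 7, 7, 5, 5, 3, 4], .l [2, 12], .l [1, 16, 14, 10], .l [2, 10], .l [3, 16, 12, 8, 8, 6, 6, 4, 4, 2, 6], .l [4, 12], .l [3, 6, 4, 15, 13, 9], .y [5, 11, 9, 7], .l [3, 7, 11, 11, 9, 12, 6, 4, 9, 5, 2], .l [7, 12], .l [6, 9, 7, 14, 9, 5], .l [3, 9, 11, 14, 8, 6, 11, 7,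 7, 5, 2], .l [9, 12], .l [8, 11, 9, 9, 7, 12, 7, 3], .l [10, 13, 11, 11, 9, 11, 8, 11, 7, 1, 1, 2, 5], .l [11, 12], .l [10, 13, 11, 11, 9, 9, 7, 10, 5, 1], .l [12, 15, 6, 15, 11, 8, 8, 6, 6, 4, 4, 2, 5], .r 2307 [1, 2, 3, 4, 7, 5, 6] [1, 1, 1, 1, 1, 1, 1, 1], .l [10, 11, 9, 9, 7, 7, 5, 10, 5, 1], .l [3, 14, 10, 8, 13, 11, 11, 9, 9, 7, 7, 5, 2], .l [3, 14, 10, 8, 13, 11, 11, 9, 9, 7, 7, 5, 2], .l [10, 11, 9, 9, 7, 7, 5, 8, 3, 8]]),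
([p 5 0, g, p 1 0, g, p 4 1, p 2 0, g, p 3 2, g, p 0 3, g, s 0 4, p 0 5, g], .lo 9, [.l [0, 8], .l [5, 14, 8, 6, 9, 7, 7, 5, 5, 3, 4], .l [2, 10], .l [1, 14, 12, 8], .l [2, 8], .l [3, 14, 10, 6, 6, 4, 4, 2, 6], .l [4, 10], .l [3, 6, 4, 13, 11, 7], .y [5, 9, 7], .l [3, 7, 9, 12, 6, 4, 9, 5, 2], .l [7, 10], .l [6, 9, 7, 12, 7, 3], .l [8, 11, 9, 11, 8, 11, 7, 1, 1, 2, 5], .l [9, 10], .l [8, 11, 9, 9, 7, 10, 5, 1], .l [10, 13, 6, 13, 9, 6, 6, 4, 4, 2, 5], .r 2308 [1, 2, 3, 6, 4, 5] [1, 1, 1, 1, 1, 1, 1], .l [8, 9, 7, 7, 5, 10, 5, 1], .l [3, 12, 8, 6, 11, 9, 9, 7, 7, 5, 2], .l [3, 12, 8, 6, 11, 9, 9, 7, 7, 5, 2], .l [8, 9, 7, 7, 5, 8, 3, 8]]),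
([p 4 0, g, p 1 0, g, p 3 1, p 2 0, g, p 0 2, g, s 0 3, p 0 4, g], .lo 7, [.l [0, 6], .l [5, 12, 6, 4, 7, 5, 5, 3, 4], .l [2, 8], .l [1, 12, 10, 6], .l [2, 6], .l [3, 12, 8, 4, 4, 2, 6], .l [4, 8], .l [3, 6, 4, 11, 9, 5], .y [5, 7], .l [6, 11, 8, 11, 7, 1, 1, 2, 5], .l [7, 8], .l [6, 9, 7, 10, 5, 1], .l [8, 11, 6, 11, 7, 4, 4, 2, 5], .r 2309 [1, 2, 5, 3, 4] [1, 1, 1, 1, 1, 1], .l [6, 7, 5, 10, 5, 1], .l [3, 10, 6, 4, 9, 7, 7, 5, 2], .l [3, 10, 6, 4, 9, 7, 7, 5, 2], .l [6, 7, 5, 8, 3, 8]]),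
([p 3 0, g, p 1 0, g, p 2 1, p 0 0, g, s 0 2, p 0 3, g], .lo 5, [.l [0, 4], .l [5, 10, 4, 2, 5, 3, 4], .l [2, 6], .l [1, 10, 8, 4], .l [2, 4], .l [3, 10, 6, 2, 6], .l [4, 6], .l [3, 6, 4, 9, 7, 3], .y [5], .l [6, 9, 6, 9, 5, 2, 5], .r 2310 [1, 4, 2, 3] [1, 1, 1, 1, 1], .l [4, 10, 5, 1], .l [3, 8, 4, 2, 7, 5, 2], .l [3, 8, 4, 2, 7, 5, 2], .l [4, 8, 3, 8]]),
([p 2 0, g, p 1 0, p 0 0, g, s 0 1, p 0 2, g], .hi 2, [.r 2291 [3, 1, 2] [1, 1, 1, 0, 1], .r 2311 [3, 1, 2] [1, 1, 1, 1], .l [4, 1], .c, .r 2305 [3, 1, 2] [1, 1, 1, 1], .l [2, 4], .l [5, 2], .y [2, 5], .l [2, 5], .r 2297 [3, 1, 2] [1, 1, 1, 1], .l [2, 7], .l [8, 5]]),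
([p 2 0, g, p 1 0, s 0 1, p 0 2, g], .hi 2, [.l [3, 6, 2, 0, 2], .l [3, 6, 2, 0, 2], .l [4, 1], .c, .l [2, 3], .l [1, 4, 2, 0, 2], .l [2, 5], .l [6, 3]]),
([p 5 0, g, s 0 1, g, p 4 2, s 0 3, g, s 2 0, g, s 3 4, p 1 5, g], .hi 0, [.l [5, 12, 6, 4, 7, 1, 7, 5, 0, 1], .l [0, 1], .l [2, 1], .y [0, 2, 10], .l [5, 12, 6, 4, 5, 7, 1, 5, 0, 1], .l [0, 3], .l [4, 3], .l [0, 4, 5], .l [7, 6, 11, 4, 1, 5, 2, 5], .l [0, 6], .l [7, 6], .l [4, 6, 8, 5, 9, 3, 1, 4, 2, 3], .l [0, 8], .l [9, 8], .l [0, 11, 4, 5, 2, 5], .l [0, 11], .l [12, 11]]),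
([p 4 0, g, s 0 1, g, p 3 0, s 0 2, g, s 2 3, p 1 4, g], .hi 4, [.l [6, 3, 9, 3, 1, 4, 2, 3], .l [5, 10, 4, 2, 2, 0, 3], .l [6, 3], .l [4, 1, 1, 5, 4], .l [6, 1, 9, 3, 1, 6, 4, 1], .l [5, 10, 4, 2, 2, 0, 5], .l [6, 1], .c, .r 2314 [1, 5, 2, 3, 4] [1, 1, 1, 1, 1], .l [4, 6], .l [7, 2], .l [10, 5, 1, 4, 2, 3], .l [4, 9], .l [10, 5]]),
([p 5 0, g, s 0 1, g, s 0 2, g, p 3 0, g, s 0 3, p 4 0, g, s 1 4, p 2 5, g], .lo 8, [.l [5, 12, 6, 1, 5, 3, 1], .l [1, 14, 12, 7, 3, 9, 4, 6, 4, 1], .l [7, 14, 6, 1, 7, 5, 1], .l [9, 14, 4, 11, 5, 9, 1], .l [3, 6, 12, 6, 11, 2, 6, 1], .l [7, 14, 6, 1, 9, 7, 1], .l [9, 14, 4, 11, 3, 9, 1], .l [10, 3, 5, 11, 4, 10, 8, 1], .l [7, 14, 6, 1, 11, 9, 1], .l [9, 14, 4, 11, 1, 9, 1], .y [6, 8], .l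 [7, 3, 12, 7, 11, 9, 1, 6, 4, 1], .l [10, 1, 13, 3, 1], .l [9, 14, 4, 11, 1, 9, 1], .l [5, 12, 6, 1, 2, 0, 1], .l [3, 11, 2, 10, 11, 7, 6, 7], .l [5, 14, 8, 1, 4, 2, 3], .l [7, 14, 6, 11, 8, 9, 6], .l [3, 12, 8, 7, 8, 10, 4, 1], .l [5, 12, 6, 1, 11, 9, 1], .l [7, 12, 4, 11, 1, 9, 1]]),
([p 4 0, g, s 0 1, g, s 0 2, g, s 0 0, p 3 0, g, s 1 3, p 2 4, g], .hi 6, [.l [6, 11, 8, 10, 6, 8, 6, 1], .l [11, 6, 8, 4, 1, 8, 0, 1], .l [8, 5, 11, 3, 1], .l [8, 10, 1, 7, 3, 3, 4, 1], .l [3, 6, 10, 4, 9, 2, 6, 1], .l [3, 6, 10, 4, 9, 2, 6, 1], .l [8, 3, 11, 3, 1], .l [6, 1, 1, 7, 4, 6, 4, 1], .l [8, 1, 3, 9, 4, 8, 6, 1], .r 2316 [1, 2, 5, 3, 4] [1, 1, 1, 1, 1, 1], .l [8, 1, 11, 3, 1], .y [6], .l [3, 9, 2, 8, 9, 5, 4, 5], .l [10, 12,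 1, 7, 8], .l [9, 2, 9], .l [3, 10, 6, 5, 6, 8, 4, 1], .l [8, 10, 1, 7, 8], .l [12, 5, 1]]),
([p 7 0, g, s 0 1, g, p 2 0, g, p 6 2, s 0 3, g, s 0 4, g, s 0 5, s 4 6, p 1 7, g, m 5 0, g, s 3 0, g], .lo 9, [.l [0, 8, 14, 3, 10, 5, 8, 5], .l [1, 15, 13, 8, 14, 3, 10, 5, 8, 5], .l [2, 10, 16, 3, 12, 7, 10, 5], .l [1, 15, 13, 8, 14, 3, 10, 5, 8, 5], .l [3, 15, 11, 6, 14, 5, 10, 3, 8, 1], .l [4, 10, 2, 11, 12, 5, 9, 4, 1, 6, 2, 9], .l [1, 17, 3, 4, 11, 6, 7, 10, 9, 3], .y [4, 9, 12, 6], .l [5, 8, 6, 14, 10, 5, 13, 5, 8, 1, 6, 1], .l [1, 15, 13, 12, 2, 2, 5, 7, 5, 10], .l [1, 15, 13, 12, 2, 7, 4, 4, 1, 6, 4, 9], .l [8, 15, 6, 1, 14, 10, 11, 4, 9, 1], .l [5, 11, 1, 17, 13, 4, 8, 4, 2, 11, 8, 1], .l [17, 3, 4, 6, 1, 7, 5, 8],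 .l [11, 1, 14, 3, 14, 12, 9, 2, 7, 1], .l [13, 15, 1, 9, 2, 7, 1, 8, 1, 4, 2, 9], .l [10, 15, 4, 12, 2, 7, 1, 9, 2, 5, 2, 9], .l [9, 14, 7, 5, 11, 13, 2, 9], .l [11, 13, 1, 9, 2, 7, 1, 10, 3, 6, 2, 9], .l [8, 12, 9, 12, 6, 11, 1, 6, 12, 3, 4, 1], .l [8, 12, 9, 12, 6, 11, 1, 6, 10, 1, 2, 1], .l [17, 7, 16, 12, 1, 12, 9, 2, 7, 1], .l [11, 13, 1, 9, 2, 7, 1, 12, 5, 8, 2, 9], .l [8, 12, 2, 14, 12, 6, 9, 3, 10, 3, 8, 9], .l [17, 7, 16, 12, 1, 12, 9, 2, 7, 1], .l [19, 9, 18, 14, 1, 14, 9, 2, 7, 1], .l [11, 13, 1, 9, 2, 7, 1, 14, 7, 10, 2, 3], .l [5, 12, 2, 2, 16, 1, 11, 4, 6, 2, 10, 3]]),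
([p 7 0, g, s 0 1, g, p 2 0, g, p 6 2, s 0 3, g, s 0 4, g, s 0 5, s 4 6, p 1 7, g, s 3 0, g, m 5 0, g], .lo 9, [.l [0, 8, 16, 5, 12, 5, 10, 7], .l [1, 15, 13, 8, 16, 5, 12, 5, 10, 7], .l [2, 10, 18, 5, 14, 7, 12, 7], .l [1, 15, 13, 8, 16, 5, 12, 5, 10, 7], .l [3, 15, 11, 6, 16, 7, 12, 3, 10, 1], .l [4, 10, 2, 11, 12, 5, 9, 4, 1, 6, 2, 7], .l [1, 19, 5, 6, 13, 6, 7, 12, 11, 3], .y [4, 9, 12, 6], .l [5, 8, 6, 14, 10, 5, 15, 7, 10, 1, 8, 1], .l [1, 15, 13, 12, 2, 2, 5, 7, 5, 8], .l [1, 15, 13, 12, 2, 7, 4, 4, 1, 6, 4, 7], .l [8, 15, 6, 1, 16, 12, 13, 6, 11, 1], .l [5, 11, 1, 15, 11, 4, 8, 4, 2, 9, 6, 1], .l [19, 5, 6, 8, 1, 9, 7, 10], .l [11, 1, 14, 3, 16, 14, 9, 2, 7, 1], .l [13, 15, 1, 9, 2, 7, 1, 8, 1, 4, 2, 7], .l [10,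 15, 4, 12, 2, 7, 1, 9, 2, 5, 2, 7], .l [9, 14, 7, 5, 11, 15, 4, 11], .l [11, 13, 1, 9, 2, 7, 1, 10, 3, 6, 2, 7], .l [8, 12, 2, 18, 16, 6, 9, 3, 8, 1, 6, 7], .l [9, 14, 7, 5, 11, 13, 2, 9], .l [9, 16, 9, 5, 13, 15, 2, 11], .l [11, 13, 1, 9, 2, 7, 1, 12, 5, 8, 2, 3], .l [8, 12, 2, 18, 16, 6, 9, 3, 10, 3, 8, 5], .l [8, 12, 2, 16, 14, 6, 9, 3, 10, 3, 8, 5], .l [19, 9, 18, 14, 3, 14, 9, 2, 7, 1], .l [11, 13, 1, 9, 2, 7, 1, 14, 7, 10, 2, 5], .l [5, 9, 17, 3, 13, 4, 8, 4, 2, 6]]),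
([p 6 0, g, s 0 1, g, p 2 0, g, p 5 2, s 0 0, g, s 0 3, g, s 0 4, s 3 5, p 1 6, g, m 4 0, g], .hi 7, [.l [7, 15, 7, 5, 8, 3, 10, 5, 8, 3], .l [13, 15, 1, 11, 2, 9, 3, 12, 1, 6, 2, 7], .l [7, 15, 7, 5, 8, 3, 10], .l [1, 13, 11, 4, 12, 3, 4, 6, 2, 7], .l [7, 15, 7, 5, 10, 5, 10, 3, 8, 1], .l [1, 17, 3, 4, 11, 4, 6, 5, 6, 9, 8, 3], .l [7, 15, 7, 5, 10, 5, 10], .l [5, 15, 9, 2, 11], .l [5, 15, 9, 2, 11], .l [6, 8, 5], .y [7], .l [8, 14, 2, 16, 14, 8, 11, 5, 2, 7], .l [4, 15, 10, 16, 7, 8, 3, 11, 1, 10, 6, 1], .l [9, 1, 14, 5, 14, 10, 11, 4, 9, 1], .l [4, 13, 8, 14, 7, 8, 3, 9, 1, 8, 6, 1], .l [10, 14, 9, 14, 8, 3, 10, 12, 2, 5], .l [6, 15, 8, 3, 15, 9, 12, 5, 10, 1], .l [11, 3, 14, 3, 14, 12, 9, 2, 7, 1], .l [6, 13, 6, 3,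 13, 9, 10, 3, 8, 1], .r 2319 [1, 2, 7, 3, 4, 5, 6] [1, 1, 1, 1, 1, 1, 1, 1], .l [17, 5, 6, 3, 6, 7, 5, 8], .l [5, 13, 7, 5, 12, 7, 4], .r 2318 [1, 2, 7, 3, 4, 5, 6] [1, 1, 1, 1, 1, 1, 1, 1], .l [11, 13, 1, 9, 2, 7, 1, 10, 1, 6, 2, 7], .l [5, 13, 7, 5, 14, 9, 4]]),
([p 6 0, g, p 2 0, g, s 0 1, g, p 5 2, s 0 0, g, s 0 3, g, s 0 4, s 3 5, p 1 6, g, m 4 0, g], .hi 7, [.l [13, 15, 1, 11, 2, 9, 5, 1, 6, 3], .l [13, 15, 1, 11, 2, 9, 5, 1, 6, 3], .l [5, 15, 9, 8, 2, 9, 4, 8], .l [3, 15, 11, 4, 11], .l [3, 15, 11, 4, 11], .l [4, 8, 5], .l [3, 13, 9, 2, 9], .l [5, 15, 9, 2, 9], .l [5, 15, 9, 2, 9], .l [6, 8, 3], .y [7], .l [13, 15, 1, 11, 4, 9, 3, 1, 6, 1], .l [13, 15, 1, 11, 4, 9, 3, 1, 6, 1], .l [7, 15, 7, 16, 10, 11, 4, 9,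 3, 1, 6, 7], .l [2, 13, 10, 14, 5, 6, 3, 7, 1, 6, 4, 5], .l [13, 15, 1, 9, 2, 7, 3, 1, 4, 5], .l [13, 15, 1, 9, 2, 7, 3, 1, 4, 5], .l [7, 15, 7, 16, 10, 13, 6, 11, 3, 1, 8, 3], .l [6, 13, 6, 3, 13, 9, 10, 3, 8, 3], .l [11, 13, 1, 9, 2, 7, 3, 1, 4, 7], .l [11, 13, 1, 9, 2, 7, 3, 1, 4, 7], .l [3, 13, 9, 8, 2, 11, 6, 3], .l [11, 13, 1, 9, 2, 7, 3, 1, 4, 9], .l [11, 13, 1, 9, 2, 7, 3, 1, 4, 9], .l [3, 13, 9, 8, 2, 13, 8, 3]]),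
([p 5 0, g, s 0 1, g, p 4 0, s 0 0, g, s 0 2, g, s 0 3, s 2 4, p 1 5, g, m 3 0, g], .hi 4, [.l [6, 3, 12, 6, 8, 2, 8, 10, 4, 5], .r 2321 [1, 6, 2, 3, 4, 5] [1, 1, 1, 1, 1, 1, 1], .l [6, 3], .l [4, 1, 1, 8, 7], .l [6, 1, 3, 10, 2, 11, 9, 4], .r 2320 [1, 6, 2, 3, 4, 5] [1, 1, 1, 1, 1, 1, 1], .l [6, 1], .c, .l [7, 2, 12, 5, 13, 9, 10, 5, 8, 1], .l [4, 6], .l [7, 2], .y [4, 7, 10], .l [9, 4, 12, 3, 13, 11, 6, 1, 4, 1], .l [4, 8], .l [9, 4], .l [3, 11, 7, 5, 4], .l [15, 5, 6, 3, 7, 7, 4, 7], .l [4, 12], .l [13, 8], .l [15, 10, 14, 7, 1, 7, 8, 3, 6, 1], .l [4, 14], .l [15, 10]]),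
([p 5 0, g, m 3 0, g, s 0 1, g, p 4 0, g, s 0 2, g, s 0 3, s 2 4, p 1 5, g], .lo 10, [.l [10, 9, 1, 7, 9, 1, 6, 1, 4, 1], .l [12, 9, 1, 7, 11, 1, 8, 1, 6, 3], .l [12, 9, 1, 7, 11, 1, 8, 1, 6, 3], .l [7, 14, 6, 4, 6], .y [2, 10], .l [3, 14, 10, 7, 11, 3, 8, 1, 6, 3], .l [12, 9, 1, 7, 11, 1, 8, 1, 6, 3], .l [3, 14, 10, 7, 11, 3, 8, 1, 6, 3], .l [5, 14, 8, 5, 9, 3, 6, 1, 4, 5], .l [12, 9, 3, 7, 11, 1, 8, 1, 6, 3], .l [5, 14, 8, 5, 9, 3, 6, 1, 4, 5], .l [5, 12, 6, 4, 3], .l [9, 14, 4, 2, 10, 1, 6, 3], .l [5, 14, 8, 6, 3], .l [7, 14, 6, 3, 7, 3, 8], .l [9, 14, 4, 1, 5, 3, 8, 1, 6, 3], .l [5, 14, 8, 6, 1], .l [9, 14, 4, 1, 5, 3, 8, 1, 6, 3], .l [7, 12, 4, 2, 10, 1, 6, 3], .l [2, 9, 13, 3, 10, 1, 8, 5], .l [5, 12, 6, 4, 10]]),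
([p 5 0, g, s 0 1, g, p 4 0, g, s 0 2, g, p 3 0, g, s 0 3, s 2 4, p 1 5, g], .lo 10, [.l [7, 12, 4, 1, 3, 1, 6, 1, 4, 1], .l [5, 14, 8, 6, 8, 10, 8, 1], .l [9, 14, 4, 1, 5, 3, 8, 1, 6, 3], .l [5, 14, 8, 6, 8], .l [1, 4, 10, 12, 4, 3, 6, 1, 4, 5], .l [9, 14, 4, 1, 7, 5, 8, 1, 6, 1], .l [5, 14, 8, 6, 10], .l [3, 12, 8, 6, 5], .l [7, 14, 6, 4, 10, 1, 4, 1], .l [3, 14, 10, 8, 5], .l [7, 14, 6, 4, 10, 1, 4, 1], .l [12, 3, 13, 1, 6, 1, 4, 1], .l [3, 14, 10, 8, 3], .l [11, 14, 2, 11, 1, 9, 6, 1, 4, 1], .y [8, 10], .l [11, 14, 2, 11, 1, 9, 6, 1, 4, 1], .l [3, 14, 10, 8, 1], .l [11, 14, 2, 11, 1, 9, 6, 1, 4, 1], .l [5, 12, 6, 4, 10, 1, 4, 1], .l [7, 12, 4, 1, 11, 9, 6, 1, 4, 1], .l [3, 12, 8, 6, 10]]),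
([p 4 0, g, s 0 1, g, p 3 0, s 0 0, g, s 0 2, g, s 0 0, s 2 3, p 1 4, g], .hi 9, [.l [5, 13, 7, 5, 7, 9, 7, 2], .l [5, 13, 7, 5, 7], .r 2323 [1, 2, 5, 3, 4] [1, 1, 1, 2, 1, 1], .l [3, 11, 7, 5, 7, 7, 5, 2], .l [11, 6, 8, 10, 5, 9, 4, 5], .l [5, 13, 7, 5, 9], .l [11, 6, 8, 10, 5, 9, 4, 5], .l [6, 11, 4, 2, 7, 0, 4, 1], .l [8, 13, 4, 2, 9, 2, 5, 1], .l [8, 13, 4, 2, 9, 2, 5, 1], .l [3, 13, 9, 7, 3], .l [9, 1, 10, 1, 7, 2, 5, 1], .l [11, 1, 12, 1, 7, 2, 5, 1], .r 2324 [1, 2, 5, 3, 4] [1, 1, 2, 1, 1, 1], .l [3, 13, 9, 7, 1], .y [9], .l [6, 11, 4, 2, 9, 2, 5, 1], .l [3, 11, 7, 5, 9], .r 2322 [1, 2, 5, 3, 4] [1, 1, 1, 1, 1, 1]]),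
([p 5 0, g, s 0 1, g, p 4 0, g, s 0 2, g, p 3 0, g, p 6 3, s 2 4, p 1 5, g, p 0 6, g], .lo 14, [.l [0, 13], .l [15, 16, 12, 14, 2, 3, 5, 3, 6, 1, 4, 5], .l [2, 15], .l [1, 14, 12, 13], .l [1, 4, 14, 14, 10, 12, 4, 3, 6, 1, 4, 5], .l [4, 15], .l [3, 14, 10, 13], .l [4, 13], .l [3, 6, 14, 14, 10, 12, 4, 2, 8], .l [6, 15], .l [5, 14, 8, 13], .l [3, 8, 14, 14, 10, 12, 6, 4, 8], .l [8, 15], .l [5, 14, 8, 6, 4, 12, 1, 4, 1, 9, 3, 3, 1], .y [8, 14, 10], .l [9, 14, 4, 13, 1, 9, 6, 1, 4, 1], .l [10, 15], .l [5, 14, 8, 6, 2, 12, 1, 4, 1, 9, 1, 3, 1], .l [15, 16, 10, 12, 2, 11, 1, 9, 6, 1, 4, 1], .l [14, 15], .l [13, 16, 12, 12, 10, 13, 5, 1], .l [13, 14, 10, 12, 2, 11, 1, 9, 6, 1, 4, 1], .l [11, 4, 11, 0, 1, 10, 3, 4, 9, 7, 3,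 6, 3], .l [13, 14, 10, 10, 8, 11, 3, 10]]),
([p 5 0, g, s 0 1, g, p 4 0, g, s 0 2, g, p 3 0, g, p 0 3, s 2 4, p 1 5, g], .lo 10, [.l [0, 9], .l [11, 14, 2, 3, 5, 3, 6, 1, 4, 5], .l [2, 11], .l [1, 14, 12, 9], .l [1, 4, 10, 12, 4, 3, 6, 1, 4, 5], .l [4, 11], .l [3, 14, 10, 7], .l [4, 9], .l [3, 6, 10, 12, 4, 2, 8], .l [6, 11], .l [5, 14, 8, 5], .l [3, 8, 10, 12, 6, 4, 8], .l [8, 11], .l [7, 14, 6, 3], .y [8, 10], .l [11, 14, 2, 11, 1, 9, 6, 1, 4, 1], .l [10, 11], .l [9, 12, 10, 13, 5, 1], .l [9, 12, 2, 11, 1, 9, 6, 1, 4, 1], .r 2326 [1, 2, 3, 4, 5, 6] [1, 1, 1, 1, 1, 1, 1], .l [9, 10, 8, 11, 3, 10]]),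
([p 4 0, g, s 0 1, g, p 3 0, g, s 0 2, g, p 0 0, s 2 3, p 1 4, g], .hi 8, [.l [5, 12, 6, 4, 6], .l [5, 12, 6, 4, 6], .l [10, 7], .l [3, 10, 6, 4, 6], .l [5, 12, 6, 4, 8], .l [5, 12, 6, 4, 8], .l [10, 5], .l [3, 12, 8, 6, 3], .l [7, 12, 4, 2, 8], .l [10, 3], .l [3, 10, 6, 4, 1], .l [3, 12, 8, 6, 1], .r 2327 [1, 2, 5, 3, 4] [1, 1, 1, 1, 1, 1], .l [10, 1], .y [8], .l [3, 10, 6, 4, 8], .l [8, 11], .l [12, 3]]),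
([p 6 0, g, s 0 1, g, p 5 0, g, s 0 2, g, m 0 3, g, m 3 4, s 2 5, p 1 6, g, m 4 0, g], .hi 14, [.l [15, 16, 12, 14, 2, 3, 5, 3, 6, 1, 4, 5], .l [1, 14, 12, 13], .l [2, 15], .l [10, 12, 1, 6, 1, 4, 1, 1, 7, 7, 5, 5, 3], .l [1, 4, 14, 14, 10, 12, 4, 3, 6, 1, 4, 5], .l [3, 14, 10, 13], .l [4, 15], .l [3, 6, 14, 14, 10, 12, 4, 2, 8], .l [5, 14, 8, 13], .l [6, 15], .l [10, 12, 1, 6, 1, 4, 1, 3, 7, 7, 5, 5, 3], .l [3, 8, 14, 14, 10, 12, 6, 4, 8], .l [5, 14, 8, 6, 4, 12, 1, 4, 1, 9, 3, 3, 1], .l [8, 15], .y [8, 10, 14], .l [9, 14, 4, 13, 1, 9, 6, 1, 4, 1], .l [5, 14, 8, 6, 2, 12, 1, 4, 1, 9, 1, 3, 1], .l [10, 15], .l [15, 16, 10, 12, 2, 11, 1, 9, 6, 1, 4, 1], .l [13, 16, 12, 12, 10, 13, 5, 1], .l [14, 15], .l [13, 14, 10, 12,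 2, 11, 1, 9, 6, 1, 4, 1], .l [13, 14, 10, 10, 8, 11, 3, 10], .l [11, 4, 11, 0, 1, 10, 3, 4, 9, 7, 3, 6, 3]]),
([p 5 0, g, s 0 1, g, p 4 0, g, s 0 2, g, m 0 3, g, m 3 0, s 2 4, p 1 5, g], .hi 10, [.l [11, 14, 2, 3, 5, 3, 6, 1, 4, 5], .l [1, 14, 12, 9], .l [2, 11], .l [9, 10, 8, 11, 3, 4, 4, 2, 3], .l [1, 4, 10, 12, 4, 3, 6, 1, 4, 5], .l [3, 14, 10, 7], .l [4, 11], .l [3, 6, 10, 12, 4, 2, 8], .l [5, 14, 8, 5], .l [6, 11], .l [3, 6, 8, 10, 4, 2, 6], .l [3, 8, 10, 12, 6, 4, 8], .l [7, 14, 6, 3], .l [8, 11], .y [8, 10], .l [11, 14, 2, 11, 1, 9, 6, 1, 4, 1], .l [9, 12, 10, 13, 5, 1], .l [10, 11], .l [9, 12, 2, 11, 1, 9, 6, 1, 4, 1], .l [9, 10, 8, 11, 3, 10], .r 2329 [1, 2, 3, 6, 4, 5] [1, 1, 1, 1, 1, 1, 1]]),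
([p 4 0, g, s 0 1, g, p 3 0, g, s 0 2, g, m 0 0, s 2 3, p 1 4, g], .lo 8, [.l [8, 7], .l [5, 12, 6, 4, 6], .l [10, 7], .l [5, 12, 6, 4, 6], .l [5, 12, 6, 4, 8], .l [10, 5], .l [5, 12, 6, 4, 8], .l [8, 3], .l [3, 12, 8, 6, 3], .l [10, 3], .l [7, 12, 4, 2, 8], .l [3, 12, 8, 6, 1], .l [10, 1], .r 2330 [1, 2, 5, 3, 4] [1, 1, 1, 1, 1, 1], .y [8], .l [3, 10, 6, 4, 8], .l [12, 3], .l [8, 11]]),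
([p 4 0, g, s 0 1, g, p 3 0, s 0 0, g, s 0 2, g, s 2 3, p 1 4, g], .bot 8, [.c, .r 2325 [1, 2, 3, 4] [1, 1, 1, 1, 1], .r 2328 [1, 2, 3, 4] [1, 1, 2, 1, 1], .r 2331 [1, 2, 3, 4] [1, 1, 2, 1, 1]]),
([p 4 0, g, s 0 1, g, p 2 0, g, s 0 2, p 3 0, g, s 5 3, p 1 4, g, s 0 5, g], .lo 6, [.l [3, 10, 6, 1, 5, 3, 1], .l [8, 5, 11, 3, 1, 6, 1, 6, 2, 5], .l [5, 12, 6, 1, 7, 5, 1], .l [7, 12, 4, 9, 3, 7, 1], .l [8, 3, 11, 3, 1, 10, 8, 1], .l [5, 12, 6, 1, 9, 7, 1], .l [7, 12, 4, 9, 1, 7, 1], .y [4, 6], .l [7, 12, 4, 9, 1, 7, 1, 8, 6, 1], .l [8, 1, 11, 3, 1], .l [7, 12, 4, 9, 1, 7, 1], .l [3, 10, 6, 1, 2, 0, 1], .l [1, 9, 2, 8, 9, 7, 6, 7], .l [3, 12, 8, 1, 4, 2, 3], .l [5, 12, 6, 9, 6, 7, 4], .l [1, 12, 5, 1, 2, 7, 6, 7], .l [3, 10,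 6, 1, 9, 7, 1], .l [5, 10, 4, 9, 1, 7, 1], .l [1, 10, 8, 7, 8, 10, 4, 1], .l [3, 10, 6, 1, 11, 9, 1], .l [5, 10, 4, 11, 3, 9, 1]]),
([p 3 0, g, s 0 1, g, s 0 0, p 2 0, g, s 4 2, p 1 3, g, s 0 4, g], .hi 4, [.l [6, 3, 9, 3, 1, 8, 6, 3], .l [12, 2, 6, 8, 6, 1], .l [6, 3, 9, 3, 1], .l [4, 1, 7, 3, 1, 6, 4, 1], .l [6, 1, 9, 3, 1, 8, 6, 1], .r 2333 [1, 5, 2, 3, 4] [1, 1, 1, 1, 1, 1], .l [6, 1, 9, 3, 1], .y [4], .l [1, 7, 2, 6, 7, 5, 4, 5], .l [8, 10, 1, 5, 6], .l [7, 2, 7], .l [1, 10, 5, 1, 2, 5, 4, 5], .l [6, 8, 1, 5, 6], .l [10, 5, 1], .l [6, 8, 1, 5, 6, 6, 4, 1], .l [1, 8, 6, 5, 6, 8, 4, 1], .l [6, 8, 1, 5, 8], .l [12, 7, 1]]),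
([p 5 0, g, s 0 1, g, s 0 2, g, p 3 0, g, s 0 3, p 4 0, g, s 2 4, p 1 5, g], .lo 8, [.l [5, 12, 6, 1, 5, 3, 1], .l [1, 4, 12, 6, 11, 2, 6, 1], .l [7, 14, 6, 1, 7, 5, 1], .l [9, 14, 4, 11, 5, 9, 1], .l [1, 6, 11, 12, 5, 4, 8, 5], .l [7, 14, 6, 1, 9, 7, 1], .l [9, 14, 4, 11, 3, 9, 1], .l [1, 4, 11, 12, 3, 2, 8, 3], .l [7, 14, 6, 1, 11, 9, 1], .l [9, 14, 4, 11, 1, 9, 1], .y [6, 8], .l [1, 4, 11, 12, 3, 2, 8, 1], .l [10, 1, 13, 3, 1], .l [9, 14, 4, 11, 1, 9, 1], .l [5, 12, 6, 1, 2, 0, 1], .l [1, 4, 11, 12, 3, 2, 6, 7], .l [5, 14, 8, 1, 4, 2, 3], .l [7, 14, 6, 11, 8, 9, 6], .l [1, 4, 9, 10, 3, 2, 6, 7], .l [5, 12, 6, 1, 11, 9, 1], .l [7, 12, 4, 11, 1, 9, 1]]),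
([p 4 0, g, s 0 1, g, s 0 2, g, s 0 0, p 3 0, g, s 2 3, p 1 4, g], .hi 6, [.l [1, 4, 10, 4, 9, 2, 6, 1], .l [1, 4, 10, 4, 9, 2, 6, 1], .l [8, 5, 11, 3, 1], .l [6, 3, 3, 7, 4, 6, 4, 1], .l [1, 6, 9, 10, 5, 4, 6, 3], .l [1, 6, 9, 10, 5, 4, 6, 3], .l [8, 3, 11, 3, 1], .l [8, 10, 1, 7, 1, 1, 4, 1], .l [1, 4, 9, 10, 3, 2, 6, 1], .r 2335 [1, 2, 5, 3, 4] [1, 1, 1, 1, 1, 1], .l [8, 1, 11, 3, 1], .y [6], .l [1, 4, 9, 10, 3, 2, 4, 5], .l [10, 12, 1, 7, 8], .l [9, 2, 9], .l [1, 4, 7, 8, 3, 2, 4, 5], .l [8, 10, 1, 7, 8], .l [12, 5, 1]]),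
([p 3 0, g, s 0 1, g, s 0 0, p 2 0, s 0 0, g, s 0 2, p 1 3, g], .lo 8, [.l [4, 9, 4, 2, 3, 0, 2], .r 2317 [4, 1, 2, 3] [1, 1, 1, 2, 1], .l [6, 11, 4, 2, 5, 2, 4], .l [3, 11, 7, 6, 7], .r 2336 [1, 4, 2, 3] [1, 1, 1, 2, 1], .l [1, 11, 9, 8, 5], .l [9, 11, 1, 7, 2, 6, 1], .l [1, 9, 7, 6, 3, 2], .y [5, 8], .r 2315 [1, 4, 2, 3] [1, 2, 1, 1], .r 2332 [1, 4, 2, 3] [1, 2, 1, 1, 1], .l [1, 11, 9, 8, 1], .l [9, 11, 1, 8, 2, 7, 1], .r 2334 [1, 2, 3, 4] [1, 1, 2, 1, 1], .l [4, 9, 4, 2, 9, 6, 1], .l [1, 9, 7, 6, 7]]),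
([p 4 0, g, p 2 0, g, s 0 1, g, p 0 2, p 3 0, s 0 0, g, s 0 3, p 1 4, g], .lo 10, [.l [6, 11, 4, 2, 3, 0, 4], .l [12, 9, 12, 0, 7, 9, 7, 2], .l [8, 13, 4, 2, 5, 2, 6], .l [5, 8, 6, 12, 8, 7, 8], .l [2, 9, 9, 6, 5], .l [3, 13, 9, 7, 7, 4, 8], .l [4, 11, 11, 8, 5], .l [3, 13, 9, 7, 7, 4, 8], .l [5, 13, 7, 5, 5, 2, 6], .l [3, 8, 6, 12, 10, 9, 6], .l [5, 13, 7, 5, 5, 2, 6], .y [7, 10], .r 2315 [1, 5, 3, 4] [3, 2, 1, 1], .r 2332 [1, 5, 3, 4] [3, 2, 1, 1, 1], .l [3, 6, 4, 12, 10, 9, 1], .l [11, 13, 1, 10, 2, 9, 3], .l [13, 2, 7, 9, 7, 2], .l [6, 11, 4, 2, 11, 8, 3], .l [3, 6, 4, 10, 8, 7, 8]]),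
([p 5 0, g, s 0 1, g, p 3 2, g, s 2 0, g, p 0 3, p 4 0, s 0 0, g, s 0 4, p 1 5, g], .lo 12, [.l [8, 13, 4, 2, 3, 0, 2], .l [8, 1, 3, 12, 7, 9, 5, 2], .l [10, 15, 4, 2, 5, 2, 4], .l [3, 15, 11, 10, 11], .l [8, 1, 5, 12, 9, 11, 7, 9, 7, 2], .l [1, 15, 13, 12, 9], .l [13, 15, 1, 11, 6, 10, 1], .l [1, 15, 13, 12, 7, 9, 5, 2], .l [1, 15, 13, 12, 7], .l [5, 15, 9, 7, 7, 4, 10], .l [1, 13, 11, 10, 5, 5, 5, 5, 3, 2], .l [1, 15, 13, 12, 5, 9, 7, 2], .l [1, 15, 13, 12, 5], .l [7, 15, 7, 5, 5, 2, 8], .y [9, 12], .r 2315 [1, 6, 4, 5] [1, 6, 1, 1], .r 2332 [1, 6, 4, 5] [1, 6, 1, 1, 1], .l [1, 15, 13, 12, 1], .l [13, 15, 1, 12, 2, 11, 1], .l [11, 15, 2, 4, 8, 1, 3, 4, 6, 3], .l [8, 13, 4, 2, 13, 10, 1], .l [1, 13, 11, 10, 11]]),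
([p 4 0, g, s 0 1, g, p 3 0, g, s 0 2, g, s 2 3, p 1 4, g], .top 5, [.r 2315 [1, 2, 3, 4] [1, 1, 1, 1], .r 2332 [1, 2, 3, 4] [1, 1, 1, 1, 1], .r 2312 [3, 4] [3, 3, 1], .r 2289 [3, 4] [3, 3, 1]]),
([p 5 0, g, p 2 0, g, s 0 1, g, p 3 2, g, p 0 3, p 4 0, g, s 0 4, p 1 5, g], .lo 11, [.l [8, 12, 3, 1, 2, 0, 3], .l [13, 10, 13, 0, 8, 10, 8, 8, 6, 1], .l [10, 14, 3, 1, 4, 2, 5], .l [5, 8, 6, 12, 8, 7, 8], .l [3, 6, 4, 10, 8, 7, 4], .l [5, 8, 4, 12, 10, 9, 4, 6, 4, 1], .l [5, 8, 4, 12, 10, 9, 4], .l [5, 14, 8, 7, 10], .l [13, 6, 10, 8, 8, 6, 1], .l [3, 8, 6, 12, 10, 9, 6], .l [12, 14, 1, 11, 4, 10, 3], .l [3, 6, 4, 12, 10, 9, 4, 6, 4, 1], .l [3, 6, 4, 12, 10, 9, 4], .l [7, 14, 6, 4, 4, 2, 9], .y [9, 11], .r 2340 [1, 6, 4, 5]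 [3, 4, 1, 1, 1], .l [3, 6, 4, 12, 10, 9, 1], .l [12, 14, 1, 11, 1, 10, 3], .l [14, 2, 8, 10, 8, 8, 6, 1], .l [8, 12, 3, 1, 12, 10, 3], .l [3, 6, 4, 10, 8, 7, 8]]),
([p 7 0, g, s 0 1, g, p 2 0, g, p 3 2, g, p 4 0, g, p 5 3, p 6 4, s 0 0, g, p 0 5, g, s 0 6, p 1 7, g], .hi 12, [.l [12, 16, 15, 15, 11, 11, 9, 14, 8, 6, 1, 4, 6], .l [12, 16, 15, 15, 11, 11, 9, 14, 8, 6, 1, 4, 6], .l [12, 13, 10, 18, 8, 6, 9, 5, 12], .l [10, 14, 13, 13, 9, 9, 7, 12, 8, 6, 1, 4, 6], .l [12, 16, 15, 15, 11, 11, 9, 14, 8, 6, 1, 4, 8], .l [12, 16, 15, 15, 11, 11, 9, 14, 8, 6, 1, 4, 8], .l [1, 4, 12, 17, 7, 6, 14, 12, 11, 11, 7, 7, 5], .l [12, 16, 15, 15, 11, 11, 7, 14, 10, 8, 1, 6, 3], .l [12, 16, 15, 15, 11, 11, 7, 14, 10, 8, 1, 6, 3], .l [14,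 7, 9, 7, 7, 3, 12], .l [12, 16, 15, 15, 9, 9, 7, 14, 10, 8, 1, 6, 3], .l [12, 16, 15, 15, 9, 9, 7, 14, 10, 8, 1, 6, 3], .l [14, 5, 7, 3, 14], .l [9, 19, 9, 3, 15], .l [9, 19, 9, 3, 15], .l [10, 13, 10], .y [12], .l [10, 16, 15, 15, 11, 11, 9, 14, 10, 8, 1, 6, 1], .l [10, 16, 15, 15, 11, 11, 9, 14, 10, 8, 1, 6, 1], .l [12, 16, 13, 1, 17, 8, 16, 11, 13, 4, 2, 8, 1], .l [10, 14, 13, 13, 9, 9, 7, 12, 8, 6, 1, 4, 1], .l [10, 14, 13, 13, 9, 9, 7, 14, 10, 8, 3, 6, 3], .l [11, 14, 12, 13, 11, 16, 8, 4, 6, 4, 11], .l [10, 14, 13, 13, 9, 9, 7, 14, 10, 8, 3, 6, 3], .l [11, 14, 12, 13, 11, 14, 6, 4, 4, 2, 9], .l [10, 14, 13, 13, 9, 9, 7, 12, 8, 6, 1, 4, 8], .l [10, 14, 13, 13, 9, 9, 7, 12, 8, 6, 1, 4, 8], .l [7, 17, 9, 2, 14, 14,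 12, 14, 5, 0, 7]]),
([p 6 0, g, s 0 1, g, p 2 0, g, p 3 2, g, p 4 3, p 5 0, s 0 0, g, p 0 4, g, s 0 5, p 1 6, g], .hi 9, [.l [9, 17, 7, 0, 14, 14, 12, 3, 9, 2, 9, 4, 1], .l [9, 17, 7, 0, 14, 5, 11, 2, 11, 6, 3], .l [11, 8], .l [9, 6, 6, 12, 11], .l [9, 17, 7, 0, 14, 3, 11, 2, 11, 6, 1, 9, 5], .l [9, 17, 7, 0, 14, 3, 11, 2, 11, 6, 1], .l [11, 6], .l [11, 4, 6, 4, 4, 2, 10], .l [9, 17, 7, 0, 14, 1, 11, 2, 11, 6, 1], .l [11, 4], .l [11, 2, 4, 2, 12], .r 2342 [1, 2, 3, 7, 4, 5, 6] [1, 1, 1, 1, 1, 1, 1, 1], .l [11, 2], .c, .l [1, 12, 2, 12, 8, 9, 13, 9, 8, 10, 5, 5, 3], .l [9, 11], .l [12, 2], .l [9, 11], .l [1, 6, 7, 6, 12, 4, 5, 2, 12, 5, 4, 8, 5], .l [9, 13], .l [14, 4], .y [9, 14], .l [17, 7, 8, 5, 15, 12, 6, 7, 6, 6,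 2, 8, 1], .l [9, 16], .l [17, 7]]),
([p 5 0, g, s 0 1, g, s 0 2, g, p 3 0, g, p 2 3, p 4 0, g, s 0 4, p 1 5, g], .lo 11, [.l [8, 12, 3, 1, 2, 0, 1], .l [1, 14, 12, 10, 6, 3, 6, 7, 4, 1], .l [10, 14, 3, 1, 4, 2, 3], .l [3, 14, 10, 9, 10], .l [6, 9, 5, 11, 4, 6, 4, 1], .l [1, 14, 12, 11, 8], .l [12, 14, 1, 11, 6, 10, 1], .l [12, 8, 5, 8, 10, 7, 3, 8, 2, 5], .l [1, 14, 12, 11, 6], .l [12, 14, 1, 11, 4, 10, 1], .l [1, 12, 10, 9, 4], .l [1, 14, 12, 11, 4, 6, 4, 1], .l [1, 14, 12, 11, 4], .l [7, 14, 6, 4, 4, 2, 9], .y [9, 11], .l [10, 2, 4, 12, 3, 1, 9, 2, 6, 1], .l [1, 14, 12, 11, 1], .l [12, 14, 1, 11, 1, 10, 1], .l [10, 2, 4, 6, 8, 9, 6, 2, 6, 1], .l [8, 12, 3, 1, 12, 10, 1], .l [1, 12, 10, 9, 10]]),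
([p 5 0, g, s 0 1, g, s 0 2, g, p 3 0, g, p 1 3, p 4 0, s 0 0, g, s 0 4, p 2 5, g], .lo 10, [.l [2, 7, 9, 3, 5, 8, 4, 1], .l [3, 15, 11, 5, 7, 10, 6, 4, 6, 3], .l [4, 9, 11, 3, 7, 10, 4, 1], .l [3, 15, 11, 5, 7, 10, 6, 4, 6, 3], .l [9, 12, 6, 13, 9, 10, 4, 8, 5, 1], .l [12, 7, 14, 2, 8, 3, 10, 4, 6, 3], .l [9, 12, 6, 13, 9, 10, 4, 8, 5, 1], .l [9, 12, 8, 13, 7, 8, 4, 6, 3, 6], .l [6, 11, 7, 5, 8, 11, 8, 3], .l [9, 12, 8, 13, 7, 8, 4, 6, 3, 6], .l [10, 3, 3, 1, 8], .l [3, 8, 10, 13, 7, 6, 10, 5], .l [12, 3, 5, 3, 10], .l [7, 15, 7, 3, 5, 4, 10], .c, .y [10], .l [9, 1, 6, 14, 5, 1, 9, 2, 4, 7], .l [12, 1, 3, 7, 12, 2, 8, 3, 5, 6], .l [9, 1, 6, 14, 5, 1, 9, 2, 4, 7], .l [1, 13, 11, 5, 7, 10, 6, 4, 6, 3], .l [2, 7, 14, 4,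 8, 5, 8, 2, 4, 6], .l [1, 13, 11, 5, 7, 10, 6, 4, 6, 3]]),
([p 6 0, g, s 0 1, g, p 2 0, g, p 3 2, g, p 4 3, p 5 4, g, s 0 5, p 1 6, g], .lo 11, [.l [8, 9, 8, 8, 6, 6, 4, 7, 3, 1, 2, 0, 1], .l [10, 11, 10, 10, 8, 8, 6, 1, 7, 4, 6, 4, 1], .l [10, 11, 10, 10, 8, 8, 6, 9, 3, 1, 4, 2, 3], .l [3, 14, 10, 9, 10], .l [1, 4, 11, 12, 3, 2, 8, 8, 7, 7, 5, 5, 3], .l [1, 14, 12, 11, 8], .l [12, 14, 1, 11, 6, 10, 1], .y [4, 11, 9, 8, 6], .l [1, 14, 12, 11, 6, 8, 6, 6, 4, 1], .l [1, 14, 12, 11, 6], .l [12, 14, 1, 11, 4, 10, 1], .l [1, 14, 12, 11, 4, 6, 4, 1], .l [1, 14, 12, 11, 4], .l [7, 14, 6, 4, 4, 2, 9], .r 2340 [1, 7, 5, 6] [1, 6, 1, 1, 1], .l [1, 14, 12, 11, 1], .l [12, 14, 1, 11, 1, 10, 1], .l [7, 12, 4, 0, 9, 9, 7, 4, 7, 2,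 0, 4, 1], .l [8, 9, 8, 8, 6, 6, 4, 7, 3, 1, 6, 4, 1], .l [1, 12, 10, 9, 10]]),
([p 5 0, g, s 0 1, g, p 2 0, g, p 3 2, g, p 0 3, p 4 0, s 0 0, g, s 0 4, p 1 5, g], .lo 8, [.l [0, 7], .r 2345 [6, 1, 3, 4, 5] [1, 1, 3, 1, 1, 1], .l [2, 9], .l [1, 15, 13, 7], .r 2344 [1, 6, 3, 4, 5] [1, 1, 3, 1, 2, 1], .l [4, 9], .l [3, 15, 11, 5], .y [4, 8, 6], .r 2344 [1, 6, 3, 4, 5] [1, 3, 1, 1, 2, 1], .l [6, 9], .l [5, 8, 6, 13, 9, 3], .l [9, 15, 5, 12, 1, 10, 2], .l [8, 9], .l [1, 15, 13, 12, 6, 1, 7, 5, 2], .r 2346 [1, 2, 3, 6, 4, 5] [1, 1, 1, 1, 2, 1], .l [7, 13, 5, 1, 3, 2, 8], .l [7, 15, 7, 3, 5, 2, 10], .r 2343 [1, 2, 3, 6, 4, 5] [1, 1, 1, 1, 1, 1, 1], .l [7, 8, 6, 6, 4, 12, 8, 4], .l [7, 13, 5, 12, 1, 10, 2], .l [9, 15, 13, 5,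 9, 11, 5], .l [7, 8, 6, 6, 4, 10, 6, 9]]),
([p 4 0, g, s 0 1, g, p 2 0, g, p 0 2, p 3 0, s 0 0, g, s 0 3, p 1 4, g], .hi 4, [.l [6, 3, 12, 6, 8, 6, 2], .r 2341 [1, 5, 2, 3, 4] [1, 1, 1, 1, 2, 1], .l [6, 3], .l [4, 1, 10, 6, 8, 6, 2], .l [6, 1, 12, 6, 10, 8, 2], .r 2347 [1, 5, 2, 3, 4] [1, 1, 1, 1, 1, 1], .l [6, 1], .r 2339 [1, 5, 2, 3, 4] [1, 1, 1, 1, 1, 1], .l [4, 5], .l [6, 1], .y [4, 6], .l [8, 3, 3, 1, 6], .l [10, 5, 5, 3, 8], .l [4, 9], .l [10, 5], .l [1, 11, 9, 8, 5], .l [13, 8, 8, 6, 2], .l [4, 12], .l [13, 8]]),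
([p 3 0, g, s 0 1, g, p 0 0, p 2 0, s 0 0, g, s 0 2, p 1 3, g], .hi 4, [.l [6, 3, 10, 4, 2], .r 2338 [1, 4, 2, 3] [1, 1, 1, 1, 1], .l [6, 3], .l [4, 1, 8, 4, 2], .l [6, 1, 10, 4, 2], .r 2348 [1, 4, 2, 3] [1, 1, 1, 1, 1], .l [6, 1], .y [4], .l [6, 1, 6], .l [8, 3, 8], .l [4, 7], .l [8, 3], .l [1, 9, 7, 6, 3], .l [7, 9, 1, 5, 7], .l [4, 10], .l [11, 6]]),
([p 4 0, g, m 0 1, g, s 0 2, g, m 1 0, p 3 0, g, s 0 3, p 2 4, g], .lo 9, [.l [6, 10, 3, 1, 2, 0, 3], .l [11, 8, 11, 0, 6, 8, 6, 1], .l [8, 12, 3, 1, 4, 2, 5], .l [5, 8, 6, 11, 7, 6, 7], .l [3, 12, 8, 6, 6, 4, 7], .l [4, 10, 10, 8, 5], .l [3, 12, 8, 6, 6, 4, 7], .l [5, 12, 6, 4, 4, 2, 5], .l [3, 8, 6, 11, 9, 8, 5], .l [5, 12, 6, 4, 4, 2, 5], .l [5, 10, 4, 2, 2, 0, 3],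 .y [7, 9], .r 2340 [2, 5, 3, 4] [3, 2, 1, 1, 1], .l [3, 6, 4, 11, 9, 8, 1], .l [10, 12, 1, 9, 1, 8, 3], .l [12, 2, 6, 8, 6, 1], .l [6, 10, 3, 1, 10, 8, 3], .l [3, 6, 4, 9, 7, 6, 7]]),
([p 5 0, g, s 0 1, g, s 3 0, g, m 0 2, g, m 2 3, p 4 0, g, s 0 4, p 1 5, g], .lo 11, [.l [8, 12, 3, 1, 2, 0, 1], .l [1, 14, 12, 10, 6, 3, 6, 7, 4, 1], .l [10, 14, 3, 1, 4, 2, 3], .l [3, 14, 10, 9, 10], .l [6, 9, 5, 11, 4, 6, 4, 1], .l [1, 14, 12, 11, 8], .l [12, 14, 1, 11, 6, 10, 1], .l [3, 4, 6, 10, 4, 2, 2, 0, 5], .l [12, 8, 5, 8, 10, 7, 3, 8, 2, 5], .l [1, 14, 12, 11, 6], .l [12, 14, 1, 11, 4, 10, 1], .l [1, 14, 12, 11, 4, 6, 4, 1], .l [1, 14, 12, 11, 4], .l [7, 14, 6, 4, 4, 2, 9], .y [9, 11], .l [10, 2, 4, 12, 3, 1, 9, 2, 6, 1], .l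 [1, 14, 12, 11, 1], .l [12, 14, 1, 11, 1, 10, 1], .l [10, 2, 4, 6, 8, 9, 6, 2, 6, 1], .l [8, 12, 3, 1, 12, 10, 1], .l [1, 12, 10, 9, 10]]),
([p 5 0, g, s 3 0, g, s 0 1, g, m 0 2, g, m 2 3, p 4 0, s 0 0, g, s 0 4, p 1 5, g], .hi 10, [.l [3, 15, 11, 5, 7, 10, 6, 4, 6, 3], .l [3, 15, 11, 5, 7, 10, 6, 4, 6, 3], .l [4, 9, 11, 3, 7, 10, 4, 1], .l [9, 12, 6, 13, 9, 10, 4, 8, 5, 1], .l [9, 12, 6, 13, 9, 10, 4, 8, 5, 1], .l [12, 7, 14, 2, 8, 3, 10, 4, 6, 3], .l [1, 13, 11, 5, 7, 3, 3, 6, 4, 1], .l [9, 12, 8, 13, 7, 8, 4, 6, 3, 6], .l [9, 12, 8, 13, 7, 8, 4, 6, 3, 6], .l [6, 11, 7, 5, 8, 11, 8, 3], .l [10, 3, 3, 1, 8], .l [3, 8, 10, 13, 7, 6, 10, 5], .l [7, 15, 7, 3, 5, 4, 10], .l [12, 3, 5, 3, 10], .y [10], .l [9, 1, 6, 14, 5,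 1, 9, 2, 4, 7], .l [9, 1, 6, 14, 5, 1, 9, 2, 4, 7], .l [12, 1, 3, 7, 12, 2, 8, 3, 5, 6], .l [9, 1, 6, 12, 3, 1, 7, 2, 4, 5], .l [1, 13, 11, 5, 7, 10, 6, 4, 6, 3], .l [1, 13, 11, 5, 7, 10, 6, 4, 6, 3], .l [2, 7, 14, 4, 8, 5, 8, 2, 4, 6]]),
([p 5 0, g, m 0 1, g, s 0 2, g, m 1 3, g, m 3 0, p 4 0, g, s 0 4, p 2 5, g], .lo 11, [.l [8, 12, 3, 1, 2, 0, 3], .l [13, 10, 13, 0, 8, 10, 8, 8, 6, 1], .l [10, 14, 3, 1, 4, 2, 5], .l [5, 8, 6, 12, 8, 7, 8], .l [5, 8, 4, 12, 10, 9, 4, 6, 4, 1], .l [5, 8, 4, 12, 10, 9, 4], .l [5, 14, 8, 7, 10], .l [13, 6, 10, 8, 8, 6, 1], .l [3, 8, 6, 12, 10, 9, 6], .l [12, 14, 1, 11, 4, 10, 3], .l [3, 6, 4, 12, 10, 9, 4, 6, 4, 1], .l [3, 6, 4, 12, 10, 9, 4], .l [7, 14, 6, 4, 4, 2, 9], .l [7, 12, 4, 2,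 2, 0, 7], .y [9, 11], .r 2340 [2, 6, 4, 5] [3, 4, 1, 1, 1], .l [3, 6, 4, 12, 10, 9, 1], .l [12, 14, 1, 11, 1, 10, 3], .l [14, 2, 8, 10, 8, 8, 6, 1], .l [8, 12, 3, 1, 12, 10, 3], .l [3, 6, 4, 10, 8, 7, 8]]),
([p 7 0, g, s 0 1, g, m 3 2, g, s 0 3, g, p 5 0, g, m 2 4, p 6 5, s 0 0, g, m 4 0, g, s 0 6, p 1 7, g], .hi 12, [.l [5, 8, 1, 12, 7, 15, 5, 8, 3, 10], .l [12, 16, 15, 15, 9, 16, 10, 8, 1, 6, 8], .l [12, 13, 10, 18, 8, 6, 9, 5, 10], .l [10, 14, 13, 13, 7, 14, 10, 8, 1, 6, 8, 8, 6], .l [5, 8, 1, 12, 5, 15, 5, 10, 5, 1], .l [12, 16, 15, 15, 9, 16, 10, 8, 1, 6, 10], .l [1, 4, 12, 17, 7, 6, 14, 12, 11, 13, 11, 9, 5], .l [1, 6, 12, 17, 9, 8, 14, 7], .l [12, 16, 15, 15, 7, 16, 12, 10, 1, 8, 3], .l [14, 7, 9, 3, 14], .l [1,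 6, 10, 8, 9, 14, 7, 6, 10, 5], .l [1, 8, 12, 17, 11, 10, 14, 5], .l [12, 16, 15, 15, 7, 16, 12, 10, 1, 8, 5], .l [14, 5, 9, 5, 14], .l [9, 19, 9, 3, 15], .l [9, 19, 9, 3, 15], .l [10, 13, 10], .y [12], .l [13, 16, 12, 17, 7, 3, 13], .l [10, 16, 15, 15, 9, 16, 12, 10, 1, 8, 1], .l [12, 16, 13, 1, 17, 8, 16, 11, 13, 6, 4, 8, 1], .l [1, 6, 1, 14, 3, 5, 3, 13, 5, 4, 8, 5], .l [11, 14, 12, 13, 11, 16, 8, 4, 6, 4, 9], .l [10, 14, 13, 13, 7, 16, 12, 10, 3, 8, 5], .l [11, 14, 12, 13, 11, 14, 6, 4, 4, 2, 7], .l [6, 1, 11, 16, 8, 6, 12, 7], .l [10, 14, 13, 13, 7, 14, 10, 8, 1, 6, 10], .l [6, 1, 16, 10, 3, 13, 15, 6, 1]]),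
([p 6 0, g, s 0 1, g, m 3 2, g, s 0 3, g, m 2 4, p 5 0, s 0 0, g, m 4 0, g, s 0 5, p 1 6, g], .hi 9, [.l [5, 8, 1, 9, 4, 14, 7, 9, 2, 9], .l [9, 17, 7, 0, 12, 3, 9, 2, 9, 4, 1], .l [11, 8], .l [9, 6, 6, 12, 11], .l [5, 8, 1, 9, 2, 14, 7, 11, 4, 1], .l [9, 17, 7, 0, 12, 1, 9, 2, 9, 4, 1], .l [11, 6], .l [11, 4, 6, 2, 12], .l [1, 8, 3, 8, 4, 8, 1, 10, 6, 11, 9, 8, 1], .l [11, 4], .l [4, 5, 8, 2, 2, 0, 9], .l [11, 2, 6, 4, 12], .r 2354 [1, 2, 3, 4, 7, 5, 6] [1, 1, 1, 1, 1, 1, 1, 1], .l [11, 2], .c, .l [1, 6, 1, 10, 2, 13, 7, 6, 8, 3], .l [9, 11], .l [12, 2], .l [1, 6, 1, 12, 4, 5, 2, 12, 5, 4, 8, 5], .l [9, 13], .l [14, 4], .y [9, 14], .l [6, 1, 8, 15, 10, 8, 12, 5], .l [9, 16], .l [17, 7]]),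
([p 7 0, g, s 0 1, g, m 0 2, g, m 2 3, g, p 5 0, g, m 3 4, p 6 5, s 0 0, g, m 4 0, g, s 0 6, p 1 7, g], .hi 12, [.l [12, 16, 15, 15, 11, 11, 9, 14, 8, 6, 1, 4, 6], .l [12, 16, 15, 15, 11, 11, 9, 14, 8, 6, 1, 4, 6], .l [12, 13, 10, 18, 8, 6, 9, 5, 12], .l [10, 14, 13, 13, 9, 9, 7, 12, 8, 6, 1, 4, 6], .l [12, 16, 15, 15, 11, 11, 9, 14, 8, 6, 1, 4, 8], .l [12, 16, 15, 15, 11, 11, 9, 14, 8, 6, 1, 4, 8], .l [1, 4, 12, 17, 7, 6, 14, 12, 11, 11, 7, 7, 5], .l [12, 7, 7, 5, 5, 1, 10], .l [12, 16, 15, 15, 11, 11, 7, 14, 10, 8, 1, 6, 3], .l [12, 16, 15, 15, 11, 11, 7, 14, 10, 8, 1, 6, 3], .l [14, 7, 9, 7, 7, 3, 12], .l [12, 16, 15, 15, 9, 9, 7, 14, 10, 8, 1, 6, 3], .l [12, 16, 15, 15, 9, 9, 7, 14, 10, 8, 1, 6, 3], .l [14, 5, 7,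 3, 14], .l [9, 19, 9, 3, 15], .l [9, 19, 9, 3, 15], .l [10, 13, 10], .y [12], .l [10, 16, 15, 15, 11, 11, 9, 14, 10, 8, 1, 6, 1], .l [10, 16, 15, 15, 11, 11, 9, 14, 10, 8, 1, 6, 1], .l [12, 16, 13, 1, 17, 8, 16, 11, 13, 4, 2, 8, 1], .l [10, 14, 13, 13, 9, 9, 7, 14, 10, 8, 3, 6, 3], .l [11, 14, 12, 13, 11, 16, 8, 4, 6, 4, 11], .l [10, 14, 13, 13, 9, 9, 7, 14, 10, 8, 3, 6, 3], .l [11, 14, 12, 13, 11, 14, 6, 4, 4, 2, 9], .l [10, 14, 13, 13, 9, 9, 7, 12, 8, 6, 1, 4, 8], .l [10, 14, 13, 13, 9, 9, 7, 12, 8, 6, 1, 4, 8], .l [7, 17, 9, 2, 14, 14, 12, 14, 5, 0, 7]]),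
([p 6 0, g, s 0 1, g, m 0 2, g, m 2 3, g, m 3 4, p 5 0, s 0 0, g, m 4 0, g, s 0 5, p 1 6, g], .hi 9, [.l [9, 17, 7, 0, 14, 14, 12, 3, 9, 2, 9, 4, 1], .l [9, 17, 7, 0, 14, 5, 11, 2, 11, 6, 3], .l [11, 8], .l [9, 6, 6, 12, 11], .l [9, 17, 7, 0, 14, 3, 11, 2, 11, 6, 1, 9, 5], .l [9, 17, 7, 0, 14, 3, 11, 2, 11, 6, 1], .l [11, 6], .l [9, 4], .l [11, 4, 6, 4, 4, 2, 10], .l [9, 17, 7, 0, 14, 1, 11, 2, 11, 6, 1], .l [11, 4], .l [11, 2, 4, 2, 12], .r 2356 [1, 2, 3, 4, 7, 5, 6] [1, 1, 1, 1, 1, 1, 1, 1], .l [11, 2], .c, .l [1, 12, 2, 12, 8, 9, 13, 9, 8, 10, 5, 5, 3], .l [9, 11], .l [12, 2], .l [1, 6, 7, 6, 12, 4, 5, 2, 12, 5, 4, 8, 5], .l [9, 13], .l [14, 4], .y [9, 14], .l [17, 7, 8, 5, 15, 12, 6, 7, 6, 6, 2, 8, 1], .l [9, 16],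 .l [17, 7]]),
([p 5 0, g, s 0 1, g, m 0 2, g, m 2 3, p 4 0, s 0 0, g, m 3 0, g, s 0 4, p 1 5, g], .lo 4, [.l [4, 3], .l [6, 3, 14, 8, 10, 8, 4], .l [6, 3], .r 2353 [6, 1, 2, 4, 5] [1, 1, 1, 1, 4, 1], .l [6, 1, 14, 8, 12, 10, 4], .l [6, 1], .r 2357 [1, 6, 2, 3, 4, 5] [1, 1, 1, 1, 1, 1, 1], .r 2355 [1, 2, 6, 3, 4, 5] [1, 1, 1, 1, 1, 1, 1], .l [6, 1], .l [4, 5], .l [7, 2], .l [8, 3, 3, 1, 8], .l [10, 5, 5, 3, 10], .l [10, 5], .l [4, 9], .y [4, 6, 10], .l [12, 7, 7, 5, 10], .l [12, 7], .l [4, 11], .l [15, 10, 10, 8, 4], .l [15, 10], .l [4, 14]]),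
([p 4 0, g, s 0 1, g, m 0 2, g, m 2 0, p 3 0, s 0 0, g, s 0 3, p 1 4, g], .hi 6, [.r 2352 [1, 2, 5, 3, 4] [1, 1, 1, 1, 1, 1], .l [1, 13, 11, 5], .l [2, 7], .l [3, 1, 9, 4, 8, 8, 6, 5, 2], .r 2351 [1, 2, 5, 3, 4] [1, 1, 1, 1, 2, 1], .l [3, 13, 9, 3], .l [4, 7], .y [4, 6], .l [7, 13, 5, 10, 1, 8, 2], .l [1, 13, 11, 10, 6, 1, 7, 5, 2], .l [6, 7], .l [5, 11, 5, 1, 3, 2, 6], .l [5, 13, 7, 3, 5, 2, 8], .l [5, 6, 4, 12, 8, 4], .r 2358 [1, 2, 5, 3, 4] [1, 1, 1, 1, 1, 1], .l [5, 11, 5, 3, 3, 0, 6], .l [5, 11, 5, 10, 1, 8, 2], .l [5, 6, 4, 10, 6, 9], .l [7, 13, 11, 3, 7, 9, 3]]),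
([p 3 0, g, s 0 1, g, m 0 0, p 2 0, s 0 0, g, s 0 2, p 1 3, g], .lo 4, [.l [4, 3], .l [6, 3, 10, 4, 2], .l [6, 3], .r 2350 [4, 1, 2, 3] [1, 1, 1, 2, 1], .l [6, 1, 10, 4, 2], .l [6, 1], .r 2359 [1, 4, 2, 3] [1, 1, 1, 1, 1], .y [4], .l [5, 0], .l [6, 1, 6], .l [8, 3, 8], .l [8, 3], .l [4, 7], .l [7, 9, 1, 5, 7], .l [11, 6], .l [4, 10]]),
([p 3 0, g, s 0 1, p 2 0, g, s 0 2, p 1 3, g], .lo 5, [.l [0, 4, 4, 2, 3], .l [4, 7, 4, 6, 4, 1], .l [2, 6, 6, 4, 5], .l [1, 8, 6, 4, 4, 2, 3], .y [3, 5], .r 2340 [1, 4, 2, 3] [1, 0, 1, 1, 1], .l [1, 8, 6, 5, 1], .l [6, 8, 1, 5, 1, 4, 1], .l [8, 2, 4, 1], .l [2, 6, 3, 1, 6, 4, 1], .l [1, 6, 4, 3, 4]]),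
([p 3 0, g, s 0 1, g, p 2 0, s 0 0, g, s 0 2, p 1 3, g], .bot 3, [.r 2361 [1, 2, 3] [1, 2, 1], .r 2337 [1, 2, 3] [1, 1, 1, 1], .r 2349 [1, 2, 3] [1, 1, 1, 1], .r 2360 [1, 2, 3] [1, 1, 1, 1]]),
([p 2 0, g, p 1 0, g, s 3 1, p 5 2, g, p 4 3, g, p 6 4, g, p 0 5, g, p 7 6, g, p 8 7, g, p 0 8, g], .lo 11, [.y [0, 11, 5], .l [10, 8, 11, 13, 11, 3, 8, 4, 5], .l [2, 12], .l [1, 7, 5, 10], .l [2, 10], .l [3, 7, 3, 10, 10, 2, 3], .l [4, 12], .l [3, 7, 3, 10], .l [6, 9, 6, 7, 3, 8, 8, 2, 3], .l [7, 12], .l [6, 13, 11, 11, 6, 5], .l [8, 11, 9, 9, 6, 7, 3, 6, 6, 2, 3], .l [9, 12], .l [8, 11, 9, 11, 9, 9, 4, 3], .l [10, 15, 13, 13, 11, 11, 8, 9, 5, 1, 1, 2, 3], .l [11, 12], .l [7, 2, 6, 5, 11, 5, 9, 7, 9, 1, 7, 1, 7, 1, 3, 1, 5, 3],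 .l [12, 15, 11, 11, 9, 9, 6, 7, 3, 6, 6, 2, 3], .l [13, 15, 10, 6, 1, 6, 3, 8, 4, 5, 9, 5, 3, 5, 7, 5, 5, 3], .l [8, 11, 7, 5, 8, 1, 8, 10, 8, 5], .l [10, 13, 11, 11, 9, 9, 6, 7, 3, 6, 1, 2, 3], .l [7, 2, 6, 5, 9, 3, 7, 5, 7, 1, 7, 1, 7, 1, 3, 1, 5, 3], .l [8, 11, 7, 5, 8, 1, 10, 12, 10, 10, 8, 5], .l [10, 13, 11, 11, 9, 9, 6, 7, 3, 8, 3, 4, 5], .l [7, 2, 6, 5, 9, 3, 7, 5, 7, 1, 9, 3, 7, 5, 7, 1, 3, 1], .l [7, 2, 4, 1, 9, 5, 5, 3, 1, 3, 1, 7, 9, 7, 7, 5, 5, 3], .l [10, 13, 11, 11, 9, 9, 6, 7, 3, 10, 5, 6, 7], .l [7, 2, 13, 18, 14, 16, 14, 14, 8, 2, 6, 8, 1, 8, 5, 1, 4, 1], .l [10, 11, 5, 5, 0, 15]]),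
([p 2 0, g, p 1 0, g, s 3 1, p 5 2, g, p 4 3, g, p 6 4, g, p 0 5, g, p 7 6, g, p 0 7, g], .lo 15, [.l [0, 14], .l [10, 8, 15, 15, 13, 13, 9, 3, 10, 6, 7], .l [2, 16], .l [1, 7, 5, 14], .y [2, 15, 13, 9, 7, 4], .l [3, 7, 3, 14, 14, 12, 12, 8, 8, 6, 8, 4, 5], .l [4, 16], .l [3, 7, 3, 14], .l [6, 9, 6, 7, 3, 12, 7, 8, 3], .l [7, 16], .l [6, 13, 11, 11, 6, 13], .l [8, 11, 9, 9, 6, 7, 3, 10, 5, 6, 3], .l [9, 16], .l [8, 11, 9, 11, 9, 9, 4, 11], .l [10, 15, 13, 13, 11, 11, 8, 9, 5, 8, 1, 2, 3], .l [11, 16], .l [8, 13, 9, 5, 10, 3, 12, 12, 10, 10, 8, 5], .l [12, 15, 11, 11, 9, 9, 6, 7, 3, 8, 3, 4, 1], .l [13, 16], .l [12, 15, 11, 11, 9, 11, 9, 9, 4, 9], .l [16, 17, 13, 13, 9, 9, 7, 7, 4, 5, 1, 6, 3, 4, 1], .l [15, 16], .l [14,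 17, 15, 15, 11, 11, 9, 11, 9, 9, 4, 1], .l [14, 15, 13, 13, 9, 9, 7, 7, 4, 5, 1, 6, 3, 4, 1], .r 2363 [1, 2, 3, 4, 5, 6, 7, 8] [1, 1, 1, 1, 1, 1, 1, 1, 1], .l [14, 15, 13, 13, 9, 9, 7, 9, 7, 7, 2, 7]]),
([p 2 0, g, p 1 0, g, s 3 1, p 5 2, g, p 4 3, g, p 6 4, g, p 0 5, g, p 0 6, g], .lo 13, [.l [0, 12], .l [10, 8, 13, 13, 9, 3, 10, 6, 7], .l [2, 14], .l [1, 7, 5, 12], .y [2, 13, 9, 7, 4], .l [3, 7, 3, 12, 12, 8, 8, 6, 8, 4, 5], .l [4, 14], .l [3, 7, 3, 12], .l [6, 9, 6, 7, 3, 10, 5, 6, 1], .l [7, 14], .l [6, 13, 11, 11, 6, 11], .l [8, 11, 9, 9, 6, 7, 3, 8, 3, 4, 1], .l [9, 14], .l [8, 11, 9, 11, 9, 9, 4, 9], .l [14, 15, 9, 9, 7, 7, 4, 5, 1, 4, 6, 2, 3], .l [11, 14], .l [8, 13, 9, 5, 10, 3, 10, 10, 8, 5], .l [14, 15, 9,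 9, 7, 7, 4, 5, 1, 6, 3, 4, 1], .l [13, 14], .l [12, 15, 11, 11, 9, 11, 9, 9, 4, 1], .l [12, 13, 9, 9, 7, 7, 4, 5, 1, 6, 3, 4, 1], .r 2364 [1, 2, 3, 4, 5, 6, 7] [1, 1, 1, 1, 1, 1, 1, 1], .l [12, 13, 9, 9, 7, 9, 7, 7, 2, 7]]),
([p 3 0, g, p 2 1, g, s 0 2, p 4 3, g, p 0 4, g, s 1 0, g], .lo 4, [.l [1, 9, 6, 2, 5, 3, 4, 0, 1], .l [5, 7, 1, 2, 6, 4, 1], .l [3, 11, 6, 2, 5, 3, 6, 2, 3], .l [5, 7, 1, 2, 6, 4, 1], .l [5, 7, 1, 4, 6, 2, 3], .l [1, 11, 8, 4, 7, 5, 3, 4, 1], .l [5, 7, 1, 4, 6, 2, 3], .l [3, 5, 1, 4, 6, 2, 3], .l [2, 10, 6, 8, 1, 5, 1, 4, 1], .l [3, 5, 1, 4, 6, 2, 3], .l [3, 5, 1, 6, 3, 4, 1], .l [1, 11, 8, 2, 7, 5, 1, 4, 1], .l [3, 5, 1, 6, 3, 4, 1], .y [2, 9, 4], .l [3, 5, 1, 8, 5, 6, 3], .l [1, 9, 6, 2, 5, 3,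 6, 2, 3], .l [3, 5, 1, 8, 5, 6, 3]]),
([p 5 0, g, p 1 0, g, p 2 1, g, p 3 2, p 4 3, s 0 0, g, s 0 4, p 6 5, g, p 0 6, g], .hi 8, [.l [8, 9, 8, 12, 4, 0, 9, 9, 7, 9, 5, 2, 5], .l [8, 9, 8, 12, 4, 0, 9, 9, 7, 9, 5, 2, 5], .l [7, 13, 5, 0, 10, 10, 8, 10, 6, 8, 5, 0, 5], .l [8, 9, 8, 12, 4, 0, 9, 9, 5, 9, 7, 2, 3], .l [8, 9, 8, 12, 4, 0, 9, 9, 5, 9, 7, 2, 3], .l [10, 5, 7, 5, 5, 3, 6], .l [8, 9, 8, 12, 4, 0, 7, 7, 5, 9, 7, 2, 3], .l [8, 9, 8, 12, 4, 0, 7, 7, 5, 9, 7, 2, 3], .l [10, 3, 5, 3, 8], .y [8], .l [6, 7, 6, 12, 6, 0, 9, 9, 7, 9, 7, 4, 1], .l [6, 7, 6, 12, 6, 0, 9, 9, 7, 9, 7, 4, 1], .l [10, 1, 12, 2, 6, 7, 6, 10, 6, 2, 6], .l [6, 7, 6, 10, 4, 0, 7, 7, 5, 7, 5, 2, 1], .l [6, 7, 6, 10, 4, 0, 7, 7, 5, 9, 7, 2, 3], .l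 [6, 7, 6, 10, 4, 0, 7, 7, 5, 9, 7, 2, 3], .l [13, 4, 12, 9, 12, 2, 8], .l [6, 7, 6, 10, 4, 0, 7, 7, 5, 7, 5, 2, 3], .l [6, 7, 6, 10, 4, 0, 7, 7, 5, 7, 5, 2, 5], .l [6, 7, 6, 10, 4, 0, 7, 7, 5, 7, 5, 2, 5], .l [4, 6, 5, 10, 6, 1, 7, 11, 6, 1, 3, 6, 3]])]

def d09_1 : List (List Item × Qry × List Rf) := [
([p 4 0, g, p 1 0, g, p 2 1, g, p 0 2, p 3 0, s 0 0, g, s 0 3, p 5 4, g, p 0 5, g], .hi 7, [.l [6, 8, 7, 12, 6, 2, 7, 11, 9, 4, 5], .l [6, 8, 7, 12, 6, 2, 7, 11, 9, 4, 5], .l [9, 6], .l [9, 4, 6, 4, 4, 2, 6], .l [6, 8, 7, 12, 6, 2, 9, 11, 7, 4, 7], .l [9, 4], .l [9, 2, 4, 2, 8], .l [6, 13, 6, 2, 11, 13, 7, 4, 9], .l [9, 2], .r 2367 [1, 2, 6, 3, 4, 5] [1, 1, 1, 1, 1, 1], .c, .l [10, 2, 12, 2, 6, 7, 6, 11, 7, 2, 7], .l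 [7, 9], .l [10, 2], .y [7, 10], .l [7, 12, 14, 12, 9], .l [7, 12], .l [13, 5], .l [7, 12], .r 2366 [6, 3, 4, 5] [6, 2, 1, 1, 1], .l [7, 14], .l [15, 7]]),
([p 3 0, g, p 1 0, g, p 0 1, p 2 0, s 0 0, g, s 0 2, p 4 3, g, p 0 4, g], .hi 2, [.l [4, 1, 10, 6, 8, 6, 2], .r 2368 [5, 1, 2, 3, 4] [1, 1, 1, 1, 1, 1], .l [4, 1], .l [7, 11, 3, 7, 1, 11, 7, 4, 7], .l [2, 3], .l [4, 1], .y [2, 4], .l [6, 3, 3, 1, 4], .l [8, 5, 5, 3, 6], .l [2, 7], .l [8, 5], .l [2, 7, 7, 4, 3], .l [11, 8, 8, 6, 2], .l [2, 10], .l [11, 8], .l [2, 10], .l [13, 10, 10, 8, 2], .l [2, 12], .l [13, 10]]),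
([p 2 0, g, p 0 0, p 1 0, s 0 0, g, s 0 1, p 3 2, g, p 0 3, g], .hi 2, [.l [4, 1, 8, 4, 2], .r 2369 [4, 1, 2, 3] [1, 1, 1, 1, 1], .l [4, 1], .y [2], .l [4, 1, 4], .l [6, 3, 6], .l [2, 5], .l [6, 3], .l [5, 7, 1, 3, 2], .l [5, 7, 1, 3, 5], .l [2, 8], .l [9, 6], .l [2, 8], .l [5, 7, 1, 3, 7], .l [2, 10], .l [11, 8]]),
([p 3 0, g, m 0 1, g, m 1 0, p 2 0, g, s 0 2, p 4 3, g, p 0 4, g], .hi 5, [.l [4, 10, 5, 2, 5, 9, 7, 2, 3], .l [4, 10, 5, 2, 5, 9, 7, 2, 3], .l [7, 4], .l [5, 2], .l [7, 2, 4, 2, 5], .l [4, 10, 5, 2, 7, 9, 5, 2, 5], .l [7, 2], .l [7, 1, 9, 2, 4, 8, 5, 2, 5], .l [5, 6], .l [7, 1], .y [5, 7], .l [5, 9, 11, 9, 6], .l [5, 9], .l [10, 4], .l [5, 9], .r 2366 [5, 2, 3, 4] [4, 1, 1, 1, 1], .l [5, 11], .l [12, 6]]),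
([p 2 0, g, m 0 0, p 1 0, g, s 0 1, p 3 2, g, p 0 3, g], .lo 2, [.l [2, 1], .l [4, 1, 7, 3, 1], .l [4, 1], .r 2371 [4, 1, 2, 3] [1, 1, 1, 1, 1], .y [2], .l [3, 0], .l [5, 2, 5], .l [5, 2], .l [2, 4], .l [4, 6, 1, 3, 4], .l [8, 5], .l [2, 7], .l [4, 6, 1, 3, 6], .l [10, 7], .l [2, 9]]),
([p 3 0, g, p 1 0, g, s 0 1, p 2 0, g, s 4 2, p 7 3, g, p 5 4, g, p 6 5, g, p 0 6, g, p 0 7, g], .lo 4, [.l [1, 8, 6, 1, 5, 3, 1], .l [12, 2, 4, 1, 12, 10, 14, 12, 3, 11, 5, 9, 1], .l [3, 10, 6, 1, 7, 5, 1], .l [5, 10, 4, 7, 1, 5, 1], .y [2, 4], .l [1, 10, 8, 3, 9, 2, 4, 1, 8, 6, 10, 8, 1], .l [6, 1, 9, 3, 1], .l [5, 10, 4, 7, 1, 5, 1], .l [1, 8, 6, 1, 2, 0, 1], .l [6, 10, 3, 6, 15, 11, 2, 11], .l [1, 10, 8, 1, 4, 2, 3], .l [3, 10, 6,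 7, 4, 5, 2], .l [10, 5, 1, 6, 1, 14, 10, 10, 7, 9, 7, 7, 5], .l [1, 8, 6, 1, 7, 5, 1], .l [3, 8, 4, 7, 1, 5, 1], .l [3, 8, 4, 9, 3, 7, 1, 1, 3, 11, 9, 5, 3], .l [1, 8, 6, 1, 9, 7, 1], .l [3, 8, 4, 9, 3, 7, 1], .l [3, 8, 4, 11, 5, 9, 1, 1, 5, 5, 3, 7, 3], .l [1, 8, 6, 1, 11, 9, 1], .l [3, 8, 4, 11, 5, 9, 1], .l [3, 8, 4, 13, 7, 11, 1, 1, 7, 7, 5, 5, 3], .l [1, 8, 6, 1, 13, 11, 1], .l [3, 8, 4, 13, 7, 11, 1], .l [3, 8, 4, 15, 9, 13, 1, 1, 9, 9, 7, 5, 1], .l [1, 8, 6, 1, 15, 13, 1], .l [3, 8, 4, 15, 9, 13, 1]]),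
([p 2 0, g, s 0 0, p 1 0, g, s 3 1, p 6 2, g, p 4 3, g, p 5 4, g, p 0 5, g, p 0 6, g], .hi 2, [.l [10, 2, 6, 15, 8, 12, 1, 1, 5, 5, 3, 1, 3], .r 2373 [7, 1, 2, 3, 4, 5, 6] [1, 1, 1, 1, 1, 1, 1, 1], .l [4, 1, 7, 3, 1], .y [2], .l [5, 2, 5, 8, 2, 6, 5, 11, 5, 9, 7, 7, 5], .l [4, 8, 3, 4, 13, 11, 2], .l [5, 2, 5], .l [10, 4, 9, 8, 14, 5, 10, 8, 8, 6, 8, 4, 1], .l [4, 6, 1, 3, 4], .l [8, 5, 1], .l [10, 7, 1, 4, 2, 6, 5, 11, 5, 9, 7, 7, 5], .l [4, 6, 1, 3, 6], .l [10, 7, 1], .l [12, 9, 1, 10, 7, 12, 4, 9], .l [4, 6, 1, 3, 8], .l [12, 9, 1], .l [4, 6, 1, 3, 8], .l [14, 11, 1, 12, 9, 12, 2, 9], .l [4, 6, 1, 3, 10], .l [14, 11, 1], .l [4, 6, 1, 3, 10], .l [8, 2, 4, 1, 12, 8, 11, 1, 5, 5, 3, 1, 3], .l [4, 6, 1, 3, 12], .l [16,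 13, 1]]),
([p 2 0, g, p 1 0, s 0 0, g, s 3 1, p 6 2, g, p 4 3, g, p 5 4, g, p 0 5, g, p 0 6, g], .bot 1, [.r 334 [] [13], .r 2374 [1, 2, 3, 4, 5, 6] [1, 2, 1, 1, 1, 1, 1], .r 2370 [1, 2, 6] [1, 1, 7, 1], .r 2372 [1, 2, 6] [1, 2, 7, 1]]),
([p 2 0, g, p 1 0, s 0 0, g, s 3 1, p 5 2, g, p 4 3, g, p 0 4, g, p 0 5, g], .lo 10, [.l [0, 9], .l [11, 9, 10, 3, 11, 7, 8], .l [2, 11], .l [1, 8, 6, 9], .y [2, 10, 8, 5], .l [2, 6, 3, 8, 8, 6, 8, 4, 5], .l [4, 8, 3, 9, 9, 7, 9, 4, 5], .l [5, 11], .l [4, 8, 3, 9], .l [7, 10, 7, 8, 3, 7, 9, 4, 5], .l [8, 11], .l [7, 14, 12, 12, 6, 3], .l [11, 12, 8, 8, 5, 6, 1, 5, 7, 2, 3], .l [10, 11], .l [9, 12, 10, 12, 10, 10, 4, 1], .l [9, 10, 8, 8, 5, 6, 1, 5, 7, 2, 3], .r 2375 [1, 2, 3, 4, 6, 5]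 [1, 1, 1, 1, 1, 1, 1], .l [9, 10, 8, 12, 10, 10, 4, 1], .l [9, 10, 8, 8, 5, 6, 1, 7, 4, 5, 1], .r 2365 [1, 2, 3, 4, 5, 6] [1, 2, 1, 1, 1, 1, 1], .l [9, 10, 8, 10, 8, 8, 2, 8]]),
([p 2 0, g, p 1 0, g, s 3 1, p 4 2, g, p 5 3, g, p 0 4, g, p 6 5, g, p 7 6, g, p 8 7, g, p 0 8, g], .lo 9, [.y [0, 9, 5], .l [10, 8, 9, 3, 8, 4, 5], .l [2, 10], .l [1, 7, 5, 8], .l [2, 8], .l [3, 7, 3, 8, 8, 2, 3], .l [4, 10], .l [3, 7, 3, 8], .l [6, 9, 6, 7, 3, 6, 6, 2, 3], .l [7, 10], .l [6, 11, 9, 9, 4, 3], .l [8, 13, 11, 11, 8, 9, 5, 1, 1, 2, 3], .l [9, 10], .l [8, 11, 7, 7, 2, 1], .l [10, 13, 9, 9, 6, 7, 3, 6, 6, 2, 3], .l [8, 17, 10, 6, 14, 16, 10, 4, 12, 4, 4, 6, 9, 0, 6, 4, 2, 1], .l [8, 9, 5, 5, 0, 7], .l [8, 11, 9, 9, 6, 7, 3, 6, 1,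 2, 3], .l [11, 1, 13, 10, 1, 9, 6, 7, 9, 1, 7, 1, 7, 1, 3, 1, 5, 3], .l [8, 9, 5, 5, 0, 9], .l [8, 11, 9, 9, 6, 7, 3, 8, 3, 4, 5], .l [7, 2, 6, 5, 7, 1, 7, 1, 9, 3, 7, 5, 7, 1, 3, 1, 5, 3], .l [8, 9, 5, 5, 0, 11], .l [8, 11, 9, 9, 6, 7, 3, 10, 5, 6, 7], .l [7, 2, 6, 5, 7, 1, 7, 1, 11, 5, 9, 7, 7, 5, 7, 1, 3, 1], .l [7, 2, 6, 5, 7, 1, 7, 1, 3, 1, 3, 7, 9, 7, 7, 5, 5, 3], .l [8, 11, 9, 9, 6, 7, 3, 12, 7, 8, 9], .l [7, 2, 13, 14, 12, 16, 12, 14, 8, 2, 6, 8, 1, 8, 5, 1, 4, 1], .l [8, 9, 5, 5, 0, 15]]),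
([p 2 0, g, p 1 0, g, s 3 1, p 4 2, g, p 5 3, g, p 0 4, g, p 6 5, g, p 7 6, g, p 0 7, g], .lo 15, [.l [0, 14], .l [16, 17, 15, 15, 13, 13, 9, 9, 6, 7, 1, 2, 6, 4, 1], .l [2, 16], .l [1, 7, 5, 14], .y [2, 15, 13, 11, 7, 4], .l [3, 7, 3, 14, 14, 12, 12, 10, 10, 6, 8, 4, 5], .l [4, 16], .l [3, 7, 3, 14], .l [6, 9, 6, 7, 3, 12, 7, 8, 5], .l [7, 16], .l [6, 11, 9, 9, 4, 13], .l [8, 13, 11, 11, 8, 9, 5, 10, 3, 4, 5], .l [9, 16], .l [8, 11, 7, 7, 2, 13], .l [10, 13, 9, 9, 6, 7, 3, 10, 5, 6, 3], .l [11, 16], .l [10, 13, 9, 11, 9, 9, 4, 11], .l [12, 15, 13, 13, 9, 9, 6, 7, 3, 8, 3, 4, 1], .l [13, 16], .l [12, 15, 13, 13, 9, 11, 9, 9, 4, 9], .l [16, 17, 13, 13, 11, 11, 7, 7, 4, 5, 1, 6, 3, 4, 1], .l [15, 16], .l [14, 17, 15, 15,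 13, 13, 9, 11, 9, 9, 4, 1], .l [14, 15, 13, 13, 11, 11, 7, 7, 4, 5, 1, 6, 3, 4, 1], .r 2377 [1, 2, 3, 4, 5, 6, 7, 8] [1, 1, 1, 1, 1, 1, 1, 1, 1], .l [14, 15, 13, 13, 11, 11, 7, 9, 7, 7, 2, 7]]),
([p 2 0, g, p 1 0, g, s 3 1, p 4 2, g, p 5 3, g, p 0 4, g, p 6 5, g, p 0 6, g], .lo 13, [.l [0, 12], .l [14, 15, 13, 13, 9, 9, 6, 7, 1, 2, 6, 4, 1], .l [2, 14], .l [1, 7, 5, 12], .y [2, 13, 11, 7, 4], .l [3, 7, 3, 12, 12, 10, 10, 6, 8, 4, 5], .l [4, 14], .l [3, 7, 3, 12], .l [6, 9, 6, 7, 3, 10, 5, 6, 3], .l [7, 14], .l [6, 11, 9, 9, 4, 11], .l [8, 13, 11, 11, 8, 9, 5, 8, 1, 2, 3], .l [9, 14], .l [8, 11, 7, 7, 2, 11], .l [10, 13, 9, 9, 6, 7, 3, 8, 3, 4, 1], .l [11, 14], .l [10, 13, 9, 11, 9, 9, 4, 9], .l [14, 15, 11, 11, 7, 7,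 4, 5, 1, 6, 3, 4, 1], .l [13, 14], .l [12, 15, 13, 13, 9, 11, 9, 9, 4, 1], .l [12, 13, 11, 11, 7, 7, 4, 5, 1, 6, 3, 4, 1], .r 2378 [1, 2, 3, 4, 5, 6, 7] [1, 1, 1, 1, 1, 1, 1, 1], .l [12, 13, 11, 11, 7, 9, 7, 7, 2, 7]]),
([p 2 0, g, p 1 0, g, s 3 1, p 4 2, g, p 5 3, g, p 0 4, g, p 0 5, g], .lo 11, [.l [0, 10], .l [12, 13, 9, 9, 6, 7, 1, 2, 6, 4, 1], .l [2, 12], .l [1, 7, 5, 10], .y [2, 11, 7, 4], .l [3, 7, 3, 10, 10, 6, 8, 4, 5], .l [4, 12], .l [3, 7, 3, 10], .l [6, 9, 6, 7, 3, 8, 3, 4, 1], .l [7, 12], .l [6, 11, 9, 9, 4, 9], .l [12, 13, 7, 7, 4, 5, 1, 4, 6, 2, 3], .l [9, 12], .l [8, 11, 7, 7, 2, 9], .l [12, 13, 7, 7, 4, 5, 1, 6, 3, 4, 1], .l [11, 12], .l [10, 13, 9, 11, 9, 9, 4, 1], .l [10, 11, 7, 7, 4, 5, 1, 6, 3, 4,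 1], .r 2379 [1, 2, 3, 4, 5, 6] [1, 1, 1, 1, 1, 1, 1], .l [10, 11, 7, 9, 7, 7, 2, 7]]),
([p 2 0, g, p 1 0, s 0 0, g, s 3 1, p 4 2, g, p 0 3, g, p 0 4, g], .lo 8, [.l [0, 7], .l [9, 10, 7, 8, 1, 2, 7, 5, 1], .l [2, 9], .l [1, 8, 6, 7], .y [2, 8, 5], .l [2, 6, 3, 6, 8, 4, 5], .l [4, 8, 3, 7, 9, 4, 5], .l [5, 9], .l [4, 8, 3, 7], .l [9, 10, 5, 6, 1, 5, 7, 2, 3], .l [8, 9], .l [7, 12, 10, 10, 4, 1], .l [7, 8, 5, 6, 1, 5, 7, 2, 3], .r 2376 [1, 2, 3, 5, 4] [1, 1, 1, 1, 1, 1], .l [7, 12, 10, 10, 4, 1], .l [7, 8, 5, 6, 1, 7, 4, 5, 1], .r 2380 [1, 2, 3, 4, 5] [1, 2, 1, 1, 1, 1], .l [7, 10, 8, 8, 2, 8]]),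
([p 3 0, g, p 0 1, g, p 2 0, g, s 1 2, p 4 3, g, p 5 4, g, p 6 5, g, p 7 6, g, p 8 7, g, p 0 8, g], .lo 17, [.y [0, 17, 15, 13, 11, 9, 7], .l [1, 9, 7, 16, 16, 14, 14, 12, 12, 10, 10, 8, 8, 6, 3], .l [2, 18], .l [1, 9, 7, 16], .l [18, 19, 17, 17, 15, 15, 13, 13, 11, 11, 9, 5, 8, 0, 5], .l [4, 18], .l [2, 7, 3, 16, 16, 14, 14, 12, 12, 10, 10, 8, 8, 6, 6, 3, 5, 3], .l [4, 16], .l [5, 9, 3, 16, 16, 14, 14, 12, 12, 10, 10, 8, 8, 2, 5], .l [6, 18], .l [2, 7, 1, 16, 16, 14, 14, 12, 12, 10, 10, 8, 8, 6, 3], .l [8, 11, 9, 3, 8, 2, 13], .l [9, 18], .l [7, 11, 10, 3, 9, 3, 7, 1, 5, 11, 11, 9, 9, 7, 7, 5, 5, 1], .l [10, 13, 11, 11, 9, 3, 8, 2, 11], .l [11, 18], .l [9, 13, 12, 12, 10, 3, 9, 3, 7, 1, 5, 9, 9, 7, 7, 5, 5, 1], .l [12,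 15, 13, 13, 11, 11, 9, 3, 8, 2, 9], .l [13, 18], .l [11, 15, 14, 14, 12, 12, 10, 3, 9, 3, 7, 1, 5, 7, 7, 5, 5, 1], .l [14, 17, 15, 15, 13, 13, 11, 11, 9, 3, 8, 2, 7], .l [15, 18], .l [13, 17, 16, 16, 14, 14, 12, 12, 10, 3, 9, 3, 7, 1, 5, 5, 5, 1], .l [16, 19, 17, 17, 15, 15, 13, 13, 11, 11, 9, 3, 8, 2, 1], .l [17, 18], .l [15, 19, 18, 18, 16, 16, 14, 14, 12, 12, 10, 3, 9, 3, 7, 1, 5, 1], .l [16, 17, 15, 15, 13, 13, 11, 11, 9, 9, 7, 3, 6, 0, 5], .l [15, 17, 16, 16, 14, 14, 12, 12, 10, 10, 8, 3, 7, 1, 5, 1, 5, 1], .l [15, 17, 16, 16, 14, 14, 12, 12, 10, 10, 8, 3, 7, 1, 5, 1, 3, 3]]),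
([p 3 0, g, p 0 1, g, p 2 0, g, s 1 2, p 4 3, g, p 5 4, g, p 6 5, g, p 7 6, g, p 0 7, g], .lo 15, [.y [0, 15, 13, 11, 9, 7], .l [1, 9, 7, 14, 14, 12, 12, 10, 10, 8, 8, 6, 3], .l [2, 16], .l [1, 9, 7, 14], .l [16, 17, 15, 15, 13, 13, 11, 11, 9, 5, 8, 0, 5], .l [4, 16], .l [3, 9, 5, 14], .l [4, 14], .l [5, 9, 3, 14, 14, 12, 12, 10, 10, 8, 8, 2, 5], .l [6, 16], .l [2, 7, 1, 14, 14, 12, 12, 10, 10, 8, 8, 6, 3], .l [8, 11, 9, 3, 8, 2, 11], .l [9, 16], .l [8, 11, 9, 3, 8, 2, 11], .l [10, 13, 11, 11, 9, 3, 8, 2, 9], .l [11, 16], .l [10, 13, 11, 11, 9, 3, 8, 2, 9], .l [12, 15, 13, 13, 11, 11, 9, 3, 8, 2, 7], .l [13, 16], .l [12, 15, 13, 13, 11, 11, 9, 3, 8, 2, 7], .l [14, 17, 15, 15, 13, 13, 11, 11, 9, 3, 8, 2, 1], .l [15, 16],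 .l [14, 17, 15, 15, 13, 13, 11, 11, 9, 3, 8, 2, 1], .l [14, 15, 13, 13, 11, 11, 9, 9, 7, 3, 6, 0, 5], .r 2382 [1, 2, 3, 4, 5, 6, 7, 8] [1, 1, 1, 1, 1, 1, 1, 1, 1], .l [14, 15, 13, 13, 11, 11, 9, 9, 7, 3, 6, 0, 5]]),
([p 3 0, g, p 0 1, g, p 2 0, g, s 1 2, p 4 3, g, p 5 4, g, p 6 5, g, p 0 6, g], .lo 13, [.y [0, 13, 11, 9, 7], .l [1, 9, 7, 12, 12, 10, 10, 8, 8, 6, 3], .l [2, 14], .l [1, 9, 7, 12], .l [14, 15, 13, 13, 11, 11, 9, 5, 8, 0, 5], .l [4, 14], .l [3, 9, 5, 12], .l [4, 12], .l [5, 9, 3, 12, 12, 10, 10, 8, 8, 2, 5], .l [6, 14], .l [2, 7, 1, 12, 12, 10, 10, 8, 8, 6, 3], .l [8, 11, 9, 3, 8, 2, 9], .l [9, 14], .l [8, 11, 9, 3, 8, 2, 9], .l [10, 13, 11, 11, 9, 3, 8, 2, 7], .l [11, 14], .l [10, 13, 11, 11, 9, 3, 8, 2,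 7], .l [12, 15, 13, 13, 11, 11, 9, 3, 8, 2, 1], .l [13, 14], .l [12, 15, 13, 13, 11, 11, 9, 3, 8, 2, 1], .l [12, 13, 11, 11, 9, 9, 7, 3, 6, 0, 5], .r 2383 [1, 2, 3, 4, 5, 6, 7] [1, 1, 1, 1, 1, 1, 1, 1], .l [12, 13, 11, 11, 9, 9, 7, 3, 6, 0, 5]]),
([p 3 0, g, p 0 1, g, p 2 0, g, s 1 2, p 4 3, g, p 5 4, g, p 0 5, g], .lo 11, [.y [0, 11, 9, 7], .l [1, 9, 7, 10, 10, 8, 8, 6, 3], .l [2, 12], .l [1, 9, 7, 10], .l [12, 13, 11, 11, 9, 5, 8, 0, 5], .l [4, 12], .l [3, 9, 5, 10], .l [4, 10], .l [5, 9, 3, 10, 10, 8, 8, 2, 5], .l [6, 12], .l [2, 7, 1, 10, 10, 8, 8, 6, 3], .l [8, 11, 9, 3, 8, 2, 7], .l [9, 12], .l [8, 11, 9, 3, 8, 2, 7], .l [10, 13, 11, 11, 9, 3, 8, 2, 1], .l [11, 12], .l [10, 13, 11, 11, 9, 3, 8, 2, 1], .l [10, 11,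 9, 9, 7, 3, 6, 0, 5], .r 2384 [1, 2, 3, 4, 5, 6] [1, 1, 1, 1, 1, 1, 1], .l [10, 11, 9, 9, 7, 3, 6, 0, 5]]),
([p 3 0, g, p 0 1, g, p 2 0, g, s 1 2, p 4 3, g, p 0 4, g], .lo 9, [.y [0, 9, 7], .l [1, 9, 7, 8, 8, 6, 3], .l [2, 10], .l [1, 9, 7, 8], .l [10, 11, 9, 5, 8, 0, 5], .l [4, 10], .l [3, 9, 5, 8], .l [4, 8], .l [5, 9, 3, 8, 8, 2, 5], .l [6, 10], .l [2, 7, 1, 8, 8, 6, 3], .l [8, 11, 9, 3, 8, 2, 1], .l [9, 10], .l [8, 11, 9, 3, 8, 2, 1], .l [8, 9, 7, 3, 6, 0, 5], .r 2385 [1, 2, 3, 4, 5] [1, 1, 1, 1, 1, 1], .l [8, 9, 7, 3, 6, 0, 5]]),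
([p 2 0, g, p 1 0, g, s 4 1, p 3 2, g, p 0 3, g, p 5 4, g, p 6 5, g, p 7 6, g, p 8 7, g, p 0 8, g], .lo 17, [.l [0, 16], .l [18, 19, 17, 17, 15, 15, 13, 13, 11, 11, 6, 7, 1, 2, 6, 4, 1], .l [2, 18], .l [1, 7, 5, 16], .y [2, 17, 15, 13, 11, 9, 4], .l [3, 7, 3, 16, 11, 12, 9], .l [4, 18], .l [3, 7, 3, 16], .l [6, 11, 8, 9, 5, 14, 7, 8, 9], .l [7, 18], .l [6, 9, 7, 7, 2, 15], .l [8, 11, 6, 7, 3, 14, 9, 10, 7], .l [9, 18], .l [11, 6, 10, 9, 9, 7, 5, 1, 3, 11, 11, 9, 9, 7, 7, 5, 5, 1], .l [10, 13, 11, 11, 6, 7, 3, 12, 7, 8, 5], .l [11, 18], .l [3, 5, 1, 2, 4, 2, 5, 8, 6, 6, 2, 9, 9, 7, 7, 5, 5, 1], .l [12, 15, 13, 13, 11, 11, 6, 7, 3, 10, 5, 6, 3], .l [13, 18], .l [3, 5, 1, 2, 4, 2, 7, 10, 8, 8, 6, 6, 2, 7, 7, 5, 5, 1], .l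 [14, 17, 15, 15, 13, 13, 11, 11, 6, 7, 3, 8, 3, 4, 1], .l [15, 18], .l [3, 5, 1, 2, 4, 2, 9, 12, 10, 10, 8, 8, 6, 6, 2, 5, 5, 1], .l [18, 19, 15, 15, 13, 13, 11, 11, 9, 9, 4, 5, 1, 6, 3, 4, 1], .l [17, 18], .l [3, 5, 1, 2, 4, 2, 11, 14, 12, 12, 10, 10, 8, 8, 6, 6, 2, 1], .l [16, 17, 15, 15, 13, 13, 11, 11, 9, 9, 4, 5, 1, 6, 3, 4, 1], .l [16, 3, 7, 11, 9, 14, 10, 5, 10, 12, 10, 6, 7, 4, 7, 2, 2, 3], .l [3, 5, 1, 2, 4, 2, 11, 12, 10, 10, 8, 8, 6, 6, 4, 4, 0, 3]]),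
([p 2 0, g, p 1 0, g, s 4 1, p 3 2, g, p 0 3, g, p 5 4, g, p 6 5, g, p 7 6, g, p 0 7, g], .lo 15, [.l [0, 14], .l [16, 17, 15, 15, 13, 13, 11, 11, 6, 7, 1, 2, 6, 4, 1], .l [2, 16], .l [1, 7, 5, 14], .y [2, 15, 13, 11, 9, 4], .l [3, 7, 3, 14, 9, 10, 7], .l [4, 16], .l [3, 7, 3, 14], .l [6, 11, 8, 9, 5, 12, 5, 6, 7], .l [7, 16], .l [6, 9, 7, 7, 2, 13], .l [8, 11, 6, 7, 3, 12, 7, 8, 5], .l [9, 16], .l [8, 11, 6, 7, 3, 12, 7, 8, 5], .l [10, 13, 11, 11, 6, 7, 3, 10, 5, 6, 3], .l [11, 16], .l [10, 13, 11, 11, 6, 7, 3, 10, 5, 6, 3], .l [12, 15, 13, 13, 11, 11, 6, 7, 3, 8, 3, 4, 1], .l [13, 16], .l [12, 15, 13, 13, 11, 11, 6, 7, 3, 8, 3, 4, 1], .l [16, 17, 13, 13, 11, 11, 9, 9, 4, 5, 1, 6, 3, 4, 1], .l [15, 16], .l [16, 17,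 13, 13, 11, 11, 9, 9, 4, 5, 1, 6, 3, 4, 1], .l [14, 15, 13, 13, 11, 11, 9, 9, 4, 5, 1, 6, 3, 4, 1], .r 2387 [1, 2, 3, 4, 5, 6, 7, 8] [1, 1, 1, 1, 1, 1, 1, 1, 1], .l [14, 15, 13, 13, 11, 11, 9, 9, 4, 5, 1, 6, 3, 4, 1]]),
([p 2 0, g, p 1 0, g, s 4 1, p 3 2, g, p 0 3, g, p 5 4, g, p 6 5, g, p 0 6, g], .lo 13, [.l [0, 12], .l [14, 15, 13, 13, 11, 11, 6, 7, 1, 2, 6, 4, 1], .l [2, 14], .l [1, 7, 5, 12], .y [2, 13, 11, 9, 4], .l [3, 7, 3, 12, 7, 8, 5], .l [4, 14], .l [3, 7, 3, 12], .l [6, 11, 8, 9, 5, 10, 3, 4, 5], .l [7, 14], .l [6, 9, 7, 7, 2, 11], .l [8, 11, 6, 7, 3, 10, 5, 6, 3], .l [9, 14], .l [8, 11, 6, 7, 3, 10, 5, 6, 3], .l [10, 13, 11, 11, 6, 7, 3, 8, 3, 4, 1], .l [11, 14], .l [10, 13, 11, 11, 6, 7, 3, 8, 3, 4, 1],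 .l [14, 15, 11, 11, 9, 9, 4, 5, 1, 6, 3, 4, 1], .l [13, 14], .l [14, 15, 11, 11, 9, 9, 4, 5, 1, 6, 3, 4, 1], .l [12, 13, 11, 11, 9, 9, 4, 5, 1, 6, 3, 4, 1], .r 2388 [1, 2, 3, 4, 5, 6, 7] [1, 1, 1, 1, 1, 1, 1, 1], .l [12, 13, 11, 11, 9, 9, 4, 5, 1, 6, 3, 4, 1]]),
([p 2 0, g, p 1 0, g, s 4 1, p 3 2, g, p 0 3, g, p 5 4, g, p 0 5, g], .lo 11, [.l [0, 10], .l [12, 13, 11, 11, 6, 7, 1, 2, 6, 4, 1], .l [2, 12], .l [1, 7, 5, 10], .y [2, 11, 9, 4], .l [3, 7, 3, 10, 5, 6, 3], .l [4, 12], .l [3, 7, 3, 10], .l [6, 11, 8, 9, 5, 8, 1, 2, 3], .l [7, 12], .l [6, 9, 7, 7, 2, 9], .l [8, 11, 6, 7, 3, 8, 3, 4, 1], .l [9, 12], .l [8, 11, 6, 7, 3, 8, 3, 4, 1], .l [12, 13, 9, 9, 4, 5, 1, 6, 3, 4, 1], .l [11, 12], .l [12, 13, 9, 9, 4, 5, 1,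 6, 3, 4, 1], .l [10, 11, 9, 9, 4, 5, 1, 6, 3, 4, 1], .r 2389 [1, 2, 3, 4, 5, 6] [1, 1, 1, 1, 1, 1, 1], .l [10, 11, 9, 9, 4, 5, 1, 6, 3, 4, 1]]),
([p 2 0, g, p 1 0, g, s 4 1, p 3 2, g, p 0 3, g, p 0 4, g], .lo 9, [.l [0, 8], .l [10, 11, 6, 7, 1, 2, 6, 4, 1], .l [2, 10], .l [1, 7, 5, 8], .y [2, 9, 4], .l [3, 7, 3, 8, 3, 4, 1], .l [4, 10], .l [3, 7, 3, 8], .l [10, 11, 4, 5, 1, 4, 6, 2, 3], .l [7, 10], .l [6, 9, 7, 7, 2, 7], .l [10, 11, 4, 5, 1, 6, 3, 4, 1], .l [9, 10], .l [10, 11, 4, 5, 1, 6, 3, 4, 1], .l [8, 9, 4, 5, 1, 6, 3, 4, 1], .r 2390 [1, 2, 3, 4, 5] [1, 1, 1, 1, 1, 1], .l [8, 9, 4, 5, 1, 6, 3, 4, 1]]),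
([p 3 0, g, p 2 0, g, p 0 1, g, s 1 2, p 4 3, g, p 5 4, g, p 6 5, g, p 7 6, g, p 8 7, g, p 0 8, g], .lo 4, [.l [0, 3], .l [5, 9, 3, 4, 8, 6, 1], .l [2, 5], .l [1, 9, 7, 3], .y [2, 4, 6], .l [5, 9, 3, 6, 8, 4, 1], .l [4, 5], .l [3, 9, 5, 1], .l [5, 9, 3, 6, 8, 4, 5], .l [12, 4, 6, 11, 7, 2, 7, 9, 7, 3, 6, 2, 3], .l [3, 9, 5, 1], .l [3, 7, 3, 6, 8, 4, 1], .l [17, 19, 18, 18, 16, 16, 14, 14, 12, 12, 8, 1, 9, 7, 7, 5, 3, 1], .l [1, 7, 5, 3, 1, 4, 6, 4, 1], .l [3, 7, 3, 8, 10, 8, 8, 4, 1], .l [15, 17, 16, 16, 14, 14, 10, 12, 7, 10, 6, 1, 4, 5, 3, 3, 5, 3], .l [1, 7, 5, 3, 1, 6, 8, 6, 6, 4, 1], .l [3, 7, 3, 10, 12, 10, 10, 8, 8, 4, 1], .l [11, 15, 14, 14, 12, 12, 10, 1, 9, 3, 1, 5, 7, 3, 1, 3, 5, 3], .l [1, 7, 5, 3, 1, 8,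 10, 8, 8, 6, 6, 4, 1], .l [3, 7, 3, 12, 14, 12, 12, 10, 10, 8, 8, 4, 1], .l [13, 17, 16, 16, 14, 14, 12, 12, 10, 1, 7, 5, 7, 3, 1, 3, 5, 3], .l [1, 7, 5, 3, 1, 10, 12, 10, 10, 8, 8, 6, 6, 4, 1], .l [3, 7, 3, 14, 16, 14, 14, 12, 12, 10, 10, 8, 8, 4, 1], .l [9, 17, 11, 5, 14, 16, 9, 9, 7, 12, 8, 1, 6, 7, 3, 1, 3, 3], .l [1, 7, 5, 3, 1, 12, 14, 12, 12, 10, 10, 8, 8, 6, 6, 4, 1], .l [3, 4, 4, 5, 1, 14, 11, 12, 9], .l [13, 15, 14, 14, 12, 12, 10, 14, 9, 12, 8, 1, 6, 7, 3, 1, 3, 3], .l [3, 7, 3, 16]]),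
([p 3 0, g, p 2 0, g, p 0 1, g, s 1 2, p 4 3, g, p 5 4, g, p 6 5, g, p 7 6, g, p 0 7, g], .lo 15, [.y [0, 15, 13, 11, 9, 7], .l [1, 9, 7, 14, 14, 12, 12, 10, 10, 8, 8, 6, 1], .l [2, 16], .l [1, 9, 7, 14], .l [2, 14], .l [3, 9, 5, 14, 14, 12, 12, 10, 10, 8, 8, 4, 1], .l [4, 16], .l [1, 9, 7, 5, 3, 12, 12, 10, 10, 8, 8, 6, 6, 4, 1], .l [5, 9, 3, 14, 14, 12, 12, 10, 10, 8, 8, 2, 3], .l [6, 16], .l [5, 9, 3, 14], .l [8, 11, 9, 1, 8, 2, 11], .l [9, 16], .l [8, 11, 9, 1, 8, 2, 11], .l [10, 13, 11, 11, 9, 1, 8, 2, 9], .l [11, 16], .l [10, 13, 11, 11, 9, 1, 8, 2, 9], .l [12, 15, 13, 13, 11, 11, 9, 1, 8, 2, 7], .l [13, 16], .l [12, 15, 13, 13, 11, 11, 9, 1, 8, 2, 7], .l [14, 17, 15, 15, 13, 13, 11, 11, 9, 1, 8, 2, 1], .l [15,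 16], .l [14, 17, 15, 15, 13, 13, 11, 11, 9, 1, 8, 2, 1], .l [14, 15, 13, 13, 11, 11, 9, 9, 7, 1, 6, 0, 5], .r 2392 [1, 2, 3, 4, 5, 6, 7, 8] [1, 1, 1, 1, 1, 1, 1, 1, 1], .l [14, 15, 13, 13, 11, 11, 9, 9, 7, 1, 6, 0, 5]]),
([p 3 0, g, p 2 0, g, p 0 1, g, s 1 2, p 4 3, g, p 5 4, g, p 6 5, g, p 0 6, g], .lo 13, [.y [0, 13, 11, 9, 7], .l [1, 9, 7, 12, 12, 10, 10, 8, 8, 6, 1], .l [2, 14], .l [1, 9, 7, 12], .l [2, 12], .l [3, 9, 5, 12, 12, 10, 10, 8, 8, 4, 1], .l [4, 14], .l [1, 9, 7, 5, 3, 10, 10, 8, 8, 6, 6, 4, 1], .l [5, 9, 3, 12, 12, 10, 10, 8, 8, 2, 3], .l [6, 14], .l [5, 9, 3, 12], .l [8, 11, 9, 1, 8, 2, 9], .l [9, 14], .l [8, 11, 9, 1, 8, 2, 9], .l [10, 13, 11, 11, 9, 1, 8, 2, 7], .l [11, 14], .l [10, 13, 11, 11, 9,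 1, 8, 2, 7], .l [12, 15, 13, 13, 11, 11, 9, 1, 8, 2, 1], .l [13, 14], .l [12, 15, 13, 13, 11, 11, 9, 1, 8, 2, 1], .l [12, 13, 11, 11, 9, 9, 7, 1, 6, 0, 5], .r 2393 [1, 2, 3, 4, 5, 6, 7] [1, 1, 1, 1, 1, 1, 1, 1], .l [12, 13, 11, 11, 9, 9, 7, 1, 6, 0, 5]]),
([p 3 0, g, p 2 0, g, p 0 1, g, s 1 2, p 4 3, g, p 5 4, g, p 0 5, g], .lo 11, [.y [0, 11, 9, 7], .l [1, 9, 7, 10, 10, 8, 8, 6, 1], .l [2, 12], .l [1, 9, 7, 10], .l [2, 10], .l [3, 9, 5, 10, 10, 8, 8, 4, 1], .l [4, 12], .l [1, 9, 7, 5, 3, 8, 8, 6, 6, 4, 1], .l [5, 9, 3, 10, 10, 8, 8, 2, 3], .l [6, 12], .l [5, 9, 3, 10], .l [8, 11, 9, 1, 8, 2, 7], .l [9, 12], .l [8, 11, 9, 1, 8, 2, 7], .l [10, 13, 11, 11, 9, 1, 8, 2, 1], .l [11, 12], .l [10, 13, 11, 11, 9, 1, 8, 2, 1],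 .l [10, 11, 9, 9, 7, 1, 6, 0, 5], .r 2394 [1, 2, 3, 4, 5, 6] [1, 1, 1, 1, 1, 1, 1], .l [10, 11, 9, 9, 7, 1, 6, 0, 5]]),
([p 3 0, g, p 2 0, g, p 0 1, g, s 1 2, p 4 3, g, p 0 4, g], .lo 9, [.y [0, 9, 7], .l [1, 9, 7, 8, 8, 6, 1], .l [2, 10], .l [1, 9, 7, 8], .l [2, 8], .l [3, 9, 5, 8, 8, 4, 1], .l [4, 10], .l [1, 9, 7, 5, 3, 6, 6, 4, 1], .l [5, 9, 3, 8, 8, 2, 3], .l [6, 10], .l [5, 9, 3, 8], .l [8, 11, 9, 1, 8, 2, 1], .l [9, 10], .l [8, 11, 9, 1, 8, 2, 1], .l [8, 9, 7, 1, 6, 0, 5], .r 2395 [1, 2, 3, 4, 5] [1, 1, 1, 1, 1, 1], .l [8, 9, 7, 1, 6, 0, 5]]),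
([p 2 0, g, p 1 0, s 0 0, g, s 0 1, p 3 2, g, p 0 3, g], .lo 5, [.r 1003 [4, 2] [4, 3], .l [6, 8, 1, 2, 7, 5, 1], .r 2386 [4, 1, 2, 3] [1, 1, 2, 1, 1], .l [6, 8, 1, 2, 7, 5, 1], .y [2, 5], .l [4, 6, 1, 3, 5, 2, 3], .l [6, 8, 1, 5, 7, 2, 3], .r 2396 [4, 1, 2, 3] [1, 2, 1, 1, 1], .l [6, 8, 1, 5, 7, 2, 3], .l [4, 6, 1, 5, 7, 2, 3], .r 2381 [1, 2, 4, 3] [1, 1, 1, 1, 1], .l [4, 6, 1, 5, 7, 2, 3], .l [4, 6, 1, 7, 4, 5, 1], .r 2391 [1, 2, 3, 4] [1, 2, 1, 1, 1], .l [4, 6, 1, 7, 4, 5, 1]]),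
([p 3 0, g, p 1 0, g, s 0 1, p 2 0, g, s 4 2, p 5 3, g, s 0 4, g, s 0 5, g], .lo 4, [.l [1, 8, 6, 1, 5, 3, 1], .l [6, 3, 9, 3, 1, 6, 1, 8, 4, 1], .l [3, 10, 6, 1, 7, 5, 1], .l [5, 10, 4, 7, 1, 5, 1], .y [2, 4], .l [3, 10, 6, 1, 9, 4, 8, 6, 4, 1], .l [6, 1, 9, 3, 1], .l [5, 10, 4, 7, 1, 5, 1], .l [1, 8, 6, 1, 2, 0, 1], .l [3, 10, 6, 7, 4, 5, 2, 7], .l [1, 10, 8, 1, 4, 2, 3], .l [3, 10, 6, 7, 4, 5, 2], .l [3, 8, 4, 7, 1, 5, 1, 6, 4, 5], .l [1, 8, 6, 1, 7, 5, 1], .l [3, 8, 4, 7, 1, 5, 1], .l [3, 8, 4, 9, 1, 4, 8, 6, 4, 1], .l [1, 8, 6, 1, 9, 7, 1], .l [3, 8, 4, 9, 3, 7, 1], .l [3, 8, 4, 11, 3, 6, 3, 1, 6, 1], .l [1, 8, 6, 1, 11, 9, 1], .l [3, 8, 4, 11, 5, 9, 1]]),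
([p 2 0, g, s 0 0, p 1 0, g, s 3 1, p 4 2, g, s 0 3, g, s 0 4, g], .hi 2, [.l [4, 1, 7, 3, 1, 6, 4, 5], .r 2398 [5, 1, 2, 3, 4] [1, 1, 1, 1, 1, 1], .l [4, 1, 7, 3, 1], .y [2], .l [5, 2, 5, 8, 2, 7], .l [6, 8, 1, 3, 4], .l [5, 2, 5], .l [2, 7, 11, 9, 6, 8, 4, 1], .l [4, 6, 1, 3, 4], .l [8, 5, 1], .l [4, 6, 1, 3, 4, 4, 2, 3], .l [4, 6, 1, 5, 9, 4, 6, 3], .l [4, 6, 1, 3, 6], .l [10, 7, 1], .l [8, 2, 8, 8, 4, 1], .l [4, 6, 1, 5, 7, 2, 4, 5], .l [4, 6, 1, 3, 8], .l [12, 9, 1]]),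
([p 4 0, g, s 0 1, g, p 2 0, g, s 0 2, p 3 0, g, s 1 3, p 5 4, g, s 0 5, g], .lo 6, [.l [3, 10, 6, 1, 5, 3, 1], .l [8, 5, 11, 3, 1, 6, 1, 8, 4, 1], .l [5, 12, 6, 1, 7, 5, 1], .l [7, 12, 4, 9, 3, 7, 1], .l [8, 3, 11, 3, 1, 4, 2, 7], .l [5, 12, 6, 1, 9, 7, 1], .l [7, 12, 4, 9, 1, 7, 1], .y [4, 6], .l [7, 12, 4, 9, 1, 7, 1, 4, 2, 5], .l [8, 1, 11, 3, 1], .l [7, 12, 4, 9, 1, 7, 1], .l [3, 10, 6, 1, 2, 0, 1], .l [5, 12, 6, 2, 7, 2, 8, 1, 2, 3], .l [3, 12, 8, 1, 4, 2, 3], .l [5, 12, 6, 9, 6, 7, 4], .l [5, 10, 4, 9, 1, 7, 1, 4, 2, 5], .l [3, 10, 6, 1, 9, 7, 1], .l [5, 10, 4, 9, 1, 7, 1], .l [5, 10, 4, 11, 3, 9, 1, 4, 2, 3], .l [3, 10, 6, 1, 11, 9, 1], .l [5, 10, 4, 11, 3, 9, 1]]),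
([p 3 0, g, s 0 1, g, s 0 0, p 2 0, g, s 1 2, p 4 3, g, s 0 4, g], .hi 4, [.l [6, 3, 9, 3, 1, 6, 4, 5], .l [8, 10, 1, 4, 9, 5, 2, 5], .l [6, 3, 9, 3, 1], .l [6, 8, 1, 5, 1, 1, 2, 3], .l [6, 1, 9, 3, 1, 4, 2, 5], .r 2400 [1, 5, 2, 3, 4] [1, 1, 1, 1, 1, 1], .l [6, 1, 9, 3, 1], .y [4], .l [8, 10, 1, 2, 9, 7, 2, 3], .l [8, 10, 1, 5, 6], .l [7, 2, 7], .l [4, 9, 11, 9, 4, 8, 6, 1], .l [6, 8, 1, 5, 6], .l [10, 5, 1], .l [4, 9, 9, 7, 4, 6, 4, 1], .l [6, 8, 1, 2, 7, 5, 2, 5], .l [6, 8, 1, 5, 8], .l [12, 7, 1]]),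
([p 3 0, g, p 1 0, g, s 0 1, p 2 0, g, s 5 2, p 4 3, g, s 0 4, g, s 0 5, g], .lo 4, [.l [1, 8, 6, 1, 5, 3, 1], .l [6, 3, 9, 3, 1, 6, 1, 6, 2, 5], .l [3, 10, 6, 1, 7, 5, 1], .l [5, 10, 4, 7, 1, 5, 1], .y [2, 4], .l [3, 10, 6, 1, 11, 6, 3, 1, 6, 1], .l [6, 1, 9, 3, 1], .l [5, 10, 4, 7, 1, 5, 1], .l [1, 8, 6, 1, 2, 0, 1], .l [3, 10, 6, 7, 4, 5, 2, 5], .l [1, 10, 8, 1, 4, 2, 3], .l [3, 10, 6, 7, 4, 5, 2], .l [3, 8, 4, 7, 1, 5, 1, 8, 6, 3], .l [1, 8, 6, 1, 7, 5, 1], .l [3, 8, 4, 7, 1, 5, 1], .l [3, 8, 4, 9, 3, 7, 1, 8, 6, 1], .l [1, 8, 6, 1, 9, 7, 1], .l [3, 8, 4, 9, 3, 7, 1], .l [3, 8, 4, 11, 1, 6, 3, 1, 6, 1], .l [1, 8, 6, 1, 11, 9, 1], .l [3, 8, 4, 11, 5, 9, 1]]),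
([p 2 0, g, s 0 0, p 1 0, g, s 4 1, p 3 2, g, s 0 3, g, s 0 4, g], .hi 2, [.l [4, 1, 7, 3, 1, 8, 6, 3], .r 2402 [5, 1, 2, 3, 4] [1, 1, 1, 1, 1, 1], .l [4, 1, 7, 3, 1], .y [2], .l [2, 4, 11, 4, 1, 3, 6, 3], .l [6, 8, 1, 3, 4], .l [5, 2, 5], .l [4, 6, 1, 9, 3, 4, 6, 3], .l [4, 6, 1, 3, 4], .l [8, 5, 1], .l [8, 5, 1, 8, 6, 1], .l [4, 6, 1, 9, 1, 4, 6, 3], .l [4, 6, 1, 3, 6], .l [10, 7, 1], .l [4, 6, 1, 3, 6, 6, 2, 3], .l [4, 6, 1, 3, 8, 3, 4, 1], .l [4, 6, 1, 3, 8], .l [12, 9, 1]]),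
([p 4 0, g, m 0 1, g, s 1 0, p 3 0, g, s 0 2, g, s 2 3, p 5 4, g, s 0 5, g], .hi 4, [.l [6, 3, 11, 5, 3, 8, 1, 8, 4, 1], .l [5, 12, 6, 9, 1, 7, 3], .l [3, 12, 8, 1, 9, 7, 3], .y [2, 4], .l [10, 12, 1, 9, 4, 1, 4, 2, 4, 5], .l [5, 12, 6, 9, 1, 7, 3], .l [6, 1, 11, 5, 3], .l [3, 12, 8, 9, 6, 7, 2, 7], .l [3, 12, 8, 9, 6, 7, 2], .l [1, 12, 10, 1, 4, 2, 5], .l [8, 10, 1, 5, 6, 6, 4, 5], .l [3, 12, 8, 9, 4, 7, 4, 7], .l [3, 12, 8, 9, 4, 7, 4], .l [1, 12, 10, 1, 6, 4, 5], .l [6, 10, 3, 1, 9, 2, 6, 7], .l [3, 10, 6, 9, 1, 7, 3], .l [1, 10, 8, 1, 9, 7, 3], .l [1, 12, 7, 3, 4, 7, 1, 1, 4, 1], .l [6, 10, 3, 1, 11, 4, 8, 5], .l [3, 10, 6, 11, 3, 9, 3], .l [1, 10, 8, 1, 11, 9, 3]]),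
([p 3 0, g, s 0 0, p 2 0, g, s 0 1, g, s 1 2, p 4 3, g, s 0 4, g], .lo 2, [.l [2, 1, 7, 5, 3], .l [8, 10, 1, 7, 9, 2, 6, 1], .l [4, 1, 9, 5, 3], .r 2404 [5, 1, 2, 3, 4] [1, 1, 1, 1, 1, 1], .y [2], .l [3, 0, 5], .l [6, 10, 3, 1, 7, 2, 4, 5], .l [5, 2, 7], .l [8, 10, 1, 3, 4], .l [8, 10, 1, 5, 9, 4, 6, 3], .l [7, 4, 7], .l [8, 10, 1, 3, 6], .l [4, 8, 3, 1, 7, 2, 4, 5], .l [10, 7, 3], .l [6, 8, 1, 3, 6], .l [4, 8, 3, 1, 9, 4, 6, 3], .l [12, 9, 3], .l [6, 8, 1, 3, 8]]),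
([p 2 0, g, s 0 0, p 1 0, g, s 0 1, p 3 2, g, s 0 3, g], .lo 5, [.l [2, 6, 3, 1, 2, 0, 3], .r 2401 [4, 1, 2, 3] [1, 1, 1, 1, 1], .l [4, 8, 3, 1, 4, 2, 5], .l [6, 8, 1, 5, 2, 4, 5], .l [4, 6, 1, 3, 2], .y [3, 5], .r 2405 [4, 1, 2, 3] [1, 1, 1, 1, 1], .l [7, 1, 7, 0, 6], .l [6, 8, 1, 5, 1, 4, 5], .r 2399 [1, 2, 4, 3] [1, 1, 1, 1, 1], .l [2, 6, 3, 1, 6, 4, 5], .l [4, 6, 1, 5, 1, 4, 5], .r 2403 [1, 2, 3, 4] [1, 1, 1, 1, 1], .l [2, 6, 3, 1, 8, 6, 3], .l [4, 6, 1, 7, 3, 6, 3]]),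
([p 5 0, g, m 0 1, g, m 1 2, g, m 2 3, g, m 3 0, p 4 0, g, s 0 4, p 6 5, g, s 0 6, g], .hi 9, [.l [11, 8, 13, 2, 9, 10, 9, 9, 7, 7, 5, 2, 5], .l [5, 11, 7, 2, 7, 4, 9, 3, 7, 7, 5, 2, 5], .l [11, 8], .l [9, 6], .l [11, 6, 8, 6, 6, 4, 4, 2, 5], .l [7, 11, 7, 4, 7, 2, 9, 3, 7, 4, 7], .l [11, 6], .l [11, 4, 6, 4, 4, 2, 7], .l [8, 10, 9, 13, 5, 2, 9, 11, 5, 2, 7], .l [11, 4], .l [11, 2, 4, 2, 9], .l [8, 14, 5, 2, 11, 13, 5, 2, 9], .l [11, 2], .l [11, 1, 13, 2, 8, 9, 8, 11, 5, 2, 7, 7, 5], .l [9, 10], .l [11, 1], .y [9, 11], .l [14, 4, 13, 10, 6, 7, 6, 6, 4, 4, 2, 4, 5], .l [9, 13], .l [14, 4], .l [9, 13, 13, 11, 10], .l [16, 6, 15, 12, 8, 9, 8, 8, 6, 6, 4, 6, 3], .l [9, 15], .l [16, 6]]),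
([p 6 0, g, s 0 1, g, m 3 2, g, s 0 3, g, m 2 4, g, m 4 0, p 5 0, g, s 1 5, p 7 6, g, s 0 7, g], .lo 6, [.l [0, 5, 7, 5, 5, 1, 9, 7, 7, 3, 1], .l [2, 7, 9, 7, 7, 1, 11, 7, 9, 5, 1, 6, 4, 5], .l [2, 7, 9, 7, 7, 1, 11, 7, 9, 5, 1], .l [1, 4, 13, 14, 3, 6, 8, 6, 6, 1, 3, 6, 3], .l [4, 7, 9, 7, 7, 1, 11, 5, 9, 7, 1, 4, 2, 5], .l [4, 7, 9, 7, 7, 1, 11, 5, 9, 7, 1], .l [3, 8, 1, 8, 6, 11, 6, 11, 2, 8, 8, 6, 1], .l [7, 16, 8, 13, 1, 9, 9, 7, 1, 4, 2, 7], .l [8, 1, 15, 7, 13, 1, 1, 9, 9, 7, 1], .l [7, 16, 8, 13, 1, 9, 9, 7, 1], .l [7, 16, 8, 13, 1, 9, 9, 7, 1, 4, 2, 7], .l [6, 1, 9, 7, 7, 1, 10, 4, 8, 6, 1, 7, 3], .l [7, 16, 8, 13, 1, 9, 9, 7, 1], .l [10, 3, 3, 3, 13, 5, 11, 9, 1, 4, 2, 7], .l [4, 5, 9, 3, 13, 5, 11, 9, 1],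 .l [14, 8, 8, 14, 1, 2, 4, 6, 11, 7, 4, 7], .y [4, 8, 10, 6], .l [4, 5, 10, 4, 4, 2, 2, 0, 5], .l [5, 16, 10, 6, 11, 2, 12, 1, 4, 4, 2, 5], .l [4, 5, 12, 6, 6, 4, 4, 2, 7], .l [5, 1, 15, 10, 13, 6, 11, 11, 9, 9, 7, 4, 7], .l [5, 14, 8, 13, 1, 9, 9, 7, 1, 4, 2, 7], .l [4, 5, 15, 9, 9, 7, 7, 5, 1], .l [5, 14, 8, 13, 1, 9, 9, 7, 1], .l [5, 14, 8, 15, 3, 11, 7, 2, 6, 8, 6, 1], .l [4, 5, 17, 11, 11, 9, 9, 7, 1], .l [5, 14, 8, 15, 3, 11, 11, 9, 1]]),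
([p 5 0, g, m 0 1, g, m 1 2, g, m 2 0, p 4 0, g, s 0 3, g, s 3 4, p 6 5, g, s 0 6, g], .hi 6, [.l [10, 2, 6, 12, 3, 1, 7, 2, 4, 7], .l [1, 14, 12, 5], .l [2, 7], .y [2, 4, 6], .l [10, 2, 4, 12, 3, 1, 9, 2, 6, 7], .l [3, 6, 4, 12, 10, 3], .l [4, 7], .l [7, 14, 6, 11, 1, 9, 3], .l [5, 8, 6, 6, 4, 11, 9, 1], .l [6, 7], .l [5, 14, 8, 2, 6, 4, 9], .l [5, 6, 4, 4, 2, 11, 9, 3], .l [7, 14, 6, 1, 10, 13, 7, 4, 9], .l [2, 12, 9, 1, 9, 11, 9, 1, 4, 2, 2, 0, 1], .l [5, 14, 8, 4, 6, 2, 9], .l [5, 6, 4, 4, 2, 11, 9, 5], .l [8, 11, 8, 12, 6, 4, 4, 2, 7], .l [5, 12, 6, 11, 1, 9, 3], .l [5, 6, 4, 4, 2, 9, 7, 8], .l [10, 14, 9, 9, 7, 7, 5, 3, 1, 6, 1, 4, 5], .l [5, 12, 6, 11, 1, 9, 3], .l [5, 12, 6, 13, 3, 11, 3], .l [5, 6, 4, 4, 2,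 9, 7, 10], .l [10, 12, 1, 9, 1, 8, 9, 11, 7, 7, 5, 5, 3]]),
([p 5 0, g, m 2 1, g, s 0 2, g, m 1 3, g, m 3 0, p 4 0, g, s 0 4, p 6 5, g, s 0 6, g], .lo 11, [.l [8, 12, 3, 1, 2, 0, 9], .r 2408 [7, 1, 2, 3, 4, 5, 6] [1, 1, 1, 1, 1, 1, 1, 1], .l [10, 14, 3, 1, 4, 2, 11], .l [12, 14, 1, 11, 8, 10, 11], .l [13, 8, 10, 6, 6, 4, 1], .l [10, 14, 3, 1, 6, 4, 11], .l [12, 14, 1, 11, 6, 10, 11], .l [13, 6, 10, 8, 8, 6, 1], .l [10, 14, 3, 1, 8, 6, 11], .l [12, 14, 1, 11, 4, 10, 11], .l [7, 14, 6, 4, 4, 2, 9], .l [8, 12, 12, 10, 7], .l [7, 14, 6, 4, 4, 2, 9], .l [7, 12, 4, 2, 2, 0, 7], .y [9, 11], .r 2409 [1, 3, 7, 4, 5, 6] [1, 3, 1, 1, 1, 1, 1], .l [13, 1, 13, 0, 12], .l [12, 14, 1, 11, 1, 10, 11], .l [4, 1, 11, 7, 11, 4, 10, 8,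 6, 6, 4, 1], .l [8, 12, 3, 1, 12, 10, 11], .l [10, 12, 1, 11, 1, 10, 11], .l [4, 1, 11, 7, 13, 6, 3, 1, 8, 8, 6, 1], .l [8, 12, 3, 1, 14, 12, 9], .l [10, 12, 1, 13, 3, 12, 9]]),
([p 4 0, g, m 0 1, g, m 1 2, g, m 2 0, p 3 0, g, s 0 3, p 5 4, g, s 0 5, g], .lo 2, [.l [2, 1], .l [4, 1, 11, 7, 9, 7, 7, 5, 1], .l [4, 1], .r 2407 [6, 1, 2, 3, 4, 5] [1, 1, 1, 1, 1, 1, 1], .r 2410 [1, 6, 2, 3, 4, 5] [1, 1, 1, 1, 1, 1, 1], .l [4, 1], .l [2, 3], .l [6, 3, 11, 5, 9, 7, 1], .l [6, 3], .l [2, 5], .y [2, 4, 6], .l [7, 4], .l [9, 6, 6, 4, 4, 2, 5], .l [9, 6], .l [2, 8], .l [12, 9, 9, 7, 7, 5, 1], .l [12, 9], .l [2, 11], .l [14, 11, 11, 9, 9, 7, 1], .l [14, 11], .l [2, 13]]),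
([p 4 0, g, m 2 1, g, s 0 2, g, m 1 0, p 3 0, g, s 0 3, p 5 4, g, s 0 5, g], .hi 7, [.l [3, 6, 1, 7, 2, 8, 3, 5, 2, 5], .l [4, 12, 7, 4, 7, 11, 9, 4, 5], .l [9, 6], .l [9, 4, 6, 2, 7], .l [4, 12, 7, 4, 9, 11, 7, 4, 7], .l [9, 4], .l [2, 3, 6, 2, 2, 0, 3], .l [9, 2, 6, 4, 7], .l [6, 12, 5, 2, 9, 11, 5, 2, 5], .l [9, 2], .l [9, 1, 11, 2, 6, 1, 9, 5, 2, 5], .l [7, 8], .l [9, 1], .y [7, 9], .l [4, 1, 6, 9, 11, 9, 6, 3], .l [7, 11], .l [12, 4], .l [7, 11, 11, 9, 8], .l [4, 1, 13, 6, 2, 7, 4, 5, 2, 5], .l [7, 13], .l [14, 6]]),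
([p 3 0, g, m 0 1, g, m 1 0, p 2 0, g, s 0 2, p 4 3, g, s 0 4, g], .lo 2, [.l [2, 1], .l [4, 1, 9, 5, 7, 5, 1], .l [4, 1], .r 2411 [5, 1, 2, 3, 4] [1, 1, 1, 1, 1, 1], .r 2412 [1, 5, 2, 3, 4] [1, 1, 1, 1, 1, 1], .l [4, 1], .l [2, 3], .y [2, 4], .l [5, 2], .l [7, 4, 4, 2, 5], .l [7, 4], .l [2, 6], .l [10, 7, 7, 5, 1], .l [10, 7], .l [2, 9], .l [12, 9, 9, 7, 1], .l [12, 9], .l [2, 11]]),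
([p 2 0, g, m 0 0, p 1 0, g, s 0 1, p 3 2, g, s 0 3, g], .lo 2, [.l [2, 1], .l [4, 1, 7, 3, 1], .l [4, 1], .r 2413 [4, 1, 2, 3] [1, 1, 1, 1, 1], .y [2], .l [3, 0], .l [5, 2, 5], .l [5, 2], .l [2, 4], .l [4, 6, 1, 3, 4], .l [8, 5], .l [2, 7], .l [4, 6, 1, 3, 6], .l [10, 7], .l [2, 9]]),
([p 6 0, g, p 2 1, g, s 1 0, g, p 3 2, p 5 3, s 0 4, g, s 0 5, p 7 6, g, s 0 7, g, p 4 0, g], .hi 4, [.l [10, 4, 7, 12, 2, 10, 3, 7, 8, 4, 2, 7], .l [6, 1, 9, 14, 4, 11, 5, 3, 7, 8, 4, 4, 2], .l [2, 5, 7, 5, 5, 1, 9, 5, 7, 5, 8], .l [5, 13, 7, 10, 6, 13, 8, 2, 8, 1], .l [5, 13, 7, 10, 1, 6, 2], .l [6, 1, 12, 6, 10, 1, 1, 6, 2], .l [5, 13, 7, 10, 6, 13, 8, 2, 8, 1], .l [5, 13, 7, 10, 1, 6, 2], .l [2, 3, 5, 1, 7, 12, 4, 9, 3, 1, 5, 6, 2],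 .l [8, 3, 3, 3, 3, 1, 4, 3, 8, 4, 6, 1, 3], .l [9, 5, 12, 3, 10, 5, 3, 5, 8, 6, 2, 7], .l [2, 3, 3, 7, 9, 6, 3], .l [2, 3, 9, 5, 5, 3, 6], .y [2, 4, 10, 7, 6], .l [3, 11, 7, 10, 6, 13, 8, 2, 8, 1], .l [3, 11, 7, 10, 1, 6, 2], .l [2, 3, 12, 8, 8, 6, 2], .l [3, 11, 7, 10, 1, 6, 6, 5, 8, 3, 1, 3, 1], .l [3, 11, 7, 12, 8, 13, 8, 4, 8, 5], .l [3, 11, 7, 12, 3, 8, 2], .l [2, 3, 14, 10, 10, 8, 2], .l [8, 11, 2, 16, 9, 9, 9, 9, 7, 9, 5, 3, 6, 3], .l [3, 11, 7, 14, 5, 10, 2], .l [2, 3, 16, 12, 12, 10, 2]]),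
([p 5 0, g, p 2 1, g, s 1 0, g, p 3 2, p 4 3, s 0 0, g, s 0 4, p 6 5, g, s 0 6, g], .hi 8, [.l [3, 6, 1, 8, 3, 9, 3, 6, 3, 6], .l [6, 1, 12, 6, 3, 6, 10, 8, 2, 4], .l [8, 9, 8, 12, 4, 2, 5, 3, 4], .l [9, 6, 13, 3, 10, 5, 1, 5, 8, 4, 0, 3], .l [3, 13, 9, 5, 7, 6, 8], .l [10, 5, 7, 3, 8], .l [9, 4, 13, 3, 10, 5, 3, 5, 8, 6, 2, 1], .l [5, 13, 7, 3, 5, 4, 6], .l [10, 3, 7, 5, 8], .y [8], .l [9, 13, 3, 10, 2, 5, 3, 5, 8, 6, 2, 1], .l [9, 12, 9, 9, 8, 11, 5, 2, 5], .l [10, 1, 12, 2, 6, 1, 10, 6, 2, 6], .l [6, 7, 6, 10, 4, 2, 2, 0, 3], .l [7, 2, 11, 3, 10, 5, 3, 5, 8, 6, 2, 1], .l [7, 2, 11, 3, 10, 5, 3, 5, 8, 6, 2, 1], .l [4, 1, 10, 6, 1, 7, 9, 4, 1], .l [4, 1, 7, 10, 10, 8, 6, 3], .l [4, 1, 10, 6, 1, 7, 11, 6, 1, 3, 6, 3],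 .r 2415 [1, 2, 3, 7, 4, 5, 6] [1, 1, 1, 1, 1, 1, 1], .l [4, 1, 10, 6, 1, 7, 11, 6, 1]]),
([p 4 0, g, p 2 1, g, s 1 0, g, p 0 2, p 3 0, s 0 0, g, s 0 3, p 5 4, g, s 0 5, g], .hi 7, [.l [3, 6, 1, 7, 2, 10, 5, 7, 2, 7], .l [4, 13, 8, 4, 9, 13, 11, 6, 7], .l [9, 6], .l [9, 4, 6, 2, 8], .l [4, 13, 8, 4, 11, 13, 9, 6, 9], .l [9, 4], .l [9, 2, 6, 4, 8], .l [6, 13, 6, 2, 11, 13, 7, 4, 7], .l [9, 2], .r 2416 [1, 2, 6, 3, 4, 5] [1, 1, 1, 1, 1, 1], .c, .l [10, 2, 12, 2, 6, 1, 11, 7, 2, 7], .l [7, 9], .l [10, 2], .y [7, 10], .l [4, 1, 6, 11, 13, 11, 8, 3], .l [7, 12], .l [13, 5], .l [7, 12, 12, 10, 9], .l [4, 1, 14, 7, 3, 9, 4, 7, 4, 7], .l [7, 14], .l [15, 7]]),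
([p 6 0, g, p 1 0, g, p 2 1, g, p 3 2, g, p 4 3, p 5 4, s 0 0, g, s 0 5, p 7 6, g, s 0 7, g], .hi 10, [.l [10, 11, 10, 14, 4, 2, 5, 3, 8, 8, 6, 6, 4], .l [10, 11, 10, 14, 4, 0, 11, 11, 9, 9, 7, 9, 5, 2, 5], .l [10, 11, 10, 14, 4, 2, 5, 3, 8], .l [3, 15, 11, 7, 2, 3, 1, 6, 3, 7, 3, 0, 4], .l [3, 15, 11, 7, 2, 3, 1, 6, 3, 7, 3, 0, 4], .l [12, 7, 9, 7, 7, 5, 5, 3, 6], .l [5, 8, 6, 13, 9, 5, 0, 6, 3, 7, 3, 0, 4], .l [5, 8, 6, 13, 9, 5, 0, 6, 3, 7, 3, 0, 4], .l [12, 5, 7, 5, 5, 3, 8], .l [9, 15, 5, 0, 10, 10, 8, 8, 6, 8, 3, 0, 3], .l [7, 15, 7, 3, 5, 4, 10], .l [12, 3, 5, 3, 10], .y [10], .l [11, 14, 11, 11, 10, 13, 5, 2, 9, 9, 7, 7, 5], .l [8, 9, 8, 14, 6, 0, 11, 11, 9, 9, 7, 9, 7, 4, 1], .l [12, 1, 14, 2, 8, 9, 8, 12, 6,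 2, 8, 8, 6], .l [8, 9, 8, 12, 4, 2, 2, 0, 7], .l [7, 13, 5, 0, 10, 10, 8, 8, 6, 8, 3, 0, 3], .l [7, 13, 5, 0, 10, 8, 11, 2, 0, 6, 9, 5, 1], .l [7, 13, 5, 0, 10, 10, 8, 8, 6, 8, 3, 0, 3], .l [9, 13, 3, 13, 13, 2, 10, 10, 9, 9, 7, 7, 5], .l [7, 13, 5, 0, 10, 10, 8, 8, 6, 10, 5, 0, 5], .l [7, 13, 5, 0, 10, 8, 13, 4, 0, 8, 5, 1, 5], .l [7, 13, 5, 0, 10, 10, 8, 8, 6, 10, 5, 0, 5]]),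
([p 5 0, g, p 1 0, g, p 2 1, g, p 3 2, g, p 0 3, p 4 0, s 0 0, g, s 0 4, p 6 5, g, s 0 6, g], .hi 9, [.l [11, 8, 14, 3, 10, 12, 11, 11, 9, 9, 7, 2, 7], .l [5, 11, 7, 2, 7, 4, 11, 5, 9, 9, 7, 2, 7], .l [11, 8], .l [11, 6, 8, 6, 6, 4, 4, 2, 6], .l [7, 11, 7, 4, 7, 2, 11, 5, 9, 4, 9], .l [11, 6], .l [11, 4, 6, 4, 4, 2, 8], .l [8, 10, 9, 14, 6, 2, 11, 13, 7, 4, 9], .l [11, 4], .l [11, 2, 4, 2, 10], .l [8, 15, 6, 2, 13, 15, 7, 4, 11], .l [11, 2], .r 2418 [1, 2, 3, 7, 4, 5, 6] [1, 1, 1, 1, 1, 1, 1], .c, .l [12, 2, 14, 2, 8, 9, 8, 13, 7, 2, 9, 9, 7], .l [9, 11], .l [12, 2], .y [9, 12], .l [15, 5, 14, 10, 6, 7, 6, 6, 4, 4, 2, 4, 7], .l [9, 14], .l [15, 5], .l [9, 14, 14, 12, 11], .l [17, 7, 16, 12, 8, 9, 8, 8, 6, 6, 4, 6, 3],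 .l [9, 16], .l [17, 7]]),
([p 6 0, g, s 0 1, g, p 3 2, g, s 2 0, g, p 4 3, g, p 0 4, p 5 0, g, s 1 5, p 7 6, g, s 0 7, g], .hi 6, [.l [2, 7, 9, 7, 7, 1, 11, 7, 9, 5, 1, 6, 4, 5], .l [1, 4, 13, 14, 3, 6, 8, 6, 6, 1, 3, 6, 3], .l [2, 7, 9, 7, 7, 1, 11, 7, 9, 5, 1], .l [2, 5, 7, 5, 5, 1, 9, 5, 7, 5, 1, 1, 3], .l [4, 7, 9, 7, 7, 1, 11, 5, 9, 7, 1, 4, 2, 5], .l [3, 8, 1, 8, 6, 11, 6, 11, 2, 8, 8, 6, 1], .l [4, 7, 9, 7, 7, 1, 11, 5, 9, 7, 1], .l [7, 16, 8, 13, 1, 9, 9, 7, 1, 4, 2, 7], .l [7, 16, 8, 13, 1, 9, 9, 7, 1], .l [8, 1, 15, 7, 13, 1, 1, 9, 9, 7, 1], .l [7, 16, 8, 13, 1, 9, 9, 7, 1, 4, 2, 7], .l [7, 16, 8, 13, 1, 9, 9, 7, 1], .l [6, 1, 9, 7, 7, 1, 10, 4, 8, 6, 1, 7, 3], .l [10, 3, 3, 3, 13, 5, 11, 9, 1, 4, 2, 7], .l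 [14, 8, 8, 14, 1, 2, 4, 6, 11, 7, 4, 7], .l [4, 5, 9, 3, 13, 5, 11, 9, 1], .y [4, 6, 10, 8], .l [5, 16, 10, 6, 11, 2, 12, 1, 4, 4, 2, 5], .l [5, 1, 15, 10, 13, 6, 11, 11, 9, 9, 7, 4, 7], .l [4, 5, 12, 6, 6, 4, 4, 2, 7], .l [5, 14, 8, 13, 1, 9, 9, 7, 1, 4, 2, 7], .l [5, 14, 8, 13, 1, 9, 9, 7, 1], .l [4, 5, 15, 9, 9, 7, 7, 5, 1], .l [3, 6, 14, 12, 12, 12, 10, 6, 9, 0, 6, 6, 4, 1], .l [5, 14, 8, 15, 3, 11, 7, 2, 6, 8, 6, 1], .l [5, 14, 8, 15, 3, 11, 11, 9, 1], .l [4, 5, 17, 11, 11, 9, 9, 7, 1]]),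
([p 5 0, g, p 1 0, g, p 2 1, g, p 0 2, p 4 0, g, s 0 3, g, s 3 4, p 6 5, g, s 0 6, g], .lo 6, [.l [0, 5], .l [10, 2, 6, 12, 3, 1, 7, 2, 4, 7], .l [2, 7], .l [1, 14, 12, 5], .y [2, 6, 4], .l [10, 2, 4, 12, 3, 1, 9, 2, 6, 7], .l [4, 7], .l [3, 6, 4, 12, 10, 3], .l [7, 14, 6, 11, 1, 9, 3], .l [6, 7], .l [5, 8, 6, 6, 4, 11, 9, 1], .l [10, 12, 1, 9, 4, 5, 4, 4, 2, 4, 5, 3, 1], .l [5, 14, 8, 2, 6, 4, 9], .l [7, 14, 6, 1, 10, 13, 7, 4, 9], .l [5, 6, 4, 4, 2, 11, 9, 3], .l [5, 14, 8, 4, 6, 2, 9], .l [8, 11, 8, 12, 6, 4, 4, 2, 7], .l [5, 6, 4, 4, 2, 11, 9, 5], .l [5, 12, 6, 11, 1, 9, 3], .l [10, 14, 9, 9, 7, 7, 5, 3, 1, 6, 1, 4, 5], .l [5, 6, 4, 4, 2, 9, 7, 8], .l [5, 12, 6, 13, 3, 11, 3], .l [10, 12, 1, 9, 1, 8, 9, 11, 7, 7,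 5, 5, 3], .l [5, 6, 4, 4, 2, 9, 7, 10]]),
([p 5 0, g, p 2 1, g, s 1 0, g, p 3 2, g, p 0 3, p 4 0, g, s 0 4, p 6 5, g, s 0 6, g], .lo 11, [.l [8, 12, 3, 1, 2, 0, 9], .r 2420 [7, 1, 2, 3, 4, 5, 6] [1, 1, 1, 1, 1, 1, 1, 1], .l [10, 14, 3, 1, 4, 2, 11], .l [12, 14, 1, 11, 8, 10, 11], .l [13, 8, 10, 6, 6, 4, 1], .l [10, 14, 3, 1, 6, 4, 11], .l [12, 14, 1, 11, 6, 10, 11], .l [10, 12, 1, 4, 6, 4, 4, 1, 1, 4, 3], .l [13, 6, 10, 8, 8, 6, 1], .l [10, 14, 3, 1, 8, 6, 11], .l [12, 14, 1, 11, 4, 10, 11], .l [7, 14, 6, 4, 4, 2, 9], .l [8, 12, 12, 10, 7], .l [7, 14, 6, 4, 4, 2, 9], .y [9, 11], .r 2421 [2, 3, 7, 4, 5, 6] [1, 3, 1, 1, 1, 1, 1], .l [13, 1, 13, 0, 12], .l [12, 14, 1, 11, 1, 10, 11], .l [4, 1, 11, 7, 11, 4, 10, 8, 6, 6,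 4, 1], .l [8, 12, 3, 1, 12, 10, 11], .l [10, 12, 1, 11, 1, 10, 11], .l [4, 1, 11, 7, 13, 6, 3, 1, 8, 8, 6, 1], .l [8, 12, 3, 1, 14, 12, 9], .l [10, 12, 1, 13, 3, 12, 9]]),
([p 4 0, g, p 1 0, g, p 2 1, g, p 0 2, p 3 0, s 0 0, g, s 0 3, p 5 4, g, s 0 5, g], .hi 2, [.l [4, 1, 12, 8, 10, 8, 8, 6, 2], .r 2419 [6, 1, 2, 3, 4, 5] [1, 1, 1, 1, 1, 1, 1], .l [4, 1], .r 2422 [6, 1, 2, 3, 4, 5] [1, 1, 1, 1, 2, 1, 1], .l [2, 3], .l [4, 1], .l [6, 3, 12, 6, 10, 8, 2], .l [2, 5], .l [6, 3], .y [2, 6, 4], .l [8, 5, 5, 3, 3, 1, 4], .l [10, 7, 7, 5, 5, 3, 6], .l [2, 9], .l [10, 7], .l [6, 11, 4, 2, 5, 2, 8], .l [13, 10, 10, 8, 8, 6, 2], .l [2, 12], .l [13, 10], .l [13, 10, 10, 8, 8, 6, 2], .l [15, 12, 12, 10, 10, 8, 2], .l [2, 14], .l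 [15, 12]]),
([p 3 0, g, p 1 0, g, p 0 1, p 2 0, s 0 0, g, s 0 2, p 4 3, g, s 0 4, g], .hi 2, [.l [4, 1, 10, 6, 8, 6, 2], .r 2423 [5, 1, 2, 3, 4] [1, 1, 1, 1, 1, 1], .l [4, 1], .r 2417 [5, 1, 2, 3, 4] [1, 1, 1, 1, 1, 1], .l [2, 3], .l [4, 1], .y [2, 4], .l [6, 3, 3, 1, 4], .l [8, 5, 5, 3, 6], .l [2, 7], .l [8, 5], .l [2, 7, 7, 4, 3], .l [11, 8, 8, 6, 2], .l [2, 10], .l [11, 8], .l [11, 8, 8, 6, 2], .l [13, 10, 10, 8, 2], .l [2, 12], .l [13, 10]]),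
([p 2 0, g, p 0 0, p 1 0, s 0 0, g, s 0 1, p 3 2, g, s 0 3, g], .hi 2, [.l [4, 1, 8, 4, 2], .r 2424 [4, 1, 2, 3] [1, 1, 1, 1, 1], .l [4, 1], .y [2], .l [4, 1, 4], .l [6, 3, 6], .l [2, 5], .l [6, 3], .l [2, 7, 4, 2, 5, 2, 4], .l [5, 7, 1, 3, 5], .l [2, 8], .l [9, 6], .l [5, 7, 1, 3, 5], .l [5, 7, 1, 3, 7], .l [2, 10], .l [11, 8]]),
([p 2 0, g, p 1 0, s 0 0, g, s 0 1, p 3 2, g, s 0 3, g], .bot 1, [.r 334 [] [7], .r 2406 [1, 2, 3] [1, 2, 1, 1], .r 2425 [1, 2, 3] [1, 1, 1, 1], .r 2414 [1, 2, 3] [1, 2, 1, 1]]),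
([p 2 0, g, p 1 0, s 0 0, g, s 0 1, p 0 2, g], .lo 6, [.y [0, 6], .r 2362 [3, 1, 2] [1, 1, 1, 1], .l [2, 7], .l [1, 8, 6, 5], .l [2, 5], .l [2, 6, 3, 2, 3], .l [4, 8, 3, 2, 3], .l [5, 7], .l [4, 8, 3, 2], .r 2426 [1, 2, 3] [1, 1, 1, 1], .r 2397 [1, 2, 3] [1, 1, 1, 1], .l [5, 6, 0, 6]]),
([p 2 0, g, p 1 0, g, s 0 1, p 0 2, g], .top 3, [.r 2313 [1, 2] [1, 1], .r 2427 [1, 2] [1, 1, 1], .r 2312 [1, 2] [1, 1, 1], .r 2289 [1, 2] [1, 1, 1]]),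
([p 3 1, s 6 2, g, s 1 0, g, p 0 3, p 4 0, g, p 5 4, p 0 0, g, s 0 5, g, s 0 6, g, s 2 0, g], .lo 9, [.l [3, 10, 12, 11, 11, 9, 3], .l [3, 10], .l [2, 7, 4, 9], .l [0, 2, 2, 6, 8, 7, 7, 5, 2], .l [5, 10, 12, 11, 11, 9, 1], .l [5, 10], .l [4, 7, 2, 9], .l [6, 8], .l [8, 10, 7], .l [8, 10], .l [8, 0, 10, 7], .y [9], .l [10, 13, 10, 13, 6, 10, 9, 2, 8, 1], .l [3, 2, 15, 5, 7, 4, 1, 11, 6, 7, 4, 1], .l [10, 13, 10, 13, 6, 10, 9, 2, 8, 1], .l [7, 15, 8, 12, 11, 2, 4, 2, 8, 1], .l [7, 15, 8, 12, 11, 2, 4, 2, 8, 1], .l [3, 2, 13, 6, 2, 7, 3, 5, 2, 5], .l [3, 2, 11, 13, 9, 11, 10, 10, 8, 1], .l [3, 2, 11, 13, 9, 11, 10, 10, 8, 1], .l [3, 2, 15, 8, 2, 9, 3, 7, 4, 7], .l [3, 2, 13, 13, 7, 9, 8, 8, 6, 1], .l [3, 2, 11, 15, 11,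 13, 12, 12, 10, 1], .l [3, 2, 11, 15, 11, 13, 12, 12, 10, 1], .l [3, 2, 13, 5, 14, 1, 8, 10, 8, 8, 6, 1]]),
([p 3 1, s 6 2, g, s 1 0, g, p 0 3, p 4 0, g, p 5 4, p 0 0, g, s 0 5, g, s 2 0, g, s 0 6, g], .lo 9, [.l [3, 10, 12, 11, 11, 9, 3], .l [3, 10], .l [2, 7, 4, 9], .l [0, 2, 2, 6, 8, 7, 7, 5, 2], .l [5, 10, 12, 11, 11, 9, 1], .l [5, 10], .l [4, 7, 2, 9], .l [6, 8], .l [8, 10, 7], .l [8, 10], .l [8, 0, 10, 7], .y [9], .l [10, 13, 10, 13, 6, 10, 9, 2, 8, 1], .l [3, 2, 15, 5, 7, 4, 1, 11, 6, 7, 4, 1], .l [10, 13, 10, 13, 6, 10, 9, 2, 8, 1], .l [7, 15, 8, 12, 11, 2, 4, 2, 8, 1], .l [7, 15, 8, 12, 11, 2, 4, 2, 8, 1], .l [3, 2, 15, 8, 2, 6, 11, 6, 8, 1, 4, 1], .l [3, 2, 11, 11, 7, 9, 8, 8, 6, 1], .l [3, 2, 11, 13, 9, 11,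 10, 10, 8, 1], .l [3, 2, 11, 13, 9, 11, 10, 10, 8, 1], .l [3, 2, 15, 8, 2, 9, 3, 7, 4, 7], .l [3, 2, 13, 15, 9, 11, 10, 10, 8, 1], .l [3, 2, 13, 15, 9, 11, 10, 10, 8, 1], .l [3, 2, 13, 5, 14, 1, 8, 10, 8, 8, 6, 1]]),
([p 2 1, s 5 0, g, s 1 0, g, p 0 2, p 3 0, g, p 4 3, p 0 0, g, s 0 4, g, s 0 5, g], .hi 1, [.r 1053 [1, 6, 2] [1, 1, 1, 9], .l [2, 7, 4, 4, 1], .r 578 [1, 6, 2] [1, 1, 1, 9], .l [1, 14, 9, 12, 1, 6, 2, 4, 5, 2], .l [3, 2, 3], .r 520 [1, 6, 2] [1, 1, 1, 9], .l [3, 2, 3], .l [1, 7, 9, 7, 3], .l [0, 5, 4, 6, 8, 6, 1], .l [3, 8, 5, 6, 8, 4, 1], .l [3, 2, 7], .l [3, 2, 9, 11, 8, 8, 6, 1], .l [3, 2, 9], .r 852 [1, 6, 2] [1, 1, 5, 5], .l [1, 10, 10, 7, 7, 5, 3], .r 2430 [1, 6, 2, 3, 4, 5] [1, 1, 1, 1, 1, 1, 1],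 .l [3, 2, 11], .r 852 [1, 6, 2] [1, 1, 7, 3], .y [1, 13], .r 2429 [1, 6, 2, 3, 4, 5] [1, 1, 1, 1, 1, 1, 1], .l [3, 2, 13], .r 852 [1, 6, 2] [1, 1, 9, 1]])]

def d09_2 : List (List Item × Qry × List Rf) := [
([p 2 1, s 6 0, g, s 1 0, g, p 0 2, p 3 0, g, p 4 3, p 5 0, g, p 0 4, g, p 0 5, g, s 0 6, g], .lo 11, [.l [0, 5, 4, 9, 9, 6, 6, 4, 1], .l [3, 12, 12, 9, 9, 7, 3], .l [3, 12], .l [0, 7, 6, 15, 13, 9, 11, 9, 7, 6, 6, 4, 1], .l [0, 2, 2, 8, 8, 5, 5, 3, 2], .l [5, 12, 12, 9, 9, 7, 1], .l [5, 12], .l [0, 7, 6, 15, 11, 7, 9, 7, 5, 4, 4, 2, 5], .y [6, 11, 8], .l [8, 12, 14, 12, 7], .l [8, 12], .l [8, 0, 12, 14, 12, 7], .l [9, 10], .l [12, 13, 8, 15, 8, 12, 11, 2, 4, 2, 8, 1], .l [11, 12], .l [7, 17, 10, 14, 13, 0, 13, 1,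 9, 1, 1, 8, 5], .l [10, 11, 8, 15, 8, 12, 11, 2, 4, 2, 8, 1], .l [10, 17, 7, 14, 0, 12, 3, 12, 5, 9, 4, 6, 1], .l [10, 11, 8, 15, 8, 12, 11, 2, 4, 2, 8], .l [10, 2, 8, 10, 1, 6, 12, 6, 9, 2, 3], .l [11, 15, 14, 14, 11, 14, 7, 2, 4, 10, 7], .l [9, 17, 8, 2, 14, 8, 12, 3, 11, 6, 7], .l [3, 2, 13, 15, 11, 11, 8, 8, 6, 1], .l [0, 5, 4, 13, 15, 11, 13, 11, 9, 8, 8, 6, 1], .l [3, 2, 13, 15, 0, 11, 13, 11, 9, 8, 8, 6, 1]]),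
([p 3 1, s 6 2, g, s 1 0, g, p 0 3, p 4 0, g, p 0 4, p 5 0, g, s 0 5, g, s 2 0, g, s 0 6, g], .hi 6, [.l [8, 4, 7, 3, 12, 9, 1, 10, 6, 1], .l [15, 13, 14, 8, 12, 11, 11, 9, 1, 10, 6, 1], .l [8, 4], .l [8, 2, 14, 7, 0, 11, 8, 1], .l [15, 13, 14, 8, 10, 9, 9, 7, 1, 10, 6, 3], .l [8, 2], .l [13, 11, 12, 8, 8, 7, 7, 5, 1, 8, 4, 1], .l [3, 2, 7, 1, 8, 6, 1], .l [6, 7], .l [8, 1], .y [6, 8], .l [11, 4, 4, 2, 10], .l [6, 10], .l [11, 4], .l [6, 10, 10, 8, 7], .l [13, 6, 6, 4, 1], .l [6, 12], .l [13, 6], .l [15, 8, 8, 6, 1], .l [6, 14], .l [15, 8], .l [15, 8, 8, 6, 1], .l [17, 10, 10, 8, 1], .l [6, 16], .l [17, 10]]),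
([p 3 1, s 6 2, g, s 1 0, g, p 0 3, p 4 0, g, p 0 4, p 5 0, g, s 0 5, g, s 0 6, g, s 2 0, g], .hi 6, [.l [8, 4, 7, 3, 12, 9, 1, 10, 6, 1], .l [15, 13, 14, 8, 12, 11, 11, 9, 1, 10, 6, 1], .l [8, 4], .l [8, 2, 14, 7, 0, 11, 8, 1], .l [15, 13, 14, 8, 10, 9, 9, 7, 1, 10, 6, 3], .l [8, 2], .l [13, 11, 12, 8, 8, 7, 7, 5, 1, 8, 4, 1], .l [3, 2, 7, 1, 8, 6, 1], .l [6, 7], .l [8, 1], .y [6, 8], .l [11, 4, 4, 2, 10], .l [6, 10], .l [11, 4], .l [6, 10, 10, 8, 7], .l [13, 6, 6, 4, 1], .l [6, 12], .l [13, 6], .l [13, 6, 6, 4, 1], .l [15, 8, 8, 6, 1], .l [6, 14], .l [15, 8], .l [17, 10, 10, 8, 1], .l [6, 16], .l [17, 10]]),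
([p 2 1, s 6 0, g, s 1 0, g, p 0 2, p 3 0, g, p 4 3, p 5 0, g, p 0 4, g, s 0 5, g, s 0 6, g], .hi 1, [.r 1053 [1, 7, 2] [1, 1, 1, 11], .l [2, 7, 4, 4, 1], .r 578 [1, 7, 2] [1, 1, 1, 11], .l [1, 16, 3, 10, 14, 1, 8, 4, 6, 7, 4, 1], .l [3, 2, 3], .l [9, 6, 7, 14, 9, 12, 1, 8, 3, 5, 6, 1], .l [3, 2, 3], .l [1, 7, 9, 7, 3], .l [0, 5, 4, 6, 8, 6, 1], .l [3, 8, 5, 6, 8, 4, 1], .l [1, 10, 12, 9, 9, 7, 3], .l [0, 5, 4, 9, 11, 8, 8, 6, 1], .l [3, 11, 8, 9, 11, 6, 6, 4, 1], .l [0, 5, 4, 9, 9, 6, 6, 4, 1], .l [3, 2, 11, 13, 9, 11, 10, 10, 8, 1], .l [3, 2, 11], .l [3, 2, 15, 8, 5, 13, 6, 7, 4, 1], .l [1, 12, 12, 8, 10, 9, 9, 7, 3], .r 2433 [1, 7, 2, 3, 5, 6] [1, 1, 1, 3, 1, 1, 1], .l [3, 2, 13], .r 852 [1, 7, 2] [1, 1, 9, 3], .y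 [1, 15], .r 2434 [1, 7, 2, 3, 5, 6] [1, 1, 1, 3, 1, 1, 1], .l [3, 2, 15], .r 852 [1, 7, 2] [1, 1, 11, 1]]),
([p 2 1, s 5 0, g, s 1 0, g, p 0 2, p 3 0, g, p 4 3, p 0 0, g, p 0 4, g, s 0 5, g], .lo 9, [.l [0, 5, 4, 7, 9, 8, 8, 6, 1], .l [3, 10, 12, 11, 11, 9, 3], .l [3, 10], .l [1, 14, 11, 7, 9, 8, 8, 6, 7], .l [0, 2, 2, 6, 8, 7, 7, 5, 2], .l [5, 10, 12, 11, 11, 9, 1], .l [5, 10], .l [1, 14, 9, 5, 7, 6, 6, 4, 7], .l [6, 8], .l [8, 10, 7], .l [8, 10], .l [8, 0, 10, 7], .y [9], .l [10, 13, 10, 13, 6, 10, 9, 2, 8, 1], .l [9, 13, 11, 14, 7, 2, 4, 10, 7], .l [10, 13, 10, 13, 6, 10, 9, 2, 8], .r 2435 [1, 2, 3, 4, 6, 5] [1, 1, 1, 1, 1, 1, 1], .r 2432 [1, 2, 3, 4, 6, 5] [1, 1, 1, 1, 1, 1, 1], .l [14, 6, 12, 13, 8, 6, 3], .l [3,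 2, 11, 13, 9, 11, 10, 10, 8, 1], .l [1, 12, 14, 10, 12, 11, 11, 9, 3], .l [12, 4, 10, 11, 6, 4, 10]]),
([p 2 1, s 8 0, g, s 1 0, g, p 0 2, p 3 0, g, p 4 3, p 7 4, g, m 0 5, g, s 5 6, g, p 6 7, g, s 0 8, g], .lo 11, [.l [3, 11, 8, 9, 13, 9, 9, 8, 8, 6, 1], .l [5, 4, 17, 1, 1, 3, 1, 3, 1, 10, 8, 8, 6, 6, 4, 1], .l [13, 9], .l [1, 18, 1, 1, 3, 1, 3, 1, 10, 8, 8, 6, 6, 4, 5], .l [3, 2, 15, 1, 1, 3, 1, 3, 1, 8, 6, 6, 4, 4, 2, 1], .l [3, 2, 17, 1, 1, 3, 1, 3, 1, 8, 6, 6, 4, 4, 2, 3], .l [13, 7], .l [1, 18, 1, 1, 3, 1, 3, 1, 8, 6, 6, 4, 4, 2, 5], .y [6, 11, 13, 15, 9, 8], .l [6, 13, 4, 9, 2, 14, 7, 2, 9], .l [13, 4], .l [12, 13, 8, 17, 10, 14, 13, 4, 4, 4, 4, 2, 8], .l [3, 2, 12, 1, 15, 11, 11, 10, 10, 8, 1], .l [13, 1], .l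 [12, 17, 13, 13, 12, 16, 9, 1, 6, 3, 1, 1, 9, 6, 7], .l [3, 2, 12, 1, 15, 11, 11, 10, 10, 8, 1], .l [13, 1], .l [11, 12], .l [3, 2, 14, 3, 15, 9, 9, 8, 8, 6, 1], .l [15, 3], .l [11, 14], .l [3, 2, 10, 15, 3, 1, 1, 9, 9, 8, 8, 6, 1], .l [17, 5], .l [11, 16], .l [3, 2, 15, 1, 1, 3, 1, 3, 1, 12, 10, 10, 8, 8, 6, 1], .l [19, 7], .l [11, 18]]),
([p 2 1, s 8 0, g, s 1 0, s 0 0, g, p 0 2, p 3 0, g, p 4 3, g, p 7 4, g, s 0 5, g, s 5 6, g, p 6 7, g, s 0 8, g], .hi 4, [.l [5, 4, 16, 1, 17, 13, 13, 11, 11, 9, 2, 3], .l [16, 19, 15, 15, 13, 7, 2, 9, 12, 1, 10, 3, 8], .l [5, 4, 7, 2, 3], .y [4], .l [5, 8, 2, 5, 2, 17], .l [3, 2, 7, 4, 1], .r 2057 [1, 9, 2] [1, 1, 1, 14], .l [3, 2, 5, 2, 1], .l [3, 2, 5, 2, 6, 8, 6, 15], .l [3, 2,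 5, 2, 6], .l [16, 19, 15, 15, 13, 13, 9, 11, 8, 2, 9, 6, 1], .l [3, 2, 5, 2, 8, 10, 8, 8, 6, 13], .l [3, 2, 5, 2, 8], .l [16, 19, 15, 15, 11, 11, 9, 11, 8, 2, 9, 6, 1], .l [3, 2, 5, 2, 10, 16, 14, 14, 12, 12, 10, 11], .l [3, 2, 5, 2, 10], .l [16, 19, 13, 13, 11, 11, 9, 11, 8, 2, 9, 6, 1], .l [3, 2, 5, 2, 10, 14, 12, 12, 10, 10, 8, 9], .l [3, 2, 5, 2, 12, 16, 12, 12, 10, 10, 8, 11], .l [3, 2, 5, 2, 12], .l [3, 2, 16, 3, 17, 11, 11, 9, 9, 7, 2, 9], .l [3, 2, 5, 2, 14, 16, 10, 10, 8, 8, 6, 11], .l [3, 2, 5, 2, 14], .l [14, 17, 6, 2, 7, 4, 14, 14, 10, 10, 8, 8, 6], .l [3, 2, 14, 1, 15, 11, 11, 9, 9, 7, 2, 9], .l [3, 2, 5, 2, 16], .l [14, 17, 13, 13, 11, 11, 9, 13, 10, 2, 11, 8, 1], .l [3, 2, 14, 1, 15, 11, 11, 9, 9, 7, 2,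 9], .l [3, 2, 14, 1, 15, 11, 11, 9, 9, 7, 2, 11], .l [3, 2, 5, 2, 18], .l [14, 17, 13, 13, 11, 11, 9, 15, 12, 2, 13, 10, 1]]),
([p 2 1, s 7 0, g, s 1 0, s 0 0, g, p 0 2, p 3 0, g, p 4 3, p 6 4, g, s 0 5, g, p 5 6, g, s 0 7, g], .lo 12, [.l [0, 6, 5, 10, 10, 10, 10, 8, 8, 7, 7, 5, 2], .l [3, 13, 13, 13, 13, 11, 11, 10, 10, 8, 4], .l [3, 13, 13, 13, 13, 11, 11, 10, 10, 8, 4], .l [1, 17, 1, 1, 12, 10, 10, 8, 8, 7, 7, 5, 6], .l [3, 11, 8, 10, 10, 10, 10, 6, 6, 5, 5, 3, 2], .l [3, 2, 5, 2, 9, 9, 9, 9, 7, 7, 6, 6, 4], .l [6, 13, 13, 13, 13, 11, 11, 10, 10, 8, 1], .l [6, 13, 13, 13, 13, 11, 11, 10, 10, 8, 1], .l [1, 17, 1, 1, 9, 7, 7, 5, 5, 4, 4, 2, 6], .y [7, 12, 14, 10, 9], .l [9, 13, 13, 13, 13, 11, 8], .l [9, 13, 13, 13,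 13, 11, 8], .l [8, 18, 10, 15, 14, 4, 4, 4, 4, 2, 9, 2], .r 2438 [1, 2, 3, 4, 8, 5, 6, 7] [1, 1, 1, 0, 1, 1, 1, 1, 1], .l [3, 2, 13, 1, 14, 10, 10, 9, 9, 7, 2], .r 2437 [1, 2, 3, 4, 8, 5, 6, 7] [1, 2, 1, 1, 1, 1, 1, 1], .l [3, 2, 11, 14, 1, 12, 12, 10, 10, 9, 9, 7, 2], .l [0, 14, 1, 15, 11, 11, 10, 10, 8, 5, 10, 3, 1], .l [0, 12, 15, 1, 13, 13, 11, 11, 10, 10, 8, 5, 8], .l [8, 16, 3, 10, 2, 14, 1, 10, 3, 3, 1, 5, 6, 1], .l [8, 16, 3, 8, 14, 1, 11, 3, 3, 1, 6, 7, 1], .l [12, 15, 1, 13, 2, 3, 2, 10, 12, 9, 10, 5, 1], .l [3, 2, 14, 16, 12, 12, 12, 12, 10, 10, 9, 9, 7, 2], .l [1, 15, 1, 1, 15, 13, 13, 11, 11, 10, 10, 8, 4], .l [11, 14, 12, 12, 11, 13, 5, 1, 12, 9, 10, 2, 8]]),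
([p 2 1, s 0 0, g, p 3 0, g, s 1 0, g, p 0 2, p 4 3, g, p 0 4, g], .bot 6, [.r 1003 [1, 2] [4, 4], .r 2266 [1, 2, 3, 4] [1, 1, 1, 1, 1], .r 1127 [1, 2] [3, 1, 4], .r 1575 [1, 2] [3, 1, 4]]),
([p 3 1, s 7 2, g, s 1 0, g, p 0 3, p 4 0, g, p 0 4, p 5 0, g, p 6 5, g, s 0 6, g, s 2 0, g, s 0 7, g], .hi 6, [.l [8, 4, 16, 9, 13, 8, 1, 5, 8, 3], .l [10, 16, 11, 4, 16, 9, 1, 12, 7, 10, 5, 2, 6, 7], .l [8, 4], .l [12, 17, 5, 11, 10, 1, 10, 2, 8, 9, 2, 3], .l [17, 15, 16, 10, 12, 11, 15, 6, 3, 9, 1, 7, 8, 1], .l [8, 2], .l [15, 13, 14, 10, 10, 9, 13, 4, 1, 7, 1, 5, 6, 1], .l [3, 2, 7, 1, 8, 6, 1], .l [6, 7], .l [8, 1], .y [6, 8], .l [6, 10, 12, 10, 7], .l [6, 10], .l [11, 4], .l [6, 12, 14, 12, 12, 10, 7], .l [6, 12], .l [13, 6],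 .l [6, 12, 12, 10, 10, 8, 7], .l [3, 2, 17, 7, 1, 3, 8, 8, 6, 3], .l [6, 14], .l [15, 8], .l [3, 2, 17, 7, 1, 5, 8, 8, 6, 1], .l [6, 16], .l [17, 10], .l [17, 15, 4, 13, 10, 12, 2, 11, 9, 6], .l [6, 18, 7, 1, 13, 2, 6, 10, 8, 10], .l [6, 18], .l [19, 12]]),
([p 3 1, s 7 2, g, s 1 0, g, p 0 3, p 4 0, g, p 0 4, p 5 0, g, p 6 5, g, s 0 6, g, s 0 7, g, s 2 0, g], .hi 6, [.l [8, 4, 16, 9, 13, 8, 1, 5, 8, 3], .l [10, 16, 11, 4, 16, 9, 1, 12, 7, 10, 5, 2, 6, 7], .l [8, 4], .l [12, 17, 5, 11, 10, 1, 10, 2, 8, 9, 2, 3], .l [17, 15, 16, 10, 12, 11, 15, 6, 3, 9, 1, 7, 8, 1], .l [8, 2], .l [15, 13, 14, 10, 10, 9, 13, 4, 1, 7, 1, 5, 6, 1], .l [3, 2, 7, 1, 8, 6, 1], .l [6, 7], .l [8, 1], .y [6, 8], .l [6, 10, 12, 10, 7], .l [6, 10],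 .l [11, 4], .l [6, 12, 14, 12, 12, 10, 7], .l [6, 12], .l [13, 6], .l [6, 12, 12, 10, 10, 8, 7], .l [3, 2, 15, 5, 1, 3, 6, 6, 4, 1], .l [6, 14], .l [15, 8], .l [15, 13, 4, 11, 8, 10, 11, 3, 10, 7], .l [3, 2, 17, 7, 1, 5, 8, 8, 6, 1], .l [6, 16], .l [17, 10], .l [6, 18, 7, 1, 13, 2, 8, 10, 6, 10], .l [6, 18], .l [19, 12]]),
([p 2 1, s 7 0, g, s 1 0, g, p 0 2, p 3 0, g, p 4 3, p 5 4, g, p 6 5, g, s 0 6, g, s 0 7, g], .hi 1, [.r 1053 [1, 8, 2] [1, 1, 1, 11], .l [2, 7, 4, 4, 1], .l [10, 13, 4, 16, 3, 12, 3, 12, 7, 9, 2, 6, 3], .r 989 [1, 8, 2] [1, 1, 1, 11], .l [3, 2, 3], .l [5, 3, 10, 11, 10, 10, 9, 9, 7, 1, 4, 2, 7], .l [3, 2, 3], .l [1, 7, 9, 7, 3], .l [0, 5, 4, 6, 8, 6, 1], .l [3, 8, 5, 6, 8, 4, 1], .l [1, 10, 12, 10,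 10, 9, 9, 7, 3], .l [0, 5, 4, 9, 11, 9, 9, 8, 8, 6, 1], .l [3, 11, 8, 9, 11, 7, 7, 6, 6, 4, 1], .l [3, 2, 11, 13, 11, 11, 9, 9, 8, 8, 6, 1], .l [3, 2, 11], .l [3, 2, 15, 8, 5, 13, 6, 9, 9, 7, 4, 1], .l [0, 5, 4, 11, 11, 9, 9, 7, 7, 6, 6, 4, 1], .r 2441 [1, 8, 2, 3, 5, 6, 7] [1, 1, 1, 1, 1, 1, 1, 1], .l [3, 2, 13], .l [12, 15, 3, 7, 6, 11, 11, 9, 9, 8, 8, 6, 1], .y [1, 15], .r 2442 [1, 8, 2, 3, 5, 6, 7] [1, 1, 1, 1, 1, 1, 1, 1], .l [3, 2, 15], .l [12, 17, 5, 9, 8, 13, 13, 11, 11, 10, 10, 8, 1]]),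
([p 2 1, s 4 0, g, s 1 0, s 3 0, g, p 0 2, g, p 0 3, g, s 0 4, g], .hi 1, [.l [12, 10, 11, 4, 9, 5, 2, 5], .l [2, 8, 5, 5, 2], .r 578 [1, 5, 2] [1, 1, 2, 5], .l [6, 4, 7, 1, 7, 2, 4, 5], .l [3, 2, 4], .l [6, 4, 7, 1, 7, 2, 4, 5], .l [3, 2, 4], .l [3, 2, 10, 3, 8, 4, 2, 3], .l [3, 2, 10, 3, 8, 4, 2, 3], .l [8, 6, 11, 4, 8, 5], .l [3, 2, 8, 1, 6, 4, 2, 3], .l [10, 8, 9, 4, 9, 5, 2, 5], .l [3, 2, 8], .l [10, 8, 9, 4, 9, 5, 2, 5], .y [1, 10], .l [10, 8, 9, 4, 9, 5, 2, 5], .l [3, 2, 10], .l [10, 8, 9, 4, 9, 5, 2, 5]]),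
([p 3 1, s 8 0, g, s 1 0, s 2 0, g, p 0 2, g, p 0 3, p 4 0, g, p 5 4, g, p 6 5, g, p 7 6, g, p 0 7, g, s 0 8, g], .hi 4, [.l [5, 4, 16, 18, 17, 17, 15, 15, 13, 13, 11, 4, 5], .l [8, 1, 4, 2, 4], .l [5, 4, 9, 4, 5], .l [5, 10, 4, 7, 2, 17], .l [3, 2, 9, 6, 1], .l [6, 1, 7, 5, 2], .y [4, 6], .l [7, 10, 2, 5, 2, 17], .l [3, 2, 9, 6, 3], .l [6, 1, 7, 5, 2], .l [3, 2, 7, 4, 3], .l [3, 2, 7, 4, 8, 10, 8, 15], .l [3, 2, 7, 4, 8], .l [6, 1, 10, 8, 2], .l [3, 2, 7, 4, 10, 12, 10, 10, 8, 13], .l [3, 2, 7, 4, 10], .l [6, 1, 12, 10, 2], .l [3, 2, 7, 4, 12, 14, 12, 12, 10, 10, 8, 11], .l [3, 2, 7, 4, 12], .l [6, 1, 14, 12, 2], .l [3, 2, 7, 4, 14, 16, 14, 14, 12, 12, 10, 10, 8], .l [3, 2, 7, 4, 14], .l [6, 1, 16, 14, 2], .l [3, 2,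 7, 4, 14], .l [3, 2, 14, 16, 15, 15, 13, 13, 11, 11, 9, 4, 9], .l [3, 2, 7, 4, 16], .l [6, 1, 18, 16, 2], .l [3, 2, 14, 16, 15, 15, 13, 13, 11, 11, 9, 4, 9], .l [3, 2, 14, 16, 15, 15, 13, 13, 11, 11, 9, 4, 11], .l [3, 2, 7, 4, 18], .l [6, 1, 20, 18, 2]]),
([p 3 1, s 8 0, g, m 0 2, g, s 1 0, s 2 0, g, p 0 3, p 4 0, g, p 5 4, g, p 6 5, g, p 7 6, g, p 0 7, g, s 0 8, g], .hi 6, [.l [8, 4, 9, 1, 7, 2, 4, 15], .l [14, 7, 12, 13, 6, 8, 3, 8, 4, 11, 4, 8, 3], .l [7, 6, 9, 2, 5], .y [3, 6], .l [7, 6, 16, 18, 17, 17, 15, 15, 13, 13, 11, 2, 3], .l [14, 7, 12, 13, 6, 8, 3, 8, 4, 11, 4, 8, 3], .l [7, 6, 9, 2, 3], .l [7, 10, 2, 7, 4, 17], .l [5, 4, 9, 4, 1], .l [8, 1, 4, 2, 4], .l [5, 4, 7, 2, 1], .l [5, 4, 7, 2, 8, 10, 8, 15], .l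 [5, 4, 7, 2, 8], .l [11, 4, 7, 2, 7], .l [5, 4, 7, 2, 10, 12, 10, 10, 8, 13], .l [5, 4, 7, 2, 10], .l [13, 6, 9, 2, 9], .l [5, 4, 7, 2, 12, 14, 12, 12, 10, 10, 8, 11], .l [5, 4, 7, 2, 12], .l [15, 8, 11, 2, 11], .l [5, 4, 7, 2, 14, 16, 14, 14, 12, 12, 10, 10, 8], .l [5, 4, 7, 2, 14], .l [17, 10, 13, 2, 13], .l [5, 4, 7, 2, 14], .l [19, 12, 15, 2, 15, 16], .l [5, 4, 7, 2, 16], .l [19, 12, 15, 2, 15], .l [19, 12, 15, 2, 15, 12], .l [21, 14, 17, 2, 17, 12], .l [5, 4, 7, 2, 18], .l [21, 14, 17, 2, 17]]),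
([p 2 1, s 7 0, g, s 1 0, s 0 0, g, p 0 2, p 3 0, g, p 4 3, g, p 5 4, g, p 6 5, g, p 0 6, g, s 0 7, g], .lo 4, [.l [3, 2, 12, 14, 13, 13, 11, 11, 9, 9, 7, 2, 3], .l [5, 4, 14, 16, 15, 15, 13, 13, 11, 11, 9, 2, 3], .l [5, 4, 7, 2, 3], .r 2446 [1, 8, 2, 3, 4, 5, 6, 7] [1, 1, 1, 1, 1, 1, 1, 1, 1], .c, .y [4], .l [5, 8, 2, 5, 2, 15], .r 2445 [1, 8, 2, 3, 4, 5, 6, 7] [1, 1, 1, 1, 1, 1, 1, 1, 1], .l [3, 2, 7, 4, 1], .l [7, 2, 16, 10, 0, 13, 10, 10, 8, 8, 6, 6, 4], .l [3, 2, 5, 2, 6, 8, 6, 13], .l [9, 4, 18, 10, 0, 15, 12, 12, 10, 10, 8, 8, 6], .l [3, 2, 5, 2, 6], .l [3, 2, 5, 2, 8, 10, 8, 8, 6, 11], .l [14, 17, 11, 14, 9, 2, 14, 1, 9, 2, 5, 7, 2, 1], .l [3, 2, 5, 2, 8], .l [3, 2, 5, 2, 10, 12, 10, 10, 8, 8, 6, 9], .l [10,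 1, 12, 6, 2, 10, 6, 11, 4, 6, 1], .l [3, 2, 5, 2, 10], .l [3, 2, 5, 2, 12, 14, 12, 12, 10, 10, 8, 8, 6], .l [10, 15, 8, 2, 15, 3, 10, 1, 4, 9, 4, 3], .l [3, 2, 5, 2, 12], .l [3, 2, 12, 14, 13, 13, 11, 11, 9, 9, 7, 2, 7], .l [10, 17, 10, 2, 15, 1, 10, 1, 6, 9, 2, 1], .l [3, 2, 5, 2, 14], .l [3, 2, 12, 14, 13, 13, 11, 11, 9, 9, 7, 2, 9], .l [12, 19, 10, 2, 3, 15, 1, 8, 14, 5, 4, 6, 1], .l [3, 2, 5, 2, 16]]),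
([p 2 1, s 6 0, g, s 1 0, s 0 0, g, p 0 2, p 3 0, g, p 4 3, p 5 4, g, p 0 5, g, s 0 6, g], .lo 12, [.l [0, 6, 5, 10, 10, 8, 8, 7, 7, 5, 2], .l [3, 13, 13, 11, 11, 10, 10, 8, 4], .l [3, 13], .l [0, 8, 7, 14, 12, 10, 10, 8, 8, 7, 7, 5, 2], .l [0, 2, 2, 10, 10, 8, 8, 7, 7, 5, 4], .l [3, 2, 5, 2, 9], .l [6, 13, 13, 11, 11, 10, 10, 8, 1], .l [6, 13], .l [0, 8, 7, 14, 9, 7, 7, 5, 5, 4, 4, 2, 4], .y [7, 12, 10, 9], .l [9, 13, 13, 11, 8], .l [9, 13], .l [9, 0, 13, 13, 11, 8], .r 2439 [1, 2, 3, 4, 7, 5, 6] [1, 1, 1, 1, 1, 1, 1], .l [12, 13], .l [11, 14, 12, 12, 11, 13, 5, 10, 9, 1, 1, 7, 2], .r 2443 [1, 2, 3, 4, 5, 7, 6] [1, 2, 1, 1, 1, 1, 1], .r 2447 [1, 2, 3, 4, 5, 7, 6] [1, 1, 1, 0, 1, 1, 1, 1], .l [13, 16, 3, 8, 7, 12, 12,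 10, 10, 9, 9, 7, 2], .l [3, 2, 12, 14, 12, 12, 10, 10, 9, 9, 7, 2], .l [0, 6, 5, 12, 14, 12, 12, 10, 10, 9, 9, 7, 2], .l [3, 2, 12, 14, 0, 12, 12, 10, 10, 9, 9, 7, 2]]),
([p 2 1, s 6 0, g, s 1 0, p 0 0, g, p 0 2, p 3 0, g, p 4 3, p 5 4, g, p 0 5, g, s 0 6, g], .lo 4, [.l [3, 2, 2], .l [5, 4, 7, 2, 3], .l [3, 5], .l [2, 8, 5, 2], .c, .y [4], .l [3, 2, 7, 4, 1], .l [4, 12, 14, 13, 13, 12, 12, 10, 3, 1, 5, 2, 7], .l [3, 2, 7, 4, 1], .l [3, 2, 12, 7, 0, 8, 6, 6, 4, 4, 3, 3, 1], .l [3, 2, 5, 2, 6], .l [3, 2, 14, 9, 0, 10, 6, 8, 6, 6, 5, 5, 3], .l [1, 15, 11, 4, 6, 4, 11], .l [3, 2, 5, 2, 9], .l [7, 12, 8, 2, 13, 3, 8, 5], .l [0, 6, 5, 14, 11, 7, 9, 7, 7, 6, 6, 4, 5], .l [3, 2, 5, 2, 11], .l [7, 14, 10, 2, 13, 1, 8, 8, 7,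 7, 5, 3, 5], .l [3, 2, 5, 2, 11], .l [3, 2, 5, 2, 13], .l [10, 12, 11, 11, 10, 14, 9, 2, 10, 7, 1, 8, 5], .l [3, 2, 5, 2, 13]]),
([p 2 1, s 6 0, g, s 1 0, m 0 0, g, p 0 2, p 3 0, g, p 4 3, p 5 4, g, p 0 5, g, s 0 6, g], .hi 4, [.l [5, 4, 7, 2, 3], .l [2, 8, 5, 2], .l [3, 5], .y [4], .l [3, 2, 7, 4, 1], .l [3, 2, 7, 4, 1], .l [4, 12, 14, 13, 13, 12, 12, 10, 3, 1, 5, 2, 7], .l [3, 2, 5, 2, 1], .l [3, 2, 5, 2, 6], .l [1, 15, 11, 4, 6, 4, 11], .l [3, 2, 14, 9, 0, 10, 6, 8, 6, 6, 5, 5, 3], .l [3, 2, 5, 2, 9], .l [0, 6, 5, 14, 11, 7, 9, 7, 7, 6, 6, 4, 5], .l [7, 12, 8, 2, 13, 3, 8, 5], .l [0, 6, 5, 12, 9, 7, 7, 5, 5, 4, 4, 2, 3], .l [3, 2, 5, 2, 11], .l [3, 2, 5, 2, 11], .l [7, 14, 10, 2, 13, 1, 8, 8, 7, 7, 5, 3, 5], .l [3,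 2, 5, 2, 11], .l [3, 2, 5, 2, 13], .l [3, 2, 5, 2, 13], .l [10, 12, 11, 11, 10, 14, 9, 2, 10, 7, 1, 8, 5]]),
([p 2 1, s 6 0, g, s 1 0, g, p 0 2, p 3 0, g, p 4 3, p 5 4, g, p 0 5, g, s 0 6, g], .top 4, [.r 1003 [1, 2] [2, 9], .r 2448 [1, 2, 3, 4, 5, 6] [1, 1, 1, 1, 1, 1], .r 2449 [1, 2, 3, 4, 5, 6] [1, 1, 1, 1, 1, 1], .r 2450 [1, 2, 3, 4, 5, 6] [1, 1, 1, 1, 1, 1]]),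
([p 2 1, s 6 0, g, s 1 0, g, p 0 2, p 3 0, g, p 4 3, p 5 4, g, s 0 5, g, s 0 6, g], .hi 1, [.r 1053 [1, 7, 2] [1, 1, 1, 9], .l [2, 7, 4, 4, 1], .r 578 [1, 7, 2] [1, 1, 1, 9], .l [1, 14, 9, 12, 1, 6, 7, 6, 1, 3, 4, 1], .l [3, 2, 3], .l [9, 6, 7, 12, 7, 10, 1, 6, 1, 3, 4, 1], .l [3, 2, 3], .l [1, 7, 9, 7, 3], .l [0, 5, 4, 6, 8, 6, 1], .l [3, 8, 5, 6, 8, 4, 1], .l [3, 2, 9, 11, 9, 9, 8, 8, 6, 1], .l [3, 2, 9], .l [3, 2, 13, 6, 3, 11, 6, 7, 4, 1], .l [1, 10, 10, 8, 8, 7, 7, 5, 3], .r 2433 [1, 7, 2, 3, 5, 6] [1, 1, 1, 1, 1, 1, 1], .l [3, 2, 11], .r 852 [1, 7, 2] [1, 1, 7, 3], .y [1, 13], .r 2434 [1, 7, 2, 3, 5, 6] [1, 1, 1, 1, 1, 1, 1], .l [3, 2, 13], .r 852 [1, 7, 2] [1, 1, 9, 1]]),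
([p 2 1, s 5 0, g, s 1 0, g, p 0 2, p 3 0, g, p 4 3, p 0 4, g, s 0 5, g], .lo 9, [.l [0, 5, 4, 7, 7, 6, 6, 4, 1], .l [3, 10, 10, 9, 9, 7, 3], .l [3, 10], .l [1, 12, 9, 7, 7, 6, 6, 4, 5], .l [0, 2, 2, 6, 6, 5, 5, 3, 2], .l [5, 10, 10, 9, 9, 7, 1], .l [5, 10], .l [1, 12, 7, 5, 5, 4, 4, 2, 5], .y [6, 9, 8], .l [8, 10, 7], .l [8, 10], .l [8, 0, 10, 7], .r 2452 [1, 2, 3, 4, 6, 5] [1, 1, 1, 1, 1, 1], .r 2451 [1, 2, 3, 4, 6, 5] [1, 1, 1, 1, 1, 1], .l [12, 4, 10, 11, 6, 4, 1], .l [3, 2, 9, 11, 9, 9, 8, 8, 6, 1], .l [1, 10, 12, 10, 10, 9, 9, 7, 3], .l [10, 2, 8, 9, 4, 2, 8]]),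
([p 2 1, s 4 0, g, s 1 0, g, p 0 2, p 3 0, g, p 0 3, p 0 0, g, s 0 4, g], .lo 8, [.l [0, 5, 4, 6, 6, 4, 1], .l [3, 9, 9, 7, 3], .l [3, 9], .l [1, 12, 9, 6, 6, 4, 7], .l [0, 2, 2, 5, 5, 3, 2], .l [5, 9, 9, 7, 1], .l [5, 9], .l [1, 12, 7, 4, 4, 2, 7], .y [6, 8], .r 1964 [1, 2, 5, 3] [1, 1, 1, 1, 4], .l [8, 9], .l [9, 8, 12, 5, 2, 5, 2], .r 2453 [1, 2, 3, 5, 4] [1, 1, 1, 1, 1], .r 2431 [1, 2, 3, 5, 4] [1, 1, 1, 1, 1, 1], .r 2436 [1, 2, 3, 5, 4] [1, 1, 1, 1, 1, 1], .r 1627 [2, 3, 5] [4, 1, 2, 3], .l [3, 2, 9, 11, 8, 8, 6, 1], .l [1, 10, 12, 9, 9, 7, 3], .r 1627 [2, 3, 5] [4, 1, 4, 1]]),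
([p 2 1, s 8 0, g, s 1 0, g, p 3 2, p 5 3, s 7 4, g, p 0 5, s 0 6, g, m 6 0, g, s 4 0, g, s 0 7, g, s 0 8, g], .lo 10, [.l [14, 6, 7, 5, 10, 11, 7, 7, 5, 8], .l [16, 6, 7, 5, 10, 13, 9, 9, 7, 10], .l [16, 6, 7, 5, 10, 13, 9, 9, 7, 10], .l [5, 4, 6, 1, 14, 6, 7, 5, 8, 10, 6, 9], .l [14, 6, 7, 5, 8, 8, 9, 12, 5, 1, 1, 6, 6, 4, 1], .l [16, 6, 7, 5, 8, 13, 11, 11, 9, 10], .l [16, 6, 7, 5, 8, 13, 11, 11, 9, 10], .l [16, 6, 17, 10, 0, 14, 10, 1, 2, 12, 2, 0, 7], .l [9, 11, 7], .l [9, 11, 7], .l [8, 20, 12, 16, 15, 2, 14, 1], .l [3, 2, 11, 1, 14, 9, 11, 10, 1, 5, 8, 3], .l [3, 2, 5, 11, 1, 12, 10, 7, 1], .l [5, 6, 5, 15, 8, 15, 6, 0, 11, 1], .y [10, 12], .l [5, 6, 5, 15, 8, 15, 6, 0, 11, 3], .l [3, 2, 5, 11, 1, 12, 10, 7, 1],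 .l [3, 2, 9, 12, 7, 1, 13, 4, 5, 3, 4, 8, 6, 7], .l [7, 13, 9, 2, 14, 4, 9, 7, 3, 6, 3], .l [3, 2, 6, 12, 14, 10, 6, 1], .l [7, 13, 9, 2, 16, 6, 11, 7, 3, 8, 5], .l [3, 2, 9, 14, 1, 9, 11, 10, 1, 5, 8, 3], .l [3, 2, 6, 14, 16, 10, 6, 1], .l [7, 15, 11, 2, 16, 4, 11, 7, 1, 8, 5], .l [3, 2, 9, 16, 1, 11, 13, 12, 1, 5, 10, 5], .l [3, 2, 6, 14, 18, 12, 6, 1], .l [0, 7, 15, 19, 13, 7, 4, 8], .l [7, 15, 11, 2, 14, 2, 9, 14, 8, 2, 7]]),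
([p 2 1, s 7 0, g, s 1 0, g, p 3 2, p 5 3, s 6 4, g, p 0 5, s 0 0, g, s 4 0, g, s 0 6, g, s 0 7, g], .hi 10, [.l [14, 4, 5, 3, 8, 11, 7, 7, 5, 8], .l [5, 4, 6, 1, 12, 4, 5, 3, 6, 8, 4, 7], .l [14, 4, 5, 3, 8, 11, 7, 7, 5, 8], .l [14, 4, 5, 3, 6, 11, 9, 9, 7, 8], .l [14, 4, 15, 10, 0, 12, 8, 1, 2, 10, 2, 0, 5], .l [14, 4, 5, 3, 6, 11, 9, 9, 7, 8], .l [9, 11, 7], .l [8, 18, 10, 14, 13, 2, 12, 1], .l [9, 11, 7], .l [8, 16, 8, 12, 11, 0, 10, 1], .y [10], .l [5, 6, 5, 13, 6, 13, 6, 0, 9, 1], .l [5, 6, 5, 13, 6, 13, 6, 0, 9, 1], .r 2455 [1, 2, 3, 4, 5, 8, 6, 7] [1, 1, 1, 1, 1, 1, 1, 1], .l [3, 2, 6, 10, 12, 10, 6, 1], .l [17, 1, 8, 14, 15, 10, 7, 3], .l [7, 11, 7, 2, 14, 6, 9, 5, 3, 6, 3], .l [7, 13, 9, 2, 12, 2, 7, 5, 1,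 4, 1], .l [3, 2, 6, 12, 14, 10, 6, 1], .l [3, 2, 11, 4, 5, 3, 12, 7, 1, 5, 6, 1], .l [7, 13, 9, 2, 14, 4, 9, 5, 1, 6, 3], .l [0, 7, 13, 15, 11, 7, 4, 8], .l [3, 2, 6, 12, 16, 12, 6, 1], .l [7, 13, 9, 2, 12, 2, 7, 12, 8, 2, 7], .l [0, 7, 13, 17, 13, 7, 4, 8]]),
([p 2 1, s 7 0, g, s 1 0, g, p 3 2, p 5 3, s 6 4, g, p 0 5, g, s 4 0, g, s 0 6, g, s 0 7, g], .top 10, [.l [7, 9, 7], .r 2456 [1, 2, 3, 4, 5, 6, 7] [1, 1, 1, 1, 1, 1, 1], .r 2454 [1, 2, 5, 7] [1, 1, 2, 5, 1], .r 1819 [2, 5] [4, 2, 7]]),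
([p 2 1, s 8 0, g, s 1 0, g, p 3 2, p 5 3, s 7 4, g, p 0 5, s 0 6, g, m 6 0, g, s 0 7, g, s 4 0, g, s 0 8, g], .lo 10, [.l [14, 6, 7, 5, 10, 11, 7, 7, 5, 8], .l [16, 6, 7, 5, 10, 13, 9, 9, 7, 10], .l [16, 6, 7, 5, 10, 13, 9, 9, 7, 10], .l [5, 4, 6, 1, 14, 6, 7, 5, 8, 10, 6, 9], .l [14, 6, 7, 5, 8, 8, 9, 12, 5, 1, 1, 6, 6, 4, 1], .l [16, 6, 7, 5, 8, 13, 11, 11, 9, 10], .l [16, 6, 7, 5, 8, 13, 11, 11, 9, 10], .l [16, 6, 17, 10, 0, 14, 10, 1, 2, 12, 2, 0, 7], .l [9, 11, 7], .l [9, 11, 7], .l [8, 20, 12, 16, 15, 2, 14, 1], .l [3, 2, 11, 1, 14, 9, 11, 10, 1, 5, 8, 3], .l [3, 2, 5, 11, 1, 12, 10, 7, 1], .l [5, 6, 5, 15, 8, 15, 6, 0, 11, 1], .y [10, 12], .l [5, 6, 5, 15, 8, 15, 6, 0, 11, 3], .l [3, 2, 5, 11, 1, 12, 10, 7, 1],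 .l [3, 2, 9, 12, 7, 1, 13, 4, 5, 3, 4, 8, 6, 7], .l [3, 2, 6, 12, 14, 10, 6, 1], .l [7, 13, 9, 2, 16, 6, 11, 7, 3, 8, 5], .l [3, 2, 9, 14, 1, 9, 11, 10, 1, 5, 8, 3], .l [7, 13, 9, 2, 14, 4, 9, 5, 1, 6, 1], .l [3, 2, 6, 12, 16, 12, 6, 1], .l [7, 13, 9, 2, 16, 6, 11, 5, 1, 8, 1], .l [3, 2, 9, 16, 1, 11, 13, 12, 1, 5, 10, 5], .l [3, 2, 6, 12, 18, 14, 6, 1], .l [0, 7, 13, 19, 15, 7, 4, 10], .l [7, 13, 9, 2, 14, 4, 9, 14, 10, 4, 1]]),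
([p 2 1, s 7 0, g, s 1 0, g, p 3 2, p 5 3, s 6 4, g, p 0 5, s 0 0, g, s 0 6, g, s 4 0, g, s 0 7, g], .hi 10, [.l [14, 4, 5, 3, 8, 11, 7, 7, 5, 8], .l [5, 4, 6, 1, 12, 4, 5, 3, 6, 8, 4, 7], .l [14, 4, 5, 3, 8, 11, 7, 7, 5, 8], .l [14, 4, 5, 3, 6, 11, 9, 9, 7, 8], .l [14, 4, 15, 10, 0, 12, 8, 1, 2, 10, 2, 0, 5], .l [14, 4, 5, 3, 6, 11, 9, 9, 7, 8], .l [9, 11, 7], .l [8, 18, 10, 14, 13, 2, 12, 1], .l [9, 11, 7], .l [8, 16, 8, 12, 11, 0, 10, 1], .y [10], .l [5, 6, 5, 13, 6, 13, 6, 0, 9, 1], .l [5, 6, 5, 13, 6, 13, 6, 0, 9, 1], .r 2458 [1, 2, 3, 4, 5, 8, 6, 7] [1, 1, 1, 1, 1, 1, 1, 1], .l [7, 11, 7, 2, 12, 4, 7, 5, 3, 4, 1], .l [3, 2, 6, 10, 12, 10, 6, 1], .l [17, 1, 8, 14, 15, 10, 7, 3], .l [7, 11, 7, 2, 14, 6, 9, 5, 3,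 6, 3], .l [3, 2, 6, 10, 14, 12, 6, 1], .l [3, 2, 11, 4, 5, 3, 12, 7, 1, 5, 6, 1], .l [7, 11, 7, 2, 14, 6, 9, 3, 1, 6, 1], .l [0, 7, 11, 15, 13, 7, 4, 10], .l [3, 2, 6, 10, 16, 14, 6, 1], .l [7, 11, 7, 2, 12, 4, 7, 12, 10, 4, 1], .l [0, 7, 11, 17, 15, 7, 4, 10]]),
([p 2 1, s 7 0, g, s 1 0, g, p 3 2, p 5 3, s 6 4, g, p 0 5, g, s 0 6, g, s 4 0, g, s 0 7, g], .top 10, [.l [7, 9, 7], .r 2459 [1, 2, 3, 4, 5, 6, 7] [1, 1, 1, 1, 1, 1, 1], .r 2454 [1, 2, 5, 7] [1, 1, 2, 5, 1], .r 1819 [2, 5] [4, 2, 7]]),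
([p 2 1, s 6 0, g, s 1 0, g, s 0 0, p 3 2, p 5 3, s 0 4, g, p 0 5, g, s 4 0, g, s 0 6, g], .lo 8, [.l [1, 7, 9, 8, 4], .l [3, 9, 11, 10, 4], .l [3, 9, 11, 10, 4], .l [5, 4, 14, 12, 6, 8, 7, 2], .l [3, 7, 4, 6, 8, 5, 2], .l [5, 9, 11, 10, 2], .l [5, 9, 11, 10, 2], .l [3, 2, 14, 10, 4, 6, 5, 8], .l [5, 7, 9, 8, 0], .l [9, 12, 9, 13, 10, 2, 11, 8, 2, 6], .l [3, 2, 9, 1, 10, 7, 2], .l [6, 7, 6, 7, 12, 3, 10, 0, 6], .r 2460 [1, 2, 3, 4, 5, 7, 6] [1, 2, 1, 1, 1, 1, 1], .l [8, 13, 8, 2, 9, 6, 1, 7, 9, 4, 2, 4], .l [8, 13, 8, 2, 12, 6, 4, 7, 1, 5, 5, 4], .y [8, 12], .r 2457 [1, 2, 3, 4, 5, 7, 6] [1, 2, 1, 1, 1, 1, 1], .l [6, 7, 6, 11, 3, 12, 8, 0, 8], .l [8, 13, 8, 2, 9, 6, 1, 7, 9, 4, 2, 4], .l [3, 2, 12, 14, 8, 10, 9, 2],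 .l [3, 2, 12, 14, 8, 10, 9, 2], .l [3, 2, 12, 5, 13, 9, 11, 1, 7, 2]]),
([p 2 1, s 8 0, g, s 1 0, g, p 3 0, g, p 0 2, p 5 3, s 7 4, g, p 0 5, s 0 6, g, m 6 0, g, s 0 7, g, s 4 0, g, s 0 8, g], .lo 12, [.l [16, 6, 7, 5, 12, 13, 7, 9, 7, 10], .l [18, 6, 7, 5, 12, 15, 9, 11, 9, 12], .l [18, 6, 7, 5, 12, 15, 9, 11, 9, 12], .l [5, 4, 8, 3, 16, 6, 7, 5, 8, 12, 8, 11], .l [16, 6, 7, 5, 10, 10, 11, 14, 5, 1, 1, 6, 8, 6, 1], .l [18, 6, 7, 5, 10, 15, 11, 13, 11, 12], .l [18, 6, 7, 5, 10, 15, 11, 13, 11, 12], .l [7, 14, 11, 7, 12, 14, 12, 9, 1], .l [16, 6, 7, 5, 8, 8, 4, 12], .l [18, 6, 7, 5, 8, 10, 6, 14], .l [18, 6, 7, 5, 8, 10, 6, 14], .l [11, 17, 9, 2, 18, 4, 13, 5, 1, 10, 1], .l [11, 13, 9], .l [11, 13, 9], .l [10, 22, 12,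 18, 17, 2, 16, 3], .l [3, 2, 13, 1, 16, 11, 13, 12, 3, 7, 10, 3], .l [3, 2, 7, 13, 1, 14, 12, 9, 3], .l [7, 8, 5, 17, 8, 17, 8, 2, 13, 1], .y [12, 14], .l [5, 12, 15, 11, 7, 9, 12, 9, 1], .l [3, 2, 7, 13, 1, 14, 12, 9, 3], .l [5, 12, 15, 11, 7, 9, 12, 9, 1], .l [5, 12, 17, 13, 7, 9, 14, 11, 1], .l [9, 15, 9, 2, 18, 6, 13, 9, 5, 10, 5], .l [5, 12, 17, 13, 7, 9, 14, 11, 1], .l [5, 12, 17, 13, 7, 9, 14, 11, 1], .l [5, 12, 19, 15, 7, 9, 16, 13, 1], .l [9, 15, 9, 2, 18, 6, 13, 7, 3, 10, 1], .l [5, 12, 19, 15, 7, 9, 16, 13, 1], .l [5, 12, 21, 17, 7, 9, 18, 15, 1], .l [0, 9, 15, 21, 17, 9, 6, 12], .l [5, 12, 21, 17, 7, 9, 18, 15, 1]]),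
([p 2 1, s 7 0, g, s 1 0, g, p 3 0, g, p 0 2, p 5 3, s 6 4, g, p 0 5, s 0 0, g, s 0 6, g, s 4 0, g, s 0 7, g], .hi 12, [.l [16, 4, 5, 3, 10, 13, 7, 9, 7, 10], .l [5, 4, 8, 3, 14, 4, 5, 3, 6, 10, 6, 9], .l [16, 4, 5, 3, 10, 13, 7, 9, 7, 10], .l [16, 4, 5, 3, 8, 13, 9, 11, 9, 10], .l [16, 4, 17, 12, 0, 14, 8, 1, 2, 12, 4, 2, 7], .l [16, 4, 5, 3, 8, 13, 9, 11, 9, 10], .l [16, 4, 5, 3, 6, 8, 4, 12], .l [11, 15, 7, 2, 16, 4, 11, 3, 1, 8, 1], .l [16, 4, 5, 3, 6, 8, 4, 12], .l [9, 13, 7, 2, 14, 4, 9, 3, 1, 6, 1], .l [11, 13, 9], .l [10, 20, 10, 16, 15, 2, 14, 3], .l [11, 13, 9], .l [10, 18, 8, 14, 13, 0, 12, 3], .y [12], .l [7, 8, 5, 15, 6, 15, 8, 2, 11, 1], .l [7, 8, 5, 15, 6, 15, 8, 2, 11, 1], .r 2462 [1, 2, 3, 4, 5, 8, 6,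 7] [1, 1, 1, 1, 1, 1, 1, 1, 1], .l [9, 13, 7, 2, 14, 4, 9, 7, 5, 6, 1], .l [3, 2, 8, 12, 14, 12, 8, 3], .l [19, 1, 8, 16, 17, 10, 7, 3], .l [9, 13, 7, 2, 16, 6, 11, 7, 5, 8, 3], .l [3, 2, 8, 12, 16, 14, 8, 3], .l [3, 2, 13, 4, 5, 3, 14, 9, 3, 7, 8, 1], .l [9, 13, 7, 2, 16, 6, 11, 5, 3, 8, 1], .l [0, 9, 13, 17, 15, 9, 6, 12], .l [3, 2, 8, 12, 18, 16, 8, 3], .l [9, 13, 7, 2, 14, 4, 9, 14, 12, 6, 1], .l [0, 9, 13, 19, 17, 9, 6, 12]]),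
([p 2 1, s 7 0, g, s 1 0, g, p 3 0, g, p 0 2, p 5 3, s 6 4, g, p 0 5, g, s 0 6, g, s 4 0, g, s 0 7, g], .top 12, [.l [9, 11, 9], .r 2463 [1, 2, 3, 4, 5, 6, 7] [1, 1, 1, 1, 1, 1, 1, 1], .r 2454 [1, 2, 5, 7] [1, 3, 2, 5, 1], .r 1819 [2, 5] [6, 2, 7]]),
([p 2 1, s 8 0, g, s 1 0, g, p 3 0, g, p 0 2, p 5 3, s 7 4, g, p 0 5, s 0 6, g, m 6 0, g, s 4 0, g, s 0 7, g, s 0 8, g], .lo 12, [.l [16, 6, 7, 5, 12, 13, 7, 9, 7, 10], .l [18, 6, 7, 5, 12, 15, 9, 11, 9, 12], .l [18, 6, 7, 5, 12, 15, 9, 11, 9, 12], .l [5, 4, 8, 3, 16, 6, 7, 5, 8, 12, 8, 11], .l [16, 6, 7, 5, 10, 10, 11, 14, 5, 1, 1, 6, 8, 6, 1], .l [18, 6, 7, 5, 10, 15, 11, 13, 11, 12], .l [18, 6, 7, 5, 10, 15, 11, 13, 11, 12], .l [7, 14, 11, 7, 12, 14, 12, 9, 1], .l [16,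 6, 7, 5, 8, 8, 4, 12], .l [18, 6, 7, 5, 8, 10, 6, 14], .l [18, 6, 7, 5, 8, 10, 6, 14], .l [11, 19, 11, 2, 18, 2, 13, 7, 1, 10, 7], .l [11, 13, 9], .l [11, 13, 9], .l [10, 22, 12, 18, 17, 2, 16, 3], .l [3, 2, 13, 1, 16, 11, 13, 12, 3, 7, 10, 3], .l [3, 2, 7, 13, 1, 14, 12, 9, 3], .l [7, 8, 5, 17, 8, 17, 8, 2, 13, 1], .y [12, 14], .l [5, 12, 15, 11, 7, 9, 12, 9, 1], .l [3, 2, 7, 13, 1, 14, 12, 9, 3], .l [5, 12, 15, 11, 7, 9, 12, 9, 1], .l [5, 12, 15, 11, 7, 9, 12, 9, 1], .l [5, 12, 17, 13, 7, 9, 14, 11, 1], .l [9, 15, 9, 2, 18, 6, 13, 9, 5, 10, 5], .l [5, 12, 17, 13, 7, 9, 14, 11, 1], .l [5, 12, 19, 15, 7, 9, 16, 13, 1], .l [9, 17, 11, 2, 18, 4, 13, 9, 3, 10, 5], .l [5, 12, 19, 15, 7, 9, 16, 13, 1], .l [5, 12, 21, 17,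 7, 9, 18, 15, 1], .l [0, 9, 17, 21, 15, 9, 6, 10], .l [5, 12, 21, 17, 7, 9, 18, 15, 1]]),
([p 2 1, s 7 0, g, s 1 0, g, p 3 0, g, p 0 2, p 5 3, s 6 4, g, p 0 5, s 0 0, g, s 4 0, g, s 0 6, g, s 0 7, g], .hi 12, [.l [16, 4, 5, 3, 10, 13, 7, 9, 7, 10], .l [5, 4, 8, 3, 14, 4, 5, 3, 6, 10, 6, 9], .l [16, 4, 5, 3, 10, 13, 7, 9, 7, 10], .l [16, 4, 5, 3, 8, 13, 9, 11, 9, 10], .l [16, 4, 17, 12, 0, 14, 8, 1, 2, 12, 4, 2, 7], .l [16, 4, 5, 3, 8, 13, 9, 11, 9, 10], .l [16, 4, 5, 3, 6, 8, 4, 12], .l [11, 17, 9, 2, 16, 2, 11, 5, 1, 8, 5], .l [16, 4, 5, 3, 6, 8, 4, 12], .l [9, 15, 9, 2, 14, 2, 9, 5, 1, 6, 3], .l [11, 13, 9], .l [10, 20, 10, 16, 15, 2, 14, 3], .l [11, 13, 9], .l [10, 18, 8, 14, 13, 0, 12, 3], .y [12], .l [7, 8, 5, 15,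 6, 15, 8, 2, 11, 1], .l [7, 8, 5, 15, 6, 15, 8, 2, 11, 1], .r 2465 [1, 2, 3, 4, 5, 8, 6, 7] [1, 1, 1, 1, 1, 1, 1, 1, 1], .l [3, 2, 8, 12, 14, 12, 8, 3], .l [19, 1, 8, 16, 17, 10, 7, 3], .l [9, 13, 7, 2, 16, 6, 11, 7, 5, 8, 3], .l [9, 15, 9, 2, 14, 2, 9, 7, 3, 6, 1], .l [3, 2, 8, 14, 16, 12, 8, 3], .l [3, 2, 13, 4, 5, 3, 14, 9, 3, 7, 8, 1], .l [9, 15, 9, 2, 16, 4, 11, 7, 3, 8, 3], .l [0, 9, 15, 17, 13, 9, 6, 10], .l [3, 2, 8, 14, 18, 14, 8, 3], .l [9, 15, 9, 2, 14, 2, 9, 14, 10, 4, 9], .l [0, 9, 15, 19, 15, 9, 6, 10]]),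
([p 2 1, s 7 0, g, s 1 0, g, p 3 0, g, p 0 2, p 5 3, s 6 4, g, p 0 5, g, s 4 0, g, s 0 6, g, s 0 7, g], .top 12, [.l [9, 11, 9], .r 2466 [1, 2, 3, 4, 5, 6, 7] [1, 1, 1, 1, 1, 1, 1, 1], .r 2454 [1, 2, 5, 7] [1, 3, 2, 5, 1], .r 1819 [2, 5] [6, 2, 7]]),
([p 2 1, s 6 0, g, s 1 0, g, p 3 0, g, p 0 2, p 5 3, s 0 4, g, p 0 5, g, s 4 0, g, s 0 6, g], .lo 9, [.l [1, 8, 10, 9, 5], .l [3, 10, 12, 11, 5], .l [3, 10, 12, 11, 5], .l [5, 4, 15, 13, 7, 9, 8, 3], .l [3, 8, 5, 7, 9, 6, 3], .l [5, 10, 12, 11, 3], .l [5, 10, 12, 11, 3], .l [3, 2, 15, 11, 5, 7, 6, 9], .l [5, 8, 7], .l [7, 10, 7], .l [7, 10, 7], .l [3, 2, 15, 9, 3, 5, 4, 9], .l [10, 13, 10, 14, 10, 2, 12, 9, 2, 5], .l [3, 2, 10, 1, 11, 8, 3], .l [7, 8, 5, 8, 12, 3, 10, 2,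 6], .r 2464 [1, 2, 3, 4, 5, 7, 6] [1, 1, 1, 1, 1, 1, 1, 1], .l [9, 14, 8, 2, 10, 7, 1, 8, 10, 4, 2, 3], .l [3, 2, 15, 9, 2, 5, 9, 4, 1, 6, 2, 5], .y [9, 13], .r 2467 [1, 2, 3, 4, 5, 7, 6] [1, 1, 1, 1, 1, 1, 1, 1], .l [7, 8, 5, 12, 3, 12, 8, 2, 8], .l [3, 2, 15, 9, 2, 5, 9, 4, 1, 6, 2, 5], .l [3, 2, 13, 15, 9, 11, 10, 3], .l [3, 2, 13, 15, 9, 11, 10, 3], .l [3, 2, 13, 5, 14, 10, 12, 1, 8, 3]]),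
([p 2 1, s 5 0, g, s 1 0, g, s 0 0, p 0 2, p 4 0, s 0 3, g, p 0 4, g, s 3 0, g, s 0 5, g], .hi 7, [.r 2080 [1, 2, 6, 4] [1, 1, 2, 2, 5], .l [15, 7, 12, 10, 3, 7, 11, 11, 8, 1], .l [9, 5], .r 2079 [1, 2, 6, 4] [1, 1, 2, 2, 5], .r 2468 [1, 2, 6, 3, 4, 5] [1, 1, 2, 1, 1, 1, 1], .l [9, 3], .r 2079 [1, 2, 6, 4] [1, 1, 0, 2, 5], .r 2461 [1, 2, 6, 3, 4, 5] [1, 1, 1, 1, 1, 1], .c, .l [3, 2, 9, 2, 10, 7, 2], .l [7, 9], .l [10, 2], .y [7, 10], .l [12, 4, 12, 14, 11, 12, 7, 1], .l [7, 11], .l [12, 4], .r 1416 [1, 2, 6, 3, 4] [2, 2, 1, 1, 1, 3], .l [7, 13], .l [14, 6], .l [14, 6, 3, 9, 10, 5], .l [14, 12, 15, 9, 3, 6, 7, 1], .l [7, 15], .l [16, 8]]),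
([p 3 1, s 6 2, g, s 1 0, g, p 0 3, p 5 0, s 0 4, g, p 4 0, g, p 0 5, g, s 2 0, g, s 0 6, g], .hi 6, [.l [8, 4, 14, 7, 11, 1, 10, 1], .l [15, 13, 14, 8, 12, 11, 1, 10, 6, 10, 8, 1], .l [8, 4], .l [3, 2, 9, 12, 9, 3, 11, 5, 2, 7], .l [15, 13, 14, 8, 10, 9, 1, 8, 4, 10, 8, 5], .l [8, 2], .l [13, 11, 12, 8, 8, 7, 1, 6, 2, 8, 6, 3], .c, .l [9, 2, 9], .l [6, 8], .l [9, 2], .l [11, 4, 1], .l [6, 10], .l [11, 4], .y [6, 11], .l [13, 6, 1], .l [6, 12], .l [13, 6], .l [15, 8, 1], .l [6, 14], .l [15, 8], .l [15, 8, 1], .l [17, 10, 1], .l [6, 16], .l [17, 10]]),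
([p 3 1, s 6 2, g, s 1 0, g, p 0 3, p 5 0, s 0 4, g, p 4 0, g, p 0 5, g, s 0 6, g, s 2 0, g], .hi 6, [.l [8, 4, 14, 7, 11, 1, 10, 1], .l [15, 13, 14, 8, 12, 11, 1, 10, 6, 10, 8, 1], .l [8, 4], .l [3, 2, 9, 12, 9, 3, 11, 5, 2, 7], .l [15, 13, 14, 8, 10, 9, 1, 8, 4, 10, 8, 5], .l [8, 2], .l [13, 11, 12, 8, 8, 7, 1, 6, 2, 8, 6, 3], .c, .l [9, 2, 9], .l [6, 8], .l [9, 2], .l [11, 4, 1], .l [6, 10], .l [11, 4], .y [6, 11], .l [13, 6, 1], .l [6, 12], .l [13, 6], .l [13, 6, 1], .l [15, 8, 1], .l [6, 14], .l [15, 8], .l [17, 10, 1], .l [6, 16], .l [17, 10]]),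
([p 2 1, s 5 0, g, s 1 0, g, p 0 2, p 4 0, s 0 3, g, p 3 0, g, p 0 4, g, s 0 5, g], .hi 1, [.r 1053 [1, 6, 2] [1, 1, 1, 9], .l [2, 7, 4, 4, 1], .r 578 [1, 6, 2] [1, 1, 1, 9], .l [3, 2, 13, 5, 1, 8, 10, 1, 6, 1], .l [3, 2, 3], .r 520 [1, 6, 2] [1, 1, 1, 9], .l [3, 2, 3], .l [1, 6, 6, 7, 9, 7, 3], .l [1, 8, 12, 9, 3], .l [0, 5, 4, 7, 11, 8, 1], .l [3, 9, 6, 7, 11, 6, 1], .l [1, 10, 12, 7, 3], .l [0, 5, 4, 9, 11, 6, 1], .l [3, 11, 8, 9, 11, 4, 1], .l [0, 5, 4, 9, 9, 4, 1], .r 2470 [1, 6, 2, 3, 4, 5] [1, 1, 1, 1, 1, 1, 1], .l [3, 2, 11], .r 852 [1, 6, 2] [1, 1, 7, 3], .y [1, 13], .r 2471 [1, 6, 2, 3, 4, 5] [1, 1, 1, 1, 1, 1, 1], .l [3, 2, 13], .r 852 [1, 6, 2] [1, 1, 9, 1]]),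
([p 2 1, s 5 0, g, s 1 0, g, p 0 2, p 4 0, g, s 0 3, g, p 0 4, g, p 3 0, g, s 0 5, g], .hi 1, [.l [16, 14, 8, 10, 5, 11, 8, 10, 6, 7], .l [2, 7, 4, 4, 1], .r 578 [1, 6, 2] [1, 1, 1, 10], .l [1, 15, 10, 13, 1, 7, 3, 5, 6, 1], .l [3, 2, 3], .l [5, 3, 9, 11, 3, 4, 10, 8, 4, 1], .l [3, 2, 3], .l [1, 7, 11, 9, 3], .l [0, 5, 4, 6, 10, 8, 1], .l [3, 8, 5, 6, 10, 6, 1], .l [1, 7, 9, 7, 3], .l [1, 9, 11, 7, 3], .l [0, 5, 4, 8, 10, 6, 1], .l [3, 10, 7, 8, 10, 4, 1], .l [0, 5, 4, 8, 8, 4, 1], .l [8, 13, 8, 2, 12, 6, 10, 1, 6, 3], .l [3, 2, 10], .l [12, 10, 6, 11, 6, 4, 10, 8, 4, 1], .l [14, 12, 6, 8, 3, 9, 10, 3, 4, 1], .l [3, 2, 12], .l [14, 12, 6, 8, 3, 9, 10, 3, 4, 1], .y [1, 14], .l [14, 12, 6, 8, 3, 9, 10, 3, 4, 1], .l [3,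 2, 14], .r 852 [1, 6, 2] [1, 1, 10, 1]]),
([p 3 1, s 6 2, g, s 1 0, g, p 0 3, p 5 0, s 4 0, g, m 0 4, g, p 0 5, g, s 0 6, g, s 2 0, g], .hi 6, [.l [8, 4, 14, 7, 11, 1, 10, 1], .l [15, 13, 14, 8, 12, 11, 1, 10, 6, 10, 8, 1], .l [8, 4], .l [3, 2, 9, 12, 9, 3, 11, 5, 2, 7], .l [15, 13, 14, 8, 10, 9, 1, 8, 4, 10, 8, 5], .l [8, 2], .l [13, 11, 12, 8, 8, 7, 1, 6, 2, 8, 6, 3], .l [9, 2, 9], .l [6, 8], .l [9, 2], .l [9, 2], .l [11, 4, 1], .l [6, 10], .l [11, 4], .y [6, 11], .l [13, 6, 1], .l [6, 12], .l [13, 6], .l [13, 6, 1], .l [15, 8, 1], .l [6, 14], .l [15, 8], .l [17, 10, 1], .l [6, 16], .l [17, 10]]),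
([p 3 1, s 6 2, g, s 1 0, g, p 0 3, p 5 0, s 0 4, g, p 0 5, g, m 4 0, g, s 0 6, g, s 2 0, g], .lo 7, [.l [3, 8, 10, 9, 3], .l [3, 8, 10, 9, 3], .l [5, 4, 13, 11, 5, 7, 6, 1], .l [3, 6, 3, 5, 7, 4, 1], .l [5, 8, 10, 9, 1], .l [5, 8, 10, 9, 1], .l [3, 2, 13, 9, 3, 5, 4, 7], .c, .l [6, 13, 5, 9, 2, 11, 6, 4, 6, 3], .l [3, 2, 8, 1, 9, 6, 1], .r 2474 [1, 2, 3, 7, 5, 6] [1, 1, 1, 1, 3, 1, 1], .l [6, 11, 3, 7, 2, 11, 6, 2, 6, 1], .l [6, 11, 3, 7, 2, 11, 6, 2, 6, 1], .l [15, 13, 5, 7, 3, 10, 11, 3, 4, 1], .y [7, 11], .l [6, 11, 3, 7, 2, 11, 6, 2, 6, 1], .l [6, 11, 3, 7, 2, 11, 6, 2, 6, 1], .l [15, 13, 5, 9, 5, 10, 11, 3, 6, 3], .l [3, 2, 11, 13, 7, 9, 8, 1], .l [3, 2, 11, 13, 7, 9, 8, 1], .l [6, 11, 3, 7, 2, 9, 4, 2, 4, 7],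 .l [3, 2, 11, 13, 7, 9, 8, 1], .l [3, 2, 11, 15, 9, 11, 10, 1], .l [3, 2, 11, 15, 9, 11, 10, 1], .l [6, 11, 3, 7, 2, 9, 4, 2, 4, 9]]),
([p 3 1, s 6 2, g, s 1 0, g, p 0 3, p 5 0, s 4 0, g, m 0 4, g, p 0 5, g, s 2 0, g, s 0 6, g], .hi 6, [.l [8, 4, 14, 7, 11, 1, 10, 1], .l [15, 13, 14, 8, 12, 11, 1, 10, 6, 10, 8, 1], .l [8, 4], .l [3, 2, 9, 12, 9, 3, 11, 5, 2, 7], .l [15, 13, 14, 8, 10, 9, 1, 8, 4, 10, 8, 5], .l [8, 2], .l [13, 11, 12, 8, 8, 7, 1, 6, 2, 8, 6, 3], .l [9, 2, 9], .l [6, 8], .l [9, 2], .l [9, 2], .l [11, 4, 1], .l [6, 10], .l [11, 4], .y [6, 11], .l [13, 6, 1], .l [6, 12], .l [13, 6], .l [15, 8, 1], .l [6, 14], .l [15, 8], .l [15, 8, 1], .l [17, 10, 1], .l [6, 16], .l [17, 10]]),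
([p 3 1, s 6 2, g, s 1 0, g, p 0 3, p 5 0, s 0 4, g, p 0 5, g, m 4 0, g, s 2 0, g, s 0 6, g], .lo 7, [.l [3, 8, 10, 9, 3], .l [3, 8, 10, 9, 3], .l [5, 4, 15, 13, 5, 7, 6, 1], .l [3, 6, 3, 5, 7, 4, 1], .l [5, 8, 10, 9, 1], .l [5, 8, 10, 9, 1], .l [3, 2, 15, 11, 3, 5, 4, 9], .c, .l [6, 13, 5, 9, 2, 13, 8, 4, 8, 5], .l [3, 2, 8, 1, 9, 6, 1], .r 2476 [1, 2, 3, 7, 5, 6] [1, 1, 1, 1, 3, 1, 1], .l [6, 11, 3, 7, 2, 13, 8, 2, 8, 3], .l [6, 11, 3, 7, 2, 13, 8, 2, 8, 3], .l [15, 13, 5, 7, 3, 10, 11, 3, 4, 1], .y [7, 11], .l [6, 11, 3, 7, 2, 13, 8, 2, 8, 3], .l [6, 11, 3, 7, 2, 13, 8, 2, 8, 3], .l [15, 13, 5, 9, 5, 10, 11, 3, 6, 3], .l [3, 2, 11, 11, 5, 7, 6, 1], .l [3, 2, 11, 13, 7, 9, 8, 1], .l [3, 2, 11, 13, 7, 9, 8, 1], .l [6,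 11, 3, 7, 2, 9, 4, 2, 4, 7], .l [3, 2, 13, 15, 7, 9, 8, 1], .l [3, 2, 13, 15, 7, 9, 8, 1], .l [6, 11, 3, 7, 2, 11, 6, 2, 6, 9]]),
([p 2 1, s 5 0, g, s 1 0, g, p 0 2, p 4 0, s 0 3, g, p 0 4, g, m 3 0, g, s 0 5, g], .hi 1, [.r 1053 [1, 6, 2] [1, 1, 1, 9], .l [2, 7, 4, 4, 1], .r 578 [1, 6, 2] [1, 1, 1, 9], .l [13, 3, 9, 10, 7, 9, 7, 2], .l [3, 2, 3], .l [13, 3, 9, 10, 7, 9, 7, 2], .l [3, 2, 3], .l [1, 6, 8, 7, 3], .l [1, 8, 10, 7, 3], .l [0, 5, 4, 7, 9, 6, 1], .l [3, 9, 6, 7, 9, 4, 1], .l [0, 5, 4, 7, 7, 4, 1], .l [3, 2, 9, 11, 7, 9, 8, 1], .l [3, 2, 9], .r 852 [1, 6, 2] [1, 1, 5, 5], .r 2477 [1, 6, 2, 3, 4, 5] [1, 1, 1, 1, 1, 1, 1], .l [3, 2, 11], .r 852 [1, 6, 2] [1, 1, 7, 3], .y [1, 13], .r 2475 [1, 6, 2, 3, 4, 5] [1,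 1, 1, 1, 1, 1, 1], .l [3, 2, 13], .r 852 [1, 6, 2] [1, 1, 9, 1]]),
([p 2 1, s 4 0, g, s 1 0, g, s 0 0, p 0 2, p 3 0, s 0 0, g, p 0 3, g, s 0 4, g], .hi 8, [.l [3, 9, 11, 10, 4], .l [5, 4, 12, 10, 6, 8, 7, 2], .l [3, 9, 11, 10, 4], .l [5, 9, 11, 10, 2], .l [3, 2, 12, 8, 4, 6, 5, 6], .l [5, 9, 11, 10, 2], .l [5, 7, 9, 8, 0], .l [3, 2, 10, 5, 1, 3, 2, 5], .y [8], .r 2062 [1, 2, 5, 3, 4] [1, 2, 1, 1, 1, 1], .r 2472 [1, 2, 5, 3, 4] [1, 2, 1, 1, 1, 1], .l [3, 2, 9, 1, 10, 7, 2], .r 1964 [1, 2, 5, 3] [1, 2, 0, 1, 3], .r 2469 [1, 2, 5, 3, 4] [1, 1, 1, 1, 1, 1], .r 2473 [1, 2, 5, 3, 4] [1, 2, 0, 1, 1, 1, 1], .r 2478 [1, 2, 5, 3, 4] [1, 2, 1, 1, 1, 1], .l [3, 2, 10, 10, 6, 8, 7, 2], .l [3, 2, 10, 12, 8, 10, 9, 2], .r 2063 [1,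 2, 5, 3, 4] [1, 2, 0, 1, 1, 1, 1], .l [3, 2, 10, 12, 8, 10, 9, 2]]),
([p 3 1, s 7 2, g, s 1 0, g, p 4 3, p 5 4, p 6 0, g, p 0 5, g, p 0 6, g, s 2 0, g, s 0 7, g], .hi 7, [.l [9, 5, 8, 4, 14, 10, 1, 9, 1, 7, 8, 3], .l [5, 4, 7, 10, 9, 1, 6, 2, 6, 1, 6, 2, 7], .l [9, 5], .l [3, 2, 8, 3, 1, 4, 10, 8, 1], .l [0, 2, 8, 9, 7, 8, 5, 7, 5, 10, 5, 6, 3], .l [9, 3], .l [3, 2, 8, 1, 9, 6, 1], .l [7, 8], .l [9, 1], .l [7, 8], .l [5, 6, 5, 10, 3, 10, 6, 0, 6], .l [7, 10], .l [11, 3], .y [7, 11], .l [3, 2, 6, 11, 9, 1, 7, 8, 1], .l [7, 12], .l [13, 5], .l [3, 2, 6, 13, 11, 1, 7, 10, 3], .l [7, 14], .l [15, 7], .l [3, 2, 6, 13, 11, 1, 7, 10, 3], .l [3, 2, 6, 15, 13, 1, 7, 12, 5], .l [7, 16], .l [17, 9]]),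
([p 3 1, s 6 2, g, s 1 0, g, p 4 3, p 5 4, p 0 0, g, p 0 5, g, s 2 0, g, s 0 6, g], .lo 7, [.l [3, 8, 10, 9, 3], .l [3, 8], .l [1, 14, 11, 5, 7, 6, 9], .l [0, 2, 2, 4, 6, 5, 2], .l [5, 8, 10, 9, 1], .l [5, 8], .l [1, 14, 9, 3, 5, 4, 9], .y [7], .l [13, 11, 12, 8, 8, 7, 1, 6, 2, 8, 6, 3], .l [0, 7, 11, 9, 4, 6, 8, 5], .l [6, 11, 10, 10, 9, 9, 4, 1], .l [13, 11, 12, 8, 8, 7, 3, 10, 4, 1], .r 2480 [1, 2, 3, 4, 5, 7, 6] [1, 1, 1, 1, 1, 1, 1], .l [6, 9, 8, 8, 7, 7, 2, 6], .l [1, 10, 10, 6, 8, 7, 3], .l [3, 2, 9, 11, 7, 9, 8, 1], .l [1, 10, 12, 8, 10, 9, 3], .l [6, 9, 8, 8, 7, 7, 2, 8], .l [3, 2, 11, 13, 7, 9, 8, 1], .l [1, 12, 14, 8, 10, 9, 3], .l [6, 9, 8, 8, 7, 7, 2, 10]]),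
([p 3 1, s 7 2, g, s 1 0, g, p 4 3, p 5 4, p 6 0, g, p 0 5, g, p 0 6, g, s 0 7, g, s 2 0, g], .hi 7, [.l [9, 5, 8, 4, 14, 10, 1, 9, 1, 7, 8, 3], .l [5, 4, 7, 10, 9, 1, 6, 2, 6, 1, 6, 2, 5], .l [9, 5], .l [3, 2, 8, 3, 1, 4, 10, 8, 1], .l [0, 2, 8, 9, 7, 8, 5, 7, 5, 8, 3, 4, 1], .l [9, 3], .l [3, 2, 8, 1, 9, 6, 1], .l [7, 8], .l [9, 1], .l [7, 8], .l [5, 6, 5, 10, 3, 10, 6, 0, 6], .l [7, 10], .l [11, 3], .y [7, 11], .l [3, 2, 6, 11, 9, 1, 7, 8, 1], .l [7, 12], .l [13, 5], .l [3, 2, 13, 1, 11, 5, 9, 7, 1, 5, 6, 1], .l [3, 2, 6, 13, 11, 1, 7, 10, 3], .l [7, 14], .l [15, 7], .l [3, 2, 6, 15, 13, 1, 7, 12, 5], .l [7, 16], .l [17, 9]]),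
([p 3 1, s 6 2, g, s 1 0, g, p 4 3, p 5 4, p 0 0, g, p 0 5, g, s 0 6, g, s 2 0, g], .lo 7, [.l [3, 8, 10, 9, 3], .l [3, 8], .l [1, 12, 9, 5, 7, 6, 7], .l [0, 2, 2, 4, 6, 5, 2], .l [5, 8, 10, 9, 1], .l [5, 8], .l [1, 12, 7, 3, 5, 4, 7], .y [7], .l [13, 11, 12, 8, 8, 7, 1, 6, 2, 8, 6, 3], .l [0, 7, 11, 9, 4, 6, 8, 5], .l [6, 11, 10, 10, 9, 9, 4, 1], .l [13, 11, 12, 8, 8, 7, 3, 10, 4, 1], .r 2482 [1, 2, 3, 4, 5, 7, 6] [1, 1, 1, 1, 1, 1, 1], .l [6, 9, 8, 8, 7, 7, 2, 6], .l [3, 2, 9, 11, 7, 9, 8, 1], .l [1, 10, 12, 8, 10, 9, 3], .l [6, 9, 8, 8, 7, 7, 2, 8], .l [1, 12, 12, 6, 8, 7, 3], .l [3, 2, 9, 13, 9, 11, 10, 1], .l [1, 10, 14, 10, 12, 11, 3], .l [6, 9, 8, 8, 7, 7, 2, 10]]),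
([p 3 1, s 0 2, g, s 1 0, g, p 4 3, p 5 4, p 0 0, g, p 0 5, g, s 2 0, g], .lo 1, [.r 1018 [1, 6, 3] [1, 1, 1, 7], .r 1556 [1, 6, 3] [1, 1, 1, 7], .l [2, 7, 4, 4, 1], .l [2, 5, 2, 2, 1], .r 2175 [1, 6, 3] [1, 1, 1, 7], .r 2050 [1, 6, 3] [1, 1, 1, 7], .l [3, 2, 3], .l [3, 7, 4, 5, 7, 4, 1], .l [1, 8, 10, 7, 3], .l [3, 9, 6, 7, 9, 4, 1], .l [0, 5, 4, 7, 9, 6, 1], .r 2483 [1, 2, 3, 4, 5, 6] [1, 1, 1, 1, 1, 1], .r 2194 [1, 3, 5, 6] [1, 1, 2, 1, 3], .l [3, 2, 9], .y [1, 11], .r 2481 [1, 2, 3, 4, 5, 6] [1, 1, 1, 1, 1, 1], .r 2194 [1, 3, 5, 6] [1, 1, 2, 3, 1], .l [3, 2, 11]]),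
([p 2 1, s 0 0, g, s 1 0, g, p 3 2, p 4 3, p 0 0, g, p 0 4, g], .hi 1, [.y [1], .r 1053 [1, 5, 2] [1, 1, 1, 5], .l [2, 7, 4, 4, 1], .r 578 [1, 5, 2] [1, 1, 1, 5], .r 989 [1, 5, 2] [1, 1, 1, 5], .l [3, 2, 3], .r 520 [1, 5, 2] [1, 1, 1, 5], .l [0, 5, 4, 5, 7, 6, 1], .l [1, 8, 10, 7, 3], .l [0, 5, 4, 7, 9, 6, 1], .l [3, 9, 6, 7, 9, 4, 1], .l [0, 5, 4, 7, 7, 4, 1], .r 2484 [1, 5, 2, 3, 4] [1, 1, 1, 1, 1], .l [3, 2, 9], .r 852 [1, 5, 2] [1, 1, 5, 1]]),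
([p 3 1, s 7 2, g, s 1 0, g, p 4 0, g, p 0 3, p 5 4, p 6 0, g, p 0 5, g, p 0 6, g, s 0 7, g, s 2 0, g], .hi 9, [.l [11, 7, 10, 4, 16, 12, 3, 11, 1, 9, 10, 3], .l [5, 4, 15, 7, 12, 9, 5, 8, 2, 8, 3, 1, 3], .l [11, 7], .l [3, 2, 10, 5, 3, 6, 12, 10, 1], .l [0, 2, 10, 11, 9, 10, 5, 9, 7, 10, 5, 6, 1], .l [11, 5], .l [3, 2, 10, 3, 5, 2, 9, 6, 1], .l [0, 2, 10, 11, 9, 10, 7, 9, 5, 10, 3, 6, 3], .l [11, 3], .l [0, 2, 8, 9, 7, 8, 7, 7, 3, 8, 3, 4, 1], .l [3, 2, 10, 1, 11, 8, 3], .l [9, 10], .l [11, 1], .l [9, 10], .l [7, 8, 5, 12, 3, 12, 8, 2, 8], .l [9, 12], .l [13, 3], .y [9, 13], .l [3, 2, 8, 13, 11, 3, 9, 10, 1], .l [9, 14], .l [15, 5], .l [3, 2, 13, 7, 12, 9, 5, 8, 2, 8, 3, 1, 3], .l [3, 2, 8, 15, 13, 3, 9, 12, 3], .l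 [9, 16], .l [17, 7], .l [3, 2, 8, 17, 15, 3, 9, 14, 5], .l [9, 18], .l [19, 9]]),
([p 3 1, s 6 2, g, s 1 0, g, p 4 0, g, p 0 3, p 5 4, p 0 0, g, p 0 5, g, s 0 6, g, s 2 0, g], .lo 9, [.l [3, 10, 12, 11, 5], .l [3, 10], .l [1, 14, 11, 7, 9, 8, 9], .l [0, 2, 2, 6, 8, 7, 4], .l [5, 10, 12, 11, 3], .l [5, 10], .l [1, 14, 9, 5, 7, 6, 9], .l [5, 8], .l [7, 10, 7], .l [7, 10], .l [1, 14, 7, 3, 5, 4, 9], .y [9], .l [15, 13, 14, 8, 10, 9, 1, 8, 4, 10, 8, 5], .l [0, 9, 13, 11, 6, 8, 10, 5], .l [8, 13, 12, 12, 9, 11, 6, 1], .l [15, 13, 14, 8, 10, 9, 3, 12, 6, 3], .r 2486 [1, 2, 3, 4, 5, 7, 6] [1, 1, 1, 1, 1, 1, 1, 1], .l [8, 11, 10, 10, 7, 9, 4, 8], .l [3, 2, 11, 13, 9, 11, 10, 3], .l [1, 12, 14, 10, 12, 11, 5], .l [8, 11, 10,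 10, 7, 9, 4, 10], .l [1, 14, 14, 8, 10, 9, 5], .l [3, 2, 11, 15, 11, 13, 12, 3], .l [1, 12, 16, 12, 14, 13, 5], .l [8, 11, 10, 10, 7, 9, 4, 12]]),
([p 3 1, s 7 2, g, s 1 0, g, p 4 0, g, p 0 3, p 5 4, p 6 0, g, p 0 5, g, p 0 6, g, s 2 0, g, s 0 7, g], .hi 9, [.l [11, 7, 10, 4, 16, 12, 3, 11, 1, 9, 10, 3], .l [5, 4, 17, 9, 14, 11, 7, 10, 2, 10, 5, 1, 5], .l [11, 7], .l [3, 2, 10, 5, 3, 6, 12, 10, 1], .l [0, 2, 10, 11, 9, 10, 5, 9, 7, 12, 7, 8, 3], .l [11, 5], .l [3, 2, 10, 3, 5, 2, 9, 6, 1], .l [0, 2, 10, 11, 9, 10, 7, 9, 5, 12, 5, 8, 5], .l [11, 3], .l [0, 2, 8, 9, 7, 8, 7, 7, 3, 10, 5, 6, 3], .l [3, 2, 10, 1, 11, 8, 3], .l [9, 10], .l [11, 1], .l [9, 10], .l [7, 8, 5, 12, 3, 12, 8, 2, 8], .l [9, 12], .l [13, 3], .y [9,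 13], .l [3, 2, 8, 13, 11, 3, 9, 10, 1], .l [9, 14], .l [15, 5], .l [3, 2, 8, 15, 13, 3, 9, 12, 3], .l [9, 16], .l [17, 7], .l [3, 2, 15, 9, 14, 11, 7, 10, 2, 10, 5, 1, 5], .l [3, 2, 8, 17, 15, 3, 9, 14, 5], .l [9, 18], .l [19, 9]]),
([p 3 1, s 6 2, g, s 1 0, g, p 4 0, g, p 0 3, p 5 4, p 0 0, g, p 0 5, g, s 2 0, g, s 0 6, g], .lo 9, [.l [3, 10, 12, 11, 5], .l [3, 10], .l [1, 16, 13, 7, 9, 8, 11], .l [0, 2, 2, 6, 8, 7, 4], .l [5, 10, 12, 11, 3], .l [5, 10], .l [1, 16, 11, 5, 7, 6, 11], .l [5, 8], .l [7, 10, 7], .l [7, 10], .l [1, 16, 9, 3, 5, 4, 11], .y [9], .l [15, 13, 14, 8, 10, 9, 1, 8, 4, 10, 8, 5], .l [0, 9, 13, 11, 6, 8, 10, 5], .l [8, 13, 12, 12, 9, 11, 6, 1], .l [15, 13, 14, 8, 10, 9, 3, 12, 6, 3], .r 2488 [1,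 2, 3, 4, 5, 7, 6] [1, 1, 1, 1, 1, 1, 1, 1], .l [8, 11, 10, 10, 7, 9, 4, 8], .l [1, 12, 12, 8, 10, 9, 5], .l [3, 2, 11, 13, 9, 11, 10, 3], .l [1, 12, 14, 10, 12, 11, 5], .l [8, 11, 10, 10, 7, 9, 4, 10], .l [3, 2, 13, 15, 9, 11, 10, 3], .l [1, 14, 16, 10, 12, 11, 5], .l [8, 11, 10, 10, 7, 9, 4, 12]]),
([p 3 1, s 0 2, g, s 1 0, g, p 4 0, g, p 0 3, p 5 4, p 0 0, g, p 0 5, g, s 2 0, g], .lo 1, [.r 1018 [1, 6, 3] [1, 1, 3, 7], .r 1556 [1, 6, 3] [1, 1, 3, 7], .l [2, 9, 6, 6, 3], .l [2, 7, 4, 4, 3], .r 2175 [1, 6, 3] [1, 1, 3, 7], .r 2050 [1, 6, 3] [1, 1, 3, 7], .l [3, 2, 3], .l [5, 8, 7, 7, 3, 4, 8, 6, 1], .r 2175 [1, 6, 3] [1, 3, 1, 7], .l [7, 10, 7, 9, 5, 6, 10, 6, 1], .l [3, 2, 5], .l [3, 9, 6, 7, 9, 6, 3], .l [1, 10, 12,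 9, 5], .l [3, 11, 8, 9, 11, 6, 3], .l [0, 7, 6, 9, 11, 8, 3], .r 2487 [1, 2, 3, 4, 5, 6] [1, 1, 1, 1, 1, 1, 1], .r 2194 [1, 3, 5, 6] [1, 3, 2, 1, 3], .l [3, 2, 11], .y [1, 13], .r 2489 [1, 2, 3, 4, 5, 6] [1, 1, 1, 1, 1, 1, 1], .r 2194 [1, 3, 5, 6] [1, 3, 2, 3, 1], .l [3, 2, 13]]),
([p 2 1, s 0 0, g, s 1 0, g, p 3 0, g, p 0 2, p 4 3, p 0 0, g, p 0 4, g], .hi 1, [.y [1], .r 1053 [1, 5, 2] [1, 1, 3, 5], .l [2, 9, 6, 6, 3], .r 578 [1, 5, 2] [1, 1, 3, 5], .r 989 [1, 5, 2] [1, 1, 3, 5], .l [3, 2, 3], .r 520 [1, 5, 2] [1, 1, 3, 5], .r 989 [1, 5, 2] [1, 3, 1, 5], .l [3, 2, 5], .l [7, 10, 7, 9, 5, 6, 10, 6, 1], .l [3, 2, 5], .l [0, 7, 6, 7, 9, 8, 3], .l [1, 10, 12, 9, 5], .l [0, 7, 6, 9, 11, 8, 3], .l [3, 11, 8, 9, 11, 6, 3],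 .l [0, 7, 6, 9, 9, 6, 3], .r 2490 [1, 5, 2, 3, 4] [1, 1, 1, 1, 1, 1], .l [3, 2, 11], .r 852 [1, 5, 2] [1, 3, 5, 1]]),
([p 2 1, s 0 0, g, s 1 0, g, p 0 2, p 3 0, p 0 0, g, p 0 3, g], .hi 6, [.l [3, 6, 3, 4, 7, 5, 1], .r 2080 [1, 2, 4, 3] [1, 1, 1, 2, 1], .r 2440 [1, 2, 4, 3] [1, 1, 1, 2, 1], .l [8, 4], .r 2079 [1, 2, 4, 3] [1, 1, 1, 2, 1], .r 2491 [1, 2, 4, 3] [1, 1, 1, 1, 1], .l [8, 2], .r 2485 [1, 2, 4, 3] [1, 1, 1, 1], .c, .l [3, 2, 8, 2, 9, 6, 1], .l [6, 8], .l [9, 2], .y [6, 9], .r 1356 [1, 2, 4, 3] [2, 1, 1, 1, 1], .l [6, 10], .l [11, 4]]),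
([p 1 0, g, s 2 0, g, p 0 1, p 0 2, g], .lo 5, [.l [0, 4], .l [2, 6, 3], .l [2, 6], .l [1, 6, 4, 5], .y [2, 5], .l [4, 6, 1], .l [4, 6], .l [3, 6, 2, 5], .l [5, 2, 4, 2, 3], .r 2229 [1, 2, 3] [1, 1, 1, 1], .l [5, 2, 4, 2, 3]]),
([p 3 1, s 5 2, g, s 1 0, g, p 0 3, p 0 0, m 0 4, g, s 4 0, g, s 0 5, g, s 2 0, g], .hi 6, [.l [8, 4, 12, 5, 9, 1, 8, 1], .l [13, 11, 12, 6, 10, 9, 1, 10, 6, 1], .l [8, 4], .r 2493 [3, 6] [4, 1, 8], .l [13, 11, 12, 6, 8, 7, 1, 10, 6, 3], .l [8, 2], .l [11, 9, 10, 6, 6, 5, 1, 8, 4, 1], .y [6], .l [7, 0], .l [9, 2, 9], .l [6, 8], .l [9, 2], .l [11, 4, 1], .l [6, 10], .l [11, 4], .l [11, 4, 1], .l [13, 6, 1], .l [6, 12], .l [13, 6], .l [15, 8, 1], .l [6, 14], .l [15, 8]]),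
([p 3 1, s 5 2, g, s 1 0, g, p 0 3, p 0 0, m 0 4, g, s 4 0, g, s 2 0, g, s 0 5, g], .hi 6, [.l [8, 4, 12, 5, 9, 1, 8, 1], .l [13, 11, 12, 6, 10, 9, 1, 10, 6, 1], .l [8, 4], .r 2493 [3, 6] [4, 1, 8], .l [13, 11, 12, 6, 8, 7, 1, 10, 6, 3], .l [8, 2], .l [11, 9, 10, 6, 6, 5, 1, 8, 4, 1], .y [6], .l [7, 0], .l [9, 2, 9], .l [6, 8], .l [9, 2], .l [11, 4, 1], .l [6, 10], .l [11, 4], .l [13, 6, 1], .l [6, 12], .l [13, 6], .l [13, 6, 1], .l [15, 8, 1], .l [6, 14], .l [15, 8]])]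

def d09_3 : List (List Item × Qry × List Rf) := [
([p 3 1, s 0 2, g, s 1 0, g, p 0 3, p 5 0, m 0 4, g, p 0 5, g, s 4 0, g, s 2 0, g], .lo 1, [.r 1018 [1, 6, 3] [1, 1, 1, 9], .r 1556 [1, 6, 3] [1, 1, 1, 9], .l [2, 7, 4, 4, 1], .l [2, 5, 2, 2, 1], .l [1, 14, 9, 12, 1, 7, 3, 5, 6, 1], .r 2050 [1, 6, 3] [1, 1, 1, 9], .l [3, 2, 3], .l [3, 6, 3, 4, 7, 5, 1], .l [1, 8, 10, 7, 3], .l [3, 9, 6, 7, 9, 4, 1], .l [0, 5, 4, 7, 9, 6, 1], .l [3, 2, 9, 11, 7, 9, 8, 1], .r 2194 [1, 3, 5, 6] [1, 1, 2, 1, 5], .l [3, 2, 9], .l [1, 10, 10, 6, 8, 7, 3], .r 2494 [1, 2, 3, 4, 6] [1, 1, 3, 1, 1, 1], .r 2194 [1, 3, 5, 6] [1, 1, 2, 3, 3], .l [3, 2, 11], .y [1, 13], .r 2495 [1, 2, 3, 4, 6] [1, 1, 3, 1, 1, 1], .r 2194 [1, 3, 5, 6] [1, 1, 2, 5,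 1], .l [3, 2, 13]]),
([p 2 1, s 0 0, g, s 1 0, g, p 0 2, p 4 0, m 0 3, g, m 3 0, g, p 0 4, g], .hi 6, [.l [1, 7, 11, 9, 3, 6, 7, 4, 1], .l [5, 4, 8, 12, 10, 1, 7, 8, 3], .l [0, 9, 13, 11, 6, 8, 10, 3], .l [8, 4], .l [3, 2, 8, 12, 10, 3, 7, 8, 1], .l [0, 9, 13, 11, 6, 8, 10, 5], .l [8, 2], .l [0, 7, 11, 9, 4, 6, 8, 5], .l [7, 0], .l [0, 8, 13, 10, 4, 7, 9, 6, 1], .l [6, 8], .l [9, 2], .l [3, 2, 6, 12, 10, 1, 5, 8, 1], .l [6, 10], .l [11, 4], .y [6, 11], .l [3, 2, 6, 10, 8, 1, 5, 6, 7], .l [6, 12], .l [13, 6]]),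
([p 3 1, s 0 2, g, s 1 0, g, p 0 3, p 5 0, m 0 4, g, s 4 0, g, p 0 5, g, s 2 0, g], .lo 1, [.r 1018 [1, 6, 3] [1, 1, 1, 9], .r 1556 [1, 6, 3] [1, 1, 1, 9], .l [2, 7, 4, 4, 1], .l [2, 5, 2, 2, 1], .l [3, 2, 13, 5, 1, 8, 10, 1, 6, 1], .r 2050 [1, 6, 3] [1, 1, 1, 9], .l [3, 2, 3], .l [3, 6, 3, 4, 9, 7, 1], .l [1, 8, 12, 9, 3], .l [3, 9, 6, 7, 11, 6, 1], .l [0, 5, 4, 7, 11, 8, 1], .l [1, 8, 8, 6, 8, 7, 3], .l [1, 10, 12, 7, 3], .l [3, 11, 8, 9, 11, 4, 1], .l [0, 5, 4, 9, 11, 6, 1], .r 2494 [1, 2, 3, 4, 6] [1, 1, 1, 3, 1, 1], .r 2194 [1, 3, 5, 6] [1, 1, 4, 1, 3], .l [3, 2, 11], .y [1, 13], .r 2495 [1, 2, 3, 4, 6] [1, 1, 1, 3, 1, 1], .r 2194 [1, 3, 5, 6] [1, 1, 4, 3, 1], .l [3, 2, 13]]),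
([p 4 1, s 0 2, g, s 0 3, g, s 1 0, g, p 5 4, p 7 5, m 3 6, g, p 0 7, g, m 6 0, g, s 2 0, g], .lo 1, [.l [2, 11, 5, 9, 13, 7, 11, 11, 1, 5, 6, 1], .l [3, 1, 10, 5, 3, 6, 11, 9, 3], .l [2, 9, 6, 6, 1], .l [11, 7, 3, 8, 13, 7, 8, 5, 1, 6, 8, 4, 2, 3], .l [5, 9, 3, 10, 3, 6, 3, 8, 4, 4, 1, 7, 1], .l [4, 9, 4, 4, 1], .l [4, 7, 2, 2, 1], .l [6, 11, 7, 5, 2, 2, 6, 10, 8, 3], .l [5, 4, 8, 3, 9, 3, 5, 2, 7, 4, 1, 7, 1], .l [5, 4, 5], .l [1, 10, 12, 9, 5], .l [5, 11, 6, 9, 11, 4, 1], .l [0, 7, 6, 9, 11, 8, 1], .l [1, 12, 14, 10, 12, 11, 5], .l [5, 13, 8, 11, 13, 5, 7, 6, 1], .l [0, 7, 6, 11, 13, 9, 11, 10, 1], .l [0, 7, 6, 11, 11, 7, 9, 8, 1], .l [9, 5, 8, 4, 14, 10, 1, 9, 1, 7, 8, 3], .l [9, 5, 8, 4, 4, 3, 7, 3, 8, 1, 8, 4,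 1], .l [5, 4, 13], .y [1, 15], .l [9, 5, 8, 4, 14, 10, 1, 9, 1, 7, 8, 3], .l [15, 13, 14, 8, 8, 7, 7, 4, 6, 4, 10, 8, 3], .l [5, 4, 15]]),
([p 3 1, s 0 2, g, s 1 0, g, p 4 3, p 6 4, m 0 5, g, p 0 6, g, m 5 0, g, s 2 0, g], .lo 7, [.r 2499 [1, 2, 7, 3, 4, 5, 6] [1, 1, 1, 1, 1, 1, 1], .l [9, 5], .l [5, 4, 7, 10, 9, 1, 6, 2, 6, 1, 6, 2, 5], .l [7, 3, 6, 4, 4, 3, 5, 1, 6, 1, 1, 2, 3], .l [3, 2, 8, 3, 1, 4, 10, 8, 1], .l [9, 3], .l [0, 2, 8, 9, 7, 8, 5, 7, 5, 8, 3, 4, 1], .l [3, 2, 8, 1, 9, 6, 1], .l [9, 1], .l [7, 8], .l [5, 6, 5, 10, 3, 10, 6, 0, 6], .l [11, 3], .l [7, 10], .y [7, 11], .l [3, 2, 6, 11, 9, 1, 7, 8, 1], .l [13, 5], .l [7, 12], .l [3, 2, 6, 11, 9, 1, 7, 8, 1], .l [3, 2, 6, 13, 11, 1, 7, 10, 3], .l [15, 7],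 .l [7, 14]]),
([p 4 1, s 0 2, g, s 0 3, g, s 1 0, g, p 5 0, g, p 0 4, p 7 5, m 3 6, g, p 0 7, g, m 6 0, g, s 2 0, g], .lo 1, [.l [2, 13, 7, 11, 15, 9, 13, 13, 3, 7, 8, 1], .l [3, 1, 12, 7, 5, 8, 13, 11, 3], .l [2, 11, 8, 8, 3], .l [13, 9, 3, 10, 15, 7, 10, 7, 1, 8, 10, 4, 2, 3], .l [5, 11, 5, 12, 3, 8, 5, 10, 4, 6, 3, 9, 1], .l [4, 11, 6, 6, 3], .l [4, 9, 4, 4, 3], .l [6, 13, 9, 7, 4, 4, 8, 12, 10, 3], .l [5, 4, 10, 5, 11, 3, 7, 4, 9, 4, 1, 9, 1], .l [5, 4, 5], .l [7, 10, 9, 9, 3, 6, 10, 6, 1], .l [8, 13, 7, 5, 2, 2, 6, 12, 10, 5], .l [9, 12, 9, 11, 5, 8, 12, 6, 1], .l [5, 4, 7], .l [1, 12, 14, 11, 7], .l [5, 13, 8, 11, 13, 6, 3], .l [0, 9, 8, 11, 13, 10, 3], .l [1, 14, 16, 12, 14, 13, 7], .l [5, 15, 10, 13, 15, 7, 9,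 8, 3], .l [0, 9, 8, 13, 15, 11, 13, 12, 3], .l [0, 9, 8, 13, 13, 9, 11, 10, 3], .l [11, 7, 10, 4, 16, 12, 3, 11, 1, 9, 10, 3], .l [11, 7, 10, 4, 6, 5, 9, 3, 10, 1, 10, 6, 3], .l [5, 4, 15], .y [1, 17], .l [11, 7, 10, 4, 16, 12, 3, 11, 1, 9, 10, 3], .l [17, 15, 16, 8, 10, 9, 9, 6, 8, 6, 12, 10, 5], .l [5, 4, 17]]),
([p 3 1, s 0 2, g, s 1 0, g, p 4 0, g, p 0 3, p 6 4, m 0 5, g, p 0 6, g, m 5 0, g, s 2 0, g], .lo 9, [.r 2501 [1, 2, 7, 3, 4, 5, 6] [1, 1, 1, 1, 1, 1, 1, 1], .l [11, 7], .l [5, 4, 15, 7, 12, 9, 5, 8, 2, 8, 3, 1, 3], .l [9, 5, 8, 4, 6, 5, 7, 1, 8, 1, 1, 2, 5], .l [3, 2, 10, 5, 3, 6, 12, 10, 1], .l [11, 5], .l [0, 2, 10, 11, 9, 10, 5, 9, 7, 10, 5, 6, 1], .l [9, 3], .l [3, 2, 10, 3, 5, 2, 9, 6, 1], .l [11, 3],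 .l [0, 2, 10, 11, 9, 10, 7, 9, 5, 10, 3, 6, 3], .l [3, 2, 10, 1, 11, 8, 3], .l [11, 1], .l [9, 10], .l [7, 8, 5, 12, 3, 12, 8, 2, 8], .l [13, 3], .l [9, 12], .y [9, 13], .l [3, 2, 8, 13, 11, 3, 9, 10, 1], .l [15, 5], .l [9, 14], .l [3, 2, 13, 7, 12, 9, 5, 8, 2, 8, 3, 1, 3], .l [3, 2, 8, 15, 13, 3, 9, 12, 3], .l [17, 7], .l [9, 16]]),
([p 3 1, s 0 2, g, s 1 0, g, p 0 3, p 5 0, m 0 4, g, p 0 5, g, m 4 0, g, s 2 0, g], .hi 6, [.l [3, 6, 3, 4, 7, 5, 1], .l [8, 4, 8, 1, 6, 10, 4, 7, 4], .r 2440 [1, 3, 6, 5] [1, 1, 1, 2, 5], .l [8, 4], .r 2079 [1, 3, 6, 5] [1, 1, 1, 2, 5], .r 2502 [1, 2, 3, 6, 4, 5] [1, 1, 1, 1, 1, 1, 1], .l [8, 2], .r 2500 [1, 2, 3, 6, 4, 5] [1, 1, 1, 1, 1, 1], .l [7, 0], .l [3, 2, 13, 5, 6, 1], .l [6, 8],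 .l [9, 2], .y [6, 9], .l [3, 2, 13, 3, 6, 3], .l [6, 10], .l [11, 4], .l [6, 12, 3, 8, 2, 11, 4, 2, 6, 1], .l [6, 12], .l [13, 6], .r 1364 [3, 6, 4, 5] [4, 1, 1, 3, 1], .l [6, 14], .l [15, 8]]),
([p 1 0, g, p 0 1, p 3 0, g, m 0 2, g, p 0 3, g, p 2 0, g], .hi 3, [.r 2493 [1, 4] [1, 1, 7], .l [6, 9, 7, 7, 4, 6, 4, 5], .l [5, 2], .l [4, 7, 5, 5, 4, 4, 2, 3], .r 1588 [1, 4] [1, 1, 7], .l [3, 4], .l [5, 1], .l [5, 1], .r 1588 [1, 4] [1, 3, 5], .l [3, 6], .l [7, 3], .y [3, 7], .r 1588 [1, 4] [1, 5, 3], .l [3, 8], .l [9, 5], .r 1588 [1, 4] [1, 7, 1], .l [3, 10], .l [11, 7]]),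
([p 3 1, s 0 2, g, s 1 0, g, p 0 3, p 4 0, m 0 0, g, p 0 4, g, s 2 0, g], .hi 7, [.l [0, 5, 4, 5, 7, 6, 1], .l [3, 8, 10, 9, 3], .l [1, 12, 9, 5, 7, 6, 7], .l [3, 8], .l [5, 8, 10, 9, 1], .l [1, 12, 7, 3, 5, 4, 7], .l [5, 8], .l [1, 10, 5, 1, 3, 2, 5], .y [7], .r 2498 [1, 2, 3, 5, 4] [1, 1, 1, 1, 1, 1], .l [8, 7, 12, 6, 2, 6, 1], .r 2497 [1, 3, 5, 4] [1, 1, 1, 1, 3], .l [8, 7, 10, 4, 2, 4, 1], .r 2496 [1, 2, 3, 5, 4] [1, 1, 1, 1, 1, 1], .r 2504 [3, 5, 4] [4, 0, 1, 1, 3], .r 2503 [1, 2, 3, 5, 4] [1, 1, 1, 1, 1, 1], .l [3, 2, 9, 11, 7, 9, 8, 1], .r 2504 [3, 5, 4] [4, 0, 1, 3, 1], .l [1, 10, 12, 8, 10, 9, 3]]),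
([p 2 1, s 0 0, g, s 1 0, g, p 0 2, p 3 0, m 0 0, g, p 0 3, g], .hi 1, [.y [1], .r 1053 [1, 4, 2] [1, 1, 1, 5], .l [2, 7, 4, 4, 1], .r 578 [1, 4, 2] [1, 1, 1, 5], .r 989 [1, 4, 2] [1, 1, 1, 5], .l [3, 2, 3], .r 520 [1, 4, 2] [1, 1, 1, 5], .l [3, 2, 3], .l [3, 7, 4, 5, 7, 4, 1], .l [1, 8, 10, 7, 3], .l [0, 5, 4, 7, 9, 6, 1], .l [3, 9, 6, 7, 9, 4, 1], .l [0, 5, 4, 7, 7, 4, 1], .r 2505 [1, 4, 2, 3] [1, 1, 1, 1, 1], .l [3, 2, 9], .r 852 [1, 4, 2] [1, 1, 5, 1]]),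
([p 2 1, s 6 0, g, s 1 0, g, p 3 2, p 4 3, p 5 4, g, s 0 5, g, s 0 6, g], .hi 1, [.l [2, 7, 4, 4, 1, 10, 6, 8, 6, 1], .l [2, 7, 4, 4, 1], .r 578 [1, 7, 2] [1, 1, 1, 7], .l [3, 2, 11, 7, 9, 1, 5, 5, 4, 1], .l [3, 2, 11, 7, 9, 1, 5, 5, 4, 1], .l [13, 11, 1, 10, 7, 9, 7, 7, 6, 1], .l [3, 2, 7, 9, 7, 7, 6, 1], .l [3, 2, 7], .l [9, 7, 8, 4, 4, 3, 6], .l [1, 8, 8, 6, 6, 5, 3], .l [11, 9, 10, 6, 6, 5, 1, 8, 4, 1], .l [3, 2, 9], .l [11, 9, 10, 6, 6, 5, 1], .y [1, 11], .l [11, 9, 10, 6, 6, 5, 1, 8, 4, 1], .l [3, 2, 11], .l [11, 9, 10, 6, 6, 5, 1, 8, 4, 1]]),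
([p 2 1, g, s 1 0, g, s 0 0, p 3 2, p 4 3, p 7 4, g, s 0 5, g, s 0 6, g, p 6 7, g, s 5 0, g], .hi 4, [.l [4, 3, 10, 14, 10, 2, 8, 9, 2, 3], .l [12, 15, 11, 0, 7, 11, 3, 6, 8, 6, 0, 2, 1], .l [12, 15, 11, 11, 10, 10, 9, 3, 8, 2, 1], .l [2, 1, 10, 14, 10, 4, 8, 9, 4, 1], .r 2428 [8, 2] [3, 1, 11], .l [12, 15, 11, 11, 10, 10, 9, 1, 8, 2, 1], .y [4], .l [4, 8, 14, 12, 12, 11, 0], .l [4, 8, 14, 12, 12, 11, 0], .l [2, 1, 8, 4, 0, 5, 11, 7, 0], .l [4, 8, 12, 10, 10, 9, 0], .l [4, 10, 14, 10, 10, 9, 0], .l [4, 10, 14, 10, 10, 9, 0], .l [2, 1, 10, 6, 0, 7, 11, 5, 0], .l [4, 10, 10, 10, 10, 6, 6, 5, 0], .l [4, 12, 14, 8, 8, 7, 0], .l [4, 12, 14, 8, 8, 7, 0], .l [2, 1, 12, 8, 0, 9, 11, 3, 0], .l [2, 1, 8, 14, 10, 2, 6, 9, 4, 1],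 .l [2, 1, 8, 14, 10, 2, 6, 9, 4, 1], .l [5, 10, 13, 9, 5, 7, 12, 4, 9, 0, 7], .l [2, 1, 8, 12, 8, 2, 6, 7, 2, 9], .l [2, 1, 8, 12, 8, 2, 6, 7, 2, 9], .l [5, 10, 13, 9, 5, 7, 14, 6, 11, 0, 9]]),
([p 2 1, s 7 0, g, s 1 0, g, s 0 0, p 3 2, p 4 3, p 6 4, s 0 0, g, s 0 5, g, p 5 6, g, s 0 7, g], .hi 9, [.l [3, 10, 14, 13, 13, 12, 4], .l [2, 8, 5, 9, 15, 11, 2, 8, 11, 4], .l [3, 10, 14, 13, 13, 12, 4], .l [5, 10, 14, 13, 13, 12, 2], .l [3, 2, 15, 11, 5, 9, 8, 8, 7, 8], .l [5, 10, 14, 13, 13, 12, 2], .l [5, 8, 12, 11, 11, 10, 0], .y [9], .l [10, 15, 12, 15, 8, 13, 12, 4, 11, 2], .l [10, 15, 12, 15, 8, 13, 12, 4, 11, 2], .l [3, 2, 10, 1, 13, 10, 10, 9, 2], .l [10, 13, 10, 13, 6, 11, 10, 2, 9, 2], .l [12, 15, 10, 15, 8, 13, 12,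 2, 11, 2], .l [12, 15, 10, 15, 8, 13, 12, 2, 11, 2], .l [3, 2, 12, 3, 13, 8, 8, 7, 2], .r 2508 [1, 2, 3, 4, 8, 5, 6] [2, 1, 0, 1, 1, 1, 3], .l [3, 2, 8, 13, 10, 2, 8, 9, 2], .l [12, 13, 8, 15, 8, 13, 12, 2, 4, 2, 9, 2], .l [3, 2, 13, 13, 7, 11, 10, 10, 9, 2], .l [3, 2, 13, 15, 9, 13, 12, 12, 11, 2], .l [3, 2, 8, 15, 12, 2, 8, 11, 4], .l [3, 2, 13, 15, 9, 13, 12, 12, 11, 2]]),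
([p 2 1, s 7 0, g, s 1 0, g, s 0 0, p 3 2, p 4 3, p 6 4, g, s 0 5, g, p 5 6, g, s 0 7, g], .top 9, [.l [10, 11, 8, 11, 4, 9, 8, 0, 7, 2], .r 2509 [1, 2, 3, 4, 5, 6, 7] [1, 1, 1, 1, 1, 1], .r 2436 [1, 2, 4, 6, 7] [1, 2, 0, 3, 1, 1], .r 1819 [2, 4] [5, 0, 7]]),
([p 2 1, s 7 0, g, s 1 0, g, p 3 2, p 4 3, p 5 4, g, p 6 5, g, s 0 6, g, s 0 7, g], .hi 1, [.l [15, 13, 14, 8, 12, 4, 1, 7, 1, 5, 6, 1], .l [2, 7, 4, 4, 1], .l [15, 13, 14, 8, 11, 8, 1, 4, 7, 3, 5, 6, 3], .l [1, 14, 9, 12, 1, 5, 1, 3, 5, 5, 4, 1], .l [3, 2, 13, 9, 11, 1, 7, 7, 6, 6, 5, 5, 3], .l [10, 11, 9, 9, 8, 8, 7, 3, 4, 1, 4, 0, 3], .l [1, 8, 10, 8, 8, 7, 3], .l [0, 5, 4, 7, 9, 7, 7, 6, 1], .l [3, 9, 6, 7, 9, 5, 5, 4, 1], .l [3, 2, 9, 11, 9, 9, 7, 7, 6, 1],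 .l [3, 2, 9], .l [8, 9, 7, 7, 6, 6, 5, 5, 0, 6, 3, 4, 1], .l [1, 10, 10, 8, 8, 6, 6, 5, 3], .l [13, 11, 12, 8, 12, 4, 1, 7, 1, 5, 6, 1], .l [3, 2, 11], .l [8, 9, 7, 7, 6, 6, 5, 5, 0, 4, 6, 2, 3], .y [1, 13], .l [13, 11, 12, 8, 12, 4, 1, 7, 1, 5, 6, 1], .l [3, 2, 13], .l [13, 11, 12, 8, 8, 7, 7, 6, 6, 4, 8, 4, 1]]),
([p 2 1, s 6 0, g, s 1 0, g, s 0 0, p 3 2, p 4 3, p 5 4, g, p 0 5, g, s 0 6, g], .lo 10, [.l [0, 6, 5, 8, 8, 6, 6, 5, 2], .l [3, 11, 11, 9, 9, 8, 4], .l [3, 11], .l [0, 4, 1, 9, 9, 7, 7, 6, 6, 5, 5, 2, 5], .y [0, 3, 10, 8, 7, 6], .l [5, 11, 11, 9, 9, 8, 2], .l [5, 11], .l [1, 13, 8, 6, 6, 4, 4, 3, 6], .l [5, 9, 9, 7, 7, 6, 0], .r 2510 [1, 2, 3, 4, 7, 5, 6] [1, 1, 1, 1, 1, 1], .l [10, 11], .l [9, 12, 10, 10,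 9, 9, 8, 8, 2, 1], .r 2511 [1, 2, 3, 4, 5, 7, 6] [1, 2, 1, 1, 1, 1], .l [3, 2, 8, 11, 8, 2, 5, 7, 3, 8, 2, 4, 3], .l [9, 10, 8, 8, 7, 7, 6, 6, 0, 6], .l [3, 2, 10, 12, 10, 10, 8, 8, 7, 2], .l [1, 11, 13, 11, 11, 9, 9, 8, 4], .l [9, 10, 8, 8, 7, 7, 6, 6, 0, 8]]),
([p 2 1, s 5 0, g, s 1 0, g, s 0 0, p 3 2, p 4 3, p 0 4, g, s 0 5, g], .lo 8, [.l [0, 6, 5, 6, 6, 5, 2], .l [3, 9, 9, 8, 4], .l [3, 9], .l [1, 11, 8, 6, 6, 5, 6], .y [0, 3, 8, 7, 6], .l [5, 9, 9, 8, 2], .l [5, 9], .l [1, 11, 6, 4, 4, 3, 6], .l [5, 7, 7, 6, 0], .r 2507 [1, 2, 3, 4, 6, 5] [1, 2, 1, 1, 1], .r 2512 [1, 2, 3, 4, 6, 5] [1, 1, 1, 1, 1], .l [7, 8, 7, 7, 6, 6, 0, 6], .l [3, 2, 8, 10, 8, 8, 7, 2], .l [1, 9, 11, 9, 9, 8, 4], .l [7, 8, 7, 7, 6, 6, 0, 8]]),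
([p 2 1, s 7 0, g, s 1 0, g, p 3 0, g, p 0 2, p 4 3, p 6 4, g, s 0 5, g, p 0 6, g, m 5 0, g, s 0 7, g], .lo 7, [.l [3, 2, 15, 9, 13, 1, 11, 9, 8, 8, 7, 7, 3], .l [3, 8, 16, 3, 9, 15, 1, 10, 3, 5, 8, 5], .l [3, 8], .l [2, 9, 6, 5], .y [0, 3, 7], .l [5, 8, 16, 3, 11, 15, 1, 8, 3, 5, 6, 3], .l [5, 8], .l [4, 9, 4, 3], .l [5, 6], .l [17, 3, 9, 1, 9, 6, 3], .l [7, 8], .l [6, 9, 2, 1], .l [3, 2, 17, 11, 3, 7, 5, 5, 4, 9], .l [4, 1, 2, 16, 11, 0, 12, 10, 10, 9, 1, 8, 3], .l [1, 18, 11, 3, 7, 5, 5, 4, 11], .l [3, 2, 17, 11, 5, 7, 3, 3, 2, 9], .l [4, 1, 2, 16, 11, 0, 12, 10, 10, 9, 3, 8, 3], .l [1, 18, 11, 5, 7, 3, 3, 2, 11], .l [17, 5, 9, 5, 3, 6, 13, 11, 3], .l [17, 5, 9, 5, 3, 6, 13, 11, 3], .l [6, 7, 0, 13], .l [6, 7, 0,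 13], .l [15, 3, 7, 14, 12, 3, 10, 11, 3], .l [3, 2, 7, 16, 14, 15, 13, 4, 11, 7, 3, 8, 9], .l [6, 7, 0, 15], .l [15, 3, 7, 16, 14, 3, 10, 13, 5], .l [3, 2, 7, 18, 16, 17, 15, 4, 13, 9, 3, 10, 3], .l [3, 2, 15, 9, 15, 3, 13, 9, 8, 8, 7, 7, 3]]),
([p 2 1, s 7 0, g, s 1 0, g, p 3 0, g, p 0 2, p 4 3, p 6 4, s 0 5, g, p 0 6, g, s 5 0, g, s 0 7, g], .lo 10, [.l [1, 9, 11, 10, 10, 9, 5], .l [3, 11, 13, 12, 12, 11, 5], .l [3, 11, 13, 12, 12, 11, 5], .l [16, 3, 12, 8, 0, 9, 12, 4, 0], .l [3, 9, 6, 8, 10, 7, 7, 6, 3], .l [5, 11, 13, 12, 12, 11, 3], .l [5, 11, 13, 12, 12, 11, 3], .l [16, 3, 10, 6, 0, 7, 12, 6, 0], .l [5, 9, 11, 10, 7], .l [7, 11, 13, 12, 7], .l [7, 11, 13, 12, 7], .l [16, 3, 8, 4, 0, 5, 12, 8, 0], .l [11, 14, 11,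 16, 8, 14, 13, 2, 12, 3], .l [0, 10, 15, 12, 6, 10, 12, 5, 9, 10, 5], .l [8, 9, 8, 8, 5, 8, 12, 3, 10, 2, 6], .l [14, 3, 12, 16, 8, 2, 4, 7, 4, 1], .l [5, 10, 15, 13, 7, 11, 12, 7, 1], .l [3, 2, 9, 12, 9, 3, 7, 8, 1], .y [10, 14], .l [14, 3, 12, 16, 8, 2, 4, 7, 4, 1], .l [8, 9, 8, 8, 5, 12, 3, 12, 8, 2, 8], .l [3, 2, 9, 14, 11, 3, 7, 10, 3], .l [3, 2, 14, 16, 10, 12, 11, 11, 10, 3], .l [3, 2, 14, 16, 10, 12, 11, 11, 10, 3], .l [3, 2, 9, 16, 13, 3, 7, 12, 5]]),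
([p 2 1, s 6 0, g, s 1 0, g, p 3 0, g, p 0 2, p 4 3, p 5 4, s 0 0, g, p 0 5, g, s 0 6, g], .hi 10, [.l [3, 11, 13, 12, 12, 11, 5], .l [2, 9, 6, 10, 14, 10, 3, 7, 10, 3], .l [3, 11, 13, 12, 12, 11, 5], .l [5, 11, 13, 12, 12, 11, 3], .l [3, 2, 14, 10, 6, 8, 7, 7, 6, 7], .l [5, 11, 13, 12, 12, 11, 3], .l [7, 11, 13, 12, 7], .l [3, 2, 14, 8, 4, 6, 5, 5, 4, 7], .l [7, 11, 13, 12, 7], .l [3, 2, 12, 6, 2, 4, 3, 3, 2, 5], .y [10], .l [11, 14, 11, 14, 6, 12, 11, 2, 10, 3], .l [11, 14, 11, 14, 6, 12, 11, 2, 10, 3], .l [3, 2, 11, 1, 12, 9, 9, 8, 3], .l [11, 12, 9, 12, 4, 10, 9, 0, 8, 3], .r 2515 [1, 2, 3, 4, 7, 5, 6] [1, 1, 1, 1, 1, 1, 1], .l [3, 2, 9, 12, 9, 3, 7, 8, 1], .r 2514 [1, 2, 3, 4, 7, 5, 6] [1, 1, 1, 0, 1, 1, 1, 1],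 .l [3, 2, 12, 12, 8, 10, 9, 9, 8, 3], .l [3, 2, 12, 14, 10, 12, 11, 11, 10, 3], .l [3, 2, 9, 14, 11, 3, 7, 10, 3], .l [3, 2, 12, 14, 10, 12, 11, 11, 10, 3]]),
([p 2 1, s 6 0, g, s 1 0, g, p 3 0, g, p 0 2, p 4 3, p 5 4, g, p 0 5, g, s 0 6, g], .top 10, [.r 2453 [1, 2, 4, 5, 6] [1, 3, 0, 1, 1], .r 2516 [1, 2, 3, 4, 5, 6] [1, 1, 1, 1, 1, 1], .r 2436 [1, 2, 4, 5, 6] [1, 3, 0, 1, 1, 1], .r 1819 [2, 4] [6, 0, 5]]),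
([p 2 1, s 6 0, g, s 1 0, g, p 3 0, g, p 0 2, p 4 3, p 5 4, g, s 0 5, g, s 0 6, g], .hi 1, [.l [2, 9, 6, 6, 3, 12, 6, 10, 8, 1], .l [2, 9, 6, 6, 3], .r 578 [1, 7, 2] [1, 1, 3, 7], .l [3, 2, 13, 9, 11, 1, 5, 7, 6, 1], .l [3, 2, 13, 9, 11, 1, 5, 7, 6, 1], .l [15, 13, 1, 12, 9, 11, 7, 9, 8, 1], .l [3, 2, 13, 7, 11, 1, 7, 5, 4, 1], .l [3, 2, 13, 7, 11, 1, 7, 5, 4, 1], .l [7, 10, 7, 9, 5, 6, 8, 4, 1], .l [3, 2, 11, 5, 9, 1, 7, 5, 4, 1], .l [3, 2, 9, 11, 9, 9, 8, 3], .l [3, 2, 9], .l [11, 9, 10, 4, 6, 5, 8], .l [1, 10, 10, 8, 8, 7, 5], .l [13, 11, 12, 6, 8, 7, 1, 10, 6, 3], .l [3, 2, 11], .l [13, 11, 12, 6, 8, 7, 1], .y [1, 13], .l [13, 11, 12, 6, 8, 7, 1, 10, 6, 3], .l [3, 2, 13], .l [13, 11, 12, 6, 8, 7, 1, 10, 6, 3]]),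
([p 2 1, s 5 0, g, s 1 0, g, p 3 0, g, p 0 2, p 4 3, p 0 4, g, s 0 5, g], .lo 9, [.l [0, 7, 6, 7, 7, 6, 3], .l [3, 10, 10, 9, 5], .l [3, 10], .l [1, 12, 9, 7, 7, 6, 7], .l [0, 2, 2, 6, 6, 5, 4], .l [5, 10, 10, 9, 3], .l [5, 10], .l [1, 12, 7, 5, 5, 4, 7], .y [5, 9, 8], .l [7, 10, 7], .l [7, 10], .l [1, 12, 5, 3, 3, 2, 7], .r 2518 [1, 2, 3, 4, 6, 5] [1, 1, 1, 1, 1, 1], .r 2517 [1, 2, 3, 4, 6, 5] [1, 1, 1, 1, 1, 1], .l [8, 9, 8, 8, 5, 7, 2, 6], .l [3, 2, 9, 11, 9, 9, 8, 3], .l [1, 10, 12, 10, 10, 9, 5], .l [8, 9, 8, 8, 5, 7, 2, 8]]),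
([p 2 1, s 4 0, g, s 1 0, g, s 0 0, p 0 2, p 3 0, p 0 3, g, s 0 4, g], .hi 7, [.r 2080 [1, 2, 5, 3] [1, 1, 2, 0, 3], .r 2266 [1, 2, 5, 3] [1, 1, 1, 0, 3], .l [9, 5], .r 2079 [1, 2, 5, 3] [1, 1, 2, 0, 3], .r 2519 [1, 2, 5, 3, 4] [1, 1, 2, 1, 1], .l [9, 3], .r 2079 [1, 2, 5, 3] [1, 1, 0, 0, 3], .r 2513 [1, 2, 5, 3, 4] [1, 1, 1, 1], .c, .r 1329 [2, 5, 3] [5, 1, 3], .l [7, 9], .l [10, 2], .r 1329 [2, 5, 3] [5, 1, 1], .r 1329 [2, 5, 3] [5, 3, 1], .l [7, 11], .l [12, 4]]),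
([p 2 1, s 4 0, g, s 1 0, g, s 0 0, p 0 2, p 3 0, g, p 0 3, g, s 0 4, g], .top 8, [.r 2520 [1, 2, 3, 4] [1, 1, 1, 1], .r 2479 [1, 2, 3, 4] [1, 1, 1, 1, 1], .r 2492 [1, 2, 3] [1, 2, 1, 3], .r 2506 [1, 2, 3] [1, 2, 1, 3]]),
([p 2 1, s 0 0, g, s 1 0, g, s 0 0, p 0 2, p 3 0, g, p 0 3, g], .lo 1, [.y [1], .r 1018 [1, 4, 2] [1, 1, 2, 4], .r 1556 [1, 4, 2] [1, 1, 2, 4], .l [2, 8, 5, 5, 2], .l [2, 6, 3, 3, 2], .r 2175 [1, 4, 2] [1, 1, 2, 4], .r 2050 [1, 4, 2] [1, 1, 2, 4], .l [3, 2, 3], .r 2175 [1, 4, 2] [1, 1, 0, 4], .l [3, 7, 4, 5, 7, 5, 2], .l [1, 8, 10, 8, 4], .l [3, 9, 6, 7, 9, 5, 2], .l [0, 6, 5, 7, 9, 7, 2], .r 2521 [1, 2, 3, 4] [1, 1, 1, 1, 1], .r 2194 [1, 2, 3, 4] [1, 2, 1, 1, 1], .l [3, 2, 9]]),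
([p 1 0, s 0 0, g, s 0 0, p 0 1, p 2 0, g, p 0 2, g], .hi 0, [.c, .r 2522 [3, 1, 2] [1, 1, 1, 1], .l [0, 2], .l [3, 2], .r 1003 [3, 1] [2, 4], .y [0, 4], .l [0, 6, 8, 6, 3], .l [0, 6], .l [7, 6], .l [0, 6], .r 2041 [3, 1, 2] [2, 1, 1, 1], .l [0, 8], .l [9, 8]]),
([p 1 0, g, s 0 0, p 0 1, p 2 0, g, p 0 2, g], .top 1, [.r 2044 [1] [3], .r 2523 [1, 2] [1, 1, 1], .r 334 [] [7], .r 444 [] [7]]),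
([p 1 0, g, m 0 0, p 0 1, p 0 0, g], .hi 0, [.r 1576 [2, 1] [1, 1, 2], .l [0, 1], .l [2, 1], .l [2, 1], .y [0, 3], .l [0, 3], .r 2043 [2, 1] [2, 1, 1], .l [0, 5], .l [6, 5]]),
([p 1 0, g, p 0 1, p 2 0, g, p 0 2, g], .bot 1, [.r 334 [] [4], .r 2524 [1, 2] [1, 1, 1], .r 1201 [1] [1, 4], .r 2525 [1] [1, 3]]),
([p 1 0, g, p 0 1, p 2 0, g, m 0 2, g], .hi 3, [.l [5, 2, 4, 2, 3], .l [4, 5, 2, 4, 2, 3], .l [5, 2], .l [2, 3, 2, 2, 0, 1], .r 1588 [1, 3] [1, 1, 3], .l [3, 4], .l [5, 1], .y [3, 5], .r 1359 [1, 3, 2] [1, 1, 1, 1], .l [3, 6], .l [7, 3]]),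
([p 1 0, g, p 0 1, p 0 0, g], .lo 3, [.l [0, 2], .l [2, 4, 1], .l [2, 4], .l [1, 4, 2, 3], .y [3], .r 1313 [1, 2] [1, 1, 1], .r 2526 [1, 2] [1, 1, 1], .r 2527 [1, 2] [1, 1, 1]]),
([p 3 1, s 5 2, g, s 1 0, g, p 0 3, s 0 4, g, s 2 0, g, p 4 0, g, s 0 5, g], .lo 6, [.l [3, 7, 3], .l [3, 7, 3], .l [5, 4, 12, 1, 3, 8, 4, 1], .l [3, 5, 1], .l [5, 7, 1], .l [5, 7, 1], .l [3, 2, 12, 1, 3, 6, 2, 5], .l [6, 11, 8, 2, 10, 6, 4, 5], .l [3, 2, 12, 3, 10, 6, 1, 6, 4, 1], .l [3, 2, 5, 10, 3, 8, 1], .l [3, 2, 6, 6, 4, 1], .l [3, 2, 6, 8, 6, 1], .l [3, 2, 6, 8, 6, 1], .l [3, 2, 5, 10, 1, 8, 1], .y [6, 10], .l [3, 2, 6, 10, 8, 1], .l [3, 2, 6, 10, 8, 1], .l [3, 2, 5, 10, 1, 8, 1], .l [3, 2, 10, 12, 6, 1], .l [3, 2, 10, 1, 3, 10, 6, 1],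 .l [3, 2, 5, 12, 3, 10, 1]]),
([p 3 1, s 0 2, g, s 1 0, g, p 0 3, s 0 4, g, s 2 0, g, p 4 0, g], .lo 1, [.l [10, 8, 3, 7, 4, 6, 4, 5], .l [10, 8, 9, 3, 8, 1, 4, 1], .l [2, 7, 4, 4, 1], .l [2, 5, 2, 2, 1], .l [3, 2, 8, 4, 6, 1, 2, 5], .l [10, 8, 9, 3, 8, 3, 4, 1], .l [3, 2, 3], .l [8, 6, 7, 3, 8, 1, 4, 1], .l [8, 6, 7, 3, 8], .l [3, 2, 6], .y [1, 8], .l [8, 6, 7, 3, 8, 1, 4, 1], .l [10, 8, 9, 5, 8], .l [3, 2, 8], .l [10, 8, 9, 5, 3], .r 2529 [1, 2, 3, 4, 5] [1, 1, 1, 1, 1, 1], .l [12, 10, 11, 7, 3], .l [3, 2, 10]]),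
([p 3 1, s 5 2, g, s 1 0, g, p 0 3, s 0 4, g, s 0 5, g, p 4 0, g, s 2 0, g], .lo 6, [.l [3, 7, 3], .l [3, 7, 3], .l [5, 4, 8, 6, 4, 1], .l [3, 5, 1], .l [5, 7, 1], .l [5, 7, 1], .l [3, 2, 8, 4, 2, 3], .l [6, 11, 8, 2, 10, 6, 4, 5], .l [3, 2, 12, 3, 10, 6, 1, 6, 4, 1], .l [3, 2, 5, 10, 3, 8, 1], .l [3, 2, 6, 8, 6, 1], .l [3, 2, 6, 8, 6, 1], .l [3, 2, 5, 10, 1, 8, 1], .y [6, 10], .l [3, 2, 6, 10, 8, 1], .l [3, 2, 6, 10, 8, 1], .l [3, 2, 5, 10, 1, 8, 1], .l [8, 6, 7, 3, 8, 1, 6, 6, 4, 1], .l [3, 2, 6, 12, 10, 1], .l [3, 2, 6, 12, 10, 1], .l [3, 2, 5, 12, 3, 10, 1]]),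
([p 3 1, s 0 2, g, s 1 0, g, p 0 3, s 0 4, g, p 4 0, g, s 2 0, g], .lo 1, [.l [12, 10, 3, 9, 6, 8, 6, 1], .r 1556 [1, 5, 3] [1, 1, 1, 6], .l [2, 7, 4, 4, 1], .l [2, 5, 2, 2, 1], .l [3, 2, 10, 6, 8, 1, 4, 1], .l [12, 10, 1, 9, 6, 8, 6, 1], .l [3, 2, 3], .r 2531 [1, 2, 3, 4, 5] [1, 1, 1, 1, 1, 1], .l [8, 6, 7, 3, 6], .l [3, 2, 6], .l [8, 6, 7, 3, 1], .l [10, 8, 9, 5, 1, 8, 4, 1], .l [10, 8, 9, 5, 1], .l [3, 2, 8], .y [1, 10], .l [10, 8, 9, 5, 1, 8, 4, 1], .l [10, 8, 9, 5, 1, 8, 4, 1], .l [3, 2, 10]]),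
([p 6 1, s 0 2, g, s 1 0, m 0 3, g, m 3 4, g, m 4 5, g, m 5 0, g, p 0 6, g, s 0 7, g, m 7 0, g, s 2 0, g], .hi 10, [.l [3, 2, 8], .l [11, 12, 10, 10, 8, 8, 6, 4, 7, 2, 3], .l [0, 4, 1, 9, 9, 7, 7, 5, 5, 3, 5, 4, 9], .l [3, 11], .y [4, 6, 8, 10], .l [5, 8, 6, 2, 11, 8, 5], .l [3, 2, 18, 13, 5, 5, 3, 3, 1, 9, 7, 1, 7], .l [6, 11], .l [7, 10, 8, 8, 6, 2, 9, 6, 3], .l [4, 6, 5, 2, 17, 11, 3, 3, 1, 9, 7, 1, 7], .l [8, 11], .l [9, 12, 10, 10, 8, 8, 6, 2, 7, 4, 1], .l [6, 8, 7, 7, 5, 2, 15, 9, 1, 9, 7, 1, 7], .l [10, 11], .l [9, 10, 8, 8, 6, 6, 4, 2, 7, 4, 1], .l [7, 8, 6, 6, 4, 2, 14, 9, 1, 3, 8, 5], .l [8, 10, 9, 9, 7, 11, 5, 1, 7, 2, 11, 7, 1], .l [7, 8, 6, 6, 4, 2, 12, 7, 1, 1, 6, 5], .l [9, 10, 8, 8, 6, 6, 4, 2, 5, 2,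 5], .l [8, 10, 9, 9, 7, 9, 3, 1, 5, 2, 11, 7, 1], .l [6, 12, 5, 1, 9, 11, 3, 1, 7, 2, 11, 7, 1], .l [9, 10, 8, 8, 6, 6, 4, 2, 5, 2, 5], .l [9, 10, 8, 8, 6, 6, 4, 2, 5, 2, 7], .l [8, 10, 9, 9, 7, 9, 3, 1, 5, 2, 11, 7, 3], .l [6, 12, 5, 1, 9, 13, 5, 1, 9, 2, 11, 7, 3], .l [9, 10, 8, 8, 6, 6, 4, 2, 5, 2, 9], .l [8, 10, 9, 9, 7, 9, 3, 1, 5, 2, 11, 7, 5], .l [6, 12, 5, 1, 9, 15, 7, 1, 11, 2, 11, 7, 5], .l [9, 10, 8, 8, 6, 6, 4, 2, 5, 2, 11], .l [6, 8, 7, 7, 5, 2, 13, 7, 13, 3, 9, 5, 9], .l [6, 12, 5, 1, 9, 17, 9, 1, 13, 2, 5, 1, 9]]),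
([p 5 1, s 0 0, g, s 1 0, m 0 2, g, m 2 3, g, m 3 4, g, m 4 0, g, p 0 5, s 0 6, g, m 6 0, g], .hi 1, [.y [1], .r 1021 [1, 7, 2, 3, 4, 5] [1, 1, 1, 1, 1, 1, 4], .l [2, 14, 11, 11, 8], .l [9, 10, 8, 15, 1, 10, 1, 3, 9, 7, 2, 7, 2], .l [15, 1, 11, 12, 10, 10, 8, 8, 6, 6, 4, 6, 4], .r 989 [1, 7, 5] [1, 2, 7, 4], .l [3, 2, 4], .l [17, 1, 13, 14, 10, 12, 10, 10, 8, 8, 6, 8, 6], .r 989 [1, 7, 5] [1, 4, 5, 4], .l [3, 2, 6], .l [4, 14, 9, 1, 11, 2, 7], .r 989 [1, 7, 5] [1, 6, 3, 4], .l [3, 2, 8], .l [4, 14, 9, 1, 11, 2, 5], .r 989 [1, 7, 5] [1, 8, 1, 4], .l [3, 2, 10], .l [4, 14, 9, 1, 11, 2, 3], .l [3, 2, 10], .l [1, 12, 10], .l [3, 2, 13, 15, 13, 8], .l [3, 2, 13], .l [5, 15, 10, 1, 12, 10, 1, 9, 4], .r 2533 [1, 7, 2, 3, 4,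 5, 6] [1, 1, 1, 1, 1, 0, 1, 1, 1], .l [3, 2, 15], .l [5, 17, 12, 1, 14, 12, 1, 11, 6]]),
([p 5 1, g, s 1 0, m 0 2, g, m 2 3, g, m 3 4, g, p 0 5, s 0 6, g, m 4 0, g, m 6 0, g], .lo 10, [.l [1, 11, 9, 10, 12, 8, 8, 6, 10, 5, 1, 6, 3], .l [2, 11, 8], .l [1, 11, 9, 10, 12, 8, 8, 6, 10, 5, 1, 6, 3], .l [1, 9, 7, 8, 10, 6, 6, 4, 8, 5, 1, 4, 1], .l [4, 7, 5, 1, 8, 6, 7, 9, 5, 5, 3, 7, 5], .l [5, 11, 5], .l [4, 7, 5, 1, 8, 6, 7], .l [6, 9, 7, 7, 5, 1, 6, 4, 5, 7, 3, 7, 5], .l [7, 11, 3], .l [6, 9, 7, 7, 5, 1, 6, 4, 5], .l [8, 11, 2, 10, 12, 10, 10, 8, 8, 6, 1, 7, 3], .l [9, 11, 1], .l [8, 11, 2, 10, 12, 10, 10, 8, 8, 6, 1], .l [11, 14, 9, 9, 7, 7, 5, 1, 6, 4, 5, 7, 1], .l [12, 1, 13, 8, 8, 6, 6, 4, 1], .l [9, 14, 11, 11, 9,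 9, 7, 1, 8, 6, 1], .l [9, 12, 9, 9, 7, 7, 5, 1, 6, 4, 1], .l [3, 14, 3, 15, 11, 5, 1, 6, 1, 3, 7, 3, 5], .l [2, 1, 13, 3, 6, 4, 11, 9, 6], .l [9, 12, 9, 9, 7, 7, 5, 1, 6, 4, 5], .y [10, 14], .l [9, 12, 9, 9, 7, 7, 5, 1, 8, 5, 3, 4, 5], .l [2, 1, 13, 3, 6, 4, 11, 9, 6], .l [9, 12, 9, 9, 7, 7, 5, 1, 6, 4, 7]]),
([p 4 1, s 0 0, g, s 1 0, m 0 2, g, m 2 3, g, m 3 0, g, p 0 4, s 0 5, g, m 5 0, g], .hi 8, [.l [3, 2, 6], .l [9, 10, 8, 8, 6, 4, 7, 2, 3], .l [2, 12, 9, 6], .l [3, 9], .y [4, 6, 8], .l [5, 8, 6, 2, 9, 6, 3], .l [5, 8, 6, 2, 9, 6, 3], .l [6, 9], .l [7, 10, 8, 8, 6, 2, 7, 4, 1], .l [7, 10, 8, 8, 6, 2, 7, 4, 1], .l [8, 9], .l [7, 8, 6, 6, 4, 2, 7, 4, 1], .l [7, 8, 6, 6, 4, 2, 7, 4, 1], .r 2534 [1, 2, 3, 6, 4, 5] [1,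 1, 1, 1, 1, 1, 1], .l [7, 8, 6, 6, 4, 2, 5, 2, 1], .l [7, 8, 6, 6, 4, 2, 5, 2, 4], .l [7, 8, 6, 6, 4, 2, 5, 2, 6], .l [7, 8, 6, 6, 4, 2, 5, 2, 6], .r 2535 [1, 2, 3, 6, 4, 5] [2, 1, 1, 1, 1, 1, 1], .l [7, 8, 6, 6, 4, 2, 5, 2, 8], .l [7, 8, 6, 6, 4, 2, 5, 2, 8], .l [13, 1, 14, 9, 9, 7, 7, 5, 2]]),
([p 4 1, g, s 1 0, m 0 2, g, m 2 3, g, p 0 4, s 6 5, g, s 0 6, g, m 3 0, g, m 5 0, g], .lo 7, [.l [8, 14, 12, 12, 10, 3, 4, 0, 1], .l [2, 8], .l [1, 9, 7, 6], .y [0, 2, 7], .l [4, 7, 5, 1, 6, 4, 3], .l [5, 8], .l [4, 7, 5, 1, 6, 4, 3], .l [6, 14, 12, 12, 10, 1, 4, 2, 1], .l [7, 8], .l [6, 9, 2, 1], .l [6, 7, 0, 8, 12, 8, 8, 6, 1], .l [11, 14, 7, 7, 5, 1, 6, 4, 5, 7, 5, 7, 3], .l [6, 7, 0, 8], .l [6, 7, 0, 10, 12, 6, 6, 4, 1],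 .l [9, 12, 9, 9, 2, 8, 10, 8, 8, 6, 1, 7, 3], .l [6, 7, 0, 10], .l [6, 7, 0, 10], .l [6, 12, 10, 10, 8, 1, 2, 0, 7], .l [9, 12, 7, 7, 5, 1, 6, 4, 5, 7, 5, 7, 3], .l [6, 7, 0, 12], .l [6, 7, 0, 12], .l [6, 12, 10, 10, 8, 1, 2, 0, 9], .l [9, 12, 7, 7, 5, 1, 6, 4, 5, 9, 7, 5, 1], .l [6, 7, 0, 14]]),
([p 4 1, g, s 1 0, m 0 2, g, m 2 3, g, p 0 4, s 0 5, g, m 3 0, g, m 5 0, g], .lo 8, [.l [2, 9, 6], .l [2, 9, 6], .l [1, 9, 7, 8, 10, 6, 10, 5, 1, 6, 3], .l [1, 7, 5, 6, 8, 4, 8, 5, 1, 4, 1], .l [5, 9, 3], .l [5, 9, 3], .l [4, 7, 5, 1, 6, 4, 5], .l [7, 9, 1], .l [7, 9, 1], .l [6, 9, 2, 8, 10, 8, 8, 6, 1], .r 2537 [1, 2, 3, 4, 5, 6] [1, 1, 1, 1, 1, 1, 1], .l [10, 1, 11, 6, 6, 4, 1], .l [7, 12, 9, 9, 7, 1, 8, 6, 1], .l [7, 10,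 7, 7, 5, 1, 6, 4, 1], .l [4, 5, 3, 1, 9, 3, 9, 5, 2, 5], .l [2, 1, 11, 3, 6, 4, 9, 7, 4], .l [7, 10, 7, 7, 5, 1, 6, 4, 5], .y [8, 12], .l [4, 5, 3, 1, 9, 3, 9, 5, 2, 5], .l [2, 1, 11, 3, 6, 4, 9, 7, 4], .l [7, 10, 7, 7, 5, 1, 6, 4, 7]]),
([p 3 1, s 0 0, g, s 1 0, m 0 2, g, m 2 0, g, p 0 3, s 0 4, g, m 4 0, g], .hi 6, [.l [3, 2, 4], .l [7, 8, 6, 4, 7, 2, 3], .l [2, 10, 7, 4], .l [3, 7], .y [4, 6], .l [5, 8, 6, 2, 7, 4, 1], .l [5, 8, 6, 2, 7, 4, 1], .l [6, 7], .l [5, 6, 4, 2, 7, 4, 1], .l [5, 6, 4, 2, 7, 4, 1], .r 2536 [1, 2, 5, 3, 4] [1, 1, 1, 1, 1, 1], .l [5, 6, 4, 2, 5, 2, 1], .l [5, 6, 4, 2, 5, 2, 4], .l [5, 6, 4, 2, 5, 2, 6], .l [5, 6, 4, 2, 5, 2, 6], .r 2538 [1, 2, 5, 3, 4] [2, 1, 1, 1, 1, 1], .l [5, 6, 4, 2, 5,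 2, 8], .l [5, 6, 4, 2, 5, 2, 8], .l [11, 1, 12, 7, 7, 5, 2]]),
([p 5 1, s 0 2, g, s 1 0, m 0 3, g, m 3 4, g, p 0 5, s 0 6, g, m 4 0, g, s 6 0, g, s 2 0, g], .lo 9, [.l [3, 10, 6], .l [3, 10, 6], .l [2, 10, 7, 9, 11, 6, 11, 6, 1, 7, 4, 7], .l [3, 8, 4], .l [5, 8, 6, 2, 7, 4, 6, 11], .l [6, 10, 3], .l [5, 8, 6, 2, 7, 4, 6], .l [7, 10, 2, 9, 11, 9, 9, 7, 2, 9], .l [8, 10, 1], .l [7, 10, 2, 9, 11, 9, 9, 7, 2], .l [8, 13, 10, 12, 6, 1, 3, 7, 2, 9], .l [11, 1, 12, 7, 7, 5, 2], .l [8, 13, 10, 10, 8, 2, 9, 6, 1], .l [8, 11, 8, 8, 6, 2, 7, 4, 1], .l [5, 6, 4, 2, 10, 3, 11, 7, 2, 7], .l [8, 11, 8, 8, 6, 2, 12, 1, 7, 3, 6, 1], .l [8, 11, 8, 8, 6, 2, 7, 4, 7], .y [9, 13], .l [5, 6, 4, 2, 10, 3, 11, 7, 2, 7], .l [4, 13, 3, 6, 4,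 12, 10, 3, 1, 5, 2, 7], .l [8, 11, 8, 8, 6, 2, 7, 4, 9], .l [3, 2, 13, 1, 3, 6, 4, 9, 7, 4], .l [3, 2, 13, 15, 9, 4], .l [3, 2, 13, 1, 3, 6, 4, 11, 9, 4], .l [8, 11, 8, 8, 6, 2, 7, 4, 11]]),
([p 4 1, s 0 2, g, s 1 0, m 0 3, g, m 3 0, g, p 0 4, s 0 5, g, s 5 0, g, s 2 0, g], .hi 6, [.l [3, 2, 4], .l [7, 8, 6, 4, 7, 2, 3], .l [2, 10, 7, 4], .l [3, 7], .y [4, 6], .l [5, 8, 6, 2, 7, 4, 1], .l [5, 8, 6, 2, 7, 4, 1], .l [6, 7], .l [5, 6, 4, 2, 7, 4, 1], .l [3, 2, 13, 8, 1, 3, 8, 5], .l [5, 15, 10, 1, 12, 10, 1, 9, 6, 1], .l [3, 2, 11, 6, 1, 1, 6, 5], .l [5, 6, 4, 2, 5, 2, 4], .l [5, 6, 4, 2, 5, 2, 6], .l [5, 6, 4, 2, 5, 2, 6], .r 2540 [1, 2, 3, 6, 4, 5] [1, 1, 1, 1, 1, 1, 1], .l [5, 6, 4, 2, 5, 2, 8], .l [5, 6, 4, 2, 5, 2,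 8], .l [8, 13, 10, 12, 6, 1, 3, 7, 2, 7], .l [5, 6, 4, 2, 5, 2, 10], .l [3, 2, 11, 6, 11, 3, 8, 1], .l [8, 15, 12, 14, 8, 1, 5, 9, 2, 5]]),
([p 4 1, s 0 2, g, s 1 0, m 0 3, g, m 3 0, g, p 0 4, s 0 0, g, s 2 0, g], .hi 9, [.l [1, 8, 6], .l [3, 10, 6], .l [5, 4, 11, 9, 7, 4], .l [3, 10, 6], .l [4, 8, 3], .l [5, 8, 6, 2, 7, 4, 6, 7], .l [5, 8, 6, 2, 7, 4, 6], .l [6, 10, 3], .l [8, 10, 1], .l [3, 2, 11, 4, 2, 6], .l [8, 10, 1], .l [3, 2, 9, 2, 0, 4], .y [9], .r 2541 [1, 2, 3, 4, 5] [1, 1, 1, 1, 1, 1], .r 2532 [1, 2, 4, 5] [1, 4, 1, 1, 1], .r 2539 [1, 3, 4, 5] [1, 1, 1, 1, 3], .l [3, 2, 9, 11, 9, 4], .r 2530 [1, 2, 4, 5] [1, 4, 1, 1, 1], .l [3, 2, 9, 11, 9, 4]]),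
([p 3 1, s 0 0, g, s 1 0, m 0 2, g, m 2 0, g, p 0 3, s 0 0, g], .hi 1, [.y [1], .r 1024 [1, 4, 2, 3] [1, 1, 1, 1, 2], .l [2, 10, 7, 7, 4], .r 578 [1, 4, 3] [1, 1, 4, 2], .r 520 [1, 4, 3] [1, 0, 3, 2], .r 989 [1, 4, 3] [1, 2, 3, 2], .l [3, 2, 4], .r 520 [1, 4, 3] [1, 2, 3, 2], .r 989 [1, 4, 3] [1, 4, 1, 2], .l [3, 2, 6], .l [4, 10, 5, 1, 7, 2, 3], .l [3, 2, 6], .l [1, 8, 6], .r 2542 [1, 4, 2, 3] [1, 1, 1, 1, 1], .l [3, 2, 9], .r 852 [1, 4, 3] [1, 4, 2, 1]]),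
([p 3 1, g, s 1 0, m 0 2, g, m 2 0, g, p 0 3, s 0 0, g], .top 1, [.c, .r 2543 [1, 2, 3] [1, 1, 1, 1], .r 334 [] [9], .r 444 [] [9]]),
([p 3 1, s 0 0, g, s 1 0, m 0 2, g, p 0 3, s 5 4, g, s 0 5, g, m 2 0, g, m 4 0, g], .hi 1, [.y [1], .l [8, 13, 10, 4, 1, 10, 6, 1], .l [2, 8, 5, 5, 2], .r 578 [1, 6, 3] [1, 1, 2, 8], .l [4, 2, 5, 1, 9, 6, 6], .l [10, 13, 6, 2, 9, 6, 8, 3], .l [3, 2, 4], .l [6, 4, 7, 1, 11, 6, 8], .l [3, 2, 4], .l [10, 13, 6, 2, 7, 4, 6, 7], .l [3, 2, 7], .l [11, 3, 12, 5, 2, 8], .l [8, 11, 6, 2, 7, 4, 6, 5], .l [8, 13, 8, 2, 9, 6, 8, 5], .l [3, 2, 9], .l [8, 13, 8, 2, 9, 6, 8, 5], .l [8, 11, 6, 2, 7, 4, 6, 7], .l [3, 2, 11], .l [8, 13, 5, 10, 9, 9, 2, 5], .l [8, 11, 6, 2, 7, 4, 6, 9], .l [3, 2, 13], .l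 [8, 15, 7, 12, 11, 11, 2, 7]]),
([p 3 1, s 0 0, g, s 1 0, m 0 2, g, p 0 3, s 0 4, g, m 2 0, g, m 4 0, g], .lo 7, [.l [1, 6, 4], .l [3, 8, 4], .l [3, 8, 4], .l [0, 8, 7, 12, 3, 9, 5, 2, 5], .l [2, 6, 3, 5, 9, 3, 6, 2, 3], .l [6, 8, 1], .l [6, 8, 1], .l [5, 8, 2, 7, 9, 7, 2], .r 2545 [1, 2, 3, 4, 5] [1, 1, 1, 1, 1, 1], .l [9, 1, 10, 5, 2], .l [6, 11, 8, 2, 9, 6, 1], .l [6, 9, 6, 2, 7, 4, 1], .l [3, 2, 10, 3, 11, 7, 2, 7], .l [0, 6, 5, 10, 3, 11, 7, 2, 7], .l [6, 9, 6, 2, 7, 4, 7], .y [7, 11], .l [3, 2, 10, 3, 11, 7, 2, 7], .l [0, 6, 5, 10, 3, 11, 7, 2, 7], .l [6, 9, 6, 2, 7, 4, 9]]),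
([p 2 1, s 0 0, g, s 1 0, m 0 0, g, p 0 2, s 0 3, g, m 3 0, g], .hi 4, [.l [3, 2, 2], .l [5, 4, 7, 2, 3], .l [2, 8, 5, 2], .l [3, 5], .y [4], .l [3, 2, 7, 4, 1], .l [3, 2, 7, 4, 1], .r 2543 [1, 4, 2] [1, 1, 1, 3], .l [3, 2, 5, 2, 1], .l [3, 2, 5, 2, 4], .l [3, 2, 5, 2, 6], .l [3, 2, 5, 2, 6], .r 2546 [1, 4, 2, 3] [1, 1, 1, 1, 1], .l [3, 2, 5, 2, 8], .l [3, 2, 5, 2, 8], .l [9, 1, 10, 5, 2]]),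
([p 3 1, g, p 2 0, g, s 1 0, p 4 2, g, p 0 3, s 0 0, g, p 5 4, g, p 6 5, g, p 0 6, g], .hi 8, [.l [2, 9, 6], .l [4, 2, 9, 4, 6, 3, 8, 4, 5], .l [2, 9, 6], .l [4, 9, 4], .l [3, 9, 5, 8, 1, 3, 8, 4, 5], .l [4, 9, 4], .l [7, 9, 1], .l [6, 9, 2, 8, 10, 8, 3], .l [7, 9, 1], .l [6, 7, 0, 6, 8, 6, 3], .y [8], .l [9, 12, 7, 3, 8, 4, 7, 9, 3, 7, 3, 7, 3], .l [7, 12, 9, 3, 10, 6, 1], .l [10, 1, 11, 6, 3], .l [7, 10, 7, 3, 8, 4, 7, 9, 3, 7, 3, 7, 3], .l [7, 10, 7, 3, 8, 4, 7], .l [9, 5, 7, 8, 1, 6, 4, 9, 4, 6, 3], .l [7, 10, 7, 3, 8, 4, 9, 11, 9, 9, 3, 7, 3], .l [7, 10, 7, 3, 8, 4, 9], .l [11, 7, 9, 10, 6, 6, 1, 6, 4, 9, 4, 6, 3], .l [7, 10, 7, 3, 8, 4, 9], .l [11, 7, 9, 10, 6, 6, 1, 6, 4, 7, 2, 4, 5], .l [7, 10, 7, 3, 8, 4, 11],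 .l [9, 2, 9, 5, 3, 13, 6, 8, 5]]),
([p 3 1, g, p 2 0, g, s 1 0, p 4 2, g, p 0 3, s 0 0, g, p 5 4, g, p 0 5, g], .lo 12, [.l [13, 14, 12, 12, 7, 5, 8, 2, 5], .l [2, 13], .l [1, 9, 7, 12], .y [2, 12, 10, 5], .l [3, 9, 5, 12, 5, 7, 10, 6, 6, 2, 5], .l [4, 13], .l [3, 7, 5, 7, 5, 10], .l [3, 7, 3, 10, 5, 7, 8, 4, 4, 0, 3], .l [6, 9, 2, 12, 12, 10, 10, 6, 3], .l [7, 13], .l [6, 9, 2, 12], .l [7, 10, 7, 3, 8, 4, 7], .l [9, 12, 7, 3, 8, 4, 9], .l [10, 13], .l [9, 12, 7, 3, 8, 4, 9], .l [11, 14, 12, 12, 7, 3, 8, 4, 1], .l [12, 13], .l [11, 14, 12, 12, 7, 3, 8, 4, 1], .l [11, 12, 10, 10, 5, 3, 6, 2, 7], .r 2548 [1, 2, 3, 4, 5, 6] [1, 1, 1, 1, 1, 1, 1], .l [11, 12, 10, 10, 5, 3, 6, 2, 7]]),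
([p 3 1, g, p 2 0, g, s 1 0, p 4 2, g, p 0 3, s 0 0, g, p 0 4, g], .lo 10, [.l [11, 12, 7, 5, 8, 2, 5], .l [2, 11], .l [1, 9, 7, 10], .y [2, 10, 5], .l [3, 9, 5, 10, 3, 5, 8, 2, 5], .l [4, 11], .l [3, 7, 5, 7, 5, 8], .l [3, 7, 3, 8, 3, 5, 6, 0, 3], .l [6, 9, 2, 10, 10, 6, 3], .l [7, 11], .l [6, 9, 2, 10], .l [7, 10, 7, 3, 8, 4, 1], .l [9, 12, 7, 3, 8, 4, 1], .l [10, 11], .l [9, 12, 7, 3, 8, 4, 1], .l [9, 10, 5, 3, 6, 2, 7], .r 2549 [1, 2, 3, 4, 5] [1, 1, 1, 1, 1, 1], .l [9, 10, 5, 3, 6, 2, 7]]),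
([p 2 1, g, s 1 0, p 3 0, g, p 0 2, s 0 0, g, p 0 3, g], .hi 3, [.l [5, 2, 6, 1, 8, 4, 5], .r 2550 [1, 4, 2, 3] [1, 1, 1, 1, 1], .l [5, 2], .l [5, 1, 9, 7, 1], .l [3, 4], .l [5, 1], .l [3, 4], .l [3, 5, 1], .l [8, 4, 7, 5, 7, 4, 1], .l [3, 7], .l [8, 4], .y [3, 8], .l [2, 1, 9, 6, 1, 6, 1], .l [3, 9], .l [10, 6]]),
([p 4 1, g, s 1 0, p 2 0, g, p 3 2, g, p 6 3, g, p 0 4, s 0 5, g, p 0 6, g, m 5 0, g], .lo 10, [.l [1, 11, 9, 10, 12, 8, 8, 6, 10, 5, 1, 6, 3], .l [2, 11, 8], .l [1, 11, 9, 10, 12, 8, 8, 6, 10, 5, 1, 6, 3], .l [1, 9, 7, 8, 10, 6, 6, 4, 8, 5, 1, 4, 1], .l [3, 9, 5], .l [4, 7, 5, 1, 8, 6, 7, 9, 5, 5, 3, 7, 5], .l [5, 11, 5], .l [4, 7, 5, 1, 8, 6, 7], .l [6, 9, 7, 7, 5, 1, 6, 4, 5, 7, 3, 7, 5], .l [7, 11, 3],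 .l [6, 9, 7, 7, 5, 1, 6, 4, 5], .l [8, 11, 2, 10, 12, 10, 10, 8, 8, 6, 1, 7, 3], .l [9, 11, 1], .l [8, 11, 2, 10, 12, 10, 10, 8, 8, 6, 1], .l [11, 14, 9, 9, 7, 7, 5, 1, 6, 4, 5, 7, 1], .l [12, 1, 13, 8, 8, 6, 6, 4, 1], .l [9, 14, 11, 11, 9, 9, 7, 1, 8, 6, 1], .l [3, 14, 3, 15, 11, 5, 1, 6, 1, 3, 7, 3, 5], .l [2, 1, 13, 3, 6, 4, 11, 9, 6], .l [9, 12, 9, 9, 7, 7, 5, 1, 6, 4, 5], .y [10, 14], .l [9, 12, 9, 9, 7, 7, 5, 1, 8, 5, 3, 4, 5], .l [2, 1, 13, 3, 6, 4, 11, 9, 6], .l [9, 12, 9, 9, 7, 7, 5, 1, 6, 4, 7]]),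
([p 6 1, s 0 2, g, s 1 0, p 3 0, g, p 4 3, g, p 5 4, g, p 0 5, g, p 0 6, g, s 0 7, g, m 7 0, g, s 2 0, g], .lo 10, [.l [11, 12, 10, 10, 8, 8, 6, 4, 7, 2, 3], .l [3, 11], .l [0, 4, 1, 9, 9, 7, 7, 5, 5, 3, 5, 4, 9], .l [8, 10, 9, 9, 7, 9, 3, 1, 5, 2, 9, 7, 1], .y [4, 10, 8, 6], .l [5, 8, 6, 2, 11, 8, 5], .l [6, 11], .l [3, 2, 18, 13, 5, 5, 3, 3, 1, 9, 7, 1, 7], .l [7, 10, 8, 8, 6, 2, 9, 6, 3], .l [8, 11], .l [4, 6, 5, 2, 17, 11, 3, 3, 1, 9, 7, 1, 7], .l [9, 12, 10, 10, 8, 8, 6, 2, 7, 4, 1], .l [10, 11], .l [6, 8, 7, 7, 5, 2, 15, 9, 1, 9, 7, 1, 7], .l [9, 10, 8, 8, 6, 6, 4, 2, 7, 4, 1], .l [8, 10, 9, 9, 7, 11, 5, 1, 7, 2, 11, 7, 1], .l [7, 8, 6, 6, 4, 2, 14, 9, 1, 3, 8, 5], .l [9, 10, 8, 8, 6, 6, 4, 2, 5, 2, 5], .l [6,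 12, 5, 1, 9, 11, 3, 1, 7, 2, 11, 7, 1], .l [8, 10, 9, 9, 7, 9, 3, 1, 5, 2, 11, 7, 1], .l [9, 10, 8, 8, 6, 6, 4, 2, 5, 2, 7], .l [6, 12, 5, 1, 9, 13, 5, 1, 9, 2, 11, 7, 3], .l [8, 10, 9, 9, 7, 9, 3, 1, 5, 2, 11, 7, 3], .l [8, 10, 9, 9, 7, 9, 3, 1, 5, 2, 9, 5, 3], .l [9, 10, 8, 8, 6, 6, 4, 2, 5, 2, 9], .l [6, 12, 5, 1, 9, 15, 7, 1, 11, 2, 11, 7, 5], .l [8, 10, 9, 9, 7, 9, 3, 1, 5, 2, 11, 7, 5], .l [8, 10, 9, 9, 7, 9, 3, 1, 5, 2, 9, 9, 3], .l [9, 10, 8, 8, 6, 6, 4, 2, 5, 2, 11], .l [6, 12, 5, 1, 9, 17, 9, 1, 13, 2, 5, 1, 9], .l [6, 8, 7, 7, 5, 2, 13, 7, 13, 3, 9, 5, 9]]),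
([p 5 1, s 0 0, g, s 1 0, p 2 0, g, p 3 2, g, p 4 3, g, p 0 4, g, p 0 5, s 0 6, g, m 6 0, g], .hi 1, [.y [1], .r 1032 [1, 7, 2, 3, 4, 5] [1, 1, 1, 1, 1, 1, 4], .l [2, 14, 11, 11, 8], .l [9, 10, 8, 15, 1, 10, 1, 3, 9, 7, 2, 7, 2], .r 989 [1, 7, 5] [1, 2, 7, 4], .l [3, 2, 4], .l [17, 1, 13, 14, 10, 12, 10, 10, 8, 8, 6, 8, 6], .r 989 [1, 7, 5] [1, 4, 5, 4], .l [3, 2, 6], .l [4, 14, 9, 1, 11, 2, 7], .r 989 [1, 7, 5] [1, 6, 3, 4], .l [3, 2, 8], .l [4, 14, 9, 1, 11, 2, 5], .l [3, 2, 8], .r 989 [1, 7, 5] [1, 8, 1, 4], .l [3, 2, 10], .l [4, 14, 9, 1, 11, 2, 3], .l [3, 2, 10], .l [1, 12, 10], .l [3, 2, 13, 15, 13, 8], .l [3, 2, 13], .l [5, 15, 10, 1, 12, 10, 1, 9, 4], .r 2553 [1, 7, 2, 3, 4, 5, 6] [1, 1, 1, 1, 1, 0, 1, 1, 1],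 .l [3, 2, 15], .l [5, 17, 12, 1, 14, 12, 1, 11, 6]]),
([p 4 1, s 0 0, g, s 1 0, p 2 0, g, p 3 2, g, p 0 3, g, p 0 4, s 0 5, g, m 5 0, g], .lo 8, [.l [3, 2, 6], .l [9, 10, 8, 8, 6, 4, 7, 2, 3], .l [3, 9], .l [2, 12, 9, 6], .l [13, 1, 9, 4, 4, 2, 2, 0, 5], .y [4, 8, 6], .l [5, 8, 6, 2, 9, 6, 3], .l [6, 9], .l [5, 8, 6, 2, 9, 6, 3], .l [7, 10, 8, 8, 6, 2, 7, 4, 1], .l [8, 9], .l [7, 10, 8, 8, 6, 2, 7, 4, 1], .l [7, 8, 6, 6, 4, 2, 7, 4, 1], .r 2554 [1, 2, 3, 6, 4, 5] [1, 1, 1, 1, 1, 1, 1], .l [7, 8, 6, 6, 4, 2, 7, 4, 1], .l [7, 8, 6, 6, 4, 2, 5, 2, 6], .r 2552 [1, 2, 3, 4, 5, 6] [2, 1, 1, 1, 1, 1, 1], .l [7, 8, 6, 6, 4, 2, 5, 2, 6], .l [7, 8, 6, 6, 4, 2, 5, 2, 6], .l [7, 8, 6, 6, 4, 2, 5, 2, 8], .l [13, 1, 14, 9, 9, 7, 7,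 5, 2], .l [7, 8, 6, 6, 4, 2, 5, 2, 8]]),
([p 3 1, g, s 1 0, p 2 0, g, p 6 2, g, p 0 3, s 5 4, g, s 0 5, g, p 0 6, g, m 4 0, g], .lo 7, [.l [8, 14, 12, 12, 10, 3, 4, 0, 1], .l [2, 8], .l [1, 9, 7, 6], .y [0, 2, 7], .l [3, 6], .l [4, 7, 5, 1, 6, 4, 3], .l [5, 8], .l [4, 7, 5, 1, 6, 4, 3], .l [6, 14, 12, 12, 10, 1, 4, 2, 1], .l [7, 8], .l [6, 9, 2, 1], .l [6, 7, 0, 8, 12, 8, 8, 6, 1], .l [11, 14, 7, 7, 5, 1, 6, 4, 5, 7, 5, 7, 3], .l [6, 7, 0, 8], .l [6, 7, 0, 10, 12, 6, 6, 4, 1], .l [9, 12, 9, 9, 2, 8, 10, 8, 8, 6, 1, 7, 3], .l [6, 7, 0, 10], .l [6, 12, 10, 10, 8, 1, 2, 0, 7], .l [9, 12, 7, 7, 5, 1, 6, 4, 5, 7, 5, 7, 3], .l [6, 7, 0, 12], .l [6, 7, 0, 12], .l [6, 12, 10, 10, 8, 1, 2, 0, 9], .l [9, 12, 7, 7, 5, 1, 6, 4,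 5, 9, 7, 5, 1], .l [6, 7, 0, 14]]),
([p 3 1, g, s 1 0, p 2 0, g, p 5 2, g, p 0 3, s 0 4, g, p 0 5, g, m 4 0, g], .lo 8, [.l [2, 9, 6], .l [2, 9, 6], .l [1, 9, 7, 8, 10, 6, 10, 5, 1, 6, 3], .l [1, 7, 5, 6, 8, 4, 8, 5, 1, 4, 1], .l [3, 7, 3], .l [5, 9, 3], .l [5, 9, 3], .l [4, 7, 5, 1, 6, 4, 5], .l [7, 9, 1], .l [7, 9, 1], .l [6, 9, 2, 8, 10, 8, 8, 6, 1], .r 2556 [1, 2, 3, 4, 6, 5] [1, 1, 1, 1, 1, 1, 1], .l [10, 1, 11, 6, 6, 4, 1], .l [7, 12, 9, 9, 7, 1, 8, 6, 1], .l [4, 5, 3, 1, 9, 3, 9, 5, 2, 5], .l [2, 1, 11, 3, 6, 4, 9, 7, 4], .l [7, 10, 7, 7, 5, 1, 6, 4, 5], .y [8, 12], .l [4, 5, 3, 1, 9, 3, 9, 5, 2, 5], .l [2, 1, 11, 3, 6, 4, 9, 7, 4], .l [7, 10, 7, 7, 5, 1, 6, 4, 7]]),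
([p 3 1, s 0 0, g, s 1 0, p 2 0, g, p 0 2, g, p 0 3, s 0 4, g, m 4 0, g], .lo 6, [.l [3, 2, 4], .l [7, 8, 6, 4, 7, 2, 3], .l [3, 7], .l [2, 10, 7, 4], .l [0, 2, 10, 1, 4, 5, 4], .y [4, 6], .l [5, 8, 6, 2, 7, 4, 1], .l [6, 7], .l [5, 8, 6, 2, 7, 4, 1], .l [5, 6, 4, 2, 7, 4, 1], .r 2555 [1, 2, 5, 3, 4] [1, 1, 1, 1, 1, 1], .l [5, 6, 4, 2, 7, 4, 1], .l [5, 6, 4, 2, 5, 2, 6], .r 2557 [1, 2, 3, 4, 5] [2, 1, 1, 1, 1, 1], .l [5, 6, 4, 2, 5, 2, 6], .l [5, 6, 4, 2, 5, 2, 6], .l [5, 6, 4, 2, 5, 2, 8], .l [11, 1, 12, 7, 7, 5, 2], .l [5, 6, 4, 2, 5, 2, 8]]),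
([p 4 1, s 0 2, g, s 1 0, p 3 0, g, p 6 3, g, p 0 4, s 0 5, g, p 0 6, g, s 5 0, g, s 2 0, g], .lo 9, [.l [3, 10, 6], .l [3, 10, 6], .l [2, 10, 7, 9, 11, 6, 11, 6, 1, 7, 4, 7], .l [3, 8, 4], .l [4, 8, 3], .l [5, 8, 6, 2, 7, 4, 6, 11], .l [6, 10, 3], .l [5, 8, 6, 2, 7, 4, 6], .l [7, 10, 2, 9, 11, 9, 9, 7, 2, 9], .l [8, 10, 1], .l [7, 10, 2, 9, 11, 9, 9, 7, 2], .l [8, 13, 10, 12, 6, 1, 3, 7, 2, 9], .l [11, 1, 12, 7, 7, 5, 2], .l [8, 13, 10, 10, 8, 2, 9, 6, 1], .l [5, 6, 4, 2, 10, 3, 11, 7, 2, 7], .l [8, 11, 8, 8, 6, 2, 12, 1, 7, 3, 6, 1], .l [8, 11, 8, 8, 6, 2, 7, 4, 7], .y [9, 13], .l [5, 6, 4, 2, 10, 3, 11, 7, 2, 7], .l [4, 13, 3, 6, 4, 12, 10, 3, 1, 5, 2, 7], .l [8, 11, 8, 8, 6, 2, 7, 4, 9], .l [3, 2, 13, 1, 3, 6, 4,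 9, 7, 4], .l [3, 2, 13, 15, 9, 4], .l [3, 2, 13, 1, 3, 6, 4, 11, 9, 4], .l [8, 11, 8, 8, 6, 2, 7, 4, 11]])]

def D09 : List (List (List Item × Qry × List Rf)) := [d09_0, d09_1, d09_2, d09_3]

end Pool.Agent.H63.PU.C161
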