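import Pool.Agent.H63.PU.Ck3

/-! Certificate data, machine generated. -/

namespace Pool.Agent.H63.PU.C161

open Pool.Agent.H63.PU Pool.Agent.H63.PU.Ck3 Pool.Agent.H63.PU.Short

set_option maxRecDepth 20000

def d10_0 : List (List Item × Qry × List Rf) := [
([p 4 1, s 0 2, g, s 1 0, p 3 0, g, p 0 3, g, p 0 4, s 0 5, g, s 5 0, g, s 2 0, g], .lo 6, [.l [7, 8, 6, 4, 7, 2, 3], .l [3, 7], .l [2, 10, 7, 4], .l [0, 2, 1, 11, 6, 7, 6, 6, 4, 1], .y [4, 6], .l [5, 8, 6, 2, 7, 4, 1], .l [6, 7], .l [5, 8, 6, 2, 7, 4, 1], .l [5, 6, 4, 2, 7, 4, 1], .l [5, 15, 10, 1, 12, 10, 1, 9, 6, 1], .l [3, 2, 13, 8, 1, 3, 8, 5], .l [5, 6, 4, 2, 5, 2, 6], .r 2559 [1, 2, 3, 4, 5, 6] [1, 1, 1, 1, 1, 1, 1], .l [5, 6, 4, 2, 5, 2, 6], .l [5, 6, 4, 2,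 5, 2, 6], .l [5, 6, 4, 2, 5, 2, 8], .l [8, 13, 10, 12, 6, 1, 3, 7, 2, 7], .l [5, 6, 4, 2, 5, 2, 8], .l [5, 6, 4, 2, 5, 2, 8], .l [5, 6, 4, 2, 5, 2, 10], .l [8, 15, 12, 14, 8, 1, 5, 9, 2, 5], .l [3, 2, 11, 6, 11, 3, 8, 1]]),
([p 4 1, s 0 2, g, s 1 0, p 3 0, g, p 0 3, g, p 0 4, s 0 0, g, s 2 0, g], .hi 9, [.l [1, 8, 6], .l [3, 10, 6], .l [5, 4, 11, 9, 7, 4], .l [3, 10, 6], .l [5, 8, 6, 2, 7, 4, 6, 7], .l [5, 8, 6, 2, 7, 4, 6], .l [6, 10, 3], .l [5, 6, 4, 2, 5, 2, 4], .l [8, 10, 1], .l [3, 2, 11, 4, 2, 6], .l [8, 10, 1], .l [3, 2, 9, 2, 0, 4], .y [9], .r 2560 [1, 2, 3, 4, 5] [1, 1, 1, 1, 1, 1], .r 2532 [1, 2, 4, 5] [1, 4, 1, 1, 1], .r 2558 [1, 3, 4, 5] [1, 1, 1, 1, 3], .l [3, 2, 9, 11, 9, 4], .r 2530 [1, 2, 4, 5] [1, 4,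 1, 1, 1], .l [3, 2, 9, 11, 9, 4]]),
([p 3 1, s 0 0, g, s 1 0, p 2 0, g, p 0 2, g, p 0 3, s 0 0, g], .hi 1, [.y [1], .r 1037 [1, 4, 2, 3] [1, 1, 1, 1, 2], .l [2, 10, 7, 7, 4], .r 578 [1, 4, 3] [1, 1, 4, 2], .r 989 [1, 4, 3] [1, 2, 3, 2], .l [3, 2, 4], .r 520 [1, 4, 3] [1, 2, 3, 2], .l [3, 2, 4], .r 989 [1, 4, 3] [1, 4, 1, 2], .l [3, 2, 6], .l [4, 10, 5, 1, 7, 2, 3], .l [3, 2, 6], .l [1, 8, 6], .r 2561 [1, 4, 2, 3] [1, 1, 1, 1, 1], .l [3, 2, 9], .r 852 [1, 4, 3] [1, 4, 2, 1]]),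
([p 3 1, g, s 1 0, p 2 0, g, p 0 2, g, p 0 3, s 0 0, g], .top 1, [.c, .r 2562 [1, 2, 3] [1, 1, 1, 1], .r 334 [] [9], .r 444 [] [9]]),
([p 2 1, g, s 1 0, p 0 0, g, p 0 2, s 0 0, g], .lo 3, [.l [4, 3, 6, 2, 3], .l [2, 4], .l [1, 7, 5, 2], .c, .y [3], .l [2, 1, 6, 4, 1], .r 2563 [1, 3, 2] [1, 1, 1, 1], .l [2, 1, 6, 4, 1], .l [2, 1, 4, 2, 3], .l [2, 1, 4, 2, 5], .r 2551 [1, 2, 3] [1, 1, 1, 1], .l [2, 1, 4, 2, 5]]),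
([p 3 1, s 0 2, g, s 1 0, g, p 0 3, s 5 4, g, m 0 5, g, m 4 0, g, s 2 0, g], .lo 1, [.l [14, 12, 3, 11, 8, 10, 8, 1], .r 1556 [1, 6, 3] [1, 1, 1, 8], .l [2, 7, 4, 4, 1], .l [2, 5, 2, 2, 1], .l [3, 2, 12, 8, 10, 1, 6, 1], .l [14, 12, 1, 11, 8, 10, 8, 1], .l [3, 2, 3], .l [3, 2, 6, 10, 8, 1], .l [8, 6, 7, 3, 6], .l [3, 2, 6], .l [3, 2, 8, 1, 1, 8, 6, 1], .l [10, 8, 9, 5, 1], .l [3, 2, 8], .l [3, 2, 8], .l [12, 10, 11, 7, 1, 10, 4, 1], .l [12, 10, 11, 7, 1], .l [3, 2, 10], .y [1, 12], .l [12, 10, 11, 7, 1, 10, 4, 1], .l [12, 10, 11, 7, 1, 10, 4, 1], .l [3, 2, 12]]),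
([p 3 1, s 0 2, g, s 1 0, g, p 0 3, s 5 4, g, m 4 0, g, s 2 0, g, m 0 5, g], .lo 1, [.l [12, 10, 3, 9, 6, 8, 6, 7], .l [12, 10, 11, 5, 10, 1, 4, 1], .l [2, 7, 4, 4, 1], .l [2, 5, 2, 2, 1], .l [3, 2, 10, 6, 8, 1, 4, 7], .l [12, 10, 11, 5, 10, 3, 4, 1], .l [3, 2, 3], .l [3, 2, 6, 8, 6, 1], .l [8, 6, 7, 3, 10], .l [3, 2, 6], .l [3, 2, 6], .l [10, 8, 9, 5, 10, 1, 4, 1], .l [10, 8, 9, 5, 10], .l [3, 2, 8], .y [1, 10], .l [10, 8, 9, 5, 10, 1, 4, 1], .l [12, 10, 11, 7, 10], .l [3, 2, 10], .l [3, 2, 12, 3, 10, 6, 1, 6, 4, 1], .l [14, 12, 13, 9, 5], .l [3, 2, 12]]),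
([p 2 1, s 0 0, g, s 1 0, s 5 0, g, p 0 2, s 4 3, g, s 0 4, g, p 0 5, g, m 3 0, g], .lo 1, [.y [1], .l [2, 11, 1, 13, 11, 5, 5, 2], .r 1556 [1, 6, 2] [1, 1, 2, 8], .l [2, 8, 5, 5, 2], .l [2, 6, 3, 3, 2], .l [3, 2, 2, 9, 6, 8, 6, 1], .l [5, 11, 1, 13, 11, 2, 2, 3], .l [10, 13, 6, 2, 9, 6, 8, 3], .l [3, 2, 4], .l [3, 2, 7, 9, 7, 2], .l [11, 3, 12, 5, 2, 8], .l [3, 2, 7], .l [3, 2, 9, 1, 1, 11, 9, 2], .l [8, 13, 8, 2, 9, 6, 8, 5], .l [3, 2, 9], .l [3, 2, 11, 3, 3, 11, 7, 2], .l [8, 13, 5, 10, 9, 9, 2, 5], .l [3, 2, 11], .l [3, 2, 11], .r 2444 [1, 2, 5, 6] [1, 1, 4, 3, 1], .l [8, 15, 7, 12, 11, 11, 2, 7], .l [3, 2, 13]]),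
([p 3 1, g, s 1 0, s 2 0, g, p 0 2, g, p 0 3, s 5 4, g, s 0 5, g, m 4 0, g], .hi 3, [.l [4, 3, 11, 1, 11, 9, 4, 5], .l [7, 1, 4, 2, 3], .l [4, 3, 8, 4, 5], .l [2, 1, 11, 1, 11, 9, 6, 1], .l [2, 1, 8, 6, 1], .l [5, 1, 6, 4, 1], .y [3, 5], .l [2, 1, 11, 1, 11, 9, 6, 3], .l [2, 1, 8, 6, 3], .l [5, 1, 6, 4, 1], .l [2, 1, 6, 4, 3], .l [10, 6, 9, 5, 8, 1, 4, 1], .l [2, 1, 6, 4, 7], .l [5, 1, 9, 7, 1], .l [3, 9, 9, 7, 3, 1, 4, 1], .l [2, 1, 9, 1, 11, 9, 4, 5], .l [2, 1, 6, 4, 9], .l [5, 1, 11, 9, 1], .l [2, 1, 9, 1, 9, 7, 4, 7], .l [2, 1, 6, 4, 11], .l [5, 1, 13, 11, 1]]),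
([p 3 1, s 0 2, g, s 1 0, s 0 0, g, p 0 3, s 5 4, g, s 0 5, g, m 4 0, g, s 2 0, g], .lo 4, [.l [5, 4, 10, 1, 11, 9, 2, 3], .l [5, 4, 7, 2, 3], .l [13, 3, 9, 2, 9, 10], .c, .y [4], .l [5, 8, 2, 5, 2, 11], .r 2568 [1, 6, 3, 4, 5] [2, 1, 1, 1, 1, 3], .l [3, 2, 7, 4, 1], .l [3, 2, 10, 3, 11, 7, 2, 7], .l [3, 2, 10, 3, 11, 7, 2, 7], .l [3, 2, 5, 2, 6], .l [3, 2, 8, 1, 11, 9, 2, 5], .r 2567 [1, 3, 4, 5, 6] [1, 1, 1, 1, 1, 3], .l [3, 2, 5, 2, 8], .l [3, 2, 5, 2, 8], .l [3, 2, 8, 1, 9, 7, 2, 7], .l [11, 3, 12, 5, 2, 10], .l [3, 2, 5, 2, 10], .l [3, 2, 8, 1, 9, 7, 2, 7], .l [3, 2, 8, 1, 9, 7, 2, 9], .l [11, 3, 14, 7, 2, 3], .l [3, 2, 5, 2, 12]]),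
([p 3 1, s 0 2, g, s 1 0, g, p 0 3, s 5 4, g, m 4 0, g, m 0 5, g, s 2 0, g], .lo 1, [.l [14, 12, 3, 11, 8, 10, 8, 3], .r 1556 [1, 6, 3] [1, 1, 1, 8], .l [2, 7, 4, 4, 1], .l [2, 5, 2, 2, 1], .l [3, 2, 12, 8, 10, 1, 6, 3], .l [10, 1, 6, 7, 4, 6, 4, 5], .l [3, 2, 3], .l [3, 2, 6, 8, 6, 1], .l [8, 6, 7, 3, 8], .l [3, 2, 6], .l [3, 2, 6], .l [3, 2, 12, 3, 10, 6, 1, 6, 4, 1], .l [10, 8, 9, 5, 8], .l [3, 2, 8], .l [12, 10, 11, 7, 3, 10, 4, 1], .l [12, 10, 11, 7, 3], .l [3, 2, 10], .y [1, 12], .l [12, 10, 11, 7, 3, 10, 4, 1], .l [12, 10, 11, 7, 3, 10, 4, 1], .l [3, 2, 12]]),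
([p 3 1, s 0 2, g, s 1 0, s 0 0, g, p 0 3, s 5 4, g, m 4 0, g, s 0 5, g, s 2 0, g], .hi 4, [.l [9, 1, 5, 6, 4, 5, 3, 4], .l [5, 4, 10, 1, 11, 9, 2, 3], .l [11, 1, 7, 2, 7, 10], .l [5, 4, 7, 2, 3], .y [4], .l [5, 8, 2, 5, 2, 11], .l [3, 2, 7, 4, 1], .r 2057 [1, 6, 3] [1, 1, 1, 8], .l [3, 2, 5, 2, 1], .l [7, 12, 3, 7, 2, 10, 6, 4, 5], .l [3, 2, 5, 2, 6], .l [3, 2, 10, 3, 11, 7, 2, 7], .l [3, 2, 8, 1, 11, 9, 2, 5], .l [3, 2, 5, 2, 8], .l [9, 1, 10, 5, 2, 10], .l [9, 1, 10, 5, 2, 8, 4, 2, 3], .l [3, 2, 8, 1, 9, 7, 2, 7], .l [3, 2, 5, 2, 10], .l [9, 1, 12, 7, 2, 10], .l [3, 2, 8, 1, 9, 7, 2, 9], .l [3, 2, 5, 2, 12], .l [9, 1, 14, 9, 2, 5]]),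
([p 3 1, s 0 2, g, s 1 0, s 0 0, g, p 0 3, s 0 4, g, m 4 0, g, s 2 0, g], .lo 7, [.l [3, 8, 4], .l [3, 8, 4], .l [5, 4, 11, 9, 5, 2], .l [3, 6, 2], .l [3, 2, 5, 2, 4, 7], .l [6, 8, 1], .l [6, 8, 1], .l [3, 2, 11, 6, 2, 6], .r 2569 [1, 2, 3, 4, 5] [1, 1, 1, 1, 1, 1], .l [3, 2, 8, 1, 9, 7, 2], .r 2565 [1, 2, 3, 4, 5] [1, 2, 1, 1, 1, 1], .y [7, 9], .r 2571 [1, 2, 3, 4, 5] [1, 1, 1, 1, 1, 1], .l [3, 2, 8, 1, 9, 7, 2], .r 2570 [1, 2, 3, 4, 5] [1, 2, 1, 1, 1, 1], .l [3, 2, 9, 9, 5, 2], .l [3, 2, 9, 11, 7, 2], .l [3, 2, 9, 11, 7, 2], .r 2566 [1, 2, 3, 4, 5] [1, 2, 1, 1, 1, 1]]),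
([p 2 1, s 0 0, g, s 1 0, s 0 0, g, p 0 2, s 0 3, g, m 3 0, g], .hi 1, [.y [1], .r 1052 [1, 4, 2] [1, 1, 1, 4], .l [2, 8, 5, 5, 2], .r 578 [1, 4, 2] [1, 1, 2, 4], .r 989 [1, 4, 2] [1, 0, 1, 4], .r 989 [1, 4, 2] [1, 2, 1, 4], .l [3, 2, 4], .r 520 [1, 4, 2] [1, 2, 1, 4], .l [3, 2, 4], .l [1, 6, 4], .l [3, 2, 7, 9, 7, 2], .l [3, 2, 7], .r 852 [1, 4, 2] [1, 2, 2, 3], .r 2572 [1, 4, 2, 3] [1, 1, 1, 1, 1], .l [3, 2, 9], .r 852 [1, 4, 2] [1, 2, 4, 1]]),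
([p 2 1, s 0 0, g, s 1 0, g, p 0 2, s 0 3, g, m 3 0, g], .top 4, [.r 1003 [1, 2] [2, 4], .r 2573 [1, 2, 3] [1, 1, 1, 1], .r 2564 [1, 2] [2, 1, 3], .r 2547 [1, 2, 3] [1, 1, 1, 1]]),
([p 2 1, g, s 1 0, g, p 0 2, s 0 3, g, m 3 0, g], .top 1, [.c, .r 2574 [1, 2, 3] [1, 1, 1, 1], .r 334 [] [8], .r 444 [] [8]]),
([p 4 1, g, m 0 2, g, s 1 0, m 2 3, g, p 0 4, s 0 0, g, m 3 5, g, m 5 6, g, m 6 0, g], .hi 8, [.l [2, 9, 6], .l [4, 2, 9, 4, 6, 3, 8, 4, 5], .l [2, 9, 6], .l [2, 7, 4], .l [4, 9, 4], .l [3, 9, 5, 8, 1, 3, 8, 4, 5], .l [4, 9, 4], .l [7, 9, 1], .l [6, 9, 2, 8, 10, 8, 3], .l [7, 9, 1], .l [6, 7, 0, 6, 8, 6, 3], .y [8], .l [9, 12, 7, 3, 8, 4, 7, 9, 3, 7, 3, 7, 3], .l [7, 12, 9, 3, 10, 6, 1], .l [10, 1, 11, 6, 3], .l [7,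 10, 7, 3, 8, 4, 7, 9, 3, 7, 3, 7, 3], .l [7, 10, 7, 3, 8, 4, 7], .l [9, 5, 7, 8, 1, 6, 4, 9, 4, 6, 3], .l [7, 10, 7, 3, 8, 4, 9, 11, 9, 9, 3, 7, 3], .l [7, 10, 7, 3, 8, 4, 9], .l [11, 7, 9, 10, 6, 6, 1, 6, 4, 9, 4, 6, 3], .l [11, 7, 9, 10, 6, 6, 1, 6, 4, 7, 2, 4, 5], .l [7, 10, 7, 3, 8, 4, 11], .l [9, 2, 9, 5, 3, 13, 6, 8, 5]]),
([p 4 1, g, m 0 2, g, s 1 0, m 2 3, g, p 0 4, s 0 0, g, m 3 5, g, m 5 0, g], .hi 12, [.l [13, 14, 12, 12, 7, 5, 8, 2, 5], .l [1, 9, 7, 12], .l [2, 13], .y [2, 5, 10, 12], .l [3, 9, 5, 12, 5, 7, 10, 6, 6, 2, 5], .l [3, 7, 5, 7, 5, 10], .l [4, 13], .l [6, 9, 2, 12, 12, 10, 10, 6, 3], .l [6, 9, 2, 12], .l [7, 13], .l [6, 7, 0, 10], .l [7, 10, 7, 3, 8, 4, 7], .l [9, 12, 7, 3, 8, 4, 9], .l [9, 12,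 7, 3, 8, 4, 9], .l [10, 13], .l [11, 14, 12, 12, 7, 3, 8, 4, 1], .l [11, 14, 12, 12, 7, 3, 8, 4, 1], .l [12, 13], .l [11, 12, 10, 10, 5, 3, 6, 2, 7], .l [11, 12, 10, 10, 5, 3, 6, 2, 7], .r 2576 [1, 2, 3, 4, 5, 6] [1, 1, 1, 1, 1, 1, 1]]),
([p 4 1, g, m 0 2, g, s 1 0, m 2 3, g, p 0 4, s 0 0, g, m 3 0, g], .hi 10, [.l [11, 12, 7, 5, 8, 2, 5], .l [1, 9, 7, 10], .l [2, 11], .y [2, 5, 10], .l [3, 9, 5, 10, 3, 5, 8, 2, 5], .l [3, 7, 5, 7, 5, 8], .l [4, 11], .l [6, 9, 2, 10, 10, 6, 3], .l [6, 9, 2, 10], .l [7, 11], .l [6, 7, 0, 8], .l [7, 10, 7, 3, 8, 4, 1], .l [9, 12, 7, 3, 8, 4, 1], .l [9, 12, 7, 3, 8, 4, 1], .l [10, 11], .l [9, 10, 5, 3, 6, 2, 7], .l [9, 10, 5, 3, 6, 2, 7], .r 2577 [1, 2, 3, 4, 5] [1, 1, 1, 1, 1, 1]]),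
([p 3 1, g, s 1 0, m 0 2, g, p 0 3, s 0 0, g, m 2 0, g], .lo 3, [.l [5, 2, 6, 1, 8, 4, 5], .l [5, 2], .r 2578 [1, 4, 2, 3] [1, 1, 1, 1, 1], .r 1068 [1, 4, 3] [1, 0, 1, 4], .l [5, 1, 9, 7, 1], .l [5, 1], .l [3, 4], .l [3, 5, 1], .l [8, 4, 7, 5, 7, 4, 1], .l [8, 4], .l [3, 7], .y [3, 8], .l [2, 1, 9, 6, 1, 6, 1], .l [10, 6], .l [3, 9]]),
([p 2 1, g, s 1 0, m 0 0, g, p 0 2, s 0 0, g], .hi 3, [.l [4, 3, 6, 2, 3], .l [1, 7, 5, 2], .l [2, 4], .y [3], .l [2, 1, 6, 4, 1], .l [2, 1, 6, 4, 1], .r 2544 [1, 3, 2] [1, 1, 1, 1], .l [2, 1, 4, 2, 1], .l [2, 1, 4, 2, 3], .l [2, 1, 4, 2, 5], .l [2, 1, 4, 2, 5], .r 2579 [1, 3, 2] [1, 1, 1, 1]]),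
([p 2 0, s 0 1, g, s 1 0, g, p 0 2], .hi 0, [.c, .r 989 [3, 1, 2] [1, 1, 1, 0], .l [0, 2], .l [3, 2], .r 1053 [3, 1, 2] [1, 1, 1, 0], .l [0, 4], .l [5, 4], .y [0, 5]]),
([p 1 0, s 0 0, g, p 0 1], .hi 1, [.y [1], .r 2581 [2, 1] [1, 1], .r 454 [2] [1, 2], .r 854 [2, 1] [1, 1, 0], .r 454 [2] [1, 0]]),
([p 1 0, g, p 0 1], .top 1, [.r 334 [] [0], .r 2582 [1] [1], .r 334 [] [2], .r 444 [] [2]]),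
([p 3 0, g, m 0 1, g, s 1 0, m 0 2, g, p 0 3, m 2 4, g, s 5 0, g, m 4 5, g], .hi 4, [.l [5, 9, 3, 6, 8, 2, 5], .l [5, 9, 3, 6, 8, 2, 5], .l [11, 14, 12, 12, 9, 3, 10, 4, 1], .y [2, 4], .l [5, 9, 3, 4, 8, 4, 1], .l [5, 9, 3, 4, 8, 4, 1], .l [11, 14, 12, 12, 9, 1, 10, 4, 1], .l [5, 0, 8, 11, 9, 1, 8, 2, 1], .l [3, 9, 5, 6, 8, 2, 3], .l [3, 9, 5, 6, 8, 2, 3], .l [7, 2, 10, 13, 11, 1, 10, 2, 1], .l [3, 7, 3, 4, 6, 2, 3], .l [3, 7, 3, 4, 6, 2, 5], .l [3, 7, 3, 4, 6, 2, 5], .l [11, 14, 10, 12, 8, 11, 7, 1, 1, 2, 5], .l [3, 7, 3, 4, 6, 2, 7], .l [3, 7, 3, 4, 6, 2, 7], .l [9, 12, 6, 9, 5, 10, 3, 6, 3], .l [3, 7, 3, 4, 6, 2, 9], .l [3, 7, 3, 4, 6, 2, 9], .l [9, 12, 10, 12, 8, 11, 7, 1, 1, 2, 5]]),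
([p 3 0, g, m 2 1, g, s 0 2, g, p 5 3, m 1 4, g, m 4 0, g, p 6 5, g, p 7 6, g, p 8 7, g, p 0 8, g], .lo 17, [.y [0, 17, 15, 13, 11, 6], .l [18, 19, 17, 17, 15, 15, 13, 13, 8, 9, 5, 7, 1, 7, 5, 0, 1], .l [2, 18], .l [1, 8, 6, 17], .l [18, 19, 17, 17, 15, 15, 13, 13, 8, 9, 3, 7, 3, 7, 3, 0, 3], .l [4, 18], .l [3, 8, 4, 17], .l [5, 9, 5, 7, 1, 7, 5, 2, 11], .l [6, 18], .l [5, 8, 2, 17], .l [18, 19, 17, 17, 15, 15, 13, 13, 6, 7, 3, 5, 1, 7, 5, 0, 1], .l [9, 18], .l [8, 11, 9, 9, 4, 8, 6, 13], .l [8, 9, 7, 7, 2, 6, 4, 11], .l [10, 13, 8, 9, 5, 7, 1, 7, 5, 2, 9], .l [11, 18], .l [10, 13, 8, 8, 2, 15], .l [12, 15, 13, 13, 8, 9, 5, 7, 1, 7, 5, 2, 7], .l [13, 18], .l [12, 15, 13, 13, 8, 8, 2, 13], .l [14, 17, 15, 15, 13, 13, 8,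 9, 5, 7, 1, 7, 5, 2, 5], .l [15, 18], .l [14, 17, 15, 15, 13, 13, 8, 8, 2, 11], .l [16, 19, 17, 17, 15, 15, 13, 13, 8, 9, 5, 7, 1, 7, 5, 2, 1], .l [17, 18], .l [16, 19, 17, 17, 15, 15, 13, 13, 8, 8, 2, 1], .l [16, 17, 15, 15, 13, 13, 11, 11, 6, 7, 3, 5, 1, 5, 3, 0, 3], .l [15, 17, 16, 16, 14, 14, 12, 12, 7, 8, 4, 6, 1, 8, 5, 3, 4, 1], .l [16, 17, 15, 15, 13, 13, 11, 11, 6, 6, 0, 9]]),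
([p 3 0, g, m 2 1, g, s 0 2, g, p 5 3, m 1 4, g, m 4 0, g, p 6 5, g, p 7 6, g, p 0 7, g], .lo 15, [.y [0, 15, 13, 11, 6], .l [16, 17, 15, 15, 13, 13, 8, 9, 5, 7, 1, 7, 5, 0, 1], .l [2, 16], .l [1, 8, 6, 15], .l [16, 17, 15, 15, 13, 13, 8, 9, 3, 7, 3, 7, 3, 0, 3], .l [4, 16], .l [3, 8, 4, 15], .l [5, 9, 5, 7, 1, 7, 5, 2, 9], .l [6, 16], .l [5, 8, 2, 15], .l [16, 17, 15, 15, 13, 13, 6, 7, 3, 5, 1, 7, 5, 0, 1], .l [9, 16], .l [8, 11, 9, 9, 4, 8, 6, 11], .l [8, 9, 7, 7, 2, 6, 4, 9], .l [10, 13, 8, 9, 5, 7, 1, 7, 5, 2, 7], .l [11, 16], .l [10, 13, 8, 8, 2, 13], .l [12, 15, 13, 13, 8, 9, 5, 7, 1, 7, 5, 2, 5], .l [13, 16], .l [12, 15, 13, 13, 8, 8, 2, 11], .l [14, 17, 15, 15, 13, 13, 8, 9, 5, 7, 1, 7, 5, 2, 1], .l [15, 16],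 .l [14, 17, 15, 15, 13, 13, 8, 8, 2, 1], .l [14, 15, 13, 13, 11, 11, 6, 7, 3, 5, 1, 5, 3, 0, 3], .r 2585 [1, 2, 3, 4, 5, 6, 7, 8] [1, 1, 1, 1, 1, 1, 1, 1, 1], .l [14, 15, 13, 13, 11, 11, 6, 6, 0, 9]]),
([p 3 0, g, m 2 1, g, s 0 2, g, p 5 3, m 1 4, g, m 4 0, g, p 6 5, g, p 0 6, g], .lo 13, [.y [0, 13, 11, 6], .l [14, 15, 13, 13, 8, 9, 5, 7, 1, 7, 5, 0, 1], .l [2, 14], .l [1, 8, 6, 13], .l [14, 15, 13, 13, 8, 9, 3, 7, 3, 7, 3, 0, 3], .l [4, 14], .l [3, 8, 4, 13], .l [5, 9, 5, 7, 1, 7, 5, 2, 7], .l [6, 14], .l [5, 8, 2, 13], .l [14, 15, 13, 13, 6, 7, 3, 5, 1, 7, 5, 0, 1], .l [9, 14], .l [8, 11, 9, 9, 4, 8, 6, 9], .l [8, 9, 7, 7, 2, 6, 4, 7], .l [10, 13, 8, 9, 5, 7, 1, 7, 5, 2, 5], .l [11, 14], .l [10, 13, 8, 8, 2, 11], .l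 [12, 15, 13, 13, 8, 9, 5, 7, 1, 7, 5, 2, 1], .l [13, 14], .l [12, 15, 13, 13, 8, 8, 2, 1], .l [12, 13, 11, 11, 6, 7, 3, 5, 1, 5, 3, 0, 3], .r 2586 [1, 2, 3, 4, 5, 6, 7] [1, 1, 1, 1, 1, 1, 1, 1], .l [12, 13, 11, 11, 6, 6, 0, 9]]),
([p 3 0, g, m 2 1, g, s 0 2, g, p 5 3, m 1 4, g, m 4 0, g, p 0 5, g], .lo 11, [.y [0, 11, 6], .l [12, 13, 8, 9, 5, 7, 1, 7, 5, 0, 1], .l [2, 12], .l [1, 8, 6, 11], .l [12, 13, 8, 9, 3, 7, 3, 7, 3, 0, 3], .l [4, 12], .l [3, 8, 4, 11], .l [5, 9, 5, 7, 1, 7, 5, 2, 5], .l [6, 12], .l [5, 8, 2, 11], .l [12, 13, 6, 7, 3, 5, 1, 7, 5, 0, 1], .l [9, 12], .l [8, 11, 9, 9, 4, 8, 6, 7], .l [8, 9, 7, 7, 2, 6, 4, 5], .l [10, 13, 8, 9, 5, 7, 1, 7, 5, 2, 1], .l [11, 12], .l [10, 13, 8, 8, 2, 1], .l [10, 11,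 6, 7, 3, 5, 1, 5, 3, 0, 3], .r 2587 [1, 2, 3, 4, 5, 6] [1, 1, 1, 1, 1, 1, 1], .l [10, 11, 6, 6, 0, 9]]),
([p 2 0, g, s 0 1, p 4 2, m 0 3, g, m 1 0, g, p 0 4, g, m 3 0, g], .hi 0, [.l [8, 3, 6, 9, 2, 6, 8, 4, 1], .l [0, 1], .l [2, 1], .l [2, 1, 7, 1, 8, 3, 0, 4, 3], .l [4, 3], .l [0, 5, 11, 9, 2], .l [0, 5], .l [6, 5], .l [0, 7, 11, 7, 2], .l [0, 7], .l [8, 7], .y [0, 8, 3], .l [0, 9, 11, 5, 2], .l [0, 9], .l [10, 9], .l [12, 11, 11, 8, 2, 8, 3], .l [0, 11], .l [12, 11]]),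
([p 2 0, g, m 0 1, g, s 0 0, p 4 2, m 1 3, g, p 6 4, g, m 3 5, g, p 0 6, g, s 5 0, g], .hi 4, [.l [11, 14, 12, 12, 9, 3, 8, 2, 9, 1, 7, 5, 5], .l [11, 12, 8, 8, 4, 7, 3, 10, 5, 6, 3], .l [11, 12, 8, 10, 9, 3, 8, 2, 9], .l [9, 10, 6, 8, 7, 1, 4, 2, 4, 2, 5], .l [11, 14, 12, 10, 8, 10, 9, 1, 6, 2, 6, 4, 5], .l [15, 11, 1, 11, 7, 8, 6, 6, 2, 4, 7, 4, 5], .l [11, 12, 8, 10, 9, 1, 6, 2, 6, 4, 7], .y [4], .l [4, 7, 11, 9, 0], .l [4, 7, 11, 9, 0], .l [15, 7, 0, 9, 6, 6, 2, 4, 9, 6, 7], .l [4, 9, 11, 7, 0], .l [4, 9, 11, 7, 0], .l [1, 10, 5, 0, 7, 5, 8, 2, 5], .l [4, 11, 13, 9, 11, 9, 0], .l [4, 11, 13, 9, 11, 9, 0], .l [1, 12, 7, 0, 9, 7, 1, 6, 3], .l [4, 11, 11, 7, 9, 7, 0], .l [9, 12, 10, 10, 7, 9, 1, 3, 1, 2, 7, 3, 5], .l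 [9, 12, 10, 10, 7, 9, 1, 3, 1, 2, 7], .l [1, 14, 9, 0, 11, 9, 1, 8, 5], .l [1, 16, 11, 0, 13, 11, 1, 10, 7], .l [9, 12, 10, 10, 7, 11, 3, 5, 1, 4, 1], .l [1, 16, 11, 0, 13, 11, 1, 10, 7]]),
([p 2 0, g, m 0 1, g, s 0 0, p 4 2, m 1 3, g, p 0 4, m 3 5, g, s 5 0, g], .lo 8, [.y [0, 8, 5], .l [2, 9, 10, 8, 4], .l [2, 9], .l [1, 7, 5, 8], .l [4, 9, 10, 8, 2], .l [4, 9], .l [3, 7, 3, 8], .l [4, 7, 8, 6, 0], .l [9, 11, 7, 7, 3, 6, 4, 5, 1, 4, 5], .l [8, 9], .l [7, 10, 7, 7, 2, 1], .l [7, 9, 7, 7, 3, 6, 4, 5, 1, 4, 5], .r 2590 [1, 2, 3, 4, 5, 6] [1, 1, 1, 0, 1, 1, 1], .l [7, 8, 5, 5, 0, 8], .l [7, 9, 7, 7, 3, 6, 4, 5, 5, 0, 2], .l [7, 9, 7, 7, 3, 6, 4, 7, 3, 6, 3], .l [10, 13, 10, 11, 9, 9, 5, 8, 6, 2, 4], .l [7, 8, 5, 5, 0, 10]]),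
([p 1 0, g, p 0 1, m 3 2, g, p 2 0, g, s 0 3, g], .hi 0, [.l [2, 1, 4, 6, 1, 4, 1], .l [0, 1], .l [2, 1], .y [0, 2], .l [5, 4, 4, 2, 3], .l [0, 4], .l [5, 4], .l [7, 6, 6, 4, 1], .l [0, 6], .l [7, 6], .l [3, 6, 6, 2, 2, 0, 1], .l [9, 8, 8, 6, 1], .l [0, 8], .l [9, 8]]),
([p 2 1, g, p 5 2, m 4 3, g, s 0 4, g, p 6 5, g, p 7 6, g, p 8 7, g, p 9 8, g, p 0 9, g, m 3 0, g, s 1 0, g], .lo 15, [.l [2, 16, 16, 14, 14, 12, 12, 10, 10, 8, 10, 6, 1], .l [2, 16], .l [0, 20, 18, 14, 14, 12, 12, 10, 10, 8, 8, 6, 8, 4, 7], .l [16, 17, 15, 15, 13, 13, 11, 11, 9, 9, 2, 7, 3, 7, 3, 0, 3], .l [5, 16], .l [0, 20, 15, 11, 11, 9, 9, 7, 7, 5, 9, 1, 9, 1, 5, 3, 3, 5], .l [6, 9, 4, 7, 1, 15, 13, 2, 9], .l [7, 16], .l [0, 20, 13, 9, 9, 7, 7, 5,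 5, 3, 9, 3, 9, 1, 3, 1, 1, 5], .l [8, 11, 9, 9, 4, 7, 1, 13, 11, 2, 7], .l [9, 16], .l [0, 20, 11, 7, 7, 5, 5, 3, 11, 5, 9, 7, 9, 1, 3, 1, 1, 5], .l [10, 13, 11, 11, 9, 9, 4, 7, 1, 11, 9, 2, 5], .l [11, 16], .l [0, 20, 9, 5, 5, 3, 13, 7, 11, 9, 9, 7, 9, 1, 3, 1, 1, 5], .l [12, 15, 13, 13, 11, 11, 9, 9, 4, 7, 1, 9, 7, 2, 3], .l [13, 16], .l [0, 20, 7, 3, 15, 9, 13, 11, 11, 9, 9, 7, 9, 1, 3, 1, 1, 5], .l [14, 17, 15, 15, 13, 13, 11, 11, 9, 9, 4, 7, 1, 7, 5, 2, 1], .l [15, 16], .l [12, 13, 11, 11, 9, 15, 9, 3, 12, 7, 1, 10, 2, 2, 0, 5], .l [14, 15, 13, 13, 11, 11, 9, 9, 7, 7, 2, 5, 1, 7, 5, 0, 1], .l [21, 20, 20, 18, 18, 13, 13, 11, 11, 9, 9, 7, 7, 5, 5, 3, 7, 5], .l [10, 19, 11, 3, 16, 9, 1, 11, 3, 9, 7, 7, 8, 1], .l [10,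 17, 9, 3, 14, 7, 1, 9, 3, 7, 5, 5, 6, 1], .l [14, 15, 13, 13, 11, 11, 9, 9, 7, 7, 2, 5, 1, 5, 3, 0, 3], .l [21, 20, 20, 18, 18, 13, 13, 11, 11, 9, 9, 7, 7, 5, 9, 7, 3, 1], .l [10, 17, 9, 13, 12, 2, 12, 7, 12, 4, 2, 3], .y [0, 19, 15, 13, 11, 9, 7, 2], .l [0, 18, 20, 16, 16, 14, 14, 12, 12, 10, 10, 8, 10, 6, 1], .l [0, 18, 20, 16, 16, 14, 14, 12, 12, 10, 10, 8, 10, 6, 1], .l [10, 17, 9, 13, 12, 2, 12, 7, 14, 6, 2, 5]]),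
([p 2 1, g, p 5 2, m 4 3, g, s 0 4, g, p 6 5, g, p 7 6, g, p 8 7, g, p 0 8, g, m 3 0, g, s 1 0, g], .lo 13, [.l [2, 14, 14, 12, 12, 10, 10, 8, 10, 6, 1], .l [2, 14], .l [0, 18, 16, 12, 12, 10, 10, 8, 8, 6, 8, 4, 7], .l [14, 15, 13, 13, 11, 11, 9, 9, 2, 7, 3, 7, 3, 0, 3], .l [5, 14], .l [4, 9, 6, 6, 4, 11], .l [6, 9, 4, 7, 1, 13, 11, 2, 7], .l [7, 14], .l [6, 9, 4, 4, 2, 11], .l [8, 11, 9, 9, 4, 7, 1, 11, 9, 2, 5], .l [9, 14], .l [8, 11, 9, 9, 4, 4, 2, 9], .l [10, 13, 11, 11, 9, 9, 4, 7, 1, 9, 7, 2, 3], .l [11, 14], .l [8, 17, 11, 3, 14, 9, 3, 3, 1, 10, 2, 2, 0, 5], .l [12, 15, 13, 13, 11, 11, 9, 9, 4, 7, 1, 7, 5, 2, 1], .l [13, 14], .l [10, 11, 9, 15, 9, 3, 12, 7, 1, 10, 2, 2, 0, 5], .l [12, 13, 11, 11, 9, 9, 7, 7, 2,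 5, 1, 7, 5, 0, 1], .r 2593 [1, 2, 3, 4, 5, 6, 7, 8, 9] [1, 1, 1, 1, 1, 1, 1, 1, 1, 1], .l [10, 17, 9, 3, 14, 9, 1, 9, 1, 7, 8, 1], .l [10, 15, 7, 3, 12, 7, 1, 7, 1, 5, 6, 1], .l [12, 13, 11, 11, 9, 9, 7, 7, 2, 5, 1, 5, 3, 0, 3], .l [12, 13, 11, 11, 9, 9, 7, 7, 2, 5, 1, 9, 5, 1, 5, 0, 1], .l [12, 13, 11, 11, 9, 9, 7, 7, 2, 2, 0, 7], .y [0, 17, 13, 11, 9, 7, 2], .l [0, 16, 18, 14, 14, 12, 12, 10, 10, 8, 10, 6, 1], .l [0, 16, 18, 14, 14, 12, 12, 10, 10, 8, 10, 6, 1], .l [12, 13, 11, 11, 9, 9, 7, 7, 2, 2, 0, 9]]),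
([p 2 1, g, p 5 2, m 4 3, g, s 0 4, g, p 6 5, g, p 7 6, g, p 0 7, g, m 3 0, g, s 1 0, g], .lo 11, [.l [2, 12, 12, 10, 10, 8, 10, 6, 1], .l [2, 12], .l [0, 16, 14, 10, 10, 8, 8, 6, 8, 4, 7], .l [12, 13, 11, 11, 9, 9, 2, 7, 3, 7, 3, 0, 3], .l [5, 12], .l [4, 9, 6, 6, 4, 9], .l [6, 9, 4, 7, 1, 11, 9, 2, 5], .l [7, 12], .l [6, 9, 4, 4, 2, 9], .l [8, 11, 9, 9, 4, 7, 1, 9, 7, 2, 3], .l [9, 12], .l [8, 11, 9, 9, 4, 4, 2, 7], .l [10, 13, 11, 11, 9, 9, 4, 7, 1, 7, 5, 2, 1], .l [11, 12], .l [8, 15, 9, 3, 12, 7, 1, 10, 2, 2, 0, 5], .l [10, 11, 9, 9, 7, 7, 2, 5, 1, 7, 5, 0, 1], .r 2594 [1, 2, 3, 4, 5, 6, 7, 8] [1, 1, 1, 1, 1, 1, 1, 1, 1], .l [10, 11, 9, 9, 7, 7, 2, 2, 0, 5], .l [10, 11, 9, 9, 7, 7, 2, 2, 0, 5], .l [10, 11, 9, 9,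 7, 7, 2, 5, 1, 5, 3, 0, 3], .l [10, 11, 9, 9, 7, 7, 2, 5, 1, 9, 5, 1, 5, 0, 1], .l [10, 11, 9, 9, 7, 7, 2, 2, 0, 7], .y [0, 15, 11, 9, 7, 2], .l [0, 14, 16, 12, 12, 10, 10, 8, 10, 6, 1], .l [0, 14, 16, 12, 12, 10, 10, 8, 10, 6, 1], .l [10, 11, 9, 9, 7, 7, 2, 2, 0, 9]]),
([p 2 1, g, p 5 2, m 4 3, g, s 0 4, g, p 6 5, g, p 0 6, g, m 3 0, g, s 1 0, g], .lo 9, [.l [2, 10, 10, 8, 10, 6, 1], .l [2, 10], .l [0, 14, 12, 8, 8, 6, 8, 4, 7], .l [10, 11, 9, 9, 2, 7, 3, 7, 3, 0, 3], .l [5, 10], .l [4, 9, 6, 6, 4, 7], .l [6, 9, 4, 7, 1, 9, 7, 2, 3], .l [7, 10], .l [6, 9, 4, 4, 2, 7], .l [8, 11, 9, 9, 4, 7, 1, 7, 5, 2, 1], .l [9, 10], .l [8, 11, 9, 9, 4, 4, 2, 1], .l [8, 9, 7, 7, 2, 5, 1, 7, 5, 0, 1], .r 2595 [1, 2, 3, 4, 5, 6, 7] [1,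 1, 1, 1, 1, 1, 1, 1], .l [8, 9, 7, 7, 2, 2, 0, 5], .l [8, 9, 7, 7, 2, 2, 0, 5], .l [8, 9, 7, 7, 2, 5, 1, 5, 3, 0, 3], .l [8, 9, 7, 7, 2, 5, 1, 9, 5, 1, 5, 0, 1], .l [8, 9, 7, 7, 2, 2, 0, 7], .y [0, 13, 9, 7, 2], .l [0, 12, 14, 10, 10, 8, 10, 6, 1], .l [0, 12, 14, 10, 10, 8, 10, 6, 1], .l [8, 9, 7, 7, 2, 2, 0, 9]]),
([p 2 1, g, p 5 2, m 4 3, g, s 0 4, g, p 0 5, g, m 3 0, g, s 1 0, g], .lo 7, [.l [2, 8, 10, 6, 1], .l [2, 8], .l [0, 12, 10, 6, 8, 4, 7], .l [8, 9, 2, 7, 3, 7, 3, 0, 3], .l [5, 8], .l [4, 9, 6, 6, 4, 3], .l [6, 9, 4, 7, 1, 7, 5, 2, 1], .l [7, 8], .l [6, 9, 4, 4, 2, 1], .l [6, 7, 2, 5, 1, 7, 5, 0, 1], .r 2596 [1, 2, 3, 4, 5, 6] [1, 1, 1, 1, 1, 1, 1], .l [6, 7, 2, 2, 0, 5], .l [6, 7, 2, 2, 0, 5], .l [6, 7, 2,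 5, 1, 5, 3, 0, 3], .l [6, 7, 2, 5, 1, 9, 5, 1, 5, 0, 1], .l [6, 7, 2, 2, 0, 7], .y [0, 11, 7, 2], .l [0, 10, 12, 8, 10, 6, 1], .l [0, 10, 12, 8, 10, 6, 1], .l [6, 7, 2, 2, 0, 9]]),
([p 2 1, g, p 0 2, m 4 3, g, s 0 4, g, m 3 0, g, s 1 0, g], .lo 2, [.l [1, 7, 1, 7, 5, 2, 1], .l [2, 3], .l [1, 4, 2, 1], .l [0, 10, 8, 2, 6, 4, 5], .l [1, 7, 3, 7, 3, 0, 3], .l [0, 10, 8, 2, 6, 4, 5], .l [0, 10, 8, 4, 6, 2, 5], .r 2597 [1, 2, 3, 4, 5] [1, 1, 1, 1, 1, 1], .l [0, 10, 8, 4, 6, 2, 5], .l [0, 8, 6, 4, 4, 0, 3], .l [1, 5, 1, 5, 3, 0, 3], .l [11, 10, 4, 1, 6, 3, 6, 2, 3], .l [1, 2, 0, 7], .y [0, 9, 2], .l [1, 5, 1, 5, 3, 0, 5], .l [9, 8, 4, 1, 8, 5, 1, 4, 1], .l [1, 2, 0, 9]]),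
([p 1 0, g, p 0 1, m 3 2, g, s 0 3, g, m 2 0, g], .hi 0, [.l [2, 1, 6, 1, 6, 4, 1], .l [0, 1], .l [2, 1], .y [0, 2], .l [0, 4, 8, 6, 1], .l [0, 4], .l [5, 4], .l [0, 4, 6, 4, 1], .l [0, 6, 8, 4, 1], .l [0, 6], .l [7, 6], .r 2598 [4, 1, 2, 3] [1, 1, 1, 1, 1], .l [0, 8], .l [9, 8]]),
([p 2 1, g, s 1 0, g, p 4 2, m 5 3, g, p 6 4, g, m 3 0, g, s 0 5, g, p 0 6, g], .hi 2, [.l [13, 5, 6, 4, 6, 8, 1, 6, 6, 4, 1, 5, 1], .l [0, 3, 6, 10, 7, 1, 5, 6, 1], .l [13, 5, 6, 4, 6, 8, 1, 6, 6, 4, 1], .l [13, 5, 6, 4, 8, 1, 8, 4, 1, 7, 3, 3, 1], .l [7, 12, 7, 1, 3, 7, 1, 3, 1, 4, 1], .r 1068 [1, 7, 2] [1, 1, 1, 10], .l [2, 6, 4, 4, 8, 6, 1], .l [0, 1, 1, 4, 8, 6, 1], .l [0, 1, 6, 4, 10, 7, 1, 6, 1], .l [2, 8, 6, 6, 8, 4, 1], .l [0, 1, 1,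 6, 8, 4, 1], .l [0, 1, 8, 6, 10, 7, 3, 6, 1], .l [2, 10, 8, 8, 12, 8, 10, 8, 1], .l [0, 1, 1, 8, 12, 8, 10, 8, 1], .l [2, 1, 12, 7, 10, 4, 10, 1, 3, 6, 1], .l [2, 10, 8, 8, 10, 6, 8, 6, 1], .l [2, 12, 10, 10, 12, 6, 8, 6, 1], .l [0, 1, 1, 10, 12, 6, 8, 6, 1], .l [6, 13, 8, 11, 4, 9, 7, 9, 2, 6, 1], .y [0, 2, 13, 7, 4], .l [15, 12, 8, 5, 6, 4, 6, 1, 6, 6, 6, 4, 1], .l [14, 3, 7, 8, 6, 8, 9, 6, 3], .l [0, 1, 14, 12, 8, 5, 6, 4, 6, 1, 6, 4, 1]]),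
([p 1 0, g, p 3 1, m 4 2, g, p 5 3, g, m 2 0, g, s 0 4, g, p 0 5, g], .hi 0, [.r 2600 [6, 1, 2, 3, 4, 5] [1, 1, 1, 1, 1, 1, 1], .l [0, 1], .l [2, 1], .l [0, 4, 8, 6, 1], .l [0, 4], .l [5, 4], .l [0, 6, 8, 4, 1], .l [0, 6], .l [7, 6], .l [0, 8, 12, 8, 10, 8, 1], .l [0, 8], .l [9, 8], .l [0, 8, 10, 6, 8, 6, 1], .l [0, 10, 12, 6, 8, 6, 1], .l [0, 10], .l [11, 10], .y [0, 11, 5, 2], .l [13, 12, 8, 5, 6, 4, 6, 1, 6, 4, 1], .l [0, 12], .l [13, 12]]),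
([p 1 0, g, p 3 1, m 8 2, g, p 4 3, g, p 5 4, g, p 6 5, g, p 0 6, g, m 2 0, p 7 0, g, p 0 7, g, s 0 8, g], .lo 11, [.y [0, 11, 9, 7, 5, 2], .l [2, 12, 12, 10, 10, 8, 8, 6, 8, 6, 1], .l [2, 12], .l [1, 4, 2, 11], .l [5, 12, 12, 10, 13, 10, 3, 6, 9, 11, 9, 4, 1], .l [5, 12], .l [4, 7, 4, 4, 2, 9], .l [7, 12, 15, 12, 6, 6, 3, 6, 9, 11, 9, 4, 1], .l [7, 12], .l [6, 9, 7, 7, 4, 4, 2, 7], .l [20, 16, 5, 7, 15, 11, 3, 11, 13, 11, 4], .l [9, 12], .l [6, 15, 11, 3, 12, 7, 3, 3, 1, 8, 2, 2, 0, 3], .l [20, 16, 17, 15, 15, 13, 13, 11, 11, 7, 9, 1, 9, 7, 4], .l [11, 12], .l [8, 9, 7, 13, 9, 3, 10, 5, 1, 8, 2, 2, 0, 3], .l [8, 9, 7, 7, 5, 5, 2, 3, 12, 8, 1, 3, 9, 0, 5], .l [3, 8, 16, 13, 3, 5, 12, 14, 12, 8, 1, 3, 6, 9, 7, 3, 3, 1],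 .l [8, 15, 9, 3, 12, 7, 1, 7, 1, 5, 6, 1], .l [8, 13, 7, 3, 10, 5, 1, 5, 1, 3, 4, 1], .l [18, 14, 15, 13, 13, 11, 11, 9, 9, 7, 7, 4, 3, 4, 6, 5, 5, 3], .l [3, 19, 8, 4, 6, 4, 14], .l [20, 16, 17, 15, 15, 13, 13, 11, 11, 9, 9, 4, 3, 6, 8, 5, 7, 5], .l [3, 19, 8, 4, 6, 4, 14], .l [10, 11, 9, 12, 7, 16, 5, 10, 4, 11, 4, 7, 9, 4, 5], .l [14, 18, 14, 14, 12, 12, 10, 10, 8, 8, 5, 5, 3, 5, 8, 4, 2, 5], .l [10, 11, 9, 9, 7, 7, 5, 5, 2, 2, 0, 8], .l [3, 17, 19, 12, 12, 10, 13, 10, 3, 6, 9, 11, 9, 4, 1], .l [3, 17, 19, 12, 12, 10, 13, 10, 3, 3, 1, 5, 8, 10, 8, 3, 5, 3], .l [10, 11, 9, 9, 7, 7, 5, 5, 2, 2, 0, 10]]),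
([p 1 0, g, p 3 1, m 7 2, g, p 4 3, g, p 5 4, g, p 0 5, g, m 2 0, p 6 0, g, p 0 6, g, s 0 7, g], .lo 9, [.y [0, 9, 7, 5, 2], .l [2, 10, 10, 8, 8, 6, 8, 6, 1], .l [2, 10], .l [1, 4, 2, 9], .l [5, 10, 13, 10, 3, 6, 9, 11, 9, 4, 1], .l [5, 10], .l [4, 7, 4, 4, 2, 7], .l [18, 14, 3, 5, 13, 9, 1, 9, 11, 9, 4], .l [7, 10], .l [6, 9, 7, 7, 4, 4, 2, 5], .l [18, 14, 15, 13, 13, 11, 11, 7, 9, 1, 9, 7, 4], .l [9, 10], .l [6, 13, 9, 3, 10, 5, 1, 8, 2, 2, 0, 3], .l [6, 7, 5, 5, 2, 3, 12, 8, 1, 3, 9, 0, 5], .r 2602 [1, 2, 3, 4, 5, 8, 6, 7] [1, 1, 1, 1, 1, 1, 1, 1, 1], .l [8, 9, 7, 7, 5, 5, 2, 2, 0, 3], .l [8, 9, 7, 7, 5, 5, 2, 2, 0, 3], .l [9, 12, 11, 11, 9, 9, 7, 7, 4, 7, 2, 3, 0, 3], .l [3, 17, 8, 4, 6, 4, 12], .l [9, 14, 13, 13,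 11, 11, 9, 9, 6, 9, 2, 5, 2, 5], .l [3, 17, 8, 4, 6, 4, 12], .l [8, 12, 7, 16, 5, 10, 4, 11, 4, 7, 9, 4, 5], .l [12, 16, 12, 12, 10, 10, 8, 8, 5, 6, 9, 6, 4, 6, 3], .l [8, 9, 7, 7, 5, 5, 2, 2, 0, 8], .l [3, 15, 17, 10, 13, 10, 3, 6, 9, 11, 9, 4, 1], .l [3, 15, 17, 10, 13, 10, 3, 6, 9, 11, 9, 4, 1], .l [8, 9, 7, 7, 5, 5, 2, 2, 0, 10]]),
([p 1 0, g, p 3 1, m 6 2, g, p 4 3, g, p 0 4, g, m 2 0, p 5 0, g, p 0 5, g, s 0 6, g], .lo 7, [.y [0, 7, 5, 2], .l [2, 8, 8, 6, 8, 6, 1], .l [2, 8], .l [1, 4, 2, 7], .l [16, 12, 13, 9, 9, 7, 9, 1, 9, 7, 4], .l [5, 8], .l [4, 7, 4, 4, 2, 5], .l [16, 12, 13, 11, 11, 7, 9, 1, 9, 7, 4], .l [7, 8], .l [6, 9, 7, 7, 4, 4, 2, 1], .l [4, 5, 2, 3, 12, 8, 1, 3, 9, 0, 5], .r 2603 [1, 2, 3, 4, 7, 5,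 6] [1, 1, 1, 1, 1, 1, 1, 1], .l [6, 7, 5, 5, 2, 2, 0, 3], .l [6, 7, 5, 5, 2, 2, 0, 3], .l [7, 10, 9, 9, 7, 7, 4, 7, 2, 3, 0, 3], .l [3, 15, 8, 4, 6, 4, 10], .l [7, 12, 11, 11, 9, 9, 6, 9, 2, 5, 2, 5], .l [3, 15, 8, 4, 6, 4, 10], .l [10, 14, 10, 10, 8, 8, 5, 6, 9, 6, 4, 6, 3], .l [10, 14, 10, 10, 8, 8, 5, 6, 9, 6, 4, 6, 3], .l [6, 7, 5, 5, 2, 2, 0, 8], .l [15, 1, 10, 11, 9, 9, 7, 7, 8, 7, 4], .l [1, 14, 10, 6, 13, 9, 3, 10, 5, 0, 5], .l [6, 7, 5, 5, 2, 2, 0, 10]]),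
([p 1 0, g, p 3 1, m 5 2, g, p 0 3, g, m 2 0, p 4 0, g, p 0 4, g, s 0 5, g], .lo 5, [.y [0, 5, 2], .l [2, 6, 8, 6, 1], .l [2, 6], .l [1, 4, 2, 5], .l [14, 10, 11, 7, 9, 1, 9, 7, 4], .l [5, 6], .l [4, 7, 4, 4, 2, 1], .l [1, 3, 12, 8, 1, 3, 9, 0, 5], .r 2604 [1, 2, 3, 6, 4, 5] [1, 1, 1, 1, 1, 1, 1], .l [4, 5, 2, 2, 0, 3], .l [4, 5, 2, 2, 0, 3], .l [5, 8, 7, 7, 4, 7, 2, 3, 0, 3], .l [3, 13, 8, 4, 6, 4, 8], .l [5, 10, 9, 9, 6, 9, 2, 5, 2, 5], .l [3, 13, 8, 4, 6, 4, 8], .l [8, 12, 8, 8, 5, 6, 9, 6, 4, 6, 3], .l [8, 12, 8, 8, 5, 6, 9, 6, 4, 6, 3], .l [4, 5, 2, 2, 0, 8], .l [13, 1, 8, 9, 7, 7, 8, 7, 4], .r 2601 [1, 2, 3, 5, 6] [1, 1, 1, 4, 1, 1], .l [4, 5, 2, 2, 0, 10]]),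
([p 3 1, g, s 1 0, g, s 2 0, g, s 0 2, p 5 3, m 6 4, g, s 0 5, g, m 4 0, g, s 0 6, g], .hi 4, [.l [8, 1, 9, 13, 9, 3, 7, 9, 0, 5], .l [8, 1, 9, 13, 9, 3, 7, 9, 0, 5], .l [8, 1, 3, 5, 7, 11, 7, 1, 5, 7, 0, 3], .l [8, 1, 9, 13, 7, 1, 5, 9, 0, 5], .l [8, 1, 9, 13, 7, 1, 5, 9, 0, 5], .l [10, 15, 11, 1, 7, 10, 3, 1, 8, 1], .l [8, 3, 9, 13, 7, 1, 5, 9, 0, 5], .l [16, 5, 11, 1, 13, 8, 1], .l [8, 3, 9, 13, 7, 1, 5, 9, 0, 5], .y [4, 6], .l [4, 9, 13, 11, 2], .l [4, 9, 13, 11, 2], .l [10, 5, 15, 11, 5, 10, 1], .l [4, 9, 11, 9, 2], .l [4, 11, 13, 9, 2], .l [4, 11, 13, 9, 2], .l [12, 7, 15, 11, 7, 10, 1], .l [2, 1, 13, 9, 9, 7, 2, 4, 2, 5], .l [4, 13, 6, 2, 4, 2, 5], .l [2, 1, 13, 9, 9, 7, 2, 4, 2, 5], .l [2, 1, 13, 9, 3, 7, 7, 1,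 2, 4, 2, 3], .l [2, 1, 15, 11, 11, 9, 2, 4, 2, 7], .l [4, 15, 8, 2, 4, 2, 7], .l [2, 1, 15, 11, 11, 9, 2, 4, 2, 7]]),
([p 2 1, g, s 1 0, g, s 0 0, p 4 2, m 5 3, g, s 0 4, g, m 3 0, g, s 0 5, g], .hi 4, [.l [8, 13, 9, 3, 5, 8, 3, 1, 6, 1], .l [14, 5, 11, 3, 11, 6, 1], .l [6, 3, 6, 0, 7], .r 2606 [1, 6, 2, 3, 4, 5] [1, 1, 1, 1, 1, 1, 1], .l [14, 5, 9, 1, 11, 8, 1], .l [6, 1, 6, 0, 7], .y [4], .l [4, 7, 11, 9, 0], .l [4, 7, 11, 9, 0], .l [8, 3, 8], .l [4, 7, 9, 7, 0], .l [4, 9, 11, 7, 0], .l [4, 9, 11, 7, 0], .l [10, 5, 2], .l [2, 1, 11, 7, 2, 4, 2, 5], .l [4, 5, 0, 6, 8, 6, 7], .l [12, 7, 2], .l [2, 1, 11, 7, 2, 4, 2, 5], .l [2, 1, 13, 9, 2, 4, 2, 7], .l [4, 5, 0, 6, 8, 6, 9], .l [14, 9, 2]]),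
([p 1 0, g, s 0 0, p 3 1, m 4 2, g, s 0 3, g, m 2 0, g, s 0 4, g], .hi 0, [.r 2607 [5, 1, 2, 3, 4] [1, 1, 1, 1, 1, 1], .l [0, 1], .l [2, 1], .l [2, 1, 2, 0, 3], .l [0, 5, 9, 7, 2], .l [0, 5], .l [6, 5], .y [0, 6, 3], .l [0, 7, 9, 5, 2], .l [0, 7], .l [8, 7], .l [0, 9, 6, 2, 4, 2, 5], .l [0, 9], .l [10, 9], .l [0, 9, 6, 2, 4, 2, 5], .l [0, 11, 8, 2, 4, 2, 7], .l [0, 11], .l [12, 11]]),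
([p 1 0, g, p 3 1, m 4 2, g, s 0 3, g, m 2 0, g, s 0 4, g], .bot 1, [.r 111 [1, 2] [3, 3], .r 2608 [1, 2, 3, 4] [1, 1, 1, 1, 1], .r 1201 [1] [1, 8], .r 1500 [1, 3] [1, 2, 5]]),
([p 1 0, g, p 5 1, m 4 2, g, m 2 0, p 3 0, g, p 0 3, g, s 0 4, g, p 0 5, g], .hi 5, [.l [2, 6, 6, 4, 1], .l [1, 4, 2, 5], .l [2, 6], .l [6, 14, 9, 10, 2, 10, 2, 7, 4], .l [4, 7, 5, 13, 12, 12, 10, 1], .l [5, 6], .l [4, 14, 11, 11, 9, 2, 4, 2, 7], .l [3, 11, 6, 2, 4, 2, 6], .l [14, 6, 12, 5, 2, 9, 11, 5, 2, 7], .l [3, 9, 4, 2, 2, 0, 4], .l [6, 10, 8, 13, 10, 3, 4, 8, 5], .l [4, 5, 3, 13, 12, 12, 10, 5], .l [6, 10, 8, 13, 10, 3, 4, 8], .y [3, 5, 10], .l [6, 12, 10, 13, 10, 3, 6, 8, 3], .l [4, 5, 3, 13, 12, 12, 10, 7], .l [6, 12, 10, 13, 10, 3, 6,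 8], .l [4, 5, 3, 11, 10, 10, 8, 7], .l [4, 12, 9, 10, 2, 10, 2, 7, 4], .l [4, 5, 3, 11, 10, 10, 8, 9], .l [4, 12, 9, 10, 2, 10, 2, 7, 4]]),
([p 1 0, g, p 0 1, m 4 2, g, m 2 0, p 3 0, g, p 0 3, g, s 0 4, g], .lo 2, [.y [0, 2], .l [12, 6, 9, 1, 9, 7, 4], .l [2, 3], .l [1, 4, 2, 1], .r 2609 [1, 2, 5, 4] [1, 1, 1, 4, 1], .r 2605 [1, 2, 5, 3, 4] [1, 1, 1, 1, 1, 1], .l [1, 2, 0, 3], .l [1, 2, 0, 3], .l [3, 6, 4, 7, 2, 3, 0, 3], .l [1, 3, 10, 9, 0, 4, 6, 4, 5], .l [3, 8, 6, 9, 2, 5, 2, 5], .l [1, 2, 0, 6], .l [6, 10, 5, 6, 9, 6, 4, 6, 3], .l [6, 10, 5, 6, 9, 6, 4, 6, 3], .l [1, 2, 0, 8], .l [11, 1, 6, 7, 8, 7, 4], .r 2610 [1, 2, 3, 4, 5] [1, 1, 1, 1, 1, 1], .l [1, 2, 0, 10]]),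
([p 1 0, g, p 0 1, m 3 2, g, m 2 0, p 0 0, g, s 0 3, g], .lo 6, [.l [0, 5], .l [10, 4, 4, 2, 5], .l [2, 7], .l [1, 4, 2, 6], .l [5, 7, 4], .l [5, 7], .l [3, 9, 4, 2, 6], .l [3, 7, 2, 0, 4], .y [6], .l [10, 6, 6, 4, 1], .r 2611 [1, 2, 4, 3] [1, 1, 1, 1, 1], .l [10, 6, 6, 4, 1], .l [8, 4, 4, 2, 7], .l [3, 7, 9, 7, 4], .l [8, 4, 4, 2, 7]]),
([p 1 0, g, p 8 1, m 7 2, g, m 2 0, m 0 3, g, m 3 4, g, m 4 5, g, m 5 6, g, m 6 0, g, s 0 7, g, p 0 8, g], .hi 5, [.l [2, 6, 6, 4, 1], .l [1, 4, 2, 5], .l [2, 6], .l [6, 20, 15, 16, 2, 16, 2, 13, 10], .l [4, 7, 5, 19, 18, 18, 16, 1], .l [5, 6], .l [16, 12, 12, 10, 10, 9, 9, 7, 7, 5, 5, 3, 3, 1, 7, 3, 3, 1], .l [4, 20, 17, 17, 15, 2, 4, 2, 13], .l [3, 17, 12, 2, 4, 2, 12], .l [18, 14,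 14, 12, 12, 9, 11, 9, 9, 7, 7, 5, 5, 3, 9, 3, 3, 1], .l [4, 20, 17, 17, 15, 4, 6, 4, 4, 2, 11], .l [3, 17, 12, 4, 6, 4, 4, 2, 10], .l [6, 10, 8, 19, 16, 3, 4, 14], .l [4, 20, 17, 17, 15, 6, 8, 6, 6, 4, 4, 2, 9], .l [3, 17, 12, 6, 8, 6, 6, 4, 4, 2, 8], .l [6, 12, 10, 19, 16, 3, 6, 14], .l [4, 20, 17, 17, 15, 8, 10, 8, 8, 6, 6, 4, 4, 2, 7], .l [3, 17, 12, 8, 10, 8, 8, 6, 6, 4, 4, 2, 6], .l [6, 14, 12, 19, 16, 3, 8, 14], .l [6, 16, 14, 19, 16, 3, 10, 14, 5], .l [4, 5, 3, 19, 18, 18, 16, 11], .l [6, 16, 14, 19, 16, 3, 10, 14], .y [3, 5, 16], .l [6, 18, 16, 19, 16, 3, 12, 14, 3], .l [4, 5, 3, 19, 18, 18, 16, 13], .l [6, 18, 16, 19, 16, 3, 12, 14], .l [4, 5, 3, 17, 16, 16, 14, 13], .l [4, 18, 15, 16, 2, 16, 2, 13, 10], .l [4,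 5, 3, 17, 16, 16, 14, 15], .l [3, 11, 12, 10, 10, 8, 16, 13, 5, 12, 10, 8, 7, 3, 8, 3, 5, 3]]),
([p 1 0, g, p 7 1, m 6 2, g, m 2 0, m 0 3, g, m 3 4, g, m 4 5, g, m 5 0, g, s 0 6, g, p 0 7, g], .hi 12, [.l [1, 5, 14, 13, 2, 10, 10, 8, 8, 6, 6, 4, 5], .l [1, 4, 2, 12], .l [2, 13], .l [4, 18, 15, 15, 13, 8, 8, 6, 6, 4, 4, 2, 7], .l [3, 15, 10, 8, 8, 6, 6, 4, 4, 2, 6], .l [5, 13], .y [6, 8, 10, 12], .l [7, 18, 12, 12, 10, 5, 5, 3, 9, 3, 7, 8, 3], .l [7, 10, 8, 16, 12, 12, 10, 5], .l [8, 13], .l [9, 12, 10, 16, 10, 10, 8, 3, 9, 3, 7, 8, 3], .l [7, 18, 12, 2, 14, 11, 3, 3, 1, 1, 9, 4], .l [10, 13], .l [11, 14, 12, 12, 10, 14, 8, 9, 2, 1, 6, 1, 1, 6, 3], .l [9, 10, 8, 16, 10, 2, 12, 9, 1, 1, 9, 4], .l [12, 13], .l [11, 12, 10,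 10, 8, 14, 8, 8, 6, 1, 7, 3, 5, 6, 3], .l [11, 12, 10, 10, 8, 8, 6, 12, 8, 8, 6, 1], .r 2613 [1, 2, 3, 4, 5, 8, 6, 7] [1, 1, 1, 1, 1, 1, 1, 1, 1], .l [3, 13, 13, 11, 11, 9, 9, 7, 7, 5, 4], .l [3, 13, 15, 13, 13, 11, 11, 9, 9, 7, 4], .l [11, 12, 10, 10, 8, 8, 6, 12, 8, 8, 6, 3], .l [3, 13, 15, 13, 13, 11, 11, 9, 9, 7, 4], .l [11, 12, 10, 10, 8, 8, 6, 10, 6, 6, 4, 3], .l [3, 13, 17, 15, 15, 13, 13, 11, 11, 9, 4], .l [7, 16, 10, 2, 12, 7, 13, 4, 2, 6], .l [3, 13, 17, 15, 15, 13, 13, 11, 11, 9, 4]]),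
([p 1 0, g, p 6 1, m 5 2, g, m 2 0, m 0 3, g, m 3 4, g, m 4 0, g, s 0 5, g, p 0 6, g], .hi 10, [.l [1, 5, 12, 11, 2, 8, 8, 6, 6, 4, 5], .l [1, 4, 2, 10], .l [2, 11], .l [4, 16, 13, 13, 11, 6, 6, 4, 4, 2, 7], .l [3, 13, 8, 6, 6, 4, 4, 2, 6], .l [5, 11], .y [6, 8, 10], .l [7, 16, 10, 10, 8, 3, 9, 3, 7, 8, 3], .l [7, 10, 8, 14, 10, 10, 8, 3], .l [8, 11], .l [9, 12, 10, 14, 8, 9, 2, 1, 6, 1, 1, 6, 3], .l [7, 16, 10, 2, 12, 9, 1, 1, 9, 4], .l [10, 11], .l [9, 10, 8, 14, 8, 8, 6, 1, 7, 3, 5, 6, 3], .l [9, 10, 8, 8, 6, 12, 8, 8, 6, 1], .r 2614 [1, 2, 3, 4, 7, 5, 6] [1, 1, 1, 1, 1, 1, 1, 1], .l [3, 11, 11, 9, 9, 7, 7, 5, 4], .l [3, 11, 13, 11, 11, 9, 9, 7, 4], .l [9, 10, 8, 8, 6, 12, 8, 8, 6, 3], .l [3, 11, 13, 11, 11, 9, 9,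 7, 4], .l [9, 10, 8, 8, 6, 10, 6, 6, 4, 3], .l [3, 11, 15, 13, 13, 11, 11, 9, 4], .l [9, 10, 8, 8, 6, 10, 6, 6, 4, 9], .l [3, 11, 15, 13, 13, 11, 11, 9, 4]]),
([p 1 0, g, p 5 1, m 4 2, g, m 2 0, m 0 3, g, m 3 0, g, s 0 4, g, p 0 5, g], .hi 8, [.l [1, 5, 10, 9, 2, 6, 6, 4, 5], .l [1, 4, 2, 8], .l [2, 9], .l [4, 14, 11, 11, 9, 4, 4, 2, 7], .l [3, 11, 6, 4, 4, 2, 6], .l [5, 9], .y [6, 8], .l [7, 14, 8, 9, 2, 1, 6, 1, 1, 6, 3], .l [7, 10, 8, 12, 8, 8, 6, 1], .l [8, 9], .l [7, 14, 8, 8, 6, 1, 7, 3, 5, 6, 3], .l [7, 8, 6, 12, 8, 8, 6, 1], .r 2615 [1, 2, 3, 6, 4, 5] [1, 1, 1, 1, 1, 1, 1], .l [3, 9, 9, 7, 7, 5, 4], .l [3, 9, 11, 9, 9, 7, 4], .l [7, 8, 6, 12, 8, 8, 6, 3], .l [3, 9, 11, 9, 9, 7, 4], .l [7, 8, 6, 10, 6, 6, 4, 3],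 .l [3, 9, 13, 11, 11, 9, 4], .l [7, 8, 6, 10, 6, 6, 4, 9], .l [3, 9, 13, 11, 11, 9, 4]]),
([p 1 0, g, p 3 1, m 8 2, g, p 4 3, g, p 5 4, g, p 6 5, g, p 0 6, g, m 2 0, m 0 7, g, m 7 0, g, s 0 8, g], .lo 11, [.y [0, 11, 9, 7, 5, 2], .l [2, 12, 12, 10, 10, 8, 8, 6, 8, 6, 1], .l [2, 12], .l [1, 4, 2, 11], .l [5, 12, 12, 10, 13, 10, 3, 6, 9, 11, 9, 4, 1], .l [5, 12], .l [4, 7, 4, 4, 2, 9], .l [7, 12, 15, 12, 6, 6, 3, 6, 9, 11, 9, 4, 1], .l [7, 12], .l [6, 9, 7, 7, 4, 4, 2, 7], .l [20, 16, 5, 7, 15, 11, 3, 11, 13, 11, 4], .l [9, 12], .l [6, 15, 11, 3, 12, 7, 3, 3, 1, 8, 2, 2, 0, 3], .l [20, 16, 17, 15, 15, 13, 13, 11, 11, 7, 9, 1, 9, 7, 4], .l [11, 12], .l [8, 9, 7, 13, 9, 3, 10, 5, 1, 8, 2, 2, 0, 3], .l [8, 9, 7, 7, 5, 5, 2,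 3, 12, 8, 1, 3, 9, 0, 5], .l [3, 8, 16, 13, 3, 5, 12, 14, 12, 8, 1, 3, 6, 9, 7, 3, 3, 1], .l [8, 15, 9, 3, 12, 7, 1, 7, 1, 5, 6, 1], .l [8, 13, 7, 3, 10, 5, 1, 5, 1, 3, 4, 1], .l [3, 19, 8, 4, 6, 4, 14], .l [20, 16, 17, 15, 15, 13, 13, 11, 11, 9, 9, 4, 3, 6, 8, 5, 7, 5], .l [3, 19, 8, 4, 6, 4, 14], .l [3, 17, 6, 4, 4, 2, 12], .l [10, 11, 9, 12, 7, 16, 5, 10, 4, 11, 4, 7, 9, 4, 5], .l [14, 18, 14, 14, 12, 12, 10, 10, 8, 8, 5, 5, 3, 5, 8, 4, 2, 5], .l [10, 11, 9, 9, 7, 7, 5, 5, 2, 2, 0, 8], .l [3, 17, 19, 12, 12, 10, 13, 10, 3, 6, 9, 11, 9, 4, 1], .l [3, 17, 19, 12, 12, 10, 13, 10, 3, 3, 1, 5, 8, 10, 8, 3, 5, 3], .l [10, 11, 9, 9, 7, 7, 5, 5, 2, 2, 0, 10]]),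
([p 1 0, g, p 3 1, m 7 2, g, p 4 3, g, p 5 4, g, p 0 5, g, m 2 0, m 0 6, g, m 6 0, g, s 0 7, g], .lo 9, [.y [0, 9, 7, 5, 2], .l [2, 10, 10, 8, 8, 6, 8, 6, 1], .l [2, 10], .l [1, 4, 2, 9], .l [5, 10, 13, 10, 3, 6, 9, 11, 9, 4, 1], .l [5, 10], .l [4, 7, 4, 4, 2, 7], .l [18, 14, 3, 5, 13, 9, 1, 9, 11, 9, 4], .l [7, 10], .l [6, 9, 7, 7, 4, 4, 2, 5], .l [18, 14, 15, 13, 13, 11, 11, 7, 9, 1, 9, 7, 4], .l [9, 10], .l [6, 13, 9, 3, 10, 5, 1, 8, 2, 2, 0, 3], .l [6, 7, 5, 5, 2, 3, 12, 8, 1, 3, 9, 0, 5], .r 2617 [1, 2, 3, 4, 5, 8, 6, 7] [1, 1, 1, 1, 1, 1, 1, 1, 1], .l [8, 9, 7, 7, 5, 5, 2, 2, 0, 3], .l [8, 9, 7, 7, 5, 5, 2, 2, 0, 3], .l [3, 17, 8, 4, 6, 4, 12], .l [9, 14, 13, 13, 11, 11, 9, 9, 6, 9, 2, 5, 2, 5], .l [3, 17, 8, 4,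 6, 4, 12], .l [3, 15, 6, 4, 4, 2, 10], .l [8, 12, 7, 16, 5, 10, 4, 11, 4, 7, 9, 4, 5], .l [12, 16, 12, 12, 10, 10, 8, 8, 5, 6, 9, 6, 4, 6, 3], .l [8, 9, 7, 7, 5, 5, 2, 2, 0, 8], .l [3, 15, 17, 10, 13, 10, 3, 6, 9, 11, 9, 4, 1], .l [3, 15, 17, 10, 13, 10, 3, 6, 9, 11, 9, 4, 1], .l [8, 9, 7, 7, 5, 5, 2, 2, 0, 10]]),
([p 1 0, g, p 3 1, m 6 2, g, p 4 3, g, p 0 4, g, m 2 0, m 0 5, g, m 5 0, g, s 0 6, g], .lo 7, [.y [0, 7, 5, 2], .l [2, 8, 8, 6, 8, 6, 1], .l [2, 8], .l [1, 4, 2, 7], .l [16, 12, 13, 9, 9, 7, 9, 1, 9, 7, 4], .l [5, 8], .l [4, 7, 4, 4, 2, 5], .l [16, 12, 13, 11, 11, 7, 9, 1, 9, 7, 4], .l [7, 8], .l [6, 9, 7, 7, 4, 4, 2, 1], .l [4, 5, 2, 3, 12, 8, 1, 3, 9, 0, 5], .r 2618 [1, 2, 3, 4, 7, 5, 6] [1, 1, 1, 1, 1, 1,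 1, 1], .l [6, 7, 5, 5, 2, 2, 0, 3], .l [6, 7, 5, 5, 2, 2, 0, 3], .l [3, 15, 8, 4, 6, 4, 10], .l [7, 12, 11, 11, 9, 9, 6, 9, 2, 5, 2, 5], .l [3, 15, 8, 4, 6, 4, 10], .l [3, 13, 6, 4, 4, 2, 8], .l [10, 14, 10, 10, 8, 8, 5, 6, 9, 6, 4, 6, 3], .l [10, 14, 10, 10, 8, 8, 5, 6, 9, 6, 4, 6, 3], .l [6, 7, 5, 5, 2, 2, 0, 8], .l [15, 1, 10, 11, 9, 9, 7, 7, 8, 7, 4], .l [1, 14, 10, 6, 13, 9, 3, 10, 5, 0, 5], .l [6, 7, 5, 5, 2, 2, 0, 10]]),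
([p 1 0, g, p 3 1, m 5 2, g, p 0 3, g, m 2 0, m 0 4, g, m 4 0, g, s 0 5, g], .lo 5, [.y [0, 5, 2], .l [2, 6, 8, 6, 1], .l [2, 6], .l [1, 4, 2, 5], .l [14, 10, 11, 7, 9, 1, 9, 7, 4], .l [5, 6], .l [4, 7, 4, 4, 2, 1], .l [1, 3, 12, 8, 1, 3, 9, 0, 5], .r 2619 [1, 2, 3, 6, 4, 5] [1, 1, 1, 1, 1, 1, 1], .l [4, 5, 2, 2, 0, 3], .l [4, 5, 2, 2, 0, 3], .l [3, 13, 8, 4, 6, 4, 8], .l [5, 10, 9, 9, 6, 9, 2, 5, 2, 5], .l [3, 13, 8, 4, 6, 4, 8], .l [3, 11, 6, 4, 4, 2, 6], .l [8, 12, 8, 8, 5, 6, 9, 6, 4, 6, 3], .l [8, 12, 8, 8, 5, 6, 9, 6, 4, 6, 3], .l [4, 5, 2, 2, 0, 8], .l [13, 1, 8, 9, 7, 7, 8, 7, 4], .r 2601 [1, 2, 3, 5, 6] [1, 1, 1, 4, 1, 1], .l [4, 5, 2, 2, 0, 10]]),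
([p 1 0, g, p 0 1, m 4 2, g, m 2 0, m 0 3, g, m 3 0, g, s 0 4, g], .lo 2, [.y [0, 2], .l [12, 6, 9, 1, 9, 7, 4], .l [2, 3], .l [1, 4, 2, 1], .r 2609 [1, 2, 5, 4] [1, 1, 1, 4, 1], .r 2620 [1, 2, 5, 3, 4] [1, 1, 1, 1, 1, 1], .l [1, 2, 0, 3], .l [1, 2, 0, 3], .l [1, 3, 10, 9, 0, 4, 6, 4, 5], .l [3, 8, 6, 9, 2, 5, 2, 5], .l [1, 2, 0, 6], .l [1, 2, 0, 6], .l [6, 10, 5, 6, 9, 6, 4, 6, 3], .l [6, 10, 5, 6, 9, 6, 4, 6, 3], .l [1, 2, 0, 8], .l [11, 1, 6, 7, 8, 7, 4], .r 2616 [1, 2, 3, 4, 5] [1, 1, 1, 1, 1, 1], .l [1, 2, 0, 10]]),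
([p 1 0, g, p 0 1, m 3 2, g, m 2 0, m 0 0, g, s 0 3, g], .hi 6, [.l [10, 4, 4, 2, 5], .l [1, 4, 2, 6], .l [2, 7], .l [1, 2, 0, 4], .l [5, 7, 4], .l [3, 9, 4, 2, 6], .l [5, 7], .y [6], .l [10, 6, 6, 4, 1], .l [10, 6, 6, 4, 1], .r 2621 [1, 2, 4, 3] [1, 1, 1, 1, 1], .l [3, 7, 7, 5, 4], .l [8, 4, 4, 2, 7], .l [8, 4, 4, 2, 7], .l [3, 7, 9, 7, 4]]),
([p 1 0, g, p 6 1, m 5 2, g, m 2 3, s 0 4, g, m 3 0, g, m 4 0, g, s 0 5, g, p 0 6, g], .lo 6, [.l [0, 5, 7, 6, 6, 4, 1], .l [2, 7, 9, 8, 8, 6, 1], .l [2, 7, 9, 8, 8, 6, 1], .l [12, 3, 9, 5, 0, 6, 8, 4, 1], .l [4, 16, 13, 13, 11, 2, 11], .l [5, 7, 4], .l [4, 16, 13, 13, 11, 2, 11], .l [7, 10, 7, 14, 11, 11, 9, 2, 9], .l [12, 5, 6, 2, 13, 5, 5, 3, 7, 8, 5], .l [7, 10, 7, 14, 11, 11,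 9, 2, 9], .l [7, 8, 5, 12, 9, 9, 7, 0, 7], .l [4, 10, 3, 10, 6, 3, 11, 10, 10, 8, 3], .l [4, 10, 3, 10, 6, 3, 11, 10, 10, 8, 3], .l [14, 10, 10, 8, 3], .y [6, 10], .l [14, 10, 10, 8, 5, 13, 3, 3, 1, 9, 3, 5, 3], .l [4, 10, 3, 10, 6, 3, 11, 10, 10, 8, 3], .l [14, 10, 10, 8, 5], .l [3, 11, 13, 7, 4, 12, 11, 11, 9, 7, 3, 5, 3], .l [3, 11, 13, 7, 4], .l [12, 8, 8, 6, 11], .l [16, 9, 13, 5, 2, 9, 8, 6, 10, 6, 3], .l [16, 9, 13, 5, 2, 9, 8, 6, 10, 6, 3], .l [12, 8, 8, 6, 13]])]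

def d10_1 : List (List Item × Qry × List Rf) := [
([p 1 0, g, p 5 1, m 4 2, g, m 2 0, s 0 3, g, m 3 0, g, s 0 4, g, p 0 5, g], .hi 5, [.l [2, 6, 6, 4, 1], .l [1, 4, 2, 5], .l [2, 6], .l [6, 14, 9, 10, 2, 10, 2, 7, 4], .l [4, 7, 5, 13, 12, 12, 10, 1], .l [5, 6], .l [4, 12, 9, 9, 7, 0, 7], .l [4, 14, 11, 11, 9, 2, 4, 2, 7], .l [4, 5, 3, 13, 12, 12, 10, 3], .r 2623 [1, 2, 6, 3, 4, 5] [1, 1, 1, 1, 1, 1, 1], .l [6, 10, 8, 13, 10, 3, 4, 8, 5], .l [4, 5, 3, 13, 12, 12, 10, 5], .l [6, 10, 8, 13, 10, 3, 4, 8, 5], .y [3, 5, 10], .l [6, 12, 10, 13, 10, 3, 6, 8, 3], .l [4, 5, 3, 13, 12, 12, 10, 7], .l [6, 12, 10, 13, 10, 3, 6, 8, 3], .l [4, 5, 3, 11, 10, 10, 8, 7], .l [4, 12, 9, 10, 2, 10, 2, 7, 4], .l [4, 5, 3, 11, 10, 10, 8, 9],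 .l [4, 12, 9, 10, 2, 10, 2, 7, 4]]),
([p 1 0, g, s 3 0, g, p 5 1, m 4 2, g, m 2 0, s 0 3, g, s 0 4, g, p 0 5, g], .lo 8, [.l [10, 4, 4, 2, 7], .l [3, 7, 10, 4, 2, 7, 2, 3], .l [12, 4, 4, 2, 7], .l [1, 7, 10, 9, 4, 6, 7], .y [2, 8], .l [3, 7, 10, 4, 2, 7, 2, 3], .l [12, 4, 4, 2, 5], .l [3, 7, 10, 9, 2, 6, 7], .l [6, 14, 11, 11, 7, 2, 9], .l [7, 9, 6], .l [2, 9, 9, 6, 8, 6, 1], .l [2, 7, 7, 6, 6, 4, 1], .l [9, 14, 8, 9, 2, 10, 5, 7, 2, 3], .l [10, 1, 13, 7, 8, 2, 6, 7, 2, 3], .l [12, 6, 6, 4, 1], .l [10, 4, 7, 4, 9, 4, 6, 3], .l [5, 9, 11, 9, 6], .l [10, 4, 4, 2, 9], .l [10, 4, 7, 4, 9, 6, 9, 7, 4, 1], .l [5, 9, 13, 11, 6], .l [10, 4, 4, 2, 11]]),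
([p 1 0, g, p 6 1, m 5 2, g, m 2 0, s 4 3, g, s 3 0, g, p 0 4, g, s 0 5, g, p 0 6, g], .hi 5, [.l [2, 6, 6, 4, 1], .l [1, 4, 2, 5], .l [2, 6], .l [6, 16, 11, 12, 2, 12, 2, 9, 6], .l [4, 7, 5, 15, 14, 14, 12, 1], .l [5, 6], .l [4, 16, 13, 13, 11, 2, 6, 4, 9], .l [4, 5, 3, 15, 14, 14, 12, 3], .l [4, 10, 3, 10, 6, 3, 11, 10, 10, 8, 3], .l [4, 16, 13, 13, 11, 4, 6, 2, 9], .l [4, 5, 3, 15, 14, 14, 12, 5], .l [7, 10, 7, 14, 11, 11, 9, 2, 9], .l [4, 5, 3, 13, 12, 12, 10, 5], .l [8, 1, 11, 8, 13, 10, 3, 4, 8, 5], .l [4, 5, 3, 15, 14, 14, 12, 7], .l [7, 12, 9, 14, 11, 11, 9, 4, 9], .y [3, 5, 12], .l [8, 1, 13, 10, 13, 10, 3, 6, 8, 3], .l [4, 5, 3, 15, 14, 14, 12, 9], .l [7, 14, 11, 14, 11, 11, 9, 6, 9], .l [4, 5, 3, 13, 12, 12,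 10, 9], .l [4, 14, 11, 12, 2, 12, 2, 9, 6], .l [4, 5, 3, 13, 12, 12, 10, 11], .l [4, 14, 11, 12, 2, 12, 2, 9, 6]]),
([p 1 0, g, p 5 1, m 4 2, g, m 2 0, s 0 3, g, s 3 0, g, s 0 4, g, p 0 5, g], .lo 6, [.l [10, 6, 6, 4, 7], .l [9, 14, 8, 9, 2, 10, 5, 7, 2, 3], .l [12, 6, 6, 4, 7], .l [1, 5, 10, 9, 2, 4, 7], .l [4, 14, 11, 11, 9, 2, 9], .l [5, 7, 4], .l [4, 14, 11, 11, 9, 2, 9], .l [4, 12, 9, 9, 7, 0, 7], .l [7, 14, 8, 9, 2, 10, 3, 7, 4, 1], .l [6, 9, 6, 12, 10, 3, 4, 8, 5], .l [12, 8, 8, 6, 1], .y [6, 8], .l [7, 14, 8, 9, 2, 10, 3, 7, 4, 1], .r 2626 [1, 2, 3, 6, 4, 5] [1, 1, 1, 1, 1, 1, 1], .l [12, 8, 8, 6, 3], .l [7, 14, 8, 9, 4, 10, 3, 5, 2, 5], .l [3, 9, 11, 7, 4], .l [10, 6, 6, 4, 9], .l [7, 12, 6, 7, 2, 8, 3, 5, 2,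 5], .l [3, 9, 13, 9, 4], .l [10, 6, 6, 4, 11]]),
([p 1 0, g, p 5 1, m 4 2, g, m 2 0, s 0 3, g, s 0 4, g, s 3 0, g, p 0 5, g], .lo 6, [.l [8, 4, 4, 2, 5], .l [10, 4, 7, 4, 9, 4, 6, 3], .l [10, 4, 4, 2, 5], .l [1, 5, 8, 7, 2, 4, 5], .l [4, 14, 11, 11, 9, 2, 9], .l [5, 7, 4], .l [4, 14, 11, 11, 9, 2, 9], .l [4, 12, 9, 9, 7, 0, 7], .l [7, 14, 8, 9, 4, 10, 3, 5, 2, 5], .l [6, 11, 8, 12, 10, 3, 6, 8, 3], .l [10, 6, 6, 4, 1], .l [10, 3, 13, 5, 6, 9, 6, 4, 6, 3], .l [3, 7, 9, 7, 4], .l [8, 4, 4, 2, 7], .y [6, 10], .l [10, 3, 13, 5, 6, 9, 6, 4, 6, 3], .l [3, 7, 11, 9, 4], .l [8, 4, 4, 2, 9], .l [8, 4, 9, 6, 9, 6, 9, 5, 2, 5], .l [3, 7, 13, 11, 4], .l [8, 4, 4, 2, 11]]),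
([p 1 0, g, p 6 1, m 5 2, g, m 2 3, s 0 4, g, s 3 0, g, s 0 5, g, p 0 6, g, s 4 0, g], .lo 6, [.l [10, 6, 6, 4, 7], .l [16, 7, 11, 5, 2, 7, 11, 7, 2, 3], .l [12, 6, 6, 4, 7], .l [1, 5, 10, 9, 2, 4, 7], .l [4, 14, 11, 11, 9, 2, 9], .l [5, 7, 4], .l [4, 14, 11, 11, 9, 2, 9], .l [16, 9, 13, 5, 2, 7, 11, 7, 2, 3], .l [16, 9, 13, 5, 2, 7, 11, 7, 2, 3], .l [12, 8, 8, 6, 1], .l [4, 12, 9, 9, 7, 2, 2, 0, 5], .l [16, 9, 13, 5, 2, 9, 11, 5, 2, 7], .l [4, 14, 11, 11, 9, 2, 4, 2, 7], .l [12, 8, 8, 6, 3], .l [16, 9, 13, 5, 2, 9, 11, 5, 2, 5], .l [3, 9, 11, 7, 4], .l [10, 6, 6, 4, 9], .l [14, 7, 11, 5, 2, 7, 9, 5, 2, 7], .l [3, 9, 13, 9, 4], .l [10, 6, 6, 4, 11], .y [6, 14], .l [14, 7, 11, 5, 2, 7, 9, 5, 2, 7], .l [3, 9, 15, 11, 4],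 .l [10, 6, 6, 4, 13]]),
([p 1 0, g, p 5 1, m 4 2, g, m 2 0, s 0 3, g, s 0 4, g, p 0 5, g, s 3 0, g], .hi 5, [.l [2, 6, 6, 4, 1], .l [1, 4, 2, 5], .l [2, 6], .l [6, 12, 7, 8, 2, 8, 2, 5, 2], .l [4, 7, 5, 11, 10, 10, 8, 1], .l [5, 6], .l [4, 10, 7, 7, 5, 0, 5], .r 2629 [1, 2, 6, 3, 4, 5] [1, 1, 1, 1, 1, 1, 1], .l [4, 5, 3, 11, 10, 10, 8, 3], .l [14, 7, 11, 5, 2, 7, 9, 5, 2], .y [3, 5, 8], .l [3, 7, 2, 7, 9, 6, 9, 5, 2, 5], .l [4, 5, 3, 11, 10, 10, 8, 5], .l [14, 7, 11, 5, 2, 5, 9, 7, 2], .l [4, 5, 3, 9, 8, 8, 6, 5], .l [4, 10, 7, 8, 2, 8, 2, 5, 2], .l [4, 5, 3, 9, 8, 8, 6, 7], .l [4, 10, 7, 8, 2, 8, 2, 5, 2], .l [4, 10, 7, 8, 2, 10, 4, 7, 2], .l [4, 5, 3, 9, 8, 8, 6, 9], .l [11, 14, 7, 12, 9, 9, 7, 2, 7]]),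
([p 1 0, g, p 4 1, m 3 2, g, m 2 0, s 0 0, g, s 0 3, g, p 0 4, g], .hi 6, [.r 2625 [1, 2, 5, 3, 4] [1, 1, 1, 1, 1, 1], .l [1, 5, 8, 7, 2, 4, 5], .l [10, 4, 4, 2, 5], .l [4, 12, 9, 9, 7, 2, 7], .l [4, 12, 9, 9, 7, 2, 7], .l [5, 7, 4], .y [6], .r 2627 [1, 2, 5, 3, 4] [1, 1, 1, 1, 1, 1], .l [10, 6, 6, 4, 1], .r 2624 [1, 2, 5, 3, 4] [1, 1, 1, 1, 1, 1], .l [8, 4, 4, 2, 1], .r 2628 [1, 2, 5, 3, 4] [1, 1, 1, 1, 1, 1], .l [8, 4, 4, 2, 7], .l [3, 7, 9, 7, 4], .l [8, 4, 4, 2, 7], .r 2630 [1, 2, 5, 3, 4] [1, 1, 1, 1, 1, 1], .l [8, 4, 4, 2, 9], .l [3, 7, 11, 9, 4]]),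
([p 1 0, g, s 5 0, g, p 3 1, m 6 2, g, p 4 3, g, p 0 4, g, m 2 0, s 0 5, g, s 0 6, g], .hi 2, [.l [16, 8, 9, 7, 7, 5, 9, 1, 9, 5, 2, 5], .l [16, 8, 8, 2, 9, 13, 11, 11, 9, 9, 7, 5, 1], .l [16, 8, 8, 2, 9, 9, 9, 11, 9, 9, 7, 7, 5], .l [1, 7, 14, 9, 7, 11, 4, 1], .l [16, 8, 8, 2, 11, 13, 9, 9, 7, 7, 5, 7, 3], .l [16, 8, 8, 2, 11, 11, 9, 11, 9, 9, 7, 7, 5], .l [2, 6, 12, 10, 1], .l [2, 6, 12, 10, 1], .l [16, 10, 10, 2, 11, 13, 11, 9, 7, 9, 7, 7, 5], .l [2, 8, 10, 8, 10, 8, 1], .l [2, 8, 10, 8, 10, 8, 1], .l [16, 10, 10, 2, 11, 13, 11, 11, 9, 7, 5, 7, 5], .l [2, 8, 8, 6, 8, 6, 1], .l [2, 10, 12, 6, 1], .l [2, 10, 12, 6, 1], .l [16, 10, 10, 2, 11, 13, 11, 11, 9, 9, 7, 5, 3], .y [2, 12], .l [1, 5, 14, 11, 7, 11, 4, 1], .l [16,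 10, 10, 4, 11, 13, 11, 11, 9, 9, 7, 5, 1], .l [16, 10, 11, 9, 9, 7, 9, 6, 1, 4, 7, 5, 2], .l [14, 8, 8, 2, 9, 11, 9, 9, 7, 7, 5, 3, 1], .l [1, 5, 12, 9, 7, 9, 2, 9], .l [14, 8, 8, 2, 9, 11, 9, 9, 7, 7, 5, 3, 5], .l [14, 8, 8, 2, 9, 11, 9, 9, 7, 7, 5, 7, 3]]),
([p 1 0, g, p 3 1, m 7 2, g, p 4 3, g, p 6 4, g, m 2 0, s 0 5, g, s 0 6, g, s 5 0, g, s 0 7, g], .lo 10, [.l [10, 9, 9, 7, 7, 4, 4, 2, 4, 2, 5], .l [8, 9, 7, 7, 4, 5, 12, 8, 2, 9, 0, 3], .l [12, 9, 11, 9, 9, 6, 6, 4, 6, 4, 7], .l [1, 5, 16, 15, 2, 8, 13], .l [5, 11, 8], .l [5, 11, 8], .l [2, 7, 6, 17, 14, 3, 13, 6, 9], .l [7, 11, 6], .l [7, 11, 6], .l [3, 17, 10, 4, 14], .l [9, 11, 4], .l [9, 11, 4], .l [3, 17, 8, 2, 14], .l [3, 15, 6, 0, 12], .l [6, 7, 5, 8, 12,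 9, 2, 5, 8, 5, 0, 1], .l [3, 10, 15, 10, 3, 6, 11, 8, 1], .l [18, 14, 14, 8, 1], .l [6, 7, 5, 8, 12, 9, 2, 7, 8, 3, 0, 3], .l [3, 10, 15, 10, 3, 8, 11, 6, 1], .l [18, 14, 14, 8, 3], .y [10, 14], .l [6, 7, 5, 8, 12, 9, 2, 7, 8, 3, 0, 3], .l [6, 7, 5, 12, 3, 12, 8, 5, 3, 2, 2, 0, 5], .l [18, 14, 14, 8, 5], .l [6, 7, 5, 5, 2, 3, 10, 12, 6, 3, 0, 5], .l [3, 15, 17, 11, 8], .l [16, 12, 12, 6, 15]]),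
([p 1 0, g, p 3 1, m 7 2, g, p 4 3, g, p 6 4, g, m 2 0, s 0 5, g, s 5 0, g, s 0 6, g, s 0 7, g], .lo 10, [.l [10, 9, 9, 7, 7, 4, 4, 2, 4, 2, 3], .l [8, 9, 7, 7, 4, 5, 12, 8, 2, 9, 0, 1], .l [12, 9, 11, 9, 9, 6, 6, 4, 6, 4, 5], .l [1, 5, 16, 15, 2, 8, 13], .l [5, 11, 8], .l [5, 11, 8], .l [2, 7, 6, 17, 14, 3, 13, 6, 9], .l [7, 11, 6], .l [7, 11, 6], .l [3, 17, 10, 4, 14], .l [9, 11, 4], .l [9, 11, 4], .l [3, 17, 8, 2, 14], .l [3, 15, 6, 0, 12], .l [6, 7, 5, 8, 10, 7, 2, 5, 6, 3, 0, 5], .l [3, 10, 13, 8, 3, 6, 9, 6, 1], .l [18, 14, 14, 8, 1], .y [10, 12], .l [6, 7, 5, 8, 10, 7, 2, 5, 6, 3, 0, 5], .l [6, 7, 5, 10, 1, 10, 8, 5, 3, 2, 2, 0, 5], .l [18, 14, 14, 8, 3], .l [6, 7, 5, 8, 12, 9, 2, 5, 8, 5, 0, 1], .l [6, 7, 5, 10,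 1, 12, 10, 5, 3, 2, 2, 0, 3], .l [18, 14, 14, 8, 5], .l [6, 7, 5, 5, 2, 3, 10, 12, 6, 3, 0, 7], .l [3, 15, 17, 11, 8], .l [16, 12, 12, 6, 15]]),
([p 1 0, g, p 3 1, m 6 2, g, p 4 3, g, p 0 4, g, m 2 0, s 0 5, g, s 5 0, g, s 0 6, g], .lo 7, [.y [0, 7, 5, 2], .l [2, 8, 8, 6, 8, 6, 1], .l [2, 8], .l [1, 4, 2, 7], .l [16, 12, 13, 9, 9, 7, 9, 1, 9, 7, 4], .l [5, 8], .l [4, 7, 4, 4, 2, 5], .l [16, 12, 13, 11, 11, 7, 9, 1, 9, 7, 4], .l [7, 8], .l [6, 9, 7, 7, 4, 4, 2, 1], .l [4, 5, 2, 3, 12, 8, 1, 3, 9, 0, 5], .l [16, 12, 13, 11, 11, 9, 9, 7, 7, 8, 7, 4, 1], .l [6, 7, 5, 5, 2, 2, 0, 3], .l [6, 7, 5, 5, 2, 2, 0, 3], .r 2633 [1, 2, 3, 4, 5, 7, 6] [1, 1, 1, 1, 1, 1, 1, 1], .l [16, 12, 6, 8, 11, 7, 7, 5, 7, 1, 7, 5, 2], .l [6, 7,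 5, 5, 2, 2, 0, 6], .l [14, 10, 11, 9, 9, 7, 7, 2, 1, 4, 1, 5, 3], .r 2634 [1, 2, 3, 4, 5, 7, 6] [1, 1, 1, 1, 1, 1, 1, 1], .l [16, 12, 13, 11, 11, 9, 9, 2, 1, 6, 1, 7, 3], .l [6, 7, 5, 5, 2, 2, 0, 8], .l [15, 1, 10, 11, 9, 9, 7, 7, 8, 7, 4], .l [14, 10, 10, 4, 1, 13, 7, 7, 5, 5, 3, 3, 1], .l [6, 7, 5, 5, 2, 2, 0, 10]]),
([p 1 0, g, p 3 1, m 6 2, g, p 4 3, g, p 0 4, g, m 2 0, s 0 5, g, s 0 6, g, s 5 0, g], .lo 7, [.y [0, 7, 5, 2], .l [2, 8, 8, 6, 8, 6, 1], .l [2, 8], .l [1, 4, 2, 7], .l [14, 10, 11, 7, 7, 5, 7, 1, 7, 5, 2], .l [5, 8], .l [4, 7, 4, 4, 2, 5], .l [14, 10, 11, 9, 9, 5, 7, 1, 7, 5, 2], .l [7, 8], .l [6, 9, 7, 7, 4, 4, 2, 1], .l [4, 5, 2, 3, 10, 6, 1, 3, 7, 0, 3], .l [14, 10, 11, 9, 9, 7, 7, 5, 5, 6, 5, 2, 5],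 .l [6, 7, 5, 5, 2, 2, 0, 3], .l [6, 7, 5, 5, 2, 2, 0, 3], .l [6, 7, 5, 5, 2, 3, 8, 10, 6, 3, 0, 5], .l [6, 7, 5, 5, 2, 10, 6, 6, 4, 8, 2, 0, 3], .l [6, 7, 5, 5, 2, 2, 0, 6], .l [6, 7, 5, 5, 2, 3, 6, 10, 8, 3, 0, 3], .l [2, 12, 8, 1, 9, 11, 3, 1, 7, 2, 7, 3, 1], .l [6, 7, 5, 5, 2, 2, 0, 8], .l [6, 7, 5, 5, 2, 3, 6, 5, 0, 6, 6, 2, 3], .l [6, 7, 5, 5, 2, 3, 6, 8, 6, 3, 0, 5], .l [2, 12, 8, 1, 9, 13, 5, 1, 9, 2, 5, 1, 5], .l [6, 7, 5, 5, 2, 2, 0, 10]]),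
([p 1 0, g, p 3 1, m 7 2, g, p 4 3, g, p 5 4, g, p 0 5, g, m 2 0, s 0 6, g, m 6 0, g, s 0 7, g], .lo 12, [.l [16, 12, 12, 4, 13], .l [18, 12, 12, 4, 13, 15, 13, 13, 11, 11, 9, 9, 7], .l [18, 12, 12, 4, 13], .l [1, 5, 16, 15, 2, 10, 13], .l [5, 13, 10], .l [5, 13, 10], .l [2, 7, 6, 17, 14, 3, 13, 4, 9], .l [7, 13, 8], .l [7, 13, 8], .l [3, 17, 10, 6, 14], .l [9, 13, 6], .l [9, 13, 6], .l [3, 17, 8, 4, 14], .l [11, 13, 4], .l [11, 13, 4], .l [3, 17, 6, 2, 14], .l [3, 15, 4, 0, 12], .l [18, 14, 15, 13, 13, 11, 11, 9, 9, 10, 9, 6, 1], .l [7, 14, 1, 9, 15, 3, 8, 4, 10, 5, 6, 8, 5], .l [18, 14, 14, 6, 1], .y [12, 14], .l [3, 12, 15, 8, 3, 6, 11, 8, 1], .l [7, 14, 1, 9, 15, 3, 8, 4, 10, 5, 6, 8, 5], .l [18, 14, 14, 6, 3], .l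 [3, 12, 17, 10, 3, 6, 13, 10, 1], .l [3, 15, 17, 13, 10], .l [16, 12, 12, 4, 15]]),
([p 1 0, g, p 3 1, m 6 2, g, p 4 3, g, p 0 4, g, m 2 0, s 0 5, g, m 5 0, g, s 0 6, g], .lo 7, [.y [0, 7, 5, 2], .l [2, 8, 8, 6, 8, 6, 1], .l [2, 8], .l [1, 4, 2, 7], .l [16, 12, 13, 9, 9, 7, 9, 1, 9, 7, 4], .l [5, 8], .l [4, 7, 4, 4, 2, 5], .l [16, 12, 13, 11, 11, 7, 9, 1, 9, 7, 4], .l [7, 8], .l [6, 9, 7, 7, 4, 4, 2, 1], .l [4, 5, 2, 3, 12, 8, 1, 3, 9, 0, 5], .r 2637 [1, 2, 3, 4, 7, 5, 6] [1, 1, 1, 1, 1, 1, 1, 1], .l [6, 7, 5, 5, 2, 2, 0, 3], .l [6, 7, 5, 5, 2, 2, 0, 3], .l [6, 7, 5, 5, 2, 3, 10, 3, 7, 2, 7, 4, 1], .l [16, 12, 13, 11, 11, 9, 9, 4, 1, 4, 7, 5, 2], .l [6, 7, 5, 5, 2, 2, 0, 6], .l [6, 7, 5, 5, 2, 2, 0, 6], .l [16, 12, 13,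 11, 11, 9, 9, 2, 4, 8, 5, 2, 5], .l [16, 12, 13, 11, 11, 9, 9, 2, 4, 8, 5, 2, 5], .l [6, 7, 5, 5, 2, 2, 0, 8], .l [14, 10, 11, 9, 9, 7, 7, 9, 6, 1, 4, 5, 2], .l [1, 14, 10, 6, 13, 9, 3, 10, 5, 0, 5], .l [6, 7, 5, 5, 2, 2, 0, 10]]),
([p 1 0, g, p 3 1, m 5 2, g, p 4 3, g, p 0 4, g, m 2 0, s 0 0, g, s 0 5, g], .hi 10, [.r 2632 [1, 2, 3, 4, 6, 5] [1, 1, 1, 1, 1, 1, 1], .l [1, 5, 12, 11, 2, 8, 9], .l [14, 8, 8, 2, 9], .l [5, 11, 8], .l [2, 7, 6, 13, 10, 3, 9, 2, 5], .l [5, 11, 8], .l [7, 11, 6], .l [3, 13, 6, 4, 10], .l [7, 11, 6], .l [3, 11, 4, 2, 8], .l [9, 11, 4], .l [3, 13, 4, 2, 10], .l [9, 11, 4], .y [10], .r 2635 [1, 2, 3, 4, 6, 5] [1, 1, 1, 1, 1, 1, 1], .l [14, 10, 10, 4, 1], .r 2638 [1, 2, 3, 4, 6, 5] [1, 1, 1, 1,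 1, 1, 1], .l [12, 8, 8, 2, 1], .r 2636 [1, 2, 3, 4, 6, 5] [1, 1, 1, 1, 1, 1, 1], .l [12, 8, 8, 2, 11], .l [3, 11, 13, 11, 8]]),
([p 1 0, g, p 3 1, m 6 2, g, p 5 3, g, m 2 0, s 4 0, g, s 0 4, g, s 0 5, g, s 0 6, g], .hi 8, [.l [6, 7, 4, 5, 12, 8, 2, 9, 0, 1], .l [1, 5, 14, 13, 2, 6, 11], .l [10, 7, 9, 7, 7, 4, 6, 4, 5], .l [5, 9, 6], .l [2, 7, 6, 15, 12, 3, 11, 6, 7], .l [5, 9, 6], .l [7, 9, 4], .l [3, 15, 8, 2, 12], .l [7, 9, 4], .l [4, 8, 10, 7, 2, 5, 6, 3, 0, 5], .l [16, 12, 12, 8, 1], .l [3, 8, 11, 8, 3, 6, 7, 4, 1], .y [8, 10], .l [4, 8, 10, 7, 2, 5, 6, 3, 0, 5], .l [16, 12, 12, 8, 3], .l [10, 1, 13, 8, 8, 5, 6, 9, 6, 4, 6, 3], .l [8, 11, 13, 6, 7, 5, 5, 2, 7, 4, 4, 1], .l [4, 8, 12, 9, 2, 5, 8, 5, 0, 1], .l [16,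 12, 12, 8, 5], .l [16, 12, 13, 11, 11, 4, 1, 6, 9, 5, 2, 5], .l [14, 10, 10, 6, 5], .l [4, 5, 2, 3, 10, 12, 6, 3, 0, 7], .l [14, 10, 10, 6, 13], .l [3, 13, 15, 9, 6]]),
([p 1 0, g, p 3 1, m 6 2, g, p 4 3, g, m 2 0, s 5 0, g, s 0 4, g, s 0 5, g, s 0 6, g], .hi 8, [.l [6, 7, 4, 5, 12, 8, 2, 9, 0, 3], .l [1, 5, 14, 13, 2, 6, 11], .l [10, 7, 9, 7, 7, 4, 6, 4, 7], .l [5, 9, 6], .l [2, 7, 6, 15, 12, 3, 11, 6, 7], .l [5, 9, 6], .l [7, 9, 4], .l [3, 15, 8, 2, 12], .l [7, 9, 4], .l [4, 8, 12, 9, 2, 5, 8, 5, 0, 1], .l [16, 12, 12, 8, 1], .l [3, 8, 13, 10, 3, 6, 9, 6, 1], .l [4, 8, 10, 7, 2, 5, 6, 3, 0, 3], .l [4, 8, 12, 9, 2, 7, 8, 3, 0, 3], .l [16, 12, 12, 8, 3], .l [3, 8, 13, 10, 3, 8, 9, 4, 1], .y [8, 12], .l [4, 8, 12, 9, 2,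 7, 8, 3, 0, 3], .l [16, 12, 12, 8, 5], .l [16, 12, 13, 11, 11, 6, 3, 6, 9, 7, 4, 1], .l [14, 10, 10, 6, 5], .l [4, 5, 2, 3, 10, 12, 6, 3, 0, 5], .l [14, 10, 10, 6, 13], .l [3, 13, 15, 9, 6]]),
([p 1 0, g, p 3 1, m 6 2, g, p 5 3, g, m 2 0, s 4 0, g, p 0 4, g, s 0 5, g, s 0 6, g], .hi 8, [.l [5, 10, 6, 3, 6, 9, 7, 4, 1], .l [1, 5, 14, 13, 2, 6, 11], .l [16, 10, 10, 6, 11], .l [5, 9, 6], .l [2, 7, 6, 15, 12, 3, 11, 6, 7], .l [5, 9, 6], .l [7, 9, 4], .l [3, 15, 8, 2, 12], .l [7, 9, 4], .l [10, 1, 13, 8, 8, 5, 6, 9, 6, 4, 6, 3], .l [16, 12, 12, 8, 1], .l [4, 10, 1, 10, 8, 5, 3, 2, 2, 0, 5], .y [8, 10], .l [3, 8, 11, 8, 3, 6, 7, 4, 1], .l [16, 12, 12, 8, 3], .l [4, 10, 1, 10, 8, 5, 3, 2, 2, 0, 5], .l [14, 10, 11, 9, 8, 6, 3,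 7, 3, 5, 1, 5, 3], .l [3, 8, 13, 10, 3, 6, 9, 6, 1], .l [16, 12, 12, 8, 5], .l [4, 10, 1, 12, 10, 5, 3, 2, 2, 0, 3], .l [14, 10, 10, 6, 5], .l [3, 8, 15, 12, 3, 6, 11, 8, 1], .l [14, 10, 10, 6, 13], .l [3, 13, 15, 9, 6]]),
([p 1 0, g, p 3 1, m 5 2, g, p 4 3, g, m 2 0, s 0 0, g, s 0 4, g, s 0 5, g], .lo 8, [.l [12, 8, 8, 4, 9], .l [6, 7, 4, 5, 10, 6, 2, 7, 0, 1], .l [14, 8, 8, 4, 9], .l [1, 5, 12, 11, 2, 6, 9], .l [5, 9, 6], .l [5, 9, 6], .l [2, 7, 6, 13, 10, 3, 9, 4, 5], .l [7, 9, 4], .l [7, 9, 4], .l [3, 13, 6, 2, 10], .l [3, 11, 4, 0, 8], .y [8], .r 2640 [1, 2, 3, 6, 4, 5] [1, 1, 1, 1, 1, 1, 1], .r 2642 [1, 2, 3, 6, 4, 5] [1, 1, 1, 1, 1, 1, 1], .l [14, 10, 10, 6, 1], .r 2641 [1, 2, 3, 4, 6, 5] [1, 1, 1, 1, 1, 1, 1],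 .l [1, 5, 0, 8, 10, 8, 3, 0, 3], .l [14, 10, 10, 6, 3], .l [4, 5, 2, 3, 8, 10, 6, 3, 0, 5], .l [3, 11, 13, 9, 6], .l [12, 8, 8, 4, 11]]),
([p 1 0, g, p 3 1, m 6 2, g, p 5 3, g, m 2 0, s 0 4, g, s 4 0, g, p 0 5, g, s 0 6, g], .lo 8, [.l [0, 7, 11, 8, 10, 8, 1], .l [2, 9, 13, 10, 12, 10, 1], .l [2, 9, 13, 10, 12, 10, 1], .l [16, 10, 10, 6, 1, 7, 3, 9, 3, 5, 3, 7, 3], .l [5, 9, 6], .l [5, 9, 6], .l [12, 1, 13, 8, 1, 9, 6], .l [6, 14, 12, 12, 9, 9, 7, 2, 7], .l [7, 9, 4], .l [6, 14, 12, 12, 9, 9, 7, 2, 7], .l [6, 12, 10, 10, 7, 7, 5, 0, 5], .l [8, 11, 15, 8, 9, 7, 7, 2, 9, 4, 6, 3], .l [16, 12, 13, 11, 10, 8, 3, 9, 3, 7, 1, 7, 3], .l [16, 12, 12, 8, 1], .y [8, 10], .l [8, 11, 15, 8, 9, 7, 7, 2, 9, 4, 6, 3], .l [10, 1, 13,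 8, 8, 5, 5, 3, 5, 8, 4, 2, 5], .l [16, 12, 12, 8, 3], .l [16, 12, 4, 8, 11, 5, 9, 3, 9, 5, 2, 5], .l [16, 12, 13, 11, 11, 4, 3, 8, 1, 9, 5, 7, 5], .l [16, 12, 12, 8, 5], .l [14, 10, 11, 9, 9, 2, 11, 4, 8, 5], .l [14, 10, 10, 6, 1, 7, 3, 11, 5, 7, 5, 5, 3], .l [14, 10, 10, 6, 13]]),
([p 1 0, g, p 3 1, m 6 2, g, p 5 3, g, m 2 0, s 0 4, g, p 0 5, g, s 4 0, g, s 0 6, g], .lo 8, [.l [0, 7, 9, 6, 8, 6, 1], .l [2, 9, 11, 8, 10, 8, 1], .l [2, 9, 11, 8, 10, 8, 1], .l [14, 3, 11, 7, 2, 8, 10, 6, 1], .l [5, 9, 6], .l [5, 9, 6], .l [2, 7, 6, 15, 12, 3, 11, 6, 7], .l [6, 12, 10, 10, 7, 7, 5, 2, 5], .l [7, 9, 4], .l [6, 12, 10, 10, 7, 7, 5, 2, 5], .l [6, 10, 8, 8, 5, 5, 3, 0, 3], .l [16, 12, 4, 8, 11, 5, 9, 3, 9, 5, 2, 5], .l [3, 8,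 13, 10, 3, 6, 9, 6, 1], .l [16, 12, 12, 8, 1], .l [16, 12, 4, 6, 11, 7, 9, 1, 9, 7, 4, 1], .l [3, 8, 13, 10, 3, 8, 9, 4, 1], .l [16, 12, 12, 8, 3], .y [8, 12], .l [16, 12, 4, 8, 11, 5, 7, 1, 9, 7, 2, 3], .l [4, 12, 3, 12, 8, 5, 3, 2, 2, 0, 5], .l [16, 12, 12, 8, 5], .l [14, 10, 4, 6, 9, 5, 7, 1, 7, 5, 2, 5], .l [3, 13, 1, 3, 6, 4, 11, 9, 6, 4, 3, 3, 1], .l [14, 10, 10, 6, 13]]),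
([p 1 0, g, p 3 1, m 5 2, g, p 4 3, g, m 2 0, s 0 0, g, p 0 4, g, s 0 5, g], .hi 8, [.l [2, 9, 11, 8, 10, 8, 1], .l [1, 5, 12, 11, 2, 6, 9], .l [2, 9, 11, 8, 10, 8, 1], .l [5, 9, 6], .l [2, 7, 6, 13, 10, 3, 9, 4, 5], .l [5, 9, 6], .l [6, 12, 10, 10, 7, 7, 5, 2, 5], .l [6, 12, 10, 10, 7, 7, 5, 2, 5], .l [7, 9, 4], .y [8], .r 2644 [1, 2, 3, 6, 4, 5] [1, 1, 1, 1, 1, 1, 1], .l [14, 10, 10, 6, 1], .l [14, 10, 11, 9, 9, 2, 4, 8, 5, 2, 5], .l [12, 8, 8, 4, 1], .r 2645 [1, 2, 3, 6, 4, 5] [1, 1, 1, 1, 1, 1, 1], .l [14, 10, 10, 6, 3], .l [14, 10, 11, 9, 9, 4, 1, 4, 7, 5, 2], .l [12, 8, 8, 4, 3], .l [12, 8, 9, 7, 7, 2, 9, 4, 6, 3], .l [12, 8, 8, 4, 11], .l [3, 11, 13, 9, 6]]),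
([p 1 0, g, p 3 1, m 4 2, g, p 0 3, g, m 2 0, s 0 0, g, s 0 4, g], .lo 5, [.y [0, 5, 2], .l [2, 6, 8, 6, 1], .l [2, 6], .l [1, 4, 2, 5], .l [12, 8, 9, 5, 7, 1, 7, 5, 2], .l [5, 6], .l [4, 7, 4, 4, 2, 1], .l [1, 3, 10, 6, 1, 3, 7, 0, 3], .r 2639 [1, 2, 3, 5, 4] [1, 1, 1, 1, 1, 1], .l [4, 5, 2, 2, 0, 3], .l [4, 5, 2, 2, 0, 3], .l [2, 5, 4, 9, 6, 1, 5, 2, 3], .r 2643 [1, 2, 3, 5, 4] [1, 1, 1, 1, 1, 1], .r 2646 [1, 2, 3, 5, 4] [1, 1, 1, 1, 1, 1], .l [4, 5, 2, 2, 0, 6], .l [11, 1, 6, 7, 5, 5, 6, 5, 2], .r 2601 [1, 2, 3, 4, 5] [1, 1, 1, 2, 1, 1], .l [4, 5, 2, 2, 0, 8]]),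
([p 1 0, g, p 4 1, m 5 2, g, m 2 0, s 0 3, g, s 3 0, g, p 0 4, g, s 0 5, g], .lo 6, [.l [12, 8, 8, 6, 9], .l [3, 5, 12, 8, 2, 9, 0, 1], .l [14, 8, 8, 6, 9], .l [1, 5, 12, 11, 2, 4, 9], .l [4, 12, 9, 9, 7, 2, 7], .l [5, 7, 4], .l [4, 12, 9, 9, 7, 2, 7], .l [4, 10, 7, 7, 5, 0, 5], .l [6, 9, 13, 6, 7, 2, 9, 4, 6, 3], .l [6, 9, 6, 10, 8, 3, 4, 6, 3], .l [14, 10, 10, 8, 1], .y [6, 8], .l [6, 9, 13, 6, 7, 2, 9, 4, 6, 3], .l [8, 1, 11, 5, 6, 9, 6, 4, 6, 3], .l [14, 10, 10, 8, 3], .l [14, 10, 11, 4, 1, 6, 9, 5, 2, 5], .l [14, 10, 11, 4, 1, 6, 9, 5, 2], .l [14, 10, 10, 8, 5], .l [12, 8, 9, 2, 11, 4, 8, 5], .l [3, 11, 13, 7, 4], .l [12, 8, 8, 6, 11]]),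
([p 1 0, g, p 4 1, m 5 2, g, m 2 0, s 0 3, g, p 0 4, g, s 3 0, g, s 0 5, g], .lo 6, [.l [12, 8, 8, 6, 9], .l [14, 8, 9, 4, 1, 4, 9, 7, 2, 3], .l [14, 8, 8, 6, 9], .l [1, 5, 12, 11, 2, 4, 9], .l [4, 10, 7, 7, 5, 2, 5], .l [5, 7, 4], .l [4, 10, 7, 7, 5, 2, 5], .l [4, 8, 5, 5, 3, 0, 3], .l [14, 10, 11, 4, 1, 6, 9, 5, 2, 5], .l [14, 10, 11, 4, 1, 6, 9, 5, 2, 5], .l [14, 10, 10, 8, 1], .l [14, 10, 11, 6, 1, 6, 9, 7, 4, 1], .l [6, 11, 8, 5, 3, 6, 7, 4, 1], .l [14, 10, 10, 8, 3], .y [6, 10], .l [14, 10, 11, 6, 1, 6, 9, 7, 4, 1], .l [14, 10, 11, 6, 3, 6, 9, 7, 4], .l [14, 10, 10, 8, 5], .l [12, 8, 9, 4, 1, 4, 7, 5, 2, 5], .l [3, 11, 13, 7, 4], .l [12, 8, 8, 6, 11]]),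
([p 1 0, g, p 3 1, m 4 2, g, m 2 0, s 0 0, g, p 0 3, g, s 0 4, g], .hi 6, [.l [3, 5, 10, 6, 2, 7, 0, 1], .l [1, 5, 10, 9, 2, 4, 7], .l [12, 6, 6, 4, 7], .l [4, 10, 7, 7, 5, 2, 5], .l [4, 10, 7, 7, 5, 2, 5], .l [5, 7, 4], .y [6], .r 2648 [1, 2, 5, 3, 4] [1, 1, 1, 1, 1, 1], .l [12, 8, 8, 6, 1], .l [12, 8, 9, 2, 4, 8, 5, 2, 5], .l [10, 6, 6, 4, 1], .r 2649 [1, 2, 5, 3, 4] [1, 1, 1, 1, 1, 1], .l [12, 8, 8, 6, 3], .l [12, 8, 9, 4, 1, 4, 7, 5, 2], .l [10, 6, 6, 4, 3], .l [10, 6, 7, 2, 9, 4, 6, 3], .l [10, 6, 6, 4, 9], .l [3, 9, 11, 7, 4]]),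
([p 1 0, g, p 4 1, m 6 2, g, m 2 0, s 5 3, g, s 3 4, g, s 0 5, g, s 0 6, g], .hi 0, [.l [2, 1, 7, 9, 6, 9, 4, 2, 6, 1], .l [0, 1], .l [2, 1], .l [0, 4, 6, 4, 1], .l [0, 4], .l [5, 4], .l [10, 3, 1, 7, 11, 8, 9, 6, 1, 4, 4, 1], .l [0, 7], .l [8, 7], .l [6, 7, 9, 7, 11, 8, 9, 6, 1, 4, 4, 1], .l [0, 9], .l [10, 9], .y [0, 10, 6, 8, 2], .l [6, 7, 11, 9, 11, 8, 9, 6, 3, 4, 4, 1], .l [0, 11], .l [12, 11], .l [12, 11, 2, 9, 3, 6, 7, 0, 4], .l [14, 13, 2, 9, 3, 6, 9, 2, 6, 1], .l [0, 13], .l [14, 13]]),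
([p 1 0, g, p 3 1, m 5 2, g, m 2 0, s 4 0, g, s 0 3, g, s 0 4, g, s 0 5, g], .hi 6, [.l [3, 5, 12, 8, 2, 9, 0, 3], .l [1, 5, 12, 11, 2, 4, 9], .l [14, 8, 8, 6, 9], .l [5, 7, 4], .l [3, 13, 8, 2, 10], .l [5, 7, 4], .l [14, 10, 11, 4, 1, 6, 9, 5, 2, 5], .l [14, 10, 10, 8, 1], .l [6, 11, 1, 5, 6, 9, 6, 4, 6, 3], .r 2651 [1, 2, 6, 3, 4, 5] [1, 1, 1, 1, 1, 1], .l [14, 10, 11, 6, 1, 6, 9, 7, 4, 1], .l [14, 10, 10, 8, 3], .l [14, 10, 11, 6, 1, 6, 9, 7, 4, 1], .y [6, 10], .l [14, 10, 11, 6, 1, 6, 9, 7, 4, 1], .l [14, 10, 10, 8, 5], .l [14, 10, 11, 6, 3, 6, 9, 7, 4, 1], .l [12, 8, 8, 6, 5], .l [1, 3, 10, 12, 6, 3, 0, 5], .l [12, 8, 8, 6, 11], .l [3, 11, 13, 7, 4]]),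
([p 2 1, g, p 5 2, m 6 3, g, m 3 0, s 4 0, g, s 1 0, g, s 0 4, g, s 0 5, g, s 0 6, g], .hi 6, [.l [3, 5, 14, 10, 2, 11, 0, 1], .l [1, 5, 14, 13, 2, 4, 11], .l [16, 10, 10, 8, 11], .l [5, 7, 4], .l [3, 15, 10, 2, 12], .l [5, 7, 4], .l [10, 9, 15, 12, 4, 1, 4, 9, 6, 1], .l [16, 12, 12, 10, 1], .l [6, 11, 8, 13, 1, 10, 3, 6, 8, 3], .l [16, 12, 2, 6, 3, 11, 11, 9, 4, 5], .l [16, 12, 12, 10, 3], .l [6, 11, 8, 13, 1, 10, 5, 6, 8, 5], .y [6, 10], .l [16, 12, 2, 4, 1, 11, 11, 9, 6, 1], .l [16, 12, 12, 10, 5], .l [10, 3, 13, 5, 6, 11, 8, 4, 8, 5], .l [6, 11, 13, 4, 5, 2, 9, 6, 6, 3], .l [16, 12, 2, 4, 1, 11, 11, 9, 6, 3], .l [16, 12, 12, 10, 7], .l [16, 12, 13, 4, 1, 8, 11, 5, 2, 5], .l [14, 10, 10, 8, 7], .l [1, 3, 12, 14, 6,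 3, 0, 9], .l [14, 10, 10, 8, 13], .l [3, 13, 15, 7, 4]]),
([p 3 1, g, s 1 0, g, s 0 2, p 6 3, m 7 4, g, m 4 0, s 5 0, g, s 0 5, g, s 0 6, g, s 2 0, g, s 0 7, g], .lo 4, [.l [19, 10, 16, 3, 16, 11, 8, 1], .l [6, 3, 6, 0, 12], .l [17, 10, 7, 4, 12, 3, 13, 7, 4, 1], .l [17, 10, 14, 1, 14, 11, 8, 1], .l [19, 10, 14, 1, 16, 13, 8, 1], .l [6, 1, 6, 0, 12], .l [17, 10, 7, 4, 10, 1, 13, 9, 4, 1], .l [4, 7, 9, 7, 0], .l [8, 3, 13], .l [3, 5, 1, 15, 8, 13, 5, 1, 8, 1], .l [3, 5, 1, 13, 6, 11, 5, 1, 8, 1], .l [17, 10, 10, 8, 10, 5], .l [2, 1, 18, 12, 4, 12, 4, 8, 4, 11], .l [11, 6, 13], .l [6, 15, 13, 15, 6, 13, 3, 7, 2, 7], .l [2, 1, 18, 12, 6, 12, 4, 6, 2, 11], .l [13, 8, 13], .l [6, 15, 13, 15, 4, 13, 3, 9, 4, 1], .l [19, 12,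 14, 3, 7, 4, 1, 13, 9, 4], .l [15, 10, 7], .l [12, 4, 7, 15, 1, 13, 10, 9, 4, 1], .y [4, 15], .l [19, 12, 14, 3, 7, 4, 1, 13, 9, 4], .l [17, 12, 7], .l [16, 1, 10, 7, 4, 8, 12, 9, 4, 1], .l [2, 1, 5, 14, 16, 3, 11, 6, 9, 6], .l [19, 14, 7], .l [6, 16, 3, 13, 15, 1, 8, 1]]),
([p 2 0, g, s 0 1, p 5 2, m 0 3, g, m 3 0, s 4 0, g, s 0 4, g, s 0 5, g, p 1 0, g], .hi 6, [.l [2, 7, 7, 5, 2], .l [1, 5, 3, 6], .l [2, 7], .l [1, 3, 1, 11, 6, 9, 3], .y [4, 6], .l [5, 13, 10, 12, 1, 6, 1, 3, 6, 1], .l [4, 13, 11, 13, 9, 1, 1, 6, 7], .l [6, 7], .l [5, 13, 10, 12, 1, 8, 3, 5, 6, 1], .l [2, 14, 8, 2, 9, 2, 6, 4, 7], .l [5, 13, 10, 12, 1, 8, 3, 5, 6, 1], .l [5, 11, 8, 8, 5, 2, 2, 0, 4, 5], .l [5, 13, 10, 12, 1, 8, 1, 5, 6, 3], .l [2,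 14, 8, 4, 9, 2, 4, 2, 7], .l [8, 11, 8, 11, 8, 8, 5, 2, 6, 7], .l [2, 3, 0, 9, 9, 4, 4, 2, 7], .l [5, 11, 8, 12, 3, 8, 1, 3, 6, 1], .l [5, 11, 8, 12, 3, 8, 1, 3, 6, 1], .l [2, 3, 0, 9, 11, 6, 6, 4, 9], .l [2, 12, 6, 12, 4, 0, 5, 1, 8, 1], .l [2, 12, 6, 12, 4, 0, 5], .l [2, 12, 14, 7, 7, 5, 0]]),
([p 2 1, g, s 1 0, g, s 0 0, p 5 2, m 6 3, g, m 3 0, s 4 0, g, s 0 4, g, s 0 5, g, s 0 6, g], .hi 4, [.l [17, 8, 14, 3, 14, 9, 6, 1], .l [17, 8, 14, 3, 14, 9, 6], .l [6, 3, 6, 0, 12], .l [17, 8, 12, 1, 14, 11, 6, 1], .l [17, 8, 12, 1, 14, 11, 6], .l [6, 1, 6, 0, 12], .y [4], .l [4, 7, 9, 7, 0], .l [4, 7, 9, 7, 0], .l [8, 3, 13], .l [2, 1, 16, 10, 4, 10, 2, 6, 4, 9], .l [14, 3, 8, 12, 11], .l [11, 6, 13], .l [15, 8, 8, 6, 1, 1,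 6, 3], .l [2, 1, 16, 10, 6, 10, 2, 4, 2, 9], .l [14, 1, 8, 12, 11], .l [13, 8, 13], .l [13, 8, 7], .r 2654 [1, 7, 2, 3, 4, 5, 6] [1, 1, 1, 1, 1, 1, 1, 1], .r 2655 [7, 2, 3, 4, 5] [3, 1, 1, 1, 1, 3], .l [15, 10, 7], .l [15, 10, 1, 9, 1, 6, 11, 4, 8, 1], .l [2, 1, 5, 12, 14, 3, 11, 6, 9, 6], .l [6, 14, 1, 11, 13, 1, 6, 1], .l [17, 12, 7]]),
([p 2 1, g, s 1 0, g, p 5 2, m 6 3, g, m 3 0, s 4 0, g, s 0 4, g, s 0 5, g, s 0 6, g], .bot 3, [.l [2, 1, 2, 0, 8], .r 2656 [1, 2, 3, 4, 5, 6] [1, 1, 1, 1, 1, 1, 1], .r 1128 [1, 2] [1, 1, 11], .r 1576 [1, 2] [1, 1, 11]]),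
([p 2 1, g, p 5 2, m 6 3, g, m 3 0, s 4 0, g, s 0 4, g, s 1 0, g, s 0 5, g, s 0 6, g], .hi 6, [.l [3, 5, 14, 10, 2, 11, 0, 1], .l [1, 5, 14, 13, 2, 4, 11], .l [16, 10, 10, 8, 11], .l [5, 7, 4], .l [3, 15, 10, 2, 12], .l [5, 7, 4], .l [12, 11, 15, 12, 4, 1, 6, 9, 4, 5], .l [16, 12, 12, 10, 1], .l [6, 9, 6, 13, 1, 10, 3, 4, 8, 5], .y [6, 8], .l [12, 11, 15, 12, 4, 1, 6, 9, 4, 5], .l [16, 12, 12, 10, 3], .l [8, 1, 13, 7, 8, 11, 6, 4, 8, 5], .l [10, 9, 15, 12, 4, 1, 4, 9, 6, 1], .l [16, 12, 12, 10, 5], .l [8, 1, 13, 7, 8, 11, 8, 6, 8, 5], .l [6, 11, 13, 4, 5, 2, 7, 4, 4, 1], .l [10, 9, 15, 12, 4, 1, 4, 9, 6, 3], .l [16, 12, 12, 10, 7], .l [16, 12, 13, 4, 1, 8, 11, 5, 2, 7], .l [14, 10, 10, 8, 7], .l [1, 3, 12, 14, 6, 3, 0,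 9], .l [14, 10, 10, 8, 13], .l [3, 13, 15, 7, 4]]),
([p 2 1, g, p 5 2, m 6 3, g, m 3 0, s 4 0, g, s 1 4, g, s 0 5, g, s 0 6, g], .hi 6, [.l [3, 5, 12, 8, 2, 9, 0, 1], .l [1, 5, 12, 11, 2, 4, 9], .l [14, 8, 8, 6, 9], .l [5, 7, 4], .l [10, 1, 4, 2, 2, 6, 6, 4, 1], .l [5, 7, 4], .l [10, 9, 13, 10, 4, 1, 4, 7, 4, 5], .l [14, 10, 10, 8, 1], .l [1, 6, 8, 12, 6, 8, 5, 8, 2, 3, 0, 3], .l [14, 10, 2, 4, 1, 9, 9, 7, 4, 5], .l [14, 10, 10, 8, 3], .l [0, 7, 2, 6, 4, 7, 2, 4, 1], .y [0, 8, 6, 10, 2], .l [14, 10, 2, 6, 3, 9, 9, 7, 2, 5], .l [14, 10, 10, 8, 5], .l [0, 7, 2, 6, 4, 9, 4, 6, 1], .l [12, 8, 8, 6, 5], .l [1, 3, 10, 12, 6, 3, 0, 7], .l [12, 8, 8, 6, 11], .l [3, 11, 13, 7, 4]]),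
([p 1 0, g, p 4 1, m 5 2, g, m 2 0, s 3 0, g, s 0 3, g, s 0 4, g, s 0 5, g], .hi 0, [.r 2657 [6, 1, 2, 3, 4, 5] [1, 1, 1, 1, 1, 1, 1], .l [0, 1], .l [2, 1], .l [0, 4, 6, 4, 1], .l [0, 4], .l [5, 4], .r 2653 [6, 1, 2, 3, 4, 5] [1, 1, 1, 1, 1, 1, 1], .l [0, 7], .l [8, 7], .r 2659 [6, 1, 2, 3, 4, 5] [1, 1, 1, 1, 1, 1], .r 2658 [6, 1, 2, 3, 4, 5] [1, 1, 1, 1, 1, 1, 1], .l [0, 9], .l [10, 9], .y [0, 10, 2], .l [12, 11, 13, 10, 11, 4, 1, 2, 6, 1], .l [0, 11], .l [12, 11], .l [12, 11, 2, 9, 1, 6, 7, 0, 4], .l [14, 13, 2, 9, 1, 6, 9, 2, 6, 1], .l [0, 13], .l [14, 13]]),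
([p 1 0, g, p 3 1, m 5 2, g, m 2 0, s 4 0, g, s 0 3, g, p 0 4, g, s 0 5, g], .hi 6, [.l [3, 5, 12, 8, 2, 9, 0, 3], .l [1, 5, 12, 11, 2, 4, 9], .l [14, 8, 8, 6, 9], .l [5, 7, 4], .l [3, 13, 8, 2, 10], .l [5, 7, 4], .l [14, 10, 11, 4, 1, 6, 9, 5, 2, 5], .l [14, 10, 10, 8, 1], .l [1, 3, 7, 1, 10, 8, 3, 0, 3], .l [8, 1, 2, 4, 2, 7, 4, 4, 1], .l [14, 10, 11, 6, 3, 6, 9, 7, 4, 1], .l [14, 10, 10, 8, 3], .l [1, 3, 9, 3, 10, 6, 3, 0, 5], .y [6, 10], .l [14, 10, 11, 6, 1, 6, 9, 7, 4, 1], .l [14, 10, 10, 8, 5], .l [1, 3, 9, 3, 10, 6, 3, 0, 5], .l [12, 8, 8, 6, 5], .l [1, 3, 10, 12, 6, 3, 0, 5], .l [12, 8, 8, 6, 11], .l [3, 11, 13, 7, 4]]),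
([p 1 0, g, p 4 1, m 5 2, g, m 2 0, s 3 0, g, p 0 3, g, s 0 4, g, s 0 5, g], .hi 6, [.l [3, 5, 12, 8, 2, 9, 0, 1], .l [1, 5, 12, 11, 2, 4, 9], .l [14, 8, 8, 6, 9], .l [5, 7, 4], .l [3, 13, 8, 2, 10], .l [5, 7, 4], .l [8, 1, 11, 5, 6, 9, 6, 4, 6, 3], .l [14, 10, 10, 8, 1], .l [1, 3, 7, 1, 8, 6, 3, 0, 5], .y [6, 8], .l [6, 9, 6, 11, 1, 8, 3, 4, 6, 3], .l [14, 10, 10, 8, 3], .l [1, 3, 7, 1, 8, 6, 3, 0, 5], .l [6, 9, 6, 8, 6, 3, 4, 4, 1], .l [6, 11, 1, 5, 6, 9, 6, 4, 6, 3], .l [14, 10, 10, 8, 5], .l [1, 3, 7, 1, 10, 8, 3, 0, 3], .l [12, 8, 8, 6, 5], .l [1, 3, 10, 12, 6, 3, 0, 7], .l [12, 8, 8, 6, 11], .l [3, 11, 13, 7, 4]]),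
([p 1 0, g, p 3 1, m 4 2, g, m 2 0, s 0 0, g, s 0 3, g, s 0 4, g], .lo 6, [.l [10, 6, 6, 4, 7], .l [3, 5, 10, 6, 2, 7, 0, 1], .l [12, 6, 6, 4, 7], .l [1, 5, 10, 9, 2, 4, 7], .l [5, 7, 4], .l [5, 7, 4], .l [3, 11, 6, 2, 8], .l [3, 9, 4, 0, 6], .y [6], .r 2660 [1, 2, 5, 3, 4] [1, 1, 1, 1, 1, 1], .r 2662 [1, 2, 5, 3, 4] [1, 1, 1, 1, 1, 1], .l [12, 8, 8, 6, 1], .r 2652 [1, 2, 3, 5, 4] [1, 1, 1, 1, 1, 1], .r 2661 [1, 2, 3, 5, 4] [1, 1, 1, 1, 1, 1], .l [12, 8, 8, 6, 3], .l [1, 3, 8, 10, 6, 3, 0, 5], .l [3, 9, 11, 7, 4], .l [10, 6, 6, 4, 9]]),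
([p 1 0, g, p 0 1, m 3 2, g, m 2 0, s 0 0, g, s 0 3, g], .lo 2, [.y [0, 2], .l [10, 4, 7, 1, 7, 5, 2], .l [2, 3], .l [1, 4, 2, 1], .r 2609 [1, 2, 4, 3] [1, 1, 1, 2, 1], .r 2647 [1, 2, 4, 3] [1, 1, 1, 1, 1], .l [1, 2, 0, 3], .l [1, 2, 0, 3], .l [1, 3, 6, 5, 0, 2, 3], .r 2663 [1, 2, 4, 3] [1, 1, 1, 1, 1], .r 2650 [1, 2, 4, 3] [1, 1, 1, 1, 1], .l [1, 2, 0, 6], .l [9, 1, 4, 5, 6, 5, 2], .r 2631 [1, 2, 3, 4] [1, 1, 1, 1, 1], .l [1, 2, 0, 8]]),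
([p 1 0, g, p 0 1, m 3 2, g, m 2 0, g, s 0 3, g], .top 6, [.l [3, 5, 4], .r 2664 [1, 2, 3] [1, 1, 1, 1], .r 2612 [1, 2, 3] [1, 1, 1, 1], .r 2622 [1, 2, 3] [1, 1, 1, 1]]),
([p 1 0, g, p 0 1, m 3 2, g, s 0 3, g, p 2 0, g], .lo 2, [.y [0, 2], .l [7, 1, 4, 1, 4, 2, 3], .l [2, 3], .l [1, 4, 2, 1], .l [4, 2, 3, 2, 5], .l [2, 5, 4, 4, 2, 5], .l [1, 2, 0, 3], .l [6, 4, 5, 4, 5], .l [2, 7, 6, 6, 4, 5], .l [1, 2, 0, 5], .l [2, 7, 6, 6, 4, 3], .l [8, 6, 7, 6, 3], .l [2, 9, 8, 8, 6, 3], .l [1, 2, 0, 7]]),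
([p 3 1, s 0 2, g, s 1 0, g, p 0 3, m 0 4, g, s 4 0, g, s 2 0, g], .lo 1, [.l [12, 10, 3, 9, 6, 8, 6, 1], .r 1556 [1, 5, 3] [1, 1, 1, 6], .l [2, 7, 4, 4, 1], .l [2, 5, 2, 2, 1], .l [3, 2, 10, 6, 8, 1, 4, 1], .l [12, 10, 1, 9, 6, 8, 6, 1], .l [3, 2, 3], .l [3, 2, 6, 8, 6, 1], .l [8, 6, 7, 3, 6], .l [3, 2, 6], .l [1, 7, 7, 5, 3], .l [10, 8, 9, 5, 1, 8, 4, 1], .l [10, 8, 9, 5, 1], .l [3, 2, 8], .y [1, 10], .l [10, 8, 9, 5, 1, 8, 4, 1], .l [10, 8, 9, 5, 1, 8, 4, 1], .l [3, 2, 10]]),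
([p 2 1, s 0 0, g, s 1 0, g, p 0 2, m 0 3, g, s 3 0, g], .hi 1, [.y [1], .r 1053 [1, 4, 2] [1, 1, 1, 4], .l [2, 7, 4, 4, 1], .r 578 [1, 4, 2] [1, 1, 1, 4], .r 989 [1, 4, 2] [1, 1, 1, 4], .l [3, 2, 3], .r 520 [1, 4, 2] [1, 1, 1, 4], .l [3, 2, 3], .l [6, 4, 5, 1, 4], .l [3, 2, 6, 8, 6, 1], .l [3, 2, 6], .l [8, 6, 7, 3, 6], .r 2667 [1, 4, 2, 3] [1, 1, 1, 1, 1], .l [3, 2, 8], .l [10, 8, 9, 5, 1]]),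
([p 2 1, g, s 1 0, g, p 0 2, m 0 3, g, s 3 0, g], .top 1, [.c, .r 2668 [1, 2, 3] [1, 1, 1, 1], .r 334 [] [8], .r 444 [] [8]]),
([p 1 0, g, p 0 1, m 0 2, g, s 2 0, g], .hi 0, [.r 2669 [3, 1, 2] [1, 1, 1, 1], .l [0, 1], .l [2, 1], .y [0, 2], .l [3, 2], .l [5, 4, 4, 2, 3], .l [0, 4], .l [5, 4], .l [7, 6, 6, 4, 1], .l [0, 6], .l [7, 6]]),
([p 1 0, g, s 0 0, p 3 1, m 0 2, g, p 0 3, m 2 4, g, s 4 0, g], .lo 4, [.l [4, 3], .l [6, 3, 5, 2, 5, 2, 5, 0, 5], .l [6, 3], .r 2591 [5, 1, 2, 3, 4] [1, 1, 1, 1, 1], .l [4, 1, 3, 2, 4, 1, 4, 0, 3], .r 2599 [1, 2, 5] [2, 1, 2, 3], .l [6, 1], .l [4, 5], .l [9, 4, 5, 3, 8], .l [9, 4], .l [4, 8], .y [4, 7, 9], .l [11, 6, 7, 5, 1], .l [11, 6], .l [4, 10]]),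
([p 3 1, s 0 0, g, s 0 2, g, p 0 3, m 2 4, s 6 5, g, s 5 0, g, m 4 0, g, p 0 6, g, s 1 0, g], .hi 1, [.y [1], .l [2, 11, 1, 11, 8, 4, 4, 10], .l [2, 7, 4, 4, 14], .l [15, 5, 11, 13, 8, 2, 4, 2, 6, 10, 8, 5], .l [2, 9, 1, 9, 6, 2, 2, 8], .l [4, 11, 1, 11, 8, 2, 2, 10], .l [4, 7, 2, 2, 14], .l [8, 4, 10, 1, 3, 6, 10, 5, 7, 3], .l [4, 5, 0, 0, 12], .l [1, 8, 12, 9, 3], .l [0, 5, 4, 7, 11, 8, 12], .l [0, 11, 3, 12, 7, 4, 8, 10, 8, 3], .l [1, 10, 12, 7, 3], .l [0, 5, 4, 9, 11, 6, 12], .l [6, 2, 10, 5, 13, 5, 12, 7], .l [0, 9, 1, 10, 7, 4, 8, 10, 8, 3], .l [17, 16, 11], .l [6, 2, 12, 7, 13, 3, 12, 9], .l [15, 14, 11], .l [9, 1, 12, 10, 2, 11, 6, 0, 8, 5], .l [17, 16, 13], .l [6, 2, 14, 9, 13, 1, 12, 1], .l [9, 1, 12, 10, 2,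 13, 8, 0, 10, 7], .l [15, 14, 15], .l [6, 2, 16, 11, 0, 13, 7]]),
([p 3 1, s 0 0, g, s 0 2, g, p 0 3, m 2 4, s 5 0, g, m 4 0, g, p 0 5, g, s 1 0, g], .hi 7, [.l [1, 6, 8, 7, 3], .l [3, 8, 10, 9, 3], .l [2, 7, 4, 7, 4], .l [3, 8, 2], .l [2, 5, 2, 5, 4], .l [5, 8, 10, 9, 1], .l [4, 7, 2, 7, 1], .l [5, 8, 5], .l [4, 5, 0, 5, 1], .r 2672 [1, 2, 3, 4, 6, 5] [1, 1, 1, 1, 1, 1, 1], .l [13, 5, 6, 2, 4, 2, 5], .l [9, 1, 12, 10, 2], .l [11, 3, 12, 8, 2, 5, 3, 6], .l [11, 0, 3, 12, 8, 2, 5, 3, 6], .l [11, 3, 4, 2, 11, 9, 3], .y [7, 11], .l [11, 3, 12, 8, 2, 5, 3, 6], .l [11, 3, 12, 0, 8, 2, 5, 3, 6], .l [11, 3, 4, 2, 11, 9, 3], .l [11, 3, 14, 10, 2, 5, 3, 8], .l [11, 3, 14, 0, 10, 2, 5, 3, 8], .l [11, 3, 4, 2, 13, 11, 3]]),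
([p 3 1, g, s 0 2, g, p 6 3, m 2 4, s 5 0, g, p 0 5, g, p 0 6, g, m 4 0, g, s 1 0, g], .lo 8, [.l [2, 9, 13, 10, 3], .l [2, 9], .l [0, 15, 13, 7, 11, 8, 10], .l [4, 9, 13, 10, 1], .l [4, 9], .l [0, 15, 11, 5, 9, 6, 10], .y [6, 8], .l [10, 3, 11, 5, 9, 1, 9, 6, 1], .l [8, 9], .l [7, 12, 8, 8, 4, 1], .l [0, 15, 7, 1, 9, 5, 7, 3, 6, 1, 4, 5], .l [7, 12, 8, 4, 8, 4, 1, 5, 2], .l [7, 12, 8, 8, 4, 1], .l [8, 1, 9, 5, 9, 1, 9, 6, 1], .l [8, 1, 9, 5, 9, 1, 9, 6, 1], .l [7, 10, 6, 6, 2, 8], .l [7, 10, 6, 6, 2, 8], .l [7, 10, 6, 8, 3, 10, 6, 7, 2], .l [7, 10, 6, 8, 3, 10, 6, 7, 2], .l [7, 10, 6, 6, 2, 10], .l [0, 13, 13, 7, 11, 8, 3], .l [0, 13, 15, 9, 13, 10, 3], .l [0, 13, 15, 9, 13, 10, 3], .l [7, 10, 6, 6, 2, 12]]),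
([p 3 1, g, s 0 2, g, p 0 3, m 2 4, s 5 0, g, p 0 5, g, m 4 0, g, s 1 0, g], .lo 4, [.l [1, 10, 1, 10, 7, 4, 3], .l [2, 5], .l [1, 6, 4, 3], .l [3, 10, 1, 10, 7, 2, 1], .l [4, 5], .l [3, 6, 2, 1], .l [3, 4, 0, 4, 1], .l [0, 13, 9, 3, 7, 4, 8], .l [3, 10, 3, 10, 5, 0, 6], .l [0, 13, 9, 3, 7, 4, 8], .l [0, 13, 9, 5, 7, 2, 8], .r 2674 [1, 2, 3, 4, 5, 6] [1, 1, 1, 1, 1, 1, 1], .l [0, 13, 9, 5, 7, 2, 8], .l [0, 11, 7, 5, 5, 0, 6], .l [3, 8, 1, 8, 5, 0, 6], .l [5, 2, 7, 1, 9, 3, 6, 2, 3], .l [3, 4, 0, 10], .y [0, 12, 4], .l [3, 8, 1, 8, 5, 0, 8], .l [5, 2, 7, 1, 11, 5, 8, 2, 5], .l [3, 4, 0, 12]]),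
([p 3 1, s 0 0, g, s 0 2, g, p 0 3, m 2 4, s 6 5, g, s 5 0, g, m 4 6, g, s 1 0, g], .hi 1, [.y [1], .l [2, 11, 1, 11, 8, 4, 4, 8], .l [2, 7, 4, 4, 12], .l [1, 11, 1, 12, 9, 5, 1, 4, 8, 2, 0, 3], .l [2, 9, 1, 9, 6, 2, 2, 6], .l [4, 11, 1, 11, 8, 2, 2, 8], .l [4, 7, 2, 2, 12], .l [1, 11, 1, 12, 9, 5, 3, 4, 8, 2, 0, 3], .l [4, 5, 0, 0, 10], .l [1, 8, 12, 9, 3], .l [0, 5, 4, 7, 11, 8, 10], .l [0, 11, 3, 12, 7, 4, 8, 2, 0, 3], .l [1, 10, 12, 7, 3], .l [0, 5, 4, 9, 11, 6, 10], .l [6, 2, 10, 5, 11, 3, 10, 1], .l [0, 9, 1, 10, 7, 4, 8, 2, 0, 3], .l [15, 14, 11], .l [6, 2, 12, 7, 11, 1, 10, 3], .l [0, 9, 1, 10, 7, 4, 10, 4, 0, 5], .l [13, 12, 13], .l [6, 2, 14, 9, 0, 11, 5]]),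
([p 3 1, s 0 0, g, s 0 2, g, p 0 3, m 2 4, s 5 0, g, m 4 5, g, s 1 0, g], .hi 7, [.l [1, 6, 6, 7, 7, 5, 3], .l [3, 8, 8, 9, 9, 7, 3], .l [2, 7, 4, 7, 4], .l [3, 8, 2], .y [3, 6, 9, 7], .l [5, 8, 8, 9, 9, 7, 1], .l [4, 7, 2, 7, 1], .l [5, 8, 5], .l [4, 5, 0, 5, 1], .r 2676 [1, 2, 3, 4, 6, 5] [1, 1, 1, 1, 1, 1], .l [7, 10, 1, 8, 2], .l [9, 1, 10, 0, 8, 2, 5, 3, 4], .l [7, 10, 1, 8, 2, 5, 3, 4], .l [7, 10, 1, 8, 2], .l [11, 3, 4, 2, 2, 0, 3], .l [7, 12, 3, 10, 2, 5, 3, 6], .l [7, 12, 3, 10, 2], .l [13, 5, 6, 4, 4, 0, 5]]),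
([p 3 1, s 0 0, g, s 0 2, g, p 0 3, m 2 4, s 5 0, g, m 4 0, g, s 1 0, g, s 0 5, g], .hi 1, [.y [1], .l [0, 12, 14, 10, 12, 11, 6, 1], .l [2, 7, 4, 4, 10], .l [0, 12, 14, 10, 2, 4, 10, 7, 2, 7], .l [0, 10, 12, 8, 2, 1, 4, 1], .l [0, 12, 14, 10, 12, 11, 6, 3], .l [4, 7, 2, 2, 10], .l [0, 12, 14, 10, 4, 1, 4, 9, 7, 2], .l [4, 5, 0, 0, 8], .l [1, 8, 10, 7, 3], .l [0, 5, 4, 7, 9, 6, 8], .l [6, 2, 8, 3, 9, 3, 8, 9], .l [0, 12, 14, 8, 10, 9, 4, 9], .l [13, 12, 9], .l [6, 2, 10, 5, 9, 1, 8, 9], .l [0, 10, 14, 10, 12, 11, 4, 5], .l [11, 10, 11], .l [6, 2, 12, 7, 0, 9, 5], .l [0, 10, 12, 8, 2, 1, 4, 5], .l [0, 10, 12, 8, 10, 9, 4, 9], .l [11, 10, 13], .l [6, 2, 14, 9, 0, 11, 7]]),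
([p 4 0, g, s 0 1, g, s 0 2, m 1 3, g, m 3 0, g, p 0 4, m 2 0, g], .hi 10, [.l [2, 11, 8], .l [1, 11, 9, 10], .l [2, 11], .l [2, 9, 6], .l [4, 11, 6], .l [3, 11, 7, 10], .l [4, 11], .y [4, 10], .l [7, 11, 3], .l [6, 9, 7, 9, 4, 8], .l [7, 11], .l [9, 11, 1], .l [8, 11, 2, 10], .l [9, 11], .l [8, 9, 0, 8], .l [10, 5, 9, 4, 9], .l [10, 5, 9, 4, 9], .l [5, 9, 3, 9, 1, 6, 8, 2, 3]]),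
([p 4 0, g, m 0 1, g, s 0 2, m 1 3, g, m 3 0, g, p 0 4, m 2 5, g, m 5 0, g], .lo 4, [.l [5, 9, 3, 3, 5, 7, 1, 2, 6, 4, 1], .l [5, 12, 5, 0, 9, 11, 6, 6, 7], .l [7, 11, 3, 5, 7, 9, 1, 4, 8, 4, 1], .l [5, 12, 5, 0, 9, 11, 6, 6, 7], .l [3, 12, 5, 0, 9, 11, 6, 8, 1], .l [5, 12, 5, 0, 7, 11, 8, 8, 1], .l [3, 12, 5, 0, 9, 11, 6, 8, 1], .l [7, 2, 11, 8, 1, 8, 10, 8, 3], .l [7, 2, 11, 8, 1, 8, 10, 8, 3], .l [3, 12, 7, 0, 9, 11, 8, 8, 3], .l [3, 10, 5, 0, 7, 9, 6, 6, 3], .l [9, 4, 6, 5, 10, 6, 1, 6, 8, 6, 1], .l [9, 4, 6, 5, 10, 6, 1, 6, 8, 6, 1], .l [3, 12, 7, 0, 9, 11, 8, 8, 5], .l [4, 11, 13, 11, 4], .l [10, 5, 7, 6, 6, 4, 8, 5, 8, 2, 3], .l [4, 11, 13, 11, 4], .y [4, 10, 12], .l [3, 10, 5, 0, 7, 9, 6, 6, 7], .l [10, 5, 7,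 6, 6, 4, 10, 7, 3, 6, 1], .l [3, 10, 5, 0, 7, 9, 6, 6, 7]]),
([p 4 0, g, m 0 1, g, s 0 2, m 1 3, g, m 3 0, g, p 0 4, m 2 0, g], .hi 10, [.l [2, 11, 8], .l [1, 11, 9, 10], .l [2, 11], .l [2, 9], .l [4, 11, 6], .l [3, 7, 5, 9, 7, 8], .l [4, 11], .y [4, 10], .l [7, 11, 3], .l [6, 9, 7, 7, 4, 8, 6, 7], .l [7, 11], .l [9, 11, 1], .l [8, 11, 2, 10], .l [9, 11], .l [8, 9, 0, 8], .l [10, 5, 7, 6, 6, 4, 6, 4, 5], .l [10, 5, 7, 6, 6, 4, 6, 4, 5], .r 2680 [1, 2, 3, 4, 5] [1, 1, 1, 1, 1, 1]]),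
([p 3 0, g, s 0 1, m 0 2, g, m 2 0, g, p 0 3, m 1 0, g], .lo 3, [.l [3, 2], .r 2679 [4, 1, 2, 3] [1, 1, 1, 1, 1], .l [5, 2], .r 2681 [4, 1, 2, 3] [1, 1, 1, 1, 1], .l [5, 1, 8, 3, 8, 2, 5], .l [5, 1], .l [3, 4], .y [3, 5], .l [7, 3, 8, 1, 8, 4, 1], .l [7, 3], .l [3, 6], .l [3, 7], .l [10, 6, 9, 5, 0, 2, 5], .l [10, 6], .l [3, 9]]),
([p 3 1, g, s 0 2, m 0 0, g, p 0 3, m 2 0, g, s 1 0, g], .hi 3, [.l [8, 3, 4], .l [1, 7, 5, 2], .l [2, 4], .c, .y [3], .l [8, 5, 1], .l [2, 7, 4, 1], .r 2682 [2, 4, 3] [1, 1, 1, 3], .l [2, 5, 2, 1], .l [6, 3, 6], .l [2, 5, 2, 6], .l [10, 9, 9, 4, 0, 6, 3], .l [6, 3, 8], .l [2, 5, 2, 8], .l [8, 7, 7, 2, 7, 2, 5]]),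
([p 3 1, g, s 0 2, p 0 3, m 2 0, s 4 0, g, m 0 4, g, s 1 0, g], .lo 3, [.l [6, 1, 2], .l [2, 4], .l [1, 5, 3, 2], .l [0, 8, 5, 0, 6], .l [2, 3, 0, 3, 0], .l [4, 1, 5], .l [4, 1, 3, 2, 5, 2, 5], .l [2, 3, 0, 5], .l [4, 1, 7], .l [4, 1, 3, 2, 7, 4, 1], .l [2, 3, 0, 7], .y [0, 9, 3], .l [4, 1, 9], .l [4, 1, 3, 2, 9, 6, 1], .l [2, 3, 0, 9]]),
([p 4 1, g, s 0 2, s 0 3, g, m 3 0, g, p 0 4, m 2 5, s 6 0, g, m 0 6, g, m 5 0, g, s 1 0, g], .lo 3, [.l [17, 16, 16, 7, 0, 11, 12, 6, 4, 1], .l [10, 5, 6], .l [2, 10, 5, 8, 13, 9, 10], .l [17, 16, 16, 7, 2, 5, 2, 2, 10, 1], .l [3, 9, 5, 9, 1, 6, 12, 6, 9], .l [10, 7, 1], .y [3, 5], .l [3, 6, 16, 12, 12, 7, 12, 2, 10, 1], .l [3, 9, 5, 9, 1, 4, 12, 8, 1], .l [10, 7, 3], .l [3, 8, 8, 9,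 11, 9, 3], .l [3, 10, 14, 11, 3], .l [11, 7, 8, 3, 9, 3, 5, 9, 8, 1], .l [3, 10, 14, 11, 3], .l [3, 12, 14, 9, 3], .l [13, 9, 12, 8, 0, 5, 8], .l [3, 12, 14, 9, 3], .l [3, 12, 12, 7, 3], .l [8, 5, 13, 6, 13, 3, 1, 3, 10, 1], .l [10, 15, 7, 11, 8, 11, 0, 7], .l [8, 5, 13], .l [10, 15, 7, 11, 8, 11, 0, 7], .l [10, 17, 9, 13, 10, 13, 0, 9], .l [10, 17, 9, 13, 10, 13, 0, 9], .l [8, 5, 15]]),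
([p 3 1, g, s 0 2, s 0 0, g, p 0 3, m 2 4, s 5 0, g, m 0 5, g, m 4 0, g, s 1 0, g], .hi 3, [.l [15, 14, 14, 7, 0, 9, 10, 6, 4, 1], .l [2, 8, 3, 6, 11, 7, 8], .l [8, 3, 4], .c, .y [3], .l [15, 14, 14, 7, 2, 5, 2, 2, 8, 1], .l [8, 5, 1], .r 2685 [1, 2, 6, 3, 4, 5] [1, 1, 1, 1, 1, 1, 1], .l [6, 3, 1], .l [3, 8, 12, 9, 1], .l [3, 8, 12, 9, 1], .l [15, 14, 14, 9, 0, 11, 7, 3, 8, 5], .l [13, 12, 12, 7, 0, 9, 5, 1, 6, 1], .l [3, 10, 12, 7, 1], .l [3, 10, 12, 7, 1], .l [15, 14, 14, 9, 0, 11, 5, 1, 8, 1], .l [6, 3, 11, 6, 11, 3, 10, 1], .l [6, 3, 11], .l [8, 13, 7, 9, 6, 9, 0, 5], .l [8, 15, 9, 11, 8, 11, 0, 7], .l [6, 3, 13], .l [8, 15, 9, 11, 8, 11, 0, 7]]),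
([p 4 0, g, p 2 0, g, s 0 1, p 3 2, g, p 0 3, g, p 0 4, m 1 5, g, m 5 0, g], .lo 4, [.l [5, 9, 3, 3, 5, 7, 1, 2, 6, 4, 1], .l [5, 12, 5, 0, 9, 11, 6, 6, 7], .l [7, 11, 3, 5, 7, 9, 1, 4, 8, 4, 1], .l [5, 12, 5, 0, 9, 11, 6, 6, 7], .l [3, 10, 5, 0, 7, 9, 6, 6, 1], .l [3, 12, 5, 0, 9, 11, 6, 8, 1], .l [5, 12, 5, 0, 7, 11, 8, 8, 1], .l [3, 12, 5, 0, 9, 11, 6, 8, 1], .l [7, 2, 11, 8, 1, 8, 10, 8, 3], .l [7, 2, 11, 8, 1, 8, 10, 8, 3], .l [3, 12, 7, 0, 9, 11, 8, 8, 3], .l [9, 4, 6, 5, 10, 6, 1, 6, 8, 6, 1], .l [9, 4, 6, 5, 10, 6, 1, 6, 8, 6, 1], .l [3, 12, 7, 0, 9, 11, 8, 8, 5], .l [4, 11, 13, 11, 4], .l [10, 5, 7, 6, 6, 4, 8, 5, 8, 2, 3], .l [4, 11, 13, 11, 4], .y [4, 10, 12], .l [3, 10, 5, 0, 7, 9, 6, 6, 7], .l [10, 5, 7,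 6, 6, 4, 10, 7, 3, 6, 1], .l [3, 10, 5, 0, 7, 9, 6, 6, 7]])]

def d10_2 : List (List Item × Qry × List Rf) := [
([p 5 1, g, s 3 2, p 4 3, g, p 0 4, g, p 0 5, m 2 6, g, m 6 0, g, s 1 0, g], .lo 5, [.l [1, 9, 7, 4, 8, 5, 6, 0, 3], .l [2, 6], .l [1, 9, 7, 4], .l [3, 0, 9, 8, 8, 2, 4, 1, 6, 4, 1], .l [5, 6], .l [3, 0, 9, 8, 8, 2, 4, 1, 6, 4, 1], .l [4, 10, 7, 8, 0, 4, 3, 4, 1], .l [4, 10, 7, 8, 0, 4, 7, 2, 3, 0, 3], .l [4, 5, 3, 7, 4, 1], .l [4, 5, 3, 5, 2, 6, 8, 6, 3], .l [8, 5, 5, 4, 4, 2, 6, 3, 6, 2, 3], .l [0, 13, 8, 4, 6, 4, 8], .y [2, 8, 10, 5, 3], .l [4, 8, 5, 6, 0, 2, 1, 2, 5], .l [8, 5, 5, 4, 4, 2, 8, 5, 1, 4, 1], .l [4, 5, 3, 5, 2, 8], .l [0, 11, 11, 4, 7, 4, 1, 3, 5, 4, 1], .l [4, 8, 5, 6, 0, 2, 1, 2, 7], .l [8,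 5, 5, 4, 4, 2, 10, 7, 1, 6, 3], .l [4, 5, 3, 5, 2, 10]]),
([p 4 1, g, s 0 2, p 3 0, g, p 0 3, g, p 0 4, m 2 5, g, m 5 0, g, s 1 0, g], .hi 3, [.l [5, 9, 3, 9, 1, 6, 8, 2, 3], .r 2687 [2, 6, 3, 4, 5] [1, 1, 1, 1, 1, 3], .l [5, 2], .r 2688 [1, 2, 6, 3, 4, 5] [1, 1, 1, 1, 1, 1], .l [3, 9, 5, 9, 1, 4, 8, 4, 1], .l [3, 4], .l [5, 1], .y [3, 5], .l [3, 9, 5, 9, 1, 6, 8, 2, 5], .l [3, 6], .l [7, 3], .l [3, 6], .l [3, 9, 11, 9, 3], .l [3, 9], .l [10, 6], .l [3, 7, 3, 7, 1, 4, 6, 2, 5], .l [3, 11], .l [12, 8], .l [3, 7, 3, 7, 1, 4, 6, 2, 7], .l [3, 13], .l [14, 10]]),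
([p 3 1, g, s 0 2, p 0 0, g, p 0 3, m 2 4, g, m 4 0, g, s 1 0, g], .lo 3, [.l [8, 3, 4], .l [2, 4], .l [1, 7, 5, 2], .y [3], .l [8, 5, 1], .r 2689 [1, 2, 5, 3, 4] [1, 1, 1, 1, 1, 1], .l [2, 7, 4, 1], .l [6, 3, 6], .l [12, 11, 11, 6, 0, 8, 5], .l [0, 11, 8, 4, 6, 4, 7], .l [0, 9, 6, 4, 4, 2, 5], .l [6, 3, 8], .l [12, 11, 11, 6, 0, 8, 3], .l [2, 5, 2, 8], .l [6, 3, 8], .l [6, 3, 10], .l [10, 9, 9, 4, 9, 2, 7], .l [2, 5, 2, 10]]),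
([p 3 1, g, s 0 2, g, p 0 3, m 2 4, s 5 0, g, m 0 5, g, m 4 0, g, s 1 0, g], .top 3, [.r 2684 [1, 2, 3, 5] [1, 1, 3, 1], .r 2686 [1, 2, 3, 4, 5] [1, 1, 1, 1, 1, 1], .r 2690 [1, 2, 3, 4] [1, 1, 4, 1, 1], .r 2683 [1, 2, 3] [1, 1, 6, 1]]),
([p 3 0, g, s 0 1, s 0 2, g, m 2 0, g, p 0 3, m 1 4, s 5 0, g, s 0 5, g, m 4 0, g], .lo 3, [.l [8, 5, 6], .l [5, 2, 10, 13, 11, 3, 8, 9, 6, 3], .l [10, 5, 6], .l [2, 10, 5, 8, 13, 9, 10], .l [5, 1, 12, 1, 12, 9, 3, 8, 2, 5], .l [3, 9, 5, 9, 1, 6, 12, 6, 9], .l [10, 7, 1], .y [3, 5], .l [5, 1, 12, 1, 12, 9, 3, 8, 2, 5], .l [3, 9, 5, 9, 1, 4, 12, 8, 1], .l [10, 7, 3], .l [3, 8, 12, 11, 3], .l [3, 10, 14, 11, 3], .l [11, 7, 8, 3, 9, 3, 5, 9, 8, 1], .l [3, 10, 14, 11, 3], .l [3, 12, 14, 9,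 3], .l [13, 9, 12, 8, 0, 5, 8], .l [3, 12, 14, 9, 3], .l [3, 12, 12, 7, 3], .l [10, 15, 7, 11, 8, 11, 0, 7], .l [10, 15, 7, 11, 8, 11, 0, 7], .l [8, 5, 13]]),
([p 4 1, s 0 0, g, s 3 0, g, s 0 2, s 0 3, g, p 0 4, m 2 5, g, m 5 0, g, s 1 0, g], .hi 1, [.y [1], .l [0, 11, 3, 4, 11, 9, 6, 1], .l [2, 10, 7, 7, 12], .l [3, 1, 10, 3, 4, 9, 7, 3], .l [0, 11, 3, 6, 11, 7, 4, 7], .l [4, 10, 5, 5, 12], .l [0, 11, 3, 6, 11, 7, 4, 7], .l [0, 8, 7, 3, 7, 3, 4, 6, 4, 5], .l [6, 4, 8, 4, 5, 7, 5, 1], .l [0, 11, 5, 6, 11, 9, 6, 3], .l [7, 10, 2, 2, 12], .l [8, 6, 10, 6, 7, 9, 7, 1], .l [7, 8, 0, 0, 10], .l [1, 10, 12, 10, 6], .l [0, 8, 7, 9, 11, 9, 10], .l [9, 3, 4, 9, 2, 10], .l [0, 9, 3, 4, 9, 7, 4, 7], .l [15, 14, 11], .l [9, 3, 4,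 9, 7, 9, 4, 9], .l [0, 9, 3, 4, 9, 7, 4, 9], .l [13, 12, 13], .l [9, 3, 4, 9, 7, 11, 6, 3]]),
([p 4 1, s 0 0, g, s 0 2, s 0 3, g, s 3 0, g, p 0 4, m 2 5, g, s 6 0, g, s 0 6, g, m 5 0, g, s 1 0, g], .hi 1, [.y [1], .l [2, 15, 1, 15, 11, 7, 7, 12], .l [2, 10, 7, 7, 16], .r 854 [7, 4] [1, 6, 10], .l [17, 16, 1, 7, 5, 1], .l [3, 13, 1, 14, 10, 4, 4, 11], .l [5, 15, 1, 15, 11, 4, 4, 12], .l [5, 10, 4, 4, 16], .l [11, 7, 3, 9, 3, 7, 4, 13], .l [7, 15, 1, 15, 11, 2, 2, 12], .l [7, 10, 2, 2, 16], .r 854 [7, 4] [6, 1, 10], .l [7, 8, 0, 0, 14], .l [1, 10, 16, 14, 6], .l [0, 8, 7, 9, 15, 13, 14], .l [5, 11, 6, 3, 2, 7, 3, 12, 8, 11], .l [1, 12, 16, 12, 6], .l [0, 8, 7, 11, 15, 11, 14], .l [5, 13, 8, 3, 2, 9, 5, 12, 6, 11], .l [1,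 12, 14, 10, 6], .l [1, 14, 16, 10, 6], .l [0, 8, 7, 13, 15, 9, 14], .l [5, 15, 10, 3, 2, 11, 7, 12, 4, 11], .l [9, 5, 1, 15, 8, 0, 10, 3], .l [19, 18, 15], .l [9, 5, 1, 7, 3, 13, 10, 13], .l [9, 5, 1, 17, 10, 0, 12, 5], .l [17, 16, 17], .l [9, 5, 1, 7, 3, 15, 12, 9]]),
([p 3 1, s 0 0, g, s 0 2, s 0 0, g, p 0 3, m 2 4, s 5 0, g, s 0 5, g, m 4 0, g, s 1 0, g], .hi 4, [.l [3, 10, 1, 11, 8, 2, 2, 8], .r 2693 [1, 2, 6, 3, 4] [1, 1, 1, 4, 1, 1], .l [3, 9, 3, 7, 12, 7, 8], .l [9, 3, 4], .c, .y [4], .r 2694 [1, 2, 6, 3, 4, 5] [1, 1, 1, 0, 1, 1, 1, 1], .l [9, 5, 1], .r 2692 [2, 6, 3, 4, 5] [2, 1, 1, 1, 1, 3], .l [7, 3, 1], .l [4, 9, 13, 10, 1], .l [4, 9, 13, 10, 1], .l [16, 15, 15, 9, 0, 11, 7, 3, 8, 5], .l [4, 9, 11, 8, 1], .l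 [4, 11, 13, 8, 1], .l [4, 11, 13, 8, 1], .l [16, 15, 15, 9, 0, 11, 5, 1, 8, 1], .l [9, 14, 8, 10, 6, 10, 0, 6], .l [7, 3, 12], .l [9, 14, 8, 10, 6, 10, 0, 6], .l [9, 16, 10, 12, 8, 12, 0, 8], .l [7, 3, 14], .l [9, 16, 10, 12, 8, 12, 0, 8]]),
([p 4 1, s 0 0, g, s 0 2, g, s 1 0, g, s 2 3, p 5 4, g, m 3 0, g, p 0 5, g], .hi 1, [.y [1], .r 1053 [1, 6, 4] [1, 3, 2, 5], .l [2, 10, 7, 7, 2], .r 578 [1, 6, 4] [1, 3, 2, 5], .r 1053 [1, 6, 4] [1, 1, 2, 5], .r 1053 [1, 6, 4] [3, 1, 2, 5], .l [4, 10, 5, 5, 2], .r 578 [1, 6, 4] [3, 1, 2, 5], .r 989 [1, 6, 4] [3, 1, 2, 5], .l [5, 4, 5], .r 520 [1, 6, 4] [3, 1, 2, 5], .l [5, 4, 8, 12, 10, 3], .l [5, 4, 8], .r 852 [1, 6, 4] [3, 2, 1, 5], .l [5, 4, 10, 12, 8, 3], .l [5, 4, 10], .l [12,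 10, 11, 4, 11, 6, 8], .l [5, 4, 10], .l [5, 4, 12, 6, 8, 1, 5, 1, 4, 1], .l [5, 4, 12], .l [14, 12, 13, 6, 1, 5, 2]]),
([p 4 1, g, s 0 2, g, s 1 0, g, s 2 3, p 5 4, g, m 3 0, g, p 0 5, g], .top 1, [.r 989 [1, 2, 4] [1, 1, 0, 5], .r 2696 [1, 2, 3, 4, 5] [1, 1, 1, 1, 1, 1], .r 334 [] [12], .r 444 [] [12]]),
([p 4 1, s 0 0, g, s 1 0, g, s 0 2, g, s 2 3, p 5 4, m 3 0, g, p 0 5, g], .lo 1, [.y [1], .r 1018 [1, 6, 4] [1, 1, 4, 4], .r 1556 [1, 6, 4] [1, 1, 4, 4], .l [2, 10, 7, 7, 4], .l [2, 8, 5, 5, 4], .r 2175 [1, 6, 4] [1, 1, 4, 4], .r 2050 [1, 6, 4] [1, 1, 4, 4], .l [3, 2, 3], .r 2175 [1, 6, 4] [1, 3, 2, 4], .r 2050 [1, 6, 4] [1, 3, 2, 4], .l [3, 2, 5], .l [0, 8, 7, 7, 4], .l [3, 2, 9, 11, 8, 1], .l [11, 9, 10, 3, 10, 6,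 8], .l [3, 2, 9], .l [12, 7, 1, 7, 8, 8, 4, 0, 4, 1], .l [13, 11, 12, 5, 0, 5, 2], .l [3, 2, 11]]),
([p 4 1, g, s 1 0, g, s 0 2, g, s 2 3, p 5 4, m 3 0, g, p 0 5, g], .top 1, [.c, .r 2698 [1, 2, 3, 4, 5] [1, 1, 1, 1, 1], .r 334 [] [11], .r 444 [] [11]]),
([p 3 1, g, s 1 0, g, s 0 2, p 5 3, m 2 4, g, m 4 0, g, p 0 5, g], .lo 4, [.r 2697 [1, 6, 2, 3, 5] [1, 1, 1, 0, 3, 1], .l [0, 3, 7, 1, 5, 3, 6, 2, 3], .l [0, 3, 7, 10, 8, 3, 5, 6, 1], .l [2, 1, 5, 1, 3, 1, 6, 3, 4, 0, 1], .r 2699 [1, 6, 2, 3, 5] [1, 1, 1, 3, 1], .l [2, 1, 7, 10, 8, 1, 5, 6, 3], .l [2, 1, 7, 1, 3, 1, 6, 4, 1], .l [4, 7, 9, 7, 0], .l [6, 1, 7, 5, 8, 2, 3], .l [4, 7, 9, 7, 0], .y [4, 6, 8], .l [6, 1, 9, 7, 3, 6, 1], .l [6, 1, 9, 7, 3, 6, 1], .l [9, 5, 8,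 6, 9, 2, 7], .l [6, 1, 11, 9, 3, 8, 3], .l [6, 1, 11, 9, 3, 8, 3], .l [11, 7, 10, 8, 0, 8, 3]]),
([p 3 1, g, s 1 0, g, s 0 2, p 4 3, m 2 0, g, p 0 4, g], .hi 6, [.l [2, 7, 4], .l [1, 7, 5, 6], .l [2, 7], .l [4, 7, 2], .l [3, 7, 3, 6], .l [4, 7], .y [4, 6], .l [6, 1, 5, 4, 5], .l [5, 10, 9, 9, 4, 1], .r 2700 [1, 2, 3, 5, 4] [1, 1, 1, 1, 1], .l [5, 8, 7, 7, 2, 1], .l [6, 1, 5, 4, 7], .l [5, 8, 7, 7, 2, 7], .l [6, 1, 4, 7, 2, 4, 6, 4, 1]]),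
([p 2 0, g, s 0 1, p 3 2, m 1 0, g, p 0 3, g], .hi 0, [.r 2701 [4, 1, 2, 3] [1, 1, 1, 1], .l [0, 1], .l [2, 1], .r 1003 [4, 2] [1, 4], .l [6, 5, 5, 2, 5, 2, 3], .l [0, 5], .l [6, 5], .y [0, 6, 3], .l [8, 7, 7, 4, 0, 4, 1], .l [0, 7], .l [8, 7]]),
([p 2 0, g, s 0 1, p 0 2, m 1 0, g], .lo 3, [.y [0, 3], .l [6, 1, 2], .l [2, 4], .l [1, 5, 3, 2], .l [2, 3, 0, 2], .l [4, 1, 4], .r 2702 [1, 2, 3] [1, 1, 1], .l [2, 3, 0, 4]]),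
([p 3 1, s 0 0, g, s 0 2, g, p 0 3, m 2 4, s 5 0, g, s 0 5, g, m 4 0, g, s 1 0, g], .top 4, [.r 2703 [2, 3] [2, 8], .r 2695 [1, 2, 3, 4, 5] [1, 1, 1, 1, 1, 1], .r 2690 [1, 2, 3, 4] [2, 1, 4, 1, 1], .r 2683 [1, 2, 3] [2, 1, 6, 1]]),
([p 3 1, s 0 0, g, s 0 2, g, p 0 3, m 2 4, s 5 0, g, m 4 0, g, m 0 5, g, s 1 0, g], .hi 1, [.y [1], .l [15, 14, 1, 13, 7, 9, 8, 3], .l [2, 7, 4, 4, 12], .r 854 [6, 3] [1, 3, 9], .l [9, 2, 10, 12, 10, 1, 9, 5, 0, 5], .l [15, 14, 3, 13, 7, 11, 10, 3], .l [4, 7, 2, 2, 12], .r 854 [6, 3] [3, 1, 9], .l [4, 5, 0, 0, 10], .l [1, 8, 10, 7, 3], .l [0, 5, 4, 7, 9, 6, 10], .l [6, 2, 8, 3, 8, 2, 6], .l [15, 14, 9, 3, 10, 12, 6, 1], .l [15, 14, 9], .l [6, 2, 10, 5, 0, 7, 3], .l [6, 2, 10, 5, 9, 1, 8, 3],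 .l [6, 2, 12, 7, 11, 1, 10, 3], .l [15, 14, 11], .l [6, 2, 12, 7, 11, 1, 10, 3], .l [13, 12, 13, 7, 3, 5, 6, 1], .l [13, 12, 13], .l [6, 2, 14, 9, 0, 11, 7]]),
([p 3 1, s 0 0, g, s 0 2, g, p 0 3, m 2 4, s 6 5, g, m 4 0, g, s 5 0, g, s 1 0, g, m 0 6, g], .hi 1, [.y [1], .l [15, 14, 1, 13, 7, 9, 8, 11], .l [2, 7, 4, 4, 12], .l [3, 1, 8, 14, 1, 6, 2, 10, 3, 5, 8, 3], .l [13, 12, 1, 11, 7, 0, 8, 3, 5, 1, 4, 5], .l [15, 14, 3, 13, 7, 11, 10, 11], .l [4, 7, 2, 2, 12], .l [8, 4, 12, 3, 12, 7, 4, 6, 4, 7], .l [4, 5, 0, 0, 10], .l [1, 8, 10, 7, 3], .l [0, 5, 4, 7, 9, 6, 10], .l [6, 2, 8, 3, 11, 5, 10, 11], .l [6, 2, 10, 5, 11, 3, 10, 11], .l [15, 14, 9], .l [6, 2, 10, 5, 11, 3, 10, 11], .l [6, 2, 12, 7, 11, 1, 10, 11], .l [15,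 14, 11], .l [6, 2, 12, 7, 11, 1, 10, 11], .l [13, 12, 13, 7, 3, 5, 6, 1], .l [13, 12, 13], .l [6, 2, 14, 9, 0, 11, 7], .l [6, 2, 14, 9, 0, 11, 7], .l [13, 12, 15, 9, 3, 5, 8, 3], .l [13, 12, 15], .l [6, 2, 16, 11, 0, 13, 9]]),
([p 2 1, s 0 0, g, p 0 2, m 0 3, g, s 0 4, g, m 3 0, g, s 1 0, g, s 4 0, g], .hi 1, [.y [1], .l [0, 11, 13, 9, 11, 9, 4, 1], .l [2, 5, 2, 2, 9], .r 854 [5, 2] [1, 1, 10], .l [2, 3, 0, 0, 7], .r 853 [5, 2] [1, 0, 9], .l [1, 5, 9, 7, 1], .l [0, 3, 2, 4, 8, 6, 7], .r 853 [5, 2] [1, 2, 9], .l [1, 5, 7, 5, 1], .l [1, 7, 9, 5, 1], .l [0, 3, 2, 6, 8, 4, 7], .r 853 [5, 2] [1, 4, 7], .l [0, 11, 13, 7, 9, 7, 2, 7], .l [12, 11, 8], .r 853 [5, 2] [1, 6, 5], .l [0, 9, 13, 9, 11, 9, 2, 3], .l [10, 9, 10], .r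 715 [1, 5, 2] [1, 6, 1, 3], .l [0, 9, 11, 7, 9, 7, 2, 7], .l [10, 9, 12], .r 715 [1, 5, 2] [1, 6, 3, 1]]),
([p 3 1, s 0 0, g, s 0 2, g, p 0 3, m 2 4, s 5 0, g, m 4 0, g, s 1 0, g, m 0 5, g], .hi 7, [.l [1, 6, 8, 7, 3], .l [3, 8, 10, 9, 3], .l [2, 7, 4, 7, 4], .l [3, 8, 2], .l [2, 5, 2, 5, 4], .l [5, 8, 10, 9, 1], .l [4, 7, 2, 7, 1], .l [5, 8, 5], .l [4, 5, 0, 5, 1], .l [7, 14, 5, 12, 2, 5, 3, 6], .l [7, 14, 5, 12, 2], .l [7, 14, 5, 0, 12, 2, 5, 3, 6], .r 2706 [1, 2, 3, 4, 6, 5] [1, 1, 1, 1, 1, 1, 1], .l [7, 14, 3, 12, 2], .l [11, 3, 14, 0, 10, 2, 5, 3, 8], .r 2707 [1, 3, 4, 6] [3, 0, 1, 1, 1, 3], .l [7, 14, 1, 12, 2], .l [0, 10, 12, 8, 10, 9, 4], .y [7, 13], .r 2707 [1, 3, 4, 6] [3, 0, 1, 1, 3, 1], .l [7, 14, 1, 12, 2],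 .l [0, 10, 14, 10, 12, 11, 4]]),
([p 4 1, s 0 2, g, s 2 0, g, s 0 3, g, p 0 4, m 3 5, s 6 0, g, m 5 0, g, s 0 6, g, s 1 0, g], .hi 9, [.l [1, 8, 10, 9, 5], .l [3, 10, 12, 11, 5], .l [2, 9, 6, 9, 4], .l [3, 10, 2], .l [5, 10, 12, 11, 3], .l [4, 9, 4, 9, 6], .l [5, 10, 2], .l [4, 7, 2, 7, 6], .l [7, 10, 12, 11, 1], .l [6, 9, 2, 9, 1], .l [7, 10, 7], .l [6, 7, 0, 7, 1], .l [2, 11, 1, 11, 8, 4, 4, 10], .l [9, 14, 3, 12, 2, 7, 5, 6], .l [2, 11, 1, 11, 8, 4, 4, 10], .l [13, 3, 14, 10, 2, 7, 5, 8], .l [2, 9, 13, 1, 11, 9, 8, 4, 4, 9], .l [13, 3, 14, 10, 2, 7, 5, 8], .y [9, 13], .l [13, 3, 14, 10, 2, 7, 5, 8], .l [17, 16, 1, 15, 9, 11, 10, 5], .l [13, 3, 14, 10, 2, 7, 5, 8], .l [0, 14, 16, 10, 12, 11, 6, 1], .l [15, 14, 1, 13,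 7, 9, 8, 11], .l [13, 3, 16, 12, 2, 7, 5, 10]]),
([p 3 1, s 0 0, g, s 0 2, g, p 0 3, m 2 4, s 0 5, g, m 4 0, g, s 5 0, g, s 1 0, g], .lo 7, [.l [1, 6, 8, 7, 3], .l [3, 8, 10, 9, 3], .l [3, 8, 2], .l [2, 7, 4, 7, 4], .l [5, 8, 10, 9, 1], .l [5, 8, 5], .l [4, 7, 2, 7, 1], .l [7, 12, 3, 10, 2, 5, 3, 4], .r 2675 [1, 2, 3, 4, 6] [2, 1, 1, 1, 3, 1], .l [7, 12, 3, 10, 2, 5, 3, 4], .l [7, 10, 1, 8, 2, 5, 3, 4], .l [11, 3, 12, 8, 2, 5, 3, 6], .l [11, 3, 12, 8, 2, 5, 3, 6], .r 2705 [1, 2, 3, 4, 6] [1, 1, 1, 1, 3, 1], .y [7, 11], .l [11, 3, 12, 8, 2, 5, 3, 6], .l [11, 3, 12, 8, 2, 5, 3, 6], .r 2705 [1, 2, 3, 4, 6] [1, 1, 1, 3, 1, 1], .l [0, 12, 12, 6, 8, 7, 4], .l [11, 3, 14, 10, 2, 5, 3, 8], .l [11, 3, 14, 10, 2, 5, 3, 8], .r 2706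 [1, 2, 3, 4, 5, 6] [1, 1, 1, 1, 1, 1, 1]]),
([p 4 1, s 0 2, g, s 0 3, g, s 2 0, g, p 0 4, m 3 5, s 0 0, g, m 5 0, g, s 1 0, g], .hi 9, [.l [1, 8, 10, 9, 5], .l [3, 10, 12, 11, 5], .l [2, 9, 6, 9, 6], .l [3, 10, 4], .l [2, 7, 4, 7, 6], .l [5, 10, 12, 11, 3], .l [4, 9, 4, 9, 1], .l [5, 10, 7], .l [7, 10, 12, 11, 1], .l [6, 9, 2, 9, 3], .l [7, 10, 5], .l [6, 7, 0, 7, 3], .y [9], .l [4, 11, 1, 11, 8, 2, 2, 8], .l [15, 14, 3, 13, 7, 2, 5, 2, 2, 7], .l [4, 11, 1, 11, 8, 2, 2, 8], .r 2710 [1, 3, 4, 5, 6] [1, 3, 1, 1, 1, 1], .l [15, 14, 3, 13, 7, 11, 10, 3], .l [8, 4, 12, 3, 12, 7, 4, 6, 4, 7], .l [0, 12, 14, 10, 12, 11, 6, 3], .l [13, 12, 3, 11, 5, 9, 8, 9], .l [0, 12, 14, 10, 4, 3, 6, 3]]),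
([p 4 1, s 0 2, g, s 0 3, g, p 0 4, m 3 5, s 6 0, g, m 5 0, g, s 0 6, g, s 2 0, g, s 1 0, g], .hi 7, [.l [1, 6, 8, 7, 3], .l [3, 8, 10, 9, 3], .l [2, 7, 4, 7, 4], .l [3, 8, 2], .l [2, 5, 2, 5, 4], .l [5, 8, 10, 9, 1], .l [4, 7, 2, 7, 1], .l [5, 8, 5], .l [4, 5, 0, 5, 1], .l [7, 12, 3, 10, 2, 5, 3, 4], .l [7, 12, 3, 10, 2, 5, 3, 4], .l [6, 2, 6, 10, 12, 3, 10, 4, 8, 5], .l [11, 3, 12, 8, 2, 5, 3, 6], .l [6, 2, 14, 9, 13, 1, 12, 3], .l [11, 3, 12, 8, 2, 5, 3, 6], .y [7, 11], .l [11, 3, 12, 8, 2, 5, 3, 6], .l [6, 2, 14, 9, 13, 1, 12, 5], .l [11, 3, 12, 8, 2, 5, 3, 6], .l [11, 3, 14, 10, 2, 5, 3, 8], .l [17, 16, 11, 5, 12, 14, 8, 3], .l [11, 3, 14, 10, 2, 5, 3, 8], .l [0, 14, 16, 8, 10, 9, 4, 11], .l [6, 2, 12, 7, 11, 1,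 10, 11], .l [11, 3, 16, 12, 2, 5, 3, 10]]),
([p 3 1, s 0 0, g, s 0 2, g, p 0 3, m 2 4, s 5 0, g, m 4 0, g, s 0 5, g, s 1 0, g], .hi 1, [.y [1], .r 2709 [1, 6, 2, 3, 4, 5] [1, 1, 1, 1, 1, 1, 1], .l [2, 7, 4, 4, 12], .r 854 [6, 3] [1, 3, 9], .l [9, 2, 10, 12, 10, 1, 9, 5, 0, 5], .r 2711 [1, 6, 2, 3, 4] [1, 1, 1, 1, 3, 1], .l [4, 7, 2, 2, 12], .l [8, 4, 12, 3, 12, 7, 4, 6, 4, 7], .l [4, 5, 0, 0, 10], .l [1, 8, 10, 7, 3], .l [0, 5, 4, 7, 9, 6, 10], .l [6, 2, 8, 3, 11, 5, 10, 5], .l [15, 14, 9, 3, 10, 12, 6, 1], .l [15, 14, 9], .l [6, 2, 10, 5, 11, 3, 10, 7], .l [6, 2, 10, 5, 9, 1, 8, 3], .r 2712 [1, 6, 2, 3, 4, 5] [1, 1, 1, 1, 1, 1, 1], .l [15, 14, 11], .l [6, 2, 12, 7, 11, 1, 10, 3], .l [13, 12, 13, 7, 3, 5, 6, 1], .l [13,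 12, 13], .l [6, 2, 14, 9, 0, 11, 7]]),
([p 3 1, s 0 0, g, s 0 2, g, p 0 3, m 2 4, s 0 0, g, m 4 0, g, s 1 0, g], .lo 7, [.l [1, 6, 8, 7, 3], .l [3, 8, 10, 9, 3], .l [3, 8, 2], .l [2, 7, 4, 7, 4], .l [5, 8, 10, 9, 1], .l [5, 8, 5], .l [4, 7, 2, 7, 1], .y [7], .r 2704 [1, 2, 3, 4, 5] [1, 1, 1, 1, 1, 1], .r 2675 [1, 2, 3, 4, 5] [2, 1, 1, 1, 1, 1], .r 2691 [1, 2, 3, 4, 5] [2, 1, 1, 1, 1, 1], .r 2677 [1, 2, 3, 4, 5] [1, 1, 1, 1, 1], .r 2713 [1, 2, 3, 4, 5] [1, 1, 1, 1, 1, 1], .r 2673 [1, 2, 3, 4, 5] [1, 1, 1, 1, 1, 1], .r 2705 [1, 2, 3, 4, 5] [1, 1, 1, 1, 1, 1], .l [0, 10, 10, 6, 8, 7, 4], .r 2678 [1, 2, 3, 4, 5] [1, 1, 1, 1, 1, 1], .l [0, 10, 12, 8, 10, 9, 4], .r 2708 [1, 2, 3, 4, 5] [1, 1, 1, 1, 1, 1]]),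
([p 3 1, s 0 0, g, s 0 2, g, p 0 3, m 2 0, s 0 0, g, s 1 0, g], .hi 6, [.l [0, 5, 4, 4, 6], .l [3, 7, 3], .l [0, 10, 7, 4, 7], .l [3, 7], .y [3, 6], .l [5, 7, 1], .l [0, 10, 5, 2, 7], .l [5, 7], .l [0, 8, 3, 0, 5], .l [6, 2, 5, 3, 4], .l [6, 2, 5, 3, 6], .l [6, 2, 5, 3, 6], .r 2714 [1, 2, 3, 4] [1, 1, 1, 1, 1], .l [6, 2, 5, 3, 8], .l [6, 2, 5, 3, 8], .l [0, 8, 10, 7, 4]]),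
([p 3 1, s 0 0, g, s 0 2, g, p 0 3, m 2 4, p 5 0, g, m 4 0, g, p 0 5, g, s 1 0, g], .hi 7, [.l [6, 2, 6, 1, 9, 5, 8, 3], .l [8, 2, 8, 3, 8, 2, 4], .l [8, 2, 8, 3, 8, 2, 4], .l [9, 5], .l [6, 2, 6, 3, 6, 2, 2], .l [11, 1, 13, 10, 4, 7, 3, 7, 1], .l [11, 1, 13, 10, 4, 7, 3, 7, 1], .l [9, 3], .l [9, 1, 11, 8, 2, 5, 3, 5, 1], .l [9, 1, 12, 10, 2], .l [7, 8], .l [9, 1], .l [11, 3, 4, 2, 11, 9, 3], .l [7, 10], .l [11, 3], .y [7, 11], .l [9, 1, 11, 8, 2, 5, 3, 5, 6], .l [7, 12], .l [13, 5], .l [9, 1, 11, 8, 2, 5, 3, 5, 8], .l [7, 14], .l [15, 7]]),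
([p 3 1, g, s 0 2, g, p 5 3, m 2 4, p 6 5, g, p 0 6, g, m 4 0, g, s 1 0, g], .lo 8, [.l [1, 6, 4, 8, 8, 6, 3], .l [2, 9], .l [0, 13, 11, 7, 7, 5, 2], .l [3, 6, 2, 8, 8, 6, 1], .l [4, 9], .l [0, 13, 9, 5, 5, 3, 6], .l [7, 12, 9, 10, 9, 6, 7, 1, 6, 2, 1], .l [8, 9], .l [7, 10, 8, 8, 6, 6, 2, 1], .l [7, 12, 9, 10, 9, 4, 7, 3, 6, 0, 3], .l [7, 12, 9, 10, 9, 4, 7, 3, 6, 0, 3], .l [0, 13, 5, 1, 6, 2, 4, 2, 5], .l [0, 11, 3, 1, 4, 2, 2, 0, 3], .l [7, 10, 7, 8, 7, 4, 5, 1, 4, 0, 3], .l [5, 2, 7, 10, 9, 11, 8, 9, 6, 1, 5, 0, 1], .l [7, 8, 6, 6, 4, 4, 0, 7], .y [0, 12, 8, 6, 4], .l [7, 10, 7, 8, 7, 4, 5, 1, 4, 0, 5], .l [0, 11, 13, 9, 9, 7, 2], .l [7, 8, 6, 6, 4, 4, 0, 9]]),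
([p 3 1, g, s 0 2, g, p 0 3, m 2 4, p 5 0, g, p 0 5, g, m 4 0, g, s 1 0, g], .hi 6, [.l [7, 2, 7, 2, 9, 4, 6], .l [7, 2, 7, 2, 9, 4, 6], .l [8, 5], .l [5, 2, 5, 2, 7, 4, 4], .l [1, 8, 3, 6, 9, 4, 7, 2, 3], .l [7, 1, 8, 4, 11, 4, 6, 3], .l [8, 3], .r 2717 [1, 2, 3, 4, 6, 5] [1, 1, 1, 1, 1, 1], .l [8, 1, 9, 7, 2], .l [6, 7], .l [8, 1], .y [6, 8], .l [5, 2, 9, 3, 4, 8, 2, 6, 1], .l [6, 9], .l [10, 3], .l [6, 11, 3, 0, 9, 2, 4, 2, 3], .l [6, 11], .l [12, 5], .l [6, 13, 5, 0, 11, 2, 4, 2, 5], .l [6, 13], .l [14, 7]]),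
([p 3 1, g, s 0 2, p 0 0, g, p 0 3, m 2 0, g, s 1 0, g], .hi 6, [.l [2, 7, 4], .l [0, 9, 7, 5, 6], .l [2, 7], .y [2, 6], .l [0, 7, 4, 2, 5], .l [5, 7, 1], .l [0, 9, 4, 2, 6], .l [5, 7], .l [0, 7, 2, 0, 4], .l [6, 3, 5, 2, 5], .l [6, 3, 5, 2, 5], .r 2690 [1, 2, 3, 4] [1, 1, 1, 1, 1], .l [6, 3, 5, 2, 7], .l [6, 3, 5, 2, 7], .l [0, 7, 9, 7, 4]]),
([p 4 1, g, s 0 2, s 0 3, g, m 3 0, g, p 0 4, m 2 5, p 6 0, g, s 0 6, g, m 5 0, g, s 1 0, g], .lo 3, [.l [17, 16, 16, 7, 0, 11, 12, 6, 4, 1], .l [10, 5, 6], .l [2, 10, 5, 8, 13, 9, 10], .l [17, 16, 16, 7, 2, 5, 2, 2, 10, 1], .l [3, 9, 5, 9, 1, 6, 12, 6, 9], .l [10, 7, 1], .y [3, 5], .l [3, 6, 16, 12, 12, 7, 12, 2, 10, 1], .l [3, 9, 5, 9, 1, 4, 12, 8, 1], .l [10, 7, 3], .l [9, 5,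 6, 1, 7, 3, 5, 7, 6, 1], .l [3, 10, 14, 11, 3], .l [11, 7, 8, 3, 9, 3, 5, 9, 8, 1], .l [3, 10, 14, 11, 3], .l [3, 12, 14, 9, 3], .l [13, 9, 12, 8, 0, 5, 8], .l [3, 12, 14, 9, 3], .l [3, 12, 12, 7, 3], .l [8, 5, 13, 6, 13, 3, 1, 3, 10, 1], .l [10, 15, 7, 11, 8, 11, 0, 7], .l [8, 5, 13], .l [10, 15, 7, 11, 8, 11, 0, 7], .l [10, 17, 9, 13, 10, 13, 0, 9], .l [10, 17, 9, 13, 10, 13, 0, 9], .l [8, 5, 15]]),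
([p 3 1, g, s 0 2, s 0 0, g, p 0 3, m 2 4, p 5 0, g, s 0 5, g, m 4 0, g, s 1 0, g], .hi 3, [.l [15, 14, 14, 7, 0, 9, 10, 6, 4, 1], .l [2, 8, 3, 6, 11, 7, 8], .l [8, 3, 4], .c, .y [3], .l [15, 14, 14, 7, 2, 5, 2, 2, 8, 1], .l [8, 5, 1], .r 2720 [1, 2, 6, 3, 4, 5] [1, 1, 1, 1, 1, 1, 1], .l [6, 3, 1], .l [3, 8, 12, 9, 1], .l [3, 8, 12, 9, 1], .l [15, 14, 14, 9, 0, 11, 7, 3, 8, 5], .l [3, 8, 8, 6, 8, 7, 1], .l [3, 10, 12, 7, 1], .l [3, 10, 12, 7, 1], .l [15, 14, 14, 9, 0, 11, 5, 1, 8, 1], .l [6, 3, 11, 6, 11, 3, 10, 1], .l [6, 3, 11], .l [8, 13, 7, 9, 6, 9, 0, 5], .l [8, 15, 9, 11, 8, 11, 0, 7], .l [6, 3, 13], .l [8, 15, 9, 11, 8, 11, 0, 7]]),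
([p 4 1, g, s 0 2, s 0 3, g, m 3 0, g, p 0 4, m 2 5, p 6 0, g, m 5 0, g, s 0 6, g, s 1 0, g], .lo 3, [.l [17, 16, 16, 7, 0, 11, 12, 4, 2, 3], .l [10, 5, 6], .l [2, 10, 5, 8, 11, 7, 8], .l [0, 4, 17, 12, 14, 8, 3, 5, 6, 1], .l [3, 9, 5, 9, 1, 6, 10, 4, 7], .l [10, 7, 1], .y [3, 5], .l [3, 6, 16, 12, 12, 7, 12, 2, 10, 3], .l [3, 9, 5, 9, 1, 4, 10, 6, 1], .l [10, 7, 3], .l [9, 5, 8, 4, 0, 1, 4], .l [3, 10, 12, 9, 3], .l [11, 7, 10, 6, 0, 3, 6], .l [3, 10, 12, 9, 3], .l [3, 10, 10, 7, 3], .l [3, 12, 7, 0, 10, 6, 10, 6, 2, 5], .l [13, 9, 12, 8, 0, 5, 8], .l [8, 5, 11], .l [8, 5, 13, 6, 13, 3, 1, 3, 10, 3], .l [15, 11, 12, 7, 3, 5, 8, 10, 8, 1], .l [8, 5, 13], .l [15, 11, 12, 7, 3, 5, 8, 10, 8, 1], .l [15, 14, 14, 7, 0, 11,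 12, 4, 2, 3], .l [15, 14, 14, 7, 14, 2, 12, 3], .l [8, 5, 15]]),
([p 3 1, g, s 0 2, s 0 0, g, p 0 3, m 2 4, p 5 0, g, m 4 0, g, s 0 5, g, s 1 0, g], .hi 3, [.l [15, 14, 14, 7, 0, 9, 10, 4, 2, 3], .l [2, 8, 3, 6, 9, 5, 6], .l [8, 3, 4], .c, .y [3], .l [0, 4, 15, 10, 12, 8, 3, 5, 6, 1], .l [8, 5, 1], .r 2722 [1, 2, 6, 3, 4, 5] [1, 1, 1, 1, 1, 1, 1], .l [6, 3, 1], .l [3, 8, 10, 7, 1], .l [3, 8, 10, 7, 1], .l [15, 14, 14, 9, 0, 11, 7, 1, 8, 5], .l [6, 3, 9, 3, 10, 6, 2, 5], .l [6, 3, 9], .l [11, 7, 8, 5, 9, 11, 9, 9, 7, 2], .l [3, 10, 10, 6, 8, 7, 1], .l [6, 3, 11, 6, 11, 3, 10, 3], .l [6, 3, 11], .l [0, 10, 15, 4, 10, 3, 6, 10, 6, 7], .l [13, 12, 12, 7, 0, 9, 10, 4, 2, 3], .l [6, 3, 13], .l [13, 12, 12, 7, 12, 2, 10, 3]]),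
([p 3 1, g, s 0 2, s 0 0, g, p 0 3, m 2 0, p 4 0, g, s 0 4, g, s 1 0, g], .hi 6, [.l [2, 7, 4], .l [0, 12, 10, 5, 9], .l [2, 7], .y [2, 6], .l [3, 5, 1], .l [5, 7, 1], .l [0, 12, 7, 2, 9], .l [5, 7], .l [0, 10, 5, 0, 7], .l [6, 3, 5, 2, 6], .l [6, 3, 5, 2, 6], .r 2723 [1, 2, 3, 5, 4] [1, 1, 1, 1, 1, 1], .l [6, 3, 5, 2, 6], .l [6, 3, 5, 2, 8], .l [6, 3, 5, 2, 8], .r 2721 [1, 2, 3, 5, 4] [1, 1, 1, 1, 1, 1], .l [6, 3, 5, 2, 10], .l [6, 3, 5, 2, 10], .l [0, 10, 12, 7, 4]]),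
([p 3 1, g, s 0 2, g, p 0 3, m 2 0, p 4 0, g, s 0 4, g, s 1 0, g], .top 3, [.r 2703 [2, 3] [1, 6], .r 2724 [1, 2, 3, 4] [1, 1, 1, 1, 1], .r 2719 [1, 2, 3] [1, 1, 4, 1], .r 2683 [1, 2, 3] [1, 1, 4, 1]]),
([p 3 1, s 0 0, g, s 0 2, g, p 0 3, m 2 4, p 0 0, g, m 4 0, g, s 1 0, g], .lo 7, [.l [0, 5, 4, 5, 2], .l [2, 7, 4, 7, 4], .l [3, 8], .l [0, 12, 9, 5, 2], .l [4, 7, 2, 7, 1], .l [5, 8], .l [0, 12, 7, 3, 6], .y [7], .r 2725 [1, 2, 3, 5] [2, 1, 1, 3, 1], .r 2718 [1, 2, 3, 4, 5] [2, 1, 1, 1, 1, 1], .l [13, 12, 12, 7, 2, 5, 2, 2, 5], .l [11, 10, 10, 5, 2, 3, 0, 0, 3], .r 2725 [1, 2, 3, 5] [2, 1, 3, 1, 1], .r 2716 [1, 2, 3, 4, 5] [1, 1, 1, 1, 1, 1], .l [9, 2, 10, 12, 10, 10, 5, 0, 5], .l [0, 10, 10, 6, 2], .l [0, 10, 12, 8,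 10, 9, 4], .l [0, 10, 12, 8, 2], .l [11, 10, 10, 5, 7, 6, 9]]),
([p 3 1, s 0 0, g, s 0 2, g, p 0 3, m 2 0, p 0 0, g, s 1 0, g], .hi 6, [.l [0, 5, 4, 4, 6], .l [3, 7, 3], .l [0, 10, 7, 4, 7], .l [3, 7], .y [3, 6], .l [5, 7, 1], .l [0, 10, 5, 2, 7], .l [5, 7], .l [0, 8, 3, 0, 5], .l [0, 8, 2, 0, 3], .l [6, 2, 5, 3, 6], .l [6, 2, 5, 3, 6], .r 2726 [1, 2, 3, 4] [1, 1, 1, 1, 1], .l [6, 2, 5, 3, 8], .l [6, 2, 5, 3, 8], .l [0, 8, 10, 7, 4]]),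
([p 2 1, g, p 0 2, m 0 0, m 0 3, g, s 1 0, g, s 3 0, g], .hi 3, [.l [2, 4, 1], .l [0, 7, 5, 2, 4], .l [2, 4], .l [0, 5, 3, 0, 2], .y [3], .l [0, 5, 7, 5, 5, 4, 1], .l [8, 7, 7, 5, 2], .l [8, 7, 7, 5, 2], .l [0, 7, 9, 5, 7, 6, 1], .l [6, 5, 5, 3, 4], .l [6, 5, 5, 3, 4], .l [0, 5, 7, 4, 1], .l [6, 5, 5, 3, 6], .l [6, 5, 5, 3, 6], .l [0, 5, 9, 6, 1]]),
([p 3 1, s 0 0, g, s 0 2, g, p 0 3, m 2 4, m 0 5, g, m 4 0, g, m 5 0, g, s 1 0, g], .lo 7, [.l [6, 2, 6, 1, 9, 5, 8, 3], .l [8, 2, 8, 3, 8, 2, 4], .l [9, 5], .l [8, 2, 8, 3, 8, 2, 4], .l [11, 1, 13, 10, 4, 7, 3, 7, 1], .l [9, 3], .l [11, 1, 13, 10, 4, 7, 3, 7, 1], .l [9, 1, 12, 10, 2], .l [9, 1], .l [7, 8], .l [7, 8], .l [11, 3, 4, 2, 11, 9, 3], .l [11, 3], .l [7, 10], .y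 [7, 11], .l [9, 1, 11, 8, 2, 5, 3, 5, 6], .l [13, 5], .l [7, 12], .l [9, 1, 11, 8, 2, 5, 3, 5, 6], .l [9, 1, 11, 8, 2, 5, 3, 5, 8], .l [15, 7], .l [7, 14]]),
([p 3 1, g, s 0 2, g, p 0 3, m 2 4, m 0 5, g, m 5 0, g, m 4 0, g, s 1 0, g], .lo 6, [.l [7, 2, 7, 2, 9, 4, 6], .l [8, 5], .l [7, 2, 7, 2, 9, 4, 6], .l [1, 8, 3, 6, 9, 4, 7, 2, 3], .l [8, 3], .l [7, 1, 8, 4, 11, 4, 6, 3], .l [8, 1, 9, 7, 2], .l [8, 1], .l [6, 7], .y [6, 8], .l [5, 2, 9, 3, 4, 8, 2, 6, 1], .l [10, 3], .l [6, 9], .l [6, 9], .l [6, 11, 3, 0, 9, 2, 4, 2, 3], .l [12, 5], .l [6, 11], .l [6, 11, 3, 0, 9, 2, 4, 2, 3], .l [6, 13, 5, 0, 11, 2, 4, 2, 5], .l [14, 7], .l [6, 13]]),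
([p 4 1, s 0 2, g, s 2 0, g, s 0 3, g, p 0 4, m 3 5, m 5 6, g, m 6 0, g, s 1 0, g], .lo 1, [.l [4, 10, 2, 8, 1, 8, 2, 4, 4, 7], .l [4, 10, 2, 8, 1, 8, 2, 4, 4, 7], .l [2, 9, 6, 6, 12], .y [1, 3], .l [4, 10, 2, 8, 1, 8, 2, 4, 4, 7], .l [5, 10, 2, 7, 1, 8, 3, 4, 7, 5, 2, 5], .l [4, 9, 4, 4, 12], .l [0, 10, 4, 1, 6, 8, 4, 2, 4, 6, 4, 5], .l [0, 10, 4, 1, 6, 8, 4, 2, 4, 6, 4, 5], .l [6, 9, 2, 2, 12], .l [1, 10, 12, 10, 10, 9, 5], .l [8, 2, 4, 4, 8, 3, 9, 3, 8, 5], .l [0, 7, 6, 9, 11, 9, 2], .l [0, 7, 6, 9, 9, 7, 2], .l [3, 1, 7, 2, 13, 8, 5, 7, 8, 3], .l [8, 2, 12, 5, 0, 9, 7], .l [15, 14, 11], .l [13, 12, 11], .l [8, 2, 14, 7, 4, 8, 1, 3, 8, 3], .l [8, 2, 14, 7, 0, 11, 9], .l [13, 12, 13]]),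
([p 4 1, s 0 2, g, s 0 3, g, p 0 4, m 3 5, m 5 6, g, m 6 7, g, m 7 0, g, s 2 0, g, s 1 0, g], .hi 11, [.l [0, 5, 4, 9, 9, 7, 7, 5, 2], .l [2, 7, 4, 11, 11, 9, 9, 7, 4], .l [0, 16, 13, 9, 9, 7, 7, 5, 2], .l [3, 12], .y [3, 6, 7, 9, 11], .l [4, 7, 2, 11, 11, 9, 9, 7, 1], .l [0, 16, 11, 7, 7, 5, 5, 3, 6], .l [5, 12], .l [0, 14, 9, 5, 5, 3, 3, 1, 4], .l [8, 11, 9, 2, 12, 7, 11, 1, 10, 3], .l [0, 16, 7, 3, 13, 7, 11, 9, 9, 8, 9, 3, 1], .l [9, 12], .l [10, 13, 11, 11, 9, 2, 10, 5, 9, 1, 8, 1], .l [6, 2, 14, 9, 0, 11, 9, 9, 7, 7, 3, 5, 1], .l [11, 12], .l [10, 11, 9, 9, 7, 2, 10, 5, 9, 1, 8, 1], .l [0, 16, 5, 1, 13, 9, 11, 9, 9, 7, 7, 6, 7], .l [6, 2, 14, 9, 0, 11, 9, 9, 7, 7, 5, 5, 3], .l [10, 11, 9, 9, 7, 2, 8, 3, 9, 3, 8,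 5], .l [6, 2, 12, 7, 0, 9, 7, 7, 5, 5, 3, 3, 5], .l [0, 5, 4, 11, 13, 11, 11, 9, 9, 7, 7, 6, 7], .l [0, 14, 16, 12, 12, 10, 10, 8, 2, 1, 4, 7], .l [0, 14, 3, 14, 8, 9, 8, 8, 7, 4, 7, 1, 7], .l [0, 14, 16, 12, 12, 10, 10, 8, 2]]),
([p 4 1, s 0 2, g, s 0 3, g, p 0 4, m 3 5, m 5 6, g, m 6 0, g, s 2 0, g, s 1 0, g], .hi 9, [.l [0, 5, 4, 7, 7, 5, 2], .l [2, 7, 4, 9, 9, 7, 4], .l [0, 14, 11, 7, 7, 5, 2], .l [3, 10], .y [3, 6, 7, 9], .l [4, 7, 2, 9, 9, 7, 1], .l [0, 14, 9, 5, 5, 3, 6], .l [5, 10], .l [0, 12, 7, 3, 3, 1, 4], .l [8, 11, 9, 2, 10, 5, 9, 1, 8, 1], .l [6, 2, 12, 7, 11, 8, 1, 5, 7, 1, 6, 3], .l [9, 10], .l [8, 9, 7, 2, 10, 5, 9, 1, 8, 1], .l [8, 9, 7, 2, 10, 5, 9, 1, 8, 1], .r 2732 [1, 2, 3, 4, 5, 6, 7] [1, 1, 1,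 1, 1, 1, 1], .l [8, 9, 7, 2, 8, 3, 9, 3, 8, 5], .l [15, 14, 9, 1, 9, 7, 0, 7, 9, 3, 0, 3], .l [1, 10, 12, 10, 10, 8, 8, 7, 3], .l [0, 12, 14, 10, 10, 8, 2, 1, 4, 7], .l [6, 2, 10, 5, 9, 6, 9, 4, 2, 7], .l [0, 12, 14, 10, 10, 8, 2]]),
([p 4 1, s 0 2, g, s 0 3, g, p 0 4, m 3 5, m 5 6, g, m 6 7, g, m 7 0, g, s 1 0, g, s 2 0, g], .hi 11, [.l [0, 5, 4, 9, 9, 7, 7, 5, 2], .l [2, 7, 4, 11, 11, 9, 9, 7, 4], .l [0, 14, 11, 9, 9, 7, 7, 5, 2], .l [3, 12], .y [3, 6, 7, 9, 11], .l [4, 7, 2, 11, 11, 9, 9, 7, 1], .l [0, 14, 9, 7, 7, 5, 5, 3, 4], .l [5, 12], .l [0, 12, 7, 5, 5, 3, 3, 1, 2], .l [0, 8, 11, 9, 2, 12, 6, 3, 5, 8, 3, 5, 1], .l [6, 2, 16, 11, 0, 13, 11, 11, 7, 7, 5, 7, 1], .l [9, 12], .l [0, 12, 13, 9, 9, 7, 2, 10, 4, 1, 3,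 6, 3], .l [6, 2, 16, 11, 0, 13, 11, 11, 9, 9, 5, 7, 1], .l [11, 12], .l [0, 10, 11, 9, 9, 7, 2, 10, 4, 1, 3, 6, 3], .l [1, 16, 5, 1, 13, 9, 11, 9, 9, 7, 7, 6, 3], .l [6, 2, 16, 11, 0, 13, 11, 11, 9, 9, 7, 7, 5], .l [0, 12, 14, 12, 12, 10, 10, 8, 2, 1, 4, 7], .l [0, 12, 1, 12, 8, 9, 8, 8, 7, 4, 9, 3, 1], .l [0, 12, 14, 12, 12, 10, 10, 8, 2], .l [0, 12, 16, 14, 14, 12, 12, 10, 2, 1, 4, 5], .l [0, 12, 16, 0, 14, 14, 12, 12, 10, 10, 9, 4, 5], .l [0, 12, 16, 14, 14, 12, 12, 10, 2]]),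
([p 4 1, s 0 2, g, s 0 3, g, p 0 4, m 3 5, m 5 6, g, m 6 0, g, s 1 0, g, s 2 0, g], .hi 9, [.l [0, 5, 4, 7, 7, 5, 2], .l [2, 7, 4, 9, 9, 7, 4], .l [0, 12, 9, 7, 7, 5, 2], .l [3, 10], .y [3, 6, 7, 9], .l [4, 7, 2, 9, 9, 7, 1], .l [0, 12, 7, 5, 5, 3, 4], .l [5, 10], .l [0, 10, 5, 3, 3, 1, 2], .l [8, 11, 9, 2, 12, 7, 0, 9, 5, 1, 6, 1], .l [0, 10, 11, 7, 2, 10, 4, 1, 3, 6, 3], .l [9, 10], .l [8, 9, 7, 2, 12, 7, 0, 9, 7, 3, 6, 3], .l [13, 12, 13, 5, 1, 3, 5, 7, 6, 1], .r 2734 [1, 2, 3, 4, 5, 6, 7] [1, 1, 1, 1, 1, 1, 1], .l [0, 10, 12, 10, 10, 8, 2, 1, 4, 7], .l [6, 2, 14, 9, 4, 1, 4, 1, 8, 5], .l [0, 10, 12, 10, 10, 8, 2], .l [0, 10, 14, 12, 12, 10, 2, 1, 4, 5], .l [7, 9, 8, 2, 11, 6, 3, 1, 8, 6, 4, 5], .l [0, 10, 14, 12,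 12, 10, 2]]),
([p 5 1, s 0 2, g, s 2 3, s 0 4, g, m 4 0, g, p 0 5, m 3 6, g, m 6 0, g, s 1 0, g], .lo 1, [.l [1, 4, 10, 5, 8, 2, 10, 5, 1, 3, 4, 5], .l [1, 4, 10, 5, 8, 2, 9, 6, 7], .l [2, 10, 7, 7, 12], .l [1, 5, 7, 5, 2, 10], .l [6, 4, 9, 3, 13, 9, 2, 9], .l [5, 10, 4, 4, 12], .l [5, 8, 2, 2, 10], .l [7, 11, 6, 9, 1, 9, 6, 2, 2, 6], .l [2, 11, 7, 4, 8, 10, 8, 8, 1], .l [7, 10, 2, 2, 12], .l [1, 10, 12, 10, 6], .l [1, 2, 8, 5, 8, 2, 9, 6, 7], .l [0, 8, 7, 9, 11, 9, 10], .y [1, 3, 9, 11], .l [15, 14, 1, 7, 5, 5, 8, 5, 1, 8, 2, 3], .l [1, 2, 8, 5, 10, 4, 0, 4, 1], .l [15, 14, 11], .l [13, 12, 11], .l [13, 12, 1, 7, 5, 5, 10, 7, 1, 3, 6, 1], .l [1, 2, 8, 5, 12, 6, 0, 6, 3], .l [13, 12, 13]]),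
([p 4 1, s 0 2, g, s 2 3, s 0 0, g, p 0 4, m 3 5, g, m 5 0, g, s 1 0, g], .hi 4, [.l [1, 3, 2, 8], .l [0, 8, 7, 3, 7, 3, 4, 6, 4, 5], .l [0, 8, 7, 3, 7, 3, 4, 6, 4, 5], .l [3, 5, 2, 10], .y [4], .l [13, 12, 1, 7, 5, 1], .l [9, 5, 1], .r 2736 [1, 2, 3, 6, 4, 5] [1, 1, 1, 1, 1, 1], .l [7, 3, 1], .l [0, 6, 5, 1, 5, 3, 4, 6, 4, 5], .l [0, 6, 5, 1, 5, 3, 4, 6, 4, 5], .l [13, 12, 1, 11, 6, 0, 8, 5], .l [13, 12, 1, 5, 3, 6], .l [7, 3, 9], .l [13, 12, 1, 11, 6, 0, 8, 3], .l [11, 10, 1, 5, 3, 8], .l [7, 3, 11], .l [11, 10, 1, 9, 4, 9, 2, 7]]),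
([p 4 1, s 0 2, g, s 2 3, g, p 0 4, m 3 5, g, m 5 0, g, s 1 0, g], .top 4, [.r 2703 [3, 4] [2, 5], .r 2737 [1, 2, 3, 4, 5] [1, 1, 1, 1, 1], .r 2690 [1, 3, 4, 5] [2, 1, 1, 1, 1], .r 2683 [1, 3, 4] [2, 1, 3, 1]]),
([p 4 1, s 0 2, g, s 0 3, s 0 0, g, s 2 0, g, p 0 4, m 3 5, m 5 6, g, m 6 7, g, s 7 0, g, s 1 0, g], .hi 4, [.l [0, 9, 5, 6, 8, 6, 4, 1], .l [0, 11, 5, 6, 10, 8, 6, 3], .l [3, 11, 5, 9, 10, 5, 6], .l [11, 5, 6], .c, .y [4], .l [0, 13, 14, 12, 7, 1, 14, 4, 1, 3, 6, 3], .l [11, 7, 1], .l [7, 11, 6, 9, 1, 9, 6, 2, 2, 10], .l [0, 17, 11, 7, 8, 6, 10, 6, 2, 7, 9, 2, 3], .l [11, 7, 3], .l [11, 7, 12, 3, 8, 11, 4, 6, 1, 9, 7, 4], .l [9, 5, 3], .l [4, 11, 13, 11, 11, 10, 3], .l [3, 8, 4, 10, 12, 10, 0], .l [0, 17, 9,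 2, 6, 5, 11, 7, 1, 8, 10, 5], .l [9, 5, 12, 14, 12, 12, 10, 3], .l [9, 5, 12], .l [0, 10, 18, 7, 1, 15, 5, 11, 13, 6, 8, 5], .l [11, 12, 10, 5, 12, 4, 13, 5, 12, 1], .l [9, 5, 14], .l [0, 17, 5, 1, 11, 7, 9, 7, 7, 6, 10, 7], .l [16, 15, 15, 7, 2, 3, 1, 9, 12, 4, 0, 3], .l [9, 5, 16], .l [0, 15, 7, 16, 5, 13, 6, 10, 12, 7]]),
([p 4 1, s 0 2, g, s 0 3, s 0 0, g, s 2 0, g, p 0 4, m 3 5, m 5 6, g, m 6 7, g, m 7 0, g, s 1 0, g], .hi 4, [.l [0, 9, 5, 6, 8, 6, 4, 1], .l [0, 11, 5, 6, 10, 8, 6, 3], .l [3, 11, 5, 9, 10, 5, 6], .l [11, 5, 6], .c, .y [4], .l [11, 7, 1, 10, 2, 6, 10, 5, 7, 1], .l [11, 7, 1], .l [6, 1, 11, 16, 9, 5, 14, 10, 3, 11, 11, 8, 3], .l [11, 7, 3, 10, 2, 8, 10, 3, 5, 1], .l [11, 7, 3], .l [8, 3, 11, 16, 11,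 4, 6, 12, 7, 2, 10, 10, 6, 1], .l [9, 5, 3], .l [4, 11, 13, 11, 11, 10, 3], .l [3, 8, 4, 10, 12, 10, 0], .l [13, 1, 13, 10, 5, 10, 12, 10, 3], .l [4, 13, 15, 13, 13, 11, 11, 10, 3], .l [3, 8, 4, 12, 14, 12, 12, 10, 0], .l [18, 17, 17, 9, 3, 7, 6, 6, 4, 10, 7, 1, 7], .l [9, 5, 10, 3, 6, 9, 4, 6, 1, 7, 5, 6], .l [9, 5, 14], .l [11, 16, 8, 4, 13, 8, 1, 10, 3], .l [9, 5, 10, 3, 6, 9, 4, 6, 1, 7, 5, 8], .l [9, 5, 16], .l [11, 18, 10, 4, 15, 10, 1, 12, 3]]),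
([p 2 0, g, s 0 1, g, p 0 2, m 1 3, m 3 4, g, s 6 5, g, s 5 0, g, m 4 6, g], .hi 10, [.l [2, 11, 13, 9, 9, 8, 3], .l [1, 6, 4, 10, 12, 8, 3], .l [2, 11, 13, 9, 2], .y [2, 5, 6, 12, 8, 10], .l [4, 11, 13, 9, 9, 8, 1], .l [3, 6, 2, 10, 12, 8, 1], .l [4, 11, 13, 9, 4], .l [3, 4, 0, 8, 10, 6, 1], .l [9, 10, 10, 12, 8, 2, 5, 7, 1, 5, 2, 3], .l [9, 10, 10, 12, 8, 2, 5, 7, 1, 5, 2, 3], .l [12, 3, 13, 7, 2], .l [7, 8, 10, 12, 8, 2, 5, 7, 1, 5, 2, 3], .l [0, 12, 3, 13, 7, 2, 10, 1, 3, 1, 3, 4, 1], .l [12, 1, 13, 7, 2], .l [9, 14, 10, 2, 5, 9, 3, 7, 2, 3], .l [8, 14, 11, 2, 6, 10, 3, 8, 8, 1, 6, 2, 3], .l [12, 1, 13, 7, 2], .l [7, 8, 8, 10, 8, 2, 5, 7, 1, 5, 2, 3], .l [5, 2, 7, 7, 7, 9, 1, 7, 1, 6, 4, 2, 3], .l [0, 10, 1, 11, 7,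 2, 10, 1, 3, 1, 3, 4, 1]]),
([p 2 0, g, s 0 1, g, p 0 2, m 1 3, m 3 4, g, s 5 0, g, m 4 5, g], .hi 8, [.l [2, 9, 9, 9, 9, 7, 7, 6, 3], .l [1, 6, 4, 8, 8, 8, 8, 6, 3], .l [2, 9, 9, 9, 9, 7, 2], .y [2, 5, 6, 10, 8], .l [4, 9, 9, 9, 9, 7, 7, 6, 1], .l [3, 6, 2, 8, 8, 8, 8, 6, 1], .l [4, 9, 9, 9, 9, 7, 4], .l [3, 4, 0, 6, 6, 6, 6, 4, 1], .l [9, 12, 8, 2, 5, 7, 1, 5, 2, 3], .l [9, 12, 8, 2, 5, 7, 1, 5, 2], .l [10, 1, 11, 7, 2], .r 2741 [1, 2, 3, 4, 6, 5] [1, 1, 1, 1, 1, 1], .l [8, 11, 1, 9, 9, 7, 2], .l [10, 1, 11, 7, 2], .l [7, 10, 8, 2, 5, 7, 1, 5, 2, 3], .l [5, 2, 7, 9, 1, 7, 1, 6, 4, 2, 3], .l [7, 10, 8, 2, 9, 3, 6, 4, 4, 2, 3]]),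
([p 3 1, g, m 0 2, g, m 2 0, p 4 3, g, s 1 0, g, p 0 4, g], .lo 2, [.l [4, 1, 6, 2, 6, 3, 6, 2, 3], .l [4, 1], .l [2, 7, 4, 1, 4, 8, 6, 1], .l [9, 8, 3, 1, 6, 1, 6, 4, 1], .l [4, 1], .l [2, 3], .y [2, 4], .l [2, 6, 10, 8, 3], .l [7, 4], .l [2, 6], .l [2, 6, 8, 6, 3], .l [2, 8, 10, 6, 3], .l [9, 6], .l [2, 8], .l [2, 10, 8, 4, 6, 4, 5], .l [11, 8], .l [2, 10]]),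
([p 4 0, g, s 0 1, g, m 0 2, g, m 2 3, p 1 4, g, m 3 5, g, s 0 6, g, s 6 0, g, m 5 0, g], .hi 15, [.l [16, 17, 11, 11, 8, 9, 1, 2, 4, 2, 3], .l [1, 9, 7, 14], .l [2, 16], .l [12, 15, 11, 11, 8, 9, 3, 8, 1, 4, 1, 3, 1], .l [1, 4, 15, 15, 9, 9, 6, 7, 3, 2, 3], .l [3, 9, 5, 14], .l [4, 16], .y [4, 6, 9, 15], .l [5, 9, 3, 14, 7, 10, 1], .l [5, 8, 6, 8, 4, 13], .l [6, 16], .l [8, 11, 8, 9, 3, 12, 5, 8, 1], .l [8, 11, 8, 8, 6, 8, 4, 11], .l [9, 16], .l [16, 17, 9, 9, 6, 7, 1, 6, 1, 4, 1], .l [10, 17, 15, 15, 12, 12, 10, 12, 8, 5], .l [11, 16], .l [12, 15, 11, 11, 8, 9, 3, 8, 1, 4, 1, 5, 1], .l [16, 17, 9, 9, 6, 7, 1, 8, 3, 6, 1], .l [12, 17, 13, 13, 10, 10, 8, 10, 6, 3], .l [13, 16], .l [16, 17, 9, 9, 6, 7, 1, 10, 5, 8, 1],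 .l [12, 17, 13, 13, 10, 11, 5, 10, 1, 4, 1, 5, 1], .l [15, 16], .l [14, 15, 9, 9, 6, 7, 1, 10, 5, 8, 1], .l [12, 15, 11, 11, 8, 9, 3, 8, 1, 4, 1, 3, 5], .l [12, 15, 11, 11, 8, 9, 3, 8, 1, 4, 1, 7, 3]]),
([p 6 1, g, s 0 2, g, s 2 3, g, m 0 4, g, m 4 5, p 3 6, g, m 5 7, g, s 1 0, g, m 7 0, g], .hi 13, [.l [15, 12, 14, 5, 6, 4, 12, 7, 10, 1, 6, 4, 5], .l [0, 14, 10, 1, 12, 1, 12, 8, 8, 5, 8, 1, 4, 2, 3], .l [3, 11, 7, 1, 12, 3, 6, 4, 10, 5, 8, 1, 4, 2, 3], .y [0, 13, 2, 4, 9], .l [15, 10, 14, 7, 8, 6, 12, 5, 10, 3, 6, 2, 5], .l [0, 14, 8, 10, 14, 10, 10, 7, 10, 4, 4, 1, 4, 2, 3], .l [1, 4, 13, 15, 13, 13, 10, 11, 5, 6, 6, 4, 5], .l [15, 14, 14, 3, 4, 2, 12, 9, 10, 6, 1, 4, 5], .l [3, 11, 7, 8, 10, 7, 3, 8, 10, 7, 1, 6, 3],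 .l [1, 6, 13, 15, 13, 13, 10, 11, 7, 1, 1, 4, 5], .l [6, 12, 12, 5, 8, 2, 2, 0, 1], .l [7, 11, 3, 12, 3, 8, 3, 11, 5, 5, 3, 5, 3], .l [7, 11, 3, 12, 3, 8, 3], .l [8, 14, 14, 7, 10, 2, 4, 2, 3], .l [10, 13, 10, 11, 3, 10, 1, 6, 3, 9, 3, 5, 3], .l [10, 13, 10, 11, 3, 10, 1, 6, 3], .l [0, 14, 10, 10, 14, 12, 12, 7, 10, 4, 4, 1, 4, 2, 3], .l [0, 14, 16, 12, 12, 9, 12, 4, 4, 1, 6, 4, 5], .l [14, 17, 13, 13, 10, 11, 3, 10, 1, 6, 3], .l [0, 14, 10, 10, 14, 10, 10, 7, 10, 4, 4, 1, 4, 2, 3], .r 2744 [3, 4, 5, 6, 7, 8] [3, 1, 1, 1, 1, 1, 1, 1], .l [14, 17, 13, 13, 10, 11, 3, 10, 1, 6, 3], .l [3, 9, 5, 6, 8, 5, 6, 6, 8, 1, 4, 2, 3], .l [0, 12, 14, 12, 12, 9, 12, 4, 4, 1, 6, 4, 5], .l [12, 15, 13, 13, 10, 11, 3, 10, 1, 6, 3], .l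 [0, 12, 8, 8, 12, 10, 10, 7, 10, 4, 4, 1, 4, 2, 3]]),
([p 6 1, g, s 0 2, g, m 4 3, g, s 0 4, g, m 3 5, p 2 6, g, m 5 7, g, s 1 0, g, m 7 0, g], .lo 2, [.r 2745 [1, 8, 2, 3, 5, 6, 7] [1, 1, 1, 3, 1, 1, 1, 1], .l [2, 3, 14, 12, 5, 1, 10, 3, 4, 2, 4, 2, 3], .l [3, 11, 7, 8, 10, 7, 10, 1, 4, 2, 3], .l [4, 1, 10, 6, 12, 5, 6, 2, 10, 7, 1, 6, 1], .l [4, 1, 10, 6, 12, 5, 6, 2, 10, 7, 1, 6, 1], .l [8, 1, 5, 1, 8, 2, 10, 7, 1, 6, 3, 5, 3], .l [5, 11, 5, 6, 6, 4, 5], .l [6, 3, 3, 8, 5], .l [5, 11, 5, 6, 6, 4, 5], .l [7, 11, 3, 4, 4, 2, 3], .l [8, 5, 5, 8, 3], .l [7, 11, 3, 4, 4, 2, 3], .l [10, 13, 10, 11, 3, 4, 4, 2, 3], .l [6, 1, 8, 2, 8, 3, 8, 1, 6, 4, 1], .l [10, 13, 10, 11, 3, 4, 4, 2, 3], .l [12, 17, 15, 15, 12, 13, 5, 6,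 6, 4, 5], .l [15, 14, 14, 5, 12, 8, 2, 8, 10, 1, 6, 4, 5], .l [12, 17, 15, 15, 12, 13, 5, 6, 6, 4, 5], .y [0, 13, 2, 9], .l [14, 17, 13, 13, 10, 11, 3, 4, 4, 2, 3], .l [15, 12, 14, 7, 3, 5, 6, 2, 10, 7, 1, 6, 1], .l [14, 17, 13, 13, 10, 11, 3, 4, 4, 2, 3], .l [14, 15, 11, 11, 8, 9, 1, 2, 2, 0, 1], .l [13, 12, 12, 3, 10, 12, 6, 2, 4, 1, 6, 4, 5], .l [1, 17, 14, 3, 1, 4, 11, 10, 1], .l [13, 12, 12, 3, 10, 12, 6, 2, 4, 1, 6, 4, 5]]),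
([p 6 1, g, s 0 2, g, m 4 3, g, s 0 4, g, m 3 5, p 2 6, g, m 5 0, g, s 1 0, g], .hi 11, [.l [12, 13, 10, 11, 1, 2, 4, 2, 3], .l [1, 11, 9, 10], .l [2, 12], .l [10, 11, 8, 9, 1, 2, 2, 0, 1], .l [1, 4, 11, 11, 8, 9, 3, 2, 3], .l [3, 11, 7, 10], .l [4, 12], .l [5, 11, 5, 10, 1, 4, 1], .l [0, 14, 8, 6, 6, 3, 6, 2, 5], .l [6, 12], .y [4, 8, 11, 6], .l [7, 11, 3, 10, 3, 6, 1], .l [0, 14, 6, 4, 4, 1, 6, 4, 5], .l [8, 12], .l [12, 13, 8, 9, 1, 8, 3, 6, 1], .l [10, 13, 10, 10, 6, 10, 6, 1], .l [11, 12], .l [10, 11, 8, 9, 1, 8, 3, 6, 1], .l [10, 11, 8, 8, 4, 8, 4, 7], .l [15, 14, 5, 1, 12, 5, 6, 4, 4, 2, 4, 2, 3], .l [10, 11, 8, 9, 1, 10, 5, 8, 1], .l [10, 11, 8, 8, 4, 8, 4, 9], .r 2746 [1, 2, 3, 4, 5, 6, 7] [1, 1, 1, 1, 1, 1,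 1, 1]]),
([p 9 1, g, m 0 2, g, m 2 3, g, m 3 4, g, m 4 5, g, s 0 6, g, m 5 7, g, m 7 8, p 6 9, g, m 8 0, g, s 1 0, g], .lo 2, [.l [4, 1, 16, 12, 14, 12, 12, 10, 10, 8, 8, 4, 4, 2, 3], .l [4, 1], .l [11, 14, 12, 12, 10, 10, 8, 8, 6, 6, 4, 7, 5, 4, 6, 5, 5, 3], .l [4, 1, 16, 12, 1, 12, 14, 11, 14, 1, 10, 8, 9], .l [4, 1], .l [2, 3], .l [6, 3, 16, 10, 14, 12, 12, 10, 10, 6, 6, 4, 5], .l [6, 3], .l [2, 5], .l [8, 5, 5, 3, 14, 8, 12, 10, 10, 6, 6, 4, 5], .l [8, 5], .l [2, 7], .l [10, 7, 7, 5, 5, 3, 12, 6, 10, 6, 6, 4, 5], .l [10, 7], .l [2, 9], .l [12, 9, 9, 7, 7, 5, 12, 4, 10, 8, 8, 6, 3], .l [12, 9], .l [2, 11], .l [14, 11, 11, 9, 9, 7, 7, 5, 10, 2, 6, 4, 5], .l [14, 11], .l [2, 13], .l [17, 14, 14, 12, 12, 10, 10, 8, 8,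 4, 4, 2, 3], .l [17, 14], .l [2, 16], .y [2, 4, 6, 8, 12, 14, 17], .l [19, 16, 16, 14, 14, 12, 12, 10, 10, 6, 6, 4, 5], .l [19, 16], .l [2, 18], .l [2, 18, 18, 1, 14, 12, 12, 10, 10, 8, 8, 6, 6, 2, 2, 0, 1], .l [21, 18, 18, 16, 16, 14, 14, 12, 12, 8, 8, 6, 7], .l [21, 18], .l [2, 20]]),
([p 8 1, g, m 0 2, g, m 2 3, g, m 3 4, g, s 0 5, g, m 4 6, g, m 6 7, p 5 8, g, m 7 0, g, s 1 0, g], .lo 2, [.l [4, 1, 14, 10, 12, 10, 10, 8, 8, 4, 4, 2, 3], .l [4, 1], .r 2748 [1, 9, 2, 3, 4, 5, 6, 7, 8] [1, 1, 1, 1, 1, 1, 1, 1, 1, 1], .l [4, 1, 14, 10, 1, 10, 12, 9, 12, 1, 8, 6, 7], .l [4, 1], .l [2, 3], .l [6, 3, 14, 8, 12, 10, 10, 6, 6, 4, 5], .l [6, 3], .l [2, 5], .l [8, 5, 5, 3, 12, 6, 10, 6, 6, 4, 5], .l [8, 5], .l [2, 7], .l [10,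 7, 7, 5, 12, 4, 10, 8, 8, 6, 3], .l [10, 7], .l [2, 9], .l [12, 9, 9, 7, 7, 5, 10, 2, 6, 4, 5], .l [12, 9], .l [2, 11], .l [15, 12, 12, 10, 10, 8, 8, 4, 4, 2, 3], .l [15, 12], .l [2, 14], .y [2, 4, 6, 10, 12, 15], .l [17, 14, 14, 12, 12, 10, 10, 6, 6, 4, 5], .l [17, 14], .l [2, 16], .l [2, 16, 16, 1, 12, 10, 10, 8, 8, 6, 6, 2, 2, 0, 1], .l [19, 16, 16, 14, 14, 12, 12, 8, 8, 6, 7], .l [19, 16], .l [2, 18]]),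
([p 7 1, g, m 0 2, g, m 2 3, g, s 0 4, g, m 3 5, g, m 5 6, p 4 7, g, m 6 0, g, s 1 0, g], .lo 2, [.l [4, 1, 12, 8, 10, 8, 8, 4, 4, 2, 3], .l [4, 1], .r 2749 [1, 8, 2, 3, 4, 5, 6, 7] [1, 1, 1, 1, 1, 1, 1, 1, 1], .l [4, 1, 12, 8, 1, 8, 10, 7, 10, 1, 6, 4, 5], .l [4, 1], .l [2, 3], .l [6, 3, 12, 6, 10, 6, 6, 4, 5], .l [6, 3], .l [2, 5], .l [8, 5, 12, 4, 10, 8, 8, 6, 3], .l [8, 5], .l [2, 7], .l [10, 7, 7, 5, 10, 2, 6, 4, 5], .l [10, 7], .l [2, 9], .l [13, 10, 10, 8, 8, 4, 4, 2, 3], .l [13, 10], .l [2, 12], .y [2, 4, 8, 10, 13], .l [15, 12, 12, 10, 10, 6, 6, 4, 5], .l [15, 12], .l [2, 14], .l [2, 14, 14, 1, 10, 8, 8, 6, 6, 2, 2, 0, 1], .l [17, 14, 14, 12, 12, 8, 8, 6, 7], .l [17, 14], .l [2, 16]]),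
([p 6 1, g, m 0 2, g, s 0 3, g, m 2 4, g, m 4 5, p 3 6, g, m 5 0, g, s 1 0, g], .lo 2, [.l [4, 1, 10, 6, 8, 4, 4, 2, 3], .l [4, 1], .r 2750 [1, 7, 2, 3, 4, 5, 6] [1, 1, 1, 1, 1, 1, 1, 1], .l [4, 1, 10, 6, 3, 6, 4, 2, 3], .l [4, 1], .l [2, 3], .l [6, 3, 7, 3, 5, 6, 3], .l [6, 3], .l [2, 5], .l [8, 5, 10, 2, 6, 4, 5], .l [8, 5], .l [2, 7], .l [11, 8, 8, 4, 4, 2, 3], .l [11, 8], .l [2, 10], .y [2, 6, 8, 11], .l [13, 10, 10, 6, 6, 4, 5], .l [13, 10], .l [2, 12], .l [2, 12, 12, 1, 8, 6, 6, 2, 2, 0, 1], .l [15, 12, 12, 8, 8, 6, 7], .l [15, 12], .l [2, 14]])]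

def d10_3 : List (List Item × Qry × List Rf) := [
([p 9 1, g, s 0 2, g, m 0 3, g, m 3 4, g, m 4 5, g, m 5 6, g, m 6 7, g, m 7 8, p 2 9, g, m 8 0, g, s 1 0, g], .lo 4, [.l [6, 3, 16, 10, 12, 10, 10, 8, 8, 6, 6, 4, 4, 2, 3], .l [6, 3], .l [3, 6, 4, 15, 13, 12, 14, 13, 13, 11, 11, 9, 9, 7, 7, 5, 5, 3], .l [6, 1, 16, 10, 14, 12, 12, 10, 10, 8, 8, 6, 6, 4, 1], .l [6, 1], .l [1, 17, 15, 14, 16, 15, 15, 13, 13, 11, 11, 9, 9, 7, 7, 5, 5, 3], .l [6, 1, 16, 10, 1, 12, 14, 9, 10, 12, 1, 10, 7], .l [6, 1], .l [4, 5], .l [8, 3, 16, 8, 14, 12, 12, 10, 10, 8, 8, 6, 1], .l [8, 3], .l [4, 7], .l [10, 5, 5, 3, 14, 6, 12, 10, 10, 8, 8, 6, 1], .l [10, 5], .l [4, 9], .l [12, 7, 7, 5, 5, 3, 12, 4, 10, 8, 8, 6, 1], .l [12, 7], .l [4, 11],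 .l [14, 9, 9, 7, 7, 5, 5, 3, 10, 2, 8, 6, 1], .l [14, 9], .l [4, 13], .l [17, 12, 12, 10, 10, 8, 8, 6, 6, 4, 4, 2, 3], .l [17, 12], .l [4, 16], .y [4, 6, 8, 10, 12, 14, 17], .l [19, 14, 14, 12, 12, 10, 10, 8, 8, 6, 6, 4, 5], .l [19, 14], .l [4, 18], .l [4, 18, 18, 3, 14, 10, 10, 8, 8, 6, 6, 4, 4, 2, 2, 0, 1], .l [21, 16, 16, 14, 14, 12, 12, 10, 10, 8, 8, 6, 7], .l [21, 16], .l [4, 20]]),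
([p 8 1, g, s 0 2, g, m 0 3, g, m 3 4, g, m 4 5, g, m 5 6, g, m 6 7, p 2 8, g, m 7 0, g, s 1 0, g], .lo 4, [.l [6, 3, 14, 8, 10, 8, 8, 6, 6, 4, 4, 2, 3], .l [6, 3], .r 1558 [9, 2, 3, 4, 5, 6, 7, 8] [1, 1, 1, 1, 1, 1, 1, 1, 3], .l [6, 1, 14, 8, 12, 10, 10, 8, 8, 6, 6, 4, 1], .l [6, 1], .r 2752 [1, 2, 9, 3, 4, 5, 6, 7, 8] [1, 1, 1, 1, 1, 1, 1, 1, 1, 1], .l [6, 1, 14, 8, 1, 10, 12, 7, 8, 10, 1, 8, 5], .l [6, 1], .l [4, 5], .l [8, 3, 14, 6, 12, 10, 10, 8, 8, 6, 1], .l [8, 3], .l [4, 7], .l [10, 5, 5, 3, 12, 4, 10, 8, 8, 6, 1], .l [10, 5], .l [4, 9], .l [12, 7, 7, 5, 5, 3, 10, 2, 8, 6, 1], .l [12, 7], .l [4, 11], .l [15, 10, 10, 8, 8, 6, 6, 4, 4, 2, 3], .l [15, 10], .l [4, 14], .y [4, 6, 8, 10, 12, 15], .l [17, 12, 12, 10,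 10, 8, 8, 6, 6, 4, 5], .l [17, 12], .l [4, 16], .l [4, 16, 16, 3, 12, 8, 8, 6, 6, 4, 4, 2, 2, 0, 1], .l [19, 14, 14, 12, 12, 10, 10, 8, 8, 6, 7], .l [19, 14], .l [4, 18]]),
([p 9 1, g, m 0 2, g, m 2 3, g, s 0 4, g, m 3 5, g, m 5 6, g, m 6 7, g, m 7 8, p 4 9, g, m 8 0, g, s 1 0, g], .lo 2, [.l [4, 1, 16, 12, 14, 12, 12, 8, 8, 6, 6, 4, 4, 2, 3], .l [4, 1], .l [7, 10, 8, 8, 6, 6, 4, 11, 9, 8, 10, 9, 9, 7, 7, 5, 5, 3], .l [4, 1, 16, 12, 1, 12, 14, 11, 14, 1, 6, 4, 9], .l [4, 1], .l [2, 3], .l [6, 3, 16, 10, 14, 10, 10, 8, 8, 6, 6, 4, 5], .l [6, 3], .l [2, 5], .l [8, 5, 16, 8, 14, 12, 12, 10, 10, 8, 8, 6, 3], .l [8, 5], .l [2, 7], .l [10, 7, 7, 5, 14, 6, 10, 8, 8, 6, 6, 4, 5], .l [10, 7], .l [2, 9], .l [12, 9, 9, 7, 7, 3,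 12, 4, 10, 8, 8, 6, 1], .l [12, 9], .l [2, 11], .l [14, 11, 11, 9, 9, 5, 5, 3, 10, 2, 8, 6, 1], .l [14, 11], .l [2, 13], .l [17, 14, 14, 12, 12, 8, 8, 6, 6, 4, 4, 2, 3], .l [17, 14], .l [2, 16], .y [2, 4, 8, 10, 12, 14, 17], .l [19, 16, 16, 14, 14, 10, 10, 8, 8, 6, 6, 4, 5], .l [19, 16], .l [2, 18], .l [2, 18, 18, 1, 14, 12, 12, 10, 10, 6, 6, 4, 4, 2, 2, 0, 1], .l [21, 18, 18, 16, 16, 12, 12, 10, 10, 8, 8, 6, 7], .l [21, 18], .l [2, 20]]),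
([p 8 1, g, m 0 2, g, s 0 3, g, m 2 4, g, m 4 5, g, m 5 6, g, m 6 7, p 3 8, g, m 7 0, g, s 1 0, g], .lo 2, [.l [4, 1, 14, 10, 12, 8, 8, 6, 6, 4, 4, 2, 3], .l [4, 1], .r 2754 [1, 9, 2, 3, 4, 5, 6, 7, 8] [1, 1, 1, 1, 1, 1, 1, 1, 1, 1], .l [4, 1, 14, 10, 3, 10, 12, 9, 12, 1, 6, 4, 7], .l [4, 1], .l [2, 3], .l [3, 8, 6, 6, 1, 15, 10, 13, 11, 11, 9, 9, 7, 4, 3], .l [6, 3], .l [2, 5], .l [8, 5, 14, 6, 10, 8, 8, 6, 6, 4, 5], .l [8, 5], .l [2, 7], .l [10, 7, 7, 3, 12, 4, 10, 8, 8, 6, 1], .l [10, 7], .l [2, 9], .l [12, 9, 9, 5, 5, 3, 10, 2, 8, 6, 1], .l [12, 9], .l [2, 11], .l [15, 12, 12, 8, 8, 6, 6, 4, 4, 2, 3], .l [15, 12], .l [2, 14], .y [2, 6, 8, 10, 12, 15], .l [17, 14, 14, 10, 10, 8, 8, 6, 6, 4, 5], .l [17, 14], .l [2,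 16], .l [2, 16, 16, 1, 12, 10, 10, 6, 6, 4, 4, 2, 2, 0, 1], .l [19, 16, 16, 12, 12, 10, 10, 8, 8, 6, 7], .l [19, 16], .l [2, 18]]),
([p 7 1, g, s 0 2, g, m 0 3, g, m 3 4, g, m 4 5, g, m 5 6, p 2 7, g, m 6 0, g, s 1 0, g], .lo 4, [.l [6, 3, 12, 6, 8, 6, 6, 4, 4, 2, 3], .l [6, 3], .r 2755 [1, 8, 2, 3, 4, 5, 6, 7] [1, 1, 1, 1, 1, 1, 1, 1, 1], .l [6, 1, 12, 6, 10, 8, 8, 6, 6, 4, 1], .l [6, 1], .r 2753 [1, 2, 8, 3, 4, 5, 6, 7] [1, 1, 1, 1, 1, 1, 1, 1, 1], .l [6, 1, 12, 6, 1, 8, 10, 5, 6, 8, 1, 6, 3], .l [6, 1], .l [4, 5], .l [8, 3, 12, 4, 10, 8, 8, 6, 1], .l [8, 3], .l [4, 7], .l [10, 5, 5, 3, 10, 2, 8, 6, 1], .l [10, 5], .l [4, 9], .l [13, 8, 8, 6, 6, 4, 4, 2, 3], .l [13, 8], .l [4, 12], .y [4, 6, 8, 10, 13], .l [15, 10,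 10, 8, 8, 6, 6, 4, 5], .l [15, 10], .l [4, 14], .l [4, 14, 14, 3, 10, 6, 6, 4, 4, 2, 2, 0, 1], .l [17, 12, 12, 10, 10, 8, 8, 6, 7], .l [17, 12], .l [4, 16]]),
([p 9 1, g, m 0 2, g, m 2 3, g, m 3 4, g, s 0 5, g, m 4 6, g, m 6 7, g, m 7 8, p 5 9, g, m 8 0, g, s 1 0, g], .lo 2, [.l [4, 1, 16, 12, 14, 12, 12, 10, 10, 6, 6, 4, 4, 2, 3], .l [4, 1], .l [9, 12, 10, 10, 8, 8, 6, 6, 4, 9, 7, 6, 8, 7, 7, 5, 5, 3], .l [4, 1, 16, 12, 1, 12, 14, 11, 14, 1, 8, 6, 9], .l [4, 1], .l [2, 3], .l [6, 3, 16, 10, 14, 12, 12, 8, 8, 6, 6, 4, 5], .l [6, 3], .l [2, 5], .l [8, 5, 5, 3, 14, 8, 12, 8, 8, 6, 6, 4, 5], .l [8, 5], .l [2, 7], .l [10, 7, 7, 5, 14, 6, 12, 10, 10, 8, 8, 6, 3], .l [10, 7], .l [2, 9], .l [12, 9, 9, 7, 7, 5, 12, 4, 8, 6, 6,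 4, 5], .l [12, 9], .l [2, 11], .l [14, 11, 11, 9, 9, 7, 7, 3, 10, 2, 8, 6, 1], .l [14, 11], .l [2, 13], .l [17, 14, 14, 12, 12, 10, 10, 6, 6, 4, 4, 2, 3], .l [17, 14], .l [2, 16], .y [2, 4, 6, 10, 12, 14, 17], .l [19, 16, 16, 14, 14, 12, 12, 8, 8, 6, 6, 4, 5], .l [19, 16], .l [2, 18], .l [2, 18, 18, 1, 14, 12, 12, 10, 10, 8, 8, 4, 4, 2, 2, 0, 1], .l [21, 18, 18, 16, 16, 14, 14, 10, 10, 8, 8, 6, 7], .l [21, 18], .l [2, 20]]),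
([p 8 1, g, m 0 2, g, m 2 3, g, s 0 4, g, m 3 5, g, m 5 6, g, m 6 7, p 4 8, g, m 7 0, g, s 1 0, g], .lo 2, [.l [4, 1, 14, 10, 12, 10, 10, 6, 6, 4, 4, 2, 3], .l [4, 1], .r 2757 [1, 9, 2, 3, 4, 5, 6, 7, 8] [1, 1, 1, 1, 1, 1, 1, 1, 1, 1], .l [4, 1, 14, 10, 1, 10, 12, 9, 12, 1, 6, 4, 7], .l [4, 1], .l [2, 3], .l [6, 3, 14, 8, 12, 8, 8, 6, 6, 4, 5], .l [6, 3], .l [2, 5], .l [8, 5, 14, 6, 12, 10, 10, 8, 8, 6, 3], .l [8, 5], .l [2, 7], .l [10, 7, 7, 5, 12, 4, 8, 6, 6, 4, 5], .l [10, 7], .l [2, 9], .l [12, 9, 9, 7, 7, 3, 10, 2, 8, 6, 1], .l [12, 9], .l [2, 11], .l [15, 12, 12, 10, 10, 6, 6, 4, 4, 2, 3], .l [15, 12], .l [2, 14], .y [2, 4, 8, 10, 12, 15], .l [17, 14, 14, 12, 12, 8, 8, 6, 6, 4, 5], .l [17, 14], .l [2, 16], .l [2,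 16, 16, 1, 12, 10, 10, 8, 8, 4, 4, 2, 2, 0, 1], .l [19, 16, 16, 14, 14, 10, 10, 8, 8, 6, 7], .l [19, 16], .l [2, 18]]),
([p 7 1, g, m 0 2, g, s 0 3, g, m 2 4, g, m 4 5, g, m 5 6, p 3 7, g, m 6 0, g, s 1 0, g], .lo 2, [.l [4, 1, 12, 8, 10, 6, 6, 4, 4, 2, 3], .l [4, 1], .r 2758 [1, 8, 2, 3, 4, 5, 6, 7] [1, 1, 1, 1, 1, 1, 1, 1, 1], .l [4, 1, 12, 8, 3, 8, 10, 7, 10, 1, 6, 4, 5], .l [4, 1], .l [2, 3], .l [3, 8, 6, 6, 1, 13, 8, 11, 9, 9, 7, 4, 3], .l [6, 3], .l [2, 5], .l [8, 5, 12, 4, 8, 6, 6, 4, 5], .l [8, 5], .l [2, 7], .l [10, 7, 7, 3, 10, 2, 8, 6, 1], .l [10, 7], .l [2, 9], .l [13, 10, 10, 6, 6, 4, 4, 2, 3], .l [13, 10], .l [2, 12], .y [2, 6, 8, 10, 13], .l [15, 12, 12, 8, 8, 6, 6, 4, 5], .l [15, 12], .l [2, 14], .l [2,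 14, 14, 1, 10, 8, 8, 4, 4, 2, 2, 0, 1], .l [17, 14, 14, 10, 10, 8, 8, 6, 7], .l [17, 14], .l [2, 16]]),
([p 6 1, g, s 0 2, g, m 0 3, g, m 3 4, g, m 4 5, p 2 6, g, m 5 0, g, s 1 0, g], .lo 4, [.l [6, 3, 10, 4, 6, 4, 4, 2, 3], .l [6, 3], .r 2759 [1, 7, 2, 3, 4, 5, 6] [1, 1, 1, 1, 1, 1, 1, 1], .l [6, 1, 10, 4, 8, 6, 6, 4, 1], .l [6, 1], .r 2756 [1, 2, 7, 3, 4, 5, 6] [1, 1, 1, 1, 1, 1, 1, 1], .l [3, 6, 1, 13, 10, 3, 9, 3, 4, 2, 4, 2, 3], .l [6, 1], .l [4, 5], .l [8, 3, 10, 2, 8, 6, 1], .l [8, 3], .l [4, 7], .l [11, 6, 6, 4, 4, 2, 3], .l [11, 6], .l [4, 10], .y [4, 6, 8, 11], .l [13, 8, 8, 6, 6, 4, 5], .l [13, 8], .l [4, 12], .l [4, 12, 12, 3, 8, 4, 4, 2, 2, 0, 1], .l [15, 10, 10, 8, 8, 6, 7], .l [15, 10], .l [4, 14]]),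
([p 5 1, g, s 0 2, g, m 0 3, g, m 3 4, p 2 5, g, m 4 0, g, s 1 0, g], .lo 4, [.l [6, 3, 8, 2, 4, 2, 3], .l [6, 3], .r 2751 [1, 6, 2, 3, 4, 5] [1, 1, 1, 1, 1, 1, 1], .l [6, 1, 8, 2, 6, 4, 1], .l [6, 1], .r 2760 [1, 2, 6, 3, 4, 5] [1, 1, 1, 1, 1, 1, 1], .r 2747 [1, 2, 3, 6, 4, 5] [1, 1, 1, 1, 1, 1, 1], .l [6, 1], .l [4, 5], .l [9, 4, 4, 2, 3], .l [9, 4], .l [4, 8], .y [4, 6, 9], .l [11, 6, 6, 4, 5], .l [11, 6], .l [4, 10], .l [4, 10, 10, 3, 6, 2, 2, 0, 1], .l [13, 8, 8, 6, 7], .l [13, 8], .l [4, 12]]),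
([p 6 1, s 0 0, g, s 0 2, g, m 4 3, g, s 0 4, g, m 3 5, p 2 6, g, s 1 0, g, m 5 0, g], .hi 1, [.y [1], .l [9, 1, 11, 2, 11, 8, 1, 10, 1, 4, 2, 3], .l [2, 12, 9, 9, 10], .r 854 [7, 6] [1, 8, 5], .l [7, 1, 9, 2, 9, 6, 1, 8, 1, 4, 2, 3], .l [9, 1, 11, 2, 11, 8, 3, 10, 1, 4, 2, 5], .l [4, 12, 7, 7, 10], .r 854 [7, 6] [3, 6, 5], .l [9, 3, 11, 2, 11, 8, 5, 1, 6, 3], .l [6, 11, 9, 11, 6, 6, 9], .l [7, 5, 11, 4, 7, 3, 6], .l [12, 11, 5, 10, 1, 6, 4, 5], .l [7, 1, 11, 4, 11, 6, 8, 4, 2, 3], .l [8, 11, 7, 11, 6, 6, 9], .l [9, 7, 11, 2, 7, 5, 6], .l [7, 1, 9, 2, 11, 8, 5, 1, 6, 3], .l [11, 16, 13, 13, 9, 13, 8, 8, 5], .l [7, 1, 11, 5, 10, 1, 6, 3], .l [7, 1, 9, 2, 9, 6, 8, 4, 2, 3], .l [12, 11, 12], .l [7, 1, 13, 7, 4, 8, 6, 7],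 .l [7, 1, 9, 2, 9, 6, 10, 6, 2, 5], .l [12, 11, 14], .l [7, 1, 15, 9, 4, 10, 8, 9]]),
([p 6 1, g, s 0 2, g, m 4 3, g, s 0 4, g, m 3 5, p 2 6, g, s 1 0, g, m 5 0, g], .top 1, [.l [7, 8, 0, 0, 7], .r 2762 [1, 2, 3, 4, 5, 6] [1, 1, 1, 1, 1, 1, 1], .r 334 [] [14], .r 444 [] [14]]),
([p 5 1, g, s 0 2, g, m 0 3, g, m 3 4, p 2 5, g, s 1 0, g, m 4 6, g, m 6 7, g, m 7 8, g, m 8 9, g, m 9 0, g], .lo 4, [.l [6, 3, 8, 2, 4, 2, 3], .l [6, 3], .l [16, 7, 11, 16, 10, 7, 12, 14, 10, 5, 7, 9, 11, 9, 7, 3, 7, 3], .l [6, 1, 8, 2, 6, 4, 1], .l [6, 1], .l [18, 3, 10, 18, 9, 2, 14, 8, 4, 10, 1, 9, 1, 10, 8, 3, 7, 1], .r 2763 [1, 2, 3, 10, 4, 5] [1, 1, 1, 1, 1, 1, 9], .l [6, 1], .l [4, 5], .l [9, 4, 4, 2, 3], .l [9, 4], .l [4, 8], .l [4, 8,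 8, 3, 6, 2, 2, 0, 1], .l [11, 6, 6, 4, 5], .l [11, 6], .l [4, 10], .l [13, 8, 8, 6, 7], .l [13, 8], .l [4, 12], .l [15, 10, 10, 8, 9], .l [15, 10], .l [4, 14], .l [17, 12, 12, 10, 11], .l [17, 12], .l [4, 16], .l [19, 14, 14, 12, 13], .l [19, 14], .l [4, 18], .y [4, 6, 11, 13, 15, 17, 19], .l [21, 16, 16, 14, 15], .l [21, 16], .l [4, 20]]),
([p 5 1, g, s 0 2, g, m 0 3, g, m 3 4, p 2 5, g, s 1 0, g, m 4 6, g, m 6 7, g, m 7 8, g, m 8 0, g], .hi 17, [.l [18, 19, 17, 17, 15, 15, 13, 13, 8, 9, 1, 2, 4, 2, 3], .l [1, 9, 7, 16], .l [2, 18], .l [16, 17, 15, 15, 13, 13, 11, 11, 6, 7, 1, 2, 2, 0, 1], .l [1, 4, 17, 17, 15, 15, 13, 13, 11, 11, 6, 7, 3, 2, 3], .l [3, 9, 5, 16], .l [4, 18], .y [4, 6, 11, 13, 15, 17], .l [5, 9, 3, 16,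 9, 12, 1], .l [0, 10, 4, 16, 7, 11, 1, 10, 7], .l [6, 18], .l [8, 13, 10, 11, 5, 14, 5, 8, 1], .l [8, 13, 10, 10, 8, 10, 6, 13], .l [9, 18], .l [10, 13, 8, 9, 3, 14, 7, 10, 1], .l [10, 13, 8, 8, 6, 8, 4, 13], .l [11, 18], .l [12, 15, 13, 13, 8, 9, 3, 12, 5, 8, 1], .l [12, 15, 13, 13, 8, 8, 6, 8, 4, 11], .l [13, 18], .l [14, 17, 15, 15, 13, 13, 8, 9, 3, 10, 3, 6, 1], .l [14, 17, 15, 15, 13, 13, 8, 8, 6, 8, 4, 9], .l [15, 18], .l [18, 19, 15, 15, 13, 13, 11, 11, 6, 7, 1, 8, 3, 6, 1], .l [16, 19, 17, 17, 15, 15, 13, 13, 8, 8, 6, 8, 4, 1], .l [17, 18], .l [16, 17, 15, 15, 13, 13, 11, 11, 6, 7, 1, 8, 3, 6, 1], .l [16, 17, 15, 15, 13, 13, 11, 11, 6, 6, 4, 6, 2, 7], .r 2764 [1, 2, 3, 4, 5, 6, 7, 8, 9] [1, 1, 1, 1, 1, 1, 1, 1,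 1, 1]]),
([p 5 1, g, s 0 2, g, m 0 3, g, m 3 4, p 2 5, g, s 1 0, g, m 4 6, g, m 6 7, g, m 7 0, g], .hi 15, [.l [16, 17, 15, 15, 13, 13, 8, 9, 1, 2, 4, 2, 3], .l [1, 9, 7, 14], .l [2, 16], .l [14, 15, 13, 13, 11, 11, 6, 7, 1, 2, 2, 0, 1], .l [1, 4, 15, 15, 13, 13, 11, 11, 6, 7, 3, 2, 3], .l [3, 9, 5, 14], .l [4, 16], .y [4, 6, 11, 13, 15], .l [5, 9, 3, 14, 7, 10, 1], .l [0, 10, 4, 14, 5, 9, 1, 8, 5], .l [6, 16], .l [8, 13, 10, 11, 5, 12, 3, 6, 1], .l [8, 13, 10, 10, 8, 10, 6, 11], .l [9, 16], .l [10, 13, 8, 9, 3, 12, 5, 8, 1], .l [10, 13, 8, 8, 6, 8, 4, 11], .l [11, 16], .l [12, 15, 13, 13, 8, 9, 3, 10, 3, 6, 1], .l [12, 15, 13, 13, 8, 8, 6, 8, 4, 9], .l [13, 16], .l [16, 17, 13, 13, 11, 11, 6, 7, 1, 8, 3, 6, 1], .l [14,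 17, 15, 15, 13, 13, 8, 8, 6, 8, 4, 1], .l [15, 16], .l [14, 15, 13, 13, 11, 11, 6, 7, 1, 8, 3, 6, 1], .l [14, 15, 13, 13, 11, 11, 6, 6, 4, 6, 2, 7], .r 2765 [1, 2, 3, 4, 5, 6, 7, 8] [1, 1, 1, 1, 1, 1, 1, 1, 1]]),
([p 5 1, g, s 0 2, g, m 0 3, g, m 3 4, p 2 5, g, s 1 0, g, m 4 6, g, m 6 0, g], .hi 13, [.l [14, 15, 13, 13, 8, 9, 1, 2, 4, 2, 3], .l [1, 9, 7, 12], .l [2, 14], .l [12, 13, 11, 11, 6, 7, 1, 2, 2, 0, 1], .l [1, 4, 13, 13, 11, 11, 6, 7, 3, 2, 3], .l [3, 9, 5, 12], .l [4, 14], .y [4, 6, 11, 13], .l [5, 9, 3, 12, 5, 8, 1], .l [0, 10, 4, 12, 3, 7, 1, 6, 3], .l [6, 14], .l [8, 13, 10, 11, 5, 10, 1, 4, 1], .l [8, 13, 10, 10, 8, 10, 6, 9], .l [9, 14], .l [10, 13, 8, 9, 3, 10, 3, 6, 1], .l [10, 13, 8, 8, 6, 8, 4, 9],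 .l [11, 14], .l [14, 15, 11, 11, 6, 7, 1, 8, 3, 6, 1], .l [12, 15, 13, 13, 8, 8, 6, 8, 4, 1], .l [13, 14], .l [12, 13, 11, 11, 6, 7, 1, 8, 3, 6, 1], .l [12, 13, 11, 11, 6, 6, 4, 6, 2, 7], .r 2766 [1, 2, 3, 4, 5, 6, 7] [1, 1, 1, 1, 1, 1, 1, 1]]),
([p 5 1, g, s 0 2, g, m 0 3, g, m 3 4, p 2 5, g, s 1 0, g, m 4 0, g], .hi 11, [.l [12, 13, 8, 9, 1, 2, 4, 2, 3], .l [1, 9, 7, 10], .l [2, 12], .l [10, 11, 6, 7, 1, 2, 2, 0, 1], .l [1, 4, 11, 11, 6, 7, 3, 2, 3], .l [3, 9, 5, 10], .l [4, 12], .y [4, 6, 11], .l [5, 9, 3, 10, 3, 6, 1], .l [0, 10, 4, 10, 1, 5, 1, 4, 1], .l [6, 12], .l [12, 13, 6, 7, 1, 6, 1, 4, 1], .l [8, 13, 10, 10, 8, 10, 6, 3], .l [9, 12], .l [12, 13, 6, 7, 1, 8, 3, 6, 1], .l [10, 13, 8, 8, 6, 8, 4, 1], .l [11,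 12], .l [10, 11, 6, 7, 1, 8, 3, 6, 1], .l [10, 11, 6, 6, 4, 6, 2, 7], .r 2767 [1, 2, 3, 4, 5, 6] [1, 1, 1, 1, 1, 1, 1]]),
([p 4 1, g, s 0 2, g, m 0 3, g, m 3 0, p 2 4, g, s 1 0, g], .hi 6, [.l [7, 9, 1, 2, 4, 2, 3], .l [1, 9, 7, 5], .l [2, 7], .l [5, 7, 1, 2, 2, 0, 1], .l [1, 4, 6, 7, 3, 2, 3], .l [3, 9, 5, 3], .l [4, 7], .y [4, 6], .l [7, 9, 1, 6, 1, 4, 1], .l [0, 10, 4, 1, 4, 2, 3], .l [6, 7], .l [5, 7, 1, 6, 1, 4, 1], .l [5, 6, 4, 6, 2, 5], .r 2761 [1, 2, 3, 5, 4] [1, 1, 1, 1, 1, 1], .l [5, 7, 1, 8, 3, 6, 1], .l [0, 8, 2, 8, 1, 5, 1, 4, 1], .r 2768 [1, 2, 3, 5, 4] [1, 1, 1, 1, 1, 1]]),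
([p 3 1, g, m 0 2, g, m 2 0, p 0 3, g, s 1 0, g], .lo 5, [.r 2769 [1, 4, 2, 3] [1, 1, 1, 1, 1], .l [2, 6], .l [1, 7, 5, 4], .l [3, 7, 3, 2, 3], .l [4, 6], .l [3, 6, 4, 6, 4, 3], .l [3, 4, 2, 4, 2, 1], .r 1499 [2, 3, 4] [1, 1, 1, 3], .r 1464 [1, 2, 3, 4] [1, 1, 1, 1, 1], .l [4, 5, 0, 5], .y [0, 7, 5], .r 1499 [2, 3, 4] [1, 1, 3, 1], .r 2743 [1, 2, 3, 4] [1, 1, 1, 1, 1], .l [4, 5, 0, 7]]),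
([p 4 1, s 0 2, g, s 2 0, g, m 5 0, s 0 3, g, m 3 0, g, p 0 4, g, s 1 5, g], .lo 6, [.l [4, 12, 7, 7, 10, 10, 4, 7], .l [3, 7, 12], .l [2, 12, 9, 4, 10], .l [2, 10, 7, 7, 8, 8, 4, 5], .l [2, 12, 9, 9, 10, 10, 4, 5], .l [2, 12, 9, 9, 10, 10, 4, 5], .l [4, 12, 7, 2, 10], .l [4, 10, 5, 0, 8], .l [2, 12, 9, 9, 10, 10, 6, 1], .l [8, 1, 9, 7, 10], .l [2, 12, 9, 9, 10, 10, 6, 1], .y [6, 8], .l [2, 12, 9, 9, 10, 10, 6, 3], .l [8, 1, 9, 7, 10], .l [2, 12, 9, 9, 10, 10, 6, 3], .l [2, 10, 7, 7, 10, 10, 4, 7], .l [8, 1, 11, 9, 10], .l [2, 10, 7, 7, 10, 10, 4, 7], .l [2, 10, 7, 7, 8, 8, 4, 7], .l [8, 1, 13, 11, 8], .l [2, 10, 7, 7, 8, 8, 4, 7]]),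
([p 0 1, s 0 2, g, m 4 0, s 0 3, g, m 3 0, g, s 2 0, g, s 1 4, g], .lo 4, [.l [12, 6, 7, 1, 8, 5], .l [3, 5, 10], .l [8, 1, 4, 2, 8], .l [6, 1, 2, 0, 6], .l [6, 1, 7, 5, 8, 8, 2, 5], .l [6, 1, 7, 5, 8], .l [12, 8, 1], .y [4, 6], .l [4, 7, 11, 7, 4, 8, 6, 3], .l [6, 1, 7, 5, 8], .l [12, 8, 3], .l [6, 1, 7, 5, 6, 6, 2, 3], .l [4, 9, 11, 5, 8, 3, 4, 1], .l [6, 1, 9, 7, 8], .l [12, 8, 5], .l [10, 6, 10, 4, 2, 3], .l [6, 1, 11, 9, 6], .l [10, 6, 10]]),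
([p 4 1, s 3 2, g, m 5 0, s 0 0, g, p 0 3, g, p 0 4, g, s 2 0, g, s 1 5, g], .hi 4, [.l [14, 8, 9, 1, 10, 7], .l [2, 10, 7, 2, 10], .l [3, 5, 12], .y [4], .l [5, 10, 4, 7, 10, 10, 2, 3], .l [3, 13, 13, 2, 9, 6, 1], .r 2772 [1, 2, 6, 5] [1, 1, 5, 1, 1], .l [3, 11, 11, 2, 7, 4, 1], .l [7, 10, 2, 5, 10, 10, 2, 7], .l [3, 13, 13, 2, 9, 6, 3], .l [6, 4, 11, 6, 10, 10, 8, 5], .l [3, 11, 11, 2, 7, 4, 3], .l [6, 4, 7, 1, 7, 2, 8, 8, 4, 5], .l [3, 13, 13, 2, 7, 4, 7], .l [6, 4, 7, 1, 7, 2, 8, 8, 4, 5], .l [6, 4, 7, 1, 9, 4, 8, 8, 6, 3], .l [3, 13, 13, 2, 7, 4, 9], .l [6, 4, 7, 1, 9, 4, 8, 8, 6, 3], .l [12, 8, 12, 4, 2, 7], .l [3, 11, 11, 2, 7, 4, 9], .l [6, 4, 7, 1, 11, 6, 3, 3, 6, 3]]),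
([p 3 1, s 0 2, g, m 4 0, s 0 0, g, p 0 3, g, s 1 4, g, s 2 0, g], .hi 4, [.l [8, 7, 2, 5], .l [10, 9, 10, 1, 4, 5], .l [2, 8, 5, 2, 6], .l [3, 5, 8], .y [4], .l [5, 8, 2, 5, 6, 6, 2, 5], .l [3, 9, 9, 2, 7, 4, 1], .r 2139 [1, 2, 5, 4] [1, 1, 3, 1, 1], .l [3, 7, 7, 2, 5, 2, 1], .l [10, 9, 10, 1, 6, 3], .l [3, 9, 9, 2, 5, 2, 5], .r 2139 [1, 2, 5, 4] [1, 3, 1, 1, 1], .l [8, 7, 10, 3, 6, 3], .l [3, 7, 7, 2, 5, 2, 5], .l [8, 7, 10, 3, 6, 3], .l [8, 7, 8, 1, 4, 7], .l [3, 7, 7, 2, 5, 2, 7], .l [8, 7, 8, 10, 4, 7]]),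
([p 3 1, s 0 2, g, m 4 0, s 0 0, g, s 2 0, g, p 0 3, g, s 1 4, g], .hi 4, [.l [10, 9, 2, 7], .l [12, 6, 7, 1, 8, 3], .l [2, 10, 7, 2, 8], .l [3, 5, 10], .y [4], .l [5, 10, 4, 7, 8, 8, 2, 3], .l [3, 11, 11, 2, 9, 6, 1], .r 2772 [1, 2, 5, 4] [1, 1, 1, 3, 1], .l [7, 10, 2, 5, 8, 8, 2, 5], .l [3, 11, 11, 2, 9, 6, 3], .l [12, 11, 4, 6, 4, 7], .l [3, 9, 9, 2, 7, 4, 3], .l [12, 11, 4, 8, 6, 7], .l [3, 11, 11, 2, 7, 4, 7], .l [12, 11, 4, 8, 6, 7], .l [10, 6, 10, 4, 2, 5], .l [3, 9, 9, 2, 7, 4, 7], .l [10, 9, 4, 10, 8, 5]]),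
([p 4 1, s 0 2, g, s 2 0, g, m 5 0, s 0 3, g, p 0 4, g, s 1 5, g, m 3 0, g], .lo 6, [.l [4, 10, 5, 5, 8, 8, 2, 5], .l [3, 7, 10], .l [2, 10, 7, 4, 8], .l [2, 8, 5, 5, 6, 6, 2, 3], .l [2, 10, 7, 7, 8, 8, 2, 3], .l [2, 10, 7, 7, 8, 8, 2, 3], .l [4, 10, 5, 2, 8], .l [4, 8, 3, 0, 6], .l [2, 10, 7, 7, 8, 8, 4, 1], .l [8, 1, 13, 11, 8], .l [2, 10, 7, 7, 8, 8, 4, 1], .l [2, 8, 5, 5, 8, 8, 2, 5], .l [10, 3, 9, 7, 11, 9, 6], .l [2, 8, 5, 5, 8, 8, 2, 5], .l [2, 8, 5, 5, 6, 6, 2, 5], .l [12, 5, 11, 9, 11, 7, 8], .l [2, 8, 5, 5, 6, 6, 2, 5], .y [6, 12], .l [2, 8, 5, 5, 6, 6, 2, 7], .l [12, 5, 11, 9, 11, 7, 8], .l [2, 8, 5, 5, 6, 6, 2, 7]]),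
([p 4 1, s 0 2, g, s 2 0, g, m 5 0, s 0 3, g, p 0 4, g, m 3 0, g, s 1 5, g], .lo 6, [.l [4, 10, 5, 5, 10, 10, 2, 5], .l [3, 7, 12], .l [2, 10, 7, 4, 10], .l [2, 8, 5, 5, 8, 8, 2, 3], .l [2, 10, 7, 7, 10, 10, 2, 3], .l [2, 10, 7, 7, 10, 10, 2, 3], .l [4, 10, 5, 2, 10], .l [4, 8, 3, 0, 8], .l [2, 10, 7, 7, 10, 10, 4, 1], .l [8, 1, 11, 9, 10], .l [2, 10, 7, 7, 10, 10, 4, 1], .l [2, 8, 5, 5, 10, 10, 2, 5], .l [10, 3, 9, 7, 9, 7, 8], .l [2, 8, 5, 5, 10, 10, 2, 5], .y [6, 10], .l [2, 8, 5, 5, 10, 10, 2, 7], .l [10, 3, 9, 7, 9, 7, 8], .l [2, 8, 5, 5, 10, 10, 2, 7], .l [2, 8, 5, 5, 8, 8, 2, 7], .l [10, 3, 9, 7, 11, 9, 6], .l [2, 8, 5, 5, 8, 8, 2, 7]]),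
([p 3 1, s 0 2, g, s 2 0, g, m 4 0, s 0 0, g, p 0 3, g, s 1 4, g], .hi 6, [.l [10, 9, 4, 7], .l [4, 10, 5, 5, 8, 8, 2, 5], .l [2, 10, 7, 4, 8], .l [3, 7, 10], .l [2, 10, 7, 7, 8, 8, 2, 3], .l [4, 10, 5, 2, 8], .l [2, 10, 7, 7, 8, 8, 2, 3], .y [6], .l [2, 10, 7, 7, 8, 8, 4, 1], .l [2, 10, 7, 7, 8, 8, 4, 1], .r 2771 [1, 2, 5, 3, 4] [1, 1, 1, 1, 1, 1], .l [2, 8, 5, 5, 6, 6, 2, 1], .l [2, 8, 5, 5, 8, 8, 2, 5], .l [2, 8, 5, 5, 8, 8, 2, 5], .r 2777 [1, 2, 5, 3, 4] [1, 1, 1, 1, 1, 1], .l [2, 8, 5, 5, 6, 6, 2, 5], .l [2, 8, 5, 5, 6, 6, 2, 5], .r 2776 [1, 2, 5, 3, 4] [1, 1, 1, 1, 1, 1]]),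
([p 3 1, s 2 0, g, m 4 0, s 0 0, g, p 0 2, g, p 0 3, g, s 1 4, g], .hi 1, [.r 2778 [1, 5, 3, 4] [1, 1, 3, 1, 1], .l [2, 10, 7, 7, 8], .l [3, 1, 7, 5, 8], .l [10, 9, 2, 7], .r 2775 [1, 5, 3, 4] [1, 1, 3, 1, 1], .l [3, 11, 11, 2, 4], .l [6, 4, 7, 2, 8], .y [1, 6], .r 2775 [1, 5, 3, 4] [1, 3, 1, 1, 1], .l [3, 11, 11, 2, 6], .l [6, 4, 7, 2, 8], .l [3, 9, 9, 2, 6], .r 2773 [1, 5, 2, 3, 4] [1, 1, 1, 1, 1, 1], .l [3, 11, 11, 2, 8], .l [6, 4, 9, 4, 8], .r 2774 [1, 5, 3, 4] [1, 3, 1, 1, 1], .l [3, 9, 9, 2, 8], .l [6, 4, 11, 6, 3]]),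
([p 3 1, s 0 0, g, m 4 0, s 0 2, g, m 2 0, g, p 0 3, g, s 1 4, g], .hi 1, [.y [1], .r 2771 [1, 5, 2, 3, 4] [1, 1, 1, 1, 1, 1], .l [2, 10, 7, 7, 8], .r 854 [5, 3] [1, 6, 3], .l [10, 9, 2, 7], .l [12, 11, 4, 6, 4, 7], .l [3, 11, 11, 2, 4], .r 854 [5, 3] [4, 3, 3], .r 2772 [1, 5, 2, 4] [1, 1, 1, 3, 1], .l [3, 11, 11, 2, 6], .r 854 [5, 3] [6, 1, 3], .l [3, 9, 9, 2, 6], .r 2772 [1, 5, 2, 4] [1, 1, 3, 1, 1], .l [3, 11, 11, 2, 8], .r 853 [5, 3] [6, 1, 3], .r 2139 [1, 5, 2, 4] [1, 1, 3, 1, 1], .l [3, 9, 9, 2, 8], .r 715 [1, 5, 3] [6, 1, 1, 1]]),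
([p 3 1, s 2 0, g, m 4 0, s 0 0, g, s 0 2, g, p 0 3, g, s 1 4, g], .hi 4, [.l [12, 6, 7, 1, 8, 3], .l [2, 10, 7, 2, 8], .l [3, 5, 10], .y [4], .l [5, 10, 4, 7, 8, 8, 2, 3], .l [3, 11, 11, 2, 9, 6, 1], .r 2780 [1, 5, 3, 4] [1, 1, 3, 1, 1], .l [5, 8, 2, 5, 6, 6, 2, 3], .l [7, 10, 2, 5, 8, 8, 2, 5], .l [3, 11, 11, 2, 9, 6, 3], .l [12, 11, 4, 6, 4, 7], .l [3, 9, 9, 2, 7, 4, 3], .l [12, 11, 4, 8, 6, 7], .l [3, 11, 11, 2, 7, 4, 7], .l [12, 11, 4, 8, 6, 7], .l [10, 6, 10, 4, 2, 5], .l [3, 9, 9, 2, 7, 4, 7], .l [10, 9, 4, 10, 8, 5]]),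
([p 3 1, s 0 0, g, m 4 0, s 0 2, g, p 0 3, g, m 2 0, g, s 1 4, g], .hi 1, [.y [1], .r 2777 [1, 5, 2, 3, 4] [1, 1, 1, 1, 1, 1], .l [2, 8, 5, 5, 8], .r 854 [5, 3] [1, 4, 5], .l [10, 9, 2, 7], .l [12, 11, 4, 8, 6, 7], .l [3, 11, 11, 2, 4], .r 854 [5, 3] [4, 1, 5], .l [3, 9, 9, 2, 4], .l [12, 11, 6, 8, 4, 7], .l [3, 11, 11, 2, 6], .r 853 [5, 3] [4, 1, 5], .r 2772 [1, 5, 2, 4] [1, 3, 1, 1, 1], .l [3, 11, 11, 2, 8], .r 853 [5, 3] [4, 3, 3], .r 2774 [1, 5, 3, 4] [1, 1, 3, 1, 1], .l [3, 9, 9, 2, 8], .r 715 [1, 5, 3] [4, 3, 1, 1]]),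
([p 3 1, s 0 0, g, m 4 0, s 0 2, g, p 0 3, g, s 1 4, g, m 2 0, g], .hi 1, [.y [1], .r 2778 [1, 5, 3, 4] [1, 1, 1, 1, 3], .l [2, 8, 5, 5, 6], .r 854 [5, 3] [1, 4, 5], .l [8, 7, 2, 5], .l [10, 9, 4, 10, 8, 5], .l [3, 9, 9, 2, 4], .r 854 [5, 3] [4, 1, 5], .l [3, 7, 7, 2, 4], .l [10, 9, 6, 10, 6, 3], .l [3, 9, 9, 2, 6], .r 853 [5, 3] [4, 1, 5], .l [8, 7, 8, 10, 4, 7], .l [3, 7, 7, 2, 6], .r 715 [1, 5, 3] [4, 1, 1, 3], .l [8, 7, 10, 3, 6, 3], .l [3, 7, 7, 2, 8], .r 715 [1, 5, 3] [4, 1, 3, 1]]),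
([p 3 1, s 2 0, g, s 0 2, g, m 4 0, s 0 0, g, p 0 3, g, s 1 4, g], .hi 6, [.l [4, 10, 5, 5, 8, 8, 2, 5], .l [2, 10, 7, 4, 8], .l [3, 7, 10], .l [2, 8, 5, 5, 6, 6, 2, 3], .l [2, 10, 7, 7, 8, 8, 2, 3], .l [4, 10, 5, 2, 8], .l [2, 10, 7, 7, 8, 8, 2, 3], .y [6], .l [2, 10, 7, 7, 8, 8, 4, 1], .l [2, 10, 7, 7, 8, 8, 4, 1], .r 2780 [1, 5, 3, 4] [3, 1, 1, 1, 1], .l [2, 8, 5, 5, 6, 6, 2, 1], .l [2, 8, 5, 5, 8, 8, 2, 5], .l [2, 8, 5, 5, 8, 8, 2, 5], .r 2782 [1, 5, 3, 4] [3, 1, 1, 1, 1], .l [2, 8, 5, 5, 6, 6, 2, 5], .l [2, 8, 5, 5, 6, 6, 2, 5], .r 2783 [1, 5, 3, 4] [3, 1, 1, 1, 1]]),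
([p 2 1, s 4 0, g, m 3 0, s 0 0, g, p 0 2, g, s 1 3, g, s 0 4, g], .hi 4, [.l [10, 9, 10, 1, 4, 5], .l [2, 8, 5, 2, 6], .l [3, 5, 8], .y [4], .l [5, 8, 2, 5, 6, 6, 2, 5], .l [3, 9, 9, 2, 7, 4, 1], .r 2780 [1, 5, 2, 3] [1, 1, 1, 1, 3], .l [3, 7, 7, 2, 5, 2, 1], .l [10, 9, 10, 1, 6, 3], .l [3, 9, 9, 2, 5, 2, 5], .r 2782 [1, 5, 2, 3] [1, 1, 1, 1, 3], .l [8, 7, 10, 3, 6, 3], .l [3, 7, 7, 2, 5, 2, 5], .l [8, 7, 10, 3, 6, 3], .l [8, 7, 8, 8, 2, 5], .l [8, 7, 8, 1, 4, 7], .l [3, 7, 7, 2, 5, 2, 7], .l [8, 7, 8, 10, 4, 7]]),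
([p 3 1, s 5 2, g, m 4 0, s 0 0, g, p 0 3, g, s 2 0, g, s 1 4, g, p 0 5, g], .hi 4, [.l [10, 8, 9, 2, 11, 9, 6, 6, 2, 3], .l [2, 8, 5, 2, 8], .l [3, 5, 10], .y [4], .l [5, 8, 2, 5, 8, 8, 2, 5], .l [3, 11, 11, 2, 7, 4, 1], .r 2780 [1, 6, 3, 4] [1, 1, 1, 3, 3], .l [3, 9, 9, 2, 5, 2, 1], .l [10, 8, 9, 4, 11, 7, 4, 4, 2, 5], .l [3, 11, 11, 2, 5, 2, 5], .l [10, 8, 9, 4, 11, 7, 4, 4, 2, 5], .l [8, 6, 7, 2, 11, 9, 6, 6, 2, 3], .l [3, 11, 11, 2, 5, 2, 7], .l [8, 6, 13, 6, 3, 3, 8, 5], .l [8, 6, 7, 2, 11, 9, 4, 4, 2, 3], .l [3, 9, 9, 2, 5, 2, 7], .l [8, 6, 13, 6, 1, 1, 8, 5], .l [3, 9, 9, 2, 5, 2, 7], .l [8, 6, 7, 2, 9, 7, 4, 4, 2, 5], .l [3, 9, 9, 2, 5, 2, 9], .l [8, 6, 11, 4, 1, 10, 2, 7]]),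
([p 2 1, s 4 0, g, m 3 0, s 0 0, g, p 0 2, g, s 1 3, g, p 0 4, g], .hi 1, [.r 2778 [1, 5, 2, 3] [1, 1, 1, 1, 3], .l [2, 8, 5, 5, 6], .l [3, 1, 11, 9, 6], .l [8, 7, 2, 5], .r 2775 [1, 5, 2, 3] [1, 1, 1, 1, 3], .l [3, 9, 9, 2, 4], .l [6, 4, 11, 6, 3], .l [3, 7, 7, 2, 4], .r 2786 [1, 5, 2, 3, 4] [1, 1, 1, 1, 1, 1], .l [3, 9, 9, 2, 6], .l [8, 6, 7, 2, 9, 7, 4], .r 2774 [1, 5, 2, 3] [1, 1, 1, 1, 3], .l [3, 7, 7, 2, 6], .l [10, 8, 9, 4, 9, 5, 6], .y [1, 10], .r 2774 [1, 5, 2, 3] [1, 1, 1, 3, 1], .l [3, 7, 7, 2, 8], .l [10, 8, 9, 4, 9, 5, 6]]),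
([p 3 1, s 4 2, g, m 5 0, s 0 0, g, p 0 3, g, s 2 0, g, p 0 4, g, s 1 5, g], .hi 4, [.l [10, 8, 9, 2, 9, 7, 8, 8, 2, 3], .l [2, 8, 5, 2, 10], .l [3, 5, 12], .y [4], .l [5, 8, 2, 5, 10, 10, 2, 5], .l [3, 13, 13, 2, 7, 4, 1], .r 2780 [1, 6, 3, 5] [1, 1, 1, 5, 1], .l [3, 11, 11, 2, 5, 2, 1], .l [10, 8, 9, 4, 9, 5, 8, 8, 2, 5], .l [3, 13, 13, 2, 5, 2, 5], .l [10, 8, 9, 4, 9, 5, 8, 8, 2, 5], .l [8, 6, 7, 2, 9, 7, 8, 8, 2, 3], .l [3, 13, 13, 2, 5, 2, 7], .l [8, 6, 11, 4, 10, 4, 8, 8, 2, 5], .l [3, 11, 11, 2, 5, 2, 7], .l [8, 6, 7, 2, 7, 5, 8, 8, 2, 5], .l [3, 13, 13, 2, 5, 2, 9], .l [14, 13, 6, 10, 6, 9], .l [8, 6, 7, 2, 7, 5, 6, 6, 2, 5], .l [3, 11, 11, 2, 5, 2, 9], .l [12, 11, 6, 12, 8, 5]]),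
([p 3 1, s 4 2, g, m 5 0, s 0 0, g, p 0 3, g, p 0 4, g, s 2 0, g, s 1 5, g], .hi 4, [.l [14, 8, 9, 1, 10, 7], .l [2, 8, 5, 2, 10], .l [3, 5, 12], .y [4], .l [5, 8, 2, 5, 10, 10, 2, 7], .l [3, 13, 13, 2, 7, 4, 1], .r 2780 [1, 6, 3, 5] [1, 1, 1, 5, 1], .l [3, 11, 11, 2, 5, 2, 1], .l [0, 13, 1, 10, 4, 9, 1, 8, 2, 3], .l [3, 13, 13, 2, 5, 2, 5], .l [10, 8, 9, 4, 9, 5, 8, 8, 2, 5], .l [3, 11, 11, 2, 5, 2, 5], .l [0, 13, 1, 10, 4, 9, 3, 8, 2, 5], .l [3, 13, 13, 2, 5, 2, 7], .l [0, 13, 1, 10, 4, 9, 3, 8, 2, 5], .l [0, 13, 3, 10, 4, 9, 3, 8, 2, 5], .l [3, 13, 13, 2, 5, 2, 9], .l [14, 13, 8, 10, 4, 9], .l [12, 8, 12, 4, 2, 5], .l [3, 11, 11, 2, 5, 2, 9], .l [12, 11, 8, 12, 6, 3]]),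
([p 2 1, s 3 0, g, m 4 0, s 0 0, g, p 0 2, g, p 0 3, g, s 1 4, g], .hi 1, [.r 2778 [1, 5, 2, 4] [1, 1, 1, 3, 1], .l [2, 8, 5, 5, 8], .l [3, 1, 9, 7, 8], .l [10, 9, 2, 7], .r 2775 [1, 5, 2, 4] [1, 1, 1, 3, 1], .l [3, 11, 11, 2, 4], .l [6, 4, 9, 4, 8], .l [3, 9, 9, 2, 4], .r 2788 [1, 5, 2, 3, 4] [1, 1, 1, 1, 1, 1], .l [3, 11, 11, 2, 6], .l [8, 6, 7, 2, 7, 5, 6], .y [1, 8], .r 2789 [1, 5, 2, 3, 4] [1, 1, 1, 1, 1, 1], .l [3, 11, 11, 2, 8], .l [8, 6, 7, 2, 7, 5, 6], .r 2774 [1, 5, 2, 4] [1, 1, 3, 1, 1], .l [3, 9, 9, 2, 8], .l [8, 6, 7, 2, 9, 7, 4]]),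
([p 2 1, s 5 0, g, m 6 0, g, p 0 2, m 0 3, g, s 4 0, g, m 3 4, g, s 0 5, g, s 1 6, g], .hi 1, [.l [5, 15, 5, 1, 9, 5, 11, 6, 3, 1, 6, 1], .l [2, 7, 4, 4, 13], .r 854 [7, 2] [1, 3, 10], .l [3, 15, 5, 1, 11, 7, 11, 4, 5, 3, 6, 3], .l [3, 15, 15, 2, 3], .r 854 [7, 2] [3, 1, 10], .l [3, 13, 13, 2, 3], .l [6, 4, 11, 6, 0, 6, 1], .l [1, 7, 11, 9, 3], .l [0, 5, 4, 6, 10, 8, 11], .l [8, 6, 13, 6, 0, 8, 3], .l [1, 9, 11, 7, 3], .l [0, 5, 4, 8, 10, 6, 11], .l [10, 8, 13, 4, 0, 8, 5], .l [3, 15, 7, 1, 11, 7, 11, 4, 8, 6, 4, 1], .l [3, 15, 15, 2, 10], .l [3, 15, 7, 1, 11, 7, 11, 4, 8, 6, 4, 1], .y [1, 12], .l [3, 15, 7, 1, 11, 7, 11, 4, 8, 6, 4, 1], .l [3, 15, 15, 2, 12], .l [3, 15, 7, 1, 11, 7, 11, 4, 8, 6, 4, 1], .l [1, 15, 7,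 1, 3, 11, 6, 8, 6, 3], .l [3, 13, 13, 2, 12], .r 715 [1, 7, 2] [3, 8, 1, 1]]),
([p 3 1, s 5 0, g, m 6 0, s 0 2, g, p 0 3, m 0 4, g, m 4 0, g, s 2 0, g, s 0 5, g, s 1 6, g], .hi 9, [.l [3, 10, 10, 8, 4], .l [0, 16, 13, 7, 7, 5, 11], .l [3, 10], .l [3, 14, 14, 2, 5, 2, 6], .l [6, 10, 10, 8, 1], .l [0, 16, 10, 4, 4, 2, 11], .l [6, 10], .l [0, 14, 8, 2, 2, 0, 9], .y [7, 9], .r 2791 [1, 3, 4, 7, 5, 6] [1, 2, 1, 1, 3, 1, 1], .l [3, 16, 7, 1, 14, 2, 7, 1, 10, 8, 2, 5], .l [9, 10], .l [3, 16, 7, 1, 14, 2, 7, 11, 9, 2], .l [3, 16, 7, 1, 14, 2, 7, 11, 9, 2], .l [9, 15, 6, 15, 1, 11, 13, 7, 10, 3, 6, 1], .l [3, 16, 7, 3, 14, 2, 7, 9, 7, 2], .l [3, 16, 7, 3, 14, 2, 7, 9, 7, 2], .l [3, 16, 16, 2, 5, 2, 8, 10, 8, 8, 6, 7], .l [0, 6,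 5, 11, 11, 7, 7, 5, 8, 8, 2, 5], .l [3, 16, 16, 2, 11, 13, 9, 9, 7, 2], .l [3, 16, 16, 2, 11, 3, 11, 6, 2, 7], .l [0, 6, 5, 11, 13, 9, 9, 7, 10, 10, 2, 7], .l [0, 14, 16, 10, 10, 8, 5], .l [0, 14, 5, 14, 7, 5, 8, 1, 10, 8, 2, 5], .l [0, 14, 16, 10, 10, 8, 5]]),
([p 3 1, s 4 0, g, m 5 0, s 0 2, g, p 0 3, m 0 0, g, s 2 0, g, s 0 4, g, s 1 5, g], .hi 7, [.l [3, 8, 4], .l [0, 14, 11, 5, 11], .l [3, 8], .l [3, 12, 12, 2, 5, 2, 4], .l [6, 8, 1], .l [0, 14, 8, 2, 11], .l [6, 8], .l [0, 12, 6, 0, 9], .y [7], .l [15, 14, 14, 8, 1], .l [11, 6, 10, 8, 1], .r 2792 [1, 2, 3, 6, 4, 5] [1, 1, 1, 1, 1, 1, 1], .l [15, 14, 14, 8, 3], .l [9, 4, 8, 6, 7], .l [3, 14, 14, 2, 5, 2, 6, 8, 6, 7], .l [0, 6, 5, 9, 9, 5, 8, 8, 2, 5], .l [15, 14,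 14, 8, 5], .l [3, 14, 14, 2, 9, 3, 10, 6, 2, 5], .l [0, 6, 5, 9, 11, 7, 10, 10, 2, 7], .l [13, 12, 12, 6, 12], .l [3, 12, 12, 2, 9, 3, 10, 6, 2, 5], .l [0, 12, 14, 8, 5]]),
([p 2 1, s 3 0, g, m 4 0, s 0 0, g, p 0 2, m 0 0, g, s 0 3, g, s 1 4, g], .hi 4, [.l [13, 7, 8, 1, 9, 6], .l [2, 8, 5, 2, 10], .l [3, 5, 11], .y [4], .l [5, 8, 2, 5, 10, 10, 2, 7], .l [3, 12, 12, 2, 7, 4, 1], .r 2780 [1, 5, 2, 4] [1, 1, 1, 4, 1], .l [3, 10, 10, 2, 5, 2, 1], .r 2782 [1, 5, 2, 4] [1, 1, 0, 3, 1], .r 2793 [1, 5, 2, 3, 4] [1, 1, 1, 1, 1, 1], .l [3, 12, 12, 2, 5, 2, 6], .r 2782 [1, 5, 2, 4] [1, 1, 2, 3, 1], .l [11, 10, 7, 7, 2, 6], .l [13, 12, 7, 9, 4, 8], .l [3, 12, 12, 2, 5, 2, 8], .l [13, 12, 7, 9, 4, 8], .l [11, 7, 11, 4, 2, 3], .l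 [3, 10, 10, 2, 5, 2, 8], .l [11, 10, 7, 11, 6, 3]]),
([p 2 1, s 3 0, g, m 4 0, s 0 0, g, p 0 2, g, s 0 3, g, s 1 4, g], .top 7, [.l [1, 6, 4], .r 1255 [1, 2] [4, 3, 1], .r 2528 [2] [5, 5], .r 2794 [1, 2, 3, 4] [1, 1, 1, 1, 1]]),
([p 4 1, s 3 2, g, p 0 3, g, m 5 0, s 0 0, g, p 0 4, g, s 2 0, g, s 1 5, g], .hi 6, [.l [14, 6, 9, 3, 10, 5], .l [2, 10, 7, 4, 10], .l [3, 7, 12], .l [2, 8, 5, 2, 8], .l [14, 6, 7, 1, 10, 7], .l [4, 10, 5, 2, 10], .l [5, 7, 12], .y [6], .l [7, 10, 2, 7, 10, 10, 4, 7], .l [5, 13, 13, 4, 9, 4, 1], .r 2780 [1, 6, 4, 5] [3, 1, 1, 3, 1], .l [5, 11, 11, 4, 7, 2, 1], .l [3, 1, 7, 4, 11, 9, 4, 6, 4, 5], .l [5, 13, 13, 4, 7, 2, 7], .r 2782 [1, 6, 4, 5] [3, 1, 1, 3, 1], .l [14, 13, 8, 10, 6, 9], .l [5,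 13, 13, 4, 7, 2, 9], .l [14, 13, 8, 10, 6, 9], .l [12, 6, 12, 6, 4, 5], .l [5, 11, 11, 4, 7, 2, 9], .l [1, 9, 13, 9, 6, 10, 7, 1, 6, 3]]),
([p 3 1, s 2 0, g, p 0 2, g, m 4 0, s 0 0, g, p 0 3, g, s 1 4, g], .hi 1, [.r 2778 [1, 5, 3, 4] [1, 3, 1, 1, 1], .l [2, 10, 7, 7, 8], .l [3, 1, 4, 2, 8], .y [1, 3], .r 1862 [5, 2, 3] [1, 1, 4, 3], .l [4, 10, 5, 5, 8], .l [3, 1, 4, 2, 8], .l [10, 9, 4, 7], .r 1862 [5, 2, 3] [1, 4, 1, 3], .l [5, 11, 11, 4, 6], .l [3, 1, 7, 5, 8], .l [5, 9, 9, 4, 6], .r 2796 [1, 5, 2, 3, 4] [1, 1, 1, 1, 1, 1], .l [5, 11, 11, 4, 8], .l [3, 1, 9, 7, 8], .r 2774 [1, 5, 3, 4] [3, 1, 1, 1, 1], .l [5, 9, 9, 4, 8], .l [3, 1, 11, 9, 6]]),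
([p 2 1, s 0 0, g, m 3 0, s 0 0, g, p 0 2, g, s 1 3, g], .lo 1, [.y [1], .r 2784 [1, 4, 2, 3] [1, 1, 1, 1, 1], .r 2797 [1, 4, 2, 3] [1, 1, 1, 1, 1], .l [2, 8, 5, 5, 6], .l [2, 6, 3, 3, 4], .l [8, 7, 2, 5], .r 2781 [1, 4, 2, 3] [1, 1, 1, 1, 1], .r 2779 [1, 4, 2, 3] [1, 1, 1, 1, 1], .l [3, 9, 9, 2, 4], .r 2795 [1, 2, 4, 3] [1, 1, 1, 1, 1], .r 2790 [1, 2, 4, 3] [1, 1, 1, 1, 1], .l [3, 9, 9, 2, 6], .r 2785 [1, 2, 3, 4] [1, 1, 1, 1, 1], .r 2787 [1, 2, 3, 4] [1, 1, 1, 1, 1], .l [3, 7, 7, 2, 6]]),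
([p 4 1, s 0 0, g, p 2 0, g, p 3 2, g, m 6 0, p 5 3, g, p 0 4, g, p 0 5, g, s 1 6, g], .hi 1, [.y [1], .l [2, 12, 9, 9, 12, 12, 2, 4, 3, 9, 5, 5, 3], .l [2, 12, 9, 9, 12], .l [1, 12, 10, 15, 4, 12, 8, 2, 7], .l [4, 7, 5, 10, 7, 7, 10, 10, 2, 4, 3, 7, 3], .l [4, 7, 5, 10, 7, 7, 10], .l [5, 3, 11, 6, 9, 7, 7, 4, 7, 2, 6], .l [10, 14, 13, 14, 14, 8, 5, 11, 9, 9, 7, 5, 1], .l [6, 10, 8, 8, 6, 8, 5, 5, 8], .l [7, 5, 11, 4, 7, 4, 9, 4, 8], .l [7, 15, 15, 6, 8, 12, 10, 10, 7, 7, 5, 7, 3], .l [0, 12, 11, 8, 12, 10, 11], .l [10, 8, 11, 1, 11, 6, 10], .l [0, 10, 9, 8, 10, 8, 9], .l [7, 15, 15, 6, 10, 12, 8, 8, 5, 5, 3, 7, 1], .l [0, 10, 9, 10, 12, 8, 11], .l [12, 10, 11, 2, 11, 6, 10], .l [0, 10, 9, 10, 10, 6, 9], .l [3, 14, 11,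 14, 1, 10, 10, 7, 1, 8, 8, 6, 3], .l [7, 15, 15, 6, 12], .l [3, 14, 11, 14, 1, 10, 10, 7, 1, 8, 8, 6, 3], .l [14, 13, 14, 1, 6, 2, 5, 7, 3, 5, 1, 5, 3], .l [7, 13, 13, 6, 12], .l [14, 13, 13, 3, 14, 1, 10, 2, 9]]),
([p 4 1, s 0 0, g, p 3 2, g, s 2 0, g, m 6 0, p 5 3, g, p 0 4, g, p 0 5, g, s 1 6, g], .hi 1, [.y [1], .l [2, 12, 9, 9, 12, 7, 1, 8, 6, 8, 2, 3], .l [2, 12, 9, 9, 12], .l [1, 12, 10, 15, 4, 12, 8, 2, 7], .l [16, 15, 3, 14, 3, 12, 3, 8, 2, 7], .l [4, 10, 8, 10, 7, 7, 10], .l [5, 3, 11, 6, 9, 4, 9, 4, 8], .l [5, 1, 9, 7, 9, 6, 11, 4, 8, 4, 2, 3], .l [6, 10, 6, 10, 7, 7, 10], .l [7, 5, 11, 4, 9, 6, 9, 2, 8], .l [16, 15, 8, 12, 10, 11], .l [0, 12, 11, 8, 12, 10, 11], .l [10, 8, 11, 1, 11, 6, 10], .l [0, 10, 9,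 8, 10, 8, 9], .l [16, 15, 10, 12, 8, 11], .l [0, 10, 9, 10, 12, 8, 11], .l [12, 10, 11, 2, 11, 6, 10], .l [0, 10, 9, 10, 10, 6, 9], .l [5, 1, 13, 9, 12, 1, 7, 1, 8, 8, 6, 3], .l [7, 15, 15, 6, 12], .l [3, 14, 11, 14, 1, 7, 1, 10, 10, 6, 3], .l [5, 1, 7, 5, 7, 4, 9, 4, 8, 4, 2, 3], .l [7, 13, 13, 6, 12], .l [14, 13, 13, 3, 14, 1, 10, 2, 9]]),
([p 3 1, s 0 0, g, p 2 0, g, m 5 0, p 4 2, g, p 0 3, g, p 0 4, g, s 1 5, g], .hi 3, [.l [3, 1, 7, 4, 5, 2, 5, 2, 4], .l [5, 1, 9, 4, 7, 4, 7, 2, 6], .r 2799 [1, 6, 2, 3, 4, 5] [1, 1, 1, 1, 1, 1, 1], .l [5, 1], .r 2800 [1, 6, 2, 3, 4, 5] [1, 1, 1, 1, 1, 1, 1], .l [3, 4], .l [5, 1], .l [3, 7, 11, 9, 10], .l [3, 7], .l [8, 4], .l [3, 7], .l [3, 9, 11, 7, 10], .l [3, 9], .l [10, 6], .y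 [3, 10, 6], .l [0, 13, 1, 8, 8, 5, 1, 7, 7, 4, 1], .l [3, 11], .l [12, 8], .l [5, 11, 11, 4, 11, 8, 8, 5, 1, 4, 1], .l [3, 13], .l [14, 10]]),
([p 2 1, s 0 0, g, m 4 0, p 3 0, g, p 0 2, g, p 0 3, g, s 1 4, g], .hi 4, [.l [4, 2, 5, 1, 5, 2, 4], .l [6, 2, 7, 1, 7, 2, 6], .r 2801 [1, 5, 2, 3, 4] [1, 1, 1, 1, 1, 1], .l [6, 2], .l [6, 1, 9, 7, 8], .l [4, 5], .l [6, 1], .l [4, 5], .l [8, 3, 7, 5, 7, 5, 6], .l [4, 7], .l [8, 3], .y [4, 8], .l [0, 11, 1, 5, 1, 7, 7, 4, 1], .l [4, 9], .l [10, 5], .l [3, 9, 9, 2, 9, 5, 1, 4, 1], .l [4, 11], .l [12, 7]]),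
([p 2 1, g, m 4 0, p 3 0, g, p 0 2, g, p 0 3, g, s 1 4, g], .top 1, [.r 444 [] [8], .r 2802 [1, 2, 3, 4] [1, 1, 1, 1, 1], .r 334 [] [10], .r 444 [] [10]]),
([p 3 1, s 0 0, g, p 2 0, g, m 4 0, p 5 2, g, p 0 3, g, s 1 4, g, p 6 5, g, p 0 6, g], .hi 1, [.y [1], .l [0, 11, 13, 9, 9, 6, 8, 3, 8, 4, 1, 7, 1], .l [0, 11, 13, 9, 9, 6, 8, 3, 8, 4, 1], .r 854 [7, 3] [1, 6, 7], .l [0, 11, 13, 9, 9, 4, 8, 5, 8, 2, 3, 7, 1], .l [4, 8, 6, 8, 5, 5, 6], .l [0, 11, 13, 9, 9, 4, 8, 5, 8, 2, 3], .l [0, 11, 13, 7, 7, 4, 6, 3, 8, 4, 1, 7, 1], .l [0, 11, 13, 7, 7, 4, 6, 3, 8, 4, 1], .l [8, 6, 9, 1, 11, 6, 3], .l [0, 9, 11, 7, 7, 4, 6, 3, 6, 2, 1], .l [0, 8, 7, 8, 12, 8, 5, 9, 3, 5, 3, 7, 3], .l [0, 11, 13, 7, 7, 4, 6, 3, 6, 2, 5], .l [10,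 8, 9, 2, 11, 6, 3], .l [0, 8, 7, 10, 12, 6, 9, 11, 7, 9, 3, 5, 3], .l [0, 8, 7, 10, 12, 6, 9], .l [0, 9, 13, 9, 9, 6, 8, 5, 8, 2, 5], .l [5, 9, 9, 4, 10, 12, 10, 10, 6, 6, 3, 7, 1], .l [0, 9, 11, 7, 7, 4, 6, 3, 6, 2, 5], .l [0, 9, 13, 4, 8, 7, 10, 2, 7], .l [0, 9, 11, 7, 7, 4, 6, 3, 6, 2, 5], .l [10, 9, 14, 5, 8, 5], .l [0, 9, 11, 7, 7, 4, 6, 3, 6, 2, 7], .l [0, 9, 15, 6, 10, 9, 12, 2, 9]]),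
([p 3 1, s 0 0, g, p 2 0, g, m 4 0, p 5 2, g, p 0 3, g, s 1 4, g, p 0 5, g], .lo 12, [.l [0, 8, 7, 10, 10, 4, 7], .l [2, 10, 7, 11, 11, 4, 8], .l [3, 13], .l [2, 10, 7, 11], .y [3, 12, 6], .l [4, 8, 6, 8, 5, 9, 9, 2, 6], .l [5, 13], .l [0, 11, 6, 11, 1, 5, 1, 5, 8, 2, 5], .l [0, 9, 4, 9, 1, 5, 1, 5, 6, 0, 3], .l [7, 10, 2, 11, 11, 7, 8], .l [8, 13], .l [0, 11, 3, 11, 1, 8, 10, 8, 5], .l [9, 14, 10, 7, 7, 4, 9, 4, 1], .l [10, 13], .l [9, 14, 10, 7, 7, 4, 9, 4, 1], .l [11, 14, 8, 11, 11, 4, 9, 4, 1], .l [12, 13], .l [11, 14, 8, 11, 11, 4, 9, 4, 1], .l [11, 12, 6, 9, 9, 4, 7, 2, 7], .r 2804 [1, 2, 3, 4, 5, 6] [1, 1, 1, 1, 1, 1, 1], .l [11, 12, 6, 9, 9, 4, 7, 2, 7]]),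
([p 2 1, s 0 0, g, m 3 0, p 4 0, g, p 0 2, g, s 1 3, g, p 0 4, g], .hi 4, [.l [4, 2, 5, 1, 7, 4, 1], .l [6, 2, 7, 1, 9, 4, 1], .r 2805 [1, 5, 2, 3, 4] [1, 1, 1, 1, 1, 1], .l [6, 2], .l [6, 1, 11, 9, 6], .l [4, 5], .l [6, 1], .l [4, 5], .l [8, 3, 7, 5, 9, 7, 4], .l [4, 7], .l [8, 3], .l [10, 5, 9, 7, 9, 5, 6], .l [4, 9], .l [10, 5], .y [4, 10], .l [3, 7, 7, 2, 9, 5, 1, 4, 1], .l [4, 11], .l [12, 7]]),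
([p 2 1, g, m 3 0, p 4 0, g, p 0 2, g, s 1 3, g, p 0 4, g], .top 1, [.r 444 [] [8], .r 2806 [1, 2, 3, 4] [1, 1, 1, 1, 1], .r 334 [] [10], .r 444 [] [10]]),
([p 4 1, s 0 0, g, p 2 0, g, m 5 0, p 3 2, g, p 6 3, g, p 0 4, g, s 1 5, g, p 0 6, g], .hi 1, [.y [1], .l [0, 13, 15, 11, 11, 9, 9, 6, 8, 3, 8, 4, 1], .l [0, 13, 15, 11, 11, 9, 9, 6, 8, 3, 8, 4, 1], .r 854 [7, 4] [1, 8, 5], .l [0, 13, 15, 11, 11, 9, 9, 4, 8, 5, 8, 2, 3], .l [4, 8, 6, 10, 7, 7, 8], .l [0, 13, 15, 11, 11, 9, 9, 4, 8, 5, 8, 2, 3], .l [0, 13, 15, 11, 11, 7, 7, 4, 6, 3, 8, 4, 1], .l [0, 13, 15, 11, 11, 7, 7, 4, 6, 3, 8, 4, 1], .l [14, 8, 10, 9, 12, 6, 3, 6, 10, 3, 5, 6, 1], .l [0, 13, 15, 9, 9, 7, 7, 4, 6, 3, 8, 4, 1], .l [0, 13, 15, 9, 9, 7, 7, 4, 6, 3,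 8, 4, 1], .l [6, 12, 5, 1, 9, 10, 10, 4, 5], .l [0, 11, 13, 9, 9, 7, 7, 4, 6, 3, 6, 2, 1], .l [0, 13, 15, 9, 9, 7, 7, 4, 6, 3, 6, 2, 5], .l [0, 13, 15, 9, 9, 7, 7, 4, 6, 3, 6, 2, 5], .l [12, 10, 11, 2, 13, 8, 8, 6, 3], .l [0, 11, 15, 11, 11, 9, 9, 6, 8, 5, 8, 2, 5], .l [0, 10, 9, 12, 14, 8, 8, 6, 9], .l [0, 11, 15, 11, 11, 9, 9, 6, 8, 5, 8, 2, 5], .l [0, 10, 9, 12, 12, 6, 6, 4, 7], .l [0, 11, 13, 9, 9, 7, 7, 4, 6, 3, 6, 2, 5], .l [0, 11, 13, 9, 9, 7, 7, 4, 6, 3, 6, 2, 5], .l [0, 11, 13, 9, 13, 6, 10, 9, 1, 8, 5]]),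
([p 3 1, s 0 0, g, m 4 0, p 2 0, g, p 5 2, g, p 0 3, g, s 1 4, g, p 0 5, g], .hi 4, [.l [10, 6, 9, 4, 10, 3, 3, 1, 6, 2, 3], .l [6, 2, 9, 3, 9, 5, 9, 1, 1, 4, 1], .r 2808 [1, 6, 2, 3, 4, 5] [1, 1, 1, 1, 1, 1, 1], .l [6, 2], .l [6, 1, 7, 5, 8], .l [4, 5], .l [6, 1], .l [3, 11, 3, 5, 9, 2, 5, 2, 5], .l [4, 7], .l [8, 3], .l [4, 7], .l [10, 5, 9, 5, 11, 3, 3, 7, 4], .l [4, 9], .l [10, 5], .l [12, 7, 11, 7, 11, 1, 1, 5, 6], .l [4, 11], .l [12, 7], .y [4, 12, 6], .l [5, 6, 4, 7, 7, 2, 9, 5, 1, 4, 1], .l [4, 13], .l [14, 9]]),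
([p 5 1, s 0 0, g, m 6 2, p 3 0, g, p 4 3, g, m 2 0, g, p 0 4, g, p 0 5, g, s 1 6, g], .hi 1, [.y [1], .l [6, 8, 7, 14, 14, 4, 1, 11, 7, 7, 3, 5, 3], .l [2, 14, 11, 11, 12], .r 854 [7, 5] [1, 10, 3], .l [3, 15, 15, 2, 4, 6, 4, 6, 5, 9, 3, 5, 3], .l [0, 14, 13, 4, 6, 4, 11], .l [6, 14, 7, 1, 9, 12, 7, 3, 10, 2, 3], .l [3, 15, 15, 2, 6, 10, 8, 8, 6, 4, 3, 7, 3], .l [0, 14, 13, 6, 10, 8, 8, 6, 9], .l [4, 14, 9, 1, 11, 12, 7, 5, 10, 2, 7], .l [3, 15, 15, 2, 8, 10, 6, 6, 4, 6, 5, 7, 1], .l [0, 14, 13, 8, 10, 6, 6, 4, 9], .l [4, 14, 9, 1, 11, 12, 7, 5, 10, 2, 5], .l [0, 12, 11, 8, 8, 4, 4, 2, 7], .l [4, 14, 9, 1, 11, 12, 5, 3, 10, 2, 3, 1, 5], .l [3, 15, 15, 2, 10], .l [4, 14, 9, 1, 11, 12, 5, 3, 10, 2, 3], .l [3, 13, 13, 2,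 10], .l [4, 12, 7, 1, 9, 12, 7, 3, 10, 2, 3, 1, 5], .l [3, 15, 15, 2, 12], .l [4, 12, 7, 1, 9, 12, 7, 3, 10, 2, 3], .l [4, 12, 7, 1, 9, 10, 5, 3, 8, 2, 7, 5, 3], .l [3, 13, 13, 2, 12], .l [4, 12, 7, 3, 8, 13, 11, 8, 6, 1, 6, 2, 3]]),
([p 5 1, s 0 0, g, m 6 2, p 3 0, g, m 2 0, g, p 4 3, g, p 0 4, g, p 0 5, g, s 1 6, g], .hi 1, [.y [1], .l [2, 14, 11, 11, 12, 12, 8, 8, 5, 7, 5, 5, 3], .l [2, 14, 11, 11, 12], .r 854 [7, 5] [1, 10, 3], .l [4, 14, 9, 5, 11, 12, 7, 5, 10, 2, 5, 7, 3], .l [0, 14, 13, 4, 8, 6, 11], .l [6, 14, 7, 3, 9, 12, 7, 3, 10, 2, 3], .l [3, 15, 15, 2, 6, 8, 4, 6, 5, 9, 3, 5, 3], .l [0, 14, 13, 6, 8, 4, 11], .l [8, 14, 5, 1, 7, 12, 7, 1, 10, 2, 3], .l [3, 15, 15, 2, 8, 10, 8, 8, 4, 6, 5, 7, 1], .l [0, 14,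 13, 8, 10, 8, 8, 4, 9], .l [4, 14, 9, 3, 11, 12, 7, 5, 10, 2, 5], .l [0, 12, 11, 8, 8, 6, 6, 2, 7], .l [4, 14, 9, 3, 11, 12, 5, 3, 10, 2, 3, 7, 5], .l [3, 15, 15, 2, 10], .l [4, 14, 9, 3, 11, 12, 5, 3, 10, 2, 3], .l [3, 13, 13, 2, 10], .l [4, 12, 7, 3, 9, 12, 7, 3, 10, 2, 3, 7, 5], .l [3, 15, 15, 2, 12], .l [4, 12, 7, 3, 9, 12, 7, 3, 10, 2, 3], .l [6, 12, 5, 1, 7, 10, 5, 1, 8, 2, 7, 5, 1], .l [3, 13, 13, 2, 12], .l [7, 16, 9, 1, 11, 3, 3, 7, 1, 6, 3]]),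
([p 5 1, s 0 0, g, m 6 0, p 2 0, g, p 3 2, g, p 4 3, g, p 0 4, g, p 0 5, g, s 1 6, g], .hi 1, [.y [1], .l [8, 10, 9, 13, 5, 1, 9, 10, 3, 1, 8, 4, 1], .l [2, 14, 11, 11, 12], .r 854 [7, 5] [1, 10, 3], .l [6, 14, 7, 1, 9, 12, 5, 1, 10, 2, 5, 7, 5], .l [0, 14, 13, 4, 6, 4, 11], .l [6, 14, 7, 1, 9, 12, 5, 1, 10, 2, 5], .l [6, 10, 9, 13, 7, 3, 9, 10, 5, 3, 8, 2, 5], .l [0, 14, 13, 6, 8, 6, 6, 4, 9], .l [4, 14, 9, 1, 11, 12, 5, 3, 10, 2, 7], .l [4, 14, 9, 1, 11, 12, 3, 1, 10, 2, 5, 7, 5], .l [0, 14, 13, 8, 10, 8, 8, 6, 6, 4, 7], .l [4, 14, 9, 1, 11, 12, 3, 1, 10, 2, 5], .l [0, 12, 11, 8, 8, 6, 6, 4, 4, 2, 5], .l [6, 8, 7, 13, 7, 1, 9, 10, 3, 1, 8, 2, 3], .l [3, 15, 15, 2, 10], .l [4, 14, 9, 1, 11, 12, 3, 1, 10, 2, 3], .l [3,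 13, 13, 2, 10], .l [4, 12, 7, 1, 9, 12, 5, 1, 10, 2, 5, 7, 5], .l [3, 15, 15, 2, 12], .l [4, 12, 7, 1, 9, 12, 5, 1, 10, 2, 5], .l [6, 8, 7, 11, 5, 1, 7, 8, 3, 1, 6, 2, 5], .l [3, 13, 13, 2, 12], .l [5, 16, 11, 1, 13, 3, 3, 9, 1, 8, 3]]),
([p 5 1, s 0 0, g, s 2 0, g, m 6 2, p 3 0, g, p 4 3, g, p 0 4, g, p 0 5, g, s 1 6, g], .lo 10, [.l [0, 12, 11, 8, 8, 6, 6, 4, 7], .l [2, 14, 11, 8, 8, 6, 6, 4, 8], .l [3, 11], .l [2, 14, 11, 8], .l [2, 12, 9, 6, 4, 4, 4, 2, 2, 0, 4], .l [4, 14, 9, 6, 6, 4, 4, 2, 8], .l [5, 11], .l [2, 14, 11, 3, 1, 6, 6, 4, 4, 2, 6], .y [6, 10, 8], .l [7, 10, 8, 13, 13, 4, 11, 6, 3], .l [8, 11], .l [0, 15, 7, 3, 5, 11, 11, 6, 1], .l [9, 12, 10, 10, 8, 11, 11, 4, 9, 4, 1], .l [10, 11], .l [9, 12, 10, 10,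 8, 11, 11, 4, 9, 4, 1], .l [9, 10, 8, 8, 6, 11, 11, 4, 9, 4, 1], .r 2812 [1, 3, 4, 7, 5, 6] [3, 1, 1, 1, 1, 1, 1], .l [7, 8, 6, 13, 5, 1, 3, 4, 1], .l [9, 10, 8, 8, 6, 11, 11, 4, 7, 2, 7], .l [4, 12, 7, 9, 11, 6, 6, 4, 4, 2, 6], .l [9, 10, 8, 8, 6, 11, 11, 4, 7, 2, 7], .l [9, 10, 8, 8, 6, 9, 9, 4, 7, 2, 7], .l [4, 12, 7, 9, 13, 8, 8, 6, 6, 4, 1], .l [9, 10, 8, 8, 6, 9, 9, 4, 7, 2, 7]]),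
([p 4 1, s 0 0, g, m 5 0, p 2 0, g, p 3 2, g, p 0 3, g, p 0 4, g, s 1 5, g], .hi 3, [.l [2, 10, 7, 7, 8], .r 2813 [1, 6, 2, 3, 4, 5] [1, 1, 1, 1, 1, 1, 1], .l [2, 12, 9, 1], .l [3, 4], .l [2, 12, 9, 2, 4, 2, 8], .l [2, 12, 9, 2], .r 2811 [1, 6, 2, 3, 4, 5] [1, 1, 1, 1, 1, 1, 1], .l [2, 12, 9, 4, 6, 4, 4, 2, 6], .l [2, 12, 9, 4], .r 2810 [1, 6, 2, 3, 4, 5] [1, 1, 1, 1, 1, 1, 1], .l [2, 10, 7, 4], .l [5, 10, 7, 3, 6, 9, 9, 4, 7, 2, 3], .l [2, 12, 9, 6], .l [5, 10, 7, 3, 6, 9, 9, 4, 7, 2, 3], .y [0, 12, 3, 10], .l [5, 12, 9, 3, 8, 9, 9, 6, 2, 6, 1], .l [2, 10, 7, 9], .l [5, 12, 9, 3, 8, 9, 9, 6, 2, 6, 1], .l [5, 14, 11, 3, 10, 1, 1, 6, 2, 6, 1], .l [2, 10, 7, 11], .l [5, 14, 11, 3, 10, 1, 1, 6, 2, 6, 1]]),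
([p 3 1, s 0 0, g, m 6 0, p 2 0, g, p 4 2, g, p 0 3, g, p 5 4, g, p 0 5, g, s 1 6, g], .hi 1, [.y [1], .l [12, 14, 13, 13, 9, 9, 7, 10, 10, 4, 1, 7, 3], .l [2, 10, 7, 7, 12], .r 854 [7, 3] [1, 6, 7], .l [10, 12, 9, 11, 3, 1, 5, 10, 10, 2, 5, 7, 5], .l [0, 10, 9, 4, 6, 4, 11], .l [4, 10, 5, 15, 6, 10, 4, 2, 9], .l [8, 6, 9, 1, 9, 4, 4, 2, 8, 8, 4, 6, 3], .l [0, 10, 9, 6, 10, 8, 8, 6, 9], .l [4, 10, 5, 1, 7, 12, 12, 2, 3], .l [0, 8, 7, 6, 8, 6, 6, 4, 7], .l [9, 12, 8, 8, 6, 11, 11, 2, 7, 4, 5, 7, 3], .l [0, 8, 7, 8, 10, 6, 6, 4, 9], .l [10, 8, 9, 2, 9, 4, 4, 2, 8], .l [4, 8, 3, 1, 5, 12, 12, 2, 7, 9, 7, 7, 5], .l [0, 8, 7, 10, 12, 10, 10, 6, 6, 4, 7], .l [12, 10, 11, 4, 6, 4, 9, 4, 4, 2, 6], .l [0, 8, 7, 10, 10, 8, 8, 4,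 4, 2, 5], .l [10, 12, 11, 11, 7, 9, 3, 1, 5, 8, 8, 2, 5], .l [3, 15, 15, 2, 12], .l [0, 15, 7, 0, 13, 6, 1, 8, 8, 6, 8, 4, 1], .l [10, 12, 11, 11, 7, 9, 3, 1, 5, 6, 6, 2, 5], .l [3, 13, 13, 2, 12], .l [9, 16, 7, 1, 11, 11, 9, 3, 3, 5, 8, 2, 5]])]

def D10 : List (List (List Item × Qry × List Rf)) := [d10_0, d10_1, d10_2, d10_3]

end Pool.Agent.H63.PU.C161
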