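import Pool.Agent.H63.PU.Ck3

/-! Certificate data, machine generated. -/

namespace Pool.Agent.H63.PU.C161

open Pool.Agent.H63.PU Pool.Agent.H63.PU.Ck3 Pool.Agent.H63.PU.Short

set_option maxRecDepth 20000

def d11_0 : List (List Item × Qry × List Rf) := [
([p 3 1, s 0 0, g, m 5 0, p 2 0, g, p 4 2, g, p 0 3, g, p 6 4, g, s 1 5, g, p 0 6, g], .hi 1, [.y [1], .l [2, 10, 7, 7, 9, 6, 6, 4, 7, 9, 5, 7, 3], .l [2, 10, 7, 7, 10], .r 854 [7, 3] [1, 6, 7], .l [0, 10, 9, 4, 6, 4, 9, 11, 9, 9, 5, 7, 3], .l [0, 10, 9, 4, 6, 4, 9], .l [14, 10, 13, 6, 8, 6, 12, 5, 5, 1, 8, 2, 3], .l [4, 10, 5, 1, 7, 10, 12, 10, 10, 8, 6, 2, 3], .l [0, 10, 9, 6, 10, 8, 8, 6, 7], .l [4, 10, 5, 1, 7, 10, 10, 2, 3], .l [0, 8, 7, 6, 8, 6, 6, 4, 5], .l [0,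 8, 7, 8, 10, 6, 6, 4, 7, 9, 5, 7, 3], .l [0, 8, 7, 8, 10, 6, 6, 4, 7], .l [10, 8, 9, 2, 9, 4, 4, 2, 6], .l [0, 8, 7, 10, 14, 12, 12, 8, 8, 6, 3, 7, 3], .l [0, 8, 7, 10, 14, 12, 12, 8, 8, 6, 3], .l [12, 10, 11, 4, 6, 4, 11, 6, 6, 4, 1], .l [4, 8, 3, 1, 5, 8, 8, 2, 7, 9, 7, 7, 5], .l [0, 8, 7, 12, 14, 10, 10, 6, 6, 4, 7], .l [12, 8, 11, 6, 8, 6, 12, 5, 5, 3, 8, 2, 5], .l [0, 8, 7, 12, 12, 8, 8, 4, 4, 2, 5], .l [4, 8, 3, 1, 5, 8, 10, 8, 8, 6, 4, 2, 5], .l [3, 11, 11, 2, 12], .l [0, 11, 13, 11, 11, 7, 11, 6, 8, 7, 1, 6, 3]]),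
([p 3 1, s 0 0, g, m 5 0, p 2 0, g, p 4 2, g, p 0 3, g, p 0 4, g, s 1 5, g], .lo 10, [.l [0, 8, 7, 8, 8, 4, 4, 2, 5], .l [2, 10, 7, 9, 9, 4, 4, 2, 6], .l [3, 11], .l [2, 10, 7, 9], .l [2, 8, 5, 7], .y [4, 10, 6], .l [5, 8, 6, 11, 11, 2, 7, 4, 7], .l [6, 11], .l [5, 8, 6, 11, 11, 2, 7, 4, 7], .l [7, 10, 2, 9, 9, 7, 7, 5, 6], .l [8, 11], .l [0, 13, 5, 3, 5, 1, 3, 7, 7, 4, 1], .l [9, 12, 8, 8, 6, 9, 9, 2, 7, 4, 1], .l [10, 11], .l [5, 6, 4, 11, 3, 1, 9, 2, 5, 2, 5], .l [9, 10, 6, 6, 4, 9, 9, 2, 5, 2, 5], .r 2815 [1, 2, 3, 4, 6, 5] [1, 1, 1, 1, 1, 1, 1], .l [9, 10, 6, 6, 4, 9, 9, 2, 5, 2, 5], .l [9, 10, 6, 6, 4, 7, 7, 2, 5, 2, 5], .r 2816 [1, 2, 3, 4, 5, 6] [1, 1, 1, 1, 1, 1, 1], .l [5, 6, 4, 9, 1, 9, 7, 2, 6]]),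
([p 3 1, s 0 0, g, m 4 0, p 2 0, g, p 0 2, g, p 0 3, g, s 1 4, g], .lo 6, [.l [0, 8, 7, 4, 4, 2, 5], .l [2, 10, 7, 4, 4, 2, 6], .l [3, 7], .l [2, 10, 7, 4], .l [2, 8, 5, 2], .y [4, 6], .l [5, 8, 6, 9, 9, 2, 7, 4, 1], .l [6, 7], .l [5, 8, 6, 9, 9, 2, 7, 4, 1], .l [5, 6, 4, 9, 9, 2, 7, 4, 1], .r 2814 [1, 2, 5, 3, 4] [1, 1, 1, 1, 1, 1], .l [0, 11, 5, 1, 3, 7, 7, 4, 1], .l [5, 6, 4, 9, 9, 2, 5, 2, 5], .r 2817 [1, 2, 3, 5, 4] [1, 1, 1, 1, 1, 1], .l [5, 6, 4, 9, 9, 2, 5, 2, 5], .l [5, 6, 4, 7, 7, 2, 5, 2, 5], .r 2809 [1, 2, 3, 4, 5] [1, 1, 1, 1, 1, 1], .l [5, 6, 4, 7, 7, 2, 5, 2, 5]]),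
([p 3 1, g, m 4 0, p 2 0, g, p 0 2, g, p 0 3, g, s 1 4, g], .top 1, [.r 444 [] [8], .r 2818 [1, 2, 3, 4] [1, 1, 1, 1, 1], .r 334 [] [10], .r 444 [] [10]]),
([p 2 1, g, m 3 0, p 0 0, g, p 0 2, g, s 1 3, g], .lo 3, [.l [1, 7, 5, 2, 5], .l [2, 4], .l [1, 7, 5, 2], .l [1, 5, 3, 0], .y [3], .l [2, 8, 8, 1, 6, 4, 1], .r 2819 [1, 4, 2, 3] [1, 1, 1, 1, 1], .l [2, 8, 8, 1, 6, 4, 1], .l [2, 8, 8, 1, 4, 2, 3], .r 2803 [1, 2, 4, 3] [1, 1, 1, 1, 1], .l [2, 8, 8, 1, 4, 2, 3], .l [2, 6, 6, 1, 4, 2, 3], .r 2807 [1, 2, 3, 4] [1, 1, 1, 1, 1], .l [2, 6, 6, 1, 4, 2, 3]]),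
([p 4 1, g, m 5 0, m 0 2, g, m 2 3, g, p 0 4, g, s 1 5, g, m 3 6, g, m 6 0, g], .hi 13, [.l [1, 9, 7, 12, 12, 10, 10, 4, 4, 2, 5], .l [1, 9, 7, 12], .l [2, 14], .y [3, 5, 11, 13], .l [4, 7, 5, 8, 8, 1, 6, 4, 7], .l [0, 10, 5, 12, 3, 6, 10, 5, 5, 1, 1, 4, 1], .l [5, 14], .l [6, 9, 2, 12, 12, 10, 10, 6, 6, 4, 5], .l [0, 10, 3, 12, 3, 8, 10, 3, 3, 6, 6, 4, 1], .l [7, 14], .l [0, 8, 1, 10, 3, 8, 8, 1, 1, 4, 4, 2, 1], .l [8, 13, 9, 9, 7, 4, 4, 1, 6, 4, 5], .l [8, 13, 9, 9, 7, 4, 4, 1, 6, 4, 5], .l [9, 14], .l [10, 13, 7, 7, 5, 8, 8, 1, 6, 4, 5], .l [10, 13, 7, 7, 5, 8, 8, 1, 6, 4, 5], .l [11, 14], .l [12, 15, 13, 13, 7, 7, 5, 8, 8, 1, 6, 4, 1], .l [12, 15, 13, 13, 7, 7, 5, 8, 8, 1, 6, 4, 1], .l [13, 14], .l [12, 13, 11, 11,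 5, 5, 3, 6, 6, 1, 4, 2, 3], .l [12, 13, 11, 11, 5, 5, 3, 6, 6, 1, 4, 2, 3], .l [12, 3, 10, 11, 2, 6, 3, 4, 5, 3, 6, 2, 3]]),
([p 4 1, g, m 5 0, m 0 2, g, m 2 3, g, p 0 4, g, s 1 5, g, m 3 0, g], .hi 11, [.l [1, 9, 7, 10, 10, 4, 4, 2, 5], .l [1, 9, 7, 10], .l [2, 12], .y [3, 5, 11], .l [4, 7, 5, 8, 8, 1, 6, 4, 5], .l [0, 10, 5, 10, 1, 4, 8, 1, 1, 4, 1], .l [5, 12], .l [6, 9, 2, 10, 10, 6, 6, 4, 5], .l [0, 10, 3, 10, 1, 6, 8, 6, 6, 4, 1], .l [7, 12], .l [0, 8, 1, 8, 1, 6, 6, 4, 4, 2, 1], .l [8, 13, 9, 9, 7, 4, 4, 1, 6, 4, 1], .l [8, 13, 9, 9, 7, 4, 4, 1, 6, 4, 1], .l [9, 12], .l [10, 13, 7, 7, 5, 8, 8, 1, 6, 4, 1], .l [10, 13, 7, 7, 5, 8, 8, 1, 6, 4, 1], .l [11, 12], .l [10, 11, 5, 5, 3, 6, 6, 1, 4, 2, 3], .l [10, 11, 5,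 5, 3, 6, 6, 1, 4, 2, 3], .r 2821 [1, 2, 3, 4, 5, 6] [1, 1, 1, 1, 1, 1, 1]]),
([p 4 1, s 0 0, g, m 6 0, m 0 2, g, m 2 3, g, p 0 4, g, m 3 5, g, s 1 6, g, m 5 0, g], .hi 1, [.y [1], .l [2, 10, 7, 7, 9, 6, 6, 4, 7, 9, 5, 7, 3], .l [2, 10, 7, 7, 10], .r 854 [7, 4] [1, 6, 7], .l [12, 8, 11, 6, 8, 6, 10, 3, 3, 1, 6, 2, 3], .l [0, 10, 9, 4, 6, 4, 9, 11, 9, 9, 5, 7, 3], .l [0, 10, 9, 4, 6, 4, 9], .l [14, 10, 13, 6, 8, 6, 12, 5, 5, 1, 8, 2, 3], .l [4, 10, 5, 1, 7, 10, 12, 10, 10, 8, 6, 2, 3], .l [0, 10, 9, 6, 10, 8, 8, 6, 7], .l [4, 10, 5, 1, 7, 10, 10, 2, 3], .l [0, 8, 7, 6, 8, 6, 6, 4, 5], .l [0, 8, 7, 8, 10, 6, 6, 4, 7, 9, 5, 7, 3], .l [0, 8, 7, 8, 10, 6, 6, 4, 7], .l [10, 8, 9, 2, 9, 4, 4, 2, 6], .l [0, 8, 7, 10, 14, 12, 12,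 8, 8, 6, 3, 7, 3], .l [0, 8, 7, 10, 14, 12, 12, 8, 8, 6, 3], .l [12, 10, 11, 4, 6, 4, 11, 6, 6, 4, 1], .l [4, 8, 3, 1, 5, 8, 8, 2, 7, 9, 7, 7, 5], .l [0, 8, 7, 12, 14, 10, 10, 6, 6, 4, 7], .l [12, 8, 11, 6, 8, 6, 12, 5, 5, 3, 8, 2, 5], .l [4, 8, 3, 1, 5, 8, 10, 8, 8, 6, 4, 2, 5], .l [3, 11, 11, 2, 12], .l [0, 11, 13, 11, 11, 7, 11, 6, 8, 7, 1, 6, 3]]),
([p 4 1, s 0 0, g, m 6 0, m 0 2, g, m 2 3, g, p 0 4, g, m 3 5, g, m 5 0, g, s 1 6, g], .hi 1, [.y [1], .l [12, 14, 13, 13, 9, 9, 7, 10, 10, 4, 1, 7, 3], .l [2, 10, 7, 7, 12], .r 854 [7, 4] [1, 6, 7], .l [4, 8, 3, 13, 6, 10, 4, 2, 7], .l [10, 12, 9, 11, 3, 1, 5, 10, 10, 2, 5, 7, 5], .l [0, 10, 9, 4, 6, 4, 11], .l [4, 10, 5, 15, 6, 10, 4, 2, 9], .l [8, 6, 9, 1, 9, 4, 4, 2,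 8, 8, 4, 6, 3], .l [0, 10, 9, 6, 10, 8, 8, 6, 9], .l [4, 10, 5, 1, 7, 12, 12, 2, 3], .l [0, 8, 7, 6, 8, 6, 6, 4, 7], .l [9, 12, 8, 8, 6, 11, 11, 2, 7, 4, 5, 7, 3], .l [0, 8, 7, 8, 10, 6, 6, 4, 9], .l [10, 8, 9, 2, 9, 4, 4, 2, 8], .l [4, 8, 3, 1, 5, 12, 12, 2, 7, 9, 7, 7, 5], .l [0, 8, 7, 10, 12, 10, 10, 6, 6, 4, 7], .l [12, 10, 11, 4, 6, 4, 9, 4, 4, 2, 6], .l [10, 12, 11, 11, 7, 9, 3, 1, 5, 8, 8, 2, 5], .l [3, 15, 15, 2, 12], .l [0, 15, 7, 0, 13, 6, 1, 8, 8, 6, 8, 4, 1], .l [10, 12, 11, 11, 7, 9, 3, 1, 5, 6, 6, 2, 5], .l [3, 13, 13, 2, 12], .l [9, 16, 7, 1, 11, 11, 9, 3, 3, 5, 8, 2, 5]]),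
([p 4 1, s 0 0, g, m 5 0, m 0 2, g, m 2 3, g, p 0 4, g, m 3 0, g, s 1 5, g], .hi 10, [.l [0, 8, 7, 8, 8, 4, 4, 2, 5], .l [2, 10, 7, 9, 9, 4, 4, 2, 6], .l [2, 10, 7, 9], .l [3, 11], .y [4, 6, 10], .l [5, 8, 6, 11, 11, 2, 7, 4, 7], .l [5, 8, 6, 11, 11, 2, 7, 4, 7], .l [6, 11], .l [7, 10, 2, 9, 9, 7, 7, 5, 6], .l [0, 13, 5, 3, 5, 1, 3, 7, 7, 4, 1], .l [8, 11], .l [0, 11, 3, 1, 3, 1, 1, 5, 5, 2, 1], .l [9, 12, 8, 8, 6, 9, 9, 2, 7, 4, 1], .l [5, 6, 4, 11, 3, 1, 9, 2, 5, 2, 5], .l [10, 11], .l [9, 10, 6, 6, 4, 9, 9, 2, 5, 2, 5], .l [9, 10, 6, 6, 4, 9, 9, 2, 5, 2, 5], .r 2824 [1, 2, 3, 4, 6, 5] [1, 1, 1, 1, 1, 1, 1], .l [9, 10, 6, 6, 4, 7, 7, 2, 5, 2, 5], .l [5, 6, 4, 9, 1, 9, 7, 2, 6], .r 2823 [1, 2, 3, 4, 6, 5] [1, 1, 1, 1,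 1, 1, 1]]),
([p 5 1, s 0 0, g, m 6 0, m 0 2, g, m 2 3, g, m 3 4, g, p 0 5, g, m 4 0, g, s 1 6, g], .hi 1, [.y [1], .l [10, 14, 13, 13, 11, 11, 9, 10, 10, 4, 1, 5, 1], .l [2, 12, 9, 9, 12], .r 854 [7, 5] [1, 8, 5], .l [4, 10, 5, 1, 7, 10, 5, 1, 8, 2, 5], .l [5, 8, 6, 13, 13, 2, 9, 6, 7, 9, 5, 5, 3], .l [0, 12, 11, 4, 6, 4, 11], .l [6, 12, 5, 1, 7, 12, 7, 1, 10, 2, 5], .l [7, 10, 8, 8, 6, 11, 11, 2, 7, 4, 5, 7, 3], .l [0, 12, 11, 6, 8, 6, 6, 4, 9], .l [4, 12, 7, 1, 9, 12, 7, 3, 10, 2, 7], .l [9, 14, 12, 12, 10, 10, 8, 9, 9, 2, 5, 2, 3], .l [0, 12, 11, 8, 12, 10, 10, 8, 8, 6, 7], .l [4, 12, 7, 1, 9, 12, 5, 1, 10, 2, 3], .l [0, 10, 9, 8, 10, 8, 8, 6, 6, 4, 5], .l [4, 10, 5, 1, 7, 12, 7, 1, 10, 2, 5, 7, 5], .l [0, 10, 9, 10,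 12, 8, 8, 6, 6, 4, 7], .l [4, 10, 5, 1, 7, 12, 7, 1, 10, 2, 5], .l [10, 12, 9, 9, 7, 9, 3, 1, 5, 8, 8, 2, 5], .l [3, 15, 15, 2, 12], .l [4, 10, 5, 1, 7, 12, 7, 1, 10, 2, 3], .l [10, 12, 9, 9, 7, 9, 3, 1, 5, 6, 6, 2, 5], .l [3, 13, 13, 2, 12], .l [5, 16, 11, 1, 13, 3, 3, 9, 1, 8, 5]]),
([p 5 1, s 0 0, g, m 6 0, m 0 2, g, m 2 3, g, m 3 4, g, m 4 0, g, p 0 5, g, s 1 6, g], .hi 1, [.y [1], .l [8, 10, 9, 13, 5, 1, 9, 10, 3, 1, 8, 4, 1], .l [2, 14, 11, 11, 12], .r 854 [7, 5] [1, 10, 3], .l [4, 12, 7, 1, 9, 10, 3, 1, 8, 2, 5], .l [6, 14, 7, 1, 9, 12, 5, 1, 10, 2, 5, 7, 5], .l [0, 14, 13, 4, 6, 4, 11], .l [6, 14, 7, 1, 9, 12, 5, 1, 10, 2, 5], .l [6, 10, 9, 13, 7, 3, 9, 10, 5, 3, 8, 2, 5], .l [0, 14, 13, 6, 8, 6, 6, 4, 9], .l [4,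 14, 9, 1, 11, 12, 5, 3, 10, 2, 7], .l [4, 14, 9, 1, 11, 12, 3, 1, 10, 2, 5, 7, 5], .l [0, 14, 13, 8, 10, 8, 8, 6, 6, 4, 7], .l [4, 14, 9, 1, 11, 12, 3, 1, 10, 2, 5], .l [6, 8, 7, 13, 7, 1, 9, 10, 3, 1, 8, 2, 3], .l [3, 15, 15, 2, 10], .l [4, 14, 9, 1, 11, 12, 3, 1, 10, 2, 3], .l [3, 13, 13, 2, 10], .l [4, 12, 7, 1, 9, 12, 5, 1, 10, 2, 5, 7, 5], .l [3, 15, 15, 2, 12], .l [4, 12, 7, 1, 9, 12, 5, 1, 10, 2, 5], .l [6, 8, 7, 11, 5, 1, 7, 8, 3, 1, 6, 2, 5], .l [3, 13, 13, 2, 12], .l [5, 16, 11, 1, 13, 3, 3, 9, 1, 8, 3]]),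
([p 5 1, s 0 0, g, m 6 0, m 0 2, g, m 2 3, g, m 3 4, g, p 0 5, g, s 1 6, g, m 4 0, g], .hi 1, [.y [1], .l [2, 12, 9, 9, 13, 10, 10, 8, 8, 6, 3, 7, 3], .l [2, 12, 9, 9, 10], .r 854 [7, 5] [1, 8, 5], .l [4, 10, 5, 1, 7, 8, 3, 1, 6, 2, 3], .l [0, 12, 11, 4, 6, 4, 9, 11, 7, 7, 5, 7, 3], .l [0, 12, 11, 4, 6, 4, 9], .l [6, 12, 5, 1, 7, 10, 5, 1, 8, 2, 3], .l [0, 12, 11, 6, 8, 6, 6, 4, 7, 9, 5, 7, 3], .l [0, 12, 11, 6, 8, 6, 6, 4, 7], .l [4, 12, 7, 1, 9, 10, 5, 3, 8, 2, 5], .l [4, 12, 7, 1, 9, 10, 3, 1, 8, 2, 3, 7, 1], .l [0, 12, 11, 8, 14, 12, 12, 10, 10, 8, 5], .l [4, 12, 7, 1, 9, 10, 3, 1, 8, 2, 3], .l [0, 10, 9, 8, 12, 10, 10, 8, 8, 6, 3], .l [0, 10, 9, 10, 14, 10, 10, 8, 8, 6, 3, 7, 3], .l [0, 10, 9, 10, 14, 10, 10, 8, 8,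 6, 3], .l [4, 10, 5, 1, 7, 10, 5, 1, 8, 2, 3], .l [6, 8, 7, 9, 3, 1, 5, 6, 6, 2, 5, 7, 5], .l [0, 10, 9, 12, 14, 8, 8, 6, 6, 4, 7], .l [12, 8, 11, 4, 14, 7, 7, 5, 5, 3, 8, 2, 5], .l [6, 8, 7, 9, 3, 1, 5, 6, 8, 6, 4, 2, 5], .l [3, 11, 11, 2, 12], .l [0, 11, 13, 9, 9, 7, 11, 6, 8, 7, 1, 6, 3]]),
([p 4 1, s 0 0, g, m 5 0, m 0 2, g, m 2 3, g, m 3 0, g, p 0 4, g, s 1 5, g], .hi 8, [.l [0, 10, 9, 6, 6, 4, 4, 2, 5], .l [2, 12, 9, 6, 6, 4, 4, 2, 6], .l [2, 12, 9, 6], .l [3, 9], .y [4, 6, 8], .l [5, 8, 6, 11, 11, 2, 9, 6, 3], .l [0, 13, 7, 3, 5, 9, 9, 6, 1], .l [6, 9], .l [7, 10, 8, 8, 6, 9, 9, 2, 7, 4, 1], .l [7, 10, 8, 8, 6, 9, 9, 2, 7, 4, 1], .l [8, 9], .l [7, 8, 6, 6, 4, 9, 9, 2, 7, 4, 1], .l [5, 6, 4, 11, 5, 1, 3, 4, 1], .r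 2827 [1, 2, 3, 6, 4, 5] [1, 1, 1, 1, 1, 1, 1], .l [5, 6, 4, 9, 3, 1, 1, 2, 1], .l [7, 8, 6, 6, 4, 9, 9, 2, 5, 2, 5], .l [7, 8, 6, 6, 4, 9, 9, 2, 5, 2, 5], .r 2826 [1, 2, 3, 6, 4, 5] [1, 1, 1, 1, 1, 1, 1], .l [7, 8, 6, 6, 4, 7, 7, 2, 5, 2, 5], .l [7, 8, 6, 6, 4, 7, 7, 2, 5, 2, 5], .r 2828 [1, 2, 3, 6, 4, 5] [1, 1, 1, 1, 1, 1, 1]]),
([p 3 1, s 0 0, g, m 4 0, m 0 2, g, m 2 0, g, p 0 3, g, s 1 4, g], .hi 6, [.l [0, 8, 7, 4, 4, 2, 5], .l [2, 10, 7, 4, 4, 2, 6], .l [2, 10, 7, 4], .l [3, 7], .y [4, 6], .l [5, 8, 6, 9, 9, 2, 7, 4, 1], .l [5, 8, 6, 9, 9, 2, 7, 4, 1], .l [6, 7], .l [5, 6, 4, 9, 9, 2, 7, 4, 1], .l [0, 11, 5, 1, 3, 7, 7, 4, 1], .r 2829 [1, 2, 5, 3, 4] [1, 1, 1, 1, 1, 1], .l [0, 9, 3, 1, 1, 5, 5, 2, 1], .l [5, 6, 4,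 9, 9, 2, 5, 2, 5], .l [5, 6, 4, 9, 9, 2, 5, 2, 5], .r 2825 [1, 2, 5, 3, 4] [1, 1, 1, 1, 1, 1], .l [5, 6, 4, 7, 7, 2, 5, 2, 5], .l [5, 6, 4, 7, 7, 2, 5, 2, 5], .r 2822 [1, 2, 5, 3, 4] [2, 1, 1, 1, 1, 1]]),
([p 3 1, g, m 4 0, m 0 2, g, m 2 0, g, p 0 3, g, s 1 4, g], .top 1, [.r 444 [] [8], .r 2830 [1, 2, 3, 4] [1, 1, 1, 1, 1], .r 334 [] [10], .r 444 [] [10]]),
([p 4 1, s 0 2, g, m 5 0, m 0 3, g, p 0 4, g, m 3 0, g, s 2 0, g, s 1 5, g], .lo 1, [.l [0, 13, 1, 10, 6, 9, 3, 8, 2, 5], .l [1, 8, 6, 13, 6, 10, 4, 2, 5], .l [2, 8, 5, 5, 10], .l [2, 6, 3, 3, 8], .l [6, 4, 7, 1, 7, 2, 8, 8, 4, 5], .l [6, 4, 7, 1, 7, 2, 8], .l [0, 8, 7, 4, 8, 6, 9], .l [14, 13, 6, 8, 4, 9], .l [8, 6, 7, 2, 7, 2, 8], .l [0, 6, 5, 6, 8, 4, 9], .l [0,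 6, 5, 6, 6, 2, 7], .l [10, 8, 9, 4, 9, 5, 8, 8, 2, 5], .l [3, 13, 7, 0, 8, 5, 10, 2, 7], .l [3, 13, 13, 2, 8], .y [1, 10], .l [10, 8, 9, 4, 9, 5, 8, 8, 2, 5], .l [10, 8, 9, 4, 9, 5, 8, 8, 2, 5], .l [3, 13, 13, 2, 10], .l [10, 8, 9, 4, 11, 7, 4, 4, 2, 5], .l [10, 8, 9, 4, 11, 7, 4, 4, 2, 5], .l [3, 11, 11, 2, 10]]),
([p 4 1, s 0 2, g, s 2 0, g, m 5 0, m 0 3, g, p 0 4, g, m 3 0, g, s 1 5, g], .lo 1, [.l [3, 1, 9, 6, 11, 4, 8, 4, 2, 3], .l [14, 13, 3, 12, 3, 10, 1, 6, 2, 5], .l [2, 10, 7, 7, 10], .y [1, 3], .l [3, 1, 9, 6, 11, 4, 8, 4, 2, 3], .l [1, 10, 8, 13, 4, 8, 4, 2, 3], .l [4, 10, 5, 5, 10], .l [4, 8, 3, 3, 8], .l [8, 6, 9, 1, 9, 4, 8, 8, 6, 3], .l [8, 6, 9, 1, 9, 4, 8], .l [0, 10, 9, 6, 10, 8, 9], .l [14, 13, 8, 10,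 6, 9], .l [10, 8, 9, 2, 9, 4, 8], .l [0, 8, 7, 8, 10, 6, 9], .l [0, 8, 7, 8, 8, 4, 7], .l [0, 13, 1, 10, 6, 9, 3, 8, 2, 5], .l [5, 13, 5, 0, 6, 3, 10, 4, 7], .l [2, 8, 5, 5, 10, 1, 3, 8, 2, 5], .l [3, 1, 7, 4, 9, 4, 8, 4, 2, 3], .l [12, 11, 1, 10, 3, 10, 1, 6, 2, 5], .l [5, 11, 11, 4, 10]]),
([p 4 1, s 0 2, g, m 5 0, m 0 3, g, p 0 4, g, m 3 0, g, s 1 5, g, s 2 0, g], .lo 1, [.l [3, 1, 7, 4, 9, 4, 8, 4, 2, 3], .l [1, 8, 6, 11, 4, 8, 4, 2, 3], .l [2, 8, 5, 5, 8], .l [2, 6, 3, 3, 6], .l [6, 4, 7, 1, 7, 2, 6, 6, 4, 5], .l [6, 4, 7, 1, 7, 2, 6], .l [0, 8, 7, 4, 8, 6, 7], .l [12, 11, 6, 8, 4, 7], .l [8, 6, 7, 2, 7, 2, 6], .l [0, 6, 5, 6, 8, 4, 7], .l [0, 6, 5, 6, 6, 2, 5], .l [10, 8, 9, 4, 11, 7, 4, 4, 2, 5], .l [3, 11, 5, 0,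 6, 3, 8, 2, 5], .l [3, 11, 11, 2, 8], .l [12, 10, 11, 6, 3, 4, 8, 4, 2, 3], .l [10, 9, 9, 3, 10, 1, 6, 2, 5], .l [3, 9, 9, 2, 8], .y [1, 12], .l [12, 10, 11, 6, 3, 4, 8, 4, 2, 3], .l [12, 10, 11, 6, 11, 5, 6, 6, 2, 5], .l [3, 9, 9, 2, 10]]),
([p 3 1, s 0 0, g, m 4 0, m 0 2, g, p 0 3, g, m 2 0, g, s 1 4, g], .hi 1, [.y [1], .r 2833 [1, 5, 2, 3, 4] [1, 1, 1, 1, 1, 1], .l [2, 8, 5, 5, 8], .l [1, 8, 6, 11, 4, 8, 4, 2, 3], .l [4, 2, 5, 1, 5, 2, 4], .l [12, 11, 4, 8, 6, 7], .l [0, 8, 7, 4, 8, 6, 7], .l [6, 4, 7, 1, 7, 2, 6], .l [0, 6, 5, 4, 6, 4, 5], .l [12, 11, 6, 8, 4, 7], .l [0, 6, 5, 6, 8, 4, 7], .l [8, 6, 7, 2, 7, 2, 6], .r 2832 [1, 5, 2, 3, 4] [1, 1, 1, 1, 1, 1], .l [3, 11, 11, 2, 8], .l [3, 11, 5, 0, 6, 3, 8, 2, 5], .r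 2834 [1, 5, 2, 3, 4] [1, 1, 1, 1, 1, 1], .l [3, 9, 9, 2, 8], .l [10, 9, 9, 3, 10, 1, 6, 2, 5]]),
([p 3 1, g, m 4 0, m 0 2, g, p 0 3, g, m 2 0, g, s 1 4, g], .top 1, [.r 444 [] [8], .r 2835 [1, 2, 3, 4] [1, 1, 1, 1, 1], .r 334 [] [10], .r 444 [] [10]]),
([p 3 1, s 0 0, g, m 4 0, m 0 2, g, p 0 3, g, s 1 4, g, m 2 5, g, m 5 6, g, m 6 0, g], .hi 1, [.y [1], .l [12, 14, 13, 13, 7, 10, 12, 8, 6, 4, 1, 7, 3], .l [2, 8, 5, 5, 6], .r 854 [7, 3] [1, 4, 9], .l [4, 2, 5, 1, 7, 4, 1], .l [10, 9, 4, 10, 8, 5], .l [0, 8, 7, 4, 10, 8, 5], .l [6, 4, 7, 1, 9, 4, 1], .l [0, 6, 5, 4, 8, 6, 3], .l [10, 9, 6, 10, 6, 3], .l [0, 6, 5, 6, 10, 6, 3], .l [8, 6, 7, 2, 9, 4, 1], .l [8, 7, 8, 10, 4, 7], .l [0, 6, 5, 8, 10, 4, 7], .l [8, 4, 7, 4, 10,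 3, 8, 2, 5], .l [0, 6, 5, 10, 12, 10, 10, 4, 7, 9, 5, 7, 3], .l [0, 6, 5, 10, 12, 10, 10, 4, 7], .l [0, 7, 11, 4, 6, 5, 8, 2, 5], .l [8, 7, 12, 5, 8, 5], .l [0, 6, 5, 12, 14, 12, 12, 10, 10, 4, 7], .l [0, 7, 13, 6, 8, 7, 10, 2, 7], .l [8, 7, 14, 7, 10, 7], .l [3, 7, 7, 2, 12], .l [0, 7, 15, 8, 10, 9, 12, 2, 9]]),
([p 3 1, s 0 0, g, m 4 0, m 0 2, g, p 0 3, g, s 1 4, g, m 2 5, g, m 5 0, g], .hi 12, [.l [0, 6, 5, 10, 10, 8, 8, 2, 5], .l [2, 8, 5, 11, 11, 9, 9, 2, 6], .l [2, 8, 5, 11], .l [3, 13], .y [4, 10, 12], .l [5, 8, 2, 11, 11, 9, 9, 5, 6], .l [0, 9, 3, 11, 3, 8, 10, 3, 3, 6, 3], .l [6, 13], .l [0, 7, 1, 9, 3, 8, 8, 1, 1, 4, 3], .l [7, 12, 8, 5, 5, 2, 7, 4, 7], .l [7, 12, 8, 5, 5, 2, 7, 4, 7], .l [8, 13], .l [9, 12,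 6, 9, 9, 2, 7, 4, 7], .l [9, 12, 6, 9, 9, 2, 7, 4, 7], .l [10, 13], .l [11, 14, 12, 12, 6, 9, 9, 2, 7, 4, 1], .l [11, 14, 12, 12, 6, 9, 9, 2, 7, 4, 1], .l [12, 13], .l [11, 12, 10, 10, 4, 7, 7, 2, 5, 2, 5], .l [11, 12, 10, 10, 4, 7, 7, 2, 5, 2, 5], .r 2837 [1, 2, 3, 4, 5, 6] [1, 1, 1, 1, 1, 1, 1]]),
([p 3 1, s 0 0, g, m 4 0, m 0 2, g, p 0 3, g, s 1 4, g, m 2 0, g], .hi 10, [.l [0, 6, 5, 8, 8, 2, 5], .l [2, 8, 5, 9, 9, 2, 6], .l [2, 8, 5, 9], .l [3, 11], .y [4, 10], .l [5, 8, 2, 9, 9, 5, 6], .l [0, 9, 3, 9, 1, 6, 8, 6, 3], .l [6, 11], .l [0, 7, 1, 7, 1, 6, 6, 4, 3], .l [7, 12, 8, 5, 5, 2, 7, 4, 1], .l [7, 12, 8, 5, 5, 2, 7, 4, 1], .l [8, 11], .l [9, 12, 6, 9, 9, 2, 7, 4, 1], .l [9, 12, 6, 9, 9, 2, 7, 4, 1], .l [10, 11],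 .l [9, 10, 4, 7, 7, 2, 5, 2, 5], .l [9, 10, 4, 7, 7, 2, 5, 2, 5], .r 2838 [1, 2, 3, 4, 5] [1, 1, 1, 1, 1, 1]]),
([p 3 1, g, m 4 0, m 0 2, g, p 0 3, g, s 1 4, g, m 2 0, g], .top 1, [.r 444 [] [8], .r 2839 [1, 2, 3, 4] [1, 1, 1, 1, 1], .r 334 [] [10], .r 444 [] [10]]),
([p 2 1, g, m 3 0, m 0 0, g, p 0 2, g, s 1 3, g], .hi 3, [.l [1, 7, 5, 2, 5], .l [1, 7, 5, 2], .l [2, 4], .y [3], .l [2, 8, 8, 1, 6, 4, 1], .l [2, 8, 8, 1, 6, 4, 1], .r 2831 [1, 4, 2, 3] [1, 1, 1, 1, 1], .l [2, 6, 6, 1, 4, 2, 1], .l [2, 8, 8, 1, 4, 2, 3], .l [2, 8, 8, 1, 4, 2, 3], .r 2836 [1, 4, 2, 3] [1, 1, 1, 1, 1], .l [2, 6, 6, 1, 4, 2, 3], .l [2, 6, 6, 1, 4, 2, 3], .r 2840 [1, 4, 2, 3] [1, 1, 1, 1, 1]]),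
([p 2 1, s 0 0, g, m 3 0, p 4 2, g, s 1 3, g, p 5 4, g, p 6 5, g, p 0 6, g], .hi 1, [.y [1], .l [10, 12, 11, 11, 7, 8, 10, 8, 6, 4, 1, 5, 1], .l [2, 6, 3, 3, 4], .r 854 [7, 2] [1, 2, 9], .l [8, 7, 4, 8, 6, 3], .l [0, 4, 3, 4, 8, 6, 3], .l [6, 4, 5, 2, 7, 4, 1], .l [6, 5, 6, 8, 4, 5], .l [0, 4, 3, 6, 8, 4, 5], .l [6, 2, 5, 4, 8, 3, 6, 2, 3], .l [0, 4, 3, 8, 10, 8, 8, 4, 5, 7, 5, 5, 1], .l [0, 4, 3, 8, 10, 8, 8, 4, 5], .l [0, 5, 9, 4, 6, 5, 6, 0, 3], .l [6, 5, 10, 5, 6, 3], .l [0, 4, 3, 10, 12, 10, 10, 8, 8, 4, 5], .l [0, 5, 11, 6, 8, 7, 8, 0, 5], .l [0, 4, 3, 10, 10, 8, 8, 6, 6, 2, 3], .l [6, 5, 12, 7, 8, 5], .l [3, 5, 5, 2, 10], .l [0, 5, 13, 8, 10, 9, 10, 0, 7]]),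
([p 2 1, s 0 0, g, m 3 0, p 4 2, g, s 1 3, g, p 5 4, g, p 0 5, g], .lo 10, [.l [0, 4, 3, 8, 8, 6, 6, 2, 3], .l [2, 6, 3, 9, 9, 7, 7, 2, 4], .l [3, 11], .l [2, 6, 3, 9], .y [0, 6, 3, 10, 8, 4], .l [5, 10, 8, 5, 5, 2, 5, 2, 5], .l [6, 11], .l [5, 10, 8, 5, 5, 2, 5, 2, 5], .l [7, 10, 6, 7, 7, 2, 5, 2, 5], .l [8, 11], .l [7, 10, 6, 7, 7, 2, 5, 2, 5], .l [9, 12, 10, 10, 6, 7, 7, 2, 5, 2, 1], .l [10, 11], .l [9, 12, 10, 10, 6, 7, 7, 2, 5, 2, 1], .l [9, 10, 8, 8, 4, 5, 5, 2, 3, 0, 3], .r 2842 [1, 2, 3, 4, 5, 6] [1, 1, 1, 1, 1, 1], .l [9, 10, 8, 8, 4, 5, 5, 2, 3, 0, 3]]),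
([p 2 1, s 0 0, g, m 3 0, p 4 2, g, s 1 3, g, p 0 4, g], .lo 8, [.l [0, 4, 3, 6, 6, 2, 3], .l [2, 6, 3, 7, 7, 2, 4], .l [3, 9], .l [2, 6, 3, 7], .y [0, 6, 3, 8, 4], .l [5, 10, 8, 5, 5, 2, 5, 2, 1], .l [6, 9], .l [5, 10, 8, 5, 5, 2, 5, 2, 1], .l [7, 10, 6, 7, 7, 2, 5, 2, 1], .l [8, 9], .l [7, 10, 6, 7, 7, 2, 5, 2, 1], .l [7, 8, 4, 5, 5, 2, 3, 0, 3], .r 2843 [1, 2, 3, 4, 5] [1, 1, 1, 1, 1], .l [7, 8, 4, 5, 5, 2, 3, 0, 3]]),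
([p 2 1, s 0 0, g, m 3 0, p 0 2, g, s 1 3, g], .lo 4, [.l [0, 4, 3, 2, 3], .l [2, 6, 3, 2, 4], .l [3, 5], .l [2, 6, 3, 2], .y [0, 6, 3, 4], .l [3, 7, 7, 2, 3, 0, 3], .r 1487 [1, 2, 4, 3] [1, 1, 1, 1], .l [3, 7, 7, 2, 3, 0, 3], .l [3, 5, 5, 2, 3, 0, 3], .r 2844 [1, 2, 3, 4] [1, 1, 1, 1], .l [3, 5, 5, 2, 3, 0, 3]]),
([p 2 1, s 0 0, g, m 3 0, g, p 0 2, g, s 1 3, g], .top 4, [.r 2845 [1, 2, 3] [1, 1, 1], .r 2798 [1, 2, 3] [1, 1, 1, 1], .r 2820 [1, 2, 3] [2, 1, 1, 1], .r 2841 [1, 2, 3] [2, 1, 1, 1]]),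
([p 2 1, g, m 3 0, g, p 0 2, g, s 1 3, g], .top 1, [.r 444 [] [5], .r 2846 [1, 2, 3] [1, 1, 1, 1], .r 334 [] [7], .r 444 [] [7]]),
([p 2 1, g, m 0 0, p 0 2, g, s 1 0, g], .lo 2, [.r 506 [3, 2] [1, 1, 3], .l [4, 1], .r 2770 [1, 3, 2] [1, 1, 1, 1], .y [2], .r 1493 [1, 2, 3] [1, 1, 1, 1], .l [5, 2], .l [2, 4], .r 2847 [1, 2, 3] [1, 0, 1, 1], .r 1578 [1, 2, 3] [1, 1, 1, 1], .l [7, 4], .l [2, 6]]),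
([p 1 0, g, m 0 0, p 0 1, g], .hi 0, [.r 1576 [2, 1] [1, 1, 1], .l [0, 1], .l [2, 1], .l [2, 1], .y [0, 3], .r 2848 [2, 1] [1, 1, 1], .l [0, 4], .l [5, 4]]),
([p 4 0, g, s 0 1, g, s 0 2, g, s 0 3, g, s 1 0, p 3 4, m 2 5, g, m 5 0, g], .hi 8, [.l [8, 10, 3, 10, 2, 6, 1, 8, 4, 1], .l [7, 11, 3, 2, 3], .l [10, 7, 10, 0, 3], .y [2, 8], .l [8, 10, 3, 10, 2, 6, 1, 8, 4, 1], .l [7, 11, 3, 2, 5], .l [10, 5, 10, 0, 5], .l [6, 8, 3, 8, 2, 4, 1, 6, 4, 1], .l [9, 12, 6, 8, 3, 7, 9, 2, 4, 5], .l [7, 11, 3, 2, 7], .l [10, 3, 10, 0, 7], .l [5, 9, 3, 2, 1], .l [6, 10, 5, 10, 2, 6, 1, 8, 4, 1], .l [6, 10, 5, 10, 2, 6, 1, 8, 4, 1], .l [5, 11, 5, 4, 1], .l [8, 11, 13, 11, 0], .l [2, 7, 7, 10, 12, 10, 5], .l [12, 3, 4], .l [7, 10, 6, 12,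 7, 2, 4, 2, 4, 5], .l [5, 9, 3, 2, 11], .l [14, 5, 6]]),
([p 3 0, g, s 0 1, g, s 0 2, g, s 5 0, p 2 3, m 1 4, g, m 4 0, g, s 0 5, g], .hi 6, [.l [7, 10, 6, 12, 7, 2, 4, 2, 4, 5], .l [5, 9, 3, 2, 3], .l [8, 5, 8, 0, 3], .l [5, 1, 5, 2, 5, 2, 7, 4, 4, 1], .l [7, 10, 4, 6, 3, 5, 7, 2, 4, 5], .l [5, 9, 3, 2, 5], .l [8, 3, 8, 0, 5], .l [3, 7, 3, 2, 1], .l [5, 10, 6, 12, 7, 2, 4, 2, 6, 1], .l [5, 10, 6, 12, 7, 2, 4, 2, 6, 1], .l [3, 9, 5, 4, 1], .l [6, 9, 11, 9, 0], .l [3, 7, 3, 2, 7], .l [10, 3, 4], .l [5, 8, 4, 10, 7, 2, 4, 2, 4, 5], .l [3, 7, 3, 2, 9], .l [12, 5, 6], .y [6, 12], .l [5, 8, 4, 10, 7, 2, 4, 2, 4, 5], .l [3, 7, 3, 2, 11], .l [14, 7, 8]]),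
([p 4 0, g, s 0 1, g, s 0 2, g, s 0 3, g, s 2 0, p 3 4, m 1 5, g, m 5 0, g], .hi 8, [.l [9, 12, 6, 8, 3, 7, 9, 2, 4, 5], .l [7, 11, 3, 2, 3], .l [10, 7, 10, 0, 3], .l [8, 3, 9, 3, 5, 1, 7, 5, 0, 1], .l [5, 12, 8, 4, 5, 7, 9, 7, 2, 3], .l [7, 11, 3, 2, 5], .l [10, 5, 10, 0, 5], .y [4, 8], .l [5, 12, 8, 4, 5, 7, 9, 7, 2, 3], .l [7, 11, 3, 2, 7], .l [10, 3, 10, 0, 7], .l [5, 9, 3, 2, 1], .l [7, 12, 6, 8, 3, 7, 9, 2, 6, 1], .l [10, 5, 11, 3, 7, 1, 9, 5, 0, 1], .l [5, 11, 5, 4, 1], .l [8, 11, 13, 11, 0], .l [4, 7, 7, 10, 12, 10, 3], .l [12, 3, 4], .l [7, 10, 4, 6, 3, 5, 7, 2, 4, 5], .l [5, 9, 3, 2, 11], .l [14, 5, 6]]),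
([p 4 0, g, p 1 0, g, s 0 1, s 0 2, g, s 3 0, g, s 0 3, p 2 4, g], .lo 4, [.l [1, 10, 8, 1, 7, 5, 4], .l [6, 3, 11, 5, 4, 1], .l [3, 12, 8, 1, 9, 7, 4], .l [5, 12, 6, 9, 1, 7, 4], .y [2, 4], .l [5, 12, 6, 9, 1, 7, 4, 1], .l [6, 1, 11, 5, 4], .l [5, 12, 6, 9, 1, 7, 4], .l [11, 1, 11, 0, 4, 5], .l [1, 12, 10, 1, 4, 2, 6], .l [11, 1, 11, 0, 4, 5], .l [9, 1, 9, 0, 4, 5], .l [9, 4, 10, 7, 3, 1], .l [1, 12, 10, 1, 6, 4, 6], .l [11, 12, 0, 4, 7], .l [3, 10, 6, 9, 1, 7, 4, 1], .l [1, 10, 8, 1, 9, 7, 4], .l [3, 10, 6, 9, 1, 7, 4]]),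
([p 4 0, g, s 0 1, g, s 0 0, s 0 2, g, s 3 0, g, s 0 3, p 2 4, g, m 1 0, g], .hi 4, [.l [6, 3, 11, 5, 4, 1], .l [14, 9, 11, 9, 4, 1], .l [6, 3, 11, 5, 4], .l [4, 1, 9, 5, 4, 1], .l [6, 1, 11, 5, 4, 1], .r 2853 [5, 2, 3, 4] [3, 1, 1, 1, 3], .l [6, 1, 11, 5, 4], .y [4], .c, .l [11, 1, 11, 0, 4, 5], .l [11, 1, 11, 0, 4, 5], .l [7, 2, 10], .l [9, 4, 10, 7, 9, 3], .l [11, 12, 0, 4, 7], .l [9, 4, 10], .l [4, 8, 11, 4, 9, 7, 4, 3], .l [9, 1, 9, 0, 4, 7], .l [9, 1, 9, 0, 4, 7], .l [12, 7, 4], .l [9, 1, 9, 0, 4, 9], .l [9, 1, 9, 0, 4, 9], .l [14, 9, 4]]),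
([p 3 0, g, s 0 1, g, m 0 0, s 0 2, g, p 2 3, m 1 4, g, m 4 0, g], .lo 4, [.l [4, 3], .l [6, 3, 8, 2, 1], .l [6, 3], .l [10, 5, 7, 5, 1], .l [6, 1, 8, 2, 1], .l [6, 1], .l [8, 10, 3, 5, 9, 6, 0, 2, 5], .y [4], .l [7, 2, 7], .l [7, 2], .l [4, 6], .l [4, 9, 11, 9, 2], .l [10, 5], .l [4, 9], .l [4, 9], .l [6, 7, 0, 4, 9], .l [12, 7], .l [4, 11]]),
([p 3 0, g, s 0 1, g, p 0 0, s 0 2, g, p 2 3, m 1 4, g, m 4 0, g], .hi 4, [.l [6, 3, 8, 2, 1], .l [10, 5, 7, 5, 1], .l [6, 3], .l [4, 1, 6, 2, 1], .l [6, 1, 8, 2, 1], .l [8, 10, 3, 5, 9, 6, 0, 2, 5], .l [6, 1], .y [4], .c, .l [7, 2, 7], .l [4, 6], .l [7, 2], .l [4, 9, 11, 9, 2], .l [4, 9], .l [10, 5], .l [6, 7, 0, 4, 9], .l [4, 11], .l [12, 7]]),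
([p 4 0, g, s 0 1, g, s 0 2, g, s 3 0, g, s 0 3, p 2 4, m 1 5, g, m 5 0, g], .bot 3, [.l [9, 6, 4], .r 2854 [1, 2, 3, 4] [1, 1, 1, 1, 0, 3], .r 2856 [1, 2, 4, 5] [1, 1, 4, 1, 1], .r 2855 [1, 2, 4, 5] [1, 1, 4, 1, 1]]),
([p 4 0, g, s 0 1, g, s 0 2, g, m 0 3, g, s 3 0, p 2 4, m 1 5, g, m 5 0, g], .hi 8, [.l [6, 10, 5, 10, 2, 6, 1, 8, 4, 1], .l [5, 11, 5, 4, 5], .l [7, 11, 3, 1, 4, 2, 5], .l [4, 8, 5, 8, 2, 4, 1, 6, 4, 1], .l [10, 5, 11, 3, 7, 1, 9, 5, 0, 1], .l [5, 11, 5, 4, 7], .l [7, 11, 3, 1, 6, 4, 5], .l [3, 9, 5, 4, 3], .l [10, 3, 11, 3, 9, 1, 9, 3, 0, 3], .l [9, 11, 1, 8, 1, 6, 3], .l [3, 11, 7, 6, 3], .y [6, 8], .r 2857 [1, 2, 6, 4, 5] [1, 1, 3, 1, 1, 1], .l [9, 11, 1, 8, 1, 6, 3], .l [3, 11, 7, 6, 1], .l [8, 11,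 13, 11, 0], .l [3, 9, 5, 4, 9], .l [5, 9, 3, 1, 10, 8, 3], .l [5, 10, 6, 12, 7, 2, 4, 2, 6, 1], .l [3, 9, 5, 4, 11], .l [5, 9, 3, 1, 12, 10, 3]]),
([p 4 0, g, s 0 1, g, s 0 0, s 0 2, g, s 0 3, g, s 3 0, p 2 4, m 1 5, g, m 5 0, g], .hi 4, [.l [6, 3, 11, 5, 4, 1], .l [13, 8, 10, 8, 4, 1], .l [6, 3, 11, 5, 4], .l [4, 1, 9, 5, 4, 1], .l [6, 1, 11, 5, 4, 1], .l [11, 1, 12, 3, 5, 11, 8, 0, 2, 7], .l [6, 1, 11, 5, 4], .y [4], .c, .l [11, 1, 11, 0, 4, 5], .l [11, 1, 11, 0, 4, 5], .l [7, 2, 10], .l [9, 1, 9, 0, 4, 5], .l [9, 4, 10, 7, 9, 3], .l [11, 12, 0, 4, 7], .l [9, 4, 10], .l [4, 12, 14, 12, 5], .l [4, 12, 14, 12, 5], .l [13, 8, 4], .l [9, 1, 9, 0, 4, 11], .l [9, 1, 9, 0, 4, 11], .l [15, 10, 4]]),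
([p 4 0, g, s 0 1, g, s 0 2, g, s 0 3, g, s 3 0, p 2 4, m 1 5, g, m 5 0, g], .bot 3, [.l [9, 6, 4], .r 2859 [1, 2, 3, 4, 5] [1, 1, 1, 1, 1, 1], .r 2856 [1, 2, 4, 5] [1, 1, 4, 1, 1], .r 2855 [1, 2, 4, 5] [1, 1, 4, 1, 1]]),
([p 3 0, g, s 0 1, g, s 0 2, g, s 0 0, p 2 3, m 1 4, g, m 4 0, g], .lo 6, [.l [6, 5, 6, 0, 1], .r 2850 [5, 1, 2, 3, 4] [1, 1, 1, 1, 1, 1], .l [8, 5, 8, 0, 3], .l [5, 9, 3, 2, 3], .r 2852 [1, 5, 2, 3, 4] [1, 1, 1, 1, 1, 1], .l [8, 3, 8, 0, 5], .l [5, 9, 3, 2, 5], .r 2860 [1, 2, 5, 3, 4] [1, 1, 1, 1, 1, 1], .l [3, 9, 5, 4, 1], .r 2858 [1, 2, 5, 3, 4] [1, 1, 1, 1, 1, 1], .y [6], .l [6, 9, 11, 9, 0], .l [10, 3, 4], .l [3, 7, 3, 2, 7], .l [3, 7, 3, 2, 7], .r 2851 [1, 2, 3, 4, 5] [1, 1, 1, 1, 1, 1], .l [12,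 5, 6], .l [3, 7, 3, 2, 9]]),
([p 3 0, g, s 0 1, g, s 0 2, g, p 2 3, m 1 4, g, m 4 0, g], .bot 5, [.c, .r 2861 [1, 2, 3, 4] [1, 1, 1, 1, 1], .r 1201 [3] [5, 4], .r 2849 [3] [5, 4]]),
([p 3 0, g, s 0 1, g, s 0 2, g, p 2 3, m 1 0, g], .hi 7, [.l [2, 8, 5], .l [1, 8, 6, 7], .l [2, 8], .y [2, 7], .l [4, 8, 3], .l [3, 8, 4, 7], .l [4, 8], .l [4, 6, 1], .l [6, 8, 1], .l [5, 8, 2, 7], .l [6, 8], .l [7, 4, 6, 2, 5], .l [7, 4, 6, 2, 5], .r 2862 [1, 2, 3, 4] [1, 1, 1, 1, 1]]),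
([p 5 0, g, p 2 1, g, s 1 0, g, p 0 2, s 0 3, g, s 0 4, g, s 0 0, p 3 5, m 4 6, g, m 6 0, g], .hi 11, [.l [15, 3, 14, 11, 4, 14, 9, 1, 1, 9, 4, 5], .l [8, 14, 5, 4, 5], .l [13, 10, 13, 0, 5], .l [9, 13, 7, 13, 7, 5, 10, 12, 8, 9], .l [8, 14, 5, 4, 7], .l [13, 8, 10, 6, 10], .l [9, 13, 9, 13, 5, 3, 8, 12, 8, 9], .l [8, 14, 5, 4, 9], .l [13, 6, 10, 8, 10], .l [6, 12, 5, 4, 9], .l [6, 12, 5, 4, 3], .l [15, 3, 14, 11, 6, 14, 7, 1, 1, 9, 6, 3], .l [4, 1, 5, 3, 13, 3, 5, 3, 4, 10, 6, 3], .l [6, 14, 7, 6, 3], .l [4, 1, 5, 3, 11, 3, 3, 1, 2, 8, 6, 3], .l [15, 5, 14, 9, 4, 14, 9, 1, 1, 9, 6, 1], .r 2428 [7, 5] [10, 1, 4], .l [6, 14, 7, 6, 1], .y [11], .l [11, 14, 16, 14, 0], .l [6, 12, 5, 4, 12], .l [15, 3, 6], .l [13, 3, 12, 9,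 4, 12, 7, 1, 1, 7, 4, 7], .l [6, 12, 5, 4, 14], .l [17, 5, 8]]),
([p 5 0, g, p 2 1, g, s 1 0, g, p 0 2, s 0 3, g, s 0 4, g, p 3 5, m 4 6, g, m 6 0, g], .bot 10, [.l [11, 1, 2], .r 2864 [1, 2, 3, 4, 5, 6] [1, 1, 1, 1, 1, 1, 1], .r 1201 [5] [10, 4], .r 2849 [5] [10, 4]]),
([p 4 0, g, p 1 0, g, p 0 1, s 0 2, g, s 0 3, g, p 2 4, m 3 5, g, m 5 0, g], .hi 2, [.l [4, 1, 10, 6, 8, 6, 3], .l [3, 7, 11, 2, 7, 2, 10, 5, 7, 4, 5], .l [4, 1], .r 2865 [6, 1, 2, 3, 4, 5] [1, 1, 1, 1, 1, 1, 1], .l [2, 3], .l [4, 1], .y [2, 4], .l [2, 4, 3], .l [7, 4, 4, 2, 7], .l [2, 6], .l [7, 4], .l [2, 6, 9, 2, 4, 2, 4, 3, 6, 2, 3], .l [9, 6, 6, 4, 7], .l [2, 8], .l [9, 6], .l [2, 11, 13, 11, 6], .l [2, 11], .l [12, 9], .l [14, 11, 11, 9, 3], .l [2,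 13], .l [14, 11]]),
([p 3 0, g, p 0 0, s 0 1, g, s 0 2, g, p 1 3, m 2 4, g, m 4 0, g], .hi 2, [.l [4, 1, 8, 4, 3], .r 2866 [5, 1, 2, 3, 4] [1, 1, 1, 1, 1, 1], .l [4, 1], .y [2], .c, .l [5, 2, 7], .l [2, 4], .l [5, 2], .l [5, 2, 5], .l [7, 4, 7], .l [2, 6], .l [7, 4], .l [2, 9, 11, 9, 4], .l [2, 9], .l [10, 7], .l [6, 7, 0, 2, 9], .l [2, 11], .l [12, 9]]),
([p 3 0, g, p 0 0, s 0 1, g, s 0 2, g, p 1 3, m 2 0, g], .hi 8, [.l [2, 9, 6], .l [1, 9, 7, 8], .l [2, 9], .l [1, 7, 5, 6], .l [3, 7, 3], .l [5, 9, 3], .l [4, 9, 4, 8], .l [5, 9], .y [5, 8], .l [7, 9, 1], .l [6, 9, 2, 8], .l [7, 9], .l [8, 2, 7, 5, 6], .l [8, 2, 7, 5, 6], .r 2867 [1, 2, 3, 4] [1, 1, 1, 1, 1]]),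
([p 5 0, g, m 2 1, g, s 0 2, g, m 1 0, s 0 3, g, s 0 4, g, s 0 0, p 3 5, m 4 6, g, m 6 0, g], .hi 11, [.l [15, 3, 14, 11, 4, 14, 9, 1, 1, 9, 4, 5], .l [8, 14, 5, 4, 5], .l [13, 10, 13, 0, 5], .l [9, 13, 7, 13, 7, 5, 10, 12, 8, 9], .l [8, 14, 5, 4, 7], .l [13, 8, 10, 6, 10], .l [7, 11, 7, 11, 5, 3, 8, 10, 6, 7], .l [9, 13, 9, 13, 5, 3, 8, 12, 8, 9], .l [8, 14, 5, 4, 9], .l [13, 6, 10, 8, 10], .l [6, 12, 5, 4, 3], .l [15, 3, 14, 11, 6, 14, 7, 1, 1, 9, 6, 3], .l [4, 1, 5, 3, 13, 3, 5, 3, 4, 10, 6, 3], .l [6, 14, 7, 6, 3], .l [4, 1, 5, 3, 11, 3, 3, 1, 2, 8, 6, 3], .l [15, 5, 14, 9, 4, 14, 9, 1, 1, 9, 6, 1], .r 2428 [7, 5] [10, 1, 4], .l [6, 14, 7, 6, 1], .y [11], .l [11, 14, 16, 14, 0], .l [6, 12, 5, 4, 12], .l [15, 3, 6],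 .l [13, 3, 12, 9, 4, 12, 7, 1, 1, 7, 4, 7], .l [6, 12, 5, 4, 14], .l [17, 5, 8]]),
([p 5 0, g, m 2 1, g, s 0 2, g, m 1 0, s 0 3, g, s 0 4, g, p 3 5, m 4 6, g, m 6 0, g], .bot 10, [.l [11, 1, 2], .r 2869 [1, 2, 3, 4, 5, 6] [1, 1, 1, 1, 1, 1, 1], .r 1201 [5] [10, 4], .r 2849 [5] [10, 4]]),
([p 4 0, g, m 0 1, g, m 1 0, s 0 2, g, s 0 3, g, p 2 4, m 3 5, g, m 5 0, g], .lo 2, [.l [2, 1], .l [4, 1, 10, 6, 8, 6, 3], .l [4, 1], .l [3, 7, 11, 2, 7, 2, 10, 5, 7, 4, 5], .r 2870 [1, 6, 2, 3, 4, 5] [1, 1, 1, 1, 1, 1, 1], .l [4, 1], .l [2, 3], .y [2, 4], .l [7, 4, 4, 2, 7], .l [7, 4], .l [2, 6], .l [9, 6, 6, 4, 7], .l [9, 6], .l [2, 8], .l [2, 11, 13, 11, 6], .l [12, 9], .l [2, 11], .l [2, 11], .l [14, 11, 11, 9, 3], .l [14, 11], .l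 [2, 13]]),
([p 3 0, g, m 0 0, s 0 1, g, s 0 2, g, p 1 3, m 2 4, g, m 4 0, g], .lo 2, [.l [2, 1], .l [4, 1, 8, 4, 3], .l [4, 1], .r 2871 [5, 1, 2, 3, 4] [1, 1, 1, 1, 1, 1], .y [2], .l [5, 2, 7], .l [5, 2], .l [2, 4], .l [7, 4, 7], .l [7, 4], .l [2, 6], .l [2, 9, 11, 9, 4], .l [10, 7], .l [2, 9], .l [2, 9], .l [6, 7, 0, 2, 9], .l [12, 9], .l [2, 11]]),
([p 3 0, g, m 0 0, s 0 1, g, s 0 2, g, p 1 3, m 2 0, g], .hi 8, [.l [2, 9, 6], .l [1, 9, 7, 8], .l [2, 9], .l [2, 7], .l [3, 7, 3], .l [5, 9, 3], .l [4, 9, 4, 8], .l [5, 9], .y [5, 8], .l [7, 9, 1], .l [6, 9, 2, 8], .l [7, 9], .l [8, 2, 7, 5, 6], .l [8, 2, 7, 5, 6], .r 2872 [1, 2, 3, 4] [1, 1, 1, 1, 1]]),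
([p 3 0, g, s 0 1, s 0 2, g, s 1 0, g, s 0 0, p 2 3, g], .hi 7, [.l [7, 2, 8, 3, 7, 5], .l [4, 10, 5, 4, 5], .l [9, 6, 9, 0, 5], .l [5, 2, 6, 3], .l [2, 8, 5, 4, 3], .l [7, 4, 8, 5, 7, 3], .r 2428 [4, 3] [4, 3, 1], .l [2, 10, 7, 6, 3], .l [9, 1, 9, 0, 2, 3], .r 2428 [4, 3] [6, 1, 1], .l [2, 10, 7, 6, 1], .y [7], .l [2, 4, 9, 2, 6, 5], .l [2, 8, 5, 4, 7], .l [10, 2, 5]]),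
([p 4 0, g, s 0 1, s 0 2, g, s 1 3, g, p 2 4, g, m 3 0, g], .bot 6, [.l [2, 4, 7, 2, 4, 3], .r 2874 [1, 2, 4] [1, 1, 1, 3], .r 1201 [4] [6, 3], .r 2849 [4] [6, 3]]),
([p 3 0, g, s 0 1, s 0 2, g, s 1 0, g, s 0 0, g, p 2 3, g], .bot 8, [.r 2874 [1, 2, 3] [1, 1, 1, 1], .r 2874 [1, 2, 3] [1, 1, 3, 1], .r 1201 [3] [8, 1], .r 2849 [3] [8, 1]]),
([p 5 0, g, s 0 1, s 0 2, g, s 0 3, g, s 0 4, p 2 5, m 3 6, g, m 6 0, g, s 4 0, g, s 1 0, g], .lo 3, [.y [0, 3, 8], .l [1, 11, 3, 13, 11, 2, 8, 6, 3, 2], .l [17, 12, 4, 8, 4, 10], .l [5, 9, 13, 7, 2, 12], .l [2, 11, 3, 14, 12, 4, 9, 5, 0, 5], .l [3, 9, 13, 9, 4, 12], .l [17, 14, 1, 15, 8, 13, 4, 7], .l [2, 11, 5, 1, 5, 10, 8, 3, 2, 7], .l [3, 9, 13, 11, 6, 12], .l [17, 14, 3, 15, 8, 11,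 2, 5], .l [3, 10, 2, 9, 11, 2, 7], .l [9, 3, 10, 4, 7, 2, 9, 7, 1], .l [2, 8, 5, 9, 11, 9, 12, 5, 8, 3], .l [2, 8, 5, 9, 9, 7, 10, 3, 6, 3], .l [2, 9, 3, 14, 12, 2, 7, 5, 0, 5], .l [9, 3, 12, 6, 2, 8, 3], .l [17, 14, 4, 10, 6, 4], .l [3, 7, 11, 11, 6, 10], .l [2, 9, 3, 12, 10, 2, 7, 5, 0, 7], .l [3, 7, 11, 13, 8, 12], .l [17, 14, 4, 8, 4, 8], .l [15, 12, 4, 8, 4, 8], .l [2, 9, 3, 12, 10, 2, 7, 5, 0, 9], .l [3, 7, 11, 15, 10, 7], .l [15, 12, 4, 8, 4, 12]]),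
([p 5 0, g, s 4 0, g, s 0 1, s 0 2, g, s 0 3, g, s 0 4, p 2 5, m 3 6, g, m 6 0, g, s 1 0, g], .lo 4, [.l [4, 3, 9, 5, 4], .l [6, 3, 11, 5, 4, 7], .l [6, 3, 11, 5, 4], .l [5, 12, 6, 15, 7, 13, 4, 9], .l [4, 1, 9, 5, 4, 5], .l [6, 1, 11, 5, 4, 5], .l [6, 1, 11, 5, 4], .l [5, 12, 6, 15, 5, 13, 4, 5], .l [7, 2, 10, 5, 9, 7], .l [7, 2, 10], .l [11, 12, 0, 4, 5], .l [9, 4, 10, 3, 9, 7], .l [9, 4, 10], .l [11, 12, 0, 4, 7], .l [4, 12, 14, 12, 5], .l [13, 8, 4], .l [3, 10, 6, 15, 3, 13, 4, 5], .l [3, 10, 6, 13, 1, 11, 4, 5], .l [11, 3, 14, 7, 3, 9, 4, 6, 7, 2, 7], .l [15, 10, 4], .l [3, 10, 6, 15, 1, 13, 4, 5], .y [4, 15], .l [11, 3, 14, 7, 3, 9, 4, 6, 7, 2, 7], .l [17, 12, 4], .l [9, 10, 0, 4, 14]]),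
([p 4 0, g, s 0 1, s 0 2, g, s 0 3, g, s 0 0, p 2 4, m 3 5, g, m 5 0, g, s 1 0, g], .hi 7, [.r 2878 [1, 2, 3, 6, 4, 5] [1, 1, 1, 1, 1, 1, 1], .l [4, 10, 5, 4, 5], .l [9, 6, 9, 0, 5], .l [3, 7, 5, 7, 3, 1, 8, 3, 4, 1], .l [2, 8, 5, 4, 3], .l [9, 3, 9, 0, 2, 11], .l [11, 3, 10, 7, 2, 7, 2, 9], .l [2, 10, 7, 6, 3], .l [7, 1, 7, 0, 2, 9], .l [9, 1, 9, 0, 2, 11], .r 2428 [6, 4] [6, 1, 6], .l [2, 10, 7, 6, 1], .y [7], .l [2, 8, 5, 4, 8, 10, 8, 9], .l [2, 8, 5, 4, 8], .l [11, 3, 6], .r 2877 [1, 2, 3, 6, 4, 5] [1, 1, 1, 1, 1, 1, 1], .l [2, 8, 5, 4, 10], .l [13, 5, 8], .l [14, 1, 10, 4, 11, 6], .l [2, 8, 5, 4, 12], .l [15, 7, 10]])]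

def d11_1 : List (List Item × Qry × List Rf) := [
([p 4 0, g, s 0 1, s 0 2, g, s 0 3, g, p 2 4, m 3 5, g, m 5 0, g, s 1 0, g], .bot 6, [.l [7, 1, 2], .r 2879 [1, 2, 3, 4, 5] [1, 1, 1, 1, 1, 1], .r 1201 [4] [6, 6], .r 2849 [4] [6, 6]]),
([p 4 0, g, s 0 1, s 0 2, g, s 0 3, g, p 2 4, m 3 0, g, s 1 0, g], .hi 8, [.l [2, 9, 6], .l [1, 9, 7, 8], .l [2, 9], .l [2, 7, 4], .l [3, 7, 3], .l [5, 9, 3], .l [2, 11, 6, 4, 6], .l [5, 9], .y [5, 8], .l [7, 9, 1], .l [2, 11, 4, 2, 6], .l [7, 9], .l [8, 2, 7, 5, 6], .l [8, 2, 7, 5, 6], .r 2880 [1, 2, 3, 4, 5] [1, 1, 1, 1, 1, 1], .l [8, 2, 7, 5, 8], .l [8, 2, 7, 5, 8], .l [2, 9, 11, 9, 4]]),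
([p 4 0, g, s 1 0, g, s 0 1, s 0 2, g, s 0 3, g, s 0 0, p 2 4, m 3 5, g, m 5 0, g], .hi 9, [.l [6, 1, 11, 5, 4, 5], .l [6, 1, 11, 5, 4, 5], .l [11, 8, 11, 0, 5], .l [6, 3, 11, 5, 4, 7], .l [6, 12, 5, 4, 7], .l [6, 3, 11, 5, 4, 7], .l [4, 1, 10, 3, 8, 6, 2, 7, 5, 0], .l [4, 1, 9, 5, 4, 3], .l [4, 1, 11, 7, 6, 3], .l [13, 3, 12, 9, 2, 9, 4, 1], .l [4, 1, 11, 7, 6, 3], .l [4, 1, 9, 5, 4, 1], .l [4, 1, 11, 7, 6, 1], .r 2428 [6, 4] [8, 1, 4], .l [4, 1, 11, 7, 6, 1], .y [9], .l [4, 1, 9, 5, 4, 9], .l [4, 1, 9, 5, 4, 9], .l [13, 3, 6], .l [4, 1, 9, 5, 4, 11], .l [4, 1, 9, 5, 4, 11], .l [15, 5, 8]]),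
([p 4 0, g, s 1 0, g, s 0 1, s 0 2, g, s 0 3, g, p 2 4, m 3 5, g, m 5 0, g], .bot 8, [.l [9, 1, 2], .r 2882 [1, 2, 3, 4, 5] [1, 1, 1, 1, 1, 1], .r 1201 [4] [8, 4], .r 2849 [4] [8, 4]]),
([p 4 0, g, s 1 0, g, s 0 1, s 0 2, g, s 0 3, g, p 2 4, m 3 0, g], .hi 10, [.l [2, 11, 8], .l [1, 11, 9, 10], .l [2, 11], .l [4, 11, 6], .l [3, 11, 7, 10], .l [4, 11], .l [2, 3, 3, 8, 5], .l [5, 9, 3], .l [7, 11, 3], .l [6, 11, 4, 10], .l [7, 11], .y [7, 10], .l [9, 11, 1], .l [8, 11, 2, 10], .l [9, 11], .l [10, 2, 9, 7, 8], .l [10, 2, 9, 7, 8], .r 2883 [1, 2, 3, 4, 5] [1, 1, 1, 1, 1, 1]]),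
([p 6 0, g, m 0 1, g, s 1 2, s 4 3, g, p 0 4, g, s 0 5, g, s 2 0, g, p 3 6, m 5 7, g, m 7 0, g], .hi 0, [.l [2, 1, 12, 6, 11, 12, 4, 8, 1, 10, 6, 3], .l [0, 1], .l [2, 1], .l [2, 1], .l [7, 14, 15, 11, 7, 3, 5, 6, 8, 6, 6, 8, 6, 1], .l [0, 3], .l [4, 3], .l [13, 8, 13, 1, 9, 1, 9, 10, 2, 6, 1, 8, 4, 1], .l [0, 6], .l [7, 6], .y [0, 7, 5, 13], .l [13, 8, 13, 9, 7, 12, 6, 10, 1, 10, 6, 3], .l [0, 8], .l [9, 8], .r 1387 [8, 5, 6] [8, 3, 0, 3], .l [4, 12, 15, 11, 4, 11, 13, 11, 8, 7], .l [0, 10], .l [11, 10], .l [0, 12, 1, 6, 11, 12, 4, 8, 1, 10, 6, 3], .l [0, 12], .l [13, 12], .l [0, 15, 17, 15, 12], .l [0, 15], .l [16, 15], .l [11, 6, 11, 1, 14, 6, 1, 2, 4, 8, 1, 6, 2, 5], .l [0, 17], .l [18, 17]]),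
([p 5 0, g, m 0 1, g, s 1 2, s 0 3, g, s 0 4, g, s 2 0, g, p 3 5, m 4 6, g, m 6 0, g], .lo 5, [.y [0, 5, 11], .l [11, 4, 7, 12, 6, 10, 1, 10, 6, 1], .l [11, 4, 7, 12, 6, 10, 1, 10, 6, 1], .l [1, 11, 4, 10, 11, 2, 6, 1, 9, 5, 2, 1], .l [5, 14, 4, 12, 5, 2, 7, 2, 9, 7, 2, 3], .l [4, 6, 3], .l [3, 13, 9, 2, 9], .l [1, 14, 4, 1, 7, 1, 11, 7, 4, 1], .r 2885 [1, 2, 3, 7, 4, 5, 6] [1, 1, 1, 1, 1, 1, 1, 1], .l [5, 12, 13, 9, 1, 6, 8, 10, 8, 1], .l [12, 14, 8, 2, 10, 12, 8, 0, 3, 1, 2, 5], .l [4, 14, 6, 1, 6, 13, 11, 4, 3], .l [12, 14, 8, 1, 9, 13, 11, 0, 5], .l [1, 12, 4, 1, 4, 10, 8, 5, 1, 2, 0, 1], .l [10, 14, 10, 2, 10, 12, 10, 2, 5, 1, 4, 1], .l [4, 14, 6, 3, 6, 13, 11, 4, 3], .l [5, 12, 3, 9, 11, 5, 1, 2, 6, 8, 4, 5], .l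 [5, 13, 2, 11, 13, 2, 7], .l [12, 4, 13, 6, 9, 2, 12, 10, 1], .l [5, 13, 2, 11, 13, 2, 7], .l [5, 13, 2, 11, 11, 0, 5], .l [5, 15, 4, 13, 7, 1, 9, 5, 1, 5, 6, 3], .l [12, 4, 15, 8, 4, 10, 3], .l [5, 15, 4, 13, 7, 1, 9, 5, 1, 5, 6, 3]]),
([p 3 0, g, s 0 1, g, s 1 0, s 0 2, g, s 0 0, p 2 3, g], .hi 7, [.l [6, 1, 9, 3, 2, 3], .l [6, 1, 9, 3, 2, 3], .l [9, 6, 9, 0, 3], .l [4, 1, 7, 3, 2, 3], .l [6, 3, 9, 3, 2, 5], .l [6, 10, 3, 2, 5], .l [6, 3, 9, 3, 2, 5], .l [4, 1, 7, 3, 2, 1], .l [4, 1, 9, 5, 4, 1], .r 2428 [4, 3] [6, 1, 1], .l [4, 1, 9, 5, 4, 1], .y [7], .l [4, 1, 7, 3, 2, 5], .l [4, 1, 7, 3, 2, 5], .l [10, 2, 3]]),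
([p 3 0, g, s 0 1, g, s 1 0, s 0 2, g, p 2 3, g], .bot 6, [.c, .r 2887 [1, 2, 3] [1, 1, 1, 1], .r 1201 [3] [6, 1], .r 2849 [3] [6, 1]]),
([p 4 0, g, s 0 1, s 0 2, g, s 0 3, g, s 1 0, g, p 2 4, m 3 5, g, m 5 0, g], .lo 2, [.l [2, 1, 8, 6, 5], .r 2888 [6, 2, 4] [1, 1, 5, 4], .l [4, 1, 10, 6, 5], .r 2886 [6, 1, 2, 3, 4, 5] [1, 1, 1, 1, 1, 1, 1], .l [4, 12, 4, 1, 7, 10, 5, 7, 4, 5], .l [5, 2, 9], .l [10, 11, 0, 2, 3], .l [7, 4, 9, 10, 2, 8, 3, 8, 2, 5], .l [7, 4, 9], .l [10, 11, 0, 2, 5], .y [2, 7], .l [7, 4, 9, 10, 2, 8, 3, 8, 2, 5], .l [9, 6, 9], .l [10, 11, 0, 2, 7], .l [2, 11, 13, 11, 6], .l [12, 9, 5], .l [2, 11, 13, 11, 6], .l [2, 11, 11, 9, 6], .l [7, 4, 7, 8, 2, 10, 5, 1, 6, 3], .l [14, 11, 5], .l [8, 9, 0, 2, 11]]),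
([p 4 0, g, s 0 1, s 0 2, g, s 0 3, g, s 1 0, g, p 2 4, m 3 0, g], .hi 10, [.l [2, 11, 8], .l [1, 11, 9, 10], .l [2, 11], .l [2, 9, 6], .l [3, 9, 5], .l [5, 11, 5], .l [4, 11, 6, 10], .l [5, 11], .y [5, 10], .l [7, 11, 3], .l [6, 11, 4, 10], .l [7, 11], .l [9, 11, 1], .l [8, 11, 2, 10], .l [9, 11], .l [10, 4, 9, 5, 8], .l [10, 4, 9, 5, 8], .r 2889 [1, 2, 3, 4, 5] [1, 1, 1, 1, 1, 1]]),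
([p 4 0, g, p 1 0, g, s 0 1, s 0 2, g, s 0 3, g, s 0 0, p 2 4, m 3 5, g, m 5 0, g], .hi 9, [.l [3, 13, 3, 11, 9, 2, 10, 8, 3, 1], .l [6, 12, 5, 4, 5], .l [11, 8, 11, 0, 5], .l [1, 13, 3, 8, 6, 2, 10, 8, 5, 3], .l [6, 12, 5, 4, 7], .l [11, 6, 11, 0, 7], .l [5, 9, 7, 9, 3, 1, 6, 8, 4, 5], .l [4, 10, 5, 4, 3], .l [1, 13, 3, 5, 3, 4, 10, 6, 3, 1], .l [1, 13, 3, 5, 3, 4, 10, 6, 3, 1], .l [4, 12, 7, 6, 3], .l [1, 11, 3, 3, 1, 2, 8, 6, 3, 1], .r 2853 [1, 2, 6, 4] [1, 1, 3, 1, 4], .r 2428 [6, 4] [8, 1, 4], .l [4, 12, 7, 6, 1], .y [9], .l [9, 12, 14, 12, 0], .l [4, 10, 5, 4, 10], .l [13, 3, 6], .l [1, 11, 3, 13, 11, 2, 8, 6, 3, 1], .l [4, 10, 5, 4, 12], .l [15, 5, 8]]),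
([p 4 0, g, p 1 0, g, s 0 1, s 0 2, g, s 0 3, g, p 2 4, m 3 5, g, m 5 0, g], .bot 8, [.l [9, 1, 2], .r 2891 [1, 2, 3, 4, 5] [1, 1, 1, 1, 1, 1], .r 1201 [4] [8, 4], .r 2849 [4] [8, 4]]),
([p 4 0, g, p 1 0, g, s 0 1, s 0 2, g, s 0 3, g, p 2 4, m 3 0, g], .hi 10, [.l [2, 11, 8], .l [1, 11, 9, 10], .l [2, 11], .l [4, 11, 6], .l [3, 11, 7, 10], .l [4, 11], .l [3, 9, 5, 8, 1, 6, 3], .l [5, 9, 3], .l [7, 11, 3], .l [6, 11, 4, 10], .l [7, 11], .y [7, 10], .l [9, 11, 1], .l [8, 11, 2, 10], .l [9, 11], .l [10, 2, 9, 7, 8], .l [10, 2, 9, 7, 8], .r 2892 [1, 2, 3, 4, 5] [1, 1, 1, 1, 1, 1]]),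
([p 3 0, g, s 0 0, s 0 1, g, s 0 2, g, p 1 3, m 2 0, g], .hi 2, [.r 2884 [4, 1, 2, 3] [1, 1, 1, 1, 1], .r 2893 [4, 1, 2, 3] [1, 1, 1, 1, 1], .l [4, 1, 8, 4, 3], .y [2], .c, .r 2876 [4, 1, 3] [1, 1, 1, 1, 2], .l [8, 9, 0, 2, 3], .l [5, 2, 7], .r 2875 [4, 1, 2, 3] [1, 1, 1, 0, 1], .r 2890 [4, 1, 2, 3] [1, 1, 1, 1, 1], .l [8, 9, 0, 2, 5], .l [7, 4, 7], .r 2881 [4, 1, 2, 3] [1, 1, 1, 1, 1], .l [6, 7, 0, 2, 7], .l [10, 7, 3]]),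
([p 3 0, g, s 0 1, g, s 0 2, g, p 1 3, m 2 0, g], .bot 1, [.r 454 [1] [3, 2], .r 2894 [1, 2, 3] [1, 1, 1, 1], .r 2868 [1, 2, 3] [1, 1, 1, 1], .r 2873 [1, 2, 3] [1, 1, 1, 1]]),
([p 4 1, s 0 2, g, s 0 3, s 0 0, g, s 2 0, g, p 0 4, m 3 5, m 5 6, g, m 6 0, g, s 1 0, g], .hi 12, [.l [0, 8, 7, 10, 10, 8, 5], .l [2, 10, 7, 12, 12, 10, 7], .l [0, 15, 12, 10, 10, 8, 5], .l [3, 13], .y [3, 9, 10, 12], .l [3, 8, 4, 10, 10, 8, 0], .l [5, 10, 4, 12, 12, 10, 2], .l [0, 15, 9, 7, 7, 5, 7], .l [6, 13], .l [7, 10, 2, 12, 12, 10, 4], .l [0, 15, 7, 5, 5, 3, 7], .l [8, 13], .l [0, 13, 5, 3, 3, 1, 5], .r 2742 [3, 4, 5, 6, 7] [2, 4, 1, 1, 3], .l [0, 13, 14, 10, 5, 13, 4, 1, 3, 6, 3], .l [12, 13], .r 2739 [1, 2, 3, 4, 5, 6, 7] [1, 1, 1, 1, 1,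 1, 1], .l [0, 11, 12, 10, 5, 13, 4, 1, 3, 6, 3], .r 2740 [1, 2, 3, 4, 5, 6, 7] [1, 1, 1, 1, 1, 1, 1], .l [0, 13, 15, 13, 13, 11, 5, 4, 7, 4], .l [14, 13, 4, 12, 5, 0, 8, 5, 9, 3, 0, 6], .l [0, 13, 15, 13, 13, 11, 5]]),
([p 4 1, s 0 2, g, s 0 3, s 2 0, g, p 0 4, m 3 5, m 5 6, g, m 6 0, g, s 1 0, g], .lo 1, [.l [0, 9, 3, 6, 8, 4, 2, 4], .l [9, 3, 6, 8, 4, 2, 5, 7, 5, 0], .l [2, 8, 5, 5, 11], .y [1, 4], .l [0, 9, 5, 6, 8, 6, 4, 1], .l [9, 5, 9, 2, 6, 10, 5, 7, 1], .l [5, 8, 2, 2, 11], .l [0, 6, 5, 8, 10, 8, 3, 4], .l [7, 3, 4, 6, 4, 6, 3, 8], .l [0, 6, 5, 8, 10, 8, 3], .l [0, 6, 5, 8, 8, 6, 3], .l [0, 7, 3, 4, 6, 4, 2, 6], .l [7, 3, 4, 6, 4, 8, 5, 8], .l [14, 13, 10], .l [12, 11, 10], .l [0, 7, 3, 4, 6, 4, 2, 8], .l [7, 3,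 4, 6, 4, 10, 7, 4], .l [12, 11, 12]]),
([p 4 1, s 0 2, g, s 0 3, g, s 2 0, g, p 0 4, m 3 5, m 5 6, g, m 6 0, g, s 1 0, g], .top 4, [.r 2897 [1, 2, 3, 4, 5, 6] [1, 1, 1, 1, 1], .r 2896 [1, 2, 3, 4, 5, 6] [1, 1, 1, 1, 1, 1], .r 2690 [1, 3, 4, 5] [2, 3, 0, 3, 1], .r 2683 [1, 3, 4] [2, 3, 4, 1]]),
([p 3 1, s 0 0, g, s 0 2, g, p 0 3, m 2 4, m 4 5, g, m 5 0, g, s 1 0, g], .hi 1, [.y [1], .r 2731 [1, 6, 2, 3, 4, 5] [1, 1, 1, 1, 1, 1], .l [2, 7, 4, 4, 10], .r 854 [6, 3] [1, 3, 7], .r 2738 [1, 6, 2, 3, 4] [1, 1, 0, 3, 1], .r 2898 [1, 6, 2, 3, 4, 5] [1, 1, 1, 1, 1, 1], .l [4, 7, 2, 2, 10], .l [8, 4, 8, 2, 6, 8, 3, 5, 1], .l [4, 5, 0, 0, 8], .l [1, 8, 10, 8, 8, 7, 3], .l [0, 5, 4, 7, 9, 7, 2], .l [6, 2, 8, 3, 9, 3, 8, 5], .r 2733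 [1, 6, 2, 3, 4, 5] [1, 1, 1, 1, 1, 1], .l [13, 12, 9], .l [6, 2, 10, 5, 0, 7, 5], .r 2735 [1, 6, 2, 3, 4, 5] [1, 1, 1, 1, 1, 1], .l [11, 10, 11], .l [6, 2, 12, 7, 0, 9, 7]]),
([p 3 1, s 0 0, g, s 0 2, g, p 0 3, m 2 0, m 0 4, g, m 4 0, g, s 1 0, g], .hi 6, [.l [0, 5, 4, 4, 8], .l [3, 7, 3], .l [0, 12, 9, 4, 9], .l [3, 7], .y [3, 6], .l [5, 7, 1], .l [0, 12, 7, 2, 9], .l [5, 7], .l [0, 10, 5, 0, 7], .r 2899 [1, 2, 3, 5, 4] [1, 1, 1, 1, 1], .l [6, 2, 5, 3, 6], .l [0, 12, 6, 2, 4, 2, 5], .r 2729 [1, 2, 3, 5, 4] [1, 1, 1, 1, 1, 1], .l [6, 2, 5, 3, 8], .l [6, 2, 5, 3, 8], .r 2730 [1, 2, 3, 5, 4] [2, 1, 1, 1, 1, 1], .l [6, 2, 5, 3, 10], .l [6, 2, 5, 3, 10], .l [0, 10, 12, 7, 4]]),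
([p 4 1, s 0 2, g, s 2 3, g, p 0 4, m 3 0, g, s 1 0, g], .hi 6, [.y [1, 3, 6], .l [3, 7, 3], .l [0, 9, 6, 4, 6], .l [3, 7], .l [5, 7, 1], .l [0, 9, 4, 2, 6], .l [5, 7], .l [0, 7, 2, 0, 4], .l [6, 2, 5, 3, 4], .l [1, 2, 5, 2, 3, 1, 2], .r 2738 [1, 2, 3, 4, 5] [1, 1, 1, 1, 1], .l [6, 2, 5, 3, 6], .l [1, 2, 5, 2, 3, 1, 4], .l [0, 7, 9, 7, 4]]),
([p 3 1, s 0 0, g, s 0 2, g, p 0 3, m 2 0, m 0 4, g, s 4 0, g, s 1 0, g], .hi 1, [.y [1], .l [13, 12, 1, 11, 5, 7, 6, 1], .l [2, 7, 4, 4, 10], .r 854 [5, 3] [1, 3, 7], .r 2901 [1, 5, 2, 3] [1, 1, 4, 1], .l [13, 12, 3, 11, 5, 9, 8, 1], .l [4, 7, 2, 2, 10], .r 854 [5, 3] [3, 1, 7], .l [4, 5, 0, 0, 8], .l [6, 2, 6, 1, 7, 3, 6, 3], .l [6, 2, 8, 3, 9, 3, 8, 5], .l [13, 12, 7], .l [6, 2,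 8, 3, 9, 3, 8, 5], .l [6, 2, 10, 5, 9, 1, 8, 1], .l [13, 12, 9], .l [6, 2, 10, 5, 9, 1, 8, 1], .l [12, 1, 10, 10, 5, 7, 6, 1], .l [11, 10, 11], .r 715 [1, 5, 3] [3, 5, 1, 1]]),
([p 3 1, s 0 0, g, s 0 2, g, p 0 3, m 2 0, m 0 0, g, s 1 0, g], .hi 7, [.l [0, 5, 4, 5, 2], .l [2, 7, 4, 7, 4], .l [0, 10, 7, 5, 2], .l [3, 8], .l [2, 5, 2, 5, 4], .l [4, 7, 2, 7, 1], .l [0, 10, 5, 3, 4], .l [5, 8], .l [0, 8, 3, 1, 2], .y [7], .r 2902 [1, 2, 3, 4] [1, 1, 1, 1, 1], .l [11, 10, 10, 5, 7, 6, 1], .r 2900 [1, 2, 3, 4] [1, 1, 1, 1, 1], .r 2728 [1, 3, 4] [4, 1, 1, 1], .l [9, 8, 8, 3, 5, 4, 7], .l [0, 8, 10, 8, 2]]),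
([p 3 1, s 0 0, g, s 0 2, g, p 0 3, m 2 0, g, s 1 0, g], .top 7, [.l [0, 6, 2], .r 2715 [1, 2, 3] [1, 1, 1, 1], .r 2727 [1, 2, 3] [1, 1, 1, 1], .r 2903 [1, 2, 3] [1, 1, 1, 1]]),
([p 3 1, g, s 0 2, g, p 0 3, m 2 0, g, s 1 0, g], .top 1, [.r 853 [2, 3] [1, 0, 3], .r 2904 [1, 2, 3] [1, 1, 1, 1], .r 334 [] [8], .r 444 [] [8]]),
([p 2 0, g, s 0 1, g, p 5 2, m 1 3, g, m 0 4, g, p 0 5, m 4 6, g, m 3 0, g, m 6 0, g], .lo 7, [.l [7, 6], .l [7, 2, 6, 4, 6, 3, 10, 4, 6, 3, 8, 4, 1], .l [9, 6], .l [7, 2, 6, 4, 6, 3, 10, 4, 6, 3, 8, 4, 1], .l [7, 4, 6, 2, 6, 1, 10, 4, 8, 5, 8, 2, 3], .l [9, 4], .l [7, 4, 6, 2, 6, 1, 10, 4, 8, 5, 8, 2, 3], .l [9, 1, 10, 5, 10, 1, 10, 6, 1], .l [9, 1], .l [0, 7, 14, 11, 3, 5, 10, 12, 8, 3], .l [0, 5,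 2, 8, 1, 9, 7, 9, 5, 6, 8, 4, 1], .l [9, 1], .l [7, 8], .l [7, 11, 15, 13, 5], .l [12, 4], .l [7, 11], .l [7, 11], .l [7, 13, 15, 11, 5], .l [14, 6], .l [7, 13], .y [7, 10, 14], .l [5, 2, 4, 2, 6, 3, 12, 10, 10, 5, 1, 4, 1], .l [16, 8], .l [7, 15]]),
([p 2 0, g, s 0 1, g, p 4 2, m 1 3, g, p 0 4, m 0 5, g, m 3 0, g, m 5 0, g], .lo 8, [.l [8, 7], .l [7, 2, 6, 4, 7, 4, 8, 1, 8, 4, 1], .l [10, 7], .l [7, 2, 6, 4, 7, 4, 8, 1, 8, 4, 1], .l [7, 4, 6, 2, 7, 2, 8, 1, 8, 2, 3], .l [10, 5], .l [7, 4, 6, 2, 7, 2, 8, 1, 8, 2, 3], .l [10, 2, 11, 6, 11, 2, 9], .l [10, 2], .r 2906 [1, 2, 3, 6, 4, 5] [1, 1, 1, 1, 1, 1, 1], .l [5, 2, 4, 2, 7, 1, 10, 8, 1], .l [10, 1], .l [8, 9], .l [8, 9], .l [4, 7, 6, 11, 3, 11, 7, 2, 7], .l [12, 3], .l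 [8, 11], .y [8, 12], .l [5, 2, 4, 2, 4, 1, 10, 5, 1, 4, 1], .l [14, 5], .l [8, 13]]),
([p 2 0, g, s 0 1, g, p 4 2, m 1 3, g, p 0 4, m 0 0, g, m 3 0, g], .hi 8, [.l [2, 9, 11, 8, 3], .l [1, 6, 4, 8], .l [2, 9], .l [2, 7, 9, 6, 1], .l [4, 9, 11, 8, 1], .l [3, 6, 2, 8], .l [4, 9], .l [5, 2, 4, 2, 6, 3, 8, 2, 5], .l [6, 9, 6, 6, 2, 7], .l [7, 9], .l [6, 7, 4, 4, 0, 5], .y [8], .l [5, 2, 4, 2, 4, 1, 8, 4, 1], .l [5, 2, 4, 2, 4, 1, 8, 4, 1], .l [0, 8, 12, 8, 3, 5, 8, 5], .l [5, 2, 4, 2, 4, 1, 6, 2, 5], .l [5, 2, 4, 2, 4, 1, 6, 2, 5], .r 2907 [1, 2, 3, 4, 5] [1, 1, 1, 1, 1, 1]]),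
([p 2 0, g, s 0 1, g, p 4 2, m 1 3, g, p 0 4, m 3 5, g, m 5 6, g, m 6 7, g, m 7 0, g], .hi 14, [.l [2, 15, 15, 13, 13, 11, 11, 9, 9, 6, 3], .l [1, 6, 4, 14], .l [2, 15], .y [2, 5, 8, 10, 12, 14], .l [4, 15, 15, 13, 13, 11, 11, 9, 9, 6, 1], .l [3, 6, 2, 14], .l [4, 15], .l [7, 15, 15, 13, 13, 11, 11, 9, 5], .l [6, 9, 6, 6, 2, 13], .l [7, 15], .l [6, 7, 4, 4, 0, 11], .l [5, 2, 4, 2, 6, 9, 7, 1, 6, 2, 7], .l [9, 12, 10, 10, 7, 9, 8, 8, 4, 9], .l [10, 15], .l [5, 2, 4, 2, 8, 11, 9, 9, 7, 1, 6, 2, 5], .l [11, 14, 12, 12, 10, 10, 7, 9, 8, 8, 4, 7], .l [12, 15], .l [5, 2, 4, 2, 10, 13, 11, 11, 9, 9, 7, 1, 6, 2, 1], .l [13, 16, 14, 14, 12, 12, 10, 10, 7, 9, 8, 8, 4, 1], .l [14, 15], .l [5, 2, 4, 2, 10, 11, 9, 9, 7, 7, 5, 1, 4,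 0, 3], .l [13, 14, 12, 12, 10, 10, 8, 8, 5, 7, 6, 6, 2, 5], .l [11, 7, 12, 4, 9, 11, 4, 2, 6, 9, 5, 2, 5]]),
([p 2 0, g, s 0 1, g, p 4 2, m 1 3, g, p 0 4, m 3 5, g, m 5 6, g, m 6 0, g], .hi 12, [.l [2, 13, 13, 11, 11, 9, 9, 6, 3], .l [1, 6, 4, 12], .l [2, 13], .y [2, 5, 8, 10, 12], .l [4, 13, 13, 11, 11, 9, 9, 6, 1], .l [3, 6, 2, 12], .l [4, 13], .l [7, 13, 13, 11, 11, 9, 5], .l [6, 9, 6, 6, 2, 11], .l [7, 13], .l [6, 7, 4, 4, 0, 9], .l [5, 2, 4, 2, 6, 9, 7, 1, 6, 2, 5], .l [9, 12, 10, 10, 7, 9, 8, 8, 4, 7], .l [10, 13], .l [5, 2, 4, 2, 8, 11, 9, 9, 7, 1, 6, 2, 1], .l [11, 14, 12, 12, 10, 10, 7, 9, 8, 8, 4, 1], .l [12, 13], .l [5, 2, 4, 2, 8, 9, 7, 7, 5, 1, 4, 0, 3], .l [11, 12, 10, 10, 8, 8, 5, 7, 6, 6, 2, 5], .r 2909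 [1, 2, 3, 4, 5, 6, 7] [1, 1, 1, 1, 1, 1, 1]]),
([p 2 0, g, s 0 1, g, p 4 2, m 1 3, g, p 0 4, m 3 5, g, m 5 0, g], .hi 10, [.l [2, 11, 11, 9, 9, 6, 3], .l [1, 6, 4, 10], .l [2, 11], .y [2, 5, 8, 10], .l [4, 11, 11, 9, 9, 6, 1], .l [3, 6, 2, 10], .l [4, 11], .l [7, 11, 11, 9, 5], .l [6, 9, 6, 6, 2, 9], .l [7, 11], .l [6, 7, 4, 4, 0, 7], .l [5, 2, 4, 2, 6, 9, 7, 1, 6, 2, 1], .l [9, 12, 10, 10, 7, 9, 8, 8, 4, 1], .l [10, 11], .l [5, 2, 4, 2, 6, 7, 5, 1, 4, 0, 3], .l [9, 10, 8, 8, 5, 7, 6, 6, 2, 5], .r 2910 [1, 2, 3, 4, 5, 6] [1, 1, 1, 1, 1, 1]]),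
([p 2 0, g, s 0 1, g, p 4 2, m 1 3, g, p 0 4, m 3 0, g], .hi 8, [.l [2, 9, 9, 6, 3], .l [1, 6, 4, 8], .l [2, 9], .y [2, 5, 8], .l [4, 9, 9, 6, 1], .l [3, 6, 2, 8], .l [4, 9], .l [5, 2, 4, 2, 6, 3, 6, 0, 3], .l [6, 9, 6, 6, 2, 7], .l [7, 9], .l [6, 7, 4, 4, 0, 5], .l [5, 2, 4, 2, 4, 1, 4, 0, 3], .l [5, 2, 4, 2, 4, 1, 4, 0, 3], .r 2911 [1, 2, 3, 4, 5] [1, 1, 1, 1, 1]]),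
([p 2 0, g, s 0 1, g, p 0 2, m 1 3, g, s 0 4, g, m 4 0, g, m 3 0, g], .hi 0, [.l [2, 1, 10, 1, 10, 6, 3], .l [0, 1], .l [2, 1], .l [2, 1, 8, 1, 8, 4, 1], .l [4, 3, 10, 1, 10, 6, 1], .l [0, 3], .l [4, 3], .y [0, 4], .l [0, 6, 12, 10, 3], .l [0, 6], .l [7, 6], .l [0, 6, 10, 8, 3], .l [0, 8, 12, 8, 3], .l [0, 8], .l [9, 8], .l [0, 10, 12, 6, 3], .l [0, 10], .l [11, 10], .r 2905 [5, 1, 2] [1, 1, 7, 1], .l [0, 12], .l [13, 12]]),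
([p 2 0, g, s 0 1, p 4 2, m 0 3, g, p 0 4, g, m 1 0, g, m 3 0, g], .lo 4, [.l [4, 3], .l [1, 10, 5, 0, 7, 5, 8, 2, 5], .l [6, 3], .l [1, 10, 5, 0, 7, 5, 8, 2, 5], .r 2599 [2, 3, 5] [2, 1, 5, 1], .l [6, 1], .l [4, 5], .l [2, 8, 3, 11, 7, 0, 7], .l [8, 3], .l [4, 7], .l [4, 7], .l [1, 10, 5, 6, 4, 9, 5, 2, 5], .l [10, 5], .l [4, 9], .y [4, 10], .l [4, 11, 7, 2, 8, 3, 1, 6, 1], .l [12, 7], .l [4, 11]]),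
([p 2 0, g, s 0 1, p 4 2, m 0 3, g, p 0 4, g, m 3 0, g, m 1 0, g], .lo 4, [.l [4, 3], .l [1, 12, 7, 0, 9, 7, 1, 6, 3], .l [6, 3], .l [1, 12, 7, 0, 9, 7, 1, 6, 3], .r 2599 [2, 3, 5] [2, 1, 3, 3], .l [6, 1], .l [4, 5], .l [2, 8, 3, 9, 5, 0, 5], .l [8, 3], .l [4, 7], .y [4, 8], .r 2665 [2, 3, 5] [2, 3, 1, 3], .l [10, 5], .l [4, 9], .l [4, 9], .r 2665 [2, 3, 5] [2, 3, 3, 1], .l [12, 7], .l [4, 11]]),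
([p 2 1, g, s 1 0, g, s 0 0, p 4 2, m 0 3, g, p 0 4, s 0 5, g, s 5 0, g, m 3 0, g], .hi 4, [.l [4, 3, 10, 13, 9, 2, 6, 9, 4, 5], .r 2428 [6, 2] [1, 3, 9], .l [8, 4, 7, 9, 4, 6, 12, 10, 1], .l [2, 1, 10, 13, 9, 4, 6, 9, 6, 1], .r 2428 [6, 2] [3, 1, 9], .l [2, 1, 10, 13, 9, 4, 6, 9, 6, 1], .y [4], .l [6, 1, 4, 7, 2, 4, 10, 8, 1], .l [4, 7, 14, 12, 0], .l [4, 7, 14, 12, 0], .l [8, 3, 6, 9, 2, 6, 12, 8, 1], .l [4, 7, 12, 10, 0], .l [4, 8, 12, 9, 0], .l [4, 10, 14, 9, 0], .l [4, 10, 14, 9, 0], .r 2914 [6, 2, 3, 4] [3, 1, 2, 3, 1], .l [4, 12, 14, 7, 0], .l [4, 12, 14, 7, 0], .r 2914 [6, 2, 3, 4] [3, 1, 4, 1, 1], .l [2, 1, 8, 11, 7, 2, 4, 7, 4, 7], .l [2, 1, 8, 11, 7, 2, 4, 7, 4, 7], .r 2915 [6, 2, 3, 4] [3, 1, 4, 1, 1]]),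
([p 2 1, g, s 1 0, g, p 4 2, m 0 3, g, p 0 4, s 0 5, g, s 5 0, g, m 3 0, g], .bot 3, [.r 1003 [1, 2] [1, 9], .r 2916 [1, 2, 3, 4, 5] [1, 1, 1, 1, 1, 1], .r 1128 [1, 2] [1, 1, 9], .r 1576 [1, 2] [1, 1, 9]]),
([p 2 0, g, s 0 1, g, p 4 2, m 1 3, g, p 0 4, s 0 5, g, s 5 0, g, m 3 0, g], .hi 0, [.r 2917 [6, 2, 3, 4, 5] [1, 3, 1, 1, 1, 1], .l [0, 1], .l [2, 1], .r 2917 [6, 2, 3, 4, 5] [1, 1, 1, 1, 1, 1], .r 2917 [6, 2, 3, 4, 5] [3, 1, 1, 1, 1, 1], .l [0, 3], .l [4, 3], .l [0, 6, 13, 11, 3], .l [0, 6], .l [7, 6], .y [0, 7, 4], .l [0, 7, 11, 8, 3], .l [0, 9, 13, 8, 3], .l [0, 9], .l [10, 9], .l [0, 11, 13, 6, 3], .l [0, 11], .l [12, 11], .r 2905 [6, 1, 2] [1, 1, 8, 1], .l [0, 13], .l [14, 13]]),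
([p 3 1, g, s 1 0, g, m 0 2, g, p 5 3, m 2 4, g, p 0 5, s 7 6, g, m 4 0, g, m 0 7, g, m 6 0, g], .lo 14, [.l [16, 13, 15, 9, 9, 6, 3], .l [16, 13], .l [4, 3, 7, 3, 14, 8, 10, 6, 3], .l [0, 1, 13, 11, 11, 7, 7, 4, 3], .l [16, 11, 15, 11, 11, 8, 3], .l [16, 11], .l [6, 16, 13, 9, 11, 8, 11, 13, 11, 7, 5, 6, 1], .l [16, 9, 11, 8, 9, 7, 3], .l [16, 9], .l [11, 16, 10, 13, 11, 15, 10, 1, 4, 8, 5], .l [16, 6, 9, 7, 3], .l [16, 6], .l [15, 16, 9, 14, 12, 12, 9, 11, 7, 2, 5], .l [18, 7, 10, 6, 1, 6, 8, 4, 1], .l [16, 3], .l [6, 18, 7, 13, 1, 15, 13, 6, 8, 6, 6, 4, 7], .l [6, 16, 5, 11, 1, 13, 11, 6, 6, 4, 4, 2, 5], .l [2, 1, 15, 1, 15, 9, 11, 8, 3, 11, 5, 7, 3], .l [16, 1], .l [10, 15, 7, 1, 3, 8, 11, 6, 3, 6, 10, 8, 5], .l [6,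 9, 8, 6, 4, 13, 1, 1, 3, 11, 7, 2, 7], .l [16, 1], .l [14, 15], .y [10, 16, 14], .l [2, 1, 9, 11, 11, 13, 9, 3, 7, 10, 5, 3, 1], .l [18, 3], .l [14, 17]]),
([p 2 1, g, s 1 0, g, p 4 2, m 0 3, g, p 0 4, s 6 5, g, m 3 0, g, m 0 6, g, m 5 0, g], .lo 5, [.l [7, 4, 6, 2, 6, 3, 8, 2, 7], .l [7, 4], .l [4, 3, 6, 10, 9, 1, 8, 4, 6, 4, 5], .l [0, 1, 4, 2, 2, 0, 2, 1, 4, 2, 3], .l [7, 2, 6, 4, 6, 1, 8, 2, 7], .l [7, 2], .r 2919 [1, 7, 2, 3, 4, 5, 6] [1, 1, 1, 1, 1, 1, 1, 1], .l [2, 1, 6, 1, 9, 7, 1], .l [7, 1], .l [5, 6], .l [10, 4, 5, 3, 10], .l [10, 4], .l [5, 9], .y [5, 10], .l [12, 6, 7, 5, 10], .l [12, 6], .l [5, 11], .l [14, 8, 9, 7, 3], .l [14, 8], .l [5, 13], .l [5, 13], .l [16, 10, 11, 9, 3], .l [16, 10], .l [5, 15]]),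
([p 2 1, s 0 0, g, s 1 0, g, p 0 2, m 0 3, g, s 5 4, g, s 0 5, g, m 3 0, g, m 4 0, g], .hi 1, [.y [1], .l [2, 12, 1, 12, 8, 4, 4, 1], .l [2, 7, 4, 4, 1], .r 578 [1, 6, 2] [1, 1, 1, 10], .l [4, 12, 1, 12, 8, 2, 2, 3], .l [3, 2, 3], .l [16, 5, 12, 13, 10, 12, 10, 3], .l [3, 2, 3], .l [3, 6, 3, 4, 10, 8, 1], .l [1, 7, 13, 11, 3], .l [0, 5, 4, 6, 12, 10, 1], .l [3, 8, 5, 6, 12, 8, 1], .l [1, 9, 13, 9, 3], .l [0, 5, 4, 8, 12, 8, 1], .l [3, 10, 7, 8, 12, 6, 1], .l [1, 9, 11, 7, 3], .l [1, 11, 13, 7, 3], .l [0, 5, 4, 10, 12, 6, 1], .l [3, 12, 9, 10, 12, 4, 1], .l [3, 2, 12, 3, 3, 12, 8, 10, 8, 1], .l [3, 2, 12], .r 852 [1, 6, 2] [1, 1, 8, 3], .l [7, 14, 5, 9, 2, 11, 6, 4, 6, 3], .l [3, 2, 14], .r 852 [1, 6, 2] [1, 1, 10, 1]]),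
([p 2 1, s 0 0, g, s 1 0, g, p 4 2, m 0 3, g, p 0 4, s 0 5, g, m 3 0, g, m 5 0, g], .lo 9, [.l [1, 8, 10, 7, 3], .l [3, 10, 12, 9, 3], .l [3, 10, 12, 9, 3], .l [5, 4, 6, 1, 3, 7, 4], .l [3, 8, 5, 7, 9, 4, 1], .l [5, 10, 12, 9, 1], .l [5, 10, 12, 9, 1], .l [3, 2, 14, 3, 9, 5, 8, 1, 4, 6, 5], .l [8, 10, 6], .l [8, 10, 6], .l [3, 2, 5, 14, 3, 6, 2, 9, 5, 8, 3], .r 2921 [1, 2, 3, 5, 6] [1, 1, 2, 1, 1, 1, 1], .l [3, 2, 10, 1, 11, 6, 1], .l [5, 15, 5, 12, 2, 12, 9, 4, 6, 4, 5], .l [5, 13, 3, 10, 2, 10, 7, 4, 4, 2, 3], .l [5, 8, 7, 12, 3, 12, 8, 2, 8], .l [5, 8, 7, 12, 3, 12, 8, 2, 8], .r 2920 [1, 2, 3, 4, 5, 6] [2, 1, 1, 1, 1, 1, 1], .y [9, 13], .l [5, 8, 7, 12, 3, 12, 8, 2, 8], .l [5, 8, 7, 12, 3, 12, 8, 2, 8], .l [3, 2, 8,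 13, 9, 1, 7, 10, 3]]),
([p 2 1, s 0 0, g, p 4 2, m 0 3, g, p 0 4, s 5 0, g, s 0 5, g, m 3 0, g, s 1 0, g], .hi 1, [.y [1], .l [15, 14, 1, 13, 9, 9, 6, 1], .l [2, 5, 2, 2, 12], .r 854 [6, 2] [1, 1, 11], .l [0, 12, 9, 0, 10, 8, 1, 8, 1], .l [1, 5, 12, 10, 1], .l [0, 3, 2, 4, 11, 9, 10], .l [0, 14, 11, 0, 12, 8, 1, 10, 3], .l [0, 3, 2, 4, 9, 7, 8], .l [1, 8, 12, 7, 1], .l [0, 3, 2, 7, 11, 6, 10], .r 853 [6, 2] [1, 5, 7], .l [1, 8, 10, 5, 1], .l [1, 10, 12, 5, 1], .l [0, 3, 2, 9, 11, 4, 10], .r 853 [6, 2] [1, 7, 5], .l [8, 13, 5, 12, 4, 8, 3, 9, 4, 7], .l [15, 14, 11], .l [8, 13, 5, 12, 4, 8, 3, 9, 4, 7], .l [14, 1, 12, 12, 9, 9, 6, 1], .l [13, 12, 13], .r 715 [1, 6, 2] [1, 9, 1, 1]]),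
([p 2 1, s 0 0, g, p 4 2, m 0 3, g, p 0 4, s 0 5, g, m 3 0, g, m 5 0, g, s 1 0, g], .lo 7, [.l [1, 6, 8, 5, 1], .l [3, 8, 10, 7, 1], .l [3, 8, 10, 7, 1], .l [0, 14, 11, 5, 7, 4, 10], .l [6, 8, 4], .l [6, 8, 4], .l [0, 14, 8, 2, 8, 3, 1, 3, 6, 0, 6], .r 2923 [1, 2, 3, 4, 6] [1, 1, 1, 1, 3, 1], .l [6, 13, 5, 6, 13, 10, 6, 10, 5], .l [15, 14, 14, 11, 11, 8, 1], .l [13, 12, 12, 9, 9, 6, 1], .l [3, 6, 5, 10, 3, 10, 6, 2, 6], .l [3, 6, 5, 10, 3, 10, 6, 2, 6], .l [15, 14, 14, 11, 11, 8, 3], .y [7, 11], .l [3, 6, 5, 10, 3, 10, 6, 2, 6], .l [3, 6, 5, 10, 3, 10, 6, 2, 6], .l [15, 14, 14, 11, 11, 8, 5], .l [13, 12, 12, 9, 9, 6, 5], .l [3, 6, 5, 10, 3, 12, 8, 2, 8], .l [0, 12, 14, 8, 10, 7, 2], .l [13, 12, 12, 9, 9, 6, 11]]),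
([p 1 0, s 0 0, g, p 3 1, m 0 2, g, p 0 3, s 0 4, g, m 2 0, g, m 4 0, g], .hi 0, [.c, .r 2922 [5, 1, 2, 3, 4] [1, 1, 1, 1, 1, 1], .l [0, 2], .l [3, 2], .l [4, 3], .l [0, 5, 10, 8, 2], .l [0, 5], .l [6, 5], .y [0, 6, 3], .l [0, 6, 8, 5, 2], .l [0, 8, 10, 5, 2], .l [0, 8], .l [9, 8], .l [0, 10, 12, 8, 10, 7, 2], .l [0, 10], .l [11, 10], .r 2924 [5, 1, 2, 3, 4] [1, 1, 1, 1, 1, 1], .l [0, 12], .l [13, 12]]),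
([p 1 0, g, p 3 1, m 0 2, g, p 0 3, s 0 4, g, m 2 0, g, m 4 0, g], .top 1, [.r 102 [1, 2, 3] [1, 2, 3], .r 2925 [1, 2, 3, 4] [1, 1, 1, 1, 1], .r 334 [] [11], .r 444 [] [11]]),
([p 2 0, g, s 0 1, g, s 0 0, p 4 2, m 1 3, g, p 0 4, s 5 0, g, m 3 0, g, s 0 5, g], .hi 4, [.l [8, 3, 7, 4, 7, 2, 3, 8, 2, 7], .l [8, 3, 7, 4, 7, 2, 3], .l [8, 3, 5, 8, 4, 6, 9, 7, 1], .l [6, 3, 5, 2, 5, 2, 3], .l [8, 5, 7, 2, 7, 4, 1, 8, 2, 7], .r 2428 [6, 2] [3, 1, 9], .l [8, 5, 7, 2, 7, 4, 1], .y [4], .l [4, 7, 12, 10, 0], .l [4, 7, 12, 10, 0], .r 2589 [6, 2, 3, 4] [3, 1, 1, 2, 3], .l [4, 7, 10, 8, 0], .l [4, 10, 12, 7, 0], .l [4, 10, 12, 7, 0], .l [1, 11, 6, 0, 8, 6, 9, 2, 6], .l [4, 12, 14, 10, 1, 12, 9, 0, 8, 5], .l [6, 3, 5, 2, 5, 2, 8], .l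 [1, 13, 8, 0, 10, 8, 1, 8, 3], .l [4, 12, 12, 8, 1, 10, 7, 0, 6, 3], .l [6, 3, 10, 2, 10, 5, 2, 5, 2, 7], .l [6, 3, 5, 2, 5, 2, 10], .l [1, 15, 10, 0, 12, 10, 1, 10, 5]]),
([p 2 0, g, s 0 1, g, p 4 2, m 1 3, g, p 0 4, s 5 0, g, m 3 0, g, s 0 5, g], .bot 3, [.r 2703 [1, 2] [1, 8], .r 2927 [1, 2, 3, 4, 5] [1, 1, 1, 1, 1, 1], .r 1201 [2] [3, 9], .r 2849 [2] [3, 9]]),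
([p 2 0, g, s 0 1, g, p 4 2, m 1 3, g, p 0 4, s 0 5, g, m 3 0, g, s 5 0, g], .lo 8, [.l [0, 7, 9, 6, 3], .l [2, 9, 11, 8, 3], .l [2, 9, 11, 8, 3], .l [6, 9, 8, 9, 11, 5, 9, 2, 3], .l [4, 9, 11, 8, 1], .l [4, 9, 11, 8, 1], .l [7, 4, 6, 2, 6, 3, 8, 2, 5], .l [7, 9, 5], .l [5, 2, 4, 2, 6, 3, 8, 2, 5], .l [6, 12, 10, 10, 7, 9, 7, 2, 5], .l [8, 13, 10, 2, 6, 9, 3, 6, 2, 3], .l [8, 13, 10, 2, 6, 9, 3, 6, 2, 3], .l [5, 2, 4, 2, 4, 1, 8, 4, 1], .l [5, 2, 4, 2, 4, 1, 6, 2, 1], .r 2928 [1, 2, 3, 4, 6] [1, 1, 1, 1, 1, 3], .l [4, 7, 6, 11, 3, 11, 7, 2, 7], .l [5, 2, 4, 2, 4, 1, 6, 2, 5], .y [8, 12], .r 2928 [1, 2, 3, 4, 6] [1, 1, 1, 1, 3, 1], .l [4, 7, 6, 11, 3, 11, 7, 2, 7], .l [5, 2, 4, 2, 4, 1, 6, 2, 7]]),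
([p 2 0, g, s 0 1, g, p 4 2, m 1 3, g, p 0 4, s 0 0, g, m 3 0, g], .hi 8, [.l [2, 9, 11, 8, 3], .l [7, 2, 4, 7, 3], .l [2, 9, 11, 8, 3], .l [2, 7, 9, 6, 1], .l [4, 9, 11, 8, 1], .l [7, 4, 6, 2, 6, 3, 8, 2, 5], .l [4, 9, 11, 8, 1], .l [7, 9, 5], .l [6, 12, 10, 10, 7, 9, 7, 2, 5], .l [5, 2, 4, 2, 6, 3, 8, 2, 5], .l [6, 10, 8, 8, 5, 7, 5, 0, 3], .y [8], .r 2918 [1, 2, 3, 4, 5] [1, 1, 1, 1, 1, 1], .l [5, 2, 4, 2, 4, 1, 8, 4, 1], .r 2913 [1, 2, 3, 5] [1, 1, 2, 1, 1, 1], .r 2929 [1, 2, 3, 4, 5] [1, 1, 1, 1, 1, 1], .l [5, 2, 4, 2, 4, 1, 6, 2, 5], .r 2926 [2, 3, 4, 5] [3, 1, 1, 1, 1]]),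
([p 2 0, g, s 0 1, g, p 4 2, m 1 3, g, p 0 4, p 5 0, g, m 3 0, g, p 6 5, g, p 7 6, g, p 0 7, g], .lo 16, [.l [0, 15], .l [2, 17, 17, 15, 15, 13, 13, 9, 11, 8, 3], .l [2, 17], .l [1, 6, 4, 16], .l [4, 17, 17, 15, 15, 13, 13, 9, 11, 8, 1], .l [4, 17], .l [3, 6, 2, 16], .l [7, 17, 17, 15, 15, 13, 13, 9, 5], .l [7, 17], .l [6, 9, 6, 6, 2, 15], .y [8, 16, 14, 12], .l [5, 2, 4, 2, 6, 9, 2, 12, 12, 10, 10, 8, 8, 6, 1], .l [10, 17], .l [9, 12, 7, 9, 8, 8, 4, 13], .l [9, 10, 5, 7, 6, 6, 2, 11], .l [5, 2, 4, 2, 8, 11, 7, 1, 8, 4, 9], .l [12, 17], .l [11, 14, 10, 12, 9, 11, 10, 10, 6, 11], .l [5, 2, 4, 2, 10, 13, 11, 11, 7, 1, 8, 4, 7], .l [14, 17], .l [13, 16, 14, 14, 10, 12, 9, 11, 10, 10, 6, 9], .l [5, 2, 4, 2, 12, 15, 13, 13,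 11, 11, 7, 1, 8, 4, 1], .l [16, 17], .l [15, 18, 16, 16, 14, 14, 10, 12, 9, 11, 10, 10, 6, 1], .l [5, 2, 4, 2, 12, 13, 11, 11, 9, 9, 5, 1, 6, 2, 5], .l [13, 9, 14, 4, 11, 13, 4, 2, 6, 11, 7, 4, 7], .l [15, 16, 14, 14, 12, 12, 8, 10, 7, 9, 8, 8, 4, 7]]),
([p 2 0, g, s 0 1, g, p 4 2, m 1 3, g, p 0 4, p 5 0, g, m 3 0, g, p 6 5, g, p 0 6, g], .lo 14, [.l [0, 13], .l [2, 15, 15, 13, 13, 9, 11, 8, 3], .l [2, 15], .l [1, 6, 4, 14], .l [4, 15, 15, 13, 13, 9, 11, 8, 1], .l [4, 15], .l [3, 6, 2, 14], .l [7, 15, 15, 13, 13, 9, 5], .l [7, 15], .l [6, 9, 6, 6, 2, 13], .y [8, 14, 12], .l [5, 2, 4, 2, 6, 9, 2, 10, 10, 8, 8, 6, 1], .l [10, 15], .l [9, 12, 7, 9, 8, 8, 4, 11], .l [9, 10, 5, 7, 6, 6, 2, 9], .l [5, 2, 4, 2, 8, 11, 7, 1, 8,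 4, 7], .l [12, 15], .l [11, 14, 10, 12, 9, 11, 10, 10, 6, 9], .l [5, 2, 4, 2, 10, 13, 11, 11, 7, 1, 8, 4, 1], .l [14, 15], .l [13, 16, 14, 14, 10, 12, 9, 11, 10, 10, 6, 1], .l [5, 2, 4, 2, 10, 11, 9, 9, 5, 1, 6, 2, 5], .r 2931 [1, 2, 3, 4, 5, 6, 7] [1, 1, 1, 1, 1, 1, 1, 1], .l [13, 14, 12, 12, 8, 10, 7, 9, 8, 8, 4, 7]]),
([p 2 0, g, s 0 1, g, p 4 2, m 1 3, g, p 0 4, p 5 0, g, m 3 0, g, p 0 5, g], .lo 12, [.l [0, 11], .l [2, 13, 13, 9, 11, 8, 3], .l [2, 13], .l [1, 6, 4, 12], .l [4, 13, 13, 9, 11, 8, 1], .l [4, 13], .l [3, 6, 2, 12], .l [7, 13, 13, 9, 5], .l [7, 13], .l [6, 9, 6, 6, 2, 11], .y [8, 12], .l [5, 2, 4, 2, 6, 9, 2, 8, 8, 6, 1], .l [10, 13], .l [9, 12, 7, 9, 8, 8, 4, 9], .l [9, 10, 5, 7, 6, 6, 2, 7], .l [5, 2,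 4, 2, 8, 11, 7, 1, 8, 4, 1], .l [12, 13], .l [11, 14, 10, 12, 9, 11, 10, 10, 6, 1], .l [5, 2, 4, 2, 8, 9, 5, 1, 6, 2, 5], .r 2932 [1, 2, 3, 4, 5, 6] [1, 1, 1, 1, 1, 1, 1], .l [11, 12, 8, 10, 7, 9, 8, 8, 4, 7]]),
([p 2 0, g, s 0 1, g, p 4 2, m 1 3, g, p 0 4, p 0 0, g, m 3 0, g], .lo 8, [.l [0, 7], .l [2, 9, 11, 8, 3], .l [2, 9], .l [1, 6, 4, 8], .l [4, 9, 11, 8, 1], .l [4, 9], .l [3, 6, 2, 8], .l [5, 2, 4, 2, 6, 3, 8, 2, 5], .l [7, 9], .l [6, 9, 6, 6, 2, 7], .y [8], .l [5, 2, 4, 2, 4, 1, 8, 4, 1], .l [0, 8, 12, 8, 3, 5, 8, 5], .l [5, 2, 4, 2, 4, 1, 8, 4, 1], .l [5, 2, 4, 2, 4, 1, 6, 2, 1], .l [5, 2, 4, 2, 4, 1, 6, 2, 5], .r 2933 [1, 2, 3, 4, 5] [1, 1, 1, 1, 1, 1], .l [5, 2, 4, 2, 4, 1, 6, 2, 5]]),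
([p 2 0, g, s 0 1, g, p 4 2, m 1 3, g, p 0 4, g, m 3 0, g], .top 8, [.r 2912 [1, 2, 3, 4] [1, 1, 1, 1], .r 2930 [1, 2, 3, 4] [1, 1, 1, 1, 1], .r 2934 [1, 2, 3, 4] [1, 1, 1, 1, 1], .r 2908 [1, 2, 3, 4] [1, 1, 1, 1, 1]]),
([p 2 0, s 0 0, g, s 0 1, g, p 4 2, m 1 3, g, m 3 0, p 0 4, g], .lo 9, [.y [0, 9, 5], .l [6, 2, 5, 3, 6, 2, 5, 3, 0], .l [8, 2, 7, 5, 8, 2, 7, 5, 2], .l [3, 10], .l [2, 7, 4, 9], .l [8, 4, 7, 3, 8, 4, 7, 3, 4], .l [5, 10], .l [4, 7, 2, 9], .l [6, 2, 5, 3, 8, 4, 7, 3, 4], .l [8, 10], .l [7, 10, 8, 10, 9, 9, 4, 3], .l [7, 8, 6, 8, 7, 7, 2, 1], .l [6, 2, 5, 3, 6, 2, 5, 3, 4], .l [6, 9, 7, 10, 2, 3, 0, 3], .l [6, 2, 5, 3, 6, 2, 5, 3, 4]]),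
([p 2 0, g, s 0 1, g, p 4 2, m 1 3, g, m 3 0, p 0 4, g], .top 1, [.r 853 [1, 2] [1, 0, 4], .r 2936 [1, 2, 3, 4] [1, 1, 1, 1], .r 334 [] [9], .r 444 [] [9]]),
([p 2 0, g, s 0 1, g, p 5 2, m 1 3, g, m 3 0, p 4 0, g, p 0 4, g, p 0 5, g], .hi 8, [.l [7, 2, 9, 4, 1, 5, 2], .l [7, 2, 9, 4, 1, 5, 2], .l [10, 7], .l [5, 2, 7, 4, 1, 3, 0], .l [10, 5, 2, 5, 9, 7, 2], .l [7, 10, 6, 11, 2, 5, 2, 5], .l [10, 5], .l [5, 2, 9, 2, 11, 3, 6, 2, 6], .l [14, 5, 10, 4, 1, 6, 11, 7, 2, 7], .l [10, 2], .l [10, 1, 13, 7, 8, 9, 8, 3, 1, 6, 1], .l [8, 9], .l [10, 1], .y [8, 10], .l [5, 2, 7, 9, 6, 2, 4, 6, 1], .l [8, 11], .l [12, 3], .l [8, 11], .l [5, 2, 7, 11, 8, 2, 4, 8, 3], .l [8, 13], .l [14, 5]]),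
([p 2 0, g, s 0 1, g, p 4 2, m 1 3, g, m 3 0, p 0 0, g, p 0 4, g], .lo 8, [.l [0, 7], .l [7, 2, 6, 4, 9, 4, 8, 6, 3], .l [2, 9], .l [1, 6, 4, 8], .l [7, 4, 6, 2, 9, 6, 8, 4, 5], .l [4, 9], .l [3, 6, 2, 8], .l [5, 2, 4, 2, 9, 6, 8, 4, 5], .l [7, 9], .l [6, 9, 7, 11, 10, 10, 6, 3], .l [6, 7, 5, 9, 8, 8, 4, 1], .y [8], .l [5, 2, 4, 2, 9, 6, 8, 6, 1], .r 2938 [1, 2, 3, 5, 4] [1, 1, 1, 1, 1, 1], .l [5, 2, 4, 2, 9, 6, 8, 6, 1], .l [5, 2, 4, 2, 7, 4, 6, 4, 5], .l [5, 10, 8, 11, 2, 5, 2, 5], .l [5, 2, 4, 2, 7, 4, 6, 4, 5]]),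
([p 3 1, g, s 1 0, g, s 0 2, g, p 6 3, m 2 4, g, m 4 0, m 0 5, g, m 5 0, g, p 0 6, g], .lo 4, [.l [2, 5, 8, 2, 9, 5, 1, 11, 3, 9, 5, 2, 5], .l [0, 3, 8, 2, 6, 3, 6, 2, 3], .l [4, 3, 8, 2, 6, 3, 11, 6, 9, 2, 6], .l [2, 1, 6, 2, 4, 1, 9, 6, 7, 0, 4], .l [2, 1, 8, 2, 4, 1, 11, 8, 4, 5, 4, 6, 3], .l [5, 9, 2, 5, 1, 7, 4, 4, 1], .l [2, 1, 8, 2, 4, 1, 6, 4, 1], .l [3, 9, 4, 7, 1, 12, 8, 4, 5, 4, 6, 6, 1], .l [6, 1, 11, 8, 1, 4, 7, 9, 7, 4, 1], .l [3, 9, 4, 7, 1, 7, 4, 4, 1], .l [4, 8, 10, 8, 1], .l [7, 2, 8, 5, 8, 2, 3], .l [4, 8, 10, 8, 1], .y [4, 7, 9], .l [11, 16, 10, 10, 4, 7, 9, 1, 3, 8, 5], .l [7, 2, 11, 8, 3, 7, 2], .l [7, 2, 2, 9, 11, 9, 6], .l [7, 2, 2, 9, 9, 7, 6], .l [7, 2, 13, 10, 3, 9, 4], .l [7, 2, 13, 10, 3, 9,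 4], .l [3, 7, 2, 5, 1, 5, 2, 2, 7], .l [7, 2, 15, 12, 3, 11, 6], .l [7, 2, 15, 12, 3, 11, 6], .l [10, 14, 9, 10, 8, 8, 11, 8, 6, 8, 3]]),
([p 2 0, g, s 0 1, g, p 5 2, m 1 3, g, m 3 0, m 0 4, g, m 4 0, g, p 0 5, g], .hi 0, [.r 2940 [6, 1, 2, 3, 4, 5] [1, 1, 1, 1, 1, 1, 1], .l [0, 1], .l [2, 1], .r 1387 [6, 1, 2] [1, 1, 0, 8], .l [10, 6, 9, 13, 5, 6, 9, 6, 4, 6, 3], .l [0, 3], .l [4, 3], .l [0, 6, 8, 6, 3], .l [0, 6], .l [7, 6], .l [8, 7], .l [10, 9, 9, 5, 0, 6, 8, 4, 1], .l [0, 9], .l [10, 9], .r 2905 [6, 1, 2] [1, 1, 6, 3], .l [0, 11], .l [12, 11], .y [0, 12, 4], .r 2905 [6, 1, 2] [1, 1, 8, 1], .l [0, 13], .l [14, 13]]),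
([p 2 0, g, s 0 1, g, p 4 2, m 1 3, g, m 3 0, m 0 0, g, p 0 4, g], .hi 8, [.l [7, 2, 6, 4, 9, 4, 8, 6, 3], .l [1, 6, 4, 8], .l [2, 9], .l [5, 2, 2, 5, 4], .l [7, 4, 6, 2, 9, 6, 8, 4, 5], .l [3, 6, 2, 8], .l [4, 9], .l [5, 2, 4, 2, 9, 6, 8, 4, 5], .l [6, 9, 7, 11, 10, 10, 6, 3], .l [7, 9], .y [8], .l [5, 2, 4, 2, 9, 6, 8, 6, 1], .l [5, 2, 4, 2, 9, 6, 8, 6, 1], .r 2941 [1, 2, 3, 5, 4] [1, 1, 1, 1, 1, 1], .l [5, 2, 4, 2, 7, 4, 6, 4, 1], .l [5, 2, 4, 2, 7, 4, 6, 4, 5], .l [5, 2, 4, 2, 7, 4, 6, 4, 5], .l [5, 10, 8, 11, 2, 5, 2, 5]]),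
([p 2 0, g, s 0 1, g, p 6 2, m 1 3, g, m 3 0, s 5 4, g, s 4 0, g, p 0 5, g, p 0 6, g], .hi 7, [.l [2, 8, 8, 6, 3], .l [1, 6, 4, 7], .l [2, 8], .y [2, 5, 7], .l [4, 8, 8, 6, 1], .l [3, 6, 2, 7], .l [4, 8], .l [5, 2, 13, 3, 6, 1, 11, 1, 4, 2, 6, 1], .l [6, 9, 7, 15, 14, 14, 10, 1], .l [7, 8], .l [6, 16, 13, 13, 9, 2, 6, 4, 9], .l [6, 7, 5, 15, 14, 14, 10, 3], .l [5, 2, 11, 3, 13, 3, 1, 7, 0, 8, 6, 2, 5], .l [6, 16, 13, 13, 9, 4, 6, 2, 9], .l [6, 7, 5, 15, 14, 14, 10, 5], .l [5, 2, 4, 2, 13, 10, 12, 10, 1, 9, 5, 7, 5], .l [6, 7, 5, 13, 12, 12, 8, 5], .l [10, 1, 13, 10, 13, 10, 5, 6, 8, 3], .l [6, 7, 5, 15, 14, 14, 10, 7], .l [9, 14, 11, 14, 11, 11, 7, 4, 9], .l [6, 7, 5, 13, 12, 12, 8, 7], .l [5, 2, 9, 1, 2, 11, 8, 2, 8,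 3], .l [6, 7, 5, 13, 12, 12, 8, 11], .l [5, 2, 4, 2, 11, 8, 4, 1, 10, 7, 1, 6, 1]])]

def d11_2 : List (List Item × Qry × List Rf) := [
([p 2 0, s 0 0, g, s 0 1, g, p 0 2, m 1 3, g, m 3 0, s 5 4, g, p 0 5, g, s 4 0, g], .hi 1, [.y [1], .l [0, 11, 14, 11, 2, 9, 10, 2, 6, 1], .l [0, 11, 14, 11, 2, 9, 10, 2, 6, 1], .l [3, 1, 7, 2, 10, 1, 5, 6, 2, 6], .l [0, 9, 12, 9, 2, 7, 8, 2, 4, 1], .l [0, 11, 14, 11, 4, 9, 10, 4, 6, 3], .l [0, 11, 14, 11, 4, 9, 10, 4, 6, 3], .l [5, 3, 10, 12, 9, 5, 7, 8, 5, 1], .l [0, 9, 12, 9, 2, 7, 8, 2, 4, 3], .l [1, 7, 9, 7, 3], .l [1, 7, 9, 7, 3], .l [6, 2, 7, 2, 7, 2, 5], .l [6, 2, 10, 5, 0, 7, 4, 9], .l [0, 9, 14, 11, 2, 9, 10, 2, 4, 5], .l [6, 2, 10, 5, 0, 7, 4], .l [0, 9, 12, 9, 2, 7, 8, 2, 4,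 5], .l [6, 2, 12, 7, 0, 9, 6, 9], .r 454 [6] [11, 3], .l [6, 2, 12, 7, 0, 9, 6], .l [6, 2, 14, 9, 0, 11, 8, 3], .l [0, 9, 12, 9, 2, 7, 8, 2, 4, 7], .l [6, 2, 14, 9, 0, 11, 8]]),
([p 2 0, s 0 0, g, s 4 0, g, s 0 1, g, p 0 2, m 1 3, g, m 3 0, s 0 4, g], .hi 1, [.y [1], .l [0, 10, 2, 4, 10, 7, 4, 1], .l [0, 10, 2, 4, 10, 7, 4, 1], .l [3, 1, 9, 2, 4, 8, 5, 1], .l [0, 10, 2, 6, 10, 5, 2, 5], .l [4, 10, 2, 8, 9, 2, 4, 4], .l [0, 10, 2, 6, 10, 5, 2, 5], .l [4, 8, 2, 6, 7, 2, 2, 2], .l [0, 10, 4, 6, 10, 7, 4, 1], .l [0, 10, 4, 6, 10, 7, 4, 1], .l [7, 5, 9, 5, 7, 8, 5, 1], .l [0, 8, 2, 4, 8, 5, 2, 1], .l [1, 9, 11, 9, 5], .l [1, 9, 11, 9, 5], .l [8, 2, 9, 2, 9, 2, 7], .l [8, 2, 10, 3, 0, 7, 4, 1], .l [8, 2, 12, 5, 0, 9, 6, 3],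 .l [0, 8, 2, 4, 8, 5, 2, 7], .l [8, 2, 12, 5, 0, 9, 6]]),
([p 2 0, s 4 0, g, s 0 1, g, p 5 2, m 1 3, g, m 3 0, s 0 4, g, p 0 5, g], .hi 0, [.l [8, 2, 7, 5, 10, 4, 9, 7, 2, 3], .l [0, 2], .l [3, 2], .l [6, 2, 5, 3, 8, 4, 7, 5, 2, 3], .l [8, 4, 7, 3, 10, 6, 9, 5, 2, 5], .l [0, 4], .l [5, 4], .l [0, 7, 9, 7, 4], .l [0, 7], .l [8, 7], .l [6, 2, 5, 3, 8, 4, 7, 5, 2, 1], .l [6, 2, 5, 3, 10, 6, 9, 7, 4, 1], .l [0, 10], .l [11, 10], .y [0, 11, 5], .l [6, 2, 5, 3, 8, 4, 7, 5, 2, 5], .l [0, 12], .l [13, 12]]),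
([p 2 0, s 0 0, g, s 0 1, g, p 5 2, m 1 3, g, m 3 0, s 4 0, g, p 0 4, g, p 0 5, g], .hi 9, [.r 2946 [1, 2, 3, 6, 5] [1, 1, 1, 3, 1], .r 2945 [1, 2, 3, 6] [1, 1, 1, 1, 5], .l [8, 2, 7, 5, 12, 6, 11, 9, 6], .l [11, 7, 10, 6, 0, 7, 9, 4, 1], .l [6, 2, 5, 3, 10, 6, 9, 7, 6], .l [13, 1, 14, 8, 9, 5, 7, 8, 5, 1], .l [8, 4, 7, 3, 12, 8, 11, 7, 8], .l [8, 4, 12, 1, 12, 3, 7, 3, 5, 7, 1], .l [7, 15, 12, 12, 7, 2, 10], .l [7, 15, 12, 12, 7, 2, 10], .l [6, 2, 5, 3, 12, 8, 11, 7, 8], .r 2943 [1, 2, 3, 6, 4, 5] [2, 1, 1, 1, 1, 1, 1], .l [6, 2, 5, 3, 12, 8, 11, 9, 1], .l [11, 1, 14, 8, 9, 10, 9, 3, 1, 7, 1], .y [9, 11], .l [9, 12, 9, 13, 11, 6, 7, 9, 3], .l [6, 2, 5, 3, 12, 8, 11, 9, 3], .l [11, 1, 14, 8, 9, 10, 9, 3, 1, 7, 1], .l [6,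 2, 5, 3, 10, 6, 9, 7, 3], .r 2944 [1, 2, 3, 6, 4] [1, 1, 1, 1, 3, 1], .l [6, 2, 5, 3, 10, 6, 9, 7, 8], .l [0, 6, 2, 14, 5, 8, 11, 8, 3]]),
([p 2 0, g, s 0 1, g, p 5 2, m 1 3, g, m 3 0, s 4 0, g, p 0 4, g, p 0 5, g], .top 1, [.r 853 [1, 2] [1, 0, 8], .r 2947 [1, 2, 3, 4, 5] [1, 1, 1, 1, 1, 1], .r 334 [] [13], .r 444 [] [13]]),
([p 2 0, g, s 0 1, g, p 6 2, m 1 3, g, m 3 4, s 0 5, g, p 0 6, g, m 4 0, g, m 5 0, g], .lo 8, [.l [0, 7, 11, 10, 10, 8, 3], .l [2, 9, 13, 12, 12, 10, 3], .l [2, 9, 13, 12, 12, 10, 3], .l [7, 2, 6, 4, 9, 4, 8, 6, 3], .l [4, 9, 13, 12, 12, 10, 1], .l [4, 9, 13, 12, 12, 10, 1], .l [7, 4, 6, 2, 9, 6, 8, 4, 5], .l [6, 12, 9, 9, 5, 2, 7], .l [5, 2, 4, 2, 9, 6, 8, 4, 5], .l [6, 12, 9, 9, 5, 2, 7], .l [5,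 2, 4, 2, 9, 6, 8, 6, 1, 7, 1, 7, 1], .l [6, 16, 7, 3, 11, 11, 7, 2, 4, 2, 7], .l [5, 2, 4, 2, 9, 6, 8, 6, 1], .l [11, 14, 9, 12, 9, 9, 5, 2, 7], .l [1, 12, 3, 12, 7, 2, 8, 10, 8, 2, 5, 2, 1], .l [5, 2, 4, 2, 7, 4, 6, 4, 5], .l [5, 2, 4, 2, 7, 4, 6, 4, 5], .l [5, 2, 4, 2, 7, 4, 10, 7, 8, 2, 8, 6, 1], .l [5, 2, 4, 2, 7, 4, 10, 7, 8, 2, 8, 6, 1], .l [5, 2, 4, 2, 7, 4, 6, 4, 7], .y [8, 14], .l [5, 2, 7, 13, 10, 2, 8, 10, 1, 5, 1, 5, 1], .l [5, 2, 4, 2, 7, 4, 10, 7, 8, 2, 8, 6, 1], .l [5, 2, 4, 2, 7, 4, 6, 4, 9]]),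
([p 2 0, g, s 0 1, g, p 5 2, m 1 3, g, m 3 0, s 0 4, g, p 0 5, g, m 4 0, g], .hi 7, [.l [2, 8, 8, 6, 3], .l [1, 6, 4, 7], .l [2, 8], .y [2, 5, 7], .l [4, 8, 8, 6, 1], .l [3, 6, 2, 7], .l [4, 8], .l [6, 12, 9, 12, 2, 5, 2, 6, 1], .l [6, 9, 7, 11, 10, 10, 6, 1], .l [7, 8], .l [6, 10, 7, 7, 3, 0, 5], .l [6, 12, 9, 9, 5, 2, 10, 8, 5], .l [6, 7, 5, 11, 10, 10, 6, 3], .l [14, 5, 9, 5, 2, 5, 9, 7, 2], .l [6, 7, 5, 9, 8, 8, 4, 3], .l [6, 10, 7, 7, 3, 8, 10, 2, 7], .l [6, 7, 5, 9, 8, 8, 4, 7], .r 2949 [1, 2, 3, 6, 4, 5] [1, 1, 1, 1, 1, 1, 1], .l [6, 10, 7, 7, 3, 10, 3, 8, 5], .l [6, 7, 5, 9, 8, 8, 4, 9], .l [3, 12, 3, 12, 7, 7, 5, 0, 7]]),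
([p 3 0, g, s 2 1, g, s 0 2, g, p 5 3, m 1 4, g, m 4 0, s 6 0, g, p 0 5, g, s 0 6, g], .hi 10, [.l [9, 4, 11, 4, 1, 5, 2, 9], .l [9, 4, 8, 4, 11, 6, 10, 6, 3], .l [2, 11, 6, 4, 5, 4, 5], .l [6, 3, 8, 4, 6, 7, 4, 1], .l [9, 6, 8, 2, 11, 8, 10, 4, 5], .l [14, 4, 6, 1, 9, 11, 2, 4, 7], .l [4, 1, 6, 4, 4, 5, 4, 1], .l [4, 1, 11, 5, 2, 7, 11, 7, 2, 7], .l [9, 6, 8, 2, 11, 8, 10, 4, 7], .l [12, 15, 7, 1, 5, 7, 8, 4, 6, 7, 4, 1], .l [8, 14, 11, 11, 5, 2, 9], .l [8, 14, 11, 11, 5, 2, 9], .l [7, 4, 6, 2, 11, 8, 10, 4, 5], .l [4, 1, 9, 13, 10, 4, 6, 9, 6, 1], .l [7, 4, 6, 2, 11, 8, 10, 6, 1], .l [4, 1, 9, 13, 10, 4, 6, 9, 6, 1], .l [7, 4, 6, 2, 9, 6, 8, 4, 1], .l [4, 1, 9, 13, 10, 4, 8, 9, 4, 1], .l [7, 4, 6, 2, 9, 6, 8, 4, 7],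 .l [4, 1, 9, 13, 10, 4, 8, 9, 4, 1], .y [10, 14], .l [4, 1, 9, 13, 10, 4, 8, 9, 4, 1], .l [7, 4, 6, 2, 9, 6, 8, 4, 9], .l [5, 7, 13, 3, 14, 10, 7, 0, 9]]),
([p 3 0, g, s 0 1, g, s 1 2, g, p 6 3, m 2 4, g, m 4 5, g, p 0 6, g, m 5 0, g], .hi 0, [.l [3, 9, 2, 7, 1, 9, 3, 1, 2, 4, 1, 5, 3], .l [0, 1], .l [2, 1], .l [2, 1, 6, 2, 4, 1, 6, 3, 4, 0, 1], .l [0, 3, 8, 2, 6, 3, 8, 3, 1, 2, 3, 5, 3], .l [0, 3], .l [4, 3], .l [9, 4, 1, 6, 10, 5, 8, 1, 8, 3, 3, 4, 1], .l [0, 5], .l [6, 5], .l [0, 8, 10, 8, 5], .l [0, 8], .l [9, 8], .l [0, 10, 14, 12, 12, 10, 5], .l [0, 10], .l [11, 10], .y [0, 11, 6], .l [0, 12, 14, 10, 10, 8, 5], .l [0, 12], .l [13, 12], .r 2905 [7, 2, 3] [3, 1, 7, 1], .l [0, 14], .l [15, 14]]),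
([p 2 0, g, s 0 1, g, p 5 2, m 1 3, g, m 3 4, s 6 0, g, p 0 5, g, m 4 0, g, s 0 6, g], .lo 2, [.l [0, 1, 4, 2, 7, 8, 4, 7, 4, 5, 0, 2, 3], .r 2952 [7, 1, 2, 3, 4, 5] [1, 1, 1, 1, 2, 1, 3], .l [2, 3, 6, 2, 9, 10, 6, 9, 4, 7, 2, 4, 5], .l [7, 2, 6, 4, 9, 4, 8, 6, 9, 5, 1, 3, 1], .r 2951 [1, 7, 2, 3, 5, 6] [1, 1, 1, 1, 1, 3, 1], .l [7, 4, 4, 2, 9, 10, 6, 9, 4, 7, 2, 4, 5], .l [7, 4, 11, 12, 8, 11, 6, 7, 5, 7, 2, 4, 5], .l [2, 6, 8, 6, 1], .l [5, 2, 6, 3, 6, 2, 3], .l [2, 6, 8, 6, 1], .l [2, 7, 11, 10, 10, 8, 1], .l [2, 9, 13, 10, 10, 8, 1], .l [5, 2, 9, 6, 1, 5, 2], .l [2, 9, 13, 10, 10, 8, 1], .l [2, 11, 13, 8, 8, 6, 1], .l [5, 2, 4, 2, 9, 8, 8, 4, 9, 3, 5, 1, 1], .l [2, 11, 13, 8, 8, 6, 1], .y [2, 5, 7, 12], .l [5, 2, 13,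 10, 1, 9, 6], .l [5, 2, 4, 2, 11, 10, 10, 6, 9, 1, 5, 3, 1], .l [5, 2, 9, 10, 6, 9, 4, 7, 2, 4, 7, 3, 1], .l [5, 2, 15, 12, 1, 11, 8], .l [5, 2, 4, 2, 7, 4, 6, 4, 7, 9, 5, 7, 1], .l [5, 2, 9, 10, 6, 9, 4, 7, 2, 4, 5, 1, 5]]),
([p 2 0, g, s 0 1, g, p 5 2, m 1 3, g, s 4 0, g, m 3 4, s 6 0, g, p 0 5, g, s 0 6, g], .hi 7, [.l [2, 8, 8, 8, 8, 6, 3], .l [7, 2, 8, 3, 8, 2, 5], .l [2, 8, 8, 8, 8, 6, 3], .y [2, 5, 9, 7], .l [4, 8, 8, 8, 8, 6, 1], .l [8, 14, 11, 12, 8, 2, 8, 5, 6, 2, 4], .l [4, 8, 8, 8, 8, 6, 1], .l [5, 2, 8, 1, 11, 4, 7, 2, 4, 7], .l [8, 14, 9, 4, 10, 5, 8, 4, 6], .l [5, 2, 8, 1, 11, 4, 7, 2, 4], .l [5, 2, 8, 1, 11, 4, 7, 2, 4, 7], .l [5, 2, 6, 8, 1, 6, 9, 4, 7, 2, 4], .l [5, 2, 8, 1, 11, 4, 7, 2, 4], .l [5, 2,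 11, 4, 11, 1, 4, 2, 6, 7], .l [7, 11, 2, 9, 11, 8, 11, 5, 2, 5], .l [5, 2, 11, 4, 11, 1, 4, 2, 6], .l [7, 11, 2, 9, 9, 6, 9, 3, 0, 3], .l [6, 12, 9, 4, 10, 5, 8, 4, 6], .l [6, 12, 9, 4, 10, 5, 8, 4, 6], .l [14, 6, 9, 4, 7, 5, 11, 6, 8, 3], .l [6, 12, 9, 4, 10, 5, 8, 4, 6], .l [6, 12, 9, 4, 12, 7, 10, 6, 8], .l [6, 12, 9, 4, 12, 7, 10, 6, 8], .l [1, 16, 8, 11, 6, 9, 5, 7, 2, 4, 6, 1]]),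
([p 2 0, g, s 0 1, g, p 5 2, m 1 3, g, m 3 4, s 6 0, g, s 4 0, g, p 0 5, g, s 0 6, g], .hi 8, [.l [7, 2, 9, 4, 1, 5, 2, 9], .l [7, 2, 6, 4, 11, 6, 10, 8, 5], .l [2, 9, 11, 10, 10, 8, 3], .l [5, 2, 4, 2, 9, 6, 8, 6, 5], .l [16, 5, 9, 5, 2, 5, 11, 9, 2, 3], .l [7, 4, 6, 2, 11, 8, 10, 6, 7], .l [4, 9, 11, 10, 10, 8, 1], .l [6, 14, 11, 11, 7, 2, 9], .l [6, 14, 11, 11, 7, 2, 9], .l [5, 2, 4, 2, 11, 8, 10, 6, 7], .l [16, 7, 11, 5, 2, 5, 11, 9, 2, 3], .l [5, 2, 4, 2, 11, 8, 10, 8, 1], .l [16, 7, 11, 5, 2, 5, 11, 9, 2, 3], .l [16, 7, 11, 5, 2, 7, 11, 7, 2, 7], .l [5, 2, 4, 2, 11, 8, 10, 8, 3], .l [6, 14, 11, 11, 7, 2, 4, 2, 7], .l [5, 2, 4, 2, 9, 6, 8, 6, 3], .l [14, 5, 9, 5, 2, 5, 9, 7, 2, 7], .l [5, 2, 4, 2, 9, 6, 8, 6, 7],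 .l [6, 12, 9, 9, 5, 2, 10, 8, 5], .y [8, 14], .l [14, 5, 9, 5, 2, 5, 9, 7, 2, 7], .l [5, 2, 4, 2, 9, 6, 8, 6, 9], .l [6, 12, 9, 9, 5, 2, 12, 10, 5]]),
([p 2 0, g, s 0 1, g, p 5 2, m 1 3, g, m 3 4, s 6 0, g, p 0 5, g, s 0 6, g, s 4 0, g], .hi 8, [.l [7, 2, 9, 4, 1, 5, 2, 7], .l [7, 2, 6, 4, 9, 4, 8, 6, 3], .l [2, 9, 15, 14, 14, 12, 3], .l [5, 2, 4, 2, 7, 4, 6, 4, 3], .l [7, 4, 13, 3, 4, 11, 6, 2, 8, 3], .l [7, 4, 6, 2, 9, 6, 8, 4, 5], .l [4, 9, 15, 14, 14, 12, 1], .l [6, 12, 9, 9, 5, 2, 7], .l [6, 12, 9, 9, 5, 2, 7], .l [5, 2, 4, 2, 9, 6, 8, 4, 5], .l [5, 2, 9, 1, 2, 11, 8, 2, 8, 1], .l [5, 2, 4, 2, 9, 6, 8, 6, 1], .l [5, 2, 9, 1, 2, 11, 8, 2, 8, 1], .l [5, 2, 4, 2, 7, 4, 6, 4, 1], .l [5, 2, 11, 3, 4, 11, 6, 2, 8, 3], .l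 [5, 2, 4, 2, 7, 4, 6, 4, 5], .l [6, 10, 7, 7, 3, 12, 5, 10, 7], .y [8, 12], .l [5, 2, 11, 3, 4, 11, 6, 2, 8, 3], .l [5, 2, 4, 2, 7, 4, 6, 4, 7], .l [6, 10, 7, 7, 3, 12, 5, 10, 5], .l [5, 2, 11, 3, 4, 9, 4, 2, 6, 7], .l [5, 2, 4, 2, 7, 4, 6, 4, 9], .l [6, 10, 7, 7, 3, 10, 12, 2, 7]]),
([p 2 0, g, s 0 1, g, p 5 2, m 1 3, g, m 3 4, s 6 0, g, p 0 5, g, s 4 0, g, s 0 6, g], .hi 8, [.l [7, 2, 9, 4, 1, 5, 2, 9], .l [7, 2, 6, 4, 9, 4, 8, 6, 3], .l [2, 9, 13, 12, 12, 10, 3], .l [5, 2, 4, 2, 7, 4, 6, 4, 3], .l [8, 12, 9, 10, 6, 8, 4, 8, 2, 5, 2, 5], .l [7, 4, 6, 2, 9, 6, 8, 4, 5], .l [4, 9, 13, 12, 12, 10, 1], .l [6, 12, 9, 9, 5, 2, 7], .l [6, 12, 9, 9, 5, 2, 7], .l [5, 2, 4, 2, 9, 6, 8, 4, 5], .l [5, 2, 9, 1, 2, 9, 6, 2, 6, 7],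 .l [5, 2, 4, 2, 9, 6, 8, 6, 1], .l [5, 2, 9, 1, 2, 9, 6, 2, 6, 7], .l [5, 2, 4, 2, 7, 4, 6, 4, 1], .l [5, 2, 11, 3, 4, 9, 4, 2, 6, 7], .l [5, 2, 4, 2, 7, 4, 6, 4, 5], .l [6, 10, 7, 7, 3, 10, 3, 8, 5], .l [8, 15, 3, 12, 8, 5, 8, 9, 6, 1], .l [5, 2, 4, 2, 7, 4, 6, 4, 7], .l [6, 10, 7, 7, 3, 8, 10, 2, 7], .y [8, 14], .l [8, 15, 3, 12, 8, 5, 8, 9, 6, 1], .l [5, 2, 4, 2, 7, 4, 6, 4, 9], .l [6, 10, 7, 7, 3, 8, 12, 4, 9]]),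
([p 2 0, g, s 0 1, g, p 4 2, m 1 3, g, m 3 0, s 5 0, g, p 0 4, g, s 0 5, g], .hi 7, [.l [2, 8, 8, 6, 3], .l [1, 6, 4, 7], .l [2, 8], .y [2, 5, 7], .l [4, 8, 8, 6, 1], .l [3, 6, 2, 7], .l [4, 8], .r 2954 [1, 2, 3, 6, 4, 5] [1, 1, 1, 1, 1, 1, 1], .l [6, 9, 7, 11, 10, 10, 6, 1], .l [7, 8], .r 2955 [1, 2, 3, 6, 4, 5] [1, 1, 1, 1, 1, 1, 1], .l [6, 7, 5, 11, 10, 10, 6, 3], .l [14, 5, 9, 5, 2, 5, 9, 7, 2], .l [6, 7, 5, 9, 8, 8, 4, 3], .r 2957 [1, 2, 3, 6, 4, 5] [1, 1, 1, 1, 1, 1, 1], .l [6, 7, 5, 9, 8, 8, 4, 7], .r 2953 [1, 2, 3, 6, 4, 5] [1, 1, 1, 1, 1, 1, 1], .l [6, 10, 7, 7, 3, 8, 8, 0, 5], .r 2956 [1, 2, 3, 6, 4, 5] [1, 1, 1, 1, 1, 1, 1], .l [6, 7, 5, 9, 8, 8, 4, 9], .l [11, 14, 9, 12, 9, 9, 5, 2, 7]]),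
([p 3 0, s 0 0, g, s 0 1, g, s 0 2, g, p 0 3, m 2 4, g, m 4 0, s 1 0, g], .hi 1, [.y [1], .l [0, 10, 2, 4, 10, 7, 4, 1], .l [0, 10, 2, 4, 10, 7, 4, 1], .l [3, 1, 9, 2, 4, 8, 5, 1], .l [0, 8, 2, 4, 8, 5, 2, 5], .l [0, 10, 2, 6, 10, 5, 2, 5], .l [4, 10, 2, 8, 9, 2, 4, 4], .l [0, 10, 2, 6, 10, 5, 2, 5], .l [4, 8, 2, 6, 7, 2, 2, 2], .l [0, 10, 4, 6, 10, 7, 4, 1], .l [0, 10, 4, 6, 10, 7, 4, 1], .l [7, 5, 9, 5, 7, 8, 5, 1], .l [0, 8, 2, 4, 8, 5, 2, 1], .l [1, 9, 11, 9, 5], .l [1, 9, 11, 9, 5], .l [8, 2, 9, 2, 9, 2, 7], .l [8, 2, 12, 5, 0, 9, 6, 3], .l [0, 8, 2, 4, 8, 5, 2, 7], .l [8, 2, 12, 5, 0, 9, 6]]),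
([p 3 0, s 0 1, g, s 0 2, g, p 5 3, m 2 4, g, m 4 0, s 1 0, g, p 0 5, g], .hi 0, [.c, .l [8, 2, 7, 5, 10, 4, 9, 7, 2, 3], .l [0, 2], .l [3, 2], .l [6, 2, 5, 3, 8, 4, 7, 5, 2, 3], .l [8, 4, 7, 3, 10, 6, 9, 5, 2, 5], .l [0, 4], .l [5, 4], .l [0, 7, 9, 7, 4], .l [0, 7], .l [8, 7], .l [6, 2, 5, 3, 10, 6, 9, 7, 4, 1], .l [0, 10], .l [11, 10], .y [0, 11, 5], .l [6, 2, 5, 3, 8, 4, 7, 5, 2, 5], .l [0, 12], .l [13, 12]]),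
([p 3 0, g, s 0 1, g, s 0 2, g, p 5 3, m 2 4, g, m 4 0, s 1 0, g, p 0 5, g], .top 1, [.r 2960 [1, 2, 3, 4, 5] [1, 1, 1, 1, 1], .r 2959 [1, 2, 3, 4] [1, 1, 1, 1, 3], .r 334 [] [13], .r 444 [] [13]]),
([p 2 0, g, s 0 1, g, p 5 2, m 1 3, g, m 3 4, s 6 0, g, p 0 5, g, m 4 0, g, p 0 6, g], .hi 8, [.l [2, 9, 13, 12, 12, 10, 3], .l [7, 2, 6, 4, 9, 4, 8, 6, 3], .l [2, 9, 13, 12, 12, 10, 3], .l [2, 7, 11, 10, 10, 8, 1], .l [4, 9, 13, 12, 12, 10, 1], .l [7, 4, 6, 2, 9, 6, 8, 4, 5], .l [4, 9, 13, 12, 12, 10, 1], .l [6, 12, 9, 9, 5, 2, 7], .l [6, 12, 9, 9, 5, 2, 7], .l [5, 2, 4, 2, 9, 6, 8, 4, 5], .l [5, 2, 4, 2, 9, 6, 8, 6, 1, 7, 1, 7, 1], .l [5, 2, 4, 2, 9, 6, 8, 6, 1], .l [6, 16, 7, 3, 11, 11, 7, 2, 4, 2, 7], .l [5, 2, 4, 2, 7,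 4, 6, 4, 1], .l [11, 14, 9, 12, 9, 9, 5, 2, 7], .l [5, 2, 4, 2, 7, 4, 6, 4, 5], .l [1, 12, 3, 12, 7, 2, 8, 10, 8, 2, 5, 2, 1], .l [5, 2, 4, 2, 7, 4, 10, 7, 8, 2, 8, 6, 1], .l [5, 2, 4, 2, 7, 4, 6, 4, 7], .l [5, 2, 4, 2, 7, 4, 10, 7, 8, 2, 8, 6, 1], .y [8, 14], .l [5, 2, 7, 13, 10, 2, 8, 10, 1, 5, 1, 5, 1], .l [5, 2, 4, 2, 7, 4, 6, 4, 9], .l [5, 2, 4, 2, 7, 4, 10, 7, 8, 2, 8, 6, 1]]),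
([p 2 0, g, s 0 1, g, p 4 2, m 1 3, g, m 3 0, s 5 0, g, p 0 4, g, p 0 5, g], .hi 7, [.l [2, 8, 8, 6, 3], .l [1, 6, 4, 7], .l [2, 8], .y [2, 5, 7], .l [4, 8, 8, 6, 1], .l [3, 6, 2, 7], .l [4, 8], .l [6, 12, 9, 12, 2, 5, 2, 6, 1], .l [6, 9, 7, 11, 10, 10, 6, 1], .l [7, 8], .l [6, 12, 9, 9, 5, 2, 10, 8, 5], .l [6, 7, 5, 11, 10, 10, 6, 3], .l [14, 5, 9, 5, 2, 5, 9, 7, 2], .l [6, 7, 5, 9, 8, 8, 4, 3], .l [6, 10, 7, 7, 3, 8, 10, 2, 7], .l [6, 7, 5, 9, 8, 8, 4, 7], .r 2962 [1, 2, 3, 6, 4, 5] [1, 1, 1, 1, 1, 1, 1], .l [6, 7, 5, 9, 8, 8, 4, 7], .l [6, 10, 7, 7, 3, 10, 3, 8, 5], .l [6, 7, 5, 9, 8, 8, 4, 9], .l [3, 12, 3, 12, 7, 7, 5, 0, 7]]),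
([p 2 0, g, s 0 1, g, p 6 2, m 1 3, g, m 3 0, s 5 4, g, s 0 5, g, m 4 0, g, p 0 6, g], .hi 7, [.l [2, 8, 8, 6, 3], .l [1, 6, 4, 7], .l [2, 8], .y [2, 5, 7], .l [4, 8, 8, 6, 1], .l [3, 6, 2, 7], .l [4, 8], .l [5, 2, 13, 3, 6, 1, 11, 1, 4, 2, 6, 1], .l [6, 9, 7, 15, 14, 14, 10, 1], .l [7, 8], .l [6, 16, 13, 13, 9, 2, 6, 4, 9], .l [6, 7, 5, 15, 14, 14, 10, 3], .l [5, 2, 11, 3, 13, 3, 1, 7, 0, 8, 6, 2, 5], .l [5, 2, 4, 2, 11, 8, 10, 8, 1, 7, 5, 5, 3], .l [6, 16, 13, 13, 9, 4, 6, 2, 9], .l [6, 7, 5, 15, 14, 14, 10, 5], .l [5, 2, 4, 2, 13, 10, 12, 10, 1, 9, 5, 7, 5], .l [10, 1, 13, 10, 13, 10, 5, 6, 8, 3], .l [6, 7, 5, 15, 14, 14, 10, 7], .l [9, 14, 11, 14, 11, 11, 7, 4, 9], .l [6, 7, 5, 13, 12, 12, 8, 7], .l [5, 2, 9, 1, 2,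 11, 8, 2, 8, 3], .l [6, 7, 5, 13, 12, 12, 8, 11], .l [5, 2, 4, 2, 11, 8, 4, 1, 10, 7, 1, 6, 1]]),
([p 2 0, g, s 0 1, g, p 7 2, m 1 3, g, m 3 4, s 6 5, g, m 4 0, g, s 5 0, g, s 0 6, g, p 0 7, g], .lo 2, [.l [0, 1, 4, 2, 5, 6, 4, 11, 8, 9, 0, 6, 3], .l [7, 2, 9, 13, 8, 1, 4, 8, 11, 4, 9, 4, 6, 3], .l [2, 3, 6, 2, 7, 8, 6, 13, 8, 11, 2, 8, 3], .l [7, 2, 9, 13, 8, 1, 4, 8, 11, 4, 9, 4, 6], .l [4, 1, 9, 13, 10, 4, 8, 9, 4, 1], .l [7, 4, 4, 2, 7, 8, 6, 13, 8, 11, 2, 8, 3], .l [7, 4, 9, 10, 8, 15, 10, 11, 9, 11, 2, 8, 3], .l [2, 6, 8, 6, 1], .l [5, 2, 6, 3, 6, 2, 3], .l [2, 6, 8, 6, 1], .l [2, 9, 11, 8, 8, 6, 1], .l [5, 2, 9, 6, 1, 5, 2], .l [2, 9, 11, 8, 8, 6, 1], .y [2, 5, 7, 10], .l [5, 2, 11, 8, 1, 7, 4], .l [5, 2, 11, 8,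 1, 7, 4], .l [5, 2, 4, 2, 15, 12, 14, 12, 7, 3, 9, 9, 3], .l [5, 2, 7, 9, 9, 4, 1, 3, 0, 5], .l [5, 2, 13, 10, 1, 9, 6], .l [5, 2, 13, 10, 1, 9, 6], .l [5, 2, 4, 2, 15, 12, 14, 12, 7, 1, 9, 9, 3], .l [5, 2, 15, 12, 1, 11, 8], .l [5, 2, 15, 12, 1, 11, 8], .l [11, 18, 10, 11, 12, 11, 6, 10, 1, 5, 3, 9, 5], .l [5, 2, 17, 14, 1, 13, 10], .l [5, 2, 17, 14, 1, 13, 10], .l [5, 2, 17, 0, 14, 1, 13, 10, 5, 11, 3, 7, 5]]),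
([p 2 0, g, s 0 1, g, p 7 2, m 1 3, g, m 3 4, s 6 5, g, s 5 0, g, s 0 6, g, p 0 7, g, m 4 0, g], .lo 12, [.l [0, 11, 15, 10, 10, 8, 3], .l [2, 13, 17, 12, 12, 10, 3], .l [2, 13, 17, 12, 12, 10, 3], .l [7, 2, 6, 4, 13, 8, 12, 10, 3, 3, 5, 9, 1], .l [4, 13, 17, 12, 12, 10, 1], .l [4, 13, 17, 12, 12, 10, 1], .l [3, 12, 1, 16, 13, 13, 11, 2, 5, 7, 3, 1, 7], .l [5, 2, 13, 6, 13, 1, 4, 2, 8, 3], .l [10, 13, 13, 2, 13, 7, 7, 3, 12, 1, 4, 2, 7], .l [5, 2, 4, 2, 13, 10, 12, 8, 3, 9, 5, 9, 5], .l [14, 3, 17, 10, 11, 13, 10, 5, 8, 9, 6, 1], .l [6, 8, 12, 14, 7, 10, 4, 12, 6, 9, 2], .l [5, 2, 4, 2, 13, 10, 12, 10, 5, 5, 1, 9, 1], .y [8, 10, 12], .l [6, 8, 12, 14, 7, 12, 6, 12, 4, 9, 4, 1], .l [6, 8, 12, 14, 7, 12, 6, 12, 4, 9, 4],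 .l [5, 2, 4, 2, 13, 10, 12, 10, 5, 5, 3, 9, 1], .l [5, 2, 11, 3, 15, 10, 11, 4, 9, 2, 4, 7], .l [5, 2, 4, 2, 13, 10, 12, 10, 3, 5, 1, 9, 1], .l [5, 2, 4, 2, 13, 10, 12, 10, 3, 3, 3, 9, 1], .l [3, 16, 3, 16, 7, 7, 5, 0, 11], .l [5, 2, 4, 2, 11, 8, 10, 8, 3, 9, 5, 9, 5], .l [5, 2, 13, 16, 8, 15, 10, 13, 2, 8, 3, 9, 5], .l [5, 2, 13, 14, 6, 13, 8, 11, 2, 8, 3, 7, 3], .l [11, 16, 11, 12, 4, 1, 7, 10, 5, 2, 4, 7], .l [5, 2, 4, 2, 11, 8, 10, 8, 3, 11, 7, 5, 1], .l [5, 2, 13, 14, 6, 13, 8, 11, 2, 8, 3, 3, 7]]),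
([p 2 0, g, s 0 1, g, p 6 2, m 1 3, g, m 3 0, s 5 4, g, s 4 0, g, s 0 5, g, p 0 6, g], .hi 7, [.l [2, 8, 8, 6, 3], .l [1, 6, 4, 7], .l [2, 8], .y [2, 5, 7], .l [4, 8, 8, 6, 1], .l [3, 6, 2, 7], .l [4, 8], .l [5, 2, 11, 1, 4, 1, 11, 3, 6, 2, 6, 1], .l [6, 9, 7, 15, 14, 14, 10, 1], .l [7, 8], .l [5, 2, 7, 11, 3, 8, 11, 6, 9, 2, 4, 5], .l [6, 7, 5, 15, 14, 14, 10, 3], .r 2965 [1, 2, 3, 7, 4, 5, 6] [1, 1, 1, 1, 1, 1, 1, 1], .l [5, 2, 7, 11, 1, 8, 11, 6, 9, 2, 4, 5], .l [6, 7, 5, 15, 14, 14, 10, 5], .l [9, 12, 9, 14, 11, 11, 7, 2, 9], .l [6, 14, 11, 11, 7, 4, 4, 0, 7], .l [5, 2, 9, 1, 2, 9, 6, 2, 6, 1], .l [6, 7, 5, 15, 14, 14, 10, 7], .l [9, 14, 11, 14, 11, 11, 7, 4, 9], .l [6, 7, 5, 13, 12, 12, 8, 7], .l [5, 2, 9, 1, 2, 11,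 8, 2, 8, 3], .l [6, 7, 5, 13, 12, 12, 8, 11], .r 2966 [1, 2, 3, 7, 4, 5, 6] [1, 1, 1, 1, 1, 1, 1, 1]]),
([p 2 0, g, s 0 1, g, p 7 2, m 1 3, g, m 3 4, s 6 5, g, m 4 0, g, s 0 6, g, s 5 0, g, p 0 7, g], .lo 2, [.l [0, 1, 4, 2, 5, 6, 4, 11, 8, 9, 0, 6, 1], .l [7, 2, 9, 11, 6, 1, 4, 6, 11, 6, 9, 2, 6, 1], .l [2, 3, 6, 2, 7, 8, 6, 13, 8, 11, 2, 8, 1], .l [7, 2, 9, 11, 6, 1, 4, 6, 11, 6, 9, 2, 6], .l [4, 1, 9, 13, 10, 4, 8, 9, 4, 1], .l [7, 4, 4, 2, 7, 8, 6, 13, 8, 11, 2, 8, 1], .l [7, 4, 9, 10, 8, 15, 10, 11, 9, 11, 2, 8, 1], .l [2, 6, 8, 6, 1], .l [5, 2, 6, 3, 6, 2, 3], .l [2, 6, 8, 6, 1], .l [2, 9, 11, 8, 8, 6, 1], .l [5, 2, 9, 6, 1, 5, 2], .l [2, 9, 11, 8, 8, 6, 1], .y [2, 5, 7, 10], .l [5, 2, 11, 8, 1, 7, 4], .l [5, 2,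 11, 8, 1, 7, 4], .l [5, 2, 4, 2, 15, 12, 14, 12, 5, 1, 9, 9, 1], .l [5, 2, 13, 10, 1, 9, 6], .l [5, 2, 13, 10, 1, 9, 6], .l [5, 2, 4, 2, 15, 12, 14, 12, 7, 1, 9, 9, 3], .l [5, 2, 7, 11, 11, 4, 1, 3, 0, 5], .l [5, 2, 15, 12, 1, 11, 8], .l [5, 2, 15, 12, 1, 11, 8], .l [11, 18, 10, 11, 12, 11, 6, 10, 1, 5, 3, 9, 5], .l [5, 2, 17, 14, 1, 13, 10], .l [5, 2, 17, 14, 1, 13, 10], .l [5, 2, 17, 0, 14, 1, 13, 10, 3, 11, 3, 9, 7]]),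
([p 2 0, g, s 0 1, g, p 7 2, m 1 3, g, m 3 4, s 6 5, g, s 0 6, g, s 5 0, g, p 0 7, g, m 4 0, g], .hi 12, [.l [2, 13, 17, 12, 12, 10, 3], .l [7, 2, 6, 4, 13, 8, 12, 10, 3, 3, 5, 9, 1], .l [2, 13, 17, 12, 12, 10, 3], .l [2, 11, 15, 10, 10, 8, 1], .l [4, 13, 17, 12, 12, 10, 1], .l [3, 12, 1, 16, 13, 13, 11, 2, 5, 7, 3, 1, 7], .l [4, 13, 17, 12, 12, 10, 1], .l [5, 2, 13, 6, 13, 1, 4, 2, 8, 1], .l [5, 2, 4, 2, 13, 10, 12, 8, 3, 9, 5, 9, 5], .l [10, 13, 13, 2, 13, 7, 7, 3, 12, 1, 4, 2, 7], .l [14, 3, 17, 10, 11, 13, 10, 5, 8, 9, 6, 1], .l [5, 2, 4, 2, 13, 10, 12, 10, 5, 5, 1, 9, 1], .l [6, 8, 12, 14, 7, 10, 4, 12, 6, 9, 2], .y [8, 12, 10], .l [6, 8, 12, 14, 7, 12, 6, 12, 4, 9, 4, 1], .l [5, 2, 4, 2, 13, 10, 12, 10, 5, 5, 3,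 9, 1], .l [6, 8, 12, 14, 7, 12, 6, 12, 4, 9, 4], .l [5, 2, 11, 3, 15, 10, 11, 4, 9, 2, 4, 7], .l [5, 2, 4, 2, 13, 10, 12, 10, 3, 3, 3, 9, 1], .l [5, 2, 4, 2, 13, 10, 12, 10, 3, 5, 1, 9, 1], .l [5, 2, 4, 2, 11, 8, 10, 8, 3, 3, 3, 7, 1], .l [3, 16, 3, 16, 7, 7, 5, 0, 11], .l [5, 2, 13, 16, 8, 15, 10, 13, 2, 8, 3, 9, 5], .l [5, 2, 4, 2, 11, 8, 10, 8, 3, 9, 5, 9, 5], .l [11, 16, 11, 12, 4, 1, 7, 10, 5, 2, 4, 7], .l [5, 2, 13, 14, 6, 13, 8, 11, 2, 8, 3, 3, 7], .l [5, 2, 4, 2, 11, 8, 10, 8, 3, 11, 7, 5, 1]]),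
([p 2 0, g, s 0 1, g, p 6 2, m 1 3, g, m 3 0, s 5 4, g, s 0 5, g, s 4 0, g, p 0 6, g], .hi 7, [.l [2, 8, 8, 6, 3], .l [1, 6, 4, 7], .l [2, 8], .y [2, 5, 7], .l [4, 8, 8, 6, 1], .l [3, 6, 2, 7], .l [4, 8], .l [5, 2, 11, 1, 4, 1, 11, 3, 6, 2, 6, 1], .l [6, 9, 7, 15, 14, 14, 10, 1], .l [7, 8], .l [5, 2, 7, 9, 1, 6, 11, 6, 9, 2, 6, 1], .l [6, 7, 5, 15, 14, 14, 10, 3], .r 2968 [1, 2, 3, 7, 4, 5, 6] [1, 1, 1, 1, 1, 1, 1, 1], .l [6, 14, 11, 11, 7, 2, 2, 0, 7], .l [5, 2, 7, 11, 1, 8, 11, 6, 9, 2, 4, 5], .l [6, 7, 5, 15, 14, 14, 10, 5], .l [9, 12, 9, 14, 11, 11, 7, 2, 9], .l [5, 2, 9, 1, 2, 9, 6, 2, 6, 1], .l [6, 7, 5, 15, 14, 14, 10, 7], .l [9, 14, 11, 14, 11, 11, 7, 4, 9], .l [6, 7, 5, 13, 12, 12, 8, 7], .l [5, 2, 9, 1, 2, 11,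 8, 2, 8, 3], .l [6, 7, 5, 13, 12, 12, 8, 11], .r 2969 [1, 2, 3, 7, 4, 5, 6] [1, 1, 1, 1, 1, 1, 1, 1]]),
([p 2 0, g, s 0 1, g, p 7 2, m 1 3, g, m 3 4, s 6 5, g, s 0 6, g, p 0 7, g, m 4 0, g, s 5 0, g], .lo 10, [.l [0, 9, 13, 10, 10, 8, 3], .l [2, 11, 15, 12, 12, 10, 3], .l [2, 11, 15, 12, 12, 10, 3], .l [7, 2, 6, 4, 11, 6, 10, 8, 1, 1, 3, 7, 1], .l [4, 11, 15, 12, 12, 10, 1], .l [4, 11, 15, 12, 12, 10, 1], .l [7, 4, 6, 2, 9, 4, 8, 6, 1, 9, 3, 5, 3], .l [5, 2, 11, 4, 11, 1, 4, 2, 6, 1], .l [10, 11, 11, 2, 11, 5, 5, 1, 10, 1, 4, 2, 7], .l [5, 2, 4, 2, 11, 8, 10, 6, 1, 7, 5, 7, 3], .l [12, 1, 15, 10, 11, 13, 10, 5, 8, 9, 6, 1], .l [6, 8, 10, 12, 7, 10, 4, 10, 4, 7, 2], .l [5, 2, 4, 2, 11, 8, 10, 8, 3, 3, 1, 7, 1], .l [5, 2,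 9, 1, 13, 10, 11, 4, 9, 2, 4, 7], .l [5, 2, 4, 2, 11, 8, 10, 8, 1, 3, 1, 7, 1], .l [5, 2, 4, 2, 11, 8, 10, 8, 1, 1, 1, 7, 1], .l [3, 14, 3, 14, 7, 7, 5, 0, 9], .l [5, 2, 4, 2, 9, 6, 8, 6, 1, 7, 5, 7, 3], .l [5, 2, 11, 14, 8, 13, 8, 11, 2, 6, 1, 7, 5], .l [5, 2, 11, 12, 6, 11, 6, 9, 2, 6, 1, 5, 3], .l [18, 9, 13, 9, 11, 7, 2, 7, 11, 7, 2, 7], .l [5, 2, 4, 2, 9, 6, 8, 6, 1, 9, 7, 5, 1], .l [5, 2, 11, 12, 6, 11, 6, 9, 2, 6, 1, 1, 5], .y [8, 16, 10], .l [16, 7, 11, 7, 9, 13, 8, 2, 6, 7, 2, 7], .l [5, 2, 4, 2, 9, 6, 8, 6, 1, 11, 9, 5, 1], .l [5, 2, 11, 12, 6, 11, 6, 9, 2, 6, 1, 1, 7]]),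
([p 2 0, g, s 0 1, g, p 6 2, m 1 3, g, m 3 0, s 5 4, g, s 0 5, g, p 0 6, g, s 4 0, g], .hi 7, [.l [2, 8, 8, 6, 3], .l [1, 6, 4, 7], .l [2, 8], .y [2, 5, 7], .l [4, 8, 8, 6, 1], .l [3, 6, 2, 7], .l [4, 8], .l [5, 2, 11, 1, 4, 1, 9, 1, 4, 2, 4, 5], .l [6, 9, 7, 13, 12, 12, 8, 1], .l [7, 8], .l [16, 7, 11, 5, 2, 7, 11, 7, 2, 7], .l [6, 7, 5, 13, 12, 12, 8, 3], .l [16, 7, 11, 5, 2, 7, 11, 7, 2], .l [6, 12, 9, 9, 5, 2, 2, 0, 5], .l [16, 7, 11, 5, 2, 5, 11, 9, 2, 3], .l [6, 7, 5, 13, 12, 12, 8, 5], .l [9, 12, 9, 12, 9, 9, 5, 2, 7], .l [6, 7, 5, 11, 10, 10, 6, 5], .l [5, 2, 9, 1, 2, 9, 6, 2, 6, 7], .l [6, 7, 5, 11, 10, 10, 6, 9], .r 2971 [1, 2, 3, 7, 4, 5, 6] [1, 1, 1, 1, 1, 1, 1, 1], .l [5, 2, 9, 1, 2, 11, 8, 2, 8, 1], .l [6,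 7, 5, 11, 10, 10, 6, 11], .l [13, 16, 9, 14, 11, 11, 7, 2, 9]]),
([p 2 0, g, s 0 1, g, p 5 2, m 1 3, g, m 3 0, s 4 0, g, s 0 4, g, p 0 5, g], .hi 8, [.l [7, 2, 9, 4, 1, 5, 2, 5], .l [7, 2, 6, 4, 11, 6, 10, 8, 5], .l [2, 9, 4, 2, 3, 2, 3], .l [5, 2, 4, 2, 9, 6, 8, 6, 5], .l [12, 1, 13, 7, 8, 4, 6, 7, 4, 1], .l [7, 4, 6, 2, 11, 8, 10, 6, 7], .l [12, 1, 13, 7, 8, 4, 6, 7, 4, 1], .l [6, 14, 11, 11, 7, 2, 9], .l [6, 14, 11, 11, 7, 2, 9], .l [5, 2, 4, 2, 11, 8, 10, 6, 7], .r 2967 [1, 2, 3, 6, 4, 5] [1, 1, 1, 1, 1, 1, 1], .l [5, 2, 4, 2, 11, 8, 10, 8, 1], .l [8, 11, 8, 12, 10, 5, 6, 8, 3], .y [8, 10], .r 2970 [1, 2, 3, 6, 4, 5] [1, 1, 1, 1, 1, 1, 1], .l [5, 2, 4, 2, 11, 8, 10, 8, 3], .r 2964 [1, 2, 3, 6, 4, 5] [1, 1, 1, 1, 1,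 1, 1], .l [5, 2, 4, 2, 9, 6, 8, 6, 3], .r 2972 [1, 2, 3, 6, 4, 5] [1, 1, 1, 1, 1, 1, 1], .l [5, 2, 4, 2, 9, 6, 8, 6, 7], .r 2950 [1, 2, 3, 6, 5] [1, 1, 1, 3, 1, 1]]),
([p 3 0, g, s 0 1, g, s 0 2, g, p 5 3, m 1 4, g, m 4 0, s 2 0, g, p 6 5, g, p 0 6, g], .lo 14, [.y [0, 14, 12, 6], .l [15, 16, 14, 14, 8, 9, 5, 7, 8, 5, 0, 1], .l [2, 15], .l [1, 8, 6, 14], .l [13, 9, 14, 4, 7, 12, 7, 2, 8], .l [4, 15], .l [3, 8, 4, 14], .l [5, 9, 5, 7, 8, 5, 2, 9], .l [6, 15], .l [5, 8, 2, 14], .l [5, 9, 14, 6, 2, 9, 0, 3], .l [9, 15], .l [8, 11, 9, 13, 12, 12, 6, 11], .l [8, 9, 7, 11, 10, 10, 4, 9], .l [7, 4, 6, 2, 9, 6, 8, 4, 7], .l [11, 14, 8, 9, 5, 7, 8, 5, 2, 7], .l [12, 15], .l [7, 4, 6, 2, 11, 8, 10, 6, 7, 5, 7, 7, 1], .l [13, 16,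 14, 14, 8, 9, 5, 7, 8, 5, 2, 1], .l [14, 15], .l [13, 16, 14, 14, 8, 8, 2, 1], .l [13, 14, 12, 12, 6, 7, 3, 5, 6, 3, 0, 5], .l [14, 6, 8, 3, 3, 1, 7, 9, 2, 4, 5, 7, 3], .l [13, 14, 12, 12, 6, 6, 0, 10]]),
([p 3 0, g, s 0 1, g, s 0 2, g, p 5 3, m 1 4, g, m 4 0, s 2 0, g, p 0 5, g], .lo 12, [.y [0, 12, 6], .l [13, 14, 8, 9, 5, 7, 8, 5, 0, 1], .l [2, 13], .l [1, 8, 6, 12], .l [13, 14, 8, 9, 3, 7, 8, 3, 0, 3], .l [4, 13], .l [3, 8, 4, 12], .l [5, 9, 5, 7, 8, 5, 2, 7], .l [6, 13], .l [5, 8, 2, 12], .l [13, 14, 6, 7, 3, 5, 8, 5, 0, 1], .l [9, 13], .l [8, 11, 9, 13, 12, 12, 6, 5], .l [8, 9, 7, 11, 10, 10, 4, 3], .l [7, 4, 6, 2, 9, 6, 8, 4, 1], .l [11, 14, 8, 9, 5, 7, 8, 5, 2, 1], .l [12, 13], .l [11, 14, 8, 8, 2, 1], .l [11,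 12, 6, 7, 3, 5, 6, 3, 0, 5], .r 2974 [1, 2, 3, 4, 5, 6] [1, 1, 1, 1, 1, 1, 1], .l [11, 12, 6, 6, 0, 10]]),
([p 2 0, g, s 0 1, g, p 4 2, m 1 3, g, m 3 0, s 0 0, g, p 0 4, g], .lo 8, [.l [0, 7, 4, 2, 3, 2, 3], .r 2961 [5, 1, 2, 3, 4] [1, 1, 1, 1, 1, 1], .l [2, 9, 4, 2, 3, 2, 3], .l [7, 2, 6, 4, 9, 4, 8, 6, 3], .r 2975 [1, 5, 2, 3, 4] [1, 1, 1, 1, 1, 1], .l [12, 4, 6, 1, 7, 9, 2, 4, 5], .l [7, 4, 6, 2, 9, 6, 8, 4, 5], .l [6, 12, 9, 9, 5, 2, 7], .l [5, 2, 4, 2, 9, 6, 8, 4, 5], .l [6, 12, 9, 9, 5, 2, 7], .l [6, 10, 7, 7, 3, 0, 5], .y [8], .r 2973 [1, 2, 3, 5, 4] [1, 1, 1, 1, 1, 1], .r 2948 [1, 2, 3, 5, 4] [1, 1, 1, 1, 1, 1], .l [5, 2, 4, 2, 9, 6, 8, 6, 1], .r 2958 [1, 2, 3, 4, 5] [1, 1, 1, 1, 1, 1], .r 2963 [1, 2, 3, 4, 5]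 [1, 1, 1, 1, 1, 1], .l [5, 2, 4, 2, 7, 4, 6, 4, 5]]),
([p 2 0, g, s 0 1, g, p 4 2, m 1 3, g, m 3 0, g, p 0 4, g], .top 8, [.r 2937 [1, 2, 3, 4] [1, 1, 1, 1], .r 2976 [1, 2, 3, 4] [1, 1, 1, 1, 1], .r 2939 [1, 2, 3, 4] [1, 1, 1, 1, 1], .r 2942 [1, 2, 3, 4] [1, 1, 1, 1, 1]]),
([p 2 0, g, m 0 1, g, p 4 2, m 1 3, g, p 0 4, m 3 5, g, m 5 0, g], .lo 7, [.y [0, 7, 4], .l [2, 8, 9, 7, 3], .l [2, 8], .l [1, 6, 4, 7], .l [4, 8, 9, 7, 1], .l [4, 8], .l [3, 6, 2, 7], .l [8, 10, 6, 6, 3, 5, 3, 4, 6, 2, 3], .l [7, 8], .l [6, 9, 6, 6, 2, 1], .l [6, 8, 6, 6, 3, 5, 3, 4, 6, 2, 3], .l [7, 1, 8, 5, 0, 5, 2, 6, 1, 6, 2, 3], .l [6, 7, 4, 4, 0, 7], .l [6, 7, 4, 4, 0, 7], .l [6, 8, 6, 6, 3, 5, 3, 6, 3, 4, 1], .l [8, 12, 10, 11, 9, 9, 6, 3, 4,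 5], .l [6, 7, 4, 4, 0, 9]]),
([p 1 0, g, p 3 1, m 0 2, g, p 0 3, m 2 4, g, m 4 0, g], .lo 3, [.l [3, 2], .r 2912 [5, 1, 2, 3] [1, 1, 1, 3], .l [5, 2], .r 2978 [5, 1, 2, 3, 4] [1, 1, 1, 1, 1], .r 2599 [1, 2, 5] [1, 1, 2, 3], .l [5, 1], .l [3, 4], .l [3, 7, 9, 7, 3], .l [8, 4], .l [3, 7], .y [3, 6, 8], .r 2665 [1, 2, 5] [1, 2, 3, 1], .l [10, 6], .l [3, 9]]),
([p 1 0, g, s 0 0, p 3 1, m 0 2, g, p 0 3, m 2 0, g], .hi 7, [.l [2, 8, 8, 5, 2], .l [1, 5, 3, 7], .l [2, 8], .l [2, 6, 6, 3, 0], .y [4, 7], .l [6, 8, 4], .l [5, 8, 5, 5, 2, 6], .l [6, 8], .l [5, 6, 3, 3, 0, 4], .r 2671 [1, 2, 3, 4] [1, 1, 1, 1], .l [6, 7, 4, 6, 5, 5, 2, 5], .r 2979 [1, 2, 3, 4] [2, 1, 1, 1]]),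
([p 1 0, g, p 3 1, m 0 2, g, p 0 3, m 2 0, g], .bot 1, [.r 102 [1, 2, 3] [1, 0, 1], .r 2980 [1, 2, 3] [1, 1, 1], .r 1201 [1] [1, 5], .r 2849 [1] [1, 5]]),
([p 1 0, g, p 3 1, m 0 2, g, p 0 3, p 4 0, g, s 0 4, g, m 2 0, g], .hi 0, [.l [2, 1, 7, 10, 6, 1, 3, 6, 3], .l [0, 1], .l [2, 1], .l [3, 2], .l [0, 4, 11, 9, 1], .l [0, 4], .l [5, 4], .y [0, 5, 2], .l [0, 7, 11, 6, 1], .l [0, 7], .l [8, 7], .l [0, 7, 7, 5, 7, 4, 1], .l [0, 9, 11, 4, 1], .l [0, 9], .l [10, 9], .l [12, 11, 11, 9, 9, 6, 1], .l [0, 11], .l [12, 11]]),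
([p 3 0, g, m 0 1, g, m 1 2, g, s 0 0, p 5 3, m 2 4, g, p 0 5, p 6 0, g, m 4 0, g, s 0 6, g], .hi 6, [.l [8, 5, 9, 13, 12, 0, 11, 6, 6, 4, 8, 6, 7], .l [8, 10, 7, 3, 7, 12, 10, 0, 9, 6, 8, 4, 7], .l [12, 15, 12, 14, 13, 5, 12, 4, 11], .l [10, 13, 10, 12, 11, 3, 3, 1, 6, 4, 6, 4, 5], .l [12, 15, 12, 14, 13, 3, 5, 3, 8, 4, 8, 6, 7], .l [9, 10, 6, 9, 3, 6, 1, 4, 10, 5, 7, 4, 7], .l [12, 15, 12, 14, 13, 3, 5, 3, 8, 4, 8, 6, 7], .l [12, 15, 12, 14, 13, 1, 10, 6, 6, 4, 8, 6, 7], .l [6, 10, 7, 1, 7, 13, 11, 2, 10, 5, 7, 4, 7], .l [12, 15, 12, 14, 13, 1, 10, 6, 6, 4, 8, 6, 7], .y [6], .l [6, 9, 14, 12, 0], .l [6, 9, 14, 12, 0], .l [10, 3, 9, 8, 10, 1, 12, 2, 11], .l [6, 9, 12, 10, 0], .l [6, 12, 14, 9, 0], .l [6, 12, 14, 9, 0],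 .l [13, 6, 8, 6, 7, 5, 12], .l [3, 4, 2, 13, 8, 0, 10, 8, 1, 8, 3], .l [5, 1, 6, 1, 12, 9, 1, 9, 4, 10, 4, 0, 5], .l [15, 8, 10, 8, 9, 7, 12], .l [6, 14, 14, 10, 12, 9, 0], .l [3, 4, 2, 15, 10, 0, 12, 10, 1, 10, 5], .l [6, 16, 8, 0, 13, 4, 0, 8, 3], .l [17, 10, 12, 10, 11, 9, 3]]),
([p 3 1, g, s 1 0, g, m 0 2, g, s 0 0, p 5 3, m 2 4, g, p 0 5, p 6 0, g, m 4 0, g, s 0 6, g], .lo 4, [.l [6, 3, 9, 13, 12, 2, 11, 6, 8, 4, 9], .l [6, 3], .l [4, 3, 9, 13, 12, 4, 6, 4, 9, 4, 6, 4, 7], .l [0, 1, 3, 1, 5, 9, 8, 2, 7, 4, 4, 2, 5], .l [6, 1, 9, 13, 12, 2, 11, 4, 8, 6, 9], .l [6, 1], .r 2983 [7, 2, 3, 4, 5, 6] [3, 1, 1, 1, 1, 1, 1], .l [4, 10, 9, 9, 3, 7, 1, 10, 6, 7, 9, 5, 2], .l [6, 1], .l [4, 5], .l [10, 13, 10, 12, 11, 1, 8, 6,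 8, 4, 7], .l [4, 9, 14, 12, 2], .l [10, 5], .l [4, 9], .l [11, 6], .l [4, 12, 14, 9, 2], .l [13, 8], .l [4, 12], .y [4, 8, 13], .l [15, 10, 10, 6, 7, 5, 12], .l [15, 10], .l [4, 14], .l [17, 12, 12, 8, 9, 7, 3], .l [17, 12], .l [4, 16]]),
([p 2 1, g, s 1 0, g, s 0 0, p 4 2, m 0 3, g, p 0 4, p 5 0, g, m 3 0, g, s 0 5, g], .lo 6, [.l [8, 5, 7, 2, 7, 4, 9, 2, 9], .l [8, 5], .l [4, 3, 7, 11, 10, 2, 9, 4, 6, 4, 7], .l [0, 1, 5, 3, 3, 0, 3, 2, 5, 2, 5], .l [8, 3, 7, 4, 7, 2, 9, 2, 9], .l [8, 3], .r 2984 [1, 6, 2, 3, 4, 5] [1, 1, 1, 1, 1, 1, 1], .l [6, 1, 5, 4, 6, 1, 8, 2, 7], .l [2, 1, 7, 1, 10, 8, 2], .l [8, 1], .l [6, 7], .l [9, 2], .l [11, 4, 5, 3, 12], .l [11, 4], .l [6, 10], .y [6, 11], .l [13, 6, 7, 5, 12], .l [13, 6],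 .l [6, 12], .l [15, 8, 9, 7, 3], .l [15, 8], .l [6, 14]]),
([p 2 1, g, s 1 0, g, p 4 2, m 0 3, g, p 0 4, p 5 0, g, m 3 0, g, s 0 5, g], .bot 3, [.l [6, 9, 6, 8, 7, 1, 6, 4, 5], .r 2985 [1, 2, 3, 4, 5] [1, 1, 1, 1, 1, 1], .r 1128 [1, 2] [1, 1, 9], .r 1576 [1, 2] [1, 1, 9]]),
([p 1 0, g, p 3 1, m 0 2, g, p 0 3, p 4 0, g, m 2 0, g, s 0 4, g], .hi 0, [.r 2986 [5, 1, 2, 3, 4] [1, 1, 1, 1, 1, 1], .l [0, 1], .l [2, 1], .l [3, 2], .l [0, 4, 9, 7, 1], .l [0, 4], .l [5, 4], .y [0, 5, 2], .l [0, 7, 9, 4, 1], .l [0, 7], .l [8, 7], .l [10, 9, 9, 7, 7, 4, 7], .l [0, 9], .l [10, 9], .l [0, 9, 9, 5, 7, 4, 1], .l [12, 11, 11, 9, 9, 6, 3], .l [0, 11], .l [12, 11]]),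
([p 3 1, s 0 0, g, s 1 0, g, m 0 2, g, p 5 3, m 2 4, g, p 0 5, p 6 0, g, m 4 0, g, p 0 6, g], .hi 1, [.y [1], .l [10, 15, 14, 14, 11, 13, 6, 11, 4, 1, 10, 2, 5], .l [2, 9, 6, 6, 3], .r 578 [1, 7, 3] [1, 1, 3, 9], .l [0, 2, 9, 13, 12, 12, 9, 11, 7, 8, 10, 4, 7], .l [3, 2, 3], .l [15, 12, 14, 11, 13, 9, 11, 10, 10, 5, 10, 2, 5], .l [5, 8, 7, 7, 3, 4, 9, 7, 1], .l [0, 2, 9, 13, 12, 12, 7, 11, 9, 6, 10, 6, 3], .l [3, 2, 5], .l [7, 10, 7, 9, 5, 6, 11, 7, 1], .l [1, 9, 14, 12, 5], .l [0, 7, 6, 8, 13, 11, 3], .l [3, 10, 7, 8, 13, 9, 3], .l [0, 7, 6, 8, 11, 9, 3], .l [1, 12, 14, 9, 5], .l [0, 7, 6, 11, 13, 8, 3], .l [3, 13, 10, 11, 13, 6, 3], .l [1, 14, 16, 12, 14, 11, 5], .l [0, 7, 6, 13, 15, 11, 13, 10, 3], .l [15, 13, 14, 8,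 10, 9, 9, 4, 11, 4, 7], .l [0, 7, 6, 13, 13, 9, 11, 8, 3], .l [0, 2, 7, 11, 10, 10, 7, 9, 7, 10, 3, 6, 3], .l [3, 2, 15], .l [8, 13, 12, 12, 9, 15, 11, 12, 5, 8, 5]]),
([p 3 1, s 0 0, g, m 0 2, g, s 1 0, g, p 5 3, m 2 4, g, p 0 5, g, p 6 0, g, m 4 0, g, p 0 6, g], .hi 1, [.y [1], .l [2, 12, 15, 12, 6, 6, 1, 9, 5, 9, 1, 9, 3], .l [2, 9, 6, 6, 1], .r 578 [1, 7, 3] [1, 3, 1, 10], .l [5, 8, 5, 5, 3, 4, 10, 8, 1], .l [7, 6, 8, 1, 8, 2, 8, 1, 10, 4, 5, 9, 5], .l [4, 9, 4, 4, 1], .l [7, 10, 5, 7, 5, 6, 12, 8, 1], .l [5, 4, 8, 3, 8, 2, 8, 3, 10, 4, 7, 9, 3], .l [5, 4, 5], .l [5, 10, 7, 4, 2, 6, 12, 10, 3], .l [1, 9, 15, 13, 5], .l [0, 7, 6, 8, 14, 12, 1], .l [5, 4, 6, 1, 6, 2, 8, 3, 10, 4, 7], .l [0, 7, 6, 8, 12, 10, 1], .l [0,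 7, 6, 10, 14, 10, 1, 9, 5, 9, 1, 9, 3], .l [0, 7, 6, 10, 14, 10, 1], .l [5, 8, 5, 11, 9, 4, 12, 10, 1], .l [0, 7, 6, 12, 16, 14, 12, 8, 1, 7, 3, 7, 1], .l [0, 7, 6, 12, 14, 8, 1], .l [5, 8, 5, 13, 11, 4, 12, 10, 1], .l [0, 7, 6, 14, 16, 12, 14, 10, 1, 9, 5, 9, 1], .l [0, 7, 6, 14, 16, 12, 14, 10, 1], .l [5, 8, 5, 15, 13, 4, 10, 8, 1], .l [0, 7, 6, 14, 14, 10, 12, 8, 1], .l [5, 4, 10, 13, 9, 1, 8, 4, 8, 1, 8, 2, 7], .l [5, 4, 16], .l [5, 8, 5, 17, 15, 4, 10, 8, 1]]),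
([p 3 1, s 0 0, g, m 0 2, g, p 5 3, m 2 4, g, p 0 5, p 6 0, g, m 4 0, g, p 0 6, g, s 1 0, g], .hi 1, [.y [1], .l [17, 16, 1, 15, 9, 11, 10, 8, 6, 8, 5, 7, 5], .l [2, 7, 4, 4, 14], .r 854 [7, 3] [1, 3, 11], .l [6, 11, 10, 10, 7, 7, 5, 10, 3, 6, 3], .l [17, 16, 3, 6, 4, 13, 9, 9, 6, 8, 5, 7, 5], .l [4, 7, 2, 2, 14], .l [8, 13, 12, 12, 7, 9, 7, 12, 3, 8, 5], .l [1, 7, 12, 10, 3], .l [0, 5, 4, 6, 11, 9, 12], .l [0, 16, 11, 0, 14, 10, 1, 12, 7], .l [0, 5, 4, 6, 9, 7, 10], .l [1, 10, 12, 7, 3], .l [0, 5, 4, 9, 11, 6, 12], .l [0, 16, 11, 0, 14, 7, 5, 10, 1, 10, 3], .l [1, 12, 14, 10, 12, 9, 3], .l [0, 5, 4, 11, 13, 9, 11, 8, 11], .l [13, 11, 12, 8, 10, 9, 9, 4, 9, 2, 5], .l [0, 5, 4, 11, 11, 7, 9, 6, 9], .l [0, 16, 11, 0, 14,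 3, 1, 10, 1, 10, 5, 7, 5], .l [17, 16, 13], .l [0, 16, 11, 0, 14, 3, 1, 10, 1, 10, 5], .l [0, 14, 9, 0, 12, 13, 11, 8, 1, 8, 3, 5, 3], .l [15, 14, 15], .l [6, 11, 10, 10, 7, 15, 13, 10, 3, 6, 3]]),
([p 2 0, s 0 0, g, m 0 1, g, p 4 2, m 1 3, g, p 0 4, p 5 0, g, m 3 0, g, p 0 5, g], .hi 0, [.c, .r 2988 [6, 1, 2, 3, 4, 5] [1, 1, 1, 1, 1, 1, 1], .l [0, 2], .l [3, 2], .l [3, 2], .r 2989 [6, 1, 2, 3, 4, 5] [1, 1, 1, 1, 0, 1, 1, 1], .l [0, 4], .l [5, 4], .l [0, 7, 12, 10, 4], .l [0, 7], .l [8, 7], .y [0, 8, 5], .l [0, 10, 12, 7, 4], .l [0, 10], .l [11, 10], .l [0, 12, 14, 10, 12, 9, 4], .l [0, 12], .l [13, 12], .l [0, 12], .r 2990 [6, 1, 2, 3, 4, 5] [1, 1, 1, 1, 1, 1, 1], .l [0, 14], .l [15, 14]]),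
([p 2 0, g, m 0 1, g, p 4 2, m 1 3, g, p 0 4, p 5 0, g, m 3 0, g, p 0 5, g], .top 1, [.r 444 [] [11], .r 2991 [1, 2, 3, 4, 5] [1, 1, 1, 1, 1, 1], .r 334 [] [13], .r 444 [] [13]]),
([p 1 0, g, p 3 1, m 0 2, g, p 0 3, p 4 0, g, m 2 0, g, p 0 4, g], .lo 3, [.l [3, 2], .r 2934 [5, 1, 2, 3] [1, 1, 1, 1, 3], .l [5, 2], .r 2992 [5, 1, 2, 3, 4] [1, 1, 1, 1, 1, 1], .r 2599 [1, 2, 5] [1, 1, 4, 3], .l [5, 1], .l [3, 4], .l [6, 2], .l [3, 7, 11, 9, 3], .l [8, 4], .l [3, 7], .y [3, 8], .l [3, 9, 11, 7, 3], .l [10, 6], .l [3, 9], .r 2665 [1, 2, 5] [1, 4, 3, 1], .l [12, 8], .l [3, 11]]),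
([p 1 0, g, p 3 1, m 0 2, g, p 0 3, p 0 0, g, m 2 0, g], .lo 6, [.l [0, 5], .l [2, 7, 9, 6, 1], .l [2, 7], .l [1, 4, 2, 6], .l [5, 7, 3], .l [5, 7], .l [4, 7, 4, 4, 2, 5], .y [6], .r 2982 [1, 2, 3, 4] [1, 1, 1, 1, 1], .l [0, 6, 10, 6, 1, 3, 6, 3], .l [5, 10, 7, 9, 8, 8, 6, 1], .l [5, 8, 5, 7, 6, 6, 4, 1], .r 2987 [1, 2, 3, 4] [1, 1, 1, 1, 1], .r 2993 [1, 2, 3, 4] [1, 1, 1, 1, 1], .l [5, 8, 5, 7, 6, 6, 4, 5]]),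
([p 3 0, g, m 0 1, g, m 1 2, g, s 0 0, p 5 3, m 2 4, g, p 0 5, m 0 6, g, m 4 0, g, s 6 0, g], .hi 6, [.l [8, 5, 9, 13, 12, 0, 11, 6, 6, 4, 8, 6, 7], .l [8, 10, 7, 3, 7, 12, 10, 0, 9, 6, 8, 4, 7], .l [12, 15, 12, 14, 13, 5, 12, 4, 11], .l [10, 13, 10, 12, 11, 3, 3, 1, 6, 4, 6, 4, 5], .l [12, 15, 12, 14, 13, 3, 5, 3, 8, 4, 8, 6, 7], .l [9, 10, 6, 9, 3, 6, 1, 4, 10, 5, 7, 4, 7], .l [12, 15, 12, 14, 13, 3, 5, 3, 8, 4, 8, 6, 7], .l [12, 15, 12, 14, 13, 1, 10, 6, 6, 4, 8, 6, 7], .l [6, 10, 7, 1, 7, 13, 11, 2, 10, 5, 7, 4, 7], .l [12, 15, 12, 14, 13, 1, 10, 6, 6, 4, 8, 6, 7], .y [6], .l [6, 9, 14, 12, 0], .l [6, 9, 14, 12, 0], .l [10, 3, 9, 8, 10, 1, 12, 2, 11], .l [6, 9, 12, 10, 0], .l [11, 4, 6, 4, 5, 3, 10], .l [6, 12, 14,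 9, 0], .l [6, 12, 14, 9, 0], .l [13, 6, 8, 6, 7, 5, 12], .l [3, 4, 2, 13, 8, 0, 10, 8, 1, 8, 3], .l [5, 1, 6, 1, 12, 9, 1, 9, 4, 10, 4, 0, 5], .l [15, 8, 10, 8, 9, 7, 12], .l [3, 4, 2, 15, 10, 0, 12, 10, 1, 10, 5], .l [6, 16, 8, 0, 13, 4, 0, 8, 3], .l [17, 10, 12, 10, 11, 9, 3]]),
([p 3 1, g, s 1 0, g, m 0 2, g, s 0 0, p 5 3, m 2 4, g, p 0 5, m 0 6, g, m 4 0, g, s 6 0, g], .lo 4, [.l [6, 3, 9, 13, 12, 2, 11, 6, 8, 4, 9], .l [6, 3], .l [4, 3, 9, 13, 12, 4, 6, 4, 9, 4, 6, 4, 7], .l [0, 1, 3, 1, 5, 9, 8, 2, 7, 4, 4, 2, 5], .l [6, 1, 9, 13, 12, 2, 11, 4, 8, 6, 9], .l [6, 1], .r 2995 [7, 2, 3, 4, 5, 6] [3, 1, 1, 1, 1, 1, 1], .l [4, 10, 9, 9, 3, 7, 1, 10, 6, 7, 9, 5, 2], .l [6, 1], .l [4, 5], .l [10, 13, 10, 12, 11, 1, 8, 6,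 8, 4, 7], .l [4, 9, 14, 12, 2], .l [10, 5], .l [4, 9], .l [4, 12, 14, 9, 2], .l [13, 8], .l [4, 12], .y [4, 8, 13], .l [15, 10, 10, 6, 7, 5, 12], .l [15, 10], .l [4, 14], .l [4, 14, 14, 10, 12, 9, 2], .l [17, 12, 12, 8, 9, 7, 3], .l [17, 12], .l [4, 16]]),
([p 2 1, g, s 1 0, g, s 0 0, p 4 2, m 0 3, g, p 0 4, m 0 5, g, m 3 0, g, s 5 0, g], .lo 6, [.l [8, 5, 7, 2, 7, 4, 9, 2, 9], .l [8, 5], .l [4, 3, 7, 11, 10, 2, 9, 4, 6, 4, 7], .l [0, 1, 5, 3, 3, 0, 3, 2, 5, 2, 5], .l [8, 3, 7, 4, 7, 2, 9, 2, 9], .l [8, 3], .r 2996 [1, 6, 2, 3, 4, 5] [1, 1, 1, 1, 1, 1, 1], .l [6, 1, 5, 4, 6, 1, 8, 2, 7], .l [2, 1, 7, 1, 10, 8, 2], .l [8, 1], .l [6, 7], .l [11, 4, 5, 3, 12], .l [11, 4], .l [6, 10], .y [6, 11], .l [13, 6, 7, 5, 12], .l [13,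 6], .l [6, 12], .l [6, 12, 12, 8, 6], .l [15, 8, 9, 7, 3], .l [15, 8], .l [6, 14]]),
([p 1 0, g, s 0 0, p 3 1, m 0 2, g, p 0 3, m 0 4, g, m 2 0, g, s 4 0, g], .hi 0, [.r 2997 [5, 1, 2, 3, 4] [1, 1, 1, 1, 1, 1], .l [0, 1], .l [2, 1], .l [6, 9, 6, 8, 7, 1, 6, 4, 5], .l [4, 3], .l [0, 5, 10, 8, 2], .l [0, 5], .l [6, 5], .y [0, 6, 3], .l [7, 6], .l [0, 8, 10, 5, 2], .l [0, 8], .l [9, 8], .l [11, 10, 10, 7, 7, 4, 8], .l [0, 10], .l [11, 10], .l [13, 12, 12, 9, 9, 6, 3], .l [0, 12], .l [13, 12]]),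
([p 1 0, g, p 3 1, m 0 2, g, p 0 3, m 0 4, g, s 4 0, g, m 2 0, g], .hi 0, [.l [2, 1, 7, 10, 6, 1, 3, 6, 3], .l [0, 1], .l [2, 1], .l [3, 2], .l [0, 4, 11, 9, 1], .l [0, 4], .l [5, 4], .y [0, 5, 2], .l [6, 5], .l [0, 7, 11, 6, 1], .l [0, 7], .l [8, 7], .l [0, 9, 11, 4, 1], .l [0, 9], .l [10, 9], .l [12, 11, 11, 9, 9, 6, 1], .l [0, 11], .l [12, 11]]),
([p 3 1, g, s 1 0, g, m 0 2, g, s 0 0, p 5 3, m 2 4, g, p 0 5, m 0 6, g, m 4 0, g, m 6 0, g], .hi 6, [.l [10, 15, 14, 14, 10, 13, 7, 11, 3, 11, 2, 6, 7], .l [5, 10, 2, 6, 13, 8, 10, 1, 11, 7, 4], .l [10, 6, 9, 11, 6, 8, 12, 10, 1], .l [10, 15, 14, 14, 10, 13, 7, 9, 1, 11, 4, 8, 5], .l [15, 12, 15, 8, 11, 10, 10, 5, 1, 11, 4, 8, 5], .l [10, 15, 14, 14, 10, 13, 7, 9, 1, 11, 4,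 8, 5], .l [8, 13, 12, 12, 8, 11, 7, 9, 1, 9, 2, 6, 1], .l [10, 15, 14, 14, 8, 13, 9, 11, 1, 11, 2, 8, 1], .l [3, 10, 2, 9, 1, 13, 6, 10, 3, 11, 5, 2, 7], .l [10, 15, 14, 14, 8, 13, 9, 11, 1, 11, 2, 8, 1], .y [6], .l [6, 9, 14, 12, 0], .l [6, 9, 14, 12, 0], .l [2, 1, 9, 3, 5, 3, 11, 7, 1], .l [6, 9, 12, 10, 0], .l [11, 4, 6, 4, 11, 6, 11, 2, 9], .l [6, 12, 14, 9, 0], .l [6, 12, 14, 9, 0], .l [13, 6, 8, 6, 13, 6, 13, 2, 11], .l [6, 14, 16, 12, 14, 11, 0], .l [6, 14, 16, 12, 14, 11, 0], .l [2, 1, 14, 8, 0, 11, 13, 5, 2], .l [3, 17, 10, 0, 12, 10, 1, 10, 5], .l [8, 13, 12, 12, 8, 11, 7, 9, 1, 9, 2, 6, 7], .l [3, 17, 10, 0, 12, 10, 1, 10, 5]]),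
([p 3 1, g, m 0 2, g, s 1 0, g, s 0 0, p 5 3, m 2 4, g, p 0 5, m 0 6, g, m 4 0, g, m 6 0, g], .hi 6, [.l [6, 5, 12, 15, 14, 12, 9, 2, 8, 3, 8, 2, 5], .l [6, 5, 8, 2, 8, 3, 8, 2, 5], .l [2, 7, 9, 5, 1, 5, 10, 8, 2], .l [4, 3, 6, 2, 6, 1, 6, 2, 3], .l [0, 5, 9, 5, 7, 11, 8, 5, 4, 8, 10, 6, 1], .l [0, 5, 9, 5, 3, 6, 11, 9, 1], .l [6, 5, 8, 2, 8, 1, 8, 2, 3], .l [4, 3, 8, 4, 8, 1, 9, 12, 11, 4, 1, 7, 1], .l [0, 3, 1, 5, 8, 2, 5, 10, 6, 7, 9, 5, 2], .l [4, 3, 8, 4, 8, 1, 8, 4, 1], .y [6], .l [6, 9, 14, 12, 0], .l [4, 3, 6, 2, 6, 1, 8, 4, 1], .l [0, 7, 6, 9, 3, 7, 5, 11, 5, 6, 10, 6, 1], .l [4, 3, 6, 2, 6, 1, 6, 2, 1], .l [11, 4, 8, 6, 11, 4, 11, 2, 9], .l [6, 12, 14, 9, 0], .l [4, 3, 6, 2, 6, 1, 6, 2, 7], .l [13, 6, 10, 8,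 13, 4, 13, 2, 11], .l [6, 14, 16, 12, 14, 11, 0], .l [4, 3, 6, 2, 6, 1, 6, 2, 9], .l [0, 3, 14, 8, 1, 11, 13, 5, 1], .l [1, 17, 10, 0, 14, 12, 1, 12, 7], .l [4, 3, 6, 2, 6, 1, 6, 2, 11], .l [1, 17, 10, 0, 14, 12, 1, 12, 7]]),
([p 3 1, g, m 0 2, g, s 0 0, p 5 3, m 2 4, g, p 0 5, m 0 6, g, m 4 0, g, m 6 0, g, s 1 0, g], .hi 4, [.l [17, 16, 16, 9, 12, 11, 2, 10, 6, 1, 7, 4, 7], .l [17, 16, 16, 9, 12, 11, 11, 6, 11, 2, 7, 4, 7], .l [17, 16, 16, 9, 12, 11, 2, 10, 6, 1, 7, 4, 7], .l [15, 14, 14, 9, 12, 11, 2, 10, 6, 1, 7, 4, 1], .l [17, 16, 16, 9, 14, 13, 2, 12, 8, 1, 9, 6, 1], .l [5, 8, 4, 4, 14, 10, 6, 11, 1, 4, 1, 5, 2], .l [17, 16, 16, 9, 14, 13, 2, 12, 8, 1, 9, 6, 1], .y [4], .l [4, 7, 12, 10, 0], .l [4, 7, 12, 10, 0],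 .l [8, 3, 6, 12, 6, 10, 3, 11, 5, 2, 9], .l [4, 7, 10, 8, 0], .l [9, 4, 6, 4, 9, 4, 9, 2, 7], .l [4, 10, 12, 7, 0], .l [4, 10, 12, 7, 0], .l [11, 6, 8, 6, 11, 4, 11, 2, 9], .l [4, 12, 14, 10, 12, 9, 0], .l [4, 12, 14, 10, 12, 9, 0], .l [1, 13, 8, 0, 10, 8, 1, 8, 3], .l [1, 15, 10, 0, 12, 10, 1, 10, 5], .l [5, 8, 7, 13, 9, 13, 3, 10, 1, 10, 5], .l [1, 15, 10, 0, 12, 10, 1, 10, 5], .l [1, 17, 12, 0, 14, 12, 1, 12, 7], .l [15, 14, 14, 9, 12, 11, 2, 10, 6, 1, 7, 4, 7], .l [1, 17, 12, 0, 14, 12, 1, 12, 7]]),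
([p 2 0, g, m 0 1, g, s 0 0, p 4 2, m 1 3, g, p 0 4, m 0 5, g, m 3 0, g, m 5 0, g], .hi 0, [.r 3000 [6, 1, 2, 3, 4, 5] [1, 1, 1, 1, 1, 1, 1], .l [0, 1], .l [2, 1], .l [2, 1], .r 3001 [6, 1, 2, 3, 4, 5] [1, 1, 1, 1, 1, 1, 1], .l [0, 3], .l [4, 3], .l [4, 3, 7, 1, 10, 7, 0, 6, 3], .l [0, 7, 12, 10, 4], .l [0, 7], .l [8, 7], .y [0, 8, 5], .l [9, 8], .l [0, 10, 12, 7, 4], .l [0, 10], .l [11, 10], .l [0, 12, 14, 10, 12, 9, 4], .l [0, 12], .l [13, 12], .r 3002 [6, 1, 2, 3, 4, 5] [1, 1, 1, 1, 1, 1, 1], .l [0, 14], .l [15, 14]]),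
([p 1 0, g, s 0 0, p 3 1, m 0 2, g, p 0 3, m 0 4, g, m 2 0, g, m 4 0, g], .lo 4, [.l [4, 3], .r 2908 [5, 1, 2, 3] [1, 2, 1, 1, 3], .l [6, 3], .r 3003 [5, 1, 2, 3, 4] [1, 1, 1, 1, 1, 1], .r 2703 [5, 1] [1, 8], .r 2599 [1, 2, 5] [2, 1, 4, 3], .l [6, 1], .l [4, 5], .l [4, 8, 12, 10, 4], .l [9, 4], .l [4, 8], .y [4, 9], .l [4, 10, 12, 8, 4], .l [11, 6], .l [4, 10], .l [4, 10], .r 2665 [1, 2, 5] [2, 4, 3, 1], .l [13, 8], .l [4, 12]]),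
([p 1 0, g, s 0 0, p 3 1, m 0 2, g, p 0 3, m 0 0, g, m 2 0, g], .hi 7, [.l [2, 8, 10, 7, 2], .l [1, 5, 3, 7], .l [2, 8], .l [2, 6, 8, 5, 0], .l [4, 6], .l [6, 8, 4], .l [5, 8, 5, 5, 2, 6], .l [6, 8], .l [5, 6, 3, 3, 0, 4], .y [7], .r 2999 [1, 2, 3, 4] [2, 1, 1, 1, 1], .l [6, 11, 8, 10, 9, 9, 6, 1], .l [0, 7, 11, 7, 2, 4, 7, 4], .r 2998 [1, 2, 3, 4] [1, 1, 1, 1, 1], .l [6, 9, 6, 8, 7, 7, 4, 7], .r 3004 [1, 2, 3, 4] [1, 1, 1, 1, 1]]),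
([p 1 0, g, p 3 1, m 0 2, g, p 0 3, m 0 0, g, m 2 0, g], .bot 1, [.r 102 [1, 2, 3] [1, 2, 1], .r 3005 [1, 2, 3] [1, 1, 1, 1], .r 1201 [1] [1, 7], .r 2849 [1] [1, 7]]),
([p 1 0, g, p 3 1, m 0 2, g, p 4 3, s 0 4, g, m 2 0, g], .lo 3, [.l [3, 2], .l [6, 10, 8, 8, 5, 7, 5, 0, 3], .l [5, 2], .l [6, 10, 8, 8, 5, 7, 5, 0, 3], .l [6, 7, 2, 5, 1, 7, 5, 0, 1], .l [5, 1], .l [3, 4], .l [1, 8, 4, 8, 3, 0, 4], .l [8, 4], .l [3, 7], .y [3, 8], .l [3, 9, 4, 0, 5], .l [10, 6], .l [3, 9]])]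

def d11_3 : List (List Item × Qry × List Rf) := [
([p 3 1, g, s 1 0, g, m 0 2, g, p 5 3, m 2 4, g, p 0 5, s 7 6, g, m 4 0, g, p 6 0, g, p 0 7, g], .hi 14, [.l [16, 13, 15, 9, 9, 6, 3], .l [4, 3, 7, 3, 14, 8, 10, 6, 3], .l [16, 13], .l [16, 11, 15, 11, 11, 8, 3], .l [6, 16, 13, 9, 11, 8, 11, 13, 11, 7, 5, 6, 1], .l [16, 11], .l [14, 9], .l [16, 9, 11, 8, 9, 7, 3], .l [11, 16, 10, 13, 11, 15, 10, 1, 4, 8, 5], .l [16, 9], .l [16, 6, 9, 7, 3], .l [15, 16, 9, 14, 12, 12, 9, 11, 7, 2, 5], .l [16, 6], .l [13, 14, 9, 12, 10, 10, 7, 9, 5, 0, 3], .l [18, 7, 10, 6, 1, 6, 8, 4, 1], .l [6, 18, 7, 13, 1, 15, 13, 6, 8, 6, 6, 4, 7], .l [16, 3], .l [2, 1, 15, 1, 15, 9, 11, 8, 3, 11, 5, 7, 3], .l [10, 15, 7, 1, 3, 8, 11, 6, 3, 6, 10, 8,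 5], .l [16, 1], .l [6, 9, 8, 6, 4, 13, 1, 1, 3, 11, 7, 2, 7], .l [14, 15], .l [16, 1], .y [10, 14, 16], .l [2, 1, 9, 11, 11, 13, 9, 3, 7, 10, 5, 3, 1], .l [14, 17], .l [18, 3]]),
([p 3 1, g, s 1 0, g, m 0 2, g, p 5 3, m 2 4, g, p 0 5, s 0 6, g, m 4 0, g, p 6 0, g], .lo 10, [.l [2, 11, 13, 10, 5], .l [2, 11, 13, 10, 5], .l [4, 3, 7, 3, 5, 8, 5], .l [2, 9, 7, 8, 10, 6, 3], .l [4, 11, 13, 10, 3], .l [4, 11, 13, 10, 3], .l [8, 11, 10, 8, 6, 9, 11, 3, 9, 2, 5], .l [6, 11, 13, 10, 1], .l [6, 11, 13, 10, 1], .l [8, 11, 10, 11, 13, 3, 11, 2, 7], .l [8, 14, 12, 12, 9, 11, 7, 2, 5], .l [9, 11, 7], .l [8, 14, 12, 12, 9, 11, 7, 2, 5], .l [2, 1, 9, 13, 9, 3, 5, 10, 7, 3, 3, 3, 1], .l [2, 1, 9, 13, 9, 3, 5, 10, 7], .l [6, 9, 8, 6, 4,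 7, 11, 3, 9, 2, 5], .l [6, 9, 8, 6, 4, 7, 9, 1, 7, 2, 5], .l [10, 15, 5, 10, 9, 1, 8, 3, 5, 8, 5, 3, 1], .l [2, 1, 9, 13, 9, 3, 7, 10, 5], .l [2, 1, 9, 13, 1, 11, 9, 6, 3], .y [10, 14], .l [10, 15, 5, 10, 9, 1, 8, 3, 5, 8, 5, 3, 1], .r 3008 [1, 2, 3, 4, 5, 6, 7] [1, 1, 1, 1, 1, 1, 1, 1], .l [2, 1, 9, 13, 1, 11, 9, 6, 3]]),
([p 2 1, g, s 1 0, g, p 4 2, m 0 3, g, p 0 4, s 0 5, g, m 3 0, g, p 5 0, g], .lo 5, [.l [7, 4, 6, 2, 6, 3, 8, 2, 7], .l [7, 4], .l [4, 3, 6, 10, 9, 1, 8, 4, 6, 4, 5], .l [0, 1, 4, 2, 2, 0, 2, 1, 4, 2, 3], .l [7, 2, 6, 4, 6, 1, 8, 2, 7], .l [7, 2], .r 3009 [1, 6, 2, 3, 4, 5] [1, 1, 1, 1, 1, 1, 1], .l [2, 1, 6, 1, 9, 7, 1], .l [7, 1], .l [5, 6], .l [10, 4, 5, 3, 10], .l [10, 4], .l [5, 9], .y [5, 10],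 .l [12, 6, 7, 5, 10], .l [12, 6], .l [5, 11], .l [12, 6], .l [14, 8, 9, 7, 3], .l [14, 8], .l [5, 13]]),
([p 1 0, g, p 3 1, m 0 2, g, p 0 3, s 0 4, g, m 2 0, g, p 4 0, g], .hi 0, [.r 3010 [5, 1, 2, 3, 4] [1, 1, 1, 1, 1, 1], .l [0, 1], .l [2, 1], .l [3, 2], .l [0, 4, 9, 7, 1], .l [0, 4], .l [5, 4], .y [0, 5, 2], .l [0, 5, 7, 4, 1], .l [0, 7, 9, 4, 1], .l [0, 7], .l [8, 7], .l [10, 9, 9, 7, 7, 4, 7], .l [0, 9], .l [10, 9], .l [12, 11, 11, 9, 9, 6, 3], .l [0, 11], .l [12, 11]]),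
([p 2 1, s 0 0, g, p 4 2, m 0 3, g, p 6 4, g, s 0 5, g, m 5 0, g, p 0 6, g, m 3 0, g, s 1 0, g], .hi 1, [.y [1], .l [2, 12, 1, 12, 8, 12, 10, 2, 2, 9], .l [2, 5, 2, 2, 15], .l [3, 1, 11, 1, 11, 7, 11, 9, 1], .l [0, 15, 12, 0, 13, 11, 1, 10, 1], .l [1, 5, 15, 13, 1], .l [0, 3, 2, 4, 14, 12, 13], .l [0, 17, 14, 0, 15, 11, 1, 12, 3], .l [1, 7, 13, 11, 13, 11, 1], .l [0, 3, 2, 6, 12, 10, 12, 10, 11], .l [2, 10, 3, 13, 8, 15, 11, 6, 8, 10, 0, 2, 3], .l [1, 7, 11, 9, 11, 9, 1], .l [1, 9, 13, 9, 13, 11, 1], .l [0, 3, 2, 8, 12, 8, 12, 10, 11], .l [0, 12, 3, 13, 7, 13, 11, 2, 7], .l [1, 11, 13, 7, 13, 11, 1], .l [0, 3, 2, 10, 12, 6, 12, 10, 11], .l [10, 1, 13, 9, 13, 11, 7, 6, 6, 3, 1, 2, 7], .l [0, 3, 2, 10, 10, 4, 10, 8, 9],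 .l [1, 13, 15, 5, 1], .l [0, 3, 2, 12, 14, 4, 13], .l [10, 1, 15, 9, 7, 4, 13, 3, 9, 3, 9, 1, 7], .l [10, 1, 15, 6, 14, 3, 10, 1, 4, 9], .l [18, 17, 14], .l [6, 16, 10, 16, 1, 8, 1, 4, 11], .l [2, 10, 1, 14, 6, 13, 3, 9, 1, 3, 0, 5], .l [16, 15, 16], .l [10, 1, 11, 7, 15, 10, 2, 11, 3, 7, 3, 8, 1]]),
([p 2 1, s 0 0, g, p 4 2, m 0 3, g, p 0 4, s 0 5, g, m 5 0, g, m 3 0, g, s 1 0, g], .lo 6, [.l [0, 3, 2, 4, 9, 7, 8], .l [3, 7, 12, 10, 1], .l [3, 7], .l [0, 14, 11, 4, 9, 7, 9], .l [5, 8, 5, 10, 1, 10, 6, 2, 1], .l [6, 7], .l [5, 8, 5, 5, 2, 1], .l [5, 6, 3, 10, 3, 10, 4, 0, 6], .l [5, 6, 3, 10, 3, 10, 4, 0, 6], .l [5, 6, 3, 3, 0, 6], .l [5, 6, 3, 3, 0, 6], .l [5, 6, 3, 8, 1, 10, 6, 0, 2], .r 3012 [1, 2, 3, 4, 5, 6] [1, 1,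 0, 1, 1, 1, 1, 1], .l [5, 6, 3, 3, 0, 8], .l [5, 6, 3, 3, 0, 8], .l [5, 6, 3, 8, 1, 8, 4, 0, 6], .l [15, 14, 8, 1, 11, 8, 8, 5, 10, 4, 5], .l [5, 6, 3, 3, 0, 10], .y [0, 13, 6, 3], .l [0, 12, 14, 7, 12, 10, 2], .l [0, 12, 14, 7, 12, 10, 2], .l [5, 6, 3, 3, 0, 12]]),
([p 1 0, s 0 0, g, p 3 1, m 0 2, g, p 0 3, s 0 4, g, m 4 0, g, m 2 0, g], .hi 0, [.c, .l [3, 2, 10, 1, 11, 6, 1], .l [0, 2], .l [3, 2], .l [4, 3], .l [0, 5, 12, 10, 2], .l [0, 5], .l [6, 5], .y [0, 6, 3], .l [0, 6, 10, 7, 2], .l [0, 8, 12, 7, 2], .l [0, 8], .l [9, 8], .l [0, 10, 12, 5, 2], .l [0, 10], .l [11, 10], .r 3013 [5, 1, 2, 3, 4] [1, 1, 1, 1, 1, 1], .l [0, 12], .l [13, 12]]),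
([p 1 0, g, p 3 1, m 0 2, g, p 4 0, g, p 0 3, s 0 4, g, m 2 0, g], .lo 3, [.l [3, 2], .l [6, 12, 10, 10, 7, 9, 7, 2, 5], .l [5, 2], .l [6, 12, 10, 10, 7, 9, 7, 2, 5], .l [6, 9, 4, 7, 1, 9, 7, 2, 3], .l [5, 1], .l [3, 4], .l [5, 1], .l [7, 3, 8, 3, 8, 1, 8, 4, 1], .l [7, 3], .l [3, 6], .l [1, 10, 6, 10, 3, 0, 4], .l [10, 6], .l [3, 9], .y [3, 10], .l [3, 11, 6, 2, 7], .l [12, 8], .l [3, 11]]),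
([p 3 1, g, s 1 0, g, m 0 2, g, p 5 3, m 2 4, g, p 0 5, s 0 6, g, p 6 0, g, m 4 0, g], .lo 10, [.l [2, 11, 11, 12, 14, 10, 5], .l [2, 11, 11, 12, 14, 10, 5], .l [4, 3, 7, 3, 5, 8, 5], .l [2, 9, 7, 8, 8, 8, 10, 6, 3], .l [4, 11, 11, 12, 14, 10, 3], .l [4, 11, 11, 12, 14, 10, 3], .l [13, 16, 11, 14, 9, 13, 9, 4, 7], .l [6, 11, 11, 12, 14, 10, 1], .l [6, 11, 11, 12, 14, 10, 1], .l [13, 16, 11, 14, 11, 8, 6, 11, 7, 4, 5], .l [8, 16, 14, 14, 11, 13, 9, 2, 7], .l [9, 11, 7], .l [8, 16, 14, 14, 11, 13, 9, 2, 7], .l [2, 1, 11, 1, 13, 8, 3, 5, 0, 8, 5, 3, 1], .l [2, 1, 9, 11, 7, 3, 5, 8, 5], .l [2, 1, 9, 11, 1, 9, 11, 8, 3], .y [10, 12], .l [2, 1, 11, 14, 8, 3, 5, 8, 5, 3, 1, 5, 5], .l [2, 1, 13, 3, 13, 6, 3], .l [2, 1, 9, 11,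 1, 9, 11, 8, 3], .l [2, 1, 9, 11, 1, 9, 9, 6, 3], .l [6, 9, 8, 6, 4, 7, 11, 3, 9, 2, 5], .l [6, 16, 5, 11, 1, 13, 11, 4, 6, 4, 7], .l [6, 9, 8, 6, 4, 7, 11, 3, 9, 2, 5]]),
([p 2 1, g, s 1 0, g, p 4 2, m 0 3, g, p 0 4, s 0 5, g, p 5 0, g, m 3 0, g], .lo 5, [.l [7, 4, 6, 2, 6, 3, 10, 4, 1], .l [7, 4], .l [4, 3, 6, 12, 11, 1, 10, 6, 8, 6, 1], .l [0, 1, 4, 2, 2, 0, 2, 1, 6, 4, 1], .l [7, 2, 6, 4, 6, 1, 10, 4, 1], .l [7, 2], .r 3016 [1, 6, 2, 3, 4, 5] [1, 1, 1, 1, 1, 1, 1], .l [2, 1, 6, 1, 11, 9, 1], .l [7, 1], .l [5, 6], .l [10, 4, 5, 3, 8], .l [10, 4], .l [5, 9], .l [10, 4], .l [12, 6, 7, 5, 1], .l [12, 6], .l [5, 11], .y [5, 12], .l [14, 8, 9, 7, 1], .l [14, 8], .l [5, 13]]),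
([p 1 0, g, p 3 1, m 0 2, g, p 0 3, s 0 4, g, p 4 0, g, m 2 0, g], .hi 0, [.r 3017 [5, 1, 2, 3, 4] [1, 1, 1, 1, 1, 1], .l [0, 1], .l [2, 1], .l [3, 2], .l [0, 4, 11, 9, 1], .l [0, 4], .l [5, 4], .y [0, 5, 2], .l [0, 5, 5, 6, 8, 4, 1], .l [0, 7, 11, 6, 1], .l [0, 7], .l [8, 7], .l [0, 9, 11, 4, 1], .l [0, 9], .l [10, 9], .l [12, 11, 11, 9, 9, 6, 1], .l [0, 11], .l [12, 11]]),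
([p 2 1, s 0 0, g, p 4 2, m 0 3, g, p 0 4, s 0 5, g, s 5 0, g, m 3 0, g, s 1 0, g], .hi 1, [.y [1], .l [15, 14, 1, 13, 9, 9, 6, 1], .l [2, 5, 2, 2, 12], .r 854 [6, 2] [1, 1, 11], .l [0, 12, 9, 0, 10, 8, 1, 8, 1], .l [1, 5, 12, 10, 1], .l [0, 3, 2, 4, 11, 9, 10], .l [0, 14, 11, 0, 12, 8, 1, 10, 3], .l [0, 3, 2, 4, 9, 7, 8], .l [1, 6, 10, 7, 1], .l [1, 8, 12, 7, 1], .l [0, 3, 2, 7, 11, 6, 10], .r 853 [6, 2] [1, 5, 7], .l [1, 10, 12, 5, 1], .l [0, 3, 2, 9, 11, 4, 10], .r 853 [6, 2] [1, 7, 5], .l [8, 13, 5, 12, 4, 8, 3, 9, 4, 7], .l [15, 14, 11], .l [8, 13, 5, 12, 4, 8, 3, 9, 4, 7], .l [14, 1, 12, 12, 9, 9, 6, 1], .l [13, 12, 13], .r 715 [1, 6, 2] [1, 9, 1, 1]]),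
([p 1 0, s 0 0, g, p 3 1, m 0 2, g, p 0 3, s 0 4, g, s 4 0, g, m 2 0, g], .hi 0, [.c, .r 2917 [5, 1, 2, 3, 4] [2, 1, 1, 1, 1, 1], .l [0, 2], .l [3, 2], .l [4, 3], .l [0, 5, 12, 10, 2], .l [0, 5], .l [6, 5], .y [0, 6, 3], .l [0, 6, 10, 7, 2], .l [0, 8, 12, 7, 2], .l [0, 8], .l [9, 8], .l [0, 10, 12, 5, 2], .l [0, 10], .l [11, 10], .r 3019 [5, 1, 2, 3, 4] [1, 1, 1, 1, 1, 1], .l [0, 12], .l [13, 12]]),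
([p 3 1, g, s 1 0, g, m 0 2, g, p 6 0, g, p 5 3, m 2 4, g, p 0 5, s 0 6, g, m 4 0, g], .lo 12, [.l [2, 13, 15, 12, 7], .l [2, 13, 15, 12, 7], .l [4, 3, 9, 5, 7, 10, 7], .l [2, 11, 9, 10, 12, 8, 5], .l [4, 13, 15, 12, 5], .l [4, 13, 15, 12, 5], .l [9, 5, 12, 1, 14, 11, 0, 10, 3], .l [6, 13, 15, 12, 3], .l [6, 13, 15, 12, 3], .l [11, 13, 11, 3, 11, 6, 10, 1, 10, 6, 1], .y [6, 12], .l [8, 13, 15, 12, 1], .l [8, 13, 15, 12, 1], .l [11, 13, 11, 3, 11, 6, 10, 1, 10, 6, 1], .l [10, 16, 14, 14, 9, 13, 9, 2, 7], .l [11, 13, 9], .l [10, 16, 14, 14, 9, 13, 9, 2, 7], .l [14, 1, 15, 10, 12, 11, 1, 10, 3], .l [14, 1, 15, 10, 12, 11, 1, 10, 3], .l [13, 16, 11, 14, 11, 8, 6, 11, 7, 4, 5], .l [13, 14, 9, 12, 9, 6, 4, 9, 5, 2, 3], .l [8,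 11, 10, 11, 13, 3, 11, 2, 7], .l [2, 1, 15, 3, 9, 5, 10, 3, 6, 8, 7], .l [8, 11, 10, 11, 13, 3, 11, 2, 7]]),
([p 2 1, g, s 1 0, g, p 5 0, g, p 4 2, m 0 3, g, p 0 4, s 0 5, g, m 3 0, g], .lo 7, [.l [9, 6, 8, 2, 8, 5, 10, 2, 7], .l [9, 6], .l [7, 1, 10, 4, 7, 1, 3, 9, 5, 0, 5], .l [0, 1, 6, 4, 4, 0, 4, 3, 6, 2, 3], .l [9, 4, 8, 4, 8, 3, 10, 2, 7], .l [9, 4], .r 3021 [1, 6, 2, 3, 4, 5] [1, 1, 1, 1, 1, 1, 1], .l [7, 2], .l [9, 2, 4, 9, 5], .l [9, 2], .l [7, 3, 10, 1, 12, 9, 0, 8, 3], .l [2, 1, 8, 1, 11, 9, 3], .l [9, 1], .l [7, 8], .l [12, 4, 13, 8, 0, 10, 7], .l [12, 4], .l [7, 11], .y [7, 12], .l [7, 13, 3, 9, 5, 9, 3, 8, 1], .l [14, 6], .l [7, 13]]),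
([p 1 0, g, p 4 0, g, p 3 1, m 0 2, g, p 0 3, s 0 4, g, m 2 0, g], .hi 0, [.r 3022 [5, 1, 2, 3, 4] [1, 1, 1, 1, 1, 1], .l [0, 1], .l [2, 1], .l [4, 3, 5, 1, 3, 6, 3], .l [0, 3], .l [4, 3], .l [5, 4], .l [0, 6, 11, 9, 3], .l [0, 6], .l [7, 6], .y [0, 7, 4], .l [0, 7, 9, 6, 3], .l [0, 9, 11, 6, 3], .l [0, 9], .l [10, 9], .l [0, 11, 9, 5, 7, 4, 7], .l [0, 11], .l [12, 11]]),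
([p 2 0, g, m 0 1, g, p 4 2, m 1 3, g, p 0 4, s 6 5, g, m 3 0, g, m 0 6, g, s 5 0, g], .hi 0, [.l [10, 15, 5, 10, 9, 1, 8, 3, 5, 8, 5, 3, 1], .l [0, 1], .l [2, 1], .l [2, 1], .l [4, 3, 5, 1, 5, 1, 6, 10, 1, 8, 1, 5, 1], .l [0, 3], .l [4, 3], .l [0, 6, 11, 9, 3], .l [0, 6], .l [7, 6], .y [0, 7, 4], .l [0, 9, 11, 6, 3], .l [0, 9], .l [10, 9], .l [12, 11, 11, 7, 7, 4, 9], .l [0, 11], .l [12, 11], .l [12, 11], .l [14, 13, 13, 9, 9, 6, 3], .l [0, 13], .l [14, 13], .l [16, 15, 15, 11, 11, 8, 3], .l [0, 15], .l [16, 15]]),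
([p 2 0, g, m 0 1, g, s 0 0, p 4 2, m 1 3, g, p 0 4, s 6 5, g, s 0 6, g, m 3 0, g, s 5 0, g], .hi 4, [.l [5, 11, 15, 12, 6, 8, 11, 7, 5, 7, 2, 3], .l [5, 11, 15, 12, 6, 8, 11, 7, 5, 7, 2, 3], .l [6, 3, 9, 1, 14, 11, 0, 10, 5], .l [4, 1, 5, 3, 8, 1, 2, 7, 3, 0, 4, 5], .l [2, 11, 16, 13, 7, 9, 12, 8, 1, 5, 6, 3], .l [3, 11, 15, 12, 6, 8, 11, 7, 5, 7, 4, 1], .l [2, 11, 16, 13, 7, 9, 12, 8, 1, 5, 6, 3], .y [4], .l [4, 7, 14, 12, 0], .l [4, 7, 14, 12, 0], .l [11, 16, 13, 3, 9, 13, 3, 10, 6, 7], .l [4, 7, 12, 10, 0], .l [4, 10, 14, 9, 0], .l [4, 10, 14, 9, 0], .l [1, 11, 6, 0, 8, 6, 11, 4, 8], .l [4, 10, 12, 7, 0], .l [4, 12, 14, 7, 0], .l [4, 12, 14, 7, 0], .l [1, 13, 8, 0, 10, 8, 11, 2, 8], .l [1, 15, 10, 0, 12, 10, 1, 10,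 3], .l [11, 1, 12, 7, 9, 8, 10, 12, 10, 3], .l [1, 15, 10, 0, 12, 10, 1, 10, 3], .l [1, 17, 12, 0, 14, 12, 1, 12, 5], .l [3, 9, 13, 10, 4, 6, 9, 5, 3, 5, 2, 7], .l [1, 17, 12, 0, 14, 12, 1, 12, 5]]),
([p 2 0, g, m 0 1, g, p 4 2, m 1 3, g, p 0 4, s 6 5, g, s 0 6, g, m 3 0, g, s 5 0, g], .bot 3, [.r 2849 [2] [1, 11], .r 3025 [1, 2, 3, 4, 5, 6] [1, 1, 1, 1, 1, 1, 1], .r 1201 [2] [3, 11], .r 2849 [2] [3, 11]]),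
([p 2 0, g, m 0 1, g, p 4 2, m 1 3, g, p 0 4, s 6 5, g, m 3 0, g, s 5 0, g, m 0 6, g], .hi 0, [.l [10, 15, 5, 10, 9, 1, 8, 3, 5, 8, 5, 3, 1], .l [0, 1], .l [2, 1], .l [2, 1], .l [4, 3, 6, 10, 9, 1, 8, 4, 6, 4, 7], .l [0, 3], .l [4, 3], .l [0, 6, 11, 9, 3], .l [0, 6], .l [7, 6], .y [0, 7, 4], .l [0, 9, 11, 6, 3], .l [0, 9], .l [10, 9], .l [12, 11, 11, 7, 7, 4, 11], .l [0, 11], .l [12, 11], .l [14, 13, 13, 9, 9, 6, 11], .l [0, 13], .l [14, 13], .l [14, 13], .l [16, 15, 15, 11, 11, 8, 5], .l [0, 15], .l [16, 15]]),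
([p 3 0, g, m 0 1, g, s 0 2, p 5 3, m 1 4, g, p 0 5, s 7 6, g, m 4 0, g, s 6 0, g, s 0 7, g, p 2 0, g], .hi 0, [.l [2, 1, 10, 14, 10, 4, 8, 11, 6, 11], .l [0, 1], .l [2, 1], .l [2, 1], .l [4, 3, 6, 2, 6, 1, 6, 2, 13], .l [0, 3], .l [4, 3], .l [5, 8, 7, 15, 11, 13, 1, 10, 1, 10, 5], .l [0, 7, 9, 6, 16], .l [0, 7], .l [8, 7], .y [0, 8, 5], .l [0, 10, 12, 7, 4], .l [0, 10], .l [11, 10], .l [13, 12, 12, 7, 10, 9, 9, 4, 9, 2, 6, 9], .l [0, 12], .l [13, 12], .l [15, 14, 14, 9, 9, 6, 12, 8, 10, 1, 4, 9], .l [0, 14], .l [15, 14], .l [15, 14, 14, 9, 9, 6, 5], .l [9, 12, 16, 12, 12, 7, 7, 4, 1, 10, 4, 9], .l [0, 16], .l [17, 16], .l [5, 8, 7, 15, 11, 15, 3, 12, 1, 12, 7], .l [0, 18], .l [19, 18]]),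
([p 2 0, g, m 0 1, g, s 0 0, p 4 2, m 1 3, g, p 0 4, s 6 5, g, m 3 0, g, s 5 0, g, s 0 6, g], .hi 4, [.l [6, 3, 9, 1, 12, 9, 0, 8, 3], .l [15, 3, 8, 13, 11, 4, 8, 9, 2, 9], .l [6, 3, 9, 1, 12, 9, 0, 8, 3], .l [5, 8, 7, 1, 4, 2, 9, 3, 9, 5, 2, 5], .l [7, 10, 9, 1, 6, 2, 11, 3, 11, 7, 4, 7], .l [15, 3, 8, 13, 11, 4, 6, 9, 4, 9], .l [7, 10, 9, 1, 6, 2, 11, 3, 11, 7, 4, 7], .y [4], .l [4, 7, 12, 10, 0], .l [4, 7, 12, 10, 0], .r 2589 [7, 2, 3, 4] [3, 1, 1, 2, 5], .l [4, 7, 10, 8, 0], .l [4, 10, 12, 7, 0], .l [4, 10, 12, 7, 0], .l [1, 11, 6, 0, 8, 6, 9, 2, 6], .l [1, 13, 8, 0, 10, 8, 1, 8, 3], .l [4, 12, 14, 8, 3, 10, 2, 10, 3, 0, 6, 7], .l [1, 13, 8, 0, 10, 8, 1, 8, 3], .l [1, 15, 10, 0, 12, 10, 1, 10, 5], .l [4, 14, 16, 8,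 3, 10, 2, 10, 3, 0, 6, 7], .l [1, 15, 10, 0, 12, 10, 1, 10, 5], .l [1, 15, 10, 0, 12, 10, 1, 10, 5], .l [1, 17, 12, 0, 14, 12, 1, 12, 7], .r 3028 [1, 7, 2, 3, 4, 5, 6] [1, 1, 1, 1, 1, 1, 1, 1], .l [1, 17, 12, 0, 14, 12, 1, 12, 7]]),
([p 2 0, g, m 0 1, g, p 4 2, m 1 3, g, p 0 4, s 6 5, g, m 3 0, g, s 5 0, g, s 0 6, g], .bot 3, [.r 2849 [2] [1, 11], .r 3029 [1, 2, 3, 4, 5, 6] [1, 1, 1, 1, 1, 1, 1], .r 1201 [2] [3, 11], .r 2849 [2] [3, 11]]),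
([p 3 0, g, m 0 1, g, s 0 2, p 5 3, m 1 4, g, p 0 5, s 7 6, g, m 4 0, g, s 0 7, g, s 6 0, g, p 2 0, g], .hi 0, [.l [2, 1, 10, 14, 10, 4, 8, 11, 6, 11], .l [0, 1], .l [2, 1], .l [2, 1], .l [4, 3, 6, 2, 6, 1, 6, 2, 13], .l [0, 3], .l [4, 3], .l [5, 8, 7, 15, 11, 13, 1, 10, 1, 10, 5], .l [0, 7, 9, 6, 16], .l [0, 7], .l [8, 7], .y [0, 8, 5], .l [0, 10, 12, 7, 4], .l [0, 10], .l [11, 10], .l [13, 12, 12, 7, 10, 9, 9, 4, 9, 2, 6, 9], .l [0, 12], .l [13, 12], .l [13, 12, 12, 7, 7, 4, 3], .l [15, 14, 14, 9, 9, 6, 12, 8, 10, 1, 4, 9], .l [0, 14], .l [15, 14], .l [9, 12, 16, 12, 12, 7, 7, 4, 1, 10, 4, 9], .l [0, 16], .l [17, 16], .l [5, 8, 7, 15, 11, 15, 3, 12, 1, 12, 7], .l [0, 18], .l [19, 18]]),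
([p 2 0, g, m 0 1, g, s 0 0, p 4 2, m 1 3, g, p 0 4, s 6 5, g, m 3 0, g, s 0 6, g, s 5 0, g], .hi 4, [.l [6, 3, 9, 1, 12, 9, 0, 8, 3], .l [15, 3, 8, 13, 11, 4, 8, 9, 2, 9], .l [6, 3, 9, 1, 12, 9, 0, 8, 3], .l [5, 8, 7, 1, 4, 2, 9, 3, 9, 5, 2, 5], .l [7, 10, 9, 1, 6, 2, 11, 3, 11, 7, 4, 7], .l [15, 3, 8, 13, 11, 4, 6, 9, 4, 9], .l [7, 10, 9, 1, 6, 2, 11, 3, 11, 7, 4, 7], .y [4], .l [4, 7, 12, 10, 0], .l [4, 7, 12, 10, 0], .r 2589 [7, 2, 3, 4] [3, 1, 1, 2, 5], .l [4, 7, 10, 8, 0], .l [4, 10, 12, 7, 0], .l [4, 10, 12, 7, 0], .l [1, 11, 6, 0, 8, 6, 9, 2, 6], .l [1, 13, 8, 0, 10, 8, 1, 8, 3], .l [4, 12, 14, 8, 3, 10, 2, 10, 3, 0, 6, 7], .l [1, 13, 8, 0, 10, 8, 1, 8, 3], .l [1, 13, 8, 0, 10, 8, 1, 8, 3], .l [1, 15, 10, 0, 12,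 10, 1, 10, 5], .l [4, 14, 16, 8, 3, 10, 2, 10, 3, 0, 6, 7], .l [1, 15, 10, 0, 12, 10, 1, 10, 5], .l [1, 17, 12, 0, 14, 12, 1, 12, 7], .r 3031 [1, 7, 2, 3, 4, 5, 6] [1, 1, 1, 1, 1, 1, 1, 1], .l [1, 17, 12, 0, 14, 12, 1, 12, 7]]),
([p 2 0, g, m 0 1, g, p 4 2, m 1 3, g, p 0 4, s 6 5, g, m 3 0, g, s 0 6, g, s 5 0, g], .bot 3, [.r 2849 [2] [1, 11], .r 3032 [1, 2, 3, 4, 5, 6] [1, 1, 1, 1, 1, 1, 1], .r 1201 [2] [3, 11], .r 2849 [2] [3, 11]]),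
([p 2 0, g, m 0 1, g, p 4 2, m 1 3, g, p 0 4, s 0 5, g, m 3 0, g, s 5 0, g], .lo 8, [.l [0, 7, 9, 6, 3], .l [2, 9, 11, 8, 3], .l [2, 9, 11, 8, 3], .l [6, 9, 8, 6, 4, 7, 9, 3, 7, 2, 3], .l [4, 9, 11, 8, 1], .l [4, 9, 11, 8, 1], .l [6, 9, 8, 9, 11, 3, 9, 2, 5], .l [6, 12, 10, 10, 7, 9, 7, 2, 5], .l [7, 9, 5], .l [6, 12, 10, 10, 7, 9, 7, 2, 5], .r 3026 [1, 2, 3, 4, 5, 6] [1, 1, 1, 1, 1, 1, 1], .l [2, 8, 13, 10, 4, 6, 9, 5, 3, 4, 1], .l [4, 7, 6, 4, 2, 5, 9, 3, 7, 2, 3], .l [4, 7, 6, 4, 2, 5, 7, 1, 5, 2, 3], .r 3033 [1, 2, 3, 4, 5, 6] [1, 1, 1, 1, 1, 1, 1], .l [4, 7, 6, 4, 2, 9, 3, 9, 5, 2, 5], .r 3024 [1, 2, 3, 4, 5, 6] [1, 1, 1, 1, 1, 1, 1], .y [8, 12], .r 3030 [1, 2, 3, 4, 5, 6] [1, 1, 1, 1, 1, 1, 1], .l [4, 7, 6, 4, 2,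 9, 3, 9, 5, 2, 5], .r 3027 [1, 2, 3, 4, 5, 6] [1, 1, 1, 1, 1, 1, 1]]),
([p 1 0, g, p 3 1, m 0 2, g, p 0 3, s 0 4, g, m 2 0, g, s 4 0, g], .lo 3, [.l [3, 2], .r 2930 [5, 1, 2, 3] [1, 1, 1, 1, 3], .l [5, 2], .r 3034 [5, 1, 2, 3, 4] [1, 1, 1, 1, 1, 1], .r 2599 [1, 2, 5] [1, 1, 4, 3], .l [5, 1], .l [3, 4], .l [1, 8, 4, 8, 3, 0, 4], .l [8, 4], .l [3, 7], .y [3, 8], .r 2665 [1, 2, 5] [1, 4, 1, 3], .l [10, 6], .l [3, 9], .l [10, 6, 7, 5, 3], .r 2665 [1, 2, 5] [1, 4, 3, 1], .l [12, 8], .l [3, 11]]),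
([p 1 0, s 0 0, g, p 3 1, m 0 2, g, p 0 3, s 0 0, g, m 2 0, g], .hi 7, [.l [1, 6, 8, 5, 1], .l [3, 8, 10, 7, 1], .r 3023 [1, 2, 3, 4] [2, 1, 1, 1, 1], .l [3, 8, 10, 7, 1], .l [4, 6, 4], .l [6, 8, 4], .r 3015 [1, 2, 3, 4] [2, 1, 1, 1, 1], .l [6, 8, 4], .r 3007 [1, 2, 3, 4] [2, 1, 1, 1], .y [7], .r 3020 [1, 2, 3, 4] [1, 1, 1, 1, 1], .r 3018 [1, 2, 3, 4] [2, 1, 1, 1, 1], .r 3014 [1, 2, 3, 4] [1, 1, 1, 1, 1], .r 3035 [1, 2, 3, 4] [2, 1, 1, 1, 1], .r 3011 [1, 2, 3, 4] [2, 1, 1, 1, 1], .r 2925 [1, 2, 3, 4] [1, 1, 1, 1, 1]]),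
([p 1 0, g, p 3 1, m 0 2, g, p 0 3, s 0 0, g, m 2 0, g], .top 1, [.r 102 [1, 2, 3] [1, 2, 1], .r 3036 [1, 2, 3] [1, 1, 1, 1], .r 334 [] [9], .r 444 [] [9]]),
([p 1 0, g, p 3 1, m 0 2, g, p 0 3, g, m 2 0, g], .top 6, [.r 2981 [1, 2, 3] [1, 1, 1], .r 3037 [1, 2, 3] [1, 1, 1, 1], .r 2994 [1, 2, 3] [1, 1, 1, 1], .r 3006 [1, 2, 3] [1, 1, 1, 1]]),
([p 3 0, g, m 2 1, g, s 0 2, g, p 0 3, m 1 4, g, m 4 0, g], .lo 6, [.y [0, 6], .l [7, 9, 5, 7, 1, 7, 5, 0, 1], .l [2, 7], .l [1, 8, 6, 5], .l [7, 9, 3, 7, 3, 7, 3, 0, 3], .l [4, 7], .l [3, 8, 4, 3], .l [5, 9, 5, 7, 1, 7, 5, 2, 1], .l [6, 7], .l [5, 8, 2, 1], .l [5, 7, 3, 5, 1, 7, 5, 0, 1], .r 3038 [3, 4, 5] [5, 1, 1, 1], .l [5, 6, 0, 7], .l [5, 6, 0, 7], .l [5, 7, 3, 5, 1, 5, 3, 0,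 3], .r 2588 [1, 2, 3, 4, 5] [1, 1, 1, 1, 1, 1], .l [5, 6, 0, 9]]),
([p 4 1, g, m 0 2, g, s 1 0, g, s 6 0, m 2 3, g, p 0 4, m 3 5, g, p 0 6, g, m 5 0, g], .lo 2, [.l [0, 5, 8, 6, 11, 5, 9, 8, 8, 5, 8, 2, 3], .l [4, 1], .l [1, 14, 5, 9, 8, 11, 4, 1, 6, 9, 2, 4, 1], .l [3, 14, 5, 0, 11, 13, 4, 10, 7], .l [4, 1], .l [2, 3], .l [3, 12, 5, 0, 9, 11, 4, 8, 5], .l [5, 14, 5, 0, 9, 13, 6, 10, 7], .l [6, 3], .l [2, 5], .l [6, 3, 6, 2, 9, 6, 3, 6, 1], .l [9, 6, 1, 6, 9, 5, 7, 1, 10, 8, 1], .l [9, 6], .l [2, 8], .l [2, 11, 15, 13, 6], .l [12, 9], .l [2, 11], .l [2, 13, 15, 11, 6], .l [14, 11], .l [2, 13], .y [2, 7, 10, 14], .l [16, 13, 13, 8, 8, 5, 1, 6, 10, 8, 1], .l [16, 13], .l [2, 15]]),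
([p 3 0, g, m 0 1, g, s 5 0, m 1 2, g, p 0 3, m 2 4, g, p 0 5, g, m 4 0, g], .hi 0, [.l [2, 1, 11, 5, 7, 6, 6, 3, 8, 4, 1], .l [0, 1], .l [2, 1], .l [2, 1], .r 3040 [6, 1, 2, 3, 4, 5] [1, 1, 1, 1, 1, 1, 1], .l [0, 3], .l [4, 3], .l [7, 6, 11, 7, 9, 8, 8, 3, 8, 4, 1], .l [0, 6], .l [7, 6], .y [0, 7], .l [0, 9, 13, 11, 6], .l [0, 9], .l [10, 9], .l [0, 9], .l [0, 11, 13, 9, 6], .l [0, 11], .l [12, 11], .l [14, 13, 13, 6, 8, 7, 1, 6, 3], .l [0, 13], .l [14, 13]]),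
([p 5 0, g, s 3 1, g, s 0 2, g, s 1 0, g, s 7 3, m 2 4, g, p 0 5, m 4 6, g, p 0 7, g, m 6 0, g], .lo 11, [.y [0, 11], .l [12, 14, 12, 5, 5, 1, 9, 5, 9, 1, 9, 5, 0, 1], .l [2, 12], .l [1, 13, 11, 10], .l [12, 14, 12, 7, 7, 1, 9, 5, 9, 1, 9, 5, 0, 1], .l [4, 12], .l [3, 13, 9, 8], .l [1, 11, 6, 1, 9, 10, 5, 6, 11, 9, 4, 1], .l [6, 12], .l [5, 13, 7, 6], .l [10, 12, 10, 5, 9, 12, 11, 0, 3, 3, 1, 5, 3], .l [1, 11, 6, 3, 9, 10, 5, 6, 11, 9, 4, 1], .l [8, 12], .l [7, 13, 5, 4], .l [10, 14, 12, 5, 5, 1, 9, 5, 9, 1, 9, 5, 2, 1], .l [11, 12], .l [9, 4, 12, 3, 12, 4, 5, 13, 11, 7, 1, 7, 3], .l [10, 12, 10, 5, 5, 1, 7, 3, 9, 3, 9, 3, 0, 5], .l [9, 4, 10, 1, 10, 4, 5, 13, 11, 7, 1, 7, 3], .l [10, 11, 0, 12], .l [15, 4, 14, 13, 4,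 3, 14, 10, 11], .l [9, 4, 10, 1, 10, 4, 5, 13, 11, 9, 3, 5, 3], .l [10, 11, 0, 14], .l [10, 11, 0, 14], .l [10, 12, 10, 5, 5, 1, 7, 3, 7, 1, 7, 3, 0, 5], .l [9, 4, 10, 1, 10, 4, 5, 11, 9, 11, 5, 7, 5], .l [10, 11, 0, 16]]),
([p 5 0, g, s 3 1, g, s 0 2, g, s 7 3, m 2 4, g, p 0 5, m 4 6, g, p 0 7, g, m 6 0, g, s 1 0, g], .lo 9, [.y [0, 9], .l [10, 18, 11, 5, 14, 7, 1, 11, 0, 1], .l [2, 10], .l [1, 11, 9, 8], .l [4, 10, 17, 8, 2, 13, 9, 1, 10, 5], .l [4, 10], .l [3, 11, 7, 6], .l [6, 10, 17, 10, 4, 13, 7, 1, 10, 5], .l [6, 10], .l [5, 11, 5, 4], .l [8, 18, 11, 5, 14, 7, 1, 11, 2, 1], .l [9, 10], .l [7, 2, 10, 3, 10, 2, 3, 11, 9, 5, 1, 5, 1], .l [8, 18, 11, 3, 14, 7, 1, 11, 0, 1], .l [7, 2, 8, 1, 8, 2, 3, 11, 9, 5, 1, 5, 1],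 .l [2, 17, 8, 2, 6, 4, 10], .l [8, 18, 11, 3, 14, 9, 3, 11, 0, 7], .l [7, 2, 8, 1, 8, 2, 3, 11, 9, 7, 3, 5, 3], .l [2, 17, 8, 4, 6, 2, 10], .l [2, 15, 6, 4, 4, 0, 8], .l [8, 18, 11, 3, 14, 9, 1, 11, 0, 7], .l [7, 2, 8, 1, 8, 2, 3, 9, 7, 9, 5, 7, 5], .l [8, 9, 0, 14], .l [1, 16, 13, 6, 13, 9, 3, 8, 3, 1, 5, 3, 5], .l [8, 16, 9, 3, 12, 7, 1, 9, 0, 9], .l [7, 2, 8, 1, 8, 2, 3, 9, 7, 11, 7, 9, 7], .l [8, 9, 0, 16]]),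
([p 4 0, g, s 2 0, g, s 0 1, g, s 6 2, m 1 3, g, p 0 4, m 3 5, g, p 0 6, g, m 5 0, g], .hi 2, [.l [9, 2, 6, 1, 9, 5, 6, 10, 8, 1], .l [3, 11, 7, 8, 10, 6, 3], .l [4, 7, 5, 5, 11, 5, 9, 8, 8, 5, 8, 2, 3], .l [9, 2, 6, 1, 11, 6, 9, 2, 3, 8, 4, 1], .l [9, 2, 10, 1, 10, 2, 5, 11, 7, 9, 7, 7, 3], .l [2, 7, 13, 5, 9, 3, 12, 6, 9], .l [7, 2, 8, 1, 8, 2, 3, 9, 7, 7, 5, 5, 1], .r 3042 [7, 1, 2, 3, 4, 5, 6] [1, 1, 1, 1, 1, 1, 1, 1], .l [2, 7, 1, 5, 11, 5, 0, 6, 10, 6, 3, 5, 3], .l [2, 7, 13, 5, 11, 5, 12, 4, 9], .l [7, 2, 8, 3, 9, 3, 4, 10, 8, 3], .l [1, 11, 9, 6, 10, 8, 3], .l [6, 3, 8, 4, 11, 6, 3, 8, 3], .l [1, 9, 7, 6, 8, 6, 3], .l [2, 11, 15, 13, 6], .l [1, 9, 7, 10, 14, 12, 12, 8, 3], .l [5, 9, 3, 4, 10, 5, 10, 4, 5], .y [2,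 12, 6], .l [2, 13, 15, 11, 6], .l [1, 9, 7, 12, 14, 10, 10, 6, 3], .l [2, 5, 11, 5, 11, 5, 12, 4, 9], .r 3043 [7, 1, 2, 3, 4, 5, 6] [1, 1, 1, 1, 1, 1, 1, 1], .l [2, 15, 9, 13, 1, 8, 10, 9, 1, 8, 5], .l [2, 5, 11, 5, 13, 7, 1, 8, 3]]),
([p 4 0, g, s 0 1, g, s 2 0, g, s 6 2, m 1 3, g, p 0 4, m 3 5, g, p 0 6, g, m 5 0, g], .lo 9, [.y [0, 9], .l [10, 12, 10, 1, 9, 5, 9, 1, 9, 5, 0, 1], .l [2, 10], .l [1, 11, 9, 8], .l [10, 12, 10, 1, 9, 3, 9, 1, 9, 3, 0, 3], .l [4, 10], .l [3, 11, 7, 6], .l [3, 9, 5, 4, 8, 6, 1], .l [10, 12, 10, 3, 9, 3, 9, 3, 9, 3, 0, 5], .l [6, 10], .l [5, 11, 5, 4], .l [8, 12, 10, 1, 9, 5, 9, 1, 9, 5, 2, 1], .l [9, 10], .l [7, 4, 10, 3, 10, 4, 1, 7, 1, 9, 5, 3, 1], .l [8, 10, 8, 1, 7, 3, 9, 3, 9, 3, 0,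 5], .l [7, 4, 8, 1, 8, 4, 1, 7, 1, 9, 5, 3, 1], .l [8, 9, 0, 10], .l [8, 10, 8, 1, 7, 3, 7, 1, 9, 5, 0, 1], .l [7, 4, 8, 1, 8, 4, 1, 9, 3, 7, 5, 7, 3], .l [8, 9, 0, 12], .l [8, 9, 0, 12], .l [8, 10, 8, 1, 7, 3, 7, 1, 7, 3, 0, 5], .l [7, 4, 8, 1, 8, 4, 1, 11, 5, 9, 7, 5, 3], .l [8, 9, 0, 14]]),
([p 3 0, g, s 0 1, g, s 5 0, m 1 2, g, p 0 3, m 2 4, g, p 0 5, g, m 4 0, g], .hi 4, [.r 3044 [1, 6, 2, 3, 4, 5] [1, 1, 1, 1, 1, 1, 1], .l [7, 2, 4, 2, 9, 6, 8, 3, 8, 4, 1], .l [7, 2, 8, 1, 8, 2, 3], .l [4, 1, 4, 2, 7, 4, 1, 4, 1], .r 3045 [1, 6, 2, 3, 4, 5] [1, 1, 1, 1, 1, 1, 1], .l [7, 4, 11, 7, 9, 1, 10, 6, 1], .l [7, 4, 8, 1, 8, 4, 1], .l [7, 2, 11, 8, 10, 3, 10, 6, 1], .l [7, 10, 7, 8, 12, 10, 1], .l [5, 2, 8, 3, 8, 2, 5], .l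 [5, 2, 6, 1, 8, 3, 6, 2, 3], .l [4, 9, 13, 11, 2], .l [4, 9, 13, 11, 2], .l [10, 5, 11, 5, 12, 4, 7], .y [4, 10], .l [4, 11, 13, 9, 2], .l [4, 11, 13, 9, 2], .l [10, 5, 11, 5, 12, 4, 7], .l [5, 14, 12, 6, 11, 3, 1, 8, 1], .l [5, 2, 6, 1, 6, 2, 9], .l [10, 5, 13, 7, 3, 8, 3]]),
([p 2 0, g, s 4 0, m 0 1, g, p 0 2, m 1 3, g, p 0 4, g, m 3 0, g], .lo 3, [.l [3, 2], .r 3046 [5, 1, 2, 3, 4] [1, 1, 1, 1, 1, 1], .l [5, 2], .r 3041 [5, 1, 2, 3, 4] [1, 1, 1, 1, 1, 1], .l [3, 0, 7, 6, 6, 1, 6, 4, 1], .r 3039 [1, 5, 2, 3] [2, 1, 1, 3, 1], .l [5, 1], .l [3, 4], .l [3, 7, 11, 9, 1], .l [8, 4], .l [3, 7], .l [3, 9, 11, 7, 1], .l [10, 6], .l [3, 9], .y [3, 6, 10], .l [3, 11, 8, 3, 9, 3, 1, 6, 1], .l [12, 8], .l [3, 11]]),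
([p 1 0, g, p 0 1, m 0 2, g, s 5 0, g, m 0 3, g, m 3 4, g, m 2 5, g, m 4 0, g], .hi 0, [.l [10, 3, 11, 4, 1, 7, 4, 9, 4, 6, 3], .l [0, 1], .l [2, 1], .y [0, 2], .l [3, 2], .l [0, 4, 12, 10, 1], .l [0, 4], .l [5, 4], .l [0, 6, 12, 8, 1], .l [0, 6], .l [7, 6], .l [7, 6], .l [0, 8, 10, 8, 10, 6, 1], .l [0, 8], .l [9, 8], .l [0, 10, 12, 4, 1], .l [0, 10], .l [11, 10], .l [0, 12, 14, 10, 10, 8, 10, 6, 1], .l [0, 12], .l [13, 12], .l [8, 3, 9, 13, 10, 11, 6, 3, 4, 6, 3], .l [0, 14], .l [15, 14]]),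
([p 2 0, g, m 0 1, g, p 0 2, m 1 3, g, s 5 0, g, m 0 4, g, m 4 0, m 3 5, g], .hi 11, [.l [2, 12, 12, 10, 12, 8, 3], .l [1, 6, 4, 11], .l [2, 12], .l [2, 10], .l [4, 12, 12, 10, 12, 8, 1], .l [3, 6, 2, 11], .l [4, 12], .l [3, 4, 0, 9], .l [12, 14, 6, 6, 3, 5, 3, 4, 6, 2, 5], .l [6, 14, 12, 12, 9, 11, 9, 5], .l [7, 12], .l [6, 9, 11, 12, 8, 8, 5, 7, 5, 2, 5], .l [8, 14, 10, 10, 7, 9, 7, 3], .l [9, 12], .y [9, 11], .l [12, 14, 6, 6, 3, 5, 3, 8, 1, 6, 3], .l [10, 13, 11, 13, 9, 9, 6, 8, 6, 1], .l [11, 12], .l [10, 12, 6, 6, 3, 5, 3, 8, 1, 6, 3], .l [10, 11, 9, 11, 7, 7, 4, 6, 4, 7], .r 3048 [2, 3, 4, 6, 5] [3, 1, 1, 1, 0, 1, 1]]),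
([p 2 0, g, m 0 1, g, p 0 2, m 1 3, g, s 4 0, g, m 0 0, m 3 4, g], .lo 9, [.l [9, 8], .l [8, 12, 10, 10, 7, 9, 5, 2, 5], .l [11, 8], .l [8, 12, 10, 10, 7, 9, 5, 2, 5], .l [8, 12, 10, 10, 5, 9, 7, 2, 3], .l [11, 6], .l [8, 12, 10, 10, 5, 9, 7, 2, 3], .l [8, 12, 8, 8, 5, 7, 5, 2, 5], .l [11, 3], .l [8, 12, 8, 8, 5, 7, 5, 2, 5], .l [6, 10, 8, 8, 5, 7, 5, 2, 1], .l [6, 12, 10, 10, 7, 9, 7, 4, 1], .l [11, 1], .r 3049 [1, 2, 3, 5, 4] [1, 1, 1, 1, 1, 1], .y [9], .l [6, 10, 8, 8, 5, 7, 5, 2, 5], .l [12, 2], .l [9, 11]]),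
([p 1 0, g, p 0 1, m 0 2, g, s 4 0, g, p 3 0, g, p 5 3, g, m 2 4, g, p 0 5, g], .hi 0, [.l [10, 3, 11, 4, 1, 7, 4, 9, 4, 6, 3], .l [0, 1], .l [2, 1], .y [0, 2], .l [3, 2], .l [0, 4, 12, 10, 1], .l [0, 4], .l [5, 4], .l [0, 6, 12, 8, 1], .l [0, 6], .l [7, 6], .l [0, 8, 10, 8, 10, 6, 1], .l [0, 8], .l [9, 8], .l [0, 10, 12, 4, 1], .l [0, 10], .l [11, 10], .l [0, 12, 14, 10, 10, 8, 10, 6, 1], .l [0, 12], .l [13, 12], .l [0, 12], .l [8, 3, 9, 13, 10, 11, 6, 3, 4, 6, 3], .l [0, 14], .l [15, 14]]),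
([p 2 0, g, m 0 1, g, p 0 2, m 1 3, g, s 5 0, g, p 4 0, g, p 0 4, m 3 5, g], .lo 11, [.l [0, 10], .l [2, 12, 12, 10, 12, 8, 3], .l [2, 12], .l [1, 6, 4, 11], .l [4, 12, 12, 10, 12, 8, 1], .l [4, 12], .l [3, 6, 2, 11], .l [12, 14, 6, 6, 3, 5, 3, 4, 6, 2, 5], .l [7, 12], .l [6, 14, 12, 12, 9, 11, 9, 5], .l [10, 12, 6, 6, 3, 5, 3, 4, 4, 0, 3], .l [6, 9, 11, 12, 8, 8, 5, 7, 5, 2, 5], .l [9, 12], .l [8, 14, 10, 10, 7, 9, 7, 3], .y [9, 11], .l [12, 14, 6, 6, 3, 5, 3, 8, 1, 6, 3], .l [11, 12], .l [10, 13, 11, 13, 9, 9, 6, 8, 6, 1], .l [10, 12, 6, 6, 3, 5, 3, 8, 1, 6, 3], .r 3051 [2, 3, 4, 5, 6] [3, 1, 1, 1, 0, 1, 1], .l [10, 11, 9, 11, 7, 7, 4, 6, 4, 7]]),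
([p 2 0, g, m 0 1, g, p 0 2, m 1 3, g, s 4 0, g, p 0 0, m 3 4, g], .hi 9, [.l [8, 12, 10, 10, 7, 9, 5, 2, 5], .l [8, 12, 10, 10, 7, 9, 5, 2, 5], .l [11, 8], .l [9, 6], .l [8, 12, 10, 10, 5, 9, 7, 2, 3], .l [8, 12, 10, 10, 5, 9, 7, 2, 3], .l [11, 6], .l [6, 10, 8, 8, 5, 7, 5, 2, 3], .l [8, 12, 8, 8, 5, 7, 5, 2, 5], .l [8, 12, 8, 8, 5, 7, 5, 2, 5], .l [11, 3], .l [6, 12, 10, 10, 7, 9, 7, 4, 1], .r 3052 [1, 2, 3, 5, 4] [1, 1, 1, 1, 1, 1], .l [11, 1], .y [9], .l [6, 10, 8, 8, 5, 7, 5, 2, 5], .l [9, 11], .l [12, 2]]),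
([p 3 0, g, s 0 1, g, s 1 0, m 0 2, g, p 0 3, m 2 4, g, s 6 0, g, p 5 0, g, s 0 5, m 4 6, g], .lo 14, [.l [0, 13, 13, 11, 13, 9, 6], .l [2, 15, 15, 13, 15, 11, 6], .l [2, 15, 15, 13, 15, 11, 6], .l [11, 17, 15, 15, 12, 1, 13, 7, 4, 7], .l [4, 15, 15, 13, 15, 11, 4], .l [4, 15, 15, 13, 15, 11, 4], .l [11, 17, 15, 15, 12, 14, 7, 4, 9], .l [4, 13, 13, 11, 13, 9, 2], .l [7, 15, 15, 13, 15, 11, 1], .l [7, 15, 15, 13, 15, 11, 1], .l [11, 17, 15, 15, 10, 1, 13, 9, 4, 5], .l [11, 17, 13, 13, 10, 1, 11, 7, 4, 9], .l [13, 17, 11, 11, 8, 1, 9, 5, 1, 8, 6, 7], .l [11, 17, 13, 13, 10, 1, 11, 7, 4, 9], .l [9, 15, 13, 13, 10, 1, 11, 7, 4, 3], .l [9, 17, 15, 15, 12, 1, 13, 9, 6, 3], .l [9, 17, 15, 15, 12, 1, 13, 9, 6, 3], .l [15, 17,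 9, 9, 6, 1, 7, 3, 10, 1, 8, 5], .y [12, 14], .l [9, 17, 15, 15, 12, 1, 13, 9, 6, 1], .l [9, 17, 15, 15, 12, 1, 13, 9, 6, 1], .l [15, 17, 9, 9, 6, 1, 7, 3, 10, 1, 8, 5], .l [9, 15, 13, 13, 10, 1, 11, 7, 4, 9], .l [11, 15, 11, 11, 8, 1, 9, 5, 1, 10, 8, 5], .l [9, 15, 13, 13, 10, 1, 11, 7, 4, 9]]),
([p 3 0, g, s 0 1, g, s 1 0, m 0 2, g, p 0 3, m 2 4, g, s 5 0, g, s 0 0, m 4 5, g], .hi 12, [.l [2, 13, 14, 10, 6], .l [11, 15, 13, 13, 10, 1, 11, 5, 2, 5], .l [2, 13, 14, 10, 6], .l [2, 11, 12, 8, 4], .l [4, 13, 14, 10, 4], .l [11, 15, 13, 13, 10, 12, 5, 2, 7], .l [4, 13, 14, 10, 4], .l [5, 11, 12, 8, 1], .l [7, 13, 14, 10, 1], .l [11, 15, 13, 13, 8, 1, 11, 7, 2, 3], .l [7, 13, 14, 10, 1], .l [9, 13, 11, 11, 8, 1, 9, 5, 2, 3],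 .l [11, 15, 11, 11, 8, 1, 9, 5, 2, 7], .l [11, 15, 11, 11, 8, 1, 9, 5, 2, 7], .l [14, 3, 14, 8, 8, 5, 1, 6, 2, 7], .l [9, 15, 13, 13, 10, 1, 11, 7, 4, 1], .r 3054 [1, 2, 3, 4, 6, 5] [1, 1, 1, 1, 1, 1, 1], .l [9, 15, 13, 13, 10, 1, 11, 7, 4, 1], .y [12], .l [9, 13, 11, 11, 8, 1, 9, 5, 2, 7], .l [9, 13, 11, 11, 8, 1, 9, 5, 2, 7], .l [15, 2, 3]]),
([p 3 0, g, s 0 1, g, s 1 0, m 0 2, g, p 0 3, m 2 4, g, s 5 0, g, m 4 5, g], .bot 11, [.c, .r 3055 [1, 2, 3, 4, 5] [1, 1, 1, 1, 1, 1], .r 3053 [2, 3, 4, 5] [4, 1, 1, 1, 1], .r 3050 [2, 3, 4, 5] [4, 1, 1, 1, 1]]),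
([p 7 0, g, m 0 1, g, m 1 2, g, m 2 3, g, m 3 4, g, m 4 5, g, m 5 0, s 0 6, g, p 6 7, m 0 8, g, m 8 0, g], .lo 16, [.l [16, 15], .l [16, 18, 3, 13, 14, 13, 16, 6, 0, 2, 11], .l [18, 15], .l [1, 12, 13, 12, 16, 6, 2, 13, 13, 11, 11, 9, 9, 7, 9, 7, 2, 1], .l [18, 13, 15, 13, 13, 11, 11, 9, 9, 7, 7, 5, 1], .l [18, 13], .l [1, 12, 13, 12, 16, 8, 10, 8, 2, 11, 11, 9, 9, 7, 9, 7, 2, 1], .l [18, 11, 13, 11, 11, 9, 9, 7, 7, 5, 1], .l [18, 11], .l [1, 12, 13, 12, 16, 10, 12, 10, 10, 8, 2, 9, 9, 7, 9, 7, 2, 1], .l [18, 9, 11, 9, 9, 7, 7, 5, 1], .l [18, 9], .l [1, 12, 13, 12, 16, 12, 14, 12, 12, 10, 10, 8, 2, 7, 9, 7, 2, 1], .l [18, 7, 9, 7, 7, 5, 1], .l [18, 7], .l [1, 12, 17, 14, 16, 14, 14, 12, 12, 10, 10, 8, 2, 7, 9, 7, 2, 1],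 .l [18, 5, 7, 5, 1], .l [18, 5], .l [16, 18, 13, 12, 0, 14, 16, 13, 15, 13, 13, 11, 11, 9, 9, 7, 7, 5], .l [14, 16, 13, 12, 0, 12, 14, 13, 13, 11, 11, 9, 9, 7, 7, 5, 5, 3], .l [3, 13, 17, 2, 7, 2, 16, 11, 13, 10, 10, 8, 8, 6, 6, 4, 5], .l [18, 2], .l [4, 17, 12, 17, 1, 15, 15, 13, 13, 11, 11, 9, 3, 1, 5, 8, 2, 5], .l [12, 18, 1, 19, 17, 2, 1], .l [18, 1], .l [16, 17], .y [16, 18], .l [20, 3, 6, 1, 18, 16, 1], .l [20, 3], .l [16, 19]]),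
([p 8 0, g, m 2 1, g, s 0 2, g, m 1 3, g, m 3 4, g, m 4 5, g, m 5 0, s 0 6, g, m 0 7, g, p 6 8, m 7 9, g, m 9 0, g], .lo 4, [.l [0, 3, 5, 3, 3, 1, 12, 10, 10, 8, 8, 6, 6, 4, 3], .l [2, 5, 7, 5, 5, 1, 14, 10, 12, 10, 10, 8, 8, 6, 3], .l [2, 5, 7, 5, 5, 1, 14, 10, 12, 10, 10, 8, 8, 6, 3], .l [4, 19, 14, 3, 16, 17, 11, 8, 13, 4, 9, 9, 7, 7, 5, 9, 4, 1], .l [5, 19, 13, 16, 1, 12, 12, 10, 10, 8, 8, 6, 3], .l [6, 1, 18, 12, 16, 1, 1, 12, 12, 10, 10, 8, 8, 6, 3], .l [5, 19, 13, 16, 1, 12, 12, 10, 10, 8, 8, 6, 3], .l [5, 19, 13, 16, 1, 12, 12, 10, 10, 8, 8, 6, 3], .l [2, 3, 9, 17, 8, 12, 1, 15, 9, 6, 11, 4, 7, 7, 5, 9, 4, 1], .l [5, 19, 13, 16, 1, 12, 12, 10, 10, 8, 8, 6, 3], .l [7, 10, 8, 17, 11, 14, 1, 10, 10, 8, 8, 6, 3], .l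 [2, 3, 7, 3, 16, 10, 14, 12, 12, 10, 10, 8, 3], .l [7, 10, 8, 17, 11, 14, 1, 10, 10, 8, 8, 6, 3], .l [9, 12, 10, 10, 8, 15, 9, 12, 1, 8, 8, 6, 3], .l [2, 3, 9, 5, 5, 3, 14, 8, 12, 10, 10, 8, 3], .l [9, 12, 10, 10, 8, 15, 9, 12, 1, 8, 8, 6, 3], .l [11, 19, 7, 10, 18, 12, 6, 14, 16, 12, 1, 4, 11], .l [2, 3, 11, 7, 7, 5, 5, 3, 12, 6, 10, 8, 3], .l [11, 19, 7, 10, 18, 12, 6, 14, 16, 12, 1, 4, 11], .y [2, 6, 8, 10, 12, 4], .l [15, 10, 10, 10, 10, 8, 8, 6, 6, 4, 4, 2, 7], .l [2, 3, 14, 10, 10, 8, 8, 6, 6, 4, 4, 2, 7], .l [2, 3, 16, 2, 12, 12, 10, 10, 8, 8, 6, 11, 6, 1, 7, 9, 6, 1], .l [17, 12, 12, 12, 12, 10, 10, 8, 8, 6, 6, 4, 7], .l [2, 3, 16, 12, 12, 10, 10, 8, 8, 6, 6, 4, 7], .l [2, 3, 12, 16, 17, 13, 3, 13, 15, 13, 8],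 .l [3, 17, 13, 18, 3, 14, 14, 12, 12, 10, 10, 8, 3], .l [2, 3, 19, 15, 15, 13, 13, 11, 11, 9, 9, 7, 3], .l [2, 3, 3, 17, 19, 17, 12], .l [2, 3, 3, 17, 17, 15, 12], .l [3, 17, 13, 20, 5, 16, 16, 14, 14, 12, 12, 10, 3], .l [2, 3, 21, 17, 17, 15, 15, 13, 13, 11, 11, 9, 3], .l [3, 17, 13, 20, 5, 16, 16, 14, 14, 12, 12, 10, 3]]),
([p 7 0, g, m 2 1, g, s 0 2, g, m 1 3, g, m 3 4, g, m 4 5, g, m 5 0, s 0 6, g, p 6 7, m 0 8, g, m 8 0, g], .lo 16, [.l [16, 15], .l [18, 15, 17, 2, 12, 15, 13, 13, 11, 11, 9, 9, 7, 1, 8, 4, 1], .l [18, 15], .l [6, 1, 17, 13, 3, 13, 15, 13, 6, 7, 5, 5, 3, 1, 4, 2, 3], .l [18, 13, 15, 11, 11, 9, 9, 7, 7, 5, 1], .l [18, 13], .l [6, 3, 7, 3, 14, 12, 14, 10, 12, 10, 10, 8, 8, 6, 1], .l [18, 11, 15, 13,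 13, 11, 11, 9, 9, 7, 1], .l [18, 11], .l [14, 18, 9, 11, 7, 9, 1, 9, 7, 13, 11, 2, 1], .l [18, 9, 11, 9, 9, 7, 7, 5, 1], .l [18, 9], .l [14, 18, 11, 13, 11, 11, 7, 9, 1, 9, 7, 11, 9, 2, 1], .l [18, 7, 9, 7, 7, 5, 1], .l [18, 7], .l [9, 12, 10, 10, 8, 8, 4, 6, 1, 10, 6, 2, 7, 9, 7, 2, 1], .l [18, 5, 7, 5, 1], .l [18, 5], .l [14, 18, 15, 17, 15, 15, 13, 13, 11, 11, 7, 9, 1, 9, 5, 2, 1], .l [12, 16, 15, 15, 13, 13, 11, 11, 9, 9, 5, 7, 1, 7, 5, 2, 1], .l [18, 2, 17, 15, 10, 13, 11, 11, 9, 9, 7, 11, 6, 1, 1, 6, 3], .l [18, 2], .r 3058 [1, 2, 3, 4, 5, 6, 9, 7, 8] [1, 1, 1, 1, 1, 1, 1, 1, 1, 1], .l [2, 15, 12, 17, 1, 2, 11, 11, 9, 9, 7, 7, 5, 1, 8, 4, 1], .l [18, 1], .l [16, 17], .y [16, 18], .l [4, 1, 14, 10, 18, 3, 3, 1, 3,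 12, 12, 10, 10, 8, 8, 6, 1], .l [20, 3], .l [16, 19]]),
([p 6 0, g, m 0 1, g, m 1 2, g, m 2 3, g, m 3 4, g, m 4 0, s 0 5, g, p 5 6, m 0 7, g, m 7 0, g], .lo 2, [.l [2, 1], .l [4, 1, 14, 10, 12, 10, 10, 8, 8, 6, 6, 4, 1], .l [4, 1], .r 3057 [8, 1, 2, 3, 4, 5, 6, 7] [1, 1, 1, 1, 1, 1, 1, 1, 1], .r 3059 [1, 8, 2, 3, 4, 5, 6, 7] [1, 1, 1, 1, 1, 1, 1, 1, 1], .l [4, 1], .l [2, 3], .l [6, 3, 14, 8, 12, 10, 10, 8, 8, 6, 1], .l [6, 3], .l [2, 5], .l [8, 5, 5, 3, 12, 6, 10, 8, 8, 6, 1], .l [8, 5], .l [2, 7], .l [10, 7, 7, 5, 5, 3, 10, 4, 8, 6, 1], .l [10, 7], .l [2, 9], .y [2, 4, 6, 8, 10], .l [13, 10, 10, 8, 8, 6, 6, 4, 4, 2, 5], .l [13, 10], .l [2, 12], .l [2, 15, 17, 15, 10], .l [16, 13], .l [2, 15], .l [2, 15], .l [18, 15, 15,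 13, 13, 11, 11, 9, 9, 7, 1], .l [18, 15], .l [2, 17]]),
([p 7 0, g, m 2 1, g, s 0 2, g, m 1 3, g, m 3 4, g, m 4 0, s 0 5, g, m 0 6, g, p 5 7, m 6 8, g, m 8 0, g], .lo 11, [.y [0, 11, 15], .l [10, 17, 6, 12, 1, 15, 7, 4, 11, 6, 7, 1, 10, 4, 1], .l [10, 17, 6, 12, 1, 15, 7, 4, 11, 6, 7, 1, 10, 4, 1], .l [6, 1, 12, 14, 1, 8, 5, 13, 5, 7, 5, 5, 3, 6, 8, 2, 5], .l [12, 17, 4, 7, 16, 10, 5, 12, 1, 6, 1, 8, 10, 4, 1], .l [13, 8, 10, 6, 6, 4, 4, 2, 9], .l [12, 17, 4, 7, 16, 10, 5, 12, 1, 6, 1, 8, 10, 4, 1], .l [12, 17, 4, 9, 16, 8, 3, 10, 1, 6, 1, 6, 10, 6, 1], .l [13, 6, 10, 8, 8, 6, 6, 4, 9], .l [12, 17, 4, 9, 16, 8, 3, 10, 1, 6, 1, 6, 10, 6, 1], .l [12, 17, 4, 11, 13, 11, 14, 6, 3, 8, 12, 8, 3], .l [13, 4, 6, 4, 4, 2, 11],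 .l [12, 17, 4, 11, 13, 11, 14, 6, 3, 8, 12, 8, 3], .l [9, 17, 7, 2, 13], .l [10, 12, 9], .l [9, 17, 7, 2, 13], .l [9, 15, 5, 0, 11], .l [8, 17, 8, 12, 1, 15, 9, 6, 11, 4, 7, 1, 10, 4, 1], .l [4, 1, 10, 14, 1, 8, 3, 13, 5, 9, 7, 7, 5, 2, 8, 6, 3], .l [4, 1, 10, 14, 3, 12, 13, 2, 8, 3, 12, 6, 9], .l [8, 17, 8, 12, 1, 15, 7, 4, 11, 6, 7, 3, 10, 4, 1], .l [8, 17, 8, 12, 1, 15, 7, 4, 11, 6, 7, 3, 10, 4, 1], .l [16, 18, 14, 1, 15, 17, 15, 0, 11], .l [11, 17, 2, 15, 17, 2, 5], .l [11, 15, 3, 7, 1, 13, 7, 1, 9, 13, 9, 10, 7, 1, 3, 6, 3], .l [11, 17, 2, 15, 17, 2, 5], .l [11, 17, 2, 15, 15, 0, 3], .l [4, 1, 10, 12, 1, 6, 3, 11, 5, 7, 5, 5, 3, 8, 3, 6, 3], .l [6, 15, 8, 1, 12, 13, 5, 11, 1, 9, 5, 9, 7, 4, 8, 6, 1], .l [4, 1, 10,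 12, 1, 6, 3, 11, 5, 7, 5, 5, 3, 8, 3, 6, 3]]),
([p 6 0, g, m 2 1, g, s 0 2, g, m 1 3, g, m 3 4, g, m 4 0, s 0 5, g, p 5 6, m 0 7, g, m 7 0, g], .lo 14, [.l [14, 13], .l [16, 13, 15, 2, 10, 13, 11, 11, 9, 9, 7, 1, 8, 4, 1], .l [16, 13], .l [6, 1, 15, 11, 3, 11, 13, 11, 4, 5, 3, 1, 4, 2, 3], .l [16, 11, 13, 9, 9, 7, 7, 5, 1], .l [16, 11], .l [6, 3, 7, 3, 12, 10, 12, 8, 10, 8, 8, 6, 1], .l [16, 9, 13, 11, 11, 9, 9, 7, 1], .l [16, 9], .l [12, 16, 9, 11, 7, 9, 1, 9, 7, 11, 9, 2, 1], .l [16, 7, 9, 7, 7, 5, 1], .l [16, 7], .l [7, 10, 8, 8, 4, 6, 1, 10, 6, 2, 7, 9, 7, 2, 1], .l [16, 5, 7, 5, 1], .l [16, 5], .l [12, 16, 13, 15, 13, 13, 11, 11, 7, 9, 1, 9, 5, 2, 1], .l [10, 14, 13, 13, 11, 11, 9, 9, 5, 7, 1, 7, 5, 2, 1], .l [16,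 2, 15, 13, 8, 11, 9, 9, 7, 11, 6, 1, 1, 6, 3], .l [16, 2], .r 3061 [1, 2, 3, 4, 5, 8, 6, 7] [1, 1, 1, 1, 1, 1, 1, 1, 1], .l [2, 13, 10, 15, 1, 2, 9, 9, 7, 7, 5, 1, 8, 4, 1], .l [16, 1], .l [14, 15], .y [14, 16], .l [4, 1, 12, 8, 16, 3, 3, 1, 3, 10, 10, 8, 8, 6, 1], .l [18, 3], .l [14, 17]]),
([p 5 0, g, m 0 1, g, m 1 2, g, m 2 3, g, m 3 0, s 0 4, g, p 4 5, m 0 6, g, m 6 0, g], .lo 2, [.l [2, 1], .l [4, 1, 12, 8, 10, 8, 8, 6, 6, 4, 1], .l [4, 1], .r 3060 [7, 1, 2, 3, 4, 5, 6] [1, 1, 1, 1, 1, 1, 1, 1], .r 3062 [1, 7, 2, 3, 4, 5, 6] [1, 1, 1, 1, 1, 1, 1, 1], .l [4, 1], .l [2, 3], .l [6, 3, 12, 6, 10, 8, 8, 6, 1], .l [6, 3], .l [2, 5], .l [8, 5, 5, 3, 10, 4, 8, 6, 1], .l [8, 5], .l [2, 7], .y [2, 4, 6, 8], .l [11, 8, 8, 6,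 6, 4, 4, 2, 5], .l [11, 8], .l [2, 10], .l [2, 13, 15, 13, 8], .l [14, 11], .l [2, 13], .l [2, 13], .l [16, 13, 13, 11, 11, 9, 9, 7, 1], .l [16, 13], .l [2, 15]]),
([p 6 0, g, m 2 1, g, s 0 2, g, m 1 3, g, m 3 0, s 0 4, g, m 0 5, g, p 4 6, m 5 7, g, m 7 0, g], .hi 0, [.l [6, 1, 14, 8, 1, 10, 12, 6, 10, 1, 1, 6, 1], .l [0, 1], .l [2, 1], .l [4, 3, 14, 10, 12, 8, 8, 6, 3], .l [0, 3], .l [4, 3], .l [0, 3, 5, 3, 3, 1, 8, 6, 6, 4, 3], .l [6, 5, 14, 8, 12, 10, 10, 8, 3], .l [0, 5], .l [6, 5], .l [8, 7, 14, 6, 8, 6, 3], .l [0, 7], .l [8, 7], .y [0, 9, 13], .l [8, 15, 6, 5, 5, 1, 7, 1, 10, 6, 3, 6, 8, 6, 3], .l [0, 10], .l [11, 10], .l [11, 10], .l [9, 14, 15, 11, 1, 11, 13, 11, 8], .l [0, 12], .l [13, 12], .l [0, 15, 17, 15,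 12], .l [0, 15], .l [16, 15], .l [4, 1, 12, 8, 1, 8, 10, 6, 12, 3, 3, 8, 1], .l [0, 17], .l [18, 17]]),
([p 5 0, g, m 2 1, g, s 0 2, g, m 1 3, g, m 3 0, s 0 4, g, p 4 5, m 0 6, g, m 6 0, g], .lo 12, [.l [12, 11], .l [14, 11, 13, 2, 8, 11, 9, 9, 7, 1, 8, 4, 1], .l [14, 11], .l [6, 1, 13, 9, 3, 9, 7, 2, 7, 9, 7, 2, 1], .l [14, 9, 11, 7, 7, 5, 1], .l [14, 9], .l [6, 3, 7, 3, 10, 8, 10, 6, 8, 6, 1], .l [14, 7, 11, 9, 9, 7, 1], .l [14, 7], .l [5, 8, 4, 6, 1, 10, 6, 2, 7, 9, 7, 2, 1], .l [14, 5, 7, 5, 1], .l [14, 5], .l [10, 14, 11, 13, 11, 11, 7, 9, 1, 9, 5, 2, 1], .l [8, 12, 11, 11, 9, 9, 5, 7, 1, 7, 5, 2, 1], .l [14, 2, 13, 11, 6, 9, 7, 11, 6, 1, 1, 6, 3], .l [14, 2], .r 3064 [1, 2, 3, 4, 7, 5, 6] [1, 1, 1, 1, 1, 1, 1, 1],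 .l [2, 11, 8, 13, 1, 2, 7, 7, 5, 1, 8, 4, 1], .l [14, 1], .l [12, 13], .y [12, 14], .l [4, 1, 10, 6, 14, 3, 3, 1, 3, 8, 8, 6, 1], .l [16, 3], .l [12, 15]]),
([p 4 0, g, m 0 1, g, m 1 2, g, m 2 0, s 0 3, g, p 3 4, m 0 5, g, m 5 0, g], .lo 2, [.l [2, 1], .l [4, 1, 10, 6, 8, 6, 6, 4, 1], .l [4, 1], .r 3063 [6, 1, 2, 3, 4, 5] [1, 1, 1, 1, 1, 1, 1], .r 3065 [1, 6, 2, 3, 4, 5] [1, 1, 1, 1, 1, 1, 1], .l [4, 1], .l [2, 3], .l [6, 3, 10, 4, 8, 6, 1], .l [6, 3], .l [2, 5], .y [2, 4, 6], .l [9, 6, 6, 4, 4, 2, 5], .l [9, 6], .l [2, 8], .l [2, 11, 13, 11, 6], .l [12, 9], .l [2, 11], .l [2, 11], .l [14, 11, 11, 9, 9, 7, 1], .l [14, 11], .l [2, 13]]),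
([p 5 0, g, m 2 1, g, s 0 2, g, m 1 0, s 0 3, g, m 0 4, g, p 3 5, m 4 6, g, m 6 0, g], .hi 0, [.l [9, 12, 5, 1, 7, 1, 9, 5, 3, 6, 8, 6, 1], .l [0, 1], .l [2, 1], .l [4, 3, 12, 8, 10, 6, 3], .l [0, 3], .l [4, 3], .l [2, 3, 3, 1, 8, 6, 6, 4, 3], .l [6, 5, 12, 6, 10, 8, 3], .l [0, 5], .l [6, 5], .y [0, 7, 11], .l [12, 3, 10, 6, 11, 3, 7, 1, 10, 6, 0, 2, 5], .l [0, 8], .l [9, 8], .l [9, 8], .l [7, 12, 13, 9, 1, 9, 11, 9, 6], .l [0, 10], .l [11, 10], .l [0, 13, 15, 13, 10], .l [0, 13], .l [14, 13], .l [7, 10, 15, 11, 3, 1, 5, 9, 7, 1, 3, 6, 1], .l [0, 15], .l [16, 15]]),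
([p 4 0, g, m 2 1, g, s 0 2, g, m 1 0, s 0 3, g, p 3 4, m 0 5, g, m 5 0, g], .lo 10, [.l [10, 9], .l [10, 12, 3, 5, 11, 8, 0, 4, 7], .l [12, 9], .l [1, 6, 1, 10, 6, 2, 7, 9, 7, 2, 1], .l [12, 7, 9, 5, 1], .l [12, 7], .l [6, 3, 10, 4, 10, 1, 3, 6, 1], .l [12, 5, 9, 7, 1], .l [12, 5], .l [8, 12, 9, 11, 7, 9, 1, 9, 5, 2, 1], .l [6, 10, 9, 9, 5, 7, 1, 7, 5, 2, 1], .r 2870 [1, 2, 3, 6, 4, 5] [1, 1, 1, 1, 1, 1, 1], .l [12, 2], .r 3067 [1, 2, 3, 6, 4, 5] [1, 1, 1, 1, 1, 1, 1], .l [4, 1, 5, 3, 10, 1, 10, 8, 5], .l [12, 1], .l [10, 11], .y [10, 12], .l [14, 3, 6, 1, 12, 10, 1], .l [14, 3], .l [10, 13]]),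
([p 3 0, g, m 0 1, g, m 1 0, s 0 2, g, p 2 3, m 0 4, g, m 4 0, g], .lo 2, [.l [2, 1], .l [4, 1, 8, 4, 6, 4, 1], .l [4, 1], .r 3066 [5, 1, 2, 3, 4] [1, 1, 1, 1, 1, 1], .r 3068 [1, 5, 2, 3, 4] [1, 1, 1, 1, 1, 1], .l [4, 1], .l [2, 3], .y [2, 4], .l [7, 4, 4, 2, 5], .l [7, 4], .l [2, 6], .l [2, 9, 11, 9, 4], .l [10, 7], .l [2, 9], .l [2, 9], .l [12, 9, 9, 7, 1], .l [12, 9], .l [2, 11]]),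
([p 2 0, g, m 0 0, s 0 1, g, p 1 2, m 0 3, g, m 3 0, g], .lo 2, [.l [2, 1], .l [4, 1, 6, 2, 1], .l [4, 1], .r 3069 [4, 1, 2, 3] [1, 1, 1, 1, 1], .y [2], .l [5, 2, 5], .l [5, 2], .l [2, 4], .l [2, 7, 9, 7, 2], .l [8, 5], .l [2, 7], .l [2, 7], .l [4, 5, 0, 2, 7], .l [10, 7], .l [2, 9]]),
([p 5 0, g, p 2 1, g, s 1 0, g, p 0 2, s 0 3, g, m 0 4, g, p 3 5, m 4 6, g, m 6 0, g], .hi 0, [.l [9, 12, 5, 1, 7, 1, 9, 5, 3, 6, 8, 6, 1], .l [0, 1], .l [2, 1], .l [4, 3, 12, 8, 10, 6, 3], .l [0, 3], .l [4, 3], .l [6, 5, 12, 6, 10, 8, 3], .l [0, 5], .l [6, 5], .l [0, 5], .y [0, 7, 11], .l [12, 3, 10, 6, 11, 3, 7, 1, 10, 6, 0, 2, 5], .l [0, 8], .l [9, 8], .l [9, 8], .l [7, 12, 13, 9, 1, 9, 11, 9, 6], .l [0, 10], .l [11, 10], .l [0, 13, 15,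 13, 10], .l [0, 13], .l [14, 13], .l [7, 10, 15, 11, 3, 1, 5, 9, 7, 1, 3, 6, 1], .l [0, 15], .l [16, 15]])]

def D11 : List (List (List Item × Qry × List Rf)) := [d11_0, d11_1, d11_2, d11_3]

end Pool.Agent.H63.PU.C161
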