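import Pool.Agent.H63.PU.Ck3

/-! Certificate data, machine generated. -/

namespace Pool.Agent.H63.PU.C161

open Pool.Agent.H63.PU Pool.Agent.H63.PU.Ck3 Pool.Agent.H63.PU.Short

set_option maxRecDepth 20000

def d12_0 : List (List Item × Qry × List Rf) := [
([p 4 0, g, p 2 1, g, s 1 0, g, p 0 2, s 0 3, g, p 3 4, m 0 5, g, m 5 0, g], .lo 10, [.l [10, 9], .l [10, 12, 3, 5, 11, 8, 0, 4, 7], .l [12, 9], .l [1, 6, 1, 10, 6, 2, 7, 9, 7, 2, 1], .l [12, 7, 9, 5, 1], .l [12, 7], .l [6, 3, 10, 4, 10, 1, 3, 6, 1], .l [2, 3, 9, 5, 5, 3, 1], .l [12, 5, 9, 7, 1], .l [12, 5], .l [8, 12, 9, 11, 7, 9, 1, 9, 5, 2, 1], .r 2865 [1, 2, 3, 6, 4, 5] [1, 1, 1, 1, 1, 1, 1], .l [12, 2], .r 3071 [1, 2, 3, 6, 4, 5] [1, 1, 1, 1, 1, 1, 1], .l [4, 1,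 5, 3, 10, 1, 10, 8, 5], .l [12, 1], .l [10, 11], .y [10, 12], .l [14, 3, 6, 1, 12, 10, 1], .l [14, 3], .l [10, 13]]),
([p 6 0, g, p 2 1, g, s 1 0, g, p 3 2, g, p 0 3, s 0 4, g, m 0 5, g, p 4 6, m 5 7, g, m 7 0, g], .hi 0, [.l [6, 1, 14, 8, 1, 10, 12, 6, 10, 1, 1, 6, 1], .l [0, 1], .l [2, 1], .l [4, 3, 14, 10, 12, 8, 8, 6, 3], .l [0, 3], .l [4, 3], .l [6, 5, 14, 8, 12, 10, 10, 8, 3], .l [0, 5], .l [6, 5], .l [8, 7, 14, 6, 8, 6, 3], .l [0, 7], .l [8, 7], .l [0, 7], .y [0, 9, 13], .l [8, 15, 6, 5, 5, 1, 7, 1, 10, 6, 3, 6, 8, 6, 3], .l [0, 10], .l [11, 10], .l [11, 10], .l [9, 14, 15, 11, 1, 11, 13, 11, 8], .l [0, 12], .l [13, 12], .l [0, 15, 17, 15, 12], .l [0, 15], .l [16, 15], .l [4, 1, 12, 8, 1, 8, 10, 6, 12, 3, 3, 8,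 1], .l [0, 17], .l [18, 17]]),
([p 5 0, g, p 2 1, g, s 1 0, g, p 3 2, g, p 0 3, s 0 4, g, p 4 5, m 0 6, g, m 6 0, g], .lo 12, [.l [12, 11], .l [14, 11, 13, 2, 8, 11, 9, 9, 7, 1, 8, 4, 1], .l [14, 11], .l [6, 1, 13, 9, 3, 9, 7, 2, 7, 9, 7, 2, 1], .l [14, 9, 11, 7, 7, 5, 1], .l [14, 9], .l [6, 3, 7, 3, 10, 8, 10, 6, 8, 6, 1], .l [2, 3, 11, 7, 7, 5, 5, 3, 1], .l [14, 7, 11, 9, 9, 7, 1], .l [14, 7], .l [5, 8, 4, 6, 1, 10, 6, 2, 7, 9, 7, 2, 1], .l [14, 5, 7, 5, 1], .l [14, 5], .l [10, 14, 11, 13, 11, 11, 7, 9, 1, 9, 5, 2, 1], .l [14, 2, 13, 11, 6, 9, 7, 11, 6, 1, 1, 6, 3], .l [14, 2], .r 3073 [1, 2, 3, 4, 7, 5, 6] [1, 1, 1, 1, 1, 1, 1, 1], .l [2, 11, 8, 13, 1, 2, 7, 7, 5, 1, 8, 4, 1], .l [14, 1], .l [12, 13], .y [12, 14], .l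 [4, 1, 10, 6, 14, 3, 3, 1, 3, 8, 8, 6, 1], .l [16, 3], .l [12, 15]]),
([p 8 0, g, p 2 1, g, s 1 0, g, p 3 2, g, p 4 3, g, p 5 4, g, p 0 5, s 0 6, g, m 0 7, g, p 6 8, m 7 9, g, m 9 0, g], .hi 4, [.l [2, 5, 7, 5, 5, 1, 14, 10, 12, 10, 10, 8, 8, 6, 3], .l [4, 19, 14, 3, 16, 17, 11, 8, 13, 4, 9, 9, 7, 7, 5, 9, 4, 1], .l [2, 5, 7, 5, 5, 1, 14, 10, 12, 10, 10, 8, 8, 6, 3], .l [5, 19, 13, 16, 1, 12, 12, 10, 10, 8, 8, 6, 3], .l [5, 19, 13, 16, 1, 12, 12, 10, 10, 8, 8, 6, 3], .l [6, 1, 18, 12, 16, 1, 1, 12, 12, 10, 10, 8, 8, 6, 3], .l [5, 19, 13, 16, 1, 12, 12, 10, 10, 8, 8, 6, 3], .l [5, 19, 13, 16, 1, 12, 12, 10, 10, 8, 8, 6, 3], .l [2, 3, 9, 17, 8, 12, 1, 15, 9, 6, 11, 4, 7, 7, 5, 9, 4, 1], .l [7, 10, 8, 17, 11, 14, 1, 10, 10,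 8, 8, 6, 3], .l [7, 10, 8, 17, 11, 14, 1, 10, 10, 8, 8, 6, 3], .l [2, 3, 7, 3, 16, 10, 14, 12, 12, 10, 10, 8, 3], .l [9, 12, 10, 10, 8, 15, 9, 12, 1, 8, 8, 6, 3], .l [9, 12, 10, 10, 8, 15, 9, 12, 1, 8, 8, 6, 3], .l [2, 3, 9, 5, 5, 3, 14, 8, 12, 10, 10, 8, 3], .l [11, 19, 7, 10, 18, 12, 6, 14, 16, 12, 1, 4, 11], .l [11, 19, 7, 10, 18, 12, 6, 14, 16, 12, 1, 4, 11], .l [2, 3, 11, 7, 7, 5, 5, 3, 12, 6, 10, 8, 3], .y [2, 4, 12, 10, 8, 6], .l [13, 8, 8, 8, 8, 6, 6, 4, 4, 2, 2, 0, 5], .l [15, 10, 10, 10, 10, 8, 8, 6, 6, 4, 4, 2, 7], .l [2, 3, 16, 2, 12, 12, 10, 10, 8, 8, 6, 11, 6, 1, 7, 9, 6, 1], .l [2, 3, 14, 10, 10, 8, 8, 6, 6, 4, 4, 2, 7], .l [2, 3, 14, 10, 10, 8, 8, 6, 6, 4, 4, 2, 5], .l [17, 12, 12, 12, 12, 10, 10, 8, 8,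 6, 6, 4, 7], .l [2, 3, 12, 16, 17, 13, 3, 13, 15, 13, 8], .l [2, 3, 16, 12, 12, 10, 10, 8, 8, 6, 6, 4, 7], .l [3, 17, 13, 18, 3, 14, 14, 12, 12, 10, 10, 8, 3], .l [2, 3, 3, 17, 19, 17, 12], .l [2, 3, 19, 15, 15, 13, 13, 11, 11, 9, 9, 7, 3], .l [3, 17, 13, 20, 5, 16, 16, 14, 14, 12, 12, 10, 3], .l [3, 17, 13, 20, 5, 16, 16, 14, 14, 12, 12, 10, 3], .l [2, 3, 21, 17, 17, 15, 15, 13, 13, 11, 11, 9, 3]]),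
([p 7 0, g, p 2 1, g, s 1 0, g, p 3 2, g, p 4 3, g, p 5 4, g, p 0 5, s 0 6, g, p 6 7, m 0 8, g, m 8 0, g], .lo 16, [.l [16, 15], .l [18, 15, 17, 2, 12, 15, 13, 13, 11, 11, 9, 9, 7, 1, 8, 4, 1], .l [18, 15], .l [6, 1, 17, 13, 3, 13, 15, 13, 6, 7, 5, 5, 3, 1, 4, 2, 3], .l [18, 13, 15, 11, 11, 9, 9, 7, 7, 5, 1], .l [18, 13], .l [6, 3, 7, 3, 14, 12, 14, 10, 12, 10, 10, 8, 8, 6, 1], .l [2, 3, 15, 11, 11, 9, 9, 7, 7, 5, 5, 3, 1], .l [18, 11, 15, 13, 13, 11, 11, 9, 9, 7, 1], .l [18, 11], .l [14, 18, 9, 11, 7, 9, 1, 9, 7, 13, 11, 2, 1], .l [18, 9, 11, 9, 9, 7, 7, 5, 1], .l [18, 9], .l [14, 18, 11, 13, 11, 11, 7, 9, 1, 9, 7, 11, 9, 2, 1], .l [18, 7, 9, 7, 7, 5, 1], .l [18, 7], .l [9, 12, 10, 10, 8, 8, 4, 6, 1, 10, 6, 2, 7, 9, 7,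 2, 1], .l [18, 5, 7, 5, 1], .l [18, 5], .l [14, 18, 15, 17, 15, 15, 13, 13, 11, 11, 7, 9, 1, 9, 5, 2, 1], .l [18, 2, 17, 15, 10, 13, 11, 11, 9, 9, 7, 11, 6, 1, 1, 6, 3], .l [18, 2], .r 3075 [1, 2, 3, 4, 5, 6, 9, 7, 8] [1, 1, 1, 1, 1, 1, 1, 1, 1, 1], .l [2, 15, 12, 17, 1, 2, 11, 11, 9, 9, 7, 7, 5, 1, 8, 4, 1], .l [18, 1], .l [16, 17], .y [16, 18], .l [4, 1, 14, 10, 18, 3, 3, 1, 3, 12, 12, 10, 10, 8, 8, 6, 1], .l [20, 3], .l [16, 19]]),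
([p 7 0, g, p 1 0, g, p 2 1, g, p 3 2, g, p 4 3, g, p 5 4, g, p 0 5, s 0 6, g, p 6 7, m 0 8, g, m 8 0, g], .lo 16, [.l [16, 15], .l [16, 18, 3, 13, 14, 13, 16, 6, 0, 2, 11], .l [18, 15], .l [1, 12, 13, 12, 16, 6, 2, 13, 13, 11, 11, 9, 9, 7, 9, 7, 2, 1], .l [16, 13], .l [18, 13, 15, 13, 13, 11, 11, 9, 9, 7, 7, 5, 1], .l [18, 13], .l [1, 12, 13, 12, 16, 8, 10, 8, 2, 11, 11, 9, 9, 7, 9, 7, 2, 1], .l [18, 11, 13, 11, 11, 9, 9, 7, 7, 5, 1], .l [18, 11], .l [1, 12, 13, 12, 16, 10, 12, 10, 10, 8, 2, 9, 9, 7, 9, 7, 2, 1], .l [18, 9, 11, 9, 9, 7, 7, 5, 1], .l [18, 9], .l [1, 12, 13, 12, 16, 12, 14, 12, 12, 10, 10, 8, 2, 7, 9, 7, 2, 1], .l [18, 7, 9, 7, 7, 5, 1], .l [18, 7], .l [1, 12, 17, 14, 16, 14, 14, 12, 12, 10, 10, 8, 2, 7,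 9, 7, 2, 1], .l [18, 5, 7, 5, 1], .l [18, 5], .l [16, 18, 13, 12, 0, 14, 16, 13, 15, 13, 13, 11, 11, 9, 9, 7, 7, 5], .l [3, 13, 17, 2, 7, 2, 16, 11, 13, 10, 10, 8, 8, 6, 6, 4, 5], .l [18, 2], .l [4, 17, 12, 17, 1, 15, 15, 13, 13, 11, 11, 9, 3, 1, 5, 8, 2, 5], .l [12, 18, 1, 19, 17, 2, 1], .l [18, 1], .l [16, 17], .y [16, 18], .l [20, 3, 6, 1, 18, 16, 1], .l [20, 3], .l [16, 19]]),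
([p 6 0, g, p 1 0, g, p 2 1, g, p 3 2, g, p 4 3, g, p 0 4, s 0 5, g, p 5 6, m 0 7, g, m 7 0, g], .hi 2, [.l [4, 1, 14, 10, 12, 10, 10, 8, 8, 6, 6, 4, 1], .r 3077 [8, 1, 2, 3, 4, 5, 6, 7] [1, 1, 1, 1, 1, 1, 1, 1, 1], .l [4, 1], .r 3076 [8, 1, 2, 3, 4, 5, 6, 7] [1, 1, 1, 1, 1, 1, 1, 1, 1], .l [2, 3], .l [4, 1], .l [6, 3, 14, 8, 12, 10, 10, 8, 8, 6, 1], .l [2, 5], .l [6, 3], .l [8, 5, 5, 3, 12, 6, 10, 8, 8, 6, 1], .l [2, 7], .l [8, 5], .l [10, 7, 7, 5, 5, 3, 10, 4, 8, 6, 1], .l [2, 9], .l [10, 7], .y [2, 10, 8, 6, 4], .l [11, 8, 8, 6, 6, 4, 4, 2, 2, 0, 3], .l [13, 10, 10, 8, 8, 6, 6, 4, 4, 2, 5], .l [2, 12], .l [13, 10], .l [14, 11], .l [2, 15, 17, 15, 10], .l [2, 15], .l [16, 13], .l [18, 15, 15, 13, 13, 11, 11, 9, 9, 7,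 1], .l [2, 17], .l [18, 15]]),
([p 7 0, g, p 2 1, g, s 1 0, g, p 3 2, g, p 4 3, g, p 0 4, s 0 5, g, m 0 6, g, p 5 7, m 6 8, g, m 8 0, g], .lo 11, [.y [0, 11, 15], .l [10, 17, 6, 12, 1, 15, 7, 4, 11, 6, 7, 1, 10, 4, 1], .l [10, 17, 6, 12, 1, 15, 7, 4, 11, 6, 7, 1, 10, 4, 1], .l [6, 1, 12, 14, 1, 8, 5, 13, 5, 7, 5, 5, 3, 6, 8, 2, 5], .l [12, 17, 4, 7, 16, 10, 5, 12, 1, 6, 1, 8, 10, 4, 1], .l [13, 8, 10, 6, 6, 4, 4, 2, 9], .l [12, 17, 4, 7, 16, 10, 5, 12, 1, 6, 1, 8, 10, 4, 1], .l [10, 15, 4, 7, 14, 8, 3, 10, 1, 6, 1, 6, 8, 4, 1], .l [12, 17, 4, 9, 16, 8, 3, 10, 1, 6, 1, 6, 10, 6, 1], .l [13, 6, 10, 8, 8, 6, 6, 4, 9], .l [12, 17, 4, 9, 16, 8, 3, 10, 1, 6, 1, 6, 10, 6, 1], .l [12, 17, 4, 11, 13, 11, 14, 6, 3, 8, 12, 8, 3],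 .l [13, 4, 6, 4, 4, 2, 11], .l [12, 17, 4, 11, 13, 11, 14, 6, 3, 8, 12, 8, 3], .l [9, 17, 7, 2, 13], .l [10, 12, 9], .l [9, 17, 7, 2, 13], .l [8, 17, 8, 12, 1, 15, 9, 6, 11, 4, 7, 1, 10, 4, 1], .l [4, 1, 10, 14, 1, 8, 3, 13, 5, 9, 7, 7, 5, 2, 8, 6, 3], .l [4, 1, 10, 14, 3, 12, 13, 2, 8, 3, 12, 6, 9], .l [8, 17, 8, 12, 1, 15, 7, 4, 11, 6, 7, 3, 10, 4, 1], .l [8, 17, 8, 12, 1, 15, 7, 4, 11, 6, 7, 3, 10, 4, 1], .l [16, 18, 14, 1, 15, 17, 15, 0, 11], .l [11, 17, 2, 15, 17, 2, 5], .l [11, 15, 3, 7, 1, 13, 7, 1, 9, 13, 9, 10, 7, 1, 3, 6, 3], .l [11, 17, 2, 15, 17, 2, 5], .l [11, 17, 2, 15, 15, 0, 3], .l [4, 1, 10, 12, 1, 6, 3, 11, 5, 7, 5, 5, 3, 8, 3, 6, 3], .l [6, 15, 8, 1, 12, 13, 5, 11, 1, 9, 5, 9, 7, 4, 8, 6, 1], .l [4,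 1, 10, 12, 1, 6, 3, 11, 5, 7, 5, 5, 3, 8, 3, 6, 3]]),
([p 6 0, g, p 2 1, g, s 1 0, g, p 3 2, g, p 4 3, g, p 0 4, s 0 5, g, p 5 6, m 0 7, g, m 7 0, g], .lo 14, [.l [14, 13], .l [16, 13, 15, 2, 10, 13, 11, 11, 9, 9, 7, 1, 8, 4, 1], .l [16, 13], .l [6, 1, 15, 11, 3, 11, 13, 11, 4, 5, 3, 1, 4, 2, 3], .l [16, 11, 13, 9, 9, 7, 7, 5, 1], .l [16, 11], .l [6, 3, 7, 3, 12, 10, 12, 8, 10, 8, 8, 6, 1], .l [2, 3, 13, 9, 9, 7, 7, 5, 5, 3, 1], .l [16, 9, 13, 11, 11, 9, 9, 7, 1], .l [16, 9], .l [12, 16, 9, 11, 7, 9, 1, 9, 7, 11, 9, 2, 1], .l [16, 7, 9, 7, 7, 5, 1], .l [16, 7], .l [7, 10, 8, 8, 4, 6, 1, 10, 6, 2, 7, 9, 7, 2, 1], .l [16, 5, 7, 5, 1], .l [16, 5], .l [12, 16, 13, 15, 13, 13, 11, 11, 7, 9, 1, 9, 5, 2, 1], .l [16, 2, 15, 13,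 8, 11, 9, 9, 7, 11, 6, 1, 1, 6, 3], .l [16, 2], .r 3079 [1, 2, 3, 4, 5, 8, 6, 7] [1, 1, 1, 1, 1, 1, 1, 1, 1], .l [2, 13, 10, 15, 1, 2, 9, 9, 7, 7, 5, 1, 8, 4, 1], .l [16, 1], .l [14, 15], .y [14, 16], .l [4, 1, 12, 8, 16, 3, 3, 1, 3, 10, 10, 8, 8, 6, 1], .l [18, 3], .l [14, 17]]),
([p 5 0, g, p 1 0, g, p 2 1, g, p 3 2, g, p 0 3, s 0 4, g, p 4 5, m 0 6, g, m 6 0, g], .hi 2, [.l [4, 1, 12, 8, 10, 8, 8, 6, 6, 4, 1], .r 3078 [7, 1, 2, 3, 4, 5, 6] [1, 1, 1, 1, 1, 1, 1, 1], .l [4, 1], .r 3080 [7, 1, 2, 3, 4, 5, 6] [1, 1, 1, 1, 1, 1, 1, 1], .l [2, 3], .l [4, 1], .l [6, 3, 12, 6, 10, 8, 8, 6, 1], .l [2, 5], .l [6, 3], .l [8, 5, 5, 3, 10, 4, 8, 6, 1], .l [2, 7], .l [8, 5], .y [2, 8, 6, 4], .l [9, 6, 6, 4, 4, 2, 2, 0, 3], .l [11,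 8, 8, 6, 6, 4, 4, 2, 5], .l [2, 10], .l [11, 8], .l [12, 9], .l [2, 13, 15, 13, 8], .l [2, 13], .l [14, 11], .l [16, 13, 13, 11, 11, 9, 9, 7, 1], .l [2, 15], .l [16, 13]]),
([p 4 0, g, p 1 0, g, p 2 1, g, p 0 2, s 0 3, g, p 3 4, m 0 5, g, m 5 0, g], .hi 2, [.l [4, 1, 10, 6, 8, 6, 6, 4, 1], .r 3081 [6, 1, 2, 3, 4, 5] [1, 1, 1, 1, 1, 1, 1], .l [4, 1], .r 3074 [6, 1, 2, 3, 4, 5] [1, 1, 1, 1, 1, 1, 1], .l [2, 3], .l [4, 1], .l [6, 3, 10, 4, 8, 6, 1], .l [2, 5], .l [6, 3], .y [2, 6, 4], .l [7, 4, 4, 2, 2, 0, 3], .l [9, 6, 6, 4, 4, 2, 5], .l [2, 8], .l [9, 6], .l [10, 7], .l [2, 11, 13, 11, 6], .l [2, 11], .l [12, 9], .l [14, 11, 11, 9, 9, 7, 1], .l [2, 13], .l [14, 11]]),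
([p 3 0, g, p 1 0, g, p 0 1, s 0 2, g, p 2 3, m 0 4, g, m 4 0, g], .hi 2, [.l [4, 1, 8, 4, 6, 4, 1], .r 3082 [5, 1, 2, 3, 4] [1, 1, 1, 1, 1, 1], .l [4, 1], .r 3072 [5, 1, 2, 3, 4] [1, 1, 1, 1, 1, 1], .l [2, 3], .l [4, 1], .y [2, 4], .l [2, 4, 3], .l [7, 4, 4, 2, 5], .l [2, 6], .l [7, 4], .l [8, 5], .l [2, 9, 11, 9, 4], .l [2, 9], .l [10, 7], .l [12, 9, 9, 7, 1], .l [2, 11], .l [12, 9]]),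
([p 2 0, g, p 0 0, s 0 1, g, p 1 2, m 0 3, g, m 3 0, g], .hi 2, [.l [4, 1, 6, 2, 1], .r 3083 [4, 1, 2, 3] [1, 1, 1, 1, 1], .l [4, 1], .y [2], .c, .l [5, 2, 5], .l [2, 4], .l [5, 2], .l [6, 3], .l [2, 7, 9, 7, 2], .l [2, 7], .l [8, 5], .l [4, 5, 0, 2, 7], .l [2, 9], .l [10, 7]]),
([p 5 0, g, m 0 1, g, s 1 2, s 0 3, g, s 4 0, g, s 2 4, p 3 5, g], .lo 5, [.y [0, 5, 10], .l [3, 7, 10, 1, 9, 3, 1, 6, 4, 1], .l [7, 11, 1, 5, 8, 3], .l [3, 7, 10, 1, 3, 7, 4, 6, 4, 1], .l [4, 6, 3, 5, 8, 5], .l [4, 6, 3], .l [3, 12, 8, 2, 8], .l [11, 6, 1, 7, 1, 8, 0, 1], .l [5, 11, 9, 10, 6, 1, 4, 5], .l [5, 11, 1, 3, 8, 5], .l [5, 9, 1, 1, 6, 5], .l [11, 6, 3, 7, 1, 8, 0, 3], .l [5, 11, 9, 10, 6, 3, 4, 5], .l [11, 6, 3, 7, 1, 8, 0, 3], .l [1,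 5, 8, 1, 7, 3, 1, 4, 2, 3], .l [3, 10, 6, 4, 9, 5, 2, 4, 2, 3], .l [1, 5, 8, 1, 7, 3, 1, 4, 2, 3]]),
([p 4 0, g, m 0 1, g, s 1 0, s 0 2, g, s 3 0, g, s 0 3, p 2 4, g], .hi 4, [.l [6, 3, 11, 5, 4, 1], .l [5, 12, 6, 9, 1, 7, 4], .l [3, 12, 8, 1, 9, 7, 4], .y [2, 4], .l [5, 12, 6, 9, 1, 7, 4, 1], .l [5, 12, 6, 9, 1, 7, 4], .l [6, 1, 11, 5, 4], .c, .l [11, 1, 11, 0, 4, 5], .l [11, 1, 11, 0, 4, 5], .l [1, 12, 10, 1, 4, 2, 6], .l [9, 4, 10, 7, 3, 1], .l [11, 12, 0, 4, 7], .l [1, 12, 10, 1, 6, 4, 6], .r 3085 [1, 5, 2, 3, 4] [1, 1, 1, 1, 1], .l [3, 10, 6, 9, 1, 7, 4, 1], .l [3, 10, 6, 9, 1, 7, 4], .l [1, 10, 8, 1, 9, 7, 4]]),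
([p 3 0, g, s 0 0, s 0 1, g, s 2 0, g, s 0 2, p 1 3, g], .lo 2, [.l [2, 1, 7, 5, 4], .l [4, 1, 9, 5, 4, 1], .l [4, 1, 9, 5, 4], .r 3086 [4, 1, 2, 3] [1, 1, 1, 1, 1], .y [2], .l [9, 1, 9, 0, 2, 3], .l [5, 2, 8], .l [9, 1, 9, 0, 2, 3], .l [7, 1, 7, 0, 2, 3], .l [7, 4, 8, 5, 7, 3], .l [7, 4, 8], .l [9, 10, 0, 2, 5], .l [7, 1, 7, 0, 2, 5], .l [10, 7, 4], .l [7, 1, 7, 0, 2, 5]]),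
([p 4 0, g, s 3 0, g, m 0 1, g, s 1 0, s 0 2, g, s 0 3, p 2 4, g], .hi 6, [.l [8, 5, 11, 3, 2, 7], .l [7, 12, 4, 9, 3, 7, 2], .l [5, 12, 6, 1, 7, 5, 2], .l [8, 3, 11, 3, 2, 3], .l [7, 12, 4, 9, 1, 7, 2], .l [5, 12, 6, 1, 9, 7, 2], .y [4, 6], .l [7, 12, 4, 9, 1, 7, 2, 3], .l [7, 12, 4, 9, 1, 7, 2], .l [8, 1, 11, 3, 2], .c, .l [9, 2, 10, 3, 9, 7], .l [11, 12, 0, 6, 7], .l [3, 12, 8, 1, 4, 2, 4], .l [5, 10, 4, 2, 5, 2, 2, 3], .l [5, 10, 4, 9, 1, 7, 2, 3], .l [5, 10, 4, 9, 1, 7, 2], .l [3, 10, 6, 1, 9, 7, 2]]),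
([p 5 0, g, s 4 0, g, s 0 1, g, s 7 0, s 0 2, g, m 0 3, g, s 1 4, p 2 5, m 3 6, g, m 6 0, g, s 0 7, g], .hi 0, [.l [6, 12, 3, 12, 1, 12, 2, 8, 1, 10, 4, 7], .l [0, 1], .l [2, 1], .l [6, 12, 3, 12, 3, 12, 2, 10, 3, 10, 2, 5], .l [0, 3], .l [4, 3], .l [17, 10, 4, 10, 10, 12], .l [12, 6, 10, 13, 7, 9, 3, 6, 10, 4, 6, 3], .l [0, 5], .l [6, 5], .y [0, 7, 12], .l [12, 3, 10, 13, 4, 9, 6, 2, 10, 8, 3, 4], .l [0, 8], .l [9, 8], .l [9, 8], .l [7, 13, 14, 9, 1, 9, 13, 11, 6], .l [0, 10], .l [11, 10], .l [0, 14, 16, 14, 11], .l [0, 14], .l [15, 14], .l [4, 10, 16, 9, 5, 12, 1, 10, 1, 3, 8, 3], .l [0, 16], .l [17, 16], .l [6, 16, 16, 5, 11, 5, 4, 5], .l [4, 10, 18, 11, 5, 14, 1, 12, 1, 3, 10, 3], .l [0, 18], .l [19, 18]]),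
([p 4 0, g, s 3 0, g, s 0 1, g, s 6 0, s 0 2, g, s 1 3, p 2 4, m 0 5, g, m 5 0, g, s 0 6, g], .lo 11, [.l [11, 10], .l [5, 13, 9, 5, 6, 8, 10, 8, 3, 4], .l [13, 10], .l [4, 13, 10, 16, 10, 2, 4, 6, 4, 9], .l [7, 9, 3, 9, 5, 3, 10, 3, 4, 1], .l [10, 13, 6, 8, 3, 8, 10, 2, 4, 5], .l [13, 8], .l [6, 13, 10, 16, 10, 2, 4, 6, 4, 7], .l [9, 11, 3, 11, 3, 7, 1, 9, 5, 2], .l [13, 6], .l [11, 13, 7, 1, 10, 12, 7, 0, 8, 9], .l [11, 4, 2], .l [1, 13, 3, 8, 6, 2, 10, 8, 5, 1], .l [13, 3], .r 3089 [1, 2, 7, 3, 4, 5, 6] [1, 1, 1, 1, 1, 1, 1, 1], .l [6, 13, 1, 14, 12, 3, 2], .l [13, 1], .l [11, 12], .y [11, 13], .l [15, 3, 7, 2, 13, 10, 1], .l [15, 3], .l [11, 14], .l [17, 5, 9, 2, 15, 12, 3], .l [17, 5], .l [11, 16]]),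
([p 3 0, g, s 2 0, g, s 6 0, s 0 1, g, s 5 2, p 1 3, m 0 4, g, m 4 0, g, s 0 5, g, s 0 6, g], .lo 9, [.l [9, 8], .l [8, 11, 4, 6, 3, 6, 8, 2, 4, 7], .l [11, 8], .l [4, 11, 8, 16, 12, 2, 4, 6, 4, 9], .l [5, 7, 3, 7, 3, 1, 10, 5, 6, 3], .l [8, 11, 6, 13, 8, 3, 5, 2, 6, 7], .l [11, 6], .l [8, 11, 6, 13, 8, 3, 5, 2, 6, 7], .l [9, 4, 2], .l [8, 3, 9, 2, 9, 2, 11, 4, 8, 5], .l [11, 3], .l [6, 15, 5, 12, 13, 1, 8, 5], .l [4, 11, 1, 12, 10, 3, 2], .l [11, 1], .l [9, 10], .y [9, 11], .l [13, 3, 7, 2, 11, 8, 1], .l [13, 3], .l [9, 12], .l [15, 5, 9, 2, 13, 10, 3], .l [15, 5], .l [9, 14], .l [17, 7, 11, 2, 15, 12, 5], .l [17, 7], .l [9, 16]]),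
([p 5 0, g, s 0 1, g, s 4 0, g, s 7 0, s 0 2, g, m 0 3, g, s 1 4, p 2 5, m 3 6, g, m 6 0, g, s 0 7, g], .hi 0, [.l [6, 12, 3, 12, 1, 12, 2, 8, 1, 10, 4, 7], .l [0, 1], .l [2, 1], .l [17, 10, 4, 12, 12, 12], .l [6, 12, 3, 12, 3, 12, 2, 10, 3, 10, 2, 5], .l [0, 3], .l [4, 3], .l [12, 6, 10, 13, 7, 9, 3, 6, 10, 4, 6, 3], .l [0, 5], .l [6, 5], .y [0, 7, 12], .l [12, 3, 10, 13, 4, 9, 6, 2, 10, 8, 3, 4], .l [0, 8], .l [9, 8], .l [9, 8], .l [7, 13, 14, 9, 1, 9, 13, 11, 6], .l [0, 10], .l [11, 10], .l [0, 14, 16, 14, 11], .l [0, 14], .l [15, 14], .l [4, 10, 16, 9, 5, 12, 1, 10, 1, 3, 8, 3], .l [0, 16], .l [17, 16], .l [6, 16, 16, 5, 11, 5, 4, 7], .l [4, 10, 18, 11, 5, 14, 1, 12, 1, 3, 10, 3], .l [0, 18], .l [19, 18]]),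
([p 4 0, g, s 0 1, g, s 3 0, g, s 6 0, s 0 2, g, s 1 3, p 2 4, m 0 5, g, m 5 0, g, s 0 6, g], .lo 11, [.l [11, 10], .l [5, 13, 9, 5, 6, 8, 10, 8, 3, 4], .l [13, 10], .l [4, 13, 10, 16, 10, 2, 4, 6, 4, 9], .l [10, 13, 6, 8, 3, 8, 10, 2, 4, 5], .l [13, 8], .l [6, 13, 10, 16, 10, 2, 4, 6, 4, 7], .l [7, 9, 3, 9, 3, 5, 1, 7, 5, 2], .l [9, 11, 3, 11, 3, 7, 1, 9, 5, 2], .l [13, 6], .l [11, 13, 7, 1, 10, 12, 7, 0, 8, 9], .l [11, 4, 2], .l [1, 13, 3, 8, 6, 2, 10, 8, 5, 1], .l [13, 3], .r 3092 [1, 2, 7, 3, 4, 5, 6] [1, 1, 1, 1, 1, 1, 1, 1], .l [6, 13, 1, 14, 12, 3, 2], .l [13, 1], .l [11, 12], .y [11, 13], .l [15, 3, 7, 2, 13, 10, 1], .l [15, 3], .l [11, 14], .l [17, 5, 9, 2, 15, 12, 3], .l [17, 5], .l [11, 16]]),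
([p 3 0, g, s 2 0, g, s 5 0, s 0 1, g, s 0 2, p 1 3, m 0 4, g, m 4 0, g, s 0 5, g], .lo 7, [.l [1, 8, 6, 4, 5, 0, 2, 7], .r 3093 [6, 1, 2, 3, 4, 5] [1, 1, 1, 1, 1, 1, 1], .l [3, 10, 6, 4, 7, 2, 4, 9], .l [6, 10, 3, 2, 3], .y [2, 7], .r 3090 [6, 1, 2, 3, 4, 5] [1, 1, 1, 1, 1, 1, 1], .l [9, 4, 9, 0, 5], .l [6, 10, 3, 2, 5], .l [3, 8, 4, 2, 5, 2, 2, 7], .l [9, 1, 9, 0, 4, 11], .l [4, 10, 5, 4, 1], .l [4, 14, 7, 1, 2, 7, 6, 7], .l [4, 8, 3, 2, 8, 10, 8, 9], .l [1, 8, 6, 4, 9, 4, 6, 9], .l [2, 6, 6, 9, 11, 9, 4], .l [2, 6, 6, 9, 9, 7, 4], .r 3091 [1, 2, 3, 4, 6, 5] [1, 1, 1, 1, 1, 1, 1], .l [1, 8, 6, 4, 11, 6, 8, 9], .l [4, 8, 3, 2, 10], .l [14, 1, 8, 2, 11, 8], .l [1, 8, 6, 4, 13, 8, 10, 3], .l [4, 8, 3, 2, 12]]),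
([p 5 0, g, m 0 1, g, s 4 0, g, s 1 2, s 0 3, g, s 2 4, p 3 5, m 0 6, g, m 6 0, g], .lo 11, [.l [11, 10], .l [3, 13, 4, 2, 5, 12, 9, 4, 8, 1], .l [13, 10], .l [5, 13, 9, 5, 6, 4, 4, 7, 9, 7, 2, 3], .l [11, 2, 12, 5, 1, 7, 11, 7, 0, 3], .l [13, 8], .l [11, 2, 12, 5, 1, 7, 11, 7, 0], .l [6, 8, 10, 3, 3, 1, 5, 4], .l [11, 2, 12, 7, 3, 7, 11, 9, 0, 5], .l [13, 6], .l [11, 2, 12, 7, 3, 7, 11, 9, 0], .l [7, 11, 9, 11, 3, 1, 6, 10, 6, 7], .l [13, 3], .l [7, 11, 7, 1, 7, 9, 5, 3, 6, 8, 6, 1], .l [1, 13, 1, 13, 11, 8, 3], .l [13, 1], .l [11, 12], .y [11, 13], .l [9, 2, 8, 13, 3, 10, 3, 10, 4, 1], .l [15, 3], .l [11, 14]]),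
([p 4 0, g, m 0 1, g, s 3 0, g, s 1 0, s 0 2, g, s 0 3, p 2 4, m 0 5, g, m 5 0, g], .hi 6, [.l [8, 5, 11, 3, 2, 5], .l [7, 12, 4, 7, 1, 5, 2], .l [3, 12, 8, 3, 9, 5, 2], .y [2, 6], .l [7, 12, 4, 7, 1, 5, 2, 5], .l [7, 12, 4, 7, 1, 5, 2], .l [8, 3, 11, 3, 2], .l [7, 12, 4, 9, 3, 7, 2, 3], .l [7, 12, 4, 9, 3, 7, 2], .l [8, 1, 11, 3, 2], .c, .l [9, 2, 10, 5, 1, 5], .l [11, 12, 0, 6, 7], .l [1, 12, 10, 3, 6, 2, 6], .r 3095 [1, 6, 2, 3, 4, 5] [1, 1, 1, 1, 1, 1], .l [1, 10, 8, 3, 9, 5, 2], .l [5, 10, 4, 11, 5, 9, 2, 5], .l [5, 10, 4, 11, 5, 9, 2], .l [1, 10, 8, 3, 11, 7, 2], .l [5, 10, 4, 13, 7, 11, 2, 7], .l [5, 10, 4, 13, 7, 11, 2], .l [1, 10, 8, 3, 13, 9, 2]]),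
([p 3 0, g, s 2 0, g, s 0 0, s 0 1, g, s 0 2, p 1 3, m 0 4, g, m 4 0, g], .lo 4, [.l [4, 3, 7, 3, 2], .l [6, 3, 9, 3, 2, 5], .l [6, 3, 9, 3, 2], .r 3096 [5, 1, 2, 3, 4] [1, 1, 1, 1, 1, 1], .l [4, 1, 7, 3, 2, 3], .l [6, 1, 9, 3, 2, 3], .l [6, 1, 9, 3, 2], .r 3088 [5, 1, 2, 3] [1, 1, 1, 1, 4], .y [4], .l [7, 2, 8, 3, 7, 5], .l [7, 2, 8], .l [9, 10, 0, 4, 5], .l [4, 10, 12, 10, 3], .l [11, 6, 2], .l [4, 10, 12, 10, 3], .l [4, 10, 10, 8, 3], .r 3094 [1, 2, 3, 4, 5] [1, 1, 1, 1, 1, 1], .l [13, 8, 2], .l [7, 8, 0, 4, 10]]),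
([p 4 0, g, p 1 0, g, s 0 1, s 0 2, g, s 0 3, p 2 4, g, s 3 0, g], .lo 4, [.l [1, 8, 6, 1, 5, 3, 2], .l [6, 3, 9, 3, 2, 7], .l [3, 10, 6, 1, 7, 5, 2], .l [5, 10, 4, 7, 1, 5, 2], .y [2, 4], .l [5, 10, 4, 7, 1, 5, 2, 5], .l [6, 1, 9, 3, 2], .l [5, 10, 4, 7, 1, 5, 2], .l [7, 2, 8, 9, 5, 1], .l [1, 10, 8, 1, 4, 2, 4], .l [9, 10, 0, 4, 5], .l [3, 8, 4, 7, 1, 5, 2, 5], .l [1, 8, 6, 1, 7, 5, 2], .l [3, 8, 4, 7, 1, 5, 2], .l [10, 5, 2, 3], .l [3, 8, 4, 9, 3, 7, 2, 3], .l [1, 8, 6, 1, 9, 7, 2], .l [3, 8, 4, 9, 3, 7, 2]]),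
([p 4 0, g, s 0 1, s 0 2, g, s 0 3, p 2 4, m 0 5, g, m 5 0, g, s 3 0, g, s 1 0, g], .lo 7, [.l [7, 6], .r 2861 [6, 2, 4, 5] [1, 2, 1, 1, 5], .l [9, 6], .l [13, 5, 10, 8, 9, 3, 10, 3, 6, 3], .r 2877 [1, 2, 6, 3, 4, 5] [1, 1, 1, 1, 1, 1, 1], .l [9, 3], .l [4, 13, 5, 10, 11, 1, 8, 5], .l [2, 9, 1, 10, 8, 3, 2], .l [9, 1], .l [7, 8], .y [7, 9], .l [11, 3, 7, 2, 9, 6, 1], .l [11, 3], .l [7, 10], .l [11, 3, 7, 2, 9, 6, 1], .l [13, 5, 9, 2, 11, 8, 3], .l [13, 5], .l [7, 12], .l [7, 12, 12, 4, 2, 8], .l [15, 7, 11, 2, 13, 10, 5], .l [15, 7], .l [7, 14]]),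
([p 3 0, g, s 0 0, s 0 1, g, s 0 2, p 1 3, m 0 4, g, m 4 0, g, s 2 0, g], .hi 2, [.l [4, 1, 7, 3, 2, 9], .r 3098 [5, 1, 2, 3] [1, 1, 1, 4, 1], .l [4, 1, 7, 3, 2], .y [2], .c, .l [2, 4, 12, 5, 9, 8], .l [7, 8, 0, 2, 3], .l [5, 2, 6], .l [2, 4, 10, 5, 7, 6], .l [7, 4, 2], .l [2, 8, 10, 8, 3], .l [2, 8, 10, 8, 3], .l [9, 6, 2], .l [12, 1, 8, 2, 9, 6], .l [5, 6, 0, 2, 8], .l [11, 8, 2], .r 3099 [5, 1, 2, 3, 4] [1, 1, 1, 1, 1, 1], .l [5, 6, 0, 2, 10], .l [13, 10, 2]]),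
([p 2 0, g, s 0 1, g, p 3 2, m 1 0, g, p 0 3, g], .hi 5, [.l [2, 6, 3], .l [1, 6, 4, 5], .l [2, 6], .y [2, 5], .l [4, 6, 1], .l [3, 6, 2, 5], .l [4, 6], .l [5, 2, 4, 2, 3], .l [4, 9, 8, 8, 4, 1], .r 2977 [1, 2, 4, 3] [1, 1, 1, 1, 1], .l [4, 7, 6, 6, 2, 1], .l [5, 2, 4, 2, 5], .l [4, 7, 6, 6, 2, 5], .r 2935 [1, 2, 4, 3] [1, 1, 1, 1, 1]]),
([p 2 0, g, s 0 1, g, p 5 2, m 1 3, m 3 0, m 0 4, g, m 4 0, g, s 0 5, g], .hi 6, [.l [1, 6, 4, 6, 3], .l [1, 6, 4, 6], .l [2, 7], .y [2, 5, 6], .l [3, 6, 2, 6, 1], .l [3, 6, 2, 6], .l [4, 7], .l [6, 11, 8, 4, 8, 4, 1, 5, 2], .l [5, 13, 11, 11, 7, 2, 4, 2, 7], .l [3, 5, 6, 5, 0, 10, 6, 2, 4, 2, 3], .l [6, 13, 10, 6, 10, 4, 1, 5, 2], .l [7, 11, 9, 2, 4, 2, 4, 6, 1], .l [5, 2, 6, 1, 8, 6,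 2, 6, 1], .l [7, 11, 9, 2, 4, 2, 4, 6, 1], .l [3, 4, 0, 9, 9, 4, 1], .l [7, 13, 11, 2, 4, 2, 4, 8, 3], .l [5, 2, 6, 1, 10, 8, 2, 8, 3], .l [3, 4, 0, 9, 11, 6, 1]]),
([p 2 0, g, s 0 1, g, p 5 2, m 1 3, m 0 0, g, m 3 0, m 0 4, g, m 4 0, g, s 0 5, g], .hi 6, [.l [1, 6, 4, 6, 3], .l [1, 6, 4, 6], .l [2, 7], .l [1, 4, 2, 4, 3], .l [3, 6, 2, 6, 1], .l [3, 6, 2, 6], .l [4, 7], .y [6], .l [7, 3, 13, 11, 4, 11, 4], .l [3, 6, 9, 7, 0, 11, 7, 2, 6], .l [6, 15, 12, 5, 12, 7, 9, 2, 6], .l [8, 13, 8, 4, 8, 4, 1, 5, 2], .l [5, 15, 13, 13, 9, 4, 6, 4, 9], .l [6, 0, 10, 12, 10, 6], .l [8, 15, 10, 6, 10, 4, 1, 5, 2], .l [9, 13, 9, 2, 4, 2, 4, 8, 3], .l [5, 2, 8, 3, 10, 6, 2, 6, 1], .l [9, 13, 9, 2, 4, 2, 4, 8, 3], .l [3, 4, 0, 11, 11, 4,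 1], .l [9, 15, 11, 2, 4, 2, 4, 10, 5], .l [5, 2, 8, 3, 12, 8, 2, 8, 3], .l [3, 4, 0, 11, 13, 6, 1]]),
([p 2 0, g, s 0 1, g, p 5 2, m 1 3, p 0 0, g, m 3 0, m 0 4, g, m 4 0, g, s 0 5, g], .lo 6, [.l [0, 5], .l [1, 6, 4, 6, 3], .l [2, 7], .l [1, 6, 4, 6], .l [3, 6, 2, 6, 1], .l [4, 7], .l [3, 6, 2, 6], .y [6], .l [7, 3, 13, 11, 4, 11, 4], .l [6, 15, 12, 5, 12, 7, 9, 2, 6], .l [3, 6, 9, 7, 0, 11, 7, 2, 6], .l [3, 6, 7, 5, 0, 9, 5, 0, 4], .l [5, 15, 13, 13, 9, 4, 6, 4, 9], .l [8, 15, 10, 6, 10, 4, 1, 5, 2], .l [6, 0, 10, 12, 10, 6], .l [6, 0, 10, 10, 8, 6], .l [9, 13, 9, 2, 4, 2, 4, 8, 3], .l [9, 13, 9, 2, 4, 2, 4, 8, 3], .l [5, 2, 8, 3, 10, 6, 2, 6, 1], .l [9, 15, 11, 2, 4, 2, 4, 10, 5], .l [3, 4, 0, 11, 13, 6, 1], .l [5,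 2, 8, 3, 12, 8, 2, 8, 3]]),
([p 2 0, g, s 0 1, g, p 6 2, m 1 3, s 4 0, g, s 0 4, g, m 3 0, m 0 5, g, m 5 0, g, s 0 6, g], .hi 6, [.l [2, 7, 11, 10, 3], .l [1, 6, 4, 6, 3], .l [2, 7, 2], .l [1, 4, 2, 4, 3], .l [4, 7, 11, 10, 1], .l [3, 6, 2, 6, 1], .l [4, 7, 4], .l [3, 8, 1, 10, 7, 0, 12, 8, 2, 7], .l [7, 3, 15, 13, 4, 13, 4], .l [3, 8, 1, 10, 7, 0, 12], .y [6, 8], .l [3, 8, 1, 10, 7, 0, 12, 8, 2, 7], .l [3, 8, 1, 10, 7, 0, 12, 8, 2, 7], .l [3, 10, 3, 10, 5, 0, 12], .l [0, 11, 4, 6, 12, 3, 10, 1, 6], .l [6, 12, 14, 12, 8], .l [6, 12, 14, 12, 8], .l [0, 13, 6, 8, 14, 3, 12, 3, 8], .l [6, 14, 6, 12, 2, 4, 2, 6], .l [6, 14, 6, 12, 2, 4, 2, 6], .l [11, 15, 9, 2, 4, 2, 4, 10, 5], .l [3, 8, 1, 8, 5, 0, 10, 10, 4, 1], .l [6, 16,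 8, 14, 2, 4, 2, 8], .l [6, 16, 8, 14, 2, 4, 2, 8], .l [3, 8, 1, 8, 5, 0, 10, 12, 6, 1]]),
([p 2 0, g, s 0 1, g, p 5 2, m 1 3, s 0 0, g, m 3 0, m 0 4, g, m 4 0, g, s 0 5, g], .lo 6, [.l [0, 5, 2], .l [2, 7, 9, 8, 3], .l [2, 7, 2], .l [1, 6, 4, 6, 3], .l [4, 7, 9, 8, 1], .l [4, 7, 4], .l [3, 6, 2, 6, 1], .y [6], .r 3105 [1, 2, 3, 6, 4, 5] [1, 1, 1, 1, 1, 1, 1], .l [3, 8, 1, 8, 5, 0, 10], .l [7, 3, 13, 11, 4, 11, 4], .l [7, 3, 11, 9, 4, 9, 4], .l [6, 10, 12, 10, 6], .l [0, 11, 4, 6, 12, 3, 10, 3, 6], .l [6, 10, 12, 10, 6], .l [6, 10, 10, 8, 6], .l [3, 9, 12, 8, 3, 5, 8, 5, 0, 7], .l [9, 13, 9, 2, 4, 2, 4, 8, 3], .l [5, 2, 8, 3, 10, 6, 2, 6, 1], .l [3, 9, 14, 10, 3, 5, 10, 7, 0, 1], .l [9, 15, 11, 2, 4, 2, 4, 10, 5], .l [5,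 2, 8, 3, 12, 8, 2, 8, 3]]),
([p 2 0, g, s 0 1, g, p 5 2, m 1 3, g, m 3 0, m 0 4, g, m 4 0, g, s 0 5, g], .top 6, [.r 3102 [1, 2, 3, 4, 5] [1, 1, 1, 1, 1], .r 3106 [1, 2, 3, 4, 5] [1, 1, 1, 1, 1, 1], .r 3104 [1, 2, 3, 4, 5] [1, 1, 1, 1, 1, 1], .r 3103 [1, 2, 3, 4, 5] [1, 1, 1, 1, 1, 1]]),
([p 2 0, g, s 0 1, g, p 4 2, m 1 3, g, m 3 0, m 0 0, g, s 0 4, g], .hi 8, [.l [1, 7, 2, 1, 4, 6, 3], .l [1, 6, 4, 8], .l [2, 9], .l [5, 2, 2, 5, 4], .l [3, 7, 8, 7, 2, 6, 1], .l [3, 6, 2, 8], .l [4, 9], .l [7, 9, 6], .l [7, 0, 9, 6], .l [7, 9], .y [8], .l [11, 4, 6, 10, 9, 4, 1], .l [5, 2, 4, 2, 9, 6, 8, 6, 1], .r 3107 [1, 2, 3, 5, 4] [1, 1, 1, 1, 1, 1], .l [3, 5, 6, 5, 0, 6, 6, 4, 1], .l [9, 2, 4, 8, 7, 2, 7], .l [5, 2, 4, 2, 7, 4, 6,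 4, 5], .l [3, 5, 6, 5, 0, 6, 8, 6, 1]]),
([p 1 0, g, s 0 0, p 6 1, m 0 2, g, p 4 0, g, m 2 3, g, p 5 4, g, m 3 0, g, p 0 5, g, s 0 6, g], .hi 2, [.l [4, 1, 11, 14, 13, 11, 9, 11, 9, 7, 5, 0, 7], .r 2428 [7, 1] [1, 1, 14], .l [4, 1, 4, 0, 15], .y [2], .l [4, 1, 14], .l [2, 5, 9, 7, 0], .l [2, 5, 9, 7, 0], .l [6, 3, 16], .l [2, 7, 9, 5, 0], .l [2, 7, 9, 5, 0], .l [8, 5, 16], .l [2, 9, 11, 7, 9, 7, 0], .l [2, 9, 11, 7, 9, 7, 0], .l [10, 7, 16], .l [2, 11, 13, 9, 9, 5, 0], .l [2, 11, 13, 9, 9, 5, 0], .l [12, 9, 16], .l [2, 13, 15, 11, 11, 7, 9, 7, 0], .l [2, 13, 15, 11, 11, 7, 9, 7, 0], .l [14, 11, 16], .l [2, 13, 13, 9, 9, 5, 7, 5, 0], .l [7, 16, 10, 4, 12, 2, 13, 8, 6, 4, 2, 8, 5], .l [17, 1, 13, 15, 14], .l [16, 13, 16],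 .l [16, 13, 12], .l [12, 14, 11, 13, 11, 13, 8, 12, 1, 6, 1, 2, 5], .l [8, 12, 11, 15, 10, 14, 1, 8, 1, 4, 7], .l [18, 15, 12]]),
([p 2 0, g, s 0 1, g, s 0 0, p 6 2, m 1 3, g, m 3 4, p 5 0, g, m 4 0, g, p 0 5, g, s 0 6, g], .hi 9, [.l [8, 3, 10, 4, 1, 5, 2], .l [8, 3, 10, 4, 1, 5, 2], .l [11, 8], .l [6, 3, 8, 4, 1, 3, 0], .l [11, 6, 3, 6, 12, 10, 3], .l [8, 11, 6, 14, 4, 8, 3, 8], .l [11, 6], .l [9, 4, 13], .l [0, 11, 2, 5, 15, 5, 13, 2, 7], .r 3109 [2, 3, 4, 7, 5, 6] [3, 1, 1, 0, 1, 1, 1, 1], .l [11, 2], .l [4, 11, 1, 12, 9, 9, 7, 0, 11], .l [9, 10], .l [11, 1], .l [6, 3, 12, 3, 12, 8, 0, 9, 7, 2, 6], .l [9, 12], .l [13, 3], .y [9, 13], .l [6, 3, 8, 12, 9, 2, 7, 9, 1], .l [9, 14], .l [15, 5], .l [6, 3, 8, 12, 9, 2, 7,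 9, 1], .l [6, 3, 8, 14, 11, 2, 7, 11, 3], .l [9, 16], .l [17, 7]]),
([p 2 0, g, s 0 1, g, p 6 2, m 1 3, g, m 3 4, p 5 0, g, p 0 5, g, s 0 6, g, m 4 0, g], .hi 8, [.l [7, 2, 9, 4, 1, 5, 2], .l [7, 2, 9, 4, 1, 5, 2], .l [10, 7], .l [5, 2, 7, 4, 1, 3, 0], .l [10, 5, 2, 5, 9, 7, 2], .l [10, 16, 14, 15, 10, 5, 8, 10], .l [10, 5], .l [10, 2, 5, 14, 9, 3, 11, 2, 5], .l [8, 1, 13, 9, 12, 6, 12, 4, 7, 2, 7], .l [10, 2], .l [3, 4, 0, 12, 14, 7, 10, 1, 10, 8, 5], .l [8, 9], .l [10, 1], .y [8, 10], .l [3, 12, 3, 3, 1, 13, 9, 9, 7, 0, 3], .l [8, 11], .l [12, 3], .l [3, 12, 3, 12, 7, 8, 5, 4, 5, 0, 5], .l [3, 14, 5, 5, 3, 13, 7, 7, 5, 0, 7], .l [8, 13], .l [14, 5], .l [5, 2, 7, 13, 10, 2, 4, 10, 5], .l [8, 15], .l [16, 7]]),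
([p 2 0, g, s 0 1, g, s 0 0, p 5 2, m 1 3, g, m 3 0, p 4 0, g, p 0 4, g, s 0 5, g], .hi 8, [.l [2, 9, 9, 7, 4], .l [1, 7, 5, 8], .l [2, 9], .y [2, 6, 8], .l [4, 9, 9, 7, 2], .l [3, 7, 3, 8], .l [4, 9], .l [4, 7, 7, 5, 0], .l [9, 4, 14, 11, 6, 11, 4], .l [9, 4, 14, 11, 6, 11, 4], .l [8, 9], .l [7, 15, 12, 12, 7, 2, 4, 2, 8], .l [4, 6, 8, 7, 0, 12, 6, 2, 4, 2, 5], .r 3110 [1, 2, 3, 6, 4, 5] [1, 1, 1, 1, 1, 1, 1], .l [4, 6, 8, 7, 0, 10, 4, 2, 2, 0, 3], .l [6, 3, 8, 1, 10, 7, 2, 7, 1], .l [6, 3, 8, 1, 10, 7, 2, 7, 1], .l [9, 13, 11, 14, 11, 6, 8, 10, 3], .l [6, 3, 8, 1, 10, 7, 2, 7, 1], .l [6, 3, 8, 1, 12, 9, 2, 9, 3], .l [6, 3, 8, 1, 12, 9, 2, 9, 3], .r 3111 [1, 2, 3, 6, 4, 5] [1, 2, 1, 1, 1, 1, 1]]),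
([p 2 0, g, s 0 1, g, s 0 0, p 4 2, m 1 3, g, m 3 0, p 0 0, g, s 0 4, g], .lo 9, [.l [0, 8], .l [1, 8, 3, 2, 5, 7, 4], .l [2, 10], .l [1, 7, 5, 9], .l [3, 8, 9, 8, 3, 7, 1], .l [4, 10], .l [3, 7, 3, 9], .l [3, 6, 7, 6, 1, 5, 1], .l [8, 10, 7], .l [8, 10], .l [8, 0, 10, 7], .l [4, 6, 8, 7, 0, 8, 2, 0, 3], .y [9], .l [12, 4, 6, 11, 10, 4, 1], .r 3112 [1, 2, 3, 5, 4] [1, 1, 1, 1, 1, 1], .l [6, 3, 5, 2, 10, 7, 9, 6, 1], .l [10, 2, 4, 9, 8, 2, 8], .l [4, 6, 8, 7, 0, 8, 10, 8, 3], .l [6, 3, 5, 2, 8, 5, 7, 4, 7]]),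
([p 2 0, g, s 0 1, g, p 4 2, m 1 3, g, m 3 0, p 0 0, g, s 0 4, g], .bot 3, [.l [4, 1, 7], .r 3113 [1, 2, 3, 4] [1, 1, 1, 1, 1], .r 1201 [2] [3, 7], .r 2849 [2] [3, 7]]),
([p 2 0, g, s 0 1, m 0 0, g, p 3 2, m 1 0, g, s 0 3, g], .hi 3, [.l [8, 3, 4], .l [1, 7, 5, 2], .l [2, 4], .c, .y [3], .l [8, 5, 1], .l [2, 7, 4, 1], .r 2682 [1, 4, 2] [1, 1, 1, 3], .l [6, 3, 6], .l [2, 5, 2, 6], .l [9, 4, 8, 7, 0, 4, 1], .l [6, 3, 6], .l [6, 3, 8], .l [2, 5, 2, 8], .l [7, 2, 6, 5, 7, 4, 5]]),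
([p 4 0, g, m 0 1, g, s 1 2, s 3 0, g, s 0 3, g, p 6 4, m 2 5, g, m 5 0, g, s 0 6, g], .hi 0, [.l [2, 1, 11, 5, 1, 6, 1, 8, 6, 3], .l [0, 1], .l [2, 1], .l [2, 1], .l [4, 3, 11, 5, 1, 8, 3, 10, 5, 8, 2, 3], .l [0, 3], .l [4, 3], .l [7, 6, 11, 7, 9, 1, 10, 8, 3], .l [0, 6], .l [7, 6], .l [7, 6, 9, 5, 1, 6, 1, 6, 4, 1], .l [9, 8, 11, 7, 1, 8, 1, 8, 6, 1], .l [0, 8], .l [9, 8], .l [0, 11, 13, 11, 8], .l [0, 11], .l [12, 11], .l [14, 13, 9, 5, 1, 6, 1, 10, 7, 3, 6, 1], .l [0, 13], .l [14, 13], .y [0, 14, 9], .l [16, 15, 9, 5, 1, 6, 1, 8, 5, 8, 2, 3], .l [0, 15], .l [16, 15]]),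
([p 4 0, g, s 0 1, s 3 2, g, m 2 0, g, s 0 3, g, p 6 4, m 1 5, g, m 5 0, g, s 0 6, g], .lo 2, [.l [6, 10, 5, 8, 1, 8, 5, 2, 4, 1], .l [8, 12, 7, 10, 1, 10, 7, 2, 6, 1], .l [8, 12, 7, 10, 1, 10, 7, 2, 6, 1], .r 3116 [7, 1, 3, 4, 5, 6] [1, 1, 3, 1, 1, 1, 1], .l [10, 5, 6, 1, 9, 3, 7, 1, 7, 3, 0, 5], .l [10, 12, 3, 6, 2, 10, 7, 0, 9], .l [7, 3, 11, 6, 9, 2, 9, 6, 3], .l [5, 1, 9, 6, 7, 0, 7, 6, 3], .l [3, 8, 1, 5, 9, 3, 4, 8, 6, 3], .l [3, 7, 5, 11, 5, 6, 10, 8, 5], .l [3, 8, 1, 5, 9, 3, 4, 8, 6, 3], .l [9, 6, 3, 10, 4, 8, 1, 8, 4, 1], .l [9, 6, 3, 10, 4, 8, 1, 8, 4, 1], .l [10, 1, 6, 3, 9, 3, 7, 1, 7, 3, 0, 5], .l [2, 11, 13, 11, 6], .l [10, 7, 3, 10, 3, 10, 6, 7], .l [2, 11, 13, 11, 6], .y [2, 10, 12], .l [14, 11, 3, 10,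 3, 8, 1, 8, 4, 1], .l [10, 7, 3, 12, 5, 1, 4, 1], .l [6, 10, 5, 8, 1, 8, 5, 2, 4, 5], .l [16, 13, 3, 12, 5, 10, 1, 10, 6, 3], .l [10, 7, 3, 14, 7, 1, 6, 3], .l [6, 10, 5, 8, 1, 8, 5, 2, 4, 7]]),
([p 4 0, g, s 0 1, s 3 2, g, s 0 3, g, p 6 4, m 1 5, g, m 2 0, g, m 5 0, g, s 0 6, g], .lo 2, [.l [2, 1, 9, 1, 10, 7, 4, 6, 1], .l [6, 10, 7, 10, 1, 10, 7, 2, 6, 1], .l [4, 1, 11, 1, 12, 9, 4, 8, 1], .l [12, 6, 9, 1, 5, 11, 5, 6, 7, 3, 6, 1], .l [7, 3, 11, 7, 8, 10, 6, 1], .l [7, 3, 11, 7, 8, 10, 6, 1], .l [5, 12, 9, 10, 12, 8, 3], .l [7, 4, 1, 8, 4, 8, 1, 8, 4, 1], .l [7, 4, 1, 8, 4, 8, 1, 8, 4, 1], .l [7, 12, 7, 10, 12, 6, 1], .l [2, 9, 13, 11, 4], .l [8, 5, 1, 8, 3, 10, 6, 7], .l [2, 9, 13, 11, 4], .l [2, 9, 11, 9, 4], .l [2,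 11, 13, 9, 4], .l [8, 5, 1, 10, 5, 8, 4, 8, 6, 3], .l [2, 11, 13, 9, 4], .y [2, 8, 12], .l [8, 5, 1, 12, 7, 1, 6, 1], .l [8, 5, 1, 12, 7, 1, 6, 1], .l [13, 11, 12, 6, 0, 10, 7], .l [8, 5, 1, 14, 9, 1, 8, 3], .l [8, 5, 1, 14, 9, 1, 8, 3], .l [15, 13, 14, 8, 0, 12, 9]]),
([p 5 0, g, s 0 1, s 3 2, g, s 0 3, g, m 2 0, p 4 0, g, p 0 4, g, p 7 5, m 1 6, g, m 6 0, g, s 0 7, g], .lo 2, [.l [0, 1, 7, 8, 7, 3, 9, 10, 9, 3, 8, 4, 1], .l [10, 15, 8, 11, 1, 14, 11, 3, 1, 6, 8, 5], .l [2, 3, 9, 10, 9, 3, 11, 12, 11, 3, 10, 4, 1], .l [10, 12, 11, 3, 12, 3, 12, 4, 1, 5, 1, 9, 7], .l [9, 5, 14, 7, 12, 4, 1, 11, 7, 4], .l [10, 15, 6, 5, 3, 1, 11, 5, 1, 4, 1, 9, 5], .l [9, 5, 14, 7, 12, 4, 1, 11, 7, 4], .l [13, 6, 9, 1, 12, 3, 10, 4, 10,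 3, 0, 9], .l [10, 12, 11, 5, 6, 2, 10, 3, 10, 2, 3, 9, 7], .l [9, 5, 14, 7, 10, 2, 12, 9, 4], .l [7, 3, 12, 7, 8, 0, 10, 9, 4], .l [3, 8, 6, 11, 9, 11, 6, 6, 3], .l [9, 12, 10, 3, 11, 4, 5, 10, 4, 1], .l [3, 10, 8, 13, 11, 13, 6, 8, 5], .l [1, 14, 12, 7, 9, 7, 3], .l [5, 1, 11, 8, 12, 3, 7, 11, 6, 3], .l [3, 12, 10, 14, 3, 7, 13, 8, 5], .l [8, 10, 9, 3, 12, 5, 12, 4, 1, 7, 3, 9, 5], .l [2, 14, 16, 14, 9], .l [13, 10, 1, 13, 3, 13, 9, 10], .l [2, 14, 16, 14, 9], .y [2, 13, 15], .l [13, 10, 1, 15, 5, 1, 4, 1], .l [13, 10, 1, 15, 5, 1, 4, 1], .l [1, 8, 12, 5, 5, 14, 11, 7, 3, 8, 9, 4, 1], .l [13, 10, 1, 17, 7, 1, 6, 3], .l [13, 10, 1, 17, 7, 1, 6, 3], .l [1, 8, 12, 5, 5, 16, 13, 7, 3, 8, 11, 6, 1]]),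
([p 4 0, g, s 0 1, s 3 2, g, s 0 3, g, m 2 0, p 0 0, g, p 6 4, m 1 5, g, m 5 0, g, s 0 6, g], .lo 8, [.l [0, 7], .l [1, 12, 10, 7, 3], .l [2, 9], .l [1, 12, 10, 7], .l [4, 12, 7, 4, 8], .l [5, 9], .l [4, 12, 7, 4], .l [6, 12, 5, 2, 6], .l [7, 9], .l [6, 12, 5, 2], .l [6, 10, 3, 0], .y [8], .l [7, 3, 11, 4, 1], .r 3119 [1, 2, 3, 7, 4, 5, 6] [1, 1, 1, 1, 1, 1, 1, 1], .l [7, 3, 11, 4, 1], .l [7, 3, 9, 2, 10], .l [9, 13, 11, 3, 7, 0, 12], .l [7, 3, 9, 2, 10], .l [7, 3, 9, 2, 10], .l [7, 3, 9, 2, 12], .l [9, 15, 13, 3, 7, 0, 12], .l [7, 3, 9, 2, 12], .l [7, 3, 9, 2, 14], .l [9, 10, 0, 13, 15, 9, 3], .l [7, 3, 9, 2, 14]]),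
([p 5 0, g, s 0 1, s 3 2, g, s 0 3, g, m 2 0, s 0 4, g, m 4 0, g, p 0 5, m 1 0, g], .lo 8, [.l [0, 7, 3], .l [1, 14, 12, 7, 3, 8, 1, 10, 6, 1], .l [2, 9, 3], .l [1, 14, 12, 7, 3], .l [7, 3, 13, 6, 13, 4, 10, 7], .l [5, 9, 6], .l [4, 14, 9, 4, 10], .l [5, 1, 13, 8, 13, 2, 8, 9], .l [7, 9, 4], .l [6, 14, 7, 2, 8], .l [6, 12, 5, 0, 6], .l [5, 1, 13, 8, 13, 2, 10, 1], .l [10, 1, 11, 9, 3], .l [7, 3, 13, 6, 1], .y [8, 10], .l [5, 1, 13, 8, 13, 2, 10, 3], .l [10, 1, 11, 9, 3], .l [7, 3, 13, 6, 3], .l [7, 3, 11, 4, 10], .l [5, 1, 11, 6, 11, 2, 8, 9], .l [10, 1, 14, 12, 3], .l [7, 3, 11, 4, 12]]),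
([p 4 0, g, s 0 1, s 3 2, g, s 0 3, g, m 2 0, s 0 0, g, p 6 4, m 1 5, g, m 5 0, g, s 0 6, g], .hi 8, [.l [5, 12, 6, 12, 1, 9, 11, 2, 8, 3], .l [1, 12, 10, 7, 3], .l [2, 9, 3], .l [7, 3, 9, 2, 3, 8, 4, 1], .l [3, 12, 8, 12, 1, 7, 11, 4, 8, 5], .l [4, 12, 7, 4, 8], .l [5, 9, 6], .l [3, 10, 6, 10, 1, 7, 9, 2, 6, 5], .l [3, 12, 8, 12, 1, 9, 11, 2, 6, 7], .l [6, 12, 5, 2, 6], .l [7, 9, 4], .y [8], .l [3, 12, 8, 12, 1, 9, 11, 2, 8, 1], .l [7, 3, 11, 4, 1], .r 3121 [1, 2, 3, 7, 4] [1, 1, 1, 1, 1, 5], .l [8, 12, 14, 12, 1], .l [7, 3, 9, 2, 10], .l [3, 10, 6, 10, 1, 7, 11, 4, 8, 5], .l [3, 10, 6, 10, 1, 7, 9, 2, 6, 7], .l [7, 3, 9, 2, 12], .l [9, 11, 3, 6, 1, 9, 6, 0, 9, 3, 6, 3], .l [3, 10, 6, 10, 1, 7, 9, 2, 6, 7], .l [3, 10,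 6, 10, 1, 7, 9, 2, 6, 9], .l [7, 3, 9, 2, 14], .l [14, 17, 10, 3, 11, 4, 3, 10, 4, 1]]),
([p 5 0, g, s 0 1, s 3 2, g, s 0 3, g, m 2 0, m 0 4, g, m 4 0, g, p 7 5, m 1 6, g, m 6 0, g, s 0 7, g], .lo 2, [.l [0, 1, 7, 8, 7, 3, 9, 10, 9, 3, 8, 4, 1], .l [10, 15, 8, 11, 1, 14, 11, 3, 1, 6, 8, 5], .l [2, 3, 9, 10, 9, 3, 11, 12, 11, 3, 10, 4, 1], .l [10, 12, 11, 3, 12, 3, 12, 4, 1, 5, 1, 9, 7], .l [9, 5, 14, 7, 12, 4, 1, 11, 7, 4], .l [10, 15, 6, 5, 3, 1, 11, 5, 1, 4, 1, 9, 5], .l [9, 5, 14, 7, 12, 4, 1, 11, 7, 4], .l [13, 6, 9, 1, 12, 3, 10, 4, 10, 3, 0, 9], .l [10, 12, 11, 5, 6, 2, 10, 3, 10, 2, 3, 9, 7], .l [9, 5, 14, 7, 10, 2, 12, 9, 4], .l [7, 3, 12, 7, 8, 0, 10, 9, 4], .l [9, 12, 10, 3, 11, 4, 5, 10, 4, 1], .l [3, 10, 8,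 13, 11, 13, 6, 8, 5], .l [1, 14, 12, 7, 9, 7, 3], .l [1, 12, 10, 7, 7, 5, 3], .l [5, 1, 11, 8, 12, 3, 7, 11, 6, 3], .l [3, 12, 10, 14, 3, 7, 13, 8, 5], .l [8, 10, 9, 3, 12, 5, 12, 4, 1, 7, 3, 9, 5], .l [2, 14, 16, 14, 9], .l [13, 10, 1, 13, 3, 13, 9, 10], .l [2, 14, 16, 14, 9], .y [2, 13, 15], .l [13, 10, 1, 15, 5, 1, 4, 1], .l [13, 10, 1, 15, 5, 1, 4, 1], .l [1, 8, 12, 5, 5, 14, 11, 7, 3, 8, 9, 4, 1], .l [13, 10, 1, 17, 7, 1, 6, 3], .l [13, 10, 1, 17, 7, 1, 6, 3], .l [1, 8, 12, 5, 5, 16, 13, 7, 3, 8, 11, 6, 1]]),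
([p 4 0, g, s 0 1, s 3 2, g, s 0 3, g, m 2 0, m 0 0, g, p 6 4, m 1 5, g, m 5 0, g, s 0 6, g], .hi 8, [.l [1, 12, 10, 7, 3], .l [1, 12, 10, 7], .l [2, 9], .l [1, 10, 8, 5, 3], .l [4, 12, 7, 4, 8], .l [4, 12, 7, 4], .l [5, 9], .l [2, 10, 7, 1, 1, 2, 1], .l [6, 12, 5, 2, 6], .l [6, 12, 5, 2], .l [7, 9], .y [8], .l [7, 3, 11, 4, 1], .l [7, 3, 11, 4, 1], .r 3123 [1, 2, 3, 7, 4, 5, 6] [1, 1, 1, 1, 1, 1, 1, 1], .l [7, 3, 9, 2, 10], .l [7, 3, 9, 2, 10], .l [9, 13, 11, 3, 7, 0, 12], .l [7, 3, 9, 2, 12], .l [7, 3, 9, 2, 12], .l [9, 15, 13, 3, 7, 0, 12], .l [7, 3, 9, 2, 12], .l [7, 3, 9, 2, 14], .l [7, 3, 9, 2, 14], .l [9, 10, 0, 13, 15, 9, 3]]),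
([p 4 0, g, s 0 1, s 3 2, g, s 0 3, g, m 2 0, g, p 6 4, m 1 5, g, m 5 0, g, s 0 6, g], .top 8, [.l [7, 3, 7, 0, 10], .r 3122 [1, 2, 3, 4, 5, 6] [1, 1, 1, 1, 1, 1, 1], .r 3120 [1, 2, 3, 4, 5, 6] [1, 1, 1, 1, 1, 1, 1], .r 3124 [1, 2, 3, 4, 5, 6] [1, 1, 1, 1, 1, 1, 1]]),
([p 3 0, g, s 0 1, s 2 0, g, s 0 2, g, p 5 3, m 1 4, g, m 4 0, g, s 0 5, g], .hi 3, [.l [10, 5, 6, 2, 10, 7, 1, 3, 6, 1], .l [2, 10, 5, 8, 10, 6, 7], .l [10, 5, 6], .c, .l [3, 6, 9, 3, 6, 10, 5, 8, 2, 3], .l [10, 7, 1], .r 3117 [1, 6, 2, 3, 4, 5] [1, 1, 1, 1, 1, 1, 1], .y [3, 5], .l [3, 6, 9, 3, 6, 10, 5, 8, 2, 3], .l [10, 7, 3], .r 3125 [1, 6, 2, 3, 4, 5] [1, 1, 1, 1, 1, 1, 1], .l [3, 9, 11, 9, 3], .l [3, 9, 11, 9, 3], .r 3118 [1, 6, 2, 3, 4, 5] [1, 1, 1,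 1, 1, 1, 1], .l [12, 8, 4, 7, 3, 8, 2, 5], .l [8, 5, 10], .l [12, 8, 4, 7, 3, 8, 2, 5], .l [3, 11, 6, 9, 5, 8, 1, 4, 2, 3], .l [14, 10, 4, 9, 5, 10, 2, 7], .l [8, 5, 12], .l [14, 10, 4, 9, 5, 10, 2, 7]]),
([p 3 0, g, s 2 0, g, s 0 1, s 0 2, g, p 0 3, m 1 4, g, m 4 0, g], .hi 0, [.l [2, 1, 9, 3, 4, 8, 6, 3], .l [0, 1], .l [2, 1], .l [4, 3, 9, 3, 6, 8, 4, 5], .l [0, 3], .l [4, 3], .r 1387 [5, 1, 3] [3, 2, 0, 3], .l [8, 3, 6], .l [7, 6, 9, 5, 6, 8, 6, 1], .l [0, 6], .l [7, 6], .y [0, 7], .l [0, 9, 11, 9, 6], .l [0, 9], .l [10, 9], .r 2905 [5, 1, 3] [3, 2, 3, 1], .l [0, 11], .l [12, 11]]),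
([p 4 0, g, m 0 1, g, s 1 2, s 0 3, g, s 3 0, g, p 6 4, m 2 5, g, m 5 0, g, s 0 6, g], .hi 0, [.l [2, 1, 11, 5, 1, 6, 1, 8, 6, 3], .l [0, 1], .l [2, 1], .l [2, 1], .l [4, 3, 11, 5, 1, 8, 3, 10, 5, 8, 2, 3], .l [0, 3], .l [4, 3], .l [10, 5, 8], .l [7, 6, 11, 7, 9, 1, 10, 8, 3], .l [0, 6], .l [7, 6], .l [9, 8, 11, 7, 1, 8, 1, 8, 6, 1], .l [0, 8], .l [9, 8], .l [0, 11, 13, 11, 8], .l [0, 11], .l [12, 11], .l [14, 13, 9, 5, 1, 6, 1, 10, 7, 3, 6, 1], .l [0, 13], .l [14, 13], .y [0, 14, 9], .l [16, 15, 9, 5, 1, 6, 1, 8, 5, 8, 2, 3], .l [0, 15], .l [16, 15]]),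
([p 3 0, g, s 0 1, s 5 2, g, s 2 0, g, p 6 3, m 1 4, g, p 0 5, g, m 4 0, g, s 0 6, g], .lo 2, [.l [2, 1, 9, 1, 10, 7, 4, 6, 1], .l [6, 10, 7, 10, 1, 10, 7, 2, 6, 1], .l [4, 1, 11, 1, 12, 9, 4, 8, 1], .l [12, 6, 9, 1, 5, 11, 5, 6, 7, 3, 6, 1], .l [7, 3, 11, 7, 8, 10, 6, 1], .l [7, 3, 11, 7, 8, 10, 6, 1], .l [5, 12, 9, 10, 12, 8, 3], .l [5, 2, 1, 6, 4, 6, 1, 6, 4, 1], .l [7, 4, 1, 8, 4, 8, 1, 8, 4, 1], .l [7, 4, 1, 8, 4, 8, 1, 8, 4, 1], .l [7, 12, 7, 10, 12, 6, 1], .l [2, 9, 13, 11, 4], .l [8, 5, 1, 8, 3, 10, 6, 7], .l [2, 9, 13, 11, 4], .l [2, 11, 13, 9, 4], .l [8, 5, 1, 10, 5, 8, 4, 8, 6, 3], .l [2, 11, 13, 9, 4], .y [2, 8, 12], .l [8, 5, 1, 12, 7, 1, 6, 1], .l [8, 5, 1, 12, 7, 1, 6, 1], .l [13, 11, 12, 6, 0, 10, 7], .l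 [8, 5, 1, 14, 9, 1, 8, 3], .l [8, 5, 1, 14, 9, 1, 8, 3], .l [15, 13, 14, 8, 0, 12, 9]]),
([p 2 0, g, s 0 1, s 4 0, g, p 5 2, m 1 3, g, p 0 4, g, m 3 0, g, s 0 5, g], .hi 3, [.r 3127 [1, 6, 2, 3] [1, 1, 1, 3, 3], .l [10, 4, 7, 2, 3], .l [8, 3, 4], .c, .r 3129 [1, 6, 2, 3, 4, 5] [1, 1, 1, 1, 1, 1, 1], .l [8, 5, 1], .l [6, 10, 6, 8, 1, 9, 5, 0, 7], .l [3, 7, 11, 9, 1], .l [3, 7, 11, 9, 1], .l [8, 4, 7, 5, 7, 4, 5], .y [3, 8], .l [3, 9, 11, 7, 1], .l [3, 9, 11, 7, 1], .l [8, 4, 7, 5, 7, 4, 5], .l [8, 4, 11, 6, 2, 8, 3], .l [6, 3, 10], .l [8, 4, 7, 5, 9, 6, 7], .l [8, 4, 11, 6, 2, 8, 3], .l [8, 4, 13, 8, 2, 10, 5], .l [6, 3, 12], .l [8, 4, 7, 5, 11, 8, 9]]),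
([p 3 0, g, s 0 1, g, s 0 2, s 1 0, g, p 5 3, m 2 4, g, m 4 0, g, s 0 5, g], .lo 4, [.l [0, 3, 7, 3, 4, 8, 5, 6, 0, 1], .l [2, 5, 9, 3, 6, 10, 5, 8, 2, 3], .l [2, 5, 9, 3, 6, 10, 5, 8, 2, 3], .l [5, 10, 3, 7, 9, 4, 4, 5], .l [3, 10, 3, 7, 9, 4, 6, 1], .l [5, 10, 3, 5, 9, 6, 6, 1], .l [3, 10, 3, 7, 9, 4, 6, 1], .c, .l [3, 10, 5, 7, 9, 6, 6, 3], .l [8, 10, 5, 8, 2, 8, 5, 0, 7], .l [3, 10, 5, 7, 9, 6, 6, 3], .l [4, 9, 11, 9, 2], .l [8, 3, 9, 5, 10, 4, 5], .l [4, 9, 11, 9, 2], .y [4, 8, 10], .l [3, 8, 3, 5, 7, 4, 4, 5], .l [8, 3, 11, 7, 3, 6, 1], .l [3, 8, 3, 5, 7, 4, 4, 5], .l [3, 8, 3, 5, 7, 4, 4, 7], .l [8, 3, 13, 9, 3, 8, 3], .l [3, 8, 3, 5, 7, 4, 4, 7]]),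
([p 2 0, g, s 0 1, s 4 0, g, p 5 2, m 1 3, g, m 3 0, g, p 0 4, g, s 0 5, g], .hi 3, [.l [12, 6, 2, 5, 6, 10, 7, 1, 6, 1], .l [12, 6, 9, 2, 5], .l [8, 3, 4], .c, .l [12, 8, 4, 7, 3, 8, 2, 5], .l [8, 5, 1], .l [12, 8, 11, 7, 0, 4, 7], .l [3, 7, 9, 7, 1], .l [3, 7, 9, 7, 1], .l [8, 4, 7, 5, 9, 6, 7], .l [10, 6, 11, 4, 7, 10, 1, 4, 2, 5], .l [6, 3, 8], .l [10, 6, 9, 7, 9, 4, 7], .y [3, 10], .l [10, 6, 2, 5, 8, 10, 5, 8, 2, 5], .l [6, 3, 10], .l [10, 6, 9, 7, 9, 4, 7], .l [10, 6, 2, 5, 8, 8, 3, 6, 2, 3], .l [14, 10, 2, 9, 3, 1, 5, 8, 2, 5], .l [6, 3, 12], .l [10, 6, 9, 7, 11, 6, 9]]),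
([p 2 0, g, s 0 1, s 0 0, g, p 6 2, m 1 3, g, m 3 0, s 5 4, g, s 0 5, g, m 4 0, g, s 0 6, g], .hi 3, [.l [8, 3, 4, 11, 1, 11, 9, 6], .l [2, 8, 3, 6, 8, 4, 5], .l [8, 3, 4], .c, .y [3], .l [0, 8, 5, 1, 13, 3, 6, 7, 4, 1], .l [8, 5, 1], .l [6, 8, 3, 6, 1, 9, 1, 9, 7, 3, 0, 6], .l [3, 7, 9, 7, 1], .l [3, 7, 9, 7, 1], .l [15, 3, 9, 1, 10, 6, 11, 2, 8, 1], .l [0, 6, 3, 9, 4, 5, 2, 7], .l [6, 3, 9], .l [13, 3, 16, 8, 9, 10, 9, 3, 1, 7, 2, 7], .l [6, 3, 9, 4, 6, 11, 5, 9, 2, 5], .l [0, 6, 3, 11, 6, 7, 4, 1], .l [6, 3, 11], .l [10, 17, 11, 12, 13, 12, 6, 11, 2, 7], .l [0, 6, 3, 13, 8, 9, 6, 1], .l [6, 3, 13], .l [10, 17, 11, 12, 13, 12, 6, 11, 2, 5], .l [0, 6, 3, 13, 8, 9, 6, 1], .l [0, 6, 3, 15, 10, 11, 8, 1], .l [6, 3, 15],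 .l [14, 9, 13, 12, 14, 4, 12, 12, 10, 1]]),
([p 2 0, g, s 0 1, s 0 0, g, p 5 2, m 1 3, g, m 3 0, s 0 4, g, m 4 0, g, s 0 5, g], .lo 9, [.l [9, 8, 8, 3, 0, 5, 7, 4, 1], .l [6, 11, 6, 3, 6, 9, 7, 3, 0, 6], .l [11, 8, 10, 5, 0, 7, 9, 4, 1], .l [1, 8, 3, 2, 5, 7, 4], .l [4, 6, 3, 4, 5, 3, 0, 6], .l [6, 8, 3, 6, 7, 3, 0, 8], .l [11, 5, 2, 6, 10, 7, 2], .l [4, 8, 9, 8, 2, 7, 2], .l [8, 10, 7], .l [8, 10, 7], .l [7, 15, 12, 12, 7, 2, 10], .l [7, 13, 10, 10, 5, 0, 8], .r 3133 [1, 2, 3, 4, 6, 5] [1, 1, 1, 1, 1, 1, 1], .l [0, 6, 3, 12, 3, 6, 7, 4, 1], .l [14, 6, 8, 13, 12, 6, 1], .y [9, 11], .l [4, 9, 11, 8, 3, 6, 7, 3, 0, 6], .l [0, 6, 3, 12, 3, 6, 7, 4, 1], .l [6, 3, 8, 11, 8, 2, 6, 8, 1], .l [4, 9, 13, 10, 3, 6, 9, 5, 0, 1],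 .l [0, 6, 3, 14, 5, 8, 9, 6, 3], .l [6, 3, 8, 13, 10, 2, 6, 10, 3]]),
([p 3 0, g, s 0 1, p 2 0, g, p 0 2, g, p 5 3, m 1 4, g, m 4 0, g, s 0 5, g], .hi 3, [.l [5, 9, 3, 9, 1, 6, 8, 2, 3], .r 2687 [1, 6, 2, 3, 4] [1, 1, 1, 1, 1, 3], .l [5, 2], .l [6, 8, 3, 4, 0, 6, 5, 0, 5], .l [3, 9, 5, 9, 1, 4, 8, 4, 1], .l [3, 4], .l [5, 1], .y [3, 5], .l [3, 9, 5, 9, 1, 6, 8, 2, 5], .l [3, 6], .l [7, 3], .l [3, 9, 11, 9, 3], .l [3, 9], .l [10, 6], .l [3, 7, 3, 7, 1, 4, 6, 2, 5], .l [3, 11], .l [12, 8], .l [3, 11, 6, 0, 9, 5, 8, 1, 4, 2, 3], .l [3, 7, 3, 7, 1, 4, 6, 2, 7], .l [3, 13], .l [14, 10]])]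

def d12_1 : List (List Item × Qry × List Rf) := [
([p 2 0, g, s 0 1, g, p 4 2, m 1 3, g, p 0 0, s 0 4, g, m 3 0, g], .hi 7, [.l [5, 6, 0, 8, 5], .l [7, 2, 6, 4, 6, 3, 8, 2, 5], .l [9, 6], .l [3, 4, 0, 6, 3], .l [5, 6, 0, 8, 3], .l [7, 4, 6, 2, 2, 6, 1], .l [9, 4], .l [3, 4, 0, 8, 1], .l [3, 7, 11, 8, 0, 4, 7], .l [9, 1], .y [7], .c, .l [3, 4, 0, 6, 7], .l [7, 9], .l [10, 2], .l [3, 4, 0, 6, 9], .l [7, 11], .l [12, 4]]),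
([p 2 0, g, s 0 1, g, p 4 2, m 1 3, g, m 0 0, s 0 4, g, m 3 0, g], .lo 7, [.l [7, 6], .l [5, 6, 0, 8, 5], .l [9, 6], .l [7, 2, 6, 4, 6, 3, 8, 2, 5], .l [5, 6, 0, 8, 3], .l [9, 4], .l [7, 4, 6, 2, 2, 6, 1], .l [3, 4, 0, 8, 1], .l [9, 1], .l [3, 7, 11, 8, 0, 4, 7], .y [7], .l [3, 4, 0, 6, 7], .l [10, 2], .l [7, 9], .l [7, 9], .l [3, 4, 0, 6, 9], .l [12, 4], .l [7, 11]]),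
([p 2 0, g, s 0 1, g, s 0 0, p 5 2, m 1 3, g, s 0 4, s 0 5, g, m 3 0, g, s 4 0, g], .hi 4, [.l [6, 3, 6, 0, 8, 11], .l [8, 3, 5, 3, 7, 10], .l [6, 3, 6, 0, 8], .l [4, 1, 4, 0, 6, 9], .l [6, 1, 6, 0, 8, 11], .r 2428 [6, 2] [3, 1, 9], .l [6, 1, 6, 0, 8], .y [4], .l [4, 7, 12, 10, 0], .l [4, 7, 12, 10, 0], .l [8, 3, 9], .l [4, 7, 10, 8, 0], .l [4, 8, 10, 7, 0], .l [4, 10, 12, 7, 0], .l [4, 10, 12, 7, 0], .l [11, 6, 3], .l [1, 13, 8, 3, 5, 2, 8, 5], .l [4, 5, 0, 7, 9, 6, 9], .l [13, 8, 3], .l [15, 10, 3, 6, 12, 8], .l [4, 5, 0, 7, 9, 6, 11], .l [15, 10, 3]]),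
([p 2 0, g, s 0 1, g, p 5 2, m 1 3, g, s 0 4, s 0 5, g, m 3 0, g, s 4 0, g], .bot 3, [.l [4, 1, 5], .r 3138 [1, 2, 3, 4, 5] [1, 1, 1, 1, 1, 1], .r 1201 [2] [3, 9], .r 2849 [2] [3, 9]]),
([p 1 0, g, s 0 0, p 4 1, m 0 2, g, s 0 3, s 0 4, g, s 3 0, g, m 2 0, g], .hi 2, [.l [4, 1, 4, 0, 6, 7], .r 2428 [5, 1] [1, 1, 9], .l [4, 1, 4, 0, 6], .y [2], .l [4, 1, 5], .l [2, 5, 12, 10, 0], .l [2, 5, 12, 10, 0], .l [6, 3, 7], .l [2, 5, 10, 8, 0], .l [2, 6, 10, 7, 0], .l [2, 8, 12, 7, 0], .l [2, 8, 12, 7, 0], .l [9, 6, 3], .l [2, 10, 12, 5, 0], .l [2, 10, 12, 5, 0], .l [11, 8, 3], .l [13, 10, 3, 4, 10, 8], .l [2, 3, 0, 5, 9, 6, 9], .l [13, 10, 3]]),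
([p 1 0, g, p 4 1, m 0 2, g, s 0 3, s 0 4, g, s 3 0, g, m 2 0, g], .bot 1, [.r 111 [1, 2] [6, 1], .r 3140 [1, 2, 3, 4] [1, 1, 1, 1, 1], .r 1201 [1] [1, 9], .r 2849 [1] [1, 9]]),
([p 2 0, g, s 0 1, g, p 5 2, m 1 3, g, s 4 0, g, s 0 4, s 0 5, g, m 3 0, g], .lo 9, [.l [0, 8, 11, 7, 3], .l [2, 10, 13, 9, 3], .l [2, 10, 13, 9, 3], .l [5, 3, 9, 12, 8, 0, 4], .l [4, 10, 13, 9, 1], .l [4, 10, 13, 9, 1], .l [5, 1, 9, 12, 8, 0, 4], .l [8, 4, 10, 6, 11, 2, 6, 1], .l [3, 4, 0, 10, 3], .l [3, 7, 13, 10, 0, 6, 9], .y [7, 9], .l [8, 4, 10, 6, 11, 2, 6, 1], .l [3, 4, 0, 10, 1], .l [3, 9, 13, 8, 0, 4, 9], .l [8, 4, 8, 4, 11, 4, 6, 3], .l [3, 10, 13, 7, 0, 10, 5], .l [3, 4, 0, 8, 9], .l [3, 4, 0, 8, 9], .l [8, 4, 8, 4, 9, 2, 4, 7], .l [4,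 14, 4, 12, 12, 8, 5], .l [3, 4, 0, 8, 11]]),
([p 2 0, g, s 0 1, g, p 4 2, m 1 3, g, s 0 0, s 0 4, g, m 3 0, g], .hi 7, [.l [2, 8, 11, 9, 3], .l [5, 3, 7, 10, 8, 0, 4], .l [2, 8, 11, 9, 3], .l [2, 6, 9, 7, 1], .l [4, 8, 11, 9, 1], .l [5, 1, 7, 10, 8, 0, 4], .l [4, 8, 11, 9, 1], .r 3142 [1, 2, 3, 5, 4] [1, 1, 1, 1, 1, 1], .l [3, 7, 11, 8, 0, 4, 7], .l [3, 4, 0, 8, 1], .y [7], .c, .r 3141 [2, 3, 5, 4] [3, 1, 1, 1, 1], .l [3, 4, 0, 6, 7], .l [3, 8, 11, 7, 0, 8, 3], .r 3139 [1, 2, 3, 5, 4] [1, 1, 1, 1, 1, 1], .l [3, 4, 0, 6, 9], .l [4, 12, 4, 10, 10, 6, 3]]),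
([p 2 0, g, s 0 1, g, p 4 2, m 1 3, g, s 0 4, g, m 3 0, g], .bot 6, [.l [3, 4, 0, 4, 1], .r 3143 [1, 2, 3, 4] [1, 1, 1, 1, 1], .r 3136 [1, 2, 3, 4] [1, 1, 1, 1, 1], .r 3137 [1, 2, 3, 4] [1, 1, 1, 1, 1]]),
([p 3 0, g, s 0 1, p 2 0, g, p 0 2, g, p 4 3, m 1 0, g, s 0 4, g], .hi 8, [.l [2, 9, 6], .l [1, 9, 7, 8], .l [2, 9], .y [2, 8], .l [5, 9, 3], .l [4, 7, 5, 7, 4, 6], .l [5, 9], .l [4, 5, 3, 5, 2, 4], .l [7, 9, 1], .l [6, 9, 2, 8], .l [7, 9], .l [8, 5, 7, 2, 7], .l [8, 5, 7, 2, 7], .r 3135 [1, 2, 3, 5, 4] [1, 1, 1, 1, 1, 1], .l [8, 5, 7, 2, 7], .l [8, 5, 7, 2, 9], .l [8, 5, 7, 2, 9], .r 3144 [1, 3, 5, 4] [1, 4, 1, 1, 1]]),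
([p 2 0, g, s 0 1, p 0 0, g, p 3 2, m 1 0, g, s 0 3, g], .lo 3, [.l [0, 2], .l [8, 3, 4], .l [2, 4], .l [1, 7, 5, 2], .y [3], .l [8, 5, 1], .r 3145 [1, 4, 2, 3] [1, 1, 1, 1, 1], .l [2, 7, 4, 1], .l [2, 5, 2, 4], .l [6, 3, 6], .l [9, 4, 8, 7, 0, 4, 1], .l [2, 5, 2, 6], .l [6, 3, 8], .l [7, 2, 6, 5, 7, 4, 5], .l [2, 5, 2, 8]]),
([p 2 0, g, s 0 1, s 5 0, g, p 4 2, m 1 3, g, m 3 0, g, s 0 4, g, p 0 5, g], .hi 3, [.l [14, 8, 2, 7, 8, 6, 3, 8, 4, 5], .l [14, 8, 11, 2, 7], .l [8, 3, 4], .c, .l [14, 10, 4, 9, 5, 10, 2, 7], .l [8, 5, 1], .l [14, 10, 13, 9, 0, 6, 9], .l [3, 7, 9, 7, 1], .l [3, 7, 9, 7, 1], .l [8, 4, 7, 5, 11, 8, 9], .l [11, 1, 6, 12, 5, 8, 9, 3, 2, 5], .l [6, 3, 8], .l [10, 6, 9, 7, 11, 6, 9], .l [12, 8, 2, 7, 1,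 1, 3, 6, 2, 3], .l [14, 10, 2, 9, 1, 3, 5, 8, 2, 5], .l [6, 3, 10], .l [12, 8, 11, 9, 11, 4, 9], .y [3, 12], .l [12, 8, 2, 7, 10, 8, 3, 6, 2, 3], .l [6, 3, 12], .l [12, 8, 11, 9, 11, 4, 9]]),
([p 2 0, g, s 0 1, g, s 0 0, p 5 2, m 1 3, g, m 3 0, s 0 4, g, s 0 5, g, m 4 0, g], .hi 4, [.l [6, 3, 7, 8, 7, 0, 8, 10, 8, 1], .l [10, 3, 12, 6, 9, 12, 7, 4, 8, 5], .l [6, 3, 6, 0, 10], .l [8, 3, 10, 4, 7, 10, 5, 2, 6, 5], .l [6, 1, 7, 8, 7, 0, 8, 10, 8, 3], .r 2428 [6, 2] [3, 1, 9], .l [6, 1, 6, 0, 10], .y [4], .l [4, 7, 9, 7, 0], .l [4, 7, 9, 7, 0], .l [8, 3, 11], .l [0, 6, 3, 12, 3, 6, 7, 4, 6, 3], .l [6, 3, 5, 2, 2, 9, 11, 7, 2, 7], .l [12, 1, 6, 10, 9], .l [11, 6, 11], .l [11, 6, 5], .l [6, 3, 5, 2, 2, 7, 11, 9, 2, 5], .l [6,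 3, 5, 2, 2, 7, 11, 9, 2, 5], .l [13, 8, 5], .l [6, 3, 5, 2, 2, 7, 9, 7, 2, 7], .l [6, 3, 5, 2, 2, 7, 9, 7, 2, 7], .l [15, 10, 5]]),
([p 2 0, g, s 0 1, g, p 5 2, m 1 3, g, m 3 0, s 0 4, g, s 0 5, g, m 4 0, g], .bot 3, [.l [4, 1, 7], .r 3148 [1, 2, 3, 4, 5] [1, 1, 1, 1, 1, 1], .r 1201 [2] [3, 9], .r 2849 [2] [3, 9]]),
([p 2 0, g, s 0 1, s 4 0, g, p 5 2, m 1 3, g, m 3 0, s 0 0, g, s 0 4, g, s 0 5, g], .hi 9, [.l [0, 8, 3, 11, 4, 7, 4, 1], .l [0, 8, 3, 11, 4, 7, 4, 1], .l [2, 8, 3, 11, 6, 7, 2, 3], .l [0, 6, 3, 9, 4, 5, 2, 1], .l [0, 8, 5, 11, 4, 5, 2, 5], .l [4, 8, 9, 8, 2, 7, 2], .l [0, 8, 5, 11, 4, 5, 2, 5], .l [8, 10, 7], .l [7, 15, 12, 12, 7, 2, 10], .l [8, 10, 7], .y [9], .l [0, 6, 3, 11, 6, 7, 4, 1], .l [0, 6, 3, 11,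 6, 7, 4, 1], .r 3134 [1, 2, 3, 6, 5] [1, 1, 1, 1, 3, 1], .l [6, 3, 9, 4, 6, 9, 3, 7, 2, 3], .l [0, 6, 3, 9, 4, 5, 2, 7], .l [0, 6, 3, 9, 4, 5, 2, 7], .l [6, 3, 9, 4, 6, 11, 5, 9, 2, 3], .l [0, 6, 3, 9, 4, 5, 2, 7], .l [0, 6, 3, 9, 4, 5, 2, 9], .l [0, 6, 3, 9, 4, 5, 2, 9], .l [4, 6, 7, 6, 0, 9, 11, 7, 2, 7]]),
([p 4 0, g, s 0 1, s 3 2, g, p 0 3, g, s 2 0, g, p 6 4, m 1 5, g, m 5 0, g, s 0 6, g], .lo 2, [.l [6, 10, 5, 8, 1, 8, 5, 2, 4, 1], .l [8, 12, 7, 10, 1, 10, 7, 2, 6, 1], .l [8, 12, 7, 10, 1, 10, 7, 2, 6, 1], .r 3128 [7, 1, 2, 4, 5, 6] [1, 1, 3, 1, 1, 1, 1], .l [10, 5, 6, 1, 9, 3, 7, 1, 7, 3, 0, 5], .l [10, 12, 3, 6, 2, 10, 7, 0, 9], .l [7, 3, 11, 6, 9, 2, 9, 6, 3], .l [3, 8, 1, 5, 9, 3, 4, 8, 6, 3], .l [3, 7, 5, 11,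 5, 6, 10, 8, 5], .l [3, 8, 1, 5, 9, 3, 4, 8, 6, 3], .l [7, 4, 3, 8, 4, 6, 1, 6, 4, 1], .l [9, 6, 3, 10, 4, 8, 1, 8, 4, 1], .l [9, 6, 3, 10, 4, 8, 1, 8, 4, 1], .l [10, 1, 6, 3, 9, 3, 7, 1, 7, 3, 0, 5], .l [2, 11, 13, 11, 6], .l [10, 7, 3, 10, 3, 10, 6, 7], .l [2, 11, 13, 11, 6], .y [2, 10, 12], .l [14, 11, 3, 10, 3, 8, 1, 8, 4, 1], .l [10, 7, 3, 12, 5, 1, 4, 1], .l [6, 10, 5, 8, 1, 8, 5, 2, 4, 5], .l [16, 13, 3, 12, 5, 10, 1, 10, 6, 3], .l [10, 7, 3, 14, 7, 1, 6, 3], .l [6, 10, 5, 8, 1, 8, 5, 2, 4, 7]]),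
([p 3 0, g, s 0 1, s 0 2, g, p 5 3, m 1 4, g, m 4 0, s 0 0, g, s 0 5, g, s 2 0, g], .hi 9, [.l [0, 8, 3, 13, 6, 9, 6, 3], .l [0, 8, 3, 13, 6, 9, 6, 3], .l [2, 8, 3, 13, 8, 9, 4, 5], .l [0, 6, 3, 11, 6, 7, 4, 3], .l [0, 6, 3, 11, 6, 7, 4, 7], .l [0, 8, 5, 13, 6, 7, 4, 7], .l [4, 8, 9, 8, 2, 7, 2], .l [0, 8, 5, 13, 6, 7, 4, 7], .l [8, 10, 7], .l [7, 13, 10, 10, 5, 2, 8], .l [8, 10, 7], .y [9], .l [0, 6, 3, 13, 8, 9, 6, 1], .l [0, 6, 3, 13, 8, 9, 6, 1], .r 3134 [1, 3, 4, 6, 5] [1, 1, 1, 1, 1, 3], .l [0, 6, 3, 11, 6, 7, 4, 1], .l [0, 6, 3, 13, 8, 9, 6, 3], .l [0, 6, 3, 13, 8, 9, 6, 3], .l [4, 6, 7, 6, 0, 7, 9, 7, 2, 7], .l [0, 6, 3, 11, 6, 7, 4, 9], .l [0, 6, 3, 11, 6, 7, 4, 9], .l [4, 6, 7, 6, 0, 7, 11, 9, 2, 5]]),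
([p 3 0, g, s 0 1, s 0 2, g, p 5 3, m 1 4, g, m 4 0, s 0 0, g, s 2 5, g], .hi 9, [.l [0, 8, 3, 11, 4, 7, 4, 1], .l [0, 8, 3, 11, 4, 7, 4, 1], .l [2, 8, 3, 11, 6, 7, 2, 3], .l [0, 6, 3, 9, 4, 5, 2, 1], .l [0, 6, 3, 9, 4, 5, 2, 5], .l [0, 8, 5, 11, 4, 5, 2, 5], .l [4, 8, 9, 8, 2, 7, 2], .l [0, 8, 5, 11, 4, 5, 2, 5], .l [8, 10, 7], .l [7, 13, 10, 10, 5, 2, 8], .l [8, 10, 7], .y [9], .l [0, 6, 3, 11, 6, 7, 4, 1], .l [0, 6, 3, 11, 6, 7, 4, 1], .r 3134 [1, 3, 4, 6, 5] [1, 1, 1, 1, 1, 1], .l [0, 6, 3, 9, 4, 5, 2, 7], .l [0, 6, 3, 9, 4, 5, 2, 7], .r 3149 [1, 3, 4, 6, 5] [1, 2, 1, 1, 1, 1]]),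
([p 3 0, g, s 0 1, s 0 2, g, p 5 3, m 1 4, g, m 4 0, s 0 0, g, s 2 0, g, s 0 5, g], .hi 9, [.l [0, 8, 3, 11, 4, 7, 4, 1], .l [0, 8, 3, 11, 4, 7, 4, 1], .l [2, 8, 3, 11, 6, 7, 2, 3], .l [0, 6, 3, 9, 4, 5, 2, 1], .l [0, 6, 3, 9, 4, 5, 2, 5], .l [0, 8, 5, 11, 4, 5, 2, 5], .l [4, 8, 9, 8, 2, 7, 2], .l [0, 8, 5, 11, 4, 5, 2, 5], .l [8, 10, 7], .l [7, 15, 12, 12, 7, 2, 10], .l [8, 10, 7], .y [9], .l [0, 6, 3, 11, 6, 7, 4, 1], .l [0, 6, 3, 11, 6, 7, 4, 1], .r 3134 [1, 3, 4, 6, 5] [1, 1, 1, 1, 3, 1], .l [0, 6, 3, 9, 4, 5, 2, 7], .l [0, 6, 3, 9, 4, 5, 2, 7], .l [6, 3, 9, 4, 6, 11, 5, 9, 2, 3], .l [0, 6, 3, 9, 4, 5, 2, 7], .l [0, 6, 3, 9, 4, 5, 2, 9], .l [0, 6, 3, 9, 4, 5, 2, 9], .l [4, 6, 7, 6, 0, 9, 11, 7, 2, 7]]),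
([p 5 0, g, s 0 1, s 3 2, g, s 2 0, g, p 0 3, m 0 4, g, m 4 0, g, p 7 5, m 1 6, g, m 6 0, g, s 0 7, g], .lo 2, [.l [0, 1, 7, 8, 7, 3, 9, 10, 9, 3, 8, 4, 1], .l [10, 15, 8, 11, 1, 14, 11, 3, 1, 6, 8, 5], .l [2, 3, 9, 10, 9, 3, 11, 12, 11, 3, 10, 4, 1], .l [10, 12, 11, 3, 12, 3, 12, 4, 1, 5, 1, 9, 7], .l [9, 5, 14, 7, 12, 4, 1, 11, 7, 4], .l [10, 15, 6, 5, 3, 1, 11, 5, 1, 4, 1, 9, 5], .l [9, 5, 14, 7, 12, 4, 1, 11, 7, 4], .l [8, 3, 5, 2, 11, 6, 8, 1, 10, 8, 3, 5, 3], .l [13, 6, 9, 1, 12, 3, 10, 4, 10, 3, 0, 9], .l [10, 12, 11, 5, 6, 2, 10, 3, 10, 2, 3, 9, 7], .l [9, 5, 14, 7, 10, 2, 12, 9, 4], .l [9, 12, 10, 3, 11, 4, 5, 10, 4, 1], .l [3, 10, 8, 13, 11, 13, 6, 8, 5], .l [1, 14, 12, 7, 9, 7, 3], .l [1, 12, 10, 7, 7, 5, 3],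 .l [5, 1, 11, 8, 12, 3, 7, 11, 6, 3], .l [3, 12, 10, 14, 3, 7, 13, 8, 5], .l [8, 10, 9, 3, 12, 5, 12, 4, 1, 7, 3, 9, 5], .l [2, 14, 16, 14, 9], .l [13, 10, 1, 13, 3, 13, 9, 10], .l [2, 14, 16, 14, 9], .y [2, 13, 15], .l [13, 10, 1, 15, 5, 1, 4, 1], .l [13, 10, 1, 15, 5, 1, 4, 1], .l [1, 8, 12, 5, 5, 14, 11, 7, 3, 8, 9, 4, 1], .l [13, 10, 1, 17, 7, 1, 6, 3], .l [13, 10, 1, 17, 7, 1, 6, 3], .l [1, 8, 12, 5, 5, 16, 13, 7, 3, 8, 11, 6, 1]]),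
([p 4 0, g, s 0 1, s 3 2, g, s 2 0, g, p 0 3, m 0 0, g, p 6 4, m 1 5, g, m 5 0, g, s 0 6, g], .hi 8, [.l [1, 12, 10, 7, 3], .l [1, 12, 10, 7], .l [2, 9], .l [1, 10, 8, 5, 3], .l [4, 12, 7, 4, 8], .l [4, 12, 7, 4], .l [5, 9], .l [6, 12, 5, 2, 6], .l [6, 12, 5, 2], .l [7, 9], .l [6, 10, 3, 0], .y [8], .l [7, 3, 11, 4, 1], .l [7, 3, 11, 4, 1], .r 3155 [1, 2, 3, 7, 4, 5, 6] [1, 1, 1, 1, 1, 1, 1, 1], .l [7, 3, 9, 2, 10], .l [7, 3, 9, 2, 10], .l [9, 13, 11, 3, 7, 0, 12], .l [7, 3, 9, 2, 12], .l [7, 3, 9, 2, 12], .l [9, 15, 13, 3, 7, 0, 12], .l [7, 3, 9, 2, 12], .l [7, 3, 9, 2, 14], .l [7, 3, 9, 2, 14], .l [9, 10, 0, 13, 15, 9, 3]]),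
([p 5 0, g, s 0 1, s 3 2, g, s 2 0, g, p 0 3, p 4 0, g, p 0 4, g, p 7 5, m 1 6, g, m 6 0, g, s 0 7, g], .lo 2, [.l [0, 1, 7, 8, 7, 3, 9, 10, 9, 3, 8, 4, 1], .l [10, 15, 8, 11, 1, 14, 11, 3, 1, 6, 8, 5], .l [2, 3, 9, 10, 9, 3, 11, 12, 11, 3, 10, 4, 1], .l [10, 12, 11, 3, 12, 3, 12, 4, 1, 5, 1, 9, 7], .l [9, 5, 14, 7, 12, 4, 1, 11, 7, 4], .l [10, 15, 6, 5, 3, 1, 11, 5, 1, 4, 1, 9, 5], .l [9, 5, 14, 7, 12, 4, 1, 11, 7, 4], .l [8, 3, 5, 2, 11, 6, 8, 1, 10, 8, 3, 5, 3], .l [13, 6, 9, 1, 12, 3, 10, 4, 10, 3, 0, 9], .l [10, 12, 11, 5, 6, 2, 10, 3, 10, 2, 3, 9, 7], .l [9, 5, 14, 7, 10, 2, 12, 9, 4], .l [3, 8, 6, 11, 9, 11, 6, 6, 3], .l [9, 12, 10, 3, 11, 4, 5, 10, 4, 1], .l [3, 10, 8, 13, 11, 13, 6, 8, 5], .l [1, 14, 12, 7, 9,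 7, 3], .l [5, 1, 11, 8, 12, 3, 7, 11, 6, 3], .l [3, 12, 10, 14, 3, 7, 13, 8, 5], .l [8, 10, 9, 3, 12, 5, 12, 4, 1, 7, 3, 9, 5], .l [2, 14, 16, 14, 9], .l [13, 10, 1, 13, 3, 13, 9, 10], .l [2, 14, 16, 14, 9], .y [2, 13, 15], .l [13, 10, 1, 15, 5, 1, 4, 1], .l [13, 10, 1, 15, 5, 1, 4, 1], .l [1, 8, 12, 5, 5, 14, 11, 7, 3, 8, 9, 4, 1], .l [13, 10, 1, 17, 7, 1, 6, 3], .l [13, 10, 1, 17, 7, 1, 6, 3], .l [1, 8, 12, 5, 5, 16, 13, 7, 3, 8, 11, 6, 1]]),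
([p 4 0, g, s 0 1, s 3 2, g, s 2 0, g, p 0 3, p 0 0, g, p 6 4, m 1 5, g, m 5 0, g, s 0 6, g], .lo 8, [.l [0, 7], .l [1, 12, 10, 7, 3], .l [2, 9], .l [1, 12, 10, 7], .l [4, 12, 7, 4, 8], .l [5, 9], .l [4, 12, 7, 4], .l [2, 10, 7, 1, 1, 2, 1], .l [6, 12, 5, 2, 6], .l [7, 9], .l [6, 12, 5, 2], .y [8], .l [7, 3, 11, 4, 1], .r 3157 [1, 2, 3, 7, 4, 5, 6] [1, 1, 1, 1, 1, 1, 1, 1], .l [7, 3, 11, 4, 1], .l [7, 3, 9, 2, 10], .l [9, 13, 11, 3, 7, 0, 12], .l [7, 3, 9, 2, 10], .l [7, 3, 9, 2, 10], .l [7, 3, 9, 2, 12], .l [9, 15, 13, 3, 7, 0, 12], .l [7, 3, 9, 2, 12], .l [7, 3, 9, 2, 14], .l [9, 10, 0, 13, 15, 9, 3], .l [7, 3, 9, 2, 14]]),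
([p 5 0, g, s 0 1, s 3 2, g, s 2 0, g, p 0 3, s 0 4, g, m 4 0, g, p 0 5, m 1 0, g], .lo 8, [.l [0, 7, 3], .l [1, 14, 12, 7, 3, 8, 1, 10, 6, 1], .l [2, 9, 3], .l [1, 14, 12, 7, 3], .l [7, 3, 13, 6, 13, 4, 10, 7], .l [5, 9, 6], .l [4, 14, 9, 4, 10], .l [5, 1, 11, 6, 11, 2, 8, 7], .l [5, 1, 13, 8, 13, 2, 8, 9], .l [7, 9, 4], .l [6, 14, 7, 2, 8], .l [5, 1, 13, 8, 13, 2, 10, 1], .l [10, 1, 11, 9, 3], .l [7, 3, 13, 6, 1], .y [8, 10], .l [5, 1, 13, 8, 13, 2, 10, 3], .l [10, 1, 11, 9, 3], .l [7, 3, 13, 6, 3], .l [7, 3, 11, 4, 10], .l [5, 1, 11, 6, 11, 2, 8, 9], .l [10, 1, 14, 12, 3], .l [7, 3, 11, 4, 12]]),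
([p 4 0, g, s 0 1, s 3 2, g, s 2 0, g, p 0 3, s 0 0, g, p 6 4, m 1 5, g, m 5 0, g, s 0 6, g], .hi 8, [.l [5, 12, 6, 12, 1, 7, 3, 10, 4, 1], .l [1, 12, 10, 7, 3], .l [2, 9, 3], .l [7, 3, 9, 2, 3, 8, 4, 1], .l [3, 12, 8, 12, 1, 7, 11, 4, 8, 5], .l [4, 12, 7, 4, 8], .l [5, 9, 6], .l [3, 12, 8, 12, 1, 9, 11, 2, 6, 7], .l [6, 12, 5, 2, 6], .l [7, 9, 4], .l [6, 10, 3, 0, 4], .y [8], .l [3, 12, 8, 12, 1, 7, 1, 10, 4, 1], .l [7, 3, 11, 4, 1], .r 3159 [1, 2, 3, 7, 4] [1, 1, 1, 1, 1, 5], .l [8, 12, 14, 12, 1], .l [7, 3, 9, 2, 10], .l [3, 10, 6, 10, 1, 7, 11, 4, 8, 5], .l [3, 10, 6, 10, 1, 7, 9, 2, 6, 7], .l [7, 3, 9, 2, 12], .l [9, 11, 3, 6, 1, 9, 6, 0, 9, 3, 6, 3], .l [3, 10, 6, 10, 1, 5, 10, 10, 1, 8, 4, 1], .l [3, 10, 6, 10,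 1, 7, 9, 2, 6, 9], .l [7, 3, 9, 2, 14], .l [14, 17, 10, 3, 11, 4, 3, 10, 4, 1]]),
([p 4 0, g, s 0 1, s 3 2, g, s 2 0, g, p 0 3, g, p 6 4, m 1 5, g, m 5 0, g, s 0 6, g], .top 8, [.l [7, 3, 7, 0, 10], .r 3160 [1, 2, 3, 4, 5, 6] [1, 1, 1, 1, 1, 1, 1], .r 3158 [1, 2, 3, 4, 5, 6] [1, 1, 1, 1, 1, 1, 1], .r 3156 [1, 2, 3, 4, 5, 6] [1, 1, 1, 1, 1, 1, 1]]),
([p 3 0, g, s 0 1, s 2 0, g, p 0 2, g, p 5 3, m 1 4, g, m 4 0, s 0 0, g, s 0 5, g], .hi 3, [.l [10, 5, 6, 2, 11, 8, 1, 3, 7, 2], .l [2, 10, 5, 8, 10, 6, 7], .l [10, 5, 6], .c, .r 3161 [1, 6, 2, 3, 4, 5] [1, 1, 1, 1, 1, 2, 1], .l [10, 7, 1], .l [3, 9, 5, 9, 1, 4, 8, 4, 1], .y [3, 5], .r 3151 [1, 6, 2, 3, 4, 5] [1, 1, 1, 1, 1, 2, 1], .l [10, 7, 3], .l [3, 9, 5, 9, 1, 6, 8, 2,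 5], .l [3, 9, 11, 9, 3], .l [3, 9, 11, 9, 3], .l [6, 10, 6, 8, 1, 9, 5, 0, 9], .l [6, 8, 3, 4, 7, 5, 0, 6], .r 3154 [1, 6, 3, 4, 5] [1, 3, 1, 1, 1, 1], .l [8, 5, 11], .l [13, 9, 12, 8, 0, 5, 8], .r 3153 [1, 6, 3, 4, 5] [1, 3, 1, 1, 1], .r 3152 [1, 6, 3, 4, 5] [1, 3, 1, 1, 1, 1], .l [8, 5, 13], .l [15, 11, 14, 10, 0, 7, 10]]),
([p 2 0, g, s 0 1, s 5 0, g, p 4 2, m 1 3, g, m 3 0, s 0 0, g, s 0 4, g, s 0 5, g], .hi 9, [.l [0, 8, 3, 13, 6, 9, 6, 3], .l [0, 8, 3, 13, 6, 9, 6, 3], .l [2, 8, 3, 13, 8, 9, 4, 5], .l [0, 6, 3, 11, 6, 7, 4, 3], .l [0, 8, 5, 13, 6, 7, 4, 7], .l [4, 8, 9, 8, 2, 7, 2], .l [0, 8, 5, 13, 6, 7, 4, 7], .l [8, 10, 7], .l [7, 13, 10, 10, 5, 2, 8], .l [8, 10, 7], .y [9], .l [0, 6, 3, 13, 8, 9, 6, 1], .l [0,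 6, 3, 13, 8, 9, 6, 1], .r 3134 [1, 2, 3, 6, 4] [1, 1, 1, 1, 1, 3], .l [0, 6, 3, 11, 6, 7, 4, 1], .l [0, 6, 3, 13, 8, 9, 6, 3], .l [0, 6, 3, 13, 8, 9, 6, 3], .l [4, 6, 7, 6, 0, 7, 9, 7, 2, 7], .l [4, 6, 7, 6, 0, 7, 9, 7, 2, 5], .l [0, 6, 3, 11, 6, 7, 4, 9], .l [0, 6, 3, 11, 6, 7, 4, 9], .l [4, 6, 7, 6, 0, 7, 11, 9, 2, 5]]),
([p 2 0, g, s 0 1, s 0 0, g, p 4 2, m 1 3, g, m 3 0, s 0 0, g, s 0 4, g], .lo 3, [.l [6, 3, 4], .r 3131 [5, 1, 2, 3, 4] [1, 1, 1, 1, 2, 1], .l [8, 3, 4], .l [2, 8, 3, 6, 8, 4, 5], .y [3], .r 3126 [1, 5, 2, 3, 4] [1, 1, 1, 1, 2, 1], .r 3162 [1, 5, 2, 3, 4] [1, 1, 1, 1, 1, 1], .l [8, 5, 1], .l [3, 7, 9, 7, 1], .r 3130 [1, 2, 3, 5, 4] [1, 1, 1, 1, 2, 1], .l [3, 7, 9, 7, 1], .l [3, 7, 7, 5, 1], .l [4, 6,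 3, 4, 5, 3, 0, 4], .r 3150 [1, 2, 3, 5, 4] [1, 1, 1, 1, 1, 1], .r 3132 [1, 2, 3, 5, 4] [1, 1, 1, 2, 1, 1], .l [6, 3, 9], .r 3163 [1, 2, 3, 4, 5] [1, 1, 1, 1, 1, 1], .r 3147 [1, 2, 3, 4, 5] [1, 1, 1, 2, 1, 1], .l [6, 3, 11]]),
([p 2 0, g, s 0 1, g, p 4 2, m 1 3, g, m 3 0, s 0 0, g, s 0 4, g], .top 3, [.l [4, 1, 7], .r 3164 [1, 2, 3, 4] [1, 1, 1, 1, 1], .r 3146 [1, 2, 4] [1, 1, 4, 1], .r 3115 [1, 2, 4] [1, 1, 4, 1]]),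
([p 2 0, g, s 0 1, g, p 4 2, m 1 3, g, m 3 0, g, s 0 4, g], .top 8, [.l [3, 5, 6, 5, 0, 4, 1], .r 3165 [1, 2, 3, 4] [1, 1, 1, 1, 1], .r 3114 [1, 2, 3, 4] [1, 1, 1, 1, 1], .r 3108 [1, 2, 3, 4] [1, 1, 1, 1, 1]]),
([p 2 0, g, s 0 1, g, p 3 2, m 1 0, g, s 0 3, g], .hi 5, [.l [2, 6, 3], .l [1, 6, 4, 5], .l [2, 6], .y [2, 5], .l [4, 6, 1], .l [3, 6, 2, 5], .l [4, 6], .l [5, 2, 4, 2, 3], .l [5, 2, 4, 2, 3], .r 3166 [1, 2, 4, 3] [1, 1, 1, 1, 1], .l [5, 2, 4, 2, 3], .l [5, 2, 4, 2, 5], .l [5, 2, 4, 2, 5], .r 3144 [1, 2, 4, 3] [1, 1, 1, 1, 1]]),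
([p 2 0, g, s 0 1, g, p 0 2, m 1 0, g], .lo 4, [.y [0, 4], .r 2895 [3, 1, 2] [1, 1, 1, 1], .l [2, 5], .l [1, 6, 4, 3], .r 2863 [1, 3, 2] [1, 1, 1, 1], .l [4, 5], .l [3, 6, 2, 1], .l [3, 4, 0, 3], .r 3167 [1, 2, 3] [1, 1, 1, 1], .r 3101 [1, 2, 3] [1, 1, 1, 1], .l [3, 4, 0, 5]]),
([p 4 0, g, p 1 0, g, s 3 1, g, m 0 2, g, s 2 3, p 0 4, m 0 5, g, m 5 0, g], .lo 10, [.l [10, 9], .r 3168 [6, 4] [1, 8, 3], .l [12, 9], .l [10, 3, 11, 3, 9, 1, 3, 1, 7, 3, 0], .l [10, 7], .r 3168 [6, 4] [3, 6, 3], .l [12, 7], .l [10, 3, 11, 5, 1, 5, 9, 7, 0], .r 3168 [6, 4] [5, 4, 3], .l [12, 5], .l [4, 9, 11, 7, 5, 8, 10, 8, 1], .r 3168 [6, 4] [7, 2, 3], .l [12, 3], .l [10, 5, 7, 1, 9, 5, 1, 5, 7, 5, 0], .l [1, 12, 1, 12, 10, 7, 1], .l [12, 1],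 .l [10, 11], .y [10, 12], .l [14, 3, 7, 1, 11, 8, 1], .l [14, 3], .l [10, 13]]),
([p 5 0, g, s 1 0, g, s 4 1, s 0 2, g, m 0 3, g, s 3 4, p 2 5, g], .lo 5, [.y [0, 5, 10], .l [1, 12, 10, 4, 1, 3, 6, 3], .l [2, 6, 1, 5, 8, 3], .l [1, 12, 10, 4, 1, 3, 6, 3], .l [1, 10, 8, 2, 1, 1, 4, 3], .l [4, 6, 3, 5, 8, 5], .l [4, 6, 3, 5, 8, 5], .l [7, 11, 9, 1, 8, 5], .l [4, 1, 4, 9, 5, 8, 0, 5], .l [5, 11, 9, 5, 8, 3], .l [11, 6, 1, 7, 1, 3, 1, 6, 0, 1], .l [8, 12, 3, 7, 1, 6, 2, 5], .l [5, 11, 9, 7, 8, 1], .l [8, 12, 3, 7, 1, 6, 2, 5], .l [9, 4, 10, 8, 1, 6, 0, 5], .l [3, 10, 6, 4, 9, 5, 2, 4, 2, 3], .l [9, 4, 10, 8, 1, 6, 0, 5]]),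
([p 4 0, g, s 3 0, s 0 1, g, m 0 2, g, s 2 3, p 1 4, m 0 5, g, m 5 0, g], .hi 2, [.r 3170 [6, 1, 2, 3, 4] [1, 1, 1, 1, 4], .r 3169 [6, 2, 3, 4, 5] [1, 1, 2, 1, 1, 1], .l [4, 1, 9, 5, 4], .c, .l [5, 2, 8, 5], .l [1, 10, 8, 6, 3, 4, 4, 1], .l [5, 2, 8], .y [2, 5, 7], .l [7, 4, 8, 3], .l [9, 10, 0, 2, 5], .l [7, 4, 8], .l [3, 7, 5, 7, 1, 3, 1, 6, 4, 1], .l [2, 10, 12, 10, 5], .l [2, 10, 12, 10, 5], .l [3, 7, 5, 9, 3, 5, 1, 8, 4, 1], .l [2, 12, 7, 1, 2, 7, 6, 7], .l [7, 8, 0, 2, 10], .l [13, 10, 4]]),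
([p 5 0, g, p 1 0, g, s 4 1, s 0 2, g, s 0 3, g, s 3 4, p 2 5, g], .lo 5, [.y [0, 5, 10], .l [3, 7, 10, 1, 9, 3, 1, 6, 4, 1], .l [7, 11, 1, 5, 8, 3], .l [3, 7, 10, 1, 3, 7, 4, 6, 4, 1], .l [2, 4, 3], .l [4, 6, 3, 5, 8, 1], .l [4, 6, 3], .l [3, 12, 8, 2, 8], .l [11, 6, 1, 7, 1, 8, 0, 1], .l [5, 11, 9, 10, 6, 1, 4, 5], .l [5, 11, 1, 3, 8, 5], .l [11, 6, 3, 7, 1, 8, 0, 3], .l [5, 11, 9, 10, 6, 3, 4, 5], .l [11, 6, 3, 7, 1, 8, 0, 3], .l [1, 5, 8, 1, 7, 3, 1, 4, 2, 3], .l [3, 10, 6, 4, 9, 5, 2, 4, 2, 3], .l [1, 5, 8, 1, 7, 3, 1, 4, 2, 3]]),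
([p 4 0, g, p 1 0, g, s 0 1, s 0 2, g, s 0 3, g, s 3 0, p 2 4, g], .lo 4, [.l [1, 10, 8, 1, 7, 5, 4], .l [6, 3, 11, 5, 4, 1], .l [3, 12, 8, 1, 9, 7, 4], .l [5, 12, 6, 9, 1, 7, 4], .y [2, 4], .l [5, 12, 6, 9, 1, 7, 4, 1], .l [6, 1, 11, 5, 4], .l [5, 12, 6, 9, 1, 7, 4], .l [11, 1, 11, 0, 4, 5], .l [1, 12, 10, 1, 4, 2, 6], .l [11, 1, 11, 0, 4, 5], .l [9, 4, 10, 7, 3, 1], .l [1, 12, 10, 1, 6, 4, 6], .l [11, 12, 0, 4, 7], .r 3172 [1, 2, 3, 5, 4] [1, 1, 1, 1, 1], .l [3, 10, 6, 9, 1, 7, 4, 1], .l [1, 10, 8, 1, 9, 7, 4], .l [3, 10, 6, 9, 1, 7, 4]]),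
([p 3 0, g, s 0 0, s 0 1, g, s 0 2, g, s 2 0, p 1 3, g], .hi 2, [.l [4, 1, 9, 5, 4, 1], .r 3173 [4, 1, 2, 3] [1, 1, 1, 1, 1], .l [4, 1, 9, 5, 4], .y [2], .c, .l [9, 1, 9, 0, 2, 3], .l [9, 1, 9, 0, 2, 3], .l [5, 2, 8], .l [7, 1, 7, 0, 2, 3], .l [7, 4, 8, 5, 7, 3], .l [9, 10, 0, 2, 5], .l [7, 4, 8], .l [7, 1, 7, 0, 2, 5], .l [7, 1, 7, 0, 2, 5], .l [10, 7, 4]]),
([p 5 0, g, p 2 0, g, s 0 1, g, s 4 2, s 0 3, g, s 1 4, p 3 5, m 0 6, g, m 6 0, g], .lo 11, [.l [11, 10], .l [3, 13, 4, 2, 5, 12, 9, 4, 8, 1], .l [13, 10], .l [5, 13, 9, 5, 6, 4, 4, 7, 9, 7, 2, 3], .l [11, 8], .l [11, 2, 12, 5, 1, 7, 11, 7, 0, 3], .l [13, 8], .l [11, 2, 12, 5, 1, 7, 11, 7, 0], .l [11, 2, 12, 7, 3, 7, 11, 9, 0, 5], .l [13, 6], .l [11, 2, 12, 7, 3,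 7, 11, 9, 0], .l [7, 11, 9, 11, 3, 1, 6, 10, 6, 7], .l [13, 3], .l [7, 11, 7, 1, 7, 9, 5, 3, 6, 8, 6, 1], .l [1, 13, 1, 13, 11, 8, 3], .l [13, 1], .l [11, 12], .y [11, 13], .l [9, 2, 8, 13, 3, 10, 3, 10, 4, 1], .l [15, 3], .l [11, 14]]),
([p 4 0, g, s 0 1, g, s 3 0, s 0 2, g, s 1 3, p 2 4, m 0 5, g, m 5 0, g], .hi 4, [.l [6, 3, 9, 3, 2, 5], .r 3175 [1, 6, 2, 3, 4, 5] [1, 1, 1, 1, 1, 1], .l [6, 3, 9, 3, 2], .y [2, 7, 4], .l [6, 1, 9, 3, 2, 3], .l [5, 10, 4, 2, 5, 2, 2, 3], .l [6, 1, 9, 3, 2], .c, .l [7, 2, 8, 3, 7, 5], .l [3, 10, 6, 4, 1, 2, 2, 3], .l [7, 2, 8], .l [6, 8, 1, 4, 7, 2, 2, 3], .l [4, 10, 12, 10, 3], .l [4, 10, 12, 10, 3], .l [6, 8, 1, 4, 9, 4, 4, 5], .l [3, 8, 4, 2, 5, 2, 2, 7], .l [7, 8, 0, 4, 10], .l [6,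 8, 1, 4, 11, 6, 6, 7]]),
([p 3 0, g, s 2 0, s 0 1, g, s 0 2, p 1 3, m 0 4, g, m 4 0, g], .lo 5, [.l [5, 4, 5, 0, 1], .r 3176 [5, 1, 2, 3, 4] [1, 1, 1, 1, 1], .l [7, 4, 7, 0, 3], .l [4, 8, 3, 2, 3], .y [2, 5], .r 3174 [1, 5, 3] [1, 1, 1, 4], .l [2, 8, 5, 4, 1], .r 3171 [1, 5, 2, 3, 4] [1, 1, 1, 1, 1], .l [2, 6, 3, 2, 6, 8, 6, 3], .l [2, 4, 8, 3, 5, 4], .l [2, 4, 4, 7, 9, 7, 2], .l [2, 4, 4, 7, 7, 5, 2], .l [2, 4, 10, 5, 7, 6], .l [2, 4, 10, 5, 7, 6], .l [2, 6, 3, 2, 8]]),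
([p 2 0, g, s 0 0, s 0 1, g, s 0 0, p 1 2, m 0 3, g, m 3 0, g], .hi 5, [.r 3097 [1, 4, 2, 3] [1, 1, 1, 1, 1], .l [4, 8, 3, 2, 3], .l [7, 4, 7, 0, 3], .r 3177 [1, 4, 2, 3] [1, 1, 1, 1], .l [2, 6, 3, 2, 1], .r 3087 [1, 4, 2] [1, 1, 1, 4], .r 2428 [4, 2] [4, 1, 4], .l [2, 8, 5, 4, 1], .y [5], .l [7, 1, 2], .l [5, 8, 10, 8, 0], .l [2, 6, 3, 2, 6], .l [9, 3, 4], .r 3100 [1, 4, 2, 3] [1, 1, 1, 1, 1], .l [2, 6, 3, 2, 8], .l [11, 5, 6]]),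
([p 2 0, g, s 0 0, s 0 1, g, p 1 2, m 0 3, g, m 3 0, g], .bot 4, [.c, .r 3178 [1, 2, 3] [1, 1, 1, 1], .r 1201 [2] [4, 4], .r 2849 [2] [4, 4]]),
([p 2 0, g, s 0 1, g, p 1 2, m 0 3, g, m 3 0, g], .bot 1, [.r 454 [1] [1, 4], .r 3179 [1, 2, 3] [1, 1, 1, 1], .r 3084 [1, 2, 3] [1, 1, 1, 1], .r 3070 [1, 2, 3] [1, 1, 1, 1]]),
([p 2 0, g, s 6 0, m 0 1, g, p 0 2, m 1 3, g, s 4 0, g, s 5 0, m 3 4, g, s 0 5, g, s 0 6, g], .lo 5, [.y [0, 5], .l [12, 10, 4, 5, 3, 13, 8, 4, 8, 3], .l [2, 6], .l [1, 7, 5, 4], .l [1, 5, 3, 13, 10, 11, 8], .r 3180 [7, 2, 3] [4, 1, 4, 5], .l [5, 6], .l [2, 16, 11, 1, 1, 11, 8], .l [2, 16, 11, 2, 7, 5, 9, 3], .l [2, 16, 11, 0, 12, 10, 1, 9, 3], .l [2, 16, 11, 2, 7, 5, 9], .l [8, 10, 11, 4, 2, 2, 0, 2, 1,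 4, 2, 5], .l [2, 16, 11, 4, 7, 3, 9, 5], .l [8, 12, 13, 11, 6, 7, 5, 10], .l [2, 16, 11, 4, 7, 3, 9], .l [7, 11, 9, 9, 6, 8, 5, 2, 3], .l [2, 16, 11, 7, 9, 6, 7, 3, 7, 3], .l [7, 13, 10, 11, 9, 12, 3, 5, 1, 7, 2, 3], .l [4, 5, 0, 11], .l [2, 16, 6, 2, 9, 4, 7, 3, 7, 3], .l [7, 15, 12, 13, 11, 12, 1, 5, 3, 7, 2, 3], .l [4, 5, 0, 13], .l [10, 5, 16, 13, 7, 13, 5], .l [8, 10, 11, 15, 10, 11, 9, 5], .l [4, 5, 0, 15]]),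
([p 2 0, g, m 5 1, g, p 0 2, m 1 3, g, s 4 0, g, m 3 4, g, s 0 5, g], .lo 4, [.y [0, 4], .l [13, 8, 8, 5, 8, 1, 8, 6, 1], .l [2, 5], .l [1, 6, 4, 3], .l [13, 10, 10, 5, 8, 1, 8, 6, 1], .l [4, 5], .l [3, 6, 2, 1], .l [2, 12, 8, 2, 6, 4, 5], .r 3038 [2, 3, 6] [3, 1, 3, 3], .l [2, 12, 8, 2, 6, 4, 5], .l [2, 10, 1, 1, 4, 2, 2, 0, 1], .l [2, 12, 8, 4, 6, 2, 5], .l [13, 10, 4, 6, 8, 3, 6, 1, 6, 4, 1], .l [2, 12, 8, 4, 6, 2, 5], .l [8, 4, 9, 6, 4, 6, 1], .l [13, 10, 10, 7, 8, 2, 6, 1, 6, 2, 3], .l [3, 4, 0, 9], .l [8, 4, 11, 8, 4, 8, 3], .l [8, 13, 8, 9, 7, 7, 2, 7, 2, 4, 1], .l [3, 4, 0, 11]]),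
([p 3 0, g, m 0 1, g, s 7 0, m 1 2, g, p 0 3, m 2 4, g, s 6 0, g, m 0 5, g, s 5 0, m 4 6, g, s 0 7, g], .lo 12, [.l [12, 11], .l [14, 11, 13, 6, 8, 7, 13, 5, 5, 2, 8, 6, 7], .l [14, 11], .l [7, 14, 8, 4, 11, 15, 1, 8, 4, 10, 3, 8, 1], .l [14, 9, 11, 8, 11, 9, 6, 5, 11, 5, 7, 2, 7], .l [14, 9], .l [11, 14, 6, 9, 7, 9, 7, 11, 11, 8, 8, 4, 9], .l [3, 5, 3, 5, 3, 13, 4, 1, 6, 3, 4, 7, 5], .l [14, 6, 8, 5, 15, 9, 9, 4, 8, 6, 8, 6, 7], .l [14, 6], .l [11, 17, 15, 15, 10, 15, 3, 6, 2, 9, 6, 4, 6], .l [14, 3, 16, 10, 10, 7, 7, 4, 8, 6, 8, 6, 7], .l [14, 3], .l [11, 17, 13, 13, 10, 15, 1, 6, 4, 7, 4, 4, 7], .l [12, 1, 1, 12, 11], .l [14, 1, 3, 14, 11, 13, 11, 11, 8, 11], .l [14, 1], .l [13, 17, 11, 11, 8, 15, 1, 8, 4, 7, 3, 4,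 6], .l [14, 1, 16, 10, 10, 7, 14, 1, 6, 3], .l [14, 1], .l [12, 13], .y [12, 14], .l [11, 15, 11, 11, 8, 15, 1, 8, 2, 9, 4, 7, 4, 1], .l [17, 4], .l [12, 16], .l [11, 15, 11, 11, 8, 16, 10, 2, 11, 6, 9, 4, 1], .l [19, 6], .l [12, 18]]),
([p 2 0, g, s 6 0, m 0 1, g, p 0 2, m 1 3, g, s 5 0, g, m 0 4, g, s 4 0, m 3 5, g, s 0 6, g], .lo 3, [.l [3, 2], .l [5, 2, 11, 13, 8, 1, 7, 3, 10, 1, 6, 3], .l [5, 2], .r 3183 [7, 1, 2, 3, 4, 5, 6] [1, 1, 1, 1, 1, 1, 1, 1], .l [3, 0, 6, 12, 10, 1, 9, 5, 4], .r 3039 [1, 7, 2, 3] [2, 1, 1, 6, 3], .l [5, 1], .l [3, 4], .l [3, 7, 14, 12, 1], .l [8, 4], .l [3, 7], .y [3, 6, 13, 8], .l [3, 9, 14, 10, 1], .l [10, 6], .l [3, 9], .l [3, 11, 14, 8, 1], .l [12, 8], .l [3, 11], .l [3, 11, 11, 9, 11,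 7, 1], .l [8, 12, 7, 13, 8, 1, 4, 9, 10, 6, 4, 5], .l [15, 11], .l [3, 14], .r 3182 [1, 2, 3, 5, 7] [2, 1, 1, 4, 3, 1], .l [17, 13], .l [3, 16]]),
([p 2 0, g, s 5 0, m 0 1, g, p 0 2, m 1 3, g, s 4 0, g, s 0 0, m 3 4, g, s 0 5, g], .lo 10, [.l [0, 9, 10, 6, 4], .l [2, 11, 12, 8, 4], .l [2, 11, 12, 8, 4], .l [9, 13, 11, 11, 8, 10, 5, 2, 5], .l [2, 9, 10, 6, 2], .l [5, 11, 12, 8, 1], .l [5, 11, 12, 8, 1], .l [9, 13, 11, 11, 6, 10, 7, 2, 3], .l [10, 12, 9, 11, 9, 9, 6, 9], .l [12, 3, 12, 6, 6, 3, 5, 2, 7], .l [9, 13, 9, 9, 6, 8, 5, 2, 7], .l [7, 11, 9, 9, 6, 8, 5, 2, 1], .l [12, 1, 9, 12, 6, 4, 6, 1], .l [7, 13, 11, 11, 8, 10, 7, 4, 1], .r 3184 [1, 2, 3, 6, 4, 5] [1, 1, 1, 1, 1, 1, 1], .y [10], .r 3181 [1, 2, 3, 4, 6, 5] [1,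 1, 1, 1, 1, 1, 1], .l [13, 2, 3], .l [7, 11, 9, 9, 6, 8, 5, 2, 7], .l [5, 6, 3, 11, 4, 2, 10, 6, 2, 5], .l [15, 4, 5], .l [7, 11, 9, 9, 6, 8, 5, 2, 9]]),
([p 2 0, g, s 5 0, m 0 1, g, p 0 2, m 1 3, g, s 4 0, g, m 3 4, g, s 0 5, g], .bot 9, [.c, .r 3185 [1, 2, 3, 4, 5] [1, 1, 1, 1, 1, 1], .r 3053 [1, 2, 3, 4] [2, 1, 1, 1, 3], .r 3050 [1, 2, 3, 4] [2, 1, 1, 1, 3]]),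
([p 3 0, g, s 6 1, m 0 2, g, p 0 3, m 2 4, g, s 5 0, g, m 4 5, g, s 1 0, g, p 0 6, g], .lo 5, [.y [0, 5], .l [6, 16, 13, 5, 12, 1, 5, 1, 1, 7, 0, 1], .l [2, 6], .l [1, 7, 5, 4], .l [4, 16, 13, 5, 12, 1, 5, 1, 1, 7, 2, 1], .l [5, 6], .l [2, 13, 8, 1, 1, 8, 5], .l [2, 13, 8, 2, 6, 4, 6, 1], .l [2, 13, 8, 0, 9, 7, 1, 6, 1], .l [2, 13, 8, 2, 6, 4, 6], .l [2, 11, 1, 1, 4, 2, 2, 0, 2, 1], .l [2, 13, 8, 4, 6, 2, 6, 3], .l [2, 13, 8, 0, 9, 7, 3, 6, 1], .l [2, 13, 8, 4, 6, 2, 6], .l [4, 16, 13, 3, 12, 1, 7, 1, 1, 7, 0, 3], .l [7, 10, 8, 10, 9, 9, 4, 1, 10, 4, 7], .l [4, 5, 0, 10], .l [3, 14, 12, 4, 11, 1, 1, 7, 5, 6, 1], .l [4, 16, 13, 3, 12, 3, 7, 1, 1, 7, 0, 1], .l [3, 16, 14, 4, 13, 3, 1, 9, 5, 8, 3], .l [1, 5, 3, 10, 7, 10,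 12, 10, 5], .l [4, 14, 11, 3, 10, 1, 5, 1, 1, 5, 0, 5], .l [7, 10, 8, 14, 13, 13, 8, 1, 1, 8, 3], .l [4, 5, 0, 14]]),
([p 2 0, g, s 5 0, m 0 1, g, p 0 2, m 1 3, g, s 4 0, g, m 3 4, g, p 0 5, g], .hi 2, [.l [5, 14, 12, 6, 11, 5, 3, 8, 1], .l [9, 12, 10, 12, 8, 11, 7, 1, 1, 2, 5], .l [9, 12, 10, 10, 7, 1, 8, 4, 1], .l [3, 0, 6, 9, 7, 1, 6, 2, 1], .l [5, 8, 5, 6, 10, 8, 1], .l [5, 8, 5, 6, 10, 8, 1], .l [5, 2, 8, 11, 9, 1, 8, 2, 1], .l [3, 12, 10, 4, 9, 7, 5, 6, 1], .l [2, 7, 11, 9, 2], .l [2, 7, 11, 9, 2], .l [8, 5, 13, 7, 1, 8, 3], .l [2, 9, 11, 7, 2], .l [2, 9, 11, 7, 2], .l [10, 7, 13, 5, 1, 8, 5], .r 3187 [6, 1, 2, 3, 4, 5] [1, 1, 1, 1, 1, 1, 1], .l [9, 7, 10, 4, 2, 4, 1], .l [7, 10, 8, 10, 6, 9, 7, 1, 8, 4, 5], .y [2,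 12], .l [3, 12, 10, 4, 9, 10, 8, 6, 1], .l [3, 12, 10, 4, 9, 10, 8, 6, 1], .l [7, 10, 8, 10, 6, 9, 7, 1, 8, 4, 5]]),
([p 2 0, g, s 0 0, m 0 1, g, p 0 2, m 1 3, g, s 4 0, g, m 3 4, g], .lo 2, [.l [7, 10, 8, 8, 5, 1, 6, 4, 1], .r 3056 [5, 1, 2, 3, 4] [1, 1, 1, 1, 1, 1], .l [9, 12, 10, 10, 7, 1, 8, 4, 1], .r 2584 [5, 1, 2, 3, 4] [1, 1, 1, 1, 1, 1], .y [2], .l [5, 8, 5, 6, 10, 8, 1], .l [5, 2, 8, 11, 9, 1, 8, 2, 1], .l [5, 8, 5, 6, 10, 8, 1], .l [2, 7, 11, 9, 2], .r 3047 [1, 2, 3, 5] [1, 1, 1, 3, 1], .l [2, 7, 11, 9, 2], .l [2, 7, 7, 7, 7, 5, 2], .l [2, 9, 11, 7, 2], .r 3047 [1, 2, 3, 5] [1, 1, 3, 1, 1], .l [2, 9, 11, 7, 2], .r 3186 [1, 2, 3, 4, 5] [1, 1, 1, 1, 1, 1], .r 3188 [1, 2, 3, 4, 5] [1, 1, 1, 1, 1, 1], .l [9, 7, 10,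 4, 2, 4, 1]]),
([p 3 0, g, p 0 1, g, s 1 0, m 0 2, g, p 0 3, m 2 4, g, m 4 5, g, m 5 6, g, m 6 7, g, m 7 8, g, m 8 0, g], .lo 5, [.l [5, 4], .l [7, 4, 8, 1, 8, 4, 1], .l [7, 4], .l [18, 20, 19, 19, 17, 17, 15, 15, 13, 13, 11, 11, 8, 1, 7, 3, 7, 5], .l [7, 2, 8, 1, 8, 2, 3], .l [7, 2], .l [16, 18, 17, 17, 15, 15, 13, 13, 11, 11, 8, 3, 9, 3, 7, 5, 7, 1], .l [14, 16, 15, 15, 13, 13, 11, 11, 9, 9, 6, 1, 7, 3, 5, 3, 5, 1], .l [7, 1, 9, 7, 1], .l [7, 1], .l [5, 6], .l [5, 9, 11, 9, 1], .l [10, 4], .l [5, 9], .l [5, 11, 13, 11, 11, 9, 1], .l [12, 6], .l [5, 11], .l [5, 13, 15, 13, 13, 11, 11, 9, 1], .l [14, 8], .l [5, 13], .l [5, 15, 17, 15, 15, 13, 13, 11, 11, 9, 1], .l [16, 10], .l [5, 15], .l [5, 17, 19, 17, 17, 15, 15, 13,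 13, 11, 11, 9, 1], .l [18, 12], .l [5, 17], .y [5, 8, 10, 12, 14, 16, 18], .l [4, 1, 19, 14, 1, 14, 11], .l [20, 14], .l [5, 19]]),
([p 3 0, g, p 0 1, g, s 1 0, m 0 2, g, p 0 3, m 2 4, g, m 4 5, g, m 5 6, g, m 6 7, g, m 7 0, g], .hi 16, [.l [1, 9, 7, 16, 16, 14, 14, 12, 12, 10, 10, 8, 8, 4, 1], .l [1, 9, 7, 16], .l [2, 17], .l [1, 7, 5, 14], .l [4, 17, 17, 15, 15, 13, 13, 11, 11, 9, 4], .l [3, 9, 5, 16], .l [4, 17], .y [5, 8, 10, 12, 14, 16], .l [6, 9, 2, 16, 16, 14, 14, 12, 12, 10, 10, 8, 8, 6, 1], .l [6, 9, 2, 16], .l [7, 17], .l [6, 7, 0, 14], .l [9, 12, 10, 10, 7, 1, 8, 4, 11], .l [9, 12, 10, 10, 7, 1, 8, 4, 11], .l [10, 17], .l [11, 14, 12, 12, 10, 10, 7, 1, 8, 4, 9], .l [11, 14, 12, 12, 10, 10, 7, 1, 8, 4, 9], .l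 [12, 17], .l [13, 16, 14, 14, 12, 12, 10, 10, 7, 1, 8, 4, 7], .l [13, 16, 14, 14, 12, 12, 10, 10, 7, 1, 8, 4, 7], .l [14, 17], .l [15, 18, 16, 16, 14, 14, 12, 12, 10, 10, 7, 1, 8, 4, 1], .l [15, 18, 16, 16, 14, 14, 12, 12, 10, 10, 7, 1, 8, 4, 1], .l [16, 17], .l [15, 16, 14, 14, 12, 12, 10, 10, 8, 8, 5, 1, 6, 2, 5], .l [15, 16, 14, 14, 12, 12, 10, 10, 8, 8, 5, 1, 6, 2, 5], .r 3190 [1, 2, 3, 4, 5, 6, 7, 8] [1, 1, 1, 1, 1, 1, 1, 1, 1]]),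
([p 3 0, g, p 0 1, g, s 1 0, m 0 2, g, p 0 3, m 2 4, g, m 4 5, g, m 5 6, g, m 6 0, g], .hi 14, [.l [1, 9, 7, 14, 14, 12, 12, 10, 10, 8, 8, 4, 1], .l [1, 9, 7, 14], .l [2, 15], .l [1, 7, 5, 12], .l [4, 15, 15, 13, 13, 11, 11, 9, 4], .l [3, 9, 5, 14], .l [4, 15], .y [5, 8, 10, 12, 14], .l [6, 9, 2, 14, 14, 12, 12, 10, 10, 8, 8, 6, 1], .l [6, 9, 2, 14], .l [7, 15], .l [6, 7, 0, 12], .l [9, 12, 10, 10, 7, 1, 8, 4, 9], .l [9, 12, 10, 10, 7, 1, 8, 4, 9], .l [10, 15], .l [11, 14, 12, 12, 10, 10, 7, 1, 8, 4, 7], .l [11, 14, 12, 12, 10, 10, 7, 1, 8, 4, 7], .l [12, 15], .l [13, 16, 14, 14, 12, 12, 10, 10, 7, 1, 8, 4, 1], .l [13, 16, 14, 14, 12, 12, 10, 10, 7, 1, 8, 4, 1], .l [14, 15], .l [13, 14, 12, 12, 10, 10, 8, 8, 5, 1, 6, 2,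 5], .l [13, 14, 12, 12, 10, 10, 8, 8, 5, 1, 6, 2, 5], .r 3191 [1, 2, 3, 4, 5, 6, 7] [1, 1, 1, 1, 1, 1, 1, 1]]),
([p 3 0, g, p 0 1, g, s 1 0, m 0 2, g, p 0 3, m 2 4, g, m 4 5, g, m 5 0, g], .hi 12, [.l [1, 9, 7, 12, 12, 10, 10, 8, 8, 4, 1], .l [1, 9, 7, 12], .l [2, 13], .l [1, 7, 5, 10], .l [4, 13, 13, 11, 11, 9, 4], .l [3, 9, 5, 12], .l [4, 13], .y [5, 8, 10, 12], .l [6, 9, 2, 12, 12, 10, 10, 8, 8, 6, 1], .l [6, 9, 2, 12], .l [7, 13], .l [6, 7, 0, 10], .l [9, 12, 10, 10, 7, 1, 8, 4, 7], .l [9, 12, 10, 10, 7, 1, 8, 4, 7], .l [10, 13], .l [11, 14, 12, 12, 10, 10, 7, 1, 8, 4, 1], .l [11, 14, 12, 12, 10, 10, 7, 1, 8, 4, 1], .l [12, 13], .l [11, 12, 10, 10, 8, 8, 5, 1, 6, 2, 5], .l [11, 12, 10, 10, 8, 8, 5, 1, 6, 2, 5], .r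 3192 [1, 2, 3, 4, 5, 6] [1, 1, 1, 1, 1, 1, 1]]),
([p 3 0, s 0 0, g, p 1 0, g, s 6 1, m 0 2, g, p 0 3, m 2 4, g, m 4 5, g, m 5 0, g, p 0 6, g], .hi 0, [.c, .l [3, 2, 10, 16, 11, 7, 13, 8, 3, 10, 10, 4, 1], .l [0, 2], .l [3, 2], .l [0, 4, 7, 15, 13, 7, 12, 8, 4, 9, 6], .l [0, 4], .l [5, 4], .l [6, 5], .l [0, 7, 16, 13, 4, 6, 12, 8, 4, 9, 6], .l [0, 7], .l [8, 7], .y [0, 8], .l [0, 10, 12, 10, 7], .l [0, 10], .l [11, 10], .l [0, 12, 14, 12, 12, 10, 7], .l [0, 12], .l [13, 12], .l [15, 14, 14, 6, 8, 7, 10, 1, 12, 10, 5], .l [0, 14], .l [15, 14], .l [0, 14], .l [4, 6, 16, 13, 5, 14, 10, 3, 11, 2, 3], .l [0, 16], .l [17, 16]]),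
([p 3 0, g, p 1 0, g, s 6 1, m 0 2, g, p 0 3, m 2 4, g, m 4 5, g, p 0 6, g, m 5 0, g], .hi 0, [.l [2, 1, 13, 7, 9, 1, 12, 8, 8, 6, 3], .l [0, 1], .l [2, 1], .l [4, 3, 13, 7, 2, 8, 12, 8, 10, 3, 8, 0, 5], .l [0, 3], .l [4, 3], .l [5, 4], .l [7, 6, 13, 9, 11, 1, 12, 8, 8, 6, 1], .l [0, 6], .l [7, 6], .y [0, 7], .l [0, 9, 11, 9, 6], .l [0, 9], .l [10, 9], .l [0, 11, 15, 13, 13, 11, 6], .l [0, 11], .l [12, 11], .l [0, 11], .l [0, 13, 15, 11, 11, 9, 6], .l [0, 13], .l [14, 13], .l [1, 10, 13, 12, 12, 10, 5, 1, 10, 5, 1, 6, 3], .l [0, 15], .l [16, 15]]),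
([p 3 0, g, s 2 0, m 0 1, g, p 0 2, g, p 0 3, m 1 4, g, m 4 5, g, m 5 6, g, m 6 0, g], .hi 14, [.l [2, 15, 15, 13, 13, 11, 11, 9, 6], .l [1, 9, 7, 14], .l [2, 15], .y [3, 8, 10, 12, 14], .l [4, 9, 4, 14, 14, 12, 12, 10, 10, 8, 8, 6, 3], .l [4, 9, 4, 14], .l [5, 15], .l [4, 7, 2, 12], .l [7, 15, 15, 13, 13, 11, 11, 9, 1], .l [6, 9, 2, 14], .l [7, 15], .l [6, 7, 0, 12], .l [5, 2, 8, 11, 9, 1, 8, 2, 9], .l [9, 12, 10, 10, 5, 9, 6, 11], .l [10, 15], .l [5, 2, 10, 13, 11, 11, 9, 1, 8, 2, 7], .l [11, 14, 12, 12, 10, 10, 5, 9, 6, 9], .l [12, 15], .l [5, 2, 12, 15, 13, 13, 11, 11, 9, 1, 8, 2, 1], .l [13, 16, 14, 14, 12, 12, 10, 10, 5, 9, 6, 1], .l [14, 15], .l [5, 2, 12, 13, 11, 11, 9, 9, 7, 1, 6, 0, 5], .l [13, 14, 12, 12, 10,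 10, 8, 8, 3, 7, 4, 7], .l [13, 1, 6, 13, 6, 2, 8, 11, 7, 4, 7]]),
([p 3 0, g, s 2 0, m 0 1, g, p 0 2, g, p 0 3, m 1 4, g, m 4 5, g, m 5 0, g], .hi 12, [.l [2, 13, 13, 11, 11, 9, 6], .l [1, 9, 7, 12], .l [2, 13], .y [3, 8, 10, 12], .l [4, 9, 4, 12, 12, 10, 10, 8, 8, 6, 3], .l [4, 9, 4, 12], .l [5, 13], .l [4, 7, 2, 10], .l [7, 13, 13, 11, 11, 9, 1], .l [6, 9, 2, 12], .l [7, 13], .l [6, 7, 0, 10], .l [5, 2, 8, 11, 9, 1, 8, 2, 7], .l [9, 12, 10, 10, 5, 9, 6, 9], .l [10, 13], .l [5, 2, 10, 13, 11, 11, 9, 1, 8, 2, 1], .l [11, 14, 12, 12, 10, 10, 5, 9, 6, 1], .l [12, 13], .l [5, 2, 10, 11, 9, 9, 7, 1, 6, 0, 5], .l [11, 12, 10, 10, 8, 8, 3, 7, 4, 7], .r 3196 [1, 2, 3, 4, 5, 6] [1, 1, 1, 1, 1, 1, 1]]),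
([p 3 0, s 0 0, g, p 1 0, g, s 0 1, m 0 2, g, p 0 3, m 2 4, g, m 4 5, g, m 5 0, g], .lo 5, [.r 2163 [6, 1, 3] [1, 1, 2, 6], .l [4, 8, 3, 3, 7, 4, 1], .l [6, 10, 3, 5, 9, 4, 1], .r 3193 [6, 2, 3, 4, 5] [2, 3, 1, 1, 1, 1], .l [6, 10, 3, 5, 9, 4, 1], .y [3, 5], .l [6, 10, 3, 7, 9, 2, 6], .r 3193 [6, 2, 3, 4, 5] [4, 1, 1, 1, 1, 1], .l [6, 10, 3, 7, 9, 2, 6], .l [4, 10, 5, 2, 9, 7, 4], .r 3197 [2, 6, 3, 4, 5] [4, 1, 1, 1, 1, 1], .l [4, 10, 5, 2, 9, 7, 4], .l [4, 8, 3, 9, 3, 7, 4], .r 3047 [2, 3, 4, 6] [4, 1, 1, 1, 3], .l [4, 8, 3, 9, 3, 7, 4], .l [4, 8, 3, 11, 5, 9, 6], .r 3195 [1, 2, 3, 4, 5, 6] [2, 1, 1, 1, 1, 1, 1], .l [4, 8, 3, 11, 5, 9, 6], .l [4, 8, 3, 11, 5, 9, 6], .l [4, 8, 3, 13, 7, 11, 8], .r 3194 [1, 2, 3, 4, 5,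 6] [1, 1, 1, 1, 1, 1, 1], .l [4, 8, 3, 13, 7, 11, 8]]),
([p 3 0, g, p 1 0, g, s 0 1, m 0 2, g, p 0 3, m 2 4, g, m 4 5, g, m 5 0, g], .top 1, [.r 334 [] [11], .r 3198 [1, 2, 3, 4, 5] [1, 1, 1, 1, 1, 1], .r 334 [] [13], .r 444 [] [13]])]

def d12_2 : List (List Item × Qry × List Rf) := [
([p 3 0, g, p 1 0, g, s 0 1, m 0 2, g, p 0 3, m 2 4, g, m 4 5, g, s 5 0, g], .lo 4, [.l [9, 10, 8, 8, 5, 3, 6, 2, 5], .l [5, 9, 3, 4, 8, 4, 1], .l [11, 12, 10, 10, 7, 3, 8, 2, 7], .l [5, 9, 3, 4, 8, 4, 1], .y [2, 4], .l [5, 9, 3, 6, 8, 2, 5], .l [11, 12, 10, 10, 7, 1, 8, 2, 7], .l [5, 9, 3, 6, 8, 2, 5], .l [3, 9, 5, 2, 8, 6, 3], .l [7, 2, 10, 11, 9, 1, 8, 0, 7], .l [3, 9, 5, 2, 8, 6, 3], .l [3, 7, 3, 8, 3, 6, 3], .l [11, 12, 8, 10, 6, 9,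 5, 8, 1, 4, 5], .l [3, 7, 3, 8, 3, 6, 3], .l [3, 7, 3, 10, 5, 8, 5], .l [9, 10, 8, 10, 6, 9, 5, 8, 1, 4, 5], .l [3, 7, 3, 10, 5, 8, 5], .l [3, 7, 3, 10, 5, 8, 5], .l [3, 7, 3, 12, 7, 10, 7], .l [11, 14, 6, 9, 5, 10, 3, 6, 3], .l [3, 7, 3, 12, 7, 10, 7]]),
([p 3 0, g, p 1 0, g, s 0 1, m 0 2, g, p 0 3, m 2 4, g, m 4 0, g], .hi 10, [.l [2, 11, 11, 9, 6], .l [1, 9, 7, 10], .l [2, 11], .l [3, 9, 5, 10, 10, 8, 8, 2, 5], .l [3, 9, 5, 10], .l [4, 11], .l [3, 7, 3, 8, 3, 6, 3], .y [5, 8, 10], .l [7, 11, 11, 9, 1], .l [6, 9, 2, 10], .l [7, 11], .l [6, 7, 0, 8], .r 3189 [2, 3, 4, 5] [3, 1, 1, 1, 1], .l [9, 12, 10, 10, 7, 9, 4, 1], .l [10, 11], .r 3200 [1, 2, 3, 4, 5] [1, 1, 1, 1, 1, 1], .l [9, 10, 8, 8, 5, 7, 2, 7], .r 3199 [1, 2,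 3, 4, 5] [1, 1, 1, 1, 1, 1]]),
([p 4 0, g, s 0 1, g, s 6 2, m 1 3, g, p 0 4, m 3 5, g, m 5 0, m 0 0, g, s 0 6, g, m 2 0, g], .hi 11, [.l [17, 10, 16, 13, 15, 14, 14, 12, 7], .l [1, 9, 7, 11], .l [2, 12], .l [5, 2, 6, 1, 6, 2, 2, 6, 5], .l [17, 10, 16, 13, 15, 14, 14, 12, 5], .l [3, 9, 5, 11], .l [4, 12], .l [17, 12, 16, 11, 15, 14, 14, 12, 9], .l [5, 2, 8, 3, 8, 2, 6, 8, 3], .l [7, 12], .l [5, 2, 6, 1, 6, 2, 4, 6, 3], .l [10, 12, 9], .l [8, 12, 11, 11, 8, 12, 6, 4, 5], .l [10, 12], .y [11], .l [17, 12, 16, 13, 15, 14, 14, 12, 1], .l [15, 10, 14, 11, 13, 12, 12, 10, 1], .l [5, 2, 7, 8, 7, 1, 13, 8, 2, 3, 2, 6, 1], .l [8, 10, 9, 9, 6, 10, 10, 8, 3], .l [17, 12, 16, 13, 15, 14, 14, 12, 3], .l [13, 8, 12, 9, 11, 10, 10, 8,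 9], .l [8, 10, 9, 9, 6, 10, 12, 10, 3], .l [15, 10, 14, 11, 13, 12, 12, 10, 11], .l [13, 8, 12, 9, 11, 10, 10, 8, 11], .l [8, 10, 9, 9, 6, 10, 14, 12, 3]]),
([p 4 0, g, s 0 1, g, s 7 2, m 1 3, g, p 0 4, m 3 5, g, m 5 0, s 0 6, g, m 6 0, g, s 0 7, g, m 2 0, g], .hi 10, [.l [2, 11, 11, 9, 6], .l [1, 9, 7, 10], .l [2, 11], .y [2, 5, 8, 10], .l [4, 11, 11, 9, 4], .l [3, 9, 5, 10], .l [4, 11], .l [7, 11, 11, 9, 1], .l [4, 16, 9, 4, 4, 2, 8], .l [7, 11], .l [4, 14, 7, 2, 2, 0, 6], .r 3189 [3, 4, 5, 8] [3, 1, 1, 1, 8], .l [9, 12, 10, 10, 7, 9, 4, 1], .l [10, 11], .l [9, 10, 8, 14, 10, 13, 9, 1, 3, 1, 10, 6, 7], .l [9, 19, 13, 16, 12, 2, 4, 2, 12, 12, 6, 1], .l [9, 10, 8, 8, 5, 7, 2, 9], .l [5, 2, 6, 1, 15, 10, 15, 4, 12, 12,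 10, 10, 7], .l [5, 2, 12, 1, 12, 9, 9, 7, 1, 6, 2, 7], .l [9, 10, 8, 8, 5, 7, 2, 11], .l [5, 2, 6, 1, 15, 10, 15, 4, 12, 12, 10, 10, 5], .l [4, 14, 14, 9, 9, 7, 2], .l [5, 2, 12, 1, 14, 11, 11, 9, 1, 8, 4, 1], .l [7, 8, 5, 13, 4, 13, 8, 2, 10], .l [4, 14, 16, 11, 11, 9, 2], .l [5, 2, 12, 1, 16, 13, 13, 11, 1, 10, 6, 1], .l [7, 8, 5, 13, 4, 15, 10, 2, 12], .l [4, 14, 18, 13, 13, 11, 2]]),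
([p 4 0, g, s 0 1, g, s 6 2, m 1 3, g, p 0 4, m 3 5, g, m 5 0, s 0 0, g, s 0 6, g, m 2 0, g], .hi 11, [.l [7, 2, 8, 1, 13, 6, 13, 6, 10, 10, 8, 5], .l [7, 2, 8, 1, 8, 2, 4, 8, 5], .l [17, 10, 16, 13, 15, 14, 14, 12, 7], .l [5, 2, 6, 1, 6, 2, 2, 6, 5], .l [7, 4, 8, 1, 13, 8, 13, 4, 8, 8, 6, 7], .l [7, 4, 8, 1, 13, 8, 13, 4, 8, 8, 6, 7], .l [17, 10, 16, 13, 15, 14, 14, 12, 5], .l [5, 2, 8, 3, 13, 6, 13, 6, 10, 10, 8, 3], .l [5, 2, 8, 3, 8, 2, 6, 8, 3], .l [17, 12, 16, 11, 15, 14, 14, 12, 9], .l [5, 2, 6, 1, 6, 2, 4, 6, 3], .l [10, 12, 9], .l [9, 17, 11, 14, 10, 2, 12], .l [10, 12, 9], .y [11], .l [5, 2, 6, 1, 13, 8, 13, 4, 10, 10, 8, 1], .l [17, 12, 16, 13, 15, 14, 14, 12, 1], .r 3203 [1, 2, 3, 4, 5, 7, 6] [1, 1, 1, 1, 1,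 1, 1, 1], .l [5, 2, 6, 1, 11, 6, 11, 4, 8, 8, 6, 1], .l [5, 2, 6, 1, 11, 6, 13, 6, 10, 10, 8, 3], .l [17, 12, 16, 13, 15, 14, 14, 12, 3], .l [5, 2, 6, 1, 11, 6, 13, 6, 10, 10, 8, 3], .l [5, 2, 6, 1, 11, 6, 11, 4, 8, 8, 6, 7], .l [15, 10, 14, 11, 13, 12, 12, 10, 11], .l [5, 2, 6, 1, 13, 8, 1, 7, 1, 10, 6, 1]]),
([p 4 0, g, s 0 1, g, s 6 2, m 1 3, g, p 0 4, m 3 5, g, m 5 0, p 0 0, g, s 0 6, g, m 2 0, g], .lo 11, [.l [0, 10], .l [17, 10, 16, 13, 15, 14, 14, 12, 7], .l [2, 12], .l [1, 9, 7, 11], .l [17, 10, 16, 13, 15, 14, 14, 12, 5], .l [4, 12], .l [3, 9, 5, 11], .l [17, 12, 16, 11, 15, 14, 14, 12, 9], .l [7, 12], .l [5, 2, 8, 3, 8, 2, 6, 8, 3], .l [10, 12, 9], .l [10, 12], .l [8, 12, 11, 11, 8, 12, 6, 4, 5], .l [8, 10, 9,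 9, 6, 10, 4, 2, 3], .y [11], .l [17, 12, 16, 13, 15, 14, 14, 12, 1], .l [5, 2, 7, 8, 7, 1, 13, 8, 2, 3, 2, 6, 1], .l [15, 10, 14, 11, 13, 12, 12, 10, 1], .l [17, 12, 16, 13, 15, 14, 14, 12, 3], .l [8, 10, 9, 9, 6, 10, 12, 10, 3], .l [13, 8, 12, 9, 11, 10, 10, 8, 9], .l [13, 8, 12, 9, 11, 10, 10, 8, 9], .l [15, 10, 14, 11, 13, 12, 12, 10, 11], .l [8, 10, 9, 9, 6, 10, 14, 12, 3], .l [13, 8, 12, 9, 11, 10, 10, 8, 11]]),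
([p 4 0, g, s 0 1, g, s 6 2, m 1 3, g, p 0 4, m 3 5, g, m 5 0, g, s 0 6, g, m 2 0, g], .top 11, [.l [8, 10, 9, 9, 6, 8, 3], .r 3204 [1, 2, 3, 4, 5, 6] [1, 1, 1, 1, 1, 1, 1], .r 3205 [1, 2, 3, 4, 5, 6] [1, 1, 1, 1, 1, 1, 1], .r 3202 [1, 2, 3, 4, 5, 6] [1, 1, 1, 1, 1, 1, 1]]),
([p 4 0, g, s 0 1, g, s 0 2, m 1 3, g, p 0 4, m 3 5, g, m 5 0, g, m 2 0, g], .lo 4, [.l [5, 2, 6, 1, 6, 2, 3], .l [7, 14, 12, 8, 11, 5, 3, 8, 1], .l [7, 2, 8, 1, 8, 2, 3], .l [7, 2, 8, 1, 12, 5, 8, 2, 5], .l [7, 14, 12, 8, 11, 3, 1, 8, 1], .l [7, 4, 8, 1, 8, 4, 1], .l [7, 14, 12, 13, 9, 4, 7, 8, 6, 4, 1], .l [7, 10, 7, 8, 10, 8, 1], .l [5, 2, 8, 3, 8, 2, 5], .l [7, 10, 7, 8, 10, 8, 1], .l [4, 9, 11, 9, 2], .l [10, 5, 13, 7, 3, 8, 3], .l [4, 9, 11,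 9, 2], .l [4, 9, 9, 7, 2], .r 3206 [1, 2, 3, 4, 5, 6] [1, 1, 1, 1, 1, 1, 1], .l [5, 2, 6, 1, 10, 5, 10, 4, 7], .l [5, 2, 6, 1, 6, 2, 7], .y [4, 12], .l [5, 12, 10, 6, 9, 10, 8, 6, 1], .l [5, 2, 6, 1, 10, 5, 10, 4, 7], .l [5, 2, 6, 1, 6, 2, 9]]),
([p 3 0, g, s 5 1, m 0 2, g, p 0 3, g, m 2 4, g, m 4 0, g, m 1 0, g, p 0 5, g], .hi 0, [.l [8, 13, 8, 13, 4, 7, 10, 1, 4, 2, 5], .l [0, 1], .l [2, 1], .l [3, 2], .l [0, 4, 12, 9, 12, 2, 5], .l [0, 4], .l [5, 4], .y [0, 5], .l [0, 6, 12, 7, 12, 4, 7], .l [0, 6], .l [7, 6], .l [0, 8, 10, 8, 10, 5, 10, 4, 5], .l [0, 8], .l [9, 8], .l [11, 10, 10, 5, 10, 1, 10, 8, 5], .l [0, 10], .l [11, 10], .l [6, 15, 10, 2, 9, 3, 1, 5, 8, 2, 5], .l [0, 12], .l [13, 12], .l [0, 12], .l [15, 14, 14,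 9, 12, 6, 1, 4, 7], .l [0, 14], .l [15, 14]]),
([p 7 0, g, m 0 1, g, m 1 2, g, m 2 3, g, m 3 4, g, m 4 0, m 0 5, g, s 5 0, m 0 6, g, p 0 7, m 6 8, g, m 8 0, g], .lo 11, [.l [11, 10], .l [6, 18, 11, 6, 11, 6, 13, 14, 3, 9, 13, 6, 3], .l [13, 10], .l [6, 18, 11, 1, 15, 3, 8, 13, 6, 13, 2, 8, 1, 12, 6, 10, 6, 7], .l [13, 8, 10, 8, 8, 6, 6, 4, 4, 2, 5], .l [13, 8], .l [6, 18, 11, 6, 13, 8, 13, 14, 3, 11, 13, 4, 7], .l [13, 6, 8, 6, 6, 4, 4, 2, 7], .l [13, 6], .l [8, 13, 10, 12, 10, 15, 11, 6, 11, 6, 9, 11, 4, 8, 10, 5, 9, 7], .l [13, 4, 6, 4, 4, 2, 9], .l [13, 4], .l [10, 12, 11, 17, 7, 2, 13, 15, 5, 2, 11], .l [13, 2, 4, 2, 11], .l [13, 2], .l [10, 18, 7, 2, 15, 16, 4, 2, 12], .l [10, 11, 10, 10, 8, 8, 6, 11, 5, 0, 8, 10,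 4, 1, 1, 5, 7, 3], .l [11, 18, 6, 14, 15, 14, 16, 6, 4, 12, 12, 10, 10, 8, 10, 6, 1], .l [13, 1], .l [11, 12], .y [11, 13], .l [11, 15, 18, 16, 12], .l [16, 4], .l [11, 15], .l [11, 18, 20, 18, 4], .l [19, 7], .l [11, 18], .l [11, 18], .l [4, 16, 11, 6, 18, 13, 8, 9, 3, 13, 6, 10, 7], .l [21, 9], .l [11, 20]]),
([p 6 0, g, m 0 1, g, m 1 2, g, m 2 3, g, m 3 0, m 0 4, g, s 4 0, m 0 5, g, p 0 6, m 5 7, g, m 7 0, g], .lo 2, [.l [2, 1], .l [4, 1, 15, 11, 13, 11, 11, 9, 9, 7, 1], .l [4, 1], .r 3209 [8, 1, 2, 3, 4, 5, 6, 7] [1, 1, 1, 1, 1, 1, 1, 1, 1], .l [8, 16, 7, 11, 1, 14, 8, 5, 11, 4, 7, 1, 10, 4, 1], .l [4, 1], .l [2, 3], .l [6, 3, 15, 9, 13, 11, 11, 9, 1], .l [6, 3], .l [2, 5], .l [8, 5, 5, 3, 13, 7, 11, 9, 1], .l [8,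 5], .l [2, 7], .y [2, 4, 6, 8], .l [11, 8, 8, 6, 6, 4, 4, 2, 5], .l [11, 8], .l [2, 10], .l [11, 8, 8, 6, 6, 4, 4, 2, 1], .l [14, 11, 11, 9, 9, 7, 7, 5, 1], .l [14, 11], .l [2, 13], .l [2, 16, 18, 16, 11], .l [17, 14], .l [2, 16], .l [2, 16], .l [19, 16, 16, 14, 14, 12, 12, 10, 1], .l [19, 16], .l [2, 18]]),
([p 5 0, g, m 0 1, g, m 1 2, g, m 2 0, m 0 3, g, s 3 0, m 0 4, g, p 0 5, m 4 6, g, m 6 0, g], .lo 2, [.l [2, 1], .l [4, 1, 13, 9, 11, 9, 9, 7, 1], .l [4, 1], .r 3210 [7, 1, 2, 3, 4, 5, 6] [1, 1, 1, 1, 1, 1, 1, 1], .l [8, 14, 5, 1, 8, 1, 11, 5, 2, 8, 10, 6, 3], .l [4, 1], .l [2, 3], .l [6, 3, 13, 7, 11, 9, 1], .l [6, 3], .l [2, 5], .y [2, 4, 6], .l [9, 6, 6, 4, 4, 2, 5], .l [9, 6], .l [2, 8], .l [9, 6, 6, 4, 4, 2, 1],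 .l [12, 9, 9, 7, 7, 5, 1], .l [12, 9], .l [2, 11], .l [2, 14, 16, 14, 9], .l [15, 12], .l [2, 14], .l [2, 14], .l [17, 14, 14, 12, 12, 10, 1], .l [17, 14], .l [2, 16]]),
([p 4 0, g, m 0 1, g, m 1 0, m 0 2, g, s 2 0, m 0 3, g, p 0 4, m 3 5, g, m 5 0, g], .lo 2, [.l [2, 1], .l [4, 1, 11, 7, 9, 7, 1], .l [4, 1], .r 3211 [6, 1, 2, 3, 4, 5] [1, 1, 1, 1, 1, 1, 1], .l [7, 12, 4, 8, 1, 10, 4, 2, 6], .l [4, 1], .l [2, 3], .y [2, 4], .l [7, 4, 4, 2, 5], .l [7, 4], .l [2, 6], .l [2, 6, 6, 4, 3], .l [10, 7, 7, 5, 1], .l [10, 7], .l [2, 9], .l [2, 12, 14, 12, 7], .l [13, 10], .l [2, 12], .l [2, 12], .l [15, 12, 12, 10, 1], .l [15, 12], .l [2, 14]]),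
([p 3 0, g, m 0 0, m 0 1, g, s 1 0, m 0 2, g, p 0 3, m 2 4, g, m 4 0, g], .lo 2, [.l [2, 1], .l [4, 1, 9, 5, 1], .l [4, 1], .r 3212 [5, 1, 2, 3, 4] [1, 1, 1, 1, 1, 1], .y [2], .l [5, 2, 5], .l [5, 2], .l [2, 4], .l [4, 8, 3, 5, 4], .l [4, 10, 5, 7, 3], .l [8, 5], .l [2, 7], .l [2, 10, 12, 10, 5], .l [11, 8], .l [2, 10], .l [2, 10], .l [4, 8, 3, 5, 10], .l [13, 10], .l [2, 12]]),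
([p 3 0, g, m 1 0, g, s 0 1, m 0 2, g, p 0 3, g, m 2 4, g, m 4 5, g, m 5 6, g, m 6 7, g, m 7 8, g, m 8 0, g], .lo 5, [.l [5, 4], .l [7, 4, 8, 1, 8, 4, 1], .l [7, 4], .l [19, 21, 20, 20, 18, 18, 16, 16, 14, 14, 12, 12, 8, 1, 7, 3, 7, 5], .l [17, 19, 18, 18, 16, 16, 14, 14, 12, 12, 10, 10, 6, 1, 5, 3, 5, 3], .l [7, 2, 8, 1, 8, 2, 3], .l [7, 2], .l [17, 19, 18, 18, 16, 16, 14, 14, 12, 12, 8, 3, 9, 3, 7, 5, 7, 1], .l [7, 1, 10, 8, 1], .l [7, 1], .l [5, 6], .l [9, 3, 8, 6, 8, 6, 1], .l [9, 3], .l [5, 8], .l [4, 1, 10, 5, 1, 4, 1], .l [11, 5], .l [5, 10], .l [4, 1, 12, 7, 1, 6, 3], .l [13, 7], .l [5, 12], .l [4, 1, 14, 9, 1, 8, 5], .l [15, 9], .l [5, 14], .l [4, 1, 16, 11, 1, 10, 7], .l [17, 11], .l [5, 16], .l [4, 1, 18, 13,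 1, 12, 9], .l [19, 13], .l [5, 18], .y [5, 9, 11, 13, 15, 17, 19], .l [4, 1, 20, 15, 1, 14, 11], .l [21, 15], .l [5, 20]]),
([p 3 0, g, m 1 0, g, s 0 1, m 0 2, g, p 0 3, m 2 4, g, m 4 5, g, m 5 6, g, m 6 7, g, m 7 0, g], .hi 16, [.l [1, 9, 7, 16, 16, 14, 14, 12, 12, 10, 10, 8, 8, 4, 1], .l [1, 9, 7, 16], .l [2, 17], .l [4, 17, 17, 15, 15, 13, 13, 11, 11, 9, 4], .l [3, 9, 5, 16], .l [4, 17], .l [2, 3, 3, 14, 14, 12, 12, 10, 10, 8, 8, 6, 3], .y [5, 8, 10, 12, 14, 16], .l [6, 9, 2, 16, 16, 14, 14, 12, 12, 10, 10, 8, 8, 6, 1], .l [6, 9, 2, 16], .l [7, 17], .l [6, 7, 0, 14], .l [9, 12, 10, 10, 7, 1, 8, 4, 11], .l [9, 12, 10, 10, 7, 1, 8, 4, 11], .l [10, 17], .l [11, 14, 12, 12, 10, 10, 7, 1, 8, 4, 9], .l [11, 14, 12, 12, 10,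 10, 7, 1, 8, 4, 9], .l [12, 17], .l [13, 16, 14, 14, 12, 12, 10, 10, 7, 1, 8, 4, 7], .l [13, 16, 14, 14, 12, 12, 10, 10, 7, 1, 8, 4, 7], .l [14, 17], .l [15, 18, 16, 16, 14, 14, 12, 12, 10, 10, 7, 1, 8, 4, 1], .l [15, 18, 16, 16, 14, 14, 12, 12, 10, 10, 7, 1, 8, 4, 1], .l [16, 17], .l [15, 16, 14, 14, 12, 12, 10, 10, 8, 8, 5, 1, 6, 2, 5], .l [15, 16, 14, 14, 12, 12, 10, 10, 8, 8, 5, 1, 6, 2, 5], .r 3214 [1, 2, 3, 4, 5, 6, 7, 8] [1, 1, 1, 0, 1, 1, 1, 1, 1, 1]]),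
([p 3 0, g, m 1 0, g, s 0 1, m 0 2, g, p 0 3, m 2 4, g, m 4 5, g, m 5 6, g, m 6 0, g], .hi 14, [.l [1, 9, 7, 14, 14, 12, 12, 10, 10, 8, 8, 4, 1], .l [1, 9, 7, 14], .l [2, 15], .l [4, 15, 15, 13, 13, 11, 11, 9, 4], .l [3, 9, 5, 14], .l [4, 15], .l [2, 3, 3, 12, 12, 10, 10, 8, 8, 6, 3], .y [5, 8, 10, 12, 14], .l [6, 9, 2, 14, 14, 12, 12, 10, 10, 8, 8, 6, 1], .l [6, 9, 2, 14], .l [7, 15], .l [6, 7, 0, 12], .l [9, 12, 10, 10, 7, 1, 8, 4, 9], .l [9, 12, 10, 10, 7, 1, 8, 4, 9], .l [10, 15], .l [11, 14, 12, 12, 10, 10, 7, 1, 8, 4, 7], .l [11, 14, 12, 12, 10, 10, 7, 1, 8, 4, 7], .l [12, 15], .l [13, 16, 14, 14, 12, 12, 10, 10, 7, 1, 8, 4, 1], .l [13, 16, 14, 14, 12, 12, 10, 10, 7, 1, 8, 4, 1], .l [14, 15], .l [13, 14, 12, 12,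 10, 10, 8, 8, 5, 1, 6, 2, 5], .l [13, 14, 12, 12, 10, 10, 8, 8, 5, 1, 6, 2, 5], .r 3215 [1, 2, 3, 4, 5, 6, 7] [1, 1, 1, 1, 1, 1, 1, 1]]),
([p 3 0, g, m 1 0, g, s 0 1, m 0 2, g, p 0 3, m 2 4, g, m 4 5, g, m 5 0, g], .hi 12, [.l [1, 9, 7, 12, 12, 10, 10, 8, 8, 4, 1], .l [1, 9, 7, 12], .l [2, 13], .l [4, 13, 13, 11, 11, 9, 4], .l [3, 9, 5, 12], .l [4, 13], .l [2, 3, 3, 10, 10, 8, 8, 6, 3], .y [5, 8, 10, 12], .l [6, 9, 2, 12, 12, 10, 10, 8, 8, 6, 1], .l [6, 9, 2, 12], .l [7, 13], .l [6, 7, 0, 10], .l [9, 12, 10, 10, 7, 1, 8, 4, 7], .l [9, 12, 10, 10, 7, 1, 8, 4, 7], .l [10, 13], .l [11, 14, 12, 12, 10, 10, 7, 1, 8, 4, 1], .l [11, 14, 12, 12, 10, 10, 7, 1, 8, 4, 1], .l [12, 13], .l [11, 12, 10, 10, 8, 8, 5, 1, 6, 2, 5], .l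 [11, 12, 10, 10, 8, 8, 5, 1, 6, 2, 5], .r 3216 [1, 2, 3, 4, 5, 6] [1, 1, 1, 1, 1, 1, 1]]),
([p 3 0, g, m 1 0, g, s 0 1, m 0 2, g, p 0 3, m 2 4, g, m 4 0, g], .hi 10, [.l [1, 9, 7, 10, 10, 8, 8, 4, 1], .l [1, 9, 7, 10], .l [2, 11], .l [4, 11, 11, 9, 4], .l [3, 9, 5, 10], .l [4, 11], .l [2, 3, 3, 8, 8, 6, 3], .y [5, 8, 10], .l [6, 9, 2, 10, 10, 8, 8, 6, 1], .l [6, 9, 2, 10], .l [7, 11], .l [6, 7, 0, 8], .l [9, 12, 10, 10, 7, 1, 8, 4, 1], .l [9, 12, 10, 10, 7, 1, 8, 4, 1], .l [10, 11], .l [9, 10, 8, 8, 5, 1, 6, 2, 5], .l [9, 10, 8, 8, 5, 1, 6, 2, 5], .r 3217 [1, 2, 3, 4, 5] [1, 1, 1, 1, 1, 1]]),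
([p 5 0, g, m 0 1, g, m 1 2, g, s 0 3, m 2 4, g, m 3 0, g, p 0 5, m 4 6, g, m 6 0, g], .lo 2, [.l [2, 1], .l [4, 1, 12, 8, 10, 8, 8, 5, 8, 2, 5], .l [4, 1], .l [3, 11, 2, 8, 12, 3, 8, 11, 5, 2, 7], .l [11, 2, 4, 3, 12, 8, 8, 4, 6, 1, 8, 6, 1], .l [4, 1], .l [2, 3], .l [6, 3, 12, 6, 10, 7, 10, 2, 7], .l [6, 3], .l [2, 5], .l [9, 6, 6, 4, 10, 3, 10, 2, 7], .l [9, 6], .l [2, 8], .l [2, 8], .l [11, 8, 8, 6, 6, 3, 9, 5, 6], .l [11, 8], .l [2, 10], .l [2, 13, 15, 13, 8], .l [14, 11], .l [2, 13], .y [2, 4, 7, 12, 14], .l [9, 2, 5, 11, 5, 12, 3, 10, 4, 8, 1, 6, 1], .l [16, 13], .l [2, 15]]),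
([p 4 0, g, m 0 1, g, s 0 2, m 1 3, g, m 2 0, g, p 0 4, m 3 5, g, m 5 0, g], .lo 2, [.l [2, 1], .l [4, 1, 10, 6, 8, 5, 8, 2, 5], .l [4, 1], .r 3219 [6, 1, 2, 3, 4, 5] [1, 1, 1, 1, 1, 1, 1], .l [9, 2, 5, 11, 5, 8, 10, 6, 1], .l [4, 1], .l [2, 3], .l [7, 4, 10, 3, 10, 2, 7], .l [7, 4], .l [2, 6], .l [2, 6], .l [9, 6, 6, 3, 9, 5, 6], .l [9, 6], .l [2, 8], .l [2, 11, 13, 11, 6], .l [12, 9], .l [2, 11], .y [2, 5, 10, 12], .l [9, 6, 7, 4, 8, 3, 5, 7, 4, 4, 5], .l [14, 11], .l [2, 13]]),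
([p 3 0, g, s 0 1, m 0 2, g, m 1 0, g, p 0 3, m 2 4, g, m 4 0, g], .lo 3, [.l [3, 2], .l [5, 2, 8, 3, 8, 2, 5], .l [5, 2], .r 3220 [5, 1, 2, 3, 4] [1, 1, 1, 1, 1, 1], .l [7, 1, 10, 5, 7, 1, 8, 6, 1], .l [5, 1], .l [3, 4], .l [3, 4], .l [7, 3, 9, 5, 6], .l [7, 3], .l [3, 6], .l [3, 9, 11, 9, 3], .l [10, 6], .l [3, 9], .y [3, 8, 10], .l [7, 3, 8, 3, 5, 7, 4, 4, 5], .l [12, 8], .l [3, 11]]),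
([p 3 0, g, s 0 1, m 1 2, g, p 0 3, m 2 4, g, m 4 5, g, m 5 6, g, m 6 0, g], .hi 12, [.l [2, 13, 13, 11, 11, 9, 9, 7, 4], .l [1, 7, 5, 12], .l [2, 13], .y [2, 3, 6, 8, 10, 12], .l [5, 13, 13, 11, 11, 9, 9, 7, 1], .l [4, 7, 2, 12], .l [5, 13], .l [4, 5, 0, 10], .l [3, 0, 6, 9, 7, 1, 6, 2, 7], .l [7, 10, 8, 8, 5, 7, 4, 9], .l [8, 13], .l [3, 0, 8, 11, 9, 9, 7, 1, 6, 2, 5], .l [9, 12, 10, 10, 8, 8, 5, 7, 4, 7], .l [10, 13], .l [3, 0, 10, 13, 11, 11, 9, 9, 7, 1, 6, 2, 1], .l [11, 14, 12, 12, 10, 10, 8, 8, 5, 7, 4, 1], .l [12, 13], .l [3, 0, 10, 11, 9, 9, 7, 7, 5, 1, 4, 0, 3], .l [11, 12, 10, 10, 8, 8, 6, 6, 3, 5, 2, 5], .l [11, 1, 6, 11, 4, 0, 6, 9, 5, 2, 5]]),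
([p 3 0, g, s 0 1, m 1 2, g, p 0 3, m 2 4, g, m 4 5, g, m 5 0, g], .hi 10, [.l [2, 11, 11, 9, 9, 7, 4], .l [1, 7, 5, 10], .l [2, 11], .y [2, 3, 6, 8, 10], .l [5, 11, 11, 9, 9, 7, 1], .l [4, 7, 2, 10], .l [5, 11], .l [4, 5, 0, 8], .l [3, 0, 6, 9, 7, 1, 6, 2, 5], .l [7, 10, 8, 8, 5, 7, 4, 7], .l [8, 11], .l [3, 0, 8, 11, 9, 9, 7, 1, 6, 2, 1], .l [9, 12, 10, 10, 8, 8, 5, 7, 4, 1], .l [10, 11], .l [3, 0, 8, 9, 7, 7, 5, 1, 4, 0, 3], .l [9, 10, 8, 8, 6, 6, 3, 5, 2, 5], .r 3222 [1, 2, 3, 4, 5, 6] [1, 1, 1, 1, 1, 1]]),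
([p 3 0, g, s 0 1, m 1 2, g, p 0 3, m 2 4, g, m 4 0, g], .hi 8, [.l [2, 9, 9, 7, 4], .l [1, 7, 5, 8], .l [2, 9], .y [2, 3, 6, 8], .l [5, 9, 9, 7, 1], .l [4, 7, 2, 8], .l [5, 9], .l [4, 5, 0, 6], .l [3, 0, 6, 9, 7, 1, 6, 2, 1], .l [7, 10, 8, 8, 5, 7, 4, 1], .l [8, 9], .l [3, 0, 6, 7, 5, 1, 4, 0, 3], .l [7, 8, 6, 6, 3, 5, 2, 5], .r 3223 [1, 2, 3, 4, 5] [1, 1, 1, 1, 1]]),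
([p 5 0, g, s 7 1, g, s 0 2, g, s 1 3, m 2 4, g, p 0 5, m 4 6, g, m 3 0, g, m 6 0, g, s 0 7, g], .lo 9, [.y [0, 9], .l [10, 18, 11, 5, 14, 7, 1, 11, 0, 1], .l [2, 10], .l [1, 11, 9, 8], .l [4, 10, 17, 8, 2, 13, 9, 1, 10, 5], .l [4, 10], .l [3, 11, 7, 6], .l [6, 10, 17, 10, 4, 13, 7, 1, 10, 5], .l [6, 10], .l [5, 11, 5, 4], .l [8, 18, 11, 5, 14, 7, 1, 11, 2, 1], .l [9, 10], .l [7, 2, 10, 3, 10, 2, 3, 11, 9, 5, 1, 5, 1], .l [8, 18, 11, 3, 14, 7, 1, 11, 0, 1], .l [7, 2, 8, 1, 8, 2, 3, 11, 9, 5, 1, 5, 1], .l [2, 17, 8, 2, 6, 4, 10], .l [2, 15, 6, 2, 4, 2, 8], .l [8, 18, 11, 3, 14, 9, 3, 11, 0, 7], .l [7, 2, 8, 1, 8, 2, 3, 11, 9, 7, 3, 5, 3], .l [2, 17, 8, 4, 6, 2, 10], .l [2, 15, 6, 4, 4, 0, 8], .l [8, 18, 11, 3, 14, 9, 1,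 11, 0, 7], .l [7, 2, 8, 1, 8, 2, 3, 9, 7, 9, 5, 7, 5], .l [8, 9, 0, 14], .l [8, 16, 9, 3, 12, 7, 1, 9, 0, 9], .l [7, 2, 8, 1, 8, 2, 3, 9, 7, 11, 7, 9, 7], .l [8, 9, 0, 16]]),
([p 6 0, g, s 3 1, g, s 0 2, g, s 0 3, g, s 1 4, m 2 5, g, p 0 6, m 5 7, g, m 4 0, g, m 7 0, g], .lo 11, [.y [0, 11], .l [12, 14, 12, 5, 5, 1, 9, 5, 9, 1, 9, 5, 0, 1], .l [2, 12], .l [1, 13, 11, 10], .l [12, 14, 12, 7, 7, 1, 9, 5, 9, 1, 9, 5, 0, 1], .l [4, 12], .l [3, 13, 9, 8], .l [1, 11, 6, 1, 9, 10, 5, 6, 11, 9, 4, 1], .l [6, 12], .l [5, 13, 7, 6], .l [1, 11, 6, 3, 9, 10, 5, 6, 11, 9, 4, 1], .l [8, 12], .l [7, 13, 5, 4], .l [10, 14, 12, 5, 5, 1, 9, 5, 9, 1, 9, 5, 2, 1], .l [11, 12], .l [9, 4, 12, 3, 12, 4, 5, 13, 11, 7, 1, 7, 3], .l [10, 12, 10,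 5, 5, 1, 7, 3, 9, 3, 9, 3, 0, 5], .l [9, 4, 10, 1, 10, 4, 5, 13, 11, 7, 1, 7, 3], .l [10, 11, 0, 12], .l [10, 11, 0, 12], .l [15, 4, 14, 13, 4, 3, 14, 10, 11], .l [9, 4, 10, 1, 10, 4, 5, 13, 11, 9, 3, 5, 3], .l [10, 11, 0, 14], .l [10, 11, 0, 14], .l [10, 12, 10, 5, 5, 1, 7, 3, 7, 1, 7, 3, 0, 5], .l [9, 4, 10, 1, 10, 4, 5, 11, 9, 11, 5, 7, 5], .l [10, 11, 0, 16]]),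
([p 5 0, g, s 0 1, g, s 0 2, g, s 1 3, m 2 4, g, p 0 5, m 4 6, g, m 3 0, g, m 6 0, g], .lo 2, [.l [2, 5, 3, 3, 9, 5, 7, 6, 6, 3, 6, 2, 3], .l [9, 2, 6, 1, 9, 5, 6, 10, 8, 1], .l [4, 7, 5, 5, 11, 5, 9, 8, 8, 5, 8, 2, 3], .l [3, 11, 7, 8, 10, 6, 3], .l [9, 2, 6, 1, 11, 6, 9, 2, 3, 8, 4, 1], .l [2, 7, 13, 5, 9, 3, 12, 6, 9], .l [9, 2, 10, 1, 10, 2, 5, 11, 7, 9, 7, 7, 3], .r 3226 [1, 2, 7, 3, 4, 5, 6] [1, 1, 1, 1, 1, 1, 1, 1], .l [2, 7, 13, 5, 11, 5, 12, 4, 9], .l [2, 7, 1, 5, 11, 5, 0, 6, 10, 6, 3, 5, 3], .l [7, 2, 8, 3, 9, 3, 4, 10, 8, 3], .l [6, 3, 8, 4, 11, 6, 3, 8, 3], .l [1, 11, 9, 6, 10, 8, 3], .l [2, 11, 15, 13, 6], .l [5, 9, 3, 4, 10, 5, 10, 4, 5], .l [1, 9, 7, 10, 14, 12, 12, 8, 3], .y [2, 6, 12], .l [2, 13, 15,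 11, 6], .l [2, 5, 11, 5, 11, 5, 12, 4, 9], .l [1, 9, 7, 12, 14, 10, 10, 6, 3], .l [1, 9, 7, 12, 12, 8, 8, 4, 3], .r 3225 [1, 2, 3, 4, 5, 6, 7] [1, 1, 1, 1, 1, 1, 1, 1], .l [2, 5, 11, 5, 13, 7, 1, 8, 3], .l [2, 15, 9, 13, 1, 8, 10, 9, 1, 8, 5]]),
([p 5 0, g, s 0 1, g, s 0 2, g, s 2 3, m 1 4, g, p 0 5, m 4 6, g, m 3 0, g, m 6 0, g], .lo 9, [.y [0, 9], .l [10, 12, 10, 1, 9, 5, 9, 1, 9, 5, 0, 1], .l [2, 10], .l [1, 11, 9, 8], .l [10, 12, 10, 1, 9, 3, 9, 1, 9, 3, 0, 3], .l [4, 10], .l [3, 11, 7, 6], .l [10, 12, 10, 3, 9, 3, 9, 3, 9, 3, 0, 5], .l [6, 10], .l [5, 11, 5, 4], .l [8, 12, 10, 1, 9, 5, 9, 1, 9, 5, 2, 1], .l [9, 10], .l [7, 4, 10, 3, 10, 4, 1, 7, 1, 9, 5, 3, 1], .l [8, 10, 8, 1, 7, 3, 9, 3, 9, 3, 0, 5], .l [7, 4, 8,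 1, 8, 4, 1, 7, 1, 9, 5, 3, 1], .l [8, 9, 0, 10], .l [8, 9, 0, 10], .l [8, 10, 8, 1, 7, 3, 7, 1, 9, 5, 0, 1], .l [7, 4, 8, 1, 8, 4, 1, 9, 3, 7, 5, 7, 3], .l [8, 9, 0, 12], .l [8, 9, 0, 12], .l [8, 10, 8, 1, 7, 3, 7, 1, 7, 3, 0, 5], .l [7, 4, 8, 1, 8, 4, 1, 11, 5, 9, 7, 5, 3], .l [8, 9, 0, 14]]),
([p 4 0, g, s 0 1, g, s 0 2, m 1 3, g, p 0 4, m 3 5, g, m 2 0, g, m 5 0, g], .lo 4, [.l [5, 2, 6, 1, 6, 2, 3], .r 3227 [6, 1, 2, 3, 4, 5] [1, 1, 1, 1, 1, 1, 1], .l [7, 2, 8, 1, 8, 2, 3], .l [7, 2, 4, 2, 9, 6, 8, 3, 8, 4, 1], .r 3228 [1, 6, 2, 3, 4, 5] [1, 1, 1, 1, 1, 1, 1], .l [7, 4, 8, 1, 8, 4, 1], .l [7, 4, 11, 7, 9, 1, 10, 6, 1], .l [7, 2, 11, 8, 10, 3, 10, 6, 1], .l [5, 2, 8, 3, 8, 2, 5], .l [7, 10, 7, 8, 12, 10, 1], .l [4,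 9, 13, 11, 2], .l [10, 5, 11, 5, 12, 4, 7], .l [4, 9, 13, 11, 2], .y [4, 10], .l [4, 11, 13, 9, 2], .l [10, 5, 11, 5, 12, 4, 7], .l [4, 11, 13, 9, 2], .l [4, 11, 11, 7, 2], .l [5, 14, 12, 6, 11, 3, 1, 8, 1], .l [10, 5, 13, 7, 3, 8, 3], .l [5, 2, 6, 1, 6, 2, 9]]),
([p 4 0, g, m 0 1, g, s 0 2, m 1 3, g, p 0 4, m 3 5, g, m 2 0, g, m 5 0, g], .lo 4, [.l [4, 3, 7, 2, 8, 3, 8, 2, 3, 0, 3], .l [1, 12, 5, 7, 6, 6, 3, 9, 5, 2, 5], .l [6, 3, 9, 2, 10, 3, 10, 2, 3, 0, 5], .l [1, 12, 5, 7, 6, 6, 3, 9, 5, 2, 5], .l [6, 1, 6, 2, 9, 4, 1, 6, 3], .l [6, 1, 6, 2, 9, 4, 1, 6, 3], .l [3, 12, 5, 0, 9, 11, 4, 8, 1], .l [7, 2, 11, 8, 1, 8, 10, 6, 1], .l [7, 2, 11, 8, 1, 8, 10, 6, 1], .l [7, 10, 7, 8, 12, 10, 1], .l [4, 9, 13, 11, 2], .l [10,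 5, 7, 6, 10, 5, 10, 2, 5], .l [4, 9, 13, 11, 2], .y [4, 10], .l [4, 11, 13, 9, 2], .l [10, 5, 7, 6, 10, 5, 10, 2, 5], .l [4, 11, 13, 9, 2], .l [4, 11, 11, 7, 2], .l [3, 10, 5, 0, 7, 9, 4, 6, 7], .l [10, 5, 7, 6, 12, 7, 3, 8, 3], .l [3, 10, 5, 0, 7, 9, 4, 6, 7]]),
([p 3 0, g, s 0 1, m 0 2, g, p 0 3, m 2 4, g, m 1 0, g, m 4 0, g], .lo 3, [.l [3, 2], .r 3229 [5, 1, 2, 3, 4] [1, 1, 1, 1, 1, 1], .l [5, 2], .r 3230 [5, 1, 2, 3, 4] [1, 1, 1, 1, 1, 1], .r 3039 [2, 5, 3, 4] [2, 1, 1, 3, 1], .l [5, 1], .l [3, 4], .l [3, 7, 11, 9, 1], .l [8, 4], .l [3, 7], .l [3, 7], .l [3, 9, 11, 7, 1], .l [10, 6], .l [3, 9], .y [3, 6, 10], .l [3, 11, 8, 3, 9, 3, 1, 6, 1], .l [12, 8], .l [3, 11]]),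
([p 5 0, g, s 0 0, m 0 1, g, m 0 2, g, s 1 3, m 2 4, g, p 0 5, m 4 6, g, m 6 0, g, m 3 0, g], .hi 2, [.l [4, 1, 16, 7, 9, 8, 1, 10, 3, 1, 5, 5, 3], .l [17, 7, 9, 8, 8, 5, 8, 4, 10, 1, 10, 2, 5], .l [4, 1, 11, 7, 3], .y [2], .l [3, 0, 5], .l [5, 2, 7, 8, 6, 13, 7, 11, 8, 10, 9, 9, 7], .l [4, 12, 7, 8, 11, 7, 4], .l [5, 2, 7], .l [5, 2, 5], .l [3, 17, 7, 11, 10, 10, 7, 3, 11, 6, 8, 6, 1], .l [6, 10, 8, 10, 5, 6, 9, 5, 2], .l [7, 4, 7], .l [3, 10, 13, 10, 6, 10, 14, 9, 12, 10, 5, 8, 3], .l [3, 10, 13, 10, 6, 10, 12, 10, 5], .l [6, 8, 6, 10, 5, 7, 3], .l [9, 11, 9, 9, 6, 1, 7, 9, 7, 0, 1], .l [2, 12, 14, 12, 7], .l [2, 12, 14, 12, 7], .l [13, 10, 3], .l [15, 12, 3, 4, 2, 13, 11, 9, 6, 8, 7, 7, 5], .l [6, 8, 6, 8, 3, 5, 10],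 .l [15, 12, 3], .l [17, 14, 3, 4, 2, 9, 7, 11, 8, 10, 9, 9, 7], .l [6, 8, 6, 8, 3, 5, 12], .l [17, 14, 3]]),
([p 4 0, g, s 0 0, m 0 1, g, s 1 2, m 0 3, g, p 0 4, m 3 5, g, m 5 0, g, m 2 0, g], .lo 6, [.l [6, 5], .l [8, 15, 13, 14, 9, 4, 7, 9, 7, 4, 1], .l [8, 5], .l [8, 15, 13, 14, 9, 4, 7, 9, 7, 4, 1], .l [4, 8, 3, 5, 3], .l [8, 2, 9, 1, 13, 5, 8, 2, 5], .l [8, 2], .r 3232 [1, 6, 2, 3, 4, 5] [1, 1, 1, 1, 1, 1, 1], .l [8, 1, 14, 11, 6, 1, 6, 9, 6], .l [8, 1], .l [6, 7], .l [6, 10, 12, 10, 1], .l [11, 4], .l [6, 10], .y [6, 9, 11], .l [2, 13, 6, 1, 9, 1, 12, 10, 3], .l [13, 6], .l [6, 12], .l [6, 12], .l [13, 7, 14, 13, 13, 10, 5, 1, 7, 8, 3], .l [15, 8], .l [6, 14]]),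
([p 3 0, g, s 0 0, m 0 1, g, s 1 0, m 0 2, g, p 0 3, m 2 4, g, m 4 0, g], .hi 5, [.l [6, 10, 3, 7, 9, 2, 5], .l [6, 10, 3, 7, 9, 2, 5], .r 3218 [5, 2, 3, 4] [1, 4, 1, 1, 1], .l [4, 8, 3, 5, 4], .y [3, 5], .l [6, 10, 3, 5, 9, 4, 1], .l [6, 10, 3, 5, 9, 4, 1], .r 3218 [5, 2, 3, 4] [4, 1, 1, 1, 1], .r 3224 [5, 2, 3, 4] [4, 1, 1, 1], .l [4, 10, 5, 7, 9, 2, 3], .l [4, 10, 5, 7, 9, 2, 3], .r 3221 [5, 2, 3, 4] [4, 1, 1, 1, 1], .l [4, 8, 3, 5, 7, 2, 3], .l [4, 8, 3, 5, 7, 2, 7], .l [4, 8, 3, 5, 7, 2, 7], .r 3231 [5, 2, 3, 4] [4, 1, 1, 1, 1], .l [4, 8, 3, 5, 7, 2, 9], .l [4, 8, 3, 5, 7, 2, 9], .r 3233 [1, 5, 2, 3, 4] [1, 1, 1, 1, 1, 1]]),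
([p 5 0, g, p 1 0, g, p 2 1, g, p 0 2, m 0 3, g, s 3 0, m 0 4, g, p 0 5, m 4 6, g, m 6 0, g], .lo 7, [.l [7, 6], .l [6, 8, 7, 13, 7, 2, 7, 11, 7, 2, 3], .l [9, 6], .l [6, 8, 7, 13, 7, 2, 7, 11, 7, 2, 3], .l [7, 4], .l [9, 4, 6, 4, 4, 2, 5], .l [9, 4], .l [6, 8, 7, 13, 7, 2, 9, 11, 5, 2, 7], .l [9, 2, 4, 2, 7], .l [9, 2], .l [6, 14, 7, 2, 11, 12, 4, 2, 8], .l [7, 14, 6, 10, 11, 10, 12, 6, 4, 8, 10, 6, 1], .l [9, 1], .l [7, 8], .y [7, 9], .l [7, 11, 14, 12, 8], .l [12, 4], .l [7, 11], .l [7, 14, 16, 14, 4], .l [15, 7], .l [7, 14], .l [7, 14], .l [4, 12, 7, 2, 14, 13, 8, 9, 3, 10, 3, 6, 3], .l [17, 9], .l [7, 16]]),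
([p 4 0, g, p 1 0, g, p 0 1, m 0 2, g, s 2 0, m 0 3, g, p 0 4, m 3 5, g, m 5 0, g], .hi 2, [.l [4, 1, 11, 7, 9, 7, 1], .r 3235 [6, 1, 2, 3, 4, 5] [1, 1, 1, 1, 1, 1, 1], .l [4, 1], .l [7, 12, 4, 8, 1, 10, 4, 2, 6], .l [2, 3], .l [4, 1], .y [2, 4], .l [5, 2], .l [7, 4, 4, 2, 5], .l [2, 6], .l [7, 4], .l [8, 5], .l [10, 7, 7, 5, 1], .l [2, 9], .l [10, 7], .l [2, 9], .l [2, 12, 14, 12, 7], .l [2, 12], .l [13, 10], .l [15, 12, 12, 10, 1], .l [2, 14], .l [15, 12]]),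
([p 3 0, g, p 0 0, m 0 1, g, s 1 0, m 0 2, g, p 0 3, m 2 4, g, m 4 0, g], .hi 2, [.l [4, 1, 9, 5, 1], .r 3236 [5, 1, 2, 3, 4] [1, 1, 1, 1, 1, 1], .l [4, 1], .y [2], .l [3, 0], .l [5, 2, 5], .l [2, 4], .l [5, 2], .l [6, 3], .l [4, 10, 5, 7, 3], .l [2, 7], .l [8, 5], .l [2, 7], .l [2, 10, 12, 10, 5], .l [2, 10], .l [11, 8], .l [4, 8, 3, 5, 10], .l [2, 12], .l [13, 10]]),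
([p 3 0, g, m 0 1, g, s 1 0, m 0 2, g, p 0 3, m 2 4, g, m 4 0, g], .bot 1, [.r 444 [] [9], .r 3234 [1, 2, 3, 4] [1, 1, 1, 1, 1], .r 3237 [1, 2, 3, 4] [1, 1, 1, 1, 1], .r 3213 [1, 2, 3, 4] [1, 1, 1, 1, 1]]),
([p 4 0, g, m 0 1, g, s 6 2, m 1 3, g, p 0 4, m 3 5, g, m 5 0, g, s 0 6, g, m 2 0, g], .hi 0, [.l [7, 14, 12, 15, 2, 5, 10, 1, 4, 8, 1, 6, 1], .l [0, 1], .l [2, 1], .l [2, 1], .l [4, 3, 8, 4, 6, 3, 10, 5, 10, 4, 7, 7, 5], .l [0, 3], .l [4, 3], .l [7, 6, 8, 1, 12, 7, 8, 6, 10, 4, 7, 7, 5], .l [0, 6], .l [7, 6], .y [0, 7], .l [0, 9, 11, 9, 6], .l [0, 9], .l [10, 9], .l [12, 11, 11, 4, 6, 5, 10, 3, 4, 2, 8, 6, 3], .l [0, 11], .l [12, 11], .l [5, 14, 12, 6, 11, 1, 1, 5, 3, 6, 1], .l [4, 11, 7, 11, 3, 8, 1, 8, 5, 5, 3, 7,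 5], .l [0, 13], .l [14, 13], .l [3, 5, 3, 6, 13, 7, 1, 10, 3, 6, 8, 2, 5], .l [0, 15], .l [16, 15]]),
([p 5 1, g, m 0 2, g, s 7 3, m 2 4, g, p 0 5, m 4 6, g, m 6 0, g, s 1 0, g, m 0 7, g, m 3 0, g], .lo 7, [.l [1, 9, 7, 6, 8, 6, 11], .l [2, 8], .l [0, 13, 11, 6, 7, 5, 10], .l [3, 7, 5, 7, 5, 4, 6, 4, 9], .l [4, 8], .l [0, 13, 9, 4, 5, 3, 10], .l [8, 9, 0, 6, 8, 6, 11], .l [7, 8], .l [4, 15, 8, 1, 1, 8, 5], .l [6, 7, 0, 8, 10, 8, 8, 6, 9], .l [4, 15, 8, 0, 9, 7, 1, 6, 3], .l [0, 13, 6, 2, 4, 2, 8], .l [0, 11, 4, 2, 2, 0, 6], .l [6, 8, 6, 13, 1, 9, 3, 8, 5, 1, 5, 0, 1], .l [14, 13, 17, 13, 15, 14, 14, 11, 12, 8, 1, 6, 7], .l [6, 7, 0, 10], .y [0, 12, 7], .l [6, 8, 6, 13, 3, 9, 3, 8, 5, 1, 5, 0, 1], .l [0, 11, 13, 8, 9, 7,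 10], .l [6, 7, 0, 12], .l [3, 5, 3, 5, 3, 10, 7, 10, 12, 10, 5], .l [0, 11, 15, 10, 11, 9, 5], .l [3, 5, 3, 5, 3, 10, 7, 10, 12, 10, 5], .l [3, 5, 3, 5, 3, 10, 7, 10, 10, 8, 5], .l [0, 11, 17, 12, 2, 6, 11, 5, 7, 1, 10, 8, 5], .l [0, 11, 17, 12, 13, 11, 5], .l [6, 7, 0, 16]]),
([p 4 1, g, s 1 0, g, m 0 2, g, s 6 0, m 2 3, g, p 0 4, m 3 5, g, m 5 0, g, m 0 6, g], .lo 9, [.l [1, 11, 9, 8, 10, 8, 11], .l [2, 10], .l [0, 3, 1, 8, 9, 7, 10], .y [0, 2, 9], .l [3, 11, 7, 6, 10, 8, 11], .l [4, 10], .l [3, 11, 7, 6], .l [5, 9, 7, 9, 5, 4, 8, 6, 9], .l [6, 10], .l [5, 9, 7, 9, 5, 4], .l [5, 7, 5, 7, 3, 10, 7, 8, 3], .l [10, 11, 0, 8, 10, 8, 11], .l [9, 10], .l [6, 15, 6, 1, 1, 6, 3], .l [8, 9, 0, 10, 12, 10, 10, 8, 9], .l [6, 15,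 6, 0, 7, 5, 1, 4, 1], .l [6, 15, 6, 2, 4, 2, 4], .l [6, 13, 4, 2, 2, 0, 2], .l [6, 15, 6, 0, 7, 5, 8, 1, 2, 6, 1, 4, 1], .l [6, 15, 6, 0, 7, 5, 8, 1, 2, 6, 1, 4, 1], .l [8, 9, 0, 12], .l [8, 10, 8, 11, 7, 1, 2, 0, 9, 3, 5, 5, 3], .l [6, 13, 4, 0, 5, 3, 6, 1, 2, 4, 8, 4, 5], .l [8, 9, 0, 14]]),
([p 4 0, g, m 0 1, g, s 6 2, m 1 3, g, p 0 4, m 3 5, g, m 5 0, g, m 0 6, g, m 2 0, g], .hi 0, [.r 3241 [7, 1, 3, 4, 5, 6] [1, 1, 1, 1, 1, 1, 3], .l [0, 1], .l [2, 1], .l [2, 1], .l [4, 3, 8, 4, 6, 3, 6, 2, 7], .l [0, 3], .l [4, 3], .l [0, 6, 9, 7, 10], .l [0, 6], .l [7, 6], .y [0, 7], .l [0, 9, 11, 9, 6], .l [0, 9], .l [10, 9], .r 3240 [7, 1, 2, 3, 4, 5, 6] [1, 1, 1, 1, 1, 1, 1, 1], .l [0, 11], .l [12, 11], .l [12, 11], .l [4, 11,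 7, 11, 3, 8, 1, 8, 5], .l [0, 13], .l [14, 13], .l [4, 11, 7, 13, 5, 10, 1, 10, 7], .l [0, 15], .l [16, 15]]),
([p 3 0, g, s 2 0, m 0 1, g, p 0 2, g, p 0 3, m 1 4, g, m 4 0, g], .hi 10, [.l [2, 11, 11, 9, 6], .l [1, 9, 7, 10], .l [2, 11], .y [3, 8, 10], .l [4, 9, 4, 10, 10, 8, 8, 6, 3], .l [4, 9, 4, 10], .l [5, 11], .l [4, 7, 2, 8], .l [7, 11, 11, 9, 1], .l [6, 9, 2, 10], .l [7, 11], .l [6, 7, 0, 8], .l [5, 2, 8, 11, 9, 1, 8, 2, 1], .l [9, 12, 10, 10, 5, 9, 6, 1], .l [10, 11], .l [5, 2, 8, 9, 7, 1, 6, 0, 5], .l [9, 10, 8, 8, 3, 7, 4, 7], .r 3197 [1, 2, 3, 4, 5] [1, 1, 1, 1, 1, 1]]),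
([p 3 0, g, s 5 1, m 0 2, g, p 0 3, g, m 2 4, g, m 4 0, g, p 0 5, g, m 1 0, g], .hi 0, [.l [8, 13, 8, 13, 4, 7, 10, 1, 4, 2, 5], .l [0, 1], .l [2, 1], .l [3, 2], .l [0, 4, 12, 9, 12, 2, 5], .l [0, 4], .l [5, 4], .y [0, 5], .l [0, 6, 12, 7, 12, 4, 7], .l [0, 6], .l [7, 6], .l [0, 8, 10, 8, 10, 5, 10, 4, 5], .l [0, 8], .l [9, 8], .l [11, 10, 10, 5, 10, 1, 10, 8, 5], .l [0, 10], .l [11, 10], .l [0, 10], .l [6, 15, 10, 2, 9, 3, 1, 5, 8, 2, 5], .l [0, 12], .l [13, 12], .l [15, 14, 14, 9, 12, 6, 1, 4, 7], .l [0, 14], .l [15, 14]]),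
([p 4 0, g, m 0 1, g, s 0 2, m 1 3, g, p 0 4, m 3 5, g, m 5 0, g, m 2 0, g], .lo 4, [.l [5, 12, 10, 6, 9, 5, 3, 6, 1], .l [7, 14, 12, 8, 11, 5, 3, 8, 1], .l [7, 14, 12, 8, 11, 5, 3, 8, 1], .r 3238 [6, 3, 4, 5] [1, 3, 1, 1, 3], .l [6, 1, 6, 2, 11, 6, 1, 8, 5], .l [6, 1, 6, 2, 11, 6, 1, 8, 5], .l [7, 14, 12, 13, 9, 4, 7, 8, 6, 4, 1], .l [7, 10, 7, 8, 10, 8, 1], .r 3243 [3, 6, 4, 5] [3, 1, 1, 1, 3], .l [7, 10, 7, 8, 10, 8, 1], .l [4, 9, 11, 9, 2], .l [10, 5, 7, 6, 12, 7, 3, 8, 3], .l [4, 9, 11, 9, 2], .l [4, 9, 9, 7, 2], .r 3239 [1, 2, 3, 4, 5, 6] [1, 1, 1, 1, 1, 1, 1], .r 3244 [2, 3, 4, 5, 6] [3, 1, 0, 1, 1, 1, 1], .r 3242 [1, 2, 3, 4, 5, 6] [1, 1, 1, 1, 1, 1, 1], .y [4, 12], .l [5, 12, 10, 6, 9, 10, 8, 6, 1], .r 3208 [2,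 3, 4, 5, 6] [3, 1, 0, 1, 1, 1, 1], .l [5, 12, 10, 6, 9, 10, 8, 6, 1]]),
([p 2 0, g, m 0 1, g, s 0 0, p 6 2, m 1 3, g, m 3 4, m 4 5, g, m 5 0, g, s 0 6, g], .hi 4, [.l [10, 1, 15, 11, 3, 12, 5, 10, 4, 6, 0, 0, 5], .l [6, 8, 5, 1, 5, 7, 5, 0, 9], .l [6, 3, 6, 0, 12], .l [4, 1, 4, 0, 10], .l [4, 8, 5, 7, 3, 11, 6, 9, 6, 6, 5, 5, 3], .l [4, 8, 5, 10, 3, 6, 11, 3, 9, 2, 5], .l [6, 1, 6, 0, 12], .y [4], .l [4, 7, 9, 7, 0], .l [4, 7, 9, 7, 0], .l [8, 3, 13], .l [4, 10, 12, 10, 10, 9, 9, 7, 0], .l [4, 10, 12, 10, 10, 9, 9, 7, 0], .l [11, 6, 13], .l [14, 1, 8, 12, 11, 9, 8, 8, 6, 6, 5, 5, 3], .l [14, 1, 8, 12, 11], .l [13, 8, 13], .l [13, 8, 7], .l [9, 2, 13, 8, 12, 3, 1, 4, 1, 4, 2, 0, 3], .l [8, 13, 9, 13, 1, 6, 1, 2, 5, 2, 1],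 .l [15, 10, 7]]),
([p 2 0, g, m 0 1, g, p 6 2, m 1 3, g, m 3 4, m 4 5, g, m 5 0, g, s 0 6, g], .bot 3, [.r 2849 [2] [1, 9], .r 3246 [1, 2, 3, 4, 5, 6] [1, 1, 1, 1, 1, 1], .r 1201 [2] [3, 9], .r 2849 [2] [3, 9]]),
([p 2 0, g, m 0 1, g, s 0 0, p 6 2, m 1 3, g, m 0 4, g, m 3 0, m 4 5, g, m 5 0, g, s 0 6, g], .hi 4, [.l [10, 0, 7, 13, 5, 8, 13, 7, 11, 2, 3, 1, 3], .l [6, 8, 5, 1, 5, 9, 7, 0, 11], .l [6, 3, 6, 0, 14], .l [4, 1, 4, 0, 12], .l [4, 8, 5, 7, 3, 13, 8, 11, 6, 8, 7, 7, 5], .l [4, 8, 5, 12, 5, 8, 13, 3, 11, 2, 7], .l [6, 1, 6, 0, 14], .y [4], .l [4, 7, 11, 9, 0], .l [4, 7, 11, 9, 0], .l [8, 3, 15], .l [8, 3, 13], .l [4, 9, 11, 7, 0], .l [4, 9, 11, 7, 0], .l [10, 5, 15], .l [4, 12, 14, 12, 12, 9, 11, 9, 0], .l [4,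 12, 14, 12, 12, 9, 11, 9, 0], .l [13, 8, 15], .l [16, 1, 10, 14, 13, 11, 10, 10, 6, 8, 7, 7, 5], .l [16, 1, 10, 14, 13], .l [15, 10, 15], .l [15, 10, 9], .l [0, 8, 15, 11, 15, 1, 6, 9, 5, 2, 5, 3, 5], .l [0, 8, 15, 11, 15, 1, 6, 9, 5, 2, 5], .l [17, 12, 9]]),
([p 2 0, g, m 0 1, g, p 6 2, m 1 3, g, m 0 4, g, m 3 0, m 4 5, g, m 5 0, g, s 0 6, g], .bot 3, [.r 2849 [2] [1, 11], .r 3248 [1, 2, 3, 4, 5, 6] [1, 1, 1, 1, 1, 1, 1], .r 1201 [2] [3, 11], .r 2849 [2] [3, 11]]),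
([p 2 0, g, m 0 1, g, p 5 2, m 1 3, g, m 3 0, m 0 4, g, m 4 0, g, s 0 5, g], .lo 8, [.l [8, 7], .l [4, 10, 7, 4, 7, 9, 7, 4, 1], .l [10, 7], .l [4, 10, 7, 3, 1, 3, 6, 8, 6, 3], .l [2, 10, 5, 2, 7, 9, 5, 2, 5], .l [10, 5], .l [6, 10, 7, 9, 5, 0, 6, 8, 4, 1], .l [0, 10, 2, 5, 11, 3, 9, 2, 5], .l [10, 2], .r 3249 [1, 2, 3, 6, 4, 5] [1, 1, 1, 1, 1, 1, 1], .r 3247 [1, 2, 3, 6, 4, 5] [1, 1, 1, 1, 1, 1], .l [3, 5, 3, 3, 7, 1, 8, 6, 3, 0, 5], .l [10, 1], .l [8, 9], .y [8, 10], .l [2, 8, 11, 8, 4, 6, 7, 4, 1], .l [12, 3], .l [8, 11], .l [2, 8, 13, 10, 4, 6, 9, 6, 1], .l [14, 5], .l [8, 13]]),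
([p 2 0, g, m 0 1, g, p 5 2, m 1 3, g, m 3 0, m 0 4, g, s 4 5, g], .hi 0, [.l [6, 0, 11, 7, 1, 2, 5, 7, 5, 2, 3], .l [0, 1], .l [2, 1], .l [2, 1], .l [4, 3, 5, 1, 5, 1, 3, 6, 6, 4, 1], .l [0, 3], .l [4, 3], .l [0, 6, 8, 6, 3], .l [0, 6], .l [7, 6], .y [0, 8, 10, 4], .l [10, 9, 9, 5, 7, 6, 6, 4, 5], .l [0, 9], .l [10, 9], .l [12, 11, 11, 7, 9, 8, 8, 6, 1], .l [0, 11], .l [12, 11]]),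
([p 3 1, g, m 0 2, g, p 6 3, m 2 4, g, m 4 0, m 0 5, g, s 0 6, g, s 1 0, g, m 5 0, g], .hi 7, [.l [2, 8, 8, 6, 3], .l [0, 13, 11, 6, 6, 4, 9], .l [2, 8], .y [2, 5, 7], .l [4, 8, 8, 6, 1], .l [0, 13, 9, 4, 4, 2, 9], .l [4, 8], .l [8, 12, 7, 7, 3, 8, 12, 4, 9], .l [6, 9, 7, 7, 4, 6, 4, 1], .l [7, 8], .l [0, 11, 13, 9, 9, 8, 8, 6, 3], .l [0, 13, 15, 9, 11, 10, 10, 8, 3], .l [6, 7, 5, 5, 2, 4, 2, 5], .l [0, 13, 15, 9, 11, 10, 10, 8, 3], .l [0, 11, 4, 2, 5, 2, 2, 0, 5], .l [0, 13, 15, 9, 13, 12, 12, 10, 3], .l [6, 7, 5, 5, 2, 4, 2, 7], .l [0, 13, 15, 9, 13, 12, 12, 10, 3], .l [0, 11, 13, 8, 8, 6, 3], .l [6, 7, 5, 5, 2, 4, 2, 9], .l [0, 11, 13, 8, 8, 6, 3], .l [0, 11, 13, 9, 13, 12, 12, 10, 3], .l [6, 7, 5, 5, 2, 4, 2, 11],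 .l [0, 11, 13, 9, 13, 12, 12, 10, 3]]),
([p 2 0, g, m 0 1, g, p 5 2, m 1 3, g, m 3 0, m 0 4, g, s 0 5, g, m 4 0, g], .hi 0, [.l [5, 10, 7, 1, 3, 6, 10, 8, 3, 0, 3], .l [0, 1], .l [2, 1], .l [2, 1], .l [4, 3, 5, 1, 5, 1, 3, 6, 8, 6, 1], .l [0, 3], .l [4, 3], .l [0, 6, 8, 6, 3], .l [0, 6], .l [7, 6], .l [8, 7], .l [10, 9, 9, 5, 7, 6, 8, 3, 8, 2, 5], .l [0, 9], .l [10, 9], .y [0, 10, 4], .r 3252 [6, 1, 2, 3, 4, 5] [1, 1, 1, 1, 1, 1, 1], .l [0, 11], .l [12, 11], .l [14, 13, 4, 8, 6, 7, 5, 9, 4, 6, 3], .l [0, 13], .l [14, 13]]),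
([p 2 0, g, m 0 1, g, p 4 2, m 1 3, g, m 3 0, m 0 0, g, s 0 4, g], .hi 8, [.l [11, 5, 10, 9, 5, 4, 4, 2, 3], .l [1, 6, 4, 8], .l [2, 9], .l [2, 7], .l [4, 9, 6, 4, 5, 4, 1], .l [3, 6, 2, 8], .l [4, 9], .l [7, 9, 6], .l [6, 9, 7, 7, 4, 6, 4, 5], .l [7, 9], .y [8], .l [11, 7, 10, 9, 7, 6, 6, 4, 1], .l [11, 7, 10, 9, 7, 6, 6, 4, 1], .r 3250 [1, 2, 3, 5, 4] [1, 1, 1, 1, 1, 1], .r 3251 [1, 2, 3, 5, 4] [1, 1, 1, 1, 1], .l [9, 5, 8, 7, 5, 4, 4, 2, 5], .l [9, 5, 8, 7, 5, 4, 4, 2, 5], .r 3253 [1, 2, 3, 5, 4] [1, 1, 1, 1, 1, 1]]),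
([p 2 0, g, m 5 1, g, p 4 2, m 1 3, g, m 3 0, p 0 0, g, s 0 4, g, s 0 5, g], .lo 8, [.l [0, 7], .l [14, 9, 9, 6, 6, 4, 7], .l [2, 9], .l [1, 6, 4, 8], .l [14, 11, 11, 6, 6, 4, 7], .l [4, 9], .l [3, 6, 2, 8], .l [7, 9, 6], .l [7, 9], .l [6, 9, 7, 7, 4, 6, 4, 5], .l [6, 7, 5, 5, 2, 4, 2, 3], .y [8], .l [14, 11, 11, 8, 8, 6, 1], .l [8, 12, 7, 8, 6, 6, 9, 6, 4, 6, 3], .l [14, 11, 11, 8, 8, 6, 1], .l [14, 11, 11, 8, 8, 6, 3], .l [3, 5, 3, 3, 10, 9, 0, 4, 6, 4, 5], .l [14, 11, 11, 8, 8, 6, 3], .l [12, 9, 9, 6, 6, 4, 9], .l [2, 11, 7, 1, 9, 11, 5, 2, 7], .l [12, 9, 9, 6, 6, 4, 9]]),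
([p 2 0, g, m 0 1, g, s 0 0, p 7 2, m 1 3, g, p 4 0, g, m 3 0, g, p 5 4, g, p 6 5, g, p 0 6, g, s 0 7, g], .hi 4, [.l [6, 3, 15, 16, 15, 15, 13, 13, 9, 11, 9, 0, 9], .l [6, 8, 5, 1, 5, 9, 7, 0, 13], .l [6, 3, 6, 0, 17], .l [4, 1, 4, 0, 15], .l [4, 8, 5, 7, 3, 16, 11, 14, 9, 11, 9, 9, 7], .l [19, 15, 1, 15, 11, 12, 15, 14, 7], .l [6, 1, 6, 0, 17], .y [4], .l [4, 7, 11, 9, 0], .l [4, 7, 11, 9, 0], .l [8, 3, 18], .l [4, 9, 11, 7, 0], .l [4, 9, 11, 7, 0], .l [10, 5, 18], .l [4, 11, 13, 9, 11, 9, 0], .l [4, 11, 13, 9, 11, 9, 0], .l [12, 7, 18], .l [4, 13, 15, 13, 13, 9, 11, 9, 0], .l [4, 13, 15, 13, 13, 9, 11, 9, 0], .l [14, 9, 18], .l [4, 15, 17, 15, 15, 13, 13, 9, 11, 9, 0], .l [4, 15, 17, 15, 15, 13, 13, 9, 11, 9, 0], .l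 [16, 11, 18], .l [4, 15, 15, 13, 13, 11, 11, 7, 9, 7, 0], .l [19, 1, 13, 17, 16, 14, 13, 13, 9, 11, 9, 9, 7], .l [19, 1, 13, 17, 16], .l [18, 13, 18], .l [18, 13, 12], .l [12, 18, 10, 18, 1, 10, 4, 12, 7, 3, 7, 3, 5, 6, 1], .l [12, 18, 10, 18, 1, 10, 4, 12, 7, 3, 7, 3, 5, 6, 1], .l [20, 15, 12]]),
([p 3 0, g, s 0 1, g, m 1 2, g, s 0 0, p 7 3, m 2 4, g, p 5 0, g, m 4 0, p 6 5, g, p 0 6, g, s 0 7, g], .lo 15, [.l [0, 14], .l [2, 16, 16, 14, 14, 11, 13, 11, 6], .l [2, 16], .l [1, 9, 7, 15], .l [4, 16, 16, 14, 14, 11, 13, 11, 4], .l [4, 16], .l [3, 9, 5, 15], .l [6, 16, 16, 14, 14, 11, 13, 11, 2], .l [6, 16], .l [4, 1, 8, 4, 8, 1, 6, 11, 11, 9, 3], .l [6, 14, 14, 12, 12, 9, 11, 9, 0], .l [10, 16, 16, 14, 11], .l [10, 16],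 .l [9, 14, 12, 12, 8, 11, 7, 12], .y [10, 15, 13], .l [12, 16, 16, 14, 9], .l [12, 16], .l [11, 14, 10, 10, 6, 9, 5, 12], .l [11, 12, 8, 8, 4, 7, 3, 10], .l [14, 19, 11, 12, 9, 9, 14, 13, 4, 1, 1, 10, 5], .l [15, 16], .l [14, 17, 15, 15, 12, 14, 12, 12, 8, 11, 7, 1], .l [14, 19, 11, 12, 9, 8, 4, 1, 7, 1, 5, 10, 5], .r 3256 [2, 3, 4, 5, 6, 8, 7] [3, 1, 1, 1, 0, 1, 1, 1, 1], .l [14, 15, 13, 13, 10, 12, 10, 10, 6, 9, 5, 8], .l [4, 1, 6, 2, 6, 1, 3, 12, 14, 12, 12, 10, 5], .l [4, 1, 6, 2, 6, 1, 3, 12, 14, 12, 12, 10, 5], .l [14, 15, 13, 13, 10, 12, 10, 10, 6, 9, 5, 10]]),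
([p 3 0, g, s 0 1, g, m 1 2, g, s 0 0, p 6 3, m 2 4, g, m 4 0, p 5 0, g, p 0 5, g, s 0 6, g], .hi 11, [.l [6, 13, 8, 5, 10, 12, 8, 5, 2], .l [6, 13, 8, 4, 2, 4, 9, 11, 7, 4], .l [13, 10], .l [4, 1, 10, 8, 8, 2, 3, 9, 3, 7, 0], .l [6, 3, 8, 2, 11, 4, 1, 4, 9, 7, 1], .l [6, 3, 8, 2, 11, 4, 1, 4, 9, 7, 1], .l [13, 8], .l [4, 13, 6, 3, 10, 12, 6, 3, 6], .l [9, 13, 9, 12, 6, 0, 9, 11, 4, 1], .l [13, 6], .l [11, 4, 13], .l [0, 13, 2, 5, 15, 3, 13, 2, 9], .r 3257 [1, 2, 3, 4, 7, 5, 6] [1, 1, 1, 1, 1, 1, 1, 1], .l [13, 2], .l [4, 1, 7, 8, 7, 2, 9, 1, 9, 7, 1], .l [11, 12], .l [13, 1], .y [11, 13], .l [4, 1, 6, 2, 9, 11, 8, 1, 6, 7, 1], .l [11, 14], .l [15, 3], .l [4, 1, 6, 2, 9, 11, 8, 1, 6, 7, 1], .l [4, 1, 6, 2, 9, 13, 10, 1,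 6, 9, 3], .l [11, 16], .l [17, 5]]),
([p 3 0, g, s 0 1, g, m 1 2, g, s 0 0, p 5 3, m 2 4, g, m 4 0, p 0 0, g, s 0 5, g], .lo 11, [.l [0, 10], .l [6, 1, 8, 2, 8, 1, 3, 7, 4], .l [2, 12], .l [1, 9, 7, 11], .l [14, 5, 14, 13, 7, 6, 6, 4, 5], .l [4, 12], .l [3, 9, 5, 11], .l [4, 1, 8, 4, 8, 1, 6, 7, 1], .l [6, 12], .l [4, 1, 8, 4, 8, 1, 6, 7, 1], .l [4, 1, 6, 2, 6, 1, 4, 5, 1], .l [10, 12, 9], .l [10, 12], .l [9, 12, 10, 10, 6, 9, 5, 8], .l [9, 10, 8, 8, 4, 7, 3, 6], .y [11], .l [14, 7, 14, 13, 9, 8, 8, 6, 1], .r 3258 [1, 2, 3, 4, 6, 5] [1, 1, 1, 1, 1, 1, 1], .l [4, 1, 6, 2, 6, 1, 11, 7, 9, 6, 1], .l [12, 5, 12, 11, 7, 6, 6, 4, 9], .l [4, 1, 6, 2, 6, 1, 3, 8, 10, 8, 3], .l [4, 1, 6, 2, 6, 1, 9, 5, 7, 4, 7]]),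
([p 3 0, g, m 0 1, g, m 1 2, g, s 0 0, p 5 3, m 2 4, g, m 4 0, p 6 0, g, s 0 5, g, p 0 6, g], .hi 6, [.l [2, 9, 6, 9, 10, 9, 2, 10, 12, 10, 3, 3, 1], .l [8, 10, 7, 3, 7, 9, 7, 0, 9], .l [8, 5, 8, 0, 12], .l [6, 3, 3, 1, 4, 0, 8], .l [4, 9, 4, 9, 10, 9, 4, 10, 12, 10, 1, 5, 3], .l [5, 9, 3, 6, 1, 4, 7, 2, 4, 8, 10, 8, 3], .l [8, 3, 5, 3, 6, 0, 10], .l [6, 10, 7, 7, 5, 7, 3, 9, 11, 9, 2, 6, 3], .l [7, 9, 1, 6, 8, 6, 11, 7, 2, 8, 10, 6, 3], .l [8, 1, 8, 0, 12], .y [6], .l [6, 9, 11, 9, 0], .l [6, 9, 11, 9, 0], .l [10, 3, 13], .l [2, 13, 6, 0, 9, 1, 9, 2, 7, 11, 7, 2, 3], .l [6, 12, 4, 0, 9, 15, 8, 1, 1, 10, 2, 0, 3], .l [13, 6, 13], .l [13, 6, 5], .l [2, 15, 8, 0, 11, 1, 11, 2, 9, 11, 5, 2, 5], .l [6, 14, 6, 0, 11, 4, 0,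 3, 8, 6, 10, 6, 1], .l [15, 8, 5], .l [6, 14, 6, 0, 11, 4, 0, 3, 8, 6, 8, 4, 1], .l [6, 16, 10, 2, 12, 11, 0, 4, 6, 4, 7, 7, 5], .l [6, 16, 10, 2, 12, 11, 0, 4, 6, 4, 7], .l [17, 10, 5]]),
([p 4 0, g, m 0 1, g, m 1 2, g, m 2 3, g, s 0 0, p 7 4, m 3 5, g, m 5 0, p 6 0, g, p 0 6, g, s 0 7, g], .hi 8, [.l [10, 12, 9, 9, 7, 7, 5, 1, 5, 7, 5, 0, 9], .l [10, 12, 9, 5, 9, 11, 9, 0, 13], .l [10, 7, 10, 0, 16], .l [8, 5, 5, 3, 3, 1, 4, 0, 10], .l [4, 9, 14, 11, 3, 7, 10, 12, 10, 7, 4], .l [10, 12, 9, 3, 9, 11, 9, 0, 13], .l [10, 5, 7, 5, 5, 3, 6, 0, 12], .l [10, 3, 10, 0, 16, 12, 3, 5, 1, 10, 8, 8, 4], .l [10, 12, 9, 1, 9, 11, 9, 0, 13], .l [10, 3, 5, 3, 8, 0, 14], .l [8, 12, 9, 9, 7, 7, 5, 7, 3, 11, 6, 9, 6], .l [8, 12, 9, 9,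 7, 7, 5, 10, 3, 6, 11, 3, 9, 2, 5], .l [10, 1, 10, 0, 16], .y [8], .l [8, 11, 13, 11, 0], .l [8, 11, 13, 11, 0], .l [12, 3, 17], .l [2, 4, 3, 14, 6, 15, 3, 13, 7, 6, 6, 4, 7], .l [2, 8, 14, 10, 3, 5, 8, 12, 10, 5, 2], .l [15, 6, 17], .l [2, 8, 14, 10, 3, 5, 8, 10, 8, 5, 2], .l [5, 6, 4, 15, 8, 14, 4, 0, 11, 8, 9, 9, 6], .l [18, 1, 8, 16, 15], .l [17, 8, 17], .l [17, 8, 7], .l [2, 13, 17, 12, 17, 13, 3, 8, 11, 8, 6, 8, 5], .l [2, 13, 17, 12, 17, 13, 3, 8, 11, 8, 6, 8, 5], .l [19, 10, 7]]),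
([p 3 0, g, m 0 1, g, m 1 2, g, s 0 0, p 6 3, m 2 4, g, m 4 0, p 5 0, g, p 0 5, g, s 0 6, g], .lo 2, [.l [2, 1], .l [8, 13, 9, 1, 5, 8, 12, 10, 5, 0, 9], .l [4, 1], .r 3261 [7, 1, 2, 3, 4, 5, 6] [1, 1, 1, 1, 1, 1, 1, 1], .l [8, 10, 7, 7, 3, 5, 1, 7, 5, 0, 9], .l [4, 1], .l [2, 3], .l [8, 10, 5, 5, 3, 5, 1, 7, 5, 0, 9], .l [6, 3], .l [2, 5], .l [6, 3, 3, 1, 4, 0, 10], .l [2, 9, 11, 9, 4], .l [10, 7], .l [2, 9], .y [2, 4, 8, 10], .l [11, 8], .l [2, 12, 5, 15, 5, 13, 7, 6, 6, 4, 5], .l [13, 10], .l [2, 12], .l [16, 1, 12, 12, 10, 10, 6, 7, 10, 9, 4], .l [15, 12], .l [2, 14], .l [11, 15, 10, 11, 8, 8, 6, 6, 11, 8, 6, 8, 3], .l [17, 14], .l [2, 16]]),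
([p 3 0, g, m 0 1, g, m 1 2, g, s 0 0, p 5 3, m 2 4, g, m 4 0, p 0 0, g, s 0 5, g], .lo 11, [.l [0, 10], .l [14, 5, 14, 13, 7, 6, 6, 4, 7], .l [2, 12], .l [1, 9, 7, 11], .l [6, 10, 9, 9, 5, 7, 8, 5, 2], .l [4, 12], .l [3, 6, 4, 7, 5, 9], .l [6, 12, 7, 5, 8, 8, 6, 5, 2], .l [6, 12], .l [5, 9, 3, 11], .l [6, 10, 1, 2, 0, 6, 4, 0, 7], .l [10, 12, 9], .l [10, 12], .l [9, 12, 10, 10, 6, 6, 4, 7, 5, 6], .l [9, 10, 8, 8, 4, 4, 2, 5, 3, 4], .y [11], .l [14, 7, 14, 13, 9, 8, 8, 6, 1], .r 3262 [1, 2, 3, 4, 6, 5] [1, 1, 1, 1, 1, 1, 1], .l [14, 7, 14, 13, 9, 8, 8, 6, 1], .l [12, 5, 12, 11, 7, 6, 6, 4, 9], .r 3260 [1, 2, 3, 4, 5, 6] [1, 1, 1, 1, 1, 1, 1], .l [12, 5, 12, 11, 7, 6, 6, 4, 9]])]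

def d12_3 : List (List Item × Qry × List Rf) := [
([p 2 0, g, m 0 1, g, s 0 0, p 4 2, m 1 3, g, m 3 0, p 0 0, g, s 0 4, g], .lo 2, [.l [2, 1], .r 3259 [5, 1, 2, 3, 4] [1, 1, 1, 1, 1, 1], .l [4, 1], .r 3263 [5, 1, 2, 3, 4] [1, 1, 1, 1, 1, 1], .l [6, 8, 3, 5, 1, 7, 5, 0, 7], .l [4, 1], .l [2, 3], .l [4, 1, 4, 0, 8], .l [2, 7, 9, 7, 2], .l [8, 5], .l [2, 7], .y [2, 6, 8], .l [9, 6], .l [12, 1, 8, 8, 4, 5, 8, 7, 2], .l [11, 8], .l [2, 10], .r 3255 [1, 2, 3, 4, 5] [1, 2, 1, 1, 1, 1], .l [13, 10], .l [2, 12]]),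
([p 2 0, g, m 0 1, g, p 4 2, m 1 3, g, m 3 0, p 0 0, g, s 0 4, g], .bot 3, [.r 2849 [2] [1, 7], .r 3264 [1, 2, 3, 4] [1, 1, 1, 1, 1], .r 1201 [2] [3, 7], .r 2849 [2] [3, 7]]),
([p 3 0, g, m 0 1, g, m 0 2, g, p 5 3, m 2 4, g, m 4 0, s 1 0, g, s 0 5, g], .hi 10, [.l [6, 12, 9, 6, 9, 4, 2, 6, 1], .l [6, 12, 9, 6, 9, 4, 2, 6, 1], .l [7, 12, 8, 4, 0, 10, 1, 4, 4, 2, 3], .y [2, 10], .l [6, 12, 9, 6, 9, 4, 2, 6, 1], .l [6, 12, 9, 6, 9, 4, 2, 6, 1], .l [13, 5, 12, 11, 5, 4, 4, 2, 3], .l [3, 10, 5, 1, 5, 2, 2, 0, 3], .l [3, 12, 5, 1, 7, 4, 4, 2, 5], .l [5, 12, 8, 5, 8, 7, 2, 4, 5], .l [3, 12, 5, 1, 7, 4, 4, 2, 5], .l [9, 11, 8], .l [4, 12, 9, 4, 9, 4, 2, 6, 1], .l [9, 11, 8], .l [4, 10, 7, 4, 7, 9, 7, 4, 1], .l [5, 10, 6, 3, 6,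 1, 7, 5, 3, 0, 5], .l [4, 10, 7, 4, 7, 9, 7, 4, 1], .l [5, 10, 6, 3, 6, 5, 0, 6, 6, 2, 3], .l [4, 10, 7, 4, 7, 11, 9, 4, 1], .l [5, 10, 6, 2, 0, 8, 1, 4, 4, 2, 5], .l [4, 10, 7, 4, 7, 11, 9, 4, 1]]),
([p 3 0, g, s 0 1, g, m 1 2, g, p 6 3, m 2 4, g, m 4 0, s 7 5, g, s 0 6, g, s 0 7, g, m 5 0, g], .lo 2, [.l [0, 1, 3, 1, 3, 1, 3, 1, 1, 4, 8, 6, 1], .l [7, 16, 3, 12, 1, 5, 10, 12, 8, 5, 0, 7], .l [2, 3, 5, 1, 5, 1, 5, 1, 3, 6, 10, 8, 1], .l [6, 1, 7, 1, 7, 1, 3, 1, 10, 3, 10, 6, 3], .l [7, 16, 3, 12, 1, 5, 10, 12, 8, 5, 0, 7], .l [7, 9, 7, 7, 3, 5, 1, 5, 3, 0, 5], .l [3, 9, 10, 9, 4, 5, 12, 3, 12, 8, 3, 3, 1], .l [4, 1, 5, 3, 6, 2, 13, 5, 8, 9, 6, 1], .l [4, 1, 5, 3, 6, 2, 1, 3, 10, 3, 10, 6, 3], .l [4, 1, 7, 3, 7, 1, 5,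 3, 10, 3, 10, 6, 1], .l [2, 8, 10, 8, 3], .l [4, 1, 8, 6, 6, 1, 6, 4, 1], .l [2, 8, 10, 8, 3], .y [2, 4, 7, 9], .l [4, 1, 11, 9, 9, 4, 5, 7, 1, 5, 2, 5], .l [4, 1, 5, 1, 5, 1, 8, 6, 10, 5, 10, 4, 7], .l [4, 1, 5, 1, 5, 1, 1, 6, 10, 8, 3, 9, 1], .l [4, 1, 13, 11, 11, 6, 11, 8, 11, 2, 6, 1], .l [4, 1, 5, 1, 5, 1, 10, 8, 10, 5, 10, 4, 5], .l [4, 1, 5, 1, 5, 1, 1, 8, 10, 6, 3, 9, 3], .l [5, 10, 12, 14, 8, 3, 8, 12, 8, 3, 0, 3], .l [4, 1, 5, 1, 5, 1, 12, 10, 12, 7, 5, 6, 3], .l [4, 1, 5, 1, 5, 1, 1, 10, 1, 3, 10, 6, 3], .l [4, 1, 5, 1, 5, 1, 1, 10, 1, 3, 8, 4, 3], .l [18, 15, 15, 13, 13, 10, 11, 6, 3, 6, 9, 7, 4, 1], .l [4, 1, 5, 1, 5, 1, 3, 6, 10, 8, 1, 9, 7], .l [4, 1, 5, 1, 5, 1, 3, 6, 10, 8, 1, 1, 7]]),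
([p 2 0, g, m 0 1, g, p 5 2, m 1 3, g, m 3 0, s 6 4, g, s 0 5, g, s 0 6, g, m 4 0, g], .lo 2, [.l [2, 1], .r 3267 [7, 1, 2, 3, 4, 5, 6] [1, 1, 1, 1, 1, 1, 1, 1], .l [4, 1], .l [5, 7, 5, 5, 3, 3, 9, 3, 10, 6, 3, 0, 5], .l [5, 7, 3, 5, 1, 5, 3, 0, 5], .l [4, 1], .l [2, 3], .l [2, 6, 8, 6, 1], .l [7, 4], .l [2, 6], .y [2, 5, 7], .l [2, 9, 5, 1, 7, 13, 9, 2, 9], .l [10, 7], .l [2, 9], .l [2, 11, 7, 1, 9, 13, 7, 2, 9], .l [12, 9], .l [2, 11], .l [2, 13, 9, 1, 11, 13, 5, 2, 9], .l [14, 11], .l [2, 13], .l [2, 13], .l [16, 13, 13, 10, 11, 6, 3, 6, 9, 7, 4, 1], .l [16, 13], .l [2, 15]]),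
([p 2 0, g, m 0 1, g, p 4 2, m 1 3, g, m 3 0, s 5 0, g, s 0 4, g, s 0 5, g], .hi 8, [.l [5, 10, 6, 3, 6, 10, 8, 3, 0, 3], .l [4, 10, 7, 4, 7, 11, 9, 4, 1], .l [10, 7, 9, 5, 7, 6, 6, 4, 7], .l [8, 5, 5, 2, 2, 0, 7], .l [4, 9, 6, 4, 5, 4, 1], .l [5, 1, 8, 5, 3, 4, 3, 0, 5], .l [10, 5, 7, 4, 4, 2, 9], .l [7, 9, 6], .l [6, 12, 9, 9, 5, 2, 7], .l [7, 9, 6], .l [3, 8, 12, 9, 3, 5, 8, 5, 0, 1], .l [11, 7, 10, 9, 7, 6, 6, 4, 1], .l [2, 8, 13, 10, 4, 6, 9, 6, 1], .l [3, 8, 10, 7, 3, 5, 6, 3, 0, 3], .l [3, 8, 12, 9, 3, 7, 8, 3, 0, 3], .l [9, 5, 8, 7, 5, 4, 4, 2, 5], .l [2, 8, 13, 10, 4, 8, 9, 4, 1], .y [8, 12], .l [3, 8, 12, 9, 3, 7, 8, 3, 0, 3], .l [9, 5, 8, 7, 5, 4, 4, 2, 7], .r 3268 [1, 2, 3, 6, 4, 5] [1, 1, 1, 1, 1, 1, 1]]),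
([p 3 0, g, s 0 1, g, m 1 2, g, p 7 3, m 2 4, g, m 4 0, s 6 5, g, s 0 6, g, s 5 7, g], .hi 9, [.l [2, 10, 10, 8, 5], .l [1, 8, 6, 9], .l [2, 10], .y [2, 4, 7, 9], .l [4, 10, 10, 8, 3], .l [3, 8, 4, 9], .l [4, 10], .l [6, 10, 10, 8, 1], .l [5, 8, 2, 9], .l [6, 10], .l [10, 4, 14, 11, 6, 11, 4], .l [8, 11, 9, 9, 6, 8, 4, 1], .l [9, 10], .l [4, 1, 9, 13, 3, 10, 11, 8, 9, 5, 7, 2, 2, 3], .l [8, 9, 7, 7, 4, 6, 2, 7], .l [4, 1, 9, 10, 8, 13, 10, 11, 7, 9, 2, 6, 3], .l [8, 10, 12, 12, 7, 7, 1, 8, 8, 0, 5, 5, 3], .l [4, 1, 9, 13, 1, 10, 11, 8, 9, 5, 7, 2, 2, 3], .l [8, 9, 7, 7, 4, 6, 2, 9], .l [5, 7, 5, 10, 1, 10, 7, 7, 5, 0, 7, 7, 5], .l [4, 1, 13, 3, 13, 8, 9, 6, 7, 3, 5, 2, 2, 3], .l [8, 9, 7, 7, 4, 6, 2, 11], .l [3, 14, 3,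 14, 9, 10, 7, 8, 6, 4, 5, 0, 5]]),
([p 3 0, g, s 0 1, g, m 1 2, g, p 7 3, m 2 4, g, m 4 0, s 6 5, g, s 0 6, g, s 0 7, g, m 5 0, g], .lo 2, [.l [0, 1, 3, 1, 3, 1, 3, 1, 1, 6, 8, 4, 1], .l [7, 14, 1, 10, 1, 5, 8, 12, 10, 5, 0, 5], .l [2, 3, 5, 1, 5, 1, 5, 1, 3, 8, 10, 6, 1], .l [6, 1, 7, 1, 7, 1, 3, 1, 8, 1, 10, 8, 3], .l [7, 14, 1, 10, 1, 5, 8, 12, 10, 5, 0, 5], .l [7, 9, 7, 7, 3, 5, 1, 5, 3, 0, 7], .l [3, 9, 10, 9, 4, 5, 10, 1, 12, 10, 3, 3, 1], .l [4, 1, 5, 3, 6, 2, 13, 5, 8, 9, 6, 3], .l [4, 1, 5, 3, 6, 2, 1, 3, 8, 1, 10, 8, 3], .l [4, 1, 7, 3, 7, 1, 5, 3, 8, 1, 10, 8, 1], .l [2, 8, 10, 8, 3], .l [4, 1, 8, 6, 6, 1, 6, 4, 1], .l [2, 8, 10, 8, 3], .y [2, 4, 7, 9], .l [4, 1, 11, 9, 9, 4, 5, 9, 3, 7, 2, 3], .l [4, 1, 5,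 1, 5, 1, 8, 6, 8, 3, 10, 6, 7], .l [4, 1, 5, 1, 5, 1, 1, 6, 8, 6, 3, 9, 3], .l [4, 1, 13, 11, 11, 6, 7, 9, 1, 7, 4, 1], .l [4, 1, 5, 1, 5, 1, 10, 8, 12, 7, 3, 6, 3], .l [4, 1, 5, 1, 5, 1, 1, 8, 1, 1, 10, 8, 3], .l [5, 10, 10, 14, 10, 3, 10, 12, 6, 3, 0, 5], .l [4, 1, 5, 1, 5, 1, 12, 10, 12, 7, 5, 6, 1], .l [4, 1, 5, 1, 5, 1, 1, 10, 3, 3, 10, 6, 3], .l [4, 1, 5, 1, 5, 1, 1, 10, 3, 3, 8, 4, 3], .l [18, 15, 15, 13, 13, 10, 11, 4, 1, 6, 9, 5, 2, 5], .l [4, 1, 5, 1, 5, 1, 3, 8, 10, 6, 1, 9, 7], .l [4, 1, 5, 1, 5, 1, 3, 8, 10, 6, 1, 1, 7]]),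
([p 3 0, g, s 0 1, g, m 1 2, g, p 7 3, m 2 4, g, m 4 0, s 6 5, g, s 0 6, g, m 5 0, g, s 0 7, g], .lo 2, [.l [0, 1, 3, 1, 4, 5, 4, 1, 6, 1, 6, 4, 1], .l [7, 14, 1, 10, 1, 5, 8, 10, 8, 5, 0, 7], .l [2, 3, 5, 1, 6, 7, 6, 1, 8, 1, 8, 6, 1], .l [6, 1, 7, 1, 7, 1, 3, 1, 8, 1, 8, 6, 3], .l [7, 14, 1, 10, 1, 5, 8, 10, 8, 5, 0, 7], .l [7, 9, 7, 7, 3, 5, 1, 5, 3, 0, 9], .l [3, 9, 10, 9, 4, 5, 10, 1, 10, 8, 3, 3, 1], .l [4, 1, 5, 3, 6, 2, 11, 3, 6, 7, 4, 1], .l [4, 1, 5, 3, 6, 2, 1, 3, 8, 1, 8, 6, 3], .l [4, 1, 7, 3, 7, 1, 5, 3, 8, 1, 8, 6, 1], .l [2, 8, 10, 8, 3], .l [4, 1, 8, 6, 6, 1, 6, 4, 1], .l [2, 8, 10, 8, 3], .y [2, 4, 7, 9], .l [2, 11, 17, 11, 15, 7, 4, 11, 8, 2, 8, 1], .l [4, 1, 5, 1, 5, 1, 8, 6, 8, 3, 8, 4, 5], .l [2,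 11, 5, 15, 7, 13, 5, 4, 4, 2, 3, 7, 5], .l [4, 1, 13, 11, 11, 6, 7, 11, 3, 9, 4, 1], .l [4, 1, 5, 1, 5, 1, 10, 8, 10, 5, 3, 4, 1], .l [2, 13, 7, 15, 5, 13, 7, 6, 6, 4, 5, 7, 5], .l [2, 13, 7, 13, 3, 11, 7, 6, 6, 4, 5, 5, 3], .l [4, 1, 15, 13, 13, 8, 9, 11, 1, 9, 6, 1], .l [4, 1, 15, 13, 13, 8, 9, 11, 1, 9, 6], .l [4, 1, 6, 7, 6, 1, 8, 1, 8, 6, 1, 1, 5], .l [12, 1, 15, 9, 15, 11, 6, 11, 8, 4, 8, 5], .l [4, 1, 6, 7, 6, 1, 8, 1, 8, 6, 1, 9, 7], .l [4, 1, 6, 7, 6, 1, 8, 1, 8, 6, 1, 1, 7]]),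
([p 3 0, g, s 0 1, g, m 1 2, g, p 6 3, m 2 4, g, m 4 0, s 5 0, g, s 0 5, g, s 0 6, g], .hi 10, [.l [6, 1, 11, 7, 9, 4, 5, 9, 3, 7, 2, 3], .l [6, 1, 7, 1, 7, 1, 3, 6, 3], .l [12, 9, 11, 5, 7, 6, 6, 4, 7], .l [4, 1, 5, 1, 5, 1, 1, 4, 3], .l [7, 9, 7, 7, 3, 5, 6, 3, 0, 7], .l [6, 12, 9, 6, 9, 11, 9, 6, 1], .l [12, 7, 11, 7, 9, 8, 8, 6, 7], .l [6, 11, 8, 6, 7, 6, 1], .l [4, 1, 7, 3, 7, 1, 5, 6, 1], .l [12, 5, 7, 4, 4, 2, 9], .l [9, 11, 8], .l [8, 16, 13, 13, 7, 2, 11], .l [9, 11, 8], .l [5, 10, 12, 9, 5, 7, 8, 5, 0, 7], .l [15, 9, 14, 13, 9, 8, 8, 6, 1], .l [4, 10, 13, 10, 6, 8, 9, 6, 1], .y [10, 12], .l [5, 10, 12, 9, 5, 7, 8, 5, 0, 7], .l [15, 9, 14, 13, 9, 8, 8, 6, 3], .r 3272 [1, 2, 3, 4, 7, 5, 6] [1, 1, 1, 1, 1, 1, 1,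 1], .r 3270 [1, 2, 3, 4, 7, 5, 6] [1, 1, 1, 1, 1, 1, 1], .l [5, 10, 14, 11, 5, 7, 10, 7, 0, 3], .l [13, 7, 12, 11, 7, 6, 6, 4, 9], .r 3271 [1, 2, 3, 4, 7, 5, 6] [1, 1, 1, 1, 1, 1, 1, 1]]),
([p 2 0, g, m 6 1, g, p 5 2, m 1 3, g, m 3 0, s 4 0, g, s 0 4, g, s 0 5, g, s 0 6, g], .hi 8, [.l [5, 7, 5, 5, 12, 8, 2, 9, 0, 1], .l [3, 16, 11, 1, 11, 8, 8, 6, 9], .l [10, 7, 9, 5, 7, 6, 6, 4, 5], .l [4, 9, 6, 4, 5, 4, 1], .l [1, 16, 13, 3, 13, 8, 8, 6, 7], .l [10, 5, 7, 4, 4, 2, 7], .l [7, 9, 6], .l [6, 14, 11, 11, 7, 2, 9], .l [7, 9, 6], .l [3, 8, 10, 7, 3, 5, 6, 3, 0, 5], .l [16, 13, 13, 10, 10, 8, 1], .l [2, 8, 11, 8, 4, 6, 7, 4, 1], .y [8, 10], .l [3, 8, 10, 7, 3, 5, 6, 3, 0, 5], .l [16, 13, 13, 10, 10, 8, 3], .l [10, 1, 13, 7,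 8, 6, 6, 9, 6, 4, 6, 3], .l [8, 11, 13, 7, 7, 4, 5, 2, 7, 4, 4, 1], .l [3, 8, 12, 9, 3, 5, 8, 5, 0, 1], .l [16, 13, 13, 10, 10, 8, 5], .l [16, 13, 13, 10, 11, 4, 1, 6, 9, 5, 2, 5], .l [14, 11, 11, 8, 8, 6, 5], .l [3, 5, 3, 3, 10, 12, 6, 3, 0, 7], .l [14, 11, 11, 8, 8, 6, 11], .l [2, 13, 9, 1, 11, 13, 5, 2, 9]]),
([p 3 0, g, m 0 1, g, m 1 2, g, p 6 3, m 2 4, g, m 4 0, s 5 0, g, s 0 5, g, s 0 6, g], .hi 10, [.l [7, 9, 7, 10, 6, 3, 6, 8, 6, 3, 0, 5], .l [7, 9, 7, 10, 6, 2, 0, 10, 3, 6, 6, 4, 1], .l [12, 9, 11, 5, 7, 6, 6, 4, 7], .l [10, 7, 7, 5, 5, 2, 2, 0, 5], .l [6, 9, 8, 8, 4, 6, 7, 4, 1], .l [7, 12, 8, 10, 8, 2, 0, 10, 3, 6, 6, 4, 1], .l [12, 7, 9, 7, 7, 4, 4, 2, 7], .l [6, 11, 6, 4, 7, 7, 5, 4, 1], .l [7, 1, 10, 5, 3,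 6, 6, 4, 3, 0, 7], .l [12, 5, 7, 4, 4, 2, 9], .l [9, 11, 8], .l [8, 16, 13, 13, 7, 2, 11], .l [9, 11, 8], .l [5, 7, 5, 8, 10, 7, 3, 5, 6, 3, 0, 5], .l [15, 9, 14, 13, 9, 8, 8, 6, 1], .l [4, 7, 6, 9, 11, 8, 4, 6, 7, 4, 1], .y [10, 12], .l [5, 7, 5, 8, 10, 7, 3, 5, 6, 3, 0, 5], .l [15, 9, 14, 13, 9, 8, 8, 6, 3], .l [5, 7, 5, 5, 3, 3, 7, 1, 8, 6, 3, 0, 5], .l [10, 13, 10, 12, 10, 11, 9, 9, 7, 3, 4, 4, 1], .l [5, 7, 5, 8, 12, 9, 3, 5, 8, 5, 0, 1], .l [13, 7, 12, 11, 7, 6, 6, 4, 9], .l [5, 7, 5, 5, 3, 3, 7, 1, 10, 8, 3, 0, 3]]),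
([p 2 0, g, m 0 1, g, p 5 2, m 1 3, g, m 3 0, s 4 0, g, s 0 4, g, s 0 5, g], .lo 2, [.l [2, 1], .r 3273 [6, 1, 2, 3, 4, 5] [1, 1, 1, 1, 1, 1, 1], .l [4, 1], .r 3275 [6, 1, 2, 3, 4, 5] [1, 1, 1, 1, 1, 1, 1], .l [5, 7, 3, 5, 1, 5, 3, 0, 7], .l [4, 1], .l [2, 3], .l [2, 6, 8, 6, 1], .l [7, 4], .l [2, 6], .y [2, 5, 7], .l [8, 5, 5, 2, 2, 0, 5], .l [3, 5, 3, 3, 6, 8, 6, 3, 0, 5], .l [10, 7], .l [2, 9], .l [13, 1, 9, 9, 6, 7, 8, 7, 4], .l [12, 9], .l [2, 11], .r 3274 [1, 2, 3, 4, 5, 6] [1, 1, 1, 1, 1, 1, 1], .l [14, 11], .l [2, 13]]),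
([p 4 0, g, s 0 1, g, m 1 2, p 3 0, g, p 0 3, g, p 6 4, m 2 5, g, m 5 0, g, s 0 6, g], .hi 5, [.l [7, 4, 10, 3, 10, 3, 12, 5, 8, 4, 6, 2, 5], .l [7, 12, 10, 7, 9, 2, 8, 3, 8, 2, 5], .l [7, 4], .l [5, 2, 8, 3, 8, 1, 2, 0, 3], .l [7, 2, 10, 3, 10, 1, 4, 2, 5], .l [6, 12, 11, 11, 7, 2, 7, 2, 9, 6, 2, 6, 1], .l [7, 2], .l [7, 1, 8, 6, 1], .l [5, 6], .l [7, 1], .y [5, 7], .l [10, 12, 5, 10, 3, 3, 1, 9, 5, 0, 7], .l [5, 8], .l [9, 3], .l [5, 11, 13, 11, 3], .l [5, 11], .l [12, 6], .l [3, 14, 8, 3, 9, 4, 4, 2, 4, 2, 5], .l [5, 13], .l [14, 8], .l [3, 14, 8, 3, 9, 4, 4, 2, 4, 2, 5], .l [3, 16, 10, 3, 11, 6, 6, 4, 6, 2, 7], .l [5, 15], .l [16, 10]]),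
([p 3 0, g, s 0 1, g, m 1 2, p 0 0, g, p 5 3, m 2 4, g, m 4 0, g, s 0 5, g], .lo 5, [.l [0, 4], .l [1, 9, 7, 4, 1], .l [2, 6], .l [1, 9, 7, 4], .l [3, 9, 5, 2, 5], .l [4, 6], .l [3, 9, 5, 2], .y [5], .l [4, 1, 8, 4, 1], .r 3277 [1, 2, 6, 3, 4, 5] [1, 1, 1, 1, 1, 1, 1], .l [4, 1, 8, 4, 1], .l [4, 1, 6, 2, 7], .l [6, 10, 8, 1, 4, 0, 9], .l [4, 1, 6, 2, 7], .l [4, 1, 6, 2, 7], .l [4, 1, 6, 2, 9], .l [6, 12, 10, 1, 4, 0, 9], .l [4, 1, 6, 2, 9], .l [4, 1, 6, 2, 11], .l [6, 7, 0, 10, 12, 6, 1], .l [4, 1, 6, 2, 11]]),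
([p 4 0, g, s 0 1, g, m 1 2, m 0 3, g, m 3 0, g, p 6 4, m 2 5, g, m 5 0, g, s 0 6, g], .lo 5, [.l [5, 4], .l [7, 4, 10, 3, 10, 3, 12, 5, 8, 4, 6, 2, 5], .l [7, 4], .l [7, 12, 10, 7, 9, 2, 8, 3, 8, 2, 5], .l [7, 2, 10, 3, 10, 1, 4, 2, 5], .l [7, 2], .l [6, 12, 11, 11, 7, 2, 7, 2, 9, 6, 2, 6, 1], .l [7, 1, 8, 6, 1], .l [7, 1], .l [5, 6], .y [5, 7], .l [10, 12, 5, 10, 3, 3, 1, 9, 5, 0, 7], .l [9, 3], .l [5, 8], .l [5, 11, 13, 11, 3], .l [12, 6], .l [5, 11], .l [5, 11], .l [3, 14, 8, 3, 9, 4, 4, 2, 4, 2, 5], .l [14, 8], .l [5, 13], .l [3, 16, 10, 3, 11, 6, 6, 4, 6, 2, 7], .l [16, 10], .l [5, 15]]),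
([p 3 0, g, s 0 1, g, m 1 2, m 0 0, g, p 5 3, m 2 4, g, m 4 0, g, s 0 5, g], .hi 5, [.l [1, 9, 7, 4, 1], .l [1, 9, 7, 4], .l [2, 6], .l [1, 7, 5, 2, 1], .l [3, 9, 5, 2, 5], .l [3, 9, 5, 2], .l [4, 6], .y [5], .l [4, 1, 8, 4, 1], .l [4, 1, 8, 4, 1], .r 3279 [1, 2, 6, 3, 4, 5] [1, 1, 1, 1, 1, 1, 1], .l [4, 1, 6, 2, 7], .l [4, 1, 6, 2, 7], .l [6, 10, 8, 1, 4, 0, 9], .l [4, 1, 6, 2, 9], .l [4, 1, 6, 2, 9], .l [6, 12, 10, 1, 4, 0, 9], .l [4, 1, 6, 2, 9], .l [4, 1, 6, 2, 11], .l [4, 1, 6, 2, 11], .l [6, 7, 0, 10, 12, 6, 1]]),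
([p 3 0, g, s 0 1, g, m 1 2, s 0 0, g, p 5 3, m 2 4, g, m 4 0, s 6 0, g, s 0 5, g, p 0 6, g], .hi 5, [.l [8, 10, 7, 3, 6, 8, 7, 0, 8, 10, 8, 3], .l [1, 9, 7, 4, 1], .l [2, 6, 1], .l [1, 7, 5, 2, 1], .l [8, 10, 7, 1, 6, 8, 7, 0, 8, 10, 8, 3], .l [3, 9, 5, 2, 5], .l [4, 6, 3], .y [5], .l [4, 1, 8, 4, 1, 7, 1, 3, 8, 10, 8, 3], .l [4, 1, 8, 4, 1], .l [8, 10, 5, 8, 1, 8, 5, 0, 8], .l [5, 9, 11, 9, 1], .l [4, 1, 6, 2, 7], .l [6, 8, 5, 8, 1, 8, 5, 0, 8], .l [4, 1, 7, 8, 7, 2, 8, 12, 10, 1], .l [4, 1, 6, 2, 10], .l [4, 13, 7, 2, 10, 14, 7, 2, 8], .l [4, 1, 7, 8, 7, 2, 8, 10, 8, 1], .l [4, 1, 7, 8, 7, 2, 10, 12, 8, 1], .l [4, 1, 6, 2, 12], .l [4, 15, 9, 2, 12, 14, 5, 2, 8], .l [4, 1, 6, 2, 12], .l [6, 8, 5, 4, 0, 9, 13, 8, 1, 5,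 8, 3], .l [4, 1, 6, 2, 14], .l [6, 8, 5, 4, 0, 9, 13, 8, 1, 5, 8, 3]]),
([p 3 0, g, s 0 1, g, m 1 2, g, p 5 3, m 2 4, g, m 4 0, s 6 0, g, s 0 5, g, p 0 6, g], .top 5, [.l [4, 1, 4, 0, 8], .r 3281 [1, 2, 3, 4, 5, 6] [1, 1, 1, 1, 1, 1, 1], .r 3278 [1, 2, 3, 4, 5] [1, 1, 1, 1, 2, 3], .r 3280 [1, 2, 3, 4, 5] [1, 1, 1, 1, 2, 3]]),
([p 3 0, g, m 0 1, g, m 1 2, g, p 5 3, m 2 4, g, m 4 0, s 6 0, g, s 0 5, g, p 0 6, g], .hi 9, [.l [2, 10, 10, 8, 5], .l [1, 8, 6, 9], .l [2, 10], .y [2, 4, 7, 9], .l [4, 10, 10, 8, 3], .l [3, 6, 4, 6, 4, 7], .l [4, 10], .l [6, 10, 10, 8, 1], .l [5, 8, 2, 9], .l [6, 10], .l [8, 14, 11, 12, 10, 10, 8, 10, 2, 5, 2, 6, 1], .l [8, 11, 9, 9, 6, 6, 4, 6, 4, 1], .l [9, 10], .l [8, 14, 11, 11, 5, 2, 12, 10,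 7, 7, 5, 5, 3], .l [8, 9, 7, 7, 4, 4, 2, 4, 2, 5], .l [16, 5, 9, 5, 2, 5, 11, 9, 2], .l [3, 4, 2, 12, 3, 4, 2, 5, 2, 2, 0, 4, 3], .l [8, 12, 9, 9, 3, 10, 12, 2, 9, 9, 7, 7, 5], .l [8, 9, 7, 7, 4, 4, 2, 4, 2, 7], .l [3, 4, 2, 14, 5, 6, 2, 7, 2, 4, 2, 6, 3], .l [8, 9, 7, 7, 4, 4, 2, 4, 2, 7], .l [8, 12, 9, 10, 8, 7, 3, 10, 3, 8, 5, 1, 5], .l [8, 9, 7, 7, 4, 4, 2, 4, 2, 9], .l [5, 7, 5, 5, 3, 10, 3, 10, 5, 5, 3, 0, 5]]),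
([p 2 0, g, m 6 1, g, p 4 2, m 1 3, g, m 3 0, s 5 0, g, s 0 4, g, p 0 5, g, s 0 6, g], .hi 8, [.l [4, 10, 7, 4, 7, 11, 9, 4, 1], .l [3, 16, 11, 1, 11, 8, 8, 6, 9], .l [16, 11, 11, 8, 8, 6, 9], .l [2, 10, 5, 2, 7, 11, 7, 2, 7], .l [1, 16, 13, 3, 13, 8, 8, 6, 7], .l [16, 13, 13, 8, 8, 6, 9], .l [7, 9, 6], .l [6, 12, 9, 9, 5, 2, 7], .l [7, 9, 6], .l [16, 13, 13, 10, 11, 4, 1, 6, 9, 5, 2, 5], .l [16, 13, 13, 10, 10, 8, 1], .l [3, 5, 3, 3, 7, 1, 10, 8, 3, 0, 3], .l [14, 11, 13, 11, 9, 8, 8, 6, 1, 7, 5, 5, 3], .l [16, 13, 13, 10, 11, 6, 3, 6, 9, 7, 4, 1], .l [16, 13, 13, 10, 10, 8, 3], .l [3, 5, 3, 3, 12, 5, 9, 2, 9, 6, 3, 1, 1], .y [8, 12], .l [2, 8, 13, 10, 4, 8, 9, 4, 1], .l [16, 13, 13, 10, 10, 8, 5], .l [3, 5, 3, 3, 12,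 5, 9, 2, 9, 6, 3, 1, 1], .l [14, 11, 11, 8, 8, 6, 5], .l [2, 8, 15, 12, 4, 8, 11, 6, 1], .l [14, 11, 11, 8, 8, 6, 11], .l [2, 13, 9, 1, 11, 13, 5, 2, 9]]),
([p 2 0, g, m 0 1, g, p 4 2, m 1 3, g, m 3 0, s 5 0, g, s 0 4, g, p 0 5, g], .lo 2, [.l [2, 1], .r 3282 [6, 1, 2, 3, 4, 5] [1, 1, 1, 1, 1, 1, 1], .l [4, 1], .r 3283 [6, 1, 2, 3, 4, 5] [1, 1, 1, 1, 1, 1, 1], .l [5, 7, 3, 5, 1, 5, 3, 0, 5], .l [4, 1], .l [2, 3], .l [2, 6, 8, 6, 1], .l [7, 4], .l [2, 6], .y [2, 5, 7], .l [2, 7, 6, 4, 5, 4, 1], .l [2, 9, 5, 1, 7, 11, 7, 2, 7], .l [10, 7], .l [2, 9], .l [2, 11, 7, 1, 9, 11, 5, 2, 7], .l [12, 9], .l [2, 11], .r 3284 [1, 2, 3, 4, 5, 6] [1, 1, 1, 1, 1, 1, 1], .l [14, 11], .l [2, 13]]),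
([p 3 0, g, s 0 1, g, m 0 2, g, p 5 3, m 2 4, g, m 4 0, s 1 0, g, s 0 5, g], .hi 10, [.l [7, 12, 8, 5, 8, 4, 2, 5, 0, 5], .l [6, 12, 9, 6, 9, 4, 2, 6, 1], .l [12, 7, 11, 7, 9, 8, 8, 6, 1], .y [2, 10], .l [7, 12, 8, 5, 8, 4, 2, 5, 0, 5], .l [6, 12, 9, 6, 9, 4, 2, 6, 1], .l [12, 9, 11, 5, 7, 6, 6, 4, 5], .l [10, 7, 9, 5, 7, 6, 6, 4, 3], .l [6, 11, 8, 6, 7, 6, 1], .l [5, 12, 8, 5, 8, 7, 2, 4, 5], .l [12, 9, 11, 5, 9, 8, 8, 6, 3], .l [9, 11, 8], .l [2, 11, 11, 8, 10, 8, 3], .l [9, 11, 8], .l [5, 10, 6, 3, 6, 8, 6, 3, 0, 5], .l [10, 7, 9, 5, 7, 6, 6, 4, 5], .l [4, 10, 7, 4, 7, 9, 7, 4, 1], .l [5, 10, 6, 3, 6, 8, 6, 3, 0, 3], .l [5, 10, 6, 3, 6, 10, 8, 3, 0, 3], .l [10, 7, 9, 5, 7, 6, 6, 4, 7], .l [4, 10, 7, 4, 7, 11, 9, 4,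 1]]),
([p 2 0, g, m 0 1, g, p 7 2, m 1 3, g, m 3 4, s 6 5, g, s 5 0, g, p 0 6, g, s 0 7, g, s 4 0, g], .hi 16, [.l [2, 17, 17, 8, 8, 6, 3], .l [1, 6, 4, 16, 16, 7, 10, 1, 10, 8, 5, 5, 1], .l [2, 17, 17, 8, 8, 6, 3], .y [2, 5, 7, 16], .l [4, 17, 17, 8, 8, 6, 1], .l [3, 6, 2, 16, 16, 7, 10, 1, 10, 8, 5, 5, 3], .l [4, 17, 17, 8, 8, 6, 1], .l [8, 4, 14, 11, 14, 14, 4, 11, 6, 1], .l [6, 12, 1, 12, 10, 7, 7, 4, 6, 4, 9, 9, 1], .l [3, 7, 16, 14, 3, 10, 3, 12, 7, 7, 5, 0, 1], .l [3, 10, 16, 11, 3, 5, 10, 7, 0, 3], .l [4, 5, 2, 13, 5, 6, 13, 6, 2, 10, 1, 9, 5], .l [6, 12, 3, 12, 8, 5, 5, 2, 4, 2, 9, 9, 5], .l [3, 8, 8, 10, 14, 9, 3, 5, 8, 5, 0, 1], .l [6, 10, 1, 12, 10, 5, 5, 2, 4, 2, 9, 9, 3], .l [2, 12, 17, 10, 4, 6, 9, 6, 1],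 .l [6, 10, 1, 10, 8, 5, 5, 2, 4, 2, 7, 7, 3], .l [3, 10, 1, 16, 3, 11, 3, 5, 10, 7, 0, 3], .l [6, 10, 1, 10, 8, 5, 5, 2, 4, 2, 9, 9, 5], .l [2, 10, 1, 17, 3, 12, 4, 6, 11, 8, 1, 3, 5], .l [1, 16, 1, 11, 9, 9, 2, 2, 0, 8, 7], .l [3, 10, 1, 16, 1, 11, 3, 5, 10, 7, 0, 1], .l [6, 10, 1, 10, 8, 5, 5, 2, 4, 2, 9, 9, 7], .l [1, 18, 1, 13, 9, 11, 4, 4, 2, 10, 7], .l [18, 1, 13, 9, 6, 9, 13, 11, 6, 1], .l [6, 10, 1, 10, 8, 5, 5, 2, 4, 2, 7, 7, 7], .l [6, 10, 1, 10, 8, 5, 5, 2, 4, 2, 7, 9, 1]]),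
([p 2 0, g, m 0 1, g, p 6 2, m 1 3, g, m 3 0, s 5 4, g, s 4 0, g, p 0 5, g, s 0 6, g], .hi 7, [.l [2, 8, 8, 6, 3], .l [1, 6, 4, 7], .l [2, 8], .y [2, 5, 7], .l [4, 8, 8, 6, 1], .l [3, 6, 2, 7], .l [4, 8], .l [8, 4, 14, 11, 4, 11, 6], .l [6, 9, 7, 7, 4, 6, 4, 1], .l [7, 8], .l [14, 5, 9, 13, 10, 4, 8, 9, 4, 1], .l [6, 7, 5, 5, 2, 4, 2, 5], .l [6, 12, 3, 12, 8, 5, 5, 2, 4, 2, 5], .l [14, 5, 9, 13, 10, 2, 8, 9, 2, 3], .l [6, 7, 5, 5, 2, 4, 2, 7], .l [3, 5, 3, 8, 1, 10, 8, 6, 5, 5, 3, 0, 5], .l [6, 7, 5, 5, 2, 4, 2, 7], .l [10, 1, 13, 10, 13, 10, 5, 6, 8, 3], .l [6, 7, 5, 5, 2, 4, 2, 9], .l [3, 5, 3, 8, 1, 8, 6, 8, 7, 7, 5, 0, 5], .l [3, 4, 0, 12, 12, 5, 8, 1, 8, 6, 3, 3, 1], .r 3287 [1, 2, 3, 7, 4, 5, 6] [1, 1, 1, 1, 1, 1,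 1, 1], .l [6, 7, 5, 5, 2, 4, 2, 11], .l [3, 4, 0, 12, 14, 7, 10, 1, 10, 8, 5, 5, 3]]),
([p 2 0, g, m 0 1, g, p 5 2, m 1 3, g, m 3 0, s 4 0, g, p 0 4, g, s 0 5, g], .hi 8, [.l [4, 10, 7, 4, 7, 9, 7, 4, 1], .l [4, 10, 7, 4, 7, 9, 7, 4, 1], .l [10, 7, 9, 5, 7, 6, 10, 5, 1, 6, 3], .l [2, 7, 6, 4, 5, 4, 1], .l [2, 10, 5, 2, 7, 9, 5, 2, 5], .l [5, 1, 8, 5, 3, 4, 3, 0, 7], .l [2, 10, 5, 2, 7, 9, 5, 2, 5], .l [7, 9, 6], .l [6, 14, 11, 11, 7, 2, 9], .l [7, 9, 6], .r 3288 [1, 2, 3, 6, 4, 5] [1, 1, 1, 1, 1, 1, 1], .l [13, 9, 12, 11, 9, 8, 8, 6, 1], .l [3, 5, 3, 3, 7, 1, 8, 6, 3, 0, 5], .y [8, 10], .l [2, 8, 11, 8, 4, 6, 7, 4, 1], .l [2, 8, 11, 8, 4, 6, 7, 4, 1], .l [3, 5, 3, 3, 7, 1, 8, 6, 3, 0, 5], .l [2, 8, 11, 8, 4, 6, 7, 4, 1],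 .l [2, 8, 13, 10, 4, 6, 9, 6, 1], .l [2, 8, 13, 10, 4, 6, 9, 6, 1], .l [3, 5, 3, 3, 7, 1, 10, 8, 3, 0, 3]]),
([p 2 0, g, m 0 1, g, p 4 2, m 1 3, g, m 3 0, s 0 0, g, s 0 4, g], .lo 8, [.l [9, 5, 8, 7, 5, 4, 4, 2, 3], .r 3286 [5, 1, 2, 3, 4] [1, 1, 1, 1, 1, 1], .l [11, 5, 10, 9, 5, 4, 4, 2, 3], .r 3266 [5, 1, 2, 3, 4] [1, 1, 1, 1, 1, 1], .l [4, 9, 6, 4, 5, 4, 1], .l [4, 9, 6, 4, 5, 4, 1], .l [5, 1, 8, 5, 3, 4, 3, 0, 5], .l [7, 9, 6], .l [7, 9, 6], .l [6, 12, 9, 9, 5, 2, 7], .l [6, 10, 7, 7, 3, 0, 5], .y [8], .r 3276 [1, 2, 3, 5, 4] [1, 1, 1, 1, 1, 1], .r 3289 [1, 2, 3, 5, 4] [1, 1, 1, 1, 1, 1], .l [11, 7, 10, 9, 7, 6, 6, 4, 1], .r 3269 [1, 2, 3, 4, 5] [1, 1, 1, 1, 1, 1], .r 3285 [1, 2, 3, 4, 5] [1, 1, 1, 1, 1, 1], .l [9,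 5, 8, 7, 5, 4, 4, 2, 5]]),
([p 6 1, g, m 0 2, g, m 2 3, g, m 3 4, g, m 4 5, g, p 8 6, m 5 7, g, m 7 0, s 0 8, g, s 1 0, g], .lo 14, [.l [6, 12, 5, 1, 9, 10, 2, 6, 9, 4, 1], .l [18, 17, 17, 5, 7, 6, 6, 4, 11], .l [11, 13, 11, 11, 9, 9, 7, 10, 6, 3, 6, 5, 0, 2, 3], .l [18, 17, 17, 5, 7, 6, 6, 4, 9, 11, 9, 9, 7], .l [18, 17, 17, 5, 7, 6, 6, 4, 9], .l [11, 13, 11, 11, 9, 12, 8, 5, 8, 7, 0, 4, 5], .l [18, 17, 17, 5, 7, 6, 6, 4, 7, 9, 7, 7, 5], .l [18, 17, 17, 5, 7, 6, 6, 4, 7], .l [11, 13, 11, 14, 10, 7, 10, 9, 0, 6, 7], .l [9, 10, 6, 6, 4, 4, 2, 10, 5, 1, 7, 4, 4, 2, 3], .l [18, 17, 17, 5, 7, 6, 6, 4, 5], .l [11, 16, 12, 9, 12, 11, 0, 8, 9], .l [4, 12, 7, 1, 9, 10, 2, 4, 9, 6, 3], .l [18, 17, 17, 5, 9, 8, 8, 6, 3], .l [0,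 17, 2, 4, 2, 5, 2, 2, 11], .l [13, 15, 12], .l [13, 15, 12], .l [0, 17, 4, 2, 5, 2, 4, 2, 11], .l [0, 15, 2, 0, 3, 2, 2, 0, 9], .l [4, 10, 5, 1, 7, 8, 2, 13, 8, 8, 3, 6, 7, 4, 1], .l [4, 10, 5, 1, 7, 8, 2, 13, 8, 8, 3, 6, 7, 4, 1], .l [18, 17, 17, 7, 9, 8, 8, 6, 1], .y [0, 16, 14, 10], .l [4, 10, 5, 1, 7, 8, 2, 4, 9, 11, 9, 4, 1], .l [4, 10, 5, 1, 7, 8, 2, 4, 9, 11, 9, 4, 1], .l [16, 15, 15, 5, 7, 6, 6, 4, 11]]),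
([p 5 0, g, m 0 1, g, m 1 2, g, m 2 3, g, m 3 4, g, p 7 5, m 4 6, g, m 6 0, s 0 7, g], .hi 0, [.l [6, 12, 5, 1, 9, 10, 2, 6, 1, 1, 7, 4, 1], .l [0, 1], .l [2, 1], .l [2, 1], .l [4, 3, 11, 7, 9, 7, 7, 5, 5, 3, 5, 1, 3, 4, 1], .l [0, 3], .l [4, 3], .l [6, 5, 11, 5, 7, 5, 5, 3, 7, 3, 3, 1, 3, 4, 1], .l [0, 5], .l [6, 5], .l [8, 7, 11, 3, 5, 3, 9, 5, 5, 3, 3, 1, 3, 4, 1], .l [0, 7], .l [8, 7], .l [10, 9, 11, 1, 11, 7, 7, 5, 5, 3, 3, 1, 3, 4, 1], .l [0, 9], .l [10, 9], .l [0, 12, 14, 12, 9], .l [0, 12], .l [13, 12], .y [0, 14, 10], .r 3291 [8, 1, 2, 3, 4, 5, 6, 7] [1, 1, 1, 1, 1, 1, 1, 1], .l [0, 15], .l [16, 15]]),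
([p 4 0, g, m 0 1, g, m 1 2, g, m 2 3, g, p 6 4, m 3 5, g, m 5 0, s 0 6, g], .lo 2, [.l [2, 1], .l [4, 1, 9, 5, 7, 5, 5, 3, 5, 1, 3, 4, 1], .l [4, 1], .r 3292 [7, 1, 2, 3, 4, 5, 6] [1, 1, 1, 1, 1, 1, 1], .l [9, 11, 9, 9, 7, 7, 3, 3, 6, 5, 0, 4, 1], .l [4, 1], .l [2, 3], .l [6, 3, 9, 3, 7, 5, 7, 1, 5, 6, 1], .l [6, 3], .l [2, 5], .l [8, 5, 5, 3, 7, 1, 7, 1, 5, 6, 1], .l [8, 5], .l [2, 7], .l [2, 10, 12, 10, 5], .l [11, 8], .l [2, 10], .y [2, 4, 6, 9, 11], .l [5, 6, 4, 4, 2, 10, 7, 1, 7, 4, 4, 2, 3], .l [14, 11], .l [2, 13]]),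
([p 3 0, g, m 0 1, g, m 1 2, g, p 5 3, m 2 4, g, m 4 0, s 0 5, g], .lo 2, [.l [2, 1], .l [4, 1, 7, 3, 5, 3, 5, 1, 3, 4, 1], .l [4, 1], .r 3293 [6, 1, 2, 3, 4, 5] [1, 1, 1, 1, 1, 1], .l [7, 9, 7, 7, 3, 3, 6, 5, 0, 4, 1], .l [4, 1], .l [2, 3], .l [6, 3, 7, 1, 7, 1, 5, 6, 1], .l [6, 3], .l [2, 5], .l [2, 8, 10, 8, 3], .l [9, 6], .l [2, 8], .y [2, 4, 7, 9], .l [3, 4, 2, 10, 7, 1, 7, 4, 4, 2, 3], .l [12, 9], .l [2, 11]]),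
([p 2 0, g, m 0 1, g, p 4 2, m 1 3, g, m 3 0, s 0 4, g], .lo 2, [.l [2, 1], .l [4, 1, 5, 1, 5, 1, 3, 4, 1], .l [4, 1], .r 3294 [5, 1, 2, 3, 4] [1, 1, 1, 1, 1], .l [5, 7, 3, 3, 6, 5, 0, 4, 1], .l [4, 1], .l [2, 3], .l [2, 6, 8, 6, 1], .l [7, 4], .l [2, 6], .y [2, 5, 7], .l [1, 10, 7, 1, 7, 4, 4, 2, 3], .l [10, 7], .l [2, 9]]),
([p 2 0, g, m 0 1, g, p 4 2, m 1 3, g, m 3 0, g, s 0 4, g], .top 8, [.r 3295 [1, 2, 3, 4] [1, 1, 1, 1], .r 3290 [1, 2, 3, 4] [1, 1, 1, 1, 1], .r 3265 [1, 2, 3, 4] [1, 1, 1, 1, 1], .r 3254 [1, 2, 3, 4] [1, 1, 1, 1, 1]]),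
([p 3 0, g, s 0 1, m 5 2, g, p 0 3, m 2 4, g, m 4 0, g, m 1 0, g, s 0 5, g], .lo 5, [.y [0, 5], .l [14, 8, 8, 5, 10, 3, 10, 6, 3], .l [2, 6], .l [1, 7, 5, 4], .l [14, 10, 10, 5, 8, 1, 10, 8, 3], .l [5, 6], .l [3, 13, 8, 1, 2, 9, 3], .l [3, 13, 8, 2, 4, 2, 5], .l [14, 10, 13, 11, 11, 8, 3, 4, 7], .l [3, 13, 8, 2, 4, 2, 5], .l [3, 11, 6, 2, 2, 0, 3], .r 3296 [2, 3, 4, 6] [2, 1, 1, 1, 5], .l [12, 9, 13, 12, 12, 9, 10, 6, 3, 4, 5], .l [4, 5, 0, 8], .l [4, 5, 0, 8], .r 3296 [2, 3, 4, 6] [2, 1, 1, 3, 3], .l [3, 13, 8, 1, 11, 5, 1, 7, 1, 6, 1], .l [4, 5, 0, 10], .l [13, 1, 8, 8, 5, 6, 9, 8, 3], .l [12, 8, 4, 12, 8, 9, 5, 6, 8, 6, 1], .l [4, 5, 0, 12]]),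
([p 3 0, g, s 0 1, m 6 2, g, p 0 3, m 2 4, g, m 4 5, g, s 5 0, g, s 0 6, g, m 1 0, g], .lo 5, [.y [0, 5], .l [14, 8, 8, 5, 10, 3, 10, 6, 3], .l [2, 6], .l [1, 7, 5, 4], .l [14, 10, 10, 5, 8, 1, 10, 8, 3], .l [5, 6], .l [4, 7, 2, 1], .l [3, 13, 8, 2, 4, 2, 5], .r 3038 [3, 4, 7] [4, 1, 1, 7], .l [3, 13, 8, 2, 4, 2, 5], .r 3296 [2, 3, 4, 7] [2, 1, 1, 1, 7], .l [7, 10, 7, 7, 2, 8, 1, 6, 10, 6, 1], .l [4, 5, 0, 8], .l [3, 11, 3, 1, 4, 2, 2, 0, 1], .r 3296 [2, 3, 4, 7] [2, 1, 1, 3, 5], .l [3, 13, 5, 1, 6, 2, 4, 2, 3], .l [4, 5, 0, 10], .l [13, 1, 8, 8, 5, 6, 9, 8, 3], .l [12, 8, 11, 9, 6, 5, 10, 1, 10, 6, 3], .l [4, 5, 0, 12], .l [4, 5, 0, 12], .l [15, 3, 10, 10, 7, 8, 11, 10, 5], .l [9, 16, 11, 11, 6, 12, 12, 10, 10, 8, 3],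 .l [4, 5, 0, 14]]),
([p 3 0, g, s 0 1, m 6 2, g, p 0 3, m 2 4, g, m 4 5, g, m 5 0, g, s 0 6, g, m 1 0, g], .lo 2, [.l [2, 1, 11, 8, 1, 8, 5], .l [1, 14, 8, 1, 11, 1, 12, 10, 5, 5, 3, 3, 1], .l [4, 1, 13, 8, 1, 8, 5], .l [1, 14, 8, 1, 11, 1, 12, 10, 5], .l [5, 8, 5, 6, 8, 6, 1], .l [7, 3, 8, 3, 5, 7, 4, 4, 7], .l [5, 8, 5, 6, 8, 6, 1], .l [2, 7, 9, 7, 2], .l [8, 5, 15, 9, 1, 10, 7], .l [2, 7, 9, 7, 2], .l [2, 9, 11, 9, 9, 7, 2], .l [7, 8, 6, 14, 10, 2, 9, 5, 10, 2, 7], .l [2, 9, 11, 9, 9, 7, 2], .l [2, 9, 9, 7, 7, 5, 2], .l [3, 13, 1, 10, 3, 1, 12, 2, 7, 7, 5, 5, 3], .l [12, 9, 13, 12, 12, 9, 12, 6, 1, 2, 7], .l [3, 13, 1, 10, 3, 1, 12, 2, 7], .l [12, 8, 11, 9, 6, 5, 10, 3, 10, 6, 3, 3, 1], .l [12, 8, 11, 9, 6, 5, 10, 3,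 10, 6, 3], .l [2, 13, 1, 8, 1, 8, 5], .y [2, 14], .l [3, 14, 12, 4, 11, 12, 6, 4, 1], .l [12, 8, 11, 9, 6, 5, 10, 3, 10, 6, 3], .l [2, 15, 3, 10, 1, 10, 7]]),
([p 3 0, g, s 0 1, m 5 2, g, p 0 3, m 2 4, g, m 4 0, g, s 0 5, g, m 1 0, g], .hi 8, [.l [2, 9, 9, 7, 4], .l [1, 7, 5, 8], .l [2, 9], .l [2, 7, 7, 5, 2], .l [5, 9, 9, 7, 1], .l [3, 11, 6, 4, 4, 2, 3], .l [5, 9], .l [3, 9, 4, 2, 2, 0, 1], .r 3189 [2, 3, 4, 6] [1, 1, 1, 1, 5], .l [7, 10, 8, 8, 5, 7, 4, 1], .l [8, 9], .r 3298 [1, 2, 3, 4, 6, 5] [1, 1, 1, 1, 1, 1, 1], .l [7, 8, 6, 6, 3, 5, 2, 5], .r 3299 [1, 2, 3, 4, 6, 5] [1, 1, 1, 1, 1, 1, 1], .y [3, 6, 8, 10], .l [3, 9, 11, 9, 9, 7, 1], .l [7, 8, 6, 6, 3, 5, 2, 7], .l [3, 9, 11, 9, 9, 7, 1], .l [3, 9, 13, 11, 11, 9,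 1], .l [7, 8, 6, 6, 3, 5, 2, 9], .l [3, 9, 13, 11, 11, 9, 1]]),
([p 3 0, g, s 0 1, m 0 2, g, p 0 3, m 2 4, g, m 4 0, g, m 1 0, g], .lo 3, [.l [3, 2], .r 3207 [5, 1, 2, 3, 4] [1, 1, 1, 1, 1, 1], .l [5, 2], .r 3245 [5, 1, 2, 3, 4] [1, 1, 1, 1, 1, 1], .r 3039 [2, 5, 3, 4] [2, 1, 1, 1, 3], .l [5, 1], .l [3, 4], .l [3, 7, 9, 7, 1], .l [8, 4], .l [3, 7], .y [3, 6, 8], .r 3300 [1, 2, 3, 4, 5] [1, 1, 1, 1, 1, 1], .l [10, 6], .l [3, 9], .l [3, 9], .r 3297 [1, 2, 3, 4, 5] [1, 1, 1, 1, 1, 1], .l [12, 8], .l [3, 11]]),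
([p 4 0, g, s 2 0, g, s 0 1, g, s 1 2, m 0 3, g, p 6 4, m 3 5, g, m 5 0, g, p 0 6, g], .lo 14, [.y [0, 14, 9], .l [15, 16, 11, 2, 4, 10, 6, 7, 9, 7, 0, 1], .l [2, 15], .l [1, 11, 9, 14], .l [1, 9, 7, 12, 12, 6, 8, 6, 3], .l [4, 15, 15, 10, 2, 6, 9, 3, 4, 8, 6, 3], .l [4, 15], .l [3, 11, 7, 14], .l [6, 15, 15, 10, 2, 6, 9, 3, 6, 8, 4, 5], .l [6, 15], .l [5, 11, 5, 14], .l [8, 2, 4, 10, 6, 7, 9, 7, 2, 7], .l [9, 15], .l [5, 11, 5, 8, 5, 12, 12, 1, 8, 2, 3, 7, 5], .l [15, 16, 9, 2, 4, 8, 4, 5, 9, 7, 0, 3], .l [12, 15], .l [11, 14, 12, 12, 9, 1, 10, 4, 9], .l [11, 12, 10, 10, 7, 1, 8, 2, 7], .l [13, 16, 11, 2, 4, 10, 6, 7, 9, 7, 2, 1], .l [14, 15], .l [13, 16, 11, 11, 2, 1], .l [13, 14, 9, 2, 4, 8, 4, 5, 7, 5, 0, 5], .l [5,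 10, 11, 10, 3, 6, 10, 6, 4, 2, 5, 7, 5], .l [13, 14, 9, 9, 0, 12]]),
([p 4 0, g, s 2 0, g, s 0 1, g, s 1 2, m 0 3, g, p 0 4, m 3 5, g, m 5 0, g], .lo 9, [.y [0, 9], .l [10, 2, 4, 10, 6, 7, 9, 7, 0, 1], .l [2, 10], .l [1, 11, 9, 8], .l [1, 9, 7, 6, 8, 6, 3], .l [4, 10, 2, 6, 9, 3, 4, 8, 6, 3], .l [4, 10], .l [3, 11, 7, 6], .l [6, 10, 2, 6, 9, 3, 6, 8, 4, 5], .l [6, 10], .l [5, 11, 5, 4], .l [8, 2, 4, 10, 6, 7, 9, 7, 2, 1], .l [9, 10], .l [8, 11, 2, 1], .l [8, 2, 4, 8, 4, 5, 9, 7, 0, 3], .r 3038 [4, 5, 6] [8, 1, 1, 1], .l [8, 9, 0, 10], .l [8, 9, 0, 10], .l [8, 2, 4, 8, 4, 5, 7, 5, 0, 5], .r 3302 [1, 2, 3, 4, 5, 6] [1, 1, 1, 1, 1, 1, 1], .l [8, 9, 0, 12]]),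
([p 4 0, g, s 0 1, g, s 2 0, g, s 1 2, m 0 3, g, p 6 4, m 3 5, g, m 5 0, g, p 0 6, g], .lo 14, [.y [0, 14, 9], .l [15, 16, 11, 2, 4, 10, 6, 7, 9, 7, 0, 1], .l [2, 15], .l [1, 11, 9, 14], .l [4, 15, 15, 10, 2, 6, 9, 3, 4, 8, 6, 3], .l [4, 15], .l [3, 11, 7, 14], .l [3, 9, 5, 12, 12, 4, 8, 6, 1], .l [6, 15, 15, 10, 2, 6, 9, 3, 6, 8, 4, 5], .l [6, 15], .l [5, 11, 5, 14], .l [8, 2, 4, 10, 6, 7, 9, 7, 2, 7], .l [9, 15], .l [5, 11, 5, 8, 5, 12, 12, 1, 8, 2, 3, 7, 5], .l [15, 16, 9, 2, 4, 8, 4, 5, 9, 7, 0, 3], .l [12, 15], .l [11, 14, 12, 12, 9, 3, 10, 4, 9], .l [11, 12, 10, 10, 7, 3, 8, 2, 7], .l [13, 16, 11, 2, 4, 10, 6, 7, 9, 7, 2, 1], .l [14, 15], .l [13, 16, 11, 11, 2, 1], .l [13, 14, 9, 2, 4, 8, 4, 5, 7, 5, 0, 5], .l [5,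 10, 11, 10, 3, 6, 10, 6, 4, 2, 5, 7, 5], .l [13, 14, 9, 9, 0, 12]]),
([p 4 0, g, s 0 1, g, s 2 0, g, s 1 2, m 0 3, g, p 0 4, m 3 5, g, m 5 0, g], .lo 9, [.y [0, 9], .l [10, 2, 4, 10, 6, 7, 9, 7, 0, 1], .l [2, 10], .l [1, 11, 9, 8], .l [4, 10, 2, 6, 9, 3, 4, 8, 6, 3], .l [4, 10], .l [3, 11, 7, 6], .l [3, 9, 5, 4, 8, 6, 1], .l [6, 10, 2, 6, 9, 3, 6, 8, 4, 5], .l [6, 10], .l [5, 11, 5, 4], .l [8, 2, 4, 10, 6, 7, 9, 7, 2, 1], .l [9, 10], .l [8, 11, 2, 1], .l [8, 2, 4, 8, 4, 5, 9, 7, 0, 3], .r 3038 [4, 5, 6] [8, 1, 1, 1], .l [8, 9, 0, 10], .l [8, 9, 0, 10], .l [8, 2, 4, 8, 4, 5, 7, 5, 0, 5], .r 3304 [1, 2, 3, 4, 5, 6] [1, 1, 1, 1, 1, 1, 1], .l [8, 9, 0, 12]]),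
([p 3 0, g, s 1 0, g, s 5 1, m 0 2, g, p 6 3, m 2 4, g, m 4 0, g, s 0 5, g, p 0 6, g], .lo 14, [.y [0, 14, 7], .l [15, 16, 9, 14, 11, 7, 10, 3, 1, 7, 0, 1], .l [2, 15], .l [1, 9, 7, 14], .l [1, 7, 5, 12, 12, 4, 6, 4, 1], .l [4, 15, 15, 8, 2, 4, 7, 3, 8, 3, 4, 1], .l [4, 15], .l [3, 9, 5, 14], .l [6, 14, 11, 7, 10, 3, 1, 7, 2, 7], .l [7, 15], .l [3, 9, 5, 12, 14, 6, 10, 6, 3, 1, 5, 7, 5], .l [15, 16, 7, 14, 11, 5, 10, 5, 3, 7, 0, 3], .l [10, 15], .l [3, 7, 3, 12, 14, 4, 8, 6, 3, 1, 5, 7, 5], .l [3, 7, 3, 10, 12, 4, 8, 6, 3, 1, 5, 5, 3], .l [15, 16, 7, 14, 11, 5, 10, 5, 1, 7, 0, 3], .l [12, 15], .l [11, 16, 11, 11, 4, 3], .l [13, 16, 9, 14, 11, 7, 10, 3, 1, 7, 2, 1], .l [14, 15], .l [13, 16, 9, 9, 2, 1], .l [13, 14, 7, 12,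 9, 5, 8, 3, 1, 5, 0, 5], .l [3, 7, 3, 10, 5, 8, 5, 9, 5, 1, 5, 7, 5], .l [13, 14, 7, 7, 0, 12]]),
([p 3 0, g, s 1 0, g, s 5 1, m 0 2, g, p 0 3, m 2 4, g, m 4 0, g, s 0 5, g], .lo 7, [.y [0, 7], .l [8, 14, 11, 7, 10, 3, 1, 7, 0, 1], .l [2, 8], .l [1, 9, 7, 6], .l [1, 7, 5, 4, 6, 4, 1], .l [4, 8, 2, 4, 7, 3, 8, 3, 4, 1], .l [4, 8], .l [3, 9, 5, 4], .l [6, 14, 11, 7, 10, 3, 1, 7, 2, 1], .l [7, 8], .l [4, 13, 6, 1, 1, 6, 3], .l [4, 13, 6, 2, 4, 2, 4, 1], .l [4, 13, 6, 0, 7, 5, 1, 4, 1], .l [4, 13, 6, 2, 4, 2, 4], .l [4, 11, 4, 2, 2, 0, 2], .l [6, 14, 11, 5, 10, 5, 1, 7, 0, 3], .l [6, 14, 11, 5, 10, 5, 1, 7, 0, 3], .l [6, 7, 0, 10], .l [6, 12, 9, 5, 8, 3, 1, 5, 0, 5], .r 3306 [1, 2, 3, 4, 5, 6] [1, 1, 1, 1, 1, 1, 1], .l [6,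 7, 0, 12]]),
([p 3 0, g, s 1 0, g, s 0 1, m 0 2, g, p 0 3, m 2 4, g, m 4 0, g], .lo 4, [.l [5, 1, 4, 7, 3, 4, 6, 4, 1], .r 3305 [5, 1, 2, 3, 4] [1, 1, 1, 1, 1, 1], .l [7, 1, 4, 9, 5, 6, 8, 6, 1], .l [5, 9, 3, 4, 8, 4, 1], .y [2, 4], .r 3303 [5, 1, 2, 3, 4] [1, 1, 1, 1, 1, 1], .l [7, 1, 4, 9, 5, 6, 8, 6, 1], .l [5, 9, 3, 6, 8, 2, 5], .l [7, 10, 7, 8, 10, 8, 1], .r 3243 [2, 5, 3, 4] [3, 1, 1, 1, 1], .l [3, 9, 5, 2, 8, 6, 3], .l [4, 9, 11, 9, 2], .r 3047 [2, 3, 4, 5] [3, 1, 1, 1, 1], .l [2, 3, 3, 8, 10, 8, 3], .l [2, 3, 3, 8, 8, 6, 3], .r 3307 [1, 2, 3, 4, 5] [1, 1, 1, 1, 1, 1], .l [5, 12, 10, 6, 9, 3, 1, 6, 1], .l [3, 7, 3, 4, 6, 2, 7]]),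
([p 3 0, g, s 5 1, m 6 2, g, p 0 3, m 2 4, g, m 4 0, g, p 1 0, g, p 0 5, g, s 0 6, g], .hi 10, [.l [12, 9, 11, 6, 8, 7, 10, 1, 6, 4, 5], .l [3, 16, 10, 6, 12, 7, 5, 2, 6, 4, 7], .l [12, 9], .l [5, 8, 5, 10, 10, 6, 8, 6, 1], .l [5, 8, 5, 10, 10, 6, 8, 6, 1], .l [12, 6], .l [3, 13, 3, 10, 4, 9, 0, 7, 3, 6, 3], .l [2, 11, 11, 7, 9, 7, 2], .l [2, 11, 11, 7, 9, 7, 2], .l [12, 3], .l [3, 15, 3, 12, 8, 10, 5, 1, 5, 8, 5, 3, 5], .l [11, 16, 3, 8, 4, 12, 6, 7, 3, 6, 7, 4, 1], .l [12, 1], .l [2, 9, 11, 1, 11, 9, 11, 8, 1, 8, 5, 5, 3], .l [10, 11], .l [12, 1], .y [2, 10, 12], .l [1, 16, 12, 1, 13, 4, 1, 4, 4, 2, 5, 5, 3], .l [10, 13], .l [14, 3], .l [10, 13, 13, 6, 9, 7, 4, 3, 8, 3, 4, 0, 3], .l [1, 14, 10, 6, 12, 7, 5, 10, 7, 8,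 3, 3, 1], .l [10, 15], .l [16, 5]]),
([p 3 0, g, s 5 1, m 6 2, g, p 0 3, m 2 4, g, m 4 0, g, p 1 0, g, s 0 5, g, s 0 6, g], .lo 5, [.y [0, 5], .l [1, 7, 5, 4, 6, 4, 7], .l [2, 6], .l [1, 7, 5, 4], .l [6, 7, 0, 4, 6, 4, 7], .l [5, 6], .l [2, 13, 8, 1, 1, 8, 5], .l [4, 5, 0, 6, 8, 6, 6, 4, 5], .l [2, 13, 8, 0, 9, 7, 1, 6, 3], .l [2, 13, 8, 2, 4, 2, 6], .l [2, 11, 6, 2, 2, 0, 4], .l [3, 15, 3, 12, 4, 11, 1, 3, 7, 3, 6, 3], .l [2, 13, 1, 11, 13, 10, 1, 10, 7, 7, 5, 1, 5], .l [4, 5, 0, 8], .l [1, 5, 3, 8, 8, 2, 4, 2, 5], .l [3, 15, 5, 12, 4, 11, 3, 1, 7, 3, 6, 3], .l [1, 5, 3, 8, 10, 4, 6, 4, 7], .l [4, 5, 0, 10], .l [3, 15, 5, 12, 4, 11, 1, 3, 7, 3, 6, 3], .l [1, 5, 3, 10, 12, 4, 6, 4, 7], .l [1, 5, 3, 10, 7, 10, 4, 2, 5],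 .l [15, 1, 10, 10, 7, 8, 11, 10, 5], .l [1, 5, 3, 10, 14, 6, 8, 6, 9], .l [1, 5, 3, 10, 7, 12, 6, 2, 7]]),
([p 3 0, g, s 0 1, m 5 2, g, p 0 3, m 2 4, g, m 4 0, g, p 1 0, g, s 0 5, g], .lo 2, [.l [2, 1, 11, 8, 1, 8, 5], .l [3, 7, 3, 4, 6, 2, 7], .l [4, 1, 13, 8, 1, 8, 5], .l [3, 7, 3, 4, 6, 2, 7], .l [1, 7, 5, 2, 6, 4, 7], .l [7, 3, 8, 3, 5, 7, 4, 4, 7], .l [1, 7, 5, 2, 6, 4, 7], .l [1, 5, 3, 6, 8, 6, 6, 2, 5], .l [3, 13, 1, 10, 3, 1, 3, 8, 3], .l [1, 5, 3, 6, 8, 6, 6, 2, 5], .l [1, 5, 3, 6, 6, 4, 4, 0, 3], .l [3, 10, 8, 4, 7, 8, 6, 4, 1], .l [3, 13, 1, 10, 3, 1, 3, 8, 1], .l [2, 11, 1, 9, 11, 8, 1, 8, 5], .y [2, 10], .r 3310 [1, 2, 3, 4, 6, 5] [1, 1, 1, 1, 1, 1, 1], .r 3309 [1, 2, 3, 4, 6, 5] [1, 1, 1, 1, 1, 1, 1], .l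 [2, 11, 1, 9, 11, 8, 1, 8, 5], .l [3, 11, 1, 8, 4, 7, 8, 6, 4, 1], .l [3, 11, 1, 8, 3, 1, 10, 2, 5], .l [2, 13, 1, 8, 1, 8, 5]]),
([p 5 1, g, m 0 2, g, s 0 3, m 2 4, g, p 0 5, m 4 6, g, m 6 0, g, s 1 0, g, p 3 0, g], .lo 7, [.l [1, 9, 7, 6, 8, 6, 11], .l [2, 8], .l [0, 13, 11, 6, 7, 5, 10], .l [3, 7, 5, 7, 5, 4, 6, 4, 9], .l [4, 8], .l [0, 13, 9, 4, 5, 3, 10], .l [8, 9, 0, 6, 8, 6, 11], .l [7, 8], .l [4, 15, 8, 1, 1, 8, 5], .l [6, 7, 0, 8, 10, 8, 8, 6, 9], .l [4, 15, 8, 0, 9, 7, 1, 6, 3], .l [0, 13, 6, 2, 4, 2, 8], .l [0, 11, 4, 2, 2, 0, 6], .l [6, 8, 6, 13, 1, 9, 3, 8, 5, 1, 5, 0, 1], .l [6, 8, 6, 13, 1, 9, 3, 8, 5, 1, 5, 0, 1], .l [6, 7, 0, 10], .y [0, 12, 7], .l [6, 8, 6, 13, 3, 9, 3, 8, 5, 1, 5, 0, 1], .l [0, 11, 13,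 8, 9, 7, 10], .l [6, 7, 0, 12], .l [0, 11, 13, 8, 9, 7, 5], .l [0, 11, 15, 10, 2, 6, 9, 3, 5, 1, 8, 6, 3], .l [0, 11, 15, 10, 11, 9, 5], .l [6, 7, 0, 14]]),
([p 5 1, g, s 1 0, g, m 0 2, g, s 0 3, m 2 4, g, p 0 5, m 4 6, g, m 6 0, g, p 3 0, g], .lo 9, [.l [1, 11, 9, 8, 10, 8, 11], .l [2, 10], .l [0, 3, 1, 8, 9, 7, 10], .y [0, 2, 9], .l [3, 11, 7, 6, 10, 8, 11], .l [4, 10], .l [3, 11, 7, 6], .l [5, 9, 7, 9, 5, 4, 8, 6, 9], .l [6, 10], .l [5, 9, 7, 9, 5, 4], .l [10, 11, 0, 8, 10, 8, 11], .l [9, 10], .l [6, 15, 6, 1, 1, 6, 3], .l [8, 9, 0, 10, 12, 10, 10, 8, 9], .l [6, 15, 6, 0, 7, 5, 1, 4, 1], .l [6, 15, 6, 2, 4, 2, 4], .l [6, 13, 4, 2, 2, 0, 2], .l [6, 15, 6, 0, 7, 5, 8, 1, 2, 6, 1, 4, 1], .l [6, 15, 6, 0, 7, 5, 8, 1, 2,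 6, 1, 4, 1], .l [8, 9, 0, 12], .l [6, 13, 4, 0, 5, 3, 6, 1, 2, 4, 6, 2, 3], .l [8, 10, 8, 11, 7, 1, 2, 0, 9, 3, 5, 5, 3], .l [6, 13, 4, 0, 5, 3, 6, 1, 2, 4, 8, 4, 5], .l [8, 9, 0, 14]]),
([p 4 0, g, m 0 1, g, s 0 2, m 1 3, g, p 0 4, m 3 5, g, m 5 0, g, p 2 0, g], .hi 0, [.r 3313 [6, 1, 2, 3, 4, 5] [1, 1, 1, 1, 1, 1, 1], .l [0, 1], .l [2, 1], .l [2, 1], .l [4, 3, 8, 4, 6, 3, 6, 2, 7], .l [0, 3], .l [4, 3], .l [4, 11, 7, 9, 1, 6, 1, 6, 3], .l [0, 6, 9, 7, 10], .l [0, 6], .l [7, 6], .y [0, 7], .l [0, 9, 11, 9, 6], .l [0, 9], .l [10, 9], .r 3312 [6, 1, 2, 3, 4, 5] [1, 1, 1, 1, 1, 1, 1], .l [0, 11], .l [12, 11], .l [4, 11, 7, 11, 3, 8, 1, 8, 5], .l [0, 13], .l [14, 13]]),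
([p 3 0, g, s 0 1, m 0 2, g, p 0 3, m 2 4, g, m 4 0, g, p 1 0, g], .lo 3, [.l [3, 2], .l [5, 2, 6, 1, 6, 2, 7], .l [5, 2], .r 3314 [5, 1, 2, 3, 4] [1, 1, 1, 1, 1, 1], .l [5, 1, 7, 5, 8], .l [5, 1], .l [3, 4], .l [3, 7, 9, 7, 1], .l [8, 4], .l [3, 7], .y [3, 6, 8], .l [2, 11, 1, 6, 1, 6, 3], .l [10, 6], .l [3, 9], .l [10, 6], .r 3311 [1, 2, 3, 4, 5] [1, 1, 1, 1, 1, 1], .l [12, 8], .l [3, 11]]),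
([p 3 0, g, s 6 1, m 0 2, g, p 7 3, m 2 4, g, m 4 5, g, s 0 6, g, p 0 7, g, s 5 0, g, s 1 0, g], .lo 10, [.l [7, 8, 6, 6, 3, 6, 8, 6, 4, 1, 4, 2, 3], .l [6, 18, 15, 5, 14, 5, 5, 7, 1, 9, 0, 5], .l [9, 10, 8, 8, 5, 8, 10, 8, 6, 1, 6, 2, 5], .l [3, 7, 3, 16, 11, 5, 5, 12, 9, 9, 7, 5, 3], .l [4, 12, 9, 5, 8, 13, 11, 5, 2, 9], .l [2, 11, 13, 8, 9, 5, 7, 4, 12, 7, 1, 8, 5], .l [2, 11, 13, 8, 9, 5, 2, 6, 8, 6, 1], .l [2, 17, 9, 3, 10, 4, 8, 4, 8, 3], .l [1, 8, 9, 6, 3, 8, 10, 4, 8, 5, 3, 4, 7], .l [1, 5, 3, 10, 10, 6, 8, 6, 8, 6, 4, 2, 7], .l [11, 14, 7, 12, 6, 2, 8, 11, 6, 2, 6, 7], .l [1, 5, 3, 10, 12, 4, 10, 7, 3, 6, 9, 7, 3], .l [1, 6, 7, 6, 3, 8, 8, 6, 8, 4, 6, 4, 7], .l [11, 14, 7, 12, 9, 5, 8, 11, 9, 5, 2, 7], .l [7,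 8, 6, 6, 3, 6, 10, 8, 6, 1, 6, 2, 5], .l [1, 5, 3, 16, 7, 1, 11, 7, 9, 10, 5, 5, 3], .l [9, 12, 7, 12, 6, 2, 8, 11, 6, 2, 6, 7], .l [1, 5, 3, 8, 10, 4, 10, 7, 3, 6, 9, 7, 3], .l [7, 12, 9, 10, 8, 4, 4, 7, 1, 3, 1, 2, 5], .l [9, 12, 7, 7, 2, 10, 10, 8, 8, 6, 6, 4, 3], .l [9, 12, 7, 14, 8, 2, 10, 11, 4, 2, 6, 7], .l [1, 5, 3, 8, 10, 4, 12, 9, 3, 8, 9, 5, 3], .l [7, 12, 9, 10, 8, 4, 4, 9, 3, 5, 1, 4, 1], .y [2, 16, 10], .l [10, 17, 3, 13, 9, 6, 7, 5, 6, 8, 6, 1], .l [4, 6, 4, 7, 15, 7, 10, 0, 7], .l [7, 12, 9, 10, 8, 4, 4, 11, 5, 7, 1, 6, 1]]),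
([p 3 0, g, s 0 1, m 0 2, g, p 6 3, m 2 4, g, m 4 5, g, p 0 6, g, s 5 0, g, s 1 0, g], .lo 2, [.l [7, 8, 6, 6, 3, 1, 4, 2, 5], .l [6, 16, 13, 5, 12, 7, 1, 9, 0, 5], .l [9, 10, 8, 8, 5, 1, 6, 2, 7], .l [3, 7, 3, 4, 6, 2, 11], .l [5, 8, 5, 6, 8, 6, 1], .l [5, 2, 8, 9, 7, 1, 6, 0, 7], .l [1, 7, 5, 2, 6, 4, 11], .l [2, 7, 9, 7, 2], .l [3, 16, 14, 4, 13, 7, 1, 10, 1], .l [1, 5, 3, 6, 8, 6, 6, 2, 9], .r 3316 [1, 2, 3, 4, 5, 7, 6] [1, 1, 1, 1, 1, 1, 1, 1], .l [7, 12, 9, 10, 8, 11, 3, 7, 3, 6, 1, 3, 5], .l [1, 5, 3, 8, 10, 4, 6, 4, 9], .l [15, 13, 9, 11, 7, 9, 6, 7, 5, 7, 2, 3], .l [3, 12, 10, 4, 9, 12, 8, 4, 1], .l [7, 8, 6, 8, 7, 5, 3, 10, 3, 8, 4, 2, 3], .l [1, 5, 3, 10, 10, 6, 6, 4, 6, 4, 2, 0, 3], .l [15, 7, 3, 11, 5, 9,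 6, 7, 5, 7, 2, 3], .l [7, 10, 7, 8, 6, 11, 5, 7, 1, 6, 1, 3, 5], .l [7, 8, 6, 8, 7, 5, 3, 10, 1, 8, 4, 2, 3], .y [2, 14], .l [15, 7, 3, 11, 5, 9, 6, 7, 5, 7, 2, 3], .l [7, 8, 6, 8, 7, 11, 8, 11, 2, 7, 1, 6, 3], .l [7, 10, 7, 8, 6, 11, 5, 7, 1, 6, 1]]),
([p 3 0, g, s 0 1, m 0 2, g, p 6 3, m 2 4, g, m 4 5, g, p 0 6, g, s 1 0, g, s 5 0, g], .lo 2, [.l [7, 8, 6, 6, 3, 1, 4, 2, 7], .l [6, 14, 11, 5, 10, 5, 1, 7, 0, 3], .l [9, 10, 8, 8, 5, 1, 6, 2, 9], .l [3, 7, 3, 4, 6, 2, 9], .l [5, 8, 5, 6, 8, 6, 1], .l [9, 12, 9, 10, 6, 9, 3, 5, 1, 4, 7, 1, 3], .l [1, 7, 5, 2, 6, 4, 9], .l [2, 7, 9, 7, 2], .l [9, 12, 7, 8, 6, 9, 3, 5, 1, 4, 7, 1, 3], .l [1, 5, 3, 6, 8, 6, 6, 2, 7], .l [9, 12, 7, 8, 6, 9, 11, 9, 9, 7, 2, 3], .l [7, 12, 9,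 10, 8, 9, 1, 5, 3, 4, 7, 1, 3], .l [1, 5, 3, 8, 10, 4, 6, 4, 7], .l [11, 16, 12, 14, 11, 12, 10, 4, 6, 7, 2, 3], .l [7, 10, 7, 8, 6, 9, 3, 5, 1, 4, 7, 1, 3], .l [7, 8, 6, 8, 7, 5, 3, 8, 1, 6, 4, 2, 5], .y [2, 12], .l [11, 16, 12, 14, 11, 12, 10, 4, 6, 7, 2, 3], .l [7, 8, 6, 8, 7, 9, 6, 9, 2, 5, 1, 4, 5], .l [7, 10, 7, 8, 6, 9, 3, 5, 1, 4, 7], .l [1, 5, 3, 12, 12, 6, 6, 4, 6, 4, 2, 0, 3], .l [15, 13, 9, 11, 7, 9, 6, 7, 5, 7, 2, 3], .l [7, 10, 7, 8, 6, 7, 1, 3, 1, 2, 5, 7, 5], .l [7, 10, 7, 8, 6, 11, 5, 7, 1, 6, 3]]),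
([p 3 0, g, s 0 1, m 0 2, g, p 6 3, m 2 4, g, m 4 5, g, m 5 0, g, p 0 6, g, s 1 0, g], .hi 0, [.l [2, 1, 9, 12, 8, 9, 7, 10, 1, 4, 6, 4, 1], .l [0, 1], .l [2, 1], .l [3, 14, 12, 4, 11, 7, 1, 8, 1], .l [3, 2], .l [0, 4, 7, 5, 12, 3, 7, 4, 1, 4, 6, 4, 1], .l [0, 4], .l [5, 4], .l [0, 7, 9, 7, 4], .l [0, 7], .l [8, 7], .l [0, 9, 11, 9, 9, 7, 4], .l [0, 9], .l [10, 9], .l [7, 14, 11, 12, 10, 11, 1, 7, 8, 4, 1, 2, 3], .l [0, 11], .l [12, 11], .y [0, 12, 5], .l [8, 1, 12, 8, 10, 3, 10, 4, 4, 6, 0, 2, 5], .l [0, 13], .l [14, 13], .l [8, 12, 8, 9, 7, 10, 1, 4, 10, 3, 3, 6, 1], .l [0, 15], .l [16, 15]]),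
([p 3 0, g, s 0 1, m 0 2, g, p 5 3, m 2 4, g, m 4 0, g, p 0 5, g, s 1 0, g], .hi 8, [.l [2, 9, 9, 7, 4], .l [1, 7, 5, 8], .l [2, 9], .l [1, 5, 3, 6, 6, 4, 4, 0, 5], .y [3, 6, 8], .l [5, 9, 9, 7, 1], .l [2, 13, 8, 4, 4, 2, 6], .l [5, 9], .r 3189 [2, 3, 4, 6] [1, 1, 1, 1, 5], .l [6, 12, 10, 11, 9, 10, 6, 1, 1, 2, 3], .l [8, 9], .l [2, 13, 5, 1, 6, 2, 4, 2, 4, 1], .l [2, 13, 5, 1, 6, 2, 4, 2, 4], .r 3319 [1, 2, 3, 4, 6, 5] [1, 1, 1, 1, 1, 1, 1], .l [2, 11, 3, 1, 4, 2, 2, 0, 2], .r 3317 [1, 2, 3, 4, 6, 5] [1, 1, 1, 1, 1, 1, 1], .l [7, 8, 6, 6, 3, 5, 2, 7], .l [2, 13, 8, 2, 3, 1, 7, 5, 1, 4, 1], .r 3318 [1, 2, 3, 4, 6, 5] [1, 1, 1, 1, 1, 1, 1], .l [4, 6, 4, 9, 3, 9, 4, 0, 5], .l [2, 11, 13, 9, 9, 7, 2]]),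
([p 3 0, g, s 0 1, m 0 2, g, p 6 3, m 2 4, g, m 4 5, g, m 5 0, g, s 1 0, g, p 0 6, g], .hi 0, [.l [2, 1, 9, 1, 14, 10, 12, 5, 7, 3, 0, 6, 1], .l [0, 1], .l [2, 1], .l [3, 12, 10, 4, 9, 5, 1, 6, 1], .l [3, 2], .l [0, 4, 7, 5, 10, 12, 5, 8, 9, 8, 8, 6, 3], .l [0, 4], .l [5, 4], .l [0, 7, 9, 7, 4], .l [0, 7], .l [8, 7], .l [0, 9, 11, 9, 9, 7, 4], .l [0, 9], .l [10, 9], .l [0, 11, 15, 8, 9, 7, 3, 8, 9, 8, 8, 6, 3], .l [0, 11], .l [12, 11], .l [14, 13, 7, 8, 7, 13, 10, 4, 9, 1, 8, 2, 3], .l [0, 13], .l [14, 13], .y [0, 14, 5], .l [2, 11, 1, 8, 13, 7, 1, 8, 2, 6, 4, 6, 1], .l [0, 15], .l [16, 15]]),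
([p 3 0, g, s 0 1, m 0 2, g, p 6 3, m 2 4, g, m 4 5, g, s 1 0, g, s 5 0, g, p 0 6, g], .lo 2, [.l [7, 8, 6, 6, 3, 1, 4, 2, 5], .l [13, 16, 9, 14, 11, 7, 10, 3, 1, 7, 2, 5], .l [9, 10, 8, 8, 5, 1, 6, 2, 7], .l [3, 7, 3, 4, 6, 2, 7], .l [5, 8, 5, 6, 8, 6, 1], .l [3, 8, 7, 10, 12, 10, 10, 8, 3, 1, 3, 7, 5], .l [1, 7, 5, 2, 6, 4, 7], .l [2, 7, 9, 7, 2], .l [2, 11, 6, 0, 7, 5, 1, 6, 10, 8, 1], .l [1, 5, 3, 6, 8, 6, 6, 2, 5], .l [9, 14, 12, 14, 11, 12, 10, 4, 6, 7, 2, 3], .l [2, 11, 3, 11, 1, 7, 1, 8, 6, 2, 5, 7, 3], .l [1, 5, 3, 8, 14, 8, 10, 8, 1], .y [2, 10], .l [9, 14, 12, 14, 11, 12, 10, 4, 6, 7, 2, 3], .l [7, 8, 6, 10, 6, 2, 5, 1, 6, 2, 5, 7, 3], .l [1, 5, 3, 10, 14, 6, 8, 6, 9], .l [1, 5, 3, 10, 10, 6, 6, 4, 4, 0, 3,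 5, 3], .l [11, 16, 9, 14, 11, 7, 10, 6, 4, 7, 4, 5], .l [11, 16, 9, 9, 4, 10, 10, 8, 8, 6, 3], .l [1, 5, 3, 12, 14, 4, 6, 4, 7], .l [2, 15, 7, 3, 8, 2, 4, 2, 6, 3], .l [3, 16, 14, 4, 13, 5, 3, 9, 3, 8, 5], .l [1, 5, 3, 8, 12, 6, 8, 6, 9]]),
([p 4 0, g, s 0 1, g, s 1 2, m 0 3, g, p 7 4, m 3 5, g, m 5 6, g, s 6 0, g, s 2 0, g, p 0 7, g], .hi 0, [.l [13, 18, 13, 2, 9, 4, 1, 10, 3, 4, 9, 7, 4, 5], .l [0, 1], .l [2, 1], .l [9, 10, 8, 8, 5, 1, 1, 1, 4, 2, 3, 7, 5], .l [13, 18, 13, 4, 6, 12, 8, 9, 11, 9, 4, 7], .l [0, 3], .l [4, 3], .l [5, 4], .l [0, 6, 2, 13, 15, 8, 9, 3, 4, 8, 6, 3], .l [0, 6], .l [7, 6], .l [0, 9, 11, 9, 6], .l [0, 9], .l [10, 9], .l [0, 11, 13, 11, 11, 9, 6], .l [0, 11], .l [12, 11], .l [0, 13, 17, 10, 2,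 6, 9, 3, 4, 8, 6, 3], .l [0, 13], .l [14, 13], .l [11, 18, 13, 2, 7, 9, 6, 10, 6, 7, 9, 7, 2, 5], .l [0, 15], .l [16, 15], .y [0, 16, 7], .l [0, 17, 7, 1, 8, 2, 6, 4, 10], .l [0, 17], .l [18, 17]]),
([p 3 0, g, s 0 1, m 0 2, g, p 6 3, m 2 4, g, m 4 5, g, s 5 0, g, s 1 0, g, p 0 6, g], .lo 2, [.l [7, 8, 6, 6, 3, 1, 4, 2, 3], .r 3323 [7, 1, 2, 3, 4, 5, 6] [1, 1, 1, 1, 1, 1, 1, 1], .l [9, 10, 8, 8, 5, 1, 6, 2, 5], .l [3, 7, 3, 4, 6, 2, 9], .l [5, 8, 5, 6, 8, 6, 1], .l [5, 2, 8, 9, 7, 1, 6, 0, 5], .l [1, 7, 5, 2, 6, 4, 9], .l [2, 7, 9, 7, 2], .l [2, 13, 8, 0, 9, 7, 1, 8, 10, 8, 3], .l [1, 5, 3, 6, 8, 6, 6, 2, 7], .l [11, 16, 9, 14, 11, 7, 10, 6, 4, 7, 4, 5], .l [3, 10, 8, 4, 7, 10, 8, 4, 1], .l [1, 5, 3, 8, 14, 8, 10, 8, 3],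 .l [1, 5, 3, 8, 8, 6, 6, 4, 4, 0, 3, 5, 3], .l [13, 5, 1, 14, 7, 8, 6, 7, 9, 7, 2, 3], .l [9, 16, 11, 11, 6, 12, 12, 10, 10, 8, 5], .l [1, 5, 3, 10, 14, 6, 8, 6, 1], .y [2, 12], .l [13, 5, 1, 14, 7, 8, 6, 7, 9, 7, 2, 3], .l [9, 16, 11, 11, 6, 12, 12, 10, 10, 8, 3], .l [1, 5, 3, 12, 14, 4, 6, 4, 9], .l [2, 15, 7, 1, 8, 2, 6, 4, 6, 1], .l [3, 16, 14, 4, 13, 3, 1, 9, 3, 8, 5], .l [1, 5, 3, 10, 12, 4, 6, 4, 9]]),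
([p 3 0, g, s 0 1, m 0 2, g, p 7 3, m 2 4, g, m 4 5, g, s 1 6, g, p 6 7, g, s 5 0, g], .hi 0, [.l [4, 11, 4, 0, 5, 3, 6, 1, 6, 6, 6, 4, 1], .l [0, 1], .l [2, 1], .y [0, 2, 10, 12, 5], .l [3, 2], .l [0, 4, 7, 5, 8, 8, 8, 8, 3, 4, 5, 4, 1], .l [0, 4], .l [5, 4], .l [0, 7, 9, 7, 4], .l [0, 7], .l [8, 7], .l [0, 9, 13, 8, 9, 7, 3, 3, 3, 4, 5, 4, 1], .l [0, 9], .l [10, 9], .l [0, 11, 13, 6, 7, 5, 8, 8, 3, 4, 5, 4, 1], .l [0, 11], .l [12, 11], .l [0, 13, 15, 9, 9, 7, 4], .l [0, 13], .l [14, 13], .l [0, 15, 10, 11, 9, 3, 9, 4, 6, 2, 7, 1, 5], .l [0, 15], .l [16, 15]]),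
([p 3 0, g, s 0 1, m 0 2, g, p 6 3, m 2 4, g, m 4 5, g, s 1 0, g, p 0 6, g, s 5 0, g], .lo 12, [.y [0, 12, 5], .l [2, 13, 15, 11, 11, 9, 4], .l [2, 13], .l [1, 7, 5, 12], .l [4, 8, 6, 9, 13, 11, 11, 9, 2, 5], .l [5, 13], .l [2, 11, 6, 11, 11, 1, 1, 6, 3], .l [13, 14, 5, 6, 4, 9, 11, 9, 9, 5, 0, 5], .l [8, 13], .l [5, 6, 3, 10, 3, 10, 6, 2, 5], .l [13, 14, 5, 6, 4, 9, 11, 7, 7, 5, 0, 5], .l [10, 13], .l [7, 8, 6, 12, 11, 5, 3, 6, 1, 6, 6, 2, 5], .r 3325 [1, 2, 3, 4, 5, 7, 6] [1, 1, 1, 1, 1, 1, 1], .l [11, 14, 7, 8, 6, 9, 11, 9, 9, 7, 2, 1], .l [12, 13], .l [11, 14, 7, 7, 2, 1], .l [11, 12, 5, 6, 4, 7, 11, 9, 9, 7, 0, 3], .l [7, 12, 9, 5, 8, 10, 9, 9, 2, 8, 1, 2, 5], .l [11, 12, 5, 5, 0, 10], .l [11, 12, 5, 5, 0, 10, 10,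 6, 6, 4, 4, 2, 3], .l [11, 12, 5, 6, 4, 7, 9, 7, 7, 5, 0, 5], .l [13, 16, 14, 14, 7, 7, 2, 8, 8, 6, 6, 4, 5], .l [11, 12, 5, 5, 0, 12]]),
([p 3 0, g, s 0 1, m 0 2, g, p 5 3, m 2 4, g, m 4 0, g, s 1 0, g, p 0 5, g], .hi 8, [.l [2, 9, 9, 7, 4], .l [1, 7, 5, 8], .l [2, 9], .l [1, 5, 3, 6, 6, 4, 4, 0, 3], .y [3, 6, 8], .l [5, 9, 9, 7, 1], .l [2, 11, 6, 4, 4, 2, 4], .l [5, 9], .r 3189 [2, 3, 4, 6] [1, 1, 1, 1, 5], .l [7, 10, 8, 8, 5, 7, 4, 1], .l [8, 9], .r 3324 [1, 2, 3, 4, 6, 5] [1, 1, 1, 1, 1, 1, 1], .l [7, 8, 6, 6, 3, 5, 2, 5], .r 3321 [1, 2, 3, 4, 6, 5] [1, 1, 1, 1, 1, 1, 1], .r 3322 [1, 2, 3, 4, 6, 5] [1, 1, 1, 1, 1, 1, 1], .l [5, 6, 3, 8, 1, 8, 6, 2, 5], .l [2, 9, 11, 9, 9, 7, 2], .l [5, 6, 3, 8, 1, 8, 6, 2, 5], .r 3326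 [1, 2, 3, 4, 6, 5] [1, 1, 1, 1, 1, 1, 1], .l [5, 6, 3, 8, 1, 10, 8, 2, 7], .l [2, 9, 13, 11, 11, 9, 2]])]

def D12 : List (List (List Item × Qry × List Rf)) := [d12_0, d12_1, d12_2, d12_3]

end Pool.Agent.H63.PU.C161
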