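import Pool.Agent.H63.PU.Ck3

/-! Certificate data, machine generated. -/

namespace Pool.Agent.H63.PU.C161

open Pool.Agent.H63.PU Pool.Agent.H63.PU.Ck3 Pool.Agent.H63.PU.Short

set_option maxRecDepth 20000

def d13_0 : List (List Item × Qry × List Rf) := [
([p 3 0, g, s 0 1, m 0 2, g, p 0 3, m 2 4, g, m 4 0, g, s 1 0, g], .lo 5, [.y [0, 5], .r 3180 [5, 3, 4] [1, 4, 1, 3], .l [2, 6], .l [1, 7, 5, 4], .r 3180 [5, 3, 4] [4, 1, 1, 3], .l [5, 6], .l [2, 11, 6, 1, 1, 6, 3], .l [2, 11, 6, 2, 4, 2, 4, 1], .l [2, 11, 6, 0, 7, 5, 1, 4, 1], .l [2, 11, 6, 2, 4, 2, 4], .l [2, 9, 4, 2, 2, 0, 2], .r 3296 [2, 3, 4, 5] [2, 1, 1, 1, 3], .r 3320 [1, 2, 3, 4, 5] [1, 1, 1, 1, 1, 1], .l [4, 5, 0, 8], .r 3296 [2, 3, 4, 5] [2, 1, 1, 1, 1], .r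 3296 [2, 3, 4, 5] [2, 1, 1, 3, 1], .r 3327 [1, 2, 3, 4, 5] [1, 1, 1, 1, 1, 1], .l [4, 5, 0, 10]]),
([p 2 0, g, s 0 0, m 0 1, g, p 0 2, m 1 3, g, m 3 0, g], .hi 2, [.r 3308 [4, 1, 2, 3] [1, 1, 1, 1, 1], .r 3201 [4, 1, 2, 3] [1, 1, 1, 1, 1], .r 3218 [4, 1, 2, 3] [1, 1, 1, 1, 1], .y [2], .r 3224 [4, 1, 2, 3] [1, 1, 1, 1], .l [5, 8, 5, 6, 8, 6, 1], .l [5, 8, 5, 6, 8, 6, 1], .r 3221 [4, 1, 2, 3] [1, 1, 1, 1, 1], .r 3180 [4, 2, 3] [1, 2, 1, 1], .l [2, 7, 9, 7, 2], .l [2, 7, 9, 7, 2], .r 3231 [4, 1, 2, 3] [1, 1, 1, 1, 1], .r 3328 [4, 1, 2, 3] [1, 1, 1, 1, 1], .r 3315 [4, 1, 2, 3] [1, 1, 1, 1, 1], .r 3301 [4, 1, 2, 3] [1, 1, 1, 1, 1]]),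
([p 3 0, g, m 6 1, m 1 2, g, p 5 3, m 2 4, g, m 4 0, g, p 0 5, g, s 0 6, g], .hi 0, [.l [4, 13, 6, 0, 7, 5, 8, 1, 2, 6, 1, 4, 1], .l [0, 1], .l [2, 1], .l [0, 4, 7, 5, 10], .l [0, 4], .l [5, 4], .l [0, 7, 9, 7, 4], .l [0, 7], .l [8, 7], .l [0, 9, 11, 6, 7, 5, 8], .l [0, 9], .l [10, 9], .y [0, 10, 5], .l [12, 11, 13, 11, 11, 10, 10, 7, 8, 4, 1, 2, 3], .l [0, 11], .l [12, 11], .r 2836 [7, 2, 3, 6] [1, 1, 0, 5, 1], .l [2, 11, 9, 11, 1, 8, 1, 8, 5], .l [0, 13], .l [14, 13]]),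
([p 3 0, g, m 0 1, g, m 6 0, m 1 2, g, p 5 3, m 2 4, g, m 4 0, g, p 0 5, g, s 0 6, g], .hi 0, [.l [6, 15, 6, 0, 7, 5, 8, 1, 2, 6, 1, 4, 1], .l [0, 1], .l [2, 1], .l [2, 1], .l [4, 3, 8, 4, 6, 3, 6, 2, 9], .l [0, 3], .l [4, 3], .l [0, 6, 9, 7, 12], .l [0, 6], .l [7, 6], .l [0, 9, 11, 9, 6], .l [0, 9], .l [10, 9], .l [0, 11, 13, 8, 9, 7, 10], .l [0, 11], .l [12, 11], .y [0, 12, 7], .l [14, 13, 15, 11, 13, 12, 12, 9, 10, 6, 1, 4, 5], .l [0, 13], .l [14, 13], .r 2836 [7, 2, 3, 6] [3, 1, 0, 5, 1], .l [4, 13, 9, 13, 3, 10, 1, 10, 7], .l [0, 15], .l [16, 15]]),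
([p 2 0, g, m 5 0, m 0 1, g, p 4 2, m 1 3, g, m 3 0, g, p 0 4, g, s 0 5, g], .lo 3, [.l [3, 2], .l [5, 2, 6, 1, 6, 2, 9], .l [5, 2], .r 3331 [6, 1, 2, 3, 4, 5] [1, 1, 1, 1, 1, 1, 1], .r 3330 [6, 1, 2, 3, 4, 5] [1, 1, 1, 1, 1, 1], .l [5, 1, 7, 5, 10], .l [5, 1], .l [3, 4], .l [3, 7, 9, 7, 1], .l [8, 4], .l [3, 7], .y [3, 6, 8], .l [2, 13, 3, 8, 1, 8, 5], .l [10, 6], .l [3, 9], .l [2, 13, 1, 8, 1, 8, 5], .l [12, 8], .l [3, 11], .l [12, 9, 13, 12, 12, 9, 10, 6, 3, 4, 5], .l [14, 10], .l [3, 13]]),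
([p 2 0, g, m 4 0, m 0 1, g, p 5 2, m 1 3, g, m 3 0, g, s 0 4, g, p 0 5, g], .hi 0, [.l [4, 11, 4, 0, 5, 3, 6, 1, 8, 6, 1], .l [0, 1], .l [2, 1], .l [3, 2], .l [0, 4, 7, 5, 8], .l [0, 4], .l [5, 4], .l [0, 7, 9, 7, 4], .l [0, 7], .l [8, 7], .l [0, 9, 13, 8, 9, 7, 3], .l [0, 9], .l [10, 9], .l [2, 9, 4, 0, 5, 3, 6, 1, 6, 4, 1], .l [0, 11, 13, 6, 7, 5, 8], .l [0, 11], .l [12, 11], .y [0, 12, 5], .l [4, 6, 4, 7, 11, 5, 6, 0, 1], .l [0, 13], .l [14, 13]]),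
([p 2 0, g, m 4 0, m 0 1, g, p 0 2, m 1 3, g, m 3 0, g, s 0 4, g], .lo 5, [.y [0, 5], .l [1, 7, 5, 4, 6, 4, 7], .l [2, 6], .l [1, 7, 5, 4], .l [1, 5, 3, 2], .l [6, 7, 0, 4, 6, 4, 7], .l [5, 6], .l [2, 11, 6, 1, 1, 6, 3], .l [4, 5, 0, 6, 8, 6, 6, 4, 5], .l [2, 11, 6, 0, 7, 5, 1, 4, 1], .l [2, 11, 6, 2, 4, 2, 4], .l [2, 9, 4, 2, 2, 0, 2], .r 3296 [1, 2, 3, 5] [2, 1, 1, 1, 3], .r 3332 [1, 2, 3, 5, 4] [1, 1, 1, 1, 1, 1], .l [4, 5, 0, 8], .r 3296 [1, 2, 3, 5] [2, 1, 1, 3, 1], .r 3333 [1, 2, 3, 4, 5] [1, 1, 1, 1, 1, 1], .l [4, 5, 0, 10]]),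
([p 5 1, g, m 0 2, g, s 1 0, g, m 2 3, m 3 4, g, p 0 5, m 4 6, g, m 6 0, g], .lo 9, [.l [2, 10, 11, 9, 9, 8, 8, 4, 1, 4, 6, 4, 1], .l [2, 10], .l [1, 11, 9, 8], .l [3, 11, 7, 6, 10, 8, 5], .l [4, 10], .l [0, 5, 1, 8, 9, 7, 3], .y [0, 4, 9], .l [5, 11, 5, 4, 10, 8, 3], .l [6, 10], .l [5, 8, 4, 10, 8, 7], .l [8, 4, 6, 10, 6, 6, 5, 7, 1, 7, 5, 2, 1], .l [9, 10], .l [8, 11, 2, 1], .l [8, 4, 6, 8, 4, 4, 3, 5, 1, 7, 5, 0, 1], .l [9, 1, 3, 11, 8, 3, 8, 2, 9, 6, 6, 1], .l [8, 9, 0, 10], .l [8, 9, 0, 10], .l [8, 4, 6, 8, 4, 4, 3, 5, 1, 5, 3, 0, 3], .l [0, 3, 9, 12, 10, 11, 9, 3, 5, 6, 1], .l [8, 9, 0, 12]]),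
([p 5 0, g, m 2 1, g, s 0 2, g, m 1 3, m 3 4, g, p 0 5, m 4 6, g, m 6 0, g], .hi 0, [.l [6, 1, 10, 4, 6, 1, 8, 4, 1], .l [0, 1], .l [2, 1], .r 3335 [7, 1, 3, 4, 5, 6] [1, 1, 3, 1, 1, 1], .l [0, 3], .l [4, 3], .r 3335 [7, 1, 3, 4, 5, 6] [1, 1, 1, 1, 1, 1], .l [9, 3, 8, 3, 1, 9, 5, 6, 8, 6, 1], .l [0, 5], .l [6, 5], .l [4, 1, 10, 6, 6, 1, 8, 4, 1], .l [0, 8], .l [9, 8], .y [0, 9], .l [0, 11, 13, 11, 8], .l [0, 11], .l [12, 11], .l [4, 1, 6, 12, 8, 4, 9, 5, 1, 6, 3], .l [0, 13], .l [14, 13]]),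
([p 5 0, g, s 0 1, g, m 1 2, g, m 2 3, m 3 4, g, p 0 5, m 4 6, g, m 6 0, g], .lo 9, [.y [0, 9], .l [6, 1, 3, 8, 9, 7, 3], .l [2, 10], .l [1, 11, 9, 8], .l [1, 12, 1, 7, 12, 5, 2, 8, 8, 6, 1], .l [4, 10], .l [3, 11, 7, 6], .l [5, 11, 5, 4, 10, 8, 5], .l [6, 10], .l [5, 8, 6, 10, 6, 5], .l [8, 14, 10, 1, 7, 10, 3, 1, 7, 2, 1], .l [9, 10], .l [8, 11, 2, 1], .l [4, 1, 9, 1, 9, 11, 2, 6, 8, 6, 1], .l [9, 1, 3, 11, 8, 1, 8, 2, 9, 6, 6, 1], .l [8, 9, 0, 10], .l [8, 9, 0, 10], .l [8, 12, 8, 1, 5, 8, 3, 1, 5, 0, 5], .l [8, 14, 10, 1, 5, 10, 5, 1, 7, 0, 3], .l [8, 9, 0, 12]]),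
([p 4 0, g, m 8 1, g, m 1 2, m 2 3, g, p 0 4, m 3 5, g, m 5 6, g, m 6 7, g, m 7 0, g, s 0 8, g], .lo 7, [.y [0, 7], .l [4, 17, 15, 6, 7, 5, 12], .l [2, 8], .l [1, 9, 7, 6], .l [3, 9, 5, 4, 8, 6, 3], .l [4, 8], .l [2, 17, 13, 4, 5, 3, 12], .l [18, 15, 15, 13, 13, 12, 12, 7, 10, 1, 10, 8, 5], .l [7, 8], .l [6, 9, 2, 1], .l [2, 17, 10, 2, 4, 2, 10], .l [18, 15, 15, 13, 13, 12, 14, 12, 10, 9, 11, 9, 7, 5, 5, 3, 3, 1], .l [2, 17, 10, 2, 4, 2, 10], .l [2, 17, 10, 4, 6, 4, 4, 2, 8], .l [18, 15, 15, 13, 13, 12, 12, 9, 10, 6, 5, 7, 9, 7, 5, 3, 3, 1], .l [2, 17, 10, 4, 6, 4, 4, 2, 8], .l [2, 17, 10, 6, 8, 6, 6, 4, 4, 2, 6], .l [18, 15, 15, 13, 13, 12, 12, 9, 9, 7, 9, 5, 3, 5, 7, 5, 3, 1], .l [2, 17, 10, 6, 8, 6, 6, 4, 4, 2, 6],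 .l [2, 15, 8, 6, 6, 4, 4, 2, 2, 0, 4], .l [2, 9, 16, 13, 7, 12, 8, 4, 9, 10, 6, 4, 4, 2, 5], .l [18, 15, 15, 13, 13, 12, 12, 9, 9, 7, 7, 5, 7, 3, 1, 3, 5, 3], .l [6, 7, 0, 14], .l [2, 15, 17, 8, 9, 7, 3], .l [2, 15, 17, 8, 9, 7, 3], .l [6, 7, 0, 16]]),
([p 4 0, g, m 7 1, g, m 1 2, m 2 3, g, p 0 4, m 3 5, g, m 5 6, g, m 6 0, g, s 0 7, g], .hi 12, [.l [2, 13, 13, 11, 11, 9, 6], .l [1, 9, 7, 12], .l [2, 13], .l [3, 9, 5, 12, 5, 8, 5], .l [2, 15, 11, 9, 9, 7, 7, 5, 6], .l [4, 13], .l [7, 13, 13, 11, 11, 9, 1], .l [2, 15, 8, 6, 6, 4, 4, 2, 6], .l [7, 13], .l [2, 13, 6, 4, 4, 2, 2, 0, 4], .l [10, 13, 5, 13, 3, 8, 4, 8, 1, 4, 7], .l [9, 12, 10, 10, 7, 7, 6, 6, 4, 6, 4, 5], .l [10, 13], .l [16, 13, 15, 10, 3, 6, 4, 6, 9, 3, 6,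 2, 1], .l [11, 14, 12, 12, 10, 10, 7, 7, 6, 6, 4, 6, 4, 1], .l [12, 13], .l [16, 13, 15, 10, 3, 4, 2, 2, 0, 1, 3, 6, 3], .l [11, 12, 10, 10, 8, 8, 5, 5, 4, 4, 2, 4, 2, 3], .r 3338 [1, 2, 3, 4, 5, 6, 8, 7] [1, 1, 1, 1, 1, 1, 1, 1], .y [2, 4, 5, 8, 10, 12, 14], .l [2, 13, 15, 13, 13, 11, 11, 9, 4], .l [11, 12, 10, 10, 8, 8, 5, 5, 4, 4, 2, 4, 2, 5], .l [2, 13, 15, 13, 13, 11, 11, 9, 4]]),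
([p 4 0, g, m 6 1, g, m 1 2, m 2 3, g, p 0 4, m 3 5, g, m 5 0, g, s 0 6, g], .hi 10, [.l [2, 11, 11, 9, 6], .l [1, 9, 7, 10], .l [2, 11], .l [3, 9, 5, 10, 3, 6, 3], .l [2, 13, 9, 7, 7, 5, 6], .l [4, 11], .l [7, 11, 11, 9, 1], .l [2, 13, 6, 4, 4, 2, 6], .l [7, 11], .l [2, 11, 4, 2, 2, 0, 4], .l [14, 11, 13, 8, 1, 6, 9, 3, 6, 2, 1], .l [9, 12, 10, 10, 7, 7, 6, 6, 4, 6, 4, 1], .l [10, 11], .l [14, 11, 13, 8, 1, 2, 0, 1, 3, 6, 3], .l [9, 10, 8, 8, 5, 5, 4, 4, 2, 4, 2, 3], .r 3339 [1, 2, 3, 4, 5, 7, 6] [1, 1, 1, 1, 1, 1, 1], .y [2, 4, 5, 8, 10, 12], .l [2, 11, 13, 11, 11, 9, 4], .l [9, 10, 8, 8, 5, 5, 4, 4, 2, 4, 2, 5], .l [2, 11, 13, 11, 11, 9, 4]]),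
([p 4 0, g, m 0 1, g, m 1 2, m 2 3, g, p 0 4, m 3 5, g, m 5 0, g], .lo 2, [.l [2, 1], .r 3337 [6, 1, 2, 3, 4, 5] [1, 1, 1, 1, 1, 1], .l [4, 1], .l [2, 9, 6, 1, 6, 7, 3, 1], .r 3336 [1, 6, 2, 3, 4, 5] [1, 1, 1, 1, 1, 1], .l [4, 1], .l [2, 3], .l [2, 6, 9, 7, 3], .l [7, 4], .l [2, 6], .l [2, 9, 11, 9, 4], .l [10, 7], .l [2, 9], .y [2, 4, 5, 8, 10], .r 3340 [1, 2, 3, 4, 5, 6] [1, 1, 1, 1, 1, 1], .l [12, 9], .l [2, 11]]),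
([p 6 0, g, m 0 1, g, m 1 2, m 0 3, g, m 2 4, g, m 4 5, g, m 5 0, g, p 0 6, m 3 7, g, m 7 0, g], .hi 11, [.l [2, 12, 12, 10, 13, 9, 6, 10, 12, 10, 5], .l [1, 15, 13, 10], .l [2, 12], .y [2, 4, 7, 9, 11], .l [3, 15, 11, 8, 8, 6, 6, 4, 10, 8, 5], .l [3, 6, 4, 14, 12, 9], .l [4, 12], .l [5, 10], .l [6, 9, 6, 13, 9, 6, 6, 4, 10, 8, 5], .l [3, 15, 11, 0, 12, 9, 5, 5, 3, 3, 1, 8, 2, 5], .l [7, 12], .l [8, 11, 9, 9, 6, 11, 7, 4, 10, 8, 5], .l [6, 7, 4, 13, 9, 0, 10, 7, 3, 3, 1, 8, 2, 5], .l [9, 12], .l [12, 13, 9, 9, 7, 7, 4, 9, 5, 2, 8, 6, 3], .l [7, 16, 13, 6, 14, 6, 1, 12, 5, 5, 3, 10, 4, 7], .l [11, 12], .l [10, 11, 9, 9, 7, 7, 4, 9, 5, 2, 8, 6, 3], .l [7, 16, 13, 6, 14, 6, 1, 12, 5, 5, 3, 10, 4, 7], .l [3, 11, 3, 15, 8,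 11, 5, 10, 2, 12, 4, 9, 2, 5], .l [7, 14, 11, 6, 12, 4, 1, 10, 5, 5, 3, 8, 2, 5], .l [10, 11, 9, 9, 7, 7, 4, 7, 3, 8, 3, 6, 3], .l [10, 11, 9, 9, 7, 7, 4, 4, 2, 6, 4, 7], .l [11, 16, 15, 15, 13, 13, 11, 11, 8, 5, 1, 5, 6, 3], .l [10, 11, 9, 9, 7, 7, 4, 7, 3, 10, 5, 8, 5], .l [7, 14, 11, 6, 12, 4, 14, 3, 12, 8, 6, 7], .l [11, 18, 17, 17, 15, 15, 13, 13, 10, 5, 1, 5, 8, 5]]),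
([p 5 0, g, m 0 1, g, m 1 2, m 0 3, g, m 2 4, g, m 4 0, g, p 0 5, m 3 6, g, m 6 0, g], .hi 9, [.l [2, 10, 13, 9, 6, 10, 12, 10, 5], .l [1, 13, 11, 8], .l [2, 10], .y [2, 4, 7, 9], .l [3, 13, 9, 6, 6, 4, 10, 8, 5], .l [3, 6, 4, 12, 10, 7], .l [4, 10], .l [5, 8], .l [6, 9, 6, 11, 7, 4, 10, 8, 5], .l [3, 13, 9, 0, 10, 7, 3, 3, 1, 8, 2, 5], .l [7, 10], .l [10, 11, 7, 7, 4, 9, 5, 2, 8, 6, 3], .l [6, 7, 4, 11, 7, 0, 8, 5, 1, 8, 2, 5], .l [9, 10], .l [8, 9, 7, 7, 4, 9, 5, 2, 8, 6, 3], .l [8, 9, 7, 7, 4, 4, 2, 8, 6, 3], .r 3342 [1, 2, 3, 4, 7, 5, 6] [1, 1, 1, 1, 1, 1, 1, 1], .l [8, 9, 7, 7, 4, 4, 2, 6, 4, 3], .l [8, 9, 7, 7, 4, 7, 3, 8, 3, 6, 3], .l [8, 9, 7, 7, 4, 4, 2, 6, 4, 7], .l [9, 14, 13, 13, 11, 11, 8, 5, 1, 5, 6, 3],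 .l [8, 9, 7, 7, 4, 7, 3, 10, 5, 8, 5], .l [8, 9, 7, 7, 4, 4, 2, 6, 4, 9], .l [9, 16, 15, 15, 13, 13, 10, 5, 1, 5, 8, 5]]),
([p 4 0, g, m 0 1, g, m 1 2, m 0 3, g, m 2 0, g, p 0 4, m 3 5, g, m 5 0, g], .hi 7, [.l [8, 9, 6, 9, 3, 4, 8, 4, 1], .l [1, 11, 9, 6], .l [2, 8], .y [2, 4, 7], .l [3, 11, 7, 4, 10, 8, 5], .l [3, 6, 4, 10, 8, 5], .l [4, 8], .l [5, 6], .l [8, 9, 4, 9, 5, 2, 8, 6, 3], .l [3, 11, 7, 0, 8, 5, 1, 8, 2, 5], .l [7, 8], .l [6, 7, 4, 9, 5, 2, 8, 6, 3], .l [6, 7, 4, 4, 2, 8, 6, 3], .r 3343 [1, 2, 3, 6, 4, 5] [1, 1, 1, 1, 1, 1, 1], .l [6, 7, 4, 4, 2, 6, 4, 3], .l [6, 7, 4, 7, 3, 8, 3, 6, 3], .l [6, 7, 4, 4, 2, 6, 4, 7], .l [7, 12, 11, 11, 8, 5, 1, 5, 6, 3], .l [6, 7, 4, 7, 3, 10, 5, 8, 5], .l [6, 7, 4, 4, 2, 6,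 4, 9], .l [7, 14, 13, 13, 10, 5, 1, 5, 8, 5]]),
([p 3 0, g, m 0 1, g, m 1 0, m 0 2, g, p 0 3, m 2 4, g, m 4 0, g], .hi 4, [.l [5, 9, 3, 4, 8, 4, 1], .l [1, 9, 7, 3], .l [2, 5], .y [2, 4], .l [5, 9, 3, 6, 8, 2, 5], .l [3, 6, 4, 8, 6, 1], .l [4, 5], .r 3341 [1, 5, 2, 3, 4] [1, 1, 1, 1, 1], .l [3, 9, 5, 2, 8, 6, 3], .l [3, 4, 2, 8, 6, 3], .r 3344 [1, 5, 2, 3, 4] [1, 1, 1, 1, 1, 1], .l [3, 4, 2, 6, 4, 3], .l [3, 7, 3, 8, 3, 6, 3], .l [3, 4, 2, 6, 4, 7], .l [5, 10, 8, 5, 1, 5, 6, 3], .l [3, 7, 3, 10, 5, 8, 5], .l [3, 4, 2, 6, 4, 9], .l [5, 12, 10, 5, 1, 5, 8, 5]]),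
([p 3 0, g, s 0 1, g, m 1 0, m 0 2, g, p 0 3, m 2 4, g, m 4 5, g, m 5 6, g, m 6 7, g, m 7 8, g, m 8 0, g], .hi 4, [.l [5, 9, 3, 4, 8, 4, 1], .l [1, 9, 7, 3], .l [2, 5], .y [2, 4], .l [5, 9, 3, 6, 8, 2, 5], .l [3, 9, 5, 1], .l [4, 5], .l [14, 16, 15, 15, 13, 13, 11, 11, 9, 9, 6, 1, 7, 3, 5, 3, 5, 1], .l [3, 9, 5, 2, 8, 6, 3], .l [3, 9, 5, 2], .l [16, 18, 17, 17, 15, 15, 13, 13, 11, 11, 6, 1, 9, 5, 7, 3, 7, 1], .l [3, 7, 3, 2], .l [3, 7, 3, 8, 10, 8, 8, 2, 5], .l [3, 7, 3, 8], .l [16, 18, 17, 17, 15, 15, 13, 13, 9, 9, 6, 1, 7, 3, 7, 1, 7, 1], .l [3, 7, 3, 10, 12, 10, 10, 8, 8, 2, 5], .l [3, 7, 3, 10], .l [5, 12, 10, 6, 9, 3, 1, 6, 1], .l [3, 7, 3, 12, 14, 12, 12, 10, 10, 8, 8, 2, 5], .l [3, 7, 3, 12], .l [5, 14, 12, 6, 11,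 5, 1, 8, 1], .l [3, 7, 3, 14, 16, 14, 14, 12, 12, 10, 10, 8, 8, 2, 5], .l [3, 7, 3, 14], .l [5, 16, 14, 6, 13, 7, 1, 10, 1], .l [3, 7, 3, 16, 18, 16, 16, 14, 14, 12, 12, 10, 10, 8, 8, 2, 5], .l [3, 7, 3, 16], .l [4, 1, 6, 2, 16, 11, 15, 13, 13, 11, 11, 9, 9, 7, 7, 5, 7, 1], .l [3, 7, 3, 18, 13, 16, 13], .l [3, 7, 3, 18], .l [4, 1, 6, 2, 18, 13, 17, 15, 15, 13, 13, 11, 11, 9, 9, 7, 7, 5]]),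
([p 3 0, g, s 0 1, g, m 1 0, m 0 2, g, p 0 3, m 2 4, g, m 4 5, g, m 5 6, g, m 6 7, g, m 7 0, g], .hi 16, [.l [1, 9, 7, 16, 16, 14, 14, 12, 12, 10, 10, 8, 8, 4, 1], .l [1, 9, 7, 16], .l [2, 17], .l [1, 7, 5, 14, 14, 12, 12, 10, 10, 8, 8, 6, 6, 2, 1], .l [3, 9, 5, 16, 16, 14, 14, 12, 12, 10, 10, 8, 8, 2, 5], .l [3, 9, 5, 16], .l [4, 17], .y [5, 8, 10, 12, 14, 16], .l [6, 9, 2, 16, 16, 14, 14, 12, 12, 10, 10, 8, 8, 6, 1], .l [6, 9, 2, 16], .l [7, 17], .l [6, 7, 0, 14], .l [9, 12, 10, 10, 7, 1, 8, 4, 11], .l [9, 12, 10, 10, 7, 1, 8, 4, 11], .l [10, 17], .l [11, 14, 12, 12, 10, 10, 7, 1, 8, 4, 9], .l [11, 14, 12, 12, 10, 10, 7, 1, 8, 4, 9], .l [12, 17], .l [13, 16, 14, 14, 12, 12, 10, 10, 7, 1, 8, 4, 7], .l [13, 16, 14, 14,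 12, 12, 10, 10, 7, 1, 8, 4, 7], .l [14, 17], .l [15, 18, 16, 16, 14, 14, 12, 12, 10, 10, 7, 1, 8, 4, 1], .l [15, 18, 16, 16, 14, 14, 12, 12, 10, 10, 7, 1, 8, 4, 1], .l [16, 17], .l [15, 16, 14, 14, 12, 12, 10, 10, 8, 8, 5, 1, 6, 2, 5], .l [15, 16, 14, 14, 12, 12, 10, 10, 8, 8, 5, 1, 6, 2, 5], .r 3346 [1, 2, 3, 4, 5, 6, 7, 8] [1, 1, 1, 1, 1, 1, 1, 1, 1]]),
([p 3 0, g, s 0 1, g, m 1 0, m 0 2, g, p 0 3, m 2 4, g, m 4 5, g, m 5 6, g, m 6 0, g], .hi 14, [.l [1, 9, 7, 14, 14, 12, 12, 10, 10, 8, 8, 4, 1], .l [1, 9, 7, 14], .l [2, 15], .l [1, 7, 5, 12, 12, 10, 10, 8, 8, 6, 6, 2, 1], .l [3, 9, 5, 14, 14, 12, 12, 10, 10, 8, 8, 2, 5], .l [3, 9, 5, 14], .l [4, 15], .y [5, 8, 10, 12, 14], .l [6, 9, 2, 14, 14, 12, 12, 10, 10, 8, 8,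 6, 1], .l [6, 9, 2, 14], .l [7, 15], .l [6, 7, 0, 12], .l [9, 12, 10, 10, 7, 1, 8, 4, 9], .l [9, 12, 10, 10, 7, 1, 8, 4, 9], .l [10, 15], .l [11, 14, 12, 12, 10, 10, 7, 1, 8, 4, 7], .l [11, 14, 12, 12, 10, 10, 7, 1, 8, 4, 7], .l [12, 15], .l [13, 16, 14, 14, 12, 12, 10, 10, 7, 1, 8, 4, 1], .l [13, 16, 14, 14, 12, 12, 10, 10, 7, 1, 8, 4, 1], .l [14, 15], .l [13, 14, 12, 12, 10, 10, 8, 8, 5, 1, 6, 2, 5], .l [13, 14, 12, 12, 10, 10, 8, 8, 5, 1, 6, 2, 5], .r 3347 [1, 2, 3, 4, 5, 6, 7] [1, 1, 1, 1, 1, 1, 1, 1]]),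
([p 3 0, g, s 0 1, g, m 1 0, m 0 2, g, p 0 3, m 2 4, g, m 4 5, g, m 5 0, g], .hi 12, [.l [1, 9, 7, 12, 12, 10, 10, 8, 8, 4, 1], .l [1, 9, 7, 12], .l [2, 13], .l [1, 7, 5, 10, 10, 8, 8, 6, 6, 2, 1], .l [3, 9, 5, 12, 12, 10, 10, 8, 8, 2, 5], .l [3, 9, 5, 12], .l [4, 13], .y [5, 8, 10, 12], .l [6, 9, 2, 12, 12, 10, 10, 8, 8, 6, 1], .l [6, 9, 2, 12], .l [7, 13], .l [6, 7, 0, 10], .l [9, 12, 10, 10, 7, 1, 8, 4, 7], .l [9, 12, 10, 10, 7, 1, 8, 4, 7], .l [10, 13], .l [11, 14, 12, 12, 10, 10, 7, 1, 8, 4, 1], .l [11, 14, 12, 12, 10, 10, 7, 1, 8, 4, 1], .l [12, 13], .l [11, 12, 10, 10, 8, 8, 5, 1, 6, 2, 5], .l [11, 12, 10, 10, 8, 8, 5, 1, 6, 2, 5], .r 3348 [1, 2, 3, 4, 5, 6] [1, 1, 1, 1, 1, 1, 1]]),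
([p 3 0, g, s 0 1, g, m 1 0, m 0 2, g, p 0 3, m 2 4, g, m 4 0, g], .hi 10, [.l [1, 9, 7, 10, 10, 8, 8, 4, 1], .l [1, 9, 7, 10], .l [2, 11], .l [1, 7, 5, 8, 8, 6, 6, 2, 1], .l [3, 9, 5, 10, 10, 8, 8, 2, 5], .l [3, 9, 5, 10], .l [4, 11], .y [5, 8, 10], .l [6, 9, 2, 10, 10, 8, 8, 6, 1], .l [6, 9, 2, 10], .l [7, 11], .l [6, 7, 0, 8], .l [9, 12, 10, 10, 7, 1, 8, 4, 1], .l [9, 12, 10, 10, 7, 1, 8, 4, 1], .l [10, 11], .l [9, 10, 8, 8, 5, 1, 6, 2, 5], .l [9, 10, 8, 8, 5, 1, 6, 2, 5], .r 3349 [1, 2, 3, 4, 5] [1, 1, 1, 1, 1, 1]]),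
([p 2 0, g, m 0 0, m 0 1, g, p 0 2, m 1 3, g, m 3 0, g], .lo 2, [.l [2, 1], .r 3350 [4, 1, 2, 3] [1, 1, 1, 1, 1], .l [4, 1], .r 3345 [4, 1, 2, 3] [1, 1, 1, 1, 1], .y [2], .l [5, 8, 5, 6, 8, 6, 1], .l [5, 2], .l [2, 4], .l [2, 7, 9, 7, 2], .l [8, 5], .l [2, 7], .l [2, 7], .r 3334 [1, 2, 3, 4] [1, 1, 1, 1, 1], .l [10, 7], .l [2, 9]]),
([p 6 0, g, p 1 0, g, p 3 1, m 0 2, g, p 4 3, g, p 5 4, g, p 0 5, g, p 0 6, m 2 7, g, m 7 0, g], .lo 11, [.l [0, 10], .l [2, 12, 12, 10, 13, 9, 6, 10, 12, 10, 5], .l [2, 12], .l [1, 15, 13, 10], .y [2, 11, 9, 7, 4], .l [3, 15, 11, 8, 8, 6, 6, 4, 10, 8, 5], .l [4, 12], .l [3, 6, 4, 14, 12, 9], .l [6, 9, 6, 13, 9, 6, 6, 4, 10, 8, 5], .l [7, 12], .l [3, 15, 11, 0, 12, 9, 5, 5, 3, 3, 1, 8, 2, 5],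 .l [8, 11, 9, 9, 6, 11, 7, 4, 10, 8, 5], .l [9, 12], .l [6, 7, 4, 13, 9, 0, 10, 7, 3, 3, 1, 8, 2, 5], .l [12, 13, 9, 9, 7, 7, 4, 9, 5, 2, 8, 6, 3], .l [11, 12], .l [7, 16, 13, 6, 14, 6, 1, 12, 5, 5, 3, 10, 4, 7], .l [10, 11, 9, 9, 7, 7, 4, 9, 5, 2, 8, 6, 3], .l [3, 11, 3, 15, 8, 11, 5, 10, 2, 12, 4, 9, 2, 5], .l [7, 16, 13, 6, 14, 6, 1, 12, 5, 5, 3, 10, 4, 7], .l [10, 11, 9, 9, 7, 7, 4, 7, 3, 8, 3, 6, 3], .l [11, 16, 15, 15, 13, 13, 11, 11, 8, 5, 1, 5, 6, 3], .l [10, 11, 9, 9, 7, 7, 4, 4, 2, 6, 4, 7], .l [10, 11, 9, 9, 7, 7, 4, 4, 2, 6, 4, 7], .l [10, 11, 9, 9, 7, 7, 4, 7, 3, 10, 5, 8, 5], .l [11, 18, 17, 17, 15, 15, 13, 13, 10, 5, 1, 5, 8, 5], .l [7, 14, 11, 6, 12, 4, 14, 3, 12, 8, 6, 7]]),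
([p 5 0, g, p 1 0, g, p 3 1, m 0 2, g, p 4 3, g, p 0 4, g, p 0 5, m 2 6, g, m 6 0, g], .lo 9, [.l [0, 8], .l [2, 10, 13, 9, 6, 10, 12, 10, 5], .l [2, 10], .l [1, 13, 11, 8], .y [2, 9, 7, 4], .l [3, 13, 9, 6, 6, 4, 10, 8, 5], .l [4, 10], .l [3, 6, 4, 12, 10, 7], .l [6, 9, 6, 11, 7, 4, 10, 8, 5], .l [7, 10], .l [3, 13, 9, 0, 10, 7, 3, 3, 1, 8, 2, 5], .l [10, 11, 7, 7, 4, 9, 5, 2, 8, 6, 3], .l [9, 10], .l [6, 7, 4, 11, 7, 0, 8, 5, 1, 8, 2, 5], .l [8, 9, 7, 7, 4, 9, 5, 2, 8, 6, 3], .r 3352 [1, 2, 3, 4, 7, 5, 6] [1, 1, 1, 1, 1, 1, 1, 1], .l [8, 9, 7, 7, 4, 4, 2, 8, 6, 3], .l [8, 9, 7, 7, 4, 7, 3, 8, 3, 6, 3], .l [9, 14, 13, 13, 11, 11, 8, 5, 1, 5, 6, 3], .l [8, 9, 7, 7, 4, 4, 2, 6, 4, 7], .l [8, 9, 7, 7, 4, 4, 2, 6, 4, 7],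 .l [8, 9, 7, 7, 4, 7, 3, 10, 5, 8, 5], .l [9, 16, 15, 15, 13, 13, 10, 5, 1, 5, 8, 5], .l [8, 9, 7, 7, 4, 4, 2, 6, 4, 9]]),
([p 4 0, g, p 1 0, g, p 3 1, m 0 2, g, p 0 3, g, p 0 4, m 2 5, g, m 5 0, g], .lo 7, [.l [0, 6], .l [8, 9, 6, 9, 3, 4, 8, 4, 1], .l [2, 8], .l [1, 11, 9, 6], .y [2, 7, 4], .l [3, 11, 7, 4, 10, 8, 5], .l [4, 8], .l [3, 6, 4, 10, 8, 5], .l [8, 9, 4, 9, 5, 2, 8, 6, 3], .l [7, 8], .l [3, 11, 7, 0, 8, 5, 1, 8, 2, 5], .l [6, 7, 4, 9, 5, 2, 8, 6, 3], .r 3353 [1, 2, 3, 6, 4, 5] [1, 1, 1, 1, 1, 1, 1], .l [6, 7, 4, 4, 2, 8, 6, 3], .l [6, 7, 4, 7, 3, 8, 3, 6, 3], .l [7, 12, 11, 11, 8, 5, 1, 5, 6, 3], .l [6, 7, 4, 4, 2, 6, 4, 7], .l [6, 7, 4, 4, 2, 6, 4, 7], .l [6, 7, 4, 7, 3, 10, 5, 8, 5], .l [7, 14, 13, 13, 10,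 5, 1, 5, 8, 5], .l [6, 7, 4, 4, 2, 6, 4, 9]]),
([p 3 0, g, p 1 0, g, p 0 1, m 0 2, g, p 0 3, m 2 4, g, m 4 0, g], .lo 4, [.l [0, 3], .l [5, 9, 3, 4, 8, 4, 1], .l [2, 5], .l [1, 9, 7, 3], .y [2, 4], .l [5, 9, 3, 6, 8, 2, 5], .l [4, 5], .l [3, 6, 4, 8, 6, 1], .l [3, 9, 5, 2, 8, 6, 3], .r 3354 [1, 2, 5, 3, 4] [1, 1, 1, 1, 1, 1], .l [3, 4, 2, 8, 6, 3], .l [3, 7, 3, 8, 3, 6, 3], .l [5, 10, 8, 5, 1, 5, 6, 3], .l [3, 4, 2, 6, 4, 7], .l [3, 4, 2, 6, 4, 7], .l [3, 7, 3, 10, 5, 8, 5], .l [5, 12, 10, 5, 1, 5, 8, 5], .l [3, 4, 2, 6, 4, 9]]),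
([p 3 0, g, p 5 1, m 6 2, g, p 0 3, m 2 4, g, m 4 0, g, s 1 0, g, s 0 5, g, s 0 6, g], .lo 5, [.y [0, 5], .l [1, 7, 5, 4, 6, 4, 7], .l [2, 6], .l [1, 7, 5, 4], .l [6, 7, 0, 4, 6, 4, 7], .l [5, 6], .l [2, 11, 6, 1, 1, 6, 3], .l [4, 5, 0, 6, 8, 6, 6, 4, 5], .l [2, 11, 6, 0, 7, 5, 1, 4, 1], .l [2, 11, 6, 2, 4, 2, 4], .l [2, 9, 4, 2, 2, 0, 2], .l [3, 15, 1, 12, 4, 11, 1, 3, 7, 3, 6, 3], .l [12, 9, 15, 14, 14, 11, 12, 8, 3, 6, 7], .l [4, 5, 0, 8], .l [1, 5, 3, 10, 7, 5, 5, 6, 3], .l [3, 15, 1, 12, 4, 11, 3, 1, 7, 3, 6, 3], .l [3, 15, 1, 12, 3, 1, 3, 10, 3, 1, 5, 1, 5], .l [4, 5, 0, 10], .l [3, 15, 3, 12, 4, 11, 3, 1, 7, 3, 6, 3], .l [1, 5, 3, 10, 12, 4, 6, 4, 7], .l [4, 5, 0, 12], .l [4, 12, 9, 3, 8, 1, 9, 1, 5, 3, 0, 5], .l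 [1, 5, 3, 10, 14, 6, 8, 6, 9], .l [4, 5, 0, 14]]),
([p 4 0, g, m 0 1, g, p 6 2, m 1 3, g, p 0 4, m 3 5, g, m 5 0, g, s 2 0, g, s 0 6, g], .lo 7, [.y [0, 7], .l [1, 9, 7, 6, 8, 6, 9], .l [2, 8], .l [1, 9, 7, 6], .l [3, 7, 5, 7, 5, 4, 6, 4, 7], .l [4, 8], .l [3, 7, 5, 7, 5, 4], .l [8, 9, 0, 6, 8, 6, 9], .l [7, 8], .l [4, 13, 6, 1, 1, 6, 3], .l [6, 7, 0, 8, 10, 8, 8, 6, 7], .l [4, 13, 6, 0, 7, 5, 1, 4, 1], .l [4, 13, 6, 2, 4, 2, 4], .l [4, 11, 4, 2, 2, 0, 2], .l [3, 5, 3, 5, 3, 12, 9, 5, 7, 8, 3, 3, 1], .l [14, 9, 11, 10, 10, 7, 8, 4, 1, 8, 3, 4, 1], .l [6, 7, 0, 10], .l [3, 5, 3, 5, 3, 10, 7, 5, 5, 6, 3], .l [4, 11, 4, 11, 6, 0, 8, 5, 6, 6, 3], .l [5, 16, 14, 6, 13, 3, 1, 9, 5, 8, 3], .l [6, 7, 0, 12], .l [6, 14, 11, 12,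 10, 3, 8, 1, 6, 0, 7, 1, 3], .l [3, 5, 3, 5, 3, 10, 12, 4, 6, 4, 7], .l [6, 7, 0, 14]]),
([p 3 0, g, p 5 1, m 0 2, g, p 0 3, m 2 4, g, m 4 0, g, s 1 0, g, s 0 5, g], .lo 3, [.l [3, 2], .l [5, 2, 6, 1, 6, 2, 7], .l [5, 2], .r 3357 [6, 1, 2, 3, 4, 5] [1, 1, 1, 1, 1, 1, 1], .l [5, 1, 7, 5, 8], .l [5, 1], .l [3, 4], .l [3, 7, 9, 7, 1], .l [8, 4], .l [3, 7], .y [3, 6, 8], .l [2, 11, 1, 6, 1, 6, 3], .l [10, 6], .l [3, 9], .l [10, 6, 9, 7, 4, 3, 8, 3, 4, 0, 3], .l [13, 1, 8, 8, 5, 8, 9, 6, 3], .l [12, 8], .l [3, 11], .r 3356 [1, 2, 3, 4, 5, 6] [1, 1, 1, 1, 1, 1, 1], .l [14, 10], .l [3, 13]]),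
([p 4 1, g, s 1 0, g, p 6 2, m 0 3, g, p 0 4, m 3 5, g, m 5 0, g, s 2 0, g, p 0 6, g], .lo 7, [.l [1, 9, 7, 6, 8, 6, 9], .l [2, 8], .l [0, 3, 1, 6, 7, 5, 8], .y [0, 2, 7], .l [3, 9, 5, 4, 8, 6, 9], .l [4, 8], .l [3, 9, 5, 4], .l [6, 16, 13, 6, 2, 1, 5, 10, 1], .l [7, 8], .l [4, 13, 6, 1, 1, 6, 3], .l [6, 7, 0, 8, 10, 8, 8, 6, 7], .l [4, 13, 6, 0, 7, 5, 1, 4, 1], .l [4, 13, 6, 2, 4, 2, 4], .l [4, 11, 4, 2, 2, 0, 2], .l [6, 16, 13, 5, 12, 1, 10, 0, 5], .l [2, 1, 7, 10, 8, 13, 10, 3, 4, 1, 3, 6, 1], .l [5, 16, 14, 6, 13, 1, 3, 9, 5, 8, 3], .l [5, 14, 12, 6, 11, 1, 1, 7, 5, 6, 1], .l [6, 16, 13, 5, 12, 3, 10, 0, 7], .l [5, 16, 14, 6, 13, 3, 1, 9, 5, 8, 3], .l [5, 16, 14, 6, 13, 2, 11, 5, 10, 5], .l [6, 14, 11, 5, 10, 1, 8,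 0, 9], .l [12, 7, 10, 15, 6, 11, 6, 2, 7, 8, 4, 2, 5], .l [6, 7, 0, 14]]),
([p 4 0, g, m 0 1, g, p 6 2, m 1 3, g, p 0 4, m 3 5, g, m 5 0, g, s 2 0, g, p 0 6, g], .hi 0, [.r 3359 [7, 2, 3, 4, 5, 6] [1, 3, 1, 1, 1, 1, 1], .l [0, 1], .l [2, 1], .l [2, 1], .l [4, 3, 8, 4, 6, 3, 6, 2, 7], .l [0, 3], .l [4, 3], .l [0, 6, 9, 7, 10], .l [0, 6], .l [7, 6], .y [0, 7], .l [0, 9, 11, 9, 6], .l [0, 9], .l [10, 9], .l [5, 16, 14, 6, 13, 1, 3, 7, 3, 8, 1], .l [0, 11], .l [12, 11], .l [4, 11, 7, 11, 3, 8, 1, 8, 5], .l [0, 13], .l [14, 13], .l [0, 13], .l [4, 11, 7, 13, 5, 10, 1, 10, 7], .l [0, 15], .l [16, 15]]),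
([p 3 0, g, p 5 1, m 0 2, g, p 0 3, m 2 4, g, m 4 0, g, s 1 0, g, p 0 5, g], .lo 3, [.l [3, 2], .l [5, 2, 6, 1, 6, 2, 7], .l [5, 2], .r 3360 [6, 1, 2, 3, 4, 5] [1, 1, 1, 1, 1, 1, 1], .l [5, 1, 7, 5, 8], .l [5, 1], .l [3, 4], .l [3, 7, 9, 7, 1], .l [8, 4], .l [3, 7], .y [3, 6, 8], .l [2, 11, 1, 6, 1, 6, 3], .l [10, 6], .l [3, 9], .l [10, 6, 9, 7, 4, 3, 8, 3, 4, 0, 3], .l [10, 7, 11, 10, 10, 7, 10, 6, 1, 2, 5], .l [12, 8], .l [3, 11], .l [3, 12, 10, 4, 9, 1, 10, 1, 6, 4, 1], .l [14, 10], .l [3, 13]]),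
([p 4 1, g, p 6 2, m 0 3, g, p 0 4, m 3 5, g, p 0 6, g, m 5 0, g, s 1 0, g, s 2 0, g], .lo 5, [.l [1, 7, 5, 4, 6, 4, 11], .l [2, 6], .l [0, 13, 11, 4, 5, 3, 10], .l [4, 10, 7, 4, 2, 1, 3, 4, 9], .l [5, 6], .l [2, 15, 10, 1, 1, 10, 7], .l [4, 5, 0, 6, 10, 8, 8, 6, 9], .l [2, 15, 10, 0, 11, 9, 1, 8, 3], .l [0, 13, 8, 2, 6, 4, 8], .l [4, 5, 0, 8, 10, 6, 6, 4, 9], .l [14, 13, 13, 8, 11, 8, 10, 6, 1, 6, 1, 2, 5], .l [0, 13, 8, 4, 6, 2, 8], .l [0, 11, 6, 4, 4, 0, 6], .l [2, 15, 10, 0, 11, 9, 1, 10, 6, 4, 5], .l [14, 13, 15, 13, 13, 7, 10, 6, 1, 4, 5], .l [4, 5, 0, 10], .y [0, 12, 5], .l [12, 11, 11, 6, 9, 6, 8, 6, 1, 6, 1, 2, 5], .l [0, 11, 13, 6, 7, 5, 10], .l [4, 5, 0, 12], .l [0, 11, 6, 11, 11, 7, 5], .l [2, 13, 8, 13, 1,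 8, 5, 9, 3, 8, 3], .l [0, 11, 15, 8, 9, 7, 3], .l [2, 13, 8, 13, 1, 8, 5, 9, 3, 8, 3]]),
([p 3 0, g, p 5 1, m 0 2, g, p 0 3, m 2 4, g, p 0 5, g, m 4 0, g, s 1 0, g], .hi 0, [.l [3, 14, 9, 2, 9, 3, 10, 1, 4, 0, 5], .l [0, 1], .l [2, 1], .l [3, 2], .l [0, 4, 7, 5, 10], .l [0, 4], .l [5, 4], .y [0, 5], .l [0, 7, 11, 9, 4], .l [0, 7], .l [8, 7], .l [0, 7], .l [0, 9, 11, 7, 4], .l [0, 9], .l [10, 9], .r 3362 [6, 1, 2, 3, 4, 5] [1, 1, 1, 1, 1, 1, 1], .l [0, 11], .l [12, 11], .l [14, 13, 13, 8, 11, 8, 3, 6, 7], .l [0, 13], .l [14, 13]]),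
([p 5 0, g, p 3 1, m 0 2, g, p 4 3, g, p 0 4, g, p 0 5, m 2 6, g, m 6 0, g, s 1 0, g], .lo 7, [.l [0, 6], .l [1, 11, 9, 6, 6, 4, 8, 6, 9], .l [2, 8], .l [1, 11, 9, 6], .l [4, 7, 4, 9, 7, 4, 8, 6, 9], .l [5, 8], .l [2, 15, 10, 3, 3, 1, 3, 8, 3], .l [6, 11, 4, 1, 1, 6, 8, 6, 9], .l [7, 8], .l [2, 15, 8, 1, 3, 10, 5], .l [6, 7, 5, 5, 2, 7, 5, 2, 6, 4, 7], .l [7, 11, 3, 1, 8, 9, 5, 10, 3, 4, 1], .l [2, 15, 8, 1, 3, 10, 5], .l [6, 7, 5, 5, 2, 5, 3, 6, 8, 6, 6, 2, 5], .l [2, 15, 8, 2, 11, 7, 1, 6, 3], .l [2, 15, 8, 4, 6, 4, 8], .l [2, 13, 6, 4, 4, 2, 6], .l [6, 10, 6, 13, 5, 8, 1, 8, 3], .l [7, 14, 13, 13, 11, 11, 8, 4, 7, 8, 6, 4, 1], .l [6, 7, 5, 5, 2, 5, 3, 8], .y [2, 14, 7, 5], .l [6, 10, 6, 11, 3, 6, 1, 6, 9], .l [2, 13,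 15, 8, 11, 7, 4, 8, 10, 8, 1], .l [5, 10, 7, 12, 8, 12, 7, 10, 6, 4, 5]]),
([p 4 0, g, p 3 1, m 0 2, g, p 0 3, g, p 0 4, m 2 5, g, m 5 0, g, s 1 0, g], .lo 5, [.l [0, 4], .l [1, 9, 7, 4, 8, 6, 9], .l [2, 6], .l [1, 9, 7, 4], .l [6, 7, 2, 7, 5, 2, 6, 4, 7], .l [5, 6], .l [2, 13, 8, 1, 3, 8, 3], .l [4, 5, 2, 7, 5, 2, 6, 4, 7], .r 3364 [1, 2, 3, 6, 4, 5] [1, 1, 1, 1, 1, 1, 1], .l [2, 13, 8, 1, 3, 8, 3], .l [4, 5, 2, 5, 3, 6, 8, 6, 6, 2, 5], .l [2, 13, 8, 2, 9, 5, 1, 4, 1], .l [2, 13, 8, 4, 6, 4, 6], .l [2, 11, 6, 4, 4, 2, 4], .l [5, 12, 11, 11, 8, 4, 7, 8, 6, 4, 1], .l [5, 12, 11, 11, 8, 4, 7, 8, 6, 4, 1], .l [4, 5, 2, 5, 3, 8], .y [2, 12, 5], .l [2, 11, 6, 11, 1, 9, 1, 6, 3], .l [5, 8, 5, 10, 12, 8, 10, 8, 1], .l [2, 11,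 6, 11, 1, 9, 1, 6, 3]]),
([p 3 0, g, p 0 1, m 0 2, g, p 0 3, m 2 4, g, m 4 0, g, s 1 0, g], .lo 2, [.l [0, 1], .l [3, 7, 3, 4, 6, 2, 7], .l [2, 3], .l [1, 7, 5, 1], .l [1, 7, 5, 2, 6, 4, 7], .r 3365 [1, 2, 5, 3, 4] [1, 1, 1, 1, 1, 1], .l [1, 7, 5, 2], .l [1, 5, 3, 6, 8, 6, 6, 2, 5], .r 3363 [1, 2, 3, 4, 5] [1, 1, 1, 1, 1, 1], .l [1, 5, 3, 6], .l [1, 5, 3, 6], .l [3, 10, 8, 4, 7, 8, 6, 4, 1], .l [3, 10, 8, 4, 7, 8, 6, 4, 1], .l [1, 5, 3, 8], .y [2, 10], .r 3358 [1, 2, 3, 4, 5] [1, 1, 1, 1, 1, 1], .r 3361 [1, 2, 3, 4, 5] [1, 1, 1, 1, 1, 1], .l [1, 5, 3, 10]]),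
([p 3 0, g, s 1 0, g, p 0 1, m 0 2, g, p 0 3, m 2 4, g, m 4 5, g, m 5 6, g, m 6 7, g, m 7 8, g, m 8 0, g], .lo 4, [.l [0, 3], .l [5, 9, 3, 4, 8, 4, 1], .l [2, 5], .l [1, 9, 7, 3], .y [2, 4], .l [5, 9, 3, 6, 8, 2, 5], .l [4, 5], .l [3, 9, 5, 1], .l [3, 9, 5, 2, 8, 6, 3], .l [16, 18, 17, 17, 15, 15, 13, 13, 11, 11, 6, 1, 9, 5, 7, 3, 7, 1], .l [3, 9, 5, 2], .l [3, 7, 3, 8, 10, 8, 8, 2, 5], .l [16, 18, 17, 17, 15, 15, 13, 13, 9, 9, 6, 1, 7, 3, 7, 1, 7, 1], .l [3, 7, 3, 8], .l [3, 7, 3, 10, 12, 10, 10, 8, 8, 2, 5], .l [5, 12, 10, 6, 9, 3, 1, 6, 1], .l [3, 7, 3, 10], .l [3, 7, 3, 12, 14, 12, 12, 10, 10, 8, 8, 2, 5], .l [5, 14, 12, 6, 11, 5, 1, 8, 1], .l [3, 7, 3, 12], .l [3, 7, 3, 14, 16, 14, 14, 12, 12, 10, 10, 8, 8, 2, 5],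 .l [5, 16, 14, 6, 13, 7, 1, 10, 1], .l [3, 7, 3, 14], .l [3, 7, 3, 16, 18, 16, 16, 14, 14, 12, 12, 10, 10, 8, 8, 2, 5], .l [4, 1, 6, 2, 16, 11, 15, 13, 13, 11, 11, 9, 9, 7, 7, 5, 7, 1], .l [3, 7, 3, 16], .l [3, 7, 3, 16], .l [3, 7, 3, 18, 13, 16, 13], .l [4, 1, 6, 2, 18, 13, 17, 15, 15, 13, 13, 11, 11, 9, 9, 7, 7, 5], .l [3, 7, 3, 18]]),
([p 3 0, g, s 1 0, g, p 0 1, m 0 2, g, p 0 3, m 2 4, g, m 4 5, g, m 5 6, g, m 6 7, g, m 7 0, g], .hi 16, [.l [1, 9, 7, 16, 16, 14, 14, 12, 12, 10, 10, 8, 8, 4, 1], .l [1, 9, 7, 16], .l [2, 17], .l [3, 9, 5, 16, 16, 14, 14, 12, 12, 10, 10, 8, 8, 2, 5], .l [3, 9, 5, 16], .l [4, 17], .l [3, 7, 3, 14], .y [5, 8, 10, 12, 14, 16], .l [6, 9, 2, 16, 16, 14, 14, 12, 12, 10, 10, 8, 8, 6, 1], .l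 [6, 9, 2, 16], .l [7, 17], .l [6, 7, 0, 14], .l [9, 12, 10, 10, 7, 1, 8, 4, 11], .l [9, 12, 10, 10, 7, 1, 8, 4, 11], .l [10, 17], .l [11, 14, 12, 12, 10, 10, 7, 1, 8, 4, 9], .l [11, 14, 12, 12, 10, 10, 7, 1, 8, 4, 9], .l [12, 17], .l [13, 16, 14, 14, 12, 12, 10, 10, 7, 1, 8, 4, 7], .l [13, 16, 14, 14, 12, 12, 10, 10, 7, 1, 8, 4, 7], .l [14, 17], .l [15, 18, 16, 16, 14, 14, 12, 12, 10, 10, 7, 1, 8, 4, 1], .l [15, 18, 16, 16, 14, 14, 12, 12, 10, 10, 7, 1, 8, 4, 1], .l [16, 17], .l [15, 16, 14, 14, 12, 12, 10, 10, 8, 8, 5, 1, 6, 2, 5], .l [15, 16, 14, 14, 12, 12, 10, 10, 8, 8, 5, 1, 6, 2, 5], .r 3367 [1, 2, 3, 4, 5, 6, 7, 8] [1, 1, 1, 1, 1, 1, 1, 1, 1]]),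
([p 3 0, g, s 1 0, g, p 0 1, m 0 2, g, p 0 3, m 2 4, g, m 4 5, g, m 5 6, g, m 6 0, g], .hi 14, [.l [1, 9, 7, 14, 14, 12, 12, 10, 10, 8, 8, 4, 1], .l [1, 9, 7, 14], .l [2, 15], .l [3, 9, 5, 14, 14, 12, 12, 10, 10, 8, 8, 2, 5], .l [3, 9, 5, 14], .l [4, 15], .l [3, 7, 3, 12], .y [5, 8, 10, 12, 14], .l [6, 9, 2, 14, 14, 12, 12, 10, 10, 8, 8, 6, 1], .l [6, 9, 2, 14], .l [7, 15], .l [6, 7, 0, 12], .l [9, 12, 10, 10, 7, 1, 8, 4, 9], .l [9, 12, 10, 10, 7, 1, 8, 4, 9], .l [10, 15], .l [11, 14, 12, 12, 10, 10, 7, 1, 8, 4, 7], .l [11, 14, 12, 12, 10, 10, 7, 1, 8, 4, 7], .l [12, 15], .l [13, 16, 14, 14, 12, 12, 10, 10, 7, 1, 8, 4, 1], .l [13, 16, 14, 14, 12, 12, 10, 10, 7, 1, 8, 4, 1], .l [14, 15], .l [13, 14, 12, 12, 10, 10, 8, 8,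 5, 1, 6, 2, 5], .l [13, 14, 12, 12, 10, 10, 8, 8, 5, 1, 6, 2, 5], .r 3368 [1, 2, 3, 4, 5, 6, 7] [1, 1, 1, 1, 1, 1, 1, 1]]),
([p 3 0, g, s 1 0, g, p 0 1, m 0 2, g, p 0 3, m 2 4, g, m 4 5, g, m 5 0, g], .hi 12, [.l [1, 9, 7, 12, 12, 10, 10, 8, 8, 4, 1], .l [1, 9, 7, 12], .l [2, 13], .l [3, 9, 5, 12, 12, 10, 10, 8, 8, 2, 5], .l [3, 9, 5, 12], .l [4, 13], .l [3, 7, 3, 10], .y [5, 8, 10, 12], .l [6, 9, 2, 12, 12, 10, 10, 8, 8, 6, 1], .l [6, 9, 2, 12], .l [7, 13], .l [6, 7, 0, 10], .l [9, 12, 10, 10, 7, 1, 8, 4, 7], .l [9, 12, 10, 10, 7, 1, 8, 4, 7], .l [10, 13], .l [11, 14, 12, 12, 10, 10, 7, 1, 8, 4, 1], .l [11, 14, 12, 12, 10, 10, 7, 1, 8, 4, 1], .l [12, 13], .l [11, 12, 10, 10, 8, 8, 5, 1, 6, 2, 5], .l [11, 12, 10, 10, 8,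 8, 5, 1, 6, 2, 5], .r 3369 [1, 2, 3, 4, 5, 6] [1, 1, 1, 1, 1, 1, 1]]),
([p 3 0, g, s 1 0, g, p 0 1, m 0 2, g, p 0 3, m 2 4, g, m 4 0, g], .hi 10, [.l [1, 9, 7, 10, 10, 8, 8, 4, 1], .l [1, 9, 7, 10], .l [2, 11], .l [3, 9, 5, 10, 10, 8, 8, 2, 5], .l [3, 9, 5, 10], .l [4, 11], .l [3, 7, 3, 8], .y [5, 8, 10], .l [6, 9, 2, 10, 10, 8, 8, 6, 1], .l [6, 9, 2, 10], .l [7, 11], .l [6, 7, 0, 8], .l [9, 12, 10, 10, 7, 1, 8, 4, 1], .l [9, 12, 10, 10, 7, 1, 8, 4, 1], .l [10, 11], .l [9, 10, 8, 8, 5, 1, 6, 2, 5], .l [9, 10, 8, 8, 5, 1, 6, 2, 5], .r 3370 [1, 2, 3, 4, 5] [1, 1, 1, 1, 1, 1]]),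
([p 2 0, g, p 0 0, m 0 1, g, p 0 2, m 1 3, g, m 3 0, g], .hi 2, [.r 3371 [4, 1, 2, 3] [1, 1, 1, 1, 1], .r 3355 [4, 1, 2, 3] [1, 1, 1, 1, 1], .l [4, 1], .y [2], .l [3, 0], .l [5, 8, 5, 6, 8, 6, 1], .l [2, 4], .l [5, 2], .l [2, 4], .l [2, 7, 9, 7, 2], .l [2, 7], .l [8, 5], .r 3366 [4, 1, 2, 3] [1, 1, 1, 1, 1], .l [2, 9], .l [10, 7]]),
([p 2 0, g, m 0 1, g, p 0 2, m 1 3, g, m 3 0, g], .bot 1, [.r 444 [] [6], .r 3329 [1, 2, 3] [1, 1, 1, 1], .r 3372 [1, 2, 3] [1, 1, 1, 1], .r 3351 [1, 2, 3] [1, 1, 1, 1]]),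
([p 2 0, g, m 0 1, g, p 0 2, m 1 0, g], .hi 5, [.l [2, 6, 3], .l [1, 6, 4, 5], .l [2, 6], .y [2, 5], .l [4, 6, 1], .l [3, 6, 2, 5], .l [4, 6], .l [3, 4, 0, 3], .r 2670 [2, 3] [3, 1, 1], .l [4, 5, 2, 4, 2, 3], .r 3373 [1, 2, 3] [1, 1, 1, 1]]),
([p 1 0, g, p 0 1, m 2 0, g, s 0 2, g], .hi 3, [.l [2, 4, 1], .l [1, 4, 2, 3], .l [2, 4], .l [1, 2, 0, 1], .r 2670 [1, 3] [1, 1, 3], .r 2592 [1, 3, 2] [1, 1, 1, 1], .r 2665 [1, 3, 2] [1, 1, 1, 1], .y [3, 5], .r 2670 [1, 3] [1, 3, 1], .r 2666 [1, 3, 2] [1, 1, 1, 1], .r 2599 [1, 3, 2] [1, 1, 1, 1]]),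
([p 1 0, g, p 0 1, m 0 0, g], .lo 3, [.l [3, 2], .r 3168 [2, 1] [1, 1, 1], .l [5, 2], .r 3374 [2, 1] [1, 1, 1], .y [3], .r 3375 [1, 2] [1, 1, 1], .l [5, 1], .l [3, 4]]),
([p 3 1, s 0 0, g, s 1 0, g, m 0 2, g, p 0 3, s 2 0, g], .hi 1, [.y [1], .r 1053 [1, 4, 3] [1, 1, 3, 2], .l [2, 9, 6, 6, 3], .r 578 [1, 4, 3] [1, 1, 3, 2], .r 989 [1, 4, 3] [1, 1, 3, 2], .l [3, 2, 3], .r 520 [1, 4, 3] [1, 1, 3, 2], .r 520 [1, 4, 3] [1, 1, 1, 2], .l [6, 1, 8, 2, 2, 3], .l [3, 2, 5], .r 520 [1, 4, 3] [1, 3, 1, 2], .l [3, 2, 5], .l [3, 2, 8, 4, 2, 3], .l [3, 2, 8], .r 852 [1, 4, 3] [1, 3, 2, 1]]),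
([p 2 1, s 4 0, g, s 1 0, g, p 0 2, s 3 0, g, m 0 3, g, s 0 4, g], .hi 6, [.l [3, 7, 3], .l [5, 4, 10, 1, 1, 6, 4, 1], .l [3, 7, 3], .l [5, 7, 1], .l [3, 2, 10, 1, 1, 4, 2, 3], .l [5, 7, 1], .l [3, 2, 8, 1, 1, 2, 0, 1], .l [6, 9, 6, 2, 8, 4, 2, 3], .l [3, 2, 5, 8, 1, 6, 1], .r 2574 [1, 2, 5] [1, 1, 1, 5], .y [6, 8], .l [6, 9, 6, 2, 8, 4, 2, 3], .l [3, 2, 5, 8, 1, 6, 1], .r 2574 [1, 2, 5] [1, 1, 3, 3], .l [3, 2, 8, 1, 1, 6, 4, 1], .l [3, 2, 8, 10, 6, 1], .l [3, 2, 5, 10, 3, 8, 1], .l [3, 2, 8, 1, 1, 8, 6, 1]]),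
([p 3 1, s 0 2, g, s 1 0, g, p 0 3, s 4 0, g, s 2 0, g, m 0 4, g], .lo 1, [.l [10, 8, 3, 7, 4, 6, 4, 5], .l [10, 8, 9, 3, 8, 1, 4, 1], .l [2, 7, 4, 4, 1], .l [2, 5, 2, 2, 1], .l [3, 2, 8, 4, 6, 1, 2, 5], .l [10, 8, 9, 3, 8, 3, 4, 1], .l [3, 2, 3], .l [1, 5, 3], .l [8, 6, 7, 3, 8, 1, 4, 1], .l [8, 6, 7, 3, 8], .l [3, 2, 6], .y [1, 8], .l [8, 6, 7, 3, 8, 1, 4, 1], .l [10, 8, 9, 5, 8], .l [3, 2, 8], .r 3378 [1, 3, 4, 5] [1, 1, 3, 1, 1], .l [12, 10, 11, 7, 3], .l [3, 2, 10]]),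
([p 2 1, s 0 0, g, s 1 0, g, p 0 2, s 4 3, g, s 3 0, g, m 0 4, g], .hi 1, [.y [1], .l [2, 8, 10, 1, 8, 4, 4, 1], .l [2, 7, 4, 4, 1], .r 578 [1, 5, 2] [1, 1, 1, 6], .l [10, 1, 6, 7, 4, 6, 4, 5], .l [3, 2, 3], .l [10, 1, 6, 7, 4, 6, 4, 5], .l [3, 2, 3], .l [3, 2, 6, 8, 6, 1], .l [3, 2, 6], .l [8, 6, 7, 3, 8], .r 3379 [1, 5, 2, 4] [1, 1, 3, 1, 1], .l [3, 2, 8], .l [10, 8, 9, 5, 8], .l [10, 8, 9, 5, 3], .l [6, 9, 6, 2, 8, 4, 2, 3], .l [3, 2, 10], .l [12, 10, 11, 7, 3]]),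
([p 2 1, g, s 1 0, g, p 0 2, s 4 3, g, s 3 0, g, m 0 4, g], .top 1, [.c, .r 3380 [1, 2, 3, 4] [1, 1, 1, 1, 1], .r 334 [] [10], .r 444 [] [10]]),
([p 1 0, g, p 0 1, s 3 2, g, s 2 0, g, m 0 3, g], .hi 0, [.r 3381 [4, 1, 2, 3] [1, 1, 1, 1, 1], .l [0, 1], .l [2, 1], .y [0, 2], .l [5, 4, 4, 2, 5], .l [0, 4], .l [5, 4], .l [7, 6, 6, 4, 5], .l [0, 6], .l [7, 6], .l [7, 6], .l [9, 8, 8, 6, 3], .l [0, 8], .l [9, 8]]),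
([p 1 0, g, p 0 1, s 3 2, g, p 2 0, g, m 0 3, g], .hi 0, [.l [2, 1, 4, 6, 1, 4, 1], .l [0, 1], .l [2, 1], .y [0, 2], .l [5, 4, 4, 2, 5], .l [0, 4], .l [5, 4], .l [7, 6, 6, 4, 5], .l [0, 6], .l [7, 6], .l [7, 6], .l [9, 8, 8, 6, 3], .l [0, 8], .l [9, 8]]),
([p 1 0, g, p 0 1, s 3 2, g, m 0 3, g, m 2 0, g], .hi 0, [.r 2575 [4, 1, 2] [1, 1, 3, 1], .l [0, 1], .l [2, 1], .y [0, 2], .l [5, 4, 4, 2, 3], .l [0, 4], .l [5, 4], .l [5, 4], .l [7, 6, 6, 4, 1], .l [0, 6], .l [7, 6], .l [9, 8, 8, 6, 1], .l [0, 8], .l [9, 8]]),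
([p 2 1, s 0 0, g, s 1 0, g, p 0 2, s 4 3, g, m 0 4, g, s 3 0, g], .lo 1, [.y [1], .l [2, 8, 10, 1, 8, 4, 4, 1], .r 1556 [1, 5, 2] [1, 1, 1, 6], .l [2, 7, 4, 4, 1], .l [2, 5, 2, 2, 1], .l [4, 8, 10, 1, 8, 2, 2, 3], .r 2050 [1, 5, 2] [1, 1, 1, 6], .l [3, 2, 3], .l [3, 2, 6, 10, 8, 1], .l [8, 6, 7, 3, 6], .l [3, 2, 6], .l [3, 2, 8, 10, 6, 1], .l [10, 8, 9, 5, 1], .l [3, 2, 8], .l [3, 2, 8, 1, 1, 6, 4, 1], .l [6, 9, 6, 2, 8, 4, 2, 3], .l [12, 10, 11, 7, 1], .l [3, 2, 10]]),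
([p 1 0, s 0 0, g, p 0 1, s 3 2, g, m 0 3, g, s 2 0, g], .hi 0, [.c, .r 3385 [4, 1, 2, 3] [1, 1, 1, 1, 1], .l [0, 2], .l [3, 2], .y [0, 3], .l [6, 5, 5, 2, 5], .l [0, 5], .l [6, 5], .l [6, 5], .l [8, 7, 7, 4, 1], .l [0, 7], .l [8, 7], .l [10, 9, 9, 6, 1], .l [0, 9], .l [10, 9]]),
([p 1 0, g, p 0 1, s 3 2, g, m 0 3, g, s 2 0, g], .top 1, [.r 334 [] [6], .r 3386 [1, 2, 3] [1, 1, 1, 1], .r 334 [] [8], .r 444 [] [8]]),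
([p 1 0, g, p 2 0, g, p 4 1, s 3 2, g, m 0 3, g, p 5 4, g, p 6 5, g, p 7 6, g, p 8 7, g, p 0 8, g], .lo 7, [.l [7, 6], .l [9, 6, 8, 4, 1], .l [9, 6], .l [14, 7, 1, 7, 3, 7, 1, 10, 4, 1, 6, 8, 4, 5, 7, 5, 5, 1], .y [2, 7, 5], .l [9, 4, 8, 6, 1], .l [9, 4], .l [7, 8, 14, 15, 14, 14, 12, 12, 10, 10, 7, 3, 6, 1, 5, 1, 5, 1], .l [9, 1, 10, 5, 1, 4, 1], .l [9, 1], .l [5, 8, 8, 6, 14, 15, 14, 14, 12, 12, 10, 10, 8, 8, 5, 1, 4, 1], .l [5, 6, 8, 1, 8, 5, 1, 4, 1], .l [9, 1], .l [7, 8], .l [5, 6, 10, 3, 4, 2, 8, 5, 1, 4, 1], .l [11, 3], .l [7, 10], .l [5, 6, 12, 5, 6, 4, 4, 2, 8, 5, 1, 4, 1], .l [13, 5], .l [7, 12], .l [5, 6, 14, 7, 8, 6, 6, 4, 4, 2, 8, 5, 1, 4, 1], .l [15, 7], .l [7, 14], .l [5, 6, 16, 9, 10, 8, 8, 6, 6, 4, 4,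 2, 8, 5, 1, 4, 1], .l [17, 9], .l [7, 16], .l [3, 5, 5, 5, 15, 11, 13, 0, 9], .l [19, 11], .l [7, 18]]),
([p 1 0, g, p 2 0, g, p 4 1, s 3 2, g, m 0 3, g, p 5 4, g, p 6 5, g, p 7 6, g, p 0 7, g], .lo 15, [.y [0, 15, 13, 11, 9, 4], .l [2, 16, 7, 7, 10, 2, 9], .l [2, 16], .l [1, 6, 4, 15], .l [2, 14], .l [3, 1, 5, 2, 13], .l [4, 16], .l [3, 6, 2, 15], .l [5, 8, 1, 14, 14, 12, 12, 10, 10, 8, 8, 5, 1, 4, 1], .l [7, 16], .l [5, 8, 1, 14, 14, 12, 12, 10, 10, 8, 8, 5, 1, 4, 1], .l [8, 1, 1, 9, 6, 1, 5, 2, 9], .l [9, 16], .l [8, 11, 6, 6, 2, 13], .l [10, 3, 3, 11, 9, 9, 6, 1, 5, 2, 7], .l [11, 16], .l [10, 13, 11, 11, 6, 6, 2, 11], .l [12, 5, 5, 13, 11, 11, 9, 9, 6, 1, 5, 2, 5], .l [13, 16], .l [12, 15, 13, 13, 11, 11, 6, 6, 2,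 9], .l [14, 7, 7, 15, 13, 13, 11, 11, 9, 9, 6, 1, 5, 2, 1], .l [15, 16], .l [14, 17, 15, 15, 13, 13, 11, 11, 6, 6, 2, 1], .l [14, 7, 7, 13, 11, 11, 9, 9, 7, 7, 4, 1, 3, 0, 3], .r 3388 [1, 2, 3, 4, 5, 6, 7, 8] [1, 1, 1, 1, 1, 1, 1, 1, 1], .l [14, 15, 13, 13, 11, 11, 9, 9, 4, 4, 0, 7]]),
([p 1 0, g, p 2 0, g, p 4 1, s 3 2, g, m 0 3, g, p 5 4, g, p 6 5, g, p 0 6, g], .lo 13, [.y [0, 13, 11, 9, 4], .l [2, 14, 5, 5, 8, 2, 7], .l [2, 14], .l [1, 6, 4, 13], .l [2, 12], .l [3, 1, 5, 2, 11], .l [4, 14], .l [3, 6, 2, 13], .l [5, 8, 1, 12, 12, 10, 10, 8, 8, 5, 1, 4, 1], .l [7, 14], .l [5, 8, 1, 12, 12, 10, 10, 8, 8, 5, 1, 4, 1], .l [8, 1, 1, 9, 6, 1, 5, 2, 7], .l [9, 14], .l [8, 11, 6, 6, 2, 11], .l [10, 3, 3, 11, 9, 9, 6, 1, 5,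 2, 5], .l [11, 14], .l [10, 13, 11, 11, 6, 6, 2, 9], .l [12, 5, 5, 13, 11, 11, 9, 9, 6, 1, 5, 2, 1], .l [13, 14], .l [12, 15, 13, 13, 11, 11, 6, 6, 2, 1], .l [12, 5, 5, 11, 9, 9, 7, 7, 4, 1, 3, 0, 3], .r 3389 [1, 2, 3, 4, 5, 6, 7] [1, 1, 1, 1, 1, 1, 1, 1], .l [12, 13, 11, 11, 9, 9, 4, 4, 0, 7]]),
([p 1 0, g, p 2 0, g, p 4 1, s 3 2, g, m 0 3, g, p 5 4, g, p 0 5, g], .lo 11, [.y [0, 11, 9, 4], .l [2, 12, 3, 3, 6, 2, 5], .l [2, 12], .l [1, 6, 4, 11], .l [2, 10], .l [3, 1, 5, 2, 9], .l [4, 12], .l [3, 6, 2, 11], .l [5, 8, 1, 10, 10, 8, 8, 5, 1, 4, 1], .l [7, 12], .l [5, 8, 1, 10, 10, 8, 8, 5, 1, 4, 1], .l [8, 1, 1, 9, 6, 1, 5, 2, 5], .l [9, 12], .l [8, 11, 6, 6, 2, 9], .l [10, 3, 3, 11, 9, 9, 6, 1, 5, 2, 1], .l [11, 12], .l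 [10, 13, 11, 11, 6, 6, 2, 1], .l [10, 3, 3, 9, 7, 7, 4, 1, 3, 0, 3], .r 3390 [1, 2, 3, 4, 5, 6] [1, 1, 1, 1, 1, 1, 1], .l [10, 11, 9, 9, 4, 4, 0, 7]])]

def d13_1 : List (List Item × Qry × List Rf) := [
([p 1 0, g, p 2 0, g, p 4 1, s 3 2, g, m 0 3, g, p 0 4, g], .lo 9, [.y [0, 9, 4], .l [2, 10, 1, 1, 4, 2, 3], .l [2, 10], .l [1, 6, 4, 9], .l [2, 8], .l [3, 1, 5, 2, 7], .l [4, 10], .l [3, 6, 2, 9], .l [5, 8, 1, 8, 8, 5, 1, 4, 1], .l [7, 10], .l [5, 8, 1, 8, 8, 5, 1, 4, 1], .l [8, 1, 1, 9, 6, 1, 5, 2, 1], .l [9, 10], .l [8, 11, 6, 6, 2, 1], .l [8, 1, 1, 7, 4, 1, 3, 0, 3], .r 3391 [1, 2, 3, 4, 5] [1, 1, 1, 1, 1, 1], .l [8, 9, 4, 4, 0, 7]]),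
([p 1 0, g, p 2 0, g, p 0 1, s 3 2, g, m 0 3, g], .lo 4, [.y [0, 4], .l [5, 1, 5, 0, 1], .l [2, 5], .l [1, 6, 4, 3], .l [2, 3], .l [3, 1, 5, 2, 1], .l [4, 5], .l [3, 6, 2, 1], .l [3, 1, 3, 0, 3], .l [3, 5, 7, 3, 5, 0, 1], .l [3, 4, 0, 5], .l [3, 1, 3, 0, 5], .r 3392 [1, 2, 3, 4] [1, 1, 1, 1, 1], .l [3, 4, 0, 7]]),
([p 1 0, g, p 0 1, s 3 2, g, m 2 0, g, m 0 3, g], .hi 0, [.r 2575 [4, 1, 2] [1, 1, 1, 3], .l [0, 1], .l [2, 1], .y [0, 2], .l [5, 4, 4, 2, 5], .l [0, 4], .l [5, 4], .l [7, 6, 6, 4, 5], .l [0, 6], .l [7, 6], .l [7, 6], .l [9, 8, 8, 6, 3], .l [0, 8], .l [9, 8]]),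
([p 2 1, s 0 0, g, s 1 0, g, p 3 2, s 0 3, g], .hi 1, [.y [1], .r 1053 [1, 4, 2] [1, 1, 1, 2], .l [2, 7, 4, 4, 1], .r 578 [1, 4, 2] [1, 1, 1, 2], .r 989 [1, 4, 2] [1, 1, 1, 2], .l [3, 2, 3], .r 520 [1, 4, 2] [1, 1, 1, 2], .l [1, 5, 3], .l [3, 2, 6, 2, 0, 1], .l [3, 2, 6], .r 852 [1, 4, 2] [1, 1, 2, 1]]),
([p 2 1, g, s 1 0, g, p 3 2, s 0 3, g], .top 1, [.c, .r 3395 [1, 2, 3] [1, 1, 1], .r 334 [] [6], .r 444 [] [6]]),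
([p 1 0, g, p 2 1, s 0 2, g], .hi 0, [.r 3396 [3, 1, 2] [1, 1, 1], .l [0, 1], .l [2, 1], .y [0, 3, 2], .l [0, 4, 2, 0, 1], .l [0, 4], .l [5, 4]]),
([p 1 0, g, p 0 1, s 3 2, g, m 0 3, g, p 2 0, g], .hi 0, [.l [2, 1, 4, 6, 1, 4, 1], .l [0, 1], .l [2, 1], .y [0, 2], .l [5, 4, 4, 2, 3], .l [0, 4], .l [5, 4], .l [5, 4], .l [7, 6, 6, 4, 1], .l [0, 6], .l [7, 6], .l [9, 8, 8, 6, 1], .l [0, 8], .l [9, 8]]),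
([p 1 0, g, p 0 1, s 2 0, g, m 0 2, g], .hi 3, [.l [2, 4, 1], .r 3393 [1, 3, 2] [1, 1, 1, 1], .l [2, 4, 1], .r 3397 [1, 3] [1, 3], .r 3382 [1, 3, 2] [1, 1, 1, 1], .r 3383 [1, 3, 2] [1, 1, 1, 1], .r 3394 [1, 3, 2] [1, 1, 1, 1], .y [3, 5], .r 3387 [1, 3, 2] [1, 1, 1, 1], .r 3398 [1, 3, 2] [1, 1, 1, 1], .r 3384 [1, 3, 2] [1, 1, 1, 1]]),
([p 4 1, s 0 2, g, s 1 0, s 0 3, g, p 0 4, s 5 0, g, s 3 0, g, p 0 5, g, s 2 0, g], .lo 4, [.l [5, 4, 13, 3, 6, 9, 2, 6, 1], .l [5, 4, 7, 2, 3], .l [11, 4, 7, 2, 7, 10], .c, .l [5, 8, 2, 5, 2, 11], .l [4, 10, 12, 10, 3, 1, 5, 2], .l [3, 2, 7, 4, 1], .l [3, 2, 5, 2, 4, 9], .l [9, 4, 10, 5, 2, 9, 2, 5], .l [3, 2, 13, 3, 8, 1, 8, 3], .l [3, 2, 5, 2, 6], .y [4, 9], .l [9, 4, 10, 5, 2, 9, 2, 5],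 .l [9, 4, 8, 6, 8, 5, 2, 9], .l [3, 2, 5, 2, 8], .l [9, 4, 12, 7, 2, 2, 8, 3], .l [9, 4, 8, 6, 10, 7, 2, 9], .l [3, 2, 5, 2, 10], .l [3, 2, 11, 3, 6, 9, 2, 6], .l [9, 4, 14, 9, 2, 2, 10, 5], .l [9, 4, 8, 6, 12, 9, 2, 5], .l [3, 2, 5, 2, 12]]),
([p 4 1, s 0 2, g, s 1 0, s 0 3, g, p 0 4, s 5 0, g, p 0 5, g, s 3 0, g, s 2 0, g], .hi 7, [.l [0, 6, 5, 5, 2, 7], .l [3, 8, 4], .l [5, 4, 13, 11, 5, 2], .l [3, 8, 4], .l [3, 2, 5, 2, 4, 9], .l [6, 8, 1], .l [3, 2, 13, 8, 2, 8], .l [6, 8, 1], .l [3, 2, 11, 6, 0, 6], .l [3, 2, 8, 1, 9, 7, 2, 7], .r 2532 [1, 2, 4, 6] [1, 2, 1, 5, 1], .l [3, 2, 8, 1, 9, 7, 2], .y [7, 9], .l [3, 2, 8, 1, 9, 7, 2, 7], .l [9, 1, 12, 7, 2, 10, 6, 4, 5], .l [3, 2, 8, 1, 9, 7, 2], .l [3, 2, 8, 1, 11, 9, 2,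 5], .r 2532 [1, 2, 4, 6] [1, 2, 5, 1, 1], .l [3, 2, 8, 1, 11, 9, 2], .l [3, 2, 11, 13, 7, 2], .r 2530 [1, 2, 4, 6] [1, 2, 5, 1, 1], .l [3, 2, 11, 13, 7, 2]]),
([p 4 1, s 0 2, g, s 1 0, s 0 3, g, p 0 4, s 5 0, g, p 0 5, g, s 2 0, g, s 3 0, g], .hi 7, [.l [0, 6, 5, 5, 2, 9], .l [3, 8, 4], .l [5, 4, 11, 9, 5, 2], .l [3, 8, 4], .l [3, 2, 5, 2, 4, 7], .l [6, 8, 1], .l [3, 2, 11, 6, 2, 6], .l [6, 8, 1], .l [3, 2, 9, 4, 0, 4], .l [3, 2, 8, 1, 9, 7, 2, 9], .r 2532 [1, 2, 4, 6] [1, 2, 1, 3, 3], .l [3, 2, 8, 1, 9, 7, 2], .y [7, 9], .l [3, 2, 8, 1, 9, 7, 2, 9], .r 2532 [1, 2, 4, 6] [1, 2, 3, 1, 3], .l [3, 2, 8, 1, 9, 7, 2], .l [3, 2, 9, 11, 7, 2], .r 2530 [1, 2, 4, 6] [1, 2, 3, 1, 3], .l [3, 2, 9, 11, 7, 2], .l [3, 2, 9, 13, 9, 2],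 .r 2530 [1, 2, 4, 6] [1, 2, 3, 3, 1], .l [3, 2, 9, 13, 9, 2]]),
([p 4 1, s 0 2, g, s 3 0, g, s 1 0, s 0 3, g, p 0 4, s 5 0, g, p 0 5, g, s 2 0, g], .hi 9, [.l [0, 8, 7, 7, 2, 3], .l [3, 10, 6], .l [7, 6, 13, 11, 7, 2], .l [3, 10, 6], .l [5, 10, 4], .l [7, 6, 13, 9, 5, 2], .l [5, 10, 4], .l [5, 4, 7, 2, 6, 9], .l [8, 10, 1], .l [5, 4, 13, 6, 2, 6], .l [8, 10, 1], .l [5, 4, 11, 4, 0, 4], .l [5, 4, 10, 1, 11, 9, 2, 3], .r 2532 [1, 2, 4, 6] [3, 2, 1, 3, 1], .l [5, 4, 10, 1, 11, 9, 2], .y [9, 11], .l [5, 4, 10, 1, 11, 9, 2, 3], .r 2532 [1, 2, 4, 6] [3, 2, 3, 1, 1], .l [5, 4, 10, 1, 11, 9, 2], .l [5, 4, 11, 13, 9, 2], .r 2530 [1, 2, 4, 6] [3, 2, 3, 1, 1], .l [5, 4, 11, 13, 9, 2]]),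
([p 3 1, s 0 2, g, s 1 0, s 0 0, g, p 0 3, s 4 0, g, p 0 4, g, s 2 0, g], .hi 4, [.r 2175 [1, 5, 3] [1, 0, 1, 6], .r 3403 [1, 2, 5, 3, 4] [1, 1, 1, 1, 1, 1], .l [11, 1, 7, 2, 7, 8], .l [5, 4, 7, 2, 3], .y [4], .l [5, 8, 2, 5, 2, 9], .l [3, 2, 7, 4, 1], .r 2057 [1, 5, 3] [1, 1, 1, 6], .l [3, 2, 5, 2, 1], .r 3400 [1, 2, 5, 3, 4] [1, 1, 1, 1, 1, 1], .l [3, 2, 5, 2, 6], .r 2054 [1, 5, 3] [1, 1, 2, 5], .l [3, 2, 5, 2, 6], .r 3401 [1, 2, 5, 3, 4] [1, 1, 1, 1, 1, 1], .l [3, 2, 5, 2, 8], .l [9, 1, 10, 5, 2, 8], .r 3402 [1, 2, 5, 3, 4] [1, 1, 1, 1, 1, 1], .l [3, 2, 5, 2, 10], .l [9, 1, 12, 7, 2, 3]]),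
([p 2 1, s 0 0, g, s 1 0, s 0 0, g, p 0 2, s 3 0, g, p 0 3, g], .hi 1, [.y [1], .r 1052 [1, 4, 2] [1, 1, 1, 4], .l [2, 8, 5, 5, 2], .r 578 [1, 4, 2] [1, 1, 2, 4], .r 989 [1, 4, 2] [1, 0, 1, 4], .r 989 [1, 4, 2] [1, 2, 1, 4], .l [3, 2, 4], .r 520 [1, 4, 2] [1, 2, 1, 4], .l [3, 2, 4], .l [3, 2, 7, 9, 7, 2], .l [3, 2, 7], .r 852 [1, 4, 2] [1, 2, 2, 3], .l [3, 2, 7], .r 3404 [1, 4, 2, 3] [1, 1, 1, 1, 1], .l [3, 2, 9], .r 852 [1, 4, 2] [1, 2, 4, 1]]),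
([p 3 1, s 0 0, g, m 0 2, g, s 1 0, g, p 0 3, s 2 0, g], .hi 1, [.y [1], .r 1053 [1, 4, 3] [1, 3, 1, 2], .l [2, 9, 6, 6, 1], .r 578 [1, 4, 3] [1, 3, 1, 2], .r 578 [1, 4, 3] [1, 1, 1, 2], .l [4, 1, 8, 4, 4, 1], .l [4, 9, 4, 4, 1], .r 578 [1, 4, 3] [3, 1, 1, 2], .l [5, 4, 5, 3, 6, 3], .l [5, 4, 5], .r 520 [1, 4, 3] [3, 1, 1, 2], .l [5, 4, 5], .l [5, 4, 8, 6, 4, 1], .l [5, 4, 8], .r 852 [1, 4, 3] [3, 1, 2, 1]]),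
([p 3 1, s 0 2, g, s 1 0, s 4 0, g, p 0 3, g, p 0 4, g, s 2 0, g], .lo 1, [.l [12, 10, 11, 4, 9, 5, 2, 5], .r 1556 [1, 5, 3] [1, 1, 2, 5], .l [2, 8, 5, 5, 2], .l [2, 6, 3, 3, 2], .l [4, 2, 5, 1, 5, 2, 2, 3], .l [6, 4, 7, 1, 7, 2, 4, 5], .l [6, 4, 7, 1, 7, 2, 4, 5], .l [3, 2, 4], .l [3, 2, 10, 3, 8, 4, 2, 3], .l [8, 6, 11, 4, 8, 5], .l [3, 2, 6], .l [10, 8, 9, 4, 9, 5, 2, 5], .l [10, 8, 9, 4, 9, 5, 2, 5], .l [3, 2, 8], .y [1, 10], .l [10, 8, 9, 4, 9, 5, 2, 5], .l [10, 8, 9, 4, 9, 5, 2, 5], .l [3, 2, 10]]),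
([p 3 1, s 0 2, g, s 1 0, s 4 0, g, p 0 3, g, s 2 0, g, p 0 4, g], .hi 4, [.l [4, 2, 5, 1, 7, 4, 4, 1], .l [6, 2, 7, 1, 9, 4, 6, 3], .l [12, 5, 8, 2, 8], .l [5, 4, 7, 2, 3], .l [5, 8, 2, 5, 2, 5], .l [3, 2, 7, 4, 1], .l [6, 1, 11, 9, 2], .l [3, 2, 5, 2, 1], .l [8, 3, 7, 5, 9, 7, 2, 3], .l [3, 2, 5, 2, 5], .l [8, 3, 7, 5, 9, 7, 2], .l [10, 5, 9, 7, 9, 5, 2, 5], .l [3, 2, 5, 2, 7], .l [10, 5, 9, 7, 9, 5, 2], .y [4, 10], .l [10, 5, 9, 7, 9, 5, 2, 5], .l [3, 2, 5, 2, 9], .l [10, 5, 9, 7, 9, 5, 2]]),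
([p 2 1, s 0 0, g, s 1 0, s 3 0, g, p 0 2, g, p 0 3, g], .hi 1, [.y [1], .r 1052 [1, 4, 2] [1, 1, 1, 3], .l [2, 8, 5, 5, 2], .r 578 [1, 4, 2] [1, 1, 2, 3], .r 989 [1, 4, 2] [1, 2, 1, 3], .l [3, 2, 4], .r 520 [1, 4, 2] [1, 2, 1, 3], .l [3, 2, 4], .r 3408 [1, 4, 2, 3] [1, 1, 1, 1, 1], .l [3, 2, 6], .r 852 [1, 4, 2] [1, 2, 1, 3], .l [3, 2, 6], .r 3407 [1, 4, 2, 3] [1, 1, 1, 1, 1], .l [3, 2, 8], .r 852 [1, 4, 2] [1, 2, 3, 1]]),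
([p 2 1, g, s 1 0, s 3 0, g, p 0 2, g, p 0 3, g], .top 1, [.c, .r 3409 [1, 2, 3] [1, 1, 1, 1], .r 334 [] [8], .r 444 [] [8]]),
([p 3 1, s 0 0, g, s 1 0, s 2 0, g, s 0 2, g, p 0 3, g], .hi 1, [.y [1], .l [2, 10, 7, 7, 4, 1], .l [2, 10, 7, 7, 4], .r 578 [1, 4, 3] [1, 1, 4, 1], .l [7, 10, 2, 5, 2, 5], .l [3, 2, 4], .r 520 [1, 4, 3] [1, 2, 3, 1], .l [5, 8, 2, 5, 2, 3], .l [5, 10, 4, 7, 2, 3], .l [3, 2, 6], .l [5, 10, 4, 7, 2, 3], .l [3, 2, 6], .l [5, 8, 2, 5, 2, 5], .l [3, 2, 8], .r 852 [1, 4, 3] [1, 4, 1, 1]]),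
([p 3 1, g, s 1 0, s 2 0, g, s 0 2, g, p 0 3, g], .top 1, [.c, .r 3411 [1, 2, 3] [1, 1, 1, 1], .r 334 [] [8], .r 444 [] [8]]),
([p 4 1, g, s 0 2, g, s 1 0, s 2 0, g, s 0 3, p 0 4, g, p 3 0, g], .lo 8, [.l [1, 10, 8, 7, 8], .l [2, 9], .l [0, 5, 3, 7, 8], .l [3, 10, 6, 5, 8], .l [4, 9], .l [0, 5, 1, 7, 8], .y [0, 4, 8], .l [4, 3, 7, 3, 2], .l [6, 10, 3, 2, 8], .l [7, 9], .l [4, 3, 9, 5, 6, 4, 2, 5], .l [4, 3, 7, 3, 4, 6, 4, 5], .l [4, 3, 7, 3, 4, 6, 4, 5], .l [7, 8, 0, 8], .l [4, 3, 7, 3, 4, 6, 4, 3], .l [4, 3, 7, 3, 4, 8, 6, 3], .l [4, 3, 7, 3, 4, 8, 6, 3], .l [7, 8, 0, 10]]),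
([p 4 1, g, m 0 2, g, s 1 0, s 2 0, g, s 0 3, g, p 0 4, s 0 0, g, p 3 0, g], .hi 10, [.l [2, 11, 8], .l [3, 1, 10, 7, 2], .l [2, 11, 8], .l [2, 9, 6], .l [4, 11, 6], .l [6, 2, 11, 4, 5], .l [4, 11, 6], .l [7, 11, 3], .l [8, 1, 10, 2, 10], .l [7, 11, 3], .l [7, 9, 1], .l [9, 11, 1], .l [7, 13, 4, 2, 3], .l [9, 11, 1], .l [7, 11, 2, 0, 1], .y [10], .l [13, 6, 12, 9, 1, 6, 2, 5], .l [13, 6, 12, 9, 1], .r 2575 [1, 4, 5] [3, 4, 1, 3], .l [11, 9, 2, 8, 4, 7, 4, 7], .l [11, 4, 10, 7, 10], .l [7, 11, 13, 11, 1]]),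
([p 3 1, g, s 1 0, s 5 0, g, s 0 2, p 4 3, g, p 0 4, g, p 2 0, g, s 0 5, g], .hi 3, [.l [4, 3, 7, 3, 4, 6, 4, 5], .l [4, 8, 3, 4, 8, 6, 7], .l [4, 3, 7, 3, 4], .l [4, 8, 3, 5, 1, 6, 4, 5], .l [2, 1, 7, 5, 1], .r 2058 [1, 6, 3] [1, 1, 2, 7], .l [4, 6, 1, 3, 1, 4, 2, 3], .l [2, 1, 5, 3, 4, 6, 4, 5], .l [2, 1, 5, 3, 4], .l [8, 4, 7, 4, 7, 2, 6], .l [2, 1, 5, 3, 4], .l [2, 1, 9, 6, 2, 5, 8, 6, 2, 3], .l [2, 1, 5, 3, 6], .l [2, 1, 9, 6, 2, 5, 8, 6, 2, 3], .l [2, 1, 11, 8, 2, 7, 8, 4, 2, 3], .l [2, 1, 5, 3, 8], .l [2, 1, 11, 8, 2, 7, 8, 4, 2, 3], .y [3, 12], .l [2, 1, 11, 8, 2, 7, 8, 4, 2, 3], .l [2, 1, 5, 3, 10], .r 2055 [1, 6, 3] [1, 2, 7, 1]]),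
([p 3 1, g, s 1 0, s 4 0, g, s 0 2, p 0 3, g, p 2 0, g, s 0 4, g], .lo 6, [.l [1, 8, 6, 5, 6], .l [2, 7], .l [0, 3, 1, 5, 6], .y [0, 2, 6], .l [2, 1, 5, 3, 2], .l [4, 8, 3, 2, 6], .l [5, 7], .l [2, 1, 7, 5, 8, 6, 2, 3], .l [2, 1, 5, 3, 8, 1, 4, 1], .r 3415 [1, 2, 3, 5, 4] [1, 1, 1, 1, 1, 1], .l [5, 6, 0, 6], .l [2, 1, 5, 3, 6, 1, 2, 1], .l [2, 1, 5, 3, 8, 3, 4, 1], .l [2, 1, 5, 3, 8, 3, 4, 1], .l [5, 6, 0, 8], .l [2, 1, 5, 3, 6, 1, 2, 5], .l [2, 1, 5, 3, 6, 8, 4, 5], .l [5, 6, 0, 10]]),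
([p 4 1, g, s 0 2, s 1 3, s 0 0, g, p 0 4, g, s 2 0, g, p 3 0, g], .hi 4, [.l [10, 5, 10, 1, 8, 5], .l [1, 8, 6, 3, 8], .l [2, 5, 10], .l [0, 2, 2, 7], .y [4], .l [5, 8, 2, 5, 8, 5, 6, 1], .l [3, 2, 7, 4, 1], .r 2058 [1, 5, 4] [2, 1, 1, 5], .l [3, 2, 5, 2, 1], .l [10, 7, 10, 1, 8, 3], .l [3, 2, 5, 2, 4], .r 2055 [1, 5, 4] [2, 1, 1, 5], .l [8, 5, 10, 3, 8, 5], .l [3, 2, 5, 2, 6], .l [8, 5, 10, 3, 8, 5], .l [3, 2, 5, 2, 8, 1, 4, 1], .l [3, 2, 5, 2, 8], .l [0, 2, 6, 10, 6, 3]]),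
([p 4 1, s 0 0, g, s 0 2, s 1 3, g, p 0 4, g, p 3 0, g, s 2 0, g], .hi 1, [.y [1], .l [12, 6, 10, 1, 5, 7], .l [2, 8, 5, 5, 1], .r 578 [1, 5, 4] [1, 2, 1, 5], .l [10, 6, 8, 1], .l [5, 8, 2, 2, 4, 7], .l [4, 3, 4], .l [12, 8, 10, 7], .l [4, 3, 4], .l [4, 9, 1, 4, 6, 7], .l [4, 3, 6], .l [12, 8, 10, 5], .l [12, 8, 10, 3, 5, 7], .l [4, 3, 8], .l [12, 8, 10, 3], .l [10, 6, 8, 9, 1, 3], .l [4, 3, 10], .l [3, 6, 2, 6, 10, 6, 1]]),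
([p 4 1, g, s 0 2, s 1 3, g, p 0 4, g, p 3 0, g, s 2 0, g], .top 1, [.r 2173 [1] [7], .r 3418 [1, 2, 3, 4] [1, 1, 1, 1, 1], .r 334 [] [10], .r 444 [] [10]]),
([p 4 1, s 0 0, g, s 2 0, g, s 0 2, s 1 3, g, p 0 4, g, p 3 0, g], .hi 1, [.y [1], .r 1053 [1, 5, 4] [1, 4, 1, 3], .l [2, 10, 7, 7, 1], .r 578 [1, 5, 4] [1, 4, 1, 3], .r 1053 [1, 5, 4] [3, 2, 1, 3], .l [4, 10, 5, 5, 1], .r 578 [1, 5, 4] [3, 2, 1, 3], .r 1053 [1, 5, 4] [3, 0, 1, 3], .l [7, 10, 2, 2, 6, 1], .l [6, 5, 6], .r 517 [1, 5, 4] [3, 1, 1, 3], .l [6, 5, 6], .l [6, 11, 1, 4, 8, 1], .l [6, 5, 8], .r 851 [1, 5, 4] [3, 1, 1, 3], .l [5, 1, 7, 2, 6, 8, 4, 1], .l [6, 5, 10], .l [5, 1, 7, 2, 6, 8, 4, 1]]),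
([p 4 1, g, s 2 0, g, s 0 2, s 1 3, g, p 0 4, g, p 3 0, g], .top 1, [.r 1018 [1, 2, 4] [1, 0, 1, 3], .r 3420 [1, 2, 3, 4] [1, 1, 1, 1, 1], .r 334 [] [10], .r 444 [] [10]]),
([p 5 1, s 0 2, g, p 3 0, g, s 0 3, s 1 4, g, p 0 5, g, s 2 0, g, p 4 0, g], .lo 5, [.l [3, 6, 7, 3, 8, 3, 4, 7], .l [0, 7, 3], .l [6, 10, 3, 7, 1, 5, 8], .y [3, 5], .l [8, 7, 10, 6, 1, 6, 4, 7], .l [0, 7, 1], .l [6, 10, 3, 7, 1, 5, 8], .l [0, 5, 6, 8, 6, 7], .l [2, 10, 7, 1, 4, 2, 8], .l [0, 5, 6], .l [10, 4, 8, 9, 1, 9], .l [2, 8, 5, 1, 7, 5, 8], .l [0, 5, 8], .l [6, 5, 8, 6, 1, 6, 4, 5], .l [12, 6, 10, 5, 3, 1], .l [2, 8, 5, 1, 9, 7, 8], .l [0, 5, 10], .l [2, 8, 5, 1, 9, 7, 6], .l [14, 8, 12, 7, 5, 1], .l [2, 8, 5, 1, 11, 9, 6], .l [0, 5, 12]]),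
([p 5 1, s 0 0, g, p 2 0, g, s 0 2, s 1 3, s 0 4, g, p 0 5, g, s 4 0, g, p 3 0, g], .hi 1, [.y [1], .l [2, 11, 8, 8, 2, 8], .l [2, 11, 8, 8, 2], .r 578 [1, 6, 5] [1, 4, 2, 5], .l [4, 11, 6, 6, 2, 8], .l [4, 11, 6, 6, 2], .l [6, 11, 4, 6, 8, 6, 2, 6], .l [4, 9, 4, 4, 2, 6], .l [6, 12, 1, 3, 1, 2, 2, 6], .l [5, 11, 5, 13, 10, 2, 10, 1], .l [6, 5, 7], .l [3, 9, 6, 2, 6, 10, 6, 9], .l [6, 5, 7], .r 3422 [1, 6, 2, 3, 5] [1, 1, 2, 1, 3, 1], .l [6, 5, 9], .l [4, 9, 4, 6, 8, 6, 2, 6], .r 3422 [1, 6, 2, 3, 5] [1, 1, 2, 3, 1, 1], .l [6, 5, 11], .l [4, 9, 4, 6, 10, 8, 2, 4], .l [5, 9, 3, 11, 13, 5, 2, 9], .l [6, 5, 13], .l [3, 15, 12, 2, 12, 3, 8, 3]]),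
([p 4 1, s 0 0, g, s 0 0, s 1 2, s 0 3, g, p 0 4, g, s 3 0, g, p 2 0, g], .hi 3, [.l [2, 7, 4, 4, 2, 4], .r 3420 [1, 5, 2, 4] [1, 1, 2, 3, 1], .r 3423 [1, 5, 2, 3, 4] [1, 1, 1, 1, 1, 1], .l [0, 5, 1], .y [3], .l [0, 3, 3, 8], .l [4, 12, 8, 11, 7, 1, 8, 5], .l [0, 3, 5], .l [4, 12, 8, 11, 7], .l [0, 3, 5], .l [9, 5, 11, 3, 10, 7], .l [0, 3, 7], .l [4, 12, 8, 11, 5], .l [11, 7, 11, 1, 10, 3], .l [0, 3, 9], .l [4, 12, 8, 11, 3], .l [0, 3, 11, 1, 6, 3], .l [0, 3, 11], .l [13, 9, 11]]),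
([p 4 1, g, s 0 0, s 1 2, s 0 3, g, p 0 4, g, s 3 0, g, p 2 0, g], .top 1, [.r 2173 [1] [8], .r 3424 [1, 2, 3, 4] [1, 1, 1, 1, 1], .r 334 [] [11], .r 444 [] [11]]),
([p 3 1, s 0 0, g, s 1 0, s 0 2, g, s 2 0, g, p 0 3, g], .hi 1, [.y [1], .l [2, 10, 7, 7, 4, 1], .l [2, 10, 7, 7, 4], .r 578 [1, 4, 3] [1, 1, 4, 1], .r 989 [1, 4, 3] [1, 0, 3, 1], .l [7, 10, 2, 5, 2, 5], .l [3, 2, 4], .r 520 [1, 4, 3] [1, 2, 3, 1], .l [5, 10, 4, 7, 2, 3], .l [3, 2, 6], .l [5, 10, 4, 7, 2, 3], .l [3, 2, 6], .l [5, 8, 2, 5, 2, 5], .l [3, 2, 8], .r 852 [1, 4, 3] [1, 4, 1, 1]]),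
([p 3 1, g, s 1 0, s 0 2, g, s 2 0, g, p 0 3, g], .top 1, [.c, .r 3426 [1, 2, 3] [1, 1, 1, 1], .r 334 [] [8], .r 444 [] [8]]),
([p 5 1, g, p 2 0, g, s 0 2, s 1 3, s 0 4, g, p 0 5, g, p 3 0, g, s 4 0, g], .lo 4, [.l [7, 6, 9, 2, 10, 1, 6, 3], .l [0, 6, 3], .l [5, 10, 4, 7, 1, 5, 6], .y [2, 4], .l [7, 6, 9, 2, 10, 1, 6, 1], .l [0, 6, 1], .l [5, 10, 4, 7, 1, 5, 6], .l [5, 4, 9, 4, 10, 1, 4, 5], .l [1, 10, 8, 1, 5, 3, 6], .l [0, 4, 6], .l [5, 4, 7, 2, 10, 1, 6, 3], .l [1, 8, 6, 1, 7, 5, 6], .l [0, 4, 8], .l [1, 8, 6, 1, 7, 5, 4], .l [0, 4, 10, 1, 4, 9], .l [1, 8, 6, 1, 9, 7, 4], .l [0, 4, 10], .l [0, 4, 10, 10, 4, 7], .l [0, 4, 12, 3, 6, 3], .l [1, 8, 6, 1, 11, 9, 4], .l [0, 4, 12]]),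
([p 5 1, g, s 4 0, g, p 2 0, g, s 0 2, s 1 3, s 0 4, g, p 0 5, g, p 3 0, g], .lo 6, [.l [0, 8, 5, 1, 6, 9], .l [0, 8, 5], .l [7, 12, 4, 9, 3, 7, 8], .l [0, 6, 3, 3, 4, 7], .l [0, 8, 3, 5, 6, 9], .l [0, 8, 3], .l [7, 12, 4, 9, 1, 7, 8], .y [4, 6], .l [0, 8, 1, 5, 6, 9], .l [0, 8, 1], .l [7, 12, 4, 9, 1, 7, 8], .l [7, 13, 6, 11, 7, 1, 8, 5], .l [3, 12, 8, 1, 5, 3, 8], .l [0, 6, 8], .l [12, 5, 12, 1, 10, 7], .l [3, 10, 6, 1, 9, 7, 8], .l [0, 6, 10], .l [3, 10, 6, 1, 9, 7, 6], .l [0, 6, 12, 1, 4, 5], .l [3, 10, 6, 1, 11, 9, 6], .l [0, 6, 12]]),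
([p 4 1, g, p 2 0, g, s 0 2, s 1 3, s 0 0, g, p 0 4, g, p 3 0, g], .hi 6, [.r 3429 [1, 2, 3, 5, 4] [1, 1, 1, 1, 1, 1], .l [1, 10, 8, 5, 8], .l [2, 7, 10], .l [1, 4, 6, 2, 7, 4, 4, 5], .l [3, 10, 6, 3, 8], .l [4, 7, 10], .l [0, 4, 4, 7], .y [6], .r 3427 [1, 5, 4] [4, 1, 1, 3], .l [5, 4, 9, 4, 1], .r 2058 [1, 5, 4] [4, 1, 1, 3], .l [5, 4, 7, 2, 1], .r 3425 [1, 3, 5, 4] [3, 1, 1, 1, 1], .l [5, 4, 7, 2, 6], .r 2055 [1, 5, 4] [4, 1, 1, 3], .r 3428 [1, 2, 3, 5, 4] [1, 1, 1, 1, 1, 1], .l [5, 4, 7, 2, 8], .r 2055 [1, 5, 4] [4, 1, 3, 1]]),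
([p 3 1, g, s 0 0, s 1 2, s 0 0, g, p 0 3, g, p 2 0, g], .hi 2, [.r 3421 [1, 4, 2, 3] [1, 1, 2, 1, 1], .r 3430 [1, 4, 2, 3] [1, 1, 1, 1, 1], .l [0, 4, 1], .y [2], .l [0, 2, 2, 5], .r 897 [1, 4, 3] [1, 2, 1, 3], .l [0, 2, 4], .l [3, 9, 6, 7, 3], .l [0, 2, 4], .r 3417 [1, 4, 2, 3] [1, 1, 1, 1, 1], .l [0, 2, 6], .l [3, 9, 6, 7, 1], .r 3419 [1, 4, 2, 3] [1, 2, 1, 1, 1], .l [0, 2, 8], .l [10, 7, 8]]),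
([p 4 1, g, s 2 0, g, s 0 0, s 1 2, s 6 0, g, s 0 3, p 5 4, g, p 0 5, g, s 0 6, g, p 3 0, g], .hi 4, [.l [3, 11, 7, 2, 7, 9, 7, 10], .l [3, 11, 7, 2, 7, 9, 7, 10], .l [0, 6, 3], .l [6, 1, 10, 4, 5, 9, 7, 10], .l [5, 11, 5, 8, 10, 6, 11], .l [0, 6, 1], .y [4], .l [2, 4, 6, 9, 4, 6, 1, 8, 6, 9], .l [0, 4, 6], .l [8, 3, 6], .l [2, 4, 6, 7, 2, 4, 1, 6, 4, 7], .l [0, 4, 9, 11, 9, 12], .l [0, 4, 9], .l [11, 6, 9], .l [0, 4, 9], .l [12, 15, 8, 2, 10, 5, 7, 1, 8, 6, 7], .l [0, 4, 11], .l [13, 8, 11], .l [0, 4, 11, 11, 4, 1], .l [5, 2, 8, 3, 9, 11, 7, 1, 8, 6, 7], .l [0, 4, 13], .l [15, 10, 13], .l [5, 2, 8, 3, 9, 13, 9, 1, 10, 8, 3], .l [0, 4, 15], .l [17, 12, 15]]),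
([p 3 1, g, s 0 0, s 1 0, s 7 0, g, s 0 2, p 4 3, g, p 5 4, g, p 6 5, g, p 0 6, g, s 0 7, g, p 2 0, g], .hi 3, [.r 3432 [1, 8, 2, 3, 4, 7] [1, 1, 1, 1, 5, 1, 1], .l [4, 9, 4, 5, 9, 7, 14], .l [5, 2, 8, 3, 5, 1, 7, 5, 12], .c, .l [10, 17, 10, 2, 3, 12, 13, 11, 8, 9, 0, 5], .l [5, 9, 3, 5, 8, 5, 14], .l [10, 17, 10, 2, 3, 12, 13, 11, 8, 9, 0, 5], .l [5, 7, 1, 3, 6, 3, 12], .l [12, 17, 8, 2, 3, 12, 1, 9, 2, 9, 1, 8, 6, 7], .l [0, 2, 2, 7, 9, 7, 14], .l [0, 2, 8, 5, 5, 1, 8, 6, 13], .l [8, 5, 10, 2, 8, 10, 2, 5, 10, 6, 6, 4, 9], .l [0, 2, 2, 9, 11, 9, 9, 7, 12], .r 1387 [1, 8, 3] [2, 3, 3, 9], .l [8, 13, 7, 3, 10, 15, 12, 5, 6, 0, 1, 5, 3], .l [0, 2, 2, 11, 13, 11, 11, 9, 9, 7, 10], .l [8, 13, 7, 3, 10, 15, 12, 5, 6, 0, 1],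 .y [0, 3, 13, 11, 9, 7], .l [8, 15, 9, 3, 12, 15, 12, 7, 8, 0, 3, 3, 1], .l [3, 2, 6, 3, 13, 1, 8, 8, 5, 5, 3, 3, 1], .l [8, 15, 9, 3, 12, 15, 12, 7, 8, 0, 3], .l [8, 15, 9, 3, 12, 13, 10, 7, 8, 0, 3, 3, 1], .l [8, 17, 11, 3, 14, 15, 12, 9, 10, 0, 5, 5, 3], .r 3431 [1, 8, 3] [1, 2, 9, 3], .l [8, 17, 11, 3, 14, 15, 12, 9, 10, 0, 5], .l [8, 15, 10, 2, 3, 10, 11, 13, 10, 11, 0, 7], .r 3431 [1, 8, 3] [1, 2, 11, 1], .l [8, 15, 10, 2, 3, 10, 11, 13, 10, 11, 0, 7]]),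
([p 3 1, g, s 0 0, s 1 0, s 6 0, g, s 0 2, p 4 3, g, p 5 4, g, p 0 5, g, s 0 6, g, p 2 0, g], .lo 11, [.l [1, 9, 7, 10, 10, 8, 8, 6, 9], .l [2, 12], .l [0, 4, 2, 11, 11, 9, 9, 7, 10], .l [0, 2, 9], .y [0, 3, 11, 9, 7], .l [3, 2, 6, 3, 7], .l [5, 9, 3, 10, 10, 8, 8, 2, 9], .l [6, 12], .l [3, 2, 8, 5, 11, 9, 7, 7, 5, 5, 2, 6], .l [8, 11, 9, 14, 1, 10, 2, 5, 2, 4], .l [9, 12], .l [8, 11, 9, 9, 2, 9], .l [10, 13, 11, 11, 9, 12, 1, 8, 2, 5, 2, 1], .l [11, 12], .l [10, 13, 11, 11, 9, 9, 2, 1], .l [10, 11, 9, 9, 7, 12, 1, 8, 2, 3, 0, 2], .r 3433 [1, 2, 3, 4, 5, 7, 6] [1, 1, 1, 1, 1, 1, 1, 1], .l [10, 11, 9, 9, 7, 7, 0, 7], .l [3, 2, 6, 3, 9, 11, 9, 9, 7, 7, 4, 6], .l [3, 2, 6, 3, 9, 11, 9, 9, 7, 7, 4, 6], .l [10, 11, 9, 9, 7,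 7, 0, 9], .l [3, 2, 6, 3, 9, 11, 9, 9, 7, 7, 4, 3], .l [3, 2, 6, 3, 9, 13, 11, 11, 9, 9, 6, 3], .l [3, 2, 6, 3, 9, 13, 11, 11, 9, 9, 6, 3], .l [8, 9, 7, 12, 3, 12, 8, 0, 9]]),
([p 3 1, g, s 0 0, s 1 0, s 5 0, g, s 0 2, p 4 3, g, p 0 4, g, s 0 5, g, p 2 0, g], .lo 9, [.l [1, 9, 7, 8, 8, 6, 9], .l [2, 10], .l [0, 4, 2, 9, 9, 7, 10], .l [0, 2, 7], .y [0, 3, 9, 7], .l [3, 2, 6, 3, 5], .l [5, 9, 3, 8, 8, 2, 9], .l [6, 10], .l [3, 2, 8, 5, 9, 7, 5, 5, 2, 6], .l [8, 11, 9, 12, 1, 8, 2, 5, 2, 1], .l [9, 10], .l [8, 11, 9, 9, 2, 1], .l [8, 9, 7, 12, 1, 8, 2, 3, 0, 2], .r 3434 [1, 2, 3, 4, 6, 5] [1, 1, 1, 1, 1, 1, 1], .l [8, 9, 7, 7, 0, 7], .l [3, 2, 6, 3, 7, 9, 7, 7, 4, 6], .l [3, 2, 6, 3, 7, 9, 7, 7, 4, 6], .l [8, 9, 7, 7, 0,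 9], .l [3, 2, 6, 3, 7, 9, 7, 7, 4, 3], .l [3, 2, 6, 3, 7, 11, 9, 9, 6, 3], .l [3, 2, 6, 3, 7, 11, 9, 9, 6, 3], .l [6, 12, 3, 12, 8, 0, 9]]),
([p 3 1, g, s 0 0, s 1 0, s 4 0, g, s 0 2, p 0 3, g, s 0 4, g, p 2 0, g], .lo 7, [.l [1, 9, 7, 6, 9], .l [2, 8], .l [0, 4, 2, 7, 10], .l [0, 2, 5], .y [0, 3, 7], .l [3, 2, 6, 3, 2], .l [5, 9, 3, 2, 9], .l [6, 8], .l [3, 2, 8, 5, 7, 5, 2, 6], .l [6, 12, 1, 8, 2, 3, 0, 2], .r 3435 [1, 2, 3, 5, 4] [1, 1, 1, 1, 1, 1], .l [6, 7, 0, 7], .l [3, 2, 6, 3, 5, 7, 4, 6], .l [3, 2, 6, 3, 5, 7, 4, 6], .l [6, 7, 0, 9], .l [3, 2, 6, 3, 5, 7, 4, 3], .l [3, 2, 6, 3, 5, 9, 6, 3], .l [3, 2, 6, 3, 5, 9, 6, 3], .l [6, 7, 0, 11]]),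
([p 4 1, s 0 2, g, s 1 0, s 3 0, g, p 0 3, g, p 0 4, g, s 2 0, g], .hi 4, [.l [4, 2, 9, 6, 6, 3], .l [6, 2, 11, 6, 8, 5], .l [8, 1, 4, 2, 4], .l [5, 4, 9, 4, 5], .l [5, 10, 4, 7, 2, 7], .l [3, 2, 9, 6, 1], .l [6, 1, 7, 5, 2], .y [4, 6], .l [7, 10, 2, 5, 2, 7], .l [3, 2, 9, 6, 3], .l [6, 1, 7, 5, 2], .l [3, 2, 7, 4, 3], .l [6, 1, 9, 7, 2, 7], .l [3, 2, 7, 4, 7], .l [6, 1, 9, 7, 2], .l [6, 1, 11, 9, 2, 5], .l [3, 2, 7, 4, 9], .l [6, 1, 11, 9, 2]]),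
([p 3 1, s 0 0, g, s 1 0, s 2 0, g, p 0 2, g, p 0 3, g], .hi 1, [.y [1], .r 1051 [1, 4, 2, 3] [1, 1, 1, 1, 1], .l [2, 10, 7, 7, 4], .r 578 [1, 4, 3] [1, 1, 4, 1], .r 989 [1, 4, 3] [1, 2, 3, 1], .l [3, 2, 4], .r 520 [1, 4, 3] [1, 2, 3, 1], .l [3, 2, 4], .r 989 [1, 4, 3] [1, 4, 1, 1], .l [3, 2, 6], .r 520 [1, 4, 3] [1, 4, 1, 1], .l [3, 2, 6], .r 3437 [1, 4, 2, 3] [1, 1, 1, 1, 1], .l [3, 2, 8], .r 852 [1, 4, 3] [1, 4, 1, 1]]),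
([p 3 1, g, s 1 0, s 2 0, g, p 0 2, g, p 0 3, g], .top 1, [.c, .r 3438 [1, 2, 3] [1, 1, 1, 1], .r 334 [] [8], .r 444 [] [8]]),
([p 3 1, g, s 0 0, s 1 0, s 0 0, g, s 0 2, p 0 3, s 0 0, g, p 2 0, g], .lo 4, [.r 3413 [1, 4, 2, 3] [1, 2, 1, 2, 1], .l [5, 4, 8, 3, 5], .r 3414 [1, 4, 2, 3] [1, 2, 1, 0, 1, 1], .r 897 [1, 4, 3] [1, 0, 2, 4], .c, .y [4], .r 3412 [1, 4, 3] [2, 1, 2, 4], .r 3439 [1, 4, 3] [2, 1, 2, 4], .l [3, 2, 8, 5, 1], .l [4, 7, 2], .r 3436 [1, 2, 3, 4] [1, 1, 2, 1, 1], .r 3410 [1, 3, 4] [2, 2, 2, 3], .l [3, 2, 6, 3, 7], .r 3410 [1, 3, 4] [2, 2, 2, 1], .r 3416 [1, 2, 3, 4] [2, 1, 2, 1, 1], .r 3410 [1, 3, 4] [2, 2, 4, 1], .l [3, 2, 6, 3, 9]]),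
([p 3 1, g, s 0 0, s 1 0, g, s 0 2, p 0 3, s 0 0, g, p 2 0, g], .top 4, [.l [3, 2, 4, 1, 5], .r 3440 [1, 2, 3] [1, 1, 1, 1], .r 2564 [1, 3] [2, 2, 3], .r 2580 [1, 3] [2, 2, 3]]),
([p 3 0, g, m 0 1, g, m 2 0, g, s 1 2, p 4 3, g, p 5 4, g, p 6 5, g, p 7 6, g, p 8 7, g, p 0 8, g], .hi 4, [.l [5, 9, 3, 4, 8, 6, 3], .l [1, 9, 7, 3], .l [2, 5], .y [2, 6, 4], .l [5, 9, 3, 6, 8, 4, 5], .l [3, 9, 5, 1], .l [4, 5], .l [5, 9, 3, 6, 8, 4, 5], .l [3, 9, 5, 1], .l [12, 4, 6, 11, 7, 2, 7, 9, 7, 3, 6, 2, 3], .l [3, 7, 3, 6, 8, 4, 5], .l [1, 7, 5, 3, 1, 4, 6, 4, 1], .l [17, 19, 18, 18, 16, 16, 14, 14, 12, 12, 8, 1, 9, 7, 7, 5, 3, 1], .l [3, 7, 3, 8, 10, 8, 8, 4, 5], .l [1, 7, 5, 3, 1, 6, 8, 6, 6, 4, 1], .l [15, 17, 16, 16, 14, 14, 10,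 12, 7, 10, 6, 1, 4, 5, 3, 3, 5, 3], .l [3, 7, 3, 10, 12, 10, 10, 8, 8, 4, 5], .l [1, 7, 5, 3, 1, 8, 10, 8, 8, 6, 6, 4, 1], .l [11, 15, 14, 14, 12, 12, 10, 1, 9, 3, 1, 5, 7, 3, 1, 3, 5, 3], .l [3, 7, 3, 12, 14, 12, 12, 10, 10, 8, 8, 4, 5], .l [1, 7, 5, 3, 1, 10, 12, 10, 10, 8, 8, 6, 6, 4, 1], .l [13, 17, 16, 16, 14, 14, 12, 12, 10, 1, 7, 5, 7, 3, 1, 3, 5, 3], .l [3, 7, 3, 14, 16, 14, 14, 12, 12, 10, 10, 8, 8, 4, 5], .l [1, 7, 5, 3, 1, 12, 14, 12, 12, 10, 10, 8, 8, 6, 6, 4, 1], .l [9, 17, 11, 5, 14, 16, 9, 9, 7, 12, 8, 1, 6, 7, 3, 1, 3, 3], .l [1, 7, 5, 3, 1, 12, 12, 10, 10, 8, 8, 6, 6, 4, 4, 2, 1], .l [3, 4, 4, 5, 1, 14, 11, 12, 9], .l [3, 7, 3, 16], .l [13, 15, 14, 14, 12, 12, 10, 14, 9, 12, 8, 1, 6, 7, 3, 1, 3, 3]]),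
([p 3 0, g, m 0 1, g, m 2 0, g, s 1 2, p 4 3, g, p 5 4, g, p 6 5, g, p 7 6, g, p 0 7, g], .lo 15, [.y [0, 15, 13, 11, 9, 7], .l [1, 9, 7, 14, 14, 12, 12, 10, 10, 8, 8, 6, 1], .l [2, 16], .l [1, 9, 7, 14], .l [3, 9, 5, 14, 14, 12, 12, 10, 10, 8, 8, 4, 5], .l [4, 16], .l [1, 9, 7, 5, 3, 12, 12, 10, 10, 8, 8, 6, 6, 4, 1], .l [1, 7, 5, 3, 1, 10, 10, 8, 8, 6, 6, 4, 4, 2, 1], .l [5, 9, 3, 14, 14, 12, 12, 10, 10, 8, 8, 2, 3], .l [6, 16], .l [5, 9, 3, 14], .l [8, 11, 9, 1, 8, 2, 11], .l [9, 16], .l [8, 11, 9, 1, 8, 2, 11], .l [10, 13, 11, 11, 9, 1, 8, 2, 9], .l [11, 16], .l [10, 13, 11, 11, 9, 1, 8, 2, 9], .l [12, 15, 13, 13, 11, 11, 9, 1, 8, 2, 7], .l [13, 16], .l [12, 15, 13, 13, 11, 11, 9, 1, 8, 2, 7], .l [14, 17, 15, 15, 13,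 13, 11, 11, 9, 1, 8, 2, 1], .l [15, 16], .l [14, 17, 15, 15, 13, 13, 11, 11, 9, 1, 8, 2, 1], .l [14, 15, 13, 13, 11, 11, 9, 9, 7, 1, 6, 0, 5], .r 3442 [1, 2, 3, 4, 5, 6, 7, 8] [1, 1, 1, 1, 1, 1, 1, 1, 1], .l [14, 15, 13, 13, 11, 11, 9, 9, 7, 1, 6, 0, 5]]),
([p 3 0, g, m 0 1, g, m 2 0, g, s 1 2, p 4 3, g, p 5 4, g, p 6 5, g, p 0 6, g], .lo 13, [.y [0, 13, 11, 9, 7], .l [1, 9, 7, 12, 12, 10, 10, 8, 8, 6, 1], .l [2, 14], .l [1, 9, 7, 12], .l [3, 9, 5, 12, 12, 10, 10, 8, 8, 4, 5], .l [4, 14], .l [1, 9, 7, 5, 3, 10, 10, 8, 8, 6, 6, 4, 1], .l [1, 7, 5, 3, 1, 8, 8, 6, 6, 4, 4, 2, 1], .l [5, 9, 3, 12, 12, 10, 10, 8, 8, 2, 3], .l [6, 14], .l [5, 9, 3, 12], .l [8, 11, 9, 1, 8, 2, 9], .l [9, 14], .l [8, 11, 9, 1, 8, 2, 9], .l [10,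 13, 11, 11, 9, 1, 8, 2, 7], .l [11, 14], .l [10, 13, 11, 11, 9, 1, 8, 2, 7], .l [12, 15, 13, 13, 11, 11, 9, 1, 8, 2, 1], .l [13, 14], .l [12, 15, 13, 13, 11, 11, 9, 1, 8, 2, 1], .l [12, 13, 11, 11, 9, 9, 7, 1, 6, 0, 5], .r 3443 [1, 2, 3, 4, 5, 6, 7] [1, 1, 1, 1, 1, 1, 1, 1], .l [12, 13, 11, 11, 9, 9, 7, 1, 6, 0, 5]]),
([p 3 1, s 4 2, g, s 1 0, g, p 0 3, s 0 0, g, s 2 0, g, p 0 4, g], .hi 6, [.l [3, 7, 3], .l [5, 4, 8, 6, 4, 1], .l [3, 7, 3], .l [5, 7, 1], .l [3, 2, 8, 4, 2, 3], .l [5, 7, 1], .l [3, 2, 6, 2, 0, 1], .y [6], .l [10, 8, 9, 5, 1, 8, 4, 1], .l [10, 8, 9, 5, 1, 8, 4, 1], .r 2574 [1, 3, 5] [1, 1, 1, 5], .l [3, 2, 6, 8, 6, 1], .l [12, 10, 11, 7, 3], .l [3, 2, 6, 8, 6, 1], .l [10, 8, 9, 5, 3], .l [3, 2, 6, 10, 8,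 1], .l [10, 8, 9, 5, 8], .l [3, 2, 6, 10, 8, 1]]),
([p 3 1, s 4 2, g, s 1 0, g, p 0 3, g, s 2 0, g, p 0 4, g], .top 6, [.l [1, 5, 3], .r 3445 [1, 2, 3, 4] [1, 1, 1, 1, 1], .r 2528 [3] [4, 5], .r 3376 [3] [4, 5]]),
([p 4 1, s 5 2, g, s 3 0, g, s 0 3, s 1 0, g, p 0 4, g, p 0 5, m 0 6, g, m 6 7, g, m 7 0, g, s 2 0, g], .hi 6, [.l [7, 1, 9, 2, 4, 8, 6, 1], .l [8, 7, 17, 15, 4, 1], .l [3, 7, 1, 6, 2, 14], .l [4, 10, 5, 2, 6, 8, 6, 1], .l [8, 7, 17, 13, 2, 12], .l [7, 3, 9, 2, 6, 8, 4, 1], .c, .l [8, 1, 11, 4, 8, 1], .l [19, 17, 4, 16, 6, 10, 14, 1], .l [0, 5, 1, 6, 1, 6, 4, 12], .y [0, 6, 8], .l [5, 1, 7, 2, 6, 8, 4, 1], .l [0, 5, 1, 11, 3, 6, 11, 7, 2, 7], .l [10, 3, 9, 7, 9, 2, 6], .l [0, 5, 1, 9, 1, 4, 9, 5, 0, 5], .l [10,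 8, 9, 2, 15, 13, 1, 6, 4, 1], .l [5, 1, 7, 2, 9, 11, 9, 3], .l [0, 5, 1, 4, 9, 11, 9, 5], .l [10, 8, 9, 2, 17, 15, 1, 8, 6, 1], .l [5, 1, 7, 2, 11, 13, 11, 11, 9, 3], .l [0, 5, 1, 4, 11, 13, 11, 11, 9, 5], .l [10, 8, 9, 2, 17, 15, 1, 10, 8, 1], .l [12, 17, 10, 1, 5, 12, 9, 3, 9, 2], .l [1, 18, 1, 10, 3, 15, 4, 1], .l [6, 5, 11, 16, 9, 1, 4, 11, 9, 3, 8, 9], .l [12, 19, 12, 1, 5, 14, 11, 3, 11, 2], .l [0, 5, 1, 4, 15, 1, 12, 3, 11, 6], .l [6, 5, 15, 17, 6, 1]]),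
([p 4 1, s 5 2, g, s 3 0, g, s 0 3, s 1 0, g, p 0 4, g, p 0 5, m 0 6, g, m 6 0, g, s 2 0, g], .hi 13, [.l [2, 10, 7, 12, 12, 10, 1], .l [0, 7, 1, 3, 11, 11, 9, 4], .l [3, 14], .l [4, 10, 5, 12, 12, 10, 3], .l [0, 7, 2, 13, 13, 11, 4], .l [5, 14], .l [0, 5, 11], .l [7, 10, 2, 12, 12, 10, 6], .l [0, 10, 9, 15, 8, 6, 6, 4, 10], .l [8, 14], .l [0, 8, 7, 13, 6, 4, 4, 2, 8], .l [10, 14, 14, 12, 2], .l [0, 8, 7, 15, 6, 4, 4, 2, 10], .l [10, 14], .l [0, 8, 7, 13, 4, 2, 2, 0, 8], .y [11, 13], .l [12, 15, 13, 8, 14, 5, 8, 1, 6, 1], .l [11, 17, 6, 10, 1, 7, 1, 1, 10, 7], .l [13, 14], .l [12, 13, 11, 8, 14, 5, 8, 1, 6, 1], .l [3, 17, 14, 2, 14, 5, 1, 3, 4, 1], .r 3447 [1, 2, 3, 4, 5, 6, 7] [1, 1, 1, 1, 1, 1, 1, 1], .l [1, 14, 16,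 14, 14, 12, 9, 4], .l [1, 14, 1, 14, 11, 9, 4, 1], .l [0, 8, 7, 13, 15, 13, 13, 11, 8]]),
([p 4 1, s 5 2, g, s 3 0, g, s 0 3, s 1 0, g, p 0 4, g, p 0 5, m 0 0, g, s 2 0, g], .hi 11, [.l [2, 10, 7, 10, 1], .l [0, 7, 1, 3, 9, 4], .l [3, 12], .l [4, 10, 5, 10, 3], .l [0, 7, 2, 11, 4], .l [5, 12], .l [0, 5, 9], .l [7, 10, 2, 10, 6], .l [0, 10, 9, 13, 6, 4, 10], .l [8, 12], .l [0, 8, 7, 11, 4, 2, 8], .l [10, 12, 2], .l [0, 8, 7, 13, 4, 2, 10], .l [10, 12], .l [0, 8, 7, 11, 2, 0, 8], .y [11], .l [10, 8, 14, 5, 8, 1, 6, 1], .l [15, 13, 13, 4, 1], .r 3448 [1, 2, 3, 4, 5, 6] [1, 1, 1, 1, 1, 1, 1], .l [1, 12, 14, 12, 9, 4], .l [1, 12, 1, 13, 11, 9, 4, 1], .l [0, 8, 7, 11, 13, 11, 8]]),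
([p 4 1, s 5 2, g, s 3 0, g, s 0 3, s 1 0, g, p 0 4, g, p 0 5, p 6 0, g, p 7 6, g, p 0 7, g, s 2 0, g], .hi 6, [.l [7, 1, 9, 2, 4, 8, 6, 1], .l [8, 7, 17, 15, 4, 1], .l [3, 7, 1, 6, 2, 14], .l [4, 10, 5, 2, 6, 8, 6, 1], .l [8, 7, 17, 13, 2, 12], .l [7, 3, 9, 2, 6, 8, 4, 1], .c, .l [8, 1, 11, 4, 8, 1], .l [19, 17, 4, 16, 6, 10, 14, 1], .l [0, 5, 1, 6, 1, 6, 4, 12], .y [0, 6, 8], .l [5, 1, 7, 2, 6, 8, 4, 1], .l [0, 5, 1, 11, 3, 6, 11, 7, 2, 7], .l [10, 3, 9, 7, 9, 2, 6], .l [0, 5, 1, 9, 1, 4, 9, 5, 0, 5], .l [5, 1, 7, 2, 9, 11, 9, 3], .l [0, 5, 1, 4, 9, 11, 9, 5], .l [10, 8, 9, 2, 17, 15, 1, 8, 6, 1], .l [5, 1, 7, 2, 11, 13, 11, 11, 9, 3], .l [0, 5, 1, 4, 11, 13, 11, 11, 9, 5], .l [10, 8, 9, 2, 17, 15, 1, 10, 8, 1], .l [0,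 5, 1, 4, 11, 11, 9, 9, 7, 5], .l [12, 17, 10, 1, 5, 12, 9, 3, 9, 2], .l [1, 18, 1, 10, 3, 15, 4, 1], .l [6, 5, 11, 16, 9, 1, 4, 11, 9, 3, 8, 9], .l [12, 19, 12, 1, 5, 14, 11, 3, 11, 2], .l [0, 5, 1, 4, 15, 1, 12, 3, 11, 6], .l [6, 5, 15, 17, 6, 1]]),
([p 4 1, s 5 2, g, s 3 0, g, s 0 3, s 1 0, g, p 0 4, g, p 0 5, p 6 0, g, p 0 6, g, s 2 0, g], .lo 13, [.l [2, 10, 7, 12, 12, 10, 1], .l [3, 14], .l [0, 7, 1, 3, 11, 11, 9, 4], .l [0, 5, 1, 1, 9, 9, 7, 4], .l [4, 10, 5, 12, 12, 10, 3], .l [5, 14], .l [0, 7, 2, 13, 13, 11, 4], .l [0, 5, 1, 4, 9, 9, 7, 5], .l [7, 10, 2, 12, 12, 10, 6], .l [8, 14], .l [0, 10, 9, 15, 8, 6, 6, 4, 10], .l [10, 14, 14, 12, 2], .l [10, 14], .l [0, 8, 7, 15, 6, 4, 4, 2, 10], .y [11, 13], .l [12, 15,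 13, 8, 14, 5, 8, 1, 6, 1], .l [13, 14], .l [11, 17, 6, 10, 1, 7, 1, 1, 10, 7], .l [12, 13, 11, 8, 14, 5, 8, 1, 6, 1], .r 3450 [1, 2, 3, 4, 5, 6, 7] [1, 1, 1, 1, 1, 1, 1, 1], .l [3, 17, 14, 2, 14, 5, 1, 3, 4, 1], .l [0, 8, 7, 13, 13, 11, 11, 9, 8], .l [1, 14, 16, 14, 14, 12, 9, 4], .l [0, 8, 7, 13, 15, 13, 13, 11, 8], .l [1, 14, 1, 14, 11, 9, 4, 1]]),
([p 4 1, s 5 2, g, s 3 0, g, s 0 3, s 1 0, g, p 0 4, g, p 0 5, p 0 0, g, s 2 0, g], .lo 11, [.l [2, 10, 7, 10, 1], .l [3, 12], .l [0, 7, 1, 3, 9, 4], .l [0, 5, 1, 1, 7, 4], .l [4, 10, 5, 10, 3], .l [5, 12], .l [0, 7, 2, 11, 4], .l [0, 5, 1, 4, 7, 5], .l [7, 10, 2, 10, 6], .l [8, 12], .l [0, 10, 9, 13, 6, 4, 10], .l [10, 12, 2], .l [10, 12], .l [0, 8, 7, 13, 4, 2, 10], .y [11],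 .l [10, 8, 14, 5, 8, 1, 6, 1], .r 3451 [1, 2, 3, 4, 5, 6] [1, 1, 1, 1, 1, 1, 1], .l [15, 13, 13, 4, 1], .l [0, 8, 7, 11, 11, 9, 8], .l [1, 12, 14, 12, 9, 4], .l [0, 8, 7, 11, 13, 11, 8], .l [1, 12, 1, 13, 11, 9, 4, 1]]),
([p 0 1, s 3 2, g, s 1 0, g, p 0 3, s 0 4, g, m 4 0, g, s 2 0, g], .lo 6, [.l [3, 7, 4, 1], .l [3, 7, 4], .l [10, 1, 6, 4, 5], .l [3, 5, 2, 3], .l [5, 7, 2, 3], .l [5, 7, 2], .l [10, 1, 4, 2, 5], .l [8, 1, 9, 7, 3, 1, 2, 5], .l [8, 1, 9, 7, 3], .l [12, 10, 1, 9, 6, 1], .y [6, 8], .l [8, 1, 4, 5, 2, 5], .l [8, 1, 9, 7, 3], .l [8, 1, 4, 5, 2, 5], .l [1, 9, 9, 5, 4, 1], .l [1, 9, 11, 7, 4, 1], .l [8, 1, 11, 9, 3], .l [8, 1, 4, 5, 2, 7]]),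
([p 4 1, s 5 2, g, s 3 0, g, s 0 3, s 1 0, g, p 0 4, g, p 0 5, s 0 0, g, s 2 0, g], .hi 11, [.l [3, 12, 9, 4], .l [2, 10, 7, 10, 1], .l [3, 12, 9], .l [5, 12, 7, 2], .l [4, 10, 5, 10, 3], .l [5, 12, 7], .l [0, 5, 9, 4], .l [8, 12, 4, 8], .l [7, 10, 2, 10, 6], .l [8, 12, 4], .l [7, 8, 0, 8, 6], .l [10, 12, 2, 6], .l [1, 14, 4, 2, 11, 4], .l [10, 12, 2], .l [1, 12, 2, 0, 9, 4], .y [11], .l [10, 8, 14, 5, 8, 1, 6, 1], .l [10, 8, 14, 5, 8, 1, 6, 1], .r 3453 [1, 2, 5, 6] [4, 3, 1, 1, 1], .l [1, 12, 14, 12, 9, 4], .l [10, 8, 12, 3, 6, 1, 4, 8], .l [1, 12, 14, 12, 9, 4]]),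
([p 4 1, s 5 2, g, s 3 0, g, s 0 3, s 1 0, g, p 0 4, g, p 0 5, g, s 2 0, g], .top 11, [.l [0, 8, 7, 9, 8], .r 3454 [1, 2, 3, 4, 5] [1, 1, 1, 1, 1, 1], .r 3452 [1, 2, 3, 4, 5] [1, 1, 1, 1, 1, 1], .r 3449 [1, 2, 3, 4, 5] [1, 1, 1, 1, 1, 1]])]

def d13_2 : List (List Item × Qry × List Rf) := [
([p 3 1, s 4 2, g, s 0 0, s 1 0, g, p 0 3, g, p 0 4, g, s 2 0, g], .hi 3, [.r 3455 [1, 2, 5, 3, 4] [1, 1, 1, 1, 1, 1], .r 2046 [1, 2, 5, 4] [1, 1, 3, 1, 1], .l [0, 5, 1], .y [3], .l [0, 3, 4, 6, 4, 7], .l [0, 3, 4], .l [6, 2, 4], .l [0, 3, 4], .l [10, 8, 6, 4, 6, 7], .l [0, 3, 6], .l [8, 4, 6], .l [0, 3, 6], .l [10, 6, 8, 3], .l [0, 3, 8], .l [10, 6, 8], .l [12, 8, 10, 5], .l [0, 3, 10], .l [12, 8, 10]]),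
([p 2 1, s 3 0, g, s 0 0, s 1 0, g, p 0 2, g, p 0 3, g], .hi 1, [.r 1053 [1, 4, 2] [1, 2, 1, 3], .l [2, 8, 5, 5, 1], .l [3, 1, 9, 7, 2], .r 1053 [1, 4, 2] [1, 0, 1, 3], .r 927 [1, 4, 2] [1, 1, 1, 3], .l [4, 3, 4], .l [6, 4, 9, 4, 5], .l [4, 3, 4], .r 3446 [1, 4, 2, 3] [2, 1, 1, 1, 1], .l [4, 3, 6], .l [8, 6, 7, 2, 7, 5, 1], .y [1, 8], .r 3456 [1, 4, 2, 3] [1, 1, 1, 1, 1], .l [4, 3, 8], .l [8, 6, 7, 2, 7, 5, 1]]),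
([p 2 1, s 3 0, g, s 1 0, g, p 0 2, g, p 0 3, g], .bot 2, [.l [6, 4, 4], .r 3457 [1, 2, 3] [1, 1, 1, 1], .r 1681 [1, 3] [1, 3, 1], .r 1683 [1, 3] [1, 3, 1]]),
([p 4 1, s 5 2, g, s 1 3, g, s 3 0, p 0 4, g, s 0 5, g, s 2 0, g], .lo 6, [.l [0, 4, 1, 5, 1, 4, 2, 3], .l [3, 7], .l [0, 4, 1, 5, 1], .l [7, 3, 7, 0, 4, 1, 2, 3], .l [5, 7], .l [4, 8, 3, 2], .c, .l [5, 1, 5, 0, 4, 1, 2, 3], .l [10, 8, 9, 4, 9, 5, 2, 2, 0, 3], .l [5, 1, 1, 2, 3, 0, 3], .l [5, 1, 5, 0, 6, 3, 4, 1], .l [7, 10, 8, 1, 7, 2, 2, 3], .l [5, 1, 1, 2, 3, 0, 5], .l [5, 1, 5, 0, 6, 3, 4, 1], .l [5, 1, 5, 0, 8, 5, 6, 3], .l [7, 12, 10, 1, 9, 4, 4, 5], .l [5, 1, 1, 2, 3, 0, 7]]),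
([p 4 1, s 5 2, g, s 1 3, g, s 3 0, p 0 4, g, s 2 0, g, s 0 5, g], .lo 6, [.l [0, 4, 1, 5, 1, 4, 2, 5], .l [3, 7], .l [0, 4, 1, 5, 1], .l [7, 3, 7, 0, 4, 1, 2, 5], .l [5, 7], .l [4, 8, 3, 2], .c, .l [5, 1, 5, 0, 4, 1, 2, 5], .l [10, 8, 9, 4, 9, 5, 2, 2, 0, 3], .l [5, 1, 1, 2, 3, 0, 3], .l [5, 1, 5, 0, 4, 1, 2, 3], .l [5, 1, 5, 0, 6, 3, 4, 5], .l [7, 10, 8, 1, 7, 2, 2, 3], .l [5, 1, 1, 2, 3, 0, 5], .l [5, 1, 5, 0, 8, 5, 6, 1], .l [7, 12, 10, 1, 9, 4, 4, 5], .l [5, 1, 1, 2, 3, 0, 7]]),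
([p 3 1, s 4 0, g, s 1 2, g, s 2 0, p 0 3, g, s 0 4, g], .hi 1, [.r 1053 [1, 5, 3] [1, 1, 2, 3], .l [2, 8, 5, 5, 2], .r 578 [1, 5, 3] [1, 1, 2, 3], .r 989 [1, 5, 3] [1, 1, 2, 3], .l [3, 2, 3], .r 520 [1, 5, 3] [1, 1, 2, 3], .l [3, 2, 4], .r 3460 [1, 5, 2, 3, 4] [1, 1, 1, 1, 1], .l [3, 2, 6], .r 852 [1, 5, 3] [1, 2, 1, 3], .y [1, 8], .r 3459 [1, 5, 2, 3, 4] [1, 1, 1, 1, 1], .l [3, 2, 8], .r 852 [1, 5, 3] [1, 2, 3, 1]]),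
([p 3 1, s 0 0, g, s 1 2, g, s 2 0, p 0 3, g], .lo 1, [.y [1], .r 1018 [1, 4, 3] [1, 1, 2, 1], .r 1556 [1, 4, 3] [1, 1, 2, 1], .l [2, 8, 5, 5, 2], .r 2175 [1, 4, 3] [1, 1, 2, 1], .r 2050 [1, 4, 3] [1, 1, 2, 1], .l [3, 2, 3], .r 2175 [1, 4, 3] [1, 1, 0, 1], .r 3461 [1, 2, 3, 4] [1, 1, 1, 1], .r 3458 [1, 3, 4] [1, 2, 1, 1], .l [3, 2, 6]]),
([p 3 1, g, s 1 2, g, s 2 0, p 0 3, g], .top 1, [.c, .r 3462 [1, 2, 3] [1, 1, 1], .r 334 [] [6], .r 444 [] [6]]),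
([p 3 1, g, m 2 0, g, s 1 0, g, s 0 2, p 4 3, g, p 5 4, g, p 6 5, g, p 7 6, g, p 8 7, g, p 9 8, g, p 0 9, g], .lo 6, [.l [12, 6, 10, 11, 5, 2, 7, 9, 5, 1, 4, 2, 3], .l [17, 19, 18, 18, 16, 16, 14, 14, 12, 12, 10, 3, 9, 1, 5, 1, 7, 3], .r 3444 [10, 2, 3, 4, 5, 6] [1, 1, 3, 1, 1, 1, 7], .y [2, 6], .l [12, 6, 10, 11, 5, 2, 5, 9, 7, 1, 6, 4, 1], .l [17, 19, 18, 18, 16, 16, 14, 14, 12, 12, 10, 3, 9, 1, 5, 1, 7, 3], .l [17, 19, 18, 18, 16, 16, 14, 14, 12, 12, 10, 5, 9, 1, 7, 3, 7, 1], .r 3463 [1, 10, 3] [3, 1, 13], .l [12, 8, 10, 11, 7, 2, 7, 9, 7, 3, 6, 2, 3], .l [17, 19, 18, 18, 16, 16, 14, 14, 12, 12, 10, 1, 9, 1, 7, 3, 7, 1], .l [17, 19, 18, 18, 16, 16, 14, 14, 12, 12, 10, 5, 9, 1, 5, 1, 7, 3], .l [12, 8, 10, 11, 7, 4, 7,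 9, 7, 3, 6, 2, 3], .l [17, 19, 18, 18, 16, 16, 14, 14, 12, 12, 8, 3, 7, 1, 7, 3, 7, 1], .l [19, 21, 20, 20, 18, 18, 16, 16, 14, 14, 12, 12, 8, 3, 7, 1, 3, 5], .l [5, 1, 3, 5, 1, 6, 8, 6, 6, 2, 3, 5, 3], .l [17, 19, 18, 18, 16, 16, 14, 14, 10, 10, 8, 3, 7, 1, 7, 3, 7, 1], .l [19, 21, 20, 20, 18, 18, 16, 16, 14, 14, 10, 10, 8, 3, 7, 1, 3, 5], .l [5, 1, 3, 5, 1, 8, 5, 6, 3, 3, 1, 5, 3], .l [17, 19, 18, 18, 16, 16, 12, 12, 10, 10, 8, 3, 7, 1, 7, 3, 7, 1], .l [19, 21, 20, 20, 18, 18, 16, 16, 12, 12, 10, 10, 8, 3, 7, 1, 3, 5], .l [5, 1, 3, 5, 1, 10, 7, 8, 5, 5, 3, 3, 1], .l [17, 19, 18, 18, 14, 14, 12, 12, 10, 10, 8, 3, 7, 1, 7, 3, 7, 1], .l [19, 21, 20, 20, 18, 18, 14, 14, 12, 12, 10, 10, 8, 3, 7, 1, 3, 5], .l [5, 1, 3, 5,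 1, 12, 9, 10, 7, 7, 5, 5, 3], .l [17, 19, 16, 16, 14, 14, 12, 12, 10, 10, 8, 3, 7, 1, 7, 3, 7, 1], .l [16, 19, 17, 17, 15, 15, 13, 13, 11, 11, 9, 9, 2, 7, 9, 3, 5, 3], .l [5, 1, 3, 5, 1, 14, 11, 12, 9, 9, 7, 7, 5], .l [2, 5, 18, 12, 14, 13, 13, 11, 11, 9, 9, 7, 7, 5, 5, 3, 7, 3], .l [19, 21, 18, 18, 16, 16, 14, 14, 12, 12, 10, 10, 8, 3, 7, 1, 3, 5], .l [5, 1, 3, 5, 1, 16, 13, 14, 11, 11, 9, 9, 7], .l [2, 5, 20, 14, 16, 15, 15, 13, 13, 11, 11, 9, 9, 7, 7, 5, 5, 3], .l [17, 19, 18, 18, 16, 16, 14, 14, 12, 12, 10, 10, 8, 3, 7, 1, 3, 5]]),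
([p 3 1, g, m 2 0, g, s 1 0, g, s 0 2, p 4 3, g, p 5 4, g, p 6 5, g, p 7 6, g, p 8 7, g, p 0 8, g], .lo 17, [.l [1, 9, 7, 16, 16, 14, 14, 12, 12, 10, 10, 8, 8, 6, 3], .l [2, 18], .l [0, 5, 3, 16, 16, 14, 14, 12, 12, 10, 10, 8, 8, 6, 3], .l [0, 3, 1, 14, 14, 12, 12, 10, 10, 8, 8, 6, 6, 4, 3], .l [18, 19, 17, 17, 15, 15, 13, 13, 11, 11, 9, 5, 8, 0, 5], .l [4, 18], .l [3, 9, 5, 16], .y [0, 4, 17, 15, 13, 11, 9, 7], .l [18, 19, 17, 17, 15, 15, 13, 13, 11, 11, 9, 5, 8, 0, 3], .l [6, 18], .l [5, 9, 3, 16], .l [8, 11, 9, 3, 8, 2, 13], .l [9, 18], .l [8, 11, 9, 3, 8, 2, 13], .l [10, 13, 11, 11, 9, 3, 8, 2, 11], .l [11, 18], .l [10, 13, 11, 11, 9, 3, 8, 2, 11], .l [12, 15, 13, 13, 11, 11, 9, 3, 8, 2, 9], .l [13, 18], .l [12, 15,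 13, 13, 11, 11, 9, 3, 8, 2, 9], .l [14, 17, 15, 15, 13, 13, 11, 11, 9, 3, 8, 2, 7], .l [15, 18], .l [14, 17, 15, 15, 13, 13, 11, 11, 9, 3, 8, 2, 7], .l [16, 19, 17, 17, 15, 15, 13, 13, 11, 11, 9, 3, 8, 2, 1], .l [17, 18], .l [16, 19, 17, 17, 15, 15, 13, 13, 11, 11, 9, 3, 8, 2, 1], .l [16, 17, 15, 15, 13, 13, 11, 11, 9, 9, 7, 3, 6, 0, 5], .r 3464 [1, 2, 3, 4, 5, 6, 7, 8, 9] [1, 1, 1, 1, 1, 1, 1, 1, 1, 1], .l [16, 17, 15, 15, 13, 13, 11, 11, 9, 9, 7, 3, 6, 0, 5]]),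
([p 3 1, g, m 2 0, g, s 1 0, g, s 0 2, p 4 3, g, p 5 4, g, p 6 5, g, p 7 6, g, p 0 7, g], .lo 15, [.l [1, 9, 7, 14, 14, 12, 12, 10, 10, 8, 8, 6, 3], .l [2, 16], .l [0, 5, 3, 14, 14, 12, 12, 10, 10, 8, 8, 6, 3], .l [0, 3, 1, 12, 12, 10, 10, 8, 8, 6, 6, 4, 3], .l [16, 17, 15, 15, 13, 13, 11, 11, 9, 5, 8, 0, 5], .l [4, 16], .l [3, 9, 5, 14], .y [0, 4, 15, 13, 11, 9, 7], .l [16, 17, 15, 15, 13, 13, 11, 11, 9, 5, 8, 0, 3], .l [6, 16], .l [5, 9, 3, 14], .l [8, 11, 9, 3, 8, 2, 11], .l [9, 16], .l [8, 11, 9, 3, 8, 2, 11], .l [10, 13, 11, 11, 9, 3, 8, 2, 9], .l [11, 16], .l [10, 13, 11, 11, 9, 3, 8, 2, 9], .l [12, 15, 13, 13, 11, 11, 9, 3, 8, 2, 7], .l [13, 16], .l [12, 15, 13, 13, 11, 11, 9, 3, 8, 2, 7], .l [14, 17, 15, 15, 13,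 13, 11, 11, 9, 3, 8, 2, 1], .l [15, 16], .l [14, 17, 15, 15, 13, 13, 11, 11, 9, 3, 8, 2, 1], .l [14, 15, 13, 13, 11, 11, 9, 9, 7, 3, 6, 0, 5], .r 3465 [1, 2, 3, 4, 5, 6, 7, 8] [1, 1, 1, 1, 1, 1, 1, 1, 1], .l [14, 15, 13, 13, 11, 11, 9, 9, 7, 3, 6, 0, 5]]),
([p 3 1, g, m 2 0, g, s 1 0, g, s 0 2, p 4 3, g, p 5 4, g, p 6 5, g, p 0 6, g], .lo 13, [.l [1, 9, 7, 12, 12, 10, 10, 8, 8, 6, 3], .l [2, 14], .l [0, 5, 3, 12, 12, 10, 10, 8, 8, 6, 3], .l [0, 3, 1, 10, 10, 8, 8, 6, 6, 4, 3], .l [14, 15, 13, 13, 11, 11, 9, 5, 8, 0, 5], .l [4, 14], .l [3, 9, 5, 12], .y [0, 4, 13, 11, 9, 7], .l [14, 15, 13, 13, 11, 11, 9, 5, 8, 0, 3], .l [6, 14], .l [5, 9, 3, 12], .l [8, 11, 9, 3, 8, 2, 9], .l [9, 14], .l [8, 11, 9, 3, 8, 2, 9], .l [10,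 13, 11, 11, 9, 3, 8, 2, 7], .l [11, 14], .l [10, 13, 11, 11, 9, 3, 8, 2, 7], .l [12, 15, 13, 13, 11, 11, 9, 3, 8, 2, 1], .l [13, 14], .l [12, 15, 13, 13, 11, 11, 9, 3, 8, 2, 1], .l [12, 13, 11, 11, 9, 9, 7, 3, 6, 0, 5], .r 3466 [1, 2, 3, 4, 5, 6, 7] [1, 1, 1, 1, 1, 1, 1, 1], .l [12, 13, 11, 11, 9, 9, 7, 3, 6, 0, 5]]),
([p 3 1, g, m 2 0, g, s 1 0, g, s 0 2, p 4 3, g, p 5 4, g, p 0 5, g], .lo 11, [.l [1, 9, 7, 10, 10, 8, 8, 6, 3], .l [2, 12], .l [0, 5, 3, 10, 10, 8, 8, 6, 3], .l [0, 3, 1, 8, 8, 6, 6, 4, 3], .l [12, 13, 11, 11, 9, 5, 8, 0, 5], .l [4, 12], .l [3, 9, 5, 10], .y [0, 4, 11, 9, 7], .l [12, 13, 11, 11, 9, 5, 8, 0, 3], .l [6, 12], .l [5, 9, 3, 10], .l [8, 11, 9, 3, 8, 2, 7], .l [9, 12], .l [8, 11, 9, 3, 8, 2, 7],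 .l [10, 13, 11, 11, 9, 3, 8, 2, 1], .l [11, 12], .l [10, 13, 11, 11, 9, 3, 8, 2, 1], .l [10, 11, 9, 9, 7, 3, 6, 0, 5], .r 3467 [1, 2, 3, 4, 5, 6] [1, 1, 1, 1, 1, 1, 1], .l [10, 11, 9, 9, 7, 3, 6, 0, 5]]),
([p 3 1, g, m 2 0, g, s 1 0, g, s 0 2, p 4 3, g, p 0 4, g], .lo 9, [.l [1, 9, 7, 8, 8, 6, 3], .l [2, 10], .l [0, 5, 3, 8, 8, 6, 3], .l [0, 3, 1, 6, 6, 4, 3], .l [10, 11, 9, 5, 8, 0, 5], .l [4, 10], .l [3, 9, 5, 8], .y [0, 4, 9, 7], .l [10, 11, 9, 5, 8, 0, 3], .l [6, 10], .l [5, 9, 3, 8], .l [8, 11, 9, 3, 8, 2, 1], .l [9, 10], .l [8, 11, 9, 3, 8, 2, 1], .l [8, 9, 7, 3, 6, 0, 5], .r 3468 [1, 2, 3, 4, 5] [1, 1, 1, 1, 1, 1], .l [8, 9, 7, 3, 6, 0, 5]]),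
([p 2 1, s 0 0, g, p 3 0, g, s 1 0, g, p 0 2, s 0 3, g], .hi 1, [.y [1], .r 1053 [1, 4, 2] [1, 3, 1, 2], .l [2, 9, 6, 6, 1], .r 578 [1, 4, 2] [1, 3, 1, 2], .l [4, 1, 8, 4, 4, 1], .l [4, 9, 4, 4, 1], .r 578 [1, 4, 2] [3, 1, 1, 2], .l [5, 4, 5, 3, 6, 3], .l [5, 4, 5], .r 520 [1, 4, 2] [3, 1, 1, 2], .l [5, 4, 5], .l [1, 7, 5], .l [5, 4, 8, 6, 4, 1], .l [5, 4, 8], .r 852 [1, 4, 2] [3, 1, 2, 1]]),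
([p 2 1, s 0 0, g, s 1 0, g, p 0 2, s 0 3, g, p 3 0, g], .hi 1, [.y [1], .r 1053 [1, 4, 2] [1, 1, 1, 4], .l [2, 7, 4, 4, 1], .r 578 [1, 4, 2] [1, 1, 1, 4], .r 989 [1, 4, 2] [1, 1, 1, 4], .l [3, 2, 3], .r 520 [1, 4, 2] [1, 1, 1, 4], .l [3, 2, 3], .l [1, 5, 3], .r 2530 [1, 4, 2, 3] [1, 1, 1, 1, 1], .l [3, 2, 6], .l [8, 6, 7, 3, 6], .r 2532 [1, 4, 2, 3] [1, 1, 1, 1, 1], .l [3, 2, 8], .l [10, 8, 9, 5, 1]]),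
([p 3 1, g, s 1 0, s 0 2, p 5 3, s 0 4, g, p 0 5, g, s 4 0, g, s 2 0, g], .lo 3, [.l [4, 3, 5, 1, 2, 6, 4, 7], .l [4, 3, 5, 1, 2], .l [4, 6, 1, 2, 7, 5, 8], .c, .l [2, 1, 3, 1, 4, 6, 2, 7], .l [2, 1, 3, 1, 10, 1, 5, 1, 6, 3], .l [2, 1, 3, 1, 4], .l [8, 5, 8, 6, 8, 10, 8, 3], .l [2, 1, 8, 5, 0, 5, 8, 6, 2, 3], .l [2, 1, 3, 1, 6], .l [2, 1, 3, 1, 6, 6, 2, 4, 2, 3], .l [12, 9, 12, 10, 3, 5, 8, 3], .l [2, 1, 3, 1, 10, 7, 3, 5, 6, 1], .l [2, 1, 3, 1, 8], .y [3, 11], .l [12, 9, 12, 10, 3, 5, 8, 3], .l [11, 7, 10, 9, 3, 10, 4, 1], .l [2, 1, 3, 1, 10]]),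
([p 4 1, s 0 2, g, p 0 3, g, s 1 0, s 0 0, g, s 3 0, p 5 4, g, p 0 5, g, s 2 0, g], .hi 6, [.l [5, 4, 8, 3, 6, 8, 4, 5], .l [7, 6, 10, 3, 6, 10, 6, 7], .l [2, 5, 8, 9, 3, 6, 2, 8], .l [7, 6, 10, 3, 6], .l [2, 3, 6, 7, 1, 4, 2, 6], .l [7, 6, 10, 3, 4, 10, 8, 3], .l [10, 6, 10, 0, 8, 2, 6, 9], .l [7, 6, 10, 3, 4], .y [6], .l [7, 11, 3, 8, 4, 10], .l [5, 4, 10, 5, 1], .r 2057 [1, 6, 4] [3, 1, 2, 5], .l [5, 4, 8, 3, 8, 10, 4, 5], .l [5, 4, 8, 3, 8], .l [5, 4, 13, 6, 1, 7, 3, 1, 4, 5], .l [5, 4, 8, 3, 8], .l [5, 4, 8, 3, 10, 5, 6, 1], .l [5, 4, 8, 3, 10], .l [8, 4, 8, 0, 10, 4, 8, 9], .l [5, 4, 8, 3, 12, 7, 8, 3], .l [5, 4, 8, 3, 12], .l [8, 4, 8, 0, 12, 6, 10, 5]]),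
([p 4 1, s 0 2, g, p 0 3, g, s 1 0, s 0 0, g, s 3 0, p 0 4, g, s 2 0, g], .lo 9, [.l [2, 11, 8, 7, 4], .l [3, 10], .l [0, 6, 3, 8, 5], .l [10, 6, 10, 0, 7], .l [5, 10], .l [4, 11, 6, 5], .y [0, 5, 9], .l [5, 4, 8, 3, 2], .l [10, 6, 10, 0, 4], .l [8, 10], .l [5, 4, 11, 4, 2, 6], .c, .l [8, 4, 8, 0, 7], .r 3473 [1, 2, 3, 4, 5] [1, 1, 1, 1, 1, 1], .l [8, 4, 8, 0, 7], .l [5, 4, 9, 9, 7, 4], .l [8, 4, 8, 0, 9], .l [5, 4, 9, 11, 9, 4], .l [8, 4, 8, 0, 9]]),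
([p 3 1, s 0 0, g, p 0 2, g, s 1 0, s 0 0, g, s 2 0, p 0 3, g], .hi 1, [.y [1], .r 1052 [1, 4, 3] [1, 3, 2, 1], .l [2, 11, 8, 8, 3], .r 578 [1, 4, 3] [1, 3, 3, 1], .l [2, 9, 6, 6, 3], .r 1052 [1, 4, 3] [3, 1, 2, 1], .l [4, 11, 6, 6, 3], .r 578 [1, 4, 3] [3, 1, 3, 1], .r 989 [1, 4, 3] [3, 0, 2, 1], .r 989 [1, 4, 3] [3, 2, 2, 1], .l [5, 4, 6], .r 520 [1, 4, 3] [3, 2, 2, 1], .l [0, 9, 8, 7, 4], .r 3474 [1, 4, 2, 3] [1, 1, 1, 1, 1], .l [5, 4, 9], .r 852 [1, 4, 3] [3, 3, 1, 1]]),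
([p 2 1, g, s 1 0, s 5 0, g, s 4 0, p 3 2, g, p 0 3, g, m 0 4, g, s 0 5, g], .hi 3, [.l [4, 3, 7, 3, 4, 6, 4, 5], .l [4, 8, 3, 4, 8, 6, 7], .l [4, 3, 7, 3, 4], .l [4, 8, 3, 5, 1, 6, 4, 5], .l [2, 1, 7, 5, 1], .r 2058 [1, 6, 2] [1, 1, 2, 7], .l [2, 1, 5, 3, 4, 6, 4, 5], .l [2, 1, 5, 3, 4], .l [8, 4, 7, 4, 7, 2, 6], .l [2, 1, 5, 3, 4], .l [2, 1, 9, 6, 2, 5, 8, 6, 2, 3], .l [2, 1, 5, 3, 6], .l [2, 1, 9, 6, 2, 5, 8, 6, 2, 3], .l [2, 1, 9, 6, 2, 5, 6, 4, 2, 3], .l [2, 1, 11, 8, 2, 7, 8, 4, 2, 3], .l [2, 1, 5, 3, 8], .l [2, 1, 11, 8, 2, 7, 8, 4, 2, 3], .y [3, 12], .l [2, 1, 11, 8, 2, 7, 8, 4, 2, 3], .l [2, 1, 5, 3, 10], .r 2055 [1, 6, 2] [1, 2, 7, 1]]),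
([p 3 1, g, s 2 0, g, s 0 0, s 1 2, s 5 0, g, s 6 0, p 4 3, g, p 0 4, g, s 0 5, g, m 0 6, g], .hi 4, [.l [3, 11, 7, 2, 7, 9, 7, 10], .l [3, 11, 7, 2, 7, 9, 7, 10], .l [0, 6, 3], .l [6, 1, 10, 4, 5, 9, 7, 10], .l [5, 11, 5, 8, 10, 6, 11], .l [0, 6, 1], .y [4], .l [2, 4, 6, 9, 4, 6, 1, 8, 6, 9], .l [0, 4, 6], .l [8, 3, 6], .l [0, 4, 9, 11, 9, 12], .l [0, 4, 9], .l [11, 6, 9], .l [0, 4, 9], .l [12, 15, 8, 2, 10, 5, 7, 1, 8, 6, 7], .l [0, 4, 11], .l [13, 8, 11], .l [0, 4, 11, 11, 4, 1], .l [5, 2, 8, 3, 9, 11, 7, 1, 8, 6, 7], .l [0, 4, 13], .l [15, 10, 13], .l [15, 10, 13], .l [5, 2, 8, 3, 9, 13, 9, 1, 10, 8, 3], .l [0, 4, 15], .l [17, 12, 15]]),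
([p 2 1, g, s 0 0, s 1 0, s 6 0, g, s 7 0, p 3 2, g, p 4 3, g, p 5 4, g, p 0 5, g, s 0 6, g, m 0 7, g], .hi 3, [.r 3477 [1, 8, 2, 3, 6, 7] [1, 1, 1, 1, 5, 1, 1], .l [4, 9, 4, 5, 9, 7, 14], .l [5, 2, 8, 3, 5, 1, 7, 5, 12], .c, .l [10, 17, 10, 2, 3, 12, 13, 11, 8, 9, 0, 5], .l [5, 9, 3, 5, 8, 5, 14], .l [10, 17, 10, 2, 3, 12, 13, 11, 8, 9, 0, 5], .l [12, 17, 8, 2, 3, 12, 1, 9, 2, 9, 1, 8, 6, 7], .l [0, 2, 2, 7, 9, 7, 14], .l [0, 2, 8, 5, 5, 1, 8, 6, 13], .l [8, 5, 10, 2, 8, 10, 2, 5, 10, 6, 6, 4, 9], .l [0, 2, 2, 9, 11, 9, 9, 7, 12], .r 1387 [1, 8, 2] [2, 3, 3, 9], .l [8, 13, 7, 3, 10, 15, 12, 5, 6, 0, 1, 5, 3], .l [0, 2, 2, 11, 13, 11, 11, 9, 9, 7, 10], .l [8, 13, 7, 3, 10, 15, 12, 5, 6, 0, 1], .y [0, 3, 13, 11, 9, 7],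 .l [8, 15, 9, 3, 12, 15, 12, 7, 8, 0, 3, 3, 1], .l [3, 2, 6, 3, 13, 1, 8, 8, 5, 5, 3, 3, 1], .l [8, 15, 9, 3, 12, 15, 12, 7, 8, 0, 3], .l [8, 15, 9, 3, 12, 13, 10, 7, 8, 0, 3, 3, 1], .l [8, 17, 11, 3, 14, 15, 12, 9, 10, 0, 5, 5, 3], .r 3431 [1, 8, 2] [1, 2, 9, 3], .l [8, 17, 11, 3, 14, 15, 12, 9, 10, 0, 5], .l [8, 15, 10, 2, 3, 10, 11, 11, 8, 9, 0, 5], .l [8, 15, 10, 2, 3, 10, 11, 13, 10, 11, 0, 7], .r 3431 [1, 8, 2] [1, 2, 11, 1], .l [8, 15, 10, 2, 3, 10, 11, 13, 10, 11, 0, 7]]),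
([p 2 1, g, s 0 0, s 1 0, s 5 0, g, s 6 0, p 3 2, g, p 4 3, g, p 0 4, g, s 0 5, g, m 0 6, g], .lo 11, [.l [1, 9, 7, 10, 10, 8, 8, 6, 9], .l [2, 12], .l [0, 4, 2, 11, 11, 9, 9, 7, 10], .l [0, 2, 9], .y [0, 3, 11, 9, 7], .l [3, 2, 6, 3, 7], .l [5, 9, 3, 10, 10, 8, 8, 2, 9], .l [6, 12], .l [3, 2, 8, 5, 11, 9, 7, 7, 5, 5, 2, 6], .l [5, 7, 1, 8, 8, 6, 6, 0, 7], .l [8, 11, 9, 14, 1, 10, 2, 5, 2, 4], .l [9, 12], .l [8, 11, 9, 9, 2, 9], .l [10, 13, 11, 11, 9, 12, 1, 8, 2, 5, 2, 1], .l [11, 12], .l [10, 13, 11, 11, 9, 9, 2, 1], .l [10, 11, 9, 9, 7, 12, 1, 8, 2, 3, 0, 2], .r 3478 [1, 2, 3, 4, 7, 5, 6] [1, 1, 1, 1, 1, 1, 1, 1], .l [10, 11, 9, 9, 7, 7, 0, 7], .l [3, 2, 6, 3, 9, 11, 9, 9, 7, 7, 4, 6], .l [3, 2, 6, 3, 9, 11, 9, 9, 7,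 7, 4, 6], .l [10, 11, 9, 9, 7, 7, 0, 9], .l [3, 2, 6, 3, 9, 13, 11, 11, 9, 9, 6, 3], .l [3, 2, 6, 3, 9, 13, 11, 11, 9, 9, 6, 3], .l [8, 9, 7, 12, 3, 12, 8, 0, 9]]),
([p 2 1, g, s 0 0, s 1 0, s 4 0, g, s 5 0, p 3 2, g, p 0 3, g, s 0 4, g, m 0 5, g], .lo 9, [.l [1, 9, 7, 8, 8, 6, 9], .l [2, 10], .l [0, 4, 2, 9, 9, 7, 10], .l [0, 2, 7], .y [0, 3, 9, 7], .l [3, 2, 6, 3, 5], .l [5, 9, 3, 8, 8, 2, 9], .l [6, 10], .l [3, 2, 8, 5, 9, 7, 5, 5, 2, 6], .l [5, 7, 1, 10, 3, 8, 7], .l [8, 11, 9, 12, 1, 8, 2, 5, 2, 1], .l [9, 10], .l [8, 11, 9, 9, 2, 1], .l [8, 9, 7, 12, 1, 8, 2, 3, 0, 2], .r 3479 [1, 2, 3, 6, 4, 5] [1, 1, 1, 1, 1, 1, 1], .l [8, 9, 7, 7, 0, 7], .l [3, 2, 6, 3, 7, 9, 7, 7, 4, 6], .l [3, 2, 6, 3, 7, 9, 7, 7, 4, 6], .l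 [8, 9, 7, 7, 0, 9], .l [3, 2, 6, 3, 7, 11, 9, 9, 6, 3], .l [3, 2, 6, 3, 7, 11, 9, 9, 6, 3], .l [6, 12, 3, 12, 8, 0, 9]]),
([p 2 1, g, s 0 0, s 1 0, s 0 0, g, s 4 0, p 3 2, g, p 0 3, g, m 0 4, g], .lo 4, [.l [5, 4, 8, 3, 5, 7, 4, 6], .l [5, 4, 8, 3, 5], .l [5, 9, 3, 4, 9, 7, 8], .l [3, 2, 6, 3, 3, 5, 4, 5], .c, .y [4], .l [5, 9, 3, 6, 2, 7, 4, 6], .r 3439 [1, 5, 2] [2, 1, 2, 5], .l [3, 2, 8, 5, 1], .l [5, 7, 1, 4, 2, 5, 2, 4], .l [3, 2, 6, 3, 5, 7, 4, 6], .l [9, 4, 8, 5, 8, 2, 7], .l [3, 2, 6, 3, 5], .r 3480 [1, 2, 3, 5, 4] [1, 1, 1, 1, 1, 1], .r 3410 [1, 2, 5] [2, 2, 3, 3], .l [3, 2, 6, 3, 7], .r 3476 [1, 2, 3, 4, 5] [2, 1, 1, 1, 1, 1], .r 3410 [1, 2, 5] [2, 2, 5, 1], .l [3, 2, 6, 3, 9]]),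
([p 4 1, s 0 2, g, p 3 0, g, s 0 3, s 1 0, g, p 5 4, g, s 2 0, g, p 0 5, g], .lo 5, [.l [11, 14, 12, 12, 2, 2, 8, 3], .l [0, 7, 3], .l [4, 12, 8, 3, 8, 10, 6, 6, 4, 1], .y [3, 5], .l [11, 14, 12, 12, 2, 2, 8, 1], .l [0, 7, 1], .l [4, 12, 8, 3, 8, 10, 6, 6, 4, 1], .c, .l [0, 5, 6, 8, 6, 7], .l [8, 2, 6], .l [0, 5, 6], .l [0, 5, 8, 12, 10, 10, 8, 5], .l [10, 4, 8], .l [0, 5, 8], .l [2, 10, 8, 3, 6, 8, 6, 6, 4, 1], .l [0, 5, 10, 12, 8, 8, 6, 7], .l [12, 6, 10], .l [0, 5, 10], .l [9, 12, 10, 10, 2, 2, 6, 7], .l [14, 8, 12], .l [0, 5, 12]]),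
([p 3 1, s 0 2, g, s 0 0, s 1 0, g, p 4 3, g, s 2 0, g, p 0 4, g], .hi 3, [.l [7, 10, 8, 8, 2, 2, 4, 1], .l [9, 12, 10, 10, 2, 2, 6, 1], .r 3482 [1, 2, 5, 3, 4] [1, 1, 1, 1, 1, 1], .l [0, 5, 1], .y [3], .l [0, 3, 4, 6, 4, 5], .l [0, 3, 4], .l [6, 2, 4], .l [0, 3, 6, 10, 8, 8, 6, 3], .l [0, 3, 6], .l [8, 4, 6], .l [0, 3, 8, 10, 6, 6, 4, 5], .l [0, 3, 8], .l [10, 6, 8], .l [0, 3, 8], .l [7, 10, 8, 8, 2, 2, 4, 5], .l [0, 3, 10], .l [12, 8, 10]]),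
([p 3 1, s 0 2, g, s 1 0, g, s 5 0, p 4 3, g, p 0 4, g, s 2 0, g, p 0 5, g], .lo 1, [.l [12, 10, 11, 4, 9, 5, 2, 8, 6, 3], .r 1556 [1, 6, 3] [1, 1, 2, 7], .l [2, 8, 5, 5, 2], .l [2, 6, 3, 3, 2], .l [12, 10, 11, 4, 7, 3, 6, 8, 2, 5], .r 2050 [1, 6, 3] [1, 1, 2, 7], .l [3, 2, 3], .l [10, 8, 9, 4, 5, 1, 4, 6, 2, 3], .l [1, 11, 3, 9, 1, 10, 6, 1], .l [8, 6, 11, 4, 8, 2, 6, 8, 2, 5], .l [3, 2, 6], .l [10, 8, 9, 4, 9, 5, 2, 8, 6, 3], .l [10, 8, 9, 4, 9, 5, 2, 8, 6, 3], .l [3, 2, 8], .y [1, 10], .l [10, 8, 9, 4, 9, 5, 2, 8, 6, 3], .l [10, 8, 9, 4, 9, 5, 2, 8, 6, 3], .l [3, 2, 10], .l [10, 8, 9, 4, 11, 7, 2, 4, 2, 5], .l [10, 8, 9, 4, 11, 7, 2, 4, 2, 5], .l [3, 2, 12]]),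
([p 3 1, s 0 2, g, s 0 0, s 1 0, g, s 4 0, p 0 3, g, s 2 0, g, p 0 4, g], .lo 7, [.l [13, 4, 8], .l [3, 8], .l [2, 9, 6, 5], .l [0, 3, 5], .y [0, 4, 7], .l [13, 4, 5], .l [6, 8], .l [5, 9, 3, 2], .c, .l [13, 6, 1], .r 3484 [1, 2, 3, 5, 4] [2, 1, 1, 1, 1, 1], .l [6, 7, 0, 7], .l [11, 4, 1], .l [13, 6, 3], .r 3483 [1, 2, 3, 5] [1, 2, 1, 1, 3], .l [6, 7, 0, 9], .l [11, 4, 11], .r 3483 [1, 2, 3, 5] [1, 2, 1, 3, 1], .l [6, 7, 0, 11]]),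
([p 3 1, s 0 2, g, s 1 0, g, s 7 0, p 6 3, s 5 4, g, s 4 0, g, s 0 5, g, p 0 6, g, p 0 7, g, s 2 0, g], .hi 5, [.l [3, 2, 3, 13, 9, 11, 10, 3], .l [7, 3, 10, 1, 14, 7, 3, 10, 0, 4], .l [0, 4, 10, 1, 12, 9, 4, 6, 7, 2], .l [7, 3, 10, 1, 14, 7, 3, 10, 0, 4], .l [7, 1, 10, 1, 14, 5, 1, 10, 0, 6], .l [3, 2, 10, 1, 15, 11, 7, 11, 6, 3, 4, 1], .l [3, 2, 10, 1, 13, 10, 1, 7, 8, 3], .l [3, 2, 17, 9, 11, 4], .l [3, 2, 17, 9, 11, 4], .l [11, 3, 14, 9, 11, 4, 2, 3], .l [3, 2, 17, 7, 11, 6], .l [3, 2, 17, 7, 11, 6], .l [13, 5, 14, 7, 9, 11, 9, 1], .l [9, 1, 12, 9, 6, 6, 7, 1], .l [3, 2, 17, 5, 11, 8], .l [3, 2, 17, 5, 11, 8], .l [19, 17, 18, 13, 3, 5, 11, 4], .l [3, 2, 15, 3, 9, 8], .l [8, 13, 10, 12, 4, 2, 4, 1], .l [8, 13, 10, 12,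 4, 2, 4, 1], .l [19, 17, 18, 13, 3, 13, 5, 1, 3, 4], .y [5, 15], .l [8, 13, 10, 14, 6, 2, 6, 3], .l [8, 13, 10, 14, 6, 2, 6, 3], .l [19, 17, 18, 13, 3, 13, 5, 1, 3, 4], .l [8, 13, 10, 16, 8, 2, 8, 5], .l [8, 13, 10, 16, 8, 2, 8, 5], .l [8, 15, 11, 17, 5, 6, 8, 2, 8, 5]]),
([p 3 1, s 0 2, g, s 1 0, g, s 7 0, p 6 3, s 5 4, g, s 0 5, g, s 4 0, g, p 0 6, g, p 0 7, g, s 2 0, g], .hi 5, [.l [3, 2, 3, 13, 9, 11, 10, 1], .l [7, 3, 10, 1, 14, 7, 3, 10, 0, 4], .l [0, 4, 10, 1, 12, 9, 4, 6, 7, 2], .l [7, 3, 10, 1, 14, 7, 3, 10, 0, 4], .l [7, 1, 10, 1, 14, 5, 1, 10, 0, 6], .l [3, 2, 10, 1, 15, 11, 7, 11, 6, 3, 4, 1], .l [3, 2, 10, 1, 13, 10, 1, 7, 8, 3], .l [3, 2, 17, 9, 11, 4], .l [3, 2, 17, 9, 11, 4], .l [11, 3, 14, 9, 11, 4, 2,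 3], .l [11, 3, 12, 7, 9, 9, 7, 1], .l [3, 2, 17, 7, 11, 6], .l [3, 2, 17, 7, 11, 6], .l [13, 5, 14, 7, 9, 11, 9, 1], .l [3, 2, 17, 5, 11, 8], .l [3, 2, 17, 5, 11, 8], .l [19, 17, 18, 13, 1, 5, 11, 4], .l [3, 2, 15, 3, 9, 8], .l [8, 13, 10, 12, 4, 2, 4, 1], .l [8, 13, 10, 12, 4, 2, 4, 1], .l [19, 17, 18, 13, 1, 13, 5, 1, 3, 4], .y [5, 15], .l [8, 13, 10, 14, 6, 2, 6, 3], .l [8, 13, 10, 14, 6, 2, 6, 3], .l [19, 17, 18, 13, 1, 13, 5, 1, 3, 4], .l [8, 13, 10, 16, 8, 2, 8, 5], .l [8, 13, 10, 16, 8, 2, 8, 5], .l [8, 15, 11, 17, 5, 6, 8, 2, 8, 5]]),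
([p 2 1, s 0 0, g, s 1 0, g, p 0 2, s 3 0, g, p 0 3, g], .top 4, [.r 1003 [1, 2] [2, 4], .r 3405 [1, 2, 3] [1, 1, 1, 1], .r 2564 [1, 2] [2, 1, 3], .r 2580 [1, 2] [2, 1, 3]]),
([p 3 1, s 0 2, g, s 1 0, g, s 6 0, p 5 3, s 0 4, g, s 4 0, g, p 0 5, g, p 0 6, g, s 2 0, g], .lo 7, [.l [3, 8, 4], .l [3, 8, 4], .l [11, 1, 12, 9, 4, 9, 1], .l [3, 6, 2], .l [5, 8, 2], .l [5, 8, 2], .l [11, 1, 12, 9, 2, 9, 1], .l [5, 6, 0], .r 3487 [1, 2, 3, 4, 7, 5, 6] [1, 1, 1, 1, 1, 1, 1, 1], .l [9, 1, 12, 9, 2, 4, 12, 6, 2, 5], .l [15, 9, 14, 13, 1], .y [7, 9], .r 3486 [1, 2, 3, 4, 7, 5, 6] [1, 1, 1, 1, 1, 1, 1, 1], .r 3488 [1, 3, 7] [1, 2, 3, 7], .l [15, 9, 14, 13, 3], .l [17, 15, 16, 11, 5, 7, 9, 2], .l [13, 5, 6, 2, 8, 9, 12, 7, 8, 3], .l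 [15, 9, 14, 13, 5], .l [7, 14, 10, 2, 13, 9, 7, 8, 3, 6, 1], .l [9, 1, 16, 8, 2, 12, 7, 1, 10, 1], .l [13, 7, 12, 11, 12], .l [3, 2, 13, 5, 5, 11, 5, 2], .l [3, 2, 13, 15, 7, 2], .l [3, 2, 13, 5, 5, 13, 7, 2], .l [13, 7, 12, 11, 14]]),
([p 3 1, s 0 2, g, s 1 0, g, s 6 0, p 5 3, s 0 4, g, p 0 5, g, p 0 6, g, s 4 0, g, s 2 0, g], .lo 7, [.l [3, 8, 4], .l [3, 8, 4], .l [1, 16, 1, 5, 11, 5, 10, 1, 8, 5], .l [3, 6, 2], .l [5, 8, 2], .l [5, 8, 2], .l [1, 16, 1, 5, 9, 3, 10, 3, 8, 3], .l [5, 6, 0], .l [7, 14, 10, 2, 13, 9, 7, 8, 3, 6, 1], .l [15, 7, 8, 4, 10, 11, 12, 5, 6, 1], .l [13, 7, 12, 11, 1], .l [17, 15, 16, 11, 3, 5, 9, 4], .l [5, 11, 3, 14, 10, 0, 10], .l [13, 7, 12, 11, 3], .l [7, 14, 10, 2, 13, 5, 3, 8, 1, 6, 3], .l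 [7, 14, 10, 2, 4, 10, 3, 1, 8, 1], .l [11, 5, 10, 9, 10], .y [7, 13], .l [7, 14, 10, 2, 13, 5, 3, 8, 1, 6, 3], .l [5, 13, 5, 14, 8, 0, 10], .l [11, 5, 10, 9, 12], .l [3, 2, 13, 1, 5, 6, 4, 10, 6, 3], .l [3, 2, 13, 15, 7, 2], .l [3, 2, 13, 1, 5, 6, 4, 12, 8, 3], .l [11, 5, 10, 9, 14]]),
([p 3 1, s 0 2, g, s 1 0, g, s 5 0, p 4 3, s 0 0, g, p 0 4, g, p 0 5, g, s 2 0, g], .hi 7, [.l [1, 6, 4], .l [3, 8, 4], .l [5, 4, 13, 11, 5, 2], .l [3, 8, 4], .l [5, 8, 2], .l [3, 2, 13, 9, 3, 8], .l [5, 8, 2], .y [7], .r 3489 [1, 2, 3, 6, 4, 5] [1, 1, 1, 1, 1, 1, 1], .l [13, 7, 12, 11, 1], .r 2574 [1, 3, 6] [1, 2, 1, 7], .l [11, 5, 10, 9, 1], .l [15, 13, 14, 9, 3, 5, 7, 2], .l [13, 7, 12, 11, 3], .r 2574 [1, 3, 6] [1, 2, 3, 5], .l [11,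 5, 10, 9, 3], .r 3490 [1, 2, 3, 6, 4, 5] [1, 1, 1, 1, 1, 1, 1], .l [11, 5, 10, 9, 10], .r 2574 [1, 3, 6] [1, 2, 5, 3], .l [3, 2, 11, 13, 7, 2], .l [11, 5, 10, 9, 12], .l [3, 2, 11, 13, 7, 2]]),
([p 5 1, g, s 2 0, g, p 4 2, p 3 0, g, p 0 3, g, p 0 4, s 1 0, g, p 0 5, g], .lo 7, [.l [1, 14, 12, 6, 6, 4, 1], .l [2, 8], .l [0, 11, 9, 6, 6, 4, 1], .l [1, 12, 10, 4, 4, 2, 1], .l [3, 14, 10, 4, 4, 2, 8], .l [4, 8], .l [0, 11, 7, 4, 4, 2, 5], .y [5, 7], .l [6, 9, 7, 1, 11, 7, 1], .l [7, 8], .l [6, 9, 7, 1, 11, 7, 1], .l [6, 7, 5, 1, 11, 7, 1], .l [6, 11, 8, 4, 7, 3, 10, 4, 7], .l [0, 11, 4, 1, 6, 2, 4, 2, 3], .l [0, 9, 9, 6, 6, 4, 1], .l [6, 7, 5, 1, 11, 7, 4], .l [0, 9, 11, 8, 8, 6, 1], .l [6, 7, 5, 1, 11, 7, 4], .l [6, 7, 5,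 1, 9, 5, 8], .l [0, 9, 13, 10, 10, 8, 1], .l [6, 7, 5, 1, 9, 5, 8]]),
([p 4 1, g, s 2 0, g, p 3 2, p 0 0, g, p 0 3, s 1 0, g, p 0 4, g], .lo 5, [.l [1, 12, 10, 4, 1], .l [2, 6], .l [0, 9, 7, 4, 1], .l [1, 10, 8, 2, 1], .l [3, 12, 8, 2, 8], .l [4, 6], .l [0, 9, 5, 2, 5], .y [5], .l [4, 1, 11, 7, 1], .r 3492 [1, 2, 5, 3, 4] [1, 1, 1, 1, 1, 1], .l [0, 9, 4, 1, 4, 0, 3], .l [0, 7, 7, 4, 1], .l [4, 1, 11, 7, 4], .l [0, 7, 9, 6, 1], .l [4, 1, 11, 7, 4], .l [4, 1, 9, 5, 8], .l [0, 7, 11, 8, 1], .l [4, 1, 9, 5, 8]]),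
([p 5 1, g, s 2 0, g, p 4 2, m 0 3, g, m 3 0, g, p 0 4, s 1 0, g, p 0 5, g], .hi 7, [.l [1, 14, 12, 6, 6, 4, 1], .l [0, 11, 9, 6, 6, 4, 1], .l [2, 8], .l [3, 14, 10, 4, 4, 2, 8], .l [0, 11, 7, 4, 4, 2, 5], .l [4, 8], .y [5, 7], .l [6, 9, 7, 1, 11, 7, 1], .l [6, 9, 7, 1, 11, 7, 1], .l [7, 8], .l [6, 7, 5, 1, 11, 7, 1], .l [0, 11, 4, 1, 6, 2, 4, 2, 3], .l [6, 11, 8, 4, 7, 3, 10, 4, 7], .l [0, 9, 2, 1, 4, 2, 2, 0, 1], .l [6, 7, 5, 1, 11, 7, 4], .l [6, 7, 5, 1, 11, 7, 4], .l [0, 9, 11, 8, 8, 6, 1], .l [6, 7, 5, 1, 9, 5, 4], .l [6, 7, 5, 1, 9, 5, 8], .l [6, 7, 5, 1, 9, 5, 8], .l [0, 9, 13, 10, 10, 8, 1]]),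
([p 4 1, g, s 2 0, g, p 3 2, m 0 0, g, p 0 3, s 1 0, g, p 0 4, g], .hi 5, [.l [1, 12, 10, 4, 1], .l [0, 9, 7, 4, 1], .l [2, 6], .l [3, 12, 8, 2, 8], .l [0, 9, 5, 2, 5], .l [4, 6], .y [5], .l [4, 1, 11, 7, 1], .l [0, 9, 4, 1, 4, 0, 3], .r 3494 [1, 2, 5, 3, 4] [1, 1, 1, 1, 1, 1], .l [0, 7, 2, 1, 2, 0, 1], .l [4, 1, 11, 7, 4], .l [4, 1, 11, 7, 4], .l [0, 7, 9, 6, 1], .l [4, 1, 9, 5, 4], .l [4, 1, 9, 5, 8], .l [4, 1, 9, 5, 8], .l [0, 7, 11, 8, 1]]),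
([p 5 1, g, s 3 0, g, s 0 2, g, p 4 3, s 2 0, g, p 0 4, s 1 0, g, p 0 5, g], .lo 12, [.l [8, 3, 13, 5, 10, 5, 1, 3, 4, 1], .l [2, 13], .l [1, 14, 12, 11], .l [6, 3, 11, 5, 8, 3, 1, 1, 2, 1], .l [4, 13, 7, 2, 8, 10, 8, 8, 6, 3], .l [4, 13], .l [3, 14, 10, 9], .l [3, 14, 10, 4, 10, 8, 6, 6, 4, 5], .l [6, 13], .l [5, 14, 8, 7], .l [6, 3, 11, 5, 4], .l [8, 14, 5, 4, 4, 2, 7], .l [9, 13], .l [8, 11, 8, 13, 7, 6], .y [0, 10, 12], .l [11, 7, 2, 6, 11, 2, 1, 1, 6, 3], .l [12, 13], .l [11, 14, 2, 1], .l [3, 12, 8, 2, 8, 10, 8, 8, 6, 3], .l [3, 12, 8, 2, 8, 10, 8, 8, 6, 3], .l [11, 12, 0, 11]]),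
([p 3 1, g, p 2 0, g, s 1 2, g, p 0 3, g], .top 1, [.l [2, 5, 2, 2, 1], .r 2163 [1, 2, 3] [1, 1, 1, 1], .r 334 [] [7], .r 444 [] [7]]),
([p 2 1, g, s 1 0, p 0 0, g, p 0 2, g], .top 6, [.r 2583 [2] [4], .r 2564 [1, 2] [1, 1, 1], .r 2528 [2] [4, 1], .r 3376 [2] [4, 1]]),
([p 3 1, s 4 0, g, m 2 0, s 0 0, g, s 1 2, g, p 0 3, g, s 0 4, g], .hi 4, [.l [8, 7, 10, 3, 4, 5], .l [2, 10, 7, 2, 3], .l [3, 5, 6], .y [4], .l [5, 10, 4, 7, 4, 4, 2, 5], .l [3, 7, 7, 2, 7, 4, 1], .r 2140 [1, 5, 2, 3] [1, 1, 1, 1, 3], .l [6, 5, 10, 5, 6, 3], .l [3, 5, 5, 2, 7, 4, 1], .l [6, 5, 10, 5, 6, 3], .l [3, 5, 5, 2, 5, 2, 1], .l [6, 5, 10, 5, 6, 1], .l [3, 5, 5, 2, 5, 2, 5], .l [6, 5, 10, 5, 6, 1], .l [6, 5, 8, 8, 2, 3], .l [6, 5, 8, 3, 4, 7], .l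 [3, 5, 5, 2, 5, 2, 7], .l [6, 5, 8, 10, 4, 5]]),
([p 3 1, s 4 0, g, m 2 0, g, s 1 2, g, p 0 3, g, s 0 4, g], .top 4, [.c, .r 3499 [1, 2, 3, 4] [1, 1, 1, 1, 1], .r 962 [1, 2, 3] [2, 1, 1, 3], .r 945 [1, 2, 3] [2, 1, 1, 3]]),
([p 3 1, s 0 0, g, m 2 0, g, s 1 2, g, p 0 3, g], .lo 1, [.y [1], .r 1018 [1, 4, 3] [1, 3, 1, 1], .r 1556 [1, 4, 3] [1, 3, 1, 1], .l [2, 9, 6, 6, 1], .l [2, 7, 4, 4, 1], .r 1018 [1, 4, 3] [3, 1, 1, 1], .l [7, 3, 8, 1, 4, 2, 3], .l [3, 6, 6, 2, 3], .r 2142 [1, 2, 4, 3] [1, 1, 1, 1, 1], .l [5, 1, 8, 3, 6, 2, 3], .l [3, 4, 4, 2, 3], .r 3500 [1, 2, 3, 4] [1, 1, 1, 1, 1], .r 3458 [1, 3, 4] [3, 1, 1, 1], .l [3, 4, 4, 2, 5]]),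
([p 3 1, g, m 2 0, g, s 1 2, g, p 0 3, g], .top 1, [.r 444 [] [5], .r 3501 [1, 2, 3] [1, 1, 1, 1], .r 334 [] [7], .r 444 [] [7]]),
([p 5 1, g, s 2 0, g, p 4 2, s 3 0, g, s 0 3, g, p 0 4, s 1 0, g, p 0 5, g], .hi 10, [.l [6, 1, 13, 7, 1, 10, 6, 3], .l [6, 1, 13, 7, 1, 10, 6, 3], .r 3502 [1, 6, 5] [1, 9, 1, 1], .l [6, 3, 13, 7, 1, 8, 4, 7], .r 3497 [1, 6, 5] [3, 7, 1, 1], .l [6, 3, 13, 7, 1, 8, 4, 7], .l [4, 1, 13, 9, 3, 10, 4, 7], .l [4, 1, 13, 9, 3, 10, 4, 7], .l [4, 1, 13, 9, 11, 4, 7], .l [4, 1, 11, 7, 1, 8, 4, 5], .l [4, 1, 13, 9, 1, 10, 4, 5], .l [8, 14, 5, 2, 7], .l [4, 1, 13, 9, 1, 10, 4, 5], .l [8, 12, 3, 0, 5], .l [4, 1, 13, 9, 1, 10, 6, 1], .l [4, 1, 13, 9, 1, 10, 6, 1], .l [6, 12, 1, 5, 3, 6, 9, 5, 2, 5], .y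 [0, 10, 12], .l [4, 1, 11, 7, 1, 8, 4, 7], .l [4, 1, 11, 7, 1, 8, 4, 7], .r 1374 [1, 4, 6, 5] [3, 4, 1, 1, 1]]),
([p 4 1, g, s 2 0, g, p 3 2, s 5 0, g, p 0 3, s 1 0, g, p 0 4, g, s 0 5, g], .hi 5, [.l [2, 6, 1, 3, 6, 3], .l [1, 12, 10, 4, 1], .l [2, 6, 1], .l [14, 6, 7, 5, 10, 3, 4, 1], .l [3, 12, 8, 2, 8], .l [4, 6, 3], .l [14, 8, 9, 5, 10, 3, 4, 1], .l [4, 1, 11, 7, 1], .l [14, 8, 9, 5, 10, 3, 4, 1], .l [4, 1, 9, 5, 1], .l [10, 4, 5, 3, 6, 8, 1, 8, 4, 1], .l [4, 1, 11, 7, 4], .l [10, 4, 5, 3, 6], .l [4, 1, 9, 5, 4], .l [5, 13, 8, 2, 9, 3, 8, 5], .l [4, 1, 9, 5, 8], .l [12, 6, 7, 5, 8], .y [5, 12], .l [5, 13, 8, 2, 9, 3, 8, 5], .l [4, 1, 9, 5, 10], .l [14, 8, 9, 7, 10]]),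
([p 5 1, g, s 2 0, g, p 4 2, s 0 3, g, s 3 0, g, p 0 4, s 1 0, g, p 0 5, g], .hi 10, [.l [6, 1, 13, 7, 1, 10, 6, 3], .l [6, 1, 13, 7, 1, 10, 6, 3], .r 3502 [1, 6, 5] [1, 9, 1, 1], .l [6, 3, 13, 7, 1, 8, 4, 7], .r 3497 [1, 6, 5] [3, 7, 1, 1], .l [6, 3, 13, 7, 1, 8, 4, 7], .l [4, 12, 7, 4, 9], .l [4, 1, 13, 9, 3, 10, 4, 7], .l [4, 1, 13, 9, 3, 10, 4, 7], .l [4, 1, 13, 9, 11, 4, 7], .l [4, 1, 13, 9, 1, 10, 4, 5], .l [8, 14, 5, 2, 7], .l [4, 1, 13, 9, 1, 10, 4, 5], .l [8, 12, 3, 0, 5], .l [4, 1, 13, 9, 1, 10, 6, 1], .l [4, 1, 13, 9, 1, 10, 6, 1], .l [6, 12, 1, 5, 3, 6, 9, 5, 2, 5], .y [0, 10, 12], .l [4, 1, 11, 7, 1, 8, 4, 7], .l [4, 1, 11, 7, 1, 8, 4, 7], .r 1374 [1, 4, 6, 5] [3, 4, 1, 1, 1]]),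
([p 5 1, g, s 2 0, g, s 3 0, g, p 4 2, s 0 3, g, p 0 4, s 1 0, g, p 0 5, g], .lo 12, [.l [8, 3, 13, 5, 10, 5, 1, 3, 4, 1], .l [2, 13], .l [1, 14, 12, 11], .l [6, 3, 11, 5, 8, 3, 1, 1, 2, 1], .l [4, 13, 7, 2, 8, 10, 8, 8, 6, 3], .l [4, 13], .l [3, 14, 10, 9], .l [3, 12, 8, 2, 8, 6, 4, 4, 2, 3], .l [3, 14, 10, 4, 10, 8, 6, 6, 4, 5], .l [6, 13], .l [5, 14, 8, 7], .l [8, 14, 5, 4, 4, 2, 7], .l [9, 13], .l [8, 11, 8, 13, 7, 6], .y [0, 10, 12], .l [11, 7, 2, 6, 11, 2, 1, 1, 6, 3], .l [12, 13], .l [11, 14, 2, 1], .l [3, 12, 8, 2, 8, 10, 8, 8, 6, 3], .l [3, 12, 8, 2, 8, 10, 8, 8, 6, 3], .l [11, 12, 0, 11]]),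
([p 5 1, g, s 2 0, g, p 4 2, s 3 0, g, p 0 3, g, p 0 4, s 1 0, g, p 0 5, g], .hi 5, [.l [2, 6, 1, 3, 8, 5], .l [1, 14, 12, 4, 1], .l [2, 6, 1], .r 3506 [1, 2, 6, 4, 5] [1, 1, 1, 3, 1, 1], .l [3, 14, 10, 2, 10], .l [4, 6, 3], .r 3505 [1, 2, 6, 4, 5] [1, 1, 1, 3, 1, 1], .l [4, 1, 13, 9, 1], .l [7, 1, 8, 6, 1], .y [5, 7], .r 3505 [1, 2, 6, 4, 5] [1, 1, 3, 1, 1, 1], .l [4, 1, 13, 9, 3], .l [7, 1, 8, 6, 1], .l [4, 1, 11, 7, 3], .l [12, 6, 7, 3, 8, 3, 4, 1], .l [4, 1, 13, 9, 6], .l [7, 1, 11, 9, 1], .l [4, 1, 11, 7, 6], .l [14, 8, 9, 5, 10, 3, 4, 1], .l [4, 1, 11, 7, 10], .l [7, 1, 13, 11, 1]]),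
([p 5 1, g, s 2 0, g, p 3 2, s 4 0, g, p 0 3, s 1 0, g, s 0 4, g, p 0 5, g], .hi 5, [.l [2, 6, 1, 3, 6, 3], .l [1, 14, 12, 4, 1], .l [2, 6, 1], .l [12, 4, 5, 3, 8, 3, 4, 1], .l [3, 14, 10, 2, 10], .l [4, 6, 3], .l [12, 6, 7, 3, 8, 3, 4, 1], .l [4, 1, 13, 9, 1], .l [12, 6, 7, 3, 8, 3, 4, 1], .l [4, 1, 11, 7, 1], .l [4, 1, 4, 7, 11, 4, 1, 3, 6, 1], .l [4, 1, 13, 9, 4], .l [10, 4, 5, 3, 6], .y [5, 10], .l [4, 1, 4, 7, 11, 4, 1, 3, 6, 1], .l [4, 1, 13, 9, 6], .l [12, 6, 7, 5, 8], .l [4, 1, 11, 7, 6], .l [10, 4, 5, 3, 6, 8, 1, 8, 4, 1], .l [4, 1, 11, 7, 10], .l [10, 4, 5, 3, 6, 8, 1, 8, 4, 1]]),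
([p 4 1, g, s 2 0, g, p 3 2, s 0 0, g, p 0 3, s 1 0, g, p 0 4, g], .lo 5, [.l [2, 6, 1, 3, 6, 3], .l [2, 6, 1], .l [1, 12, 10, 4, 1], .l [1, 10, 8, 2, 1], .r 3496 [1, 5, 2, 3, 4] [1, 1, 1, 1, 1, 1], .l [4, 6, 3], .l [3, 12, 8, 2, 8], .y [5], .r 3503 [1, 2, 5, 3, 4] [1, 1, 1, 1, 1, 1], .r 3507 [1, 2, 5, 3, 4] [1, 1, 1, 1, 1, 1], .l [4, 1, 11, 7, 1], .l [4, 10, 5, 2, 7], .r 3508 [1, 2, 3, 5, 4] [1, 1, 1, 1, 1, 1], .l [10, 4, 5, 3, 6], .l [4, 1, 11, 7, 4], .r 3504 [1, 2, 3, 4, 5] [1, 1, 1, 1, 1, 1], .l [12, 6, 7, 5, 8], .l [4, 1, 9, 5, 8]]),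
([p 3 1, g, s 2 0, g, p 0 2, p 0 0, s 1 0, g, p 0 3, g], .lo 5, [.l [1, 10, 8, 4, 1], .l [2, 6], .l [0, 7, 5, 4, 1], .l [1, 8, 6, 2, 1], .l [3, 10, 6, 2, 6], .l [4, 6], .l [0, 7, 3, 2, 3], .y [5], .l [0, 5, 5, 4, 1], .l [4, 1, 9, 5, 2], .l [0, 5, 7, 6, 1], .l [4, 1, 9, 5, 2], .l [4, 1, 7, 3, 6], .l [0, 5, 9, 8, 1], .l [4, 1, 7, 3, 6]]),
([p 4 1, g, s 2 0, g, p 3 2, g, p 0 3, s 1 0, g, p 0 4, g], .top 5, [.r 3510 [1, 2, 4] [1, 1, 1, 1], .r 3509 [1, 2, 3, 4] [1, 1, 1, 1, 1], .r 3493 [1, 2, 3, 4] [1, 1, 1, 1, 1], .r 3495 [1, 2, 3, 4] [1, 1, 1, 1, 1]]),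
([p 5 1, s 6 0, g, m 0 2, g, p 3 0, g, s 2 0, p 4 3, g, p 0 4, s 1 0, g, p 0 5, g, s 0 6, g], .hi 7, [.l [3, 8, 12, 6, 13, 3, 8, 2, 4, 1, 5, 2], .l [0, 12, 1, 7, 3, 7, 3, 0, 3], .l [3, 8, 12, 6, 13, 3, 8, 2, 4, 1, 5, 2], .y [3, 7], .l [10, 17, 7, 2, 14, 3], .l [0, 12, 1, 7, 3, 7, 3, 0, 3], .l [10, 17, 7, 2, 14, 3], .l [8, 10, 6, 13, 8, 2, 4, 2, 8], .l [8, 10, 6, 13, 8, 10, 7, 8, 5], .l [10, 12, 11, 1, 15, 7, 2, 9], .l [6, 8, 6, 13, 8, 2, 4, 2, 8], .l [6, 8, 6, 13, 8, 10, 7, 8, 5], .l [10, 2, 4, 3, 5, 3, 13, 7, 2, 9], .l [6, 8, 6, 11, 6, 8, 5, 6, 5], .l [13, 5, 7, 6, 6, 4, 8, 11], .l [8, 10, 9, 11, 4, 2, 7], .l [13, 5, 7, 6, 6, 4, 8], .l [8, 10, 9, 11, 4, 2, 7], .l [15, 7, 9, 8, 8, 6, 10, 11], .l [8, 10, 9, 13, 6, 2, 9],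 .l [15, 7, 9, 8, 8, 6, 10], .l [15, 6, 12, 3, 5, 1, 7, 9, 2, 3], .l [17, 9, 11, 10, 10, 8, 12, 7], .l [8, 10, 9, 15, 1, 7, 2, 9], .l [17, 9, 11, 10, 10, 8, 12]]),
([p 4 1, g, m 2 0, g, s 0 2, p 3 0, g, p 0 3, s 1 0, g, p 0 4, g], .lo 7, [.l [1, 12, 10, 6, 6, 4, 1], .l [2, 8], .l [0, 9, 7, 6, 6, 4, 1], .l [0, 7, 5, 4, 4, 2, 1], .l [8, 9, 7, 3, 10, 4, 7], .l [4, 8], .l [0, 9, 5, 4, 4, 2, 3], .y [5, 7], .l [6, 9, 7, 1, 10, 6, 1], .l [7, 8], .l [6, 9, 7, 1, 10, 6, 1], .l [0, 7, 7, 6, 6, 4, 1], .l [6, 7, 5, 1, 10, 6, 3], .l [0, 7, 9, 8, 8, 6, 1], .l [6, 7, 5, 1, 10, 6, 3], .l [6, 7, 5, 1, 8, 4, 7], .l [0, 7, 11, 10, 10, 8, 1], .l [6, 7, 5, 1, 8, 4, 7]]),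
([p 5 1, g, p 3 0, g, m 0 2, g, s 2 0, p 4 3, g, p 0 4, s 1 0, g, p 0 5, g], .hi 6, [.l [7, 9, 5, 12, 8, 2, 4, 2, 7], .l [7, 9, 5, 12, 8, 2, 4, 2, 7], .l [2, 7, 8, 4, 1, 7, 2, 4, 1], .l [7, 9, 3, 12, 10, 4, 6, 2, 3], .l [7, 9, 3, 12, 10, 4, 6, 2, 3], .l [8, 3, 8, 2, 6, 1, 7, 2, 7, 4, 4], .y [4, 6], .l [7, 9, 3, 12, 10, 2, 6, 4, 1], .l [7, 9, 3, 12, 10, 2, 6, 4, 1], .r 3513 [1, 6, 4, 5] [5, 1, 1, 1, 1], .l [5, 7, 3, 12, 10, 2, 6, 4, 1], .l [5, 7, 3, 12, 10, 2, 6, 4, 1], .l [5, 14, 8, 11, 1, 8, 1, 7, 4], .l [5, 7, 3, 10, 8, 2, 4, 2, 1], .l [5, 7, 3, 12, 10, 2, 4, 2, 5], .l [5, 7, 3, 12, 10, 2, 4, 2, 5], .l [12, 5, 9, 8, 8, 6, 7], .l [5, 7, 3, 10, 8, 2, 4, 2, 5], .l [5, 7, 3, 10, 8, 2, 4, 2, 7], .l [5, 7, 3, 10, 8, 2, 4,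 2, 7], .l [14, 7, 11, 10, 10, 8, 9]]),
([p 4 1, s 5 0, g, p 2 0, g, s 0 0, p 3 2, g, p 0 3, s 1 0, g, p 0 4, g, s 0 5, g], .lo 5, [.l [6, 13, 7, 2, 10, 3], .l [8, 15, 7, 2, 12, 3], .l [8, 15, 7, 2, 12, 3], .r 3512 [1, 6, 2, 3, 4, 5] [1, 1, 1, 1, 1, 1, 1], .l [6, 8, 7, 1, 11, 7, 2, 7], .l [8, 10, 9, 1, 13, 7, 2, 7], .l [8, 10, 9, 1, 13, 7, 2, 7], .r 3514 [1, 6, 2, 3, 4] [2, 1, 1, 1, 1, 3], .y [5], .l [6, 15, 9, 4, 12, 9], .l [8, 2, 4, 3, 13, 7, 2, 7], .l [0, 10, 2, 4, 1], .l [6, 8, 7, 7, 4], .l [11, 5, 7, 6, 6, 4, 6, 9], .l [11, 5, 7, 6, 6, 4, 6], .l [6, 8, 7, 9, 4, 2, 5], .l [13, 7, 9, 8, 8, 6, 8, 9], .l [13, 7, 9, 8, 8, 6, 8], .l [6, 8, 7, 11, 6, 2, 7], .l [15, 9, 11, 10, 10, 8, 10, 5], .l [15, 9, 11, 10, 10, 8, 10],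 .l [6, 8, 7, 13, 1, 7, 2, 7]]),
([p 3 1, s 4 0, g, s 0 0, p 2 0, g, p 0 2, s 1 0, g, p 0 3, g, s 0 4, g], .hi 4, [.r 3511 [1, 5, 2, 3] [2, 2, 1, 1, 3], .r 3515 [1, 5, 2, 3, 4] [1, 1, 1, 1, 1, 1], .l [6, 2], .r 3511 [1, 5, 2, 3] [2, 0, 1, 1, 3], .l [6, 1, 12, 7, 2, 8], .l [4, 5], .l [6, 1], .y [4, 6], .l [9, 4, 4, 2, 6], .l [4, 8], .l [9, 4], .l [4, 8], .l [11, 6, 6, 4, 8], .l [4, 10], .l [11, 6], .l [11, 6, 6, 4, 8], .l [13, 8, 8, 6, 10], .l [4, 12], .l [13, 8]]),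
([p 3 1, s 0 0, g, s 0 0, p 2 0, g, p 0 2, s 1 0, g, p 0 3, g], .lo 1, [.y [1], .r 1018 [1, 4, 3] [1, 5, 1, 1], .r 1556 [1, 4, 3] [1, 5, 1, 1], .l [2, 11, 8, 8, 1], .r 1018 [1, 4, 3] [1, 3, 1, 1], .r 1556 [1, 4, 3] [2, 2, 1, 1], .r 1018 [1, 4, 3] [4, 2, 1, 1], .r 1556 [1, 4, 3] [4, 2, 1, 1], .l [5, 8, 6, 10, 6, 6, 1], .l [6, 9, 2, 2, 1], .r 2171 [1, 2, 4, 3] [2, 1, 1, 1, 1], .l [4, 9, 5, 2, 6], .l [7, 6, 7], .r 3516 [1, 2, 3, 4] [1, 1, 1, 1, 1], .l [4, 11, 7, 2, 8], .l [7, 6, 9]]),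
([p 4 1, s 0 0, g, p 3 2, g, s 2 0, g, p 0 3, s 1 0, g, p 0 4, g], .hi 1, [.y [1], .r 1053 [1, 5, 4] [1, 6, 1, 1], .l [2, 12, 9, 9, 1], .r 578 [1, 5, 4] [1, 6, 1, 1], .r 1053 [1, 5, 4] [3, 4, 1, 1], .l [4, 9, 7, 11, 8, 8, 1], .r 578 [1, 5, 4] [3, 4, 1, 1], .r 1053 [1, 5, 4] [5, 2, 1, 1], .l [6, 9, 5, 11, 8, 8, 1], .r 578 [1, 5, 4] [5, 2, 1, 1], .l [6, 7, 3, 9, 6, 6, 1], .l [5, 1, 9, 5, 2, 5], .l [8, 7, 8], .l [3, 10, 7, 4, 7], .l [8, 7, 8], .l [5, 1, 11, 7, 2, 7], .l [8, 7, 10], .l [3, 12, 9, 4, 9]]),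
([p 3 1, s 0 0, p 2 0, g, p 0 2, s 1 0, g, p 0 3, g], .hi 2, [.r 1556 [1, 4, 3] [0, 2, 1, 1], .r 3518 [1, 4, 2, 3] [0, 1, 1, 1, 1], .l [2, 3], .l [4, 1], .y [2, 4], .l [7, 4, 4, 2, 4], .l [2, 6], .l [7, 4], .l [2, 6], .l [9, 6, 6, 4, 6], .l [2, 8], .l [9, 6]])]

def d13_3 : List (List Item × Qry × List Rf) := [
([p 3 1, g, s 0 0, p 2 0, g, p 0 2, s 1 0, g, p 0 3, g], .top 1, [.r 3519 [1, 2, 3] [1, 1, 1], .r 3517 [1, 2, 3] [1, 1, 1, 1], .r 334 [] [9], .r 444 [] [9]]),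
([p 4 1, g, s 2 0, g, p 0 2, p 3 0, g, p 0 3, s 1 0, g, p 0 4, g], .lo 7, [.l [1, 12, 10, 6, 6, 4, 1], .l [2, 8], .l [0, 9, 7, 6, 6, 4, 1], .l [1, 10, 8, 4, 4, 2, 1], .l [3, 12, 8, 4, 4, 2, 7], .l [4, 8], .l [0, 9, 5, 4, 4, 2, 3], .y [5, 7], .l [6, 9, 7, 1, 10, 6, 1], .l [7, 8], .l [6, 9, 7, 1, 10, 6, 1], .l [0, 7, 7, 6, 6, 4, 1], .l [6, 7, 5, 1, 10, 6, 3], .l [0, 7, 9, 8, 8, 6, 1], .l [6, 7, 5, 1, 10, 6, 3], .l [6, 7, 5, 1, 8, 4, 7], .l [0, 7, 11, 10, 10, 8, 1], .l [6, 7, 5, 1, 8, 4, 7]]),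
([p 5 1, g, p 2 0, g, p 3 2, p 4 3, g, p 6 4, s 1 0, g, p 0 5, g, s 0 6, g], .hi 8, [.l [5, 10, 6, 10, 8, 0, 5, 2, 7, 4, 0, 4, 1], .l [8, 12, 3, 11, 1, 10, 3], .l [8, 10, 7, 11, 5, 10, 1, 6, 7, 4, 1, 2, 3], .l [10, 5, 7, 5, 5, 4, 4, 2, 3], .l [8, 12, 3, 11, 1, 10, 5], .l [10, 5, 7, 5, 5, 4, 4, 2, 3], .l [6, 12, 5, 2, 8], .l [6, 12, 5, 2, 8], .l [7, 9, 6], .l [6, 10, 1, 3, 1, 5, 5, 4, 4, 2, 4, 2, 3], .l [6, 12, 5, 11, 1, 10, 1], .l [6, 10, 1, 3, 1, 5, 5, 4, 4, 2, 4, 2, 3], .y [0, 8, 10], .l [6, 10, 3, 11, 4, 5, 4, 8, 5, 1, 5, 3, 1], .l [11, 14, 9, 12, 5, 2, 8], .l [6, 10, 3, 11, 3, 10, 7], .l [6, 10, 3, 9, 9, 0, 6], .l [6, 14, 5, 1, 5, 2, 4, 2, 6, 6, 5, 5, 3], .l [6, 10, 3, 9, 1, 8, 9], .l [6, 10, 3, 9, 11, 2, 8]]),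
([p 6 1, g, p 2 0, g, p 3 2, g, p 5 3, g, s 0 4, g, p 4 5, s 1 0, g, p 0 6, g], .hi 11, [.l [11, 13, 3, 13, 11, 8, 10, 2, 7, 7, 5, 5, 3], .l [11, 15, 3, 12, 1, 10, 3], .l [9, 15, 5, 1, 4, 1, 4, 2, 7], .l [13, 8, 10, 8, 8, 6, 6, 2, 5], .l [11, 15, 3, 12, 1, 10, 5], .l [13, 8, 10, 8, 8, 6, 6, 2, 5], .l [13, 6, 8, 6, 6, 2, 7], .l [11, 15, 3, 12, 1, 10, 7], .l [13, 6, 8, 6, 6, 2, 7], .l [7, 15, 7, 4, 11], .l [7, 15, 7, 4, 11], .l [8, 12, 9], .l [7, 13, 5, 2, 9], .l [9, 15, 5, 2, 9], .l [9, 15, 5, 2, 9], .l [10, 12, 7], .l [7, 13, 1, 5, 3, 8, 8, 6, 6, 4, 6, 4, 1], .l [9, 15, 5, 12, 1, 10, 1], .l [7, 13, 1, 5, 3, 8, 8, 6, 6, 4, 6, 4, 1], .y [0, 11, 13], .l [7, 13, 5, 1, 4, 1, 10, 8, 5, 5, 3, 3, 1], .l [9, 13, 3, 10, 1, 8, 9],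 .l [7, 13, 5, 1, 4, 1, 10, 8, 5]]),
([p 6 1, g, s 2 0, g, p 3 2, g, p 4 3, g, p 5 4, g, p 7 5, s 1 0, g, p 0 6, g, p 0 7, g], .hi 11, [.l [6, 1, 14, 8, 12, 10, 10, 8, 8, 6, 3, 7, 1], .l [6, 1, 14, 8, 12, 10, 10, 8, 8, 6, 3], .l [6, 1, 14, 8, 12, 10, 10, 8, 4, 1, 8, 5, 1, 4, 1], .l [13, 8, 10, 8, 8, 6, 6, 4, 4, 2, 3, 5, 1], .r 3497 [1, 8, 6] [3, 8, 1, 3], .l [6, 3, 14, 8, 10, 8, 8, 6, 6, 4, 5], .l [13, 6, 8, 6, 6, 4, 4, 2, 5], .r 3497 [1, 8, 6] [5, 6, 1, 3], .l [4, 1, 14, 10, 12, 8, 8, 6, 6, 4, 5], .l [13, 4, 6, 4, 4, 2, 7], .r 3497 [1, 8, 6] [7, 4, 1, 3], .l [4, 1, 14, 10, 12, 10, 10, 6, 6, 4, 5], .l [9, 15, 5, 2, 11], .l [9, 15, 5, 2, 11], .l [4, 1, 14, 10, 12, 10, 10, 8, 8, 4, 5], .l [4, 1, 14, 10, 12, 10, 10, 8, 8,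 6, 1, 7, 1], .l [4, 1, 14, 10, 12, 10, 10, 8, 8, 6, 1], .l [4, 1, 14, 10, 12, 10, 10, 8, 4, 1, 8, 5, 1, 4, 1], .y [0, 11, 13], .l [14, 17, 12, 15, 5, 2, 11], .l [4, 1, 12, 8, 10, 8, 8, 6, 6, 4, 5], .r 1372 [1, 4, 5, 8, 6, 7] [5, 1, 1, 1, 1, 1, 1], .l [4, 1, 12, 8, 10, 8, 8, 6, 6, 4, 5], .l [9, 17, 5, 1, 5, 2, 4, 2, 9], .l [4, 1, 12, 8, 10, 8, 8, 6, 6, 4, 7], .l [9, 17, 5, 1, 5, 2, 4, 2, 9]]),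
([p 5 1, g, p 2 0, g, p 3 2, p 4 3, g, p 6 4, s 1 0, g, p 0 5, g, p 0 6, g], .hi 2, [.r 3524 [1, 7, 2, 3, 4, 5, 6] [1, 1, 1, 0, 1, 1, 1, 1], .l [2, 12, 9, 1, 9, 11, 6, 6, 4, 1], .l [4, 1], .l [4, 1, 11, 7, 7, 1, 9, 6, 6, 4, 1], .l [2, 3], .l [4, 1], .l [2, 6, 8, 6, 3], .l [2, 6], .l [7, 4], .l [2, 9, 13, 10, 10, 8, 3], .l [2, 9], .l [10, 7], .l [2, 9], .l [2, 11, 13, 8, 8, 6, 3], .l [2, 11], .l [12, 9], .y [2, 12, 7, 5, 4], .l [14, 11, 11, 9, 9, 8, 8, 6, 7], .l [2, 13], .l [14, 11]]),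
([p 7 1, g, s 0 2, g, p 3 0, g, p 4 3, g, p 5 4, g, p 2 5, s 1 6, g, p 6 0, g, p 0 7, g], .hi 13, [.l [3, 17, 13, 7, 12, 3, 12, 10, 10, 8, 5, 5, 3], .l [11, 13, 13, 13, 3, 13, 11, 2, 10, 8, 5], .l [15, 12], .l [1, 15, 13, 7, 12, 3, 4, 2, 2, 0, 5], .l [11, 15, 7, 15, 11, 12, 3, 10, 7, 1, 7, 1, 1], .l [11, 15, 7, 15, 11, 12, 3, 10, 7], .l [15, 10], .l [15, 8, 10, 8, 8, 6, 6, 4, 7], .l [11, 15, 9, 11, 9, 13, 9, 10, 3, 8, 5], .l [15, 8], .l [15, 6, 8, 6, 6, 4, 9], .l [11, 15, 11, 13, 11, 11, 9, 11, 7, 8, 3, 6, 3], .l [15, 6], .l [15, 4, 6, 4, 11], .l [14, 15, 10, 15, 5, 2, 11], .l [15, 4], .l [1, 17, 15, 7, 12, 1, 12, 8, 5, 5, 3, 3, 1], .l [11, 14, 5, 11, 12, 4, 1, 2, 7], .l [15, 1], .l [15, 1, 4, 10, 14, 1, 8, 4, 5, 3, 3,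 5, 3], .l [13, 14], .l [15, 1], .y [0, 11, 13, 15], .l [1, 15, 13, 7, 12, 3, 12, 10, 10, 8, 5, 5, 3], .l [13, 16], .l [17, 3]]),
([p 6 1, g, s 0 2, g, p 3 0, g, p 4 3, g, p 5 4, g, p 2 5, s 1 0, g, p 0 6, g], .hi 11, [.l [11, 13, 3, 13, 11, 2, 10, 8, 5, 5, 3, 3, 1], .l [1, 4, 10, 13, 5, 2, 9], .l [3, 15, 11, 7, 10, 1, 10, 8, 5], .l [1, 2, 8, 11, 3, 0, 7], .l [2, 11, 12, 4, 1, 2, 7, 7, 5, 5, 3, 5, 3], .l [2, 11, 12, 4, 1, 2, 7], .l [1, 15, 13, 9, 12, 1, 4, 2, 7], .l [13, 6, 8, 6, 6, 4, 4, 2, 5], .l [2, 11, 12, 6, 3, 4, 7], .l [13, 6, 8, 6, 6, 4, 4, 2, 5], .l [13, 4, 6, 4, 4, 2, 7], .l [2, 11, 12, 8, 5, 6, 7], .l [13, 4, 6, 4, 4, 2, 7], .l [9, 15, 5, 2, 11], .l [9, 15, 5, 2, 11], .l [10, 12, 9], .l [1, 15, 13, 7, 10, 1,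 10, 8, 5, 5, 3, 3, 1], .r 3526 [1, 2, 3, 4, 5, 7, 6] [1, 1, 1, 1, 1, 1, 1, 1], .l [1, 15, 13, 7, 10, 1, 10, 8, 5], .y [0, 11, 13], .l [9, 13, 3, 4, 12, 8, 5, 5, 3, 3, 1, 5, 1], .l [7, 5, 8, 9, 6, 7, 5, 5, 3, 5, 2, 2, 3], .l [1, 13, 11, 7, 10, 1, 10, 8, 5]]),
([p 7 1, g, s 2 0, g, p 3 2, g, p 4 3, p 5 4, g, p 6 5, s 1 0, g, p 0 6, g, p 0 7, g], .hi 10, [.l [6, 1, 3, 9, 11, 10, 10, 8, 3, 9, 7, 7, 3], .l [6, 1, 15, 9, 13, 11, 11, 10, 10, 8, 5], .l [6, 1, 15, 9, 9, 3, 9, 5, 0, 6, 8, 4, 1], .l [3, 16, 12, 7, 9, 8, 10, 3, 5, 8, 4, 2, 5], .l [3, 16, 12, 7, 9, 8, 10, 3, 5, 8, 4, 2, 5], .l [6, 3, 15, 9, 11, 9, 9, 8, 8, 6, 7], .l [5, 16, 10, 5, 7, 6, 6, 4, 9], .l [5, 16, 10, 5, 7, 6, 6, 4, 9], .l [4, 1, 15, 11, 13, 9, 9, 8, 8, 6,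 7], .l [8, 16, 7, 2, 12], .l [8, 16, 7, 2, 12], .l [4, 1, 15, 11, 13, 11, 11, 10, 10, 6, 7], .l [4, 1, 15, 11, 13, 11, 11, 10, 10, 8, 1, 7, 3], .l [4, 1, 15, 11, 13, 11, 11, 10, 10, 8, 1], .l [4, 1, 9, 12, 10, 11, 6, 3, 4, 6, 3], .l [4, 1, 13, 9, 11, 9, 9, 8, 8, 6, 1], .l [4, 1, 13, 3, 9, 5, 0, 6, 10, 8, 6, 4, 1], .l [4, 1, 15, 11, 13, 11, 11, 10, 10, 8, 3], .l [4, 1, 13, 3, 9, 5, 0, 6, 8, 4, 1], .y [0, 10, 14], .l [4, 1, 15, 5, 11, 5, 0, 8, 3, 1, 8, 4, 1], .l [4, 1, 13, 9, 11, 9, 9, 8, 8, 6, 7], .l [0, 9, 11, 10, 14, 5, 5, 1, 7, 1, 3, 6, 3]]),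
([p 7 1, g, p 3 2, g, s 2 0, g, p 4 3, p 5 4, g, p 0 5, s 1 6, g, p 6 0, g, p 0 7, g], .hi 4, [.l [2, 5, 7, 5, 5, 1, 12, 8, 10, 8, 8, 6, 1], .l [3, 9, 3, 7, 2, 5, 12, 7, 9, 6, 1], .l [2, 5, 7, 5, 5, 1, 12, 8, 10, 8, 8, 6, 1], .l [6, 1, 15, 9, 13, 1, 1, 9, 9, 8, 8, 6, 1], .l [5, 16, 10, 13, 1, 9, 9, 8, 8, 6, 1], .l [6, 1, 15, 9, 13, 1, 1, 9, 9, 8, 8, 6, 1], .l [4, 1, 7, 5, 5, 1, 8, 4, 6, 4, 4, 2, 3], .l [5, 16, 10, 13, 1, 9, 9, 8, 8, 6, 1], .l [4, 1, 7, 5, 5, 1, 8, 4, 6, 4, 4, 2, 3], .l [3, 16, 12, 4, 6, 4, 11], .l [2, 3, 3, 6, 8, 6, 3], .l [2, 3, 8, 4, 4, 2, 11, 6, 10, 8, 1], .y [2, 4, 9, 7, 6], .l [12, 7, 7, 7, 7, 5, 5, 4, 4, 2, 3, 7, 3], .l [1, 7, 3, 10, 5, 8, 12, 4, 9, 2, 3], .l [2, 3, 11, 7, 7, 5, 5, 4, 4, 2, 3], .l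 [14, 9, 9, 9, 9, 7, 7, 6, 6, 4, 5, 3, 3], .l [4, 1, 5, 3, 3, 10, 12, 3, 8, 4, 6, 4, 4, 2, 3], .l [2, 3, 13, 9, 9, 7, 7, 6, 6, 4, 5], .l [4, 1, 5, 3, 3, 10, 10, 1, 6, 4, 4, 2, 2, 0, 1], .l [16, 11, 11, 11, 11, 9, 9, 8, 8, 6, 7, 5, 5], .l [3, 14, 10, 13, 1, 9, 9, 8, 8, 6, 1], .l [2, 3, 15, 11, 11, 9, 9, 8, 8, 6, 7]]),
([p 6 1, g, p 3 2, g, s 2 0, g, p 4 3, p 5 4, g, p 0 5, s 1 0, g, p 0 6, g], .hi 10, [.l [3, 6, 1, 10, 7, 10, 2, 5, 5, 4, 4, 2, 3], .l [1, 6, 1, 7, 11, 7, 4, 8, 5], .l [3, 6, 1, 10, 7, 10, 2, 5, 5, 4, 4, 2, 3], .l [12, 7, 9, 5, 5, 4, 4, 2, 5], .l [1, 6, 3, 10, 5, 10, 4, 7, 7, 6, 6, 4, 1], .l [12, 7, 9, 5, 5, 4, 4, 2, 5], .l [12, 5, 9, 7, 7, 6, 6, 4, 5], .l [4, 1, 8, 10, 6, 1, 4, 6, 3], .l [12, 5, 9, 7, 7, 6,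 6, 4, 5], .l [8, 14, 5, 2, 10], .l [8, 14, 5, 2, 10], .l [9, 11, 8], .l [8, 12, 3, 0, 8], .l [1, 4, 1, 8, 5, 10, 4, 7, 7, 6, 6, 4, 1], .r 3529 [1, 2, 3, 4, 5, 7, 6] [1, 1, 1, 1, 1, 1, 1], .l [1, 4, 1, 8, 5, 10, 4, 7, 7, 6, 6, 4, 1], .y [0, 10, 12], .l [1, 4, 1, 8, 5, 8, 2, 5, 5, 4, 4, 2, 3], .l [1, 4, 1, 8, 5, 8, 2, 5, 5, 4, 4, 2, 3], .l [4, 1, 11, 7, 2, 3, 2, 6, 8, 4, 1]]),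
([p 8 1, g, p 3 2, g, s 2 0, g, p 4 3, g, p 5 4, p 6 5, g, p 7 6, s 1 0, g, p 0 7, g, p 0 8, g], .hi 12, [.l [6, 1, 13, 9, 3, 9, 1, 6, 12, 5, 7, 3, 5, 6, 3], .l [6, 1, 13, 9, 3, 9, 1, 6, 12, 5, 7, 3, 5, 6, 3], .l [0, 6, 1, 13, 7, 15, 7, 8, 2, 4, 9, 9, 7, 4, 1], .l [3, 18, 14, 9, 11, 10, 12, 3, 7, 10, 4, 2, 7], .l [3, 18, 14, 9, 11, 10, 12, 3, 7, 10, 4, 2, 7], .l [14, 9, 11, 7, 7, 5, 5, 4, 4, 2, 5], .l [5, 18, 12, 7, 9, 8, 10, 3, 5, 8, 4, 2, 5], .l [5, 18, 12, 7, 9, 8, 10, 3, 5, 8, 4, 2, 5], .l [14, 7, 11, 9, 9, 7, 7, 6, 6, 4, 5], .l [7, 18, 10, 5, 7, 6, 6, 4, 11], .l [7, 18, 10, 5, 7, 6, 6, 4, 11], .l [8, 13, 15, 14, 14, 12, 7], .l [10, 18, 7, 2, 14], .l [10, 18, 7, 2, 14], .l [11, 13, 10], .l [13, 16, 13, 16, 5, 2, 12],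 .l [13, 16, 13, 16, 5, 2, 12], .l [4, 1, 13, 1, 13, 10, 6, 9, 2, 6, 6, 4, 1], .l [13, 14, 11, 14, 3, 0, 10], .l [4, 1, 11, 13, 7, 3, 5, 8, 8, 6, 3, 1, 5], .l [4, 1, 11, 13, 7, 3, 5, 8, 8, 6, 3], .l [10, 16, 3, 5, 1, 11, 11, 10, 10, 8, 8, 4, 8, 4, 5], .y [0, 12, 16], .l [4, 1, 11, 15, 9, 3, 5, 10, 10, 8, 5, 1, 7], .l [4, 1, 11, 15, 9, 3, 5, 10, 10, 8, 5], .l [4, 1, 15, 11, 1, 11, 13, 7, 9, 8, 8, 6, 1]]),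
([p 8 1, g, p 2 0, g, p 3 2, g, p 4 3, g, p 5 4, p 6 5, g, p 7 6, s 1 0, g, p 0 7, g, p 0 8, g], .hi 12, [.l [2, 5, 14, 10, 2, 10, 12, 9, 12, 1, 7, 2, 4, 6, 3], .l [1, 18, 16, 11, 13, 12, 12, 10, 10, 9, 9, 7, 7, 5, 5, 3, 5, 3], .l [2, 13, 15, 14, 14, 12, 12, 11, 11, 9, 9, 7, 7, 5, 3, 1, 5, 3], .l [14, 9, 11, 9, 9, 7, 7, 5, 5, 4, 4, 2, 3], .l [3, 6, 4, 16, 14, 9, 11, 10, 10, 8, 8, 7, 7, 5, 5, 3, 5, 3], .l [0, 13, 15, 14, 14, 12, 12, 11, 11, 9, 9, 7, 7, 3, 5, 3, 5, 1], .l [5, 8, 6, 16, 12, 7, 9, 8, 10, 3, 5, 8, 4, 2, 5], .l [5, 8, 6, 6, 4, 14, 12, 7, 9, 8, 8, 6, 6, 5, 5, 3, 5, 3], .l [0, 13, 15, 14, 14, 12, 12, 11, 11, 9, 9, 5, 5, 3, 5, 3, 5, 1], .l [7, 18, 10, 5, 7, 6, 6, 4, 11], .l [7, 10, 8, 8, 6, 6, 4, 13, 11, 6, 8,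 7, 7, 5, 5, 3, 5, 3], .l [0, 13, 15, 14, 14, 12, 12, 11, 11, 7, 7, 5, 5, 3, 5, 3, 5, 1], .l [10, 18, 7, 2, 14], .l [10, 13, 11, 11, 10, 10, 8, 8, 6, 6, 4, 10, 8, 3, 5, 3, 5, 3], .l [0, 13, 15, 14, 14, 10, 10, 9, 9, 7, 7, 5, 5, 3, 5, 3, 5, 1], .l [13, 16, 13, 16, 5, 2, 12], .l [13, 16, 13, 13, 11, 11, 10, 10, 8, 8, 6, 6, 4, 8, 6, 3, 5, 1], .l [0, 11, 15, 14, 14, 12, 12, 11, 11, 9, 9, 7, 7, 5, 3, 1, 5, 3], .l [13, 14, 11, 11, 9, 9, 8, 8, 6, 6, 4, 4, 2, 6, 4, 1, 3, 1], .l [10, 16, 3, 5, 1, 11, 11, 10, 10, 8, 8, 6, 6, 4, 6, 2, 3], .l [7, 12, 14, 16, 6, 0, 11, 11, 9, 3, 10, 4, 7, 4, 5, 0, 2, 3], .l [0, 11, 13, 12, 12, 10, 10, 9, 9, 7, 7, 5, 5, 3, 5, 3, 5, 1], .y [0, 12, 16], .l [10, 18, 5, 7, 1, 13, 8, 12, 1], .l [11, 14, 13,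 13, 11, 11, 10, 10, 8, 8, 6, 8, 4, 7, 1, 3, 1, 3], .l [0, 11, 13, 12, 12, 10, 10, 9, 9, 7, 7, 5, 5, 3, 7, 5, 5, 1]]),
([p 8 1, g, s 2 0, g, p 3 2, g, p 4 3, g, p 5 4, g, p 6 5, g, p 7 6, s 1 0, g, p 0 7, g, p 0 8, g], .hi 13, [.l [6, 1, 18, 12, 16, 14, 14, 12, 12, 10, 10, 8, 5], .l [6, 1, 18, 12, 16, 14, 14, 12, 12, 10, 10, 8, 5], .r 3502 [1, 9, 8] [1, 12, 3, 1], .l [6, 3, 18, 12, 14, 12, 12, 10, 10, 8, 8, 6, 7], .r 3497 [1, 9, 8] [3, 10, 3, 1], .l [6, 3, 18, 12, 14, 12, 12, 10, 10, 8, 8, 6, 7], .l [4, 1, 18, 14, 16, 12, 12, 10, 10, 8, 8, 6, 7], .r 3497 [1, 9, 8] [5, 8, 3, 1], .l [4, 1, 18, 14, 16, 12, 12, 10, 10, 8, 8, 6, 7], .l [4, 1, 18, 14, 16, 14, 14, 10, 10, 8, 8, 6, 7], .r 3497 [1, 9, 8] [7, 6, 3, 1], .l [4, 1,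 18, 14, 16, 14, 14, 10, 10, 8, 8, 6, 7], .l [4, 1, 18, 14, 16, 14, 14, 12, 12, 8, 8, 6, 7], .r 3497 [1, 9, 8] [9, 4, 3, 1], .l [4, 1, 18, 14, 16, 14, 14, 12, 12, 8, 8, 6, 7], .l [4, 1, 18, 14, 16, 14, 14, 12, 12, 10, 10, 6, 7], .l [11, 19, 7, 2, 15], .l [4, 1, 18, 14, 16, 14, 14, 12, 12, 10, 10, 6, 7], .l [4, 1, 18, 14, 16, 14, 14, 12, 12, 10, 10, 8, 1], .l [4, 1, 18, 14, 16, 14, 14, 12, 12, 10, 10, 8, 1], .r 884 [1, 2, 3, 4, 5, 6, 9, 8] [1, 1, 1, 1, 1, 1, 1, 3, 1], .l [4, 1, 16, 12, 14, 12, 12, 10, 10, 8, 8, 6, 1], .l [4, 1, 18, 14, 16, 14, 14, 12, 12, 10, 10, 8, 3], .l [4, 1, 18, 14, 16, 14, 14, 12, 12, 10, 10, 8, 3], .l [11, 17, 3, 5, 1, 12, 12, 10, 10, 8, 8, 6, 8, 2, 3], .y [0, 13, 17], .l [4, 1, 16, 12, 14, 12, 12,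 10, 10, 8, 8, 6, 7], .l [4, 1, 16, 12, 14, 12, 12, 10, 10, 8, 8, 6, 7], .l [11, 19, 5, 7, 1, 14, 9, 12, 1]]),
([p 7 1, g, p 2 0, g, p 3 2, g, p 4 3, p 5 4, g, p 6 5, s 1 0, g, p 0 6, g, p 0 7, g], .hi 2, [.r 3533 [1, 8, 2, 3, 4, 5, 6, 7] [1, 1, 1, 1, 0, 1, 1, 1, 1], .r 3532 [1, 8, 2, 3, 4, 5, 6, 7] [1, 1, 1, 1, 1, 1, 1, 1], .l [4, 1], .r 3531 [1, 8, 2, 3, 4, 5, 6, 7] [1, 1, 1, 1, 1, 1, 1, 1], .l [2, 3], .l [4, 1], .l [2, 5, 11, 7, 13, 5, 6, 2, 4, 5, 2], .l [2, 5], .l [6, 3], .l [0, 11, 2, 8, 8, 6, 6, 4, 1], .l [2, 8], .l [9, 6], .l [12, 9, 9, 7, 7, 5, 5, 4, 4, 2, 3], .l [2, 11], .l [12, 9], .y [2, 12, 9, 7, 6, 4], .l [14, 11, 11, 9, 9, 7, 7, 6, 6, 4, 5], .l [2, 13], .l [14, 11], .l [2, 13], .l [16, 13, 13, 11, 11, 9, 9,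 8, 8, 6, 7], .l [2, 15], .l [16, 13]]),
([p 6 1, g, p 2 0, g, p 3 2, p 4 3, g, p 5 4, s 1 0, g, p 0 5, g, p 0 6, g], .hi 2, [.r 3528 [1, 7, 2, 3, 4, 5, 6] [1, 1, 1, 1, 1, 1, 1], .r 3534 [1, 7, 2, 3, 4, 5, 6] [1, 1, 1, 1, 1, 1, 1], .l [4, 1], .r 3530 [1, 7, 2, 3, 4, 6] [1, 1, 1, 1, 3, 1], .l [2, 3], .l [4, 1], .l [2, 6, 8, 6, 3], .l [2, 6], .l [7, 4], .l [2, 9, 11, 8, 8, 6, 3], .l [2, 9], .l [10, 7], .y [2, 10, 7, 5, 4], .l [12, 9, 9, 7, 7, 6, 6, 4, 5], .l [2, 11], .l [12, 9], .l [2, 11], .l [14, 11, 11, 9, 9, 8, 8, 6, 7], .l [2, 13], .l [14, 11]]),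
([p 5 1, g, p 2 0, g, p 3 2, p 4 3, g, p 0 4, s 1 0, g, p 0 5, g], .lo 7, [.r 3527 [1, 6, 2, 3, 4, 5] [1, 1, 1, 0, 1, 1, 1], .l [2, 8], .l [1, 12, 10, 6], .y [2, 7, 5, 4], .l [3, 12, 8, 4, 4, 2, 7], .l [4, 8], .l [3, 6, 4, 11, 9, 5], .r 3523 [1, 2, 3, 6, 4, 5] [1, 1, 0, 1, 1, 1, 1], .l [7, 8], .l [6, 9, 7, 7, 6, 6, 4, 8, 6, 1], .l [6, 10, 3, 0, 6], .l [6, 12, 5, 2, 4, 2, 6], .r 3535 [1, 2, 3, 4, 6, 5] [1, 1, 1, 1, 1, 1], .l [6, 7, 5, 5, 4, 4, 2, 8, 6, 3], .r 3522 [1, 2, 3, 4, 5, 6] [1, 1, 1, 1, 1, 1], .r 3525 [1, 2, 3, 4, 5, 6] [1, 1, 1, 1, 1, 1], .l [3, 10, 6, 0, 7, 4, 7, 2, 0, 4]]),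
([p 4 1, g, p 2 0, p 3 2, g, p 0 3, s 1 0, g, p 0 4, g], .hi 2, [.r 3521 [1, 5, 3, 4] [1, 1, 1, 1, 1], .r 3536 [1, 5, 2, 3, 4] [1, 1, 1, 1, 1], .l [4, 1], .l [0, 7, 2, 4, 1], .l [2, 4], .l [5, 2], .y [2, 5, 3], .l [8, 5, 5, 4, 4, 2, 3], .l [2, 7], .l [8, 5], .l [2, 7], .l [10, 7, 7, 6, 6, 4, 5], .l [2, 9], .l [10, 7]]),
([p 2 1, g, s 1 0, m 0 0, g, p 0 2, g], .top 6, [.r 2583 [2] [4], .r 2580 [1, 2] [1, 1, 1], .r 2528 [2] [4, 1], .r 3376 [2] [4, 1]]),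
([p 4 0, g, p 2 0, g, p 1 0, g, p 0 1, p 3 2, g, p 0 3, g, p 0 4, g], .lo 6, [.l [0, 5], .l [7, 9, 5, 11, 7, 8, 5, 6, 3], .l [2, 7], .l [1, 13, 11, 5], .l [2, 5], .l [7, 9, 3, 11, 9, 2, 6, 4, 1], .l [4, 7], .l [3, 9, 7, 11, 9, 3], .y [4, 6], .l [7, 9, 3, 11, 9, 4, 6, 2, 3], .l [6, 7], .l [5, 8, 6, 8, 6, 10, 8, 1], .l [5, 7, 3, 11, 9, 4, 6, 2, 3], .l [5, 13, 7, 0, 10, 1, 7, 1, 6, 3], .l [5, 6, 4, 6, 4, 10, 8, 3], .l [5, 7, 3, 11, 9, 6, 3, 4, 1], .l [7, 11, 9, 10, 6, 3, 4, 5], .l [4, 13, 8, 2, 8, 3, 5, 1, 4, 5], .l [5, 7, 3, 9, 7, 8, 5, 6, 3], .l [7, 13, 11, 12, 8, 3, 6, 7], .l [5, 6, 4, 6, 4, 8, 6, 7]]),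
([p 7 1, g, p 3 2, g, s 2 0, g, p 4 0, g, p 0 3, p 5 4, g, p 0 5, s 1 6, g, p 6 0, g, p 0 7, g], .hi 4, [.l [2, 5, 9, 7, 7, 3, 14, 8, 12, 10, 10, 8, 1], .l [3, 11, 5, 9, 2, 7, 14, 7, 9, 6, 1], .l [2, 5, 9, 7, 7, 3, 14, 8, 12, 10, 10, 8, 1], .l [6, 1, 17, 11, 15, 1, 1, 9, 11, 10, 10, 8, 1], .l [5, 18, 12, 15, 1, 9, 11, 10, 10, 8, 1], .l [6, 1, 17, 11, 15, 1, 1, 9, 11, 10, 10, 8, 1], .l [4, 1, 9, 7, 7, 3, 10, 4, 8, 6, 6, 4, 5], .l [5, 18, 12, 15, 1, 9, 11, 10, 10, 8, 1], .l [4, 1, 9, 7, 7, 3, 10, 4, 8, 6, 6, 4, 5], .l [8, 3, 3, 3, 7, 3, 7, 1, 5, 6, 1, 5, 5], .l [15, 11, 3, 11, 5, 0, 8, 13, 2, 6, 1], .l [2, 3, 7, 3, 15, 9, 13, 10, 10, 8, 1], .y [2, 4, 8], .l [3, 18, 14, 6, 8, 6, 13], .l [2, 3, 3, 8, 10, 8, 5], .l [2, 3, 10,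 6, 6, 2, 13, 6, 12, 10, 1], .l [2, 3, 3, 8, 8, 6, 5], .l [14, 9, 9, 9, 9, 5, 7, 6, 6, 4, 5, 9, 3], .l [1, 9, 5, 12, 5, 10, 14, 4, 9, 2, 3], .l [2, 3, 13, 9, 9, 5, 7, 6, 6, 4, 5], .l [16, 11, 11, 11, 11, 7, 9, 8, 8, 6, 7, 5, 5], .l [4, 1, 7, 5, 5, 12, 14, 5, 10, 4, 8, 6, 6, 4, 5], .l [2, 3, 15, 11, 11, 7, 9, 8, 8, 6, 7], .l [4, 1, 7, 5, 5, 12, 12, 3, 8, 4, 6, 4, 4, 2, 3], .l [18, 13, 13, 13, 13, 9, 11, 10, 10, 8, 9, 7, 7], .l [3, 16, 12, 15, 1, 9, 11, 10, 10, 8, 1], .l [2, 3, 17, 13, 13, 9, 11, 10, 10, 8, 9]]),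
([p 6 1, g, p 3 2, g, s 2 0, g, p 4 0, g, p 0 3, p 5 4, g, p 0 5, s 1 0, g, p 0 6, g], .hi 12, [.l [8, 14, 7, 4, 11, 13, 4, 4, 5, 2, 5], .l [8, 14, 7, 4, 11, 13, 4, 4, 5, 2, 5], .l [3, 6, 1, 12, 9, 12, 2, 5, 7, 6, 6, 4, 5], .l [14, 9, 11, 5, 7, 6, 6, 4, 7], .l [8, 14, 9, 6, 11, 13, 4, 4, 7, 4, 1], .l [14, 9, 11, 5, 7, 6, 6, 4, 7], .l [14, 7, 11, 7, 9, 8, 8, 6, 7], .l [8, 14, 11, 8, 11, 13, 4, 4, 9, 6, 1], .l [14, 7, 11, 7, 9, 8, 8, 6, 7], .l [14, 5, 7, 4, 4, 2, 9], .l [7, 16, 8, 5, 12, 10, 11, 10, 5], .l [14, 5, 7, 4, 4, 2, 9], .l [7, 14, 6, 3, 10, 8, 9, 8, 3], .l [10, 16, 5, 2, 12], .l [10, 16, 5, 2, 12], .l [11, 13, 10], .l [10, 14, 3, 0, 10], .l [1, 4, 1, 10, 7, 12, 4, 7, 9, 8, 8, 6, 1], .r 3540 [1, 2, 3, 4, 5, 7, 6]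 [1, 1, 1, 1, 1, 1, 1, 1], .l [1, 4, 1, 10, 7, 12, 4, 7, 9, 8, 8, 6, 1], .y [0, 12, 14], .l [6, 12, 15, 12, 8, 10, 4, 4, 9, 6, 1], .l [6, 12, 15, 12, 8, 10, 4, 4, 9, 6, 1], .l [6, 14, 7, 2, 11, 13, 5, 2, 7]]),
([p 6 1, g, s 2 0, g, p 3 2, g, p 4 0, g, p 0 3, p 5 4, g, p 0 5, s 1 0, g, p 0 6, g], .hi 12, [.l [8, 14, 7, 4, 11, 13, 4, 4, 5, 2, 7], .l [6, 1, 15, 9, 13, 9, 11, 10, 10, 8, 3], .l [6, 1, 7, 12, 9, 6, 9, 4, 2, 6, 1], .l [8, 14, 9, 6, 11, 13, 4, 4, 7, 4, 7], .l [8, 14, 9, 6, 11, 13, 4, 4, 7, 4, 7], .l [6, 3, 15, 9, 11, 7, 9, 8, 8, 6, 7], .l [14, 7, 9, 5, 7, 6, 6, 4, 7], .l [8, 14, 11, 8, 11, 13, 4, 4, 9, 6, 3], .l [4, 1, 15, 11, 13, 7, 9, 8, 8, 6, 7], .l [14, 5, 7, 4, 4, 2, 9], .l [7, 16, 8, 5, 12, 10, 11, 10, 7],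 .l [4, 1, 15, 11, 13, 7, 11, 10, 10, 8, 5], .l [7, 14, 6, 3, 10, 8, 9, 8, 5], .l [10, 16, 5, 2, 12], .l [10, 16, 5, 2, 12], .l [4, 1, 15, 11, 13, 9, 11, 10, 10, 6, 7], .l [10, 14, 3, 0, 10], .l [9, 14, 1, 8, 1, 13, 9, 11, 4, 8, 5, 3, 5], .l [4, 1, 15, 11, 13, 9, 11, 10, 10, 8, 1], .l [4, 1, 5, 10, 7, 4, 7, 9, 7, 4, 1], .y [0, 12, 14], .l [6, 12, 15, 12, 8, 10, 4, 4, 9, 6, 3], .l [4, 1, 13, 9, 11, 7, 9, 8, 8, 6, 7], .l [6, 14, 7, 2, 11, 13, 5, 2, 9]]),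
([p 6 1, g, p 2 0, g, p 3 2, g, p 4 0, g, p 0 3, p 5 4, g, p 0 5, s 1 0, s 0 0, g, p 0 6, g], .lo 13, [.l [8, 15, 8, 4, 12, 14, 4, 4, 5, 2, 8, 8, 6], .l [14, 13, 16, 2, 13], .l [8, 15, 8, 4, 12, 14, 4, 4, 5, 2, 8], .l [12, 11, 14, 2, 11], .l [14, 13, 16, 2, 11, 13, 11, 11, 7, 9, 8, 8, 6], .l [14, 13, 16, 2, 11], .l [1, 8, 4, 13, 5, 8, 5, 12, 9, 4, 4, 2, 6], .l [3, 4, 2, 4, 11, 7, 12, 4, 7, 9, 8, 8, 6], .l [14, 13, 16, 2, 9], .l [3, 4, 2, 6, 2, 11, 5, 8, 5, 10, 7, 2, 6], .l [12, 11, 14, 2, 7], .l [3, 4, 2, 6, 11, 5, 12, 6, 9, 7, 6, 6, 4], .l [14, 13, 16, 2, 7], .l [7, 17, 9, 6, 13, 10, 12, 6, 5, 10, 7], .l [6, 9, 8, 10, 12, 6, 5, 8, 5, 5, 3, 9, 7], .l [14, 13, 16, 2, 4], .l [10, 17, 6, 3, 5, 4, 12], .c, .y [13], .r 3412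 [1, 7, 6] [11, 1, 1, 1], .r 3439 [1, 7, 6] [11, 1, 1, 1], .l [12, 11, 16, 4, 1], .l [6, 13, 16, 12, 8, 10, 4, 4, 9, 6, 3, 3, 1], .l [6, 15, 8, 2, 12, 14, 6, 8, 7, 2, 9], .l [12, 11, 14, 2, 13]]),
([p 5 1, g, p 2 0, g, p 3 0, g, p 0 2, p 4 3, g, p 0 4, s 1 0, s 0 0, g, p 0 5, g], .hi 2, [.r 3542 [1, 6, 2, 3, 4, 5] [1, 1, 1, 1, 1, 2, 1], .r 3543 [1, 6, 2, 3, 4, 5] [1, 1, 1, 1, 1, 1, 1], .l [4, 1], .r 3541 [1, 6, 2, 3, 4, 5] [1, 1, 1, 1, 1, 2, 1], .l [2, 3], .l [4, 1], .l [6, 3, 7, 3, 7, 1, 5, 6, 1], .l [2, 5], .l [6, 3], .y [2, 6], .l [2, 8, 10, 8, 5], .l [2, 8], .l [9, 6], .l [2, 8], .l [10, 9, 12, 2, 9], .l [13, 10, 10, 6, 8, 7, 7, 5, 6], .l [2, 12], .l [13, 10], .l [2, 12], .l [15, 12, 12, 8, 10, 9, 9, 7, 8], .l [2, 14],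 .l [15, 12]]),
([p 4 1, g, p 2 0, g, p 0 0, p 3 2, g, p 0 3, s 1 0, s 0 0, g, p 0 4, g], .hi 4, [.r 3521 [1, 5, 3, 4] [1, 3, 1, 2, 1], .r 3544 [1, 5, 2, 3, 4] [1, 1, 1, 1, 1, 1], .l [6, 3], .r 3521 [1, 5, 3, 4] [3, 1, 1, 2, 1], .r 3539 [5, 2, 3, 4] [1, 1, 1, 1, 3, 1], .l [6, 1], .y [4], .l [0, 9, 2, 4, 1], .l [4, 6], .l [7, 2], .l [4, 6], .l [8, 7, 10, 2, 5], .l [11, 6, 8, 7, 7, 5, 6], .l [4, 10], .l [11, 6], .l [4, 10], .l [13, 8, 10, 9, 9, 7, 8], .l [4, 12], .l [13, 8]]),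
([p 4 1, g, p 2 0, g, p 0 0, p 3 2, g, p 0 3, s 1 0, g, p 0 4, g], .top 9, [.r 1003 [1, 4] [7, 1], .r 3545 [1, 2, 3, 4] [1, 1, 1, 1, 1], .r 3498 [1, 4] [7, 1, 1], .r 3538 [1, 4] [7, 1, 1]]),
([p 4 1, g, p 3 2, g, s 2 0, g, p 0 3, s 1 0, g, p 0 4, g], .top 1, [.l [1, 5, 4, 4, 1], .r 3518 [1, 2, 3, 4] [1, 1, 1, 1, 1], .r 334 [] [10], .r 444 [] [10]]),
([p 3 1, g, p 0 0, p 2 0, g, p 0 2, s 1 0, g, p 0 3, g], .hi 3, [.r 3511 [1, 4, 2, 3] [1, 2, 1, 1, 1], .r 3546 [1, 4, 2, 3] [1, 1, 1, 1, 1], .l [5, 2], .r 3537 [1, 4, 2, 3] [1, 1, 1, 1], .r 3547 [1, 4, 2, 3] [2, 1, 1, 1, 1], .l [3, 4], .l [5, 1], .y [3, 5], .l [8, 4, 4, 2, 5], .l [3, 7], .l [8, 4], .l [3, 7], .l [10, 6, 6, 4, 7], .l [3, 9], .l [10, 6]]),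
([p 4 1, g, s 0 2, g, m 2 0, p 3 0, g, p 0 3, s 1 0, g, p 0 4, g], .lo 7, [.l [1, 12, 10, 6, 6, 4, 1], .l [2, 8], .l [0, 9, 7, 6, 6, 4, 1], .l [3, 12, 8, 4, 4, 2, 7], .l [4, 8], .l [0, 9, 5, 4, 4, 2, 3], .l [0, 7, 3, 2, 2, 0, 1], .y [5, 7], .l [6, 9, 7, 1, 10, 6, 1], .l [7, 8], .l [6, 9, 7, 1, 10, 6, 1], .l [0, 7, 7, 6, 6, 4, 1], .l [6, 7, 5, 1, 10, 6, 3], .l [0, 7, 9, 8, 8, 6, 1], .l [6, 7, 5, 1, 10, 6, 3], .l [6, 7, 5, 1, 8, 4, 7], .l [0, 7, 11, 10, 10, 8, 1], .l [6, 7, 5, 1, 8, 4, 7]]),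
([p 4 0, g, p 2 0, g, m 0 1, g, m 1 0, p 3 2, g, p 0 3, g, p 0 4, g], .hi 6, [.l [7, 9, 5, 11, 7, 8, 5, 6, 3], .l [1, 13, 11, 5], .l [2, 7], .l [7, 9, 3, 11, 9, 2, 6, 4, 1], .l [3, 9, 7, 11, 9, 3], .l [4, 7], .y [4, 6], .l [7, 9, 3, 11, 9, 4, 6, 2, 3], .l [5, 8, 6, 8, 6, 10, 8, 1], .l [6, 7], .l [5, 7, 3, 11, 9, 4, 6, 2, 3], .l [5, 6, 4, 6, 4, 10, 8, 3], .l [5, 13, 7, 0, 10, 1, 7, 1, 6, 3], .l [5, 6, 4, 6, 4, 8, 6, 3], .l [5, 7, 3, 11, 9, 6, 3, 4, 1], .l [4, 13, 8, 2, 8, 3, 5, 1, 4, 5], .l [7, 11, 9, 10, 6, 3, 4, 5], .l [4, 11, 6, 2, 6, 1, 3, 1, 2, 3], .l [5, 7, 3, 9, 7, 8, 5, 6, 3], .l [5, 6, 4, 6, 4, 8, 6, 7], .l [7, 13, 11, 12, 8, 3, 6, 7]]),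
([p 6 1, g, m 0 2, g, m 2 3, g, p 4 0, g, m 3 0, p 5 4, g, p 0 5, s 1 0, s 0 0, g, p 0 6, g], .hi 13, [.l [8, 15, 8, 4, 12, 14, 4, 4, 5, 2, 8, 8, 6], .l [8, 15, 8, 4, 12, 14, 4, 4, 5, 2, 8], .l [14, 13, 16, 2, 13], .l [12, 11, 14, 2, 11], .l [14, 13, 16, 2, 11, 13, 11, 11, 7, 9, 8, 8, 6], .l [1, 8, 4, 13, 5, 8, 5, 12, 9, 4, 4, 2, 6], .l [14, 13, 16, 2, 11], .l [3, 4, 2, 4, 11, 7, 12, 4, 7, 9, 8, 8, 6], .l [3, 4, 2, 6, 2, 11, 5, 8, 5, 10, 7, 2, 6], .l [14, 13, 16, 2, 9], .l [3, 4, 2, 6, 11, 5, 12, 6, 9, 7, 6, 6, 4], .l [7, 17, 9, 6, 13, 10, 12, 6, 5, 10, 7], .l [14, 13, 16, 2, 7], .l [6, 9, 8, 10, 12, 6, 5, 8, 5, 5, 3, 9, 7], .l [10, 17, 6, 3, 5, 4, 12], .l [14, 13, 16, 2, 4], .l [10, 15, 4, 1, 3, 2, 10], .y [13], .r 3427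 [1, 7, 6] [11, 1, 1, 1], .l [12, 11, 16, 4, 1], .r 2058 [1, 7, 6] [11, 1, 1, 1], .l [12, 11, 14, 2, 1], .l [6, 13, 16, 12, 8, 10, 4, 4, 9, 6, 3, 3, 1], .l [12, 11, 14, 2, 13], .l [6, 15, 8, 2, 12, 14, 6, 8, 7, 2, 9]]),
([p 6 1, g, m 0 2, g, m 2 3, g, p 4 0, g, m 3 0, p 5 4, g, p 0 5, s 1 0, g, p 0 6, g], .top 13, [.r 1003 [1, 6] [11, 1], .r 3551 [1, 2, 3, 4, 5, 6] [1, 1, 1, 1, 1, 1, 1], .r 3498 [1, 6] [11, 1, 1], .r 3538 [1, 6] [11, 1, 1]]),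
([p 6 1, g, s 0 2, g, m 2 3, g, p 4 0, g, m 3 0, p 5 4, g, p 0 5, s 1 0, g, p 0 6, g], .hi 12, [.l [8, 14, 7, 4, 11, 13, 4, 4, 5, 2, 7], .l [6, 1, 15, 9, 13, 9, 11, 10, 10, 8, 3], .l [6, 1, 7, 12, 9, 6, 9, 4, 2, 6, 1], .l [4, 1, 13, 9, 11, 7, 9, 8, 8, 6, 3], .l [8, 14, 9, 6, 11, 13, 4, 4, 7, 4, 7], .l [8, 14, 9, 6, 11, 13, 4, 4, 7, 4, 7], .l [6, 3, 15, 9, 11, 7, 9, 8, 8, 6, 7], .l [14, 7, 9, 5, 7, 6, 6, 4, 7], .l [8, 14, 11, 8, 11, 13, 4, 4, 9, 6, 3], .l [4, 1, 15, 11, 13, 7, 9, 8, 8, 6, 7], .l [14, 5, 7, 4, 4, 2, 9], .l [7, 16, 8, 5, 12, 10, 11, 10, 7], .l [4, 1, 15, 11, 13, 7, 11, 10, 10, 8, 5], .l [10, 16, 5, 2, 12], .l [10, 16, 5, 2, 12], .l [4, 1, 15, 11, 13, 9, 11, 10, 10, 6, 7], .l [10, 14, 3, 0, 10], .l [9, 14,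 1, 8, 1, 13, 9, 11, 4, 8, 5, 3, 5], .l [4, 1, 15, 11, 13, 9, 11, 10, 10, 8, 1], .l [4, 1, 5, 10, 7, 4, 7, 9, 7, 4, 1], .y [0, 12, 14], .l [6, 12, 15, 12, 8, 10, 4, 4, 9, 6, 3], .l [4, 1, 13, 9, 11, 7, 9, 8, 8, 6, 7], .l [6, 14, 7, 2, 11, 13, 5, 2, 9]]),
([p 7 1, g, m 3 2, g, s 0 3, g, p 4 0, g, m 2 0, p 5 4, g, p 0 5, s 1 6, g, p 6 0, g, p 0 7, g], .lo 4, [.l [2, 5, 9, 7, 7, 3, 14, 8, 12, 10, 10, 8, 1], .l [2, 5, 9, 7, 7, 3, 14, 8, 12, 10, 10, 8, 1], .l [3, 11, 5, 9, 2, 7, 14, 7, 9, 6, 1], .l [6, 1, 17, 11, 15, 1, 1, 9, 11, 10, 10, 8, 1], .l [6, 1, 17, 11, 15, 1, 1, 9, 11, 10, 10, 8, 1], .l [5, 18, 12, 15, 1, 9, 11, 10, 10, 8, 1], .l [4, 1, 9, 7, 7, 3, 10, 4, 8, 6, 6, 4, 5], .l [4, 1, 9, 7, 7, 3, 10, 4, 8, 6, 6, 4, 5],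 .l [5, 18, 12, 15, 1, 9, 11, 10, 10, 8, 1], .l [2, 3, 5, 1, 13, 9, 11, 8, 8, 6, 1], .l [8, 3, 3, 3, 7, 3, 7, 1, 5, 6, 1, 5, 5], .l [2, 3, 7, 3, 15, 9, 13, 10, 10, 8, 1], .l [15, 11, 3, 11, 5, 0, 8, 13, 2, 6, 1], .y [2, 8, 4], .l [3, 18, 14, 6, 8, 6, 13], .l [2, 3, 10, 6, 6, 2, 13, 6, 12, 10, 1], .l [2, 3, 3, 8, 10, 8, 5], .l [14, 9, 9, 9, 9, 5, 7, 6, 6, 4, 5, 9, 3], .l [2, 3, 13, 9, 9, 5, 7, 6, 6, 4, 5], .l [1, 9, 5, 12, 5, 10, 14, 4, 9, 2, 3], .l [2, 3, 13, 9, 9, 5, 7, 6, 6, 4, 5], .l [16, 11, 11, 11, 11, 7, 9, 8, 8, 6, 7, 5, 5], .l [2, 3, 15, 11, 11, 7, 9, 8, 8, 6, 7], .l [4, 1, 7, 5, 5, 12, 14, 5, 10, 4, 8, 6, 6, 4, 5], .l [18, 13, 13, 13, 13, 9, 11, 10, 10, 8, 9, 7, 7], .l [2, 3, 17, 13, 13, 9, 11, 10, 10, 8, 9], .l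 [3, 16, 12, 15, 1, 9, 11, 10, 10, 8, 1]]),
([p 6 1, g, m 3 2, g, s 0 3, g, p 4 0, g, m 2 0, p 5 4, g, p 0 5, s 1 0, g, p 0 6, g], .hi 12, [.l [8, 14, 7, 4, 11, 13, 4, 4, 5, 2, 5], .l [8, 14, 7, 4, 11, 13, 4, 4, 5, 2, 5], .l [3, 6, 1, 12, 9, 12, 2, 5, 7, 6, 6, 4, 5], .l [14, 9, 11, 5, 7, 6, 6, 4, 7], .l [8, 14, 9, 6, 11, 13, 4, 4, 7, 4, 1], .l [14, 9, 11, 5, 7, 6, 6, 4, 7], .l [12, 7, 7, 7, 7, 3, 5, 4, 4, 2, 3], .l [14, 7, 11, 7, 9, 8, 8, 6, 7], .l [8, 14, 11, 8, 11, 13, 4, 4, 9, 6, 1], .l [14, 7, 11, 7, 9, 8, 8, 6, 7], .l [14, 5, 7, 4, 4, 2, 9], .l [7, 16, 8, 5, 12, 10, 11, 10, 5], .l [14, 5, 7, 4, 4, 2, 9], .l [10, 16, 5, 2, 12], .l [10, 16, 5, 2, 12], .l [11, 13, 10], .l [10, 14, 3, 0, 10], .l [1, 4, 1, 10, 7, 12, 4,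 7, 9, 8, 8, 6, 1], .r 3554 [1, 2, 3, 4, 5, 7, 6] [1, 1, 1, 1, 1, 1, 1, 1], .l [1, 4, 1, 10, 7, 12, 4, 7, 9, 8, 8, 6, 1], .y [0, 12, 14], .l [6, 12, 15, 12, 8, 10, 4, 4, 9, 6, 1], .l [6, 12, 15, 12, 8, 10, 4, 4, 9, 6, 1], .l [6, 14, 7, 2, 11, 13, 5, 2, 7]]),
([p 5 1, g, m 0 2, g, p 3 0, g, m 2 0, p 4 3, g, p 0 4, s 1 0, g, p 0 5, g], .lo 2, [.r 3553 [1, 6, 2, 3, 4, 5] [1, 1, 1, 1, 1, 1, 1], .l [4, 1], .r 3552 [1, 6, 2, 3, 4, 5] [1, 1, 1, 1, 1, 1, 1], .r 3555 [1, 2, 6, 3, 4, 5] [1, 1, 1, 1, 1, 1, 1], .l [4, 1], .l [2, 3], .l [4, 1], .l [6, 3, 7, 3, 7, 1, 5, 6, 1], .l [6, 3], .l [2, 5], .y [2, 6], .l [2, 8, 10, 8, 5], .l [9, 6], .l [2, 8], .l [10, 7, 7, 3, 5, 4, 4, 2, 3], .l [12, 9, 9, 5, 7, 6, 6, 4, 5], .l [12, 9], .l [2,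 11], .l [14, 11, 11, 7, 9, 8, 8, 6, 7], .l [14, 11], .l [2, 13]]),
([p 4 1, g, p 2 0, g, m 0 0, p 3 2, g, p 0 3, s 1 0, g, p 0 4, g], .lo 4, [.r 3549 [1, 5, 3, 4] [1, 3, 1, 1, 1], .l [6, 3], .r 3556 [1, 5, 2, 3, 4] [1, 1, 1, 1, 1, 1], .l [4, 1], .r 3549 [1, 5, 3, 4] [3, 1, 1, 1, 1], .l [6, 1], .r 3550 [5, 2, 3, 4] [1, 1, 1, 1, 2, 1], .y [4], .l [0, 9, 2, 4, 1], .l [7, 2], .l [4, 6], .l [5, 7, 6, 6, 3], .l [10, 5, 7, 6, 6, 4, 5], .l [10, 5], .l [4, 9], .l [12, 7, 9, 8, 8, 6, 7], .l [12, 7], .l [4, 11]]),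
([p 3 1, g, m 0 0, p 2 0, g, p 0 2, s 1 0, g, p 0 3, g], .hi 3, [.r 3511 [1, 4, 2, 3] [1, 2, 1, 1, 1], .r 3557 [1, 4, 2, 3] [1, 1, 1, 1, 1], .l [5, 2], .l [3, 0], .r 3547 [1, 4, 2, 3] [2, 1, 1, 1, 1], .l [3, 4], .l [5, 1], .y [3, 5], .l [8, 4, 4, 2, 5], .l [3, 7], .l [8, 4], .l [3, 7], .l [10, 6, 6, 4, 7], .l [3, 9], .l [10, 6]]),
([p 3 1, g, p 2 0, g, p 0 2, s 1 0, g, p 0 3, g], .bot 1, [.r 334 [] [6], .r 3520 [1, 2, 3] [1, 1, 1, 1], .r 3548 [1, 2, 3] [1, 1, 1, 1], .r 3558 [1, 2, 3] [1, 1, 1, 1]]),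
([p 2 1, g, p 0 0, s 1 0, g, p 0 2, g], .hi 2, [.l [0, 4, 1], .r 3559 [1, 3, 2] [1, 1, 1, 1], .l [4, 1], .y [2], .l [0, 2, 3], .l [2, 4], .l [5, 2], .l [2, 4], .l [0, 2, 5], .l [2, 6], .l [7, 4]]),
([p 4 1, s 0 0, g, m 3 2, g, s 0 3, g, m 2 0, s 1 0, g, p 0 4, g], .hi 1, [.y [1], .r 1053 [1, 5, 4] [1, 6, 1, 1], .l [2, 12, 9, 9, 1], .r 578 [1, 5, 4] [1, 6, 1, 1], .r 1053 [1, 5, 4] [3, 4, 1, 1], .l [4, 9, 7, 11, 8, 8, 1], .r 578 [1, 5, 4] [3, 4, 1, 1], .r 1053 [1, 5, 4] [3, 2, 1, 1], .r 1053 [1, 5, 4] [5, 2, 1, 1], .l [6, 9, 5, 11, 8, 8, 1], .r 578 [1, 5, 4] [5, 2, 1, 1], .l [5, 1, 9, 5, 2, 5], .l [8, 7, 8], .l [3, 10, 7, 4, 7], .l [8, 7, 8], .l [5, 1, 11, 7, 2, 7], .l [8, 7, 10], .l [3, 12, 9, 4, 9]]),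
([p 4 1, g, m 3 2, g, s 0 3, g, m 2 0, s 1 0, g, p 0 4, g], .top 1, [.l [1, 5, 4, 4, 1], .r 3561 [1, 2, 3, 4] [1, 1, 1, 1, 1], .r 334 [] [10], .r 444 [] [10]]),
([p 6 1, s 0 2, g, m 0 3, g, m 3 4, s 1 5, g, s 5 0, g, p 0 6, s 0 0, g, s 2 0, g, s 4 0, g], .hi 11, [.l [1, 10, 8], .l [3, 12, 8], .l [6, 3, 11, 5, 13], .l [3, 12, 8], .l [3, 10, 6], .l [5, 12, 6], .l [6, 1, 11, 5, 13], .l [5, 12, 6], .l [8, 12, 3], .l [6, 5, 13, 6, 4, 5], .l [8, 12, 3], .l [10, 12, 1], .l [6, 5, 13, 4, 2, 5], .l [10, 12, 1], .l [6, 5, 11, 2, 0, 3], .y [11], .l [16, 11, 15, 9, 1, 5, 11, 1], .l [16, 11, 15, 9, 1], .r 2574 [1, 6, 7] [4, 3, 1, 5], .l [6, 5, 11, 13, 11, 3], .l [16, 11, 15, 9, 3], .l [6, 5, 11, 13, 11, 3], .l [6, 5, 11, 15, 13, 3],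 .l [14, 9, 13, 7, 13], .l [6, 5, 11, 15, 13, 3]]),
([p 6 1, s 0 2, g, m 0 3, g, m 3 4, s 1 5, g, s 5 0, g, p 0 6, g, s 2 0, g, m 4 0, g], .lo 1, [.l [1, 13, 15, 8, 3, 4, 6, 3], .l [1, 13, 15, 8, 11, 1, 7, 2, 4, 5], .l [1, 13, 15, 8, 3, 4, 6, 3], .l [1, 4, 7, 3, 10, 5, 6, 3], .l [10, 1, 15, 12, 8, 1, 6, 3, 6, 2, 6, 1], .l [1, 13, 8, 11, 7, 3, 5, 10, 3, 8, 4, 1], .l [1, 13, 15, 6, 7, 3, 6, 1, 2, 5], .l [14, 12, 13, 2, 13, 3, 6, 9, 6, 1], .l [6, 5, 6], .l [1, 11, 13, 6, 7, 3, 6, 6, 2, 3], .l [1, 13, 15, 6, 7, 3, 8, 3, 4, 1], .l [14, 12, 13, 2, 13, 3, 8, 9, 4, 1], .l [6, 5, 8], .l [1, 13, 15, 6, 7, 3, 10, 5, 6, 3], .l [3, 12, 9, 2, 9], .l [6, 5, 10], .y [1, 12], .l [1, 13, 15, 6, 7, 3, 10, 5, 6, 3], .l [3, 14, 11, 2, 11],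 .l [6, 5, 12], .l [6, 5, 12], .l [1, 11, 13, 6, 7, 3, 10, 5, 6, 3], .l [3, 16, 13, 2, 13], .l [6, 5, 14]]),
([p 5 1, s 0 2, g, m 0 3, g, m 3 0, s 1 4, g, s 4 0, g, p 0 5, s 0 0, g, s 2 0, g], .hi 5, [.l [1, 12, 7, 10, 8, 6, 7, 1], .l [3, 6, 7, 3, 11, 6, 7, 4], .l [2, 12, 9, 3], .l [3, 6], .y [3, 5], .l [8, 7, 13, 9, 1, 9, 7, 1], .l [4, 7, 5, 11, 8, 1], .l [5, 6], .l [4, 12, 7, 2, 6, 4, 7], .l [4, 5, 3, 11, 8, 3], .l [4, 10, 3, 5, 1, 6, 8, 2, 3], .l [4, 12, 7, 4, 6, 2, 7], .l [4, 5, 3, 11, 8, 5], .l [7, 10, 7, 10, 5, 2, 6], .l [4, 5, 3, 9, 6, 5], .l [6, 5, 11, 7, 5, 3], .l [8, 1, 12, 9, 12, 8, 5, 8], .l [4, 5, 3, 9, 6, 10], .l [8, 1, 12, 9, 12, 8, 5, 8], .r 3563 [1, 2, 3, 6, 4, 5] [1, 1, 1, 1, 1, 1, 1], .l [4, 5, 3, 9,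 6, 12], .r 3564 [1, 2, 3, 6, 4, 5] [1, 1, 1, 1, 2, 1, 1]]),
([p 4 1, s 0 0, g, m 0 2, g, m 2 0, s 1 3, g, s 3 0, g, p 0 4, s 0 0, g], .hi 1, [.y [1], .r 1053 [1, 5, 4] [1, 4, 3, 2], .l [2, 12, 9, 9, 3], .r 578 [1, 5, 4] [1, 4, 3, 2], .r 578 [1, 5, 4] [1, 2, 3, 2], .r 1053 [1, 5, 4] [3, 2, 3, 2], .l [4, 7, 5, 11, 8, 8, 3], .r 578 [1, 5, 4] [3, 2, 3, 2], .r 987 [1, 5, 2, 4] [1, 1, 1, 3, 2], .l [6, 5, 6], .l [3, 8, 5, 2, 5], .r 987 [1, 5, 2, 4] [1, 1, 3, 1, 2], .l [6, 5, 8], .l [3, 10, 7, 2, 7], .l [6, 5, 8], .l [1, 10, 8], .r 3565 [1, 5, 2, 3, 4] [1, 1, 1, 1, 1, 1], .l [6, 5, 11], .l [3, 13, 10, 2, 10]]),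
([p 4 1, g, m 0 2, g, m 2 0, s 1 3, g, s 3 0, g, p 0 4, s 0 0, g], .top 1, [.r 444 [] [9], .r 3566 [1, 2, 3, 4] [1, 1, 1, 1, 1], .r 334 [] [11], .r 444 [] [11]]),
([p 5 1, s 0 2, g, s 4 0, g, m 0 3, g, m 3 4, s 1 0, g, p 0 5, g, s 2 0, g], .lo 1, [.l [1, 13, 8, 3, 8, 9, 4, 1], .l [3, 1, 4, 6, 11, 7, 2, 7], .l [2, 12, 9, 9, 1], .r 1018 [1, 6, 5] [1, 4, 1, 3], .l [3, 8, 3, 4, 6, 3], .r 1556 [1, 6, 5] [3, 4, 1, 3], .l [4, 12, 7, 7, 1], .l [1, 6, 3, 6, 11, 9, 4, 1], .l [1, 13, 4, 8, 3, 9, 2, 5], .l [6, 9, 7, 11, 6, 6, 1], .l [7, 10, 2, 2, 1], .l [2, 12, 9, 3, 6, 7, 4, 1], .l [1, 13, 10, 3, 6, 9, 6, 1], .l [8, 7, 8], .l [1, 13, 6, 8, 3, 9, 2, 5], .l [1, 13, 10, 3, 8, 9, 4, 1], .l [8, 7, 10], .y [1, 12], .l [1, 13, 6, 8, 3,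 9, 2, 5], .l [5, 14, 9, 2, 11], .l [8, 7, 12]]),
([p 6 1, s 0 2, g, m 0 3, g, m 3 4, g, m 4 0, s 1 5, g, p 5 0, g, p 0 6, g, s 2 0, g], .hi 7, [.l [1, 13, 6, 11, 9, 5, 8, 3], .r 3568 [1, 2, 4, 7, 6] [1, 3, 1, 3, 1, 1], .l [2, 14, 11, 5], .l [3, 8], .y [3, 5, 7], .r 3568 [1, 2, 4, 7, 6] [3, 1, 1, 3, 1, 1], .l [4, 7, 5, 12, 9, 3], .l [5, 8], .l [8, 14, 5, 11, 1, 9, 1], .l [6, 9, 7, 7, 5, 11, 8, 1], .l [7, 8], .l [6, 14, 7, 2, 6, 4, 9], .l [6, 7, 5, 5, 3, 11, 8, 3], .l [6, 16, 10, 1, 12, 12, 10, 3, 4, 7, 1, 6, 3], .l [6, 8, 8, 12, 5, 2, 4, 2, 7], .l [6, 7, 5, 5, 3, 11, 8, 5], .l [9, 12, 9, 12, 5, 2, 8], .l [6, 7, 5, 5, 3, 9, 6, 5], .l [6, 12, 5, 11, 1, 9, 1], .l [6, 7, 5, 5, 3, 9, 6, 8], .l [10, 14, 10, 15, 9, 4, 11, 5, 5,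 9, 7, 5, 1], .l [6, 12, 5, 13, 3, 11, 1], .l [6, 7, 5, 5, 3, 9, 6, 10], .l [8, 7, 12, 1, 13, 7, 8, 10, 1, 8, 5, 5, 3]]),
([p 5 1, s 0 0, g, m 0 2, g, m 2 3, g, m 3 0, s 1 4, g, p 4 0, g, p 0 5, g], .hi 1, [.y [1], .r 1053 [1, 6, 5] [1, 6, 3, 1], .l [2, 14, 11, 11, 3], .r 578 [1, 6, 5] [1, 6, 3, 1], .l [3, 1, 11, 8, 9, 7, 7, 5, 1], .r 1053 [1, 6, 5] [3, 4, 3, 1], .l [4, 7, 5, 12, 9, 9, 3], .l [5, 3, 13, 8, 11, 9, 9, 7, 1], .r 1053 [1, 6, 5] [5, 2, 3, 1], .l [6, 9, 7, 7, 5, 11, 8, 8, 3], .l [7, 5, 13, 6, 9, 7, 1], .r 987 [1, 6, 3, 5] [3, 1, 1, 3, 1], .l [8, 7, 8], .l [5, 7, 6, 9, 5, 2, 5], .r 987 [1, 6, 3, 5] [3, 1, 3, 1, 1], .l [8, 7, 10], .l [5, 7, 6, 11, 7, 2, 7], .l [8, 7, 10], .r 3569 [1, 6, 2, 3, 4, 5] [1, 1, 1, 1,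 1, 1, 1], .l [8, 7, 12], .l [5, 7, 6, 13, 9, 2, 9]]),
([p 5 1, g, m 0 2, g, m 2 3, g, m 3 0, s 1 4, g, p 4 0, g, p 0 5, g], .top 1, [.r 444 [] [10], .r 3570 [1, 2, 3, 4, 5] [1, 1, 1, 1, 1, 1], .r 334 [] [12], .r 444 [] [12]]),
([p 5 1, s 0 2, g, m 0 3, g, m 3 0, s 1 4, g, p 0 5, g, s 2 0, g, s 4 0, g], .hi 5, [.l [1, 9, 4, 7, 5, 3, 4, 5], .l [3, 6, 7, 3, 8, 3, 4, 7], .l [2, 10, 7, 3], .l [3, 6], .y [3, 5], .l [8, 7, 10, 6, 1, 6, 4, 7], .l [4, 7, 5, 9, 6, 1], .l [5, 6], .l [4, 10, 5, 2, 4, 2, 5], .l [4, 5, 3, 9, 6, 3], .l [4, 14, 7, 9, 1, 10, 3, 8, 3], .l [4, 5, 3, 7, 4, 3], .l [4, 8, 3, 7, 9, 5, 1, 8, 6, 3], .l [4, 5, 3, 7, 4, 6], .l [4, 14, 7, 1, 7, 4, 6, 2, 7], .l [4, 8, 3, 9, 11, 2, 6, 8, 6, 1], .l [4, 5, 3, 7, 4, 8],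 .l [4, 14, 7, 1, 7, 2, 6, 4, 7], .l [4, 8, 3, 11, 5, 9, 4, 6, 4, 1], .l [4, 5, 3, 7, 4, 10], .l [11, 14, 7, 10, 5, 2, 6]]),
([p 5 1, s 0 2, g, m 0 3, g, m 3 0, s 1 4, g, p 0 5, g, s 4 0, g, s 2 0, g], .hi 5, [.l [1, 11, 6, 9, 7, 5, 6, 3], .l [3, 6, 7, 3, 10, 5, 6, 1], .l [2, 10, 7, 3], .l [3, 6], .y [3, 5], .l [6, 10, 3, 7, 1, 5, 6, 8, 4, 1], .l [4, 7, 5, 9, 6, 1], .l [5, 6], .l [4, 10, 5, 2, 4, 2, 5], .l [4, 5, 3, 9, 6, 3], .l [4, 12, 5, 7, 1, 8, 3, 6, 1], .l [4, 5, 3, 7, 4, 3], .l [4, 8, 3, 7, 1, 5, 6, 8, 4, 1], .l [4, 5, 3, 7, 4, 6], .l [4, 12, 5, 1, 5, 2, 4, 2, 5], .l [4, 8, 3, 9, 3, 7, 4, 8, 6, 1], .l [4, 5, 3, 7, 4, 8], .l [9, 12, 7, 10, 5, 2, 6], .l [2, 10, 3, 4, 10, 7, 2, 7, 4, 1], .l [4, 5, 3, 7, 4, 10], .l [9,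 14, 9, 12, 7, 4, 8]]),
([p 4 1, s 0 0, g, m 0 2, g, m 2 0, s 1 3, g, p 0 4, g, s 3 0, g], .hi 1, [.y [1], .r 1053 [1, 5, 4] [1, 4, 1, 3], .l [2, 10, 7, 7, 1], .r 578 [1, 5, 4] [1, 4, 1, 3], .r 578 [1, 5, 4] [1, 2, 1, 3], .l [4, 10, 5, 5, 1, 8, 6, 3], .l [4, 7, 5, 9, 6, 6, 1], .r 578 [1, 5, 4] [3, 2, 1, 3], .r 987 [1, 5, 2, 4] [1, 1, 1, 1, 3], .l [6, 5, 6], .l [3, 8, 5, 2, 5], .l [6, 5, 6], .r 3572 [1, 5, 2, 3, 4] [1, 1, 1, 1, 1, 1], .l [6, 5, 8], .l [3, 10, 7, 2, 7], .r 3573 [1, 5, 2, 3, 4] [1, 1, 1, 1, 1, 1], .l [6, 5, 10], .l [3, 12, 9, 2, 9]]),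
([p 4 1, g, m 0 2, g, m 2 0, s 1 3, g, p 0 4, g, s 3 0, g], .top 1, [.r 444 [] [8], .r 3574 [1, 2, 3, 4] [1, 1, 1, 1, 1], .r 334 [] [10], .r 444 [] [10]]),
([p 8 1, g, m 0 2, g, m 2 3, g, m 3 4, g, m 4 5, g, m 5 6, g, m 6 0, s 1 7, g, p 0 8, g, p 7 0, g], .lo 2, [.l [4, 1, 16, 12, 14, 12, 12, 10, 10, 8, 8, 6, 6, 4, 5], .l [4, 1], .l [10, 12, 11, 11, 9, 9, 7, 7, 5, 8, 10, 7, 3, 5, 3, 3, 4, 1], .l [1, 4, 1, 13, 10, 13, 2, 10, 10, 8, 8, 6, 6, 4, 4, 2, 3], .l [4, 1], .l [2, 3], .l [6, 3, 16, 10, 14, 12, 12, 10, 10, 8, 8, 6, 7], .l [6, 3], .l [2, 5], .l [8, 5, 5, 3, 14, 8, 12, 10, 10, 8, 8, 6, 7], .l [8, 5], .l [2, 7], .l [10, 7, 7, 5, 5, 3, 12, 6, 10, 8, 8, 6, 7], .l [10, 7], .l [2, 9], .l [12, 9, 9, 7, 7, 5, 5, 3, 10, 4,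 8, 6, 7], .l [12, 9], .l [2, 11], .y [2, 4, 6, 8, 10, 12], .l [15, 12, 12, 10, 10, 8, 8, 6, 6, 4, 4, 2, 3], .l [15, 12], .l [2, 14], .l [17, 14, 14, 12, 12, 10, 10, 8, 8, 6, 6, 4, 5], .l [17, 14], .l [2, 16], .l [17, 14], .l [19, 16, 16, 14, 14, 12, 12, 10, 10, 8, 8, 6, 7], .l [19, 16], .l [2, 18]]),
([p 7 1, g, m 0 2, g, m 2 3, g, m 3 4, g, m 4 5, g, m 5 0, s 1 6, g, p 0 7, g, p 6 0, g], .lo 2, [.l [4, 1, 14, 10, 12, 10, 10, 8, 8, 6, 6, 4, 5], .l [4, 1], .r 3576 [1, 8, 2, 3, 4, 5, 6, 7] [1, 1, 1, 1, 1, 1, 1, 1, 1], .l [1, 4, 1, 11, 8, 11, 2, 8, 8, 6, 6, 4, 4, 2, 3], .l [4, 1], .l [2, 3], .l [6, 3, 14, 8, 12, 10, 10, 8, 8, 6, 7], .l [6, 3], .l [2, 5], .l [8, 5, 5, 3, 12, 6, 10, 8, 8, 6, 7], .l [8, 5], .l [2, 7], .l [10,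 7, 7, 5, 5, 3, 10, 4, 8, 6, 7], .l [10, 7], .l [2, 9], .y [2, 4, 6, 8, 10], .l [13, 10, 10, 8, 8, 6, 6, 4, 4, 2, 3], .l [13, 10], .l [2, 12], .l [15, 12, 12, 10, 10, 8, 8, 6, 6, 4, 5], .l [15, 12], .l [2, 14], .l [15, 12], .l [17, 14, 14, 12, 12, 10, 10, 8, 8, 6, 7], .l [17, 14], .l [2, 16]]),
([p 6 1, g, m 0 2, g, m 2 3, g, m 3 4, g, m 4 0, s 1 5, g, p 0 6, g, p 5 0, g], .lo 2, [.l [4, 1, 12, 8, 10, 8, 8, 6, 6, 4, 5], .l [4, 1], .r 3577 [1, 7, 2, 3, 4, 5, 6] [1, 1, 1, 1, 1, 1, 1, 1], .l [1, 4, 1, 9, 6, 9, 2, 6, 6, 4, 4, 2, 3], .l [4, 1], .l [2, 3], .l [6, 3, 12, 6, 10, 8, 8, 6, 7], .l [6, 3], .l [2, 5], .l [8, 5, 5, 3, 10, 4, 8, 6, 7], .l [8, 5], .l [2, 7], .y [2, 4, 6, 8], .l [11, 8, 8, 6, 6, 4, 4, 2, 3], .l [11, 8],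 .l [2, 10], .l [13, 10, 10, 8, 8, 6, 6, 4, 5], .l [13, 10], .l [2, 12], .l [13, 10], .l [15, 12, 12, 10, 10, 8, 8, 6, 7], .l [15, 12], .l [2, 14]]),
([p 5 1, g, m 0 2, g, m 2 3, g, m 3 0, s 1 4, g, p 0 5, g, p 4 0, g], .lo 2, [.l [4, 1, 10, 6, 8, 6, 6, 4, 5], .l [4, 1], .r 3578 [1, 6, 2, 3, 4, 5] [1, 1, 1, 1, 1, 1, 1], .l [4, 1, 8, 10, 7, 3, 5, 3, 3, 4, 1], .l [4, 1], .l [2, 3], .l [6, 3, 10, 4, 8, 6, 7], .l [6, 3], .l [2, 5], .y [2, 4, 6], .l [9, 6, 6, 4, 4, 2, 3], .l [9, 6], .l [2, 8], .l [11, 8, 8, 6, 6, 4, 5], .l [11, 8], .l [2, 10], .l [11, 8], .l [13, 10, 10, 8, 8, 6, 7], .l [13, 10], .l [2, 12]]),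
([p 7 1, s 0 2, g, s 6 0, g, m 0 3, g, m 3 4, g, m 4 5, g, m 5 0, s 1 6, g, p 0 7, g, s 2 0, g], .hi 11, [.l [1, 15, 4, 13, 11, 3, 10, 1], .l [3, 12, 13, 3, 14, 3, 10, 1], .l [2, 16, 13, 9], .l [3, 12], .l [5, 12, 13, 5, 14, 3, 8, 9], .l [4, 16, 11, 7], .l [5, 12], .y [5, 7, 9, 11], .l [6, 16, 9, 5, 11, 4, 7, 9, 1, 5, 2, 7], .l [6, 9, 7, 14, 9, 5], .l [7, 12], .l [9, 12, 13, 9, 14, 3, 4, 9], .l [8, 11, 9, 9, 7, 12, 7, 3], .l [9, 12], .l [12, 14, 4, 14, 11, 8, 10, 2, 7, 7, 5, 5, 3], .l [10, 13, 11, 11, 9, 9, 7, 11, 6, 1], .l [11, 12], .l [10, 12, 4, 14, 11, 8, 10, 2, 7, 7, 5, 5, 3], .l [10, 11, 9, 9, 7, 7, 5, 11, 6, 3], .l [12, 16, 3, 1, 12, 15, 5, 2, 11, 11, 9, 9, 7], .l [10, 11, 9, 9, 7, 7, 5, 9, 4, 3], .l [10, 12, 4,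 12, 9, 11, 4, 9, 6, 9], .l [10, 11, 9, 9, 7, 7, 5, 9, 4, 8], .l [12, 16, 14, 17, 7, 4, 13, 13, 11, 11, 9, 7, 1], .l [10, 12, 4, 12, 9, 13, 6, 11, 8, 1], .l [10, 11, 9, 9, 7, 7, 5, 9, 4, 10], .l [12, 11, 14, 16, 11, 11, 9, 9, 7, 7, 5, 9, 1]]),
([p 6 1, s 0 2, g, s 5 0, g, m 0 3, g, m 3 4, g, m 4 0, s 1 5, g, p 0 6, g, s 2 0, g], .lo 5, [.l [7, 3, 13, 6, 9, 7, 7, 5, 6, 8, 4, 1], .l [7, 3], .l [12, 6, 8, 6, 6, 4, 4, 2, 4], .l [5, 1, 11, 6, 9, 7, 7, 5, 4], .l [7, 1, 13, 6, 11, 9, 9, 7, 4, 8, 6, 1], .l [7, 1], .r 3580 [1, 2, 7, 3, 4, 5, 6] [1, 1, 1, 1, 1, 1, 1, 1], .l [2, 7, 1, 10, 5, 11, 3, 7, 7, 5, 0, 1], .l [7, 1], .l [5, 6], .l [5, 8, 11, 7, 12, 3, 4, 7], .l [9, 3], .l [5, 8], .y [5, 7, 9], .l [12, 6, 6, 4, 4, 2, 6], .l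 [12, 6], .l [5, 11], .l [14, 8, 8, 6, 6, 4, 8], .l [14, 8], .l [5, 13], .l [14, 8, 8, 6, 6, 4, 8], .l [16, 10, 10, 8, 8, 6, 10], .l [16, 10], .l [5, 15]]),
([p 5 1, s 0 0, g, s 4 0, g, m 0 2, g, m 2 3, g, m 3 0, s 1 4, g, p 0 5, g], .hi 1, [.y [1], .r 1053 [1, 6, 5] [1, 8, 1, 1], .l [2, 14, 11, 11, 1], .r 578 [1, 6, 5] [1, 8, 1, 1], .r 1053 [1, 6, 5] [3, 6, 1, 1], .l [4, 14, 9, 9, 1], .r 578 [1, 6, 5] [3, 6, 1, 1], .r 578 [1, 6, 5] [3, 4, 1, 1], .l [6, 12, 8, 5, 8, 10, 4, 4, 6, 3], .l [6, 9, 7, 12, 7, 7, 1], .r 578 [1, 6, 5] [5, 4, 1, 1], .l [8, 14, 5, 5, 1, 6, 4, 7], .l [8, 11, 9, 9, 7, 11, 6, 6, 1], .r 578 [1, 6, 5] [7, 2, 1, 1], .r 987 [1, 6, 3, 5] [5, 1, 1, 1, 1], .l [10, 9, 10], .l [7, 9, 8, 11, 5, 2, 7], .l [10,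 9, 10], .r 3581 [1, 6, 2, 3, 4, 5] [1, 1, 1, 1, 1, 1, 1], .l [10, 9, 12], .l [7, 9, 8, 13, 7, 2, 9]]),
([p 5 1, g, s 4 0, g, m 0 2, g, m 2 3, g, m 3 0, s 1 4, g, p 0 5, g], .top 1, [.l [7, 10, 2, 2, 1], .r 3582 [1, 2, 3, 4, 5] [1, 1, 1, 1, 1, 1], .r 334 [] [12], .r 444 [] [12]])]

def D13 : List (List (List Item × Qry × List Rf)) := [d13_0, d13_1, d13_2, d13_3]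

end Pool.Agent.H63.PU.C161
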