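import Pool.Agent.H63.PU.Ck3

/-! Certificate data, machine generated. -/

namespace Pool.Agent.H63.PU.C161

open Pool.Agent.H63.PU Pool.Agent.H63.PU.Ck3 Pool.Agent.H63.PU.Short

set_option maxRecDepth 20000

def d15_0 : List (List Item × Qry × List Rf) := [
([p 3 1, s 0 0, g, s 0 2, g, s 0 0, s 1 0, s 2 0, g, s 0 0, p 4 3, s 0 0, g, p 0 4, g], .lo 9, [.l [6, 5, 9, 3, 5, 10, 7, 3], .l [8, 7, 11, 3, 5, 12, 9, 3], .l [8, 7, 11, 3, 5, 12, 9, 3], .r 3738 [5, 3, 4] [2, 7, 2, 1], .l [8, 7, 11, 3, 7, 12, 7, 9], .l [8, 7, 11, 3, 7, 12, 7, 9], .r 3738 [5, 3, 4] [4, 5, 2, 1], .l [6, 5, 9, 3, 5, 10, 7, 7], .r 3462 [1, 5, 3] [4, 2, 4], .l [6, 5, 9, 3, 5, 10, 7, 1], .l [6, 5, 11, 5, 7, 12, 9, 1], .l [6, 5, 11, 5, 7, 12, 9, 1], .r 3738 [5,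 3, 4] [8, 1, 2, 1], .y [9], .l [6, 5, 9, 3, 5, 10, 7, 4], .l [6, 5, 9, 3, 5, 12, 9, 6], .r 3593 [1, 3, 5] [3, 2, 1, 3], .l [6, 5, 9, 3, 5, 12, 9, 6], .l [6, 5, 9, 3, 5, 10, 7, 9], .r 3593 [1, 3, 5] [3, 2, 3, 1], .l [6, 5, 9, 3, 5, 10, 7, 9]]),
([p 3 1, s 0 0, g, s 0 2, g, s 0 0, s 1 0, s 2 0, g, p 4 3, s 0 0, g, p 0 4, g], .bot 8, [.r 3783 [1, 3, 4] [4, 1, 1], .r 3840 [1, 2, 3, 4] [1, 1, 1, 1, 1], .r 1127 [1, 3] [4, 2, 4], .r 1575 [1, 3] [4, 2, 4]]),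
([p 3 1, s 0 0, g, s 0 2, g, s 1 0, s 2 0, g, p 4 3, s 0 0, g, p 0 4, g], .bot 4, [.r 896 [1, 2, 3] [1, 0, 1, 4], .r 3841 [1, 2, 3, 4] [1, 1, 1, 1, 1], .r 3560 [1, 3] [4, 2, 4], .r 3589 [1, 3] [4, 2, 3]]),
([p 3 1, s 0 2, g, s 1 0, s 0 0, g, p 5 3, s 4 0, g, s 0 4, g, p 0 5, g, s 2 0, g], .lo 4, [.r 3842 [1, 6, 3, 5] [1, 1, 1, 3, 3], .l [5, 4, 7, 2, 3], .r 3836 [1, 2, 6, 3, 4, 5] [1, 1, 1, 1, 1, 1, 1], .c, .y [4], .l [5, 8, 2, 5, 2, 11], .r 3438 [1, 6, 3] [1, 1, 1, 8], .l [3, 2, 7, 4, 1], .l [3, 2, 5, 2, 4, 9], .l [8, 13, 10, 10, 4, 7, 2, 9], .r 3409 [1, 3, 6] [1, 1, 2, 7], .l [3, 2, 5, 2, 6], .l [10, 13, 8, 8, 2, 5, 2, 9], .r 3409 [1, 3, 6] [1, 1, 4, 5], .l [3, 2, 5, 2, 8], .r 3839 [1, 2, 3, 4, 5, 6] [1, 1, 1, 1, 1, 1, 1],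 .r 3409 [1, 3, 6] [1, 1, 6, 3], .l [3, 2, 5, 2, 10], .r 2051 [1, 2, 3, 6] [1, 1, 6, 1], .r 3835 [1, 2, 3, 4, 5, 6] [1, 1, 1, 1, 1, 1, 1], .r 3408 [1, 2, 3, 6] [1, 1, 6, 1, 1], .l [3, 2, 5, 2, 12]]),
([p 2 1, s 0 0, g, s 1 0, s 0 0, g, p 4 2, s 3 0, g, s 0 3, g, p 0 4, g], .hi 1, [.y [1], .r 1052 [1, 5, 2] [1, 1, 1, 6], .l [2, 8, 5, 5, 2], .r 578 [1, 5, 2] [1, 1, 2, 6], .r 989 [1, 5, 2] [1, 0, 1, 6], .r 989 [1, 5, 2] [1, 2, 1, 6], .l [3, 2, 4], .r 520 [1, 5, 2] [1, 2, 1, 6], .l [3, 2, 7, 9, 7, 2], .l [3, 2, 7], .r 852 [1, 5, 2] [1, 2, 2, 5], .l [3, 2, 7, 7, 5, 2], .r 3590 [1, 5, 2, 4] [1, 2, 3, 1, 1], .l [3, 2, 9], .r 852 [1, 5, 2] [1, 2, 4, 3], .l [3, 2, 9], .r 3843 [1, 5, 2, 3, 4] [1, 1, 1, 1, 1, 1], .l [3, 2, 11], .r 852 [1,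 5, 2] [1, 2, 6, 1]]),
([p 2 1, s 0 0, g, s 1 0, s 0 0, g, p 3 2, s 0 0, g, p 0 3, g], .lo 7, [.l [1, 6, 4], .l [3, 8, 4], .l [3, 8, 4], .r 3406 [1, 4, 2] [1, 1, 2, 3], .l [3, 6, 2], .l [4, 6, 1], .l [6, 8, 1], .l [6, 8, 1], .r 3377 [1, 4, 2] [1, 2, 1, 3], .y [7], .r 3844 [1, 2, 4, 3] [1, 1, 1, 1, 1], .r 3405 [1, 2, 4] [1, 1, 1, 3], .r 3399 [2, 4] [5, 1, 3], .r 3746 [1, 2, 3, 4] [1, 2, 1, 1, 1], .r 3405 [1, 2, 4] [1, 1, 3, 1], .r 3399 [2, 4] [5, 3, 1]]),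
([p 2 1, s 0 0, g, s 1 0, g, p 3 2, s 0 0, g, p 0 3, g], .top 4, [.r 1003 [1, 2] [2, 4], .r 3845 [1, 2, 3] [1, 1, 1, 1], .r 3498 [1, 2] [2, 1, 4], .r 3538 [1, 2] [2, 1, 4]]),
([p 1 0, s 0 0, g, p 2 1, s 0 0, g, p 0 2, g], .hi 0, [.c, .r 3846 [3, 1, 2] [1, 1, 1, 1], .l [0, 2], .l [3, 2], .l [0, 3, 2], .r 1255 [3, 1] [1, 1, 3], .l [0, 5], .l [6, 5], .y [0, 6, 3], .r 1255 [3, 1] [1, 3, 1], .l [0, 7], .l [8, 7]]),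
([p 1 0, g, p 2 1, s 0 0, g, p 0 2, g], .top 1, [.r 331 [1, 2] [2, 1], .r 3847 [1, 2] [1, 1, 1], .r 334 [] [6], .r 444 [] [6]]),
([p 2 0, g, s 0 1, p 0 2, s 0 0, g, m 1 0, g], .lo 3, [.y [0, 3], .l [8, 3, 4], .l [2, 4], .l [1, 5, 3, 2], .l [6, 3, 0], .l [8, 5, 2], .r 3848 [2, 3] [2, 1, 3], .l [2, 3, 0, 4], .l [2, 3, 0, 4], .l [6, 3, 6], .r 3848 [2, 3] [2, 3, 1], .l [2, 3, 0, 6]]),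
([p 2 0, g, s 0 1, p 0 2, s 0 0, g, p 1 0, g], .hi 0, [.r 3832 [3, 1, 2] [1, 1, 1, 1], .l [0, 1], .l [2, 1], .r 1003 [3, 2] [1, 4], .y [0, 3], .l [0, 3, 2], .r 3639 [3, 2] [2, 1, 3], .l [0, 5], .l [6, 5], .r 3639 [3, 2] [2, 3, 1], .l [0, 7], .l [8, 7]]),
([p 2 0, s 0 0, g, s 0 1, p 0 2, s 0 0, g, s 1 0, g], .hi 0, [.c, .r 3782 [3, 1, 2] [1, 1, 1, 1], .l [0, 2], .l [3, 2], .r 1003 [3, 2] [2, 4], .y [0, 4], .l [0, 4, 3], .r 1255 [3, 2] [2, 1, 3], .l [0, 6], .l [7, 6], .r 1255 [3, 2] [2, 3, 1], .l [0, 8], .l [9, 8]]),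
([p 2 0, s 1 0, g, s 0 1, g, p 0 2, s 0 0, g], .hi 0, [.r 2175 [3, 1, 2] [1, 1, 1, 2], .l [0, 2], .l [3, 2], .l [2, 5, 2, 2, 1], .r 1018 [3, 1, 2] [1, 1, 1, 2], .l [0, 4], .l [5, 4], .y [0, 5], .l [0, 5, 4], .r 1255 [3, 2] [3, 1, 1], .l [0, 7], .l [8, 7]]),
([p 3 1, s 0 2, g, s 1 0, g, p 7 3, s 0 4, g, s 4 0, g, m 0 5, g, s 2 0, g, m 5 6, g, m 6 0, s 0 7, g], .lo 1, [.l [14, 12, 13, 7, 1, 10, 4, 1, 9, 3, 7, 8, 3], .r 1556 [1, 8, 3] [1, 1, 1, 13], .l [2, 7, 4, 4, 1], .l [2, 5, 2, 2, 1], .l [6, 14, 8, 9, 13, 9, 11, 3, 6, 0, 10, 5], .l [6, 14, 8, 9, 13, 9, 11, 3, 6, 0, 10, 5], .l [3, 2, 3], .l [3, 2, 6, 8, 6, 1], .l [4, 8, 4, 5, 7, 3, 0, 12], .l [3, 2, 6], .l [3, 2, 6, 2, 13, 10, 12, 9], .l [1, 13, 3, 11, 1, 12, 3, 8, 11, 5], .l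 [10, 8, 9, 5, 1, 10, 6, 1], .l [3, 2, 8], .l [4, 12, 8, 9, 13, 9, 11, 3, 6, 0, 10, 5], .l [12, 10, 11, 7, 1, 10, 4, 1], .l [3, 2, 10], .y [1, 12], .l [4, 12, 8, 9, 13, 9, 11, 3, 6, 0, 10, 5], .l [12, 10, 11, 7, 1, 10, 4, 1], .l [3, 2, 12], .l [16, 14, 15, 11, 1, 10, 13, 9], .l [12, 10, 11, 7, 1, 12, 6, 1], .l [3, 2, 14], .l [3, 2, 14], .l [12, 10, 18, 7, 15, 1, 14, 8, 6, 6, 4, 9], .l [12, 10, 11, 7, 1, 15, 9, 1], .l [3, 2, 17]]),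
([p 3 1, s 0 2, g, s 1 0, g, p 6 3, s 0 4, g, s 4 0, g, s 2 0, g, m 0 5, g, m 5 0, s 0 6, g], .lo 12, [.l [14, 10, 13, 9, 1, 8, 11, 7], .l [14, 10], .l [5, 4, 6, 1, 12, 8, 10, 11, 8], .l [12, 8, 11, 9, 1, 5, 6, 3], .l [14, 8, 13, 11, 1, 10, 11, 5], .l [14, 8], .l [13, 14, 5, 1, 2, 9, 4, 10, 4, 8], .l [14, 5, 8, 14, 10], .l [14, 5], .l [3, 2, 10, 12, 8, 10, 8, 1], .l [12, 3, 6, 12, 8], .l [14, 3, 8, 14, 8], .l [14, 3], .r 3853 [1, 2, 3, 4, 7, 5, 6] [1, 1, 1, 1, 1, 1, 1, 1], .l [4, 1, 2, 7, 9, 1, 4, 0, 8, 5], .l [14, 1, 8, 14, 6], .l [14, 1], .l [13, 3, 10, 12, 3, 8, 11, 5, 9, 1], .l [14, 1, 10, 11, 3, 8, 11, 3], .l [14, 1], .l [12, 13], .y [12, 14], .l [3, 2, 8, 15, 4, 4, 2, 7], .l [17, 4], .l [12, 16]]),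
([p 3 1, s 0 2, g, s 1 0, g, p 5 3, s 0 4, g, s 4 0, g, s 2 0, g, m 0 0, s 0 5, g], .lo 12, [.l [6, 7, 0, 13, 9], .l [14, 10], .l [5, 4, 10, 4, 11, 3], .l [4, 5, 0, 11, 7], .l [6, 7, 0, 13, 7], .l [14, 8], .l [3, 2, 10, 4, 11, 5], .l [4, 5, 0, 13, 5], .l [14, 5], .l [3, 2, 10, 12, 8, 10, 8, 1], .l [4, 5, 0, 11, 3], .l [4, 5, 0, 13, 3], .l [14, 3], .l [12, 10, 11, 7, 1, 6, 9, 5], .l [4, 5, 0, 11, 1], .l [4, 5, 0, 13, 1], .l [14, 1], .r 3854 [1, 2, 3, 4, 6, 5] [1, 1, 1, 1, 1, 1, 1], .y [12], .l [4, 5, 0, 11, 12], .l [15, 2], .l [12, 14]]),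
([p 3 1, s 0 2, g, s 1 0, g, p 4 3, s 0 0, g, s 2 0, g, m 0 0, s 0 4, g], .hi 6, [.l [1, 5, 3], .l [3, 7, 3], .l [5, 4, 8, 2, 9, 6, 8, 5], .l [3, 7, 3], .l [5, 7, 1], .l [3, 2, 8, 4, 2, 3], .l [5, 7, 1], .y [6], .r 3855 [1, 2, 3, 5, 4] [1, 1, 1, 1, 1, 1], .l [3, 2, 8, 4, 9, 4, 8, 1], .r 2574 [1, 3, 5] [1, 1, 1, 6], .l [3, 2, 6, 8, 6, 1], .l [12, 7, 12, 11, 3], .l [3, 2, 6, 2, 9, 6, 8, 3], .l [4, 5, 0, 9, 3], .l [3, 2, 6, 9, 7, 1], .l [3, 2, 6, 11, 9, 1], .l [3, 2, 6, 2, 7, 4, 6, 7], .l [3, 2, 6, 11, 9, 1]]),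
([p 3 1, s 0 2, g, s 1 0, g, p 7 3, s 0 4, g, s 4 0, g, p 5 0, g, s 2 0, g, p 6 5, g, p 0 6, s 0 7, g], .lo 1, [.l [14, 12, 13, 7, 1, 10, 4, 1, 9, 3, 7, 8, 3], .r 1556 [1, 8, 3] [1, 1, 1, 13], .l [2, 7, 4, 4, 1], .l [2, 5, 2, 2, 1], .l [6, 14, 8, 9, 13, 9, 11, 3, 6, 0, 10, 5], .l [6, 14, 8, 9, 13, 9, 11, 3, 6, 0, 10, 5], .l [3, 2, 3], .l [3, 2, 6, 8, 6, 1], .l [4, 8, 4, 5, 7, 3, 0, 12], .l [3, 2, 6], .l [3, 2, 6, 2, 13, 10, 12, 9], .l [1, 13, 3, 11, 1, 12, 3, 8, 11, 5], .l [10, 8, 9, 5, 1, 10, 6, 1], .l [3, 2, 8], .l [10, 8, 9, 5, 1, 8, 4, 1], .l [4, 12, 8, 9, 13, 9, 11, 3, 6, 0, 10, 5], .l [12, 10, 11, 7, 1, 10, 4, 1], .l [3, 2, 10], .y [1, 12], .l [4, 12, 8, 9, 13, 9, 11, 3, 6, 0, 10, 5], .l [12, 10, 11, 7, 1, 10, 4, 1], .l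 [3, 2, 12], .l [16, 14, 15, 11, 1, 10, 13, 9], .l [12, 10, 11, 7, 1, 12, 6, 1], .l [3, 2, 14], .l [12, 10, 18, 7, 15, 1, 14, 8, 6, 6, 4, 9], .l [12, 10, 11, 7, 1, 15, 9, 1], .l [3, 2, 17]]),
([p 3 1, s 0 2, g, s 1 0, g, p 6 3, s 0 4, g, s 4 0, g, s 2 0, g, p 5 0, g, p 0 5, s 0 6, g], .hi 12, [.l [10, 8, 9, 5, 1, 8, 4, 1], .l [14, 10, 13, 9, 1, 8, 11, 7], .l [5, 4, 6, 1, 12, 8, 10, 11, 8], .l [14, 10], .l [14, 8, 13, 11, 1, 10, 11, 5], .l [13, 14, 5, 1, 2, 9, 4, 10, 4, 8], .l [14, 8], .l [3, 2, 8, 1, 1, 8, 6, 1], .l [14, 5, 8, 14, 10], .l [3, 2, 10, 12, 8, 10, 8, 1], .l [14, 5], .l [14, 3, 8, 14, 8], .r 3857 [1, 2, 3, 4, 7, 5, 6] [1, 1, 1, 1, 1, 1, 1, 1], .l [14, 3], .l [14, 1, 8, 14, 6], .l [13, 3, 10, 12, 3, 8, 11, 5, 9, 1],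 .l [14, 1], .l [14, 1, 10, 11, 3, 8, 11, 3], .l [12, 13], .l [14, 1], .y [12, 14], .l [12, 14, 13], .l [3, 2, 8, 15, 4, 4, 2, 7], .l [12, 16], .l [17, 4]]),
([p 3 1, s 0 2, g, s 1 0, g, p 5 3, s 0 4, g, s 4 0, g, s 2 0, g, p 0 0, s 0 5, g], .hi 12, [.l [4, 5, 0, 11, 9], .l [6, 7, 0, 13, 9], .l [5, 4, 10, 4, 11, 3], .l [14, 10], .l [6, 7, 0, 13, 7], .l [3, 2, 10, 4, 11, 5], .l [14, 8], .l [4, 5, 0, 11, 5], .l [4, 5, 0, 13, 5], .l [3, 2, 10, 12, 8, 10, 8, 1], .l [14, 5], .l [4, 5, 0, 13, 3], .l [12, 10, 11, 7, 1, 6, 9, 5], .l [14, 3], .l [4, 5, 0, 13, 1], .r 3858 [1, 2, 3, 4, 6, 5] [1, 1, 1, 1, 1, 1, 1], .l [14, 1], .y [12], .c, .l [4, 5, 0, 11, 12], .l [12, 14], .l [15, 2]]),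
([p 3 1, s 0 2, g, s 1 0, g, p 4 3, s 0 0, g, s 2 0, g, p 0 0, s 0 4, g], .hi 6, [.l [1, 5, 3], .l [3, 7, 3], .l [5, 4, 8, 2, 9, 6, 8, 5], .l [3, 7, 3], .l [5, 7, 1], .l [3, 2, 8, 4, 2, 3], .l [5, 7, 1], .y [6], .r 3859 [1, 2, 3, 5, 4] [1, 1, 1, 1, 1, 1], .l [3, 2, 8, 4, 9, 4, 8, 1], .r 2574 [1, 3, 5] [1, 1, 1, 6], .l [3, 2, 6, 8, 6, 1], .l [12, 7, 12, 11, 3], .l [3, 2, 6, 2, 9, 6, 8, 3], .l [10, 5, 10, 9, 3], .l [3, 2, 6, 9, 7, 1], .l [3, 2, 6, 11, 9, 1], .l [3, 2, 6, 2, 7, 4, 6, 7], .l [3, 2, 6, 11, 9, 1]]),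
([p 3 1, g, s 1 0, g, s 2 0, g, s 0 2, p 6 3, g, m 0 4, g, p 5 0, g, s 4 5, s 0 6, g], .lo 14, [.l [14, 16, 3, 10, 8, 11, 1, 9, 6, 1], .l [12, 8, 10, 1, 12, 9, 11, 9, 1, 8, 4, 1], .l [14, 16, 3, 10, 8, 11, 1, 9, 6], .y [0, 2, 14, 7], .l [14, 16, 5, 10, 6, 11, 1, 9, 4, 1], .l [2, 1, 15, 11, 4, 11, 4, 1, 4, 2, 6, 1], .l [14, 16, 5, 10, 6, 11, 1, 9, 4], .l [12, 14, 5, 8, 4, 9, 1, 7, 2, 1], .l [14, 16, 7, 10, 4, 11, 1, 9, 2, 5], .l [14, 16, 10, 3, 9, 1, 10, 1, 8, 5], .l [14, 16, 7, 10, 4, 11, 1, 9, 2], .l [14, 16, 8, 1, 7, 1, 10, 1, 8, 5], .l [10, 16, 12, 1, 11, 5, 3, 6, 1, 8, 6, 1], .l [14, 16, 10, 1, 9, 12, 1, 10, 7], .l [11, 15, 12, 14, 12, 1], .l [11, 15, 12], .l [10, 16, 12, 1, 11, 5, 4, 9], .l [11, 13, 10], .l [13, 15, 10,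 14, 12, 1], .l [13, 15, 10], .l [8, 16, 14, 1, 13, 7, 5, 1, 4, 1], .l [12, 14, 8, 1, 7, 1, 8, 1, 6, 7], .l [12, 14, 8, 1, 7, 1, 6, 10, 4, 1], .l [12, 14, 8, 1, 7, 1, 8, 1, 6, 7]]),
([p 3 1, g, s 1 0, g, s 2 0, g, s 0 2, p 6 3, g, p 5 0, g, m 0 4, g, s 4 5, s 0 6, g], .lo 14, [.l [14, 16, 3, 10, 8, 11, 1, 9, 6, 1], .l [12, 8, 10, 1, 12, 9, 11, 9, 1, 8, 4, 1], .l [14, 16, 3, 10, 8, 11, 1, 9, 6], .y [0, 2, 14, 7], .l [14, 16, 5, 10, 6, 11, 1, 9, 4, 1], .l [2, 1, 15, 11, 4, 11, 4, 1, 4, 2, 6, 1], .l [14, 16, 5, 10, 6, 11, 1, 9, 4], .l [12, 14, 5, 8, 4, 9, 1, 7, 2, 1], .l [14, 16, 7, 10, 4, 11, 1, 9, 2, 5], .l [14, 16, 10, 3, 9, 1, 10, 1, 8, 5], .l [14, 16, 7, 10, 4, 11, 1, 9, 2], .l [14, 16, 8, 1, 7, 1, 10, 1, 8, 5], .l [10, 16,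 12, 1, 11, 5, 3, 6, 1, 8, 6, 1], .l [14, 16, 10, 1, 9, 12, 1, 10, 7], .l [9, 13, 12], .l [11, 15, 12, 14, 12, 1], .l [11, 15, 12], .l [10, 16, 12, 1, 11, 5, 4, 9], .l [13, 15, 12, 14, 10, 1], .l [13, 15, 12], .l [8, 16, 14, 1, 13, 7, 5, 1, 4, 1], .l [12, 14, 8, 1, 7, 1, 8, 1, 6, 7], .l [12, 14, 8, 1, 7, 1, 8, 10, 2, 7], .l [12, 14, 8, 1, 7, 1, 8, 1, 6, 7]]),
([p 3 1, g, s 1 0, g, s 2 0, g, s 0 2, p 5 3, g, p 4 0, g, s 0 4, s 0 5, g], .lo 11, [.l [8, 1, 8, 0, 10, 7], .l [8, 1, 8, 0, 10, 7], .l [8, 1, 3, 5, 6, 0, 8, 3], .l [6, 1, 6, 0, 8, 5], .l [8, 1, 8, 0, 10, 5], .l [8, 1, 8, 0, 10, 5], .l [12, 8, 11, 5, 5, 10, 5], .l [11, 6, 6, 4, 8, 7], .l [8, 3, 8, 0, 10, 3], .l [8, 9, 0, 12, 5], .l [8, 3, 8, 0, 10, 3], .l [6, 1, 6, 0, 10,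 3], .l [6, 1, 6, 0, 10, 3], .r 3861 [1, 2, 3, 6, 4, 5] [1, 1, 1, 1, 1, 1, 1], .y [9, 11], .l [6, 1, 6, 0, 10, 1], .l [6, 1, 6, 0, 10, 1], .r 3862 [1, 2, 3, 6, 4, 5] [1, 1, 1, 1, 1, 1, 1], .l [6, 1, 6, 0, 8, 9], .l [8, 14, 2, 11, 1, 10, 4, 1], .l [6, 1, 6, 0, 8, 9]]),
([p 4 1, s 0 2, g, s 1 0, g, s 3 0, g, s 0 3, p 5 4, g, s 2 0, g, s 0 0, s 0 5, g], .hi 12, [.l [7, 1, 7, 0, 9, 7], .l [9, 1, 9, 0, 11, 7], .l [5, 4, 10, 1, 12, 3], .l [9, 1, 9, 0, 11, 7], .l [9, 1, 9, 0, 11, 5], .l [3, 2, 10, 1, 12, 5], .l [9, 1, 9, 0, 11, 5], .l [9, 3, 9, 0, 11, 3], .l [9, 3, 9, 0, 11, 3], .l [9, 10, 0, 13, 5], .l [7, 1, 7, 0, 9, 3], .l [7, 1, 7, 0, 11, 3], .r 3863 [1, 3, 4, 6, 5] [2, 1, 1, 1, 3, 1], .l [7, 1, 7, 0, 11, 3], .l [7, 1, 7, 0, 11,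 1], .r 3863 [1, 3, 4, 6, 5] [2, 1, 1, 3, 1, 1], .l [7, 1, 7, 0, 11, 1], .y [12], .c, .l [7, 1, 7, 0, 9, 10], .l [7, 1, 7, 0, 9, 10], .l [3, 2, 8, 13, 2, 10]]),
([p 4 1, s 0 2, g, s 1 0, g, s 3 0, g, s 0 3, p 5 4, s 0 0, g, s 2 0, g, s 0 5, g], .bot 12, [.l [7, 1, 7, 0, 9, 7], .r 3864 [1, 2, 3, 4, 5] [1, 1, 1, 2, 1, 1], .r 3860 [1, 2, 4, 5] [1, 4, 1, 1, 1], .r 3856 [1, 2, 4, 5] [1, 4, 1, 1, 1]]),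
([p 3 1, g, s 2 0, g, s 1 0, g, s 0 2, p 6 3, g, p 5 0, g, m 0 4, g, s 4 5, s 0 6, g], .lo 14, [.l [14, 16, 3, 10, 8, 11, 1, 9, 6, 3], .l [14, 16, 10, 3, 1, 5, 7, 1, 8, 1, 6, 3], .l [14, 16, 3, 10, 8, 11, 1, 9, 6], .l [12, 14, 3, 8, 6, 9, 1, 7, 4, 3], .l [14, 16, 5, 10, 6, 11, 1, 9, 4, 5], .l [14, 16, 10, 5, 9, 1, 10, 1, 8, 5], .l [14, 16, 5, 10, 6, 11, 1, 9, 4], .y [0, 4, 14, 7], .l [14, 16, 7, 10, 4, 11, 1, 9, 2, 3], .l [14, 16, 10, 5, 9, 1, 10, 1, 8, 3], .l [14, 16, 7, 10, 4, 11, 1, 9, 2], .l [14, 16, 8, 3, 7, 1, 10, 1, 8, 5], .l [10, 16, 12, 3, 11, 5, 3, 8, 3, 8, 4, 1], .l [14, 16, 10, 1, 9, 12, 1, 10, 7], .l [9, 13, 12], .l [11, 15, 12, 14, 12, 3], .l [11, 15, 12], .l [10, 16, 12, 3, 11, 5, 4, 9], .l [13, 15, 12, 14, 10,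 3], .l [13, 15, 12], .l [8, 16, 14, 3, 13, 7, 5, 1, 4, 1], .l [12, 14, 8, 3, 7, 1, 8, 1, 6, 7], .l [12, 14, 8, 3, 7, 1, 8, 10, 2, 7], .l [12, 14, 8, 3, 7, 1, 8, 1, 6, 7]]),
([p 3 1, g, s 2 0, g, s 1 0, g, s 0 2, p 6 3, g, m 0 4, g, p 5 0, g, s 4 5, s 0 6, g], .lo 14, [.l [14, 16, 3, 10, 8, 11, 1, 9, 6, 3], .l [14, 16, 10, 3, 1, 5, 7, 1, 8, 1, 6, 3], .l [14, 16, 3, 10, 8, 11, 1, 9, 6], .l [12, 14, 3, 8, 6, 9, 1, 7, 4, 3], .l [14, 16, 5, 10, 6, 11, 1, 9, 4, 5], .l [14, 16, 10, 5, 9, 1, 10, 1, 8, 5], .l [14, 16, 5, 10, 6, 11, 1, 9, 4], .y [0, 4, 14, 7], .l [14, 16, 7, 10, 4, 11, 1, 9, 2, 3], .l [14, 16, 10, 5, 9, 1, 10, 1, 8, 3], .l [14, 16, 7, 10, 4, 11, 1, 9, 2], .l [14, 16, 8, 3, 7, 1, 10, 1, 8, 5], .l [10, 16, 12, 3, 11, 5,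 3, 8, 3, 8, 4, 1], .l [14, 16, 10, 1, 9, 12, 1, 10, 7], .l [11, 15, 12, 14, 12, 3], .l [11, 15, 12], .l [10, 16, 12, 3, 11, 5, 4, 9], .l [11, 13, 10], .l [13, 15, 10, 14, 12, 3], .l [13, 15, 10], .l [8, 16, 14, 3, 13, 7, 5, 1, 4, 1], .l [12, 14, 8, 3, 7, 1, 8, 1, 6, 7], .l [12, 14, 8, 3, 7, 1, 6, 10, 4, 1], .l [12, 14, 8, 3, 7, 1, 8, 1, 6, 7]]),
([p 3 1, g, s 2 0, g, s 1 0, g, s 0 2, p 5 3, g, p 4 0, g, s 0 4, s 0 5, g], .lo 11, [.l [8, 3, 8, 0, 10, 7], .l [8, 3, 8, 0, 10, 7], .l [6, 5, 8, 2, 4, 2, 8, 3], .l [6, 3, 1, 3, 4, 0, 6, 3], .l [8, 5, 8, 0, 10, 3], .l [8, 9, 0, 12, 7], .l [8, 5, 8, 0, 10, 3], .l [6, 3, 6, 0, 8, 3], .l [8, 5, 8, 0, 10, 5], .l [8, 9, 0, 12, 5], .l [8, 5, 8, 0, 10, 5], .l [6, 3, 6, 0, 10, 3], .l [6, 3,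 6, 0, 10, 3], .r 3867 [1, 2, 3, 6, 4, 5] [1, 1, 1, 1, 1, 1, 1], .y [9, 11], .l [6, 3, 6, 0, 10, 1], .l [6, 3, 6, 0, 10, 1], .r 3866 [1, 2, 3, 6, 4, 5] [1, 1, 1, 1, 1, 1, 1], .l [6, 3, 6, 0, 8, 9], .l [8, 14, 2, 11, 3, 10, 4, 1], .l [6, 3, 6, 0, 8, 9]]),
([p 4 1, s 0 2, g, s 3 0, g, s 1 0, g, s 0 3, p 5 4, g, s 2 0, g, s 0 0, s 0 5, g], .hi 12, [.l [7, 3, 7, 0, 9, 7], .l [9, 3, 9, 0, 11, 7], .l [7, 6, 10, 1, 12, 3], .l [9, 3, 9, 0, 11, 7], .l [9, 5, 9, 0, 11, 3], .l [9, 5, 9, 0, 11, 3], .l [9, 10, 0, 13, 7], .l [9, 5, 9, 0, 11, 5], .l [9, 5, 9, 0, 11, 5], .l [9, 10, 0, 13, 5], .l [7, 3, 7, 0, 9, 5], .l [7, 3, 7, 0, 11, 3], .r 3868 [1, 3, 4, 6, 5] [2, 1, 1, 1, 3, 1], .l [7, 3, 7, 0, 11, 3], .l [7, 3, 7, 0, 11, 1], .r 3868 [1,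 3, 4, 6, 5] [2, 1, 1, 3, 1, 1], .l [7, 3, 7, 0, 11, 1], .y [12], .c, .l [7, 3, 7, 0, 9, 10], .l [7, 3, 7, 0, 9, 10], .l [5, 4, 8, 13, 2, 10]]),
([p 4 1, s 0 2, g, s 3 0, g, s 1 0, g, s 0 3, p 5 4, s 0 0, g, s 2 0, g, s 0 5, g], .bot 12, [.l [7, 3, 7, 0, 9, 7], .r 3869 [1, 2, 3, 4, 5] [1, 1, 1, 2, 1, 1], .r 3860 [1, 2, 4, 5] [3, 2, 1, 1, 1], .r 3856 [1, 2, 4, 5] [3, 2, 1, 1, 1]]),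
([p 3 1, s 0 2, g, s 1 0, g, s 0 0, p 4 3, s 0 0, g, s 2 0, g, s 0 4, g], .hi 5, [.l [1, 8, 10, 7, 4, 1], .r 3870 [1, 2, 5, 3, 4] [1, 1, 1, 1, 1, 1], .l [12, 7, 10, 3, 1, 5, 7, 6], .l [7, 3, 7, 0, 10], .r 3865 [1, 2, 5, 3, 4] [1, 1, 1, 1, 1, 1], .r 2428 [5, 3] [4, 1, 6], .l [7, 1, 7, 0, 10], .y [5], .l [5, 6, 0], .r 3782 [1, 5, 3] [1, 1, 1, 5], .l [3, 2, 9, 1, 3, 8], .l [9, 3, 11], .r 3782 [1, 5, 3] [1, 1, 3, 3], .l [3, 2, 7, 11, 8, 5], .l [11, 5, 11], .l [11, 5, 4], .r 3782 [1, 5, 3] [1, 1, 5, 1], .l [3, 2, 7, 9, 6, 8], .l [13, 7, 4]]),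
([p 3 1, s 0 2, g, s 1 0, g, p 4 3, s 0 0, g, s 2 0, g, s 0 4, g], .bot 4, [.l [3, 2, 3, 0, 6], .r 3871 [1, 2, 3, 4] [1, 1, 1, 1, 1], .r 1127 [1, 3] [1, 1, 6], .r 1575 [1, 3] [1, 1, 6]]),
([p 2 0, s 0 1, g, p 3 2, s 0 0, g, s 1 0, g, s 0 3, g], .hi 0, [.c, .r 3872 [4, 1, 2, 3] [1, 1, 1, 1, 1], .l [0, 2], .l [3, 2], .l [0, 3, 2], .r 1255 [4, 2] [1, 1, 5], .l [0, 5], .l [6, 5], .r 1254 [4, 1, 2] [1, 1, 1, 3], .l [0, 7], .l [8, 7], .y [0, 8, 3], .r 1254 [4, 1, 2] [1, 1, 3, 1], .l [0, 9], .l [10, 9]]),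
([p 4 1, s 0 2, g, s 1 0, s 0 3, g, p 0 4, s 0 5, g, m 0 0, s 3 0, g, s 5 0, g, s 2 0, g], .lo 9, [.l [5, 4, 7, 2, 9, 4], .l [11, 7], .l [5, 4, 7, 2, 9, 4], .l [3, 2, 5, 2, 7, 4], .l [3, 2, 7, 4, 9, 6], .l [11, 4], .l [11, 7, 11, 6, 8, 5, 2, 11], .l [3, 2, 5, 2, 9, 1], .l [11, 1], .l [3, 2, 8, 13, 10, 2, 6, 9], .y [9], .c, .l [3, 2, 5, 2, 7, 8], .l [12, 2], .l [9, 11], .l [3, 2, 5, 2, 7, 8], .l [3, 2, 5, 2, 7, 10], .l [14, 4], .l [9, 13], .l [3, 2, 5, 2, 7, 10], .l [3, 2, 5, 2, 7, 12], .l [16, 6], .l [9, 15]]),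
([p 4 1, s 0 2, g, s 1 0, s 0 3, g, p 0 4, s 0 5, g, p 0 0, s 3 0, g, s 5 0, g, s 2 0, g], .hi 9, [.l [3, 2, 5, 2, 7, 2], .l [5, 4, 7, 2, 9, 4], .l [5, 4, 7, 2, 9, 4], .l [11, 7], .l [3, 2, 5, 2, 7, 6], .l [3, 2, 7, 4, 9, 6], .l [11, 7, 11, 6, 8, 5, 2, 11], .l [11, 4], .l [9, 5, 9, 6, 6, 3, 2, 9], .l [3, 2, 5, 2, 7, 1], .l [3, 2, 5, 2, 9, 1], .l [3, 2, 8, 13, 10, 2, 6, 9], .l [11, 1], .y [9], .l [3, 2, 5, 2, 7, 8], .l [9, 11], .l [12, 2], .l [3, 2, 5, 2, 7, 10], .l [9, 13], .l [14, 4], .l [3, 2, 5, 2, 7, 12], .l [9, 15], .l [16, 6]]),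
([p 5 1, s 0 2, g, p 3 0, g, s 0 3, s 1 4, g, p 4 0, g, p 0 5, g, s 2 0, g], .lo 5, [.l [8, 7, 12, 8, 1, 8, 6, 1], .l [0, 7, 3], .l [6, 12, 5, 9, 1, 7, 1], .y [3, 5], .l [8, 7, 12, 8, 1, 8, 6, 1], .l [0, 7, 1], .l [6, 12, 5, 9, 1, 7, 1], .l [0, 5, 6, 10, 8, 9], .l [2, 12, 9, 1, 4, 2, 3], .l [0, 5, 6], .l [2, 10, 7, 1, 4, 2, 1], .l [0, 5, 8, 1, 1, 8, 6, 7], .l [2, 12, 9, 1, 6, 4, 1], .l [0, 5, 8], .l [12, 6, 10, 11, 1, 1], .l [2, 10, 7, 1, 9, 7, 1], .l [0, 5, 10], .l [6, 5, 10, 8, 1, 8, 6, 1], .l [14, 8, 12, 5, 3, 1], .l [2, 10, 7, 1, 11, 9, 1], .l [0, 5, 12]]),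
([p 5 1, g, s 2 0, g, s 0 2, s 1 3, g, p 4 0, g, s 0 4, p 3 0, g, p 0 5, g], .lo 9, [.l [0, 6, 1, 5, 8, 5], .l [0, 6, 1, 5, 8, 5], .l [6, 1, 13, 7, 4, 7], .l [4, 1, 11, 7, 4, 7], .l [0, 6, 3, 5, 8, 3], .l [0, 6, 6, 10, 5], .l [0, 6, 3, 5, 8, 3], .l [0, 4, 1, 3, 8, 3], .l [0, 4, 1, 3, 8, 3], .l [10, 14, 3, 11, 1, 9, 6], .y [7, 9], .l [0, 4, 1, 3, 8, 1], .l [0, 4, 1, 3, 8, 1], .l [10, 14, 3, 11, 1, 9, 6], .l [6, 12, 5, 1, 2, 0, 6], .l [0, 4, 1, 3, 6, 7], .l [6, 14, 7, 1, 4, 2, 8], .l [0, 4, 1, 3, 6, 7], .l [0, 4, 1, 3, 6, 9], .l [6, 12, 5, 1, 11, 9, 6], .l [0, 4, 1, 3, 6, 9]]),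
([p 4 1, g, s 2 0, g, s 0 2, s 1 3, g, s 0 0, p 3 0, g, p 0 4, g], .hi 7, [.l [0, 6, 1, 5, 6, 3], .l [6, 1, 11, 5, 2, 5], .l [0, 6, 1, 5, 6, 3], .l [0, 6, 3, 5, 6, 1], .l [0, 6, 3, 5, 6, 1], .l [0, 6, 6, 8, 3], .l [0, 4, 1, 3, 4, 1], .l [0, 4, 1, 3, 6, 1], .r 3877 [1, 2, 3, 5, 4] [1, 1, 1, 1, 1, 1], .l [0, 4, 1, 3, 6, 1], .y [7], .l [0, 4, 1, 3, 4, 5], .l [0, 4, 1, 3, 4, 5], .l [10, 2, 3], .l [0, 4, 1, 3, 4, 5], .l [0, 4, 1, 3, 4, 7], .l [0, 4, 1, 3, 4, 7], .l [12, 4, 5]]),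
([p 0 1, s 0 2, g, s 3 0, g, s 0 3, s 1 4, g, m 0 0, p 4 0, g, s 2 0, g], .lo 8, [.l [0, 7, 1, 6, 7, 3], .l [10, 6], .l [8, 10, 4], .l [0, 5, 5, 7, 3], .l [0, 7, 3, 6, 7, 1], .l [10, 4], .l [0, 7, 3, 6, 7, 1], .l [0, 5, 1, 4, 7, 1], .l [10, 1], .l [8, 13, 5, 9, 1, 8, 2, 7], .y [8], .l [9, 0], .l [0, 5, 1, 4, 5, 6], .l [11, 2], .l [8, 10], .l [0, 5, 1, 4, 5, 6], .l [0, 5, 1, 4, 5, 8], .l [13, 4], .l [8, 12]]),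
([p 0 1, s 0 2, g, s 3 0, g, s 0 3, s 1 4, g, p 0 0, p 4 0, g, s 2 0, g], .hi 8, [.l [0, 5, 1, 4, 5, 4], .l [0, 5, 1, 4, 5, 3], .l [0, 7, 1, 6, 7, 3], .l [8, 10, 4], .l [10, 6], .l [0, 7, 3, 6, 7, 1], .l [0, 7, 3, 6, 7, 1], .l [10, 4], .l [0, 5, 1, 4, 5, 1], .l [0, 5, 1, 4, 7, 1], .l [8, 13, 5, 9, 1, 8, 2, 7], .l [10, 1], .y [8], .l [0, 5, 1, 4, 5, 6], .l [8, 10], .l [11, 2], .l [0, 5, 1, 4, 5, 8], .l [8, 12], .l [13, 4]]),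
([p 5 1, s 0 2, g, s 3 0, g, s 0 3, s 1 4, g, p 4 0, g, p 0 5, g, s 2 0, g], .bot 7, [.c, .r 3878 [1, 3, 4, 5] [2, 1, 1, 1, 3], .r 3880 [1, 2, 3, 4] [1, 1, 1, 3, 1], .r 3879 [1, 2, 3, 4] [1, 1, 1, 3, 1]]),
([p 4 1, s 0 2, g, s 0 0, s 1 3, g, p 3 0, g, p 0 4, g, s 2 0, g], .hi 3, [.r 1018 [1, 5, 4] [1, 0, 3, 3], .r 3881 [1, 2, 5, 3, 4] [1, 1, 1, 1, 1, 1], .r 3876 [1, 2, 5, 3, 4] [1, 1, 1, 1, 1, 1], .l [0, 5, 1], .y [3], .l [0, 3, 4, 8, 6, 7], .l [0, 3, 4], .l [4, 7, 3, 6, 3], .l [0, 3, 6, 1, 1, 6, 4, 5], .l [0, 3, 6], .l [5, 10, 4, 7, 4], .l [0, 3, 6], .l [10, 6, 8, 9, 1, 1], .l [0, 3, 8], .l [10, 6, 8], .l [12, 8, 10, 3, 7, 7], .l [0, 3, 10], .l [12, 8, 10]]),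
([p 4 1, s 0 2, g, s 1 3, g, p 3 0, g, p 0 4, s 0 0, g, s 2 0, g], .bot 2, [.r 2173 [1] [8], .r 3882 [1, 2, 3, 4] [1, 1, 1, 2, 1], .r 3560 [1, 4] [2, 3, 4], .r 3589 [1, 4] [2, 3, 3]]),
([p 3 1, s 0 0, g, s 1 2, g, p 2 0, g, p 0 3, s 0 0, g], .hi 1, [.y [1], .r 1053 [1, 4, 3] [1, 1, 3, 2], .l [2, 9, 6, 6, 3], .r 578 [1, 4, 3] [1, 1, 3, 2], .r 989 [1, 4, 3] [1, 1, 3, 2], .l [3, 2, 3], .r 520 [1, 4, 3] [1, 1, 3, 2], .r 989 [1, 4, 3] [1, 3, 1, 2], .l [3, 2, 5], .l [2, 9, 6, 1, 3, 4, 1], .l [3, 2, 5], .l [1, 7, 5], .r 3883 [1, 4, 2, 3] [1, 1, 1, 1, 1], .l [3, 2, 8], .r 852 [1, 4, 3] [1, 3, 2, 1]]),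
([p 3 1, g, s 1 2, g, p 2 0, g, p 0 3, s 0 0, g], .top 1, [.c, .r 3884 [1, 2, 3] [1, 1, 1, 1], .r 334 [] [8], .r 444 [] [8]]),
([p 3 1, g, s 1 2, s 0 0, g, p 0 3, s 0 0, g, p 2 0, g], .bot 1, [.c, .r 3431 [1, 2, 3] [1, 1, 2, 1], .r 3560 [1, 3] [1, 2, 4], .r 3589 [1, 3] [1, 2, 3]]),
([p 4 1, g, s 1 0, s 0 2, g, m 0 3, g, p 0 4, s 0 0, g, p 5 0, g, s 3 5, s 2 0, g], .hi 2, [.l [6, 2, 4, 7, 2, 10, 5, 6, 8, 5], .r 3497 [1, 6, 4] [1, 1, 4, 7], .l [6, 2, 4, 7, 2, 10, 5, 6, 8, 5], .c, .l [6, 9, 2, 12, 5, 6, 10, 7], .l [6, 4, 4, 7, 2, 10, 5, 6, 8, 5], .r 1068 [1, 6, 4] [1, 2, 3, 7], .l [11, 6, 10, 7, 5, 8, 1, 6, 6, 3], .l [13, 8, 12, 7, 5, 8, 1, 6, 8, 5], .r 3885 [1, 6, 4] [1, 4, 1, 6], .l [13, 8, 12, 7, 5, 8, 1, 6, 8, 5], .y [0, 2,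 7], .l [2, 7, 4], .l [4, 7, 2, 12, 3, 6, 10, 5], .l [4, 2, 2, 5, 2, 10, 3, 6, 8, 3], .l [13, 8, 12, 9, 2, 6, 10, 7], .l [9, 7, 10, 2, 8, 10, 2, 4], .l [9, 7, 10, 2, 8, 10, 2, 4], .r 1387 [1, 6, 4] [1, 4, 4, 4], .l [11, 15, 5, 10, 8, 11, 5, 9, 2, 5], .r 3886 [1, 6, 4] [1, 3, 6, 1], .l [11, 15, 5, 10, 8, 11, 5, 9, 2, 5]]),
([p 4 1, g, s 1 0, s 0 2, g, m 0 3, g, p 0 4, s 0 5, g, s 3 0, s 2 0, g, s 5 0, g], .hi 10, [.l [4, 3, 8, 4, 10, 3], .l [4, 3, 8, 4, 10, 3], .l [12, 9, 2, 10, 4, 10], .l [2, 1, 6, 4, 8, 7], .l [2, 1, 8, 6, 10, 7], .l [11, 4, 10, 7, 11, 7, 5, 6], .l [2, 1, 8, 6, 10, 7], .y [5, 10], .l [2, 1, 8, 6, 10, 5], .l [11, 4, 10, 7, 11, 7, 5, 6], .l [2, 1, 8, 6, 10, 5], .l [9, 2, 8, 7, 9, 5, 3, 4], .l [2, 1, 6, 4, 8, 1],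 .l [2, 1, 6, 4, 10, 1], .r 3887 [1, 2, 3, 4, 6] [1, 1, 1, 1, 1, 3], .l [2, 1, 6, 4, 10, 1], .l [2, 1, 6, 4, 8, 9], .l [2, 1, 6, 4, 8, 9], .l [4, 7, 2, 8, 11, 2, 6, 1], .l [2, 1, 6, 4, 8, 11], .l [2, 1, 6, 4, 8, 11], .l [4, 7, 2, 8, 13, 4, 8, 1]]),
([p 4 1, s 0 2, g, s 1 0, s 0 3, g, p 0 4, s 0 5, g, m 0 6, g, p 7 0, g, s 6 7, s 3 0, g, s 5 0, g, s 2 0, g], .lo 1, [.l [2, 8, 5, 5, 2, 12], .r 1556 [1, 8, 4] [1, 1, 2, 13], .l [1, 19, 16, 17, 14, 9], .l [2, 6, 3, 3, 2], .l [20, 18, 19, 12, 8, 6, 3, 11, 2, 11, 4, 1], .l [6, 4, 7, 1, 14, 9, 11, 14], .l [3, 2, 4], .l [3, 2, 7, 16, 14, 2], .l [9, 7, 8, 3, 17, 14, 2, 8], .l [3, 2, 7], .l [3, 2, 9, 16, 12, 2], .l [11, 9, 10, 5, 17, 12, 2, 6], .l [3, 2, 9], .l [7, 15, 4, 1, 4, 2, 7, 2,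 3], .l [3, 2, 11, 3, 11, 6, 2, 10, 1], .l [7, 17, 6, 3, 6, 2, 9, 2, 3], .l [3, 2, 11], .l [1, 17, 6, 1, 6, 4, 12, 1], .l [3, 2, 14, 16, 7, 2], .l [3, 2, 18, 10, 3, 6, 14, 4, 2, 10, 1], .l [3, 2, 14], .l [3, 2, 14, 14, 5, 2], .l [3, 2, 18, 10, 3, 8, 14, 4, 2, 8, 1], .l [3, 2, 18, 10, 3, 8, 14, 4, 2, 8, 1], .l [3, 2, 16], .y [1, 18], .l [3, 2, 18, 10, 3, 8, 14, 4, 2, 8, 1], .l [18, 16, 17, 12, 8, 16, 5, 2], .l [3, 2, 18]]),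
([p 3 1, g, s 1 0, s 0 2, g, p 5 3, s 0 0, g, m 0 4, g, s 4 5, s 2 0, g], .hi 2, [.l [6, 2, 4, 5, 0, 8, 5, 6, 6, 3], .r 3497 [1, 6, 3] [1, 1, 2, 7], .l [6, 2, 4, 5, 0, 8, 5, 6, 6, 3], .c, .l [6, 7, 0, 10, 5, 6, 8, 5], .l [6, 4, 4, 5, 0, 8, 5, 6, 6, 3], .r 1068 [1, 6, 3] [1, 2, 1, 7], .l [2, 5, 2], .l [4, 5, 0, 10, 3, 6, 8, 3], .l [4, 2, 2, 3, 0, 8, 3, 6, 6, 1], .l [11, 6, 10, 9, 2, 6, 8, 5], .y [0, 2, 8, 10, 5], .l [7, 5, 8, 2, 6, 8, 2, 4], .l [7, 5, 8, 2, 6, 8, 2, 4], .r 1387 [1, 6, 3] [1, 2, 4, 4], .l [9, 13, 5, 8, 6, 9, 3, 7, 2, 5], .r 3886 [1, 6, 3] [1, 1, 6, 1], .l [9, 13, 5, 8, 6, 9, 3, 7, 2, 5]]),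
([p 3 1, g, s 1 0, s 0 2, g, p 5 0, g, p 0 3, s 0 0, g, m 0 4, g, s 4 5, s 2 0, g], .hi 2, [.l [6, 2, 4, 7, 2, 10, 5, 6, 8, 5], .r 3497 [1, 6, 3] [1, 1, 4, 7], .l [6, 2, 4, 7, 2, 10, 5, 6, 8, 5], .c, .l [6, 9, 2, 12, 5, 6, 10, 7], .l [6, 4, 4, 7, 2, 10, 5, 6, 8, 5], .r 1068 [1, 6, 3] [1, 2, 3, 7], .l [13, 8, 12, 7, 5, 8, 1, 6, 8, 5], .r 3885 [1, 6, 3] [1, 4, 1, 6], .l [13, 8, 12, 7, 5, 8, 1, 6, 8, 5], .y [0, 2, 7], .l [2, 7, 4], .l [4, 7, 2, 12, 3, 6, 10, 5], .l [4, 2, 2, 5, 2, 10, 3, 6, 8, 3], .l [13, 8, 12, 9, 2, 6, 10, 7], .r 1387 [1, 6, 3] [1, 4, 2, 4], .l [9, 7, 10, 2, 8, 10, 2, 4], .l [9, 7, 10, 2, 8, 10, 2, 4], .r 1387 [1, 6, 3] [1, 4, 4, 4], .l [11, 15, 5, 10, 8, 11, 5, 9, 2, 5], .r 3886 [1, 6, 3] [1, 3, 6, 1], .l [11,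 15, 5, 10, 8, 11, 5, 9, 2, 5]]),
([p 4 1, s 0 2, g, s 1 0, s 0 3, g, p 0 4, s 0 5, g, p 7 0, g, m 0 6, g, s 6 7, s 3 0, g, s 5 0, g, s 2 0, g], .lo 1, [.l [2, 8, 5, 5, 2, 12], .r 1556 [1, 8, 4] [1, 1, 2, 13], .l [1, 19, 16, 17, 14, 9], .l [2, 6, 3, 3, 2], .l [20, 18, 19, 12, 8, 6, 3, 11, 2, 11, 4, 1], .l [6, 4, 7, 1, 14, 9, 11, 14], .l [3, 2, 4], .l [3, 2, 7, 16, 14, 2], .l [9, 7, 8, 3, 17, 14, 2, 8], .l [3, 2, 7], .l [9, 7, 8, 3, 15, 12, 2, 6], .l [3, 2, 9, 16, 12, 2], .l [11, 9, 10, 5, 17, 12, 2, 6], .l [3, 2, 9], .l [3, 2, 11, 3, 11, 6, 2, 10, 1], .l [7, 17, 6, 3, 6, 2, 9, 2, 3], .l [3, 2, 11], .l [1, 17, 6, 1, 6, 4, 12, 1], .l [3, 2, 14, 16, 7, 2], .l [3, 2, 18, 10, 3, 6, 14, 4, 2, 10, 1], .l [3, 2, 14], .l [3, 2, 14, 14,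 5, 2], .l [3, 2, 18, 10, 3, 8, 14, 4, 2, 8, 1], .l [3, 2, 18, 10, 3, 8, 14, 4, 2, 8, 1], .l [3, 2, 16], .y [1, 18], .l [3, 2, 18, 10, 3, 8, 14, 4, 2, 8, 1], .l [18, 16, 17, 12, 8, 16, 5, 2], .l [3, 2, 18]]),
([p 4 1, s 0 2, g, s 1 0, s 0 3, g, p 0 4, s 0 5, g, m 0 6, g, s 6 0, s 3 0, g, s 5 0, g, s 2 0, g], .hi 11, [.l [3, 2, 5, 2, 9, 4], .l [5, 4, 7, 2, 11, 6], .l [5, 4, 7, 2, 11, 6], .l [13, 9, 2, 11, 7, 11], .l [3, 2, 5, 2, 9, 8], .l [3, 2, 7, 4, 11, 8], .r 3891 [1, 3, 4, 6, 7] [2, 1, 1, 1, 1, 5], .l [3, 2, 7, 4, 11, 8], .r 3890 [1, 3, 4, 6, 7] [2, 1, 1, 1, 5], .l [3, 2, 5, 2, 9, 3], .l [3, 2, 5, 2, 11, 3], .r 3892 [1, 2, 3, 4, 5, 6, 7] [1, 1, 1, 1, 1, 1, 1, 1], .l [3, 2, 5, 2, 11, 3], .y [9, 11], .l [3, 2, 5, 2, 11, 1],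 .r 3889 [1, 2, 3, 4, 5, 6, 7] [1, 1, 1, 1, 1, 1, 1, 1], .l [3, 2, 5, 2, 11, 1], .l [3, 2, 5, 2, 9, 10], .l [3, 2, 5, 2, 9, 10], .l [14, 2, 8, 12, 10, 11], .l [3, 2, 5, 2, 9, 12], .l [3, 2, 5, 2, 9, 12], .l [16, 4, 10, 14, 12, 5], .l [3, 2, 5, 2, 9, 14], .l [3, 2, 5, 2, 9, 14], .l [18, 6, 12, 16, 14, 7]]),
([p 4 1, s 0 2, g, s 1 0, s 0 3, g, p 0 4, s 0 5, g, s 0 0, s 3 0, g, s 5 0, g, s 2 0, g], .lo 9, [.l [5, 4, 7, 2, 9, 4], .l [11, 7, 2, 9, 5, 9], .l [5, 4, 7, 2, 9, 4], .l [3, 2, 5, 2, 7, 4], .l [3, 2, 7, 4, 9, 6], .l [3, 2, 7, 4, 9, 6], .r 3888 [1, 3, 6, 4, 5] [2, 1, 1, 1, 1, 3], .l [3, 2, 5, 2, 9, 1], .l [3, 2, 5, 2, 9, 1], .r 3893 [1, 2, 3, 4, 5, 6] [1, 1, 1, 1, 1, 1, 1], .y [9], .c, .l [3, 2, 5, 2, 7, 8], .l [12, 2, 6,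 10, 8, 9], .l [3, 2, 5, 2, 7, 8], .l [3, 2, 5, 2, 7, 8], .l [3, 2, 5, 2, 7, 10], .l [14, 4, 8, 12, 10, 3], .l [3, 2, 5, 2, 7, 10], .l [3, 2, 5, 2, 7, 10], .l [3, 2, 5, 2, 7, 12], .l [16, 6, 10, 14, 12, 5], .l [3, 2, 5, 2, 7, 12]]),
([p 4 1, s 0 2, g, s 1 0, s 0 3, g, p 0 4, s 0 5, g, s 3 0, g, s 5 0, g, s 2 0, g], .bot 8, [.l [3, 2, 5, 2, 5, 6], .r 3894 [1, 2, 3, 4, 5] [1, 1, 1, 1, 1, 1], .r 3875 [1, 2, 3, 4, 5] [1, 1, 1, 1, 1, 1], .r 3874 [1, 2, 3, 4, 5] [1, 1, 1, 1, 1, 1]]),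
([p 4 1, s 0 2, g, s 1 0, s 0 3, g, p 7 4, s 0 5, g, m 0 6, g, m 6 0, s 5 0, g, s 0 7, g, s 2 0, g, s 3 0, g], .hi 11, [.l [3, 2, 9], .l [12, 16, 11, 2, 5, 13, 1, 5, 2, 4, 6], .l [2, 8, 5, 11], .l [3, 12], .l [3, 2, 5, 2, 8], .l [6, 12, 15, 10, 4, 2, 13, 1, 5, 2, 7], .l [5, 8, 2, 11], .l [6, 12], .l [3, 2, 6, 10, 0, 9, 2, 13], .l [9, 12, 17, 12, 13, 8, 2, 11], .l [3, 2, 5, 2, 17, 10, 3, 8, 9, 4, 1], .l [9, 12], .y [9, 11], .l [3, 2, 16, 6, 1, 9, 4, 1, 5, 2, 6], .l [3, 2, 16, 6, 1, 6, 4, 5], .l [11, 12], .l [10, 16, 11, 2, 3, 13, 1, 7, 4, 6, 3], .l [10, 20, 13, 2, 3, 16, 10, 14, 5, 1], .l [10, 18, 8, 1, 15, 17, 12, 8, 13, 4, 9], .l [10, 14, 9, 1, 15, 3, 7, 2, 6, 5], .l [10, 14, 9, 2, 3, 13, 3, 7, 2, 6, 1], .l [10, 20, 13, 2,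 3, 16, 8, 14, 7, 3], .l [10, 18, 8, 1, 15, 17, 12, 8, 13, 4, 7], .l [10, 14, 9, 2, 3, 11, 1, 5, 2, 4, 8], .l [3, 2, 14, 4, 14, 6, 2, 14], .l [3, 2, 14, 16, 11, 11, 9, 11, 9, 2], .l [10, 14, 9, 2, 3, 11, 1, 5, 2, 4, 10], .l [3, 2, 14, 4, 16, 8, 2, 5], .l [3, 2, 14, 18, 13, 13, 11, 13, 11, 2]]),
([p 4 1, s 0 2, g, s 3 0, g, s 1 0, s 0 3, g, s 0 0, p 7 4, s 0 5, g, m 0 6, g, m 6 0, s 5 0, g, s 0 7, g, s 2 0, g], .hi 8, [.l [8, 6, 8, 0, 14, 8, 9, 11, 12], .l [14, 9, 2, 12, 18, 1, 9, 13, 1, 5, 2, 5], .l [18, 11, 16, 18, 16, 10, 13, 12], .l [10, 6, 10, 0, 16], .l [14, 19, 15, 4, 19, 10, 16, 3, 7, 11, 2, 11], .l [18, 11, 16, 18, 14, 8, 11, 10], .l [10, 4, 10, 0, 16], .l [7, 9, 1, 6, 4, 15], .l [14, 19, 15, 1, 6, 2, 6, 15, 1, 5, 2,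 5], .r 2428 [8, 4] [7, 1, 11], .l [10, 1, 10, 0, 16], .y [8], .l [8, 9, 0], .l [8, 11, 16, 14, 0, 14], .l [5, 4, 19, 8, 10, 2], .l [12, 3, 17], .l [12, 3, 15], .l [0, 9, 8, 19, 6, 10, 4, 1, 5, 2, 8, 9], .l [0, 9, 8, 19, 6, 10, 4, 1, 5, 2, 8], .l [14, 5, 17], .l [18, 1, 8, 16, 15, 4], .l [5, 4, 19, 3, 10, 7], .l [17, 8, 17], .l [17, 8, 7], .l [12, 17, 13, 17, 1, 5, 2, 5], .l [5, 4, 19, 1, 10, 7], .l [19, 10, 7], .l [12, 17, 13, 19, 3, 7, 2, 7], .l [5, 4, 8, 3, 4, 14, 12, 15], .l [21, 12, 7]]),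
([p 3 1, s 0 2, g, s 1 0, s 0 0, g, s 0 0, p 6 3, s 0 4, g, m 0 5, g, m 5 0, s 4 0, g, s 0 6, g, s 2 0, g], .hi 4, [.l [3, 2, 15, 4, 8, 4, 1, 5, 2, 7, 8], .r 3897 [1, 2, 7, 3, 4, 5, 6] [1, 1, 1, 1, 1, 1, 1, 1], .l [8, 9, 0, 15, 12, 2, 12, 13], .l [5, 4, 8, 3, 4], .y [4], .l [5, 9, 3, 6, 2, 15], .l [3, 2, 8, 5, 1], .r 2057 [1, 7, 3] [1, 1, 2, 11], .l [5, 7, 1, 4, 2, 13], .l [3, 2, 6, 3, 5, 13], .r 3895 [1, 2, 7, 3, 4] [1, 2, 1, 4, 3, 1], .l [3, 2, 6, 3, 7], .l [3, 2, 17, 4, 10, 6, 1, 7, 2, 9, 4], .l [10, 15, 11, 14, 11, 2, 13, 3, 7, 2, 7], .l [11, 1, 6, 10, 6, 11, 8, 2], .l [3, 2, 6, 3, 9], .l [10, 17, 13, 8, 5, 2, 15, 1, 5, 2, 9], .l [10, 15, 8, 2, 16, 3, 10, 5, 10], .l [3, 2, 6, 3, 12], .l [10, 15, 8, 2, 16, 3, 10, 5, 10],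 .l [6, 7, 0, 13, 13, 3, 2, 11], .l [10, 17, 10, 2, 16, 1, 10, 7, 10], .l [3, 2, 6, 3, 14], .l [6, 7, 0, 13, 15, 5, 2, 13], .r 3896 [1, 2, 7, 3, 4, 5, 6] [1, 2, 1, 1, 1, 1, 1, 1], .l [3, 2, 6, 3, 16], .l [6, 7, 0, 13, 17, 7, 2, 3]]),
([p 3 1, s 0 2, g, s 1 0, s 0 0, g, s 0 0, p 5 3, s 0 4, g, m 0 0, s 4 0, g, s 0 5, g, s 2 0, g], .lo 10, [.l [17, 15, 16, 8, 2, 12], .l [12, 8], .l [10, 12, 4], .l [10, 6, 6, 8, 8, 2, 7, 10], .l [8, 10, 5, 2], .l [17, 15, 16, 8, 2, 9], .l [12, 5], .l [10, 12, 7], .l [10, 3, 11], .l [17, 15, 16, 10, 4, 1], .l [12, 1], .r 3898 [1, 2, 3, 4, 6, 5] [1, 1, 1, 1, 1, 1, 1], .y [10], .c, .l [17, 15, 16, 10, 2, 3], .l [13, 2], .l [10, 12], .l [17, 15, 16, 10, 2, 5], .l [15, 4], .l [10, 14], .l [15, 13, 14,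 8, 2, 5], .l [15, 13, 14, 8, 2, 12], .l [17, 6], .l [10, 16]]),
([p 3 1, s 0 2, g, s 1 0, s 0 0, g, p 5 3, s 0 4, g, m 0 0, s 4 0, g, s 0 5, g, s 2 0, g], .bot 5, [.r 3780 [1, 3, 5] [2, 5, 3], .r 3899 [1, 2, 3, 4, 5] [1, 1, 1, 1, 1, 1], .r 1127 [1, 3] [1, 2, 9], .r 1575 [1, 3] [1, 2, 9]]),
([p 3 1, s 0 2, g, s 1 0, g, p 5 3, s 0 4, g, m 0 0, s 4 0, g, s 0 5, g, s 2 0, g], .top 4, [.l [3, 2, 3, 0, 7], .r 3900 [1, 2, 3, 4, 5] [1, 1, 1, 1, 1, 1], .r 3498 [1, 3] [2, 1, 9], .r 3538 [1, 3] [2, 1, 9]]),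
([p 4 1, s 0 2, g, s 3 0, g, s 1 0, s 0 3, g, s 0 0, p 7 4, s 0 5, g, p 6 0, g, p 0 6, s 5 0, g, s 0 7, g, s 2 0, g], .hi 8, [.l [8, 6, 8, 0, 14, 8, 9, 11, 12], .l [14, 9, 2, 12, 18, 1, 9, 13, 1, 5, 2, 5], .l [18, 11, 16, 18, 16, 10, 13, 12], .l [10, 6, 10, 0, 16], .l [14, 19, 15, 4, 19, 10, 16, 3, 7, 11, 2, 11], .l [18, 11, 16, 18, 14, 8, 11, 10], .l [10, 4, 10, 0, 16], .l [7, 9, 1, 6, 4, 15], .l [14, 19, 15, 1, 6, 2, 6, 15, 1, 5, 2, 5], .r 2428 [8, 4] [7, 1, 11], .l [10, 1, 10, 0, 16], .y [8], .l [8, 9, 0], .l [8, 11, 16, 14, 0, 14], .l [5, 4, 19, 8, 10, 2], .l [12, 3, 17], .l [0, 9, 8, 19, 6, 10, 4, 1, 5, 2, 8, 9], .l [0, 9, 8, 19, 6, 10, 4, 1, 5, 2, 8], .l [14, 5, 17], .l [0, 9, 8, 17, 4, 8, 4, 1, 5, 2, 6], .l [18, 1, 8,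 16, 15, 4], .l [5, 4, 19, 3, 10, 7], .l [17, 8, 17], .l [17, 8, 7], .l [12, 17, 13, 17, 1, 5, 2, 5], .l [5, 4, 19, 1, 10, 7], .l [19, 10, 7], .l [12, 17, 13, 19, 3, 7, 2, 7], .l [5, 4, 8, 3, 4, 14, 12, 15], .l [21, 12, 7]]),
([p 4 1, s 0 2, g, s 1 0, s 0 3, g, p 7 4, s 0 5, g, p 6 0, g, p 0 6, s 5 0, g, s 0 7, g, s 2 0, g, s 3 0, g], .lo 11, [.l [12, 16, 11, 2, 5, 13, 1, 5, 2, 4, 6], .l [3, 12], .l [2, 8, 5, 11], .l [0, 2, 2, 9, 9, 7, 9, 7, 4, 9], .l [6, 12, 15, 10, 4, 2, 13, 1, 5, 2, 7], .l [6, 12], .l [5, 8, 2, 11], .l [9, 12, 17, 12, 13, 8, 2, 11], .l [9, 12], .l [3, 2, 5, 2, 17, 10, 3, 8, 9, 4, 1], .y [9, 11], .l [3, 2, 16, 6, 1, 9, 4, 1, 5, 2, 6], .l [11, 12], .l [3, 2, 16, 6, 1, 6, 4, 5], .l [10, 14, 9, 9, 3, 0, 9], .l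 [10, 16, 11, 2, 3, 13, 1, 7, 4, 6, 3], .l [10, 18, 8, 1, 15, 17, 12, 8, 13, 4, 9], .l [10, 20, 13, 2, 3, 16, 10, 14, 5, 1], .l [10, 14, 9, 2, 3, 13, 3, 7, 2, 6, 1], .l [10, 18, 8, 1, 15, 17, 12, 8, 13, 4, 7], .l [10, 20, 13, 2, 3, 16, 8, 14, 7, 3], .l [3, 2, 14, 14, 9, 9, 7, 9, 7, 2], .l [10, 14, 9, 2, 3, 11, 1, 5, 2, 4, 8], .l [3, 2, 14, 16, 11, 11, 9, 11, 9, 2], .l [3, 2, 14, 4, 14, 6, 2, 14], .l [8, 18, 13, 2, 9, 4, 9, 11, 7, 4], .l [10, 14, 9, 2, 3, 11, 1, 5, 2, 4, 10], .l [3, 2, 14, 18, 13, 13, 11, 13, 11, 2], .l [3, 2, 14, 4, 16, 8, 2, 5]])]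

def d15_1 : List (List Item × Qry × List Rf) := [
([p 3 1, s 0 2, g, s 1 0, s 0 0, g, s 0 0, p 6 3, s 0 4, g, p 5 0, g, p 0 5, s 4 0, g, s 0 6, g, s 2 0, g], .hi 4, [.l [3, 2, 15, 4, 8, 4, 1, 5, 2, 7, 8], .r 3902 [1, 2, 7, 3, 4, 5, 6] [1, 1, 1, 1, 1, 1, 1, 1], .l [8, 9, 0, 15, 12, 2, 12, 13], .l [5, 4, 8, 3, 4], .y [4], .l [5, 9, 3, 6, 2, 15], .l [3, 2, 8, 5, 1], .r 2057 [1, 7, 3] [1, 1, 2, 11], .l [5, 7, 1, 4, 2, 13], .l [3, 2, 6, 3, 5, 13], .r 3895 [1, 2, 7, 3, 4] [1, 2, 1, 4, 3, 1], .l [3, 2, 6, 3, 7], .l [3, 2, 17, 4, 10, 6, 1, 7, 2, 9, 4], .l [11, 1, 6, 10, 6, 11, 8, 2], .l [3, 2, 6, 3, 9], .l [10, 17, 13, 8, 5, 2, 15, 1, 5, 2, 9], .l [3, 2, 6, 3, 9], .l [10, 15, 8, 2, 16, 3, 10, 5, 10], .l [3, 2, 6, 3, 12], .l [10, 15,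 8, 2, 16, 3, 10, 5, 10], .l [6, 7, 0, 13, 13, 3, 2, 11], .l [10, 17, 10, 2, 16, 1, 10, 7, 10], .l [3, 2, 6, 3, 14], .l [6, 7, 0, 13, 15, 5, 2, 13], .r 3903 [1, 2, 7, 3, 4, 5, 6] [1, 2, 1, 1, 1, 1, 1, 1], .l [3, 2, 6, 3, 16], .l [6, 7, 0, 13, 17, 7, 2, 3]]),
([p 3 1, s 0 2, g, s 1 0, s 0 0, g, s 0 0, p 5 3, s 0 4, g, p 0 0, s 4 0, g, s 0 5, g, s 2 0, g], .hi 10, [.l [8, 10, 2, 3], .l [17, 15, 16, 8, 2, 12], .l [10, 12, 4], .l [12, 8], .l [8, 10, 5, 2], .l [17, 15, 16, 8, 2, 9], .l [10, 12, 7], .l [12, 5], .l [10, 3, 11], .l [8, 10, 9], .l [17, 15, 16, 10, 4, 1], .r 3904 [1, 2, 3, 4, 6, 5] [1, 1, 1, 1, 1, 1, 1], .l [12, 1], .y [10], .l [17, 15, 16, 10, 2, 3], .l [10, 12], .l [13, 2], .l [15, 13, 14, 8, 2, 3], .l [17, 15, 16, 10,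 2, 5], .l [10, 14], .l [15, 4], .l [15, 13, 14, 8, 2, 12], .l [10, 16], .l [17, 6]]),
([p 3 1, s 0 2, g, s 1 0, s 0 0, g, p 5 3, s 0 4, g, p 0 0, s 4 0, g, s 0 5, g, s 2 0, g], .bot 5, [.r 3780 [1, 3, 5] [2, 5, 3], .r 3905 [1, 2, 3, 4, 5] [1, 1, 1, 1, 1, 1], .r 1127 [1, 3] [1, 2, 9], .r 1575 [1, 3] [1, 2, 9]]),
([p 3 1, s 0 2, g, s 1 0, g, p 5 3, s 0 4, g, p 0 0, s 4 0, g, s 0 5, g, s 2 0, g], .top 4, [.l [3, 2, 3, 0, 7], .r 3906 [1, 2, 3, 4, 5] [1, 1, 1, 1, 1, 1], .r 3498 [1, 3] [2, 1, 9], .r 3538 [1, 3] [2, 1, 9]]),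
([p 3 1, s 0 2, g, s 1 0, g, p 5 3, s 0 4, g, s 4 0, g, s 0 5, g, s 2 0, g], .bot 7, [.c, .r 3621 [1, 2, 3, 4, 5] [1, 1, 1, 1, 1, 1], .r 3907 [1, 2, 3, 4, 5] [1, 1, 1, 1, 1, 1], .r 3901 [1, 2, 3, 4, 5] [1, 1, 1, 1, 1, 1]]),
([p 2 0, s 0 1, g, p 4 2, s 0 3, g, s 3 0, g, s 0 4, g, s 1 0, g], .hi 0, [.c, .r 3908 [5, 1, 2, 3, 4] [1, 1, 1, 1, 1, 1], .l [0, 2], .l [3, 2], .l [0, 3, 2], .l [0, 5, 7, 5, 2, 7], .l [0, 5], .l [6, 5], .l [11, 3, 9, 9, 6, 1], .l [0, 7], .l [8, 7], .y [0, 8, 3], .l [11, 1, 9, 9, 6, 1], .l [0, 9], .l [10, 9], .r 1231 [5, 1, 2, 3] [1, 1, 3, 1, 1], .l [0, 11], .l [12, 11]]),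
([p 3 1, s 0 2, g, s 1 0, g, p 4 3, s 0 0, g, s 2 4, g], .hi 6, [.l [1, 5, 3], .l [3, 7, 3], .l [5, 4, 8, 6, 4, 1], .l [3, 7, 3], .l [5, 7, 1], .l [3, 2, 8, 4, 2, 3], .l [5, 7, 1], .y [6], .l [9, 4, 8, 7, 1, 6, 0, 1], .l [9, 4, 8, 7, 1], .r 2574 [1, 3, 5] [1, 1, 1, 3], .l [3, 2, 6, 8, 6, 1], .l [7, 2, 6, 5, 6], .l [3, 2, 6, 8, 6, 1]]),
([p 2 0, s 0 1, g, p 3 2, s 0 0, g, s 1 3, g], .hi 0, [.c, .r 3910 [4, 1, 2, 3] [1, 1, 1, 1], .l [0, 2], .l [3, 2], .l [0, 3, 2], .r 1255 [4, 2] [1, 1, 3], .l [0, 5], .l [6, 5], .r 1254 [4, 1, 2] [1, 1, 1, 1], .l [0, 7], .l [8, 7]]),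
([p 2 0, s 0 1, g, s 1 0, g, p 0 2, s 0 0, g], .hi 0, [.c, .r 989 [3, 1, 2] [1, 1, 1, 2], .l [0, 2], .l [3, 2], .r 1053 [3, 1, 2] [1, 1, 1, 2], .l [0, 4], .l [5, 4], .y [0, 5], .l [0, 5, 4], .r 1203 [3, 1, 2] [1, 1, 1, 1], .l [0, 7], .l [8, 7]]),
([p 4 0, g, s 3 0, g, s 0 1, s 0 2, g, m 2 0, g, s 0 3, p 1 4, g], .lo 5, [.l [0, 4, 8], .l [1, 12, 10, 4, 8, 5], .l [2, 6, 10], .l [1, 12, 10, 4, 8], .l [7, 1, 9, 2, 4, 5, 2, 3], .l [3, 12, 8, 2, 6, 7], .l [4, 6, 10], .l [3, 12, 8, 2, 6], .l [4, 11, 8, 10, 8, 1], .l [7, 1, 8, 6, 8], .l [4, 11, 8, 10, 8, 1], .y [5, 7], .l [4, 11, 8, 10, 8, 3], .l [7, 1, 8, 6, 8], .l [4, 11, 8, 10, 8, 3], .l [4, 9, 6, 8, 6, 7], .l [7, 1, 11, 9, 6], .l [4, 9, 6, 8, 6, 7]]),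
([p 5 1, s 0 2, g, s 4 0, g, s 1 0, g, s 0 3, s 0 0, g, s 0 4, p 3 5, g, s 2 0, g], .hi 8, [.l [0, 11, 10, 6, 8, 3], .l [2, 13, 10, 6, 8, 3], .l [2, 13, 10, 6, 8], .l [3, 9, 11], .l [4, 13, 8, 4, 6, 8], .l [4, 13, 8, 4, 6], .l [5, 9, 11], .l [6, 13, 6, 2, 4, 6], .l [6, 13, 6, 2, 4], .l [7, 9, 11], .c, .y [8], .l [7, 12, 7, 11, 8, 1], .l [7, 12, 7, 11, 8, 1], .r 3913 [3, 6, 4, 5] [2, 3, 1, 1, 3], .l [7, 10, 5, 9, 6, 1], .l [7, 10, 5, 9, 6, 8], .l [7, 10, 5, 9, 6, 8], .l [5, 4, 13, 3, 6, 3], .l [7, 10, 5, 9, 6, 10], .l [7, 10, 5, 9, 6, 10], .l [5, 4, 11, 13, 8, 10]]),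
([p 5 1, s 0 2, g, s 1 0, g, s 4 0, g, s 0 3, s 0 0, g, s 0 4, p 3 5, g, s 2 0, g], .hi 8, [.l [0, 11, 10, 6, 8, 5], .l [2, 13, 10, 6, 8, 5], .l [2, 13, 10, 6, 8], .l [3, 9, 11], .l [4, 13, 8, 4, 6, 3], .l [4, 13, 8, 4, 6], .l [5, 9, 11], .l [6, 13, 6, 2, 4, 8], .l [6, 13, 6, 2, 4], .l [7, 9, 11], .c, .y [8], .l [7, 12, 9, 11, 6, 1], .l [7, 12, 9, 11, 6, 1], .r 3913 [3, 6, 4, 5] [4, 1, 1, 1, 3], .l [7, 10, 7, 9, 4, 1], .l [7, 10, 7, 9, 4, 8], .l [7, 10, 7, 9, 4, 8], .l [3, 2, 13, 3, 6, 3], .l [7, 10, 7, 9, 4, 10], .l [7, 10, 7, 9, 4, 10], .l [3, 2, 11, 13, 8, 10]]),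
([p 4 1, g, s 3 0, g, s 0 2, s 0 0, g, s 1 0, g, s 0 3, p 2 4, g], .hi 5, [.l [1, 12, 10, 4, 8, 5], .l [1, 12, 10, 4, 8], .l [2, 6, 10], .l [3, 12, 8, 2, 6, 7], .l [3, 12, 8, 2, 6], .l [4, 6, 10], .c, .y [5], .l [4, 11, 8, 10, 8, 1], .l [4, 11, 8, 10, 8, 1], .r 3913 [2, 5, 3, 4] [1, 1, 1, 3, 1], .l [4, 11, 8, 10, 8, 3], .l [4, 11, 8, 10, 8, 3], .l [0, 6, 8, 6, 8, 5], .l [4, 9, 6, 8, 6, 3], .l [4, 9, 6, 8, 6, 7], .l [4, 9, 6, 8, 6, 7], .l [0, 6, 11, 9, 6, 3]]),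
([p 4 0, s 0 1, g, s 3 0, g, s 0 2, s 0 0, g, s 0 3, p 2 4, s 0 0, g, s 1 0, g], .hi 0, [.c, .r 3915 [5, 1, 2, 3, 4] [1, 1, 1, 1, 2, 1], .l [0, 2], .l [3, 2], .r 3914 [5, 1, 2, 3, 4] [1, 1, 1, 1, 2, 1], .l [0, 4], .l [5, 4], .y [0, 5, 9], .l [0, 5, 7], .r 3916 [5, 2, 3, 4] [2, 1, 1, 1, 4], .l [0, 7], .l [8, 7], .l [8, 7, 8, 0, 2], .l [0, 9, 8], .r 1255 [5, 4] [7, 1, 3], .l [0, 11], .l [12, 11], .r 1254 [5, 1, 4] [7, 1, 1, 1], .l [0, 13], .l [14, 13]]),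
([p 0 0, g, s 2 0, g, s 0 1, s 0 2, p 1 0, g], .lo 5, [.l [0, 4, 4], .l [2, 6, 6, 3], .l [2, 6, 6], .l [6, 7, 2], .y [2, 5], .l [2, 6, 6, 3], .l [4, 6, 6], .l [2, 6, 6, 3], .l [6, 0, 0], .l [2, 4, 4, 5], .l [8, 2, 2], .l [2, 4, 4, 5]]),
([p 6 0, g, s 5 0, g, s 0 1, m 0 2, g, m 2 3, g, m 3 4, g, m 4 0, g, s 0 5, p 1 6, g], .hi 11, [.l [1, 16, 14, 10, 10, 8, 8, 6, 6, 4, 6], .l [1, 16, 14, 10], .l [2, 12], .l [3, 16, 12, 8, 8, 6, 6, 4, 4, 2, 4], .l [1, 16, 14, 12, 10, 8, 8, 6, 6, 4, 4, 2, 4], .l [4, 12], .l [3, 14, 10, 6, 6, 4, 4, 2, 2, 0, 2], .y [5, 7, 9, 11], .l [6, 9, 7, 13, 10, 12, 10, 5], .l [6, 9, 7, 13, 10, 12, 10, 5], .l [7, 12], .l [8, 11, 9, 9, 7, 11, 8, 10, 8, 3], .l [8, 11, 9, 9, 7, 11, 8, 10, 8, 3], .l [9, 12], .l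 [10, 13, 11, 11, 9, 9, 7, 9, 6, 8, 6, 1], .l [10, 13, 11, 11, 9, 9, 7, 9, 6, 8, 6, 1], .l [11, 12], .l [10, 11, 9, 9, 7, 7, 5, 9, 6, 8, 6, 1], .l [10, 11, 9, 9, 7, 7, 5, 9, 6, 8, 6, 1], .l [11, 13, 12, 12, 10, 10, 8, 8, 6, 8, 5, 7, 5], .l [1, 14, 12, 10, 10, 8, 8, 6, 6, 4, 4, 2, 3], .l [10, 11, 9, 9, 7, 7, 5, 7, 4, 6, 4, 5], .l [10, 11, 9, 9, 7, 7, 5, 7, 4, 6, 4, 5], .l [1, 14, 12, 10, 13, 11, 11, 9, 9, 7, 7, 5, 2]]),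
([p 5 0, g, s 4 0, g, s 0 1, m 0 2, g, m 2 3, g, m 3 0, g, s 0 4, p 1 5, s 0 6, g, s 6 0, g], .hi 9, [.l [1, 14, 12, 8, 8, 6, 6, 4, 6], .l [1, 14, 12, 8], .l [2, 10], .l [3, 14, 10, 6, 6, 4, 4, 2, 4], .l [3, 14, 10, 6], .l [4, 10], .l [3, 12, 8, 4, 4, 2, 2, 0, 2], .y [5, 7, 9], .l [6, 9, 7, 11, 8, 10, 8, 3], .l [6, 9, 7, 11, 8, 10, 8, 3], .l [7, 10], .l [8, 11, 9, 9, 7, 9, 6, 8, 6, 1], .l [8, 11, 9, 9, 7, 9, 6, 8, 6, 1], .l [9, 10], .l [8, 9, 7, 7, 5, 9, 6, 8, 6, 1], .l [8, 9, 7, 7, 5, 9, 6, 8, 6, 1], .r 3919 [1, 2, 3, 7, 4, 5] [1, 1, 1, 1, 1, 1, 4], .l [8, 9, 7, 7, 5, 7, 4, 6, 4, 1], .l [8, 9, 7, 7, 5, 7, 4, 6, 4, 5], .l [8, 9, 7, 7, 5, 7, 4, 6, 4, 7], .l [8, 9, 7, 7, 5, 7, 4, 6, 4, 7], .l [12, 15, 11, 11, 9, 9, 7, 9, 6, 8,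 6, 7], .l [8, 9, 7, 7, 5, 7, 4, 6, 4, 9], .l [8, 9, 7, 7, 5, 7, 4, 6, 4, 9], .l [12, 17, 13, 13, 11, 11, 9, 11, 8, 10, 8, 1]]),
([p 4 0, g, s 3 0, g, s 0 1, m 0 2, g, m 2 0, g, s 0 3, p 1 4, s 0 5, g, s 5 0, g], .hi 7, [.l [1, 12, 10, 6, 6, 4, 6], .l [1, 12, 10, 6], .l [2, 8], .l [3, 12, 8, 4, 4, 2, 4], .l [3, 12, 8, 4], .l [4, 8], .l [3, 10, 6, 2, 2, 0, 2], .y [5, 7], .l [6, 9, 7, 9, 6, 8, 6, 1], .l [6, 9, 7, 9, 6, 8, 6, 1], .l [7, 8], .l [6, 7, 5, 9, 6, 8, 6, 1], .l [6, 7, 5, 9, 6, 8, 6, 1], .r 3920 [1, 2, 6, 3, 4, 5] [1, 1, 1, 1, 1, 1, 1], .l [6, 7, 5, 7, 4, 6, 4, 1], .l [6, 7, 5, 7, 4, 6, 4, 5], .l [6, 7, 5, 7, 4, 6, 4, 7], .l [6, 7, 5, 7, 4, 6, 4, 7], .l [10, 13, 9, 9, 7, 9, 6, 8, 6, 7], .l [6, 7, 5, 7, 4, 6, 4, 9], .l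 [6, 7, 5, 7, 4, 6, 4, 9], .l [10, 15, 11, 11, 9, 11, 8, 10, 8, 1]]),
([p 3 0, g, s 2 0, g, s 0 1, m 0 0, g, s 0 2, p 1 3, s 0 4, g, s 4 0, g], .hi 5, [.l [1, 10, 8, 4, 6], .l [1, 10, 8, 4], .l [2, 6], .l [3, 10, 6, 2, 4], .l [3, 10, 6, 2], .l [4, 6], .c, .y [5], .l [4, 9, 6, 8, 6, 1], .l [4, 9, 6, 8, 6, 1], .r 3921 [1, 5, 2, 3, 4] [1, 1, 1, 1, 1, 1], .l [4, 7, 4, 6, 4, 1], .l [4, 7, 4, 6, 4, 5], .l [4, 7, 4, 6, 4, 7], .l [4, 7, 4, 6, 4, 7], .l [8, 11, 7, 9, 6, 8, 6, 7], .l [4, 7, 4, 6, 4, 9], .l [4, 7, 4, 6, 4, 9], .l [8, 13, 9, 11, 8, 10, 8, 1]]),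
([p 6 0, g, s 5 0, g, s 0 1, p 2 0, g, p 3 2, g, p 4 3, g, p 0 4, g, s 0 5, p 1 6, g], .lo 11, [.l [0, 10], .l [1, 16, 14, 10, 10, 8, 8, 6, 6, 4, 6], .l [2, 12], .l [1, 16, 14, 10], .l [1, 14, 12, 8, 8, 6, 6, 4, 4, 2, 4], .l [3, 16, 12, 8, 8, 6, 6, 4, 4, 2, 4], .l [4, 12], .l [1, 16, 14, 12, 10, 8, 8, 6, 6, 4, 4, 2, 4], .y [5, 11, 9, 7], .l [6, 9, 7, 13, 10, 12, 10, 5], .l [7, 12], .l [6, 9, 7, 13, 10, 12, 10, 5], .l [8, 11, 9, 9, 7, 11, 8, 10, 8, 3], .l [9, 12], .l [8, 11, 9, 9, 7, 11, 8, 10, 8, 3], .l [10, 13, 11, 11, 9, 9, 7, 9, 6, 8, 6, 1], .l [11, 12], .l [10, 13, 11, 11, 9, 9, 7, 9, 6, 8, 6, 1], .l [10, 11, 9, 9, 7, 7, 5, 9, 6, 8, 6, 1], .l [11, 13, 12, 12, 10, 10, 8, 8, 6, 8, 5, 7, 5], .l [10, 11, 9, 9, 7, 7, 5, 9, 6,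 8, 6, 1], .l [10, 11, 9, 9, 7, 7, 5, 7, 4, 6, 4, 5], .l [1, 14, 12, 10, 13, 11, 11, 9, 9, 7, 7, 5, 2], .l [10, 11, 9, 9, 7, 7, 5, 7, 4, 6, 4, 5]]),
([p 5 0, g, s 4 0, g, s 0 1, p 2 0, g, p 3 2, g, p 0 3, g, s 0 4, p 1 5, s 0 6, g, s 6 0, g], .lo 9, [.l [0, 8], .l [1, 14, 12, 8, 8, 6, 6, 4, 6], .l [2, 10], .l [1, 14, 12, 8], .l [1, 12, 10, 6, 6, 4, 4, 2, 4], .l [3, 14, 10, 6, 6, 4, 4, 2, 4], .l [4, 10], .l [3, 14, 10, 6], .y [5, 9, 7], .l [6, 9, 7, 11, 8, 10, 8, 3], .l [7, 10], .l [6, 9, 7, 11, 8, 10, 8, 3], .l [8, 11, 9, 9, 7, 9, 6, 8, 6, 1], .l [9, 10], .l [8, 11, 9, 9, 7, 9, 6, 8, 6, 1], .l [8, 9, 7, 7, 5, 9, 6, 8, 6, 1], .r 3923 [1, 2, 3, 7, 4, 5] [1, 1, 1, 1, 1, 1, 4], .l [8, 9, 7, 7, 5, 9, 6, 8, 6, 1], .l [8, 9, 7, 7, 5,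 7, 4, 6, 4, 7], .l [12, 15, 11, 11, 9, 9, 7, 9, 6, 8, 6, 7], .l [8, 9, 7, 7, 5, 7, 4, 6, 4, 7], .l [8, 9, 7, 7, 5, 7, 4, 6, 4, 7], .l [8, 9, 7, 7, 5, 7, 4, 6, 4, 9], .l [12, 17, 13, 13, 11, 11, 9, 11, 8, 10, 8, 1], .l [8, 9, 7, 7, 5, 7, 4, 6, 4, 9]]),
([p 4 0, g, s 3 0, g, s 0 1, p 2 0, g, p 0 2, g, s 0 3, p 1 4, s 0 5, g, s 5 0, g], .lo 7, [.l [0, 6], .l [1, 12, 10, 6, 6, 4, 6], .l [2, 8], .l [1, 12, 10, 6], .l [1, 10, 8, 4, 4, 2, 4], .l [3, 12, 8, 4, 4, 2, 4], .l [4, 8], .l [3, 12, 8, 4], .y [5, 7], .l [6, 9, 7, 9, 6, 8, 6, 1], .l [7, 8], .l [6, 9, 7, 9, 6, 8, 6, 1], .l [6, 7, 5, 9, 6, 8, 6, 1], .r 3924 [1, 2, 6, 3, 4, 5] [1, 1, 1, 1, 1, 1, 1], .l [6, 7, 5, 9, 6, 8, 6, 1], .l [6, 7, 5, 7, 4, 6, 4, 7], .l [10, 13, 9, 9, 7,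 9, 6, 8, 6, 7], .l [6, 7, 5, 7, 4, 6, 4, 7], .l [6, 7, 5, 7, 4, 6, 4, 7], .l [6, 7, 5, 7, 4, 6, 4, 9], .l [10, 15, 11, 11, 9, 11, 8, 10, 8, 1], .l [6, 7, 5, 7, 4, 6, 4, 9]]),
([p 3 0, g, s 2 0, g, s 0 1, p 0 0, g, s 0 2, p 1 3, s 0 4, g, s 4 0, g], .lo 5, [.l [0, 4], .l [1, 10, 8, 4, 6], .l [2, 6], .l [1, 10, 8, 4], .l [1, 8, 6, 2, 4], .l [3, 10, 6, 2, 4], .l [4, 6], .l [3, 10, 6, 2], .y [5], .l [4, 9, 6, 8, 6, 1], .r 3925 [1, 5, 2, 3, 4] [1, 1, 1, 1, 1, 1], .l [4, 9, 6, 8, 6, 1], .l [4, 7, 4, 6, 4, 7], .l [8, 11, 7, 9, 6, 8, 6, 7], .l [4, 7, 4, 6, 4, 7], .l [4, 7, 4, 6, 4, 7], .l [4, 7, 4, 6, 4, 9], .l [8, 13, 9, 11, 8, 10, 8, 1], .l [4, 7, 4, 6, 4, 9]]),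
([p 4 0, s 0 1, g, s 3 0, g, s 0 2, g, s 0 3, p 2 4, s 0 5, g, s 5 0, g, s 1 0, g], .top 6, [.r 3918 [2, 3] [2, 1, 6], .r 3917 [1, 2, 3, 4] [1, 1, 1, 3, 1], .r 3926 [2, 3, 4, 5] [2, 1, 1, 1, 3], .r 3922 [2, 3, 4, 5] [2, 1, 1, 1, 3]]),
([p 4 0, s 0 1, g, s 3 0, g, s 0 2, g, s 0 3, p 2 4, s 0 0, g, s 1 0, g], .hi 9, [.l [1, 8, 6], .l [3, 10, 6], .l [6, 3, 9, 3, 2], .l [3, 10, 6], .l [5, 10, 4], .l [6, 1, 9, 3, 2], .l [5, 10, 4], .l [5, 8, 2], .l [7, 10, 2], .l [9, 2, 10, 0, 4], .l [7, 10, 2], .l [7, 8, 0], .y [9], .r 3927 [1, 2, 3, 4, 5] [1, 1, 1, 1, 1, 1], .r 3641 [4, 5] [6, 1, 3], .r 3640 [4, 5] [7, 1, 3], .r 453 [1, 4, 5] [6, 1, 1, 1], .r 3641 [4, 5] [6, 3, 1], .r 3640 [4, 5] [7, 3, 1]]),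
([p 2 0, s 0 1, g, p 4 2, s 0 3, g, s 3 4, g, s 1 0, g], .hi 0, [.c, .l [3, 2, 8, 4, 2, 2, 0, 1], .l [0, 2], .l [3, 2], .y [0, 4, 6, 3], .l [0, 5, 7, 5, 2, 5], .l [0, 5], .l [6, 5], .l [9, 1, 7, 7, 4, 1], .l [0, 7], .l [8, 7], .l [0, 9, 6, 2, 2, 0, 4, 1], .l [0, 9], .l [10, 9]]),
([p 2 0, g, p 3 0, g, s 1 0, g, s 0 1, p 4 2, g, s 0 3, s 0 4, g], .lo 9, [.l [6, 1, 6, 0, 6, 5], .l [8, 1, 8, 0, 8, 5], .l [8, 1, 8, 0, 8, 5], .l [1, 9, 7, 8, 1, 8, 1], .y [2, 9], .l [8, 1, 8, 0, 8, 3], .l [8, 1, 8, 0, 8, 3], .l [1, 9, 7, 8, 1, 8, 1], .l [9, 4, 4, 2, 6, 5], .l [8, 3, 8, 0, 8, 1], .l [8, 9, 0, 10, 3], .l [8, 3, 8, 0, 8, 1], .l [6, 1, 6, 0, 8, 1], .l [6, 1, 6, 0, 8, 1], .l [10, 8, 9, 3, 3, 8, 5], .l [6, 1, 6, 0, 6, 7], .l [1, 7, 5, 6,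 9, 2, 6], .l [6, 1, 6, 0, 6, 7]]),
([p 2 0, g, s 1 0, g, s 0 1, p 4 2, s 0 0, g, p 3 0, g, s 0 3, s 0 4, g], .hi 0, [.r 3863 [5, 1, 2, 3, 4] [1, 1, 1, 2, 1, 1], .l [0, 1], .l [2, 1], .r 3868 [5, 1, 2, 3, 4] [1, 1, 1, 2, 1, 1], .l [0, 3], .l [4, 3], .l [4, 3, 4, 0, 8], .l [0, 5, 4], .r 3639 [5, 2] [4, 1, 6], .l [0, 7], .l [8, 7], .r 3639 [5, 2] [4, 3, 4], .l [0, 9], .l [10, 9], .l [4, 1, 4, 0, 8, 7], .y [0, 11, 5], .r 3639 [5, 2] [4, 6, 1], .l [0, 12], .l [13, 12]]),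
([p 2 0, g, s 1 0, g, s 0 1, p 5 2, s 0 3, g, s 0 4, s 0 5, g, m 4 0, g, s 3 0, g], .lo 4, [.l [4, 3, 4, 0, 6], .l [5, 7, 1, 2, 11, 2, 8, 1], .l [6, 3, 6, 0, 8], .l [5, 7, 1, 2, 11, 2, 8, 1], .y [2, 4], .l [5, 7, 1, 4, 11, 2, 6, 7], .l [6, 1, 6, 0, 8], .l [5, 7, 1, 4, 11, 2, 6, 7], .l [3, 5, 1, 6, 11, 2, 4, 5], .l [8, 3, 9], .l [3, 5, 1, 6, 11, 2, 4, 5], .l [3, 5, 1, 2, 11, 4, 8, 5], .l [11, 6, 3], .l [4, 10, 12, 7, 0, 9, 2, 9], .l [4, 10, 10, 5, 0, 7, 2, 7], .l [3, 5, 1, 2, 9, 2, 6, 7], .l [13, 8, 3], .l [3, 5, 1, 2, 9, 2, 6, 7], .l [3, 5, 1, 2, 9, 2, 6, 7], .l [3, 5, 1, 2, 9, 2, 6, 9], .l [15, 10, 3], .l [3, 5, 1, 2, 9, 2, 6, 9]]),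
([p 2 0, g, s 1 0, g, s 0 1, p 5 2, s 0 3, g, s 0 4, s 0 5, g, s 3 0, g, m 4 0, g], .lo 4, [.l [4, 3, 4, 0, 6], .l [5, 7, 1, 2, 13, 4, 10, 1], .l [6, 3, 6, 0, 8], .l [5, 7, 1, 2, 13, 4, 10, 1], .y [2, 4], .l [5, 7, 1, 4, 13, 4, 8, 9], .l [6, 1, 6, 0, 8], .l [5, 7, 1, 4, 13, 4, 8, 9], .l [3, 5, 1, 6, 13, 4, 6, 7], .l [8, 3, 9], .l [3, 5, 1, 6, 13, 4, 6, 7], .l [3, 5, 1, 2, 13, 6, 10, 7], .l [11, 6, 3], .l [4, 10, 12, 7, 0, 8], .l [3, 5, 1, 2, 11, 4, 8, 5], .l [3, 5, 1, 2, 13, 6, 10, 5], .l [13, 8, 3], .l [4, 12, 14, 7, 0, 9, 2, 9], .l [4, 12, 12, 5, 0, 7, 2, 7], .l [3, 5, 1, 2, 11, 4, 8, 9], .l [15, 10, 3], .l [3, 5, 1, 2, 11, 4, 8, 9]]),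
([p 2 0, g, s 1 0, g, s 0 1, p 4 2, s 0 3, g, s 0 0, s 0 4, g, s 3 0, g], .hi 8, [.l [6, 1, 6, 0, 8, 5], .r 3930 [1, 2, 5, 4] [1, 1, 1, 2, 3], .l [6, 1, 6, 0, 8, 5], .l [6, 3, 6, 0, 8, 3], .l [6, 3, 6, 0, 8, 3], .l [6, 7, 0, 9, 4], .l [4, 1, 4, 0, 6, 3], .l [4, 1, 4, 0, 6, 1], .l [4, 1, 4, 0, 8, 1], .r 3931 [1, 2, 5, 4] [1, 1, 1, 1, 3], .l [4, 1, 4, 0, 8, 1], .y [8], .c, .l [4, 1, 4, 0, 6, 7], .l [4, 1, 4, 0, 6, 7], .r 3932 [1, 2, 3, 5, 4] [1, 1, 1, 1, 1, 1], .l [4, 1, 4, 0, 6, 9], .l [4, 1, 4, 0, 6, 9], .r 3933 [1, 2, 3, 5, 4] [1, 1, 1, 1, 1, 1]]),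
([p 2 1, s 6 0, g, s 1 0, g, p 4 0, g, p 5 2, s 0 3, g, p 0 4, s 0 5, g, s 3 0, g, s 0 6, g], .lo 10, [.l [3, 2, 8], .l [2, 9, 6, 10, 4, 9, 3], .l [3, 11], .l [2, 9, 6, 10], .l [0, 2, 2, 7, 2, 6, 2], .l [4, 9, 4, 10, 6, 9, 1], .l [5, 11], .l [4, 9, 4, 10], .y [5, 10], .l [3, 2, 15, 9, 4, 9, 4, 5], .l [7, 11], .l [3, 2, 15, 9, 4, 9, 4, 5], .l [9, 2, 11, 7, 1, 2, 11, 3, 8, 1], .l [10, 11], .l [9, 12, 7, 9, 4, 1], .l [9, 2, 9, 5, 1, 2, 11, 5, 8, 5], .l [9, 2, 9, 5, 1, 2, 11, 5, 8, 5], .l [9, 10, 5, 7, 2, 10], .l [9, 2, 9, 5, 1, 2, 9, 3, 6, 3], .l [9, 2, 9, 5, 1, 2, 11, 5, 8, 3], .l [9, 2, 9, 5, 1, 2, 11, 5, 8, 3], .l [9, 10, 5, 7, 2, 12], .l [3, 2, 13, 15, 10, 2, 9, 5], .l [3, 2, 13, 15, 10, 2, 9, 5], .l [9, 10, 5, 7, 2, 14]]),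
([p 2 0, g, s 0 1, p 0 2, s 0 0, g, s 1 0, g], .top 1, [.r 1256 [2] [3], .r 3851 [1, 2] [1, 1, 1], .r 334 [] [7], .r 444 [] [7]]),
([p 1 0, g, s 0 0, p 4 1, s 0 2, g, p 3 0, g, p 0 3, s 0 4, g, s 2 0, g], .hi 2, [.l [4, 1, 7, 11, 8, 0, 4, 7], .r 2428 [5, 1] [1, 1, 9], .l [4, 1, 4, 0, 8], .y [2], .l [2, 3, 0], .l [2, 5, 12, 10, 0, 6], .l [2, 5, 12, 10, 0, 6], .l [6, 3, 9], .l [2, 7, 9, 7, 11, 9, 0, 5], .l [2, 7, 9, 7, 11, 9, 0, 5], .l [8, 5, 9], .l [2, 7, 7, 5, 9, 7, 0, 3], .l [9, 6, 5], .l [2, 10, 12, 5, 0, 8], .l [2, 10, 12, 5, 0, 8], .l [11, 8, 5], .r 3936 [5, 1] [1, 8, 1], .r 3850 [5, 1] [1, 8, 1], .l [13, 10, 5]]),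
([p 1 0, g, p 4 1, s 0 2, g, p 3 0, g, p 0 3, s 0 4, g, s 2 0, g], .bot 1, [.r 334 [] [9], .r 3937 [1, 2, 3, 4] [1, 1, 1, 1, 1], .r 1201 [1] [1, 9], .r 2849 [1] [1, 9]]),
([p 2 1, s 5 0, g, s 1 0, g, p 4 2, s 0 3, g, p 0 0, s 0 4, g, s 3 0, g, s 0 5, g], .hi 8, [.l [6, 7, 0, 9, 5], .l [6, 1, 4, 5, 0, 7, 4], .l [10, 6], .l [6, 7, 0, 9, 3], .r 3935 [1, 2, 3, 6, 4, 5] [1, 1, 1, 1, 1, 1, 1], .l [10, 4], .l [4, 5, 0, 7, 1], .l [4, 5, 0, 9, 1], .r 3938 [2, 3, 6, 4] [4, 1, 1, 1, 3], .l [10, 1], .y [8], .c, .l [4, 5, 0, 7, 8], .l [8, 10], .l [11, 2], .l [4, 5, 0, 7, 10], .l [8, 12], .l [13, 4], .l [4, 5, 0, 7, 10], .l [4, 5, 0, 7, 12], .l [8, 14], .l [15, 6]]),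
([p 2 1, s 0 0, g, s 1 0, g, p 4 2, s 0 3, g, p 0 0, s 0 4, g, s 3 0, g], .lo 1, [.y [1], .r 1018 [1, 5, 2] [1, 1, 1, 7], .r 1556 [1, 5, 2] [1, 1, 1, 7], .l [2, 7, 4, 4, 1], .l [2, 5, 2, 2, 1], .r 2175 [1, 5, 2] [1, 1, 1, 7], .r 2050 [1, 5, 2] [1, 1, 1, 7], .l [3, 2, 3], .l [3, 2, 6, 11, 9, 1], .l [4, 8, 4, 5, 10, 6, 0, 2], .l [3, 2, 6], .l [4, 5, 0, 7, 5], .l [3, 2, 9, 11, 6, 1], .l [4, 11, 7, 8, 10, 3, 0, 4], .l [3, 2, 9], .l [3, 2, 9, 9, 4, 1], .r 3939 [1, 2, 3, 4, 5] [1, 1, 1, 1, 1, 1], .r 3458 [1, 2, 5] [1, 1, 7, 1], .l [3, 2, 11]]),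
([p 1 0, s 0 0, g, p 3 1, s 0 2, g, p 0 0, s 0 3, g, s 2 0, g], .hi 0, [.c, .r 3940 [4, 1, 2, 3] [1, 1, 1, 1, 1], .l [0, 2], .l [3, 2], .l [0, 3, 2], .r 1255 [4, 1] [1, 1, 6], .l [0, 5], .l [6, 5], .l [0, 5], .y [0, 7, 3], .r 1255 [4, 1] [1, 4, 3], .l [0, 8], .l [9, 8], .r 1255 [4, 1] [1, 6, 1], .l [0, 10], .l [11, 10]]),
([p 3 1, s 6 0, g, s 1 0, g, m 0 2, g, p 5 3, s 0 4, g, m 2 0, s 0 5, g, s 4 0, g, s 0 6, g], .hi 10, [.l [2, 9, 6, 10, 4, 9, 3], .l [2, 9, 6, 10], .l [3, 11], .l [4, 9, 4, 10, 6, 9, 1], .l [4, 9, 4, 10], .l [5, 11], .y [5, 10], .l [3, 2, 15, 9, 4, 9, 4, 5], .l [3, 2, 15, 9, 4, 9, 4, 5], .l [7, 11], .l [3, 2, 13, 1, 4, 7, 5, 5, 2, 5], .l [9, 2, 11, 7, 1, 2, 11, 3, 8, 1], .l [9, 12, 7, 9, 4, 1], .l [10, 11],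 .l [9, 11, 8, 8, 1, 0, 4], .l [9, 2, 9, 5, 1, 2, 11, 5, 8, 5], .l [9, 10, 5, 7, 2, 10], .l [9, 2, 9, 5, 1, 2, 11, 5, 8, 5], .l [9, 2, 9, 5, 1, 2, 11, 5, 8, 3], .l [9, 10, 5, 7, 2, 12], .l [9, 2, 9, 5, 1, 2, 11, 5, 8, 3], .l [3, 2, 13, 13, 8, 2, 7, 3], .l [3, 2, 13, 15, 10, 2, 9, 5], .l [9, 10, 5, 7, 2, 14], .l [3, 2, 13, 15, 10, 2, 9, 5]]),
([p 1 0, g, s 0 0, p 4 1, s 0 2, g, m 0 3, g, m 3 0, s 0 4, g, s 2 0, g], .hi 2, [.l [4, 1, 7, 11, 8, 0, 4, 7], .r 2428 [5, 1] [1, 1, 9], .l [4, 1, 4, 0, 8], .y [2], .l [2, 3, 0], .l [2, 5, 12, 10, 0, 6], .l [2, 5, 12, 10, 0, 6], .l [6, 3, 9], .l [6, 3, 7], .l [2, 7, 9, 7, 11, 9, 0, 5], .l [2, 7, 9, 7, 11, 9, 0, 5], .l [8, 5, 9], .l [9, 6, 5], .l [2, 10, 12, 5, 0, 8], .l [2, 10, 12, 5, 0,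 8], .l [11, 8, 5], .r 3936 [5, 1] [1, 8, 1], .r 3850 [5, 1] [1, 8, 1], .l [13, 10, 5]]),
([p 1 0, g, p 4 1, s 0 2, g, m 0 3, g, m 3 0, s 0 4, g, s 2 0, g], .bot 1, [.r 334 [] [9], .r 3943 [1, 2, 3, 4] [1, 1, 1, 1, 1], .r 1201 [1] [1, 9], .r 2849 [1] [1, 9]]),
([p 2 1, s 5 0, g, s 1 0, g, p 4 2, s 0 3, g, m 0 0, s 0 4, g, s 3 0, g, s 0 5, g], .lo 8, [.l [4, 5, 0, 7, 5], .l [6, 7, 0, 9, 5], .l [10, 6], .l [6, 1, 4, 5, 0, 7, 4], .l [4, 5, 0, 7, 3], .l [6, 7, 0, 9, 3], .l [10, 4], .r 3942 [1, 6, 2, 3, 4, 5] [1, 1, 1, 1, 1, 1, 1], .l [4, 5, 0, 9, 1], .l [10, 1], .r 3944 [2, 3, 6, 4] [4, 1, 1, 1, 3], .y [8], .l [4, 5, 0, 7, 8], .l [11, 2], .l [8, 10], .l [4, 5, 0, 7, 8], .l [4, 5, 0, 7, 10], .l [13, 4], .l [8, 12], .l [4, 5, 0, 7,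 12], .l [15, 6], .l [8, 14]]),
([p 2 1, s 0 0, g, s 1 0, g, p 4 2, s 0 3, g, m 0 0, s 0 4, g, s 3 0, g], .lo 1, [.y [1], .r 1018 [1, 5, 2] [1, 1, 1, 7], .r 1556 [1, 5, 2] [1, 1, 1, 7], .l [2, 7, 4, 4, 1], .l [2, 5, 2, 2, 1], .r 2175 [1, 5, 2] [1, 1, 1, 7], .r 2050 [1, 5, 2] [1, 1, 1, 7], .l [3, 2, 3], .l [3, 2, 6, 11, 9, 1], .l [4, 8, 4, 5, 10, 6, 0, 2], .l [3, 2, 6], .l [3, 2, 6], .l [3, 2, 9, 11, 6, 1], .l [4, 11, 7, 8, 10, 3, 0, 4], .l [3, 2, 9], .l [3, 2, 9, 9, 4, 1], .r 3945 [1, 2, 3, 4, 5] [1, 1, 1, 1, 1, 1], .r 3458 [1, 2, 5] [1, 1, 7, 1], .l [3, 2, 11]]),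
([p 1 0, s 0 0, g, p 3 1, s 0 2, g, m 0 0, s 0 3, g, s 2 0, g], .hi 0, [.c, .r 3946 [4, 1, 2, 3] [1, 1, 1, 1, 1], .l [0, 2], .l [3, 2], .l [0, 3, 2], .r 1255 [4, 1] [1, 1, 6], .l [0, 5], .l [6, 5], .l [6, 5], .y [0, 7, 3], .r 1255 [4, 1] [1, 4, 3], .l [0, 8], .l [9, 8], .r 1255 [4, 1] [1, 6, 1], .l [0, 10], .l [11, 10]]),
([p 2 0, s 0 0, g, s 1 0, g, s 0 1, p 4 2, s 0 3, g, s 0 4, g, s 3 0, g], .bot 8, [.l [5, 1, 5, 0, 5, 6], .r 3934 [1, 2, 3, 4] [2, 1, 1, 1, 1], .r 3941 [2, 3, 4] [4, 1, 1, 1], .r 3947 [2, 3, 4] [4, 1, 1, 1]]),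
([p 7 1, g, s 0 2, g, s 6 0, p 3 0, g, p 4 3, g, p 5 4, g, p 0 5, g, s 1 0, g, s 0 6, p 2 7, g], .lo 11, [.l [15, 14, 17, 2, 15, 10, 10, 8, 8, 6, 6, 4, 6, 3], .l [2, 12], .l [0, 14, 12, 10, 10, 8, 8, 6, 6, 4, 7, 8, 6], .l [15, 14, 17, 2, 13, 8, 8, 6, 6, 4, 4, 2, 4, 5], .l [4, 12], .l [0, 14, 10, 8, 8, 6, 6, 4, 4, 2, 7, 8, 6], .l [3, 16, 12, 6, 6, 4, 4, 2, 2, 0, 3], .y [5, 11, 9, 7], .l [6, 18, 11, 5, 5, 3, 3, 1, 1, 9, 4, 1], .l [7, 12], .l [5, 18, 12, 3, 15, 4, 1, 7, 9, 1, 9, 1, 7], .l [8, 11, 9, 16, 9, 3, 3, 1, 1, 9, 4, 1], .l [9, 12], .l [5, 18, 12, 1, 15, 4, 1, 11, 3, 3, 1, 1, 7], .l [10, 13, 11, 11, 9, 14, 7, 1, 1, 9, 4, 1], .l [11, 12], .l [7, 9, 8, 17, 10, 1, 13, 4, 1, 9, 1, 1, 7], .l [12, 18, 5, 15, 15, 13, 13, 11, 11,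 9, 4, 1], .l [11, 13, 12, 12, 10, 10, 8, 13, 6, 1, 9, 4, 1], .l [9, 11, 10, 10, 8, 15, 8, 1, 11, 4, 1, 7, 7], .l [0, 12, 12, 10, 10, 8, 8, 6, 6, 4, 5, 6, 4], .l [14, 18, 3, 13, 13, 11, 11, 9, 9, 7, 4, 1], .l [0, 12, 14, 12, 12, 10, 10, 8, 8, 6, 7, 8, 4], .l [9, 11, 10, 10, 8, 15, 8, 1, 11, 4, 1, 5, 7], .l [13, 12, 15, 2, 15, 10, 10, 8, 8, 6, 6, 4, 6, 3], .l [0, 12, 17, 15, 15, 13, 13, 11, 11, 9, 5, 6, 4], .l [7, 9, 8, 15, 8, 1, 11, 4, 1, 7, 9, 1, 7]]),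
([p 7 1, s 0 2, g, s 0 3, g, s 6 0, p 4 0, g, p 5 4, g, p 0 5, g, s 1 0, g, s 0 6, p 3 7, g, s 2 0, g], .lo 10, [.l [14, 13, 16, 2, 13, 8, 8, 6, 6, 4, 6, 3], .l [3, 11], .l [0, 13, 10, 8, 8, 6, 6, 4, 8, 9, 7, 8], .l [14, 13, 16, 2, 11, 6, 6, 4, 4, 2, 4, 5], .l [5, 11], .l [0, 13, 8, 6, 6, 4, 4, 2, 8, 9, 7, 8], .l [4, 15, 10, 4, 4, 2, 2, 0, 3], .y [6, 10, 8], .l [7, 17, 9, 3, 3, 1, 1, 10, 5, 2], .l [8, 11], .l [7, 10, 8, 15, 9, 3], .l [9, 12, 10, 15, 7, 1, 1, 10, 5, 2], .l [10, 11], .l [9, 12, 10, 10, 8, 13, 7, 1], .l [11, 17, 5, 14, 14, 12, 12, 10, 5, 2], .r 3949 [1, 3, 4, 5, 8, 6, 7] [2, 1, 1, 1, 1, 1, 1, 3], .l [9, 10, 8, 8, 6, 13, 7, 1], .l [0, 11, 11, 9, 9, 7, 7, 5, 6, 7, 5, 6], .l [13, 17, 3, 12, 12, 10, 10, 8, 5, 2], .l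 [0, 11, 13, 11, 11, 9, 9, 7, 8, 9, 5, 8], .l [9, 10, 8, 8, 6, 13, 7, 3], .l [12, 11, 14, 2, 15, 10, 10, 8, 8, 6, 8, 5], .l [0, 11, 16, 14, 14, 12, 12, 10, 6, 7, 5, 8], .l [9, 10, 8, 8, 6, 11, 5, 11], .l [12, 11, 15, 15, 8, 8, 6, 6, 4, 7], .l [12, 11, 14, 2, 17, 12, 12, 10, 10, 8, 10, 7], .l [0, 11, 18, 16, 16, 14, 14, 12, 6, 7, 5, 6], .l [9, 10, 8, 8, 6, 11, 5, 13]]),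
([p 6 1, s 0 2, g, s 0 3, g, s 5 0, p 4 0, g, p 0 4, g, s 1 0, g, s 0 5, p 3 6, g, s 2 0, g], .lo 8, [.l [12, 11, 14, 2, 11, 6, 6, 4, 6, 3], .l [3, 9], .l [0, 11, 8, 6, 6, 4, 8, 9, 7, 8], .l [12, 11, 14, 2, 9, 4, 4, 2, 4, 5], .l [5, 9], .l [0, 11, 6, 4, 4, 2, 8, 9, 7, 8], .l [4, 13, 8, 6, 3, 4, 3], .y [6, 8], .l [7, 15, 7, 1, 1, 10, 5, 2], .l [8, 9], .l [7, 10, 8, 13, 7, 1], .l [9, 15, 5, 12, 12, 10, 5, 2], .r 3950 [1, 2, 3, 4, 7, 5, 6] [1, 1, 1, 1, 1, 1, 1, 1], .l [7, 8, 6, 13, 7, 1], .l [0, 9, 9, 7, 7, 5, 6, 7, 5, 6], .l [11, 15, 3, 10, 10, 8, 5, 2], .l [0, 9, 11, 9, 9, 7, 8, 9, 5, 8], .l [7, 8, 6, 13, 7, 3], .l [10, 9, 12, 2, 13, 8, 8, 6, 8, 5], .l [0, 9, 14, 12, 12, 10, 6, 7, 5, 8], .l [7, 8, 6, 11, 5, 11], .l [10, 9, 13,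 13, 6, 6, 4, 7], .l [10, 9, 12, 2, 15, 10, 10, 8, 10, 7], .l [0, 9, 16, 14, 14, 12, 6, 7, 5, 6], .l [7, 8, 6, 11, 5, 13]]),
([p 5 1, s 0 2, g, s 0 3, g, s 4 0, p 0 0, g, s 1 0, g, s 0 4, p 3 5, g, s 2 0, g], .lo 6, [.l [4, 13, 8, 7, 4, 8], .l [3, 7], .l [0, 9, 6, 4, 8, 9, 7, 8], .l [2, 13, 10, 9, 4, 5], .l [5, 7], .l [0, 9, 4, 2, 8, 9, 7, 8], .c, .y [6], .l [2, 13, 10, 9, 6, 1], .r 3951 [1, 2, 3, 6, 4, 5] [1, 1, 1, 1, 1, 1, 1], .l [2, 13, 10, 9, 6, 1], .l [0, 7, 7, 5, 6, 7, 5, 6], .l [2, 13, 10, 9, 6, 3], .l [0, 7, 9, 7, 8, 9, 5, 8], .l [2, 13, 10, 9, 6, 3], .l [2, 11, 8, 7, 4, 8], .l [0, 7, 12, 10, 6, 7, 5, 8], .l [2, 11, 8, 7, 4, 8], .l [2, 11, 8, 7, 4, 8], .l [2, 11, 8, 7, 4, 10], .l [0, 7, 14, 12, 6, 7, 5, 6], .l [2, 11,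 8, 7, 4, 10]]),
([p 3 0, s 0 0, g, s 2 0, g, s 0 1, g, s 0 2, p 1 3, s 0 0, g], .hi 1, [.y [1], .r 3912 [4, 3] [1, 6, 1], .r 454 [4] [1, 9], .r 854 [4, 3] [1, 6, 2], .r 3912 [4, 3] [3, 4, 1], .r 454 [4] [3, 7], .r 854 [4, 3] [3, 4, 2], .r 3912 [4, 3] [3, 2, 1], .r 3912 [4, 3] [5, 2, 1], .r 454 [4] [5, 5], .r 854 [4, 3] [5, 2, 2], .r 3912 [4, 3] [5, 0, 1], .l [1, 8, 6], .r 3928 [4, 1, 2, 3] [1, 1, 1, 1, 1], .r 454 [4] [9, 1], .r 853 [4, 3] [6, 2, 1]]),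
([p 6 1, s 0 2, g, s 1 0, s 8 0, g, m 0 3, g, m 3 0, s 0 4, g, s 5 0, g, s 0 5, p 4 6, s 0 7, g, s 7 0, g, s 0 8, g, s 2 0, g], .hi 8, [.l [1, 20, 12, 18, 0, 11, 1, 5, 14, 4], .l [0, 4, 1, 7, 13, 8, 18, 7, 14, 4], .l [0, 4, 1, 7, 13, 8, 18, 7, 14, 4], .l [3, 9], .l [3, 2, 5, 8, 14, 8, 17, 5, 13, 4], .l [3, 2, 21, 16, 3, 3, 1, 8, 15, 1], .l [6, 9], .y [6, 8], .l [9, 16, 6, 13, 1, 11, 4], .l [0, 16, 15, 21, 14, 1, 14, 12, 4, 1], .l [8, 9], .l [7, 14, 6, 0, 10], .l [3, 2, 21, 14, 2, 7, 16, 3, 1, 8, 12], .l [3, 2, 21, 14, 2, 7, 16, 3], .l [7, 21, 17, 2, 19, 1, 14, 6, 1, 5, 12, 9], .l [3, 2, 21, 14, 4, 7, 16, 3, 1, 10, 12], .l [3, 2, 21, 14, 4, 7, 16, 3], .l [7, 21, 17, 2, 19, 1, 14, 6, 6, 13, 8], .l [8, 14, 5, 4, 11], .l [7, 14,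 6, 13, 1, 11, 4], .l [7, 14, 6, 15, 3, 13, 4], .l [7, 8, 6, 13, 7, 14], .l [14, 17, 10, 16, 8, 15, 1, 11, 4, 1], .l [7, 14, 6, 17, 5, 15, 4], .l [7, 8, 6, 13, 7, 16], .l [16, 19, 10, 16, 8, 15, 1, 11, 4, 1], .l [7, 14, 6, 17, 5, 15, 4], .l [7, 14, 6, 19, 7, 17, 4], .l [4, 18, 10, 18, 5, 10, 1, 3, 13, 4], .l [16, 21, 12, 18, 10, 17, 1, 11, 4, 1], .l [7, 14, 6, 21, 9, 19, 4], .l [1, 20, 12, 20, 2, 12, 1, 5, 15, 4], .l [16, 23, 14, 20, 12, 19, 1, 11, 4, 1]]),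
([p 5 1, s 0 0, g, s 1 0, s 7 0, g, m 0 2, g, m 2 0, s 0 3, g, s 4 0, g, s 0 4, p 3 5, s 0 6, g, s 6 0, g, s 0 7, g], .hi 1, [.y [1], .l [2, 16, 13, 13, 10, 17], .l [2, 16, 13, 13, 10], .r 578 [1, 8, 5] [1, 1, 10, 6], .r 989 [1, 8, 5] [1, 2, 9, 6], .l [3, 2, 4], .l [8, 5, 7, 3, 14, 7, 12, 10, 4, 1], .l [6, 4, 13, 7, 8, 6, 4], .l [8, 6, 15, 7, 10, 8, 4, 1], .l [3, 2, 6], .l [8, 6, 15, 7, 10, 8, 4], .l [3, 2, 7, 7, 11, 1], .r 989 [1, 8, 5] [1, 7, 4, 6], .l [3, 2, 9], .l [15, 1, 11, 12, 3, 12, 0, 5], .r 989 [1, 8, 5] [1, 9, 2, 6], .l [3, 2, 11], .l [8, 16, 7, 6, 3, 1, 4, 5], .l [8, 14, 5, 4, 4, 5], .l [0, 14, 13, 13, 10, 15], .l [3, 2, 15, 17, 15, 10], .l [3, 2, 15], .l [13, 1, 13, 0, 8, 14, 6, 7], .l [3, 2, 17, 10, 11, 10, 4,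 1, 15, 4, 10, 1], .l [3, 2, 17], .l [13, 1, 13, 0, 8, 16, 8, 9], .l [13, 1, 13, 0, 8, 16, 11, 2, 9], .r 3954 [1, 8, 2, 3, 4, 5, 6, 7] [1, 1, 1, 1, 1, 1, 1, 1, 1], .l [3, 2, 19], .l [13, 1, 13, 0, 8, 18, 10, 11]]),
([p 4 1, s 0 0, g, s 1 0, s 6 0, g, m 0 0, s 0 2, g, s 3 0, g, s 0 3, p 2 4, s 0 5, g, s 5 0, g, s 0 6, g], .lo 6, [.l [6, 4, 11, 5, 4], .l [8, 4, 13, 5, 4], .l [8, 4], .l [5, 4, 13, 8, 10, 7, 4], .l [3, 2, 11, 8, 8, 5, 4], .l [6, 1, 11, 5, 4], .l [8, 1, 13, 5, 4], .l [8, 1], .r 3955 [1, 7, 2, 3, 4, 5, 6] [1, 1, 1, 1, 1, 1, 1, 1], .y [6], .l [9, 2, 12], .l [9, 2], .l [6, 8], .l [9, 2, 10], .l [11, 4, 12], .l [11, 4], .l [6, 10], .l [11, 1, 11, 0, 6, 11], .l [15, 8], .l [6, 14], .l [11, 1, 11, 0, 6, 11], .l [11, 1,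 11, 0, 6, 13], .l [17, 10], .l [6, 16], .l [11, 1, 11, 0, 6, 15], .l [19, 12], .l [6, 18]]),
([p 6 1, s 0 2, g, s 1 0, s 8 0, g, p 3 0, g, p 0 3, s 0 4, g, s 5 0, g, s 0 5, p 4 6, s 0 7, g, s 7 0, g, s 0 8, g, s 2 0, g], .lo 8, [.l [0, 4, 1, 7, 13, 8, 18, 7, 14, 4], .l [3, 9], .l [0, 4, 1, 7, 13, 8, 18, 7, 14, 4], .l [0, 2, 1, 19, 12, 15, 3, 1, 12, 4, 1, 10, 6, 1], .l [3, 2, 13, 10, 3], .l [3, 2, 5, 8, 14, 8, 17, 5, 13, 4], .l [6, 9], .l [3, 2, 21, 16, 3, 3, 1, 8, 15, 1], .y [6, 8], .l [9, 16, 6, 13, 1, 11, 4], .l [8, 9], .l [0, 16, 15, 21, 14, 1, 14, 12, 4, 1], .l [3, 2, 21, 14, 2, 7, 16, 3, 1, 8, 12], .l [7, 21, 17, 2, 19, 1, 14, 6, 1, 5, 12, 9], .l [3, 2, 21, 14, 2, 7, 16, 3], .l [3, 2, 19, 12, 2, 5, 14, 3, 1, 8, 10], .l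 [3, 2, 21, 14, 4, 7, 16, 3, 1, 10, 12], .l [7, 21, 17, 2, 19, 1, 14, 6, 6, 13, 8], .l [3, 2, 21, 14, 4, 7, 16, 3], .l [7, 14, 6, 15, 3, 13, 4], .l [14, 17, 10, 16, 8, 15, 1, 11, 4, 1], .l [7, 8, 6, 13, 7, 14], .l [7, 14, 6, 15, 3, 13, 4], .l [7, 14, 6, 17, 5, 15, 4], .l [16, 19, 10, 16, 8, 15, 1, 11, 4, 1], .l [7, 8, 6, 13, 7, 16], .l [7, 14, 6, 19, 7, 17, 4], .l [16, 21, 12, 18, 10, 17, 1, 11, 4, 1], .l [4, 18, 10, 18, 5, 10, 1, 3, 13, 4], .l [7, 14, 6, 19, 7, 17, 4], .l [7, 14, 6, 21, 9, 19, 4], .l [16, 23, 14, 20, 12, 19, 1, 11, 4, 1], .l [1, 20, 12, 20, 2, 12, 1, 5, 15, 4]]),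
([p 5 1, s 0 0, g, s 1 0, s 7 0, g, p 2 0, g, p 0 2, s 0 3, g, s 4 0, g, s 0 4, p 3 5, s 0 6, g, s 6 0, g, s 0 7, g], .hi 1, [.y [1], .l [2, 16, 13, 13, 10, 17], .l [2, 16, 13, 13, 10], .r 578 [1, 8, 5] [1, 1, 10, 6], .r 989 [1, 8, 5] [1, 2, 9, 6], .l [3, 2, 4], .l [8, 5, 7, 3, 14, 7, 12, 10, 4, 1], .l [8, 6, 15, 7, 10, 8, 4, 1], .l [3, 2, 6], .l [8, 6, 15, 7, 10, 8, 4], .l [3, 2, 6], .l [3, 2, 7, 7, 11, 1], .r 989 [1, 8, 5] [1, 7, 4, 6], .l [3, 2, 9], .l [15, 1, 11, 12, 3, 12, 0, 5], .r 989 [1, 8, 5] [1, 9, 2, 6], .l [3, 2, 11], .l [8, 16, 7, 6, 3, 1, 4, 5], .l [8, 14, 5, 4, 4, 5], .l [0, 14, 13, 13, 10, 15], .l [3, 2, 15, 17, 15, 10], .l [3, 2, 15], .l [13, 1, 13, 0, 8, 14, 6, 7], .l [3, 2, 17, 10, 11, 10, 4, 1, 15, 4, 10,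 1], .l [3, 2, 17], .l [13, 1, 13, 0, 8, 16, 8, 9], .l [13, 1, 13, 0, 8, 16, 11, 2, 9], .r 3957 [1, 8, 2, 3, 4, 5, 6, 7] [1, 1, 1, 1, 1, 1, 1, 1, 1], .l [3, 2, 19], .l [13, 1, 13, 0, 8, 18, 10, 11]]),
([p 4 1, s 0 0, g, s 1 0, s 6 0, g, p 0 0, s 0 2, g, s 3 0, g, s 0 3, p 2 4, s 0 5, g, s 5 0, g, s 0 6, g], .hi 6, [.l [6, 4, 11, 5, 4], .l [8, 4, 13, 5, 4], .l [5, 4, 13, 8, 10, 7, 4], .l [8, 4], .l [8, 1, 13, 5, 4], .r 3958 [1, 7, 2, 3, 4, 5, 6] [1, 1, 1, 1, 1, 1, 1, 1], .l [8, 1], .y [6], .c, .l [9, 2, 12], .l [6, 8], .l [9, 2], .l [11, 4, 12], .l [6, 10], .l [11, 4], .l [11, 4, 10], .l [6, 12, 5], .l [11, 1, 11, 0, 6, 11], .l [6, 14], .l [15, 8], .l [11, 1, 11, 0, 6, 13], .l [6, 16], .l [17, 10], .l [11, 1, 11, 0, 6, 13], .l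 [11, 1, 11, 0, 6, 15], .l [6, 18], .l [19, 12]]),
([p 4 1, s 0 0, g, s 1 0, s 6 0, g, s 0 2, g, s 3 0, g, s 0 3, p 2 4, s 0 5, g, s 5 0, g, s 0 6, g], .bot 5, [.l [9, 1, 9, 0, 4, 11], .r 3087 [2, 3, 4] [5, 1, 1, 6], .r 3959 [1, 2, 3, 4, 5, 6] [1, 1, 1, 1, 1, 1, 1], .r 3956 [1, 2, 3, 4, 5, 6] [1, 1, 1, 1, 1, 1, 1]]),
([p 5 1, s 7 0, g, s 0 2, g, s 1 0, s 2 0, g, p 0 0, s 0 3, g, s 4 0, g, s 0 4, p 3 5, s 0 6, g, s 6 0, g, s 0 7, g], .hi 8, [.l [10, 6, 15, 5, 4], .l [7, 6, 15, 8, 12, 9, 4], .l [10, 6], .l [8, 4, 13, 5, 4], .l [10, 4, 15, 5, 4], .l [7, 6, 15, 8, 10, 7, 4], .l [10, 4], .l [10, 1, 15, 5, 4], .l [5, 4, 19, 10, 11, 10, 4, 1, 13, 2, 8, 1], .l [10, 1], .y [8], .c, .l [11, 2, 14], .l [8, 10], .l [11, 2], .l [13, 4, 14],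 .l [8, 12], .l [13, 4], .l [13, 4, 12], .l [8, 14, 5], .l [13, 1, 13, 0, 8, 13], .l [8, 16], .l [17, 8], .l [13, 1, 13, 0, 8, 15], .l [8, 18], .l [19, 10], .l [13, 1, 13, 0, 8, 15], .l [13, 1, 13, 0, 8, 17], .l [8, 20], .l [21, 12]]),
([p 5 1, s 7 0, g, s 0 2, g, s 1 0, s 2 0, g, m 0 0, s 0 3, g, s 4 0, g, s 0 4, p 3 5, s 0 6, g, s 6 0, g, s 0 7, g], .lo 8, [.l [8, 6, 13, 5, 4], .l [10, 6, 15, 5, 4], .l [10, 6], .l [7, 6, 15, 8, 12, 9, 4], .l [10, 4, 15, 5, 4], .l [10, 4], .l [7, 6, 15, 8, 10, 7, 4], .l [5, 4, 13, 8, 8, 5, 4], .l [6, 2, 13, 7, 10, 8, 4, 1], .l [10, 1, 15, 5, 4], .l [10, 1], .l [5, 4, 19, 10, 11, 10, 4, 1, 13, 2, 8, 1], .y [8], .l [11, 2, 14], .l [11, 2], .l [8, 10], .l [11, 2, 12], .l [13, 4, 14], .l [13, 4],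 .l [8, 12], .l [13, 1, 13, 0, 8, 13], .l [17, 8], .l [8, 16], .l [13, 1, 13, 0, 8, 13], .l [13, 1, 13, 0, 8, 15], .l [19, 10], .l [8, 18], .l [13, 1, 13, 0, 8, 17], .l [21, 12], .l [8, 20]]),
([p 5 1, s 7 0, g, s 0 2, g, s 1 0, s 2 0, g, s 0 3, g, s 4 0, g, s 0 4, p 3 5, s 0 6, g, s 6 0, g, s 0 7, g], .bot 7, [.l [6, 2, 11, 5, 4, 1], .r 3087 [3, 4, 5] [7, 1, 1, 6], .r 3961 [1, 2, 3, 4, 5, 6, 7] [1, 1, 1, 1, 1, 1, 1, 1], .r 3962 [1, 2, 3, 4, 5, 6, 7] [1, 1, 1, 1, 1, 1, 1, 1]]),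
([p 2 1, g, s 1 0, g, p 0 2, s 3 0, g, p 0 3, g], .top 1, [.c, .r 3488 [1, 2, 3] [1, 1, 1, 1], .r 334 [] [8], .r 444 [] [8]]),
([p 3 1, g, m 0 2, g, s 1 0, g, p 0 3, s 2 0, g], .top 1, [.l [0, 5, 4, 4, 1], .r 3406 [1, 2, 3] [1, 1, 1, 1], .r 334 [] [8], .r 444 [] [8]]),
([p 2 1, g, s 1 0, s 4 0, g, p 0 2, s 0 3, g, s 3 4, g], .lo 6, [.l [2, 7, 4], .l [2, 7, 4], .r 3965 [1, 5, 2] [1, 1, 2, 3], .l [2, 5, 2], .y [3, 6, 8], .l [5, 7, 1], .l [5, 7, 1], .l [2, 1, 9, 1, 4, 2, 4, 1], .l [2, 1, 7, 1, 7, 5, 2, 3], .l [2, 1, 7, 1, 7, 5, 2, 3], .r 3399 [2, 5] [4, 1, 3], .l [2, 1, 5, 7, 1, 5, 2, 3], .r 3964 [1, 2, 5] [1, 2, 3, 1], .l [2, 1, 5, 7, 1, 5, 2, 3]]),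
([p 3 1, g, s 1 2, g, p 2 0, g, p 0 3, g], .top 7, [.r 2583 [3] [5], .r 3885 [1, 2, 3] [1, 1, 1, 1], .r 2528 [3] [5, 1], .r 3376 [3] [5, 1]])]

def d15_2 : List (List Item × Qry × List Rf) := [
([p 2 1, s 6 0, g, s 1 0, s 5 0, g, p 4 0, g, p 0 2, g, m 0 3, g, s 3 4, s 0 5, g, s 0 6, g], .hi 3, [.l [7, 2, 5, 8, 2, 10, 5, 6, 8, 5], .l [5, 4, 15, 13, 1, 6, 4, 8], .l [7, 2, 5, 8, 2, 10, 5, 6, 8, 5], .l [7, 10, 2, 11, 3, 4, 9, 6], .l [7, 4, 5, 8, 2, 10, 5, 6, 8, 5], .l [7, 10, 2, 11, 6, 7, 11, 7, 2, 4, 5], .l [5, 8, 5, 8, 5, 9, 12, 8, 2, 4, 7], .r 3967 [1, 7, 2] [2, 4, 1, 8], .l [5, 8, 5, 8, 5, 9, 12, 8, 2, 4, 7], .y [0, 3, 8], .l [5, 8, 2, 11, 3, 4, 9, 6], .l [2, 8, 5, 7, 14, 12, 4, 8], .l [0, 2, 9, 6, 11, 13, 8, 1], .l [0, 2, 9,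 6, 9, 11, 8, 1], .l [2, 8, 5, 9, 14, 10, 4, 6, 9], .l [2, 8, 5, 9, 14, 10, 4, 6], .l [0, 2, 11, 8, 11, 13, 10, 3], .l [13, 9, 8, 8, 10, 11], .l [11, 15, 6, 11, 8, 10, 4, 8, 2, 4], .l [2, 8, 5, 12, 14, 7, 4, 10], .l [15, 11, 8, 10, 12, 13], .l [3, 2, 13, 13, 1, 6, 4, 8], .l [11, 17, 8, 13, 10, 12, 4, 10, 4, 6], .l [9, 6, 7, 12, 2, 6, 8, 5, 2, 4, 7], .l [3, 2, 13, 15, 3, 8, 4, 10]]),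
([p 2 1, s 6 0, g, s 1 0, s 5 0, g, p 4 2, g, m 0 3, g, s 3 4, s 0 5, g, s 0 6, g], .hi 3, [.l [7, 2, 5, 6, 0, 8, 5, 6, 6, 3], .l [5, 4, 13, 11, 1, 4, 2, 6], .l [7, 2, 5, 6, 0, 8, 5, 6, 6, 3], .l [7, 8, 0, 9, 3, 4, 7, 4], .l [7, 4, 5, 6, 0, 8, 5, 6, 6, 3], .l [7, 8, 0, 9, 6, 7, 9, 5, 2, 2, 3], .l [5, 6, 0, 9, 3, 4, 7, 4], .l [2, 6, 3, 5, 12, 10, 2, 6], .l [0, 2, 7, 4, 9, 11, 6, 1], .y [0, 3, 8, 10, 6], .l [2, 6, 3, 7, 12, 8, 2, 4, 7], .l [2, 6, 3, 7, 12, 8, 2, 4], .l [0, 2, 9, 6, 9, 11, 8, 3], .l [11, 7, 6, 6, 8, 9], .l [9, 13, 6, 9, 6, 8, 2, 6, 2, 4], .l [2, 6, 3, 10, 12, 5, 2, 8], .l [13, 9, 6, 8, 10, 11], .l [3, 2, 11, 11, 1, 4, 2, 6], .l [9, 15, 8, 11, 8, 10, 2, 8, 4, 6], .l [7, 4, 5, 10, 2, 6, 6, 3, 2, 2, 5], .l [3, 2,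 11, 13, 3, 6, 2, 8]]),
([p 3 1, s 7 2, g, s 1 0, s 6 0, g, p 0 3, s 0 4, g, m 0 5, g, s 5 0, s 0 6, g, s 4 0, g, s 2 0, g, s 0 7, g], .hi 11, [.l [5, 4, 7, 2, 11, 6], .l [5, 4, 7, 2, 11, 6], .l [13, 9, 2, 11, 7, 11], .l [3, 2, 7, 4, 11, 8], .r 3968 [1, 3, 5, 8, 6, 7] [1, 1, 1, 2, 1, 5, 1], .l [3, 2, 7, 4, 11, 8], .r 3969 [1, 3, 5, 8, 6, 7] [1, 1, 2, 1, 5, 1], .l [3, 2, 5, 2, 9, 3], .l [3, 2, 5, 2, 11, 3], .l [3, 2, 18, 10, 3, 8, 14, 4, 2, 8, 1], .l [3, 2, 5, 2, 11, 3], .y [9, 11], .l [3, 2, 5, 2, 11, 1], .l [3, 2, 18, 10, 3, 8, 14, 4, 2, 8, 1], .l [3, 2, 5, 2, 11, 1], .c, .l [3, 2, 5, 2, 9, 10], .l [3, 2, 5, 2, 9, 10], .l [14, 2, 8, 12, 10, 11], .l [3, 2, 5, 2, 9, 12], .l [3, 2, 5, 2, 9, 12], .l [16, 4, 10, 14, 12, 5], .l [3,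 2, 5, 2, 9, 14], .l [3, 2, 5, 2, 9, 14], .l [18, 6, 12, 16, 14, 7], .l [3, 2, 5, 2, 9, 14], .l [3, 2, 5, 2, 9, 16], .l [3, 2, 5, 2, 9, 16], .l [20, 8, 14, 18, 16, 9]]),
([p 3 1, s 7 2, g, s 1 0, s 6 0, g, p 0 3, s 0 4, g, m 0 5, g, s 5 0, s 0 6, g, s 4 0, g, s 0 7, g, s 2 0, g], .hi 11, [.l [5, 4, 7, 2, 11, 6], .l [5, 4, 7, 2, 11, 6], .l [13, 9, 2, 11, 7, 11], .l [3, 2, 7, 4, 11, 8], .r 3968 [1, 3, 5, 8, 6, 7] [1, 1, 1, 2, 1, 3, 3], .l [3, 2, 7, 4, 11, 8], .r 3969 [1, 3, 5, 8, 6, 7] [1, 1, 2, 1, 3, 3], .l [3, 2, 5, 2, 9, 3], .l [3, 2, 5, 2, 11, 3], .l [3, 2, 18, 10, 3, 8, 14, 4, 2, 8, 1], .l [3, 2, 5, 2, 11, 3], .y [9, 11], .l [3, 2, 5, 2, 11, 1], .l [3, 2, 18, 10, 3, 8, 14, 4, 2, 8, 1], .l [3, 2, 5, 2, 11, 1], .c, .l [3, 2,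 5, 2, 9, 10], .l [3, 2, 5, 2, 9, 10], .l [14, 2, 8, 12, 10, 11], .l [3, 2, 5, 2, 9, 12], .l [3, 2, 5, 2, 9, 12], .l [16, 4, 10, 14, 12, 5], .l [3, 2, 5, 2, 9, 12], .l [3, 2, 5, 2, 9, 14], .l [3, 2, 5, 2, 9, 14], .l [18, 6, 12, 16, 14, 7], .l [3, 2, 5, 2, 9, 16], .l [3, 2, 5, 2, 9, 16], .l [20, 8, 14, 18, 16, 9]]),
([p 3 1, s 0 2, g, s 1 0, s 6 0, g, p 0 3, s 0 4, g, m 0 5, g, s 5 0, s 0 6, g, s 4 0, g, s 2 0, g], .lo 1, [.l [2, 8, 5, 5, 2, 10], .r 1556 [1, 7, 3] [1, 1, 2, 11], .l [1, 17, 14, 15, 12, 7], .l [2, 6, 3, 3, 2], .l [3, 2, 14, 3, 10, 1, 10, 11], .r 2175 [1, 7, 3] [1, 2, 1, 11], .l [6, 4, 7, 1, 12, 7, 9, 12], .l [3, 2, 4], .l [3, 2, 7, 14, 12, 2], .l [9, 7, 8, 3, 15, 12, 2, 6], .l [3, 2, 7], .l [3, 2, 9, 14, 10, 2],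 .l [11, 9, 10, 5, 15, 10, 2, 4], .l [3, 2, 9], .l [3, 2, 5, 2, 9, 4], .l [3, 2, 12, 14, 7, 2], .l [14, 12, 13, 8, 15, 7, 2, 7], .l [3, 2, 12], .l [3, 2, 12, 12, 5, 2], .r 3971 [1, 2, 3, 4, 5, 6, 7] [1, 1, 1, 1, 1, 1, 1, 1], .l [16, 14, 15, 10, 6, 14, 5, 2], .l [3, 2, 14], .y [1, 16], .r 3970 [1, 2, 3, 4, 5, 6, 7] [1, 1, 1, 1, 1, 1, 1, 1], .l [16, 14, 15, 10, 6, 14, 5, 2], .l [3, 2, 16]]),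
([p 3 1, s 6 0, g, s 1 0, s 5 0, g, m 0 2, g, p 0 3, g, p 4 0, g, s 2 4, s 0 5, g, s 0 6, g], .hi 3, [.l [7, 2, 5, 8, 2, 10, 5, 6, 8, 5], .l [5, 4, 15, 13, 1, 6, 4, 8], .l [7, 2, 5, 8, 2, 10, 5, 6, 8, 5], .l [7, 10, 2, 11, 3, 4, 9, 6], .l [7, 4, 5, 8, 2, 10, 5, 6, 8, 5], .l [7, 10, 2, 11, 6, 7, 11, 7, 2, 4, 5], .l [5, 6, 3, 6, 3, 7, 10, 6, 2, 2, 5], .l [5, 8, 5, 8, 5, 9, 12, 8, 2, 4, 7], .r 3967 [1, 7, 3] [2, 4, 1, 8], .l [5, 8, 5, 8, 5, 9, 12, 8, 2, 4, 7], .y [0, 3, 8], .l [5, 8, 2, 11, 3, 4, 9, 6], .l [2, 8, 5, 7, 14, 12, 4, 8], .l [0, 2, 9, 6, 11, 13, 8, 1], .l [2, 8, 5, 9, 14, 10, 4, 6, 9], .l [2, 8, 5, 9, 14, 10, 4, 6], .l [0, 2, 11, 8, 11, 13, 10, 3], .l [13, 9, 8, 8, 10, 11], .l [11, 15, 6, 11, 8, 10, 4, 8, 2, 4], .l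 [2, 8, 5, 12, 14, 7, 4, 10], .l [15, 11, 8, 10, 12, 13], .l [3, 2, 13, 13, 1, 6, 4, 8], .l [11, 17, 8, 13, 10, 12, 4, 10, 4, 6], .l [9, 6, 7, 12, 2, 6, 8, 5, 2, 4, 7], .l [3, 2, 13, 15, 3, 8, 4, 10]]),
([p 3 1, s 0 0, g, s 1 0, s 6 0, g, m 0 2, g, p 0 3, s 0 4, g, p 5 0, g, s 2 5, s 0 6, g, s 4 0, g], .lo 1, [.y [1], .l [2, 10, 7, 7, 4, 12], .r 1556 [1, 7, 3] [1, 1, 4, 9], .l [2, 10, 7, 7, 4], .l [2, 8, 5, 5, 4], .l [5, 8, 2, 11, 1, 4, 10, 5, 2, 7], .r 2175 [1, 7, 3] [1, 2, 3, 9], .l [7, 10, 2, 13, 1, 6, 12, 5, 2, 7], .l [3, 2, 4], .r 2175 [1, 7, 3] [1, 4, 1, 9], .l [5, 10, 4, 13, 13, 11, 13, 9, 2, 3], .l [3, 2, 6], .l [3, 2, 9, 16, 14, 4], .l [5, 8, 2, 13, 1, 6, 12, 5, 2, 5], .l [3, 2, 9], .l [3, 11, 8, 9, 14, 10, 4, 6, 9],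 .l [3, 2, 11, 16, 12, 4], .l [3, 13, 10, 11, 16, 10, 4, 6, 9], .l [3, 2, 11], .l [3, 2, 14, 16, 9, 4], .l [12, 16, 4, 11, 10, 12, 4, 10, 4, 6], .l [3, 2, 14], .l [3, 2, 14, 14, 7, 4], .r 3973 [1, 2, 3, 5, 6, 7] [1, 1, 1, 2, 1, 3, 1], .l [12, 18, 6, 13, 12, 14, 4, 12, 6, 8], .l [3, 2, 16]]),
([p 3 1, s 0 0, g, s 1 0, s 5 0, g, m 0 2, g, p 0 3, s 0 4, g, s 2 0, s 0 5, g, s 4 0, g], .hi 11, [.l [3, 2, 7, 4, 9, 2], .l [5, 4, 9, 4, 11, 4], .l [5, 4, 9, 4, 11, 4], .l [13, 9, 2, 11, 5, 11], .l [3, 2, 9, 6, 11, 8], .l [12, 4, 11, 8, 12, 8, 6, 7], .l [3, 2, 9, 6, 11, 8], .y [6, 11], .l [3, 2, 9, 6, 11, 6], .l [12, 4, 11, 8, 12, 8, 6, 7], .l [3, 2, 9, 6, 11, 6], .l [10, 2, 9, 8, 10, 6, 4, 5], .l [3, 2, 7, 4, 9, 1], .l [3, 2, 7, 4, 11,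 1], .r 3974 [1, 2, 3, 4, 6, 5] [1, 1, 1, 1, 1, 1, 1], .l [3, 2, 7, 4, 11, 1], .c, .l [3, 2, 7, 4, 9, 10], .l [3, 2, 7, 4, 9, 10], .l [5, 8, 2, 9, 12, 2, 7, 2], .l [3, 2, 7, 4, 9, 12], .l [3, 2, 7, 4, 9, 12], .l [5, 8, 2, 9, 14, 4, 9, 2]]),
([p 3 1, s 0 2, g, s 1 0, s 5 0, g, p 0 3, s 0 4, g, s 0 0, s 0 5, g, s 4 0, g, s 2 0, g], .lo 9, [.l [5, 4, 7, 2, 9, 4], .l [11, 7, 2, 9, 5, 9], .l [5, 4, 7, 2, 9, 4], .l [3, 2, 5, 2, 7, 4], .l [3, 2, 5, 2, 7, 6], .l [3, 2, 7, 4, 9, 6], .l [3, 2, 7, 4, 9, 6], .r 3975 [1, 6, 3, 4, 5] [1, 1, 1, 1, 1, 3], .l [3, 2, 5, 2, 9, 1], .l [3, 2, 5, 2, 9, 1], .r 3972 [1, 2, 3, 4, 6, 5] [1, 1, 1, 1, 1, 1, 1], .y [9], .l [3, 2, 5, 2, 7, 8], .l [12, 2, 6, 10, 8, 9], .l [3, 2, 5, 2, 7, 8], .l [3, 2, 5, 2,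 7, 8], .l [3, 2, 5, 2, 7, 10], .l [14, 4, 8, 12, 10, 3], .l [3, 2, 5, 2, 7, 10], .l [3, 2, 5, 2, 7, 10], .l [3, 2, 5, 2, 7, 12], .l [16, 6, 10, 14, 12, 5], .l [3, 2, 5, 2, 7, 12]]),
([p 3 1, s 0 2, g, s 1 0, s 5 0, g, p 0 3, s 0 4, g, p 0 0, s 0 5, g, s 4 0, g, s 2 0, g], .hi 9, [.l [3, 2, 5, 2, 7, 2], .l [5, 4, 7, 2, 9, 4], .l [5, 4, 7, 2, 9, 4], .l [11, 7], .l [3, 2, 7, 4, 9, 6], .l [11, 7, 11, 6, 8, 5, 2, 11], .l [11, 4], .l [9, 5, 9, 6, 6, 3, 2, 9], .l [3, 2, 5, 2, 7, 1], .l [3, 2, 5, 2, 9, 1], .l [3, 2, 8, 13, 10, 2, 6, 9], .l [11, 1], .y [9], .c, .l [3, 2, 5, 2, 7, 8], .l [9, 11], .l [12, 2], .l [3, 2, 5, 2, 7, 10], .l [9, 13], .l [14, 4], .l [3, 2, 5, 2, 7, 12], .l [9, 15], .l [16, 6]]),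
([p 3 1, s 0 2, g, s 1 0, s 5 0, g, p 0 3, s 0 4, g, m 0 0, s 0 5, g, s 4 0, g, s 2 0, g], .lo 9, [.l [5, 4, 7, 2, 9, 4], .l [11, 7], .l [5, 4, 7, 2, 9, 4], .l [3, 2, 5, 2, 7, 4], .l [3, 2, 5, 2, 7, 6], .l [3, 2, 7, 4, 9, 6], .l [11, 4], .l [11, 7, 11, 6, 8, 5, 2, 11], .l [3, 2, 5, 2, 9, 1], .l [11, 1], .l [3, 2, 8, 13, 10, 2, 6, 9], .y [9], .l [3, 2, 5, 2, 7, 8], .l [12, 2], .l [9, 11], .l [3, 2, 5, 2, 7, 8], .l [3, 2, 5, 2, 7, 10], .l [14, 4], .l [9, 13], .l [3, 2, 5, 2, 7, 10], .l [3, 2, 5, 2, 7, 12], .l [16, 6], .l [9, 15]]),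
([p 3 1, s 0 2, g, s 1 0, s 5 0, g, p 0 3, s 0 4, g, s 0 5, g, s 4 0, g, s 2 0, g], .bot 8, [.l [3, 2, 5, 2, 5, 6], .r 3976 [1, 2, 3, 4, 5] [1, 1, 1, 1, 1, 1], .r 3977 [1, 2, 3, 4, 5] [1, 1, 1, 1, 1, 1], .r 3978 [1, 2, 3, 4, 5] [1, 1, 1, 1, 1, 1]]),
([p 2 1, s 0 0, g, s 1 0, s 4 0, g, p 0 2, s 0 3, g, s 0 4, g, s 3 0, g], .hi 1, [.y [1], .l [2, 8, 5, 5, 2, 7], .l [2, 8, 5, 5, 2], .r 578 [1, 5, 2] [1, 1, 2, 6], .r 989 [1, 5, 2] [1, 2, 1, 6], .l [3, 2, 4], .r 520 [1, 5, 2] [1, 2, 1, 6], .l [3, 2, 4], .l [0, 6, 5, 5, 2, 5], .l [3, 2, 7, 11, 9, 2], .l [3, 2, 7], .r 852 [1, 5, 2] [1, 2, 2, 5], .l [3, 2, 7, 9, 7, 2], .l [3, 2, 9, 11, 7, 2], .l [3, 2, 9], .r 852 [1, 5, 2] [1, 2, 4, 3], .r 3979 [1, 5, 2, 3, 4] [1, 1, 1, 1, 1, 1], .l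 [3, 2, 11], .r 852 [1, 5, 2] [1, 2, 6, 1]]),
([p 4 1, s 6 0, g, s 1 0, s 0 0, g, s 0 2, g, s 3 0, g, s 0 3, p 2 4, s 0 5, g, s 5 0, g, s 0 6, g], .lo 4, [.l [3, 2, 14, 9, 4, 1, 3, 8, 9], .r 3963 [1, 7, 2, 3, 4, 5, 6] [1, 1, 1, 1, 1, 1, 1, 1], .l [5, 4, 12, 7, 8], .l [7, 4, 2, 4, 10, 5, 4, 1], .c, .y [4], .l [5, 13, 7, 10, 2, 14], .r 3438 [1, 7, 4] [1, 1, 6, 6], .l [3, 2, 12, 9, 1], .l [7, 13, 5, 8, 2, 14], .l [3, 2, 16, 11, 6, 1, 5, 10, 7], .l [3, 2, 12, 9, 3], .l [7, 11, 3, 6, 2, 12], .l [9, 13, 3, 6, 2, 14], .l [3, 2, 16, 11, 6, 6, 11, 6], .l [3, 2, 12, 9, 5], .r 3980 [1, 4, 5, 7] [1, 6, 1, 1, 3], .l [3, 2, 16, 11, 4, 1, 3, 10, 3], .l [3, 2, 10, 7, 11], .r 3966 [1, 4, 5, 7] [2, 6, 1, 3], .r 3960 [1, 2, 3, 4, 5, 7] [1, 1, 1,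 1, 1, 1, 3], .l [3, 2, 16, 11, 4, 1, 3, 10, 1], .l [3, 2, 10, 7, 13], .r 3960 [1, 2, 3, 4, 5, 7] [1, 1, 1, 1, 1, 3, 1], .l [5, 18, 16, 2, 8, 5, 4, 1], .l [3, 2, 10, 7, 15]]),
([p 3 1, s 5 0, g, s 1 0, s 0 0, g, s 0 2, g, s 0 0, p 2 3, s 0 4, g, s 4 0, g, s 0 5, g], .hi 8, [.r 3953 [2, 6, 3] [1, 4, 1, 5], .l [7, 11, 3, 2, 4], .l [10, 6, 10, 0, 4], .l [5, 9, 3, 2, 5, 2], .r 3953 [2, 6, 3] [4, 1, 1, 5], .l [7, 11, 3, 2, 7], .l [10, 3, 10, 0, 7], .l [5, 9, 3, 2, 1], .r 3981 [1, 2, 6, 3, 4, 5] [1, 1, 1, 1, 1, 1, 1], .r 2428 [6, 3] [7, 1, 6], .l [5, 11, 5, 4, 1], .y [8], .l [8, 9, 0], .l [8, 11, 13, 11, 0, 5], .l [5, 9, 3, 2, 9], .l [12, 3, 4], .l [13, 7, 2, 11, 8, 1], .l [5, 9, 3, 2, 11], .l [14, 5, 6], .l [5, 9, 3, 2, 11, 11, 2,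 3], .l [15, 9, 2, 13, 10, 1], .l [5, 9, 3, 2, 13], .l [16, 7, 8]]),
([p 3 1, s 5 0, g, s 1 0, g, s 0 2, g, s 0 0, p 2 3, s 0 4, g, s 4 0, g, s 0 5, g], .top 4, [.l [3, 2, 6, 3, 2], .r 3982 [1, 2, 3, 4, 5] [1, 1, 1, 1, 1, 1], .r 3498 [1, 3] [2, 4, 6], .r 3538 [1, 3] [2, 4, 6]]),
([p 3 1, s 4 0, g, s 1 0, g, s 0 2, g, s 0 0, p 2 3, s 0 0, g, s 0 4, g], .hi 9, [.l [3, 10, 6], .l [5, 4, 11, 9, 7, 4], .l [3, 10, 6], .l [5, 10, 4], .l [3, 2, 11, 7, 5, 6], .l [5, 10, 4], .l [5, 8, 2], .l [7, 10, 2], .l [3, 2, 11, 5, 3, 6], .l [7, 10, 2], .l [7, 8, 0], .y [9], .r 3983 [1, 2, 3, 5, 4] [1, 1, 1, 1, 1, 1], .l [12, 7, 2, 7, 9, 9, 4, 1], .r 2574 [1, 3, 5] [1, 4, 1, 3], .l [3, 2, 9, 9, 7, 4], .l [3, 2, 9, 11, 9, 4], .l [10, 5, 2, 5, 7, 7,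 2, 7], .l [3, 2, 9, 11, 9, 4]]),
([p 3 1, s 0 0, g, s 1 0, g, s 0 2, g, s 0 0, p 2 3, s 0 0, g], .lo 1, [.y [1], .r 1018 [1, 4, 3] [1, 1, 4, 2], .r 1556 [1, 4, 3] [1, 1, 4, 2], .l [2, 10, 7, 7, 4], .l [2, 8, 5, 5, 4], .r 2175 [1, 4, 3] [1, 1, 4, 2], .r 2050 [1, 4, 3] [1, 1, 4, 2], .l [3, 2, 3], .r 2175 [1, 4, 3] [1, 3, 2, 2], .r 2050 [1, 4, 3] [1, 3, 2, 2], .l [3, 2, 5], .l [4, 8, 3, 2, 2, 3], .l [1, 8, 6], .r 3984 [1, 2, 3, 4] [1, 1, 1, 1, 1], .r 3458 [1, 3, 4] [1, 4, 2, 1], .l [3, 2, 9]]),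
([p 8 1, s 0 2, g, s 0 3, g, s 1 0, g, s 7 0, p 4 0, g, p 5 4, g, p 6 5, g, p 0 6, g, s 0 7, p 3 8, g, s 2 0, g], .lo 14, [.l [0, 6, 3, 13, 13, 11, 11, 9, 12, 7, 4, 9, 2, 5], .l [3, 15], .l [0, 6, 3, 13, 13, 11, 11, 9, 9, 7, 10, 7, 10], .l [0, 6, 1, 13, 13, 11, 11, 9, 12, 7, 4, 9, 2, 5], .l [5, 15], .l [0, 6, 1, 13, 13, 11, 11, 9, 9, 7, 10, 7, 10], .l [0, 4, 4, 11, 11, 9, 9, 7, 7, 5, 6, 7, 5], .l [5, 4, 6, 14, 14, 12, 12, 10, 13, 4, 1, 9, 6, 1], .l [7, 15], .l [2, 19, 16, 15, 11, 8, 8, 6, 6, 4, 4, 2, 3], .l [6, 17, 10, 6, 6, 4, 4, 2, 2, 0, 1], .y [8, 14, 12, 10], .l [9, 19, 9, 5, 5, 3, 3, 1, 1, 10, 7, 2], .l [10, 15], .l [5, 4, 19, 10, 5, 5, 3, 3, 1, 6, 4, 2, 6], .l [11, 14, 12, 17, 7, 3, 3, 1, 1, 10, 7, 2], .l [12, 15], .l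 [8, 19, 10, 1, 16, 7, 2, 12, 3, 3, 1, 1, 8], .l [13, 16, 14, 14, 12, 15, 5, 1, 1, 10, 7, 2], .l [14, 15], .l [10, 12, 11, 18, 8, 1, 14, 7, 2, 10, 1, 1, 8], .l [15, 19, 3, 16, 16, 14, 14, 12, 12, 10, 7, 2], .l [14, 16, 15, 15, 13, 13, 11, 14, 4, 1, 10, 7, 2], .l [12, 14, 13, 13, 11, 16, 6, 1, 12, 7, 2, 8, 8], .l [13, 14, 12, 12, 10, 13, 3, 12, 4, 7, 11, 1, 5, 2, 5], .l [2, 17, 14, 13, 16, 13, 13, 11, 11, 9, 9, 7, 8], .l [10, 12, 11, 16, 6, 1, 12, 7, 2, 8, 10, 1, 8], .l [5, 4, 17, 17, 12, 12, 10, 10, 8, 8, 6, 7], .l [18, 21, 16, 16, 14, 14, 12, 15, 5, 5, 8, 5, 9, 2, 3], .l [2, 17, 14, 13, 18, 15, 15, 13, 13, 11, 11, 9, 10], .l [10, 12, 11, 16, 6, 1, 12, 7, 2, 8, 12, 3, 10]]),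
([p 7 1, s 0 2, g, s 0 3, g, s 1 0, g, s 6 0, p 4 0, g, p 5 4, g, p 0 5, g, s 0 6, p 3 7, s 0 8, g, s 8 0, g, s 2 0, g], .lo 12, [.l [0, 6, 3, 11, 11, 9, 12, 7, 4, 9, 2, 5], .l [3, 13], .l [0, 6, 3, 11, 11, 9, 12, 7, 4, 9, 2, 5], .l [0, 6, 1, 11, 11, 9, 12, 7, 4, 9, 2, 5], .l [5, 13], .l [0, 6, 1, 11, 11, 9, 12, 7, 4, 9, 2, 5], .l [0, 4, 4, 9, 9, 7, 7, 5, 6, 7, 5, 10], .l [5, 4, 6, 12, 12, 10, 13, 4, 1, 9, 6, 1], .l [7, 13], .l [5, 4, 20, 14, 6, 6, 4, 4, 2, 3], .l [6, 15, 8, 4, 4, 2, 2, 0, 1], .y [8, 12, 10], .l [9, 17, 7, 3, 3, 1, 1, 10, 7, 2], .l [10, 13], .l [9, 12, 10, 15, 7, 3], .l [11, 14, 12, 15, 5, 1, 1, 10, 7, 2], .l [12, 13], .l [11, 14, 12, 12, 10, 13, 5, 1], .l [13, 17, 3, 14, 14, 12, 12, 10, 7, 2], .r 3986 [1, 2,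 3, 4, 5, 9, 6, 7] [1, 1, 1, 1, 1, 1, 1, 4, 1], .l [11, 12, 10, 10, 8, 13, 5, 1], .l [11, 12, 10, 13, 3, 14, 6, 9, 15, 3, 7, 2, 9], .l [14, 6, 14, 0, 2, 15, 6, 6, 4, 4, 2, 10], .l [11, 12, 10, 10, 8, 11, 3, 12], .l [11, 12, 10, 10, 8, 11, 3, 12, 12, 10, 7, 2], .l [11, 12, 10, 13, 3, 16, 8, 11, 15, 1, 5, 2, 9], .l [14, 6, 14, 0, 2, 17, 8, 8, 6, 6, 4, 1], .l [11, 12, 10, 10, 8, 11, 3, 14], .l [5, 4, 18, 18, 10, 10, 8, 8, 6, 7], .l [19, 22, 14, 14, 12, 15, 5, 5, 8, 5, 9, 2, 3], .l [5, 4, 18, 20, 12, 12, 10, 10, 8, 9], .l [5, 4, 18, 7, 18, 5, 13, 1]]),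
([p 6 1, s 0 2, g, s 0 3, g, s 1 0, g, s 5 0, p 4 0, g, p 0 4, g, s 0 5, p 3 6, s 0 7, g, s 7 0, g, s 2 0, g], .lo 10, [.l [0, 6, 3, 9, 12, 7, 4, 9, 2, 5], .l [3, 11], .l [0, 6, 3, 9, 12, 7, 4, 9, 2, 5], .l [0, 6, 1, 9, 12, 7, 4, 9, 2, 5], .l [5, 11], .l [0, 6, 1, 9, 12, 7, 4, 9, 2, 5], .l [0, 4, 4, 7, 7, 5, 6, 7, 5, 10], .l [5, 4, 6, 10, 13, 4, 1, 9, 6, 1], .l [7, 11], .l [5, 4, 18, 12, 4, 4, 2, 3], .l [6, 13, 6, 4, 1, 2, 1], .y [8, 10], .l [9, 15, 5, 1, 1, 10, 7, 2], .l [10, 11], .l [9, 12, 10, 13, 5, 1], .l [11, 15, 3, 12, 12, 10, 7, 2], .r 3987 [1, 2, 3, 4, 8, 5, 6, 7] [1, 1, 1, 1, 1, 1, 1, 1, 1], .l [9, 10, 8, 13, 5, 1], .l [9, 13, 3, 14, 6, 9, 15, 3, 7, 2, 9], .l [12, 4, 12, 0, 2, 13, 4, 4, 2, 10], .l [9, 10, 8, 11, 3,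 12], .l [9, 10, 8, 11, 3, 12, 12, 10, 7, 2], .l [9, 13, 3, 16, 8, 11, 15, 1, 5, 2, 9], .l [12, 4, 12, 0, 2, 15, 6, 6, 4, 1], .l [9, 10, 8, 11, 3, 14], .l [5, 4, 16, 16, 8, 8, 6, 7], .l [17, 20, 12, 15, 5, 5, 8, 5, 9, 2, 3], .l [5, 4, 16, 18, 10, 10, 8, 9], .l [5, 4, 16, 7, 16, 5, 11, 1]]),
([p 5 1, s 0 2, g, s 0 3, g, s 1 0, g, s 4 0, p 0 0, g, s 0 4, p 3 5, s 0 6, g, s 6 0, g, s 2 0, g], .lo 8, [.l [4, 13, 8, 7, 2, 8], .l [3, 9], .l [2, 13, 10, 6], .l [2, 13, 10, 9, 2, 5], .l [5, 9], .l [4, 13, 8, 4], .l [0, 4, 4, 5, 6, 7, 5, 10], .l [2, 13, 10, 9, 2, 3], .l [7, 9], .l [5, 4, 16, 10, 2, 3], .c, .y [8], .l [2, 13, 10, 9, 4, 1], .r 3988 [1, 2, 3, 7, 4, 5, 6] [1, 1, 1, 1, 1, 1, 1, 1], .l [2, 13, 10, 9, 4, 1], .l [2, 11, 8, 7,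 2, 10], .l [10, 2, 10, 0, 2, 11, 2, 10], .l [2, 11, 8, 7, 2, 10], .l [2, 11, 8, 7, 2, 10], .l [2, 11, 8, 7, 2, 12], .l [10, 2, 10, 0, 2, 13, 4, 1], .l [2, 11, 8, 7, 2, 12], .l [2, 11, 8, 7, 2, 12], .l [2, 11, 8, 7, 2, 14], .l [5, 4, 14, 16, 8, 9], .l [2, 11, 8, 7, 2, 14]]),
([p 4 0, s 0 1, g, s 0 2, g, s 3 0, p 0 0, g, s 0 3, p 2 4, s 0 5, g, s 5 0, g, s 1 0, g], .hi 0, [.c, .r 3985 [6, 2, 4] [1, 1, 4, 5], .l [0, 2], .l [3, 2], .y [0, 3, 9], .r 3989 [6, 1, 2, 3, 4, 5] [1, 1, 1, 1, 1, 1, 1], .l [0, 4], .l [5, 4], .l [0, 5], .r 3952 [6, 1, 2, 3, 4] [1, 1, 1, 1, 4, 1], .l [0, 7], .l [8, 7], .l [8, 7, 8, 0, 4], .l [0, 9, 8], .l [0, 11, 13, 11, 8, 11], .l [0, 11], .l [12, 11], .l [15, 1, 13, 13, 4, 1], .l [0, 13], .l [14, 13], .r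 1231 [6, 1, 4, 5] [7, 1, 1, 1, 1], .l [0, 15], .l [16, 15]]),
([p 8 1, s 0 2, g, s 0 3, g, s 1 0, g, s 7 0, m 0 4, g, m 4 5, g, m 5 6, g, m 6 0, g, s 0 7, p 3 8, g, s 2 0, g], .hi 14, [.l [5, 4, 12], .l [0, 6, 3, 13, 13, 11, 11, 9, 12, 7, 4, 9, 2, 5], .l [0, 6, 3, 13, 13, 11, 11, 9, 9, 7, 10, 7, 10], .l [3, 15], .l [2, 17, 14, 10, 10, 8, 8, 6, 6, 4, 5, 1, 4], .l [0, 6, 1, 13, 13, 11, 11, 9, 12, 7, 4, 9, 2, 5], .l [0, 6, 1, 13, 13, 11, 11, 9, 9, 7, 10, 7, 10], .l [5, 15], .l [5, 4, 6, 14, 14, 12, 12, 10, 13, 4, 1, 9, 6, 1], .l [2, 19, 16, 15, 11, 8, 8, 6, 6, 4, 4, 2, 3], .l [7, 15], .y [8, 10, 12, 14], .l [9, 19, 9, 5, 5, 3, 3, 1, 1, 10, 7, 2], .l [5, 4, 19, 10, 5, 5, 3, 3, 1, 6, 4, 2, 6], .l [10, 15], .l [11, 14, 12, 17, 7,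 3, 3, 1, 1, 10, 7, 2], .l [8, 19, 10, 1, 16, 7, 2, 12, 3, 3, 1, 1, 8], .l [12, 15], .l [13, 16, 14, 14, 12, 15, 5, 1, 1, 10, 7, 2], .l [10, 12, 11, 18, 8, 1, 14, 7, 2, 10, 1, 1, 8], .l [14, 15], .l [15, 19, 3, 16, 16, 14, 14, 12, 12, 10, 7, 2], .l [12, 14, 13, 13, 11, 16, 6, 1, 12, 7, 2, 8, 8], .l [14, 16, 15, 15, 13, 13, 11, 14, 4, 1, 10, 7, 2], .l [12, 14, 13, 13, 11, 14, 4, 1, 10, 7, 2, 6, 6], .l [13, 14, 12, 12, 10, 13, 3, 12, 4, 7, 11, 1, 5, 2, 5], .l [10, 12, 11, 16, 6, 1, 12, 7, 2, 8, 10, 1, 8], .l [2, 17, 14, 13, 16, 13, 13, 11, 11, 9, 9, 7, 8], .l [18, 21, 16, 16, 14, 14, 12, 15, 5, 5, 8, 5, 9, 2, 3], .l [10, 12, 11, 16, 6, 1, 12, 7, 2, 8, 12, 3, 10], .l [2, 17, 14, 13, 18, 15, 15, 13, 13, 11, 11, 9, 10]]),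
([p 7 1, s 0 2, g, s 0 3, g, s 1 0, g, s 6 0, m 0 4, g, m 4 5, g, m 5 0, g, s 0 6, p 3 7, s 0 8, g, s 8 0, g, s 2 0, g], .hi 12, [.l [5, 4, 10], .l [0, 6, 3, 11, 11, 9, 12, 7, 4, 9, 2, 5], .l [0, 6, 3, 11, 11, 9, 12, 7, 4, 9, 2, 5], .l [3, 13], .l [0, 4, 1, 9, 9, 7, 10, 5, 2, 7, 2, 5], .l [0, 6, 1, 11, 11, 9, 12, 7, 4, 9, 2, 5], .l [0, 6, 1, 11, 11, 9, 12, 7, 4, 9, 2, 5], .l [5, 13], .l [5, 4, 6, 12, 12, 10, 13, 4, 1, 9, 6, 1], .l [5, 4, 20, 14, 6, 6, 4, 4, 2, 3], .l [7, 13], .y [8, 10, 12], .l [9, 17, 7, 3, 3, 1, 1, 10, 7, 2], .l [9, 12, 10, 15, 7, 3], .l [10, 13], .l [11, 14, 12, 15, 5, 1, 1, 10, 7, 2], .l [11, 14, 12, 12, 10, 13, 5, 1], .l [12, 13], .l [13, 17, 3, 14, 14, 12, 12, 10, 7, 2], .l [11, 12, 10, 10, 8, 13, 5, 1],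 .r 3991 [1, 2, 3, 4, 5, 9, 6, 7] [1, 1, 1, 1, 1, 1, 1, 4, 1], .l [13, 15, 1, 12, 12, 10, 10, 8, 7], .l [11, 12, 10, 10, 8, 11, 3, 10, 7, 2], .l [11, 12, 10, 13, 3, 14, 6, 9, 15, 3, 7, 2, 9], .l [11, 12, 10, 10, 8, 11, 3, 12], .l [14, 6, 14, 0, 2, 15, 6, 6, 4, 4, 2, 10], .l [11, 12, 10, 13, 3, 16, 8, 11, 15, 1, 5, 2, 9], .l [11, 12, 10, 10, 8, 11, 3, 14], .l [14, 6, 14, 0, 2, 17, 8, 8, 6, 6, 4, 1], .l [19, 22, 14, 14, 12, 15, 5, 5, 8, 5, 9, 2, 3], .l [5, 4, 18, 7, 18, 5, 13, 1], .l [5, 4, 18, 20, 12, 12, 10, 10, 8, 9]]),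
([p 6 1, s 0 2, g, s 0 3, g, s 1 0, g, s 5 0, m 0 4, g, m 4 0, g, s 0 5, p 3 6, s 0 7, g, s 7 0, g, s 2 0, g], .hi 10, [.l [5, 4, 8], .l [0, 6, 3, 9, 12, 7, 4, 9, 2, 5], .l [0, 6, 3, 9, 12, 7, 4, 9, 2, 5], .l [3, 11], .l [0, 4, 1, 7, 10, 5, 2, 7, 2, 5], .l [0, 6, 1, 9, 12, 7, 4, 9, 2, 5], .l [0, 6, 1, 9, 12, 7, 4, 9, 2, 5], .l [5, 11], .l [5, 4, 6, 10, 13, 4, 1, 9, 6, 1], .l [5, 4, 18, 12, 4, 4, 2, 3], .l [7, 11], .y [8, 10], .l [9, 15, 5, 1, 1, 10, 7, 2], .l [9, 12, 10, 13, 5, 1], .l [10, 11], .l [11, 15, 3, 12, 12, 10, 7, 2], .l [9, 10, 8, 13, 5, 1], .r 3992 [1, 2, 3, 4, 8, 5, 6, 7] [1, 1, 1, 1, 1, 1, 1, 1, 1], .l [11, 13, 1, 10, 10, 8, 7], .l [9, 10, 8, 11, 3, 10, 7, 2], .l [9, 13, 3, 14, 6, 9, 15, 3, 7, 2, 9], .l [9, 10,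 8, 11, 3, 12], .l [12, 4, 12, 0, 2, 13, 4, 4, 2, 10], .l [9, 13, 3, 16, 8, 11, 15, 1, 5, 2, 9], .l [9, 10, 8, 11, 3, 14], .l [12, 4, 12, 0, 2, 15, 6, 6, 4, 1], .l [17, 20, 12, 15, 5, 5, 8, 5, 9, 2, 3], .l [5, 4, 16, 7, 16, 5, 11, 1], .l [5, 4, 16, 18, 10, 10, 8, 9]]),
([p 5 1, s 0 2, g, s 0 3, g, s 1 0, g, s 4 0, m 0 0, g, s 0 4, p 3 5, s 0 6, g, s 6 0, g, s 2 0, g], .hi 8, [.l [2, 11, 8, 7, 2, 6], .l [4, 13, 8, 7, 2, 8], .l [2, 13, 10, 6], .l [3, 9], .l [2, 11, 8, 7, 2, 5], .l [2, 13, 10, 9, 2, 5], .l [4, 13, 8, 4], .l [5, 9], .l [2, 13, 10, 9, 2, 3], .l [5, 4, 16, 10, 2, 3], .l [7, 9], .y [8], .l [2, 13, 10, 9, 4, 1], .l [2, 13, 10, 9, 4, 1], .r 3993 [1, 2, 3, 7, 4, 5, 6] [1, 1, 1, 1, 1, 1, 1, 1], .l [2, 11, 8, 7, 2, 1], .l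 [2, 11, 8, 7, 2, 8], .l [2, 11, 8, 7, 2, 10], .l [2, 11, 8, 7, 2, 10], .l [10, 2, 10, 0, 2, 11, 2, 10], .l [2, 11, 8, 7, 2, 12], .l [2, 11, 8, 7, 2, 12], .l [10, 2, 10, 0, 2, 13, 4, 1], .l [2, 11, 8, 7, 2, 14], .l [2, 11, 8, 7, 2, 14], .l [5, 4, 14, 16, 8, 9]]),
([p 7 1, g, s 0 2, g, s 6 0, m 0 3, g, m 3 4, g, m 4 5, g, m 5 0, g, s 1 0, g, s 0 6, p 2 7, g], .hi 11, [.l [15, 14, 17, 2, 15, 10, 10, 8, 8, 6, 6, 4, 6, 3], .l [0, 14, 12, 10, 10, 8, 8, 6, 6, 4, 7, 8, 6], .l [2, 12], .l [1, 16, 14, 8, 8, 6, 6, 4, 4, 2, 5, 3, 4], .l [15, 14, 17, 2, 13, 8, 8, 6, 6, 4, 4, 2, 4, 5], .l [0, 14, 10, 8, 8, 6, 6, 4, 4, 2, 7, 8, 6], .l [4, 12], .y [5, 7, 9, 11], .l [6, 18, 11, 5, 5, 3, 3, 1, 1, 9, 4, 1], .l [5, 18, 12, 3, 15, 4, 1, 7, 9, 1,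 9, 1, 7], .l [7, 12], .l [8, 11, 9, 16, 9, 3, 3, 1, 1, 9, 4, 1], .l [5, 18, 12, 1, 15, 4, 1, 11, 3, 3, 1, 1, 7], .l [9, 12], .l [10, 13, 11, 11, 9, 14, 7, 1, 1, 9, 4, 1], .l [7, 9, 8, 17, 10, 1, 13, 4, 1, 9, 1, 1, 7], .l [11, 12], .l [12, 18, 5, 15, 15, 13, 13, 11, 11, 9, 4, 1], .l [9, 11, 10, 10, 8, 15, 8, 1, 11, 4, 1, 7, 7], .l [11, 13, 12, 12, 10, 10, 8, 13, 6, 1, 9, 4, 1], .l [14, 18, 3, 13, 13, 11, 11, 9, 9, 7, 4, 1], .l [9, 11, 10, 10, 8, 15, 8, 1, 11, 4, 1, 5, 7], .l [0, 12, 14, 12, 12, 10, 10, 8, 8, 6, 7, 8, 4], .l [9, 11, 10, 10, 8, 13, 6, 1, 9, 4, 1, 3, 5], .l [13, 12, 15, 2, 15, 10, 10, 8, 8, 6, 6, 4, 6, 3], .l [7, 9, 8, 15, 8, 1, 11, 4, 1, 7, 9, 1, 7], .l [0, 12, 17, 15, 15, 13, 13, 11, 11, 9, 5, 6, 4]]),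
([p 7 1, s 0 2, g, s 0 3, g, s 6 0, m 0 4, g, m 4 5, g, m 5 0, g, s 1 0, g, s 0 6, p 3 7, g, s 2 0, g], .hi 10, [.l [9, 10, 8, 8, 6, 11, 5, 5, 2], .l [14, 13, 16, 2, 13, 8, 8, 6, 6, 4, 6, 3], .l [0, 13, 10, 8, 8, 6, 6, 4, 8, 9, 7, 8], .l [3, 11], .l [3, 9, 9, 7, 9, 4, 11, 9, 7, 2, 5], .l [14, 13, 16, 2, 11, 6, 6, 4, 4, 2, 4, 5], .l [0, 13, 8, 6, 6, 4, 4, 2, 8, 9, 7, 8], .l [5, 11], .y [6, 8, 10], .l [7, 17, 9, 3, 3, 1, 1, 10, 5, 2], .l [7, 10, 8, 15, 9, 3], .l [8, 11], .l [9, 12, 10, 15, 7, 1, 1, 10, 5, 2], .l [9, 12, 10, 10, 8, 13, 7, 1], .l [10, 11], .l [11, 17, 5, 14, 14, 12, 12, 10, 5, 2], .l [9, 10, 8, 8, 6, 13, 7, 1], .r 3995 [1, 3, 4, 5, 8, 6, 7] [2, 1, 1, 1, 1, 1, 1, 3], .l [13, 17, 3, 12, 12, 10, 10, 8, 5, 2], .l [9,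 10, 8, 8, 6, 13, 7, 3], .l [0, 11, 13, 11, 11, 9, 9, 7, 8, 9, 5, 8], .l [13, 15, 1, 10, 10, 8, 8, 6, 5], .l [12, 11, 14, 2, 15, 10, 10, 8, 8, 6, 8, 5], .l [9, 10, 8, 8, 6, 11, 5, 11], .l [0, 11, 16, 14, 14, 12, 12, 10, 6, 7, 5, 8], .l [12, 11, 14, 2, 17, 12, 12, 10, 10, 8, 10, 7], .l [9, 10, 8, 8, 6, 11, 5, 13], .l [0, 11, 18, 16, 16, 14, 14, 12, 6, 7, 5, 6]]),
([p 6 1, s 0 2, g, s 0 3, g, s 5 0, m 0 4, g, m 4 0, g, s 1 0, g, s 0 5, p 3 6, g, s 2 0, g], .hi 8, [.l [7, 8, 6, 11, 5, 5, 2], .l [12, 11, 14, 2, 11, 6, 6, 4, 6, 3], .l [0, 11, 8, 6, 6, 4, 8, 9, 7, 8], .l [3, 9], .l [3, 7, 9, 4, 11, 9, 7, 2, 5], .l [12, 11, 14, 2, 9, 4, 4, 2, 4, 5], .l [0, 11, 6, 4, 4, 2, 8, 9, 7, 8], .l [5, 9], .y [6, 8], .l [7, 15, 7, 1, 1, 10, 5,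 2], .l [7, 10, 8, 13, 7, 1], .l [8, 9], .l [9, 15, 5, 12, 12, 10, 5, 2], .l [7, 8, 6, 13, 7, 1], .r 3996 [1, 2, 3, 4, 7, 5, 6] [1, 1, 1, 1, 1, 1, 1, 1], .l [11, 15, 3, 10, 10, 8, 5, 2], .l [7, 8, 6, 13, 7, 3], .l [0, 9, 11, 9, 9, 7, 8, 9, 5, 8], .l [11, 13, 1, 8, 8, 6, 5], .l [10, 9, 12, 2, 13, 8, 8, 6, 8, 5], .l [7, 8, 6, 11, 5, 11], .l [0, 9, 14, 12, 12, 10, 6, 7, 5, 8], .l [10, 9, 12, 2, 15, 10, 10, 8, 10, 7], .l [7, 8, 6, 11, 5, 13], .l [0, 9, 16, 14, 14, 12, 6, 7, 5, 6]]),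
([p 5 1, s 0 2, g, s 0 3, g, s 4 0, m 0 0, g, s 1 0, g, s 0 4, p 3 5, g, s 2 0, g], .hi 6, [.l [2, 11, 8, 7, 4, 6], .l [4, 13, 8, 7, 4, 8], .l [0, 9, 6, 4, 8, 9, 7, 8], .l [3, 7], .l [2, 11, 8, 7, 4, 5], .l [2, 13, 10, 9, 4, 5], .l [0, 9, 4, 2, 8, 9, 7, 8], .l [5, 7], .y [6], .l [2, 13, 10, 9, 6, 1], .l [2, 13, 10, 9, 6, 1], .r 3997 [1, 2, 3, 6, 4, 5] [1, 1, 1, 1, 1, 1, 1], .l [2, 13, 10, 9, 6, 3], .l [2, 13, 10, 9, 6, 3], .l [0, 7, 9, 7, 8, 9, 5, 8], .l [2, 11, 8, 7, 4, 3], .l [2, 11, 8, 7, 4, 8], .l [2, 11, 8, 7, 4, 8], .l [0, 7, 12, 10, 6, 7, 5, 8], .l [2, 11, 8, 7, 4, 10], .l [2, 11, 8, 7, 4, 10], .l [0, 7, 14, 12, 6, 7, 5, 6]]),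
([p 4 0, s 0 1, g, s 0 2, g, s 3 0, m 0 0, g, s 0 3, p 2 4, s 0 5, g, s 5 0, g, s 1 0, g], .hi 0, [.c, .r 3985 [6, 2, 4] [1, 1, 4, 5], .l [0, 2], .l [3, 2], .y [0, 3, 9], .r 3994 [6, 1, 2, 3, 4, 5] [1, 1, 1, 1, 1, 1, 1], .l [0, 4], .l [5, 4], .l [6, 5], .r 3998 [6, 1, 2, 3, 4] [1, 1, 1, 1, 4, 1], .l [0, 7], .l [8, 7], .l [8, 7, 8, 0, 4], .l [0, 9, 8], .l [0, 11, 13, 11, 8, 11], .l [0, 11], .l [12, 11], .l [15, 1, 13, 13, 4, 1], .l [0, 13], .l [14, 13], .r 1231 [6, 1, 4, 5] [7, 1, 1, 1, 1], .l [0, 15], .l [16, 15]]),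
([p 7 1, g, s 0 2, g, m 0 3, g, m 3 4, s 0 5, g, m 4 0, g, s 1 0, g, s 6 0, g, s 2 6, p 5 7, g, s 0 8, g, s 8 0, g], .lo 7, [.l [9, 17, 11, 5, 13, 5, 1, 12, 2, 8, 6, 1], .l [9, 17, 11, 5, 13, 7, 9, 1, 10, 7], .l [9, 17, 11, 5, 13, 5, 1, 7, 10, 5], .l [9, 17, 9, 3, 13, 7, 1, 12, 2, 6, 4, 5], .l [9, 17, 9, 3, 13, 7, 1, 12, 2, 6, 4, 5], .l [9, 17, 9, 3, 13, 14, 2, 16, 1, 3, 12, 7], .l [5, 18, 12, 2, 14], .l [6, 8, 5], .l [5, 18, 12, 2, 14], .l [8, 11, 8, 16, 10, 2, 12], .l [7, 17, 11, 5, 13, 14, 4, 1, 2, 9], .l [8, 11, 8, 16, 10, 2, 12], .l [8, 9, 6, 14, 8, 0, 10], .l [7, 17, 11, 3, 13, 5, 1, 12, 2, 8, 6, 1], .l [7, 17, 11, 3, 13, 7, 9, 1, 10, 7], .l [7, 17, 11, 3, 13, 5, 1, 7, 10, 5], .y [0, 11, 7, 16], .l [7, 17, 11, 3, 13, 5,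 1, 12, 2, 8, 6, 3], .l [7, 17, 11, 3, 13, 14, 2, 4, 1, 4, 2, 7], .l [7, 17, 11, 3, 13, 5, 1, 5, 10, 7], .l [1, 7, 11, 14, 8, 6, 9, 6, 7, 3, 2, 3], .l [7, 17, 11, 3, 13, 7, 3, 12, 2, 6, 4, 7], .l [7, 17, 11, 3, 13, 3, 5, 1, 10, 7], .l [7, 17, 11, 3, 13, 7, 3, 12, 2, 6, 4, 7], .l [7, 15, 9, 3, 11, 5, 1, 10, 2, 6, 4, 7], .l [7, 15, 9, 3, 11, 12, 2, 4, 1, 10, 8, 5], .l [7, 15, 9, 3, 11, 5, 1, 10, 2, 6, 4, 7], .l [7, 15, 9, 3, 11, 5, 1, 10, 2, 6, 4, 9], .l [7, 15, 9, 3, 11, 12, 2, 4, 1, 12, 10, 5], .l [7, 15, 9, 3, 11, 5, 1, 10, 2, 6, 4, 9], .l [7, 15, 9, 3, 11, 5, 1, 10, 2, 6, 4, 9], .l [7, 15, 9, 3, 11, 5, 1, 10, 2, 6, 4, 11], .l [7, 15, 9, 3, 11, 12, 2, 4, 1, 14, 12, 5], .l [7, 15, 9, 3, 11, 5, 1, 10, 2, 6, 4, 11]]),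
([p 6 1, g, s 0 2, g, m 0 3, g, m 3 0, s 0 4, g, s 1 0, g, s 5 0, g, s 2 5, p 4 6, s 0 7, g, s 7 0, g], .hi 6, [.l [2, 7, 3, 12, 13, 4, 11, 7, 2, 7], .l [1, 16, 14, 5], .l [2, 7], .l [3, 1, 11, 6, 9, 10, 8, 6, 6, 1], .l [14, 6, 8, 14, 1, 2, 11, 6, 8, 3], .l [3, 16, 12, 3], .l [4, 7], .y [4, 6], .l [7, 16, 8, 13, 1, 11, 6], .l [0, 10, 4, 1, 4, 2, 10], .l [6, 7], .l [5, 14, 8, 0, 10], .l [5, 16, 10, 2, 11, 2, 8, 9], .l [5, 6, 4, 15, 11, 3], .r 4000 [1, 2, 3, 8, 4, 5, 6, 7] [1, 1, 1, 1, 1, 1, 1, 0, 1, 1], .l [5, 16, 10, 4, 11, 2, 6, 9], .l [5, 6, 4, 15, 11, 5], .l [0, 8, 6, 12, 13, 7, 9, 6, 9, 5, 2, 5], .l [5, 11, 13, 14, 6, 11, 1, 9, 4, 5], .l [5, 6, 4, 15, 11, 7], .l [10, 13, 8, 14, 8, 6, 9, 2, 4, 7], .l [5, 14, 8, 13, 1, 11,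 6], .l [5, 14, 8, 15, 3, 13, 6], .l [5, 6, 4, 13, 9, 14], .l [14, 17, 8, 16, 10, 15, 1, 11, 6, 7], .l [5, 14, 8, 17, 5, 15, 6], .l [5, 6, 4, 13, 9, 16], .l [16, 19, 8, 16, 10, 15, 1, 11, 6, 7]]),
([p 5 1, g, s 0 2, g, m 0 0, s 0 3, g, s 1 0, g, s 4 0, g, s 2 4, p 3 5, s 0 6, g, s 6 0, g], .lo 4, [.l [6, 3, 13, 7, 6], .l [6, 3], .l [3, 14, 10, 8, 9, 5, 7, 2, 4, 5], .l [6, 1, 13, 7, 6], .l [6, 1], .r 4001 [1, 2, 7, 3, 4, 5, 6] [1, 1, 1, 1, 1, 1, 1, 1], .y [4], .l [7, 2, 12], .l [7, 2], .l [4, 6], .l [4, 6, 6, 3, 9, 5, 4], .l [9, 4, 12], .l [9, 4], .l [4, 8], .l [9, 4, 10], .l [11, 6, 12], .l [11, 6], .l [4, 10], .l [11, 1, 11, 0, 4, 11], .l [15, 10], .l [4, 14], .l [11, 1, 11, 0, 4, 11], .l [11, 1, 11, 0, 4, 13], .l [17, 12],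 .l [4, 16]]),
([p 7 1, g, s 0 2, g, p 3 0, g, p 5 3, s 0 4, g, p 0 5, g, s 1 0, g, s 6 0, g, s 2 6, p 4 7, g, s 0 8, g, s 8 0, g], .lo 7, [.l [9, 17, 11, 5, 13, 5, 1, 12, 2, 8, 6, 1], .l [9, 17, 11, 5, 13, 7, 9, 1, 10, 7], .l [9, 17, 11, 5, 13, 5, 1, 7, 10, 5], .l [9, 17, 9, 3, 13, 7, 1, 12, 2, 6, 4, 5], .l [9, 17, 9, 3, 13, 7, 1, 12, 2, 6, 4, 5], .l [9, 17, 9, 3, 13, 14, 2, 16, 1, 3, 12, 7], .l [4, 6, 5], .l [5, 18, 12, 2, 14], .l [6, 8, 5], .l [5, 18, 12, 2, 14], .l [8, 11, 8, 16, 10, 2, 12], .l [7, 17, 11, 5, 13, 14, 4, 1, 2, 9], .l [8, 11, 8, 16, 10, 2, 12], .l [7, 17, 11, 3, 13, 5, 1, 12, 2, 8, 6, 1], .l [7, 17, 11, 3, 13, 7, 9, 1, 10, 7], .l [7, 17, 11, 3, 13, 5, 1, 7, 10, 5], .y [0, 11, 7, 16], .l [7, 17, 11, 3, 13, 5,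 1, 12, 2, 8, 6, 3], .l [7, 17, 11, 3, 13, 14, 2, 4, 1, 4, 2, 7], .l [7, 17, 11, 3, 13, 5, 1, 5, 10, 7], .l [1, 7, 11, 14, 8, 6, 9, 6, 7, 3, 2, 3], .l [7, 17, 11, 3, 13, 7, 3, 12, 2, 6, 4, 7], .l [7, 17, 11, 3, 13, 3, 5, 1, 10, 7], .l [7, 17, 11, 3, 13, 7, 3, 12, 2, 6, 4, 7], .l [7, 15, 9, 3, 11, 5, 1, 10, 2, 6, 4, 7], .l [7, 15, 9, 3, 11, 12, 2, 4, 1, 10, 8, 5], .l [7, 15, 9, 3, 11, 5, 1, 10, 2, 6, 4, 7], .l [7, 15, 9, 3, 11, 5, 1, 10, 2, 6, 4, 9], .l [7, 15, 9, 3, 11, 12, 2, 4, 1, 12, 10, 5], .l [7, 15, 9, 3, 11, 5, 1, 10, 2, 6, 4, 9], .l [7, 15, 9, 3, 11, 5, 1, 10, 2, 6, 4, 9], .l [7, 15, 9, 3, 11, 5, 1, 10, 2, 6, 4, 11], .l [7, 15, 9, 3, 11, 12, 2, 4, 1, 14, 12, 5], .l [7, 15, 9, 3, 11, 5, 1, 10, 2, 6, 4, 11]]),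
([p 6 1, g, s 0 2, g, p 3 0, g, p 0 3, s 0 4, g, s 1 0, g, s 5 0, g, s 2 5, p 4 6, s 0 7, g, s 7 0, g], .lo 6, [.l [2, 7, 3, 12, 13, 4, 11, 7, 2, 7], .l [2, 7], .l [1, 16, 14, 5], .l [14, 6, 8, 14, 1, 2, 11, 6, 8, 3], .l [4, 7], .l [3, 16, 12, 3], .y [4, 6], .l [7, 16, 8, 13, 1, 11, 6], .l [6, 7], .l [0, 10, 4, 1, 4, 2, 10], .l [5, 16, 10, 2, 11, 2, 8, 9], .r 4003 [1, 2, 3, 4, 8, 5, 6, 7] [1, 1, 1, 1, 1, 1, 1, 0, 1, 1], .l [5, 6, 4, 15, 11, 3], .l [5, 14, 8, 2, 7, 4, 7, 3, 0, 5], .l [5, 16, 10, 4, 11, 2, 6, 9], .l [0, 8, 6, 12, 13, 7, 9, 6, 9, 5, 2, 5], .l [5, 6, 4, 15, 11, 5], .l [5, 14, 8, 4, 9, 2, 4, 7], .l [5, 11, 13, 14, 6, 11, 1, 9, 4, 5], .l [10, 13, 8, 14, 8, 6, 9, 2, 4, 7], .l [5, 6, 4, 15, 11, 7], .l [5, 14, 8, 15,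 3, 13, 6], .l [14, 17, 8, 16, 10, 15, 1, 11, 6, 7], .l [5, 6, 4, 13, 9, 14], .l [5, 14, 8, 15, 3, 13, 6], .l [5, 14, 8, 17, 5, 15, 6], .l [16, 19, 8, 16, 10, 15, 1, 11, 6, 7], .l [5, 6, 4, 13, 9, 16]]),
([p 5 1, g, s 0 2, g, p 0 0, s 0 3, g, s 1 0, g, s 4 0, g, s 2 4, p 3 5, s 0 6, g, s 6 0, g], .hi 4, [.l [6, 3, 13, 7, 6], .l [3, 14, 10, 8, 9, 5, 7, 2, 4, 5], .l [6, 3], .l [4, 1, 11, 7, 6], .l [6, 1, 13, 7, 6], .r 4004 [1, 2, 7, 3, 4, 5, 6] [1, 1, 1, 1, 1, 1, 1, 1], .l [6, 1], .y [4], .c, .l [7, 2, 12], .l [4, 6], .l [7, 2], .l [9, 4, 12], .l [4, 8], .l [9, 4], .l [11, 6, 12], .l [4, 10], .l [11, 6], .l [4, 12, 7], .l [11, 1, 11, 0, 4, 11], .l [4, 14], .l [15, 10], .l [11, 1, 11, 0, 4, 13], .l [4, 16], .l [17, 12]]),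
([p 5 1, g, s 0 2, g, s 0 3, g, s 1 0, g, s 4 0, g, s 2 4, p 3 5, s 0 6, g, s 6 0, g], .bot 3, [.r 3087 [3, 4, 5] [1, 3, 1, 4], .r 3087 [3, 4, 5] [3, 3, 1, 4], .r 4005 [1, 2, 3, 4, 5, 6] [1, 1, 1, 1, 1, 1, 1], .r 4002 [1, 2, 3, 4, 5, 6] [1, 1, 1, 1, 1, 1, 1]]),
([p 5 0, g, s 0 1, g, s 4 0, s 0 2, g, m 2 0, g, s 0 3, g, s 3 4, p 1 5, g], .lo 5, [.l [11, 6, 9, 10, 0, 7], .l [3, 14, 10, 9, 6, 9], .l [13, 6, 9, 12, 0, 9], .l [3, 14, 10, 9, 6, 9], .l [1, 14, 12, 11, 6, 7], .l [1, 14, 12, 11, 6, 7], .l [1, 9, 1, 4, 2, 8, 9, 5, 4, 5], .c, .l [1, 14, 12, 11, 8, 1], .l [7, 1, 13, 6, 1, 9, 4, 1], .l [1, 14, 12, 11, 8, 1], .y [5, 7], .l [1, 14, 12, 11, 8, 3], .l [7, 1, 13, 6, 1, 9, 4, 1], .l [1, 14, 12, 11, 8, 3], .l [1, 14, 12, 11, 8,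 5], .l [7, 1, 13, 6, 3, 9, 4, 1], .l [1, 14, 12, 11, 8, 5], .l [1, 12, 10, 9, 6, 9], .l [1, 7, 1, 12, 10, 6, 7, 3, 2, 3], .l [1, 12, 10, 9, 6, 9]]),
([p 4 0, g, s 0 1, g, s 3 0, s 0 0, g, s 0 2, g, s 2 3, p 1 4, g], .hi 5, [.l [3, 12, 8, 7, 4, 7], .l [3, 12, 8, 7, 4, 7], .l [11, 4, 7, 10, 0, 7], .l [1, 10, 8, 2, 5, 3, 4, 1], .l [1, 12, 10, 9, 4, 5], .l [10, 12, 1, 9, 4, 2, 6, 1], .l [1, 12, 10, 9, 4, 5], .y [5], .l [1, 12, 10, 9, 6, 1], .l [1, 12, 10, 9, 6, 1], .r 4007 [1, 5, 2, 3, 4] [1, 1, 1, 1, 1, 1], .l [1, 10, 8, 7, 4, 1], .l [1, 12, 10, 9, 6, 3], .l [1, 12, 10, 9, 6, 3], .l [7, 10, 5, 9, 2, 3], .l [1, 10, 8, 7, 4, 7], .l [1, 10, 8, 7, 4, 7], .l [8, 10, 1, 7, 9, 7, 4, 1]]),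
([p 7 0, g, s 0 1, g, s 0 2, p 3 0, g, p 4 3, g, p 5 4, g, p 0 5, g, s 6 0, g, s 2 6, p 1 7, g], .lo 11, [.l [0, 10], .l [1, 18, 16, 10, 10, 8, 8, 6, 6, 4, 7, 5, 6, 1], .l [2, 12], .l [1, 18, 16, 10], .l [4, 12, 12, 10, 10, 8, 8, 6, 9, 5, 8, 3], .l [4, 12], .l [1, 18, 16, 15, 1, 12, 8, 8, 6, 6, 4, 4, 2], .y [5, 11, 9, 7], .l [6, 18, 11, 5, 5, 3, 3, 1, 1, 9, 4, 1], .l [7, 12], .l [1, 18, 16, 15, 1, 9, 5, 5, 3, 3, 1, 5, 3], .l [8, 11, 9, 16, 9, 3, 3, 1, 1, 9, 4, 1], .l [9, 12], .l [5, 18, 12, 1, 15, 4, 1, 11, 3, 3, 1, 1, 7], .l [10, 13, 11, 11, 9, 14, 7, 1, 1, 9, 4, 1], .l [11, 12], .l [7, 9, 8, 17, 10, 1, 13, 4, 1, 9, 1, 1, 7], .l [12, 18, 5, 15, 15, 13, 13, 11, 11, 9, 4, 1], .l [11, 13, 12, 12, 10, 10, 8, 13, 6, 1, 9, 4, 1],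 .l [9, 11, 10, 10, 8, 15, 8, 1, 11, 4, 1, 7, 7], .l [12, 16, 3, 13, 13, 11, 11, 9, 9, 7, 4, 1], .l [14, 18, 3, 13, 13, 11, 11, 9, 9, 7, 4, 1], .l [11, 15, 14, 14, 12, 12, 10, 13, 6, 3, 9, 4, 1], .l [9, 11, 10, 10, 8, 15, 8, 1, 11, 4, 1, 5, 7], .l [14, 16, 1, 13, 15, 13, 13, 11, 11, 9, 9, 7, 4, 1], .l [1, 16, 14, 13, 1, 14, 10, 10, 8, 8, 6, 6, 4], .l [7, 9, 8, 15, 8, 1, 11, 4, 1, 7, 9, 1, 7]]),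
([p 6 0, g, s 0 1, g, s 0 2, p 3 0, g, p 4 3, g, p 0 4, g, s 5 0, g, s 2 5, p 1 6, g], .lo 9, [.l [0, 8], .l [1, 16, 14, 8, 8, 6, 6, 4, 7, 5, 6, 1], .l [2, 10], .l [1, 16, 14, 8], .l [4, 10, 10, 8, 8, 6, 9, 5, 8, 3], .l [4, 10], .l [3, 16, 12, 6], .y [5, 9, 7], .l [6, 16, 9, 3, 3, 1, 1, 9, 4, 1], .l [7, 10], .l [6, 9, 7, 14, 9, 3], .l [8, 11, 9, 14, 7, 1, 1, 9, 4, 1], .l [9, 10], .l [8, 11, 9, 9, 7, 12, 7, 1], .l [10, 16, 5, 13, 13, 11, 11, 9, 4, 1], .r 4009 [1, 2, 3, 4, 7, 5, 6] [1, 1, 1, 1, 1, 1, 1, 1], .l [8, 9, 7, 7, 5, 12, 7, 1], .l [10, 14, 3, 11, 11, 9, 9, 7, 4, 1], .l [12, 16, 3, 11, 11, 9, 9, 7, 4, 1], .l [14, 16, 1, 11, 13, 11, 11, 9, 9, 7, 4, 1], .l [8, 9, 7, 7, 5, 12, 7, 3], .l [12, 14, 1, 11, 13, 11, 11, 9, 9, 7,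 4, 1], .l [12, 14, 1, 11, 13, 11, 11, 9, 9, 7, 4, 1], .l [8, 9, 7, 7, 5, 10, 5, 10]]),
([p 5 0, g, s 0 1, g, s 0 2, p 3 0, g, p 0 3, g, s 4 0, g, s 2 4, p 1 5, g], .lo 7, [.l [0, 6], .l [1, 14, 12, 6, 6, 4, 7, 5, 6, 1], .l [2, 8], .l [1, 14, 12, 6], .l [4, 8, 8, 6, 9, 5, 8, 3], .l [4, 8], .l [3, 14, 10, 4], .y [5, 7], .l [6, 14, 7, 1, 1, 9, 4, 1], .l [7, 8], .l [6, 9, 7, 12, 7, 1], .l [8, 14, 5, 11, 11, 9, 4, 1], .r 4010 [1, 2, 3, 6, 4, 5] [1, 1, 1, 1, 1, 1, 1], .l [6, 7, 5, 12, 7, 1], .l [8, 12, 3, 9, 9, 7, 4, 1], .l [10, 14, 3, 9, 9, 7, 4, 1], .l [12, 14, 1, 9, 11, 9, 9, 7, 4, 1], .l [6, 7, 5, 12, 7, 3], .l [10, 12, 1, 9, 11, 9, 9, 7, 4, 1], .l [10, 12, 1, 9, 11, 9, 9, 7, 4, 1], .l [6, 7, 5, 10, 5, 10]]),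
([p 4 0, g, s 0 1, g, s 0 2, p 0 0, g, s 3 0, g, s 2 3, p 1 4, g], .lo 5, [.l [0, 4], .l [3, 12, 8, 7, 4, 7], .l [2, 6], .l [1, 12, 10, 4], .l [1, 12, 10, 9, 4, 5], .l [4, 6], .l [3, 12, 8, 2], .y [5], .l [1, 12, 10, 9, 6, 1], .r 4011 [1, 2, 5, 3, 4] [1, 1, 1, 1, 1, 1], .l [1, 12, 10, 9, 6, 1], .l [1, 10, 8, 7, 4, 1], .l [1, 12, 10, 9, 6, 3], .l [10, 12, 1, 7, 9, 7, 4, 1], .l [1, 12, 10, 9, 6, 3], .l [1, 10, 8, 7, 4, 7], .l [8, 10, 1, 7, 9, 7, 4, 1], .l [1, 10, 8, 7, 4, 7]]),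
([p 5 0, g, s 0 1, g, s 0 2, s 0 3, g, m 3 0, g, s 4 0, g, s 2 4, p 1 5, g], .lo 5, [.l [11, 6, 9, 10, 0, 7], .l [3, 14, 10, 9, 6, 9], .l [13, 6, 9, 12, 0, 9], .l [3, 14, 10, 9, 6, 9], .l [1, 14, 12, 11, 6, 7], .l [1, 14, 12, 11, 6, 7], .l [1, 9, 1, 4, 2, 8, 9, 5, 4, 5], .l [1, 14, 12, 11, 8, 1], .l [7, 1, 13, 6, 1, 9, 4, 1], .l [1, 14, 12, 11, 8, 1], .y [5, 7], .l [1, 14, 12, 11, 8, 3], .l [7, 1, 13, 6, 1, 9, 4, 1], .l [1, 14, 12, 11, 8, 3], .l [1, 12, 10, 9, 6, 3], .l [1, 14, 12, 11, 8, 5], .l [7, 1, 13, 6, 3, 9, 4, 1], .l [1, 14, 12, 11, 8, 5], .l [1, 12, 10, 9, 6, 9], .l [1, 7, 1, 12, 10, 6, 7, 3, 2, 3], .l [1, 12, 10, 9, 6, 9]]),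
([p 4 0, g, s 0 1, g, s 0 2, s 0 0, g, s 3 0, g, s 2 3, p 1 4, g], .hi 5, [.l [3, 12, 8, 7, 4, 7], .l [3, 12, 8, 7, 4, 7], .l [11, 4, 7, 10, 0, 7], .l [1, 10, 8, 2, 5, 3, 4, 1], .l [1, 12, 10, 9, 4, 5], .l [10, 12, 1, 9, 4, 2, 6, 1], .l [1, 12, 10, 9, 4, 5], .c, .y [5], .l [1, 12, 10, 9, 6, 1], .l [1, 12, 10, 9, 6, 1], .r 4013 [1, 2, 5, 3, 4] [1, 1, 1, 1, 1, 1], .l [1, 12, 10, 9, 6, 3], .l [1, 12, 10, 9, 6, 3], .l [7, 10, 5, 9, 2, 3], .l [1, 10, 8, 7, 4, 7], .l [1, 10, 8, 7, 4, 7], .l [8, 10, 1, 7, 9, 7, 4, 1]]),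
([p 7 0, g, s 0 1, g, s 0 2, m 0 3, g, m 3 4, g, m 4 5, g, m 5 0, g, s 6 0, g, s 2 6, p 1 7, g], .hi 11, [.l [1, 18, 16, 10, 10, 8, 8, 6, 6, 4, 7, 5, 6, 1], .l [1, 18, 16, 10], .l [2, 12], .l [1, 16, 14, 8, 8, 6, 6, 4, 4, 2, 5, 3, 4], .l [4, 12, 12, 10, 10, 8, 8, 6, 9, 5, 8, 3], .l [1, 18, 16, 15, 1, 12, 8, 8, 6, 6, 4, 4, 2], .l [4, 12], .l [3, 16, 12, 6, 6, 4, 4, 2, 2, 0, 3], .y [5, 7, 9, 11], .l [6, 18, 11, 5, 5, 3, 3, 1, 1, 9, 4, 1], .l [1, 18, 16, 15, 1, 9, 5, 5, 3, 3, 1, 5, 3], .l [7, 12], .l [8, 11, 9, 16, 9, 3, 3, 1, 1, 9, 4, 1], .l [5, 18, 12, 1, 15, 4, 1, 11, 3, 3, 1, 1, 7], .l [9, 12], .l [10, 13, 11, 11, 9, 14, 7, 1, 1, 9, 4, 1], .l [7, 9, 8, 17, 10, 1, 13, 4, 1, 9, 1, 1, 7], .l [11, 12], .l [12, 18, 5, 15, 15, 13,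 13, 11, 11, 9, 4, 1], .l [9, 11, 10, 10, 8, 15, 8, 1, 11, 4, 1, 7, 7], .l [11, 13, 12, 12, 10, 10, 8, 13, 6, 1, 9, 4, 1], .l [14, 18, 3, 13, 13, 11, 11, 9, 9, 7, 4, 1], .l [9, 11, 10, 10, 8, 15, 8, 1, 11, 4, 1, 5, 7], .l [11, 15, 14, 14, 12, 12, 10, 13, 6, 3, 9, 4, 1], .l [14, 16, 1, 13, 15, 13, 13, 11, 11, 9, 9, 7, 4, 1], .l [7, 9, 8, 15, 8, 1, 11, 4, 1, 7, 9, 1, 7], .l [1, 16, 14, 13, 1, 14, 10, 10, 8, 8, 6, 6, 4]]),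
([p 6 0, g, s 0 1, g, s 0 2, m 0 3, g, m 3 4, g, m 4 0, g, s 5 0, g, s 2 5, p 1 6, g], .hi 9, [.l [1, 16, 14, 8, 8, 6, 6, 4, 7, 5, 6, 1], .l [1, 16, 14, 8], .l [2, 10], .l [1, 14, 12, 6, 6, 4, 4, 2, 5, 3, 4, 1], .l [4, 10, 10, 8, 8, 6, 9, 5, 8, 3], .l [3, 16, 12, 6], .l [4, 10], .l [3, 14, 10, 4, 4, 2, 2, 0, 3], .y [5, 7, 9], .l [6, 16, 9, 3, 3, 1, 1, 9, 4, 1], .l [6, 9, 7, 14, 9, 3], .l [7, 10], .l [8, 11, 9, 14, 7, 1, 1, 9, 4, 1], .l [8, 11, 9, 9, 7, 12, 7, 1], .l [9, 10], .l [10, 16, 5, 13, 13, 11, 11, 9, 4, 1], .l [8, 9, 7, 7, 5, 12, 7, 1], .r 4015 [1, 2, 3, 4, 7, 5, 6] [1, 1, 1, 1, 1, 1, 1, 1], .l [12, 16, 3, 11, 11, 9, 9, 7, 4, 1], .l [8, 9, 7, 7, 5, 12, 7, 3], .l [14, 16, 1, 11, 13, 11, 11, 9, 9, 7, 4, 1], .l [12, 14,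 1, 11, 13, 11, 11, 9, 9, 7, 4, 1], .l [8, 9, 7, 7, 5, 10, 5, 10], .l [12, 14, 1, 11, 13, 11, 11, 9, 9, 7, 4, 1]]),
([p 5 0, g, s 0 1, g, s 0 2, m 0 3, g, m 3 0, g, s 4 0, g, s 2 4, p 1 5, g], .hi 7, [.l [1, 14, 12, 6, 6, 4, 7, 5, 6, 1], .l [1, 14, 12, 6], .l [2, 8], .l [1, 12, 10, 4, 4, 2, 5, 3, 4, 1], .l [4, 8, 8, 6, 9, 5, 8, 3], .l [3, 14, 10, 4], .l [4, 8], .l [3, 12, 8, 2, 2, 0, 3], .y [5, 7], .l [6, 14, 7, 1, 1, 9, 4, 1], .l [6, 9, 7, 12, 7, 1], .l [7, 8], .l [8, 14, 5, 11, 11, 9, 4, 1], .l [6, 7, 5, 12, 7, 1], .r 4016 [1, 2, 3, 6, 4, 5] [1, 1, 1, 1, 1, 1, 1], .l [10, 14, 3, 9, 9, 7, 4, 1], .l [6, 7, 5, 12, 7, 3], .l [12, 14, 1, 9, 11, 9, 9, 7, 4, 1], .l [10, 12, 1, 9, 11, 9, 9, 7, 4, 1], .l [6, 7, 5, 10, 5, 10], .l [10,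 12, 1, 9, 11, 9, 9, 7, 4, 1]]),
([p 4 0, g, s 0 1, g, s 0 2, m 0 0, g, s 3 0, g, s 2 3, p 1 4, g], .hi 5, [.l [3, 12, 8, 7, 4, 7], .l [1, 12, 10, 4], .l [2, 6], .l [1, 10, 8, 2, 5, 3, 4, 1], .l [1, 12, 10, 9, 4, 5], .l [3, 12, 8, 2], .l [4, 6], .c, .y [5], .l [1, 12, 10, 9, 6, 1], .l [1, 12, 10, 9, 6, 1], .r 4017 [1, 2, 5, 3, 4] [1, 1, 1, 1, 1, 1], .l [1, 12, 10, 9, 6, 3], .l [1, 12, 10, 9, 6, 3], .l [10, 12, 1, 7, 9, 7, 4, 1], .l [1, 10, 8, 7, 4, 7], .l [1, 10, 8, 7, 4, 7], .l [8, 10, 1, 7, 9, 7, 4, 1]]),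
([p 4 0, g, s 0 1, g, s 0 2, g, s 3 0, g, s 2 3, p 1 4, g], .top 5, [.l [1, 8, 6, 5, 2, 1], .r 4014 [1, 2, 3, 4] [1, 1, 1, 1, 1], .r 4012 [1, 2, 3, 4] [1, 1, 1, 1, 1], .r 4018 [1, 2, 3, 4] [1, 1, 1, 1, 1]]),
([p 4 1, g, s 0 2, g, s 1 0, g, s 3 0, s 0 0, g, s 0 3, p 2 4, s 0 5, g, s 5 0, g], .lo 9, [.r 4006 [1, 6, 2, 3, 4, 5] [1, 1, 1, 1, 2, 1, 1], .l [11, 8, 11, 0, 8], .l [3, 12, 8, 7, 8], .r 4019 [2, 6, 3, 4] [1, 1, 3, 2, 4], .l [1, 12, 10, 9, 6], .r 3801 [2, 6, 3, 4] [1, 1, 3, 2, 4], .r 4019 [2, 6, 3, 4] [1, 1, 1, 2, 4], .r 4019 [2, 6, 3, 4] [1, 3, 1, 2, 4], .l [1, 12, 10, 9, 4], .r 3801 [2, 6, 3, 4] [1, 3, 1, 2, 4], .y [6, 9], .l [1, 10, 8, 7, 2, 1], .r 4008 [2, 6, 3, 4] [1, 3, 1, 1, 4], .l [1, 12, 10, 9, 1], .r 3831 [2,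 6, 4] [1, 6, 1, 4], .l [9, 12, 14, 12, 0, 1], .l [13, 3, 9], .l [1, 10, 8, 7, 10], .l [4, 3, 12, 3, 9, 1, 7, 1], .l [14, 12, 7, 12, 4, 1], .l [15, 5, 11], .l [1, 10, 8, 7, 12]]),
([p 5 1, g, s 0 2, g, s 4 0, s 0 3, g, s 1 0, g, m 3 0, g, s 0 4, p 2 5, g], .lo 5, [.l [3, 14, 10, 9, 6, 9], .l [13, 6, 9, 12, 0, 9], .l [3, 14, 10, 9, 6, 9], .l [1, 14, 12, 11, 6, 7], .l [1, 14, 12, 11, 6, 7], .l [9, 8, 13, 4, 9, 2, 4, 7], .c, .l [1, 14, 12, 11, 8, 1], .l [7, 1, 13, 6, 3, 9, 4, 1], .l [1, 14, 12, 11, 8, 1], .l [1, 12, 10, 9, 6, 1], .l [1, 14, 12, 11, 8, 3], .l [9, 3, 13, 4, 1, 7, 4, 1], .l [1, 14, 12, 11, 8, 3], .y [5, 9], .l [1, 14, 12, 11, 8, 5], .l [9, 3, 13, 4, 1, 7, 4, 1], .l [1, 14, 12, 11, 8, 5], .l [1, 12, 10, 9, 6, 9], .l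 [7, 6, 11, 4, 11, 4, 6, 3], .l [1, 12, 10, 9, 6, 9]]),
([p 5 1, g, s 0 2, g, s 4 0, s 0 3, g, m 3 0, g, s 1 0, g, s 0 4, p 2 5, g], .lo 5, [.l [3, 14, 10, 9, 6, 9], .l [13, 6, 9, 12, 0, 9], .l [3, 14, 10, 9, 6, 9], .l [1, 14, 12, 11, 6, 7], .l [1, 14, 12, 11, 6, 7], .l [11, 10, 13, 2, 9, 2, 6, 7], .c, .l [1, 14, 12, 11, 8, 1], .l [7, 1, 13, 6, 1, 9, 4, 1], .l [1, 14, 12, 11, 8, 1], .y [5, 7], .l [1, 14, 12, 11, 8, 3], .l [7, 1, 13, 6, 1, 9, 4, 1], .l [1, 14, 12, 11, 8, 3], .l [1, 12, 10, 9, 6, 3], .l [1, 14, 12, 11, 8, 5], .l [7, 1, 13, 6, 3, 9, 4, 1], .l [1, 14, 12, 11, 8, 5], .l [1, 12, 10, 9, 6, 9], .l [9, 8, 11, 2, 11, 4, 8, 5], .l [1, 12, 10, 9, 6, 9]]),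
([p 4 1, g, s 0 2, g, s 3 0, s 0 0, g, s 1 0, g, s 0 3, p 2 4, g], .hi 5, [.l [3, 12, 8, 7, 4, 7], .l [3, 12, 8, 7, 4, 7], .l [11, 4, 7, 10, 0, 7], .l [1, 10, 8, 7, 4, 5], .l [1, 12, 10, 9, 4, 5], .l [9, 8, 11, 2, 7, 2, 4, 5], .l [1, 12, 10, 9, 4, 5], .y [5], .l [1, 12, 10, 9, 6, 1], .l [1, 12, 10, 9, 6, 1], .r 4022 [1, 2, 5, 3, 4] [1, 1, 1, 1, 1, 1], .l [1, 12, 10, 9, 6, 3], .l [1, 12, 10, 9, 6, 3], .r 4021 [1, 2, 5, 3, 4] [1, 1, 1, 1, 1, 1], .l [1, 10, 8, 7, 4, 3], .l [1, 10, 8, 7, 4, 7], .l [1, 10, 8, 7, 4, 7], .l [7, 6, 9, 2, 9, 4, 6, 3]]),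
([p 3 0, s 0 0, g, s 0 1, g, s 2 0, s 0 0, g, s 0 2, p 1 3, s 0 4, g, s 4 0, g], .hi 0, [.c, .r 3985 [5, 1, 3] [1, 1, 4, 3], .l [0, 2], .l [3, 2], .y [0, 3, 9], .r 4020 [5, 1, 2, 3, 4] [2, 1, 1, 1, 1, 1], .l [0, 4], .l [5, 4], .l [8, 2, 6, 7, 0, 3], .r 4023 [5, 1, 2, 3] [2, 1, 1, 1, 4], .l [0, 7], .l [8, 7], .l [8, 7, 8, 0, 4], .l [0, 9, 8], .r 1255 [5, 3] [7, 1, 3], .l [0, 11], .l [12, 11], .r 1255 [5, 3] [7, 3, 1], .l [0, 13], .l [14, 13]]),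
([p 4 0, s 0 1, g, s 0 2, g, s 3 0, g, s 0 3, p 2 4, s 0 5, g, s 5 0, g, s 1 0, g], .top 6, [.c, .r 4024 [2, 3, 4, 5] [1, 1, 1, 1, 3], .r 3990 [1, 2, 3, 4, 5] [1, 1, 1, 1, 1, 1], .r 3999 [1, 2, 3, 4, 5] [1, 1, 1, 1, 1, 1]]),
([p 3 0, s 0 1, g, s 2 0, g, s 0 2, p 0 3, s 0 4, g, s 4 0, g, s 1 0, g], .lo 6, [.y [0, 6], .r 4025 [1, 5, 2, 3, 4] [1, 1, 1, 1, 1, 1], .l [3, 7], .l [2, 8, 5, 4], .l [2, 6, 3, 2, 1], .r 3953 [5, 2, 3] [1, 1, 1, 5], .l [5, 7], .l [4, 8, 3, 2], .r 3948 [2, 3, 4, 5] [1, 1, 1, 1, 3], .r 3847 [3, 5] [4, 1, 5], .l [5, 1, 5, 0, 6], .r 3929 [1, 3, 4, 5] [4, 1, 1, 1], .r 3909 [1, 3, 4, 5] [4, 1, 1, 1, 1], .r 3847 [3, 5] [4, 3, 3], .l [5, 1, 5, 0, 8], .r 3911 [1, 3, 5] [4, 3, 1], .r 3873 [1, 3, 5] [4, 3, 1, 1],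 .r 3847 [3, 5] [4, 5, 1], .l [5, 1, 5, 0, 10]]),
([p 2 0, s 0 1, g, s 0 0, p 0 2, s 0 3, g, s 3 0, g, s 1 0, g], .hi 3, [.r 3852 [4, 2] [1, 0, 5], .r 4026 [1, 4, 2, 3] [1, 1, 1, 1, 1], .r 2428 [4, 2] [2, 1, 6], .r 3714 [4, 2] [2, 1, 6], .y [3], .c, .l [3, 4, 0], .r 3851 [4, 2] [1, 1, 5], .r 3850 [4, 2] [2, 1, 5], .r 3849 [4, 2] [2, 1, 5], .r 3851 [4, 2] [1, 3, 3], .r 3850 [4, 2] [2, 3, 3], .r 3849 [4, 2] [2, 3, 3], .r 3851 [4, 2] [1, 5, 1], .r 3850 [4, 2] [2, 5, 1], .r 3849 [4, 2] [2, 5, 1]]),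
([p 2 0, s 0 1, g, p 0 2, s 0 3, g, s 3 0, g, s 1 0, g], .bot 2, [.r 1256 [2] [5], .r 4027 [1, 2, 3] [1, 1, 1, 1], .r 1201 [2] [2, 6], .r 2849 [2] [2, 6]]),
([p 1 0, s 0 0, g, p 0 1, s 0 2, g, s 2 0, g], .hi 1, [.y [1], .r 3912 [3, 1] [1, 1, 3], .r 454 [3] [1, 6], .r 854 [3, 1] [1, 1, 4], .r 454 [3] [1, 4], .l [1, 3, 1], .r 453 [3, 1, 2] [1, 1, 1, 1], .r 454 [3] [4, 3], .r 853 [3, 1] [1, 2, 3], .r 4028 [3, 1, 2] [1, 1, 1, 1], .r 454 [3] [6, 1], .r 853 [3, 1] [1, 4, 1]]),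
([p 1 0, g, p 0 1, s 0 2, g, s 2 0, g], .top 1, [.r 334 [] [4], .r 4029 [1, 2] [1, 1, 1], .r 334 [] [6], .r 444 [] [6]]),
([p 1 0, g, p 2 0, g, p 0 1, s 0 2, g], .lo 4, [.y [0, 4], .l [5, 1, 5, 0, 1], .l [2, 5], .l [1, 6, 4, 3], .l [2, 3], .l [3, 1, 5, 2, 1], .l [4, 5], .l [3, 6, 2, 1], .l [3, 1, 3, 0, 3], .r 3848 [1, 3] [3, 1, 1], .l [3, 4, 0, 5]])]

def d15_3 : List (List Item × Qry × List Rf) := [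
([p 1 0, g, p 0 1, s 0 0, g], .hi 3, [.l [2, 4, 1], .r 4031 [1, 2] [1, 1, 1], .l [2, 4, 1], .r 3397 [1, 2] [1, 1], .y [3], .r 4030 [1, 2] [1, 1, 1], .r 3642 [1, 2] [1, 1, 1], .r 3640 [1, 2] [1, 1, 1]]),
([p 1 0, g, p 0 1, g], .top 3, [.r 2583 [1] [1], .r 4032 [1] [1, 1], .r 2528 [1] [1, 1], .r 3376 [1] [1, 1]]),
([p 0 0, g], .lo 0, [.y [0], .l [1], .r 4033 [1] [1, 1], .l [1]]),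
([s 2 1, p 3 0, g, p 0 2, g, p 4 3, p 5 4, g, p 6 5, g, p 7 6, g, p 8 7, g, p 0 8, g, m 1 0, g], .lo 14, [.y [1, 14, 12, 10, 8, 6, 5], .l [3, 15, 15, 13, 13, 11, 11, 9, 9, 7, 4], .l [3, 15], .l [3, 0, 15, 15, 13, 13, 11, 11, 9, 9, 7, 4], .l [5, 15, 15, 13, 13, 11, 11, 9, 9, 7, 2], .l [5, 15], .l [3, 2, 17, 14, 16, 12, 12, 11, 11, 9, 9, 7, 7, 5, 5, 3, 5, 1], .l [7, 10, 8, 8, 7, 15, 10, 7, 7, 5, 5, 3, 3, 1, 6, 2, 3], .l [8, 15], .l [3, 2, 17, 14, 16, 14, 14, 13, 13, 9, 9, 7, 7, 5, 5, 3, 5, 1], .l [9, 12, 10, 10, 8, 8, 7, 13, 8, 5, 5, 3, 3, 1, 6, 2, 3], .l [10, 15], .l [3, 2, 17, 14, 16, 14, 14, 13, 13, 11, 11, 7, 7, 5, 5, 3, 5, 1], .l [11, 14, 12, 12, 10, 10, 8, 8, 7, 11, 6, 3, 3, 1, 6, 2, 3], .l [12, 15], .l [3, 2, 17, 14, 16,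 14, 14, 13, 13, 11, 11, 9, 9, 5, 5, 3, 5, 1], .l [13, 16, 14, 14, 12, 12, 10, 10, 8, 8, 7, 9, 4, 1, 6, 2, 3], .l [14, 15], .l [3, 2, 17, 14, 16, 14, 14, 13, 13, 11, 11, 9, 9, 7, 7, 3, 5, 1], .l [13, 14, 12, 12, 10, 10, 8, 12, 4, 1, 6, 2, 4, 6, 1], .l [3, 2, 17, 14, 16, 14, 14, 13, 13, 11, 11, 9, 9, 7, 7, 5, 5, 3], .l [13, 14, 12, 12, 10, 10, 8, 12, 4, 1, 6, 2, 4, 6, 1], .l [13, 14, 12, 12, 10, 10, 8, 10, 2, 1, 4, 2, 2, 4, 1], .l [13, 14, 12, 12, 10, 10, 8, 8, 6, 8, 2, 8, 1, 6, 4, 2, 3], .l [3, 2, 15, 12, 14, 12, 12, 11, 11, 9, 9, 7, 7, 5, 5, 3, 5, 1], .l [3, 2, 15, 12, 14, 12, 12, 11, 11, 9, 9, 7, 7, 5, 5, 3, 3, 3]]),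
([s 3 1, p 4 2, g, s 2 0, g, p 0 3, g, p 5 4, p 6 5, g, p 7 6, g, p 8 7, g, p 0 8, g, m 1 0, g], .lo 14, [.l [3, 15, 15, 13, 13, 11, 11, 9, 6], .l [3, 15], .l [3, 0, 15, 15, 13, 13, 11, 11, 9, 6], .y [1, 3, 14, 12, 10, 8, 7], .l [5, 15, 15, 13, 13, 11, 11, 9, 4], .l [5, 15], .l [5, 0, 15, 15, 13, 13, 11, 11, 9, 4], .l [7, 15, 15, 13, 13, 11, 11, 9, 2], .l [7, 15], .l [7, 0, 15, 15, 13, 13, 11, 11, 9, 2], .l [9, 12, 10, 10, 9, 15, 8, 5, 5, 3, 3, 1, 8, 4, 5], .l [10, 15], .l [5, 4, 12, 3, 13, 15, 8, 13, 8, 1, 6, 8, 1], .l [11, 14, 12, 12, 10, 10, 9, 13, 6, 3, 3, 1, 8, 4, 5], .l [12, 15], .l [11, 14, 12, 12, 10, 10, 9, 13, 6, 3, 3, 1, 8, 4, 5], .l [13, 16, 14, 14, 12, 12, 10, 10, 9, 11, 4, 1, 8, 4, 5], .l [14, 15], .l [13, 16,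 14, 14, 12, 12, 10, 10, 9, 11, 4, 1, 8, 4, 5], .l [13, 14, 12, 12, 10, 14, 4, 1, 8, 4, 6, 8, 1], .r 4035 [1, 3, 4, 5, 6, 7, 8, 9] [3, 1, 1, 1, 1, 1, 1, 1], .l [13, 14, 12, 12, 10, 14, 4, 1, 8, 4, 6, 8, 1], .l [13, 14, 12, 12, 10, 12, 2, 1, 6, 4, 4, 6, 1], .l [13, 14, 12, 12, 10, 10, 8, 10, 2, 10, 1, 8, 6, 4, 5], .l [5, 16, 10, 13, 1, 15, 10, 10, 8, 8, 6, 6, 4, 6, 3], .l [13, 14, 12, 12, 10, 10, 8, 10, 2, 10, 1, 8, 6, 4, 5]]),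
([s 3 1, p 4 2, g, s 2 0, g, p 0 3, g, p 5 4, p 6 5, g, p 7 6, g, p 0 7, g, m 1 0, g], .lo 12, [.l [3, 13, 13, 11, 11, 9, 6], .l [3, 13], .l [3, 0, 13, 13, 11, 11, 9, 6], .y [1, 3, 12, 10, 8, 7], .l [5, 13, 13, 11, 11, 9, 4], .l [5, 13], .l [5, 0, 13, 13, 11, 11, 9, 4], .l [7, 13, 13, 11, 11, 9, 2], .l [7, 13], .l [7, 0, 13, 13, 11, 11, 9, 2], .l [9, 12, 10, 10, 9, 13, 6, 3, 3, 1, 8, 4, 5], .l [10, 13], .l [9, 12, 10, 10, 9, 13, 6, 3, 3, 1, 8, 4, 5], .l [11, 14, 12, 12, 10, 10, 9, 11, 4, 1, 8, 4, 5], .l [12, 13], .l [11, 14, 12, 12, 10, 10, 9, 11, 4, 1, 8, 4, 5], .l [11, 12, 10, 14, 4, 1, 8, 4, 6, 8, 1], .r 4036 [1, 2, 3, 4, 5, 6, 7, 8] [1, 1, 1, 1, 1, 1, 1, 1], .l [11, 12, 10, 14, 4, 1, 8, 4, 6, 8, 1], .l [11, 12, 10, 12, 2,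 1, 6, 4, 4, 6, 1], .l [11, 12, 10, 10, 8, 10, 2, 10, 1, 8, 6, 4, 5], .l [5, 14, 8, 11, 1, 13, 8, 8, 6, 6, 4, 6, 3], .l [11, 12, 10, 10, 8, 10, 2, 10, 1, 8, 6, 4, 5]]),
([s 3 1, p 4 2, g, s 2 0, g, p 0 3, g, p 5 4, p 6 5, g, p 0 6, g, m 1 0, g], .lo 10, [.l [3, 11, 11, 9, 6], .l [3, 11], .l [3, 0, 11, 11, 9, 6], .y [1, 3, 10, 8, 7], .l [5, 11, 11, 9, 4], .l [5, 11], .l [5, 0, 11, 11, 9, 4], .l [7, 11, 11, 9, 2], .l [7, 11], .l [7, 0, 11, 11, 9, 2], .l [9, 12, 10, 10, 9, 11, 4, 1, 8, 4, 5], .l [10, 11], .l [9, 12, 10, 10, 9, 11, 4, 1, 8, 4, 5], .l [9, 14, 4, 1, 8, 4, 6, 8, 1], .r 4037 [1, 2, 3, 4, 5, 6, 7] [1, 1, 1, 1, 1, 1, 1], .l [9, 14, 4, 1, 8, 4, 6, 8, 1], .l [9, 12, 2, 1, 6, 4, 4, 6, 1], .l [9, 10, 8, 10, 2, 10, 1, 8, 6,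 4, 5], .l [5, 12, 6, 9, 1, 11, 6, 6, 4, 6, 3], .l [9, 10, 8, 10, 2, 10, 1, 8, 6, 4, 5]]),
([s 2 1, p 6 0, g, p 0 2, g, p 3 0, g, p 4 3, g, p 5 4, g, p 7 5, g, p 0 6, g, p 8 7, g, p 0 8, g, m 1 0, g], .hi 5, [.l [7, 3, 14, 8, 11], .l [5, 4, 20, 15, 17, 15, 15, 13, 13, 11, 11, 9, 11, 9, 7, 5, 5, 3], .l [7, 3], .l [3, 2, 18, 15, 15, 13, 13, 11, 11, 9, 9, 7, 9, 7, 5, 3, 3, 1], .l [7, 1, 20, 13, 16, 2, 7], .l [11, 13, 12, 12, 10, 10, 8, 8, 6, 14, 9, 12, 2, 7, 9, 7, 7, 5], .l [7, 1], .l [7, 1, 8, 6, 18, 13, 16, 2, 7], .l [5, 6], .l [7, 1], .l [9, 3, 3, 1, 8, 6, 16, 11, 14, 2, 7], .l [5, 8], .l [9, 3], .l [11, 5, 5, 3, 3, 1, 8, 6, 14, 9, 12, 2, 7], .l [5, 10], .l [11, 5], .l [13, 7, 7, 5, 5, 3, 3, 1, 10, 8, 12, 7, 10, 2, 7], .l [5,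 12], .l [13, 7], .l [5, 12], .l [15, 9, 9, 7, 7, 5, 5, 3, 14, 5, 8, 2, 9], .l [5, 14], .l [15, 9], .l [17, 11, 11, 9, 9, 7, 7, 5, 14, 3, 6, 2, 9], .l [5, 16], .l [17, 11], .y [5, 17, 15, 11, 9, 7], .l [19, 13, 13, 11, 11, 9, 9, 7, 14, 1, 4, 2, 9], .l [5, 18], .l [19, 13], .l [21, 15, 15, 13, 13, 11, 11, 9, 14, 6, 1, 8, 6, 2, 7], .l [5, 20], .l [21, 15]]),
([s 2 1, p 5 0, g, p 0 2, g, p 3 0, g, p 4 3, g, p 6 4, g, p 0 5, p 7 6, g, p 0 7, g, m 1 0, g], .hi 5, [.l [7, 3, 12, 6, 9], .l [11, 14, 13, 13, 11, 11, 9, 9, 5, 7, 4, 9, 4, 6, 3], .l [7, 3], .l [9, 12, 11, 11, 9, 9, 7, 7, 5, 5, 2, 7, 4, 4, 1], .l [7, 1, 17, 10, 13, 2, 6], .r 4039 [1, 2, 8, 3, 4, 5, 6, 7] [1, 1, 1, 1, 1, 1, 0, 1, 1, 1], .l [7, 1], .l [7, 1, 8, 6, 15, 10, 13,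 2, 6], .l [5, 6], .l [7, 1], .l [9, 3, 3, 1, 8, 6, 13, 8, 11, 2, 6], .l [5, 8], .l [9, 3], .l [11, 5, 5, 3, 3, 1, 9, 7, 11, 6, 9, 2, 6], .l [5, 10], .l [11, 5], .l [5, 10], .l [5, 13, 15, 13, 6], .l [5, 13], .l [14, 8], .y [5, 14, 12, 9, 7], .l [16, 10, 10, 8, 8, 6, 13, 1, 4, 2, 8], .l [5, 15], .l [16, 10], .l [18, 12, 12, 10, 10, 8, 13, 6, 1, 8, 6, 2, 6], .l [5, 17], .l [18, 12]]),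
([s 2 1, p 4 0, g, p 0 2, g, p 3 0, g, p 5 3, g, p 0 4, p 6 5, g, p 0 6, g, m 1 0, g], .hi 5, [.l [7, 3, 10, 4, 7], .l [9, 12, 11, 11, 9, 9, 5, 7, 4, 9, 4, 6, 3], .l [7, 3], .l [7, 10, 9, 9, 7, 7, 5, 5, 2, 7, 4, 4, 1], .l [7, 1, 15, 8, 11, 2, 6], .r 4040 [1, 2, 7, 3, 4, 5, 6] [1, 1, 1, 1, 1, 1, 1, 1], .l [7, 1], .l [7, 1, 8, 6, 13, 8, 11, 2, 6], .l [5, 6], .l [7, 1], .l [9, 3, 3, 1, 9, 7, 11, 6, 9, 2, 6], .l [5, 8], .l [9, 3], .l [5, 8], .l [5, 11, 13, 11, 4], .l [5, 11], .l [12, 6], .y [5, 12, 10, 7], .l [14, 8, 8, 6, 13, 1, 4, 2, 8], .l [5, 13], .l [14, 8], .l [16, 10, 10, 8, 13, 6, 1, 8, 6, 2, 6], .l [5, 15], .l [16, 10]]),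
([s 2 1, p 3 0, g, p 0 2, g, p 4 0, g, p 0 3, p 5 4, g, p 0 5, g, m 1 0, g], .hi 5, [.l [7, 3, 8, 2, 5], .l [7, 10, 9, 9, 5, 7, 4, 9, 4, 6, 3], .l [7, 3], .l [5, 8, 7, 7, 5, 5, 2, 7, 4, 4, 1], .l [7, 1, 13, 6, 9, 2, 6], .r 4041 [1, 2, 6, 3, 4, 5] [1, 1, 1, 1, 1, 1, 1], .l [7, 1], .l [7, 1, 9, 7, 11, 6, 9, 2, 6], .l [5, 6], .l [7, 1], .l [5, 6], .l [5, 9, 11, 9, 2], .l [5, 9], .l [10, 4], .y [5, 10, 8], .l [12, 6, 13, 1, 4, 2, 8], .l [5, 11], .l [12, 6], .l [14, 8, 13, 6, 1, 8, 6, 2, 6], .l [5, 13], .l [14, 8]]),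
([s 3 1, p 4 2, g, s 2 0, g, p 0 3, g, p 0 4, p 5 0, g, p 0 5, g, m 1 0, g], .hi 8, [.l [10, 6, 3, 7, 2], .l [7, 10, 5, 9, 6, 11, 4, 8, 5], .l [10, 6], .l [10, 4, 1, 7, 4], .l [7, 10, 7, 9, 4, 11, 6, 8, 3], .l [10, 4], .l [5, 8, 7, 7, 2, 9, 6, 6, 1], .l [10, 2, 13, 3, 8, 4, 8], .r 4042 [1, 3, 4, 6, 5] [3, 1, 1, 1, 1, 1], .l [10, 2], .r 4038 [1, 2, 3, 4, 6, 5] [1, 1, 1, 1, 1, 1], .l [3, 1, 9, 1, 9, 7, 4], .l [8, 9], .l [10, 1], .y [8, 10], .l [8, 11, 8, 4, 6, 8, 1], .l [8, 11], .l [12, 3], .l [8, 13, 10, 4, 6, 10, 3], .l [8, 13], .l [14, 5]]),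
([s 3 1, p 4 2, g, s 2 0, g, p 0 3, g, p 0 4, p 0 0, g, m 1 0, g], .lo 8, [.l [3, 9, 6], .l [3, 9], .l [3, 0, 9, 6], .l [1, 2, 2, 5, 4], .l [5, 9, 4], .l [5, 9], .l [5, 0, 9, 4], .l [5, 4, 11, 6, 10, 6, 7], .l [7, 9], .l [7, 0, 9, 2], .y [8], .l [5, 4, 11, 6, 10, 8, 1], .r 4043 [1, 2, 3, 4, 5] [1, 1, 1, 1, 1, 1], .l [5, 4, 11, 6, 10, 8, 1], .l [5, 4, 9, 4, 8, 6, 1], .l [5, 4, 9, 4, 8, 6, 7], .l [3, 1, 9, 6, 9, 2, 5, 2, 5], .l [5, 4, 9, 4, 8, 6, 7]]),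
([s 5 1, p 6 2, m 4 3, g, m 3 0, g, s 0 4, g, s 2 0, g, p 0 5, g, p 7 6, g, s 0 7, g, m 1 0, g], .hi 4, [.l [15, 11, 1, 7, 11, 2, 13, 2, 9, 1, 8, 3], .l [2, 7, 3, 1, 1, 3, 4], .l [4, 5], .l [13, 9, 1, 12, 1, 3, 9, 7, 2, 10, 8, 5], .l [12, 8, 1, 13, 2, 4, 10, 8, 3], .l [2, 7, 17, 11, 11, 5, 10, 8, 10, 2, 3, 9, 7], .y [2, 4, 6], .l [13, 9, 3, 12, 1, 3, 7, 5, 2, 10, 8, 5], .l [12, 8, 3, 13, 2, 4, 8, 6, 3], .l [3, 14, 11, 1, 11, 3, 1, 7, 12, 4, 7], .l [13, 9, 5, 12, 1, 3, 5, 3, 6, 10, 4, 1], .l [12, 8, 5, 13, 2, 4, 6, 4, 7], .l [3, 14, 11, 1, 11, 5, 1, 8, 5], .l [10, 6, 5, 11, 2, 4, 4, 2, 5], .l [3, 4, 2, 16, 14, 7, 9, 12, 3], .l [10, 9, 17, 7, 16, 12, 14, 4, 4, 2, 5], .l [1, 7, 11, 7, 15, 12, 12, 9, 1, 10, 5], .l [3, 10, 6, 11,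 3, 10, 14, 8, 1], .l [1, 7, 3, 11, 15, 8, 3], .l [2, 5, 17, 13, 13, 7, 12, 10, 12, 2, 3, 1, 7], .l [3, 4, 2, 5, 7, 2, 11, 8, 5, 5, 3, 7, 3], .l [3, 10, 6, 13, 5, 12, 14, 8, 3], .l [1, 7, 3, 13, 15, 6, 3], .l [2, 5, 17, 13, 13, 7, 12, 10, 12, 2, 3, 1, 5], .l [11, 18, 10, 16, 12, 1, 5, 11, 2, 8, 6, 3], .l [2, 5, 1, 15, 9, 10, 12], .l [10, 9, 15, 5, 14, 12, 14, 4, 4, 2, 5]]),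
([s 5 1, p 6 2, m 4 3, g, m 3 0, g, s 0 4, g, s 2 0, g, p 0 5, g, p 7 6, g, m 1 0, g, s 0 7, g], .hi 4, [.l [3, 16, 12, 1, 1, 11, 6, 10, 1, 6, 8, 1, 4, 5], .l [2, 7, 3, 1, 1, 3, 4], .l [4, 5], .l [13, 9, 1, 12, 1, 3, 9, 7, 2, 8, 6, 7], .l [12, 8, 1, 13, 2, 4, 10, 8, 3], .l [2, 7, 15, 9, 9, 3, 8, 6, 8, 2, 3, 7, 5], .y [2, 4, 6], .l [13, 9, 3, 12, 1, 3, 7, 5, 2, 8, 6, 7], .l [12, 8, 3, 13, 2, 4, 8, 6, 3], .l [3, 14, 11, 1, 11, 3, 1, 7, 10, 2, 5], .l [13, 9, 5, 12, 1, 3, 5, 3, 6, 8, 2, 7], .l [12, 8, 5, 13, 2, 4, 6, 4, 7], .l [3, 14, 11, 1, 11, 5, 1, 8, 5], .l [10, 6, 5, 11, 2, 4, 4, 2, 5], .l [3, 4, 2, 14, 12, 7, 9, 10, 1], .l [10, 9, 15, 5, 14, 10, 12, 4, 4, 2, 5], .l [1, 7, 11, 7, 13, 10, 10, 7, 1, 8, 3], .l [3, 10, 6, 11, 3,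 10, 12, 6, 1], .l [1, 7, 3, 11, 13, 6, 3], .l [2, 5, 15, 11, 11, 5, 10, 8, 10, 2, 3, 1, 5], .l [15, 18, 14, 16, 4, 7, 7, 5, 8, 10, 2, 3], .l [2, 5, 1, 13, 7, 8, 10], .l [10, 9, 13, 3, 12, 10, 12, 4, 4, 2, 5], .l [3, 4, 2, 5, 7, 2, 9, 6, 9, 9, 3, 7, 3], .l [11, 14, 2, 13, 15, 7, 7, 5, 8, 10, 2, 3], .l [2, 5, 1, 15, 9, 10, 12], .l [10, 9, 13, 3, 12, 10, 14, 6, 6, 4, 7]]),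
([s 5 1, p 6 2, m 4 3, g, m 3 0, g, s 0 4, g, s 2 0, g, p 0 5, g, p 0 6, g, m 1 0, g], .lo 12, [.l [3, 6, 4, 14, 12, 9, 9, 10, 1], .l [4, 13], .l [12, 11, 15, 3, 14, 12, 12, 2, 4, 2, 5], .l [10, 9, 13, 3, 12, 10, 10, 2, 2, 0, 3], .l [5, 16, 10, 7, 7, 8, 1], .l [6, 13], .l [2, 7, 1, 11, 9, 3, 4], .l [7, 16, 8, 5, 5, 6, 1], .l [8, 13], .l [1, 9, 1, 11, 13, 8, 11, 2, 3], .y [1, 8, 12], .l [9, 16, 6, 3, 3, 4, 1], .l [10, 13], .l [2, 5, 15, 11, 11, 3, 10, 8, 8, 4, 8, 4, 5], .l [11, 16, 4, 1, 13, 9, 10], .l [12, 13], .l [2, 5, 15, 11, 11, 5, 12, 2, 3, 9, 1, 5, 3], .r 4045 [1, 2, 3, 4, 5, 6, 7] [1, 1, 1, 1, 1, 1, 1, 1], .l [2, 5, 15, 11, 11, 5, 10, 8, 8, 6, 8, 2, 3], .l [6, 3, 9, 3, 13, 9, 2, 5, 2, 2, 7, 3, 5], .l [6, 3, 9, 3, 11,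 7, 2, 5, 2, 2, 5, 1, 3], .r 4046 [1, 2, 3, 4, 5, 6, 7] [1, 1, 1, 1, 1, 1, 1, 1], .l [2, 5, 13, 9, 9, 3, 8, 6, 10, 3, 1, 2, 3], .l [1, 7, 1, 3, 7, 2, 9, 6, 1, 7, 3, 3, 5]]),
([s 4 1, p 5 2, m 0 3, g, m 3 0, g, s 2 0, g, p 0 4, g, p 0 5, g, m 1 0, g], .lo 2, [.l [4, 1, 5, 3, 4], .l [4, 1], .l [2, 3], .y [2, 4], .r 4047 [1, 2, 3, 6, 4, 5] [1, 1, 1, 1, 1, 1, 1], .l [6, 3], .l [2, 5], .l [6, 3, 9, 4, 5, 0, 5], .l [8, 5, 11, 4, 7, 2, 7], .l [8, 5], .l [2, 7], .l [10, 7, 7, 5, 10, 2, 5], .l [10, 7], .l [2, 9], .l [12, 9, 5, 9, 2], .l [12, 9], .l [2, 11], .l [2, 11], .l [14, 11, 5, 11, 4], .l [14, 11], .l [2, 13]]),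
([s 3 1, p 4 2, m 0 0, g, s 2 0, g, p 0 3, g, p 0 4, g, m 1 0, g], .hi 2, [.y [2], .l [6, 4, 1], .l [6, 4, 1], .r 4048 [1, 2, 5, 3, 4] [1, 1, 1, 1, 1, 1], .l [4, 2, 4], .l [4, 2, 4], .l [1, 3, 7, 4, 9, 4, 5], .l [4, 2, 4], .l [4, 2, 6], .l [4, 2, 6], .l [1, 3, 11, 8, 8, 5, 1, 6, 3], .l [4, 2, 6], .l [4, 2, 8], .l [4, 2, 8], .l [6, 12, 5, 9, 2, 4, 8, 6, 3], .l [4, 2, 10], .l [4, 2, 10], .l [6, 5, 9, 3, 8, 6, 8, 2, 3]]),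
([s 3 1, p 4 2, s 0 0, g, s 2 0, g, p 0 3, g, p 0 4, s 6 5, g, p 0 6, g, m 1 0, g, s 5 0, g], .hi 2, [.y [2], .l [6, 4, 1, 11, 1, 13, 11, 4], .l [6, 4, 1], .l [6, 4, 10, 15, 7, 1, 3, 11, 4, 5], .l [13, 1, 8, 9, 6, 8, 4, 11], .l [4, 2, 4], .l [13, 1, 8, 9, 6, 8, 4, 11], .l [4, 2, 4], .l [7, 15, 7, 8, 9, 11, 2, 6], .l [4, 2, 6], .l [8, 5, 9, 2, 4], .l [4, 2, 6], .l [4, 2, 9, 11, 9, 4], .l [4, 2, 9], .l [6, 5, 14, 8, 13, 11, 12, 4, 2, 7], .l [4, 2, 9], .l [4, 2, 11, 15, 11, 4], .l [4, 2, 11], .l [6, 5, 14, 8, 13, 11, 12, 4, 2, 5], .l [4, 2, 13, 15, 9, 4], .l [4, 2, 13], .l [15, 12, 3, 12, 7], .l [17, 14, 3, 14, 9, 5], .l [4, 2, 15], .l [17, 14, 3, 14, 9]]),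
([s 5 1, p 6 2, p 4 3, g, p 0 4, g, s 3 0, g, s 2 0, g, p 0 5, g, p 7 6, g, m 1 0, g, s 0 7, g], .lo 4, [.l [3, 16, 12, 1, 1, 11, 6, 10, 1, 6, 8, 1, 4, 5], .l [4, 5], .l [2, 7, 3, 1, 1, 3, 4], .l [13, 9, 1, 12, 1, 3, 9, 7, 2, 8, 6, 7], .l [2, 7, 15, 9, 9, 3, 8, 6, 8, 2, 3, 7, 5], .l [12, 8, 1, 13, 2, 4, 10, 8, 3], .y [2, 6, 4], .l [13, 9, 3, 12, 1, 3, 7, 5, 2, 8, 6, 7], .l [3, 14, 11, 1, 11, 3, 1, 7, 10, 2, 5], .l [12, 8, 3, 13, 2, 4, 8, 6, 3], .l [1, 7, 7, 3, 7, 4, 9, 4, 7], .l [13, 9, 5, 12, 1, 3, 5, 3, 6, 8, 2, 7], .l [3, 14, 11, 1, 11, 5, 1, 8, 5], .l [12, 8, 5, 13, 2, 4, 6, 4, 7], .l [3, 4, 2, 14, 12, 7, 9, 10, 1], .l [1, 7, 11, 7, 13, 10, 10, 7, 1, 8, 3], .l [10, 9, 15, 5, 14, 10, 12, 4, 4, 2, 5], .l [3, 10, 6, 11, 3,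 10, 12, 6, 1], .l [2, 5, 15, 11, 11, 5, 10, 8, 10, 2, 3, 1, 5], .l [1, 7, 3, 11, 13, 6, 3], .l [1, 7, 3, 11, 11, 4, 3], .l [15, 18, 14, 16, 4, 7, 7, 5, 8, 10, 2, 3], .l [10, 9, 13, 3, 12, 10, 12, 4, 4, 2, 5], .l [2, 5, 1, 13, 7, 8, 10], .l [11, 14, 2, 13, 15, 7, 7, 5, 8, 10, 2, 3], .l [10, 9, 13, 3, 12, 10, 14, 6, 6, 4, 7], .l [2, 5, 1, 15, 9, 10, 12]]),
([s 5 1, p 6 2, p 4 3, g, p 0 4, g, s 3 0, g, s 2 0, g, p 0 5, g, p 7 6, g, s 0 7, g, m 1 0, g], .lo 4, [.l [15, 11, 1, 7, 11, 2, 13, 2, 9, 1, 8, 3], .l [4, 5], .l [2, 7, 3, 1, 1, 3, 4], .l [13, 9, 1, 12, 1, 3, 9, 7, 2, 10, 8, 5], .l [2, 7, 17, 11, 11, 5, 10, 8, 10, 2, 3, 9, 7], .l [12, 8, 1, 13, 2, 4, 10, 8, 3], .y [2, 6, 4], .l [13, 9, 3, 12, 1, 3, 7, 5, 2, 10, 8, 5], .l [3,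 14, 11, 1, 11, 3, 1, 7, 12, 4, 7], .l [12, 8, 3, 13, 2, 4, 8, 6, 3], .l [1, 7, 7, 3, 7, 4, 11, 6, 9], .l [13, 9, 5, 12, 1, 3, 5, 3, 6, 10, 4, 1], .l [3, 14, 11, 1, 11, 5, 1, 8, 5], .l [12, 8, 5, 13, 2, 4, 6, 4, 7], .l [3, 4, 2, 16, 14, 7, 9, 12, 3], .l [1, 7, 11, 7, 15, 12, 12, 9, 1, 10, 5], .l [10, 9, 17, 7, 16, 12, 14, 4, 4, 2, 5], .l [3, 10, 6, 11, 3, 10, 14, 8, 1], .l [2, 5, 17, 13, 13, 7, 12, 10, 12, 2, 3, 1, 7], .l [1, 7, 3, 11, 15, 8, 3], .l [3, 10, 6, 13, 5, 12, 14, 8, 3], .l [2, 5, 17, 13, 13, 7, 12, 10, 12, 2, 3, 1, 5], .l [1, 7, 3, 13, 15, 6, 3], .l [1, 7, 3, 13, 13, 4, 3], .l [11, 18, 10, 16, 12, 1, 5, 11, 2, 8, 6, 3], .l [10, 9, 15, 5, 14, 12, 14, 4, 4, 2, 5], .l [2, 5, 1, 15, 9, 10, 12]]),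
([s 5 1, p 6 2, p 4 3, g, p 0 4, g, s 3 0, g, s 2 0, g, p 0 5, g, p 0 6, g, m 1 0, g], .lo 12, [.l [3, 6, 4, 14, 12, 9, 9, 10, 1], .l [4, 13], .l [12, 11, 15, 3, 14, 12, 12, 2, 4, 2, 5], .l [5, 16, 10, 7, 7, 8, 1], .l [6, 13], .l [2, 7, 1, 11, 9, 3, 4], .l [5, 14, 8, 5, 5, 6, 1], .l [7, 16, 8, 5, 5, 6, 1], .l [8, 13], .l [1, 9, 1, 11, 13, 8, 11, 2, 3], .y [1, 8, 12], .l [9, 16, 6, 3, 3, 4, 1], .l [10, 13], .l [2, 5, 15, 11, 11, 3, 10, 8, 8, 4, 8, 4, 5], .l [11, 16, 4, 1, 13, 9, 10], .l [12, 13], .l [2, 5, 15, 11, 11, 5, 12, 2, 3, 9, 1, 5, 3], .r 4052 [1, 2, 3, 4, 5, 6, 7] [1, 1, 1, 1, 1, 1, 1, 1], .l [2, 5, 15, 11, 11, 5, 10, 8, 8, 6, 8, 2, 3], .l [6, 3, 9, 3, 13, 9, 2, 5, 2, 2, 7, 3, 5], .l [6, 3, 9, 3, 11, 7, 2, 5, 2, 2, 5,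 1, 3], .r 4051 [1, 2, 3, 4, 5, 6, 7] [1, 1, 1, 1, 1, 1, 1, 1], .l [2, 5, 13, 9, 9, 3, 8, 6, 10, 3, 1, 2, 3], .l [1, 7, 1, 3, 7, 2, 9, 6, 1, 7, 3, 3, 5]]),
([s 4 1, p 5 2, p 3 0, g, p 0 3, g, s 2 0, g, p 0 4, g, p 0 5, g, m 1 0, g], .hi 2, [.l [4, 1, 5, 3, 4], .l [2, 3], .l [4, 1], .y [2, 4], .r 4053 [1, 2, 6, 3, 4, 5] [1, 1, 1, 1, 1, 1, 1], .l [2, 5], .l [6, 3], .l [8, 5, 11, 4, 7, 2, 7], .l [2, 7], .l [8, 5], .l [2, 7], .l [10, 7, 7, 5, 10, 2, 5], .l [2, 9], .l [10, 7], .l [2, 9], .l [12, 9, 5, 9, 2], .l [2, 11], .l [12, 9], .l [14, 11, 5, 11, 4], .l [2, 13], .l [14, 11]]),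
([s 3 1, p 4 2, p 0 0, g, s 2 0, g, p 0 3, g, p 0 4, g, m 1 0, g], .lo 2, [.y [2], .l [6, 4, 1], .r 4054 [1, 2, 5, 3, 4] [1, 1, 1, 1, 1, 1], .l [6, 4, 1], .l [4, 2, 1], .l [4, 2, 4], .l [1, 3, 7, 4, 9, 4, 5], .l [4, 2, 4], .l [4, 2, 6], .l [1, 3, 11, 8, 8, 5, 1, 6, 3], .l [4, 2, 6], .l [4, 2, 8], .l [6, 12, 5, 9, 2, 4, 8, 6, 3], .l [4, 2, 8], .l [4, 2, 8], .l [4, 2, 10], .l [6, 5, 9, 3, 8, 6, 8, 2, 3], .l [4, 2, 10]]),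
([s 3 1, p 4 2, g, s 2 0, g, p 0 3, g, p 0 4, s 6 5, g, p 0 6, g, m 1 0, g, s 5 0, g], .top 2, [.c, .r 4050 [1, 2, 3, 4, 5, 6] [1, 1, 1, 1, 1, 1, 1], .r 4055 [1, 2, 3, 4] [1, 1, 1, 4, 3], .r 4049 [1, 2, 3, 4] [1, 1, 1, 4, 3]]),
([s 3 1, p 4 2, g, s 2 0, g, p 0 3, g, p 0 4, s 0 5, g, m 1 0, g, s 5 0, g], .lo 8, [.l [3, 9, 6], .l [3, 9, 6], .l [2, 12, 9, 6, 8], .l [3, 7, 4], .l [5, 9, 4], .l [5, 9, 4], .l [4, 12, 7, 4, 6], .l [7, 9, 2], .l [5, 4, 11, 6, 10, 6, 7], .l [6, 12, 5, 2, 4], .l [3, 1, 7, 11, 3, 9, 4, 5], .r 4056 [1, 2, 3, 4, 5, 6] [1, 1, 1, 1, 1, 1, 1], .l [5, 4, 11, 6, 10, 8, 1], .l [5, 4, 9, 4, 8, 6, 1], .l [3, 1, 11, 3, 11, 7, 4, 7], .l [3, 1, 11, 3, 11, 7, 4, 7], .l [5, 4, 9, 4, 8, 6, 7], .y [8, 12], .l [3, 1, 11,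 3, 11, 7, 4, 7], .l [3, 1, 11, 3, 11, 7, 4, 7], .l [5, 4, 9, 4, 8, 6, 9]]),
([s 2 0, p 3 1, s 0 0, g, s 1 0, g, p 0 2, g, p 0 3, s 5 4, g, s 0 5, g, m 4 0, g], .hi 2, [.y [2], .l [6, 4, 1, 11, 1, 11, 9, 4], .l [6, 4, 1], .l [15, 3, 10, 4, 12, 5, 1, 6, 2, 5], .l [15, 3, 10, 11, 8, 10, 6, 1], .l [4, 2, 4], .l [15, 3, 10, 11, 8, 10, 6, 1], .l [4, 2, 4], .l [8, 5, 12, 1, 12, 10, 2, 4], .l [4, 2, 6], .l [8, 5, 9, 2, 4], .l [4, 2, 6], .l [4, 2, 9, 11, 9, 4], .l [4, 2, 9], .l [11, 8, 3, 8, 3], .l [4, 2, 9, 9, 7, 4], .l [4, 2, 11, 1, 1, 11, 9, 4], .l [4, 2, 11], .l [13, 10, 3, 10, 5], .l [15, 12, 3, 12, 7, 1], .l [4, 2, 13], .l [15, 12, 3, 12, 7]]),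
([s 3 1, p 4 2, g, s 2 0, g, p 0 3, g, p 0 4, s 6 5, g, s 0 6, g, m 1 0, g, m 5 0, g], .top 2, [.c, .r 4058 [2, 3, 4, 5, 6] [1, 1, 1, 1, 3, 1], .r 4055 [1, 2, 3, 4] [1, 1, 1, 4, 3], .r 4049 [1, 2, 3, 4] [1, 1, 1, 4, 3]]),
([s 3 1, p 4 2, g, s 2 0, g, p 0 3, g, p 0 4, s 0 5, g, m 1 0, g, m 5 0, g], .lo 8, [.l [3, 9, 6], .l [3, 9, 6], .l [2, 12, 9, 6, 8], .l [3, 7, 4], .l [5, 9, 4], .l [5, 9, 4], .l [3, 1, 13, 3, 8, 4, 8], .l [7, 9, 2], .l [5, 4, 11, 6, 10, 6, 7], .l [3, 1, 13, 3, 6, 2, 8], .r 4059 [1, 2, 3, 4, 5, 6] [1, 1, 1, 1, 1, 1, 1], .l [3, 1, 9, 1, 11, 9, 4], .l [5, 4, 11, 6, 10, 8, 1], .l [5, 4, 9, 4, 8, 6, 1], .l [3, 1, 11, 3, 11, 7, 4, 7], .l [1, 12, 3, 13, 9, 6, 9], .l [5, 4, 9, 4, 8, 6, 7], .y [8, 12], .l [3, 1, 11,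 3, 11, 7, 4, 7], .l [1, 12, 3, 13, 9, 6, 9], .l [5, 4, 9, 4, 8, 6, 9]]),
([s 3 1, p 4 2, g, s 2 0, g, p 0 3, g, p 0 4, s 6 5, g, s 0 6, g, m 5 0, g, m 1 0, g], .top 2, [.c, .r 4058 [2, 3, 4, 5, 6] [1, 1, 1, 1, 1, 3], .r 4055 [1, 2, 3, 4] [1, 1, 1, 6, 1], .r 4049 [1, 2, 3, 4] [1, 1, 1, 6, 1]]),
([s 2 0, p 3 1, s 0 0, g, s 1 0, g, p 0 2, g, p 0 3, s 5 4, g, m 4 0, g, s 0 5, g], .hi 2, [.y [2], .l [6, 4, 1, 11, 1, 11, 9, 4], .l [6, 4, 1], .l [15, 3, 10, 4, 12, 5, 1, 6, 2, 5], .l [13, 1, 8, 9, 6, 8, 4, 9], .l [4, 2, 4], .l [13, 1, 8, 9, 6, 8, 4, 9], .l [4, 2, 4], .l [13, 1, 8, 9, 4, 8, 6, 9], .l [4, 2, 6], .l [8, 5, 9, 2, 4], .l [4, 2, 6], .l [4, 2, 9, 11, 9, 4], .l [4, 2, 9], .l [11, 8, 3, 8, 3], .l [4, 2, 11, 13, 9, 4], .l [4,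 2, 11], .l [13, 10, 3, 10, 5], .l [4, 2, 11, 11, 7, 4], .l [15, 12, 3, 12, 7, 3], .l [4, 2, 13], .l [15, 12, 3, 12, 7]]),
([s 3 1, p 4 2, g, s 2 0, g, p 0 3, g, p 0 4, s 6 5, g, m 5 0, g, m 1 0, g, s 0 6, g], .top 2, [.c, .r 4062 [2, 3, 4, 5, 6] [1, 1, 1, 1, 3, 1], .r 4055 [1, 2, 3, 4] [1, 1, 1, 4, 3], .r 4049 [1, 2, 3, 4] [1, 1, 1, 4, 3]]),
([s 3 1, p 4 2, g, s 2 0, g, p 0 3, g, p 0 4, s 6 5, g, m 5 0, g, s 0 6, g, m 1 0, g], .top 2, [.c, .r 4062 [2, 3, 4, 5, 6] [1, 1, 1, 1, 1, 3], .r 4055 [1, 2, 3, 4] [1, 1, 1, 6, 1], .r 4049 [1, 2, 3, 4] [1, 1, 1, 6, 1]]),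
([s 3 1, p 4 2, g, s 2 0, g, p 0 3, g, p 0 4, s 0 5, g, m 5 0, g, m 1 0, g], .lo 8, [.l [3, 9, 6], .l [3, 9, 6], .l [2, 14, 11, 6, 10], .l [3, 7, 4], .l [5, 9, 4], .l [5, 9, 4], .l [3, 1, 11, 1, 6, 4, 6], .l [7, 9, 2], .l [5, 4, 13, 8, 12, 8, 9], .l [3, 1, 11, 1, 4, 2, 6], .r 4061 [1, 2, 3, 4, 5, 6] [1, 1, 1, 1, 1, 1, 1], .l [3, 1, 9, 1, 9, 7, 4], .l [5, 4, 13, 8, 12, 10, 1], .y [8, 10], .r 4064 [1, 2, 3, 4, 5, 6] [1, 1, 1, 1, 1, 1, 1], .l [3, 1, 9, 1, 9, 7, 4], .l [5, 4, 13, 8, 12, 10, 3], .l [5, 4, 11, 6, 10, 8, 3], .r 4063 [1, 2, 3, 4, 5, 6] [1, 1, 1, 1, 1, 1, 1], .l [3, 1, 9, 1, 11, 9, 4], .l [5, 4, 11, 6, 10, 8, 9]]),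
([s 2 1, p 3 0, g, p 0 2, s 0 0, g, p 0 3, s 0 4, g, s 4 0, g, m 1 0, g], .hi 4, [.l [2, 13, 10, 2, 4, 9, 4, 1], .l [2, 13, 10, 2, 4, 9, 4], .l [3, 5, 1], .l [2, 11, 8, 0, 2, 7, 4], .y [4], .l [3, 2, 12, 9, 1, 10, 6, 1], .l [3, 2, 12, 9, 1], .l [6, 1, 12, 6, 9, 2, 6], .l [3, 2, 10, 7, 1], .l [4, 6, 2], .l [9, 4, 12, 3, 6, 2, 8, 3], .l [3, 2, 12, 9, 4], .l [9, 4, 12, 3, 6, 2, 8], .l [11, 6, 12, 1, 4, 2, 8, 1], .l [3, 2, 12, 9, 6], .l [11, 6, 12, 1, 4, 2, 8], .l [8, 13, 8, 2, 5, 2, 8, 3], .l [3, 2, 10, 7, 10], .l [8, 13, 8, 2, 5, 2, 8, 3]]),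
([s 3 1, p 5 2, g, s 2 0, g, p 0 3, m 0 4, g, p 0 5, s 0 6, g, m 4 0, g, s 6 0, g, m 1 0, g], .lo 8, [.l [3, 9, 12, 10, 3], .l [3, 9], .l [1, 4, 1, 7, 10, 8, 2], .y [1, 3, 8], .l [5, 9, 12, 10, 1], .l [5, 9], .l [8, 3, 9, 12, 5, 9, 6], .l [7, 13, 11, 4, 14, 9, 1], .l [8, 9], .l [7, 13, 11, 4, 14, 9, 1], .l [7, 13, 11, 4, 14, 9, 2], .l [3, 1, 16, 13, 4, 13, 5, 1, 9, 4, 9], .l [7, 13, 11, 4, 14, 9, 2], .l [7, 11, 9, 4, 12, 7, 2], .l [7, 11, 9, 4, 14, 9, 4], .l [7, 17, 9, 14, 4, 12, 2, 12, 7], .l [7, 11, 9, 4, 14, 9, 4], .l [7, 11, 9, 4, 12, 7, 4], .l [7, 11, 9, 4, 14, 9, 6], .l [7, 17, 9, 14, 4, 12, 2, 12, 5], .l [7, 11, 9, 4, 14, 9, 6], .l [7, 11, 9, 4, 12, 7, 6], .l [7, 11, 9, 4, 12, 7, 12], .l [12, 17, 12, 15, 13, 4, 7, 2,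 8, 1], .l [7, 11, 9, 4, 12, 7, 12]]),
([s 3 1, p 4 2, g, s 2 0, g, p 0 3, m 0 0, g, p 0 4, s 0 5, g, s 5 0, g, m 1 0, g], .hi 6, [.l [3, 7, 3], .l [1, 4, 1, 5, 2], .l [3, 7], .l [5, 7, 1], .l [10, 5, 2, 8, 3], .l [5, 7], .l [8, 3, 0, 6, 3], .y [6], .l [5, 4, 14, 9, 1], .l [5, 4, 14, 9, 1], .l [6, 15, 8, 1, 12, 4, 8], .l [5, 4, 12, 7, 1], .l [5, 4, 12, 7, 2], .l [5, 4, 14, 9, 4], .l [5, 4, 14, 9, 4], .r 4067 [1, 2, 3, 6, 4, 5] [1, 1, 1, 1, 1, 1, 1], .l [5, 4, 14, 9, 6], .l [5, 4, 14, 9, 6], .l [10, 13, 8, 4, 2, 1, 11, 7, 4, 7], .l [5, 4, 12, 7, 12], .l [5, 4, 12, 7, 12], .l [10, 15, 10, 4, 7, 2, 10, 3]]),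
([s 3 1, p 4 2, g, s 2 0, g, p 0 3, p 6 4, s 0 5, g, p 0 6, g, s 5 0, g, m 1 0, g], .lo 7, [.l [3, 8, 5], .l [3, 8, 5], .l [2, 15, 12, 5, 11], .l [3, 6, 3], .l [5, 8, 3], .l [5, 8, 3], .l [3, 1, 12, 3, 7, 3, 7, 2, 6, 3], .l [9, 1, 10, 7, 4, 11, 6, 10, 8, 1], .l [7, 11, 9, 4, 13, 8, 12, 8, 9], .l [5, 4, 14, 9, 13, 12, 1], .l [7, 10, 6, 1, 4, 5, 2, 9, 6, 8, 6, 1], .l [7, 12, 8, 1, 4, 7, 4, 2, 6, 3], .l [5, 4, 14, 9, 13, 12, 3], .y [7, 11], .l [7, 12, 8, 1, 4, 7, 4, 9, 4, 8, 6, 3], .l [2, 11, 3, 13, 4, 7, 2, 5, 1, 5, 0, 5], .l [5, 4, 14, 9, 13, 12, 5], .l [5, 4, 12, 7, 11, 10, 5], .l [7, 10, 6, 1, 4, 5, 2, 7, 4, 6, 4, 5], .l [15, 7, 14, 8, 2, 11, 8, 4, 8], .l [5, 4, 12, 7, 11, 10, 11]]),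
([s 3 1, p 4 2, g, s 2 0, g, p 0 3, p 0 4, s 0 5, g, s 5 0, g, m 1 0, g], .lo 6, [.l [3, 7, 3], .l [3, 7], .l [1, 4, 1, 5, 2], .y [1, 3, 6], .l [5, 7, 1], .l [5, 7], .l [8, 3, 2, 6, 3], .l [5, 4, 12, 7, 2], .r 4069 [1, 2, 3, 4, 5, 6] [1, 1, 1, 1, 1, 1], .l [5, 4, 12, 7, 2], .l [5, 4, 10, 5, 2], .l [5, 4, 12, 7, 4], .l [8, 11, 8, 4, 2, 1, 9, 5, 2, 5], .l [5, 4, 12, 7, 4], .l [5, 4, 10, 5, 4], .l [5, 4, 10, 5, 10], .l [8, 13, 10, 4, 7, 2, 8, 1], .l [5, 4, 10, 5, 10]]),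
([s 3 1, p 4 2, g, s 2 0, g, p 0 3, p 6 0, g, p 0 4, s 0 5, g, p 0 6, g, s 5 0, g, m 1 0, g], .lo 8, [.l [3, 9, 12, 10, 3], .l [3, 9], .l [1, 4, 1, 7, 10, 8, 2], .y [1, 3, 8], .l [5, 9, 12, 10, 1], .l [5, 9], .l [8, 3, 9, 12, 5, 9, 6], .l [6, 7], .l [7, 13, 11, 4, 14, 9, 1], .l [8, 9], .l [7, 13, 11, 4, 14, 9, 1], .l [7, 13, 11, 4, 14, 9, 2], .l [3, 1, 16, 13, 4, 13, 5, 1, 9, 4, 9], .l [7, 13, 11, 4, 14, 9, 2], .l [7, 11, 9, 4, 14, 9, 4], .l [7, 17, 9, 14, 4, 12, 2, 12, 7], .l [7, 11, 9, 4, 14, 9, 4], .l [7, 11, 9, 4, 12, 7, 4], .l [7, 11, 9, 4, 14, 9, 6], .l [7, 17, 9, 14, 4, 12, 2, 12, 5], .l [7, 11, 9, 4, 14, 9, 6], .l [7, 11, 9, 4, 12, 7, 6], .l [7, 11, 9, 4, 12, 7, 12], .l [12, 17, 12, 15, 13, 4, 7, 2, 8, 1], .l [7, 11,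 9, 4, 12, 7, 12]]),
([s 3 1, p 4 2, g, s 2 0, g, p 0 3, p 0 0, g, p 0 4, s 0 5, g, s 5 0, g, m 1 0, g], .lo 6, [.l [3, 7, 3], .l [3, 7], .l [1, 4, 1, 5, 2], .l [1, 2, 2, 3, 1], .l [5, 7, 1], .l [5, 7], .l [10, 5, 2, 8, 3], .y [6], .l [5, 4, 14, 9, 1], .l [6, 15, 8, 1, 12, 4, 8], .l [5, 4, 14, 9, 1], .l [5, 4, 14, 9, 4], .r 4071 [1, 2, 3, 4, 5, 6] [1, 1, 1, 1, 1, 1, 1], .l [5, 4, 14, 9, 4], .l [5, 4, 12, 7, 4], .l [5, 4, 14, 9, 6], .l [10, 13, 8, 4, 2, 1, 11, 7, 4, 7], .l [5, 4, 14, 9, 6], .l [5, 4, 12, 7, 6], .l [5, 4, 12, 7, 12], .l [10, 15, 10, 4, 7, 2, 10, 3], .l [5, 4, 12, 7, 12]]),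
([s 3 1, p 4 2, g, s 2 0, g, p 0 3, g, p 0 4, s 0 5, g, s 5 0, g, m 1 0, g], .top 6, [.r 4070 [1, 2, 3, 4, 5] [1, 1, 1, 1, 1], .r 4066 [1, 3, 4, 5] [3, 1, 1, 1, 1], .r 4072 [1, 2, 3, 4, 5] [1, 1, 1, 1, 1, 1], .r 4068 [1, 2, 3, 4, 5] [1, 1, 1, 1, 1, 1]]),
([s 3 1, p 4 2, g, s 2 0, g, p 0 3, g, p 0 4, s 0 0, g, m 1 0, g], .hi 8, [.l [3, 9, 6], .l [2, 12, 9, 6, 8], .l [3, 9, 6], .l [5, 9, 4], .l [4, 12, 7, 4, 6], .l [5, 9, 4], .l [4, 10, 5, 2, 4], .l [7, 9, 2], .l [6, 12, 5, 2, 4], .l [5, 4, 11, 6, 10, 6, 7], .l [6, 10, 3, 0, 2], .y [8], .r 4073 [1, 2, 3, 4, 5] [1, 1, 1, 1, 1, 1], .l [5, 4, 11, 6, 10, 8, 1], .r 4065 [1, 2, 3, 4, 5] [1, 1, 1, 1, 1, 1], .r 4057 [1, 2, 3, 4, 5] [1, 1, 1, 1, 1, 1], .l [5, 4, 9, 4, 8, 6, 7], .r 4060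 [1, 2, 3, 4, 5] [1, 1, 1, 1, 1, 1]]),
([s 2 1, p 7 0, g, p 0 2, g, m 0 3, g, m 3 4, g, m 4 5, g, m 5 6, g, p 0 7, g, m 6 8, g, m 8 0, g, m 1 0, g], .lo 5, [.l [5, 3], .l [7, 3, 14, 8, 11], .l [7, 3], .l [5, 4, 20, 15, 17, 15, 15, 13, 13, 11, 11, 9, 11, 9, 7, 5, 5, 3], .l [7, 1, 20, 13, 16, 2, 7], .l [7, 1], .l [11, 13, 12, 12, 10, 10, 8, 8, 6, 14, 9, 12, 2, 7, 9, 7, 7, 5], .l [7, 1, 8, 6, 18, 13, 16, 2, 7], .l [7, 1], .l [5, 6], .l [9, 3, 3, 1, 8, 6, 16, 11, 14, 2, 7], .l [9, 3], .l [5, 8], .l [11, 5, 5, 3, 3, 1, 8, 6, 14, 9, 12, 2, 7], .l [11, 5], .l [5, 10], .l [13, 7, 7, 5, 5, 3, 3, 1, 10, 8, 12, 7, 10, 2, 7], .l [13, 7], .l [5, 12], .l [15, 9, 9, 7, 7, 5, 5, 3, 14, 5, 8, 2, 9], .l [15, 9], .l [5, 14], .l [17, 11, 11, 9,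 9, 7, 7, 5, 14, 3, 6, 2, 9], .l [17, 11], .l [5, 16], .y [5, 7, 9, 11, 15, 17], .l [19, 13, 13, 11, 11, 9, 9, 7, 14, 1, 4, 2, 9], .l [19, 13], .l [5, 18], .l [5, 18], .l [21, 15, 15, 13, 13, 11, 11, 9, 14, 6, 1, 8, 6, 2, 7], .l [21, 15], .l [5, 20]]),
([s 2 1, p 6 0, g, p 0 2, g, m 0 3, g, m 3 4, g, m 4 5, g, p 0 6, m 5 7, g, m 7 0, g, m 1 0, g], .lo 5, [.l [5, 3], .l [7, 3, 12, 6, 9], .l [7, 3], .l [11, 14, 13, 13, 11, 11, 9, 9, 5, 7, 4, 9, 4, 6, 3], .l [7, 1, 17, 10, 13, 2, 6], .l [7, 1], .r 4075 [1, 2, 8, 3, 4, 5, 6, 7] [1, 1, 1, 1, 1, 1, 0, 1, 1, 1], .l [7, 1, 8, 6, 15, 10, 13, 2, 6], .l [7, 1], .l [5, 6], .l [9, 3, 3, 1, 8, 6, 13, 8, 11, 2, 6], .l [9, 3], .l [5, 8], .l [11, 5, 5, 3, 3, 1, 9, 7, 11, 6, 9, 2, 6], .l [11,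 5], .l [5, 10], .l [5, 13, 15, 13, 6], .l [14, 8], .l [5, 13], .y [5, 7, 9, 12, 14], .l [16, 10, 10, 8, 8, 6, 13, 1, 4, 2, 8], .l [16, 10], .l [5, 15], .l [5, 15], .l [18, 12, 12, 10, 10, 8, 13, 6, 1, 8, 6, 2, 6], .l [18, 12], .l [5, 17]]),
([s 2 1, p 5 0, g, p 0 2, g, m 0 3, g, m 3 4, g, p 0 5, m 4 6, g, m 6 0, g, m 1 0, g], .lo 5, [.l [5, 3], .l [7, 3, 10, 4, 7], .l [7, 3], .l [9, 12, 11, 11, 9, 9, 5, 7, 4, 9, 4, 6, 3], .l [7, 1, 15, 8, 11, 2, 6], .l [7, 1], .r 4076 [1, 2, 7, 3, 4, 5, 6] [1, 1, 1, 1, 1, 1, 1, 1], .l [7, 1, 8, 6, 13, 8, 11, 2, 6], .l [7, 1], .l [5, 6], .l [9, 3, 3, 1, 9, 7, 11, 6, 9, 2, 6], .l [9, 3], .l [5, 8], .l [5, 11, 13, 11, 4], .l [12, 6], .l [5, 11], .y [5, 7, 10, 12], .l [14, 8, 8, 6, 13, 1, 4, 2,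 8], .l [14, 8], .l [5, 13], .l [5, 13], .l [16, 10, 10, 8, 13, 6, 1, 8, 6, 2, 6], .l [16, 10], .l [5, 15]]),
([s 2 1, p 4 0, g, p 0 2, g, m 0 3, g, p 0 4, m 3 5, g, m 5 0, g, m 1 0, g], .lo 5, [.l [5, 3], .l [7, 3, 8, 2, 5], .l [7, 3], .l [7, 10, 9, 9, 5, 7, 4, 9, 4, 6, 3], .l [7, 1, 13, 6, 9, 2, 6], .l [7, 1], .r 4077 [1, 2, 6, 3, 4, 5] [1, 1, 1, 1, 1, 1, 1], .l [7, 1, 9, 7, 11, 6, 9, 2, 6], .l [7, 1], .l [5, 6], .l [5, 9, 11, 9, 2], .l [10, 4], .l [5, 9], .y [5, 8, 10], .l [12, 6, 13, 1, 4, 2, 8], .l [12, 6], .l [5, 11], .l [5, 11], .l [14, 8, 13, 6, 1, 8, 6, 2, 6], .l [14, 8], .l [5, 13]]),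
([s 3 1, p 4 2, g, s 2 0, g, p 0 3, g, p 0 4, m 0 5, g, m 5 0, g, m 1 0, g], .lo 8, [.l [10, 6, 3, 7, 2], .l [10, 6], .l [7, 10, 5, 9, 6, 11, 4, 8, 5], .l [1, 2, 7, 4, 1, 3, 0], .l [10, 4, 1, 7, 4], .l [10, 4], .l [7, 10, 7, 9, 4, 11, 6, 8, 3], .l [10, 2, 13, 3, 8, 4, 8], .l [10, 2], .r 4078 [1, 3, 6, 4, 5] [3, 1, 1, 1, 1, 1], .l [3, 1, 9, 1, 9, 7, 4], .l [10, 1], .l [8, 9], .y [8, 10], .l [8, 11, 8, 4, 6, 8, 1], .l [12, 3], .l [8, 11], .l [8, 11], .l [8, 13, 10, 4, 6, 10, 3], .l [14, 5], .l [8, 13]]),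
([s 3 1, p 4 2, g, s 2 0, g, p 0 3, g, p 0 4, m 0 0, g, m 1 0, g], .hi 8, [.l [3, 9, 6], .l [3, 0, 9, 6], .l [3, 9], .l [5, 9, 4], .l [5, 0, 9, 4], .l [5, 9], .l [5, 0, 7, 2], .l [5, 4, 11, 6, 10, 6, 7], .l [7, 0, 9, 2], .l [7, 9], .l [3, 1, 9, 3, 0, 6, 3], .y [8], .l [5, 4, 11, 6, 10, 8, 1], .l [5, 4, 11, 6, 10, 8, 1], .r 4079 [1, 2, 3, 4, 5] [1, 1, 1, 1, 1, 1], .l [5, 4, 9, 4, 8, 6, 7], .l [5, 4, 9, 4, 8, 6, 7], .l [3, 1, 9, 6, 9, 2, 5, 2, 5]]),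
([s 3 1, p 4 2, g, s 2 0, g, p 0 3, g, p 0 4, m 1 0, g], .hi 8, [.l [3, 9, 6], .l [3, 0, 9, 6], .l [3, 9], .l [5, 9, 4], .l [5, 0, 9, 4], .l [5, 9], .y [0, 8, 5], .l [5, 4, 9, 4, 8, 4, 5], .l [7, 0, 9, 2], .l [7, 9], .l [3, 1, 7, 1, 0, 4, 3], .l [5, 4, 7, 2, 6, 4, 5], .l [5, 4, 7, 2, 6, 4, 5], .l [3, 1, 7, 4, 7, 2, 3, 0, 3]]),
([s 3 1, p 4 2, g, s 2 0, g, p 0 3, g, p 0 4, g, m 1 0, g], .top 8, [.r 4081 [1, 2, 3, 4] [1, 1, 1, 1], .r 4074 [1, 2, 3, 4] [1, 1, 1, 1, 1], .r 4044 [1, 2, 3, 4] [1, 1, 1, 1, 1], .r 4080 [1, 2, 3, 4] [1, 1, 1, 1, 1]]),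
([s 2 1, p 3 0, g, p 0 2, g, p 0 3, g, m 1 0, g], .hi 1, [.r 4082 [1, 4, 2, 3] [1, 1, 1, 1, 1], .l [1, 2], .l [3, 1], .l [1, 2], .l [5, 3, 6, 2, 3], .l [1, 4], .l [5, 3], .y [1, 5], .l [7, 5, 1, 4, 1], .l [1, 6], .l [7, 5], .l [9, 7, 1, 6, 3], .l [1, 8], .l [9, 7]]),
([s 2 1, p 4 2, p 0 3, g, p 0 4, g, m 1 0, g, s 3 0, g], .lo 2, [.l [1, 0, 7, 6, 1], .l [1, 0, 9, 7, 8, 4, 1, 2, 3], .l [1, 0, 7, 6, 1], .l [1, 0, 7, 6, 3], .l [4, 1, 6, 3, 0, 2, 5], .l [1, 0, 7, 6, 3], .l [1, 0, 5, 4, 3], .l [1, 0, 5, 4, 5], .l [1, 0, 9, 7, 3, 6, 1], .l [1, 0, 5, 4, 5], .y [2, 8], .l [1, 0, 5, 4, 7], .l [8, 5, 6, 4, 8, 4, 1], .l [1, 0, 5, 4, 7]]),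
([s 2 1, p 3 2, p 0 0, g, p 0 3, g, m 1 0, g], .hi 2, [.y [2], .l [4, 1, 7, 3, 4, 0, 1], .l [2, 3], .l [4, 1], .l [2, 3], .l [6, 3, 7, 1, 2, 0, 3], .l [2, 5], .l [6, 3], .r 4084 [1, 2, 4, 3] [1, 1, 1, 1], .l [2, 7], .l [8, 5]]),
([s 4 1, p 3 2, g, p 0 3, g, p 0 4, p 5 0, g, p 6 5, g, p 0 6, g, s 2 0, g, m 1 0, g], .lo 10, [.l [3, 11, 11, 9, 9, 7, 3], .l [3, 11], .l [1, 13, 10, 8, 8, 6, 6, 4, 5], .l [5, 11, 11, 9, 9, 7, 1], .l [5, 11], .l [1, 13, 8, 6, 6, 4, 4, 2, 5], .y [6, 10, 8], .l [7, 10, 8, 4, 13, 8, 3], .l [8, 11], .l [7, 10, 8, 4, 13, 8, 3], .l [9, 12, 10, 10, 8, 4, 11, 6, 1], .l [10, 11], .l [9, 12, 10, 10, 8, 4, 11, 6, 1], .l [9, 10, 8, 8, 6, 4, 11, 6, 1], .l [9, 1, 6, 9, 2, 10, 12, 2, 7, 9, 4, 6, 1], .l [9, 10, 8,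 8, 6, 4, 11, 6, 1], .l [1, 11, 11, 9, 9, 7, 7, 5, 3], .l [9, 10, 8, 8, 6, 4, 11, 6, 3], .l [1, 11, 13, 11, 11, 9, 9, 7, 3], .l [9, 10, 8, 8, 6, 4, 11, 6, 3], .l [9, 10, 8, 8, 6, 4, 9, 4, 3], .l [9, 10, 8, 8, 6, 4, 9, 4, 9], .l [1, 11, 15, 13, 13, 11, 11, 9, 3], .l [9, 10, 8, 8, 6, 4, 9, 4, 9]]),
([s 4 1, p 3 2, g, p 0 3, g, p 0 4, p 5 0, g, p 0 5, g, s 2 0, g, m 1 0, g], .lo 8, [.l [3, 9, 9, 7, 3], .l [3, 9], .l [1, 11, 8, 6, 6, 4, 5], .l [5, 9, 9, 7, 1], .l [5, 9], .l [1, 11, 6, 4, 4, 2, 5], .y [6, 8], .l [7, 10, 8, 4, 11, 6, 1], .l [8, 9], .l [7, 10, 8, 4, 11, 6, 1], .l [7, 8, 6, 4, 11, 6, 1], .r 4086 [1, 2, 3, 4, 5, 6] [1, 1, 1, 1, 1, 1, 1], .l [7, 8, 6, 4, 11, 6, 1], .l [1, 9, 9, 7, 7, 5, 3], .l [7, 8, 6, 4, 11, 6, 3], .l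 [1, 9, 11, 9, 9, 7, 3], .l [7, 8, 6, 4, 11, 6, 3], .l [7, 8, 6, 4, 9, 4, 3], .l [7, 8, 6, 4, 9, 4, 9], .l [1, 9, 13, 11, 11, 9, 3], .l [7, 8, 6, 4, 9, 4, 9]]),
([s 4 1, p 3 2, g, p 0 3, g, p 0 4, p 0 0, g, s 2 0, g, m 1 0, g], .lo 6, [.l [3, 7, 3], .l [3, 7], .l [1, 9, 6, 4, 5], .l [5, 7, 1], .l [5, 7], .l [1, 9, 4, 2, 5], .y [6], .l [5, 4, 11, 6, 1], .r 4087 [1, 2, 3, 4, 5] [1, 1, 1, 1, 1, 1], .l [5, 4, 11, 6, 1], .l [1, 7, 7, 5, 3], .l [5, 4, 11, 6, 3], .l [1, 7, 9, 7, 3], .l [5, 4, 11, 6, 3], .l [5, 4, 9, 4, 3], .l [5, 4, 9, 4, 9], .l [1, 7, 11, 9, 3], .l [5, 4, 9, 4, 9]]),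
([s 4 1, p 3 2, g, p 0 3, g, p 0 4, m 0 5, g, m 5 6, g, m 6 0, g, s 2 0, g, m 1 0, g], .hi 10, [.l [3, 11, 11, 9, 9, 7, 3], .l [1, 13, 10, 8, 8, 6, 6, 4, 5], .l [3, 11], .l [1, 11, 8, 6, 6, 4, 4, 2, 3], .l [5, 11, 11, 9, 9, 7, 1], .l [1, 13, 8, 6, 6, 4, 4, 2, 5], .l [5, 11], .l [1, 11, 6, 4, 4, 2, 2, 0, 3], .y [6, 8, 10], .l [7, 10, 8, 4, 13, 8, 3], .l [7, 10, 8, 4, 13, 8, 3], .l [8, 11], .l [9, 12, 10, 10, 8, 4, 11, 6, 1], .l [9, 12, 10, 10, 8, 4, 11, 6, 1], .l [10, 11], .l [9, 10, 8, 8, 6, 4, 11, 6, 1], .l [9, 10, 8, 8, 6, 4, 11, 6, 1], .l [9, 1, 6, 9, 2, 10, 12, 2, 7, 9, 4, 6, 1], .l [9, 10, 8, 8, 6, 4, 11, 6, 3], .l [9, 10, 8, 8, 6, 4, 11, 6, 3], .l [1, 11, 13, 11, 11, 9, 9, 7, 3], .l [9, 10, 8, 8, 6, 4, 9, 4, 9], .l [9,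 10, 8, 8, 6, 4, 9, 4, 9], .l [1, 11, 15, 13, 13, 11, 11, 9, 3]]),
([s 4 1, p 3 2, g, p 0 3, g, p 0 4, m 0 5, g, m 5 0, g, s 2 0, g, m 1 0, g], .hi 8, [.l [3, 9, 9, 7, 3], .l [1, 11, 8, 6, 6, 4, 5], .l [3, 9], .l [1, 9, 6, 4, 4, 2, 3], .l [5, 9, 9, 7, 1], .l [1, 11, 6, 4, 4, 2, 5], .l [5, 9], .l [1, 9, 4, 2, 2, 0, 3], .y [6, 8], .l [7, 10, 8, 4, 11, 6, 1], .l [7, 10, 8, 4, 11, 6, 1], .l [8, 9], .l [7, 8, 6, 4, 11, 6, 1], .l [7, 8, 6, 4, 11, 6, 1], .r 4089 [1, 2, 3, 4, 5, 6] [1, 1, 1, 1, 1, 1, 1], .l [7, 8, 6, 4, 11, 6, 3], .l [7, 8, 6, 4, 11, 6, 3], .l [1, 9, 11, 9, 9, 7, 3], .l [7, 8, 6, 4, 9, 4, 9], .l [7, 8, 6, 4, 9, 4, 9], .l [1, 9, 13, 11, 11, 9, 3]]),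
([s 4 1, p 3 2, g, p 0 3, g, p 0 4, m 0 0, g, s 2 0, g, m 1 0, g], .hi 6, [.l [3, 7, 3], .l [1, 9, 6, 4, 5], .l [3, 7], .l [1, 7, 4, 2, 3], .l [5, 7, 1], .l [1, 9, 4, 2, 5], .l [5, 7], .l [1, 7, 2, 0, 3], .y [6], .l [5, 4, 11, 6, 1], .l [5, 4, 11, 6, 1], .r 4090 [1, 2, 3, 4, 5] [1, 1, 1, 1, 1, 1], .l [5, 4, 11, 6, 3], .l [5, 4, 11, 6, 3], .l [1, 7, 9, 7, 3], .l [5, 4, 9, 4, 9], .l [5, 4, 9, 4, 9], .l [1, 7, 11, 9, 3]]),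
([s 4 1, p 3 2, p 0 3, g, p 0 4, g, s 2 0, g, m 1 0, g], .lo 2, [.l [8, 6, 1], .l [2, 6, 3, 7, 2, 4, 6, 4, 1], .l [8, 6, 1], .l [8, 6, 3], .l [8, 6, 6, 5, 1, 4, 1], .l [8, 6, 3], .y [1, 6, 2], .l [6, 4, 6], .l [6, 4, 4, 3, 6, 2, 3], .l [6, 4, 6], .l [6, 4, 6], .l [6, 4, 8], .l [4, 3, 7, 3, 8, 2, 5], .l [6, 4, 8]]),
([s 4 1, p 3 2, m 0 0, g, p 0 3, g, p 0 4, g, s 2 0, g, m 1 0, g], .hi 2, [.y [2], .l [10, 8, 1], .l [1, 9, 7, 1, 3, 6, 1], .l [2, 8, 5, 1, 5, 6, 8, 2, 3], .l [1, 7, 5, 1, 1, 4, 1], .l [10, 8, 3], .l [10, 8, 3], .l [2, 8, 5, 9, 2, 4, 8, 6, 3], .l [8, 6, 3], .l [10, 8, 5], .l [10, 8, 5], .l [2, 12, 9, 1, 8, 5, 1, 6, 3], .l [8, 6, 8], .l [8, 6, 8], .l [8, 6, 6, 3, 8, 2, 5], .l [8, 6, 10], .l [8, 6, 10], .l [6, 5, 9,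 3, 10, 2, 7]]),
([s 5 1, p 4 2, s 0 3, g, p 0 4, g, p 0 5, s 0 6, g, s 6 0, g, s 3 0, g, s 2 0, g, m 1 0, g], .lo 2, [.l [1, 17, 15, 1, 3, 13, 8, 1], .l [4, 1, 7, 3, 15, 11, 12], .l [2, 12, 8, 10, 11, 3, 9, 4], .l [5, 17, 11, 12, 14, 13, 8, 1], .l [6, 3, 7, 1, 15, 13, 2], .l [2, 12, 6, 10, 3, 2, 6, 1], .l [2, 8, 10, 8, 3, 13, 9, 10], .l [1, 9, 6, 1, 6, 3, 6, 12, 8, 3], .l [15, 13, 6], .l [1, 12, 3, 8, 1, 8, 5, 3], .l [11, 8, 12, 3, 11, 1, 9, 6], .l [11, 8, 12, 3, 11, 1, 9, 6], .l [15, 13, 8], .y [2, 11], .l [11, 8, 12, 3, 11, 1, 9, 6], .l [11, 8, 12, 3, 11, 1, 9, 6], .l [15, 13, 10], .l [13, 11, 10], .l [13, 11, 13, 4, 11, 1, 7, 4], .l [6, 5, 16, 10, 1, 5, 12, 5], .l [13, 11, 13], .l [13, 11, 13], .l [13, 11, 15, 6, 13, 1, 9,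 6], .l [1, 17, 14, 1, 14, 11, 1, 7, 8, 3], .l [13, 11, 15]]),
([s 4 1, p 3 2, s 0 0, g, p 0 3, g, p 0 4, s 0 5, g, s 5 0, g, s 2 0, g, m 1 0, g], .hi 2, [.y [2], .l [1, 15, 13, 1, 3, 11, 6, 1], .l [13, 11, 1], .l [4, 1, 7, 3, 13, 9, 10], .l [11, 9, 1], .l [5, 15, 9, 10, 12, 11, 6, 1], .l [13, 11, 3], .l [6, 3, 7, 1, 13, 11, 2], .l [11, 9, 3], .l [2, 6, 3, 11, 7, 8], .l [2, 8, 10, 8, 3, 11, 7, 8], .l [13, 11, 6], .l [6, 5, 14, 8, 3, 5, 10, 5], .r 4094 [1, 2, 6, 3, 4, 5] [1, 1, 1, 1, 1, 1, 1], .l [13, 11, 8], .l [2, 15, 12, 1, 11, 8, 1, 3, 8, 3], .l [11, 9, 11, 13, 11, 6], .l [11, 9, 11], .l [6, 5, 14, 8, 1, 3, 10, 5], .l [14, 12, 14, 9, 1, 5, 6, 7], .l [11, 9, 13], .l [6, 5, 12, 6, 1, 12, 2, 7]])]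

def D15 : List (List (List Item × Qry × List Rf)) := [d15_0, d15_1, d15_2, d15_3]

end Pool.Agent.H63.PU.C161
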