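import Pool.Agent.H63.PU.Ck3

/-! Certificate data, machine generated. -/

namespace Pool.Agent.H63.PU.C161

open Pool.Agent.H63.PU Pool.Agent.H63.PU.Ck3 Pool.Agent.H63.PU.Short

set_option maxRecDepth 20000

def d16_0 : List (List Item × Qry × List Rf) := [
([s 4 1, p 3 2, s 0 0, g, p 0 3, g, p 0 4, s 6 5, g, s 0 6, g, m 5 0, g, s 2 0, g, m 1 0, g], .hi 2, [.y [2], .l [1, 11, 1, 12, 10, 6, 1, 12, 6, 7], .l [15, 13, 1], .l [4, 1, 7, 3, 15, 11, 12], .l [13, 11, 1], .l [5, 17, 11, 12, 14, 13, 8, 1], .l [15, 13, 3], .l [6, 3, 7, 1, 15, 13, 2], .l [13, 11, 3], .l [1, 14, 5, 10, 1, 10, 7, 1], .l [15, 13, 6], .l [6, 5, 16, 10, 3, 7, 12, 5], .l [1, 12, 3, 8, 1, 8, 5, 3], .l [1, 14, 3, 10, 1, 10, 7, 3], .l [15, 13, 8], .l [15,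 13, 13, 10, 4, 1, 6, 4, 8, 5], .l [11, 3, 8, 11, 15, 13, 6, 12, 10, 1], .l [15, 13, 10], .l [9, 1, 12, 5, 11, 1, 7, 3, 8, 3], .l [13, 11, 13, 15, 13, 8], .l [13, 11, 13], .l [6, 5, 16, 10, 1, 5, 12, 5], .l [16, 14, 16, 11, 1, 7, 8, 9], .l [13, 11, 15], .l [6, 5, 14, 8, 1, 14, 2, 7]]),
([s 4 1, p 3 2, s 0 0, g, p 0 3, g, p 0 4, s 6 5, g, m 5 0, g, s 0 6, g, s 2 0, g, m 1 0, g], .hi 2, [.y [2], .l [1, 17, 15, 1, 3, 13, 8, 3], .l [15, 13, 1], .l [4, 1, 7, 3, 15, 11, 12], .l [13, 11, 1], .l [5, 17, 11, 12, 14, 13, 8, 3], .l [15, 13, 3], .l [6, 3, 7, 1, 15, 13, 2], .l [13, 11, 3], .l [1, 14, 5, 10, 1, 10, 7, 3], .l [15, 13, 6], .l [6, 5, 16, 10, 5, 7, 12, 7], .l [2, 10, 12, 8, 3, 13, 9, 10], .l [15, 13, 8], .l [6, 5, 16, 10,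 5, 7, 12, 5], .l [1, 12, 1, 8, 1, 8, 5, 3], .l [9, 1, 6, 11, 15, 11, 4, 10, 8, 9], .l [15, 13, 10], .l [1, 14, 10, 3, 6, 3, 10, 5, 6, 10, 8, 1], .l [13, 11, 13, 15, 13, 8], .l [13, 11, 13], .l [6, 5, 16, 10, 3, 5, 12, 5], .l [16, 14, 16, 11, 3, 7, 8, 9], .l [13, 11, 15], .l [6, 5, 14, 8, 3, 14, 2, 7]]),
([s 4 1, p 3 2, s 0 0, g, p 0 3, g, p 0 4, s 0 5, g, m 5 0, g, s 2 0, g, m 1 0, g], .lo 7, [.l [2, 6, 3, 11, 7, 8], .l [4, 8, 3, 13, 9, 10], .l [4, 8, 3], .l [11, 1, 6, 4, 7], .l [1, 12, 6, 2, 8, 11, 2, 7], .l [6, 8, 1], .l [11, 1, 4, 2, 7], .r 4096 [1, 2, 3, 4, 5, 6] [1, 1, 1, 1, 1, 1, 1], .l [9, 1, 10, 8, 5], .l [6, 5, 14, 8, 1], .y [7, 9], .r 4097 [1, 2, 3, 4, 5, 6] [1, 1, 1, 1, 1, 1, 1], .l [9, 1, 10, 8, 5], .l [6,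 5, 14, 8, 3], .l [1, 10, 10, 6, 4, 9, 4, 5], .l [1, 10, 12, 8, 4, 11, 6, 7], .l [9, 1, 12, 10, 5], .l [6, 5, 14, 8, 5], .l [6, 5, 12, 6, 5], .l [1, 10, 14, 10, 4, 7, 2, 3], .l [9, 1, 14, 12, 5], .l [6, 5, 12, 6, 12]]),
([s 4 1, p 3 2, s 0 0, g, p 0 3, g, p 0 4, s 0 0, g, s 2 0, g, m 1 0, g], .hi 7, [.l [2, 6, 3, 9, 5, 6], .l [4, 8, 3, 11, 7, 8], .l [1, 10, 6, 4, 6, 9, 2, 3], .l [4, 8, 3], .l [1, 8, 4, 2, 4, 7, 2, 3], .l [1, 10, 4, 2, 6, 9, 2, 5], .l [1, 10, 4, 2, 6, 9, 2, 5], .l [6, 8, 1], .l [1, 8, 2, 0, 4, 7, 2, 3], .y [7], .r 4095 [1, 2, 3, 4, 5] [1, 1, 1, 1, 1, 1], .l [6, 5, 12, 6, 1], .r 4098 [1, 2, 3, 4, 5] [1, 1, 1, 1, 1, 1], .l [1, 8, 10, 8, 4, 9, 4, 5], .l [6, 5, 12, 6, 3], .l [1, 8, 10, 8, 4, 9, 4, 5], .l [1,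 8, 12, 10, 4, 7, 2, 3], .l [6, 5, 10, 4, 10], .l [1, 8, 12, 10, 4, 7, 2, 3]]),
([s 4 1, p 3 2, p 0 0, g, p 0 3, g, p 0 4, g, s 2 0, g, m 1 0, g], .lo 2, [.y [2], .l [10, 8, 1], .l [2, 8, 5, 1, 5, 6, 8, 2, 3], .l [1, 9, 7, 1, 3, 6, 1], .l [10, 8, 3], .l [2, 8, 5, 9, 2, 4, 8, 6, 3], .l [10, 8, 3], .l [10, 8, 5], .l [2, 12, 9, 1, 8, 5, 1, 6, 3], .l [10, 8, 5], .l [8, 6, 5], .l [8, 6, 8], .l [8, 6, 6, 3, 8, 2, 5], .l [8, 6, 8], .l [8, 6, 8], .l [8, 6, 10], .l [6, 5, 9, 3, 10, 2, 7], .l [8, 6, 10]]),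
([s 4 1, p 3 2, g, p 0 3, g, p 0 4, s 0 0, g, s 2 0, g, m 1 0, g], .top 2, [.r 4092 [1, 2, 3, 4] [1, 2, 1, 1], .r 4099 [1, 2, 3, 4] [1, 1, 1, 1, 1], .r 4100 [1, 2, 3, 4] [1, 1, 2, 1, 1], .r 4093 [1, 2, 3, 4] [1, 1, 2, 1, 1]]),
([s 4 1, p 3 2, g, p 0 3, g, p 0 4, g, s 2 0, g, m 1 0, g], .top 6, [.l [1, 5, 3], .r 4101 [1, 2, 3, 4] [1, 1, 1, 1, 1], .r 4088 [1, 2, 3, 4] [1, 1, 1, 1, 1], .r 4091 [1, 2, 3, 4] [1, 1, 1, 1, 1]]),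
([s 3 1, p 2 0, g, p 0 2, g, p 0 3, g, m 1 0, g], .hi 1, [.l [3, 1, 6, 3, 6, 2, 3], .l [1, 2], .l [3, 1], .y [1, 3], .l [5, 3, 6, 1, 6, 4, 1], .l [1, 4], .l [5, 3], .l [1, 4], .r 4102 [1, 4, 2, 3] [1, 1, 1, 1, 1], .l [1, 6], .l [7, 5], .l [9, 7, 8, 4, 1, 2, 3], .l [1, 8], .l [9, 7]]),
([s 3 1, m 4 2, m 0 0, g, m 2 0, g, p 0 3, g, s 0 4, g, m 1 0, g], .hi 2, [.y [2], .l [10, 8, 1], .l [1, 9, 7, 1, 3, 6, 1], .l [2, 8, 5, 1, 5, 6, 8, 2, 3], .l [10, 8, 3], .l [10, 8, 3], .l [2, 8, 5, 9, 2, 4, 8, 6, 3], .l [8, 6, 3], .l [10, 8, 5], .l [10, 8, 5], .l [2, 12, 9, 1, 8, 5, 1, 6, 3], .l [8, 6, 5], .l [8, 6, 8], .l [8, 6, 8], .l [8, 6, 6, 3, 8, 2, 5], .l [8, 6, 10], .l [8, 6, 10], .l [6, 5, 9, 3, 10, 2, 7]]),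
([s 3 1, m 0 2, m 0 0, g, m 2 0, g, p 0 3, g, m 1 0, g], .lo 1, [.c, .l [4, 2, 7, 3, 8, 4, 5], .l [4, 2], .l [1, 3], .y [1, 4], .l [6, 4, 7, 1, 8, 6, 1], .l [6, 4], .l [1, 5], .r 4104 [1, 2, 3, 4] [1, 1, 1, 1, 1], .l [8, 6], .l [1, 7], .l [1, 7], .l [10, 8, 9, 4, 1, 2, 3], .l [10, 8], .l [1, 9]]),
([s 0 1, p 2 0, p 0 0, g, p 0 2, g, m 1 0, g], .lo 0, [.r 4085 [1, 3, 2] [1, 1, 1], .r 4083 [1, 3, 2] [0, 1, 1, 1], .l [3], .r 4083 [1, 3, 2] [2, 1, 1, 1], .l [3], .l [5], .r 4103 [1, 2, 3] [2, 1, 1, 1], .l [5], .y [0, 6], .l [7], .R 4105 [3, 2, 1] [1, 1, 1, 1], .l [7]]),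
([s 2 1, p 4 2, p 0 3, g, s 3 0, g, m 1 0, g, p 0 4, g], .lo 2, [.l [1, 0, 7, 6, 1], .l [2, 5, 9, 1, 8, 3, 0, 4, 3], .l [1, 0, 7, 6, 1], .y [2, 4], .l [1, 0, 7, 6, 3], .l [4, 1, 5, 3, 0], .l [1, 0, 7, 6, 3], .l [1, 0, 5, 4, 3], .l [1, 0, 5, 4, 5], .l [4, 1, 7, 5, 0], .l [1, 0, 5, 4, 5], .l [1, 0, 5, 4, 7], .l [4, 1, 9, 7, 0], .l [1, 0, 5, 4, 7]]),
([s 2 1, p 3 2, p 0 0, g, m 1 0, g, p 0 3, g], .hi 2, [.y [2], .r 4107 [1, 2, 4, 3] [1, 1, 1, 1], .l [2, 3], .l [4, 1], .l [6, 3, 7, 2, 4], .l [2, 5], .l [6, 3], .l [2, 5], .l [8, 5, 1, 5, 2], .l [2, 7], .l [8, 5]]),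
([s 7 1, m 6 2, m 5 3, g, m 3 4, g, s 0 5, g, s 0 6, g, p 0 7, g, s 4 0, g, m 1 0, g, m 2 0, g], .lo 6, [.l [7, 16, 8, 11, 15, 12, 3, 9, 10, 5], .l [4, 7, 7, 1, 5, 3, 4], .l [7, 16, 8, 11, 13, 11, 13, 12, 3], .l [7, 16, 8, 13, 15, 10, 3, 1, 10, 10, 8, 3], .l [8, 1, 15, 7, 13, 3, 3, 1, 12, 8, 3], .l [2, 7, 7, 5, 13, 9, 9, 3, 12, 3, 1, 2, 3], .l [7, 16, 8, 13, 15, 10, 3, 1, 10, 10, 8, 3], .l [2, 5, 7, 1, 5, 3, 4], .l [2, 5, 5, 5, 13, 9, 9, 3, 12, 3, 1, 2, 3], .l [9, 16, 6, 11, 15, 10, 3, 1, 10, 10, 8, 1], .l [2, 5, 9, 3, 7, 3, 4], .l [2, 5, 5, 7, 13, 7, 7, 3, 12, 5, 1, 4, 1], .l [12, 5, 7, 11, 9, 5, 13, 6, 8, 6, 4, 7], .l [2, 5, 11, 5, 9, 3, 6], .l [2, 5, 1, 11, 1, 5, 13, 6, 8, 6, 4, 7], .y [2, 4, 12, 6], .l [11, 14, 8,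 14, 8, 11, 13, 10, 1, 7, 8, 3], .l [2, 5, 13, 7, 11, 3, 8], .l [6, 13, 9, 11, 13, 3, 7, 3, 12, 5, 3, 4, 7], .l [6, 13, 9, 11, 11, 1, 5, 3, 10, 5, 3, 4, 5], .l [2, 5, 15, 9, 15, 4, 10, 3, 8, 1, 2, 7], .l [2, 5, 15, 9, 13, 3, 10], .l [2, 5, 15, 0, 9, 15, 4, 10, 3, 8, 1, 2, 7], .l [5, 14, 8, 13, 13, 8, 3], .l [5, 18, 11, 14, 2, 9, 3, 7, 2, 10, 8, 5], .l [2, 5, 17, 11, 12, 2, 14, 12, 7], .l [6, 3, 15, 10, 11, 14, 1, 12, 7]]),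
([s 6 1, m 5 2, m 4 3, g, m 3 0, g, s 0 4, g, s 0 5, g, p 0 6, g, m 1 0, g, m 2 0, g], .hi 4, [.l [3, 14, 10, 1, 1, 9, 11, 10, 1], .l [2, 7, 3, 1, 1, 3, 4], .l [4, 5], .l [5, 14, 8, 11, 11, 9, 11, 10, 1], .l [12, 8, 1, 15, 4, 6, 12, 10, 5], .l [2, 7, 13, 7, 7, 1, 12, 5, 1, 4, 5, 3, 1], .y [2, 4, 6], .l [7, 14, 6, 9, 9, 7, 11, 10, 1], .l [12, 8, 3, 15, 4, 6, 10, 8, 5], .l [3, 16, 13, 1, 13, 5, 3, 9, 3, 8, 1], .l [1, 7, 7, 3, 7, 4, 7, 2, 5], .l [9, 14, 4, 7, 7, 5, 11, 10, 1], .l [12, 8, 5, 15, 4, 6, 8, 6, 9], .l [3, 16, 13, 1, 13, 7, 1, 10, 7], .l [10, 6, 5, 13, 4, 6, 6, 4, 7], .r 4109 [1, 2, 3, 7, 4, 5, 6] [1, 1, 1, 1, 1, 1, 1, 1], .l [14, 10, 7, 15, 2, 4, 6, 4, 7], .l [3, 16, 13, 1, 13, 7, 3, 10, 5], .l [3, 4, 2, 10,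 8, 10, 12, 10, 1], .l [13, 9, 12, 5, 13, 8, 10], .l [10, 9, 11, 1, 12, 4, 4, 2, 5], .l [15, 11, 14, 7, 1, 5, 2], .l [15, 11, 14, 7, 1, 5, 2], .l [10, 9, 11, 1, 14, 6, 6, 4, 7]]),
([s 5 1, m 4 2, m 0 3, g, m 3 0, g, s 0 4, g, p 0 5, g, m 1 0, g, m 2 0, g], .lo 2, [.l [4, 1, 5, 3, 4], .l [4, 1], .l [2, 3], .y [2, 4], .r 4110 [1, 2, 3, 6, 4, 5] [1, 1, 1, 1, 1, 1, 1], .l [6, 3], .l [2, 5], .l [8, 5, 13, 6, 9, 2, 9], .l [8, 5], .l [2, 7], .l [10, 7, 7, 5, 12, 4, 7], .l [10, 7], .l [2, 9], .l [2, 9], .l [12, 9, 9, 7, 12, 2, 7], .l [12, 9], .l [2, 11], .l [2, 11], .l [14, 11, 5, 11, 2], .l [14, 11], .l [2, 13]]),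
([s 4 1, m 3 2, m 0 0, g, s 0 3, g, p 0 4, g, m 1 0, g, m 2 0, g], .hi 2, [.y [2], .l [6, 4, 1], .l [6, 4, 1], .r 4111 [1, 2, 5, 3, 4] [1, 1, 1, 1, 1, 1], .l [4, 2, 1], .l [4, 2, 4], .l [4, 2, 4], .l [1, 3, 7, 4, 7, 2, 3], .l [4, 2, 4], .l [4, 2, 6], .l [4, 2, 6], .l [1, 3, 9, 6, 6, 3, 8, 2, 5], .l [4, 2, 8], .l [4, 2, 8], .l [6, 5, 7, 1, 8, 2, 3], .l [4, 2, 10], .l [4, 2, 10], .l [6, 5, 7, 1, 10, 4, 5]]),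
([s 5 1, m 4 2, s 0 3, g, s 0 4, g, m 3 0, g, p 0 5, g, m 1 0, g, m 2 0, g], .hi 12, [.l [4, 2, 10], .l [3, 12, 8, 11, 11, 8, 1], .l [13, 9, 12, 5, 11, 6, 8], .l [4, 13], .y [1, 12, 4], .l [5, 12, 6, 11, 11, 6, 1], .l [13, 7, 12, 7, 11, 4, 8], .l [6, 13], .l [7, 12, 4, 11, 11, 4, 1], .l [13, 5, 12, 9, 11, 2, 8], .l [8, 13], .l [11, 3, 10, 9, 9, 0, 6], .l [13, 9, 10, 7, 11, 1, 8, 3, 6, 3], .l [13, 3, 12, 9, 5, 6, 3, 8, 2, 5], .l [10, 13], .l [11, 7, 8, 5, 11, 3, 8, 1, 6, 1], .l [11, 7, 8, 5, 11, 3, 8, 1, 6, 1], .l [12, 13], .l [11, 7, 8, 5, 9, 1, 6, 1, 4, 5], .l [11, 7, 8, 5, 9, 1, 6, 1, 4, 5], .l [11, 7, 8, 5, 9, 1, 6, 8, 2, 5]]),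
([s 5 1, m 4 2, s 6 3, g, m 3 0, g, s 0 4, g, p 0 5, g, s 0 6, g, m 1 0, g, m 2 0, g], .lo 6, [.l [12, 9, 1, 3, 3, 6, 3, 10, 4, 7], .l [8, 3, 15, 8, 11, 2, 11], .l [6, 3, 11, 7, 2, 8, 5, 10, 4, 7], .l [4, 1, 9, 7, 2, 6, 3, 8, 4, 5], .l [12, 9, 13, 1, 9, 1, 11, 4, 6, 4, 2, 5], .l [8, 1, 13, 5, 11, 4, 11, 6, 3], .l [7, 14, 6, 11, 13, 8, 3], .l [12, 9, 5, 1, 13, 4, 6, 8, 6, 7], .l [12, 9, 5, 1, 13, 4, 6, 8, 6, 7], .l [7, 14, 6, 11, 13, 8, 3], .l [10, 3, 15, 6, 12, 1, 4, 7], .l [1, 5, 9, 3, 13, 9, 10], .l [5, 14, 8, 3, 5, 7, 4, 8, 1, 8, 4, 1], .l [12, 5, 15, 4, 12, 3, 6, 3], .l [1, 5, 11, 5, 13, 7, 10], .l [10, 7, 15, 6, 8, 6, 8, 1, 4, 6, 4, 5], .l [10, 7, 13, 4, 6, 4, 6, 1, 4, 4, 2, 3], .l [14, 7, 7, 10, 5, 12, 2, 3], .l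 [1, 5, 13, 7, 13, 5, 10], .l [5, 12, 6, 11, 13, 8, 3], .y [1, 14, 6], .l [10, 7, 13, 4, 6, 12, 3, 7, 1, 5, 6, 3], .l [1, 5, 15, 9, 1, 8, 1], .l [15, 9, 14, 11, 3, 9, 4]]),
([s 5 1, m 3 2, s 4 0, g, s 0 3, g, s 0 4, g, p 0 5, g, m 1 0, g, m 2 0, g], .hi 12, [.l [3, 12, 8, 11, 11, 8, 1], .l [13, 9, 12, 5, 11, 6, 8], .l [4, 13], .y [1, 12, 4], .l [5, 12, 6, 11, 11, 6, 1], .l [13, 7, 12, 7, 11, 4, 8], .l [6, 13], .l [5, 10, 4, 9, 9, 4, 1], .l [7, 12, 4, 11, 11, 4, 1], .l [13, 5, 12, 9, 11, 2, 8], .l [8, 13], .l [11, 3, 10, 9, 9, 0, 6], .l [13, 9, 10, 7, 11, 1, 8, 3, 6, 3], .l [13, 3, 12, 9, 5, 6, 3, 8, 2, 5], .l [10, 13], .l [11, 7, 8, 5, 11, 3, 8, 1, 6, 1], .l [11, 7, 8, 5, 11, 3, 8, 1, 6, 1], .l [12, 13], .l [11, 7, 8,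 5, 9, 1, 6, 1, 4, 5], .l [11, 7, 8, 5, 9, 1, 6, 1, 4, 5], .l [11, 7, 8, 5, 9, 1, 6, 8, 2, 5]]),
([s 6 1, m 5 2, s 4 3, g, s 7 4, g, m 3 0, g, s 0 5, g, p 0 6, g, s 0 7, g, m 1 0, g, m 2 0, g], .lo 8, [.l [10, 5, 15, 5, 9, 2, 10, 1, 8, 10, 8, 3], .l [10, 5, 17, 8, 11, 2, 11], .l [6, 3, 15, 9, 1, 9, 6, 10, 3, 10, 6, 3], .l [10, 3, 15, 5, 11, 4, 1, 12, 8, 3], .l [10, 3, 17, 8, 13, 4, 13], .l [3, 16, 12, 13, 6, 10, 3, 12, 8, 3], .l [3, 14, 10, 11, 6, 8, 1, 10, 8, 3], .l [10, 1, 15, 5, 13, 6, 1, 12, 6, 3], .l [10, 1, 15, 5, 13, 6, 1, 12, 6, 3], .l [3, 16, 12, 13, 6, 8, 1, 12, 10, 3], .l [9, 16, 6, 13, 15, 8, 3, 10, 1, 10, 8, 1], .l [2, 3, 13, 9, 5, 1, 13, 4, 6, 8, 6, 7], .l [9, 16, 6, 13, 15, 8, 3], .l [12, 3, 3, 8, 1, 14,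 6, 7], .l [1, 7, 11, 3, 15, 11, 12], .l [14, 9, 3, 10, 1, 3, 7, 12, 4, 7], .l [14, 5, 5, 10, 1, 14, 4, 7], .l [1, 7, 13, 5, 15, 9, 12], .l [12, 7, 17, 6, 10, 8, 10, 1, 6, 8, 6, 1], .l [12, 7, 15, 4, 8, 6, 8, 1, 6, 6, 4, 1], .l [16, 7, 7, 12, 1, 14, 2, 7], .l [1, 7, 15, 7, 15, 7, 12], .l [7, 14, 6, 13, 15, 8, 3], .y [1, 16, 8], .l [18, 9, 1, 15, 8, 1, 6, 1], .l [1, 7, 17, 9, 1, 8, 1], .l [17, 9, 16, 13, 3, 11, 6]]),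
([s 6 1, m 5 2, s 4 3, g, s 7 4, g, m 3 0, g, s 0 5, g, p 0 6, g, m 1 7, g, m 2 0, g], .hi 14, [.l [3, 14, 10, 13, 13, 10, 1], .l [2, 5, 1, 13, 1, 7, 11, 2, 4, 1, 7, 3, 5], .l [4, 15], .l [5, 14, 8, 13, 13, 8, 1], .l [4, 13, 7, 13, 13, 8, 1], .l [6, 15], .l [7, 14, 6, 13, 13, 6, 1], .l [4, 13, 5, 13, 13, 8, 3], .l [8, 15], .y [1, 14, 8], .l [8, 6, 1, 1, 10, 3, 10, 3, 1, 8, 4, 1], .l [4, 13, 3, 13, 13, 8, 5], .l [10, 15], .l [4, 11, 1, 11, 11, 6, 5], .l [8, 6, 1, 1, 10, 1, 10, 3, 1, 8, 4, 5], .l [8, 6, 1, 1, 10, 1, 10, 3, 1, 8, 4, 5], .l [12, 15], .l [13, 1, 7, 1, 7, 12, 3, 9, 9, 3, 4, 6, 4, 1], .l [3, 12, 8, 9, 1, 8, 8, 6, 10, 4, 5, 3, 1], .l [14, 15], .l [13, 1, 7, 1, 7, 10, 1, 7, 7, 1, 2, 4, 2, 3], .l [3, 12, 8, 9,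 1, 8, 8, 6, 8, 2, 3, 1, 5], .l [3, 12, 8, 9, 1, 8, 8, 6, 8, 2, 3, 7, 5]]),
([s 6 1, m 5 2, s 4 3, g, s 7 4, g, m 3 0, g, s 0 5, g, p 0 6, g, m 0 7, g, m 1 0, g, m 2 0, g], .hi 16, [.l [3, 16, 12, 15, 15, 12, 3], .l [2, 5, 1, 15, 3, 9, 13, 2, 6, 3, 9, 3, 5], .l [4, 17], .l [5, 16, 10, 15, 15, 10, 3], .l [4, 13, 7, 15, 15, 8, 1], .l [6, 17], .l [7, 16, 8, 15, 15, 8, 3], .l [4, 13, 5, 15, 15, 8, 3], .l [8, 17], .y [1, 16, 8], .l [8, 6, 1, 1, 10, 3, 12, 5, 1, 10, 4, 1], .l [4, 13, 3, 15, 15, 8, 5], .l [10, 17], .l [4, 11, 1, 13, 13, 6, 5], .l [8, 6, 1, 1, 10, 1, 12, 5, 1, 10, 4, 5], .l [8, 6, 1, 1, 10, 1, 12, 5, 1, 10, 4, 5], .l [12, 17], .l [12, 15], .l [17, 5, 11, 1, 11, 14, 1, 7, 11, 5, 6, 8, 2, 3], .l [3, 16, 12, 13,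 5, 12, 12, 10, 8, 10, 10, 2, 3], .l [14, 17], .l [15, 3, 9, 1, 9, 14, 3, 9, 11, 5, 6, 8, 4, 1], .l [3, 14, 10, 11, 3, 10, 10, 8, 12, 6, 7, 3, 1], .l [16, 17], .l [15, 3, 9, 1, 9, 12, 1, 7, 9, 3, 4, 6, 2, 5], .l [3, 14, 10, 11, 3, 10, 10, 8, 10, 4, 5, 1, 7], .l [3, 14, 10, 11, 3, 10, 10, 8, 10, 4, 5, 9, 7]]),
([s 6 1, m 5 2, s 4 3, g, s 0 4, g, m 3 0, g, s 0 5, g, p 0 6, g, m 1 0, g, m 2 0, g], .lo 4, [.l [3, 14, 10, 1, 3, 9, 4, 8, 1, 8, 4, 1], .l [6, 1, 13, 7, 1, 7, 4, 8, 1, 8, 4, 1], .l [5, 14, 8, 11, 13, 10, 1], .l [4, 1, 13, 9, 3, 9, 4, 8, 1, 8, 4, 1], .l [4, 1, 13, 9, 3, 9, 4, 8, 1, 8, 4, 1], .l [5, 14, 8, 11, 13, 10, 1], .y [2, 6, 4], .l [3, 4, 6, 12, 6, 7, 4, 8, 1, 8, 4, 1], .l [6, 3, 13, 7, 1, 9, 11, 8, 1, 5, 6,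 3], .l [4, 1, 13, 9, 1, 9, 4, 8, 1, 8, 4, 1], .l [3, 14, 10, 11, 6, 1, 8, 8, 6, 8, 6, 1], .l [3, 14, 10, 11, 6, 1, 8, 8, 6, 8, 6, 1], .l [9, 14, 4, 7, 13, 10, 1], .r 4116 [1, 2, 3, 4, 5, 6, 7] [1, 1, 1, 1, 1, 1, 1, 1], .l [12, 7, 15, 4, 8], .r 4118 [1, 2, 3, 4, 5, 6, 7] [1, 1, 1, 1, 1, 1, 1, 1], .r 4117 [1, 2, 3, 4, 5, 6, 7] [1, 1, 1, 1, 1, 1, 1], .l [14, 9, 15, 2, 8, 1, 6, 2, 8, 5, 6, 1], .l [14, 9, 15, 2, 8], .l [3, 12, 8, 11, 13, 10, 1], .l [3, 12, 8, 11, 11, 8, 1], .l [2, 3, 15, 11, 5, 11, 2, 6, 4, 5], .l [2, 3, 15, 11, 5, 11, 2, 6, 4, 5], .l [15, 11, 14, 7, 1, 5, 2]]),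
([s 5 1, m 4 2, s 0 3, g, m 3 0, g, s 0 4, g, p 0 5, g, m 1 0, g, m 2 0, g], .lo 2, [.r 4119 [1, 2, 3, 6, 4, 5] [1, 1, 1, 1, 1, 1, 1], .l [4, 1, 5, 3, 4], .l [8, 6, 1], .y [2, 4], .l [5, 12, 6, 7, 4, 8, 1, 8, 4, 1], .l [4, 1, 5, 3, 4], .l [8, 6, 3], .r 4115 [1, 2, 4, 6, 5] [3, 1, 1, 1, 1, 1], .l [4, 1, 7, 5, 2], .l [6, 4, 6], .r 4114 [1, 2, 3, 4, 5, 6] [1, 1, 1, 1, 1, 1, 1], .l [4, 1, 9, 7, 2], .l [6, 4, 8], .l [6, 4, 8], .l [12, 9, 11, 5, 11, 6, 8, 4, 2, 3], .l [4, 1, 11, 9, 2], .l [6, 4, 10], .l [6, 4, 10], .l [14, 11, 5, 11, 2, 6, 4, 5], .l [4, 1, 13, 11, 2], .l [6, 4, 12]]),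
([s 4 1, m 0 2, s 0 3, g, m 3 0, g, p 0 4, g, m 1 0, g, m 2 0, g], .lo 1, [.r 4113 [1, 2, 3, 5, 4] [1, 1, 1, 1, 1, 1], .l [4, 2], .l [1, 3], .l [1, 3], .r 4120 [1, 2, 3, 5, 4] [1, 1, 1, 1, 1, 1], .l [6, 4], .l [1, 5], .l [8, 6, 11, 4, 5], .l [8, 6], .l [1, 7], .l [1, 7], .l [10, 8, 11, 2, 5], .l [10, 8], .l [1, 9], .y [1, 10], .l [12, 10, 4, 10, 1], .l [12, 10], .l [1, 11]]),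
([s 5 1, p 7 2, p 4 3, g, p 6 4, g, s 3 0, g, s 2 0, g, p 0 5, g, s 0 6, g, m 1 0, g, p 0 7, g], .hi 6, [.l [7, 16, 8, 11, 15, 12, 3, 9, 10, 5], .l [7, 16, 8, 11, 13, 11, 13, 12, 3], .l [4, 7, 7, 1, 5, 3, 4], .l [7, 16, 8, 13, 15, 10, 3, 1, 10, 10, 8, 3], .l [2, 7, 7, 5, 13, 9, 9, 3, 12, 3, 1, 2, 3], .l [8, 1, 15, 7, 13, 3, 3, 1, 12, 8, 3], .l [7, 16, 8, 13, 15, 10, 3, 1, 10, 10, 8, 3], .l [2, 5, 5, 5, 13, 9, 9, 3, 12, 3, 1, 2, 3], .l [2, 5, 7, 1, 5, 3, 4], .l [9, 16, 6, 11, 15, 10, 3, 1, 10, 10, 8, 1], .l [2, 5, 5, 7, 13, 7, 7, 3, 12, 5, 1, 4, 1], .l [2, 5, 9, 3, 7, 3, 4], .l [2, 5, 5, 7, 11, 5, 5, 3, 10, 5, 1, 4, 1], .l [12, 5, 7, 11, 9, 5, 13, 6, 8, 6, 4, 7], .l [2, 5, 1, 11, 1, 5, 13, 6, 8, 6, 4, 7], .l [2, 5, 11,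 5, 9, 3, 6], .y [2, 6, 12, 4], .l [11, 14, 8, 14, 8, 11, 13, 10, 1, 7, 8, 3], .l [6, 13, 9, 11, 13, 3, 7, 3, 12, 5, 3, 4, 7], .l [2, 5, 13, 7, 11, 3, 8], .l [2, 5, 15, 9, 15, 4, 10, 3, 8, 1, 2, 7], .l [2, 5, 15, 0, 9, 15, 4, 10, 3, 8, 1, 2, 7], .l [2, 5, 15, 9, 13, 3, 10], .l [5, 14, 8, 13, 13, 8, 3], .l [5, 18, 11, 14, 2, 9, 3, 7, 2, 10, 8, 5], .l [6, 3, 15, 10, 11, 14, 1, 12, 7], .l [2, 5, 17, 11, 12, 2, 14, 12, 7]]),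
([s 5 1, p 6 2, p 4 3, g, p 0 4, g, s 3 0, g, s 2 0, g, p 0 5, g, m 1 0, g, p 0 6, g], .lo 4, [.l [3, 14, 10, 1, 1, 9, 11, 10, 1], .l [4, 5], .l [2, 7, 3, 1, 1, 3, 4], .l [5, 14, 8, 11, 11, 9, 11, 10, 1], .l [2, 7, 13, 7, 7, 1, 12, 5, 1, 4, 5, 3, 1], .l [12, 8, 1, 15, 4, 6, 12, 10, 5], .y [2, 6, 4], .l [7, 14, 6, 9, 9, 7, 11, 10, 1], .l [3, 16, 13, 1, 13, 5, 3, 9, 3, 8, 1], .l [12, 8, 3, 15, 4, 6, 10, 8, 5], .l [1, 7, 7, 3, 7, 4, 7, 2, 5], .l [9, 14, 4, 7, 7, 5, 11, 10, 1], .l [3, 16, 13, 1, 13, 7, 1, 10, 7], .l [12, 8, 5, 15, 4, 6, 8, 6, 9], .r 4122 [1, 2, 3, 4, 5, 7, 6] [1, 1, 1, 1, 1, 1, 1, 1], .l [3, 16, 13, 1, 13, 7, 3, 10, 5], .l [14, 10, 7, 15, 2, 4, 6, 4, 7], .l [12, 8, 7, 13, 2, 4, 4, 2, 5], .l [3, 4, 2, 10,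 8, 10, 12, 10, 1], .l [10, 9, 11, 1, 12, 4, 4, 2, 5], .l [13, 9, 12, 5, 13, 8, 10], .l [15, 11, 14, 7, 1, 5, 2], .l [10, 9, 11, 1, 14, 6, 6, 4, 7], .l [15, 11, 14, 7, 1, 5, 2]]),
([s 4 1, p 5 2, p 3 0, g, p 0 3, g, s 2 0, g, p 0 4, g, m 1 0, g, p 0 5, g], .hi 2, [.l [4, 1, 5, 3, 4], .l [2, 3], .l [4, 1], .y [2, 4], .r 4123 [1, 2, 6, 3, 4, 5] [1, 1, 1, 1, 1, 1, 1], .l [2, 5], .l [6, 3], .l [8, 5, 13, 6, 9, 2, 9], .l [2, 7], .l [8, 5], .l [2, 7], .l [10, 7, 7, 5, 12, 4, 7], .l [2, 9], .l [10, 7], .l [12, 9, 9, 7, 12, 2, 7], .l [2, 11], .l [12, 9], .l [2, 11], .l [14, 11, 5, 11, 2], .l [2, 13], .l [14, 11]]),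
([s 3 1, p 4 2, p 0 0, g, s 2 0, g, p 0 3, g, m 1 0, g, p 0 4, g], .lo 2, [.y [2], .l [6, 4, 1], .r 4124 [1, 2, 5, 3, 4] [1, 1, 1, 1, 1, 1], .l [6, 4, 1], .l [4, 2, 1], .l [4, 2, 4], .l [1, 3, 7, 4, 7, 2, 3], .l [4, 2, 4], .l [4, 2, 6], .l [1, 3, 9, 6, 6, 3, 8, 2, 5], .l [4, 2, 6], .l [4, 2, 6], .l [4, 2, 8], .l [6, 5, 7, 1, 8, 2, 3], .l [4, 2, 8], .l [4, 2, 10], .l [6, 5, 7, 1, 10, 4, 5], .l [4, 2, 10]]),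
([s 6 1, p 7 2, m 5 3, g, m 3 4, g, s 0 5, g, s 2 0, g, p 0 6, g, s 4 0, g, m 1 0, g, p 0 7, g], .lo 6, [.l [7, 16, 8, 11, 15, 12, 3, 9, 10, 5], .l [4, 7, 7, 1, 5, 3, 4], .l [7, 16, 8, 11, 13, 11, 13, 12, 3], .l [7, 16, 8, 13, 15, 10, 3, 1, 10, 10, 8, 3], .l [8, 1, 15, 7, 13, 3, 3, 1, 12, 8, 3], .l [2, 7, 7, 5, 13, 9, 9, 3, 12, 3, 1, 2, 3], .l [7, 16, 8, 13, 15, 10, 3, 1, 10, 10, 8, 3], .l [2, 5, 7, 1, 5, 3, 4], .l [2, 5, 5, 5, 13, 9, 9, 3, 12, 3, 1, 2, 3], .l [8, 1, 1, 3, 13, 8, 9, 0, 9], .l [9, 16, 6, 11, 15, 10, 3, 1, 10, 10, 8, 1], .l [2, 5, 9, 3, 7, 3, 4], .l [2, 5, 5, 7, 13, 7, 7, 3, 12, 5, 1, 4, 1], .l [12, 5, 7, 11, 9, 5, 13, 6, 8, 6, 4, 7], .l [2, 5, 11, 5, 9, 3, 6], .l [2, 5, 1, 11, 1, 5, 13, 6, 8, 6, 4, 7],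 .y [2, 4, 12, 6], .l [11, 14, 8, 14, 8, 11, 13, 10, 1, 7, 8, 3], .l [2, 5, 13, 7, 11, 3, 8], .l [6, 13, 9, 11, 13, 3, 7, 3, 12, 5, 3, 4, 7], .l [6, 13, 9, 11, 11, 1, 5, 3, 10, 5, 3, 4, 5], .l [2, 5, 15, 9, 15, 4, 10, 3, 8, 1, 2, 7], .l [2, 5, 15, 9, 13, 3, 10], .l [2, 5, 15, 0, 9, 15, 4, 10, 3, 8, 1, 2, 7], .l [5, 18, 11, 14, 2, 9, 3, 7, 2, 10, 8, 5], .l [2, 5, 17, 11, 12, 2, 14, 12, 7], .l [6, 3, 15, 10, 11, 14, 1, 12, 7]]),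
([s 5 1, p 6 2, m 4 3, g, m 3 0, g, s 0 4, g, s 2 0, g, p 0 5, g, m 1 0, g, p 0 6, g], .hi 4, [.l [3, 14, 10, 1, 1, 9, 11, 10, 1], .l [2, 7, 3, 1, 1, 3, 4], .l [4, 5], .l [5, 14, 8, 11, 11, 9, 11, 10, 1], .l [12, 8, 1, 15, 4, 6, 12, 10, 5], .l [2, 7, 13, 7, 7, 1, 12, 5, 1, 4, 5, 3, 1], .y [2, 4, 6], .l [7, 14, 6, 9, 9, 7, 11, 10, 1], .l [12, 8, 3, 15, 4, 6, 10, 8, 5], .l [3, 16, 13, 1, 13, 5, 3, 9, 3, 8, 1], .l [9, 14, 4, 7, 7, 5, 11, 10, 1], .l [12, 8, 5, 15, 4, 6, 8, 6, 9], .l [3, 16, 13, 1, 13, 7, 1, 10, 7], .l [10, 6, 5, 13, 4, 6, 6, 4, 7], .r 4126 [1, 2, 3, 7, 4, 5, 6] [1, 1, 1, 1, 1, 1, 1, 1], .l [14, 10, 7, 15, 2, 4, 6, 4, 7], .l [3, 16, 13, 1, 13, 7, 3, 10, 5], .l [3, 4, 2, 10, 8, 10, 12, 10, 1], .l [13, 9, 12,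 5, 13, 8, 10], .l [10, 9, 11, 1, 12, 4, 4, 2, 5], .l [13, 9, 12, 5, 11, 6, 8], .l [15, 11, 14, 7, 1, 5, 2], .l [15, 11, 14, 7, 1, 5, 2], .l [10, 9, 11, 1, 14, 6, 6, 4, 7]]),
([s 4 1, p 5 2, m 0 3, g, m 3 0, g, s 2 0, g, p 0 4, g, m 1 0, g, p 0 5, g], .lo 2, [.l [4, 1, 5, 3, 4], .l [4, 1], .l [2, 3], .y [2, 4], .r 4127 [1, 2, 3, 6, 4, 5] [1, 1, 1, 1, 1, 1, 1], .l [6, 3], .l [2, 5], .l [6, 3, 11, 6, 7, 0, 7], .l [8, 5, 13, 6, 9, 2, 9], .l [8, 5], .l [2, 7], .l [10, 7, 7, 5, 12, 4, 7], .l [10, 7], .l [2, 9], .l [2, 9], .l [12, 9, 9, 7, 12, 2, 7], .l [12, 9], .l [2, 11], .l [14, 11, 5, 11, 2], .l [14, 11], .l [2, 13]]),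
([s 3 1, p 4 2, m 0 0, g, s 2 0, g, p 0 3, g, m 1 0, g, p 0 4, g], .hi 2, [.y [2], .l [6, 4, 1], .l [6, 4, 1], .r 4128 [1, 2, 5, 3, 4] [1, 1, 1, 1, 1, 1], .l [4, 2, 4], .l [4, 2, 4], .l [1, 3, 7, 4, 7, 2, 3], .l [4, 2, 4], .l [4, 2, 6], .l [4, 2, 6], .l [1, 3, 9, 6, 6, 3, 8, 2, 5], .l [4, 2, 8], .l [4, 2, 8], .l [6, 5, 7, 1, 8, 2, 3], .l [4, 2, 8], .l [4, 2, 10], .l [4, 2, 10], .l [6, 5, 7, 1, 10, 4, 5]]),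
([s 7 1, p 8 2, g, s 0 3, g, m 3 4, g, m 4 5, s 2 6, g, s 6 0, g, p 0 7, g, s 5 0, g, m 1 0, g, p 0 8, g], .lo 12, [.l [13, 18, 4, 6, 17, 15, 3], .l [3, 13], .l [7, 1, 3, 11, 7, 3, 6], .l [13, 18, 4, 8, 17, 13, 3], .l [5, 13], .l [8, 9, 7, 17, 10, 7, 1, 12, 14, 10, 7], .l [7, 13, 7, 3, 8], .l [7, 13], .l [6, 20, 14, 3, 17, 9, 13, 12, 3, 10, 5], .l [13, 18, 4, 13, 17, 8, 3], .l [10, 13], .l [1, 7, 0, 14, 5, 3, 16, 10, 11, 7, 1, 3, 7], .l [10, 1, 2, 11, 1, 8, 13, 7, 1, 6, 4, 7], .l [13, 18, 4, 15, 17, 6, 3], .l [12, 13], .l [1, 7, 0, 14, 3, 1, 16, 10, 13, 9, 1, 3, 9], .l [11, 16, 11, 16, 9, 1, 6, 1, 7, 5, 8, 10, 6, 1], .l [12, 11, 17, 5, 10, 6, 1, 6, 8, 6, 9, 11, 1], .l [6, 20, 14, 1, 17, 11, 1, 3, 13, 10, 1, 8, 5], .l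 [6, 18, 12, 1, 15, 9, 1, 1, 11, 10, 1, 8, 5], .l [10, 1, 2, 11, 1, 11, 4, 2, 5, 12, 6, 1], .l [13, 16, 14, 16, 4, 10, 10, 8, 14, 10, 1], .l [10, 1, 2, 11, 1, 11, 4, 2, 5, 12, 6, 1], .y [0, 16, 12], .l [11, 16, 4, 15, 17, 6, 3], .l [13, 18, 16, 16, 4, 10, 10, 8, 14, 10, 1], .l [17, 5, 16, 15, 17, 2, 12], .l [19, 7, 18, 17, 3, 15, 10], .l [5, 1, 11, 6, 13, 6, 10, 9, 12, 2, 9, 11, 7], .l [19, 7, 18, 17, 3, 15, 10]]),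
([s 6 1, p 7 2, g, s 0 3, g, m 3 4, g, m 4 5, s 2 0, g, p 0 6, g, s 5 0, g, m 1 0, g, p 0 7, g], .hi 8, [.l [7, 1, 15, 8, 13, 11, 8, 12, 10, 3], .l [7, 1, 17, 11, 15, 12, 9], .l [10, 6, 15, 5, 8, 1, 14, 12, 3], .l [5, 1, 15, 11, 13, 10, 9], .l [7, 3, 15, 8, 11, 9, 10, 12, 8, 3], .l [9, 16, 6, 10, 16, 12, 3], .l [7, 3, 17, 11, 13, 10, 13], .l [7, 9, 6], .l [6, 12, 5, 2, 8], .l [5, 1, 17, 13, 15, 10, 11], .r 4130 [1, 2, 3, 4, 5, 8, 6, 7] [1, 1, 1, 1, 1, 1, 1, 1, 1], .l [5, 1, 17, 13, 15, 12, 1], .l [5, 1, 17, 13, 13, 9, 12, 8, 3, 6, 10, 8, 5], .l [5, 1, 15, 11, 13, 10, 1], .l [12, 3, 13, 8, 15, 9, 4, 8, 6, 9], .l [5, 1, 17, 13, 15, 12, 3], .l [1, 7, 11, 3, 16, 12, 13], .l [6, 14, 5, 8, 2, 9, 11, 2, 4, 10, 8, 3], .l [5,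 1, 17, 13, 15, 12, 5], .l [1, 7, 13, 5, 16, 10, 13], .l [5, 1, 13, 8, 11, 9, 10, 12, 8, 3], .l [5, 1, 17, 13, 15, 12, 7], .l [1, 7, 15, 7, 16, 8, 13], .y [1, 8, 16], .l [6, 10, 3, 9, 1, 7, 12, 7, 1, 3, 6, 1], .l [5, 1, 15, 11, 13, 10, 13], .l [1, 7, 17, 9, 1, 8, 1]]),
([s 5 1, p 6 2, g, s 0 3, g, m 3 4, g, m 4 0, s 2 0, g, p 0 5, g, m 1 0, g, p 0 6, g], .hi 7, [.l [8, 9, 7, 13, 6, 8, 12, 10, 1], .l [6, 3, 7, 10, 7, 10, 2, 4, 7], .l [3, 8], .y [3, 5, 7], .l [8, 9, 7, 13, 6, 10, 12, 8, 1], .l [6, 1, 7, 10, 7, 10, 2, 4, 7], .l [5, 8], .l [6, 14, 7, 1, 1, 10, 12, 8, 1], .l [12, 11, 13, 1, 6, 1, 6, 4, 7], .l [7, 8], .l [9, 14, 4, 10, 10, 8, 12, 8, 1], .l [6, 16, 10, 1, 13, 9, 11, 8, 1, 6, 3], .l [5, 1, 13, 8, 11, 9, 9, 6,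 8, 3, 8, 4, 1], .l [6, 14, 8, 1, 11, 7, 9, 8, 1, 6, 3], .r 4131 [1, 2, 3, 4, 7, 5, 6] [1, 1, 1, 1, 1, 1, 1, 1], .l [11, 4, 10, 6, 13, 7, 7, 4, 9], .l [5, 1, 9, 4, 11, 6, 8, 7, 8, 4, 8, 4, 1], .l [6, 7, 5, 11, 6, 10, 12, 8, 1], .l [13, 6, 12, 8, 13, 5, 10], .l [5, 1, 9, 4, 7, 5, 9, 3, 10, 4, 7], .l [13, 6, 12, 8, 11, 3, 8], .l [15, 8, 14, 10, 1, 8, 5], .l [15, 8, 14, 10, 1, 8, 5], .l [5, 1, 9, 4, 7, 5, 11, 5, 1, 6, 3]]),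
([s 4 1, p 5 2, g, m 0 3, g, m 3 0, s 2 0, g, p 0 4, g, m 1 0, g, p 0 5, g], .lo 3, [.r 4132 [1, 2, 6, 3, 4, 5] [1, 1, 1, 1, 1, 1, 1], .l [5, 1], .l [3, 12, 8, 1, 9, 11, 9, 1, 8, 4, 1], .l [5, 1, 11, 6, 1, 8, 10, 8, 1], .l [5, 1], .l [3, 4], .y [3, 5], .l [3, 5, 4], .l [8, 4, 4, 2, 3], .l [8, 4], .l [3, 7], .l [10, 6, 6, 4, 5], .l [10, 6], .l [3, 9], .l [3, 9], .l [12, 8, 8, 6, 7], .l [12, 8], .l [3, 11], .l [14, 10, 10, 8, 9], .l [14, 10], .l [3, 13]]),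
([s 3 1, p 4 2, g, m 0 0, s 2 0, g, p 0 3, g, m 1 0, g, p 0 4, g], .lo 3, [.l [1, 5, 1], .l [5, 1], .r 4133 [1, 2, 5, 3, 4] [1, 1, 1, 1, 1, 1], .y [3], .c, .l [1, 3, 4], .l [6, 2], .l [3, 5], .l [1, 3, 6], .l [8, 4], .l [3, 7], .l [3, 7], .l [1, 3, 8], .l [10, 6], .l [3, 9], .l [1, 3, 10], .l [12, 8], .l [3, 11]]),
([s 5 1, p 6 2, g, s 0 3, s 2 4, g, m 4 0, g, p 0 5, g, m 1 0, g, p 0 6, g, s 3 0, g], .lo 3, [.l [4, 8, 1, 4, 2, 11, 7, 9, 6, 1, 4, 1], .l [1, 5, 1], .l [4, 8, 1, 4, 2, 11, 7, 9, 6, 1, 4, 1], .l [8, 3, 11, 3, 4, 5, 6, 8, 6, 1], .l [6, 2, 3], .l [1, 3, 4], .l [1, 3, 4], .l [1, 3, 6, 10, 5, 8, 1, 8, 6, 1], .l [8, 4, 5], .l [1, 3, 6], .l [1, 3, 14, 5, 12, 6, 4, 5], .l [10, 6, 7], .l [1, 3, 8], .l [1, 3, 8], .l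 [6, 1, 9, 3, 4, 5, 6, 8, 6, 1], .l [12, 8, 9], .l [1, 3, 10], .l [6, 1, 13, 10, 6, 3, 4, 7, 8, 6, 4, 1], .l [14, 10, 11], .l [1, 3, 12], .y [3, 14], .l [6, 1, 13, 10, 6, 3, 4, 7, 8, 6, 4, 1], .l [16, 12, 13], .l [1, 3, 14]]),
([s 4 1, p 5 2, g, s 0 3, s 2 0, g, p 0 4, g, m 1 0, g, p 0 5, g, s 3 0, g], .hi 4, [.l [13, 10, 2, 11, 6, 1, 4, 1], .l [5, 10, 4, 6, 10, 8, 1], .l [6, 2, 9, 3, 6, 1, 8, 6, 1], .c, .l [14, 10, 1, 3, 10, 3], .l [5, 10, 4, 7, 9, 6, 1], .r 4135 [1, 2, 3, 6, 4, 5] [1, 1, 1, 1, 1, 1, 1], .l [5, 8, 2, 5, 7, 4, 1], .l [8, 3, 9, 1, 2, 3, 8, 3, 4, 1], .l [14, 10, 3, 5, 10, 3], .l [1, 3, 7, 3, 10, 6, 7], .l [10, 5, 11, 2, 8, 1, 6, 1, 2, 5], .l [3, 8, 4, 8, 10, 6, 1], .l [1, 3, 9, 5, 10, 4, 7], .y [1, 4, 10],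 .l [3, 13, 1, 7, 9, 1, 6, 1, 4, 1], .l [1, 3, 12, 1, 7, 1, 6, 1], .l [1, 3, 11, 7, 1, 6, 1], .l [13, 1, 8, 11, 8, 1, 6, 3], .l [13, 1, 8, 11, 8, 1, 6, 3], .l [1, 3, 13, 9, 1, 8, 3]]),
([s 4 1, p 5 2, g, s 0 3, s 2 0, g, p 0 4, g, m 1 0, g, s 3 0, g, p 0 5, g], .lo 3, [.l [11, 8, 1, 12, 3, 6, 1, 4, 6, 3], .l [1, 5, 1], .l [4, 10, 5, 7, 11, 9, 1], .c, .l [2, 8, 5, 9, 6, 7, 3, 8, 4, 5], .l [6, 2, 3], .l [1, 3, 4], .l [2, 10, 7, 9, 11, 9, 3, 8, 2, 5], .l [8, 4, 5], .l [1, 3, 6], .l [1, 3, 6], .l [2, 8, 5, 7, 11, 9, 1, 8, 4, 1], .l [10, 6, 7], .l [1, 3, 8], .y [3, 10], .l [2, 8, 5, 9, 11, 7, 1, 6, 2, 5], .l [12, 8, 9], .l [1, 3, 10], .l [1, 3, 12, 3, 10, 4, 2, 5], .l [14, 10, 11], .l [1, 3, 12]]),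
([s 5 1, p 9 2, g, s 0 3, s 2 4, g, m 4 0, g, p 6 5, g, p 7 6, g, p 8 7, g, p 0 8, g, s 3 0, g, m 1 0, g, p 0 9, g], .lo 14, [.l [15, 16, 14, 14, 12, 12, 10, 14, 4, 6, 13, 11, 3], .l [3, 15], .l [1, 5, 16, 20, 8, 10, 1, 7, 15, 15, 13, 13, 11], .l [1, 3, 16, 1, 9, 18, 6, 13], .l [6, 15], .l [1, 3, 16, 11, 9, 9, 7, 7, 5, 5, 3, 12, 6], .l [1, 3, 14, 9, 7, 7, 5, 5, 3, 3, 1, 10, 6], .l [1, 3, 16, 1, 7, 18, 6, 15], .l [8, 15], .l [1, 3, 16, 9, 7, 7, 5, 5, 3, 3, 1, 12, 6], .l [1, 3, 16, 1, 5, 16, 3, 6, 1, 10, 1, 3, 8, 10, 8, 5], .l [10, 15], .l [1, 3, 16, 7, 5, 5, 3, 3, 1, 3, 1, 12, 6], .l [11, 7, 9, 13, 9, 9, 7, 15, 10, 5, 5, 1, 10, 1, 10, 8, 5], .l [12, 15], .l [1, 3, 16, 5, 3, 3, 1, 3, 1, 14, 6, 8, 1], .l [13, 9, 11, 15,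 11, 11, 9, 9, 7, 13, 8, 1, 10, 1, 10, 8, 5], .l [14, 15], .l [18, 14, 21, 4, 15, 15, 13, 13, 11, 11, 7, 9, 1], .l [13, 14, 12, 12, 10, 10, 8, 14, 6, 1, 6, 7, 3, 8, 1, 8, 6, 3], .l [18, 14, 21, 4, 15, 15, 13, 13, 11, 11, 9, 9, 7], .l [18, 14, 19, 1, 8, 1, 18, 12, 5, 5, 3, 3, 1], .l [1, 3, 14, 14, 12, 12, 10, 10, 8, 8, 6, 10, 6], .l [1, 3, 14, 16, 14, 14, 12, 12, 10, 10, 8, 10, 5, 8, 1, 8, 6, 1], .l [1, 3, 14, 16, 14, 14, 12, 12, 10, 10, 8, 12, 8], .l [1, 3, 14, 20, 8, 10, 1, 5, 15, 15, 13, 13, 11], .y [0, 18, 14, 12, 10, 8], .l [13, 14, 12, 12, 10, 10, 8, 12, 4, 11, 13, 6, 3], .l [1, 3, 14, 18, 16, 16, 14, 14, 12, 12, 10, 12, 8], .l [1, 3, 14, 20, 8, 10, 1, 3, 15, 15, 13, 13, 11], .l [13, 14, 12, 16, 4, 17, 3, 15, 11,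 7, 10], .l [1, 3, 14, 20, 18, 18, 16, 16, 14, 12, 6, 8, 1], .l [16, 12, 19, 4, 13, 13, 11, 11, 9, 9, 7, 7, 11]]),
([s 5 1, p 8 2, g, s 0 3, s 2 4, g, m 4 0, g, p 6 5, g, p 7 6, g, p 0 7, g, s 3 0, g, m 1 0, g, p 0 8, g], .lo 12, [.l [13, 14, 12, 12, 10, 14, 4, 6, 13, 11, 3], .l [3, 13], .l [1, 5, 14, 18, 8, 10, 1, 7, 13, 13, 11, 11, 9], .l [1, 3, 14, 1, 7, 16, 6, 11], .l [6, 13], .l [1, 3, 14, 9, 7, 7, 5, 5, 3, 12, 6, 7], .l [1, 3, 12, 7, 5, 5, 3, 3, 1, 10, 6, 7], .l [1, 3, 14, 1, 5, 16, 6, 13], .l [8, 13], .l [1, 3, 14, 7, 5, 5, 3, 3, 1, 12, 6, 9], .l [9, 5, 7, 11, 7, 15, 10, 5, 5, 1, 10, 1, 10, 8, 5], .l [10, 13], .l [1, 3, 14, 5, 3, 3, 1, 3, 1, 12, 6, 8, 1], .l [11, 7, 9, 13, 9, 9, 7, 13, 8, 1, 10, 1, 10, 8, 5], .l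 [12, 13], .l [16, 12, 19, 4, 13, 13, 11, 11, 7, 9, 1, 3, 1], .l [11, 12, 10, 10, 8, 14, 6, 1, 6, 7, 3, 8, 1, 8, 6, 3], .r 4138 [1, 2, 3, 4, 5, 6, 7, 9, 8] [1, 1, 1, 1, 1, 1, 1, 1, 1, 1], .l [16, 12, 17, 1, 8, 1, 16, 10, 3, 3, 1, 11, 9], .l [1, 3, 12, 12, 10, 10, 8, 8, 6, 10, 6, 8, 1], .l [1, 3, 12, 14, 12, 12, 10, 10, 8, 10, 5, 8, 1, 8, 6, 1], .l [1, 3, 12, 14, 12, 12, 10, 10, 8, 12, 8, 10, 1], .l [1, 3, 12, 18, 8, 10, 1, 5, 13, 13, 11, 11, 9], .y [0, 16, 12, 10, 8], .l [11, 12, 10, 10, 8, 12, 4, 11, 13, 6, 3], .l [1, 3, 12, 16, 14, 14, 12, 12, 10, 12, 8, 10, 1], .l [1, 3, 12, 18, 8, 10, 1, 3, 13, 13, 11, 11, 9], .l [11, 16, 4, 17, 3, 15, 11, 7, 10], .l [1, 3, 12, 18, 16, 16, 14, 14, 12, 10, 6, 8, 1], .l [11, 16, 4, 17,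 3, 15, 11, 7, 10]]),
([s 5 1, p 8 2, g, s 7 3, s 2 4, g, m 4 0, g, p 6 5, g, p 0 6, g, s 3 0, g, s 0 7, g, m 1 0, g, p 0 8, g], .lo 10, [.l [11, 12, 10, 16, 6, 8, 15, 13, 5], .l [3, 11], .l [1, 5, 2, 10, 10, 8, 14, 9, 12, 1, 12, 10, 5], .l [1, 3, 14, 3, 7, 16, 6, 11], .l [6, 11], .l [1, 3, 14, 9, 5, 5, 3, 14, 6, 9], .l [1, 3, 12, 7, 3, 3, 1, 12, 6, 9], .l [1, 3, 14, 3, 5, 16, 6, 13], .l [8, 11], .l [1, 3, 14, 7, 3, 3, 1, 14, 6, 11], .l [9, 5, 7, 11, 7, 15, 10, 1, 12, 1, 12, 10, 7], .l [10, 11], .l [14, 10, 11, 5, 1, 12, 8, 1, 8, 6, 1, 10, 8, 3], .l [9, 10, 8, 16, 8, 1, 8, 9, 5, 10, 1, 10, 8, 3], .r 4139 [1, 2, 3, 4, 5, 6, 9, 8] [1, 1, 1, 1, 1, 1, 3, 1, 1], .l [9, 10, 8, 16, 8, 1, 8, 9, 5, 10, 1, 10, 8, 3], .l [1, 3, 10,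 10, 8, 8, 6, 10, 5, 8, 1, 8, 6, 3], .l [1, 3, 10, 12, 10, 10, 8, 12, 7, 10, 1, 10, 8, 3], .l [1, 3, 10, 12, 10, 10, 8, 12, 7, 10, 1, 10, 8, 3], .l [9, 10, 8, 16, 8, 3, 8, 9, 5, 10, 1, 10, 8, 5], .l [1, 3, 12, 14, 10, 10, 8, 12, 7, 10, 1, 10, 8, 3], .l [1, 3, 12, 14, 10, 10, 8, 12, 7, 10, 1, 10, 8, 3], .l [1, 3, 12, 3, 12, 1, 8, 1, 8, 6, 1, 10, 8, 3], .y [0, 16, 10, 8], .l [9, 10, 8, 14, 6, 13, 15, 8, 5], .l [1, 3, 12, 16, 12, 12, 10, 10, 5, 8, 1, 10, 8, 1], .l [1, 3, 12, 3, 14, 3, 10, 1, 10, 8, 1, 10, 8, 5], .l [9, 10, 8, 8, 0, 15, 5, 10, 11, 3, 10, 5], .l [12, 8, 9, 18, 14, 14, 12, 14, 7, 3, 8, 3], .l [1, 3, 12, 3, 16, 5, 12, 1, 12, 5, 6, 9]]),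
([s 5 1, p 7 2, g, s 6 3, s 2 4, g, m 4 0, g, p 0 5, g, s 3 0, g, s 0 6, g, m 1 0, g, p 0 7, g], .lo 8, [.l [1, 5, 12, 3, 8, 4, 1, 12, 10, 3], .l [3, 9], .l [1, 5, 12, 3, 8, 4, 1, 12, 10, 3], .l [1, 3, 12, 3, 5, 1, 5, 12, 6, 9], .l [6, 9], .l [1, 3, 12, 7, 3, 14, 6, 9], .l [1, 3, 10, 5, 1, 12, 6, 9], .l [1, 3, 12, 5, 1, 14, 6, 11], .l [8, 9], .l [1, 3, 12, 5, 1, 14, 6, 11], .l [7, 16, 8, 1, 8, 9, 5, 10, 1, 10, 8, 3], .r 4140 [1, 2, 3, 4, 5, 8, 6, 7] [1, 1, 1, 1, 1, 1, 1, 1, 1], .l [1, 3, 12, 5, 1, 3, 8, 4, 1, 10, 8, 1], .l [1, 3, 10, 3, 1, 1, 6, 4, 1, 8, 6, 1], .l [1, 3, 8, 1, 8, 6, 1, 12, 10, 3], .l [1, 3, 8, 10, 8, 12, 7, 10, 1, 10, 8, 3], .l [1, 3, 8, 1, 8, 6, 1, 12, 10, 3], .l [1, 3, 10, 3, 10, 6, 1, 12, 10, 5], .l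 [1, 3, 10, 12, 8, 12, 7, 10, 1, 10, 8, 3], .l [1, 3, 10, 3, 10, 6, 1, 12, 10, 5], .y [0, 14, 8], .l [1, 3, 10, 3, 12, 8, 1, 12, 10, 7], .l [1, 3, 10, 14, 10, 10, 5, 8, 1, 10, 8, 1], .l [1, 3, 10, 3, 12, 8, 1, 12, 10, 7], .l [1, 3, 10, 3, 14, 10, 1, 8, 6, 9], .l [10, 6, 7, 16, 12, 14, 7, 3, 8, 3], .l [1, 3, 10, 3, 14, 10, 1, 8, 6, 9]]),
([s 4 1, p 6 2, g, s 5 3, s 2 0, g, p 0 4, g, s 3 0, g, s 0 5, g, m 1 0, g, p 0 6, g], .hi 4, [.l [10, 4, 7, 1, 5, 12, 6, 9], .l [5, 14, 8, 10, 14, 12, 5], .l [10, 4, 7, 1, 5, 12, 6, 9], .l [10, 6, 1, 14, 6, 9], .l [10, 6, 1, 14, 6, 9], .r 4141 [1, 2, 3, 7, 4, 5, 6] [1, 1, 1, 1, 1, 1, 1, 1], .l [8, 4, 1, 12, 6, 9], .l [1, 3, 10, 3, 5, 12, 6, 9], .l [1, 3, 10, 3, 5, 12, 6, 9], .l [1, 3,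 7, 3, 14, 10, 11], .l [1, 3, 10, 1, 5, 12, 6, 9], .l [1, 3, 10, 1, 5, 12, 6, 9], .l [1, 3, 9, 5, 14, 8, 11], .l [10, 6, 7, 1, 5, 10, 4, 7], .l [12, 7, 13, 1, 2, 3, 4, 10, 8, 5], .l [8, 4, 10, 1, 4, 12, 10, 3], .l [1, 3, 11, 7, 14, 6, 11], .l [14, 9, 15, 2, 12, 5, 10, 1, 2, 5], .l [3, 12, 8, 12, 14, 10, 5], .l [1, 3, 13, 9, 14, 4, 11], .y [1, 4, 14], .l [16, 11, 7, 13, 4, 12, 5, 7, 8, 3], .l [8, 4, 14, 8, 12, 3, 7, 3, 8, 3], .l [1, 3, 8, 10, 3, 12, 7, 1, 6, 1]]),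
([s 5 1, p 8 2, g, s 7 3, s 2 4, g, m 4 0, g, p 6 5, g, p 0 6, g, s 0 7, g, s 3 0, g, m 1 0, g, p 0 8, g], .lo 10, [.l [11, 12, 10, 16, 6, 8, 15, 13, 5], .l [3, 11], .l [1, 5, 2, 10, 10, 8, 14, 9, 12, 1, 12, 10, 5], .l [1, 3, 12, 1, 5, 16, 8, 11], .l [6, 11], .l [1, 3, 12, 7, 5, 5, 3, 14, 8, 9], .l [1, 3, 10, 5, 3, 3, 1, 12, 8, 9], .l [1, 3, 12, 1, 3, 16, 8, 13], .l [8, 11], .l [1, 3, 12, 5, 3, 3, 1, 14, 8, 11], .l [9, 5, 7, 11, 7, 15, 10, 1, 12, 1, 12, 10, 7], .l [10, 11], .l [14, 10, 11, 5, 1, 12, 8, 1, 8, 6, 1, 10, 8, 3], .l [9, 10, 8, 16, 8, 1, 8, 9, 3, 10, 1, 10, 8, 5], .r 4139 [1, 2, 3, 4, 5, 6, 9, 8] [1, 1, 1, 1, 1, 3, 1, 1, 1], .l [9, 10, 8, 16, 8, 1, 8, 9, 3, 10, 1, 10, 8, 5], .l [1, 3, 10, 12, 10, 10, 8, 12,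 7, 10, 1, 10, 8, 3], .l [1, 3, 10, 12, 10, 10, 8, 12, 7, 10, 1, 10, 8, 3], .l [9, 10, 8, 16, 8, 3, 8, 9, 5, 10, 1, 10, 8, 5], .l [1, 3, 12, 12, 8, 8, 6, 10, 5, 8, 1, 8, 6, 3], .l [1, 3, 10, 14, 12, 12, 10, 12, 7, 10, 1, 10, 8, 1], .l [1, 3, 10, 14, 12, 12, 10, 12, 7, 10, 1, 10, 8, 1], .l [1, 3, 12, 3, 12, 1, 8, 1, 8, 6, 1, 10, 8, 3], .y [0, 16, 10, 8], .l [9, 10, 8, 14, 6, 13, 15, 8, 5], .l [1, 3, 10, 16, 14, 14, 12, 12, 7, 10, 1, 10, 8, 1], .l [1, 3, 10, 1, 14, 5, 1, 8, 1, 12, 10, 1], .l [9, 10, 8, 8, 0, 15, 5, 10, 11, 3, 10, 5], .l [12, 8, 9, 18, 14, 14, 12, 14, 7, 3, 8, 3], .l [1, 3, 12, 3, 16, 5, 12, 1, 12, 5, 6, 9]]),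
([s 5 1, p 7 2, g, s 6 3, s 2 4, g, m 4 0, g, p 0 5, g, s 0 6, g, s 3 0, g, m 1 0, g, p 0 7, g], .lo 8, [.l [1, 5, 10, 1, 6, 4, 1, 12, 10, 1], .l [3, 9], .l [1, 5, 10, 1, 6, 4, 1, 12, 10, 1], .l [1, 3, 10, 1, 3, 1, 3, 12, 8, 9], .l [6, 9], .l [1, 3, 10, 5, 3, 14, 8, 9], .l [1, 3, 8, 3, 1, 12, 8, 9], .l [1, 3, 10, 3, 1, 14, 8, 11], .l [8, 9], .l [1, 3, 10, 3, 1, 14, 8, 11], .l [7, 16, 8, 1, 8, 9, 3, 10, 1, 10, 8, 5], .r 4143 [1, 2, 3, 4, 5, 8, 6, 7] [1, 1, 1, 1, 1, 1, 1, 1, 1], .l [1, 3, 12, 5, 1, 3, 8, 4, 1, 10, 8, 1], .l [1, 3, 8, 1, 8, 6, 1, 12, 10, 3], .l [1, 3, 8, 10, 8, 12, 7, 10, 1, 10, 8, 3], .l [1, 3, 8, 1, 8, 6, 1, 12, 10, 3], .l [1, 3, 8, 1, 8, 6, 1, 10, 8, 3], .l [1, 3, 8, 1, 10, 8, 1, 12, 10, 5], .l [1, 3,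 8, 12, 10, 12, 7, 10, 1, 10, 8, 1], .l [1, 3, 8, 1, 10, 8, 1, 12, 10, 5], .y [0, 14, 8], .l [1, 3, 8, 1, 12, 10, 1, 12, 10, 7], .l [1, 3, 8, 14, 12, 12, 7, 10, 1, 10, 8, 1], .l [1, 3, 8, 1, 12, 10, 1, 12, 10, 7], .l [1, 3, 8, 1, 14, 12, 1, 10, 8, 9], .l [10, 6, 7, 16, 12, 14, 7, 3, 8, 3], .l [1, 3, 8, 1, 14, 12, 1, 10, 8, 9]]),
([s 4 1, p 6 2, g, s 5 3, s 2 0, g, p 0 4, g, s 0 5, g, s 3 0, g, m 1 0, g, p 0 6, g], .hi 4, [.l [10, 4, 7, 1, 5, 12, 6, 9], .l [5, 14, 8, 10, 14, 12, 5], .l [10, 4, 7, 1, 5, 12, 6, 9], .l [10, 6, 1, 14, 6, 9], .l [10, 6, 1, 14, 6, 9], .r 4144 [1, 2, 3, 7, 4, 5, 6] [1, 1, 1, 1, 1, 1, 1, 1], .l [8, 4, 1, 12, 6, 9], .l [1, 3, 8, 1, 3, 12, 8, 9], .l [1, 3, 8, 1, 3, 12, 8, 9], .l [1, 3, 7, 3, 14,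 10, 11], .l [8, 4, 5, 1, 3, 10, 6, 7], .l [1, 3, 10, 1, 5, 12, 6, 9], .l [1, 3, 10, 1, 5, 12, 6, 9], .l [1, 3, 9, 5, 14, 8, 11], .l [12, 7, 13, 1, 2, 3, 6, 10, 6, 3], .l [8, 4, 10, 1, 4, 12, 10, 3], .l [1, 3, 11, 7, 14, 6, 11], .l [14, 9, 15, 2, 12, 5, 10, 1, 2, 3], .l [3, 12, 8, 12, 14, 10, 5], .l [1, 3, 13, 9, 14, 4, 11], .y [1, 4, 14], .l [16, 11, 7, 13, 4, 12, 5, 7, 8, 1], .l [8, 4, 14, 8, 12, 3, 7, 3, 8, 3], .l [1, 3, 6, 10, 5, 12, 5, 1, 4, 1]]),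
([s 4 1, p 5 2, g, s 0 3, s 2 0, g, p 0 4, g, s 3 0, g, m 1 0, g, p 0 5, g], .lo 3, [.l [4, 12, 7, 9, 11, 9, 3, 8, 2, 5], .l [1, 5, 1], .l [4, 12, 7, 9, 11, 9, 3], .c, .l [10, 6, 7, 10, 1, 8, 3, 8, 2, 5], .l [6, 2, 3], .l [1, 3, 4], .r 4145 [1, 2, 3, 4, 6, 5] [1, 1, 1, 1, 1, 1, 1], .l [8, 4, 5], .l [1, 3, 6], .y [3, 8], .r 4142 [1, 2, 3, 4, 6, 5] [1, 1, 1, 1, 1, 1, 1], .l [10, 6, 7], .l [1, 3, 8], .l [1, 3, 8], .l [2, 10, 7, 9, 11, 9, 3, 8, 2, 5], .l [12, 8, 9], .l [1, 3, 10], .l [1, 3, 12, 5, 10, 4, 2, 3], .l [14, 10, 11], .l [1, 3, 12]]),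
([s 4 1, p 5 2, g, s 0 3, s 2 0, g, s 3 0, g, p 0 4, g, m 1 0, g, p 0 5, g], .lo 3, [.l [4, 12, 7, 9, 6, 7, 1, 8, 6, 1], .l [1, 5, 1], .l [4, 12, 7, 9, 11, 9, 1], .c, .l [2, 12, 9, 4, 9, 5, 6, 8, 6, 1], .l [6, 2, 3], .l [1, 3, 4], .y [3, 6], .l [2, 12, 9, 4, 9, 5, 6, 8, 6, 1], .l [8, 4, 5], .l [1, 3, 6], .l [10, 6, 7, 10, 1, 8, 3, 8, 2, 5], .l [10, 6, 7], .l [1, 3, 8], .l [1, 3, 8], .l [2, 8, 5, 9, 6, 7, 3, 8, 4, 5], .l [12, 8, 9], .l [1, 3, 10], .l [2, 8, 5, 11, 8, 9, 5, 1, 4, 1], .l [14, 10, 11], .l [1, 3, 12]]),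
([s 4 1, p 5 2, g, s 3 0, g, s 0 3, s 2 0, g, p 0 4, g, m 1 0, g, p 0 5, g], .lo 5, [.l [6, 12, 5, 7, 11, 9, 1, 8, 4, 1], .l [1, 7, 3], .l [6, 12, 5, 7, 11, 9, 1], .y [3, 5], .l [6, 12, 5, 9, 11, 7, 1, 6, 2, 5], .l [1, 7, 1], .l [6, 12, 5, 9, 11, 7, 1], .c, .l [4, 12, 7, 2, 7, 5, 6, 8, 6, 1], .l [8, 2, 5], .l [1, 5, 6], .l [4, 12, 7, 9, 11, 9, 3, 8, 2, 5], .l [10, 4, 7], .l [1, 5, 8], .l [1, 5, 8], .l [11, 8, 1, 12, 3, 6, 1, 4, 6, 3], .l [12, 6, 9], .l [1, 5, 10], .l [4, 10, 5, 7, 9, 7, 1, 6, 2, 5], .l [14, 8, 11], .l [1, 5, 12]]),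
([s 3 1, p 4 2, g, s 0 0, s 2 0, g, p 0 3, g, m 1 0, g, p 0 4, g], .hi 3, [.r 4148 [1, 2, 5, 3, 4] [1, 1, 1, 1, 1, 1], .l [4, 10, 5, 7, 9, 7, 1], .l [1, 5, 1], .y [3], .r 4147 [1, 2, 5, 3, 4] [1, 1, 1, 1, 1, 1], .l [1, 3, 4], .l [6, 2, 3], .l [1, 3, 4], .r 4146 [1, 2, 5, 3, 4] [1, 1, 1, 1, 1, 1], .l [1, 3, 6], .l [8, 4, 5], .r 4137 [1, 2, 5, 3, 4] [1, 1, 1, 1, 1, 1], .l [1, 3, 8], .l [10, 6, 7], .l [1, 3, 8], .r 4136 [1, 2, 5, 3, 4] [1, 1, 1, 1, 1, 1], .l [1, 3, 10], .l [12, 8, 9]]),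
([s 6 1, p 8 2, s 0 0, g, s 3 0, g, p 4 3, g, p 7 4, s 2 5, g, s 5 0, g, p 0 6, g, s 0 7, g, m 1 0, g, p 0 8, g], .hi 2, [.y [2], .l [3, 19, 15, 16, 8, 9, 16, 14, 3, 7, 12, 9], .l [11, 9, 1], .l [8, 1, 18, 10, 16, 14, 1, 11, 1, 13, 10, 3], .l [5, 19, 13, 14, 8, 9, 16, 14, 3, 7, 12, 9], .l [11, 9, 3], .l [8, 3, 14, 6, 10, 8, 1, 13, 9, 11, 10, 3], .l [6, 1, 7, 3, 7, 1], .l [11, 9, 5], .l [6, 1, 7, 3, 7, 1], .l [9, 7, 9, 15, 11, 11, 9, 16, 4, 7], .l [9, 7, 9], .l [6, 11, 6, 3, 8], .l [6, 1, 20, 15, 18, 15, 1, 3, 10, 7], .l [9, 7, 11], .l [6, 1, 14, 8, 12, 10, 1, 13, 7, 11, 10, 7], .l [9, 7, 11], .l [6, 1, 20, 15, 18, 15, 1, 5, 10, 5], .l [9, 7, 13], .l [15, 12, 20, 6, 8], .l [6, 1, 18, 13, 16, 13, 1, 5, 8, 3], .l [6, 1,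 20, 15, 18, 15, 1, 7, 10, 3], .l [9, 7, 15], .l [17, 14, 20, 4, 8], .l [6, 1, 20, 15, 18, 15, 1, 9, 10, 1], .l [9, 7, 17], .l [19, 16, 20, 2, 8], .l [9, 7, 17], .l [2, 20, 12, 6, 10, 15, 5, 14, 4, 11], .l [9, 7, 19], .l [6, 21, 16, 3, 18]]),
([s 6 1, p 8 2, g, s 3 0, g, p 4 3, g, p 7 4, s 2 5, g, s 5 0, g, p 0 6, g, s 0 7, g, m 1 0, g, p 0 8, g], .top 2, [.l [5, 11, 5, 10, 1, 8, 1, 9, 5, 7, 6, 1], .r 4150 [1, 2, 3, 4, 5, 6, 7, 8] [1, 1, 1, 1, 1, 1, 1, 1, 1], .r 4125 [1, 2, 6, 8] [6, 3, 3, 1, 1], .r 4129 [1, 2, 6, 8] [6, 3, 3, 1, 1]]),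
([s 5 1, p 7 2, g, s 3 0, g, p 4 3, g, p 6 4, s 2 0, g, p 0 5, g, s 0 6, g, m 1 0, g, p 0 7, g], .hi 8, [.l [7, 1, 15, 8, 13, 11, 8, 12, 10, 3], .l [7, 1, 17, 11, 15, 12, 9], .l [10, 6, 15, 5, 8, 1, 14, 12, 3], .l [7, 3, 15, 8, 11, 9, 10, 12, 8, 3], .l [9, 16, 6, 10, 16, 12, 3], .l [7, 3, 17, 11, 13, 10, 13], .l [7, 9, 6], .l [6, 12, 5, 2, 8], .l [5, 1, 17, 13, 15, 10, 11], .r 4151 [1, 2, 3, 4, 8, 5, 6, 7] [1, 1, 1, 1, 1, 1, 1, 1, 1], .l [5, 1, 17, 13, 15, 12, 1], .l [5, 1, 17, 13, 13, 9, 12, 8, 3, 6, 10, 8, 5], .l [5, 1, 15, 11, 13, 10, 1], .l [12, 3, 13, 8, 15, 9, 4, 8, 6, 9], .l [5, 1, 17, 13, 15, 12, 3], .l [1, 7, 11, 3, 16, 12, 13], .l [6, 12, 3, 6, 2, 7, 3, 4, 7, 2, 5, 7, 1], .l [6, 14, 5, 8, 2, 9, 11, 2, 4, 10,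 8, 3], .l [5, 1, 17, 13, 15, 12, 5], .l [1, 7, 13, 5, 16, 10, 13], .l [5, 1, 13, 8, 11, 9, 10, 12, 8, 3], .l [5, 1, 17, 13, 15, 12, 7], .l [1, 7, 15, 7, 16, 8, 13], .y [1, 8, 16], .l [6, 10, 3, 9, 1, 7, 12, 7, 1, 3, 6, 1], .l [5, 1, 15, 11, 13, 10, 13], .l [1, 7, 17, 9, 1, 8, 1]]),
([s 5 1, p 6 2, g, s 3 0, g, p 4 3, g, p 0 4, s 2 0, g, p 0 5, g, m 1 0, g, p 0 6, g], .lo 7, [.l [8, 9, 7, 13, 6, 8, 12, 10, 1], .l [3, 8], .l [6, 3, 7, 10, 7, 10, 2, 4, 7], .y [3, 7, 5], .l [8, 9, 7, 13, 6, 10, 12, 8, 1], .l [5, 8], .l [6, 1, 7, 10, 7, 10, 2, 4, 7], .l [6, 14, 7, 1, 1, 10, 12, 8, 1], .l [7, 8], .l [12, 11, 13, 1, 6, 1, 6, 4, 7], .l [6, 10, 3, 0, 6], .l [9, 14, 4, 10, 10, 8, 12, 8, 1], .l [5, 1, 13, 8, 11, 9, 9, 6, 8, 3, 8,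 4, 1], .l [6, 16, 10, 1, 13, 9, 11, 8, 1, 6, 3], .r 4152 [1, 2, 3, 4, 5, 7, 6] [1, 1, 1, 1, 1, 1, 1, 1], .l [5, 1, 9, 4, 11, 6, 8, 7, 8, 4, 8, 4, 1], .l [11, 4, 10, 6, 13, 7, 7, 4, 9], .l [11, 4, 10, 6, 11, 5, 5, 2, 7], .l [6, 7, 5, 11, 6, 10, 12, 8, 1], .l [5, 1, 9, 4, 7, 5, 9, 3, 10, 4, 7], .l [13, 6, 12, 8, 13, 5, 10], .l [15, 8, 14, 10, 1, 8, 5], .l [5, 1, 9, 4, 7, 5, 11, 5, 1, 6, 3], .l [15, 8, 14, 10, 1, 8, 5]]),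
([s 4 1, p 5 2, g, p 3 0, g, p 0 3, s 2 0, g, p 0 4, g, m 1 0, g, p 0 5, g], .hi 3, [.r 4153 [1, 2, 6, 3, 4, 5] [1, 1, 1, 1, 1, 1, 1], .l [3, 12, 8, 1, 9, 11, 9, 1, 8, 4, 1], .l [5, 1], .l [5, 1, 11, 6, 1, 8, 10, 8, 1], .l [3, 4], .l [5, 1], .y [3, 5], .l [8, 4, 4, 2, 3], .l [3, 7], .l [8, 4], .l [3, 7], .l [10, 6, 6, 4, 5], .l [3, 9], .l [10, 6], .l [12, 8, 8, 6, 7], .l [3, 11], .l [12, 8], .l [3, 11], .l [14, 10, 10, 8, 9], .l [3, 13], .l [14, 10]]),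
([s 3 1, p 4 2, g, p 0 0, s 2 0, g, p 0 3, g, m 1 0, g, p 0 4, g], .hi 3, [.l [1, 5, 1], .r 4154 [1, 2, 5, 3, 4] [1, 1, 1, 1, 1, 1], .l [5, 1], .y [3], .l [1, 3, 4], .l [3, 5], .l [6, 2], .l [3, 5], .l [1, 3, 6], .l [3, 7], .l [8, 4], .l [1, 3, 8], .l [3, 9], .l [10, 6], .l [3, 9], .l [1, 3, 10], .l [3, 11], .l [12, 8]]),
([s 3 1, p 4 2, g, s 2 0, g, p 0 3, g, m 1 0, g, p 0 4, g], .bot 2, [.c, .r 4149 [1, 2, 3, 4] [1, 1, 1, 1, 1], .r 4155 [1, 2, 3, 4] [1, 1, 1, 1, 1], .r 4134 [1, 2, 3, 4] [1, 1, 1, 1, 1]]),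
([s 2 1, p 3 0, g, p 0 2, g, m 1 0, g, p 0 3, g], .hi 1, [.r 4156 [1, 4, 2, 3] [1, 1, 1, 1, 1], .l [1, 2], .l [3, 1], .l [1, 2], .l [5, 3, 8, 4, 5], .l [1, 4], .l [5, 3], .l [7, 5, 8, 2, 5], .l [1, 6], .l [7, 5], .y [1, 7], .l [9, 7, 1, 6, 1], .l [1, 8], .l [9, 7]]),
([s 0 1, m 0 2, s 0 3, g, m 3 0, g, m 1 0, g, m 2 0, g], .lo 0, [.l [3], .l [6, 3, 9, 4, 6], .l [3], .l [3], .l [5], .r 4121 [1, 2, 3, 4] [1, 1, 1, 1, 1], .l [5], .y [0, 6], .l [7], .R 4157 [4, 1, 2] [4, 1, 1, 1], .l [7], .l [7], .l [9], .R 4083 [4, 1, 2] [4, 1, 1, 1], .l [9]]),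
([s 0 1, m 0 0, s 0 2, g, m 1 0, g, p 2 0, g], .lo 1, [.y [1], .l [4, 2, 6], .l [4, 2], .l [1, 3], .l [1, 3], .l [6, 4, 6], .l [6, 4], .l [1, 5], .l [6, 4], .l [8, 6, 3], .l [8, 6], .l [1, 7]])]

def d16_1 : List (List Item × Qry × List Rf) := [
([s 7 1, m 6 2, s 5 3, g, s 3 4, g, p 0 5, g, s 0 6, g, p 0 7, g, p 4 0, g, m 1 0, g, m 2 0, g], .hi 16, [.l [3, 16, 12, 15, 15, 12, 3], .l [2, 5, 1, 15, 3, 9, 13, 2, 6, 3, 9, 3, 5], .l [4, 17], .l [5, 16, 10, 15, 15, 10, 3], .l [4, 13, 7, 15, 15, 8, 1], .l [6, 17], .l [4, 11, 5, 13, 13, 6, 1], .l [7, 16, 8, 15, 15, 8, 3], .l [4, 13, 5, 15, 15, 8, 3], .l [8, 17], .y [1, 16, 8], .l [8, 6, 1, 1, 10, 3, 12, 5, 1, 10, 4, 1], .l [4, 13, 3, 15, 15, 8, 5], .l [10, 17], .l [4, 11, 1,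 13, 13, 6, 5], .l [8, 6, 1, 1, 10, 1, 12, 5, 1, 10, 4, 5], .l [8, 6, 1, 1, 10, 1, 12, 5, 1, 10, 4, 5], .l [12, 17], .l [17, 5, 11, 1, 11, 14, 1, 7, 11, 5, 6, 8, 2, 3], .l [3, 16, 12, 13, 5, 12, 12, 10, 8, 10, 10, 2, 3], .l [14, 17], .l [15, 3, 9, 1, 9, 14, 3, 9, 11, 5, 6, 8, 4, 1], .l [3, 14, 10, 11, 3, 10, 10, 8, 12, 6, 7, 3, 1], .l [16, 17], .l [15, 3, 9, 1, 9, 12, 1, 7, 9, 3, 4, 6, 2, 5], .l [3, 14, 10, 11, 3, 10, 10, 8, 10, 4, 5, 1, 7], .l [3, 14, 10, 11, 3, 10, 10, 8, 10, 4, 5, 9, 7]]),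
([s 7 1, m 6 2, s 5 3, g, s 3 4, g, p 0 5, g, s 0 6, g, p 0 7, g, s 4 0, g, m 1 0, g, m 2 0, g], .lo 8, [.l [10, 5, 15, 5, 9, 2, 10, 1, 8, 10, 8, 3], .l [10, 5, 17, 8, 11, 2, 11], .l [6, 3, 15, 9, 1, 9, 6, 10, 3, 10, 6, 3], .l [10, 3, 15, 5, 11, 4, 1, 12, 8, 3], .l [10, 3, 17, 8, 13, 4, 13], .l [3, 16, 12, 13, 6, 10, 3, 12, 8, 3], .l [10, 1, 15, 5, 13, 6, 1, 12, 6, 3], .l [10, 1, 15, 5, 13, 6, 1, 12, 6, 3], .l [3, 16, 12, 13, 6, 8, 1, 12, 10, 3], .l [9, 16, 6, 13, 15, 8, 3, 10, 1, 10, 8, 1], .l [2, 3, 13, 9, 5, 1, 13, 4, 6, 8, 6, 7], .l [9, 16, 6, 13, 15, 8, 3], .l [12, 3, 3, 8, 1, 14, 6, 7], .l [1, 7, 11, 3, 15, 11, 12], .l [14, 9, 3, 10, 1, 3, 7, 12, 4, 7], .l [12, 3, 3, 8, 1, 12, 4, 5], .l [14, 5, 5, 10, 1, 14, 4,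 7], .l [1, 7, 13, 5, 15, 9, 12], .l [12, 7, 17, 6, 10, 8, 10, 1, 6, 8, 6, 7], .l [12, 7, 15, 4, 8, 6, 8, 1, 6, 6, 4, 5], .l [16, 7, 7, 12, 1, 14, 2, 7], .l [1, 7, 15, 7, 15, 7, 12], .l [7, 14, 6, 13, 15, 8, 3], .y [1, 16, 8], .l [18, 9, 1, 15, 8, 1, 6, 1], .l [1, 7, 17, 9, 1, 8, 1], .l [17, 9, 16, 13, 3, 11, 6]]),
([s 6 1, m 5 2, s 4 3, g, s 3 0, g, p 0 4, g, s 0 5, g, p 0 6, g, m 1 0, g, m 2 0, g], .hi 4, [.l [3, 14, 10, 1, 3, 9, 4, 8, 1, 8, 4, 1], .l [5, 14, 8, 11, 13, 10, 1], .l [6, 1, 13, 7, 1, 7, 4, 8, 1, 8, 4, 1], .l [4, 1, 13, 9, 3, 9, 4, 8, 1, 8, 4, 1], .l [5, 14, 8, 11, 13, 10, 1], .l [4, 1, 13, 9, 3, 9, 4, 8, 1, 8, 4, 1], .y [2, 4, 6], .l [3, 4, 6, 12, 6, 7, 4, 8, 1, 8, 4, 1], .l [4, 1, 13, 9, 1, 9, 4, 8, 1,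 8, 4, 1], .l [6, 3, 13, 7, 1, 9, 11, 8, 1, 5, 6, 3], .l [4, 1, 11, 7, 1, 7, 4, 6, 1, 6, 4, 1], .l [3, 14, 10, 11, 6, 1, 8, 8, 6, 8, 6, 1], .l [9, 14, 4, 7, 13, 10, 1], .l [3, 14, 10, 11, 6, 1, 8, 8, 6, 8, 6, 1], .l [9, 12, 2, 5, 11, 8, 1], .r 4161 [1, 2, 3, 7, 4, 5, 6] [1, 1, 1, 1, 1, 1, 1, 1], .r 4160 [1, 2, 3, 7, 4, 5, 6] [1, 1, 1, 1, 1, 1, 1, 1], .l [12, 7, 15, 4, 8], .l [14, 9, 15, 2, 8, 1, 6, 2, 8, 5, 6, 1], .l [3, 12, 8, 11, 13, 10, 1], .l [14, 9, 15, 2, 8], .l [2, 3, 15, 11, 5, 11, 2, 6, 4, 5], .l [15, 11, 14, 7, 1, 5, 2], .l [2, 3, 15, 11, 5, 11, 2, 6, 4, 5]]),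
([s 6 1, m 4 2, s 5 3, g, s 3 0, g, s 0 4, g, p 0 5, g, p 0 6, g, m 1 0, g, m 2 0, g], .hi 4, [.l [6, 3, 13, 7, 3, 7, 4, 8, 1, 8, 4, 1], .l [5, 14, 8, 11, 13, 10, 1], .l [6, 1, 13, 7, 3, 7, 4, 8, 1, 8, 4, 1], .l [5, 14, 8, 11, 13, 10, 1, 7, 8, 5], .l [5, 14, 8, 11, 13, 10, 1], .l [8, 6, 1, 3, 1, 10, 5, 1, 6, 8, 6, 1], .l [4, 1, 11, 7, 3, 7, 4, 6, 1, 6, 4, 1], .l [3, 14, 10, 11, 8, 1, 8, 10, 8, 1], .l [7, 14, 6, 9, 13, 10, 1], .l [3, 14, 10, 11, 8, 1, 8, 10, 8, 1], .y [2, 4, 8], .l [3, 14, 10, 11, 8, 3, 8, 10, 8, 1], .l [9, 14, 4, 7, 13, 10, 1], .l [3, 14, 10, 11, 8, 3, 8, 10, 8, 1], .l [9, 12, 2, 5, 11, 8, 1], .l [4, 1, 7, 5, 2, 8, 3, 10, 4, 7], .l [11, 5, 8, 5, 11, 2, 6, 10, 6, 3], .l [4, 1, 7, 5, 2, 8, 3, 10, 4, 7],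 .l [4, 1, 7, 5, 2, 10, 5, 10, 2, 7], .l [3, 12, 8, 11, 13, 10, 1], .l [4, 1, 7, 5, 2, 10, 5, 10, 2, 7], .l [2, 3, 15, 11, 5, 11, 2, 8, 6, 3], .l [4, 1, 11, 7, 9, 11, 5, 9, 6, 1, 4, 1], .l [2, 3, 15, 11, 5, 11, 2, 8, 6, 3]]),
([s 5 1, m 4 2, s 0 3, g, s 3 0, g, s 0 4, g, p 0 5, g, m 1 0, g, m 2 0, g], .lo 2, [.l [3, 12, 8, 9, 4, 8, 1, 8, 4, 1], .l [5, 12, 6, 7, 4, 8, 1, 8, 4, 1], .l [8, 6, 1], .y [2, 4], .l [3, 12, 8, 9, 4, 8, 1, 8, 4, 1], .r 4162 [1, 2, 3, 6, 4, 5] [1, 1, 1, 1, 1, 1, 1], .l [8, 6, 3], .r 4115 [1, 2, 4, 6, 5] [3, 1, 1, 1, 1, 1], .r 4163 [1, 2, 3, 4, 6, 5] [1, 1, 1, 1, 1, 1, 1], .l [6, 4, 6], .l [10, 7, 3, 6, 3, 10, 4, 7], .l [10, 7, 13, 4, 6], .l [6, 4, 8], .l [6, 4, 8], .l [12, 9, 3, 8, 5, 10, 2, 7],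 .l [12, 9, 13, 2, 6], .l [6, 4, 10], .l [6, 4, 10], .l [3, 8, 4, 5, 2, 10, 5, 1, 6, 3], .l [3, 8, 4, 5, 2, 10, 5, 1, 6, 3], .l [6, 4, 12]]),
([s 5 1, m 4 2, s 0 3, g, s 0 4, g, s 3 0, g, p 0 5, g, m 1 0, g, m 2 0, g], .hi 12, [.l [4, 2, 10], .l [3, 12, 8, 11, 11, 8, 1], .l [13, 9, 12, 5, 11, 6, 8], .l [4, 13], .y [1, 12, 4], .l [5, 12, 6, 11, 11, 6, 1], .l [13, 7, 12, 7, 11, 4, 8], .l [6, 13], .l [7, 12, 4, 11, 11, 4, 1], .l [13, 5, 12, 9, 11, 2, 8], .l [8, 13], .l [11, 3, 10, 9, 9, 0, 6], .l [13, 9, 10, 7, 11, 1, 8, 3, 6, 3], .l [13, 3, 12, 9, 5, 6, 3, 8, 2, 5], .l [10, 13], .l [11, 7, 8, 5, 11, 3, 8, 1, 6, 1], .l [11, 7, 8, 5, 11, 3, 8, 1, 6, 1], .l [12, 13], .l [11, 7, 8, 5, 9, 1, 6, 1, 4, 5], .l [11, 7, 8, 5, 9, 1,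 6, 1, 4, 5], .l [11, 7, 8, 5, 9, 1, 6, 8, 2, 5]]),
([s 4 1, m 0 2, s 0 3, g, s 3 0, g, p 0 4, g, m 1 0, g, m 2 0, g], .lo 1, [.r 4165 [1, 2, 3, 5, 4] [1, 1, 1, 1, 1, 1], .l [4, 2], .l [1, 3], .l [4, 2, 1], .r 4164 [1, 2, 3, 5, 4] [1, 1, 1, 1, 1, 1], .l [6, 4], .l [1, 5], .l [8, 6, 1, 10, 4, 5], .l [8, 6], .l [1, 7], .l [1, 7], .l [10, 8, 1, 10, 2, 5], .l [10, 8], .l [1, 9], .y [1, 10], .l [12, 10, 1, 3, 8, 1], .l [12, 10], .l [1, 11]]),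
([s 2 1, p 5 2, g, s 4 0, g, m 1 0, s 0 3, g, m 3 0, g, s 0 4, g, p 0 5, g], .lo 6, [.l [8, 4, 13, 6, 8, 5], .l [1, 0, 6, 5, 12, 6, 9], .l [10, 1, 6, 4, 6], .l [6, 2, 11, 6, 8, 5], .l [8, 2, 13, 6, 10, 7], .l [1, 0, 6, 5, 12, 6, 7], .l [10, 1, 4, 2, 6], .l [8, 1, 2, 0, 4], .l [12, 8, 13, 2, 10, 1], .l [8, 1, 9, 7, 4], .l [1, 0, 4, 3, 12, 8, 1], .y [6, 8], .l [12, 8, 13, 2, 10, 3], .l [8, 1, 9, 7, 4], .l [1, 0, 4, 3, 12, 8, 3], .l [10, 6, 13, 4, 10, 7], .l [8, 1, 11, 9, 4], .l [1, 0, 4, 3, 12, 8, 5], .l [10, 6, 11, 2, 8, 9], .l [8, 1, 13, 11, 4], .l [1, 0, 4, 3, 10, 6, 9]]),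
([s 2 1, p 5 2, s 4 3, g, m 3 0, g, m 1 0, s 0 0, g, s 0 4, g, p 0 5, g], .hi 7, [.l [11, 8, 8, 4, 11, 2, 8, 3], .l [2, 10, 6, 4, 5, 3, 5, 0], .l [1, 0, 7, 6, 11, 4, 7], .l [11, 8, 8, 6, 11, 2, 6, 7], .l [2, 10, 4, 2, 5, 1, 5, 0], .l [1, 0, 7, 6, 11, 4, 5], .y [7], .l [11, 8, 8, 6, 11, 2, 8, 1], .l [1, 0, 5, 4, 11, 6, 1], .r 4167 [1, 2, 6, 4, 5] [0, 3, 1, 1, 1, 1], .l [9, 6, 6, 4, 9, 2, 6, 1], .l [9, 6, 6, 4, 11, 4, 8, 5], .l [1, 0, 5, 4, 11, 6, 3], .l [9, 6, 6, 4, 11, 4, 8, 5], .l [1, 0, 5, 4, 9, 4, 3], .l [9, 6, 6, 4, 9, 2, 6, 7], .l [1, 0, 5, 4, 9, 4, 9], .l [2, 8, 12, 10, 3, 1, 3, 0]]),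
([s 2 1, p 4 2, s 0 0, g, p 3 0, g, m 1 0, p 5 3, g, p 0 4, g, p 0 5, g], .lo 11, [.l [1, 0, 5, 4, 8], .l [4, 12, 12, 8, 3], .l [4, 12], .l [11, 7, 12, 12, 4, 9, 2], .y [4, 11, 7], .l [6, 12, 12, 8, 1], .l [6, 12], .l [11, 5, 12, 12, 2, 9, 4], .l [9, 3, 10, 10, 0, 7, 4], .l [8, 13, 11, 5, 5, 4, 7, 2, 7], .l [9, 12], .l [8, 13, 11, 5, 5, 4, 7, 2, 7], .l [10, 13, 9, 5, 5, 4, 9, 4, 1], .l [11, 12], .l [10, 13, 9, 5, 5, 4, 9, 4, 1], .l [10, 11, 7, 5, 5, 4, 7, 2, 7], .l [10, 1, 10, 7, 5, 7, 9, 7, 4], .l [10, 11, 7, 5, 5, 4, 7, 2, 7]]),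
([s 2 1, p 3 2, s 0 0, g, m 1 0, p 4 0, g, p 0 3, g, p 0 4, g], .hi 5, [.l [5, 2, 6, 2, 3], .l [7, 2, 8, 2, 5], .r 4169 [1, 2, 5, 3, 4] [1, 1, 1, 1, 1], .l [7, 2], .l [7, 1, 10, 8, 3], .l [5, 6], .l [7, 1], .l [5, 6], .l [9, 3, 7, 5, 9, 7, 4], .l [5, 8], .l [9, 3], .y [5, 9], .l [1, 0, 3, 2, 9, 5, 1, 4, 1], .l [5, 10], .l [11, 5]]),
([s 2 1, p 5 2, s 0 0, g, p 3 0, g, m 1 0, p 4 3, g, p 0 4, g, p 0 5, g], .lo 9, [.l [1, 0, 5, 4, 6], .l [4, 10, 10, 8, 3], .l [4, 10], .l [13, 9, 6, 6, 4, 9, 2], .y [4, 9, 7], .l [6, 10, 10, 8, 1], .l [6, 10], .l [13, 7, 4, 4, 2, 9, 4], .l [11, 5, 2, 2, 0, 7, 4], .l [8, 11, 9, 5, 5, 4, 9, 4, 1], .l [9, 10], .l [8, 11, 9, 5, 5, 4, 9, 4, 1], .l [8, 9, 7, 5, 5, 4, 9, 4, 1], .l [8, 13, 5, 1,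 10, 8, 1, 7, 4], .l [8, 9, 7, 5, 5, 4, 9, 4, 1], .l [8, 9, 7, 5, 5, 4, 7, 2, 7], .l [8, 2, 10, 3, 8, 6, 9, 2, 6], .l [8, 9, 7, 5, 5, 4, 7, 2, 7]]),
([s 2 1, p 4 2, s 0 0, g, m 1 0, p 3 0, g, p 0 3, g, p 0 4, g], .hi 5, [.l [5, 2, 8, 4, 5], .l [7, 2, 10, 4, 7], .r 4171 [1, 2, 5, 3, 4] [1, 1, 1, 1, 1], .l [7, 2], .l [7, 1, 8, 6, 3], .l [5, 6], .l [7, 1], .y [5, 7], .l [5, 8, 4, 0, 6, 5, 8, 2, 5], .l [5, 8], .l [9, 3], .l [5, 8], .l [5, 10, 3, 0, 8, 3, 4], .l [5, 10], .l [11, 5]]),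
([s 2 1, p 3 2, s 0 0, g, m 1 0, p 0 0, g, p 0 3, g], .lo 5, [.l [1, 0, 3, 2, 2], .l [1, 0, 5, 4, 7, 2, 3], .l [4, 6], .l [9, 5, 2, 7, 2], .l [7, 3, 0, 5, 2], .y [5], .l [1, 0, 3, 2, 7, 4, 1], .r 4172 [1, 2, 4, 3] [1, 1, 1, 1], .l [1, 0, 3, 2, 7, 4, 1], .l [1, 0, 3, 2, 5, 2, 5], .r 4170 [1, 2, 3, 4] [1, 1, 1, 1], .l [1, 0, 3, 2, 5, 2, 5]]),
([s 2 1, p 6 2, s 5 3, g, m 3 0, g, m 1 0, m 0 4, g, m 4 0, g, s 0 5, g, p 0 6, g], .lo 7, [.l [9, 4, 14, 6, 9], .l [9, 4], .l [13, 10, 14, 2, 7, 4, 8, 3, 1, 9, 5, 5, 3], .l [11, 8, 12, 2, 7, 4, 8, 3, 1, 7, 3, 3, 1], .l [9, 2, 14, 6, 11], .l [9, 2], .l [13, 10, 14, 2, 7, 9, 8, 3, 9, 5, 1, 5, 1], .l [11, 8, 12, 2, 7, 7, 6, 3, 7, 3, 1, 3, 1], .l [9, 1, 10, 8, 5], .l [9, 1], .l [7, 8],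 .y [7, 9], .l [7, 10, 4, 0, 8, 7, 12, 4, 9], .l [11, 3], .l [7, 10], .l [7, 12, 1, 5, 0, 8, 7, 10, 2, 7], .l [13, 5], .l [7, 12], .l [7, 14, 3, 7, 0, 3], .l [15, 7], .l [7, 14]]),
([s 2 1, p 5 2, s 4 3, g, m 3 0, g, m 1 0, m 0 0, g, s 0 4, g, p 0 5, g], .hi 7, [.l [1, 0, 7, 6, 11, 4, 7], .l [2, 10, 6, 4, 5, 3, 5, 0], .l [4, 8], .l [1, 0, 7, 6, 11, 4, 5], .l [2, 10, 4, 2, 5, 1, 5, 0], .l [6, 8], .y [7], .l [1, 0, 5, 4, 11, 6, 1], .l [1, 0, 5, 4, 11, 6, 1], .r 4174 [1, 2, 3, 6, 4, 5] [1, 1, 1, 1, 1, 1], .l [1, 0, 5, 4, 9, 4, 1], .l [1, 0, 5, 4, 11, 6, 3], .l [1, 0, 5, 4, 11, 6, 3], .l [2, 8, 10, 8, 3, 1, 3, 0], .l [1, 0, 5, 4, 9, 4, 3], .l [1, 0, 5, 4, 9, 4, 9], .l [1, 0, 5, 4, 9, 4, 9], .l [2, 8, 12, 10, 3, 1, 3, 0]]),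
([s 2 1, p 5 2, s 4 3, g, m 3 0, g, m 1 0, g, s 0 4, g, p 0 5, g], .top 7, [.l [2, 6, 3, 1, 3, 0], .r 4168 [1, 2, 3, 4, 5] [1, 1, 1, 1, 1], .r 4173 [1, 2, 5] [3, 3, 1], .r 4175 [1, 2, 3, 4, 5] [1, 1, 1, 1, 1]]),
([s 2 1, p 4 2, s 3 0, g, m 1 0, g, s 0 3, g, p 0 4, g], .hi 2, [.l [8, 5, 9, 2, 4, 6, 4, 1], .l [1, 0, 5, 4, 1], .r 4176 [1, 2, 5, 3, 4] [1, 1, 1, 1, 1], .l [6, 3, 9, 4, 6, 4, 2, 3], .l [1, 0, 3, 2, 3], .l [6, 3, 9, 4, 6], .y [2, 6], .l [6, 3, 9, 4, 6, 4, 2, 3], .l [1, 0, 3, 2, 5], .l [8, 5, 9, 2, 6], .l [1, 0, 3, 2, 5], .l [2, 9, 3, 7, 0, 3], .l [1, 0, 3, 2, 7], .l [6, 3, 7, 2, 4, 6, 4, 1]]),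
([s 6 1, m 5 2, s 4 3, g, p 0 4, g, s 0 5, g, p 0 6, g, s 3 0, g, m 1 0, g, m 2 0, g], .lo 6, [.l [12, 9, 1, 3, 3, 6, 3, 10, 4, 7], .l [8, 3, 15, 8, 11, 2, 11], .l [6, 3, 11, 7, 2, 8, 5, 10, 4, 7], .l [12, 9, 13, 1, 9, 1, 11, 4, 6, 4, 2, 5], .l [8, 1, 13, 5, 11, 4, 11, 6, 3], .l [7, 14, 6, 11, 13, 8, 3], .l [12, 9, 5, 1, 13, 4, 6, 8, 6, 7], .l [12, 9, 5, 1, 13, 4, 6, 8, 6, 7], .l [7, 14, 6, 11, 13, 8, 3], .l [10, 3, 15, 6, 12, 1, 4, 7], .l [1, 5, 9, 3, 13, 9, 10], .l [5, 14, 8, 3, 5, 7, 4, 8, 1, 8, 4, 1], .l [10, 3, 13, 4, 10, 1, 4, 3], .l [12, 5, 15, 4, 12, 3, 6, 3], .l [1, 5, 11, 5, 13, 7, 10], .l [10, 7, 15, 6, 8, 6, 8, 1, 4, 6, 4, 5], .l [10, 7, 13, 4, 6, 4, 6, 1, 4, 4, 2, 3], .l [14, 7, 7, 10, 5, 12, 2, 3], .l [1,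 5, 13, 7, 13, 5, 10], .l [5, 12, 6, 11, 13, 8, 3], .y [1, 14, 6], .l [10, 7, 13, 4, 6, 12, 3, 7, 1, 5, 6, 3], .l [1, 5, 15, 9, 1, 8, 1], .l [15, 9, 14, 11, 3, 9, 4]]),
([s 0 1, p 5 2, s 4 3, g, m 3 0, g, s 2 0, g, m 1 0, g, s 0 4, g, p 0 5, g], .lo 0, [.l [3], .l [6, 3, 13, 8, 10], .l [3], .l [3], .l [5], .l [8, 6, 13, 6, 7], .l [5], .l [5], .l [7], .l [12, 9, 11, 5, 11, 6, 8, 4, 2, 3], .l [7], .y [0, 8], .l [9], .l [12, 9, 11, 5, 11, 6, 8, 4, 2, 3], .l [9], .l [11], .R 4178 [6, 5, 4, 3, 2, 1] [1, 1, 1, 1, 1, 1, 1], .l [11], .l [13], .l [9, 14, 4, 5, 8, 10, 2, 3], .l [13]]),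
([s 0 1, p 4 2, s 3 0, g, s 2 0, g, m 1 0, g, s 0 3, g, p 0 4, g], .hi 2, [.l [1], .l [10, 7, 3, 6, 3, 8, 2, 5], .l [6, 4, 1], .r 4179 [1, 2, 5, 3, 4] [1, 1, 1, 1, 1, 1], .l [4, 2, 8, 3, 6, 8, 6, 1], .l [4, 2, 8, 3, 6, 8, 6, 1], .l [10, 7, 1, 6, 3, 8, 2, 5], .l [8, 5, 11, 4, 6, 4, 2, 5], .l [4, 2, 6], .l [8, 5, 11, 4, 6], .y [2, 8], .l [8, 5, 11, 4, 6, 4, 2, 5], .l [4, 2, 8], .l [10, 7, 11, 2, 6], .l [4, 2, 8], .l [8, 5, 9, 2, 4, 8, 6, 3], .l [4, 2, 10], .l [8, 5, 9, 2, 4, 8, 6, 3]]),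
([s 0 1, p 3 0, s 2 0, g, m 1 0, g, s 0 2, g, p 0 3, g], .hi 1, [.r 4177 [1, 4, 2, 3] [1, 1, 1, 1], .r 4180 [1, 4, 2, 3] [1, 1, 1, 1, 1], .l [1, 3], .l [4, 2], .l [6, 4, 9, 4, 5], .l [1, 5], .l [6, 4], .l [6, 4, 3], .l [8, 6, 9, 2, 5], .l [1, 7], .l [8, 6], .y [1, 8], .l [10, 8, 2, 8, 1], .l [1, 9], .l [10, 8]]),
([s 0 1, m 0 2, s 0 3, g, s 3 0, g, m 1 0, g, m 2 0, g], .lo 0, [.l [3], .R 4181 [4, 3, 2] [1, 1, 3, 1], .l [3], .l [3], .l [5], .r 4166 [1, 2, 3, 4] [1, 1, 1, 1, 1], .l [5], .y [0, 6], .l [7], .R 4157 [4, 1, 2] [4, 1, 1, 1], .l [7], .l [7], .l [9], .R 4083 [4, 1, 2] [4, 1, 1, 1], .l [9]]),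
([s 0 1, p 3 2, s 4 0, g, s 2 0, g, m 1 0, g, p 0 3, g, s 0 4, g], .hi 2, [.l [1], .l [12, 9, 3, 8, 5, 1, 6, 3], .l [6, 4, 1], .l [12, 9, 5, 9, 2, 4, 2, 3], .l [12, 9, 1, 8, 5, 1, 6, 3], .l [4, 2, 4], .l [12, 9, 5, 9, 2, 6, 4, 1], .l [8, 5, 9, 2, 4, 8, 6, 3], .l [4, 2, 6], .l [8, 5, 9, 2, 4], .l [4, 2, 6], .l [10, 7, 3, 7, 2, 8, 6, 1], .l [4, 2, 8], .l [10, 7, 3, 7, 2], .y [2, 10], .l [10, 7, 3, 7, 2, 8, 6, 1], .l [4, 2, 10], .l [10, 7, 3, 7, 2, 8, 6, 1]]),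
([s 0 1, m 4 2, s 0 3, g, s 0 4, g, m 1 0, g, m 2 0, g, s 3 0, g], .lo 0, [.l [3], .l [6, 4, 9, 4, 5], .l [3], .l [5], .R 4183 [5, 4, 2, 3] [1, 1, 3, 1, 1], .l [5], .y [0, 6], .l [7], .R 4183 [5, 4, 2, 3] [1, 3, 1, 1, 1], .l [7], .l [7], .l [9], .R 4082 [5, 4, 1, 2] [2, 1, 1, 1, 3], .l [9], .l [9], .l [11], .R 4082 [5, 4, 1, 2] [2, 1, 1, 3, 1], .l [11]]),
([s 0 1, m 0 2, s 0 3, g, m 1 0, g, m 2 0, g, s 3 0, g], .lo 1, [.r 4184 [1, 2, 3, 4] [1, 1, 1, 1, 1], .l [4, 2], .l [1, 3], .l [1, 3], .l [6, 4, 7, 2, 3], .l [6, 4], .l [1, 5], .y [1, 6], .l [8, 6, 2, 6, 1], .l [8, 6], .l [1, 7], .l [8, 6, 5], .l [10, 8, 2, 8, 3], .l [10, 8], .l [1, 9]]),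
([s 0 1, m 0 0, s 0 2, g, p 2 0, g, m 1 0, g], .lo 1, [.y [1], .l [4, 2, 4], .l [4, 2], .l [1, 3], .l [4, 2], .l [6, 4, 1], .l [6, 4], .l [1, 5], .l [1, 5], .l [8, 6, 1], .l [8, 6], .l [1, 7]]),
([s 0 1, m 0 2, s 0 3, g, m 1 0, g, s 3 0, g, m 2 0, g], .lo 0, [.l [3], .R 4181 [4, 3, 2] [1, 3, 1, 1], .l [3], .y [0, 4], .l [5], .R 4181 [4, 3, 2] [3, 1, 1, 1], .l [5], .l [5], .l [7], .R 4157 [4, 1, 2] [2, 3, 1, 1], .l [7], .l [7], .l [9], .R 4083 [4, 1, 2] [2, 3, 1, 1], .l [9]]),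
([s 0 1, m 0 2, s 0 0, g, m 1 0, g, m 2 0, g], .hi 2, [.l [1], .c, .y [2], .r 4182 [1, 2, 3] [1, 1, 1, 1], .r 4186 [1, 3] [1, 1, 3], .r 4158 [1, 2, 3] [1, 1, 1, 1], .r 4187 [1, 2, 3] [1, 1, 1, 1], .r 4159 [1, 3] [1, 1, 3], .l [6, 3, 7, 2, 4], .r 4185 [1, 2, 3] [1, 1, 1, 1], .r 4159 [1, 3] [1, 3, 1], .l [8, 5, 1, 5, 2]]),
([s 6 1, m 5 2, p 4 3, g, p 7 4, g, s 3 0, g, s 0 5, g, p 0 6, g, s 0 7, g, m 1 0, g, m 2 0, g], .hi 6, [.l [7, 16, 8, 11, 15, 12, 3, 9, 10, 5], .l [7, 16, 8, 11, 13, 11, 13, 12, 3], .l [4, 7, 7, 1, 5, 3, 4], .l [7, 16, 8, 13, 15, 10, 3, 1, 10, 10, 8, 3], .l [2, 7, 7, 5, 13, 9, 9, 3, 12, 3, 1, 2, 3], .l [8, 1, 15, 7, 13, 3, 3, 1, 12, 8, 3], .l [7, 16, 8, 13, 15, 10, 3, 1, 10, 10, 8, 3], .l [2, 5, 5, 5,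 13, 9, 9, 3, 12, 3, 1, 2, 3], .l [2, 5, 7, 1, 5, 3, 4], .l [8, 1, 1, 3, 13, 8, 9, 0, 9], .l [9, 16, 6, 11, 15, 10, 3, 1, 10, 10, 8, 1], .l [2, 5, 5, 7, 13, 7, 7, 3, 12, 5, 1, 4, 1], .l [2, 5, 9, 3, 7, 3, 4], .l [2, 5, 5, 7, 11, 5, 5, 3, 10, 5, 1, 4, 1], .l [12, 5, 7, 11, 9, 5, 13, 6, 8, 6, 4, 7], .l [2, 5, 1, 11, 1, 5, 13, 6, 8, 6, 4, 7], .l [2, 5, 11, 5, 9, 3, 6], .y [2, 6, 12, 4], .l [11, 14, 8, 14, 8, 11, 13, 10, 1, 7, 8, 3], .l [6, 13, 9, 11, 13, 3, 7, 3, 12, 5, 3, 4, 7], .l [2, 5, 13, 7, 11, 3, 8], .l [2, 5, 15, 9, 15, 4, 10, 3, 8, 1, 2, 7], .l [2, 5, 15, 0, 9, 15, 4, 10, 3, 8, 1, 2, 7], .l [2, 5, 15, 9, 13, 3, 10], .l [5, 18, 11, 14, 2, 9, 3, 7, 2, 10, 8, 5], .l [6, 3, 15, 10, 11, 14, 1, 12, 7], .l [2, 5, 17, 11,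 12, 2, 14, 12, 7]]),
([s 6 1, m 5 2, p 4 3, g, p 0 4, g, s 3 0, g, s 0 5, g, p 0 6, g, m 1 0, g, m 2 0, g], .lo 4, [.l [3, 14, 10, 1, 1, 9, 11, 10, 1], .l [4, 5], .l [2, 7, 3, 1, 1, 3, 4], .l [5, 14, 8, 11, 11, 9, 11, 10, 1], .l [2, 7, 13, 7, 7, 1, 12, 5, 1, 4, 5, 3, 1], .l [12, 8, 1, 15, 4, 6, 12, 10, 5], .y [2, 6, 4], .l [7, 14, 6, 9, 9, 7, 11, 10, 1], .l [3, 16, 13, 1, 13, 5, 3, 9, 3, 8, 1], .l [12, 8, 3, 15, 4, 6, 10, 8, 5], .l [9, 14, 4, 7, 7, 5, 11, 10, 1], .l [3, 16, 13, 1, 13, 7, 1, 10, 7], .l [12, 8, 5, 15, 4, 6, 8, 6, 9], .r 4189 [1, 2, 3, 4, 5, 6, 7] [1, 1, 1, 1, 1, 1, 1, 1], .l [3, 16, 13, 1, 13, 7, 3, 10, 5], .l [14, 10, 7, 15, 2, 4, 6, 4, 7], .l [12, 8, 7, 13, 2, 4, 4, 2, 5], .l [3, 4, 2, 10, 8, 10, 12,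 10, 1], .l [10, 9, 11, 1, 12, 4, 4, 2, 5], .l [13, 9, 12, 5, 13, 8, 10], .l [13, 9, 12, 5, 11, 6, 8], .l [15, 11, 14, 7, 1, 5, 2], .l [10, 9, 11, 1, 14, 6, 6, 4, 7], .l [15, 11, 14, 7, 1, 5, 2]]),
([s 5 1, m 4 2, p 3 0, g, p 0 3, g, s 0 4, g, p 0 5, g, m 1 0, g, m 2 0, g], .hi 2, [.l [4, 1, 5, 3, 4], .l [2, 3], .l [4, 1], .y [2, 4], .r 4190 [1, 2, 6, 3, 4, 5] [1, 1, 1, 1, 1, 1, 1], .l [2, 5], .l [6, 3], .l [6, 3, 11, 6, 7, 0, 7], .l [8, 5, 13, 6, 9, 2, 9], .l [2, 7], .l [8, 5], .l [2, 7], .l [10, 7, 7, 5, 12, 4, 7], .l [2, 9], .l [10, 7], .l [12, 9, 9, 7, 12, 2, 7], .l [2, 11], .l [12, 9], .l [14, 11, 5, 11, 2], .l [2, 13], .l [14, 11]]),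
([s 4 1, m 3 2, p 0 0, g, s 0 3, g, p 0 4, g, m 1 0, g, m 2 0, g], .lo 2, [.y [2], .l [6, 4, 1], .r 4191 [1, 2, 5, 3, 4] [1, 1, 1, 1, 1, 1], .l [6, 4, 1], .l [4, 2, 4], .l [1, 3, 7, 4, 7, 2, 3], .l [4, 2, 4], .l [4, 2, 6], .l [1, 3, 9, 6, 6, 3, 8, 2, 5], .l [4, 2, 6], .l [4, 2, 6], .l [4, 2, 8], .l [6, 5, 7, 1, 8, 2, 3], .l [4, 2, 8], .l [4, 2, 8], .l [4, 2, 10], .l [6, 5, 7, 1, 10, 4, 5], .l [4, 2, 10]]),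
([s 4 1, m 3 2, g, s 0 3, g, p 0 4, g, m 1 0, g, m 2 0, g], .top 2, [.c, .r 4188 [1, 2] [5, 1, 1], .r 4192 [1, 2, 3, 4] [1, 1, 1, 1, 1], .r 4112 [1, 2, 3, 4] [1, 1, 1, 1, 1]]),
([s 3 1, m 0 2, g, p 0 3, g, m 1 0, g, m 2 0, g], .lo 1, [.r 4193 [1, 2, 4, 3] [1, 1, 1, 1, 1], .l [3, 1], .l [1, 2], .l [5, 3, 8, 4, 5], .l [5, 3], .l [1, 4], .l [1, 4], .l [7, 5, 8, 2, 5], .l [7, 5], .l [1, 6], .y [1, 7], .l [9, 7, 1, 6, 1], .l [9, 7], .l [1, 8]]),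
([s 6 1, m 5 2, m 4 3, g, m 3 0, g, s 0 4, g, s 0 5, g, p 0 6, g, m 2 7, g, s 7 0, g, m 1 0, g], .hi 4, [.l [15, 11, 1, 7, 11, 2, 13, 2, 9, 1, 8, 3], .l [2, 7, 3, 1, 1, 3, 4], .l [4, 5], .l [13, 9, 1, 12, 1, 3, 9, 7, 2, 10, 8, 5], .l [12, 8, 1, 13, 2, 4, 10, 8, 3], .l [2, 7, 17, 11, 11, 5, 10, 8, 10, 2, 3, 9, 7], .y [2, 4, 6], .l [13, 9, 3, 12, 1, 3, 7, 5, 2, 10, 8, 5], .l [12, 8, 3, 13, 2, 4, 8, 6, 3], .l [3, 14, 11, 1, 11, 3, 1, 7, 12, 4, 7], .l [1, 7, 7, 3, 7, 4, 11, 6, 9], .l [13, 9, 5, 12, 1, 3, 5, 3, 6, 10, 4, 1], .l [12, 8, 5, 13, 2, 4, 6, 4, 7], .l [3, 14, 11, 1, 11, 5, 1, 8, 5], .l [10, 6, 5, 11, 2, 4, 4, 2, 5], .l [3, 4, 2, 16, 14, 7, 9, 12, 3], .l [10, 9, 17, 7, 16, 12, 14, 4, 4, 2, 5], .l [1, 7, 11, 7, 15,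 12, 12, 9, 1, 10, 5], .l [3, 10, 6, 11, 3, 10, 14, 8, 1], .l [1, 7, 3, 11, 15, 8, 3], .l [2, 5, 17, 13, 13, 7, 12, 10, 12, 2, 3, 1, 7], .l [3, 10, 6, 13, 5, 12, 14, 8, 3], .l [1, 7, 3, 13, 15, 6, 3], .l [2, 5, 17, 13, 13, 7, 12, 10, 12, 2, 3, 1, 5], .l [11, 18, 10, 16, 12, 1, 5, 11, 2, 8, 6, 3], .l [2, 5, 1, 15, 9, 10, 12], .l [10, 9, 15, 5, 14, 12, 14, 4, 4, 2, 5]]),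
([s 6 1, m 5 2, m 4 3, g, m 3 0, g, s 0 4, g, s 0 5, g, p 0 6, g, m 2 7, g, m 1 0, g, s 7 0, g], .hi 4, [.l [3, 16, 12, 1, 1, 11, 6, 10, 1, 6, 8, 1, 4, 5], .l [2, 7, 3, 1, 1, 3, 4], .l [4, 5], .l [13, 9, 1, 12, 1, 3, 9, 7, 2, 8, 6, 7], .l [12, 8, 1, 13, 2, 4, 10, 8, 3], .l [2, 7, 15, 9, 9, 3, 8, 6, 8, 2, 3, 7, 5], .y [2, 4, 6], .l [13, 9, 3, 12, 1, 3, 7, 5, 2, 8, 6, 7], .l [12, 8, 3, 13, 2, 4, 8, 6, 3], .l [3, 14, 11, 1, 11, 3, 1, 7, 10, 2, 5], .l [1, 7, 7, 3, 7, 4, 9, 4, 7], .l [13, 9, 5, 12, 1, 3, 5, 3, 6, 8, 2, 7], .l [12, 8, 5, 13, 2, 4, 6, 4, 7], .l [3, 14, 11, 1, 11, 5, 1, 8, 5], .l [10, 6, 5, 11, 2, 4, 4, 2, 5], .l [3, 4, 2, 14, 12, 7, 9, 10, 1], .l [10, 9, 15, 5, 14, 10, 12, 4, 4, 2, 5], .l [1, 7, 11, 7, 13, 10,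 10, 7, 1, 8, 3], .l [3, 10, 6, 11, 3, 10, 12, 6, 1], .l [1, 7, 3, 11, 13, 6, 3], .l [2, 5, 15, 11, 11, 5, 10, 8, 10, 2, 3, 1, 5], .l [15, 18, 14, 16, 4, 7, 7, 5, 8, 10, 2, 3], .l [2, 5, 1, 13, 7, 8, 10], .l [10, 9, 13, 3, 12, 10, 12, 4, 4, 2, 5], .l [11, 14, 2, 13, 15, 7, 7, 5, 8, 10, 2, 3], .l [2, 5, 1, 15, 9, 10, 12], .l [10, 9, 13, 3, 12, 10, 14, 6, 6, 4, 7]]),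
([s 6 1, m 5 2, m 4 3, g, m 3 0, g, s 0 4, g, s 0 5, g, p 0 6, g, m 2 0, g, m 1 0, g], .hi 12, [.l [3, 6, 4, 14, 12, 9, 9, 10, 1], .l [12, 11, 15, 3, 14, 12, 12, 2, 4, 2, 5], .l [4, 13], .l [5, 16, 10, 7, 7, 8, 1], .l [2, 7, 1, 11, 9, 3, 4], .l [6, 13], .l [5, 14, 8, 5, 5, 6, 1], .l [7, 16, 8, 5, 5, 6, 1], .l [1, 9, 1, 11, 13, 8, 11, 2, 3], .l [8, 13], .y [1, 12, 8], .l [9, 16, 6, 3, 3, 4, 1], .l [2, 5, 15, 11, 11, 3, 10, 8, 8, 4, 8, 4, 5], .l [10, 13], .l [2, 5, 13, 9, 9, 3, 8, 6, 6, 4, 6, 2, 3], .l [11, 16, 4, 1, 13, 9, 10], .l [2, 5, 15, 11, 11, 5, 12, 2, 3, 9, 1, 5, 3], .l [12, 13], .r 4195 [1, 2, 3, 4, 5, 6, 7] [1, 1, 1, 1, 1, 1, 1, 1], .l [6, 3, 9, 3, 13, 9, 2, 5, 2, 2, 7, 3, 5], .l [2, 5, 15, 11, 11, 5, 10, 8,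 8, 6, 8, 2, 3], .r 4196 [1, 2, 3, 4, 5, 6, 7] [1, 1, 1, 1, 1, 1, 1, 1], .l [1, 7, 1, 3, 7, 2, 9, 6, 1, 7, 3, 3, 5], .l [2, 5, 13, 9, 9, 3, 8, 6, 10, 3, 1, 2, 3]]),
([s 5 1, m 4 2, m 0 3, g, m 3 0, g, s 0 4, g, p 0 5, g, m 2 0, g, m 1 0, g], .lo 2, [.l [4, 1, 5, 3, 4], .l [4, 1], .l [2, 3], .y [2, 4], .r 4197 [1, 2, 3, 6, 4, 5] [1, 1, 1, 1, 1, 1, 1], .l [6, 3], .l [2, 5], .l [8, 5, 11, 4, 7, 2, 7], .l [8, 5], .l [2, 7], .l [10, 7, 7, 5, 10, 2, 5], .l [10, 7], .l [2, 9], .l [2, 9], .l [12, 9, 5, 9, 2], .l [12, 9], .l [2, 11], .l [2, 11], .l [14, 11, 5, 11, 4], .l [14, 11], .l [2, 13]]),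
([s 4 1, m 3 2, m 0 0, g, s 0 3, g, p 0 4, g, m 2 0, g, m 1 0, g], .hi 2, [.y [2], .l [6, 4, 1], .l [6, 4, 1], .r 4198 [1, 2, 5, 3, 4] [1, 1, 1, 1, 1, 1], .l [4, 2, 1], .l [4, 2, 4], .l [4, 2, 4], .l [1, 3, 7, 4, 9, 4, 5], .l [4, 2, 4], .l [4, 2, 6], .l [4, 2, 6], .l [1, 3, 11, 8, 8, 5, 1, 6, 3], .l [4, 2, 8], .l [4, 2, 8], .l [6, 12, 5, 9, 2, 4, 8, 6, 3], .l [4, 2, 10], .l [4, 2, 10], .l [6, 5, 9, 3, 8, 6, 8, 2, 3]]),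
([s 3 1, m 0 2, m 0 0, g, p 0 3, g, m 2 0, g, m 1 0, g], .lo 1, [.c, .r 4199 [1, 2, 4, 3] [1, 1, 1, 1, 1], .l [4, 2], .l [1, 3], .l [6, 4, 7, 2, 3], .l [6, 4], .l [1, 5], .y [1, 6], .l [8, 6, 2, 6, 1], .l [8, 6], .l [1, 7], .l [1, 7], .l [10, 8, 2, 8, 3], .l [10, 8], .l [1, 9]]),
([s 0 1, p 2 0, p 0 0, g, m 1 0, g, p 0 2, g], .lo 0, [.r 4108 [1, 3, 2] [1, 1, 1], .r 4157 [1, 3, 2] [0, 1, 1, 1], .l [3], .r 4157 [1, 3, 2] [2, 1, 1, 1], .l [3], .y [0, 4], .l [5], .R 4194 [3, 2, 1] [2, 1, 1, 1], .l [5], .l [7], .R 4200 [3, 2, 1] [1, 1, 1, 1], .l [7]]),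
([s 0 0, m 0 1, m 0 0, g, m 1 0, g], .lo 0, [.y [0], .l [1], .l [3], .R 4201 [2, 1] [1, 1, 1], .l [3], .l [3], .l [5], .R 4106 [2, 1] [1, 1, 1], .l [5]]),
([s 2 1, p 4 2, s 0 3, g, p 0 4, g, m 1 0, g, s 3 0, g], .lo 2, [.l [2, 9, 5, 7, 0, 3], .l [4, 1, 7, 3, 4, 0, 1], .l [1, 0, 7, 6, 1], .l [6, 3, 9, 5, 0, 5], .l [6, 3, 7, 1, 2, 0, 3], .l [1, 0, 7, 6, 3], .l [1, 0, 5, 4, 3], .l [8, 5, 9, 3, 0, 5], .l [8, 5, 9, 3, 0, 5], .l [1, 0, 5, 4, 5], .y [2, 8], .l [8, 5, 9, 3, 0, 5], .l [8, 5, 9, 3, 0, 5], .l [1, 0, 5, 4, 7]]),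
([s 2 1, p 4 2, s 0 3, g, p 0 4, g, s 3 0, g, m 1 0, g], .lo 2, [.l [2, 7, 3, 5, 0, 1], .l [4, 1, 9, 5, 6, 0, 3], .l [1, 0, 9, 8, 1], .l [6, 3, 7, 3, 0, 3], .l [6, 3, 7, 3, 0, 3], .l [1, 0, 9, 8, 3], .y [2, 6], .l [6, 3, 7, 3, 0, 3], .l [6, 3, 7, 3, 0, 3], .l [1, 0, 9, 8, 5], .l [1, 0, 7, 6, 5], .l [6, 3, 9, 5, 0, 5], .l [6, 3, 9, 5, 0, 5], .l [1, 0, 7, 6, 7]]),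
([s 2 1, p 4 2, s 0 3, g, p 0 4, g, m 1 0, g, m 3 0, g], .lo 2, [.l [3, 8, 4, 5, 0, 1], .l [4, 1, 9, 7, 0], .l [1, 0, 7, 6, 1], .l [6, 3, 9, 5, 0, 5], .l [6, 3, 4, 2, 8, 6, 1], .l [1, 0, 7, 6, 3], .l [1, 0, 5, 4, 3], .l [8, 5, 9, 3, 0, 5], .l [8, 5, 6, 4, 8, 4, 1], .l [1, 0, 5, 4, 5], .y [2, 8], .l [8, 5, 9, 3, 0, 5], .l [8, 5, 6, 4, 8, 4, 1], .l [1, 0, 5, 4, 7]]),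
([s 2 1, p 3 2, s 0 0, g, p 0 3, g, m 1 0, g], .hi 2, [.y [2], .l [3, 8, 4, 5, 0, 1], .l [1, 0, 7, 6, 1], .l [4, 1, 7, 3, 4, 0, 1], .l [1, 0, 5, 4, 1], .r 4204 [1, 2, 4, 3] [1, 1, 1, 1], .l [1, 0, 7, 6, 3], .l [6, 3, 7, 1, 2, 0, 3], .r 4203 [1, 2, 4, 3] [1, 1, 1, 1], .l [1, 0, 5, 4, 5], .r 4205 [1, 2, 4, 3] [1, 1, 1, 1]]),
([s 2 1, p 4 2, s 0 0, g, m 1 0, m 0 3, g, p 0 4, g, m 3 0, g], .hi 9, [.l [1, 0, 3, 2, 6], .l [4, 10, 10, 6, 1], .l [9, 5, 10, 10, 2, 7, 2], .l [4, 10], .y [5, 9], .l [6, 11, 9, 3, 3, 2, 5, 2, 5], .l [6, 11, 9, 3, 3, 2, 5, 2, 5], .l [7, 10], .l [6, 9, 7, 3, 3, 2, 3, 0, 3], .l [8, 11, 7, 3, 3, 2, 7, 4, 1], .l [8, 11, 7, 3, 3, 2, 7, 4, 1], .l [9, 10], .l [8, 9, 5, 3, 3, 2, 5, 2, 5], .l [8, 9, 5, 3, 3,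 2, 5, 2, 5], .l [8, 1, 8, 5, 3, 5, 7, 5, 2]]),
([s 2 1, p 6 2, s 7 3, g, m 3 4, g, s 5 0, g, m 1 5, g, m 4 0, g, p 0 6, g, s 0 7, g], .hi 6, [.l [2, 15, 11, 3, 3, 3, 5, 3, 3, 7, 0, 1], .l [2, 15, 5, 5, 9, 3, 5, 3, 3, 7, 0, 1], .l [4, 7, 7, 7, 13, 7, 11, 3, 0, 3], .l [4, 1, 7, 1, 9, 3, 9, 4, 6, 8, 6, 3], .l [5, 12, 10, 10, 8, 0, 5, 4, 1, 1, 1, 5, 3], .l [7, 12, 8, 8, 6, 0, 3, 2, 1, 7, 5, 5, 1], .l [4, 1, 7, 1, 9, 3, 9, 4, 6, 8, 6, 3], .l [1, 0, 6, 13, 6, 10, 1, 4, 8, 1, 1, 4, 1], .l [1, 0, 8, 13, 4, 8, 1, 4, 8, 1, 1, 4, 1], .l [2, 15, 9, 3, 1, 1, 5, 8, 3, 5, 3, 3, 4, 1], .l [6, 9, 1, 7, 9, 7, 9, 6, 1], .l [10, 3, 11, 5, 11, 8, 5], .l [6, 11, 3, 9, 1, 5, 3, 9, 5, 7, 0, 1], .l [6, 11, 3, 9, 11, 6, 3], .l [12, 5, 13, 2, 10],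 .y [0, 8, 6, 12, 1], .l [6, 13, 5, 11, 1, 7, 1, 2, 6, 8, 4, 1], .l [6, 13, 5, 11, 1, 7, 1, 2, 6], .l [1, 0, 6, 11, 4, 8, 1, 4, 8, 1, 1, 4, 1], .l [4, 1, 5, 11, 5, 9, 3, 5, 1, 2, 4, 4, 2, 1], .l [2, 13, 7, 13, 5, 3, 0, 3], .l [6, 15, 7, 13, 1, 9, 1, 4, 8], .l [1, 0, 6, 11, 4, 8, 1, 4, 10, 3, 3, 6, 1]]),
([s 2 1, p 5 2, s 6 3, s 0 0, g, m 3 0, g, m 1 4, g, s 4 0, g, p 0 5, g, s 0 6, g], .hi 3, [.y [3], .l [1, 0, 3, 12, 8, 9, 10, 3, 8, 3], .l [7, 4, 1], .l [2, 14, 9, 2, 12, 0, 2, 8, 6, 3], .l [15, 12, 3, 12, 2, 10, 8, 9], .l [5, 2, 5], .l [7, 3, 8, 1, 3, 11, 5, 9, 0, 3], .l [15, 12, 5, 12, 2, 8, 6, 9], .l [5, 2, 7], .l [9, 5, 12, 4, 7], .l [15, 12, 7, 12, 2, 6, 4, 9], .l [5, 2, 9], .l [11, 7, 12, 2, 7], .l [5, 2, 9], .l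 [2, 14, 1, 9, 1, 10, 0, 2], .l [5, 2, 11], .l [6, 15, 10, 0, 1, 0, 1, 10, 2, 3], .l [5, 2, 11, 5, 1, 3, 4, 1], .l [5, 2, 13, 1, 9, 0], .l [5, 2, 13], .l [13, 10, 10, 7, 13, 3, 0, 5]]),
([s 2 1, p 5 2, s 6 3, m 0 0, g, m 3 4, g, m 1 0, g, m 4 0, g, p 0 5, g, s 0 6, g], .hi 3, [.y [3], .l [7, 4, 1], .l [2, 14, 11, 1, 3, 11, 0, 1], .l [3, 13, 10, 2, 11, 12, 5, 10, 7, 7, 3, 1, 5], .l [5, 2, 5], .l [1, 0, 8, 7, 12, 11, 3, 7, 5, 7, 3, 1, 5], .l [3, 13, 10, 4, 11, 12, 9, 5, 5, 8, 3, 5, 1], .l [5, 2, 7], .l [2, 14, 11, 5, 7, 3, 3, 9, 0, 1], .l [3, 13, 10, 6, 11, 12, 9, 3, 3, 8, 5, 5, 3], .l [5, 2, 9], .l [5, 2, 9], .l [15, 12, 12, 9, 12, 4, 1, 6, 1, 2, 7, 7, 5], .l [5, 2, 9], .l [5, 2, 11], .l [5, 2, 11], .l [5, 13, 10, 13, 1,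 5, 1, 8, 4, 8, 3, 5, 1], .l [5, 2, 11], .l [5, 2, 13], .l [1, 0, 6, 5, 10, 9, 11, 1, 7, 5, 3, 5, 3], .l [13, 10, 10, 7, 7, 3, 8, 6, 10, 4, 1, 5, 3]]),
([s 2 1, p 4 2, s 5 3, p 0 0, g, m 3 0, g, m 1 0, g, p 0 4, g, s 0 5, g], .hi 3, [.y [3], .l [5, 1, 8, 3, 5, 9, 5, 7, 0, 1], .l [3, 4], .l [5, 1], .l [3, 6, 12, 6, 10, 3, 0, 3], .l [3, 6], .l [7, 3], .l [9, 5, 10, 2, 5], .l [3, 8], .l [9, 5], .l [3, 8], .l [2, 12, 1, 7, 1, 8, 0, 2], .l [3, 10], .l [11, 7], .l [11, 7, 3, 8, 3], .l [13, 9, 3, 10, 5], .l [3, 12], .l [13, 9]]),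
([s 2 1, p 6 2, s 7 3, g, m 3 4, g, m 1 5, g, m 4 0, g, s 5 0, g, p 0 6, g, s 0 7, g], .top 3, [.l [5, 1, 11, 6, 8, 0, 4], .r 4209 [1, 2, 3, 5, 6, 7] [1, 1, 3, 1, 1, 1], .r 4211 [1, 2, 3, 6, 7] [1, 1, 5, 1, 1], .r 4210 [1, 2, 3, 4, 6, 7] [1, 1, 1, 3, 1, 1]]),
([s 2 1, p 5 2, s 6 3, g, m 3 4, g, m 1 0, g, m 4 0, g, p 0 5, g, s 0 6, g], .hi 6, [.l [2, 13, 9, 3, 5, 3, 3, 7, 0, 1], .l [1, 0, 7, 6, 11, 9, 3, 5, 3, 5, 3, 1, 3], .l [4, 7], .r 4208 [1, 2, 3, 4, 7, 5, 6] [1, 1, 1, 1, 1, 1, 1], .l [1, 0, 7, 6, 11, 7, 1, 7, 3, 1, 3, 1, 3], .l [6, 7], .l [2, 13, 7, 1, 5, 8, 3, 5, 3, 3, 4, 1], .l [2, 13, 7, 1, 5, 8, 3, 5, 3, 3, 4, 1], .l [4, 1, 13, 11, 0, 2, 1, 7, 5, 5, 3, 5, 3], .r 4212 [1, 2, 3, 4, 7, 5, 6] [1, 1, 1, 1, 1, 1, 1],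 .l [5, 8, 6, 6, 4, 0, 1, 0, 3], .l [4, 1, 11, 8, 9, 4, 6, 4, 6, 4, 5, 3, 1], .y [0, 6, 10, 1], .l [11, 5, 10, 9, 5, 3, 9, 3, 0, 5], .l [4, 1, 9, 6, 8, 6, 7, 2, 7, 5, 3, 1, 3], .l [1, 0, 3, 1, 8, 5, 6, 2, 6, 1, 1, 2, 3], .l [1, 0, 5, 4, 9, 9, 3, 5, 3, 5, 3, 3, 1], .l [2, 11, 5, 11, 5, 3, 0, 3], .l [2, 11, 5, 11, 5, 3, 0, 3], .l [1, 0, 5, 4, 9, 11, 5, 7, 5, 7, 3, 5, 3]]),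
([s 2 1, p 6 2, s 7 3, g, m 3 4, g, m 1 5, g, m 5 0, g, s 4 0, g, p 0 6, g, s 0 7, g], .hi 8, [.l [4, 9, 3, 9, 11, 6, 1, 8, 6, 6, 2, 5], .l [1, 0, 7, 6, 13, 11, 5, 5, 3, 7, 3, 5, 5], .l [4, 9], .l [2, 15, 5, 7, 1, 9, 1, 9, 0, 1], .l [2, 15, 9, 3, 3, 1, 5, 8, 2, 8, 5, 5, 3], .l [6, 9], .l [2, 15, 7, 1, 9, 5, 3, 5, 1, 7, 0, 3], .l [2, 15, 7, 1, 5, 10, 2, 10, 7, 7, 5, 5, 3], .l [8, 9], .l [7, 3, 10, 6, 12, 3, 10, 0, 6, 1, 4, 1], .l [1, 0, 8, 13, 4, 10, 3, 6, 8, 3, 3, 4, 1], .l [4, 1, 15, 13, 0, 2, 1, 9, 7, 7, 5, 5, 3], .l [2, 15, 11, 5, 1, 5, 1, 9, 0, 1], .l [2, 15, 11, 5, 1, 5, 1, 9, 0, 1], .l [3, 4, 2, 0, 3, 2, 5, 7, 5, 5, 3, 5, 1], .y [0, 6, 8, 12, 1], .l [2, 15, 11, 5, 1, 7, 3, 9, 0, 5], .l [2, 15, 11, 5, 1, 7, 3, 9,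 0, 5], .l [3, 4, 2, 0, 3, 2, 5, 9, 7, 7, 5, 5, 1], .l [1, 0, 5, 4, 11, 11, 5, 5, 3, 7, 3, 5, 1], .l [2, 13, 5, 13, 5, 3, 0, 5], .l [2, 13, 5, 13, 5, 3, 0, 5], .l [1, 0, 5, 4, 11, 13, 7, 7, 5, 9, 3, 7, 1]]),
([s 2 1, p 5 2, s 6 3, g, m 3 4, g, m 1 0, g, s 4 0, g, p 0 5, g, s 0 6, g], .hi 6, [.l [4, 7, 13, 7, 11, 3, 0, 3], .l [2, 13, 9, 3, 5, 3, 3, 7, 0, 1], .l [4, 7], .l [9, 3, 1, 10, 3, 7, 9, 5, 2, 5], .l [9, 3, 1, 10, 3, 7, 9, 5, 2, 5], .l [6, 7], .l [2, 13, 7, 1, 5, 8, 3, 5, 3, 3, 4, 1], .l [2, 13, 7, 1, 5, 8, 3, 5, 3, 3, 4, 1], .r 4214 [1, 2, 3, 4, 7, 5, 6] [1, 1, 1, 1, 1, 1, 1], .l [2, 13, 9, 3, 1, 3, 1, 7, 0, 1], .l [2, 13, 9, 3, 1, 3, 1, 7, 0, 1], .l [3, 6, 2, 5, 7, 3, 9, 3, 7, 3, 0, 3], .y [0, 6, 10, 1], .l [2,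 13, 9, 3, 1, 5, 3, 7, 0, 3], .l [2, 13, 9, 3, 1, 5, 3, 7, 0, 3], .l [3, 6, 2, 5, 9, 5, 6, 0, 1], .l [11, 5, 10, 9, 9, 1, 0, 3], .l [2, 11, 5, 11, 5, 3, 0, 3], .l [2, 11, 5, 11, 5, 3, 0, 3], .l [3, 6, 2, 5, 11, 7, 8, 0, 3]]),
([s 2 1, p 4 2, s 5 3, g, m 3 0, g, m 1 0, g, p 0 4, g, s 0 5, g], .hi 4, [.l [2, 11, 7, 1, 1, 7, 0, 1], .l [2, 11, 7, 1, 1, 7, 0, 1], .l [4, 5], .l [3, 8, 4, 1, 9, 3, 7, 3, 0, 3], .l [3, 4, 2, 0, 5, 4, 1], .l [3, 10, 7, 1, 7, 5, 1, 4, 1], .r 4215 [1, 2, 3, 6, 4, 5] [1, 1, 1, 1, 1, 1], .l [3, 4, 2, 0, 3, 2, 3], .r 4213 [1, 2, 3, 6, 4, 5] [1, 1, 1, 1, 1, 1], .l [3, 4, 2, 0, 3, 2, 3], .l [9, 5, 8, 5, 9, 5, 0, 5], .l [3, 4, 2, 0, 3, 2, 5], .l [4, 1, 5, 1, 7, 3, 7, 3, 0, 3], .y [2, 4, 10], .l [10, 7,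 9, 5, 9, 1, 1, 3, 0, 3], .l [3, 4, 2, 0, 3, 2, 7], .l [10, 7, 9, 5, 9, 1, 1, 3, 0, 3]]),
([s 2 1, p 3 2, s 4 0, g, m 1 0, g, p 0 3, g, s 0 4, g], .hi 2, [.l [2, 9, 5, 7, 0, 1], .l [1, 0, 5, 4, 1], .r 4216 [1, 2, 5, 3, 4] [1, 1, 1, 1, 1], .l [2, 9, 3, 7, 0, 3], .l [1, 0, 3, 2, 3], .l [6, 3, 7, 2, 4], .l [1, 0, 3, 2, 3], .l [8, 5, 9, 3, 0, 3], .l [1, 0, 3, 2, 5], .l [8, 5, 1, 5, 2], .y [2, 8], .l [8, 5, 9, 3, 0, 3], .l [1, 0, 3, 2, 7], .l [8, 5, 9, 3, 0, 3]]),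
([s 2 1, p 4 2, s 0 0, g, m 1 0, m 0 3, g, m 3 0, g, p 0 4, g], .hi 7, [.l [1, 0, 3, 2, 4], .l [4, 8, 8, 6, 1], .l [11, 7, 4, 4, 2, 7, 2], .l [4, 8], .y [5, 7], .l [6, 9, 7, 3, 3, 2, 7, 4, 1], .l [6, 9, 7, 3, 3, 2, 7, 4, 1], .l [7, 8], .l [6, 7, 5, 3, 3, 2, 7, 4, 1], .l [6, 7, 5, 3, 3, 2, 7, 4, 1], .l [6, 11, 5, 1, 8, 6, 1, 5, 2], .l [6, 7, 5, 3, 3, 2, 5, 2, 1], .l [6, 7, 5, 3, 3, 2, 5, 2, 5], .l [6, 7, 5, 3, 3, 2, 5, 2, 5], .l [6, 2, 8, 3, 6, 4, 7, 2, 4]]),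
([s 2 1, p 3 2, s 0 0, g, m 1 0, m 0 0, g, p 0 3, g], .hi 5, [.l [1, 0, 3, 2, 2], .l [1, 0, 5, 4, 7, 2, 3], .l [9, 5, 2, 7, 2], .l [4, 6], .y [5], .l [1, 0, 3, 2, 7, 4, 1], .l [1, 0, 3, 2, 7, 4, 1], .r 4218 [1, 2, 4, 3] [1, 1, 1, 1], .l [1, 0, 3, 2, 5, 2, 1], .l [1, 0, 3, 2, 5, 2, 5], .l [1, 0, 3, 2, 5, 2, 5], .r 4207 [1, 2, 4, 3] [1, 1, 1, 1]]),
([s 2 1, p 4 2, s 0 3, g, m 3 0, g, m 1 0, p 5 4, g, p 6 5, g, p 7 6, g, p 0 7, g], .lo 2, [.l [13, 15, 14, 14, 12, 12, 10, 7, 7, 6, 1, 7, 1], .l [4, 1, 5, 3, 0], .l [1, 0, 7, 6, 1], .y [2, 4], .l [9, 11, 10, 7, 7, 6, 3, 7, 1, 5, 1, 5, 1], .l [4, 1, 5, 3, 0], .l [1, 0, 7, 6, 3], .l [1, 0, 5, 4, 3], .l [2, 8, 10, 8, 3, 1, 3, 0], .l [4, 1, 8, 6, 0], .l [1, 0, 5, 4, 6], .l [2, 10,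 12, 10, 10, 8, 3, 1, 3, 0], .l [4, 1, 10, 8, 0], .l [1, 0, 5, 4, 8], .l [2, 12, 14, 12, 12, 10, 10, 8, 3, 1, 3, 0], .l [4, 1, 12, 10, 0], .l [1, 0, 5, 4, 10], .l [2, 14, 10, 0, 12, 0, 7, 7, 5, 5, 3, 3, 1], .l [4, 1, 14, 12, 0], .l [1, 0, 5, 4, 12]]),
([s 2 1, p 3 2, s 0 0, g, m 1 0, p 4 3, g, p 5 4, g, p 6 5, g, p 0 6, g], .hi 2, [.y [2], .l [11, 13, 12, 12, 10, 10, 8, 5, 5, 4, 1, 5, 1], .l [1, 0, 5, 4, 1], .r 4220 [1, 2, 7, 3, 4, 5, 6] [1, 1, 1, 1, 1, 1], .l [7, 4, 8, 9, 8, 8, 2, 5, 2, 6, 3, 3, 1], .l [1, 0, 3, 2, 4], .l [7, 4, 5, 2, 7, 4, 1], .l [8, 11, 9, 9, 7, 3, 3, 2, 5, 2, 3, 5, 3], .l [1, 0, 3, 2, 6], .l [5, 9, 5, 0, 6, 5, 6, 0, 3], .l [10, 13, 11, 11, 9, 9, 7, 3, 3, 2, 5, 2, 3], .l [1, 0, 3, 2, 8], .l [5, 11,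 7, 0, 8, 7, 8, 0, 5], .l [1, 0, 3, 2, 8], .l [5, 13, 9, 0, 10, 9, 10, 0, 7, 7, 5, 5, 3], .l [1, 0, 3, 2, 10], .l [5, 13, 9, 0, 10, 9, 10, 0, 7]]),
([s 2 1, p 3 2, s 0 0, g, m 1 0, p 4 3, g, p 5 4, g, p 0 5, g], .lo 9, [.l [1, 0, 3, 2, 6], .l [4, 10, 10, 8, 8, 6, 1], .l [4, 10], .l [7, 3, 10, 10, 8, 8, 2, 5, 2], .y [0, 4, 9, 7, 5, 1], .l [6, 9, 7, 3, 3, 2, 5, 2, 5], .l [7, 10], .l [6, 9, 7, 3, 3, 2, 5, 2, 5], .l [8, 11, 9, 9, 7, 3, 3, 2, 5, 2, 1], .l [9, 10], .l [8, 11, 9, 9, 7, 3, 3, 2, 5, 2, 1], .l [8, 9, 7, 7, 5, 3, 3, 2, 3, 0, 3], .r 4221 [1, 2, 3, 4, 5, 6] [1, 1, 1, 1, 1], .l [8, 9, 7, 7, 5, 3, 3, 2, 3, 0, 3]]),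
([s 2 1, p 3 2, s 0 0, g, m 1 0, p 4 3, g, p 0 4, g], .lo 7, [.l [1, 0, 3, 2, 4], .l [4, 8, 8, 6, 1], .l [4, 8], .l [7, 3, 8, 8, 2, 5, 2], .y [0, 4, 7, 5, 1], .l [6, 9, 7, 3, 3, 2, 5, 2, 1], .l [7, 8], .l [6, 9, 7, 3, 3, 2, 5, 2, 1], .l [6, 7, 5, 3, 3, 2, 3, 0, 3], .r 4222 [1, 2, 3, 4, 5] [1, 1, 1, 1], .l [6, 7, 5, 3, 3, 2, 3, 0, 3]])]

def d16_2 : List (List Item × Qry × List Rf) := [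
([s 2 1, p 3 2, s 0 0, g, m 1 0, p 0 3, g], .lo 5, [.l [1, 0, 3, 2, 2], .l [1, 0, 5, 4, 5, 0, 1], .l [4, 6], .l [7, 3, 2, 5, 2], .y [0, 4, 5, 1], .l [1, 0, 3, 2, 3, 0, 3], .r 4223 [1, 2, 3, 4] [1, 1, 1], .l [1, 0, 3, 2, 3, 0, 3]]),
([s 2 1, p 4 2, s 0 3, g, m 1 0, s 3 0, g, p 0 4, g], .lo 2, [.l [2, 6, 3, 1, 3, 0], .l [2, 6, 3, 1, 3, 0], .l [1, 0, 5, 4, 1], .l [1, 0, 3, 2, 1], .y [2, 5], .l [5, 2, 8, 4, 5, 3, 2, 3], .l [7, 4, 8, 2, 5], .l [1, 0, 3, 2, 4], .l [2, 8, 3, 7, 0, 3], .l [5, 2, 6, 2, 3, 5, 4, 1], .l [1, 0, 3, 2, 6]]),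
([s 2 1, p 5 2, s 3 0, g, s 0 3, g, m 1 0, s 0 4, g, p 0 5, g, m 4 0, g], .lo 7, [.l [7, 4, 8, 2, 8, 4, 6, 6, 4, 1], .l [1, 0, 7, 6, 3, 8, 2, 5], .l [1, 0, 7, 6, 9, 2, 5], .l [1, 0, 7, 6, 3, 8, 2, 5], .l [1, 0, 7, 6, 1, 8, 2, 3], .l [1, 0, 7, 6, 1, 8, 2, 3], .l [13, 3, 6, 2, 9], .l [11, 3, 4, 0, 7], .l [1, 0, 5, 4, 1, 8, 4, 1], .l [9, 1, 12, 10, 5], .l [1, 0, 5, 4, 1, 8, 4, 1], .l [1, 0, 5, 4, 1, 6, 2, 5], .l [11, 3, 9, 7, 11, 9, 6], .l [1, 0, 5, 4, 1, 6, 2, 5], .y [7, 11], .l [1, 0, 5, 4, 1, 6, 2, 7], .l [11, 3, 9, 7, 11, 9, 6], .l [1, 0, 5, 4, 1, 6, 2, 7]]),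
([s 2 1, p 5 2, s 3 0, g, s 0 3, g, m 1 0, s 0 4, g, m 4 0, g, p 0 5, g], .lo 7, [.l [7, 4, 10, 4, 5, 2], .l [1, 0, 7, 6, 3, 10, 4, 7], .l [1, 0, 7, 6, 11, 4, 7], .l [1, 0, 7, 6, 3, 10, 4, 7], .l [1, 0, 7, 6, 1, 10, 4, 5], .l [1, 0, 7, 6, 1, 10, 4, 5], .l [11, 1, 4, 2, 7], .l [9, 1, 2, 0, 5], .l [1, 0, 5, 4, 1, 10, 6, 1], .l [9, 1, 10, 8, 5], .l [1, 0, 5, 4, 1, 10, 6, 1], .y [7, 9], .l [1, 0, 5, 4, 1, 10, 6, 3], .l [9, 1, 10, 8, 5], .l [1, 0, 5, 4, 1, 10, 6, 3], .l [1, 0, 5, 4, 1, 8, 4, 7], .l [9, 1, 12, 10, 5], .l [1, 0, 5, 4, 1, 8, 4, 7]]),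
([s 2 1, p 4 2, s 3 0, g, s 0 3, g, m 1 0, s 0 0, g, p 0 4, g], .hi 7, [.l [1, 0, 7, 6, 3, 8, 2, 5], .l [1, 0, 7, 6, 3, 8, 2, 5], .l [1, 0, 7, 6, 9, 2, 5], .l [1, 0, 5, 4, 1, 6, 2, 3], .l [1, 0, 7, 6, 1, 8, 2, 3], .l [11, 5, 2, 9, 4], .l [1, 0, 7, 6, 1, 8, 2, 3], .y [7], .l [1, 0, 5, 4, 1, 8, 4, 1], .l [1, 0, 5, 4, 1, 8, 4, 1], .r 4227 [1, 2, 3, 5, 4] [1, 1, 1, 1, 1], .l [1, 0, 5, 4, 1, 6, 2, 1], .l [1, 0, 5, 4, 1, 6, 2, 5], .l [1, 0, 5, 4, 1, 6, 2, 5], .r 4226 [1, 2, 3, 5, 4] [1, 1, 1, 1, 1]]),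
([s 2 1, p 4 2, s 0 3, g, m 3 0, g, m 1 0, s 0 0, g, p 0 4, g], .lo 2, [.r 4228 [1, 2, 5, 4] [1, 3, 1, 1], .l [4, 1, 5, 3, 0], .l [1, 0, 7, 6, 1], .y [2, 4], .r 4228 [1, 2, 5, 4] [3, 1, 1, 1], .l [4, 1, 5, 3, 0], .l [1, 0, 7, 6, 3], .l [1, 0, 5, 4, 3], .l [2, 6, 3, 1, 3, 0], .r 4168 [1, 2, 3, 5, 4] [1, 1, 1, 1, 1], .l [4, 1, 8, 6, 0], .l [1, 0, 5, 4, 6], .r 4216 [1, 2, 3, 4, 5] [1, 1, 2, 1, 1], .l [4, 1, 10, 8, 0], .l [1, 0, 5, 4, 8]]),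
([s 2 1, p 5 2, s 0 3, g, s 3 0, g, m 1 0, s 0 4, g, m 4 0, g, p 0 5, g], .lo 7, [.l [1, 0, 7, 6, 3, 10, 4, 7], .l [1, 0, 7, 6, 11, 4, 7], .l [1, 0, 7, 6, 3, 10, 4, 7], .l [1, 0, 5, 4, 1, 8, 4, 5], .l [1, 0, 7, 6, 1, 10, 4, 5], .l [1, 0, 7, 6, 1, 10, 4, 5], .l [11, 1, 4, 2, 7], .l [9, 1, 2, 0, 5], .l [1, 0, 5, 4, 1, 10, 6, 1], .l [9, 1, 10, 8, 5], .l [1, 0, 5, 4, 1, 10, 6, 1], .y [7, 9], .l [1, 0, 5, 4, 1, 10, 6, 3], .l [9, 1, 10, 8, 5], .l [1, 0, 5, 4, 1, 10, 6, 3], .l [1, 0, 5, 4, 1, 8, 4, 7], .l [9, 1, 12, 10, 5], .l [1, 0, 5, 4, 1, 8, 4, 7]]),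
([s 2 1, p 5 2, s 0 3, g, s 3 0, g, m 1 0, s 0 4, g, p 0 5, g, m 4 0, g], .lo 7, [.l [1, 0, 7, 6, 3, 8, 2, 5], .l [1, 0, 7, 6, 9, 2, 5], .l [1, 0, 7, 6, 3, 8, 2, 5], .l [1, 0, 5, 4, 1, 6, 2, 3], .l [1, 0, 7, 6, 1, 8, 2, 3], .l [1, 0, 7, 6, 1, 8, 2, 3], .l [13, 3, 6, 2, 9], .l [11, 3, 4, 0, 7], .l [1, 0, 5, 4, 1, 8, 4, 1], .l [9, 1, 12, 10, 5], .l [1, 0, 5, 4, 1, 8, 4, 1], .l [1, 0, 5, 4, 1, 6, 2, 5], .l [11, 3, 9, 7, 11, 9, 6], .l [1, 0, 5, 4, 1, 6, 2, 5], .y [7, 11], .l [1, 0, 5, 4, 1, 6, 2, 7], .l [11, 3, 9, 7, 11, 9, 6], .l [1, 0, 5, 4, 1, 6, 2, 7]]),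
([s 2 1, p 4 2, s 0 3, g, s 3 0, g, m 1 0, s 0 0, g, p 0 4, g], .hi 7, [.l [2, 6, 3, 1, 3, 0], .l [1, 0, 7, 6, 3, 8, 2, 5], .l [1, 0, 7, 6, 3, 8, 2, 5], .l [1, 0, 7, 6, 9, 2, 5], .l [1, 0, 7, 6, 1, 8, 2, 3], .l [11, 5, 2, 9, 4], .l [1, 0, 7, 6, 1, 8, 2, 3], .y [7], .l [1, 0, 5, 4, 1, 8, 4, 1], .l [1, 0, 5, 4, 1, 8, 4, 1], .r 4230 [1, 2, 3, 5, 4] [1, 1, 1, 1, 1], .l [1, 0, 5, 4, 1, 6, 2, 1], .l [1, 0, 5, 4, 1, 6, 2, 5], .l [1, 0, 5, 4, 1, 6, 2, 5], .r 4231 [1, 2, 3, 5, 4] [1, 1, 1, 1, 1]]),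
([s 2 1, p 5 2, g, s 0 3, g, m 1 0, s 0 4, g, m 4 0, g, s 3 0, g, p 0 5, g], .lo 6, [.l [8, 4, 13, 6, 8, 5], .l [1, 0, 6, 5, 12, 6, 9], .l [10, 1, 6, 4, 6], .l [8, 2, 13, 6, 10, 7], .l [1, 0, 6, 5, 12, 6, 7], .l [10, 1, 4, 2, 6], .l [8, 1, 2, 0, 4], .l [12, 8, 13, 2, 10, 1], .l [8, 1, 9, 7, 4], .l [1, 0, 4, 3, 12, 8, 1], .y [6, 8], .l [12, 8, 13, 2, 10, 3], .l [8, 1, 9, 7, 4], .l [1, 0, 4, 3, 12, 8, 3], .l [10, 6, 11, 2, 8, 3], .l [10, 6, 13, 4, 10, 7], .l [8, 1, 11, 9, 4], .l [1, 0, 4, 3, 12, 8, 5], .l [10, 6, 11, 2, 8, 9], .l [8, 1, 13, 11, 4], .l [1, 0, 4, 3, 10, 6, 9]]),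
([s 2 1, p 5 2, s 4 3, g, p 0 4, g, m 1 0, s 0 0, g, s 3 0, g, p 0 5, g], .hi 7, [.l [11, 8, 8, 4, 11, 2, 8, 3], .l [2, 10, 6, 4, 5, 3, 5, 0], .l [1, 0, 7, 6, 11, 4, 7], .l [2, 8, 4, 2, 3, 1, 3, 0], .l [11, 8, 8, 6, 11, 2, 6, 7], .l [2, 10, 4, 2, 5, 1, 5, 0], .l [1, 0, 7, 6, 11, 4, 5], .y [7], .l [11, 8, 8, 6, 11, 2, 8, 1], .l [1, 0, 5, 4, 11, 6, 1], .r 4233 [1, 2, 3, 6, 5] [0, 3, 1, 1, 1, 1], .l [9, 6, 6, 4, 11, 4, 8, 5], .l [1, 0, 5, 4, 11, 6, 3], .l [9, 6, 6, 4, 11, 4, 8, 5], .l [1, 0, 5, 4, 9, 4, 3], .l [9, 6, 6, 4, 9, 2, 6, 7], .l [1, 0, 5, 4, 9, 4, 9], .l [2, 8, 12, 10, 3, 1, 3, 0]]),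
([s 2 1, p 4 2, s 0 3, g, m 1 0, s 0 0, g, s 3 0, g, p 0 4, g], .lo 2, [.l [9, 6, 10, 2, 5, 7, 4, 1], .r 4234 [1, 2, 3, 5, 4] [1, 1, 1, 1, 1], .l [1, 0, 5, 4, 1], .l [1, 0, 3, 2, 1], .l [5, 2, 8, 4, 5, 3, 2, 3], .l [7, 4, 10, 4, 7, 5, 2, 5], .l [7, 4, 10, 4, 7], .l [1, 0, 3, 2, 4], .y [2, 7], .l [7, 4, 10, 4, 7, 5, 2, 5], .l [9, 6, 10, 2, 7], .l [1, 0, 3, 2, 6], .l [2, 10, 3, 8, 0, 4], .l [7, 4, 8, 2, 5, 7, 4, 1], .l [1, 0, 3, 2, 8]]),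
([s 2 1, p 6 2, s 4 3, g, p 0 4, g, m 1 0, s 0 5, g, m 5 0, g, p 0 6, g, s 3 0, g], .lo 4, [.l [2, 14, 10, 1, 1, 10, 0, 1], .l [4, 5], .l [2, 14, 10, 1, 1, 10, 0, 1], .l [2, 14, 10, 1, 6, 1, 4, 8, 0, 1], .l [3, 13, 10, 1, 10, 8, 1, 7, 4], .l [9, 5, 1, 12, 4, 7, 4], .l [7, 3, 1, 10, 4, 7, 4], .l [2, 14, 10, 4, 6, 4, 7, 5, 7, 0], .l [4, 1, 12, 9, 10, 4, 9, 5, 8, 1, 4, 1], .l [2, 14, 10, 4, 6, 4, 7, 5, 7, 0], .l [2, 12, 8, 4, 4, 2, 5, 3, 5, 0], .l [9, 1, 4, 8, 3, 10, 3, 8, 0, 4], .l [9, 1, 10, 5, 7, 3, 5, 9, 5, 7, 0, 1], .l [3, 4, 2, 0, 3, 2, 6], .l [12, 8, 11, 8, 12, 5, 0, 5], .l [9, 1, 12, 7, 9, 5, 6, 0, 3], .l [3, 4, 2, 0, 3, 2, 8], .y [2, 13, 4], .l [13, 10, 6, 1, 12, 7, 7, 3, 0, 3], .l [9, 1, 14, 9, 11, 7, 8, 0, 5],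 .l [3, 4, 2, 0, 3, 2, 10]]),
([s 2 1, p 5 2, s 4 3, g, p 0 4, g, m 1 0, s 0 0, g, p 0 5, g, s 3 0, g], .hi 7, [.l [2, 12, 8, 4, 7, 5, 7, 0], .l [2, 12, 8, 4, 7, 5, 7, 0], .l [1, 0, 7, 6, 9, 2, 5], .l [2, 10, 6, 2, 5, 3, 5, 0], .l [2, 12, 6, 2, 7, 1, 7, 0], .l [2, 12, 6, 2, 7, 1, 7, 0], .l [1, 0, 7, 6, 9, 2, 3], .y [7], .l [1, 0, 7, 10, 2, 7, 4, 7], .l [1, 0, 5, 4, 9, 4, 1], .r 4236 [1, 2, 3, 4, 6, 5] [1, 1, 1, 1, 1, 1], .l [1, 0, 5, 4, 7, 2, 1], .l [4, 1, 12, 10, 0, 2, 1, 4, 2, 3], .l [1, 0, 5, 4, 7, 2, 7], .l [6, 3, 9, 3, 4, 9, 3, 7, 2, 3], .l [2, 10, 3, 11, 5, 3, 0, 5], .l [1, 0, 5, 4, 7, 2, 9], .l [2, 10, 12, 8, 3, 1, 3, 0]]),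
([s 2 1, p 4 2, s 0 3, g, m 1 0, s 0 0, g, p 0 4, g, s 3 0, g], .lo 2, [.l [2, 10, 6, 8, 0, 1], .r 4237 [1, 2, 3, 5, 4] [1, 1, 1, 1, 1], .l [1, 0, 5, 4, 1], .l [1, 0, 3, 2, 1], .l [2, 8, 3, 7, 0, 3], .l [2, 10, 3, 8, 0, 4], .l [7, 4, 8, 2, 5], .l [1, 0, 3, 2, 4], .l [9, 6, 10, 3, 0, 3], .l [9, 6, 1, 7, 2], .l [1, 0, 3, 2, 6], .y [2, 9], .l [9, 6, 10, 3, 0, 3], .l [9, 6, 10, 3, 0, 3], .l [1, 0, 3, 2, 8]]),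
([s 2 1, p 3 2, s 0 0, g, m 1 0, s 0 0, g, p 0 3, g], .hi 2, [.y [2], .r 4232 [1, 2, 4, 3] [1, 1, 1, 1], .l [1, 0, 5, 4, 1], .r 4229 [1, 2, 4, 3] [1, 1, 1, 1], .r 4225 [1, 2, 4, 3] [1, 1, 1], .r 4235 [1, 2, 4, 3] [1, 1, 1, 1], .l [1, 0, 3, 2, 4], .l [7, 4, 8, 2, 5], .l [1, 0, 3, 2, 4], .r 4238 [1, 2, 4, 3] [1, 1, 1, 1], .l [1, 0, 3, 2, 6], .l [9, 6, 1, 7, 2]]),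
([s 2 1, p 3 2, s 0 0, g, m 1 0, g, p 0 3, g], .top 5, [.r 4224 [1, 2, 3] [1, 1], .r 4239 [1, 2, 3] [1, 1, 1], .r 4173 [1, 2, 3] [1, 1, 1], .r 4219 [1, 2, 3] [1, 1, 1]]),
([s 0 1, m 1 2, s 0 0, g, m 2 0, g], .lo 0, [.l [1], .l [3], .R 4240 [3, 1, 2] [1, 1, 1], .l [3], .y [0, 1, 4], .l [5], .R 4206 [3, 1, 2] [1, 1, 1], .l [5]]),
([s 3 1, m 5 2, s 4 0, g, m 2 0, g, p 0 3, g, s 0 4, g, s 0 5, g, m 1 0, g], .hi 2, [.l [2, 9, 5, 7, 8, 3, 6, 1], .l [2, 9, 5, 7, 8, 3, 6, 1], .l [4, 1, 7, 3, 11, 7, 8], .l [12, 10, 3, 5, 8, 3], .l [12, 10, 3], .l [6, 3, 7, 1, 11, 9, 2], .l [10, 8, 3], .l [8, 5, 9, 3, 8, 1, 6, 3], .l [12, 10, 5], .l [8, 5, 9, 3, 8, 1, 6, 3], .y [2, 8], .l [8, 5, 9, 3, 8, 1, 6, 3], .l [12, 10, 7], .l [8, 5, 9, 3,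 8, 1, 6, 3], .l [10, 8, 7], .l [10, 8, 10, 4, 8, 1, 4, 1], .l [10, 8, 10], .l [8, 5, 7, 3, 9, 7, 4, 8, 4, 5], .l [10, 8, 12, 6, 10, 1, 6, 3], .l [10, 8, 12], .l [8, 5, 7, 3, 11, 9, 4, 6, 2, 3]]),
([s 3 1, m 5 2, s 4 0, g, m 2 0, g, p 0 3, g, p 0 4, g, s 0 5, g, m 1 0, g], .hi 2, [.l [3, 8, 4, 5, 8, 10, 2, 3], .l [10, 7, 8, 4, 6, 2, 7], .l [4, 1, 9, 7, 8], .l [6, 3, 7, 1, 11, 9, 2, 4, 2, 3], .l [12, 10, 3], .l [6, 3, 4, 2, 8, 6, 7], .l [10, 8, 3], .l [8, 5, 9, 3, 8, 1, 6, 3], .l [12, 10, 5], .l [8, 5, 6, 4, 8, 4, 7], .y [2, 8], .l [8, 5, 9, 3, 8, 1, 6, 3], .l [12, 10, 7], .l [8, 5, 6, 4, 8, 4, 7], .l [10, 8, 7], .l [10, 8, 10, 12, 10, 5], .l [10, 8, 10], .l [8, 5, 6, 4, 10, 6, 3], .l [13, 3, 10, 11, 6, 1, 8, 6, 2, 3],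 .l [10, 8, 12], .l [8, 5, 6, 4, 12, 8, 3]]),
([s 3 1, m 4 2, s 5 0, g, m 2 0, g, p 0 3, g, s 0 4, g, p 0 5, g, m 1 0, g], .hi 2, [.l [3, 8, 4, 5, 6, 10, 4, 5], .l [10, 8, 1], .l [4, 1, 11, 9, 6], .l [6, 3, 7, 1, 11, 9, 2, 6, 4, 1], .l [10, 8, 3], .l [6, 3, 4, 2, 10, 8, 5], .l [8, 6, 3], .l [8, 5, 7, 3, 9, 7, 4, 8, 4, 5], .l [10, 8, 5], .l [8, 5, 6, 4, 10, 6, 3], .l [8, 6, 5], .l [8, 6, 8, 12, 10, 3], .l [8, 6, 8], .l [10, 7, 8, 6, 10, 4, 5], .y [2, 10], .l [8, 6, 10, 12, 8, 3], .l [8, 6, 10], .l [10, 7, 8, 6, 10, 4, 5], .l [10, 7, 9, 5, 1, 2, 8, 3, 4, 1], .l [8, 6, 12], .l [10, 7, 8, 6, 12, 6, 7]]),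
([s 3 1, m 4 2, s 5 0, g, m 2 0, g, p 0 3, g, s 0 4, g, m 1 0, g, s 0 5, g], .hi 2, [.l [3, 8, 4, 5, 6, 8, 2, 3], .l [10, 8, 1], .l [4, 1, 7, 3, 9, 5, 6], .l [10, 8, 12, 8, 10, 1, 4, 5], .l [10, 8, 12, 8, 10, 1, 4, 5], .l [6, 3, 7, 1, 9, 7, 2], .l [8, 6, 10, 6, 8, 1, 4, 5], .l [10, 8, 12, 6, 10, 1, 6, 3], .l [10, 8, 12, 6, 10, 1, 6, 3], .l [13, 3, 10, 11, 6, 1, 8, 6, 2, 3], .l [8, 6, 10, 4, 8, 1, 6, 3], .l [8, 6, 8, 10, 8, 3], .l [8, 6, 8], .l [10, 7, 9, 5, 1, 2, 8, 3, 4, 1], .l [11, 3, 8, 11, 5, 2, 6, 1, 2, 5], .l [8, 6, 10], .l [12, 9, 11, 7, 3, 5, 6], .y [2, 12], .l [11, 3, 8, 11, 5, 2, 6, 1, 2, 5], .l [8, 6, 12], .l [12, 9, 11, 7, 3, 5, 6, 8, 2, 3]]),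
([s 3 1, m 4 2, s 0 0, g, m 2 0, g, p 0 3, g, s 0 4, g, m 1 0, g], .lo 2, [.y [2], .l [3, 8, 4, 5, 6, 8, 2, 3], .l [4, 1, 7, 3, 9, 5, 6], .l [10, 8, 1], .l [8, 6, 1], .l [10, 8, 3, 5, 6, 1], .l [6, 3, 7, 1, 9, 7, 2], .l [10, 8, 3], .r 4242 [1, 2, 3, 5, 4] [1, 1, 1, 1, 1, 1], .r 4243 [1, 2, 3, 5, 4] [1, 1, 1, 1, 1, 1], .l [10, 8, 5], .l [8, 6, 8, 10, 8, 3], .r 4244 [1, 2, 3, 4, 5] [1, 1, 1, 1, 1, 1], .l [8, 6, 8], .l [8, 6, 8], .r 4245 [1, 2, 3, 4, 5] [1, 1, 1, 1, 1, 1], .l [12, 9, 11, 7, 3, 5, 6], .l [8, 6, 10]]),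
([s 3 1, m 0 2, s 0 0, g, m 2 0, g, p 0 3, g, m 1 0, g], .lo 1, [.c, .l [4, 2, 7, 3, 8, 4, 5], .l [4, 2], .l [1, 3], .y [1, 4], .l [6, 4, 7, 1, 8, 6, 1], .l [6, 4], .l [1, 5], .r 4246 [1, 2, 3, 4] [1, 1, 1, 1, 1], .l [8, 6], .l [1, 7], .l [1, 7], .l [10, 8, 9, 4, 1, 2, 3], .l [10, 8], .l [1, 9]]),
([s 3 1, m 0 2, g, p 0 3, g, m 0 4, g, m 4 5, g, m 5 6, g, m 6 7, g, m 2 0, g, m 7 8, g, m 8 0, g, m 1 0, g], .lo 5, [.l [7, 3, 14, 8, 11], .l [7, 3], .l [5, 4, 20, 15, 17, 15, 15, 13, 13, 11, 11, 9, 11, 9, 7, 5, 5, 3], .l [7, 1, 20, 13, 16, 2, 7], .l [7, 1], .l [11, 13, 12, 12, 10, 10, 8, 8, 6, 14, 9, 12, 2, 7, 9, 7, 7, 5], .l [7, 1, 8, 6, 18, 13, 16, 2, 7], .l [7, 1], .l [5, 6], .l [9, 3, 3, 1, 8, 6, 16, 11, 14, 2, 7], .l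 [9, 3], .l [5, 8], .l [11, 5, 5, 3, 3, 1, 8, 6, 14, 9, 12, 2, 7], .l [11, 5], .l [5, 10], .l [13, 7, 7, 5, 5, 3, 3, 1, 10, 8, 12, 7, 10, 2, 7], .l [13, 7], .l [5, 12], .l [5, 12], .l [15, 9, 9, 7, 7, 5, 5, 3, 14, 5, 8, 2, 9], .l [15, 9], .l [5, 14], .l [17, 11, 11, 9, 9, 7, 7, 5, 14, 3, 6, 2, 9], .l [17, 11], .l [5, 16], .y [5, 7, 9, 11, 15, 17], .l [19, 13, 13, 11, 11, 9, 9, 7, 14, 1, 4, 2, 9], .l [19, 13], .l [5, 18], .l [5, 18], .l [21, 15, 15, 13, 13, 11, 11, 9, 14, 6, 1, 8, 6, 2, 7], .l [21, 15], .l [5, 20]]),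
([s 3 1, m 0 2, g, p 0 3, g, m 0 4, g, m 4 5, g, m 5 6, g, m 2 0, m 6 7, g, m 7 0, g, m 1 0, g], .lo 5, [.l [7, 3, 12, 6, 9], .l [7, 3], .l [11, 14, 13, 13, 11, 11, 9, 9, 5, 7, 4, 9, 4, 6, 3], .l [7, 1, 17, 10, 13, 2, 6], .l [7, 1], .r 4248 [1, 2, 3, 8, 4, 5, 6, 7] [1, 1, 1, 1, 1, 1, 0, 1, 1, 1], .l [7, 1, 8, 6, 15, 10, 13, 2, 6], .l [7, 1], .l [5, 6], .l [9, 3, 3, 1, 8, 6, 13, 8, 11, 2, 6], .l [9, 3], .l [5, 8], .l [11, 5, 5, 3, 3, 1, 9, 7, 11, 6, 9, 2, 6], .l [11, 5], .l [5, 10], .l [5, 10], .l [5, 13, 15, 13, 6], .l [14, 8], .l [5, 13], .y [5, 7, 9, 12, 14], .l [16, 10, 10, 8, 8, 6, 13, 1, 4, 2, 8], .l [16, 10], .l [5, 15], .l [5, 15], .l [18, 12, 12, 10, 10, 8, 13, 6, 1, 8, 6, 2, 6], .l [18, 12], .l [5, 17]]),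
([s 3 1, m 0 2, g, p 0 3, g, m 0 4, g, m 4 5, g, m 2 0, m 5 6, g, m 6 0, g, m 1 0, g], .lo 5, [.l [7, 3, 10, 4, 7], .l [7, 3], .l [9, 12, 11, 11, 9, 9, 5, 7, 4, 9, 4, 6, 3], .l [7, 1, 15, 8, 11, 2, 6], .l [7, 1], .r 4249 [1, 2, 3, 7, 4, 5, 6] [1, 1, 1, 1, 1, 1, 1, 1], .l [7, 1, 8, 6, 13, 8, 11, 2, 6], .l [7, 1], .l [5, 6], .l [9, 3, 3, 1, 9, 7, 11, 6, 9, 2, 6], .l [9, 3], .l [5, 8], .l [5, 8], .l [5, 11, 13, 11, 4], .l [12, 6], .l [5, 11], .y [5, 7, 10, 12], .l [14, 8, 8, 6, 13, 1, 4, 2, 8], .l [14, 8], .l [5, 13], .l [5, 13], .l [16, 10, 10, 8, 13, 6, 1, 8, 6, 2, 6], .l [16, 10], .l [5, 15]]),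
([s 3 1, m 0 2, g, p 0 3, g, m 0 4, g, m 2 0, m 4 5, g, m 5 0, g, m 1 0, g], .lo 5, [.l [7, 3, 8, 2, 5], .l [7, 3], .l [7, 10, 9, 9, 5, 7, 4, 9, 4, 6, 3], .l [7, 1, 13, 6, 9, 2, 6], .l [7, 1], .r 4250 [1, 2, 3, 6, 4, 5] [1, 1, 1, 1, 1, 1, 1], .l [7, 1, 9, 7, 11, 6, 9, 2, 6], .l [7, 1], .l [5, 6], .l [5, 6], .l [5, 9, 11, 9, 2], .l [10, 4], .l [5, 9], .y [5, 8, 10], .l [12, 6, 13, 1, 4, 2, 8], .l [12, 6], .l [5, 11], .l [5, 11], .l [14, 8, 13, 6, 1, 8, 6, 2, 6], .l [14, 8], .l [5, 13]]),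
([s 3 1, m 0 2, g, p 0 3, g, m 2 4, m 4 5, g, m 5 6, g, m 6 7, g, m 7 8, g, m 8 0, g, m 1 0, g], .hi 14, [.y [1, 5, 6, 8, 10, 12, 14], .l [3, 15, 15, 13, 13, 11, 11, 9, 9, 7, 4], .l [3, 0, 15, 15, 13, 13, 11, 11, 9, 9, 7, 4], .l [3, 15], .l [3, 2, 15, 12, 14, 12, 12, 11, 11, 9, 9, 7, 7, 5, 5, 3, 3, 1], .l [5, 15, 15, 13, 13, 11, 11, 9, 9, 7, 2], .l [3, 2, 17, 14, 16, 12, 12, 11, 11, 9, 9, 7, 7, 5, 5, 3, 5, 1], .l [5, 15], .l [7, 10, 8, 8, 7, 15, 10, 7, 7, 5, 5, 3, 3, 1, 6, 2, 3], .l [3, 2, 17, 14, 16, 14, 14, 13, 13, 9, 9, 7, 7, 5, 5, 3, 5, 1], .l [8, 15], .l [9, 12, 10, 10, 8, 8, 7, 13, 8, 5, 5, 3, 3, 1, 6, 2, 3], .l [3, 2, 17, 14, 16, 14, 14, 13, 13, 11, 11, 7, 7, 5, 5, 3, 5, 1], .l [10, 15], .l [11, 14, 12, 12, 10,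 10, 8, 8, 7, 11, 6, 3, 3, 1, 6, 2, 3], .l [3, 2, 17, 14, 16, 14, 14, 13, 13, 11, 11, 9, 9, 5, 5, 3, 5, 1], .l [12, 15], .l [13, 16, 14, 14, 12, 12, 10, 10, 8, 8, 7, 9, 4, 1, 6, 2, 3], .l [3, 2, 17, 14, 16, 14, 14, 13, 13, 11, 11, 9, 9, 7, 7, 3, 5, 1], .l [14, 15], .l [13, 14, 12, 12, 10, 10, 8, 12, 4, 1, 6, 2, 4, 6, 1], .l [13, 14, 12, 12, 10, 10, 8, 12, 4, 1, 6, 2, 4, 6, 1], .l [3, 2, 17, 14, 16, 14, 14, 13, 13, 11, 11, 9, 9, 7, 7, 5, 5, 3], .l [13, 14, 12, 12, 10, 10, 8, 8, 6, 8, 2, 8, 1, 6, 4, 2, 3], .l [3, 2, 15, 12, 14, 12, 12, 11, 11, 9, 9, 7, 7, 5, 5, 3, 3, 3], .l [3, 2, 15, 12, 14, 12, 12, 11, 11, 9, 9, 7, 7, 5, 5, 3, 5, 1]]),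
([s 4 1, m 3 2, g, s 0 3, g, p 0 4, g, m 2 5, m 5 6, g, m 6 7, g, m 7 8, g, m 8 0, g, m 1 0, g], .hi 14, [.l [3, 15, 15, 13, 13, 11, 11, 9, 6], .l [3, 0, 15, 15, 13, 13, 11, 11, 9, 6], .l [3, 15], .y [1, 7, 8, 10, 12, 14, 3], .l [5, 15, 15, 13, 13, 11, 11, 9, 4], .l [5, 0, 15, 15, 13, 13, 11, 11, 9, 4], .l [5, 15], .l [5, 0, 13, 13, 11, 11, 9, 9, 7, 2], .l [7, 15, 15, 13, 13, 11, 11, 9, 2], .l [7, 0, 15, 15, 13, 13, 11, 11, 9, 2], .l [7, 15], .l [9, 12, 10, 10, 9, 15, 8, 5, 5, 3, 3, 1, 8, 4, 5], .l [5, 4, 12, 3, 13, 15, 8, 13, 8, 1, 6, 8, 1], .l [10, 15], .l [11, 14, 12, 12, 10, 10, 9, 13, 6, 3, 3, 1, 8, 4, 5], .l [11, 14, 12, 12, 10, 10, 9, 13, 6, 3, 3, 1, 8, 4, 5], .l [12, 15], .l [13, 16, 14, 14, 12, 12, 10, 10, 9,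 11, 4, 1, 8, 4, 5], .l [13, 16, 14, 14, 12, 12, 10, 10, 9, 11, 4, 1, 8, 4, 5], .l [14, 15], .l [13, 14, 12, 12, 10, 14, 4, 1, 8, 4, 6, 8, 1], .l [13, 14, 12, 12, 10, 14, 4, 1, 8, 4, 6, 8, 1], .r 4252 [1, 2, 4, 5, 6, 7, 8, 9] [3, 1, 1, 1, 1, 1, 1, 1], .l [13, 14, 12, 12, 10, 10, 8, 10, 2, 10, 1, 8, 6, 4, 5], .l [13, 14, 12, 12, 10, 10, 8, 10, 2, 10, 1, 8, 6, 4, 5], .l [5, 16, 10, 13, 1, 15, 10, 10, 8, 8, 6, 6, 4, 6, 3]]),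
([s 4 1, m 3 2, g, s 0 3, g, p 0 4, g, m 2 5, m 5 6, g, m 6 7, g, m 7 0, g, m 1 0, g], .hi 12, [.l [3, 13, 13, 11, 11, 9, 6], .l [3, 0, 13, 13, 11, 11, 9, 6], .l [3, 13], .y [1, 7, 8, 10, 12, 3], .l [5, 13, 13, 11, 11, 9, 4], .l [5, 0, 13, 13, 11, 11, 9, 4], .l [5, 13], .l [5, 0, 11, 11, 9, 9, 7, 2], .l [7, 13, 13, 11, 11, 9, 2], .l [7, 0, 13, 13, 11, 11, 9, 2], .l [7, 13], .l [9, 12, 10, 10, 9, 13, 6, 3, 3, 1, 8, 4, 5], .l [9, 12, 10, 10, 9, 13, 6, 3, 3, 1, 8, 4, 5], .l [10, 13], .l [11, 14, 12, 12, 10, 10, 9, 11, 4, 1, 8, 4, 5], .l [11, 14, 12, 12, 10, 10, 9, 11, 4, 1, 8, 4, 5], .l [12, 13], .l [11, 12, 10, 14, 4, 1, 8, 4, 6, 8, 1], .l [11, 12, 10, 14, 4, 1, 8, 4, 6, 8, 1], .r 4253 [1, 2, 3, 4, 5, 6, 7, 8] [1, 1, 1,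 1, 1, 1, 1, 1], .l [11, 12, 10, 10, 8, 10, 2, 10, 1, 8, 6, 4, 5], .l [11, 12, 10, 10, 8, 10, 2, 10, 1, 8, 6, 4, 5], .l [5, 14, 8, 11, 1, 13, 8, 8, 6, 6, 4, 6, 3]]),
([s 4 1, m 3 2, g, s 0 3, g, p 0 4, g, m 2 5, m 5 6, g, m 6 0, g, m 1 0, g], .hi 10, [.l [3, 11, 11, 9, 6], .l [3, 0, 11, 11, 9, 6], .l [3, 11], .y [1, 7, 8, 10, 3], .l [5, 11, 11, 9, 4], .l [5, 0, 11, 11, 9, 4], .l [5, 11], .l [5, 0, 9, 9, 7, 2], .l [7, 11, 11, 9, 2], .l [7, 0, 11, 11, 9, 2], .l [7, 11], .l [9, 12, 10, 10, 9, 11, 4, 1, 8, 4, 5], .l [9, 12, 10, 10, 9, 11, 4, 1, 8, 4, 5], .l [10, 11], .l [9, 14, 4, 1, 8, 4, 6, 8, 1], .l [9, 14, 4, 1, 8, 4, 6, 8, 1], .r 4254 [1, 2, 3, 4, 5, 6, 7] [1, 1, 1, 1, 1, 1, 1], .l [9, 10, 8, 10, 2, 10, 1, 8, 6, 4, 5],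 .l [9, 10, 8, 10, 2, 10, 1, 8, 6, 4, 5], .l [5, 12, 6, 9, 1, 11, 6, 6, 4, 6, 3]]),
([s 4 1, m 3 2, g, s 0 3, g, p 0 4, g, m 2 0, m 0 5, g, m 5 0, g, m 1 0, g], .lo 8, [.l [10, 6, 3, 7, 2], .l [10, 6], .l [7, 10, 5, 9, 6, 11, 4, 8, 5], .l [10, 4, 1, 7, 4], .l [10, 4], .l [7, 10, 7, 9, 4, 11, 6, 8, 3], .l [10, 2, 13, 3, 8, 4, 8], .l [10, 2], .r 4251 [1, 2, 4, 6, 5] [3, 1, 1, 1, 1, 1], .r 4255 [1, 2, 3, 4, 6, 5] [1, 1, 1, 1, 1, 1], .l [3, 1, 9, 1, 9, 7, 4], .l [10, 1], .l [8, 9], .y [8, 10], .l [8, 11, 8, 4, 6, 8, 1], .l [12, 3], .l [8, 11], .l [8, 11], .l [8, 13, 10, 4, 6, 10, 3], .l [14, 5], .l [8, 13]]),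
([s 4 1, m 3 2, g, s 0 3, g, p 0 4, g, m 2 0, m 0 0, g, m 1 0, g], .hi 8, [.l [3, 9, 6], .l [3, 0, 9, 6], .l [3, 9], .l [1, 2, 2, 5, 4], .l [5, 9, 4], .l [5, 0, 9, 4], .l [5, 9], .l [5, 0, 7, 2], .l [5, 4, 11, 6, 10, 6, 7], .l [7, 0, 9, 2], .l [7, 9], .y [8], .l [5, 4, 11, 6, 10, 8, 1], .l [5, 4, 11, 6, 10, 8, 1], .r 4256 [1, 2, 3, 4, 5] [1, 1, 1, 1, 1, 1], .l [5, 4, 9, 4, 8, 6, 7], .l [5, 4, 9, 4, 8, 6, 7], .l [3, 1, 9, 6, 9, 2, 5, 2, 5]]),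
([s 3 1, m 0 2, g, p 0 3, g, m 2 0, m 0 0, g, m 1 0, g], .lo 1, [.r 4257 [1, 2, 4, 3] [1, 1, 1, 1, 1], .l [3, 1], .l [1, 2], .l [5, 3, 6, 2, 3], .l [5, 3], .l [1, 4], .y [1, 5], .l [1, 5], .l [8, 6, 1, 5, 2], .l [8, 6], .l [1, 7], .l [1, 7], .l [10, 8, 1, 7, 4], .l [10, 8], .l [1, 9]]),
([s 5 1, m 4 2, s 3 0, g, s 0 3, g, s 0 4, g, p 0 5, g, m 2 0, s 0 6, g, m 6 0, g, m 1 0, g], .lo 11, [.l [2, 10, 8], .l [4, 12, 8], .l [4, 12, 8], .l [1, 7, 9, 2, 14, 11, 3, 12, 6, 9], .l [6, 12, 6], .l [6, 12, 6], .l [5, 17, 11, 6, 10], .l [8, 12, 4], .l [8, 12, 4], .l [6, 4, 1, 13, 1, 6, 4, 6], .l [10, 12, 2], .l [8, 7, 16, 8, 15, 11, 12], .l [6, 4, 1, 13, 1, 4, 2, 6], .l [6, 4, 1, 11, 1, 2, 0, 4], .l [6, 4, 1, 11, 1, 11, 9, 4], .l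 [6, 4, 1, 11, 1, 11, 9, 4], .l [8, 7, 16, 8, 15, 13, 1], .y [11, 13], .l [6, 4, 1, 11, 1, 11, 9, 4], .l [6, 4, 1, 11, 1, 11, 9, 4], .l [8, 7, 16, 8, 15, 13, 3], .l [8, 7, 14, 6, 13, 11, 3], .l [6, 4, 1, 11, 1, 13, 11, 4], .l [6, 4, 1, 11, 1, 13, 11, 4], .l [8, 7, 14, 6, 13, 11, 12]]),
([s 6 1, m 5 2, s 4 3, g, m 3 0, g, s 0 4, g, s 0 5, g, p 0 6, g, m 2 0, s 0 7, g, s 7 0, g, m 1 0, g], .lo 13, [.l [4, 14, 10], .l [4, 14, 10], .l [1, 9, 11, 2, 16, 13, 5, 14, 6, 9], .l [1, 7, 9, 2, 14, 11, 3, 12, 6, 9], .l [6, 14, 8], .l [6, 14, 8], .l [1, 9, 11, 2, 16, 13, 5, 14, 6, 11], .l [8, 14, 6], .l [8, 14, 6], .l [5, 19, 13, 14, 9, 8, 6, 14, 1, 5, 10, 7], .l [10, 14, 4], .l [10, 14, 4], .l [8, 6, 3, 15, 1, 6, 4, 6], .l [12, 14,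 2], .l [10, 9, 18, 8, 17, 13, 14], .l [8, 6, 3, 15, 1, 4, 2, 6], .l [8, 6, 3, 13, 1, 2, 0, 4], .l [4, 1, 14, 1, 8, 10, 7, 13, 6, 8, 3], .l [8, 6, 3, 13, 1, 13, 11, 4], .l [10, 9, 18, 8, 17, 15, 1], .y [13, 15], .l [4, 1, 14, 1, 8, 10, 7, 13, 6, 8, 3], .l [8, 6, 3, 13, 1, 13, 11, 4], .l [10, 9, 18, 8, 17, 15, 3], .l [10, 9, 16, 6, 15, 13, 3], .l [4, 1, 12, 16, 3, 14, 8, 10], .l [8, 6, 3, 13, 1, 15, 13, 4], .l [10, 9, 16, 6, 15, 13, 14]]),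
([s 6 1, m 5 2, s 4 3, g, m 3 0, g, s 0 4, g, s 0 5, g, p 0 6, g, m 2 0, s 0 0, g, m 1 0, g], .hi 13, [.l [4, 14, 10], .l [1, 9, 11, 2, 14, 11, 5, 12, 4, 7], .l [4, 14, 10], .l [6, 14, 8], .l [1, 9, 11, 2, 14, 11, 5, 12, 4, 9], .l [6, 14, 8], .l [6, 12, 6], .l [8, 14, 6], .l [5, 17, 11, 12, 7, 6, 4, 12, 1, 5, 8, 5], .l [8, 14, 6], .l [8, 12, 4], .l [10, 14, 4], .l [9, 17, 7, 4, 6], .l [10, 14, 4], .l [9, 15, 5, 2, 4], .l [12, 14, 2], .l [11, 17, 5, 2, 4], .l [10, 9, 16, 6, 15, 11, 12], .y [13], .r 4260 [1, 2, 3, 4, 5, 6, 7] [1, 1, 1, 1, 1, 1, 1, 1], .l [10, 9, 16, 6, 15, 13, 1], .l [4, 1, 12, 7, 10, 7, 13, 6, 8, 3], .l [16, 14, 3, 7, 13, 4, 12, 9], .l [10, 9, 14, 4, 13, 11, 12], .l [8, 6, 3, 15, 3, 13, 1, 8, 4, 9]]),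
([s 7 1, m 6 2, s 4 3, g, s 0 4, g, m 3 5, g, m 5 0, g, s 0 6, g, p 0 7, g, m 2 0, s 9 8, g, s 8 0, g, s 0 9, g, m 1 0, g], .hi 8, [.l [9, 14, 4, 7, 16, 1, 8, 3, 16, 5, 9, 5], .l [1, 11, 7, 5, 5, 3, 9, 2, 16, 13, 1, 14, 8], .l [4, 9], .y [2, 6, 8, 4], .l [9, 14, 4, 9, 16, 1, 6, 1, 16, 7, 11, 5], .l [1, 11, 5, 3, 3, 1, 9, 2, 16, 13, 3, 14, 8], .l [6, 9], .l [7, 14, 6, 1, 16, 1, 4, 12, 16, 12, 5, 8], .l [14, 6, 1, 15, 2, 8, 1, 10, 18, 14, 16, 14, 3], .l [8, 9], .l [19, 1, 10, 1, 5, 14, 7, 14], .l [14, 6, 1, 15, 2, 8, 12, 10, 10, 6, 3, 15, 13], .l [5, 16, 11, 1, 11, 3, 1, 7, 18, 10, 15, 15, 13], .l [1, 9, 9, 7, 7, 5, 16, 11, 0, 11, 8, 1, 9], .l [19, 1, 10, 3, 5, 14, 7, 14], .l [14, 6, 3, 15, 2, 8, 10, 8, 8, 4, 7, 15, 9],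 .l [1, 9, 11, 9, 9, 7, 18, 13, 2, 13, 8, 1, 9], .l [12, 4, 3, 13, 2, 8, 8, 6, 6, 2, 5, 13, 9], .l [7, 8, 6, 21, 15, 5, 7, 14, 7], .l [1, 9, 1, 11, 20, 15, 1, 17, 2, 8], .l [3, 23, 19, 20, 13, 15, 11, 1, 8, 11], .l [7, 12, 4, 14, 4, 12, 18, 14, 5], .l [4, 1, 11, 7, 1, 7, 5, 11, 4, 9, 15, 11, 2], .l [3, 12, 8, 9, 14, 8, 8, 6, 6, 4, 15, 6, 12], .l [7, 12, 4, 16, 6, 14, 18, 14, 7], .l [4, 1, 11, 7, 1, 7, 5, 13, 6, 11, 15, 11, 4], .l [3, 12, 8, 9, 16, 10, 10, 8, 8, 6, 15, 4, 12], .l [7, 12, 4, 16, 6, 14, 16, 12, 7], .l [7, 12, 4, 18, 8, 16, 18, 14, 9], .l [4, 1, 11, 7, 1, 7, 5, 15, 8, 13, 15, 11, 6], .l [3, 12, 8, 9, 18, 12, 12, 10, 10, 8, 15, 2, 12], .l [22, 14, 21, 16, 4, 1, 6, 12, 7, 8], .l [22, 14, 21, 16, 4, 1, 6, 12,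 7, 8], .l [3, 12, 8, 9, 20, 14, 14, 12, 3, 16, 5, 13, 11]]),
([s 6 1, m 5 2, s 4 3, g, s 0 4, g, m 3 0, g, s 0 5, g, p 0 6, g, m 2 0, s 8 7, g, s 7 0, g, s 0 8, g, m 1 0, g], .hi 6, [.l [17, 1, 12, 3, 7, 12, 3, 12], .l [1, 9, 5, 3, 9, 2, 16, 13, 1, 14, 8, 3], .l [4, 7], .y [2, 6, 4], .l [17, 1, 10, 1, 5, 12, 5, 12], .l [1, 9, 3, 1, 9, 2, 16, 13, 3, 14, 8, 3], .l [6, 7], .l [17, 1, 10, 1, 5, 12, 5, 12], .l [12, 11, 20, 8, 19, 17, 3, 11, 1, 3, 12, 9], .r 4262 [1, 2, 3, 4, 9, 5, 6, 7, 8] [1, 1, 1, 1, 1, 1, 1, 1, 1, 1], .l [10, 9, 18, 8, 17, 15, 3, 9, 1, 1, 10, 9], .l [17, 1, 10, 3, 5, 12, 5, 12], .l [17, 1, 10, 3, 5, 12, 5, 12], .l [4, 1, 11, 7, 1, 7, 4, 11, 1, 4, 7, 11, 9, 2, 5], .l [15, 1, 8, 3, 3, 10, 5, 10], .l [5, 21,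 15, 5, 7, 14, 7], .l [1, 7, 1, 9, 18, 13, 1, 15, 2, 8], .l [3, 21, 17, 18, 13, 15, 11, 1, 8, 11], .l [5, 10, 4, 12, 6, 11, 17, 13, 2, 9], .l [4, 1, 20, 16, 1, 16, 7, 15, 3, 7, 2, 7], .l [3, 10, 6, 7, 12, 6, 6, 4, 15, 6, 12, 7], .l [5, 10, 4, 14, 8, 13, 17, 13, 4, 9], .l [4, 1, 20, 16, 1, 16, 5, 15, 3, 9, 4, 9], .l [3, 10, 6, 7, 14, 8, 8, 6, 15, 4, 12, 9], .l [3, 10, 6, 7, 14, 8, 8, 6, 13, 2, 10, 3], .l [5, 10, 4, 16, 10, 15, 17, 13, 6, 3], .l [4, 1, 20, 16, 1, 16, 3, 15, 3, 11, 6, 3], .l [3, 10, 6, 7, 16, 10, 10, 8, 15, 2, 12, 3], .l [20, 14, 19, 14, 4, 1, 6, 10, 5, 6], .l [10, 9, 18, 8, 17, 15, 3, 9, 14, 12, 10, 11], .l [10, 9, 18, 8, 17, 15, 3, 16, 6, 6, 2, 5]]),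
([s 7 1, m 6 2, s 4 3, g, s 0 4, g, m 3 5, g, m 5 0, g, s 0 6, g, p 0 7, g, m 2 0, s 9 8, g, s 0 9, g, s 8 0, g, m 1 0, g], .hi 8, [.l [9, 14, 4, 7, 16, 1, 8, 3, 16, 5, 9, 5], .l [1, 11, 7, 5, 5, 3, 9, 2, 16, 13, 1, 14, 8], .l [4, 9], .y [2, 6, 8, 4], .l [9, 14, 4, 9, 16, 1, 6, 1, 16, 7, 11, 5], .l [1, 11, 5, 3, 3, 1, 9, 2, 16, 13, 3, 14, 8], .l [6, 9], .l [7, 14, 6, 1, 16, 1, 4, 12, 16, 12, 5, 8], .l [14, 6, 1, 15, 2, 8, 1, 10, 18, 14, 16, 14, 3], .l [8, 9], .l [19, 1, 10, 1, 5, 14, 7, 14], .l [14, 6, 1, 15, 2, 8, 12, 10, 10, 6, 3, 15, 13], .l [5, 16, 11, 1, 11, 3, 1, 7, 18, 10, 15, 15, 13], .l [1, 9, 9, 7, 7, 5, 16, 11, 0, 11, 8, 1, 9], .l [19, 1, 10, 3, 5, 14, 7, 14], .l [14, 6, 3, 15, 2, 8, 10, 8, 8, 4, 7, 15, 9],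 .l [1, 9, 11, 9, 9, 7, 18, 13, 2, 13, 8, 1, 9], .l [12, 4, 3, 13, 2, 8, 8, 6, 6, 2, 5, 13, 9], .l [7, 8, 6, 21, 15, 5, 7, 14, 7], .l [1, 9, 1, 11, 20, 15, 1, 17, 2, 8], .l [3, 23, 19, 20, 13, 15, 11, 1, 8, 11], .l [7, 12, 4, 14, 4, 12, 18, 14, 5], .l [4, 1, 11, 7, 1, 7, 5, 11, 4, 9, 15, 11, 2], .l [3, 12, 8, 9, 14, 8, 8, 6, 6, 4, 15, 6, 12], .l [7, 12, 4, 14, 4, 12, 16, 12, 5], .l [7, 12, 4, 16, 6, 14, 18, 14, 7], .l [4, 1, 11, 7, 1, 7, 5, 13, 6, 11, 15, 11, 4], .l [3, 12, 8, 9, 16, 10, 10, 8, 8, 6, 15, 4, 12], .l [7, 12, 4, 18, 8, 16, 18, 14, 9], .l [4, 1, 11, 7, 1, 7, 5, 15, 8, 13, 15, 11, 6], .l [3, 12, 8, 9, 18, 12, 12, 10, 10, 8, 15, 2, 12], .l [22, 14, 21, 16, 4, 1, 6, 12, 7, 8], .l [22, 14, 21, 16, 4, 1, 6, 12,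 7, 8], .l [3, 12, 8, 9, 20, 14, 14, 12, 3, 16, 5, 13, 11]]),
([s 6 1, m 5 2, s 4 3, g, s 0 4, g, m 3 0, g, s 0 5, g, p 0 6, g, m 2 0, s 8 7, g, s 0 8, g, s 7 0, g, m 1 0, g], .hi 6, [.l [17, 1, 12, 3, 7, 12, 3, 12], .l [1, 9, 5, 3, 9, 2, 16, 13, 1, 14, 8, 1], .l [4, 7], .y [2, 6, 4], .l [17, 1, 10, 1, 5, 12, 5, 12], .l [1, 9, 3, 1, 9, 2, 16, 13, 3, 14, 8, 1], .l [6, 7], .l [17, 1, 10, 1, 5, 12, 5, 12], .l [12, 11, 20, 8, 19, 17, 1, 11, 1, 3, 12, 9], .r 4264 [1, 2, 3, 4, 9, 5, 6, 7, 8] [1, 1, 1, 1, 1, 1, 1, 1, 1, 1], .l [10, 9, 18, 8, 17, 15, 1, 9, 1, 1, 10, 9], .l [17, 1, 10, 3, 5, 12, 5, 12], .l [17, 1, 10, 3, 5, 12, 5, 12], .l [4, 1, 11, 7, 1, 7, 4, 11, 1, 4, 7, 11, 9, 2, 5], .l [15, 1, 8, 3, 3, 10, 5, 10], .l [5, 21,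 15, 5, 7, 14, 7], .l [1, 7, 1, 9, 18, 13, 1, 15, 2, 8], .l [3, 21, 17, 18, 13, 15, 11, 1, 8, 11], .l [5, 10, 4, 12, 6, 11, 17, 13, 2, 7], .l [4, 1, 20, 16, 1, 16, 7, 15, 3, 7, 2, 9], .l [3, 10, 6, 7, 12, 6, 6, 4, 15, 6, 12, 9], .l [3, 10, 6, 7, 12, 6, 6, 4, 13, 4, 10, 1], .l [5, 10, 4, 14, 8, 13, 17, 13, 4, 1], .l [4, 1, 20, 16, 1, 16, 5, 15, 3, 9, 4, 1], .l [3, 10, 6, 7, 14, 8, 8, 6, 15, 4, 12, 1], .l [5, 10, 4, 16, 10, 15, 17, 13, 6, 1], .l [4, 1, 20, 16, 1, 16, 3, 15, 3, 11, 6, 1], .l [3, 10, 6, 7, 16, 10, 10, 8, 15, 2, 12, 1], .l [20, 14, 19, 14, 4, 1, 6, 10, 5, 6], .l [10, 9, 18, 8, 17, 15, 1, 9, 14, 12, 10, 11], .l [10, 9, 18, 8, 17, 15, 1, 16, 6, 6, 2, 5]]),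
([s 6 1, m 5 2, s 4 3, g, s 0 4, g, m 3 0, g, s 0 5, g, p 0 6, g, m 2 0, s 0 7, g, s 7 0, g, m 1 0, g], .lo 13, [.l [4, 14, 10], .l [4, 14, 10], .l [1, 9, 11, 2, 16, 13, 3, 14, 6, 11], .l [6, 14, 8], .l [6, 14, 8], .l [4, 1, 7, 5, 6, 15, 9, 9, 6, 8, 6, 7], .l [4, 1, 5, 3, 4, 13, 9, 9, 6, 8, 6, 7], .l [8, 14, 6], .l [8, 14, 6], .l [4, 1, 5, 3, 6, 15, 9, 9, 6, 8, 6, 9], .l [10, 14, 4], .l [10, 14, 4], .l [4, 1, 16, 1, 6, 4, 10, 2, 10, 5], .l [12, 14, 2], .l [10, 9, 18, 8, 17, 13, 14], .l [4, 1, 16, 1, 4, 2, 10, 2, 10, 5], .l [4, 1, 14, 1, 2, 0, 8, 2, 8, 3], .r 4265 [1, 2, 3, 4, 5, 6, 7, 8] [1, 1, 1, 1, 1, 1, 1, 1, 1], .l [4, 1, 9, 5, 12, 1, 4, 9, 13, 9, 2, 5], .l [10, 9, 18, 8, 17, 15, 1], .y [13, 15], .r 4263 [1, 2, 3,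 4, 5, 6, 7, 8] [1, 1, 1, 1, 1, 1, 1, 1, 1], .l [4, 1, 14, 1, 14, 12, 8, 2, 8, 3], .l [10, 9, 18, 8, 17, 15, 3], .l [10, 9, 16, 6, 15, 13, 3], .l [6, 3, 12, 16, 3, 14, 6, 10], .l [4, 1, 14, 1, 16, 14, 8, 2, 8, 3], .l [10, 9, 16, 6, 15, 13, 14]]),
([s 6 1, m 5 2, s 4 3, g, s 0 4, g, m 3 0, g, s 0 5, g, p 0 6, g, m 2 0, s 0 0, g, m 1 0, g], .hi 13, [.l [4, 14, 10], .l [1, 9, 11, 2, 14, 11, 3, 12, 4, 9], .l [4, 14, 10], .l [4, 12, 8], .l [6, 14, 8], .l [4, 1, 7, 5, 6, 13, 7, 7, 4, 6, 4, 5], .l [6, 14, 8], .l [8, 14, 6], .l [4, 1, 5, 3, 6, 13, 7, 7, 4, 6, 4, 7], .l [8, 14, 6], .l [8, 12, 4], .l [10, 14, 4], .l [9, 17, 7, 4, 6], .l [10, 14, 4], .l [9, 15, 5, 2, 4], .l [12, 14, 2], .l [11, 17, 5, 2, 4], .l [10, 9, 16, 6, 15,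 11, 12], .y [13], .r 4266 [1, 2, 3, 4, 5, 6, 7] [1, 1, 1, 1, 1, 1, 1, 1], .l [10, 9, 16, 6, 15, 13, 1], .r 4259 [1, 2, 4, 5, 6, 7] [1, 3, 1, 1, 1, 1, 1], .l [16, 14, 1, 7, 13, 4, 12, 9], .l [10, 9, 14, 4, 13, 11, 12], .l [3, 15, 11, 12, 7, 13, 6, 9, 2, 9]]),
([s 5 1, m 3 2, s 4 0, g, s 0 3, g, s 0 4, g, p 0 5, g, m 2 0, s 0 6, g, s 6 0, g, m 1 0, g], .lo 11, [.l [2, 10, 8], .l [4, 12, 8], .l [4, 12, 8], .l [3, 17, 13, 8, 12], .l [6, 12, 6], .l [6, 12, 6], .l [4, 2, 6, 15, 11, 11, 6, 10, 8, 9], .l [8, 12, 4], .l [8, 12, 4], .l [7, 17, 9, 4, 8], .l [10, 12, 2], .l [8, 7, 16, 8, 15, 11, 12], .l [9, 17, 7, 2, 6], .l [9, 15, 5, 0, 4], .l [13, 1, 8, 9, 6, 1, 7, 4, 7], .l [13, 1, 8, 9, 6, 8, 4, 9], .l [8, 7, 16, 8, 15, 13, 1],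 .y [11, 13], .l [13, 1, 8, 9, 6, 1, 7, 4, 7], .l [15, 3, 10, 11, 8, 10, 6, 1], .l [8, 7, 16, 8, 15, 13, 3], .l [8, 7, 14, 6, 13, 11, 3], .l [4, 2, 10, 15, 3, 13, 6, 9], .l [17, 5, 12, 13, 10, 12, 8, 3], .l [8, 7, 14, 6, 13, 11, 12]]),
([s 5 1, m 3 2, s 4 0, g, s 0 3, g, s 0 4, g, p 0 5, g, m 2 0, s 0 0, g, m 1 0, g], .hi 11, [.l [4, 12, 8], .l [3, 15, 11, 8, 10], .l [4, 12, 8], .l [4, 10, 6], .l [6, 12, 6], .l [4, 2, 6, 13, 9, 9, 4, 8, 6, 7], .l [6, 12, 6], .l [6, 10, 4], .l [8, 12, 4], .l [7, 15, 7, 4, 6], .l [8, 12, 4], .l [7, 13, 5, 2, 4], .l [10, 12, 2], .l [9, 15, 5, 2, 4], .l [8, 7, 14, 6, 13, 9, 10], .y [11], .r 4268 [1, 2, 3, 4, 5, 6] [1, 1, 1, 1, 1, 1, 1], .l [8, 7, 14, 6, 13, 11, 1], .l [13, 1, 8, 9, 6, 1, 7,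 4], .l [14, 10, 11, 8, 1, 9, 6, 8, 5], .l [8, 7, 12, 4, 11, 9, 10], .l [5, 13, 7, 8, 9, 11, 2, 5, 2, 5]]),
([s 5 1, m 4 2, s 0 3, g, m 3 0, g, s 0 4, g, p 0 5, g, m 2 0, s 0 0, g, m 1 0, g], .lo 2, [.r 4267 [1, 2, 3, 6, 4, 5] [1, 1, 1, 1, 1, 1, 1], .l [4, 1, 5, 3, 4], .l [8, 6, 1], .y [2, 4], .r 4261 [1, 2, 3, 6, 4, 5] [1, 1, 1, 1, 1, 1, 1], .l [4, 1, 5, 3, 4], .l [8, 6, 3], .r 4269 [1, 2, 4, 6, 5] [3, 1, 1, 1, 1, 1], .l [4, 1, 7, 5, 2], .l [6, 4, 6], .l [9, 15, 5, 6, 9, 11, 2, 4], .l [4, 1, 9, 7, 2], .l [6, 4, 8], .l [6, 4, 8], .l [2, 10, 8], .l [13, 10, 5, 10, 3, 5, 2, 5], .l [4, 1, 12, 10, 2], .l [6, 4, 11], .l [6, 4, 11], .l [15, 12, 5, 12, 5, 7, 2, 7], .l [4, 1, 14, 12, 2], .l [6, 4, 13]]),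
([s 5 1, m 4 2, s 0 3, g, s 3 0, g, s 0 4, g, p 0 5, s 0 0, g, m 2 0, s 0 6, g, s 6 0, g, m 1 0, g], .hi 9, [.l [6, 4, 7, 1], .l [3, 18, 14, 6, 8, 13, 4, 1], .l [1, 7, 3, 8, 2, 14, 11, 1], .l [4, 10, 5], .l [5, 18, 12, 4, 6, 11, 4, 1], .l [1, 7, 1, 8, 2, 14, 11, 1], .l [6, 10, 3], .l [8, 7, 15, 7, 8, 8, 11, 1], .l [7, 18, 10, 2, 4, 9, 4, 1], .l [7, 18, 10, 2, 4, 9, 4], .l [8, 10, 1], .l [7, 16, 8, 0, 2, 7, 4], .y [9], .l [8, 7, 17, 9, 1, 15, 11, 1], .l [8, 7, 17, 9, 1], .l [11, 1, 17, 6, 14, 7, 11], .l [9, 11, 2], .l [14, 4, 17, 3, 11, 7, 13, 3], .l [8, 7, 17, 9, 4], .l [14, 4, 17, 3, 11, 7, 13], .l [16, 6, 17, 1, 9, 7, 13, 1], .l [8, 7, 17, 9, 6], .l [16, 6, 17, 1, 9, 7, 13], .l [13, 18, 13, 7, 10, 2, 13, 3], .l [8,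 7, 15, 7, 15], .l [6, 4, 1, 16, 8, 1, 11, 4]]),
([s 4 1, m 0 2, g, s 0 3, g, s 3 0, g, p 0 4, m 0 0, g, m 2 0, s 0 5, g, s 5 0, g, m 1 0, g], .hi 8, [.l [1, 7], .l [3, 9, 5], .l [12, 9, 6, 10, 1], .l [3, 9], .l [3, 7, 3], .l [5, 9, 3], .l [3, 6, 1, 7, 4, 13, 8, 12, 8, 1], .l [5, 9], .l [7, 9, 1], .l [12, 5, 2, 10, 5], .l [7, 9], .l [10, 3, 0, 8, 5], .y [8], .l [7, 6, 16, 9, 1], .l [7, 6, 16, 9, 1], .l [8, 17, 8, 1, 14, 6, 10], .l [7, 6, 14, 7, 2], .l [7, 6, 16, 9, 4], .l [7, 6, 16, 9, 4], .l [4, 17, 12, 14, 1, 8, 3, 5, 8, 3], .l [7, 6, 16, 9, 6], .l [7, 6, 16, 9, 6], .l [12, 15, 10, 6, 1, 14, 7, 4, 10, 1], .l [7, 6, 14, 7, 14], .l [7, 6, 14, 7, 14], .l [12, 17, 12, 6, 9, 2, 12, 3]]),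
([s 4 1, m 3 2, g, s 0 3, g, p 0 4, m 2 5, g, m 5 6, g, m 1 0, g, m 6 0, g], .lo 5, [.l [6, 12, 5, 7, 11, 6, 6, 4, 4, 6, 1], .l [3, 6], .l [1, 4, 7, 1, 5, 7, 2, 4, 1], .l [6, 12, 5, 9, 11, 4, 4, 2, 2, 4, 1], .l [5, 6], .l [4, 8, 4, 6, 1, 7, 5, 2, 1], .l [4, 12, 7, 2, 4, 2, 2, 4, 1], .l [3, 1, 11, 8, 2, 7, 3, 1, 5, 2, 1], .l [6, 1, 7, 9, 2, 6, 3], .l [6, 1, 9, 13, 11, 11, 4, 8, 3], .l [5, 1, 6, 1, 3, 1, 6, 3, 6, 2, 3], .l [6, 1, 9, 13, 11, 11, 4, 8, 3], .y [0, 10, 5], .l [4, 10, 5, 9, 11, 4, 4, 2, 2, 4, 1], .l [5, 1, 6, 1, 3, 1, 8, 5, 1, 4, 1], .l [6, 1, 11, 13, 9, 9, 2, 6, 3], .l [6, 1, 11, 11, 7, 7, 0, 4, 3], .l [7, 14, 11, 5, 10, 8, 8, 3, 8, 0, 5], .l [7, 14, 11, 5, 10, 8, 8, 3, 8, 0, 5], .l [4, 6, 2, 4, 1, 5, 3, 0,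 7]]),
([s 4 1, m 3 2, g, s 0 3, g, p 0 4, m 2 5, g, m 5 6, g, m 6 0, g, m 1 0, g], .lo 5, [.l [1, 4, 7, 1, 5, 7, 2, 4, 1, 5, 3, 5, 3], .l [3, 6], .l [1, 4, 7, 1, 5, 7, 2, 4, 1], .l [3, 1, 13, 10, 4, 9, 7, 3, 7, 0, 3, 1, 3], .l [5, 6], .l [4, 8, 4, 6, 1, 7, 5, 2, 1], .l [4, 14, 9, 2, 4, 2, 2, 6, 3], .l [3, 1, 13, 10, 2, 9, 5, 1, 7, 2, 1], .l [6, 1, 7, 9, 2, 6, 3], .l [4, 14, 9, 4, 6, 4, 4, 2, 2, 4, 1], .l [5, 1, 6, 1, 3, 1, 6, 3, 8, 4, 5], .l [6, 1, 9, 11, 9, 9, 2, 6, 3], .l [6, 1, 9, 9, 7, 7, 0, 4, 3], .l [7, 12, 9, 5, 8, 6, 9, 2, 3], .l [7, 12, 9, 5, 8, 6, 9, 2, 3], .l [4, 6, 2, 4, 1, 5, 3, 0, 5], .y [0, 12, 5], .l [7, 14, 11, 5, 10, 8, 4, 8, 1], .l [7, 14, 11, 5, 10, 8, 4, 8, 1], .l [4, 6, 2, 4, 1, 5, 3, 0, 7]]),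
([s 4 1, m 3 2, g, s 0 3, g, p 0 4, m 2 5, g, m 5 0, g, m 1 0, g], .hi 8, [.l [3, 9, 9, 7, 3], .l [1, 4, 1, 7, 7, 5, 2], .l [3, 9], .y [1, 6, 8, 3], .l [5, 9, 9, 7, 1], .l [8, 3, 9, 9, 2, 6, 3], .l [5, 9], .l [6, 1, 7, 7, 0, 4, 3], .l [7, 10, 8, 4, 9, 4, 1], .l [7, 10, 8, 4, 9, 4, 1], .l [8, 9], .l [7, 8, 6, 4, 9, 4, 1], .l [7, 8, 6, 4, 9, 4, 1], .r 4274 [1, 2, 3, 4, 5, 6] [1, 1, 1, 1, 1, 1], .l [7, 8, 6, 4, 7, 2, 7], .l [7, 8, 6, 4, 7, 2, 7], .r 4273 [1, 2, 3, 4, 5, 6] [1, 1, 1, 1, 1, 1]]),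
([s 4 1, m 3 2, s 0 0, g, s 0 3, g, p 0 4, m 2 0, g, m 1 0, g], .hi 7, [.l [2, 6, 3], .l [4, 8, 3], .l [1, 5, 1, 6, 2], .l [4, 8], .y [1, 7, 4], .l [6, 8, 1], .l [9, 3, 2, 7, 4], .l [6, 8], .l [7, 1, 0, 5, 4], .l [6, 5, 10, 4, 1], .l [6, 5, 10, 4, 1], .r 4275 [1, 2, 3, 4, 5] [2, 1, 1, 1, 1], .l [6, 5, 8, 2, 8], .l [6, 5, 8, 2, 8], .l [7, 2, 9, 1, 9, 2, 6, 3, 2]]),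
([s 4 1, m 0 2, g, s 0 3, g, s 3 0, g, p 0 4, p 0 0, g, m 2 0, s 0 5, g, s 5 0, g, m 1 0, g], .lo 8, [.l [3, 9, 5], .l [3, 9], .l [12, 9, 6, 10, 1], .l [5, 9, 3], .l [5, 9], .l [3, 6, 1, 7, 4, 13, 8, 12, 8, 1], .l [5, 7, 1], .l [7, 9, 1], .l [7, 9], .l [12, 5, 2, 10, 5], .y [8], .l [7, 6, 16, 9, 1], .l [8, 17, 8, 1, 14, 6, 10], .l [7, 6, 16, 9, 1], .l [7, 6, 14, 7, 1], .l [7, 6, 16, 9, 4], .l [4, 17, 12, 14, 1, 8, 3, 5, 8, 3], .l [7, 6, 16, 9, 4], .l [7, 6, 14, 7, 4], .l [7, 6, 16, 9, 6], .l [12, 15, 10, 6, 1, 14, 7, 4, 10, 1], .l [7, 6, 16, 9, 6], .l [7, 6, 14, 7, 6], .l [7, 6, 14, 7, 14], .l [12, 17, 12, 6, 9, 2, 12, 3], .l [7, 6, 14, 7, 14]]),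
([s 5 1, m 4 2, s 0 3, g, s 3 0, g, s 0 4, g, p 0 5, g, m 2 0, s 0 6, g, s 6 0, g, m 1 0, g], .top 9, [.r 4276 [1, 2, 4, 5] [3, 1, 4, 1], .r 4271 [1, 2, 3, 4, 5, 6] [1, 1, 1, 1, 1, 1, 1], .r 4277 [1, 2, 3, 5, 6] [0, 1, 3, 1, 1, 1, 1], .r 4272 [1, 2, 3, 5, 6] [0, 1, 3, 1, 1, 1, 1]]),
([s 5 1, m 4 2, s 0 3, g, s 3 0, g, s 0 4, g, p 0 5, g, m 2 0, s 0 6, g, m 6 0, g, m 1 0, g], .lo 11, [.l [4, 12, 8], .l [4, 12, 8], .l [1, 7, 9, 2, 14, 11, 3, 12, 6, 9], .l [4, 10, 6], .l [6, 12, 6], .l [6, 12, 6], .l [5, 17, 11, 6, 10], .l [8, 12, 4], .l [8, 12, 4], .l [6, 4, 1, 13, 1, 6, 4, 6], .l [10, 12, 2], .l [8, 7, 16, 8, 15, 11, 12], .l [6, 4, 1, 13, 1, 4, 2, 6], .l [6, 4, 1, 11, 1, 2, 0, 4], .l [6, 4, 1, 11, 1, 11, 9, 4], .l [6,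 4, 1, 11, 1, 11, 9, 4], .l [8, 7, 16, 8, 15, 13, 1], .y [11, 13], .l [6, 4, 1, 11, 1, 11, 9, 4], .l [6, 4, 1, 11, 1, 11, 9, 4], .l [8, 7, 16, 8, 15, 13, 3], .l [8, 7, 14, 6, 13, 11, 3], .l [6, 4, 1, 11, 1, 13, 11, 4], .l [6, 4, 1, 11, 1, 13, 11, 4], .l [8, 7, 14, 6, 13, 11, 12]]),
([s 5 1, m 4 2, s 0 3, g, s 3 0, g, s 0 4, g, p 0 5, g, m 2 0, s 0 0, g, m 1 0, g], .hi 11, [.l [2, 10, 8], .l [4, 12, 8], .l [1, 7, 9, 2, 12, 9, 3, 10, 4, 7], .l [4, 12, 8], .l [6, 12, 6], .l [5, 15, 9, 6, 8], .l [6, 12, 6], .l [6, 10, 4], .l [8, 12, 4], .l [7, 15, 7, 4, 6], .l [8, 12, 4], .l [7, 13, 5, 2, 4], .l [10, 12, 2], .l [9, 15, 5, 2, 4], .l [8, 7, 14, 6, 13, 9, 10], .y [11], .r 4278 [1, 2, 3, 4, 5, 6] [1, 1, 1, 1, 1, 1, 1], .l [8,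 7, 14, 6, 13, 11, 1], .r 4279 [1, 2, 3, 4, 5, 6] [1, 1, 1, 1, 1, 1, 1], .l [14, 12, 1, 5, 11, 4, 10, 7], .l [8, 7, 12, 4, 11, 9, 10], .l [3, 13, 9, 10, 7, 11, 4, 7, 2, 7]]),
([s 5 1, m 4 2, s 0 3, g, s 0 4, g, s 3 0, g, p 0 5, g, m 2 0, s 0 6, g, s 6 0, g, m 1 0, g], .lo 11, [.l [4, 12, 8], .l [4, 12, 8], .l [3, 17, 13, 8, 12], .l [6, 12, 6], .l [6, 12, 6], .l [4, 2, 6, 15, 11, 11, 6, 10, 8, 9], .l [6, 10, 4], .l [8, 12, 4], .l [8, 12, 4], .l [7, 17, 9, 4, 8], .l [10, 12, 2], .l [8, 7, 16, 8, 15, 11, 12], .l [9, 17, 7, 2, 6], .l [9, 15, 5, 0, 4], .l [13, 1, 8, 9, 6, 1, 7, 4, 7], .l [13, 1, 8, 9, 6, 8, 4, 9], .l [8, 7, 16, 8, 15, 13, 1], .y [11, 13], .l [13, 1, 8, 9, 6, 1, 7, 4, 7], .l [15, 3, 10, 11, 8, 10, 6, 1], .l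 [8, 7, 16, 8, 15, 13, 3], .l [8, 7, 14, 6, 13, 11, 3], .l [4, 2, 10, 15, 3, 13, 6, 9], .l [17, 5, 12, 13, 10, 12, 8, 3], .l [8, 7, 14, 6, 13, 11, 12]]),
([s 5 1, m 4 2, s 0 3, g, s 0 4, g, s 3 0, g, p 0 5, g, m 2 0, s 0 0, g, m 1 0, g], .hi 11, [.l [2, 10, 8], .l [4, 12, 8], .l [3, 15, 11, 8, 10], .l [4, 12, 8], .l [4, 10, 6], .l [6, 12, 6], .l [4, 2, 6, 13, 9, 9, 4, 8, 6, 7], .l [6, 12, 6], .l [8, 12, 4], .l [7, 15, 7, 4, 6], .l [8, 12, 4], .l [7, 13, 5, 2, 4], .l [10, 12, 2], .l [9, 15, 5, 2, 4], .l [8, 7, 14, 6, 13, 9, 10], .y [11], .r 4281 [1, 2, 3, 4, 5, 6] [1, 1, 1, 1, 1, 1, 1], .l [8, 7, 14, 6, 13, 11, 1], .l [13, 1, 8, 9, 6, 1, 7, 4], .l [14, 10, 11, 8, 1, 9, 6, 8, 5], .l [8, 7, 12, 4, 11, 9, 10], .l [5, 13, 7,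 8, 9, 11, 2, 5, 2, 5]]),
([s 5 1, m 4 2, s 0 3, g, s 0 4, g, m 3 0, g, p 0 5, g, m 2 0, s 0 0, g, m 1 0, g], .hi 11, [.l [2, 10, 8], .l [4, 12, 8], .l [3, 15, 11, 8, 10], .l [4, 12, 8], .l [4, 10, 6], .l [6, 12, 6], .l [5, 15, 9, 6, 8], .l [6, 12, 6], .l [8, 12, 4], .l [7, 15, 7, 4, 6], .l [8, 12, 4], .l [7, 13, 5, 2, 4], .l [10, 12, 2], .l [9, 15, 5, 2, 4], .l [8, 7, 14, 6, 13, 9, 10], .y [11], .l [8, 7, 14, 6, 13, 11, 1, 7, 8, 5], .l [8, 7, 14, 6, 13, 11, 1], .l [13, 1, 8, 9, 6, 1, 7, 4], .l [14, 10, 11, 8, 10, 6, 10, 7], .l [8, 7, 12, 4, 11, 9, 10], .l [15, 3, 10, 11, 8, 1, 9, 6]]),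
([s 4 1, m 3 2, s 0 0, g, s 0 3, g, p 0 4, g, m 2 0, s 0 0, g, m 1 0, g], .hi 2, [.y [2], .r 4280 [1, 2, 5, 3, 4] [1, 1, 1, 1, 1, 1], .l [6, 4, 1], .r 4270 [1, 2, 5, 3, 4] [1, 1, 1, 1, 1, 1], .l [4, 2, 1], .r 4282 [1, 2, 5, 3, 4] [1, 1, 1, 1, 1, 1], .l [4, 2, 4], .r 4283 [1, 2, 5, 3, 4] [1, 1, 1, 1, 1, 1], .l [4, 2, 4], .l [7, 13, 5, 6, 7, 9, 2, 4], .l [4, 2, 6], .l [8, 5, 9, 2, 4], .l [2, 8, 6], .R 4183 [4, 3, 2, 5] [1, 1, 1, 2, 3], .l [4, 2, 9], .l [11, 8, 3, 8, 3], .R 4183 [4, 3, 2, 5] [1, 1, 1, 4, 1], .l [4, 2, 11], .l [13, 10, 3, 10, 5]]),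
([s 3 1, m 0 2, s 0 0, g, p 0 3, g, m 2 0, s 0 0, g, m 1 0, g], .lo 1, [.c, .r 4284 [1, 2, 4, 3] [1, 1, 1, 1, 1], .l [4, 2], .l [1, 3], .l [6, 4, 7, 2, 3], .l [6, 4], .l [1, 5], .y [1, 6], .l [1, 6, 5], .l [9, 7, 2, 7, 2], .l [9, 7], .l [1, 8], .l [1, 8], .l [11, 9, 2, 9, 4], .l [11, 9], .l [1, 10]]),
([s 3 1, m 0 2, g, p 0 3, g, p 4 0, g, p 5 4, g, p 6 5, g, p 7 6, g, m 2 0, g, p 8 7, g, p 0 8, g, m 1 0, g], .hi 5, [.l [5, 3], .l [7, 3, 14, 8, 11], .l [5, 4, 20, 15, 17, 15, 15, 13, 13, 11, 11, 9, 11, 9, 7, 5, 5, 3], .l [7, 3], .l [3, 2, 18, 15, 15, 13, 13, 11, 11, 9, 9, 7, 9, 7, 5, 3, 3, 1], .l [7, 1, 20, 13, 16, 2, 7], .l [11, 13, 12, 12, 10, 10, 8, 8, 6, 14, 9, 12, 2, 7, 9, 7, 7, 5], .l [7, 1], .l [7, 1, 8, 6, 18,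 13, 16, 2, 7], .l [5, 6], .l [7, 1], .l [9, 3, 3, 1, 8, 6, 16, 11, 14, 2, 7], .l [5, 8], .l [9, 3], .l [11, 5, 5, 3, 3, 1, 8, 6, 14, 9, 12, 2, 7], .l [5, 10], .l [11, 5], .l [13, 7, 7, 5, 5, 3, 3, 1, 10, 8, 12, 7, 10, 2, 7], .l [5, 12], .l [13, 7], .l [15, 9, 9, 7, 7, 5, 5, 3, 14, 5, 8, 2, 9], .l [5, 14], .l [15, 9], .l [17, 11, 11, 9, 9, 7, 7, 5, 14, 3, 6, 2, 9], .l [5, 16], .l [17, 11], .y [5, 17, 15, 11, 9, 7], .l [19, 13, 13, 11, 11, 9, 9, 7, 14, 1, 4, 2, 9], .l [5, 18], .l [19, 13], .l [21, 15, 15, 13, 13, 11, 11, 9, 14, 6, 1, 8, 6, 2, 7], .l [5, 20], .l [21, 15]]),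
([s 3 1, m 0 2, g, p 0 3, g, p 4 0, g, p 5 4, g, p 6 5, g, m 2 0, p 7 6, g, p 0 7, g, m 1 0, g], .hi 5, [.l [5, 3], .l [7, 3, 12, 6, 9], .l [11, 14, 13, 13, 11, 11, 9, 9, 5, 7, 4, 9, 4, 6, 3], .l [7, 3], .l [9, 12, 11, 11, 9, 9, 7, 7, 5, 5, 2, 7, 4, 4, 1], .l [7, 1, 17, 10, 13, 2, 6], .r 4286 [1, 2, 3, 8, 4, 5, 6, 7] [1, 1, 1, 1, 1, 1, 0, 1, 1, 1], .l [7, 1], .l [7, 1, 8, 6, 15, 10, 13, 2, 6], .l [5, 6], .l [7, 1], .l [9, 3, 3, 1, 8, 6, 13, 8, 11, 2, 6], .l [5, 8], .l [9, 3], .l [11, 5, 5, 3, 3, 1, 9, 7, 11, 6, 9, 2, 6], .l [5, 10], .l [11, 5], .l [5, 13, 15, 13, 6], .l [5, 13], .l [14, 8], .y [5, 14, 12, 9, 7], .l [16, 10, 10, 8, 8, 6, 13, 1, 4, 2, 8], .l [5, 15], .l [16, 10], .l [18, 12, 12, 10, 10, 8, 13, 6, 1, 8,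 6, 2, 6], .l [5, 17], .l [18, 12]])]

def d16_3 : List (List Item × Qry × List Rf) := [
([s 3 1, m 0 2, g, p 0 3, g, p 4 0, g, p 5 4, g, m 2 0, p 6 5, g, p 0 6, g, m 1 0, g], .hi 5, [.l [5, 3], .l [7, 3, 10, 4, 7], .l [9, 12, 11, 11, 9, 9, 5, 7, 4, 9, 4, 6, 3], .l [7, 3], .l [7, 10, 9, 9, 7, 7, 5, 5, 2, 7, 4, 4, 1], .l [7, 1, 15, 8, 11, 2, 6], .r 4287 [1, 2, 3, 7, 4, 5, 6] [1, 1, 1, 1, 1, 1, 1, 1], .l [7, 1], .l [7, 1, 8, 6, 13, 8, 11, 2, 6], .l [5, 6], .l [7, 1], .l [9, 3, 3, 1, 9, 7, 11, 6, 9, 2, 6], .l [5, 8], .l [9, 3], .l [5, 11, 13, 11, 4], .l [5, 11], .l [12, 6], .y [5, 12, 10, 7], .l [14, 8, 8, 6, 13, 1, 4, 2, 8], .l [5, 13], .l [14, 8], .l [16, 10, 10, 8, 13, 6, 1, 8, 6, 2, 6], .l [5, 15], .l [16, 10]]),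
([s 3 1, m 0 2, g, p 0 3, g, p 4 0, g, m 2 0, p 5 4, g, p 0 5, g, m 1 0, g], .hi 5, [.l [5, 3], .l [7, 3, 8, 2, 5], .l [7, 10, 9, 9, 5, 7, 4, 9, 4, 6, 3], .l [7, 3], .l [5, 8, 7, 7, 5, 5, 2, 7, 4, 4, 1], .l [7, 1, 13, 6, 9, 2, 6], .r 4288 [1, 2, 3, 6, 4, 5] [1, 1, 1, 1, 1, 1, 1], .l [7, 1], .l [7, 1, 9, 7, 11, 6, 9, 2, 6], .l [5, 6], .l [7, 1], .l [5, 9, 11, 9, 2], .l [5, 9], .l [10, 4], .y [5, 10, 8], .l [12, 6, 13, 1, 4, 2, 8], .l [5, 11], .l [12, 6], .l [14, 8, 13, 6, 1, 8, 6, 2, 6], .l [5, 13], .l [14, 8]]),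
([s 4 1, m 3 2, g, s 0 3, g, p 0 4, g, m 2 0, p 5 0, g, p 0 5, g, m 1 0, g], .hi 8, [.l [10, 6, 3, 7, 2], .l [7, 10, 5, 9, 6, 11, 4, 8, 5], .l [10, 6], .l [1, 2, 7, 4, 1, 3, 0], .l [10, 4, 1, 7, 4], .l [7, 10, 7, 9, 4, 11, 6, 8, 3], .l [10, 4], .l [5, 8, 7, 7, 2, 9, 6, 6, 1], .l [10, 2, 13, 3, 8, 4, 8], .r 4289 [1, 2, 4, 6, 5] [3, 1, 1, 1, 1, 1], .l [10, 2], .l [3, 1, 9, 1, 9, 7, 4], .l [8, 9], .l [10, 1], .y [8, 10], .l [8, 11, 8, 4, 6, 8, 1], .l [8, 11], .l [12, 3], .l [8, 13, 10, 4, 6, 10, 3], .l [8, 13], .l [14, 5]]),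
([s 4 1, m 3 2, g, s 0 3, g, p 0 4, g, m 2 0, p 0 0, g, m 1 0, g], .lo 8, [.l [3, 9, 6], .l [3, 9], .l [3, 0, 9, 6], .l [5, 9, 4], .l [5, 9], .l [5, 0, 9, 4], .l [5, 4, 11, 6, 10, 6, 7], .l [7, 9], .l [7, 0, 9, 2], .l [3, 1, 9, 3, 0, 6, 3], .y [8], .l [5, 4, 11, 6, 10, 8, 1], .r 4290 [1, 2, 3, 4, 5] [1, 1, 1, 1, 1, 1], .l [5, 4, 11, 6, 10, 8, 1], .l [5, 4, 9, 4, 8, 6, 1], .l [5, 4, 9, 4, 8, 6, 7], .l [3, 1, 9, 6, 9, 2, 5, 2, 5], .l [5, 4, 9, 4, 8, 6, 7]]),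
([s 3 1, m 0 2, g, p 0 3, g, m 2 0, p 0 0, g, m 1 0, g], .lo 1, [.r 4291 [1, 2, 4, 3] [1, 1, 1, 1, 1], .l [3, 1], .l [1, 2], .l [5, 3, 6, 2, 3], .l [5, 3], .l [1, 4], .y [1, 5], .l [6, 4], .l [8, 6, 1, 5, 2], .l [8, 6], .l [1, 7], .l [1, 7], .l [10, 8, 1, 7, 4], .l [10, 8], .l [1, 9]]),
([s 4 1, m 3 2, g, s 0 3, g, p 0 4, g, m 2 0, m 1 0, g], .hi 8, [.l [3, 9, 6], .l [3, 0, 9, 6], .l [3, 9], .l [1, 2, 2, 5, 4], .l [5, 9, 4], .l [5, 0, 9, 4], .l [5, 9], .y [0, 8, 5], .l [5, 4, 9, 4, 8, 4, 5], .l [7, 0, 9, 2], .l [7, 9], .l [5, 4, 7, 2, 6, 4, 5], .l [5, 4, 7, 2, 6, 4, 5], .l [3, 1, 7, 4, 7, 2, 3, 0, 3]]),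
([s 3 1, m 0 2, g, p 0 3, g, m 2 0, m 1 0, g], .lo 1, [.r 4293 [1, 2, 4, 3] [1, 1, 1, 1], .l [3, 1], .l [1, 2], .l [5, 3, 6, 2, 3], .l [5, 3], .l [1, 4], .y [1, 5], .l [1, 5], .l [8, 6, 1, 5, 2], .l [8, 6], .l [1, 7]]),
([s 3 1, m 0 2, s 0 0, g, p 0 3, g, m 2 0, g, m 1 0, g], .top 7, [.r 4294 [1, 2, 3] [2, 1, 1], .r 4285 [1, 2, 3] [1, 1, 1, 1], .r 4292 [1, 2, 3] [2, 1, 1, 1], .r 4258 [1, 2, 3] [2, 1, 1, 1]]),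
([s 0 1, m 0 2, s 0 0, g, m 2 0, g, m 1 0, g], .lo 0, [.l [1], .l [3], .r 4295 [1, 2, 3] [1, 1, 1, 1], .l [3], .l [3], .l [5], .r 4247 [1, 2, 3] [1, 1, 1, 1], .l [5], .y [0, 6], .l [7], .R 4103 [3, 2, 1] [2, 1, 1, 1], .l [7]]),
([s 0 0, p 1 0, s 0 0, g, p 0 1, g], .lo 0, [.y [0], .R 4241 [2, 1] [1, 1], .l [1], .l [3], .R 4188 [2, 1] [1, 1, 1], .l [3], .l [5], .R 4296 [2, 1] [1, 1, 1], .l [5]]),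
([s 2 1, p 4 2, m 3 0, g, s 0 3, g, m 1 0, g, p 0 4, g], .hi 2, [.l [1, 0, 7, 6, 1], .l [1, 0, 7, 6, 1], .l [2, 5, 9, 1, 8, 3, 0, 4, 3], .y [2, 4], .l [1, 0, 7, 6, 3], .l [1, 0, 7, 6, 3], .l [4, 1, 5, 3, 0], .l [1, 0, 5, 4, 5], .l [1, 0, 5, 4, 5], .l [4, 1, 7, 5, 0], .l [1, 0, 5, 4, 5], .l [1, 0, 5, 4, 7], .l [1, 0, 5, 4, 7], .l [4, 1, 9, 7, 0]]),
([s 2 1, p 3 2, m 0 0, g, m 1 0, g, p 0 3, g], .lo 2, [.y [2], .r 4298 [1, 2, 4, 3] [1, 1, 1, 1], .l [4, 1], .l [2, 3], .l [2, 3], .l [6, 3, 7, 2, 4], .l [6, 3], .l [2, 5], .l [8, 5, 1, 5, 2], .l [8, 5], .l [2, 7]]),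
([s 6 1, m 5 2, p 4 3, g, p 0 4, g, s 3 0, g, s 0 5, g, p 0 6, g, m 2 7, g, s 7 0, g, m 1 0, g], .lo 4, [.l [15, 11, 1, 7, 11, 2, 13, 2, 9, 1, 8, 3], .l [4, 5], .l [2, 7, 3, 1, 1, 3, 4], .l [13, 9, 1, 12, 1, 3, 9, 7, 2, 10, 8, 5], .l [2, 7, 17, 11, 11, 5, 10, 8, 10, 2, 3, 9, 7], .l [12, 8, 1, 13, 2, 4, 10, 8, 3], .y [2, 6, 4], .l [13, 9, 3, 12, 1, 3, 7, 5, 2, 10, 8, 5], .l [3, 14, 11, 1, 11, 3, 1, 7, 12, 4, 7], .l [12, 8, 3, 13, 2, 4, 8, 6, 3], .l [13, 9, 5, 12, 1, 3, 5, 3, 6, 10, 4, 1], .l [3, 14, 11, 1, 11, 5, 1, 8, 5], .l [12, 8, 5, 13, 2, 4, 6, 4, 7], .l [3, 4, 2, 16, 14, 7, 9, 12, 3], .l [1, 7, 11, 7, 15, 12, 12, 9, 1, 10, 5], .l [10, 9, 17, 7, 16, 12, 14, 4, 4, 2, 5], .l [3, 10, 6, 11, 3, 10, 14, 8, 1], .l [2, 5,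 17, 13, 13, 7, 12, 10, 12, 2, 3, 1, 7], .l [1, 7, 3, 11, 15, 8, 3], .l [3, 4, 2, 5, 7, 2, 11, 8, 5, 5, 3, 7, 3], .l [3, 10, 6, 13, 5, 12, 14, 8, 3], .l [2, 5, 17, 13, 13, 7, 12, 10, 12, 2, 3, 1, 5], .l [1, 7, 3, 13, 15, 6, 3], .l [1, 7, 3, 13, 13, 4, 3], .l [11, 18, 10, 16, 12, 1, 5, 11, 2, 8, 6, 3], .l [10, 9, 15, 5, 14, 12, 14, 4, 4, 2, 5], .l [2, 5, 1, 15, 9, 10, 12]]),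
([s 6 1, m 5 2, p 4 3, g, p 0 4, g, s 3 0, g, s 0 5, g, p 0 6, g, m 2 7, g, m 1 0, g, s 7 0, g], .lo 4, [.l [3, 16, 12, 1, 1, 11, 6, 10, 1, 6, 8, 1, 4, 5], .l [4, 5], .l [2, 7, 3, 1, 1, 3, 4], .l [13, 9, 1, 12, 1, 3, 9, 7, 2, 8, 6, 7], .l [2, 7, 15, 9, 9, 3, 8, 6, 8, 2, 3, 7, 5], .l [12, 8, 1, 13, 2, 4, 10, 8, 3], .y [2, 6, 4], .l [13, 9, 3, 12, 1, 3, 7, 5, 2, 8, 6, 7], .l [3, 14, 11, 1, 11, 3, 1, 7, 10, 2, 5], .l [12, 8, 3, 13, 2, 4, 8, 6, 3], .l [13, 9, 5, 12, 1, 3, 5, 3, 6, 8, 2, 7], .l [3, 14, 11, 1, 11, 5, 1, 8, 5], .l [12, 8, 5, 13, 2, 4, 6, 4, 7], .l [3, 4, 2, 14, 12, 7, 9, 10, 1], .l [1, 7, 11, 7, 13, 10, 10, 7, 1, 8, 3], .l [10, 9, 15, 5, 14, 10, 12, 4, 4, 2, 5], .l [3, 10, 6, 11, 3, 10, 12, 6, 1], .l [2, 5,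 15, 11, 11, 5, 10, 8, 10, 2, 3, 1, 5], .l [1, 7, 3, 11, 13, 6, 3], .l [1, 7, 3, 11, 11, 4, 3], .l [15, 18, 14, 16, 4, 7, 7, 5, 8, 10, 2, 3], .l [10, 9, 13, 3, 12, 10, 12, 4, 4, 2, 5], .l [2, 5, 1, 13, 7, 8, 10], .l [3, 4, 2, 5, 7, 2, 9, 6, 9, 9, 3, 7, 3], .l [11, 14, 2, 13, 15, 7, 7, 5, 8, 10, 2, 3], .l [10, 9, 13, 3, 12, 10, 14, 6, 6, 4, 7], .l [2, 5, 1, 15, 9, 10, 12]]),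
([s 6 1, m 5 2, p 4 3, g, p 0 4, g, s 3 0, g, s 0 5, g, p 0 6, g, m 2 0, g, m 1 0, g], .hi 12, [.l [3, 6, 4, 14, 12, 9, 9, 10, 1], .l [12, 11, 15, 3, 14, 12, 12, 2, 4, 2, 5], .l [4, 13], .l [10, 9, 13, 3, 12, 10, 10, 2, 2, 0, 3], .l [5, 16, 10, 7, 7, 8, 1], .l [2, 7, 1, 11, 9, 3, 4], .l [6, 13], .l [7, 16, 8, 5, 5, 6, 1], .l [1, 9, 1, 11, 13, 8, 11, 2, 3], .l [8, 13], .y [1, 12, 8], .l [9, 16, 6, 3, 3, 4, 1], .l [2, 5, 15, 11, 11, 3, 10, 8, 8, 4, 8, 4, 5], .l [10, 13], .l [2, 5, 13, 9, 9, 3, 8, 6, 6, 4, 6, 2, 3], .l [11, 16, 4, 1, 13, 9, 10], .l [2, 5, 15, 11, 11, 5, 12, 2, 3, 9, 1, 5, 3], .l [12, 13], .r 4300 [1, 2, 3, 4, 5, 6, 7] [1, 1, 1, 1, 1, 1, 1, 1], .l [6, 3, 9, 3, 13, 9, 2, 5, 2, 2, 7, 3, 5], .l [2, 5, 15, 11,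 11, 5, 10, 8, 8, 6, 8, 2, 3], .r 4301 [1, 2, 3, 4, 5, 6, 7] [1, 1, 1, 1, 1, 1, 1, 1], .l [1, 7, 1, 3, 7, 2, 9, 6, 1, 7, 3, 3, 5], .l [2, 5, 13, 9, 9, 3, 8, 6, 10, 3, 1, 2, 3]]),
([s 5 1, m 4 2, p 3 0, g, p 0 3, g, s 0 4, g, p 0 5, g, m 2 0, g, m 1 0, g], .hi 2, [.l [4, 1, 5, 3, 4], .l [2, 3], .l [4, 1], .y [2, 4], .r 4302 [1, 2, 6, 3, 4, 5] [1, 1, 1, 1, 1, 1, 1], .l [2, 5], .l [6, 3], .l [6, 3, 9, 4, 5, 0, 5], .l [8, 5, 11, 4, 7, 2, 7], .l [2, 7], .l [8, 5], .l [2, 7], .l [10, 7, 7, 5, 10, 2, 5], .l [2, 9], .l [10, 7], .l [12, 9, 5, 9, 2], .l [2, 11], .l [12, 9], .l [14, 11, 5, 11, 4], .l [2, 13], .l [14, 11]]),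
([s 4 1, m 3 2, p 0 0, g, s 0 3, g, p 0 4, g, m 2 0, g, m 1 0, g], .lo 2, [.y [2], .l [6, 4, 1], .r 4303 [1, 2, 5, 3, 4] [1, 1, 1, 1, 1, 1], .l [6, 4, 1], .l [4, 2, 4], .l [1, 3, 7, 4, 9, 4, 5], .l [4, 2, 4], .l [4, 2, 6], .l [1, 3, 11, 8, 8, 5, 1, 6, 3], .l [4, 2, 6], .l [4, 2, 6], .l [4, 2, 8], .l [6, 12, 5, 9, 2, 4, 8, 6, 3], .l [4, 2, 8], .l [4, 2, 8], .l [4, 2, 10], .l [6, 5, 9, 3, 8, 6, 8, 2, 3], .l [4, 2, 10]]),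
([s 3 1, m 0 2, p 0 0, g, p 0 3, g, m 2 0, g, m 1 0, g], .lo 1, [.l [2, 0], .r 4304 [1, 2, 4, 3] [1, 1, 1, 1, 1], .l [4, 2], .l [1, 3], .l [6, 4, 7, 2, 3], .l [6, 4], .l [1, 5], .y [1, 6], .l [8, 6, 2, 6, 1], .l [8, 6], .l [1, 7], .l [1, 7], .l [10, 8, 2, 8, 3], .l [10, 8], .l [1, 9]]),
([s 0 1, p 2 0, m 0 0, g, m 1 0, g, p 0 2, g], .lo 0, [.r 4299 [1, 3, 2] [1, 1, 1], .l [1], .l [3], .r 4157 [1, 3, 2] [2, 1, 1, 1], .l [3], .y [0, 4], .l [5], .R 4194 [3, 2, 1] [2, 1, 1, 1], .l [5], .l [7], .R 4305 [3, 2, 1] [1, 1, 1, 1], .l [7]]),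
([s 3 1, m 4 2, p 0 0, g, m 2 0, g, p 0 3, g, s 0 4, g, m 1 0, g], .lo 2, [.y [2], .l [10, 8, 1], .l [2, 8, 5, 1, 5, 6, 8, 2, 3], .l [1, 9, 7, 1, 3, 6, 1], .l [1, 7, 5, 1, 1, 4, 1], .l [10, 8, 3], .l [2, 8, 5, 9, 2, 4, 8, 6, 3], .l [10, 8, 3], .l [10, 8, 5], .l [2, 12, 9, 1, 8, 5, 1, 6, 3], .l [10, 8, 5], .l [8, 6, 8], .l [8, 6, 6, 3, 8, 2, 5], .l [8, 6, 8], .l [8, 6, 8], .l [8, 6, 10], .l [6, 5, 9, 3, 10, 2, 7], .l [8, 6, 10]]),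
([s 3 1, m 0 2, p 0 0, g, m 2 0, g, p 0 3, g, m 1 0, g], .lo 1, [.l [2, 0], .l [4, 2, 7, 3, 8, 4, 5], .l [4, 2], .l [1, 3], .y [1, 4], .l [6, 4, 7, 1, 8, 6, 1], .l [6, 4], .l [1, 5], .r 4307 [1, 2, 3, 4] [1, 1, 1, 1, 1], .l [8, 6], .l [1, 7], .l [1, 7], .l [10, 8, 9, 4, 1, 2, 3], .l [10, 8], .l [1, 9]]),
([s 2 1, p 3 2, m 4 0, g, p 0 3, g, m 1 0, g, s 0 4, g], .hi 2, [.l [1, 0, 7, 6, 1], .l [1, 0, 7, 6, 1], .l [1, 0, 9, 7, 8, 4, 1, 2, 3], .l [1, 0, 5, 4, 1], .l [1, 0, 7, 6, 3], .l [1, 0, 7, 6, 3], .l [4, 1, 6, 3, 0, 2, 5], .l [1, 0, 5, 4, 5], .l [1, 0, 5, 4, 5], .l [1, 0, 9, 7, 3, 6, 1], .y [2, 8], .l [1, 0, 5, 4, 7], .l [1, 0, 5, 4, 7], .l [8, 5, 6, 4, 8, 4, 1]]),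
([s 2 1, p 3 2, m 0 0, g, p 0 3, g, m 1 0, g], .lo 2, [.y [2], .l [4, 1, 7, 3, 4, 0, 1], .l [4, 1], .l [2, 3], .l [6, 3, 7, 1, 2, 0, 3], .l [6, 3], .l [2, 5], .l [2, 5], .r 4309 [1, 2, 3, 4] [1, 1, 1, 1], .l [8, 5], .l [2, 7]]),
([s 0 1, p 2 0, m 0 0, g, p 0 2, g, m 1 0, g], .lo 0, [.r 4310 [1, 3, 2] [1, 1, 1], .l [1], .l [3], .r 4083 [1, 3, 2] [2, 1, 1, 1], .l [3], .l [5], .r 4103 [1, 2, 3] [2, 1, 1, 1], .l [5], .y [0, 6], .l [7], .R 4308 [3, 2, 1] [1, 1, 1, 1], .l [7]]),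
([s 2 1, p 5 2, m 1 3, g, m 3 4, g, p 0 5, g, m 4 6, g, m 6 0, g], .hi 10, [.l [3, 6, 4, 0, 3, 2, 7], .l [3, 6, 4, 0, 3, 2, 7], .l [4, 11], .l [5, 10, 8, 8, 6, 0, 5, 4, 5], .l [5, 10, 8, 8, 6, 0, 5, 4, 5], .l [6, 11], .y [0, 2, 4, 8, 10, 6, 1], .l [7, 10, 6, 6, 4, 0, 3, 2, 5], .l [7, 10, 6, 6, 4, 0, 3, 2, 5], .l [8, 11], .l [9, 12, 10, 10, 6, 6, 4, 0, 3, 2, 1], .l [9, 12, 10, 10, 6, 6, 4, 0, 3, 2, 1], .l [10, 11], .l [9, 10, 8, 8, 4, 4, 2, 0, 1, 0, 3], .l [9, 10, 8, 8, 4, 4, 2, 0, 1, 0, 3], .l [9, 1, 5, 9, 3, 1, 3, 7, 5, 0, 1]]),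
([s 2 1, p 5 2, m 1 3, g, m 3 4, g, p 0 5, g, m 4 0, g], .hi 8, [.l [3, 6, 4, 0, 3, 2, 5], .l [3, 6, 4, 0, 3, 2, 5], .l [4, 9], .l [5, 10, 8, 8, 6, 0, 5, 4, 3], .l [5, 10, 8, 8, 6, 0, 5, 4, 3], .l [6, 9], .y [0, 2, 4, 8, 6, 1], .l [7, 10, 6, 6, 4, 0, 3, 2, 1], .l [7, 10, 6, 6, 4, 0, 3, 2, 1], .l [8, 9], .l [7, 8, 4, 4, 2, 0, 1, 0, 3], .l [7, 8, 4, 4, 2, 0, 1, 0, 3], .r 4312 [1, 2, 3, 4, 5, 6] [1, 1, 1, 1, 1]]),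
([s 2 1, p 4 2, m 1 3, g, m 3 0, g, p 0 4, g], .hi 4, [.l [3, 6, 4, 0, 3, 2, 1], .l [3, 6, 4, 0, 3, 2, 1], .l [4, 5], .l [3, 4, 2, 0, 1, 0, 1], .l [3, 4, 2, 0, 1, 0, 1], .l [3, 8, 5, 1, 5, 3, 4, 0, 1], .y [0, 2, 4, 6, 1], .l [3, 4, 2, 0, 1, 0, 3], .l [3, 4, 2, 0, 1, 0, 3], .r 4313 [1, 2, 3, 5, 4] [1, 1, 1, 1]]),
([s 2 1, p 3 2, m 1 0, g, p 0 3, g], .hi 2, [.l [1, 0, 1, 0, 1], .l [1, 0, 1, 0, 1], .r 4314 [1, 2, 4, 3] [1, 1, 1], .y [0, 2, 4, 1], .l [1, 0, 1, 0, 3], .l [1, 0, 1, 0, 3], .l [4, 1, 6, 3, 0, 2, 1]]),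
([s 0 1, p 2 0, m 1 0, g, p 0 2, g], .hi 1, [.r 4315 [1, 3, 2] [1, 1], .l [4, 2, 5, 2, 3], .l [1, 3], .l [4, 2], .y [1, 4], .l [6, 4, 0, 4, 1], .l [1, 5], .l [6, 4]]),
([s 0 0, m 0 1, p 0 0, g, m 1 0, g], .lo 0, [.y [0], .R 4316 [2, 1] [1, 1], .l [3], .R 4306 [2, 1] [1, 1, 1], .l [3], .l [3], .l [5], .R 4311 [2, 1] [1, 1, 1], .l [5]]),
([s 3 1, m 4 2, m 2 0, g, p 0 3, g, s 0 4, g, m 1 0, g], .hi 2, [.l [8, 6, 1], .l [8, 6, 1], .l [2, 6, 3, 7, 2, 4, 6, 4, 1], .l [6, 4, 1], .l [8, 6, 3], .l [8, 6, 3], .l [8, 6, 6, 5, 1, 4, 1], .y [1, 2, 6], .l [6, 4, 6], .l [6, 4, 6], .l [6, 4, 4, 3, 6, 2, 3], .l [6, 4, 8], .l [6, 4, 8], .l [4, 3, 7, 3, 8, 2, 5]]),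
([s 3 1, m 0 2, m 2 0, g, p 0 3, g, m 1 0, g], .lo 1, [.c, .l [4, 2, 5, 1, 6, 4, 1], .l [4, 2], .l [1, 3], .r 4318 [1, 2, 3, 4] [1, 1, 1, 1], .l [6, 4], .l [1, 5], .l [1, 5], .l [8, 6, 7, 4, 1, 2, 3], .l [8, 6], .l [1, 7]]),
([s 2 1, p 3 2, p 4 3, g, p 5 4, g, p 6 5, g, p 7 6, g, m 1 0, g, p 8 7, g, p 0 8, g], .hi 10, [.l [3, 6, 4, 0, 9, 8, 7], .l [3, 6, 4, 0, 9, 8, 7], .l [4, 11], .l [5, 8, 6, 6, 4, 0, 7, 6, 5], .l [5, 8, 6, 6, 4, 0, 7, 6, 5], .l [6, 11], .l [7, 10, 8, 8, 6, 6, 4, 0, 5, 4, 3], .l [7, 10, 8, 8, 6, 6, 4, 0, 5, 4, 3], .l [8, 11], .l [9, 14, 12, 12, 10, 10, 8, 8, 6, 0, 3, 2, 1], .l [1, 0, 11, 10, 10, 9, 9, 7, 7, 5, 5, 3, 5, 1, 3, 1, 3, 1], .l [10, 11], .l [9, 14, 12, 12, 10, 10, 8, 8, 6, 0, 1, 0, 1], .l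 [9, 14, 12, 12, 10, 10, 8, 8, 6, 0, 1, 0, 1], .l [10, 14, 11, 9, 11, 13, 11, 11, 9, 9, 7, 7, 5, 0, 2, 1, 3, 1], .l [9, 12, 10, 10, 8, 8, 6, 6, 4, 0, 1, 0, 3], .l [9, 12, 10, 10, 8, 8, 6, 6, 4, 0, 1, 0, 3], .l [1, 0, 9, 8, 8, 7, 7, 5, 5, 3, 3, 1, 3, 1, 3, 1, 3, 1], .y [0, 10, 14, 12, 8, 6, 4, 2, 1], .l [9, 12, 10, 10, 8, 8, 6, 6, 4, 0, 1, 0, 5], .l [9, 12, 10, 10, 8, 8, 6, 6, 4, 0, 1, 0, 5], .l [1, 0, 9, 8, 8, 7, 7, 5, 5, 3, 3, 1, 3, 1, 5, 3, 3, 1]]),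
([s 2 1, p 3 2, p 4 3, g, p 5 4, g, p 6 5, g, p 7 6, g, m 1 0, g, p 0 7, g], .lo 12, [.l [3, 6, 4, 0, 9, 8, 9], .l [4, 13], .l [3, 6, 4, 0, 9, 8, 9], .l [5, 8, 6, 6, 4, 0, 7, 6, 7], .l [6, 13], .l [5, 8, 6, 6, 4, 0, 7, 6, 7], .l [7, 10, 8, 8, 6, 6, 4, 0, 5, 4, 5], .l [8, 13], .l [7, 10, 8, 8, 6, 6, 4, 0, 5, 4, 5], .l [9, 14, 12, 12, 10, 10, 8, 8, 6, 0, 3, 2, 3], .l [10, 13], .l [9, 14, 12, 12, 10, 10, 8, 8, 6, 0, 3, 2, 3], .y [0, 10, 12, 8, 6, 4, 2, 1], .l [11, 14, 10, 10, 8, 8, 6, 6, 4, 0, 5, 4, 1], .l [12, 13], .l [11, 14, 10, 10, 8, 8, 6, 6, 4, 0, 5, 4, 1], .l [11, 12, 8, 8, 6, 6, 4, 4, 2, 0, 3, 2, 3], .r 4320 [1, 2, 3, 4, 5, 6, 7, 8] [1, 1, 1, 1, 1, 1, 1], .l [11, 12, 8, 8, 6, 6, 4, 4, 2, 0, 3, 2, 3]]),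
([s 2 1, p 3 2, p 4 3, g, p 5 4, g, p 6 5, g, p 7 6, g, p 8 7, g, p 0 8, g, m 1 0, g], .lo 12, [.l [3, 6, 4, 0, 13, 12, 9], .l [4, 13], .l [1, 0, 15, 14, 14, 13, 13, 9, 9, 7, 7, 5, 5, 3, 3, 1, 3, 1], .l [5, 8, 6, 6, 4, 0, 11, 10, 7], .l [6, 13], .l [1, 0, 15, 14, 14, 13, 13, 11, 11, 7, 7, 5, 5, 3, 3, 1, 3, 1], .l [7, 10, 8, 8, 6, 6, 4, 0, 9, 8, 5], .l [8, 13], .l [1, 0, 15, 14, 14, 13, 13, 11, 11, 9, 9, 5, 5, 3, 3, 1, 3, 1], .l [9, 12, 10, 10, 8, 8, 6, 6, 4, 0, 7, 6, 3], .l [10, 13], .l [1, 0, 15, 14, 14, 13, 13, 11, 11, 9, 9, 7, 7, 3, 3, 1, 3, 1], .l [11, 14, 12, 12, 10, 10, 8, 8, 6, 6, 4, 0, 5, 4, 1], .l [12, 13], .l [1, 0, 15, 14, 14, 13, 13, 11, 11, 9, 9, 7, 7, 5, 5, 1, 3, 1], .l [11, 12, 10, 10, 8, 8, 6, 6, 4, 4,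 2, 0, 5, 4, 1], .l [1, 0, 15, 14, 14, 13, 13, 11, 11, 9, 9, 7, 7, 5, 5, 3, 3, 1], .l [11, 12, 10, 10, 8, 8, 6, 6, 4, 4, 2, 0, 5, 4, 1], .y [0, 14, 12, 10, 8, 6, 4, 2, 1], .l [11, 12, 10, 10, 8, 8, 6, 6, 4, 4, 2, 0, 3, 2, 3], .l [1, 0, 13, 12, 12, 11, 11, 9, 9, 7, 7, 5, 5, 3, 3, 1, 3, 1], .l [1, 0, 13, 12, 12, 11, 11, 9, 9, 7, 7, 5, 5, 3, 3, 1, 1, 1]]),
([s 2 1, p 3 2, p 4 3, g, p 5 4, g, p 6 5, g, p 7 6, g, p 8 7, g, m 1 0, g, p 0 8, g], .hi 12, [.l [3, 6, 4, 0, 11, 10, 9], .l [1, 0, 13, 12, 12, 11, 11, 7, 7, 5, 5, 3, 3, 1, 5, 3, 3, 1], .l [4, 13], .l [5, 8, 6, 6, 4, 0, 9, 8, 7], .l [1, 0, 13, 12, 12, 11, 11, 9, 9, 5, 5, 3, 3, 1, 5, 3, 3, 1], .l [6, 13], .l [7, 10, 8, 8, 6, 6, 4, 0, 7, 6, 5], .l [1, 0, 13, 12, 12, 11,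 11, 9, 9, 7, 7, 3, 3, 1, 5, 3, 3, 1], .l [8, 13], .l [9, 12, 10, 10, 8, 8, 6, 6, 4, 0, 5, 4, 3], .l [1, 0, 13, 12, 12, 11, 11, 9, 9, 7, 7, 5, 5, 1, 5, 3, 3, 1], .l [10, 13], .l [11, 16, 14, 14, 12, 12, 10, 10, 8, 8, 6, 0, 3, 2, 1], .l [1, 0, 13, 12, 12, 11, 11, 9, 9, 7, 7, 5, 5, 3, 5, 1, 3, 1], .l [12, 13], .l [11, 16, 14, 14, 12, 12, 10, 10, 8, 8, 6, 0, 1, 0, 1], .l [11, 16, 14, 14, 12, 12, 10, 10, 8, 8, 6, 0, 1, 0, 1], .l [1, 0, 11, 10, 10, 9, 9, 7, 7, 5, 5, 3, 3, 1, 5, 3, 3, 1], .y [0, 12, 14, 10, 8, 6, 4, 2, 1], .l [11, 14, 12, 12, 10, 10, 8, 8, 6, 6, 4, 0, 1, 0, 3], .l [1, 0, 11, 10, 10, 9, 9, 7, 7, 5, 5, 3, 3, 1, 3, 1, 1, 1], .l [1, 0, 11, 10, 10, 9, 9, 7, 7, 5, 5, 3, 3, 1, 3, 1, 3, 1]]),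
([s 2 1, p 3 2, p 4 3, g, p 5 4, g, p 6 5, g, p 7 6, g, p 0 7, g, m 1 0, g], .lo 10, [.l [3, 6, 4, 0, 11, 10, 7], .l [4, 11], .l [3, 6, 4, 0, 11, 10, 7], .l [5, 8, 6, 6, 4, 0, 9, 8, 5], .l [6, 11], .l [5, 8, 6, 6, 4, 0, 9, 8, 5], .l [7, 10, 8, 8, 6, 6, 4, 0, 7, 6, 3], .l [8, 11], .l [7, 10, 8, 8, 6, 6, 4, 0, 7, 6, 3], .l [9, 12, 10, 10, 8, 8, 6, 6, 4, 0, 5, 4, 1], .l [10, 11], .l [9, 12, 10, 10, 8, 8, 6, 6, 4, 0, 5, 4, 1], .l [9, 10, 8, 8, 6, 6, 4, 4, 2, 0, 5, 4, 1], .r 4322 [1, 2, 3, 4, 5, 6, 7, 8] [1, 1, 1, 1, 1, 1, 1], .l [9, 10, 8, 8, 6, 6, 4, 4, 2, 0, 5, 4, 1], .y [0, 12, 10, 8, 6, 4, 2, 1], .l [9, 10, 8, 8, 6, 6, 4, 4, 2, 0, 3, 2, 3], .r 4323 [1, 2, 3, 4, 5, 6, 7, 8] [1, 1, 1, 1, 1, 1, 1], .l [9, 10, 8, 8, 6, 6,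 4, 4, 2, 0, 3, 2, 3]]),
([s 2 1, p 3 2, p 4 3, g, p 5 4, g, p 6 5, g, p 0 6, g, m 1 0, g], .lo 8, [.l [3, 6, 4, 0, 9, 8, 5], .l [4, 9], .l [3, 6, 4, 0, 9, 8, 5], .l [5, 8, 6, 6, 4, 0, 7, 6, 3], .l [6, 9], .l [5, 8, 6, 6, 4, 0, 7, 6, 3], .l [7, 10, 8, 8, 6, 6, 4, 0, 5, 4, 1], .l [8, 9], .l [7, 10, 8, 8, 6, 6, 4, 0, 5, 4, 1], .l [7, 8, 6, 6, 4, 4, 2, 0, 5, 4, 1], .r 4324 [1, 2, 3, 4, 5, 6, 7] [1, 1, 1, 1, 1, 1], .l [7, 8, 6, 6, 4, 4, 2, 0, 5, 4, 1], .y [0, 10, 8, 6, 4, 2, 1], .l [7, 8, 6, 6, 4, 4, 2, 0, 3, 2, 3], .r 4321 [1, 2, 3, 4, 5, 6, 7] [1, 1, 1, 1, 1, 1], .l [7, 8, 6, 6, 4, 4, 2, 0, 3, 2, 3]]),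
([s 2 1, p 3 2, p 4 3, g, p 5 4, g, p 6 5, g, m 1 0, g, p 7 6, g, p 8 7, g, p 0 8, g], .hi 8, [.l [3, 6, 4, 0, 7, 6, 5], .l [3, 6, 4, 0, 7, 6, 5], .l [4, 9], .l [5, 8, 6, 6, 4, 0, 5, 4, 3], .l [5, 8, 6, 6, 4, 0, 5, 4, 3], .l [6, 9], .l [7, 12, 10, 10, 8, 8, 6, 0, 3, 2, 1], .l [7, 12, 10, 10, 8, 8, 6, 0, 3, 2, 1], .l [8, 9], .l [7, 12, 10, 10, 8, 8, 6, 0, 1, 0, 1], .l [7, 12, 10, 10, 8, 8, 6, 0, 1, 0, 1], .l [12, 14, 13, 13, 7, 7, 5, 5, 3, 0, 4, 3, 3, 1, 5, 3, 3, 1], .l [7, 10, 8, 8, 6, 6, 4, 0, 1, 0, 3], .l [7, 10, 8, 8, 6, 6, 4, 0, 1, 0, 3], .l [10, 14, 13, 13, 9, 7, 9, 11, 9, 9, 7, 7, 5, 0, 2, 1, 3, 1], .l [7, 10, 8, 8, 6, 6, 4, 0, 1, 0, 5], .l [7, 10, 8, 8, 6, 6, 4, 0, 1, 0, 5], .l [1, 0, 7, 6, 6, 5, 5, 3, 3, 1, 3,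 1, 5, 3, 3, 1, 3, 1], .y [0, 8, 14, 12, 10, 6, 4, 2, 1], .l [7, 10, 8, 8, 6, 6, 4, 0, 1, 0, 7], .l [7, 10, 8, 8, 6, 6, 4, 0, 1, 0, 7], .l [1, 0, 7, 6, 6, 5, 5, 3, 3, 1, 3, 1, 7, 5, 5, 3, 3, 1]]),
([s 2 1, p 3 2, p 4 3, g, p 5 4, g, p 6 5, g, m 1 0, g, p 7 6, g, p 0 7, g], .lo 12, [.l [3, 6, 4, 0, 7, 6, 9], .l [4, 13], .l [3, 6, 4, 0, 7, 6, 9], .l [5, 8, 6, 6, 4, 0, 5, 4, 7], .l [6, 13], .l [5, 8, 6, 6, 4, 0, 5, 4, 7], .l [7, 12, 10, 10, 8, 8, 6, 0, 3, 2, 5], .l [8, 13], .l [7, 12, 10, 10, 8, 8, 6, 0, 3, 2, 5], .y [0, 8, 12, 10, 6, 4, 2, 1], .l [9, 12, 8, 8, 6, 6, 4, 0, 5, 4, 5], .l [10, 13], .l [9, 12, 8, 8, 6, 6, 4, 0, 5, 4, 5], .l [11, 14, 12, 12, 8, 8, 6, 6, 4, 0, 5, 4, 1], .l [12, 13], .l [11, 14, 12, 12, 8, 8, 6,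 6, 4, 0, 5, 4, 1], .l [11, 12, 10, 10, 6, 6, 4, 4, 2, 0, 3, 2, 3], .r 4326 [1, 2, 3, 4, 5, 6, 7, 8] [1, 1, 1, 1, 1, 1, 1], .l [11, 12, 10, 10, 6, 6, 4, 4, 2, 0, 3, 2, 3]]),
([s 2 1, p 3 2, p 4 3, g, p 5 4, g, p 6 5, g, m 1 0, g, p 0 6, g], .lo 10, [.l [3, 6, 4, 0, 7, 6, 7], .l [4, 11], .l [3, 6, 4, 0, 7, 6, 7], .l [5, 8, 6, 6, 4, 0, 5, 4, 5], .l [6, 11], .l [5, 8, 6, 6, 4, 0, 5, 4, 5], .l [7, 12, 10, 10, 8, 8, 6, 0, 3, 2, 3], .l [8, 11], .l [7, 12, 10, 10, 8, 8, 6, 0, 3, 2, 3], .y [0, 8, 10, 6, 4, 2, 1], .l [9, 12, 8, 8, 6, 6, 4, 0, 5, 4, 1], .l [10, 11], .l [9, 12, 8, 8, 6, 6, 4, 0, 5, 4, 1], .l [9, 10, 6, 6, 4, 4, 2, 0, 3, 2, 3], .r 4327 [1, 2, 3, 4, 5, 6, 7] [1, 1, 1, 1, 1, 1], .l [9, 10, 6, 6, 4, 4, 2, 0, 3, 2, 3]]),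
([s 2 1, p 3 2, p 4 3, g, p 5 4, g, p 0 5, g, m 1 0, g], .lo 6, [.l [3, 6, 4, 0, 7, 6, 3], .l [4, 7], .l [3, 6, 4, 0, 7, 6, 3], .l [5, 8, 6, 6, 4, 0, 5, 4, 1], .l [6, 7], .l [5, 8, 6, 6, 4, 0, 5, 4, 1], .l [5, 6, 4, 4, 2, 0, 5, 4, 1], .r 4325 [1, 2, 3, 4, 5, 6] [1, 1, 1, 1, 1], .l [5, 6, 4, 4, 2, 0, 5, 4, 1], .y [0, 8, 6, 4, 2, 1], .l [5, 6, 4, 4, 2, 0, 3, 2, 3], .r 4328 [1, 2, 3, 4, 5, 6] [1, 1, 1, 1, 1], .l [5, 6, 4, 4, 2, 0, 3, 2, 3]]),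
([s 2 1, p 3 2, p 4 3, g, p 5 4, g, m 1 0, g, p 6 5, g, p 7 6, g, p 8 7, g, p 0 8, g], .hi 6, [.l [3, 6, 4, 0, 5, 4, 3], .l [3, 6, 4, 0, 5, 4, 3], .l [4, 7], .l [5, 10, 8, 8, 6, 0, 3, 2, 1], .l [5, 10, 8, 8, 6, 0, 3, 2, 1], .l [6, 7], .l [5, 10, 8, 8, 6, 0, 1, 0, 1], .l [5, 10, 8, 8, 6, 0, 1, 0, 1], .l [12, 14, 13, 13, 11, 11, 5, 5, 3, 0, 4, 3, 3, 1, 5, 3, 3, 1], .l [5, 8, 6, 6, 4, 0, 1, 0, 3], .l [5, 8, 6, 6, 4, 0, 1, 0, 3], .l [12, 14, 13, 13, 9, 9, 5, 5, 3, 0, 4, 3, 3, 1, 5, 3, 3, 1], .l [5, 8, 6, 6, 4, 0, 1, 0, 5], .l [5, 8, 6, 6, 4, 0, 1, 0, 5], .l [8, 12, 9, 11, 9, 9, 7, 0, 4, 3, 5, 1, 5, 1, 3, 1, 3, 1], .l [5, 8, 6, 6, 4, 0, 1, 0, 7], .l [5, 8, 6, 6, 4, 0, 1, 0, 7], .l [1, 0, 5, 4, 4, 3, 3, 1, 3, 1, 7, 5, 5, 3,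 3, 1, 3, 1], .y [0, 6, 14, 12, 10, 8, 4, 2, 1], .l [5, 8, 6, 6, 4, 0, 1, 0, 9], .l [5, 8, 6, 6, 4, 0, 1, 0, 9], .l [1, 0, 5, 4, 4, 3, 3, 1, 3, 1, 9, 7, 7, 5, 5, 3, 3, 1]]),
([s 2 1, p 3 2, p 4 3, g, p 5 4, g, m 1 0, g, p 6 5, g, p 7 6, g, p 0 7, g], .lo 12, [.l [3, 6, 4, 0, 5, 4, 9], .l [4, 13], .l [3, 6, 4, 0, 5, 4, 9], .l [5, 10, 8, 8, 6, 0, 3, 2, 7], .l [6, 13], .l [5, 10, 8, 8, 6, 0, 3, 2, 7], .y [0, 6, 12, 10, 8, 4, 2, 1], .l [7, 10, 6, 6, 4, 0, 5, 4, 7], .l [8, 13], .l [7, 10, 6, 6, 4, 0, 5, 4, 7], .l [9, 12, 10, 10, 6, 6, 4, 0, 5, 4, 5], .l [10, 13], .l [9, 12, 10, 10, 6, 6, 4, 0, 5, 4, 5], .l [11, 14, 12, 12, 10, 10, 6, 6, 4, 0, 5, 4, 1], .l [12, 13], .l [11, 14, 12, 12, 10, 10, 6, 6, 4, 0, 5, 4, 1], .l [11, 12,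 10, 10, 8, 8, 4, 4, 2, 0, 3, 2, 3], .r 4330 [1, 2, 3, 4, 5, 6, 7, 8] [1, 1, 1, 1, 1, 1, 1], .l [11, 12, 10, 10, 8, 8, 4, 4, 2, 0, 3, 2, 3]]),
([s 2 1, p 3 2, p 4 3, g, p 5 4, g, m 1 0, g, p 6 5, g, p 0 6, g], .lo 10, [.l [3, 6, 4, 0, 5, 4, 7], .l [4, 11], .l [3, 6, 4, 0, 5, 4, 7], .l [5, 10, 8, 8, 6, 0, 3, 2, 5], .l [6, 11], .l [5, 10, 8, 8, 6, 0, 3, 2, 5], .y [0, 6, 10, 8, 4, 2, 1], .l [7, 10, 6, 6, 4, 0, 5, 4, 5], .l [8, 11], .l [7, 10, 6, 6, 4, 0, 5, 4, 5], .l [9, 12, 10, 10, 6, 6, 4, 0, 5, 4, 1], .l [10, 11], .l [9, 12, 10, 10, 6, 6, 4, 0, 5, 4, 1], .l [9, 10, 8, 8, 4, 4, 2, 0, 3, 2, 3], .r 4331 [1, 2, 3, 4, 5, 6, 7] [1, 1, 1, 1, 1, 1], .l [9, 10, 8, 8, 4, 4, 2, 0, 3, 2, 3]]),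
([s 2 1, p 3 2, p 4 3, g, p 5 4, g, m 1 0, g, p 0 5, g], .lo 8, [.l [3, 6, 4, 0, 5, 4, 5], .l [4, 9], .l [3, 6, 4, 0, 5, 4, 5], .l [5, 10, 8, 8, 6, 0, 3, 2, 3], .l [6, 9], .l [5, 10, 8, 8, 6, 0, 3, 2, 3], .y [0, 6, 8, 4, 2, 1], .l [7, 10, 6, 6, 4, 0, 5, 4, 1], .l [8, 9], .l [7, 10, 6, 6, 4, 0, 5, 4, 1], .l [7, 8, 4, 4, 2, 0, 3, 2, 3], .r 4332 [1, 2, 3, 4, 5, 6] [1, 1, 1, 1, 1], .l [7, 8, 4, 4, 2, 0, 3, 2, 3]]),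
([s 2 1, p 3 2, p 4 3, g, p 0 4, g, m 1 0, g], .lo 4, [.l [3, 6, 4, 0, 5, 4, 1], .l [4, 5], .l [3, 6, 4, 0, 5, 4, 1], .l [3, 4, 2, 0, 5, 4, 1], .r 4329 [1, 2, 3, 4, 5] [1, 1, 1, 1], .l [3, 4, 2, 0, 5, 4, 1], .y [0, 6, 4, 2, 1], .l [3, 4, 2, 0, 3, 2, 3], .r 4333 [1, 2, 3, 4, 5] [1, 1, 1, 1], .l [3, 4, 2, 0, 3, 2, 3]]),
([s 2 1, p 3 2, p 4 3, g, m 1 0, g, p 5 4, g, p 6 5, g, p 7 6, g, p 8 7, g, p 0 8, g], .hi 4, [.l [3, 8, 6, 0, 3, 2, 1], .l [3, 8, 6, 0, 3, 2, 1], .l [4, 5], .l [3, 8, 6, 0, 1, 0, 1], .l [3, 8, 6, 0, 1, 0, 1], .l [12, 14, 13, 13, 11, 11, 9, 9, 3, 0, 4, 3, 3, 1, 5, 3, 3, 1], .l [3, 6, 4, 0, 1, 0, 3], .l [3, 6, 4, 0, 1, 0, 3], .l [12, 14, 13, 13, 11, 11, 7, 7, 3, 0, 4, 3, 3, 1, 5, 3, 3, 1], .l [3, 6, 4, 0,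 1, 0, 5], .l [3, 6, 4, 0, 1, 0, 5], .l [10, 12, 9, 11, 7, 9, 7, 0, 4, 3, 5, 1, 5, 1, 3, 1, 3, 1], .l [3, 6, 4, 0, 1, 0, 7], .l [3, 6, 4, 0, 1, 0, 7], .l [6, 12, 9, 5, 9, 11, 7, 5, 3, 0, 6, 5, 5, 3, 3, 1, 3, 1], .l [3, 6, 4, 0, 1, 0, 9], .l [3, 6, 4, 0, 1, 0, 9], .l [1, 0, 3, 2, 2, 1, 3, 1, 9, 7, 7, 5, 5, 3, 3, 1, 3, 1], .y [0, 4, 14, 12, 10, 8, 6, 2, 1], .l [3, 6, 4, 0, 1, 0, 11], .l [3, 6, 4, 0, 1, 0, 11], .l [1, 0, 3, 2, 2, 1, 3, 1, 11, 9, 9, 7, 7, 5, 5, 3, 3, 1]]),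
([s 2 1, p 3 2, p 4 3, g, m 1 0, g, p 5 4, g, p 6 5, g, p 7 6, g, p 0 7, g], .lo 12, [.l [3, 8, 6, 0, 3, 2, 9], .l [4, 13], .l [3, 8, 6, 0, 3, 2, 9], .y [0, 4, 12, 10, 8, 6, 2, 1], .l [5, 8, 4, 0, 5, 4, 9], .l [6, 13], .l [5, 8, 4, 0, 5, 4, 9], .l [7, 10, 8, 8, 4, 0, 5, 4, 7], .l [8, 13], .l [7, 10, 8, 8, 4, 0, 5, 4, 7], .l [9, 12, 10, 10, 8, 8, 4, 0, 5, 4, 5], .l [10, 13], .l [9, 12, 10, 10, 8, 8, 4, 0, 5, 4, 5], .l [11, 14, 12, 12, 10, 10, 8, 8, 4, 0, 5, 4, 1], .l [12, 13], .l [11, 14, 12, 12, 10, 10, 8, 8, 4, 0, 5, 4, 1], .l [11, 12, 10, 10, 8, 8, 6, 6, 2, 0, 3, 2, 3], .r 4335 [1, 2, 3, 4, 5, 6, 7, 8] [1, 1, 1, 1, 1, 1, 1], .l [11, 12, 10, 10, 8, 8, 6, 6, 2, 0, 3, 2, 3]]),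
([s 2 1, p 3 2, p 4 3, g, m 1 0, g, p 5 4, g, p 6 5, g, p 0 6, g], .lo 10, [.l [3, 8, 6, 0, 3, 2, 7], .l [4, 11], .l [3, 8, 6, 0, 3, 2, 7], .y [0, 4, 10, 8, 6, 2, 1], .l [5, 8, 4, 0, 5, 4, 7], .l [6, 11], .l [5, 8, 4, 0, 5, 4, 7], .l [7, 10, 8, 8, 4, 0, 5, 4, 5], .l [8, 11], .l [7, 10, 8, 8, 4, 0, 5, 4, 5], .l [9, 12, 10, 10, 8, 8, 4, 0, 5, 4, 1], .l [10, 11], .l [9, 12, 10, 10, 8, 8, 4, 0, 5, 4, 1], .l [9, 10, 8, 8, 6, 6, 2, 0, 3, 2, 3], .r 4336 [1, 2, 3, 4, 5, 6, 7] [1, 1, 1, 1, 1, 1], .l [9, 10, 8, 8, 6, 6, 2, 0, 3, 2, 3]]),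
([s 2 1, p 3 2, p 4 3, g, m 1 0, g, p 5 4, g, p 0 5, g], .lo 8, [.l [3, 8, 6, 0, 3, 2, 5], .l [4, 9], .l [3, 8, 6, 0, 3, 2, 5], .y [0, 4, 8, 6, 2, 1], .l [5, 8, 4, 0, 5, 4, 5], .l [6, 9], .l [5, 8, 4, 0, 5, 4, 5], .l [7, 10, 8, 8, 4, 0, 5, 4, 1], .l [8, 9], .l [7, 10, 8, 8, 4, 0, 5, 4, 1], .l [7, 8, 6, 6, 2, 0, 3, 2, 3], .r 4337 [1, 2, 3, 4, 5, 6] [1, 1, 1, 1, 1], .l [7, 8, 6, 6, 2, 0, 3, 2, 3]]),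
([s 2 1, p 3 2, p 4 3, g, m 1 0, g, p 0 4, g], .lo 6, [.l [3, 8, 6, 0, 3, 2, 3], .l [4, 7], .l [3, 8, 6, 0, 3, 2, 3], .y [0, 4, 6, 2, 1], .l [5, 8, 4, 0, 5, 4, 1], .l [6, 7], .l [5, 8, 4, 0, 5, 4, 1], .l [5, 6, 2, 0, 3, 2, 3], .r 4338 [1, 2, 3, 4, 5] [1, 1, 1, 1], .l [5, 6, 2, 0, 3, 2, 3]]),
([s 2 1, p 3 2, p 0 3, g, m 1 0, g], .lo 2, [.l [1, 0, 5, 4, 1], .r 4334 [1, 2, 3, 4] [1, 1, 1], .l [1, 0, 5, 4, 1], .y [0, 4, 2, 1], .l [1, 0, 3, 2, 3], .r 4339 [1, 2, 3, 4] [1, 1, 1], .l [1, 0, 3, 2, 3]]),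
([s 0 1, p 2 0, p 0 2, g, m 1 0, g], .lo 0, [.r 4340 [1, 3, 2] [1, 1], .l [3], .r 4103 [1, 2, 3] [0, 1, 1, 1], .l [3], .y [0, 4], .l [5], .R 4319 [3, 2, 1] [1, 1, 1], .l [5]]),
([s 0 0, m 0 1, m 1 0, g], .lo 0, [.y [0], .l [1], .l [3], .R 4341 [2, 1] [1, 1], .l [3]]),
([s 0 0, p 1 0, g, p 0 1, g], .top 2, [.R 4342 [1] [1], .r 4297 [1] [1, 1], .R 4202 [1] [1, 1], .R 4317 [1] [1, 1]]),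
([s 0 0, p 1 0, g, m 0 1, g], .hi 0, [.y [0], .l [2], .l [2], .l [3, 2, 3], .l [3, 2, 1], .l [4], .l [4], .l [5, 4, 1]]),
([s 0 0, p 1 0, g, s 0 1, g], .hi 0, [.y [0], .l [2], .l [2], .l [3, 2, 3], .l [2], .l [4], .l [4], .l [5, 4, 1]]),
([s 0 0, p 0 0, g], .lo 1, [.c, .y [1], .r 4345 [1] [1, 1], .r 4343 [1] [1, 1], .r 4344 [1] [1, 1]]),
([s 0 0], .hi 0, [.y [0]]),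
([s 3 1, s 4 0, g, s 0 2, g, p 0 3, s 2 0, g, m 1 0, g, p 0 4, g], .hi 1, [.l [5, 7, 1, 8, 6, 1], .l [5, 7, 1, 8, 6, 1], .l [12, 10, 3, 4, 8, 5], .l [3, 5, 1, 6, 4, 1], .l [3, 7, 3, 8, 4, 5], .l [7, 6, 3], .l [3, 7, 3, 8, 4, 5], .l [5, 4, 3], .l [3, 5, 1, 8, 6, 3], .l [3, 5, 1, 8, 6, 3], .l [8, 6, 11, 4, 6], .l [3, 5, 1, 6, 4, 5], .l [3, 5, 1, 6, 4, 5], .l [10, 8, 11, 2, 6], .y [1, 10], .l [3, 5, 1, 6, 4, 7], .l [3, 5, 1, 6, 4, 7], .l [10, 8, 11, 2, 6]]),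
([s 3 1, s 4 0, g, s 0 2, g, p 0 3, s 2 4, g, m 1 0, g], .hi 1, [.l [1, 7, 5, 8, 2, 5], .l [5, 7, 1, 8, 6, 1], .l [1, 7, 5, 8, 2, 5], .y [1, 3, 6], .l [1, 7, 5, 8, 2, 3], .l [7, 6, 3], .l [1, 7, 5, 8, 2, 3], .l [5, 4, 3], .l [1, 5, 3, 8, 4, 1], .l [1, 5, 3, 8, 4, 1], .l [6, 4, 7, 2, 2, 3], .l [1, 5, 3, 6, 2, 5], .l [1, 5, 3, 6, 2, 5], .l [6, 4, 9, 4, 4, 5]]),
([s 3 1, s 4 2, m 0 0, g, m 2 0, g, p 0 3, g, p 0 4, g, m 1 0, g], .hi 2, [.y [2], .l [6, 4, 1], .l [6, 4, 1], .l [2, 8, 5, 9, 2, 6, 8, 4, 5], .l [4, 2, 4], .l [4, 2, 4], .l [2, 8, 5, 9, 2, 4, 8, 6, 3], .l [4, 2, 4], .l [4, 2, 6], .l [4, 2, 6], .l [4, 2, 11, 7, 10, 6, 1, 2, 5], .l [4, 2, 6], .l [4, 2, 8], .l [4, 2, 8], .l [8, 6, 6, 3, 8, 2, 5], .l [4, 2, 10], .l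 [4, 2, 10], .l [6, 5, 9, 3, 10, 2, 7]]),
([s 0 1, s 3 2, p 0 0, g, p 0 3, g, m 1 0, g, m 2 0, g], .lo 0, [.l [4, 2, 7, 4, 5], .l [3], .l [6, 4, 9, 4, 5], .l [3], .l [5], .l [10, 8, 9, 4, 1, 2, 3], .l [5], .y [0, 6], .l [7], .l [10, 8, 9, 4, 1, 2, 3], .l [7], .l [7], .l [9], .R 4350 [4, 3, 1, 2] [1, 1, 1, 1, 1], .l [9]])]

def D16 : List (List (List Item × Qry × List Rf)) := [d16_0, d16_1, d16_2, d16_3]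

end Pool.Agent.H63.PU.C161
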