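import Pool.Agent.H63.PU.Ck3

/-! Certificate data, machine generated. -/

namespace Pool.Agent.H63.PU.C161

open Pool.Agent.H63.PU Pool.Agent.H63.PU.Ck3 Pool.Agent.H63.PU.Short

set_option maxRecDepth 20000

def d17_0 : List (List Item × Qry × List Rf) := [
([s 3 1, s 4 2, m 2 0, g, p 0 3, g, p 0 4, g, m 1 0, g], .hi 2, [.l [2, 0, 2], .l [2, 0, 2], .l [2, 6, 3, 7, 2, 4, 6, 4, 1], .l [2, 0, 2], .l [2, 0, 4], .l [2, 0, 4], .l [2, 0, 9, 7, 8, 4, 1, 2, 3], .y [1, 2, 6], .l [2, 0, 6], .l [2, 0, 6], .l [6, 4, 4, 3, 6, 2, 3], .l [2, 0, 8], .l [2, 0, 8], .l [4, 3, 7, 3, 8, 2, 5]]),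
([s 0 1, s 3 2, p 0 3, g, m 1 0, g, m 2 0, g], .lo 0, [.l [3], .l [8, 6, 7, 4, 1, 2, 3], .l [3], .y [0, 4], .l [5], .l [8, 6, 7, 4, 1, 2, 3], .l [5], .l [5], .l [7], .R 4352 [4, 3, 1, 2] [1, 1, 1, 1], .l [7]]),
([s 3 1, s 4 2, p 0 0, g, m 2 0, g, p 0 3, g, p 0 4, g, m 1 0, g], .lo 2, [.y [2], .l [6, 4, 1], .l [2, 8, 5, 9, 2, 6, 8, 4, 5], .l [6, 4, 1], .l [4, 2, 1], .l [4, 2, 4], .l [2, 8, 5, 9, 2, 4, 8, 6, 3], .l [4, 2, 4], .l [4, 2, 6], .l [4, 2, 11, 7, 10, 6, 1, 2, 5], .l [4, 2, 6], .l [4, 2, 8], .l [8, 6, 6, 3, 8, 2, 5], .l [4, 2, 8], .l [4, 2, 8], .l [4, 2, 10], .l [6, 5, 9, 3, 10, 2, 7], .l [4, 2, 10]]),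
([s 0 1, s 3 2, m 0 0, g, p 0 3, g, m 1 0, g, m 2 0, g], .lo 0, [.l [1], .l [3], .l [6, 4, 9, 4, 5], .l [3], .l [5], .l [10, 8, 9, 4, 1, 2, 3], .l [5], .y [0, 6], .l [7], .l [10, 8, 9, 4, 1, 2, 3], .l [7], .l [7], .l [9], .R 4354 [4, 3, 1, 2] [1, 1, 1, 1, 1], .l [9]]),
([s 3 1, s 4 2, g, m 2 0, m 0 0, g, p 0 3, g, p 0 4, g, m 1 0, g], .hi 4, [.l [3, 5, 2], .l [8, 7, 11, 3, 8, 2, 7], .l [3, 5], .y [4], .l [10, 8, 8, 6, 1], .l [10, 8, 8, 6, 1], .l [10, 8, 9, 2, 4, 8, 5, 2, 5], .l [8, 6, 6, 4, 1], .l [10, 8, 8, 6, 3], .l [10, 8, 8, 6, 3], .l [1, 6, 4, 11, 6, 8, 5], .l [8, 6, 6, 4, 3], .l [8, 6, 6, 4, 7], .l [8, 6, 6, 4, 7], .l [1, 6, 4, 11, 6, 8, 3], .l [8, 6, 6, 4, 9], .l [8, 6, 6, 4, 9], .l [6, 5, 9, 3, 10, 4,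 1]]),
([s 4 1, s 5 2, g, m 2 0, s 0 3, g, p 0 4, g, p 0 5, g, s 3 0, g, m 1 0, g], .lo 4, [.l [2, 14, 11, 2, 10, 5], .l [3, 5, 2], .l [2, 14, 11, 2, 10, 5], .l [2, 12, 9, 0, 8, 5], .l [3, 1, 11, 7, 3, 6, 3, 8, 2, 5], .l [12, 7, 3, 9, 4, 6, 4, 1], .l [10, 8, 8, 6, 1], .l [3, 1, 13, 10, 3, 5, 8, 3], .l [8, 3, 11, 7, 1, 4, 2, 5], .l [10, 8, 8, 6, 3], .l [8, 6, 9, 6, 1, 2, 4, 5], .l [8, 6, 9, 6, 1, 2, 4, 5], .l [8, 6, 6, 4, 7], .y [4, 10], .l [8, 6, 9, 6, 1, 2, 4, 5], .l [8, 6, 9, 6, 9, 2, 4, 5], .l [8, 6, 6, 4, 9], .l [8, 6, 6, 4, 9], .l [4, 13, 3, 11, 1, 6, 4, 5], .l [8, 6, 9, 6, 11, 4, 6, 7], .l [8, 6, 6, 4, 11]]),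
([s 3 0, s 4 1, g, m 1 0, s 0 2, g, p 0 3, g, m 2 0, g, p 0 4, g], .lo 4, [.l [3], .l [10, 3, 6, 2, 5, 8, 2, 5], .l [3, 5, 2], .l [10, 3, 6, 2, 5], .l [8, 3, 4, 0, 3], .l [10, 5, 11, 2, 6, 8, 6, 1], .l [6, 1, 9, 7, 1], .l [12, 10, 10, 8, 1], .l [8, 3, 9, 5, 1, 8, 6, 3], .l [8, 3, 9, 5, 1], .l [12, 10, 10, 8, 3], .y [4, 8], .l [8, 3, 9, 5, 1, 8, 6, 3], .l [8, 3, 9, 5, 1], .l [12, 10, 10, 8, 5], .l [8, 3, 11, 7, 1, 4, 2, 5], .l [8, 3, 11, 7, 1], .l [10, 8, 8, 6, 9]]),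
([s 4 1, s 5 2, g, m 2 0, s 0 3, g, m 3 0, g, p 0 4, g, p 0 5, g, m 1 0, g], .lo 4, [.l [2, 14, 11, 2, 10, 3], .l [3, 5, 2], .l [8, 1, 4, 2, 3], .l [6, 1, 2, 0, 1], .l [12, 10, 6, 3, 6, 7, 4, 1], .l [6, 1, 7, 5, 1], .l [12, 10, 10, 8, 1], .y [4, 6], .l [12, 10, 4, 1, 6, 7, 2, 3], .l [6, 1, 7, 5, 1], .l [12, 10, 10, 8, 3], .l [3, 1, 13, 10, 5, 7, 8, 1], .l [6, 1, 9, 7, 1], .l [12, 10, 10, 8, 5], .l [12, 7, 3, 9, 4, 6, 4, 1], .l [6, 1, 11, 9, 1], .l [10, 8, 8, 6, 9], .l [10, 8, 8, 6, 9], .l [14, 9, 3, 11, 6, 8, 4, 1], .l [6, 1, 13, 11, 1], .l [10, 8, 8, 6, 11]]),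
([s 4 1, s 5 2, s 0 0, g, m 2 0, s 0 3, g, p 0 4, g, p 0 5, g, m 3 0, g, m 1 0, g], .hi 2, [.y [2], .l [1, 9, 7, 1, 13, 6, 8, 3], .l [6, 4, 1], .l [4, 1, 8, 4, 12, 7, 9, 3], .l [9, 7, 2, 9, 6, 8, 4, 5], .l [11, 9, 4, 6, 7, 2], .l [4, 2, 5], .l [13, 7, 12, 8, 1, 5, 7, 9, 7, 2], .l [4, 2, 5], .l [4, 2, 7, 13, 8, 11, 2, 3], .l [4, 2, 7], .l [13, 7, 1, 10, 5, 11, 1, 8, 2, 3], .l [4, 2, 7], .l [4, 2, 9, 13, 6, 9, 2, 3], .l [4, 2, 9], .l [13, 7, 1, 10, 7, 11, 1, 6, 2, 7], .l [9, 7, 11, 13, 9, 4], .l [4, 2, 11], .l [11, 5, 1, 8, 5, 11, 3, 8, 2, 5], .l [11, 5, 1, 8, 5, 9, 1, 6, 2, 7], .l [4, 2, 13], .l [15, 12, 14, 9, 5, 7, 9, 3]]),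
([s 4 1, s 5 2, g, m 2 0, s 0 3, g, s 3 0, g, p 0 4, g, p 0 5, g, m 1 0, g], .lo 4, [.l [2, 14, 11, 2, 10, 3], .l [3, 5, 2], .l [2, 14, 11, 2, 10, 3], .l [2, 12, 9, 0, 8, 3], .l [12, 10, 4, 1, 6, 7, 2, 3], .l [12, 10, 4, 1, 6, 7, 2, 3], .l [12, 10, 10, 8, 1], .y [4, 6], .l [12, 10, 4, 1, 6, 7, 2, 3], .l [12, 10, 6, 3, 6, 7, 4, 1], .l [12, 10, 10, 8, 3], .l [3, 1, 13, 10, 5, 7, 8, 1], .l [10, 5, 11, 2, 6, 8, 6, 1], .l [12, 10, 10, 8, 5], .l [3, 1, 11, 7, 3, 6, 3, 8, 2, 5], .l [5, 8, 2, 5, 1, 8, 3, 8, 2, 5], .l [10, 8, 8, 6, 9], .l [10, 8, 8, 6, 9], .l [3, 1, 13, 9, 3, 8, 5, 1, 6, 3], .l [5, 8, 2, 5, 1, 10, 5, 1, 6, 3], .l [10, 8, 8, 6, 11]]),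
([s 3 1, s 4 2, s 0 0, g, m 2 0, s 0 0, g, p 0 3, g, p 0 4, g, m 1 0, g], .hi 5, [.l [1, 11, 9, 2, 8, 3], .l [3, 13, 9, 2, 8, 3], .l [3, 13, 9, 2, 8, 3], .l [4, 6, 2], .y [5], .r 4361 [1, 2, 5, 3, 4] [2, 1, 1, 1, 1, 1], .l [11, 9, 9, 6, 1], .r 4359 [1, 2, 5, 3, 4] [2, 1, 1, 1, 1, 1], .l [9, 7, 7, 4, 1], .l [4, 2, 12, 8, 3, 5, 6, 1], .l [11, 9, 9, 6, 3], .r 4358 [2, 5, 3, 4] [2, 1, 1, 1, 3], .l [9, 7, 7, 4, 3], .r 4357 [1, 2, 5, 3, 4] [2, 1, 1, 1, 1, 1], .l [9, 7, 7, 4, 8], .r 4360 [1, 2, 5, 3, 4] [1, 1, 1, 1, 1, 1], .l [9, 7, 8, 2, 11, 6, 8, 3], .l [9, 7, 7, 4, 10], .l [9, 7, 8, 2, 11, 6, 8, 3]]),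
([s 3 1, s 4 2, g, m 2 0, p 0 3, g, p 0 4, g, m 1 0, g], .lo 4, [.l [3, 5, 2], .l [3, 5], .l [6, 5, 9, 3, 6, 2, 5], .l [4, 3, 7, 3, 4, 0, 3], .l [8, 6, 6, 4, 1], .l [1, 4, 2, 9, 6, 6, 3], .l [8, 6, 6, 4, 1], .l [6, 4, 4, 2, 5], .l [1, 4, 2, 9, 6, 6, 1], .l [6, 4, 4, 2, 5], .y [0, 8, 4], .l [6, 4, 4, 2, 7], .l [4, 3, 7, 3, 8, 4, 1], .l [6, 4, 4, 2, 7]]),
([s 3 1, s 4 2, g, m 2 0, p 0 0, g, p 0 3, g, p 0 4, g, m 1 0, g], .lo 4, [.l [3, 5, 2], .l [3, 5], .l [8, 7, 11, 3, 8, 2, 7], .l [6, 5, 9, 3, 6, 0, 5], .y [4], .l [10, 8, 8, 6, 1], .l [10, 8, 9, 2, 4, 8, 5, 2, 5], .l [10, 8, 8, 6, 1], .l [10, 8, 8, 6, 3], .l [1, 6, 4, 11, 6, 8, 5], .l [10, 8, 8, 6, 3], .l [8, 6, 6, 4, 7], .l [1, 6, 4, 11, 6, 8, 3], .l [8, 6,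 6, 4, 7], .l [8, 6, 6, 4, 7], .l [8, 6, 6, 4, 9], .l [6, 5, 9, 3, 10, 4, 1], .l [8, 6, 6, 4, 9]]),
([s 3 1, s 4 2, s 0 0, g, m 2 0, g, p 0 3, g, p 0 4, g, m 1 0, g], .top 5, [.r 4363 [1, 2, 3, 4] [2, 1, 1, 1], .r 4362 [1, 2, 3, 4] [1, 1, 1, 1, 1], .r 4364 [1, 2, 3, 4] [2, 1, 1, 1, 1], .r 4356 [1, 2, 3, 4] [2, 1, 1, 1, 1]]),
([s 0 1, s 3 2, s 0 0, g, p 0 3, g, m 1 0, g, m 2 0, g], .lo 0, [.l [1], .l [3], .l [6, 4, 9, 4, 5], .l [3], .l [5], .l [10, 8, 9, 4, 1, 2, 3], .l [5], .y [0, 6], .l [7], .l [10, 8, 9, 4, 1, 2, 3], .l [7], .l [7], .l [9], .R 4365 [4, 3, 1, 2] [1, 1, 1, 1, 1], .l [9]]),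
([s 2 0, s 3 1, g, m 1 0, g, p 0 2, g, p 0 3, g], .top 2, [.R 4353 [2, 3, 1] [1, 1, 1], .R 4366 [2, 3, 1] [1, 1, 1, 1], .R 4355 [2, 3, 1] [1, 1, 1, 1], .R 4351 [2, 3, 1] [1, 1, 1, 1]]),
([s 4 1, s 3 2, p 0 3, g, p 0 4, g, m 2 0, g, m 1 0, g], .lo 2, [.l [2, 0, 2], .l [2, 6, 3, 7, 2, 4, 6, 4, 1], .l [2, 0, 2], .l [2, 0, 4], .l [2, 0, 9, 7, 8, 4, 1, 2, 3], .l [2, 0, 4], .y [1, 6, 2], .l [2, 0, 6], .l [6, 4, 4, 3, 6, 2, 3], .l [2, 0, 6], .l [2, 0, 6], .l [2, 0, 8], .l [4, 3, 7, 3, 8, 2, 5], .l [2, 0, 8]]),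
([s 0 1, s 3 2, p 0 3, g, m 2 0, g, m 1 0, g], .lo 0, [.l [3], .r 4368 [1, 2, 3, 4] [1, 1, 1, 1], .l [3], .l [3], .l [5], .l [2, 0, 5, 3, 6, 2, 3], .l [5], .y [0, 6], .l [7], .l [2, 0, 5, 3, 6, 2, 3], .l [7]]),
([s 0 0, s 2 1, p 0 2, g, m 1 0, g], .hi 0, [.y [0], .l [1], .l [3], .l [3], .r 4353 [3, 1, 2] [1, 1, 1], .l [5], .l [5], .r 4369 [3, 1, 2] [1, 1, 1]]),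
([s 4 1, s 3 2, p 0 0, g, p 0 3, g, p 0 4, g, m 2 0, g, m 1 0, g], .lo 2, [.y [2], .l [6, 4, 1], .l [2, 8, 5, 9, 2, 6, 8, 4, 5], .l [6, 4, 1], .l [4, 2, 4], .l [2, 8, 5, 9, 2, 4, 8, 6, 3], .l [4, 2, 4], .l [4, 2, 6], .l [4, 2, 11, 7, 10, 6, 1, 2, 5], .l [4, 2, 6], .l [4, 2, 6], .l [4, 2, 8], .l [8, 6, 6, 3, 8, 2, 5], .l [4, 2, 8], .l [4, 2, 8], .l [4, 2, 10], .l [6, 5, 9, 3, 10, 2, 7], .l [4, 2, 10]]),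
([s 0 1, s 3 2, p 0 0, g, p 0 3, g, m 2 0, g, m 1 0, g], .lo 0, [.l [4, 2, 5, 2, 3], .l [3], .l [6, 4, 7, 2, 3], .l [3], .l [5], .r 4371 [1, 2, 3, 4] [1, 1, 1, 1, 1], .l [5], .l [5], .l [7], .l [4, 2, 7, 3, 8, 4, 5], .l [7], .y [0, 8], .l [9], .l [4, 2, 7, 3, 8, 4, 5], .l [9]]),
([s 0 0, s 2 1, p 0 0, g, p 0 2, g, m 1 0, g], .hi 0, [.y [0], .l [1], .l [3], .l [3], .l [6, 4, 7, 2, 3], .l [3], .l [5], .l [5], .r 4351 [3, 1, 2] [1, 1, 1, 1], .l [7], .l [7], .r 4372 [3, 1, 2] [1, 1, 1, 1]]),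
([s 5 1, s 3 2, g, p 0 3, s 0 4, g, s 4 0, g, p 0 5, g, m 2 0, g, m 1 0, g], .lo 4, [.l [2, 14, 11, 2, 10, 3], .l [3, 5, 2], .l [2, 14, 11, 2, 10, 3], .l [12, 10, 4, 1, 6, 7, 2, 3], .l [12, 10, 4, 1, 6, 7, 2, 3], .l [12, 10, 10, 8, 1], .y [4, 6], .l [12, 10, 4, 1, 6, 7, 2, 3], .l [12, 10, 6, 3, 6, 7, 4, 1], .l [12, 10, 10, 8, 3], .l [3, 1, 13, 10, 5, 7, 8, 1], .l [10, 5, 11, 2, 6, 8, 6, 1], .l [12, 10, 10, 8, 5], .l [10, 8, 8, 6, 5], .l [3, 1, 11, 7, 3, 6, 3, 8, 2, 5], .l [5, 8, 2, 5, 1, 8, 3, 8, 2, 5], .l [10, 8, 8, 6, 9], .l [10, 8, 8, 6, 9], .l [3, 1, 13, 9, 3, 8, 5, 1, 6, 3], .l [5, 8, 2, 5, 1, 10, 5, 1, 6, 3], .l [10, 8, 8, 6, 11]]),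
([s 5 1, s 3 2, g, p 0 3, s 0 4, g, p 0 5, g, m 2 0, g, s 4 0, g, m 1 0, g], .lo 4, [.l [2, 14, 11, 2, 10, 5], .l [3, 5, 2], .l [2, 14, 11, 2, 10, 5], .l [3, 1, 11, 7, 3, 6, 3, 8, 2, 5], .l [12, 7, 3, 9, 4, 6, 4, 1], .l [10, 8, 8, 6, 1], .l [3, 1, 13, 10, 3, 5, 8, 3], .l [8, 3, 11, 7, 1, 4, 2, 5], .l [10, 8, 8, 6, 3], .l [8, 6, 6, 4, 3], .l [8, 6, 9, 6, 1, 2, 4, 5], .l [8, 6, 9, 6, 1, 2, 4, 5], .l [8, 6, 6, 4, 7], .y [4, 10], .l [8, 6, 9, 6, 1, 2, 4, 5], .l [8, 6, 9, 6, 9, 2, 4, 5], .l [8, 6, 6, 4, 9], .l [8, 6, 6, 4, 9], .l [4, 13, 3, 11, 1, 6, 4, 5], .l [8, 6, 9, 6, 11, 4, 6, 7], .l [8, 6, 6, 4, 11]]),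
([s 5 1, s 3 2, g, p 0 3, s 0 4, g, m 4 0, g, p 0 5, g, m 2 0, g, m 1 0, g], .lo 4, [.l [2, 14, 11, 2, 10, 3], .l [3, 5, 2], .l [8, 1, 4, 2, 3], .l [12, 10, 6, 3, 6, 7, 4, 1], .l [6, 1, 7, 5, 1], .l [12, 10, 10, 8, 1], .y [4, 6], .l [12, 10, 4, 1, 6, 7, 2, 3], .l [6, 1, 7, 5, 1], .l [12, 10, 10, 8, 3], .l [3, 1, 13, 10, 5, 7, 8, 1], .l [6, 1, 9, 7, 1], .l [12, 10, 10, 8, 5], .l [10, 8, 8, 6, 5], .l [12, 7, 3, 9, 4, 6, 4, 1], .l [6, 1, 11, 9, 1], .l [10, 8, 8, 6, 9], .l [10, 8, 8, 6, 9], .l [14, 9, 3, 11, 6, 8, 4, 1], .l [6, 1, 13, 11, 1], .l [10, 8, 8, 6, 11]]),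
([s 5 1, s 3 2, s 0 0, g, p 0 3, s 0 4, g, p 0 5, g, m 2 0, g, m 4 0, g, m 1 0, g], .hi 2, [.y [2], .l [1, 9, 7, 1, 13, 6, 8, 3], .l [6, 4, 1], .l [4, 1, 8, 4, 12, 7, 9, 3], .l [4, 2, 1], .l [9, 7, 2, 9, 6, 8, 4, 5], .l [11, 9, 4, 6, 7, 2], .l [4, 2, 5], .l [13, 7, 12, 8, 1, 5, 7, 9, 7, 2], .l [4, 2, 5], .l [4, 2, 7, 13, 8, 11, 2, 3], .l [4, 2, 7], .l [13, 7, 1, 10, 5, 11, 1, 8, 2, 3], .l [4, 2, 9, 13, 6, 9, 2, 3], .l [4, 2, 9], .l [13, 7, 1, 10, 7, 11, 1, 6, 2, 7], .l [9, 7, 11, 13, 9, 4], .l [4, 2, 11], .l [11, 5, 1, 8, 5, 11, 3, 8, 2, 5], .l [11, 5, 1, 8, 5, 9, 1, 6, 2, 7], .l [4, 2, 13], .l [15, 12, 14, 9, 5, 7, 9, 3]]),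
([s 5 1, s 3 2, g, p 0 3, s 0 4, g, p 0 5, g, m 4 0, g, m 2 0, g, m 1 0, g], .lo 4, [.l [2, 14, 11, 2, 10, 5], .l [3, 5, 2], .l [10, 3, 6, 2, 5], .l [10, 5, 11, 2, 6, 8, 6, 1], .l [6, 1, 9, 7, 1], .l [12, 10, 10, 8, 1], .l [8, 3, 9, 5, 1, 8, 6, 3], .l [8, 3, 9, 5, 1], .l [12, 10, 10, 8, 3], .y [4, 8], .l [3, 1, 13, 10, 5, 7, 8, 3], .l [8, 3, 9, 5, 1], .l [12, 10, 10, 8, 5], .l [10, 8, 8, 6, 5], .l [8, 3, 11, 7, 1, 4, 2, 5], .l [8, 3, 11, 7, 1], .l [10, 8, 8, 6, 9], .l [10, 8, 8, 6, 9], .l [8, 3, 13, 9, 1, 4, 2, 7], .l [8, 3, 13, 9, 1], .l [10, 8, 8, 6, 11]]),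
([s 4 1, s 3 2, s 0 0, g, p 0 3, s 0 0, g, p 0 4, g, m 2 0, g, m 1 0, g], .hi 5, [.l [1, 11, 9, 2, 8, 3], .l [3, 13, 9, 2, 8, 3], .l [3, 13, 9, 2, 8, 3], .l [4, 6, 2], .l [3, 11, 7, 0, 6, 3], .y [5], .r 4374 [1, 2, 3, 5, 4] [2, 1, 1, 1, 1, 1], .l [11, 9, 9, 6, 1], .r 4376 [1, 2, 3, 5, 4] [2, 1, 1, 1, 1, 1], .l [9, 7, 7, 4, 1], .l [4, 2, 12, 8, 3, 5, 6, 1], .l [11, 9, 9, 6, 3], .r 4378 [1, 2, 3, 5, 4] [2, 1, 1, 1, 1, 1], .r 4375 [1, 2, 3, 5, 4] [2, 1, 1, 1, 1, 1], .l [9, 7, 7, 4, 8], .r 4377 [1, 2, 3, 5, 4] [1, 1, 1, 1, 1, 1], .l [9, 7, 8, 2, 11, 6, 8, 3], .l [9, 7, 7, 4, 10], .l [9, 7, 8, 2, 11, 6, 8, 3]]),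
([s 4 1, s 3 2, g, p 0 3, m 0 0, g, p 0 4, g, m 2 0, g, m 1 0, g], .hi 4, [.l [3, 5, 2], .l [8, 7, 11, 3, 8, 2, 7], .l [3, 5], .l [6, 5, 9, 3, 6, 0, 5], .y [4], .l [10, 8, 8, 6, 1], .l [10, 8, 8, 6, 1], .l [10, 8, 9, 2, 4, 8, 5, 2, 5], .l [8, 6, 6, 4, 1], .l [10, 8, 8, 6, 3], .l [10, 8, 8, 6, 3], .l [1, 6, 4, 11, 6, 8, 5], .l [8, 6, 6, 4, 7], .l [8, 6, 6, 4, 7], .l [1, 6, 4, 11, 6, 8, 3], .l [8, 6, 6, 4, 9], .l [8, 6, 6, 4, 9], .l [6, 5, 9, 3, 10, 4, 1]]),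
([s 4 1, s 3 2, g, p 0 3, p 0 0, g, p 0 4, g, m 2 0, g, m 1 0, g], .lo 4, [.l [3, 5, 2], .l [3, 5], .l [8, 7, 11, 3, 8, 2, 7], .y [4], .l [10, 8, 8, 6, 1], .l [10, 8, 9, 2, 4, 8, 5, 2, 5], .l [10, 8, 8, 6, 1], .l [10, 8, 8, 6, 3], .l [1, 6, 4, 11, 6, 8, 5], .l [10, 8, 8, 6, 3], .l [8, 6, 6, 4, 3], .l [8, 6, 6, 4, 7], .l [1, 6, 4, 11, 6, 8, 3], .l [8, 6, 6, 4, 7], .l [8, 6, 6, 4, 7], .l [8, 6, 6, 4, 9], .l [6, 5, 9, 3, 10, 4, 1], .l [8, 6, 6, 4, 9]]),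
([s 5 1, s 3 2, g, s 0 3, g, s 0 4, g, p 4 5, g, m 2 0, m 1 6, g, m 6 0, g], .hi 9, [.l [3, 10, 11, 3, 4, 10, 8, 1], .l [10, 12, 1, 3, 11, 8, 8], .l [3, 10], .y [1, 9, 3], .l [10, 12, 1, 5, 11, 6, 6, 1], .l [10, 12, 1, 5, 11, 6, 6], .l [5, 10], .l [8, 10, 1, 5, 5, 5, 7, 2, 2, 1], .l [10, 12, 1, 7, 11, 4, 4, 1], .l [8, 12, 3, 7, 5, 7, 9, 2, 2, 5], .l [7, 10], .l [8, 12, 3, 1, 5, 1, 9, 6, 6, 1], .l [8, 12, 3, 1, 9, 6, 6], .l [9, 10], .l [6, 10, 3, 7, 5, 7, 9, 2, 2, 5], .l [11, 2, 10, 8, 11, 2, 2], .l [6, 10, 3, 7, 9, 3, 7, 1, 7, 4, 4, 1], .l [13, 4, 12, 10, 5, 1, 1, 6, 6, 1], .l [10, 1, 13, 10, 6, 10, 1], .l [10, 14, 12, 13, 4, 11, 6, 6, 7]]),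
([s 4 1, s 3 2, g, s 0 3, g, p 0 4, g, m 2 0, m 1 5, g, m 5 0, g], .lo 5, [.l [2, 7, 4, 3, 7, 3, 4, 6, 4, 1], .l [3, 6], .l [7, 6, 9, 2, 6, 3, 8, 4, 1], .r 4382 [1, 2, 3, 6, 4, 5] [1, 1, 1, 1, 1, 1], .l [5, 6], .l [7, 6, 9, 2, 4, 1, 8, 6, 3], .l [6, 10, 3, 7, 9, 4, 4, 1], .l [5, 10, 4, 1, 7, 9, 4, 4, 1], .l [6, 10, 3, 7, 9, 4, 4], .l [6, 8, 1, 5, 7, 2, 2], .l [5, 4, 1, 6, 2, 6, 3, 6, 2, 3], .l [5, 4, 1, 6, 2, 6, 3, 6, 2, 3], .l [5, 0, 9, 11, 9, 2, 5], .y [0, 8, 10, 5], .l [5, 4, 1, 6, 2, 8, 5, 1, 4, 1], .l [5, 4, 1, 6, 2, 8, 5, 1, 4, 1], .l [4, 8, 3, 9, 5, 6, 1]]),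
([s 3 1, s 4 2, g, p 0 3, g, s 0 4, g, m 2 0, m 1 5, g, m 5 0, g], .lo 3, [.l [7, 5, 9, 2, 7, 1, 7, 2, 2, 3], .l [3, 4], .l [5, 4, 9, 4, 6, 1, 8, 6, 3], .l [4, 10, 5, 7, 9, 6, 6, 1], .l [3, 10, 6, 1, 7, 9, 6, 6, 1], .l [4, 10, 5, 7, 9, 6, 6], .l [6, 10, 3, 5, 9, 6, 6, 3], .l [3, 10, 6, 3, 7, 9, 6, 6, 1], .l [6, 10, 3, 5, 9, 6, 6], .l [6, 8, 1, 3, 7, 4, 4], .l [5, 3, 7, 2, 7, 1, 7, 2, 2, 3], .l [3, 2, 7, 4, 8, 3, 8, 4, 5], .l [3, 0, 9, 11, 9, 4, 5], .y [0, 8, 10, 3], .l [5, 3, 7, 2, 9, 3, 3, 4, 4, 1], .l [2, 8, 5, 5, 4, 9, 4, 4, 1], .l [2, 8, 5, 9, 3, 4, 1]]),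
([s 3 1, s 6 2, g, p 0 3, g, m 2 0, m 1 4, g, m 4 5, g, m 5 0, g, s 0 6, g], .hi 10, [.l [3, 11, 11, 9, 9, 7, 4], .l [1, 13, 10, 8, 8, 6, 6, 4, 6], .l [3, 11], .y [0, 6, 8, 10, 3], .l [5, 11, 11, 9, 9, 7, 2], .l [1, 13, 8, 6, 6, 4, 4, 2, 6], .l [5, 11], .l [7, 10, 8, 3, 7, 2, 6, 1, 2, 5], .l [3, 2, 12, 5, 3, 3, 1, 4, 1, 4, 1, 2, 3], .l [8, 11], .l [11, 12, 8, 8, 6, 3, 5, 0, 4, 1, 2, 3], .l [8, 12, 11, 11, 9, 3, 1, 2, 7, 3, 1, 1, 1], .l [10, 11], .l [9, 10, 8, 8, 6, 3, 5, 0, 4, 1, 2, 3], .l [9, 10, 8, 8, 6, 3, 1, 2, 3, 0, 3], .l [14, 12, 1, 11, 8, 10, 9, 9, 7, 7, 5, 5, 3], .l [1, 11, 11, 9, 9, 7, 7, 5, 4], .l [3, 2, 10, 12, 10, 10, 8, 8, 6, 3], .l [3, 2, 10, 1, 10, 6, 2, 4, 5, 2, 3, 1, 3], .l [1, 11, 13, 11,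 11, 9, 9, 7, 4]]),
([s 3 1, s 5 2, g, p 0 3, g, m 2 0, m 1 4, g, m 4 0, g, s 0 5, g], .hi 8, [.l [3, 9, 9, 7, 4], .l [1, 11, 8, 6, 6, 4, 6], .l [3, 9], .y [0, 6, 8, 3], .l [5, 9, 9, 7, 2], .l [1, 11, 6, 4, 4, 2, 6], .l [5, 9], .l [9, 10, 6, 3, 5, 0, 4, 1, 2, 3], .l [7, 10, 8, 3, 1, 2, 5, 2, 1], .l [8, 9], .l [7, 8, 6, 3, 5, 0, 4, 1, 2, 3], .l [7, 8, 6, 3, 1, 2, 3, 0, 3], .r 4385 [1, 2, 3, 4, 6, 5] [1, 1, 1, 1, 1, 1], .l [1, 9, 9, 7, 7, 5, 4], .l [3, 2, 8, 10, 8, 8, 6, 3], .l [5, 3, 1, 2, 6, 1, 6, 4, 0, 3], .l [1, 9, 11, 9, 9, 7, 4]]),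
([s 3 1, s 0 2, g, p 0 3, g, m 2 0, m 1 4, g, m 4 0, g], .lo 1, [.r 4383 [1, 2, 5, 3, 4] [1, 1, 1, 1, 1], .l [1, 5, 3, 7, 3, 4, 6, 4, 1], .l [5, 4, 1], .r 4384 [1, 2, 3, 5, 4] [1, 1, 1, 1, 1], .l [5, 3, 6, 2, 3], .l [3, 2, 3], .y [1, 5], .l [1, 7, 9, 7, 4], .l [5, 3, 7, 3, 4], .l [1, 7, 9, 7, 4], .l [1, 7, 7, 5, 4], .r 4386 [1, 2, 3, 4, 5] [1, 1, 1, 1, 1], .l [5, 3, 9, 5, 6], .l [3, 2, 8]]),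
([s 0 1, s 0 2, g, m 2 0, m 1 3, g, m 3 0, g], .lo 0, [.l [2], .r 4387 [1, 2, 4, 3] [1, 1, 1, 1], .l [2], .l [2], .l [5], .l [4, 3, 5, 1, 6, 4, 1], .l [5], .y [0, 4, 6], .l [7], .l [1, 4, 2, 7, 4, 4, 1], .l [7]]),
([s 3 0, s 2 1, g, p 0 2, p 0 3, g, m 1 0, g], .lo 4, [.y [0, 4], .l [3, 5, 2], .l [3, 5], .l [2, 6, 3, 2, 2], .l [8, 6, 6, 4, 1], .R 4388 [3, 2, 4] [1, 1, 3], .l [8, 6, 6, 4, 1], .l [6, 4, 4, 2, 1], .l [6, 4, 4, 2, 5], .l [6, 4, 5, 2, 5, 2, 2], .l [6, 4, 4, 2, 5]]),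
([s 4 1, s 3 2, s 0 0, g, p 0 3, g, p 0 4, g, m 2 0, g, m 1 0, g], .top 5, [.r 4389 [2, 3, 4] [2, 1, 3], .r 4379 [1, 2, 3, 4] [1, 1, 1, 1, 1], .r 4381 [1, 2, 3, 4] [2, 1, 1, 1, 1], .r 4380 [1, 2, 3, 4] [2, 1, 1, 1, 1]]),
([s 0 1, s 3 2, s 0 0, g, p 0 3, g, m 2 0, g, m 1 0, g], .lo 0, [.l [1], .l [3], .l [6, 4, 7, 2, 3], .l [3], .l [5], .r 4390 [1, 2, 3, 4] [1, 1, 1, 1, 1], .l [5], .l [5], .l [7], .l [4, 2, 7, 3, 8, 4, 5], .l [7], .y [0, 8], .l [9], .l [4, 2, 7, 3, 8, 4, 5], .l [9]]),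
([s 0 0, s 2 1, s 0 0, g, m 1 0, g, p 0 2, g], .lo 0, [.y [0], .l [1], .l [3], .l [6, 4, 7, 2, 3], .l [3], .l [3], .l [5], .R 4366 [3, 2, 1] [1, 1, 1, 1], .l [5], .l [7], .R 4391 [3, 2, 1] [1, 1, 1, 1], .l [7]]),
([s 4 1, s 3 2, m 0 0, g, p 0 3, g, p 0 4, g, m 2 0, g, m 1 0, g], .hi 2, [.y [2], .l [6, 4, 1], .l [6, 4, 1], .l [2, 8, 5, 9, 2, 6, 8, 4, 5], .l [4, 2, 1], .l [4, 2, 4], .l [4, 2, 4], .l [2, 8, 5, 9, 2, 4, 8, 6, 3], .l [4, 2, 4], .l [4, 2, 6], .l [4, 2, 6], .l [4, 2, 11, 7, 10, 6, 1, 2, 5], .l [4, 2, 8], .l [4, 2, 8], .l [8, 6, 6, 3, 8, 2, 5], .l [4, 2, 10], .l [4, 2, 10], .l [6, 5, 9, 3, 10, 2, 7]]),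
([s 0 1, s 3 2, m 0 0, g, p 0 3, g, m 2 0, g, m 1 0, g], .lo 0, [.l [1], .l [3], .l [6, 4, 7, 2, 3], .l [3], .l [5], .r 4393 [1, 2, 3, 4] [1, 1, 1, 1, 1], .l [5], .l [5], .l [7], .l [4, 2, 7, 3, 8, 4, 5], .l [7], .y [0, 8], .l [9], .l [4, 2, 7, 3, 8, 4, 5], .l [9]]),
([s 0 0, s 2 1, m 0 0, g, p 0 2, g, m 1 0, g], .hi 0, [.y [0], .l [4, 2, 5, 2, 3], .l [3], .l [3], .l [6, 4, 7, 2, 3], .l [3], .l [5], .l [5], .r 4355 [3, 1, 2] [1, 1, 1, 1], .l [7], .l [7], .r 4394 [3, 1, 2] [1, 1, 1, 1]]),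
([s 0 0, s 2 1, g, p 0 2, g, m 1 0, g], .top 2, [.r 4370 [1, 2] [1, 1], .R 4392 [2, 1] [1, 1, 1], .r 4373 [1, 2] [1, 1, 1], .r 4395 [1, 2] [1, 1, 1]]),
([s 6 1, s 7 2, g, m 4 3, g, s 0 4, g, m 2 0, m 3 5, g, m 5 0, g, p 0 6, g, m 1 0, g, s 0 7, g], .lo 5, [.l [3, 6, 9, 7, 7, 2, 9, 3, 9, 5, 8, 1, 4, 5], .l [3, 6, 9, 7, 7, 2, 9, 3, 6, 4, 8, 6, 3], .l [7, 1, 9, 7, 11, 6, 11, 4, 8, 6, 5, 5, 3], .l [6, 10, 6, 12, 9, 4, 11, 2, 10, 6, 4, 7], .l [7, 1, 9, 5, 7, 1, 7, 5, 2], .l [7, 3, 9, 5, 7, 1, 7, 5, 2], .l [6, 10, 6, 12, 9, 4, 11, 2, 10, 6, 4, 7], .l [3, 4, 6, 1, 11, 6, 11, 4, 8, 6, 5, 5, 3], .l [4, 10, 8, 12, 9, 1, 11, 2, 6, 8, 7, 7, 5], .l [4, 8, 6, 10, 7, 1, 9, 2, 6, 6, 5, 5, 3], .l [1, 17, 12, 4, 6, 4, 12, 5],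 .l [3, 4, 9, 4, 4, 1, 7, 5, 1], .l [3, 4, 4, 7, 9, 7, 2], .y [3, 8, 10, 5], .l [11, 14, 2, 6, 9, 7, 7, 2, 9, 4, 6, 3], .l [3, 4, 11, 6, 11, 1, 11, 9, 6, 4, 3, 3, 1], .l [5, 1, 7, 5, 5, 7, 9, 4, 9, 4, 6, 3], .l [4, 12, 7, 11, 1, 6, 11, 7, 10, 1, 6, 7], .l [3, 4, 13, 8, 11, 4, 1, 6, 6, 4, 8, 6, 3], .l [4, 12, 7, 11, 1, 6, 6, 4, 10, 8, 3, 1, 3], .l [4, 12, 7, 11, 1, 6, 6, 4, 8, 6, 3, 1, 3], .l [16, 10, 10, 10, 15, 2, 5, 1, 9, 5, 1, 5, 6, 3], .l [3, 4, 15, 10, 13, 6, 1, 4, 8, 6, 5, 5, 3], .l [5, 1, 7, 5, 5, 11, 5, 0, 9, 2, 5, 1, 3], .l [18, 12, 12, 12, 12, 9, 3, 11, 4, 8, 6, 1], .l [3, 4, 17, 12, 12, 9, 3, 11, 4, 8, 6, 1], .l [5, 1, 7, 5, 5, 13, 1, 7, 1, 9, 2, 5]]),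
([s 5 1, s 6 2, g, m 0 3, g, m 2 0, m 3 4, g, m 4 0, g, p 0 5, g, m 1 0, g, s 0 6, g], .lo 3, [.l [5, 1, 11, 6, 9, 6, 9, 5, 8, 1, 4, 5], .l [5, 1], .l [7, 5, 11, 4, 7, 6, 10, 6, 9, 1, 5, 5, 3], .r 4397 [1, 2, 3, 7, 4, 5, 6] [1, 1, 1, 1, 1, 1, 1, 1], .l [5, 1], .l [3, 4], .l [3, 4], .l [3, 7, 9, 7, 2], .l [8, 4], .l [3, 7], .y [3, 6, 8], .l [16, 14, 8, 6, 6, 3, 6, 9, 6, 1], .l [10, 6], .l [3, 9], .l [12, 8, 11, 4, 1, 6, 9, 5, 8, 1, 4, 5], .l [12, 8], .l [3, 11], .l [3, 11], .l [14, 10, 15, 2, 5, 1, 9, 5, 1, 5, 6, 3], .l [14, 10], .l [3, 13], .l [16, 12, 12, 9, 3, 11, 4, 8, 6, 1], .l [16, 12], .l [3, 15]]),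
([s 6 1, s 7 2, g, m 2 3, m 3 4, g, m 4 5, g, p 0 6, g, s 5 0, g, m 1 0, g, s 0 7, g], .hi 10, [.l [1, 15, 12, 8, 8, 4, 4, 2, 8, 3], .l [1, 15, 7, 3, 10, 6, 6, 2, 8, 1], .l [3, 11, 11, 7, 7, 5, 2], .l [5, 8, 6, 1, 7, 4, 6, 6, 1, 4, 2, 4, 2, 3], .l [5, 8, 6, 1, 7, 4, 6, 6, 1, 4, 2, 4, 2], .l [7, 8, 4, 8, 4, 8, 1, 6, 6, 4, 6, 4, 1], .l [5, 6, 4, 1, 7, 4, 6, 6, 1, 6, 2, 5], .l [5, 6, 4, 1, 7, 4, 6, 6, 1, 6, 2, 5], .l [5, 6, 4, 8, 4, 8, 1, 6, 6, 4, 6, 4, 1], .l [5, 6, 4, 1, 5, 2, 4, 4, 1, 4, 2, 3], .l [9, 12, 8, 8, 6, 1, 7, 4, 1, 4, 2, 4, 2, 3], .l [5, 6, 4, 6, 2, 8, 8, 6, 1, 4, 6, 4, 1], .l [5, 6, 4, 6, 2, 8, 3, 6, 8, 6, 3, 3, 1], .l [5, 6, 4, 1, 5, 2, 4, 6, 1, 4, 2, 4, 2, 3], .l [5, 6, 4, 6, 2, 6, 1, 4, 4, 4,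 6, 4, 1], .l [5, 6, 4, 1, 5, 2, 4, 6, 1, 4, 2, 4, 2], .l [5, 6, 4, 1, 9, 6, 3, 8, 4, 6, 4, 5], .l [5, 6, 4, 6, 2, 6, 1, 4, 6, 4, 1, 1, 3], .l [5, 6, 4, 1, 5, 2, 4, 8, 3, 5, 3, 5, 3], .y [1, 3, 4, 6, 10, 14], .l [8, 7, 12, 14, 10, 10, 6, 6, 4, 1], .l [5, 6, 4, 6, 2, 6, 1, 4, 6, 4, 1, 1, 5], .l [1, 13, 7, 3, 13, 9, 9, 5, 2, 5]]),
([s 5 1, s 6 2, g, m 2 3, m 3 4, g, m 4 0, g, p 0 5, g, m 1 0, g, s 0 6, g], .hi 6, [.l [3, 7, 7, 5, 2], .l [1, 13, 10, 4, 4, 2, 8], .l [3, 7], .l [5, 8, 6, 1, 7, 4, 1, 4, 2, 4, 2, 3], .l [3, 1, 9, 6, 9, 2, 9, 1, 7, 5, 1, 1, 3], .l [6, 7], .l [5, 6, 4, 1, 7, 4, 1, 6, 2, 5], .l [1, 13, 7, 1, 10, 4, 8, 6, 7, 5, 1, 3, 3], .l [3, 1, 9, 6, 7, 6, 6, 4, 4, 2, 4, 2, 3], .l [1, 11, 5, 1, 8, 4,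 6, 4, 5, 3, 1, 1, 1], .r 4399 [1, 2, 3, 4, 7, 5, 6] [1, 1, 1, 1, 1, 1, 1], .l [3, 1, 7, 4, 5, 4, 4, 2, 2, 2, 4, 2, 3], .l [3, 1, 7, 4, 5, 4, 8, 4, 7, 1, 5, 1, 3], .l [5, 6, 4, 1, 7, 4, 6, 8, 6, 1], .l [3, 1, 7, 4, 5, 4, 4, 2, 4, 2, 5, 1, 3], .l [8, 7, 9, 1, 10, 6, 6, 4, 1], .y [1, 3, 4, 6, 12], .l [8, 7, 10, 12, 6, 6, 4, 1], .l [13, 7, 12, 9, 5, 10, 6, 4, 5, 3, 5, 1, 3], .l [1, 11, 13, 7, 7, 5, 2]]),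
([s 4 1, s 5 2, g, m 2 0, m 0 3, g, m 3 0, g, p 0 4, g, m 1 0, g, s 0 5, g], .lo 4, [.l [6, 2, 9, 3, 9, 5, 8, 1, 4, 5], .l [6, 2], .r 4398 [1, 2, 6, 3, 4, 5] [1, 1, 1, 1, 1, 1, 1], .r 4400 [1, 2, 6, 3, 4, 5] [1, 1, 1, 1, 1, 1], .l [6, 1, 7, 5, 1], .l [6, 1], .l [4, 5], .y [4, 6], .l [4, 7, 13, 8, 9, 4, 9, 2, 4, 5], .l [8, 3], .l [4, 7], .l [14, 12, 8, 5, 8, 9, 6, 3], .l [10, 5], .l [4, 9], .l [4, 9], .l [4, 11, 13, 4, 9, 3, 9, 5, 2, 5], .l [12, 7], .l [4, 11], .l [14, 9, 3, 11, 4, 8, 6, 1], .l [14, 9], .l [4, 13]]),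
([s 3 1, s 4 2, g, m 2 0, m 0 0, g, p 0 3, g, m 1 0, g, s 0 4, g], .hi 4, [.l [3, 5, 2], .l [1, 11, 8, 2, 8], .l [3, 5], .y [4], .l [3, 1, 7, 4, 1, 6, 2, 5], .l [12, 10, 10, 8, 1], .r 4401 [1, 2, 5, 3, 4] [1, 1, 1, 1, 1, 1], .l [10, 8, 8, 6, 1], .l [12, 10, 11, 6, 3, 4, 6, 3], .l [12, 10, 10, 8, 3], .l [1, 6, 4, 9, 4, 6, 3], .l [12, 10, 11, 6, 1, 4, 6, 3], .l [12, 10, 10, 8, 5], .l [6, 5, 7, 1, 8, 4, 1], .l [1, 9, 9, 3, 2], .l [6, 5, 8, 10, 4, 1], .l [10, 8, 8, 6, 9], .l [1, 9, 11, 5, 2]]),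
([s 6 1, s 7 2, g, p 4 3, g, s 3 0, g, m 2 0, p 5 4, g, p 0 5, g, p 0 6, g, m 1 0, g, s 0 7, g], .hi 5, [.l [3, 6, 9, 7, 7, 2, 9, 3, 9, 5, 8, 1, 4, 5], .l [7, 1, 9, 7, 11, 6, 11, 4, 8, 6, 5, 5, 3], .l [3, 6, 9, 7, 7, 2, 9, 3, 6, 4, 8, 6, 3], .l [6, 10, 6, 12, 9, 4, 11, 2, 10, 6, 4, 7], .l [7, 3, 9, 5, 7, 1, 7, 5, 2], .l [7, 1, 9, 5, 7, 1, 7, 5, 2], .l [6, 10, 6, 12, 9, 4, 11, 2, 10, 6, 4, 7], .l [4, 10, 8, 12, 9, 1, 11, 2, 6, 8, 7, 7, 5], .l [3, 4, 6, 1, 11, 6, 11, 4, 8, 6, 5, 5, 3], .l [1, 17, 12, 4, 6, 4, 12, 5], .l [3, 4, 4, 7, 9, 7, 2], .l [3, 4, 9, 4, 4, 1, 7, 5, 1], .y [3, 5, 10, 8], .l [11, 14, 2, 6, 9, 7, 7, 2, 9, 4, 6, 3], .l [5, 1, 7, 5, 5, 7, 9, 4, 9, 4, 6, 3], .l [3, 4, 11, 6, 11, 1, 11, 9, 6, 4,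 3, 3, 1], .l [5, 1, 7, 5, 5, 7, 7, 2, 7, 4, 4, 1], .l [4, 12, 7, 11, 1, 6, 11, 7, 10, 1, 6, 7], .l [4, 12, 7, 11, 1, 6, 6, 4, 10, 8, 3, 1, 3], .l [3, 4, 13, 8, 11, 4, 1, 6, 6, 4, 8, 6, 3], .l [16, 10, 10, 10, 15, 2, 5, 1, 9, 5, 1, 5, 6, 3], .l [5, 1, 7, 5, 5, 11, 5, 0, 9, 2, 5, 1, 3], .l [3, 4, 15, 10, 13, 6, 1, 4, 8, 6, 5, 5, 3], .l [1, 15, 15, 4, 7, 5, 5, 2, 7, 3, 7, 3, 0, 3], .l [18, 12, 12, 12, 12, 9, 3, 11, 4, 8, 6, 1], .l [5, 1, 7, 5, 5, 13, 1, 7, 1, 9, 2, 5], .l [3, 4, 17, 12, 12, 9, 3, 11, 4, 8, 6, 1]]),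
([s 5 1, s 6 2, g, p 3 0, g, m 2 0, p 4 3, g, p 0 4, g, p 0 5, g, m 1 0, g, s 0 6, g], .hi 3, [.l [5, 1, 11, 6, 9, 6, 9, 5, 8, 1, 4, 5], .l [7, 5, 11, 4, 7, 6, 10, 6, 9, 1, 5, 5, 3], .l [5, 1], .r 4403 [1, 2, 7, 3, 4, 5, 6] [1, 1, 1, 1, 1, 1, 1, 1], .l [3, 4], .l [5, 1], .l [3, 7, 9, 7, 2], .l [3, 7], .l [8, 4], .y [3, 8, 6], .l [16, 14, 8, 6, 6, 3, 6, 9, 6, 1], .l [3, 9], .l [10, 6], .l [3, 9], .l [12, 8, 11, 4, 1, 6, 9, 5, 8, 1, 4, 5], .l [3, 11], .l [12, 8], .l [14, 10, 15, 2, 5, 1, 9, 5, 1, 5, 6, 3], .l [3, 13], .l [14, 10], .l [5, 3, 9, 4, 7, 6, 6, 4, 6, 4, 5, 5, 1], .l [16, 12, 12, 9, 3, 11, 4, 8, 6, 1], .l [3, 15], .l [16, 12]]),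
([s 4 1, s 5 2, g, m 2 0, p 3 0, g, p 0 3, g, p 0 4, g, m 1 0, g, s 0 5, g], .hi 4, [.l [6, 2, 9, 3, 9, 5, 8, 1, 4, 5], .r 4404 [1, 2, 6, 3, 4, 5] [1, 1, 1, 1, 1, 1, 1], .l [6, 2], .l [6, 1, 7, 5, 1], .l [4, 5], .l [6, 1], .y [4, 6], .l [4, 7, 13, 8, 9, 4, 9, 2, 4, 5], .l [4, 7], .l [8, 3], .l [4, 7], .l [14, 12, 8, 5, 8, 9, 6, 3], .l [4, 9], .l [10, 5], .l [4, 11, 13, 4, 9, 3, 9, 5, 2, 5], .l [4, 11], .l [12, 7], .l [4, 11, 11, 2, 7, 3, 7, 3, 0, 3], .l [14, 9, 3, 11, 4, 8, 6, 1], .l [4, 13], .l [14, 9]]),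
([s 3 1, s 4 2, g, m 2 0, p 0 0, g, p 0 3, g, m 1 0, g, s 0 4, g], .lo 4, [.l [3, 5, 2], .l [3, 5], .l [1, 11, 8, 2, 8], .l [1, 9, 6, 0, 6], .y [4], .l [3, 1, 7, 4, 1, 6, 2, 5], .r 4405 [1, 2, 5, 3, 4] [1, 1, 1, 1, 1, 1], .l [12, 10, 10, 8, 1], .l [12, 10, 11, 6, 3, 4, 6, 3], .l [1, 6, 4, 9, 4, 6, 3], .l [12, 10, 10, 8, 3], .l [10, 8, 8, 6, 3], .l [12, 10, 11, 6, 1, 4, 6, 3], .l [6, 5, 7, 1, 8, 4, 1], .l [12, 10, 10, 8, 5], .l [6, 5, 8, 10, 4, 1], .l [1, 9, 11, 5, 2], .l [10, 8, 8, 6, 9]]),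
([s 4 1, s 5 2, g, m 2 0, s 0 3, g, p 0 4, g, m 1 0, g, m 3 0, g, s 0 5, g], .lo 4, [.l [1, 13, 10, 2, 10, 5], .l [3, 5, 2], .l [12, 5, 8, 2, 7], .l [10, 5, 6, 0, 5], .l [3, 1, 7, 4, 1, 6, 2, 7], .l [6, 1, 11, 9, 1], .l [3, 1, 7, 4, 1, 6, 2, 7], .l [8, 3, 11, 7, 1, 10, 8, 5], .l [8, 3, 11, 7, 1], .l [12, 7, 13, 2, 6, 8, 6, 1], .l [10, 5, 11, 2, 6, 6, 4, 1], .l [3, 1, 9, 5, 9, 3, 6, 1, 4, 5], .l [10, 5, 11, 5, 1], .l [14, 12, 13, 8, 1, 6, 8, 3], .y [4, 10], .l [14, 12, 13, 8, 1, 6, 8, 5], .l [10, 5, 11, 5, 1], .l [10, 5, 13, 4, 10, 8, 4, 1], .l [6, 5, 10, 12, 4, 1], .l [10, 5, 13, 7, 1], .l [12, 10, 11, 6, 1, 4, 6, 7]]),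
([s 4 1, s 5 2, g, m 2 0, s 0 3, g, p 0 4, g, p 3 0, g, m 1 0, g, s 0 5, g], .lo 4, [.l [1, 13, 10, 2, 10, 5], .l [3, 5, 2], .l [1, 13, 3, 5, 8, 2, 8, 3], .l [1, 11, 3, 5, 6, 0, 6, 3], .l [3, 1, 7, 4, 1, 8, 4, 7], .l [9, 12, 2, 5, 1, 6, 1, 6, 2, 5], .l [4, 9, 3, 7, 1], .l [7, 12, 4, 7, 1, 6, 1, 6, 2, 5], .l [8, 3, 13, 6, 10, 8, 6, 1], .l [4, 9, 1, 7, 1], .y [4, 8], .l [3, 1, 5, 2, 6, 1, 4, 6, 4, 5], .l [14, 12, 13, 8, 5, 6, 8, 3], .l [4, 9, 1, 7, 1], .l [4, 9, 1, 7, 1], .l [3, 1, 9, 6, 8, 4, 6, 1, 2, 5], .l [12, 7, 13, 2, 6, 8, 6, 1], .l [4, 11, 3, 9, 1], .l [3, 1, 9, 6, 10, 6, 8, 1, 4, 1], .l [1, 11, 3, 5, 11, 5, 2, 7], .l [4, 13, 5, 11, 1]]),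
([s 4 1, s 5 2, g, m 2 0, s 0 3, g, m 3 0, g, p 0 4, g, m 1 0, g, s 0 5, g], .lo 4, [.l [1, 13, 10, 2, 10, 3], .l [3, 5, 2], .l [8, 1, 4, 2, 3], .l [6, 1, 2, 0, 1], .l [3, 1, 9, 6, 1, 8, 2, 7], .l [6, 1, 7, 5, 1], .l [3, 1, 9, 6, 1, 8, 2, 7], .y [4, 6], .l [3, 1, 9, 6, 3, 8, 2, 7], .l [6, 1, 7, 5, 1], .l [3, 1, 9, 6, 3, 8, 2, 7], .l [9, 12, 2, 5, 1, 6, 1, 6, 2, 5], .l [6, 1, 9, 7, 1], .l [9, 12, 2, 5, 1, 6, 1, 6, 2, 5], .l [9, 10, 0, 3, 1, 4, 1, 4, 2, 3], .l [14, 12, 13, 6, 1, 4, 8, 5], .l [6, 1, 11, 9, 1], .l [14, 12, 13, 6, 1, 4, 8, 5], .l [8, 7, 10, 12, 4, 1], .l [6, 1, 13, 11, 1], .l [12, 10, 11, 4, 1, 2, 6, 7]]),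
([s 3 1, s 4 2, g, m 2 0, s 0 0, g, p 0 3, g, m 1 0, g, s 0 4, g], .hi 4, [.l [1, 11, 8, 2, 8, 3], .l [1, 11, 8, 2, 8, 3], .l [3, 5, 2], .y [4], .l [3, 1, 7, 4, 1, 6, 2, 5], .l [3, 1, 7, 4, 1, 6, 2, 5], .r 4409 [1, 2, 5, 3, 4] [1, 1, 1, 1, 1, 1], .l [3, 1, 5, 2, 1, 4, 2, 3], .l [12, 10, 11, 6, 3, 4, 6, 3], .r 4408 [1, 2, 5, 3, 4] [1, 1, 1, 1, 1, 1], .l [12, 10, 11, 6, 3, 4, 6, 3], .l [12, 10, 11, 6, 1, 4, 6, 3], .l [12, 10, 11, 6, 1, 4, 6, 3], .r 4407 [1, 2, 5, 3, 4] [1, 1, 1, 1, 1, 1], .l [3, 1, 7, 4, 6, 6, 4, 1], .l [6, 5, 8, 10, 4, 1], .l [10, 8, 9, 4, 1, 2, 4, 5], .l [6, 5, 8, 10, 4, 1]]),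
([s 3 1, s 0 2, g, p 0 3, g, m 1 0, m 2 4, g, s 4 0, g], .lo 1, [.l [8, 6, 3, 5, 2, 4, 2, 3], .l [8, 6, 7, 3, 1, 2, 3], .l [5, 4, 1], .l [5, 3, 7, 3, 4, 6, 4, 1], .l [5, 3, 7, 3, 4], .l [3, 2, 3], .l [3, 2, 3], .l [3, 2, 6, 8, 6, 1], .l [6, 4, 7, 2, 4], .l [3, 2, 6], .y [1, 6, 8], .l [6, 4, 9, 4, 4, 1], .l [6, 4, 9, 4, 6], .l [3, 2, 8]]),
([s 0 1, s 0 2, g, m 1 0, m 2 3, g, s 3 0, g], .lo 0, [.l [2], .r 4411 [1, 2, 4, 3] [1, 1, 1, 1], .l [2], .y [0, 3], .l [5], .l [3, 2, 5, 2, 5], .l [5], .l [5], .l [7], .l [3, 2, 7, 4, 1], .l [7]]),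
([s 0 1, s 3 2, g, p 0 3, m 0 4, g, s 4 0, g, s 2 0, g, m 1 0, g], .lo 0, [.l [2], .l [7, 12, 4, 9, 3, 1, 2, 3], .l [2], .l [5], .l [3, 1, 11, 8, 3, 5, 6, 1], .l [5], .l [5], .l [7], .l [3, 1, 7, 4, 1, 8, 4, 1], .l [7], .l [7], .l [9], .l [3, 1, 9, 6, 1, 8, 2, 3], .l [9], .y [0, 10], .l [11], .l [3, 1, 9, 6, 1, 8, 2, 3], .l [11]]),
([s 0 1, s 3 2, g, p 0 3, m 0 4, g, s 5 0, g, m 4 5, g, s 2 0, g, m 1 0, g], .lo 0, [.l [2], .l [7, 14, 6, 1, 1, 9, 3, 1, 2, 3], .l [2], .l [5], .l [1, 6, 4, 13, 8, 10, 5], .l [5], .l [5], .l [7], .l [1, 8, 6, 13, 6, 10, 7], .l [7], .l [9], .l [5, 8, 6, 1, 7, 4, 1, 8, 4, 1], .l [9], .l [9], .l [11], .l [5, 8, 6, 1, 9, 6, 1, 8, 2, 3], .l [11], .y [0, 12], .l [13], .l [5, 8, 6, 1, 9,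 6, 1, 8, 2, 3], .l [13]]),
([s 0 1, s 3 2, g, p 0 3, m 0 4, g, m 4 5, g, s 5 0, g, s 2 0, g, m 1 0, g], .lo 0, [.l [2], .l [7, 14, 6, 1, 8, 2, 3, 5, 6, 3], .l [2], .l [5], .l [1, 6, 4, 13, 8, 10, 7], .l [5], .l [7], .l [5, 6, 4, 1, 11, 8, 3, 5, 6, 1], .l [7], .l [7], .l [9], .l [5, 6, 4, 1, 7, 4, 1, 8, 4, 1], .l [9], .l [9], .l [11], .l [5, 6, 4, 1, 9, 6, 1, 8, 2, 3], .l [11], .y [0, 12], .l [13], .l [5, 6, 4, 1, 9, 6, 1, 8, 2, 3], .l [13]])]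

def d17_1 : List (List Item × Qry × List Rf) := [
([s 0 1, s 3 2, g, p 0 3, m 0 4, g, m 4 5, g, m 5 6, g, m 6 0, g, s 2 0, g, m 1 0, g], .lo 0, [.l [2], .l [10, 12, 11, 11, 9, 13, 5, 1, 9, 3, 1, 2, 3], .l [2], .l [5], .l [1, 6, 4, 15, 10, 12, 9], .l [5], .l [7], .l [10, 12, 11, 11, 7, 7, 5, 1, 6, 3, 8, 4, 1], .l [7], .l [9], .l [8, 12, 11, 11, 9, 9, 7, 1, 4, 1, 8, 6, 3], .l [9], .l [9], .l [11], .l [8, 10, 9, 9, 7, 7, 5, 1, 6, 3, 8, 4, 1], .l [11], .l [11], .l [13], .l [8, 10, 9, 9, 7, 7, 5, 1, 8, 5, 8, 2, 3], .l [13], .y [0, 14], .l [15], .l [8, 10, 9, 9, 7, 7, 5, 1, 8, 5, 8, 2, 3], .l [15]]),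
([s 0 1, s 3 2, g, p 0 3, m 0 4, g, m 4 5, g, m 5 6, g, s 6 0, g, s 2 0, g, m 1 0, g], .lo 0, [.l [2], .l [9, 10, 8, 14, 6, 1, 8, 2, 3, 5, 6, 3], .l [2], .l [5], .l [1, 6, 4, 15, 10, 12, 9], .l [5], .l [7], .l [9, 16, 6, 1, 13, 7, 8, 10, 6, 6, 4, 1], .l [7], .l [9], .l [7, 8, 6, 6, 4, 1, 11, 8, 3, 5, 6, 1], .l [9], .l [9], .l [11], .l [7, 8, 6, 6, 4, 1, 7, 4, 1, 8, 4, 1], .l [11], .l [11], .l [13], .l [7, 8, 6, 6, 4, 1, 9, 6, 1, 8, 2, 3], .l [13], .y [0, 14], .l [15], .l [7, 8, 6, 6, 4, 1, 9, 6, 1, 8, 2, 3], .l [15]]),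
([s 0 1, s 3 2, g, p 0 3, m 0 4, g, m 4 5, g, s 6 0, g, m 5 6, g, s 2 0, g, m 1 0, g], .lo 0, [.l [2], .l [9, 12, 10, 14, 6, 1, 1, 9, 3, 1, 2, 3], .l [2], .l [5], .l [1, 6, 4, 15, 10, 12, 9], .l [5], .l [7], .l [9, 12, 8, 8, 6, 1, 7, 4, 1, 8, 4, 1], .l [7], .l [7], .l [9], .l [10, 9, 12, 5, 3, 5, 1, 10, 6, 8, 6, 1], .l [9], .l [11], .l [7, 10, 8, 8, 6, 1, 7, 4, 1, 8, 4, 1], .l [11], .l [11], .l [13], .l [7, 10, 8, 8, 6, 1, 9, 6, 1, 8, 2, 3], .l [13], .y [0, 14], .l [15], .l [7, 10, 8, 8, 6, 1, 9, 6, 1, 8, 2, 3], .l [15]]),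
([s 0 1, s 3 2, g, p 0 3, m 0 4, g, m 4 5, g, m 5 0, g, s 2 0, g, m 1 0, g], .hi 8, [.l [7], .l [3, 9, 9, 7, 7, 5, 2], .l [1, 11, 8, 6, 6, 4, 4, 2, 4], .l [3, 9], .l [1, 9, 6, 4, 4, 2, 2, 0, 2], .y [4, 6, 8], .l [6, 9, 13, 9, 6, 10, 6, 1], .l [5, 8, 6, 1, 11, 8, 3], .l [6, 9], .r 4418 [1, 2, 3, 4, 5, 6] [1, 1, 1, 1, 1, 1, 1], .l [7, 10, 8, 8, 6, 1, 9, 6, 1], .l [8, 9], .r 4417 [1, 2, 3, 4, 5, 6] [1, 1, 1, 1, 1, 1, 1], .l [7, 8, 6, 6, 4, 1, 9, 6, 1], .r 4416 [1, 2, 3, 4, 5, 6] [1, 1, 1, 1, 1, 1, 1], .l [14, 13, 8, 10, 8, 8, 6, 6, 4, 1], .l [7, 8, 6, 6, 4, 1, 9, 6, 3], .l [1, 9, 11, 9, 9, 7, 7, 5, 2], .l [12, 11, 8, 12, 10, 10, 8, 8, 6, 1], .l [7, 8, 6, 6, 4, 1, 7, 4, 6], .l [1, 9, 13, 11, 11, 9, 9, 7, 2]]),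
([s 0 1, s 3 2, g, p 0 3, m 0 4, g, m 4 0, g, s 2 0, g, m 1 0, g], .hi 6, [.l [5], .l [3, 7, 7, 5, 2], .l [1, 9, 6, 4, 4, 2, 4], .l [3, 7], .l [1, 7, 4, 2, 2, 0, 2], .y [4, 6], .r 4414 [1, 2, 3, 4, 5] [1, 1, 1, 1, 1, 1], .l [5, 8, 6, 1, 9, 6, 1], .l [6, 7], .r 4415 [1, 2, 3, 4, 5] [1, 1, 1, 1, 1, 1], .l [5, 6, 4, 1, 9, 6, 1], .r 4419 [1, 2, 3, 4, 5] [1, 1, 1, 1, 1, 1], .l [12, 11, 6, 8, 6, 6, 4, 1], .l [5, 6, 4, 1, 9, 6, 3], .l [1, 7, 9, 7, 7, 5, 2], .l [10, 9, 6, 10, 8, 8, 6, 1], .l [5, 6, 4, 1, 7, 4, 6], .l [1, 7, 11, 9, 9, 7, 2]]),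
([s 0 1, s 3 2, g, p 0 3, m 0 0, g, s 2 0, g, m 1 0, g], .hi 4, [.l [3], .l [3, 5, 2], .l [1, 7, 4, 2, 4], .l [3, 5], .l [1, 5, 2, 0, 2], .y [4], .r 4413 [1, 2, 3, 4] [1, 1, 1, 1, 1], .l [8, 6, 6, 4, 1], .r 4420 [1, 2, 3, 4] [1, 1, 1, 1, 1], .l [10, 9, 4, 6, 4, 1], .l [6, 4, 4, 2, 5], .l [1, 5, 7, 5, 2], .l [8, 7, 4, 8, 6, 1], .l [6, 4, 4, 2, 7], .l [1, 5, 9, 7, 2]]),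
([s 0 1, s 4 2, g, m 1 0, g, m 2 0, s 0 3, g, m 3 0, g, s 0 4, g], .lo 6, [.l [5, 4, 10, 8, 4, 7], .l [3, 7, 4], .l [10, 1, 6, 4, 5], .l [8, 1, 4, 2, 3], .l [3, 2, 10, 6, 2, 7], .l [5, 7, 2], .l [10, 1, 4, 2, 5], .l [8, 1, 2, 0, 3], .l [8, 1, 9, 7, 3, 1, 2, 5], .l [8, 1, 9, 7, 3], .l [12, 10, 1, 9, 6, 1], .y [6, 8], .l [12, 10, 1, 9, 6, 3], .l [8, 1, 9, 7, 3], .l [12, 10, 1, 9, 6, 3], .l [3, 2, 8, 10, 6, 3], .l [8, 1, 11, 9, 3], .l [10, 8, 1, 7, 4, 7]]),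
([s 0 1, s 3 2, g, m 1 0, g, m 2 0, s 0 0, g, s 0 3, g], .hi 6, [.l [5], .l [5, 4, 8, 6, 4, 5], .l [5, 4, 8, 6, 4, 5], .l [3, 7, 4], .l [3, 2, 8, 4, 2, 5], .l [3, 2, 8, 4, 2, 5], .l [5, 7, 2], .y [6], .l [10, 8, 1, 7, 4, 1], .l [10, 8, 1, 7, 4, 1], .r 4422 [1, 2, 4, 3] [1, 1, 1, 1, 1], .l [3, 2, 6, 6, 4, 3], .l [3, 2, 6, 8, 6, 3], .l [8, 6, 1, 5, 2, 5], .l [3, 2, 6, 8, 6, 3]]),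
([s 5 1, s 3 2, g, p 0 3, s 0 4, g, p 0 5, g, s 2 0, g, p 4 0, g, m 1 0, g], .lo 4, [.l [1, 9, 6, 2, 6, 1], .l [3, 5, 2], .l [1, 9, 6, 2, 6, 1], .l [3, 1, 7, 4, 1, 10, 6, 1], .l [11, 14, 2, 5, 1, 6, 1, 6, 2, 5], .l [4, 11, 5, 9, 1], .l [4, 7, 13, 9, 4, 10, 1, 3, 6, 1], .l [10, 8, 9, 4, 1, 4, 9, 7, 2, 3], .l [4, 11, 3, 9, 1], .l [3, 1, 11, 8, 3, 3, 6, 3], .l [6, 5, 6, 8, 4, 1], .l [4, 11, 13, 5, 8, 10, 4, 1], .l [4, 11, 1, 9, 1], .y [4, 10], .l [3, 1, 5, 2, 8, 1, 6, 8, 6, 1], .l [6, 5, 6, 10, 6, 1], .l [4, 11, 1, 9, 1], .l [4, 11, 1, 9, 1], .l [3, 1, 11, 8, 10, 4, 8, 1, 4, 1], .l [4, 9, 11, 5, 8, 10, 4, 1], .l [4, 13, 3, 11, 1]]),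
([s 5 1, s 3 2, g, p 0 3, s 0 4, g, p 0 5, g, m 4 0, g, s 2 0, g, m 1 0, g], .lo 4, [.l [1, 11, 8, 2, 8, 3], .l [3, 5, 2], .l [10, 3, 6, 2, 5], .l [3, 1, 7, 4, 1, 10, 6, 3], .l [6, 1, 9, 7, 1], .l [3, 1, 7, 4, 1, 10, 6, 3], .l [8, 3, 9, 5, 1, 8, 6, 3], .l [8, 3, 9, 5, 1], .l [3, 1, 13, 10, 3, 7, 8, 1], .y [4, 8], .l [4, 9, 13, 7, 4, 10, 8, 1], .l [8, 3, 9, 5, 1], .l [4, 9, 13, 7, 4, 10, 8, 1], .l [3, 1, 11, 8, 5, 5, 6, 3], .l [6, 5, 8, 10, 4, 1], .l [8, 3, 11, 7, 1], .l [10, 8, 9, 4, 1, 4, 9, 7, 2, 3], .l [10, 8, 9, 4, 1, 4, 7, 5, 2, 3], .l [6, 5, 8, 12, 6, 1], .l [8, 3, 13, 9, 1], .l [3, 1, 11, 8, 10, 4, 2, 5]]),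
([s 5 1, s 3 2, g, p 0 3, s 0 4, g, m 4 0, g, p 0 5, g, s 2 0, g, m 1 0, g], .lo 4, [.l [1, 11, 8, 2, 8, 1], .l [3, 5, 2], .l [8, 1, 4, 2, 3], .l [3, 1, 9, 6, 1, 10, 4, 1], .l [6, 1, 7, 5, 1], .l [3, 1, 9, 6, 1, 10, 4, 1], .y [4, 6], .l [3, 1, 9, 6, 3, 10, 4, 1], .l [6, 1, 7, 5, 1], .l [3, 1, 9, 6, 3, 10, 4, 1], .l [4, 9, 13, 7, 4, 8, 6, 1], .l [6, 1, 9, 7, 1], .l [4, 9, 13, 7, 4, 8, 6, 1], .l [3, 1, 11, 8, 5, 5, 6, 1], .l [8, 7, 8, 10, 4, 1], .l [6, 1, 11, 9, 1], .l [11, 14, 2, 5, 1, 6, 1, 6, 2, 5], .l [11, 12, 0, 3, 1, 4, 1, 4, 2, 3], .l [8, 7, 8, 12, 6, 1], .l [6, 1, 13, 11, 1], .l [3, 1, 11, 8, 10, 4, 2, 3]]),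
([s 4 1, s 3 2, g, p 0 3, s 0 0, g, p 0 4, g, s 2 0, g, m 1 0, g], .hi 4, [.l [1, 9, 6, 2, 6, 1], .l [1, 9, 6, 2, 6, 1], .l [3, 5, 2], .l [1, 7, 4, 0, 4, 1], .y [4], .l [3, 1, 7, 4, 1, 8, 4, 1], .l [3, 1, 7, 4, 1, 8, 4, 1], .r 4426 [1, 2, 3, 5, 4] [1, 1, 1, 1, 1, 1], .l [3, 1, 5, 2, 1, 6, 4, 1], .l [3, 1, 11, 8, 3, 5, 6, 1], .l [3, 1, 11, 8, 3, 5, 6, 1], .r 4425 [1, 2, 3, 5, 4] [1, 1, 1, 1, 1, 1], .l [6, 5, 6, 8, 4, 1], .r 4424 [1, 2, 3, 5, 4] [1, 1, 1, 1, 1, 1], .l [6, 5, 6, 8, 4, 1], .l [6, 5, 6, 10, 6, 1], .l [3, 1, 9, 6, 8, 4, 2, 3], .l [6, 5, 6, 10, 6, 1]]),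
([s 5 1, s 3 2, g, p 0 3, s 0 4, g, m 4 0, g, s 2 0, g, p 0 5, g, m 1 0, g], .lo 4, [.l [2, 14, 11, 2, 10, 1], .l [3, 5, 2], .l [8, 1, 4, 2, 3], .l [3, 1, 11, 8, 1, 10, 2, 3], .l [6, 1, 7, 5, 1], .l [3, 1, 11, 8, 1, 10, 2, 3], .y [4, 6], .l [3, 1, 11, 8, 3, 10, 2, 3], .l [6, 1, 7, 5, 1], .l [3, 1, 11, 8, 3, 10, 2, 3], .l [3, 1, 9, 6, 3, 8, 2, 3], .l [3, 1, 11, 8, 5, 10, 2, 7], .l [6, 1, 9, 7, 1], .l [3, 1, 11, 8, 5, 10, 2, 7], .l [8, 6, 9, 1, 11, 9, 4, 5], .l [6, 1, 11, 9, 1], .l [8, 6, 9, 1, 11, 9, 4, 5], .l [8, 6, 9, 1, 9, 7, 4, 5], .l [4, 13, 5, 8, 5, 1, 3, 1, 6, 1], .l [6, 1, 13, 11, 1], .l [4, 13, 5, 8, 5, 1, 3, 1, 6, 1]]),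
([s 4 1, s 3 2, g, p 0 3, s 0 0, g, s 2 0, g, p 0 4, g, m 1 0, g], .hi 4, [.l [2, 12, 9, 2, 8, 1], .l [2, 12, 9, 2, 8, 1], .l [3, 5, 2], .l [2, 10, 7, 0, 6, 1], .y [4], .l [3, 1, 9, 6, 1, 8, 2, 3], .l [3, 1, 9, 6, 1, 8, 2, 3], .r 4428 [1, 2, 3, 5, 4] [1, 1, 1, 1, 1, 1], .l [3, 1, 9, 6, 3, 8, 2, 5], .l [3, 1, 9, 6, 3, 8, 2, 5], .l [6, 4, 9, 3, 9, 5, 2, 5], .l [3, 1, 7, 4, 3, 6, 2, 3], .l [6, 4, 7, 1, 9, 7, 2, 3], .l [6, 4, 7, 1, 9, 7, 2, 3], .l [8, 7, 4, 8, 6, 1], .l [6, 4, 7, 1, 7, 5, 2, 5], .l [6, 4, 7, 1, 7, 5, 2, 5], .l [8, 7, 4, 10, 8, 1]]),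
([s 5 1, s 4 2, g, m 2 0, s 0 3, g, m 3 0, g, s 0 4, g, p 0 5, g, m 1 0, g], .lo 4, [.l [2, 14, 11, 2, 10, 1], .l [3, 5, 2], .l [8, 1, 4, 2, 3], .l [6, 1, 2, 0, 1], .l [3, 1, 11, 8, 1, 10, 2, 3], .l [6, 1, 7, 5, 1], .l [3, 1, 11, 8, 1, 10, 2, 3], .y [4, 6], .l [3, 1, 11, 8, 3, 10, 2, 3], .l [6, 1, 7, 5, 1], .l [3, 1, 11, 8, 3, 10, 2, 3], .l [3, 1, 11, 8, 5, 10, 2, 7], .l [6, 1, 9, 7, 1], .l [3, 1, 11, 8, 5, 10, 2, 7], .l [8, 6, 9, 1, 11, 9, 4, 5], .l [6, 1, 11, 9, 1], .l [8, 6, 9, 1, 11, 9, 4, 5], .l [8, 6, 9, 1, 9, 7, 4, 5], .l [4, 13, 5, 8, 5, 1, 3, 1, 6, 1], .l [6, 1, 13, 11, 1], .l [4, 13, 5, 8, 5, 1, 3, 1, 6, 1]]),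
([s 4 1, s 3 2, g, m 2 0, s 0 0, g, s 0 3, g, p 0 4, g, m 1 0, g], .hi 4, [.l [2, 12, 9, 2, 8, 1], .l [2, 12, 9, 2, 8, 1], .l [3, 5, 2], .y [4], .l [3, 1, 9, 6, 1, 8, 2, 3], .l [3, 1, 9, 6, 1, 8, 2, 3], .r 4430 [1, 2, 5, 3, 4] [1, 1, 1, 1, 1, 1], .l [3, 1, 7, 4, 1, 6, 2, 3], .l [3, 1, 9, 6, 3, 8, 2, 5], .l [3, 1, 9, 6, 3, 8, 2, 5], .l [6, 4, 9, 3, 9, 5, 2, 5], .l [3, 1, 7, 4, 3, 6, 2, 3], .l [6, 4, 7, 1, 9, 7, 2, 3], .l [6, 4, 7, 1, 9, 7, 2, 3], .l [8, 7, 4, 8, 6, 1], .l [6, 4, 7, 1, 7, 5, 2, 5], .l [6, 4, 7, 1, 7, 5, 2, 5], .l [8, 7, 4, 10, 8, 1]]),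
([s 0 1, s 3 2, g, p 0 3, s 0 0, g, s 2 0, g, m 1 0, g], .lo 0, [.l [2], .R 4423 [4, 3, 2] [1, 1, 1, 3], .l [2], .l [3], .l [5], .r 4427 [1, 2, 3, 4] [1, 1, 1, 1, 1], .l [5], .l [5], .l [7], .r 4429 [1, 2, 3, 4] [1, 1, 1, 1, 1], .l [7], .y [0, 8], .l [9], .R 4431 [4, 3, 2, 1] [1, 1, 1, 1, 1], .l [9]]),
([s 0 1, s 3 2, g, p 0 3, p 4 0, g, p 5 4, g, p 6 5, g, p 0 6, g, s 2 0, g, m 1 0, g], .lo 0, [.l [2], .l [10, 12, 11, 11, 9, 13, 5, 1, 9, 3, 1, 2, 3], .l [2], .l [1, 4, 2, 13, 10, 10, 7], .l [5], .l [1, 6, 4, 15, 10, 12, 9], .l [5], .l [7], .l [10, 12, 11, 11, 7, 7, 5, 1, 6, 3, 8, 4, 1], .l [7], .l [9], .l [8, 12, 11, 11, 9, 9, 7, 1, 4, 1, 8, 6, 3], .l [9], .l [11], .l [8, 10, 9, 9, 7, 7, 5, 1, 6, 3, 8, 4, 1],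 .l [11], .l [11], .l [13], .l [8, 10, 9, 9, 7, 7, 5, 1, 8, 5, 8, 2, 3], .l [13], .y [0, 14], .l [15], .l [8, 10, 9, 9, 7, 7, 5, 1, 8, 5, 8, 2, 3], .l [15]]),
([s 0 1, s 3 2, g, p 0 3, p 4 0, g, p 5 4, g, p 6 5, g, s 0 6, g, s 2 0, g, m 1 0, g], .lo 0, [.l [2], .l [9, 10, 8, 14, 6, 1, 8, 2, 3, 5, 6, 3], .l [2], .l [1, 4, 2, 13, 10, 10, 7], .l [5], .l [1, 6, 4, 15, 10, 12, 9], .l [5], .l [7], .l [9, 16, 6, 1, 13, 7, 8, 10, 6, 6, 4, 1], .l [7], .l [9], .l [7, 8, 6, 6, 4, 1, 11, 8, 3, 5, 6, 1], .l [9], .l [11], .l [7, 8, 6, 6, 4, 1, 7, 4, 1, 8, 4, 1], .l [11], .l [11], .l [13], .l [7, 8, 6, 6, 4, 1, 9, 6, 1, 8, 2, 3], .l [13], .y [0, 14], .l [15], .l [7, 8, 6, 6, 4, 1, 9, 6, 1, 8, 2, 3], .l [15]]),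
([s 0 1, s 3 2, g, p 0 3, p 4 0, g, p 6 4, g, s 0 5, g, p 5 6, g, s 2 0, g, m 1 0, g], .lo 0, [.l [2], .l [9, 12, 10, 14, 6, 1, 1, 9, 3, 1, 2, 3], .l [2], .l [1, 4, 2, 13, 10, 10, 7], .l [5], .l [1, 6, 4, 15, 10, 12, 9], .l [5], .l [7], .l [9, 12, 8, 8, 6, 1, 7, 4, 1, 8, 4, 1], .l [7], .l [9], .l [10, 9, 12, 5, 3, 5, 1, 10, 6, 8, 6, 1], .l [9], .l [11], .l [7, 10, 8, 8, 6, 1, 7, 4, 1, 8, 4, 1], .l [11], .l [11], .l [13], .l [7, 10, 8, 8, 6, 1, 9, 6, 1, 8, 2, 3], .l [13], .y [0, 14], .l [15], .l [7, 10, 8, 8, 6, 1, 9, 6, 1, 8, 2, 3], .l [15]]),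
([s 0 1, s 3 2, g, p 0 3, p 4 0, g, p 5 4, g, p 0 5, g, s 2 0, g, m 1 0, g], .lo 8, [.l [3, 9, 9, 7, 7, 5, 2], .l [3, 9], .l [1, 11, 8, 6, 6, 4, 4, 2, 4], .y [4, 8, 6], .l [6, 9, 13, 9, 6, 10, 6, 1], .l [6, 9], .l [5, 8, 6, 1, 11, 8, 3], .r 4435 [1, 2, 3, 4, 6, 5] [1, 1, 1, 1, 1, 1, 1], .l [8, 9], .l [7, 10, 8, 8, 6, 1, 9, 6, 1], .r 4434 [1, 2, 3, 4, 5, 6] [1, 1, 1, 1, 1, 1, 1], .r 4433 [1, 2, 3, 4, 5, 6] [1, 1, 1, 1, 1, 1, 1], .l [7, 8, 6, 6, 4, 1, 9, 6, 1], .l [1, 9, 9, 7, 7, 5, 5, 3, 2], .l [14, 13, 8, 10, 8, 8, 6, 6, 4, 1], .l [1, 9, 11, 9, 9, 7, 7, 5, 2], .l [7, 8, 6, 6, 4, 1, 9, 6, 3], .l [7, 8, 6, 6, 4, 1, 7, 4, 3], .l [12, 11, 8, 12, 10, 10, 8, 8, 6, 1], .l [1, 9, 13, 11, 11, 9, 9, 7, 2], .l [7, 8, 6,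 6, 4, 1, 7, 4, 6]]),
([s 0 1, s 3 2, g, p 0 3, p 4 0, g, p 5 4, g, s 0 5, g, s 2 0, g, m 1 0, g], .lo 0, [.l [2], .l [7, 14, 6, 1, 8, 2, 3, 5, 6, 3], .l [2], .l [1, 4, 2, 11, 8, 8, 5], .l [5], .l [1, 6, 4, 13, 8, 10, 7], .l [5], .l [7], .l [5, 6, 4, 1, 11, 8, 3, 5, 6, 1], .l [7], .l [9], .l [5, 6, 4, 1, 7, 4, 1, 8, 4, 1], .l [9], .l [9], .l [11], .l [5, 6, 4, 1, 9, 6, 1, 8, 2, 3], .l [11], .y [0, 12], .l [13], .l [5, 6, 4, 1, 9, 6, 1, 8, 2, 3], .l [13]]),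
([s 0 1, s 3 2, g, p 0 3, p 5 0, g, s 0 4, g, p 4 5, g, s 2 0, g, m 1 0, g], .lo 0, [.l [2], .l [7, 14, 6, 1, 1, 9, 3, 1, 2, 3], .l [2], .l [1, 4, 2, 11, 8, 8, 3], .l [5], .l [1, 6, 4, 13, 8, 10, 5], .l [5], .l [7], .l [1, 8, 6, 13, 6, 10, 7], .l [7], .l [9], .l [5, 8, 6, 1, 7, 4, 1, 8, 4, 1], .l [9], .l [9], .l [11], .l [5, 8, 6, 1, 9, 6, 1, 8, 2, 3], .l [11], .y [0, 12], .l [13], .l [5, 8, 6, 1, 9, 6, 1, 8, 2, 3], .l [13]]),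
([s 0 1, s 3 2, g, p 0 3, p 4 0, g, p 0 4, g, s 2 0, g, m 1 0, g], .lo 6, [.l [3, 7, 7, 5, 2], .l [3, 7], .l [1, 9, 6, 4, 4, 2, 4], .y [4, 6], .r 4438 [1, 2, 3, 5, 4] [1, 1, 1, 1, 1, 1], .l [6, 7], .l [5, 8, 6, 1, 9, 6, 1], .r 4437 [1, 2, 3, 4, 5] [1, 1, 1, 1, 1, 1], .r 4436 [1, 2, 3, 4, 5] [1, 1, 1, 1, 1, 1], .l [5, 6, 4, 1, 9, 6, 1], .l [1, 7, 7, 5, 5, 3, 2], .l [12, 11, 6, 8, 6, 6, 4, 1], .l [1, 7, 9, 7, 7, 5, 2], .l [5, 6, 4, 1, 9, 6, 3], .l [5, 6, 4, 1, 7, 4, 3], .l [10, 9, 6, 10, 8, 8, 6, 1], .l [1, 7, 11, 9, 9, 7, 2], .l [5, 6, 4, 1, 7, 4, 6]]),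
([s 0 1, s 3 2, g, p 0 3, p 4 0, g, s 0 4, g, s 2 0, g, m 1 0, g], .lo 0, [.l [2], .l [7, 12, 4, 9, 3, 1, 2, 3], .l [2], .l [3, 1, 9, 6, 1, 3, 4, 1], .l [5], .l [3, 1, 11, 8, 3, 5, 6, 1], .l [5], .l [7], .l [3, 1, 7, 4, 1, 8, 4, 1], .l [7], .l [7], .l [9], .l [3, 1, 9, 6, 1, 8, 2, 3], .l [9], .y [0, 10], .l [11], .l [3, 1, 9, 6, 1, 8, 2, 3], .l [11]]),
([s 0 1, s 3 2, g, p 0 3, p 0 0, g, s 2 0, g, m 1 0, g], .lo 4, [.l [3, 5, 2], .l [3, 5], .l [1, 7, 4, 2, 4], .y [4], .r 4440 [1, 2, 3, 4] [1, 1, 1, 1, 1], .r 4439 [1, 2, 3, 4] [1, 1, 1, 1, 1], .l [8, 6, 6, 4, 1], .l [1, 5, 5, 3, 2], .l [10, 9, 4, 6, 4, 1], .l [1, 5, 7, 5, 2], .l [6, 4, 4, 2, 5], .l [6, 4, 4, 2, 5], .l [8, 7, 4, 8, 6, 1], .l [1, 5, 9, 7, 2], .l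 [6, 4, 4, 2, 7]]),
([s 0 1, s 3 2, g, p 0 3, g, s 2 0, g, m 1 0, g], .top 4, [.l [1, 3, 2], .r 4432 [1, 2, 3] [1, 1, 1, 1], .r 4441 [1, 2, 3] [1, 1, 1, 1], .r 4421 [1, 2, 3] [1, 1, 1, 1]]),
([s 3 1, s 4 2, g, s 2 0, g, p 0 3, p 5 4, g, p 6 5, g, m 1 0, g, p 0 6, g], .hi 10, [.l [3, 11, 13, 11, 11, 9, 3], .l [1, 4, 1, 9, 11, 9, 9, 7, 2, 4, 1, 5, 1], .l [3, 11], .l [5, 11, 13, 11, 11, 9, 1], .l [8, 3, 11, 13, 11, 11, 4, 8, 3], .l [5, 11], .y [0, 10, 5], .l [7, 10, 8, 4, 1, 8, 4, 3], .l [5, 4, 1, 10, 6, 8, 7, 7, 3, 7, 3, 5, 3], .l [8, 11], .l [9, 14, 12, 12, 10, 4, 1, 6, 2, 1], .l [5, 4, 1, 10, 6, 8, 7, 7, 5, 7, 1, 5, 1], .l [10, 11], .l [9, 14, 12, 12, 10, 4, 1, 4, 0, 3], .l [9, 14, 12, 12, 10, 4, 1, 4, 0, 3],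 .l [5, 4, 1, 8, 4, 6, 5, 5, 3, 7, 3, 5, 3], .l [9, 12, 10, 10, 8, 4, 1, 4, 0, 3], .l [9, 12, 10, 10, 8, 4, 1, 4, 0, 5], .l [5, 4, 1, 8, 4, 6, 5, 5, 3, 5, 1, 3, 3], .l [5, 4, 1, 8, 4, 6, 5, 5, 3, 5, 1, 5, 1]]),
([s 3 1, s 4 2, g, s 2 0, g, p 0 3, p 5 4, g, p 6 5, g, p 0 6, g, m 1 0, g], .lo 10, [.l [3, 11, 11, 9, 9, 7, 3], .l [3, 11], .l [1, 4, 1, 9, 9, 7, 7, 5, 2, 6, 3, 5, 3], .y [1, 3, 10, 8, 6], .l [5, 11, 11, 9, 9, 7, 1], .l [5, 11], .l [7, 6, 1, 12, 6, 10, 9, 9, 7, 7, 5, 5, 1], .l [7, 10, 8, 4, 1, 10, 6, 3], .l [8, 11], .l [5, 4, 1, 12, 8, 10, 9, 9, 5, 5, 3, 5, 1], .l [9, 12, 10, 10, 8, 4, 1, 8, 4, 1], .l [10, 11], .l [5, 4, 1, 12, 8, 10, 9, 9, 7, 7, 3, 5, 1], .l [9, 10, 8, 8, 6, 4, 1, 8, 4, 1], .l [5, 4,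 1, 12, 8, 10, 9, 9, 7, 7, 5, 5, 3], .l [9, 10, 8, 8, 6, 4, 1, 8, 4, 1], .l [9, 10, 8, 8, 6, 4, 1, 6, 2, 1], .l [9, 10, 8, 8, 6, 4, 1, 6, 2, 5], .l [5, 4, 1, 10, 6, 8, 7, 7, 5, 5, 3, 5, 1], .l [5, 4, 1, 10, 6, 8, 7, 7, 5, 5, 3, 3, 3]]),
([s 3 1, s 4 2, g, s 2 0, g, p 0 3, p 5 4, g, p 0 5, g, m 1 0, g], .lo 8, [.l [3, 9, 9, 7, 3], .l [3, 9], .l [8, 5, 9, 9, 4, 6, 1], .y [1, 3, 8, 6], .l [5, 9, 9, 7, 1], .l [5, 9], .l [8, 3, 9, 9, 2, 6, 3], .l [7, 10, 8, 4, 1, 8, 4, 1], .l [8, 9], .l [7, 10, 8, 4, 1, 8, 4, 1], .l [7, 8, 6, 4, 1, 8, 4, 1], .r 4444 [1, 2, 3, 4, 5, 6] [1, 1, 1, 1, 1, 1], .l [7, 8, 6, 4, 1, 8, 4, 1], .l [7, 8, 6, 4, 1, 6, 2, 1], .l [7, 8, 6, 4, 1, 6, 2, 5], .r 4443 [1, 2, 3, 4, 5, 6] [1, 1, 1, 1, 1,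 1], .l [7, 8, 6, 4, 1, 6, 2, 5]]),
([s 2 1, s 3 0, g, p 0 2, p 4 3, g, p 0 4, g, m 1 0, g], .hi 1, [.r 4445 [1, 5, 2, 3, 4] [1, 1, 1, 1, 1], .l [5, 4, 1], .l [6, 4, 7, 2, 3, 0, 3], .l [3, 2, 1], .r 4442 [1, 5, 3] [2, 1, 3, 1], .l [1, 5, 7, 5, 1], .l [4, 2, 5, 2, 2], .y [1, 6, 4], .l [4, 2, 7, 4, 4, 1], .l [3, 2, 6], .l [4, 2, 7, 4, 4], .l [4, 2, 9, 6, 6, 3], .l [3, 2, 8], .l [4, 2, 9, 6, 6]]),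
([s 4 1, s 3 2, m 0 0, g, s 0 3, g, p 0 4, g, m 1 0, m 2 5, g, m 5 0, g], .hi 2, [.y [2], .l [8, 7, 4, 8, 1, 8, 4, 1], .l [6, 4, 1], .l [2, 8, 5, 10, 3, 7, 9, 4, 4], .l [4, 2, 1], .l [8, 7, 2, 8, 1, 8, 2, 3], .l [4, 2, 4], .l [8, 4, 6, 3, 9, 3, 6, 8, 4, 1], .l [4, 2, 4], .l [6, 5, 2, 8, 3, 8, 2, 5], .l [4, 2, 6], .l [6, 5, 2, 8, 3, 8, 2, 5], .l [4, 2, 9, 11, 9, 3], .l [3, 1, 10, 12, 10, 4, 4, 1], .l [9, 7, 8, 3, 9, 1, 9, 2, 2], .l [6, 5, 2, 6, 1, 6, 2, 7], .l [4, 2, 11], .l [9, 7, 7, 4, 11, 4, 6, 3]]),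
([s 4 1, s 3 2, s 0 0, g, s 0 3, g, p 0 4, g, m 1 0, m 2 5, g, m 5 0, g], .hi 2, [.y [2], .l [8, 7, 4, 8, 1, 8, 4, 1], .l [8, 7, 4, 8, 1, 8, 4, 1], .l [2, 8, 5, 10, 3, 7, 9, 4, 4, 5], .l [6, 2, 4, 3, 7, 3, 4, 6, 4, 1], .l [8, 7, 2, 8, 1, 8, 2, 3], .l [8, 7, 2, 8, 1, 8, 2, 3], .l [8, 4, 6, 3, 9, 3, 6, 8, 4, 1], .l [6, 5, 2, 6, 1, 6, 2, 3], .l [6, 5, 2, 8, 3, 8, 2, 5], .l [11, 9, 5], .l [6, 5, 2, 8, 3, 8, 2, 5], .l [4, 2, 9, 11, 9, 3], .l [2, 10, 12, 10, 5], .l [8, 3, 9, 1, 6, 10, 4, 7, 2, 3], .l [6, 5, 2, 6, 1, 6, 2, 7], .l [6, 5, 2, 6, 1, 6, 2, 7], .l [9, 7, 7, 4, 11, 4, 6, 3]]),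
([s 4 1, s 3 2, p 0 0, g, s 0 3, g, p 0 4, g, m 1 0, m 2 5, g, m 5 0, g], .lo 2, [.y [2], .l [8, 7, 4, 8, 1, 8, 4, 1], .l [2, 8, 5, 10, 3, 7, 9, 4, 4], .l [6, 4, 1], .l [8, 7, 2, 8, 1, 8, 2, 3], .l [8, 4, 6, 3, 9, 3, 6, 8, 4, 1], .l [4, 2, 4], .l [6, 5, 2, 8, 3, 8, 2, 5], .l [6, 5, 2, 8, 3, 8, 2, 5], .l [4, 2, 6], .l [4, 2, 6], .l [4, 2, 9, 11, 9, 3], .l [9, 7, 8, 3, 9, 1, 9, 2, 2], .l [3, 1, 10, 12, 10, 4, 4, 1], .l [3, 1, 10, 10, 8, 4, 4, 1], .l [6, 5, 2, 6, 1, 6, 2, 7], .l [9, 7, 7, 4, 11, 4, 6, 3], .l [4, 2, 11]]),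
([s 4 1, s 3 2, g, s 0 3, g, p 0 4, g, m 1 0, m 2 5, g, m 5 0, g], .top 2, [.c, .r 4448 [1, 2, 3, 4, 5] [1, 1, 1, 1, 1], .r 4449 [1, 2, 3, 4, 5] [1, 1, 1, 1, 1], .r 4447 [1, 2, 3, 4, 5] [1, 1, 1, 1, 1]]),
([s 3 1, s 0 2, g, p 0 3, g, m 1 0, m 2 4, g, m 4 0, g], .lo 1, [.r 4450 [1, 2, 5, 3, 4] [1, 1, 1, 1, 1], .l [8, 6, 7, 3, 1, 2, 3], .l [5, 4, 1], .l [5, 3, 7, 3, 4, 6, 4, 1], .l [5, 3, 7, 3, 4], .l [3, 2, 3], .l [3, 2, 3], .l [3, 2, 6, 8, 6, 1], .l [6, 4, 7, 2, 4], .l [1, 7, 9, 7, 3], .y [1, 6, 8], .l [6, 4, 9, 4, 4, 1], .l [6, 4, 9, 4, 6], .l [3, 2, 8]]),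
([s 0 1, s 0 2, g, m 1 0, m 2 3, g, m 3 0, g], .lo 0, [.l [2], .r 4451 [1, 2, 4, 3] [1, 1, 1, 1], .l [2], .y [0, 3], .l [5], .l [4, 2, 5, 1, 5, 2, 2], .l [5], .l [5], .l [7], .R 4446 [4, 1, 2, 3] [1, 1, 1, 1], .l [7]]),
([s 0 1, s 0 2, g, m 1 0, m 2 0, g], .hi 4, [.l [3], .y [1, 4], .l [3, 5, 1], .l [6, 3, 2, 4, 1], .l [3, 5], .r 4412 [1, 2, 3] [1, 1, 1], .l [4, 2, 3, 1, 2], .r 4452 [1, 2, 3] [1, 1, 1]]),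
([s 2 0, s 4 1, g, p 0 2, s 0 3, g, m 3 0, g, p 0 4, g, s 1 0, g], .lo 4, [.l [3], .l [6, 2, 9, 4, 6, 3], .l [3, 5, 1], .l [8, 1, 4, 2, 4], .l [6, 1, 7, 5, 2, 7], .l [6, 1, 7, 5, 2], .l [10, 8, 11, 2, 8, 1], .y [4, 6], .l [6, 1, 7, 5, 2, 7], .l [6, 1, 7, 5, 2], .l [10, 8, 11, 2, 8, 3], .l [4, 9, 11, 4, 9, 4, 6, 3], .l [6, 1, 9, 7, 2], .l [4, 9, 11, 4, 9, 4, 6, 3], .l [4, 9, 9, 2, 7, 4, 4, 1], .l [6, 1, 11, 9, 2, 5], .l [6, 1, 11, 9, 2], .l [8, 6, 9, 2, 6, 7]]),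
([s 3 1, s 4 2, g, p 0 3, s 0 0, g, p 0 4, g, m 1 0, g, s 2 0, g], .hi 4, [.l [3, 5, 1, 8, 6, 7], .l [8, 6, 9, 1, 7, 2, 4, 5], .l [3, 5, 1], .l [6, 4, 7, 1, 5, 0, 2, 3], .y [4], .l [5, 10, 4, 7, 2, 3], .l [3, 2, 9, 6, 1], .r 4454 [2, 3, 5, 4] [1, 1, 1, 3, 1], .l [3, 2, 7, 4, 1], .l [6, 4, 5, 3, 4, 6, 4, 5], .l [3, 2, 9, 6, 3], .l [6, 4, 11, 6, 8, 5], .l [6, 4, 11, 6, 8, 3], .l [3, 2, 7, 4, 7], .l [6, 4, 11, 6, 8, 3], .l [6, 4, 9, 4, 6, 7], .l [3, 2, 7, 4, 9], .l [6, 4, 7, 1, 9, 4, 6, 3]]),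
([s 2 1, s 3 0, g, p 0 2, p 6 0, g, p 4 3, g, p 5 4, g, p 0 5, g, p 0 6, g, m 1 0, g], .hi 1, [.l [5, 4, 1, 14, 10, 12, 9, 9, 7, 7, 5, 7, 5], .l [5, 4, 1], .l [9, 14, 10, 4, 5, 10, 7, 1, 8, 6, 8, 2, 5], .l [3, 2, 1], .l [6, 4, 7, 2, 4, 6, 3, 9, 3, 5, 3, 7, 1], .l [1, 5, 13, 11, 1], .l [6, 4, 7, 2, 4], .l [7, 14, 10, 2, 5, 10, 12, 4, 5, 7, 3, 3, 1], .l [1, 7, 9, 7, 11, 9, 1], .l [6, 4, 7, 2, 4], .l [10, 8, 8, 3, 3, 1, 8, 6, 8, 6, 1, 7, 5], .l [1, 9, 11, 9, 9, 7, 9, 7, 1], .l [6, 4, 9, 4, 6], .y [1, 10, 8, 6], .l [12, 10, 10, 5, 5, 3, 3, 1, 8, 4, 1, 7, 5], .l [1, 11, 13, 5, 1], .l [6, 4, 11, 6, 8], .l [1, 11, 11, 3, 1], .l [8, 12, 7, 2, 11, 1, 5, 3, 7, 3, 5, 7, 3], .l [3, 2, 12], .l [6, 4, 13, 8, 10], .l [8, 12,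 7, 2, 13, 3, 7, 3, 9, 5, 3, 1, 5], .l [3, 2, 14], .l [6, 4, 15, 10, 12]]),
([s 2 1, s 3 0, g, p 0 2, p 5 0, g, p 4 3, g, p 0 4, g, p 0 5, g, m 1 0, g], .lo 8, [.y [1, 8, 6], .l [3, 9, 9, 7, 9, 7, 1], .l [3, 9], .l [6, 3, 9, 9, 7, 9, 4, 6, 3], .l [4, 7], .l [5, 12, 10, 2, 11, 8, 3], .l [6, 9], .l [5, 12, 10, 2, 11, 8, 3], .l [7, 10, 8, 10, 8, 2, 9, 6, 1], .l [8, 9], .l [7, 10, 8, 10, 8, 2, 9, 6, 1], .l [7, 8, 6, 10, 8, 2, 9, 6, 1], .r 4456 [1, 2, 3, 4, 6, 5] [1, 1, 1, 1, 1, 1, 1], .l [7, 8, 6, 10, 8, 2, 9, 6, 1], .l [7, 8, 6, 8, 6, 2, 9, 6, 3], .l [7, 8, 6, 12, 6, 9, 2, 7, 1, 6, 3], .l [7, 8, 6, 8, 6, 2, 9, 6, 3], .l [7, 8, 6, 8, 6, 2, 7, 4, 3], .l [7, 8, 6, 8, 6, 2, 7, 4, 7], .l [7, 8, 6, 10, 4, 7, 2, 5, 8,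 2, 5], .l [7, 8, 6, 8, 6, 2, 7, 4, 7]]),
([s 2 1, s 3 0, g, p 0 2, p 4 0, g, p 0 3, g, p 0 4, g, m 1 0, g], .lo 6, [.y [1, 6], .l [3, 7, 9, 7, 1], .l [3, 7], .l [6, 3, 7, 9, 4, 6, 3], .l [4, 5], .l [5, 10, 8, 2, 9, 6, 1], .l [6, 7], .l [5, 10, 8, 2, 9, 6, 1], .l [5, 10, 8, 2, 9, 6, 1], .r 4457 [1, 2, 3, 5, 4] [1, 1, 1, 1, 1, 1], .l [5, 10, 8, 2, 9, 6, 1], .l [5, 8, 6, 2, 9, 6, 3], .l [5, 12, 6, 9, 2, 7, 1, 6, 3], .l [5, 8, 6, 2, 9, 6, 3], .l [5, 8, 6, 2, 7, 4, 3], .l [5, 8, 6, 2, 7, 4, 7], .l [5, 10, 4, 7, 2, 5, 8, 2, 5], .l [5, 8, 6, 2, 7, 4, 7]]),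
([s 2 1, s 3 0, g, p 0 2, p 0 0, g, p 0 3, g, m 1 0, g], .lo 4, [.l [1, 3, 1], .l [3, 5, 1], .l [3, 5], .l [8, 5, 2, 6, 1], .y [4], .l [3, 2, 9, 6, 1], .l [4, 10, 5, 1, 7, 2, 3], .l [3, 2, 9, 6, 1], .l [3, 2, 9, 6, 3], .r 4458 [1, 2, 3, 4] [1, 1, 1, 1, 1], .l [3, 2, 9, 6, 3], .l [3, 2, 7, 4, 3], .l [3, 2, 7, 4, 7], .l [6, 4, 7, 1, 7, 2, 4], .l [3, 2, 7, 4, 7]]),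
([s 2 1, s 4 0, g, p 0 2, m 0 3, g, p 5 4, g, p 6 5, g, p 0 6, g, m 3 0, g, m 1 0, g], .hi 1, [.l [5, 4, 1, 14, 10, 12, 9, 9, 7, 7, 5, 7, 5], .l [5, 4, 1], .l [9, 14, 10, 4, 5, 10, 7, 1, 8, 6, 8, 2, 5], .l [3, 2, 1], .l [4, 2, 5, 2, 2], .l [6, 4, 7, 2, 4, 6, 3, 9, 3, 5, 3, 7, 1], .l [1, 5, 13, 11, 1], .l [6, 4, 7, 2, 4], .l [7, 14, 10, 2, 5, 10, 12, 4, 5, 7, 3, 3, 1], .l [1, 7, 9, 7, 11, 9, 1], .l [6, 4, 7, 2, 4], .l [10, 8, 8, 3, 3, 1, 8, 6, 8, 6, 1, 7, 5], .l [1, 9, 11, 9, 9, 7, 9, 7, 1], .l [6, 4, 9, 4, 6], .y [1, 10, 8, 6], .l [12, 10, 10, 5, 5, 3, 3, 1, 8, 4, 1, 7, 5], .l [1, 11, 13, 5, 1], .l [6, 4, 11, 6, 8], .l [8, 12, 7, 2, 11, 1, 5, 3, 7, 3, 5, 7, 3], .l [3, 2, 12], .l [6, 4, 13, 8, 10], .l [8, 12,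 7, 2, 13, 3, 7, 3, 9, 5, 3, 1, 5], .l [3, 2, 14], .l [6, 4, 15, 10, 12]]),
([s 2 1, s 4 0, g, p 0 2, m 0 3, g, p 5 4, g, p 0 5, g, m 3 0, g, m 1 0, g], .lo 8, [.y [1, 8, 6], .l [3, 9, 9, 7, 9, 7, 1], .l [3, 9], .l [6, 3, 9, 9, 7, 9, 4, 6, 3], .l [5, 12, 10, 2, 11, 8, 3], .l [6, 9], .l [5, 12, 10, 2, 11, 8, 3], .l [7, 10, 8, 10, 8, 2, 9, 6, 1], .l [8, 9], .l [7, 10, 8, 10, 8, 2, 9, 6, 1], .l [7, 8, 6, 10, 8, 2, 9, 6, 1], .r 4460 [1, 2, 3, 4, 5, 6] [1, 1, 1, 1, 1, 1, 1], .l [7, 8, 6, 10, 8, 2, 9, 6, 1], .l [7, 8, 6, 8, 6, 2, 7, 4, 1], .l [7, 8, 6, 8, 6, 2, 9, 6, 3], .l [7, 8, 6, 12, 6, 9, 2, 7, 1, 6, 3], .l [7, 8, 6, 8, 6, 2, 9, 6, 3], .l [7, 8, 6, 8, 6, 2, 7, 4, 3], .l [7, 8, 6, 8, 6, 2, 7, 4, 7], .l [7, 8, 6,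 10, 4, 7, 2, 5, 8, 2, 5], .l [7, 8, 6, 8, 6, 2, 7, 4, 7]]),
([s 2 1, s 4 0, g, p 0 2, m 0 3, g, p 0 4, g, m 3 0, g, m 1 0, g], .lo 6, [.y [1, 6], .l [3, 7, 9, 7, 1], .l [3, 7], .l [6, 3, 7, 9, 4, 6, 3], .l [5, 10, 8, 2, 9, 6, 1], .l [6, 7], .l [5, 10, 8, 2, 9, 6, 1], .l [5, 10, 8, 2, 9, 6, 1], .r 4461 [1, 2, 3, 4, 5] [1, 1, 1, 1, 1, 1], .l [5, 10, 8, 2, 9, 6, 1], .l [5, 8, 6, 2, 7, 4, 1], .l [5, 8, 6, 2, 9, 6, 3], .l [5, 12, 6, 9, 2, 7, 1, 6, 3], .l [5, 8, 6, 2, 9, 6, 3], .l [5, 8, 6, 2, 7, 4, 3], .l [5, 8, 6, 2, 7, 4, 7], .l [5, 10, 4, 7, 2, 5, 8, 2, 5], .l [5, 8, 6, 2, 7, 4, 7]]),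
([s 2 1, s 3 0, g, p 0 2, m 0 0, g, p 0 3, g, m 1 0, g], .hi 4, [.l [3, 5, 1], .l [8, 5, 2, 6, 1], .l [3, 5], .l [6, 3, 0, 4, 1], .y [4], .l [3, 2, 9, 6, 1], .l [3, 2, 9, 6, 1], .l [4, 10, 5, 1, 7, 2, 3], .l [3, 2, 7, 4, 1], .l [3, 2, 9, 6, 3], .l [3, 2, 9, 6, 3], .r 4462 [1, 2, 4, 3] [1, 1, 1, 1, 1], .l [3, 2, 7, 4, 7], .l [3, 2, 7, 4, 7], .l [6, 4, 7, 1, 7, 2, 4]]),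
([s 3 1, s 4 2, g, p 0 3, g, p 0 4, g, m 1 0, g, s 2 0, g], .top 4, [.R 4453 [3, 4] [1, 5], .r 4455 [1, 2, 3, 4] [1, 1, 1, 1, 1], .r 4459 [1, 3, 4] [1, 1, 1, 3], .r 4463 [1, 3, 4] [1, 1, 1, 3]]),
([s 0 1, s 3 2, g, p 0 3, m 1 4, g, m 4 0, g, s 2 0, g], .lo 0, [.l [2], .r 4464 [1, 2, 5, 3] [1, 1, 0, 3, 1], .l [2], .l [5], .l [4, 3, 5, 1, 6, 4, 1], .l [5], .y [0, 4, 6], .l [7], .l [1, 4, 2, 7, 4, 4, 1], .l [7], .l [7], .l [9], .l [1, 4, 2, 9, 6, 6, 3], .l [9]]),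
([s 0 1, s 3 2, g, p 0 3, m 1 4, g, s 4 0, g, s 2 0, g], .lo 0, [.l [2], .l [5, 3, 5, 0, 4, 1, 2, 3], .l [2], .l [5], .l [10, 8, 9, 6, 1, 4, 4, 1], .l [5], .y [0, 4, 6], .l [7], .l [10, 8, 9, 6, 3, 4, 4, 1], .l [7], .l [7], .l [9], .l [3, 1, 9, 6, 1, 3, 4, 1], .l [9]]),
([s 0 1, s 3 2, g, p 0 3, m 1 0, g, s 2 0, g], .hi 4, [.y [0, 4], .l [3, 5, 2], .l [1, 7, 4, 2, 4], .l [3, 5], .l [1, 5, 2, 0, 2], .r 4466 [1, 2, 3, 4] [1, 1, 1, 1], .l [8, 6, 6, 4, 1], .r 4465 [1, 2, 3, 4] [1, 1, 1, 1], .l [4, 3, 4, 6, 4, 1], .l [6, 4, 4, 2, 5], .l [1, 5, 7, 5, 2]]),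
([s 3 1, s 4 2, g, m 2 0, g, p 0 3, g, m 1 0, g, s 0 4, g], .top 4, [.R 4467 [3, 4, 2] [1, 3, 1], .r 4410 [1, 2, 3, 4] [1, 1, 1, 1, 1], .r 4406 [1, 2, 3, 4] [1, 1, 1, 1, 1], .r 4402 [1, 2, 3, 4] [1, 1, 1, 1, 1]]),
([s 3 1, s 6 2, g, m 2 0, g, p 0 3, p 4 0, g, p 5 4, g, p 0 5, g, s 0 6, g, m 1 0, g], .lo 10, [.l [3, 11, 11, 9, 9, 7, 3], .l [3, 11], .l [1, 13, 10, 8, 8, 6, 6, 4, 5, 8, 2, 3], .l [1, 11, 8, 6, 6, 4, 4, 2, 3, 6, 2, 3], .l [5, 11, 11, 9, 9, 7, 1], .l [5, 11], .l [1, 13, 8, 6, 6, 4, 4, 2, 5, 8, 2, 5], .y [6, 10, 8], .l [7, 10, 8, 4, 13, 8, 3], .l [8, 11], .l [7, 10, 8, 4, 13, 8, 3], .l [9, 12, 10, 10, 8, 4, 11, 6, 1], .l [10, 11], .l [9, 12, 10, 10, 8, 4, 11, 6, 1], .l [9, 10, 8, 8, 6, 4, 11, 6, 1],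 .l [3, 1, 9, 10, 9, 9, 7, 7, 5, 1, 8, 6, 3], .l [9, 10, 8, 8, 6, 4, 11, 6, 1], .l [9, 10, 8, 8, 6, 4, 11, 6, 3], .l [1, 11, 13, 11, 11, 9, 9, 7, 3, 8, 4, 5], .l [7, 8, 6, 4, 8, 1, 8, 3, 1, 8, 4, 1], .l [7, 8, 6, 4, 8, 1, 8, 3, 1, 6, 2, 1], .l [9, 10, 8, 8, 6, 4, 9, 4, 9], .l [1, 11, 15, 13, 13, 11, 11, 9, 3, 6, 2, 3], .l [8, 10, 9, 9, 7, 4, 7, 1, 9, 5, 1, 5, 1]]),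
([s 3 1, s 5 2, g, m 2 0, g, p 0 3, p 4 0, g, p 0 4, g, s 0 5, g, m 1 0, g], .lo 8, [.l [3, 9, 9, 7, 3], .l [3, 9], .l [1, 11, 8, 6, 6, 4, 5, 8, 2, 3], .l [1, 9, 6, 4, 4, 2, 3, 6, 2, 3], .l [5, 9, 9, 7, 1], .l [5, 9], .l [1, 11, 6, 4, 4, 2, 5, 8, 2, 5], .y [6, 8], .l [7, 10, 8, 4, 11, 6, 1], .l [8, 9], .l [7, 10, 8, 4, 11, 6, 1], .l [7, 8, 6, 4, 11, 6, 1], .r 4469 [1, 2, 3, 4, 6, 5] [1, 1, 1, 1, 1, 1, 1], .l [7, 8, 6, 4, 11, 6, 1], .l [7, 8, 6, 4, 11, 6, 3], .l [1, 9, 11, 9, 9, 7, 3, 8, 4, 5], .l [5, 4, 8, 1, 8, 3, 1, 8, 4, 1], .l [5, 4, 8, 1, 8, 3, 1, 6, 2, 1], .l [7, 8, 6, 4, 9, 4, 9], .l [1, 9, 13, 11, 11, 9, 3, 6, 2, 3], .l [7, 8, 6, 4, 9, 4, 9]]),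
([s 3 1, s 4 2, g, m 2 0, g, p 0 3, p 0 0, g, s 0 4, g, m 1 0, g], .lo 6, [.l [3, 7, 3], .l [3, 7], .l [1, 9, 6, 4, 5, 8, 2, 3], .l [1, 7, 4, 2, 3, 6, 2, 3], .l [5, 7, 1], .l [5, 7], .l [1, 9, 4, 2, 5, 8, 2, 5], .y [6], .l [5, 4, 11, 6, 1], .r 4470 [1, 2, 3, 5, 4] [1, 1, 1, 1, 1, 1], .l [5, 4, 11, 6, 1], .l [5, 4, 11, 6, 3], .l [1, 7, 9, 7, 3, 8, 4, 5], .l [5, 4, 11, 6, 3], .l [5, 4, 9, 4, 3], .l [5, 4, 9, 4, 9], .l [1, 7, 11, 9, 3, 6, 2, 3], .l [5, 4, 9, 4, 9]]),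
([s 4 1, s 7 2, g, m 2 0, g, m 0 3, g, p 0 4, m 3 5, g, m 5 6, g, m 6 0, g, s 0 7, g, m 1 0, g], .hi 12, [.l [3, 13, 13, 11, 11, 9, 5], .l [1, 15, 12, 10, 10, 8, 8, 6, 7, 3, 6, 2, 3], .l [3, 13], .l [5, 13, 13, 11, 11, 9, 3], .l [1, 15, 10, 8, 8, 6, 6, 4, 7, 1, 6, 4, 1], .l [5, 13], .y [5, 8, 10, 12], .l [7, 13, 13, 11, 11, 9, 1], .l [1, 15, 8, 6, 6, 4, 4, 2, 7, 1, 6, 4, 1], .l [7, 13], .l [1, 13, 6, 4, 4, 2, 2, 0, 5, 1, 4, 2, 1], .l [9, 12, 10, 6, 15, 8, 3], .l [9, 12, 10, 6, 15, 8, 3], .l [10, 13], .l [11, 14, 12, 12, 10, 6, 13, 6, 1], .l [11, 14, 12, 12, 10, 6, 13, 6, 1], .l [12, 13], .l [11, 12, 10, 10, 8, 6, 13, 6, 1], .l [11, 12, 10, 10, 8, 6, 13, 6, 1], .l [3, 1, 11, 12, 11, 11, 9, 9, 7, 3, 10, 6, 3],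 .l [1, 13, 13, 11, 11, 9, 9, 7, 5, 1, 4, 4, 1], .l [11, 12, 10, 10, 8, 6, 13, 6, 3], .l [7, 6, 12, 1, 12, 3, 1, 12, 6, 8, 7, 7, 5], .l [1, 13, 15, 13, 13, 11, 11, 9, 5, 1, 4, 6, 3], .l [11, 12, 10, 10, 8, 6, 11, 4, 11], .l [10, 12, 11, 11, 9, 6, 9, 1, 11, 5, 1, 7, 3], .l [1, 13, 17, 15, 15, 13, 13, 11, 5, 1, 4, 8, 5]]),
([s 4 1, s 6 2, g, m 2 0, g, m 0 3, g, p 0 4, m 3 5, g, m 5 0, g, s 0 6, g, m 1 0, g], .hi 10, [.l [3, 11, 11, 9, 5], .l [1, 13, 10, 8, 8, 6, 7, 10, 2, 5], .l [3, 11], .l [5, 11, 11, 9, 3], .l [1, 13, 8, 6, 6, 4, 7, 1, 6, 4, 1, 7, 3], .l [5, 11], .y [5, 8, 10], .l [7, 11, 11, 9, 1], .l [1, 13, 6, 4, 4, 2, 7, 1, 6, 4, 1, 7, 3], .l [7, 11], .l [1, 11, 4, 2, 2, 0, 5, 1, 4, 2, 1, 5, 3], .l [9, 12,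 10, 6, 13, 6, 1], .l [9, 12, 10, 6, 13, 6, 1], .l [10, 11], .l [9, 10, 8, 6, 13, 6, 1], .l [9, 10, 8, 6, 13, 6, 1], .r 4472 [1, 2, 3, 4, 5, 7, 6] [1, 1, 1, 1, 1, 1, 1, 1], .l [1, 11, 11, 9, 9, 7, 5, 1, 4, 4, 1, 5, 1], .l [9, 10, 8, 6, 13, 6, 3], .l [7, 6, 10, 1, 10, 3, 1, 10, 4, 1], .l [1, 11, 13, 11, 11, 9, 5, 1, 4, 6, 3, 7, 1], .l [9, 10, 8, 6, 11, 4, 11], .l [9, 10, 8, 6, 11, 4, 11], .l [1, 11, 15, 13, 13, 11, 5, 1, 4, 8, 5, 7, 3]]),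
([s 3 1, s 5 2, g, m 2 0, g, p 0 3, m 0 4, g, m 4 0, g, s 0 5, g, m 1 0, g], .lo 6, [.l [8, 4, 1, 4, 7, 5, 2, 5], .l [8, 4], .l [5, 3, 13, 8, 11, 8, 3, 4, 6, 3], .l [3, 1, 11, 8, 9, 6, 3, 4, 4, 1], .l [8, 2, 11, 4, 8, 5], .l [8, 2], .r 4473 [1, 2, 6, 3, 4, 5] [1, 1, 1, 1, 1, 1, 1], .l [8, 1, 9, 7, 4], .l [8, 1], .l [6, 7], .y [6, 8], .l [6, 9, 6, 1, 4, 5, 2, 5], .l [10, 3], .l [6, 9], .l [6, 11, 8, 1, 4, 7, 4, 1], .l [12, 5], .l [6, 11], .l [6, 11], .l [6, 13, 10, 1, 4, 9, 6, 1], .l [14, 7], .l [6, 13]]),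
([s 3 1, s 4 2, g, m 2 0, g, p 0 3, m 0 0, g, s 0 4, g, m 1 0, g], .hi 6, [.l [3, 7, 3], .l [1, 9, 6, 4, 5, 8, 2, 3], .l [3, 7], .l [5, 7, 1], .l [1, 9, 4, 2, 5, 8, 2, 5], .l [5, 7], .l [1, 7, 2, 0, 3, 6, 2, 3], .y [6], .l [5, 4, 11, 6, 1], .l [5, 4, 11, 6, 1], .r 4474 [1, 2, 3, 5, 4] [1, 1, 1, 1, 1, 1], .l [1, 7, 7, 5, 3, 6, 2, 3], .l [5, 4, 11, 6, 3], .l [5, 4, 11, 6, 3], .l [1, 7, 9, 7, 3, 8, 4, 5], .l [5, 4, 9, 4, 9], .l [5, 4, 9, 4, 9], .l [1, 7, 11, 9, 3, 6, 2, 3]]),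
([s 3 1, s 5 2, g, m 2 0, g, p 0 3, s 0 4, g, m 4 0, g, s 0 5, g, m 1 0, g], .lo 6, [.l [3, 7, 3, 12, 8, 5], .l [3, 7, 3], .l [10, 1, 6, 4, 6], .l [8, 1, 4, 2, 4], .l [5, 7, 1, 12, 10, 7], .l [5, 7, 1], .l [10, 1, 4, 2, 6], .l [8, 1, 9, 7, 4, 7], .l [8, 1, 9, 7, 4], .l [5, 4, 13, 8, 1], .y [6, 8], .l [6, 9, 6, 1, 4, 5, 2, 5], .l [8, 1, 9, 7, 4], .l [5, 4, 13, 8, 3], .l [1, 9, 11, 7, 3, 10, 6, 7], .l [8, 1, 11, 9, 4], .l [5, 4, 13, 8, 5], .l [5, 4, 11, 6, 5], .l [1, 9, 13, 9, 3, 6, 2, 3], .l [8, 1, 13, 11, 4], .l [5, 4, 11, 6, 11]]),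
([s 3 1, s 4 2, g, m 2 0, g, p 0 3, s 0 0, g, s 0 4, g, m 1 0, g], .hi 6, [.l [3, 7, 3, 10, 6, 3], .l [1, 9, 6, 4, 5, 8, 2, 3], .l [3, 7, 3], .l [5, 7, 1, 10, 8, 5], .l [1, 9, 4, 2, 5, 8, 2, 5], .l [5, 7, 1], .l [1, 7, 2, 0, 3, 6, 2, 3], .y [6], .l [7, 12, 4, 9, 4, 5], .l [5, 4, 11, 6, 1], .r 4476 [1, 2, 3, 5, 4] [1, 1, 1, 1, 1, 1], .l [1, 7, 7, 5, 3, 6, 2, 3], .l [1, 7, 9, 7, 3, 8, 4, 5], .l [5, 4, 11, 6, 3], .l [1, 7, 9, 7, 3, 8, 4, 5], .l [1, 7, 11, 9, 3, 6, 2, 3], .l [5, 4, 9, 4, 9], .l [1, 7, 11, 9, 3, 6, 2, 3]]),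
([s 3 1, s 4 2, g, m 2 0, g, p 0 3, g, s 0 4, g, m 1 0, g], .top 6, [.l [1, 5, 3, 6, 2, 3], .r 4477 [1, 2, 3, 4] [1, 1, 1, 1, 1], .r 4471 [1, 2, 3, 4] [1, 1, 1, 1, 1], .r 4475 [1, 2, 3, 4] [1, 1, 1, 1, 1]]),
([s 5 1, s 3 2, g, p 0 3, s 0 4, g, m 4 0, g, p 0 5, g, m 1 0, g, s 2 0, g], .lo 4, [.l [1, 13, 10, 2, 10, 3], .l [3, 5, 2], .l [8, 1, 4, 2, 3], .l [3, 1, 9, 6, 1, 8, 2, 7], .l [6, 1, 7, 5, 1], .l [3, 1, 9, 6, 1, 8, 2, 7], .y [4, 6], .l [3, 1, 9, 6, 3, 8, 2, 7], .l [6, 1, 7, 5, 1], .l [3, 1, 9, 6, 3, 8, 2, 7], .l [9, 12, 2, 5, 1, 6, 1, 6, 2, 5], .l [6, 1, 9, 7, 1], .l [9, 12, 2, 5, 1, 6, 1, 6, 2, 5], .l [9, 10, 0, 3, 1, 4, 1, 4, 2, 3], .l [14, 12, 13, 6, 1, 4, 8, 5], .l [6, 1, 11, 9, 1], .l [14, 12, 13,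 6, 1, 4, 8, 5], .l [3, 1, 9, 6, 8, 8, 6, 1], .l [8, 7, 10, 12, 4, 1], .l [6, 1, 13, 11, 1], .l [12, 10, 11, 4, 1, 2, 6, 7]])]

def d17_2 : List (List Item × Qry × List Rf) := [
([s 5 1, s 3 2, g, p 0 3, s 0 4, g, p 0 5, g, m 1 0, g, m 4 0, g, s 2 0, g], .lo 4, [.l [1, 13, 10, 2, 10, 5], .l [3, 5, 2], .l [12, 5, 8, 2, 7], .l [3, 1, 7, 4, 1, 6, 2, 7], .l [6, 1, 11, 9, 1], .l [3, 1, 7, 4, 1, 6, 2, 7], .l [8, 3, 11, 7, 1, 10, 8, 5], .l [8, 3, 11, 7, 1], .l [12, 7, 13, 2, 6, 8, 6, 1], .l [10, 5, 11, 2, 6, 6, 4, 1], .l [3, 1, 9, 5, 9, 3, 6, 1, 4, 5], .l [10, 5, 11, 5, 1], .l [14, 12, 13, 8, 1, 6, 8, 3], .y [4, 10], .l [14, 12, 13, 8, 1, 6, 8, 5], .l [10, 5, 11, 5, 1], .l [10, 5, 13, 4, 10, 8, 4, 1], .l [3, 1, 7, 4,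 8, 8, 4, 1], .l [6, 5, 10, 12, 4, 1], .l [10, 5, 13, 7, 1], .l [12, 10, 11, 6, 1, 4, 6, 7]]),
([s 5 1, s 3 2, g, p 0 3, s 0 4, g, p 0 5, g, p 4 0, g, m 1 0, g, s 2 0, g], .lo 4, [.l [1, 13, 10, 2, 10, 5], .l [3, 5, 2], .l [1, 13, 3, 5, 8, 2, 8, 3], .l [3, 1, 7, 4, 1, 8, 4, 7], .l [9, 12, 2, 5, 1, 6, 1, 6, 2, 5], .l [4, 9, 3, 7, 1], .l [7, 12, 4, 7, 1, 6, 1, 6, 2, 5], .l [8, 3, 13, 6, 10, 8, 6, 1], .l [4, 9, 1, 7, 1], .y [4, 8], .l [3, 1, 5, 2, 6, 1, 4, 6, 4, 5], .l [14, 12, 13, 8, 5, 6, 8, 3], .l [4, 9, 1, 7, 1], .l [4, 9, 1, 7, 1], .l [3, 1, 9, 6, 8, 4, 6, 1, 2, 5], .l [12, 7, 13, 2, 6, 8, 6, 1], .l [4, 11, 3, 9, 1], .l [4, 11, 3, 9, 1, 8, 6, 3], .l [3, 1, 9, 6, 10, 6, 8, 1, 4, 1], .l [1, 11, 3, 5, 11, 5, 2,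 7], .l [4, 13, 5, 11, 1]]),
([s 4 1, s 3 2, g, p 0 3, s 0 0, g, p 0 4, g, m 1 0, g, s 2 0, g], .hi 4, [.l [1, 11, 8, 2, 8, 3], .l [1, 11, 8, 2, 8, 3], .l [3, 5, 2], .l [1, 9, 6, 0, 6, 3], .y [4], .l [3, 1, 7, 4, 1, 6, 2, 5], .l [3, 1, 7, 4, 1, 6, 2, 5], .r 4479 [1, 2, 3, 5, 4] [1, 1, 1, 1, 1, 1], .l [3, 1, 5, 2, 1, 4, 2, 3], .l [12, 10, 11, 6, 3, 4, 6, 3], .r 4481 [1, 2, 3, 5, 4] [1, 1, 1, 1, 1, 1], .l [12, 10, 11, 6, 3, 4, 6, 3], .l [12, 10, 11, 6, 1, 4, 6, 3], .l [12, 10, 11, 6, 1, 4, 6, 3], .r 4480 [1, 2, 3, 5, 4] [1, 1, 1, 1, 1, 1], .l [6, 5, 8, 10, 4, 1], .l [10, 8, 9, 4, 1, 2, 4, 5], .l [6, 5, 8, 10, 4, 1]]),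
([s 4 1, s 3 2, g, p 0 3, p 0 4, g, m 1 0, g, s 2 0, g], .lo 4, [.l [3, 5, 2], .l [3, 5], .l [1, 9, 6, 2, 6], .l [10, 8, 9, 6, 3, 4, 4, 1], .l [1, 4, 2, 7, 4, 4, 1], .l [10, 8, 8, 6, 1], .y [0, 6, 4], .l [10, 8, 9, 6, 1, 4, 4, 1], .l [4, 3, 5, 1, 6, 4, 1], .l [10, 8, 8, 6, 3], .l [1, 7, 7, 3, 2], .l [4, 3, 6, 8, 4, 1], .l [1, 7, 9, 5, 2], .l [8, 6, 6, 4, 7]]),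
([s 6 1, s 4 0, g, m 3 2, g, s 0 3, g, p 0 4, m 2 5, g, m 5 0, g, p 0 6, g, m 1 0, g], .lo 5, [.l [1, 4, 7, 5, 5, 2, 7, 3, 4, 2, 6, 4, 1], .l [3, 6, 9, 7, 7, 2, 9, 3, 9, 5, 2, 5], .l [3, 6, 9, 7, 7, 2, 9, 3, 6, 4, 8, 6, 3], .l [7, 1, 9, 7, 11, 6, 11, 4, 8, 6, 5, 5, 3], .l [6, 10, 6, 14, 11, 4, 6, 4, 8, 1], .l [7, 1, 9, 5, 7, 1, 7, 5, 2], .l [7, 3, 9, 5, 7, 1, 7, 5, 2], .l [6, 10, 6, 14, 11, 4, 6, 4, 8, 1], .l [3, 4, 6, 1, 11, 6, 11, 4, 8, 6, 5, 5, 3], .l [4, 10, 8, 12, 9, 1, 11, 2, 6, 8, 7, 7, 5], .l [4, 8, 6, 14, 11, 4, 6, 4, 8, 1], .l [3, 4, 9, 4, 4, 1, 7, 5, 1], .l [3, 4, 4, 7, 9, 7, 2], .y [3, 8, 10, 5], .l [11, 14, 2, 6, 9, 7, 7, 2, 9, 4, 6, 3], .l [3, 4, 11, 6, 11, 1, 11, 9, 6, 4, 3, 3, 1], .l [5, 1, 7,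 5, 5, 7, 9, 4, 9, 4, 6, 3], .l [4, 12, 7, 11, 1, 6, 11, 7, 2, 7], .l [3, 4, 13, 8, 11, 4, 1, 6, 6, 4, 8, 6, 3], .l [4, 12, 7, 11, 1, 6, 6, 4, 10, 8, 3, 1, 3], .l [4, 12, 7, 11, 1, 6, 6, 4, 8, 6, 3, 1, 3], .l [4, 8, 6, 6, 2, 8, 4, 5, 2, 6, 4, 5], .l [3, 4, 15, 10, 13, 6, 1, 4, 8, 6, 5, 5, 3], .l [5, 1, 7, 5, 5, 11, 5, 0, 9, 2, 5, 1, 3]]),
([s 6 1, s 4 2, g, m 0 3, g, p 0 4, m 3 5, g, m 5 0, g, p 0 6, g, m 1 0, g, s 2 0, g], .lo 3, [.l [5, 1, 11, 6, 9, 6, 9, 5, 2, 5], .l [5, 1], .l [7, 5, 11, 4, 7, 6, 10, 6, 9, 1, 5, 5, 3], .r 4484 [1, 3, 7, 4, 5, 6] [1, 1, 1, 1, 1, 1, 3], .l [5, 1], .l [3, 4], .l [3, 7, 9, 7, 2], .l [8, 4], .l [3, 7], .y [3, 6, 8], .l [16, 14, 8, 6, 6, 3, 6, 9, 6, 1], .l [10, 6], .l [3, 9], .l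 [12, 8, 11, 4, 1, 6, 9, 5, 2, 5], .l [12, 8], .l [3, 11], .l [3, 11], .l [14, 10, 15, 2, 5, 1, 9, 5, 1, 5, 6, 3], .l [14, 10], .l [3, 13], .l [5, 3, 9, 4, 7, 6, 6, 4, 6, 4, 5, 5, 1], .l [16, 12, 12, 9, 3, 11, 4, 8, 6, 1], .l [16, 12], .l [3, 15]]),
([s 5 1, s 3 2, g, p 0 3, m 0 4, g, m 4 0, g, p 0 5, g, m 1 0, g, s 2 0, g], .lo 4, [.l [6, 2, 9, 3, 9, 5, 2, 5], .l [6, 2], .r 4485 [1, 2, 6, 3, 4, 5] [1, 1, 1, 1, 1, 1, 1], .l [6, 1, 7, 5, 1], .l [6, 1], .l [4, 5], .y [4, 6], .l [4, 7, 13, 8, 9, 4, 9, 2, 4, 5], .l [8, 3], .l [4, 7], .l [14, 12, 8, 5, 8, 9, 6, 3], .l [10, 5], .l [4, 9], .l [4, 9], .l [4, 11, 13, 4, 9, 3, 9, 5, 2, 5], .l [12, 7], .l [4, 11], .l [4, 11, 11, 2, 7, 3, 7, 3, 0, 3], .l [14, 9, 3, 11, 4,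 8, 6, 1], .l [14, 9], .l [4, 13]]),
([s 4 1, s 3 2, g, p 0 3, m 0 0, g, p 0 4, g, m 1 0, g, s 2 0, g], .hi 4, [.l [3, 5, 2], .l [1, 11, 8, 2, 8], .l [3, 5], .l [1, 9, 6, 0, 6], .y [4], .l [3, 1, 7, 4, 1, 6, 2, 5], .l [12, 10, 10, 8, 1], .r 4486 [1, 2, 3, 5, 4] [1, 1, 1, 1, 1, 1], .l [10, 8, 8, 6, 1], .l [12, 10, 11, 6, 3, 4, 6, 3], .l [12, 10, 10, 8, 3], .l [1, 6, 4, 9, 4, 6, 3], .l [12, 10, 11, 6, 1, 4, 6, 3], .l [12, 10, 10, 8, 5], .l [6, 5, 7, 1, 8, 4, 1], .l [6, 5, 8, 10, 4, 1], .l [10, 8, 8, 6, 9], .l [1, 9, 11, 5, 2]]),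
([s 6 1, s 3 2, g, p 4 3, p 5 4, g, p 7 5, g, p 0 6, g, s 0 7, g, m 1 0, g, s 2 0, g], .lo 10, [.l [1, 15, 12, 8, 8, 4, 4, 2, 8, 3], .l [3, 11, 11, 7, 7, 5, 2], .l [1, 15, 7, 3, 10, 6, 6, 2, 8, 1], .l [5, 8, 6, 1, 7, 4, 6, 6, 1, 4, 2, 4, 2, 3], .l [7, 8, 4, 8, 4, 8, 1, 6, 6, 4, 6, 4, 1], .l [5, 8, 6, 1, 7, 4, 6, 6, 1, 4, 2, 4, 2], .l [5, 6, 4, 1, 7, 4, 6, 6, 1, 6, 2, 5], .l [5, 6, 4, 8, 4, 8, 1, 6, 6, 4, 6, 4, 1], .l [5, 6, 4, 1, 7, 4, 6, 6, 1, 6, 2, 5], .l [9, 12, 8, 8, 6, 1, 7, 4, 1, 4, 2, 4, 2, 3], .l [5, 6, 4, 6, 2, 8, 3, 6, 8, 6, 3, 3, 1], .l [5, 6, 4, 6, 2, 8, 8, 6, 1, 4, 6, 4, 1], .l [5, 6, 4, 1, 5, 2, 4, 6, 1, 4, 2, 4, 2, 3], .l [5, 6, 4, 1, 5, 2, 4, 6, 1, 4, 2, 4, 2], .l [5, 6, 4, 6, 2, 6, 1, 4, 4,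 4, 6, 4, 1], .l [5, 6, 4, 6, 2, 6, 1, 4, 4, 4, 4, 2, 1], .l [5, 6, 4, 1, 9, 6, 3, 8, 4, 6, 4, 5], .l [5, 6, 4, 1, 5, 2, 4, 8, 3, 5, 3, 5, 3], .l [5, 6, 4, 6, 2, 6, 1, 4, 6, 4, 1, 1, 3], .y [1, 14, 10, 6, 4, 3], .l [8, 7, 12, 14, 10, 10, 6, 6, 4, 1], .l [1, 13, 7, 3, 13, 9, 9, 5, 2, 5], .l [5, 6, 4, 6, 2, 6, 1, 4, 6, 4, 1, 1, 5]]),
([s 6 1, s 3 2, g, p 4 3, p 5 4, g, p 0 5, g, p 0 6, g, m 1 0, g, s 2 0, g], .lo 6, [.l [3, 7, 7, 5, 2], .l [3, 7], .l [1, 13, 10, 4, 4, 2, 8], .l [5, 8, 6, 1, 7, 4, 1, 4, 2, 4, 2, 3], .l [6, 7], .l [3, 1, 9, 6, 9, 2, 9, 1, 7, 5, 1, 1, 3], .l [5, 6, 4, 1, 7, 4, 1, 6, 2, 5], .l [3, 1, 9, 6, 7, 6, 6, 4, 4, 2, 4, 2, 3], .l [1, 13, 7, 1, 10, 4, 8, 6, 7, 5, 1, 3, 3], .r 4488 [1, 2, 3, 4,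 5, 6, 7] [1, 1, 1, 1, 1, 1, 1], .l [3, 1, 7, 4, 5, 4, 8, 4, 7, 1, 5, 1, 3], .l [3, 1, 7, 4, 5, 4, 4, 2, 2, 2, 4, 2, 3], .l [3, 1, 7, 4, 5, 4, 4, 2, 2, 2, 2, 0, 1], .l [5, 6, 4, 1, 7, 4, 6, 8, 6, 1], .l [8, 7, 9, 1, 10, 6, 6, 4, 1], .l [3, 1, 7, 4, 5, 4, 4, 2, 4, 2, 5, 1, 3], .y [1, 12, 6, 4, 3], .l [8, 7, 10, 12, 6, 6, 4, 1], .l [1, 11, 13, 7, 7, 5, 2], .l [13, 7, 12, 9, 5, 10, 6, 4, 5, 3, 5, 1, 3]]),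
([s 7 1, s 4 2, g, p 5 3, g, s 3 0, g, p 0 4, p 6 5, g, p 0 6, g, p 0 7, g, m 1 0, g, s 2 0, g], .hi 5, [.l [3, 6, 9, 7, 7, 2, 9, 3, 9, 5, 2, 5], .l [7, 1, 9, 7, 11, 6, 11, 4, 8, 6, 5, 5, 3], .l [3, 6, 9, 7, 7, 2, 9, 3, 6, 4, 8, 6, 3], .l [6, 10, 6, 12, 9, 4, 11, 2, 10, 6, 4, 7], .l [7, 3, 9, 5, 7, 1, 7, 5, 2], .l [7, 1, 9, 5, 7, 1, 7, 5, 2], .l [6, 10, 6, 12, 9, 4, 11, 2, 10, 6, 4, 7], .l [4, 10, 8, 12, 9, 1, 11, 2, 6, 8, 7, 7, 5], .l [3, 4, 6, 1, 11, 6, 11, 4, 8, 6, 5, 5, 3], .l [4, 8, 6, 10, 7, 1, 9, 2, 6, 6, 5, 5, 3], .l [1, 17, 12, 4, 6, 4, 12, 5], .l [3, 4, 4, 7, 9, 7, 2], .l [3, 4, 9, 4, 4, 1, 7, 5, 1], .y [3, 5, 10, 8], .l [11, 14, 2, 6, 9, 7, 7, 2, 9, 4, 6, 3], .l [5, 1, 7, 5, 5, 7, 9, 4, 9, 4, 6, 3],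 .l [3, 4, 11, 6, 11, 1, 11, 9, 6, 4, 3, 3, 1], .l [5, 1, 7, 5, 5, 7, 7, 2, 7, 4, 4, 1], .l [4, 12, 7, 11, 1, 6, 11, 7, 2, 7], .l [4, 12, 7, 11, 1, 6, 6, 4, 10, 8, 3, 1, 3], .l [3, 4, 13, 8, 11, 4, 1, 6, 6, 4, 8, 6, 3], .l [16, 10, 10, 10, 15, 2, 5, 1, 9, 5, 1, 5, 6, 3], .l [5, 1, 7, 5, 5, 11, 5, 0, 9, 2, 5, 1, 3], .l [3, 4, 15, 10, 13, 6, 1, 4, 8, 6, 5, 5, 3], .l [18, 12, 12, 12, 12, 9, 3, 11, 4, 8, 6, 1], .l [5, 1, 7, 5, 5, 13, 1, 7, 1, 9, 2, 5], .l [3, 4, 17, 12, 12, 9, 3, 11, 4, 8, 6, 1]]),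
([s 6 1, s 3 2, g, p 4 0, g, p 0 3, p 5 4, g, p 0 5, g, p 0 6, g, m 1 0, g, s 2 0, g], .hi 3, [.l [5, 1, 11, 6, 9, 6, 9, 5, 2, 5], .l [7, 5, 11, 4, 7, 6, 10, 6, 9, 1, 5, 5, 3], .l [5, 1], .r 4490 [1, 2, 7, 3, 4, 5, 6] [1, 1, 1, 1, 1, 1, 1, 1], .l [3, 4], .l [5, 1], .l [3, 4], .l [3, 7, 9, 7, 2], .l [3, 7], .l [8, 4], .y [3, 8, 6], .l [16, 14, 8, 6, 6, 3, 6, 9, 6, 1], .l [3, 9], .l [10, 6], .l [3, 9], .l [12, 8, 11, 4, 1, 6, 9, 5, 2, 5], .l [3, 11], .l [12, 8], .l [14, 10, 15, 2, 5, 1, 9, 5, 1, 5, 6, 3], .l [3, 13], .l [14, 10], .l [16, 12, 12, 9, 3, 11, 4, 8, 6, 1], .l [3, 15], .l [16, 12]]),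
([s 5 1, s 3 2, g, p 0 3, p 4 0, g, p 0 4, g, p 0 5, g, m 1 0, g, s 2 0, g], .hi 4, [.l [6, 2, 9, 3, 9, 5, 2, 5], .r 4491 [1, 2, 3, 6, 4, 5] [1, 1, 1, 1, 1, 1, 1], .l [6, 2], .r 4489 [1, 2, 3, 6, 4, 5] [1, 1, 1, 1, 1, 1], .l [6, 1, 7, 5, 1], .l [4, 5], .l [6, 1], .y [4, 6], .l [4, 7, 13, 8, 9, 4, 9, 2, 4, 5], .l [4, 7], .l [8, 3], .l [4, 7], .l [14, 12, 8, 5, 8, 9, 6, 3], .l [4, 9], .l [10, 5], .l [4, 11, 13, 4, 9, 3, 9, 5, 2, 5], .l [4, 11], .l [12, 7], .l [14, 9, 3, 11, 4, 8, 6, 1], .l [4, 13], .l [14, 9]]),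
([s 4 1, s 3 2, g, p 0 3, p 0 0, g, p 0 4, g, m 1 0, g, s 2 0, g], .lo 4, [.l [3, 5, 2], .l [3, 5], .l [1, 11, 8, 2, 8], .y [4], .l [3, 1, 7, 4, 1, 6, 2, 5], .r 4492 [1, 2, 3, 5, 4] [1, 1, 1, 1, 1, 1], .l [12, 10, 10, 8, 1], .l [12, 10, 11, 6, 3, 4, 6, 3], .l [1, 6, 4, 9, 4, 6, 3], .l [12, 10, 10, 8, 3], .l [10, 8, 8, 6, 3], .l [12, 10, 11, 6, 1, 4, 6, 3], .l [6, 5, 7, 1, 8, 4, 1], .l [12, 10, 10, 8, 5], .l [1, 9, 9, 3, 2], .l [6, 5, 8, 10, 4, 1], .l [1, 9, 11, 5, 2], .l [10, 8, 8, 6, 9]]),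
([s 4 1, s 3 2, g, p 0 3, g, p 0 4, g, m 1 0, g, s 2 0, g], .top 4, [.r 4483 [1, 2, 3, 4] [1, 1, 1, 1], .r 4482 [1, 2, 3, 4] [1, 1, 1, 1, 1], .r 4493 [1, 2, 3, 4] [1, 1, 1, 1, 1], .r 4487 [1, 2, 3, 4] [1, 1, 1, 1, 1]]),
([s 0 1, s 3 2, g, p 0 3, g, m 1 0, g, s 2 0, g], .lo 0, [.l [2], .r 4464 [1, 2, 4, 3] [1, 1, 1, 1, 1], .l [2], .l [4], .r 4494 [1, 2, 3, 4] [1, 1, 1, 1, 1], .l [4], .y [0, 5], .l [6], .R 4468 [4, 3, 1, 2] [1, 1, 1, 1, 1], .l [6], .l [6], .l [8], .R 4478 [4, 3, 1, 2] [1, 1, 1, 1, 1], .l [8]]),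
([s 6 1, s 3 2, g, s 0 3, g, p 4 0, g, m 2 0, p 5 4, g, p 7 5, g, p 0 6, g, s 0 7, g, m 1 0, g], .hi 5, [.l [7, 3, 13, 6, 9, 6, 13, 9, 2, 9], .l [5, 3, 13, 8, 11, 9, 9, 6, 6, 4, 10, 8, 3], .l [7, 3], .l [1, 2, 4, 1, 9, 6, 7, 4, 4, 2, 8, 6, 1], .l [7, 1, 13, 6, 11, 8, 13, 9, 4, 9], .l [11, 12, 10, 10, 7, 11, 4, 10, 1, 8, 10, 6, 7], .l [7, 1], .l [7, 1, 9, 7, 11, 6, 13, 6, 1, 7, 3, 5, 6, 3], .l [5, 6], .l [7, 1], .l [5, 9, 11, 9, 2], .l [5, 9], .l [10, 4], .l [5, 11, 1, 13, 15, 6, 13, 6, 10, 1], .l [5, 11], .l [12, 6], .l [5, 11], .l [14, 8, 13, 6, 1, 8, 13, 9, 4, 9], .l [5, 13], .l [14, 8], .y [5, 14, 10, 8], .l [16, 10, 15, 8, 3, 10, 13, 9, 6, 9], .l [5, 15], .l [16, 10], .l [5, 17, 7, 3, 5, 8, 2, 11, 6, 9,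 5, 3, 4, 1], .l [5, 17], .l [18, 12]]),
([s 6 1, s 3 2, g, s 0 3, g, p 4 0, g, m 2 0, p 5 4, g, p 7 5, g, p 0 6, g, m 1 0, g, s 0 7, g], .lo 3, [.l [4, 14, 9, 11, 15, 10, 10, 8, 10, 3], .l [5, 3, 1, 1, 11, 8, 11, 2, 6, 8, 7, 7, 5], .l [9, 7, 13, 4, 7, 6, 6, 4, 10, 8, 3, 5, 1], .l [4, 14, 9, 11, 15, 10, 10, 8, 10, 3], .l [1, 2, 4, 1, 11, 8, 11, 2, 6, 8, 7, 7, 5], .l [4, 14, 9, 11, 15, 10, 10, 8, 10, 3], .l [1, 2, 4, 1, 9, 6, 7, 4, 4, 2, 6, 4, 1], .l [7, 3, 13, 6, 11, 8, 11, 7, 4, 7], .l [1, 2, 6, 3, 11, 6, 9, 6, 6, 4, 8, 6, 3], .l [7, 10, 7, 13, 8, 13, 4, 1, 7, 5, 5, 6, 3], .y [1, 7, 3], .l [2, 16, 13, 6, 8, 6, 10, 1], .l [14, 13, 1, 8, 6, 6, 2, 4, 3, 5, 1, 7, 1], .l [1, 2, 2, 7, 9, 7, 4], .l [2, 16, 13, 8, 15,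 13, 13, 11, 8, 1], .l [14, 13, 1, 10, 8, 8, 4, 6, 5, 5, 3, 7, 1], .l [14, 13, 1, 14, 1, 3, 10, 10, 6, 8, 7, 7, 5], .l [2, 12, 9, 11, 15, 10, 10, 8, 10, 3], .l [12, 11, 1, 12, 10, 10, 6, 8, 7, 7, 5, 7, 5], .l [3, 13, 15, 4, 1, 12, 8, 10, 6, 8, 7, 7, 5], .l [3, 13, 13, 2, 1, 10, 8, 8, 4, 6, 5, 5, 3], .l [2, 14, 11, 13, 15, 8, 8, 6, 10, 1], .l [12, 11, 1, 14, 12, 12, 8, 10, 9, 9, 7, 3, 1], .l [7, 5, 11, 4, 7, 6, 6, 4, 8, 6, 3, 3, 5], .l [9, 10, 8, 5, 11, 4, 10, 12, 10, 10, 6, 1], .l [12, 11, 1, 16, 14, 14, 10, 12, 11, 11, 9, 3, 1], .l [7, 5, 11, 4, 7, 6, 6, 4, 8, 6, 3, 3, 7]]),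
([s 6 1, s 3 2, g, s 0 3, g, p 4 0, g, m 2 0, p 5 4, g, p 0 5, g, p 0 6, g, m 1 0, g], .lo 10, [.l [3, 11, 11, 9, 6], .l [3, 11], .l [14, 13, 3, 1, 8, 8, 6, 6, 3, 5, 3, 7, 1], .l [5, 11, 11, 9, 4], .l [5, 11], .l [14, 13, 1, 14, 1, 10, 6, 6, 4, 4, 1, 7, 3], .y [5, 10, 8], .l [7, 11, 11, 9, 2], .l [7, 11], .l [14, 13, 1, 14, 1, 8, 4, 4, 2, 6, 3, 7, 1], .l [12, 11, 1, 12, 1, 6, 2, 2, 0, 4, 3, 5, 1], .l [9, 12, 10, 5, 11, 4, 1, 6, 4, 8, 6, 3], .l [10, 11], .l [3, 1, 13, 10, 13, 2, 8, 10, 9, 9, 5, 7, 1], .l [9, 10, 8, 5, 11, 4, 1, 10, 6, 3], .l [3, 1, 13, 10, 13, 2, 8, 10, 9, 9, 7, 7, 5], .l [5, 8, 7, 13, 8, 13, 4, 1, 7, 1, 5, 6, 1], .r 4496 [1, 2, 3, 4, 5, 6, 7] [1, 1, 1, 1, 1, 1, 1, 1], .l [5, 8, 7, 11, 6, 13,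 6, 1, 7, 3, 5, 6, 3], .l [3, 1, 11, 8, 13, 4, 8, 10, 9, 9, 7, 7, 3], .l [3, 1, 11, 8, 11, 2, 6, 8, 7, 7, 5, 5, 3], .r 4497 [1, 2, 3, 4, 5, 6, 7] [1, 1, 1, 1, 1, 1, 1, 1], .l [12, 11, 1, 12, 1, 12, 8, 8, 6, 6, 3, 5, 3], .l [3, 1, 11, 8, 11, 2, 6, 8, 7, 7, 5, 5, 5]]),
([s 7 1, s 3 2, g, s 4 3, g, m 0 4, g, m 2 0, p 6 5, g, p 0 6, g, p 0 7, g, m 1 0, g, s 5 0, g], .lo 5, [.l [7, 3, 9, 15, 7, 9, 1, 7, 1, 9, 2, 5], .l [7, 3], .l [10, 12, 11, 7, 12, 3, 12, 8, 3, 5, 3, 3, 1], .l [9, 7, 9, 15, 11, 1, 5, 11, 4, 1, 2, 5], .l [7, 1], .l [14, 13, 1, 1, 3, 6, 12, 9, 1, 3, 8, 5], .l [7, 1, 9, 15, 9, 1, 3, 11, 2, 5], .l [7, 1], .l [5, 6], .y [1, 7, 5, 3], .l [5, 9, 11, 9, 2], .l [10, 4], .l [5, 9], .l [8, 17, 14, 8, 10, 6,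 1, 1, 1, 5, 8, 3], .l [12, 6], .l [5, 11], .l [5, 13, 11, 1, 5, 13, 3, 7, 1, 9, 2, 5], .l [14, 8], .l [5, 13], .l [5, 13], .l [5, 15, 13, 1, 5, 13, 1, 7, 1, 9, 2, 5], .l [16, 10], .l [5, 15], .l [8, 15, 15, 2, 11, 3, 11, 7, 4, 7], .l [8, 15, 17, 4, 13, 3, 13, 9, 6, 9], .l [18, 12], .l [5, 17]]),
([s 6 1, s 3 2, g, s 0 3, g, m 2 0, p 5 4, g, p 0 5, g, p 0 6, g, m 1 0, g, s 4 0, g], .lo 3, [.l [7, 5, 7, 13, 9, 1, 3, 9, 4, 1, 2, 3], .l [7, 5, 7, 13, 9, 1, 3, 9, 4, 1, 2, 3], .l [12, 11, 3, 6, 12, 9, 1, 3, 8, 5], .l [7, 5, 7, 13, 9, 1, 3, 9, 4, 6, 2, 3], .l [7, 5, 7, 13, 9, 1, 3, 9, 4, 6, 2, 3], .r 4499 [1, 2, 3, 7, 4, 5, 6] [1, 1, 1, 1, 1, 1, 1, 1], .y [1, 5, 3], .l [2, 14, 11, 4, 6, 4, 8, 1], .l [1, 2, 7, 4, 9,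 3, 9, 5, 2, 5], .l [1, 2, 2, 5, 7, 5, 2], .l [5, 3, 9, 7, 13, 9, 3, 9, 4, 6, 2, 3], .l [5, 3, 9, 7, 13, 9, 3, 9, 4, 6, 2, 3], .l [16, 9, 5, 13, 1, 1, 8, 10, 6, 8, 6, 1], .l [3, 1, 5, 13, 3, 7, 1, 9, 2, 5], .l [16, 9, 3, 13, 1, 1, 6, 8, 4, 1], .l [3, 1, 5, 13, 3, 7, 1, 9, 2, 5], .l [3, 1, 5, 11, 1, 5, 1, 7, 2, 3], .l [2, 16, 9, 5, 11, 4, 6, 4, 8, 1], .l [10, 9, 1, 12, 10, 12, 9, 5, 1, 5, 6, 3], .l [3, 1, 5, 13, 1, 7, 1, 9, 2, 5], .l [14, 7, 13, 9, 1, 7, 1, 4, 2, 2, 0, 3], .l [6, 13, 15, 4, 11, 3, 11, 7, 4, 7], .l [14, 7, 13, 9, 1, 7, 1, 10, 8, 8, 6, 3], .l [6, 13, 10, 1, 8, 5, 6, 9, 4, 2, 6, 1]]),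
([s 5 1, s 3 2, g, s 0 3, g, m 2 0, p 4 0, g, p 0 4, g, p 0 5, g, m 1 0, g], .hi 6, [.l [8, 4, 11, 3, 11, 7, 2, 7], .l [5, 3, 11, 6, 9, 6, 9, 5, 2, 5], .l [8, 4], .l [1, 2, 5, 2, 7, 3, 7, 3, 0, 3], .l [8, 2, 11, 3, 11, 7, 4, 7], .r 4498 [1, 2, 3, 6, 4, 5] [1, 1, 1, 1, 1, 1, 1], .l [8, 2], .l [8, 1, 9, 7, 3], .l [6, 7], .l [8, 1], .y [6, 8], .l [3, 1, 5, 7, 9, 4, 9, 4, 6, 3], .l [6, 9], .l [10, 3], .l [6, 9], .l [3, 1, 5, 9, 11, 4, 9, 4, 6, 3], .l [6, 11], .l [12, 5], .r 4500 [1, 2, 3, 6, 4, 5] [1, 1, 1, 1, 1, 1, 1], .l [6, 13], .l [14, 7]]),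
([s 4 1, s 3 2, g, s 0 3, g, m 2 0, p 0 0, g, p 0 4, g, m 1 0, g], .lo 6, [.l [3, 7, 4], .l [3, 7], .l [10, 9, 11, 1, 8, 4, 7], .l [5, 7, 2], .l [5, 7], .l [10, 9, 11, 1, 6, 2, 7], .l [8, 7, 9, 1, 4, 0, 5], .y [6], .l [3, 1, 9, 6, 9, 2, 6, 1], .r 4501 [1, 2, 3, 5, 4] [1, 1, 1, 1, 1, 1], .l [1, 10, 8, 11, 2, 6, 1], .l [3, 1, 7, 4, 9, 4, 6, 3], .l [1, 8, 6, 11, 4, 6, 3], .l [5, 3, 7, 2, 6], .l [5, 3, 7, 2, 6], .l [3, 1, 7, 4, 7, 2, 4, 5], .l [8, 7, 9, 1, 10, 6, 3], .l [1, 8, 6, 9, 2, 4, 7]]),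
([s 7 1, s 3 2, g, s 0 3, g, m 2 4, m 4 5, g, m 5 6, g, p 0 7, g, s 6 0, g, m 1 0, g], .hi 12, [.l [2, 16, 13, 10, 10, 6, 6, 4, 8, 1], .l [2, 12, 9, 11, 11, 6, 6, 4, 4, 3, 8, 2, 3], .l [3, 13, 13, 9, 9, 7, 4], .y [1, 5, 6, 8, 12, 3], .l [4, 16, 11, 8, 8, 4, 4, 2, 6, 1], .l [4, 12, 7, 11, 11, 4, 4, 2, 2, 1, 8, 4, 5], .l [5, 13, 13, 9, 9, 7, 2], .l [7, 10, 8, 3, 9, 4, 8, 8, 1, 4, 2, 6, 4, 1], .l [7, 10, 8, 3, 9, 4, 8, 8, 1, 4, 2, 6, 4], .l [9, 10, 6, 10, 4, 10, 1, 8, 8, 6, 8, 6, 3], .l [7, 8, 6, 3, 9, 4, 8, 8, 1, 8, 4, 1], .l [7, 8, 6, 3, 9, 4, 8, 8, 1, 8, 4, 1], .l [7, 8, 6, 10, 4, 10, 1, 8, 8, 6, 8, 6, 3], .l [7, 8, 6, 3, 7, 2, 6, 6, 1, 6, 4, 1], .l [11, 14, 10, 10, 8, 3, 9, 4, 1, 4, 2, 6, 4, 1], .l [7, 8, 6,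 8, 2, 10, 10, 8, 1, 6, 8, 6, 3], .l [7, 8, 6, 8, 2, 10, 3, 8, 10, 8, 5, 5, 3], .l [7, 8, 6, 3, 7, 2, 6, 8, 1, 4, 2, 6, 4, 1], .l [7, 8, 6, 8, 2, 8, 1, 6, 6, 6, 8, 6, 3], .l [7, 8, 6, 3, 7, 2, 6, 8, 1, 4, 2, 6, 4], .l [7, 8, 6, 3, 11, 6, 3, 10, 6, 8, 6, 1], .l [7, 8, 6, 8, 2, 8, 1, 6, 8, 6, 3, 3, 5], .l [7, 8, 6, 3, 7, 2, 6, 10, 3, 5, 3, 5, 3]]),
([s 7 1, s 3 2, g, s 0 3, g, m 2 4, m 4 5, g, m 5 6, g, p 0 7, g, m 1 0, g, s 6 0, g], .lo 3, [.l [4, 12, 7, 9, 13, 8, 8, 6, 8, 3], .l [5, 3, 1, 1, 9, 6, 9, 2, 6, 6, 5, 5, 3], .l [7, 5, 11, 4, 5, 4, 4, 2, 8, 6, 1, 3, 1], .l [4, 12, 7, 9, 13, 8, 8, 6, 8, 3], .l [1, 2, 4, 1, 9, 6, 9, 2, 6, 6, 5, 5, 3], .l [4, 12, 7, 9, 13, 8, 8, 6, 8, 3], .l [2, 14, 11, 4, 6, 4, 8, 1],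 .l [12, 11, 1, 6, 4, 4, 2, 2, 1, 3, 1, 5, 1], .l [1, 2, 2, 5, 7, 5, 2], .l [2, 14, 11, 6, 13, 11, 11, 9, 6, 1], .l [12, 11, 1, 8, 6, 6, 4, 4, 3, 3, 1, 5, 1], .l [12, 11, 1, 12, 1, 3, 8, 8, 6, 6, 5, 5, 3], .l [2, 10, 7, 9, 13, 8, 8, 6, 8, 3], .l [10, 9, 1, 10, 8, 8, 6, 6, 5, 5, 3, 5, 3], .l [3, 11, 13, 4, 1, 10, 6, 8, 6, 6, 5, 5, 3], .l [3, 11, 11, 2, 1, 8, 6, 6, 4, 4, 3, 3, 1], .l [2, 12, 9, 11, 13, 6, 6, 4, 8, 1], .l [10, 9, 1, 12, 10, 10, 8, 8, 7, 7, 5, 3, 1], .l [5, 3, 9, 4, 5, 4, 4, 2, 6, 4, 1, 1, 3], .y [1, 5, 6, 8, 14, 3], .l [7, 8, 6, 3, 9, 4, 8, 10, 8, 8, 6, 1], .l [10, 9, 1, 14, 12, 12, 10, 10, 9, 9, 7, 3, 1], .l [5, 3, 9, 4, 5, 4, 4, 2, 6, 4, 1, 1, 5]]),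
([s 6 1, s 3 2, g, s 0 3, g, m 2 4, m 4 5, g, m 5 0, g, p 0 6, g, m 1 0, g], .hi 8, [.l [3, 9, 9, 7, 4], .l [12, 11, 3, 1, 6, 6, 4, 4, 3, 3, 1, 5, 1], .l [3, 9], .y [1, 5, 6, 8, 3], .l [5, 9, 9, 7, 2], .l [12, 11, 1, 12, 1, 8, 4, 4, 2, 2, 1, 5, 3], .l [5, 9], .l [7, 10, 8, 3, 9, 4, 1, 4, 2, 6, 4, 1], .l [3, 1, 11, 8, 11, 2, 8, 8, 7, 7, 3, 5, 1], .l [8, 9], .l [7, 8, 6, 3, 9, 4, 1, 8, 4, 1], .l [7, 8, 6, 3, 9, 4, 1], .l [3, 1, 11, 8, 11, 2, 8, 8, 7, 7, 5, 5, 3], .l [7, 8, 6, 3, 7, 2, 1], .r 4503 [1, 2, 3, 4, 5, 7, 6] [1, 1, 1, 1, 1, 1, 1], .l [3, 1, 9, 6, 11, 4, 8, 8, 7, 7, 5, 5, 1], .l [10, 12, 9, 9, 7, 3, 8, 3, 4, 2, 6, 4, 1], .r 4504 [1, 2, 3, 4, 5, 7, 6] [1, 1, 1, 1, 1, 1, 1], .l [3, 1, 9, 6, 9, 2, 6, 6,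 5, 5, 3, 3, 3], .l [10, 9, 1, 10, 1, 10, 6, 6, 4, 4, 3, 3, 1]]),
([s 7 1, s 3 2, g, s 0 3, g, m 0 4, g, m 2 0, m 4 5, g, m 5 6, g, p 0 7, g, s 6 0, g, m 1 0, g], .lo 5, [.l [7, 3, 13, 6, 9, 6, 13, 9, 2, 9], .l [7, 3], .l [5, 3, 13, 8, 11, 9, 9, 6, 6, 4, 10, 8, 3], .l [7, 1, 13, 6, 11, 8, 13, 9, 4, 9], .l [7, 1], .l [11, 12, 10, 10, 7, 11, 4, 10, 1, 8, 10, 6, 7], .l [7, 1, 9, 7, 11, 6, 13, 6, 1, 7, 3, 5, 6, 3], .l [7, 1], .l [5, 6], .l [5, 6], .l [5, 9, 11, 9, 2], .l [10, 4], .l [5, 9], .l [5, 11, 1, 13, 15, 6, 13, 6, 10, 1], .l [12, 6], .l [5, 11], .l [14, 8, 13, 6, 1, 8, 13, 9, 4, 9], .l [14, 8], .l [5, 13], .y [5, 8, 10, 14], .l [16, 10, 15, 8, 3, 10, 13, 9, 6, 9], .l [16, 10], .l [5, 15], .l [5, 15], .l [5,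 17, 7, 3, 5, 8, 2, 11, 6, 9, 5, 3, 4, 1], .l [18, 12], .l [5, 17]]),
([s 7 1, s 3 2, g, s 0 3, g, m 0 4, g, m 2 0, m 4 5, g, m 5 6, g, p 0 7, g, m 1 0, g, s 6 0, g], .lo 3, [.l [4, 14, 9, 11, 15, 10, 10, 8, 10, 3], .l [5, 3, 1, 1, 11, 8, 11, 2, 6, 8, 7, 7, 5], .l [9, 7, 13, 4, 7, 6, 6, 4, 10, 8, 3, 5, 1], .l [4, 14, 9, 11, 15, 10, 10, 8, 10, 3], .l [1, 2, 4, 1, 11, 8, 11, 2, 6, 8, 7, 7, 5], .l [4, 14, 9, 11, 15, 10, 10, 8, 10, 3], .l [7, 3, 13, 6, 11, 8, 11, 7, 4, 7], .l [1, 2, 6, 3, 11, 6, 9, 6, 6, 4, 8, 6, 3], .l [7, 10, 7, 13, 8, 13, 4, 1, 7, 5, 5, 6, 3], .y [1, 7, 3], .l [2, 16, 13, 6, 8, 6, 10, 1], .l [14, 13, 1, 8, 6, 6, 2, 4, 3, 5, 1, 7, 1], .l [1, 2, 2, 7, 9, 7, 4], .l [2, 16, 13, 8, 15, 13, 13, 11,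 8, 1], .l [14, 13, 1, 10, 8, 8, 4, 6, 5, 5, 3, 7, 1], .l [14, 13, 1, 14, 1, 3, 10, 10, 6, 8, 7, 7, 5], .l [2, 12, 9, 11, 15, 10, 10, 8, 10, 3], .l [12, 11, 1, 12, 10, 10, 6, 8, 7, 7, 5, 7, 5], .l [3, 13, 15, 4, 1, 12, 8, 10, 6, 8, 7, 7, 5], .l [3, 13, 13, 2, 1, 10, 8, 8, 4, 6, 5, 5, 3], .l [2, 14, 11, 13, 15, 8, 8, 6, 10, 1], .l [12, 11, 1, 14, 12, 12, 8, 10, 9, 9, 7, 3, 1], .l [7, 5, 11, 4, 7, 6, 6, 4, 8, 6, 3, 3, 5], .l [2, 14, 11, 13, 13, 6, 6, 4, 8, 1], .l [9, 10, 8, 5, 11, 4, 10, 12, 10, 10, 6, 1], .l [12, 11, 1, 16, 14, 14, 10, 12, 11, 11, 9, 3, 1], .l [7, 5, 11, 4, 7, 6, 6, 4, 8, 6, 3, 3, 7]]),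
([s 6 1, s 3 2, g, s 0 3, g, m 0 4, g, m 2 0, m 4 5, g, m 5 0, g, p 0 6, g, m 1 0, g], .hi 10, [.l [3, 11, 11, 9, 6], .l [14, 13, 3, 1, 8, 8, 6, 6, 3, 5, 3, 7, 1], .l [3, 11], .l [1, 2, 2, 7, 7, 5, 4], .l [5, 11, 11, 9, 4], .l [14, 13, 1, 14, 1, 10, 6, 6, 4, 4, 1, 7, 3], .l [5, 11], .y [5, 8, 10], .l [7, 11, 11, 9, 2], .l [14, 13, 1, 14, 1, 8, 4, 4, 2, 6, 3, 7, 1], .l [7, 11], .l [9, 12, 10, 5, 11, 4, 1, 6, 4, 8, 6, 3], .l [3, 1, 13, 10, 13, 2, 8, 10, 9, 9, 5, 7, 1], .l [10, 11], .l [9, 10, 8, 5, 11, 4, 1, 10, 6, 3], .l [5, 8, 7, 13, 8, 13, 4, 1, 7, 1, 5, 6, 1], .l [3, 1, 13, 10, 13, 2, 8, 10, 9, 9, 7, 7, 5], .l [5, 8, 7, 11, 6, 11, 4, 1, 5, 1, 3, 4, 1], .r 4506 [1, 2, 3, 4, 5, 7, 6] [1, 1, 1, 1, 1, 1, 1, 1],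 .l [3, 1, 11, 8, 13, 4, 8, 10, 9, 9, 7, 7, 3], .l [5, 8, 7, 11, 6, 13, 6, 1, 7, 3, 5, 6, 3], .r 4507 [1, 2, 3, 4, 5, 7, 6] [1, 1, 1, 1, 1, 1, 1, 1], .l [3, 1, 11, 8, 11, 2, 6, 8, 7, 7, 5, 5, 5], .l [12, 11, 1, 12, 1, 12, 8, 8, 6, 6, 3, 5, 3]]),
([s 6 1, s 3 2, g, s 4 3, g, m 0 4, g, m 2 0, m 7 5, g, m 5 0, g, p 0 6, g, m 1 0, g, s 0 7, g], .lo 5, [.l [7, 3, 9, 15, 7, 9, 1, 7, 1, 9, 2, 5], .l [7, 3], .l [10, 12, 11, 7, 12, 3, 12, 8, 3, 5, 3, 3, 1], .l [9, 7, 9, 15, 11, 1, 5, 11, 4, 1, 2, 5], .l [7, 1], .l [14, 13, 1, 1, 3, 6, 12, 9, 1, 3, 8, 5], .l [7, 1, 9, 15, 9, 1, 3, 11, 2, 5], .l [7, 1], .l [5, 6], .y [1, 7, 5, 3], .l [5, 9, 11, 9, 2], .l [10, 4], .l [5, 9], .l [5, 9], .l [8, 17, 14, 8, 10, 6, 1, 1, 1, 5,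 8, 3], .l [12, 6], .l [5, 11], .l [5, 13, 11, 1, 5, 13, 3, 7, 1, 9, 2, 5], .l [14, 8], .l [5, 13], .l [5, 13], .l [5, 15, 13, 1, 5, 13, 1, 7, 1, 9, 2, 5], .l [16, 10], .l [5, 15], .l [8, 15, 17, 4, 13, 3, 13, 9, 6, 9], .l [18, 12], .l [5, 17]]),
([s 5 1, s 3 2, g, s 0 3, g, m 2 0, m 6 4, g, m 4 0, g, p 0 5, g, m 1 0, g, s 0 6, g], .lo 3, [.l [7, 5, 7, 13, 9, 1, 3, 9, 4, 1, 2, 3], .l [7, 5, 7, 13, 9, 1, 3, 9, 4, 1, 2, 3], .l [12, 11, 3, 6, 12, 9, 1, 3, 8, 5], .l [7, 5, 7, 13, 9, 1, 3, 9, 4, 6, 2, 3], .l [7, 5, 7, 13, 9, 1, 3, 9, 4, 6, 2, 3], .r 4509 [1, 2, 3, 7, 4, 5, 6] [1, 1, 1, 1, 1, 1, 1, 1], .y [1, 5, 3], .l [2, 14, 11, 4, 6, 4, 8, 1], .l [1, 2, 7, 4, 9, 3, 9, 5, 2, 5], .l [1, 2, 2, 5, 7, 5, 2], .l [1, 2,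 2, 5, 5, 3, 2], .l [5, 3, 9, 7, 13, 9, 3, 9, 4, 6, 2, 3], .l [5, 3, 9, 7, 13, 9, 3, 9, 4, 6, 2, 3], .l [16, 9, 5, 13, 1, 1, 8, 10, 6, 8, 6, 1], .l [3, 1, 5, 13, 3, 7, 1, 9, 2, 5], .l [16, 9, 3, 13, 1, 1, 6, 8, 4, 1], .l [3, 1, 5, 13, 3, 7, 1, 9, 2, 5], .l [3, 1, 5, 11, 1, 5, 1, 7, 2, 3], .l [2, 16, 9, 5, 11, 4, 6, 4, 8, 1], .l [10, 9, 1, 12, 10, 12, 9, 5, 1, 5, 6, 3], .l [3, 1, 5, 13, 1, 7, 1, 9, 2, 5], .l [6, 13, 15, 4, 11, 3, 11, 7, 4, 7], .l [14, 7, 13, 9, 1, 7, 1, 10, 8, 8, 6, 3], .l [6, 13, 10, 1, 8, 5, 6, 9, 4, 2, 6, 1]]),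
([s 5 1, s 3 2, g, s 0 3, g, m 2 0, m 0 4, g, m 4 0, g, p 0 5, g, m 1 0, g], .lo 6, [.l [8, 4, 11, 3, 11, 7, 2, 7], .l [8, 4], .l [5, 3, 11, 6, 9, 6, 9, 5, 2, 5], .l [8, 2, 11, 3, 11, 7, 4, 7], .l [8, 2], .r 4508 [1, 2, 3, 6, 4, 5] [1, 1, 1, 1, 1, 1, 1], .r 4505 [1, 2, 3, 6, 4, 5] [1, 1, 1, 1, 1, 1], .l [8, 1, 9, 7, 3], .l [8, 1], .l [6, 7], .y [6, 8], .l [3, 1, 5, 7, 9, 4, 9, 4, 6, 3], .l [10, 3], .l [6, 9], .l [3, 1, 5, 9, 11, 4, 9, 4, 6, 3], .l [12, 5], .l [6, 11], .l [6, 11], .r 4510 [1, 2, 3, 4, 5, 6] [1, 1, 1, 1, 1, 1, 1], .l [14, 7], .l [6, 13]]),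
([s 4 1, s 3 2, g, s 0 3, g, m 2 0, m 0 0, g, p 0 4, g, m 1 0, g], .hi 6, [.l [3, 7, 4], .l [10, 9, 11, 1, 8, 4, 7], .l [3, 7], .l [1, 2, 2, 3, 2], .l [5, 7, 2], .l [10, 9, 11, 1, 6, 2, 7], .l [5, 7], .y [6], .l [3, 1, 9, 6, 9, 2, 6, 1], .l [1, 10, 8, 11, 2, 6, 1], .r 4511 [1, 2, 3, 5, 4] [1, 1, 1, 1, 1, 1], .l [1, 8, 6, 9, 2, 4, 1], .l [3, 1, 7, 4, 9, 4, 6, 3], .l [5, 3, 7, 2, 6], .l [1, 8, 6, 11, 4, 6, 3], .l [3, 1, 7, 4, 7, 2, 4, 5], .l [1, 8, 6, 9, 2, 4, 7], .l [8, 7, 9, 1, 10, 6, 3]]),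
([s 3 1, s 4 2, g, p 0 3, g, m 1 0, s 5 0, g, s 0 4, g, m 2 5, g], .hi 6, [.l [10, 8, 11, 2, 4, 7], .l [2, 5, 2, 5, 2], .l [3, 7, 3], .l [2, 3, 0, 3, 2], .l [5, 7, 1, 4, 2, 5], .l [3, 2, 8, 4, 2, 3], .l [5, 7, 1], .l [10, 8, 11, 2, 6, 1], .l [6, 11, 3, 9, 4], .l [10, 8, 11, 2, 8, 4, 1, 4, 2, 3], .y [1, 10, 6, 8], .l [8, 6, 11, 4, 6, 3], .l [6, 11, 1, 9, 4], .l [8, 6, 11, 4, 6, 3], .l [6, 11, 1, 9, 4, 5], .l [6, 11, 1, 9, 4], .l [3, 2, 6, 10, 8, 1]]),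
([s 3 1, s 0 2, g, p 0 3, g, m 1 0, s 4 0, g, m 2 4, g], .lo 1, [.l [10, 8, 3, 7, 4, 6, 4, 1], .l [10, 8, 9, 5, 1, 4, 5], .l [5, 4, 1], .l [10, 8, 1, 7, 4, 6, 4, 1], .l [5, 3, 9, 5, 6], .l [3, 2, 3], .l [3, 2, 3], .y [1, 8, 6], .r 4513 [1, 2, 3, 5, 4] [1, 1, 1, 1, 1], .l [8, 6, 9, 2, 6], .l [3, 2, 6], .l [8, 6, 9, 2, 4, 1], .l [8, 6, 9, 2, 6], .l [3, 2, 8]]),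
([s 0 1, s 0 2, g, m 1 0, s 3 0, g, m 2 3, g], .lo 0, [.l [2], .r 4514 [1, 2, 4, 3] [1, 1, 1, 1], .l [2], .y [0, 3], .l [3], .l [5], .l [3, 2, 5, 2, 5], .l [5], .l [7], .l [3, 2, 7, 4, 1], .l [7]]),
([s 0 1, s 3 2, g, s 0 3, g, m 1 0, s 4 0, g, s 0 4, g, m 2 0, g], .lo 0, [.l [2], .l [12, 10, 1, 9, 6, 8, 6, 1], .l [2], .l [4], .l [12, 10, 3, 9, 6, 8, 6, 1], .l [4], .y [0, 5], .l [5], .l [7], .l [5, 4, 1, 6, 2, 5], .l [7], .l [9], .l [5, 4, 1, 8, 4, 1], .l [9], .l [9], .l [11], .l [5, 4, 1, 10, 6, 1], .l [11]]),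
([s 0 1, s 0 2, g, m 1 0, s 3 0, g, s 0 3, g, m 2 0, g], .lo 1, [.r 4516 [1, 2, 4, 3] [1, 1, 1, 1, 1], .R 4367 [4, 1, 2] [1, 1, 4, 1], .l [5, 4, 1], .l [3, 2, 1], .l [4, 2, 7, 4, 4, 1], .l [6, 4, 9, 4, 6, 3], .l [6, 4, 9, 4, 6], .l [3, 2, 4], .l [8, 6, 9, 2, 6, 1], .l [8, 6, 9, 2, 6], .l [3, 2, 6], .y [1, 8], .l [8, 6, 9, 2, 6, 1], .l [8, 6, 9, 2, 6], .l [3, 2, 8]]),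
([s 3 1, s 4 2, g, p 0 3, g, m 1 0, s 5 0, g, s 0 4, g, m 0 5, g, m 2 0, g], .hi 6, [.l [10, 8, 13, 4, 6, 9], .l [2, 5, 2, 5, 2], .l [3, 7, 3], .l [2, 3, 0, 3, 2], .l [5, 7, 1, 4, 2, 5], .l [3, 2, 8, 4, 2, 3], .l [5, 7, 1], .l [10, 8, 13, 4, 8, 1], .l [6, 11, 3, 9, 4], .l [10, 8, 13, 4, 10, 4, 1, 6, 4, 5], .l [8, 6, 11, 4, 6, 1], .l [8, 6, 13, 6, 8, 5], .l [6, 11, 1, 9, 4], .l [8, 6, 13, 6, 8, 5], .y [6, 10], .l [6, 11, 1, 9, 4, 5], .l [6, 11, 1, 9, 4], .l [8, 6, 13, 6, 8, 3], .l [6, 13, 3, 11, 4, 5], .l [6, 13, 3, 11, 4], .l [3, 2, 6, 12, 10, 1]]),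
([s 3 1, s 0 2, g, p 0 3, g, m 1 0, s 4 0, g, m 0 4, g, m 2 0, g], .lo 1, [.l [12, 10, 3, 9, 6, 8, 6, 1], .l [12, 10, 11, 7, 1, 6, 7], .l [5, 4, 1], .l [12, 10, 1, 9, 6, 8, 6, 1], .l [5, 3, 11, 7, 8], .l [3, 2, 3], .l [3, 2, 3], .l [3, 2, 4, 1], .r 4518 [1, 2, 3, 5, 4] [1, 1, 1, 1, 1, 1], .l [8, 6, 11, 4, 8], .l [3, 2, 6], .l [10, 8, 11, 2, 6, 1], .l [10, 8, 11, 2, 8], .l [3, 2, 8], .y [1, 10], .l [10, 8, 11, 2, 6, 1], .l [10, 8, 11, 2, 8], .l [3, 2, 10]]),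
([s 0 1, s 0 2, g, m 1 0, s 3 0, g, m 0 3, g, m 2 0, g], .lo 0, [.l [2], .r 4519 [1, 2, 4, 3] [1, 1, 1, 1, 1], .l [2], .y [0, 3], .l [3], .l [5], .l [3, 2, 5, 2, 5], .l [5], .l [7], .l [3, 2, 7, 4, 1], .l [7], .l [7], .l [9], .l [3, 2, 9, 6, 1], .l [9]]),
([s 3 1, s 5 2, g, p 0 3, g, m 1 0, s 4 0, g, m 2 0, g, m 0 4, g, s 0 5, g], .hi 6, [.l [1, 13, 10, 4, 9, 1, 3, 1, 6, 1], .l [1, 13, 1, 3, 8, 4, 7, 1, 6, 1], .l [3, 7, 3], .l [1, 11, 1, 3, 6, 2, 5, 1, 4, 1], .l [5, 7, 1, 4, 2, 9], .l [1, 13, 8, 2, 9, 3, 5, 1, 6, 3], .l [5, 7, 1], .l [6, 11, 3, 9, 4, 9], .l [6, 11, 3, 9, 4], .l [6, 11, 13, 6, 11, 4, 6, 3], .l [6, 11, 1, 9, 4, 9], .l [6, 11, 1, 9, 4], .l [8, 6, 13, 6, 8, 5], .y [6, 10], .l [6, 11, 1, 9, 4, 9],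 .l [6, 11, 1, 9, 4], .l [8, 6, 13, 6, 8, 3], .l [3, 2, 10, 1, 3, 8, 4, 1], .l [6, 13, 3, 11, 4, 7], .l [6, 13, 3, 11, 4], .l [3, 2, 10, 1, 3, 10, 6, 1]]),
([s 3 1, s 0 2, g, p 0 3, g, m 1 0, s 4 0, g, m 2 0, g, m 0 4, g], .lo 1, [.l [10, 8, 3, 7, 4, 6, 4, 5], .l [10, 8, 9, 5, 1, 4, 5], .l [5, 4, 1], .l [10, 8, 1, 7, 4, 6, 4, 5], .l [5, 3, 9, 5, 6], .l [3, 2, 3], .l [3, 2, 3], .l [3, 2, 4, 1], .l [8, 6, 9, 2, 4, 7], .l [8, 6, 9, 2, 6], .l [3, 2, 6], .y [1, 8], .l [8, 6, 9, 2, 4, 7], .l [8, 6, 9, 2, 6], .l [3, 2, 8], .r 4521 [1, 2, 3, 4, 5] [1, 1, 1, 1, 1, 1], .l [8, 6, 11, 4, 8], .l [3, 2, 10]]),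
([s 0 1, s 0 2, g, m 1 0, s 3 0, g, m 2 0, g, m 0 3, g], .lo 0, [.l [2], .r 4522 [1, 2, 4, 3] [1, 1, 1, 1, 1], .l [2], .y [0, 3], .l [3], .l [5], .l [3, 2, 5, 2, 7], .l [5], .l [5], .l [7], .l [3, 2, 7, 4, 7], .l [7], .l [9], .l [3, 2, 9, 6, 3], .l [9]]),
([s 0 1, s 3 2, g, s 0 3, g, m 1 0, s 4 0, g, m 2 0, g, s 0 4, g], .lo 0, [.l [2], .l [5, 3, 9, 5, 6, 8, 4, 1], .l [2], .l [4], .l [10, 8, 3, 7, 4, 6, 4, 5], .l [4], .y [0, 5], .l [5], .l [7], .l [5, 4, 1, 6, 2, 7], .l [7], .l [7], .l [9], .l [5, 4, 1, 8, 4, 7], .l [9], .l [11], .l [5, 4, 1, 10, 6, 3], .l [11]]),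
([s 0 1, s 0 2, g, m 1 0, s 3 0, g, m 2 0, g, s 0 3, g], .lo 1, [.r 4524 [1, 2, 4, 3] [1, 1, 1, 1, 1], .R 4367 [4, 1, 2] [1, 1, 2, 3], .l [5, 4, 1], .l [3, 2, 1], .l [4, 2, 5, 2, 2, 3], .l [6, 4, 7, 2, 4, 5], .l [6, 4, 7, 2, 4], .l [3, 2, 4], .y [1, 6], .l [6, 4, 7, 2, 4, 5], .l [6, 4, 7, 2, 4], .l [3, 2, 6], .l [6, 4, 9, 4, 6, 3], .l [6, 4, 9, 4, 6], .l [3, 2, 8]]),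
([s 0 1, s 0 2, g, m 1 0, s 0 3, g, m 3 0, g, m 2 0, g], .lo 4, [.l [6, 2, 9, 4, 6, 3], .l [3, 5, 1], .l [8, 1, 4, 2, 4], .l [6, 1, 2, 0, 2], .r 4517 [1, 2, 4] [1, 1, 3, 1], .l [6, 1, 7, 5, 2], .r 4520 [1, 2, 4] [1, 1, 3, 1], .y [4, 6], .r 4517 [1, 2, 4] [1, 3, 1, 1], .l [6, 1, 7, 5, 2], .r 4520 [1, 2, 4] [1, 3, 1, 1], .r 4515 [1, 2, 4] [1, 3, 1], .r 4525 [1, 2, 4] [1, 3, 1, 1], .l [6, 1, 9, 7, 2], .r 4523 [1, 2, 4] [1, 3, 1, 1]]),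
([s 1 0, s 3 0, g, s 2 0, g, p 0 1, s 0 2, g, p 0 3, g], .hi 1, [.l [10, 8, 3, 4, 6, 3], .l [7, 6, 1], .l [10, 8, 3, 4, 6, 3], .l [10, 8, 1, 4, 6, 3], .l [7, 6, 3], .r 4367 [4, 1, 3] [3, 1, 2, 1], .l [5, 4, 3], .l [6, 4, 7, 2, 2, 3], .l [8, 6, 9, 2, 4, 5], .l [5, 4, 6], .l [8, 6, 9, 2, 4], .y [1, 8], .l [8, 6, 1, 2, 4, 5], .l [5, 4, 8], .l [8, 6, 9, 2, 4]]),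
([s 0 1, s 0 2, g, m 1 0, s 0 3, g, m 2 0, g, m 3 0, g], .lo 4, [.R 4527 [1, 4, 2] [1, 1, 1, 3], .l [3, 5, 1], .l [10, 3, 6, 2, 6], .l [8, 3, 4, 0, 4], .r 4517 [1, 2, 4] [1, 1, 1, 3], .l [6, 1, 9, 7, 2], .r 4520 [1, 2, 4] [1, 1, 1, 3], .r 4515 [1, 2, 4] [1, 1, 3], .l [8, 3, 9, 5, 2, 5], .l [8, 3, 9, 5, 2], .r 4523 [1, 2, 4] [1, 1, 1, 3], .y [4, 8], .l [8, 3, 9, 5, 2, 5], .l [8, 3, 9, 5, 2], .r 4523 [1, 2, 4] [1, 1, 3, 1]]),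
([s 3 1, s 4 2, g, p 0 3, s 0 0, g, s 2 0, g, p 0 4, g, m 1 0, g], .lo 4, [.l [3, 5, 1, 10, 8, 3], .l [3, 5, 1], .l [8, 6, 11, 3, 9, 2, 4, 5], .y [4], .l [8, 6, 9, 2, 6, 1], .R 4526 [3, 4, 5] [1, 1, 3, 3], .l [3, 2, 11, 8, 1], .l [6, 4, 7, 2, 4, 1], .l [6, 4, 9, 4, 6, 3], .l [6, 4, 9, 4, 6, 3], .l [3, 2, 11, 8, 3], .l [6, 4, 7, 2, 4, 5], .R 4528 [3, 4, 5] [1, 3, 1, 3], .l [3, 2, 11, 8, 5], .l [3, 2, 9, 6, 5], .l [6, 4, 7, 2, 4, 7], .l [6, 4, 9, 3, 9, 2, 4, 5], .l [3, 2, 9, 6, 9]]),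
([s 3 1, s 5 2, g, p 6 3, s 2 4, g, p 0 5, g, m 0 6, g, m 4 0, g, m 1 0, g], .lo 6, [.l [3, 7, 13, 8, 10, 1], .l [3, 7], .l [1, 5, 3, 10, 5, 5, 3, 7, 3, 5, 3, 5, 1], .l [5, 2, 8, 10, 2, 4, 1, 8, 4, 1], .l [6, 7], .l [1, 3, 1, 12, 10, 8, 7, 7, 3, 5, 1, 5, 1], .l [5, 2, 8, 10, 2, 4, 1, 8, 4, 1], .l [3, 2, 2, 10, 7, 7, 5, 5, 3, 7, 1, 5, 3], .l [4, 2, 5, 2, 3, 6, 1, 3, 6, 2, 3, 5, 1], .l [5, 2, 6, 10, 4, 6, 1, 8, 2, 3], .l [1, 3, 1, 12, 10, 8, 7, 7, 5, 5, 1, 5, 1], .l [7, 4, 6, 5, 3, 1, 4, 8, 6, 1], .y [1, 4, 10, 6], .l [5, 2, 6, 8, 2, 4, 1, 8, 4, 1], .l [1, 3, 1, 8, 5, 5, 3, 7, 3, 5, 3, 5, 1], .l [7, 4, 6, 5, 3, 1, 6, 8, 4, 1], .l [7, 4, 6, 5, 3, 1, 6, 6, 2, 1], .l [5, 2, 6, 8, 2, 4, 1, 6, 2, 5], .l [1, 3, 1, 8,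 5, 5, 3, 9, 5, 7, 5, 5, 3], .l [4, 2, 5, 2, 3, 4, 6, 2, 3, 5, 1, 3, 3]]),
([s 3 1, s 5 2, g, p 6 3, s 2 4, g, p 0 5, g, m 4 0, g, m 1 0, g, p 0 6, g], .lo 12, [.l [1, 5, 3, 8, 3, 6, 8, 8, 1, 6, 4, 1], .l [3, 13], .l [1, 5, 3, 8, 3, 3, 1, 5, 7, 7, 1, 5, 3], .l [6, 13, 8, 9, 7, 1, 6, 1], .l [6, 13], .l [3, 2, 2, 8, 5, 5, 1, 3, 7, 7, 3, 5, 1], .l [8, 13, 9, 2, 9, 6, 6, 3], .l [8, 13], .l [3, 2, 2, 8, 5, 5, 3, 7, 1, 5, 5, 5, 3], .l [3, 2, 2, 6, 3, 3, 1, 5, 1, 3, 3, 3, 1], .l [1, 3, 1, 6, 3, 6, 8, 8, 1, 6, 4, 1], .l [10, 13], .l [1, 3, 1, 6, 3, 6, 0, 8, 8, 1, 6, 4, 1], .y [0, 10, 12, 3], .l [11, 14, 5, 10, 3, 8, 4, 2, 1, 6, 4, 1], .l [12, 13], .l [1, 3, 1, 8, 11, 3, 8, 3, 6, 1, 6, 4, 1], .l [11, 12, 3, 8, 3, 8, 2,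 3, 0, 5], .l [1, 3, 1, 6, 3, 8, 3, 8, 4, 1, 4, 0, 3], .l [1, 3, 1, 6, 3, 8, 3, 6, 3, 6, 1, 4, 1]]),
([s 3 1, s 5 2, g, p 6 3, s 2 4, g, p 0 5, g, m 4 0, g, m 0 6, g, m 1 0, g], .lo 10, [.l [1, 5, 3, 8, 3, 8, 1, 8, 4, 1], .l [12, 8], .l [1, 5, 3, 8, 3, 3, 1, 7, 1, 7, 3, 5, 1], .l [2, 12, 5, 3, 5, 10, 2, 3, 0, 5], .l [12, 5], .l [1, 3, 0, 10, 10, 4, 6, 4, 1, 5, 1, 5, 1], .l [10, 5, 11, 7, 2, 5, 9, 7, 4, 6, 4, 1], .l [12, 3], .l [3, 2, 2, 8, 5, 5, 3, 9, 3, 7, 5, 5, 3], .l [3, 2, 2, 6, 3, 3, 1, 7, 3, 5, 3, 3, 1], .l [1, 3, 1, 6, 3, 8, 1, 8, 4, 1], .l [12, 1], .l [1, 3, 1, 6, 3, 4, 6, 6, 4, 4, 5, 4, 1], .l [1, 3, 1, 6, 3, 4, 4, 6, 1, 6, 4, 1], .l [12, 1], .l [10, 11], .y [0, 12, 10, 3], .l [10, 13, 4, 5, 3, 8, 3,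 4, 6, 1, 4, 1], .l [14, 3], .l [10, 13]]),
([s 3 1, s 5 2, g, p 6 3, s 2 4, g, p 0 5, g, m 4 6, g, m 1 0, g], .lo 6, [.l [3, 7, 11, 6, 8, 1], .l [3, 7], .l [1, 5, 3, 8, 3, 3, 1, 5, 3, 3, 1, 3, 1], .l [5, 2, 8, 8, 0, 2, 1, 6, 4, 1], .l [6, 7], .l [1, 3, 1, 10, 8, 6, 5, 5, 1, 3, 1, 3, 1], .l [5, 2, 8, 8, 0, 2, 1, 6, 4, 1], .l [3, 2, 2, 8, 5, 5, 3, 3, 1, 5, 1, 3, 1], .l [4, 2, 5, 2, 3, 6, 1, 3, 4, 0, 1, 3, 1], .l [5, 2, 6, 6, 0, 2, 1, 6, 4, 1], .l [1, 3, 1, 6, 3, 3, 1, 5, 3, 3, 1, 3, 1], .l [7, 4, 6, 5, 3, 1, 4, 6, 4, 1], .y [0, 10, 6, 1, 4, 8, 3], .l [5, 2, 6, 6, 0, 2, 1, 4, 2, 3], .l [1, 3, 1, 6, 3, 3, 1, 7, 5, 5, 3, 3, 1], .l [4, 2, 5, 2, 3, 4, 4, 0, 1, 3, 1, 1, 1]]),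
([s 3 1, s 5 2, g, p 0 3, s 2 4, g, p 0 5, g, m 4 0, g, m 1 0, g], .lo 3, [.l [1, 5, 3, 8, 3, 6, 1, 6, 4, 1], .l [3, 4], .l [1, 5, 3, 8, 3, 6, 1, 6, 4, 1], .l [2, 10, 5, 10, 2, 3, 0, 5], .l [2, 10, 5, 10, 2, 3, 0, 5], .l [2, 12, 9, 2, 4, 7, 4], .l [2, 10, 5, 10, 2, 3, 0, 3], .l [2, 10, 5, 10, 2, 3, 0, 3], .r 4530 [1, 2, 3, 4, 5, 6] [1, 1, 1, 1, 1, 1], .r 4533 [1, 2, 3, 4, 5, 6] [1, 1, 1, 1, 1], .l [1, 3, 1, 6, 3, 6, 1, 6, 4, 1], .l [1, 3, 1, 6, 3, 6, 1, 6, 4, 1], .r 4532 [1, 2, 3, 4, 5, 6] [1, 1, 1, 1, 1, 1], .y [0, 10, 3], .l [2, 8, 3, 8, 2, 3, 0, 5], .r 4531 [1, 2, 3, 4, 5, 6] [1, 1, 1, 1, 1, 1], .l [2, 8, 3, 8, 2, 3, 0, 5]]),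
([s 3 1, s 4 2, g, p 0 3, s 2 0, g, p 0 4, g, m 1 0, g], .hi 4, [.l [6, 4, 7, 2, 2, 3], .l [6, 4, 9, 3, 7, 2, 2, 3], .l [3, 5, 1], .l [4, 2, 7, 3, 5, 0, 0, 1], .l [4, 2, 7, 4, 4, 1], .l [3, 2, 9, 6, 1], .l [4, 2, 7, 4, 4, 1], .y [1, 4, 6], .l [4, 2, 5, 2, 2, 3], .l [3, 2, 9, 6, 3], .r 4534 [1, 2, 3, 5, 4] [1, 1, 1, 1, 1], .l [4, 2, 5, 2, 2, 5], .l [3, 2, 7, 4, 7], .l [4, 2, 7, 3, 7, 2, 2, 3]]),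
([s 3 1, s 4 2, g, p 0 3, g, s 2 0, g, p 0 4, g, m 1 0, g], .top 4, [.r 4535 [1, 2, 3, 4] [1, 1, 1, 1], .r 4529 [1, 2, 3, 4] [1, 1, 1, 1, 1], .r 4459 [1, 3, 4] [1, 3, 1, 1], .r 4463 [1, 3, 4] [1, 3, 1, 1]]),
([s 3 1, s 4 2, g, s 2 0, g, p 0 3, s 0 0, g, p 0 4, g, m 1 0, g], .lo 6, [.l [3, 7, 3, 10, 6, 7], .l [3, 7, 3], .l [7, 6, 3, 10, 4, 7], .l [3, 5, 1, 8, 6, 1], .l [5, 7, 1, 10, 8, 1], .l [5, 7, 1], .l [10, 8, 11, 1, 7, 2, 4, 5], .y [6], .l [5, 4, 1, 10, 6, 1], .R 4526 [3, 4, 5] [3, 1, 1, 3], .l [5, 4, 1, 10, 6, 1], .l [5, 4, 1, 10, 6, 3], .R 4528 [3, 4, 5] [3, 1, 1, 3], .l [5, 4, 1, 10, 6, 3], .l [5, 4, 1, 8, 4, 3], .l [5, 4, 1, 8, 4, 7], .l [8, 6, 9, 1, 9, 4, 6, 3], .l [5, 4, 1, 8, 4, 7]]),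
([s 3 1, s 4 2, g, s 2 0, g, p 0 3, g, p 0 4, g, m 1 0, g], .top 6, [.R 4453 [3, 4] [3, 3], .r 4537 [1, 2, 3, 4] [1, 1, 1, 1, 1], .r 4459 [1, 3, 4] [3, 1, 1, 1], .r 4463 [1, 3, 4] [3, 1, 1, 1]]),
([s 0 1, s 3 2, g, s 2 0, g, p 0 3, m 1 4, g, m 4 0, g], .lo 0, [.l [2], .r 4536 [1, 2, 5, 3] [1, 1, 1, 0, 3], .l [2], .l [2], .l [4], .r 4538 [1, 2, 5, 3] [1, 1, 1, 0, 3], .l [4], .l [7], .l [6, 5, 7, 1, 8, 6, 3], .l [7], .y [0, 6, 8], .l [9], .l [1, 6, 4, 9, 4, 4, 1], .l [9]]),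
([s 0 1, s 3 2, g, s 2 0, g, p 0 3, m 1 4, g, s 4 0, g], .lo 0, [.l [2], .l [7, 5, 1, 4, 1, 4, 0, 3], .l [2], .l [2], .l [4], .l [5, 4, 1, 6, 2, 4, 2, 3], .l [4], .l [7], .l [3, 1, 5, 2, 5, 2, 2, 3], .l [7], .y [0, 6, 8], .l [9], .l [3, 1, 5, 2, 7, 4, 4, 1], .l [9]]),
([s 0 1, s 3 2, g, s 2 0, g, p 0 3, m 1 0, g], .hi 6, [.y [0, 6], .l [3, 7, 4], .l [2, 8, 5, 4, 4], .l [3, 7], .l [5, 7, 2], .l [4, 8, 3, 2, 2], .l [5, 7], .l [4, 6, 1, 0, 0], .r 4540 [1, 2, 3, 4] [1, 1, 1, 1], .l [5, 3, 5, 0, 4], .r 4539 [1, 2, 3, 4] [1, 1, 1, 1]]),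
([s 5 1, s 3 2, g, s 0 3, g, m 2 0, s 0 4, g, m 4 0, g, p 0 5, g, m 1 0, g], .lo 6, [.l [2, 14, 11, 4, 10, 1], .l [3, 7, 4], .l [10, 1, 6, 4, 5], .l [3, 1, 11, 8, 11, 2, 6, 7], .l [5, 7, 2], .l [10, 1, 4, 2, 5], .l [8, 1, 2, 0, 3], .l [3, 1, 11, 8, 11, 2, 8, 1], .l [8, 1, 9, 7, 3], .l [3, 1, 11, 8, 11, 2, 8, 1], .y [6, 8], .l [3, 1, 11, 8, 11, 2, 8, 3], .l [8, 1, 9, 7, 3], .l [3, 1, 11, 8, 11, 2, 8, 3], .l [3, 1, 9, 6, 11, 4, 8, 5], .l [8, 1, 11, 9, 3], .l [11, 14, 2, 7, 3, 8, 1, 8, 4, 1], .l [11, 12, 0, 5, 3, 6, 1, 6, 4, 1], .l [3, 1, 9, 6, 9, 2, 6, 7], .l [8, 1, 13, 11, 3], .l [3, 1, 9, 6, 9, 2, 6, 7]]),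
([s 5 1, s 3 2, g, s 0 3, g, m 2 0, s 6 4, g, p 0 5, g, m 0 6, g, m 1 0, g, m 4 0, g], .lo 3, [.l [2, 10, 7, 1, 11, 4, 8, 6, 3, 8, 4, 1], .l [11, 6, 8, 1, 6, 10, 2, 6, 9, 2, 4, 5], .l [2, 10, 7, 1, 11, 4, 8, 6, 3, 8, 4, 1], .l [4, 8, 10, 12, 5, 7, 11, 6, 8, 3], .l [8, 11, 13, 9, 1, 3, 1, 8, 1, 8, 4, 1], .l [4, 8, 10, 12, 5, 7, 11, 6, 8, 3], .y [1, 5, 3], .l [3, 7, 9, 4, 1, 10, 6, 8, 6, 1], .l [10, 9, 1, 6, 4, 4, 2, 5], .l [10, 9, 1, 12, 3, 5, 8, 8, 6, 1], .l [8, 7, 1, 8, 6, 6, 4, 5], .l [8, 7, 1, 8, 6, 6, 4, 5], .l [6, 11, 13, 7, 1, 1, 8, 10, 4, 1], .l [3, 11, 1, 3, 13, 9, 2, 9], .l [8, 7, 1, 10, 8, 8, 6, 3], .l [1, 2, 2, 9, 1, 3, 11, 7, 2, 7], .l [1, 2, 2, 9, 1, 3, 9, 5, 2, 5], .l [3, 13, 3, 5, 13, 7, 2, 9],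 .l [8, 7, 1, 12, 10, 10, 8, 3], .l [1, 2, 2, 11, 3, 5, 11, 5, 2, 7], .l [1, 2, 2, 11, 3, 5, 9, 3, 2, 5], .l [8, 7, 1, 14, 12, 12, 10, 3], .l [8, 7, 1, 14, 12, 12, 10, 3], .l [2, 12, 9, 13, 6, 8, 1, 4, 6, 3]])]

def d17_3 : List (List Item × Qry × List Rf) := [
([s 5 1, s 3 2, g, s 0 3, g, m 2 0, s 6 4, g, p 0 5, g, m 1 6, g, m 4 0, g], .lo 3, [.l [2, 10, 7, 1, 9, 2, 6, 4, 1, 6, 4, 1], .l [11, 6, 8, 1, 6, 8, 0, 4, 7, 2, 2, 3], .l [2, 10, 7, 1, 9, 2, 6, 4, 1, 6, 4, 1], .l [4, 8, 10, 10, 3, 5, 9, 6, 6, 1], .l [8, 11, 11, 7, 1, 3, 1, 6, 1, 6, 4, 1], .l [4, 8, 10, 10, 3, 5, 9, 6, 6, 1], .y [1, 5, 3], .l [3, 7, 9, 4, 1, 8, 4, 6, 4, 1], .l [10, 9, 1, 6, 4, 4, 2, 5], .l [10, 9, 1, 10, 1, 3, 6, 6, 4, 1], .l [8, 7, 1,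 8, 6, 6, 4, 5], .l [8, 7, 1, 8, 6, 6, 4, 5], .l [6, 11, 11, 5, 1, 1, 6, 8, 4, 1], .l [3, 11, 1, 3, 11, 7, 2, 7], .l [8, 7, 1, 10, 8, 8, 6, 3], .l [1, 2, 2, 9, 1, 3, 9, 5, 2, 5], .l [1, 2, 2, 9, 1, 3, 7, 3, 2, 3], .l [8, 7, 1, 12, 10, 10, 8, 3], .l [8, 7, 1, 12, 10, 10, 8, 3], .l [2, 10, 7, 11, 4, 6, 1, 4, 4, 1]]),
([s 5 1, s 3 2, g, s 0 3, g, m 2 0, s 0 4, g, p 0 5, g, m 1 0, g, m 4 0, g], .lo 6, [.l [2, 12, 9, 4, 8, 1], .l [3, 7, 4], .l [14, 5, 10, 4, 9], .l [3, 1, 9, 6, 9, 2, 4, 5], .l [5, 7, 2], .l [14, 5, 8, 2, 9], .l [12, 5, 6, 0, 7], .l [3, 1, 9, 6, 9, 2, 6, 1], .l [8, 1, 13, 11, 3], .l [3, 1, 9, 6, 9, 2, 6, 1], .l [3, 1, 7, 4, 9, 4, 6, 3], .l [10, 3, 13, 9, 3], .r 4543 [1, 2, 3, 4, 5, 6] [1, 1, 1, 1,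 1, 1, 1], .r 4544 [1, 2, 3, 4, 5, 6] [1, 1, 1, 1, 1, 1], .l [3, 1, 7, 4, 7, 2, 4, 5], .l [12, 5, 13, 7, 3], .l [3, 1, 7, 4, 7, 2, 4, 5], .y [6, 12], .l [3, 1, 7, 4, 7, 2, 4, 7], .l [12, 5, 13, 7, 3], .l [3, 1, 7, 4, 7, 2, 4, 7]]),
([s 5 1, s 3 2, g, s 0 3, g, m 2 0, s 6 4, g, p 0 5, g, p 4 0, g, m 1 0, g, p 0 6, g], .lo 3, [.l [2, 10, 7, 1, 11, 4, 8, 6, 3, 8, 4, 1], .l [11, 6, 8, 1, 6, 10, 2, 6, 9, 2, 4, 5], .l [2, 10, 7, 1, 11, 4, 8, 6, 3, 8, 4, 1], .l [4, 8, 10, 12, 5, 7, 11, 6, 8, 3], .l [8, 11, 13, 9, 1, 3, 1, 8, 1, 8, 4, 1], .l [4, 8, 10, 12, 5, 7, 11, 6, 8, 3], .y [1, 5, 3], .l [3, 7, 9, 4, 1, 10, 6, 8, 6, 1], .l [10, 9, 1, 6, 4, 4, 2, 5], .l [10, 9, 1, 12, 3, 5, 8, 8, 6, 1], .l [8, 7, 1, 8, 6, 6, 4, 5],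 .l [8, 7, 1, 8, 6, 6, 4, 5], .l [6, 11, 13, 7, 1, 1, 8, 10, 4, 1], .l [8, 7, 1, 8, 6, 6, 4, 3], .l [3, 11, 1, 3, 13, 9, 2, 9], .l [8, 7, 1, 10, 8, 8, 6, 3], .l [1, 2, 2, 9, 1, 3, 11, 7, 2, 7], .l [1, 2, 2, 9, 1, 3, 9, 5, 2, 5], .l [3, 13, 3, 5, 13, 7, 2, 9], .l [8, 7, 1, 12, 10, 10, 8, 3], .l [1, 2, 2, 11, 3, 5, 11, 5, 2, 7], .l [8, 7, 1, 14, 12, 12, 10, 3], .l [8, 7, 1, 14, 12, 12, 10, 3], .l [2, 12, 9, 13, 6, 8, 1, 4, 6, 3]]),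
([s 5 1, s 3 2, g, s 0 3, g, m 2 0, s 0 4, g, p 0 5, g, p 4 0, g, m 1 0, g], .lo 6, [.l [2, 14, 11, 4, 10, 3], .l [3, 7, 4], .l [2, 14, 11, 4, 10, 3], .l [3, 1, 9, 6, 11, 4, 6, 7], .l [5, 7, 2], .l [4, 14, 9, 2, 8, 3], .l [4, 12, 7, 0, 6, 3], .l [3, 1, 9, 6, 11, 4, 8, 1], .l [11, 14, 2, 7, 3, 8, 1, 8, 4, 1], .l [6, 11, 3, 9, 3], .l [3, 1, 7, 4, 11, 6, 8, 5], .l [3, 1, 7, 4, 11, 6, 8, 5], .l [6, 11, 1, 9, 3], .y [6, 10], .l [3, 1, 7, 4, 11, 6, 8, 3], .l [3, 1, 7, 4, 11, 6, 8, 3], .l [6, 11, 1, 9, 3], .l [6, 11, 1, 9, 3], .l [3, 1, 5, 11, 3, 9, 2, 5], .r 4546 [1, 2, 3, 4, 5, 6] [1, 1, 1, 1, 1, 1, 1], .l [6, 13, 3, 11, 3]]),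
([s 4 1, s 3 2, g, s 0 3, g, m 2 0, s 0 0, g, p 0 4, g, m 1 0, g], .hi 6, [.l [2, 12, 9, 4, 8, 1], .l [2, 12, 9, 4, 8, 1], .l [3, 7, 4], .l [2, 10, 7, 2, 6, 1], .l [3, 1, 9, 6, 9, 2, 4, 5], .l [4, 12, 7, 2, 6, 1], .l [5, 7, 2], .y [6], .l [3, 1, 9, 6, 9, 2, 6, 1], .l [3, 1, 9, 6, 9, 2, 6, 1], .r 4542 [1, 2, 3, 5, 4] [1, 1, 1, 1, 1, 1], .l [3, 1, 7, 4, 7, 2, 4, 1], .l [3, 1, 7, 4, 9, 4, 6, 3], .r 4547 [1, 2, 3, 5, 4] [1, 1, 1, 1, 1, 1], .l [3, 1, 7, 4, 9, 4, 6, 3], .l [3, 1, 7, 4, 7, 2, 4, 5], .l [3, 1, 7, 4, 7, 2, 4, 5], .r 4545 [1, 2, 3, 5, 4] [1, 1, 1, 1, 1, 1]]),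
([s 4 1, s 3 2, g, s 0 3, g, m 2 0, g, p 0 4, g, m 1 0, g], .top 6, [.R 4541 [4, 3, 2] [1, 1, 3], .r 4548 [1, 2, 3, 4] [1, 1, 1, 1, 1], .r 4502 [1, 2, 3, 4] [1, 1, 1, 1, 1], .r 4512 [1, 2, 3, 4] [1, 1, 1, 1, 1]]),
([s 6 1, s 3 2, g, s 2 0, g, p 4 0, g, p 0 3, p 5 4, g, p 7 5, g, p 0 6, g, s 0 7, g, m 1 0, g], .hi 5, [.l [7, 3, 13, 6, 9, 6, 13, 9, 2, 9], .l [5, 3, 13, 8, 11, 9, 9, 6, 6, 4, 10, 8, 3], .l [7, 3], .l [7, 1, 13, 6, 11, 8, 13, 9, 4, 9], .l [11, 12, 10, 10, 7, 11, 4, 10, 1, 8, 10, 6, 7], .l [7, 1], .l [7, 1, 9, 7, 11, 6, 13, 6, 1, 7, 3, 5, 6, 3], .l [5, 6], .l [7, 1], .l [5, 6], .l [5, 9, 11, 9, 2], .l [5, 9], .l [10, 4], .l [5, 11, 1, 13, 15, 6, 13, 6, 10, 1], .l [5, 11], .l [12, 6], .l [5, 11], .l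 [14, 8, 13, 6, 1, 8, 13, 9, 4, 9], .l [5, 13], .l [14, 8], .y [5, 14, 10, 8], .l [16, 10, 15, 8, 3, 10, 13, 9, 6, 9], .l [5, 15], .l [16, 10], .l [5, 17, 7, 3, 5, 8, 2, 11, 6, 9, 5, 3, 4, 1], .l [5, 17], .l [18, 12]]),
([s 6 1, s 3 2, g, s 2 0, g, p 4 0, g, p 0 3, p 5 4, g, p 7 5, g, p 0 6, g, m 1 0, g, s 0 7, g], .hi 3, [.l [4, 14, 9, 11, 15, 10, 10, 8, 10, 3], .l [9, 7, 13, 4, 7, 6, 6, 4, 10, 8, 3, 5, 1], .l [5, 3, 1, 1, 11, 8, 11, 2, 6, 8, 7, 7, 5], .l [4, 14, 9, 11, 15, 10, 10, 8, 10, 3], .l [4, 14, 9, 11, 15, 10, 10, 8, 10, 3], .l [1, 2, 4, 1, 11, 8, 11, 2, 6, 8, 7, 7, 5], .l [7, 3, 13, 6, 11, 8, 11, 7, 4, 7], .l [7, 10, 7, 13, 8, 13, 4, 1, 7, 5, 5, 6, 3], .l [1, 2, 6, 3, 11, 6, 9, 6, 6, 4, 8, 6, 3], .y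 [1, 3, 7], .l [2, 16, 13, 6, 8, 6, 10, 1], .l [1, 2, 2, 7, 9, 7, 4], .l [14, 13, 1, 8, 6, 6, 2, 4, 3, 5, 1, 7, 1], .l [2, 16, 13, 8, 15, 13, 13, 11, 8, 1], .l [14, 13, 1, 14, 1, 3, 10, 10, 6, 8, 7, 7, 5], .l [14, 13, 1, 10, 8, 8, 4, 6, 5, 5, 3, 7, 1], .l [12, 11, 1, 12, 1, 1, 8, 8, 4, 6, 5, 5, 3], .l [2, 12, 9, 11, 15, 10, 10, 8, 10, 3], .l [3, 1, 11, 8, 9, 9, 11, 2, 6, 8, 7, 7, 5], .l [12, 11, 1, 12, 10, 10, 6, 8, 7, 7, 5, 7, 5], .l [2, 14, 11, 13, 15, 8, 8, 6, 10, 1], .l [7, 5, 11, 4, 7, 6, 6, 4, 8, 6, 3, 3, 5], .l [12, 11, 1, 14, 12, 12, 8, 10, 9, 9, 7, 3, 1], .l [2, 14, 11, 13, 13, 6, 6, 4, 8, 1], .l [9, 10, 8, 5, 11, 4, 10, 12, 10, 10, 6, 1], .l [7, 5, 11, 4, 7, 6, 6, 4, 8, 6, 3, 3, 7], .l [12, 11, 1, 16,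 14, 14, 10, 12, 11, 11, 9, 3, 1]]),
([s 6 1, s 3 2, g, s 2 0, g, p 4 0, g, p 0 3, p 5 4, g, p 0 5, g, p 0 6, g, m 1 0, g], .lo 10, [.l [3, 11, 11, 9, 6], .l [3, 11], .l [14, 13, 3, 1, 8, 8, 6, 6, 3, 5, 3, 7, 1], .l [1, 2, 2, 7, 7, 5, 4], .l [5, 11, 11, 9, 4], .l [5, 11], .l [14, 13, 1, 14, 1, 10, 6, 6, 4, 4, 1, 7, 3], .y [5, 10, 8], .l [7, 11, 11, 9, 2], .l [7, 11], .l [14, 13, 1, 14, 1, 8, 4, 4, 2, 6, 3, 7, 1], .l [9, 12, 10, 5, 11, 4, 1, 6, 4, 8, 6, 3], .l [10, 11], .l [3, 1, 13, 10, 13, 2, 8, 10, 9, 9, 5, 7, 1], .l [9, 10, 8, 5, 11, 4, 1, 10, 6, 3], .l [3, 1, 13, 10, 13, 2, 8, 10, 9, 9, 7, 7, 5], .l [5, 8, 7, 13, 8, 13, 4, 1, 7, 1, 5, 6, 1], .r 4550 [1, 2, 3, 4, 5, 6, 7] [1, 1, 1, 1, 1, 1, 1, 1], .l [5, 8,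 7, 11, 6, 13, 6, 1, 7, 3, 5, 6, 3], .l [3, 1, 11, 8, 13, 4, 8, 10, 9, 9, 7, 7, 3], .l [3, 1, 11, 8, 11, 2, 6, 8, 7, 7, 5, 5, 3], .r 4551 [1, 2, 3, 4, 5, 6, 7] [1, 1, 1, 1, 1, 1, 1, 1], .l [12, 11, 1, 12, 1, 12, 8, 8, 6, 6, 3, 5, 3], .l [3, 1, 11, 8, 11, 2, 6, 8, 7, 7, 5, 5, 5]]),
([s 7 1, s 4 2, g, s 2 3, g, p 3 0, g, p 0 4, p 6 5, g, p 0 6, g, p 0 7, g, m 1 0, g, s 5 0, g], .hi 5, [.l [7, 3, 9, 15, 7, 9, 1, 7, 1, 9, 2, 5], .l [10, 12, 11, 7, 12, 3, 12, 8, 3, 5, 3, 3, 1], .l [7, 3], .l [9, 7, 9, 15, 11, 1, 5, 11, 4, 1, 2, 5], .l [14, 13, 1, 1, 3, 6, 12, 9, 1, 3, 8, 5], .l [7, 1], .l [7, 1, 9, 15, 9, 1, 3, 11, 2, 5], .l [5, 6], .l [7, 1], .y [1, 3, 5, 7], .l [5, 9, 11, 9, 2], .l [5, 9], .l [10, 4], .l [5, 9],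 .l [8, 17, 14, 8, 10, 6, 1, 1, 1, 5, 8, 3], .l [5, 11], .l [12, 6], .l [5, 11], .l [5, 13, 11, 1, 5, 13, 3, 7, 1, 9, 2, 5], .l [5, 13], .l [14, 8], .l [5, 15, 13, 1, 5, 13, 1, 7, 1, 9, 2, 5], .l [5, 15], .l [16, 10], .l [8, 15, 17, 4, 13, 3, 13, 9, 6, 9], .l [5, 17], .l [18, 12]]),
([s 6 1, s 3 2, g, s 2 0, g, p 0 3, p 5 4, g, p 0 5, g, p 0 6, g, m 1 0, g, s 4 0, g], .hi 3, [.l [7, 5, 7, 13, 9, 1, 3, 9, 4, 1, 2, 3], .l [12, 11, 3, 6, 12, 9, 1, 3, 8, 5], .l [7, 5, 7, 13, 9, 1, 3, 9, 4, 1, 2, 3], .l [7, 5, 7, 13, 9, 1, 3, 9, 4, 6, 2, 3], .r 4553 [1, 2, 7, 3, 4, 5, 6] [1, 1, 1, 1, 1, 1, 1, 1], .l [7, 5, 7, 13, 9, 1, 3, 9, 4, 6, 2, 3], .y [1, 3, 5], .l [2, 14, 11, 4, 6, 4, 8, 1], .l [1, 2, 2, 5, 7, 5, 2], .l [1,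 2, 7, 4, 9, 3, 9, 5, 2, 5], .l [1, 2, 2, 5, 5, 3, 2], .l [5, 3, 9, 7, 13, 9, 3, 9, 4, 6, 2, 3], .l [16, 9, 5, 13, 1, 1, 8, 10, 6, 8, 6, 1], .l [5, 3, 9, 7, 13, 9, 3, 9, 4, 6, 2, 3], .l [14, 7, 3, 11, 1, 1, 8, 8, 4, 6, 4, 1], .l [3, 1, 5, 13, 3, 7, 1, 9, 2, 5], .l [3, 1, 5, 13, 3, 7, 1, 9, 2, 5], .l [16, 9, 3, 13, 1, 1, 6, 8, 4, 1], .l [2, 16, 9, 5, 11, 4, 6, 4, 8, 1], .l [3, 1, 5, 13, 1, 7, 1, 9, 2, 5], .l [10, 9, 1, 12, 10, 12, 9, 5, 1, 5, 6, 3], .l [6, 13, 15, 4, 11, 3, 11, 7, 4, 7], .l [6, 13, 10, 1, 8, 5, 6, 9, 4, 2, 6, 1], .l [14, 7, 13, 9, 1, 7, 1, 10, 8, 8, 6, 3]]),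
([s 6 1, s 3 2, g, s 2 0, g, p 4 3, p 5 4, g, p 7 5, g, p 0 6, g, s 0 7, g, m 1 0, g], .lo 12, [.l [2, 16, 13, 10, 10, 6, 6, 4, 8, 1], .l [3, 13, 13, 9, 9, 7, 4], .l [2, 12, 9, 11, 11, 6, 6, 4, 4, 3, 8, 2, 3], .y [1, 3, 12, 8, 6, 5], .l [4, 16, 11, 8, 8, 4, 4, 2, 6, 1], .l [5, 13, 13, 9, 9, 7, 2], .l [4, 12, 7, 11, 11, 4, 4, 2, 2, 1, 8, 4, 5], .l [7, 10, 8, 3, 9, 4, 8, 8, 1, 4, 2, 6, 4, 1], .l [9, 10, 6, 10, 4, 10, 1, 8, 8, 6, 8, 6, 3], .l [7, 10, 8, 3, 9, 4, 8, 8, 1, 4, 2, 6, 4], .l [7, 8, 6, 3, 9, 4, 8, 8, 1, 8, 4, 1], .l [7, 8, 6, 10, 4, 10, 1, 8, 8, 6, 8, 6, 3], .l [7, 8, 6, 3, 9, 4, 8, 8, 1, 8, 4, 1], .l [11, 14, 10, 10, 8, 3, 9, 4, 1, 4, 2, 6, 4, 1], .l [7, 8, 6, 8, 2, 10, 3, 8, 10, 8, 5, 5, 3], .l [7,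 8, 6, 8, 2, 10, 10, 8, 1, 6, 8, 6, 3], .l [7, 8, 6, 3, 7, 2, 6, 8, 1, 4, 2, 6, 4, 1], .l [7, 8, 6, 3, 7, 2, 6, 8, 1, 4, 2, 6, 4], .l [7, 8, 6, 8, 2, 8, 1, 6, 6, 6, 8, 6, 3], .l [7, 8, 6, 8, 2, 8, 1, 6, 6, 6, 6, 4, 3], .l [7, 8, 6, 3, 11, 6, 3, 10, 6, 8, 6, 1], .l [7, 8, 6, 3, 7, 2, 6, 10, 3, 5, 3, 5, 3], .l [7, 8, 6, 8, 2, 8, 1, 6, 8, 6, 3, 3, 5]]),
([s 6 1, s 3 2, g, s 2 0, g, p 4 3, p 5 4, g, p 7 5, g, p 0 6, g, m 1 0, g, s 0 7, g], .hi 3, [.l [4, 12, 7, 9, 13, 8, 8, 6, 8, 3], .l [7, 5, 11, 4, 5, 4, 4, 2, 8, 6, 1, 3, 1], .l [5, 3, 1, 1, 9, 6, 9, 2, 6, 6, 5, 5, 3], .l [4, 12, 7, 9, 13, 8, 8, 6, 8, 3], .l [4, 12, 7, 9, 13, 8, 8, 6, 8, 3], .l [1, 2, 4, 1, 9, 6, 9, 2, 6, 6, 5, 5, 3], .l [2, 14, 11, 4, 6, 4, 8,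 1], .l [1, 2, 2, 5, 7, 5, 2], .l [12, 11, 1, 6, 4, 4, 2, 2, 1, 3, 1, 5, 1], .l [2, 14, 11, 6, 13, 11, 11, 9, 6, 1], .l [12, 11, 1, 12, 1, 3, 8, 8, 6, 6, 5, 5, 3], .l [12, 11, 1, 8, 6, 6, 4, 4, 3, 3, 1, 5, 1], .l [10, 9, 1, 10, 1, 1, 6, 6, 4, 4, 3, 3, 1], .l [2, 10, 7, 9, 13, 8, 8, 6, 8, 3], .l [3, 1, 9, 6, 7, 7, 9, 2, 6, 6, 5, 5, 3], .l [10, 9, 1, 10, 8, 8, 6, 6, 5, 5, 3, 5, 3], .l [2, 12, 9, 11, 13, 6, 6, 4, 8, 1], .l [5, 3, 9, 4, 5, 4, 4, 2, 6, 4, 1, 1, 3], .l [10, 9, 1, 12, 10, 10, 8, 8, 7, 7, 5, 3, 1], .y [1, 3, 14, 8, 6, 5], .l [7, 8, 6, 3, 9, 4, 8, 10, 8, 8, 6, 1], .l [5, 3, 9, 4, 5, 4, 4, 2, 6, 4, 1, 1, 5], .l [10, 9, 1, 14, 12, 12, 10, 10, 9, 9, 7, 3, 1]]),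
([s 6 1, s 3 2, g, s 2 0, g, p 4 3, p 5 4, g, p 0 5, g, p 0 6, g, m 1 0, g], .lo 8, [.l [3, 9, 9, 7, 4], .l [3, 9], .l [12, 11, 3, 1, 6, 6, 4, 4, 3, 3, 1, 5, 1], .y [1, 3, 8, 6, 5], .l [5, 9, 9, 7, 2], .l [5, 9], .l [12, 11, 1, 12, 1, 8, 4, 4, 2, 2, 1, 5, 3], .l [7, 10, 8, 3, 9, 4, 1, 4, 2, 6, 4, 1], .l [8, 9], .l [3, 1, 11, 8, 11, 2, 8, 8, 7, 7, 3, 5, 1], .l [7, 8, 6, 3, 9, 4, 1, 8, 4, 1], .l [3, 1, 11, 8, 11, 2, 8, 8, 7, 7, 5, 5, 3], .l [7, 8, 6, 3, 9, 4, 1], .r 4555 [1, 2, 3, 4, 5, 6, 7] [1, 1, 1, 1, 1, 1, 1], .l [10, 12, 9, 9, 7, 3, 8, 3, 4, 2, 6, 4, 1], .l [3, 1, 9, 6, 11, 4, 8, 8, 7, 7, 5, 5, 1], .l [3, 1, 9, 6, 9, 2, 6, 6, 5, 5, 3, 3, 1], .r 4556 [1, 2, 3, 4, 5, 6, 7] [1, 1, 1, 1, 1, 1, 1], .l [10, 9,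 1, 10, 1, 10, 6, 6, 4, 4, 3, 3, 1], .l [3, 1, 9, 6, 9, 2, 6, 6, 5, 5, 3, 3, 3]]),
([s 5 1, s 3 2, g, s 2 0, g, p 0 3, p 4 0, g, p 0 4, g, p 0 5, g, m 1 0, g], .hi 6, [.l [8, 4, 11, 3, 11, 7, 2, 7], .l [5, 3, 11, 6, 9, 6, 9, 5, 2, 5], .l [8, 4], .l [8, 2, 11, 3, 11, 7, 4, 7], .r 4552 [1, 2, 3, 6, 4, 5] [1, 1, 1, 1, 1, 1, 1], .l [8, 2], .r 4557 [1, 2, 3, 6, 4, 5] [1, 1, 1, 1, 1, 1], .l [8, 1, 9, 7, 3], .l [6, 7], .l [8, 1], .y [6, 8], .l [3, 1, 5, 7, 9, 4, 9, 4, 6, 3], .l [6, 9], .l [10, 3], .l [6, 9], .l [3, 1, 5, 9, 11, 4, 9, 4, 6, 3], .l [6, 11], .l [12, 5], .r 4554 [1, 2, 3, 6, 4, 5] [1, 1, 1, 1, 1, 1, 1], .l [6, 13], .l [14, 7]]),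
([s 4 1, s 3 2, g, s 2 0, g, p 0 3, p 0 0, g, p 0 4, g, m 1 0, g], .lo 6, [.l [3, 7, 4], .l [3, 7], .l [10, 9, 11, 1, 8, 4, 7], .l [1, 2, 2, 3, 2], .l [5, 7, 2], .l [5, 7], .l [10, 9, 11, 1, 6, 2, 7], .y [6], .l [3, 1, 9, 6, 9, 2, 6, 1], .r 4558 [1, 2, 3, 5, 4] [1, 1, 1, 1, 1, 1], .l [1, 10, 8, 11, 2, 6, 1], .l [3, 1, 7, 4, 9, 4, 6, 3], .l [1, 8, 6, 11, 4, 6, 3], .l [5, 3, 7, 2, 6], .l [5, 3, 7, 2, 6], .l [3, 1, 7, 4, 7, 2, 4, 5], .l [8, 7, 9, 1, 10, 6, 3], .l [1, 8, 6, 9, 2, 4, 7]]),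
([s 7 1, s 4 2, g, s 2 0, g, m 0 3, g, p 0 4, m 3 5, g, m 5 6, g, p 0 7, g, m 1 0, g, s 6 0, g], .hi 3, [.l [4, 14, 9, 11, 15, 10, 10, 8, 10, 3], .l [9, 7, 13, 4, 7, 6, 6, 4, 10, 8, 3, 5, 1], .l [5, 3, 1, 1, 11, 8, 11, 2, 6, 8, 7, 7, 5], .l [4, 14, 9, 11, 15, 10, 10, 8, 10, 3], .l [4, 14, 9, 11, 15, 10, 10, 8, 10, 3], .l [1, 2, 4, 1, 11, 8, 11, 2, 6, 8, 7, 7, 5], .l [1, 2, 4, 1, 9, 6, 7, 4, 4, 2, 6, 4, 1], .l [7, 3, 13, 6, 11, 8, 11, 7, 4, 7], .l [7, 10, 7, 13, 8, 13, 4, 1, 7, 5, 5, 6, 3], .l [1, 2, 6, 3, 11, 6, 9, 6, 6, 4, 8, 6, 3], .y [1, 3, 7], .l [2, 16, 13, 6, 8, 6, 10, 1], .l [1, 2, 2, 7, 9, 7, 4], .l [14, 13, 1, 8, 6, 6, 2, 4, 3, 5, 1, 7, 1], .l [2, 16, 13, 8, 15, 13, 13, 11, 8, 1], .l [14, 13, 1, 14,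 1, 3, 10, 10, 6, 8, 7, 7, 5], .l [14, 13, 1, 10, 8, 8, 4, 6, 5, 5, 3, 7, 1], .l [12, 11, 1, 12, 1, 1, 8, 8, 4, 6, 5, 5, 3], .l [2, 12, 9, 11, 15, 10, 10, 8, 10, 3], .l [3, 1, 11, 8, 9, 9, 11, 2, 6, 8, 7, 7, 5], .l [12, 11, 1, 12, 10, 10, 6, 8, 7, 7, 5, 7, 5], .l [2, 14, 11, 13, 15, 8, 8, 6, 10, 1], .l [7, 5, 11, 4, 7, 6, 6, 4, 8, 6, 3, 3, 5], .l [12, 11, 1, 14, 12, 12, 8, 10, 9, 9, 7, 3, 1], .l [9, 10, 8, 5, 11, 4, 10, 12, 10, 10, 6, 1], .l [7, 5, 11, 4, 7, 6, 6, 4, 8, 6, 3, 3, 7], .l [12, 11, 1, 16, 14, 14, 10, 12, 11, 11, 9, 3, 1]]),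
([s 7 1, s 4 2, g, s 2 0, g, m 0 3, g, p 0 4, m 3 5, g, m 5 6, g, p 0 7, g, s 6 0, g, m 1 0, g], .lo 5, [.l [7, 3, 13, 6, 9, 6, 13, 9, 2, 9], .l [7, 3], .l [5, 3, 13, 8, 11, 9, 9, 6, 6, 4, 10, 8, 3], .l [1, 2, 4, 1, 9, 6, 7, 4, 4, 2, 8, 6, 1], .l [7, 1, 13, 6, 11, 8, 13, 9, 4, 9], .l [7, 1], .l [11, 12, 10, 10, 7, 11, 4, 10, 1, 8, 10, 6, 7], .l [7, 1, 9, 7, 11, 6, 13, 6, 1, 7, 3, 5, 6, 3], .l [7, 1], .l [5, 6], .l [5, 9, 11, 9, 2], .l [10, 4], .l [5, 9], .l [5, 11, 1, 13, 15, 6, 13, 6, 10, 1], .l [12, 6], .l [5, 11], .l [14, 8, 13, 6, 1, 8, 13, 9, 4, 9], .l [14, 8], .l [5, 13], .y [5, 8, 10, 14], .l [16, 10, 15, 8, 3, 10, 13, 9, 6, 9], .l [16, 10], .l [5, 15], .l [5, 15], .l [5, 17, 7, 3, 5, 8, 2, 11, 6, 9,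 5, 3, 4, 1], .l [18, 12], .l [5, 17]]),
([s 6 1, s 4 2, g, s 2 0, g, m 0 3, g, p 0 4, m 3 5, g, m 5 0, g, p 0 6, g, m 1 0, g], .hi 10, [.l [3, 11, 11, 9, 6], .l [14, 13, 3, 1, 8, 8, 6, 6, 3, 5, 3, 7, 1], .l [3, 11], .l [5, 11, 11, 9, 4], .l [14, 13, 1, 14, 1, 10, 6, 6, 4, 4, 1, 7, 3], .l [5, 11], .y [5, 8, 10], .l [7, 11, 11, 9, 2], .l [14, 13, 1, 14, 1, 8, 4, 4, 2, 6, 3, 7, 1], .l [7, 11], .l [12, 11, 1, 12, 1, 6, 2, 2, 0, 4, 3, 5, 1], .l [9, 12, 10, 5, 11, 4, 1, 6, 4, 8, 6, 3], .l [3, 1, 13, 10, 13, 2, 8, 10, 9, 9, 5, 7, 1], .l [10, 11], .l [9, 10, 8, 5, 11, 4, 1, 10, 6, 3], .l [5, 8, 7, 13, 8, 13, 4, 1, 7, 1, 5, 6, 1], .l [3, 1, 13, 10, 13, 2, 8, 10, 9, 9, 7, 7, 5], .l [5, 8, 7, 11, 6, 11, 4, 1, 5, 1, 3,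 4, 1], .r 4561 [1, 2, 3, 4, 5, 7, 6] [1, 1, 1, 1, 1, 1, 1, 1], .l [3, 1, 11, 8, 13, 4, 8, 10, 9, 9, 7, 7, 3], .l [5, 8, 7, 11, 6, 13, 6, 1, 7, 3, 5, 6, 3], .r 4560 [1, 2, 3, 4, 5, 7, 6] [1, 1, 1, 1, 1, 1, 1, 1], .l [3, 1, 11, 8, 11, 2, 6, 8, 7, 7, 5, 5, 5], .l [12, 11, 1, 12, 1, 12, 8, 8, 6, 6, 3, 5, 3]]),
([s 6 1, s 4 2, g, s 2 3, g, p 3 0, g, p 0 4, m 7 5, g, m 5 0, g, p 0 6, g, m 1 0, g, s 0 7, g], .hi 5, [.l [7, 3, 9, 15, 7, 9, 1, 7, 1, 9, 2, 5], .l [10, 12, 11, 7, 12, 3, 12, 8, 3, 5, 3, 3, 1], .l [7, 3], .l [9, 7, 9, 15, 11, 1, 5, 11, 4, 1, 2, 5], .l [14, 13, 1, 1, 3, 6, 12, 9, 1, 3, 8, 5], .l [7, 1], .l [7, 1, 9, 15, 9, 1, 3, 11, 2, 5], .l [5, 6], .l [7, 1], .y [1, 3, 5, 7], .l [5, 9, 11, 9, 2], .l [5,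 9], .l [10, 4], .l [8, 17, 14, 8, 10, 6, 1, 1, 1, 5, 8, 3], .l [5, 11], .l [12, 6], .l [5, 11], .l [5, 13, 11, 1, 5, 13, 3, 7, 1, 9, 2, 5], .l [5, 13], .l [14, 8], .l [5, 15, 13, 1, 5, 13, 1, 7, 1, 9, 2, 5], .l [5, 15], .l [16, 10], .l [8, 15, 15, 2, 11, 3, 11, 7, 4, 7], .l [8, 15, 17, 4, 13, 3, 13, 9, 6, 9], .l [5, 17], .l [18, 12]]),
([s 5 1, s 3 2, g, s 2 0, g, p 0 3, m 6 4, g, m 4 0, g, p 0 5, g, m 1 0, g, s 0 6, g], .hi 3, [.l [7, 5, 7, 13, 9, 1, 3, 9, 4, 1, 2, 3], .l [12, 11, 3, 6, 12, 9, 1, 3, 8, 5], .l [7, 5, 7, 13, 9, 1, 3, 9, 4, 1, 2, 3], .l [7, 5, 7, 13, 9, 1, 3, 9, 4, 6, 2, 3], .r 4563 [1, 2, 7, 3, 4, 5, 6] [1, 1, 1, 1, 1, 1, 1, 1], .l [7, 5, 7, 13, 9, 1, 3, 9, 4, 6, 2, 3], .y [1, 3, 5], .l [2, 14,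 11, 4, 6, 4, 8, 1], .l [1, 2, 2, 5, 7, 5, 2], .l [1, 2, 7, 4, 9, 3, 9, 5, 2, 5], .l [5, 3, 9, 7, 13, 9, 3, 9, 4, 6, 2, 3], .l [16, 9, 5, 13, 1, 1, 8, 10, 6, 8, 6, 1], .l [5, 3, 9, 7, 13, 9, 3, 9, 4, 6, 2, 3], .l [14, 7, 3, 11, 1, 1, 8, 8, 4, 6, 4, 1], .l [3, 1, 5, 13, 3, 7, 1, 9, 2, 5], .l [3, 1, 5, 13, 3, 7, 1, 9, 2, 5], .l [16, 9, 3, 13, 1, 1, 6, 8, 4, 1], .l [2, 16, 9, 5, 11, 4, 6, 4, 8, 1], .l [3, 1, 5, 13, 1, 7, 1, 9, 2, 5], .l [10, 9, 1, 12, 10, 12, 9, 5, 1, 5, 6, 3], .l [14, 7, 13, 9, 1, 7, 1, 4, 2, 2, 0, 3], .l [6, 13, 15, 4, 11, 3, 11, 7, 4, 7], .l [6, 13, 10, 1, 8, 5, 6, 9, 4, 2, 6, 1], .l [14, 7, 13, 9, 1, 7, 1, 10, 8, 8, 6, 3]]),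
([s 5 1, s 3 2, g, s 2 0, g, p 0 3, m 0 4, g, m 4 0, g, p 0 5, g, m 1 0, g], .lo 6, [.l [8, 4, 11, 3, 11, 7, 2, 7], .l [8, 4], .l [5, 3, 11, 6, 9, 6, 9, 5, 2, 5], .l [1, 2, 5, 2, 7, 3, 7, 3, 0, 3], .l [8, 2, 11, 3, 11, 7, 4, 7], .l [8, 2], .r 4562 [1, 2, 6, 3, 4, 5] [1, 1, 1, 1, 1, 1, 1], .l [8, 1, 9, 7, 3], .l [8, 1], .l [6, 7], .y [6, 8], .l [3, 1, 5, 7, 9, 4, 9, 4, 6, 3], .l [10, 3], .l [6, 9], .l [3, 1, 5, 9, 11, 4, 9, 4, 6, 3], .l [12, 5], .l [6, 11], .l [6, 11], .r 4564 [1, 2, 3, 4, 5, 6] [1, 1, 1, 1, 1, 1, 1], .l [14, 7], .l [6, 13]]),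
([s 4 1, s 3 2, g, s 2 0, g, p 0 3, m 0 0, g, p 0 4, g, m 1 0, g], .hi 6, [.l [3, 7, 4], .l [10, 9, 11, 1, 8, 4, 7], .l [3, 7], .l [5, 7, 2], .l [10, 9, 11, 1, 6, 2, 7], .l [5, 7], .l [8, 7, 9, 1, 4, 0, 5], .y [6], .l [3, 1, 9, 6, 9, 2, 6, 1], .l [1, 10, 8, 11, 2, 6, 1], .r 4565 [1, 2, 3, 5, 4] [1, 1, 1, 1, 1, 1], .l [1, 8, 6, 9, 2, 4, 1], .l [3, 1, 7, 4, 9, 4, 6, 3], .l [5, 3, 7, 2, 6], .l [1, 8, 6, 11, 4, 6, 3], .l [3, 1, 7, 4, 7, 2, 4, 5], .l [1, 8, 6, 9, 2, 4, 7], .l [8, 7, 9, 1, 10, 6, 3]]),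
([s 5 1, s 3 2, g, s 2 0, g, p 0 3, s 6 4, g, p 0 5, g, m 0 6, g, m 1 0, g, m 4 0, g], .hi 3, [.l [2, 10, 7, 1, 11, 4, 8, 6, 3, 8, 4, 1], .l [2, 10, 7, 1, 11, 4, 8, 6, 3, 8, 4, 1], .l [11, 6, 8, 1, 6, 10, 2, 6, 9, 2, 4, 5], .l [4, 8, 10, 12, 5, 7, 11, 6, 8, 3], .l [4, 8, 10, 12, 5, 7, 11, 6, 8, 3], .l [8, 11, 13, 9, 1, 3, 1, 8, 1, 8, 4, 1], .y [1, 3, 5], .l [3, 7, 9, 4, 1, 10, 6, 8, 6, 1], .l [10, 9, 1, 12, 3, 5, 8, 8, 6, 1], .l [10, 9, 1, 6, 4, 4, 2, 5], .l [8, 7, 1, 10, 3, 3, 6, 6, 4, 1], .l [8, 7, 1, 8, 6, 6, 4, 5], .l [6, 11, 13, 7, 1, 1, 8, 10, 4, 1], .l [8, 7, 1, 8, 6, 6, 4, 5], .l [8, 7, 1, 8, 6, 6, 4, 3], .l [3, 11, 1, 3, 13, 9, 2, 9], .l [1, 2, 2, 9, 1, 3, 11, 7, 2, 7], .l [8, 7, 1, 10, 8, 8, 6, 3],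 .l [3, 13, 3, 5, 13, 7, 2, 9], .l [1, 2, 2, 11, 3, 5, 11, 5, 2, 7], .l [8, 7, 1, 12, 10, 10, 8, 3], .l [8, 7, 1, 14, 12, 12, 10, 3], .l [2, 12, 9, 13, 6, 8, 1, 4, 6, 3], .l [8, 7, 1, 14, 12, 12, 10, 3]]),
([s 5 1, s 3 2, g, s 2 0, g, p 0 3, s 6 4, g, p 0 5, g, m 1 6, g, m 4 0, g], .hi 3, [.l [2, 10, 7, 1, 9, 2, 6, 4, 1, 6, 4, 1], .l [2, 10, 7, 1, 9, 2, 6, 4, 1, 6, 4, 1], .l [11, 6, 8, 1, 6, 8, 0, 4, 7, 2, 2, 3], .l [4, 8, 10, 10, 3, 5, 9, 6, 6, 1], .l [4, 8, 10, 10, 3, 5, 9, 6, 6, 1], .l [8, 11, 11, 7, 1, 3, 1, 6, 1, 6, 4, 1], .y [1, 3, 5], .l [3, 7, 9, 4, 1, 8, 4, 6, 4, 1], .l [10, 9, 1, 10, 1, 3, 6, 6, 4, 1], .l [10, 9, 1, 6, 4, 4, 2, 5], .l [8, 7, 1, 8, 1, 1, 4, 4, 2, 1], .l [8, 7, 1, 8, 6, 6, 4, 5], .l [6,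 11, 11, 5, 1, 1, 6, 8, 4, 1], .l [8, 7, 1, 8, 6, 6, 4, 5], .l [3, 11, 1, 3, 11, 7, 2, 7], .l [1, 2, 2, 9, 1, 3, 9, 5, 2, 5], .l [8, 7, 1, 10, 8, 8, 6, 3], .l [8, 7, 1, 12, 10, 10, 8, 3], .l [2, 10, 7, 11, 4, 6, 1, 4, 4, 1], .l [8, 7, 1, 12, 10, 10, 8, 3]]),
([s 5 1, s 3 2, g, s 2 0, g, p 0 3, s 0 4, g, p 0 5, g, m 1 0, g, m 4 0, g], .lo 6, [.l [2, 12, 9, 4, 8, 1], .l [3, 7, 4], .l [14, 5, 10, 4, 9], .l [2, 10, 7, 2, 6, 1], .l [3, 1, 9, 6, 9, 2, 4, 5], .l [5, 7, 2], .l [14, 5, 8, 2, 9], .l [3, 1, 9, 6, 9, 2, 6, 1], .l [8, 1, 13, 11, 3], .l [3, 1, 9, 6, 9, 2, 6, 1], .l [3, 1, 7, 4, 9, 4, 6, 3], .l [10, 3, 13, 9, 3], .r 4567 [1, 2, 3, 4, 5, 6] [1, 1, 1, 1, 1, 1, 1], .r 4568 [1, 2, 3, 4, 5, 6] [1, 1, 1, 1, 1, 1],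 .l [3, 1, 7, 4, 7, 2, 4, 5], .l [12, 5, 13, 7, 3], .l [3, 1, 7, 4, 7, 2, 4, 5], .y [6, 12], .l [3, 1, 7, 4, 7, 2, 4, 7], .l [12, 5, 13, 7, 3], .l [3, 1, 7, 4, 7, 2, 4, 7]]),
([s 5 1, s 3 2, g, s 2 0, g, p 0 3, s 0 4, g, m 4 0, g, p 0 5, g, m 1 0, g], .lo 6, [.l [2, 14, 11, 4, 10, 1], .l [3, 7, 4], .l [10, 1, 6, 4, 5], .l [2, 12, 9, 2, 8, 1], .l [3, 1, 11, 8, 11, 2, 6, 7], .l [5, 7, 2], .l [10, 1, 4, 2, 5], .l [3, 1, 11, 8, 11, 2, 8, 1], .l [8, 1, 9, 7, 3], .l [3, 1, 11, 8, 11, 2, 8, 1], .y [6, 8], .l [3, 1, 11, 8, 11, 2, 8, 3], .l [8, 1, 9, 7, 3], .l [3, 1, 11, 8, 11, 2, 8, 3], .l [3, 1, 9, 6, 11, 4, 8, 5], .l [8, 1, 11, 9, 3], .l [11, 14, 2, 7, 3, 8, 1, 8, 4, 1], .l [11, 12, 0, 5, 3, 6, 1, 6, 4, 1], .l [3,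 1, 9, 6, 9, 2, 6, 7], .l [8, 1, 13, 11, 3], .l [3, 1, 9, 6, 9, 2, 6, 7]]),
([s 5 1, s 3 2, g, s 2 0, g, p 0 3, s 6 4, g, p 0 5, g, p 4 0, g, m 1 0, g, p 0 6, g], .hi 3, [.l [2, 10, 7, 1, 11, 4, 8, 6, 3, 8, 4, 1], .l [2, 10, 7, 1, 11, 4, 8, 6, 3, 8, 4, 1], .l [11, 6, 8, 1, 6, 10, 2, 6, 9, 2, 4, 5], .l [4, 8, 10, 12, 5, 7, 11, 6, 8, 3], .l [4, 8, 10, 12, 5, 7, 11, 6, 8, 3], .l [8, 11, 13, 9, 1, 3, 1, 8, 1, 8, 4, 1], .y [1, 3, 5], .l [3, 7, 9, 4, 1, 10, 6, 8, 6, 1], .l [10, 9, 1, 12, 3, 5, 8, 8, 6, 1], .l [10, 9, 1, 6, 4, 4, 2, 5], .l [8, 7, 1, 10, 3, 3, 6, 6, 4, 1], .l [8, 7, 1, 8, 6, 6, 4, 5], .l [6, 11, 13, 7, 1, 1, 8, 10, 4, 1], .l [8, 7, 1, 8, 6, 6, 4, 5], .l [3, 11, 1, 3, 13, 9, 2, 9], .l [1, 2, 2, 9, 1,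 3, 11, 7, 2, 7], .l [8, 7, 1, 10, 8, 8, 6, 3], .l [3, 13, 3, 5, 13, 7, 2, 9], .l [1, 2, 2, 11, 3, 5, 11, 5, 2, 7], .l [8, 7, 1, 12, 10, 10, 8, 3], .l [1, 2, 2, 11, 3, 5, 9, 3, 2, 5], .l [8, 7, 1, 14, 12, 12, 10, 3], .l [2, 12, 9, 13, 6, 8, 1, 4, 6, 3], .l [8, 7, 1, 14, 12, 12, 10, 3]]),
([s 5 1, s 3 2, g, s 2 0, g, p 0 3, s 0 4, g, p 0 5, g, p 4 0, g, m 1 0, g], .lo 6, [.l [2, 14, 11, 4, 10, 3], .l [3, 7, 4], .l [2, 14, 11, 4, 10, 3], .l [2, 12, 9, 2, 8, 3], .l [3, 1, 9, 6, 11, 4, 6, 7], .l [5, 7, 2], .l [4, 14, 9, 2, 8, 3], .l [3, 1, 9, 6, 11, 4, 8, 1], .l [11, 14, 2, 7, 3, 8, 1, 8, 4, 1], .l [6, 11, 3, 9, 3], .l [3, 1, 7, 4, 11, 6, 8, 5], .l [3, 1, 7, 4, 11, 6, 8, 5], .l [6, 11, 1, 9, 3], .y [6, 10], .l [3,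 1, 7, 4, 11, 6, 8, 3], .l [3, 1, 7, 4, 11, 6, 8, 3], .l [6, 11, 1, 9, 3], .l [6, 11, 1, 9, 3], .l [3, 1, 5, 11, 3, 9, 2, 5], .r 4571 [1, 2, 3, 4, 5, 6] [1, 1, 1, 1, 1, 1, 1], .l [6, 13, 3, 11, 3]]),
([s 4 1, s 3 2, g, s 2 0, g, p 0 3, s 0 0, g, p 0 4, g, m 1 0, g], .hi 6, [.l [2, 12, 9, 4, 8, 1], .l [2, 12, 9, 4, 8, 1], .l [3, 7, 4], .l [3, 1, 9, 6, 9, 2, 4, 5], .l [4, 12, 7, 2, 6, 1], .l [5, 7, 2], .l [4, 10, 5, 0, 4, 1], .y [6], .l [3, 1, 9, 6, 9, 2, 6, 1], .l [3, 1, 9, 6, 9, 2, 6, 1], .r 4570 [1, 2, 3, 5, 4] [1, 1, 1, 1, 1, 1], .l [3, 1, 7, 4, 7, 2, 4, 1], .l [3, 1, 7, 4, 9, 4, 6, 3], .r 4572 [1, 2, 3, 5, 4] [1, 1, 1, 1, 1, 1], .l [3, 1, 7, 4, 9, 4, 6, 3], .l [3, 1, 7, 4, 7, 2, 4, 5], .l [3, 1, 7, 4, 7, 2,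 4, 5], .r 4569 [1, 2, 3, 5, 4] [1, 1, 1, 1, 1, 1]]),
([s 0 1, s 3 2, g, s 0 3, g, m 2 0, m 1 4, g, s 4 0, g], .lo 0, [.l [2], .l [7, 5, 1, 4, 1, 4, 0, 3], .l [2], .l [4], .l [5, 4, 1, 6, 2, 4, 2, 3], .l [4], .l [4], .l [7], .l [3, 1, 5, 2, 5, 2, 2, 3], .l [7], .y [0, 6, 8], .l [9], .l [3, 1, 5, 2, 7, 4, 4, 1], .l [9]]),
([s 0 1, s 3 2, g, s 0 3, g, m 2 0, m 1 0, g], .hi 6, [.y [0, 6], .l [3, 7, 4], .l [2, 8, 5, 4, 4], .l [3, 7], .l [1, 2, 2, 3, 2], .l [5, 7, 2], .l [4, 8, 3, 2, 2], .l [5, 7], .r 4574 [1, 2, 3, 4] [1, 1, 1, 1], .l [5, 3, 5, 0, 4], .r 4388 [1, 2, 4] [3, 1, 1]]),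
([s 4 1, s 3 2, g, s 2 0, g, p 0 3, g, p 0 4, g, m 1 0, g], .top 6, [.R 4575 [4, 3, 2] [1, 1, 3], .r 4573 [1, 2, 3, 4] [1, 1, 1, 1, 1], .r 4559 [1, 2, 3, 4] [1, 1, 1, 1, 1], .r 4566 [1, 2, 3, 4] [1, 1, 1, 1, 1]]),
([s 0 1, s 3 2, g, s 2 0, g, p 0 3, g, m 1 0, g], .lo 0, [.l [2], .r 4536 [1, 2, 4, 3] [1, 1, 1, 1, 1], .l [2], .l [2], .l [4], .r 4538 [1, 2, 4, 3] [1, 1, 1, 1, 1], .l [4], .l [6], .r 4576 [1, 2, 3, 4] [1, 1, 1, 1, 1], .l [6], .y [0, 7], .l [8], .R 4549 [4, 3, 2, 1] [1, 1, 1, 1, 1], .l [8]]),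
([s 0 1, s 2 0, g, p 0 2, g, m 1 0, g], .hi 1, [.c, .r 4577 [1, 3, 2] [1, 1, 1, 1], .l [7, 6, 1], .R 4396 [2, 3] [1, 1, 3], .y [1, 3], .r 4442 [1, 3, 2] [1, 1, 1, 1], .l [7, 6, 3], .r 4396 [3, 2] [1, 1, 3], .r 4495 [1, 3, 2] [1, 1, 1, 1], .l [5, 4, 5], .R 4367 [2, 1, 3] [1, 1, 1, 1]]),
([s 3 1, s 0 0, g, s 0 2, g, p 0 3, s 2 0, g, m 1 0, g], .lo 1, [.y [1], .l [5, 7, 1, 8, 6, 1], .r 4578 [1, 4] [1, 6, 1], .l [5, 7, 1, 8, 6, 1], .l [3, 7, 3, 8, 4, 5], .l [3, 7, 3, 8, 4, 5], .l [7, 6, 3], .r 4349 [1, 2, 3, 4] [1, 1, 1, 1], .l [3, 5, 1, 8, 6, 3], .r 4578 [1, 4] [6, 1, 1], .l [3, 5, 1, 8, 6, 3], .l [3, 5, 1, 6, 4, 3], .l [3, 5, 1, 6, 4, 5], .r 4348 [1, 2, 3, 4] [1, 1, 1, 1, 1], .l [3, 5, 1, 6, 4, 5]]),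
([s 3 1, s 0 2, g, p 0 3, s 4 0, g, m 2 0, g, s 0 4, g, m 1 0, g], .lo 1, [.l [5, 4, 1, 10, 6, 3], .l [8, 6, 7, 3, 6, 8, 4, 5], .l [5, 4, 1], .l [4, 2, 5, 2, 2, 3], .l [6, 4, 7, 2, 4, 5], .l [6, 4, 7, 2, 4], .l [3, 2, 4], .y [1, 6], .l [6, 4, 5, 3, 6, 8, 4, 5], .l [6, 4, 7, 2, 4], .l [3, 2, 6], .l [6, 4, 5, 3, 4, 8, 6, 3], .l [6, 4, 9, 4, 6], .l [3, 2, 8], .l [3, 2, 8], .l [6, 4, 5, 3, 4, 6, 4, 5], .l [6, 4, 11, 6, 8], .l [3, 2, 10]]),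
([s 3 1, s 5 2, g, p 0 3, g, m 0 4, g, p 6 0, g, s 4 5, g, m 1 0, s 0 6, g, m 2 0, g], .hi 11, [.l [3, 12, 3, 11, 2, 7], .l [12, 3, 12, 0, 2], .l [3, 12], .y [0, 11, 3], .l [5, 12, 3, 11, 4, 7], .l [3, 2, 9, 9, 5, 1, 7, 1, 6, 1], .l [5, 12], .l [5, 10], .l [7, 12, 3, 11, 6, 7], .l [12, 3, 12, 0, 6], .l [7, 12], .l [8, 1, 12, 4, 3, 6, 2, 3], .l [8, 1, 12, 4, 3], .l [9, 12], .l [10, 3, 12, 2, 1, 4, 2, 5], .l [8, 1, 12, 4, 8, 6, 1, 4, 2, 3], .l [11, 12], .l [9, 7, 13, 5, 10, 8, 0, 7], .l [9, 7, 15, 7, 12, 10, 2, 6, 4, 7], .l [9, 7, 15, 7, 12, 10, 2, 6, 4, 7], .l [8, 1, 10, 2, 6, 10, 5, 10, 3, 8, 4, 5], .l [8, 1, 10, 2, 6, 12, 7, 10, 2, 3], .l [10, 3, 10, 0, 12], .l [8, 1, 10, 2, 6, 12, 7, 10, 2, 3]]),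
([s 4 1, s 6 2, g, m 0 3, g, p 0 4, g, p 5 0, g, p 7 5, g, s 3 6, g, m 1 0, s 0 7, g, m 2 0, g], .hi 13, [.l [3, 14, 3, 13, 2, 9], .l [7, 6, 11, 9, 11, 14, 12, 12, 4, 6, 4, 7], .l [3, 14], .l [3, 12], .l [5, 14, 3, 13, 4, 9], .l [14, 3, 14, 0, 4], .l [5, 14], .y [0, 13, 5], .l [7, 14, 3, 13, 6, 9], .l [14, 3, 14, 0, 6], .l [7, 14], .l [9, 14, 3, 13, 8, 9], .l [5, 4, 11, 3, 11, 11, 5, 9, 1, 7, 1, 9, 3], .l [9, 14], .l [10, 1, 14, 4, 3, 8, 4, 5], .l [10, 1, 14, 4, 3], .l [11, 14], .l [12, 3, 14, 2, 1, 6, 4, 7], .l [10, 1, 14, 4, 6, 4, 1, 6, 4, 1], .l [13, 14], .l [11, 9, 15, 5, 10, 8, 0, 7], .l [11, 9, 17, 7, 12, 10, 2, 6, 4, 7], .l [11, 9, 17, 7, 12, 10, 2, 6, 4, 7], .l [10, 1, 12, 2, 4, 12, 9, 12, 1, 10, 8,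 5], .l [12, 3, 12, 0, 14, 7, 3, 5, 9, 3, 8, 3], .l [12, 3, 12, 0, 14], .l [10, 1, 12, 2, 4, 14, 11, 12, 2, 6, 1, 8, 4, 1]]),
([s 3 1, s 5 2, g, p 0 3, g, p 4 0, g, p 6 4, g, s 0 5, g, m 1 0, s 0 6, g, m 2 0, g], .lo 9, [.l [3, 10, 15, 6, 7, 3, 10, 5, 6, 3], .l [3, 10, 15, 6, 7, 3, 10, 5, 6, 3], .r 4582 [1, 2, 7, 3, 4, 5, 6] [1, 1, 1, 1, 1, 1, 1, 1], .l [5, 10, 10, 3, 13, 9, 10, 6, 2, 7], .l [5, 10, 10, 3, 13, 9, 10, 6, 2, 7], .r 4581 [1, 2, 3, 7, 5, 6] [1, 1, 3, 1, 1, 1, 1], .l [9, 3, 3, 1, 1, 7, 1, 4, 2, 3], .l [10, 1, 12, 2, 8, 1, 8, 6, 2, 3], .l [11, 3, 5, 3, 3, 9, 1, 4, 2, 3], .l [10, 1, 12, 2, 8, 1, 8, 6, 2, 3], .l [8, 1, 12, 4, 1, 6, 2, 3], .l [10, 3, 12, 2, 8, 1, 8, 6, 2, 3], .l [8, 1, 12, 4, 1, 6, 2,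 3], .l [8, 1, 12, 4, 1, 12, 7, 10, 2, 7], .l [11, 1, 3, 11, 1, 8, 5, 10, 4, 7], .l [8, 1, 12, 4, 1, 12, 7, 10, 2, 7], .l [8, 1, 10, 2, 1, 10, 7, 8, 0, 5], .l [3, 2, 7, 12, 4, 6, 4, 7], .l [3, 2, 7, 12, 4, 6, 4, 7], .l [3, 2, 7, 7, 10, 4, 2, 5], .y [1, 14, 9], .l [3, 2, 7, 14, 6, 8, 6, 9], .l [3, 2, 7, 14, 6, 8, 6, 9], .l [3, 2, 7, 7, 12, 6, 2, 7]]),
([s 3 1, s 5 2, g, p 0 3, g, s 4 0, g, p 6 4, g, s 0 5, g, m 1 0, s 0 6, g, m 2 0, g], .lo 9, [.l [3, 10, 15, 6, 7, 3, 10, 5, 6, 3], .l [3, 10, 15, 6, 7, 3, 10, 5, 6, 3], .l [9, 1, 10, 4, 8, 9, 2, 3], .l [5, 10, 10, 3, 13, 9, 10, 6, 2, 7], .l [5, 10, 10, 3, 13, 9, 10, 6, 2, 7], .l [9, 1, 10, 6, 8, 9, 4, 5], .l [9, 3, 3, 1, 1, 7, 1, 4, 2, 3], .l [7, 10, 10, 5, 13,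 7, 10, 8, 2, 7], .l [7, 10, 10, 5, 13, 7, 10, 8, 2, 7], .l [10, 1, 12, 2, 8, 1, 8, 6, 2, 3], .l [8, 1, 12, 4, 1, 6, 2, 3], .l [11, 1, 3, 11, 1, 4, 2, 5], .l [8, 1, 12, 4, 1, 6, 2, 3], .l [8, 1, 12, 4, 1, 12, 7, 10, 2, 7], .l [11, 1, 3, 11, 1, 8, 5, 10, 4, 7], .l [8, 1, 12, 4, 1, 12, 7, 10, 2, 7], .l [8, 1, 10, 2, 1, 10, 7, 8, 0, 5], .l [3, 2, 7, 12, 4, 6, 4, 7], .l [3, 2, 7, 12, 4, 6, 4, 7], .l [3, 2, 7, 7, 10, 4, 2, 5], .y [1, 14, 9], .l [3, 2, 7, 14, 6, 8, 6, 9], .l [3, 2, 7, 14, 6, 8, 6, 9], .l [3, 2, 7, 7, 12, 6, 2, 7]]),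
([s 3 1, s 4 2, g, p 0 3, g, p 5 0, g, s 0 4, g, m 1 0, s 0 5, g, m 2 0, g], .hi 5, [.l [6, 7, 3, 5, 2, 7, 4, 1], .l [6, 7, 3, 5, 2, 7, 4], .l [7, 3], .l [4, 5, 3, 3, 0, 5, 4], .r 4584 [1, 2, 3, 6, 4, 5] [1, 1, 1, 1, 1, 1, 1], .r 4583 [1, 2, 3, 6, 4, 5] [1, 1, 1, 1, 1, 1, 1], .l [7, 1], .l [7, 1, 1, 9, 3, 6, 2, 3], .l [5, 6], .l [7, 1], .l [7, 1, 1, 7, 1, 4, 2, 3], .l [9, 3, 3, 9, 1, 4, 2, 3], .l [5, 8], .l [9, 3], .y [5, 10], .l [5, 11, 4, 5, 2, 7], .l [5, 11], .l [12, 6], .l [5, 13, 6, 7, 4, 9], .l [5, 13], .l [14, 8]]),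
([s 3 1, s 4 2, g, p 0 3, g, s 0 4, g, m 1 0, s 0 0, g, m 2 0, g], .hi 8, [.l [2, 5, 2, 7, 4, 1], .l [2, 5, 2, 7, 4], .l [3, 9, 5], .l [2, 3, 0, 5, 4], .l [5, 9, 3, 6, 2, 3], .r 4585 [1, 2, 3, 4, 5] [1, 1, 1, 1, 1, 1], .l [5, 9, 3], .l [5, 7, 1, 4, 2, 3], .l [7, 9, 1, 4, 2, 3], .l [5, 3, 11, 7, 8, 6, 2, 5], .l [7, 9, 1], .y [8], .l [12, 10, 1, 9, 6, 8, 6, 1], .l [12, 10, 1, 9, 6, 8, 6, 1], .r 4526 [1, 2, 5] [5, 1, 1, 1], .l [5, 3, 9, 5, 6, 8, 4, 1], .l [10, 8, 1, 7, 4, 6, 4, 5], .l [5, 3, 9, 5, 6, 8, 4, 1]]),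
([s 3 1, s 5 2, g, p 0 3, g, m 1 0, s 4 0, g, p 0 4, g, s 0 5, g, m 2 0, g], .hi 6, [.l [12, 10, 13, 2, 6, 9], .l [10, 1, 6, 4, 6], .l [3, 7, 3], .l [8, 1, 4, 2, 4], .l [5, 7, 1, 4, 2, 7], .l [10, 1, 4, 2, 6], .l [5, 7, 1], .l [8, 1, 9, 7, 4, 7], .l [12, 10, 13, 2, 8, 1], .l [8, 1, 9, 7, 4], .y [6, 8], .l [12, 10, 13, 2, 8, 3], .l [12, 10, 13, 2, 8, 3], .l [8, 1, 9, 7, 4], .l [10, 8, 11, 2, 6, 3], .l [10, 8, 13, 4, 8, 5], .l [10, 8, 13, 4, 10, 4, 1, 6, 4, 5], .l [8, 1, 11, 9, 4], .l [10, 8, 11, 2, 6, 9], .l [10, 8, 11, 2, 6, 9], .l [8, 1, 13, 11, 4]]),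
([s 3 1, s 4 2, g, p 0 3, g, m 1 0, s 0 0, g, s 0 4, g, m 2 0, g], .lo 6, [.l [10, 8, 11, 2, 4, 7], .l [3, 7, 3], .l [2, 5, 2, 5, 2], .l [5, 7, 1, 4, 2, 5], .l [5, 7, 1], .l [3, 2, 8, 4, 2, 3], .l [3, 2, 6, 2, 0, 1], .y [6], .l [10, 8, 11, 2, 6, 1], .r 4587 [1, 2, 3, 5, 4] [1, 1, 1, 1, 1, 1], .l [10, 8, 11, 2, 6, 1], .l [8, 6, 11, 4, 6, 3], .l [8, 6, 11, 4, 6, 3], .r 4518 [1, 2, 3, 4, 5] [1, 1, 1, 1, 1, 1], .r 4513 [1, 2, 3, 4, 5] [1, 1, 1, 1, 1], .l [8, 6, 9, 2, 4, 7], .l [3, 2, 6, 10, 8, 1], .l [8, 6, 9, 2, 4, 7]]),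
([s 3 1, s 4 2, g, p 0 3, g, m 1 0, s 0 0, g, m 2 0, g, s 0 4, g], .lo 6, [.l [2, 5, 2, 5, 2, 7], .l [3, 7, 3], .l [2, 5, 2, 5, 2], .l [5, 7, 1, 4, 2, 7], .l [5, 7, 1], .l [3, 2, 10, 6, 2, 5], .l [3, 2, 8, 4, 0, 3], .y [6], .l [10, 8, 11, 2, 6, 1], .R 4454 [4, 1, 5, 2] [3, 1, 1, 1, 1], .l [10, 8, 11, 2, 6, 1], .l [8, 6, 9, 2, 4, 1], .l [8, 6, 11, 4, 6, 3], .l [8, 6, 11, 4, 6, 3], .r 4522 [1, 2, 3, 5] [1, 1, 1, 1, 3], .l [3, 2, 8, 10, 6, 1], .l [3, 2, 8, 10, 6, 1], .l [8, 6, 9, 2, 4, 7]]),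
([s 4 1, s 3 2, m 0 0, g, s 0 3, g, p 0 4, g, p 5 0, g, m 1 0, s 0 5, g, m 2 0, g], .hi 2, [.y [2], .l [8, 7, 4, 10, 3, 12, 6, 1], .l [6, 4, 1], .l [2, 8, 5, 14, 7, 11, 9, 2, 4, 5], .l [4, 2, 1], .l [8, 7, 2, 10, 3, 12, 4, 5], .l [4, 2, 4], .l [1, 3, 7, 4, 9, 4, 5, 10, 2, 5], .l [4, 2, 4], .l [6, 5, 2, 10, 5, 12, 4, 9], .l [4, 2, 6], .l [6, 5, 2, 10, 5, 12, 4, 9], .l [6, 5, 2, 10, 5, 12, 4, 7], .l [4, 2, 8], .l [6, 5, 2, 10, 5, 12, 4, 7], .l [4, 2, 9, 5], .l [6, 5, 2, 8, 3, 12, 6, 3], .l [4, 2, 11], .l [15, 13, 5, 11, 5, 2, 10, 3], .l [6, 5, 2, 8, 3, 10, 4, 9], .l [4, 2, 13], .l [4, 2, 6, 14, 7, 2, 8, 3]]),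
([s 4 1, s 3 2, p 0 0, g, s 0 3, g, p 0 4, g, p 5 0, g, m 1 0, s 0 5, g, m 2 0, g], .lo 2, [.y [2], .l [8, 7, 4, 10, 3, 12, 6, 1], .l [2, 8, 5, 14, 7, 11, 9, 2, 4, 5], .l [6, 4, 1], .l [8, 7, 2, 10, 3, 12, 4, 5], .l [1, 3, 7, 4, 9, 4, 5, 10, 2, 5], .l [4, 2, 4], .l [6, 5, 2, 10, 5, 12, 4, 9], .l [6, 5, 2, 10, 5, 12, 4, 9], .l [4, 2, 6], .l [6, 5, 2, 8, 3, 10, 4, 7], .l [6, 5, 2, 10, 5, 12, 4, 7], .l [6, 5, 2, 10, 5, 12, 4, 7], .l [4, 2, 8], .l [4, 2, 8], .l [6, 5, 2, 8, 3, 12, 6, 3], .l [15, 13, 5, 11, 5, 2, 10, 3], .l [4, 2, 11], .l [4, 2, 11], .l [6, 5, 2, 8, 3, 10, 4, 9], .l [4, 2, 6, 14, 7, 2, 8, 3], .l [4, 2, 13]]),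
([s 4 1, s 3 2, s 0 0, g, s 0 3, g, p 0 4, g, p 5 0, g, m 1 0, s 0 5, g, m 2 0, g], .hi 2, [.y [2], .l [8, 7, 4, 10, 3, 12, 6, 1], .l [8, 7, 4, 10, 3, 12, 6, 1], .l [2, 8, 5, 14, 7, 11, 9, 2, 4, 5], .l [1, 3, 5, 2, 7, 4, 5, 8, 2, 3], .l [8, 7, 2, 10, 3, 12, 4, 5], .l [8, 7, 2, 10, 3, 12, 4, 5], .l [1, 3, 7, 4, 9, 4, 5, 10, 2, 5], .l [6, 5, 2, 8, 3, 10, 4, 5], .l [6, 5, 2, 10, 5, 12, 4, 9], .l [15, 13, 5], .l [6, 5, 2, 10, 5, 12, 4, 9], .l [6, 5, 2, 10, 5, 12, 4, 7], .l [15, 13, 7], .l [6, 5, 2, 10, 5, 12, 4, 7], .l [4, 2, 9, 5, 5, 3], .l [6, 5, 2, 8, 3, 12, 6, 3], .l [6, 5, 2, 8, 3, 12, 6, 3], .l [15, 13, 5, 11, 5, 2, 10, 3], .l [6, 5, 2, 8, 3, 10, 4, 9], .l [6, 5, 2, 8, 3, 10, 4, 9], .l [4, 2, 6, 14, 7, 2,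 8, 3]]),
([s 4 1, s 3 2, g, s 0 3, g, p 0 4, g, p 5 0, g, m 1 0, s 0 5, g, m 2 0, g], .top 2, [.c, .r 4592 [1, 2, 3, 4, 5] [1, 1, 1, 1, 1, 1], .r 4591 [1, 2, 3, 4, 5] [1, 1, 1, 1, 1, 1], .r 4590 [1, 2, 3, 4, 5] [1, 1, 1, 1, 1, 1]]),
([s 4 1, s 3 2, g, s 0 3, g, p 0 4, g, m 1 0, s 0 0, g, m 2 0, g], .hi 8, [.l [2, 7, 4, 7, 2, 3], .l [2, 7, 4, 7, 2], .l [3, 9, 5], .l [2, 3, 6, 4, 4, 1], .l [2, 5, 8, 4, 4, 1], .l [4, 7, 2, 7, 4], .l [5, 9, 3], .l [4, 5, 0, 5, 4], .l [7, 9, 1, 6, 4, 1], .r 4593 [1, 2, 3, 4, 5] [1, 1, 1, 1, 1, 1], .l [7, 9, 1], .y [8], .l [12, 10, 3, 9, 6, 8, 6, 1], .l [12, 10, 3, 9, 6, 8, 6, 1], .r 4526 [1, 2, 5] [5, 1, 1, 1], .l [10, 8, 3, 7, 4, 6, 4, 5], .l [10, 8, 3, 7, 4, 6, 4, 5], .r 4528 [1,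 2, 5] [5, 1, 1, 1]]),
([s 3 1, s 0 2, g, p 0 3, g, m 1 0, s 0 0, g, m 2 0, g], .lo 1, [.r 4594 [1, 2, 4, 3] [1, 1, 1, 1, 1], .l [10, 8, 9, 5, 1, 4, 5], .l [5, 4, 1], .r 4586 [1, 2, 3, 4] [1, 1, 1, 1, 1], .l [5, 3, 9, 5, 6], .l [3, 2, 3], .l [3, 2, 3], .l [3, 2, 4, 1], .r 4588 [1, 2, 3, 4] [1, 1, 1, 1, 1], .l [8, 6, 9, 2, 6], .l [3, 2, 6], .y [1, 8], .r 4589 [1, 2, 3, 4] [1, 1, 1, 1, 1], .l [8, 6, 9, 2, 6], .l [3, 2, 8]]),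
([s 4 1, s 3 2, m 0 0, g, s 0 3, g, p 0 4, g, m 1 0, p 5 0, g, m 2 0, g, p 0 5, g], .hi 2, [.y [2], .l [8, 7, 4, 8, 1, 10, 6, 1], .l [6, 4, 1], .l [2, 8, 5, 12, 5, 9, 11, 4, 6], .l [4, 2, 1], .l [8, 7, 2, 8, 1, 10, 4, 5], .l [4, 2, 4], .l [8, 4, 6, 3, 11, 5, 8, 10, 4, 1], .l [4, 2, 4], .l [6, 5, 2, 8, 3, 10, 4, 7], .l [4, 2, 6], .l [6, 5, 2, 8, 3, 10, 4, 7], .l [4, 2, 9, 13, 11, 3], .l [3, 1, 10, 14, 12, 4, 4, 1], .l [13, 6, 11, 6, 14, 5, 2, 10, 7], .l [4, 2, 11, 13, 9, 3], .l [3, 1, 12, 14, 10, 4, 4, 1], .l [11, 9, 10, 5, 11, 1, 11, 2, 4], .l [3, 1, 12, 12, 8, 4, 4, 1], .l [6, 5, 2, 6, 1, 8, 4, 9], .l [4, 2, 13], .l [11, 9, 9, 6, 13, 4, 8, 5]]),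
([s 4 1, s 3 2, s 0 0, g, s 0 3, g, p 0 4, g, m 1 0, p 5 0, g, m 2 0, g, p 0 5, g], .hi 2, [.y [2], .l [8, 7, 4, 8, 1, 10, 6, 1], .l [8, 7, 4, 8, 1, 10, 6, 1], .l [2, 8, 5, 12, 5, 9, 11, 4, 6, 7], .l [6, 2, 4, 3, 9, 5, 6, 8, 4, 1], .l [8, 7, 2, 8, 1, 10, 4, 5], .l [8, 7, 2, 8, 1, 10, 4, 5], .l [8, 4, 6, 3, 11, 5, 8, 10, 4, 1], .l [6, 5, 2, 6, 1, 8, 4, 5], .l [6, 5, 2, 8, 3, 10, 4, 7], .l [13, 11, 5], .l [6, 5, 2, 8, 3, 10, 4, 7], .l [4, 2, 9, 13, 11, 3], .l [2, 10, 14, 12, 5], .l [13, 9, 11, 3, 13, 7, 4, 9], .l [4, 2, 11, 13, 9, 3], .l [2, 12, 14, 10, 5], .l [8, 3, 11, 3, 8, 12, 4, 9, 2, 5], .l [2, 12, 12, 8, 5], .l [6, 5, 2, 6, 1, 8, 4, 9], .l [6, 5, 2, 6, 1, 8, 4, 9], .l [11, 9, 9, 6, 13, 4, 8, 5]]),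
([s 4 1, s 3 2, p 0 0, g, s 0 3, g, p 0 4, g, m 1 0, p 5 0, g, m 2 0, g, p 0 5, g], .lo 2, [.y [2], .l [8, 7, 4, 8, 1, 10, 6, 1], .l [2, 8, 5, 12, 5, 9, 11, 4, 6], .l [6, 4, 1], .l [8, 7, 2, 8, 1, 10, 4, 5], .l [8, 4, 6, 3, 11, 5, 8, 10, 4, 1], .l [4, 2, 4], .l [6, 5, 2, 8, 3, 10, 4, 7], .l [6, 5, 2, 8, 3, 10, 4, 7], .l [4, 2, 6], .l [4, 2, 6], .l [11, 4, 9, 6, 12, 5, 2, 8, 5], .l [4, 2, 9, 13, 11, 3], .l [13, 6, 11, 6, 14, 5, 2, 10, 7], .l [3, 1, 10, 14, 12, 4, 4, 1], .l [3, 1, 10, 12, 10, 4, 4, 1], .l [4, 2, 11, 13, 9, 3], .l [11, 9, 10, 5, 11, 1, 11, 2, 4], .l [3, 1, 12, 14, 10, 4, 4, 1], .l [6, 5, 2, 6, 1, 8, 4, 9], .l [11, 9, 9, 6, 13, 4, 8, 5], .l [4, 2, 13]]),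
([s 4 1, s 3 2, g, s 0 3, g, p 0 4, g, m 1 0, p 5 0, g, m 2 0, g, p 0 5, g], .top 2, [.c, .r 4597 [1, 2, 3, 4, 5] [1, 1, 1, 1, 1, 1], .r 4598 [1, 2, 3, 4, 5] [1, 1, 1, 1, 1, 1], .r 4596 [1, 2, 3, 4, 5] [1, 1, 1, 1, 1, 1]]),
([s 3 1, s 0 2, g, p 0 3, g, m 1 0, p 4 0, g, m 2 0, g, p 0 4, g], .lo 1, [.r 4599 [1, 2, 5, 3, 4] [1, 1, 1, 1, 1, 1], .l [10, 8, 9, 5, 1, 4, 5], .l [5, 4, 1], .l [5, 3, 9, 5, 6, 8, 4, 1], .l [5, 3, 9, 5, 6], .l [3, 2, 3], .l [3, 2, 3], .l [6, 4, 7, 2, 4], .l [3, 2, 6, 10, 8, 1], .l [8, 6, 9, 2, 6], .l [1, 7, 11, 9, 3], .y [1, 8], .l [3, 2, 8, 10, 6, 1], .l [8, 6, 9, 2, 6], .l [1, 9, 11, 7, 3], .l [8, 6, 11, 4, 6, 3], .l [8, 6, 11, 4, 8], .l [3, 2, 10]]),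
([s 3 1, s 0 2, g, p 0 3, g, m 1 0, p 4 0, g, m 2 0, g, s 0 4, g], .lo 1, [.l [10, 8, 3, 7, 4, 6, 4, 5], .l [10, 8, 9, 5, 1, 4, 5], .l [5, 4, 1], .l [5, 3, 9, 5, 6, 8, 4, 1], .l [5, 3, 9, 5, 6], .l [3, 2, 3], .l [3, 2, 3], .l [6, 4, 7, 2, 4], .l [8, 6, 9, 2, 4, 7], .l [8, 6, 9, 2, 6], .l [3, 2, 6], .y [1, 8], .l [3, 2, 8, 10, 6, 1], .l [8, 6, 9, 2, 6], .l [3, 2, 8], .l [8, 6, 11, 4, 6, 3], .l [8, 6, 11, 4, 8], .l [3, 2, 10]]),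
([s 3 1, s 0 2, g, p 0 3, p 4 0, g, p 0 4, g, m 1 0, p 5 0, g, p 0 5, g, m 2 0, g], .lo 6, [.l [3, 7, 7, 5, 1], .l [3, 7], .l [15, 12, 4, 4, 2, 11, 1], .y [4, 6], .l [5, 8, 6, 2, 7, 4, 1], .l [6, 7], .l [5, 8, 6, 2, 7, 4, 1], .l [5, 6, 4, 2, 7, 4, 1], .l [5, 15, 10, 1, 12, 10, 1, 9, 6], .l [5, 6, 4, 2, 7, 4, 1], .l [5, 6, 4, 2, 5, 2, 1], .l [6, 9, 8, 12, 7, 3, 9, 5, 1, 6, 1], .l [5, 6, 4, 2, 5, 2, 6], .l [6, 11, 10, 14, 9, 5, 11, 5, 1, 6, 1], .l [5, 6, 4, 2, 5, 2, 6], .l [5, 6, 4, 2, 5, 2, 8], .l [9, 13, 9, 9, 7, 2, 8, 5, 10, 2, 7], .l [5, 6, 4, 2, 5, 2, 8], .l [5, 6, 4, 2, 5, 2, 8], .l [5, 6, 4, 2, 5, 2, 10], .l [9, 15, 11, 11, 9, 2, 10, 7, 1, 8, 5], .l [5, 6, 4, 2, 5, 2, 10]]),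
([s 3 1, s 0 2, g, p 0 3, p 0 0, g, m 1 0, p 4 0, g, p 0 4, g, m 2 0, g], .lo 4, [.l [3, 5, 1], .l [3, 5], .l [13, 10, 2, 11, 1], .y [4], .l [3, 2, 7, 4, 1], .r 4602 [1, 2, 3, 5, 4] [1, 1, 1, 1, 1, 1], .l [3, 2, 7, 4, 1], .l [3, 2, 5, 2, 1], .l [4, 11, 7, 3, 9, 5, 1, 6, 1], .l [3, 2, 5, 2, 6], .l [4, 13, 9, 5, 11, 5, 1, 6, 1], .l [3, 2, 5, 2, 6], .l [3, 2, 5, 2, 8], .l [7, 11, 7, 2, 8, 5, 10, 2, 7], .l [3, 2, 5, 2, 8], .l [3, 2, 5, 2, 8], .l [3, 2, 5, 2, 10], .l [7, 13, 9, 2, 10, 7, 1, 8, 5], .l [3, 2, 5, 2, 10]]),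
([s 2 1, s 4 0, g, p 0 2, s 3 0, g, p 0 3, g, s 0 4, g, m 1 0, g], .hi 4, [.l [3, 5, 1, 10, 8, 5], .l [8, 1, 4, 2, 4], .l [3, 5, 1], .l [6, 1, 2, 0, 2], .l [6, 1, 7, 5, 2, 5], .l [3, 2, 11, 8, 1], .l [6, 1, 7, 5, 2], .y [4, 6], .l [6, 1, 7, 5, 2, 5], .l [3, 2, 11, 8, 3], .l [6, 1, 7, 5, 2], .l [6, 1, 7, 5, 2, 3], .l [6, 1, 9, 7, 2, 3], .l [3, 2, 11, 8, 5], .l [6, 1, 9, 7, 2], .l [6, 1, 11, 9, 2, 3], .l [3, 2, 9, 6, 9], .l [6, 1, 11, 9, 2]]),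
([s 4 1, s 5 2, g, m 0 3, g, p 0 4, s 3 0, g, s 0 5, g, m 1 0, p 6 0, g, p 0 6, g, m 2 0, g], .lo 13, [.l [3, 14, 14, 12, 8], .l [3, 14], .l [1, 9, 6, 12, 14, 9, 2, 6, 10, 5], .l [5, 14, 14, 12, 6], .l [5, 14], .l [1, 9, 4, 12, 14, 9, 4, 6, 10, 7], .l [5, 4, 9, 4, 10], .l [8, 14, 14, 12, 3], .l [8, 14], .l [17, 9, 6, 6, 4, 13, 6], .l [10, 14, 14, 12, 1], .l [10, 14], .l [8, 6, 16, 9, 11, 9, 4, 4, 2, 7], .l [8, 6, 14, 7, 9, 7, 2, 2, 0, 5], .y [11, 13], .l [7, 4, 2, 4, 9, 12, 10, 2, 5, 10, 4, 1], .l [13, 14], .l [12, 15, 13, 9, 9, 4, 13, 4, 1], .l [7, 4, 2, 4, 9, 10, 8, 2, 5, 10, 4, 1], .l [12, 17, 5, 1, 14, 12, 1, 11, 4], .l [8, 6, 16, 9, 11, 6, 1, 12, 6, 10, 8, 1], .l [8, 6, 14, 7, 9, 4, 1, 10, 6, 8, 6, 1],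 .l [8, 6, 14, 7, 9, 13, 8, 8, 6, 1], .l [8, 6, 14, 7, 9, 13, 8, 8, 6, 1], .l [12, 13, 11, 9, 9, 4, 11, 2, 11]]),
([s 3 1, s 4 2, g, p 0 3, s 0 0, g, s 0 4, g, m 1 0, p 5 0, g, p 0 5, g, m 2 0, g], .lo 4, [.l [3, 5, 1, 8, 6, 3], .l [3, 5, 1], .r 4605 [1, 2, 6, 3, 4, 5] [1, 1, 1, 1, 1, 1, 1], .y [4], .l [8, 6, 14, 7, 11, 1], .r 4604 [1, 3, 6, 4] [1, 1, 1, 1, 6], .l [3, 2, 9, 6, 1], .l [6, 4, 14, 9, 11, 8], .l [6, 4, 14, 9, 11, 8], .l [3, 2, 9, 6, 3], .l [3, 2, 7, 4, 3], .l [6, 4, 12, 7, 9, 5], .l [3, 2, 7, 4, 8, 10, 8, 3], .l [6, 4, 14, 9, 11, 5], .l [3, 2, 7, 4, 8], .l [6, 4, 14, 9, 11, 3], .l [6, 4, 14, 9, 11, 3], .l [3, 2, 7, 4, 10], .l [3, 2, 7, 4, 10], .l [6, 4, 12, 7, 9, 10], .l [6, 4, 7, 1, 13, 8, 10, 3],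 .l [3, 2, 7, 4, 12]]),
([s 2 1, s 4 0, g, p 0 2, s 3 0, g, p 0 3, g, m 1 0, g, s 0 4, g], .hi 4, [.l [3, 5, 1, 8, 6, 7], .l [8, 1, 4, 2, 4], .l [3, 5, 1], .l [6, 1, 2, 0, 2], .l [6, 1, 7, 5, 2, 7], .l [3, 2, 9, 6, 1], .l [6, 1, 7, 5, 2], .y [4, 6], .l [6, 1, 7, 5, 2, 7], .l [3, 2, 9, 6, 3], .l [6, 1, 7, 5, 2], .l [6, 1, 9, 7, 2, 7], .l [3, 2, 7, 4, 7], .l [6, 1, 9, 7, 2], .l [6, 1, 9, 7, 2, 5], .l [6, 1, 11, 9, 2, 5], .l [3, 2, 7, 4, 9], .l [6, 1, 11, 9, 2]])]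

def D17 : List (List (List Item × Qry × List Rf)) := [d17_0, d17_1, d17_2, d17_3]

end Pool.Agent.H63.PU.C161
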