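import Pool.Agent.H63.PU.Ck3

/-! Certificate data, machine generated. -/

namespace Pool.Agent.H63.PU.C161

open Pool.Agent.H63.PU Pool.Agent.H63.PU.Ck3 Pool.Agent.H63.PU.Short

set_option maxRecDepth 20000

def d18_0 : List (List Item × Qry × List Rf) := [
([s 4 1, s 6 2, g, m 0 3, g, p 0 4, s 3 0, g, m 1 0, p 5 0, g, p 0 5, g, m 2 0, g, s 0 6, g], .hi 8, [.l [3, 9, 4, 2, 3, 6, 2, 11], .l [11, 8, 6, 14, 4, 6, 3], .l [3, 9], .l [3, 7], .l [2, 5, 8, 8, 2, 5, 2, 11], .l [4, 1, 6, 2, 6], .l [5, 9], .y [0, 8, 5], .l [5, 4, 15, 8, 1, 11, 2, 8], .l [5, 4, 15, 8, 1, 11, 2, 8], .l [8, 9], .l [5, 4, 15, 8, 2, 4, 2, 6], .l [5, 4, 15, 8, 2, 4, 2, 6], .l [5, 8, 2, 4, 9, 6, 11, 3, 11, 7, 2, 7], .l [5, 4, 13, 6, 2, 2, 0, 4],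 .l [1, 16, 8, 4, 6, 12, 9, 7, 2, 7], .l [1, 16, 8, 4, 6, 12, 9, 7, 2, 7], .l [15, 13, 7, 10, 8, 4, 2, 9, 10, 5, 6, 1], .l [7, 8, 0, 13, 10, 2, 10, 11], .l [7, 4, 2, 4, 5, 0, 10], .l [13, 11, 7, 13, 11, 4, 2, 6, 10, 8, 6, 1], .l [7, 8, 0, 13, 10, 2, 10, 1], .l [5, 4, 13, 6, 13, 1, 6, 4, 2, 8], .l [5, 4, 13, 6, 13, 1, 6, 4, 2, 8], .l [13, 11, 7, 15, 13, 4, 2, 6, 7, 5, 8, 3]]),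
([s 3 1, s 5 2, g, p 0 3, s 0 0, g, m 1 0, p 4 0, g, p 0 4, g, m 2 0, g, s 0 5, g], .lo 4, [.l [3, 5, 1, 6, 4, 11], .l [3, 5, 1], .r 4608 [1, 2, 6, 3, 4, 5] [1, 1, 1, 1, 1, 1, 1], .y [4], .l [5, 8, 2, 5, 2, 11], .r 4607 [1, 3, 6, 5] [1, 1, 1, 6, 1], .l [3, 2, 7, 4, 1], .l [3, 2, 5, 2, 1], .l [7, 2, 10, 4, 7, 4], .l [3, 2, 5, 2, 6, 8, 6, 9], .l [9, 4, 12, 4, 9, 6], .l [3, 2, 5, 2, 6], .l [13, 11, 14, 2, 11, 6], .l [13, 11, 5, 8, 4, 9, 10, 3, 6, 3], .l [3, 2, 5, 2, 8], .l [3, 2, 5, 2, 8], .l [11, 9, 14, 4, 11, 8], .l [11, 9, 14, 4, 11, 8], .l [3, 2, 5, 2, 10], .l [11, 9, 12, 2, 9, 10], .l [11, 9, 5, 13, 9, 4, 5, 3, 8, 5], .l [3, 2, 5, 2, 12]]),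
([s 3 1, s 2 0, g, s 0 2, g, p 0 3, s 4 0, g, p 0 4, g, m 1 0, g], .hi 6, [.l [3, 7, 3, 10, 6, 7], .l [7, 6, 3, 10, 4, 7], .l [3, 7, 3], .l [3, 5, 1, 8, 6, 1], .l [5, 7, 1, 10, 8, 1], .l [10, 1, 4, 2, 6], .l [5, 7, 1], .l [8, 1, 2, 0, 4], .l [5, 4, 1, 10, 6, 1], .l [5, 4, 1, 10, 6, 1], .l [8, 1, 9, 7, 4], .y [6, 8], .l [5, 4, 1, 10, 6, 3], .l [5, 4, 1, 10, 6, 3], .l [8, 1, 9, 7, 4], .l [5, 4, 1, 8, 4, 7], .l [5, 4, 1, 8, 4, 7], .l [8, 1, 11, 9, 4]]),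
([s 5 1, s 3 2, g, s 0 3, g, m 0 4, g, p 0 5, s 4 0, g, m 1 6, g, p 7 0, g, m 6 0, g, p 0 7, g, m 2 0, g], .hi 8, [.l [3, 9, 5, 10, 4, 7], .l [9, 8, 3, 10, 2, 7], .l [3, 9, 5], .l [3, 7, 3, 8, 4, 1], .l [5, 9, 3, 10, 6, 1], .l [13, 8, 4, 10, 1, 12, 8, 14, 3, 12, 1, 6, 2, 7], .l [5, 9, 3], .y [5, 8], .l [7, 9, 1, 10, 8, 1], .l [13, 8, 4, 10, 1, 12, 8, 14, 3, 12, 1, 6, 2, 7], .l [7, 9, 1], .l [11, 6, 2, 8, 1, 10, 6, 12, 3, 10, 1, 4, 2, 5], .l [7, 6, 1, 10, 4, 1], .l [7, 6, 1, 10, 4, 1], .l [10, 1, 4, 2, 6], .l [7, 6, 1, 8, 2, 7], .l [7, 6, 1, 8, 2, 7], .l [12, 3, 6, 2, 8], .l [7, 6, 1, 8, 2, 9], .l [7, 6, 1, 8, 2, 9], .l [14, 5, 8, 2, 10], .l [7, 6, 1, 8, 2, 11], .l [7, 6, 1, 8, 2, 11], .l [16, 7, 10, 2, 12], .l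 [7, 6, 1, 8, 2, 11], .l [7, 6, 1, 8, 2, 13], .l [7, 6, 1, 8, 2, 13], .l [18, 9, 12, 2, 14], .l [7, 6, 1, 8, 2, 15], .l [7, 6, 1, 8, 2, 15], .l [20, 11, 14, 2, 16]]),
([s 5 1, s 3 2, g, s 0 3, g, m 0 4, g, p 0 5, s 4 0, g, m 1 0, p 6 0, g, p 0 6, g, m 2 0, g], .hi 10, [.l [3, 11, 4, 2, 5, 8, 2, 5], .l [11, 4, 2, 8, 3, 8, 0, 5], .l [3, 11], .l [3, 9, 4, 2, 3, 6, 2, 1], .l [5, 11, 4, 2, 3, 8, 4, 1], .l [13, 8, 6, 16, 4, 8, 5], .l [5, 11], .l [5, 9], .l [11, 6, 4, 8, 1, 8, 0, 1], .l [6, 1, 8, 2, 8], .l [7, 11], .y [0, 10, 7], .l [9, 4, 2, 6, 1, 8, 2, 1], .l [9, 4, 2, 6, 1, 8, 2, 1], .l [10, 11], .l [9, 4, 2, 6, 1, 6, 0, 7], .l [17, 7, 2, 4, 2, 13, 8], .r 4611 [1, 2, 3, 4, 5, 7, 6] [1, 1, 1, 1, 0, 1, 1, 1, 1], .l [15,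 5, 2, 2, 0, 11, 8], .l [9, 4, 2, 6, 1, 6, 0, 9], .l [9, 4, 2, 6, 1, 6, 0, 9], .l [9, 4, 2, 6, 1, 7, 12, 5, 1, 9, 0, 5], .l [9, 4, 2, 6, 1, 6, 0, 11], .l [9, 4, 2, 6, 1, 6, 0, 11], .l [15, 13, 9, 15, 13, 4, 2, 8, 3, 1, 8, 1]]),
([s 4 1, s 3 2, g, s 0 3, g, p 0 4, s 0 0, g, m 1 0, p 5 0, g, p 0 5, g, m 2 0, g], .lo 6, [.l [3, 7, 3, 8, 4, 5], .l [3, 7, 3], .l [7, 6, 3, 8, 2, 5], .l [5, 7, 1, 8, 6, 1], .l [5, 7, 1], .r 4612 [1, 2, 3, 6, 4, 5] [1, 1, 1, 1, 1, 1, 1], .y [6], .l [5, 4, 1, 8, 4, 1], .r 4610 [1, 3, 4, 6] [1, 1, 1, 1, 6], .l [5, 4, 1, 8, 4, 1], .l [5, 4, 1, 6, 2, 1], .l [1, 2, 8, 2, 10, 4, 7, 4], .l [5, 4, 1, 6, 2, 7], .l [1, 2, 10, 4, 12, 4, 9, 6], .l [5, 4, 1, 6, 2, 7], .l [5, 4, 1, 6, 2, 9], .l [5, 4,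 1, 7, 12, 5, 1, 9, 2, 5], .l [5, 4, 1, 6, 2, 9], .l [5, 4, 1, 6, 2, 9], .l [5, 4, 1, 6, 2, 11], .l [13, 11, 7, 13, 9, 6, 3, 1, 8, 3], .l [5, 4, 1, 6, 2, 11]]),
([s 3 1, s 4 2, g, p 0 3, s 0 4, g, m 1 0, p 5 0, g, p 0 5, g, m 2 0, g], .lo 9, [.l [3, 10, 10, 8, 4], .l [3, 10], .l [1, 5, 2, 9, 11, 6, 1, 3, 6, 3], .l [6, 10, 10, 8, 1], .l [6, 10], .l [4, 2, 12, 9, 9, 7, 4, 4, 2, 5], .l [4, 2, 10, 7, 7, 5, 2, 2, 0, 3], .y [7, 9], .l [8, 11, 9, 5, 5, 2, 3, 8, 4, 1], .l [9, 10], .l [8, 11, 9, 5, 5, 2, 3, 8, 4, 1], .l [8, 9, 7, 5, 5, 2, 3, 8, 4, 1], .l [8, 13, 5, 1, 10, 8, 1, 7, 2], .l [8, 9, 7, 5, 5, 2, 3, 8, 4, 1], .l [8, 9, 7, 5, 5, 2, 3, 6, 2, 1], .l [8, 9, 7, 5, 5, 2, 3, 6, 2, 5], .l [4, 2, 10, 7, 7, 9, 6, 6, 4, 1],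 .l [8, 9, 7, 5, 5, 2, 3, 6, 2, 5]]),
([s 3 1, s 6 2, g, p 0 3, g, m 1 0, p 5 4, g, p 0 5, g, s 0 6, g, m 2 0, g, s 4 0, g], .lo 8, [.l [3, 9, 9, 7, 3], .l [3, 9], .l [5, 4, 10, 8, 6, 6, 4, 1], .l [5, 9, 9, 7, 1], .l [5, 9], .l [3, 2, 10, 6, 4, 4, 2, 3], .l [3, 2, 8, 4, 2, 2, 0, 1], .l [6, 15, 7, 1, 1, 11, 4, 7], .l [8, 9], .l [6, 15, 7, 1, 1, 11, 4], .l [6, 15, 7, 1, 10, 2, 5, 7, 8, 3], .l [7, 14, 7, 1, 11, 9, 1, 8, 1], .l [6, 15, 7, 1, 10, 2, 5, 7, 8, 3], .l [3, 2, 8, 10, 8, 8, 6, 1], .l [3, 2, 8, 10, 8, 8, 6, 1], .l [3, 2, 8, 1, 8, 6, 10, 3, 8, 1], .l [3, 2, 8, 1, 8, 6, 8, 1, 6, 1], .l [3, 2, 8, 12, 10, 10, 8, 1], .l [3, 2, 8, 12, 10, 10, 8, 1], .l [3, 2, 8, 1, 10, 8, 10, 1, 8, 1], .y [6, 14, 8], .l [3, 2, 8,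 14, 12, 12, 10, 1], .l [3, 2, 8, 14, 12, 12, 10, 1], .l [7, 8, 6, 4, 4, 1, 8, 4, 9]]),
([s 3 1, s 7 2, g, p 0 3, g, p 4 0, g, m 1 0, p 6 4, g, s 0 5, g, p 5 6, g, s 0 7, g, m 2 0, g], .lo 10, [.l [2, 5, 2, 9, 9, 9, 9, 7, 4, 7], .l [3, 11, 11, 11, 11, 9, 5], .l [2, 5, 2, 9, 9, 9, 9, 7, 4], .l [5, 11, 11, 11, 11, 9, 3, 6, 2, 7], .l [5, 11, 11, 11, 11, 9, 3], .l [3, 2, 14, 1, 1, 8, 6, 6, 4, 5], .y [5, 10, 12, 8], .l [7, 11, 11, 11, 11, 9, 1, 4, 2, 7], .l [7, 11, 11, 11, 11, 9, 1], .l [3, 2, 14, 1, 1, 6, 4, 4, 2, 5], .l [3, 2, 12, 1, 1, 4, 2, 2, 0, 3], .l [12, 1, 13, 9, 6, 11], .l [12, 1, 13, 9, 6], .l [9, 14, 12, 6, 12, 3, 1, 6, 4, 4, 2, 3], .l [12, 1, 13, 9, 6, 11], .l [12, 1, 13, 9, 6], .l [10, 13, 1, 11, 11, 9,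 6], .l [9, 12, 10, 6, 12, 1, 3, 6, 4, 4, 2, 3], .l [9, 12, 10, 6, 6, 3, 14, 8, 1, 11, 9, 9, 7], .l [9, 12, 10, 6, 12, 1, 3, 6, 4, 4, 2, 3], .l [3, 2, 12, 14, 10, 10, 10, 10, 8, 3], .l [3, 2, 12, 1, 1, 12, 10, 10, 8, 3], .l [9, 12, 10, 6, 7, 12, 3, 10, 3], .l [9, 12, 10, 6, 7, 12, 3, 10, 3], .l [3, 2, 12, 16, 12, 12, 12, 12, 10, 3], .l [3, 2, 12, 1, 1, 14, 12, 12, 10, 3], .l [9, 12, 10, 6, 6, 3, 12, 6, 1, 9, 7, 7, 7]]),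
([s 3 1, s 7 2, g, p 0 3, g, p 4 0, g, m 1 0, p 5 4, g, p 6 5, g, s 0 6, g, s 0 7, g, m 2 0, g], .hi 7, [.l [11, 2, 6, 10, 4, 2, 10, 3, 6, 3], .l [7, 4, 8, 9, 4, 15, 8, 10, 7], .l [3, 8], .y [0, 7, 3], .l [11, 6, 3, 4, 2, 12, 5, 9, 7, 5, 6, 1], .l [16, 14, 17, 2, 8, 10, 9, 9, 7, 9, 3, 3, 7], .l [5, 8], .l [11, 4, 1, 14, 5, 11, 9, 5, 8, 3], .l [16, 14, 17, 2, 8, 12, 11, 11, 9, 7, 1, 1, 7], .l [7, 8], .l [3, 2, 14, 8, 2, 4, 2, 7], .l [3, 2, 14, 8, 2, 4, 2, 7], .l [16, 14, 15, 13, 15, 2, 10, 12, 11, 9, 7, 9, 7], .l [3, 2, 14, 8, 4, 6, 4, 4, 2, 5], .l [3, 2, 14, 8, 4, 6, 4, 4, 2, 5], .l [9, 12, 9, 10, 8, 5, 6, 4, 4, 1, 10, 6, 1], .l [3, 2, 12, 3, 1, 4, 2, 2, 0, 3], .l [3, 2, 14, 5, 1, 6, 2, 4, 2, 5], .l [9, 2, 12,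 4, 11, 9, 5, 8, 3], .l [3, 2, 14, 5, 1, 6, 2, 4, 2, 5], .l [14, 12, 6, 1, 10, 13, 2, 6, 8, 4, 1, 5, 1], .l [9, 10, 8, 6, 10, 4, 10, 3, 8, 1], .l [3, 2, 12, 6, 12, 3, 10, 6, 5, 5, 3, 9, 3], .l [9, 10, 8, 6, 6, 3, 14, 8, 1, 9, 3, 9, 1], .l [9, 10, 8, 6, 10, 4, 12, 5, 10, 1], .l [9, 10, 8, 6, 10, 4, 12, 5, 10, 1], .l [9, 10, 8, 6, 6, 3, 12, 6, 1, 11, 3, 9, 7]]),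
([s 3 1, s 6 2, g, p 0 3, g, p 4 0, g, m 1 0, p 5 4, g, p 0 5, g, s 0 6, g, m 2 0, g], .lo 10, [.l [3, 11, 11, 9, 5], .l [3, 11], .l [5, 4, 12, 10, 8, 8, 6, 3], .l [5, 11, 11, 9, 3], .l [5, 11], .l [3, 2, 12, 8, 6, 6, 4, 5], .y [5, 10, 8], .l [7, 11, 11, 9, 1], .l [7, 11], .l [3, 2, 12, 6, 4, 4, 2, 5], .l [3, 2, 10, 4, 2, 2, 0, 3], .r 4616 [1, 2, 3, 4, 7, 5, 6] [1, 1, 1, 1, 1, 1, 1, 1], .l [10, 11], .l [14, 12, 15, 2, 8, 10, 9, 9, 5, 7, 1, 3, 5], .r 4617 [1, 2, 3, 4, 5, 7, 6] [1, 1, 1, 1, 1, 1, 1, 1], .l [9, 16, 7, 1, 13, 11, 1, 10, 3], .l [9, 10, 8, 6, 6, 3, 10, 4, 1, 9, 5, 7, 3], .l [3, 2, 10, 12, 10, 10, 8, 3], .l [3, 2, 10, 12, 10, 10, 8, 3], .l [3, 2, 10, 6, 2, 6, 1, 8, 6, 0, 5, 7, 5], .l [3, 2, 10, 6, 2,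 6, 1, 8, 6, 0, 5, 5, 3], .l [3, 2, 10, 14, 12, 12, 10, 3], .l [3, 2, 10, 14, 12, 12, 10, 3], .l [12, 10, 13, 2, 6, 8, 7, 7, 5, 5, 7, 1, 3]]),
([s 3 1, s 5 2, g, p 0 3, g, m 1 0, p 4 0, g, p 0 4, g, s 0 5, g, m 2 0, g], .hi 6, [.l [8, 4, 11, 4, 6, 3], .l [12, 10, 11, 7, 9, 6, 9, 5, 2, 5], .l [8, 4], .l [10, 8, 9, 7, 7, 4, 7, 3, 0, 3], .l [8, 2, 11, 4, 8, 5], .r 4618 [1, 2, 3, 6, 4, 5] [1, 1, 1, 1, 1, 1, 1], .l [8, 2], .l [8, 1, 9, 7, 4], .l [6, 7], .l [8, 1], .y [6, 8], .l [6, 9, 11, 6, 11, 4, 6, 3], .l [6, 9], .l [10, 3], .l [6, 9, 9, 4, 9, 4, 4, 1], .l [10, 8, 11, 6, 11, 7, 2, 7], .l [6, 11], .l [12, 5], .r 4615 [1, 2, 3, 6, 4, 5] [1, 1, 1, 1, 1, 1, 1], .l [6, 13], .l [14, 7]]),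
([s 3 1, s 0 2, g, p 0 3, s 0 0, g, m 1 0, p 4 0, g, p 0 4, g, m 2 0, g], .lo 1, [.r 4613 [1, 2, 5, 3, 4] [1, 1, 1, 1, 1, 1], .l [13, 11, 12, 8, 2, 7, 8], .l [5, 4, 1], .r 4614 [1, 2, 3, 5, 4] [1, 1, 1, 1, 1], .r 4606 [1, 2, 3, 5, 4] [1, 1, 1, 1, 1, 1], .l [6, 4, 12, 7, 9], .l [3, 2, 4], .l [3, 2, 4], .l [7, 5, 10, 4, 7], .l [3, 2, 7, 9, 7, 2], .l [9, 7, 12, 4, 9], .l [1, 8, 10, 8, 4], .r 4619 [1, 2, 3, 4, 5] [1, 2, 1, 1, 1, 1], .l [11, 9, 12, 2, 9], .l [3, 2, 9], .y [1, 11], .r 4609 [1, 2, 3, 4, 5] [1, 1, 1, 1, 1, 1], .l [11, 9, 12, 2, 9], .l [3, 2, 11]]),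
([s 3 1, s 0 2, g, p 0 3, m 1 0, p 4 0, g, p 0 4, g, m 2 0, g], .hi 4, [.l [1, 3, 1], .l [3, 5, 1], .l [11, 8, 2, 9, 1], .l [3, 5], .y [0, 4, 3], .l [3, 2, 3, 0, 4], .l [3, 2, 3, 0, 4], .l [4, 11, 7, 3, 9, 5, 8, 2, 5], .l [3, 2, 3, 0, 4], .l [3, 2, 3, 0, 6], .l [3, 2, 3, 0, 6], .l [5, 9, 7, 2, 6, 3, 8, 2, 5], .l [3, 2, 3, 0, 8], .l [3, 2, 3, 0, 8], .l [5, 11, 9, 2, 8, 5, 1, 6, 3]]),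
([s 3 1, s 0 2, g, p 0 3, m 0 4, g, m 4 0, g, m 1 0, p 5 0, g, p 0 5, g, m 2 0, g], .hi 6, [.l [1, 5, 5, 3, 1], .l [3, 7, 7, 5, 1], .l [15, 12, 4, 4, 2, 11, 1], .l [3, 7], .l [13, 10, 2, 2, 0, 9, 1], .y [4, 6], .l [5, 8, 6, 2, 7, 4, 1], .l [5, 8, 6, 2, 7, 4, 1], .l [6, 7], .l [5, 6, 4, 2, 7, 4, 1], .l [5, 6, 4, 2, 7, 4, 1], .l [5, 15, 10, 1, 12, 10, 1, 9, 6], .l [5, 6, 4, 2, 5, 2, 6], .l [5, 6, 4, 2, 5, 2, 6], .l [6, 11, 10, 14, 9, 5, 11, 5, 1, 6, 1], .l [5, 6, 4, 2, 5, 2, 6], .l [5, 6, 4, 2, 5, 2, 8], .l [5, 6, 4, 2, 5, 2, 8], .l [9, 13, 9, 9, 7, 2, 8, 5, 10, 2, 7], .l [5, 6, 4, 2, 5, 2, 10], .l [5, 6, 4, 2, 5, 2, 10], .l [9, 15, 11, 11, 9, 2, 10, 7, 1, 8, 5]]),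
([s 3 1, s 0 2, g, p 0 3, m 0 0, g, m 1 0, p 4 0, g, p 0 4, g, m 2 0, g], .hi 4, [.l [1, 3, 1], .l [3, 5, 1], .l [13, 10, 2, 11, 1], .l [3, 5], .l [11, 8, 0, 9, 1], .y [4], .l [3, 2, 7, 4, 1], .l [3, 2, 7, 4, 1], .r 4622 [1, 2, 3, 5, 4] [1, 1, 1, 1, 1, 1], .l [3, 2, 5, 2, 6], .l [3, 2, 5, 2, 6], .l [4, 13, 9, 5, 11, 5, 1, 6, 1], .l [3, 2, 5, 2, 6], .l [3, 2, 5, 2, 8], .l [3, 2, 5, 2, 8], .l [7, 11, 7, 2, 8, 5, 10, 2, 7], .l [3, 2, 5, 2, 10], .l [3, 2, 5, 2, 10], .l [7, 13, 9, 2, 10, 7, 1, 8, 5]]),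
([s 3 1, s 0 2, g, p 0 3, g, m 1 0, p 4 0, g, p 0 4, g, m 2 0, g], .top 4, [.r 4621 [1, 2, 3, 4] [1, 1, 1, 1], .r 4620 [1, 2, 3, 4] [1, 1, 1, 1, 1], .r 4603 [1, 2, 3, 4] [1, 1, 1, 1, 1], .r 4623 [1, 2, 3, 4] [1, 1, 1, 1, 1]]),
([s 3 1, s 0 2, g, p 0 3, g, m 1 0, p 4 0, g, s 0 4, g, m 2 0, g], .lo 1, [.l [12, 10, 3, 9, 6, 8, 6, 1], .l [12, 10, 11, 7, 1, 6, 7], .l [5, 4, 1], .l [12, 10, 1, 9, 6, 8, 6, 1], .l [5, 3, 11, 7, 8], .l [3, 2, 3], .l [3, 2, 3], .l [6, 4, 9, 4, 6], .l [8, 6, 11, 4, 6, 3], .l [8, 6, 11, 4, 8], .l [3, 2, 6], .l [10, 8, 11, 2, 6, 1], .l [10, 8, 11, 2, 8], .l [3, 2, 8], .y [1, 10], .l [10, 8, 11, 2, 6, 1], .l [10, 8, 11, 2, 8], .l [3, 2, 10]]),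
([s 3 1, s 0 2, g, p 0 3, g, m 1 0, p 0 0, g, m 2 0, g], .lo 6, [.l [3, 7, 3], .l [3, 7], .l [10, 7, 4, 8, 1], .l [5, 7, 1], .l [5, 7], .l [10, 5, 2, 8, 3], .l [8, 3, 0, 6, 3], .y [6], .r 4625 [1, 2, 3, 4] [1, 1, 1, 1, 1], .r 4624 [1, 2, 3, 4] [1, 1, 1, 1, 1], .l [3, 2, 4, 1, 8, 4, 1], .l [3, 2, 4, 1, 6, 2, 1], .r 4601 [1, 2, 3, 4] [1, 1, 1, 1, 1], .r 4600 [1, 2, 3, 4] [1, 1, 1, 1, 1], .l [3, 2, 4, 1, 6, 2, 5]]),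
([s 4 1, s 3 2, s 0 0, g, s 0 3, g, p 0 4, g, m 1 0, m 0 5, g, m 2 0, g, m 5 0, g], .hi 2, [.y [2], .l [8, 7, 4, 8, 1, 10, 6, 1], .l [8, 7, 4, 8, 1, 10, 6, 1], .l [2, 8, 5, 12, 5, 9, 11, 4, 6, 7], .l [6, 2, 4, 3, 9, 5, 6, 8, 4, 1], .l [8, 7, 2, 8, 1, 10, 4, 5], .l [8, 7, 2, 8, 1, 10, 4, 5], .l [8, 4, 6, 3, 11, 5, 8, 10, 4, 1], .l [6, 5, 2, 6, 1, 8, 4, 5], .l [6, 5, 2, 8, 3, 10, 4, 7], .l [13, 11, 5], .l [6, 5, 2, 8, 3, 10, 4, 7], .l [11, 7, 9, 3, 11, 7, 4, 7], .l [4, 2, 9, 13, 11, 3], .l [2, 10, 14, 12, 5], .l [13, 9, 11, 3, 13, 7, 4, 9], .l [4, 2, 11, 13, 9, 3], .l [2, 12, 14, 10, 5], .l [8, 3, 11, 3, 8, 12, 4, 9, 2, 5], .l [6, 5, 2, 6, 1, 8, 4, 9], .l [6, 5, 2, 6, 1, 8, 4, 9], .l [11, 9, 9, 6, 13, 4, 8, 5]]),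
([s 4 1, s 3 2, p 0 0, g, s 0 3, g, p 0 4, g, m 1 0, m 0 5, g, m 2 0, g, m 5 0, g], .lo 2, [.y [2], .l [8, 7, 4, 8, 1, 10, 6, 1], .l [2, 8, 5, 12, 5, 9, 11, 4, 6], .l [6, 4, 1], .l [8, 7, 2, 8, 1, 10, 4, 5], .l [8, 4, 6, 3, 11, 5, 8, 10, 4, 1], .l [4, 2, 4], .l [6, 5, 2, 8, 3, 10, 4, 7], .l [6, 5, 2, 8, 3, 10, 4, 7], .l [4, 2, 6], .l [4, 2, 6], .l [4, 2, 9, 13, 11, 3], .l [13, 6, 11, 6, 14, 5, 2, 10, 7], .l [3, 1, 10, 14, 12, 4, 4, 1], .l [3, 1, 10, 12, 10, 4, 4, 1], .l [4, 2, 11, 13, 9, 3], .l [11, 9, 10, 5, 11, 1, 11, 2, 4], .l [3, 1, 12, 14, 10, 4, 4, 1], .l [3, 1, 12, 12, 8, 4, 4, 1], .l [6, 5, 2, 6, 1, 8, 4, 9], .l [11, 9, 9, 6, 13, 4, 8, 5], .l [4, 2, 13]]),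
([s 4 1, s 3 2, m 0 0, g, s 0 3, g, p 0 4, g, m 1 0, m 0 5, g, m 2 0, g, m 5 0, g], .hi 2, [.y [2], .l [8, 7, 4, 8, 1, 10, 6, 1], .l [6, 4, 1], .l [2, 8, 5, 12, 5, 9, 11, 4, 6], .l [4, 2, 1], .l [8, 7, 2, 8, 1, 10, 4, 5], .l [4, 2, 4], .l [8, 4, 6, 3, 11, 5, 8, 10, 4, 1], .l [4, 2, 4], .l [6, 5, 2, 8, 3, 10, 4, 7], .l [4, 2, 6], .l [6, 5, 2, 8, 3, 10, 4, 7], .l [11, 4, 9, 6, 12, 5, 2, 8, 5], .l [4, 2, 9, 13, 11, 3], .l [3, 1, 10, 14, 12, 4, 4, 1], .l [13, 6, 11, 6, 14, 5, 2, 10, 7], .l [4, 2, 11, 13, 9, 3], .l [3, 1, 12, 14, 10, 4, 4, 1], .l [11, 9, 10, 5, 11, 1, 11, 2, 4], .l [6, 5, 2, 6, 1, 8, 4, 9], .l [4, 2, 13], .l [11, 9, 9, 6, 13, 4, 8, 5]]),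
([s 4 1, s 3 2, g, s 0 3, g, p 0 4, g, m 1 0, m 0 5, g, m 2 0, g, m 5 0, g], .top 2, [.c, .r 4627 [1, 2, 3, 4, 5] [1, 1, 1, 1, 1, 1], .r 4628 [1, 2, 3, 4, 5] [1, 1, 1, 1, 1, 1], .r 4629 [1, 2, 3, 4, 5] [1, 1, 1, 1, 1, 1]]),
([s 3 1, s 0 2, g, p 0 3, g, m 1 0, m 0 4, g, m 2 0, g, m 4 0, g], .lo 1, [.r 4630 [1, 2, 5, 3, 4] [1, 1, 1, 1, 1, 1], .l [10, 8, 9, 5, 1, 4, 5], .l [5, 4, 1], .l [5, 3, 9, 5, 6, 8, 4, 1], .l [5, 3, 9, 5, 6], .l [3, 2, 3], .l [3, 2, 3], .l [3, 2, 6, 10, 8, 1], .l [8, 6, 9, 2, 6], .l [1, 7, 11, 9, 3], .y [1, 8], .l [3, 2, 8, 10, 6, 1], .l [8, 6, 9, 2, 6], .l [1, 9, 11, 7, 3], .l [1, 9, 9, 5, 3], .l [8, 6, 11, 4, 6, 3], .l [8, 6, 11, 4, 8], .l [3, 2, 10]]),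
([s 3 1, s 0 2, g, p 0 3, m 0 4, g, m 4 0, g, m 1 0, m 0 5, g, m 5 0, g, m 2 0, g], .hi 6, [.l [1, 5, 5, 3, 1], .l [3, 7, 7, 5, 1], .l [15, 12, 4, 4, 2, 11, 1], .l [3, 7], .l [13, 10, 2, 2, 0, 9, 1], .y [4, 6], .l [5, 8, 6, 2, 7, 4, 1], .l [5, 8, 6, 2, 7, 4, 1], .l [6, 7], .l [5, 6, 4, 2, 7, 4, 1], .l [5, 6, 4, 2, 7, 4, 1], .l [5, 15, 10, 1, 12, 10, 1, 9, 6], .l [6, 9, 8, 12, 7, 3, 9, 5, 1, 6, 1], .l [5, 6, 4, 2, 5, 2, 6], .l [5, 6, 4, 2, 5, 2, 6], .l [6, 11, 10, 14, 9, 5, 11, 5, 1, 6, 1], .l [5, 6, 4, 2, 5, 2, 8], .l [5, 6, 4, 2, 5, 2, 8], .l [9, 13, 9, 9, 7, 2, 8, 5, 10, 2, 7], .l [5, 6, 4, 2, 5, 2, 10], .l [5, 6, 4, 2, 5, 2, 10], .l [9, 15, 11, 11, 9, 2, 10, 7, 1, 8, 5]]),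
([s 3 1, s 0 2, g, p 0 3, m 0 0, g, m 1 0, m 0 4, g, m 4 0, g, m 2 0, g], .hi 4, [.l [1, 3, 1], .l [3, 5, 1], .l [13, 10, 2, 11, 1], .l [3, 5], .l [11, 8, 0, 9, 1], .y [4], .l [3, 2, 7, 4, 1], .l [3, 2, 7, 4, 1], .r 4632 [1, 2, 3, 5, 4] [1, 1, 1, 1, 1, 1], .l [4, 11, 7, 3, 9, 5, 1, 6, 1], .l [3, 2, 5, 2, 6], .l [3, 2, 5, 2, 6], .l [4, 13, 9, 5, 11, 5, 1, 6, 1], .l [3, 2, 5, 2, 8], .l [3, 2, 5, 2, 8], .l [7, 11, 7, 2, 8, 5, 10, 2, 7], .l [3, 2, 5, 2, 10], .l [3, 2, 5, 2, 10], .l [7, 13, 9, 2, 10, 7, 1, 8, 5]]),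
([s 3 1, s 4 2, g, p 0 3, s 0 4, g, m 1 0, m 0 5, g, m 5 0, g, m 2 0, g], .hi 9, [.l [3, 10, 10, 8, 4], .l [1, 5, 2, 9, 11, 6, 1, 3, 6, 3], .l [3, 10], .l [1, 3, 0, 7, 9, 4, 1, 1, 4, 3], .l [3, 2, 2, 2, 6, 6, 4, 1], .l [6, 10, 10, 8, 1], .l [4, 2, 12, 9, 9, 7, 4, 4, 2, 5], .l [6, 10], .y [7, 9], .l [8, 11, 9, 5, 5, 2, 3, 8, 4, 1], .l [8, 11, 9, 5, 5, 2, 3, 8, 4, 1], .l [9, 10], .l [8, 9, 7, 5, 5, 2, 3, 8, 4, 1], .l [8, 9, 7, 5, 5, 2, 3, 8, 4, 1], .l [8, 13, 5, 1, 10, 8, 1, 7, 2], .l [8, 9, 7, 5, 5, 2, 3, 6, 2, 5], .l [8, 9, 7, 5, 5, 2, 3, 6, 2, 5], .l [4, 2, 10, 7, 7, 9, 6, 6, 4, 1]]),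
([s 3 1, s 0 2, g, p 0 3, p 4 0, g, p 0 4, g, m 1 0, m 0 5, g, m 5 0, g, m 2 0, g], .lo 6, [.l [3, 7, 7, 5, 1], .l [3, 7], .l [15, 12, 4, 4, 2, 11, 1], .y [4, 6], .l [5, 8, 6, 2, 7, 4, 1], .l [6, 7], .l [5, 8, 6, 2, 7, 4, 1], .l [5, 6, 4, 2, 7, 4, 1], .l [5, 15, 10, 1, 12, 10, 1, 9, 6], .l [5, 6, 4, 2, 7, 4, 1], .l [5, 6, 4, 2, 5, 2, 1], .l [5, 6, 4, 2, 5, 2, 6], .l [6, 11, 10, 14, 9, 5, 11, 5, 1, 6, 1], .l [5, 6, 4, 2, 5, 2, 6], .l [5, 6, 4, 2, 5, 2, 6], .l [5, 6, 4, 2, 5, 2, 8], .l [9, 13, 9, 9, 7, 2, 8, 5, 10, 2, 7], .l [5, 6, 4, 2, 5, 2, 8], .l [5, 6, 4, 2, 5, 2, 8], .l [5, 6, 4, 2, 5, 2, 10], .l [9, 15, 11, 11, 9, 2, 10, 7, 1, 8, 5], .l [5, 6, 4, 2, 5, 2, 10]]),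
([s 3 1, s 0 2, g, p 0 3, p 0 0, g, m 1 0, m 0 4, g, m 4 0, g, m 2 0, g], .lo 4, [.l [3, 5, 1], .l [3, 5], .l [13, 10, 2, 11, 1], .y [4], .l [3, 2, 7, 4, 1], .r 4635 [1, 2, 3, 5, 4] [1, 1, 1, 1, 1, 1], .l [3, 2, 7, 4, 1], .l [3, 2, 5, 2, 1], .l [3, 2, 5, 2, 6], .l [4, 13, 9, 5, 11, 5, 1, 6, 1], .l [3, 2, 5, 2, 6], .l [3, 2, 5, 2, 6], .l [3, 2, 5, 2, 8], .l [7, 11, 7, 2, 8, 5, 10, 2, 7], .l [3, 2, 5, 2, 8], .l [3, 2, 5, 2, 8], .l [3, 2, 5, 2, 10], .l [7, 13, 9, 2, 10, 7, 1, 8, 5], .l [3, 2, 5, 2, 10]]),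
([s 3 1, s 4 2, g, p 0 3, s 0 0, g, s 0 4, g, m 1 0, m 0 5, g, s 6 0, g, m 5 6, g, m 2 0, g], .lo 4, [.l [3, 5, 1, 8, 6, 3], .l [3, 5, 1], .l [7, 4, 2, 4, 9, 12, 10, 2, 5, 10, 4, 1], .y [4], .l [8, 6, 16, 9, 13, 1], .r 4604 [1, 3, 7, 4] [1, 1, 1, 1, 8], .l [3, 2, 9, 6, 1], .l [6, 4, 16, 11, 13, 10], .l [6, 4, 16, 11, 13, 10], .l [3, 2, 9, 6, 3], .l [3, 2, 7, 4, 3], .l [3, 2, 7, 4, 8, 12, 10, 3], .l [6, 4, 16, 11, 13, 7], .l [3, 2, 7, 4, 8], .l [3, 2, 7, 4, 8, 8, 8, 8, 6, 3], .l [3, 2, 7, 4, 10, 12, 8, 3], .l [6, 4, 16, 11, 13, 5], .l [3, 2, 7, 4, 10], .l [6, 4, 16, 11, 13, 3], .l [6, 4, 16, 11, 13, 3], .l [3, 2, 7, 4, 12], .l [3, 2, 7, 4, 12], .l [6, 4, 14, 9, 11, 12], .l [10, 17, 10, 2, 13, 10, 1, 1, 10, 3], .l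 [3, 2, 7, 4, 14]]),
([s 3 1, s 4 2, g, p 0 3, s 0 0, g, s 0 4, g, m 1 0, m 0 5, g, m 5 6, g, s 6 0, g, m 2 0, g], .lo 4, [.l [3, 5, 1, 8, 6, 3], .l [3, 5, 1], .l [7, 4, 2, 4, 9, 10, 8, 2, 5, 10, 4, 1], .y [4], .l [8, 6, 16, 9, 13, 1], .l [12, 6, 16, 5, 10, 8, 11, 7, 9, 4, 6, 7], .l [3, 2, 9, 6, 1], .l [6, 4, 16, 11, 13, 10], .l [6, 4, 16, 11, 13, 10], .l [3, 2, 9, 6, 3], .l [3, 2, 7, 4, 3], .l [3, 2, 7, 4, 8, 10, 8, 3], .l [6, 4, 16, 11, 13, 7], .l [3, 2, 7, 4, 8], .l [6, 4, 16, 11, 13, 5], .l [6, 4, 16, 11, 13, 5], .l [3, 2, 7, 4, 10], .l [3, 2, 7, 4, 10, 10, 8, 8, 6, 3], .l [6, 4, 16, 11, 13, 3], .l [6, 4, 16, 11, 13, 3], .l [3, 2, 7, 4, 12], .l [3, 2, 7, 4, 12], .l [6, 4, 14, 9, 11, 12], .l [12, 17, 8, 2, 11,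 8, 12, 12, 10, 3], .l [3, 2, 7, 4, 14]]),
([s 3 1, s 4 2, g, p 0 3, s 0 0, g, s 0 4, g, m 1 0, m 0 5, g, m 5 0, g, m 2 0, g], .hi 11, [.l [3, 12, 12, 10, 6], .l [1, 7, 4, 10, 12, 7, 2, 4, 8, 5], .l [3, 12], .l [1, 5, 2, 8, 10, 5, 2, 2, 6, 5], .l [3, 2, 7, 4, 8], .l [6, 12, 12, 10, 3], .l [15, 9, 6, 6, 4, 11, 4], .l [6, 12], .l [3, 2, 4, 4, 7, 7, 5, 2], .l [8, 12, 12, 10, 1], .l [6, 4, 14, 9, 11, 9, 4, 4, 2, 7], .l [8, 12], .y [9, 11], .r 4637 [1, 2, 3, 4, 5, 6] [1, 1, 1, 1, 1, 1, 1], .l [10, 13, 11, 7, 7, 4, 11, 4, 1], .l [11, 12], .r 4638 [1, 2, 3, 4, 5, 6] [1, 1, 1, 1, 1, 1, 1], .l [10, 11, 9, 7, 7, 4, 11, 4, 1], .l [10, 15, 5, 1, 12, 10, 1, 9, 4], .l [6, 4, 12, 7, 9, 11, 6, 6, 4, 1], .l [10, 11, 9, 7, 7, 4,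 9, 2, 9], .l [6, 4, 12, 7, 9, 11, 6, 6, 4, 1]]),
([s 3 1, s 4 2, g, p 0 3, g, s 0 4, g, m 1 0, m 0 5, g, m 5 0, g, m 2 0, g], .top 4, [.r 4634 [1, 2, 3, 4, 5] [1, 1, 1, 1, 1], .r 4639 [1, 2, 3, 4, 5] [1, 1, 1, 1, 1, 1], .r 4636 [1, 2, 3, 5] [1, 3, 1, 1, 1], .r 4633 [1, 2, 3, 5] [1, 3, 1, 1, 1]]),
([s 3 1, s 7 2, g, p 0 3, g, m 0 4, g, m 1 0, m 4 5, g, m 5 6, g, s 6 0, g, s 0 7, g, m 2 0, g], .hi 7, [.l [11, 2, 6, 10, 4, 2, 10, 3, 6, 3], .l [7, 4, 8, 9, 4, 15, 8, 10, 7], .l [3, 8], .y [0, 7, 3], .l [11, 6, 3, 4, 2, 12, 5, 9, 7, 5, 6, 1], .l [16, 14, 17, 2, 8, 10, 9, 9, 7, 9, 3, 3, 7], .l [5, 8], .l [5, 6], .l [11, 4, 1, 14, 5, 11, 9, 5, 8, 3], .l [16, 14, 17, 2, 8, 12, 11, 11, 9, 7, 1, 1, 7], .l [7, 8], .l [3, 2,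 14, 8, 2, 4, 2, 7], .l [3, 2, 14, 8, 2, 4, 2, 7], .l [16, 14, 15, 13, 15, 2, 10, 12, 11, 9, 7, 9, 7], .l [3, 2, 14, 8, 4, 6, 4, 4, 2, 5], .l [3, 2, 14, 8, 4, 6, 4, 4, 2, 5], .l [9, 12, 9, 10, 8, 5, 6, 4, 4, 1, 10, 6, 1], .l [3, 2, 14, 5, 1, 6, 2, 4, 2, 5], .l [9, 2, 12, 4, 11, 9, 5, 8, 3], .l [3, 2, 14, 5, 1, 6, 2, 4, 2, 5], .l [14, 12, 6, 1, 10, 13, 2, 6, 8, 4, 1, 5, 1], .l [9, 10, 8, 6, 10, 4, 10, 3, 8, 1], .l [3, 2, 12, 6, 12, 3, 10, 6, 5, 5, 3, 9, 3], .l [9, 10, 8, 6, 6, 3, 14, 8, 1, 9, 3, 9, 1], .l [9, 10, 8, 6, 10, 4, 12, 5, 10, 1], .l [9, 10, 8, 6, 10, 4, 12, 5, 10, 1], .l [9, 10, 8, 6, 6, 3, 12, 6, 1, 11, 3, 9, 7]]),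
([s 3 1, s 5 2, g, p 0 3, s 0 4, g, m 4 0, g, m 1 0, g, s 0 5, g, m 2 0, g], .lo 4, [.l [3, 5, 1, 8, 6, 7], .l [3, 5, 1], .l [8, 1, 4, 2, 4], .l [6, 1, 7, 5, 2, 7], .l [6, 1, 7, 5, 2], .l [3, 2, 9, 6, 1], .y [4, 6], .l [12, 10, 13, 2, 10, 3], .l [6, 1, 7, 5, 2], .l [3, 2, 9, 6, 3], .l [3, 2, 7, 4, 3], .l [12, 10, 13, 2, 10, 5], .l [6, 1, 9, 7, 2], .l [3, 2, 7, 4, 7], .l [10, 8, 13, 4, 10, 7], .l [6, 1, 11, 9, 2], .l [3, 2, 7, 4, 9], .l [3, 2, 7, 4, 9], .l [10, 8, 11, 2, 8, 9], .l [6, 1, 13, 11, 2], .l [3, 2, 7, 4, 11]]),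
([s 3 1, s 7 2, g, p 0 3, s 0 0, g, m 1 4, m 4 5, g, m 5 6, g, s 6 0, g, s 0 7, g, m 2 0, g], .hi 4, [.l [3, 5, 1, 6, 4, 11], .l [5, 8, 2, 4, 7, 4, 11, 5, 11, 5, 0, 7], .l [3, 5, 1], .l [3, 6, 2, 4, 5, 2, 9, 5, 9, 3, 0, 5], .y [4], .l [15, 13, 16, 2, 13, 1], .l [3, 2, 7, 4, 1], .r 4642 [1, 2, 3, 8, 7] [1, 1, 1, 6, 1, 1], .l [3, 2, 5, 2, 6, 8, 6, 9], .l [3, 2, 5, 2, 6], .l [9, 4, 14, 6, 11, 8], .l [15, 13, 16, 2, 13, 6], .l [3, 2, 5, 2, 8], .l [8, 11, 6, 2, 11, 3, 7, 3, 6, 1], .l [15, 13, 16, 2, 13, 8], .l [3, 2, 5, 2, 10], .l [8, 13, 8, 2, 11, 1, 7, 5, 6, 1], .l [13, 11, 14, 2, 11, 8], .l [13, 11, 16, 4, 13, 10], .l [3, 2, 5, 2, 12], .l [13, 11, 16, 4, 13, 10], .l [13, 11, 14, 2, 11, 12], .l [3, 2, 5, 2, 14], .l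 [10, 17, 10, 2, 11, 8, 12, 12, 10, 7]]),
([s 3 1, s 7 2, g, p 0 3, g, m 1 4, m 4 5, g, m 5 6, g, s 6 0, g, s 0 7, g, m 2 0, g], .top 4, [.l [6, 7, 5, 5, 4, 2, 3, 0, 3], .r 4643 [1, 2, 3, 4, 5, 6, 7] [1, 1, 1, 1, 1, 1, 1], .r 4636 [1, 2, 3, 5] [1, 1, 1, 5, 1], .r 4633 [1, 2, 3, 5] [1, 1, 1, 5, 1]]),
([s 3 1, s 6 2, g, p 0 3, g, m 1 0, m 0 4, g, m 4 5, g, s 5 0, g, s 0 6, g, m 2 0, g], .lo 6, [.l [8, 4, 13, 6, 8, 5], .l [8, 4], .l [14, 12, 13, 9, 11, 8, 11, 5, 2, 7], .l [8, 2, 13, 6, 10, 7], .l [8, 2], .r 4641 [1, 2, 3, 7, 4, 5, 6] [1, 1, 1, 1, 1, 1, 1, 1], .r 4644 [1, 2, 3, 7, 4, 5, 6] [1, 1, 1, 1, 1, 1, 1], .l [8, 1, 9, 7, 4], .l [8, 1], .l [6, 7], .l [6, 9, 13, 8, 13, 4, 8, 5], .l [10, 3], .l [6, 9], .y [6, 8,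 10], .l [6, 11, 13, 6, 13, 6, 8, 5], .l [12, 5], .l [6, 11], .l [12, 10, 13, 8, 13, 7, 2, 9], .l [14, 7], .l [6, 13], .l [6, 13], .l [6, 15, 7, 1, 10, 2, 5, 7, 8, 3], .l [16, 9], .l [6, 15]]),
([s 3 1, s 7 2, g, p 0 3, g, m 1 0, m 0 4, g, s 6 5, g, m 4 6, g, m 5 0, g, s 0 7, g, m 2 0, g], .lo 3, [.l [14, 3, 10, 1, 13, 2, 8, 3], .l [3, 4], .l [8, 5, 1, 17, 10, 12, 7], .l [14, 3, 10, 1, 13, 2, 8, 3], .l [11, 12, 8, 6, 6, 3, 3, 1, 12, 8, 1, 3, 1], .l [8, 5, 1, 17, 10, 12, 7], .y [0, 5, 3], .l [2, 3, 0, 5, 9, 7, 2], .l [9, 12, 8, 4, 11, 5, 8, 4, 6, 4, 1], .l [3, 2, 14, 12, 4, 8, 6, 1], .l [2, 3, 0, 7, 9, 5, 2], .l [7, 10, 5, 5, 2, 7, 7, 5, 2], .l [3, 2, 14, 12, 6, 8, 4, 1], .l [2, 3, 0, 9, 1, 1, 9, 7, 7, 5, 2, 5],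 .l [7, 10, 8, 4, 11, 5, 8, 4, 6, 4, 1], .l [3, 2, 14, 5, 5, 10, 6, 8, 6, 6, 4, 1], .l [3, 2, 12, 3, 3, 8, 6, 6, 4, 4, 2, 1], .l [7, 14, 9, 9, 6, 1, 1, 7, 2, 7], .l [7, 8, 8, 12, 7, 3, 8, 6, 2, 6, 1], .l [9, 6, 12, 7, 3, 7, 3], .l [1, 13, 5, 1, 8, 11, 13, 11, 6, 3], .l [7, 8, 8, 14, 9, 3, 10, 8, 2, 8, 1], .l [1, 13, 5, 1, 8, 11, 13, 11, 6, 3], .l [1, 13, 5, 1, 8, 11, 11, 9, 6, 3], .l [7, 18, 13, 13, 10, 1, 1, 11, 2, 5], .l [6, 18, 14, 14, 11, 3, 13, 2, 3], .l [17, 14, 16, 15, 1, 14, 1]]),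
([s 3 1, s 6 2, g, p 0 3, g, m 1 0, m 0 4, g, s 5 0, g, m 4 5, g, s 0 6, g, m 2 0, g], .hi 8, [.l [2, 5, 2, 7, 7, 7, 7, 5, 2, 5], .l [2, 5, 2, 7, 7, 7, 7, 5, 2], .l [3, 9, 9, 9, 9, 7, 3], .l [2, 3, 0, 5, 5, 5, 5, 3, 2], .l [5, 9, 9, 9, 9, 7, 1, 4, 2, 5], .l [3, 2, 12, 1, 1, 6, 4, 4, 2, 3], .l [5, 9, 9, 9, 9, 7, 1], .y [6, 10, 8], .l [10, 1, 11, 7, 4, 9], .l [9, 12, 8, 4, 5, 8, 1, 6, 1], .l [10, 1, 11, 7, 4], .l [10, 1, 11, 7, 4, 9], .l [8, 11, 1, 9, 9, 7, 4], .l [10, 1, 11, 7, 4], .l [8, 11, 13, 8, 13, 4, 8, 5], .l [7, 10, 8, 4, 5, 8, 1, 6, 1], .r 4646 [1, 2, 3, 4, 7, 5, 6] [1, 1, 1, 1, 1, 1, 1, 1], .l [3, 2, 10, 1, 1, 8, 6, 6, 4, 1], .l [3, 2, 10, 12, 8, 8, 8, 8, 6, 1], .l [7, 10, 8, 4, 5, 10, 3, 8, 1], .l [3,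 2, 10, 1, 1, 10, 8, 8, 6, 1], .l [3, 2, 10, 14, 10, 10, 10, 10, 8, 1], .l [7, 10, 8, 4, 5, 12, 5, 10, 1], .l [3, 2, 10, 1, 1, 12, 10, 10, 8, 1]]),
([s 3 1, s 5 2, g, p 0 3, g, m 1 0, m 0 4, g, m 4 0, g, s 0 5, g, m 2 0, g], .hi 8, [.l [3, 9, 9, 7, 3], .l [5, 4, 10, 8, 6, 6, 4, 1], .l [3, 9], .l [3, 2, 8, 6, 4, 4, 2, 1], .l [5, 9, 9, 7, 1], .l [3, 2, 10, 6, 4, 4, 2, 3], .l [5, 9], .y [6, 8], .r 4647 [1, 2, 3, 4, 6, 5] [1, 1, 1, 1, 1, 1, 1], .l [7, 10, 8, 4, 4, 1, 10, 6, 1], .l [8, 9], .r 4645 [1, 2, 3, 4, 6, 5] [1, 1, 1, 1, 1, 1, 1], .l [7, 8, 6, 4, 4, 1, 10, 6, 1], .l [7, 14, 7, 1, 11, 9, 1, 8, 1], .l [3, 2, 8, 8, 6, 6, 4, 1], .l [3, 2, 8, 10, 8, 8, 6, 1], .l [7, 8, 6, 4, 4, 1, 10, 6, 3], .l [3, 2, 8, 10, 8, 8,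 6, 1], .l [3, 2, 8, 12, 10, 10, 8, 1], .l [7, 8, 6, 4, 4, 1, 8, 4, 7], .l [3, 2, 8, 12, 10, 10, 8, 1]]),
([s 5 1, s 3 2, g, s 0 3, g, m 0 4, g, p 0 5, s 4 0, g, m 0 6, g, m 1 0, g, m 6 7, g, m 7 0, g, m 2 0, g], .hi 8, [.l [3, 9, 5, 12, 6, 9], .l [9, 8, 3, 12, 4, 9], .l [3, 9, 5], .l [3, 7, 3, 10, 6, 1], .l [5, 9, 3, 12, 8, 1], .l [15, 10, 4, 12, 1, 12, 6, 14, 3, 12, 1, 6, 2, 7], .l [5, 9, 3], .y [5, 8], .l [7, 9, 1, 12, 10, 1], .l [15, 10, 4, 12, 1, 12, 6, 14, 3, 12, 1, 6, 2, 7], .l [7, 9, 1], .l [13, 8, 2, 10, 1, 10, 4, 12, 3, 10, 1, 4, 2, 5], .l [7, 6, 1, 12, 6, 1], .l [7, 6, 1, 12, 6, 1], .l [10, 1, 4, 2, 6], .l [10, 1, 4, 2, 6], .l [7, 6, 1, 12, 6, 3], .l [7, 6, 1, 12, 6, 3], .l [12, 3, 6, 2, 8], .l [7, 6,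 1, 10, 4, 9], .l [7, 6, 1, 10, 4, 9], .l [14, 5, 8, 2, 10], .l [7, 6, 1, 10, 4, 11], .l [7, 6, 1, 10, 4, 11], .l [16, 7, 10, 2, 12], .l [7, 6, 1, 10, 4, 13], .l [7, 6, 1, 10, 4, 13], .l [18, 9, 12, 2, 14], .l [7, 6, 1, 10, 4, 15], .l [7, 6, 1, 10, 4, 15], .l [20, 11, 14, 2, 16]]),
([s 4 1, s 3 2, g, s 0 3, g, p 0 4, s 0 0, g, m 0 5, g, m 1 0, m 5 6, g, m 6 0, g, m 2 0, g], .lo 6, [.l [3, 7, 3, 10, 6, 7], .l [3, 7, 3], .l [7, 6, 3, 10, 4, 7], .l [5, 7, 1, 10, 8, 1], .l [5, 7, 1], .r 4649 [1, 2, 3, 7, 4, 5, 6] [1, 1, 1, 1, 1, 0, 1, 1, 1], .y [6], .l [5, 4, 1, 10, 6, 1], .r 4610 [1, 3, 4, 7] [1, 1, 1, 3, 6], .l [5, 4, 1, 10, 6, 1], .l [5, 4, 1, 10, 6, 3], .r 4610 [1, 3, 4, 7] [1, 1, 3, 1, 6], .l [5, 4, 1, 10, 6, 3],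 .l [5, 4, 1, 8, 4, 3], .l [5, 4, 1, 8, 4, 9], .l [1, 2, 12, 6, 14, 4, 9, 6], .l [5, 4, 1, 8, 4, 9], .l [5, 4, 1, 8, 4, 9], .l [5, 4, 1, 8, 4, 11], .l [5, 4, 1, 9, 14, 5, 1, 11, 4, 7], .l [5, 4, 1, 8, 4, 11], .l [5, 4, 1, 8, 4, 11], .l [5, 4, 1, 8, 4, 13], .l [15, 13, 9, 15, 9, 6, 3, 1, 10, 5], .l [5, 4, 1, 8, 4, 13]]),
([s 5 1, s 3 2, g, s 0 3, g, m 0 4, g, p 0 5, s 4 0, g, m 1 6, g, m 6 7, g, m 7 0, g, m 2 0, g], .hi 8, [.l [3, 9, 5, 10, 4, 7], .l [9, 8, 3, 10, 2, 7], .l [3, 9, 5], .l [3, 7, 3, 8, 4, 1], .l [5, 9, 3, 10, 6, 1], .l [13, 8, 4, 10, 1, 10, 6, 12, 3, 10, 1, 4, 0, 5], .l [5, 9, 3], .y [5, 8], .l [7, 9, 1, 10, 8, 1], .l [13, 8, 4, 10, 1, 10, 6, 12, 3, 10, 1, 4, 0, 5], .l [7, 9, 1], .l [11, 6, 2, 8, 1,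 8, 4, 10, 3, 8, 1, 2, 0, 3], .l [7, 6, 1, 10, 4, 1], .l [7, 6, 1, 10, 4, 1], .l [10, 1, 4, 2, 6], .l [7, 6, 1, 8, 2, 7], .l [7, 6, 1, 8, 2, 7], .l [12, 3, 6, 2, 8], .l [7, 6, 1, 8, 2, 9], .l [7, 6, 1, 8, 2, 9], .l [14, 5, 8, 2, 10], .l [7, 6, 1, 8, 2, 11], .l [7, 6, 1, 8, 2, 11], .l [16, 7, 10, 2, 12], .l [7, 6, 1, 8, 2, 13], .l [7, 6, 1, 8, 2, 13], .l [18, 9, 12, 2, 14]]),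
([s 4 1, s 3 2, g, s 0 3, g, p 0 4, s 0 0, g, m 1 5, m 5 6, g, m 6 0, g, m 2 0, g], .lo 6, [.l [3, 7, 3, 8, 4, 5], .l [3, 7, 3], .l [7, 6, 3, 8, 2, 5], .l [5, 7, 1, 8, 6, 1], .l [5, 7, 1], .r 4651 [1, 2, 3, 7, 4, 5, 6] [1, 1, 1, 1, 0, 1, 1, 1], .y [6], .l [5, 4, 1, 8, 4, 1], .r 4610 [1, 3, 4, 7] [1, 1, 1, 1, 6], .l [5, 4, 1, 8, 4, 1], .l [5, 4, 1, 6, 2, 7], .l [1, 2, 10, 4, 12, 4, 9, 6], .l [5, 4, 1, 6, 2, 7], .l [5, 4, 1, 6, 2, 7], .l [5, 4, 1, 6, 2, 9], .l [5, 4, 1, 7, 12, 5, 1, 9, 2, 5], .l [5, 4, 1, 6, 2, 9], .l [5, 4, 1, 6, 2, 9], .l [5, 4, 1, 6, 2, 11], .l [13, 11, 7, 13, 9, 6, 3, 1, 8, 3], .l [5, 4, 1, 6, 2, 11]]),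
([s 4 1, s 3 2, g, s 0 3, g, p 0 4, s 0 0, g, m 1 0, m 0 5, g, m 5 0, g, m 2 0, g], .lo 9, [.l [11, 7, 14, 4, 6, 3], .l [11, 7], .l [5, 3, 6, 1, 9, 4, 11, 4, 6, 3], .l [1, 2, 10, 5, 12, 4, 6, 3], .l [11, 5], .l [15, 13, 14, 8, 10, 6, 11, 7, 2, 7], .l [1, 2, 8, 2, 10, 4, 7, 4], .l [1, 2, 10, 2, 12, 4, 9, 6], .l [11, 2], .r 4650 [1, 2, 3, 4, 6, 5] [1, 1, 1, 1, 1, 1, 1], .r 4652 [1, 2, 3, 4, 6, 5] [1, 1, 1, 1, 1, 1], .l [11, 1, 12, 10, 7], .l [11, 1], .l [9, 10], .y [9, 11], .l [15, 13, 7, 9, 5, 11, 8, 10, 4, 7], .l [13, 3], .l [9, 12], .l [9, 12], .l [9, 14, 8, 1, 8, 5, 1, 9, 4, 5], .l [15, 5], .l [9, 14]]),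
([s 3 1, s 0 2, g, p 0 3, m 1 0, m 0 4, g, m 4 0, g, m 2 0, g], .hi 4, [.l [1, 3, 1], .l [3, 5, 1], .l [11, 8, 2, 9, 1], .l [3, 5], .y [0, 4, 3], .l [4, 9, 5, 1, 7, 5, 6, 0, 3], .l [3, 2, 3, 0, 4], .l [3, 2, 3, 0, 4], .l [4, 11, 7, 3, 9, 5, 8, 2, 5], .l [3, 2, 3, 0, 6], .l [3, 2, 3, 0, 6], .l [5, 9, 7, 2, 6, 3, 8, 2, 5], .l [3, 2, 3, 0, 8], .l [3, 2, 3, 0, 8], .l [5, 11, 9, 2, 8, 5, 1, 6, 3]]),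
([s 4 1, s 3 2, g, s 0 3, g, p 0 4, g, m 1 0, m 0 5, g, m 5 0, g, m 2 0, g], .top 6, [.r 4654 [1, 2, 4, 5] [3, 1, 1, 1], .r 4653 [1, 2, 3, 4, 5] [1, 1, 1, 1, 1, 1], .r 4636 [1, 2, 4, 5] [3, 1, 1, 1, 1], .r 4633 [1, 2, 4, 5] [3, 1, 1, 1, 1]]),
([s 3 1, s 6 2, g, p 0 3, s 0 0, g, m 0 4, g, m 1 0, m 4 5, g, m 5 0, g, m 2 0, g, s 0 6, g], .lo 4, [.l [3, 5, 1, 8, 6, 13], .l [3, 5, 1], .l [5, 10, 4, 6, 9, 4, 11, 3, 11, 7, 2, 7], .y [4], .l [5, 10, 4, 7, 2, 13], .r 4607 [1, 3, 7, 6] [1, 1, 3, 6, 1], .l [3, 2, 9, 6, 1], .l [7, 10, 2, 5, 2, 13], .r 4607 [1, 3, 7, 6] [1, 3, 1, 6, 1], .l [3, 2, 9, 6, 3], .l [3, 2, 7, 4, 3], .l [3, 2, 7, 4, 8, 10, 8, 11], .l [11, 6, 14, 4, 9, 6], .l [3, 2, 7, 4, 8], .l [3, 2, 7, 4, 8], .l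 [15, 13, 16, 2, 13, 8], .l [15, 13, 7, 10, 4, 11, 12, 3, 8, 5], .l [3, 2, 7, 4, 10], .l [3, 2, 7, 4, 10], .l [13, 11, 16, 4, 13, 10], .l [13, 11, 16, 4, 13, 10], .l [3, 2, 7, 4, 12], .l [13, 11, 14, 2, 11, 12], .l [13, 11, 7, 15, 9, 4, 5, 3, 10, 7], .l [3, 2, 7, 4, 14]]),
([s 3 1, s 6 2, g, p 0 3, s 0 0, g, m 1 4, m 4 5, g, m 5 0, g, m 2 0, g, s 0 6, g], .lo 4, [.l [3, 5, 1, 6, 4, 11], .l [3, 5, 1], .l [5, 8, 2, 4, 7, 4, 9, 3, 9, 5, 0, 5], .y [4], .l [5, 8, 2, 5, 2, 11], .r 4607 [1, 3, 7, 6] [1, 1, 1, 6, 1], .l [3, 2, 7, 4, 1], .l [3, 2, 5, 2, 6, 8, 6, 9], .l [9, 4, 12, 4, 9, 6], .l [3, 2, 5, 2, 6], .l [3, 2, 5, 2, 6], .l [13, 11, 14, 2, 11, 6], .l [13, 11, 5, 8, 4, 9, 10, 3, 6, 3], .l [3, 2, 5, 2, 8], .l [3, 2,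 5, 2, 8], .l [11, 9, 14, 4, 11, 8], .l [11, 9, 14, 4, 11, 8], .l [3, 2, 5, 2, 10], .l [11, 9, 12, 2, 9, 10], .l [11, 9, 5, 13, 9, 4, 5, 3, 8, 5], .l [3, 2, 5, 2, 12]]),
([s 3 1, s 5 2, g, p 0 3, s 0 0, g, m 1 0, m 0 4, g, m 4 0, g, m 2 0, g, s 0 5, g], .lo 7, [.l [9, 5, 12, 4, 6, 3], .l [9, 5], .l [13, 11, 12, 8, 10, 6, 11, 7, 2, 7], .l [7, 2, 10, 4, 7, 4], .l [9, 2, 12, 4, 9, 6], .l [9, 2], .r 4656 [1, 2, 3, 6, 4, 5] [1, 1, 1, 1, 1, 1, 1], .r 4657 [1, 2, 3, 6, 4, 5] [1, 1, 1, 1, 1, 1], .l [9, 1, 10, 8, 5], .l [9, 1], .l [7, 8], .y [7, 9], .l [7, 10, 12, 7, 12, 4, 6, 3], .l [11, 3], .l [7, 10], .l [7, 10], .l [7, 12, 14, 7, 12, 4, 6, 3], .l [13, 5], .l [7, 12], .l [11, 9, 5, 12, 8, 4, 5, 3, 8, 5], .l [15, 7], .l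 [7, 14]]),
([s 3 1, s 5 2, g, p 0 3, g, m 1 0, m 0 4, g, m 4 0, g, m 2 0, g, s 0 5, g], .top 4, [.r 4654 [1, 2, 3, 4] [1, 1, 1, 3], .r 4658 [1, 2, 3, 4, 5] [1, 1, 1, 1, 1, 1], .r 4636 [1, 2, 3, 4] [1, 1, 1, 1, 3], .r 4633 [1, 2, 3, 4] [1, 1, 1, 1, 3]]),
([s 3 1, s 0 2, g, p 0 3, g, m 1 0, m 0 4, g, m 4 0, g, m 2 0, g], .lo 1, [.r 4655 [1, 2, 5, 3, 4] [1, 1, 1, 1, 1, 1], .l [12, 10, 11, 7, 1, 6, 7], .l [5, 4, 1], .r 4640 [1, 2, 3, 5, 4] [1, 1, 1, 1, 1, 1], .l [5, 3, 11, 7, 8], .l [3, 2, 3], .l [3, 2, 3], .l [3, 2, 6, 8, 6, 1], .l [8, 6, 11, 4, 8], .l [1, 7, 9, 7, 3], .l [1, 7, 7, 5, 3], .r 4648 [1, 2, 3, 4, 5] [1, 1, 1, 1, 1, 1], .l [10, 8, 11, 2, 8], .l [3, 2, 8], .y [1, 10], .r 4659 [1, 2, 3, 4, 5] [1, 1, 1, 1,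 1, 1], .l [10, 8, 11, 2, 8], .l [3, 2, 10]]),
([s 3 1, s 0 2, g, p 0 3, g, m 1 0, m 0 4, g, m 2 0, g, s 4 0, g], .lo 1, [.l [10, 8, 3, 7, 4, 6, 4, 5], .l [10, 8, 9, 5, 1, 4, 5], .l [5, 4, 1], .l [5, 3, 9, 5, 6, 8, 4, 1], .l [5, 3, 9, 5, 6], .l [3, 2, 3], .l [3, 2, 3], .l [8, 6, 9, 2, 4, 7], .l [8, 6, 9, 2, 6], .l [3, 2, 6], .y [1, 8], .l [3, 2, 8, 10, 6, 1], .l [8, 6, 9, 2, 6], .l [3, 2, 8], .l [3, 2, 8, 8, 4, 1], .l [8, 6, 11, 4, 6, 3], .l [8, 6, 11, 4, 8], .l [3, 2, 10]]),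
([s 3 1, s 0 2, g, p 0 3, g, m 1 0, m 0 4, g, s 4 0, g, m 2 0, g], .lo 1, [.l [12, 10, 3, 9, 6, 8, 6, 1], .l [12, 10, 11, 7, 1, 6, 7], .l [5, 4, 1], .l [12, 10, 1, 9, 6, 8, 6, 1], .l [5, 3, 11, 7, 8], .l [3, 2, 3], .l [3, 2, 3], .l [8, 6, 11, 4, 6, 3], .l [8, 6, 11, 4, 8], .l [3, 2, 6], .l [3, 2, 6, 6, 4, 1], .l [10, 8, 11, 2, 6, 1], .l [10, 8, 11, 2, 8], .l [3, 2, 8], .y [1, 10], .l [10, 8, 11, 2, 6, 1], .l [10, 8, 11, 2, 8], .l [3, 2, 10]]),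
([s 3 1, s 0 2, g, p 0 3, g, m 1 0, m 0 0, g, m 2 0, g], .hi 6, [.l [1, 5, 3], .l [3, 7, 3], .l [10, 7, 4, 8, 1], .l [3, 7], .l [8, 5, 2, 6, 1], .l [5, 7, 1], .l [10, 5, 2, 8, 3], .l [5, 7], .y [6], .r 4662 [1, 2, 3, 4] [1, 1, 1, 1, 1], .l [3, 2, 4, 1, 8, 4, 1], .r 4660 [1, 2, 3, 4] [1, 1, 1, 1, 1], .r 4661 [1, 2, 3, 4] [1, 1, 1, 1, 1], .l [3, 2, 4, 1, 6, 2, 5], .r 4631 [1, 2, 3, 4] [1, 1, 1, 1, 1]]),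
([s 3 1, s 0 2, g, p 0 3, g, m 1 0, g, m 2 0, g], .top 6, [.r 4453 [1, 2] [3, 1], .r 4595 [1, 2, 3] [1, 1, 1, 1], .r 4626 [1, 2, 3] [1, 1, 1, 1], .r 4663 [1, 2, 3] [1, 1, 1, 1]]),
([s 2 1, s 0 0, g, p 0 2, s 3 0, g, s 0 3, g, m 1 0, g], .hi 1, [.y [1], .l [5, 4, 1, 8, 4, 1], .l [5, 4, 1], .R 4578 [2, 4] [1, 1, 6], .l [3, 2, 1], .l [7, 10, 2, 5, 2, 5], .l [3, 2, 4], .r 4580 [1, 4, 2, 3] [1, 1, 1, 1, 1], .l [5, 8, 2, 5, 2, 3], .l [5, 10, 4, 7, 2, 3], .l [3, 2, 6], .l [5, 10, 4, 7, 2, 3], .l [5, 8, 2, 5, 2, 5], .l [3, 2, 8], .r 4664 [1, 4, 2] [1, 4, 1, 1]]),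
([s 4 1, s 2 0, g, s 0 2, g, p 5 0, g, m 0 3, g, p 0 4, s 3 0, g, m 1 5, g], .hi 10, [.l [3, 11, 7, 12, 4, 9], .l [11, 10, 3, 12, 2, 9], .l [3, 11, 7], .l [3, 9, 5, 10, 4, 1], .l [5, 11, 5, 12, 6, 1], .l [6, 1, 10, 4, 10], .l [5, 11, 5], .l [7, 11, 3, 12, 8, 1], .l [6, 1, 12, 4, 2, 4, 1], .l [7, 11, 3], .y [7, 10], .l [9, 11, 1, 12, 10, 1], .l [6, 1, 12, 4, 2, 4, 1], .l [9, 11, 1], .l [6, 1, 10, 2, 0, 2, 1], .l [9, 8, 1, 12, 4, 1], .l [9, 8, 1, 12, 4, 1], .l [12, 1, 4, 2, 8], .l [9, 8, 1, 10, 2, 9], .l [9, 8, 1, 10, 2, 9], .l [14, 3, 6, 2, 10]]),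
([s 4 1, s 2 0, g, s 0 2, g, p 5 0, g, m 0 3, g, p 0 4, s 3 0, g, m 1 0, g, m 0 5, g], .hi 10, [.l [3, 11, 7, 12, 4, 9], .l [11, 10, 3, 12, 2, 9], .l [3, 11, 7], .l [3, 9, 5, 10, 4, 1], .l [5, 11, 5, 12, 6, 1], .l [6, 1, 10, 4, 12], .l [5, 11, 5], .l [7, 11, 3, 12, 8, 1], .l [6, 1, 14, 6, 2, 6, 3], .l [7, 11, 3], .y [7, 10], .l [9, 11, 1, 12, 10, 1], .l [6, 1, 14, 6, 2, 6, 3], .l [9, 11, 1], .l [6, 1, 12, 4, 0, 4, 3], .l [9, 8, 1, 12, 4, 1], .l [9, 8, 1, 12, 4, 1], .l [12, 1, 4, 2, 8], .l [9, 8, 1, 10, 2, 9], .l [9, 8, 1, 10, 2, 9], .l [14, 3, 6, 2, 10], .l [14, 3, 6, 2, 10], .l [9, 8, 1, 10, 2, 11], .l [9, 8, 1, 10, 2, 11], .l [16, 5, 8, 2, 12]]),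
([s 5 1, s 2 0, g, s 0 2, g, m 0 3, g, m 3 4, g, p 0 5, s 4 0, g, m 1 6, g, m 6 7, g, m 7 8, g, m 8 9, g, m 9 0, g], .hi 1, [.l [17, 12, 14, 10, 2, 12, 3, 12, 6, 3, 8, 10, 6, 1], .l [11, 10, 1], .l [19, 10, 2, 16, 3, 16, 8, 10, 4, 12, 1, 3, 7, 10, 2, 5], .y [1, 3], .l [17, 12, 14, 10, 2, 12, 3, 12, 6, 3, 8, 10, 6, 1], .l [11, 10, 3], .R 4577 [5, 2, 10] [1, 1, 5, 12], .l [3, 1, 8, 5, 10, 4, 7, 9, 5, 3, 5, 7, 5], .l [17, 8, 2, 14, 5, 14, 6, 3, 10, 12, 6, 1], .l [11, 10, 5], .l [3, 1, 10, 7, 12, 4, 7, 11, 7, 5, 7, 9, 7], .l [11, 10, 7, 12, 2, 9], .l [11, 10, 7], .l [3, 1, 13, 10, 5, 9, 2, 5], .l [9, 8, 7], .l [1, 11, 4, 2, 7, 10, 2, 7], .l [9, 8, 10], .l [16, 9, 2, 14, 9, 11, 5, 13, 5, 5, 3, 3, 1], .l [1, 13, 6, 2,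 9, 12, 6, 6, 2, 7], .l [9, 8, 12], .l [16, 9, 2, 14, 7, 9, 7, 9, 7, 11, 5, 5, 1], .l [1, 15, 8, 2, 11, 14, 8, 8, 6, 6, 2, 7], .l [9, 8, 14], .l [16, 14, 10, 13, 3, 12, 2, 12, 1, 9, 7, 11, 3], .l [1, 17, 10, 2, 13, 16, 10, 10, 8, 8, 6, 6, 2, 7], .l [9, 8, 16], .l [9, 8, 1, 10, 2, 14, 5, 11, 9, 9, 7, 11, 3], .l [1, 19, 12, 2, 15, 18, 12, 12, 10, 10, 8, 8, 6, 6, 2, 7], .l [9, 8, 1, 10, 2, 8, 15, 17, 15, 15, 13, 13, 11], .l [9, 8, 1, 10, 2, 16, 7, 13, 11, 11, 9, 9, 7], .l [17, 10, 2, 14, 1, 14, 8, 10, 4, 14, 3, 5, 9, 3, 8, 3], .l [9, 8, 20], .l [9, 8, 1, 10, 2, 18, 9, 15, 13, 13, 11, 11, 9]]),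
([s 5 1, s 2 0, g, s 0 2, g, m 0 3, g, m 3 4, g, p 0 5, s 4 0, g, m 1 6, g, m 6 7, g, m 7 8, g, m 8 0, g], .hi 18, [.l [3, 19, 10, 2, 13, 16, 10, 10, 8, 8, 6, 6, 2], .l [15, 12, 18, 18, 16, 16, 14, 5, 2, 4, 9, 11, 5], .l [3, 19], .l [3, 17, 10, 2, 11, 14, 10, 10, 8, 8, 6, 6, 2], .l [5, 19, 10, 2, 11, 16, 12, 12, 10, 10, 8, 8, 4], .r 4667 [1, 2, 4, 5, 9] [1, 1, 3, 1, 1, 5, 1], .l [5, 19], .l [5, 17], .l [7, 19, 10, 2, 9, 7, 12, 14, 7, 7, 5, 5, 3], .l [13, 6, 18, 18, 16, 16, 14, 14, 12, 7, 2, 8, 10, 8, 1], .l [7, 19], .l [8, 1, 10, 2, 16, 9, 1, 3, 10, 1], .l [8, 1, 10, 2, 16], .l [9, 19], .y [0, 12, 14, 16, 18, 9], .l [11, 4, 2, 8, 1, 10, 2, 13], .l [15, 3, 18, 18, 16, 16, 14, 11, 13, 1, 10, 8, 1], .l [12, 19], .l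 [13, 6, 2, 10, 1, 12, 6, 6, 2, 11], .l [13, 6, 2, 10, 1, 12, 6, 6, 2, 11], .l [14, 19], .l [15, 8, 2, 12, 1, 14, 8, 8, 6, 6, 2, 9], .l [15, 8, 2, 12, 1, 14, 8, 8, 6, 6, 2, 9], .l [16, 19], .l [17, 10, 2, 14, 1, 16, 10, 10, 8, 8, 6, 6, 2, 1], .l [17, 10, 2, 14, 1, 16, 10, 10, 8, 8, 6, 6, 2, 1], .l [18, 19], .l [17, 10, 2, 14, 1, 14, 8, 8, 6, 6, 4, 4, 0, 7], .l [17, 10, 2, 14, 1, 14, 8, 8, 6, 6, 4, 4, 0, 7], .r 4668 [1, 2, 3, 4, 5, 6, 7, 8, 9] [1, 1, 1, 1, 1, 1, 1, 1, 1, 1]]),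
([s 4 1, s 2 0, g, s 0 2, g, m 0 3, g, p 0 4, s 3 0, g, m 1 5, g, m 5 6, g, m 6 7, g, m 7 0, g], .lo 5, [.l [3, 1, 9, 6, 1, 5, 2, 3], .l [15, 8, 2, 12, 3, 12, 6, 3, 8, 10, 6, 1], .l [7, 3], .l [15, 8, 2, 12, 3, 12, 6, 3, 8, 10, 6, 1], .l [15, 8, 2, 12, 1, 12, 6, 3, 6, 10, 8, 1], .l [7, 1], .r 4669 [1, 2, 8, 3, 4, 5, 6, 7] [1, 1, 1, 1, 1, 1, 1, 1, 1], .l [7, 1, 1, 7, 1, 8, 6, 1], .l [7, 1], .l [5, 6], .y [5, 8], .l [9, 4, 2, 6, 1, 8, 2, 3], .l [10, 4], .l [5, 9], .l [11, 6, 2, 8, 1, 10, 6, 6, 2, 3], .l [12, 6], .l [5, 11], .l [13, 8, 2, 10, 1, 12, 8, 8, 6, 6, 2, 3], .l [14, 8], .l [5, 13], .l [15, 10, 2, 12, 1, 14, 10, 10, 8, 8, 6, 6, 2, 3], .l [16, 10], .l [5, 15], .l [5, 15], .l [17, 12, 2, 14, 1, 11, 12, 9],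 .l [18, 12], .l [5, 17]]),
([s 4 1, s 2 0, g, s 0 2, g, m 0 3, g, p 0 4, s 3 0, g, m 1 5, g, m 5 6, g, m 6 0, g], .hi 14, [.l [3, 15, 8, 2, 9, 12, 8, 8, 6, 6, 2, 5], .l [15, 8, 2, 12, 3, 12, 6, 6, 4, 4, 0, 5], .l [3, 15], .l [3, 13, 8, 2, 7, 10, 8, 8, 6, 6, 2, 1], .l [5, 15, 8, 2, 7, 12, 10, 10, 8, 8, 4, 1], .r 4667 [1, 2, 3, 4, 7] [1, 1, 1, 1, 1, 3, 1], .l [5, 15], .l [5, 13], .l [15, 10, 4, 12, 1, 12, 8, 8, 6, 6, 0, 1], .l [6, 1, 8, 2, 12], .l [7, 15], .y [0, 10, 12, 14, 7], .l [9, 4, 2, 6, 1, 8, 2, 9], .l [9, 4, 2, 6, 1, 8, 2, 9], .l [10, 15], .l [11, 6, 2, 8, 1, 10, 6, 6, 2, 7], .l [11, 6, 2, 8, 1, 10, 6, 6, 2, 7], .l [12, 15], .l [13, 8, 2, 10, 1, 12, 8, 8, 6, 6, 2, 1], .l [13, 8, 2, 10, 1, 12, 8, 8, 6, 6,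 2, 1], .l [14, 15], .l [13, 8, 2, 10, 1, 10, 6, 6, 4, 4, 0, 5], .l [13, 8, 2, 10, 1, 10, 6, 6, 4, 4, 0, 5], .r 4670 [1, 2, 3, 4, 5, 6, 7] [1, 1, 1, 1, 1, 1, 1, 1]])]

def d18_1 : List (List Item × Qry × List Rf) := [
([s 4 1, s 2 0, g, s 0 2, g, m 0 3, g, p 0 4, s 3 0, g, m 1 5, g, m 5 0, g], .hi 12, [.l [3, 13, 6, 2, 7, 10, 6, 6, 2, 5], .l [13, 6, 2, 10, 3, 10, 4, 4, 0, 5], .l [3, 13], .l [3, 11, 6, 2, 5, 8, 6, 6, 2, 1], .l [5, 13, 6, 2, 5, 10, 8, 8, 4, 1], .r 4667 [1, 2, 3, 4, 6] [1, 1, 1, 1, 1, 1, 1], .l [5, 13], .l [5, 11], .l [13, 8, 4, 10, 1, 10, 6, 6, 0, 1], .l [6, 1, 8, 2, 10], .l [7, 13], .y [0, 10, 12, 7], .l [9, 4, 2, 6, 1, 8, 2, 7], .l [9, 4, 2, 6, 1, 8, 2, 7], .l [10, 13], .l [11, 6, 2, 8, 1, 10, 6,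 6, 2, 1], .l [11, 6, 2, 8, 1, 10, 6, 6, 2, 1], .l [12, 13], .l [11, 6, 2, 8, 1, 8, 4, 4, 0, 5], .l [11, 6, 2, 8, 1, 8, 4, 4, 0, 5], .r 4671 [1, 2, 3, 4, 5, 6] [1, 1, 1, 1, 1, 1, 1]]),
([s 4 1, s 2 0, g, s 0 2, g, m 0 3, g, p 0 4, s 3 0, g, m 1 0, g], .hi 10, [.l [3, 11, 4, 2, 5, 8, 2, 5], .l [11, 4, 2, 8, 3, 8, 0, 5], .l [3, 11], .l [3, 9, 4, 2, 3, 6, 2, 1], .l [5, 11, 4, 2, 3, 8, 4, 1], .r 4666 [1, 2, 3, 4, 5] [1, 1, 1, 1, 1, 1], .l [5, 11], .l [5, 9], .l [11, 6, 4, 8, 1, 8, 0, 1], .l [6, 1, 8, 2, 8], .l [7, 11], .y [0, 10, 7], .l [9, 4, 2, 6, 1, 8, 2, 1], .l [9, 4, 2, 6, 1, 8, 2, 1], .l [10, 11], .l [9, 4, 2, 6, 1, 6, 0, 5], .l [9, 4, 2, 6, 1, 6, 0, 5], .r 4672 [1, 2, 3, 4, 5] [1, 1, 1, 1, 1, 1]]),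
([s 5 1, s 6 0, g, s 0 2, g, m 2 3, g, m 3 4, g, p 0 5, s 4 0, g, m 1 0, g, s 0 6, g], .hi 10, [.l [3, 11, 7, 12, 4, 11], .l [7, 1, 3, 9, 3, 10, 6, 9], .l [3, 11, 7], .y [3, 5, 7, 10], .l [5, 11, 5, 12, 6, 11], .l [7, 3, 13, 6, 9, 7, 7, 4, 7, 2, 4, 5], .l [5, 11, 5], .l [7, 11, 3, 12, 8, 11], .l [5, 1, 13, 8, 11, 7, 7, 4, 7, 2, 4, 5], .l [7, 11, 3], .l [9, 11, 1, 12, 10, 11], .l [5, 1, 13, 8, 11, 9, 9, 4, 7, 2, 4, 5], .l [9, 11, 1], .l [5, 1, 11, 6, 9, 7, 7, 4, 5, 0, 2, 3], .l [12, 1, 4, 2, 8, 11], .l [9, 8, 13, 4, 1], .l [12, 1, 4, 2, 8], .l [14, 3, 6, 2, 10, 11], .l [9, 8, 11, 2, 11], .l [14, 3, 6, 2, 10], .l [14, 3, 6, 2, 10, 7], .l [16, 5, 8, 2, 12, 7], .l [9, 8, 11, 2, 13], .l [16, 5, 8, 2, 12]]),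
([s 5 1, s 7 0, g, m 0 2, g, m 2 3, g, m 3 4, g, p 0 5, s 4 0, g, m 1 0, s 0 6, g, s 6 0, g, s 0 7, g], .lo 13, [.l [9, 8, 11, 2], .l [2, 11, 8, 13, 4, 15], .l [3, 14, 10], .l [17, 1, 13, 11, 13, 14], .l [4, 7, 5, 9, 6, 11, 4, 13], .l [5, 14, 8], .l [17, 1, 11, 9, 13, 14], .l [2, 7, 13, 7, 2, 9, 9, 7, 2, 5], .l [7, 14, 6], .l [17, 1, 9, 7, 13, 14], .l [9, 14, 4, 4, 2, 9], .l [9, 14, 4], .l [17, 1, 7, 5, 13, 14], .l [9, 8, 11, 2, 10, 13], .l [12, 14, 1, 10, 8, 15], .l [12, 14, 1], .l [17, 1, 4, 2, 13, 14], .l [15, 1, 2, 0, 11, 12], .l [4, 13, 15, 7, 3, 5, 11, 7, 2, 7, 2, 5], .l [4, 13, 15, 7, 3, 5, 11, 7, 2, 7, 2, 5], .l [13, 16, 1, 14, 11, 14], .y [13, 15], .l [4, 13, 15, 7, 3, 5, 11, 7, 2, 7, 2, 5], .l [15, 1,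 16, 14, 11, 14], .l [13, 16, 1, 14, 11, 14], .l [9, 8, 15, 17, 13, 2], .l [15, 1, 18, 16, 11, 12], .l [13, 18, 3, 16, 11, 12]]),
([s 5 1, s 6 0, g, m 0 2, g, m 2 3, g, m 3 4, g, p 0 5, s 4 0, g, m 1 0, s 0 0, g, s 0 6, g], .hi 13, [.l [2, 11, 8, 13, 4, 13], .l [2, 11, 8, 13, 4], .l [3, 14, 10], .l [3, 12, 8], .l [4, 7, 5, 9, 6, 11, 4, 11], .l [4, 7, 5, 9, 6, 11, 4], .l [5, 14, 8], .l [2, 7, 13, 7, 2, 9, 9, 7, 2, 5], .l [6, 9, 7, 7, 5, 7, 4, 9, 4], .l [7, 14, 6], .l [9, 14, 4, 4, 2, 9], .l [8, 1, 10, 2, 11, 8], .l [9, 14, 4], .l [8, 1, 8, 0, 9, 8], .l [12, 14, 1, 10, 8, 13], .l [9, 8, 15, 4, 2, 4], .l [12, 14, 1], .y [13], .r 4675 [1, 2, 3, 4, 5, 7, 6] [1, 1, 1, 1, 1, 1, 1, 1], .l [4, 17, 13, 1, 14, 11, 2, 10, 8,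 9, 6, 1], .l [15, 1, 7, 2, 11, 12], .l [9, 8, 13, 13, 11, 2], .l [9, 8, 13, 15, 13, 2], .l [4, 15, 11, 1, 12, 9, 2, 8, 6, 7, 4, 7], .l [9, 8, 13, 15, 13, 2]]),
([s 3 1, s 7 0, g, m 0 2, g, p 4 3, s 2 4, g, m 1 0, g, m 0 5, g, m 5 6, g, m 6 0, g, s 0 7, g], .hi 1, [.l [13, 8, 2, 10, 1, 10, 6, 12, 3, 8, 1, 8, 6, 3], .l [7, 6, 1], .R 4578 [3, 8] [1, 3, 12], .l [1, 15, 12, 2, 11, 9, 10, 7], .l [7, 6, 3, 8, 2, 5], .l [7, 6, 3], .l [1, 17, 14, 4, 13, 11, 12, 7], .l [1, 7, 2, 0, 3, 6, 2, 11], .l [5, 4, 6], .l [14, 16, 15, 15, 13, 6, 0, 8, 5, 3, 5, 5, 1], .l [9, 6, 2, 6, 14, 10, 1, 10, 8, 9], .l [5, 4, 8], .l [13, 10, 2, 10, 14, 10, 12, 1, 3, 6, 1, 6, 4, 1], .l [14, 9, 0, 12, 7, 7, 5, 5, 3, 1, 5, 5, 3], .l [11, 8, 2, 8,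 14, 8, 1, 8, 6, 9], .l [5, 4, 10], .l [16, 11, 0, 14, 7, 9, 7, 7, 5, 1, 7, 7, 5], .l [13, 10, 2, 10, 14, 6, 1, 6, 4, 9], .l [5, 4, 12], .l [9, 4, 0, 4, 3, 11, 5, 6, 10, 6, 6, 4, 1], .l [15, 12, 2, 12, 14, 4, 1, 4, 2, 9], .l [5, 4, 14], .l [11, 8, 2, 8, 9, 6, 12, 3, 8, 1, 8, 6, 3], .y [1, 16], .l [15, 12, 2, 12, 14, 4, 1, 4, 2, 9], .l [5, 4, 16], .l [11, 8, 2, 8, 9, 6, 14, 5, 10, 1, 10, 8, 5]]),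
([s 4 1, s 7 0, g, m 0 2, g, m 2 3, g, p 5 4, s 3 5, g, m 1 0, m 0 6, g, m 6 0, g, s 0 7, g], .hi 13, [.l [3, 14, 14, 12, 8], .l [6, 3, 13, 13, 11, 5, 2], .l [3, 14], .l [3, 12], .l [5, 14, 14, 12, 6], .l [6, 1, 13, 13, 11, 5, 2], .l [5, 14], .l [7, 14, 14, 12, 4], .l [7, 0, 14, 14, 12, 4, 4, 2, 7], .l [7, 14], .l [10, 14, 14, 12, 1], .l [7, 6, 15, 6, 4, 4, 2, 4], .l [10, 14], .y [11, 13], .l [12, 7, 2, 9, 13, 6, 1, 6, 4, 1], .l [7, 6, 15, 3, 1, 7, 0, 7, 6, 6, 4, 1], .l [13, 14], .l [12, 7, 2, 9, 13, 6, 1, 6, 4, 1], .l [1, 16, 9, 0, 12, 7, 1, 3, 8, 8, 6, 3], .r 4677 [1, 3, 4, 5, 6, 8, 7] [3, 1, 1, 0, 1, 1, 1, 1], .l [7, 6, 13, 13, 11, 11, 9, 2], .l [7, 6, 13, 15, 13, 13, 11, 2], .l [12, 7, 2, 9, 11, 4, 1, 4, 2,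 9], .l [7, 6, 13, 15, 13, 13, 11, 2]]),
([s 5 1, s 8 0, g, m 0 2, g, m 2 3, g, m 3 4, g, p 6 0, g, p 0 5, s 4 6, g, m 1 0, m 0 7, g, m 7 0, g, s 0 8, g], .hi 9, [.l [11, 7, 15, 4, 7, 4, 7, 2, 4, 13], .l [6, 11, 7, 3, 7, 3, 8, 2, 6], .l [11, 7], .y [3, 5, 7, 12, 9], .l [11, 5, 7, 5, 5, 3, 3, 7, 1, 8, 6, 11], .l [17, 6, 2, 15, 18, 10, 4, 12, 7, 1, 8, 5], .l [11, 5], .l [11, 3, 5, 3, 3, 9, 1, 10, 8, 13], .l [17, 6, 2, 15, 18, 10, 4, 10, 5, 1, 6, 3], .l [11, 3], .l [11, 1, 3, 11, 1, 12, 10, 15], .l [10, 14, 10, 7, 10, 12, 2, 9, 6], .l [11, 1], .l [10, 3, 12, 2, 8, 1, 8, 10, 6, 13], .l [9, 10], .l [11, 1], .l [9, 10], .l [13, 4, 2, 10, 17, 11, 1, 6, 2, 3], .l [9, 13], .l [14, 4], .l [15, 5], .l [9, 16, 18, 16, 4], .l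 [9, 16], .l [17, 7], .l [18, 11, 4, 15, 17, 6, 1, 6, 2, 3], .l [9, 18], .l [19, 9], .l [15, 6, 2, 13, 16, 10, 4, 14, 9, 1, 10, 7], .l [21, 11, 4, 19, 9, 18, 2, 13], .l [9, 20], .l [21, 11]]),
([s 5 1, s 7 0, g, m 0 2, g, m 2 3, g, m 3 4, g, p 0 5, s 4 0, g, m 1 0, m 0 6, g, m 6 0, g, s 0 7, g], .hi 10, [.l [3, 11, 7, 12, 4, 15], .l [6, 12, 8, 3, 8, 4, 2, 4, 7, 2, 3], .l [3, 11, 7], .y [3, 5, 7, 10], .l [5, 11, 5, 1, 6, 8, 3, 8, 2, 11], .l [8, 12, 8, 5, 8, 10, 2, 7, 4], .l [5, 11, 5], .l [7, 11, 3, 12, 8, 15], .l [15, 6, 2, 13, 16, 10, 4, 10, 5, 1, 6, 3], .l [7, 11, 3], .l [9, 11, 1, 12, 10, 15], .r 4679 [1, 2, 3, 4, 5, 8, 6, 7] [1, 1, 1, 1, 1, 1, 1, 1, 1], .l [9, 11, 1], .r 4678 [1, 3, 4, 5, 8, 6, 7] [3, 1, 1,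 1, 1, 1, 1], .l [12, 1, 4, 2, 8, 14], .l [9, 8, 13, 4, 1], .l [12, 1, 4, 2, 8], .l [13, 2, 5, 2, 9], .l [9, 8, 11, 2, 12, 14, 12, 13], .l [9, 8, 11, 2, 12], .l [15, 4, 7, 2, 11], .l [17, 6, 9, 2, 13, 14], .l [9, 8, 11, 2, 14], .l [17, 6, 9, 2, 13], .l [17, 6, 9, 2, 13, 10], .l [19, 8, 11, 2, 15, 10], .l [9, 8, 11, 2, 16], .l [19, 8, 11, 2, 15]]),
([s 5 1, s 6 0, g, m 0 2, g, m 2 3, g, m 3 4, g, p 0 5, s 4 0, g, m 1 0, m 0 0, g, s 0 6, g], .hi 13, [.l [3, 14, 10], .l [8, 5, 13, 5, 2], .l [3, 14], .l [3, 12], .l [5, 14, 8], .l [8, 3, 13, 5, 2], .l [5, 14], .l [7, 14, 6], .l [8, 1, 13, 5, 2], .l [7, 14], .l [9, 14, 4], .l [9, 0, 14, 4, 4, 2, 9], .l [9, 14], .l [9, 8, 13, 5, 3, 2], .l [12, 14, 1], .l [9, 8, 15, 4,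 2, 4], .l [12, 14], .y [13], .l [4, 17, 13, 1, 14, 11, 2, 10, 8, 9, 6, 1], .l [4, 17, 13, 1, 14, 11, 2, 10, 8, 9, 6, 1], .r 4680 [1, 2, 3, 4, 5, 7, 6] [1, 1, 1, 1, 1, 1, 1, 1], .l [9, 8, 13, 13, 11, 2], .l [9, 8, 13, 15, 13, 2], .l [4, 15, 11, 1, 12, 9, 2, 8, 6, 7, 4, 7], .l [9, 8, 13, 15, 13, 2]]),
([s 5 1, s 8 0, g, m 0 2, g, m 2 3, g, m 3 4, g, p 0 5, s 4 0, g, p 6 0, g, m 1 0, p 7 6, g, p 0 7, g, s 0 8, g], .lo 17, [.l [1, 16, 16, 14, 12], .l [3, 18, 18, 16, 12], .l [3, 18], .l [8, 5, 17, 17, 15, 7, 2], .l [5, 18, 18, 16, 10], .l [5, 18], .l [8, 3, 17, 17, 15, 7, 2], .l [7, 18, 18, 16, 8], .l [7, 18], .l [8, 1, 17, 17, 15, 7, 2], .l [9, 18, 18, 16, 6], .l [9, 18], .l [9, 0, 18, 18, 16, 6, 6, 4, 11], .l [9,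 8, 13, 4, 14], .l [12, 18, 18, 16, 3], .l [12, 18], .l [9, 8, 19, 8, 6, 6, 4, 6], .y [12, 17, 15], .l [14, 18, 18, 16, 1], .l [14, 18], .l [9, 8, 19, 6, 4, 4, 2, 6], .l [9, 8, 17, 4, 2, 2, 0, 4], .l [9, 16, 19, 17, 4, 10, 10, 8, 8, 6, 11, 6, 8, 4, 1], .l [17, 18], .l [9, 16, 19, 17, 4, 10, 10, 8, 8, 6, 11, 6, 8, 4, 1], .l [9, 16, 17, 15, 4, 10, 10, 8, 8, 6, 9, 4, 6, 2, 7], .l [16, 4, 9, 16, 9, 7, 16, 12, 8, 10, 5, 7, 3, 8, 4, 5], .l [9, 16, 17, 15, 4, 10, 10, 8, 8, 6, 9, 4, 6, 2, 7], .l [9, 8, 17, 19, 17, 17, 15, 4], .l [9, 8, 17, 19, 17, 17, 15, 4], .l [9, 16, 17, 15, 4, 10, 10, 8, 8, 6, 9, 4, 6, 2, 9]]),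
([s 5 1, s 7 0, g, m 0 2, g, m 2 3, g, m 3 4, g, p 0 5, s 4 0, g, m 1 0, p 6 0, g, p 0 6, g, s 0 7, g], .hi 13, [.l [6, 15, 11, 3, 11, 13, 11, 7, 2, 7, 2], .l [5, 15, 12, 4, 12, 14, 12, 7, 12, 3, 8, 4, 2], .l [15, 11], .l [13, 9], .l [7, 15, 12, 14, 12, 4, 10, 12, 10, 5, 5, 2, 5], .l [7, 15, 12, 6, 12, 14, 12, 7, 7, 2, 7], .l [15, 9], .l [5, 9, 8, 14, 7, 1, 10, 12, 7, 8, 8, 2, 3], .l [6, 15, 11, 5, 12, 14, 11, 5, 8, 10, 7, 2, 7], .l [15, 7], .l [15, 5, 18, 4, 12, 9], .l [2, 7, 0, 10, 4, 15, 8, 1, 11, 6, 9, 5, 2, 5], .l [15, 5], .l [2, 7, 0, 8, 2, 13, 8, 1, 9, 4, 7, 3, 0, 3], .l [15, 2, 5, 15, 11, 8, 8, 12, 9, 9, 7, 7, 5], .r 4682 [1, 2, 3, 4, 5, 8, 6, 7] [1, 1, 1, 1, 1, 1, 1, 1, 1], .l [15, 2], .l [15, 1, 16, 14,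 11], .l [13, 14], .l [15, 1], .y [13, 15], .l [4, 13, 15, 7, 3, 5, 11, 7, 2, 7, 2], .l [13, 16], .l [17, 3], .l [4, 13, 15, 7, 3, 5, 11, 7, 2, 7, 2], .l [4, 13, 17, 9, 3, 5, 13, 9, 1, 3, 7, 2], .l [13, 18], .l [19, 5]]),
([s 5 1, s 6 0, g, m 0 2, g, m 2 3, g, m 3 4, g, p 0 5, s 4 0, g, m 1 0, p 0 0, g, s 0 6, g], .lo 13, [.l [1, 12, 10], .l [3, 14, 10], .l [3, 14], .l [8, 5, 13, 5, 2], .l [5, 14, 8], .l [5, 14], .l [8, 3, 13, 5, 2], .l [7, 14, 6], .l [7, 14], .l [8, 1, 13, 5, 2], .l [9, 14, 4], .l [9, 14], .l [9, 0, 14, 4, 4, 2, 9], .l [9, 8, 11, 2, 10], .l [12, 14, 1], .l [12, 14], .l [9, 8, 15, 4, 2, 4], .l [9, 8, 13, 2, 0, 2], .y [13], .l [4, 17, 13, 1, 14, 11, 2, 10, 8, 9, 6, 1], .r 4683 [1, 2, 3, 4, 5, 7,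 6] [1, 1, 1, 1, 1, 1, 1, 1], .l [4, 17, 13, 1, 14, 11, 2, 10, 8, 9, 6, 1], .l [9, 8, 13, 15, 13, 2], .l [9, 8, 13, 15, 13, 2], .l [4, 15, 11, 1, 12, 9, 2, 8, 6, 7, 4, 7]]),
([s 5 1, s 6 0, g, m 0 2, g, m 2 3, g, m 3 4, g, p 0 5, s 4 0, g, m 1 0, g, s 0 6, g], .top 13, [.l [9, 8, 11, 2], .r 4676 [1, 2, 3, 4, 5, 6] [1, 1, 1, 1, 1, 1, 1], .r 4684 [1, 2, 3, 4, 5, 6] [1, 1, 1, 1, 1, 1, 1], .r 4681 [1, 2, 3, 4, 5, 6] [1, 1, 1, 1, 1, 1, 1]]),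
([s 4 1, s 5 0, g, m 0 2, g, m 2 3, g, p 0 4, s 3 0, g, m 1 0, g, s 0 5, g], .lo 3, [.R 4578 [4, 6] [1, 3, 6], .r 4674 [1, 6, 2, 3, 4, 5] [1, 1, 1, 1, 1, 1, 1], .l [5, 1], .r 4685 [1, 6, 2, 3, 4, 5] [1, 1, 1, 1, 1, 1, 1], .l [5, 1, 11, 6, 1, 7, 9, 7, 2, 3], .l [5, 1], .l [3, 4], .l [3, 6, 1, 7, 4, 9], .l [7, 3], .l [3, 6], .y [3, 5, 8], .l [3, 9, 4, 2, 3, 8, 4, 7], .l [10, 6], .l [3, 9], .l [3, 9], .l [3, 11, 6, 2, 5, 3, 6, 8, 6, 1], .l [12, 8], .l [3, 11], .l [14, 10, 10, 8, 4, 9, 3, 8, 2, 5], .l [14, 10], .l [3, 13]]),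
([s 4 1, s 5 0, g, s 0 2, g, m 2 3, g, p 0 4, s 3 0, g, m 1 0, g, s 0 5, g], .hi 8, [.l [3, 9, 5, 10, 4, 9], .l [7, 1, 3, 7, 1, 8, 6, 7], .l [3, 9, 5], .y [3, 5, 8], .l [5, 9, 3, 10, 6, 9], .l [7, 3, 11, 4, 7, 4, 7, 2, 4, 5], .l [5, 9, 3], .l [7, 9, 1, 10, 8, 9], .l [5, 1, 11, 6, 9, 4, 7, 2, 4, 5], .l [7, 9, 1], .l [5, 1, 9, 4, 7, 4, 5, 0, 2, 3], .l [10, 1, 4, 2, 6, 9], .l [7, 6, 11, 4, 1], .l [10, 1, 4, 2, 6], .l [12, 3, 6, 2, 8, 9], .l [7, 6, 9, 2, 9], .l [12, 3, 6, 2, 8], .l [12, 3, 6, 2, 8, 5], .l [14, 5, 8, 2, 10, 5], .l [7, 6, 9, 2, 11], .l [14, 5, 8, 2, 10]]),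
([s 3 1, s 4 0, g, m 0 2, g, p 0 3, s 2 0, g, m 1 0, g, s 0 4, g], .lo 3, [.l [1, 9, 6, 2, 5, 3, 4, 1], .r 4687 [1, 5, 2, 3, 4] [1, 1, 1, 1, 1, 1], .l [5, 1], .r 4686 [1, 5, 2, 3, 4] [1, 1, 1, 1, 1, 1], .l [5, 1, 1, 5, 1, 6, 4, 5], .l [5, 1], .l [3, 4], .y [3, 6], .l [2, 3, 6, 8, 2, 5, 2, 5], .l [8, 4], .l [3, 7], .l [3, 7], .l [10, 6, 9, 4, 9, 5, 2, 5], .l [10, 6], .l [3, 9], .l [12, 8, 4, 9, 3, 8, 2, 5], .l [12, 8], .l [3, 11]]),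
([s 4 1, s 6 0, g, p 2 0, g, p 3 2, g, p 0 3, p 5 0, g, p 0 4, s 0 5, g, m 1 0, g, p 0 6, g], .lo 11, [.l [1, 10, 8, 3, 4, 3, 9, 2, 4, 3, 8, 4, 1], .r 4579 [1, 7, 4] [1, 8, 1, 3], .l [3, 12, 8], .l [5, 2, 12, 6, 9, 7, 11, 6, 2, 8, 3], .l [3, 10, 6], .l [5, 12, 6, 1, 7, 9, 4, 1], .l [5, 12, 6], .l [4, 12, 7, 11, 1, 7, 11, 6, 2, 8, 3], .l [7, 12, 12, 9, 6], .l [7, 12, 4], .l [6, 12, 5, 11, 11, 2, 8], .y [8, 11], .r 4579 [1, 7, 4] [8, 1, 1, 3], .l [10, 12, 1], .l [5, 7, 6, 16, 12, 2, 13, 8, 2, 8, 5, 7, 5], .r 4665 [1, 4, 7] [8, 1, 1, 3], .l [13, 1, 4, 2, 10], .l [10, 9, 14, 4, 1], .l [10, 9, 12, 2, 1], .l [15, 3, 16, 2, 13, 4, 2, 11], .l [15, 3, 6, 2, 12], .l [10, 9, 12, 2, 12], .l [4, 15, 11, 1, 12, 14, 8, 4, 9,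 4, 6, 3], .l [17, 5, 8, 2, 14], .l [10, 9, 12, 2, 14]]),
([s 3 1, s 5 0, g, p 2 0, g, p 0 2, p 4 0, g, p 0 3, s 0 4, g, m 1 0, g, p 0 5, g], .hi 3, [.l [5, 1, 14, 10, 12, 9, 2, 9], .r 4689 [1, 6, 2, 3, 4, 5] [1, 1, 1, 1, 1, 1, 1], .l [5, 1], .l [15, 9, 12, 10, 2, 11, 4, 1], .l [3, 4], .l [5, 1], .y [3, 5], .l [8, 4, 4, 2, 7], .l [3, 7], .l [8, 4], .l [3, 7], .l [3, 8, 4], .l [11, 7, 7, 5, 2], .l [3, 10], .l [11, 7], .l [13, 9, 9, 7, 2], .l [3, 12], .l [13, 9], .l [3, 12], .l [15, 11, 11, 9, 2], .l [3, 14], .l [15, 11]]),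
([s 2 1, s 4 0, g, p 0 0, p 3 0, g, p 0 2, s 0 3, g, m 1 0, g, p 0 4, g], .hi 3, [.l [13, 7, 2, 11, 4, 1], .r 4690 [1, 5, 2, 3, 4] [1, 1, 1, 1, 1, 1], .l [5, 1], .y [3], .l [6, 2, 7], .l [3, 5], .l [6, 2], .l [3, 5], .l [3, 6, 2], .l [9, 5, 2], .l [3, 8], .l [9, 5], .l [11, 7, 2], .l [3, 10], .l [11, 7], .l [3, 10], .l [13, 9, 2], .l [3, 12], .l [13, 9]]),
([s 3 1, s 5 0, g, m 0 2, g, m 2 0, p 4 0, g, p 0 3, s 0 4, g, m 1 0, g, p 0 5, g], .hi 5, [.l [3, 6, 14, 7, 2, 9, 2, 9], .l [4, 1, 5, 8, 5, 10, 4, 6, 3], .l [3, 6], .y [3, 5], .l [15, 10, 1, 11, 9, 2, 10, 3], .l [8, 3, 1, 4, 2, 7, 1], .l [5, 6], .l [4, 13, 8, 2, 7, 2, 4, 7], .l [4, 5, 3, 12, 9, 3, 8, 2, 5], .l [6, 13, 6, 1, 9, 12, 8, 2, 4, 7], .l [4, 5, 3, 10,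 7, 3, 6, 2, 3], .l [4, 8, 3, 7, 7, 0, 4], .l [8, 11, 7, 12, 7, 2, 8, 10, 8, 1], .l [10, 5, 9, 5, 2, 7, 4], .l [6, 11, 9, 12, 7, 7, 5, 2, 7], .l [4, 8, 3, 11, 5, 9, 6, 10, 6, 7], .l [12, 7, 11, 7, 4, 9, 4], .l [8, 13, 9, 12, 7, 4, 8], .l [12, 7, 11, 7, 4, 9, 4], .l [4, 8, 3, 13, 7, 11, 8, 1, 4, 1], .l [14, 9, 13, 9, 2, 8, 3], .l [8, 15, 11, 14, 9, 6, 10]]),
([s 2 1, s 4 0, g, m 0 0, p 3 0, g, p 0 2, s 0 3, g, m 1 0, g, p 0 4, g], .lo 3, [.l [11, 9, 9, 7, 2], .l [13, 7, 2, 11, 4, 1], .l [5, 1], .r 4692 [1, 5, 2, 3, 4] [1, 1, 1, 1, 1, 1], .y [3], .l [4, 0], .l [6, 2, 7], .l [6, 2], .l [3, 5], .l [9, 5, 2], .l [9, 5], .l [3, 8], .l [3, 8], .l [11, 7, 2], .l [11, 7], .l [3, 10], .l [13, 9, 2], .l [13, 9], .l [3, 12]]),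
([s 2 1, s 0 0, g, s 4 0, p 3 0, g, p 0 2, s 0 3, g, m 1 0, g, m 0 4, g], .hi 1, [.y [1], .l [8, 7, 1, 4, 8, 2, 6, 7], .l [8, 7, 1], .R 4578 [2, 5] [1, 4, 6], .l [8, 7, 4, 9, 2, 6], .l [8, 7, 4], .l [6, 2, 8, 1, 9, 7, 2, 7], .l [6, 5, 4], .l [6, 5, 5, 5, 2, 7], .l [9, 5, 2, 7, 2, 9], .l [6, 5, 7], .l [9, 5, 2, 7, 2, 9], .l [11, 7, 2, 9, 2, 9], .l [6, 5, 9], .l [11, 7, 2, 9, 2, 9], .r 4664 [1, 5, 2] [4, 2, 1, 1], .l [1, 12, 1, 7, 2, 7], .l [6, 5, 11], .r 4664 [1, 5, 2] [4, 2, 3, 1]]),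
([s 3 1, s 5 0, g, m 0 2, g, s 2 0, p 4 0, g, p 0 3, s 0 4, g, m 1 0, g, p 0 5, g], .hi 5, [.l [15, 7, 2, 13, 6, 3], .l [15, 10, 1, 11, 9, 2, 10, 3], .l [15, 7, 2, 13, 6, 3], .y [3, 5], .l [15, 7, 2, 13, 6, 1], .l [15, 10, 1, 11, 9, 2, 10, 3], .l [15, 7, 2, 13, 6, 1], .l [8, 2, 9, 1], .l [4, 13, 8, 2, 7, 2, 4, 7], .l [8, 2, 9], .l [4, 11, 6, 2, 5, 2, 2, 5], .l [8, 7, 10, 2, 4, 3], .l [11, 5, 2, 8], .l [4, 13, 8, 10, 4, 8, 2, 4], .l [11, 5, 2], .l [13, 7, 2, 10], .l [4, 8, 3, 11, 5, 9, 6, 10, 6, 7], .l [13, 7, 2], .l [4, 8, 3, 11, 5, 9, 6, 8, 4, 5], .l [15, 9, 2, 12], .l [4, 8, 3, 13, 7, 11, 8, 1, 4, 1], .l [15, 9, 2]]),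
([s 2 1, s 4 0, g, s 0 0, p 3 0, g, p 0 2, s 0 3, g, m 1 0, g, p 0 4, g], .lo 3, [.l [11, 9, 9, 7, 2, 7], .l [13, 7, 2, 11, 4, 1], .l [13, 7, 2, 11, 4, 1], .r 4695 [1, 5, 2, 3, 4] [1, 1, 1, 1, 1, 1], .y [3], .l [4, 0, 5], .l [6, 2, 7, 1], .l [6, 2, 7], .l [13, 9, 4, 11, 2, 7], .l [9, 5, 2, 6], .l [9, 5, 2], .l [13, 11, 12, 2, 4, 8, 2, 4], .l [11, 9, 10, 2, 2, 6, 2, 4], .l [11, 7, 2, 8], .l [11, 7, 2], .r 4694 [1, 2, 3, 5] [1, 1, 1, 1, 3], .l [13, 9, 2, 10], .l [13, 9, 2], .l [11, 7, 2, 9, 2, 9]]),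
([s 2 1, s 4 0, g, p 3 0, g, p 0 2, s 0 3, g, m 1 0, g, p 0 4, g], .bot 2, [.l [9, 7, 2], .r 4696 [1, 2, 3, 4] [1, 1, 1, 1, 1], .r 4691 [1, 2, 3, 4] [1, 1, 1, 1, 1], .r 4693 [1, 2, 3, 4] [1, 1, 1, 1, 1]]),
([s 3 1, s 5 0, g, p 2 0, g, p 0 2, p 4 3, s 0 4, g, m 1 0, g, p 0 5, g], .lo 5, [.l [6, 5, 3], .l [3, 6, 12, 5, 0, 7, 2, 7], .l [3, 6], .l [4, 1, 5, 6, 3, 8, 4, 4, 1], .y [3, 5], .l [13, 8, 1, 9, 7, 0, 8, 3], .l [5, 6], .l [8, 7, 10, 2, 5, 1, 6, 4, 1], .l [6, 9, 7, 10, 5, 2, 6, 8, 6, 1], .l [6, 9, 7, 8, 3, 2, 4], .l [8, 3, 7, 5, 2, 5, 2], .l [8, 3, 7, 5, 2, 5, 2], .l [4, 6, 1, 9, 5, 7, 4, 8, 4, 5], .l [6, 11, 9, 10, 5, 4, 6], .l [10, 5, 9, 7, 4, 7, 2], .l [4, 6, 1, 11, 7, 9, 6, 1, 4, 1], .l [6, 13, 11, 12, 7,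 6, 8], .l [12, 7, 11, 9, 2, 8, 3]]),
([s 2 1, s 4 0, g, p 0 0, p 3 2, s 0 3, g, m 1 0, g, p 0 4, g], .hi 3, [.l [11, 5, 0, 9, 4, 1], .r 4698 [1, 5, 2, 3, 4] [1, 1, 1, 1, 1], .l [5, 1], .y [3], .l [3, 4, 0], .l [7, 3, 0], .l [3, 6], .l [7, 3], .l [9, 5, 0], .l [3, 8], .l [9, 5], .l [3, 8], .l [11, 7, 0], .l [3, 10], .l [11, 7]]),
([s 3 1, s 5 0, g, m 0 2, g, m 2 0, p 4 3, s 0 4, g, m 1 0, g, p 0 5, g], .hi 5, [.l [3, 6, 12, 5, 0, 7, 2, 7], .l [4, 1, 5, 6, 3, 8, 4, 4, 1], .l [3, 6], .y [3, 5], .l [13, 8, 1, 9, 7, 0, 8, 3], .l [8, 7, 10, 2, 5, 1, 6, 4, 1], .l [5, 6], .l [4, 6, 1, 5, 5, 0, 2], .l [6, 9, 7, 10, 5, 2, 6, 8, 6, 1], .l [8, 3, 7, 5, 2, 5, 2], .l [6, 9, 7, 8, 3, 2, 4], .l [4, 6, 1, 9, 5, 7, 4, 8, 4, 5],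 .l [10, 5, 9, 7, 4, 7, 2], .l [6, 11, 9, 10, 5, 4, 6], .l [10, 5, 9, 7, 4, 7, 2], .l [4, 6, 1, 11, 7, 9, 6, 1, 4, 1], .l [12, 7, 11, 9, 2, 8, 3], .l [6, 13, 11, 12, 7, 6, 8]]),
([s 2 1, s 4 0, g, m 0 0, p 3 2, s 0 3, g, m 1 0, g, p 0 4, g], .lo 3, [.l [9, 7, 7, 5, 0], .l [11, 5, 0, 9, 4, 1], .l [5, 1], .r 4700 [1, 5, 2, 3, 4] [1, 1, 1, 1, 1], .y [3], .l [7, 3, 0], .l [7, 3], .l [3, 6], .l [3, 6], .l [9, 5, 0], .l [9, 5], .l [3, 8], .l [11, 7, 0], .l [11, 7], .l [3, 10]]),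
([s 1 0, s 4 0, g, s 3 0, p 2 1, s 0 2, g, m 0 3, g, p 0 4, g], .hi 1, [.l [9, 0, 3, 0, 6, 1], .l [6, 5, 1], .l [11, 9, 3, 6, 2, 0, 6, 3], .l [4, 3, 3, 3, 2, 3], .l [7, 5, 10, 4, 6, 4, 6, 1], .l [4, 3, 5], .l [7, 5, 10, 4, 6], .l [7, 5, 8, 2, 4], .l [1, 8, 1, 3, 0, 3], .l [4, 3, 7], .l [9, 7, 10, 2, 6], .y [1, 9], .l [1, 10, 3, 5, 0, 5], .l [4, 3, 9], .l [9, 7, 10, 2, 6]]),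
([s 3 1, s 5 0, g, m 0 2, g, s 2 0, p 4 3, s 0 4, g, m 1 0, g, p 0 5, g], .hi 5, [.l [13, 5, 0, 11, 6, 3], .l [13, 8, 1, 9, 7, 0, 8, 3], .l [13, 5, 0, 11, 6, 3], .y [3, 5], .l [13, 5, 0, 11, 6, 1], .l [13, 8, 1, 9, 7, 0, 8, 3], .l [13, 5, 0, 11, 6, 1], .l [6, 5, 8, 2, 2, 1], .l [9, 3, 0, 6], .l [4, 11, 6, 8, 4, 6, 0, 2], .l [9, 3, 0], .l [11, 5, 0, 8], .l [4, 6, 1, 9, 5, 7, 4, 8, 4, 5], .l [11, 5, 0], .l [4, 6, 1, 9, 5, 7, 4, 6, 2, 3], .l [13, 7, 0, 10], .l [4, 6, 1, 11, 7, 9, 6, 1, 4, 1], .l [13, 7, 0]]),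
([s 2 1, s 4 0, g, s 0 0, p 3 2, s 0 3, g, m 1 0, g, p 0 4, g], .lo 3, [.l [9, 7, 7, 5, 0, 5], .l [11, 5, 0, 9, 4, 1], .l [11, 5, 0, 9, 4, 1], .r 4703 [1, 5, 2, 3, 4] [1, 1, 1, 1, 1], .y [3], .l [7, 3, 0, 4], .l [7, 3, 0], .l [11, 9, 10, 2, 4, 6, 0, 2], .l [9, 7, 8, 2, 2, 4, 0, 2], .l [9, 5, 0, 6], .l [9, 5, 0], .r 4702 [2, 3, 5, 4] [1, 3, 1, 1], .l [11, 7, 0, 8], .l [11, 7, 0], .l [9, 5, 0, 7, 2, 7]]),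
([s 2 1, s 4 0, g, p 3 2, s 0 3, g, m 1 0, g, p 0 4, g], .bot 2, [.l [7, 5, 0], .r 4704 [1, 2, 3, 4] [1, 1, 1, 1], .r 4699 [1, 2, 3, 4] [1, 1, 1, 1], .r 4701 [1, 2, 3, 4] [1, 1, 1, 1]]),
([s 2 1, s 4 0, g, p 0 2, s 0 3, g, m 1 0, g, m 3 0, g, p 0 4, g], .hi 1, [.l [12, 10, 6, 9, 3, 8, 2, 5], .l [5, 4, 1], .l [12, 10, 11, 7, 2, 6, 7], .l [3, 2, 1], .l [1, 3, 1, 6, 3, 6, 2, 3], .l [6, 4, 11, 6, 8, 3], .l [3, 2, 4], .l [6, 4, 11, 6, 8], .l [8, 6, 11, 4, 8, 5], .l [3, 2, 6], .l [8, 6, 11, 4, 8], .l [10, 8, 9, 4, 9, 5, 2, 5], .l [3, 2, 8], .l [10, 8, 11, 2, 8], .y [1, 10], .l [10, 8, 9, 4, 9, 5, 2, 5], .l [3, 2, 10], .l [10, 8, 11, 2, 8]]),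
([s 2 1, s 4 0, g, p 0 2, s 0 3, g, m 1 0, g, p 0 4, g, m 3 0, g], .lo 4, [.l [1, 3, 1, 8, 5, 1, 4, 1], .l [3, 5, 1, 10, 5, 1, 6, 3], .l [3, 5, 1], .l [12, 5, 8, 2, 8], .l [12, 7, 11, 7, 9, 5, 2, 5], .l [6, 1, 11, 9, 2], .l [3, 2, 7, 4, 1], .l [3, 2, 5, 2, 1], .l [8, 3, 9, 2, 6, 8, 6, 3], .l [8, 3, 11, 7, 2], .l [3, 2, 5, 2, 5], .l [10, 5, 11, 5, 2, 5], .l [10, 5, 11, 5, 2], .l [3, 2, 5, 2, 7], .y [4, 10], .l [10, 5, 11, 5, 2, 5], .l [10, 5, 11, 5, 2], .l [3, 2, 5, 2, 9]]),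
([s 2 1, s 5 0, g, p 0 2, s 4 3, g, m 3 0, g, m 1 0, g, s 0 4, g, p 0 5, g], .hi 1, [.l [5, 4, 1, 8, 4, 7], .l [5, 4, 1], .l [14, 12, 13, 9, 4, 8, 9], .l [3, 2, 1], .l [6, 4, 13, 8, 10, 3], .l [3, 2, 4], .l [6, 4, 13, 8, 10], .l [8, 6, 13, 6, 10, 5], .l [3, 2, 6], .l [8, 6, 13, 6, 10], .l [10, 8, 13, 4, 10, 7], .l [3, 2, 8], .l [10, 8, 13, 4, 10], .l [10, 8, 11, 2, 8, 5], .l [12, 10, 13, 2, 10, 5], .l [3, 2, 10], .l [12, 10, 13, 2, 10], .y [1, 12], .l [6, 1, 9, 7, 2, 9], .l [3, 2, 12], .l [12, 10, 13, 2, 10]]),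
([s 2 1, s 4 0, g, p 0 2, s 5 3, g, m 3 0, g, m 1 0, g, p 0 4, g, s 0 5, g], .hi 1, [.l [5, 4, 1, 8, 4, 9], .l [5, 4, 1], .l [12, 10, 11, 7, 10, 1, 2, 3], .l [3, 2, 1], .l [6, 4, 11, 6, 8, 9], .l [3, 2, 4], .l [6, 4, 11, 6, 8], .l [8, 6, 11, 4, 8, 9], .l [3, 2, 6], .l [8, 6, 11, 4, 8], .l [10, 8, 11, 2, 8, 9], .l [3, 2, 8], .l [10, 8, 11, 2, 8], .y [1, 10], .l [6, 1, 13, 11, 2, 7], .l [3, 2, 10], .l [10, 8, 11, 2, 8], .l [4, 11, 11, 2, 9, 6, 6, 3], .l [4, 11, 13, 4, 11, 6, 8, 5], .l [3, 2, 12], .l [10, 8, 13, 4, 10]]),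
([s 2 1, s 4 0, g, p 0 2, s 0 3, g, m 3 0, g, m 1 0, g, p 0 4, g], .lo 4, [.l [4, 2, 9, 6, 6, 3], .l [6, 2, 11, 6, 8, 5], .l [3, 5, 1], .l [8, 1, 4, 2, 4], .r 4665 [1, 2, 5] [1, 1, 3, 3], .l [6, 1, 7, 5, 2], .l [3, 2, 9, 6, 1], .y [4, 6], .r 4665 [1, 2, 5] [1, 3, 1, 3], .l [6, 1, 7, 5, 2], .l [3, 2, 9, 6, 3], .l [3, 2, 7, 4, 3], .r 4708 [1, 2, 3, 5, 4] [1, 1, 1, 1, 1, 1], .l [6, 1, 9, 7, 2], .l [3, 2, 7, 4, 7], .r 4709 [1, 2, 3, 4, 5] [1, 1, 1, 1, 1, 1], .l [6, 1, 11, 9, 2], .l [3, 2, 7, 4, 9]]),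
([s 2 1, s 3 0, g, p 0 2, s 0 0, g, m 1 0, g, p 0 3, g], .hi 4, [.r 4527 [2, 4, 3] [1, 1, 3, 1], .r 4697 [1, 2, 4, 3] [1, 1, 1, 1, 1], .l [3, 5, 1], .r 4705 [1, 2, 4, 3] [1, 1, 1, 1], .y [4], .R 4517 [2, 3, 4] [1, 1, 3, 1], .l [3, 2, 7, 4, 1], .r 4710 [1, 2, 4, 3] [1, 1, 1, 1, 1], .R 4517 [2, 3, 4] [1, 3, 1, 1], .l [3, 2, 5, 2, 5], .r 4706 [1, 2, 4, 3] [1, 1, 1, 1, 1], .l [3, 2, 5, 2, 5], .R 4525 [2, 3, 4] [1, 3, 1, 1], .l [3, 2, 5, 2, 7], .r 4707 [1, 2, 4, 3] [1, 1, 1, 1, 1]]),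
([s 3 1, s 0 2, g, p 0 3, s 4 0, g, p 0 4, g, m 2 0, g, m 1 0, g], .lo 1, [.r 4610 [1, 5, 3, 4] [1, 1, 1, 3, 1], .r 4396 [2, 5] [1, 6, 3], .l [5, 4, 1], .l [4, 2, 7, 4, 4, 1], .l [6, 4, 9, 4, 6, 3], .l [6, 4, 9, 4, 6], .l [3, 2, 4], .r 4604 [1, 3, 4, 5] [1, 1, 1, 3, 1], .l [8, 6, 9, 2, 6], .l [3, 2, 6], .y [1, 8], .r 4604 [1, 3, 4, 5] [1, 1, 3, 1, 1], .l [8, 6, 9, 2, 6], .l [3, 2, 8], .l [3, 2, 8], .r 4607 [1, 3, 4, 5] [1, 1, 3, 1, 1], .l [8, 6, 11, 4, 8], .l [3, 2, 10]]),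
([s 3 1, s 0 2, g, p 0 3, s 4 0, g, m 2 0, g, m 1 0, g, s 0 4, g], .lo 1, [.l [5, 4, 1, 8, 4, 7], .l [8, 6, 7, 3, 8, 3, 4, 1], .l [5, 4, 1], .l [4, 2, 5, 2, 2, 5], .l [6, 4, 7, 2, 4, 7], .l [6, 4, 7, 2, 4], .l [3, 2, 4], .y [1, 6], .l [6, 4, 7, 2, 4, 7], .l [6, 4, 7, 2, 4], .l [3, 2, 6], .l [3, 2, 6], .l [6, 4, 9, 4, 6, 7], .l [6, 4, 9, 4, 6], .l [3, 2, 8], .l [6, 4, 11, 6, 8, 3], .l [6, 4, 11, 6, 8], .l [3, 2, 10]]),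
([s 2 1, s 0 0, g, s 3 0, g, p 0 2, s 0 3, g, m 1 0, g], .lo 1, [.y [1], .l [5, 7, 1, 8, 6, 1], .r 4578 [1, 4] [1, 6, 1], .l [5, 7, 1, 8, 6, 1], .l [3, 5, 1, 6, 4, 1], .l [3, 7, 3, 8, 4, 5], .l [3, 7, 3, 8, 4, 5], .l [7, 6, 3], .l [3, 5, 1, 8, 6, 3], .r 4527 [2, 3, 4] [1, 1, 1, 3], .l [3, 5, 1, 8, 6, 3], .l [3, 5, 1, 6, 4, 3], .l [3, 5, 1, 6, 4, 5], .r 4527 [2, 3, 4] [1, 1, 3, 1], .l [3, 5, 1, 6, 4, 5]]),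
([s 3 1, s 4 2, g, p 6 3, s 5 4, g, m 2 0, g, p 0 5, g, m 1 0, g, p 0 6, g], .lo 12, [.l [1, 5, 3, 8, 3, 6, 8, 8, 1, 6, 4, 1], .l [3, 13], .l [1, 5, 3, 8, 3, 3, 1, 5, 7, 7, 1, 5, 3], .l [6, 13, 8, 9, 7, 1, 6, 1], .l [6, 13], .l [3, 2, 2, 8, 5, 5, 1, 3, 7, 7, 3, 5, 1], .l [3, 2, 2, 6, 3, 3, 1, 1, 5, 5, 1, 3, 1], .l [8, 13, 9, 2, 9, 6, 6, 3], .l [8, 13], .l [3, 2, 2, 8, 5, 5, 3, 7, 1, 5, 5, 5, 3], .l [1, 3, 1, 6, 3, 6, 8, 8, 1, 6, 4, 1], .l [10, 13], .l [1, 3, 1, 6, 3, 6, 0, 8, 8, 1, 6, 4, 1], .y [0, 10, 12, 3], .l [11, 14, 5, 10, 3, 8, 4, 2, 1, 6, 4, 1], .l [12, 13], .l [1, 3, 1, 8, 11, 3, 8, 3, 6, 1, 6, 4, 1], .l [11, 12, 3, 8, 3, 8, 2, 3, 0, 5], .l [1, 3, 1, 6, 3, 8, 3, 8, 4, 1, 4, 0, 3], .l [1, 3, 1, 6, 3, 8,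 3, 6, 3, 6, 1, 4, 1]]),
([s 3 1, s 4 2, g, p 5 3, s 6 4, g, m 2 0, g, m 0 5, g, p 0 6, g, m 1 0, g], .hi 6, [.l [3, 7, 13, 8, 10, 1], .l [1, 5, 3, 10, 5, 5, 3, 7, 3, 5, 3, 5, 1], .l [3, 7], .l [5, 2, 8, 10, 2, 4, 1, 8, 4, 1], .l [1, 3, 1, 12, 10, 8, 7, 7, 3, 5, 1, 5, 1], .l [6, 7], .l [5, 2, 8, 10, 2, 4, 1, 8, 4, 1], .l [4, 2, 5, 2, 3, 6, 1, 3, 6, 2, 3, 5, 1], .l [3, 2, 2, 10, 7, 7, 5, 5, 3, 7, 1, 5, 3], .l [1, 3, 1, 10, 8, 6, 5, 5, 3, 3, 1, 3, 1], .l [5, 2, 6, 10, 4, 6, 1, 8, 2, 3], .l [7, 4, 6, 5, 3, 1, 4, 8, 6, 1], .l [1, 3, 1, 12, 10, 8, 7, 7, 5, 5, 1, 5, 1], .y [1, 6, 10, 4], .l [5, 2, 6, 8, 2, 4, 1, 8, 4, 1], .l [7, 4, 6, 5, 3, 1, 6, 8, 4, 1], .l [1, 3, 1, 8, 5, 5, 3, 7, 3, 5, 3, 5, 1], .l [5, 2, 6, 8, 2,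 4, 1, 6, 2, 5], .l [4, 2, 5, 2, 3, 4, 6, 2, 3, 5, 1, 3, 3], .l [1, 3, 1, 8, 5, 5, 3, 9, 5, 7, 5, 5, 3]]),
([s 3 1, s 4 2, g, p 6 3, s 5 4, g, m 2 0, g, p 0 5, g, m 0 6, g, m 1 0, g], .lo 10, [.l [1, 5, 3, 8, 3, 8, 1, 8, 4, 1], .l [12, 8], .l [1, 5, 3, 8, 3, 3, 1, 7, 1, 7, 3, 5, 1], .l [2, 12, 5, 3, 5, 10, 2, 3, 0, 5], .l [12, 5], .l [1, 3, 0, 10, 10, 4, 6, 4, 1, 5, 1, 5, 1], .l [1, 3, 0, 8, 8, 4, 4, 2, 1, 3, 1, 3, 1], .l [10, 5, 11, 7, 2, 5, 9, 7, 4, 6, 4, 1], .l [12, 3], .l [3, 2, 2, 8, 5, 5, 3, 9, 3, 7, 5, 5, 3], .l [1, 3, 1, 6, 3, 8, 1, 8, 4, 1], .l [12, 1], .l [1, 3, 1, 6, 3, 4, 6, 6, 4, 4, 5, 4, 1], .l [1, 3, 1, 6, 3, 4, 4, 6, 1, 6, 4, 1], .l [12, 1], .l [10, 11], .y [0, 12, 10, 3], .l [10, 13, 4, 5, 3, 8,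 3, 4, 6, 1, 4, 1], .l [14, 3], .l [10, 13]]),
([s 3 1, s 4 2, g, p 0 3, s 5 4, g, m 2 0, g, p 0 5, g, m 1 0, g], .lo 3, [.l [1, 5, 3, 8, 3, 6, 1, 6, 4, 1], .l [3, 4], .l [1, 5, 3, 8, 3, 6, 1, 6, 4, 1], .l [2, 10, 5, 10, 2, 3, 0, 5], .l [2, 10, 5, 10, 2, 3, 0, 5], .l [2, 12, 9, 2, 4, 7, 4], .l [2, 10, 7, 2, 2, 5, 4], .l [2, 10, 5, 10, 2, 3, 0, 3], .l [2, 10, 5, 10, 2, 3, 0, 3], .r 4716 [1, 2, 3, 4, 6, 5] [1, 1, 1, 1, 1, 1], .l [1, 3, 1, 6, 3, 6, 1, 6, 4, 1], .l [1, 3, 1, 6, 3, 6, 1, 6, 4, 1], .r 4717 [1, 2, 3, 4, 5, 6] [1, 1, 1, 1, 1, 1], .y [0, 10, 3], .l [2, 8, 3, 8, 2, 3, 0, 5], .r 4715 [1, 2, 3, 4, 5, 6] [1, 1, 1, 1, 1, 1], .l [2, 8, 3, 8, 2, 3, 0, 5]]),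
([s 3 1, s 0 2, g, p 0 3, s 4 0, g, m 2 0, g, p 0 4, g, m 1 0, g], .hi 4, [.r 4718 [1, 2, 3, 5, 4] [1, 1, 1, 1, 1], .r 4714 [1, 3, 5] [1, 1, 5, 1], .l [10, 3, 6, 2, 6], .l [3, 5, 1], .l [8, 3, 4, 0, 4], .l [5, 12, 6, 9, 2, 5], .l [3, 2, 11, 8, 1], .l [6, 1, 9, 7, 2], .l [8, 3, 9, 5, 2, 5], .l [3, 2, 11, 8, 3], .l [8, 3, 9, 5, 2], .y [4, 8], .l [8, 3, 9, 5, 2, 5], .l [3, 2, 11, 8, 5], .l [8, 3, 9, 5, 2], .l [8, 3, 11, 7, 2, 7], .l [3, 2, 9, 6, 9], .l [8, 3, 11, 7, 2]]),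
([s 4 1, s 0 2, g, m 0 3, g, p 0 4, s 3 0, g, m 2 0, g, m 1 0, g], .lo 1, [.l [10, 8, 11, 1, 7, 2, 4, 5], .l [10, 8, 11, 1, 7, 2, 4, 5], .l [7, 6, 1], .l [7, 6, 3, 10, 4, 7], .r 4396 [2, 5] [3, 4, 3], .l [7, 6, 3], .l [6, 4, 9, 3, 7, 2, 2, 3], .l [8, 6, 11, 3, 9, 2, 4, 5], .l [8, 6, 9, 2, 4], .l [5, 4, 6], .y [1, 8], .l [8, 6, 11, 3, 9, 2, 4, 5], .l [8, 6, 9, 2, 4], .l [5, 4, 8], .l [5, 4, 8], .l [8, 6, 9, 1, 7, 2, 4, 5], .l [8, 6, 11, 4, 6], .l [5, 4, 10]]),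
([s 3 1, s 0 2, g, p 0 3, s 4 0, g, m 2 0, g, m 1 0, g, p 0 4, g], .hi 4, [.l [4, 2, 7, 3, 7, 2, 2, 3], .l [6, 2, 9, 3, 9, 2, 4, 5], .l [12, 5, 8, 2, 8], .l [3, 5, 1], .l [10, 5, 6, 0, 6], .l [5, 10, 4, 7, 2, 3], .l [3, 2, 9, 6, 1], .l [6, 1, 11, 9, 2], .l [8, 3, 11, 7, 2, 7], .l [3, 2, 9, 6, 3], .l [8, 3, 11, 7, 2], .l [10, 5, 11, 5, 2, 7], .l [3, 2, 7, 4, 7], .l [10, 5, 11, 5, 2], .y [4, 10], .l [10, 5, 11, 5, 2, 7], .l [3, 2, 7, 4, 9], .l [10, 5, 11, 5, 2]]),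
([s 3 1, s 0 2, g, p 0 3, s 0 0, g, m 2 0, g, m 1 0, g], .lo 4, [.r 4579 [1, 4, 3] [1, 1, 3, 1], .l [3, 5, 1], .r 4720 [1, 2, 4, 3] [1, 1, 1, 1, 1], .y [4], .l [5, 10, 4, 7, 2, 3], .r 4712 [1, 2, 3, 4] [1, 1, 1, 1, 1], .l [3, 2, 9, 6, 1], .l [3, 2, 7, 4, 1], .r 4580 [1, 2, 3, 4] [1, 1, 1, 1, 1], .r 4719 [1, 2, 3, 4] [1, 1, 1, 1, 1], .l [3, 2, 9, 6, 3], .l [3, 2, 7, 4, 3], .r 4713 [1, 2, 3, 4] [1, 1, 1, 1, 1], .r 4721 [1, 2, 3, 4] [1, 1, 1, 1, 1], .l [3, 2, 7, 4, 7]]),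
([s 2 1, s 3 0, g, p 0 2, s 0 3, g, m 1 0, g], .hi 1, [.l [1, 5, 3, 6, 2, 3], .l [5, 4, 1], .l [1, 5, 3, 6, 2, 3], .l [3, 2, 1], .y [1, 4], .l [1, 3, 1, 6, 4, 1], .l [1, 3, 1, 6, 4, 1], .r 4722 [1, 4, 2] [1, 1, 1, 1], .l [1, 3, 1, 4, 2, 3], .l [1, 3, 1, 4, 2, 3], .r 4664 [1, 4, 2] [1, 2, 1, 1]]),
([s 3 1, s 4 0, g, m 0 2, g, p 0 3, s 2 0, g, s 0 4, g, m 1 0, g], .hi 1, [.l [1, 9, 4, 2, 5, 8, 2, 5], .l [7, 6, 1], .l [1, 9, 4, 2, 5, 8, 2, 5], .l [1, 7, 4, 2, 3, 6, 2, 3], .l [7, 6, 3, 10, 4, 7], .l [7, 6, 3], .l [1, 9, 6, 4, 5, 8, 2, 3], .l [5, 4, 3], .l [1, 9, 6, 2, 5, 8, 2, 5], .l [5, 4, 6], .l [8, 6, 11, 3, 9, 2, 4, 5], .y [1, 8], .l [1, 7, 4, 2, 3, 8, 4, 1], .l [5, 4, 8], .l [8, 6, 11, 3, 9, 2, 4, 5], .l [1, 7,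 4, 2, 3, 6, 2, 5], .l [5, 4, 10], .r 4664 [1, 5, 3] [3, 4, 1, 1]]),
([s 3 1, s 0 0, g, m 0 2, g, p 0 3, s 2 0, g, m 1 0, g], .lo 1, [.y [1], .r 4673 [1, 4, 2, 3] [1, 1, 1, 1, 1], .r 4578 [1, 4] [1, 6, 1], .l [7, 6, 1], .l [7, 6, 3, 8, 2, 5], .r 4578 [1, 4] [3, 4, 1], .l [7, 6, 3], .r 4723 [1, 3, 4] [3, 1, 1], .r 4724 [1, 2, 3, 4] [1, 1, 1, 1, 1], .r 4578 [1, 4] [6, 1, 1], .l [5, 4, 6], .l [5, 4, 6], .r 4688 [1, 2, 3, 4] [1, 1, 1, 1, 1], .r 4711 [1, 3, 4] [3, 1, 1, 1], .l [5, 4, 8]]),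
([s 3 1, s 0 2, g, p 0 3, s 4 0, g, m 1 0, g, s 2 0, g, p 0 4, g], .lo 1, [.l [1, 9, 11, 7, 3, 8, 4, 5], .l [1, 9, 11, 7, 3, 8, 4, 5], .l [5, 4, 1], .l [1, 3, 1, 4, 2, 3], .l [1, 5, 11, 9, 1, 4, 2, 3], .l [6, 4, 7, 1, 9, 4, 6, 3], .l [3, 2, 4], .l [3, 2, 4], .l [1, 7, 11, 7, 1, 8, 6, 1], .r 4711 [1, 3, 5] [1, 1, 1, 5], .l [3, 2, 6], .y [1, 8], .l [1, 9, 11, 5, 1, 6, 4, 5], .r 4711 [1, 3, 5] [1, 1, 3, 3], .l [3, 2, 8], .l [1, 7, 9, 5, 1, 6, 4, 5], .l [8, 6, 11, 4, 8, 5], .l [3, 2, 10]]),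
([s 3 1, s 0 2, g, s 2 0, g, p 0 3, s 4 0, g, m 1 0, g, p 0 4, g], .hi 6, [.l [1, 5, 3, 6, 2, 3], .l [3, 7, 3, 8, 4, 5], .l [7, 6, 3, 8, 2, 5], .l [3, 7, 3], .l [5, 7, 1, 8, 6, 1], .l [12, 3, 6, 2, 8], .l [5, 7, 1], .l [10, 3, 4, 0, 6], .l [5, 4, 1, 8, 4, 1], .l [5, 4, 1, 8, 4, 1], .l [8, 1, 11, 9, 4], .l [5, 4, 1, 6, 2, 5], .l [5, 4, 1, 6, 2, 5], .l [10, 3, 11, 7, 4], .y [6, 10], .l [5, 4, 1, 6, 2, 7], .l [5, 4, 1, 6, 2, 7], .l [10, 3, 11, 7, 4]]),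
([s 3 1, s 0 2, g, p 0 3, s 4 0, g, m 1 0, g, p 0 4, g, s 2 0, g], .lo 1, [.l [12, 10, 6, 9, 3, 8, 2, 5], .r 4494 [1, 2, 5, 3] [1, 1, 2, 3, 1], .l [5, 4, 1], .l [1, 3, 1, 4, 2, 5], .l [1, 5, 9, 7, 1, 4, 2, 5], .l [6, 4, 11, 6, 8, 3], .l [3, 2, 4], .l [3, 2, 4], .l [1, 7, 9, 5, 1, 6, 4, 5], .l [8, 6, 11, 4, 8, 5], .l [3, 2, 6], .l [10, 8, 9, 4, 9, 5, 2, 5], .l [10, 8, 9, 4, 9, 5, 2, 5], .l [3, 2, 8], .y [1, 10], .l [10, 8, 9, 4, 9, 5, 2, 5], .l [10, 8, 9, 4, 9, 5, 2, 5], .l [3, 2, 10]]),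
([s 3 1, s 0 2, g, p 0 3, s 4 0, g, s 2 0, g, m 1 0, g, p 0 4, g], .lo 1, [.l [1, 7, 11, 9, 3, 6, 2, 3], .l [1, 7, 11, 9, 3, 6, 2, 3], .l [5, 4, 1], .l [1, 3, 1, 6, 4, 1], .l [1, 5, 11, 9, 1, 6, 4, 1], .l [6, 4, 9, 3, 9, 2, 4, 5], .l [3, 2, 4], .y [1, 6], .l [1, 7, 11, 7, 1, 4, 2, 5], .l [6, 4, 9, 3, 9, 2, 4, 5], .l [3, 2, 6], .l [3, 2, 6], .l [1, 9, 11, 5, 1, 8, 6, 3], .l [6, 4, 7, 1, 9, 4, 6, 3], .l [3, 2, 8], .l [1, 5, 9, 7, 1, 4, 2, 5], .l [6, 4, 11, 6, 8, 3], .l [3, 2, 10]]),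
([s 2 1, s 0 0, g, p 0 2, s 3 0, g, m 1 0, g, p 0 3, g], .hi 1, [.y [1], .r 4727 [1, 4, 2, 3] [1, 1, 1, 1, 1], .l [5, 4, 1], .R 4578 [2, 4] [1, 1, 6], .l [3, 2, 1], .r 4729 [1, 4, 2, 3] [1, 1, 1, 1, 1], .l [3, 2, 4], .r 4722 [1, 4, 2] [1, 1, 1, 3], .r 4726 [1, 4, 2, 3] [1, 1, 1, 1, 1], .l [3, 2, 6], .r 4664 [1, 4, 2] [1, 2, 1, 3], .l [3, 2, 6], .r 4728 [1, 4, 2, 3] [1, 1, 1, 1, 1], .l [3, 2, 8], .r 4664 [1, 4, 2] [1, 2, 3, 1]]),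
([s 3 1, s 0 2, g, s 2 0, g, p 0 3, s 4 0, g, p 0 4, g, m 1 0, g], .hi 6, [.l [1, 5, 3, 8, 4, 5], .l [3, 7, 3, 10, 6, 7], .l [7, 6, 3, 10, 4, 7], .l [3, 7, 3], .l [5, 7, 1, 10, 8, 1], .l [10, 1, 4, 2, 6], .l [5, 7, 1], .l [8, 1, 2, 0, 4], .l [5, 4, 1, 10, 6, 1], .l [5, 4, 1, 10, 6, 1], .l [8, 1, 9, 7, 4], .y [6, 8], .l [5, 4, 1, 10, 6, 3], .l [5, 4, 1, 10, 6, 3], .l [8, 1, 9, 7, 4], .l [5, 4, 1, 8, 4, 7], .l [5, 4, 1, 8, 4, 7], .l [8, 1, 11, 9, 4]]),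
([s 3 1, s 0 2, g, p 0 3, s 4 0, g, s 2 0, g, p 0 4, g, m 1 0, g], .lo 1, [.l [1, 7, 9, 7, 3, 8, 4, 5], .l [1, 7, 9, 7, 3, 8, 4, 5], .l [5, 4, 1], .l [1, 3, 1, 8, 6, 1], .l [1, 5, 9, 7, 1, 8, 6, 1], .R 4528 [3, 5, 4] [1, 1, 3, 3], .l [3, 2, 4], .y [1, 6], .l [1, 7, 9, 5, 1, 8, 6, 3], .r 4529 [1, 2, 3, 5] [1, 1, 1, 3, 1], .l [3, 2, 6], .l [1, 5, 7, 5, 1, 8, 6, 3], .l [6, 4, 9, 4, 6, 3], .l [3, 2, 8], .l [3, 2, 8], .l [1, 5, 7, 5, 1, 6, 4, 5], .l [6, 4, 11, 6, 8, 5], .l [3, 2, 10]]),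
([s 3 1, s 0 2, g, p 0 3, s 4 0, g, p 0 4, g, m 1 0, g, s 2 0, g], .lo 1, [.r 4610 [1, 5, 3, 4] [1, 1, 1, 1, 3], .r 4494 [1, 2, 5, 3] [1, 1, 4, 1, 1], .l [5, 4, 1], .l [1, 3, 1, 6, 4, 5], .l [1, 5, 7, 5, 1, 6, 4, 5], .l [6, 4, 11, 6, 8, 5], .l [3, 2, 4], .r 4604 [1, 3, 4, 5] [1, 1, 1, 1, 3], .R 4526 [3, 5, 4] [1, 1, 1, 5], .l [3, 2, 6], .l [3, 2, 6], .r 4607 [1, 3, 4, 5] [1, 1, 1, 1, 3], .R 4526 [3, 5, 4] [1, 1, 3, 3], .l [3, 2, 8], .y [1, 10], .r 4607 [1, 3, 4, 5] [1, 1, 1, 3, 1], .R 4526 [3, 5, 4] [1, 1, 5, 1], .l [3, 2, 10]]),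
([s 3 1, s 0 2, g, p 0 3, s 4 0, g, p 0 4, g, s 2 0, g, m 1 0, g], .lo 1, [.r 4610 [1, 5, 3, 4] [1, 1, 1, 3, 1], .r 4442 [1, 2, 5] [1, 6, 1, 1], .l [5, 4, 1], .l [1, 3, 1, 8, 6, 3], .l [1, 5, 7, 5, 1, 8, 6, 3], .l [6, 4, 9, 4, 6, 3], .l [3, 2, 4], .r 4604 [1, 3, 4, 5] [1, 1, 1, 3, 1], .R 4526 [3, 5, 4] [1, 1, 1, 5], .l [3, 2, 6], .y [1, 8], .r 4604 [1, 3, 4, 5] [1, 1, 3, 1, 1], .R 4526 [3, 5, 4] [1, 1, 3, 3], .l [3, 2, 8], .l [3, 2, 8], .r 4607 [1, 3, 4, 5] [1, 1, 3, 1, 1], .R 4526 [3, 5, 4] [1, 1, 5, 1], .l [3, 2, 10]]),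
([s 2 1, s 0 0, g, p 0 2, s 3 0, g, p 0 3, g, m 1 0, g], .hi 1, [.y [1], .r 4731 [1, 4, 2, 3] [1, 1, 1, 1, 1], .l [5, 4, 1], .R 4578 [2, 4] [1, 1, 6], .l [3, 2, 1], .r 4732 [1, 4, 2, 3] [1, 1, 1, 1, 1], .l [3, 2, 4], .r 4719 [1, 4, 2, 3] [1, 1, 1, 1, 1], .l [3, 2, 4], .r 4734 [1, 4, 2, 3] [1, 1, 1, 1, 1], .l [3, 2, 6], .r 4712 [1, 4, 2, 3] [1, 1, 1, 1, 1], .r 4733 [1, 4, 2, 3] [1, 1, 1, 1, 1], .l [3, 2, 8], .r 4664 [1, 4, 2] [1, 4, 1, 1]])]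

def d18_2 : List (List Item × Qry × List Rf) := [
([s 3 1, s 0 2, g, p 0 3, s 2 0, g, m 1 0, g], .lo 1, [.l [1, 5, 3, 6, 2, 3], .l [1, 5, 3, 6, 2, 3], .l [5, 4, 1], .y [1, 4], .l [1, 3, 1, 6, 4, 1], .r 4535 [1, 2, 3, 4] [1, 1, 1, 1], .l [1, 3, 1, 6, 4, 1], .l [1, 3, 1, 4, 2, 1], .l [1, 3, 1, 4, 2, 3], .r 4711 [1, 3, 4] [1, 1, 1, 1], .l [1, 3, 1, 4, 2, 3]]),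
([s 2 1, s 0 0, g, p 0 2, s 0 3, g, m 1 4, g, m 4 0, s 3 0, g], .hi 1, [.y [1], .l [5, 4, 1, 6, 2, 6], .l [5, 4, 1], .R 4578 [2, 5] [1, 1, 7], .l [3, 2, 1], .l [8, 4, 8, 5, 5, 3, 2, 3], .l [10, 6, 10, 5, 5, 3, 2, 3], .l [3, 2, 4], .l [10, 6, 10, 5, 5, 3, 2, 3], .l [10, 6, 10, 7, 7, 3, 2, 3], .l [3, 2, 6], .l [10, 6, 10, 7, 7, 3, 2, 3], .l [8, 4, 8, 5, 5, 3, 2, 5], .l [3, 2, 9], .r 4664 [1, 5, 2] [1, 2, 4, 1]]),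
([s 2 1, s 0 0, g, p 0 2, s 0 3, g, m 0 4, g, m 1 0, g, m 4 0, s 3 0, g], .hi 1, [.y [1], .l [5, 4, 1, 8, 4, 8], .l [5, 4, 1], .R 4578 [2, 5] [1, 1, 9], .l [3, 2, 1], .l [10, 6, 10, 5, 7, 5, 2, 5], .l [12, 8, 12, 5, 7, 5, 2, 5], .l [3, 2, 4], .l [12, 8, 12, 5, 7, 5, 2, 5], .l [10, 6, 10, 5, 7, 5, 2, 3], .l [12, 8, 12, 5, 9, 7, 2, 3], .l [3, 2, 6], .l [12, 8, 12, 5, 9, 7, 2, 3], .l [12, 8, 12, 7, 9, 5, 2, 5], .l [3, 2, 8], .l [12, 8, 12, 7, 9, 5, 2, 5], .l [10, 6, 10, 5, 7, 5, 2, 7], .l [3, 2, 11], .r 4664 [1, 5, 2] [1, 4, 4, 1]]),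
([s 2 1, g, p 0 2, s 6 3, g, m 1 0, g, s 5 0, g, m 0 4, g, m 4 5, s 3 0, g, s 0 6, g], .hi 12, [.l [4, 3, 8, 10, 11, 7, 4, 2, 4, 5], .l [4, 3, 6, 2, 12, 6, 3, 4, 8, 3, 6, 1], .l [4, 3, 8, 10, 11, 7, 4, 2, 8, 1, 2, 5], .l [2, 1, 4, 2, 10, 6, 3, 4, 6, 1, 4, 1], .l [4, 9, 11, 12, 8, 1, 4, 2, 4, 5], .l [4, 9, 11, 12, 8, 1, 4, 2, 4, 5], .l [2, 1, 6, 4, 12, 6, 3, 4, 8, 1, 6, 1], .l [6, 9, 11, 12, 6, 1, 7, 5, 2, 5], .l [2, 1, 8, 10, 13, 8, 1, 7, 1, 4, 2, 5], .l [2, 1, 4, 2, 12, 6, 3, 4, 8, 3, 6, 1], .l [2, 1, 6, 10, 11, 7, 4, 2, 4, 5], .l [2, 1, 6, 10, 11, 7, 4, 2, 8, 1, 2, 5], .l [12, 14, 4, 1, 5, 3, 4, 6, 2, 5], .l [9, 11, 10], .l [11, 13, 10], .l [6, 14, 10, 1, 11, 9, 5, 1, 4, 1], .l [11, 13, 10], .l [10, 12, 4, 1,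 5, 3, 4, 8, 4, 1], .l [2, 1, 4, 2, 12, 8, 3, 4, 8, 3, 6, 1], .l [10, 12, 4, 1, 5, 3, 4, 8, 4, 1], .y [3, 12, 14], .l [10, 12, 4, 1, 5, 3, 4, 10, 6, 1], .l [2, 1, 4, 2, 10, 6, 3, 4, 8, 1, 6, 1], .l [10, 12, 4, 1, 5, 3, 4, 10, 6, 1]]),
([s 2 1, g, p 0 2, s 6 3, g, m 1 0, g, m 0 4, g, m 4 5, s 3 0, g, s 0 6, g, p 5 0, g], .hi 10, [.l [4, 3, 6, 2, 10, 2, 10, 1, 7, 1, 6, 3], .l [4, 3, 6, 2, 10, 2, 10, 5, 7, 1, 6, 3], .l [4, 3, 6, 2, 10, 2, 10, 1, 7, 1, 6, 3], .l [2, 1, 4, 2, 8, 2, 8, 3, 5, 1, 4, 1], .l [2, 1, 6, 4, 10, 2, 10, 1, 7, 1, 6, 1], .l [2, 1, 6, 4, 10, 2, 10, 1, 7, 1, 6, 1], .l [2, 1, 6, 4, 10, 2, 10, 3, 7, 1, 6, 1], .l [2, 1, 4, 2, 10, 2, 10, 1, 7, 1, 6, 3], .l [2, 1, 4, 2, 10, 2, 10, 1, 7, 1, 6, 3], .l [2,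 1, 4, 2, 10, 2, 10, 5, 7, 1, 6, 3], .l [7, 9, 8], .l [9, 11, 8], .l [8, 12, 6, 1, 7, 5, 2, 5], .l [9, 11, 8], .l [2, 1, 4, 2, 10, 4, 10, 1, 7, 3, 6, 3], .l [2, 1, 4, 2, 10, 4, 10, 1, 7, 3, 6, 3], .l [8, 10, 4, 1, 5, 3, 10, 5, 8, 5], .y [3, 10, 12], .l [2, 1, 4, 2, 8, 2, 10, 3, 7, 1, 6, 1], .l [2, 1, 4, 2, 8, 2, 10, 3, 7, 1, 6, 1], .l [8, 10, 4, 1, 5, 3, 10, 5, 8, 3], .l [2, 1, 4, 2, 8, 2, 8, 1, 5, 1, 4, 5], .l [2, 1, 4, 2, 8, 2, 8, 1, 5, 1, 4, 5], .l [2, 1, 4, 2, 8, 2, 8, 1, 5, 8, 2, 5]]),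
([s 2 1, g, p 0 2, s 7 3, g, m 1 0, g, p 4 0, g, p 0 4, m 0 5, g, m 5 6, s 3 0, g, m 6 0, g, s 0 7, g], .hi 7, [.l [4, 3, 14, 9, 1, 8, 13, 7, 3, 5, 8, 8, 6, 3], .l [4, 3, 6, 2, 11, 5, 0, 6, 12, 10, 10, 8, 1], .l [9, 6], .l [2, 1, 4, 2, 9, 5, 0, 6, 10, 8, 8, 6, 1], .l [2, 1, 8, 3, 1, 4, 9, 11, 10, 10, 8, 3], .l [2, 1, 14, 11, 3, 10, 13, 7, 1, 5, 8, 8, 6, 1], .l [9, 3], .l [2, 1, 14, 11, 1, 10, 13, 7, 1, 5, 8, 8, 6, 1], .l [7, 15, 10, 1, 3, 11, 13, 8, 11, 6, 3, 8, 5], .l [9, 1], .l [2, 1, 8, 1, 9, 6, 2, 13, 6, 7, 4, 9], .l [7, 8], .l [9, 1], .y [7, 9], .l [10, 2], .l [7, 11, 13, 11, 8], .l [7, 11], .l [12, 4], .l [7, 14, 16, 13, 13, 11, 8], .l [7, 14], .l [15, 7], .l [2, 1, 6, 14, 12, 2, 7, 9, 8, 8, 6, 7], .l [7,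 16], .l [17, 9], .l [2, 1, 4, 2, 13, 4, 5, 4, 10, 10, 6, 6, 4, 1], .l [2, 1, 6, 16, 14, 2, 7, 9, 8, 8, 6, 9], .l [7, 18], .l [19, 11]]),
([s 2 1, g, p 0 2, s 6 3, g, m 1 0, g, p 0 0, m 0 4, g, m 4 5, s 3 0, g, m 5 0, g, s 0 6, g], .hi 7, [.l [4, 3, 6, 2, 9, 11, 10, 10, 8, 1], .l [4, 3, 6, 2, 9, 11, 10, 10, 8, 1], .l [9, 6], .l [2, 1, 4, 2, 7, 9, 8, 8, 6, 1], .l [2, 1, 6, 4, 9, 11, 10, 10, 8, 3], .l [13, 9, 3, 10, 12, 8, 8, 6, 1, 3, 6, 7], .l [9, 3], .l [2, 1, 4, 2, 9, 11, 10, 10, 8, 1], .r 4741 [1, 2, 3, 7, 4, 5, 6] [1, 1, 1, 1, 1, 1, 1, 1], .l [9, 1], .y [7], .l [8, 0], .l [2, 1, 4, 2, 9, 11, 10, 10, 6, 7], .l [7, 9], .l [10, 2], .l [2, 1, 4, 2, 7, 11, 10, 10, 8, 5], .l [7, 12], .l [13, 5], .l [2, 1, 4, 2, 7,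 9, 8, 8, 6, 7], .l [7, 14], .l [15, 7], .l [2, 1, 4, 2, 7, 9, 8, 8, 6, 7], .l [2, 1, 4, 2, 7, 9, 8, 8, 6, 9], .l [7, 16], .l [17, 9]]),
([s 2 1, g, p 0 2, s 7 3, g, m 1 0, g, p 4 0, g, s 0 4, m 0 5, g, m 5 6, s 3 0, g, m 6 0, g, s 0 7, g], .lo 9, [.l [4, 3, 6, 2, 11, 13, 12, 12, 10, 3], .l [10, 15, 9, 3, 10, 6, 7, 11, 6, 6, 4, 1], .l [4, 3, 6, 2, 11, 13, 12, 12, 10, 3], .l [2, 1, 6, 4, 11, 13, 12, 12, 10, 5], .l [2, 1, 6, 4, 11, 13, 12, 12, 10, 5], .l [10, 15, 7, 1, 10, 8, 5, 11, 8, 8, 6, 3], .l [8, 13, 7, 1, 8, 6, 5, 9, 6, 6, 4, 1], .l [2, 1, 4, 2, 11, 13, 12, 12, 10, 3], .l [2, 1, 4, 2, 11, 13, 12, 12, 10, 3], .l [10, 15, 7, 1, 8, 6, 7, 11, 6, 6, 4, 1], .y [7, 9], .l [2, 1, 4, 2, 11, 13, 12, 12, 10, 1], .l [2,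 1, 4, 2, 11, 13, 12, 12, 10, 1], .l [10, 15, 7, 1, 8, 6, 9, 11, 4, 4, 2, 7], .l [2, 1, 4, 2, 11, 13, 12, 12, 8, 9], .l [12, 2, 8, 13, 4, 1], .l [2, 1, 4, 2, 11, 13, 12, 12, 8, 9], .l [2, 1, 4, 2, 13, 4, 5, 4, 4, 1], .l [2, 1, 4, 2, 9, 13, 12, 12, 10, 7], .l [11, 19, 10, 1, 2, 15, 9, 1, 12, 7], .l [2, 1, 4, 2, 9, 13, 12, 12, 10, 7], .l [2, 1, 4, 2, 9, 11, 10, 10, 8, 7], .l [2, 1, 4, 2, 9, 11, 10, 10, 8, 9], .l [2, 1, 4, 2, 15, 3, 8, 5, 2, 5, 7, 5, 2, 7], .l [2, 1, 4, 2, 9, 11, 10, 10, 8, 9], .l [2, 1, 4, 2, 9, 11, 10, 10, 8, 11], .l [2, 1, 4, 2, 13, 4, 5, 4, 10, 12, 6, 1], .l [2, 1, 4, 2, 9, 11, 10, 10, 8, 11]]),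
([s 2 1, g, p 0 2, s 6 3, g, m 1 0, g, s 0 0, m 0 4, g, m 4 5, s 3 0, g, m 5 0, g, s 0 6, g], .hi 7, [.l [4, 3, 6, 2, 9, 11, 10, 10, 8, 1], .l [4, 3, 6, 2, 9, 11, 10, 10, 8, 1], .l [9, 6, 9, 1, 7, 9, 2, 5], .l [2, 1, 4, 2, 7, 9, 8, 8, 6, 1], .l [2, 1, 6, 4, 9, 11, 10, 10, 8, 3], .l [13, 9, 3, 10, 12, 8, 8, 6, 1, 3, 6, 7], .l [2, 1, 6, 4, 9, 11, 10, 10, 8, 3], .l [2, 1, 4, 2, 9, 11, 10, 10, 8, 1], .r 4743 [1, 2, 3, 7, 4, 5, 6] [1, 1, 1, 1, 1, 1, 1, 1], .l [2, 1, 4, 2, 9, 11, 10, 10, 8, 1], .y [7], .l [8, 0, 4, 9, 4, 1], .l [2, 1, 4, 2, 9, 11, 10, 10, 6, 7], .l [2, 1, 4, 2, 9, 11, 10, 10, 6, 7], .l [10, 2, 6, 11, 4, 1], .l [2, 1, 4, 2, 7, 11, 10, 10, 8, 5], .l [2, 1, 4, 2, 7, 11, 10, 10, 8, 5], .l [9, 17, 10, 1,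 2, 13, 7, 1, 10, 5], .l [2, 1, 4, 2, 7, 9, 8, 8, 6, 7], .l [2, 1, 4, 2, 7, 9, 8, 8, 6, 7], .l [10, 13, 12, 16, 9, 1, 4, 11, 5, 1, 6, 3], .l [2, 1, 4, 2, 7, 9, 8, 8, 6, 7], .l [2, 1, 4, 2, 7, 9, 8, 8, 6, 9], .l [2, 1, 4, 2, 7, 9, 8, 8, 6, 9], .l [2, 1, 4, 2, 11, 4, 5, 4, 8, 10, 6, 1]]),
([s 2 1, g, p 0 2, s 7 3, g, m 1 0, g, m 0 4, g, m 4 0, m 0 5, g, m 5 6, s 3 0, g, m 6 0, g, s 0 7, g], .lo 7, [.l [4, 3, 14, 9, 1, 8, 13, 7, 3, 5, 8, 8, 6, 3], .l [9, 6], .l [4, 3, 6, 2, 11, 5, 0, 6, 12, 10, 10, 8, 1], .l [2, 1, 8, 3, 1, 4, 9, 11, 10, 10, 8, 3], .l [9, 3], .l [2, 1, 14, 11, 3, 10, 13, 7, 1, 5, 8, 8, 6, 1], .l [2, 1, 12, 9, 1, 8, 11, 5, 1, 3, 6, 6, 4, 1], .l [2, 1, 14, 11, 1, 10, 13, 7, 1, 5, 8, 8, 6, 1], .l [9,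 1], .l [7, 15, 10, 1, 3, 11, 13, 8, 11, 6, 3, 8, 5], .l [2, 1, 8, 1, 9, 6, 2, 13, 6, 7, 4, 9], .l [9, 1], .l [7, 8], .y [7, 9], .l [7, 11, 13, 11, 8], .l [12, 4], .l [7, 11], .l [7, 12, 14, 13, 13, 11, 8], .l [7, 14, 16, 13, 13, 11, 8], .l [15, 7], .l [7, 14], .l [7, 14], .l [2, 1, 6, 14, 12, 2, 7, 9, 8, 8, 6, 7], .l [17, 9], .l [7, 16], .l [2, 1, 6, 16, 14, 2, 7, 9, 8, 8, 6, 9], .l [19, 11], .l [7, 18]]),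
([s 2 1, g, p 0 2, s 6 3, g, m 1 0, g, m 0 0, m 0 4, g, m 4 5, s 3 0, g, m 5 0, g, s 0 6, g], .lo 7, [.l [4, 3, 6, 2, 9, 11, 10, 10, 8, 1], .l [9, 6], .l [4, 3, 6, 2, 9, 11, 10, 10, 8, 1], .l [2, 1, 6, 4, 9, 11, 10, 10, 8, 3], .l [9, 3], .l [13, 9, 3, 10, 12, 8, 8, 6, 1, 3, 6, 7], .l [11, 7, 1, 8, 10, 6, 6, 4, 1, 1, 4, 5], .l [2, 1, 4, 2, 9, 11, 10, 10, 8, 1], .l [9, 1], .r 4745 [1, 2, 3, 7, 4, 5, 6] [1, 1, 1, 1, 1, 1, 1, 1], .y [7], .l [2, 1, 4, 2, 9, 11, 10, 10, 6, 7], .l [10, 2], .l [7, 9], .l [2, 1, 4, 2, 11, 4, 5, 4, 4, 1], .l [2, 1, 4, 2, 7, 11, 10, 10, 8, 5], .l [13, 5], .l [7, 12], .l [7, 12], .l [2, 1, 4, 2, 7, 9, 8, 8, 6, 7], .l [15, 7], .l [7, 14], .l [2, 1, 4, 2, 7, 9, 8, 8, 6, 9], .l [17, 9], .l [7,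 16]]),
([s 2 1, g, p 0 2, s 6 3, g, m 1 0, g, m 0 4, g, m 4 5, s 3 0, g, m 5 0, g, s 0 6, g], .bot 6, [.l [7, 8, 6, 4, 7, 4, 9, 4, 6, 3], .r 4744 [1, 2, 3, 4, 5, 6] [1, 1, 1, 1, 1, 1, 1], .r 4742 [1, 2, 3, 4, 5, 6] [1, 1, 1, 1, 1, 1, 1], .r 4746 [1, 2, 3, 4, 5, 6] [1, 1, 1, 1, 1, 1, 1]]),
([s 2 1, s 0 0, g, p 0 2, s 6 3, g, m 1 0, g, m 0 4, g, m 4 5, s 3 0, g, s 0 6, g, m 5 0, g], .hi 1, [.y [1], .l [5, 4, 1, 6, 2, 10], .l [5, 4, 1], .R 4578 [2, 7] [1, 1, 13], .l [3, 2, 1], .l [11, 1, 6, 11, 4, 2, 6, 12, 8, 9], .l [3, 2, 4], .l [13, 8, 14, 5, 2, 10], .l [11, 1, 6, 11, 4, 2, 4, 12, 10, 3], .l [3, 2, 6], .l [13, 8, 14, 5, 2, 8], .l [11, 6, 12, 5, 2, 6], .l [3, 2, 8, 3, 0, 4, 8, 5], .l [3, 2, 8], .l [13, 8, 14, 5,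 2, 6], .l [3, 2, 11, 15, 12, 3, 0, 4, 10, 7], .l [3, 2, 11], .l [4, 14, 3, 13, 2, 9], .l [3, 2, 11, 1, 7, 10, 2, 7], .l [3, 2, 13, 15, 10, 3, 0, 4, 8, 5], .l [3, 2, 13], .l [11, 6, 14, 4, 11, 9, 4, 8], .l [9, 1, 4, 9, 4, 2, 12, 7, 8, 1], .l [3, 2, 15], .l [3, 2, 3, 11, 13, 10, 13, 7, 9, 7, 2, 7]]),
([s 2 1, g, p 0 2, s 6 3, g, m 1 0, g, p 5 0, g, m 0 4, g, m 4 5, s 3 0, g, s 0 6, g], .hi 12, [.l [1, 5, 14, 6, 3, 4, 10, 2, 8, 1], .l [4, 3, 6, 2, 12, 6, 3, 4, 8, 3, 6, 1], .l [5, 15, 6, 3, 4, 11, 3, 1, 8, 1], .l [2, 1, 4, 2, 10, 6, 3, 4, 6, 1, 4, 1], .l [2, 1, 6, 4, 12, 6, 3, 4, 8, 1, 6, 1], .l [8, 14, 8, 1, 11, 9, 3, 4, 8, 3, 6, 1], .l [2, 1, 6, 4, 12, 6, 3, 4, 8, 1, 6, 1], .l [2, 1, 4, 2, 12, 6, 3, 4, 8, 3, 6, 1],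 .l [8, 14, 8, 1, 9, 7, 3, 4, 8, 1, 6, 1], .l [2, 1, 4, 2, 12, 6, 3, 4, 8, 3, 6, 1], .l [10, 3, 11, 7, 4, 7, 8, 5, 2, 7], .l [10, 3, 11, 7, 4, 7, 8, 5, 2], .l [12, 14, 4, 1, 5, 3, 4, 6, 2, 5], .l [9, 11, 10], .l [11, 13, 10], .l [2, 1, 4, 2, 12, 8, 5, 1, 4, 1], .l [11, 13, 10], .l [2, 1, 4, 2, 12, 8, 3, 4, 8, 3, 6, 1], .l [2, 1, 4, 2, 12, 8, 3, 4, 8, 3, 6, 1], .l [10, 12, 4, 1, 5, 3, 4, 8, 4, 1], .y [3, 12, 14], .l [2, 1, 4, 2, 10, 6, 3, 4, 8, 1, 6, 1], .l [2, 1, 4, 2, 10, 6, 3, 4, 8, 1, 6, 1], .l [10, 12, 4, 1, 5, 3, 4, 10, 6, 1]]),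
([s 2 1, g, p 0 2, s 6 3, g, m 1 0, g, m 0 4, g, m 4 5, s 3 0, g, s 0 6, g, s 5 0, g], .hi 10, [.l [10, 12, 6, 3, 7, 3, 10, 3, 8, 3], .l [4, 3, 6, 2, 10, 2, 10, 5, 7, 1, 6, 3], .l [10, 12, 6, 3, 7, 3, 10, 3, 8, 3], .l [2, 1, 4, 2, 8, 2, 8, 3, 5, 1, 4, 1], .l [10, 12, 4, 1, 7, 5, 10, 3, 8, 1], .l [10, 12, 4, 1, 7, 5, 10, 3, 8, 1], .l [2, 1, 6, 4, 10, 2, 10, 3, 7, 1, 6, 1], .l [10, 12, 4, 1, 5, 3, 10, 3, 8, 3], .l [10, 12, 4, 1, 5, 3, 10, 3, 8, 3], .l [2, 1, 4, 2, 10, 2, 10, 5, 7, 1, 6, 3], .l [7, 9, 8], .l [9, 11, 8], .l [8, 12, 6, 1, 7, 5, 2, 5], .l [9, 11, 8], .l [8, 10, 4, 1, 5, 3, 10, 5, 8, 5], .l [8, 14, 8, 1, 9, 7, 10, 1, 8, 1], .l [8, 10, 4, 1, 5, 3, 10, 5, 8, 5], .y [3, 10, 12], .l [8, 10, 4, 1, 5, 3, 10,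 5, 8, 3], .l [2, 1, 4, 2, 8, 2, 10, 3, 7, 1, 6, 1], .l [8, 10, 4, 1, 5, 3, 10, 5, 8, 3], .l [8, 10, 4, 1, 5, 3, 8, 3, 6, 7], .l [8, 10, 4, 1, 5, 3, 8, 3, 6, 7], .l [8, 10, 4, 1, 5, 3, 8, 10, 2, 5]]),
([s 2 1, s 0 0, g, p 0 2, s 5 3, g, m 1 0, g, m 0 4, g, m 4 0, s 3 0, g, s 0 5, g], .hi 10, [.l [3, 2, 8], .l [9, 6, 10, 2, 7, 9, 2, 5], .l [9, 6, 10, 2, 7, 9, 2, 5], .l [3, 11], .l [7, 4, 8, 2, 7, 7, 0, 3], .l [4, 14, 2, 6, 1, 6, 4, 2, 7, 2], .l [9, 3, 10, 6, 11, 4, 5, 2, 7, 2], .l [6, 11], .r 4739 [1, 2, 3, 4, 6, 5] [2, 1, 1, 1, 1, 1, 1], .r 4749 [1, 2, 3, 4, 6, 5] [2, 1, 1, 1, 1, 1, 1], .l [8, 11], .y [8, 10], .l [3, 2, 5, 2, 12, 4, 1, 4, 2, 7], .l [3, 2, 5, 2, 12, 4, 1, 4, 2, 7], .l [10, 11], .l [9, 15, 9, 2, 10,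 7, 2, 4, 2, 7], .l [9, 15, 9, 2, 10, 7, 2, 4, 2, 7], .r 4747 [1, 2, 3, 4, 6, 5] [2, 1, 1, 1, 1, 1, 1], .l [9, 13, 7, 2, 8, 5, 2, 2, 0, 5], .r 4750 [1, 2, 3, 4, 6, 5] [2, 1, 1, 1, 1, 1, 1], .r 4740 [1, 2, 3, 4, 6, 5] [2, 1, 1, 1, 1, 1, 1], .r 4748 [1, 2, 3, 4, 6, 5] [1, 1, 1, 1, 1, 1, 1]]),
([s 2 1, s 0 0, g, p 0 2, s 4 3, g, m 1 0, g, m 0 0, s 3 0, g, s 0 4, g], .lo 8, [.l [3, 2, 5, 2, 6, 1], .l [5, 4, 7, 2, 8, 3], .l [10, 6], .l [5, 4, 7, 2, 8, 3], .l [3, 2, 7, 4, 8, 5], .l [10, 3], .r 4738 [1, 2, 3, 5] [1, 1, 1, 1, 3], .r 4737 [1, 2, 3, 5] [1, 1, 1, 3], .l [3, 2, 5, 2, 8, 1], .l [10, 1], .r 4751 [1, 2, 3, 5, 4] [1, 1, 1, 1, 1, 1], .y [8], .c, .l [3, 2, 5, 2, 6, 7], .l [11, 2], .l [8, 10], .l [3, 2, 5, 2, 6, 9],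 .l [13, 4], .l [8, 12]]),
([s 2 1, g, p 0 2, s 5 3, g, m 1 0, g, p 4 0, g, p 6 4, s 3 0, g, s 0 5, g, m 0 6, g], .hi 10, [.l [4, 3, 6, 2, 10, 2, 10, 1, 7, 1, 6, 3], .l [4, 3, 6, 2, 10, 2, 10, 5, 7, 1, 6, 3], .l [4, 3, 6, 2, 10, 2, 10, 1, 7, 1, 6, 3], .l [2, 1, 4, 2, 8, 2, 8, 3, 5, 1, 4, 1], .l [2, 1, 6, 4, 10, 2, 10, 1, 7, 1, 6, 1], .l [2, 1, 6, 4, 10, 2, 10, 1, 7, 1, 6, 1], .l [2, 1, 6, 4, 10, 2, 10, 3, 7, 1, 6, 1], .l [2, 1, 4, 2, 10, 2, 10, 1, 7, 1, 6, 3], .l [2, 1, 4, 2, 10, 2, 10, 1, 7, 1, 6, 3], .l [2, 1, 4, 2, 10, 2, 10, 5, 7, 1, 6, 3], .l [9, 11, 8], .l [8, 12, 6, 1, 7, 5, 2, 5], .l [9, 11, 8], .l [2, 1, 4, 2, 10, 4, 10, 1, 7, 3, 6, 3], .l [2, 1, 4, 2, 10, 4, 10, 1, 7, 3, 6, 3], .l [8, 10, 4, 1, 5, 3, 10,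 5, 8, 5], .y [3, 10, 12], .l [2, 1, 4, 2, 8, 2, 10, 3, 7, 1, 6, 1], .l [2, 1, 4, 2, 8, 2, 10, 3, 7, 1, 6, 1], .l [8, 10, 4, 1, 5, 3, 10, 5, 8, 3], .l [2, 1, 4, 2, 8, 2, 8, 1, 5, 6, 0, 3], .l [2, 1, 4, 2, 8, 2, 8, 1, 5, 1, 4, 5], .l [2, 1, 4, 2, 8, 2, 8, 1, 5, 1, 4, 5], .l [2, 1, 4, 2, 8, 2, 8, 1, 5, 8, 2, 5]]),
([s 2 1, g, p 0 2, s 7 3, g, m 1 0, g, m 0 4, g, m 4 0, p 5 0, g, p 6 5, s 3 0, g, p 0 6, g, s 0 7, g], .lo 7, [.l [4, 3, 14, 9, 1, 8, 13, 7, 3, 5, 8, 8, 6, 3], .l [9, 6], .l [4, 3, 6, 2, 11, 5, 0, 6, 12, 10, 10, 8, 1], .l [2, 1, 8, 3, 1, 4, 9, 11, 10, 10, 8, 3], .l [9, 3], .l [2, 1, 14, 11, 3, 10, 13, 7, 1, 5, 8, 8, 6, 1], .l [2, 1, 12, 9, 1, 8, 11, 5, 1, 3, 6, 6, 4, 1], .l [2, 1, 14, 11, 1, 10, 13, 7,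 1, 5, 8, 8, 6, 1], .l [9, 1], .l [7, 15, 10, 1, 3, 11, 13, 8, 11, 6, 3, 8, 5], .l [2, 1, 8, 1, 9, 6, 2, 13, 6, 7, 4, 9], .l [9, 1], .l [7, 8], .y [7, 9], .l [10, 2], .l [7, 11, 13, 11, 8], .l [12, 4], .l [7, 11], .l [7, 12, 14, 13, 13, 11, 8], .l [7, 14, 16, 13, 13, 11, 8], .l [15, 7], .l [7, 14], .l [2, 1, 6, 14, 12, 2, 7, 9, 8, 8, 6, 7], .l [17, 9], .l [7, 16], .l [2, 1, 6, 16, 14, 2, 7, 9, 8, 8, 6, 9], .l [19, 11], .l [7, 18]]),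
([s 2 1, g, p 0 2, s 6 3, g, m 1 0, g, m 0 0, p 4 0, g, p 5 4, s 3 0, g, p 0 5, g, s 0 6, g], .lo 7, [.l [4, 3, 6, 2, 9, 11, 10, 10, 8, 1], .l [9, 6], .l [4, 3, 6, 2, 9, 11, 10, 10, 8, 1], .l [2, 1, 6, 4, 9, 11, 10, 10, 8, 3], .l [9, 3], .l [13, 9, 3, 10, 12, 8, 8, 6, 1, 3, 6, 7], .l [11, 7, 1, 8, 10, 6, 6, 4, 1, 1, 4, 5], .l [2, 1, 4, 2, 9, 11, 10, 10, 8, 1], .l [9, 1], .r 4754 [1, 2, 3, 7, 4, 5, 6] [1, 1, 1, 1, 1, 1, 1, 1], .y [7], .l [8, 0], .l [2, 1, 4, 2, 9, 11, 10, 10, 6, 7], .l [10, 2], .l [7, 9], .l [2, 1, 4, 2, 11, 4, 5, 4, 4, 1], .l [2, 1, 4, 2, 7, 11, 10, 10, 8, 5], .l [13, 5], .l [7, 12], .l [2, 1, 4, 2, 7, 9, 8, 8, 6, 7], .l [15, 7], .l [7, 14], .l [2, 1, 4, 2, 7, 9, 8, 8, 6, 9], .l [17, 9], .l [7,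 16]]),
([s 2 1, g, p 0 2, s 7 3, g, m 1 0, g, p 4 0, g, s 0 4, p 5 0, g, p 6 5, s 3 0, g, p 0 6, g, s 0 7, g], .lo 9, [.l [4, 3, 6, 2, 11, 13, 12, 12, 10, 3], .l [10, 15, 9, 3, 10, 6, 7, 11, 6, 6, 4, 1], .l [4, 3, 6, 2, 11, 13, 12, 12, 10, 3], .l [2, 1, 6, 4, 11, 13, 12, 12, 10, 5], .l [2, 1, 6, 4, 11, 13, 12, 12, 10, 5], .l [10, 15, 7, 1, 10, 8, 5, 11, 8, 8, 6, 3], .l [8, 13, 7, 1, 8, 6, 5, 9, 6, 6, 4, 1], .l [2, 1, 4, 2, 11, 13, 12, 12, 10, 3], .l [2, 1, 4, 2, 11, 13, 12, 12, 10, 3], .l [10, 15, 7, 1, 8, 6, 7, 11, 6, 6, 4, 1], .y [7, 9], .l [2, 1, 4, 2, 11, 13, 12, 12, 10, 1], .l [2, 1, 4, 2, 11, 13, 12, 12, 10, 1], .l [10, 15, 7, 1, 8, 6, 9, 11, 4, 4, 2, 7], .l [10, 0, 6, 11, 4, 1], .l [2, 1, 4, 2, 11, 13, 12,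 12, 8, 9], .l [12, 2, 8, 13, 4, 1], .l [2, 1, 4, 2, 11, 13, 12, 12, 8, 9], .l [2, 1, 4, 2, 13, 4, 5, 4, 4, 1], .l [2, 1, 4, 2, 9, 13, 12, 12, 10, 7], .l [11, 19, 10, 1, 2, 15, 9, 1, 12, 7], .l [2, 1, 4, 2, 9, 13, 12, 12, 10, 7], .l [2, 1, 4, 2, 9, 11, 10, 10, 8, 9], .l [2, 1, 4, 2, 15, 3, 8, 5, 2, 5, 7, 5, 2, 7], .l [2, 1, 4, 2, 9, 11, 10, 10, 8, 9], .l [2, 1, 4, 2, 9, 11, 10, 10, 8, 11], .l [2, 1, 4, 2, 13, 4, 5, 4, 10, 12, 6, 1], .l [2, 1, 4, 2, 9, 11, 10, 10, 8, 11]]),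
([s 2 1, g, p 0 2, s 6 3, g, m 1 0, g, s 0 0, p 4 0, g, p 5 4, s 3 0, g, p 0 5, g, s 0 6, g], .hi 7, [.l [4, 3, 6, 2, 9, 11, 10, 10, 8, 1], .l [4, 3, 6, 2, 9, 11, 10, 10, 8, 1], .l [9, 6, 9, 1, 7, 9, 2, 5], .l [2, 1, 4, 2, 7, 9, 8, 8, 6, 1], .l [2, 1, 6, 4, 9, 11, 10, 10, 8, 3], .l [13, 9, 3, 10, 12, 8, 8, 6, 1, 3, 6, 7], .l [2, 1, 6, 4, 9, 11, 10, 10, 8, 3], .l [2, 1, 4, 2, 9, 11, 10, 10, 8, 1], .r 4756 [1, 2, 3, 7, 4, 5, 6] [1, 1, 1, 1, 1, 1, 1, 1], .l [2, 1, 4, 2, 9, 11, 10, 10, 8, 1], .y [7], .l [2, 1, 4, 2, 9, 11, 10, 10, 6, 7], .l [2, 1, 4, 2, 9, 11, 10, 10, 6, 7], .l [10, 2, 6, 11, 4, 1], .l [2, 1, 4, 2, 7, 11, 10, 10, 8, 5], .l [2, 1, 4, 2, 7, 11, 10, 10, 8, 5], .l [9, 17, 10, 1, 2, 13, 7, 1, 10, 5], .l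 [2, 1, 4, 2, 7, 9, 8, 8, 6, 5], .l [2, 1, 4, 2, 7, 9, 8, 8, 6, 7], .l [2, 1, 4, 2, 7, 9, 8, 8, 6, 7], .l [10, 13, 12, 16, 9, 1, 4, 11, 5, 1, 6, 3], .l [2, 1, 4, 2, 7, 9, 8, 8, 6, 7], .l [2, 1, 4, 2, 7, 9, 8, 8, 6, 9], .l [2, 1, 4, 2, 7, 9, 8, 8, 6, 9], .l [2, 1, 4, 2, 11, 4, 5, 4, 8, 10, 6, 1]]),
([s 2 1, g, p 0 2, s 7 3, g, m 1 0, g, p 4 0, g, p 0 4, p 5 0, g, p 6 5, s 3 0, g, p 0 6, g, s 0 7, g], .hi 7, [.l [4, 3, 14, 9, 1, 8, 13, 7, 3, 5, 8, 8, 6, 3], .l [4, 3, 6, 2, 11, 5, 0, 6, 12, 10, 10, 8, 1], .l [9, 6], .l [2, 1, 4, 2, 9, 5, 0, 6, 10, 8, 8, 6, 1], .l [2, 1, 8, 3, 1, 4, 9, 11, 10, 10, 8, 3], .l [2, 1, 14, 11, 3, 10, 13, 7, 1, 5, 8, 8, 6, 1], .l [9, 3], .l [2, 1, 14, 11, 1, 10, 13, 7, 1, 5, 8, 8, 6, 1],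 .l [7, 15, 10, 1, 3, 11, 13, 8, 11, 6, 3, 8, 5], .l [9, 1], .l [2, 1, 8, 1, 9, 6, 2, 13, 6, 7, 4, 9], .l [7, 8], .l [9, 1], .y [7, 9], .l [7, 11, 13, 11, 8], .l [7, 11], .l [12, 4], .l [7, 14, 16, 13, 13, 11, 8], .l [7, 14], .l [15, 7], .l [7, 14], .l [2, 1, 6, 14, 12, 2, 7, 9, 8, 8, 6, 7], .l [7, 16], .l [17, 9], .l [2, 1, 4, 2, 13, 4, 5, 4, 10, 10, 6, 6, 4, 1], .l [2, 1, 6, 16, 14, 2, 7, 9, 8, 8, 6, 9], .l [7, 18], .l [19, 11]]),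
([s 2 1, g, p 0 2, s 6 3, g, m 1 0, g, p 0 0, p 4 0, g, p 5 4, s 3 0, g, p 0 5, g, s 0 6, g], .hi 7, [.l [4, 3, 6, 2, 9, 11, 10, 10, 8, 1], .l [4, 3, 6, 2, 9, 11, 10, 10, 8, 1], .l [9, 6], .l [2, 1, 4, 2, 7, 9, 8, 8, 6, 1], .l [2, 1, 6, 4, 9, 11, 10, 10, 8, 3], .l [13, 9, 3, 10, 12, 8, 8, 6, 1, 3, 6, 7], .l [9, 3], .l [2, 1, 4, 2, 9, 11, 10, 10, 8, 1], .r 4758 [1, 2, 3, 7, 4, 5, 6] [1, 1, 1, 1, 1, 1, 1, 1], .l [9, 1], .y [7], .l [2, 1, 4, 2, 9, 11, 10, 10, 6, 7], .l [7, 9], .l [10, 2], .l [2, 1, 4, 2, 7, 11, 10, 10, 8, 5], .l [7, 12], .l [13, 5], .l [7, 12], .l [2, 1, 4, 2, 7, 9, 8, 8, 6, 7], .l [7, 14], .l [15, 7], .l [2, 1, 4, 2, 7, 9, 8, 8, 6, 7], .l [2, 1, 4, 2, 7, 9, 8, 8, 6, 9], .l [7, 16], .l [17, 9]]),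
([s 2 1, g, p 0 2, s 6 3, g, m 1 0, g, p 4 0, g, p 5 4, s 3 0, g, p 0 5, g, s 0 6, g], .bot 6, [.l [7, 8, 6, 4, 7, 4, 9, 4, 6, 3], .r 4757 [1, 2, 3, 4, 5, 6] [1, 1, 1, 1, 1, 1, 1], .r 4759 [1, 2, 3, 4, 5, 6] [1, 1, 1, 1, 1, 1, 1], .r 4755 [1, 2, 3, 4, 5, 6] [1, 1, 1, 1, 1, 1, 1]]),
([s 2 1, g, p 0 2, s 5 3, g, m 1 0, g, p 4 0, g, p 6 4, s 3 0, g, s 0 5, g, s 0 6, g], .hi 10, [.l [10, 12, 6, 3, 7, 3, 10, 3, 8, 3], .l [4, 3, 6, 2, 10, 2, 10, 5, 7, 1, 6, 3], .l [10, 12, 6, 3, 7, 3, 10, 3, 8, 3], .l [2, 1, 4, 2, 8, 2, 8, 3, 5, 1, 4, 1], .l [10, 12, 4, 1, 7, 5, 10, 3, 8, 1], .l [10, 12, 4, 1, 7, 5, 10, 3, 8, 1], .l [2, 1, 6, 4, 10, 2, 10, 3, 7, 1, 6, 1], .l [10, 12, 4, 1, 5, 3, 10, 3, 8, 3], .l [10, 12, 4, 1, 5, 3,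 10, 3, 8, 3], .l [2, 1, 4, 2, 10, 2, 10, 5, 7, 1, 6, 3], .l [9, 11, 8], .l [8, 12, 6, 1, 7, 5, 2, 5], .l [9, 11, 8], .l [8, 10, 4, 1, 5, 3, 10, 5, 8, 5], .l [8, 14, 8, 1, 9, 7, 10, 1, 8, 1], .l [8, 10, 4, 1, 5, 3, 10, 5, 8, 5], .y [3, 10, 12], .l [8, 10, 4, 1, 5, 3, 10, 5, 8, 3], .l [2, 1, 4, 2, 8, 2, 10, 3, 7, 1, 6, 1], .l [8, 10, 4, 1, 5, 3, 10, 5, 8, 3], .l [8, 10, 4, 1, 5, 3, 8, 8, 0, 3], .l [8, 10, 4, 1, 5, 3, 8, 3, 6, 7], .l [8, 10, 4, 1, 5, 3, 8, 3, 6, 7], .l [8, 10, 4, 1, 5, 3, 8, 10, 2, 5]]),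
([s 2 1, s 0 0, g, p 0 2, s 5 3, g, m 1 0, g, p 4 0, g, p 6 4, s 3 0, g, s 0 5, g, p 0 6, g], .hi 1, [.y [1], .l [5, 4, 1, 6, 2, 10], .l [5, 4, 1], .R 4578 [2, 7] [1, 1, 13], .l [3, 2, 1], .l [11, 1, 6, 11, 4, 2, 6, 12, 8, 9], .l [3, 2, 4], .l [13, 8, 14, 5, 2, 10], .l [11, 1, 6, 11, 4, 2, 4, 12, 10, 3], .l [3, 2, 6], .l [13, 8, 14, 5, 2, 8], .l [3, 2, 8, 3, 0, 4, 8, 5], .l [3, 2, 8], .l [13, 8, 14, 5, 2, 6], .l [3, 2, 11, 15, 12, 3, 0, 4, 10, 7], .l [3, 2, 11], .l [4, 14, 3, 13, 2, 9], .l [3, 2, 11, 1, 7, 10, 2, 7], .l [3, 2, 13, 15, 10, 3, 0, 4, 8, 5], .l [3, 2, 13], .l [11, 6, 14, 4, 11, 9, 4, 8], .l [3, 2, 13], .l [9, 1, 4, 9, 4, 2, 12, 7, 8, 1], .l [3, 2, 15], .l [3, 2, 3, 11, 13, 10, 13, 7, 9, 7, 2, 7]]),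
([s 2 1, g, p 0 2, s 6 3, g, m 1 0, g, m 0 4, g, p 5 0, g, p 4 5, s 3 0, g, s 0 6, g], .hi 12, [.l [1, 5, 14, 6, 3, 4, 10, 2, 8, 1], .l [4, 3, 6, 2, 12, 6, 3, 4, 8, 3, 6, 1], .l [5, 15, 6, 3, 4, 11, 3, 1, 8, 1], .l [2, 1, 4, 2, 10, 6, 3, 4, 6, 1, 4, 1], .l [2, 1, 6, 4, 12, 6, 3, 4, 8, 1, 6, 1], .l [8, 14, 8, 1, 11, 9, 3, 4, 8, 3, 6, 1], .l [2, 1, 6, 4, 12, 6, 3, 4, 8, 1, 6, 1], .l [2, 1, 4, 2, 12, 6, 3, 4, 8, 3, 6, 1], .l [8, 14, 8, 1, 9, 7, 3, 4, 8, 1, 6, 1], .l [2, 1, 4, 2, 12, 6, 3, 4, 8, 3, 6, 1], .l [10, 12, 4, 1, 5, 3, 4, 4, 0, 3], .l [10, 3, 11, 7, 4, 7, 8, 5, 2, 7], .l [10, 3, 11, 7, 4, 7, 8, 5, 2], .l [12, 14, 4, 1, 5, 3, 4, 6, 2, 5], .l [11, 13, 10], .l [2, 1, 4, 2, 12, 8, 5, 1, 4, 1], .l [11, 13, 10],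 .l [2, 1, 4, 2, 12, 8, 3, 4, 8, 3, 6, 1], .l [2, 1, 4, 2, 12, 8, 3, 4, 8, 3, 6, 1], .l [10, 12, 4, 1, 5, 3, 4, 8, 4, 1], .y [3, 12, 14], .l [2, 1, 4, 2, 10, 6, 3, 4, 8, 1, 6, 1], .l [2, 1, 4, 2, 10, 6, 3, 4, 8, 1, 6, 1], .l [10, 12, 4, 1, 5, 3, 4, 10, 6, 1]]),
([s 2 1, g, p 0 2, s 6 3, g, m 1 0, g, s 0 4, g, p 5 0, g, p 4 5, s 3 0, g, s 0 6, g], .hi 12, [.l [4, 3, 8, 10, 11, 7, 4, 2, 4, 5], .l [4, 3, 6, 2, 12, 6, 3, 4, 8, 3, 6, 1], .l [4, 3, 8, 10, 11, 7, 4, 2, 8, 1, 2, 5], .l [2, 1, 4, 2, 10, 6, 3, 4, 6, 1, 4, 1], .l [4, 9, 11, 12, 8, 1, 4, 2, 4, 5], .l [4, 9, 11, 12, 8, 1, 4, 2, 4, 5], .l [2, 1, 6, 4, 12, 6, 3, 4, 8, 1, 6, 1], .l [6, 9, 11, 12, 6, 1, 7, 5, 2, 5], .l [2, 1, 8, 10, 13, 8, 1, 7, 1, 4, 2, 5], .l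 [2, 1, 4, 2, 12, 6, 3, 4, 8, 3, 6, 1], .l [10, 12, 4, 1, 5, 3, 4, 4, 0, 3], .l [2, 1, 6, 10, 11, 7, 4, 2, 4, 5], .l [2, 1, 6, 10, 11, 7, 4, 2, 8, 1, 2, 5], .l [12, 14, 4, 1, 5, 3, 4, 6, 2, 5], .l [11, 13, 10], .l [6, 14, 10, 1, 11, 9, 5, 1, 4, 1], .l [11, 13, 10], .l [10, 12, 4, 1, 5, 3, 4, 8, 4, 1], .l [2, 1, 4, 2, 12, 8, 3, 4, 8, 3, 6, 1], .l [10, 12, 4, 1, 5, 3, 4, 8, 4, 1], .y [3, 12, 14], .l [10, 12, 4, 1, 5, 3, 4, 10, 6, 1], .l [2, 1, 4, 2, 10, 6, 3, 4, 8, 1, 6, 1], .l [10, 12, 4, 1, 5, 3, 4, 10, 6, 1]]),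
([s 2 1, s 0 0, g, p 0 2, s 5 3, g, m 1 0, g, p 4 0, g, p 0 4, s 3 0, g, s 0 5, g], .lo 10, [.l [3, 2, 8], .l [9, 6, 10, 2, 7, 9, 2, 5], .l [3, 11], .l [9, 6, 10, 2, 7, 9, 2, 5], .l [4, 14, 2, 6, 1, 6, 4, 2, 7, 2], .l [6, 11], .l [9, 3, 10, 6, 11, 4, 5, 2, 7, 2], .l [7, 1, 8, 6, 9, 2, 3, 2, 5, 2], .r 4764 [1, 2, 3, 6, 4, 5] [2, 1, 1, 1, 1, 1, 1], .l [8, 11], .r 4763 [1, 2, 3, 6, 4, 5] [2, 1, 1, 1, 1, 1, 1], .y [8, 10], .l [3, 2, 5, 2, 12, 4, 1, 4, 2, 7], .l [10, 11], .l [3, 2, 5, 2, 12, 4, 1, 4, 2, 7], .l [9, 11, 5, 2, 6, 3, 0, 5], .l [9, 15, 9, 2, 10, 7, 2, 4, 2, 7], .r 4760 [1, 2, 3, 4, 6, 5] [2, 1, 1, 1, 1, 1, 1], .l [9, 15, 9, 2, 10, 7, 2, 4, 2, 7], .r 4761 [1, 2, 3, 4, 5, 6] [2, 1, 1, 1, 1, 1, 1], .r 4762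 [1, 2, 3, 4, 5, 6] [1, 1, 1, 1, 1, 1, 1], .r 4753 [1, 2, 3, 4, 5, 6] [2, 1, 1, 1, 1, 1, 1]]),
([s 2 1, s 0 0, g, p 0 2, s 0 3, g, p 4 0, g, m 1 0, g, p 0 4, s 3 0, g], .hi 1, [.y [1], .l [5, 4, 1, 8, 4, 8], .l [5, 4, 1], .R 4578 [2, 5] [1, 1, 9], .l [3, 2, 1], .l [10, 6, 10, 5, 7, 5, 2, 5], .l [12, 8, 12, 5, 7, 5, 2, 5], .l [3, 2, 4], .l [12, 8, 12, 5, 7, 5, 2, 5], .l [12, 8, 12, 5, 9, 7, 2, 3], .l [3, 2, 6], .l [12, 8, 12, 5, 9, 7, 2, 3], .l [12, 8, 12, 7, 9, 5, 2, 5], .l [3, 2, 8], .l [12, 8, 12, 7, 9, 5, 2, 5], .l [3, 2, 8], .l [10, 6, 10, 5, 7, 5, 2, 7], .l [3, 2, 11], .r 4664 [1, 5, 2] [1, 4, 4, 1]]),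
([s 2 1, s 0 0, g, p 0 2, s 4 3, g, m 1 0, g, p 0 0, s 3 0, g, s 0 4, g], .hi 8, [.l [3, 2, 5, 2, 6, 1], .l [5, 4, 7, 2, 8, 3], .l [5, 4, 7, 2, 8, 3], .l [10, 6], .l [3, 2, 5, 2, 6, 3], .l [3, 2, 7, 4, 8, 5], .r 4766 [1, 2, 3, 5] [1, 1, 1, 1, 3], .l [10, 3], .l [3, 2, 5, 2, 8, 1], .r 4765 [1, 2, 3, 5, 4] [1, 1, 1, 1, 1, 1], .l [10, 1], .y [8], .l [3, 2, 5, 2, 6, 7], .l [8, 10], .l [11, 2], .l [3, 2, 5, 2, 6, 7], .l [3, 2, 5, 2, 6, 9], .l [8, 12], .l [13, 4]]),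
([s 2 1, s 0 0, g, p 0 2, s 0 3, g, m 1 0, s 3 0, g], .hi 1, [.y [1], .l [5, 4, 1, 6, 2, 5], .l [5, 4, 1], .R 4578 [2, 4] [1, 1, 5], .l [3, 2, 1], .l [3, 2, 5, 2, 4, 3], .l [3, 2, 7, 4, 6, 3], .l [3, 2, 4], .l [3, 2, 7, 4, 6, 3], .l [3, 2, 5, 2, 4, 5], .l [3, 2, 7], .l [9, 7, 8, 6, 2, 4]]),
([s 2 1, g, p 0 2, s 5 3, g, m 1 0, g, p 4 0, g, s 0 4, s 3 0, g, s 0 5, g], .lo 9, [.l [4, 3, 6, 2, 8, 3], .l [4, 3, 6, 2, 10, 4, 1, 4, 2, 5], .l [4, 3, 6, 2, 8, 3], .l [2, 1, 6, 4, 8, 5], .l [2, 1, 6, 4, 8, 5], .l [2, 1, 6, 4, 10, 4, 1, 6, 4, 5], .l [2, 1, 4, 2, 8, 4, 1, 4, 2, 3], .l [2, 1, 4, 2, 8, 3], .l [2, 1, 4, 2, 8, 3], .l [2, 1, 4, 2, 10, 4, 1, 4, 2, 5], .y [7, 9], .l [2, 1, 4, 2, 8, 1], .l [2, 1, 4, 2, 8, 1], .l [2,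 1, 4, 2, 10, 4, 1, 4, 2, 5], .c, .l [2, 1, 4, 2, 6, 7], .l [2, 1, 4, 2, 10, 6, 1, 4, 2, 5], .l [2, 1, 4, 2, 6, 7], .l [2, 1, 4, 2, 6, 9], .l [2, 1, 4, 2, 8, 4, 1, 8, 6, 3], .l [2, 1, 4, 2, 6, 9]]),
([s 2 1, g, m 4 0, g, p 0 2, s 5 3, g, m 1 0, g, s 0 4, s 3 0, g, s 0 5, g], .lo 9, [.l [6, 5, 8, 2, 8, 1], .l [6, 5, 8, 2, 10, 4, 1, 4, 2, 5], .l [6, 5, 8, 2, 8, 1], .y [2, 9], .l [6, 5, 8, 2, 8, 3], .l [6, 5, 8, 2, 10, 4, 1, 4, 2, 5], .l [6, 5, 8, 2, 8, 3], .l [4, 3, 8, 4, 8, 5], .l [4, 3, 8, 4, 8, 5], .l [4, 3, 8, 4, 10, 4, 1, 6, 4, 5], .l [4, 3, 6, 2, 8, 4, 1, 4, 2, 3], .l [4, 3, 6, 2, 8, 1], .l [4, 3, 6, 2, 8, 1], .l [4, 3, 6, 2, 10, 4, 1, 4, 2, 5], .c, .l [4, 3, 6, 2, 6, 7], .l [2, 8, 11, 2, 6, 1], .l [4, 3, 6,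 2, 6, 7], .l [4, 3, 6, 2, 6, 9], .l [2, 8, 13, 4, 8, 1], .l [4, 3, 6, 2, 6, 9]]),
([s 2 1, g, p 0 2, s 5 3, g, p 4 0, g, m 1 0, g, s 0 4, s 3 0, g, s 0 5, g], .lo 9, [.l [4, 3, 8, 4, 8, 1], .l [4, 3, 8, 4, 10, 4, 1, 6, 4, 5], .l [4, 3, 8, 4, 8, 1], .l [2, 1, 8, 6, 8, 5], .l [2, 1, 8, 6, 8, 5], .l [2, 1, 8, 6, 10, 6, 3, 6, 2, 5], .y [5, 9], .l [2, 1, 8, 6, 8, 3], .l [2, 1, 8, 6, 8, 3], .l [2, 1, 8, 6, 10, 6, 3, 6, 2, 5], .l [2, 1, 6, 4, 8, 4, 1, 4, 2, 3], .l [2, 1, 6, 4, 8, 1], .l [2, 1, 6, 4, 8, 1], .l [2, 1, 6, 4, 10, 4, 1, 6, 4, 5], .c, .l [2, 1, 6, 4, 6, 7], .l [2, 1, 6, 4, 10, 8, 3, 6, 2, 5], .l [2, 1, 6, 4, 6, 7], .l [2, 1, 6, 4, 6, 9], .l [2, 1, 6, 4, 8, 6, 3, 8, 4, 1], .l [2, 1, 6, 4, 6, 9]]),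
([s 2 1, g, p 0 2, s 4 3, g, m 1 0, g, s 0 0, s 3 0, g, s 0 4, g], .hi 7, [.l [4, 3, 6, 2, 6, 1], .l [4, 3, 6, 2, 6, 1], .r 4770 [1, 2, 3, 5, 4] [1, 1, 1, 1, 1, 1], .l [2, 1, 4, 2, 4, 1], .l [2, 1, 6, 4, 6, 3], .r 4771 [1, 2, 3, 5, 4] [1, 1, 1, 1, 1, 1], .l [2, 1, 6, 4, 6, 3], .l [2, 1, 4, 2, 6, 1], .r 4769 [1, 2, 3, 5, 4] [1, 1, 1, 1, 1, 1], .l [2, 1, 4, 2, 6, 1], .y [7], .l [2, 1, 4, 2, 4, 5], .l [2, 1, 4, 2, 4, 5], .l [2, 1, 9, 2, 5, 1, 4, 5], .l [2, 1, 4, 2, 4, 5], .l [2, 1, 4, 2, 4, 7], .l [2, 1, 4, 2, 4, 7], .l [2, 1, 11, 4, 7, 1, 6, 1]]),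
([s 2 1, s 0 0, g, p 0 2, s 4 3, g, m 1 0, g, s 3 0, g, s 0 4, g], .bot 7, [.r 4768 [1, 2, 3] [1, 1, 3], .r 4772 [1, 2, 3, 4] [2, 1, 1, 1, 1], .r 4767 [1, 2, 3, 4] [1, 1, 1, 1, 1], .r 4752 [1, 2, 3, 4] [1, 1, 1, 1, 1]]),
([s 3 1, s 0 2, g, p 0 3, m 0 4, g, m 2 5, g, m 5 6, g, m 6 0, g, m 4 0, g, m 1 0, g], .lo 1, [.l [5, 4, 1, 14, 10, 12, 9, 9, 7, 7, 5, 7, 5], .l [9, 14, 10, 4, 5, 10, 7, 1, 8, 6, 8, 2, 5], .l [5, 4, 1], .l [6, 4, 7, 2, 4, 6, 3, 9, 3, 5, 3, 7, 1], .l [6, 4, 7, 2, 4], .l [1, 5, 13, 11, 1], .l [7, 14, 10, 2, 5, 10, 12, 4, 5, 7, 3, 3, 1], .l [6, 4, 7, 2, 4], .l [1, 7, 9, 7, 11, 9, 1], .l [10, 8, 8, 3, 3, 1, 8, 6, 8, 6, 1, 7, 5], .l [6, 4, 9, 4, 6], .l [1, 9, 11, 9, 9, 7, 9, 7, 1], .y [1, 6, 8, 10],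 .l [12, 10, 10, 5, 5, 3, 3, 1, 8, 4, 1, 7, 5], .l [6, 4, 11, 6, 8], .l [1, 11, 13, 5, 1], .l [1, 11, 11, 3, 1], .l [8, 12, 7, 2, 11, 1, 5, 3, 7, 3, 5, 7, 3], .l [6, 4, 13, 8, 10], .l [3, 2, 12], .l [3, 2, 12], .l [8, 12, 7, 2, 13, 3, 7, 3, 9, 5, 3, 1, 5], .l [6, 4, 15, 10, 12], .l [3, 2, 14]]),
([s 3 1, s 0 2, g, p 0 3, m 0 4, g, m 2 5, g, m 5 0, g, m 4 0, g, m 1 0, g], .hi 8, [.y [1, 6, 8], .l [3, 9, 9, 7, 9, 7, 1], .l [6, 3, 9, 9, 7, 9, 4, 6, 3], .l [3, 9], .l [4, 1, 7, 7, 5, 7, 2, 4, 3], .l [4, 7], .l [5, 12, 10, 2, 11, 8, 3], .l [5, 12, 10, 2, 11, 8, 3], .l [6, 9], .l [7, 10, 8, 10, 8, 2, 9, 6, 1], .l [7, 10, 8, 10, 8, 2, 9, 6, 1], .l [8, 9], .l [7, 8, 6, 10, 8, 2, 9, 6, 1], .l [7, 8, 6, 10, 8, 2, 9, 6, 1],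 .r 4774 [1, 2, 3, 4, 5, 6] [1, 1, 1, 1, 1, 1, 1], .l [7, 8, 6, 8, 6, 2, 9, 6, 3], .l [7, 8, 6, 8, 6, 2, 9, 6, 3], .l [7, 8, 6, 12, 6, 9, 2, 7, 1, 6, 3], .l [7, 8, 6, 8, 6, 2, 7, 4, 7], .l [7, 8, 6, 8, 6, 2, 7, 4, 7], .l [7, 8, 6, 10, 4, 7, 2, 5, 8, 2, 5]]),
([s 3 1, s 0 2, g, p 0 3, m 0 4, g, m 2 0, g, m 4 0, g, m 1 0, g], .hi 6, [.y [1, 6], .l [3, 7, 9, 7, 1], .l [6, 3, 7, 9, 4, 6, 3], .l [3, 7], .l [4, 1, 5, 7, 2, 4, 3], .l [4, 5], .l [5, 10, 8, 2, 9, 6, 1], .l [5, 10, 8, 2, 9, 6, 1], .l [6, 7], .l [5, 10, 8, 2, 9, 6, 1], .l [5, 10, 8, 2, 9, 6, 1], .r 4775 [1, 2, 3, 4, 5] [1, 1, 1, 1, 1, 1], .l [5, 8, 6, 2, 9, 6, 3], .l [5, 8, 6, 2, 9, 6, 3], .l [5, 12, 6, 9, 2, 7, 1, 6, 3], .l [5, 8, 6, 2, 7, 4, 7], .l [5, 8,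 6, 2, 7, 4, 7], .l [5, 10, 4, 7, 2, 5, 8, 2, 5]]),
([s 3 1, s 0 2, g, p 0 3, m 0 0, g, m 2 0, g, m 1 0, g], .hi 4, [.l [1, 3, 1], .l [3, 5, 1], .l [8, 5, 2, 6, 1], .l [3, 5], .l [6, 3, 0, 4, 1], .y [4], .l [3, 2, 9, 6, 1], .l [3, 2, 9, 6, 1], .l [4, 10, 5, 1, 7, 2, 3], .l [3, 2, 9, 6, 3], .l [3, 2, 9, 6, 3], .r 4776 [1, 2, 3, 4] [1, 1, 1, 1, 1], .l [3, 2, 7, 4, 7], .l [3, 2, 7, 4, 7], .l [6, 4, 7, 1, 7, 2, 4]]),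
([s 3 1, s 0 2, g, p 0 3, p 6 0, g, m 2 4, g, m 4 5, g, m 5 0, g, p 0 6, g, m 1 0, g], .lo 1, [.l [5, 4, 1, 14, 10, 12, 9, 9, 7, 7, 5, 7, 5], .l [9, 14, 10, 4, 5, 10, 7, 1, 8, 6, 8, 2, 5], .l [5, 4, 1], .l [4, 2, 5, 2, 2], .l [6, 4, 7, 2, 4, 6, 3, 9, 3, 5, 3, 7, 1], .l [6, 4, 7, 2, 4], .l [1, 5, 13, 11, 1], .l [7, 14, 10, 2, 5, 10, 12, 4, 5, 7, 3, 3, 1], .l [6, 4, 7, 2, 4], .l [1, 7, 9, 7, 11, 9, 1], .l [10, 8, 8, 3, 3, 1, 8, 6, 8, 6, 1, 7, 5], .l [6, 4, 9, 4, 6], .l [1, 9, 11, 9, 9, 7, 9, 7, 1], .y [1, 6, 8, 10], .l [12, 10, 10, 5, 5, 3, 3, 1, 8, 4, 1, 7, 5], .l [6, 4, 11, 6, 8], .l [1, 11, 13, 5, 1], .l [8, 12, 7, 2, 11, 1, 5, 3, 7, 3, 5, 7, 3], .l [6, 4, 13, 8, 10], .l [3, 2, 12], .l [3, 2, 12], .l [8, 12, 7,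 2, 13, 3, 7, 3, 9, 5, 3, 1, 5], .l [6, 4, 15, 10, 12], .l [3, 2, 14]]),
([s 3 1, s 0 2, g, p 0 3, p 5 0, g, m 2 4, g, m 4 0, g, p 0 5, g, m 1 0, g], .hi 8, [.y [1, 6, 8], .l [3, 9, 9, 7, 9, 7, 1], .l [6, 3, 9, 9, 7, 9, 4, 6, 3], .l [3, 9], .l [4, 1, 7, 7, 5, 7, 2, 4, 3], .l [5, 12, 10, 2, 11, 8, 3], .l [5, 12, 10, 2, 11, 8, 3], .l [6, 9], .l [7, 10, 8, 10, 8, 2, 9, 6, 1], .l [7, 10, 8, 10, 8, 2, 9, 6, 1], .l [8, 9], .l [7, 8, 6, 10, 8, 2, 9, 6, 1], .l [7, 8, 6, 10, 8, 2, 9, 6, 1], .r 4778 [1, 2, 3, 4, 6, 5] [1, 1, 1, 1, 1, 1, 1], .l [7, 8, 6, 8, 6, 2, 7, 4, 1], .l [7, 8, 6, 8, 6, 2, 9, 6, 3], .l [7, 8, 6, 8, 6, 2, 9, 6, 3], .l [7, 8, 6, 12, 6, 9, 2, 7, 1, 6, 3], .l [7, 8, 6, 8, 6, 2, 7, 4, 7], .l [7, 8, 6, 8, 6,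 2, 7, 4, 7], .l [7, 8, 6, 10, 4, 7, 2, 5, 8, 2, 5]]),
([s 3 1, s 0 2, g, p 0 3, p 4 0, g, m 2 0, g, p 0 4, g, m 1 0, g], .hi 6, [.y [1, 6], .l [3, 7, 9, 7, 1], .l [6, 3, 7, 9, 4, 6, 3], .l [3, 7], .l [4, 1, 5, 7, 2, 4, 3], .l [5, 10, 8, 2, 9, 6, 1], .l [5, 10, 8, 2, 9, 6, 1], .l [6, 7], .l [5, 10, 8, 2, 9, 6, 1], .l [5, 10, 8, 2, 9, 6, 1], .r 4779 [1, 2, 3, 5, 4] [1, 1, 1, 1, 1, 1], .l [5, 8, 6, 2, 7, 4, 1], .l [5, 8, 6, 2, 9, 6, 3], .l [5, 8, 6, 2, 9, 6, 3], .l [5, 12, 6, 9, 2, 7, 1, 6, 3], .l [5, 8, 6, 2, 7, 4, 7], .l [5, 8, 6, 2, 7, 4, 7], .l [5, 10, 4, 7, 2, 5, 8, 2, 5]]),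
([s 3 1, s 0 2, g, p 0 3, p 0 0, g, m 2 0, g, m 1 0, g], .lo 4, [.l [3, 5, 1], .l [3, 5], .l [8, 5, 2, 6, 1], .y [4], .l [3, 2, 9, 6, 1], .l [4, 10, 5, 1, 7, 2, 3], .l [3, 2, 9, 6, 1], .l [3, 2, 7, 4, 1], .l [3, 2, 9, 6, 3], .r 4780 [1, 2, 3, 4] [1, 1, 1, 1, 1], .l [3, 2, 9, 6, 3], .l [3, 2, 7, 4, 3], .l [3, 2, 7, 4, 7], .l [6, 4, 7, 1, 7, 2, 4], .l [3, 2, 7, 4, 7]]),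
([s 3 1, s 6 2, g, p 0 3, m 2 4, g, s 0 5, g, s 5 6, g, m 4 0, g, m 1 0, g], .lo 3, [.l [1, 9, 6, 1, 7, 2, 7, 2, 4, 1], .l [3, 4], .l [1, 9, 6, 1, 7, 2, 7, 2, 4, 1], .l [7, 12, 8, 2, 4, 8, 5, 8, 2, 5], .l [7, 12, 8, 2, 4, 8, 5, 8, 2, 5], .l [4, 1, 5, 11, 6, 8, 1], .l [5, 2, 6, 10, 4, 6, 3, 1, 1, 6, 2, 3], .l [1, 9, 11, 5, 1, 6, 3, 6, 1, 6, 4, 1], .l [4, 1, 7, 11, 4, 6, 1], .l [5, 2, 8, 10, 2, 4, 1, 8, 4, 1], .l [5, 12, 10, 2, 4, 6, 3, 8, 4, 5], .l [4, 1, 9, 11, 2, 4, 1], .l [4, 1, 9, 9, 0, 2, 1], .l [3, 2, 6, 10, 5, 10, 4, 5], .l [3, 2, 6, 10, 5, 10, 4, 5], .l [8, 1, 4, 9, 4, 6, 1, 4, 4, 1], .y [0, 12, 3], .l [3, 2, 6, 12, 7, 3, 6, 1], .l [3, 2, 6, 12, 7, 3, 6, 1], .l [8, 1, 4, 11, 6, 8, 1, 6, 6, 3]]),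
([s 4 1, s 6 2, g, m 0 3, g, p 0 4, m 2 5, g, s 3 6, g, m 5 0, g, m 1 0, g], .hi 10, [.l [3, 11, 11, 7, 3], .l [1, 9, 6, 9, 1, 3, 8, 4, 5, 7, 1, 5, 1], .l [3, 11], .y [1, 6, 10, 3, 8], .l [5, 11, 11, 7, 1], .l [1, 9, 4, 9, 1, 5, 1, 3, 6, 2, 3, 5, 1], .l [5, 11], .l [1, 7, 2, 7, 1, 5, 1, 3, 4, 0, 1, 3, 1], .l [7, 12, 10, 4, 6, 6, 1, 8, 4, 1], .l [5, 4, 8, 1, 8, 6, 4, 8, 4, 6, 5, 5, 3], .l [8, 11], .l [9, 12, 8, 4, 8, 8, 1, 8, 4, 1], .l [1, 7, 11, 9, 3, 10, 6, 8, 7, 7, 3, 5, 1], .l [10, 11], .l [9, 10, 6, 4, 6, 6, 1, 8, 4, 1], .l [9, 10, 6, 4, 6, 6, 1, 8, 4, 1], .l [1, 7, 9, 7, 3, 10, 6, 8, 7, 7, 5, 5, 3], .l [9, 10, 6, 4, 6, 6, 1, 6, 2, 5], .l [1, 7, 9, 7, 3, 8, 4, 6, 5, 5, 3, 3, 3], .l [1, 7, 9, 7, 3, 8, 4, 6,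 5, 5, 3, 5, 1]]),
([s 3 1, s 5 2, g, p 0 3, m 2 4, g, s 0 5, g, m 4 0, g, m 1 0, g], .lo 6, [.l [6, 4, 1, 5, 7, 4, 4, 1], .l [3, 7, 9, 7, 1], .r 4783 [1, 2, 6, 3, 4, 5] [1, 1, 1, 1, 1, 1], .r 4782 [1, 2, 3, 4, 6, 5] [1, 1, 1, 1, 1, 1], .l [8, 1, 9, 5, 2], .l [5, 10, 8, 2, 9, 6, 1], .l [8, 1, 9, 5, 2, 5], .l [8, 1, 9, 5, 2], .l [5, 10, 8, 2, 9, 6, 1], .y [1, 4, 8, 6], .l [3, 2, 4, 8, 3, 6, 2, 6, 4, 1], .l [3, 2, 4, 8, 3, 6, 2, 6, 4, 1], .l [5, 8, 6, 2, 9, 6, 3], .l [5, 8, 6, 2, 7, 4, 3], .l [3, 2, 4, 10, 5, 1, 6, 3], .l [3, 2, 4, 10, 5, 1, 6, 3], .l [5, 8, 6, 2, 7, 4, 7]]),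
([s 0 1, s 3 2, g, m 1 0, p 4 3, g, s 2 0, g, p 0 4, g], .lo 0, [.l [2], .l [3, 2, 6, 8, 6, 1], .l [2], .y [0, 3], .l [5], .l [4, 2, 5, 1, 7, 4, 4], .l [5], .l [5], .l [7], .l [4, 2, 7, 3, 7, 2, 2], .l [7], .l [9], .R 4784 [5, 3, 1, 4, 2] [1, 1, 1, 1, 1], .l [9]]),
([s 4 1, s 3 2, g, s 0 3, g, p 0 4, m 2 5, g, m 5 6, g, m 1 0, g, m 6 0, g], .hi 10, [.l [3, 11, 13, 11, 11, 9, 3], .l [1, 4, 1, 9, 11, 9, 9, 7, 2, 4, 1, 5, 1], .l [3, 11], .l [3, 9, 11, 9, 9, 7, 1], .l [5, 11, 13, 11, 11, 9, 1], .l [8, 3, 11, 13, 11, 11, 4, 8, 3], .l [5, 11], .y [0, 10, 5], .l [7, 10, 8, 4, 1, 8, 4, 3], .l [5, 4, 1, 10, 6, 8, 7, 7, 3, 7, 3, 5, 3], .l [8, 11], .l [9, 14, 12, 12, 10, 4, 1, 6, 2, 1], .l [5, 4, 1, 10, 6, 8, 7, 7, 5, 7,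 1, 5, 1], .l [10, 11], .l [9, 14, 12, 12, 10, 4, 1, 4, 0, 3], .l [9, 14, 12, 12, 10, 4, 1, 4, 0, 3], .l [5, 4, 1, 8, 4, 6, 5, 5, 3, 7, 3, 5, 3], .l [9, 12, 10, 10, 8, 4, 1, 4, 0, 5], .l [5, 4, 1, 8, 4, 6, 5, 5, 3, 5, 1, 3, 3], .l [5, 4, 1, 8, 4, 6, 5, 5, 3, 5, 1, 5, 1]]),
([s 4 1, s 3 2, g, s 0 3, g, p 0 4, m 2 5, g, m 5 6, g, m 6 0, g, m 1 0, g], .hi 10, [.l [3, 11, 11, 9, 9, 7, 3], .l [1, 4, 1, 9, 9, 7, 7, 5, 2, 6, 3, 5, 3], .l [3, 11], .y [1, 6, 8, 10, 3], .l [5, 11, 11, 9, 9, 7, 1], .l [7, 6, 1, 12, 6, 10, 9, 9, 7, 7, 5, 5, 1], .l [5, 11], .l [5, 4, 1, 10, 6, 8, 7, 7, 5, 5, 3, 3, 1], .l [7, 10, 8, 4, 1, 10, 6, 3], .l [5, 4, 1, 12, 8, 10, 9, 9, 5, 5, 3, 5, 1], .l [8, 11], .l [9, 12, 10, 10, 8, 4, 1, 8, 4, 1],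 .l [5, 4, 1, 12, 8, 10, 9, 9, 7, 7, 3, 5, 1], .l [10, 11], .l [9, 10, 8, 8, 6, 4, 1, 8, 4, 1], .l [9, 10, 8, 8, 6, 4, 1, 8, 4, 1], .l [5, 4, 1, 12, 8, 10, 9, 9, 7, 7, 5, 5, 3], .l [9, 10, 8, 8, 6, 4, 1, 6, 2, 5], .l [5, 4, 1, 10, 6, 8, 7, 7, 5, 5, 3, 3, 3], .l [5, 4, 1, 10, 6, 8, 7, 7, 5, 5, 3, 5, 1]]),
([s 4 1, s 3 2, g, s 0 3, g, p 0 4, m 2 5, g, m 5 0, g, m 1 0, g], .hi 8, [.l [3, 9, 9, 7, 3], .l [8, 5, 9, 9, 4, 6, 1], .l [3, 9], .y [1, 6, 8, 3], .l [5, 9, 9, 7, 1], .l [8, 3, 9, 9, 2, 6, 3], .l [5, 9], .l [6, 1, 7, 7, 0, 4, 3], .l [7, 10, 8, 4, 1, 8, 4, 1], .l [7, 10, 8, 4, 1, 8, 4, 1], .l [8, 9], .l [7, 8, 6, 4, 1, 8, 4, 1], .l [7, 8, 6, 4, 1, 8, 4, 1], .r 4787 [1, 2, 3, 4, 5, 6] [1, 1, 1, 1, 1, 1], .l [7,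 8, 6, 4, 1, 6, 2, 5], .l [7, 8, 6, 4, 1, 6, 2, 5], .r 4786 [1, 2, 3, 4, 5, 6] [1, 1, 1, 1, 1, 1]]),
([s 2 1, s 4 0, g, p 0 2, m 1 3, g, m 3 0, g, p 0 4, g], .hi 1, [.l [10, 8, 4, 7, 3, 6, 0, 3], .l [5, 4, 1], .l [10, 8, 9, 5, 0, 4, 5], .l [3, 2, 1], .l [6, 4, 9, 4, 6, 3], .l [1, 5, 7, 5, 1], .l [6, 4, 9, 4, 6], .l [8, 6, 7, 4, 7, 3, 0, 3], .l [3, 2, 6], .l [8, 6, 9, 2, 6], .y [1, 8], .l [8, 6, 7, 4, 7, 3, 0, 3], .l [3, 2, 8], .l [8, 6, 9, 2, 6]]),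
([s 2 1, s 3 0, g, p 0 2, m 1 0, g, p 0 3, g], .hi 4, [.l [3, 5, 1], .l [8, 5, 2, 6, 1], .l [3, 5], .y [0, 4, 3], .l [3, 2, 3, 0, 3], .l [3, 2, 3, 0, 3], .r 4789 [1, 2, 4, 3] [1, 1, 1, 1], .l [3, 2, 3, 0, 3], .l [3, 2, 3, 0, 5], .l [3, 2, 3, 0, 5], .l [6, 1, 8, 5, 2, 4, 1]]),
([s 2 1, s 4 0, g, p 0 2, m 0 3, g, m 3 0, g, m 1 0, g, p 0 4, g], .hi 6, [.l [3, 7, 7, 5, 1], .l [12, 9, 4, 4, 2, 8, 1], .l [3, 7], .l [10, 7, 2, 2, 0, 6, 1], .y [4, 6], .l [5, 8, 6, 2, 7, 4, 1], .l [5, 8, 6, 2, 7, 4, 1], .l [6, 7], .l [5, 6, 4, 2, 7, 4, 1], .l [5, 6, 4, 2, 7, 4, 1], .l [5, 12, 7, 1, 9, 7, 1, 6, 3], .l [5, 6, 4, 2, 5, 2, 5], .l [5, 6, 4, 2, 5, 2, 5], .l [5, 2, 11, 7, 9, 7, 1, 6, 3], .l [5, 6, 4, 2, 5, 2, 5], .l [5, 6, 4,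 2, 5, 2, 7], .l [5, 6, 4, 2, 5, 2, 7], .l [10, 1, 12, 7, 7, 5, 2, 6, 3]]),
([s 2 1, s 4 0, g, p 0 2, m 0 3, g, m 1 0, g, m 3 0, g, p 0 4, g], .hi 1, [.l [12, 10, 6, 9, 3, 8, 2, 5], .l [5, 4, 1], .l [12, 10, 11, 7, 2, 6, 7], .l [3, 2, 1], .l [4, 2, 9, 6, 6], .l [6, 4, 11, 6, 8, 3], .l [1, 5, 9, 7, 1], .l [6, 4, 11, 6, 8], .l [8, 6, 11, 4, 8, 5], .l [1, 7, 9, 5, 1], .l [8, 6, 11, 4, 8], .l [10, 8, 9, 4, 9, 5, 2, 5], .l [3, 2, 8], .l [10, 8, 11, 2, 8], .y [1, 10], .l [10, 8, 9, 4, 9, 5, 2, 5], .l [3, 2, 10], .l [10, 8, 11, 2, 8]]),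
([s 2 1, s 3 0, g, p 0 2, m 0 0, g, m 1 0, g, p 0 3, g], .hi 4, [.l [3, 5, 1], .l [10, 7, 2, 8, 1], .l [3, 5], .l [8, 5, 0, 6, 1], .y [4], .l [3, 2, 7, 4, 1], .l [3, 2, 7, 4, 1], .r 4791 [1, 2, 4, 3] [1, 1, 1, 1, 1], .l [3, 2, 5, 2, 5], .l [3, 2, 5, 2, 5], .r 4792 [1, 2, 4, 3] [1, 1, 1, 1, 1], .l [3, 2, 5, 2, 5], .l [3, 2, 5, 2, 7], .l [3, 2, 5, 2, 7], .l [8, 1, 10, 5, 2, 6, 3]]),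
([s 2 1, s 4 0, g, p 0 2, p 3 0, g, m 1 0, g, p 0 3, g, p 0 4, g], .hi 1, [.l [12, 10, 6, 9, 3, 8, 2, 5], .l [5, 4, 1], .l [12, 10, 11, 7, 2, 6, 7], .l [3, 2, 1], .l [6, 4, 11, 6, 8, 3], .l [1, 5, 9, 7, 1], .l [6, 4, 11, 6, 8], .l [8, 6, 11, 4, 8, 5], .l [1, 7, 9, 5, 1], .l [8, 6, 11, 4, 8], .l [1, 7, 7, 3, 1], .l [10, 8, 9, 4, 9, 5, 2, 5], .l [3, 2, 8], .l [10, 8, 11, 2, 8], .y [1, 10], .l [10, 8, 9, 4, 9, 5, 2, 5], .l [3, 2, 10], .l [10, 8, 11, 2, 8]]),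
([s 2 1, s 4 0, g, p 0 2, p 3 0, g, p 0 3, g, m 1 0, g, p 0 4, g], .lo 6, [.l [1, 5, 5, 3, 1], .l [3, 7, 7, 5, 1], .l [3, 7], .l [12, 9, 4, 4, 2, 8, 1], .y [4, 6], .l [5, 8, 6, 2, 7, 4, 1], .l [6, 7], .l [5, 8, 6, 2, 7, 4, 1], .l [5, 6, 4, 2, 7, 4, 1], .l [5, 12, 7, 1, 9, 7, 1, 6, 3], .l [5, 6, 4, 2, 7, 4, 1], .l [5, 6, 4, 2, 5, 2, 1], .l [5, 6, 4, 2, 5, 2, 5], .l [5, 2, 11, 7, 9, 7, 1, 6, 3], .l [5, 6, 4, 2, 5, 2, 5], .l [5, 6, 4, 2, 5, 2, 7], .l [10, 1, 12, 7, 7, 5, 2, 6, 3], .l [5, 6, 4, 2, 5, 2, 7]]),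
([s 2 1, s 3 0, g, p 0 2, p 0 0, g, m 1 0, g, p 0 3, g], .lo 4, [.l [1, 3, 1], .l [3, 5, 1], .l [3, 5], .l [10, 7, 2, 8, 1], .y [4], .l [3, 2, 7, 4, 1], .r 4795 [1, 2, 4, 3] [1, 1, 1, 1, 1], .l [3, 2, 7, 4, 1], .l [3, 2, 5, 2, 1], .l [3, 2, 5, 2, 5], .r 4794 [1, 2, 4, 3] [1, 1, 1, 1, 1], .l [3, 2, 5, 2, 5], .l [3, 2, 5, 2, 7], .l [8, 1, 10, 5, 2, 6, 3], .l [3, 2, 5, 2, 7]]),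
([s 2 1, s 3 0, g, p 0 2, g, m 1 0, g, p 0 3, g], .top 4, [.r 4790 [1, 2, 3] [1, 1, 1], .r 4711 [1, 2, 3] [1, 1, 1, 1], .r 4796 [1, 2, 3] [1, 1, 1, 1], .r 4793 [1, 2, 3] [1, 1, 1, 1]]),
([s 0 1, s 3 2, g, s 2 0, g, m 1 0, p 4 3, g, p 0 4, g], .lo 0, [.l [2], .l [5, 3, 7, 3, 4, 6, 4, 1], .l [2], .l [2], .l [4], .r 4797 [1, 5, 3] [3, 1, 0, 3], .l [4], .y [0, 5], .l [7], .l [6, 4, 7, 1, 7, 4, 4], .l [7], .l [9], .R 4788 [5, 3, 2, 1, 4] [1, 1, 1, 1, 1], .l [9]]),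
([s 0 1, s 2 0, g, m 1 0, p 3 2, g, p 0 3, g], .hi 1, [.c, .r 4798 [1, 4, 2, 3] [1, 1, 1, 1], .l [5, 4, 1], .l [6, 4, 7, 2, 3, 0, 3], .r 4785 [1, 4, 2, 3] [1, 1, 1, 1], .l [1, 5, 7, 5, 1], .l [4, 2, 5, 2, 2], .y [1, 6, 4], .l [4, 2, 7, 4, 4, 1], .l [3, 2, 6], .l [4, 2, 7, 4, 4]])]

def d18_3 : List (List Item × Qry × List Rf) := [
([s 2 0, s 0 1, g, p 0 2, m 1 3, g, s 3 0, g], .hi 0, [.c, .l [2], .l [2], .R 4797 [2, 4, 1] [1, 1, 0, 3], .y [0, 3], .l [5], .l [5], .l [3, 2, 5, 2, 5], .l [7], .l [7], .l [3, 2, 7, 4, 1]]),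
([s 2 0, s 0 1, g, p 0 2, m 1 0, g], .hi 4, [.y [1, 4], .l [3, 5, 1], .l [6, 3, 2, 4, 1], .l [3, 5], .l [4, 1, 0, 2, 1], .r 4800 [1, 2, 3] [1, 1, 1], .l [4, 2, 3, 1, 2], .R 4799 [2, 1, 3] [1, 1, 1]]),
([s 3 1, s 0 2, g, p 0 3, g, m 2 0, g, m 1 0, g], .top 4, [.r 4801 [2, 3] [1, 3], .r 4722 [1, 2, 3] [1, 1, 1, 1], .r 4781 [1, 2, 3] [1, 1, 1, 1], .r 4777 [1, 2, 3] [1, 1, 1, 1]]),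
([s 2 0, s 0 1, g, p 0 2, g, m 1 0, g], .hi 0, [.c, .l [2], .l [2], .R 4797 [2, 3, 1] [1, 1, 1, 1], .y [0, 3], .l [4], .l [4], .r 4664 [3, 1, 2] [1, 1, 1, 1], .l [6], .l [6], .r 4802 [3, 1, 2] [1, 1, 1, 1]]),
([s 1 0, s 0 0, g, p 0 1, s 3 2, g, m 2 0, g, s 0 3, g], .hi 1, [.y [1], .l [8, 1, 9, 7, 4, 1], .l [5, 4, 1], .R 4578 [1, 4] [1, 1, 6], .l [3, 2, 1], .l [8, 3, 9, 5, 2, 5], .l [3, 2, 4], .l [8, 3, 9, 5, 2, 5], .l [6, 1, 9, 7, 2, 3], .l [3, 2, 6], .r 4803 [4, 1] [1, 4, 3], .l [6, 1, 7, 5, 2, 3], .l [6, 1, 7, 5, 2, 5], .l [3, 2, 8], .r 4803 [4, 1] [1, 6, 1]]),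
([s 2 1, s 0 0, g, p 0 2, s 0 3, g, s 3 0, g, m 1 0, g], .hi 1, [.y [1], .l [5, 4, 1, 8, 4, 1], .l [5, 4, 1], .R 4578 [2, 4] [1, 1, 6], .l [3, 2, 1], .r 4736 [1, 4, 2] [1, 3, 1], .l [7, 10, 2, 5, 2, 5], .l [3, 2, 4], .r 4722 [1, 4, 2] [1, 1, 3, 1], .l [5, 10, 4, 7, 2, 3], .l [3, 2, 6], .l [5, 10, 4, 7, 2, 3], .l [5, 8, 2, 5, 2, 5], .l [3, 2, 8], .r 4664 [1, 4, 2] [1, 4, 1, 1]]),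
([s 2 1, s 0 0, g, p 3 2, s 4 3, g, m 1 0, g, s 0 4, g], .hi 1, [.y [1], .l [5, 4, 1, 6, 2, 5], .l [5, 4, 1], .R 4578 [2, 5] [1, 1, 6], .l [10, 5, 6, 0, 6, 1], .l [3, 2, 4], .l [10, 5, 9, 5, 2, 0, 2, 3], .l [10, 5, 6, 0, 6, 3], .l [3, 2, 6], .r 4664 [1, 5, 2] [1, 2, 1, 3], .l [8, 3, 4, 0, 4, 3], .l [8, 3, 4, 0, 4, 5], .l [3, 2, 8], .l [8, 3, 9, 2, 6, 2, 0, 3]]),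
([s 2 1, s 0 0, g, p 3 0, g, p 0 2, s 4 3, g, m 1 0, g, s 0 4, g], .hi 1, [.y [1], .l [7, 6, 1, 8, 2, 7], .l [7, 6, 1], .R 4578 [2, 5] [1, 3, 6], .l [7, 6, 3, 8, 2, 7], .l [7, 6, 3], .R 4578 [2, 5] [3, 1, 6], .l [5, 4, 3], .l [12, 5, 8, 2, 8, 1], .l [5, 4, 6], .l [12, 5, 11, 7, 4, 2, 4, 5], .l [12, 5, 8, 2, 8, 3], .l [5, 4, 8], .r 4664 [1, 5, 2] [3, 2, 1, 3], .l [10, 3, 6, 2, 6, 3], .l [10, 3, 6, 2, 6, 7], .l [5, 4, 10], .l [10, 3, 11, 2, 8, 4, 2, 5]]),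
([s 2 1, s 0 0, g, p 0 2, s 4 0, g, m 0 3, g, m 1 0, g, m 3 0, s 0 4, g], .hi 1, [.y [1], .l [5, 4, 1, 8, 4, 8], .l [5, 4, 1], .R 4578 [2, 5] [1, 1, 9], .l [3, 2, 1], .l [12, 8, 12, 5, 7, 5, 2, 5], .l [3, 2, 4], .l [12, 8, 12, 5, 7, 5, 2, 5], .l [10, 6, 10, 5, 7, 5, 2, 3], .l [12, 8, 12, 5, 9, 7, 2, 3], .l [3, 2, 6], .l [12, 8, 12, 5, 9, 7, 2, 3], .l [12, 8, 12, 7, 9, 5, 2, 5], .l [3, 2, 8], .l [12, 8, 12, 7, 9, 5, 2, 5], .l [6, 11, 8, 2, 6, 7], .l [10, 6, 10, 5, 7, 5, 2, 7], .l [3, 2, 11], .r 4664 [1, 5, 2] [1, 4, 4, 1]]),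
([s 2 1, s 0 0, g, p 0 2, s 4 0, g, m 1 3, g, m 3 0, s 0 4, g], .hi 1, [.y [1], .l [5, 4, 1, 6, 2, 6], .l [5, 4, 1], .R 4578 [2, 5] [1, 1, 7], .l [3, 2, 1], .l [10, 6, 10, 5, 5, 3, 2, 3], .l [3, 2, 4], .l [10, 6, 10, 5, 5, 3, 2, 3], .l [10, 6, 10, 7, 7, 3, 2, 3], .l [3, 2, 6], .l [10, 6, 10, 7, 7, 3, 2, 3], .l [6, 8, 7, 8, 6, 2, 4, 1], .l [8, 4, 8, 5, 5, 3, 2, 5], .l [3, 2, 9], .r 4664 [1, 5, 2] [1, 2, 4, 1]]),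
([s 2 1, g, p 0 2, s 6 3, g, m 1 0, g, p 5 0, g, m 0 4, g, m 4 5, s 0 6, g, s 3 0, g], .lo 12, [.l [1, 5, 14, 6, 3, 4, 10, 2, 8, 1], .l [5, 15, 6, 3, 4, 11, 3, 1, 8, 1], .l [4, 3, 6, 2, 12, 6, 3, 4, 8, 3, 6, 1], .l [2, 1, 6, 4, 12, 6, 3, 4, 8, 1, 6, 1], .l [2, 1, 6, 4, 12, 6, 3, 4, 8, 1, 6, 1], .l [8, 14, 8, 1, 11, 9, 3, 4, 8, 3, 6, 1], .l [6, 12, 8, 1, 9, 7, 3, 4, 6, 1, 4, 1], .l [2, 1, 4, 2, 12, 6, 3, 4, 8, 3, 6, 1], .l [2, 1, 4, 2, 12, 6, 3, 4, 8, 3, 6, 1], .l [8, 14, 8, 1, 9, 7, 3, 4, 8, 1, 6, 1], .l [10, 12, 4, 1, 5, 3, 4, 4, 0, 3], .l [10, 3, 11, 7, 4, 7, 8, 5, 2, 7], .l [12, 14, 4, 1, 5, 3, 4, 6, 2, 5], .l [10, 3, 11, 7, 4, 7, 8, 5, 2], .l [11, 13, 10], .l [11, 13, 10], .l [2, 1, 4, 2, 12, 8, 5, 1, 4, 1],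 .l [2, 1, 4, 2, 12, 8, 3, 4, 8, 3, 6, 1], .l [10, 12, 4, 1, 5, 3, 4, 8, 4, 1], .l [2, 1, 4, 2, 12, 8, 3, 4, 8, 3, 6, 1], .y [3, 14, 12], .l [2, 1, 4, 2, 10, 6, 3, 4, 8, 1, 6, 1], .l [10, 12, 4, 1, 5, 3, 4, 10, 6, 1], .l [2, 1, 4, 2, 10, 6, 3, 4, 8, 1, 6, 1]]),
([s 2 1, g, p 0 2, s 6 3, g, m 1 0, g, m 0 4, g, m 4 5, s 0 6, g, s 3 0, g, s 5 0, g], .lo 10, [.l [10, 12, 6, 3, 7, 3, 10, 3, 8, 3], .l [10, 12, 6, 3, 7, 3, 10, 3, 8, 3], .l [4, 3, 6, 2, 10, 2, 10, 5, 7, 1, 6, 3], .l [10, 12, 4, 1, 7, 5, 10, 3, 8, 1], .l [2, 1, 6, 4, 10, 2, 10, 3, 7, 1, 6, 1], .l [10, 12, 4, 1, 7, 5, 10, 3, 8, 1], .l [8, 10, 4, 1, 5, 3, 8, 3, 6, 1], .l [10, 12, 4, 1, 5, 3, 10, 3, 8, 3], .l [2, 1, 4, 2, 10, 2, 10, 5, 7, 1, 6, 3], .l [10,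 12, 4, 1, 5, 3, 10, 3, 8, 3], .l [9, 11, 8], .l [9, 11, 8], .l [8, 12, 6, 1, 7, 5, 2, 5], .l [8, 10, 4, 1, 5, 3, 10, 5, 8, 5], .l [8, 10, 4, 1, 5, 3, 10, 5, 8, 5], .l [8, 14, 8, 1, 9, 7, 10, 1, 8, 1], .y [3, 12, 10], .l [8, 10, 4, 1, 5, 3, 10, 5, 8, 3], .l [8, 10, 4, 1, 5, 3, 10, 5, 8, 3], .l [2, 1, 4, 2, 8, 2, 10, 3, 7, 1, 6, 1], .l [8, 10, 4, 1, 5, 3, 8, 8, 0, 3], .l [8, 10, 4, 1, 5, 3, 8, 3, 6, 7], .l [8, 10, 4, 1, 5, 3, 8, 10, 2, 5], .l [8, 10, 4, 1, 5, 3, 8, 3, 6, 7]]),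
([s 2 1, g, p 0 2, s 6 3, g, m 1 0, g, m 0 4, g, m 4 5, s 0 6, g, s 3 0, g, p 5 0, g], .lo 10, [.l [4, 3, 6, 2, 10, 2, 10, 1, 7, 1, 6, 3], .l [4, 3, 6, 2, 10, 2, 10, 1, 7, 1, 6, 3], .l [4, 3, 6, 2, 10, 2, 10, 5, 7, 1, 6, 3], .l [2, 1, 6, 4, 10, 2, 10, 1, 7, 1, 6, 1], .l [2, 1, 6, 4, 10, 2, 10, 3, 7, 1, 6, 1], .l [2, 1, 6, 4, 10, 2, 10, 1, 7, 1, 6, 1], .l [2, 1, 4, 2, 8, 2, 8, 1, 5, 1, 4, 1], .l [2, 1, 4, 2, 10, 2, 10, 1, 7, 1, 6, 3], .l [2, 1, 4, 2, 10, 2, 10, 5, 7, 1, 6, 3], .l [2, 1, 4, 2, 10, 2, 10, 1, 7, 1, 6, 3], .l [9, 11, 8], .l [9, 11, 8], .l [8, 12, 6, 1, 7, 5, 2, 5], .l [2, 1, 4, 2, 10, 4, 10, 1, 7, 3, 6, 3], .l [8, 10, 4, 1, 5, 3, 10, 5, 8, 5], .l [2, 1, 4, 2, 10, 4, 10, 1, 7, 3, 6, 3], .y [3, 12, 10],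 .l [2, 1, 4, 2, 8, 2, 10, 3, 7, 1, 6, 1], .l [8, 10, 4, 1, 5, 3, 10, 5, 8, 3], .l [2, 1, 4, 2, 8, 2, 10, 3, 7, 1, 6, 1], .l [2, 1, 4, 2, 8, 2, 8, 1, 5, 6, 0, 3], .l [2, 1, 4, 2, 8, 2, 8, 1, 5, 1, 4, 5], .l [2, 1, 4, 2, 8, 2, 8, 1, 5, 8, 2, 5], .l [2, 1, 4, 2, 8, 2, 8, 1, 5, 1, 4, 5]]),
([s 2 1, g, p 0 2, s 7 3, g, m 1 0, g, m 0 4, g, m 4 0, m 0 5, g, m 5 6, s 0 7, g, m 6 0, g, s 3 0, g], .lo 7, [.l [4, 3, 14, 9, 1, 8, 13, 7, 3, 5, 8, 8, 6, 3], .l [9, 6], .l [4, 3, 6, 2, 11, 5, 0, 6, 12, 10, 10, 8, 1], .l [2, 1, 8, 3, 1, 4, 9, 11, 10, 10, 8, 3], .l [9, 3], .l [2, 1, 14, 11, 3, 10, 13, 7, 1, 5, 8, 8, 6, 1], .l [2, 1, 12, 9, 1, 8, 11, 5, 1, 3, 6, 6, 4, 1], .l [2, 1, 14, 11, 1, 10, 13, 7, 1, 5, 8, 8, 6, 1], .l [9,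 1], .l [7, 15, 10, 1, 3, 11, 13, 8, 11, 6, 3, 8, 5], .l [2, 1, 8, 1, 9, 6, 2, 13, 6, 7, 4, 9], .l [9, 1], .l [7, 8], .y [7, 9], .l [7, 11, 13, 11, 8], .l [12, 4], .l [7, 11], .l [7, 14, 16, 13, 13, 11, 8], .l [15, 7], .l [7, 14], .l [7, 14], .l [2, 1, 6, 14, 12, 2, 7, 9, 8, 8, 6, 7], .l [17, 9], .l [7, 16], .l [2, 1, 4, 2, 13, 4, 5, 4, 10, 10, 6, 6, 4, 1], .l [2, 1, 6, 16, 14, 2, 7, 9, 8, 8, 6, 9], .l [19, 11], .l [7, 18]]),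
([s 2 1, g, p 0 2, s 6 3, g, m 1 0, g, m 0 0, m 0 4, g, m 4 5, s 0 6, g, m 5 0, g, s 3 0, g], .lo 7, [.l [4, 3, 6, 2, 9, 11, 10, 10, 8, 1], .l [9, 6], .l [4, 3, 6, 2, 9, 11, 10, 10, 8, 1], .l [2, 1, 6, 4, 9, 11, 10, 10, 8, 3], .l [9, 3], .l [13, 9, 3, 10, 12, 8, 8, 6, 1, 3, 6, 7], .l [11, 7, 1, 8, 10, 6, 6, 4, 1, 1, 4, 5], .l [2, 1, 4, 2, 9, 11, 10, 10, 8, 1], .l [9, 1], .r 4813 [1, 2, 3, 7, 4, 5, 6] [1, 1, 1, 1, 1, 1, 1, 1], .y [7], .l [2, 1, 4, 2, 9, 11, 10, 10, 6, 7], .l [10, 2], .l [7, 9], .l [2, 1, 4, 2, 7, 11, 10, 10, 8, 5], .l [13, 5], .l [7, 12], .l [7, 12], .l [2, 1, 4, 2, 7, 9, 8, 8, 6, 7], .l [15, 7], .l [7, 14], .l [2, 1, 4, 2, 7, 9, 8, 8, 6, 7], .l [2, 1, 4, 2, 7, 9, 8, 8, 6, 9], .l [17, 9], .l [7,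 16]]),
([s 2 1, g, p 0 2, s 7 3, g, m 1 0, g, p 4 0, g, s 0 4, m 0 5, g, m 5 6, s 0 7, g, m 6 0, g, s 3 0, g], .lo 9, [.l [4, 3, 6, 2, 11, 13, 12, 12, 10, 3], .l [10, 15, 9, 3, 10, 6, 7, 11, 6, 6, 4, 1], .l [4, 3, 6, 2, 11, 13, 12, 12, 10, 3], .l [2, 1, 6, 4, 11, 13, 12, 12, 10, 5], .l [2, 1, 6, 4, 11, 13, 12, 12, 10, 5], .l [10, 15, 7, 1, 10, 8, 5, 11, 8, 8, 6, 3], .l [8, 13, 7, 1, 8, 6, 5, 9, 6, 6, 4, 1], .l [2, 1, 4, 2, 11, 13, 12, 12, 10, 3], .l [2, 1, 4, 2, 11, 13, 12, 12, 10, 3], .l [10, 15, 7, 1, 8, 6, 7, 11, 6, 6, 4, 1], .y [7, 9], .l [2, 1, 4, 2, 11, 13, 12, 12, 10, 1], .l [2, 1, 4, 2, 11, 13, 12, 12, 10, 1], .l [10, 15, 7, 1, 8, 6, 9, 11, 4, 4, 2, 7], .l [2, 1, 4, 2, 11, 13, 12, 12, 8, 9], .l [12, 2,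 8, 13, 4, 1], .l [2, 1, 4, 2, 11, 13, 12, 12, 8, 9], .l [2, 1, 4, 2, 9, 13, 12, 12, 10, 7], .l [11, 19, 10, 1, 2, 15, 9, 1, 12, 7], .l [2, 1, 4, 2, 9, 13, 12, 12, 10, 7], .l [2, 1, 4, 2, 9, 11, 10, 10, 8, 7], .l [2, 1, 4, 2, 9, 11, 10, 10, 8, 9], .l [2, 1, 4, 2, 15, 3, 8, 5, 2, 5, 7, 5, 2, 7], .l [2, 1, 4, 2, 9, 11, 10, 10, 8, 9], .l [2, 1, 4, 2, 9, 11, 10, 10, 8, 9], .l [2, 1, 4, 2, 9, 11, 10, 10, 8, 11], .l [2, 1, 4, 2, 13, 4, 5, 4, 10, 12, 6, 1], .l [2, 1, 4, 2, 9, 11, 10, 10, 8, 11]]),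
([s 2 1, g, p 0 2, s 6 3, g, m 1 0, g, s 0 0, m 0 4, g, m 4 5, s 0 6, g, m 5 0, g, s 3 0, g], .hi 7, [.l [4, 3, 6, 2, 9, 11, 10, 10, 8, 1], .l [4, 3, 6, 2, 9, 11, 10, 10, 8, 1], .l [9, 6, 9, 1, 7, 9, 2, 5], .l [2, 1, 4, 2, 7, 9, 8, 8, 6, 1], .l [2, 1, 6, 4, 9, 11, 10, 10, 8, 3], .l [13, 9, 3, 10, 12, 8, 8, 6, 1, 3, 6, 7], .l [2, 1, 6, 4, 9, 11, 10, 10, 8, 3], .l [2, 1, 4, 2, 9, 11, 10, 10, 8, 1], .r 4815 [1, 2, 3, 7, 4, 5, 6] [1, 1, 1, 1, 1, 1, 1, 1], .l [2, 1, 4, 2, 9, 11, 10, 10, 8, 1], .y [7], .l [8, 0, 4, 9, 4, 1], .l [2, 1, 4, 2, 9, 11, 10, 10, 6, 7], .l [2, 1, 4, 2, 9, 11, 10, 10, 6, 7], .l [10, 2, 6, 11, 4, 1], .l [2, 1, 4, 2, 11, 4, 5, 4, 4, 1], .l [2, 1, 4, 2, 7, 11, 10, 10, 8, 5], .l [2, 1, 4, 2, 7, 11,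 10, 10, 8, 5], .l [9, 17, 10, 1, 2, 13, 7, 1, 10, 5], .l [2, 1, 4, 2, 7, 9, 8, 8, 6, 7], .l [2, 1, 4, 2, 7, 9, 8, 8, 6, 7], .l [10, 13, 12, 16, 9, 1, 4, 11, 5, 1, 6, 3], .l [2, 1, 4, 2, 7, 9, 8, 8, 6, 9], .l [2, 1, 4, 2, 7, 9, 8, 8, 6, 9], .l [2, 1, 4, 2, 11, 4, 5, 4, 8, 10, 6, 1]]),
([s 2 1, g, p 0 2, s 7 3, g, m 1 0, g, p 4 0, g, p 0 4, m 0 5, g, m 5 6, s 0 7, g, m 6 0, g, s 3 0, g], .hi 7, [.l [4, 3, 14, 9, 1, 8, 13, 7, 3, 5, 8, 8, 6, 3], .l [4, 3, 6, 2, 11, 5, 0, 6, 12, 10, 10, 8, 1], .l [9, 6], .l [2, 1, 4, 2, 9, 5, 0, 6, 10, 8, 8, 6, 1], .l [2, 1, 8, 3, 1, 4, 9, 11, 10, 10, 8, 3], .l [2, 1, 14, 11, 3, 10, 13, 7, 1, 5, 8, 8, 6, 1], .l [9, 3], .l [2, 1, 14, 11, 1, 10, 13, 7, 1, 5, 8, 8, 6, 1], .l [7, 15, 10,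 1, 3, 11, 13, 8, 11, 6, 3, 8, 5], .l [9, 1], .l [2, 1, 8, 1, 9, 6, 2, 13, 6, 7, 4, 9], .l [7, 8], .l [9, 1], .y [7, 9], .l [10, 2], .l [7, 11, 13, 11, 8], .l [7, 11], .l [12, 4], .l [7, 12, 14, 13, 13, 11, 8], .l [7, 14, 16, 13, 13, 11, 8], .l [7, 14], .l [15, 7], .l [2, 1, 6, 14, 12, 2, 7, 9, 8, 8, 6, 7], .l [7, 16], .l [17, 9], .l [2, 1, 6, 16, 14, 2, 7, 9, 8, 8, 6, 9], .l [7, 18], .l [19, 11]]),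
([s 2 1, g, p 0 2, s 6 3, g, m 1 0, g, p 0 0, m 0 4, g, m 4 5, s 0 6, g, m 5 0, g, s 3 0, g], .hi 7, [.l [4, 3, 6, 2, 9, 11, 10, 10, 8, 1], .l [4, 3, 6, 2, 9, 11, 10, 10, 8, 1], .l [9, 6], .l [2, 1, 4, 2, 7, 9, 8, 8, 6, 1], .l [2, 1, 6, 4, 9, 11, 10, 10, 8, 3], .l [13, 9, 3, 10, 12, 8, 8, 6, 1, 3, 6, 7], .l [9, 3], .l [2, 1, 4, 2, 9, 11, 10, 10, 8, 1], .r 4817 [1, 2, 3, 7, 4, 5, 6] [1, 1, 1, 1, 1, 1, 1, 1], .l [9, 1], .y [7], .l [8, 0], .l [2, 1, 4, 2, 9, 11, 10, 10, 6, 7], .l [7, 9], .l [10, 2], .l [2, 1, 4, 2, 11, 4, 5, 4, 4, 1], .l [2, 1, 4, 2, 7, 11, 10, 10, 8, 5], .l [7, 12], .l [13, 5], .l [2, 1, 4, 2, 7, 9, 8, 8, 6, 7], .l [7, 14], .l [15, 7], .l [2, 1, 4, 2, 7, 9, 8, 8, 6, 9], .l [7, 16], .l [17, 9]]),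
([s 2 1, g, p 0 2, s 6 3, g, m 1 0, g, m 0 4, g, m 4 5, s 0 6, g, m 5 0, g, s 3 0, g], .bot 6, [.l [7, 8, 6, 4, 7, 4, 9, 4, 6, 3], .r 4816 [1, 2, 3, 4, 5, 6] [1, 1, 1, 1, 1, 1, 1], .r 4818 [1, 2, 3, 4, 5, 6] [1, 1, 1, 1, 1, 1, 1], .r 4814 [1, 2, 3, 4, 5, 6] [1, 1, 1, 1, 1, 1, 1]]),
([s 2 1, g, p 0 2, s 6 3, g, m 1 0, g, s 5 0, g, m 0 4, g, m 4 5, s 0 6, g, s 3 0, g], .lo 12, [.l [4, 3, 8, 10, 11, 7, 4, 2, 4, 5], .l [4, 3, 8, 10, 11, 7, 4, 2, 4, 5], .l [4, 3, 6, 2, 12, 6, 3, 4, 8, 3, 6, 1], .l [4, 9, 11, 12, 8, 1, 4, 2, 4, 5], .l [2, 1, 6, 4, 12, 6, 3, 4, 8, 1, 6, 1], .l [4, 9, 11, 12, 8, 1, 4, 2, 4, 5], .l [4, 7, 9, 10, 6, 1, 2, 0, 2, 3], .l [6, 9, 11, 12, 6, 1, 7, 5, 2, 5], .l [2, 1, 4, 2, 12, 6, 3, 4, 8, 3, 6,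 1], .l [2, 1, 8, 10, 13, 8, 1, 7, 1, 4, 2, 5], .l [10, 12, 4, 1, 5, 3, 4, 4, 0, 3], .l [2, 1, 6, 10, 11, 7, 4, 2, 4, 5], .l [12, 14, 4, 1, 5, 3, 4, 6, 2, 5], .l [2, 1, 6, 10, 11, 7, 4, 2, 4, 5], .l [11, 13, 10], .l [11, 13, 10], .l [6, 14, 10, 1, 11, 9, 5, 1, 4, 1], .l [10, 12, 4, 1, 5, 3, 4, 8, 4, 1], .l [10, 12, 4, 1, 5, 3, 4, 8, 4, 1], .l [2, 1, 4, 2, 12, 8, 3, 4, 8, 3, 6, 1], .y [3, 14, 12], .l [10, 12, 4, 1, 5, 3, 4, 10, 6, 1], .l [10, 12, 4, 1, 5, 3, 4, 10, 6, 1], .l [2, 1, 4, 2, 10, 6, 3, 4, 8, 1, 6, 1]]),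
([s 2 1, g, p 0 2, s 7 3, g, m 1 0, g, m 0 4, g, m 0 5, g, m 5 6, s 4 7, g, s 3 0, g, m 6 0, g], .lo 7, [.l [9, 6, 8, 6, 12, 6, 8, 12, 7, 10, 1, 4, 2, 5], .l [9, 6], .l [12, 14, 6, 3, 13, 7, 13, 4, 10, 1, 6, 4, 2, 3], .l [9, 3, 15, 9, 1, 1, 10, 12, 5, 8, 1, 8, 6, 3], .l [9, 3], .l [2, 1, 6, 4, 10, 14, 13, 13, 11, 7, 5, 5, 1], .l [2, 1, 4, 2, 8, 12, 11, 11, 9, 5, 3, 3, 1], .l [8, 14, 8, 1, 2, 9, 13, 8, 11, 7, 4, 7], .l [9, 1], .l [2, 1, 4, 2, 10, 14, 13, 13, 11, 7, 5, 5, 3], .l [2, 1, 4, 2, 12, 14, 11, 12, 6, 8, 1, 4, 2, 5], .l [9, 1], .l [7, 8], .l [2, 1, 4, 2, 12, 4, 6, 12, 7, 10, 2, 7], .l [11, 3], .l [7, 10], .l [2, 1, 6, 11, 7, 11, 13, 6, 9, 5, 2, 5], .l [14, 6], .l [7, 13], .y [3, 14, 7, 12], .l [2, 1, 6,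 13, 15, 10, 13, 8, 1, 7, 1, 4, 2, 5], .l [16, 8], .l [7, 15], .l [7, 15], .l [2, 1, 6, 15, 11, 7, 9, 6, 9, 5, 2, 5], .l [18, 10], .l [7, 17]]),
([s 3 1, s 0 0, g, m 0 2, g, p 0 3, s 5 0, g, m 1 0, g, m 0 4, g, m 4 0, s 2 5, g], .hi 1, [.y [1], .l [7, 6, 1, 8, 2, 10], .l [7, 6, 1], .R 4578 [3, 6] [1, 3, 9], .l [2, 10, 12, 7, 2, 5, 8, 3, 4, 1], .l [7, 6, 3, 8, 2, 10], .l [7, 6, 3], .l [2, 12, 14, 9, 4, 7, 10, 5, 6, 1], .l [5, 4, 3], .l [12, 15, 8, 4, 8, 6, 4, 9], .l [5, 4, 6], .r 4722 [1, 6, 3] [3, 1, 1, 6], .l [12, 15, 8, 4, 10, 8, 4, 9], .l [5, 4, 8], .r 4664 [1, 6, 3] [3, 2, 1, 6], .l [9, 4, 9, 1, 7, 9, 2, 5], .l [5, 4, 10, 3, 0, 4, 10, 7], .l [5, 4, 10], .l [9, 4, 11, 3, 9, 11, 2, 7], .l [10, 13, 8, 4, 12, 10,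 4, 7], .l [5, 4, 13], .r 4664 [1, 6, 3] [3, 2, 6, 1]]),
([s 2 1, s 0 0, g, p 0 2, s 6 3, g, m 1 0, g, m 0 4, g, m 4 5, s 0 6, g, s 3 0, g, m 5 0, g], .lo 11, [.l [4, 12, 1, 11, 2, 9], .l [13, 6, 1, 10, 14, 7, 3, 7, 2, 4, 2, 5], .l [13, 6, 1, 10, 14, 7, 3, 7, 2, 4, 2, 5], .r 4822 [1, 7, 2, 4, 6] [1, 1, 1, 1, 1, 5], .l [13, 6, 1, 10, 14, 7, 3, 9, 4, 6, 4, 1], .l [13, 6, 1, 10, 14, 7, 3, 9, 4, 6, 4, 1], .l [13, 8, 3, 10, 14, 9, 5, 9, 2, 4, 2, 3], .l [11, 6, 1, 8, 12, 7, 3, 7, 2, 4, 2, 3], .l [13, 8, 1, 10, 14, 9, 5, 9, 2, 4, 2, 3], .l [13, 8, 1, 10, 14, 9, 5, 9, 2, 4, 2, 3], .r 4821 [1, 2, 3, 7, 4, 5, 6] [2, 1, 1, 1, 1, 1, 1, 1], .l [10, 12, 9], .l [10, 12, 9], .l [3, 2, 5, 2, 12, 14, 11, 1, 10, 7], .l [3, 2, 5, 2,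 12, 14, 9, 12, 1, 4, 2, 7], .l [3, 2, 5, 2, 12, 14, 9, 12, 1, 4, 2, 7], .l [12, 17, 14, 15, 9, 2, 10, 7, 4, 9], .y [4, 13, 11], .l [11, 6, 1, 8, 14, 9, 3, 9, 4, 6, 2, 3], .l [11, 6, 1, 8, 14, 9, 3, 9, 4, 6, 2, 3], .l [14, 17, 12, 13, 7, 2, 8, 5, 2, 7], .l [14, 15, 10, 11, 5, 2, 6, 3, 0, 5], .l [3, 2, 5, 2, 10, 12, 9, 12, 1, 4, 2, 7], .l [3, 2, 5, 2, 10, 12, 9, 12, 1, 4, 2, 7], .l [11, 6, 1, 8, 12, 7, 3, 7, 2, 4, 2, 7]]),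
([s 2 1, s 0 0, g, p 0 2, s 5 3, g, m 1 0, g, m 0 4, g, m 4 0, s 0 5, g, s 3 0, g], .hi 10, [.l [3, 2, 8], .l [9, 6, 10, 2, 7, 9, 2, 5], .l [9, 6, 10, 2, 7, 9, 2, 5], .l [3, 11], .l [7, 4, 8, 2, 7, 7, 0, 3], .l [4, 14, 2, 6, 1, 6, 4, 2, 7, 2], .l [9, 3, 10, 6, 11, 4, 5, 2, 7, 2], .l [6, 11], .r 4820 [1, 2, 3, 4, 6, 5] [2, 1, 1, 1, 1, 1, 1], .r 4810 [1, 2, 3, 4, 6, 5] [2, 1, 1, 1, 1, 1, 1], .l [8, 11], .y [8, 10], .l [3, 2, 5, 2, 12, 4, 1, 4, 2, 7], .l [3, 2, 5, 2, 12, 4, 1, 4, 2, 7], .l [10, 11], .l [9, 11, 5, 2, 6, 3, 0, 5], .l [9, 15, 9, 2, 10, 7, 2, 4, 2, 7], .l [9, 15, 9, 2, 10, 7, 2, 4, 2, 7], .r 4819 [1, 2, 3, 4, 6, 5] [2, 1, 1, 1, 1, 1, 1], .r 4811 [1, 2, 3, 4, 6, 5] [2, 1, 1, 1, 1, 1, 1], .r 4812 [1, 2,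 3, 4, 6, 5] [2, 1, 1, 1, 1, 1, 1], .r 4823 [1, 2, 3, 4, 6, 5] [1, 1, 1, 1, 1, 1, 1]]),
([s 2 1, s 0 0, g, p 0 2, s 4 3, g, m 1 0, g, m 0 0, s 0 4, g, s 3 0, g], .lo 8, [.l [3, 2, 5, 2, 6, 1], .l [5, 4, 7, 2, 8, 3], .l [10, 6], .l [5, 4, 7, 2, 8, 3], .l [3, 2, 7, 4, 8, 5], .l [10, 3], .r 4808 [1, 2, 5, 4] [1, 1, 1, 1, 3], .r 4809 [1, 2, 5, 4] [1, 1, 1, 3], .l [3, 2, 5, 2, 8, 1], .l [10, 1], .r 4824 [1, 2, 3, 5, 4] [1, 1, 1, 1, 1, 1], .y [8], .l [3, 2, 5, 2, 6, 7], .l [11, 2], .l [8, 10], .l [3, 2, 5, 2, 6, 7], .l [3, 2, 5, 2, 6, 9], .l [13, 4], .l [8, 12]]),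
([s 2 1, g, p 0 2, s 6 3, g, m 1 0, g, m 0 4, g, m 4 0, p 5 0, g, p 7 5, s 0 6, g, p 0 7, g, s 3 0, g], .lo 7, [.l [4, 3, 14, 9, 1, 8, 13, 7, 3, 5, 8, 8, 6, 3], .l [9, 6], .l [4, 3, 6, 2, 11, 5, 0, 6, 12, 10, 10, 8, 1], .l [2, 1, 8, 3, 1, 4, 9, 11, 10, 10, 8, 3], .l [9, 3], .l [2, 1, 14, 11, 3, 10, 13, 7, 1, 5, 8, 8, 6, 1], .l [2, 1, 12, 9, 1, 8, 11, 5, 1, 3, 6, 6, 4, 1], .l [2, 1, 14, 11, 1, 10, 13, 7, 1, 5, 8, 8, 6, 1], .l [9, 1], .l [7, 15, 10, 1, 3, 11, 13, 8, 11, 6, 3, 8, 5], .l [2, 1, 8, 1, 9, 6, 2, 13, 6, 7, 4, 9], .l [9, 1], .l [7, 8], .y [7, 9], .l [10, 2], .l [7, 11, 13, 11, 8], .l [12, 4], .l [7, 11], .l [7, 14, 16, 13, 13, 11, 8], .l [15, 7], .l [7, 14], .l [2, 1, 6, 14, 12, 2, 7, 9, 8, 8, 6, 7], .l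 [17, 9], .l [7, 16], .l [2, 1, 4, 2, 13, 4, 5, 4, 10, 10, 6, 6, 4, 1], .l [2, 1, 6, 16, 14, 2, 7, 9, 8, 8, 6, 9], .l [19, 11], .l [7, 18]]),
([s 2 1, g, p 0 2, s 5 3, g, m 1 0, g, m 0 0, p 4 0, g, p 6 4, s 0 5, g, p 0 6, g, s 3 0, g], .lo 7, [.l [4, 3, 6, 2, 9, 11, 10, 10, 8, 1], .l [9, 6], .l [4, 3, 6, 2, 9, 11, 10, 10, 8, 1], .l [2, 1, 6, 4, 9, 11, 10, 10, 8, 3], .l [9, 3], .l [13, 9, 3, 10, 12, 8, 8, 6, 1, 3, 6, 7], .l [11, 7, 1, 8, 10, 6, 6, 4, 1, 1, 4, 5], .l [2, 1, 4, 2, 9, 11, 10, 10, 8, 1], .l [9, 1], .r 4826 [1, 2, 3, 7, 4, 5, 6] [1, 1, 1, 1, 1, 1, 1, 1], .y [7], .l [8, 0], .l [2, 1, 4, 2, 9, 11, 10, 10, 6, 7], .l [10, 2], .l [7, 9], .l [2, 1, 4, 2, 7, 11, 10, 10, 8, 5], .l [13, 5], .l [7, 12], .l [2,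 1, 4, 2, 7, 9, 8, 8, 6, 7], .l [15, 7], .l [7, 14], .l [2, 1, 4, 2, 7, 9, 8, 8, 6, 7], .l [2, 1, 4, 2, 7, 9, 8, 8, 6, 9], .l [17, 9], .l [7, 16]]),
([s 2 1, g, p 0 2, s 6 3, g, m 1 0, g, p 4 0, g, s 0 4, p 5 0, g, p 7 5, s 0 6, g, p 0 7, g, s 3 0, g], .lo 9, [.l [4, 3, 6, 2, 11, 13, 12, 12, 10, 3], .l [10, 15, 9, 3, 10, 6, 7, 11, 6, 6, 4, 1], .l [4, 3, 6, 2, 11, 13, 12, 12, 10, 3], .l [2, 1, 6, 4, 11, 13, 12, 12, 10, 5], .l [2, 1, 6, 4, 11, 13, 12, 12, 10, 5], .l [10, 15, 7, 1, 10, 8, 5, 11, 8, 8, 6, 3], .l [8, 13, 7, 1, 8, 6, 5, 9, 6, 6, 4, 1], .l [2, 1, 4, 2, 11, 13, 12, 12, 10, 3], .l [2, 1, 4, 2, 11, 13, 12, 12, 10, 3], .l [10, 15, 7, 1, 8, 6, 7, 11, 6, 6, 4, 1], .y [7, 9], .l [2, 1, 4, 2, 11, 13, 12, 12, 10,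 1], .l [2, 1, 4, 2, 11, 13, 12, 12, 10, 1], .l [10, 15, 7, 1, 8, 6, 9, 11, 4, 4, 2, 7], .l [10, 0, 6, 11, 4, 1], .l [2, 1, 4, 2, 11, 13, 12, 12, 8, 9], .l [12, 2, 8, 13, 4, 1], .l [2, 1, 4, 2, 11, 13, 12, 12, 8, 9], .l [2, 1, 4, 2, 9, 13, 12, 12, 10, 7], .l [11, 19, 10, 1, 2, 15, 9, 1, 12, 7], .l [2, 1, 4, 2, 9, 13, 12, 12, 10, 7], .l [2, 1, 4, 2, 9, 11, 10, 10, 8, 9], .l [2, 1, 4, 2, 15, 3, 8, 5, 2, 5, 7, 5, 2, 7], .l [2, 1, 4, 2, 9, 11, 10, 10, 8, 9], .l [2, 1, 4, 2, 9, 11, 10, 10, 8, 9], .l [2, 1, 4, 2, 9, 11, 10, 10, 8, 11], .l [2, 1, 4, 2, 13, 4, 5, 4, 10, 12, 6, 1], .l [2, 1, 4, 2, 9, 11, 10, 10, 8, 11]]),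
([s 2 1, g, p 0 2, s 5 3, g, m 1 0, g, s 0 0, p 4 0, g, p 6 4, s 0 5, g, p 0 6, g, s 3 0, g], .hi 7, [.l [4, 3, 6, 2, 9, 11, 10, 10, 8, 1], .l [4, 3, 6, 2, 9, 11, 10, 10, 8, 1], .l [9, 6, 9, 1, 7, 9, 2, 5], .l [2, 1, 4, 2, 7, 9, 8, 8, 6, 1], .l [2, 1, 6, 4, 9, 11, 10, 10, 8, 3], .l [13, 9, 3, 10, 12, 8, 8, 6, 1, 3, 6, 7], .l [2, 1, 6, 4, 9, 11, 10, 10, 8, 3], .l [2, 1, 4, 2, 9, 11, 10, 10, 8, 1], .r 4828 [1, 2, 3, 7, 4, 5, 6] [1, 1, 1, 1, 1, 1, 1, 1], .l [2, 1, 4, 2, 9, 11, 10, 10, 8, 1], .y [7], .l [2, 1, 4, 2, 9, 11, 10, 10, 6, 7], .l [2, 1, 4, 2, 9, 11, 10, 10, 6, 7], .l [10, 2, 6, 11, 4, 1], .l [2, 1, 4, 2, 11, 4, 5, 4, 4, 1], .l [2, 1, 4, 2, 7, 11, 10, 10, 8, 5], .l [2, 1, 4, 2, 7, 11, 10, 10, 8, 5], .l [9,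 17, 10, 1, 2, 13, 7, 1, 10, 5], .l [2, 1, 4, 2, 7, 9, 8, 8, 6, 5], .l [2, 1, 4, 2, 7, 9, 8, 8, 6, 7], .l [2, 1, 4, 2, 7, 9, 8, 8, 6, 7], .l [10, 13, 12, 16, 9, 1, 4, 11, 5, 1, 6, 3], .l [2, 1, 4, 2, 7, 9, 8, 8, 6, 9], .l [2, 1, 4, 2, 7, 9, 8, 8, 6, 9], .l [2, 1, 4, 2, 11, 4, 5, 4, 8, 10, 6, 1]]),
([s 2 1, g, p 0 2, s 6 3, g, m 1 0, g, p 4 0, g, p 0 4, p 5 0, g, p 7 5, s 0 6, g, p 0 7, g, s 3 0, g], .hi 7, [.l [4, 3, 14, 9, 1, 8, 13, 7, 3, 5, 8, 8, 6, 3], .l [4, 3, 6, 2, 11, 5, 0, 6, 12, 10, 10, 8, 1], .l [9, 6], .l [2, 1, 4, 2, 9, 5, 0, 6, 10, 8, 8, 6, 1], .l [2, 1, 8, 3, 1, 4, 9, 11, 10, 10, 8, 3], .l [2, 1, 14, 11, 3, 10, 13, 7, 1, 5, 8, 8, 6, 1], .l [9, 3], .l [2, 1, 14, 11, 1, 10, 13, 7, 1, 5, 8, 8, 6, 1],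 .l [7, 15, 10, 1, 3, 11, 13, 8, 11, 6, 3, 8, 5], .l [9, 1], .l [2, 1, 8, 1, 9, 6, 2, 13, 6, 7, 4, 9], .l [7, 8], .l [9, 1], .y [7, 9], .l [7, 11, 13, 11, 8], .l [7, 11], .l [12, 4], .l [7, 12, 14, 13, 13, 11, 8], .l [7, 14, 16, 13, 13, 11, 8], .l [7, 14], .l [15, 7], .l [7, 14], .l [2, 1, 6, 14, 12, 2, 7, 9, 8, 8, 6, 7], .l [7, 16], .l [17, 9], .l [2, 1, 6, 16, 14, 2, 7, 9, 8, 8, 6, 9], .l [7, 18], .l [19, 11]]),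
([s 2 1, g, p 0 2, s 5 3, g, m 1 0, g, p 0 0, p 4 0, g, p 6 4, s 0 5, g, p 0 6, g, s 3 0, g], .hi 7, [.l [4, 3, 6, 2, 9, 11, 10, 10, 8, 1], .l [4, 3, 6, 2, 9, 11, 10, 10, 8, 1], .l [9, 6], .l [2, 1, 4, 2, 7, 9, 8, 8, 6, 1], .l [2, 1, 6, 4, 9, 11, 10, 10, 8, 3], .l [13, 9, 3, 10, 12, 8, 8, 6, 1, 3, 6, 7], .l [9, 3], .l [2, 1, 4, 2, 9, 11, 10, 10, 8, 1], .r 4830 [1, 2, 3, 7, 4, 5, 6] [1, 1, 1, 1, 1, 1, 1, 1], .l [9, 1], .y [7], .l [2, 1, 4, 2, 9, 11, 10, 10, 6, 7], .l [7, 9], .l [10, 2], .l [2, 1, 4, 2, 11, 4, 5, 4, 4, 1], .l [2, 1, 4, 2, 7, 11, 10, 10, 8, 5], .l [7, 12], .l [13, 5], .l [7, 12], .l [2, 1, 4, 2, 7, 9, 8, 8, 6, 7], .l [7, 14], .l [15, 7], .l [2, 1, 4, 2, 7, 9, 8, 8, 6, 9], .l [7, 16], .l [17, 9]]),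
([s 2 1, g, p 0 2, s 5 3, g, m 1 0, g, p 4 0, g, p 6 4, s 0 5, g, p 0 6, g, s 3 0, g], .bot 6, [.l [7, 8, 6, 4, 7, 4, 9, 4, 6, 3], .r 4829 [1, 2, 3, 4, 5, 6] [1, 1, 1, 1, 1, 1, 1], .r 4831 [1, 2, 3, 4, 5, 6] [1, 1, 1, 1, 1, 1, 1], .r 4827 [1, 2, 3, 4, 5, 6] [1, 1, 1, 1, 1, 1, 1]]),
([s 2 1, g, p 0 2, s 5 3, g, m 1 0, g, p 4 0, g, p 6 4, s 0 5, g, s 3 0, g, m 0 6, g], .lo 10, [.l [4, 3, 6, 2, 10, 2, 10, 1, 7, 1, 6, 3], .l [4, 3, 6, 2, 10, 2, 10, 1, 7, 1, 6, 3], .l [4, 3, 6, 2, 10, 2, 10, 5, 7, 1, 6, 3], .l [2, 1, 6, 4, 10, 2, 10, 1, 7, 1, 6, 1], .l [2, 1, 6, 4, 10, 2, 10, 3, 7, 1, 6, 1], .l [2, 1, 6, 4, 10, 2, 10, 1, 7, 1, 6, 1], .l [2, 1, 4, 2, 8, 2, 8, 1, 5, 1, 4, 1], .l [2, 1, 4, 2, 10, 2, 10, 1, 7, 1, 6, 3],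 .l [2, 1, 4, 2, 10, 2, 10, 5, 7, 1, 6, 3], .l [2, 1, 4, 2, 10, 2, 10, 1, 7, 1, 6, 3], .l [7, 9, 8], .l [9, 11, 8], .l [9, 11, 8], .l [8, 12, 6, 1, 7, 5, 2, 5], .l [2, 1, 4, 2, 10, 4, 10, 1, 7, 3, 6, 3], .l [8, 10, 4, 1, 5, 3, 10, 5, 8, 5], .l [2, 1, 4, 2, 10, 4, 10, 1, 7, 3, 6, 3], .y [3, 12, 10], .l [2, 1, 4, 2, 8, 2, 10, 3, 7, 1, 6, 1], .l [8, 10, 4, 1, 5, 3, 10, 5, 8, 3], .l [2, 1, 4, 2, 8, 2, 10, 3, 7, 1, 6, 1], .l [2, 1, 4, 2, 8, 2, 8, 1, 5, 1, 4, 5], .l [2, 1, 4, 2, 8, 2, 8, 1, 5, 8, 2, 5], .l [2, 1, 4, 2, 8, 2, 8, 1, 5, 1, 4, 5]]),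
([s 2 1, g, p 0 2, s 5 3, g, m 1 0, g, p 4 0, g, p 6 4, s 0 5, g, s 3 0, g, s 0 6, g], .lo 10, [.l [10, 12, 6, 3, 7, 3, 10, 3, 8, 3], .l [10, 12, 6, 3, 7, 3, 10, 3, 8, 3], .l [4, 3, 6, 2, 10, 2, 10, 5, 7, 1, 6, 3], .l [10, 12, 4, 1, 7, 5, 10, 3, 8, 1], .l [2, 1, 6, 4, 10, 2, 10, 3, 7, 1, 6, 1], .l [10, 12, 4, 1, 7, 5, 10, 3, 8, 1], .l [8, 10, 4, 1, 5, 3, 8, 3, 6, 1], .l [10, 12, 4, 1, 5, 3, 10, 3, 8, 3], .l [2, 1, 4, 2, 10, 2, 10, 5, 7, 1, 6, 3], .l [10, 12, 4, 1, 5, 3, 10, 3, 8, 3], .l [7, 9, 8], .l [9, 11, 8], .l [9, 11, 8], .l [8, 12, 6, 1, 7, 5, 2, 5], .l [8, 10, 4, 1, 5, 3, 10, 5, 8, 5], .l [8, 10, 4, 1, 5, 3, 10, 5, 8, 5], .l [8, 14, 8, 1, 9, 7, 10, 1, 8, 1], .y [3, 12, 10], .l [8, 10, 4, 1, 5, 3, 10, 5,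 8, 3], .l [8, 10, 4, 1, 5, 3, 10, 5, 8, 3], .l [2, 1, 4, 2, 8, 2, 10, 3, 7, 1, 6, 1], .l [8, 10, 4, 1, 5, 3, 8, 3, 6, 7], .l [8, 10, 4, 1, 5, 3, 8, 10, 2, 5], .l [8, 10, 4, 1, 5, 3, 8, 3, 6, 7]]),
([s 2 1, g, p 0 2, s 6 3, g, m 1 0, g, m 0 4, g, p 5 0, g, p 4 5, s 0 6, g, s 3 0, g], .lo 12, [.l [1, 5, 14, 6, 3, 4, 10, 2, 8, 1], .l [5, 15, 6, 3, 4, 11, 3, 1, 8, 1], .l [4, 3, 6, 2, 12, 6, 3, 4, 8, 3, 6, 1], .l [2, 1, 6, 4, 12, 6, 3, 4, 8, 1, 6, 1], .l [2, 1, 6, 4, 12, 6, 3, 4, 8, 1, 6, 1], .l [8, 14, 8, 1, 11, 9, 3, 4, 8, 3, 6, 1], .l [6, 12, 8, 1, 9, 7, 3, 4, 6, 1, 4, 1], .l [2, 1, 4, 2, 12, 6, 3, 4, 8, 3, 6, 1], .l [2, 1, 4, 2, 12, 6, 3, 4, 8, 3, 6, 1], .l [8, 14, 8, 1, 9, 7, 3, 4, 8, 1, 6, 1], .l [10, 3, 11, 7,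 4, 7, 8, 5, 2, 7], .l [12, 14, 4, 1, 5, 3, 4, 6, 2, 5], .l [10, 3, 11, 7, 4, 7, 8, 5, 2], .l [9, 11, 10], .l [11, 13, 10], .l [11, 13, 10], .l [2, 1, 4, 2, 12, 8, 5, 1, 4, 1], .l [2, 1, 4, 2, 12, 8, 3, 4, 8, 3, 6, 1], .l [10, 12, 4, 1, 5, 3, 4, 8, 4, 1], .l [2, 1, 4, 2, 12, 8, 3, 4, 8, 3, 6, 1], .y [3, 14, 12], .l [2, 1, 4, 2, 10, 6, 3, 4, 8, 1, 6, 1], .l [10, 12, 4, 1, 5, 3, 4, 10, 6, 1], .l [2, 1, 4, 2, 10, 6, 3, 4, 8, 1, 6, 1]]),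
([s 2 1, g, p 0 2, s 6 3, g, m 1 0, g, s 0 4, g, p 5 0, g, p 4 5, s 0 6, g, s 3 0, g], .lo 12, [.l [4, 3, 8, 10, 11, 7, 4, 2, 4, 5], .l [4, 3, 8, 10, 11, 7, 4, 2, 4, 5], .l [4, 3, 6, 2, 12, 6, 3, 4, 8, 3, 6, 1], .l [4, 9, 11, 12, 8, 1, 4, 2, 4, 5], .l [2, 1, 6, 4, 12, 6, 3, 4, 8, 1, 6, 1], .l [4, 9, 11, 12, 8, 1, 4, 2, 4, 5], .l [4, 7, 9, 10, 6, 1, 2, 0, 2, 3], .l [6, 9, 11, 12, 6, 1, 7, 5, 2, 5], .l [2, 1, 4, 2, 12, 6, 3, 4, 8, 3, 6, 1], .l [2, 1, 8, 10, 13, 8, 1, 7, 1, 4, 2, 5], .l [2, 1, 6, 10, 11, 7, 4, 2, 4, 5], .l [12, 14, 4, 1, 5, 3, 4, 6, 2, 5], .l [2, 1, 6, 10, 11, 7, 4, 2, 4, 5], .l [9, 11, 10], .l [11, 13, 10], .l [11, 13, 10], .l [6, 14, 10, 1, 11, 9, 5, 1, 4, 1], .l [10, 12, 4, 1, 5, 3, 4, 8, 4, 1],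 .l [10, 12, 4, 1, 5, 3, 4, 8, 4, 1], .l [2, 1, 4, 2, 12, 8, 3, 4, 8, 3, 6, 1], .y [3, 14, 12], .l [10, 12, 4, 1, 5, 3, 4, 10, 6, 1], .l [10, 12, 4, 1, 5, 3, 4, 10, 6, 1], .l [2, 1, 4, 2, 10, 6, 3, 4, 8, 1, 6, 1]]),
([s 3 1, s 0 0, g, m 0 2, g, p 0 3, s 5 0, g, m 1 0, g, p 4 0, g, p 0 4, s 2 5, g], .hi 1, [.y [1], .l [7, 6, 1, 8, 2, 10], .l [7, 6, 1], .R 4578 [3, 6] [1, 3, 9], .l [2, 10, 12, 7, 2, 5, 8, 3, 4, 1], .l [7, 6, 3, 8, 2, 10], .l [7, 6, 3], .l [2, 12, 14, 9, 4, 7, 10, 5, 6, 1], .l [5, 4, 3], .l [12, 15, 8, 4, 8, 6, 4, 9], .l [5, 4, 6], .r 4722 [1, 6, 3] [3, 1, 1, 6], .l [12, 15, 8, 4, 10, 8, 4, 9], .l [5, 4, 8], .r 4664 [1, 6, 3] [3, 2, 1, 6], .l [5, 4, 10, 3, 0, 4, 10, 7], .l [5, 4, 10], .l [9, 4, 11,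 3, 9, 11, 2, 7], .l [5, 4, 10], .l [10, 13, 8, 4, 12, 10, 4, 7], .l [5, 4, 13], .r 4664 [1, 6, 3] [3, 2, 6, 1]]),
([s 2 1, g, p 0 2, s 6 3, g, m 1 0, g, m 0 4, g, p 5 0, g, p 7 5, s 4 6, g, s 3 0, g, p 0 7, g], .lo 7, [.l [9, 6, 8, 6, 12, 6, 8, 12, 7, 10, 1, 4, 2, 5], .l [9, 6], .l [12, 14, 6, 3, 13, 7, 13, 4, 10, 1, 6, 4, 2, 3], .l [9, 3, 15, 9, 1, 1, 10, 12, 5, 8, 1, 8, 6, 3], .l [9, 3], .l [2, 1, 6, 4, 10, 14, 13, 13, 11, 7, 5, 5, 1], .l [2, 1, 4, 2, 8, 12, 11, 11, 9, 5, 3, 3, 1], .l [8, 14, 8, 1, 2, 9, 13, 8, 11, 7, 4, 7], .l [9, 1], .l [2, 1, 4, 2, 10, 14, 13, 13, 11, 7, 5, 5, 3], .l [2, 1, 4, 2, 12, 14, 11, 12, 6, 8, 1, 4, 2, 5], .l [9, 1], .l [7, 8], .l [9, 1], .l [2, 1, 4, 2, 12, 4, 6, 12, 7, 10, 2, 7],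 .l [11, 3], .l [7, 10], .l [2, 1, 6, 11, 7, 11, 13, 6, 9, 5, 2, 5], .l [14, 6], .l [7, 13], .y [3, 14, 7, 12], .l [2, 1, 6, 13, 15, 10, 13, 8, 1, 7, 1, 4, 2, 5], .l [16, 8], .l [7, 15], .l [2, 1, 6, 15, 11, 7, 9, 6, 9, 5, 2, 5], .l [18, 10], .l [7, 17]]),
([s 2 1, s 0 0, g, p 0 2, s 5 3, g, m 1 0, g, p 4 0, g, p 6 4, s 0 5, g, s 3 0, g, p 0 6, g], .lo 11, [.l [4, 12, 1, 11, 2, 9], .l [13, 6, 1, 10, 14, 7, 3, 7, 2, 4, 2, 5], .l [13, 6, 1, 10, 14, 7, 3, 7, 2, 4, 2, 5], .r 4837 [1, 7, 2, 4, 5] [1, 1, 1, 1, 1, 5], .l [13, 6, 1, 10, 14, 7, 3, 9, 4, 6, 4, 1], .l [13, 6, 1, 10, 14, 7, 3, 9, 4, 6, 4, 1], .l [13, 8, 3, 10, 14, 9, 5, 9, 2, 4, 2, 3], .l [11, 6, 1, 8, 12, 7, 3, 7, 2, 4, 2, 3], .l [13, 8, 1, 10, 14, 9, 5, 9,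 2, 4, 2, 3], .l [13, 8, 1, 10, 14, 9, 5, 9, 2, 4, 2, 3], .r 4838 [1, 2, 3, 7, 4, 5, 6] [2, 1, 1, 1, 1, 1, 1, 1], .l [8, 10, 9], .l [10, 12, 9], .l [10, 12, 9], .l [3, 2, 5, 2, 12, 14, 11, 1, 10, 7], .l [3, 2, 5, 2, 12, 14, 9, 12, 1, 4, 2, 7], .l [3, 2, 5, 2, 12, 14, 9, 12, 1, 4, 2, 7], .l [12, 17, 14, 15, 9, 2, 10, 7, 4, 9], .y [4, 13, 11], .l [11, 6, 1, 8, 14, 9, 3, 9, 4, 6, 2, 3], .l [11, 6, 1, 8, 14, 9, 3, 9, 4, 6, 2, 3], .l [14, 17, 12, 13, 7, 2, 8, 5, 2, 7], .l [3, 2, 5, 2, 10, 12, 9, 12, 1, 4, 2, 7], .l [3, 2, 5, 2, 10, 12, 9, 12, 1, 4, 2, 7], .l [11, 6, 1, 8, 12, 7, 3, 7, 2, 4, 2, 7]]),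
([s 2 1, s 0 0, g, p 0 2, s 5 3, g, m 1 0, g, p 4 0, g, p 0 4, s 0 5, g, s 3 0, g], .lo 10, [.l [3, 2, 8], .l [9, 6, 10, 2, 7, 9, 2, 5], .l [3, 11], .l [9, 6, 10, 2, 7, 9, 2, 5], .l [4, 14, 2, 6, 1, 6, 4, 2, 7, 2], .l [6, 11], .l [9, 3, 10, 6, 11, 4, 5, 2, 7, 2], .l [7, 1, 8, 6, 9, 2, 3, 2, 5, 2], .r 4836 [1, 2, 3, 6, 4, 5] [2, 1, 1, 1, 1, 1, 1], .l [8, 11], .r 4835 [1, 2, 3, 6, 4, 5] [2, 1, 1, 1, 1, 1, 1], .y [8, 10], .l [3, 2, 5, 2, 12, 4, 1, 4, 2, 7], .l [10, 11], .l [3, 2, 5, 2, 12, 4, 1, 4, 2, 7], .l [9, 15, 9, 2, 10, 7, 2, 4, 2, 7], .r 4832 [1, 2, 3, 4, 5, 6] [2, 1, 1, 1, 1, 1, 1], .l [9, 15, 9, 2, 10, 7, 2, 4, 2, 7], .l [9, 13, 7, 2, 8, 5, 2, 2, 0, 5], .r 4834 [1, 2, 3, 4, 5, 6] [2, 1, 1, 1, 1, 1, 1], .r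 4839 [1, 2, 3, 4, 5, 6] [1, 1, 1, 1, 1, 1, 1], .r 4833 [1, 2, 3, 4, 5, 6] [2, 1, 1, 1, 1, 1, 1]]),
([s 2 1, s 0 0, g, p 0 2, s 4 0, g, p 3 0, g, m 1 0, g, p 0 3, s 0 4, g], .hi 1, [.y [1], .l [5, 4, 1, 8, 4, 8], .l [5, 4, 1], .R 4578 [2, 5] [1, 1, 9], .l [3, 2, 1], .l [12, 8, 12, 5, 7, 5, 2, 5], .l [3, 2, 4], .l [12, 8, 12, 5, 7, 5, 2, 5], .l [12, 8, 12, 5, 9, 7, 2, 3], .l [3, 2, 6], .l [12, 8, 12, 5, 9, 7, 2, 3], .l [12, 8, 12, 7, 9, 5, 2, 5], .l [3, 2, 8], .l [12, 8, 12, 7, 9, 5, 2, 5], .l [3, 2, 8], .l [6, 11, 8, 2, 6, 7], .l [10, 6, 10, 5, 7, 5, 2, 7], .l [3, 2, 11], .r 4664 [1, 5, 2] [1, 4, 4, 1]]),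
([s 2 1, s 0 0, g, p 0 2, s 4 3, g, m 1 0, g, p 0 0, s 0 4, g, s 3 0, g], .hi 8, [.l [3, 2, 5, 2, 6, 1], .l [5, 4, 7, 2, 8, 3], .l [5, 4, 7, 2, 8, 3], .l [10, 6], .l [3, 2, 5, 2, 6, 3], .l [3, 2, 7, 4, 8, 5], .r 4841 [1, 2, 5, 4] [1, 1, 1, 1, 3], .l [10, 3], .l [3, 2, 5, 2, 8, 1], .r 4840 [1, 2, 3, 5, 4] [1, 1, 1, 1, 1, 1], .l [10, 1], .y [8], .c, .l [3, 2, 5, 2, 6, 7], .l [8, 10], .l [11, 2], .l [3, 2, 5, 2, 6, 9], .l [8, 12], .l [13, 4]]),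
([s 2 1, g, p 0 2, s 5 3, g, p 4 0, g, m 1 0, g, s 0 4, s 0 5, g, s 3 0, g], .lo 9, [.l [4, 3, 8, 4, 8, 1], .l [4, 3, 8, 4, 10, 4, 1, 6, 4, 5], .l [4, 3, 8, 4, 8, 1], .l [2, 1, 8, 6, 8, 5], .l [2, 1, 8, 6, 8, 5], .l [2, 1, 8, 6, 10, 6, 3, 6, 2, 5], .y [5, 9], .l [2, 1, 8, 6, 8, 3], .l [2, 1, 8, 6, 8, 3], .l [2, 1, 8, 6, 10, 6, 3, 6, 2, 5], .l [2, 1, 6, 4, 8, 4, 1, 4, 2, 3], .l [2, 1, 6, 4, 8, 1], .l [2, 1, 6, 4, 8, 1], .l [2, 1, 6, 4, 10, 4, 1, 6, 4, 5], .l [2, 1, 6, 4, 6, 7], .l [2, 1, 6, 4, 10, 8, 3, 6, 2, 5], .l [2, 1, 6, 4, 6, 7], .l [2, 1, 6, 4, 6, 7], .l [2, 1, 6, 4, 6, 9], .l [2, 1, 6, 4, 8, 6, 3, 8, 4, 1], .l [2, 1, 6, 4, 6, 9]]),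
([s 2 1, g, p 0 2, s 5 3, g, m 1 0, g, p 4 0, g, s 0 4, s 0 5, g, s 3 0, g], .lo 9, [.l [4, 3, 6, 2, 8, 3], .l [4, 3, 6, 2, 10, 4, 1, 4, 2, 5], .l [4, 3, 6, 2, 8, 3], .l [2, 1, 6, 4, 8, 5], .l [2, 1, 6, 4, 8, 5], .l [2, 1, 6, 4, 10, 4, 1, 6, 4, 5], .l [2, 1, 4, 2, 8, 4, 1, 4, 2, 3], .l [2, 1, 4, 2, 8, 3], .l [2, 1, 4, 2, 8, 3], .l [2, 1, 4, 2, 10, 4, 1, 4, 2, 5], .y [7, 9], .l [2, 1, 4, 2, 8, 1], .l [2, 1, 4, 2, 8, 1], .l [2, 1, 4, 2, 10, 4, 1, 4, 2, 5], .l [2, 1, 4, 2, 6, 7], .l [2, 1, 4, 2, 10, 6, 1, 4, 2, 5], .l [2, 1, 4, 2, 6, 7], .l [2, 1, 4, 2, 6, 7], .l [2, 1, 4, 2, 6, 9], .l [2, 1, 4, 2, 8, 4, 1, 8, 6, 3], .l [2, 1, 4, 2, 6, 9]]),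
([s 2 1, g, m 4 0, g, p 0 2, s 5 3, g, m 1 0, g, s 0 4, s 0 5, g, s 3 0, g], .lo 9, [.l [6, 5, 8, 2, 8, 1], .l [6, 5, 8, 2, 10, 4, 1, 4, 2, 5], .l [6, 5, 8, 2, 8, 1], .y [2, 9], .l [6, 5, 8, 2, 8, 3], .l [6, 5, 8, 2, 10, 4, 1, 4, 2, 5], .l [6, 5, 8, 2, 8, 3], .l [4, 3, 8, 4, 8, 5], .l [4, 3, 8, 4, 8, 5], .l [4, 3, 8, 4, 10, 4, 1, 6, 4, 5], .l [4, 3, 6, 2, 8, 4, 1, 4, 2, 3], .l [4, 3, 6, 2, 8, 1], .l [4, 3, 6, 2, 8, 1], .l [4, 3, 6, 2, 10, 4, 1, 4, 2, 5], .l [4, 3, 6, 2, 6, 7], .l [2, 8, 11, 2, 6, 1], .l [4, 3, 6, 2, 6, 7], .l [4, 3, 6, 2, 6, 7], .l [4, 3, 6, 2, 6, 9], .l [2, 8, 13, 4, 8, 1], .l [4, 3, 6, 2, 6, 9]]),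
([s 2 1, g, p 0 2, s 4 3, g, m 1 0, g, s 0 0, s 0 4, g, s 3 0, g], .hi 7, [.l [4, 3, 6, 2, 6, 1], .l [4, 3, 6, 2, 6, 1], .r 4845 [1, 2, 3, 5, 4] [1, 1, 1, 1, 1, 1], .l [2, 1, 4, 2, 4, 1], .l [2, 1, 6, 4, 6, 3], .r 4843 [1, 2, 3, 5, 4] [1, 1, 1, 1, 1, 1], .l [2, 1, 6, 4, 6, 3], .l [2, 1, 4, 2, 6, 1], .r 4844 [1, 2, 3, 5, 4] [1, 1, 1, 1, 1, 1], .l [2, 1, 4, 2, 6, 1], .y [7], .c, .l [2, 1, 4, 2, 4, 5], .l [2, 1, 4, 2, 4, 5], .l [2, 1, 9, 2, 5, 1, 4, 5], .l [2, 1, 4, 2, 4, 7], .l [2, 1, 4, 2, 4, 7], .l [2, 1, 11, 4, 7, 1, 6, 1]]),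
([s 2 1, s 0 0, g, p 0 2, g, s 3 0, g, m 1 0, s 0 3, g], .lo 1, [.y [1], .l [7, 9, 1, 6, 4, 1], .r 4578 [1, 4] [1, 5, 2], .l [5, 4, 1], .l [7, 9, 1, 4, 2, 3], .r 4578 [1, 4] [3, 3, 2], .l [3, 2, 3], .l [5, 7, 1, 4, 2, 3], .l [5, 9, 3, 6, 2, 3], .l [5, 9, 3, 6, 2, 3], .l [3, 2, 5], .l [3, 2, 5], .l [5, 7, 1, 4, 2, 5], .r 4797 [1, 2, 4] [1, 3, 2, 1], .l [3, 2, 8]]),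
([s 2 1, s 0 0, g, p 0 2, s 4 3, g, m 1 0, g, s 0 4, g, s 3 0, g], .bot 7, [.r 4847 [1, 2, 4] [1, 0, 1, 3], .r 4846 [1, 2, 3, 4] [2, 1, 1, 1, 1], .r 4842 [1, 2, 3, 4] [1, 1, 1, 1, 1], .r 4825 [1, 2, 3, 4] [1, 1, 1, 1, 1]]),
([s 2 1, s 0 0, g, p 0 2, s 4 3, g, m 1 0, g, s 0 4, g, m 3 0, g], .lo 1, [.y [1], .l [5, 4, 1, 6, 2, 5], .r 4578 [1, 5] [1, 4, 5], .l [5, 4, 1], .l [10, 5, 11, 5, 2, 7], .l [10, 5, 11, 5, 2, 7], .l [3, 2, 4], .l [3, 2, 4], .l [10, 5, 11, 5, 2, 5], .l [10, 5, 11, 5, 2, 5], .l [3, 2, 6], .l [8, 3, 11, 7, 2, 3], .l [8, 3, 9, 2, 6, 8, 6, 3], .l [3, 2, 8], .l [3, 2, 8], .l [8, 3, 9, 5, 2, 7], .r 4706 [1, 2, 3, 5] [1, 1, 3, 1, 1], .l [3, 2, 10]]),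
([s 2 1, s 0 0, g, p 0 2, s 3 0, g, m 1 0, g, s 0 3, g], .hi 4, [.r 4723 [1, 2, 4] [1, 1, 3], .r 4714 [1, 2, 4] [1, 1, 1, 3], .r 4807 [1, 2, 4, 3] [1, 1, 1, 1, 1], .l [3, 5, 1], .r 4806 [1, 2, 4, 3] [1, 1, 1, 1], .r 4805 [1, 2, 4] [1, 1, 1, 3], .l [3, 2, 7, 4, 1], .r 4804 [2, 4, 3] [1, 1, 3, 1], .r 4773 [1, 2, 4, 3] [1, 1, 1, 1, 1], .l [3, 2, 5, 2, 5], .r 4804 [2, 4, 3] [1, 3, 1, 1], .y [4, 8], .r 4848 [1, 2, 4, 3] [1, 1, 1, 1, 1], .l [3, 2, 5, 2, 7], .r 4849 [1, 2, 4, 3] [1, 1, 1, 1, 1]]),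
([s 2 1, s 0 0, g, p 0 2, s 0 0, g, m 1 0, g], .lo 4, [.r 4736 [1, 3, 2] [1, 1, 1], .r 4579 [1, 3, 2] [1, 1, 1, 1], .l [3, 5, 1], .r 4725 [1, 3, 2] [1, 1, 1, 1], .y [4], .r 4665 [1, 2, 3] [1, 1, 1, 1], .r 4735 [1, 2, 3] [1, 1, 1, 1], .l [3, 2, 7, 4, 1], .l [3, 2, 5, 2, 1], .r 4850 [1, 2, 3] [1, 1, 1, 1], .r 4730 [1, 2, 3] [1, 1, 1, 1], .l [3, 2, 5, 2, 5]]),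
([s 4 1, s 3 0, g, m 5 2, g, m 2 0, s 0 3, g, p 0 4, g, s 0 5, g, m 1 0, g], .hi 1, [.l [3, 1, 11, 6, 6, 4, 6, 3], .l [10, 9, 1], .l [3, 1, 11, 6, 6, 4, 6, 3], .l [1, 4, 9, 5, 2, 5], .l [10, 9, 3], .l [5, 3, 3, 6, 3], .y [1, 6], .l [12, 8, 8, 6, 7, 10, 1, 6, 4, 1], .l [10, 9, 6], .R 4577 [4, 3, 6] [4, 1, 1, 5], .l [8, 7, 6], .l [12, 8, 8, 6, 7, 10, 1, 4, 2, 3], .l [8, 7, 8], .l [12, 8, 4, 9, 3, 10, 1, 6, 2, 5], .l [10, 8, 1, 6, 9, 1, 7, 5, 2, 1], .l [1, 11, 1, 6, 6, 4, 6, 3], .l [8, 7, 10], .l [10, 6, 6, 4, 5, 10, 3, 6, 2, 3], .l [1, 13, 3, 8, 8, 6, 8, 5], .l [8, 7, 12], .l [3, 9, 13, 5, 11, 4, 9, 7, 2, 3]]),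
([s 7 1, s 6 0, g, m 0 2, g, m 2 3, g, m 3 4, g, m 4 5, s 0 6, g, s 5 0, g, p 0 7, g, m 1 0, g], .lo 3, [.l [1, 14, 12, 15, 2, 12, 12, 10, 10, 8, 8, 6, 5], .l [5, 1, 17, 12, 15, 13, 13, 11, 11, 9, 6, 1], .l [5, 1], .l [2, 9, 10, 9, 16, 9, 2, 12, 12, 10, 10, 8, 1], .l [5, 1, 15, 10, 1, 11, 7, 2, 11, 6, 8, 5], .l [5, 1], .l [3, 4], .l [7, 3, 17, 10, 15, 13, 13, 11, 6, 1], .l [7, 3], .l [3, 6], .l [3, 8, 15, 9, 4, 11], .l [9, 5], .l [3, 8], .l [3, 11, 2, 11, 15, 10, 1, 11, 9, 2, 6, 1], .l [12, 8], .l [3, 11], .y [3, 5, 7, 9, 12], .l [8, 16, 7, 2, 9, 4, 13, 11, 4, 7], .l [14, 10], .l [3, 13], .l [8, 14, 5, 2, 7, 11, 13, 4, 6, 9], .l [16, 12], .l [3, 15], .l [3, 15], .l [18, 14, 14, 12, 12, 10, 13, 4, 1, 9, 6, 1], .l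 [18, 14], .l [3, 17]]),
([s 7 1, s 6 0, g, m 0 2, g, m 2 3, g, m 3 4, g, m 4 5, s 0 6, g, p 0 7, g, s 5 0, g, m 1 0, g], .lo 3, [.l [1, 12, 10, 15, 4, 12, 12, 10, 10, 8, 8, 6, 5], .l [5, 1, 17, 12, 15, 13, 13, 11, 11, 9, 6, 3], .l [5, 1], .l [2, 9, 10, 9, 16, 9, 2, 12, 12, 10, 10, 8, 3], .l [8, 9, 7, 7, 3, 5, 1, 12, 9, 2, 8, 3], .l [5, 1], .l [3, 4], .l [7, 3, 17, 10, 15, 13, 13, 11, 6, 3], .l [7, 3], .l [3, 6], .l [3, 8, 13, 7, 4, 9], .l [9, 5], .l [3, 8], .l [3, 11, 15, 12, 15, 9, 6, 11], .l [12, 8], .l [3, 11], .l [3, 13, 4, 13, 15, 10, 1, 11, 9, 4, 6, 3], .l [14, 10], .l [3, 13], .y [3, 5, 7, 9, 14], .l [8, 18, 9, 4, 11, 4, 9, 7, 4, 9], .l [16, 12], .l [3, 15], .l [3, 15], .l [18, 14, 14, 12, 12, 10, 13, 4,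 1, 9, 6, 3], .l [18, 14], .l [3, 17]]),
([s 6 1, s 5 0, g, m 0 2, g, m 2 3, g, m 3 4, g, m 4 0, s 0 5, g, p 0 6, g, m 1 0, g], .hi 9, [.l [3, 10, 13, 5, 2, 9], .l [14, 13, 10, 8, 7, 7, 5, 5, 3, 3, 1, 7, 1], .l [3, 10], .y [3, 5, 7, 9], .l [5, 10, 13, 7, 4, 9], .l [14, 13, 10, 6, 5, 5, 3, 3, 1, 3, 1, 7, 1], .l [5, 10], .l [7, 10, 13, 9, 6, 9], .l [6, 9, 7, 7, 5, 10, 7, 3, 3, 1, 8, 2, 3], .l [7, 10], .l [10, 16, 5, 13, 1, 11, 4, 1], .l [8, 11, 9, 9, 7, 7, 5, 9, 6, 1, 8, 2, 3], .l [9, 10], .l [12, 11, 8, 8, 7, 7, 5, 5, 3, 3, 1, 5, 1], .r 4853 [1, 2, 3, 4, 7, 5, 6] [1, 1, 1, 1, 1, 1, 1, 1], .l [14, 13, 8, 14, 1, 3, 11, 11, 9, 9, 7, 7, 5], .l [14, 13, 8, 10, 9, 9, 7, 7, 5, 5, 3, 7, 1], .l [12, 11, 8, 12, 1, 1, 9, 9,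 7, 7, 5, 5, 3], .r 4854 [1, 2, 3, 4, 7, 5, 6] [1, 1, 1, 1, 1, 1, 1, 1], .l [8, 9, 7, 7, 5, 9, 4, 8, 1, 6, 8, 4, 5], .l [12, 11, 8, 12, 11, 11, 9, 9, 7, 7, 5, 7, 3], .l [8, 12, 3, 13, 3, 11, 2, 7], .l [15, 6, 14, 8, 1, 11, 4, 1], .l [12, 11, 8, 14, 13, 13, 11, 11, 9, 9, 7, 5, 1]]),
([s 6 1, s 4 0, g, m 5 2, g, m 2 3, g, m 3 0, s 0 4, g, s 0 5, g, p 0 6, g, m 1 0, g], .hi 1, [.l [12, 6, 6, 4, 4, 2, 5, 8, 1, 8, 6, 3], .l [14, 13, 1], .l [12, 6, 6, 4, 4, 2, 5, 8, 1, 8, 6, 3], .l [5, 3, 15, 10, 13, 11, 11, 9, 6, 1], .l [14, 13, 3], .l [5, 3, 15, 10, 13, 11, 11, 9, 6, 1], .l [1, 6, 13, 7, 2, 9], .l [14, 13, 5], .l [7, 5, 5, 8, 5], .y [1, 8], .l [12, 8, 8, 6, 6, 4, 5, 8, 1, 8, 6, 1], .l [14, 13, 8], .R 4577 [6, 4, 7]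 [6, 1, 3, 3], .l [10, 8, 13, 3, 4, 9, 9, 7, 7, 5, 4, 1], .l [10, 6, 6, 4, 4, 2, 3, 8, 3, 8, 4, 5], .l [14, 13, 10], .l [10, 6, 6, 4, 4, 2, 3, 8, 3, 8, 4, 5], .l [12, 11, 10], .l [10, 6, 6, 4, 4, 2, 3, 6, 1, 8, 6, 3], .l [12, 11, 12], .l [3, 9, 13, 5, 13, 6, 11, 9, 9, 7, 2, 3], .l [10, 6, 6, 4, 4, 2, 3, 6, 1, 6, 4, 5], .l [12, 11, 14], .r 4664 [1, 7, 6] [10, 1, 1, 1]]),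
([s 5 1, s 4 0, g, m 6 2, g, m 2 3, g, m 3 0, s 0 4, g, p 0 5, g, s 0 6, g, m 1 0, g], .hi 1, [.l [3, 1, 13, 8, 8, 6, 6, 4, 6, 3], .l [12, 11, 1], .l [3, 1, 13, 8, 8, 6, 6, 4, 6, 3], .l [5, 3, 13, 11, 11, 6, 6, 4, 6, 3], .l [12, 11, 3], .l [5, 3, 13, 11, 11, 6, 6, 4, 6, 3], .l [1, 6, 11, 5, 2, 7], .l [12, 11, 5], .l [7, 5, 5, 8, 5], .y [1, 8], .l [14, 10, 10, 8, 8, 6, 7, 10, 1, 6, 4, 1], .l [12, 11, 8], .R 4577 [5, 4, 7] [6, 1, 1, 5], .l [10, 9, 8], .l [14, 10, 10, 8, 8, 6, 7, 10, 1, 4, 2, 3], .l [10, 9, 10], .l [14, 10, 10, 8, 4, 9, 3, 10, 1, 6, 2, 5], .l [12, 10, 13, 1, 2, 9, 9, 7, 7, 5, 4, 1], .l [1, 13, 1, 8, 8, 6, 6, 4, 6, 3], .l [10, 9, 12], .l [12, 8, 8, 6, 6, 4, 5, 10, 3, 6, 2, 3], .l [1, 15, 3, 10, 10,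 8, 8, 6, 8, 5], .l [10, 9, 14], .l [3, 11, 15, 5, 13, 6, 11, 9, 9, 7, 2, 3]]),
([s 5 1, s 4 0, g, m 0 2, g, m 2 3, g, m 3 0, s 0 4, g, p 0 5, g, m 1 0, g], .lo 3, [.l [3, 1, 11, 8, 9, 7, 7, 5, 4, 1], .l [5, 1, 13, 8, 11, 9, 9, 7, 4, 1], .l [5, 1], .r 4855 [1, 6, 2, 3, 4, 5] [1, 1, 1, 1, 1, 1, 1], .l [6, 7, 3, 5, 1, 10, 7, 2, 6, 1], .l [5, 1], .l [3, 4], .l [3, 6, 11, 7, 4, 7], .l [7, 3], .l [3, 6], .y [3, 5, 7], .r 4856 [1, 2, 3, 4, 6, 5] [1, 1, 1, 1, 1, 1, 1], .l [10, 6], .l [3, 9], .r 4857 [1, 2, 3, 4, 5, 6] [1, 1, 1, 1, 1, 1, 1], .l [12, 8], .l [3, 11], .l [3, 11], .l [14, 10, 10, 8, 11, 4, 1, 7, 4, 1], .l [14, 10], .l [3, 13]]),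
([s 5 1, s 3 0, g, m 4 2, g, m 2 0, s 0 3, g, s 0 4, g, p 0 5, g, m 1 0, g], .hi 1, [.l [10, 4, 4, 2, 5, 8, 1, 8, 6, 3], .l [12, 11, 1], .l [10, 4, 4, 2, 5, 8, 1, 8, 6, 3], .l [1, 4, 11, 7, 2, 7], .l [12, 11, 3], .l [5, 3, 3, 6, 3], .y [1, 6], .l [10, 6, 6, 4, 5, 8, 1, 8, 6, 1], .l [12, 11, 6], .R 4577 [5, 3, 6] [4, 1, 3, 3], .l [8, 6, 1, 4, 7, 1, 7, 5, 2, 1], .l [8, 4, 4, 2, 3, 8, 3, 8, 4, 5], .l [12, 11, 8], .l [8, 4, 4, 2, 3, 8, 3, 8, 4, 5], .l [10, 9, 8], .l [8, 4, 4, 2, 3, 6, 1, 8, 6, 3], .l [10, 9, 10], .l [3, 7, 11, 5, 11, 4, 9, 7, 2, 3], .l [8, 4, 4, 2, 3, 6, 1, 6, 4, 5], .l [10, 9, 12], .l [3, 7, 13, 7, 8, 4, 1, 2, 6, 1]]),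
([s 4 1, s 3 0, g, m 0 2, g, m 2 0, s 0 3, g, p 0 4, g, m 1 0, g], .lo 3, [.l [3, 1, 1, 4, 3], .l [5, 1, 11, 6, 9, 7, 4, 1], .l [5, 1], .r 4858 [1, 5, 2, 3, 4] [1, 1, 1, 1, 1, 1], .l [2, 5, 1, 10, 7, 2, 6, 1], .l [5, 1], .l [3, 4], .y [3, 5], .r 4859 [1, 2, 3, 5, 4] [1, 1, 1, 1, 1, 1], .l [8, 4], .l [3, 7], .r 4852 [1, 2, 3, 4, 5] [1, 1, 1, 1, 1, 1], .l [10, 6], .l [3, 9], .l [3, 9], .l [12, 8, 11, 4, 1, 7, 4, 1], .l [12, 8], .l [3, 11]]),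
([s 3 1, s 2 0, g, m 0 0, s 0 2, g, p 0 3, g, m 1 0, g], .lo 3, [.l [1, 3, 2], .l [8, 7, 4, 1], .l [5, 1], .r 4860 [1, 4, 2, 3] [1, 1, 1, 1, 1], .y [3], .l [8, 7, 2, 3], .l [6, 2], .l [3, 5], .l [6, 5, 2, 5], .l [8, 4], .l [3, 7], .l [3, 7], .l [6, 5, 2, 7], .l [10, 6], .l [3, 9]]),
([s 5 1, s 4 0, g, p 3 2, g, p 0 3, s 0 4, g, s 2 0, g, p 0 5, g, m 1 0, g], .hi 1, [.l [10, 4, 4, 2, 5, 8, 1, 8, 6, 3], .l [12, 11, 1], .l [10, 4, 4, 2, 5, 8, 1, 8, 6, 3], .l [1, 4, 11, 7, 2, 7], .l [12, 11, 3], .l [5, 3, 3, 6, 3], .l [10, 9, 3], .y [1, 6], .l [10, 6, 6, 4, 5, 8, 1, 8, 6, 1], .l [12, 11, 6], .R 4577 [5, 4, 6] [4, 1, 3, 3], .l [8, 4, 4, 2, 3, 8, 3, 8, 4, 5], .l [12, 11, 8], .l [8, 4, 4, 2, 3, 8, 3, 8, 4, 5], .l [10,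 9, 8], .l [8, 4, 4, 2, 3, 6, 1, 8, 6, 3], .l [10, 9, 10], .l [3, 7, 11, 5, 11, 4, 9, 7, 2, 3], .l [8, 4, 4, 2, 3, 6, 1, 6, 4, 5], .l [10, 9, 12], .l [3, 7, 13, 7, 8, 4, 1, 2, 6, 1]]),
([s 7 1, s 5 0, g, p 2 0, g, p 3 2, g, p 4 3, g, p 6 4, s 0 5, g, s 0 6, g, p 0 7, g, m 1 0, g], .hi 3, [.l [5, 1, 17, 12, 15, 13, 13, 11, 11, 9, 6, 1], .l [2, 9, 10, 9, 16, 9, 2, 12, 12, 10, 10, 8, 1], .l [5, 1], .l [5, 1, 15, 10, 1, 11, 7, 2, 11, 6, 8, 5], .l [3, 4], .l [5, 1], .l [7, 3, 17, 10, 15, 13, 13, 11, 6, 1], .l [3, 6], .l [7, 3], .l [3, 8, 15, 9, 4, 11], .l [3, 8], .l [9, 5], .l [10, 6, 6, 4, 4, 2, 2, 0, 1], .l [3, 11, 2, 11, 15, 10, 1, 11, 9, 2, 6, 1], .l [3, 11], .l [12, 8], .y [3, 12, 9, 7, 5], .l [8, 16, 7, 2, 9, 4,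 13, 11, 4, 7], .l [3, 13], .l [14, 10], .l [3, 13], .l [8, 14, 5, 2, 7, 11, 13, 4, 6, 9], .l [3, 15], .l [16, 12], .l [18, 14, 14, 12, 12, 10, 13, 4, 1, 9, 6, 1], .l [3, 17], .l [18, 14]])]

def D18 : List (List (List Item × Qry × List Rf)) := [d18_0, d18_1, d18_2, d18_3]

end Pool.Agent.H63.PU.C161
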