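import Pool.Agent.H63.PU.Ck3

/-! Certificate data, machine generated. -/

namespace Pool.Agent.H63.PU.C161

open Pool.Agent.H63.PU Pool.Agent.H63.PU.Ck3 Pool.Agent.H63.PU.Short

set_option maxRecDepth 20000

def d19_0 : List (List Item × Qry × List Rf) := [
([s 6 1, s 5 0, g, p 2 0, g, p 3 2, g, p 4 3, g, p 7 4, s 0 5, g, p 0 6, g, s 0 7, g, m 1 0, g], .hi 3, [.l [5, 1, 17, 12, 15, 13, 13, 11, 11, 9, 6, 3], .l [2, 9, 10, 9, 16, 9, 2, 12, 12, 10, 10, 8, 3], .l [5, 1], .l [8, 9, 7, 7, 3, 5, 1, 12, 9, 2, 8, 3], .l [3, 4], .l [5, 1], .l [7, 3, 17, 10, 15, 13, 13, 11, 6, 3], .l [3, 6], .l [7, 3], .l [3, 8, 13, 7, 4, 9], .l [3, 8], .l [9, 5], .l [10, 6, 6, 4, 4, 2, 2, 0, 1], .l [3, 11, 15, 12, 15, 9, 6, 11], .l [3,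 11], .l [12, 8], .l [3, 11], .l [3, 13, 4, 13, 15, 10, 1, 11, 9, 4, 6, 3], .l [3, 13], .l [14, 10], .y [3, 14, 9, 7, 5], .l [8, 18, 9, 4, 11, 4, 9, 7, 4, 9], .l [3, 15], .l [16, 12], .l [18, 14, 14, 12, 12, 10, 13, 4, 1, 9, 6, 3], .l [3, 17], .l [18, 14]]),
([s 6 1, s 5 0, g, p 2 0, g, p 3 2, g, p 4 3, g, p 0 4, s 0 5, g, p 0 6, g, m 1 0, g], .lo 9, [.l [12, 11, 8, 12, 1, 3, 9, 9, 7, 7, 5, 5, 3], .l [3, 10, 13, 5, 2, 9], .l [3, 10], .l [14, 13, 10, 8, 7, 7, 5, 5, 3, 3, 1, 7, 1], .y [3, 9, 7, 5], .l [5, 10, 13, 7, 4, 9], .l [5, 10], .l [14, 13, 10, 6, 5, 5, 3, 3, 1, 3, 1, 7, 1], .l [7, 10, 13, 9, 6, 9], .l [7, 10], .l [6, 9, 7, 7, 5, 10, 7, 3, 3, 1, 8, 2, 3], .l [10, 16, 5, 13, 1, 11, 4, 1], .l [9, 10], .l [8,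 11, 9, 9, 7, 7, 5, 9, 6, 1, 8, 2, 3], .r 4863 [1, 2, 3, 4, 5, 7, 6] [1, 1, 1, 1, 1, 1, 1, 1], .l [14, 13, 8, 10, 9, 9, 7, 7, 5, 5, 3, 7, 1], .l [14, 13, 8, 14, 1, 3, 11, 11, 9, 9, 7, 7, 5], .r 4864 [1, 2, 3, 4, 5, 6, 7] [1, 1, 1, 1, 1, 1, 1, 1], .l [12, 11, 8, 12, 11, 11, 9, 9, 7, 7, 5, 7, 3], .l [8, 9, 7, 7, 5, 9, 4, 8, 1, 6, 8, 4, 5], .l [8, 9, 7, 7, 5, 9, 4, 8, 1, 6, 6, 2, 3], .l [8, 12, 3, 13, 3, 11, 2, 7], .l [12, 11, 8, 14, 13, 13, 11, 11, 9, 9, 7, 5, 1], .l [15, 6, 14, 8, 1, 11, 4, 1]]),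
([s 6 1, s 5 0, g, p 3 2, g, p 4 3, g, p 0 4, s 0 5, g, s 2 0, g, p 0 6, g, m 1 0, g], .hi 1, [.l [12, 6, 6, 4, 4, 2, 5, 8, 1, 8, 6, 3], .l [14, 13, 1], .l [12, 6, 6, 4, 4, 2, 5, 8, 1, 8, 6, 3], .l [5, 3, 15, 10, 13, 11, 11, 9, 6, 1], .l [14, 13, 3], .l [5, 3, 15, 10, 13, 11, 11, 9, 6, 1], .l [1, 6, 13, 7, 2, 9], .l [14, 13, 5], .l [7, 5, 5, 8, 5], .l [12, 11, 5], .y [1, 8], .l [12, 8, 8, 6, 6, 4, 5, 8, 1, 8, 6, 1], .l [14, 13, 8], .R 4577 [6, 5, 7] [6, 1, 3, 3], .l [10, 6, 6, 4, 4, 2, 3, 8, 3, 8, 4, 5], .l [14, 13, 10], .l [10, 6, 6, 4, 4, 2, 3, 8, 3, 8, 4, 5], .l [12, 11, 10], .l [10, 6, 6, 4, 4, 2, 3, 6, 1, 8, 6, 3], .l [12, 11, 12], .l [3, 9, 13, 5, 13, 6, 11, 9, 9, 7, 2, 3], .l [10, 6, 6, 4, 4, 2, 3, 6,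 1, 6, 4, 5], .l [12, 11, 14], .r 4664 [1, 7, 6] [10, 1, 1, 1]]),
([s 6 1, s 5 0, g, p 3 2, g, p 4 3, g, p 0 4, s 0 5, g, p 0 6, g, s 2 0, g, m 1 0, g], .hi 1, [.l [3, 1, 13, 8, 8, 6, 6, 4, 6, 3], .l [12, 11, 1], .l [3, 1, 13, 8, 8, 6, 6, 4, 6, 3], .l [5, 3, 13, 11, 11, 6, 6, 4, 6, 3], .l [12, 11, 3], .l [5, 3, 13, 11, 11, 6, 6, 4, 6, 3], .l [1, 6, 11, 5, 2, 7], .l [12, 11, 5], .l [7, 5, 5, 8, 5], .l [10, 9, 5], .y [1, 8], .l [14, 10, 10, 8, 8, 6, 7, 10, 1, 6, 4, 1], .l [12, 11, 8], .R 4577 [6, 5, 7] [6, 1, 1, 5], .l [10, 9, 8], .l [14, 10, 10, 8, 8, 6, 7, 10, 1, 4, 2, 3], .l [10, 9, 10], .l [14, 10, 10, 8, 4, 9, 3, 10, 1, 6, 2, 5], .l [1, 13, 1, 8, 8, 6, 6, 4, 6, 3], .l [10, 9, 12], .l [12, 8, 8, 6, 6, 4, 5,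 10, 3, 6, 2, 3], .l [1, 15, 3, 10, 10, 8, 8, 6, 8, 5], .l [10, 9, 14], .l [3, 11, 15, 5, 13, 6, 11, 9, 9, 7, 2, 3]]),
([s 5 1, s 4 0, g, p 2 0, g, p 3 2, g, p 0 3, s 0 4, g, p 0 5, g, m 1 0, g], .hi 3, [.l [5, 1, 13, 8, 11, 9, 9, 7, 4, 1], .r 4865 [1, 6, 2, 3, 4, 5] [1, 1, 1, 1, 1, 1, 1], .l [5, 1], .l [6, 7, 3, 5, 1, 10, 7, 2, 6, 1], .l [3, 4], .l [5, 1], .l [3, 6, 11, 7, 4, 7], .l [3, 6], .l [7, 3], .y [3, 7, 5], .l [8, 4, 4, 2, 2, 0, 1], .r 4866 [1, 6, 2, 3, 4, 5] [1, 1, 1, 1, 1, 1, 1], .l [3, 9], .l [10, 6], .l [3, 9], .r 4867 [1, 6, 2, 3, 4, 5] [1, 1, 1, 1, 1, 1, 1], .l [3, 11], .l [12, 8], .l [14, 10, 10, 8, 11, 4, 1, 7, 4, 1], .l [3, 13], .l [14, 10]]),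
([s 5 1, s 4 0, g, p 3 2, g, p 0 3, s 0 4, g, p 0 5, g, s 2 0, g, m 1 0, g], .hi 1, [.l [3, 1, 11, 6, 6, 4, 6, 3], .l [10, 9, 1], .l [3, 1, 11, 6, 6, 4, 6, 3], .l [1, 4, 9, 5, 2, 5], .l [10, 9, 3], .l [5, 3, 3, 6, 3], .l [8, 7, 3], .y [1, 6], .l [12, 8, 8, 6, 7, 10, 1, 6, 4, 1], .l [10, 9, 6], .R 4577 [5, 4, 6] [4, 1, 1, 5], .l [8, 7, 6], .l [12, 8, 8, 6, 7, 10, 1, 4, 2, 3], .l [8, 7, 8], .l [12, 8, 4, 9, 3, 10, 1, 6, 2, 5], .l [1, 11, 1, 6, 6, 4, 6, 3], .l [8, 7, 10], .l [10, 6, 6, 4, 5, 10, 3, 6, 2, 3], .l [1, 13, 3, 8, 8, 6, 8, 5], .l [8, 7, 12], .l [3, 9, 13, 5, 11, 4, 9, 7, 2, 3]]),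
([s 4 1, s 3 0, g, p 2 0, g, p 0 2, s 0 3, g, p 0 4, g, m 1 0, g], .hi 3, [.l [5, 1, 11, 6, 9, 7, 4, 1], .r 4868 [1, 5, 2, 3, 4] [1, 1, 1, 1, 1, 1], .l [5, 1], .l [2, 5, 1, 10, 7, 2, 6, 1], .l [3, 4], .l [5, 1], .y [3, 5], .l [3, 5, 4], .r 4862 [1, 5, 2, 3, 4] [1, 1, 1, 1, 1, 1], .l [3, 7], .l [8, 4], .l [3, 7], .r 4869 [1, 5, 2, 3, 4] [1, 1, 1, 1, 1, 1], .l [3, 9], .l [10, 6], .l [12, 8, 11, 4, 1, 7, 4, 1], .l [3, 11], .l [12, 8]]),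
([s 3 1, s 2 0, g, p 0 0, s 0 2, g, p 0 3, g, m 1 0, g], .hi 3, [.l [8, 7, 4, 1], .r 4870 [1, 4, 2, 3] [1, 1, 1, 1, 1], .l [5, 1], .y [3], .c, .l [8, 7, 2, 3], .l [3, 5], .l [6, 2], .l [3, 5], .l [6, 5, 2, 5], .l [3, 7], .l [8, 4], .l [6, 5, 2, 7], .l [3, 9], .l [10, 6]]),
([s 4 1, s 3 0, g, s 5 2, s 0 3, g, p 0 4, g, p 0 5, g, m 1 0, g, m 2 0, g], .lo 4, [.y [1, 4], .l [2, 14, 8, 11, 8, 3, 6, 7], .l [10, 4, 5], .l [2, 14, 8, 11, 8, 3, 6, 7], .l [6, 1, 9, 6, 11, 4, 8, 5], .l [6, 1, 9, 6, 11, 4, 8, 5], .l [10, 6, 1], .l [7, 10, 5, 12, 6, 9, 6, 1, 4, 5], .l [8, 3, 9, 4, 11, 6, 8, 3], .l [10, 6, 3], .l [8, 4, 8, 10, 8, 5], .l [10, 5, 1, 7, 2, 3], .l [8, 4, 8], .l [8, 4, 8], .l [12, 7, 1, 9, 2, 5], .l [12, 7, 1,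 9, 2, 5], .l [8, 4, 10], .l [8, 4, 10], .l [14, 9, 1, 11, 2, 7], .l [14, 9, 1, 11, 2, 7], .l [8, 4, 12]]),
([s 4 1, s 3 0, g, s 0 2, s 0 3, g, p 0 4, g, m 1 0, g, m 2 0, g], .lo 3, [.l [6, 5, 2, 1], .l [8, 7, 4, 1, 7, 1], .l [8, 7, 4, 1], .l [2, 10, 7, 1, 9, 7, 4, 1], .l [8, 7, 2, 3, 7, 1], .l [2, 12, 8, 9, 4, 1, 2, 3], .l [8, 7, 2, 3], .l [2, 12, 8, 9, 6, 3, 4, 1], .r 4872 [1, 2, 3, 4, 5] [1, 1, 1, 1, 1, 1], .l [6, 5, 2, 5], .l [6, 5, 2, 5], .l [2, 10, 6, 7, 4, 8, 4, 5], .l [2, 10, 6, 7, 4, 8, 4, 5], .l [6, 5, 2, 7], .y [3, 10], .l [2, 10, 6, 7, 4, 1, 2, 5], .l [2, 10, 6, 7, 4, 8, 4, 5], .l [6, 5, 2, 9]]),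
([s 4 1, s 3 0, g, s 0 2, s 0 3, g, p 0 4, g, m 2 0, g, m 1 0, g], .hi 1, [.l [3, 1, 9, 4, 6, 3], .l [8, 7, 1], .l [3, 1, 9, 4, 6, 3], .l [6, 5, 2, 1], .y [1, 4], .l [1, 5, 11, 6, 8, 3], .l [8, 7, 4], .R 4577 [4, 3, 5] [2, 1, 1, 5], .l [6, 5, 4], .l [1, 7, 11, 4, 6, 3], .l [6, 5, 6], .r 4803 [5, 4] [4, 1, 5], .l [8, 4, 5, 10, 3, 6, 2, 3], .l [6, 5, 8], .l [8, 4, 5, 10, 3, 6, 2, 3], .l [8, 4, 5, 8, 1, 4, 2, 5], .l [6, 5, 10], .l [12, 10, 11, 6, 1, 7, 2, 3]]),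
([s 4 1, s 3 0, g, s 0 2, s 0 3, g, m 2 0, g, p 0 4, g, m 1 0, g], .hi 1, [.l [8, 2, 5, 8, 1, 8, 6, 3], .l [10, 9, 1], .l [8, 2, 5, 8, 1, 8, 6, 3], .l [8, 7, 2, 1], .y [1, 4], .l [1, 5, 9, 4, 6, 3], .l [10, 9, 4], .R 4577 [4, 3, 5] [2, 1, 3, 3], .l [6, 2, 3, 8, 3, 8, 4, 5], .l [10, 9, 6], .l [6, 2, 3, 8, 3, 8, 4, 5], .l [8, 7, 6], .l [6, 2, 3, 6, 1, 8, 6, 3], .l [8, 7, 8], .r 4803 [5, 4] [6, 1, 3], .l [6, 2, 3, 6, 1, 6, 4, 5], .l [8, 7, 10], .r 4664 [1, 5, 4] [6, 1, 1, 1]]),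
([s 4 1, s 3 0, g, s 0 2, s 0 3, g, p 0 4, m 1 0, g, s 2 0, g], .hi 7, [.l [3, 8, 4], .l [8, 7, 4, 8, 1, 5], .l [3, 8], .l [1, 3, 5, 2], .l [4, 6, 1], .l [6, 8, 1], .l [1, 3, 9, 4, 2, 4], .l [6, 8], .y [0, 7, 6], .l [6, 5, 2, 5, 0, 5], .l [6, 5, 2, 8, 3, 1], .l [7, 9, 8, 5, 2, 7], .l [6, 5, 2, 5, 0, 7], .l [6, 5, 2, 6, 1, 7], .l [1, 3, 7, 9, 7, 2]]),
([s 4 1, s 3 0, g, s 0 2, s 0 3, g, p 0 4, m 0 0, g, m 1 0, g, s 2 0, g], .hi 7, [.l [3, 8, 4], .l [8, 7, 4, 10, 3, 7], .l [3, 8], .l [1, 3, 5, 2], .l [4, 6, 1], .l [6, 8, 1], .l [1, 3, 11, 6, 2, 6], .l [6, 8], .l [1, 3, 9, 4, 0, 4], .y [7], .l [6, 5, 2, 9, 4, 1], .l [6, 5, 2, 10, 5, 1], .l [7, 9, 8, 5, 2, 9], .l [6, 5, 2, 7, 2, 7], .l [6, 5, 2, 10, 5, 3], .l [7,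 11, 10, 5, 2, 9], .l [6, 5, 2, 7, 2, 9], .l [6, 5, 2, 8, 3, 9], .l [1, 3, 9, 11, 7, 2]]),
([s 4 1, s 3 0, g, s 0 2, s 0 3, g, p 0 4, p 0 0, g, m 1 0, g, s 2 0, g], .lo 7, [.l [1, 3, 9, 6, 2, 5], .l [3, 8, 4], .l [3, 8], .l [8, 7, 4, 10, 3, 7], .l [6, 8, 1], .l [6, 8], .l [1, 3, 11, 6, 2, 6], .y [7], .l [6, 5, 2, 9, 4, 1], .l [7, 9, 8, 5, 2, 9], .l [6, 5, 2, 10, 5, 1], .l [6, 5, 2, 8, 3, 1], .l [6, 5, 2, 7, 2, 7], .l [7, 11, 10, 5, 2, 9], .l [6, 5, 2, 10, 5, 3], .l [1, 3, 9, 9, 5, 2], .l [6, 5, 2, 7, 2, 9], .l [1, 3, 9, 11, 7, 2], .l [6, 5, 2, 8, 3, 9]]),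
([s 4 1, s 3 0, g, s 0 2, s 0 3, g, p 0 4, g, m 1 0, g, s 2 0, g], .top 7, [.r 4876 [1, 2, 3, 4] [1, 1, 1, 1], .r 4851 [1, 4] [4, 1, 3], .r 4878 [1, 2, 3, 4] [1, 1, 1, 1, 1], .r 4877 [1, 2, 3, 4] [1, 1, 1, 1, 1]]),
([s 4 1, s 3 0, g, s 0 2, s 0 3, g, p 0 4, m 0 0, g, s 2 0, g, m 1 0, g], .hi 7, [.l [3, 8, 4], .l [8, 7, 4, 8, 1, 5], .l [3, 8], .l [1, 3, 5, 2], .l [4, 6, 1], .l [6, 8, 1], .l [1, 3, 9, 4, 2, 4], .l [6, 8], .l [1, 3, 7, 2, 0, 2], .y [7], .l [6, 5, 2, 11, 6, 1], .l [6, 5, 2, 8, 3, 1], .l [7, 9, 8, 5, 2, 7], .l [6, 5, 2, 11, 6, 3], .l [6, 5, 2, 6, 1, 7], .l [1, 3, 7, 9, 7, 2], .l [6, 5, 2, 9, 4, 9], .l [6, 5, 2, 6, 1, 9], .l [1, 3, 7, 11, 9, 2]]),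
([s 4 1, s 3 0, g, s 0 2, s 0 3, g, p 0 4, p 0 0, g, s 2 0, g, m 1 0, g], .lo 7, [.l [1, 3, 7, 4, 2, 3], .l [3, 8, 4], .l [3, 8], .l [8, 7, 4, 8, 1, 5], .l [6, 8, 1], .l [6, 8], .l [1, 3, 9, 4, 2, 4], .y [7], .l [6, 5, 2, 11, 6, 1], .l [7, 9, 8, 5, 2, 7], .l [6, 5, 2, 8, 3, 1], .l [1, 3, 7, 7, 5, 2], .l [6, 5, 2, 11, 6, 3], .l [1, 3, 7, 9, 7, 2], .l [6, 5, 2, 6, 1, 7], .l [6, 5, 2, 6, 1, 7], .l [6, 5, 2, 9, 4, 9], .l [1, 3, 7, 11, 9, 2], .l [6, 5, 2, 6, 1, 9]]),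
([s 4 1, s 3 0, g, s 0 2, s 0 3, g, p 0 4, g, s 2 0, g, m 1 0, g], .top 7, [.l [1, 3, 5, 2, 6, 3], .r 4851 [1, 4] [4, 3, 1], .r 4881 [1, 2, 3, 4] [1, 1, 1, 1, 1], .r 4880 [1, 2, 3, 4] [1, 1, 1, 1, 1]]),
([s 4 1, s 3 0, g, p 2 0, g, s 0 2, s 0 3, g, p 0 4, g, m 1 0, g], .lo 5, [.l [8, 7, 4, 3], .l [10, 9, 6, 3, 9, 1], .l [10, 9, 6, 3], .l [6, 12, 5, 9, 1, 7, 4, 1], .y [3, 5], .l [10, 9, 6, 1, 9, 1], .l [10, 9, 6, 1], .l [6, 12, 5, 9, 1, 7, 4, 1], .l [10, 9, 4, 5, 9, 1], .l [2, 12, 9, 1, 4, 2, 6, 1], .l [10, 9, 4, 5], .l [2, 12, 9, 1, 6, 4, 6, 3], .l [2, 12, 9, 1, 6, 4, 6, 3], .l [8, 7, 4, 7], .l [8, 7, 4, 7], .l [2, 12, 6, 9, 6, 1, 4, 1], .l [2, 10, 7, 1, 9, 7, 4, 1], .l [8, 7, 4, 9]]),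
([s 3 1, s 2 0, g, s 0 0, s 0 2, g, p 0 3, g, m 1 0, g], .hi 3, [.l [8, 7, 4, 1, 7, 1], .r 4883 [1, 4, 2, 3] [1, 1, 1, 1, 1], .l [8, 7, 4, 1], .y [3], .c, .l [8, 7, 2, 3, 7, 1], .l [8, 7, 2, 3], .r 4875 [1, 4, 2, 3] [1, 1, 1, 1, 1], .l [6, 5, 2, 3], .r 4882 [1, 4, 2, 3] [1, 1, 1, 1, 1], .l [6, 5, 2, 5], .r 4874 [1, 4, 2, 3] [1, 1, 1, 1, 1], .r 4879 [1, 4, 2, 3] [1, 1, 1, 1, 1], .l [6, 5, 2, 7], .r 4873 [1, 4, 2, 3] [1, 1, 1, 1, 1]]),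
([s 3 1, s 2 0, g, s 0 2, g, p 0 3, g, m 1 0, g], .bot 2, [.c, .r 4884 [1, 2, 3] [1, 1, 1, 1], .r 4871 [1, 2, 3] [1, 1, 1, 1], .r 4861 [1, 2, 3] [1, 1, 1, 1]]),
([s 3 1, s 7 2, g, s 2 0, g, p 0 3, p 4 0, g, p 5 4, g, p 6 5, g, p 0 6, g, s 0 7, g, m 1 0, g], .hi 6, [.l [8, 4, 1, 4, 7, 5, 2, 9], .l [12, 14, 13, 13, 11, 11, 9, 6, 3, 7, 5, 9, 5], .l [8, 4], .l [8, 2, 15, 8, 12, 9], .l [7, 6, 1, 16, 10, 12, 11, 11, 9, 9, 7, 7, 5], .l [8, 2], .l [5, 4, 1, 14, 10, 10, 9, 9, 7, 7, 5, 5, 3], .l [8, 1, 9, 7, 4], .l [6, 7], .l [8, 1], .l [6, 9, 6, 1, 4, 5, 2, 9], .l [6, 9], .l [10, 3], .l [6, 11, 8, 1, 4, 7, 4, 9], .l [6, 11], .l [12, 5], .y [6, 12, 10, 8], .l [6, 13, 10, 1, 4, 9, 6, 9], .l [6, 13], .l [14, 7], .l [10,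 12, 11, 11, 9, 13, 5, 1, 9, 4, 5, 7, 1], .l [6, 15, 12, 1, 4, 11, 8, 5], .l [6, 15], .l [16, 9], .l [6, 17, 14, 1, 4, 13, 10, 5], .l [6, 17], .l [18, 11]]),
([s 3 1, s 6 2, g, s 2 0, g, p 0 3, p 4 0, g, p 5 4, g, p 0 5, g, s 0 6, g, m 1 0, g], .lo 10, [.l [3, 11, 11, 9, 9, 7, 3], .l [3, 11], .l [1, 13, 10, 8, 8, 6, 6, 4, 5, 8, 2, 3], .l [1, 2, 2, 7, 7, 5, 5, 3, 1, 6, 4, 1], .l [5, 11, 11, 9, 9, 7, 1], .l [5, 11], .l [1, 13, 8, 6, 6, 4, 4, 2, 5, 8, 2, 5], .y [6, 10, 8], .l [7, 10, 8, 4, 1, 12, 8, 3], .l [8, 11], .l [7, 10, 8, 4, 1, 12, 8, 3], .l [9, 12, 10, 10, 8, 4, 1, 10, 6, 1], .l [10, 11], .l [9, 12, 10, 10, 8, 4, 1, 10, 6, 1], .l [9, 10, 8, 8, 6, 4, 1, 10, 6, 1], .r 4886 [1, 2, 3, 4, 5, 7, 6] [1, 1, 1,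 1, 1, 1, 1, 1], .l [9, 10, 8, 8, 6, 4, 1, 10, 6, 1], .l [9, 10, 8, 8, 6, 4, 1, 10, 6, 3], .l [1, 11, 13, 11, 11, 9, 9, 7, 3, 8, 4, 5], .l [7, 8, 6, 4, 8, 1, 8, 10, 4, 1], .l [7, 8, 6, 4, 8, 1, 8, 8, 2, 1], .l [9, 10, 8, 8, 6, 4, 1, 8, 4, 7], .l [1, 11, 15, 13, 13, 11, 11, 9, 3, 6, 2, 3], .l [9, 10, 8, 8, 6, 4, 1, 8, 4, 7]]),
([s 3 1, s 5 2, g, s 2 0, g, p 0 3, p 4 0, g, p 0 4, g, s 0 5, g, m 1 0, g], .lo 8, [.l [3, 9, 9, 7, 3], .l [3, 9], .l [1, 11, 8, 6, 6, 4, 5, 8, 2, 3], .l [1, 2, 2, 5, 5, 3, 1, 6, 4, 1], .l [5, 9, 9, 7, 1], .l [5, 9], .l [1, 11, 6, 4, 4, 2, 5, 8, 2, 5], .y [6, 8], .l [7, 10, 8, 4, 1, 10, 6, 1], .l [8, 9], .l [7, 10, 8, 4, 1, 10, 6, 1], .l [7, 8, 6, 4, 1, 10, 6, 1], .r 4887 [1, 2, 3, 4,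 6, 5] [1, 1, 1, 1, 1, 1, 1], .l [7, 8, 6, 4, 1, 10, 6, 1], .l [7, 8, 6, 4, 1, 10, 6, 3], .l [1, 9, 11, 9, 9, 7, 3, 8, 4, 5], .l [5, 4, 8, 1, 8, 10, 4, 1], .l [5, 4, 8, 1, 8, 8, 2, 1], .l [7, 8, 6, 4, 1, 8, 4, 7], .l [1, 9, 13, 11, 11, 9, 3, 6, 2, 3], .l [7, 8, 6, 4, 1, 8, 4, 7]]),
([s 3 1, s 4 2, g, s 2 0, g, p 0 3, p 0 0, g, s 0 4, g, m 1 0, g], .lo 6, [.l [3, 7, 3], .l [3, 7], .l [1, 9, 6, 4, 5, 8, 2, 3], .l [1, 2, 2, 3, 1, 6, 4, 1], .l [5, 7, 1], .l [5, 7], .l [1, 9, 4, 2, 5, 8, 2, 5], .y [6], .l [5, 4, 1, 10, 6, 1], .r 4888 [1, 2, 3, 5, 4] [1, 1, 1, 1, 1, 1], .l [5, 4, 1, 10, 6, 1], .l [5, 4, 1, 10, 6, 3], .l [1, 7, 9, 7, 3, 8, 4, 5], .l [5, 4, 1, 10, 6, 3], .l [5, 4, 1, 8, 4, 3], .l [5, 4, 1, 8, 4, 7],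 .l [1, 7, 11, 9, 3, 6, 2, 3], .l [5, 4, 1, 8, 4, 7]]),
([s 4 1, s 5 2, m 0 3, g, m 3 0, g, s 2 0, g, p 0 4, g, m 1 0, g, s 0 5, g], .lo 2, [.l [4, 1, 5, 3, 10, 5, 8, 5], .l [4, 1], .l [2, 3], .y [2, 4], .l [2, 5, 9, 5, 2, 6, 4, 7], .l [6, 3], .l [2, 5], .l [6, 3, 7, 1, 3, 0, 2, 4, 2, 3], .l [8, 5, 9, 1, 5, 2, 4, 6, 4, 5], .l [8, 5], .l [2, 7], .l [10, 7, 11, 1, 7, 4, 6, 4, 2, 5], .l [10, 7], .l [2, 9], .l [2, 9], .l [2, 11, 5, 8, 5, 1, 3, 1, 4, 5], .l [12, 9], .l [2, 11], .l [2, 13, 7, 10, 7, 1, 5, 1, 6, 3], .l [14, 11], .l [2, 13]]),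
([s 3 1, s 4 2, m 0 0, g, s 2 0, g, p 0 3, g, m 1 0, g, s 0 4, g], .hi 2, [.y [2], .l [1, 11, 5, 9, 6, 1, 4, 1], .l [6, 4, 1], .r 4890 [1, 2, 5, 3, 4] [1, 1, 1, 1, 1, 1], .l [1, 11, 7, 9, 4, 1, 2, 3], .l [4, 2, 4], .l [8, 7, 2, 4, 2, 7], .l [4, 2, 4], .l [1, 11, 7, 9, 6, 3, 4, 1], .l [4, 2, 6], .l [6, 5, 2, 6, 4, 7], .l [1, 11, 7, 9, 6, 1, 4, 1], .l [4, 2, 8], .l [6, 5, 2, 8, 6, 7], .l [6, 5, 8, 8, 0, 1], .l [1, 9, 5, 7, 4, 1, 2, 5], .l [4, 2, 10], .l [6, 5, 8, 10, 2, 3]]),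
([s 4 1, s 5 2, p 3 0, g, p 0 3, g, s 2 0, g, p 0 4, g, m 1 0, g, s 0 5, g], .hi 2, [.l [4, 1, 5, 3, 10, 5, 8, 5], .l [2, 3], .l [4, 1], .y [2, 4], .l [2, 5, 9, 5, 2, 6, 4, 7], .l [2, 5], .l [6, 3], .l [8, 5, 9, 1, 5, 2, 4, 6, 4, 5], .l [2, 7], .l [8, 5], .l [2, 7], .l [10, 7, 11, 1, 7, 4, 6, 4, 2, 5], .l [2, 9], .l [10, 7], .l [2, 11, 5, 8, 5, 1, 3, 1, 4, 5], .l [2, 11], .l [12, 9], .l [2, 11, 5, 8, 5, 1, 3, 6, 0, 3], .l [2, 13, 7, 10, 7, 1, 5, 1, 6, 3], .l [2, 13], .l [14, 11]]),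
([s 3 1, s 4 2, p 0 0, g, s 2 0, g, p 0 3, g, m 1 0, g, s 0 4, g], .lo 2, [.y [2], .l [1, 11, 5, 9, 6, 1, 4, 1], .r 4892 [1, 2, 5, 3, 4] [1, 1, 1, 1, 1, 1], .l [6, 4, 1], .l [4, 2, 1], .l [1, 11, 7, 9, 4, 1, 2, 3], .l [8, 7, 2, 4, 2, 7], .l [4, 2, 4], .l [1, 11, 7, 9, 6, 3, 4, 1], .l [6, 5, 2, 6, 4, 7], .l [4, 2, 6], .l [4, 2, 6], .l [1, 11, 7, 9, 6, 1, 4, 1], .l [6, 5, 2, 8, 6, 7], .l [4, 2, 8], .l [1, 9, 5, 7, 4, 1, 2, 5], .l [6, 5, 8, 10, 2, 3], .l [4, 2, 10]]),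
([s 3 1, s 6 2, s 0 0, g, s 2 0, g, p 0 3, p 4 0, g, p 5 4, g, m 1 0, g, p 0 5, g, s 0 6, g], .hi 2, [.y [2], .l [10, 8, 1, 16, 7, 9, 7, 1, 6, 3], .l [1, 16, 10, 14, 11, 4, 10, 1], .l [10, 4, 7, 9, 4, 2, 12, 7, 1, 3, 6, 1], .l [10, 6, 7, 4, 14, 7, 11, 9, 1, 8, 5], .l [1, 8, 6, 3, 11, 5, 8, 10, 4, 4, 2, 7], .l [1, 16, 12, 14, 9, 4, 8, 9], .l [1, 6, 4, 3, 9, 5, 6, 8, 4, 4, 2, 5], .l [2, 8, 10, 8, 3, 9, 5, 10], .l [2, 8, 10, 8, 3], .l [4, 9, 6, 7, 9, 5, 1, 8, 6, 9], .l [2, 10, 14, 12, 12, 10, 3, 7, 3, 8], .l [2, 10, 14, 12, 12, 10, 3], .l [4, 11, 8, 9, 13, 9, 9, 7, 1, 4, 2, 7], .l [2, 12, 14, 10, 10, 8, 3, 9, 5, 8], .l [2, 12, 14, 10, 10, 8, 3], .l [1, 16, 12, 14, 11, 4, 10, 3], .l [2, 12, 12, 8, 8, 6, 3], .l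 [8, 15, 8, 14, 4, 12, 9, 7, 1, 6, 3], .l [6, 5, 2, 9, 4, 13, 6, 3], .l [1, 16, 12, 14, 11, 4, 10, 1], .l [6, 5, 13, 13, 0, 1], .l [8, 6, 16, 1, 7, 9, 7, 1, 6, 3], .l [1, 14, 10, 12, 9, 4, 8, 11], .l [6, 5, 13, 15, 2, 3]]),
([s 3 1, s 7 2, s 0 0, g, s 2 0, g, p 0 3, p 4 0, g, p 5 4, g, p 6 5, g, m 1 0, g, p 0 6, g, s 0 7, g], .hi 2, [.y [2], .l [12, 13, 11, 8, 1, 16, 7, 9, 7, 1, 6, 3], .l [1, 18, 12, 16, 13, 6, 12, 1], .l [12, 6, 9, 11, 6, 6, 4, 2, 12, 7, 1, 3, 6, 1], .l [12, 13, 11, 6, 7, 4, 14, 7, 11, 9, 1, 8, 5], .l [1, 8, 6, 3, 13, 7, 10, 12, 6, 6, 4, 4, 2, 7], .l [1, 18, 14, 16, 11, 6, 10, 11], .l [1, 6, 4, 3, 11, 7, 8, 10, 6, 6, 4, 4, 2, 5], .l [2, 8, 10, 8, 3, 11, 7, 12], .l [2, 8, 10, 8, 3], .l [4, 9,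 6, 7, 9, 5, 1, 10, 8, 11], .l [2, 10, 12, 10, 10, 8, 3, 9, 5, 10], .l [2, 10, 12, 10, 10, 8, 3], .l [4, 11, 8, 9, 11, 7, 7, 5, 1, 8, 6, 9], .l [2, 12, 16, 14, 14, 12, 12, 10, 3, 7, 3, 8], .l [2, 12, 16, 14, 14, 12, 12, 10, 3], .l [4, 13, 10, 11, 15, 11, 11, 9, 9, 7, 1, 4, 2, 7], .l [2, 14, 16, 12, 12, 10, 10, 8, 3, 9, 5, 8], .l [2, 14, 16, 12, 12, 10, 10, 8, 3], .l [1, 18, 14, 16, 13, 6, 12, 3], .l [2, 14, 14, 10, 10, 8, 8, 6, 3], .l [10, 11, 9, 15, 8, 14, 4, 12, 9, 7, 1, 6, 3], .l [6, 5, 2, 11, 6, 15, 6, 3], .l [1, 18, 14, 16, 13, 6, 12, 1], .l [6, 5, 15, 15, 0, 1], .l [10, 11, 9, 6, 16, 1, 7, 9, 7, 1, 6, 3], .l [1, 16, 12, 14, 11, 6, 10, 13], .l [6, 5, 15, 17, 2, 3]]),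
([s 4 1, s 7 2, s 0 0, g, s 2 0, g, m 0 3, g, p 0 4, p 5 0, g, p 6 5, g, p 3 6, g, m 1 0, g, s 0 7, g], .hi 2, [.y [2], .l [1, 18, 10, 6, 6, 4, 4, 2, 10, 1], .l [1, 18, 10, 6, 6, 4, 4, 2, 10, 1], .l [12, 4, 13, 17, 13, 9, 14, 2, 6, 1, 11, 2, 6, 1], .l [1, 18, 10, 6, 6, 4, 4, 2, 10, 3], .l [1, 18, 10, 6, 6, 4, 4, 2, 10, 3], .l [1, 18, 10, 6, 6, 4, 10, 12, 6, 2, 4, 7], .l [1, 16, 12, 14, 9, 6, 8, 9], .l [1, 18, 12, 8, 8, 6, 6, 4, 10, 7], .l [1, 18, 12, 8, 8, 6, 6, 4, 10, 7], .l [1, 18, 14, 16, 9, 6, 8, 9], .l [1, 16, 10, 6, 6, 4, 4, 2, 8, 7], .l [1, 18, 12, 8, 8, 6, 6, 2, 10, 5], .l [2, 10, 4, 12, 12, 10, 10, 2, 5], .l [1, 18, 12, 8, 8, 6, 6, 2, 10, 5], .l [1, 18, 12, 8, 8, 4, 4, 2, 10, 5], .l [2, 12, 6, 12,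 12, 4, 4, 2, 5], .l [1, 18, 12, 8, 8, 4, 4, 2, 10, 5], .l [1, 18, 12, 6, 6, 4, 4, 2, 10, 5], .l [2, 14, 8, 6, 6, 4, 4, 2, 5], .l [1, 18, 12, 6, 6, 4, 4, 2, 10, 5], .l [1, 18, 12, 6, 6, 4, 4, 2, 10, 3], .l [2, 16, 10, 6, 6, 4, 4, 2, 7], .l [1, 18, 12, 6, 6, 4, 4, 2, 10, 3], .l [4, 2, 15, 10, 6, 6, 4, 4, 2, 5], .l [1, 16, 10, 6, 6, 4, 4, 2, 8, 10], .l [1, 16, 10, 6, 6, 4, 4, 2, 8, 10], .l [3, 19, 17, 14, 10, 6, 6, 4, 4, 2, 6, 6]]),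
([s 3 1, s 7 2, g, s 2 0, g, p 0 3, p 4 0, g, p 5 4, g, p 6 5, g, p 0 6, g, m 1 0, g, s 0 7, g], .hi 6, [.l [8, 4, 1, 4, 7, 5, 2, 11], .l [12, 14, 13, 13, 11, 11, 9, 6, 3, 7, 5, 7, 3], .l [8, 4], .l [8, 2, 17, 10, 14, 11], .l [7, 6, 1, 14, 8, 10, 9, 9, 7, 7, 5, 5, 3], .l [8, 2], .l [5, 4, 1, 12, 8, 8, 7, 7, 5, 5, 3, 3, 1], .l [8, 1, 9, 7, 4], .l [6, 7], .l [8, 1], .l [6, 9, 6, 1, 4, 5, 2, 11], .l [6, 9], .l [10, 3], .l [6, 11, 8, 1, 4, 7, 4, 11], .l [6, 11], .l [12, 5], .y [6, 12, 10, 8], .l [6, 13, 10, 1, 4, 9, 6, 11], .l [6, 13], .l [14, 7], .l [6, 15, 12, 1, 4, 11, 8, 11], .l [6, 15], .l [16, 9], .l [6, 14, 7, 1, 11, 4, 11, 3, 1, 9, 7, 7, 5], .l [6, 17, 14, 1, 4, 13, 10, 7], .l [6, 17], .l [18, 11]]),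
([s 3 1, s 6 2, s 0 0, g, s 2 0, g, p 0 3, p 4 0, g, p 5 4, g, p 0 5, g, m 1 0, g, s 0 6, g], .lo 11, [.l [2, 10, 10, 8, 8, 6, 3], .l [4, 12, 12, 10, 10, 8, 3], .l [4, 12], .l [1, 5, 1, 10, 10, 8, 8, 6, 2, 8], .l [1, 3, 3, 8, 8, 6, 6, 4, 2, 5, 2, 5], .l [6, 12, 12, 10, 10, 8, 1], .l [6, 12], .r 4896 [1, 2, 7, 3, 4, 5, 6] [1, 1, 1, 1, 1, 1, 1, 1], .y [7, 11, 9], .l [8, 11, 9, 5, 2, 11, 6, 3], .l [9, 12], .l [6, 5, 15, 7, 3, 5, 6, 1], .l [10, 13, 11, 11, 9, 5, 2, 9, 4, 1], .l [11, 12], .l [10, 13, 11, 11, 9, 5, 2, 9, 4, 1], .l [10, 11, 9, 9, 7, 5, 2, 9, 4, 1], .r 4897 [1, 2, 3, 4, 5, 7, 6] [2, 1, 1, 1, 1, 1, 1, 1], .l [8, 9, 7, 5, 13, 5, 1, 3, 4, 1], .l [8, 9, 7, 5, 11, 3, 1, 1, 2, 1], .l [10, 11, 9, 9, 7, 5,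 2, 7, 2, 6], .r 4895 [1, 2, 3, 4, 5, 7, 6] [1, 1, 1, 1, 1, 1, 1, 1], .l [10, 11, 9, 9, 7, 5, 2, 7, 2, 6], .l [10, 11, 9, 9, 7, 5, 2, 7, 2, 8], .l [1, 14, 16, 12, 12, 10, 10, 8, 4, 9, 4, 5], .l [10, 11, 9, 9, 7, 5, 2, 7, 2, 8]]),
([s 4 1, s 6 2, s 0 0, g, s 2 0, g, m 0 3, g, p 0 4, p 5 0, g, p 3 5, g, m 1 0, g, s 0 6, g], .hi 2, [.y [2], .l [1, 16, 8, 4, 4, 2, 10, 1], .l [1, 16, 8, 4, 4, 2, 10, 1], .l [12, 6, 9, 11, 6, 4, 12, 5, 1, 8, 2, 3], .l [1, 16, 8, 4, 4, 2, 10, 3], .l [1, 16, 8, 4, 4, 2, 10, 3], .l [1, 16, 8, 4, 10, 12, 6, 2, 4, 7], .l [1, 14, 10, 12, 7, 4, 6, 7], .l [1, 16, 10, 6, 6, 4, 10, 7], .l [1, 16, 10, 6, 6, 4, 10, 7], .l [1, 16, 12, 14, 7, 4, 6, 7], .l [1, 14, 8, 4, 4, 2, 8, 7], .l [1, 16, 10,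 6, 6, 2, 10, 5], .l [2, 10, 4, 10, 10, 2, 5], .l [1, 16, 10, 6, 6, 2, 10, 5], .l [1, 16, 10, 4, 4, 2, 10, 5], .l [2, 12, 6, 4, 4, 2, 5], .l [1, 16, 10, 4, 4, 2, 10, 5], .l [1, 16, 10, 4, 4, 2, 10, 3], .l [2, 14, 8, 4, 4, 2, 7], .l [1, 16, 10, 4, 4, 2, 10, 3], .l [4, 2, 13, 8, 4, 4, 2, 5], .l [1, 14, 8, 4, 4, 2, 8, 10], .l [1, 14, 8, 4, 4, 2, 8, 10], .l [3, 17, 15, 12, 8, 4, 4, 2, 6, 6]]),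
([s 3 1, s 5 2, s 0 0, g, s 2 0, g, p 0 3, p 4 0, g, p 0 4, g, m 1 0, g, s 0 5, g], .lo 9, [.l [2, 8, 8, 6, 3], .l [4, 10, 10, 8, 3], .l [4, 10], .l [1, 5, 1, 8, 8, 6, 2, 8], .l [1, 3, 3, 6, 6, 4, 2, 5, 2, 5], .l [6, 10, 10, 8, 1], .l [6, 10], .r 4899 [1, 2, 6, 3, 4, 5] [1, 1, 1, 1, 1, 1, 1], .y [7, 9], .l [8, 11, 9, 5, 2, 9, 4, 1], .l [9, 10], .l [8, 11, 9, 5, 2, 9, 4, 1], .l [8, 9, 7, 5, 2, 9, 4, 1], .r 4898 [1, 2, 3, 4, 6, 5] [1, 1, 1, 1, 1, 1, 1], .l [6, 5, 13, 5, 1, 3, 4, 1], .l [6, 5, 11, 3, 1, 1, 2, 1], .l [8, 9, 7, 5, 2, 7, 2, 6], .r 4894 [1, 2, 3, 4, 6, 5] [1, 1, 1, 1, 1, 1, 1], .l [8, 9, 7, 5, 2, 7, 2, 6], .l [8, 9, 7, 5, 2, 7, 2, 8], .l [1, 12, 14, 10, 10, 8, 4, 9, 4, 5], .l [8, 9, 7, 5, 2, 7, 2,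 8]]),
([s 4 0, s 5 1, s 0 2, g, m 2 0, g, s 1 0, g, m 0 3, g, p 0 4, p 3 0, g, s 0 5, g], .lo 2, [.l [1], .l [1, 14, 4, 2, 10, 1], .l [4, 1, 5, 3, 11, 4, 2, 7], .l [1, 14, 4, 2, 10, 1], .y [2, 4], .l [1, 14, 4, 2, 10, 3], .l [4, 1, 5, 3, 11, 4, 2, 7], .l [1, 14, 4, 2, 10, 3], .l [1, 12, 4, 2, 8, 3], .l [1, 14, 4, 2, 10, 5], .l [4, 1, 7, 5, 11, 4, 2, 7], .l [1, 14, 4, 2, 10, 5], .l [1, 14, 6, 4, 10, 7], .l [4, 1, 9, 7, 11, 6, 4, 7], .l [1, 14, 6, 4, 10, 7], .l [1, 12, 4, 2, 8, 5], .l [1, 14, 6, 2, 10, 5], .l [1, 14, 6, 2, 10, 5], .l [2, 12, 4, 2, 7], .l [1, 12, 4, 2, 8, 10], .l [4, 1, 14, 12, 9, 4, 2, 5], .l [1, 12, 4, 2, 8, 10]]),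
([s 3 0, s 4 1, s 0 0, g, s 1 0, g, m 0 2, g, p 0 3, p 2 0, g, s 0 4, g], .hi 2, [.y [2], .l [1, 12, 4, 2, 8, 1], .l [1, 12, 4, 2, 8, 1], .r 4901 [1, 5, 2, 3, 4] [1, 1, 1, 1, 1, 1], .l [1, 12, 4, 2, 8, 3], .l [1, 12, 4, 2, 8, 3], .l [1, 12, 8, 10, 6, 2, 4, 5], .l [3, 2, 10, 4, 2, 4, 6, 3], .l [1, 12, 6, 4, 8, 5], .l [1, 12, 6, 4, 8, 5], .l [3, 2, 12, 6, 4, 6, 8, 3], .l [1, 10, 4, 2, 6, 5], .l [1, 12, 6, 2, 8, 3], .l [2, 10, 4, 2, 5], .l [1, 12, 6, 2, 8, 3], .l [4, 2, 9, 4, 2, 3], .l [1, 10, 4, 2, 6, 8], .l [1, 10, 4, 2, 6, 8], .l [3, 13, 11, 8, 4, 2, 4, 4]]),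
([s 3 1, s 4 2, s 0 0, g, s 2 0, g, p 0 3, p 0 0, g, m 1 0, g, s 0 4, g], .lo 7, [.l [2, 6, 3], .l [4, 8, 3], .l [4, 8], .l [1, 5, 1, 6, 2, 8], .l [1, 3, 3, 4, 2, 5, 2, 5], .l [6, 8, 1], .l [6, 8], .r 4902 [2, 5, 3, 4] [1, 1, 1, 3, 1], .y [7], .l [6, 5, 2, 9, 4, 1], .r 4900 [1, 2, 3, 5, 4] [1, 1, 1, 1, 1, 1], .l [6, 5, 2, 9, 4, 1], .l [6, 5, 2, 7, 2, 1], .l [6, 5, 2, 7, 2, 6], .l [13, 11, 7, 11, 5, 10, 2, 5], .l [6, 5, 2, 7, 2, 6], .l [6, 5, 2, 7, 2, 8], .l [1, 10, 12, 8, 4, 9, 4, 5], .l [6, 5, 2, 7, 2, 8]]),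
([s 3 1, s 4 2, g, s 2 0, g, p 0 3, p 0 0, g, m 1 0, g, s 0 4, g], .top 2, [.c, .r 4903 [1, 2, 3, 4] [1, 1, 1, 1, 1], .r 4893 [1, 2, 3, 4] [1, 1, 2, 1, 1], .r 4891 [1, 2, 3, 4] [1, 1, 2, 1, 1]]),
([s 3 1, s 0 2, g, s 2 0, g, p 0 3, p 0 0, g, m 1 0, g], .lo 1, [.r 4885 [1, 4, 3] [1, 3, 2, 1], .r 4442 [1, 2, 4] [1, 1, 4, 1], .l [7, 6, 1], .y [1, 3], .r 4885 [1, 4, 3] [3, 1, 2, 1], .r 4576 [1, 2, 4, 3] [1, 1, 1, 2, 1], .l [7, 6, 3], .r 4538 [1, 2, 3, 4] [1, 1, 0, 1, 1], .r 4889 [1, 2, 3, 4] [1, 1, 1, 1, 1], .r 4538 [1, 2, 3, 4] [1, 1, 2, 1, 1], .l [5, 4, 6], .l [5, 4, 6], .r 4904 [1, 2, 3, 4] [1, 1, 1, 1, 1], .r 4796 [1, 3, 4] [3, 1, 1, 1], .l [5, 4, 8]]),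
([s 3 1, s 0 2, g, p 0 3, p 4 0, g, m 1 0, g, s 2 0, g, p 0 4, g], .lo 1, [.l [1, 9, 11, 7, 3, 8, 4, 5], .l [1, 9, 11, 7, 3, 8, 4, 5], .l [5, 4, 1], .l [4, 2, 5, 1, 7, 4, 4], .l [1, 5, 11, 9, 1, 4, 2, 3], .l [6, 4, 7, 1, 9, 4, 6], .l [1, 5, 11, 9, 1], .l [1, 5, 9, 7, 1], .l [1, 7, 11, 7, 1, 8, 6, 1], .l [8, 1, 12, 7, 2, 8, 5], .l [1, 7, 11, 7, 1], .y [1, 8], .l [1, 9, 11, 5, 1, 6, 4, 5], .l [10, 3, 12, 5, 2, 6, 3], .l [1, 9, 11, 5, 1], .l [1, 7, 9, 5, 1, 6, 4, 5], .l [8, 6, 11, 4, 8, 5], .l [1, 7, 9, 5, 1, 6, 4, 5]]),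
([s 3 1, s 0 2, g, p 0 3, p 4 0, g, p 5 4, g, m 1 0, g, s 2 0, g, p 0 5, g], .lo 1, [.l [1, 11, 13, 9, 9, 7, 3, 8, 4, 5], .l [1, 11, 13, 9, 9, 7, 3, 8, 4, 5], .l [5, 4, 1], .l [4, 2, 9, 6, 6, 3], .l [1, 5, 7, 5, 1, 6, 4, 5], .l [6, 4, 11, 6, 8, 5], .l [1, 5, 7, 5, 1], .l [1, 7, 13, 11, 11, 9, 1, 4, 2, 3], .l [4, 10, 5, 1, 7, 2, 3], .l [1, 7, 13, 11, 11, 9, 1], .l [1, 7, 11, 9, 9, 7, 1], .l [1, 9, 13, 9, 9, 7, 1, 8, 6, 1], .l [10, 1, 14, 9, 9, 7, 2, 8, 5], .l [1, 9, 13, 9, 9, 7, 1], .y [1, 10], .l [1, 11, 13, 7, 7, 5, 1, 6, 4, 5], .l [12, 3, 14, 7, 7, 5, 2, 6, 3], .l [1, 11, 13, 7, 7, 5, 1], .l [1, 9, 11, 7, 7, 5, 1, 6, 4, 5], .l [5, 2, 13, 9, 11, 9, 1, 8, 3], .l [1, 9, 11, 7, 7, 5, 1, 6, 4, 5]]),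
([s 3 1, s 0 2, g, p 0 3, p 4 0, g, p 5 4, g, p 0 5, g, m 1 0, p 6 0, g, p 0 6, g, s 2 0, g], .hi 11, [.l [4, 11, 13, 12, 5, 1, 7, 2, 9, 5, 1, 3, 5], .l [6, 13, 9, 4, 10, 7, 12, 3, 8, 4, 2, 3], .l [6, 13, 9, 4, 10, 7, 12, 3, 8, 4, 2, 3], .l [13, 9], .l [4, 11, 9, 4, 8, 5, 10, 3, 6, 2, 0, 1], .l [4, 13, 6, 1, 10, 2, 12, 5, 1, 3, 4, 5], .l [8, 13, 10, 12, 10, 2, 12, 3, 6, 1, 7, 5, 1], .l [13, 6], .l [6, 10, 9, 12, 4, 1, 8, 2, 9, 4, 5], .l [5, 6, 4, 2, 13, 8, 9, 6, 1, 8, 5, 5, 3], .l [13, 4], .l [5, 6, 4, 2, 11, 6, 7, 6, 1, 6, 3, 3, 1], .l [13, 2, 6, 7, 6, 12, 8, 5, 5, 2, 7], .l [4, 13, 15, 14, 7, 1, 9, 2, 11, 5, 1, 3, 3], .l [13, 2], .l [13, 1, 14, 12, 9], .l [11, 12], .l [13, 1], .y [11, 13], .l [5, 15, 3, 9,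 1, 12, 10, 1, 9, 6, 1], .l [11, 14], .l [15, 3], .l [4, 11, 16, 11, 5, 2, 7, 9, 5, 7, 8, 1], .l [11, 16], .l [17, 5]]),
([s 3 1, s 0 2, g, p 0 3, p 4 0, g, p 5 4, g, p 0 5, g, m 1 0, p 0 0, g, s 2 0, g], .lo 11, [.l [3, 12, 8], .l [3, 12], .l [5, 4, 13, 11, 9, 6], .l [4, 10], .l [5, 8, 6, 2, 9, 6, 8], .l [6, 12], .l [3, 2, 13, 8, 6, 8], .l [7, 10, 8, 8, 6, 2, 7, 4, 6], .l [8, 12], .l [3, 2, 13, 6, 4, 8], .l [10, 12, 1], .l [10, 12], .l [3, 2, 13, 4, 2, 8], .l [3, 2, 11, 2, 0, 6], .y [11], .l [5, 15, 10, 1, 12, 10, 1, 9, 6, 1], .r 4908 [1, 2, 3, 4, 5, 6] [1, 1, 1, 1, 1, 1, 1], .l [5, 15, 10, 1, 12, 10, 1, 9, 6, 1], .l [3, 2, 11, 11, 9, 6], .l [3, 2, 11, 13, 11, 6], .l [3, 2, 11, 13, 11, 6], .l [5, 13, 8, 1,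 10, 8, 1, 7, 4, 7]]),
([s 3 1, s 0 2, g, p 0 3, p 4 0, g, p 5 4, g, p 0 5, g, m 1 0, m 0 6, g, m 6 0, g, s 2 0, g], .lo 11, [.l [6, 13, 9, 4, 10, 7, 12, 3, 8, 4, 2, 3], .l [13, 9], .l [6, 13, 9, 4, 10, 7, 12, 3, 8, 4, 2, 3], .l [11, 6], .l [4, 13, 6, 1, 10, 2, 12, 5, 1, 3, 4, 5], .l [13, 6], .l [8, 13, 10, 12, 10, 2, 12, 3, 6, 1, 7, 5, 1], .l [6, 10, 9, 12, 4, 1, 8, 2, 9, 4, 5], .l [13, 4], .l [5, 6, 4, 2, 13, 8, 9, 6, 1, 8, 5, 5, 3], .l [13, 2, 6, 7, 6, 12, 8, 5, 5, 2, 7], .l [13, 2], .l [4, 13, 15, 14, 7, 1, 9, 2, 11, 5, 1, 3, 3], .l [4, 11, 13, 12, 5, 1, 7, 2, 9, 5, 1, 3, 3], .l [13, 1, 14, 12, 9], .l [13, 1], .l [11, 12], .y [11, 13], .l [5, 15, 3, 9, 1, 12, 10, 1, 9, 6, 1], .l [15, 3], .l [11, 14], .l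 [4, 10, 5, 1, 7, 2, 10, 6, 1, 8, 5, 5, 3], .l [4, 11, 16, 11, 5, 2, 7, 9, 5, 7, 8, 1], .l [17, 5], .l [11, 16]]),
([s 3 1, s 0 2, g, p 0 3, p 4 0, g, p 5 4, g, p 0 5, g, m 1 0, m 0 0, g, s 2 0, g], .hi 11, [.l [1, 10, 8], .l [3, 12, 8], .l [5, 4, 13, 11, 9, 6], .l [3, 12], .l [3, 2, 11, 9, 7, 6], .l [5, 8, 6, 2, 9, 6, 8], .l [3, 2, 13, 8, 6, 8], .l [6, 12], .l [7, 10, 8, 8, 6, 2, 7, 4, 6], .l [3, 2, 13, 6, 4, 8], .l [8, 12], .l [3, 2, 11, 4, 2, 6], .l [10, 12, 1], .l [3, 2, 13, 4, 2, 8], .l [10, 12], .y [11], .l [5, 15, 10, 1, 12, 10, 1, 9, 6, 1], .l [5, 15, 10, 1, 12, 10, 1, 9, 6, 1], .r 4910 [1, 2, 3, 4, 5, 6] [1, 1, 1, 1, 1, 1, 1], .l [3, 2, 11, 13, 11, 6], .l [5, 13, 8, 1, 10, 8, 1, 7, 4, 7], .l [3, 2,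 11, 13, 11, 6]]),
([s 3 1, s 0 2, g, p 0 3, p 4 0, g, p 5 4, g, p 0 5, g, m 1 0, s 0 6, g, m 6 0, g, s 2 0, g], .lo 11, [.l [2, 5, 2, 11, 8, 13], .l [3, 12, 8], .l [15, 1, 11, 9, 11], .l [4, 10, 5], .l [5, 8, 6, 2, 9, 6, 8, 11], .l [6, 12, 5], .l [5, 8, 6, 2, 9, 6, 8], .l [7, 10, 8, 8, 6, 2, 7, 4, 6, 9], .l [8, 12, 3], .l [7, 10, 8, 8, 6, 2, 7, 4, 6], .l [10, 12, 1, 4, 2, 13], .l [10, 12, 1], .l [15, 1, 4, 2, 11], .l [13, 1, 2, 0, 9], .l [13, 1, 14, 12, 9, 12], .l [13, 1, 14, 12, 9], .l [5, 17, 12, 1, 14, 12, 1, 11, 8, 1], .y [11, 13], .l [5, 17, 12, 1, 14, 12, 1, 11, 8, 3], .l [13, 1, 14, 12, 9], .l [5, 17, 12, 1, 14, 12, 1, 11, 8, 3], .l [3, 2, 13, 13, 9, 6], .l [3, 2, 13, 15, 11, 6], .l [13, 1, 16, 14, 9],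 .l [4, 11, 16, 11, 5, 2, 7, 9, 5, 7, 8, 1]]),
([s 3 1, s 0 2, g, p 0 3, p 4 0, g, p 5 4, g, p 0 5, g, m 1 0, s 0 0, g, s 2 0, g], .hi 11, [.l [3, 2, 9, 6], .l [2, 5, 2, 11, 8, 11], .l [2, 5, 2, 11, 8], .l [3, 12, 8], .l [2, 3, 0, 9, 8], .l [5, 8, 6, 2, 9, 6, 8, 9], .l [5, 8, 6, 2, 9, 6, 8], .l [6, 12, 5], .l [7, 10, 8, 8, 6, 2, 7, 4, 6, 7], .l [7, 10, 8, 8, 6, 2, 7, 4, 6], .l [8, 12, 3], .l [7, 8, 6, 6, 4, 2, 5, 2, 4], .l [10, 12, 1, 4, 2, 11], .l [3, 2, 13, 4, 2, 8], .l [10, 12, 1], .y [11], .l [5, 15, 10, 1, 12, 10, 1, 9, 6, 1], .l [5, 15, 10, 1, 12, 10, 1, 9, 6, 1], .r 4912 [1, 2, 3, 4, 5, 6] [1, 1, 1, 1, 1, 1, 1], .l [3, 2, 11, 13, 11, 6], .l [5, 13, 8, 1, 10, 8, 1, 7, 4, 7], .l [3, 2, 11, 13, 11, 6]]),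
([s 3 1, s 0 2, g, p 0 3, p 4 0, g, p 5 4, g, p 0 5, g, m 1 0, g, s 2 0, g], .top 11, [.l [3, 2, 9, 6], .r 4913 [1, 2, 3, 4, 5] [1, 1, 1, 1, 1, 1], .r 4909 [1, 2, 3, 4, 5] [1, 1, 1, 1, 1, 1], .r 4911 [1, 2, 3, 4, 5] [1, 1, 1, 1, 1, 1]]),
([s 3 1, s 0 2, g, p 0 3, p 4 0, g, p 5 4, g, m 1 0, g, p 6 5, g, p 0 6, g, s 2 0, g], .lo 12, [.l [3, 13, 13, 11, 11, 7, 7, 5, 1], .l [3, 13], .l [3, 0, 13, 13, 11, 11, 7, 7, 5, 1, 6, 4, 5], .y [4, 12, 10, 6], .l [5, 8, 6, 2, 7, 4, 9], .l [6, 13], .l [3, 2, 14, 9, 7, 7, 5, 5, 1, 5, 3, 1, 3], .l [7, 12, 10, 10, 8, 2, 5, 2, 7], .l [8, 13], .l [3, 2, 14, 7, 5, 5, 3, 5, 1, 3, 4, 1], .l [3, 2, 12, 5, 3, 3, 1, 3, 1, 1, 2, 1], .l [9, 12, 8, 8, 6, 2, 7, 4, 7], .l [10, 13], .l [8,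 12, 9, 9, 7, 2, 11, 7, 5, 5, 1, 3, 3], .l [11, 14, 12, 12, 8, 8, 6, 2, 7, 4, 1], .l [12, 13], .l [10, 14, 13, 13, 9, 9, 7, 2, 9, 5, 1, 3, 3], .l [11, 12, 10, 10, 6, 6, 4, 2, 5, 2, 5], .l [3, 2, 14, 9, 10, 9, 1, 8, 5, 5, 3, 3, 1], .l [11, 12, 10, 10, 6, 6, 4, 2, 5, 2, 5], .l [1, 13, 13, 11, 11, 9, 9, 5, 5, 3, 1, 4, 2], .l [11, 12, 10, 10, 6, 6, 4, 2, 5, 2, 7], .l [1, 13, 15, 13, 13, 11, 11, 7, 7, 5, 1, 6, 4], .l [9, 10, 6, 6, 4, 2, 8, 1, 8, 6, 2, 5]]),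
([s 3 1, s 6 2, g, p 0 3, p 4 0, g, p 5 4, g, m 1 0, g, p 0 5, g, s 2 0, g, s 0 6, g], .lo 10, [.l [3, 11, 11, 7, 7, 5, 1], .l [3, 11], .l [7, 4, 10, 4, 7, 5, 8, 2, 5], .y [4, 10, 6], .l [5, 8, 6, 2, 7, 4, 7], .l [6, 11], .l [5, 8, 6, 2, 7, 4, 7], .l [7, 12, 10, 10, 8, 2, 5, 2, 5], .l [8, 11], .l [3, 2, 14, 7, 3, 7, 3, 5, 6, 3], .l [3, 2, 12, 5, 1, 5, 3, 3, 4, 3], .l [9, 12, 8, 8, 6, 2, 7, 4, 1], .l [10, 11], .l [9, 12, 8, 8, 6, 2, 7, 4, 1], .l [9, 10, 6, 6, 4, 2, 5, 2, 5], .r 4915 [1, 2, 3, 4, 5, 7] [1, 1, 1, 1, 1, 1, 3], .l [9, 10, 6, 6, 4, 2, 5, 2, 5], .l [1, 11, 11, 9, 9, 5, 5, 3, 1, 4, 2, 3], .l [9, 10, 6, 6, 4, 2, 5, 2, 7], .l [1, 11, 13, 11, 11, 7, 7, 5, 1, 6, 4, 5], .l [5, 6, 4, 2, 8, 1, 8, 6, 2, 5],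 .l [9, 10, 6, 6, 4, 2, 5, 2, 9], .l [1, 13, 15, 11, 11, 7, 7, 5, 1, 6, 4, 5], .l [5, 6, 4, 2, 10, 3, 10, 6, 2, 7]]),
([s 3 1, s 6 2, g, p 0 3, p 4 0, g, p 5 4, g, m 1 0, g, p 0 5, g, s 0 6, g, s 2 0, g], .lo 10, [.l [3, 11, 11, 7, 7, 5, 1], .l [3, 11], .l [7, 4, 10, 4, 7, 5, 8, 2, 5], .y [4, 10, 6], .l [5, 8, 6, 2, 7, 4, 7], .l [6, 11], .l [5, 8, 6, 2, 7, 4, 7], .l [7, 12, 10, 10, 8, 2, 5, 2, 5], .l [8, 11], .l [3, 2, 12, 5, 3, 5, 1, 3, 4, 1], .l [3, 2, 10, 3, 1, 3, 1, 1, 2, 1], .l [9, 12, 8, 8, 6, 2, 7, 4, 1], .l [10, 11], .l [9, 12, 8, 8, 6, 2, 7, 4, 1], .l [9, 10, 6, 6, 4, 2, 5, 2, 5], .r 4915 [1, 2, 3, 4, 5, 7] [1, 1, 1, 1, 1, 3, 1], .l [9, 10, 6, 6, 4, 2, 5, 2, 5], .l [9, 10, 6, 6, 4, 2, 5, 2, 7], .l [1,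 11, 13, 11, 11, 7, 7, 5, 1, 6, 4, 5], .l [5, 6, 4, 2, 8, 1, 8, 6, 2, 5], .l [1, 13, 13, 9, 9, 5, 5, 3, 1, 4, 2, 3], .l [9, 10, 6, 6, 4, 2, 5, 2, 9], .l [1, 11, 15, 13, 13, 9, 9, 7, 1, 8, 6, 1], .l [5, 6, 4, 2, 8, 1, 10, 8, 2, 7]]),
([s 3 1, s 0 2, g, p 0 3, p 4 0, g, p 5 4, g, m 1 0, g, p 0 5, g, s 2 0, g], .lo 1, [.r 4885 [1, 6, 3] [1, 1, 4, 5], .r 4494 [1, 2, 6, 3] [1, 1, 4, 3, 1], .l [5, 4, 1], .l [4, 2, 11, 8, 8, 5], .l [1, 5, 7, 5, 1, 6, 4, 7], .l [6, 4, 13, 8, 10, 7], .l [1, 5, 7, 5, 1], .l [1, 7, 11, 9, 9, 7, 1, 4, 2, 5], .l [4, 10, 5, 1, 7, 2, 3], .l [1, 7, 11, 9, 9, 7, 1], .l [1, 7, 9, 7, 7, 5, 1], .l [1, 9, 11, 7, 7, 5, 1, 6, 4, 5], .l [10, 1, 12, 7, 7, 5, 2, 6, 3], .l [1, 9, 11, 7, 7, 5, 1], .r 4917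 [1, 2, 3, 4, 5, 6] [1, 1, 1, 1, 1, 1, 1], .l [5, 2, 11, 7, 9, 7, 1, 6, 3], .l [3, 2, 10], .y [1, 12], .r 4916 [1, 2, 3, 4, 5, 6] [1, 1, 1, 1, 1, 1, 1], .l [5, 2, 13, 9, 11, 9, 1, 8, 5], .l [3, 2, 12]]),
([s 4 1, s 6 2, g, m 0 3, g, p 0 4, p 5 0, g, p 3 5, g, m 1 0, g, s 2 0, g, s 0 6, g], .lo 5, [.l [3, 6, 1, 7, 7, 5, 2], .l [3, 6], .l [6, 1, 8, 8, 6, 0, 2], .l [4, 1, 8, 8, 6, 2, 1], .l [5, 6], .l [4, 1, 8, 8, 6, 2, 1], .l [11, 8, 4, 4, 2, 6, 8, 4, 1, 4, 2, 3], .l [4, 1, 8, 8, 4, 0, 4], .l [13, 10, 6, 6, 2, 8, 10, 6, 3, 6, 2, 5], .l [4, 1, 8, 8, 4, 0, 4], .l [4, 1, 6, 6, 4, 0, 4], .l [5, 4, 14, 12, 4, 6, 3, 6, 2, 3], .l [4, 1, 6, 6, 4, 0, 4], .y [0, 10, 5], .l [4, 1, 6, 6, 4, 0, 6], .l [5, 4, 14, 12, 4, 8,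 5, 1, 4, 1], .l [4, 1, 6, 6, 4, 0, 6], .l [1, 11, 8, 4, 9, 6, 1, 5, 0, 5], .l [4, 1, 6, 6, 4, 0, 8], .l [1, 11, 8, 4, 11, 8, 1, 7, 2, 7], .l [4, 1, 6, 6, 4, 0, 8], .l [4, 1, 6, 6, 4, 0, 10], .l [1, 13, 10, 4, 13, 10, 1, 9, 2, 3], .l [4, 1, 6, 6, 4, 0, 10]]),
([s 4 1, s 6 2, g, m 0 3, g, p 0 4, p 5 0, g, p 3 5, g, m 1 0, g, s 0 6, g, s 2 0, g], .lo 5, [.l [3, 6, 1, 7, 7, 5, 2], .l [3, 6], .l [6, 1, 8, 8, 6, 0, 2], .l [4, 1, 8, 8, 6, 2, 1], .l [5, 6], .l [4, 1, 8, 8, 6, 2, 1], .l [11, 8, 4, 4, 2, 6, 8, 4, 1, 4, 2, 3], .l [4, 1, 8, 8, 4, 0, 4], .l [13, 10, 6, 6, 2, 8, 10, 6, 3, 6, 2, 5], .l [4, 1, 8, 8, 4, 0, 4], .l [4, 1, 6, 6, 4, 0, 4], .l [5, 4, 12, 10, 4, 6, 3, 6, 2, 3], .l [4, 1, 6, 6, 4, 0, 4], .y [0, 10,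 5], .l [4, 1, 6, 6, 4, 0, 6], .l [5, 4, 12, 10, 4, 8, 5, 1, 4, 1], .l [4, 1, 6, 6, 4, 0, 6], .l [4, 1, 6, 6, 4, 0, 8], .l [1, 11, 8, 4, 11, 8, 1, 7, 2, 7], .l [4, 1, 6, 6, 4, 0, 8], .l [1, 13, 10, 4, 11, 8, 1, 7, 0, 1], .l [4, 1, 6, 6, 4, 0, 10], .l [1, 11, 8, 4, 13, 10, 1, 9, 4, 1], .l [4, 1, 6, 6, 4, 0, 10]]),
([s 4 1, s 0 2, g, m 0 3, g, p 0 4, p 5 0, g, p 3 5, g, m 1 0, g, s 2 0, g], .lo 1, [.r 4885 [1, 6, 4] [1, 3, 4, 3], .r 4494 [1, 2, 6, 4] [1, 3, 4, 1, 1], .l [5, 0, 9, 9, 7, 1, 8, 6, 1], .l [1, 4, 1, 7, 7, 5, 2, 7], .l [1, 13, 10, 6, 6, 4, 7, 5, 6, 1], .l [1, 4, 1, 7, 7, 5, 2], .l [6, 3, 7, 7, 2, 4, 1], .l [1, 7, 4, 7, 7, 2, 3, 6, 2, 5], .l [8, 5, 9, 9, 2, 6, 1], .l [1, 7, 4, 7, 7, 2, 3], .l [1, 9,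 6, 4, 4, 2, 3, 6, 2, 5], .l [10, 7, 4, 4, 2, 6, 1], .l [1, 9, 6, 4, 4, 2, 3], .l [1, 9, 6, 4, 4, 2, 3], .r 4920 [1, 2, 3, 4, 5, 6] [1, 1, 1, 1, 1, 1, 1], .l [12, 9, 4, 4, 2, 8, 1], .l [1, 11, 8, 4, 4, 2, 5], .y [1, 12], .r 4919 [1, 2, 3, 4, 5, 6] [1, 1, 1, 1, 1, 1, 1], .l [14, 11, 4, 4, 2, 10, 1], .l [1, 13, 10, 4, 4, 2, 7]]),
([s 3 1, s 0 2, g, p 0 3, p 4 0, g, p 0 4, g, m 1 0, g, s 2 0, g], .lo 6, [.l [3, 7, 7, 5, 1], .l [3, 7], .r 4921 [1, 2, 5, 3, 4] [1, 1, 1, 1, 1, 1], .y [4, 6], .l [5, 8, 6, 2, 7, 4, 1], .l [6, 7], .l [5, 8, 6, 2, 7, 4, 1], .l [5, 6, 4, 2, 7, 4, 1], .r 4914 [1, 2, 3, 4, 5] [1, 1, 1, 1, 1, 1], .l [3, 2, 10, 5, 1, 3, 4, 1], .l [3, 2, 8, 3, 1, 1, 2, 1], .l [5, 6, 4, 2, 5, 2, 5], .r 4918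 [1, 2, 3, 4, 5] [1, 1, 1, 1, 1, 1], .l [5, 6, 4, 2, 5, 2, 5], .l [5, 6, 4, 2, 5, 2, 5], .l [5, 6, 4, 2, 5, 2, 7], .r 4907 [1, 2, 3, 4, 5] [1, 1, 1, 1, 1, 1], .l [5, 6, 4, 2, 5, 2, 7]]),
([s 4 1, s 5 2, g, m 0 3, g, p 0 4, p 3 0, g, m 1 0, g, s 0 5, g, s 2 0, g], .lo 5, [.l [3, 6, 1, 5, 2], .l [3, 6], .l [6, 1, 6, 0, 2], .l [4, 1, 6, 2, 1], .l [5, 6], .l [4, 1, 6, 2, 1], .l [9, 6, 2, 6, 8, 4, 1, 4, 2, 3], .l [4, 1, 4, 0, 4], .l [11, 8, 2, 8, 10, 6, 3, 6, 2, 5], .l [4, 1, 4, 0, 4], .y [0, 8, 5], .l [4, 1, 4, 0, 6], .l [12, 10, 6, 9, 10, 8, 3, 6, 2, 3], .l [4, 1, 4, 0, 6], .l [4, 1, 4, 0, 8], .l [1, 9, 11, 6, 1, 5, 2, 7], .l [4, 1, 4, 0, 8], .l [1, 11, 11, 4, 1, 3, 0, 5], .l [4, 1, 4, 0, 10], .l [1, 9, 13, 8,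 1, 7, 4, 1], .l [4, 1, 4, 0, 10]]),
([s 4 1, s 5 2, g, m 0 3, g, p 0 4, p 3 0, g, m 1 0, g, s 2 0, g, s 0 5, g], .lo 5, [.l [3, 6, 1, 5, 2], .l [3, 6], .l [6, 1, 6, 0, 2], .l [4, 1, 6, 2, 1], .l [5, 6], .l [4, 1, 6, 2, 1], .l [9, 6, 2, 6, 8, 4, 1, 4, 2, 3], .l [4, 1, 4, 0, 4], .l [11, 8, 2, 8, 10, 6, 3, 6, 2, 5], .l [4, 1, 4, 0, 4], .y [0, 8, 5], .l [4, 1, 4, 0, 6], .l [12, 10, 6, 9, 10, 8, 3, 6, 2, 3], .l [4, 1, 4, 0, 6], .l [1, 9, 9, 4, 1, 3, 0, 5], .l [4, 1, 4, 0, 8], .l [1, 9, 11, 6, 1, 5, 2, 7], .l [4, 1, 4, 0, 8], .l [4, 1, 4, 0, 10], .l [1, 11, 13, 6, 1, 5, 2, 7], .l [4, 1, 4, 0, 10]]),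
([s 4 1, s 0 2, g, m 0 3, g, p 0 4, p 3 0, g, m 1 0, g, s 2 0, g], .lo 1, [.r 4885 [1, 5, 4] [1, 3, 2, 3], .r 4494 [1, 2, 5, 4] [1, 3, 2, 1, 1], .l [5, 0, 7, 1, 8, 6, 1], .l [1, 4, 1, 5, 2, 7], .l [1, 11, 8, 4, 7, 5, 6, 1], .l [1, 4, 1, 5, 2], .l [6, 3, 2, 4, 1], .l [1, 7, 4, 2, 3, 6, 2, 5], .l [8, 5, 2, 6, 1], .l [1, 7, 4, 2, 3], .l [1, 7, 4, 2, 3], .r 4923 [1, 2, 3, 4, 5] [1, 1, 1, 1, 1, 1], .l [10, 7, 2, 8, 1], .l [1, 9, 6, 2, 5], .y [1, 10], .r 4924 [1, 2, 3, 4, 5] [1, 1, 1, 1, 1, 1], .l [12, 9, 2, 10, 1], .l [1, 11, 8, 2, 7]]),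
([s 3 1, s 0 2, g, p 0 3, p 4 0, g, m 1 0, g, p 0 4, g, s 2 0, g], .lo 1, [.l [12, 10, 6, 9, 3, 8, 2, 5], .r 4494 [1, 2, 5, 3] [1, 1, 2, 3, 1], .l [5, 4, 1], .l [4, 2, 5, 1, 5, 2, 2], .l [1, 5, 9, 7, 1, 4, 2, 5], .l [6, 4, 7, 1, 7, 2, 4], .l [1, 5, 9, 7, 1], .l [1, 5, 7, 5, 1], .l [1, 7, 9, 5, 1, 6, 4, 5], .l [8, 6, 11, 4, 8, 5], .l [1, 7, 9, 5, 1], .l [10, 8, 9, 4, 9, 5, 2, 5], .l [10, 8, 9, 4, 9, 5, 2, 5], .l [3, 2, 8], .y [1, 10], .l [10, 8, 9, 4, 9, 5, 2, 5], .l [10, 8, 9, 4, 9, 5, 2, 5], .l [3, 2, 10]]),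
([s 3 1, s 0 2, g, p 0 3, p 0 0, g, m 1 0, g, s 2 0, g], .lo 4, [.l [3, 5, 1], .l [3, 5], .r 4925 [1, 2, 4, 3] [1, 1, 1, 1, 1], .y [4], .l [3, 2, 7, 4, 1], .r 4922 [1, 2, 3, 4] [1, 1, 1, 1, 1], .l [3, 2, 7, 4, 1], .l [3, 2, 5, 2, 1], .l [3, 2, 5, 2, 5], .r 4926 [1, 2, 3, 4] [1, 1, 1, 1, 1], .l [3, 2, 5, 2, 5], .l [3, 2, 5, 2, 5], .l [3, 2, 5, 2, 7], .r 4906 [1, 2, 3, 4] [1, 1, 1, 1, 1], .l [3, 2, 5, 2, 7]])]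

def d19_1 : List (List Item × Qry × List Rf) := [
([s 3 1, s 0 2, g, p 0 3, p 4 0, g, p 5 4, g, p 6 5, g, p 0 6, g, s 2 0, g, m 1 0, g], .lo 10, [.l [3, 11, 11, 9, 9, 7, 7, 5, 1], .l [3, 11], .l [1, 13, 10, 8, 8, 6, 6, 4, 4, 2, 3, 6, 2], .y [4, 10, 8, 6], .l [5, 8, 6, 2, 13, 10, 5], .l [6, 11], .l [5, 8, 6, 2, 13, 10, 5], .l [7, 10, 8, 8, 6, 2, 11, 8, 3], .l [8, 11], .l [7, 10, 8, 8, 6, 2, 11, 8, 3], .l [9, 12, 10, 10, 8, 8, 6, 2, 9, 6, 1], .l [10, 11], .l [9, 12, 10, 10, 8, 8, 6, 2, 9, 6, 1], .l [9, 10, 8, 8, 6, 6, 4, 2, 9, 6, 1], .l [5, 14, 9, 1, 11, 9, 12, 2, 9, 9, 7, 7, 5], .l [9, 10, 8, 8, 6, 6, 4, 2, 9, 6, 1], .l [1, 11, 11, 9, 9, 7, 7, 5, 5, 3, 1, 4, 2], .l [9, 10, 8, 8, 6, 6, 4, 2, 9, 6, 3], .l [1,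 11, 13, 11, 11, 9, 9, 7, 7, 5, 1, 6, 4], .l [7, 8, 6, 6, 4, 2, 6, 1, 6, 8, 4, 1], .l [7, 8, 6, 6, 4, 2, 6, 1, 6, 6, 2, 1], .l [9, 10, 8, 8, 6, 6, 4, 2, 7, 4, 7], .l [1, 11, 15, 13, 13, 11, 11, 9, 9, 7, 1, 4, 2], .l [9, 10, 8, 8, 6, 6, 4, 2, 7, 4, 7]]),
([s 3 1, s 6 2, g, p 0 3, p 4 0, g, p 5 4, g, p 0 5, g, s 2 0, g, m 1 0, g, s 0 6, g], .lo 8, [.l [3, 9, 9, 7, 7, 5, 1], .l [3, 9], .l [1, 11, 8, 6, 6, 4, 4, 2, 3, 6, 2, 5], .y [4, 8, 6], .l [5, 8, 6, 2, 11, 8, 3], .l [6, 9], .l [3, 2, 14, 9, 3, 7, 8, 1], .l [7, 10, 8, 8, 6, 2, 9, 6, 1], .l [8, 9], .l [7, 10, 8, 8, 6, 2, 9, 6, 1], .l [7, 8, 6, 6, 4, 2, 9, 6, 1], .r 4928 [1, 2, 3, 4, 5, 7] [1, 1, 1, 1, 1, 1, 3], .l [5, 6, 4, 2, 12, 7, 1, 5, 6, 1], .l [1, 9, 9,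 7, 7, 5, 5, 3, 1, 4, 2, 3], .l [7, 8, 6, 6, 4, 2, 9, 6, 3], .l [1, 9, 11, 9, 9, 7, 7, 5, 1, 6, 4, 5], .l [5, 6, 4, 2, 12, 7, 3, 5, 6, 3], .l [5, 6, 4, 2, 10, 5, 3, 3, 4, 3], .l [7, 8, 6, 6, 4, 2, 7, 4, 7], .l [1, 9, 13, 11, 11, 9, 9, 7, 1, 4, 2, 5], .l [7, 8, 6, 6, 4, 2, 7, 4, 7], .l [7, 8, 6, 6, 4, 2, 7, 4, 9], .l [1, 13, 15, 9, 9, 7, 7, 5, 1, 8, 6, 3], .l [7, 8, 6, 6, 4, 2, 7, 4, 9]]),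
([s 3 1, s 5 2, g, p 0 3, p 4 0, g, p 0 4, g, s 2 0, g, m 1 0, g, s 0 5, g], .lo 6, [.l [3, 7, 7, 5, 1], .l [3, 7], .l [1, 9, 6, 4, 4, 2, 3, 6, 2, 5], .y [4, 6], .l [5, 8, 6, 2, 9, 6, 1], .l [6, 7], .l [5, 8, 6, 2, 9, 6, 1], .l [5, 6, 4, 2, 9, 6, 1], .r 4929 [1, 2, 3, 4, 6, 5] [1, 1, 1, 1, 1, 1, 1], .l [3, 2, 12, 7, 1, 5, 6, 1], .l [1, 7, 7, 5, 5, 3, 1, 4, 2, 3], .l [5, 6, 4, 2, 9, 6, 3], .l [1, 7, 9, 7, 7, 5, 1, 6, 4, 5], .l [3, 2, 12, 7, 3, 5, 6, 3], .l [3, 2, 10, 5, 3, 3, 4, 3], .l [5, 6, 4, 2, 7, 4, 7], .l [1, 7, 11, 9, 9, 7, 1, 4, 2, 5], .l [5, 6, 4, 2, 7, 4, 7], .l [5, 6, 4, 2, 7, 4, 9], .l [1, 11, 13, 7, 7, 5, 1, 8, 6, 3], .l [5, 6, 4, 2, 7, 4, 9]]),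
([s 3 1, s 4 2, g, p 0 3, p 0 0, g, s 2 0, g, m 1 0, g, s 0 4, g], .lo 4, [.l [3, 5, 1], .l [3, 5], .l [1, 7, 4, 2, 3, 6, 2, 5], .y [4], .l [3, 2, 9, 6, 1], .r 4930 [1, 2, 3, 5, 4] [1, 1, 1, 1, 1, 1], .l [3, 2, 9, 6, 1], .l [1, 5, 5, 3, 1, 4, 2, 3], .l [3, 2, 9, 6, 3], .l [1, 5, 7, 5, 1, 6, 4, 5], .l [3, 2, 9, 6, 3], .l [3, 2, 7, 4, 3], .l [3, 2, 7, 4, 7], .l [1, 5, 9, 7, 1, 4, 2, 5], .l [3, 2, 7, 4, 7], .l [3, 2, 7, 4, 9], .l [1, 9, 11, 5, 1, 8, 6, 3], .l [3, 2, 7, 4, 9]]),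
([s 3 1, s 6 2, g, p 0 3, p 4 0, g, p 5 4, g, p 0 5, g, s 0 6, g, s 2 0, g, m 1 0, g], .lo 8, [.l [3, 9, 9, 7, 7, 5, 1], .l [3, 9], .l [1, 11, 8, 6, 6, 4, 4, 2, 3, 8, 4, 1], .y [4, 8, 6], .l [5, 8, 6, 2, 13, 10, 3], .l [6, 9], .l [5, 8, 6, 2, 13, 10, 3], .l [7, 10, 8, 8, 6, 2, 11, 8, 1], .l [8, 9], .l [7, 10, 8, 8, 6, 2, 11, 8, 1], .l [7, 8, 6, 6, 4, 2, 11, 8, 1], .r 4928 [1, 2, 3, 4, 5, 7] [1, 1, 1, 1, 3, 1, 1], .l [7, 8, 6, 6, 4, 2, 11, 8, 1], .l [7, 8, 6, 6, 4, 2, 11, 8, 3], .l [1, 9, 11, 9, 9, 7, 7, 5, 1, 8, 6, 3], .l [5, 6, 4, 2, 6, 1, 6, 10, 6, 1], .l [1, 11, 11, 7, 7, 5, 5, 3, 1, 6, 4, 1], .l [7, 8, 6, 6, 4, 2, 11, 8, 5], .l [1, 9, 13, 11, 11, 9, 9, 7, 1, 8, 6, 1], .l [5, 6, 4, 2, 6, 1, 8, 10, 4, 1],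 .l [5, 6, 4, 2, 6, 1, 8, 8, 2, 1], .l [7, 8, 6, 6, 4, 2, 9, 6, 9], .l [1, 9, 15, 13, 13, 11, 11, 9, 1, 6, 4, 1], .l [7, 8, 6, 6, 4, 2, 9, 6, 9]]),
([s 3 1, s 5 2, g, p 0 3, p 4 0, g, p 0 4, g, s 0 5, g, s 2 0, g, m 1 0, g], .lo 6, [.l [3, 7, 7, 5, 1], .l [3, 7], .l [1, 9, 6, 4, 4, 2, 3, 8, 4, 1], .y [4, 6], .l [5, 8, 6, 2, 11, 8, 1], .l [6, 7], .l [5, 8, 6, 2, 11, 8, 1], .l [5, 6, 4, 2, 11, 8, 1], .r 4932 [1, 2, 3, 4, 6, 5] [1, 1, 1, 1, 1, 1, 1], .l [5, 6, 4, 2, 11, 8, 1], .l [5, 6, 4, 2, 11, 8, 3], .l [1, 7, 9, 7, 7, 5, 1, 8, 6, 3], .l [3, 2, 6, 1, 6, 10, 6, 1], .l [1, 9, 9, 5, 5, 3, 1, 6, 4, 1], .l [5, 6, 4, 2, 11, 8, 5], .l [1, 7, 11, 9, 9, 7, 1, 8, 6, 1], .l [3, 2, 6, 1, 8, 10, 4, 1], .l [3, 2, 6, 1, 8,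 8, 2, 1], .l [5, 6, 4, 2, 9, 6, 9], .l [1, 7, 13, 11, 11, 9, 1, 6, 4, 1], .l [5, 6, 4, 2, 9, 6, 9]]),
([s 3 1, s 4 2, g, p 0 3, p 0 0, g, s 0 4, g, s 2 0, g, m 1 0, g], .lo 4, [.l [3, 5, 1], .l [3, 5], .l [1, 7, 4, 2, 3, 8, 4, 1], .y [4], .l [3, 2, 11, 8, 1], .r 4933 [1, 2, 3, 5, 4] [1, 1, 1, 1, 1, 1], .l [3, 2, 11, 8, 1], .l [3, 2, 11, 8, 3], .l [1, 5, 7, 5, 1, 8, 6, 3], .l [3, 2, 11, 8, 3], .l [1, 7, 7, 3, 1, 6, 4, 1], .l [3, 2, 11, 8, 5], .l [1, 5, 9, 7, 1, 8, 6, 1], .l [3, 2, 11, 8, 5], .l [3, 2, 9, 6, 5], .l [3, 2, 9, 6, 9], .l [1, 5, 11, 9, 1, 6, 4, 1], .l [3, 2, 9, 6, 9]]),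
([s 3 1, s 6 2, g, p 0 3, p 4 0, g, p 5 4, g, p 0 5, g, s 2 0, g, s 0 6, g, m 1 0, g], .lo 8, [.l [3, 9, 9, 7, 7, 5, 1], .l [3, 9], .l [1, 13, 10, 6, 6, 4, 4, 2, 5, 8, 2, 5], .y [4, 8, 6], .l [5, 8, 6, 2, 13, 10, 3], .l [6, 9], .l [5, 8, 6, 2, 13, 10, 3], .l [7, 10, 8, 8, 6, 2, 11, 8, 1], .l [8, 9], .l [7, 10, 8, 8, 6, 2, 11, 8, 1], .l [7, 8, 6, 6, 4, 2, 11, 8, 1], .r 4928 [1, 2, 3, 4, 5, 7] [1, 1, 1, 1, 1, 3, 1], .l [7, 8, 6, 6, 4, 2, 11, 8, 1], .l [1, 9, 9, 7, 7, 5, 5, 3, 1, 6, 4, 1], .l [7, 8, 6, 6, 4, 2, 11, 8, 3], .l [1, 9, 11, 9, 9, 7, 7, 5, 1, 8, 6, 3], .l [5, 6, 4, 2, 6, 1, 6, 10, 6, 1], .l [7, 8, 6, 6, 4, 2, 11, 8, 5], .l [1, 11, 13, 9, 9, 7, 7, 5, 1, 8, 6, 3], .l [5, 6, 4, 2, 8, 3, 8, 10, 6, 3], .l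 [5, 6, 4, 2, 8, 3, 8, 8, 4, 3], .l [7, 8, 6, 6, 4, 2, 9, 6, 9], .l [1, 11, 15, 11, 11, 9, 9, 7, 1, 4, 2, 5], .l [7, 8, 6, 6, 4, 2, 9, 6, 9]]),
([s 3 1, s 5 2, g, p 0 3, p 4 0, g, p 0 4, g, s 2 0, g, s 0 5, g, m 1 0, g], .lo 6, [.l [3, 7, 7, 5, 1], .l [3, 7], .l [1, 11, 8, 4, 4, 2, 5, 8, 2, 5], .y [4, 6], .l [5, 8, 6, 2, 11, 8, 1], .l [6, 7], .l [5, 8, 6, 2, 11, 8, 1], .l [5, 6, 4, 2, 11, 8, 1], .r 4935 [1, 2, 3, 4, 6, 5] [1, 1, 1, 1, 1, 1, 1], .l [5, 6, 4, 2, 11, 8, 1], .l [1, 7, 7, 5, 5, 3, 1, 6, 4, 1], .l [5, 6, 4, 2, 11, 8, 3], .l [1, 7, 9, 7, 7, 5, 1, 8, 6, 3], .l [3, 2, 6, 1, 6, 10, 6, 1], .l [5, 6, 4, 2, 11, 8, 5], .l [1, 9, 11, 7, 7, 5, 1, 8, 6, 3], .l [3, 2, 8, 3, 8, 10, 6, 3], .l [3, 2, 8, 3, 8, 8,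 4, 3], .l [5, 6, 4, 2, 9, 6, 9], .l [1, 9, 13, 9, 9, 7, 1, 4, 2, 5], .l [5, 6, 4, 2, 9, 6, 9]]),
([s 3 1, s 4 2, g, p 0 3, p 0 0, g, s 2 0, g, s 0 4, g, m 1 0, g], .lo 4, [.l [3, 5, 1], .l [3, 5], .l [1, 9, 6, 2, 5, 8, 2, 5], .y [4], .l [3, 2, 11, 8, 1], .r 4936 [1, 2, 3, 5, 4] [1, 1, 1, 1, 1, 1], .l [3, 2, 11, 8, 1], .l [1, 5, 5, 3, 1, 6, 4, 1], .l [3, 2, 11, 8, 3], .l [1, 5, 7, 5, 1, 8, 6, 3], .l [3, 2, 11, 8, 3], .l [3, 2, 11, 8, 5], .l [1, 7, 9, 5, 1, 8, 6, 3], .l [3, 2, 11, 8, 5], .l [3, 2, 9, 6, 5], .l [3, 2, 9, 6, 9], .l [1, 7, 11, 7, 1, 4, 2, 5], .l [3, 2, 9, 6, 9]]),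
([s 3 1, s 0 2, g, p 0 3, p 0 0, g, s 2 0, g, m 1 0, g], .lo 1, [.r 4885 [1, 4, 3] [1, 1, 4, 1], .r 4442 [1, 2, 4] [1, 4, 1, 1], .l [5, 4, 1], .R 4453 [3, 4] [1, 5], .r 4934 [1, 2, 3, 4] [1, 1, 1, 1, 1], .r 4459 [1, 3, 4] [1, 1, 3, 1], .l [3, 2, 4], .y [1, 6], .r 4937 [1, 2, 3, 4] [1, 1, 1, 1, 1], .r 4459 [1, 3, 4] [1, 3, 1, 1], .l [3, 2, 6], .l [3, 2, 6], .r 4931 [1, 2, 3, 4] [1, 1, 1, 1, 1], .r 4796 [1, 3, 4] [1, 3, 1, 1], .l [3, 2, 8]]),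
([s 2 1, s 0 0, g, p 0 2, p 0 0, g, m 1 0, g], .hi 1, [.y [1], .r 4905 [1, 3, 2] [1, 1, 1, 1], .l [5, 4, 1], .R 4578 [2, 3] [1, 1, 4], .l [3, 2, 1], .l [1, 3, 1], .r 4938 [1, 3, 2] [1, 1, 1, 1], .l [3, 2, 4], .r 4781 [1, 3, 2] [1, 1, 1, 1], .r 4927 [1, 3, 2] [1, 1, 1, 1], .l [3, 2, 6], .r 4664 [1, 3, 2] [1, 2, 1, 1]]),
([s 3 1, s 5 2, g, p 4 0, g, p 0 3, m 1 4, g, s 2 0, g, s 0 5, g], .lo 5, [.l [3, 6, 1, 5, 2], .l [3, 6], .l [6, 1, 6, 0, 2], .y [0, 6, 3, 5], .l [4, 1, 6, 2, 1], .l [5, 6], .l [4, 1, 6, 2, 1], .l [4, 1, 4, 0, 4], .l [10, 8, 4, 7, 8, 6, 3, 4, 0, 1], .l [4, 1, 4, 0, 4], .l [1, 7, 7, 4, 1, 3, 0, 3], .l [4, 1, 4, 0, 6], .l [1, 7, 9, 6, 1, 5, 2, 5], .l [4, 1, 4, 0, 6], .l [4, 1, 4, 0, 8], .l [1,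 9, 11, 6, 1, 5, 2, 5], .l [4, 1, 4, 0, 8]]),
([s 3 1, s 4 2, g, p 0 3, m 1 0, g, s 2 0, g, s 0 4, g], .hi 4, [.l [3, 5, 1], .r 4940 [1, 2, 3, 5, 4] [1, 1, 1, 1, 1], .l [3, 5], .y [0, 4, 3], .l [3, 2, 3, 0, 3], .l [3, 2, 3, 0, 3], .l [8, 6, 7, 4, 7, 3, 0, 3], .l [3, 2, 3, 0, 5], .l [3, 2, 3, 0, 5], .l [1, 5, 7, 5, 1, 4, 2, 3], .l [1, 7, 7, 3, 1, 2, 0, 1], .l [3, 2, 3, 0, 7], .l [3, 2, 3, 0, 7], .l [1, 7, 9, 5, 1, 4, 2, 3]]),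
([s 3 1, s 5 2, g, s 2 0, g, p 4 0, g, p 0 3, m 1 4, g, s 0 5, g], .lo 7, [.l [3, 8, 1, 7, 2], .l [3, 8], .l [1, 4, 1, 6, 1, 5, 1, 4, 2, 3], .l [1, 2, 2, 4, 1, 3, 0, 3], .l [5, 8, 1, 7, 4], .l [5, 8], .l [8, 1, 8, 0, 4], .y [0, 8, 5, 7], .l [6, 1, 8, 2, 1], .l [7, 8], .l [6, 1, 8, 2, 1], .l [6, 1, 6, 0, 6], .l [12, 10, 6, 9, 3, 1, 5, 6, 0, 3], .l [6, 1, 6, 0, 6], .l [6, 1, 6, 0, 8], .l [1, 9, 11, 8, 1, 7, 2, 3], .l [6, 1, 6, 0, 8]]),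
([s 3 1, s 4 2, g, s 2 0, g, p 0 3, m 1 0, g, s 0 4, g], .hi 6, [.l [3, 7, 3], .l [1, 4, 1, 5, 2, 5], .l [3, 7], .l [5, 7, 1], .r 4942 [1, 2, 3, 5, 4] [1, 1, 1, 1, 1], .l [5, 7], .y [0, 6, 5], .l [5, 4, 1, 4, 0, 3], .l [5, 4, 1, 4, 0, 3], .l [10, 8, 4, 7, 3, 6, 0, 3], .l [1, 7, 7, 5, 3, 4, 0, 1], .l [5, 4, 1, 4, 0, 5], .l [5, 4, 1, 4, 0, 5], .l [1, 7, 9, 7, 3, 6, 2, 3]]),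
([s 3 1, s 5 2, g, p 4 0, g, p 0 3, m 1 4, g, s 0 5, g, s 2 0, g], .lo 5, [.l [3, 6, 1, 5, 2], .l [3, 6], .l [6, 1, 6, 0, 2], .y [0, 6, 3, 5], .l [4, 1, 6, 2, 1], .l [5, 6], .l [4, 1, 6, 2, 1], .l [4, 1, 4, 0, 4], .l [10, 8, 4, 7, 8, 6, 3, 4, 0, 1], .l [4, 1, 4, 0, 4], .l [4, 1, 4, 0, 6], .l [1, 7, 9, 6, 1, 5, 2, 5], .l [4, 1, 4, 0, 6], .l [1, 9, 9, 4, 1, 3, 0, 3], .l [4, 1, 4, 0, 8], .l [1, 7, 11, 8, 1, 7, 4, 1], .l [4, 1, 4, 0, 8]]),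
([s 3 1, s 4 2, g, p 0 3, m 1 0, g, s 0 4, g, s 2 0, g], .hi 4, [.l [3, 5, 1], .r 4944 [1, 2, 3, 5, 4] [1, 1, 1, 1, 1], .l [3, 5], .y [0, 4, 3], .l [3, 2, 3, 0, 3], .l [3, 2, 3, 0, 3], .l [8, 6, 7, 4, 7, 3, 0, 3], .l [1, 5, 5, 3, 1, 2, 0, 1], .l [3, 2, 3, 0, 5], .l [3, 2, 3, 0, 5], .l [1, 5, 7, 5, 1, 4, 2, 3], .l [3, 2, 3, 0, 7], .l [3, 2, 3, 0, 7], .l [1, 5, 9, 7, 1, 6, 4, 1]]),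
([s 2 1, s 3 0, g, p 0 2, m 1 0, g, s 0 3, g], .hi 1, [.r 4943 [1, 4, 2, 3] [1, 1, 1, 1], .l [5, 4, 1], .R 4578 [2, 4] [1, 1, 4], .l [3, 2, 1], .r 4941 [1, 4, 2, 3] [1, 1, 1, 1], .l [3, 2, 4], .r 4664 [1, 4, 2] [1, 0, 1, 3], .y [1, 6], .r 4945 [1, 4, 2, 3] [1, 1, 1, 1], .l [3, 2, 6], .r 4664 [1, 4, 2] [1, 0, 3, 1]]),
([s 2 1, s 0 0, g, p 0 2, m 1 0, g], .lo 1, [.y [1], .r 4885 [1, 3, 2] [1, 1, 0, 1], .r 4578 [1, 3] [1, 2, 1], .l [5, 4, 1], .l [1, 3, 1], .r 4946 [1, 2, 3] [1, 1, 1], .r 4790 [1, 2, 3] [1, 1, 1], .l [3, 2, 4]]),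
([s 2 1, s 4 0, g, p 0 2, m 0 3, g, m 1 0, g, s 0 4, g, m 3 0, g], .hi 1, [.l [1, 9, 11, 7, 3, 8, 4, 5], .l [5, 4, 1], .l [1, 9, 11, 7, 3, 8, 4, 5], .l [3, 2, 1], .l [4, 2, 5, 1, 7, 4, 4], .l [1, 9, 11, 5, 1, 8, 6, 3], .l [1, 9, 3, 7, 4, 8, 6, 1], .l [6, 4, 7, 1, 9, 4, 6], .l [1, 9, 11, 5, 1, 6, 4, 5], .l [1, 9, 11, 5, 1, 6, 4, 5], .l [8, 1, 12, 7, 2, 8, 5], .y [1, 8], .l [1, 7, 11, 7, 1, 8, 6, 1], .l [1, 7, 11, 7, 1, 8, 6, 1], .l [10, 3, 12, 5, 2, 6, 3], .l [1, 7, 9, 5, 1, 6, 4, 5], .l [1, 7, 9, 5, 1, 6, 4, 5], .l [8, 6, 11, 4, 8, 5]]),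
([s 2 1, s 4 0, g, p 0 2, m 0 3, g, s 0 4, g, m 1 0, g, m 3 0, g], .hi 1, [.l [1, 7, 11, 9, 3, 6, 2, 3], .l [5, 4, 1], .l [1, 7, 11, 9, 3, 6, 2, 3], .l [3, 2, 1], .l [4, 2, 7, 3, 7, 2, 2], .l [1, 7, 11, 7, 1, 4, 2, 5], .l [1, 7, 11, 7, 1, 4, 2, 5], .l [6, 4, 9, 3, 9, 2, 4], .y [1, 6], .l [1, 5, 11, 9, 1, 6, 4, 1], .l [1, 5, 11, 9, 1, 6, 4, 1], .l [6, 4, 9, 3, 9, 2, 4, 5], .l [1, 5, 11, 9, 1, 4, 2, 3], .l [1, 5, 11, 9, 1, 4, 2, 3], .l [6, 4, 7, 1, 9, 4, 6, 3], .l [1, 5, 9, 7, 1, 4, 2, 5], .l [1, 5, 9, 7, 1, 4, 2, 5], .l [6, 4, 11, 6, 8, 3]]),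
([s 2 1, s 4 0, g, p 0 2, m 0 3, g, m 1 0, g, m 3 0, g, s 0 4, g], .hi 1, [.l [12, 10, 6, 9, 3, 8, 2, 5], .l [5, 4, 1], .R 4578 [2, 5] [1, 1, 8], .l [3, 2, 1], .l [4, 2, 5, 1, 5, 2, 2], .l [1, 5, 9, 7, 1, 4, 2, 5], .l [1, 5, 9, 7, 1], .l [6, 4, 7, 1, 7, 2, 4], .l [1, 7, 9, 5, 1, 6, 4, 5], .l [1, 7, 9, 5, 1], .l [8, 6, 11, 4, 8, 5], .l [10, 8, 9, 4, 9, 5, 2, 5], .l [3, 2, 8], .l [10, 8, 9, 4, 9, 5, 2, 5], .y [1, 10], .l [10, 8, 9, 4, 9, 5, 2, 5], .l [3, 2, 10], .l [10, 8, 9, 4, 9, 5, 2, 5]]),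
([s 2 1, s 0 0, g, p 0 2, m 0 3, g, m 1 0, g, m 3 0, g], .lo 1, [.y [1], .r 4885 [1, 4, 2] [1, 1, 2, 3], .r 4578 [1, 4] [1, 4, 3], .l [5, 4, 1], .r 4949 [1, 2, 3, 4] [1, 1, 1, 1, 1], .l [6, 4, 7, 1, 7, 2, 4], .l [1, 5, 9, 7, 1], .l [1, 5, 7, 5, 1], .r 4948 [1, 2, 3, 4] [1, 1, 1, 1, 1], .l [8, 1, 10, 5, 2, 6, 3], .l [1, 7, 9, 5, 1], .l [1, 7, 7, 3, 1], .r 4950 [1, 2, 3, 4] [1, 1, 1, 1, 1], .r 4792 [1, 2, 3, 4] [1, 1, 1, 1, 1], .l [3, 2, 8]]),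
([s 2 1, s 5 0, g, p 3 0, g, p 4 2, m 0 3, g, m 1 0, g, p 0 4, g, s 0 5, g], .hi 1, [.l [14, 12, 8, 11, 3, 1, 5, 8, 2, 5], .l [5, 0, 7, 1, 8, 6, 1], .R 4578 [2, 6] [1, 3, 8], .l [1, 4, 1, 5, 2, 9], .l [1, 4, 1, 5, 2], .l [1, 13, 10, 4, 9, 7, 8, 3], .l [6, 3, 2, 4, 1], .l [1, 7, 4, 2, 3, 6, 2, 7], .l [1, 13, 5, 11, 8, 4, 2, 4, 2, 3], .l [8, 5, 2, 6, 1], .l [1, 9, 11, 6, 1, 5, 2, 7], .l [1, 9, 6, 2, 5], .l [8, 12, 8, 1, 7, 3, 8, 4, 5], .l [1, 9, 6, 2, 5], .l [12, 10, 6, 9, 10, 8, 3, 6, 2, 3], .l [1, 11, 8, 2, 7], .l [12, 9, 2, 10, 1], .y [1, 12], .l [12, 10, 6, 9, 10, 8, 3, 6, 2, 3], .l [1, 13, 10, 2, 9], .l [14, 11, 2, 12, 1]]),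
([s 3 1, s 7 2, g, s 2 0, g, p 4 0, g, p 5 3, m 0 4, g, p 6 5, g, p 0 6, g, m 1 0, g, s 0 7, g], .hi 5, [.l [7, 3, 1, 3, 1, 5, 1, 10, 8, 9], .l [7, 0, 9, 1, 14, 12, 13, 11, 3, 9, 3, 3, 1], .l [7, 3], .l [1, 17, 10, 2, 13, 11, 7, 9, 10, 1], .l [7, 0, 9, 1, 14, 12, 13, 9, 1, 7, 3, 3, 1], .l [7, 1], .l [6, 1, 8, 2, 6], .l [5, 6], .l [7, 1], .y [5, 8], .l [9, 4, 2, 6, 1, 12, 6, 7], .l [5, 9], .l [10, 4], .l [11, 6, 2, 8, 1, 10, 6, 10, 6, 7], .l [5, 11], .l [12, 6], .l [5, 11], .l [13, 8, 2, 10, 1, 12, 2, 3], .l [5, 13], .l [14, 8], .l [15, 10, 2, 12, 1, 9, 10, 3], .l [5, 15], .l [16, 10], .l [1, 15, 10, 2, 11, 12, 2, 8, 6, 7], .l [1, 15, 10, 2, 11, 9, 12, 2, 8, 3, 6, 1], .l [5, 17], .l [18, 12]]),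
([s 3 1, s 6 2, g, s 2 0, g, p 4 0, g, p 5 3, m 0 4, g, p 0 5, g, m 1 0, g, s 0 6, g], .lo 10, [.l [3, 11, 4, 2, 5], .l [3, 11], .l [1, 4, 1, 9, 4, 2, 4, 9], .l [1, 2, 2, 7, 4, 2, 3, 6, 2, 5], .l [5, 11, 4, 2, 3], .l [5, 11], .l [9, 8, 14, 10, 6, 6, 3, 6, 2, 3], .l [5, 9], .l [6, 1, 8, 2, 8], .l [7, 11], .l [6, 1, 8, 2, 8], .l [9, 4, 2, 6, 1, 10, 4, 1], .l [10, 11], .l [7, 6, 14, 5, 1, 6, 4, 6, 2, 3], .l [9, 4, 2, 6, 1, 10, 4, 1], .r 4953 [1, 2, 3, 4, 5, 7, 6] [1, 1, 1, 1, 1, 1, 1, 1], .l [7, 6, 14, 5, 1, 8, 2, 3], .y [0, 12, 10, 7], .l [9, 4, 2, 6, 1, 8, 2, 7], .l [16, 14, 10, 13, 3, 1, 8, 8, 5, 8, 2, 5], .l [9, 4, 2, 6, 1, 8, 2, 7], .l [9, 4, 2, 6, 1, 8, 2, 9], .l [1, 13, 8, 2, 9, 12, 6, 8, 4, 7], .l [1,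 13, 8, 2, 9, 5, 10, 2, 8, 1, 6, 3]]),
([s 2 1, s 5 0, g, p 3 0, g, p 4 2, m 0 3, g, p 0 4, g, m 1 0, g, s 0 5, g], .hi 1, [.r 4954 [1, 6, 2, 3, 4, 5] [1, 1, 1, 1, 1, 1, 1], .l [5, 0, 7, 1, 10, 8, 1], .R 4578 [2, 6] [1, 3, 8], .l [1, 4, 1, 5, 2, 9], .l [1, 4, 1, 5, 2], .l [1, 13, 10, 4, 9, 7, 8, 1], .l [5, 2, 5, 2, 6, 3, 6, 2, 3], .l [1, 7, 4, 2, 3, 8, 4, 7], .l [1, 13, 5, 11, 6, 4, 2, 3], .l [5, 2, 5, 2, 8, 5, 8, 2, 3], .l [1, 11, 3, 9, 6, 4, 2, 3], .l [1, 9, 6, 2, 5, 8, 2, 7], .l [1, 13, 3, 11, 8, 6, 2, 5], .l [10, 7, 2, 8, 1], .l [11, 8, 2, 8, 10, 6, 3, 6, 2, 5], .l [1, 11, 8, 2, 7], .l [12, 9, 2, 10, 1], .y [1, 12], .l [11, 8, 2, 8, 10, 6, 3, 6, 2, 5], .l [1, 13, 10, 2, 9], .l [14, 11, 2, 12, 1]]),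
([s 2 1, s 4 0, g, p 3 0, g, p 0 2, m 0 3, g, m 1 0, g, s 0 4, g], .lo 5, [.l [1, 4, 1, 3, 0], .l [3, 6, 1, 5, 2], .l [3, 6], .l [6, 1, 6, 0, 2], .l [3, 4], .l [4, 1, 6, 2, 1], .l [5, 6], .l [4, 1, 6, 2, 1], .l [4, 1, 4, 0, 4], .r 4955 [1, 2, 3, 5, 4] [1, 1, 1, 1, 1, 1], .l [4, 1, 4, 0, 4], .y [0, 8, 5], .l [4, 1, 4, 0, 6], .r 4952 [1, 2, 3, 5, 4] [1, 1, 1, 1, 1, 1], .l [4, 1, 4, 0, 6], .l [4, 1, 4, 0, 8], .l [5, 4, 8, 10, 5, 8, 2, 5], .l [4, 1, 4, 0, 8]]),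
([s 2 1, s 4 0, g, p 3 0, g, p 0 2, m 0 3, g, s 0 4, g, m 1 0, g], .hi 1, [.l [1, 9, 4, 2, 5, 8, 2, 5], .l [5, 0, 7, 1, 10, 8, 1], .l [1, 9, 4, 2, 5, 8, 2, 5], .l [1, 9, 6, 4, 5, 8, 2, 3], .l [1, 4, 1, 5, 2], .l [1, 9, 6, 4, 5, 8, 2, 3], .l [1, 4, 1, 3, 0], .l [6, 3, 2, 4, 1], .l [1, 9, 6, 2, 5, 8, 2, 5], .l [1, 9, 6, 2, 5, 8, 2, 5], .l [8, 5, 2, 6, 1], .y [1, 8], .l [1, 7, 4, 2, 3, 8, 4, 1], .l [1, 7, 4, 2, 3, 8, 4, 1], .l [10, 7, 2, 8, 1], .l [1, 7, 4, 2, 3, 6, 2, 5], .l [1, 7, 4, 2, 3, 6, 2, 5], .l [12, 9, 2, 10, 1]]),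
([s 2 1, s 0 0, g, p 3 0, g, p 0 2, m 0 3, g, m 1 0, g], .lo 1, [.y [1], .r 4885 [1, 4, 2] [1, 3, 2, 1], .r 4578 [1, 4] [1, 6, 1], .l [5, 0, 7, 1, 8, 6, 1], .l [3, 0, 5, 1, 6, 4, 1], .l [7, 6, 3, 8, 2, 5], .l [3, 0, 7, 3, 8, 4, 5], .l [1, 4, 1, 5, 2], .r 4957 [1, 2, 3, 4] [1, 1, 1, 1, 1], .l [8, 5, 2, 6, 1], .l [1, 7, 4, 2, 3], .l [1, 7, 4, 2, 3], .r 4956 [1, 2, 3, 4] [1, 1, 1, 1, 1], .l [10, 7, 2, 8, 1], .l [1, 9, 6, 2, 5]]),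
([s 3 1, s 0 0, g, m 0 2, g, p 4 3, m 2 4, g, m 1 5, g, m 5 6, g, m 6 0, g], .hi 1, [.y [1], .l [10, 3, 0, 8, 1, 9, 3, 3, 1, 3, 1, 5, 3], .l [7, 6, 1], .R 4578 [3, 7] [1, 3, 8], .l [3, 1, 7, 4, 5, 2, 3, 0, 0], .l [12, 5, 0, 10, 3, 1, 7, 7, 5, 5, 3, 5, 1], .l [7, 6, 3], .l [5, 3, 9, 4, 7, 4, 5, 0, 2], .l [7, 2, 0, 4, 7, 2, 5, 7, 3, 5, 1, 5, 3], .l [1, 7, 2, 0, 3], .l [8, 3, 0, 6, 3], .l [1, 9, 4, 0, 5, 8, 4, 4, 2, 4, 1, 5, 3], .l [1, 9, 4, 0, 5], .l [10, 5, 0, 8, 3], .l [1, 11, 6, 0, 7, 10, 6, 6, 4, 4, 2, 4, 1], .l [1, 11, 6, 0, 7], .l [12, 7, 0, 10, 3], .l [5, 4, 12, 8, 0, 8, 7, 7, 5, 5, 3, 3, 1], .l [1, 13, 8, 0, 9], .l [14, 9, 0, 12, 3]]),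
([s 3 1, s 0 0, g, m 0 2, g, p 4 3, m 2 4, g, m 1 5, g, m 5 0, g], .hi 10, [.l [1, 9, 4, 0, 5], .l [3, 11, 4, 0, 5], .l [4, 1, 10, 4, 0, 4, 3], .l [3, 11], .y [0, 8, 10, 3, 6, 5], .l [5, 11, 4, 0, 3], .l [11, 6, 10, 4, 1, 4, 5, 0, 2], .l [5, 11], .l [7, 2, 0, 4, 7, 2, 7], .l [7, 2, 0, 4, 7, 2, 7], .l [8, 11], .l [9, 4, 0, 6, 9, 4, 4, 2, 1], .l [9, 4, 0, 6, 9, 4, 4, 2, 1], .l [10, 11], .l [9, 4, 0, 6, 7, 2, 2, 0, 5], .l [9, 4, 0, 6, 7, 2, 2, 0, 5], .r 4959 [1, 2, 3, 4, 5, 6] [1, 1, 1, 1, 1, 1]]),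
([s 4 1, g, m 0 2, g, m 2 3, g, p 6 0, g, p 5 4, m 3 5, g, m 1 6, g], .hi 6, [.l [5, 8, 4, 2, 4, 1, 7, 2, 0, 2, 1], .l [5, 8, 4, 2, 4, 1, 7, 2, 0, 2, 1], .l [8, 5], .y [0, 11, 6, 2, 4, 9, 8], .l [7, 11, 9, 9, 5, 2, 5, 2, 0, 1, 4, 2, 1], .l [7, 11, 9, 9, 5, 2, 5, 2, 0, 1, 4, 2, 1], .l [8, 3], .l [7, 11, 7, 4, 7, 2, 0, 3, 6, 2, 1], .l [7, 11, 7, 4, 7, 2, 0, 3, 6, 2, 1], .l [8, 1], .l [7, 1, 11, 2, 0, 2, 7], .l [6, 7], .l [8, 1], .l [6, 10, 2, 0, 1], .l [6, 10], .l [11, 4], .l [6, 12, 4, 0, 3], .l [6, 12], .l [13, 6]]),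
([s 3 1, g, m 0 2, g, p 5 0, g, p 4 3, m 2 4, g, m 1 5, g], .lo 2, [.l [4, 1, 10, 6, 8, 3, 4, 0, 1], .l [4, 1], .r 4961 [1, 6, 2, 3, 4, 5] [1, 1, 1, 1, 1, 1], .l [5, 9, 5, 7, 1, 2, 0, 2, 3], .l [4, 1], .l [2, 3], .y [0, 9, 4, 2, 7, 6], .l [2, 5, 1, 8, 2, 0, 3], .l [6, 3], .l [2, 5], .l [2, 8, 2, 0, 3], .l [9, 6], .l [2, 8], .l [2, 10, 4, 0, 5], .l [11, 8], .l [2, 10]]),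
([s 3 1, s 0 0, g, m 0 2, g, p 4 3, m 2 4, g, m 1 0, g], .hi 8, [.l [1, 7, 2, 0, 3], .l [3, 9, 2, 0, 3], .l [4, 1, 8, 2, 0, 2, 1], .l [3, 9], .y [0, 8, 3, 6, 5], .l [5, 9, 2, 0, 1], .r 4962 [1, 2, 3, 4, 5] [2, 1, 1, 1, 1], .l [5, 9], .l [7, 2, 0, 4, 7, 2, 1], .l [7, 2, 0, 4, 7, 2, 1], .l [8, 9], .l [7, 2, 0, 4, 5, 0, 5], .l [7, 2, 0, 4, 5, 0, 5], .r 4960 [1, 2, 3, 4, 5] [1, 1, 1, 1, 1]]),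
([s 2 1, s 0 0, g, p 3 2, m 0 3, g, m 1 0, g], .lo 4, [.l [4, 1, 0, 2, 1], .l [6, 2, 7, 1, 5, 0, 2], .l [6, 2], .r 4963 [1, 4, 2, 3] [1, 1, 1, 1], .l [6, 1, 2, 0, 2], .l [6, 1], .l [4, 5], .y [0, 6, 4, 3], .l [8, 3, 4, 0, 4], .l [8, 3], .l [4, 7]]),
([s 2 1, s 0 0, g, p 0 2, m 0 3, g, m 3 4, g, m 1 0, g, m 4 5, g, m 5 6, g, m 6 0, g], .hi 1, [.y [1], .l [14, 16, 15, 15, 13, 13, 9, 9, 7, 4, 1, 7, 3], .l [5, 4, 1], .R 4578 [2, 7] [1, 1, 12], .l [3, 2, 1], .r 4801 [7, 2] [1, 11], .l [12, 14, 13, 13, 9, 11, 3, 1, 5, 2, 5, 7, 5], .l [1, 5, 7, 5, 1], .r 4776 [1, 7, 2, 3] [1, 1, 1, 1, 7], .l [11, 3, 11, 6, 6, 4, 2, 6, 8, 4, 5, 7, 5], .l [1, 7, 11, 9, 9, 7, 1], .l [4, 10, 5, 1, 7, 2, 3], .l [11, 12, 6, 6, 4, 2, 6,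 1, 7, 4, 5, 7, 5], .l [1, 9, 11, 7, 7, 5, 1], .l [10, 1, 12, 7, 7, 5, 2, 6, 3], .l [11, 14, 12, 12, 8, 8, 6, 2, 7, 4, 5, 7, 3], .l [1, 11, 13, 11, 11, 7, 7, 5, 1], .l [12, 3, 6, 4, 12, 7, 7, 5, 2, 6, 3], .l [1, 13, 15, 13, 13, 11, 11, 7, 7, 5, 1, 6, 4], .l [1, 13, 15, 13, 13, 11, 11, 7, 7, 5, 1], .l [9, 14, 5, 1, 9, 9, 7, 5, 8, 2, 5], .l [3, 2, 14, 9, 10, 9, 1, 8, 5, 5, 3, 3, 1], .l [3, 2, 14], .l [9, 16, 7, 1, 11, 11, 9, 7, 10, 2, 7]]),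
([s 2 1, s 0 0, g, p 0 2, m 0 3, g, m 3 4, g, m 1 0, g, m 4 5, g, m 5 0, g], .hi 12, [.l [1, 11, 11, 9, 9, 5, 5, 3, 1], .l [3, 13, 13, 11, 11, 7, 7, 5, 1], .l [7, 4, 12, 6, 9, 7, 1, 6, 3], .l [3, 13], .l [5, 2, 10, 6, 9, 7, 1, 6, 3], .y [4, 6, 10, 12], .l [5, 8, 6, 2, 7, 4, 9], .l [5, 8, 6, 2, 7, 4, 9], .l [6, 13], .l [7, 12, 10, 10, 8, 2, 5, 2, 7], .l [7, 12, 10, 10, 8, 2, 5, 2, 7], .l [8, 13], .l [9, 12, 8, 8, 6, 2, 7, 4, 7], .l [9, 12, 8, 8, 6, 2, 7, 4, 7], .l [10, 13], .l [11, 14, 12, 12, 8, 8, 6, 2, 7, 4, 1], .l [11, 14, 12, 12, 8, 8, 6, 2, 7, 4, 1], .l [12, 13], .l [11, 12, 10, 10, 6, 6, 4, 2, 5, 2, 5], .l [11, 12, 10, 10, 6, 6, 4, 2, 5, 2, 5], .r 4965 [1, 2, 3, 4, 5, 6] [1, 1, 1, 1, 1, 1, 1]]),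
([s 2 1, s 0 0, g, p 0 2, m 0 3, g, m 3 4, g, m 1 0, g, m 4 0, g], .hi 10, [.l [1, 9, 9, 5, 5, 3, 1], .l [3, 11, 11, 7, 7, 5, 1], .l [7, 4, 10, 4, 7, 5, 8, 2, 5], .l [3, 11], .l [5, 2, 8, 4, 7, 5, 6, 0, 3], .y [4, 6, 10], .l [5, 8, 6, 2, 7, 4, 7], .l [5, 8, 6, 2, 7, 4, 7], .l [6, 11], .l [7, 12, 10, 10, 8, 2, 5, 2, 5], .l [7, 12, 10, 10, 8, 2, 5, 2, 5], .l [8, 11], .l [9, 12, 8, 8, 6, 2, 7, 4, 1], .l [9, 12, 8, 8, 6, 2, 7, 4, 1], .l [10, 11], .l [9, 10, 6, 6, 4, 2, 5, 2, 5], .l [9, 10, 6, 6, 4, 2, 5, 2, 5], .r 4966 [1, 2, 3, 4, 5] [1, 1, 1, 1, 1, 1]]),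
([s 2 1, s 0 0, g, p 4 2, m 0 3, g, m 3 4, g, m 1 5, g, m 5 6, g, m 6 0, g], .hi 1, [.y [1], .l [12, 7, 2, 2, 0, 8, 1, 9, 5, 5, 3, 3, 1], .l [5, 4, 1], .R 4578 [2, 7] [1, 1, 10], .l [4, 1, 5, 5, 0, 2, 1], .l [12, 9, 4, 4, 0, 8, 5, 7, 5, 5, 3, 5, 1], .l [1, 5, 2, 5, 5, 0, 1], .l [6, 3, 7, 7, 0, 4, 1], .l [12, 9, 2, 2, 0, 8, 5, 7, 5, 5, 3, 5, 1], .l [1, 7, 4, 2, 2, 0, 1], .l [8, 5, 2, 2, 0, 4, 1], .l [9, 6, 2, 2, 0, 4, 7, 4, 4, 2, 3, 5, 3], .l [1, 9, 6, 2, 2, 0, 3], .l [10, 7, 2, 2, 0, 6, 1], .l [1, 11, 8, 2, 2, 0, 5, 8, 6, 6, 4, 4, 2], .l [1, 11, 8, 2, 2, 0, 5], .l [12, 9, 2, 2, 0, 8, 1], .l [3, 2, 12, 5, 9, 2, 2, 0, 5, 5, 3, 3, 1], .l [1, 13, 10, 2, 2, 0, 7], .l [14, 11, 2, 2, 0, 10, 1]]),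
([s 2 1, s 0 0, g, p 4 2, m 0 3, g, m 3 4, g, m 1 5, g, m 5 0, g], .hi 10, [.l [1, 9, 6, 2, 2, 0, 3], .l [3, 11, 6, 2, 2, 0, 3], .l [7, 4, 10, 4, 7, 5, 6, 0, 3], .l [3, 11], .y [0, 8, 10, 4, 6, 3], .l [5, 2, 6, 6, 0, 2, 5, 2, 5], .l [5, 2, 6, 6, 0, 2, 5, 2, 5], .l [6, 11], .l [7, 4, 2, 2, 0, 2, 5, 2, 5], .l [7, 4, 2, 2, 0, 2, 5, 2, 5], .l [8, 11], .l [9, 6, 2, 2, 0, 4, 7, 4, 4, 2, 1], .l [9, 6, 2, 2, 0, 4, 7, 4, 4, 2, 1], .l [10, 11], .l [9, 6, 2, 2, 0, 4, 5, 2, 2, 0, 3], .l [9, 6, 2, 2, 0, 4, 5, 2, 2, 0, 3], .r 4968 [1, 2, 3, 4, 5, 6] [1, 1, 1, 1, 1, 1]]),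
([s 2 1, g, p 5 0, g, p 4 2, m 0 3, g, m 3 4, g, m 1 5, g], .lo 5, [.l [10, 4, 2, 2, 0, 5, 1, 3, 4, 0, 1], .l [7, 4], .l [8, 11, 2, 7, 8, 4, 1, 4, 2, 0, 1], .y [0, 9, 2, 5, 7, 4], .l [3, 1, 9, 4, 2, 2, 0, 2, 1], .l [7, 2], .l [3, 1, 9, 4, 2, 2, 0, 2, 1], .l [7, 1, 2, 6, 6, 0, 3], .l [7, 1], .l [5, 6], .l [5, 8, 1, 5, 1, 6, 2, 0, 1], .l [9, 3], .l [5, 8], .l [5, 10, 1, 5, 3, 6, 3], .l [11, 5], .l [5, 10]]),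
([s 2 1, s 0 0, g, p 4 2, m 0 3, g, m 3 4, g, m 1 0, g], .hi 8, [.l [1, 7, 4, 2, 2, 0, 1], .l [3, 9, 4, 2, 2, 0, 1], .r 4970 [1, 2, 3, 4, 5] [2, 1, 1, 1, 1], .l [3, 9], .y [0, 8, 4, 6, 3], .l [5, 2, 6, 6, 0, 2, 5, 2, 1], .l [5, 2, 6, 6, 0, 2, 5, 2, 1], .l [6, 9], .l [7, 4, 2, 2, 0, 2, 5, 2, 1], .l [7, 4, 2, 2, 0, 2, 5, 2, 1], .l [8, 9], .l [7, 4, 2, 2, 0, 2, 3, 0, 3], .l [7, 4, 2, 2, 0, 2, 3, 0, 3], .r 4969 [1, 2, 3, 4, 5] [1, 1, 1, 1, 1]]),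
([s 2 1, s 0 0, g, p 6 0, g, p 4 2, m 0 3, g, p 5 4, g, p 0 5, g, m 3 6, g, m 1 0, g], .hi 1, [.y [1], .l [5, 0, 13, 13, 7, 1, 12, 10, 1, 9, 3, 3, 1], .l [5, 0, 13, 13, 7, 1, 12, 10, 1], .l [9, 4, 12, 7, 1, 8, 4, 8, 4, 0, 4], .l [1, 4, 1, 11, 11, 5, 2, 10, 7, 7, 3, 3, 1], .l [1, 4, 1, 11, 11, 5, 2], .l [3, 0, 13, 13, 7, 3, 12, 8, 9], .l [5, 2, 11, 11, 5, 2, 6, 3, 8, 4, 5], .l [1, 7, 4, 11, 11, 2, 3, 10, 6, 6, 3, 3, 1], .l [1, 7, 4, 11, 11, 2, 3], .l [5, 2, 13, 13, 5, 2, 8, 5, 10, 4, 5], .l [1, 9, 6, 11, 11, 2, 5, 8, 6, 8, 4, 4, 1], .l [1, 9, 6, 11, 11, 2, 5], .l [8, 12, 11, 11, 8, 1, 9, 9, 7, 3, 8, 4, 5], .l [1, 9, 6, 9, 9, 2, 5], .l [1, 11, 13, 7, 3, 12, 8, 8, 3, 3, 1, 7, 3], .l [1, 11, 8, 11, 11, 2, 7], .l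 [12, 9, 13, 13, 2, 10, 1], .l [5, 4, 12, 10, 8, 8, 2, 4, 3, 9, 5, 5, 3], .l [1, 13, 10, 8, 8, 2, 7], .l [14, 11, 8, 8, 2, 10, 1], .l [5, 4, 14, 12, 8, 8, 2, 4, 3, 7, 3, 3, 1], .l [1, 15, 12, 8, 8, 2, 9], .l [16, 13, 8, 8, 2, 12, 1]]),
([s 2 1, s 0 0, g, p 5 0, g, p 4 2, m 0 3, g, p 0 4, g, m 3 5, g, m 1 0, g], .lo 8, [.l [1, 7, 4, 7, 7, 2, 3], .l [3, 9, 4, 9, 9, 2, 3], .l [3, 9], .l [4, 1, 8, 10, 8, 2, 6], .l [3, 7], .l [4, 1, 10, 10, 6, 2, 6], .l [5, 9], .l [4, 1, 10, 10, 6, 2, 6], .l [7, 4, 10, 10, 2, 4, 9, 4, 1], .l [8, 9], .l [4, 1, 10, 3, 1, 8, 4, 0, 4], .l [7, 4, 10, 10, 2, 4, 9, 4, 1], .r 4972 [1, 2, 3, 4, 6, 5] [1, 1, 1, 1, 1, 1, 1], .l [7, 4, 10, 10, 2, 4, 9, 4, 1], .l [7, 4, 8, 8, 2, 4, 9, 4, 1],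 .l [2, 14, 11, 6, 8, 6, 6, 3, 6, 2, 3], .l [7, 4, 8, 8, 2, 4, 9, 4, 1], .y [0, 12, 8, 5], .l [7, 4, 8, 8, 2, 4, 7, 2, 7], .l [2, 12, 9, 6, 11, 9, 9, 6, 1, 5, 2], .l [7, 4, 8, 8, 2, 4, 7, 2, 7]]),
([s 2 1, s 0 0, g, p 4 0, g, p 0 2, m 0 3, g, m 3 4, g, m 1 0, g], .lo 5, [.l [1, 4, 1, 5, 5, 3, 0], .l [3, 6, 1, 7, 7, 5, 2], .l [3, 6], .l [6, 1, 8, 8, 6, 0, 2], .l [3, 4], .l [4, 1, 8, 8, 6, 2, 1], .l [5, 6], .l [4, 1, 8, 8, 6, 2, 1], .l [4, 1, 8, 8, 4, 0, 4], .r 4973 [1, 2, 3, 5, 4] [1, 1, 1, 1, 1, 1], .l [4, 1, 8, 8, 4, 0, 4], .l [4, 1, 6, 6, 4, 0, 4], .l [2, 12, 9, 4, 6, 3, 6, 2, 3], .l [4, 1, 6, 6, 4, 0, 4], .y [0, 10, 5], .l [4, 1, 6, 6, 4, 0, 6], .l [2, 10, 7, 4, 9, 6, 1, 5, 2], .l [4, 1, 6, 6, 4, 0, 6]]),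
([s 3 1, s 0 0, g, m 0 2, g, p 6 3, m 2 4, g, m 4 5, g, m 5 6, g, m 1 0, g], .hi 1, [.y [1], .l [7, 6, 1, 12, 6, 8, 7, 7, 5, 5, 3, 3, 1], .l [7, 6, 1], .R 4578 [3, 7] [1, 3, 8], .l [9, 10, 8, 8, 6, 8, 2, 6, 1, 4, 4, 2, 1], .l [8, 1, 11, 11, 9, 9, 0, 6, 3, 1, 3, 5, 1], .l [7, 6, 3], .l [11, 12, 10, 10, 8, 10, 2, 8, 3, 6, 6, 4, 1], .l [1, 7, 2, 9, 9, 7, 7, 0, 3, 6, 2, 4, 1], .l [1, 7, 2, 9, 9, 7, 7, 0, 3], .l [8, 3, 11, 11, 9, 9, 0, 6, 3], .l [1, 9, 4, 9, 9, 2, 2, 0, 3, 6, 2, 4, 1], .l [1, 9, 4, 9, 9, 2, 2, 0, 3], .l [10, 5, 11, 11, 2, 2, 0, 6, 3], .l [1, 11, 6, 4, 4, 2, 2, 0, 3, 6, 2, 4, 1], .l [1, 11, 6, 4, 4, 2, 2, 0, 3], .l [12, 7, 4, 4, 2, 2, 0, 6, 3], .l [5, 4, 12, 8, 4, 4, 2, 2, 0, 4, 3, 3, 1], .l [1,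 13, 8, 4, 4, 2, 2, 0, 5], .l [14, 9, 4, 4, 2, 2, 0, 8, 3]]),
([s 2 1, s 4 0, g, p 0 2, m 0 3, g, s 0 4, g, m 3 0, g, m 1 0, g], .hi 1, [.l [1, 7, 9, 7, 3, 8, 4, 5], .l [5, 4, 1], .l [1, 7, 9, 7, 3, 8, 4, 5], .l [3, 2, 1], .r 4801 [5, 2] [1, 7], .l [1, 7, 9, 5, 1, 8, 6, 3], .l [1, 7, 9, 5, 1, 8, 6, 3], .r 4776 [1, 5, 2, 3] [1, 1, 3, 1, 1], .y [1, 6], .l [1, 5, 9, 7, 1, 8, 6, 1], .l [1, 5, 9, 7, 1, 8, 6, 1], .r 4776 [1, 5, 2, 3] [1, 3, 1, 1, 1], .l [1, 5, 7, 5, 1, 8, 6, 3], .l [1, 5, 7, 5, 1, 8, 6, 3], .l [6, 4, 9, 4, 6, 3], .l [1, 5, 7, 5, 1, 6, 4, 5], .l [1, 5, 7, 5, 1, 6, 4, 5], .l [6, 4, 11, 6, 8, 5]]),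
([s 3 1, s 0 0, g, s 0 2, g, p 0 3, m 2 4, g, m 4 0, g, m 1 0, g], .lo 1, [.y [1], .r 4885 [1, 5, 3] [1, 3, 4, 1], .r 4578 [1, 5] [1, 8, 1], .l [7, 6, 1], .r 4885 [1, 5, 3] [3, 1, 4, 1], .r 4578 [1, 5] [3, 6, 1], .l [7, 6, 3], .r 4976 [1, 3, 4, 5] [3, 1, 1, 1, 1], .r 4462 [1, 3, 4, 5] [3, 1, 1, 1, 1], .l [1, 7, 9, 7, 3], .l [1, 7, 7, 5, 3], .l [6, 2, 9, 4, 6, 3], .l [6, 2, 9, 4, 6, 3], .l [5, 4, 8], .l [5, 4, 8], .l [6, 2, 11, 6, 8, 5], .l [6, 2, 11, 6, 8, 5], .l [5, 4, 10]]),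
([s 2 1, s 0 0, g, p 5 2, m 0 3, g, m 3 4, g, m 4 5, g, m 1 0, g], .lo 4, [.l [4, 1, 7, 7, 5, 5, 0, 2, 1], .r 4977 [1, 6, 2, 3] [1, 1, 1, 3, 1], .l [6, 2], .r 4975 [1, 6, 2, 3, 4, 5] [1, 1, 1, 1, 1, 1], .l [6, 1, 2, 7, 7, 5, 5, 0, 2], .l [6, 1], .l [4, 5], .l [8, 3, 4, 7, 1, 6, 1], .l [8, 3], .l [4, 7], .l [4, 9, 1, 6, 4, 5, 2], .l [10, 5], .l [4, 9], .y [0, 10, 4, 6, 8, 3], .l [4, 11, 3, 8, 4, 7, 4], .l [12, 7], .l [4, 11]]),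
([s 3 1, s 0 0, g, p 2 0, g, p 6 2, g, p 0 3, m 0 4, g, m 4 5, g, m 5 6, g, m 1 0, g], .hi 1, [.y [1], .l [9, 2, 13, 13, 11, 11, 9, 6, 1, 6, 8, 6, 1], .l [7, 0, 13, 13, 11, 11, 9, 1, 10, 8, 1], .R 4578 [3, 7] [1, 5, 8], .l [7, 0, 13, 13, 11, 11, 9, 1, 10, 8, 3, 1, 3], .l [7, 0, 13, 13, 11, 11, 9, 1, 10, 8, 3], .l [9, 2, 13, 13, 11, 11, 9, 6, 3, 6, 8, 6, 1], .l [5, 0, 13, 13, 11, 11, 9, 3, 10, 6, 7, 5, 1], .l [1, 6, 1, 11, 11, 9, 9, 7, 2], .l [5, 0, 13, 13, 11, 11, 9, 3, 10, 6, 7], .l [1, 6, 1, 9, 9, 7, 7, 5, 0], .l [8, 3, 11, 11, 9, 9, 2, 6, 3], .l [5, 0, 13, 13, 11, 11, 7, 1, 10, 8, 5, 3, 1], .l [1, 9, 4, 11, 11, 9, 9, 2, 5], .l [10, 5, 13, 13, 11, 11, 2, 8, 3], .l [5, 0, 13, 13, 9, 9, 7, 1, 10, 8, 5, 3, 1],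 .l [1, 11, 6, 11, 11, 4, 4, 2, 5], .l [12, 7, 13, 13, 4, 4, 2, 8, 3], .l [5, 0, 11, 11, 9, 9, 7, 1, 10, 8, 5, 3, 1], .l [1, 13, 8, 6, 6, 4, 4, 2, 5], .l [14, 9, 6, 6, 4, 4, 2, 8, 3], .l [5, 0, 11, 11, 9, 9, 7, 1, 8, 6, 7, 5, 1], .l [1, 15, 10, 6, 6, 4, 4, 2, 7], .l [16, 11, 6, 6, 4, 4, 2, 10, 3]]),
([s 2 1, s 0 0, g, p 5 0, g, p 0 2, m 0 3, g, m 3 4, g, m 4 5, g, m 1 0, g], .hi 3, [.l [3, 0, 9, 9, 7, 7, 5, 1, 6, 4, 1], .l [9, 4, 10, 5, 8, 8, 3, 5, 1], .r 4979 [1, 6, 2, 3, 4, 5] [1, 1, 1, 1, 1, 1, 1], .l [5, 1], .l [4, 1, 10, 10, 8, 8, 6, 2, 4], .l [3, 4], .l [5, 1], .l [3, 4], .y [3, 6, 8, 10], .l [3, 7, 9, 7, 1], .l [3, 7], .l [8, 4], .l [3, 9, 11, 9, 9, 7, 1], .l [3, 9], .l [10, 6], .l [11, 8, 6, 6, 4, 4,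 2, 4, 7, 2, 3], .l [3, 11], .l [12, 8], .l [13, 10, 6, 6, 4, 4, 2, 6, 4, 6, 3], .l [3, 13], .l [14, 10]]),
([s 2 1, s 6 0, g, p 0 2, m 0 3, g, m 3 4, g, m 4 5, g, m 5 0, g, m 1 0, g, s 0 6, g], .hi 10, [.l [3, 11, 11, 9, 9, 7, 7, 5, 1], .l [3, 0, 11, 11, 9, 9, 7, 7, 5, 1, 6, 4, 5], .l [3, 11], .l [3, 2, 12, 1, 9, 6, 6, 4, 4, 2, 2, 0, 1], .y [4, 6, 8, 10], .l [5, 8, 6, 2, 11, 8, 5], .l [3, 2, 14, 9, 5, 5, 3, 3, 1, 5, 3, 1, 3], .l [6, 11], .l [7, 10, 8, 8, 6, 2, 9, 6, 3], .l [4, 6, 5, 2, 13, 7, 3, 3, 1, 5, 3, 1, 3], .l [8, 11], .l [9, 12, 10, 10, 8, 8, 6, 2, 7, 4, 1], .l [6, 8, 7, 7, 5, 2, 11, 5, 1, 5, 3, 1, 3], .l [10, 11], .l [9, 10, 8, 8, 6, 6, 4, 2, 7, 4, 1], .l [7, 8, 6, 6, 4, 2, 10, 5, 1, 3, 4, 1], .l [8,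 10, 9, 9, 7, 11, 5, 1, 7, 2, 7, 3, 1], .l [9, 10, 8, 8, 6, 6, 4, 2, 5, 2, 5], .l [9, 10, 8, 8, 6, 6, 4, 2, 5, 2, 5], .l [6, 12, 5, 1, 9, 11, 3, 1, 7, 2, 7, 3, 1], .l [1, 13, 13, 9, 9, 7, 7, 5, 5, 3, 1, 4, 2], .l [9, 10, 8, 8, 6, 6, 4, 2, 5, 2, 7], .l [6, 8, 7, 7, 5, 2, 9, 3, 9, 3, 5, 1, 5], .l [1, 13, 15, 11, 11, 9, 9, 7, 7, 5, 1, 6, 4]]),
([s 2 1, s 5 0, g, p 0 2, m 0 3, g, m 3 4, g, s 0 5, g, m 4 0, g, m 1 0, g], .hi 1, [.l [1, 9, 11, 9, 9, 7, 3, 8, 4, 5], .l [5, 4, 1], .l [1, 9, 11, 9, 9, 7, 3, 8, 4, 5], .l [3, 2, 1], .l [4, 2, 7, 4, 4, 1], .l [1, 9, 11, 9, 9, 5, 1, 8, 6, 3], .l [1, 9, 11, 9, 9, 5, 1, 8, 6, 3], .l [6, 4, 9, 4, 6, 3], .l [1, 9, 11, 7, 7, 5, 1, 8, 6, 3], .l [1, 9, 11, 7, 7, 5, 1, 8, 6, 3],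 .l [4, 14, 9, 1, 11, 2, 7], .y [1, 8], .l [1, 7, 11, 9, 9, 7, 1, 8, 6, 1], .l [1, 7, 11, 9, 9, 7, 1, 8, 6, 1], .l [4, 14, 9, 1, 11, 2, 5], .l [1, 7, 9, 7, 7, 5, 1, 8, 6, 3], .l [1, 7, 9, 7, 7, 5, 1, 8, 6, 3], .l [4, 14, 9, 1, 11, 2, 3], .l [1, 7, 9, 7, 7, 5, 1, 6, 4, 5], .l [1, 7, 9, 7, 7, 5, 1, 6, 4, 5], .l [5, 14, 9, 1, 11, 9, 3, 8, 3]]),
([s 2 1, s 6 0, g, p 0 2, m 0 3, g, m 3 4, g, m 4 5, g, s 0 6, g, m 5 0, g, m 1 0, g], .hi 1, [.l [1, 11, 13, 11, 11, 9, 9, 7, 3, 8, 4, 5], .l [1, 11, 8, 9, 11, 8, 8, 6, 6, 4, 5, 7, 1], .l [1, 11, 13, 11, 11, 9, 9, 7, 3, 8, 4, 5], .l [1, 9, 6, 7, 9, 6, 6, 4, 4, 2, 3, 5, 1], .l [4, 2, 7, 10, 9, 9, 7, 7, 4, 4, 1, 5, 1], .l [1, 11, 13, 11, 11, 9, 9, 5, 1, 8, 6, 3], .l [1, 11,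 13, 11, 11, 9, 9, 5, 1, 8, 6, 3], .l [1, 11, 13, 11, 11, 9, 1, 8, 5, 1, 8, 6, 3], .l [1, 11, 13, 11, 11, 7, 7, 5, 1, 8, 6, 3], .l [1, 11, 13, 11, 11, 7, 7, 5, 1, 8, 6, 3], .l [12, 10, 10, 3, 5, 3, 10, 6, 6, 4, 1, 7, 5], .l [1, 11, 13, 9, 9, 7, 7, 5, 1, 8, 6, 3], .l [1, 11, 13, 9, 9, 7, 7, 5, 1, 8, 6, 3], .l [12, 10, 10, 1, 12, 8, 8, 6, 6, 4, 1, 7, 5], .y [1, 10], .l [1, 9, 13, 11, 11, 9, 9, 7, 1, 8, 6, 1], .l [1, 9, 13, 11, 11, 9, 9, 7, 1, 8, 6, 1], .l [10, 8, 11, 2, 11, 6, 6, 4, 4, 2, 5, 7, 1], .l [1, 9, 11, 9, 9, 7, 7, 5, 1, 8, 6, 3], .l [1, 9, 11, 9, 9, 7, 7, 5, 1, 8, 6, 3], .l [4, 16, 11, 1, 13, 2, 3], .l [1, 9, 11, 9, 9, 7, 7, 5, 1, 6, 4, 5], .l [1, 9, 11, 9, 9, 7, 7, 5, 1, 6, 4, 5], .l [9, 12, 10, 10,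 8, 8, 6, 2, 7, 4, 5, 7, 1]]),
([s 2 1, s 6 0, g, p 0 2, m 0 3, g, m 3 4, g, m 4 5, g, m 5 0, g, s 0 6, g, m 1 0, g], .hi 10, [.l [3, 11, 11, 9, 9, 7, 7, 5, 1], .l [1, 13, 10, 8, 8, 6, 6, 4, 4, 2, 3, 6, 2], .l [3, 11], .l [1, 11, 8, 6, 6, 4, 4, 2, 2, 0, 1, 4, 2], .y [4, 6, 8, 10], .l [5, 8, 6, 2, 13, 10, 5], .l [5, 8, 6, 2, 13, 10, 5], .l [6, 11], .l [7, 10, 8, 8, 6, 2, 11, 8, 3], .l [7, 10, 8, 8, 6, 2, 11, 8, 3], .l [8, 11], .l [9, 12, 10, 10, 8, 8, 6, 2, 9, 6, 1], .l [9, 12, 10, 10, 8, 8, 6, 2, 9, 6, 1], .l [10, 11], .l [9, 10, 8, 8, 6, 6, 4, 2, 9, 6, 1], .l [9, 10, 8, 8, 6, 6, 4, 2, 9, 6, 1], .l [5, 14, 9, 1, 11, 9, 12, 2, 9, 9, 7, 7, 5], .l [1, 11, 11, 9, 9, 7, 7, 5, 5, 3, 1, 4, 2], .l [9, 10, 8, 8, 6, 6,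 4, 2, 9, 6, 3], .l [7, 8, 6, 6, 4, 2, 6, 1, 6, 8, 4, 1], .l [1, 11, 13, 11, 11, 9, 9, 7, 7, 5, 1, 6, 4], .l [9, 10, 8, 8, 6, 6, 4, 2, 7, 4, 7], .l [9, 10, 8, 8, 6, 6, 4, 2, 7, 4, 7], .l [1, 11, 15, 13, 13, 11, 11, 9, 9, 7, 1, 4, 2]]),
([s 2 1, s 0 0, g, p 0 2, m 0 3, g, m 3 4, g, m 4 5, g, m 5 0, g, m 1 0, g], .lo 1, [.y [1], .r 4885 [1, 6, 2] [1, 1, 8, 1], .r 4578 [1, 6] [1, 10, 1], .l [5, 4, 1], .r 4976 [1, 2, 3, 6] [1, 1, 1, 5, 1], .r 4462 [1, 2, 3, 6] [1, 1, 1, 5, 1], .l [1, 5, 7, 5, 1], .r 4982 [1, 2, 3, 4, 6] [1, 1, 1, 1, 3, 1], .l [4, 14, 9, 1, 11, 2, 7], .l [1, 7, 9, 7, 7, 5, 1], .r 4983 [1, 2, 3, 4, 5, 6] [1, 1, 1, 1, 1, 1, 1], .l [4, 14, 9, 1, 11, 2, 5], .l [1, 9, 11, 9, 9, 7, 7, 5, 1], .l [1, 9,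 9, 7, 7, 5, 5, 3, 1], .r 4984 [1, 2, 3, 4, 5, 6] [1, 1, 1, 1, 1, 1, 1], .l [4, 14, 9, 1, 11, 2, 3], .l [3, 2, 10], .l [3, 2, 10], .r 4981 [1, 2, 3, 4, 5, 6] [1, 1, 1, 1, 1, 1, 1], .l [5, 14, 9, 1, 11, 9, 1, 8, 3], .l [3, 2, 12]]),
([s 2 1, s 0 0, g, p 0 2, m 0 3, g, m 3 4, g, m 4 5, g, m 1 0, g, m 5 6, g, m 6 0, g], .hi 1, [.y [1], .l [14, 16, 15, 15, 11, 11, 9, 9, 7, 4, 1, 7, 3], .l [5, 4, 1], .R 4578 [2, 7] [1, 1, 12], .l [3, 2, 1], .r 4801 [7, 2] [1, 11], .l [12, 14, 11, 11, 9, 11, 3, 1, 5, 2, 5, 7, 5], .l [1, 5, 7, 5, 1], .r 4776 [1, 7, 2, 3] [1, 1, 1, 3, 5], .l [8, 6, 11, 3, 6, 4, 9, 4, 4, 2, 4, 6, 3], .l [1, 7, 9, 7, 7, 5, 1], .l [4, 12, 7, 1, 9, 2, 5], .l [10, 8, 11, 1, 11, 6, 6, 4, 4, 2, 4, 6, 3], .l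 [1, 9, 13, 11, 11, 9, 9, 7, 1], .l [4, 12, 7, 1, 9, 2, 3], .l [11, 14, 10, 10, 8, 8, 6, 2, 7, 4, 5, 7, 3], .l [1, 11, 13, 9, 9, 7, 7, 5, 1], .l [5, 12, 7, 1, 9, 7, 1, 6, 3], .l [1, 13, 15, 13, 13, 9, 9, 7, 7, 5, 1, 6, 4], .l [1, 13, 15, 13, 13, 9, 9, 7, 7, 5, 1], .l [5, 14, 9, 1, 11, 9, 1, 8, 5], .l [5, 6, 4, 2, 12, 7, 8, 7, 1, 6, 3, 3, 1], .l [3, 2, 14], .l [5, 16, 11, 1, 13, 11, 1, 10, 7]]),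
([s 2 1, s 0 0, g, p 0 2, m 0 3, g, m 3 4, g, m 4 5, g, m 1 0, g, m 5 0, g], .hi 12, [.l [1, 11, 11, 7, 7, 5, 5, 3, 1], .l [3, 13, 13, 9, 9, 7, 7, 5, 1], .l [9, 10, 8, 4, 10, 4, 7, 5, 8, 2, 5], .l [3, 13], .l [7, 8, 6, 2, 8, 4, 7, 5, 6, 0, 3], .y [4, 6, 8, 12], .l [5, 8, 6, 2, 9, 6, 9], .l [5, 8, 6, 2, 9, 6, 9], .l [6, 13], .l [7, 10, 8, 8, 6, 2, 7, 4, 7], .l [7, 10, 8, 8, 6, 2, 7, 4, 7], .l [8, 13], .l [9, 14, 12, 12, 10, 10, 8, 2, 5, 2, 5], .l [9, 14, 12, 12, 10, 10, 8, 2, 5, 2, 5], .l [10, 13], .l [11, 14, 10, 10, 8, 8, 6, 2, 7, 4, 1], .l [11, 14, 10, 10, 8, 8, 6, 2, 7, 4, 1], .l [12, 13], .l [11, 12, 8, 8, 6, 6, 4, 2, 5, 2, 5], .l [11, 12, 8, 8, 6, 6, 4, 2, 5, 2, 5], .r 4986 [1, 2, 3, 4, 5, 6] [1, 1, 1,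 1, 1, 1, 1]]),
([s 2 1, s 0 0, g, p 0 2, m 0 3, g, m 3 4, g, m 4 0, g, m 1 0, g], .hi 8, [.l [1, 7, 7, 5, 5, 3, 1], .l [3, 9, 9, 7, 7, 5, 1], .r 4980 [1, 2, 3, 4, 5] [1, 1, 1, 1, 1, 1], .l [3, 9], .r 4978 [1, 2, 3, 4, 5] [1, 1, 1, 1, 1], .y [4, 6, 8], .l [5, 8, 6, 2, 9, 6, 3], .l [5, 8, 6, 2, 9, 6, 3], .l [6, 9], .l [7, 10, 8, 8, 6, 2, 7, 4, 1], .l [7, 10, 8, 8, 6, 2, 7, 4, 1], .l [8, 9], .l [7, 8, 6, 6, 4, 2, 7, 4, 1], .l [7, 8, 6, 6, 4, 2, 7, 4, 1], .r 4985 [1, 2, 3, 4, 5] [1, 1, 1, 1, 1, 1], .l [7, 8, 6, 6, 4, 2, 5, 2, 5], .l [7, 8, 6, 6, 4, 2, 5, 2, 5], .r 4987 [1, 2, 3, 4, 5] [1, 1, 1, 1, 1, 1]]),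
([s 2 1, s 0 0, g, p 0 2, m 0 3, g, m 3 0, g, m 1 0, g], .hi 6, [.l [1, 5, 5, 3, 1], .l [3, 7, 7, 5, 1], .r 4974 [1, 2, 3, 4] [1, 1, 1, 1, 1], .l [3, 7], .r 4971 [1, 2, 3, 4] [1, 1, 1, 1], .y [4, 6], .l [5, 8, 6, 2, 7, 4, 1], .l [5, 8, 6, 2, 7, 4, 1], .l [6, 7], .l [5, 6, 4, 2, 7, 4, 1], .l [5, 6, 4, 2, 7, 4, 1], .r 4988 [1, 2, 3, 4] [1, 1, 1, 1, 1], .l [5, 6, 4, 2, 5, 2, 5], .l [5, 6, 4, 2, 5, 2, 5], .r 4967 [1, 2, 3, 4] [1, 1, 1, 1, 1]]),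
([s 2 1, s 0 0, g, p 0 2, m 0 0, g, m 1 0, g], .hi 4, [.l [1, 3, 1], .l [3, 5, 1], .r 4958 [1, 2, 3] [1, 1, 1, 1], .l [3, 5], .r 4964 [1, 2, 3] [1, 1, 1], .y [4], .l [3, 2, 7, 4, 1], .l [3, 2, 7, 4, 1], .r 4989 [1, 2, 3] [1, 1, 1, 1], .l [3, 2, 5, 2, 5], .l [3, 2, 5, 2, 5], .r 4951 [1, 2, 3] [1, 1, 1, 1]]),
([s 2 1, s 0 0, g, p 0 2, g, m 1 0, g], .top 4, [.r 4947 [1, 2] [1, 1], .r 4851 [1, 2] [1, 1, 1], .r 4939 [1, 2] [1, 1, 1], .r 4990 [1, 2] [1, 1, 1]])]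

def d19_2 : List (List Item × Qry × List Rf) := [
([s 0 1, s 0 0, g, m 1 0, g], .lo 0, [.c, .l [2], .r 4991 [1, 2] [1, 1, 1], .l [2], .y [0, 3], .l [4], .R 4991 [2, 1] [1, 1, 1], .l [4]]),
([s 0 0, s 0 0, g], .hi 0, [.y [0], .c, .l [2], .l [2], .r 4992 [1] [1, 1]]),
([s 0 0, g], .top 1, [.r 4347 [] [], .r 4993 [] [1], .r 4346 [] [1], .R 4346 [] [1]])]

def D19 : List (List (List Item × Qry × List Rf)) := [d19_0, d19_1, d19_2]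

end Pool.Agent.H63.PU.C161
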