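import Pool.Agent.H63.PU.C161.D00
import Pool.Agent.H63.PU.C161.D01
import Pool.Agent.H63.PU.C161.D02
import Pool.Agent.H63.PU.C161.D03
import Pool.Agent.H63.PU.C161.D04
import Pool.Agent.H63.PU.C161.D05
import Pool.Agent.H63.PU.C161.D06
import Pool.Agent.H63.PU.C161.D07
import Pool.Agent.H63.PU.C161.D08
import Pool.Agent.H63.PU.C161.D09
import Pool.Agent.H63.PU.C161.D10
import Pool.Agent.H63.PU.C161.D11
import Pool.Agent.H63.PU.C161.D12
import Pool.Agent.H63.PU.C161.D13
import Pool.Agent.H63.PU.C161.D14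
import Pool.Agent.H63.PU.C161.D15
import Pool.Agent.H63.PU.C161.D16
import Pool.Agent.H63.PU.C161.D17
import Pool.Agent.H63.PU.C161.D18
import Pool.Agent.H63.PU.C161.D19

/-! The certificate. -/

namespace Pool.Agent.H63.PU.C161

open Pool.Agent.H63.PU Pool.Agent.H63.PU.Ck3

def chunks : List (List (List (List Item × Qry × List Rf))) := [D00, D01, D02, D03, D04, D05, D06, D07, D08, D09, D10, D11, D12, D13, D14, D15, D16, D17, D18, D19]

def cert : Ck3.Cert := fun j =>
  (((chunks.getD (j / 256) []).getD ((j % 256) / 64) []).getD (j % 64) ([], .hi 0, []))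

def W : Wts := ⟨161, 205, 100⟩

end Pool.Agent.H63.PU.C161
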