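import Pool.Agent.H63.PU.Ck3

/-! Certificate data, machine generated. -/

namespace Pool.Agent.H63.PU.C161

open Pool.Agent.H63.PU Pool.Agent.H63.PU.Ck3 Pool.Agent.H63.PU.Short

set_option maxRecDepth 20000

def d00_0 : List (List Item × Qry × List Rf) := [
([p 0 0, p 2 1, g, s 1 0, g, p 0 2, g], .hi 0, [.y [0], .l [5, 3, 6, 2, 3], .l [0, 2], .l [3, 2], .l [3, 1, 6, 4, 1], .l [0, 4], .l [5, 4], .l [0, 4], .l [3, 1, 4, 2, 3], .l [0, 6], .l [7, 6]]),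
([p 4 1, p 3 2, m 0 0, g, p 0 3, g, s 1 0, g, p 0 4, g, s 2 0, g], .hi 2, [.y [2], .l [1, 10, 8, 1, 3, 6, 1], .l [1, 11, 9, 1, 3, 8, 3], .l [2, 10, 7, 1, 7, 8, 3, 6, 1], .l [1, 9, 7, 1, 1, 6, 3], .l [5, 10, 4, 5, 8], .l [1, 4, 3, 9, 8, 3], .l [1, 11, 7, 0, 9, 4, 1, 2, 3], .l [7, 10, 2, 3, 8], .l [0, 5, 3, 6, 8, 6, 1], .l [0, 5, 7, 3, 8], .l [0, 5, 3, 6, 6, 4, 1], .l [12, 10, 7], .l [1, 4, 3, 7, 6, 7], .l [0, 5, 9, 5, 8], .l [10, 8, 10], .l [1, 4, 3, 7, 6, 9], .l [0, 5, 11, 7, 4]]),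
([p 3 1, p 4 2, m 0 0, g, p 0 3, g, p 0 4, g, s 1 0, g, s 2 0, g], .hi 2, [.y [2], .l [3, 6, 2, 3, 8], .l [0, 9, 7, 1, 3, 6, 1], .l [0, 9, 5, 2, 7, 2, 4, 2, 5], .l [0, 7, 5, 1, 1, 4, 1], .l [1, 4, 2, 4, 6, 4, 5], .l [1, 11, 9, 3, 5, 8, 1], .l [1, 11, 7, 0, 8, 5, 1, 6, 3], .l [1, 9, 7, 3, 3, 6, 1], .l [12, 10, 5], .l [1, 4, 2, 6], .l [12, 10, 11, 8, 10, 6, 1, 2, 5], .l [12, 10, 7], .l [1, 4, 2, 8], .l [0, 7, 9, 3, 8], .l [10, 8, 10], .l [1, 4, 2, 10], .l [0, 7, 11, 5, 2]]),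
([p 0 1, p 3 2, m 0 0, g, p 0 3, g, s 1 0, g, s 2 0, g], .lo 0, [.l [1], .l [3], .r 2 [1, 2, 4, 3] [1, 1, 1, 1, 1], .l [3], .l [5], .l [10, 8, 9, 4, 1, 2, 3], .l [5], .y [0, 6], .l [7], .r 1 [1, 2, 3, 4] [1, 1, 1, 1, 1], .l [7], .l [7], .l [9], .l [8, 6, 9, 1, 4, 2, 3], .l [9]]),
([p 0 1, p 0 2, m 0 0, g, s 1 0, g, s 2 0, g], .lo 1, [.l [0, 3, 2, 0, 3], .l [6, 5, 2], .r 3 [1, 2, 3] [1, 1, 1, 1], .l [1, 7, 3, 5, 2], .l [4, 3, 2], .l [4, 3, 4], .l [8, 6, 2, 6, 1], .l [1, 7, 1, 5, 2], .y [1, 6], .l [4, 3, 6], .l [6, 4, 7, 2, 3], .l [4, 3, 6]]),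
([p 5 1, p 4 2, m 0 3, g, p 0 4, g, m 3 0, g, s 2 0, g, s 1 0, g, p 0 5, g], .lo 2, [.l [4, 1, 5, 2, 8], .l [4, 1], .l [2, 3], .l [6, 3, 4, 2, 6, 4, 5], .l [6, 3], .l [2, 5], .y [2, 6], .l [1, 9, 1, 5, 1, 5, 9, 8, 1], .l [8, 5], .l [2, 7], .l [2, 7, 7, 0, 3, 2, 5], .l [10, 7, 8, 6, 12, 3, 8, 2, 7], .l [10, 7], .l [2, 9], .l [10, 9, 1, 8, 10, 1, 6, 4, 5], .l [12, 9, 10, 8, 12, 1, 8, 4, 7], .l [12, 9], .l [2, 11], .l [1, 14, 11, 1, 11, 4, 1, 2, 5], .l [14, 11], .l [2, 13]]),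
([p 0 1, p 4 2, m 0 3, g, p 0 4, g, m 3 0, g, s 2 0, g, s 1 0, g], .lo 0, [.l [3], .l [0, 11, 1, 8, 2, 8, 3], .l [3], .l [5], .l [0, 11, 1, 8, 8, 5, 1, 6, 3], .l [5], .l [5], .l [7], .l [2, 8, 5, 1, 4, 8, 6, 2, 3], .l [7], .l [7], .l [9], .l [2, 10, 7, 1, 6, 8, 4, 2, 3], .l [9], .y [0, 10], .l [11], .r 5 [1, 2, 3, 4, 5] [1, 1, 1, 1, 1, 1], .l [11]]),
([p 0 1, p 3 2, m 0 0, g, p 0 3, g, s 2 0, g, s 1 0, g], .hi 2, [.l [1], .y [2], .l [8, 6, 1], .l [1, 7, 5, 1, 3, 4, 5], .l [2, 6, 4, 8, 1, 2, 3], .l [1, 5, 3, 1, 1, 2, 3], .l [8, 6, 3], .l [8, 6, 3], .r 6 [1, 2, 4, 3] [1, 1, 1, 1, 1], .l [6, 4, 6], .l [6, 4, 6], .l [6, 4, 4, 1, 6, 2, 5], .l [6, 4, 8], .l [6, 4, 8], .l [0, 7, 9, 3, 6]]),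
([p 0 1, p 0 2, m 0 0, g, s 2 0, g, s 1 0, g], .lo 1, [.l [0, 5, 4, 0, 1], .l [8, 7, 2], .r 7 [1, 2, 3] [1, 1, 1, 1], .l [1, 5, 1, 3, 4], .y [1, 4], .l [8, 7, 4], .l [4, 2, 5, 2, 5], .l [8, 7, 4], .l [6, 5, 4], .l [6, 5, 6], .l [4, 2, 7, 4, 1], .l [6, 5, 6]]),
([p 0 0, p 0 1, m 0 0, g, s 1 0, g], .hi 0, [.y [0], .c, .l [2, 1], .r 4 [2, 1] [1, 1, 1], .l [0, 3], .l [4, 3], .r 8 [2, 1] [1, 1, 1], .l [0, 5], .l [6, 5]]),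
([p 5 1, p 3 2, p 4 3, s 0 0, g, p 6 4, g, s 1 0, g, p 0 5, g, s 0 6, g, s 2 0, g], .hi 3, [.y [3], .l [4, 7, 4, 9, 7, 2, 6], .l [2, 7, 6, 10, 8, 1, 3, 6, 1], .l [5, 1, 6, 3, 11], .l [15, 13, 13, 12, 3, 12, 4, 10, 6, 1], .l [4, 5, 2, 9, 7, 9, 1, 8, 1], .l [3, 11, 7, 1, 7, 11, 6, 2, 8], .l [15, 13, 13, 12, 5, 12, 4, 8, 4, 7], .l [4, 5, 2, 9, 7, 9, 1, 8, 3], .l [3, 11, 7, 1, 7, 11, 8, 4, 8], .l [4, 5, 2, 7, 5, 7, 1, 6, 3], .l [10, 13, 7, 7, 4, 9, 7, 2, 6, 1], .l [15, 13, 13, 12, 7], .l [4, 5, 2, 7, 5, 9, 3, 8, 5], .l [4, 5, 2, 7, 5, 7, 7, 0, 4], .l [4, 5, 2, 7, 5, 7, 9, 2, 6, 1], .l [4, 5, 2, 7, 5, 7, 1, 6, 7], .l [4, 5, 2, 7, 5, 7, 9, 2, 6], .l [1, 12, 9, 13, 3, 1, 6, 1, 4, 5], .l [4, 5, 2, 7, 5, 7, 1, 6,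 9], .l [1, 12, 14, 4, 1]]),
([p 5 1, p 3 2, p 4 3, m 0 0, g, p 0 4, g, s 1 0, g, p 0 5, g, s 2 0, g], .hi 3, [.y [3], .l [2, 7, 6, 10, 8, 1, 3, 6, 1], .l [1, 12, 9, 1, 7, 8, 0, 8, 1], .l [3, 7, 5, 11, 5, 7, 1, 8, 3], .l [1, 10, 7, 1, 5, 6, 0, 6, 1], .l [6, 11, 4, 6, 8, 7, 8], .l [1, 12, 9, 3, 7, 8, 1], .l [2, 11, 8, 2, 9, 10, 5, 1, 3, 6, 1], .l [8, 11, 2, 4, 6, 5, 8], .l [1, 12, 9, 5, 7, 8, 3], .l [0, 6, 8, 4, 6, 5, 8], .l [1, 10, 7, 5, 5, 6, 3], .l [13, 11, 11, 10, 7], .l [2, 5, 4, 4, 3, 7, 6, 7], .l [0, 6, 10, 6, 8, 7, 8], .l [11, 9, 9, 8, 10], .l [1, 10, 7, 11, 3, 1, 4], .l [0, 6, 12, 8, 10, 9, 4]]),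
([p 7 1, p 3 2, p 4 3, p 0 0, g, p 0 4, g, s 1 0, g, s 6 5, g, s 0 6, g, p 5 7, g, s 2 0, g], .hi 3, [.y [3], .l [5, 1, 6, 3, 13], .l [3, 4], .l [5, 1], .l [3, 4], .l [3, 6, 12, 1, 10, 3, 11, 3, 1, 1, 6, 1, 6, 1], .l [3, 6], .l [7, 3], .l [3, 8, 12, 1, 8, 3, 11, 5, 3, 3, 6, 1, 6, 1], .l [3, 8], .l [9, 5], .l [3, 10, 1, 10, 6, 3, 11, 3, 1, 1, 6, 1, 6, 1], .l [3, 10], .l [11, 7], .l [3, 10, 1, 10, 6, 3, 4, 7, 7, 2, 1, 2, 3], .l [13, 9, 14, 1, 14, 11, 8], .l [3, 12], .l [13, 9], .l [15, 11, 7, 1, 12, 4, 6, 3, 9, 1, 6, 1, 6, 1], .l [3, 14], .l [15, 11], .l [17, 13, 16, 6, 1, 3, 11], .l [3, 16], .l [17, 13]]),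
([p 7 1, p 3 2, p 4 3, g, p 8 4, g, s 1 0, g, s 6 5, g, s 0 6, g, p 5 7, g, s 0 8, g, s 2 0, g], .top 3, [.l [15, 13, 13, 12, 9], .r 10 [1, 2, 3, 4, 7, 8] [1, 1, 5, 1, 1, 1], .r 12 [1, 2, 3, 4, 5, 6, 7] [1, 1, 1, 1, 1, 3, 1], .r 11 [1, 2, 3, 4, 7] [1, 1, 5, 3, 1]]),
([p 6 1, p 3 2, p 4 3, g, p 7 4, g, s 1 0, g, s 0 5, g, p 5 6, g, s 0 7, g, s 2 0, g], .lo 8, [.l [0, 7, 3, 7, 7, 7, 11, 8, 1, 3, 6, 3], .l [4, 9, 9, 9, 13, 6, 6, 5, 6, 4, 6, 2, 5], .l [9, 12, 2, 5, 3, 3, 5, 3, 8], .l [3, 4, 2, 13, 5, 1, 1, 8, 5, 3, 5, 1, 4, 1], .l [1, 15, 5, 1, 1, 10, 4, 9, 5, 8, 5, 3, 5], .l [2, 4, 3, 14, 3, 3, 7, 3, 3, 7, 1, 6, 1], .y [0, 6, 8, 10], .l [3, 4, 2, 13, 5, 1, 1, 8, 5, 1, 5, 1, 4, 1], .l [2, 4, 3, 14, 5, 1, 1, 9,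 1, 8, 5, 1, 3], .l [2, 4, 3, 14, 3, 3, 5, 1, 1, 7, 1, 6, 3], .r 13 [1, 2, 3, 4, 5, 8, 6, 7] [1, 1, 1, 1, 1, 1, 1, 1], .l [3, 4, 2, 2, 1, 2, 6, 1, 6, 2, 5, 3, 1], .l [1, 8, 11, 5, 1, 6, 3, 6, 6, 4, 1], .l [3, 4, 2, 13, 3, 5, 1, 8, 5, 1, 5, 1, 4, 1], .l [12, 3, 11, 9, 9, 7, 9, 5, 5, 3, 3, 2, 3], .l [2, 4, 3, 14, 7, 1, 1, 9, 1, 8, 5, 3, 3], .l [3, 4, 2, 13, 1, 5, 1, 8, 5, 1, 5, 1, 4, 1], .l [3, 4, 2, 13, 7, 1, 1, 8, 5, 1, 5, 1, 4], .l [2, 4, 3, 14, 7, 1, 1, 9, 1, 8, 5, 1, 3], .l [1, 13, 3, 3, 11, 7, 3, 7, 3, 1, 1, 0, 3], .l [1, 13, 5, 13, 3, 1, 4, 6, 4, 4, 2, 3], .l [3, 4, 2, 14, 7, 1, 10, 7, 3, 7, 1, 6, 3], .l [8, 15, 3, 9, 9, 7, 7, 6, 7, 5, 7, 1, 5]]),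
([p 6 1, p 3 2, p 4 3, g, p 7 4, g, s 0 5, g, s 1 0, g, p 5 6, g, s 0 7, g, s 2 0, g], .hi 8, [.l [9, 12, 2, 5, 7, 5, 5, 4, 1], .l [0, 9, 9, 3, 5, 3, 10], .l [10, 9, 3, 8, 10, 1, 6, 2, 9], .l [3, 4, 2, 13, 7, 3, 3, 8, 3, 1, 3, 1, 4, 1], .l [0, 9, 13, 7, 7, 5, 10, 3, 7, 7, 5, 1, 5], .l [1, 8, 11, 5, 1, 2, 6, 3, 6, 2, 3], .y [0, 8, 6, 10], .l [3, 4, 2, 13, 7, 1, 3, 8, 3, 1, 5, 3, 4, 1], .l [0, 9, 13, 7, 7, 5, 10, 1, 7, 7, 5, 1, 5], .l [2, 12, 9, 1, 9, 12, 9, 1, 5, 8, 3], .l [3, 4, 2, 13, 9, 5, 5, 8, 1, 5, 1, 3, 4, 1], .l [2, 4, 3, 14, 9, 5, 5, 9, 1, 8, 1, 1, 1], .l [3, 4, 2, 2, 1, 4, 6, 1, 6, 4, 5], .l [3, 4, 2, 13, 3, 5, 1, 8, 5, 3, 5, 1, 4, 1], .l [2, 4, 3, 14, 9, 3, 3, 9, 1, 8, 1, 1, 1], .l [1, 6, 9, 5,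 1, 2, 8, 5, 1, 4, 1], .l [7, 10, 2, 9, 9, 5, 5, 3, 6, 5, 1, 1, 3], .l [3, 4, 2, 13, 1, 5, 1, 8, 5, 3, 5, 1, 4, 1], .l [0, 7, 11, 7, 7, 5, 10, 1, 7, 7, 5, 1, 5], .l [1, 6, 9, 5, 1, 2, 10, 7, 1, 6, 3], .l [3, 4, 2, 11, 5, 11, 3, 1, 8, 1, 6, 3], .l [1, 13, 5, 13, 3, 1, 10], .l [1, 6, 9, 5, 1, 2, 12, 9, 1, 8, 5]]),
([p 5 1, p 3 2, p 4 3, g, p 6 4, g, s 1 0, g, p 0 5, g, s 0 6, g, s 2 0, g], .lo 8, [.l [9, 10, 0, 3, 5, 3, 8], .l [4, 9], .l [1, 13, 9, 5, 5, 8, 5], .r 15 [1, 2, 3, 4, 7, 5, 6] [1, 1, 1, 1, 1, 1, 1], .l [6, 9], .l [1, 13, 7, 3, 3, 8, 0, 8, 1], .y [0, 6, 8], .r 14 [1, 2, 3, 4, 7, 5, 6] [1, 1, 1, 1, 1, 1, 1], .l [8, 9], .l [1, 13, 5, 1, 1, 8, 0, 8, 3], .l [0, 5, 11, 9, 9, 7, 8, 5, 1, 3, 4, 1], .l [3,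 8, 4, 9, 3, 8, 4, 8, 3, 5, 3, 4, 1], .l [2, 8, 5, 1, 5, 10, 3, 7, 3, 6, 3], .l [7, 3, 8, 12, 8, 3, 9, 0, 2, 4, 2, 3], .l [9, 12, 10, 10, 2, 5, 5, 3, 6], .l [2, 8, 5, 1, 5, 10, 1, 7, 3, 6, 3], .l [1, 11, 11, 7, 3, 7, 3, 1, 2, 1, 3, 1, 1], .l [1, 11, 3, 11, 3, 1, 4, 6, 4, 4, 2, 3], .l [9, 14, 12, 12, 4, 7, 7, 5, 2], .l [1, 11, 3, 11, 3, 1, 4]]),
([p 5 1, p 3 2, p 4 3, g, p 0 4, g, s 1 0, g, p 0 5, g, s 2 0, g], .lo 4, [.l [3, 6, 4, 8, 6, 1, 1, 4, 1], .l [4, 5], .l [1, 11, 7, 1, 5, 6, 0, 6, 1], .l [5, 10, 4, 7, 7, 5, 6], .l [2, 10, 7, 1, 7, 8, 3, 1, 1, 4, 1], .l [1, 11, 7, 1, 5, 6, 1], .l [0, 5, 5, 3, 3, 1, 4], .l [7, 10, 2, 5, 5, 3, 6], .l [0, 5, 7, 5, 5, 3, 6], .l [1, 11, 7, 3, 5, 6, 3], .r 16 [1, 2, 3, 4,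 5, 6] [1, 1, 1, 1, 1, 1], .l [0, 5, 9, 7, 7, 5, 6], .l [3, 4, 2, 2, 1, 5, 4, 5], .y [1, 10, 4, 2], .l [1, 9, 5, 9, 3, 1, 4, 1, 2, 3], .l [0, 5, 11, 9, 9, 7, 4], .l [1, 9, 5, 9, 3, 1, 4]]),
([p 4 1, p 0 2, p 3 0, g, p 0 3, g, s 1 0, g, p 0 4, g, s 2 0, g], .lo 1, [.r 17 [1, 2, 5, 3, 4] [1, 1, 1, 1, 1], .l [0, 10, 9, 2, 4, 2, 7], .l [1, 11, 7, 0, 9, 4, 1, 2, 3], .l [0, 7, 6, 2, 4, 2, 7], .l [5, 10, 4, 4, 1], .l [2, 10, 7, 1, 7, 8, 3, 6, 1], .l [0, 10, 9, 4], .l [5, 8, 2, 2, 1], .l [6, 5, 6], .l [2, 10, 7, 1, 7, 8, 5, 6, 3], .l [0, 10, 9, 6], .l [6, 5, 8], .l [12, 10, 4, 10, 1], .l [0, 8, 7, 8], .y [1, 10], .l [6, 5, 10], .l [10, 8, 9, 2, 10, 8, 1], .l [0, 8, 7, 10]]),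
([p 3 1, p 0 2, p 0 0, g, s 1 0, g, p 0 3, g, s 2 0, g], .lo 2, [.y [2], .l [3, 8, 4, 5, 6], .r 18 [1, 2, 4, 3] [1, 1, 1, 1, 1], .l [1, 8, 6, 1], .l [0, 3, 3, 1, 4], .l [5, 8, 2, 3, 6], .l [0, 3, 5, 3, 6], .l [1, 8, 6, 3], .l [10, 8, 5], .l [0, 3, 7, 5, 6], .l [1, 6, 4, 6], .l [8, 6, 5], .l [8, 6, 8], .l [0, 3, 9, 7, 4], .l [1, 6, 4, 8]]),
([p 3 1, p 0 2, g, s 1 0, g, s 2 0, g, p 0 3, g], .lo 1, [.l [2, 9, 6, 6, 3], .l [7, 5, 8, 1, 4, 2, 3], .l [0, 9, 8, 1], .l [2, 7, 4, 4, 3], .l [3, 2, 3], .l [7, 5, 1, 4, 1], .l [0, 9, 8, 3], .y [1, 5], .l [3, 2, 5], .l [5, 3, 6, 2, 3], .l [0, 9, 8, 5], .l [3, 2, 7], .l [5, 3, 8, 4, 5], .l [0, 7, 6, 7]]),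
([p 3 1, p 4 2, p 0 0, g, p 0 3, g, p 0 4, g, s 1 0, g, s 2 0, g], .lo 2, [.y [2], .l [3, 6, 2, 3, 8], .l [0, 9, 5, 2, 7, 2, 4, 2, 5], .l [0, 9, 7, 1, 3, 6, 1], .l [1, 4, 2, 4, 6, 4, 5], .l [1, 11, 7, 0, 8, 5, 1, 6, 3], .l [1, 11, 9, 3, 5, 8, 1], .l [12, 10, 5], .l [12, 10, 11, 8, 10, 6, 1, 2, 5], .l [1, 4, 2, 6], .l [0, 7, 7, 1, 6], .l [12, 10, 7], .l [0, 7, 9, 3, 8], .l [1, 4, 2, 8], .l [10, 8, 7], .l [10, 8, 10], .l [0, 7, 11, 5, 2], .l [1, 4, 2, 10]]),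
([p 3 1, p 0 2, p 0 0, g, p 0 3, g, s 1 0, g, s 2 0, g], .lo 1, [.l [8, 6, 7, 4, 1, 2, 3], .l [3, 6, 2, 2, 4], .l [10, 8, 9, 4, 1, 2, 3], .l [0, 6, 5, 2], .l [8, 7, 4], .r 21 [1, 2, 3, 4] [1, 1, 1, 1, 1], .l [0, 4, 3, 4], .l [6, 5, 4], .l [6, 5, 6], .l [10, 8, 4, 8, 1], .l [0, 4, 3, 6], .y [1, 8], .l [6, 5, 8], .l [8, 6, 7, 4, 8, 4, 5], .l [0, 4, 3, 8]]),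
([p 3 1, p 5 2, p 4 3, g, p 6 4, g, p 0 5, g, s 0 6, g, s 1 0, g, s 2 0, g], .lo 6, [.l [3, 6, 4, 4, 2, 4, 4, 2, 5], .l [4, 7], .l [0, 11, 7, 3, 8, 4, 6, 2, 7], .l [1, 13, 7, 1, 1, 9, 4, 1, 4, 2, 0, 1], .l [6, 7], .l [1, 13, 7, 1, 1, 9, 4], .l [13, 7, 1, 5, 9, 4, 6, 4, 4, 2, 4, 1], .l [3, 6, 3, 9, 5, 7, 1, 8, 4, 6, 4, 0, 1], .l [3, 6, 3, 1, 3, 10, 5, 8, 2, 0, 3], .l [5, 1, 6, 12, 8, 1, 3, 7, 4, 6, 2, 3], .l [3, 4, 2, 2, 0, 4, 6, 4, 4, 2, 3], .l [3, 6, 3, 1, 3, 10, 3, 8, 2, 0, 1], .l [1, 6, 5, 8, 8, 4, 1, 4, 2, 0, 1], .l [0, 9, 3, 9, 3, 1, 6], .l [3, 4, 2, 2, 0, 4, 8, 6, 6, 4, 1], .l [0, 9, 3, 9, 3, 1, 6], .y [1, 12, 6], .l [0, 9, 3, 11, 5, 1, 8], .l [3, 4, 2, 2, 0, 4, 10, 8, 8, 6, 1], .l [0, 9, 3, 11, 5,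 1, 8]]),
([p 3 1, p 5 2, p 4 3, g, p 0 4, g, p 0 5, g, s 1 0, g, s 2 0, g], .lo 4, [.l [3, 8, 5, 6, 5, 1, 1, 2, 5], .l [4, 5], .l [1, 11, 7, 1, 3, 7, 2], .l [3, 4, 2, 2, 0, 2, 4, 2, 3], .l [4, 8, 4, 8, 1, 4, 2, 4, 1, 2, 3], .l [0, 9, 5, 1, 6, 2, 4, 2, 5], .r 23 [1, 2, 3, 4, 5, 6] [1, 1, 1, 1, 1, 1], .l [1, 11, 5, 0, 9, 4, 1, 4, 2, 0, 1], .l [3, 4, 2, 2, 0, 4], .y [0, 8, 4, 2], .l [0, 7, 3, 7, 3, 1, 2], .l [0, 7, 9, 5, 5, 3, 6], .l [0, 7, 3, 7, 3, 1, 2], .l [0, 7, 3, 7, 3, 1, 2], .l [0, 7, 3, 9, 5, 1, 4], .l [0, 7, 11, 7, 7, 5, 2], .l [0, 7, 3, 9, 5, 1, 4]]),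
([p 3 1, p 4 2, p 0 3, g, p 0 4, g, s 1 0, g, s 2 0, g], .lo 2, [.l [1, 2, 0, 2, 4, 2, 3], .r 24 [1, 2, 3, 5, 4] [1, 1, 1, 1, 1], .l [1, 9, 7, 1, 3, 6, 1], .l [10, 8, 3], .l [10, 8, 9, 8, 8, 4, 1, 2, 3], .l [1, 2, 0, 4], .y [0, 6, 2], .l [10, 8, 5], .l [0, 5, 7, 3, 6], .l [1, 2, 0, 6], .l [8, 6, 5], .l [8, 6, 8], .l [0, 5, 9, 5, 2], .l [1, 2, 0, 8]]),
([p 3 1, p 0 2, p 0 3, g, s 1 0, g, s 2 0, g], .lo 1, [.l [6, 5, 2], .r 25 [1, 2, 3, 4] [1, 1, 1, 1], .l [0, 2, 1, 2], .l [4, 3, 2], .l [4, 3, 4], .l [8, 6, 2, 6, 1], .l [0, 2, 1, 4], .y [1, 6], .l [4, 3, 6], .l [6, 4, 5, 4, 6, 2, 3], .l [0, 2, 1, 6]]),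
([p 0 1, p 0 2, p 0 0, g, s 1 0, g, s 2 0, g], .lo 0, [.r 26 [1, 2, 3] [1, 1, 1], .l [3], .r 22 [1, 2, 3] [1, 1, 1, 1], .l [3], .y [0, 4], .l [5], .r 19 [1, 2, 3] [1, 1, 1, 1], .l [5], .l [5], .l [7], .r 20 [1, 2, 3] [2, 1, 1, 1], .l [7]]),
([p 9 1, p 3 2, p 4 3, g, p 5 4, g, p 6 5, g, p 7 6, g, p 8 7, g, p 0 8, g, s 2 0, g, s 1 0, g, p 0 9, g], .lo 12, [.l [3, 6, 4, 18, 16, 9, 9, 7, 7, 5, 5, 3, 3, 1, 1, 6, 1], .l [4, 13], .l [1, 20, 18, 0, 18, 1, 15, 9, 9, 7, 7, 5, 5, 3, 3, 1, 1, 5], .l [5, 8, 6, 6, 4, 16, 14, 7, 7, 5, 5, 3, 3, 1, 1, 6, 1], .l [6, 13], .l [2, 4, 3, 19, 17, 1, 16, 1, 13, 7, 7, 5, 5, 3, 3, 1, 1, 5], .l [7, 10, 8, 8, 6, 6, 4, 14, 12, 5, 5, 3, 3, 1, 1, 6, 1], .l [8, 13], .l [2, 20, 17, 1, 17,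 4, 12, 5, 5, 3, 3, 1, 8, 6, 8, 6, 1], .l [9, 12, 10, 10, 8, 8, 6, 6, 4, 12, 10, 3, 3, 1, 1, 6, 1], .l [10, 13], .l [2, 20, 17, 1, 17, 4, 10, 3, 3, 1, 8, 6, 10, 8, 1], .l [11, 14, 12, 12, 10, 10, 8, 8, 6, 6, 4, 10, 8, 1, 1, 6, 1], .l [12, 13], .l [2, 20, 17, 1, 17, 4, 8, 1, 8, 6, 12, 10, 1], .l [13, 20, 6, 17, 17, 15, 15, 13, 13, 11, 11, 9, 9, 7, 4], .l [12, 14, 13, 13, 11, 11, 9, 9, 7, 7, 5, 5, 3, 9, 7, 1, 6, 1], .l [2, 20, 17, 1, 17, 4, 8, 1, 14, 10, 1], .y [1, 14, 12, 10, 8, 6, 4, 2], .l [15, 20, 4, 15, 15, 13, 13, 11, 11, 9, 9, 7, 7, 5, 6], .l [10, 12, 11, 11, 9, 9, 7, 7, 5, 13, 9, 1, 9, 6, 1, 6, 6, 4], .l [1, 13, 1, 13, 3, 1, 12], .l [0, 15, 15, 11, 11, 9, 9, 7, 7, 5, 5, 3, 3, 1, 2], .l [17, 20, 2, 13,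 13, 11, 11, 9, 9, 7, 7, 5, 5, 3, 4], .l [0, 15, 17, 13, 13, 11, 11, 9, 9, 7, 7, 5, 5, 3, 4], .l [1, 13, 1, 15, 5, 1, 2], .l [0, 15, 19, 15, 15, 13, 13, 11, 11, 9, 9, 7, 7, 5, 6], .l [0, 15, 19, 15, 15, 13, 13, 11, 11, 9, 9, 7, 7, 5, 6], .l [1, 13, 1, 17, 7, 1, 2]]),
([p 8 1, p 3 2, p 4 3, g, p 5 4, g, p 6 5, g, p 7 6, g, p 0 7, g, s 2 0, g, s 1 0, g, p 0 8, g], .lo 10, [.l [3, 6, 4, 16, 14, 7, 7, 5, 5, 3, 3, 1, 1, 6, 1], .l [4, 11], .l [2, 6, 5, 12, 9, 7, 7, 5, 5, 3, 3, 1, 1, 2, 3], .l [5, 8, 6, 6, 4, 14, 12, 5, 5, 3, 3, 1, 1, 6, 1], .l [6, 11], .l [2, 18, 15, 1, 15, 4, 12, 5, 5, 3, 3, 1, 8, 4, 1], .l [7, 10, 8, 8, 6, 6, 4, 12, 10, 3, 3, 1, 1, 6, 1], .l [8, 11], .l [2, 18, 15, 1, 15, 4, 10, 3, 3, 1, 8, 6,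 8, 6, 1], .l [9, 12, 10, 10, 8, 8, 6, 6, 4, 10, 8, 1, 1, 6, 1], .l [10, 11], .l [2, 18, 15, 1, 15, 4, 8, 1, 8, 6, 10, 8, 1], .l [11, 18, 6, 15, 15, 13, 13, 11, 11, 9, 9, 7, 4], .r 28 [1, 2, 3, 4, 5, 6, 7, 9, 8] [1, 1, 1, 1, 1, 1, 1, 1, 1], .l [2, 18, 15, 1, 15, 4, 8, 1, 12, 8, 1], .y [1, 12, 10, 8, 6, 4, 2], .l [13, 18, 4, 13, 13, 11, 11, 9, 9, 7, 7, 5, 6], .l [8, 10, 9, 9, 7, 7, 5, 13, 9, 1, 9, 6, 1, 6, 6, 4, 1], .l [1, 11, 1, 11, 3, 1, 10], .l [0, 13, 13, 9, 9, 7, 7, 5, 5, 3, 3, 1, 2], .l [15, 18, 2, 11, 11, 9, 9, 7, 7, 5, 5, 3, 4], .l [0, 13, 15, 11, 11, 9, 9, 7, 7, 5, 5, 3, 4], .l [1, 11, 1, 13, 5, 1, 2], .l [0, 13, 17, 13, 13, 11, 11, 9, 9, 7, 7, 5, 6], .l [0, 13, 17, 13, 13, 11, 11, 9, 9, 7, 7, 5, 6],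 .l [1, 11, 1, 15, 7, 1, 2]]),
([p 7 1, p 3 2, p 4 3, g, p 5 4, g, p 6 5, g, p 0 6, g, s 2 0, g, s 1 0, g, p 0 7, g], .lo 8, [.l [3, 6, 4, 14, 12, 5, 5, 3, 3, 1, 1, 6, 1], .l [4, 9], .l [2, 6, 5, 10, 7, 5, 5, 3, 3, 1, 1, 2, 3], .l [5, 8, 6, 6, 4, 12, 10, 3, 3, 1, 1, 6, 1], .l [6, 9], .l [2, 16, 13, 1, 13, 4, 10, 3, 3, 1, 8, 4, 1], .l [7, 10, 8, 8, 6, 6, 4, 10, 8, 1, 1, 6, 1], .l [8, 9], .l [2, 16, 13, 1, 13, 4, 8, 1, 8, 6, 8, 6, 1], .l [9, 16, 6, 13, 13, 11, 11, 9, 9, 7, 4], .r 29 [1, 2, 3, 4, 5, 6, 8, 7] [1, 1, 1, 1, 1, 1, 1, 1], .l [2, 16, 13, 1, 13, 4, 8, 1, 10, 6, 1], .y [1, 10, 8, 6, 4, 2], .l [11, 16, 4, 11, 11, 9, 9, 7, 7, 5, 6], .l [6, 8, 7, 7, 5, 13, 9, 1, 9, 6, 1, 6, 6, 4, 1], .l [1, 9, 1, 9, 3,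 1, 8], .l [0, 11, 11, 7, 7, 5, 5, 3, 3, 1, 2], .l [13, 16, 2, 9, 9, 7, 7, 5, 5, 3, 4], .l [0, 11, 13, 9, 9, 7, 7, 5, 5, 3, 4], .l [1, 9, 1, 11, 5, 1, 2], .l [2, 14, 11, 1, 11, 4, 6, 10, 3, 1, 1, 4, 1], .l [0, 11, 15, 11, 11, 9, 9, 7, 7, 5, 6], .l [1, 9, 1, 13, 7, 1, 2]]),
([p 6 1, p 3 2, p 4 3, g, p 5 4, g, p 0 5, g, s 2 0, g, s 1 0, g, p 0 6, g], .lo 6, [.l [3, 6, 4, 12, 10, 3, 3, 1, 1, 6, 1], .l [4, 7], .l [2, 6, 5, 8, 5, 3, 3, 1, 1, 2, 3], .l [5, 8, 6, 6, 4, 10, 8, 1, 1, 6, 1], .l [6, 7], .l [2, 14, 11, 1, 11, 4, 8, 1, 8, 4, 1], .l [7, 14, 6, 11, 11, 9, 9, 7, 4], .r 30 [1, 2, 3, 4, 5, 7, 6] [1, 1, 1, 1, 1, 1, 1], .l [2, 14, 11, 1, 11, 4, 8, 1, 8, 4, 1], .y [1, 8, 6, 4, 2], .l [9, 14, 4, 9, 9, 7, 7, 5,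 6], .l [4, 6, 5, 13, 9, 1, 9, 6, 1, 6, 6, 4, 1], .l [1, 7, 1, 7, 3, 1, 6], .l [0, 9, 9, 5, 5, 3, 3, 1, 2], .l [11, 14, 2, 7, 7, 5, 5, 3, 4], .l [0, 9, 11, 7, 7, 5, 5, 3, 4], .l [1, 7, 1, 9, 5, 1, 2], .l [3, 4, 2, 5, 1, 9, 7, 1, 5, 4, 5], .l [0, 9, 13, 9, 9, 7, 7, 5, 6], .l [1, 7, 1, 11, 7, 1, 2]]),
([p 5 1, p 3 2, p 4 3, g, p 0 4, g, s 2 0, g, s 1 0, g, p 0 5, g], .lo 4, [.l [3, 6, 4, 10, 8, 1, 1, 6, 1], .l [4, 5], .l [2, 6, 5, 6, 3, 1, 1, 2, 3], .l [5, 12, 6, 9, 9, 7, 4], .r 31 [1, 2, 3, 4, 6, 5] [1, 1, 1, 1, 1, 1], .l [3, 4, 2, 2, 1, 9, 8, 1], .y [1, 6, 4, 2], .l [7, 12, 4, 7, 7, 5, 6], .l [2, 12, 9, 1, 9, 6, 1, 6, 6, 4, 1], .l [1, 5, 1, 5, 3, 1, 4], .l [0, 7, 7, 3, 3, 1, 2], .l [9, 12, 2, 5, 5, 3, 4],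 .l [0, 7, 9, 5, 5, 3, 4], .l [1, 5, 1, 7, 5, 1, 2], .l [1, 5, 1, 9, 7, 1, 5, 4, 5], .l [0, 7, 11, 7, 7, 5, 6], .l [1, 5, 1, 9, 7, 1, 2]]),
([p 0 1, p 3 2, p 4 3, g, p 0 4, g, s 2 0, g, s 1 0, g], .lo 0, [.l [3], .l [0, 9, 1, 6, 6, 5, 1, 4, 1], .l [3], .l [5], .l [2, 6, 3, 7, 2, 4, 6, 4, 1], .l [5], .l [5], .l [7], .l [6, 4, 4, 3, 6, 1, 6, 4, 1], .l [7], .y [0, 8], .l [9], .r 32 [1, 2, 3, 4, 5] [1, 1, 1, 1, 1], .l [9]]),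
([p 0 1, p 3 2, p 0 3, g, s 2 0, g, s 1 0, g], .lo 2, [.l [6, 4, 1], .r 33 [1, 2, 3, 4] [1, 1, 1, 1], .l [6, 4, 1], .y [1, 4, 2], .l [4, 2, 4], .l [4, 2, 2, 1, 4, 2, 3], .l [4, 2, 4], .l [0, 5, 5, 1, 2], .l [4, 2, 6], .l [0, 5, 7, 3, 4], .l [4, 2, 6]]),
([p 5 1, p 3 2, p 4 0, g, p 0 3, g, p 0 4, g, s 2 0, g, s 1 0, g, p 0 5, g], .hi 2, [.l [4, 1, 5, 2, 8], .l [2, 3], .l [4, 1], .l [2, 3], .l [6, 3, 4, 2, 6, 4, 5], .l [2, 5], .l [6, 3], .y [2, 6], .l [1, 9, 1, 5, 1, 5, 9, 8, 1], .l [2, 7], .l [8, 5], .l [10, 7, 8, 6, 12, 3, 8, 2, 7], .l [2, 9], .l [10, 7], .l [12, 9, 10, 8, 12, 1, 8, 4, 7], .l [2, 11], .l [12, 9], .l [2, 11], .l [1, 14, 11, 1, 11, 4, 1, 2, 5], .l [2, 13], .l [14, 11]]),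
([p 0 1, p 3 2, p 4 0, g, p 0 3, g, p 0 4, g, s 2 0, g, s 1 0, g], .lo 0, [.l [0, 9, 1, 6, 0, 6, 3], .l [3], .l [0, 11, 1, 8, 2, 8, 3], .l [3], .l [5], .l [0, 11, 1, 8, 8, 5, 1, 6, 3], .l [5], .l [7], .l [2, 8, 5, 1, 4, 8, 6, 2, 3], .l [7], .l [7], .l [9], .l [2, 10, 7, 1, 6, 8, 4, 2, 3], .l [9], .y [0, 10], .l [11], .r 35 [1, 2, 3, 4, 5] [1, 1, 1, 1, 1, 1], .l [11]]),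
([p 0 1, p 3 2, p 0 0, g, p 0 3, g, s 2 0, g, s 1 0, g], .lo 2, [.y [2], .l [8, 6, 1], .l [2, 6, 4, 8, 1, 2, 3], .l [1, 7, 5, 1, 3, 4, 5], .l [8, 6, 3], .r 36 [1, 2, 3, 4] [1, 1, 1, 1, 1], .l [8, 6, 3], .l [6, 4, 3], .l [6, 4, 6], .l [6, 4, 4, 1, 6, 2, 5], .l [6, 4, 6], .l [0, 7, 7, 1, 4], .l [6, 4, 8], .l [0, 7, 9, 3, 6], .l [6, 4, 8]]),
([p 0 1, p 0 2, p 0 0, g, s 2 0, g, s 1 0, g], .lo 1, [.r 34 [1, 2, 3] [1, 1, 1], .l [8, 7, 2], .r 37 [1, 2, 3] [1, 1, 1, 1], .l [1, 5, 1, 3, 4], .y [1, 4], .l [8, 7, 4], .l [4, 2, 5, 2, 5], .l [8, 7, 4], .l [6, 5, 4], .l [6, 5, 6], .l [4, 2, 7, 4, 1], .l [6, 5, 6]]),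
([p 0 0, p 0 1, p 0 0, g, s 1 0, g], .hi 0, [.y [0], .c, .l [0, 1], .r 27 [2, 1] [1, 1, 1], .l [0, 3], .l [4, 3], .r 38 [2, 1] [1, 1, 1], .l [0, 5], .l [6, 5]]),
([p 0 1, p 4 2, s 0 3, g, p 0 4, g, s 1 0, g, s 3 0, g, s 2 0, g], .lo 2, [.l [2, 9, 5, 7, 8, 3, 6, 1], .l [4, 1, 5, 2, 4], .l [2, 9, 5, 7, 8, 3, 6, 1], .l [2, 5, 11, 6, 3, 8, 2, 5], .l [6, 3, 9, 5, 8, 1, 6, 1], .l [12, 10, 3], .l [10, 8, 3, 3, 6, 3], .l [2, 7, 11, 4, 1, 6, 2, 5], .l [8, 5, 9, 3, 8, 1, 6, 3], .l [12, 10, 5], .y [2, 8], .l [2, 7, 11, 4, 1, 6, 2, 5], .l [8, 5, 9, 3, 8, 1, 6, 3], .l [12, 10, 7], .l [10, 8, 7], .l [10, 8, 10, 4, 8, 1, 4, 1], .l [8, 5, 11, 5, 2, 6, 4, 5], .l [10, 8, 10]]),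
([p 0 1, p 5 2, s 4 3, g, s 0 4, g, p 0 5, g, m 3 0, g, s 1 0, g, s 2 0, g], .lo 0, [.l [3], .l [6, 3, 9, 5, 10, 3, 7, 1, 6, 1], .l [3], .l [5], .l [10, 7, 9, 5, 7, 3, 8, 3, 6, 3], .l [5], .l [7], .l [3, 8, 4, 5, 10, 7, 8, 1], .l [7], .l [7], .l [9], .l [3, 10, 6, 7, 10, 5, 8, 3], .l [9], .y [0, 10], .l [11], .l [3, 12, 8, 9, 10, 3, 8, 1], .l [11], .l [11], .l [13], .l [3, 14, 10, 11, 2, 4, 2, 5], .l [13]]),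
([p 0 1, p 4 2, s 0 3, g, p 0 4, g, m 3 0, g, s 1 0, g, s 2 0, g], .lo 2, [.r 41 [1, 2, 3, 5, 4] [1, 1, 1, 1, 1, 1], .l [4, 1, 5, 2, 6], .l [8, 5, 6, 2, 4, 2, 7], .l [6, 3, 7, 3, 8, 3, 6, 3], .l [6, 3, 4, 2, 6, 4, 7], .l [12, 10, 3], .y [2, 6], .l [6, 3, 7, 3, 8, 3, 6, 3], .l [6, 3, 4, 2, 6, 4, 7], .l [12, 10, 5], .l [10, 8, 5, 5, 6, 3], .l [6, 3, 9, 5, 8, 1, 6, 1], .l [6, 3, 4, 2, 8, 6, 7], .l [12, 10, 7], .l [10, 8, 7], .l [10, 8, 10, 4, 2, 5], .l [6, 3, 4, 2, 10, 8, 5], .l [10, 8, 10]]),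
([p 0 1, p 4 2, s 0 3, g, p 0 4, g, s 1 0, g, s 2 0, g, m 3 0, g], .lo 2, [.l [4, 1, 5, 2, 4, 8, 6, 3], .l [4, 1, 5, 2, 4], .l [10, 8, 1], .l [10, 8, 3, 5, 6, 1], .l [6, 3, 4, 2, 10, 8, 5], .l [10, 8, 3], .l [6, 3, 9, 5, 2, 4, 2, 3], .l [8, 5, 11, 5, 2, 6, 4, 5], .l [8, 5, 6, 4, 10, 6, 3], .l [10, 8, 5], .l [8, 6, 5], .l [8, 6, 8, 4, 2, 3], .l [10, 7, 8, 6, 10, 4, 5], .l [8, 6, 8], .y [2, 10], .l [8, 6, 10, 6, 2, 5], .l [10, 7, 8, 6, 10, 4, 5], .l [8, 6, 10]]),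
([p 0 1, p 4 2, s 0 3, g, p 0 4, g, s 1 0, g, m 3 0, g, s 2 0, g], .lo 2, [.l [4, 1, 5, 2, 4, 6, 4, 5], .l [4, 1, 5, 2, 4], .l [10, 7, 8, 4, 6, 2, 7], .l [6, 3, 9, 5, 8, 1, 6, 1], .l [6, 3, 4, 2, 8, 6, 7], .l [12, 10, 3], .l [10, 8, 3, 3, 6, 3], .l [8, 5, 9, 3, 8, 1, 6, 3], .l [8, 5, 6, 4, 8, 4, 7], .l [12, 10, 5], .y [2, 8], .l [8, 5, 9, 3, 8, 1, 6, 3], .l [8, 5, 6, 4, 8, 4, 7], .l [12, 10, 7], .l [10, 8, 7], .l [10, 8, 10, 6, 4, 5], .l [8, 5, 6, 4, 10, 6, 3], .l [10, 8, 10]]),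
([p 0 1, p 4 2, s 5 3, g, s 3 0, g, p 0 4, g, p 0 5, g, s 1 0, g, s 2 0, g], .lo 0, [.l [3], .l [6, 3, 9, 5, 10, 3, 7, 1, 6, 1], .l [3], .l [3], .l [5], .l [10, 7, 9, 5, 7, 3, 8, 3, 6, 3], .l [5], .l [7], .l [3, 8, 4, 5, 10, 7, 8, 1], .l [7], .l [9], .l [3, 10, 6, 7, 10, 5, 8, 3], .l [9], .y [0, 10], .l [11], .l [3, 12, 8, 9, 10, 3, 8, 1], .l [11], .l [11], .l [13], .l [3, 14, 10, 11, 2, 4, 2, 5], .l [13]]),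
([p 0 1, p 4 2, s 0 3, g, s 3 0, g, p 0 4, g, s 1 0, g, s 2 0, g], .lo 2, [.l [4, 1, 7, 4, 6, 4, 2, 5], .l [4, 1, 7, 4, 6], .l [12, 10, 1], .y [2, 4], .l [4, 1, 7, 4, 6, 4, 2, 5], .l [6, 3, 7, 2, 6], .l [4, 1, 7, 4, 6, 4, 2, 5], .l [2, 7, 3, 5, 8, 5, 6, 1], .r 45 [1, 2, 3, 4, 5] [1, 1, 1, 1, 1, 1], .l [12, 10, 5], .l [4, 1, 5, 2, 4, 4, 2, 3], .l [2, 9, 5, 7, 8, 3, 6, 1], .l [4, 1, 5, 2, 4, 6, 4, 5], .l [12, 10, 7], .l [10, 8, 7], .l [4, 1, 5, 2, 4, 8, 6, 3], .l [4, 1, 5, 2, 4, 8, 6, 3], .l [10, 8, 10]]),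
([p 0 1, p 3 2, s 0 0, g, p 0 3, g, s 1 0, g, s 2 0, g], .hi 2, [.l [1], .y [2], .r 46 [1, 2, 4, 3] [1, 1, 1, 1, 1], .l [10, 8, 1], .l [4, 1, 5, 2, 4], .l [8, 6, 1], .l [10, 8, 3, 5, 6, 1], .l [10, 8, 3], .r 42 [1, 2, 4, 3] [1, 1, 1, 1, 1], .r 40 [1, 2, 4, 3] [1, 1, 1, 1, 1], .l [10, 8, 5], .r 44 [1, 2, 4, 3] [1, 1, 1, 1, 1], .l [8, 6, 8, 4, 2, 3], .l [8, 6, 8], .r 43 [1, 2, 4, 3] [1, 1, 1, 1, 1]]),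
([p 0 1, p 4 2, s 0 3, g, p 0 4, g, s 3 0, g, s 2 0, g, s 1 0, g], .lo 2, [.l [2, 7, 3, 5, 6, 3, 4, 5], .l [4, 1, 5, 2, 8], .l [2, 7, 3, 5, 6, 3, 4, 5], .l [2, 5, 9, 4, 1, 6, 2, 5], .l [6, 3, 7, 3, 6, 1, 4, 5], .l [10, 8, 3], .y [2, 6], .l [2, 5, 9, 4, 1, 6, 2, 5], .l [6, 3, 7, 3, 6, 1, 4, 5], .l [10, 8, 5], .l [8, 6, 5], .l [8, 6, 8, 4, 6, 1, 2, 5], .l [6, 3, 9, 5, 2, 8, 6, 3], .l [8, 6, 8], .l [8, 6, 8, 8, 6, 3], .l [8, 6, 10, 6, 8, 1, 4, 1], .l [6, 3, 11, 7, 2, 4, 2, 5], .l [8, 6, 10]]),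
([p 6 1, p 5 2, s 4 3, g, s 7 4, g, p 0 5, g, m 3 0, g, s 2 0, g, s 1 0, g, p 0 6, g, m 0 7, g], .lo 6, [.l [3, 16, 12, 3, 3, 10, 1], .l [4, 7], .l [1, 11, 7, 3, 3, 7, 8], .l [5, 16, 10, 1, 1, 8, 1], .l [6, 7], .l [1, 11, 5, 1, 1, 7, 8], .l [7, 16, 8, 13, 13, 8, 1], .l [1, 16, 14, 1, 3, 12, 1, 9, 11, 1, 7, 1, 7], .l [3, 16, 12, 13, 4, 10, 1, 10, 6, 8, 6, 1], .l [3, 14, 10, 11, 4, 8, 1, 8, 6, 6, 4, 1], .l [9, 16, 6, 11, 11, 6, 1], .l [12, 10, 1, 9, 5, 7, 5, 3, 1, 9, 3, 5, 7], .l [1, 16, 14, 1, 3, 12, 1, 5, 9, 3, 1, 1, 7], .y [1, 10, 6], .l [11, 16, 4, 9, 9, 4, 1], .l [4, 1, 15, 11, 3, 11, 6, 1, 6, 6, 4, 1], .l [1, 9, 3, 9, 13, 10, 1, 1, 10, 6, 4, 1], .l [1, 14, 12, 1, 3, 10, 1, 1, 7, 3, 1, 1, 5], .l [13, 16,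 2, 7, 7, 2, 10], .l [1, 16, 14, 1, 3, 12, 3, 1, 9, 3, 1, 1, 7], .l [0, 11, 5, 11, 13, 11, 8], .l [4, 1, 13, 9, 1, 8, 1, 8, 10, 1, 7, 1, 6, 3], .l [3, 14, 10, 11, 4, 12, 3, 5, 3, 5, 3, 1, 7], .l [3, 14, 10, 11, 4, 8, 10, 1, 10, 5, 3, 1, 7], .l [4, 1, 7, 5, 6, 3, 12, 1, 8, 4, 2, 7], .l [3, 14, 10, 13, 15, 3, 3, 10, 1], .l [1, 14, 12, 1, 3, 10, 1, 7, 9, 1, 9, 3, 1]]),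
([p 6 1, p 5 2, s 4 3, g, s 0 4, g, p 0 5, g, m 3 0, g, s 2 0, g, s 1 0, g, p 0 6, g], .lo 4, [.l [3, 16, 12, 1, 3, 10, 1, 7, 8, 3], .l [6, 1, 7, 2, 10], .l [3, 16, 12, 1, 3, 10, 1], .l [6, 1, 7, 2, 10, 1, 6, 1], .l [6, 1, 7, 2, 10], .l [3, 16, 12, 1, 3, 10, 1], .l [2, 3, 7, 3, 7, 3, 6, 1, 4, 5], .l [2, 3, 7, 3, 7, 3, 6, 1, 4, 5], .l [3, 16, 12, 13, 4, 8, 10, 1, 4, 1], .y [2, 8, 4], .l [3, 16, 12, 13, 4, 6, 10, 1, 6, 1], .l [8, 5, 9, 7, 7, 3, 6, 1, 4, 5], .l [3, 16, 12, 13, 4, 6, 10, 1, 6, 1], .l [3, 14, 10, 11, 4, 4, 8, 1, 6, 1], .l [1, 9, 5, 9, 13, 10, 5, 1, 8, 1], .l [8, 5, 11, 9, 9, 5, 2, 8, 6, 3], .l [11, 16, 4, 7, 9, 6, 1], .l [11, 14, 2, 5, 7, 4, 1], .l [1, 9, 5, 11, 13, 8, 5, 1, 6, 7], .l [14, 9,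 15, 1, 7, 5, 10], .l [13, 16, 2, 5, 7, 4, 10], .l [3, 16, 11, 1, 11, 4, 1, 2, 8, 3], .l [4, 1, 13, 9, 1, 8, 1, 10, 1, 4, 2, 3], .r 49 [1, 2, 3, 4, 5, 6, 7] [1, 1, 1, 1, 1, 1, 1, 1]]),
([p 0 1, p 5 2, s 4 3, g, s 0 4, g, p 0 5, g, m 3 0, g, s 2 0, g, s 1 0, g], .lo 0, [.l [3], .l [6, 3, 9, 5, 8, 1, 5, 1, 4, 5], .l [3], .l [5], .l [0, 13, 1, 10, 1, 3, 8, 3], .l [5], .l [7], .l [3, 8, 4, 5, 8, 5, 6, 7], .l [7], .l [7], .l [9], .l [3, 10, 6, 7, 8, 3, 6, 7], .l [9], .l [9], .l [11], .l [4, 1, 11, 7, 1, 6, 8, 4, 2, 3], .l [11], .y [0, 12], .l [13], .r 50 [1, 2, 3, 4, 5, 6] [1, 1, 1, 1, 1, 1, 1], .l [13]]),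
([p 0 1, p 4 2, s 0 3, g, p 0 4, g, m 3 0, g, s 2 0, g, s 1 0, g], .lo 2, [.r 51 [1, 2, 3, 5, 4] [1, 1, 1, 1, 1, 1], .l [4, 1, 5, 2, 8], .l [8, 5, 6, 2, 4, 2, 5], .l [6, 3, 7, 3, 6, 1, 4, 5], .l [6, 3, 4, 2, 6, 4, 5], .l [10, 8, 3], .y [2, 6], .l [6, 3, 7, 3, 6, 1, 4, 5], .l [6, 3, 4, 2, 6, 4, 5], .l [10, 8, 5], .l [8, 6, 5], .l [8, 6, 8, 10, 8, 3], .l [6, 3, 4, 2, 8, 6, 3], .l [8, 6, 8], .l [8, 6, 8, 8, 6, 3], .l [6, 3, 11, 7, 2, 4, 2, 5], .l [6, 3, 4, 2, 10, 8, 3], .l [8, 6, 10]]),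
([p 0 1, p 4 2, s 0 3, g, p 0 4, g, s 2 0, g, m 3 0, g, s 1 0, g], .lo 2, [.l [4, 1, 5, 2, 8, 3, 4, 1], .l [4, 1, 5, 2, 8], .l [8, 6, 1], .l [6, 3, 9, 5, 2, 8, 6, 3], .l [6, 3, 4, 2, 8, 6, 3], .l [8, 6, 3], .l [6, 4, 3], .l [6, 4, 6, 10, 8, 1], .l [8, 5, 6, 4, 8, 4, 5], .l [6, 4, 6], .y [2, 8], .l [6, 4, 8, 10, 6, 1], .l [8, 5, 6, 4, 8, 4, 5], .l [6, 4, 8], .l [6, 4, 8, 8, 4, 1], .l [12, 9, 3, 8, 3, 1, 6, 1], .l [8, 5, 6, 4, 10, 6, 7], .l [6, 4, 10]]),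
([p 0 1, p 4 2, s 0 3, g, p 0 4, g, s 2 0, g, s 1 0, g, m 3 0, g], .lo 2, [.l [4, 1, 5, 2, 6, 8, 4, 5], .l [4, 1, 5, 2, 6], .l [8, 6, 1], .l [6, 3, 11, 7, 2, 4, 2, 5], .l [6, 3, 4, 2, 10, 8, 3], .l [8, 6, 3], .l [6, 4, 3], .l [6, 4, 6, 8, 6, 1], .l [8, 5, 6, 4, 10, 6, 7], .l [6, 4, 6], .l [6, 4, 6, 6, 4, 1], .l [12, 9, 3, 8, 1, 3, 6, 1], .l [10, 7, 8, 6, 10, 4, 7], .l [6, 4, 8], .y [2, 10], .l [10, 7, 3, 6, 8, 6, 4, 1], .l [10, 7, 8, 6, 10, 4, 7], .l [6, 4, 10]]),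
([p 0 1, p 4 2, s 0 3, g, p 0 4, g, s 2 0, g, s 1 0, g, s 3 0, g], .lo 2, [.l [4, 1, 5, 2, 6, 1, 2, 5], .l [4, 1, 5, 2, 6], .l [8, 6, 1], .l [8, 6, 10, 6, 8, 1, 4, 1], .l [6, 3, 11, 7, 2, 4, 2, 5], .l [8, 6, 3], .l [6, 4, 3], .l [6, 4, 6, 8, 6, 1], .l [12, 9, 3, 8, 3, 1, 6, 1], .l [6, 4, 6], .l [6, 4, 6, 6, 4, 1], .l [10, 7, 3, 6, 8, 6, 4, 1], .l [10, 7, 3, 6, 8, 6, 4, 1], .l [6, 4, 8], .y [2, 10], .l [10, 7, 3, 6, 8, 6, 4, 1], .l [12, 9, 3, 8, 1, 3, 6, 1], .l [6, 4, 10]]),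
([p 7 1, p 5 2, s 6 3, g, s 3 4, g, p 0 5, g, p 0 6, g, s 2 0, g, s 1 0, g, p 0 7, g, p 4 0, g], .lo 6, [.l [3, 16, 12, 3, 3, 10, 1], .l [4, 7], .l [1, 11, 7, 3, 3, 7, 8], .l [5, 16, 10, 1, 1, 8, 1], .l [6, 7], .l [1, 11, 5, 1, 1, 7, 8], .l [7, 16, 8, 13, 13, 8, 1], .l [1, 16, 14, 1, 3, 12, 1, 9, 11, 1, 7, 1, 7], .l [3, 16, 12, 13, 4, 10, 1, 10, 6, 8, 6, 1], .l [9, 16, 6, 11, 11, 6, 1], .l [12, 10, 1, 9, 5, 7, 5, 3, 1, 9, 3, 5, 7], .l [1, 16, 14, 1, 3, 12, 1, 5, 9, 3, 1, 1, 7], .y [1, 10, 6], .l [11, 16, 4, 9, 9, 4, 1], .l [4, 1, 15, 11, 3, 11, 6, 1, 6, 6, 4, 1], .l [1, 9, 3, 9, 13, 10, 3], .l [1, 14, 12, 1, 3, 10, 1, 1, 7, 3, 1, 1, 5], .l [13, 16, 2, 7, 7, 2, 10], .l [1, 16, 14, 1, 3, 12, 3, 1, 9, 3, 1,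 1, 7], .l [0, 11, 5, 11, 13, 11, 8], .l [4, 1, 13, 9, 1, 8, 1, 8, 10, 1, 7, 1, 6, 3], .l [3, 14, 10, 11, 4, 12, 3, 5, 3, 5, 3, 1, 7], .l [3, 14, 10, 11, 4, 8, 10, 1, 10, 5, 3, 1, 7], .l [3, 14, 10, 11, 4, 12, 3, 5, 3, 5, 3, 3, 1], .l [4, 1, 7, 5, 6, 3, 12, 1, 8, 4, 2, 7], .l [3, 14, 10, 11, 4, 14, 5, 7, 5, 7, 3, 5, 3], .l [1, 14, 12, 1, 3, 10, 1, 7, 9, 1, 9, 3, 1]]),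
([p 6 1, p 4 2, s 5 3, g, s 3 0, g, p 0 4, g, p 0 5, g, s 2 0, g, s 1 0, g, p 0 6, g], .hi 4, [.l [3, 16, 12, 1, 3, 10, 1, 7, 8, 3], .l [3, 16, 12, 1, 3, 10, 1], .l [6, 1, 7, 2, 10], .l [6, 1, 7, 2, 10, 1, 6, 1], .l [3, 16, 12, 1, 3, 10, 1], .l [6, 1, 7, 2, 10], .l [3, 14, 10, 1, 1, 8, 1], .l [2, 3, 7, 3, 7, 3, 6, 1, 4, 5], .l [3, 16, 12, 13, 4, 8, 10, 1, 4, 1], .l [2, 3, 7, 3, 7, 3, 6, 1, 4, 5], .y [2, 4, 8], .l [3, 16, 12, 13, 4, 6, 10, 1, 6, 1], .l [3, 16, 12, 13, 4, 6, 10, 1, 6, 1], .l [8, 5, 9, 7, 7, 3, 6, 1, 4, 5], .l [1, 9, 5, 9, 13, 10, 5, 1, 8, 1], .l [11, 16, 4, 7, 9, 6, 1], .l [8, 5, 11, 9, 9, 5, 2, 8, 6, 3], .l [1, 9, 5, 11, 13, 8, 5, 1, 6, 7], .l [13, 16, 2, 5, 7, 4, 10], .l [14, 9, 15, 1, 7,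 5, 10], .l [13, 14, 0, 3, 5, 2, 8], .l [3, 16, 11, 1, 11, 4, 1, 2, 8, 3], .r 56 [1, 2, 3, 7, 4, 5, 6] [1, 1, 1, 1, 1, 1, 1, 1], .l [4, 1, 13, 9, 1, 8, 1, 10, 1, 4, 2, 3]]),
([p 5 1, p 4 2, s 0 3, g, s 3 0, g, p 0 4, g, s 2 0, g, s 1 0, g, p 0 5, g], .lo 2, [.l [4, 1, 7, 4, 8, 1, 2, 3], .l [4, 1, 7, 4, 8], .l [1, 14, 12, 1, 5, 10, 1], .y [2, 4], .l [4, 1, 7, 4, 8, 1, 2, 3], .l [4, 1, 13, 9, 3, 8, 1, 5, 6, 3], .l [1, 14, 12, 3, 5, 10, 1], .l [2, 7, 3, 5, 6, 3, 4, 5], .r 57 [1, 2, 3, 4, 6, 5] [1, 1, 1, 1, 1, 1, 1], .l [4, 1, 13, 9, 1, 8, 1, 5, 6, 3], .l [7, 12, 4, 5, 4], .l [4, 1, 5, 2, 8, 3, 4, 1], .l [4, 1, 5, 2, 8, 3, 4, 1], .l [4, 1, 13, 9, 1, 8, 1, 3, 6, 1], .l [4, 1, 5, 2, 6, 6, 2, 3], .l [0, 9, 1, 6,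 8, 10, 8, 1], .l [4, 1, 5, 2, 6, 8, 4, 5], .l [8, 6, 10], .l [4, 1, 5, 2, 6, 1, 2, 7], .l [4, 1, 5, 2, 6, 10, 6, 7], .l [8, 6, 12]]),
([p 0 1, p 4 2, s 0 3, g, s 3 0, g, p 0 4, g, s 2 0, g, s 1 0, g], .lo 0, [.l [3], .l [0, 11, 1, 8, 2, 8, 1], .l [3], .l [3], .l [5], .l [0, 11, 1, 8, 1, 3, 6, 1], .l [5], .l [7], .l [3, 8, 4, 5, 6, 3, 4, 5], .l [7], .l [7], .l [9], .l [3, 10, 6, 7, 2, 8, 6, 1], .l [9], .y [0, 10], .l [11], .r 58 [1, 2, 3, 4, 5] [1, 1, 1, 1, 1, 1], .l [11]]),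
([p 0 1, p 3 2, s 0 0, g, p 0 3, g, s 2 0, g, s 1 0, g], .hi 2, [.l [1], .y [2], .r 59 [1, 2, 4, 3] [1, 1, 1, 1, 1], .l [8, 6, 1], .l [4, 1, 5, 2, 6], .l [6, 4, 1], .r 48 [1, 2, 4, 3] [1, 1, 1, 1, 1], .l [8, 6, 3], .r 52 [1, 2, 4, 3] [1, 1, 1, 1, 1], .l [6, 4, 6, 8, 6, 1], .l [6, 4, 6], .r 53 [1, 2, 4, 3] [1, 1, 1, 1, 1], .r 55 [1, 2, 4, 3] [1, 1, 1, 1, 1], .l [6, 4, 8], .r 54 [1, 2, 4, 3] [1, 1, 1, 1, 1]]),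
([p 0 0, p 2 1, s 0 0, g, p 0 2, g, s 1 0, g], .hi 0, [.y [0], .l [0, 1, 4], .l [8, 6, 2, 6, 1], .l [0, 3], .l [4, 3], .l [0, 3], .r 47 [3, 1, 2] [1, 1, 1, 1], .l [0, 5], .l [6, 5], .r 60 [3, 1, 2] [1, 1, 1, 1], .l [0, 7], .l [8, 7]]),
([p 0 0, p 2 1, g, p 0 2, g, s 1 0, g], .top 2, [.r 39 [1] [1, 1], .r 61 [1, 2] [1, 1, 1], .r 39 [1] [3, 1], .r 9 [1] [3, 1]]),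
([p 0 1, p 2 0, g, m 0 0, s 1 0, g, p 0 2, g], .lo 3, [.l [3, 1], .l [0, 5, 1], .l [5, 1], .l [3, 8, 5, 2, 5], .y [3], .c, .l [0, 3, 4], .l [6, 2], .l [3, 5], .l [0, 3, 6], .l [8, 4], .l [3, 7]])]

def d00_1 : List (List Item × Qry × List Rf) := [
([p 0 1, p 2 0, g, p 0 0, s 1 0, g, p 0 2, g], .hi 3, [.l [0, 3, 2], .l [0, 5, 1], .l [3, 8, 5, 2, 5], .l [5, 1], .y [3], .l [0, 3, 4], .l [3, 5], .l [6, 2], .l [3, 5], .l [0, 3, 6], .l [3, 7], .l [8, 4]]),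
([p 2 1, p 5 2, g, s 0 3, g, s 4 0, g, s 3 4, s 1 0, g, p 0 5, g], .lo 10, [.l [11, 2, 4, 10, 1, 5, 6, 2, 0, 1], .l [3, 11], .l [2, 12, 10, 10, 9, 8], .l [2, 12, 10, 7, 1, 3, 6, 6, 4, 1], .l [5, 11], .l [2, 12, 10, 7, 1, 3, 6, 6, 4, 1], .l [2, 10, 8, 5, 1, 1, 4, 4, 2, 1], .l [3, 8, 1, 9, 9, 4, 6, 3], .l [7, 11], .l [3, 8, 1, 9, 9, 4, 6, 3], .y [0, 8, 10, 1], .l [9, 2, 4, 10, 3, 5, 6, 4, 2, 1], .l [10, 11], .l [9, 12, 3, 3, 2, 1], .l [4, 10, 6, 3, 6, 8, 6, 6, 4, 1], .l [4, 10, 6, 3, 6, 8, 6, 6, 4, 1], .l [9, 10, 1, 1, 0, 8]]),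
([p 2 1, p 5 2, g, s 4 0, g, s 0 3, g, s 3 4, s 1 0, g, p 0 5, g], .lo 10, [.l [11, 2, 4, 10, 1, 5, 6, 2, 0, 1], .l [3, 11], .l [2, 12, 10, 10, 9, 8], .l [4, 10, 6, 3, 6, 6, 4, 4, 2, 1], .l [2, 12, 10, 7, 1, 3, 6, 6, 4, 1], .l [5, 11], .l [2, 12, 10, 7, 1, 3, 6, 6, 4, 1], .l [3, 8, 1, 9, 9, 4, 6, 3], .l [7, 11], .l [3, 8, 1, 9, 9, 4, 6, 3], .y [0, 8, 10, 1], .l [9, 2, 4, 10, 3, 5, 6, 4, 2, 1], .l [10, 11], .l [9, 12, 3, 3, 2, 1], .l [4, 10, 6, 3, 6, 8, 6, 6, 4, 1], .l [4, 10, 6, 3, 6, 8, 6, 6, 4, 1], .l [9, 10, 1, 1, 0, 8]]),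
([p 2 1, p 4 2, g, s 3 0, g, s 0 3, s 1 0, g, p 0 4, g], .lo 5, [.r 65 [1, 2, 5, 3, 4] [1, 1, 1, 1, 1], .l [0, 7, 3], .l [3, 10, 7, 4, 7], .y [3, 5], .r 66 [1, 2, 5, 3, 4] [1, 1, 1, 1, 1], .l [0, 7, 1], .l [5, 10, 5, 2, 7], .c, .l [2, 10, 8, 3, 4, 6, 4, 1], .l [6, 10, 4, 8, 5], .l [0, 5, 6], .l [10, 4, 8, 5], .l [3, 4, 9, 4, 6, 3], .l [0, 5, 8]]),
([p 2 1, p 4 2, g, s 0 3, s 1 0, g, s 3 0, g, p 0 4, g], .lo 3, [.l [2, 10, 8, 3, 4, 6, 4, 1], .l [0, 5, 1], .l [2, 10, 8, 3, 4, 6, 4, 1], .c, .l [2, 10, 8, 1, 2, 6, 4, 1], .l [4, 10, 6, 8, 5], .l [0, 3, 4], .y [3, 6], .l [2, 10, 8, 1, 4, 6, 2, 3], .l [4, 10, 6, 8, 3], .l [0, 3, 6], .l [2, 8, 6, 1, 2, 4, 2, 3], .l [10, 6, 8], .l [0, 3, 8]]),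
([p 2 1, p 3 2, g, s 0 0, s 1 0, g, p 0 3, g], .hi 3, [.r 67 [1, 2, 4, 3] [1, 1, 1, 1], .l [3, 8, 5, 2, 5], .l [0, 5, 1], .y [3], .r 68 [1, 2, 4, 3] [1, 1, 1, 1], .l [0, 3, 4], .l [4, 8, 4, 6, 3], .l [0, 3, 4], .l [8, 4, 6, 3], .l [0, 3, 6], .l [8, 4, 6]]),
([p 2 1, p 3 2, g, s 1 0, g, p 0 3, g], .bot 2, [.l [0, 1, 0], .r 69 [1, 2, 3] [1, 1, 1], .r 64 [1, 3] [1, 1, 1], .r 63 [1, 3] [1, 1, 1]]),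
([p 2 1, p 4 2, m 5 3, g, p 0 4, g, m 3 0, m 0 0, g, s 1 5, g], .hi 7, [.l [4, 8, 5], .l [2, 10, 6, 4, 7], .l [4, 8], .l [2, 8, 4, 2, 5], .l [6, 8, 3], .l [2, 10, 4, 2, 7], .l [6, 8], .y [7], .l [11, 10, 10, 9, 9, 6, 8, 6, 1], .l [11, 10, 10, 9, 9, 6, 8, 6, 1], .l [6, 3, 7, 10, 8, 3, 5, 6, 3, 0, 1], .l [9, 8, 8, 7, 7, 4, 6, 4, 5], .l [9, 8, 8, 7, 7, 4, 6, 4, 5], .l [2, 8, 10, 8, 5]]),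
([p 0 0, p 2 0, g, s 0 1, g, m 1 0, g, p 0 2, g], .hi 0, [.y [0], .l [7, 1, 8, 2, 3], .l [0, 2], .l [3, 2], .l [5, 1, 6, 2, 3], .l [7, 3, 8, 2, 5], .l [0, 4], .l [5, 4], .l [5, 1, 8, 4, 1], .l [0, 6], .l [7, 6], .l [0, 6], .l [5, 1, 6, 2, 5], .l [0, 8], .l [9, 8]]),
([p 0 0, p 1 0, g, p 2 1, g, m 0 2, g], .lo 0, [.y [0], .l [2, 3, 1, 1, 0, 1], .l [2], .l [4, 5, 1, 3, 2, 3], .l [2], .l [4], .l [2, 3, 1, 3, 2, 3], .l [4], .l [6], .l [2, 3, 1, 5, 4, 1], .l [6]]),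
([p 0 1, p 3 0, g, m 0 2, g, m 2 0, p 0 3, g, s 1 0, g], .lo 6, [.y [1, 6], .l [5, 8, 3, 8, 1, 4, 1], .l [3, 7], .l [5, 8, 3, 8, 1, 4, 1], .l [3, 8, 5, 8, 1, 2, 3], .l [5, 7], .l [3, 8, 5, 8, 6, 2, 3], .l [3, 6, 3, 6, 4, 0, 1], .l [3, 6, 3, 8, 3, 4, 1], .l [3, 6, 3, 8, 3, 4, 1], .r 73 [3, 4] [4, 1, 3], .l [3, 6, 3, 6, 6, 2, 3], .l [3, 6, 3, 6, 1, 2, 5], .l [3, 6, 3, 6, 8, 4, 5], .l [3, 6, 3, 6, 1, 2, 5]]),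
([p 0 1, p 2 0, g, s 1 0, g, p 0 2, g], .hi 1, [.r 70 [1, 3, 2] [1, 1, 1], .l [3, 1, 6, 4, 1], .l [1, 2], .l [3, 1], .l [5, 3, 6, 2, 3], .l [1, 4], .l [5, 3], .y [1, 5], .l [7, 5, 1, 4, 1], .l [1, 6], .l [7, 5]]),
([p 0 0, p 2 0, g, m 0 1, g, m 1 0, p 0 2, g], .hi 0, [.y [0], .r 75 [3, 2] [1, 4, 1], .l [0, 2], .l [3, 2], .l [3, 2], .r 75 [3, 2] [3, 2, 1], .l [0, 4], .l [5, 4], .l [0, 5], .r 74 [3, 1, 2] [1, 1, 1, 1], .l [0, 7], .l [8, 7]]),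
([p 0 0, p 1 0, g, m 0 0, p 2 1, g, s 0 2, g], .lo 3, [.l [3, 2], .l [3, 1], .r 72 [3, 1] [1, 1, 0, 3], .l [5, 1], .r 76 [3, 1] [1, 1, 3], .y [3], .l [6, 2, 6], .l [6, 2], .l [3, 5], .l [8, 4, 1], .l [8, 4], .l [3, 7]]),
([p 0 1, p 2 0, g, p 0 0, p 3 2, g, s 0 3, g, s 1 0, g], .hi 3, [.l [8, 7, 7, 4, 1], .l [5, 1, 5, 1, 6], .l [3, 6, 3, 8, 3, 4, 1], .l [5, 1], .y [3], .l [6, 2, 6], .l [3, 5], .l [6, 2], .l [6, 2, 1], .l [8, 4, 1], .l [3, 7], .l [8, 4], .l [10, 6, 1], .l [3, 9], .l [10, 6]]),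
([p 2 1, p 5 2, m 0 3, g, s 4 0, g, s 0 4, p 6 5, g, m 3 0, g, s 0 6, g, s 1 0, g], .hi 4, [.l [4, 1, 6, 3, 9], .l [5, 9, 4, 4, 3, 5, 7, 5, 8, 1, 6, 1], .l [5, 9, 4, 4, 3, 5, 7, 5, 8], .l [6, 1, 8, 3, 11], .l [5, 9, 4, 12, 9, 3, 5, 3, 7, 5], .l [5, 9, 4, 4, 3, 5, 7, 5, 8], .l [6, 1, 8, 3, 11], .y [4, 6], .l [0, 9, 4, 10, 3, 0, 5], .l [3, 7, 4, 4, 3, 5, 7, 5, 8], .l [0, 9, 4, 10, 3, 0, 5], .l [3, 11, 6, 2, 6, 10, 7, 3, 7, 5], .l [1, 7, 6, 13, 3, 8, 2, 9, 5], .l [2, 11, 6, 2, 7, 11, 7, 3, 8], .l [4, 10, 10, 6, 5, 5, 2, 6], .l [3, 13, 8, 2, 8, 10, 5, 3, 7, 5], .l [1, 7, 6, 13, 1, 8, 2, 9, 5], .l [6, 1, 6, 1, 1, 0, 6, 8, 4, 6, 4, 5], .l [6, 1, 6, 1, 9, 5, 9, 2, 0, 3], .l [6, 1, 6, 1, 9, 5, 9, 2, 0, 3], .l [6,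 1, 6, 1, 9, 11, 5, 7, 5, 0]]),
([p 2 1, p 4 2, m 0 3, g, s 0 0, p 5 4, g, m 3 0, g, s 0 5, g, s 1 0, g], .hi 4, [.l [4, 1, 4, 1, 7], .r 79 [1, 2, 3, 6, 4, 5] [1, 1, 1, 1, 1, 1], .l [5, 7, 2, 2, 1, 3, 5, 3, 6], .l [6, 1, 6, 1, 9], .y [4], .l [0, 7, 2, 8, 3, 0, 5], .l [3, 5, 2, 2, 1, 3, 5, 3, 6], .l [7, 2, 9], .l [4, 8, 12, 9, 1, 7, 9, 3, 0, 5], .l [1, 5, 4, 11, 3, 6, 0, 8, 5], .l [9, 4, 9], .l [9, 4, 3], .l [4, 10, 12, 7, 1, 5, 7, 3, 0, 5], .l [1, 5, 4, 11, 1, 6, 0, 8, 5], .l [11, 6, 3], .l [4, 5, 1, 9, 11, 5, 7, 5, 0, 5], .l [0, 10, 6, 10, 2, 0, 7], .l [13, 8, 3]]),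
([p 2 1, p 4 2, m 0 3, g, p 5 4, g, m 3 0, g, s 0 5, g, s 1 0, g], .bot 3, [.r 77 [4, 5] [0, 3, 3], .r 80 [1, 2, 3, 4, 5] [1, 1, 1, 1, 1], .r 78 [1, 4, 5] [2, 3, 1, 1], .r 77 [4, 5] [2, 3, 3]]),
([p 2 1, p 4 2, m 7 3, g, p 5 4, g, p 6 5, g, p 0 6, g, m 3 0, g, s 1 0, g, s 0 7, g], .lo 8, [.l [3, 6, 3, 3, 2, 6, 6, 4, 6, 4, 5], .l [4, 9], .l [1, 6, 5, 12, 9, 5, 5, 3, 3, 1, 1, 4, 1], .l [5, 8, 6, 6, 3, 3, 2, 4, 6, 4, 5], .l [6, 9], .l [2, 15, 9, 3, 3, 1, 3, 9, 3, 2, 3], .l [7, 12, 6, 8, 7, 10, 1, 5, 3, 6, 1], .l [8, 9], .l [2, 15, 7, 1, 3, 11, 3, 2, 5], .l [7, 8, 6, 6, 4, 4, 1, 1, 0, 2, 4, 2, 3], .l [7, 12, 6, 8, 7, 10, 1, 7, 10, 6, 1, 2, 5], .l [2, 15, 7, 1, 3, 11, 3, 2, 5], .l [2, 13, 5, 1, 1, 9, 3, 2, 5],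 .l [7, 10, 4, 6, 5, 10, 3, 7, 3, 6, 1], .l [5, 10, 6, 14, 7, 1, 11, 6, 3, 6, 2, 6, 6, 0, 3], .l [7, 8, 6, 6, 4, 4, 1, 1, 0, 4], .y [0, 12, 8, 6, 4, 1], .l [7, 10, 4, 6, 5, 8, 1, 5, 3, 4, 5], .l [0, 11, 13, 9, 9, 7, 7, 5, 7, 5, 0], .l [1, 4, 3, 10, 3, 10, 4, 2, 5], .l [7, 10, 4, 6, 5, 8, 1, 5, 3, 4, 7], .l [0, 11, 15, 11, 11, 9, 9, 7, 9, 7, 0], .l [1, 4, 3, 10, 3, 12, 6, 2, 7]]),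
([p 2 1, p 4 2, m 6 3, g, p 5 4, g, p 0 5, g, m 3 0, g, s 1 0, g, s 0 6, g], .lo 6, [.l [3, 6, 3, 3, 2, 4, 6, 4, 5], .l [4, 7], .l [1, 6, 5, 10, 7, 3, 3, 1, 1, 4, 1], .l [7, 8, 4, 4, 1, 1, 0, 2, 4, 2, 3], .l [6, 7], .l [2, 13, 7, 1, 3, 9, 3, 2, 3], .l [5, 6, 4, 4, 1, 1, 0, 2, 4, 2, 3], .r 82 [1, 2, 3, 4, 5, 7, 6] [1, 1, 1, 1, 1, 1, 1], .l [2, 13, 7, 1, 3, 9, 3, 2, 3], .l [2, 11, 5, 1, 1, 7, 3, 2, 3], .l [5, 8, 4, 6, 5, 8, 3, 5, 1, 6, 2, 0, 1], .l [12, 11, 13, 11, 12, 10, 10, 8, 8, 4, 1, 2, 3], .l [5, 6, 4, 4, 1, 1, 0, 4], .y [0, 10, 6, 4, 1], .l [0, 9, 11, 7, 7, 5, 7, 5, 0], .l [0, 9, 11, 7, 7, 5, 7, 5, 0], .l [1, 4, 3, 8, 3, 8, 4, 2, 3], .l [0, 9, 13, 9, 9, 7, 9, 7, 0], .l [0, 9, 13, 9, 9, 7, 9, 7, 0], .l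 [1, 4, 3, 8, 3, 10, 6, 2, 5]]),
([p 2 1, p 4 2, m 5 3, g, p 0 4, g, m 3 0, g, s 1 0, g, s 0 5, g], .lo 4, [.l [5, 6, 1, 1, 0, 2, 4, 2, 3], .l [4, 5], .l [1, 6, 5, 8, 5, 1, 1, 4, 1], .l [3, 4, 1, 1, 0, 2, 4, 2, 3], .r 83 [1, 2, 3, 4, 6, 5] [1, 1, 1, 1, 1, 1], .l [2, 4, 2, 8, 6, 2, 4, 2, 3], .l [2, 4, 2, 6, 4, 2, 2, 0, 1], .r 81 [1, 2, 3, 4, 6] [1, 1, 1, 1, 3], .l [10, 9, 11, 9, 10, 8, 8, 4, 1, 2, 3], .l [3, 4, 1, 1, 0, 4], .y [0, 8, 4, 1], .l [0, 7, 3, 7, 2, 0, 5], .l [0, 7, 9, 5, 7, 5, 0], .l [0, 7, 3, 7, 2, 0, 5], .l [0, 7, 3, 9, 4, 0, 7], .l [0, 7, 11, 7, 9, 7, 0], .l [0, 7, 3, 9, 4, 0, 7]]),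
([p 2 1, p 4 2, m 0 3, g, p 0 4, g, m 3 0, m 0 0, g, s 1 0, g], .lo 2, [.l [4, 1, 5, 2, 7], .l [4, 1], .l [2, 3], .l [0, 6, 3, 7, 3, 0, 3], .l [6, 3], .l [2, 5], .y [2, 6], .l [2, 6], .l [1, 4, 3, 9, 1, 6, 1, 5, 2], .l [9, 6], .l [2, 8], .r 71 [1, 2, 3, 4, 5] [1, 1, 1, 1], .r 84 [1, 2, 3, 4, 5] [1, 1, 2, 1, 1], .l [11, 8], .l [2, 10]]),
([p 1 0, p 3 1, m 0 2, g, p 0 3, g, m 2 0, m 0 0, g], .hi 0, [.l [2, 1], .l [0, 3, 7, 5, 0], .l [0, 3], .l [4, 3], .y [0, 4, 1], .l [0, 5, 7, 3, 0], .l [0, 5], .l [6, 5], .l [7, 6], .r 85 [4, 1, 2, 3] [1, 1, 1, 1], .l [0, 8], .l [9, 8]]),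
([p 2 1, p 4 2, m 0 3, g, p 0 4, g, p 5 0, g, m 3 0, p 6 5, g, p 0 6, g, s 1 0, g], .hi 6, [.l [6, 3], .l [0, 8, 3, 9, 3, 0, 5], .l [8, 11, 10, 10, 6, 8, 5, 9, 3, 6, 3], .l [8, 3], .l [6, 9, 8, 8, 6, 6, 3, 7, 3, 4, 1], .l [8, 1, 9, 3, 5, 4, 11], .l [5, 11, 0, 6, 13, 10, 2, 3, 9, 7, 3, 6, 1], .l [8, 1], .l [8, 1, 9, 3, 5, 4, 11], .l [6, 7], .l [8, 1], .l [6, 10, 12, 10, 3], .l [6, 10], .l [11, 4], .y [6, 11, 9], .l [5, 8, 4, 6, 5, 12, 1, 9, 3, 8, 3], .l [6, 12], .l [13, 6], .l [1, 15, 8, 13, 6, 1, 8, 11, 7, 4, 7], .l [6, 14], .l [15, 8]]),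
([p 2 1, p 4 2, m 0 3, g, p 0 4, g, m 3 0, p 5 0, g, p 0 5, g, s 1 0, g], .hi 7, [.l [7, 4], .l [2, 9, 4, 1, 5, 9, 6, 2, 7], .l [6, 9, 6, 8, 5, 9, 3, 6, 3], .l [9, 4], .l [4, 7, 6, 6, 3, 7, 3, 4, 1], .l [2, 9, 2, 12, 5, 5, 4, 8, 5], .r 87 [1, 2, 3, 4, 6, 5] [1, 1, 1, 1, 1, 1], .l [9, 2], .l [2, 9, 1, 10, 8, 5, 3, 2, 7], .l [7, 8], .l [9, 1], .y [7, 9], .l [2, 7, 10, 7, 2, 2, 1, 4, 5, 2, 5], .l [7, 10], .l [11, 3], .l [2, 7, 12, 9, 2, 6, 8, 4, 1], .l [7, 12], .l [13, 5]]),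
([p 2 1, p 4 2, m 0 3, g, p 0 4, g, m 3 0, p 0 0, g, s 1 0, g], .lo 7, [.l [4, 8, 5], .l [4, 8], .l [3, 6, 3, 3, 2, 5], .l [6, 8, 3], .l [6, 8], .l [4, 8, 5, 7, 6, 8, 6, 4, 5], .l [4, 6, 3, 5, 4, 6, 4, 2, 3], .y [7], .l [11, 10, 10, 9, 9, 6, 8, 6, 1], .r 88 [1, 2, 3, 4, 5] [1, 1, 1, 1, 1], .l [11, 10, 10, 9, 9, 6, 8, 6, 1], .l [4, 6, 3, 5, 4, 6, 6, 4, 3], .l [9, 8, 8, 7, 7, 4, 6, 4, 5], .l [4, 6, 3, 5, 4, 6, 8, 6, 3], .l [9, 8, 8, 7, 7, 4, 6, 4, 5]]),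
([p 1 0, p 3 1, m 0 2, g, p 0 3, g, m 2 0, p 0 0, g], .hi 0, [.l [2, 1], .l [0, 3, 7, 5, 0], .l [0, 3], .l [4, 3], .y [0, 4, 1], .l [0, 5, 7, 3, 0], .l [0, 5], .l [6, 5], .l [0, 6], .r 89 [4, 1, 2, 3] [1, 1, 1, 1], .l [0, 8], .l [9, 8]]),
([p 1 0, p 4 1, m 0 2, g, s 0 3, g, p 3 4, g, m 2 0, g], .hi 0, [.l [2, 1], .l [0, 3, 9, 7, 0], .l [0, 3], .l [4, 3], .y [0, 4, 6, 1], .l [0, 5, 9, 5, 0], .l [0, 5], .l [6, 5], .l [0, 7, 9, 3, 0], .l [0, 7], .l [8, 7], .l [5, 6, 1, 1, 0, 2, 4, 2, 3], .l [0, 9], .l [10, 9]]),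
([p 2 1, p 4 2, m 6 3, g, p 5 4, g, p 0 5, g, m 3 0, s 0 0, g, s 1 6, g], .hi 9, [.l [4, 10, 7], .l [1, 6, 5, 11, 8, 2, 9, 2, 5], .l [4, 10, 7], .l [6, 10, 5], .l [2, 12, 6, 4, 9], .l [6, 10, 5], .l [2, 10, 4, 2, 7], .l [8, 10, 3], .l [2, 12, 4, 2, 9], .l [8, 10, 3], .y [9], .l [13, 12, 12, 11, 11, 8, 10, 6, 1, 3, 5, 1, 3], .l [13, 12, 12, 11, 11, 8, 8, 6, 8, 6, 1], .l [8, 5, 9, 12, 10, 5, 5, 3, 5, 6, 3, 0, 1], .l [11, 10, 10, 9, 9, 6, 6, 4, 6, 4, 5, 3, 1], .l [11, 10, 10, 9, 9, 6, 6, 4, 6, 4, 5], .l [2, 10, 12, 10, 7]]),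
([p 2 1, p 4 2, m 0 3, g, p 5 4, g, p 0 5, g, m 3 0, s 0 0, g, s 1 0, g], .lo 2, [.l [4, 1, 5, 2, 9], .l [4, 1], .l [2, 3], .l [0, 6, 3, 9, 5, 0, 5], .l [6, 3], .l [2, 5], .l [0, 8, 5, 9, 3, 0, 5], .l [8, 5], .l [2, 7], .y [2, 8], .l [2, 8, 7], .l [1, 4, 3, 11, 1, 8, 1, 7, 2], .l [11, 8], .l [2, 10], .r 92 [1, 2, 3, 4, 5, 6] [1, 1, 1, 1, 1], .r 83 [1, 2, 3, 4, 5, 6] [1, 1, 1, 2, 1, 1], .l [13, 10], .l [2, 12]]),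
([p 1 0, p 3 1, m 0 2, g, p 4 3, g, p 0 4, g, m 2 0, s 0 0, g], .hi 0, [.l [2, 1], .l [0, 3, 9, 7, 0], .l [0, 3], .l [4, 3], .l [0, 5, 7, 5, 7, 5, 0], .l [0, 5], .l [6, 5], .y [0, 6, 4, 1], .l [0, 7, 9, 3, 0], .l [0, 7], .l [8, 7], .l [4, 8, 5, 7, 6, 6, 5], .r 93 [5, 1, 2, 3, 4] [1, 1, 1, 1, 1], .l [0, 10], .l [11, 10]]),
([p 1 0, p 3 1, m 0 2, g, p 4 3, g, m 2 0, g, s 0 4, g], .hi 0, [.l [2, 1], .l [0, 3, 7, 5, 0], .l [0, 3], .l [4, 3], .l [0, 5, 7, 3, 0], .l [0, 5], .l [6, 5], .l [0, 7, 3, 7, 2, 0, 5], .l [0, 7], .l [8, 7], .y [0, 8, 4, 1], .r 81 [5, 1, 2, 3, 4] [1, 1, 1, 1, 1], .l [0, 9], .l [10, 9]]),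
([p 1 0, p 3 1, m 0 2, g, p 4 3, g, s 0 4, g, m 2 0, g], .hi 0, [.l [2, 1], .l [0, 3, 9, 7, 0], .l [0, 3], .l [4, 3], .l [0, 5, 9, 5, 0], .l [0, 5], .l [6, 5], .y [0, 6, 4, 1], .l [0, 7, 9, 3, 0], .l [0, 7], .l [8, 7], .l [3, 4, 1, 1, 0, 2, 4, 2, 3], .l [0, 9], .l [10, 9]]),
([p 2 1, p 4 2, m 6 3, g, p 5 4, g, m 3 0, s 0 0, g, p 0 5, g, s 1 6, g], .hi 7, [.l [4, 8, 5], .l [8, 11, 8, 8, 3, 3, 2, 4, 6, 4, 5], .l [4, 8, 5], .l [5, 11, 9, 9, 6, 6, 5, 2, 4], .l [5, 11, 9, 9, 6, 8, 1, 4, 2, 6, 3], .l [4, 11, 10, 10, 7, 9, 1, 4, 5], .y [7], .l [4, 11, 10, 10, 7, 9, 1, 6, 1, 3, 5, 5, 3], .l [4, 11, 10, 10, 7, 9, 1, 6, 1], .l [9, 1, 10, 5, 5, 2, 7], .l [4, 9, 8, 8, 5, 7, 1, 4, 1], .l [2, 12, 12, 1, 3, 8, 7, 7, 4,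 5, 0, 2, 3], .l [13, 12, 12, 11, 11, 8, 10, 8, 3], .l [4, 9, 8, 8, 5, 9, 3, 6, 3], .l [11, 8, 8, 4, 10, 6, 4, 4, 3, 3, 1, 1, 1], .l [4, 9, 8, 8, 5, 7, 1, 4, 7], .l [0, 10, 12, 8, 10, 7, 9, 7, 0]]),
([p 2 1, p 4 2, m 0 3, g, p 5 4, g, m 3 0, s 0 0, g, p 0 5, g, s 1 0, g], .lo 2, [.l [4, 1, 5, 2, 9], .l [4, 1], .l [2, 3], .l [6, 3, 7, 3, 0, 4, 8, 3, 4, 0, 5], .l [6, 3], .l [2, 5], .y [2, 6], .l [2, 6, 5], .l [9, 6, 6, 2, 9, 4, 4, 2, 7], .l [9, 6], .l [2, 8], .l [1, 4, 3, 11, 1, 8, 1, 7, 4], .l [11, 8], .l [2, 10], .r 97 [1, 2, 3, 4, 5, 6] [1, 1, 1, 1, 1], .l [11, 10, 12, 10, 11, 9, 9, 4, 1, 2, 4], .l [13, 10], .l [2, 12]]),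
([p 1 0, p 3 1, m 0 2, g, p 4 3, g, m 2 0, s 0 0, g, p 0 4, g], .hi 0, [.l [2, 1], .l [0, 3, 7, 5, 0], .l [0, 3], .l [4, 3], .l [0, 5, 7, 3, 0], .l [0, 5], .l [6, 5], .l [0, 6, 8, 5, 7, 5, 0], .l [0, 8, 10, 5, 7, 5, 0], .l [0, 8], .l [9, 8], .y [0, 9, 4, 1], .r 98 [5, 1, 2, 3, 4] [1, 1, 1, 1, 1], .l [0, 10], .l [11, 10]]),
([p 1 0, p 3 1, m 0 2, g, p 0 3, g, m 2 0, s 0 0, g], .lo 4, [.y [0, 4, 1], .r 91 [1, 2, 4, 3] [1, 1, 1, 2], .l [4, 5], .l [3, 6, 3, 3, 2, 1], .r 96 [1, 2, 3, 4] [1, 1, 1, 2], .r 94 [1, 2, 3, 4] [1, 1, 1, 1], .l [3, 4, 1, 1, 0, 2], .l [3, 4, 1, 1, 0, 2], .l [0, 4, 0, 6, 3, 0, 3], .r 95 [1, 2, 3, 4] [1, 1, 2, 1], .r 99 [1, 2, 3, 4] [1, 1, 1, 1], .l [3, 4, 1, 1, 0, 5]]),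
([p 1 0, p 0 1, m 0 2, g, m 2 0], .hi 0, [.c, .l [2, 1], .l [0, 3, 5, 3, 0], .l [0, 3], .l [4, 3]]),
([p 1 0, p 3 1, m 0 2, g, p 0 3, g, m 2 0, g], .top 7, [.r 101 [1, 2] [3], .r 100 [1, 2, 3] [1, 1, 1], .r 90 [1, 2, 3] [1, 1, 1], .r 86 [1, 2, 3] [1, 1, 1]]),
([p 2 1, p 4 2, s 0 0, g, m 6 3, g, p 0 4, m 3 5, g, m 5 0, g, s 1 6, g], .hi 2, [.y [2], .l [3, 9, 10, 9, 5, 5, 4, 4, 7, 7, 1, 5, 3], .l [3, 8, 5, 5, 4, 4, 9], .l [4, 1, 7, 4, 10], .l [6, 3, 7, 2, 10, 10, 4, 6, 1, 3, 1, 5, 3], .l [4, 12, 12, 3, 3, 2, 3], .l [6, 3, 7, 2, 10], .l [4, 10, 10, 3, 3, 2, 3], .l [1, 6, 5, 5, 4, 6, 8, 6, 7, 7, 1, 5, 3], .l [1, 6, 5, 5, 4, 6, 8, 6, 7], .l [1, 6, 5, 11, 8, 2, 9, 3, 8, 1, 2, 0, 3], .l [13, 8, 8, 5, 6, 1, 8, 3,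 7, 3, 6, 2, 3], .l [4, 12, 12, 3, 3, 2, 8], .l [11, 8, 1, 10, 10, 8, 5], .l [4, 10, 12, 3, 7, 2, 4, 6, 1, 3, 1, 5, 3], .l [4, 10, 10, 3, 3, 2, 8], .l [0, 10, 12, 3, 0]]),
([p 2 1, p 5 2, m 7 3, g, m 3 4, g, p 6 5, g, p 0 6, g, m 4 0, g, s 1 7, g], .lo 8, [.l [3, 8, 5, 11, 5, 7, 1, 8, 3], .l [4, 9], .l [0, 13, 9, 5, 5, 3, 8, 4, 6, 2, 5], .l [5, 8, 3, 3, 2, 6, 8, 6, 6, 4, 5], .l [6, 9], .l [0, 13, 7, 3, 7, 1, 8, 2, 6, 4, 5], .l [7, 12, 8, 10, 7, 9, 1, 3, 1, 6, 1], .l [8, 9], .l [2, 13, 5, 1, 7, 3, 1, 3, 7, 1, 1, 0, 3], .l [7, 8, 6, 6, 1, 1, 0, 4, 6, 4, 4, 2, 3], .l [8, 12, 7, 9, 6, 10, 1, 6, 1, 2, 5], .l [0, 13, 5, 1, 7, 3, 5, 3, 6, 2, 4, 2, 3], .y [0, 12, 2, 4, 10, 8, 6, 1], .l [7, 10, 6, 8, 5, 9, 3, 5, 1,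 6, 3], .l [2, 13, 7, 12, 1, 10, 10, 8, 8, 4, 1, 4, 2, 0, 1], .l [7, 8, 6, 6, 1, 1, 0, 6], .l [7, 10, 6, 8, 5, 7, 1, 3, 1, 4, 5], .l [0, 11, 13, 9, 9, 7, 9, 7, 7, 5, 0], .l [2, 11, 3, 11, 7, 4, 4, 3, 4, 0, 1]]),
([p 2 1, p 5 2, m 6 3, g, m 3 4, g, p 0 5, g, m 4 0, g, s 1 6, g], .lo 6, [.l [3, 8, 5, 9, 3, 5, 1, 6, 5], .l [4, 7], .l [0, 11, 7, 3, 8, 4, 6, 2, 5], .l [7, 8, 1, 1, 0, 4, 6, 4, 4, 2, 3], .l [6, 7], .l [2, 11, 5, 1, 1, 6, 6, 5, 6, 0, 3], .l [5, 6, 1, 1, 0, 4, 6, 4, 4, 2, 3], .r 104 [1, 2, 3, 4, 5, 7, 6] [1, 1, 1, 1, 1, 1], .l [0, 11, 5, 1, 5, 1, 6, 2, 4, 2, 3], .y [0, 10, 2, 4, 8, 6, 1], .l [2, 11, 5, 10, 1, 8, 8, 4, 1, 4, 2, 0, 1], .l [2, 11, 5, 10, 1, 8, 8, 4, 1, 4, 2, 0, 1], .l [5, 6, 1, 1, 0,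 6], .l [0, 9, 3, 9, 2, 0, 7], .l [0, 9, 11, 7, 9, 7, 7, 5, 0], .l [0, 9, 3, 9, 2, 0, 7]]),
([p 2 1, p 4 2, m 5 3, g, m 3 0, g, p 0 4, g, s 1 5, g], .hi 4, [.l [3, 8, 5, 7, 1, 3, 1, 4, 1], .l [2, 9, 5, 1, 3, 4, 4, 3, 4, 0, 1], .l [4, 5], .l [3, 8, 5, 7, 1, 5, 3, 4, 1], .l [0, 9, 5, 1, 6, 2, 4, 2, 3], .l [2, 9, 3, 8, 1, 4, 1, 4, 2, 0, 1], .y [0, 8, 2, 4, 6, 1], .l [3, 6, 3, 7, 3, 5, 1, 4, 1], .l [3, 4, 2, 4, 3, 3, 2, 3], .r 105 [1, 2, 3, 6, 4, 5] [1, 1, 1, 1, 1], .l [3, 6, 3, 5, 1, 3, 1, 2, 3], .l [0, 7, 3, 7, 2, 0, 3], .l [0, 7, 9, 5, 5, 3, 0]]),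
([p 2 1, p 4 2, m 5 3, g, m 3 0, g, p 0 4, g, s 0 5, g, s 1 0, g], .hi 4, [.l [3, 8, 5, 9, 3, 5, 1, 6, 1], .l [2, 9, 5, 1, 3, 4, 6], .l [4, 5], .l [3, 8, 5, 9, 3, 7, 3, 6, 3], .l [0, 11, 7, 1, 8, 4, 6, 2, 5], .l [2, 9, 3, 10, 3, 6, 1, 6, 4, 2, 3], .l [0, 9, 5, 1, 6, 4, 4, 0, 3], .l [3, 6, 3, 9, 5, 7, 1, 6, 1], .l [3, 4, 2, 4, 3, 3, 2, 3], .l [2, 9, 5, 2, 6, 8, 6, 1, 1, 2, 3], .y [2, 4, 8], .l [3, 6, 3, 9, 5, 7, 1, 6, 3], .l [2, 7, 3, 7, 1, 6, 1, 2, 5], .l [7, 10, 6, 8, 5, 7, 4, 0, 2, 4, 1], .l [3, 6, 3, 7, 3, 5, 1, 4, 5], .l [0, 9, 5, 9, 2, 0, 5], .l [0, 9, 11, 5, 5, 3, 0]]),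
([p 2 1, p 4 2, m 0 3, g, m 3 0, g, p 0 4, g, s 1 0, g], .lo 2, [.l [4, 1, 5, 3, 5, 4, 5], .l [4, 1], .l [2, 3], .y [2, 4], .l [6, 3, 3, 1, 6, 2, 5], .l [6, 3], .l [2, 5], .r 107 [1, 2, 3, 4, 5] [1, 1, 1, 1, 1], .l [8, 5], .l [2, 7], .r 106 [1, 2, 3, 4, 5] [1, 1, 1, 1], .l [2, 9, 5, 2, 6, 1, 3, 4, 1], .l [10, 7], .l [2, 9]]),
([p 1 0, p 3 1, m 0 2, g, m 2 0, g, p 0 3, g], .hi 0, [.l [2, 1], .l [0, 3, 5, 3, 0], .l [0, 3], .l [4, 3], .r 70 [4, 1, 3] [4, 1, 1], .l [0, 5], .l [6, 5], .y [0, 6, 1], .r 108 [4, 1, 2, 3] [1, 1, 1, 1], .l [0, 7], .l [8, 7]]),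
([p 0 0, p 1 0, g, s 0 1, g], .hi 0, [.y [0], .l [3, 2, 3], .l [0, 2], .l [3, 2], .l [3, 2, 1], .l [5, 4, 1], .l [0, 4], .l [5, 4]]),
([p 1 0, p 0 1, m 0 2, g, m 2 0, g], .lo 1, [.c, .r 110 [3] [2, 3], .r 102 [1, 2, 3] [1, 1, 1], .l [0, 1, 0, 2], .l [0, 1, 0, 2], .r 110 [3] [4, 1], .r 109 [1, 2, 3] [1, 1, 1], .l [0, 1, 0, 4]]),
([p 2 1, p 0 2, m 0 0, g, s 1 0, g], .hi 2, [.l [0, 3, 2, 0, 1], .y [2], .l [6, 5, 5, 4, 1], .l [6, 5, 5, 4, 1], .r 111 [2, 3] [1, 3], .l [4, 3, 3, 2, 3], .l [4, 3, 3, 2, 3], .l [0, 3, 5, 3, 0]]),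
([p 2 1, p 5 2, p 4 3, g, p 0 4, g, p 0 5, g, s 3 0, g, s 1 0, g], .lo 4, [.l [3, 8, 5, 9, 3, 5, 1, 6, 1], .l [4, 5], .l [2, 9, 5, 1, 3, 4, 6], .l [3, 8, 5, 9, 3, 7, 3, 6, 3], .l [2, 9, 3, 10, 3, 6, 1, 6, 4, 2, 3], .l [0, 11, 7, 1, 8, 4, 6, 2, 5], .l [3, 6, 3, 9, 5, 7, 1, 6, 1], .l [2, 9, 5, 2, 6, 8, 6, 1, 1, 2, 3], .l [3, 4, 2, 4, 3, 3, 2, 3], .y [2, 8, 4], .l [3, 6, 3, 9, 5, 7, 1, 6, 3], .l [7, 10, 6, 8, 5, 7, 4, 0, 2, 4, 1], .l [2, 7, 3, 7, 1, 6, 1, 2, 5], .l [0, 9, 9, 3, 3, 1, 0], .l [3, 6, 3, 7, 3, 5, 1, 4, 5], .l [0, 9, 11, 5, 5, 3, 0], .l [0, 9, 5, 9, 2, 0, 5]]),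
([p 2 1, p 4 2, p 0 3, g, p 0 4, g, s 3 0, g, s 1 0, g], .lo 2, [.l [3, 6, 3, 3, 2, 2, 5], .r 113 [1, 2, 3, 5, 4] [1, 1, 1, 1, 1], .l [1, 6, 5, 5, 4, 1], .l [10, 9, 9, 8, 3], .l [1, 4, 3, 8, 1, 5, 1, 4, 1], .l [1, 4, 3, 3, 2, 3], .y [2, 6], .l [10, 9, 9, 8, 5], .l [0, 6, 3, 7, 3, 0, 3], .l [1, 4, 3, 3, 2, 5], .l [0, 7, 7, 1, 0], .l [8, 7, 7, 6, 7], .l [0, 7, 9, 3, 0], .l [0, 7, 5, 8, 2, 0, 3]]),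
([p 2 1, p 4 2, p 5 3, g, s 0 0, p 6 4, g, p 0 5, g, s 0 6, g, s 1 0, g, s 3 0, g], .hi 4, [.l [6, 1, 6, 1, 2, 11, 1, 7, 3, 7, 0, 1], .l [5, 7, 2, 2, 1, 3, 5, 3, 6], .l [6, 1, 6, 1, 9], .y [4], .l [0, 7, 2, 8, 3, 0, 5], .l [3, 5, 2, 2, 1, 3, 5, 3, 6], .l [7, 2, 9], .l [3, 5, 2, 2, 1, 3, 3, 1, 4], .l [4, 8, 12, 9, 1, 7, 9, 3, 0, 5], .l [1, 5, 4, 11, 3, 6, 0, 8, 5], .l [9, 4, 9], .l [9, 4, 3], .l [4, 10, 12, 7, 1, 5, 7, 3, 0, 5], .l [1, 5, 4, 11, 1, 6, 0, 8, 5], .l [11, 6, 3], .l [4, 5, 1, 9, 11, 5, 7, 5, 0, 5], .l [0, 10, 6, 10, 2, 0, 7], .l [13, 8, 3], .l [4, 5, 1, 9, 13, 7, 9, 7, 0, 7], .l [0, 10, 6, 12, 4, 0, 9], .l [15, 10, 3]]),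
([p 2 1, p 4 2, p 5 3, g, p 6 4, g, p 0 5, g, s 0 6, g, s 1 0, g, s 3 0, g], .bot 3, [.l [11, 8, 3], .r 115 [1, 2, 3, 4, 5, 6] [1, 1, 1, 1, 1, 1], .r 78 [1, 4, 6] [2, 3, 1, 3], .r 77 [4, 6] [2, 3, 5]]),
([p 2 1, p 4 2, p 7 3, g, p 5 4, g, p 6 5, g, p 0 6, g, p 0 7, g, s 1 0, g, s 3 0, g], .lo 8, [.l [3, 6, 3, 3, 2, 6, 6, 4, 6, 4, 5], .l [4, 9], .l [1, 6, 5, 12, 9, 5, 5, 3, 3, 1, 1, 4, 1], .l [5, 8, 6, 6, 3, 3, 2, 4, 6, 4, 5], .l [6, 9], .l [2, 15, 9, 3, 3, 1, 3, 9, 3, 2, 3], .l [7, 12, 6, 8, 7, 10, 1, 5, 3, 6, 1], .l [8, 9], .l [2, 15, 7, 1, 3, 11, 3, 2, 5], .l [7, 8, 6, 6, 4, 4, 1, 1, 0, 2, 4, 2, 3], .l [7, 12, 6, 8, 7, 10, 1, 7, 10, 6, 1, 2, 5], .l [2, 15, 7, 1, 3, 11, 3, 2, 5], .l [7, 10, 4, 6, 5, 10,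 3, 7, 3, 6, 1], .l [5, 10, 6, 14, 7, 1, 11, 6, 3, 6, 2, 6, 6, 0, 3], .l [7, 8, 6, 6, 4, 4, 1, 1, 0, 4], .y [0, 12, 8, 6, 4, 1], .l [7, 10, 4, 6, 5, 8, 1, 5, 3, 4, 5], .l [0, 11, 13, 9, 9, 7, 7, 5, 7, 5, 0], .l [1, 4, 3, 10, 3, 10, 4, 2, 5], .l [7, 10, 4, 6, 5, 8, 1, 5, 3, 4, 5], .l [7, 10, 4, 6, 5, 8, 1, 5, 3, 4, 7], .l [0, 11, 15, 11, 11, 9, 9, 7, 9, 7, 0], .l [1, 4, 3, 10, 3, 12, 6, 2, 7]]),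
([p 2 1, p 4 2, p 6 3, g, p 5 4, g, p 0 5, g, p 0 6, g, s 1 0, g, s 3 0, g], .lo 6, [.l [3, 6, 3, 3, 2, 4, 6, 4, 5], .l [4, 7], .l [1, 6, 5, 10, 7, 3, 3, 1, 1, 4, 1], .l [7, 8, 4, 4, 1, 1, 0, 2, 4, 2, 3], .l [6, 7], .l [2, 13, 7, 1, 3, 9, 3, 2, 3], .l [5, 6, 4, 4, 1, 1, 0, 2, 4, 2, 3], .r 117 [1, 2, 3, 4, 5, 7, 6] [1, 1, 1, 1, 1, 1, 1], .l [2, 13, 7, 1, 3, 9, 3, 2, 3], .l [5, 8, 4, 6, 5, 8, 3, 5, 1, 6, 2, 0, 1], .l [12, 11, 13, 11, 12, 10, 10, 8, 8, 4, 1, 2, 3], .l [5, 6, 4, 4, 1, 1, 0, 4], .y [0, 10, 6, 4, 1], .l [0, 9, 11, 7, 7, 5, 7, 5, 0], .l [0, 9, 11, 7, 7, 5, 7, 5, 0], .l [1, 4, 3, 8, 3, 8, 4, 2, 3], .l [0, 9, 11, 7, 7, 5, 7, 5, 0], .l [0, 9, 13, 9, 9, 7, 9, 7, 0], .l [0, 9, 13, 9, 9, 7, 9, 7, 0],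 .l [1, 4, 3, 8, 3, 10, 6, 2, 5]]),
([p 2 1, p 4 2, p 5 3, g, p 0 4, g, p 0 5, g, s 1 0, g, s 3 0, g], .lo 4, [.l [5, 6, 1, 1, 0, 2, 4, 2, 3], .l [4, 5], .l [1, 6, 5, 8, 5, 1, 1, 4, 1], .l [3, 4, 1, 1, 0, 2, 4, 2, 3], .r 118 [1, 2, 3, 4, 6, 5] [1, 1, 1, 1, 1, 1], .l [2, 4, 2, 8, 6, 2, 4, 2, 3], .r 116 [1, 2, 3, 4, 5, 6] [1, 1, 1, 1, 1, 1], .l [10, 9, 11, 9, 10, 8, 8, 4, 1, 2, 3], .l [3, 4, 1, 1, 0, 4], .y [0, 8, 4, 1], .l [0, 7, 3, 7, 2, 0, 5], .l [0, 7, 9, 5, 7, 5, 0], .l [0, 7, 3, 7, 2, 0, 5], .l [0, 7, 3, 7, 2, 0, 5], .l [0, 7, 3, 9, 4, 0, 7], .l [0, 7, 11, 7, 9, 7, 0], .l [0, 7, 3, 9, 4, 0, 7]]),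
([p 2 1, p 4 2, p 0 3, g, p 0 4, g, s 1 0, g, s 3 0, g], .lo 2, [.l [3, 6, 3, 3, 2, 2, 3], .l [2, 9, 5, 2, 6, 1, 3, 4, 1], .l [1, 6, 5, 5, 4, 1], .l [8, 7, 7, 6, 3], .r 119 [1, 2, 3, 4, 5] [1, 1, 1, 1, 1], .l [1, 4, 3, 3, 2, 3], .l [0, 5, 5, 1, 0], .l [6, 5, 5, 4, 5], .l [0, 5, 7, 3, 0], .l [0, 5, 3, 6, 2, 0, 1], .y [2, 8], .l [6, 5, 5, 4, 7], .l [0, 5, 9, 5, 0], .l [0, 5, 3, 8, 4, 0, 3]]),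
([p 2 1, p 3 2, p 0 0, g, p 0 3, g, s 1 0, g], .hi 2, [.y [2], .l [4, 1, 5, 2, 4], .l [2, 3], .l [4, 1], .l [2, 3], .r 114 [1, 2, 4, 3] [1, 1, 1, 1], .l [2, 5], .l [6, 3], .r 120 [1, 2, 4, 3] [1, 1, 1, 1], .l [2, 7], .l [8, 5]]),
([p 2 1, p 4 2, g, m 6 3, g, p 0 4, m 3 5, g, m 5 0, g, s 1 6, g], .top 2, [.r 102 [2, 3, 4] [1, 0, 5], .r 103 [1, 2, 3, 4, 5, 6] [1, 1, 1, 1, 1], .r 121 [1, 2, 4] [3, 4, 1], .r 112 [1, 2] [8, 1]]),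
([p 2 1, p 4 2, g, m 5 3, g, p 0 4, m 3 0, g, s 1 5, g], .hi 6, [.l [3, 7, 4], .l [1, 7, 6, 8, 6, 4, 5], .l [3, 7], .l [5, 7, 2], .l [1, 7, 6, 8, 4, 2, 5], .l [5, 7], .y [0, 8, 3, 6, 5, 1], .l [10, 9, 9, 8, 8, 4, 1], .l [5, 6, 3, 5, 3, 3, 2, 3], .r 122 [1, 2, 3, 4, 6, 5] [1, 1, 1, 1, 1], .l [8, 7, 7, 6, 6, 2, 5], .l [2, 5, 3, 6, 1, 6, 4, 2, 3], .l [1, 5, 4, 6, 8, 6, 3]]),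
([p 2 1, p 5 2, g, m 0 3, g, m 3 4, g, p 7 5, m 4 6, g, m 6 0, g, s 1 0, g, p 0 7, g], .lo 3, [.l [5, 1, 8, 4, 11], .l [5, 1], .l [6, 3, 8, 3, 5, 3, 7, 3, 4, 10, 5, 8, 0, 5], .l [5, 1, 6, 4, 6, 4, 9], .l [5, 1], .l [3, 4], .l [7, 3, 3, 1, 6, 2, 9], .l [7, 3], .l [3, 6], .l [3, 9, 11, 9, 4], .l [10, 6], .l [3, 9], .y [3, 5, 8, 10], .l [12, 8, 8, 6, 6, 3, 3, 1, 10, 6, 6, 4, 1], .l [12, 8], .l [3, 11], .l [0, 11, 13, 8, 9, 7, 7, 5, 5, 2, 3, 0, 0], .l [14, 10, 10, 8, 8, 5, 5, 3, 10, 4, 4, 2, 5], .l [14, 10], .l [3, 13], .l [2, 16, 12, 3, 13, 4, 1, 10, 3, 1, 8, 2, 5], .l [16, 12], .l [3, 15]]),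
([p 2 1, p 4 2, g, m 0 3, g, p 6 4, m 3 5, g, m 5 0, g, s 1 0, g, p 0 6, g], .lo 3, [.l [5, 1, 6, 2, 9], .l [5, 1], .r 124 [1, 2, 7, 3, 4, 5, 6] [1, 1, 1, 1, 1, 1, 1], .l [5, 1, 6, 2, 9], .l [5, 1], .l [3, 4], .l [3, 7, 9, 7, 2], .l [8, 4], .l [3, 7], .y [3, 6, 8], .l [10, 6, 6, 3, 3, 1, 10, 6, 6, 4, 1], .l [10, 6], .l [3, 9], .l [0, 9, 11, 6, 7, 5, 5, 2, 3, 0, 0], .l [12, 8, 8, 5, 5, 3, 10, 4, 4, 2, 5], .l [12, 8], .l [3, 11], .l [2, 14, 10, 1, 11, 4, 1, 8, 8, 2, 5], .l [14, 10], .l [3, 13]]),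
([p 2 1, p 3 2, g, p 5 3, m 0 4, g, m 4 0, g, s 1 0, g, p 0 5, g], .lo 4, [.l [1, 6, 2, 9, 4, 6, 3], .l [6, 2], .r 125 [1, 2, 6, 3, 4, 5] [1, 1, 1, 1, 1, 1], .l [6, 1, 7, 5, 9, 8, 8, 6, 3], .l [6, 1], .l [4, 5], .y [4, 6], .l [8, 3, 3, 1, 10, 6, 6, 4, 1], .l [8, 3], .l [4, 7], .l [0, 7, 9, 4, 5, 2, 3, 0, 0], .l [10, 5, 5, 3, 10, 4, 4, 2, 5], .l [10, 5], .l [4, 9], .l [10, 5, 7, 1, 9, 4, 7, 4, 1], .l [12, 7], .l [4, 11]]),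
([p 2 1, p 3 2, g, p 4 3, m 0 0, g, s 1 0, g, p 0 4, g], .hi 4, [.l [3, 5, 2], .l [0, 7, 9, 6, 1, 5, 2], .l [3, 5], .y [4], .l [8, 7, 7, 6, 6, 4, 1], .l [3, 10, 9, 9, 7, 7, 6, 1], .r 126 [1, 2, 3, 5, 4] [1, 1, 1, 1, 1], .l [6, 5, 5, 4, 4, 2, 3], .l [3, 10, 9, 9, 7, 7, 6, 3], .l [1, 3, 2, 4, 6, 4, 1], .l [3, 8, 7, 7, 5, 5, 4, 3], .l [6, 5, 5, 4, 4, 2, 5], .l [3, 8, 7, 7, 5, 5, 4, 5], .l [1, 3, 2, 4, 8, 6, 1]])]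

def d00_2 : List (List Item × Qry × List Rf) := [
([p 2 1, p 5 2, s 0 0, g, m 0 3, g, m 3 4, g, p 6 5, m 4 0, g, p 0 6, g, s 1 0, g], .hi 2, [.y [2], .l [7, 8, 6, 8, 3, 11, 8, 0, 9, 3, 1, 6, 1], .l [3, 10, 7, 7, 6, 6, 11], .l [4, 1, 9, 6, 12], .l [4, 1, 7, 4, 10], .l [15, 14, 14, 13, 3, 5, 3, 10, 4, 6, 5, 3, 1], .l [5, 8, 6, 8, 5, 5, 4, 4, 9], .l [6, 3, 9, 4, 12], .l [15, 14, 14, 13, 5, 8, 6, 6, 4, 8, 4, 4, 1], .l [7, 10, 3, 3, 2, 2, 11], .l [8, 5, 9, 2, 12], .l [10, 13, 10, 11, 9, 9, 7, 6, 3, 3, 2, 2, 5], .l [10, 13, 10, 10, 3, 3, 2, 2, 9], .l [5, 11, 7, 4, 3, 11, 3, 8, 1, 8, 5], .l [10, 11, 8, 8, 1, 1, 0, 0, 7], .l [5, 6, 4, 6, 3, 11, 8, 0, 9, 5, 1, 6, 3], .l [15, 14, 14, 13, 10], .l [5, 6, 4, 6, 3, 11,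 8, 0, 9, 5, 1, 6, 3], .l [5, 6, 4, 6, 3, 9, 5, 10, 4, 2, 5, 3, 1], .l [13, 12, 12, 11, 12], .l [0, 12, 14, 3, 0]]),
([p 2 1, p 5 2, g, m 0 3, g, m 3 4, g, p 6 5, m 4 0, g, p 0 6, g, s 1 0, g], .top 2, [.r 111 [2, 3] [1, 8], .r 128 [1, 2, 3, 4, 5, 6] [1, 1, 1, 1, 1, 1], .r 121 [1, 2, 5] [5, 4, 1], .r 112 [1, 2] [10, 1]]),
([p 2 1, p 5 2, s 6 3, s 0 4, g, p 0 5, g, s 4 0, g, s 3 0, g, s 0 6, g, s 1 0, g], .lo 3, [.l [0, 11, 8, 1, 11, 3, 0, 5], .l [5, 1, 6, 2, 11], .l [3, 8, 3, 6, 9, 5, 6, 8], .l [2, 12, 3, 7, 1, 7, 9, 6, 4, 6, 3], .l [7, 3, 8, 4, 9, 3, 6, 8], .l [2, 10, 14, 5, 5, 4, 1, 6, 2, 5], .y [3, 7], .l [2, 12, 3, 7, 1, 7, 9, 6, 4, 6, 3], .l [7, 3, 8, 4, 9, 3, 6, 8], .l [2, 10, 14, 5, 5, 4, 1, 6, 2, 7],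 .l [3, 6, 8, 2, 1, 5, 2, 6], .l [9, 6, 9, 13, 11, 4], .l [7, 3, 10, 6, 9, 1, 6, 8], .l [2, 8, 14, 7, 7, 6, 3, 8, 2, 5], .l [9, 6, 11, 13, 9, 4], .l [2, 8, 14, 7, 7, 6, 1, 8, 2, 3], .l [9, 6, 11, 7, 9, 1, 4, 8], .l [9, 6, 11, 11, 7, 4], .l [0, 12, 1, 8, 11, 2, 0, 7], .l [0, 12, 5, 7, 12, 4, 7, 6, 0, 7], .l [0, 12, 1, 8, 11, 2, 0, 7]]),
([p 2 1, p 4 2, s 6 3, s 0 0, g, p 5 4, g, s 0 5, g, s 3 0, g, s 0 6, g, s 1 0, g], .hi 3, [.y [3], .l [0, 11, 8, 1, 11, 3, 0, 5], .l [1, 7, 6, 13, 1, 10, 1, 3, 8, 1], .l [5, 1, 6, 2, 11], .r 130 [1, 2, 3, 7, 4, 6] [1, 1, 3, 1, 1, 1], .l [2, 10, 14, 5, 5, 4, 1, 6, 2, 5], .l [2, 12, 7, 0, 9, 11, 8, 6, 8, 5], .l [0, 9, 6, 3, 3, 1, 7, 3, 0, 3], .r 130 [1, 2, 3, 7, 4, 6] [1, 3,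 1, 1, 1, 1], .l [2, 10, 14, 5, 5, 4, 1, 6, 2, 7], .l [2, 12, 7, 0, 9, 11, 8, 6, 8, 3], .l [9, 6, 9, 13, 11, 4], .l [2, 8, 14, 7, 7, 6, 3, 8, 2, 5], .l [15, 14, 14, 13, 10, 3, 8, 5], .l [2, 8, 12, 5, 5, 4, 1, 6, 2, 3], .l [9, 6, 11, 13, 9, 4], .l [9, 6, 11, 13, 9, 4], .l [2, 8, 14, 7, 7, 6, 1, 8, 2, 3], .l [0, 12, 1, 8, 11, 2, 0, 7], .l [0, 12, 1, 8, 11, 2, 0, 7], .l [4, 5, 1, 10, 12, 4, 9, 8, 0, 3]]),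
([p 2 1, p 5 2, s 6 3, s 0 4, g, p 0 5, g, s 4 0, g, s 0 6, g, s 3 0, g, s 1 0, g], .lo 3, [.l [0, 11, 8, 1, 11, 3, 0, 5], .l [5, 1, 6, 2, 11], .l [3, 8, 3, 6, 7, 3, 4, 8], .l [2, 12, 3, 7, 1, 7, 9, 6, 4, 6, 3], .l [7, 3, 8, 4, 7, 1, 4, 8], .l [2, 10, 14, 5, 5, 4, 1, 6, 2, 5], .y [3, 7], .l [2, 12, 3, 7, 1, 7, 9, 6, 4, 6, 3], .l [7, 3, 8, 4, 7, 1, 4, 8], .l [2, 10, 14, 5, 5, 4, 1, 6, 2, 7], .l [9, 6, 9, 13, 11, 4], .l [7, 3, 10, 6, 9, 1, 6, 8], .l [2, 8, 14, 7, 7, 6, 3, 8, 2, 5], .l [2, 8, 12, 5, 5, 4, 1, 6, 2, 3], .l [9, 6, 11, 13, 9, 4], .l [2, 8, 14, 7, 7, 6, 1, 8, 2, 3], .l [9, 6, 11, 7, 9, 1, 4, 8], .l [9, 6, 11, 11, 7, 4], .l [0, 12, 1, 8, 11, 2, 0, 7], .l [0, 12, 5, 7, 12, 4, 5, 4, 0, 7], .l [0, 12,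 1, 8, 11, 2, 0, 7]]),
([p 2 1, p 4 2, s 6 3, s 0 0, g, p 5 4, g, s 0 5, g, s 0 6, g, s 3 0, g, s 1 0, g], .hi 3, [.y [3], .l [0, 11, 8, 1, 11, 3, 0, 5], .l [1, 7, 6, 13, 1, 10, 1, 3, 8, 1], .l [5, 1, 6, 2, 11], .r 132 [1, 2, 3, 7, 4, 6] [1, 1, 3, 1, 1, 1], .l [2, 10, 14, 5, 5, 4, 1, 6, 2, 5], .l [2, 12, 7, 0, 9, 11, 8, 6, 8, 5], .l [0, 9, 6, 3, 3, 1, 7, 3, 0, 3], .r 132 [1, 2, 3, 7, 4, 6] [1, 3, 1, 1, 1, 1], .l [2, 10, 14, 5, 5, 4, 1, 6, 2, 7], .l [2, 12, 7, 0, 9, 11, 8, 6, 8, 3], .l [9, 6, 5, 9, 3, 5, 4, 7], .l [9, 6, 9, 13, 11, 4], .l [2, 8, 14, 7, 7, 6, 3, 8, 2, 5], .l [15, 14, 14, 13, 6, 8, 2, 7], .l [9, 6, 11, 13, 9, 4], .l [9, 6, 11, 13, 9, 4], .l [2, 8, 14, 7, 7, 6, 1, 8, 2, 3], .l [0, 12, 1, 8, 11,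 2, 0, 7], .l [0, 12, 1, 8, 11, 2, 0, 7], .l [4, 5, 1, 10, 12, 4, 7, 6, 0, 3]]),
([p 2 1, p 4 2, s 5 3, s 0 0, g, p 6 4, g, s 0 5, g, s 0 6, g, s 3 0, g, s 1 0, g], .hi 3, [.y [3], .l [0, 9, 6, 1, 11, 5, 0, 5], .l [1, 7, 6, 13, 1, 10, 1, 3, 8, 3], .l [5, 1, 6, 2, 11], .r 132 [1, 2, 3, 7, 4, 5] [1, 1, 1, 3, 1, 1], .l [2, 8, 14, 7, 7, 6, 3, 8, 2, 7], .l [2, 12, 7, 0, 9, 11, 6, 4, 8, 5], .l [7, 4, 3, 7, 5, 5, 2, 6], .l [7, 4, 7, 13, 11, 2], .l [2, 6, 14, 9, 9, 8, 5, 10, 2, 5], .l [15, 14, 14, 13, 4, 6, 2, 7], .l [7, 4, 7, 11, 9, 2], .l [7, 4, 9, 13, 9, 2], .l [2, 6, 14, 9, 9, 8, 5, 10, 2, 7], .l [15, 14, 14, 13, 4, 8, 4, 7], .l [7, 4, 11, 13, 7, 2], .l [7, 4, 11, 13, 7, 2], .l [2, 6, 14, 9, 9, 8, 3, 10, 2, 3],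 .l [0, 12, 1, 8, 11, 2, 0, 7], .l [0, 12, 1, 8, 11, 2, 0, 7], .l [4, 5, 1, 10, 12, 4, 5, 4, 0, 5]]),
([p 2 1, p 4 2, s 0 3, s 0 0, g, p 5 4, g, s 0 5, g, s 3 0, g, s 1 0, g], .lo 2, [.c, .l [4, 7, 3, 10, 7, 3, 5, 2, 5, 2], .l [5, 2, 6, 2, 10], .l [4, 7, 3, 3, 2, 2, 8], .r 134 [1, 2, 3, 4, 6, 5] [1, 1, 1, 1, 1, 1], .l [0, 7, 4, 10, 5, 0, 5], .l [13, 12, 12, 11, 4], .r 133 [1, 2, 3, 4, 5, 6] [1, 1, 1, 1, 1, 1], .l [0, 9, 6, 10, 3, 0, 5], .l [13, 12, 12, 11, 6], .y [2, 9], .r 131 [1, 2, 3, 4, 5, 6] [1, 1, 1, 1, 1, 1], .l [0, 9, 6, 10, 3, 0, 5], .l [13, 12, 12, 11, 8], .l [11, 10, 10, 9, 8], .l [4, 5, 1, 8, 10, 3, 0, 4], .l [0, 10, 1, 6, 10, 3, 0, 5], .l [11, 10, 10, 9, 10]]),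
([p 2 1, p 5 2, s 0 3, g, m 0 4, g, m 4 0, g, p 6 5, g, s 0 6, g, s 3 0, g, s 1 0, g], .hi 6, [.l [5, 6, 4, 6, 3, 3, 2, 2, 7], .l [7, 10, 3, 13, 5, 10, 1, 10, 5], .l [3, 10, 7, 7, 6, 3], .l [4, 7], .y [4, 6], .l [5, 10, 5, 13, 5, 8, 1, 10, 1], .l [5, 8, 6, 8, 5, 5, 4, 1], .l [6, 7], .l [5, 10, 5, 13, 5, 10, 3, 10, 7], .l [3, 10, 7, 13, 10, 1, 3, 10, 7], .l [5, 10, 5, 13, 8, 4, 1, 8, 3, 4, 6, 3], .l [5, 8, 3, 13, 7, 10, 1, 10, 1], .l [5, 6, 4, 6, 3, 3, 2, 4], .l [5, 6, 4, 6, 3, 11, 8, 4, 6, 2, 6, 1], .l [5, 8, 3, 11, 5, 8, 1, 8, 1], .l [5, 8, 3, 13, 7, 10, 1, 10, 3], .l [5, 6, 4, 6, 3, 3, 2, 6], .l [9, 12, 8, 10, 5, 11, 3, 6, 1, 8, 7], .l [5, 8, 3, 13, 7, 10, 1, 10, 5], .l [5, 6, 4, 6, 3, 3, 2, 8], .l [9,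 14, 10, 12, 7, 11, 1, 4, 1, 8, 7], .l [5, 8, 3, 11, 5, 8, 1, 8, 9], .l [0, 13, 7, 13, 2, 0, 9], .l [5, 8, 3, 11, 5, 8, 11, 2, 8]]),
([p 2 1, p 4 2, s 0 3, m 0 0, g, p 5 4, g, s 0 5, g, s 3 0, g, s 1 0, g], .hi 3, [.c, .y [3], .l [2, 7, 5, 11, 6, 2, 4, 2, 6, 1], .l [2, 7, 5, 5, 4, 1], .r 136 [1, 2, 3, 6, 4, 5] [0, 1, 1, 1, 1, 1, 1], .l [2, 5, 3, 11, 8, 4, 6, 2, 6, 1], .l [2, 5, 3, 3, 2, 4], .l [2, 5, 3, 11, 8, 4, 6, 2, 6, 1], .l [2, 5, 3, 9, 6, 2, 4, 2, 4, 3], .l [2, 5, 3, 11, 8, 2, 6, 4, 6, 3], .l [2, 5, 3, 3, 2, 6], .l [2, 5, 3, 11, 8, 2, 6, 4, 6, 3], .l [9, 6, 9, 11, 9, 4], .l [2, 5, 3, 3, 2, 8], .l [6, 11, 7, 9, 7, 9, 6, 4, 6, 5], .l [0, 10, 1, 6, 9, 2, 0, 5], .l [0, 10, 7, 11, 2, 0, 7], .l [4, 5, 1, 8,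 10, 4, 7, 6, 0, 3]]),
([p 2 1, p 4 2, s 0 3, p 5 4, g, s 0 5, g, s 3 0, g, s 1 0, g], .lo 2, [.l [2, 4, 10, 7, 7, 6, 3, 6, 0, 3], .l [5, 2, 5], .l [11, 10, 10, 9, 2], .l [2, 6, 10, 5, 5, 4, 1, 4, 0, 3], .l [7, 4, 1], .l [11, 10, 10, 9, 4], .y [2, 7], .l [2, 6, 10, 5, 5, 4, 1, 4, 0, 3], .l [7, 4, 1, 7, 3, 5, 4, 5], .l [11, 10, 10, 9, 6], .l [9, 8, 8, 7, 6], .l [2, 3, 1, 7, 9, 3, 0, 3], .l [7, 4, 1, 9, 5, 7, 6, 1], .l [9, 8, 8, 7, 8]]),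
([p 2 1, p 5 2, s 0 3, g, p 4 0, g, p 0 4, g, p 6 5, g, s 0 6, g, s 3 0, g, s 1 0, g], .lo 6, [.l [7, 10, 3, 13, 5, 10, 1, 10, 5], .l [4, 7], .l [3, 10, 7, 7, 6, 3], .y [4, 6], .l [5, 10, 5, 13, 5, 8, 1, 10, 1], .l [6, 7], .l [5, 8, 6, 8, 5, 5, 4, 1], .l [5, 10, 5, 13, 5, 10, 3, 10, 7], .l [5, 10, 5, 13, 8, 4, 1, 8, 3, 4, 6, 3], .l [3, 10, 7, 13, 10, 1, 3, 10, 7], .l [5, 8, 3, 13, 7, 10, 1, 10, 1], .l [5, 6, 4, 6, 3, 11, 8, 4, 6, 2, 6, 1], .l [5, 6, 4, 6, 3, 3, 2, 4], .l [5, 8, 3, 13, 7, 10, 1, 10, 3], .l [9, 12, 8, 10, 5, 11, 3, 6, 1, 8, 7], .l [5, 6, 4, 6, 3, 3, 2, 6], .l [5, 8, 3, 11, 5, 8, 1, 8, 3], .l [5, 8, 3, 13, 7, 10, 1, 10, 5], .l [9, 14, 10, 12, 7, 11, 1, 4, 1, 8, 7], .l [5, 6, 4, 6, 3, 3, 2, 8],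 .l [5, 8, 3, 11, 5, 8, 9, 0, 6], .l [5, 8, 3, 11, 5, 8, 1, 8, 9], .l [5, 8, 3, 11, 5, 8, 11, 2, 8], .l [0, 13, 7, 13, 2, 0, 9]]),
([p 2 1, p 4 2, s 0 3, p 0 0, g, p 5 4, g, s 0 5, g, s 3 0, g, s 1 0, g], .lo 3, [.y [3], .l [2, 7, 5, 11, 6, 2, 4, 2, 6, 1], .r 139 [1, 2, 3, 6, 4, 5] [0, 1, 1, 1, 1, 1, 1], .l [2, 7, 5, 5, 4, 1], .l [2, 5, 3, 11, 8, 4, 6, 2, 6, 1], .l [2, 5, 3, 11, 8, 4, 6, 2, 6, 1], .l [2, 5, 3, 3, 2, 4], .l [2, 5, 3, 11, 8, 2, 6, 4, 6, 3], .l [2, 5, 3, 11, 8, 2, 6, 4, 6, 3], .l [2, 5, 3, 3, 2, 6], .l [9, 6, 5], .l [9, 6, 9, 11, 9, 4], .l [6, 11, 7, 9, 7, 9, 6, 4, 6, 5], .l [2, 5, 3, 3, 2, 8], .l [4, 5, 1, 8, 8, 2, 5, 4, 0, 1], .l [0, 10, 1, 6, 9, 2, 0, 5], .l [4, 5, 1, 8, 10, 4, 7, 6, 0, 3],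 .l [0, 10, 7, 11, 2, 0, 7]]),
([p 2 1, p 4 2, s 0 3, g, p 5 4, g, s 0 5, g, s 3 0, g, s 1 0, g], .top 3, [.r 138 [1, 2, 3, 4, 5] [1, 1, 1, 1], .r 135 [1, 2, 3, 4, 5] [1, 1, 1, 1, 1], .r 140 [1, 2, 3, 4, 5] [1, 1, 1, 1, 1], .r 137 [1, 2, 3, 4, 5] [1, 1, 1, 1, 1]]),
([p 2 1, p 5 2, s 0 3, g, s 0 4, p 6 5, g, s 3 0, g, s 0 6, g, s 4 0, g, s 1 0, g], .lo 4, [.l [5, 7, 2, 12, 7, 9, 4, 6, 2, 6, 1], .l [6, 1, 6, 1, 11], .l [3, 13, 6, 0, 9, 11, 4, 2, 8, 1], .l [7, 2, 9, 13, 9, 4], .l [7, 2, 9], .l [4, 6, 14, 11, 11, 10, 3, 10, 0, 3], .l [7, 2, 7, 11, 9, 4], .l [9, 4, 9, 13, 11, 6], .l [9, 4, 9], .l [2, 6, 10, 8, 5, 7, 4, 8], .l [11, 6, 3, 11, 5, 7, 4, 8], .l [11, 6, 3], .l [15, 14, 14, 13, 4, 6, 4, 5], .y [4, 11],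 .l [11, 6, 3, 11, 5, 7, 4, 8], .l [11, 6, 3, 11, 5, 7, 4, 8], .l [11, 6, 3, 5, 9, 11, 9, 4], .l [3, 5, 2, 10, 1, 7, 8, 0, 6, 1], .l [11, 6, 3, 13, 7, 9, 6, 1], .l [11, 6, 3, 13, 7, 9, 6, 1], .l [0, 12, 1, 6, 3, 5, 9, 2, 0, 5]]),
([p 2 1, p 5 2, s 0 3, g, s 4 0, g, s 0 4, p 6 5, g, s 3 0, g, s 0 6, g, s 1 0, g], .lo 6, [.l [5, 9, 4, 12, 5, 7, 2, 4, 2, 6, 1], .l [8, 3, 8, 1, 11], .l [12, 6, 1, 9, 6, 3, 5, 7, 6, 1], .y [4, 6], .l [5, 9, 4, 12, 5, 7, 2, 4, 2, 6, 1], .l [8, 1, 8, 1, 11], .l [7, 9, 2, 5, 3, 9, 3, 4, 6, 3], .l [9, 2, 11, 13, 9, 6], .l [9, 2, 11], .l [5, 7, 2, 5, 3, 9, 3, 4, 6, 3], .l [9, 2, 9, 11, 9, 6], .l [11, 4, 11, 13, 11, 8], .l [11, 4, 11], .l [2, 8, 12, 10, 7, 9, 6, 8], .l [5, 7, 2, 12, 7,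 9, 4, 6, 2, 6, 1], .l [13, 6, 3], .l [6, 1, 6, 1, 4, 9, 3, 5, 0, 1], .l [5, 7, 2, 10, 5, 7, 8, 0, 6, 3], .l [15, 8, 3, 5, 11, 8], .l [15, 8, 3], .l [0, 12, 6, 12, 2, 0, 9]]),
([p 2 1, p 4 2, s 0 3, g, s 0 0, p 5 4, g, s 3 0, g, s 0 5, g, s 1 0, g], .hi 4, [.l [2, 6, 8, 6, 3, 5, 4, 5], .r 143 [1, 2, 3, 6, 4, 5] [1, 1, 1, 1, 1, 1], .l [4, 7, 3, 11, 5, 7, 2, 4, 2, 5], .l [6, 1, 6, 1, 9], .y [4], .l [7, 2, 9, 11, 7, 4], .l [4, 6, 12, 9, 9, 8, 3, 8, 0, 1], .l [7, 2, 9], .l [9, 4, 9, 11, 9, 6], .l [2, 6, 10, 8, 5, 7, 4, 6], .l [9, 4, 9], .l [9, 4, 3], .r 142 [1, 2, 3, 6, 4, 5] [1, 1, 1, 1, 1, 1], .l [13, 12, 12, 11, 4, 6, 4, 5], .l [11, 6, 3], .l [13, 8, 3, 5, 9, 6], .l [0, 10, 6, 10, 2, 0, 7], .l [13, 8, 3]]),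
([p 2 1, p 4 2, s 0 3, g, p 5 4, g, s 3 0, g, s 0 5, g, s 1 0, g], .bot 3, [.l [5, 2, 5, 7, 5, 2], .r 144 [1, 2, 3, 4, 5] [1, 1, 1, 1, 1], .r 78 [1, 4, 5] [2, 3, 1, 1], .r 77 [4, 5] [2, 3, 3]]),
([p 2 1, p 4 2, s 5 0, g, s 0 3, p 6 4, g, s 0 5, g, s 0 6, g, s 3 0, g, s 1 0, g], .lo 4, [.l [2, 6, 8, 6, 3, 5, 4, 7], .l [5, 7, 2, 12, 7, 9, 4, 6, 2, 6, 1], .l [6, 1, 6, 1, 11], .l [3, 13, 6, 0, 9, 11, 4, 2, 8, 1], .l [7, 2, 9, 13, 9, 4], .l [7, 2, 9], .l [4, 6, 14, 11, 11, 10, 3, 10, 0, 3], .l [9, 4, 9, 13, 11, 6], .l [9, 4, 9], .l [2, 6, 10, 8, 5, 7, 4, 8], .l [11, 6, 3, 11, 5, 7, 4, 8], .l [11, 6, 3], .l [15, 14, 14, 13, 4, 6, 4, 5], .y [4, 11], .l [11, 6, 3, 11, 5, 7, 4, 8], .l [11, 6, 3, 11, 5, 7, 4, 8], .l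 [11, 6, 3, 5, 9, 11, 9, 4], .l [3, 5, 2, 10, 1, 7, 8, 0, 6, 1], .l [11, 6, 3, 13, 7, 9, 6, 1], .l [11, 6, 3, 13, 7, 9, 6, 1], .l [0, 12, 1, 6, 3, 5, 9, 2, 0, 5]]),
([p 2 1, p 4 2, s 5 0, g, s 3 0, g, s 0 3, p 6 4, g, s 0 5, g, s 0 6, g, s 1 0, g], .lo 6, [.l [2, 8, 10, 8, 5, 7, 6, 7], .l [5, 9, 4, 12, 5, 7, 2, 4, 2, 6, 1], .l [8, 3, 8, 1, 11], .l [12, 6, 1, 9, 6, 3, 5, 7, 6, 1], .y [4, 6], .l [5, 9, 4, 12, 5, 7, 2, 4, 2, 6, 1], .l [8, 1, 8, 1, 11], .l [7, 9, 2, 5, 3, 9, 3, 4, 6, 3], .l [9, 2, 11, 13, 9, 6], .l [9, 2, 11], .l [5, 7, 2, 5, 3, 9, 3, 4, 6, 3], .l [11, 4, 11, 13, 11, 8], .l [11, 4, 11], .l [2, 8, 12, 10, 7, 9, 6, 8], .l [5, 7, 2, 12, 7, 9, 4, 6, 2, 6, 1], .l [13, 6, 3], .l [6, 1, 6, 1, 4, 9, 3,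 5, 0, 1], .l [5, 7, 2, 10, 5, 7, 8, 0, 6, 3], .l [15, 8, 3, 5, 11, 8], .l [15, 8, 3], .l [0, 12, 6, 12, 2, 0, 9]]),
([p 2 1, p 3 2, s 4 0, g, s 0 0, p 5 3, g, s 0 4, g, s 0 5, g, s 1 0, g], .hi 4, [.r 147 [1, 2, 6, 3, 4, 5] [1, 1, 1, 1, 1, 1], .l [4, 7, 3, 11, 5, 7, 2, 4, 2, 5], .l [6, 1, 6, 1, 9], .y [4], .l [7, 2, 9, 11, 7, 4], .l [4, 6, 12, 9, 9, 8, 3, 8, 0, 1], .l [7, 2, 9], .l [7, 2, 7, 9, 7, 4], .l [9, 4, 9, 11, 9, 6], .l [2, 6, 10, 8, 5, 7, 4, 6], .l [9, 4, 9], .l [9, 4, 3], .r 146 [1, 2, 6, 3, 4, 5] [1, 1, 1, 1, 1, 1], .l [13, 12, 12, 11, 4, 6, 4, 5], .l [11, 6, 3], .l [13, 8, 3, 5, 9, 6], .l [0, 10, 6, 10, 2, 0, 7], .l [13, 8, 3]]),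
([p 2 1, p 3 2, s 4 0, g, p 5 3, g, s 0 4, g, s 0 5, g, s 1 0, g], .bot 3, [.l [5, 2, 5, 7, 5, 2], .r 148 [1, 2, 3, 4, 5] [1, 1, 1, 1, 1], .r 78 [1, 3, 5] [2, 3, 1, 1], .r 77 [3, 5] [2, 3, 3]]),
([p 2 1, p 5 2, s 6 3, g, s 3 0, g, p 4 0, g, s 0 4, p 7 5, g, p 0 6, g, s 0 7, g, s 1 0, g], .hi 6, [.l [8, 3, 10, 3, 13], .l [7, 11, 4, 14, 7, 11, 2, 11, 9], .l [8, 3], .l [8, 1, 10, 3, 13], .l [7, 11, 4, 14, 5, 11, 2, 11, 9], .l [8, 1], .l [8, 1, 10, 3, 13], .l [6, 7], .l [8, 1], .y [6, 8], .l [6, 10, 14, 12, 7, 11, 6, 10], .l [6, 10], .l [11, 4], .l [6, 10], .l [4, 1, 12, 6, 2, 7, 11, 7, 3, 8], .l [6, 12], .l [13, 6], .l [6, 12, 12, 8, 7], .l [4, 1, 14, 8, 2, 9, 11, 5, 3, 8], .l [6, 14], .l [15, 8], .l [4, 1,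 16, 10, 2, 11, 3, 1, 7, 1, 7, 2], .l [6, 16], .l [17, 10]]),
([p 2 1, p 4 2, s 5 3, g, s 3 0, g, s 0 0, p 6 4, g, p 0 5, g, s 0 6, g, s 1 0, g], .hi 6, [.l [3, 9, 6, 12, 9, 3, 9, 7], .l [3, 9, 6, 12, 9, 3, 9, 7], .l [8, 3, 8, 1, 11], .l [8, 1, 8, 1, 4, 1, 7, 5, 0, 5], .r 150 [1, 2, 3, 7, 4, 5, 6] [1, 1, 1, 1, 1, 1, 1], .l [8, 1, 8, 1, 11], .y [6], .l [4, 1, 6, 3, 11, 9, 3, 5, 3, 6], .l [3, 7, 4, 4, 3, 3, 10, 1, 8, 3], .l [9, 2, 11], .l [3, 7, 4, 4, 3, 3, 8, 1, 6, 3], .l [4, 1, 10, 4, 0, 6, 10, 6, 2, 7], .l [3, 7, 4, 4, 3, 3, 10, 1, 8, 5], .l [11, 4, 11], .l [11, 4, 3], .l [4, 1, 12, 6, 0, 8, 10, 4, 2, 7], .l [4, 1, 6, 3, 11, 1, 7, 4], .l [13, 6, 3], .l [13, 12, 14, 8, 3, 5, 10, 5], .l [0, 12, 6, 12, 2, 0,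 9], .l [15, 8, 3]]),
([p 2 1, p 3 2, s 4 0, g, s 0 0, p 5 3, g, p 0 4, g, s 0 5, g, s 1 0, g], .hi 2, [.r 151 [1, 2, 6, 3, 4, 5] [1, 1, 1, 1, 1, 1], .l [3, 7, 4, 4, 3, 3, 8], .l [4, 1, 6, 3, 9], .l [7, 4, 5, 2, 7, 4, 4, 1], .l [0, 7, 4, 8, 3, 0, 3], .l [13, 12, 12, 11, 4], .l [0, 7, 4, 8, 3, 0, 3], .y [2, 7], .l [0, 7, 4, 8, 3, 0, 3], .l [13, 12, 12, 11, 6], .l [0, 7, 4, 8, 3, 0, 3], .l [0, 7, 4, 8, 3, 0, 3], .l [0, 7, 4, 10, 5, 0, 5], .l [13, 12, 12, 11, 8], .l [0, 7, 4, 10, 5, 0, 5], .l [4, 5, 1, 9, 11, 3, 0, 7], .l [11, 10, 10, 9, 10], .l [0, 10, 12, 3, 0]]),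
([p 2 1, p 3 2, s 4 0, g, p 5 3, g, p 0 4, g, s 0 5, g, s 1 0, g], .bot 3, [.l [5, 2, 5], .r 152 [1, 2, 3, 4, 5] [1, 1, 1, 1, 1], .r 78 [1, 3, 5] [2, 3, 1, 1], .r 77 [3, 5] [2, 3, 3]]),
([p 2 1, p 4 2, s 0 3, g, s 3 0, g, p 5 4, g, s 0 5, g, s 1 0, g], .lo 2, [.l [3, 8, 5, 9, 6, 2, 6, 3], .l [4, 1, 7, 4, 8], .l [3, 8, 5, 5, 4, 4, 7], .y [2, 4], .l [3, 8, 5, 9, 6, 2, 6, 3], .l [6, 3, 7, 2, 8], .l [4, 1, 7, 4, 8, 6, 2, 5], .r 149 [1, 2, 4, 6, 5] [3, 1, 1, 1, 1], .r 153 [1, 2, 4, 6, 5] [3, 1, 1, 1, 1], .l [12, 11, 11, 10, 5], .l [3, 6, 3, 9, 6, 2, 4, 2, 4, 1], .l [4, 1, 5, 2, 8, 6, 2, 4, 2, 3], .l [12, 11, 11, 10, 7], .l [4, 1, 5, 2, 6, 6, 2, 1], .l [4, 1, 5, 2, 6, 8, 4, 1], .l [4, 1, 5, 2, 6, 8, 4, 1], .l [10,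 9, 9, 8, 9]]),
([p 2 1, p 6 2, s 4 3, g, s 0 4, g, p 5 0, g, s 0 5, p 7 6, g, m 3 0, g, s 0 7, g, s 1 0, g], .hi 6, [.l [8, 3, 10, 3, 13], .l [7, 11, 4, 14, 7, 11, 2, 11, 9], .l [8, 3], .l [6, 1, 8, 3, 11], .l [8, 1, 10, 3, 13], .l [7, 11, 4, 14, 5, 11, 2, 11, 9], .l [8, 1], .l [8, 1, 10, 3, 13], .l [6, 7], .l [8, 1], .y [6, 8], .l [6, 10, 14, 12, 7, 11, 6, 10], .l [6, 10], .l [11, 4], .l [4, 1, 12, 6, 2, 7, 11, 7, 3, 8], .l [6, 12], .l [13, 6], .l [6, 12, 12, 8, 7], .l [4, 1, 14, 8, 2, 9, 11, 5, 3, 8], .l [6, 14], .l [15, 8], .l [4, 1, 16, 10, 2, 11, 3, 1, 7, 1, 7, 2], .l [6, 16], .l [17, 10]]),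
([p 2 1, p 5 2, s 4 3, g, s 0 4, g, s 0 0, p 6 5, g, m 3 0, g, s 0 6, g, s 1 0, g], .hi 6, [.l [3, 9, 6, 12, 9, 3, 9, 7], .l [3, 9, 6, 12, 9, 3, 9, 7], .l [8, 3, 8, 1, 11], .l [3, 7, 4, 4, 3, 3, 8, 1, 6, 1], .l [8, 1, 8, 1, 4, 1, 7, 5, 0, 5], .r 155 [1, 2, 3, 4, 7, 5, 6] [1, 1, 1, 1, 1, 1, 1], .l [8, 1, 8, 1, 11], .y [6], .l [4, 1, 6, 3, 11, 9, 3, 5, 3, 6], .l [3, 7, 4, 4, 3, 3, 10, 1, 8, 3], .l [9, 2, 11], .l [4, 1, 10, 4, 0, 6, 10, 6, 2, 7], .l [3, 7, 4, 4, 3, 3, 10, 1, 8, 5], .l [11, 4, 11], .l [11, 4, 3], .l [4, 1, 12, 6, 0, 8, 10, 4, 2, 7], .l [4, 1, 6, 3, 11, 1, 7, 4], .l [13, 6, 3], .l [13, 12, 14, 8, 3, 5, 10, 5], .l [0, 12, 6, 12, 2, 0, 9], .l [15, 8, 3]]),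
([p 2 1, p 5 2, s 4 3, g, s 0 4, g, p 6 5, g, m 3 0, g, s 0 6, g, s 1 0, g], .bot 5, [.l [7, 4, 5, 2, 7, 4, 4, 1], .r 156 [1, 2, 3, 4, 5, 6] [1, 1, 1, 1, 1, 1], .r 78 [1, 5, 6] [4, 3, 1, 1], .r 77 [5, 6] [4, 3, 3]]),
([p 2 1, p 4 2, s 0 3, g, p 5 4, g, m 3 0, g, s 0 5, g, s 1 0, g], .lo 2, [.r 157 [1, 2, 3, 6, 4, 5] [1, 1, 1, 1, 1, 1], .l [4, 1, 5, 2, 8], .l [3, 6, 3, 3, 2, 2, 7], .l [0, 6, 3, 7, 3, 0, 3], .l [0, 6, 3, 7, 3, 0, 3], .l [12, 11, 11, 10, 3], .y [2, 6], .l [0, 6, 3, 7, 3, 0, 3], .l [0, 6, 3, 7, 3, 0, 3], .l [12, 11, 11, 10, 5], .l [0, 6, 3, 9, 5, 0, 5], .l [0, 6, 3, 9, 5, 0, 5], .l [12, 11, 11, 10, 7], .l [10, 9, 9, 8, 7], .l [3, 4, 1, 7, 9, 3, 0, 5], .l [0, 9, 11, 3, 0], .l [10, 9, 9, 8, 9]]),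
([p 2 1, p 4 2, s 0 3, g, p 5 4, g, s 0 5, g, m 3 0, g, s 1 0, g], .lo 2, [.l [4, 1, 5, 2, 8, 6, 2, 4, 2, 3], .l [4, 1, 5, 2, 8], .l [3, 6, 3, 3, 2, 2, 7], .l [0, 6, 3, 9, 5, 0, 5], .l [0, 6, 3, 9, 5, 0, 5], .l [12, 11, 11, 10, 3], .l [0, 8, 5, 9, 3, 0, 5], .l [0, 8, 5, 9, 3, 0, 5], .l [12, 11, 11, 10, 5], .y [2, 8], .l [0, 8, 5, 9, 3, 0, 5], .l [0, 8, 5, 9, 3, 0, 5], .l [12, 11, 11, 10, 7], .l [10, 9, 9, 8, 7], .l [3, 4, 1, 7, 9, 3, 0, 3], .l [0, 9, 11, 3, 0], .l [10, 9, 9, 8, 9]]),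
([p 2 1, p 4 2, s 0 3, g, s 0 0, p 5 4, g, s 3 5, g, s 1 0, g], .hi 4, [.l [2, 6, 6, 4, 3, 3, 2, 3], .l [11, 10, 10, 9, 6, 6, 4, 1], .l [3, 7, 4, 8, 4, 2, 2, 0, 4, 1], .l [6, 1, 6, 1, 7], .y [4], .l [11, 10, 10, 9, 6, 6, 2, 3], .l [11, 10, 10, 9, 6, 6, 2, 3], .l [7, 2, 7], .l [11, 10, 10, 9, 4, 4, 2, 3], .l [11, 10, 10, 9, 4, 4, 2, 3], .l [9, 4, 1], .l [9, 8, 8, 7, 4, 4, 2, 5], .l [9, 8, 8, 7, 4, 4, 2, 5], .l [11, 6, 1]]),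
([p 2 1, p 4 2, s 0 3, g, p 5 4, g, s 3 5, g, s 1 0, g], .bot 3, [.l [5, 2, 1], .r 160 [1, 2, 3, 4, 5] [1, 1, 1, 1], .r 78 [1, 4, 5] [2, 1, 1, 1], .r 77 [4, 5] [2, 1, 3]]),
([p 2 1, p 3 2, s 0 0, g, p 4 3, g, s 0 4, g, s 1 0, g], .hi 2, [.y [2], .r 154 [1, 2, 5, 3, 4] [1, 1, 1, 1, 1], .l [3, 6, 3, 3, 2, 2, 5], .l [4, 1, 5, 2, 6], .r 145 [1, 2, 5, 3, 4] [1, 1, 1, 1, 1], .l [10, 9, 9, 8, 3], .r 158 [1, 2, 5, 3, 4] [1, 1, 1, 1, 1], .r 161 [1, 2, 5, 3, 4] [1, 1, 1, 1], .r 141 [1, 2, 5, 3, 4] [1, 1, 1, 1, 1], .l [10, 9, 9, 8, 5], .r 159 [1, 2, 5, 3, 4] [1, 1, 1, 1, 1], .l [3, 4, 1, 5, 7, 3, 0, 3], .l [8, 7, 7, 6, 7], .l [0, 7, 9, 3, 0]]),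
([p 2 1, p 3 2, g, p 4 3, g, s 0 4, g, s 1 0, g], .top 2, [.l [6, 5, 5, 4, 1], .r 162 [1, 2, 3, 4] [1, 1, 1, 1], .r 121 [1, 2, 3] [1, 3, 1], .r 112 [1, 2] [5, 1]]),
([p 2 1, p 5 2, g, m 0 3, g, m 3 4, g, p 0 5, m 4 0, g, s 1 0, g], .lo 7, [.l [4, 9, 5, 10, 5, 1, 5, 1, 3, 4, 1], .l [3, 8], .l [2, 9, 7, 7, 6, 5], .l [4, 9, 5, 10, 3, 5, 1, 6, 5], .l [5, 8], .l [2, 9, 7, 10, 7, 3, 3, 6, 3], .l [4, 5, 3, 7, 5, 8, 5, 1, 1, 4, 1], .l [7, 8], .l [4, 5, 3, 7, 5, 8, 5, 1, 1, 4, 1], .l [1, 7, 6, 8, 2, 0, 5], .r 163 [1, 2, 5, 6] [5, 2, 1, 1], .r 129 [1, 2, 3, 4, 5, 6] [1, 1, 1, 1, 1, 1], .l [6, 7, 1, 1, 0, 7], .y [0, 10, 7, 1], .l [0, 9, 2, 9, 2, 0, 6], .r 127 [1, 2, 5, 6] [5, 1, 1, 1], .l [0, 9, 2, 9, 2, 0, 6]]),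
([p 0 0, p 2 0, g, s 0 1, g, m 0 0, p 1 2, g], .lo 5, [.l [5, 4], .l [5, 3], .l [5, 7, 4], .l [7, 3], .l [5, 7, 4], .l [3, 7, 1], .l [7, 1], .r 76 [3, 2] [3, 1, 1], .y [5], .l [3, 5, 6], .l [8, 2], .l [5, 7]]),
([p 1 0, p 2 0, g, p 0 1, g, p 0 2, g], .hi 1, [.r 0 [3, 2] [1, 3, 1], .l [1, 2], .l [3, 1], .l [1, 2], .r 0 [3, 2] [3, 1, 1], .l [1, 4], .l [5, 3], .y [1, 5], .r 62 [3, 2] [3, 1, 1], .l [1, 6], .l [7, 5]]),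
([p 2 1, p 5 2, g, s 0 3, g, p 4 0, g, s 0 4, p 3 5, g, s 1 0, g], .lo 7, [.l [5, 9, 6, 8, 6, 7], .l [6, 10, 4, 4, 3, 1, 4, 2, 3], .l [4, 10, 6, 6, 5, 4, 5], .l [2, 10, 8, 9, 4, 1, 2, 5, 4, 1], .l [2, 10, 8, 8, 7, 6, 3], .l [8, 10, 2, 2, 1, 6, 1, 4, 1], .y [5, 7], .l [2, 10, 8, 9, 6, 3, 4, 5, 4, 1], .l [2, 10, 8, 8, 7, 6, 1], .l [8, 10, 2, 2, 1, 6, 1, 4, 1], .l [2, 8, 6, 9, 6, 1, 2, 5, 4, 1], .l [4, 8, 4, 4, 3, 1, 6, 4, 1], .l [2, 8, 6, 6, 5, 4, 5], .l [6, 8, 2, 7, 1, 4, 5, 0, 3], .l [0, 9, 2, 9, 2, 0, 5, 1, 4, 1], .l [4, 8, 4, 4, 3, 1, 8, 6, 1], .l [2, 8, 6, 6, 5, 4, 7]]),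
([p 2 1, p 5 2, g, s 6 3, g, s 4 0, g, s 0 4, p 3 5, g, s 1 0, g, p 0 6, g], .lo 7, [.l [5, 9, 6, 8, 6, 7], .l [9, 5, 9, 1, 8], .l [4, 10, 6, 6, 5, 4, 5], .l [2, 10, 8, 9, 4, 1, 2, 5, 4, 1], .l [2, 10, 8, 8, 7, 6, 3], .l [2, 10, 8, 9, 6, 3, 4, 5, 4, 1], .y [5, 7], .l [2, 10, 8, 9, 4, 1, 2, 5, 4, 1], .l [2, 10, 8, 8, 7, 6, 1], .l [2, 10, 8, 9, 4, 1, 2, 5, 4, 1], .l [3, 7, 8, 12, 10, 10, 8, 5], .l [5, 6, 9, 2, 3, 10, 6, 6, 4, 1], .l [2, 8, 6, 6, 5, 4, 5], .l [10, 2, 5, 10, 4, 4, 2, 3], .l [3, 7, 10, 12, 8, 8, 6, 7], .l [5, 6, 11, 4, 5, 10, 4, 4, 2, 3], .l [2, 8, 6, 6, 5, 4, 7], .l [0, 9, 6, 4, 10, 4, 0, 3], .l [14, 6, 9], .l [2, 8, 6, 6, 5, 4, 9]]),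
([p 2 1, p 5 2, g, s 0 3, g, s 4 0, g, s 0 4, p 3 5, g, s 1 0, g], .lo 3, [.l [2, 10, 8, 9, 6, 4, 1, 3, 4, 3], .l [5, 1, 9, 5, 8], .l [2, 10, 8, 9, 6, 4, 1, 3, 4, 3], .l [3, 9, 1, 3, 6, 6, 4, 5], .l [5, 1, 9, 5, 8], .l [3, 9, 1, 3, 6, 6, 4, 5], .l [3, 7, 1, 1, 4, 4, 2, 3], .l [7, 3, 3, 7, 4, 6, 4, 5], .l [3, 9, 3, 1, 6, 6, 4, 5], .l [3, 9, 2, 8, 8, 6, 7], .l [2, 8, 6, 9, 1, 6, 4, 5, 4, 1], .l [2, 10, 6, 10, 2, 4, 4, 2, 1], .l [2, 8, 6, 9, 1, 6, 4, 5, 4], .y [0, 10, 3, 8, 1], .l [7, 1, 7, 1, 6, 3, 6, 2, 0, 3], .r 168 [1, 2, 3, 4, 5, 6] [1, 1, 1, 1, 1, 1], .l [0, 9, 1, 5, 5, 8, 2, 0, 5]]),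
([p 2 1, p 5 2, g, s 0 3, g, s 0 4, p 3 5, g, s 4 0, g, s 1 0, g], .lo 3, [.l [4, 8, 4, 9, 3, 6, 2, 5, 4, 1], .l [5, 1, 7, 3, 8], .l [2, 8, 6, 9, 6, 2, 2, 6, 5], .l [3, 7, 8, 6, 4, 4, 2, 5], .l [3, 7, 8, 6, 4, 4, 2, 5], .l [3, 7, 2, 6, 6, 4, 7], .l [2, 6, 4, 9, 3, 6, 2, 5, 4, 1], .l [2, 8, 4, 10, 4, 6, 6, 4, 3], .l [2, 6, 4, 9, 3, 6, 2, 5, 4], .l [3, 5, 6, 6, 4, 4, 2, 3], .l [2, 6, 4, 9, 1, 6, 2, 5, 4, 1], .l [3, 5, 6, 8, 6, 6, 4, 5], .l [2, 6, 4, 9, 1, 6, 2, 5, 4], .y [0, 10, 3, 6, 1], .l [3, 5, 6, 10, 8, 8, 6, 3], .l [3, 5, 6, 10, 8, 8, 6, 3], .l [0, 9, 1, 2, 3, 3, 6, 2, 0, 3]]),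
([p 2 1, p 4 2, g, s 0 3, g, s 0 0, p 3 4, g, s 1 0, g], .hi 5, [.l [5, 7, 4, 6, 4, 5], .l [4, 8, 4, 4, 3, 2, 3], .l [7, 3, 7, 1, 6], .l [2, 6, 4, 4, 3, 2, 1], .r 169 [1, 2, 3, 5, 4] [1, 1, 1, 1, 1], .r 167 [1, 2, 3, 5, 4] [1, 1, 1, 1, 1], .l [2, 8, 6, 6, 5, 4, 1], .y [5], .r 170 [1, 2, 3, 5, 4] [1, 1, 1, 1, 1], .l [2, 6, 4, 4, 3, 2, 3], .l [8, 2, 3], .l [0, 7, 4, 2, 6, 2, 0, 1], .l [2, 6, 4, 4, 3, 2, 5], .l [10, 4, 5]]),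
([p 0 1, p 3 0, g, s 0 2, g, s 0 0, p 2 3, g, s 1 0, g], .lo 0, [.r 171 [1, 4, 2, 3] [1, 1, 1, 1], .l [2], .r 166 [4, 3] [1, 4, 3], .l [2], .l [4], .l [2, 5, 2, 5, 5, 2, 5], .l [4], .l [4], .l [7], .l [2, 8, 5, 2, 2, 4, 5], .l [7], .y [0, 8], .l [9], .l [2, 10, 7, 2, 2, 6, 1], .l [9]]),
([p 0 1, p 3 0, g, s 0 2, g, p 0 0, p 2 3, g, s 1 0, g], .hi 5, [.l [2, 5, 2, 4, 4, 2, 3], .l [5, 7, 4], .l [3, 8, 5, 8, 1, 2, 3], .l [7, 3], .l [3, 5, 4], .l [3, 7, 1], .l [5, 8, 3, 8, 1, 4, 1], .l [7, 1], .y [5], .l [3, 5, 6], .l [5, 7], .l [8, 2], .l [3, 5, 8], .l [5, 9], .l [10, 4]]),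
([p 0 1, p 3 0, g, s 0 2, g, p 2 3, g, s 1 0, g], .bot 4, [.c, .r 172 [1, 2, 3] [1, 1, 1, 1], .r 173 [1, 2, 3] [1, 1, 1, 1], .r 165 [2, 3] [1, 1, 3]]),
([p 2 1, p 4 2, g, m 7 3, g, p 6 4, m 3 5, g, p 0 6, g, m 5 0, g, s 1 0, g, s 0 7, g], .lo 8, [.l [3, 9, 11, 9, 4], .l [3, 9], .l [1, 7, 6, 12, 10, 6, 8, 6, 7], .l [5, 9, 11, 9, 2], .l [5, 9], .l [1, 7, 6, 12, 8, 4, 6, 4, 7], .l [5, 10, 9, 5, 3, 7, 5, 8, 5, 1, 1, 4, 1], .l [8, 9], .l [5, 10, 9, 5, 3, 7, 5, 8, 5, 1, 1, 4, 1], .l [9, 12, 8, 10, 9, 9, 5, 8, 1, 3, 1, 4, 3], .l [8, 13, 8, 14, 2, 7, 1, 2, 7, 2, 5], .l [5, 8, 7, 7, 3, 10, 7, 3, 1, 5, 3, 4, 1], .l [5, 8, 7, 7, 3, 8, 5, 3, 1, 3, 1, 2, 1], .l [7, 10, 8, 8, 5, 7, 5, 8, 3, 5, 1, 6, 2, 0, 1], .l [12, 8,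 9, 6, 7, 5, 5, 1, 9, 6, 7, 4, 1], .l [7, 8, 5, 5, 1, 1, 0, 7], .y [0, 12, 8, 5, 1], .l [1, 5, 4, 10, 12, 8, 10, 8, 3], .l [1, 5, 4, 10, 12, 8, 10, 8, 3], .l [4, 5, 1, 10, 3, 10, 2, 0, 7], .l [1, 5, 4, 10, 14, 10, 12, 10, 3], .l [1, 5, 4, 10, 14, 10, 12, 10, 3], .l [3, 13, 5, 13, 6, 2, 7]]),
([p 2 1, p 4 2, g, m 6 3, g, p 5 4, m 3 0, g, p 0 5, g, s 1 0, g, s 0 6, g], .hi 6, [.l [3, 7, 4], .l [1, 7, 6, 10, 8, 4, 7], .l [3, 7], .l [5, 7, 2], .l [1, 7, 6, 10, 6, 2, 7], .l [5, 7], .l [5, 10, 9, 9, 5, 8, 1, 5, 3, 4, 1], .l [5, 6, 3, 5, 3, 3, 2, 3], .l [10, 6, 7, 4, 5, 1, 9, 6, 7, 4, 1], .l [5, 6, 3, 5, 3, 3, 2, 3], .l [5, 8, 7, 7, 3, 8, 3, 5, 1, 4, 1], .l [5, 6, 3, 5, 3, 3, 2, 5], .r 175 [1, 2, 3, 4, 7, 5, 6] [1,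 1, 1, 1, 1, 1, 1], .l [5, 8, 7, 7, 3, 6, 1, 3, 1, 2, 3], .l [2, 5, 3, 8, 3, 8, 4, 2, 5], .l [1, 5, 4, 8, 10, 6, 3], .y [3, 6, 12], .l [5, 8, 7, 7, 3, 6, 1, 3, 1, 2, 5], .l [2, 5, 3, 8, 3, 10, 6, 2, 7], .l [1, 5, 4, 8, 12, 8, 3]]),
([p 2 1, p 4 2, g, m 5 3, g, p 0 4, m 3 0, g, s 1 0, g, s 0 5, g], .lo 5, [.r 174 [1, 6, 4] [1, 3, 2, 3], .l [3, 6], .l [2, 7, 5, 5, 4, 3], .l [2, 7, 5, 8, 5, 1, 1, 4, 1], .l [5, 6], .l [2, 7, 5, 8, 5, 1, 1, 4, 1], .l [1, 5, 4, 6, 2, 0, 3], .r 163 [1, 2, 4, 6] [3, 2, 1, 3], .r 176 [1, 2, 3, 4, 6, 5] [1, 1, 1, 1, 1, 1], .l [4, 5, 1, 1, 0, 5], .y [0, 8, 5, 1], .l [0, 7, 2, 7, 2, 0, 4], .l [2, 12, 8, 1, 9, 4, 1, 6, 6, 2, 3], .l [0, 7, 2, 7, 2, 0, 4], .l [0, 7, 2, 9, 4, 0, 6], .l [10,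 6, 6, 3, 9, 4, 4, 2, 5], .l [0, 7, 2, 9, 4, 0, 6]]),
([p 2 1, p 4 2, g, m 0 3, g, p 0 4, m 3 0, g, s 1 0, g], .lo 3, [.l [5, 1, 6, 2, 7], .l [5, 1], .r 164 [1, 2, 5, 3, 4] [1, 1, 1, 1, 1], .l [5, 1, 6, 2, 7], .l [5, 1], .l [3, 4], .y [3, 6], .l [2, 5, 3, 8, 1, 5, 1, 4, 1], .l [8, 4], .l [3, 7], .r 123 [1, 2, 3, 4, 5] [1, 1, 1, 1], .r 177 [1, 2, 3, 4, 5] [1, 1, 1, 1, 1], .l [10, 6], .l [3, 9]]),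
([p 1 0, p 3 1, g, m 0 2, g, p 0 3, m 2 0, g], .hi 0, [.r 70 [4, 1, 3] [1, 3, 2], .l [0, 2], .l [3, 2], .l [3, 2], .r 70 [4, 1, 3] [3, 1, 2], .l [0, 4], .l [5, 4], .y [0, 5, 1], .r 178 [4, 1, 2, 3] [1, 1, 1, 1], .l [0, 7], .l [8, 7]]),
([p 1 0, p 2 1, g, p 0 2, m 0 3, g, p 3 0, g], .hi 0, [.l [6, 3, 5, 2, 5], .l [0, 2], .l [3, 2], .y [0, 3, 1], .l [4, 3], .l [6, 5, 5, 4, 4, 2, 3], .l [0, 5], .l [6, 5], .l [8, 7, 7, 6, 6, 4, 1], .l [0, 7], .l [8, 7]]),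
([p 0 1, p 2 0, g, p 0 2, m 0 3, g, s 1 0, g, m 3 0, g], .hi 1, [.l [1, 3, 2, 4, 6, 4, 1], .l [1, 5, 4, 6, 8, 6, 1], .l [1, 2], .l [3, 1], .y [1, 3], .l [4, 2], .l [1, 5, 9, 7, 2], .l [1, 5], .l [6, 4], .l [1, 7, 9, 5, 2], .l [1, 7], .l [8, 6], .l [1, 3, 2, 4, 6, 4, 5], .l [1, 9], .l [10, 8]]),
([p 0 0, p 1 0, g, p 0 1, m 3 2, g, s 0 3, g, m 2 0, g], .hi 0, [.y [0], .l [0, 2, 7, 1, 7, 5, 2], .l [0, 2], .l [3, 2], .l [0, 2], .l [1, 8, 3, 9, 5, 2, 5], .l [0, 5], .l [6, 5], .r 181 [4, 1, 2] [1, 1, 1, 1], .l [1, 6, 1, 9, 7, 2, 3], .l [0, 7], .l [8, 7], .l [1, 6, 1, 7, 5, 2, 5], .l [0, 9], .l [10, 9]]),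
([p 1 0, p 2 1, g, p 0 2, m 0 3, g, s 3 0, g], .hi 0, [.l [6, 3, 5, 2, 5], .l [0, 2], .l [3, 2], .y [0, 3, 1], .l [4, 3], .l [6, 5, 5, 4, 4, 2, 3], .l [0, 5], .l [6, 5], .l [8, 7, 7, 6, 6, 4, 1], .l [0, 7], .l [8, 7]]),
([p 1 0, p 2 1, g, p 3 2, g, s 0 3, g], .hi 0, [.l [6, 3, 4, 1, 1, 2, 1], .l [0, 2], .l [3, 2], .l [0, 4, 1, 4, 2, 0, 1], .l [0, 4], .l [5, 4], .y [0, 5, 3, 1], .r 163 [4, 1, 2, 3] [1, 1, 1, 1], .l [0, 6], .l [7, 6]]),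
([p 2 1, p 3 2, s 0 0, g, p 5 3, m 6 4, g, m 4 0, g, p 0 5, g, s 1 6, g], .hi 2, [.y [2], .l [7, 12, 12, 6, 6, 5, 1, 4, 0, 6, 5, 5, 1], .l [3, 6, 3, 3, 2, 2, 9], .l [4, 1, 5, 2, 10], .l [2, 6, 8, 6, 2], .l [1, 4, 3, 3, 2, 4, 6, 4, 7], .l [7, 4, 12, 9, 2, 9, 3], .l [4, 11, 10, 10, 7, 9, 4, 2, 6, 6, 5, 5, 3], .l [5, 12, 12, 4, 4, 3, 6], .l [5, 11, 9, 9, 6, 10, 1, 6, 1, 2, 5], .l [5, 10, 10, 4, 4, 3, 6], .l [0, 12, 1, 8, 10, 7, 8, 4, 2, 3, 4, 1, 3], .l [5, 12, 12, 4, 4, 3, 8], .l [9, 3, 5, 1, 10, 7, 8, 4, 4, 3, 6, 2, 3], .l [11, 10, 10, 9, 10, 1, 5, 6, 2, 1, 3, 1, 1], .l [5, 10, 10, 4, 4, 3, 8], .l [0, 10, 12, 3, 0]]),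
([p 2 1, p 3 2, g, p 5 3, m 6 4, g, m 4 0, g, p 0 5, g, s 1 6, g], .top 2, [.l [0, 3, 7, 5, 0, 2, 4, 1], .r 185 [1, 2, 3, 4, 5, 6] [1, 1, 1, 1, 1], .r 121 [1, 2, 3] [1, 6, 1], .r 112 [1, 2] [8, 1]]),
([p 1 0, p 2 1, g, p 4 2, m 5 3, g, m 3 0, g, p 0 4, g, s 0 5, g], .hi 0, [.l [0, 2, 11, 5, 6, 2, 1, 3, 6, 0, 3], .l [0, 2], .l [3, 2], .l [1, 3, 2, 4, 6, 4, 1], .l [0, 5], .l [6, 5], .l [10, 5, 7, 1, 9, 4, 7, 4, 1], .l [0, 7], .l [8, 7], .y [0, 8, 3, 1], .l [8, 3, 5, 1, 9, 6, 7, 4, 1], .l [0, 9], .l [10, 9], .r 186 [6, 1, 2, 3, 4, 5] [1, 1, 1, 1, 1], .l [4, 9, 5, 10, 2, 4, 1, 6, 1, 2, 3], .l [0, 11], .l [12, 11]]),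
([p 1 0, p 2 1, g, p 4 2, m 3 0, g, s 0 3, g, p 0 4, g], .hi 0, [.l [8, 1, 9, 6, 6, 2, 3], .l [0, 2], .l [3, 2], .l [8, 3, 9, 4, 4, 2, 5], .l [0, 5], .l [6, 5], .l [0, 5, 7, 4, 5, 2, 3, 0, 0], .l [6, 1, 9, 6, 6, 4, 1], .l [0, 7], .l [8, 7], .y [0, 8, 3, 1], .l [6, 1, 7, 4, 4, 2, 5], .l [0, 9], .l [10, 9]]),
([p 2 1, p 3 2, g, p 5 3, m 7 4, g, p 6 5, g, p 0 6, g, m 4 0, g, s 1 0, g, s 0 7, g], .lo 14, [.l [0, 13, 10, 13, 2, 0, 8, 8, 5, 5, 3, 5, 3], .l [16, 12, 2, 10, 1, 11, 2], .l [0, 13, 10, 13, 2, 0, 8], .l [2, 3, 1, 12, 7, 12, 2, 0, 7, 7, 5, 3, 1], .l [6, 15, 15, 1, 7, 4, 4, 2, 9], .l [1, 3, 2, 12, 14, 6, 12, 10, 1], .l [8, 15, 15, 3, 4, 2, 9, 7, 5, 4, 4, 2, 5], .l [8, 15, 15, 3, 4, 2, 7, 4, 4, 2, 7], .l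 [1, 3, 2, 12, 14, 8, 10, 8, 10, 8, 1], .l [1, 10, 15, 15, 5, 6, 4, 4, 2, 7, 5, 2, 5], .l [1, 10, 15, 15, 5, 6, 4, 4, 2, 7, 5, 2, 5], .l [1, 3, 2, 12, 14, 10, 12, 6, 1], .y [4, 10, 14], .l [2, 12, 14, 5, 1, 2, 12, 7, 10, 0, 7, 5, 1], .l [2, 12, 14, 5, 1, 2, 12, 7, 10, 0, 7], .l [3, 6, 5, 5, 3, 10, 1, 10, 10, 7, 1, 6, 1], .l [5, 10, 8, 4, 3, 7, 9, 5, 1, 2, 6, 3, 4, 0, 1], .l [5, 10, 8, 4, 3, 7, 11, 7, 1, 2, 8, 3, 6, 0, 3], .l [5, 10, 8, 4, 3, 7, 11, 7, 1, 2, 8, 3, 6, 0, 3], .l [15, 3, 13, 13, 12, 13, 10, 7, 8, 8, 1], .l [6, 8, 7, 7, 4, 5, 9, 11, 1, 7, 5, 2, 5], .l [4, 13, 15, 1, 7, 4, 4, 2, 9], .l [14, 9, 10, 8, 8, 6, 6, 1, 9, 4, 7, 4, 1]]),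
([p 2 1, p 3 2, g, p 5 3, m 6 4, g, p 0 5, g, m 4 0, g, s 1 0, g, s 0 6, g], .lo 6, [.l [3, 7, 9, 7, 2], .l [3, 7], .l [1, 5, 4, 10, 8, 4, 6, 4, 5], .l [3, 8, 7, 7, 5, 8, 5, 1, 1, 4, 1], .l [6, 7], .l [3, 8, 7, 7, 5, 8, 5, 1, 1, 4, 1], .l [0, 11, 5, 1, 5, 1, 5, 1, 3, 6, 2, 0, 1], .r 189 [1, 2, 3, 4, 5, 7, 6] [1, 1, 1, 1, 1, 1, 1], .l [5, 6, 3, 3, 1, 1, 0, 3], .l [5, 6, 3, 3, 1, 1, 0, 3], .l [5, 6, 3, 4, 10, 1, 6, 2, 7, 4, 4, 0, 1], .l [10, 5, 7, 5, 5, 1, 9, 6, 7, 4, 1], .l [5, 6, 3, 3, 1, 1, 0, 5], .y [0, 10, 6, 3, 1], .l [1, 3, 2, 8, 10, 6, 8, 6, 1], .l [1, 3, 2, 8, 10, 6, 8, 6, 1], .l [2, 3, 1, 8, 3, 8, 2, 0, 5], .l [1, 3, 2, 8, 12, 8, 10, 8, 1], .l [1, 3, 2, 8, 12, 8, 10, 8, 1], .l [2, 3, 1, 8, 3, 10,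 4, 0, 7]]),
([p 2 1, p 3 2, g, p 5 3, m 8 4, g, p 0 5, g, m 4 6, g, m 6 7, g, m 7 0, g, s 1 8, g], .lo 6, [.l [3, 7, 9, 7, 2], .l [3, 7], .l [0, 15, 12, 4, 4, 1, 11, 8, 8, 6, 6, 4, 4, 2, 1, 3, 1, 1], .l [3, 8, 7, 7, 5, 12, 9, 1, 1, 8, 5], .l [6, 7], .l [3, 8, 7, 7, 5, 12, 9, 1, 1, 8, 5], .l [4, 15, 9, 1, 3, 11, 0, 8, 10, 4, 1], .l [16, 15, 15, 14, 14, 12, 12, 9, 11, 7, 7, 5, 5, 3, 1, 3, 1, 1], .l [0, 15, 9, 1, 9, 5, 5, 3, 7, 1, 8, 4, 6, 2, 4, 3, 3, 1], .l [4, 15, 9, 3, 5, 3, 3, 9, 0, 6, 8, 4, 1], .l [6, 10, 9, 9, 6, 6, 4, 11, 5, 7, 1, 7, 7, 5, 5, 3, 3, 1], .l [0, 15, 9, 3, 5, 3, 7, 3, 7, 1, 8, 4, 6, 2, 4, 3, 3, 1], .l [4, 15, 9, 5, 7, 5, 5, 3, 3, 7, 0, 4, 6, 4, 1], .l [4, 15, 15, 3, 3, 2, 2, 0, 2, 1, 3, 1,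 5, 3, 3, 1, 3, 1], .l [4, 15, 9, 5, 7, 5, 5, 3, 3, 7, 0, 4, 6, 4, 1], .y [0, 14, 4, 8, 10, 12, 6, 3, 1], .l [0, 15, 1, 12, 14, 11, 12, 10, 10, 2, 0, 0, 5], .l [4, 15, 15, 3, 3, 2, 2, 0, 2, 1, 3, 1, 7, 5, 5, 3, 3, 1], .l [5, 6, 3, 3, 1, 1, 0, 9], .l [0, 13, 7, 13, 2, 0, 3, 2, 2, 0, 5], .l [0, 13, 15, 7, 7, 4, 5, 2, 3, 0, 0], .l [0, 13, 7, 13, 2, 0, 3, 2, 2, 0, 5]])]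

def d00_3 : List (List Item × Qry × List Rf) := [
([p 2 1, p 3 2, g, p 5 3, m 9 4, g, p 6 5, g, p 0 6, g, m 4 7, g, m 7 8, g, s 8 0, g, s 1 9, g], .lo 8, [.l [3, 9, 9, 7, 9, 7, 2], .l [3, 9], .l [0, 17, 14, 6, 6, 4, 4, 1, 11, 8, 8, 6, 6, 4, 3, 5, 1, 3], .l [3, 8, 7, 7, 5, 14, 11, 3, 3, 1, 1, 8, 5], .l [6, 9], .l [0, 17, 11, 3, 11, 5, 5, 3, 9, 1, 3, 1, 8, 4, 3, 5, 1, 3], .l [4, 17, 9, 1, 9, 7, 13, 3, 3, 2, 2, 0, 7], .l [8, 9], .l [4, 17, 9, 1, 9, 7, 13, 3, 3, 2, 2, 0, 7], .l [0, 17, 9, 1, 11, 7, 9, 3, 9, 5, 10, 2, 6, 3, 4, 0, 1], .l [6, 12, 9, 11, 10, 10, 8, 13, 5, 9, 11, 7, 5, 7, 1, 5, 1, 3], .l [0, 17, 9, 1, 11, 7, 9, 3, 9, 5, 10, 2, 4, 2, 4, 3, 3, 1], .l [4, 17, 9, 3, 5, 3, 13, 3, 3, 2, 2, 0, 5], .l [4,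 17, 17, 3, 3, 2, 2, 0, 2, 1, 5, 3, 3, 1, 3, 1, 3, 1], .l [4, 17, 9, 3, 5, 3, 13, 3, 3, 2, 2, 0, 5], .l [11, 12, 10, 12, 10, 10, 8, 8, 5, 5, 3, 8, 3, 5, 1, 4, 1], .l [4, 17, 17, 3, 3, 2, 2, 0, 2, 1, 5, 3, 3, 1, 5, 3, 3, 1], .l [7, 8, 6, 6, 3, 3, 1, 1, 0, 7], .y [0, 16, 4, 10, 12, 14, 8, 6, 3, 1], .l [11, 12, 10, 14, 12, 12, 10, 10, 7, 7, 5, 8, 1, 5, 3, 4, 1], .l [4, 17, 17, 3, 3, 2, 2, 0, 2, 1, 5, 3, 3, 1, 7, 5, 5, 3], .l [7, 8, 6, 6, 3, 3, 1, 1, 0, 9], .l [0, 15, 7, 15, 2, 0, 3, 2, 2, 0, 7], .l [0, 15, 17, 9, 9, 7, 7, 4, 5, 2, 3, 0, 0], .l [0, 15, 7, 15, 2, 0, 3, 2, 2, 0, 7]]),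
([p 2 1, p 3 2, g, p 5 3, m 8 4, g, p 0 5, g, m 4 6, g, m 6 7, g, s 7 0, g, s 1 8, g], .lo 6, [.l [3, 7, 9, 7, 2], .l [3, 7], .l [1, 5, 4, 14, 12, 4, 6, 4, 9], .l [3, 8, 7, 7, 5, 12, 9, 1, 1, 8, 5], .l [6, 7], .l [3, 8, 7, 7, 5, 12, 9, 1, 1, 8, 5], .l [4, 15, 9, 1, 3, 11, 0, 8, 10, 4, 1], .r 192 [1, 2, 3, 4, 5, 9, 6, 7, 8] [1, 1, 1, 1, 1, 1, 1, 1], .l [4, 15, 9, 1, 3, 11, 0, 8, 10, 4, 1], .l [4, 15, 9, 3, 5, 3, 3, 9, 0, 6, 8, 4, 1], .l [11, 12, 8, 10, 8, 8, 5, 5, 3, 8, 3, 5, 1, 4, 1], .l [4, 15, 9, 3, 5, 3, 3, 9, 0, 6, 8, 4, 1], .l [9, 10, 8, 10, 8, 8, 5, 5, 3, 8, 3, 5, 1, 4, 1], .l [9, 10, 8, 10, 8, 8, 5, 5, 3, 8, 3, 5, 1, 4, 1], .l [5, 6, 3, 3, 1, 1, 0, 7], .y [0, 14, 4, 8, 10, 12, 6, 3, 1], .l [9, 10,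 8, 12, 10, 10, 7, 7, 5, 8, 1, 5, 3, 4, 1], .l [9, 10, 8, 12, 10, 10, 7, 7, 5, 8, 1, 5, 3, 4, 1], .l [5, 6, 3, 3, 1, 1, 0, 9], .l [0, 13, 7, 13, 2, 0, 3, 2, 2, 0, 5], .l [0, 13, 15, 7, 7, 4, 5, 2, 3, 0, 0], .l [0, 13, 7, 13, 2, 0, 3, 2, 2, 0, 5]]),
([p 2 1, p 3 2, g, p 5 3, m 8 4, g, p 0 5, g, m 4 6, g, s 7 0, g, m 6 7, g, s 1 8, g], .hi 10, [.l [3, 11, 11, 11, 11, 9, 9, 5, 2], .l [1, 5, 4, 14, 1, 1, 10, 8, 8, 6, 6, 2, 5], .l [3, 11, 11, 11, 11, 9, 9, 5, 2], .l [3, 8, 7, 7, 5, 12, 3, 7, 1, 8, 5, 1, 1], .l [4, 15, 1, 1, 7, 5, 5, 3, 3, 7, 0, 4, 6, 4, 1], .l [3, 8, 7, 7, 5, 12, 1, 1, 1, 5, 1, 6, 3], .y [0, 14, 4, 8, 12, 10, 6, 3, 1], .l [4, 15, 3, 5, 3, 3, 11, 3, 3, 2, 2, 0, 5], .l [4, 15, 1, 1, 5, 3, 3, 1, 9,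 3, 3, 2, 2, 0, 3], .l [12, 3, 7, 5, 12, 6, 8, 6, 6, 4, 7], .l [9, 14, 12, 12, 8, 10, 9, 9, 7, 8, 5, 1, 3, 4, 1], .l [9, 14, 12, 12, 8, 10, 9, 9, 7, 8, 5, 1, 3, 4, 1], .l [12, 1, 13, 9, 9, 5, 7, 6, 6, 4, 7], .l [12, 1, 13, 9, 9, 5, 7, 6, 6, 4, 7, 5, 3], .l [10, 13, 1, 11, 11, 9, 9, 5, 7, 6, 6, 4, 5], .l [12, 1, 13, 9, 9, 5, 7, 6, 6, 4, 7], .l [4, 15, 15, 3, 3, 2, 8, 10, 1, 8, 1, 6, 2, 0, 3], .l [4, 15, 15, 3, 3, 2, 8, 10, 1, 8, 1, 6, 2, 0, 3], .l [9, 12, 10, 10, 6, 8, 7, 9, 5, 9, 2, 4, 2, 4, 4, 0, 1], .l [1, 3, 2, 12, 14, 10, 10, 10, 10, 8, 8, 4, 1], .l [0, 13, 3, 1, 3, 1, 1, 9, 2, 0, 3, 2, 2, 0, 3], .l [1, 3, 2, 12, 1, 1, 12, 10, 10, 8, 8, 4, 1]]),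
([p 2 1, p 3 2, g, p 5 3, m 7 4, g, p 0 5, g, m 4 6, g, m 6 0, g, s 1 7, g], .hi 10, [.l [3, 11, 11, 9, 9, 5, 2], .l [1, 5, 4, 12, 10, 8, 8, 6, 6, 2, 5], .l [3, 11], .l [3, 8, 7, 7, 5, 10, 1, 5, 1, 6, 3], .l [4, 13, 7, 5, 5, 3, 3, 7, 0, 4, 6, 4, 1], .l [6, 11], .y [0, 12, 4, 8, 10, 6, 3, 1], .l [4, 13, 1, 3, 11, 3, 3, 2, 2, 0, 5], .l [4, 13, 5, 3, 3, 1, 9, 3, 3, 2, 2, 0, 3], .l [8, 11], .r 194 [1, 2, 3, 4, 5, 6, 8, 7] [1, 1, 1, 1, 1, 1, 1], .l [9, 12, 10, 10, 6, 8, 7, 7, 5, 5, 4, 1], .l [10, 11], .r 193 [1, 2, 3, 4, 5, 6, 8, 7] [1, 1, 1, 1, 1, 1, 1], .l [9, 10, 8, 8, 4, 6, 5, 5, 3, 3, 2, 3], .r 191 [1, 2, 3, 4, 5, 6, 8, 7] [1, 1, 1, 1, 1, 1, 1], .l [1, 3, 2, 10, 12, 10, 10, 8, 8, 4, 1], .l [7, 8, 4, 6, 5,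 5, 3, 6, 1, 6, 4, 2, 3], .l [1, 3, 2, 10, 12, 10, 10, 8, 8, 4, 1]]),
([p 2 1, p 3 2, g, p 5 3, m 8 4, g, p 6 5, g, p 0 6, g, m 4 7, g, s 7 0, g, s 1 8, g], .lo 8, [.l [3, 9, 9, 7, 9, 7, 2], .l [3, 9], .l [1, 5, 4, 14, 12, 6, 6, 4, 6, 4, 7], .l [3, 8, 7, 7, 5, 12, 9, 3, 3, 1, 1, 6, 3], .l [6, 9], .l [3, 8, 7, 7, 5, 12, 9, 3, 3, 1, 1, 6, 3], .l [4, 15, 7, 1, 7, 5, 11, 3, 3, 2, 2, 0, 5], .l [8, 9], .l [4, 15, 7, 1, 7, 5, 11, 3, 3, 2, 2, 0, 5], .l [4, 15, 7, 1, 13, 3, 3, 2, 2, 0, 5], .l [2, 6, 11, 8, 1, 12, 3, 7, 10, 6, 3, 6, 2, 0, 3], .l [4, 15, 7, 1, 13, 3, 3, 2, 2, 0, 5], .l [9, 12, 10, 10, 8, 8, 5, 5, 3, 8, 3, 5, 1, 4, 1], .l [9, 12, 10, 10, 8, 8, 5, 5, 3, 8, 3, 5, 1, 4, 1], .l [7, 8, 6, 6, 3, 3, 1, 1, 0,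 5], .y [0, 14, 4, 10, 12, 8, 6, 3, 1], .l [9, 14, 12, 12, 10, 10, 7, 7, 5, 8, 1, 5, 3, 4, 1], .l [9, 14, 12, 12, 10, 10, 7, 7, 5, 8, 1, 5, 3, 4, 1], .l [7, 8, 6, 6, 3, 3, 1, 1, 0, 7], .l [0, 13, 5, 13, 2, 0, 3, 2, 2, 0, 5], .l [0, 13, 15, 9, 9, 7, 7, 4, 5, 2, 3, 0, 0], .l [0, 13, 5, 13, 2, 0, 3, 2, 2, 0, 5]]),
([p 2 1, p 3 2, g, p 5 3, m 7 4, g, p 0 5, g, m 4 6, g, s 6 0, g, s 1 7, g], .lo 6, [.l [3, 7, 9, 7, 2], .l [3, 7], .l [1, 5, 4, 12, 10, 4, 6, 4, 7], .l [3, 8, 7, 7, 5, 10, 7, 1, 1, 6, 3], .l [6, 7], .l [3, 8, 7, 7, 5, 10, 7, 1, 1, 6, 3], .l [4, 13, 7, 1, 3, 9, 0, 6, 8, 4, 1], .r 196 [1, 2, 3, 4, 5, 8, 6, 7] [1, 1, 1, 1, 1, 1, 1], .l [4, 13, 7, 1, 3, 9, 0, 6, 8, 4, 1], .l [7, 10, 8, 8, 5, 5, 3, 8, 3,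 5, 1, 4, 1], .l [7, 10, 8, 8, 5, 5, 3, 8, 3, 5, 1, 4, 1], .l [5, 6, 3, 3, 1, 1, 0, 5], .y [0, 12, 4, 8, 10, 6, 3, 1], .l [7, 12, 10, 10, 7, 7, 5, 8, 1, 5, 3, 4, 1], .l [7, 12, 10, 10, 7, 7, 5, 8, 1, 5, 3, 4, 1], .l [5, 6, 3, 3, 1, 1, 0, 7], .l [0, 11, 5, 11, 2, 0, 3, 2, 2, 0, 3], .l [0, 11, 13, 7, 7, 4, 5, 2, 3, 0, 0], .l [0, 11, 5, 11, 2, 0, 3, 2, 2, 0, 3]]),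
([p 2 1, p 3 2, g, p 5 3, m 6 4, g, p 0 5, g, m 4 0, g, s 1 6, g], .hi 8, [.l [3, 9, 9, 5, 2], .l [1, 5, 4, 10, 8, 6, 6, 2, 5], .l [3, 9], .l [4, 11, 5, 3, 3, 7, 0, 4, 6, 4, 1], .l [4, 11, 5, 3, 3, 7, 0, 4, 6, 4, 1], .l [6, 9], .y [0, 10, 4, 8, 6, 3, 1], .l [4, 11, 3, 1, 9, 3, 3, 2, 2, 0, 3], .l [4, 11, 3, 1, 9, 3, 3, 2, 2, 0, 3], .l [8, 9], .r 197 [1, 2, 3, 4, 5, 7, 6] [1, 1, 1, 1, 1, 1], .l [7, 8, 4, 6, 5, 5, 3, 3, 2, 3], .r 195 [1, 2, 3, 4, 5, 7, 6] [1, 1, 1, 1, 1, 1], .l [0, 9, 1, 9, 2, 0, 3, 2, 2, 0, 3], .l [0, 9, 1, 9, 2, 0, 3, 2, 2, 0, 3], .l [1, 3, 2, 8, 10, 8, 8, 4, 1]]),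
([p 1 0, p 2 1, g, p 4 2, m 5 3, g, p 0 4, g, m 3 0, g, s 0 5, g], .hi 0, [.l [4, 5, 1, 2, 10, 5, 8, 0, 5], .l [0, 2], .l [3, 2], .l [1, 3, 2, 4, 8, 6, 1], .l [0, 5], .l [6, 5], .y [0, 6, 3, 1], .l [1, 3, 2, 6, 8, 4, 1], .l [0, 7], .l [8, 7], .r 190 [6, 1, 2, 3, 4, 5] [1, 1, 1, 1, 1, 1], .l [0, 9], .l [10, 9], .r 198 [6, 1, 2, 3, 4, 5] [1, 1, 1, 1, 1], .l [3, 6, 5, 5, 3, 8, 1, 5, 1, 4, 1], .l [0, 11], .l [12, 11]]),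
([p 1 0, p 2 1, g, p 0 2, m 4 3, g, m 3 0, g, s 0 4, g], .lo 3, [.y [0, 3, 1], .l [10, 3, 6, 1, 6, 4, 1], .l [3, 4], .l [2, 5, 3, 3, 2, 1], .r 184 [1, 2, 5] [1, 2, 5], .r 199 [1, 2, 3, 5, 4] [1, 1, 1, 1, 1], .l [2, 3, 1, 1, 0, 3], .l [2, 3, 1, 1, 0, 3], .r 184 [1, 2, 5] [1, 4, 3], .r 187 [1, 2, 3, 5, 4] [1, 1, 1, 1, 1], .l [2, 3, 1, 1, 0, 5], .l [0, 8, 3, 4, 7, 2, 0, 4, 1], .r 188 [1, 2, 4, 5] [1, 3, 1, 1], .l [2, 3, 1, 1, 0, 7]]),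
([p 1 0, p 2 1, g, p 0 2, m 3 0, g, s 0 3, g], .hi 4, [.l [3, 5, 2], .l [2, 5, 3, 3, 2, 3], .l [3, 5], .l [2, 3, 1, 1, 0, 1], .r 183 [1, 2, 4] [1, 1, 3], .r 180 [1, 2, 4] [1, 1, 3], .r 200 [1, 2, 4, 3] [1, 1, 1, 1], .y [4, 6], .r 183 [1, 2, 4] [1, 3, 1], .r 180 [1, 2, 4] [1, 3, 1], .r 182 [2, 4, 3] [1, 1, 1, 1]]),
([p 0 0, p 2 0, g, s 0 1, g, p 0 2, m 1 3, g, m 3 0, g], .hi 0, [.y [0], .l [8, 2, 9, 5, 2, 6, 1], .l [0, 2], .l [3, 2], .l [8, 1, 5, 6, 3, 0, 3], .l [8, 4, 1, 5, 2], .l [0, 4], .l [5, 4], .l [0, 4], .r 181 [4, 2, 3] [3, 1, 1, 1], .l [0, 7], .l [8, 7], .l [1, 6, 2, 9, 4, 6, 3], .l [0, 9], .l [10, 9]]),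
([p 0 0, p 2 0, g, s 0 1, g, p 0 2, m 1 0, g], .hi 6, [.l [5], .l [3, 7, 4], .l [3, 0, 7, 4], .l [3, 7], .y [3, 6], .l [5, 7, 2], .l [5, 0, 7, 2], .l [5, 7], .r 73 [2, 3] [3, 0, 1], .l [6, 2, 4, 2, 5], .l [6, 2, 4, 2, 5], .r 202 [1, 2, 3] [1, 1, 1, 1]]),
([p 1 0, p 2 1, g, p 0 2, m 0 0, g], .lo 4, [.l [4, 3], .r 203 [3, 2] [1, 1, 1], .l [6, 2], .r 179 [1, 3, 2] [1, 1, 1], .y [4], .r 201 [1, 2, 3] [1, 1, 1], .l [6, 1], .l [4, 5]]),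
([p 0 0, p 1 0, g, p 3 1, g, s 0 2, g, m 2 0, g, p 0 3, g], .hi 0, [.y [0], .l [9, 1, 10, 6, 6, 2, 3], .l [0, 2], .l [3, 2], .l [9, 1, 10, 4, 4, 2, 3], .l [0, 4], .l [5, 4], .l [7, 1, 8, 4, 4, 2, 3], .l [9, 3, 10, 4, 4, 2, 5], .l [0, 6], .l [7, 6], .l [7, 1, 10, 6, 6, 4, 1], .l [0, 8], .l [9, 8], .l [0, 8], .l [7, 1, 8, 4, 4, 2, 5], .l [0, 10], .l [11, 10]]),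
([p 2 1, p 4 2, s 0 3, g, p 0 4, s 0 5, g, m 3 0, g, s 1 0, g, s 5 0, g], .lo 2, [.l [11, 10, 10, 9, 1, 8, 4, 7], .l [4, 1, 5, 2, 8], .l [3, 6, 3, 3, 2, 2, 7], .l [7, 4, 8, 3, 0, 5, 8, 4, 0, 1], .l [7, 4, 8, 3, 0, 5, 8, 4, 0, 1], .l [11, 10, 10, 9, 4], .y [2, 7], .l [1, 4, 3, 9, 11, 5, 2, 7], .l [7, 4, 8, 3, 0, 5, 8, 4, 0, 1], .l [11, 10, 10, 9, 6], .l [9, 8, 8, 7, 6], .l [0, 8, 6, 9, 2, 0, 4, 7], .l [7, 4, 10, 5, 0, 7, 8, 2, 0, 1], .l [9, 8, 8, 7, 8], .l [1, 4, 3, 7, 9, 5, 2, 3], .l [0, 8, 6, 11, 4, 0, 6, 3], .l [0, 8, 12, 5, 0], .l [9, 8, 8, 7, 10]]),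
([p 2 1, p 3 2, s 0 0, g, p 0 3, s 0 4, g, s 1 0, g, s 4 0, g], .hi 2, [.y [2], .l [9, 8, 8, 7, 1, 6, 2, 5], .l [3, 6, 3, 3, 2, 2, 5], .l [4, 1, 5, 2, 6], .l [3, 4, 1, 1, 0, 0, 3], .l [2, 4, 2], .l [1, 4, 3, 7, 9, 5, 2, 5], .l [9, 8, 8, 7, 4], .r 206 [1, 2, 5, 3, 4] [1, 1, 1, 1, 1], .l [0, 6, 4, 7, 2, 0, 2, 5], .l [7, 6, 6, 5, 6], .l [0, 6, 8, 3, 0], .l [0, 6, 4, 9, 4, 0, 4, 1], .l [7, 6, 6, 5, 8], .l [0, 6, 10, 5, 0]]),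
([p 2 1, p 3 2, g, p 5 3, s 0 4, g, s 1 0, g, p 0 5, g, s 4 0, g], .top 2, [.l [0, 4, 6, 3, 0], .r 207 [1, 2, 3, 4] [1, 1, 3, 1], .r 121 [1, 2, 3] [1, 2, 5], .r 112 [1, 2] [4, 5]]),
([p 2 1, p 4 2, s 0 3, g, p 0 4, s 0 5, g, s 5 0, g, s 3 0, g, s 1 0, g], .lo 2, [.l [13, 12, 12, 11, 1, 10, 6, 1], .l [4, 1, 5, 2, 10], .l [3, 6, 3, 3, 2, 2, 9], .l [2, 6, 8, 6, 2, 8], .l [7, 4, 5, 3, 6, 10, 8, 8, 6, 3], .l [13, 12, 12, 11, 4], .l [2, 6, 6, 4, 2, 6], .l [0, 9, 6, 10, 3, 0, 6, 1], .l [0, 9, 6, 10, 3, 0, 6], .l [13, 12, 12, 11, 6], .y [2, 9], .l [0, 9, 6, 10, 3, 0, 6, 1], .l [0, 9, 6, 10, 3, 0, 6], .l [13, 12, 12, 11, 8], .l [11, 10, 10, 9, 8], .l [0, 10, 8, 11, 2, 0, 6, 1], .l [0, 10, 1, 6, 7, 5, 1, 8, 4, 1],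 .l [11, 10, 10, 9, 10]]),
([p 2 1, p 4 2, s 0 3, g, p 0 4, s 0 5, g, m 3 0, g, s 5 0, g, s 1 0, g], .lo 2, [.l [13, 12, 12, 11, 1, 10, 6, 3], .l [4, 1, 5, 2, 10], .l [3, 6, 3, 3, 2, 2, 9], .l [7, 4, 8, 3, 0, 5, 6, 2, 0, 5], .l [7, 4, 8, 3, 0, 5, 6, 2, 0, 5], .l [13, 12, 12, 11, 4], .y [2, 7], .l [2, 8, 10, 6, 2, 8], .l [7, 4, 8, 3, 0, 5, 6, 2, 0, 5], .l [13, 12, 12, 11, 6], .l [2, 8, 8, 4, 2, 6], .l [7, 4, 5, 3, 6, 10, 8, 8, 6, 3], .l [0, 7, 4, 10, 5, 0, 6], .l [13, 12, 12, 11, 8], .l [11, 10, 10, 9, 8], .l [0, 10, 8, 11, 2, 0, 6, 3], .l [0, 10, 12, 3, 0], .l [11, 10, 10, 9, 10]]),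
([p 2 1, p 4 2, s 0 3, g, p 0 4, s 0 5, g, s 5 0, g, m 3 0, g, s 1 0, g], .lo 2, [.l [13, 12, 12, 11, 1, 10, 6, 1], .l [4, 1, 5, 2, 10], .l [3, 6, 3, 3, 2, 2, 9], .l [0, 7, 4, 10, 5, 0, 6], .l [0, 7, 4, 10, 5, 0, 6], .l [13, 12, 12, 11, 4], .l [0, 7, 4, 8, 3, 0, 4], .l [0, 9, 6, 10, 3, 0, 6], .l [0, 9, 6, 10, 3, 0, 6], .l [13, 12, 12, 11, 6], .y [2, 9], .l [0, 9, 6, 10, 3, 0, 6], .l [0, 9, 6, 10, 3, 0, 6], .l [13, 12, 12, 11, 8], .l [11, 10, 10, 9, 8], .l [0, 10, 8, 11, 2, 0, 6, 1], .l [0, 10, 12, 3, 0], .l [11, 10, 10, 9, 10]]),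
([p 2 1, p 3 2, s 0 0, g, p 0 3, s 0 4, g, s 4 0, g, s 1 0, g], .hi 2, [.y [2], .l [11, 10, 10, 9, 1, 8, 4, 1], .l [3, 6, 3, 3, 2, 2, 7], .l [4, 1, 5, 2, 8], .l [3, 4, 1, 1, 0, 0, 5], .l [2, 4, 2], .l [2, 6, 8, 6, 2, 6], .l [11, 10, 10, 9, 4], .r 210 [1, 2, 5, 3, 4] [1, 1, 1, 1, 1], .r 209 [1, 2, 5, 3, 4] [1, 1, 1, 1, 1], .l [11, 10, 10, 9, 6], .r 211 [1, 2, 5, 3, 4] [1, 1, 1, 1, 1], .l [0, 8, 6, 9, 2, 0, 4, 1], .l [9, 8, 8, 7, 8], .l [0, 8, 10, 3, 0]]),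
([p 2 1, p 3 2, g, p 5 3, s 0 4, g, s 4 0, g, s 1 0, g, p 0 5, g], .top 2, [.l [0, 6, 8, 3, 0], .r 212 [1, 2, 3, 4] [1, 1, 1, 3], .r 121 [1, 2, 3] [1, 4, 3], .r 112 [1, 2] [6, 3]]),
([p 2 1, p 3 2, g, p 5 3, s 0 4, g, s 1 0, g, s 4 0, g, p 0 5, g], .top 2, [.l [0, 4, 8, 5, 0], .r 207 [1, 2, 3, 4] [1, 1, 1, 3], .r 121 [1, 2, 3] [1, 2, 5], .r 112 [1, 2] [4, 5]]),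
([p 2 1, p 3 2, p 5 3, s 0 4, g, p 6 5, g, p 0 6, g, s 1 0, g, s 4 0, g], .lo 7, [.l [4, 7, 4, 4, 3, 7, 9, 5, 2, 5], .l [5, 8], .l [2, 7, 6, 6, 5, 8, 5, 3, 3, 1, 1, 2, 3], .l [6, 9, 7, 7, 4, 4, 3, 5, 7, 5, 2, 1], .l [7, 8], .l [6, 9, 7, 7, 4, 4, 3, 3, 2, 1], .l [6, 7, 5, 5, 2, 2, 1, 5, 7, 3, 0, 3], .l [0, 10, 8, 9, 8, 10, 2, 0, 5, 5, 3, 3, 1], .l [6, 7, 5, 5, 2, 2, 1, 1, 0, 2], .y [0, 9, 7, 5, 2, 1], .l [0, 8, 10, 8, 8, 6, 6, 3, 0], .l [0, 8, 10, 8, 8, 6, 6, 3, 0], .l [2, 5, 4, 4, 3, 6, 1, 6, 4, 2, 5, 3, 1], .l [9, 8, 8, 7, 7, 6, 7, 7, 3, 3, 1, 3, 1], .l [0, 8, 12, 10, 10, 8, 8, 5, 0], .l [0, 8, 12, 10, 10, 8, 8, 5, 0], .l [2, 5, 4, 4, 3, 6, 1, 8, 6, 2, 3, 1, 3]]),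
([p 2 1, p 3 2, p 5 3, s 0 4, g, p 0 5, g, s 1 0, g, s 4 0, g], .lo 5, [.l [4, 7, 4, 4, 3, 5, 7, 5, 2, 1], .l [5, 6], .l [4, 7, 4, 4, 3, 3, 2, 1], .l [4, 5, 2, 2, 1, 5, 7, 3, 0, 3], .r 215 [1, 2, 3, 4, 5, 6] [1, 1, 1, 1, 1], .l [4, 5, 2, 2, 1, 1, 0, 2], .y [0, 7, 5, 2, 1], .l [0, 6, 8, 6, 6, 3, 0], .l [0, 6, 8, 6, 6, 3, 0], .l [1, 2, 1, 5, 1, 5, 2, 0, 3], .l [0, 6, 8, 6, 6, 3, 0], .l [0, 6, 10, 8, 8, 5, 0], .l [0, 6, 10, 8, 8, 5, 0], .l [1, 2, 1, 5, 1, 7, 4, 0, 5]]),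
([p 2 1, p 3 2, g, p 5 3, s 0 4, g, p 0 5, g, s 1 0, g, s 4 0, g], .top 2, [.r 216 [1, 2, 3, 4, 5] [1, 1, 1, 1], .r 207 [1, 2, 3, 4] [1, 3, 1, 1], .r 121 [1, 2, 3] [1, 4, 3], .r 112 [1, 2] [6, 3]]),
([p 2 1, p 3 2, g, p 6 3, s 5 0, g, m 0 4, g, m 4 0, s 0 5, g, p 0 6, g, s 1 0, g], .hi 8, [.l [9, 13, 8, 8, 4, 11, 1, 8, 2, 8, 3], .l [0, 14, 11, 6, 6, 4, 8, 5, 8, 2, 3, 1, 5], .l [3, 9], .l [9, 13, 6, 6, 4, 11, 1, 8, 2, 8, 1], .l [3, 13, 12, 12, 10, 11, 8, 3, 3, 1, 5, 6, 3], .l [6, 9], .y [6, 8], .l [7, 13, 8, 8, 6, 11, 1, 6, 2, 8, 1], .l [0, 14, 6, 1, 9, 4, 1, 5, 7, 4, 5, 1, 4], .l [8, 9], .l [7, 11, 6, 6, 4, 9, 1, 6, 2, 6, 3], .l [7, 13, 8, 8, 6, 11, 1, 8, 4, 8, 5], .l [3, 13, 12, 12, 10, 11, 6, 2, 4, 7, 3,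 1, 2], .l [7, 13, 8, 8, 6, 11, 1, 8, 8, 5, 1, 6, 3], .l [3, 11, 10, 10, 8, 9, 4, 2, 2, 5, 3, 1, 2], .l [7, 11, 6, 6, 4, 11, 3, 8, 2, 8, 1], .l [6, 11, 7, 7, 5, 12, 3, 8, 3, 7, 1, 5, 5], .l [15, 14, 14, 13, 13, 11, 4, 8, 7, 7, 5, 7, 3], .l [7, 11, 6, 6, 4, 9, 1, 6, 2, 6, 7], .l [2, 3, 1, 11, 4, 11, 2, 0, 5], .l [7, 11, 6, 6, 4, 9, 1, 6, 9, 2, 5]]),
([p 2 1, p 3 2, g, p 5 3, s 4 0, g, m 0 0, s 0 4, g, p 0 5, g, s 1 0, g], .lo 6, [.l [6, 8, 4, 6, 4, 9], .l [8, 4], .l [5, 11, 10, 10, 6, 6, 5, 2, 5], .l [3, 9, 8, 8, 6, 6, 5, 2, 1], .l [8, 1, 10, 5, 5, 3, 8], .l [8, 1], .r 218 [1, 2, 3, 6, 4, 5] [1, 1, 1, 1, 1, 1], .y [6], .l [4, 6, 7, 9, 6, 6, 4, 7], .l [9, 2], .l [6, 8], .l [13, 12, 12, 11, 11, 9, 2, 5], .l [11,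 4], .l [6, 10], .l [11, 10, 10, 9, 9, 7, 2, 5], .l [11, 10, 10, 9, 9, 7, 2, 7], .l [13, 6], .l [6, 12]]),
([p 2 1, p 3 2, g, p 6 3, s 5 0, g, p 4 0, g, p 0 4, s 0 5, g, p 0 6, g, s 1 0, g], .lo 8, [.l [9, 13, 8, 8, 4, 11, 1, 8, 2, 8, 3], .l [3, 9], .l [0, 14, 11, 6, 6, 4, 8, 5, 8, 2, 3, 1, 5], .l [4, 8, 0, 7, 9, 8, 8, 6, 7, 5, 1, 3, 3], .l [9, 13, 6, 6, 4, 11, 1, 8, 2, 8, 1], .l [6, 9], .l [3, 13, 12, 12, 10, 11, 8, 3, 3, 1, 5, 6, 3], .y [6, 8], .l [7, 13, 8, 8, 6, 11, 1, 6, 2, 8, 1], .l [8, 9], .l [0, 14, 6, 1, 9, 4, 1, 5, 7, 4, 5, 1, 4], .l [7, 13, 8, 8, 6, 11, 1, 8, 4, 8, 5], .l [7, 13, 8, 8, 6, 11, 1, 8, 8, 5, 1, 6, 3], .l [3, 13, 12, 12, 10, 11, 6, 2, 4, 7, 3, 1, 2], .l [7, 11, 6, 6, 4, 11, 3, 8, 2,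 8, 1], .l [15, 14, 14, 13, 13, 11, 4, 8, 7, 7, 5, 7, 3], .l [6, 11, 7, 7, 5, 12, 3, 8, 3, 7, 1, 5, 5], .l [7, 11, 6, 6, 4, 9, 1, 6, 7, 0, 3], .l [7, 11, 6, 6, 4, 9, 1, 6, 2, 6, 7], .l [7, 11, 6, 6, 4, 9, 1, 6, 9, 2, 5], .l [2, 3, 1, 11, 4, 11, 2, 0, 5]]),
([p 2 1, p 3 2, g, p 5 3, s 4 0, g, p 0 0, s 0 4, g, p 0 5, g, s 1 0, g], .hi 6, [.l [6, 8, 4, 6, 4, 9], .l [5, 11, 10, 10, 6, 6, 5, 2, 5], .l [8, 4], .l [8, 1, 10, 5, 5, 3, 8], .r 220 [1, 2, 3, 6, 4, 5] [1, 1, 1, 1, 1, 1], .l [8, 1], .y [6], .c, .l [4, 6, 7, 9, 6, 6, 4, 7], .l [6, 8], .l [9, 2], .l [6, 8], .l [13, 12, 12, 11, 11, 9, 2, 5], .l [6, 10], .l [11, 4], .l [11, 10, 10, 9, 9, 7, 2, 7], .l [6, 12], .l [13, 6]]),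
([p 2 1, p 3 2, g, p 6 3, s 5 0, g, p 4 0, g, s 0 4, g, s 0 5, g, p 0 6, g, s 1 0, g], .hi 4, [.l [3, 5, 2], .l [12, 5, 13, 6, 1, 5, 2], .l [3, 5, 2], .l [12, 7, 13, 4, 9, 1, 9, 5, 2, 7], .l [16, 15, 15, 14, 14, 12, 1], .l [6, 1, 13, 10, 10, 8, 11], .l [8, 3, 13, 8, 11, 6, 1, 2, 6, 7], .l [16, 15, 15, 14, 14, 12, 3], .l [8, 3, 13, 8, 8, 6, 11], .l [8, 3, 11, 6, 9, 1, 4, 2, 4, 5], .l [10, 5, 13, 6, 11, 1, 6, 2, 6, 7], .l [16, 15, 15, 14, 14, 12, 5], .l [10, 5, 13, 6, 6, 4, 11], .y [4, 10], .l [10, 5, 13, 6, 11, 1, 6, 2, 6, 7], .l [16, 15, 15, 14, 14, 12, 7], .l [12, 7, 13, 4, 4, 2, 11], .l [14, 13, 13, 12, 12, 10, 7], .l [10, 5, 11, 4, 9, 1, 9, 5, 2, 7], .l [16, 15, 15, 14, 14, 12, 9], .l [10, 5, 11, 4, 9,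 1, 9, 5, 2, 7], .l [10, 5, 11, 4, 9, 1, 11, 7, 2, 3], .l [14, 13, 13, 12, 12, 10, 11], .l [1, 3, 2, 12, 14, 4, 1]]),
([p 2 1, p 3 2, g, p 5 3, s 4 0, g, s 0 0, s 0 4, g, p 0 5, g, s 1 0, g], .hi 6, [.l [6, 8, 4, 6, 4, 9], .l [6, 8, 4, 6, 4, 9], .l [13, 12, 12, 11, 11, 7, 2, 7], .l [13, 12, 12, 11, 11, 9, 4, 1], .r 222 [1, 2, 3, 6, 4, 5] [1, 1, 1, 0, 1, 1, 1], .l [8, 1, 10, 5, 5, 3, 8], .y [6], .c, .l [4, 6, 7, 9, 6, 6, 4, 7], .l [4, 6, 7, 9, 6, 6, 4, 7], .l [9, 2, 3, 9, 4, 4, 2, 7], .l [4, 6, 7, 7, 4, 4, 2, 5], .l [13, 12, 12, 11, 11, 9, 2, 5], .l [13, 12, 12, 11, 11, 9, 2, 5], .l [4, 9, 7, 10, 5, 2, 6, 7], .l [11, 10, 10, 9, 9, 7, 2, 7], .l [11, 10, 10, 9, 9, 7, 2, 7], .l [4, 9, 7, 12, 7, 2, 8, 3]]),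
([p 2 1, p 3 2, g, p 5 3, s 4 0, g, s 0 4, g, p 0 5, g, s 1 0, g], .bot 5, [.c, .r 223 [1, 2, 3, 4, 5] [1, 1, 1, 1, 1], .r 221 [1, 2, 3, 4, 5] [1, 1, 1, 1, 1], .r 219 [1, 2, 3, 4, 5] [1, 1, 1, 1, 1]]),
([p 2 1, p 3 2, p 5 3, s 7 4, g, p 0 5, p 6 0, g, p 0 6, g, s 4 0, g, s 0 7, g, s 1 0, g], .hi 6, [.l [1, 2, 1, 7, 2, 10, 5, 0, 6, 3], .l [1, 2, 1, 11, 8, 12, 3, 0, 6, 8, 7, 7, 5], .l [8, 2], .l [1, 2, 1, 9, 6, 10, 3, 0, 6, 6, 5, 5, 3], .l [2, 5, 4, 7, 1, 8, 6, 3, 10], .l [6, 7], .l [8, 1], .y [6, 8], .l [3, 13, 15, 4, 7, 10, 7, 3, 5, 7, 1, 4, 2, 5], .l [6, 9], .l [10, 3], .l [3, 13, 15, 4, 7, 12, 9, 3, 5, 9, 3, 6, 2, 3], .l [6, 11], .l [12, 5], .l [12, 8, 2, 6, 3, 6, 1, 4, 5, 1, 2, 4, 2], .l [10, 6, 2, 11,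 1, 4, 8, 7, 7, 6, 8, 4, 2, 5], .l [6, 13], .l [14, 7], .l [0, 13, 1, 8, 13, 10, 6, 10, 3, 0, 8, 1], .l [6, 15], .l [16, 9]]),
([p 2 1, p 3 2, p 5 3, s 7 4, g, p 0 5, p 6 0, g, p 0 6, g, s 0 7, g, s 4 0, g, s 1 0, g], .hi 6, [.l [1, 2, 1, 7, 2, 10, 5, 0, 6, 3], .l [1, 2, 1, 11, 8, 12, 3, 0, 6, 8, 7, 7, 5], .l [8, 2], .l [1, 2, 1, 9, 6, 10, 3, 0, 6, 6, 5, 5, 3], .l [2, 5, 4, 7, 1, 8, 6, 3, 10], .l [6, 7], .l [8, 1], .y [6, 8], .l [3, 11, 15, 6, 9, 12, 9, 5, 7, 9, 1, 6, 4, 1], .l [6, 9], .l [10, 3], .l [10, 6, 2, 4, 9, 4, 7, 2, 5, 5, 4, 5], .l [3, 13, 15, 4, 7, 12, 9, 3, 5, 9, 3, 6, 2, 3], .l [6, 11], .l [12, 5], .l [10, 6, 2, 11, 1, 4, 8, 7, 7, 6, 8, 4, 2, 5], .l [6, 13], .l [14, 7], .l [0, 13, 1, 8, 13, 10,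 6, 10, 3, 0, 8, 1], .l [6, 15], .l [16, 9]]),
([p 2 1, p 3 2, p 5 3, s 0 4, g, p 0 5, p 6 0, g, p 0 6, g, s 4 0, g, s 1 0, g], .lo 3, [.r 224 [1, 2, 3, 7, 5] [0, 1, 1, 6, 1], .l [5, 1, 6, 3, 3, 2, 10], .l [4, 7, 4, 4, 3, 3, 2, 2, 9], .l [2, 5, 4, 4, 3, 9, 1, 6, 1, 6, 3, 3, 1], .l [3, 7, 9, 7, 3], .l [2, 5, 4, 4, 3, 11, 1, 8, 1, 8, 3, 5, 3], .l [2, 5, 4, 4, 3, 3, 2, 4, 6, 4, 7], .r 226 [1, 2, 3, 4, 5, 6, 7] [1, 1, 1, 1, 1, 1], .l [1, 2, 1, 9, 6, 10, 3, 0, 6], .l [14, 13, 13, 12, 12, 11, 6], .y [3, 10], .r 225 [1, 2, 3, 4, 5, 6, 7] [1, 1, 1, 1, 1, 1], .l [1, 2, 1, 9, 6, 10, 3, 0, 6], .l [14, 13, 13, 12, 12, 11, 8], .l [12, 11, 11, 10, 10, 9, 8], .l [1, 2, 1, 10, 1, 6, 10, 3, 0, 6], .l [0, 11, 13, 4, 6, 5, 0],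 .l [12, 11, 11, 10, 10, 9, 10]]),
([p 2 1, p 3 2, p 5 3, s 0 4, g, p 0 5, p 0 0, g, s 4 0, g, s 1 0, g], .lo 6, [.l [5, 7, 3], .l [5, 7], .l [2, 7, 6, 6, 5, 9, 6, 2, 6], .y [6], .l [12, 11, 11, 10, 10, 9, 9, 6, 1], .r 227 [1, 2, 3, 4, 5, 6] [1, 1, 1, 1, 1], .l [10, 6, 7, 5, 1], .l [3, 7, 7, 5, 3], .l [12, 11, 11, 10, 10, 9, 9, 6, 3], .l [3, 7, 9, 7, 3], .l [8, 4, 5, 3, 7], .l [2, 5, 4, 4, 3, 7, 7, 3, 2], .l [10, 9, 9, 8, 8, 7, 7, 4, 7], .l [2, 5, 4, 4, 3, 7, 9, 5, 2], .l [8, 4, 5, 3, 9]]),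
([p 2 1, p 3 2, g, p 5 3, s 7 4, g, p 0 5, s 0 6, g, m 6 0, g, s 4 0, g, s 0 7, g, s 1 0, g], .lo 7, [.l [13, 6, 7, 5, 6, 8, 6, 9], .l [3, 8, 10, 1, 6, 2, 13], .l [5, 8, 7, 1, 6, 3, 12], .l [6, 8, 4], .l [6, 8, 4], .l [3, 8, 7, 10, 1, 4, 2, 5, 10], .l [2, 13, 8, 13, 4, 1, 1, 0, 8, 1], .l [3, 6, 5, 8, 1, 8, 6, 3, 10], .l [17, 16, 16, 15, 15, 13, 13, 10, 1], .y [7, 9], .l [2, 13, 8, 13, 4, 1, 1, 0, 8, 3], .l [3, 6, 5, 8, 1, 8, 6, 3, 10], .l [17, 16, 16, 15, 15, 13, 13, 10, 3], .l [4, 10, 6, 13, 4, 9, 7, 3, 6, 3], .l [4, 10, 12, 8, 4, 4, 2, 11], .l [3, 6, 5, 8, 1, 10, 8, 3, 10], .l [17, 16, 16, 15, 15, 13, 13, 10, 5], .l [4, 12, 14, 8, 4, 4, 2, 11], .l [3, 6, 5, 8, 1, 12, 10, 3, 10], .l [17, 16, 16, 15, 15,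 13, 13, 10, 7], .l [11, 6, 7, 5, 11, 11, 7, 7, 6, 6, 4, 5], .l [4, 12, 16, 10, 4, 4, 2, 5], .l [3, 6, 5, 8, 1, 14, 12, 3, 8], .l [15, 14, 14, 13, 13, 11, 11, 8, 11]]),
([p 2 1, p 3 2, g, p 5 3, s 6 4, g, p 0 5, s 0 0, g, s 4 0, g, s 0 6, g, s 1 0, g], .hi 7, [.l [11, 4, 5, 3, 4, 6, 4, 7], .l [5, 8, 7, 1, 6, 3, 10], .l [11, 4, 5, 3, 4, 6, 4, 7], .l [6, 8, 4], .l [4, 12, 6, 2, 8, 8, 6, 9], .l [6, 8, 4], .l [4, 10, 4, 0, 6, 6, 4, 7], .y [7], .l [2, 11, 6, 11, 4, 1, 1, 0, 6, 1], .l [15, 14, 14, 13, 13, 11, 11, 8, 1], .r 229 [1, 2, 3, 4, 5, 7, 6] [1, 1, 1, 1, 1, 1, 1], .l [4, 8, 10, 8, 4, 4, 2, 9], .l [15, 14, 14, 13, 13, 11, 11, 8, 3], .l [4, 8, 4, 13, 6, 9, 5, 3, 6, 3], .l [4, 10, 6, 11, 2, 7, 5, 1, 4, 1], .l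 [4, 10, 12, 8, 4, 4, 2, 9], .l [15, 14, 14, 13, 13, 11, 11, 8, 5], .l [4, 10, 6, 13, 4, 9, 5, 1, 6, 3], .l [4, 10, 14, 10, 4, 4, 2, 5], .l [13, 12, 12, 11, 11, 9, 9, 6, 9], .l [4, 10, 14, 10, 4, 4, 2, 5]]),
([p 2 1, p 3 2, g, p 5 3, s 7 4, g, p 0 5, s 0 6, g, m 6 0, g, s 0 7, g, s 4 0, g, s 1 0, g], .lo 7, [.l [13, 6, 7, 5, 6, 8, 6, 9], .l [3, 8, 10, 1, 6, 2, 13], .l [5, 8, 7, 1, 6, 3, 12], .l [6, 8, 4], .l [6, 8, 4], .l [3, 8, 7, 10, 1, 4, 2, 5, 10], .l [2, 13, 8, 13, 4, 1, 1, 0, 8, 1], .l [3, 6, 5, 8, 1, 8, 6, 3, 10], .l [17, 16, 16, 15, 15, 13, 13, 10, 1], .y [7, 9], .l [2, 13, 8, 13, 4, 1, 1, 0, 8, 3], .l [3, 6, 5, 8, 1, 8, 6, 3, 10], .l [17, 16, 16, 15, 15, 13, 13, 10, 3], .l [4, 10, 12, 8, 4, 4, 2,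 11], .l [3, 6, 5, 8, 1, 10, 8, 3, 10], .l [17, 16, 16, 15, 15, 13, 13, 10, 5], .l [4, 10, 6, 13, 4, 9, 5, 1, 6, 1], .l [4, 10, 14, 10, 4, 4, 2, 11], .l [3, 6, 5, 8, 1, 12, 10, 3, 10], .l [17, 16, 16, 15, 15, 13, 13, 10, 7], .l [11, 6, 7, 5, 11, 11, 7, 7, 6, 6, 4, 5], .l [4, 10, 16, 12, 4, 4, 2, 7], .l [3, 6, 5, 8, 1, 14, 12, 3, 8], .l [15, 14, 14, 13, 13, 11, 11, 8, 11]]),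
([p 2 1, p 3 2, g, p 5 3, s 6 4, g, p 0 5, s 0 0, g, s 0 6, g, s 4 0, g, s 1 0, g], .hi 7, [.l [11, 4, 5, 3, 4, 6, 4, 7], .l [5, 8, 7, 1, 6, 3, 10], .l [11, 4, 5, 3, 4, 6, 4, 7], .l [6, 8, 4], .l [4, 10, 4, 2, 6, 6, 4, 9], .l [6, 8, 4], .l [4, 8, 2, 0, 4, 4, 2, 7], .y [7], .l [2, 11, 6, 11, 4, 1, 1, 0, 6, 1], .l [15, 14, 14, 13, 13, 11, 11, 8, 1], .r 231 [1, 2, 3, 4, 5, 7, 6] [1, 1, 1, 1, 1, 1, 1], .l [4, 8, 4, 11, 4, 7, 5, 3, 4, 1], .l [4, 8, 10, 8, 4, 4, 2, 9], .l [15, 14, 14, 13, 13, 11, 11, 8, 3], .l [4, 8, 4, 13, 6, 9, 5, 3, 6, 3], .l [4, 8, 12, 10, 4, 4, 2, 9], .l [15, 14, 14, 13, 13, 11, 11, 8, 5], .l [4, 8, 4, 13, 6, 9, 3, 1, 6, 1], .l [4, 8, 14, 12, 4, 4, 2, 7], .l [13, 12, 12, 11, 11, 9, 9, 6, 9],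 .l [4, 8, 14, 12, 4, 4, 2, 7]]),
([p 2 1, p 3 2, p 5 3, s 0 4, g, p 0 5, s 0 0, g, s 4 0, g, s 1 0, g], .lo 3, [.r 224 [1, 2, 3, 6, 5] [0, 1, 1, 4, 1], .l [5, 1, 6, 3, 3, 2, 8], .l [4, 7, 4, 4, 3, 3, 2, 2, 7], .l [3, 5, 3], .r 232 [1, 2, 3, 4, 5, 6] [0, 1, 1, 1, 1, 1], .l [1, 2, 1, 7, 4, 8, 3, 0, 4], .l [12, 11, 11, 10, 10, 9, 4], .y [3, 8], .r 230 [1, 2, 3, 4, 5, 6] [0, 1, 1, 1, 1, 1], .l [1, 2, 1, 7, 4, 8, 3, 0, 4], .l [12, 11, 11, 10, 10, 9, 6], .l [10, 9, 9, 8, 8, 7, 6], .l [1, 2, 1, 8, 1, 4, 8, 3, 0, 4], .l [0, 9, 11, 4, 6, 5, 0], .l [10, 9, 9, 8, 8, 7, 8]]),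
([p 2 1, p 3 2, g, p 5 3, s 0 4, g, p 7 5, m 0 6, g, m 6 0, g, s 0 7, g, s 4 0, g, s 1 0, g], .lo 7, [.l [5, 9, 6, 8, 6, 13, 7, 8, 5], .l [9, 5], .l [5, 9, 6, 8, 6, 13, 7, 8, 5], .l [1, 9, 2, 14, 9, 2, 12, 10, 8, 5], .l [9, 2], .l [9, 5, 14, 5, 15, 7, 1, 10, 3, 10, 4, 2, 7], .l [3, 6, 5, 8, 1, 8, 6, 3, 10], .l [9, 1], .l [7, 8], .y [7, 9], .l [2, 3, 1, 10, 3, 4, 9, 2, 0, 6, 1], .l [11, 3], .l [7, 10], .l [7, 12, 1, 9, 9, 6, 6, 4, 11, 3, 7, 1, 7], .l [13, 5], .l [7, 12], .l [7, 12, 1, 9, 9, 6, 6, 4, 9, 1, 5, 1, 5], .l [7, 14, 3, 11, 11, 8, 8, 6, 11, 1, 7, 3, 7], .l [15, 7], .l [7, 14], .l [0, 14, 1, 8, 12, 9, 9, 7, 4, 7, 2, 0, 4], .l [1, 7, 16, 12, 2, 9, 3, 11, 5, 1, 5, 8, 3], .l [17, 9], .l [7, 16]]),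
([p 2 1, p 4 2, g, p 3 0, g, p 5 3, g, p 7 4, p 6 5, g, p 0 6, g, s 1 0, g, p 0 7, g], .hi 3, [.l [5, 1, 8, 4, 11], .l [6, 3, 8, 3, 5, 3, 7, 3, 4, 10, 5, 8, 0, 5], .l [5, 1], .l [5, 1, 6, 4, 6, 4, 9], .l [3, 4], .l [5, 1], .l [7, 3, 3, 1, 6, 2, 9], .l [3, 6], .l [7, 3], .l [3, 9, 11, 9, 4], .l [3, 9], .l [10, 6], .y [3, 10, 8, 5], .l [12, 8, 8, 6, 6, 3, 3, 1, 10, 6, 6, 4, 1], .l [3, 11], .l [12, 8], .l [14, 10, 10, 8, 8, 5, 5, 3, 10, 4, 4, 2, 5], .l [3, 13], .l [14, 10], .l [3, 13], .l [2, 16, 12, 3, 13, 4, 1, 10, 3, 1, 8, 2, 5], .l [3, 15], .l [16, 12]]),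
([p 2 1, p 3 2, g, p 4 0, g, p 6 3, p 5 4, g, p 0 5, g, s 1 0, g, p 0 6, g], .hi 3, [.l [5, 1, 6, 2, 9], .r 235 [1, 2, 7, 3, 4, 5, 6] [1, 1, 1, 1, 1, 1, 1], .l [5, 1], .l [5, 1, 6, 2, 9], .l [3, 4], .l [5, 1], .l [3, 7, 9, 7, 2], .l [3, 7], .l [8, 4], .y [3, 8, 6], .l [10, 6, 6, 3, 3, 1, 10, 6, 6, 4, 1], .l [3, 9], .l [10, 6], .l [12, 8, 8, 5, 5, 3, 10, 4, 4, 2, 5], .l [3, 11], .l [12, 8], .l [3, 11], .l [2, 14, 10, 1, 11, 4, 1, 8, 8, 2, 5], .l [3, 13], .l [14, 10]]),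
([p 2 1, p 3 2, g, p 5 3, p 4 0, g, p 0 4, g, s 1 0, g, p 0 5, g], .hi 4, [.l [1, 6, 2, 9, 4, 6, 3], .r 236 [1, 2, 3, 6, 4, 5] [1, 1, 1, 1, 1, 1], .l [6, 2], .l [6, 1, 7, 5, 9, 8, 8, 6, 3], .l [4, 5], .l [6, 1], .y [4, 6], .l [8, 3, 3, 1, 10, 6, 6, 4, 1], .l [4, 7], .l [8, 3], .l [10, 5, 5, 3, 10, 4, 4, 2, 5], .l [4, 9], .l [10, 5], .l [4, 9], .l [10, 5, 7, 1, 9, 4, 7, 4, 1], .l [4, 11], .l [12, 7]]),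
([p 2 1, p 3 2, g, p 4 3, p 0 0, g, s 1 0, g, p 0 4, g], .lo 4, [.l [3, 5, 2], .l [3, 5], .l [0, 7, 9, 6, 1, 5, 2], .y [4], .l [8, 7, 7, 6, 6, 4, 1], .r 237 [1, 2, 3, 5, 4] [1, 1, 1, 1, 1], .l [3, 10, 9, 9, 7, 7, 6, 1], .l [1, 3, 2, 4, 4, 2, 1], .l [6, 5, 5, 4, 4, 2, 3], .l [1, 3, 2, 4, 6, 4, 1], .l [3, 10, 9, 9, 7, 7, 6, 3], .l [6, 5, 5, 4, 4, 2, 5], .l [1, 3, 2, 4, 8, 6, 1], .l [3, 8, 7, 7, 5, 5, 4, 5]]),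
([p 2 1, p 3 2, g, p 4 3, s 0 0, g, s 1 0, g, p 0 4, g], .hi 4, [.l [3, 5, 2], .l [0, 7, 9, 6, 1, 5, 2], .l [3, 5, 2], .y [4], .r 213 [1, 2, 3, 5, 4] [1, 1, 1, 1, 1], .l [8, 7, 7, 6, 6, 4, 1], .l [6, 1, 9, 6, 6, 4, 1], .r 214 [1, 2, 3, 5, 4] [1, 1, 1, 1, 1], .l [6, 5, 5, 4, 4, 2, 3], .l [8, 3, 9, 4, 4, 2, 5], .l [6, 5, 5, 4, 4, 2, 3], .r 208 [1, 2, 3, 5, 4] [1, 1, 1, 1, 1], .l [6, 5, 5, 4, 4, 2, 5], .l [1, 3, 2, 4, 8, 6, 1]]),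
([p 2 1, p 3 2, g, p 4 3, g, s 1 0, g, p 0 4, g], .top 4, [.l [1, 3, 2, 2, 1], .r 239 [1, 2, 3, 4] [1, 1, 1, 1], .r 238 [1, 2, 3, 4] [1, 1, 1, 1], .r 204 [2, 3] [1, 5]]),
([p 1 0, p 2 1, g, p 5 2, g, s 0 3, g, p 4 0, g, p 0 4, p 3 5, g], .hi 0, [.l [6, 3, 4, 1, 9, 7, 7, 5, 4], .l [0, 2], .l [3, 2], .l [9, 12, 5, 5, 3, 4, 6, 4, 5], .l [0, 4], .l [5, 4], .y [0, 5, 10, 3, 1], .l [4, 12, 10, 10, 8, 2, 4, 6, 3, 2, 3], .l [0, 6], .l [7, 6], .l [9, 8, 8, 7, 7, 5, 8, 2, 4, 2, 3], .l [0, 8], .l [9, 8], .l [0, 8], .l [7, 10, 5, 5, 3, 8, 1, 4, 1], .l [0, 11], .l [12, 11]]),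
([p 1 0, p 2 1, g, p 4 2, g, s 0 3, g, p 0 0, p 3 4, g], .hi 7, [.l [6, 10, 8, 8, 4, 4, 3, 2, 3], .l [6, 10, 8, 8, 4, 4, 3, 2, 3], .l [9, 5], .l [6, 10, 6, 6, 4, 4, 3, 2, 3], .l [6, 10, 6, 6, 4, 4, 3, 2, 3], .l [9, 3], .l [4, 8, 6, 6, 4, 4, 3, 2, 1], .l [4, 10, 8, 8, 6, 6, 5, 4, 1], .r 241 [1, 2, 3, 5, 4] [1, 1, 1, 1, 1], .l [9, 1], .y [7], .l [4, 8, 6, 6, 4, 4, 3, 2, 3], .l [7, 9], .l [10, 2]]),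
([p 1 0, p 2 1, g, p 5 2, g, s 0 3, g, m 0 4, g, m 4 0, p 3 5, g], .hi 0, [.l [6, 3, 4, 1, 9, 7, 7, 5, 4], .l [0, 2], .l [3, 2], .l [9, 12, 5, 5, 3, 4, 6, 4, 5], .l [0, 4], .l [5, 4], .y [0, 5, 10, 3, 1], .l [4, 12, 10, 10, 8, 2, 4, 6, 3, 2, 3], .l [0, 6], .l [7, 6], .l [7, 6], .l [9, 8, 8, 7, 7, 5, 8, 2, 4, 2, 3], .l [0, 8], .l [9, 8], .l [7, 10, 5, 5, 3, 8, 1, 4, 1], .l [0, 11], .l [12, 11]]),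
([p 1 0, p 2 1, g, p 4 2, g, s 0 3, g, m 0 0, p 3 4, g], .lo 7, [.l [7, 6], .l [6, 10, 8, 8, 4, 4, 3, 2, 3], .l [9, 5], .l [6, 10, 8, 8, 4, 4, 3, 2, 3], .l [6, 10, 6, 6, 4, 4, 3, 2, 3], .l [9, 3], .l [6, 10, 6, 6, 4, 4, 3, 2, 3], .l [4, 10, 8, 8, 6, 6, 5, 4, 1], .l [9, 1], .r 243 [1, 2, 3, 5, 4] [1, 1, 1, 1, 1], .y [7], .l [4, 8, 6, 6, 4, 4, 3, 2, 3], .l [10, 2], .l [7, 9]]),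
([p 2 1, p 3 2, g, p 6 3, g, s 0 4, g, s 0 5, p 4 6, g, s 5 0, g, s 1 0, g], .lo 5, [.l [3, 6, 6, 7, 8, 6, 2, 7], .l [3, 6, 6, 7, 8, 6, 2, 7], .l [6, 10, 8, 8, 4, 9, 3, 6, 2, 5, 4], .l [6, 10, 6, 6, 4, 9, 3, 6, 2, 5, 4, 1], .l [7, 1, 9, 5, 5, 3, 8], .l [4, 10, 8, 8, 6, 9, 6, 2, 2, 6, 5], .l [5, 9, 10, 8, 6, 6, 4, 4, 2, 5], .l [5, 9, 10, 8, 6, 6, 4, 4, 2, 5], .l [5, 9, 2, 8, 8, 6, 6, 4, 7], .l [4, 8, 6, 6, 4, 9, 3, 6, 2, 5, 4, 1], .l [4, 8, 6, 8, 4, 10, 4, 6, 6, 4, 3], .l [4, 8, 6, 6, 4, 9, 3, 6, 2, 5, 4], .l [5, 7, 8, 8, 6, 6, 4, 4, 2, 3], .l [4, 8, 6, 6, 4, 9, 1, 6, 2, 5, 4, 1], .l [5, 7, 8, 10, 8, 8, 6, 6, 4, 5], .l [4, 8, 6, 6, 4, 9, 1, 6, 2, 5, 4], .y [0, 12, 5, 8, 3, 1], .l [5, 7, 8, 12, 10, 10, 8, 8,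 6, 3], .l [5, 7, 8, 12, 10, 10, 8, 8, 6, 3], .l [0, 11, 6, 2, 6, 3, 3, 8, 2, 0, 5]]),
([p 2 1, p 3 2, g, p 6 3, g, s 0 4, g, p 5 0, g, s 0 5, p 4 6, g, s 1 0, g], .lo 9, [.l [7, 11, 6, 8, 6, 9], .l [8, 12, 8, 8, 4, 4, 3, 1, 4, 2, 3], .l [6, 12, 10, 10, 6, 6, 5, 4, 5], .l [7, 11, 8, 10, 8, 8, 6, 7], .l [8, 12, 6, 6, 4, 4, 3, 1, 4, 2, 3], .l [6, 12, 8, 8, 6, 6, 5, 4, 5], .l [4, 12, 10, 10, 8, 9, 4, 1, 2, 5, 4, 1], .l [4, 12, 10, 10, 8, 8, 7, 6, 3], .l [10, 12, 4, 4, 2, 2, 1, 6, 1, 4, 1], .y [7, 9], .l [4, 12, 10, 10, 8, 9, 6, 3, 4, 5, 4, 1], .l [4, 12, 10, 10, 8, 8, 7, 6, 1], .l [10, 12, 4, 4, 2, 2, 1, 6, 1, 4, 1], .l [4, 10, 8, 8, 6, 9, 6, 1, 2, 5, 4, 1], .l [6, 10, 6, 6, 4, 4, 3, 1, 6, 4, 1], .l [4, 10, 8,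 8, 6, 6, 5, 4, 5], .l [3, 10, 9, 9, 7, 8, 4, 1, 2, 4, 4, 0, 1], .l [2, 3, 1, 9, 2, 9, 2, 0, 5, 1, 4, 1], .l [6, 10, 6, 6, 4, 4, 3, 1, 8, 6, 1], .l [4, 10, 8, 8, 6, 6, 5, 4, 7]]),
([p 2 1, p 4 2, g, p 0 3, g, p 7 4, g, s 3 5, g, s 6 0, g, s 0 6, p 5 7, g, s 1 0, g], .hi 9, [.l [3, 10, 1, 11, 1, 6, 8, 8, 6, 6, 2, 5], .l [5, 8, 8, 11, 1, 1, 6, 4, 2, 7], .l [3, 10, 1, 3, 1, 4, 10, 1, 7, 1, 7, 1, 5], .l [3, 6, 6, 9, 1, 1, 6, 4, 2, 5], .l [3, 8, 8, 11, 1, 1, 3, 1, 4, 7], .l [9, 13, 1, 1, 6, 8, 4, 9], .l [3, 8, 8, 11, 1, 1, 3, 1, 4, 7], .l [7, 10, 1, 11, 1, 10, 6, 6, 2, 7], .l [9, 13, 1, 1, 8, 10, 8, 8, 4, 7], .l [11, 3, 13, 7, 7, 3, 10], .l [6, 14, 12, 12, 8, 11, 8, 1, 4, 7, 6, 1], .l [7, 13, 1, 8, 10, 5, 1, 3,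 4, 7], .l [11, 1, 13, 7, 7, 3, 10], .l [7, 13, 3, 8, 10, 5, 1, 3, 4, 7], .l [6, 14, 12, 12, 8, 11, 8, 1, 4, 7, 6, 4, 5], .l [7, 13, 3, 8, 10, 5, 1, 3, 4, 7], .y [9, 11], .l [3, 6, 6, 9, 1, 1, 8, 6, 2, 7], .l [3, 6, 6, 9, 1, 1, 8, 6, 2, 7], .l [6, 12, 10, 10, 6, 8, 6, 4, 5, 4, 1, 5, 3], .l [3, 6, 6, 9, 1, 1, 10, 8, 2, 5], .l [3, 6, 6, 9, 1, 1, 10, 8, 2, 5], .l [3, 6, 15, 6, 13, 2, 7, 5, 7, 1, 5, 5, 3]]),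
([p 2 1, p 3 2, g, p 6 3, g, s 0 4, g, s 5 0, g, s 0 5, p 4 6, g, s 1 0, g], .lo 5, [.l [6, 12, 10, 10, 6, 9, 1, 6, 4, 5, 4, 1], .r 247 [1, 2, 7, 3, 4, 5, 6] [1, 1, 1, 1, 1, 1, 1], .l [6, 12, 10, 10, 6, 9, 1, 6, 4, 5, 4], .l [4, 12, 10, 10, 8, 9, 6, 4, 1, 3, 4, 3], .l [7, 1, 11, 7, 7, 5, 8], .l [4, 12, 10, 10, 8, 9, 6, 4, 1, 3, 4, 3], .l [5, 11, 1, 3, 8, 8, 6, 6, 4, 5], .l [7, 1, 11, 7, 7, 5, 8], .l [5, 11, 1, 3, 8, 8, 6, 6, 4, 5], .l [5, 9, 1, 1, 6, 6, 4, 4, 2, 3], .l [9, 3, 3, 9, 6, 8, 6, 6, 4, 5], .l [5, 11, 3, 1, 8, 8, 6, 6, 4, 5], .l [5, 11, 2, 10, 10, 8, 8, 6, 7], .l [4, 10, 8, 8, 6, 9, 1, 6, 4, 5, 4, 1], .l [4, 10, 8, 10, 6, 10, 2, 4, 4, 2, 1], .l [4, 10, 8, 8, 6, 9, 1, 6, 4, 5, 4], .y [0, 12, 5, 10,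 3, 1], .l [9, 1, 9, 3, 3, 1, 6, 3, 6, 2, 0, 3], .l [14, 8, 10, 5, 5, 1, 3, 8, 5], .l [0, 11, 6, 4, 1, 5, 1, 1, 6, 2, 0, 3]]),
([p 2 1, p 3 2, g, p 5 3, g, s 0 4, g, s 0 0, p 4 5, g, s 1 0, g], .hi 7, [.l [7, 9, 4, 6, 4, 7], .l [6, 10, 8, 8, 4, 4, 3, 2, 3], .l [9, 5, 7, 5, 8, 2, 2, 0, 3], .l [7, 9, 6, 8, 6, 6, 4, 5], .l [6, 10, 6, 6, 4, 4, 3, 2, 3], .l [9, 3, 9, 3, 3, 1, 6], .l [4, 8, 6, 6, 4, 4, 3, 2, 1], .r 248 [1, 2, 3, 4, 6, 5] [1, 1, 1, 1, 1, 1], .r 246 [1, 2, 3, 4, 6, 5] [1, 1, 1, 1, 1, 1], .l [4, 10, 8, 8, 6, 6, 5, 4, 1], .y [7], .r 245 [1, 2, 3, 4, 6, 5] [1, 1, 1, 1, 1, 1], .l [4, 8, 6, 6, 4, 4, 3, 2, 3], .l [10, 2, 3], .l [2, 3, 1, 7, 4, 2, 6, 2, 0, 1], .l [4, 8, 6, 6, 4, 4, 3, 2, 5], .l [12, 4, 5]]),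
([p 1 0, p 2 1, g, p 4 2, g, s 0 3, g, s 0 0, p 3 4, g], .hi 0, [.l [6, 3, 4, 1, 7, 5, 5, 3, 2], .l [0, 2], .l [3, 2], .r 240 [5, 1, 2, 4] [1, 1, 4, 1], .l [0, 4], .l [5, 4], .y [0, 5, 8, 3, 1], .r 240 [5, 1, 2, 4] [1, 3, 2, 1], .l [0, 6], .l [7, 6], .r 240 [5, 1, 2, 4] [1, 3, 0, 1], .r 249 [5, 1, 2, 3, 4] [1, 1, 1, 1, 1], .l [0, 9], .l [10, 9]]),
([p 1 0, p 2 1, g, p 4 2, g, s 0 3, g, p 3 4, g], .bot 6, [.c, .r 250 [1, 2, 3, 4] [1, 1, 1, 1], .r 242 [1, 2, 3, 4] [1, 1, 1, 1], .r 244 [1, 2, 3, 4] [1, 1, 1, 1]]),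
([p 2 1, p 3 2, g, p 5 3, s 0 4, g, p 7 5, m 0 6, g, m 6 0, g, s 4 0, g, s 0 7, g, s 1 0, g], .lo 7, [.l [5, 9, 6, 8, 6, 13, 7, 8, 5], .l [9, 5], .l [5, 9, 6, 8, 6, 13, 7, 8, 5], .l [1, 9, 2, 12, 7, 2, 12, 10, 6, 3], .l [9, 2], .l [9, 5, 12, 3, 15, 9, 1, 10, 1, 10, 4, 2, 7], .l [3, 6, 5, 8, 1, 8, 6, 3, 10], .l [9, 1], .l [7, 8], .y [7, 9], .l [2, 3, 1, 10, 3, 4, 11, 4, 0, 8, 1], .l [11, 3], .l [7, 10], .l [2, 3, 1, 10, 3, 4, 9, 2, 0, 6, 1], .l [2, 3, 1, 12, 5, 6, 11, 2, 0, 8, 3], .l [13, 5], .l [7, 12], .l [7, 14, 1, 11, 11, 8, 8, 6, 11, 1, 7, 3, 7], .l [15, 7], .l [7, 14], .l [0, 14, 3, 8, 12, 9, 9, 7, 4, 7, 2, 0, 4], .l [1, 7, 16, 12, 2, 9, 1, 11, 5, 1, 5, 8, 3], .l [17, 9], .l [7, 16]]),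
([p 2 1, p 3 2, p 5 3, s 0 4, g, p 0 5, m 0 6, g, m 6 0, g, s 4 0, g, s 1 0, g], .lo 5, [.r 251 [2, 3, 7, 5] [0, 2, 1, 8], .l [5, 6], .l [4, 7, 4, 4, 3, 3, 2, 1], .l [2, 5, 4, 4, 3, 11, 8, 2, 4, 2, 6], .l [8, 5, 11, 3, 12, 7, 3, 8, 1, 8, 4, 0, 5], .l [2, 5, 4, 4, 3, 11, 8, 2, 4, 2, 6], .l [2, 5, 4, 4, 3, 9, 6, 2, 2, 0, 4], .r 234 [1, 2, 3, 4, 5, 6, 7] [0, 1, 1, 1, 1, 1, 1], .l [6, 3, 11, 13, 7, 11, 7, 3, 8, 1, 2, 6, 4], .l [4, 5, 2, 2, 1, 1, 0, 6], .l [12, 11, 11, 10, 10, 9, 6, 1, 5, 1, 6, 4, 1], .r 252 [1, 2, 3, 4, 5, 6, 7] [0, 1, 1, 1, 1, 1, 1], .l [6, 8, 7, 11, 10, 10, 7, 7, 6, 8, 4, 2, 5], .l [4, 5, 2, 2, 1, 1, 0, 8], .y [0, 12, 5, 2, 1], .l [0, 11, 13, 6, 6, 3, 0], .l [0, 11, 13, 6, 6, 3, 0], .l [1,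 2, 1, 10, 6, 10, 2, 0, 8]]),
([p 2 1, p 3 2, p 5 3, s 0 4, g, p 0 5, m 0 0, g, s 4 0, g, s 1 0, g], .hi 6, [.l [2, 5, 4, 4, 3, 3, 2, 2, 5], .l [5, 7, 3], .l [2, 7, 6, 6, 5, 9, 6, 2, 6], .l [5, 7], .l [2, 5, 4, 4, 3, 7, 4, 0, 4], .y [6], .l [12, 11, 11, 10, 10, 9, 9, 6, 1], .l [10, 6, 7, 5, 1], .r 253 [1, 2, 3, 4, 5, 6] [1, 1, 1, 1, 1], .l [12, 11, 11, 10, 10, 9, 9, 6, 3], .l [8, 4, 5, 3, 7], .l [3, 7, 9, 7, 3], .l [10, 9, 9, 8, 8, 7, 7, 4, 7], .l [8, 4, 5, 3, 9], .l [2, 5, 4, 4, 3, 7, 9, 5, 2]]),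
([p 2 1, p 3 2, p 5 3, s 0 4, g, p 0 5, g, s 4 0, g, s 1 0, g], .top 6, [.l [3, 5, 3], .r 233 [1, 2, 3, 4, 5] [1, 1, 1, 1], .r 228 [1, 2, 3, 4, 5] [1, 1, 1, 1], .r 254 [1, 2, 3, 4, 5] [1, 1, 1, 1]])]

def D00 : List (List (List Item × Qry × List Rf)) := [d00_0, d00_1, d00_2, d00_3]

end Pool.Agent.H63.PU.C161
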