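import Pool.Agent.H63.PU.Ck3

/-! Certificate data, machine generated. -/

namespace Pool.Agent.H63.PU.C161

open Pool.Agent.H63.PU Pool.Agent.H63.PU.Ck3 Pool.Agent.H63.PU.Short

set_option maxRecDepth 20000

def d14_0 : List (List Item × Qry × List Rf) := [
([p 4 1, g, m 0 2, g, m 2 3, g, m 3 0, s 1 0, g, p 0 4, s 0 0, g], .hi 7, [.r 3583 [1, 2, 3, 5, 4] [1, 1, 1, 1, 1, 2], .r 3497 [1, 5, 4] [1, 6, 1, 2], .r 3502 [1, 5, 4] [1, 6, 1, 2], .l [7, 4, 4, 2, 2, 0, 1], .l [9, 4, 6, 4, 4, 2, 3], .r 3497 [1, 5, 4] [3, 4, 1, 2], .l [9, 4, 6, 4, 4, 2, 3], .l [5, 11, 5, 2, 7], .l [5, 11, 5, 2, 7], .l [6, 8, 5], .r 3567 [1, 3, 5, 4] [3, 1, 1, 1, 1], .r 3571 [1, 2, 3, 5, 4] [1, 1, 1, 1, 1, 2], .r 1064 [1, 2, 3, 5, 4] [1, 1, 1, 1, 1, 2],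 .y [0, 7, 9], .l [7, 9, 1], .r 3575 [1, 3, 5, 4] [3, 1, 1, 2, 1], .r 3579 [1, 2, 3, 5, 4] [1, 1, 1, 1, 2, 1], .r 1380 [1, 3, 5, 4] [3, 1, 1, 2, 1]]),
([p 5 1, s 0 2, g, s 0 3, g, m 3 4, g, m 4 0, s 1 0, g, p 0 5, s 0 0, g, s 2 0, g], .hi 8, [.l [5, 1, 9, 4, 7, 5, 2, 1], .l [7, 1, 11, 4, 9, 7, 4, 10, 8, 1], .l [7, 1, 11, 4, 9, 7, 4], .r 3501 [1, 6, 5] [1, 6, 1, 4], .l [5, 1, 9, 4, 7, 5, 4], .l [7, 3, 11, 4, 7, 5, 6, 10, 6, 1], .r 2163 [1, 6, 5] [3, 4, 1, 4], .l [7, 3, 11, 4, 7, 5, 6], .l [6, 12, 5, 2, 8], .l [6, 12, 5, 2, 8], .l [5, 1, 11, 6, 9, 5, 6], .r 3566 [1, 4, 6, 5] [3, 1, 1, 1, 3], .l [5, 1, 11, 6, 9, 7, 1], .r 1065 [1, 3, 4, 6, 5] [2, 1, 1, 1, 1, 4], .y [0, 8, 10], .l [8, 10, 1], .l [5, 1, 9, 4, 7, 5, 8, 10, 4, 1],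 .l [5, 1, 9, 4, 7, 5, 8], .r 1386 [1, 6, 5] [6, 1, 2, 3], .l [8, 14, 11, 1, 9, 5, 9, 1], .l [5, 1, 9, 4, 7, 5, 10], .r 1385 [1, 2, 6, 5] [6, 1, 2, 1, 1]]),
([p 4 1, s 0 0, g, s 0 2, g, m 2 3, g, m 3 0, s 1 0, g, p 0 4, s 0 0, g], .hi 1, [.y [1], .r 1053 [1, 5, 4] [1, 6, 1, 2], .l [2, 12, 9, 9, 1], .r 578 [1, 5, 4] [1, 6, 1, 2], .r 1053 [1, 5, 4] [1, 4, 1, 2], .r 1053 [1, 5, 4] [3, 4, 1, 2], .l [4, 12, 7, 7, 1], .r 578 [1, 5, 4] [3, 4, 1, 2], .l [5, 1, 6, 2, 6, 1], .l [6, 9, 7, 11, 6, 6, 1], .l [5, 1, 6, 2, 6, 1], .r 987 [1, 5, 3, 4] [3, 1, 1, 1, 2], .l [8, 7, 8], .l [5, 10, 5, 2, 7], .l [8, 7, 8], .l [1, 10, 8], .r 3585 [1, 5, 2, 3, 4] [1, 1, 1, 1, 1, 1], .l [8, 7, 11], .l [5, 13, 8, 2, 10]]),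
([p 4 1, g, s 0 2, g, m 2 3, g, m 3 0, s 1 0, g, p 0 4, s 0 0, g], .top 1, [.r 578 [1, 2, 4] [1, 2, 1, 2], .r 3586 [1, 2, 3, 4] [1, 1, 1, 1, 1], .r 334 [] [11], .r 444 [] [11]]),
([p 3 1, g, m 0 2, g, m 2 0, s 1 0, g, p 0 3, s 0 0, g], .lo 2, [.r 3587 [1, 4, 2, 3] [1, 1, 1, 1, 1], .l [4, 1], .r 3584 [1, 4, 2, 3] [1, 1, 1, 1, 1], .r 3562 [1, 2, 4, 3] [1, 1, 1, 1, 2], .l [4, 1], .l [2, 3], .y [2, 4], .l [2, 4, 3], .l [7, 4, 4, 2, 3], .l [7, 4], .l [2, 6], .l [2, 7, 4], .l [10, 7, 7, 5, 6], .l [10, 7], .l [2, 9]]),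
([p 2 1, g, m 0 0, s 1 0, g, p 0 2, s 0 0, g], .lo 2, [.l [0, 4, 1], .l [4, 1], .r 3588 [1, 3, 2] [1, 1, 1, 1], .y [2], .c, .l [0, 2, 3], .l [5, 2], .l [2, 4], .l [0, 2, 4], .l [0, 2, 6], .l [8, 5], .l [2, 7]]),
([p 3 1, s 0 2, g, s 1 0, g, p 4 3, s 0 0, g, s 2 0, g, p 0 4, g], .bot 2, [.r 2173 [1] [8], .r 3483 [1, 2, 3, 4] [1, 1, 2, 1, 1], .r 3560 [1, 3] [2, 1, 6], .r 3589 [1, 3] [2, 1, 5]]),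
([p 3 1, s 0 2, g, s 1 0, g, s 4 0, p 5 3, g, p 0 4, g, p 0 5, g, s 2 0, g], .lo 1, [.l [2, 8, 5, 5, 2, 10, 5, 1, 6, 3], .r 1556 [1, 6, 3] [1, 1, 2, 7], .l [2, 8, 5, 5, 2], .l [2, 6, 3, 3, 2], .l [3, 2, 12, 8, 10, 1, 5, 1, 4, 1], .l [14, 12, 1, 11, 8, 10, 7, 1, 6, 3], .l [3, 2, 3], .l [3, 2, 10, 6, 8, 1, 5, 1, 4, 1], .l [14, 12, 1, 11, 5, 1, 6, 3], .l [14, 12, 13, 8, 3, 7, 2, 4, 2, 5], .l [3, 2, 6], .l [10, 8, 9, 4, 9, 4, 6, 8, 6, 1], .l [10, 8, 9, 4, 9, 4, 6], .l [3, 2, 8], .l [12, 10, 11, 6, 1, 5, 2, 8, 6, 3], .l [12, 10, 11, 6, 1, 5, 2], .l [3, 2, 10], .y [1, 12], .l [12, 10, 11, 6, 1, 5, 2, 8, 6, 3], .l [12, 10, 11, 6, 1, 5, 2, 8, 6, 3], .l [3, 2, 12]]),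
([p 3 1, s 0 2, g, s 1 0, g, s 4 0, p 0 3, s 0 0, g, p 0 4, g, s 2 0, g], .lo 6, [.l [11, 3, 6], .l [3, 7], .l [2, 8, 5, 4], .y [0, 3, 6], .l [11, 3, 4], .l [5, 7], .l [4, 8, 3, 2], .c, .l [9, 3, 0], .l [11, 5, 2], .r 3491 [1, 2, 3, 5, 4] [1, 1, 1, 1, 1, 1], .l [5, 6, 0, 7], .l [9, 3, 9], .r 3591 [1, 2, 3, 4, 5] [1, 1, 2, 1, 1, 1], .l [5, 6, 0, 9], .l [9, 3, 9], .l [9, 3, 11], .r 3590 [1, 2, 3, 5] [1, 2, 3, 1, 1], .l [5, 6, 0, 11]]),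
([p 2 1, s 0 0, g, s 0 0, s 1 0, g, s 3 0, p 0 2, s 0 0, g, p 0 3, g], .hi 1, [.y [1], .r 1053 [1, 4, 2] [1, 2, 2, 4], .l [2, 9, 6, 6, 2], .r 578 [1, 4, 2] [1, 2, 2, 4], .r 1053 [1, 4, 2] [1, 0, 2, 4], .r 927 [1, 4, 2] [1, 1, 2, 4], .l [4, 3, 4], .r 517 [1, 4, 2] [1, 1, 2, 4], .l [4, 3, 5], .l [1, 7, 5], .r 3485 [1, 4, 2, 3] [1, 1, 2, 1, 1], .l [4, 3, 8], .r 851 [1, 4, 2] [1, 2, 2, 3], .l [4, 3, 8], .r 3592 [1, 4, 2, 3] [2, 1, 1, 1, 1], .l [4, 3, 10], .r 851 [1, 4, 2] [1, 2, 4, 1]]),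
([p 4 1, g, s 1 0, s 7 0, g, p 0 2, g, s 2 3, p 5 4, g, m 3 0, g, p 6 5, g, p 0 6, g, s 0 7, g], .hi 2, [.l [9, 1, 17, 13, 1, 14, 7, 12, 1, 2, 0, 7], .l [3, 10, 6, 7, 11, 9, 1], .l [4, 1, 9, 5, 7, 1, 10, 8, 1], .l [4, 10, 5, 6, 11, 9, 1, 8, 4, 9], .l [4, 10, 5, 6, 11, 9, 1], .r 1068 [1, 8, 4] [1, 2, 4, 9], .l [4, 8, 3, 4, 9, 7, 1], .l [7, 4, 16, 8, 12, 1, 1, 1, 7, 1, 6, 3], .l [9, 3, 17, 11, 1, 12, 7, 12, 1, 2, 0, 7], .l [0, 1, 6, 4, 14, 8, 10, 1, 7, 1, 6, 3], .l [9, 14, 12, 1, 11, 4, 5, 10, 8, 8, 4, 7], .l [0, 1, 1, 8, 12, 10, 1], .l [0, 1, 9, 7, 7, 1, 10, 8, 1], .l [11, 14, 10, 1, 9, 2, 3, 10, 8, 8, 6, 7], .l [0, 1, 1, 10, 12, 8, 1], .l [0, 1, 11, 9, 9, 3, 10, 6, 1], .l [5, 6, 13, 9, 9, 10, 10, 5, 1, 4, 1, 7, 5], .l [0,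 1, 1, 12, 14, 12, 12, 8, 1], .l [0, 1, 4, 4, 11, 9, 9, 5, 1, 4, 1], .y [0, 2, 14, 12, 8], .l [5, 6, 15, 11, 11, 12, 12, 7, 1, 6, 3, 3, 1], .l [2, 1, 4, 4, 5, 3, 12, 1, 7, 1, 6, 3], .l [0, 1, 4, 4, 13, 11, 11, 7, 1, 6, 3], .l [5, 6, 15, 11, 11, 12, 12, 7, 1, 6, 3, 3, 1], .l [5, 6, 17, 13, 13, 14, 14, 9, 1, 8, 5, 5, 3], .l [17, 10, 10, 13, 14, 9, 1, 8, 5], .l [0, 1, 4, 4, 15, 13, 13, 9, 1, 8, 5]]),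
([p 3 1, g, s 1 0, s 6 0, g, p 0 2, g, s 2 0, p 4 3, g, p 5 4, g, p 0 5, g, s 0 6, g], .hi 7, [.l [4, 3, 9, 5, 12, 5, 6, 3], .l [11, 16, 9, 3, 4, 11, 7, 5, 5, 8, 0, 5], .l [4, 3, 6, 6, 7, 3, 10, 5, 6, 3], .l [11, 16, 7, 1, 8, 10, 4, 9, 5, 8, 0, 5], .r 2396 [2, 7, 3, 4] [4, 1, 1, 1, 5], .l [11, 16, 7, 1, 8, 10, 4, 9, 5, 8, 0, 5], .y [5, 7], .l [2, 1, 4, 6, 7, 3, 10, 5, 6, 3], .l [2, 1, 4, 6, 7, 3, 10, 5, 6, 3], .l [11, 16, 7, 1, 8, 10, 4, 9, 5, 8, 0, 5], .l [2, 1, 7, 5, 12, 5, 6, 3], .l [2, 1, 4, 4, 5, 3, 10, 5, 6, 3], .r 3594 [1, 2, 7, 3, 4, 5, 6] [1, 1, 1, 1, 1, 1, 1, 1], .l [2, 1, 7, 5, 12, 8, 4, 6, 4, 4, 2, 3], .l [2, 1, 7, 5, 12, 8, 4, 6, 4, 4, 2, 3], .l [9, 16, 9, 1, 2, 11, 7, 5, 5, 8, 0, 5], .l [2, 1, 7, 5, 10, 6,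 4, 4, 2, 2, 0, 1], .l [9, 14, 11, 7, 10, 3, 9, 0, 6], .l [9, 2, 12, 9, 10, 3, 6, 1, 2, 0, 1], .l [9, 14, 11, 7, 10, 3, 9, 0, 6], .l [9, 14, 11, 7, 10, 3, 9, 0, 6], .l [9, 16, 13, 7, 12, 5, 11, 0, 8], .l [9, 2, 14, 11, 12, 5, 8, 1, 2, 0, 3], .l [9, 16, 13, 7, 12, 5, 11, 0, 8]]),
([p 3 1, g, s 1 0, s 5 0, g, p 0 2, g, s 2 0, p 4 3, g, p 0 4, g, s 0 5, g], .lo 10, [.l [1, 10, 8, 9, 9, 7, 1], .l [2, 11], .l [0, 3, 1, 9, 9, 7, 1], .y [0, 2, 10, 8], .l [2, 1, 7, 5, 6], .l [4, 10, 5, 9, 9, 4, 1], .l [5, 11], .l [2, 1, 9, 7, 10, 8, 6, 6, 4, 1], .l [11, 12, 10, 3, 9, 0, 6], .l [7, 11], .l [2, 1, 9, 7, 10, 6, 4, 4, 2, 3], .l [2, 1, 4, 4, 5, 3, 6, 1, 2, 1], .l [9, 12, 10, 1, 9, 2, 1], .l [10, 11], .l [9, 12, 10, 1, 9, 2, 1], .l [9,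 10, 8, 1, 7, 0, 6], .r 3595 [1, 2, 3, 4, 6, 5] [1, 1, 1, 1, 1, 1, 1], .l [9, 10, 8, 1, 7, 0, 6], .l [9, 10, 8, 1, 7, 0, 8], .l [2, 1, 7, 5, 8, 10, 8, 8, 6, 1], .l [9, 10, 8, 1, 7, 0, 8]]),
([p 3 1, g, s 1 0, s 0 0, g, p 0 2, g, s 2 0, p 4 3, g, p 0 4, g], .lo 3, [.l [4, 3, 9, 5, 6, 8, 6, 1], .l [4, 3, 9, 5, 6], .l [4, 10, 5, 6, 10, 8, 1], .c, .y [3], .l [4, 10, 5, 7, 1, 8, 6, 1], .r 3439 [1, 5, 3] [1, 1, 4, 3], .l [2, 1, 9, 7, 1], .r 3412 [1, 5, 3] [1, 3, 2, 3], .r 3439 [1, 5, 3] [1, 3, 2, 3], .l [2, 1, 9, 7, 3], .r 3412 [1, 5, 3] [1, 3, 0, 3], .l [2, 1, 7, 5, 6, 8, 6, 1], .l [10, 6, 9, 4, 9, 4, 1], .l [2, 1, 7, 5, 6], .r 3596 [1, 2, 3, 4, 5] [1, 1, 1, 1, 1, 1], .r 3410 [1, 3, 5] [1, 4, 3, 1], .l [2, 1, 7, 5, 8]]),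
([p 3 1, s 0 0, g, s 0 0, s 1 0, s 0 0, g, s 0 2, p 5 3, s 0 4, g, p 0 5, g, s 4 0, g, s 2 0, g], .lo 7, [.l [12, 8, 11, 7, 10, 9, 9, 6], .l [16, 7, 15, 13, 3, 9, 11, 2], .r 3475 [1, 6, 3] [1, 2, 1, 8], .l [8, 10, 1, 3, 11, 8, 12], .l [8, 11, 10, 3, 5, 8, 2, 8], .l [14, 7, 13, 11, 3, 6, 10, 4], .l [6, 8, 1, 5, 3, 8, 4, 10], .l [16, 7, 15, 13, 3, 5, 11, 6], .r 3597 [1, 6, 3, 5] [3, 1, 1, 2, 5], .l [8, 10, 1, 7, 11, 4, 12], .l [16, 9, 3, 5, 2, 12, 9, 1], .l [16, 9, 15, 13, 2, 13, 8], .l [6, 8, 1, 9, 11, 2, 12], .l [12, 5, 11, 9, 11, 13, 11, 6], .r 3593 [1, 3, 6] [1, 2, 3, 5], .l [12, 5, 11, 9, 11, 13, 11, 6], .l [14, 7, 13, 11, 3, 3, 9, 6], .l [16, 9, 15, 13, 3, 5, 11, 6], .l [16, 9, 15, 13, 3, 5, 11, 6], .r 3481 [1, 3, 5,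 6] [2, 1, 2, 3, 3], .y [7, 15], .l [16, 9, 15, 13, 3, 5, 11, 6], .r 3593 [1, 3, 6] [1, 2, 7, 1], .l [16, 9, 15, 13, 3, 5, 11, 6]]),
([p 3 1, s 0 0, g, s 0 0, s 1 0, g, s 0 2, p 5 3, s 0 4, g, p 0 5, g, s 4 0, g, s 2 0, g], .top 5, [.r 3472 [1, 2, 3, 4, 5] [3, 1, 1, 1, 1], .r 3598 [1, 2, 3, 4, 5] [1, 1, 1, 1, 1, 1], .r 3498 [1, 3] [3, 2, 8], .r 3538 [1, 3] [3, 2, 8]]),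
([p 3 1, s 0 0, g, s 0 0, s 1 0, g, s 0 2, p 4 3, g, s 2 0, g, p 0 4, g], .hi 1, [.y [1], .r 1053 [1, 5, 3] [1, 2, 2, 5], .l [2, 9, 6, 6, 2], .r 578 [1, 5, 3] [1, 2, 2, 5], .r 1053 [1, 5, 3] [1, 0, 2, 5], .r 927 [1, 5, 3] [1, 1, 2, 5], .l [4, 3, 4], .r 517 [1, 5, 3] [1, 1, 2, 5], .l [5, 7, 1, 6, 8, 2, 2, 4], .l [4, 3, 7, 11, 9, 6], .l [4, 3, 7], .r 851 [1, 5, 3] [1, 2, 1, 5], .l [4, 3, 9, 11, 7, 8], .l [4, 3, 9], .r 851 [1, 5, 3] [1, 2, 3, 3], .l [4, 3, 9], .l [4, 3, 11, 3, 4, 1], .l [4, 3, 11], .r 851 [1, 5, 3] [1, 2, 5, 1]]),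
([p 3 1, s 0 0, g, s 0 0, s 1 0, g, s 0 2, p 0 3, s 0 4, g, p 5 0, g, p 0 5, s 4 0, g, s 2 0, g], .lo 7, [.l [4, 3, 5], .l [16, 13, 5, 14, 8, 4], .l [3, 8], .l [2, 9, 6, 5], .l [0, 3, 5], .y [0, 4, 7], .l [16, 10, 2, 14, 11, 4], .l [6, 8], .l [5, 9, 3, 2], .l [17, 10, 2, 4, 14, 11, 2, 11], .r 3599 [1, 2, 3, 4, 6] [1, 1, 1, 4, 1, 1], .l [6, 7, 0, 8], .r 3599 [1, 2, 3, 4, 6] [1, 1, 1, 2, 1, 1], .l [11, 1, 3, 10, 9, 11, 8, 11], .r 3599 [1, 2, 3, 4, 6] [1, 1, 3, 2, 1, 1], .l [6, 7, 0, 10], .l [10, 13, 9, 13, 1, 3, 0, 3], .l [10, 15, 11, 15, 1, 5, 2, 5], .l [10, 15, 11, 15, 1, 5, 2, 5], .l [6, 7, 0, 13], .l [15, 8, 7], .l [16, 1, 8, 14, 13, 4], .r 3600 [1, 2, 3, 6] [1, 1, 7, 1, 1], .l [6, 7, 0, 15]]),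
([p 3 1, s 0 0, g, s 0 0, s 1 0, g, s 0 2, p 0 3, s 0 4, g, p 0 0, s 4 0, g, s 2 0, g], .hi 10, [.l [8, 10, 2, 4], .l [15, 6, 14, 13, 2, 8], .l [10, 12, 4], .l [12, 8], .l [10, 6, 8], .l [15, 6, 14, 13, 2, 5], .l [10, 12, 7], .l [12, 5], .l [12, 6, 11, 9, 2, 8], .l [8, 10, 8], .l [8, 10, 9], .l [15, 8, 14, 13, 4, 1], .r 3601 [1, 2, 3, 4, 5] [1, 1, 1, 1, 1, 1], .l [12, 1], .y [10], .l [15, 8, 14, 13, 2, 3], .l [10, 12], .l [13, 2], .l [13, 6, 12, 11, 2, 11], .l [10, 14], .l [15, 4]]),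
([p 3 1, s 0 0, g, s 0 0, s 1 0, g, s 0 2, p 0 3, s 0 4, g, m 0 5, g, m 5 0, s 4 0, g, s 2 0, g], .lo 7, [.l [4, 3, 5], .l [16, 13, 5, 14, 8, 4], .l [3, 8], .l [2, 9, 6, 5], .l [0, 3, 5], .y [0, 4, 7], .l [16, 10, 2, 14, 11, 4], .l [6, 8], .l [5, 9, 3, 2], .l [17, 10, 2, 4, 14, 11, 2, 11], .r 3599 [1, 2, 3, 4, 6] [1, 1, 1, 4, 1, 1], .l [6, 7, 0, 8], .l [11, 1, 3, 10, 9, 11, 8, 11], .r 3599 [1, 2, 3, 4, 6] [1, 1, 3, 2, 1, 1], .l [6, 7, 0, 10], .l [6, 7, 0, 10], .l [10, 13, 9, 13, 1, 3, 0, 3], .l [10, 15, 11, 15, 1, 5, 2, 5], .l [10, 15, 11, 15, 1, 5, 2, 5], .l [6, 7, 0, 13], .l [15, 8, 7], .l [16, 1, 8, 14, 13, 4], .r 3600 [1, 2, 3, 6] [1, 1, 7, 1, 1], .l [6, 7, 0, 15]]),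
([p 3 1, s 0 0, g, s 0 0, s 1 0, g, s 0 2, p 0 3, s 0 4, g, m 0 0, s 4 0, g, s 2 0, g], .lo 10, [.l [8, 10, 2, 4], .l [15, 6, 14, 13, 2, 8], .l [12, 8], .l [10, 12, 4], .l [10, 6, 8], .l [13, 6, 12, 11, 2, 5], .l [15, 6, 14, 13, 2, 5], .l [12, 5], .l [10, 12, 7], .l [15, 8, 14, 13, 4, 1], .l [12, 1], .r 3603 [1, 2, 3, 4, 5] [1, 1, 1, 1, 1, 1], .y [10], .c, .l [15, 8, 14, 13, 2, 3], .l [13, 2], .l [10, 12], .l [13, 6, 12, 11, 2, 3], .l [13, 6, 12, 11, 2, 11], .l [15, 4], .l [10, 14]]),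
([p 3 1, g, s 0 2, g, s 1 0, g, p 7 3, s 5 4, g, s 0 5, g, p 6 0, g, s 0 6, s 4 0, g, s 2 0, g, s 0 7, g], .lo 13, [.l [19, 11, 18, 17, 6, 13], .l [18, 13, 17, 13, 6, 9], .l [6, 5, 8, 13, 5, 1, 10, 1], .l [19, 11, 18, 17, 6, 11], .l [18, 15, 17, 11, 6, 13], .l [6, 5, 8, 13, 7, 3, 10, 1], .l [17, 11, 16, 15, 6, 9], .l [19, 11, 18, 17, 6, 9], .l [18, 15, 17, 11, 6, 11], .l [4, 3, 8, 13, 9, 5, 10, 5], .l [19, 13, 18, 17, 8, 5], .l [18, 15, 17, 13, 8, 5], .l [11, 3, 19, 14, 17, 7, 4, 9], .l [19, 13, 18, 17, 8, 3], .l [18, 15, 17, 13, 8, 3], .l [19, 6, 1, 6, 4, 7, 8, 13, 12, 5], .y [11, 13], .l [19, 13, 18, 17, 8, 1], .l [18, 15, 17, 13, 8, 1], .l [19, 6, 1, 6, 4, 7, 8, 13, 12, 5], .c, .l [19, 13, 18, 17, 6, 7], .l [4, 3, 8,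 1, 13, 2, 10, 1], .l [18, 15, 17, 13, 6, 7], .l [16, 13, 15, 11, 6, 7], .l [19, 13, 18, 17, 6, 9], .l [4, 3, 8, 1, 15, 4, 12, 1], .l [16, 13, 15, 11, 6, 13], .l [17, 11, 16, 15, 6, 15], .l [20, 6, 11, 12, 4, 8, 1, 14, 10, 3], .l [16, 13, 15, 11, 6, 15]]),
([p 4 1, g, s 0 2, g, s 1 0, g, s 0 3, p 7 4, s 6 5, g, s 0 6, g, s 0 0, s 5 0, g, s 2 0, g, s 0 7, g, s 3 0, g], .hi 12, [.l [18, 9, 18, 17, 4, 13], .l [6, 5, 9, 12, 3, 1, 9, 2], .l [17, 12, 16, 11, 4, 7], .l [14, 12, 13, 7, 4, 10], .l [18, 9, 18, 17, 4, 11], .l [6, 5, 9, 12, 5, 3, 9, 2], .l [17, 14, 16, 9, 4, 12], .l [18, 9, 18, 17, 4, 9], .l [4, 3, 9, 12, 7, 5, 9, 4], .l [17, 14, 16, 9, 4, 10], .l [12, 5, 11, 10, 10, 13], .l [18, 11, 18, 17, 6, 3], .l [11, 19, 14, 18,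 1, 7, 4, 8, 3], .l [17, 14, 16, 11, 6, 3], .l [4, 3, 7, 10, 1, 1, 7, 2], .l [18, 11, 18, 17, 6, 1], .r 3605 [1, 2, 4, 5, 6, 8, 7] [1, 1, 2, 1, 1, 1, 1, 1, 3], .l [17, 14, 16, 11, 6, 1], .y [12], .l [18, 11, 18, 17, 4, 5], .l [17, 14, 16, 11, 4, 5], .l [4, 3, 9, 1, 12, 2, 9, 2], .l [18, 11, 18, 17, 4, 7], .l [15, 12, 14, 9, 4, 12], .l [4, 3, 9, 1, 14, 4, 11, 2], .l [8, 12, 15, 15, 10, 14, 6, 2, 5], .l [16, 9, 16, 15, 4, 15], .l [15, 12, 14, 9, 4, 14], .l [4, 3, 9, 1, 16, 6, 13, 2], .l [16, 9, 16, 15, 4, 17], .l [15, 12, 14, 9, 4, 16], .l [4, 3, 9, 1, 18, 8, 15, 2]]),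
([p 4 1, g, s 0 2, g, s 1 0, g, m 0 3, g, p 7 4, s 6 5, g, s 3 0, s 5 0, g, s 0 6, g, s 2 0, g, s 0 7, g], .hi 11, [.l [12, 4, 11, 8, 10, 3], .l [12, 4, 11, 8, 10, 3], .l [18, 13, 17, 11, 2, 7], .l [10, 4, 9, 6, 8, 3], .l [12, 4, 11, 8, 10, 5], .l [2, 17, 9, 4, 11, 6, 8, 9], .l [18, 15, 17, 9, 2, 13], .l [12, 4, 11, 8, 10, 7], .l [2, 17, 9, 4, 9, 4, 6, 9], .l [18, 15, 17, 9, 2, 11], .y [6, 11], .l [12, 4, 11, 8, 10, 7], .l [2, 17, 9, 4, 9, 4, 6, 9], .l [18, 15, 17, 9, 2, 9], .l [12, 6, 11, 8, 10, 7], .l [7, 9, 14, 4, 1, 4, 2, 9, 0, 11], .l [18, 15, 17, 11, 4, 1], .l [10, 4, 9, 6, 8, 9], .l [18, 15, 17, 11, 2, 3], .l [2, 17, 11, 4, 7, 2, 4, 9], .l [4, 3, 8, 9, 10, 4, 8, 8, 2, 3], .l [10, 4, 9, 6, 8, 11], .l [18, 15, 17, 11,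 2, 5], .l [2, 17, 11, 4, 9, 4, 6, 9], .l [10, 4, 9, 6, 8, 13], .l [16, 13, 15, 9, 2, 13], .l [7, 1, 9, 16, 6, 13, 0, 13], .l [9, 11, 16, 8, 14, 14, 1, 12, 10, 1], .l [10, 4, 9, 6, 8, 15], .l [16, 13, 15, 9, 2, 15], .l [7, 1, 9, 18, 8, 15, 0, 7]]),
([p 3 1, g, s 0 2, g, s 1 0, g, p 7 3, s 6 4, g, m 0 5, g, s 5 0, s 4 0, g, s 0 6, g, s 2 0, g, s 0 7, g], .hi 11, [.l [19, 11, 18, 17, 4, 13], .l [7, 9, 14, 4, 1, 8, 6, 9, 0, 11], .l [18, 13, 17, 13, 4, 9], .l [15, 13, 14, 9, 4, 11], .l [19, 11, 18, 17, 4, 11], .l [7, 9, 14, 4, 1, 6, 4, 9, 0, 11], .l [18, 15, 17, 11, 4, 13], .l [19, 11, 18, 17, 4, 9], .l [7, 9, 14, 4, 1, 4, 2, 9, 0, 11], .l [18, 15, 17, 11, 4, 11], .l [19, 13, 18, 17, 6, 3], .l [4, 3, 6, 13, 4, 1, 4, 2, 8, 1],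 .l [18, 15, 17, 13, 6, 3], .y [9, 11], .l [19, 13, 18, 17, 6, 1], .l [4, 3, 6, 13, 4, 1, 4, 2, 8, 1], .l [18, 15, 17, 13, 6, 1], .l [19, 13, 18, 17, 4, 5], .l [18, 15, 17, 13, 4, 5], .l [4, 3, 6, 13, 6, 1, 4, 2, 8, 1], .l [4, 3, 6, 9, 10, 10, 8, 1], .l [19, 13, 18, 17, 4, 7], .l [18, 15, 17, 13, 4, 7], .l [4, 3, 6, 11, 4, 1, 11, 9, 6, 1], .l [19, 13, 18, 17, 4, 9], .l [16, 13, 15, 11, 4, 13], .l [4, 3, 6, 11, 4, 1, 13, 11, 6, 1], .l [18, 6, 9, 10, 6, 8, 1, 12, 10, 1], .l [17, 11, 16, 15, 4, 15], .l [16, 13, 15, 11, 4, 15], .l [20, 8, 11, 12, 6, 10, 1, 14, 10, 1]]),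
([p 3 1, s 0 2, g, s 1 0, g, p 6 3, s 5 4, g, s 0 0, s 4 0, g, s 0 5, g, s 2 0, g, s 0 6, g], .lo 8, [.l [16, 9, 15, 14, 2, 9], .l [15, 13, 14, 8, 2, 10], .l [5, 4, 13, 7, 13, 5, 11, 2, 7], .l [3, 2, 11, 7, 11, 3, 9, 2, 7], .l [16, 9, 15, 14, 2, 7], .l [15, 13, 14, 8, 2, 8], .r 3607 [1, 2, 7, 3, 4, 5, 6] [0, 1, 1, 1, 1, 1, 1, 1, 1], .l [16, 11, 15, 14, 4, 1], .l [15, 13, 14, 10, 4, 1], .r 3608 [1, 2, 3, 4, 7, 5, 6] [0, 1, 1, 1, 1, 1, 1, 1, 1], .y [8], .c, .l [16, 11, 15, 14, 2, 3], .l [3, 2, 10, 2, 3, 10, 6, 1], .l [15, 13, 14, 10, 2, 3], .l [16, 11, 15, 14, 2, 5], .l [6, 10, 7, 2, 10, 5, 2, 5], .l [15, 13, 14, 10, 2, 5], .l [13, 11, 12, 8, 2, 5], .l [16, 11, 15, 14, 2, 7], .l [3, 2, 11, 7, 13, 5, 11, 2, 5], .l [13, 11,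 12, 8, 2, 10], .l [14, 9, 13, 12, 2, 12], .l [6, 10, 7, 2, 14, 9, 2, 9], .l [13, 11, 12, 8, 2, 12]]),
([p 4 1, s 0 2, g, s 1 0, g, s 0 3, p 6 4, s 0 5, g, s 0 0, s 5 0, g, s 2 0, g, s 0 6, g, s 3 0, g], .lo 7, [.l [3, 8, 4], .l [3, 8, 4], .l [5, 4, 12, 1, 3, 9, 5, 2], .l [3, 6, 2], .l [5, 8, 2], .l [5, 8, 2], .l [3, 2, 12, 1, 3, 7, 3, 6], .r 3606 [1, 2, 3, 4, 5, 7, 6] [0, 1, 1, 1, 1, 1, 1, 1, 1], .l [9, 1, 15, 12, 14, 6, 4, 7], .l [3, 2, 12, 7, 13, 3, 11, 1], .l [12, 10, 11, 6, 2, 1], .y [7, 10], .r 3609 [1, 2, 4, 5, 7, 6] [1, 2, 1, 1, 1, 1, 3], .r 3488 [1, 4, 7] [1, 2, 4, 7], .l [3, 2, 12, 7, 13, 3, 11, 4], .l [3, 2, 10, 1, 3, 9, 5, 2], .l [3, 2, 10, 12, 7, 2], .l [3, 2, 10, 1, 3, 11, 7, 2], .l [10, 2, 15, 11, 14, 5, 2,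 6], .l [3, 2, 10, 14, 9, 2], .l [3, 2, 10, 1, 3, 13, 9, 2], .l [3, 2, 10, 5, 11, 3, 9, 10], .l [3, 2, 10, 14, 9, 2], .l [3, 2, 10, 16, 11, 2], .l [3, 2, 10, 1, 3, 15, 11, 2], .l [3, 2, 10, 5, 11, 3, 9, 12]]),
([p 3 1, g, s 0 2, g, p 5 0, g, s 1 0, g, p 6 3, s 7 4, g, s 0 5, s 4 0, g, s 0 6, g, s 0 7, g, s 2 0, g], .lo 11, [.l [12, 6, 11, 6, 10, 5], .l [20, 15, 19, 13, 2, 9], .l [12, 6, 11, 6, 10, 5], .l [12, 6, 11, 6, 10, 7], .l [20, 17, 19, 11, 2, 15], .l [2, 19, 13, 6, 13, 6, 10, 11], .y [4, 11], .l [12, 6, 11, 6, 10, 7], .l [20, 17, 19, 11, 2, 13], .l [2, 19, 13, 6, 13, 6, 10, 11], .l [10, 4, 9, 6, 8, 5], .l [12, 4, 11, 8, 10, 5], .l [20, 17, 19, 11, 2, 11], .l [2, 19, 11, 4, 13, 8, 10, 11], .l [12, 8, 11, 6, 10, 7],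 .l [20, 17, 19, 13, 4, 1], .l [7, 9, 16, 6, 1, 8, 6, 11, 0, 7], .c, .l [10, 6, 9, 4, 8, 9], .l [2, 19, 15, 6, 9, 2, 6, 11], .l [20, 17, 19, 13, 2, 3], .l [10, 6, 9, 4, 8, 11], .l [2, 19, 15, 6, 11, 4, 8, 11], .l [20, 17, 19, 13, 2, 5], .l [10, 6, 9, 4, 8, 13], .l [2, 19, 15, 6, 13, 6, 10, 11], .l [20, 17, 19, 13, 2, 7], .l [18, 15, 17, 11, 2, 7], .l [10, 6, 9, 4, 8, 15], .l [7, 3, 9, 18, 8, 15, 0, 11], .l [18, 15, 17, 11, 2, 15]]),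
([p 3 1, g, s 0 2, g, s 1 0, g, p 6 3, s 7 4, g, p 5 0, g, s 0 5, s 4 0, g, s 0 6, g, s 0 7, g, s 2 0, g], .lo 11, [.l [15, 7, 14, 13, 4, 9], .l [20, 15, 19, 15, 4, 11], .l [7, 9, 16, 6, 1, 10, 8, 11, 0, 7], .l [15, 7, 14, 13, 4, 7], .l [20, 17, 19, 13, 4, 15], .l [7, 9, 16, 6, 1, 8, 6, 11, 0, 7], .l [10, 6, 9, 6, 12, 6, 1, 8, 6, 7], .l [15, 7, 14, 13, 4, 5], .l [20, 17, 19, 13, 4, 13], .l [7, 9, 16, 6, 1, 6, 4, 11, 0, 7], .l [15, 9, 14, 13, 6, 3], .l [20, 17, 19, 15, 6, 3], .l [4, 3, 6, 15, 6, 1, 6, 4, 10, 1], .y [9, 11], .l [15, 9, 14, 13, 6, 1], .l [20, 17, 19, 15, 6, 1], .l [4, 3, 6, 15, 6, 1, 6, 4, 10, 1], .c, .l [15, 9, 14, 13, 4, 5], .l [4, 3, 6, 15, 8, 1, 4, 2, 10, 1], .l [20, 17, 19, 15, 4, 5], .l [13, 7, 12, 11,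 4, 11], .l [16, 4, 7, 8, 2, 6, 1, 10, 6, 9], .l [20, 17, 19, 15, 4, 7], .l [13, 7, 12, 11, 4, 13], .l [18, 6, 9, 10, 2, 8, 1, 12, 6, 7], .l [20, 17, 19, 15, 4, 9], .l [18, 15, 17, 13, 4, 9], .l [13, 7, 12, 11, 4, 15], .l [20, 8, 11, 12, 2, 10, 1, 14, 6, 7], .l [18, 15, 17, 13, 4, 15]]),
([p 3 1, g, s 0 2, g, s 1 0, g, p 5 0, g, p 6 3, s 7 4, g, s 0 5, s 4 0, g, s 0 6, g, s 0 7, g, s 2 0, g], .lo 11, [.l [12, 4, 11, 8, 10, 3], .l [20, 15, 19, 13, 2, 9], .l [12, 4, 11, 8, 10, 3], .l [12, 4, 11, 8, 10, 5], .l [20, 17, 19, 11, 2, 15], .l [2, 19, 11, 4, 13, 8, 10, 11], .l [10, 4, 9, 6, 8, 5], .l [12, 4, 11, 8, 10, 7], .l [20, 17, 19, 11, 2, 13], .l [2, 19, 11, 4, 11, 6, 8, 11], .y [6, 11], .l [12, 4, 11, 8, 10, 7], .l [20, 17,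 19, 11, 2, 11], .l [2, 19, 11, 4, 11, 6, 8, 11], .l [12, 6, 11, 8, 10, 7], .l [20, 17, 19, 13, 4, 1], .l [7, 9, 16, 6, 1, 6, 4, 11, 0, 7], .c, .l [10, 4, 9, 6, 8, 9], .l [2, 19, 13, 4, 7, 2, 4, 11], .l [20, 17, 19, 13, 2, 3], .l [10, 4, 9, 6, 8, 11], .l [2, 19, 13, 4, 9, 4, 6, 11], .l [20, 17, 19, 13, 2, 5], .l [10, 4, 9, 6, 8, 13], .l [2, 19, 13, 4, 11, 6, 8, 11], .l [20, 17, 19, 13, 2, 7], .l [18, 15, 17, 11, 2, 7], .l [10, 4, 9, 6, 8, 15], .l [7, 1, 9, 18, 8, 15, 0, 11], .l [18, 15, 17, 11, 2, 15]]),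
([p 3 1, s 0 2, g, s 1 0, g, p 5 3, s 6 4, g, s 0 0, s 4 0, g, s 0 5, g, s 0 6, g, s 2 0, g], .hi 8, [.l [3, 2, 6, 7, 5, 1], .l [12, 5, 11, 10, 2, 5], .r 3611 [1, 2, 3, 4, 7, 5, 6] [0, 1, 1, 1, 1, 1, 1, 1, 1], .l [17, 15, 16, 10, 2, 12], .l [12, 5, 11, 10, 2, 3], .r 3613 [1, 2, 3, 4, 7, 5, 6] [0, 1, 1, 1, 1, 1, 1, 1, 1], .l [17, 15, 16, 10, 2, 10], .l [12, 7, 11, 10, 4, 1], .r 3612 [1, 2, 3, 4, 7, 5, 6] [0, 1, 1, 1, 1, 1, 1, 1, 1], .l [17, 15, 16, 12, 4, 1], .y [8], .l [12, 7, 11, 10, 2, 3], .l [17, 15, 16, 12, 2, 3], .l [3, 2, 10, 2, 3, 12, 8, 1], .l [4, 11, 2, 3, 10, 6, 0, 6], .l [10, 5, 9, 8, 2, 8], .l [17, 15, 16, 12, 2, 5], .l [3, 2, 12, 4, 5, 12, 6, 1], .l [3, 2, 5, 7, 10, 10, 6, 1], .l [10, 5, 9, 8, 2, 10], .l [17,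 15, 16, 12, 2, 7], .l [6, 12, 1, 9, 12, 5, 2, 5], .l [10, 5, 9, 8, 2, 12], .l [15, 13, 14, 10, 2, 12], .l [6, 12, 1, 9, 14, 7, 2, 7]]),
([p 4 1, g, s 0 2, g, m 0 3, g, s 1 0, g, p 7 4, s 6 5, g, s 3 0, s 5 0, g, s 0 6, g, s 0 7, g, s 2 0, g], .hi 11, [.l [12, 6, 11, 6, 10, 5], .l [12, 6, 11, 6, 10, 5], .l [20, 15, 19, 13, 2, 9], .l [10, 6, 9, 4, 8, 5], .l [12, 6, 11, 6, 10, 7], .l [2, 19, 13, 6, 13, 6, 10, 11], .l [20, 17, 19, 11, 2, 15], .y [4, 11], .l [12, 6, 11, 6, 10, 7], .l [2, 19, 13, 6, 13, 6, 10, 11], .l [20, 17, 19, 11, 2, 13], .l [12, 4, 11, 8, 10, 5], .l [2, 19, 11, 4, 13, 8, 10, 11], .l [20, 17, 19, 11, 2, 11], .l [12, 8, 11, 6, 10, 7], .l [7, 9, 14, 4, 1, 6, 4, 9, 0, 9], .l [20, 17, 19, 13, 4, 1], .l [10, 6,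 9, 4, 8, 9], .l [20, 17, 19, 13, 2, 3], .l [2, 19, 15, 6, 9, 2, 6, 11], .l [3, 9, 10, 11, 11, 9, 4, 7], .l [10, 6, 9, 4, 8, 11], .l [20, 17, 19, 13, 2, 5], .l [2, 19, 15, 6, 11, 4, 8, 11], .l [9, 11, 14, 8, 12, 12, 3, 10, 6, 1], .l [10, 6, 9, 4, 8, 13], .l [20, 17, 19, 13, 2, 7], .l [2, 19, 15, 6, 13, 6, 10, 11], .l [10, 6, 9, 4, 8, 15], .l [18, 15, 17, 11, 2, 15], .l [7, 3, 9, 18, 8, 15, 0, 9]]),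
([p 4 1, g, s 0 2, g, s 1 0, g, m 0 3, g, p 7 4, s 6 5, g, s 3 0, s 5 0, g, s 0 6, g, s 0 7, g, s 2 0, g], .hi 11, [.l [12, 4, 11, 8, 10, 3], .l [12, 4, 11, 8, 10, 3], .l [20, 15, 19, 13, 2, 9], .l [10, 4, 9, 6, 8, 3], .l [12, 4, 11, 8, 10, 5], .l [2, 19, 11, 4, 13, 8, 10, 11], .l [20, 17, 19, 11, 2, 15], .l [12, 4, 11, 8, 10, 7], .l [2, 19, 11, 4, 11, 6, 8, 11], .l [20, 17, 19, 11, 2, 13], .y [6, 11], .l [12, 4, 11, 8, 10, 7], .l [2, 19, 11, 4, 11, 6, 8, 11], .l [20, 17, 19, 11, 2, 11], .l [12, 6, 11, 8, 10, 7], .l [7, 9, 14, 4, 1, 4, 2, 9, 0, 9], .l [20, 17, 19, 13, 4, 1], .l [10, 4, 9, 6, 8, 9], .l [20, 17, 19, 13, 2, 3], .l [2, 19, 13, 4, 7, 2, 4, 11], .l [4, 3, 8, 9, 10, 4, 8, 8, 2, 3], .l [10, 4, 9, 6, 8, 11], .l [20,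 17, 19, 13, 2, 5], .l [2, 19, 13, 4, 9, 4, 6, 11], .l [9, 11, 14, 6, 12, 12, 1, 10, 8, 1], .l [10, 4, 9, 6, 8, 13], .l [20, 17, 19, 13, 2, 7], .l [2, 19, 13, 4, 11, 6, 8, 11], .l [10, 4, 9, 6, 8, 15], .l [18, 15, 17, 11, 2, 15], .l [7, 1, 9, 18, 8, 15, 0, 9]]),
([p 3 1, g, s 0 2, g, s 1 0, g, p 7 3, s 6 4, g, m 0 5, g, s 5 0, s 4 0, g, s 0 6, g, s 0 7, g, s 2 0, g], .hi 11, [.l [17, 9, 16, 15, 4, 11], .l [7, 9, 14, 4, 1, 8, 6, 9, 0, 9], .l [20, 15, 19, 15, 4, 11], .l [15, 9, 14, 13, 4, 9], .l [17, 9, 16, 15, 4, 9], .l [7, 9, 14, 4, 1, 6, 4, 9, 0, 9], .l [20, 17, 19, 13, 4, 15], .l [17, 9, 16, 15, 4, 7], .l [7, 9, 14, 4, 1, 4, 2, 9, 0, 9], .l [20, 17, 19, 13, 4, 13], .l [17, 11, 16, 15, 6, 3], .l [4, 3, 6, 13, 4, 1, 4, 2,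 8, 1], .l [20, 17, 19, 15, 6, 3], .y [9, 11], .l [17, 11, 16, 15, 6, 1], .l [4, 3, 6, 13, 4, 1, 4, 2, 8, 1], .l [20, 17, 19, 15, 6, 1], .l [17, 11, 16, 15, 4, 5], .l [20, 17, 19, 15, 4, 5], .l [4, 3, 6, 13, 6, 1, 4, 2, 8, 1], .l [4, 3, 6, 9, 10, 10, 8, 1], .l [17, 11, 16, 15, 4, 7], .l [20, 17, 19, 15, 4, 7], .l [4, 3, 6, 11, 4, 1, 11, 9, 6, 1], .l [16, 4, 7, 8, 4, 6, 1, 10, 8, 1], .l [15, 9, 14, 13, 4, 13], .l [20, 17, 19, 15, 4, 9], .l [18, 6, 9, 10, 4, 8, 1, 12, 8, 1], .l [15, 9, 14, 13, 4, 15], .l [18, 15, 17, 13, 4, 15], .l [20, 8, 11, 12, 4, 10, 1, 14, 8, 1]]),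
([p 3 1, s 0 2, g, s 1 0, g, p 6 3, s 5 4, g, s 0 0, s 4 0, g, s 0 5, g, s 0 6, g, s 2 0, g], .lo 8, [.l [14, 7, 13, 12, 2, 7], .l [17, 15, 16, 10, 2, 12], .r 3615 [1, 2, 7, 3, 4, 5, 6] [0, 1, 1, 1, 1, 1, 1, 1, 1], .l [12, 7, 11, 10, 2, 5], .l [14, 7, 13, 12, 2, 5], .l [17, 15, 16, 10, 2, 10], .r 3616 [1, 2, 7, 3, 4, 5, 6] [0, 1, 1, 1, 1, 1, 1, 1, 1], .l [14, 9, 13, 12, 4, 1], .l [17, 15, 16, 12, 4, 1], .r 3617 [1, 2, 3, 4, 7, 5, 6] [0, 1, 1, 1, 1, 1, 1, 1, 1], .y [8], .c, .l [14, 9, 13, 12, 2, 3], .l [3, 2, 10, 2, 3, 10, 6, 1], .l [17, 15, 16, 12, 2, 3], .l [14, 9, 13, 12, 2, 5], .l [6, 10, 7, 2, 10, 5, 2, 5], .l [17, 15, 16, 12, 2, 5], .l [12, 7, 11, 10, 2, 10], .l [6, 10, 7, 2, 12, 7, 2, 7], .l [17, 15, 16, 12, 2, 7],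 .l [15, 13, 14, 10, 2, 7], .l [12, 7, 11, 10, 2, 12], .l [6, 10, 7, 2, 14, 9, 2, 9], .l [15, 13, 14, 10, 2, 12]]),
([p 3 1, g, s 0 2, g, s 1 0, g, p 7 3, s 5 4, g, s 0 5, g, m 0 6, g, s 6 0, s 4 0, g, s 0 7, g, s 2 0, g], .hi 13, [.l [17, 9, 16, 15, 6, 11], .l [6, 5, 8, 13, 5, 1, 10, 1], .l [20, 15, 19, 15, 6, 11], .l [15, 9, 14, 13, 6, 9], .l [17, 9, 16, 15, 6, 9], .l [6, 5, 8, 13, 7, 3, 10, 1], .l [20, 17, 19, 13, 6, 15], .l [17, 9, 16, 15, 6, 7], .l [4, 3, 8, 13, 9, 5, 10, 5], .l [20, 17, 19, 13, 6, 13], .l [17, 11, 16, 15, 8, 5], .l [11, 3, 17, 12, 15, 5, 2, 7], .l [20, 17, 19, 15, 8, 5], .l [4, 3, 6, 11, 3, 3, 8, 1], .l [17, 11, 16, 15, 8, 3], .l [17, 4, 1, 4, 2, 5, 6, 11, 10, 3], .l [20, 17, 19, 15, 8, 3], .y [11,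 13], .l [17, 11, 16, 15, 8, 1], .l [17, 4, 1, 4, 2, 5, 6, 11, 10, 3], .l [20, 17, 19, 15, 8, 1], .l [17, 11, 16, 15, 6, 7], .l [20, 17, 19, 15, 6, 7], .l [4, 3, 8, 1, 13, 2, 10, 1], .l [16, 2, 7, 8, 2, 4, 1, 10, 8, 1], .l [15, 9, 14, 13, 6, 13], .l [20, 17, 19, 15, 6, 9], .l [18, 4, 9, 10, 2, 6, 1, 12, 8, 1], .l [15, 9, 14, 13, 6, 15], .l [18, 15, 17, 13, 6, 15], .l [20, 6, 11, 12, 2, 8, 1, 14, 8, 1]]),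
([p 3 1, g, s 0 2, g, s 1 0, g, p 6 3, s 5 4, g, s 0 5, g, s 0 0, s 4 0, g, s 0 6, g, s 2 0, g], .lo 11, [.l [15, 7, 14, 13, 4, 9], .l [18, 13, 17, 13, 4, 9], .l [6, 5, 8, 11, 3, 1, 8, 1], .l [15, 7, 14, 13, 4, 7], .l [18, 15, 17, 11, 4, 13], .l [6, 5, 8, 11, 5, 3, 8, 1], .l [13, 7, 12, 11, 4, 5], .l [15, 7, 14, 13, 4, 5], .l [18, 15, 17, 11, 4, 11], .l [4, 3, 8, 11, 7, 5, 8, 3], .l [15, 9, 14, 13, 6, 3], .l [18, 15, 17, 13, 6, 3], .l [11, 3, 15, 10, 13, 5, 2, 5], .l [15, 9, 14, 13, 6, 1], .l [18, 15, 17, 13, 6, 1], .r 3619 [1, 2, 3, 4, 5, 7, 6] [1, 1, 1, 1, 1, 1, 1, 1, 1], .y [11], .c, .l [15, 9, 14, 13, 4, 5], .l [4, 3, 8, 1, 11, 2, 8, 1], .l [18, 15, 17, 13, 4, 5], .l [13, 7, 12, 11, 4, 11], .l [4, 3, 8, 1, 13, 4, 10,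 1], .l [18, 15, 17, 13, 4, 7], .l [16, 13, 15, 11, 4, 7], .l [13, 7, 12, 11, 4, 13], .l [4, 3, 8, 1, 15, 6, 12, 1], .l [16, 13, 15, 11, 4, 13]]),
([p 3 1, s 0 2, g, s 1 0, g, p 5 3, s 0 4, g, s 0 0, s 4 0, g, s 0 5, g, s 2 0, g], .lo 6, [.l [3, 7, 3], .l [3, 7, 3], .l [5, 4, 13, 3, 5, 10, 4, 1], .l [3, 5, 1], .l [5, 7, 1], .l [5, 7, 1], .l [3, 2, 13, 3, 5, 8, 2, 7], .r 3620 [1, 2, 3, 4, 6, 5] [0, 1, 1, 1, 1, 1, 1, 1], .r 3488 [1, 3, 6] [1, 1, 1, 8], .l [6, 10, 7, 2, 12, 8, 4, 7], .l [13, 11, 12, 8, 2, 1], .y [6, 9], .r 3618 [1, 2, 3, 4, 6, 5] [1, 1, 1, 1, 1, 1, 1], .r 3488 [1, 3, 6] [1, 1, 4, 5], .l [12, 7, 11, 10, 4], .r 3614 [1, 2, 3, 4, 5, 6] [1, 1, 1, 1, 1, 1, 1], .l [3, 2, 13, 9, 5, 7, 2, 6], .l [10, 5, 9, 8, 9], .l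 [3, 2, 11, 3, 5, 10, 4, 1], .l [3, 2, 11, 13, 6, 1], .l [3, 2, 11, 3, 5, 12, 6, 1], .l [10, 5, 9, 8, 11]]),
([p 3 1, g, s 1 0, g, s 0 2, p 5 3, s 0 4, g, p 6 0, g, s 0 5, g, s 0 6, s 4 0, g, s 2 0, g], .lo 12, [.l [11, 4, 11, 10, 12, 3], .l [17, 10, 16, 15, 6, 11], .l [11, 4, 11, 10, 12, 3], .l [9, 4, 9, 8, 10, 3], .l [11, 4, 11, 10, 12, 5], .l [17, 10, 16, 15, 6, 9], .l [11, 4, 11, 10, 12, 5], .l [11, 6, 11, 10, 12, 9], .l [17, 12, 16, 15, 8, 5], .l [17, 12, 6, 3, 6, 13, 11, 4, 1], .y [8, 12], .l [11, 6, 11, 10, 12, 7], .l [17, 12, 16, 15, 8, 3], .l [17, 12, 6, 3, 6, 13, 11, 4, 1], .l [9, 4, 9, 8, 12, 1], .l [17, 12, 16, 15, 8, 1], .l [17, 12, 4, 1, 6, 13, 9, 2, 9], .c, .l [9, 4, 9, 8, 10, 11], .l [2, 1, 16, 12, 4, 9, 2,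 4, 9], .l [17, 12, 16, 15, 6, 7], .l [15, 10, 14, 13, 6, 7], .l [9, 4, 9, 8, 10, 13], .l [15, 10, 4, 15, 8, 10, 3], .l [15, 10, 14, 13, 6, 13]]),
([p 4 1, s 0 2, g, s 1 0, g, s 0 3, p 6 4, s 0 5, g, s 0 6, g, p 7 0, g, s 0 7, s 5 0, g, s 2 0, g, s 3 0, g], .lo 13, [.l [10, 2, 10, 9, 13, 6], .l [18, 16, 17, 10, 6, 13], .l [10, 2, 10, 9, 13, 6], .l [8, 2, 8, 7, 11, 6], .l [10, 2, 10, 9, 13, 8], .l [18, 16, 17, 10, 6, 11], .l [10, 2, 10, 9, 13, 8], .l [10, 4, 10, 9, 13, 10], .l [18, 16, 17, 12, 8, 5], .l [20, 14, 4, 1, 6, 16, 12, 2, 12], .l [8, 2, 8, 7, 13, 3], .l [18, 16, 17, 12, 8, 3], .l [5, 19, 6, 1, 15, 2, 9, 1, 10, 5, 0, 5], .y [11, 13], .l [8, 2, 8, 7, 13, 1], .l [18, 16, 17, 12, 8, 1], .l [5, 19, 6, 1, 15, 2, 9, 1,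 10, 5, 0, 5], .c, .l [8, 2, 8, 7, 11, 12], .l [3, 2, 16, 11, 2, 9, 2, 6, 9], .l [18, 16, 17, 12, 6, 7], .l [16, 14, 15, 10, 6, 7], .l [8, 2, 8, 7, 11, 14], .l [20, 14, 2, 15, 16, 9, 15, 8, 12, 7], .l [16, 14, 15, 10, 6, 13], .l [18, 12, 17, 16, 6, 9], .l [8, 2, 8, 7, 11, 16], .l [18, 12, 2, 18, 11, 15, 5], .l [16, 14, 15, 10, 6, 15]]),
([p 4 1, s 0 2, g, s 1 0, g, s 0 3, p 6 4, s 0 5, g, s 0 6, g, s 0 0, s 5 0, g, s 2 0, g, s 3 0, g], .hi 11, [.l [3, 2, 9, 10, 6, 2], .l [10, 2, 10, 9, 11, 4], .l [10, 2, 10, 9, 11, 4], .l [16, 14, 15, 8, 4, 11], .l [10, 2, 10, 9, 11, 6], .l [10, 2, 10, 9, 11, 6], .l [16, 14, 15, 8, 4, 9], .l [11, 5, 10, 9, 9, 6], .l [14, 12, 13, 8, 4, 3], .l [10, 4, 10, 9, 11, 8], .r 3622 [1, 3, 4, 5, 6,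 7] [2, 1, 1, 1, 1, 3, 1], .l [16, 14, 15, 10, 6, 3], .l [8, 2, 8, 7, 9, 1], .l [8, 2, 8, 7, 11, 1], .r 3623 [1, 2, 3, 4, 5, 6, 7] [1, 1, 1, 1, 1, 1, 1, 1], .l [16, 14, 15, 10, 6, 1], .y [11], .l [8, 2, 8, 7, 9, 10], .l [16, 14, 15, 10, 4, 5], .l [3, 2, 14, 9, 2, 7, 2, 4, 7], .l [8, 2, 8, 7, 9, 12], .l [14, 12, 13, 8, 4, 11], .l [18, 12, 2, 13, 14, 7, 13, 8, 10, 5], .l [8, 2, 8, 7, 9, 14], .l [14, 12, 13, 8, 4, 13], .l [16, 10, 2, 16, 11, 13, 3]]),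
([p 3 1, g, s 1 0, g, s 0 2, p 5 3, s 6 4, g, s 4 0, g, p 0 5, g, s 0 6, g, s 2 0, g], .lo 4, [.l [6, 3, 7, 11, 3, 9, 0, 5], .l [6, 3, 7, 11, 3, 9, 0, 5], .l [5, 7, 1, 2, 10, 8, 11], .l [4, 1, 1, 1, 3, 7, 3, 5, 0, 1], .l [6, 1, 7, 11, 3, 9, 0, 5], .l [6, 1, 7, 11, 3, 9, 0, 5], .l [5, 7, 1, 4, 10, 6, 11], .l [7, 12, 9, 13, 6, 2, 6, 9], .l [10, 3, 11, 6, 8, 10, 8, 1], .l [3, 5, 1, 6, 10, 4, 11], .l [6, 11, 7, 1, 5, 6, 3, 3, 4, 1], .l [9, 5, 8, 6, 1, 8, 2, 9], .l [15, 11, 14, 12, 1, 3, 10, 5], .l [3, 5, 1, 8, 10, 2, 11], .l [8, 1, 9, 6, 8, 10, 8, 1], .l [8, 1, 15, 11, 5, 10, 3, 1, 8, 1], .l [8, 1, 9, 6, 8, 10, 8, 1], .l [15, 11, 14, 12, 5, 7, 10, 3], .l [15, 11, 14, 12, 5, 7, 10, 3], .l [3, 6, 10, 3, 8, 1, 10, 1, 8, 3], .y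 [4, 14], .l [15, 11, 14, 12, 5, 7, 10, 3], .l [8, 1, 15, 11, 5, 10, 1, 3, 8, 1], .l [6, 11, 7, 1, 5, 6, 10, 6, 2, 5]]),
([p 3 1, s 0 0, g, s 1 0, g, s 0 2, p 5 3, s 0 4, g, s 4 0, g, p 0 5, g, s 2 0, g], .lo 7, [.l [1, 6, 4], .l [3, 8, 4], .l [3, 8, 4], .l [11, 1, 12, 9, 4, 9, 1], .l [3, 6, 2], .l [5, 8, 2], .l [5, 8, 2], .l [11, 1, 12, 9, 2, 9, 1], .l [8, 13, 10, 12, 4, 2, 4, 1], .l [9, 1, 12, 9, 11, 4, 2, 3], .l [8, 13, 10, 12, 4, 2, 4, 1], .y [7, 9], .l [8, 13, 10, 12, 4, 2, 4, 1], .r 3488 [1, 3, 6] [1, 2, 3, 5], .l [9, 1, 12, 9, 11, 4, 2, 3], .r 3625 [1, 2, 3, 4, 5, 6] [2, 1, 1, 1, 1, 1, 1], .r 3488 [1, 3, 6] [1, 2, 5, 3], .l [5, 7, 12, 3, 10, 0, 6], .l [9, 1, 10, 7, 9, 9, 7, 1], .l [9, 1, 10, 7, 9, 11, 9, 1], .l [9,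 1, 10, 7, 9, 11, 9, 1], .l [5, 7, 14, 5, 12, 0, 8]]),
([p 2 0, g, s 0 1, p 4 2, s 0 3, g, s 0 4, s 3 0, g, s 1 0, g], .lo 6, [.y [0, 6, 3], .l [7, 2, 7, 6, 6, 1], .l [6, 8, 6, 8, 6, 3], .l [6, 8, 6, 8, 2, 4], .l [7, 4, 7, 6, 6, 3], .l [4, 8, 6, 8, 2, 2], .l [4, 8, 6, 8, 4, 1], .c, .l [5, 2, 5, 4, 4, 5], .l [2, 3, 0, 4, 7, 2, 4, 5], .l [4, 6, 4, 8, 4, 2], .l [4, 6, 4, 6, 6, 3], .l [5, 2, 5, 4, 4, 7], .l [2, 3, 0, 4, 9, 4, 6, 3], .l [4, 6, 4, 6, 2, 6]]),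
([p 4 1, s 0 2, g, s 0 0, s 1 0, g, s 0 3, p 0 4, s 0 5, g, s 0 0, s 5 0, g, s 2 0, g, s 3 0, g], .lo 7, [.l [16, 13, 5, 14, 8, 2], .l [3, 8], .l [2, 9, 6, 5], .l [0, 3, 5], .y [0, 4, 7], .l [16, 10, 2, 14, 11, 2], .l [6, 8], .l [4, 3, 13, 8, 2, 12], .r 3624 [1, 2, 3, 4, 5, 6] [2, 1, 1, 1, 1, 1, 1], .r 3599 [1, 3, 4, 5, 6] [1, 1, 1, 2, 3, 1], .l [6, 7, 0, 8], .r 3627 [3, 4, 5, 6] [5, 1, 3, 1], .l [4, 3, 11, 5, 3, 3, 0, 5], .r 3621 [1, 2, 4, 5, 6] [2, 2, 1, 1, 1, 3], .r 3626 [1, 3, 4, 5, 6] [2, 1, 2, 1, 3, 1], .l [6, 7, 0, 11], .l [4, 3, 11, 11, 5, 10], .r 3610 [1, 2, 3, 4, 5, 6] [2, 1, 1, 1, 1, 1, 1], .l [4, 3, 11, 13, 7, 12], .l [4, 3, 11, 5, 12, 4, 10, 2], .l [15, 8, 7], .l [16, 1, 8, 14, 13, 2], .l [4, 3, 11, 15, 9, 6],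 .l [4, 3, 11, 5, 14, 6, 12, 2]]),
([p 4 1, s 0 2, g, s 1 0, g, s 0 3, p 6 4, s 0 5, g, s 0 6, g, p 7 0, g, s 0 7, s 5 0, g, s 3 0, g, s 2 0, g], .lo 13, [.l [10, 2, 10, 9, 13, 6], .l [18, 10, 17, 16, 6, 11], .l [10, 2, 10, 9, 13, 6], .l [8, 2, 8, 7, 11, 6], .l [10, 2, 10, 9, 13, 8], .l [18, 10, 17, 16, 6, 9], .l [10, 2, 10, 9, 13, 8], .l [10, 4, 10, 9, 13, 10], .l [18, 12, 17, 16, 8, 5], .l [18, 12, 4, 1, 6, 14, 10, 2, 10], .l [8, 2, 8, 7, 13, 3], .l [18, 12, 17, 16, 8, 3], .l [18, 12, 2, 13, 14, 15, 8, 1, 8, 6, 8, 3], .y [11, 13], .l [8, 2, 8, 7, 13, 1], .l [18, 12, 17, 16, 8, 1], .l [18, 12, 2, 13, 14, 15, 8, 1, 8, 6, 8, 3], .c, .l [8, 2, 8, 7, 11, 12], .l [3, 2, 18, 1, 12, 2, 9, 2, 6, 9], .l [18, 12, 17, 16, 6, 7], .l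 [16, 10, 15, 14, 6, 7], .l [8, 2, 8, 7, 11, 14], .l [16, 10, 2, 16, 9, 13, 5], .l [16, 10, 15, 14, 6, 14], .l [18, 16, 17, 12, 6, 9], .l [8, 2, 8, 7, 11, 16], .l [16, 10, 2, 18, 11, 15, 7], .l [16, 10, 15, 14, 6, 16]]),
([p 4 1, s 0 2, g, s 1 0, g, s 0 3, p 6 4, s 0 5, g, s 0 6, g, s 0 0, s 5 0, g, s 3 0, g, s 2 0, g], .hi 11, [.l [3, 2, 9, 10, 6, 2], .l [10, 2, 10, 9, 11, 4], .l [10, 2, 10, 9, 11, 4], .l [16, 8, 15, 14, 4, 9], .l [10, 2, 10, 9, 11, 6], .l [10, 2, 10, 9, 11, 6], .l [16, 8, 15, 14, 4, 7], .l [11, 5, 10, 9, 9, 6], .l [14, 8, 13, 12, 4, 3], .l [10, 4, 10, 9, 11, 8], .r 3622 [1, 3, 4, 5, 6, 7] [2, 1, 1, 1, 1, 1, 3], .l [16, 10, 15, 14, 6, 3], .l [8, 2, 8, 7, 9, 1], .l [8, 2, 8, 7, 11, 1], .r 3629 [1, 2, 3, 4,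 5, 6, 7] [1, 1, 1, 1, 1, 1, 1, 1], .l [16, 10, 15, 14, 6, 1], .y [11], .l [8, 2, 8, 7, 9, 10], .l [16, 10, 15, 14, 4, 5], .l [3, 2, 16, 1, 10, 2, 7, 2, 4, 7], .l [8, 2, 8, 7, 9, 12], .l [14, 8, 13, 12, 4, 12], .l [14, 8, 2, 14, 9, 11, 3], .l [8, 2, 8, 7, 9, 14], .l [14, 8, 13, 12, 4, 14], .l [14, 8, 2, 16, 11, 13, 5]]),
([p 4 1, s 0 2, g, s 0 0, s 1 0, g, s 0 3, p 0 4, s 0 5, g, s 0 0, s 5 0, g, s 3 0, g, s 2 0, g], .lo 7, [.l [14, 11, 5, 12, 6, 2], .l [3, 8], .l [2, 9, 6, 5], .l [0, 3, 5], .y [0, 4, 7], .l [14, 8, 2, 12, 9, 2], .l [6, 8], .l [4, 3, 15, 10, 2, 7], .r 3630 [1, 2, 3, 4, 5, 6] [2, 1, 1, 1, 1, 1, 1], .r 3599 [1, 3, 4, 5, 6] [1, 1, 1, 2, 1, 3], .l [6, 7, 0, 8], .r 3627 [3, 4, 5, 6] [5, 1, 1, 3], .l [4, 3, 13,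 1, 6, 3, 3, 0, 5], .r 3621 [1, 2, 4, 5, 6] [2, 2, 1, 1, 3, 1], .r 3626 [1, 3, 4, 5, 6] [2, 1, 2, 1, 1, 3], .l [6, 7, 0, 11], .l [13, 6, 5], .l [14, 1, 6, 12, 11, 2], .l [4, 3, 15, 3, 8, 5], .l [6, 7, 0, 13], .l [4, 3, 13, 13, 5, 10], .l [16, 3, 8, 14, 13, 2], .l [4, 3, 13, 15, 7, 12], .l [4, 3, 13, 7, 14, 4, 12, 2]]),
([p 3 1, s 0 0, g, s 0 0, s 1 0, g, s 0 2, p 0 3, s 0 4, g, s 0 0, s 4 0, g, s 2 0, g], .hi 1, [.y [1], .r 1053 [1, 5, 3] [1, 2, 2, 7], .l [2, 9, 6, 6, 2], .r 578 [1, 5, 3] [1, 2, 2, 7], .r 1053 [1, 5, 3] [1, 0, 2, 7], .r 927 [1, 5, 3] [1, 1, 2, 7], .l [4, 3, 4], .r 517 [1, 5, 3] [1, 1, 2, 7], .r 927 [1, 5, 3] [1, 1, 0, 7], .l [4, 3, 5], .l [1, 7, 5], .l [4, 3, 8, 11, 9, 2], .l [4, 3, 8], .r 851 [1, 5, 3] [1,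 2, 2, 6], .l [4, 3, 8, 9, 7, 2], .r 3628 [1, 5, 2, 3, 4] [1, 1, 1, 1, 1, 1], .l [4, 3, 11], .r 851 [1, 5, 3] [1, 2, 5, 3], .r 3631 [1, 5, 2, 3, 4] [1, 1, 1, 1, 1, 1], .l [4, 3, 13], .r 851 [1, 5, 3] [1, 2, 7, 1]]),
([p 3 1, s 0 0, g, s 0 0, s 1 0, g, s 0 2, p 0 3, s 0 4, g, s 4 0, g, s 2 0, g], .bot 9, [.c, .r 3632 [1, 2, 3, 4] [1, 1, 1, 1, 1], .r 3602 [1, 2, 3, 4] [1, 1, 1, 1, 1], .r 3604 [1, 2, 3, 4] [1, 1, 1, 1, 1]]),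
([p 4 1, s 0 2, g, s 1 0, g, s 0 3, p 6 4, s 0 5, g, p 0 6, g, s 3 0, g, s 5 0, g, s 2 0, g], .lo 5, [.l [12, 5, 11, 9, 11, 5, 3, 6], .l [12, 5, 11, 9, 11, 5, 3, 6], .l [6, 8, 1, 3, 9, 6, 8], .l [4, 6, 1, 3, 7, 4, 6, 10, 8, 3], .l [12, 5, 11, 9, 11, 7, 5, 6], .l [12, 5, 11, 9, 11, 7, 5, 6], .l [6, 8, 1, 5, 9, 4, 8], .l [3, 2, 15, 7, 9, 6], .l [12, 7, 11, 9, 2, 9, 4], .l [4, 6, 1, 7, 9, 2, 8], .l [12, 7, 11, 9, 11, 7, 5, 6], .l [12, 7, 11, 9, 11, 5, 2, 10, 3, 6, 1], .l [12, 7, 11, 9, 11, 7, 5, 6], .y [5, 11], .l [12, 7, 11, 9, 11, 7, 5, 6], .r 3490 [1, 2, 4, 5, 6, 7] [1, 1, 1, 3, 1, 1, 1], .l [10, 5, 9, 7, 11, 7, 2, 10, 3, 6, 1], .l [10, 5, 9, 7, 9, 9, 7, 4], .l [10, 5, 9, 7, 9, 11, 9, 4], .l [10, 5, 9, 7, 9, 11, 9, 4], .l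 [14, 9, 13, 11, 8, 10, 12, 6, 4, 5], .l [10, 5, 9, 7, 9, 5, 2, 8, 8, 2, 3], .l [10, 5, 9, 7, 9, 13, 11, 4], .l [10, 5, 9, 7, 9, 13, 11, 4], .l [10, 5, 9, 7, 9, 5, 2, 8, 3, 4, 7]]),
([p 4 1, s 0 2, g, s 1 0, g, s 0 3, p 0 4, s 0 5, g, s 3 0, g, s 5 0, g, s 2 0, g], .lo 6, [.l [7, 10, 12, 10, 0, 2], .l [3, 7], .l [2, 8, 5, 4], .y [0, 3, 6], .l [7, 10, 12, 10, 0, 4], .l [5, 7], .l [3, 2, 13, 9, 2, 4], .l [5, 10, 12, 8, 0, 8], .r 3634 [1, 2, 3, 4, 5, 6] [1, 1, 1, 1, 1, 1, 1], .l [5, 6, 0, 7], .l [9, 3, 2], .l [5, 8, 12, 10, 0, 6], .l [3, 2, 13, 5, 7, 4], .l [5, 6, 0, 9], .l [5, 8, 10, 8, 0, 6], .l [5, 8, 10, 8, 0, 8], .l [3, 2, 13, 5, 7, 2], .l [5, 6, 0, 11], .l [3, 2, 11, 11, 4, 6], .l [5, 8, 10, 8, 0, 10], .l [3, 2, 11, 13,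 6, 8], .l [3, 2, 11, 6, 12, 3, 10, 3]]),
([p 3 1, s 0 0, g, s 1 0, g, s 0 2, p 0 3, s 0 4, g, s 2 0, g, s 4 0, g], .hi 1, [.y [1], .r 1053 [1, 5, 3] [1, 1, 2, 6], .l [2, 8, 5, 5, 2], .r 578 [1, 5, 3] [1, 1, 2, 6], .r 989 [1, 5, 3] [1, 1, 2, 6], .l [3, 2, 3], .r 520 [1, 5, 3] [1, 1, 2, 6], .r 989 [1, 5, 3] [1, 1, 0, 6], .l [3, 2, 4], .l [1, 6, 4], .l [3, 2, 7, 11, 9, 2], .l [3, 2, 7], .r 852 [1, 5, 3] [1, 2, 2, 5], .l [3, 2, 9, 11, 7, 2], .l [3, 2, 9], .r 852 [1, 5, 3] [1, 2, 4, 3], .r 3635 [1, 5, 2, 3, 4] [1, 1, 1, 1, 1, 1], .l [3, 2, 11], .r 852 [1, 5, 3] [1, 2, 6, 1]]),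
([p 2 1, s 0 0, g, s 1 0, g, p 3 0, g, p 0 2, s 0 3, g], .hi 1, [.y [1], .r 1053 [1, 4, 2] [1, 1, 3, 2], .l [2, 9, 6, 6, 3], .r 578 [1, 4, 2] [1, 1, 3, 2], .r 989 [1, 4, 2] [1, 1, 3, 2], .l [3, 2, 3], .r 520 [1, 4, 2] [1, 1, 3, 2], .l [6, 1, 8, 2, 2, 3], .l [3, 2, 5], .r 520 [1, 4, 2] [1, 3, 1, 2], .l [3, 2, 5], .l [1, 7, 5], .l [3, 2, 8, 4, 2, 3], .l [3, 2, 8], .r 852 [1, 4, 2] [1, 3, 2, 1]]),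
([p 3 1, s 0 0, g, s 0 0, s 1 0, g, s 0 2, p 0 3, s 0 0, g, s 2 0, g], .hi 8, [.l [1, 7, 5], .l [3, 9, 5], .r 3470 [1, 3, 4] [1, 2, 2, 3], .l [3, 9, 5], .l [3, 7, 3], .l [6, 9, 2], .r 3637 [1, 3, 4] [2, 1, 2, 3], .l [6, 9, 2], .l [6, 7, 0], .l [4, 3, 9, 3, 0, 3], .y [8], .r 3633 [1, 2, 3, 4] [1, 1, 1, 1, 1], .r 3471 [1, 3, 4] [2, 2, 1, 3], .r 2574 [1, 3, 4] [2, 2, 1, 3], .r 3636 [1, 2, 3, 4] [2, 1, 1, 1, 1], .r 3471 [1, 3, 4] [2, 2, 3, 1], .r 2574 [1, 3, 4] [2, 2, 3, 1]]),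
([p 2 1, g, p 0 2, s 0 0, g, s 1 0, g], .top 1, [.r 334 [] [4], .r 1255 [1, 2] [1, 1, 1], .r 334 [] [6], .r 444 [] [6]]),
([p 1 0, g, p 0 1, s 0 2, g, m 2 0, g], .hi 0, [.r 2575 [3, 1, 2] [1, 1, 1, 1], .l [0, 1], .l [2, 1], .y [0, 2], .l [0, 2, 1], .l [0, 4, 6, 4, 1], .l [0, 4], .l [5, 4], .r 3639 [3, 1] [1, 3, 1], .l [0, 6], .l [7, 6]]),
([p 1 0, s 0 0, g, p 0 1, s 0 2, g, p 2 0, g], .hi 0, [.c, .r 3471 [3, 1, 2] [1, 1, 1, 1], .l [0, 2], .l [3, 2], .y [0, 3], .l [0, 3, 2], .l [6, 5, 5, 2, 5], .l [0, 5], .l [6, 5], .l [8, 7, 7, 4, 1], .l [0, 7], .l [8, 7]]),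
([p 1 0, g, p 0 1, s 0 2, g, p 2 0, g], .top 1, [.r 334 [] [4], .r 3641 [1, 2] [1, 1, 1], .r 334 [] [6], .r 444 [] [6]]),
([p 2 0, g, s 1 0, g, s 0 1, p 3 2, s 4 0, g, p 0 3, g, s 0 4, g], .hi 6, [.l [2, 7, 4], .l [6, 1, 7, 9, 5, 7, 0, 1], .l [2, 7, 4], .l [4, 7, 2], .l [6, 3, 11, 3, 9, 5, 0, 5], .l [4, 7, 2], .l [4, 5, 0], .l [4, 1, 5, 9, 3, 7, 0, 3], .l [4, 1, 5, 9, 3, 7, 0, 3], .r 3640 [2, 5] [4, 1, 5], .l [4, 1, 5, 7, 1, 5, 0, 3], .l [4, 1, 9, 3, 9, 5, 0, 5], .r 3642 [2, 5] [4, 3, 3], .l [4, 1, 9, 3, 9, 5, 0, 5], .y [6, 10], .l [4, 1, 9, 3, 9, 5, 0, 5], .r 3642 [2, 5] [4, 5, 1], .l [4, 1, 9, 3, 9, 5, 0, 5]]),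
([p 4 1, s 0 2, g, s 1 0, g, s 0 3, p 5 4, g, m 3 0, g, p 0 5, g, s 2 0, g], .lo 1, [.l [2, 8, 5, 5, 2, 10, 5, 1, 6, 3], .r 1556 [1, 6, 4] [1, 1, 2, 7], .l [2, 8, 5, 5, 2], .l [2, 6, 3, 3, 2], .l [3, 2, 12, 8, 10, 1, 5, 1, 4, 1], .l [14, 12, 1, 11, 8, 10, 7, 1, 6, 3], .l [3, 2, 3], .l [14, 12, 1, 11, 5, 1, 6, 3], .l [14, 12, 13, 8, 3, 7, 2, 4, 2, 5], .l [3, 2, 6], .l [3, 2, 6], .l [10, 8, 9, 4, 9, 4, 6, 8, 6, 1], .l [10, 8, 9, 4, 9, 4, 6], .l [3, 2, 8], .l [12, 10, 11, 6, 1, 5, 2, 8, 6, 3], .l [12, 10, 11, 6, 1, 5, 2], .l [3, 2, 10], .y [1, 12], .l [12, 10, 11, 6, 1, 5, 2, 8, 6, 3], .l [12, 10, 11, 6, 1, 5, 2, 8, 6, 3], .l [3, 2, 12]]),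
([p 3 1, s 0 0, g, s 0 0, s 1 0, g, s 0 2, p 4 3, g, m 2 0, g, p 0 4, g], .hi 1, [.y [1], .r 1053 [1, 5, 3] [1, 2, 2, 5], .l [2, 9, 6, 6, 2], .r 578 [1, 5, 3] [1, 2, 2, 5], .r 1053 [1, 5, 3] [1, 0, 2, 5], .r 927 [1, 5, 3] [1, 1, 2, 5], .l [4, 3, 4], .r 517 [1, 5, 3] [1, 1, 2, 5], .r 927 [1, 5, 3] [1, 1, 0, 5], .r 3483 [1, 5, 3, 4] [1, 2, 1, 3, 1], .l [4, 3, 7], .r 851 [1, 5, 3] [1, 2, 1, 5], .r 3483 [1, 5, 3, 4] [1, 2, 3, 1, 1], .l [4, 3, 9], .l [11, 9, 10, 4, 10, 5, 7], .l [4, 3, 9], .r 3644 [1, 5, 2, 3, 4] [2, 1, 1, 1, 1, 1], .l [4, 3, 11], .l [13, 11, 12, 6, 1, 5, 2]]),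
([p 3 1, g, s 1 0, s 7 0, g, m 2 0, g, s 4 2, p 5 3, g, p 0 4, g, p 6 5, g, p 0 6, g, s 0 7, g], .hi 2, [.l [9, 1, 17, 13, 1, 14, 7, 12, 1, 2, 0, 7], .l [3, 10, 6, 7, 11, 9, 1], .l [4, 1, 9, 5, 7, 1, 10, 8, 1], .l [4, 10, 5, 6, 11, 9, 1, 8, 4, 9], .l [4, 10, 5, 6, 11, 9, 1], .r 1068 [1, 8, 3] [1, 2, 4, 9], .l [7, 4, 16, 8, 12, 1, 1, 1, 7, 1, 6, 3], .l [9, 3, 17, 11, 1, 12, 7, 12, 1, 2, 0, 7], .l [0, 1, 6, 4, 14, 8, 10, 1, 7, 1, 6, 3], .l [9, 14, 12, 1, 11, 4, 5, 10, 8, 8, 4, 7], .l [0, 1, 1, 8, 12, 10, 1], .l [0, 1, 9, 7, 7, 1, 10, 8, 1], .l [0, 1, 1, 8, 10, 8, 1], .l [11, 14, 10, 1, 9, 2, 3, 10, 8, 8, 6, 7], .l [0, 1, 1, 10, 12, 8, 1], .l [0, 1, 11, 9, 9, 3, 10, 6, 7], .l [5, 6, 13, 9, 9, 10, 10, 5, 1, 4, 1, 7, 5], .l [0,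 1, 1, 12, 14, 12, 12, 8, 1], .l [0, 1, 4, 4, 11, 9, 9, 5, 1, 4, 1], .y [0, 2, 14, 12, 8], .l [5, 6, 15, 11, 11, 12, 12, 7, 1, 6, 3, 3, 1], .l [2, 1, 4, 4, 5, 3, 12, 1, 7, 1, 6, 3], .l [0, 1, 4, 4, 13, 11, 11, 7, 1, 6, 3], .l [5, 6, 15, 11, 11, 12, 12, 7, 1, 6, 3, 3, 1], .l [5, 6, 17, 13, 13, 14, 14, 9, 1, 8, 5, 5, 3], .l [17, 10, 10, 13, 14, 9, 1, 8, 5], .l [0, 1, 4, 4, 15, 13, 13, 9, 1, 8, 5]]),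
([p 3 0, g, m 0 1, g, m 2 0, g, s 1 2, p 4 3, g, p 5 4, g, p 0 5, g], .lo 11, [.y [0, 11, 9, 7], .l [1, 9, 7, 10, 10, 8, 8, 6, 1], .l [2, 12], .l [1, 9, 7, 10], .l [3, 9, 5, 10, 10, 8, 8, 4, 5], .l [4, 12], .l [1, 9, 7, 5, 3, 8, 8, 6, 6, 4, 1], .l [1, 7, 5, 3, 1, 6, 6, 4, 4, 2, 1], .l [5, 9, 3, 10, 10, 8, 8, 2, 3], .l [6, 12], .l [5, 9, 3, 10], .l [8, 11, 9, 1, 8, 2, 7], .l [9, 12], .l [8, 11, 9, 1, 8, 2, 7], .l [10, 13, 11, 11, 9, 1, 8, 2, 1], .l [11, 12], .l [10, 13, 11, 11, 9, 1, 8, 2, 1], .l [10, 11, 9, 9, 7, 1, 6, 0, 5], .r 3444 [1, 2, 3, 4, 5, 6] [1, 1, 1, 1, 1, 1, 1], .l [10, 11, 9, 9, 7, 1, 6, 0, 5]])]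

def d14_1 : List (List Item × Qry × List Rf) := [
([p 3 1, g, s 1 0, s 6 0, g, m 2 0, g, s 0 2, p 4 3, g, p 5 4, g, p 0 5, g, s 0 6, g], .lo 7, [.l [4, 3, 9, 5, 12, 5, 6, 3], .l [4, 3, 6, 6, 7, 3, 10, 5, 6, 3], .l [11, 16, 9, 3, 4, 11, 7, 5, 5, 8, 0, 5], .l [9, 14, 7, 1, 2, 9, 7, 5, 5, 6, 0, 3], .l [2, 1, 13, 10, 4, 9, 7, 3, 6, 3], .l [11, 16, 7, 1, 8, 10, 4, 9, 5, 8, 0, 5], .l [11, 16, 7, 1, 8, 10, 4, 9, 5, 8, 0, 5], .r 3647 [7, 2, 3, 4, 5] [4, 1, 1, 1, 1, 3], .y [5, 7], .l [2, 1, 4, 6, 7, 3, 10, 5, 6, 3], .l [11, 16, 7, 1, 8, 10, 4, 9, 5, 8, 0, 5], .l [2, 1, 4, 6, 7, 3, 10, 5, 6, 3], .l [2, 1, 7, 5, 12, 5, 6, 3], .r 3646 [1, 2, 3, 7, 4, 5, 6] [1, 1, 1, 1, 1, 1, 1, 1], .l [2, 1, 4, 4, 5, 3, 10, 5, 6, 3], .l [2, 1, 7, 5,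 12, 8, 4, 6, 4, 4, 2, 3], .l [9, 16, 9, 1, 2, 11, 7, 5, 5, 8, 0, 5], .l [2, 1, 7, 5, 12, 8, 4, 6, 4, 4, 2, 3], .l [9, 14, 11, 7, 10, 3, 9, 0, 6], .l [9, 14, 11, 7, 10, 3, 9, 0, 6], .l [9, 2, 12, 9, 10, 3, 6, 1, 2, 0, 1], .l [9, 16, 13, 7, 12, 5, 11, 0, 8], .l [9, 16, 13, 7, 12, 5, 11, 0, 8], .l [9, 2, 14, 11, 12, 5, 8, 1, 2, 0, 3]]),
([p 3 1, g, s 1 0, s 5 0, g, m 2 0, g, s 0 2, p 4 3, g, p 0 4, g, s 0 5, g], .lo 10, [.l [1, 10, 8, 9, 9, 7, 1], .l [2, 11], .l [0, 3, 1, 9, 9, 7, 1], .y [0, 2, 10, 8], .l [2, 1, 7, 5, 6], .l [4, 10, 5, 9, 9, 4, 1], .l [5, 11], .l [2, 1, 9, 7, 10, 8, 6, 6, 4, 1], .l [2, 1, 7, 5, 8, 6, 4, 4, 2, 1], .l [11, 12, 10, 3, 9, 0, 6], .l [7, 11], .l [2, 1, 9, 7, 10, 6, 4, 4, 2, 3], .l [9, 12, 10, 1,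 9, 2, 1], .l [10, 11], .l [9, 12, 10, 1, 9, 2, 1], .l [9, 10, 8, 1, 7, 0, 6], .r 3648 [1, 2, 3, 4, 6, 5] [1, 1, 1, 1, 1, 1, 1], .l [9, 10, 8, 1, 7, 0, 6], .l [9, 10, 8, 1, 7, 0, 8], .l [2, 1, 7, 5, 8, 10, 8, 8, 6, 1], .l [9, 10, 8, 1, 7, 0, 8]]),
([p 3 1, g, s 1 0, s 0 0, g, m 2 0, g, s 0 2, p 4 3, g, p 0 4, g], .lo 3, [.l [4, 3, 9, 5, 6, 8, 6, 1], .l [4, 3, 9, 5, 6], .l [4, 10, 5, 6, 10, 8, 1], .c, .y [3], .l [4, 10, 5, 7, 1, 8, 6, 1], .r 3439 [1, 5, 3] [1, 1, 4, 3], .l [2, 1, 9, 7, 1], .l [2, 1, 7, 5, 1], .r 3412 [1, 5, 3] [1, 3, 2, 3], .r 3439 [1, 5, 3] [1, 3, 2, 3], .l [2, 1, 9, 7, 3], .l [2, 1, 7, 5, 6, 8, 6, 1], .l [10, 6, 9, 4, 9, 4, 1], .l [2, 1, 7, 5, 6], .r 3649 [1, 2, 3, 4, 5] [1, 1, 1, 1, 1, 1], .r 3410 [1, 3,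 5] [1, 4, 3, 1], .l [2, 1, 7, 5, 8]]),
([p 3 1, g, s 1 0, s 0 0, g, m 2 0, g, s 0 2, p 0 3, g], .lo 8, [.l [1, 10, 8, 7, 1], .l [2, 9], .l [0, 3, 1, 7, 1], .y [0, 2, 8], .l [2, 1, 7, 5, 4], .l [4, 10, 5, 4, 1], .l [5, 9], .l [4, 10, 5, 4], .l [4, 8, 3, 2], .l [9, 3, 9, 0, 6], .l [7, 9], .l [6, 10, 3, 2], .l [7, 1, 7, 0, 6], .r 3650 [1, 2, 3, 4] [1, 1, 1, 1, 1], .l [7, 1, 7, 0, 6]]),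
([p 3 1, g, s 1 0, g, m 2 0, g, s 0 2, p 0 3, g], .top 3, [.r 3538 [1, 3] [1, 2, 1], .r 3651 [1, 2, 3] [1, 1, 1, 1], .r 3498 [1, 3] [1, 4, 1], .r 3538 [1, 3] [1, 4, 1]]),
([p 4 1, s 0 2, g, s 1 0, g, s 0 3, p 5 4, g, p 0 5, g, s 2 0, g, m 3 0, g], .lo 1, [.l [12, 10, 11, 4, 9, 5, 2, 8, 6, 3], .r 1556 [1, 6, 4] [1, 1, 2, 7], .l [2, 8, 5, 5, 2], .l [2, 6, 3, 3, 2], .l [12, 10, 11, 4, 7, 3, 6, 8, 2, 5], .r 2050 [1, 6, 4] [1, 1, 2, 7], .l [3, 2, 3], .l [1, 11, 3, 9, 1, 10, 6, 1], .l [8, 6, 11, 4, 8, 2, 6, 8, 2, 5], .l [3, 2, 6], .l [10, 8, 9, 4, 9, 5, 2, 8, 6, 3], .l [10, 8, 9, 4, 9, 5, 2, 8, 6, 3], .l [3, 2, 8], .y [1, 10], .l [10, 8, 9, 4, 9, 5, 2, 8, 6, 3], .l [10, 8, 9, 4, 9, 5, 2, 8, 6, 3], .l [3, 2, 10], .l [3, 2, 10],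 .l [10, 8, 9, 4, 11, 7, 2, 4, 2, 5], .l [10, 8, 9, 4, 11, 7, 2, 4, 2, 5], .l [3, 2, 12]]),
([p 4 1, s 0 2, g, s 1 0, g, s 0 3, p 6 4, s 0 5, g, p 0 6, g, m 3 0, g, s 5 0, g, s 2 0, g], .lo 7, [.l [3, 8, 4], .l [3, 8, 4], .l [1, 16, 1, 5, 11, 5, 10, 1, 8, 5], .l [3, 6, 2], .l [5, 8, 2], .l [5, 8, 2], .l [1, 16, 1, 5, 9, 3, 10, 3, 8, 3], .l [7, 14, 10, 2, 13, 9, 7, 8, 3, 6, 1], .l [15, 7, 8, 4, 10, 11, 12, 5, 6, 1], .l [13, 7, 12, 11, 1], .l [17, 15, 16, 11, 3, 5, 9, 4], .l [5, 11, 3, 14, 10, 0, 10], .l [13, 7, 12, 11, 3], .l [11, 5, 10, 9, 3], .l [7, 14, 10, 2, 13, 5, 3, 8, 1, 6, 3], .l [7, 14, 10, 2, 4, 10, 3, 1, 8, 1], .l [11, 5, 10, 9, 10], .y [7, 13], .l [7, 14, 10, 2, 13, 5, 3, 8, 1, 6, 3], .l [5, 13, 5, 14, 8, 0, 10],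 .l [11, 5, 10, 9, 12], .l [3, 2, 13, 1, 5, 6, 4, 10, 6, 3], .l [3, 2, 13, 15, 7, 2], .l [3, 2, 13, 1, 5, 6, 4, 12, 8, 3], .l [11, 5, 10, 9, 14]]),
([p 4 0, g, p 1 0, g, s 0 1, m 0 2, g, s 2 3, p 5 4, g, p 0 5, g, m 3 6, g, m 6 0, g], .lo 4, [.l [1, 8, 6, 1, 5, 3, 1], .l [5, 10, 4, 5, 11, 8, 6, 7, 9, 8, 8, 6, 1], .l [3, 10, 6, 1, 7, 5, 1], .l [5, 10, 4, 7, 1, 5, 1], .y [2, 4], .l [3, 10, 6, 1, 11, 6, 8, 1, 10, 8, 3, 4, 1], .l [6, 1, 9, 3, 1], .l [5, 10, 4, 7, 1, 5, 1], .l [6, 10, 3, 6, 9, 5, 2, 5], .l [1, 10, 8, 1, 4, 2, 3], .l [3, 10, 6, 7, 4, 5, 2], .l [3, 8, 4, 7, 11, 6, 4, 5, 9, 8, 8, 6, 3], .l [1, 8, 6, 1, 7, 5, 1], .l [3, 8, 4, 7, 1, 5, 1], .l [3, 8, 4, 9, 3, 7, 1, 8, 6, 1], .l [1, 8, 6, 1, 9, 7, 1], .l [3, 8, 4, 9,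 3, 7, 1], .l [3, 8, 4, 11, 5, 9, 1, 10, 5, 5, 6, 1], .l [1, 8, 6, 1, 11, 9, 1], .l [3, 8, 4, 11, 5, 9, 1], .l [3, 8, 4, 11, 5, 9, 1], .l [3, 8, 4, 13, 7, 11, 1, 1, 5, 5, 3, 1, 3], .l [1, 8, 6, 1, 13, 11, 1], .l [3, 8, 4, 13, 7, 11, 1]]),
([p 3 0, g, p 0 1, g, m 0 2, s 1 0, g, s 2 0, g, p 0 3, g], .lo 4, [.l [4, 3], .l [4, 6, 3], .l [6, 3], .l [4, 6, 3], .l [2, 6, 1], .l [6, 1], .l [5, 11, 5, 2, 6, 4, 5], .c, .l [2, 4, 5], .l [7, 2], .l [4, 6], .y [4, 7], .l [2, 4, 7], .l [9, 4], .l [4, 8], .l [2, 4, 9], .l [11, 6], .l [4, 10]]),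
([p 5 0, g, s 1 0, g, s 0 1, m 0 2, s 0 3, g, m 3 0, g, s 2 4, p 6 5, g, p 0 6, g, m 4 0, g], .lo 6, [.r 1067 [7, 3, 5] [4, 1, 2, 5], .l [7, 13, 5, 6, 13, 11, 8, 1], .r 3656 [7, 2, 5] [1, 4, 3, 0, 5], .l [7, 13, 5, 6, 13, 11, 8], .l [5, 11, 5, 6, 11, 9, 6, 1], .l [7, 13, 5, 8, 13, 9, 6, 9], .r 3656 [7, 2, 5] [3, 2, 3, 0, 5], .l [7, 13, 5, 8, 13, 9, 6], .l [7, 13, 5, 10, 12, 6, 10, 1], .l [8, 1, 12, 4, 1, 8, 10, 4, 8], .l [7, 13, 5, 10, 12, 6, 10], .y [6, 8], .l [9, 13, 3, 8, 12, 6, 10, 1], .l [8, 1, 12, 4, 1, 8, 10, 4, 8], .l [9, 13, 3, 8, 12, 6, 10], .l [5, 11, 5, 11, 13, 6, 10, 1], .l [13, 6, 6, 4, 11, 8, 11, 2, 6], .l [5, 11, 5, 11, 13, 6, 10], .l [4, 1, 14, 8, 4, 8, 6, 11, 4, 6], .l [4, 1, 14, 8, 4, 8, 6, 11, 4, 6],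 .l [5, 11, 5, 13, 3, 8, 5], .l [5, 11, 5, 13, 3, 8, 5], .l [4, 1, 16, 10, 4, 10, 8, 3, 7, 2], .l [4, 1, 16, 10, 4, 10, 8, 3, 7, 2], .l [5, 11, 5, 15, 5, 10, 7]]),
([p 3 0, g, m 2 0, g, m 0 1, s 0 2, g, s 1 0, g, p 0 3, g], .lo 4, [.l [4, 3], .l [4, 6, 3], .l [6, 3], .l [4, 6, 3], .l [2, 4, 3], .l [2, 6, 1], .l [6, 1], .l [5, 11, 5, 2, 6, 4, 5], .l [2, 4, 5], .l [7, 2], .l [4, 6], .y [4, 7], .l [2, 4, 7], .l [9, 4], .l [4, 8], .l [2, 4, 9], .l [11, 6], .l [4, 10]]),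
([p 4 0, g, s 1 0, g, s 0 1, m 0 2, s 0 0, g, s 2 3, p 5 4, g, p 0 5, g, m 3 0, g], .hi 6, [.l [7, 11, 3, 4, 11, 9, 6, 1], .l [7, 11, 3, 4, 11, 9, 6], .r 3658 [2, 6, 4] [1, 4, 1, 0, 5], .l [7, 11, 3, 6, 11, 7, 4, 7], .l [7, 11, 3, 6, 11, 7, 4], .r 3658 [2, 6, 4] [3, 2, 1, 0, 5], .l [5, 9, 3, 6, 9, 5, 2, 5], .c, .y [6], .l [7, 11, 3, 8, 10, 4, 8, 1], .l [7, 11, 3, 8, 10, 4, 8], .r 3657 [1, 2, 6, 3, 4, 5] [1, 1, 1, 1, 1, 1, 1], .l [5, 9, 3, 9, 11, 4, 8, 1], .l [5, 9, 3, 9, 11, 4, 8], .l [11, 4, 10, 7, 10, 2, 6], .l [5, 9, 3, 9, 9, 2, 6], .l [4, 1, 12, 6, 2, 6, 4, 9, 4, 6], .l [5, 9, 3, 11, 3, 8, 5], .l [4, 1, 12, 6, 2, 6, 4, 9, 4, 6], .l [4, 1, 14, 8, 2, 8, 6, 1, 5, 2], .l [5, 9, 3, 13, 5, 10, 7], .l [4, 1, 14, 8, 2, 8, 6,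 1, 5, 2]]),
([p 2 0, g, m 0 1, s 1 0, p 0 2, g], .lo 2, [.l [2, 1], .l [3, 6, 2, 0, 2], .l [4, 1], .l [3, 6, 2, 0, 2], .c, .l [1, 4, 2, 0, 2], .l [6, 3], .l [2, 5]]),
([p 6 0, g, m 5 1, p 2 0, g, p 3 2, g, p 4 3, g, p 0 4, g, s 0 5, g, s 1 0, p 0 6, g], .lo 14, [.y [0, 14], .l [9, 11, 10, 15, 6, 1, 11, 2, 5, 1, 8, 4, 1], .l [2, 15], .l [1, 16, 14, 13], .l [3, 13], .l [4, 7, 5, 14, 11, 10, 11], .l [5, 15], .l [2, 12, 7, 13, 13, 8, 5], .l [6, 9, 7, 7, 5, 12, 9, 8, 9], .l [7, 15], .l [4, 5, 3, 10, 5, 11, 11, 6, 3], .l [8, 11, 9, 9, 7, 7, 5, 10, 7, 6, 7], .l [9, 15], .l [5, 16, 10, 1, 13, 11, 6, 7, 3, 8, 8, 6, 1], .l [10, 16, 5, 4, 5], .l [11, 15], .l [10, 16, 5, 4], .l [12, 16, 3, 2, 3], .l [13, 15], .l [12, 16, 3, 2], .c,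 .l [5, 14, 8, 1, 11, 2, 3, 10, 3, 1, 1, 4, 1], .l [5, 14, 8, 1, 11, 13, 8, 9, 5, 1, 1, 6, 1], .l [13, 14, 0, 14]]),
([p 6 0, g, s 0 1, g, m 5 2, p 3 0, g, p 4 3, g, p 7 4, g, s 0 5, g, s 2 0, p 1 6, g, s 0 7, g], .lo 11, [.l [8, 9, 7, 7, 5, 6, 6, 3, 7, 3, 6], .l [10, 11, 9, 14, 5, 13, 2, 7, 3, 1, 6, 6, 4, 5], .l [10, 11, 9, 9, 7, 8, 8, 3, 9, 3, 8], .l [3, 16, 12, 11, 15, 10, 10, 8, 8, 6, 7, 7, 3], .l [10, 11, 9, 9, 7, 8, 8, 1, 3, 7, 4, 6, 4, 5], .l [10, 11, 9, 9, 7, 8, 8, 1, 9, 3, 8], .l [5, 16, 10, 8, 15, 11, 11, 9, 9, 7, 8, 8, 4], .l [11, 5, 13, 2, 7, 0, 8], .l [12, 16, 3, 9, 11, 9, 6], .l [13, 5, 15, 2, 9, 2, 10], .l [12, 16, 3, 9, 11, 9, 6], .l [12, 16, 3, 11, 13, 11, 11, 9, 6], .l [5, 16, 10, 1, 13, 6, 6, 8, 1, 8, 1,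 4, 1], .l [12, 16, 3, 11, 13, 11, 11, 9, 6], .l [12, 16, 3, 13, 6, 9, 1, 12, 8, 8, 6, 6, 4, 1], .l [7, 16, 8, 1, 13, 2, 5, 1, 10, 6, 1, 1, 1], .l [1, 16, 14, 13, 15, 8, 8, 6, 6, 4, 7, 7, 5], .l [8, 9, 7, 7, 5, 6, 8, 1, 9, 3, 8, 1, 4, 1], .l [8, 9, 7, 7, 5, 6, 8, 1, 9, 3, 8], .l [1, 16, 14, 13, 15, 8, 8, 6, 6, 4, 5, 5, 5], .y [4, 13, 11], .l [8, 9, 7, 12, 5, 13, 4, 7, 1, 3, 6, 6, 4, 5], .l [7, 9, 8, 8, 6, 7, 12, 4, 8, 5, 1, 4, 1], .l [1, 14, 12, 11, 15, 10, 10, 8, 8, 6, 7, 7, 3], .l [8, 14, 5, 13, 1, 11, 13, 11, 11, 4, 1, 3, 6, 1], .l [1, 14, 12, 11, 13, 8, 8, 6, 6, 4, 5, 9, 3], .l [1, 14, 12, 11, 13, 8, 8, 6, 6, 4, 5, 5, 7]]),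
([p 5 0, g, m 4 1, p 2 0, g, p 3 2, g, p 6 3, g, s 0 4, g, s 1 0, p 0 5, g, s 0 6, g], .lo 12, [.y [0, 12], .r 3662 [7, 1, 2, 3, 4, 5, 6] [1, 1, 1, 1, 1, 1, 1, 1], .l [2, 13], .l [1, 14, 12, 11], .l [3, 11], .l [4, 7, 5, 12, 9, 8, 9], .l [5, 13], .l [2, 10, 5, 11, 11, 6, 3], .l [6, 9, 7, 7, 5, 10, 7, 6, 7], .l [7, 13], .l [4, 5, 3, 8, 3, 9, 9, 4, 1], .l [8, 14, 5, 4, 5], .l [9, 13], .l [6, 7, 5, 5, 3, 6, 1, 7, 7, 2, 7], .l [10, 14, 3, 2, 3], .l [11, 13], .l [6, 7, 5, 5, 3, 10, 7, 10, 6, 2, 3], .c, .l [13, 16, 9, 9, 7, 12, 7, 6, 7, 3, 6, 1], .l [6, 7, 5, 5, 3, 8, 5, 10, 3, 4, 1], .l [11, 12, 0, 12], .l [6, 7, 5, 10, 5, 9, 2, 3, 8, 1, 4, 1], .l [6, 7, 5, 5, 3, 8, 5, 8, 10, 6, 7], .l [11, 12, 0, 14]]),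
([p 5 0, g, m 4 1, p 2 0, g, p 3 2, g, p 0 3, g, s 0 4, g, s 1 0, p 0 5, g], .lo 7, [.l [0, 6], .l [1, 14, 12, 6, 6, 4, 4, 2, 3], .l [2, 8], .l [1, 14, 12, 6], .y [3, 7, 5], .l [4, 14, 9, 3, 3, 1, 1, 7, 4], .l [5, 8], .l [4, 7, 5, 12, 9, 3], .l [6, 9, 7, 12, 7, 1, 1, 7, 4], .l [7, 8], .l [6, 9, 7, 7, 5, 10, 7, 1], .l [8, 14, 5, 11, 11, 9, 9, 7, 4], .r 3661 [1, 2, 3, 6, 4, 5] [1, 1, 1, 1, 1, 1, 1], .l [6, 7, 5, 5, 3, 10, 7, 1], .l [10, 14, 3, 9, 9, 7, 7, 5, 6], .l [6, 7, 5, 11, 8, 2, 7, 3, 8, 2, 5], .l [4, 5, 3, 6, 1, 6, 9, 5, 1], .l [1, 12, 10, 8, 8, 4, 4, 2, 2, 0, 1], .r 3663 [1, 2, 3, 4, 5, 6] [1, 1, 1, 1, 1, 1, 1], .l [1, 12, 10, 8, 11, 7, 7, 5, 5, 3, 4], .l [6, 7, 5, 5, 3, 8, 5, 8]]),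
([p 5 0, g, s 0 1, g, m 4 2, p 3 0, g, p 6 3, g, s 0 4, g, s 2 0, p 1 5, g, s 0 6, g], .hi 11, [.l [8, 9, 7, 8, 6, 9, 6, 8, 6, 7], .l [3, 14, 10, 9, 10], .l [5, 14, 8, 6, 9, 2, 8], .l [1, 12, 10, 9, 8], .l [13, 8, 13, 0, 1, 10, 6, 10, 6, 6, 4, 5], .l [12, 14, 1, 6, 1, 4, 1], .l [1, 14, 12, 11, 8], .l [12, 14, 1, 7, 2, 5, 1, 6, 2, 5], .l [3, 14, 10, 8, 8, 2, 4, 2, 3], .l [1, 14, 12, 11, 5], .l [1, 14, 12, 11, 3, 12, 6, 6, 4, 7], .l [12, 14, 1, 9, 4, 7, 1], .l [1, 14, 12, 11, 3], .y [4, 11, 9], .l [1, 14, 12, 11, 1, 12, 6, 6, 4, 5], .l [12, 14, 1, 11, 6, 9, 1], .l [1, 14, 12, 11, 1], .l [10, 12, 1, 11, 6, 9, 1, 10, 4, 4, 2, 3], .l [1, 12, 10, 9, 10], .l [3, 12, 8, 6, 11, 4, 1], .l [10, 12, 1, 11, 6, 9, 1, 8, 2, 2, 0, 1], .l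 [1, 12, 10, 9, 12, 1, 6, 6, 4, 5], .l [1, 12, 10, 9, 12], .l [3, 12, 8, 6, 13, 6, 1]]),
([p 4 0, g, m 3 1, p 2 0, g, p 5 2, g, s 0 3, g, s 1 0, p 0 4, g, s 0 5, g], .lo 10, [.y [0, 10], .r 3665 [6, 1, 2, 3, 4, 5] [1, 1, 1, 1, 1, 1, 1], .l [2, 11], .l [1, 12, 10, 9], .l [3, 9], .l [4, 7, 5, 10, 7, 6, 7], .l [5, 11], .l [2, 8, 3, 9, 9, 4, 1], .l [6, 12, 5, 4, 5], .l [7, 11], .l [4, 5, 3, 6, 1, 7, 7, 2, 7], .l [8, 12, 3, 2, 3], .l [9, 11], .l [4, 5, 3, 10, 7, 10, 6, 2, 3], .c, .l [11, 14, 7, 12, 7, 6, 7, 3, 6, 1], .l [4, 5, 3, 8, 5, 10, 3, 4, 1], .l [9, 10, 0, 10], .l [4, 10, 5, 9, 2, 3, 8, 1, 4, 1], .l [4, 5, 3, 8, 5, 8, 10, 6, 7], .l [9, 10, 0, 12]]),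
([p 4 0, g, m 3 1, p 2 0, g, p 0 2, g, s 0 3, g, s 1 0, p 0 4, g], .lo 5, [.l [0, 4], .l [1, 12, 10, 4, 4, 2, 3], .l [2, 6], .l [1, 12, 10, 4], .y [3, 5], .l [4, 12, 7, 1, 1, 7, 4], .l [5, 6], .l [4, 7, 5, 10, 7, 1], .l [6, 12, 5, 9, 9, 7, 4], .r 3664 [1, 2, 5, 3, 4] [1, 1, 1, 1, 1, 1], .l [4, 5, 3, 10, 7, 1], .l [8, 12, 3, 7, 7, 5, 6], .l [4, 11, 8, 2, 7, 3, 8, 2, 5], .l [2, 6, 1, 6, 9, 5, 1], .l [1, 10, 8, 6, 6, 2, 2, 0, 1], .r 3666 [1, 2, 3, 4, 5] [1, 1, 1, 1, 1, 1], .l [1, 10, 8, 6, 9, 5, 5, 3, 4], .l [4, 5, 3, 8, 5, 8]]),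
([p 3 0, g, m 2 1, p 0 0, g, s 0 2, g, s 1 0, p 0 3, g], .lo 3, [.l [0, 2], .l [1, 10, 8, 2, 3], .l [2, 4], .l [1, 10, 8, 2], .y [3], .l [4, 10, 5, 7, 4], .r 3667 [1, 4, 2, 3] [1, 1, 1, 1, 1], .l [2, 10, 7, 1], .l [5, 2, 5], .l [1, 10, 8, 6, 3, 4, 1], .l [2, 10, 7, 3], .l [1, 8, 6, 4, 4, 0, 1], .l [5, 2, 8], .l [1, 8, 6, 4, 7, 3, 4], .l [2, 8, 5, 8]]),
([p 4 0, g, s 0 1, g, m 6 2, p 3 0, g, p 5 3, g, s 2 0, p 1 4, g, s 0 5, g, s 0 6, g], .hi 9, [.l [8, 9, 7, 13, 11, 7, 4, 6, 4, 5], .l [3, 12, 8, 7, 8], .l [5, 12, 6, 4, 7, 2, 6], .l [1, 10, 8, 7, 6], .l [11, 6, 11, 0, 1, 8, 4, 8, 6, 6, 4, 5], .l [10, 12, 1, 6, 1, 4, 1], .l [1, 12, 10, 9, 6], .l [10, 12, 1, 7, 2, 5, 1, 6, 2, 7], .l [3, 12, 8, 6, 6, 2, 4, 2, 9], .l [1, 12,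 10, 9, 3], .l [1, 12, 10, 9, 1, 10, 6, 6, 4, 7], .l [10, 12, 1, 9, 4, 7, 1], .l [1, 12, 10, 9, 1], .l [8, 10, 1, 9, 4, 7, 1, 8, 4, 4, 2, 5], .l [1, 10, 8, 7, 8], .l [3, 10, 6, 4, 9, 4, 1], .l [8, 10, 1, 9, 4, 7, 1, 6, 2, 2, 0, 3], .l [1, 10, 8, 7, 10, 1, 6, 6, 4, 7], .l [1, 10, 8, 7, 10], .l [3, 10, 6, 4, 11, 6, 1], .y [4, 9, 14], .l [1, 10, 8, 7, 12, 3, 8, 8, 6, 3], .l [1, 10, 8, 7, 12], .l [3, 10, 6, 4, 13, 8, 1]]),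
([p 3 0, g, m 5 1, p 2 0, g, p 4 2, g, s 1 0, p 0 3, g, s 0 4, g, s 0 5, g], .lo 8, [.y [0, 8], .r 3669 [6, 1, 2, 3, 4, 5] [1, 1, 1, 1, 1, 1, 1], .l [2, 9], .l [1, 10, 8, 7], .l [3, 7], .l [4, 7, 5, 8, 5, 4, 5], .l [5, 9], .l [2, 13, 8, 4, 10], .l [6, 10, 3, 2, 3], .l [7, 9], .l [2, 13, 6, 2, 10], .c, .l [9, 12, 7, 10, 5, 4, 5, 3, 4, 5], .l [4, 5, 3, 6, 3, 8, 3, 4, 1], .l [3, 8, 4, 1, 5, 10, 3, 6, 7], .l [4, 8, 3, 7, 2, 3, 6, 1, 2, 5], .l [4, 5, 3, 6, 3, 6, 8, 4, 5], .l [3, 8, 4, 1, 5, 10, 1, 6, 7], .l [4, 5, 3, 9, 11, 7, 4, 6, 4, 5], .l [2, 11, 13, 9, 6], .l [7, 8, 0, 12]]),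
([p 5 0, g, m 6 1, p 2 0, g, p 3 2, g, p 4 3, g, p 0 4, g, s 1 0, p 0 5, g, s 0 6, g], .lo 12, [.y [0, 12], .l [7, 14, 6, 1, 11, 2, 5, 1, 8, 4, 7, 5, 1], .l [2, 13], .l [1, 14, 12, 11], .l [3, 11], .l [4, 7, 5, 12, 9, 8, 9], .l [5, 13], .l [2, 15, 10, 8, 12], .l [6, 9, 7, 7, 5, 10, 7, 6, 7], .l [7, 13], .l [2, 15, 8, 6, 12], .l [8, 11, 9, 9, 7, 7, 5, 8, 5, 4, 5], .l [9, 13], .l [2, 15, 6, 4, 12], .l [10, 14, 3, 2, 3], .l [11, 13], .l [2, 15, 4, 2, 12], .c, .l [3, 12, 8, 1, 9, 12, 5, 1, 3, 6, 7, 5, 1], .l [3, 12, 8, 1, 9, 12, 5, 1, 3, 6, 7], .l [3, 12, 8, 1, 9, 12, 1, 8, 9], .l [5, 12, 6, 1, 9, 2, 3, 10, 5, 1, 1, 4, 1], .l [2, 13, 15, 13, 10], .l [11, 12, 0, 14]]),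
([p 4 0, g, m 5 1, p 2 0, g, p 3 2, g, p 0 3, g, s 1 0, p 0 4, g, s 0 5, g], .lo 7, [.l [0, 6], .l [1, 12, 10, 6, 6, 4, 4, 2, 6], .l [2, 8], .l [1, 12, 10, 6], .y [3, 7, 5], .l [4, 12, 7, 3, 3, 1, 1, 5, 6], .l [5, 8], .l [2, 13, 8, 3, 6, 7, 1], .l [6, 9, 7, 10, 5, 1, 1, 5, 6], .l [7, 8], .l [6, 9, 7, 7, 5, 8, 5, 1], .l [8, 12, 3, 9, 9, 7, 7, 5, 6], .r 3671 [1, 2, 3, 6, 4, 5] [1, 1, 1, 1, 1, 1, 1], .l [4, 5, 3, 11, 6, 1, 4, 5, 1], .l [1, 10, 8, 6, 6, 4, 4, 2, 2, 0, 3], .l [6, 10, 3, 9, 1, 7, 9, 4, 1], .l [1, 10, 8, 6, 9, 7, 7, 5, 5, 3, 4], .l [6, 7, 5, 5, 3, 6, 3, 6], .l [6, 7, 5, 8, 3, 9, 1, 2, 6], .l [1, 10, 8, 6, 11, 9, 9, 7, 7, 5, 2], .l [6, 7, 5, 5, 3, 6, 3, 8]]),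
([p 3 0, g, m 4 1, p 2 0, g, p 0 2, g, s 1 0, p 0 3, g, s 0 4, g], .lo 5, [.l [0, 4], .l [1, 10, 8, 4, 4, 2, 6], .l [2, 6], .l [1, 10, 8, 4], .y [3, 5], .l [4, 10, 5, 1, 1, 5, 6], .l [5, 6], .l [4, 7, 5, 8, 5, 1], .l [6, 10, 3, 7, 7, 5, 6], .r 3672 [1, 2, 5, 3, 4] [1, 1, 1, 1, 1, 1], .l [2, 11, 6, 1, 4, 5, 1], .l [1, 8, 6, 4, 4, 2, 2, 0, 3], .r 3670 [1, 2, 3, 5, 4] [1, 1, 1, 1, 1, 1], .l [1, 8, 6, 4, 7, 5, 5, 3, 4], .l [4, 5, 3, 6, 3, 6], .l [4, 8, 3, 9, 1, 2, 6], .l [1, 8, 6, 4, 9, 7, 7, 5, 2], .l [4, 5, 3, 6, 3, 8]]),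
([p 2 0, g, m 3 1, p 0 0, g, s 1 0, p 0 2, g, s 0 3, g], .lo 3, [.l [0, 2], .l [1, 8, 6, 2, 6], .l [2, 4], .l [1, 8, 6, 2], .y [3], .l [4, 8, 3, 5, 6], .r 3673 [1, 4, 2, 3] [1, 1, 1, 1, 1], .l [2, 8, 5, 1], .l [1, 6, 4, 2, 2, 0, 3], .l [10, 7, 4], .l [1, 6, 4, 2, 5, 3, 4], .l [2, 6, 3, 6], .l [8, 5, 8], .l [1, 6, 4, 2, 7, 5, 2], .l [2, 6, 3, 8]]),
([p 4 0, g, s 0 1, g, m 1 2, p 3 0, g, p 0 3, g, s 2 0, g, p 0 4, g], .lo 7, [.l [0, 6], .l [1, 13, 11, 6, 6, 4, 1], .l [2, 8], .l [1, 13, 11, 6], .l [3, 13, 9, 4, 4, 2, 7], .l [4, 8], .l [3, 13, 9, 4], .y [5, 7], .l [6, 9, 7, 1, 10, 6, 1], .l [7, 8], .l [6, 9, 7, 1, 10, 6, 1], .l [6, 7, 5, 1, 10, 6, 1], .l [6, 11, 8, 4, 7, 3, 8, 2, 5], .l [6, 7, 5, 1, 10, 6, 1], .l [3, 11, 7,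 4, 4, 2, 2, 0, 3], .l [6, 7, 5, 1, 10, 6, 3], .l [3, 13, 9, 4, 6, 4, 4, 2, 5], .l [6, 7, 5, 1, 10, 6, 3], .l [6, 7, 5, 1, 8, 4, 7], .l [3, 11, 7, 4, 10, 8, 8, 6, 3], .l [6, 7, 5, 1, 8, 4, 7]]),
([p 3 0, g, s 0 1, g, m 1 2, p 0 0, g, s 2 0, g, p 0 3, g], .lo 5, [.l [0, 4], .l [1, 11, 9, 4, 1], .l [2, 6], .l [1, 11, 9, 4], .l [3, 11, 7, 2, 7], .l [4, 6], .l [3, 11, 7, 2], .y [5], .l [4, 1, 10, 6, 1], .r 3675 [1, 2, 4, 3] [1, 1, 1, 1, 1, 1], .l [4, 1, 10, 6, 1], .l [3, 9, 5, 2, 2, 0, 3], .l [4, 1, 10, 6, 3], .l [3, 11, 7, 2, 4, 2, 5], .l [4, 1, 10, 6, 3], .l [4, 1, 8, 4, 7], .l [3, 9, 5, 2, 8, 6, 3], .l [4, 1, 8, 4, 7]]),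
([p 8 0, g, m 0 1, g, m 1 2, p 3 0, g, p 4 3, g, p 5 4, g, p 6 5, g, p 7 6, g, p 0 7, g, s 2 0, p 0 8, g], .lo 15, [.l [0, 14], .l [5, 20, 14, 12, 15, 13, 13, 11, 11, 9, 9, 7, 7, 5, 5, 3, 4], .l [2, 16], .l [1, 20, 18, 14], .l [3, 20, 16, 12, 12, 10, 10, 8, 8, 6, 6, 4, 4, 2, 6], .l [4, 16], .l [3, 6, 4, 19, 17, 13], .y [5, 15, 13, 11, 9, 7], .l [3, 7, 15, 15, 13, 13, 11, 11, 9, 12, 6, 4, 9, 5, 2], .l [7, 16], .l [3, 4, 2, 19, 17, 15, 11, 9, 9, 7, 7, 5, 5, 3, 3, 1, 3, 1], .l [3, 9, 15, 15, 13, 13, 11, 14, 8, 6, 11, 7, 7, 5, 2], .l [9, 16], .l [8, 11, 9, 9, 7, 16, 11, 7], .l [3, 11, 15, 15, 13, 16, 10, 8, 13, 9, 9, 7, 7, 5, 2], .l [11, 16], .l [10, 13, 11, 11, 9, 9, 7, 14, 9, 5], .l [3, 13, 15, 18, 12, 10, 15, 11, 11, 9, 9,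 7, 7, 5, 2], .l [13, 16], .l [12, 15, 13, 13, 11, 11, 9, 9, 7, 12, 7, 3], .l [14, 17, 15, 15, 13, 13, 11, 11, 9, 11, 8, 11, 7, 1, 1, 2, 5], .l [15, 16], .l [14, 17, 15, 15, 13, 13, 11, 11, 9, 9, 7, 10, 5, 1], .l [16, 19, 6, 19, 15, 12, 12, 10, 10, 8, 8, 6, 6, 4, 4, 2, 5], .l [3, 15, 16, 15, 15, 13, 13, 11, 11, 9, 9, 7, 7, 5, 2, 7, 5, 3], .l [14, 15, 13, 13, 11, 11, 9, 9, 7, 7, 5, 10, 5, 1], .l [3, 4, 2, 17, 15, 13, 13, 11, 11, 9, 9, 7, 7, 5, 5, 3, 3, 1], .l [3, 18, 14, 12, 17, 15, 15, 13, 13, 11, 11, 9, 9, 7, 7, 5, 2], .l [3, 4, 2, 17, 15, 13, 16, 14, 14, 12, 12, 10, 10, 8, 8, 6, 6, 4], .l [14, 15, 13, 13, 11, 11, 9, 9, 7, 7, 5, 8, 3, 8]]),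
([p 7 0, g, m 0 1, g, m 1 2, p 3 0, g, p 4 3, g, p 5 4, g, p 6 5, g, p 0 6, g, s 2 0, p 0 7, g], .lo 13, [.l [0, 12], .l [5, 18, 12, 10, 13, 11, 11, 9, 9, 7, 7, 5, 5, 3, 4], .l [2, 14], .l [1, 18, 16, 12], .l [3, 18, 14, 10, 10, 8, 8, 6, 6, 4, 4, 2, 6], .l [4, 14], .l [3, 6, 4, 17, 15, 11], .y [5, 13, 11, 9, 7], .l [3, 7, 13, 13, 11, 11, 9, 12, 6, 4, 9, 5, 2], .l [7, 14], .l [6, 9, 7, 16, 11, 7], .l [3, 9, 13, 13, 11, 14, 8, 6, 11, 7, 7, 5, 2], .l [9, 14], .l [8, 11, 9, 9, 7, 14, 9, 5], .l [3, 11, 13, 16, 10, 8, 13, 9, 9, 7, 7, 5, 2], .l [11, 14], .l [10, 13, 11, 11, 9, 9, 7, 12, 7, 3], .l [12, 15, 13, 13, 11, 11, 9, 11, 8, 11, 7, 1, 1, 2, 5], .l [13, 14], .l [12, 15, 13, 13, 11, 11, 9, 9, 7, 10, 5, 1], .l [14, 17, 6, 17,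 13, 10, 10, 8, 8, 6, 6, 4, 4, 2, 5], .r 3677 [1, 2, 3, 4, 5, 6, 8, 7] [1, 1, 1, 1, 1, 1, 1, 1, 1], .l [12, 13, 11, 11, 9, 9, 7, 7, 5, 10, 5, 1], .l [3, 16, 12, 10, 10, 8, 8, 6, 6, 4, 4, 2, 2, 0, 3], .l [3, 16, 12, 10, 15, 13, 13, 11, 11, 9, 9, 7, 7, 5, 2], .l [3, 16, 12, 10, 15, 13, 13, 11, 11, 9, 9, 7, 7, 5, 2], .l [12, 13, 11, 11, 9, 9, 7, 7, 5, 8, 3, 8]]),
([p 6 0, g, m 0 1, g, m 1 2, p 3 0, g, p 4 3, g, p 5 4, g, p 0 5, g, s 2 0, p 0 6, g], .lo 11, [.l [0, 10], .l [5, 16, 10, 8, 11, 9, 9, 7, 7, 5, 5, 3, 4], .l [2, 12], .l [1, 16, 14, 10], .l [3, 16, 12, 8, 8, 6, 6, 4, 4, 2, 6], .l [4, 12], .l [3, 6, 4, 15, 13, 9], .y [5, 11, 9, 7], .l [3, 7, 11, 11, 9, 12, 6, 4, 9, 5, 2], .l [7, 12], .l [6, 9, 7, 14, 9, 5], .l [3, 9,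 11, 14, 8, 6, 11, 7, 7, 5, 2], .l [9, 12], .l [8, 11, 9, 9, 7, 12, 7, 3], .l [10, 13, 11, 11, 9, 11, 8, 11, 7, 1, 1, 2, 5], .l [11, 12], .l [10, 13, 11, 11, 9, 9, 7, 10, 5, 1], .l [12, 15, 6, 15, 11, 8, 8, 6, 6, 4, 4, 2, 5], .r 3678 [1, 2, 3, 4, 5, 7, 6] [1, 1, 1, 1, 1, 1, 1, 1], .l [10, 11, 9, 9, 7, 7, 5, 10, 5, 1], .l [3, 14, 10, 8, 8, 6, 6, 4, 4, 2, 2, 0, 3], .l [3, 14, 10, 8, 13, 11, 11, 9, 9, 7, 7, 5, 2], .l [3, 14, 10, 8, 13, 11, 11, 9, 9, 7, 7, 5, 2], .l [10, 11, 9, 9, 7, 7, 5, 8, 3, 8]]),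
([p 5 0, g, m 0 1, g, m 1 2, p 3 0, g, p 4 3, g, p 0 4, g, s 2 0, p 0 5, g], .lo 9, [.l [0, 8], .l [5, 14, 8, 6, 9, 7, 7, 5, 5, 3, 4], .l [2, 10], .l [1, 14, 12, 8], .l [3, 14, 10, 6, 6, 4, 4, 2, 6], .l [4, 10], .l [3, 6, 4, 13, 11, 7], .y [5, 9, 7], .l [3, 7, 9, 12, 6, 4, 9, 5, 2], .l [7, 10], .l [6, 9, 7, 12, 7, 3], .l [8, 11, 9, 11, 8, 11, 7, 1, 1, 2, 5], .l [9, 10], .l [8, 11, 9, 9, 7, 10, 5, 1], .l [10, 13, 6, 13, 9, 6, 6, 4, 4, 2, 5], .r 3679 [1, 2, 3, 4, 6, 5] [1, 1, 1, 1, 1, 1, 1], .l [8, 9, 7, 7, 5, 10, 5, 1], .l [3, 12, 8, 6, 6, 4, 4, 2, 2, 0, 3], .l [3, 12, 8, 6, 11, 9, 9, 7, 7, 5, 2], .l [3, 12, 8, 6, 11, 9, 9, 7, 7, 5, 2], .l [8, 9, 7, 7, 5, 8, 3, 8]]),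
([p 4 0, g, m 0 1, g, m 1 2, p 3 0, g, p 0 3, g, s 2 0, p 0 4, g], .lo 7, [.l [0, 6], .l [5, 12, 6, 4, 7, 5, 5, 3, 4], .l [2, 8], .l [1, 12, 10, 6], .l [3, 12, 8, 4, 4, 2, 6], .l [4, 8], .l [3, 6, 4, 11, 9, 5], .y [5, 7], .l [6, 11, 8, 11, 7, 1, 1, 2, 5], .l [7, 8], .l [6, 9, 7, 10, 5, 1], .l [8, 11, 6, 11, 7, 4, 4, 2, 5], .r 3680 [1, 2, 3, 5, 4] [1, 1, 1, 1, 1, 1], .l [6, 7, 5, 10, 5, 1], .l [3, 10, 6, 4, 4, 2, 2, 0, 3], .l [3, 10, 6, 4, 9, 7, 7, 5, 2], .l [3, 10, 6, 4, 9, 7, 7, 5, 2], .l [6, 7, 5, 8, 3, 8]]),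
([p 3 0, g, m 0 1, g, m 1 2, p 0 0, g, s 2 0, p 0 3, g], .lo 5, [.l [0, 4], .l [5, 10, 4, 2, 5, 3, 4], .l [2, 6], .l [1, 10, 8, 4], .l [3, 10, 6, 2, 6], .l [4, 6], .l [3, 6, 4, 9, 7, 3], .y [5], .l [6, 9, 6, 9, 5, 2, 5], .r 3681 [1, 2, 4, 3] [1, 1, 1, 1, 1], .l [4, 10, 5, 1], .l [3, 8, 4, 2, 2, 0, 3], .l [3, 8, 4, 2, 7, 5, 2], .l [3, 8, 4, 2, 7, 5, 2], .l [4, 8, 3, 8]]),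
([p 2 0, g, m 0 1, p 0 0, g, s 1 0, p 0 2, g], .lo 2, [.l [2, 1], .r 3676 [3, 1, 2] [1, 1, 1, 0, 1], .l [4, 1], .r 3682 [3, 1, 2] [1, 1, 1, 1], .l [3, 0], .r 3668 [1, 3, 2] [1, 1, 1, 1], .l [5, 2], .l [2, 4], .y [2, 5], .r 3674 [1, 2, 3] [1, 1, 1, 1], .l [8, 5], .l [2, 7]]),
([p 8 0, g, m 0 1, g, m 1 2, m 0 3, g, m 3 4, g, m 4 5, g, m 5 6, g, m 6 7, g, m 7 0, g, s 2 0, p 0 8, g], .hi 15, [.l [5, 20, 14, 12, 15, 13, 13, 11, 11, 9, 9, 7, 7, 5, 5, 3, 4], .l [1, 20, 18, 14], .l [2, 16], .l [2, 14], .l [3, 20, 16, 12, 12, 10, 10, 8, 8, 6, 6, 4, 4, 2, 6], .l [3, 6, 4, 19, 17, 13], .l [4, 16], .y [5, 7, 9, 11, 13, 15], .l [3, 7, 15, 15, 13, 13, 11, 11, 9, 12, 6, 4, 9, 5, 2], .l [3, 4, 2, 19, 17, 15, 11, 9, 9, 7, 7, 5, 5, 3, 3,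 1, 3, 1], .l [7, 16], .l [3, 9, 15, 15, 13, 13, 11, 14, 8, 6, 11, 7, 7, 5, 2], .l [8, 11, 9, 9, 7, 16, 11, 7], .l [9, 16], .l [3, 11, 15, 15, 13, 16, 10, 8, 13, 9, 9, 7, 7, 5, 2], .l [10, 13, 11, 11, 9, 9, 7, 14, 9, 5], .l [11, 16], .l [3, 13, 15, 18, 12, 10, 15, 11, 11, 9, 9, 7, 7, 5, 2], .l [12, 15, 13, 13, 11, 11, 9, 9, 7, 12, 7, 3], .l [13, 16], .l [14, 17, 15, 15, 13, 13, 11, 11, 9, 11, 8, 11, 7, 1, 1, 2, 5], .l [14, 17, 15, 15, 13, 13, 11, 11, 9, 9, 7, 10, 5, 1], .l [15, 16], .l [16, 19, 6, 19, 15, 12, 12, 10, 10, 8, 8, 6, 6, 4, 4, 2, 5], .l [14, 15, 13, 13, 11, 11, 9, 9, 7, 7, 5, 10, 5, 1], .l [3, 15, 16, 15, 15, 13, 13, 11, 11, 9, 9, 7, 7, 5, 2, 7, 5, 3], .l [7, 18, 10, 1, 15, 9, 2, 5, 8, 4, 1, 5, 9, 5, 3, 5, 1,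 3], .l [3, 18, 14, 12, 17, 15, 15, 13, 13, 11, 11, 9, 9, 7, 7, 5, 2], .l [14, 15, 13, 13, 11, 11, 9, 9, 7, 7, 5, 8, 3, 8], .l [3, 4, 2, 17, 15, 13, 16, 14, 14, 12, 12, 10, 10, 8, 8, 6, 6, 4]]),
([p 7 0, g, m 0 1, g, m 1 2, m 0 3, g, m 3 4, g, m 4 5, g, m 5 6, g, m 6 0, g, s 2 0, p 0 7, g], .hi 13, [.l [5, 18, 12, 10, 13, 11, 11, 9, 9, 7, 7, 5, 5, 3, 4], .l [1, 18, 16, 12], .l [2, 14], .l [2, 12], .l [3, 18, 14, 10, 10, 8, 8, 6, 6, 4, 4, 2, 6], .l [3, 6, 4, 17, 15, 11], .l [4, 14], .y [5, 7, 9, 11, 13], .l [3, 7, 13, 13, 11, 11, 9, 12, 6, 4, 9, 5, 2], .l [6, 9, 7, 16, 11, 7], .l [7, 14], .l [3, 9, 13, 13, 11, 14, 8, 6, 11, 7, 7, 5, 2], .l [8, 11, 9, 9, 7, 14, 9, 5], .l [9, 14], .l [3, 11, 13, 16, 10, 8, 13, 9, 9, 7, 7, 5,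 2], .l [10, 13, 11, 11, 9, 9, 7, 12, 7, 3], .l [11, 14], .l [12, 15, 13, 13, 11, 11, 9, 11, 8, 11, 7, 1, 1, 2, 5], .l [12, 15, 13, 13, 11, 11, 9, 9, 7, 10, 5, 1], .l [13, 14], .l [14, 17, 6, 17, 13, 10, 10, 8, 8, 6, 6, 4, 4, 2, 5], .l [12, 13, 11, 11, 9, 9, 7, 7, 5, 10, 5, 1], .r 3684 [1, 2, 3, 4, 5, 6, 8, 7] [1, 1, 1, 1, 1, 1, 1, 1, 1], .l [12, 13, 11, 11, 9, 9, 7, 7, 5, 8, 3, 2], .l [3, 16, 12, 10, 15, 13, 13, 11, 11, 9, 9, 7, 7, 5, 2], .l [12, 13, 11, 11, 9, 9, 7, 7, 5, 8, 3, 8], .l [3, 16, 12, 10, 15, 13, 13, 11, 11, 9, 9, 7, 7, 5, 2]]),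
([p 6 0, g, m 0 1, g, m 1 2, m 0 3, g, m 3 4, g, m 4 5, g, m 5 0, g, s 2 0, p 0 6, g], .hi 11, [.l [5, 16, 10, 8, 11, 9, 9, 7, 7, 5, 5, 3, 4], .l [1, 16, 14, 10], .l [2, 12], .l [2, 10], .l [3, 16, 12, 8, 8, 6, 6, 4, 4, 2, 6], .l [3, 6, 4, 15, 13, 9], .l [4, 12], .y [5, 7, 9, 11], .l [3, 7, 11, 11, 9, 12, 6, 4, 9, 5, 2], .l [6, 9, 7, 14, 9, 5], .l [7, 12], .l [3, 9, 11, 14, 8, 6, 11, 7, 7, 5, 2], .l [8, 11, 9, 9, 7, 12, 7, 3], .l [9, 12], .l [10, 13, 11, 11, 9, 11, 8, 11, 7, 1, 1, 2, 5], .l [10, 13, 11, 11, 9, 9, 7, 10, 5, 1], .l [11, 12], .l [12, 15, 6, 15, 11, 8, 8, 6, 6, 4, 4, 2, 5], .l [10, 11, 9, 9, 7, 7, 5, 10, 5, 1], .r 3685 [1, 2, 3, 4, 5, 7, 6] [1, 1, 1, 1, 1, 1, 1, 1], .l [10, 11, 9, 9, 7, 7, 5, 8, 3, 2], .l [3,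 14, 10, 8, 13, 11, 11, 9, 9, 7, 7, 5, 2], .l [10, 11, 9, 9, 7, 7, 5, 8, 3, 8], .l [3, 14, 10, 8, 13, 11, 11, 9, 9, 7, 7, 5, 2]]),
([p 5 0, g, m 0 1, g, m 1 2, m 0 3, g, m 3 4, g, m 4 0, g, s 2 0, p 0 5, g], .hi 9, [.l [5, 14, 8, 6, 9, 7, 7, 5, 5, 3, 4], .l [1, 14, 12, 8], .l [2, 10], .l [2, 8], .l [3, 14, 10, 6, 6, 4, 4, 2, 6], .l [3, 6, 4, 13, 11, 7], .l [4, 10], .y [5, 7, 9], .l [3, 7, 9, 12, 6, 4, 9, 5, 2], .l [6, 9, 7, 12, 7, 3], .l [7, 10], .l [8, 11, 9, 11, 8, 11, 7, 1, 1, 2, 5], .l [8, 11, 9, 9, 7, 10, 5, 1], .l [9, 10], .l [10, 13, 6, 13, 9, 6, 6, 4, 4, 2, 5], .l [8, 9, 7, 7, 5, 10, 5, 1], .r 3686 [1, 2, 3, 4, 6, 5] [1, 1, 1, 1, 1, 1, 1], .l [8, 9, 7, 7, 5, 8, 3, 2], .l [3, 12, 8, 6, 11, 9, 9, 7, 7, 5, 2], .l [8,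 9, 7, 7, 5, 8, 3, 8], .l [3, 12, 8, 6, 11, 9, 9, 7, 7, 5, 2]]),
([p 4 0, g, m 0 1, g, m 1 2, m 0 3, g, m 3 0, g, s 2 0, p 0 4, g], .hi 7, [.l [5, 12, 6, 4, 7, 5, 5, 3, 4], .l [1, 12, 10, 6], .l [2, 8], .l [2, 6], .l [3, 12, 8, 4, 4, 2, 6], .l [3, 6, 4, 11, 9, 5], .l [4, 8], .y [5, 7], .l [6, 11, 8, 11, 7, 1, 1, 2, 5], .l [6, 9, 7, 10, 5, 1], .l [7, 8], .l [8, 11, 6, 11, 7, 4, 4, 2, 5], .l [6, 7, 5, 10, 5, 1], .r 3687 [1, 2, 3, 5, 4] [1, 1, 1, 1, 1, 1], .l [6, 7, 5, 8, 3, 2], .l [3, 10, 6, 4, 9, 7, 7, 5, 2], .l [6, 7, 5, 8, 3, 8], .l [3, 10, 6, 4, 9, 7, 7, 5, 2]]),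
([p 3 0, g, m 0 1, g, m 1 2, m 0 0, g, s 2 0, p 0 3, g], .hi 5, [.l [5, 10, 4, 2, 5, 3, 4], .l [1, 10, 8, 4], .l [2, 6], .l [2, 4], .l [3, 10, 6, 2, 6], .l [3, 6, 4, 9, 7, 3], .l [4, 6], .y [5], .l [6, 9, 6, 9, 5, 2, 5], .l [4, 10, 5, 1], .r 3688 [1, 2, 4, 3] [1, 1, 1, 1, 1], .l [4, 8, 3, 2], .l [3, 8, 4, 2, 7, 5, 2], .l [4, 8, 3, 8], .l [3, 8, 4, 2, 7, 5, 2]]),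
([p 5 0, g, m 6 1, m 0 2, g, m 2 3, g, m 3 4, g, m 4 0, g, s 1 0, p 0 5, g, s 0 6, g], .lo 12, [.y [0, 12], .l [7, 14, 6, 1, 11, 2, 5, 1, 8, 4, 7, 5, 1], .l [2, 13], .l [1, 14, 12, 11], .l [4, 7, 5, 12, 9, 8, 9], .l [5, 13], .l [2, 15, 10, 8, 12], .l [6, 9, 7, 7, 5, 10, 7, 6, 7], .l [7, 13], .l [2, 15, 8, 6, 12], .l [8, 11, 9, 9, 7, 7, 5, 8, 5, 4, 5], .l [9, 13], .l [2, 15, 6, 4, 12], .l [2, 13, 4, 2, 10], .l [10, 14, 3, 2, 3], .l [11, 13], .l [2, 15, 4, 2, 12], .c, .l [3, 12, 8, 1, 9, 12, 5, 1, 3, 6, 7, 5, 1], .l [3, 12, 8, 1, 9, 12, 5, 1, 3, 6, 7], .l [3, 12, 8, 1, 9, 12, 1, 8, 9], .l [5, 12, 6, 1, 9, 2, 3, 10, 5, 1, 1, 4, 1], .l [2, 13, 15, 13, 10], .l [11, 12, 0, 14]]),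
([p 4 0, g, m 5 1, m 0 2, g, m 2 3, g, m 3 0, g, s 1 0, p 0 4, g, s 0 5, g], .hi 7, [.l [1, 12, 10, 6, 6, 4, 4, 2, 6], .l [1, 12, 10, 6], .l [2, 8], .y [3, 5, 7], .l [4, 12, 7, 3, 3, 1, 1, 5, 6], .l [2, 13, 8, 3, 6, 7, 1], .l [5, 8], .l [6, 9, 7, 10, 5, 1, 1, 5, 6], .l [6, 9, 7, 7, 5, 8, 5, 1], .l [7, 8], .l [8, 12, 3, 9, 9, 7, 7, 5, 6], .l [4, 5, 3, 11, 6, 1, 4, 5, 1], .r 3690 [1, 2, 3, 6, 4, 5] [1, 1, 1, 1, 1, 1, 1], .l [2, 11, 4, 2, 8], .l [6, 10, 3, 9, 1, 7, 9, 4, 1], .l [6, 7, 5, 5, 3, 6, 3, 6], .l [1, 10, 8, 6, 9, 7, 7, 5, 5, 3, 4], .l [6, 10, 3, 9, 1, 7, 7, 2, 1], .l [6, 7, 5, 8, 3, 9, 1, 2, 6], .l [6, 7, 5, 5, 3, 6, 3, 8], .l [1, 10, 8, 6, 11, 9, 9, 7, 7, 5, 2]]),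
([p 5 0, g, s 0 1, g, m 6 2, m 0 3, g, m 3 4, g, s 2 0, p 1 5, g, s 4 0, g, s 0 6, g], .hi 9, [.l [8, 9, 7, 13, 11, 7, 4, 6, 4, 5], .l [3, 12, 8, 7, 8], .l [5, 12, 6, 4, 7, 2, 6], .l [1, 10, 8, 7, 6], .l [11, 6, 11, 0, 1, 8, 4, 8, 6, 6, 4, 5], .l [10, 12, 1, 6, 1, 4, 1], .l [1, 12, 10, 9, 6], .l [1, 10, 8, 7, 3], .l [10, 12, 1, 7, 2, 5, 1, 6, 2, 7], .l [3, 12, 8, 6, 6, 2, 4, 2, 9], .l [1, 12, 10, 9, 3], .l [1, 12, 10, 9, 1, 10, 6, 6, 4, 7], .l [10, 12, 1, 9, 4, 7, 1], .l [1, 12, 10, 9, 1], .l [8, 10, 1, 9, 4, 7, 1, 8, 4, 4, 2, 5], .l [1, 10, 8, 7, 8], .l [3, 10, 6, 4, 9, 4, 1], .l [1, 10, 8, 7, 10, 1, 6, 6, 4, 7], .l [1, 10, 8, 7, 10], .l [3, 10, 6, 4, 11, 6, 1], .y [4, 9, 14], .l [1, 10, 8, 7, 12, 3, 8, 8, 6, 3], .l [1,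 10, 8, 7, 12], .l [3, 10, 6, 4, 13, 8, 1]]),
([p 4 0, g, m 5 1, m 0 2, g, m 2 3, g, s 1 0, p 0 4, g, s 3 0, g, s 0 5, g], .lo 8, [.y [0, 8], .r 3692 [6, 1, 2, 3, 4, 5] [1, 1, 1, 1, 1, 1, 1], .l [2, 9], .l [1, 10, 8, 7], .l [4, 7, 5, 8, 5, 4, 5], .l [5, 9], .l [2, 13, 8, 4, 10], .l [6, 10, 3, 2, 3], .l [7, 9], .l [2, 13, 6, 2, 10], .c, .l [9, 12, 7, 10, 5, 4, 5, 3, 4, 5], .l [4, 5, 3, 6, 3, 8, 3, 4, 1], .l [3, 8, 4, 1, 5, 10, 3, 6, 7], .l [4, 5, 3, 6, 3, 6, 6, 2, 3], .l [4, 8, 3, 7, 2, 3, 6, 1, 2, 5], .l [4, 5, 3, 6, 3, 6, 8, 4, 5], .l [3, 8, 4, 1, 5, 10, 1, 6, 7], .l [4, 5, 3, 9, 11, 7, 4, 6, 4, 5], .l [2, 11, 13, 9, 6], .l [7, 8, 0, 12]]),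
([p 3 0, g, m 4 1, m 0 2, g, m 2 0, g, s 1 0, p 0 3, g, s 0 4, g], .hi 5, [.l [1, 10, 8, 4, 4, 2, 6], .l [1, 10, 8, 4], .l [2, 6], .y [3, 5], .l [4, 10, 5, 1, 1, 5, 6], .l [4, 7, 5, 8, 5, 1], .l [5, 6], .l [6, 10, 3, 7, 7, 5, 6], .l [2, 11, 6, 1, 4, 5, 1], .r 3691 [1, 2, 5, 3, 4] [1, 1, 1, 1, 1, 1], .l [2, 9, 4, 2, 6], .r 3693 [1, 2, 5, 3, 4] [1, 1, 1, 1, 1, 1], .l [4, 5, 3, 6, 3, 6], .l [1, 8, 6, 4, 7, 5, 5, 3, 4], .l [1, 8, 6, 4, 1, 5, 5, 2, 1], .l [4, 8, 3, 9, 1, 2, 6], .l [4, 5, 3, 6, 3, 8], .l [1, 8, 6, 4, 9, 7, 7, 5, 2]]),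
([p 2 0, g, m 3 1, m 0 0, g, s 1 0, p 0 2, g, s 0 3, g], .hi 3, [.l [1, 8, 6, 2, 6], .l [1, 8, 6, 2], .l [2, 4], .y [3], .l [4, 8, 3, 5, 6], .l [2, 8, 5, 1], .r 3694 [1, 4, 2, 3] [1, 1, 1, 1, 1], .l [2, 7, 4, 2, 5], .l [10, 7, 4], .l [2, 6, 3, 6], .l [1, 6, 4, 2, 5, 3, 4], .l [8, 5, 4], .l [8, 5, 8], .l [2, 6, 3, 8], .l [1, 6, 4, 2, 7, 5, 2]]),
([p 4 0, g, s 0 1, g, m 1 2, m 0 3, g, m 3 0, g, s 2 0, p 0 4, g], .hi 7, [.l [1, 12, 10, 6, 6, 4, 1], .l [1, 12, 10, 6], .l [2, 8], .l [1, 10, 8, 4, 4, 2, 1], .l [3, 12, 8, 4, 4, 2, 6], .l [3, 12, 8, 4], .l [4, 8], .y [5, 7], .l [6, 9, 7, 1, 9, 5, 1], .l [6, 9, 7, 1, 9, 5, 1], .l [7, 8], .l [6, 7, 5, 1, 9, 5, 1], .l [6, 7, 5, 1, 9, 5, 1], .l [6, 11, 8, 4, 7, 3, 8, 2, 5], .l [6, 7,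 5, 1, 7, 3, 2], .l [6, 7, 5, 1, 7, 3, 6], .l [6, 7, 5, 1, 7, 3, 6], .l [3, 10, 6, 4, 9, 7, 7, 5, 2]]),
([p 3 0, g, s 0 1, g, m 1 2, m 0 0, g, s 2 0, p 0 3, g], .hi 5, [.l [1, 10, 8, 4, 1], .l [1, 10, 8, 4], .l [2, 6], .l [1, 8, 6, 2, 1], .l [3, 10, 6, 2, 6], .l [3, 10, 6, 2], .l [4, 6], .y [5], .l [4, 1, 9, 5, 1], .l [4, 1, 9, 5, 1], .r 3696 [1, 2, 4, 3] [1, 1, 1, 1, 1], .l [4, 1, 7, 3, 2], .l [4, 1, 7, 3, 6], .l [4, 1, 7, 3, 6], .l [3, 8, 4, 2, 7, 5, 2]]),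
([p 6 0, g, m 5 1, m 0 2, g, m 2 3, g, m 3 4, g, m 4 0, g, s 0 5, g, s 1 0, p 0 6, g], .lo 14, [.y [0, 14], .l [9, 11, 10, 15, 6, 1, 11, 2, 5, 1, 8, 4, 1], .l [2, 15], .l [1, 16, 14, 13], .l [4, 7, 5, 14, 11, 10, 11], .l [5, 15], .l [2, 12, 7, 13, 13, 8, 5], .l [6, 9, 7, 7, 5, 12, 9, 8, 9], .l [7, 15], .l [4, 5, 3, 10, 5, 11, 11, 6, 3], .l [8, 11, 9, 9, 7, 7, 5, 10, 7, 6, 7], .l [9, 15], .l [5, 16, 10, 1, 13, 11, 6, 7, 3, 8, 8, 6, 1], .l [5, 14, 8, 1, 11, 9, 4, 5, 1, 6, 6, 4, 1], .l [10, 16, 5, 4, 5], .l [11, 15], .l [10, 16, 5, 4], .l [12, 16, 3, 2, 3], .l [13, 15], .l [12, 16, 3, 2], .c, .l [5, 14, 8, 1, 11, 2, 3, 10, 3, 1, 1, 4, 1], .l [5, 14, 8, 1, 11, 13, 8, 9, 5, 1, 1, 6, 1], .l [13, 14, 0, 14]]),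
([p 7 0, g, s 0 1, g, m 6 2, m 0 3, g, m 3 4, g, m 4 5, g, s 0 6, g, s 2 0, p 1 7, g, s 5 0, g], .lo 11, [.l [8, 9, 7, 7, 5, 6, 6, 3, 7, 3, 6], .l [10, 11, 9, 14, 5, 13, 2, 7, 3, 1, 6, 6, 4, 5], .l [10, 11, 9, 9, 7, 8, 8, 3, 9, 3, 8], .l [3, 16, 12, 11, 15, 10, 10, 8, 8, 6, 7, 7, 3], .l [10, 11, 9, 9, 7, 8, 8, 1, 3, 7, 4, 6, 4, 5], .l [10, 11, 9, 9, 7, 8, 8, 1, 9, 3, 8], .l [5, 16, 10, 8, 15, 11, 11, 9, 9, 7, 8, 8, 4], .l [12, 16, 3, 9, 11, 9, 6], .l [13, 5, 15, 2, 9, 2, 10], .l [12, 16, 3, 9, 11, 9, 6], .l [12, 16, 3, 11, 13, 11, 11, 9, 6], .l [5, 16, 10, 1, 13, 6, 6, 8, 1, 8, 1, 4, 1], .l [12, 16, 3, 11, 13, 11, 11, 9, 6], .l [12, 16, 3, 13, 6, 9, 1, 12, 8, 8, 6, 6, 4, 1], .l [7, 16, 8, 1, 13, 2, 5, 1, 10, 6, 1, 1, 1],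 .l [1, 16, 14, 13, 15, 8, 8, 6, 6, 4, 7, 7, 5], .l [8, 9, 7, 7, 5, 6, 8, 1, 9, 3, 8, 1, 4, 1], .l [8, 9, 7, 7, 5, 6, 8, 1, 9, 3, 8], .l [1, 16, 14, 13, 15, 8, 8, 6, 6, 4, 5, 5, 5], .y [4, 13, 11], .l [8, 9, 7, 12, 5, 13, 4, 7, 1, 3, 6, 6, 4, 5], .l [7, 9, 8, 8, 6, 7, 12, 4, 8, 5, 1, 4, 1], .l [1, 14, 12, 11, 15, 10, 10, 8, 8, 6, 7, 7, 3], .l [10, 14, 3, 13, 13, 11, 11, 9, 9, 7, 6], .l [8, 14, 5, 13, 1, 11, 13, 11, 11, 4, 1, 3, 6, 1], .l [1, 14, 12, 11, 13, 8, 8, 6, 6, 4, 5, 9, 3], .l [1, 14, 12, 11, 13, 8, 8, 6, 6, 4, 5, 5, 7]]),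
([p 6 0, g, m 5 1, m 0 2, g, m 2 3, g, m 3 4, g, s 0 5, g, s 1 0, p 0 6, g, s 4 0, g], .lo 12, [.y [0, 12], .r 3699 [7, 1, 2, 3, 4, 5, 6] [1, 1, 1, 1, 1, 1, 1, 1], .l [2, 13], .l [1, 14, 12, 11], .l [4, 7, 5, 12, 9, 8, 9], .l [5, 13], .l [2, 10, 5, 11, 11, 6, 3], .l [6, 9, 7, 7, 5, 10, 7, 6, 7], .l [7, 13], .l [4, 5, 3, 8, 3, 9, 9, 4, 1], .l [8, 14, 5, 4, 5], .l [9, 13], .l [6, 7, 5, 5, 3, 6, 1, 7, 7, 2, 7], .l [10, 14, 3, 2, 3], .l [11, 13], .l [6, 7, 5, 5, 3, 10, 7, 10, 6, 2, 3], .c, .l [13, 16, 9, 9, 7, 12, 7, 6, 7, 3, 6, 1], .l [6, 7, 5, 5, 3, 8, 5, 10, 3, 4, 1], .l [11, 12, 0, 12], .l [6, 7, 5, 5, 3, 8, 5, 8, 8, 4, 5], .l [6, 7, 5, 10, 5, 9, 2, 3, 8, 1, 4, 1], .l [6, 7, 5, 5, 3, 8, 5, 8, 10, 6, 7], .l [11, 12, 0, 14]]),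
([p 5 0, g, m 4 1, m 0 2, g, m 2 3, g, m 3 0, g, s 0 4, g, s 1 0, p 0 5, g], .hi 7, [.l [1, 14, 12, 6, 6, 4, 4, 2, 3], .l [1, 14, 12, 6], .l [2, 8], .y [3, 5, 7], .l [4, 14, 9, 3, 3, 1, 1, 7, 4], .l [4, 7, 5, 12, 9, 3], .l [5, 8], .l [6, 9, 7, 12, 7, 1, 1, 7, 4], .l [6, 9, 7, 7, 5, 10, 7, 1], .l [7, 8], .l [8, 14, 5, 11, 11, 9, 9, 7, 4], .l [6, 7, 5, 5, 3, 10, 7, 1], .r 3698 [1, 2, 3, 6, 4, 5] [1, 1, 1, 1, 1, 1, 1], .l [8, 12, 3, 9, 9, 7, 7, 5, 4], .l [10, 14, 3, 9, 9, 7, 7, 5, 6], .l [4, 5, 3, 6, 1, 6, 9, 5, 1], .l [6, 7, 5, 11, 8, 2, 7, 3, 8, 2, 5], .l [4, 5, 3, 6, 1, 7, 7, 2, 1], .r 3700 [1, 2, 3, 6, 4, 5] [1, 1, 1, 1, 1, 1, 1], .l [6, 7, 5, 5, 3, 8, 5, 8], .l [1, 12, 10, 8, 11, 7, 7, 5, 5, 3, 4]]),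
([p 6 0, g, s 0 1, g, m 5 2, m 0 3, g, m 3 4, g, s 0 5, g, s 2 0, p 1 6, g, s 4 0, g], .hi 11, [.l [8, 9, 7, 8, 6, 9, 6, 8, 6, 7], .l [3, 14, 10, 9, 10], .l [5, 14, 8, 6, 9, 2, 8], .l [1, 12, 10, 9, 8], .l [13, 8, 13, 0, 1, 10, 6, 10, 6, 6, 4, 5], .l [12, 14, 1, 6, 1, 4, 1], .l [1, 14, 12, 11, 8], .l [1, 12, 10, 9, 5], .l [12, 14, 1, 7, 2, 5, 1, 6, 2, 5], .l [3, 14, 10, 8, 8, 2, 4, 2, 3], .l [1, 14, 12, 11, 5], .l [1, 14, 12, 11, 3, 12, 6, 6, 4, 7], .l [12, 14, 1, 9, 4, 7, 1], .l [1, 14, 12, 11, 3], .y [4, 11, 9], .l [1, 14, 12, 11, 1, 12, 6, 6, 4, 5], .l [12, 14, 1, 11, 6, 9, 1], .l [1, 14, 12, 11, 1], .l [10, 12, 1, 11, 6, 9, 1, 10, 4, 4, 2, 3], .l [1, 12, 10, 9, 10], .l [3, 12, 8, 6, 11, 4, 1], .l [1, 12, 10, 9, 12, 1,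 6, 6, 4, 5], .l [1, 12, 10, 9, 12], .l [3, 12, 8, 6, 13, 6, 1]]),
([p 5 0, g, m 4 1, m 0 2, g, m 2 3, g, s 0 4, g, s 1 0, p 0 5, g, s 3 0, g], .lo 10, [.y [0, 10], .r 3702 [6, 1, 2, 3, 4, 5] [1, 1, 1, 1, 1, 1, 1], .l [2, 11], .l [1, 12, 10, 9], .l [4, 7, 5, 10, 7, 6, 7], .l [5, 11], .l [2, 8, 3, 9, 9, 4, 1], .l [6, 12, 5, 4, 5], .l [7, 11], .l [4, 5, 3, 6, 1, 7, 7, 2, 7], .l [8, 12, 3, 2, 3], .l [9, 11], .l [4, 5, 3, 10, 7, 10, 6, 2, 3], .c, .l [11, 14, 7, 12, 7, 6, 7, 3, 6, 1], .l [4, 5, 3, 8, 5, 10, 3, 4, 1], .l [9, 10, 0, 10], .l [4, 5, 3, 8, 5, 8, 8, 4, 5], .l [4, 10, 5, 9, 2, 3, 8, 1, 4, 1], .l [4, 5, 3, 8, 5, 8, 10, 6, 7], .l [9, 10, 0, 12]]),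
([p 4 0, g, m 3 1, m 0 2, g, m 2 0, g, s 0 3, g, s 1 0, p 0 4, g], .hi 5, [.l [1, 12, 10, 4, 4, 2, 3], .l [1, 12, 10, 4], .l [2, 6], .y [3, 5], .l [4, 12, 7, 1, 1, 7, 4], .l [4, 7, 5, 10, 7, 1], .l [5, 6], .l [6, 12, 5, 9, 9, 7, 4], .l [4, 5, 3, 10, 7, 1], .r 3701 [1, 2, 5, 3, 4] [1, 1, 1, 1, 1, 1], .l [6, 10, 3, 7, 7, 5, 4], .l [8, 12, 3, 7, 7, 5, 6], .l [2, 6, 1, 6, 9, 5, 1], .l [4, 11, 8, 2, 7, 3, 8, 2, 5], .l [2, 6, 1, 7, 7, 2, 1], .r 3703 [1, 2, 5, 3, 4] [1, 1, 1, 1, 1, 1], .l [4, 5, 3, 8, 5, 8], .l [1, 10, 8, 6, 9, 5, 5, 3, 4]]),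
([p 3 0, g, m 2 1, m 0 0, g, s 0 2, g, s 1 0, p 0 3, g], .hi 3, [.l [1, 10, 8, 2, 3], .l [1, 10, 8, 2], .l [2, 4], .y [3], .l [4, 10, 5, 7, 4], .l [2, 10, 7, 1], .r 3704 [1, 4, 2, 3] [1, 1, 1, 1, 1], .l [4, 8, 3, 5, 4], .l [5, 2, 5], .l [2, 10, 7, 3], .l [1, 10, 8, 6, 3, 4, 1], .l [2, 8, 5, 4], .l [5, 2, 8], .l [2, 8, 5, 8], .l [1, 8, 6, 4, 7, 3, 4]]),
([p 2 0, g, m 0 1, m 0 0, g, s 1 0, p 0 2, g], .lo 2, [.l [2, 1], .r 3697 [3, 1, 2] [1, 1, 1, 1], .l [4, 1], .r 3689 [3, 1, 2] [1, 1, 1, 1], .c, .r 3705 [1, 3, 2] [1, 1, 1, 1], .l [5, 2], .l [2, 4], .y [2, 5], .r 3695 [1, 2, 3] [1, 1, 1, 1], .l [8, 5], .l [2, 7]]),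
([p 4 0, g, s 1 0, g, s 0 1, m 0 2, g, s 2 3, p 5 4, g, p 0 5, g, m 3 0, g], .top 6, [.r 3660 [2, 4] [4, 5], .r 3659 [1, 2, 3, 4, 5] [1, 1, 1, 1, 1, 1], .r 3683 [2, 4] [4, 1, 5], .r 3706 [2, 4] [4, 1, 5]]),
([p 3 0, g, s 0 0, m 0 1, g, s 1 2, p 4 3, g, p 0 4, g, m 2 5, g, m 5 6, g, m 6 7, g, m 7 0, g], .hi 2, [.r 3707 [8, 1, 2, 3, 4] [1, 1, 1, 1, 1, 7], .r 3655 [8, 1, 2, 3, 4, 5] [1, 1, 1, 1, 1, 1, 5], .l [4, 1, 7, 3, 1], .y [2], .l [3, 0, 3], .l [16, 10, 16, 13, 14, 10, 10, 8, 8, 6, 2, 4, 5], .l [4, 8, 3, 4, 7, 5, 2], .l [5, 2, 5], .l [16, 8, 13, 1, 16, 11, 11, 9, 9, 7, 7, 8, 1], .l [4, 6, 1, 3, 4], .l [8, 5, 1], .l [4, 6, 1, 3, 4], .l [10, 7, 1, 8, 5, 10, 11, 10, 10, 8, 8, 6, 3], .l [4, 6, 1, 3, 6], .l [10, 7, 1], .l [2,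 11, 13, 11, 4, 1, 5, 3, 8, 4, 5, 7, 5], .l [4, 6, 1, 3, 8], .l [12, 9, 1], .l [2, 13, 8, 1, 9, 7, 1, 6, 3, 3, 1, 7, 5], .l [4, 6, 1, 3, 10], .l [14, 11, 1], .l [4, 6, 1, 3, 12, 14, 12, 12, 10, 10, 8, 8, 4], .l [4, 6, 1, 3, 12], .l [16, 13, 1], .l [2, 17, 12, 1, 13, 11, 1, 10, 7, 7, 5, 5, 3], .l [4, 6, 1, 3, 14], .l [18, 15, 1]]),
([p 3 0, g, s 0 0, m 0 1, g, s 1 2, p 4 3, g, p 0 4, g, m 2 5, g, m 5 6, g, m 6 0, g], .hi 14, [.l [15, 16, 14, 14, 12, 12, 7, 8, 1, 2, 7, 5, 2], .l [1, 8, 6, 13], .l [2, 15], .l [4, 6, 1, 3, 10], .y [3, 5, 10, 12, 14], .l [4, 8, 3, 13, 7, 10, 7], .l [4, 8, 3, 13], .l [5, 15], .l [7, 12, 9, 10, 5, 11, 3, 6, 7], .l [7, 10, 8, 8, 2, 12], .l [8, 15], .l [7, 8, 6, 6, 0, 10], .l [9, 12, 7, 8, 3, 11,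 5, 8, 5], .l [9, 12, 7, 8, 3, 11, 5, 8, 5], .l [10, 15], .l [11, 14, 12, 12, 7, 8, 3, 9, 3, 6, 3], .l [11, 14, 12, 12, 7, 8, 3, 9, 3, 6, 3], .l [12, 15], .l [15, 16, 12, 12, 10, 10, 5, 6, 1, 7, 3, 6, 3], .l [15, 16, 12, 12, 10, 10, 5, 6, 1, 7, 3, 6, 3], .l [14, 15], .l [13, 14, 12, 12, 10, 10, 5, 6, 1, 7, 3, 6, 3], .l [13, 14, 12, 12, 10, 10, 5, 6, 1, 7, 3, 6, 3], .r 3708 [1, 2, 3, 4, 5, 6, 7] [1, 1, 1, 1, 1, 1, 1, 1]]),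
([p 3 0, g, s 0 0, m 0 1, g, s 1 2, p 4 3, g, p 0 4, g, m 2 5, g, m 5 0, g], .hi 12, [.l [13, 14, 12, 12, 7, 8, 1, 2, 7, 5, 2], .l [1, 8, 6, 11], .l [2, 13], .l [4, 6, 1, 3, 8], .y [3, 5, 10, 12], .l [4, 8, 3, 11, 5, 8, 5], .l [4, 8, 3, 11], .l [5, 13], .l [7, 12, 9, 10, 5, 9, 1, 4, 5], .l [7, 10, 8, 8, 2, 10], .l [8, 13], .l [7, 8, 6, 6, 0, 8], .l [9, 12, 7, 8, 3, 9, 3, 6, 3], .l [9, 12, 7, 8, 3, 9, 3, 6, 3], .l [10, 13], .l [13, 14, 10, 10, 5, 6, 1, 7, 3, 6, 3], .l [13, 14, 10, 10, 5, 6, 1, 7, 3, 6, 3], .l [12, 13], .l [11, 12, 10, 10, 5, 6, 1, 7, 3, 6, 3], .l [11, 12, 10, 10, 5, 6, 1, 7, 3, 6, 3], .r 3709 [1, 2, 3, 4, 5, 6] [1, 1, 1, 1, 1, 1, 1]]),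
([p 3 0, g, s 0 0, m 0 1, g, s 1 2, p 4 3, g, p 0 4, g, m 2 0, g], .hi 10, [.l [11, 12, 7, 8, 1, 2, 7, 5, 2], .l [1, 8, 6, 9], .l [2, 11], .l [4, 6, 1, 3, 6], .y [3, 5, 10], .l [4, 8, 3, 9, 3, 6, 3], .l [4, 8, 3, 9], .l [5, 11], .l [11, 12, 5, 6, 1, 5, 7, 2, 4], .l [7, 10, 8, 8, 2, 8], .l [8, 11], .l [7, 8, 6, 6, 0, 6], .l [11, 12, 5, 6, 1, 7, 3, 6, 3], .l [11, 12, 5, 6, 1, 7, 3, 6, 3], .l [10, 11], .l [9, 10, 5, 6, 1, 7, 3, 6, 3], .l [9, 10, 5, 6, 1, 7, 3, 6, 3], .r 3710 [1, 2, 3, 4, 5] [1, 1, 1, 1, 1, 1]])]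

def d14_2 : List (List Item × Qry × List Rf) := [
([p 3 1, g, m 2 0, g, s 1 0, g, s 0 2, p 0 3, g], .lo 7, [.l [1, 9, 7, 6, 3], .l [2, 8], .l [0, 5, 3, 6, 3], .l [0, 3, 1, 4, 3], .l [8, 5, 8, 0, 5], .l [4, 8], .l [3, 9, 5, 4], .y [0, 4, 7], .l [8, 5, 8, 0, 3], .l [6, 8], .l [5, 9, 3, 2], .l [6, 3, 6, 0, 5], .r 3469 [1, 2, 3, 4] [1, 1, 1, 1, 1], .l [6, 3, 6, 0, 5]]),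
([p 2 0, g, m 1 0, g, s 0 1, p 0 2, s 0 0, g], .hi 0, [.r 3652 [3, 1, 2] [1, 1, 1, 2], .l [0, 1], .l [2, 1], .r 3712 [3, 1, 2] [1, 1, 1, 2], .l [0, 3], .l [4, 3], .r 3502 [3, 1, 2] [1, 1, 0, 2], .y [0, 5], .l [0, 5, 4], .r 3639 [3, 2] [4, 1, 1], .l [0, 7], .l [8, 7]]),
([p 2 0, g, m 1 0, g, s 0 1, p 0 2, g], .top 6, [.r 2583 [2] [4], .r 3713 [1, 2] [1, 1, 1], .r 2528 [2] [4, 1], .r 3376 [2] [4, 1]]),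
([p 3 0, g, s 0 0, m 0 1, g, s 1 2, p 5 3, g, m 2 4, g, p 0 5, g, m 4 6, g, m 6 7, g, m 7 8, g, m 8 0, g], .lo 10, [.y [0, 10, 6], .l [11, 9, 10, 3, 9, 5, 6], .l [2, 11], .l [1, 8, 6, 9], .l [4, 6, 1, 3, 6], .l [4, 8, 3, 9, 9, 2, 4], .l [5, 11], .l [4, 8, 3, 9], .l [7, 10, 7, 8, 3, 7, 7, 2, 4], .l [8, 11], .l [7, 12, 10, 10, 4, 3], .l [9, 14, 12, 12, 9, 10, 5, 1, 1, 2, 4], .l [10, 11], .l [9, 12, 8, 8, 2, 1], .l [11, 14, 10, 10, 7, 8, 3, 7, 7, 2, 4], .l [9, 18, 11, 7, 16, 18, 12, 6, 14, 4, 4, 6, 11, 0, 8, 4, 2, 1], .l [9, 10, 6, 6, 0, 8], .l [9, 12, 10, 10, 7, 8, 3, 7, 1, 4, 5], .l [12, 1, 14, 11, 1, 10, 7, 8, 10, 1, 8, 1, 8, 1, 3, 1, 7, 5], .l [9, 10, 6, 6, 0, 10], .l [9, 12, 10, 10, 7, 8, 3, 9, 3, 6, 7], .l [8, 2, 7, 6,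 8, 1, 8, 1, 10, 3, 8, 6, 8, 1, 3, 1, 7, 5], .l [9, 10, 6, 6, 0, 12], .l [9, 12, 10, 10, 7, 8, 3, 11, 5, 8, 9], .l [8, 2, 7, 6, 8, 1, 8, 1, 12, 5, 10, 8, 8, 6, 8, 1, 3, 1], .l [8, 2, 7, 6, 8, 1, 8, 1, 3, 1, 5, 9, 11, 9, 9, 7, 7, 5], .l [8, 2, 7, 6, 8, 1, 8, 1, 3, 1, 5, 9, 9, 7, 7, 5, 5, 3], .l [9, 12, 10, 10, 7, 8, 3, 13, 7, 10, 11], .l [8, 2, 14, 15, 13, 17, 13, 15, 8, 2, 6, 8, 1, 10, 7, 1, 6, 3], .l [9, 10, 6, 6, 0, 16]]),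
([p 3 0, g, s 0 0, m 0 1, g, s 1 2, p 5 3, g, m 2 4, g, p 0 5, g, m 4 6, g, m 6 7, g, m 7 0, g], .hi 16, [.l [17, 18, 16, 16, 14, 14, 10, 10, 7, 8, 1, 2, 7, 5, 2], .l [1, 8, 6, 15], .l [2, 17], .l [4, 6, 1, 3, 12], .y [3, 5, 8, 12, 14, 16], .l [4, 8, 3, 15, 15, 13, 13, 11, 11, 7, 9, 4, 6], .l [4, 8, 3, 15], .l [5, 17], .l [7, 10, 7, 8, 3, 13, 7, 10, 7], .l [7, 12, 10, 10, 4, 14], .l [8, 17], .l [9, 14, 12, 12, 9, 10, 5, 11, 3, 6, 7], .l [9, 12, 8, 8, 2, 14], .l [10, 17], .l [9, 10, 6, 6, 0, 12], .l [11, 14, 10, 10, 7, 8, 3, 11, 5, 8, 5], .l [11, 14, 10, 12, 10, 10, 4, 12], .l [12, 17], .l [13, 16, 14, 14, 10, 10, 7, 8, 3, 9, 3, 6, 3], .l [13, 16, 14, 14, 10, 12, 10, 10, 4, 10], .l [14, 17], .l [17, 18, 14, 14, 12, 12, 8,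 8, 5, 6, 1, 7, 3, 6, 3], .l [15, 18, 16, 16, 14, 14, 10, 12, 10, 10, 4, 1], .l [16, 17], .l [15, 16, 14, 14, 12, 12, 8, 8, 5, 6, 1, 7, 3, 6, 3], .l [15, 16, 14, 14, 12, 12, 8, 10, 8, 8, 2, 8], .r 3715 [1, 2, 3, 4, 5, 6, 7, 8] [1, 1, 1, 1, 1, 1, 1, 1, 1]]),
([p 3 0, g, s 0 0, m 0 1, g, s 1 2, p 5 3, g, m 2 4, g, p 0 5, g, m 4 6, g, m 6 0, g], .hi 14, [.l [15, 16, 14, 14, 10, 10, 7, 8, 1, 2, 7, 5, 2], .l [1, 8, 6, 13], .l [2, 15], .l [4, 6, 1, 3, 10], .y [3, 5, 8, 12, 14], .l [4, 8, 3, 13, 13, 11, 11, 7, 9, 4, 6], .l [4, 8, 3, 13], .l [5, 15], .l [7, 10, 7, 8, 3, 11, 5, 8, 5], .l [7, 12, 10, 10, 4, 12], .l [8, 15], .l [9, 14, 12, 12, 9, 10, 5, 9, 1, 4, 5], .l [9, 12, 8, 8, 2, 12], .l [10, 15], .l [9, 10, 6, 6, 0, 10], .l [11,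 14, 10, 10, 7, 8, 3, 9, 3, 6, 3], .l [11, 14, 10, 12, 10, 10, 4, 10], .l [12, 15], .l [15, 16, 12, 12, 8, 8, 5, 6, 1, 7, 3, 6, 3], .l [13, 16, 14, 14, 10, 12, 10, 10, 4, 1], .l [14, 15], .l [13, 14, 12, 12, 8, 8, 5, 6, 1, 7, 3, 6, 3], .l [13, 14, 12, 12, 8, 10, 8, 8, 2, 8], .r 3716 [1, 2, 3, 4, 5, 6, 7] [1, 1, 1, 1, 1, 1, 1, 1]]),
([p 3 0, g, s 0 0, m 0 1, g, s 1 2, p 5 3, g, m 2 4, g, p 0 5, g, m 4 0, g], .hi 12, [.l [13, 14, 10, 10, 7, 8, 1, 2, 7, 5, 2], .l [1, 8, 6, 11], .l [2, 13], .l [4, 6, 1, 3, 8], .y [3, 5, 8, 12], .l [4, 8, 3, 11, 11, 7, 9, 4, 6], .l [4, 8, 3, 11], .l [5, 13], .l [7, 10, 7, 8, 3, 9, 3, 6, 3], .l [7, 12, 10, 10, 4, 10], .l [8, 13], .l [13, 14, 8, 8, 5, 6, 1, 5, 7, 2, 4], .l [9, 12, 8, 8, 2, 10],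 .l [10, 13], .l [9, 10, 6, 6, 0, 8], .l [13, 14, 8, 8, 5, 6, 1, 7, 3, 6, 3], .l [11, 14, 10, 12, 10, 10, 4, 1], .l [12, 13], .l [11, 12, 8, 8, 5, 6, 1, 7, 3, 6, 3], .l [11, 12, 8, 10, 8, 8, 2, 8], .r 3717 [1, 2, 3, 4, 5, 6] [1, 1, 1, 1, 1, 1, 1]]),
([p 4 0, g, p 1 0, g, s 0 1, m 0 2, g, s 2 3, p 6 4, g, m 3 5, g, m 5 0, g, p 0 6, g], .lo 4, [.l [1, 8, 6, 1, 5, 3, 1], .l [12, 2, 4, 1, 12, 10, 12, 10, 3, 9, 3, 7, 1], .l [3, 10, 6, 1, 7, 5, 1], .l [5, 10, 4, 7, 1, 5, 1], .y [2, 4], .l [1, 10, 8, 3, 9, 2, 4, 1, 8, 6, 8, 6, 1], .l [6, 1, 9, 3, 1], .l [5, 10, 4, 7, 1, 5, 1], .l [6, 10, 3, 6, 13, 9, 2, 9], .l [1, 10, 8, 1, 4, 2, 3], .l [3, 10, 6, 7, 4, 5, 2], .l [10, 5, 1, 6, 1, 12, 8, 8, 5, 7, 5, 5, 3], .l [1, 8, 6, 1, 7, 5, 1],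 .l [3, 8, 4, 7, 1, 5, 1], .l [3, 8, 4, 9, 3, 7, 1, 1, 3, 9, 7, 5, 3], .l [1, 8, 6, 1, 9, 7, 1], .l [3, 8, 4, 9, 3, 7, 1], .l [3, 8, 4, 9, 3, 7, 1], .l [3, 8, 4, 11, 5, 9, 1, 1, 5, 5, 3, 7, 5], .l [1, 8, 6, 1, 11, 9, 1], .l [3, 8, 4, 11, 5, 9, 1], .l [3, 8, 4, 13, 7, 11, 1, 1, 7, 7, 5, 3, 1], .l [1, 8, 6, 1, 13, 11, 1], .l [3, 8, 4, 13, 7, 11, 1]]),
([p 3 0, g, s 0 0, m 0 1, g, s 1 2, p 6 3, g, m 2 4, g, m 4 5, g, p 0 6, g, m 5 0, g], .hi 2, [.l [10, 5, 1, 9, 6, 11, 4, 8, 1, 9, 3, 3, 1], .r 3719 [7, 1, 2, 3, 4, 6] [1, 1, 1, 1, 1, 1, 3], .l [4, 1, 7, 3, 1], .y [2], .l [3, 0, 3], .l [5, 2, 5, 8, 2, 6, 5, 9, 3, 7, 5, 7, 1], .l [4, 8, 3, 4, 11, 9, 2], .l [5, 2, 5], .l [10, 4, 9, 8, 12, 3, 8, 6, 8, 4, 1, 7, 5], .l [4, 6, 1, 3,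 4], .l [8, 5, 1], .l [10, 7, 1, 4, 2, 6, 5, 9, 3, 7, 5, 7, 1], .l [4, 6, 1, 3, 6], .l [10, 7, 1], .l [12, 9, 1, 4, 2, 8, 7, 9, 1, 9, 3, 3, 1], .l [4, 6, 1, 3, 8], .l [12, 9, 1], .l [4, 6, 1, 3, 8], .l [14, 11, 1, 4, 2, 10, 9, 9, 3, 9, 3, 3, 1], .l [4, 6, 1, 3, 10], .l [14, 11, 1], .l [16, 13, 1, 14, 11, 1, 10, 5], .l [4, 6, 1, 3, 12], .l [16, 13, 1]]),
([p 3 0, g, s 0 0, m 0 1, g, s 1 2, p 6 3, g, m 2 4, g, m 4 5, g, m 5 0, g, p 0 6, g], .hi 2, [.l [10, 2, 6, 15, 8, 12, 1, 1, 5, 5, 3, 1, 3], .r 3719 [7, 1, 2, 3, 4, 6] [1, 1, 1, 1, 1, 3, 1], .l [4, 1, 7, 3, 1], .y [2], .l [3, 0, 3], .l [5, 2, 5, 8, 2, 6, 5, 11, 5, 9, 7, 7, 5], .l [4, 8, 3, 4, 13, 11, 2], .l [5, 2, 5], .l [10, 4, 9, 8, 14, 5, 10, 8, 8, 6, 8, 4, 1], .l [4,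 6, 1, 3, 4], .l [8, 5, 1], .l [10, 7, 1, 4, 2, 6, 5, 11, 5, 9, 7, 7, 5], .l [4, 6, 1, 3, 6], .l [10, 7, 1], .l [12, 9, 1, 10, 7, 12, 4, 9], .l [4, 6, 1, 3, 8], .l [12, 9, 1], .l [14, 11, 1, 12, 9, 12, 2, 9], .l [4, 6, 1, 3, 10], .l [14, 11, 1], .l [4, 6, 1, 3, 10], .l [8, 2, 4, 1, 12, 8, 11, 1, 5, 5, 3, 1, 3], .l [4, 6, 1, 3, 12], .l [16, 13, 1]]),
([p 3 0, g, s 0 0, m 0 1, g, s 1 2, p 5 3, g, m 2 4, g, m 4 0, g, p 0 5, g], .hi 10, [.l [11, 9, 10, 3, 11, 7, 8], .l [1, 8, 6, 9], .l [2, 11], .l [4, 6, 1, 3, 6], .y [3, 5, 8, 10], .l [4, 8, 3, 9, 9, 7, 9, 4, 6], .l [4, 8, 3, 9], .l [5, 11], .l [7, 10, 7, 8, 3, 7, 9, 4, 6], .l [7, 14, 12, 12, 6, 3], .l [8, 11], .l [11, 12, 8, 8, 5, 6, 1, 5, 7, 2, 4], .l [9, 12, 10, 12, 10, 10,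 4, 1], .l [10, 11], .l [9, 10, 8, 8, 5, 6, 1, 5, 7, 2, 4], .l [9, 10, 8, 12, 10, 10, 4, 1], .r 3721 [1, 2, 3, 4, 6, 5] [1, 1, 1, 1, 1, 1, 1], .l [9, 10, 8, 10, 8, 8, 2, 1], .l [9, 10, 8, 8, 5, 6, 1, 7, 3, 6, 3], .l [9, 10, 8, 10, 8, 8, 2, 8], .r 3720 [1, 2, 3, 4, 6, 5] [1, 1, 1, 1, 1, 1, 1]]),
([p 3 0, g, s 0 0, m 0 1, g, s 1 2, p 4 3, g, m 2 0, g, p 0 4, g], .hi 8, [.l [9, 10, 7, 8, 1, 2, 7, 5, 2], .l [1, 8, 6, 7], .l [2, 9], .l [4, 6, 1, 3, 4], .y [3, 5, 8], .l [4, 8, 3, 7, 9, 4, 6], .l [4, 8, 3, 7], .l [5, 9], .l [9, 10, 5, 6, 1, 5, 7, 2, 4], .l [7, 12, 10, 10, 4, 1], .l [8, 9], .l [7, 8, 5, 6, 1, 5, 7, 2, 4], .l [7, 12, 10, 10, 4, 1], .r 3722 [1, 2, 3, 5, 4] [1, 1, 1, 1, 1, 1], .l [7, 10, 8, 8, 2, 1], .l [7, 8, 5, 6,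 1, 7, 3, 6, 3], .l [7, 10, 8, 8, 2, 8], .r 3718 [1, 2, 3, 5, 4] [1, 1, 1, 1, 1, 1]]),
([p 2 0, g, s 0 0, m 0 1, g, s 1 0, p 3 2, g, p 0 3, g], .hi 5, [.l [6, 8, 1, 5, 7, 2, 3], .l [6, 8, 1, 5, 7, 2, 3], .r 3714 [4, 2] [1, 4, 3], .l [4, 6, 1, 3, 2], .y [3, 5], .l [6, 8, 1, 3, 7, 4, 1], .l [6, 8, 1, 3, 7, 4, 1], .r 3714 [4, 2] [4, 1, 3], .l [4, 6, 1, 3, 7, 4, 1], .l [4, 6, 1, 3, 7, 4, 1], .r 3723 [1, 4, 2, 3] [1, 1, 1, 1, 1], .l [4, 6, 1, 3, 5, 2, 1], .l [4, 6, 1, 3, 5, 2, 5], .l [4, 6, 1, 3, 5, 2, 5], .r 3711 [1, 4, 2, 3] [1, 1, 1, 1, 1]]),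
([p 4 0, g, p 1 0, g, p 2 1, g, p 0 2, m 6 3, g, s 3 0, p 5 4, g, p 0 5, g, s 0 6, g], .lo 6, [.l [0, 5], .l [7, 8, 6, 8, 13, 11, 4, 7, 3, 4, 6, 4, 5], .l [2, 7], .l [1, 12, 10, 5], .y [2, 6, 4], .l [3, 12, 8, 3, 3, 1, 3, 10, 8, 4, 6, 4, 5], .l [4, 7], .l [3, 6, 4, 10, 8, 3], .l [7, 12, 4, 9, 1, 7, 1], .l [6, 7], .l [5, 8, 6, 6, 4, 9, 7, 1], .l [8, 12, 3, 8, 8, 6, 6, 4, 8, 6, 3], .l [7, 12, 4, 1, 8, 11, 5, 2, 7], .l [5, 6, 4, 4, 2, 9, 7, 3], .l [5, 10, 4, 2, 2, 0, 5], .l [5, 10, 4, 9, 1, 7, 1], .l [2, 16, 8, 2, 11, 1, 11, 9, 4, 1, 5, 2, 5], .l [5, 6, 4, 4, 2, 7, 5, 6], .l [5, 10, 4, 11, 3, 9, 1], .l [10, 14, 9, 10, 13, 10, 8, 10, 7], .l [5, 6, 4, 4, 2, 7, 5, 8], .l [5, 10, 4, 13, 5, 11, 1], .l [14, 6, 13, 10, 1, 12, 8, 11,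 5, 2, 7], .l [5, 6, 4, 4, 2, 7, 5, 10]]),
([p 4 0, g, p 1 0, g, p 2 1, g, p 0 2, m 0 3, g, s 3 0, p 5 4, g, p 0 5, g], .lo 7, [.l [7, 6], .l [6, 8, 7, 11, 5, 2, 5, 9, 7, 2, 3], .l [9, 6], .l [6, 8, 7, 11, 5, 2, 5, 9, 7, 2, 3], .l [7, 4], .l [9, 4, 6, 4, 4, 2, 5], .l [9, 4], .l [6, 8, 7, 11, 5, 2, 7, 9, 5, 2, 5], .l [9, 2, 4, 2, 7], .l [9, 2], .l [6, 12, 5, 2, 9, 11, 5, 2, 7], .l [9, 1, 11, 2, 6, 7, 6, 9, 5, 2, 5], .l [9, 1], .l [7, 8], .y [7, 9], .l [7, 11, 13, 11, 8], .l [12, 4], .l [7, 11], .r 3725 [1, 2, 3, 4, 5, 6] [1, 1, 1, 1, 1, 1, 1], .l [14, 6], .l [7, 13]]),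
([p 3 0, g, p 1 0, g, p 0 1, m 0 2, g, s 2 0, p 4 3, g, p 0 4, g], .hi 2, [.l [4, 1, 9, 5, 7, 5, 1], .r 3726 [5, 1, 2, 3, 4] [1, 1, 1, 1, 1, 1], .l [4, 1], .l [7, 10, 2, 6, 1, 9, 5, 2, 5], .l [2, 3], .l [4, 1], .y [2, 4], .l [5, 2], .l [7, 4, 4, 2, 5], .l [2, 6], .l [7, 4], .l [10, 7, 7, 5, 1], .l [2, 9], .l [10, 7], .l [2, 9], .l [12, 9, 9, 7, 1], .l [2, 11], .l [12, 9]]),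
([p 2 0, g, p 0 0, m 0 1, g, s 1 0, p 3 2, g, p 0 3, g], .hi 2, [.l [4, 1, 7, 3, 1], .r 3727 [4, 1, 2, 3] [1, 1, 1, 1, 1], .l [4, 1], .y [2], .l [3, 0], .l [5, 2, 5], .l [2, 4], .l [5, 2], .l [4, 6, 1, 3, 4], .l [2, 7], .l [8, 5], .l [2, 7], .l [4, 6, 1, 3, 6], .l [2, 9], .l [10, 7]]),
([p 6 0, g, m 2 1, g, s 0 2, g, m 1 3, g, m 3 4, g, m 4 0, m 0 5, g, s 5 0, p 7 6, g, p 0 7, g], .hi 13, [.l [14, 16, 1, 13, 15, 2, 3], .l [6, 1, 15, 9, 1, 11, 13, 9, 10], .l [6, 1, 15, 9, 1, 11, 13, 9, 4, 5, 3, 1, 8, 6, 1], .l [14, 16, 1, 13, 15, 2, 5], .l [14, 16, 1, 13, 15, 2, 5], .l [6, 3, 15, 9, 1, 9, 13, 11, 8], .l [4, 14, 9, 1, 9, 13, 11, 8, 3, 1, 6, 4, 4, 2, 1], .l [4, 1, 15, 11, 3, 11, 13, 11, 6, 1, 6, 3, 1], .l [4, 1, 15, 11, 3,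 11, 13, 11, 6], .l [15, 8, 12, 10, 10, 8, 8, 6, 1], .l [4, 1, 15, 11, 1, 11, 13, 11, 6, 1, 6, 3, 1], .l [14, 16, 1, 13, 15, 2, 9], .l [4, 1, 15, 11, 1, 11, 13, 11, 6], .l [2, 16, 13, 3, 13, 15, 13, 4, 6, 4, 1], .l [9, 16, 6, 4, 4, 2, 11], .l [2, 16, 13, 3, 13, 15, 13, 4, 6, 4, 1], .y [11, 13], .l [14, 16, 1, 11, 15, 4, 1], .l [14, 16, 1, 11, 15, 4, 1], .l [4, 1, 15, 11, 1, 11, 13, 11, 1], .l [12, 14, 1, 11, 15, 4, 1], .l [4, 1, 13, 9, 1, 9, 13, 11, 8], .l [4, 1, 13, 9, 1, 9, 13, 11, 4, 5, 3, 1, 6, 4, 1], .l [4, 1, 13, 9, 1, 9, 11, 9, 8], .l [12, 14, 1, 11, 13, 2, 13], .l [4, 1, 13, 9, 1, 9, 11, 9, 10], .l [4, 1, 13, 9, 1, 9, 11, 9, 4, 5, 3, 1, 8, 6, 1]]),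
([p 7 0, g, m 2 1, g, s 0 2, g, m 1 3, g, m 3 4, g, m 4 5, g, m 5 0, m 0 6, g, s 6 0, p 8 7, g, p 0 8, g], .hi 15, [.l [16, 18, 1, 15, 17, 2, 3], .l [6, 1, 17, 11, 1, 13, 15, 11, 12], .l [6, 1, 17, 11, 1, 13, 15, 11, 6, 7, 5, 5, 3, 1, 8, 6, 1], .l [16, 18, 1, 15, 17, 2, 5], .l [16, 18, 1, 15, 17, 2, 5], .l [6, 3, 17, 11, 1, 11, 15, 13, 10], .l [4, 16, 11, 1, 11, 15, 13, 10, 3, 1, 8, 6, 6, 4, 4, 2, 1], .l [4, 1, 17, 13, 3, 13, 15, 13, 8, 1, 8, 3, 1], .l [4, 1, 17, 13, 3, 13, 15, 13, 8], .l [17, 10, 14, 12, 12, 10, 10, 8, 8, 6, 1], .l [4, 1, 17, 13, 1, 13, 15, 13, 8, 1, 8, 3, 1], .l [16, 18, 1, 15, 17, 2, 9], .l [4, 1, 17, 13, 1, 13, 15, 13, 8], .l [2, 18, 15, 3, 15, 17, 15, 6, 8, 6, 6, 4, 1], .l [16, 18, 1, 15, 17, 2, 11],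 .l [2, 18, 15, 3, 15, 17, 15, 6, 8, 6, 6, 4, 1], .l [2, 18, 15, 3, 15, 17, 15, 4, 6, 4, 1], .l [11, 18, 6, 4, 4, 2, 13], .l [2, 18, 15, 3, 15, 17, 15, 4, 6, 4, 1], .y [13, 15], .l [16, 18, 1, 13, 17, 4, 1], .l [16, 18, 1, 13, 17, 4, 1], .l [4, 1, 17, 13, 1, 13, 15, 13, 1], .l [14, 16, 1, 13, 17, 4, 1], .l [4, 1, 15, 11, 1, 11, 15, 13, 10], .l [4, 1, 15, 11, 1, 11, 15, 13, 6, 7, 5, 5, 3, 1, 6, 4, 1], .l [4, 1, 15, 11, 1, 11, 13, 11, 10], .l [14, 16, 1, 13, 15, 2, 15], .l [4, 1, 15, 11, 1, 11, 13, 11, 12], .l [4, 1, 15, 11, 1, 11, 13, 11, 6, 7, 5, 5, 3, 1, 8, 6, 1]]),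
([p 7 0, g, m 0 1, g, m 1 2, g, m 2 3, g, m 3 4, g, m 4 5, g, m 5 0, m 0 6, g, s 6 0, p 8 7, g, p 0 8, g], .hi 15, [.l [16, 18, 1, 15, 17, 2, 3], .l [10, 12, 11, 11, 9, 15, 7, 1, 11, 13, 7, 8, 5, 1, 1, 7, 3, 1], .l [4, 18, 13, 1, 15, 17, 13, 8, 9, 7, 7, 5, 5, 3, 1, 8, 6, 1], .l [15, 12, 12, 10, 10, 8, 8, 6, 6, 4, 4, 2, 1], .l [16, 18, 1, 15, 17, 2, 5], .l [10, 12, 11, 17, 7, 1, 13, 15, 7, 10, 7, 1, 1, 9, 3, 1, 7, 3], .l [17, 12, 14, 12, 12, 10, 10, 8, 8, 6, 6, 4, 1], .l [16, 18, 1, 15, 17, 2, 7], .l [10, 12, 11, 11, 9, 15, 7, 1, 9, 13, 9, 6, 3, 1, 1, 7, 5, 1], .l [10, 12, 11, 11, 9, 9, 5, 13, 9, 1, 9, 11, 9, 4, 1, 5, 3, 1], .l [2, 18, 15, 1, 15, 17, 15, 8, 10, 8, 8, 6, 6, 4, 1], .l [10, 12, 11, 17, 7, 1, 11, 11, 9, 13, 9,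 6, 3, 1, 1, 7, 5, 1], .l [2, 18, 15, 1, 15, 17, 15, 8, 10, 8, 8, 6, 6, 4, 1], .l [2, 18, 15, 1, 15, 17, 15, 6, 8, 6, 6, 4, 1], .l [8, 12, 11, 11, 9, 9, 7, 13, 9, 3, 9, 11, 9, 4, 1, 5, 3, 1], .l [2, 18, 15, 1, 15, 17, 15, 6, 8, 6, 6, 4, 1], .l [2, 18, 15, 1, 15, 17, 15, 4, 6, 4, 1], .l [11, 18, 6, 4, 4, 2, 13], .l [2, 18, 15, 1, 15, 17, 15, 4, 6, 4, 1], .y [13, 15], .l [16, 18, 1, 13, 17, 4, 1], .l [16, 18, 1, 13, 17, 4, 1], .l [13, 18, 4, 14, 15, 14, 17, 7, 4, 13, 9, 9, 11, 9, 9, 7, 7, 5], .l [14, 16, 1, 13, 17, 4, 1], .l [8, 10, 9, 9, 7, 13, 7, 1, 9, 13, 9, 6, 3, 1, 1, 7, 5, 1], .l [2, 16, 13, 1, 13, 17, 15, 8, 9, 7, 7, 5, 5, 3, 1, 6, 4, 1], .l [8, 10, 9, 9, 7, 13, 7, 1, 9, 11, 7, 6, 3, 1, 1, 5, 3, 1], .l [14, 16, 1, 13,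 15, 2, 15], .l [14, 16, 1, 13, 15, 2, 15], .l [2, 16, 13, 1, 13, 15, 13, 8, 9, 7, 7, 5, 5, 3, 1, 8, 6, 1]]),
([p 6 0, g, m 0 1, g, m 1 2, g, m 2 3, g, m 3 4, g, m 4 0, m 0 5, g, s 5 0, p 7 6, g, p 0 7, g], .lo 2, [.l [2, 1], .l [4, 1, 15, 11, 13, 11, 11, 9, 9, 7, 7, 5, 1], .l [4, 1], .r 3731 [8, 1, 2, 3, 4, 5, 6, 7] [1, 1, 1, 1, 1, 1, 1, 1, 1], .r 3730 [1, 8, 2, 3, 4, 5, 6, 7] [1, 1, 1, 1, 1, 1, 1, 1, 1], .l [4, 1], .l [2, 3], .l [6, 3, 15, 9, 13, 11, 11, 9, 9, 7, 1], .l [6, 3], .l [2, 5], .l [8, 5, 5, 3, 13, 7, 11, 9, 9, 7, 1], .l [8, 5], .l [2, 7], .l [10, 7, 7, 5, 5, 3, 11, 5, 9, 7, 1], .l [10, 7], .l [2, 9], .y [2, 4, 6, 8, 10], .l [13, 10, 10, 8, 8, 6, 6, 4, 4, 2, 5], .l [13, 10], .l [2, 12], .l [13, 10, 10, 8, 8, 6,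 6, 4, 4, 2, 1], .l [16, 13, 13, 11, 11, 9, 9, 7, 7, 5, 1], .l [16, 13], .l [2, 15], .l [18, 15, 15, 13, 13, 11, 11, 9, 9, 7, 1], .l [18, 15], .l [2, 17]]),
([p 5 0, g, m 0 1, g, m 1 2, g, m 2 3, g, m 3 0, m 0 4, g, s 4 0, p 6 5, g, p 0 6, g], .lo 2, [.l [2, 1], .l [4, 1, 13, 9, 11, 9, 9, 7, 7, 5, 1], .l [4, 1], .r 3732 [7, 1, 2, 3, 4, 5, 6] [1, 1, 1, 1, 1, 1, 1, 1], .r 3729 [1, 7, 2, 3, 4, 5, 6] [1, 1, 1, 1, 1, 1, 1, 1], .l [4, 1], .l [2, 3], .l [6, 3, 13, 7, 11, 9, 9, 7, 1], .l [6, 3], .l [2, 5], .l [8, 5, 5, 3, 11, 5, 9, 7, 1], .l [8, 5], .l [2, 7], .y [2, 4, 6, 8], .l [11, 8, 8, 6, 6, 4, 4, 2, 5], .l [11, 8], .l [2, 10], .l [11, 8, 8, 6, 6, 4, 4, 2, 1], .l [14, 11, 11, 9, 9, 7, 7, 5, 1], .l [14, 11], .l [2, 13], .l [16,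 13, 13, 11, 11, 9, 9, 7, 1], .l [16, 13], .l [2, 15]]),
([p 5 0, g, m 2 1, g, s 0 2, g, m 1 3, g, m 3 0, m 0 4, g, s 4 0, p 6 5, g, p 0 6, g], .hi 11, [.l [12, 14, 1, 11, 13, 2, 3], .l [6, 1, 13, 7, 1, 9, 11, 7, 8], .l [6, 1, 13, 7, 1, 9, 11, 7, 2, 1, 8, 6, 1], .l [12, 14, 1, 11, 13, 2, 5], .l [12, 14, 1, 11, 13, 2, 5], .l [6, 3, 13, 7, 1, 7, 11, 9, 6], .l [10, 12, 1, 9, 11, 2, 5], .l [4, 1, 13, 9, 3, 9, 11, 9, 4, 1, 5, 3, 1], .l [4, 1, 13, 9, 3, 9, 11, 9, 4], .l [13, 6, 10, 8, 8, 6, 1], .l [4, 1, 13, 9, 1, 9, 11, 9, 4, 1, 5, 3, 1], .l [7, 14, 6, 4, 4, 2, 9], .l [4, 1, 13, 9, 1, 9, 11, 9, 4], .y [9, 11], .l [12, 14, 1, 9, 13, 4, 1], .l [12, 14, 1, 9, 13, 4, 1], .l [4, 1, 13, 9, 1, 9, 11, 9, 1], .l [10, 12, 1, 9, 13, 4, 1],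 .l [4, 1, 11, 7, 1, 7, 11, 9, 6], .l [4, 1, 11, 7, 1, 7, 9, 6, 6, 4, 1], .l [4, 1, 11, 7, 1, 7, 9, 7, 6], .l [10, 12, 1, 9, 11, 2, 11], .l [4, 1, 11, 7, 1, 7, 9, 7, 8], .l [4, 1, 11, 7, 1, 7, 9, 7, 2, 1, 8, 6, 1]]),
([p 4 0, g, m 0 1, g, m 1 2, g, m 2 0, m 0 3, g, s 3 0, p 5 4, g, p 0 5, g], .lo 2, [.l [2, 1], .l [4, 1, 11, 7, 9, 7, 7, 5, 1], .l [4, 1], .r 3733 [6, 1, 2, 3, 4, 5] [1, 1, 1, 1, 1, 1, 1], .r 3734 [1, 6, 2, 3, 4, 5] [1, 1, 1, 1, 1, 1, 1], .l [4, 1], .l [2, 3], .l [6, 3, 11, 5, 9, 7, 1], .l [6, 3], .l [2, 5], .y [2, 4, 6], .l [9, 6, 6, 4, 4, 2, 5], .l [9, 6], .l [2, 8], .l [9, 6, 6, 4, 4, 2, 1], .l [12, 9, 9, 7, 7, 5, 1], .l [12, 9], .l [2, 11], .l [14, 11, 11, 9, 9, 7, 1], .l [14, 11], .l [2, 13]]),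
([p 3 0, g, m 0 1, g, m 1 0, m 0 2, g, s 2 0, p 4 3, g, p 0 4, g], .lo 2, [.l [2, 1], .l [4, 1, 9, 5, 7, 5, 1], .l [4, 1], .r 3735 [5, 1, 2, 3, 4] [1, 1, 1, 1, 1, 1], .l [7, 10, 2, 6, 1, 9, 5, 2, 5], .l [4, 1], .l [2, 3], .y [2, 4], .l [7, 4, 4, 2, 5], .l [7, 4], .l [2, 6], .l [2, 6, 6, 4, 3], .l [10, 7, 7, 5, 1], .l [10, 7], .l [2, 9], .l [12, 9, 9, 7, 1], .l [12, 9], .l [2, 11]]),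
([p 2 0, g, m 0 0, m 0 1, g, s 1 0, p 3 2, g, p 0 3, g], .lo 2, [.l [2, 1], .l [4, 1, 7, 3, 1], .l [4, 1], .r 3736 [4, 1, 2, 3] [1, 1, 1, 1, 1], .y [2], .l [5, 2, 5], .l [5, 2], .l [2, 4], .l [4, 6, 1, 3, 2], .l [4, 6, 1, 3, 4], .l [8, 5], .l [2, 7], .l [4, 6, 1, 3, 6], .l [10, 7], .l [2, 9]]),
([p 2 0, g, m 0 1, g, s 1 0, p 3 2, g, p 0 3, g], .bot 1, [.r 444 [] [6], .r 3724 [1, 2, 3] [1, 1, 1, 1], .r 3728 [1, 2, 3] [1, 1, 1, 1], .r 3737 [1, 2, 3] [1, 1, 1, 1]]),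
([p 4 1, s 0 2, g, s 1 0, g, s 0 3, p 7 4, s 6 5, g, s 0 6, g, s 5 0, g, p 0 7, g, m 3 0, g, s 2 0, g], .lo 5, [.l [7, 3, 10, 1, 14, 7, 3, 10, 0, 4], .l [7, 3, 10, 1, 14, 7, 3, 10, 0, 4], .l [0, 4, 10, 1, 12, 9, 4, 6, 7, 2], .l [8, 13, 10, 1, 1, 2, 11, 6, 2, 6, 3], .l [7, 1, 10, 1, 14, 5, 1, 10, 0, 6], .l [3, 2, 10, 1, 13, 10, 1, 7, 8, 3], .l [3, 2, 10, 1, 15, 11, 7, 11, 6, 3, 4, 1], .l [3, 2, 17, 9, 11, 4], .l [11, 3, 14, 9, 11, 4, 2, 3], .l [3, 2, 17, 9, 11, 4], .l [3, 2, 17, 7, 11, 6], .l [13, 5, 14, 7, 9, 11, 9, 1], .l [3, 2, 17, 7, 11, 6], .l [9, 1, 12, 9, 6, 6, 7, 1], .l [3, 2, 17, 5, 11, 8], .l [19, 17, 18, 13, 1, 5, 11, 4], .l [3, 2, 17, 5, 11, 8], .l [8, 13, 10, 12, 4, 2, 4, 1], .l [19, 17, 18, 13, 1, 13, 5, 1,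 3, 4], .l [8, 13, 10, 12, 4, 2, 4, 1], .y [5, 15], .l [8, 13, 10, 14, 6, 2, 6, 3], .l [19, 17, 18, 13, 1, 13, 5, 1, 3, 4], .l [8, 13, 10, 14, 6, 2, 6, 3], .l [8, 13, 10, 14, 6, 2, 6, 3], .l [8, 13, 10, 16, 8, 2, 8, 5], .l [8, 15, 11, 17, 5, 6, 8, 2, 8, 5], .l [8, 13, 10, 16, 8, 2, 8, 5]]),
([p 4 1, s 0 2, g, s 1 0, g, s 0 3, p 7 4, s 6 5, g, s 5 0, g, s 0 6, g, p 0 7, g, m 3 0, g, s 2 0, g], .lo 5, [.l [7, 3, 10, 1, 14, 7, 3, 10, 0, 4], .l [7, 3, 10, 1, 14, 7, 3, 10, 0, 4], .l [0, 4, 10, 1, 12, 9, 4, 6, 7, 2], .l [8, 13, 10, 1, 1, 2, 11, 6, 2, 6, 3], .l [7, 1, 10, 1, 14, 5, 1, 10, 0, 6], .l [3, 2, 10, 1, 13, 10, 1, 7, 8, 3], .l [3, 2, 10, 1, 15, 11, 7, 11, 6, 3, 4, 1], .l [3, 2, 17, 9, 11, 4], .l [11, 3, 14, 9, 11, 4, 2,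 3], .l [3, 2, 17, 9, 11, 4], .l [11, 3, 12, 7, 9, 9, 7, 1], .l [3, 2, 17, 7, 11, 6], .l [13, 5, 14, 7, 9, 11, 9, 1], .l [3, 2, 17, 7, 11, 6], .l [3, 2, 17, 5, 11, 8], .l [19, 17, 18, 13, 3, 5, 11, 4], .l [3, 2, 17, 5, 11, 8], .l [8, 13, 10, 12, 4, 2, 4, 1], .l [19, 17, 18, 13, 3, 13, 5, 1, 3, 4], .l [8, 13, 10, 12, 4, 2, 4, 1], .y [5, 15], .l [8, 13, 10, 14, 6, 2, 6, 3], .l [19, 17, 18, 13, 3, 13, 5, 1, 3, 4], .l [8, 13, 10, 14, 6, 2, 6, 3], .l [8, 13, 10, 14, 6, 2, 6, 3], .l [8, 13, 10, 16, 8, 2, 8, 5], .l [8, 15, 11, 17, 5, 6, 8, 2, 8, 5], .l [8, 13, 10, 16, 8, 2, 8, 5]]),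
([p 4 1, s 0 2, g, s 1 0, g, s 0 3, p 6 4, s 0 5, g, s 5 0, g, p 0 6, g, m 3 0, g, s 2 0, g], .lo 7, [.l [3, 8, 4], .l [3, 8, 4], .l [11, 1, 12, 9, 4, 9, 1], .l [3, 6, 2], .l [5, 8, 2], .l [5, 8, 2], .l [11, 1, 12, 9, 2, 9, 1], .r 3739 [1, 2, 3, 4, 5, 7, 6] [1, 1, 1, 1, 1, 1, 1, 1], .l [9, 1, 12, 9, 2, 4, 12, 6, 2, 5], .l [15, 9, 14, 13, 1], .y [7, 9], .r 3740 [1, 2, 3, 4, 5, 7, 6] [1, 1, 1, 1, 1, 1, 1, 1], .r 3488 [1, 4, 7] [1, 2, 3, 7], .l [15, 9, 14, 13, 3], .l [17, 15, 16, 11, 5, 7, 9, 2], .l [13, 5, 6, 2, 8, 9, 12, 7, 8, 3], .l [15, 9, 14, 13, 5], .l [13, 7, 12, 11, 5], .l [7, 14, 10, 2, 13, 9, 7, 8, 3, 6, 1], .l [9, 1, 16, 8, 2, 12, 7, 1, 10, 1], .l [13, 7, 12, 11, 12], .l [3, 2, 13, 5, 5, 11, 5, 2], .l [3, 2, 13,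 15, 7, 2], .l [3, 2, 13, 5, 5, 13, 7, 2], .l [13, 7, 12, 11, 14]]),
([p 4 1, s 0 2, g, s 1 0, g, s 0 3, p 5 4, s 0 0, g, p 0 5, g, m 3 0, g, s 2 0, g], .hi 7, [.l [1, 6, 4], .l [3, 8, 4], .l [5, 4, 13, 11, 5, 2], .l [3, 8, 4], .l [5, 8, 2], .l [3, 2, 13, 9, 3, 8], .l [5, 8, 2], .l [5, 6, 0], .y [7], .r 3741 [1, 2, 3, 4, 6, 5] [1, 1, 1, 1, 1, 1, 1], .l [13, 7, 12, 11, 1], .r 2574 [1, 4, 6] [1, 2, 1, 7], .l [11, 5, 10, 9, 1], .l [15, 13, 14, 9, 3, 5, 7, 2], .l [13, 7, 12, 11, 3], .r 2574 [1, 4, 6] [1, 2, 3, 5], .r 3654 [1, 2, 3, 4, 6, 5] [1, 1, 1, 1, 1, 1, 1], .l [11, 5, 10, 9, 10], .r 2574 [1, 4, 6] [1, 2, 5, 3], .l [3, 2, 11, 13, 7, 2], .l [11, 5, 10, 9, 12], .l [3, 2, 11, 13, 7, 2]]),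
([p 3 1, s 0 0, g, s 1 0, g, s 0 2, p 4 3, s 0 0, g, p 0 4, g, m 2 0, g], .hi 1, [.y [1], .r 1053 [1, 5, 3] [1, 1, 2, 6], .l [2, 8, 5, 5, 2], .r 578 [1, 5, 3] [1, 1, 2, 6], .r 989 [1, 5, 3] [1, 1, 2, 6], .l [3, 2, 3], .r 520 [1, 5, 3] [1, 1, 2, 6], .r 989 [1, 5, 3] [1, 1, 0, 6], .l [1, 6, 4], .r 3590 [1, 5, 3, 4] [1, 2, 1, 1, 3], .l [3, 2, 7], .r 852 [1, 5, 3] [1, 2, 2, 5], .l [3, 2, 7], .r 3653 [1, 5, 2, 3, 4] [1, 1, 2, 1, 1, 1], .l [3, 2, 9], .r 852 [1, 5, 3] [1, 2, 4, 3], .r 3742 [1, 5, 2, 3, 4] [1, 1, 1, 1, 1, 1], .l [3, 2, 11], .r 852 [1, 5, 3] [1, 2, 6, 1]]),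
([p 2 1, s 0 0, g, s 0 0, s 1 0, g, s 0 0, p 3 2, s 4 0, g, p 0 3, g, s 0 4, g], .hi 6, [.l [11, 7, 10, 7, 9, 8, 8, 5], .r 3643 [5, 2, 3, 4] [2, 4, 1, 1, 1], .r 2428 [5, 2] [2, 4, 6], .r 3712 [1, 5, 2] [2, 2, 1, 6], .l [7, 10, 9, 2, 4, 7, 2, 7], .r 3643 [5, 2, 3, 4] [5, 1, 1, 1, 1], .r 2428 [5, 2] [5, 1, 6], .r 3652 [1, 5, 2] [3, 1, 1, 6], .y [6], .r 3638 [1, 5, 2] [1, 1, 1, 5], .r 3441 [1, 5, 2] [2, 1, 1, 5], .r 3645 [1, 5, 2, 3] [1, 1, 2, 1, 3], .r 3441 [1, 5, 2] [2, 1, 1, 3], .r 3638 [1, 5, 2] [1, 1, 3, 3], .r 3441 [1, 5, 2] [2, 1, 3, 3], .r 3743 [1, 5, 2, 3] [2, 1, 1, 1, 3], .r 3638 [1, 5, 2] [1, 1, 3, 1], .r 3638 [1, 5, 2] [1, 1, 5, 1], .r 3441 [1, 5, 2] [2, 1, 5, 1], .r 3743 [1, 5, 2, 3] [2, 1, 1, 3, 1]]),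
([p 2 1, s 0 0, g, s 0 0, s 1 0, g, p 3 2, s 4 0, g, p 0 3, g, s 0 4, g], .bot 5, [.r 1003 [1, 2] [3, 6], .r 3744 [1, 2, 3, 4] [1, 1, 1, 1, 1], .r 1127 [1, 2] [2, 1, 6], .r 1575 [1, 2] [2, 1, 6]]),
([p 2 1, s 0 0, g, s 1 0, g, p 3 2, s 4 0, g, p 0 3, g, s 0 4, g], .bot 2, [.r 2173 [1] [8], .r 3745 [1, 2, 3, 4] [1, 1, 1, 1, 1], .r 3560 [1, 2] [2, 1, 6], .r 3589 [1, 2] [2, 1, 5]]),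
([p 3 1, g, s 1 0, s 0 2, p 4 3, g, s 0 4, g, s 2 0, g], .lo 3, [.l [4, 3, 5, 1, 2, 4, 2, 3], .l [4, 3, 5, 1, 2], .l [10, 4, 1, 6, 2, 5], .c, .l [2, 1, 3, 1, 2, 4, 2, 3], .l [6, 2, 6], .l [2, 1, 3, 1, 2], .l [2, 1, 3, 1, 6, 1, 4, 1], .l [8, 4, 1], .l [2, 1, 3, 1, 4], .y [3, 8], .l [2, 1, 3, 1, 6, 1, 4, 1], .l [8, 4, 1, 8, 4, 1], .l [2, 1, 3, 1, 6]]),
([p 3 1, g, s 1 0, s 0 2, p 4 3, g, s 2 0, g, s 0 4, g], .lo 3, [.l [4, 3, 5, 1, 2, 6, 4, 1], .l [4, 3, 5, 1, 2], .l [9, 1, 2, 7, 6, 4, 2, 3], .c, .l [2, 1, 3, 1, 2, 6, 4, 1], .l [6, 2, 8], .l [2, 1, 3, 1, 2], .y [3, 6], .l [2, 1, 3, 1, 4, 1, 2, 3], .l [8, 4, 8], .l [2, 1, 3, 1, 4], .l [2, 1, 3, 1, 6, 3, 4, 1], .l [10, 6, 3], .l [2, 1, 3, 1, 6]]),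
([p 3 0, g, s 0 1, g, s 1 0, m 0 2, g, s 2 0, p 4 3, g, s 0 4, g], .hi 7, [.l [6, 1, 9, 3, 1, 4, 2, 5], .l [8, 10, 1, 7, 1, 3, 4, 5], .l [6, 1, 9, 3, 1, 4, 2, 5], .l [6, 8, 1, 5, 1, 1, 2, 3], .l [6, 3, 9, 3, 1, 6, 4, 5], .l [6, 3, 9, 3, 1, 6, 4, 5], .l [6, 10, 3, 1, 6, 4, 7], .y [5, 7], .l [8, 10, 1, 5, 1, 8, 4, 1], .l [8, 10, 1, 7, 1, 6, 7], .l [9, 1, 9, 0, 8], .l [4, 1, 7, 3, 1, 6, 4, 5], .l [6, 8, 1, 7, 1, 6, 7], .l [4, 1, 7, 3, 1, 6, 4, 5], .l [6, 8, 1, 7, 7, 0, 4], .l [4, 1, 7, 3, 1, 8, 6, 3], .l [6, 8, 1, 9, 3, 8, 5], .l [4, 1, 7, 3, 1, 8, 6, 3]]),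
([p 2 0, g, s 4 0, m 0 1, g, s 1 0, p 3 2, g, s 0 3, g, s 0 4, g], .hi 5, [.l [6, 8, 1, 5, 8, 1, 2, 3], .l [6, 8, 1, 5, 2, 4, 5], .l [4, 8, 3, 1, 4, 2, 5], .y [3, 5], .l [4, 8, 3, 1, 9, 4, 6, 3], .l [6, 8, 1, 5, 1, 4, 5], .l [7, 1, 7, 0, 6], .l [4, 6, 1, 3, 8, 1, 4, 1], .l [4, 6, 1, 5, 1, 4, 5], .l [2, 6, 3, 1, 6, 4, 5], .l [4, 6, 1, 5, 5, 0, 2], .l [4, 6, 1, 3, 8, 3, 4, 1], .l [4, 6, 1, 7, 3, 6, 3], .l [2, 6, 3, 1, 8, 6, 3], .l [4, 6, 1, 3, 6, 6, 2, 3], .l [4, 6, 1, 3, 6, 1, 2, 5], .l [4, 6, 1, 9, 5, 8, 5], .l [2, 6, 3, 1, 10, 8, 3]]),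
([p 2 0, g, s 3 0, m 0 1, g, s 1 0, p 4 2, g, s 0 3, g, s 0 4, g], .hi 5, [.l [4, 9, 11, 9, 4, 8, 6, 1], .l [6, 8, 1, 5, 2, 4, 7], .l [4, 8, 3, 1, 4, 2, 7], .y [3, 5], .l [4, 8, 3, 1, 7, 2, 4, 5], .l [6, 8, 1, 5, 1, 4, 7], .l [7, 1, 7, 0, 8], .l [4, 6, 1, 5, 9, 4, 6, 3], .l [4, 6, 1, 5, 1, 4, 7], .l [2, 6, 3, 1, 6, 4, 7], .l [4, 6, 1, 3, 4, 4, 2, 3], .l [2, 7, 11, 9, 6, 8, 4, 1], .l [4, 6, 1, 7, 3, 6, 7], .l [2, 6, 3, 1, 8, 6, 7], .l [4, 6, 1, 7, 7, 0, 2], .l [4, 6, 1, 3, 4, 8, 6, 3], .l [4, 6, 1, 9, 5, 8, 3], .l [2, 6, 3, 1, 10, 8, 5]]),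
([p 4 0, g, m 0 1, g, s 1 0, m 0 2, g, s 3 0, g, s 2 3, p 5 4, g, s 0 5, g], .hi 4, [.l [6, 3, 11, 5, 3, 8, 1, 8, 4, 1], .l [5, 12, 6, 9, 1, 7, 3], .l [3, 12, 8, 1, 9, 7, 3], .y [2, 4], .l [10, 12, 1, 7, 1, 10, 4, 1], .l [5, 12, 6, 9, 1, 7, 3], .l [6, 1, 11, 5, 3], .l [1, 10, 8, 1, 2, 0, 3], .l [3, 12, 8, 9, 6, 7, 2, 7], .l [3, 12, 8, 9, 6, 7, 2], .l [1, 12, 10, 1, 4, 2, 5], .l [3, 12, 8, 9, 4, 7, 4, 7], .l [3, 12, 8, 9, 4, 7, 4], .l [1, 12, 10, 1, 6, 4, 5], .l [6, 10, 3, 1, 9, 2, 6, 7], .l [3, 10, 6, 9, 1, 7, 3], .l [1, 10, 8, 1, 9, 7, 3], .l [1, 12, 7, 3, 4, 7, 1, 1, 4, 1], .l [6, 10, 3, 1, 11, 4, 8, 5], .l [3, 10, 6, 11, 3, 9, 3], .l [1, 10, 8, 1, 11, 9, 3]]),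
([p 4 0, g, m 0 1, g, s 1 0, m 0 2, g, s 2 3, p 5 4, g, s 0 5, g, s 3 0, g], .hi 4, [.l [6, 3, 9, 3, 1, 6, 1, 6, 2, 5], .l [5, 10, 4, 7, 1, 5, 1], .l [3, 10, 6, 1, 7, 5, 1], .y [2, 4], .l [3, 10, 6, 1, 11, 6, 3, 1, 6, 1], .l [5, 10, 4, 7, 1, 5, 1], .l [6, 1, 9, 3, 1], .l [1, 8, 6, 1, 2, 0, 1], .l [3, 10, 6, 7, 4, 5, 2, 5], .l [3, 10, 6, 7, 4, 5, 2], .l [1, 10, 8, 1, 4, 2, 3], .l [3, 8, 4, 7, 1, 5, 1, 8, 6, 3], .l [3, 8, 4, 7, 1, 5, 1], .l [1, 8, 6, 1, 7, 5, 1], .l [1, 8, 6, 1, 9, 4, 1, 1, 4, 1], .l [3, 8, 4, 9, 3, 7, 1, 8, 6, 1], .l [3, 8, 4, 9, 3, 7, 1], .l [1, 8, 6, 1, 9, 7, 1], .l [3, 8, 4, 11, 1, 6, 3, 1, 6, 1], .l [3, 8, 4, 11, 5, 9, 1], .l [1, 8, 6, 1, 11, 9, 1]]),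
([p 4 0, g, s 3 0, g, m 0 1, g, s 1 0, m 0 2, g, s 2 3, p 5 4, g, s 0 5, g], .hi 6, [.l [8, 5, 11, 3, 1, 6, 1, 8, 4, 1], .l [7, 12, 4, 9, 3, 7, 1], .l [5, 12, 6, 1, 7, 5, 1], .l [8, 3, 11, 3, 1, 4, 2, 7], .l [7, 12, 4, 9, 1, 7, 1], .l [5, 12, 6, 1, 9, 7, 1], .y [4, 6], .l [7, 12, 4, 9, 1, 7, 1, 4, 2, 5], .l [7, 12, 4, 9, 1, 7, 1], .l [8, 1, 11, 3, 1], .l [3, 10, 6, 1, 2, 0, 1], .l [5, 12, 6, 9, 6, 7, 4, 7], .l [5, 12, 6, 9, 6, 7, 4], .l [3, 12, 8, 1, 4, 2, 3], .l [5, 10, 4, 9, 1, 7, 1, 4, 2, 5], .l [5, 10, 4, 9, 1, 7, 1], .l [3, 10, 6, 1, 9, 7, 1], .l [6, 11, 11, 9, 4, 8, 6, 1], .l [5, 10, 4, 11, 3, 9, 1, 4, 2, 3], .l [5, 10, 4, 11, 3, 9, 1], .l [3, 10, 6, 1, 11, 9, 1]]),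
([p 4 0, g, m 0 1, g, s 1 0, m 0 2, g, s 2 3, p 5 4, g, s 3 0, g, s 0 5, g], .hi 4, [.l [6, 3, 9, 3, 1, 6, 1, 8, 4, 1], .l [5, 10, 4, 7, 1, 5, 1], .l [3, 10, 6, 1, 7, 5, 1], .y [2, 4], .l [3, 10, 6, 1, 9, 4, 8, 6, 4, 1], .l [5, 10, 4, 7, 1, 5, 1], .l [6, 1, 9, 3, 1], .l [1, 8, 6, 1, 2, 0, 1], .l [3, 10, 6, 7, 4, 5, 2, 7], .l [3, 10, 6, 7, 4, 5, 2], .l [1, 10, 8, 1, 4, 2, 3], .l [3, 8, 4, 7, 1, 5, 1, 6, 4, 5], .l [3, 8, 4, 7, 1, 5, 1], .l [1, 8, 6, 1, 7, 5, 1], .l [3, 8, 4, 9, 1, 4, 8, 6, 4, 1], .l [3, 8, 4, 9, 3, 7, 1], .l [1, 8, 6, 1, 9, 7, 1], .l [1, 8, 6, 1, 7, 2, 6, 6, 4, 1], .l [3, 8, 4, 11, 3, 6, 3, 1, 6, 1], .l [3, 8, 4, 11, 5, 9, 1], .l [1, 8, 6, 1, 11, 9, 1]]),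
([p 3 0, g, m 0 1, g, s 1 0, m 0 2, g, s 2 0, p 4 3, g, s 0 4, g], .hi 7, [.r 3754 [1, 2, 5, 3, 4] [1, 1, 1, 1, 1, 1], .l [8, 10, 1, 7, 4, 6, 7], .l [6, 10, 3, 1, 4, 2, 7], .l [2, 6, 6, 4, 3], .l [8, 10, 1, 4, 9, 5, 2, 5], .l [3, 10, 6, 4, 4, 2, 5], .l [4, 8, 8, 6, 3], .y [5, 7], .r 3752 [1, 2, 5, 3, 4] [1, 1, 1, 1, 1, 1], .l [8, 10, 1, 7, 1, 6, 7], .l [9, 1, 9, 0, 8], .r 3755 [1, 2, 5, 3, 4] [1, 1, 1, 1, 1, 1], .l [6, 8, 1, 7, 1, 6, 7], .l [4, 8, 3, 1, 8, 6, 7], .l [6, 8, 1, 7, 7, 0, 4], .r 3753 [1, 2, 5, 3, 4] [1, 1, 1, 1, 1, 1], .l [6, 8, 1, 9, 3, 8, 5], .l [4, 8, 3, 1, 10, 8, 5]]),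
([p 2 0, g, s 0 0, m 0 1, g, s 1 0, p 3 2, g, s 0 3, g], .lo 2, [.l [2, 1, 5, 3, 1], .r 3749 [4, 1, 2, 3] [1, 1, 1, 1, 1], .l [4, 1, 7, 3, 1], .r 3756 [4, 1, 2, 3] [1, 1, 1, 1, 1], .y [2], .l [9, 4, 5, 2, 6, 5], .l [5, 2, 5], .l [6, 8, 1, 3, 4], .l [4, 6, 1, 3, 2], .r 3751 [1, 2, 4, 3] [1, 1, 1, 1, 1], .l [8, 5, 1], .l [4, 6, 1, 3, 4], .r 3750 [1, 2, 3, 4] [1, 1, 1, 1, 1], .l [10, 7, 1], .l [4, 6, 1, 3, 6]]),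
([p 6 0, g, s 5 0, g, m 2 1, g, s 0 2, g, m 1 3, m 3 4, s 0 0, g, s 4 5, p 7 6, g, s 0 7, g], .hi 10, [.l [10, 11, 10, 14, 4, 2, 7, 4, 10, 3, 4, 5], .l [1, 4, 12, 13, 3, 10, 2, 5, 3, 5, 8, 6, 2, 1], .l [10, 11, 10, 14, 4, 2, 5, 3, 6], .l [10, 11, 10, 14, 4, 2, 5, 2, 10, 3, 6, 1], .l [10, 11, 10, 14, 4, 2, 5, 2, 10, 3, 6, 1], .l [10, 11, 10, 14, 4, 2, 7, 5, 6], .l [5, 15, 9, 5, 10, 2, 12, 1, 2, 7], .l [5, 15, 9, 5, 7, 6, 10], .l [12, 5, 7, 3, 10], .l [5, 13, 7, 3, 8, 2, 10, 1, 2, 5], .l [7, 15, 7, 3, 8, 2, 12, 3, 4, 7], .l [7, 15, 7, 3, 5, 4, 8], .l [12, 3, 7, 5, 10], .y [10], .l [8, 9, 8, 14, 6, 4, 7, 2, 10, 3, 6, 1], .l [8, 9, 8, 14, 6, 4, 7, 2, 10, 3, 6, 1], .l [6, 1, 14, 8, 5, 1, 8, 2, 9, 1, 3, 4], .l [8, 9, 8, 12, 4,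 2, 5, 2, 10, 5, 6, 1], .l [9, 2, 13, 3, 12, 5, 3, 7, 10, 6, 2, 1], .l [6, 1, 12, 6, 1, 9, 11, 4, 1], .l [6, 1, 9, 12, 12, 10, 8, 5], .l [8, 9, 8, 12, 4, 2, 5, 2, 8, 3, 4, 7], .l [8, 9, 8, 12, 4, 2, 5, 2, 8, 3, 4, 7], .l [6, 1, 12, 6, 1, 9, 13, 6, 1]]),
([p 6 0, g, s 5 0, g, m 2 1, g, s 0 2, g, m 1 3, m 3 4, g, s 4 5, p 7 6, g, s 0 7, g], .top 10, [.l [8, 9, 8, 10, 2, 0, 4], .r 3758 [1, 2, 3, 4, 5, 6, 7] [1, 1, 1, 1, 1, 1, 1], .r 3682 [3, 4, 6] [7, 0, 1, 3], .r 3689 [3, 4, 6] [7, 0, 1, 3]]),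
([p 5 0, g, m 2 1, g, s 0 2, g, m 1 3, m 3 4, g, s 4 0, p 6 5, g, s 0 6, g], .hi 9, [.r 3759 [1, 2, 3, 4, 7, 5, 6] [1, 1, 1, 1, 1, 1, 1], .l [10, 12, 1, 9, 6, 8, 9], .l [8, 9, 8, 8, 4, 9, 5, 3, 6, 2, 5], .l [3, 12, 8, 6, 6, 4, 7], .l [3, 12, 8, 6, 6, 4, 7], .l [4, 10, 10, 8, 5], .y [2, 6, 7, 9, 4], .l [5, 12, 6, 4, 4, 2, 5], .l [5, 12, 6, 4, 4, 2, 5], .l [6, 10, 10, 8, 3], .l [8, 12, 3, 1, 6, 1, 9, 5, 2, 5], .l [10, 12, 1, 9, 1, 8, 9], .l [11, 1, 11, 0, 10], .l [4, 1, 9, 5, 9, 4, 8, 6, 4, 1], .l [8, 10, 1, 9, 1, 8, 9], .l [6, 7, 6, 6, 2, 7, 5, 3, 6, 2, 5], .l [8, 10, 1, 9, 9, 0, 6], .l [4, 1, 9, 5, 11, 6, 3, 1, 6, 1], .l [8, 10, 1, 11, 3, 10, 7], .l [6, 7, 6, 6, 2, 7, 5, 3, 8, 4, 1]]),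
([p 4 0, g, m 2 1, g, s 0 2, g, m 1 0, m 0 3, g, s 3 0, p 5 4, g, s 0 5, g], .lo 7, [.l [7, 6], .l [3, 6, 1, 7, 2, 8, 3, 5, 2, 5], .l [9, 6], .l [4, 12, 7, 4, 7, 11, 9, 4, 5], .l [9, 4, 6, 2, 7], .l [9, 4], .l [4, 12, 7, 4, 9, 11, 7, 4, 7], .l [9, 2, 6, 4, 7], .l [9, 2], .l [6, 12, 5, 2, 9, 11, 5, 2, 5], .r 3760 [1, 2, 6, 3, 4, 5] [1, 1, 1, 1, 1, 1], .l [9, 1, 11, 2, 6, 1, 9, 5, 2, 5], .l [9, 1], .l [7, 8], .y [7, 9], .l [4, 1, 6, 9, 11, 9, 6, 3], .l [12, 4], .l [7, 11], .l [4, 1, 13, 6, 2, 7, 4, 5, 2, 5], .l [14, 6], .l [7, 13]]),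
([p 5 0, g, m 0 1, g, m 1 2, g, m 2 0, m 0 3, g, s 4 0, g, s 3 4, p 6 5, g, s 0 6, g], .hi 6, [.l [10, 2, 6, 12, 3, 1, 7, 2, 4, 7], .l [1, 14, 12, 5], .l [2, 7], .y [2, 4, 6], .l [10, 2, 4, 12, 3, 1, 9, 2, 6, 7], .l [3, 6, 4, 12, 10, 3], .l [4, 7], .l [7, 14, 6, 11, 1, 9, 3], .l [5, 8, 6, 6, 4, 11, 9, 1], .l [6, 7], .l [10, 12, 1, 7, 7, 6, 6, 4, 4, 2, 6, 4, 1], .l [5, 14, 8, 2, 6, 4, 9], .l [5, 6, 4, 4, 2, 11, 9, 3], .l [7, 14, 6, 1, 10, 13, 7, 4, 9], .l [5, 14, 8, 4, 6, 2, 9], .l [5, 6, 4, 4, 2, 11, 9, 5], .l [8, 11, 8, 12, 6, 4, 4, 2, 7], .l [5, 12, 6, 11, 1, 9, 3], .l [5, 6, 4, 4, 2, 9, 7, 8], .l [10, 14, 9, 9, 7, 7, 5, 3, 1, 6, 1, 4, 5], .l [5, 12, 6, 11, 1, 9, 3], .l [5, 12, 6, 13, 3, 11, 3], .l [5, 6, 4, 4, 2, 9, 7,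 10], .l [10, 12, 1, 9, 1, 8, 9, 11, 7, 7, 5, 5, 3]]),
([p 6 0, g, s 5 0, g, m 2 1, g, s 0 2, g, m 1 3, g, m 3 0, m 0 4, g, s 4 5, p 7 6, g, s 0 7, g], .lo 6, [.l [0, 5, 7, 5, 5, 1, 9, 7, 7, 3, 1], .l [2, 7, 9, 7, 7, 1, 11, 7, 9, 5, 1, 6, 4, 5], .l [2, 7, 9, 7, 7, 1, 11, 7, 9, 5, 1], .l [1, 4, 13, 14, 3, 6, 8, 6, 6, 1, 3, 6, 3], .l [2, 5, 7, 5, 5, 1, 9, 5, 7, 5, 1, 1, 3], .l [4, 7, 9, 7, 7, 1, 11, 5, 9, 7, 1, 4, 2, 5], .l [4, 7, 9, 7, 7, 1, 11, 5, 9, 7, 1], .l [3, 8, 1, 8, 6, 11, 6, 11, 2, 8, 8, 6, 1], .l [7, 16, 8, 13, 1, 9, 9, 7, 1, 4, 2, 7], .l [8, 1, 15, 7, 13, 1, 1, 9, 9, 7, 1], .l [7, 16, 8, 13, 1, 9, 9, 7, 1], .l [7, 16, 8, 13, 1, 9, 9, 7, 1, 4, 2, 7], .l [6, 1, 9, 7, 7, 1, 10, 4, 8, 6, 1, 7, 3], .l [7, 16, 8, 13,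 1, 9, 9, 7, 1], .l [10, 3, 3, 3, 13, 5, 11, 9, 1, 4, 2, 7], .l [4, 5, 9, 3, 13, 5, 11, 9, 1], .l [14, 8, 8, 14, 1, 2, 4, 6, 11, 7, 4, 7], .y [4, 8, 10, 6], .l [5, 16, 10, 6, 11, 2, 12, 1, 4, 4, 2, 5], .l [4, 5, 12, 6, 6, 4, 4, 2, 7], .l [5, 1, 15, 10, 13, 6, 11, 11, 9, 9, 7, 4, 7], .l [5, 14, 8, 13, 1, 9, 9, 7, 1, 4, 2, 7], .l [4, 5, 15, 9, 9, 7, 7, 5, 1], .l [5, 14, 8, 13, 1, 9, 9, 7, 1], .l [5, 14, 8, 15, 3, 11, 7, 2, 6, 8, 6, 1], .l [4, 5, 17, 11, 11, 9, 9, 7, 1], .l [5, 14, 8, 15, 3, 11, 11, 9, 1]]),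
([p 5 0, g, m 2 1, g, s 0 2, g, m 1 3, g, m 3 0, m 0 4, g, s 4 0, p 6 5, g, s 0 6, g], .hi 11, [.r 3763 [1, 2, 3, 4, 7, 5, 6] [1, 1, 1, 1, 1, 1, 1, 1], .l [12, 14, 1, 11, 8, 10, 11], .l [10, 14, 3, 1, 4, 2, 11], .l [13, 8, 10, 6, 6, 4, 1], .l [12, 14, 1, 11, 6, 10, 11], .l [10, 14, 3, 1, 6, 4, 11], .l [10, 12, 1, 4, 6, 4, 4, 1, 1, 4, 3], .l [13, 6, 10, 8, 8, 6, 1], .l [12, 14, 1, 11, 4, 10, 11], .l [10, 14, 3, 1, 8, 6, 11], .l [7, 14, 6, 4, 4, 2, 9], .l [7, 14, 6, 4, 4, 2, 9], .l [8, 12, 12, 10, 7], .y [9, 11], .r 3762 [1, 3, 4, 7, 5, 6] [1, 3, 1, 1, 1, 1, 1], .l [12, 14, 1, 11, 1, 10, 11], .l [13, 1, 13, 0, 12], .l [4, 1, 11, 7, 11, 4, 10, 8, 6, 6, 4, 1], .l [10, 12, 1, 11, 1, 10, 11], .l [8, 12, 3, 1, 12, 10, 11], .l [10,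 12, 1, 11, 11, 0, 8], .l [4, 1, 11, 7, 13, 6, 3, 1, 8, 8, 6, 1], .l [10, 12, 1, 13, 3, 12, 9], .l [8, 12, 3, 1, 14, 12, 9]]),
([p 5 0, g, m 0 1, g, m 1 2, g, m 2 3, m 3 4, g, s 4 0, p 6 5, g, s 0 6, g], .hi 9, [.l [7, 12, 4, 0, 9, 9, 7, 1, 2, 6, 2, 0, 1], .l [10, 12, 1, 9, 6, 8, 9], .l [8, 9, 8, 8, 6, 6, 4, 7, 3, 1, 4, 2, 3], .y [2, 4, 6, 7, 9], .l [11, 6, 8, 6, 6, 4, 1], .l [10, 12, 1, 9, 4, 8, 9], .l [8, 9, 8, 8, 6, 9, 3, 1, 6, 4, 5], .l [5, 12, 6, 4, 4, 2, 7], .l [5, 12, 6, 4, 4, 2, 7], .l [6, 10, 10, 8, 5], .l [10, 12, 1, 7, 7, 6, 6, 4, 4, 2, 6, 4, 1], .l [10, 12, 1, 9, 1, 8, 9], .l [11, 1, 11, 0, 10], .l [5, 10, 4, 0, 7, 4, 7, 2, 0, 4, 5, 3, 1], .l [8, 10, 1, 9, 1, 8, 9], .l [6, 7, 6, 6, 4, 4, 2, 5, 3, 1, 4, 2, 3],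 .l [8, 10, 1, 9, 9, 0, 6], .l [14, 4, 1, 5, 1, 11, 7, 9, 7, 7, 5, 5, 3], .l [8, 10, 1, 11, 3, 10, 7], .l [6, 7, 6, 6, 4, 4, 2, 5, 3, 1, 6, 4, 1]]),
([p 5 0, g, m 0 1, g, m 1 2, g, m 2 3, g, m 3 0, m 0 4, g, s 4 0, p 6 5, g, s 0 6, g], .lo 9, [.l [9, 8], .l [11, 8, 13, 2, 9, 10, 9, 9, 7, 7, 5, 2, 5], .l [11, 8], .l [5, 11, 7, 2, 7, 4, 9, 3, 7, 7, 5, 2, 5], .l [11, 6, 8, 6, 6, 4, 4, 2, 5], .l [11, 6], .l [7, 11, 7, 4, 7, 2, 9, 3, 7, 4, 7], .l [11, 4, 6, 4, 4, 2, 7], .l [11, 4], .l [8, 10, 9, 13, 5, 2, 9, 11, 5, 2, 7], .l [11, 2, 4, 2, 9], .l [11, 2], .l [8, 14, 5, 2, 11, 13, 5, 2, 9], .r 3765 [2, 3, 7, 4, 5, 6] [3, 1, 1, 1, 1, 1], .l [11, 1, 13, 2, 8, 9, 8, 11, 5, 2, 7, 7, 5], .l [11, 1], .l [9, 10], .y [9, 11], .l [14, 4,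 13, 10, 6, 7, 6, 6, 4, 4, 2, 4, 5], .l [14, 4], .l [9, 13], .l [16, 6, 15, 12, 8, 9, 8, 8, 6, 6, 4, 6, 3], .l [16, 6], .l [9, 15]]),
([p 4 0, g, m 0 1, g, m 1 2, g, m 2 0, m 0 3, g, s 3 0, p 5 4, g, s 0 5, g], .lo 2, [.l [2, 1], .l [4, 1, 11, 7, 9, 7, 7, 5, 1], .l [4, 1], .r 3766 [6, 1, 2, 3, 4, 5] [1, 1, 1, 1, 1, 1, 1], .r 3764 [1, 6, 2, 3, 4, 5] [1, 1, 1, 1, 1, 1, 1], .l [4, 1], .l [2, 3], .l [6, 3, 11, 5, 9, 7, 1], .l [6, 3], .l [2, 5], .y [2, 4, 6], .l [9, 6, 6, 4, 4, 2, 5], .l [9, 6], .l [2, 8], .l [6, 10, 3, 1, 4, 2, 7], .l [12, 9, 9, 7, 7, 5, 1], .l [12, 9], .l [2, 11], .l [14, 11, 11, 9, 9, 7, 1], .l [14, 11], .l [2, 13]]),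
([p 3 0, g, m 0 1, g, m 1 0, m 0 2, g, s 2 0, p 4 3, g, s 0 4, g], .lo 2, [.l [2, 1], .l [4, 1, 9, 5, 7, 5, 1], .l [4, 1], .r 3767 [5, 1, 2, 3, 4] [1, 1, 1, 1, 1, 1], .r 3761 [1, 5, 2, 3, 4] [1, 1, 1, 1, 1, 1], .l [4, 1], .l [2, 3], .y [2, 4], .l [7, 4, 4, 2, 5], .l [7, 4], .l [2, 6], .l [2, 6, 6, 4, 3], .l [10, 7, 7, 5, 1], .l [10, 7], .l [2, 9], .l [12, 9, 9, 7, 1], .l [12, 9], .l [2, 11]]),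
([p 2 0, g, m 0 0, m 0 1, g, s 1 0, p 3 2, g, s 0 3, g], .lo 2, [.l [2, 1], .l [4, 1, 7, 3, 1], .l [4, 1], .r 3768 [4, 1, 2, 3] [1, 1, 1, 1, 1], .y [2], .l [5, 2, 5], .l [5, 2], .l [2, 4], .l [2, 6, 3, 1, 4, 2, 3], .l [4, 6, 1, 3, 4], .l [8, 5], .l [2, 7], .l [4, 6, 1, 3, 6], .l [10, 7], .l [2, 9]]),
([p 5 0, g, p 1 0, g, p 2 1, g, p 3 2, g, p 0 3, m 0 4, g, s 4 0, p 6 5, g, s 0 6, g], .lo 9, [.l [9, 8], .l [11, 8, 13, 2, 9, 10, 9, 9, 7, 7, 5, 2, 5], .l [11, 8], .l [5, 11, 7, 2, 7, 4, 9, 3, 7, 7, 5, 2, 5], .l [9, 6], .l [11, 6, 8, 6, 6, 4, 4, 2, 5], .l [11, 6], .l [7, 11, 7, 4, 7, 2, 9, 3, 7, 4, 7], .l [11, 4, 6, 4, 4, 2, 7], .l [11, 4], .l [8, 10, 9, 13, 5, 2, 9, 11, 5, 2, 7], .l [11, 2, 4, 2, 9], .l [11, 2], .l [8, 14,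 5, 2, 11, 13, 5, 2, 9], .l [11, 1, 13, 2, 8, 9, 8, 11, 5, 2, 7, 7, 5], .l [11, 1], .l [9, 10], .y [9, 11], .l [14, 4, 13, 10, 6, 7, 6, 6, 4, 4, 2, 4, 5], .l [14, 4], .l [9, 13], .l [16, 6, 15, 12, 8, 9, 8, 8, 6, 6, 4, 6, 3], .l [16, 6], .l [9, 15]]),
([p 5 0, g, p 1 0, g, p 2 1, g, p 0 2, m 0 3, g, s 4 0, g, s 3 4, p 6 5, g, s 0 6, g], .lo 6, [.l [0, 5], .l [10, 2, 6, 12, 3, 1, 7, 2, 4, 7], .l [2, 7], .l [1, 14, 12, 5], .y [2, 6, 4], .l [10, 2, 4, 12, 3, 1, 9, 2, 6, 7], .l [4, 7], .l [3, 6, 4, 12, 10, 3], .l [7, 14, 6, 11, 1, 9, 3], .l [6, 7], .l [5, 8, 6, 6, 4, 11, 9, 1], .l [5, 14, 8, 2, 6, 4, 9], .l [7, 14, 6, 1, 10, 13, 7, 4, 9], .l [5, 6, 4, 4, 2, 11, 9, 3], .l [2, 12, 9, 1, 9, 11, 9, 1, 4, 2, 2, 0, 1], .l [5, 14, 8,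 4, 6, 2, 9], .l [8, 11, 8, 12, 6, 4, 4, 2, 7], .l [5, 6, 4, 4, 2, 11, 9, 5], .l [5, 12, 6, 11, 1, 9, 3], .l [10, 14, 9, 9, 7, 7, 5, 3, 1, 6, 1, 4, 5], .l [5, 6, 4, 4, 2, 9, 7, 8], .l [5, 12, 6, 13, 3, 11, 3], .l [10, 12, 1, 9, 1, 8, 9, 11, 7, 7, 5, 5, 3], .l [5, 6, 4, 4, 2, 9, 7, 10]]),
([p 6 0, g, s 5 0, g, p 2 1, g, s 1 0, g, p 3 2, g, p 0 3, m 0 4, g, s 4 5, p 7 6, g, s 0 7, g], .hi 6, [.l [2, 7, 9, 7, 7, 1, 11, 7, 9, 5, 1, 6, 4, 5], .l [1, 4, 13, 14, 3, 6, 8, 6, 6, 1, 3, 6, 3], .l [2, 7, 9, 7, 7, 1, 11, 7, 9, 5, 1], .l [4, 7, 9, 7, 7, 1, 11, 5, 9, 7, 1, 4, 2, 5], .l [3, 8, 1, 8, 6, 11, 6, 11, 2, 8, 8, 6, 1], .l [4, 7, 9, 7, 7, 1, 11, 5, 9, 7, 1], .l [7, 16, 8, 13, 1, 9, 9, 7, 1, 4, 2, 7], .l [7, 16, 8, 13, 1, 9, 9, 7,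 1], .l [8, 1, 15, 7, 13, 1, 1, 9, 9, 7, 1], .l [7, 16, 8, 13, 1, 9, 9, 7, 1, 4, 2, 7], .l [7, 16, 8, 13, 1, 9, 9, 7, 1], .l [6, 1, 9, 7, 7, 1, 10, 4, 8, 6, 1, 7, 3], .l [10, 3, 3, 3, 13, 5, 11, 9, 1, 4, 2, 7], .l [14, 8, 8, 14, 1, 2, 4, 6, 11, 7, 4, 7], .l [4, 5, 9, 3, 13, 5, 11, 9, 1], .y [4, 6, 10, 8], .l [4, 5, 10, 4, 4, 2, 2, 0, 5], .l [5, 16, 10, 6, 11, 2, 12, 1, 4, 4, 2, 5], .l [5, 1, 15, 10, 13, 6, 11, 11, 9, 9, 7, 4, 7], .l [4, 5, 12, 6, 6, 4, 4, 2, 7], .l [5, 14, 8, 13, 1, 9, 9, 7, 1, 4, 2, 7], .l [5, 14, 8, 13, 1, 9, 9, 7, 1], .l [4, 5, 15, 9, 9, 7, 7, 5, 1], .l [3, 6, 14, 12, 12, 12, 10, 6, 9, 0, 6, 6, 4, 1], .l [5, 14, 8, 15, 3, 11, 7, 2, 6, 8, 6, 1], .l [5, 14, 8, 15, 3, 11, 11, 9, 1], .l [4, 5, 17, 11, 11,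 9, 9, 7, 1]]),
([p 5 0, g, p 2 1, g, s 1 0, g, p 3 2, g, p 0 3, m 0 4, g, s 4 0, p 6 5, g, s 0 6, g], .hi 11, [.r 3772 [1, 2, 3, 4, 7, 5, 6] [1, 1, 1, 1, 1, 1, 1, 1], .l [12, 14, 1, 11, 8, 10, 11], .l [10, 14, 3, 1, 4, 2, 11], .l [13, 8, 10, 6, 6, 4, 1], .l [12, 14, 1, 11, 6, 10, 11], .l [10, 14, 3, 1, 6, 4, 11], .l [13, 6, 10, 8, 8, 6, 1], .l [12, 14, 1, 11, 4, 10, 11], .l [10, 14, 3, 1, 8, 6, 11], .l [7, 14, 6, 4, 4, 2, 9], .l [7, 14, 6, 4, 4, 2, 9], .l [8, 12, 12, 10, 7], .l [7, 12, 4, 2, 2, 0, 7], .y [9, 11], .r 3771 [2, 3, 4, 7, 5, 6] [1, 3, 1, 1, 1, 1, 1], .l [12, 14, 1, 11, 1, 10, 11], .l [13, 1, 13, 0, 12], .l [4, 1, 11, 7, 11, 4, 10, 8, 6, 6, 4, 1], .l [10, 12, 1, 11, 1, 10, 11], .l [8, 12, 3, 1, 12, 10, 11], .l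 [10, 12, 1, 11, 11, 0, 8], .l [4, 1, 11, 7, 13, 6, 3, 1, 8, 8, 6, 1], .l [10, 12, 1, 13, 3, 12, 9], .l [8, 12, 3, 1, 14, 12, 9]]),
([p 4 0, g, p 1 0, g, p 2 1, g, p 0 2, m 0 3, g, s 3 0, p 5 4, g, s 0 5, g], .hi 2, [.l [4, 1, 11, 7, 9, 7, 7, 5, 1], .r 3770 [6, 1, 2, 3, 4, 5] [1, 1, 1, 1, 1, 1, 1], .l [4, 1], .r 3773 [6, 1, 2, 3, 4, 5] [1, 1, 1, 1, 1, 1, 1], .l [2, 3], .l [4, 1], .l [6, 3, 11, 5, 9, 7, 1], .l [2, 5], .l [6, 3], .y [2, 6, 4], .l [7, 4], .l [9, 6, 6, 4, 4, 2, 5], .l [2, 8], .l [9, 6], .l [12, 9, 9, 7, 7, 5, 1], .l [2, 11], .l [12, 9], .l [12, 9, 9, 7, 7, 5, 1], .l [14, 11, 11, 9, 9, 7, 1], .l [2, 13], .l [14, 11]]),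
([p 4 0, g, p 2 1, g, s 1 0, g, p 0 2, m 0 3, g, s 3 0, p 5 4, g, s 0 5, g], .lo 7, [.l [7, 6], .l [3, 6, 1, 7, 2, 8, 3, 5, 2, 5], .l [9, 6], .l [4, 12, 7, 4, 7, 11, 9, 4, 5], .l [9, 4, 6, 2, 7], .l [9, 4], .l [4, 12, 7, 4, 9, 11, 7, 4, 7], .l [2, 3, 6, 2, 2, 0, 3], .l [9, 2, 6, 4, 7], .l [9, 2], .l [6, 12, 5, 2, 9, 11, 5, 2, 5], .l [9, 1, 11, 2, 6, 1, 9, 5, 2, 5], .l [9, 1], .l [7, 8], .y [7, 9], .l [4, 1, 6, 9, 11, 9, 6, 3], .l [12, 4], .l [7, 11], .l [4, 1, 13, 6, 2, 7, 4, 5, 2, 5], .l [14, 6], .l [7, 13]])]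

def d14_3 : List (List Item × Qry × List Rf) := [
([p 3 0, g, p 1 0, g, p 0 1, m 0 2, g, s 2 0, p 4 3, g, s 0 4, g], .hi 2, [.l [4, 1, 9, 5, 7, 5, 1], .r 3774 [5, 1, 2, 3, 4] [1, 1, 1, 1, 1, 1], .l [4, 1], .r 3775 [5, 1, 2, 3, 4] [1, 1, 1, 1, 1, 1], .l [2, 3], .l [4, 1], .y [2, 4], .l [5, 2], .l [7, 4, 4, 2, 5], .l [2, 6], .l [7, 4], .l [10, 7, 7, 5, 1], .l [2, 9], .l [10, 7], .l [10, 7, 7, 5, 1], .l [12, 9, 9, 7, 1], .l [2, 11], .l [12, 9]]),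
([p 2 0, g, p 0 0, m 0 1, g, s 1 0, p 3 2, g, s 0 3, g], .hi 2, [.l [4, 1, 7, 3, 1], .r 3776 [4, 1, 2, 3] [1, 1, 1, 1, 1], .l [4, 1], .y [2], .l [3, 0], .l [5, 2, 5], .l [2, 4], .l [5, 2], .l [4, 6, 1, 3, 4], .l [2, 7], .l [8, 5], .l [4, 6, 1, 3, 4], .l [4, 6, 1, 3, 6], .l [2, 9], .l [10, 7]]),
([p 2 0, g, m 0 1, g, s 1 0, p 3 2, g, s 0 3, g], .bot 1, [.r 444 [] [6], .r 3757 [1, 2, 3] [1, 1, 1, 1], .r 3777 [1, 2, 3] [1, 1, 1, 1], .r 3769 [1, 2, 3] [1, 1, 1, 1]]),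
([p 3 1, g, s 2 0, g, s 1 0, s 0 2, p 4 3, g, s 0 4, g], .lo 5, [.l [6, 5, 7, 1, 4, 1, 2, 3], .l [6, 5, 7, 1, 4], .r 3778 [5, 3, 4] [1, 4, 1, 1], .y [2, 5], .l [6, 5, 7, 1, 2, 6, 4, 1], .l [6, 5, 7, 1, 2], .l [9, 5, 2, 6, 1, 2, 4, 3], .c, .l [4, 3, 5, 1, 4, 1, 2, 3], .l [8, 2, 8], .l [4, 3, 5, 1, 4], .l [4, 3, 5, 1, 6, 3, 4, 1], .l [10, 4, 1], .l [4, 3, 5, 1, 6]]),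
([p 2 1, g, s 1 0, s 0 0, p 3 2, g, s 0 3, g], .hi 3, [.r 3779 [1, 4, 2, 3] [1, 1, 1, 1], .r 2428 [4, 2] [1, 2, 3], .l [4, 3, 5, 1, 2], .y [3], .r 3748 [1, 4, 2, 3] [1, 1, 1, 1], .l [2, 1, 3, 1, 2], .l [6, 2, 6], .l [6, 2, 1], .r 3747 [1, 4, 2, 3] [1, 1, 1, 1], .l [2, 1, 3, 1, 4], .l [8, 4, 1]]),
([p 3 1, g, s 2 0, g, s 1 0, s 0 2, p 4 3, g, p 0 4, g], .lo 5, [.l [6, 5, 7, 1, 4, 6, 2, 3], .l [6, 5, 7, 1, 4], .l [6, 8, 1, 2, 8, 6, 1], .y [2, 5], .l [6, 5, 7, 1, 2, 6, 4, 1], .l [6, 5, 7, 1, 2], .l [6, 8, 1, 4, 8, 4, 5], .c, .l [4, 3, 5, 1, 4, 6, 2, 3], .r 3410 [1, 3, 5] [3, 0, 1, 3], .l [4, 3, 5, 1, 4], .l [4, 3, 5, 1, 2, 4, 2, 3], .r 3410 [1, 3, 5] [3, 0, 3, 1], .l [4, 3, 5, 1, 6]]),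
([p 3 1, s 0 0, g, s 1 0, g, s 0 2, p 0 3, s 0 0, g, s 2 0, g], .bot 2, [.r 2173 [1] [7], .r 3638 [1, 2, 3] [1, 1, 1, 1], .r 3560 [1, 3] [2, 2, 4], .r 3589 [1, 3] [2, 2, 3]]),
([p 2 1, s 0 0, g, s 1 0, s 0 0, p 3 2, s 0 0, g, p 0 3, g], .hi 4, [.r 2175 [1, 4, 2] [1, 0, 0, 4], .r 3781 [1, 4, 2, 3] [2, 1, 2, 1], .r 2428 [4, 2] [2, 2, 4], .l [5, 4, 6, 1, 2], .y [4], .l [4, 5, 0], .r 3782 [1, 4, 2] [1, 0, 1, 3], .l [3, 2, 4, 1, 5], .r 2054 [1, 4, 2] [1, 0, 2, 3], .l [3, 2, 4, 1, 5], .r 3782 [1, 4, 2] [1, 0, 3, 1], .l [3, 2, 4, 1, 7], .r 2054 [1, 4, 2] [1, 0, 4, 1]]),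
([p 5 0, g, s 0 1, g, m 3 2, s 4 0, g, s 0 3, g, s 2 4, p 1 5, g], .hi 0, [.l [5, 12, 6, 4, 7, 1, 7, 5, 0, 1], .l [0, 1], .l [2, 1], .y [0, 2, 10], .l [5, 12, 6, 4, 5, 7, 1, 5, 0, 1], .l [0, 3], .l [4, 3], .l [7, 6, 11, 4, 1, 5, 2, 5], .l [0, 6], .l [7, 6], .l [4, 6, 6, 3, 7, 3, 1, 2, 0, 1], .l [4, 6, 8, 5, 9, 3, 1, 4, 2, 3], .l [0, 8], .l [9, 8], .l [0, 11, 4, 5, 2, 5], .l [0, 11], .l [12, 11]]),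
([p 4 0, g, s 0 1, g, m 0 2, s 3 0, g, s 2 3, p 1 4, g], .lo 4, [.l [4, 3], .l [6, 3, 9, 3, 1, 4, 2, 3], .l [6, 3], .l [5, 10, 4, 2, 2, 0, 3], .l [6, 1, 9, 3, 1, 6, 4, 1], .l [6, 1], .l [5, 10, 4, 2, 2, 0, 5], .c, .r 3784 [1, 2, 5, 3, 4] [1, 1, 1, 1, 1], .l [7, 2], .l [4, 6], .l [10, 5, 1, 4, 2, 3], .l [10, 5], .l [4, 9]]),
([p 5 0, g, s 0 1, g, m 0 2, g, s 4 0, g, p 3 0, g, s 0 3, s 2 4, p 1 5, g], .lo 10, [.l [7, 12, 4, 1, 3, 1, 4], .l [5, 14, 8, 6, 8, 10, 8, 1], .l [9, 14, 4, 1, 5, 3, 6], .l [5, 14, 8, 6, 8], .l [1, 4, 10, 12, 4, 3, 6, 1, 4, 5], .l [9, 14, 4, 1, 7, 5, 6], .l [5, 14, 8, 6, 10], .l [7, 14, 6, 4, 10, 1, 4, 1], .l [3, 14, 10, 8, 5], .l [7, 14, 6, 4, 10, 1, 4, 1], .l [10, 3, 11, 1, 6, 1, 4, 1], .l [12, 3,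 13, 1, 6, 1, 4, 1], .l [3, 14, 10, 8, 3], .l [11, 14, 2, 11, 1, 9, 4], .y [8, 10], .l [11, 14, 2, 11, 1, 9, 6, 1, 4, 1], .l [3, 14, 10, 8, 1], .l [11, 14, 2, 11, 1, 9, 4], .l [5, 12, 6, 4, 10, 1, 4, 1], .l [7, 12, 4, 1, 11, 9, 4], .l [3, 12, 8, 6, 10]]),
([p 6 0, g, m 0 1, g, s 0 2, g, m 1 3, s 0 0, g, s 5 0, g, s 0 4, s 3 5, p 2 6, g, m 4 0, g], .hi 7, [.l [13, 15, 1, 11, 2, 9, 5, 1, 6, 3], .l [13, 15, 1, 11, 2, 9, 5, 1, 6, 3], .l [5, 15, 9, 8, 2, 9, 4, 8], .l [2, 6, 5], .l [3, 15, 11, 4, 11], .l [3, 15, 11, 4, 11], .l [4, 8, 5], .l [3, 13, 9, 2, 9], .l [5, 15, 9, 2, 9], .l [5, 15, 9, 2, 9], .l [6, 8, 3], .y [7], .l [13, 15, 1, 11, 4, 9, 3, 1, 6, 1], .l [13, 15, 1, 11, 4, 9, 3, 1, 6, 1], .l [7, 15, 7, 16, 10, 11, 4, 9,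 3, 1, 6, 7], .l [13, 15, 1, 9, 2, 7, 3, 1, 4, 5], .l [13, 15, 1, 9, 2, 7, 3, 1, 4, 5], .l [7, 15, 7, 16, 10, 13, 6, 11, 3, 1, 8, 3], .l [6, 13, 6, 3, 13, 9, 10, 3, 8, 3], .l [11, 13, 1, 9, 2, 7, 3, 1, 4, 7], .l [11, 13, 1, 9, 2, 7, 3, 1, 4, 7], .l [3, 13, 9, 8, 2, 11, 6, 3], .l [11, 13, 1, 9, 2, 7, 3, 1, 4, 9], .l [11, 13, 1, 9, 2, 7, 3, 1, 4, 9], .l [3, 13, 9, 8, 2, 13, 8, 3]]),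
([p 7 0, g, s 0 1, g, m 0 2, g, m 2 3, s 0 4, g, s 6 0, g, s 0 5, s 3 6, p 1 7, g, m 5 0, g, s 4 0, g], .hi 9, [.l [1, 15, 13, 8, 14, 3, 10, 5, 8, 5], .l [1, 15, 13, 8, 14, 3, 10, 5, 8, 5], .l [2, 10, 16, 3, 12, 7, 10, 5], .l [1, 13, 11, 6, 12, 3, 8, 3, 6, 5], .l [3, 15, 11, 6, 14, 5, 10, 3, 8, 1], .l [1, 17, 3, 4, 11, 6, 7, 10, 9, 3], .l [4, 10, 2, 11, 12, 5, 9, 4, 1, 6, 2, 9], .y [4, 6, 12, 9], .l [5, 8, 6, 14, 10, 5, 13, 5, 8, 1, 6, 1], .l [1, 15, 13, 12, 2, 7, 4, 4, 1, 6, 4, 9], .l [1, 15, 13, 12, 2, 2, 5, 7, 5, 10], .l [4, 13, 8, 14, 7, 8, 3, 9, 1, 8, 6, 1], .l [8, 15, 6, 1, 14, 10, 11, 4, 9, 1], .l [17, 3, 4, 6, 1, 7, 5, 8], .l [5, 11, 1, 17, 13, 4, 8, 4, 2, 11, 8, 1], .l [11, 1, 14, 3, 14, 12, 9, 2, 7, 1], .l [10,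 15, 4, 12, 2, 7, 1, 9, 2, 5, 2, 9], .l [13, 15, 1, 9, 2, 7, 1, 8, 1, 4, 2, 9], .l [11, 1, 12, 1, 9, 2, 7, 1], .l [9, 14, 7, 5, 8, 8, 6, 12, 6, 3], .l [8, 12, 9, 12, 6, 11, 1, 6, 12, 3, 4, 1], .l [11, 13, 1, 9, 2, 7, 1, 10, 3, 6, 2, 9], .l [17, 7, 16, 12, 1, 12, 9, 2, 7, 1], .l [8, 12, 9, 12, 6, 13, 3, 8, 12, 6, 2, 3], .l [11, 13, 1, 9, 2, 7, 1, 12, 5, 8, 2, 9], .l [19, 9, 18, 14, 1, 14, 9, 2, 7, 1], .l [5, 12, 2, 2, 16, 1, 11, 4, 6, 2, 10, 3], .l [11, 13, 1, 9, 2, 7, 1, 14, 7, 10, 2, 3]]),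
([p 7 0, g, s 0 1, g, m 0 2, g, m 2 3, s 0 4, g, s 6 0, g, s 0 5, s 3 6, p 1 7, g, s 4 0, g, m 5 0, g], .hi 9, [.l [1, 15, 13, 8, 16, 5, 12, 5, 10, 7], .l [1, 15, 13, 8, 16, 5, 12, 5, 10, 7], .l [2, 10, 18, 5, 14, 7, 12, 7], .l [1, 13, 11, 6, 14, 5, 10, 3, 8, 7], .l [3, 15, 11, 6, 16, 7, 12, 3, 10, 1], .l [1, 19, 5, 6, 13, 6, 7, 12, 11, 3], .l [4, 10, 2, 11, 12, 5, 9, 4, 1, 6, 2, 7], .y [4, 6, 12, 9], .l [5, 8, 6, 14, 10, 5, 15, 7, 10, 1, 8, 1], .l [1, 15, 13, 12, 2, 7, 4, 4, 1, 6, 4, 7], .l [1, 15, 13, 12, 2, 2, 5, 7, 5, 8], .l [4, 13, 8, 16, 9, 10, 5, 11, 1, 10, 8, 1], .l [8, 15, 6, 1, 16, 12, 13, 6, 11, 1], .l [19, 5, 6, 8, 1, 9, 7, 10], .l [5, 11, 1, 15, 11, 4, 8, 4, 2, 9, 6, 1], .l [11, 1, 14, 3, 16, 14, 9, 2, 7, 1],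 .l [10, 15, 4, 12, 2, 7, 1, 9, 2, 5, 2, 7], .l [13, 15, 1, 9, 2, 7, 1, 8, 1, 4, 2, 7], .l [11, 1, 12, 1, 9, 2, 7, 1], .l [9, 14, 7, 5, 8, 8, 6, 14, 8, 3], .l [8, 12, 9, 12, 6, 11, 1, 6, 10, 12, 8, 9], .l [11, 13, 1, 9, 2, 7, 1, 10, 3, 6, 2, 7], .l [9, 16, 9, 5, 10, 10, 8, 14, 6, 3], .l [8, 12, 2, 18, 16, 6, 9, 3, 10, 3, 8, 5], .l [11, 13, 1, 9, 2, 7, 1, 12, 5, 8, 2, 3], .l [19, 9, 18, 14, 3, 14, 9, 2, 7, 1], .l [5, 9, 17, 3, 13, 4, 8, 4, 2, 6], .l [11, 13, 1, 9, 2, 7, 1, 14, 7, 10, 2, 5]]),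
([p 6 0, g, s 0 1, g, m 0 2, g, m 2 3, s 0 0, g, s 5 0, g, s 0 4, s 3 5, p 1 6, g, m 4 0, g], .hi 7, [.l [7, 15, 7, 5, 8, 3, 10, 5, 8, 3], .l [13, 15, 1, 11, 2, 9, 3, 12, 1, 6, 2, 7], .l [7, 15, 7, 5, 8, 3, 10], .l [1, 13, 11, 4, 12, 3, 4, 6, 2, 7], .l [7, 15, 7, 5, 10, 5, 10, 3, 8, 1], .l [1, 17, 3, 4, 11, 4, 6, 5, 6, 9, 8, 3], .l [7, 15, 7, 5, 10, 5, 10], .l [4, 6, 5], .l [5, 15, 9, 2, 11], .l [5, 15, 9, 2, 11], .l [6, 8, 5], .y [7], .l [8, 14, 11, 14, 8, 5, 10, 12, 2, 3], .l [4, 15, 10, 16, 7, 8, 3, 11, 1, 10, 6, 1], .l [9, 1, 14, 5, 14, 10, 11, 4, 9, 1], .l [10, 14, 9, 14, 8, 3, 10, 12, 2, 5], .l [6, 15, 8, 3, 15, 9, 12, 5, 10, 1], .l [11, 3, 14, 3, 14, 12, 9, 2, 7, 1], .l [6, 13, 6, 3, 13, 9, 10, 3, 8, 1], .r 3789 [1,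 2, 3, 7, 4, 5, 6] [1, 1, 1, 1, 1, 1, 1, 1], .l [17, 5, 6, 3, 6, 7, 5, 8], .l [5, 13, 7, 5, 12, 7, 4], .r 3788 [1, 2, 3, 7, 4, 5, 6] [1, 1, 1, 1, 1, 1, 1, 1], .l [11, 13, 1, 9, 2, 7, 1, 10, 1, 6, 2, 7], .l [5, 13, 7, 5, 14, 9, 4]]),
([p 5 0, g, s 0 1, g, m 0 2, s 0 0, g, s 4 0, g, s 0 3, s 2 4, p 1 5, g, m 3 0, g], .lo 4, [.l [4, 3], .l [6, 3, 12, 6, 8, 2, 8, 10, 4, 5], .l [6, 3], .r 3787 [6, 1, 2, 3, 4, 5] [1, 1, 1, 1, 1, 1, 1], .l [6, 1, 3, 10, 7, 9, 7, 9, 4, 5], .l [6, 1], .r 3790 [1, 6, 2, 3, 4, 5] [1, 1, 1, 1, 1, 1, 1], .c, .l [7, 2, 12, 5, 13, 9, 10, 5, 8, 1], .l [7, 2], .l [4, 6], .y [4, 10, 7], .l [9, 4, 12, 3, 13, 11, 6, 1, 4, 1], .l [9, 4], .l [4, 8], .l [15, 5, 6, 3, 7, 7, 4, 7], .l [13, 8], .l [4, 12], .l [4,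 12], .l [15, 10, 14, 7, 1, 7, 8, 3, 6, 1], .l [15, 10], .l [4, 14]]),
([p 5 0, g, m 3 0, g, s 0 1, g, m 0 2, g, s 4 0, g, s 0 3, s 2 4, p 1 5, g], .lo 10, [.l [10, 9, 1, 7, 9, 1, 4], .l [12, 9, 1, 7, 11, 1, 8, 1, 6, 3], .l [12, 9, 1, 7, 11, 1, 6], .l [7, 14, 6, 4, 6], .y [2, 10], .l [3, 14, 10, 7, 11, 3, 8, 1, 6, 3], .l [12, 9, 1, 7, 11, 1, 6], .l [3, 14, 10, 7, 11, 3, 6], .l [5, 14, 8, 5, 9, 3, 6, 1, 4, 5], .l [12, 9, 3, 7, 11, 1, 6], .l [5, 14, 8, 5, 9, 3, 4], .l [9, 14, 4, 2, 10, 1, 6, 3], .l [5, 14, 8, 6, 3], .l [7, 14, 6, 3, 7, 3, 8], .l [10, 1, 11, 1, 8, 1, 6, 3], .l [9, 14, 4, 1, 5, 3, 8, 1, 6, 3], .l [5, 14, 8, 6, 1], .l [9, 14, 4, 1, 5, 3, 6], .l [7, 12, 4, 2, 10, 1, 6, 3], .l [2, 9, 13, 3, 8], .l [5, 12, 6, 4,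 10]]),
([p 4 0, g, s 0 1, g, m 0 2, s 0 0, g, s 3 0, g, s 0 0, s 2 3, p 1 4, g], .hi 9, [.l [5, 13, 7, 5, 7, 9, 7, 2], .l [5, 13, 7, 5, 7], .r 3792 [1, 2, 5, 3, 4] [1, 1, 1, 2, 1, 1], .l [3, 11, 7, 5, 7, 7, 5, 2], .l [11, 6, 8, 10, 2, 9, 7, 2], .l [5, 13, 7, 5, 9], .l [11, 6, 8, 10, 2, 9, 7, 2], .l [3, 11, 7, 5, 4], .l [6, 11, 4, 2, 7, 0, 4, 1], .l [8, 13, 4, 2, 9, 2, 5, 1], .l [8, 13, 4, 2, 9, 2, 5, 1], .l [3, 13, 9, 7, 3], .l [11, 1, 12, 1, 7, 2, 5, 1], .r 3786 [1, 2, 5, 3, 4] [1, 1, 2, 1, 1, 1], .l [3, 13, 9, 7, 1], .y [9], .l [6, 11, 4, 2, 9, 2, 5, 1], .l [3, 11, 7, 5, 9], .r 3791 [1, 2, 5, 3, 4] [1, 1, 1, 1, 1, 1]]),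
([p 6 0, g, s 0 1, g, m 0 2, g, s 5 0, g, m 0 3, g, m 3 4, s 2 5, p 1 6, g, m 4 0, g], .hi 14, [.l [15, 16, 12, 14, 2, 3, 5, 3, 6, 1, 4, 5], .l [1, 14, 12, 13], .l [2, 15], .l [10, 12, 1, 6, 1, 4, 1, 1, 7, 7, 5, 5, 3], .l [1, 4, 14, 14, 10, 12, 4, 3, 6, 1, 4, 5], .l [3, 14, 10, 13], .l [4, 15], .l [4, 13], .l [3, 6, 14, 14, 10, 12, 4, 2, 8], .l [5, 14, 8, 13], .l [6, 15], .l [3, 8, 14, 14, 10, 12, 6, 4, 8], .l [5, 14, 8, 6, 4, 12, 1, 4, 1, 9, 3, 3, 1], .l [8, 15], .y [8, 10, 14], .l [9, 14, 4, 13, 1, 9, 4], .l [5, 14, 8, 6, 2, 12, 1, 4, 1, 9, 1, 3, 1], .l [10, 15], .l [15, 16, 10, 12, 2, 11, 1, 9, 4], .l [13, 16, 12, 12, 10, 13, 5, 1], .l [14, 15], .l [13, 14, 10, 12, 2, 11, 1, 9, 4], .l [13, 14, 10, 10, 8, 11, 3, 10], .l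 [11, 4, 11, 0, 1, 10, 3, 4, 9, 7, 3, 6, 3]]),
([p 5 0, g, s 0 1, g, m 0 2, g, s 4 0, g, m 0 3, g, m 3 0, s 2 4, p 1 5, g], .hi 10, [.l [11, 14, 2, 3, 5, 3, 6, 1, 4, 5], .l [1, 14, 12, 9], .l [2, 11], .l [9, 10, 8, 11, 3, 4, 4, 2, 3], .l [1, 4, 10, 12, 4, 3, 6, 1, 4, 5], .l [3, 14, 10, 7], .l [4, 11], .l [4, 9], .l [3, 6, 10, 12, 4, 2, 8], .l [5, 14, 8, 5], .l [6, 11], .l [3, 8, 10, 12, 6, 4, 8], .l [7, 14, 6, 3], .l [8, 11], .y [8, 10], .l [11, 14, 2, 11, 1, 9, 4], .l [9, 12, 10, 13, 5, 1], .l [10, 11], .l [9, 12, 2, 11, 1, 9, 4], .l [9, 10, 8, 11, 3, 10], .r 3794 [1, 2, 3, 6, 4, 5] [1, 1, 1, 1, 1, 1, 1]]),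
([p 4 0, g, s 0 1, g, m 0 2, g, s 3 0, g, m 0 0, s 2 3, p 1 4, g], .lo 8, [.l [8, 7], .l [5, 12, 6, 4, 6], .l [10, 7], .l [5, 12, 6, 4, 6], .l [5, 12, 6, 4, 8], .l [10, 5], .l [5, 12, 6, 4, 8], .l [3, 12, 8, 6, 3], .l [10, 3], .l [7, 12, 4, 2, 8], .l [3, 10, 6, 4, 1], .l [3, 12, 8, 6, 1], .l [10, 1], .r 3795 [1, 2, 5, 3, 4] [1, 1, 1, 1, 1, 1], .y [8], .l [3, 10, 6, 4, 8], .l [12, 3], .l [8, 11]]),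
([p 5 0, g, s 0 1, g, m 0 2, g, s 4 0, g, p 3 0, g, p 6 3, s 2 4, p 1 5, g, p 0 6, g], .lo 14, [.l [0, 13], .l [15, 16, 12, 14, 2, 3, 5, 3, 6, 1, 4, 5], .l [2, 15], .l [1, 14, 12, 13], .l [1, 4, 14, 14, 10, 12, 4, 3, 6, 1, 4, 5], .l [4, 15], .l [3, 14, 10, 13], .l [3, 6, 14, 14, 10, 12, 4, 2, 8], .l [6, 15], .l [5, 14, 8, 13], .l [10, 12, 1, 6, 1, 4, 1, 3, 7, 7, 5, 5, 3], .l [3, 8, 14, 14, 10, 12, 6, 4, 8], .l [8, 15], .l [5, 14, 8, 6, 4, 12, 1, 4, 1, 9, 3, 3, 1], .y [8, 14, 10], .l [9, 14, 4, 13, 1, 9, 4], .l [10, 15], .l [5, 14, 8, 6, 2, 12, 1, 4, 1, 9, 1, 3, 1], .l [15, 16, 10, 12, 2, 11, 1, 9, 4], .l [14, 15], .l [13, 16, 12, 12, 10, 13, 5, 1], .l [13, 14, 10, 12, 2, 11, 1, 9, 4], .l [11, 4, 11, 0, 1, 10, 3, 4, 9, 7,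 3, 6, 3], .l [13, 14, 10, 10, 8, 11, 3, 10]]),
([p 5 0, g, s 0 1, g, m 0 2, g, s 4 0, g, p 3 0, g, p 0 3, s 2 4, p 1 5, g], .lo 10, [.l [0, 9], .l [11, 14, 2, 3, 5, 3, 6, 1, 4, 5], .l [2, 11], .l [1, 14, 12, 9], .l [1, 4, 10, 12, 4, 3, 6, 1, 4, 5], .l [4, 11], .l [3, 14, 10, 7], .l [3, 6, 10, 12, 4, 2, 8], .l [6, 11], .l [5, 14, 8, 5], .l [3, 6, 8, 10, 4, 2, 6], .l [3, 8, 10, 12, 6, 4, 8], .l [8, 11], .l [7, 14, 6, 3], .y [8, 10], .l [11, 14, 2, 11, 1, 9, 4], .l [10, 11], .l [9, 12, 10, 13, 5, 1], .l [9, 12, 2, 11, 1, 9, 4], .r 3797 [1, 2, 3, 4, 5, 6] [1, 1, 1, 1, 1, 1, 1], .l [9, 10, 8, 11, 3, 10]]),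
([p 4 0, g, s 0 1, g, m 0 2, g, s 3 0, g, p 0 0, s 2 3, p 1 4, g], .hi 8, [.l [5, 12, 6, 4, 6], .l [5, 12, 6, 4, 6], .l [10, 7], .l [3, 10, 6, 4, 6], .l [5, 12, 6, 4, 8], .l [5, 12, 6, 4, 8], .l [10, 5], .l [8, 3], .l [3, 12, 8, 6, 3], .l [7, 12, 4, 2, 8], .l [10, 3], .l [3, 12, 8, 6, 1], .r 3798 [1, 2, 5, 3, 4] [1, 1, 1, 1, 1, 1], .l [10, 1], .y [8], .l [3, 10, 6, 4, 8], .l [8, 11], .l [12, 3]]),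
([p 4 0, g, s 0 1, g, m 0 2, s 0 0, g, s 3 0, g, s 2 3, p 1 4, g], .bot 8, [.c, .r 3793 [1, 2, 3, 4] [1, 1, 1, 1, 1], .r 3799 [1, 2, 3, 4] [1, 1, 2, 1, 1], .r 3796 [1, 2, 3, 4] [1, 1, 2, 1, 1]]),
([p 4 0, g, s 0 1, g, m 0 2, g, s 3 0, g, s 2 3, p 1 4, g], .top 5, [.r 3785 [1, 2, 3, 4] [1, 1, 1, 1], .r 3800 [1, 2, 3, 4] [1, 1, 1, 1, 1], .r 3683 [2, 4] [3, 3, 1], .r 3706 [2, 4] [3, 3, 1]]),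
([p 6 0, g, s 5 0, g, s 0 1, g, m 0 2, g, m 2 3, g, m 3 0, m 0 4, g, s 4 5, p 1 6, g], .lo 6, [.l [6, 5], .l [8, 5, 15, 7, 9, 7, 7, 5, 1], .l [8, 5], .l [5, 8, 4, 14, 12, 11, 6, 8, 6, 6, 4, 1], .l [3, 14, 10, 9, 10, 10, 6, 6, 4, 4, 2, 1], .l [8, 3, 15, 7, 11, 9, 9, 7, 1], .l [8, 3], .l [15, 12, 15, 0, 10, 12, 10, 10, 8, 8, 6, 1], .l [8, 1, 15, 7, 13, 11, 11, 9, 1], .l [8, 1], .l [6, 2, 15, 10, 14, 12, 10, 8, 8, 6, 6, 4, 1], .l [8, 1, 3, 13, 8, 10, 6, 6, 4, 1], .l [8, 1], .l [6, 7], .l [10, 3, 15, 5, 13, 11, 1], .l [10, 3], .l [6, 9], .y [6, 8, 10], .l [13, 6, 6, 4, 4, 2, 9], .l [13, 6], .l [6, 12], .l [16, 9, 9, 7, 7, 5, 1], .l [16, 9], .l [6, 15]]),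
([p 5 0, g, s 4 0, g, s 0 1, g, m 0 2, g, m 2 0, m 0 3, g, s 3 4, p 1 5, g], .lo 6, [.l [6, 5], .l [8, 5, 13, 5, 7, 5, 1], .l [8, 5], .l [5, 8, 4, 12, 10, 9, 4, 6, 4, 1], .l [3, 12, 8, 7, 8, 8, 4, 4, 2, 1], .l [8, 3, 13, 5, 9, 7, 1], .l [8, 3], .l [13, 10, 13, 0, 8, 10, 8, 8, 6, 1], .l [8, 1, 13, 5, 11, 9, 1], .l [8, 1], .r 3802 [1, 6, 2, 3, 4, 5] [1, 1, 1, 1, 1, 1, 1], .l [8, 1, 3, 11, 6, 8, 4, 1], .l [8, 1], .l [6, 7], .y [6, 8], .l [11, 4, 4, 2, 9], .l [11, 4], .l [6, 10], .l [14, 7, 7, 5, 1], .l [14, 7], .l [6, 13]]),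
([p 6 0, g, s 0 1, g, m 0 2, g, m 2 3, g, m 3 0, m 0 4, g, s 4 5, p 1 6, g, s 5 0, g], .hi 8, [.l [12, 16, 2, 6, 1, 10, 5, 6, 8, 5], .l [1, 14, 12, 7], .l [2, 9], .l [10, 12, 1, 11, 1, 10, 1, 1, 5, 5, 3, 3, 1], .l [12, 2, 6, 8, 10, 11, 6, 2, 8, 3], .l [3, 14, 10, 5], .l [4, 9], .y [4, 6, 8], .l [12, 2, 4, 8, 10, 11, 8, 2, 8, 1], .l [5, 8, 6, 12, 8, 3], .l [6, 9], .l [9, 14, 4, 11, 1, 9, 1], .l [1, 14, 12, 11, 5, 1, 6, 4, 1], .l [8, 9], .l [7, 12, 4, 0, 9, 9, 7, 4, 7, 2, 0, 4, 1], .l [7, 14, 6, 2, 4, 2, 9], .l [7, 8, 6, 6, 4, 11, 7, 3], .l [7, 14, 6, 0, 11, 11, 9, 4, 9, 4, 2, 6, 1], .l [7, 12, 4, 11, 1, 9, 1], .l [7, 8, 6, 6, 4, 9, 5, 8], .l [10, 14, 11, 11, 9, 9, 7, 5, 1, 8, 1, 6, 1], .l [7, 12, 4, 13, 3, 11, 1], .l [7,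 8, 6, 6, 4, 9, 5, 10], .l [13, 16, 10, 14, 6, 4, 4, 2, 9]]),
([p 5 0, g, s 0 1, g, m 0 2, g, m 2 0, m 0 3, g, s 3 4, p 1 5, g, s 4 0, g], .lo 4, [.l [4, 3], .l [6, 3, 11, 5, 7, 5, 1], .l [6, 3], .l [14, 2, 8, 10, 8, 8, 6, 1], .l [6, 1, 11, 5, 9, 7, 1], .l [6, 1], .r 3804 [1, 6, 2, 3, 4, 5] [1, 1, 1, 1, 1, 1, 1], .l [10, 14, 2, 4, 8, 1, 3, 4, 6, 3], .l [6, 1], .l [4, 5], .y [4, 6], .l [9, 4, 4, 2, 7], .l [9, 4], .l [4, 8], .l [12, 7, 7, 5, 1], .l [12, 7], .l [4, 11], .l [1, 10, 8, 7, 8, 8, 4, 4, 2, 1], .l [14, 9, 9, 7, 1], .l [14, 9], .l [4, 13]]),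
([p 6 0, g, s 0 1, g, s 5 0, g, m 0 2, g, m 2 3, g, m 3 0, m 0 4, g, s 4 5, p 1 6, g], .lo 6, [.l [6, 5], .l [8, 5, 15, 7, 9, 7, 7, 5, 1], .l [8, 5], .l [15, 8, 12, 10, 10, 8, 8, 6, 1], .l [8, 3, 15, 7, 11, 9, 9, 7, 1], .l [8, 3], .l [1, 16, 14, 13, 8, 10, 8, 8, 6, 6, 4, 1], .l [1, 14, 12, 11, 8, 8, 6, 6, 4, 4, 2, 1], .l [8, 1, 15, 7, 13, 11, 11, 9, 1], .l [8, 1], .l [6, 4, 15, 12, 14, 10, 12, 10, 10, 8, 8, 6, 1], .l [8, 1, 5, 13, 10, 12, 8, 10, 8, 8, 6, 1], .l [8, 1], .l [6, 7], .l [10, 3, 15, 5, 13, 11, 1], .l [10, 3], .l [6, 9], .y [6, 8, 10], .l [13, 6, 6, 4, 4, 2, 9], .l [13, 6], .l [6, 12], .l [16, 9, 9, 7, 7, 5, 1], .l [16, 9], .l [6, 15]]),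
([p 5 0, g, s 0 1, g, s 4 0, g, m 0 2, g, m 2 0, m 0 3, g, s 3 4, p 1 5, g], .lo 6, [.l [6, 5], .l [8, 5, 13, 5, 7, 5, 1], .l [8, 5], .l [13, 6, 10, 8, 8, 6, 1], .l [8, 3, 13, 5, 9, 7, 1], .l [8, 3], .l [1, 14, 12, 11, 6, 8, 6, 6, 4, 1], .l [1, 12, 10, 9, 6, 6, 4, 4, 2, 1], .l [8, 1, 13, 5, 11, 9, 1], .l [8, 1], .r 3806 [1, 6, 2, 3, 4, 5] [1, 1, 1, 1, 1, 1, 1], .l [8, 1, 5, 11, 8, 10, 6, 8, 6, 1], .l [8, 1], .l [6, 7], .y [6, 8], .l [11, 4, 4, 2, 9], .l [11, 4], .l [6, 10], .l [14, 7, 7, 5, 1], .l [14, 7], .l [6, 13]]),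
([p 4 0, g, s 0 1, g, m 0 2, g, m 2 0, m 0 3, g, s 3 0, p 1 4, g], .hi 9, [.r 3803 [1, 2, 3, 5, 4] [1, 1, 1, 1, 1, 1], .l [3, 12, 8, 7, 8], .l [8, 12, 3, 1, 4, 2, 3], .l [1, 10, 8, 7, 6], .r 3807 [1, 2, 3, 5, 4] [1, 1, 1, 1, 1, 1], .l [10, 12, 1, 9, 4, 8, 1], .l [1, 12, 10, 9, 6], .l [1, 10, 8, 7, 4], .l [1, 12, 10, 9, 4, 6, 4, 1], .l [5, 12, 6, 4, 4, 2, 7], .l [1, 12, 10, 9, 4], .y [7, 9], .r 3801 [1, 3, 5, 4] [1, 4, 1, 1, 1], .l [10, 12, 1, 9, 1, 8, 1], .l [1, 12, 10, 9, 1], .r 3805 [1, 2, 3, 5, 4] [1, 1, 1, 1, 1, 1], .l [1, 10, 8, 7, 8], .l [6, 10, 3, 1, 10, 8, 1]]),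
([p 4 0, g, m 0 1, g, s 0 2, g, m 1 0, m 0 3, g, s 3 0, p 2 4, g], .hi 9, [.l [11, 8, 11, 0, 6, 8, 6, 1], .l [5, 8, 6, 11, 7, 6, 7], .l [8, 12, 3, 1, 4, 2, 5], .l [2, 8, 8, 6, 5], .l [3, 12, 8, 6, 6, 4, 7], .l [3, 12, 8, 6, 6, 4, 7], .l [4, 10, 10, 8, 5], .l [3, 6, 4, 9, 7, 6, 5], .l [5, 12, 6, 4, 4, 2, 5], .l [5, 12, 6, 4, 4, 2, 5], .l [3, 8, 6, 11, 9, 8, 5], .y [7, 9], .r 3801 [2, 3, 5, 4] [3, 2, 1, 1, 1], .l [10, 12, 1, 9, 1, 8, 3], .l [3, 6, 4, 11, 9, 8, 1], .l [12, 2, 6, 8, 6, 1], .l [3, 6, 4, 9, 7, 6, 7], .l [6, 10, 3, 1, 10, 8, 3]]),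
([p 3 0, g, s 0 1, g, m 0 0, m 0 2, g, s 2 0, p 1 3, g], .lo 4, [.l [4, 3], .l [6, 3, 9, 3, 1], .l [6, 3], .r 3809 [4, 1, 2, 3] [1, 1, 1, 1, 1], .l [6, 1, 9, 3, 1], .l [6, 1], .r 3808 [1, 4, 2, 3] [1, 1, 1, 1, 1], .y [4], .l [7, 2, 7], .l [7, 2], .l [4, 6], .l [1, 8, 6, 5, 2], .l [6, 8, 1, 5, 6], .l [10, 5], .l [4, 9]]),
([p 5 0, g, s 4 0, g, s 0 1, g, p 2 0, g, s 0 2, m 0 3, g, s 3 4, p 1 5, g], .lo 8, [.l [5, 12, 6, 1, 5, 3, 1], .l [1, 14, 12, 7, 3, 9, 4, 6, 4, 1], .l [7, 14, 6, 1, 7, 5, 1], .l [9, 14, 4, 11, 5, 9, 1], .l [8, 5, 11, 3, 1, 6, 1, 1, 2, 3], .l [3, 6, 12, 6, 11, 2, 6, 1], .l [7, 14, 6, 1, 9, 7, 1], .l [9, 14, 4, 11, 3, 9, 1], .l [10, 3, 5, 11, 4, 10, 8, 1], .l [7, 14, 6, 1, 11, 9, 1], .l [9, 14, 4, 11, 1,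 9, 1], .y [6, 8], .l [7, 3, 12, 7, 11, 9, 1, 6, 4, 1], .l [10, 1, 13, 3, 1], .l [9, 14, 4, 11, 1, 9, 1], .l [3, 11, 2, 10, 11, 7, 6, 7], .l [5, 14, 8, 1, 4, 2, 3], .l [7, 14, 6, 11, 8, 9, 6], .l [3, 12, 8, 7, 8, 10, 4, 1], .l [5, 12, 6, 1, 11, 9, 1], .l [7, 12, 4, 11, 1, 9, 1]]),
([p 4 0, g, s 3 0, g, s 0 1, g, s 0 0, m 0 2, g, s 2 3, p 1 4, g], .hi 6, [.l [6, 11, 8, 10, 6, 8, 6, 1], .l [11, 6, 8, 4, 1, 8, 0, 1], .l [8, 5, 11, 3, 1], .l [3, 6, 10, 4, 9, 2, 6, 1], .l [3, 6, 10, 4, 9, 2, 6, 1], .l [8, 3, 11, 3, 1], .l [6, 1, 1, 7, 4, 6, 4, 1], .l [8, 1, 3, 9, 4, 8, 6, 1], .r 3811 [1, 5, 2, 3, 4] [1, 1, 1, 1, 1, 1], .l [8, 1, 11, 3, 1], .y [6], .l [7, 0, 7], .l [3, 9, 2, 8, 9, 5, 4, 5], .l [10, 12, 1, 7, 8], .l [9, 2, 9], .l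 [3, 10, 6, 5, 6, 8, 4, 1], .l [8, 10, 1, 7, 8], .l [12, 5, 1]]),
([p 5 0, g, s 0 1, g, s 4 0, g, p 2 0, g, s 0 2, m 0 3, g, s 3 4, p 1 5, g], .lo 8, [.l [5, 12, 6, 1, 5, 3, 1], .l [1, 4, 12, 6, 11, 2, 6, 1], .l [7, 14, 6, 1, 7, 5, 1], .l [9, 14, 4, 11, 5, 9, 1], .l [1, 6, 11, 12, 5, 4, 8, 5], .l [7, 14, 6, 1, 9, 7, 1], .l [9, 14, 4, 11, 3, 9, 1], .l [8, 3, 11, 3, 1, 8, 1, 1, 4, 1], .l [1, 4, 11, 12, 3, 2, 8, 3], .l [7, 14, 6, 1, 11, 9, 1], .l [9, 14, 4, 11, 1, 9, 1], .y [6, 8], .l [1, 4, 11, 12, 3, 2, 8, 1], .l [10, 1, 13, 3, 1], .l [9, 14, 4, 11, 1, 9, 1], .l [1, 4, 11, 12, 3, 2, 6, 7], .l [5, 14, 8, 1, 4, 2, 3], .l [7, 14, 6, 11, 8, 9, 6], .l [1, 4, 9, 10, 3, 2, 6, 7], .l [5, 12, 6, 1, 11, 9, 1], .l [7, 12, 4, 11, 1, 9,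 1]]),
([p 4 0, g, s 0 1, g, s 3 0, g, s 0 0, m 0 2, g, s 2 3, p 1 4, g], .hi 6, [.l [1, 4, 10, 4, 9, 2, 6, 1], .l [1, 4, 10, 4, 9, 2, 6, 1], .l [8, 5, 11, 3, 1], .l [6, 3, 3, 7, 4, 6, 4, 1], .l [1, 6, 9, 10, 5, 4, 6, 3], .l [1, 6, 9, 10, 5, 4, 6, 3], .l [8, 3, 11, 3, 1], .l [1, 4, 9, 10, 3, 2, 6, 1], .r 3813 [1, 5, 2, 3, 4] [1, 1, 1, 1, 1, 1], .l [8, 1, 11, 3, 1], .y [6], .l [7, 0, 7], .l [1, 4, 9, 10, 3, 2, 4, 5], .l [10, 12, 1, 7, 8], .l [9, 2, 9], .l [1, 4, 7, 8, 3, 2, 4, 5], .l [8, 10, 1, 7, 8], .l [12, 5, 1]]),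
([p 5 0, g, s 0 1, g, p 2 0, g, s 0 2, m 0 3, g, s 3 4, p 1 5, g, s 4 0, g], .lo 6, [.l [3, 10, 6, 1, 5, 3, 1], .l [8, 5, 11, 3, 1, 6, 1, 6, 2, 5], .l [5, 12, 6, 1, 7, 5, 1], .l [7, 12, 4, 9, 3, 7, 1], .l [8, 3, 11, 3, 1, 10, 8, 1], .l [5, 12, 6, 1, 9, 7, 1], .l [7, 12, 4, 9, 1, 7, 1], .y [4, 6], .l [7, 12, 4, 9, 1, 7, 1, 8, 6, 1], .l [8, 1, 11, 3, 1], .l [7, 12, 4, 9, 1, 7, 1], .l [1, 9, 2, 8, 9, 7, 6, 7], .l [3, 12, 8, 1, 4, 2, 3], .l [5, 12, 6, 9, 6, 7, 4], .l [1, 12, 5, 1, 2, 7, 6, 7], .l [3, 10, 6, 1, 9, 7, 1], .l [5, 10, 4, 9, 1, 7, 1], .l [5, 10, 4, 9, 1, 7, 1, 6, 4, 1], .l [1, 10, 8, 7, 8, 10, 4, 1], .l [3, 10, 6, 1, 11, 9, 1], .l [5, 10, 4, 11, 3, 9, 1]]),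
([p 4 0, g, s 0 1, g, s 0 0, m 0 2, g, s 2 3, p 1 4, g, s 3 0, g], .hi 4, [.l [6, 3, 9, 3, 1, 8, 6, 3], .l [12, 2, 6, 8, 6, 1], .l [6, 3, 9, 3, 1], .l [4, 1, 7, 3, 1, 6, 4, 1], .l [6, 1, 9, 3, 1, 8, 6, 1], .r 3815 [1, 5, 2, 3, 4] [1, 1, 1, 1, 1, 1], .l [6, 1, 9, 3, 1], .y [4], .l [5, 0, 5], .l [1, 7, 2, 6, 7, 5, 4, 5], .l [8, 10, 1, 5, 6], .l [7, 2, 7], .l [1, 10, 5, 1, 2, 5, 4, 5], .l [6, 8, 1, 5, 6], .l [10, 5, 1], .l [1, 8, 6, 5, 6, 8, 4, 1], .l [6, 8, 1, 5, 8], .l [12, 7, 1]]),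
([p 3 0, g, s 0 1, g, s 0 0, m 0 2, g, s 2 0, p 1 3, g], .hi 7, [.r 3812 [1, 2, 4, 3] [1, 1, 1, 1, 1], .l [3, 10, 6, 5, 6], .l [6, 10, 3, 1, 4, 2, 3], .l [1, 8, 6, 5, 4], .r 3814 [1, 2, 4, 3] [1, 1, 1, 1, 1], .l [8, 10, 1, 7, 2, 6, 1], .l [1, 10, 8, 7, 4], .l [1, 8, 6, 5, 2, 1], .y [5, 7], .r 3801 [1, 2, 4, 3] [1, 2, 1, 1, 1], .l [8, 10, 1, 7, 1, 6, 1], .l [1, 10, 8, 7, 1], .r 3816 [1, 2, 4, 3] [1, 1, 1, 1, 1], .l [1, 8, 6, 5, 6], .l [4, 8, 3, 1, 8, 6, 1]]),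
([p 5 0, g, s 0 1, g, s 0 2, g, p 3 0, g, p 1 3, m 0 4, g, s 4 0, p 2 5, g], .hi 11, [.l [4, 9, 3, 11, 4, 8, 6, 1], .l [5, 14, 8, 7, 8], .l [10, 14, 3, 1, 4, 2, 5], .l [1, 2, 6, 10, 4, 2, 2, 0, 5], .l [1, 14, 12, 7, 3, 9, 4, 6, 4, 1], .l [5, 14, 8, 7, 10], .l [10, 14, 3, 1, 6, 4, 5], .l [3, 12, 8, 7, 6], .l [6, 12, 8, 5, 8, 9, 6, 3], .l [12, 14, 1, 11, 4, 10, 3], .l [3, 14, 10, 9, 6], .l [3, 14, 10, 9, 4, 6, 4, 1], .l [7, 14, 6, 4, 4, 2, 9], .l [3, 14, 10, 9, 4], .y [9, 11], .l [10, 2, 6, 12, 3, 1, 7, 2, 4, 5], .l [12, 14, 1, 11, 1, 10, 3], .l [3, 14, 10, 9, 1], .l [10, 14, 2, 6, 1, 8, 3, 4, 6, 3], .l [3, 12, 8, 7, 10], .l [8, 12, 3, 1, 12, 10, 3]]),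
([p 5 0, g, p 2 0, g, s 0 1, g, p 3 2, g, p 0 3, m 0 4, g, s 4 0, p 1 5, g], .hi 11, [.l [13, 10, 13, 0, 8, 10, 8, 8, 6, 1], .l [5, 8, 6, 12, 8, 7, 8], .l [10, 14, 3, 1, 4, 2, 5], .l [5, 8, 4, 12, 10, 9, 4, 6, 4, 1], .l [5, 14, 8, 7, 10], .l [5, 8, 4, 12, 10, 9, 4], .l [3, 6, 4, 10, 8, 7, 6], .l [13, 6, 10, 8, 8, 6, 1], .l [12, 14, 1, 11, 4, 10, 3], .l [3, 8, 6, 12, 10, 9, 6], .l [3, 6, 4, 12, 10, 9, 4, 6, 4, 1], .l [7, 14, 6, 4, 4, 2, 9], .l [3, 6, 4, 12, 10, 9, 4], .l [7, 12, 4, 2, 2, 0, 7], .y [9, 11], .r 3801 [1, 4, 6, 5] [3, 4, 1, 1, 1], .l [12, 14, 1, 11, 1, 10, 3], .l [3, 6, 4, 12, 10, 9, 1], .l [14, 2, 8, 10, 8, 8, 6, 1], .l [3, 6, 4, 10, 8, 7, 8], .l [8, 12, 3, 1, 12, 10, 3]]),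
([p 8 0, g, s 0 1, g, p 4 2, g, s 2 0, g, m 0 3, g, p 6 4, m 3 5, g, p 7 6, g, p 0 7, g, s 5 0, p 1 8, g], .lo 15, [.l [0, 14], .l [16, 17, 15, 18, 3, 4, 6, 4, 12, 10, 9, 9, 3], .l [2, 16], .l [1, 20, 18, 14], .l [1, 4, 15, 15, 13, 16, 5, 4, 12, 10, 9, 9, 3], .l [4, 16], .l [3, 20, 16, 12], .l [16, 17, 15, 15, 12, 13, 11, 14, 4, 9, 1, 7, 1], .l [6, 16], .l [1, 20, 18, 17, 13, 10, 10, 8, 8, 5, 6, 4, 8, 4, 1], .y [4, 6, 15, 13, 10], .l [16, 17, 15, 15, 12, 13, 11, 14, 4, 11, 3, 9, 1], .l [8, 16], .l [1, 20, 18, 17, 11, 8, 8, 6, 6, 3, 4, 2, 8, 6, 1], .l [16, 17, 15, 15, 12, 16, 4, 13, 5, 11, 1], .l [10, 16], .l [1, 20, 18, 17, 9, 6, 6, 4, 4, 1, 10, 8, 1], .l [7, 20, 12, 2, 15, 10, 3, 3, 1, 1, 9, 2, 0, 4, 1], .l [13, 16], .l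 [7, 20, 12, 2, 15, 10, 3, 3, 1, 1, 9, 2, 0, 4, 1], .l [12, 13, 10, 11, 9, 16, 8, 0, 11, 8, 1, 1, 7, 4, 1], .l [15, 16], .l [12, 13, 10, 11, 9, 16, 8, 0, 11, 8, 1, 1, 7, 4, 1], .l [14, 15, 13, 13, 10, 11, 9, 14, 6, 2, 4, 2, 7], .l [1, 6, 1, 13, 14, 13, 13, 11, 14, 7, 6, 10, 5], .l [14, 15, 13, 13, 10, 10, 4, 15, 11, 7], .l [14, 15, 13, 13, 10, 11, 9, 12, 4, 2, 2, 0, 5], .l [14, 15, 13, 13, 10, 11, 9, 12, 4, 11, 3, 9, 1], .l [11, 4, 18, 6, 14, 12, 12, 10, 14, 3, 7, 3, 9, 1, 3, 6, 1], .l [7, 18, 10, 2, 13, 6, 15, 6, 0, 10, 1]]),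
([p 7 0, g, s 0 1, g, p 4 2, g, s 2 0, g, m 0 3, g, p 6 4, m 3 5, g, p 0 6, g, s 5 0, p 1 7, g], .lo 13, [.l [0, 12], .l [14, 18, 3, 4, 6, 4, 12, 10, 9, 11, 9, 7, 3], .l [2, 14], .l [1, 18, 16, 12], .l [1, 4, 13, 16, 5, 4, 12, 10, 9, 11, 9, 7, 3], .l [4, 14], .l [3, 18, 14, 10], .l [14, 15, 12, 13, 11, 14, 4, 9, 1, 7, 1], .l [6, 14], .l [1, 18, 16, 15, 11, 8, 8, 5, 6, 4, 8, 4, 1], .y [4, 6, 13, 10], .l [14, 15, 12, 13, 11, 14, 4, 11, 3, 9, 1], .l [8, 14], .l [1, 18, 16, 15, 9, 6, 6, 3, 4, 2, 8, 6, 1], .l [14, 15, 12, 16, 4, 13, 5, 11, 1], .l [10, 14], .l [1, 18, 16, 15, 7, 4, 4, 1, 10, 8, 1], .l [7, 18, 10, 2, 13, 8, 1, 1, 9, 2, 0, 4, 1], .l [13, 14], .l [7, 18, 10, 2, 13, 8, 1, 1, 9, 2, 0, 4, 1], .l [12, 13, 10, 11, 9,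 14, 6, 2, 4, 2, 7], .r 3820 [1, 2, 3, 4, 5, 6, 8, 7] [1, 1, 1, 1, 1, 1, 1, 1, 1], .l [12, 13, 10, 10, 4, 15, 11, 7], .l [12, 13, 10, 11, 9, 12, 4, 2, 2, 0, 5], .l [12, 13, 10, 11, 9, 12, 4, 11, 3, 9, 1], .l [11, 4, 16, 4, 12, 10, 14, 3, 7, 3, 9, 1, 3, 6, 1], .l [7, 16, 8, 2, 11, 6, 13, 6, 0, 8, 1]]),
([p 6 0, g, s 0 1, g, p 3 2, g, s 2 0, g, p 5 3, m 0 4, g, p 0 5, g, s 4 0, p 1 6, g], .lo 9, [.l [9, 8], .l [5, 8, 1, 9, 4, 12, 5, 7, 2, 7], .l [11, 8], .l [9, 16, 6, 0, 11, 3, 8, 1, 7, 4, 1], .l [5, 8, 1, 9, 2, 12, 5, 9, 4, 1], .l [11, 6], .l [9, 16, 6, 0, 11, 1, 8, 1, 7, 4, 1], .l [11, 4, 6, 2, 11], .l [11, 4], .l [1, 8, 3, 8, 4, 8, 1, 8, 4, 9, 7, 6, 1], .l [4, 5, 8, 2, 2, 0, 7], .l [11, 2, 6, 4, 11], .l [11, 2], .r 3821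 [1, 2, 7, 3, 4, 5, 6] [1, 1, 1, 1, 1, 1, 1, 1], .l [1, 6, 1, 9, 1, 12, 7, 6, 8, 3], .l [11, 1], .l [9, 10], .l [1, 6, 1, 11, 3, 4, 2, 10, 5, 4, 6, 3], .l [13, 3], .l [9, 12], .y [9, 13], .l [6, 1, 8, 13, 8, 6, 10, 5], .l [16, 6], .l [9, 15]]),
([p 6 0, g, s 0 1, g, p 2 0, g, p 4 2, g, m 0 3, g, p 0 4, m 3 5, g, s 5 0, p 1 6, g], .hi 13, [.l [10, 16, 5, 2, 13, 7, 8, 5, 7, 8, 3, 3, 1], .l [3, 16, 12, 11, 12], .l [12, 13, 10, 12, 10, 10, 8, 11, 5, 3, 6, 2, 5], .l [1, 14, 12, 11, 10], .l [1, 4, 13, 14, 3, 2, 10, 10, 7, 9, 7, 7, 5], .l [14, 16, 1, 13, 8, 12, 1], .l [1, 16, 14, 13, 10], .l [1, 16, 14, 13, 8, 10, 8, 8, 4, 1], .l [14, 16, 1, 13, 6, 12, 1], .l [1, 16, 14, 13, 8], .l [1, 16, 14, 13, 6, 8, 4, 1], .l [7, 16, 8, 6, 6,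 4, 11], .l [1, 16, 14, 13, 6], .y [8, 11, 13], .l [1, 16, 14, 13, 4, 8, 6, 1], .l [9, 13, 11, 14, 6, 4, 4, 2, 9], .l [1, 16, 14, 13, 4], .l [9, 11, 9, 12, 4, 2, 2, 0, 7], .r 3801 [1, 5, 7, 6] [1, 8, 1, 1, 1], .l [14, 16, 1, 13, 1, 12, 1], .l [1, 16, 14, 13, 1], .l [7, 14, 6, 2, 11, 11, 9, 4, 9, 4, 0, 6, 1], .l [1, 14, 12, 11, 12], .l [10, 11, 8, 10, 8, 8, 6, 9, 5, 3, 8, 4, 1]]),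
([p 6 0, g, s 0 1, g, p 2 0, g, p 3 2, g, p 5 3, m 0 4, g, p 0 5, g, s 4 0, p 1 6, g], .lo 9, [.l [9, 8], .l [9, 16, 6, 0, 13, 13, 11, 3, 8, 1, 7, 4, 1], .l [11, 8], .l [9, 16, 6, 0, 13, 5, 10, 1, 9, 6, 3], .l [9, 16, 6, 0, 13, 3, 10, 1, 9, 6, 1, 7, 3], .l [11, 6], .l [9, 16, 6, 0, 13, 3, 10, 1, 9, 6, 1], .l [9, 4], .l [11, 4, 6, 4, 4, 2, 9], .l [11, 4], .l [9, 16, 6, 0, 13, 1, 10, 1, 9, 6, 1], .l [11, 2, 4, 2, 11], .l [11, 2], .r 3823 [1, 2, 7, 3, 4, 6] [1, 1, 1, 1, 1, 3, 1], .l [1, 11, 1, 11, 8, 9, 11, 7, 6, 8, 5, 5, 3], .l [11, 1], .l [9, 10], .l [1, 6, 7, 6, 11, 3, 4, 2, 10, 5, 4, 6, 3], .l [13, 3], .l [9, 12], .y [9, 13], .l [16, 6, 7, 5, 13, 10, 4, 5, 4, 4, 2, 6, 1], .l [16, 6], .l [9, 15]]),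
([p 5 0, g, s 0 1, g, p 2 0, g, p 4 2, m 0 3, g, p 0 4, g, s 3 0, p 1 5, g], .hi 4, [.l [6, 3, 13, 7, 9, 7, 3], .r 3819 [1, 6, 2, 3, 5] [1, 1, 1, 1, 3, 1], .l [6, 3], .l [4, 1, 11, 7, 9, 7, 3], .l [6, 1, 13, 7, 11, 9, 3], .r 3824 [1, 6, 2, 3, 4, 5] [1, 1, 1, 1, 1, 1, 1], .l [6, 1], .r 3822 [1, 6, 2, 3, 4, 5] [1, 1, 1, 1, 1, 1, 1], .l [4, 5], .l [6, 1], .l [7, 2], .l [9, 4, 4, 2, 9], .l [4, 8], .l [9, 4], .y [4, 9, 6], .l [11, 6, 6, 4, 9], .l [4, 10], .l [11, 6], .l [14, 9, 9, 7, 3], .l [4, 13], .l [14, 9]]),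
([p 5 0, g, s 0 1, g, s 0 2, g, p 3 0, g, p 2 3, m 0 4, g, s 4 0, p 1 5, g], .hi 11, [.l [1, 14, 12, 10, 6, 3, 6, 7, 4, 1], .l [3, 14, 10, 9, 10], .l [10, 14, 3, 1, 4, 2, 3], .l [1, 12, 10, 9, 8], .l [6, 9, 5, 11, 4, 6, 4, 1], .l [12, 14, 1, 11, 6, 10, 1], .l [1, 14, 12, 11, 8], .l [3, 4, 6, 10, 4, 2, 2, 0, 5], .l [12, 8, 5, 8, 10, 7, 3, 8, 2, 5], .l [12, 14, 1, 11, 4, 10, 1], .l [1, 14, 12, 11, 6], .l [1, 14, 12, 11, 4, 6, 4, 1], .l [7, 14, 6, 4, 4, 2, 9], .l [1, 14, 12, 11, 4], .y [9, 11], .l [10, 2, 4, 12, 3, 1, 9, 2, 6, 1], .l [12, 14, 1, 11, 1, 10, 1], .l [1, 14, 12, 11, 1], .l [10, 2, 4, 6, 8, 9, 6, 2, 6, 1], .l [1, 12, 10, 9, 10], .l [8, 12, 3, 1, 12, 10, 1]]),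
([p 4 0, g, s 0 1, g, p 2 0, g, p 0 2, m 0 3, g, s 3 0, p 1 4, g], .lo 6, [.l [0, 5], .r 3818 [5, 1, 2, 3, 4] [1, 1, 1, 1, 1, 1], .l [2, 7], .l [1, 12, 10, 5], .r 3826 [1, 5, 2, 3, 4] [1, 1, 1, 1, 1, 1], .l [4, 7], .l [3, 12, 8, 3], .y [4, 6], .l [7, 12, 4, 9, 1, 7, 1], .l [6, 7], .l [1, 12, 10, 9, 5, 1, 6, 4, 1], .l [5, 12, 6, 2, 4, 2, 7], .r 3825 [1, 2, 3, 5, 4] [1, 1, 1, 1, 1, 1], .l [5, 6, 4, 11, 7, 3], .l [5, 10, 4, 2, 2, 0, 5], .l [5, 10, 4, 9, 1, 7, 1], .l [7, 12, 10, 3, 6, 8, 3], .l [5, 6, 4, 9, 5, 8]]),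
([p 4 0, g, p 2 0, g, s 0 1, g, p 0 2, m 0 3, g, s 3 0, p 1 4, g], .hi 9, [.l [11, 8, 11, 0, 6, 8, 6, 1], .l [5, 8, 6, 11, 7, 6, 7], .l [8, 12, 3, 1, 4, 2, 5], .l [3, 12, 8, 6, 6, 4, 7], .l [3, 12, 8, 6, 6, 4, 7], .l [4, 10, 10, 8, 5], .l [3, 6, 4, 9, 7, 6, 5], .l [5, 12, 6, 4, 4, 2, 5], .l [5, 12, 6, 4, 4, 2, 5], .l [3, 8, 6, 11, 9, 8, 5], .l [5, 10, 4, 2, 2, 0, 3], .y [7, 9], .r 3801 [1, 3, 5, 4] [3, 2, 1, 1, 1], .l [10, 12, 1, 9, 1, 8, 3], .l [3, 6, 4, 11, 9, 8, 1], .l [12, 2, 6, 8, 6, 1], .l [3, 6, 4, 9, 7, 6, 7], .l [6, 10, 3, 1, 10, 8, 3]]),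
([p 3 0, g, s 0 1, g, p 0 0, m 0 2, g, s 2 0, p 1 3, g], .hi 4, [.l [6, 3, 9, 3, 1], .r 3828 [1, 4, 2, 3] [1, 1, 1, 1, 1], .l [6, 3], .l [4, 1, 7, 3, 1], .l [6, 1, 9, 3, 1], .r 3827 [1, 4, 2, 3] [1, 1, 1, 1, 1], .l [6, 1], .y [4], .l [5, 0], .l [7, 2, 7], .l [4, 6], .l [7, 2], .l [6, 8, 1, 5, 6], .l [4, 9], .l [10, 5]]),
([p 3 0, g, s 0 1, m 0 2, g, s 2 0, p 1 3, g], .hi 5, [.l [4, 7, 4, 6, 4, 1], .l [1, 8, 6, 4, 4, 2, 3], .l [2, 6, 6, 4, 5], .l [1, 6, 4, 2, 2, 0, 1], .y [3, 5], .r 3801 [1, 2, 4, 3] [1, 0, 1, 1, 1], .l [6, 8, 1, 5, 1, 4, 1], .l [1, 8, 6, 5, 1], .l [8, 2, 4, 1], .l [1, 6, 4, 3, 4], .l [2, 6, 3, 1, 6, 4, 1]]),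
([p 3 0, g, s 0 1, g, m 0 2, g, s 2 0, p 1 3, g], .bot 3, [.r 3830 [1, 2, 3] [1, 1, 1], .r 3817 [1, 2, 3] [1, 1, 1, 1], .r 3829 [1, 2, 3] [1, 1, 1, 1], .r 3810 [1, 2, 3] [1, 1, 1, 1]]),
([p 3 1, g, s 1 0, g, s 0 2, p 0 3, s 0 0, g, p 2 0, g], .bot 1, [.c, .r 3441 [1, 2, 3] [1, 1, 1, 1], .r 3560 [1, 3] [1, 2, 4], .r 3589 [1, 3] [1, 2, 3]]),
([p 4 1, s 0 2, g, s 1 0, s 7 0, g, s 3 0, g, s 0 3, p 6 4, s 5 0, g, s 0 5, g, p 0 6, g, s 2 0, g, s 0 7, g], .hi 10, [.l [0, 9, 8, 8, 5, 14], .l [3, 11, 7], .l [14, 1, 15, 12, 1, 6, 10, 1], .l [3, 11, 7], .l [6, 11, 4], .l [14, 1, 15, 12, 1, 3, 10, 1], .l [6, 11, 4], .l [8, 11, 2], .l [14, 1, 15, 12, 2, 12, 1], .l [8, 11, 2], .l [8, 9, 0], .l [11, 16, 13, 1, 17, 13, 2, 9, 4, 2, 4, 1],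 .l [3, 2, 9, 12, 1, 10, 5, 14], .l [3, 2, 11, 1, 12, 10, 5, 14], .y [10, 12], .l [11, 16, 13, 1, 17, 13, 2, 9, 4, 2, 4, 1], .l [12, 1, 15, 12, 1, 4, 5, 11, 4, 2, 3], .l [3, 2, 11, 1, 12, 10, 5, 14], .l [12, 1, 13, 10, 1, 4, 5, 9, 2, 0, 1], .l [8, 1, 9, 13, 3, 11, 0, 7], .l [12, 1, 19, 11, 2, 4, 14, 1, 7, 12, 1], .l [3, 2, 11, 1, 14, 12, 5, 14], .l [3, 2, 14, 16, 10, 5], .l [12, 1, 19, 11, 2, 4, 14, 1, 5, 12, 1], .l [3, 2, 14, 3, 3, 14, 10, 5], .l [3, 2, 14, 16, 10, 5], .l [3, 2, 14, 18, 12, 5], .l [3, 2, 9, 18, 7, 16, 5, 8], .l [3, 2, 14, 3, 3, 16, 12, 5]]),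
([p 3 1, s 0 2, g, s 1 0, s 6 0, g, s 0 0, p 5 3, s 4 0, g, s 0 4, g, p 0 5, g, s 2 0, g, s 0 6, g], .hi 6, [.l [3, 2, 6, 3, 13, 8, 9, 3], .l [5, 4, 8, 3, 15, 10, 11, 3], .r 2428 [7, 3] [2, 4, 10], .l [5, 4, 8, 3, 15, 10, 11, 3], .r 3833 [1, 2, 7, 3, 4, 5, 6] [1, 1, 1, 1, 1, 1, 1, 1], .r 2428 [7, 3] [5, 1, 10], .r 3651 [1, 7, 3] [2, 1, 1, 10], .y [6], .l [3, 2, 14, 5, 7, 2], .l [3, 2, 14, 5, 7, 2], .r 3644 [1, 2, 7, 3, 5] [1, 2, 2, 3, 1, 3], .l [3, 2, 12, 3, 5, 2], .l [3, 2, 14, 3, 7, 4], .l [3, 2, 14, 3, 7, 4], .l [16, 14, 15, 9, 1, 3, 7, 2], .l [3, 2, 12, 1, 5, 4], .r 3782 [1, 7, 3] [1, 2, 5, 5], .r 3415 [1, 7, 3, 5, 6] [2, 1, 4, 1, 3, 1], .r 3743 [1, 7, 3, 5] [1, 2, 3, 1, 5], .r 3782 [1, 7, 3] [1, 2, 7, 3], .r 3415 [1,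 7, 3, 5, 6] [2, 1, 4, 3, 1, 1], .r 3743 [1, 7, 3, 5] [1, 2, 3, 3, 3], .r 3782 [1, 7, 3] [1, 2, 7, 1], .r 3782 [1, 7, 3] [1, 2, 9, 1], .r 3832 [1, 7, 3] [2, 2, 9, 1], .r 3743 [1, 7, 3, 5] [1, 2, 3, 5, 1]]),
([p 3 1, s 0 2, g, s 1 0, s 6 0, g, p 5 3, s 4 0, g, s 0 4, g, p 0 5, g, s 2 0, g, s 0 6, g], .bot 5, [.r 3783 [1, 3, 5] [1, 3, 5], .r 3834 [1, 2, 3, 4, 5, 6] [1, 1, 1, 1, 1, 1, 1], .r 1127 [1, 3] [1, 2, 10], .r 1575 [1, 3] [1, 2, 10]]),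
([p 4 1, s 0 2, g, m 0 3, g, s 1 0, s 3 0, g, p 6 4, s 5 0, g, s 0 5, g, p 0 6, g, s 2 0, g], .hi 9, [.l [1, 8, 6], .l [3, 10, 6], .l [13, 1, 14, 11, 6, 10, 1], .l [3, 10, 6], .l [3, 8, 4], .l [5, 10, 4], .l [13, 1, 14, 11, 4, 10, 1], .l [5, 10, 4], .l [8, 10, 1], .l [13, 1, 14, 11, 1, 10, 1], .l [8, 10, 1], .l [10, 15, 12, 4, 2, 4, 11, 4, 2, 4, 1], .l [9, 12, 8, 4, 14, 8, 4, 7], .l [11, 1, 7, 2, 7, 12], .y [9, 11], .l [10, 15, 12, 4, 2, 4, 11, 4, 2, 4, 1], .l [11, 1, 14, 11, 2, 5, 11, 4, 2, 3], .l [13, 3, 9, 2, 9, 12], .l [11, 1, 12, 9, 2, 5, 9, 2, 0, 1], .l [15, 5, 6, 2, 9, 2, 9, 10, 5, 6, 1], .l [8, 13, 12, 12, 4, 11, 4, 2, 4, 9], .l [15, 5, 6, 2, 9, 2, 9, 10], .l [5, 4, 13, 15, 9, 2], .l [8, 13, 12, 12, 4, 13, 6, 2,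 6, 1], .l [5, 4, 13, 3, 3, 13, 9, 2]]),
([p 4 1, s 0 2, g, s 1 0, s 7 0, g, s 3 0, g, s 0 3, p 6 4, s 5 0, g, s 0 5, g, p 0 6, g, s 0 7, g, s 2 0, g], .hi 10, [.l [0, 9, 8, 8, 5, 12], .l [3, 11, 7], .l [14, 1, 15, 12, 1, 6, 10, 1], .l [3, 11, 7], .l [6, 11, 4], .l [14, 1, 15, 12, 1, 3, 10, 1], .l [6, 11, 4], .l [8, 11, 2], .l [14, 1, 15, 12, 2, 12, 1], .l [8, 11, 2], .l [8, 9, 0], .l [11, 16, 13, 1, 15, 11, 2, 13, 8, 2, 8, 5], .l [3, 2, 9, 12, 1, 10, 5, 12], .l [3, 2, 11, 1, 12, 10, 5, 12], .y [10, 12], .l [11, 16, 13, 1, 15, 11, 2, 13, 8, 2, 8, 5], .l [12, 1, 15, 12, 1, 4, 5, 13, 6, 2, 5], .l [3, 2, 11, 1, 12, 10, 5, 12], .l [12, 1, 13, 10, 1, 4, 5, 11, 4, 0, 3], .l [8, 1, 9, 13, 3, 11, 0, 7], .l [12, 1, 17, 9, 2, 15, 9,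 7, 10], .l [3, 2, 11, 1, 14, 12, 5, 12], .l [12, 1, 15, 7, 2, 13, 7, 5, 8], .l [8, 1, 9, 15, 5, 13, 0, 9], .l [3, 2, 18, 1, 7, 8, 4, 6, 2, 10], .l [3, 2, 11, 1, 16, 14, 5, 10], .l [3, 2, 16, 18, 10, 5], .l [3, 2, 9, 18, 7, 16, 5, 10], .l [3, 2, 16, 5, 5, 16, 10, 5]]),
([p 3 1, s 0 2, g, s 1 0, s 6 0, g, s 0 0, p 5 3, s 4 0, g, s 0 4, g, p 0 5, g, s 0 6, g, s 2 0, g], .hi 6, [.l [3, 2, 6, 3, 11, 6, 7, 1], .l [5, 4, 8, 3, 13, 8, 9, 1], .r 2428 [7, 3] [2, 4, 10], .l [5, 4, 8, 3, 13, 8, 9, 1], .r 3837 [1, 2, 7, 3, 4, 5, 6] [1, 1, 1, 1, 1, 1, 1, 1], .r 2428 [7, 3] [5, 1, 10], .r 3651 [1, 7, 3] [2, 1, 1, 10], .y [6], .l [3, 2, 16, 7, 9, 4], .l [3, 2, 16, 7, 9, 4], .r 3644 [1, 2, 7, 3, 5] [1, 2, 2, 3, 3, 1], .l [3, 2, 14, 5, 7,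 4], .l [3, 2, 16, 5, 9, 6], .l [3, 2, 16, 5, 9, 6], .l [16, 11, 15, 12, 1, 3, 10, 5], .l [3, 2, 14, 3, 7, 6], .r 3782 [1, 7, 3] [1, 2, 5, 5], .r 3415 [1, 7, 3, 5, 6] [2, 1, 4, 1, 1, 3], .r 3743 [1, 7, 3, 5] [1, 2, 3, 1, 5], .r 3782 [1, 7, 3] [1, 2, 5, 3], .r 3782 [1, 7, 3] [1, 2, 7, 3], .r 3832 [1, 7, 3] [2, 2, 7, 3], .r 3743 [1, 7, 3, 5] [1, 2, 3, 3, 3], .r 3782 [1, 7, 3] [1, 2, 9, 1], .r 3832 [1, 7, 3] [2, 2, 9, 1], .r 3743 [1, 7, 3, 5] [1, 2, 3, 5, 1]]),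
([p 3 1, s 0 2, g, s 1 0, s 6 0, g, p 5 3, s 4 0, g, s 0 4, g, p 0 5, g, s 0 6, g, s 2 0, g], .bot 5, [.r 3783 [1, 3, 5] [1, 3, 5], .r 3838 [1, 2, 3, 4, 5, 6] [1, 1, 1, 1, 1, 1, 1], .r 1127 [1, 3] [1, 2, 10], .r 1575 [1, 3] [1, 2, 10]])]

def D14 : List (List (List Item × Qry × List Rf)) := [d14_0, d14_1, d14_2, d14_3]

end Pool.Agent.H63.PU.C161
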