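import Pool.Agent.H63.PU.C161.Cert
import Pool.Agent.H63.PU.Fast

namespace Pool.Agent.H63.PU.C161

open Pool.Agent.H63.PU Pool.Agent.H63.PU.Short

set_option maxRecDepth 20000

theorem k00_0 : allFrom (Fast.checkOne W cert) 8 0 = true := by decide +kernel

theorem k00_1 : allFrom (Fast.checkOne W cert) 8 8 = true := by decide +kernel

theorem k00_2 : allFrom (Fast.checkOne W cert) 8 16 = true := by decide +kernel

theorem k00_3 : allFrom (Fast.checkOne W cert) 8 24 = true := by decide +kernel

theorem k00_4 : allFrom (Fast.checkOne W cert) 8 32 = true := by decide +kernel

theorem k00_5 : allFrom (Fast.checkOne W cert) 8 40 = true := by decide +kernel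

theorem k00_6 : allFrom (Fast.checkOne W cert) 8 48 = true := by decide +kernel

theorem k00_7 : allFrom (Fast.checkOne W cert) 8 56 = true := by decide +kernel

theorem k00_8 : allFrom (Fast.checkOne W cert) 8 64 = true := by decide +kernel

theorem k00_9 : allFrom (Fast.checkOne W cert) 8 72 = true := by decide +kernel

theorem k00_10 : allFrom (Fast.checkOne W cert) 8 80 = true := by decide +kernel

theorem k00_11 : allFrom (Fast.checkOne W cert) 8 88 = true := by decide +kernel

theorem k00_12 : allFrom (Fast.checkOne W cert) 8 96 = true := by decide +kernel

theorem k00_13 : allFrom (Fast.checkOne W cert) 8 104 = true := by decide +kernel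

theorem k00_14 : allFrom (Fast.checkOne W cert) 8 112 = true := by decide +kernel

theorem k00_15 : allFrom (Fast.checkOne W cert) 8 120 = true := by decide +kernel

theorem k00_16 : allFrom (Fast.checkOne W cert) 8 128 = true := by decide +kernel

theorem k00_17 : allFrom (Fast.checkOne W cert) 8 136 = true := by decide +kernel

theorem k00_18 : allFrom (Fast.checkOne W cert) 8 144 = true := by decide +kernel

theorem k00_19 : allFrom (Fast.checkOne W cert) 8 152 = true := by decide +kernel

theorem k00_20 : allFrom (Fast.checkOne W cert) 8 160 = true := by decide +kernel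

theorem k00_21 : allFrom (Fast.checkOne W cert) 8 168 = true := by decide +kernel

theorem k00_22 : allFrom (Fast.checkOne W cert) 8 176 = true := by decide +kernel

theorem k00_23 : allFrom (Fast.checkOne W cert) 8 184 = true := by decide +kernel

theorem k00_24 : allFrom (Fast.checkOne W cert) 8 192 = true := by decide +kernel

theorem k00_25 : allFrom (Fast.checkOne W cert) 8 200 = true := by decide +kernel

theorem k00_26 : allFrom (Fast.checkOne W cert) 8 208 = true := by decide +kernel

theorem k00_27 : allFrom (Fast.checkOne W cert) 8 216 = true := by decide +kernel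

theorem k00_28 : allFrom (Fast.checkOne W cert) 8 224 = true := by decide +kernel

theorem k00_29 : allFrom (Fast.checkOne W cert) 8 232 = true := by decide +kernel

theorem k00_30 : allFrom (Fast.checkOne W cert) 8 240 = true := by decide +kernel

theorem k00_31 : allFrom (Fast.checkOne W cert) 8 248 = true := by decide +kernel

end Pool.Agent.H63.PU.C161
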