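import Pool.Agent.H63.PU.C161.Cert
import Pool.Agent.H63.PU.Fast

namespace Pool.Agent.H63.PU.C161

open Pool.Agent.H63.PU Pool.Agent.H63.PU.Short

set_option maxRecDepth 20000

theorem k16_0 : allFrom (Fast.checkOne W cert) 8 4096 = true := by decide +kernel

theorem k16_1 : allFrom (Fast.checkOne W cert) 8 4104 = true := by decide +kernel

theorem k16_2 : allFrom (Fast.checkOne W cert) 8 4112 = true := by decide +kernel

theorem k16_3 : allFrom (Fast.checkOne W cert) 8 4120 = true := by decide +kernel

theorem k16_4 : allFrom (Fast.checkOne W cert) 8 4128 = true := by decide +kernel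

theorem k16_5 : allFrom (Fast.checkOne W cert) 8 4136 = true := by decide +kernel

theorem k16_6 : allFrom (Fast.checkOne W cert) 8 4144 = true := by decide +kernel

theorem k16_7 : allFrom (Fast.checkOne W cert) 8 4152 = true := by decide +kernel

theorem k16_8 : allFrom (Fast.checkOne W cert) 8 4160 = true := by decide +kernel

theorem k16_9 : allFrom (Fast.checkOne W cert) 8 4168 = true := by decide +kernel

theorem k16_10 : allFrom (Fast.checkOne W cert) 8 4176 = true := by decide +kernel

theorem k16_11 : allFrom (Fast.checkOne W cert) 8 4184 = true := by decide +kernel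

theorem k16_12 : allFrom (Fast.checkOne W cert) 8 4192 = true := by decide +kernel

theorem k16_13 : allFrom (Fast.checkOne W cert) 8 4200 = true := by decide +kernel

theorem k16_14 : allFrom (Fast.checkOne W cert) 8 4208 = true := by decide +kernel

theorem k16_15 : allFrom (Fast.checkOne W cert) 8 4216 = true := by decide +kernel

theorem k16_16 : allFrom (Fast.checkOne W cert) 8 4224 = true := by decide +kernel

theorem k16_17 : allFrom (Fast.checkOne W cert) 8 4232 = true := by decide +kernel

theorem k16_18 : allFrom (Fast.checkOne W cert) 8 4240 = true := by decide +kernel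

theorem k16_19 : allFrom (Fast.checkOne W cert) 8 4248 = true := by decide +kernel

theorem k16_20 : allFrom (Fast.checkOne W cert) 8 4256 = true := by decide +kernel

theorem k16_21 : allFrom (Fast.checkOne W cert) 8 4264 = true := by decide +kernel

theorem k16_22 : allFrom (Fast.checkOne W cert) 8 4272 = true := by decide +kernel

theorem k16_23 : allFrom (Fast.checkOne W cert) 8 4280 = true := by decide +kernel

theorem k16_24 : allFrom (Fast.checkOne W cert) 8 4288 = true := by decide +kernel

theorem k16_25 : allFrom (Fast.checkOne W cert) 8 4296 = true := by decide +kernel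

theorem k16_26 : allFrom (Fast.checkOne W cert) 8 4304 = true := by decide +kernel

theorem k16_27 : allFrom (Fast.checkOne W cert) 8 4312 = true := by decide +kernel

theorem k16_28 : allFrom (Fast.checkOne W cert) 8 4320 = true := by decide +kernel

theorem k16_29 : allFrom (Fast.checkOne W cert) 8 4328 = true := by decide +kernel

theorem k16_30 : allFrom (Fast.checkOne W cert) 8 4336 = true := by decide +kernel

theorem k16_31 : allFrom (Fast.checkOne W cert) 8 4344 = true := by decide +kernel

end Pool.Agent.H63.PU.C161
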